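import Pool.Agent.Helper12_MEB.B052
import Pool.Agent.Helper12_MEB.B087
import Pool.Agent.Helper12_MEB.B145
import Pool.Agent.Helper12_MEB.B151

/-!
# Merged copies (generated) of the modules

* `Pool.Agent.QDA.StmtsE`
* `Pool.Agent.QDA.StmtsZ`
* `Pool.Agent.QDA.StmtsM`
* `Pool.Agent.Helper30_QDA.Ptz`
* `Pool.Agent.Helper30_QDA.Ptm`
* `Pool.Agent.Helper76_QDA.Tav1`
* `Pool.Agent.Helper30_QDA.Qlm`
* `Pool.Agent.Helper76_QDA.Tav`
* `Pool.Agent.Helper41_QDA.Fre`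
* `Pool.Agent.Helper76_QDA.Brg`
* `Pool.Agent.Helper76_QDA.Brg2`
* `Pool.Agent.Helper79_QDA.Fiqm`
* `Pool.Agent.Helper76_QDA.Qkm`
* `Pool.Agent.Helper79_QDA.Qam`
* `Pool.Agent.Helper76_QDA.Fin`
-/

set_option autoImplicit false

section -- Pool.Agent.QDA.StmtsE

/-!
# QDA (MP_1906c1_mp): the deterministic end on the torus

The last configuration of the flow: every clock is `0` (dead) or `f`; the network between the alive
sites satisfies the form bounds; `U = V - f Re m₀` at the running sites, `|U - V| ≤ C₀ f` at the dead sites, is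
the true potential (a real shift `u_b` at the dead sites costs `∑_(x,y) η |(G₂ u G)_xy|² ≤
(C₀ f / η)² ∑_(b dead) Im G_bb`). `G = (Δ + U - E - i η)⁻¹`,
`η = f Im m₀`, is the true resolvent. All but few sites `x` are good: `Im G_xx` is of order one, and
the mass `η |G_xy|²` (total mass `Im G_xx`) is neither in `|x - y| < 2 ^ j` nor in `|x - y| ≥ R`, if
`4 ^ j ≪ D₀ / f` and `R² ≫ D₁ / f`.
-/

set_option autoImplicit false

open scoped BigOperators ComplexConjugate NNReal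

noncomputable section

namespace Pool.Agent.QDA

open Pool.Agent.ANR (Net Gr)
open Pool.Agent.LTG (Tor Bd sT tT bon Box Fm qd)
open Pool.Agent.AND2B (net kap Hr)
open Pool.Agent.ANP (Cfg)
open Pool.Agent.AHH (Al ww Ef)

variable {d M : ℕ} [NeZero M]

/-- the resolvent `(Δ + U - E - i η)⁻¹` -/
def Gt (U : Tor d M → ℝ) (E η : ℝ) : Matrix (Tor d M) (Tor d M) ℂ := Gr (Hr U E) (fun _ => η)

/-- the site `x` is bad: the density is not between `c` and `1 / c`, or more than `ε` of the mass of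
`y ↦ η |G_xy|²` is at a distance less than `r`, or at least `R`, from `x` -/
def Bad (U : Tor d M → ℝ) (E η c ε : ℝ) (r R : ℕ) (x : Tor d M) : Prop :=
  (Gt U E η x x).im < c ∨ 1 / c < (Gt U E η x x).im ∨
  ε < η * ∑ y, (if ANP.H61.sd x y < r then ‖Gt U E η x y‖ ^ 2 else 0) ∨
  ε < η * ∑ y, (if R ≤ ANP.H61.sd x y then ‖Gt U E η x y‖ ^ 2 else 0)

open Classical in
/-- EDQ: THE DETERMINISTIC END -/
def EdqStmt : Prop :=
  ∀ (d : ℕ) (c₀ C₀ ε : ℝ), 3 ≤ d → 0 < c₀ → c₀ ≤ 1 → 1 ≤ C₀ → 0 < ε →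
  ∃ K δ : ℝ, 1 ≤ K ∧ 0 < δ ∧
  ∀ (μ j R : ℕ) (T : Cfg (Tor d (2 ^ μ))) (E e₀ f D₀ D₁ : ℝ) (m₀ : ℂ) (U : Tor d (2 ^ μ) → ℝ),
    0 < e₀ → 0 < f → e₀ ≤ δ * f → c₀ ≤ m₀.im → ‖m₀‖ ≤ C₀ →
    (∀ x, (T.s x : ℝ) = 0 ∨ (T.s x : ℝ) = f) →
    (∀ x, (T.s x : ℝ) = f → ‖T.mb x - m₀‖ ≤ δ ∧ ‖net E e₀ T x x - T.mb x‖ ≤ δ) →
    (∀ x, (T.s x : ℝ) = f → U x = T.V x - f * m₀.re) →
    (∀ x, (T.s x : ℝ) = 0 → |U x - T.V x| ≤ C₀ * f) →
    (∃ (εl εu : Tor d (2 ^ μ) → ℝ) (bl bu : Bd d (2 ^ μ) → ℝ),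
      Fm sT tT (Al T) (ww e₀ T) εl εu bl bu (qd (Ef E e₀ T)) ∧
      (∀ x ∈ Al T, 0 ≤ εl x ∧ εl x ≤ δ) ∧ ∀ e, D₀ ≤ bl e ∧ bu e ≤ D₁) →
    0 < D₀ → j + 1 ≤ μ → 1 ≤ R → K * f * 4 ^ j ≤ D₀ → K * 2 ^ j ≤ 2 ^ μ → K * D₁ ≤ f * R ^ 2 →
    2 * ((Finset.univ.filter fun x => (T.s x : ℝ) = 0).card : ℝ) ≤ ((2 : ℝ) ^ μ) ^ d →
    ((Finset.univ.filter fun x => Bad U E (f * m₀.im) (1 / K) ε (2 ^ j) R x).card : ℝ) ≤
      ((Finset.univ.filter fun x => (T.s x : ℝ) = 0).card : ℝ) + ε * ((2 : ℝ) ^ μ) ^ d +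
        K * ∑ b ∈ Finset.univ.filter fun x => (T.s x : ℝ) = 0, (Gt U E (f * m₀.im) b b).im

end Pool.Agent.QDA
end
end -- Pool.Agent.QDA.StmtsE

section -- Pool.Agent.QDA.StmtsZ

/-!
# QDA (MP_1906c1_mp): from the tori to the lattice, the final statement
-/

set_option autoImplicit false

open MeasureTheory ProbabilityTheory Function Filter

open scoped BigOperators NNReal ENNReal Matrix InnerProductSpace Topology

noncomputable section

namespace Pool.Agent.QDA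

open Pool.Agent.Anderson hiding box mem_box card_box
open Pool.Agent.Loc Pool.Agent.Mob Pool.Agent.Helper54.Bal
  Pool.Agent.Helper96.EXP Pool.Agent.BED
open Pool.Agent.LE.MN Pool.Agent.LE.CL Pool.Agent.LE.IR Pool.Agent.LE.QD

/-- the lattice: the density at `0` is not between `c` and `1 / c`, or more than `ε` of the mass of
`x ↦ η |G(E + i η; 0, x)|²` is at a distance less than `r`, or at least `R`, from `0` -/
def BadZ {d : ℕ} (V : Site d → ℝ) (E η c ε : ℝ) (r R : ℕ) : Prop :=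
  (G V (zz η E) (del 0) 0).im < c ∨ 1 / c < (G V (zz η E) (del 0) 0).im ∨
  ε < η * ∑' x : Site d, (if sd 0 x < r then ‖G V (zz η E) (del 0) x‖ ^ 2 else 0) ∨
  ε < η * ∑' x : Site d, (if R ≤ sd 0 x then ‖G V (zz η E) (del 0) x‖ ^ 2 else 0)

open Classical in
/-- TRQ: THE TRANSFER: the mean fraction of the bad sites of the torus bounds the probability that the
origin of the lattice is bad. Proof: translation invariance of `gau` and of `Bad`; the law of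
`x ↦ V (rep x)`; the cutoff of `ANE.CtzStmt` for `|G - rs|` on the cube of radius `M / 4`, Combes-Thomas
for the tails; `η` small makes all errors smaller than `c / 2` and `ε`. -/
def TrqStmt : Prop :=
  ∀ (d : ℕ) (c ε : ℝ), 1 ≤ d → 0 < c → c ≤ 1 → 0 < ε → ∃ η₀ : ℝ, 0 < η₀ ∧ η₀ ≤ 1 ∧
    ∀ (M : ℕ) [NeZero M] (σ E η : ℝ) (v : ℝ≥0) (r R : ℕ), σ ≠ 0 → (v : ℝ) = σ ^ 2 → 0 < η →
      η ≤ η₀ → η ^ (-3 : ℝ) ≤ M → 8 * (R + 1) ≤ M → r ≤ R →
      PP d (gl σ) {V | BadZ V E η (c / 2) (2 * ε) r R} ≤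
        ∫⁻ U, ENNReal.ofReal (((Finset.univ.filter fun x : Tor d M =>
          Bad U E η c ε r R x).card : ℝ) / (M : ℝ) ^ d) ∂(gau d M v)

/-- PTZ: a small relative change of `η`. Proof: `u = G(η) δ_0`, `u' = G(η') δ_0`, `u - u' = i (η - η') G(η) u'`, so
`‖u - u'‖ ≤ |η - η'| / η ‖u'‖` and `η' ‖u'‖² = Im G(η')_00`. -/
def PtzStmt : Prop :=
  ∀ (d : ℕ) (c ε : ℝ), 0 < c → c ≤ 1 → 0 < ε → ∃ δ : ℝ, 0 < δ ∧
    ∀ (V : Site d → ℝ) (E η η' : ℝ) (r R : ℕ), 0 < η → 0 < η' → |η - η'| ≤ δ * η' →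
      BadZ V E η (c / 2) (2 * ε) r R → BadZ V E η' c ε r R

/-- STM: the self energy does not depend on the torus nor on the tiny absorption. Proof:
`g_M (ζ) = rs 0 ζ 0 0`, `g_M' = ∑ rs²`, `T |g_M'| ≤ 1/4` on the convex set `Im ζ ≥ b T`, `|Re ζ| ≤ 2 d - a / 2`
(`KhbStmt` at `p = 0`), and `g_M - g_M'` is small by `ANE.CtzStmt` with `V = 0`. -/
def StmStmt : Prop :=
  ∀ (d : ℕ) (a b δ : ℝ), 3 ≤ d → 0 < a → 0 < b → 0 < δ → ∃ T₀ : ℝ, 0 < T₀ ∧
    ∀ T : ℝ, 0 < T → T ≤ T₀ → ∃ (e₁ : ℝ) (M₁ : ℕ), 0 < e₁ ∧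
      ∀ (M M' : ℕ) [NeZero M] [NeZero M'] (E E' η η' : ℝ) (m m' : ℂ), M₁ ≤ M → M₁ ≤ M' →
        |E| ≤ 2 * d - a → |E'| ≤ 2 * d - a → |E - E'| ≤ e₁ →
        0 < η → η ≤ e₁ → 0 < η' → η' ≤ e₁ →
        b ≤ m.im → ‖m‖ ≤ 1 / b → b ≤ m'.im → ‖m'‖ ≤ 1 / b →
        rs (0 : Tor d M → ℝ) (⟨E, η⟩ + (T : ℂ) * m) 0 0 = m →
        rs (0 : Tor d M' → ℝ) (⟨E', η'⟩ + (T : ℂ) * m') 0 0 = m' → ‖m - m'‖ ≤ δ

open Classical in
/-- PHQ: THE FLOW: on tori, for every small `w` and EVERY small `η` (up to a relative error `δ`) most of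
the sites are good: `r² ≪ w^(1/1000 - 1) / η` (`8 es < 1/1000`), `R² ≫ 1 / (w η)`. From `ACX.Prt2Stmt`, the nine fields
(uniform in the last clock, row EVU), the scales with an arbitrary last stage (SCB), EDQ, STM. -/
def PhqStmt : Prop :=
  ∀ (d : ℕ) (a p ε δ : ℝ), 3 ≤ d → 0 < a → 0 < p → 0 < ε → 0 < δ →
    ∃ w₀ P K : ℝ, 0 < w₀ ∧ w₀ ≤ 1 ∧ 1 ≤ P ∧ 1 ≤ K ∧
    ∀ (w : ℝ≥0) (E η : ℝ) (r R : ℕ), 0 < w → (w : ℝ) ≤ w₀ → |E| ≤ 2 * d - a → 0 < η → η ≤ (w : ℝ) ^ P →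
      K * η * (r : ℝ) ^ 2 ≤ (w : ℝ) ^ (1 / 1000 - 1 : ℝ) → K ≤ w * η * (R : ℝ) ^ 2 → (R : ℝ) ≤ 1 / η ^ 2 →
      ∃ (μ : ℕ) (η' : ℝ), 0 < η' ∧ |η - η'| ≤ δ * η' ∧ η' ^ (-4 : ℝ) ≤ (2 : ℝ) ^ μ ∧
        ∫⁻ U, ENNReal.ofReal (((Finset.univ.filter fun x : Tor d (2 ^ μ) =>
          Bad U E η' (1 / K) ε r R x).card : ℝ) / ((2 : ℝ) ^ μ) ^ d) ∂(gau d (2 ^ μ) w) ≤
        ENNReal.ofReal p

/-- QDZ: QUANTUM DIFFUSION FOR ALL LARGE TIMES. From PHQ, TRQ, PTZ. -/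
def QdzStmt : Prop :=
  ∀ (d : ℕ) (a ε : ℝ), 3 ≤ d → 0 < a → 0 < ε → ∃ s₀ P c : ℝ, 0 < s₀ ∧ s₀ ≤ 1 ∧ 1 ≤ P ∧ 0 < c ∧
    ∀ (σ E T : ℝ), σ ≠ 0 → |σ| ≤ s₀ → |E| ≤ 2 * d - a → |σ| ^ (-P) ≤ T →
      PP d (gl σ) {V | BadZ V E (1 / T) c ε ⌊|σ| ^ (1 / 500 - 1 : ℝ) * Real.sqrt T⌋₊
        ⌊|σ| ^ (-(1 / 500) - 1 : ℝ) * Real.sqrt T⌋₊} ≤ ENNReal.ofReal ε

end Pool.Agent.QDA
end
end -- Pool.Agent.QDA.StmtsZ

section -- Pool.Agent.QDA.StmtsM

/-!
# QDA (MP_1906c1_mp), second form of the final statement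

The density of states is replaced by the Green function itself: the event contains
`|G(E + i / T; 0, 0) - G_0(E + i / T; 0, 0)| ≤ ε`, `G_0` the free Green function (`BadM`, `BadZM`). By the
conservation of the mass this gives the statement on the time evolution `ψ(t) = e^{-itH} δ_0` (`evol V`,
`isEvolution_evol`, `evol_unique`, `Helper54_Ballistic/Dyson.lean`).
-/

set_option autoImplicit false

open MeasureTheory ProbabilityTheory Function Filter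

open scoped BigOperators NNReal ENNReal Matrix InnerProductSpace Topology

noncomputable section

namespace Pool.Agent.QDA

open Pool.Agent.Anderson hiding box mem_box card_box
open Pool.Agent.Loc Pool.Agent.Mob Pool.Agent.Helper54.Bal
  Pool.Agent.Helper96.EXP Pool.Agent.BED
open Pool.Agent.LE.MN Pool.Agent.LE.CL Pool.Agent.LE.IR Pool.Agent.LE.QD
open Pool.Agent.ANR (Net Gr)
open Pool.Agent.LTG (Bd sT tT bon Box Fm qd)
open Pool.Agent.AND2B (net kap Hr)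
open Pool.Agent.ANP (Cfg)
open Pool.Agent.AHH (Al ww Ef)

/-- torus: the site `x` is bad: `G_xx` is not within `ε` of `m`, or more than `ε` of the mass of
`y ↦ η |G_xy|²` is at a distance less than `r`, or at least `R`, from `x` -/
def BadM {d M : ℕ} [NeZero M] (U : Tor d M → ℝ) (E η : ℝ) (m : ℂ) (ε : ℝ) (r R : ℕ)
    (x : Tor d M) : Prop :=
  ε < ‖Gt U E η x x - m‖ ∨
  ε < η * ∑ y, (if ANP.H61.sd x y < r then ‖Gt U E η x y‖ ^ 2 else 0) ∨
  ε < η * ∑ y, (if R ≤ ANP.H61.sd x y then ‖Gt U E η x y‖ ^ 2 else 0)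

/-- the same at the site `0` of the lattice -/
def BadZM {d : ℕ} (V : Site d → ℝ) (E η : ℝ) (m : ℂ) (ε : ℝ) (r R : ℕ) : Prop :=
  ε < ‖G V (zz η E) (del 0) 0 - m‖ ∨
  ε < η * ∑' x : Site d, (if sd 0 x < r then ‖G V (zz η E) (del 0) x‖ ^ 2 else 0) ∨
  ε < η * ∑' x : Site d, (if R ≤ sd 0 x then ‖G V (zz η E) (del 0) x‖ ^ 2 else 0)

/-- the free Green function at the origin -/
def g0 (d : ℕ) (z : ℂ) : ℂ := G (0 : Site d → ℝ) z (del 0) 0

open Classical in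
/-- EDM: EDQ with `BadM`. Proof: as `H72.edq`; on the alive sites `‖net_xx - m₀‖ ≤ 2 δ`,
`‖Gr H κN x x - Gr H₀ k x x‖ ≤ ε' √(Im Im)` (the complex form of `ngn_im`), and the sum of
`‖Gr H κN x x - Gr H η x x‖` is at most `∑_(b dead) Im G_bb` (`ACS.H72.tri`); Markov. -/
def EdmStmt : Prop :=
  ∀ (d : ℕ) (c₀ C₀ ε : ℝ), 3 ≤ d → 0 < c₀ → c₀ ≤ 1 → 1 ≤ C₀ → 0 < ε →
  ∃ K δ : ℝ, 1 ≤ K ∧ 0 < δ ∧
  ∀ (μ j R : ℕ) (T : Cfg (Tor d (2 ^ μ))) (E e₀ f D₀ D₁ : ℝ) (m₀ : ℂ) (U : Tor d (2 ^ μ) → ℝ),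
    0 < e₀ → 0 < f → e₀ ≤ δ * f → c₀ ≤ m₀.im → ‖m₀‖ ≤ C₀ →
    (∀ x, (T.s x : ℝ) = 0 ∨ (T.s x : ℝ) = f) →
    (∀ x, (T.s x : ℝ) = f → ‖T.mb x - m₀‖ ≤ δ ∧ ‖net E e₀ T x x - T.mb x‖ ≤ δ) →
    (∀ x, (T.s x : ℝ) = f → U x = T.V x - f * m₀.re) →
    (∀ x, (T.s x : ℝ) = 0 → |U x - T.V x| ≤ C₀ * f) →
    (∃ (εl εu : Tor d (2 ^ μ) → ℝ) (bl bu : Bd d (2 ^ μ) → ℝ),
      Fm sT tT (Al T) (ww e₀ T) εl εu bl bu (qd (Ef E e₀ T)) ∧
      (∀ x ∈ Al T, 0 ≤ εl x ∧ εl x ≤ δ) ∧ ∀ e, D₀ ≤ bl e ∧ bu e ≤ D₁) →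
    0 < D₀ → j + 1 ≤ μ → 1 ≤ R → K * f * 4 ^ j ≤ D₀ → K * 2 ^ j ≤ 2 ^ μ → K * D₁ ≤ f * R ^ 2 →
    2 * ((Finset.univ.filter fun x => (T.s x : ℝ) = 0).card : ℝ) ≤ ((2 : ℝ) ^ μ) ^ d →
    ((Finset.univ.filter fun x => BadM U E (f * m₀.im) m₀ ε (2 ^ j) R x).card : ℝ) ≤
      ((Finset.univ.filter fun x => (T.s x : ℝ) = 0).card : ℝ) + ε * ((2 : ℝ) ^ μ) ^ d +
        K * ∑ b ∈ Finset.univ.filter fun x => (T.s x : ℝ) = 0, (Gt U E (f * m₀.im) b b).im

open Classical in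
/-- TRM: THE TRANSFER with `BadM` (`H34.l2`, `H34.mass`; `|G_00 - rs_00| ≤ η`). -/
def TrmStmt : Prop :=
  ∀ (d : ℕ) (ε : ℝ), 1 ≤ d → 0 < ε → ∃ η₀ : ℝ, 0 < η₀ ∧ η₀ ≤ 1 ∧
    ∀ (M : ℕ) [NeZero M] (σ E η : ℝ) (m : ℂ) (v : ℝ≥0) (r R : ℕ), σ ≠ 0 → (v : ℝ) = σ ^ 2 →
      0 < η → η ≤ η₀ → η ^ (-3 : ℝ) ≤ M → 8 * (R + 1) ≤ M → r ≤ R →
      PP d (gl σ) {V | BadZM V E η m (3 * ε) r R} ≤
        ∫⁻ U, ENNReal.ofReal (((Finset.univ.filter fun x : Tor d M =>
          BadM U E η m ε r R x).card : ℝ) / (M : ℝ) ^ d) ∂(gau d M v)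

/-- PTM: a small relative change of `η`. -/
def PtmStmt : Prop :=
  ∀ C ε : ℝ, 1 ≤ C → 0 < ε → ∃ δ : ℝ, 0 < δ ∧
    ∀ (d : ℕ) (V : Site d → ℝ) (E η η' : ℝ) (m : ℂ) (r R : ℕ), ‖m‖ ≤ C → 0 < η → 0 < η' →
      |η - η'| ≤ δ * η' → BadZM V E η m (2 * ε) r R → BadZM V E η' m ε r R

/-- GUC: the free Green function is bounded and Hoelder continuous up to the real axis, `d ≥ 3`.
Proof: `g0(z) = ± i ∫_0^∞ e^{izt} J_0(2t)^d dt`, `|J_0(2t)|^d ≤ C (1 + t)^{-3/2}`. -/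
def GucStmt : Prop :=
  ∀ d : ℕ, 3 ≤ d → ∃ C : ℝ, 1 ≤ C ∧ ∀ z z' : ℂ, 0 < z.im → 0 < z'.im →
    ‖g0 d z‖ ≤ C ∧ ‖g0 d z - g0 d z'‖ ≤ C * ‖z - z'‖ ^ (1 / 4 : ℝ)

open Classical in
/-- PHM: PHQ with `BadM`, `K` before `δ`; `m` is the self energy (of one torus), up to `δ` the solution of
`m = g0(z + σ² m)`. -/
def PhmStmt : Prop :=
  ∀ (d : ℕ) (a p ε : ℝ), 3 ≤ d → 0 < a → 0 < p → 0 < ε →
    ∃ K : ℝ, 1 ≤ K ∧ ∀ δ : ℝ, 0 < δ →
    ∃ w₀ P : ℝ, 0 < w₀ ∧ w₀ ≤ 1 ∧ 1 ≤ P ∧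
    ∀ (w : ℝ≥0) (E η : ℝ) (r R : ℕ), 0 < w → (w : ℝ) ≤ w₀ → |E| ≤ 2 * d - a → 0 < η →
      η ≤ (w : ℝ) ^ P →
      K * η * (r : ℝ) ^ 2 ≤ (w : ℝ) ^ (1 / 1000 - 1 : ℝ) → K ≤ w * η * (R : ℝ) ^ 2 →
      (R : ℝ) ≤ 1 / η ^ 2 →
      ∃ (m : ℂ) (μ : ℕ) (η' : ℝ), ‖m‖ ≤ K ∧ 0 < m.im ∧
        ‖m - g0 d (zz η E + ((w : ℝ) : ℂ) * m)‖ ≤ δ ∧
        0 < η' ∧ |η - η'| ≤ δ * η' ∧ η' ^ (-4 : ℝ) ≤ (2 : ℝ) ^ μ ∧
        ∫⁻ U, ENNReal.ofReal (((Finset.univ.filter fun x : Tor d (2 ^ μ) =>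
          BadM U E η' m ε r R x).card : ℝ) / ((2 : ℝ) ^ μ) ^ d) ∂(gau d (2 ^ μ) w) ≤
        ENNReal.ofReal p

/-- QZM: all times `T ≥ |σ|^{-P}`. From PHM, TRM, PTM, GUC. -/
def QzmStmt : Prop :=
  ∀ (d : ℕ) (a ε : ℝ), 3 ≤ d → 0 < a → 0 < ε → ∃ s₀ P : ℝ, 0 < s₀ ∧ s₀ ≤ 1 ∧ 1 ≤ P ∧
    ∀ (σ E T : ℝ), σ ≠ 0 → |σ| ≤ s₀ → |E| ≤ 2 * d - a → |σ| ^ (-P) ≤ T →
      PP d (gl σ) {V | BadZM V E (1 / T) (g0 d (zz (1 / T) E)) ε
        ⌊|σ| ^ (1 / 500 - 1 : ℝ) * Real.sqrt T⌋₊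
        ⌊|σ| ^ (-(1 / 500) - 1 : ℝ) * Real.sqrt T⌋₊} ≤ ENNReal.ofReal ε

/-- QLM: the lower range, from the landed rows of DelocalizedRegime (local law, moments), GUC. -/
def QlmStmt : Prop :=
  ∀ (d : ℕ) (a ε : ℝ), 3 ≤ d → 0 < a → 0 < ε → ∃ s₀ θ : ℝ, 0 < s₀ ∧ s₀ ≤ 1 ∧ 0 < θ ∧
    ∀ (σ E T : ℝ), σ ≠ 0 → |σ| ≤ s₀ → |E| ≤ 2 * d - a → |σ| ^ (-3 : ℝ) ≤ T →
      T ≤ Real.exp (|σ| ^ (-θ)) →
      PP d (gl σ) {V | BadZM V E (1 / T) (g0 d (zz (1 / T) E)) ε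
        ⌊|σ| ^ (1 / 500 - 1 : ℝ) * Real.sqrt T⌋₊
        ⌊|σ| ^ (-(1 / 500) - 1 : ℝ) * Real.sqrt T⌋₊} ≤ ENNReal.ofReal ε

/-- QAM: ALL TIMES `T ≥ |σ|^{-3}`, resolved in energy. From QZM, QLM. -/
def QamStmt : Prop :=
  ∀ (d : ℕ) (a ε : ℝ), 3 ≤ d → 0 < a → 0 < ε → ∃ s₀ : ℝ, 0 < s₀ ∧ s₀ ≤ 1 ∧
    ∀ (σ E T : ℝ), σ ≠ 0 → |σ| ≤ s₀ → |E| ≤ 2 * d - a → |σ| ^ (-3 : ℝ) ≤ T →
      PP d (gl σ) {V | BadZM V E (1 / T) (g0 d (zz (1 / T) E)) ε
        ⌊|σ| ^ (1 / 500 - 1 : ℝ) * Real.sqrt T⌋₊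
        ⌊|σ| ^ (-(1 / 500) - 1 : ℝ) * Real.sqrt T⌋₊} ≤ ENNReal.ofReal ε

/-- TAV: ALL TIMES `T ≥ |σ|^{-3}`, the time evolution. Proof, `η = 1 / T`, `B = [-(2 d - a), 2 d - a]`,
`S` the set of the sites which are near or far, `N(E) = η ∑_(x ∈ S) |G(E + i η; 0, x)|² ≤ I(E) =
η ∑_x |G(E + i η; 0, x)|² = Im G(E + i η; 0, 0)`. Plancherel (`planch_coord`): `∫ N dE = 2 π η ∫_0^∞ e^{-2 η t}
∑_(x ∈ S) |ψ(t, x)|² dt`, `∫ I dE = π` (`norm_evol`). For `E ∈ B` let `Q(E)` be the complement of the bad event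
(QAM with `ε'`): there `N ≤ 2 ε'` and `I ≥ Im g0(E + i η) - ε'`. So `∫ N ≤ ∫_(B ∩ Q) N + ∫_(rest) I ≤
4 d ε' + π - ∫_(B ∩ Q) I ≤ 8 d ε' + π - ∫_B Im g0 + C |B \ Q|`, `𝔼 |B \ Q| ≤ 4 d ε'` (Tonelli), and
`π - ∫_B Im g0 = ∫_(outside B) Im g0 ≤ 4 a C + 2 η / a` (GUC near `± 2 d`, `Im g0 ≤ η / dist²` outside). -/
def TavStmt : Prop :=
  ∀ (d : ℕ) (ε : ℝ), 3 ≤ d → 0 < ε → ∃ s₀ : ℝ, 0 < s₀ ∧ s₀ ≤ 1 ∧
    ∀ (σ T : ℝ), σ ≠ 0 → |σ| ≤ s₀ → |σ| ^ (-3 : ℝ) ≤ T →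
      ∫⁻ V, (∫⁻ t in Set.Ioc (0 : ℝ) T, ∑' x : Site d,
        (if (sd 0 x : ℝ) ≤ |σ| ^ (-(99 / 100) : ℝ) * Real.sqrt T ∨
            |σ| ^ (-(101 / 100) : ℝ) * Real.sqrt T ≤ sd 0 x then
          ENNReal.ofReal (‖evol V t x‖ ^ 2) else 0)) ∂(PP d (gl σ)) ≤ ENNReal.ofReal (ε * T)

end Pool.Agent.QDA
end
end -- Pool.Agent.QDA.StmtsM

section -- Pool.Agent.Helper30_QDA.Ptz

/-!
# QDA, row PTZ: a small relative change of the imaginary part
-/

set_option autoImplicit false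

open MeasureTheory ProbabilityTheory Function Filter

open scoped BigOperators NNReal ENNReal Matrix InnerProductSpace Topology

noncomputable section

namespace Pool.Agent.QDA.H30

open Pool.Agent.Anderson hiding box mem_box card_box
open Pool.Agent.Loc Pool.Agent.Mob Pool.Agent.Helper54.Bal
  Pool.Agent.Helper96.EXP Pool.Agent.BED
open Pool.Agent.LE.MN Pool.Agent.LE.CL Pool.Agent.LE.IR Pool.Agent.LE.QD

variable {d : ℕ}

/-- the mass of a vector in a set of sites -/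
def mas (f : L2 d) (P : Site d → Prop) [DecidablePred P] : ℝ :=
  ∑' x : Site d, (if P x then ‖f x‖ ^ 2 else 0)

theorem summable_sq (f : L2 d) : Summable fun x : Site d => ‖f x‖ ^ 2 := by
  have h := lp.memℓp f
  rw [memℓp_gen_iff (by norm_num)] at h
  simpa using h

theorem norm_sq (f : L2 d) : ‖f‖ ^ 2 = ∑' x : Site d, ‖f x‖ ^ 2 := by
  have h := lp.norm_rpow_eq_tsum (p := 2) (by norm_num) f
  simpa using h

theorem summable_if (f : L2 d) (P : Site d → Prop) [DecidablePred P] :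
    Summable fun x : Site d => if P x then ‖f x‖ ^ 2 else 0 := by
  refine Summable.of_nonneg_of_le (fun x => ?_) (fun x => ?_) (summable_sq f)
  · split_ifs
    · positivity
    · exact le_rfl
  · split_ifs
    · exact le_rfl
    · positivity

theorem mas_le (f g : L2 d) (P : Site d → Prop) [DecidablePred P] :
    mas f P ≤ 5 / 4 * mas g P + 5 * ‖f - g‖ ^ 2 := by
  rw [norm_sq (f - g)]
  unfold mas
  rw [← tsum_mul_left, ← tsum_mul_left,
    ← ((summable_if g P).mul_left (5 / 4 : ℝ)).tsum_add ((summable_sq (f - g)).mul_left 5)]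
  refine (summable_if f P).tsum_le_tsum (fun x => ?_)
    (((summable_if g P).mul_left (5 / 4 : ℝ)).add ((summable_sq (f - g)).mul_left 5))
  have h1 : (f - g) x = f x - g x := rfl
  by_cases h : P x
  · rw [if_pos h, if_pos h, h1]
    have h2 : ‖f x‖ ≤ ‖g x‖ + ‖f x - g x‖ := by
      have := norm_add_le (g x) (f x - g x)
      rwa [add_sub_cancel] at this
    have h3 := norm_nonneg (f x)
    have h4 := norm_nonneg (g x)
    have h5 := norm_nonneg (f x - g x)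
    have h6 : ‖f x‖ ^ 2 ≤ (‖g x‖ + ‖f x - g x‖) ^ 2 := pow_le_pow_left₀ h3 h2 2
    nlinarith only [sq_nonneg (‖g x‖ - 4 * ‖f x - g x‖), h6]
  · rw [if_neg h, if_neg h]
    positivity

/-- the comparison, in the abstract form -/
theorem cmpz (V : Site d → ℝ) (E η η' δ : ℝ) (hη : 0 < η) (hη' : 0 < η')
    (hδ1 : δ ≤ 1 / 5) (h : |η - η'| ≤ δ * η') :
    let u := G V (zz η E) (del 0)
    let u' := G V (zz η' E) (del 0)
    (u' 0).im = η' * ‖u'‖ ^ 2 ∧ (u' 0).im / 2 ≤ (u 0).im ∧ (u 0).im ≤ 2 * (u' 0).im ∧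
      η * ‖u - u'‖ ^ 2 ≤ 2 * δ ^ 2 * (u' 0).im ∧ η ≤ 6 / 5 * η' := by
  intro u u'
  have hD : IsRes (G V) := isRes_G V
  have hz : (zz η E).im ≠ 0 := by rw [zz_im]; exact hη.ne'
  have hz' : (zz η' E).im ≠ 0 := by rw [zz_im]; exact hη'.ne'
  have hco : ∀ f : L2 d, ⟪del (0 : Site d), f⟫_ℂ = f 0 := fun f => by
    rw [← coord_apply]
    rfl
  have ha : (u 0).im = η * ‖u‖ ^ 2 := by
    have := hD.im_inner hz (del (0 : Site d))
    rwa [hco, zz_im] at this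
  have hb : (u' 0).im = η' * ‖u'‖ ^ 2 := by
    have := hD.im_inner hz' (del (0 : Site d))
    rwa [hco, zz_im] at this
  have hzz : ‖zz η E - zz η' E‖ = |η - η'| := by
    have : zz η E - zz η' E = ((η - η' : ℝ) : ℂ) * Complex.I := by
      unfold zz
      push_cast
      ring
    rw [this, norm_mul, Complex.norm_I, mul_one, Complex.norm_real, Real.norm_eq_abs]
  have hsub : u - u' = (zz η E - zz η' E) • G V (zz η E) u' := hD.ident_apply hz hz' _
  have h1 := abs_le.1 h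
  have hlo : 4 / 5 * η' ≤ η := by nlinarith only [hη', hδ1, h1]
  have hhi : η ≤ 6 / 5 * η' := by nlinarith only [hη', hδ1, h1]
  have hn1 : ‖u - u'‖ ≤ |η - η'| * (η⁻¹ * ‖u'‖) := by
    rw [hsub, norm_smul, hzz]
    refine mul_le_mul_of_nonneg_left ?_ (abs_nonneg _)
    have := hD.norm_le' hz u'
    rwa [zz_im, abs_of_pos hη] at this
  have hd0 : ‖u 0 - u' 0‖ ≤ |η - η'| * (‖u‖ * ‖u'‖) := by
    have e1 : u 0 - u' 0 = (zz η E - zz η' E) * ⟪del (0 : Site d), G V (zz η E) u'⟫_ℂ := by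
      rw [← hco u, ← hco u', ← inner_sub_right, hsub, inner_smul_right]
    have e2 : ⟪del (0 : Site d), G V (zz η E) u'⟫_ℂ =
        ⟪G V ((starRingEnd ℂ) (zz η E)) (del (0 : Site d)), u'⟫_ℂ := by
      rw [hD.adj _ (conj_im_ne hz), Complex.conj_conj]
    rw [e1, norm_mul, hzz, e2]
    refine mul_le_mul_of_nonneg_left ((norm_inner_le_norm _ _).trans ?_) (abs_nonneg _)
    rw [hD.norm_conj hz]
  have hnu := norm_nonneg u
  have hnu' := norm_nonneg u'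
  have hi : |(u 0).im - (u' 0).im| ≤ |η - η'| * (‖u‖ * ‖u'‖) := by
    rw [← Complex.sub_im]
    exact (Complex.abs_im_le_norm _).trans hd0
  have hi2 : |(u 0).im - (u' 0).im| ≤ 1 / 10 * (5 / 4 * (u 0).im + (u' 0).im) := by
    refine hi.trans ?_
    have e1 : |η - η'| * (‖u‖ * ‖u'‖) ≤ (1 / 5 * η') * ((‖u‖ ^ 2 + ‖u'‖ ^ 2) / 2) := by
      have e2 : |η - η'| ≤ 1 / 5 * η' := h.trans (mul_le_mul_of_nonneg_right hδ1 hη'.le)
      have e3 : ‖u‖ * ‖u'‖ ≤ (‖u‖ ^ 2 + ‖u'‖ ^ 2) / 2 := by nlinarith only [sq_nonneg (‖u‖ - ‖u'‖)]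
      exact mul_le_mul e2 e3 (by positivity) (by positivity)
    refine e1.trans ?_
    rw [ha, hb]
    have e4 : η' * ‖u‖ ^ 2 ≤ 5 / 4 * η * ‖u‖ ^ 2 :=
      mul_le_mul_of_nonneg_right (by linarith only [hlo]) (by positivity)
    nlinarith only [e4]
  have hi3 := abs_le.1 hi2
  have hb0 : 0 ≤ (u' 0).im := by rw [hb]; positivity
  refine ⟨hb, by linarith only [hi3], by linarith only [hi3], ?_, hhi⟩
  have e1 : ‖u - u'‖ ^ 2 ≤ (|η - η'| * (η⁻¹ * ‖u'‖)) ^ 2 := pow_le_pow_left₀ (norm_nonneg _) hn1 2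
  have e2 : η * ‖u - u'‖ ^ 2 ≤ η * (|η - η'| * (η⁻¹ * ‖u'‖)) ^ 2 :=
    mul_le_mul_of_nonneg_left e1 hη.le
  refine e2.trans ?_
  have e3 : η * (|η - η'| * (η⁻¹ * ‖u'‖)) ^ 2 = |η - η'| ^ 2 * ‖u'‖ ^ 2 / η := by
    field_simp
  rw [e3, hb, div_le_iff₀ hη]
  have e4 : |η - η'| ^ 2 ≤ (δ * η') ^ 2 := pow_le_pow_left₀ (abs_nonneg _) h 2
  have e5 : |η - η'| ^ 2 * ‖u'‖ ^ 2 ≤ (δ * η') ^ 2 * ‖u'‖ ^ 2 :=
    mul_le_mul_of_nonneg_right e4 (by positivity)
  refine e5.trans ?_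
  have e6 : 0 ≤ δ ^ 2 * η' * ‖u'‖ ^ 2 := by positivity
  nlinarith [mul_le_mul_of_nonneg_left (show η' ≤ 2 * η by linarith only [hη, hlo]) e6]

theorem ptz : PtzStmt := by
  intro d c ε hc hc1 hε
  refine ⟨min (1 / 5) (c * ε / 4), by positivity, ?_⟩
  intro V E η η' r R hη hη' h hbad
  by_contra hgood
  set δ := min (1 / 5) (c * ε / 4) with hδd
  have hδ0 : 0 < δ := by positivity
  have hδ1 : δ ≤ 1 / 5 := min_le_left _ _
  have hδ2 : δ ≤ c * ε / 4 := min_le_right _ _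
  obtain ⟨h1, h2, h3, h4, h5⟩ := cmpz V E η η' δ hη hη' hδ1 h
  unfold BadZ at hgood hbad
  push Not at hgood
  obtain ⟨g1, g2, g3, g4⟩ := hgood
  set u := G V (zz η E) (del 0)
  set u' := G V (zz η' E) (del 0)
  have hδε : 10 * δ ^ 2 * (u' 0).im ≤ ε / 2 := by
    have e1 : 10 * δ ^ 2 * (u' 0).im ≤ 10 * δ ^ 2 * (1 / c) :=
      mul_le_mul_of_nonneg_left g2 (by positivity)
    have e2 : δ ^ 2 ≤ 1 / 5 * (c * ε / 4) := by
      rw [sq]
      exact mul_le_mul hδ1 hδ2 hδ0.le (by norm_num)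
    have e3 : 10 * δ ^ 2 * (1 / c) ≤ 10 * (1 / 5 * (c * ε / 4)) * (1 / c) :=
      mul_le_mul_of_nonneg_right (by linarith only [e2]) (by positivity)
    have e4 : 10 * (1 / 5 * (c * ε / 4)) * (1 / c) = ε / 2 := by
      field_simp
      ring
    linarith only [e1, e3, e4]
  have hmass : ∀ (P : Site d → Prop) [DecidablePred P], η' * mas u' P ≤ ε →
      η * mas u P ≤ 2 * ε := by
    intro P _ hP
    have e1 := mul_le_mul_of_nonneg_left (mas_le u u' P) hη.le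
    have e0 : 0 ≤ mas u' P := tsum_nonneg fun x => by
      split_ifs
      · positivity
      · exact le_rfl
    have e2 : η * mas u' P ≤ 6 / 5 * (η' * mas u' P) := by
      have := mul_le_mul_of_nonneg_right h5 e0
      linarith only [this]
    nlinarith only [h4, hδε, hP, e1, e2]
  rcases hbad with hb | hb | hb | hb
  · linarith only [g1, h2, hb]
  · have : 1 / (c / 2) = 2 * (1 / c) := by
      field_simp
    rw [this] at hb
    linarith only [g2, h3, hb]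
  · have := hmass (fun x => sd 0 x < r) g3
    unfold mas at this
    linarith only [hb, this]
  · have := hmass (fun x => R ≤ sd 0 x) g4
    unfold mas at this
    linarith only [hb, this]

end Pool.Agent.QDA.H30
end
end -- Pool.Agent.Helper30_QDA.Ptz

section -- Pool.Agent.Helper30_QDA.Ptm

/-!
# QDA, row PTM: a small relative change of the imaginary part, the Green function itself
-/

set_option autoImplicit false

open MeasureTheory ProbabilityTheory Function Filter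

open scoped BigOperators NNReal ENNReal Matrix InnerProductSpace Topology

noncomputable section

namespace Pool.Agent.QDA.H30

open Pool.Agent.Anderson hiding box mem_box card_box
open Pool.Agent.Loc Pool.Agent.Mob Pool.Agent.Helper54.Bal
  Pool.Agent.Helper96.EXP Pool.Agent.BED
open Pool.Agent.LE.MN Pool.Agent.LE.CL Pool.Agent.LE.IR Pool.Agent.LE.QD

variable {d : ℕ}

/-- the comparison of the Green functions at the origin -/
theorem cmpd (V : Site d → ℝ) (E η η' δ : ℝ) (hη : 0 < η) (hη' : 0 < η')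
    (hδ1 : δ ≤ 1 / 5) (h : |η - η'| ≤ δ * η') :
    ‖G V (zz η E) (del 0) 0 - G V (zz η' E) (del 0) 0‖ ≤
      2 * δ * (G V (zz η' E) (del 0) 0).im := by
  obtain ⟨h1, h2, h3, h4, h5⟩ := cmpz V E η η' δ hη hη' hδ1 h
  have hδ0 : 0 ≤ δ := by
    have := (abs_nonneg _).trans h
    by_contra hc
    rw [not_le] at hc
    nlinarith only [mul_neg_of_neg_of_pos hc hη', this]
  set u := G V (zz η E) (del 0)
  set u' := G V (zz η' E) (del 0)
  have hD : IsRes (G V) := isRes_G V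
  have hz : (zz η E).im ≠ 0 := by rw [zz_im]; exact hη.ne'
  have hz' : (zz η' E).im ≠ 0 := by rw [zz_im]; exact hη'.ne'
  have hco : ∀ f : L2 d, ⟪del (0 : Site d), f⟫_ℂ = f 0 := fun f => by
    rw [← coord_apply]
    rfl
  have ha : (u 0).im = η * ‖u‖ ^ 2 := by
    have := hD.im_inner hz (del (0 : Site d))
    rwa [hco, zz_im] at this
  have hzz : ‖zz η E - zz η' E‖ = |η - η'| := by
    have : zz η E - zz η' E = ((η - η' : ℝ) : ℂ) * Complex.I := by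
      unfold zz
      push_cast
      ring
    rw [this, norm_mul, Complex.norm_I, mul_one, Complex.norm_real, Real.norm_eq_abs]
  have hsub : u - u' = (zz η E - zz η' E) • G V (zz η E) u' := hD.ident_apply hz hz' _
  have hd0 : ‖u 0 - u' 0‖ ≤ |η - η'| * (‖u‖ * ‖u'‖) := by
    have e1 : u 0 - u' 0 = (zz η E - zz η' E) * ⟪del (0 : Site d), G V (zz η E) u'⟫_ℂ := by
      rw [← hco u, ← hco u', ← inner_sub_right, hsub, inner_smul_right]
    have e2 : ⟪del (0 : Site d), G V (zz η E) u'⟫_ℂ =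
        ⟪G V ((starRingEnd ℂ) (zz η E)) (del (0 : Site d)), u'⟫_ℂ := by
      rw [hD.adj _ (conj_im_ne hz), Complex.conj_conj]
    rw [e1, norm_mul, hzz, e2]
    refine mul_le_mul_of_nonneg_left ((norm_inner_le_norm _ _).trans ?_) (abs_nonneg _)
    rw [hD.norm_conj hz]
  refine hd0.trans ?_
  have h6 := abs_le.1 h
  have hlo : 4 / 5 * η' ≤ η := by nlinarith only [hη', hδ1, h6]
  have e1 : |η - η'| * (‖u‖ * ‖u'‖) ≤ δ * η' * ((‖u‖ ^ 2 + ‖u'‖ ^ 2) / 2) := by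
    have e3 : ‖u‖ * ‖u'‖ ≤ (‖u‖ ^ 2 + ‖u'‖ ^ 2) / 2 := by nlinarith only [sq_nonneg (‖u‖ - ‖u'‖)]
    exact mul_le_mul h e3 (by positivity) (by positivity)
  refine e1.trans ?_
  have e4 : η' * ‖u‖ ^ 2 ≤ 5 / 4 * η * ‖u‖ ^ 2 :=
    mul_le_mul_of_nonneg_right (by linarith only [hlo]) (by positivity)
  have e5 : η' * ((‖u‖ ^ 2 + ‖u'‖ ^ 2) / 2) ≤ 2 * (u' 0).im := by
    have e6 : η' * ((‖u‖ ^ 2 + ‖u'‖ ^ 2) / 2) = (η' * ‖u‖ ^ 2 + η' * ‖u'‖ ^ 2) / 2 := by ring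
    have e7 : 0 ≤ (u' 0).im := by rw [h1]; positivity
    rw [e6, ← h1]
    have e8 : η' * ‖u‖ ^ 2 ≤ 5 / 4 * (u 0).im := by rw [ha]; linarith only [e4]
    linarith only [h2, h3, ha, e4]
  calc δ * η' * ((‖u‖ ^ 2 + ‖u'‖ ^ 2) / 2) = δ * (η' * ((‖u‖ ^ 2 + ‖u'‖ ^ 2) / 2)) := by ring
    _ ≤ δ * (2 * (u' 0).im) := mul_le_mul_of_nonneg_left e5 hδ0
    _ = 2 * δ * (u' 0).im := by ring

theorem ptm : PtmStmt := by
  intro C ε hC hε
  have hCε : 0 < C + ε := by linarith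
  refine ⟨min (1 / 5) (ε / (4 * (C + ε))), by positivity, ?_⟩
  intro d V E η η' m r R hm hη hη' h hbad
  by_contra hgood
  set δ := min (1 / 5) (ε / (4 * (C + ε))) with hδd
  have hδ0 : 0 < δ := by positivity
  have hδ1 : δ ≤ 1 / 5 := min_le_left _ _
  have hδ2 : δ * (C + ε) ≤ ε / 4 := by
    have e1 : δ ≤ ε / (4 * (C + ε)) := min_le_right _ _
    have e2 := mul_le_mul_of_nonneg_right e1 hCε.le
    have e3 : ε / (4 * (C + ε)) * (C + ε) = ε / 4 := by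
      field_simp
    linarith only [e2, e3]
  obtain ⟨h1, h2, h3, h4, h5⟩ := cmpz V E η η' δ hη hη' hδ1 h
  have h6 := cmpd V E η η' δ hη hη' hδ1 h
  unfold BadZM at hgood hbad
  push Not at hgood
  obtain ⟨g1, g3, g4⟩ := hgood
  set u := G V (zz η E) (del 0)
  set u' := G V (zz η' E) (del 0)
  have g2 : (u' 0).im ≤ C + ε := by
    have e1 : (u' 0).im ≤ ‖u' 0‖ := (le_abs_self _).trans (Complex.abs_im_le_norm _)
    have e2 : ‖u' 0‖ ≤ ‖u' 0 - m‖ + ‖m‖ := by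
      have := norm_add_le (u' 0 - m) m
      rwa [sub_add_cancel] at this
    linarith only [hm, g1, e1, e2]
  have g0 : 0 ≤ (u' 0).im := by rw [h1]; positivity
  have hδb : δ * (u' 0).im ≤ ε / 4 :=
    (mul_le_mul_of_nonneg_left g2 hδ0.le).trans hδ2
  have hδε : 10 * δ ^ 2 * (u' 0).im ≤ ε / 2 := by
    have e1 : 10 * δ ^ 2 * (u' 0).im = 10 * δ * (δ * (u' 0).im) := by ring
    have e2 : 10 * δ * (δ * (u' 0).im) ≤ 2 * (δ * (u' 0).im) :=
      mul_le_mul_of_nonneg_right (by linarith only [hδ1]) (by positivity)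
    rw [e1]
    linarith only [hδb, e2]
  have hmass : ∀ (P : Site d → Prop) [DecidablePred P], η' * mas u' P ≤ ε →
      η * mas u P ≤ 2 * ε := by
    intro P _ hP
    have e1 := mul_le_mul_of_nonneg_left (mas_le u u' P) hη.le
    have e0 : 0 ≤ mas u' P := tsum_nonneg fun x => by
      split_ifs
      · positivity
      · exact le_rfl
    have e2 : η * mas u' P ≤ 6 / 5 * (η' * mas u' P) := by
      have := mul_le_mul_of_nonneg_right h5 e0
      linarith only [this]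
    nlinarith only [h4, hδε, hP, e1, e2]
  rcases hbad with hb | hb | hb
  · have e1 : ‖u 0 - m‖ ≤ ‖u 0 - u' 0‖ + ‖u' 0 - m‖ := by
      have := norm_add_le (u 0 - u' 0) (u' 0 - m)
      rwa [sub_add_sub_cancel] at this
    have e2 : 2 * δ * (u' 0).im = 2 * (δ * (u' 0).im) := by ring
    linarith only [hε, g1, h6, hδb, hb, e1]
  · have := hmass (fun x => sd 0 x < r) g3
    unfold mas at this
    linarith only [hb, this]
  · have := hmass (fun x => R ≤ sd 0 x) g4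
    unfold mas at this
    linarith only [hb, this]

end Pool.Agent.QDA.H30
end
end -- Pool.Agent.Helper30_QDA.Ptm

section -- Pool.Agent.Helper76_QDA.Tav1

/-!
# QDA, row TAV: the Plancherel formula and the total mass
-/

set_option autoImplicit false

open MeasureTheory ProbabilityTheory Function Filter

open scoped BigOperators NNReal ENNReal Matrix InnerProductSpace Topology

noncomputable section

namespace Pool.Agent.QDA.H76

open Pool.Agent.Anderson hiding box mem_box card_box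
open Pool.Agent.Loc Pool.Agent.Mob Pool.Agent.Helper54.Bal
  Pool.Agent.Helper96.EXP Pool.Agent.BED

variable {d : ℕ}

theorem zz_im (η E : ℝ) : (zz η E).im = η := by simp [zz]

theorem zz_im_ne {η : ℝ} (hη : 0 < η) (E : ℝ) : (zz η E).im ≠ 0 := by
  rw [zz_im]
  exact hη.ne'

/-- the mass of `η |G|²` on the set `S` -/
def mm (S : Set (Site d)) (η : ℝ) (V : Site d → ℝ) (E : ℝ) : ℝ≥0∞ :=
  ∑' x : Site d, S.indicator (fun x => ENNReal.ofReal (η * ‖G V (zz η E) (del 0) x‖ ^ 2)) x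

/-- the resolvent depends measurably on the potential -/
theorem measG (E : ℝ) {η : ℝ} (hη : 0 < η) (y : Site d) :
    Measurable fun V : Site d → ℝ => G V (zz η E) (del 0) y := by
  have h := (Pool.Agent.QE.Cov.res (d := d) (zz_im_ne hη E)).meas (del 0)
  have h2 : StronglyMeasurable fun V : Site d → ℝ => ⟪(del y : L2 d), G V (zz η E) (del 0)⟫_ℂ :=
    stronglyMeasurable_const.inner h
  have h3 : (fun V : Site d → ℝ => G V (zz η E) (del 0) y) =
      fun V => ⟪(del y : L2 d), G V (zz η E) (del 0)⟫_ℂ := by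
    funext V
    rw [← coord_apply]
    rfl
  rw [h3]
  exact h2.measurable

theorem contG (V : Site d → ℝ) {η : ℝ} (hη : 0 < η) (y : Site d) :
    Continuous fun E : ℝ => G V (zz η E) (del 0) y :=
  continuous_coord ((isRes_G V).cont_line hη.ne' (del 0)) y

theorem measG2 {η : ℝ} (hη : 0 < η) (y : Site d) :
    Measurable fun p : ℝ × (Site d → ℝ) => G p.2 (zz η p.1) (del 0) y := by
  have h := measurable_uncurry_of_continuous_of_measurable
    (u := fun (E : ℝ) (V : Site d → ℝ) => G V (zz η E) (del 0) y)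
    (fun V => contG V hη y) (fun E => measG E hη y)
  exact h

theorem meas_mm (S : Set (Site d)) {η : ℝ} (hη : 0 < η) :
    Measurable fun p : ℝ × (Site d → ℝ) => mm S η p.2 p.1 := by
  unfold mm
  refine Measurable.tsum fun y => ?_
  by_cases h : y ∈ S
  · simp only [Set.indicator_of_mem h]
    exact ENNReal.measurable_ofReal.comp (((measG2 hη y).norm.pow_const 2).const_mul η)
  · simp only [Set.indicator_of_notMem h]
    exact measurable_const

theorem meas_mm_E (S : Set (Site d)) {η : ℝ} (hη : 0 < η) (V : Site d → ℝ) :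
    Measurable fun E : ℝ => mm S η V E := by
  have h1 : Measurable fun E : ℝ => (E, V) := measurable_id.prodMk measurable_const
  have h : Measurable ((fun p : ℝ × (Site d → ℝ) => mm S η p.2 p.1) ∘ fun E : ℝ => (E, V)) :=
    (meas_mm S hη).comp h1
  exact h

theorem meas_mm_V (S : Set (Site d)) {η : ℝ} (hη : 0 < η) (E : ℝ) :
    Measurable fun V : Site d → ℝ => mm S η V E := by
  have h1 : Measurable fun V : Site d → ℝ => (E, V) := measurable_const.prodMk measurable_id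
  have h : Measurable ((fun p : ℝ × (Site d → ℝ) => mm S η p.2 p.1) ∘
      fun V : Site d → ℝ => (E, V)) := (meas_mm S hη).comp h1
  exact h

/-- the Ward identity -/
theorem ward (V : Site d → ℝ) {η : ℝ} (hη : 0 < η) (E : ℝ) :
    (G V (zz η E) (del 0) 0).im = η * ‖G V (zz η E) (del 0)‖ ^ 2 := by
  have h := (isRes_G V).im_inner (zz_im_ne hη E) (del 0)
  rw [zz_im] at h
  rw [← h, ← coord_apply]
  rfl

theorem mm_univ (V : Site d → ℝ) {η : ℝ} (hη : 0 < η) (E : ℝ) :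
    mm Set.univ η V E = ENNReal.ofReal ((G V (zz η E) (del 0) 0).im) := by
  rw [ward V hη E, H30.norm_sq, ← tsum_mul_left, ENNReal.ofReal_tsum_of_nonneg]
  · unfold mm
    simp only [Set.indicator_univ]
  · intro x
    positivity
  · exact (H30.summable_sq _).mul_left η

theorem mm_mono {S S' : Set (Site d)} (h : S ⊆ S') (η : ℝ) (V : Site d → ℝ) (E : ℝ) :
    mm S η V E ≤ mm S' η V E :=
  ENNReal.tsum_le_tsum fun x => Set.indicator_le_indicator_of_subset h (fun _ => bot_le) x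

/-- the Plancherel formula for the mass on the set `S` -/
theorem lint_mm (S : Set (Site d)) {V : Site d → ℝ} {ψ : ℝ → L2 d} (h : IsEvolution V ψ) {η : ℝ}
    (hη : 0 < η) :
    ∫⁻ E : ℝ, mm S η V E = ENNReal.ofReal (2 * Real.pi * η) *
      ∫⁻ t in Set.Ioi (0 : ℝ), ∑' x : Site d, S.indicator
        (fun x => ENNReal.ofReal (Real.exp (-(2 * η) * t) * ‖ψ t x‖ ^ 2)) x := by
  have hm : ∀ x : Site d, Measurable fun t : ℝ =>
      S.indicator (fun x => ENNReal.ofReal (Real.exp (-(2 * η) * t) * ‖ψ t x‖ ^ 2)) x := by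
    intro x
    by_cases hx : x ∈ S
    · simp only [Set.indicator_of_mem hx]
      refine ENNReal.measurable_ofReal.comp (Measurable.mul ?_ ?_)
      · exact (Real.continuous_exp.comp (continuous_const.mul continuous_id)).measurable
      · exact ((continuous_coord h.1 x).measurable.norm).pow_const 2
    · simp only [Set.indicator_of_notMem hx]
      exact measurable_const
  rw [lintegral_tsum fun x => (hm x).aemeasurable, ← ENNReal.tsum_mul_left]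
  unfold mm
  rw [lintegral_tsum]
  · refine tsum_congr fun x => ?_
    by_cases hx : x ∈ S
    · simp only [Set.indicator_of_mem hx]
      have e : ∀ E : ℝ, ENNReal.ofReal (η * ‖G V (zz η E) (del 0) x‖ ^ 2) =
          ENNReal.ofReal η * ENNReal.ofReal (‖G V (zz η E) (del 0) x‖ ^ 2) := fun E =>
        ENNReal.ofReal_mul hη.le
      simp only [e]
      rw [lintegral_const_mul' _ _ ENNReal.ofReal_ne_top, planch_coord h hη x, ← mul_assoc,
        ← ENNReal.ofReal_mul hη.le]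
      congr 2
      ring
    · simp only [Set.indicator_of_notMem hx, lintegral_zero, mul_zero]
  · intro x
    by_cases hx : x ∈ S
    · simp only [Set.indicator_of_mem hx]
      exact (ENNReal.measurable_ofReal.comp
        (((contG V hη x).measurable.norm.pow_const 2).const_mul η)).aemeasurable
    · simp only [Set.indicator_of_notMem hx]
      exact aemeasurable_const

theorem lint_exp {η : ℝ} (hη : 0 < η) :
    ∫⁻ t in Set.Ioi (0 : ℝ), ENNReal.ofReal (Real.exp (-(2 * η) * t)) =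
      ENNReal.ofReal (1 / (2 * η)) := by
  rw [← ofReal_integral_eq_lintegral_ofReal]
  · congr 1
    have := integral_exp_mul_Ioi (a := -(2 * η)) (by linarith) 0
    rw [this]
    simp
  · exact integrableOn_exp_mul_Ioi (by linarith) 0
  · filter_upwards with t using (Real.exp_pos _).le

/-- the total mass -/
theorem tsum_evol {V : Site d → ℝ} {ψ : ℝ → L2 d} (h : IsEvolution V ψ) (t : ℝ) {c : ℝ}
    (hc : 0 ≤ c) : ∑' x : Site d, ENNReal.ofReal (c * ‖ψ t x‖ ^ 2) = ENNReal.ofReal c := by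
  rw [← ENNReal.ofReal_tsum_of_nonneg, tsum_mul_left, ← H30.norm_sq, norm_evol h]
  · simp
  · intro x
    positivity
  · exact (H30.summable_sq _).mul_left c

theorem lint_univ (V : Site d → ℝ) {η : ℝ} (hη : 0 < η) :
    ∫⁻ E : ℝ, mm Set.univ η V E = ENNReal.ofReal Real.pi := by
  rw [lint_mm Set.univ (isEvolution_evol V) hη]
  simp only [Set.indicator_univ]
  have e : ∀ t : ℝ, ∑' x : Site d, ENNReal.ofReal (Real.exp (-(2 * η) * t) * ‖evol V t x‖ ^ 2) =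
      ENNReal.ofReal (Real.exp (-(2 * η) * t)) := fun t =>
    tsum_evol (isEvolution_evol V) t (Real.exp_pos _).le
  simp only [e]
  rw [lint_exp hη, ← ENNReal.ofReal_mul (by positivity)]
  congr 1
  field_simp

/-- the total mass of the spectral measure -/
theorem lint_im (V : Site d → ℝ) {η : ℝ} (hη : 0 < η) :
    ∫⁻ E : ℝ, ENNReal.ofReal ((G V (zz η E) (del 0) 0).im) = ENNReal.ofReal Real.pi := by
  rw [← lint_univ V hη]
  exact lintegral_congr fun E => (mm_univ V hη E).symm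

/-- the average over the times `t ≤ T` -/
theorem avg_le (S : Set (Site d)) {V : Site d → ℝ} {ψ : ℝ → L2 d} (h : IsEvolution V ψ) {T : ℝ}
    (hT : 0 < T) :
    ∫⁻ t in Set.Ioc (0 : ℝ) T, ∑' x : Site d, S.indicator
        (fun x => ENNReal.ofReal (‖ψ t x‖ ^ 2)) x ≤
      ENNReal.ofReal (2 * T) * ∫⁻ E : ℝ, mm S (1 / T) V E := by
  have hη : 0 < 1 / T := by positivity
  have hpi := Real.pi_pos
  have h9 : Real.exp 2 ≤ 9 := by
    have h1 := Real.exp_one_lt_d9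
    have h2 : Real.exp 2 = Real.exp 1 ^ 2 := by
      rw [← Real.exp_nat_mul]
      norm_num
    rw [h2]
    nlinarith [Real.exp_pos 1]
  rw [lint_mm S h hη, ← mul_assoc, ← ENNReal.ofReal_mul (by positivity)]
  have e1 : 2 * T * (2 * Real.pi * (1 / T)) = 4 * Real.pi := by
    field_simp
    ring
  rw [e1]
  have h1 : ∫⁻ t in Set.Ioc (0 : ℝ) T, ∑' x : Site d, S.indicator
        (fun x => ENNReal.ofReal (‖ψ t x‖ ^ 2)) x ≤
      ∫⁻ t in Set.Ioc (0 : ℝ) T, ENNReal.ofReal (4 * Real.pi) * ∑' x : Site d, S.indicator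
        (fun x => ENNReal.ofReal (Real.exp (-(2 * (1 / T)) * t) * ‖ψ t x‖ ^ 2)) x := by
    refine setLIntegral_mono' measurableSet_Ioc fun t ht => ?_
    rw [← ENNReal.tsum_mul_left]
    refine ENNReal.tsum_le_tsum fun x => ?_
    by_cases hx : x ∈ S
    · simp only [Set.indicator_of_mem hx]
      rw [← ENNReal.ofReal_mul (by positivity)]
      refine ENNReal.ofReal_le_ofReal ?_
      have h2 : t / T ≤ 1 := (div_le_one hT).2 ht.2
      have h3 : Real.exp (-2) ≤ Real.exp (-(2 * (1 / T)) * t) := by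
        refine Real.exp_le_exp.2 ?_
        have : -(2 * (1 / T)) * t = -(2 * (t / T)) := by ring
        rw [this]
        linarith
      have h4 : 1 ≤ 4 * Real.pi * Real.exp (-2) := by
        rw [Real.exp_neg, ← div_eq_mul_inv, le_div_iff₀ (Real.exp_pos 2)]
        have := Real.pi_gt_three
        linarith
      have h5 : 1 ≤ 4 * Real.pi * Real.exp (-(2 * (1 / T)) * t) :=
        h4.trans (mul_le_mul_of_nonneg_left h3 (by positivity))
      calc ‖ψ t x‖ ^ 2 = 1 * ‖ψ t x‖ ^ 2 := (one_mul _).symm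
        _ ≤ (4 * Real.pi * Real.exp (-(2 * (1 / T)) * t)) * ‖ψ t x‖ ^ 2 :=
            mul_le_mul_of_nonneg_right h5 (sq_nonneg _)
        _ = _ := by ring
    · simp only [Set.indicator_of_notMem hx]
      exact bot_le
  refine h1.trans ?_
  rw [lintegral_const_mul' _ _ ENNReal.ofReal_ne_top]
  refine mul_le_mul' le_rfl ?_
  exact lintegral_mono_set fun t ht => ht.1

end Pool.Agent.QDA.H76
end
end -- Pool.Agent.Helper76_QDA.Tav1

section -- Pool.Agent.Helper30_QDA.Qlm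

/-!
# QDA, row QLM (LOWM): the times `|σ|^{-3} ≤ T ≤ exp (|σ|^{-θ})`, from the local law and the moments
-/

set_option autoImplicit false

open MeasureTheory ProbabilityTheory Function Filter

open scoped BigOperators NNReal ENNReal Matrix InnerProductSpace Topology

noncomputable section

namespace Pool.Agent.QDA.H30

open Pool.Agent.Anderson hiding box mem_box card_box
open Pool.Agent.Loc Pool.Agent.Mob Pool.Agent.Helper54.Bal
  Pool.Agent.Helper96.EXP Pool.Agent.BED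
open Pool.Agent.LE.MN Pool.Agent.LE.CL Pool.Agent.LE.IR Pool.Agent.LE.QD

variable {d : ℕ}

theorem small_pow (θ e : ℝ) (hθ : 0 < θ) (he : 0 < e) :
    ∃ s₀ : ℝ, 0 < s₀ ∧ ∀ s : ℝ, 0 < s → s ≤ s₀ → s ^ θ ≤ e := by
  refine ⟨e ^ (1 / θ), by positivity, fun s hs h => ?_⟩
  have h1 := Real.rpow_le_rpow hs.le h hθ.le
  rw [← Real.rpow_mul he.le, one_div, inv_mul_cancel₀ hθ.ne', Real.rpow_one] at h1
  exact h1

theorem zz_mk (η E : ℝ) : zz η E = (⟨E, η⟩ : ℂ) := by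
  apply Complex.ext <;> simp [zz]

theorem ofReal_mas' (f : L2 d) (η : ℝ) (hη : 0 ≤ η) (P : Site d → Prop) [DecidablePred P] :
    ∑' y : Site d, (if P y then ENNReal.ofReal (η * ‖f y‖ ^ 2) else 0) =
      ENNReal.ofReal (η * mas f P) := by
  unfold mas
  rw [← tsum_mul_left, ENNReal.ofReal_tsum_of_nonneg]
  · refine tsum_congr fun y => ?_
    split_ifs
    · rfl
    · simp
  · intro y
    split_ifs
    · positivity
    · simp
  · exact (summable_if f P).mul_left η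

/-- Markov -/
theorem markov {Ω : Type} [MeasurableSpace Ω] {μ : Measure Ω} {Φ : Ω → ℝ≥0∞} (hΦ : Measurable Φ)
    {A B : ℝ} (hB : 0 < B) (h : ∫⁻ V, Φ V ∂μ ≤ ENNReal.ofReal A) {S : Set Ω}
    (hS : ∀ V ∈ S, ENNReal.ofReal B ≤ Φ V) : μ S ≤ ENNReal.ofReal (A / B) := by
  have h1 : μ S ≤ μ {V | ENNReal.ofReal B ≤ Φ V} := measure_mono fun V hV => hS V hV
  have h2 := meas_ge_le_lintegral_div (μ := μ) hΦ.aemeasurable
    (ENNReal.ofReal_pos.2 hB).ne' ENNReal.ofReal_ne_top (ε := ENNReal.ofReal B)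
  refine h1.trans (h2.trans ?_)
  rw [ENNReal.ofReal_div_of_pos hB]
  gcongr

open Classical in
theorem qlm (hG : GucStmt) (hL : Pool.Agent.LE.QY.LocStmt) (hM : Pool.Agent.LE.QY.MazStmt)
    (hS : Pool.Agent.LE.QY.SmzStmt) : QlmStmt := by
  intro d a ε hd ha hε
  obtain ⟨θ₁, c₁, hθ₁, hc₁, hc₁', h1⟩ := hL d a hd ha
  obtain ⟨θ₂, c₂, hθ₂, hc₂, hc₂', h2⟩ := hM d a (1 / 500) hd ha (by norm_num) (by norm_num)
  obtain ⟨θ₃, c₃, hθ₃, hc₃, hc₃', h3⟩ := hS d a (1 / 500) hd ha (by norm_num) (by norm_num)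
  obtain ⟨C, hC, h4⟩ := hG d hd
  have hC0 : 0 < C := by linarith only [hc₁, hc₁', hC]
  obtain ⟨e1, he1, k1⟩ := small_pow θ₁ (min (ε / 2) (ε / 3)) hθ₁ (by positivity)
  obtain ⟨e2, he2, k2⟩ := small_pow (1 / 2) (ε / 2 / (C * (1 / c₁) ^ (1 / 4 : ℝ))) (by norm_num)
    (by positivity)
  obtain ⟨e3, he3, k3⟩ := small_pow θ₂ (ε / 3 * ε) hθ₂ (by positivity)
  obtain ⟨e4, he4, k4⟩ := small_pow (1 / 500) (ε / 3 * ε / 4) (by norm_num) (by positivity)
  refine ⟨min (1 / 2) (min (min c₁ (min c₂ c₃)) (min (min e1 e2) (min e3 e4))),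
    min θ₁ (min θ₂ θ₃), by positivity, (min_le_left _ _).trans (by norm_num), by positivity, ?_⟩
  intro σ E T hσ hs hE hT1 hT2
  simp only [le_min_iff] at hs
  obtain ⟨hs0, ⟨hs1, hs2, hs3⟩, ⟨hs4, hs5⟩, hs6, hs7⟩ := hs
  obtain ⟨s, hsd⟩ : ∃ s : ℝ, |σ| = s := ⟨_, rfl⟩
  rw [hsd] at hs0 hs1 hs2 hs3 hs4 hs5 hs6 hs7 hT1 hT2 ⊢
  have hs : 0 < s := by rw [← hsd]; exact abs_pos.2 hσ
  have hsle : s ≤ 1 := by linarith only [hc₁, hc₁', hc₃', hs3]
  have hσ2 : ‖(σ : ℂ) ^ 2‖ = s ^ 2 := by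
    rw [norm_pow, Complex.norm_real, Real.norm_eq_abs, hsd]
  have hT : 1 ≤ T := by
    refine le_trans ?_ hT1
    exact Real.one_le_rpow_of_pos_of_le_one_of_nonpos hs hsle (by norm_num)
  have hT0 : 0 < T := by linarith only [hc₁, hc₁', hT]
  have hTm : ∀ θ' : ℝ, min θ₁ (min θ₂ θ₃) ≤ θ' → T ≤ Real.exp (s ^ (-θ')) := fun θ' h =>
    hT2.trans (Real.exp_le_exp.2 (Real.rpow_le_rpow_of_exponent_ge hs hsle (by linarith only [h])))
  have hTi : 0 < 1 / T := by positivity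
  have hz : (⟨E, 1 / T⟩ : ℂ) = zz (1 / T) E := (zz_mk _ _).symm
  have hrh : ∀ (V : Site d → ℝ) (x : Site d), Pool.Agent.LE.QY.rh V T E x =
      1 / T * ‖G V (zz (1 / T) E) (del 0) x‖ ^ 2 := by
    intro V x
    unfold Pool.Agent.LE.QY.rh
    rw [hz]
    ring
  have hmr : ∀ x : Site d, Measurable fun V : Site d → ℝ => Pool.Agent.LE.QY.rh V T E x := by
    intro x
    simp only [hrh]
    exact (((H76.measG E hTi x).norm).pow_const 2).const_mul _
  obtain ⟨ρ, hρ⟩ : ∃ ρ : ℝ, ρ = s ^ (1 / 500 - 1 : ℝ) * Real.sqrt T := ⟨_, rfl⟩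
  obtain ⟨ρ', hρ'⟩ : ∃ ρ' : ℝ, ρ' = s ^ (-(1 / 500) - 1 : ℝ) * Real.sqrt T := ⟨_, rfl⟩
  have hρ0 : 0 ≤ ρ := by rw [hρ]; positivity
  have hρ2 : 2 ≤ ρ' := by
    have q1 : (2 : ℝ) ≤ s ^ (-1 : ℝ) := by
      rw [Real.rpow_neg_one, ← one_div, le_div_iff₀ hs]
      linarith only [hc₁, hc₁', hc₃', hs3]
    have q2 : s ^ (-1 : ℝ) ≤ s ^ (-(1 / 500) - 1 : ℝ) :=
      Real.rpow_le_rpow_of_exponent_ge hs hsle (by norm_num)
    have q3 : (1 : ℝ) ≤ Real.sqrt T := Real.one_le_sqrt.2 hT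
    rw [hρ']
    nlinarith only [hc₁, hc₁', q1, q2, q3]
  rw [← hρ, ← hρ']
  -- the three bad sets
  have hsub : {V : Site d → ℝ | BadZM V E (1 / T) (g0 d (zz (1 / T) E)) ε ⌊ρ⌋₊ ⌊ρ'⌋₊} ⊆
      {V | ε < ‖G V (zz (1 / T) E) (del 0) 0 - g0 d (zz (1 / T) E)‖} ∪
      ({V | ε < 1 / T * mas (G V (zz (1 / T) E) (del 0)) (fun x => sd 0 x < ⌊ρ⌋₊)} ∪
      {V | ε < 1 / T * mas (G V (zz (1 / T) E) (del 0)) (fun x => ⌊ρ'⌋₊ ≤ sd 0 x)}) := by
    intro V hV
    rcases hV with hV | hV | hV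
    · exact Or.inl hV
    · refine Or.inr (Or.inl ?_)
      refine lt_of_lt_of_eq hV ?_
      unfold mas
      congr 1
    · refine Or.inr (Or.inr ?_)
      refine lt_of_lt_of_eq hV ?_
      unfold mas
      congr 1
  refine (measure_mono hsub).trans ((measure_union_le _ _).trans
    ((add_le_add le_rfl (measure_union_le _ _)).trans ?_))
  have hA1 : PP d (gl σ) {V : Site d → ℝ | ε < ‖G V (zz (1 / T) E) (del 0) 0 -
      g0 d (zz (1 / T) E)‖} ≤ ENNReal.ofReal (ε / 3) := by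
    obtain ⟨m, g1, g2, -, g4⟩ := h1 σ E T hσ (by rw [hsd]; exact hs1) hE
      (by rw [hsd]; exact hT1) (by rw [hsd]; exact hTm θ₁ (min_le_left _ _))
    have g5 := g4 0
    rw [hsd] at g5
    have hexp : Real.exp (-(s ^ (-θ₁))) ≤ ε / 3 := by
      have q1 : s ^ (-θ₁) ≤ Real.exp (s ^ (-θ₁)) := by
        have := Real.add_one_le_exp (s ^ (-θ₁))
        linarith only [hc₁, hc₁', this]
      have q2 : 0 < s ^ (-θ₁) := by positivity
      rw [Real.exp_neg]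
      have q3 : (Real.exp (s ^ (-θ₁)))⁻¹ ≤ (s ^ (-θ₁))⁻¹ := inv_anti₀ q2 q1
      rw [Real.rpow_neg hs.le, inv_inv] at q3
      rw [Real.rpow_neg hs.le]
      exact q3.trans ((k1 s hs hs4).trans (min_le_right _ _))
    refine le_trans (measure_mono ?_) (g5.trans (ENNReal.ofReal_le_ofReal hexp))
    intro V hV hcon
    have q1 := hcon 0 0 (by rw [sd_self]; simpa using hT0.le) (by rw [sd_self]; simpa using hT0.le)
    rw [hz] at q1
    have hmn : (0 : ℝ) < m.im := lt_of_lt_of_le hc₁ g1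
    have hw : ‖(σ : ℂ) ^ 2 * m‖ ≤ s ^ 2 * (1 / c₁) := by
      rw [norm_mul, hσ2]
      exact mul_le_mul_of_nonneg_left g2 (by positivity)
    have hzi : 0 < (zz (1 / T) E).im := by
      rw [zz_mk]
      exact hTi
    have hzi' : 0 < (zz (1 / T) E + (σ : ℂ) ^ 2 * m).im := by
      have : ((σ : ℂ) ^ 2 * m).im = σ ^ 2 * m.im := by
        rw [← Complex.ofReal_pow, Complex.im_ofReal_mul]
      rw [Complex.add_im, this]
      positivity
    have q2 := (h4 _ _ hzi' hzi).2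
    rw [add_sub_cancel_left] at q2
    have q3 : C * ‖(σ : ℂ) ^ 2 * m‖ ^ (1 / 4 : ℝ) ≤ ε / 2 := by
      have q4 : ‖(σ : ℂ) ^ 2 * m‖ ^ (1 / 4 : ℝ) ≤ (s ^ 2 * (1 / c₁)) ^ (1 / 4 : ℝ) :=
        Real.rpow_le_rpow (norm_nonneg _) hw (by norm_num)
      have q5 : (s ^ 2 * (1 / c₁)) ^ (1 / 4 : ℝ) = s ^ (1 / 2 : ℝ) * (1 / c₁) ^ (1 / 4 : ℝ) := by
        rw [Real.mul_rpow (by positivity) (by positivity), ← Real.rpow_natCast s 2,
          ← Real.rpow_mul hs.le]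
        norm_num
      have q6 := k2 s hs hs5
      rw [le_div_iff₀ (by positivity)] at q6
      calc C * ‖(σ : ℂ) ^ 2 * m‖ ^ (1 / 4 : ℝ) ≤ C * (s ^ 2 * (1 / c₁)) ^ (1 / 4 : ℝ) := by gcongr
        _ = s ^ (1 / 2 : ℝ) * (C * (1 / c₁) ^ (1 / 4 : ℝ)) := by rw [q5]; ring
        _ ≤ ε / 2 := q6
    have q7 : s ^ θ₁ ≤ ε / 2 := (k1 s hs hs4).trans (min_le_left _ _)
    have q8 : ‖G V (zz (1 / T) E) (del 0) 0 - g0 d (zz (1 / T) E)‖ ≤
        ‖G V (zz (1 / T) E) (del 0) 0 - g0 d (zz (1 / T) E + (σ : ℂ) ^ 2 * m)‖ +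
        ‖g0 d (zz (1 / T) E + (σ : ℂ) ^ 2 * m) - g0 d (zz (1 / T) E)‖ := by
      have := norm_add_le (G V (zz (1 / T) E) (del 0) 0 - g0 d (zz (1 / T) E + (σ : ℂ) ^ 2 * m))
        (g0 d (zz (1 / T) E + (σ : ℂ) ^ 2 * m) - g0 d (zz (1 / T) E))
      rwa [sub_add_sub_cancel] at this
    have q9 : ε < ‖G V (zz (1 / T) E) (del 0) 0 - g0 d (zz (1 / T) E)‖ := hV
    have q10 : ‖G V (zz (1 / T) E) (del 0) 0 - g0 d (zz (1 / T) E + (σ : ℂ) ^ 2 * m)‖ ≤
        s ^ θ₁ := by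
      exact q1
    linarith only [q2, q3, q7, q8, q9, q10]
  have hA2 : PP d (gl σ) {V : Site d → ℝ | ε < 1 / T * mas (G V (zz (1 / T) E) (del 0))
      (fun x => sd 0 x < ⌊ρ⌋₊)} ≤ ENNReal.ofReal (ε / 3) := by
    have g := h2 σ E T hσ (by rw [hsd]; exact hs2) hE (by rw [hsd]; exact hT1)
      (by rw [hsd]; exact hTm θ₂ ((min_le_right _ _).trans (min_le_left _ _)))
    rw [hsd, ← hρ] at g
    refine (markov (Measurable.tsum fun x => ?_) hε g fun V hV => ?_).trans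
      (ENNReal.ofReal_le_ofReal ?_)
    · by_cases hx : (sd 0 x : ℝ) ≤ ρ
      · simp only [if_pos hx]
        exact (hmr x).ennreal_ofReal
      · simp only [if_neg hx]
        exact measurable_const
    · have hV' : ε < 1 / T * mas (G V (zz (1 / T) E) (del 0)) (fun x => sd 0 x < ⌊ρ⌋₊) := hV
      refine (ENNReal.ofReal_le_ofReal hV'.le).trans ?_
      rw [← ofReal_mas' _ _ hTi.le]
      refine ENNReal.tsum_le_tsum fun x => ?_
      by_cases hx : sd 0 x < ⌊ρ⌋₊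
      · have hx2 : (sd 0 x : ℝ) ≤ ρ := by
          have : ((sd 0 x : ℕ) : ℝ) ≤ (⌊ρ⌋₊ : ℝ) := by exact_mod_cast hx.le
          exact this.trans (Nat.floor_le hρ0)
        rw [if_pos hx, if_pos hx2, hrh]
      · rw [if_neg hx]
        exact zero_le
    · rw [div_le_iff₀ hε]
      exact k3 s hs hs6
  have hA3 : PP d (gl σ) {V : Site d → ℝ | ε < 1 / T * mas (G V (zz (1 / T) E) (del 0))
      (fun x => ⌊ρ'⌋₊ ≤ sd 0 x)} ≤ ENNReal.ofReal (ε / 3) := by
    have g := h3 σ E T hσ (by rw [hsd]; exact hs3) hE (by rw [hsd]; exact hT1)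
      (by rw [hsd]; exact hTm θ₃ ((min_le_right _ _).trans (min_le_right _ _)))
    rw [hsd] at g
    have hB : 0 < ρ' ^ 2 / 4 * ε := by positivity
    refine (markov (Measurable.tsum fun x => ?_) hB g fun V hV => ?_).trans
      (ENNReal.ofReal_le_ofReal ?_)
    · exact ((hmr x).const_mul _).ennreal_ofReal
    · have hV' : ε < 1 / T * mas (G V (zz (1 / T) E) (del 0)) (fun x => ⌊ρ'⌋₊ ≤ sd 0 x) := hV
      have hV2 : ρ' ^ 2 / 4 * ε ≤ ρ' ^ 2 / 4 * (1 / T) *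
          mas (G V (zz (1 / T) E) (del 0)) (fun x => ⌊ρ'⌋₊ ≤ sd 0 x) := by
        rw [mul_assoc]
        exact mul_le_mul_of_nonneg_left hV'.le (by positivity)
      refine (ENNReal.ofReal_le_ofReal hV2).trans ?_
      rw [← ofReal_mas' _ _ (by positivity)]
      refine ENNReal.tsum_le_tsum fun x => ?_
      by_cases hx : ⌊ρ'⌋₊ ≤ sd 0 x
      · rw [if_pos hx, hrh]
        refine ENNReal.ofReal_le_ofReal ?_
        have q1 : ρ' / 2 ≤ (sd 0 x : ℝ) := by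
          have q2 : ρ' < (⌊ρ'⌋₊ : ℝ) + 1 := Nat.lt_floor_add_one ρ'
          have q3 : (⌊ρ'⌋₊ : ℝ) ≤ (sd 0 x : ℝ) := by exact_mod_cast hx
          linarith only [hρ2, q2, q3]
        have q4 : ρ' ^ 2 / 4 ≤ (sd 0 x : ℝ) ^ 2 := by
          have q5 := pow_le_pow_left₀ (by linarith only [hc₁, hc₁', hρ2] : (0 : ℝ) ≤ ρ' / 2) q1 2
          have q6 : (ρ' / 2) ^ 2 = ρ' ^ 2 / 4 := by ring
          rwa [q6] at q5
        rw [mul_assoc]
        exact mul_le_mul_of_nonneg_right q4 (by positivity)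
      · rw [if_neg hx]
        exact zero_le
    · have q1 : ρ' ^ 2 = s ^ (-(1 / 250) - 2 : ℝ) * T := by
        rw [hρ', mul_pow, Real.sq_sqrt hT0.le, ← Real.rpow_natCast, ← Real.rpow_mul hs.le]
        norm_num
      have q2 : s ^ (-2 - 1 / 500 : ℝ) = s ^ (1 / 500 : ℝ) * s ^ (-(1 / 250) - 2 : ℝ) := by
        rw [← Real.rpow_add hs]
        norm_num
      rw [div_le_iff₀ hB, q1, q2]
      have q3 := k4 s hs hs7
      have q4 : 0 < s ^ (-(1 / 250) - 2 : ℝ) * T := by positivity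
      have q5 := mul_le_mul_of_nonneg_right q3 q4.le
      calc s ^ (1 / 500 : ℝ) * s ^ (-(1 / 250) - 2 : ℝ) * T =
            s ^ (1 / 500 : ℝ) * (s ^ (-(1 / 250) - 2 : ℝ) * T) := by ring
        _ ≤ ε / 3 * ε / 4 * (s ^ (-(1 / 250) - 2 : ℝ) * T) := q5
        _ = ε / 3 * (s ^ (-(1 / 250) - 2 : ℝ) * T / 4 * ε) := by ring
  refine (add_le_add hA1 (add_le_add hA2 hA3)).trans (le_of_eq ?_)
  rw [← ENNReal.ofReal_add (by positivity) (by positivity),
    ← ENNReal.ofReal_add (by positivity) (by positivity)]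
  congr 1
  ring

end Pool.Agent.QDA.H30
end
end -- Pool.Agent.Helper30_QDA.Qlm

section -- Pool.Agent.Helper76_QDA.Tav

/-!
# QDA, row TAV: quantum diffusion for the time evolution from the form resolved in energy
-/

set_option autoImplicit false

open MeasureTheory ProbabilityTheory Function Filter

open scoped BigOperators NNReal ENNReal Matrix InnerProductSpace Topology

noncomputable section

namespace Pool.Agent.QDA.H76

open Pool.Agent.Anderson hiding box mem_box card_box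
open Pool.Agent.Loc Pool.Agent.Mob Pool.Agent.Helper54.Bal
  Pool.Agent.Helper96.EXP Pool.Agent.BED

/-- FRE: the free mass in the bulk -/
def FreStmt : Prop :=
  ∀ (d : ℕ) (ε : ℝ), 3 ≤ d → 0 < ε → ∃ a y₀ : ℝ, 0 < a ∧ a ≤ 1 ∧ 0 < y₀ ∧
    ∀ y : ℝ, 0 < y → y ≤ y₀ → ENNReal.ofReal (Real.pi - ε) ≤
      ∫⁻ E in Set.Icc (-(2 * d - a)) (2 * d - a), ENNReal.ofReal ((g0 d (zz y E)).im)

variable {d : ℕ}

/-- the near and the far sites -/
def nf (d r R : ℕ) : Set (Site d) := {x | sd 0 x < r ∨ R ≤ sd 0 x}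

/-- on the good event the mass of the near and the far sites is small -/
theorem mm_good {V : Site d → ℝ} {E η ε : ℝ} {m : ℂ} {r R : ℕ} (hη : 0 < η) (hε : 0 ≤ ε)
    (h : ¬ BadZM V E η m ε r R) : mm (nf d r R) η V E ≤ ENNReal.ofReal (2 * ε) := by
  unfold BadZM at h
  push Not at h
  obtain ⟨-, h1, h2⟩ := h
  have key : ∀ (P : Site d → Prop) [DecidablePred P],
      ENNReal.ofReal (η * ∑' x : Site d, (if P x then ‖G V (zz η E) (del 0) x‖ ^ 2 else 0)) =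
      ∑' x : Site d, ENNReal.ofReal (if P x then η * ‖G V (zz η E) (del 0) x‖ ^ 2 else 0) := by
    intro P _
    rw [← tsum_mul_left, ENNReal.ofReal_tsum_of_nonneg]
    · refine tsum_congr fun x => ?_
      split_ifs <;> simp
    · intro x
      split_ifs <;> positivity
    · exact (H30.summable_if _ P).mul_left η
  have h3 := ENNReal.ofReal_le_ofReal h1
  have h4 := ENNReal.ofReal_le_ofReal h2
  rw [key] at h3 h4
  have h5 : mm (nf d r R) η V E ≤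
      (∑' x : Site d, ENNReal.ofReal (if sd 0 x < r then η * ‖G V (zz η E) (del 0) x‖ ^ 2 else 0)) +
      ∑' x : Site d, ENNReal.ofReal (if R ≤ sd 0 x then η * ‖G V (zz η E) (del 0) x‖ ^ 2 else 0) := by
    rw [← ENNReal.tsum_add]
    refine ENNReal.tsum_le_tsum fun x => ?_
    by_cases hx : x ∈ nf d r R
    · rw [Set.indicator_of_mem hx]
      rcases hx with hx | hx
      · rw [if_pos hx]
        exact le_self_add
      · rw [if_pos (c := R ≤ sd 0 x) hx]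
        exact le_add_self
    · rw [Set.indicator_of_notMem hx]
      exact bot_le
  refine h5.trans ((add_le_add h3 h4).trans ?_)
  rw [← ENNReal.ofReal_add hε hε]
  exact ENNReal.ofReal_le_ofReal (by linarith)

/-- the comparison at one energy -/
theorem key (P : Measure (Site d → ℝ)) [IsProbabilityMeasure P] {E η ε : ℝ} {m : ℂ} {r R : ℕ}
    (hη : 0 < η) (hε : 0 ≤ ε) (h : P {V | BadZM V E η m ε r R} ≤ ENNReal.ofReal ε) :
    ∫⁻ V, mm (nf d r R) η V E ∂P + ENNReal.ofReal (m.im - ε) * ENNReal.ofReal (1 - ε) ≤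
      ENNReal.ofReal (2 * ε) + ∫⁻ V, mm Set.univ η V E ∂P := by
  set M := toMeasurable P {V | BadZM V E η m ε r R} with hM
  have hMm : MeasurableSet M := measurableSet_toMeasurable _ _
  have hMc : ENNReal.ofReal (1 - ε) ≤ P Mᶜ := by
    rw [prob_compl_eq_one_sub hMm, hM, measure_toMeasurable, ENNReal.ofReal_sub _ hε,
      ENNReal.ofReal_one]
    exact tsub_le_tsub_left h 1
  have e1 : ∫⁻ V, Mᶜ.indicator (fun _ => ENNReal.ofReal (m.im - ε)) V ∂P =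
      ENNReal.ofReal (m.im - ε) * P Mᶜ := by
    rw [lintegral_indicator hMm.compl, setLIntegral_const]
  calc ∫⁻ V, mm (nf d r R) η V E ∂P + ENNReal.ofReal (m.im - ε) * ENNReal.ofReal (1 - ε)
      ≤ ∫⁻ V, mm (nf d r R) η V E ∂P +
        ∫⁻ V, Mᶜ.indicator (fun _ => ENNReal.ofReal (m.im - ε)) V ∂P := by
        rw [e1]
        exact add_le_add le_rfl (mul_le_mul' le_rfl hMc)
    _ = ∫⁻ V, (mm (nf d r R) η V E + Mᶜ.indicator (fun _ => ENNReal.ofReal (m.im - ε)) V) ∂P :=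
        (lintegral_add_left (meas_mm_V _ hη E) _).symm
    _ ≤ ∫⁻ V, (ENNReal.ofReal (2 * ε) + mm Set.univ η V E) ∂P := by
        refine lintegral_mono fun V => ?_
        by_cases hV : V ∈ M
        · have hV' : V ∉ Mᶜ := fun h => h hV
          rw [Set.indicator_of_notMem hV', add_zero]
          exact (mm_mono (Set.subset_univ _) η V E).trans le_add_self
        · have hg : ¬ BadZM V E η m ε r R := fun hb => hV (subset_toMeasurable P _ hb)
          rw [Set.indicator_of_mem (show V ∈ Mᶜ from hV)]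
          refine add_le_add (mm_good hη hε hg) ?_
          rw [mm_univ V hη E]
          refine ENNReal.ofReal_le_ofReal ?_
          have h1 : ‖G V (zz η E) (del 0) 0 - m‖ ≤ ε := by
            by_contra hc
            exact hg (Or.inl (not_le.1 hc))
          have h2 := (Complex.abs_im_le_norm (G V (zz η E) (del 0) 0 - m)).trans h1
          rw [Complex.sub_im] at h2
          have h3 := (abs_le.1 h2).1
          linarith only [h3]
    _ = ENNReal.ofReal (2 * ε) + ∫⁻ V, mm Set.univ η V E ∂P := by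
        rw [lintegral_add_left measurable_const, lintegral_const, measure_univ, mul_one]

/-- the sum over the energies -/
theorem sumE (P : Measure (Site d → ℝ)) [IsProbabilityMeasure P] {η ε κ : ℝ} {g : ℝ → ℂ} {r R : ℕ}
    {B : Set ℝ} (hB : MeasurableSet B) (hBv : volume B ≤ ENNReal.ofReal (4 * d))
    (hη : 0 < η) (hε : 0 ≤ ε) (hκ : 0 ≤ κ)
    (h : ∀ E ∈ B, P {V | BadZM V E η (g E) ε r R} ≤ ENNReal.ofReal ε)
    (hg : ENNReal.ofReal (Real.pi - κ) ≤ ∫⁻ E in B, ENNReal.ofReal ((g E).im)) :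
    ∫⁻ E : ℝ, ∫⁻ V, mm (nf d r R) η V E ∂P ≤ ENNReal.ofReal (κ + (12 * d + 4) * ε) := by
  have hpi := Real.pi_pos
  have hpi4 := Real.pi_le_four
  set a : ℝ → ℝ≥0∞ := fun E => ∫⁻ V, mm (nf d r R) η V E ∂P with ha
  set b : ℝ → ℝ≥0∞ := fun E => ∫⁻ V, mm Set.univ η V E ∂P with hb
  have hbi : ∫⁻ E : ℝ, b E = ENNReal.ofReal Real.pi := by
    rw [hb]
    rw [lintegral_lintegral_swap (f := fun (E : ℝ) (V : Site d → ℝ) => mm Set.univ η V E)
      (meas_mm Set.univ hη).aemeasurable]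
    simp only [lint_univ _ hη]
    rw [lintegral_const, measure_univ, mul_one]
  have hab : ∀ E, a E ≤ b E := fun E => lintegral_mono fun V => mm_mono (Set.subset_univ _) η V E
  have hbm : Measurable b := (meas_mm Set.univ hη).lintegral_prod_right'
  have ham : Measurable a := (meas_mm (nf d r R) hη).lintegral_prod_right'
  -- the part in `B`
  have h1 : (∫⁻ E in B, a E) + ENNReal.ofReal (1 - ε) * ∫⁻ E in B, ENNReal.ofReal ((g E).im - ε) ≤
      ENNReal.ofReal (2 * ε) * volume B + ∫⁻ E in B, b E := by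
    have e1 : ∫⁻ E in B, ENNReal.ofReal ((g E).im - ε) * ENNReal.ofReal (1 - ε) =
        ENNReal.ofReal (1 - ε) * ∫⁻ E in B, ENNReal.ofReal ((g E).im - ε) := by
      rw [lintegral_mul_const' _ _ ENNReal.ofReal_ne_top, mul_comm]
    rw [← e1, ← lintegral_add_left ham, ← setLIntegral_const, ← lintegral_add_left measurable_const]
    exact setLIntegral_mono' hB fun E hE => key P hη hε (h E hE)
  have h2 : ∫⁻ E in Bᶜ, a E ≤ ∫⁻ E in Bᶜ, b E := lintegral_mono hab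
  have h3 : (∫⁻ E : ℝ, a E) + ENNReal.ofReal (1 - ε) * ∫⁻ E in B, ENNReal.ofReal ((g E).im - ε) ≤
      ENNReal.ofReal (2 * ε) * volume B + ENNReal.ofReal Real.pi := by
    rw [← hbi, ← lintegral_add_compl a hB, ← lintegral_add_compl b hB]
    calc (∫⁻ E in B, a E) + (∫⁻ E in Bᶜ, a E) +
          ENNReal.ofReal (1 - ε) * ∫⁻ E in B, ENNReal.ofReal ((g E).im - ε)
        = ((∫⁻ E in B, a E) + ENNReal.ofReal (1 - ε) *
            ∫⁻ E in B, ENNReal.ofReal ((g E).im - ε)) + ∫⁻ E in Bᶜ, a E := by ring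
      _ ≤ (ENNReal.ofReal (2 * ε) * volume B + ∫⁻ E in B, b E) + ∫⁻ E in Bᶜ, b E :=
          add_le_add h1 h2
      _ = ENNReal.ofReal (2 * ε) * volume B + ((∫⁻ E in B, b E) + ∫⁻ E in Bᶜ, b E) := by ring
  -- the free mass
  have h4 : ENNReal.ofReal (Real.pi - κ) ≤
      (∫⁻ E in B, ENNReal.ofReal ((g E).im - ε)) + ENNReal.ofReal ε * volume B := by
    refine hg.trans ?_
    rw [← setLIntegral_const, ← lintegral_add_right _ measurable_const]
    refine lintegral_mono fun E => ?_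
    refine (ENNReal.ofReal_le_ofReal (q := ((g E).im - ε) + ε) (by linarith only)).trans ?_
    exact ENNReal.ofReal_add_le
  have hd0 : (0 : ℝ) ≤ d := Nat.cast_nonneg d
  have h5 : ENNReal.ofReal (Real.pi - κ - 4 * d * ε) ≤
      ∫⁻ E in B, ENNReal.ofReal ((g E).im - ε) := by
    have h6 : ENNReal.ofReal ε * volume B ≤ ENNReal.ofReal (4 * d * ε) := by
      refine (mul_le_mul' le_rfl hBv).trans ?_
      rw [← ENNReal.ofReal_mul hε]
      exact ENNReal.ofReal_le_ofReal (by linarith only)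
    rw [ENNReal.ofReal_sub _ (by positivity)]
    exact tsub_le_iff_right.2 (h4.trans (add_le_add le_rfl h6))
  have h7 : ENNReal.ofReal (Real.pi - (κ + (4 * d + 4) * ε)) ≤
      ENNReal.ofReal (1 - ε) * ∫⁻ E in B, ENNReal.ofReal ((g E).im - ε) := by
    by_cases hε1 : ε ≤ 1
    · refine le_trans ?_ (mul_le_mul' le_rfl h5)
      rw [← ENNReal.ofReal_mul (by linarith)]
      refine ENNReal.ofReal_le_ofReal ?_
      have e2 : (1 - ε) * (Real.pi - κ - 4 * d * ε) =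
          Real.pi - κ - 4 * d * ε - ε * Real.pi + ε * κ + ε * (4 * d * ε) := by ring
      rw [e2]
      have e3 : ε * Real.pi ≤ ε * 4 := mul_le_mul_of_nonneg_left hpi4 hε
      have e4 : 0 ≤ ε * κ := mul_nonneg hε hκ
      have e5 : 0 ≤ ε * (4 * d * ε) := by positivity
      linarith
    · have e6 : Real.pi - (κ + (4 * d + 4) * ε) ≤ 0 := by
        have : 0 ≤ 4 * (d : ℝ) * ε := by positivity
        push Not at hε1
        nlinarith only [hκ, hpi4, this, hε1]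
      rw [ENNReal.ofReal_of_nonpos e6]
      exact bot_le
  have h8 : (∫⁻ E : ℝ, a E) + ENNReal.ofReal (Real.pi - (κ + (4 * d + 4) * ε)) ≤
      ENNReal.ofReal (8 * d * ε) + ENNReal.ofReal Real.pi := by
    refine (add_le_add le_rfl h7).trans (h3.trans (add_le_add ?_ le_rfl))
    refine (mul_le_mul' le_rfl hBv).trans ?_
    rw [← ENNReal.ofReal_mul (by positivity)]
    exact ENNReal.ofReal_le_ofReal (by linarith only)
  have h9 : ENNReal.ofReal Real.pi ≤ ENNReal.ofReal (Real.pi - (κ + (4 * d + 4) * ε)) +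
      ENNReal.ofReal (κ + (4 * d + 4) * ε) := by
    refine (ENNReal.ofReal_le_ofReal (q := (Real.pi - (κ + (4 * d + 4) * ε)) +
      (κ + (4 * d + 4) * ε)) (by linarith only)).trans ENNReal.ofReal_add_le
  have h10 : ENNReal.ofReal (Real.pi - (κ + (4 * d + 4) * ε)) + ∫⁻ E : ℝ, a E ≤
      ENNReal.ofReal (Real.pi - (κ + (4 * d + 4) * ε)) +
        (ENNReal.ofReal (8 * d * ε) + ENNReal.ofReal (κ + (4 * d + 4) * ε)) := by
    calc ENNReal.ofReal (Real.pi - (κ + (4 * d + 4) * ε)) + ∫⁻ E : ℝ, a E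
        = (∫⁻ E : ℝ, a E) + ENNReal.ofReal (Real.pi - (κ + (4 * d + 4) * ε)) := add_comm _ _
      _ ≤ ENNReal.ofReal (8 * d * ε) + ENNReal.ofReal Real.pi := h8
      _ ≤ ENNReal.ofReal (8 * d * ε) + (ENNReal.ofReal (Real.pi - (κ + (4 * d + 4) * ε)) +
          ENNReal.ofReal (κ + (4 * d + 4) * ε)) := add_le_add le_rfl h9
      _ = _ := by ring
  have h11 := (ENNReal.add_le_add_iff_left ENNReal.ofReal_ne_top).1 h10
  refine h11.trans ?_
  rw [← ENNReal.ofReal_add (by positivity) (by positivity)]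
  exact ENNReal.ofReal_le_ofReal (by linarith)

/-- the annulus with real radii in terms of the one with integer radii -/
theorem nf_of {s T : ℝ} (hs : 0 < s) (hs1 : s ≤ 1) (hs2 : 2 ≤ s ^ (-(1 / 125) : ℝ))
    (hT : s ^ (-3 : ℝ) ≤ T) {x : Site d}
    (hx : (sd 0 x : ℝ) ≤ s ^ (-(99 / 100) : ℝ) * Real.sqrt T ∨
      s ^ (-(101 / 100) : ℝ) * Real.sqrt T ≤ sd 0 x) :
    x ∈ nf d ⌊s ^ (1 / 500 - 1 : ℝ) * Real.sqrt T⌋₊ ⌊s ^ (-(1 / 500) - 1 : ℝ) * Real.sqrt T⌋₊ := by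
  have h1 : 1 ≤ s ^ (-3 : ℝ) := Real.one_le_rpow_of_pos_of_le_one_of_nonpos hs hs1 (by norm_num)
  have hT1 : 1 ≤ T := h1.trans hT
  have hq1 : 1 ≤ Real.sqrt T := Real.one_le_sqrt.2 hT1
  have hq0 : 0 ≤ Real.sqrt T := by linarith only [hq1]
  rcases hx with hx | hx
  · left
    have e1 : s ^ (1 / 500 - 1 : ℝ) = s ^ (-(99 / 100) : ℝ) * s ^ (-(1 / 125) : ℝ) := by
      rw [← Real.rpow_add hs]
      norm_num
    have h2 : 1 ≤ s ^ (-(99 / 100) : ℝ) :=
      Real.one_le_rpow_of_pos_of_le_one_of_nonpos hs hs1 (by norm_num)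
    have h3 : 1 ≤ s ^ (-(99 / 100) : ℝ) * Real.sqrt T := by
      calc (1 : ℝ) = 1 * 1 := (one_mul _).symm
        _ ≤ _ := mul_le_mul h2 hq1 zero_le_one (by linarith only [h2])
    have h4 : s ^ (-(99 / 100) : ℝ) * Real.sqrt T + 1 ≤ s ^ (1 / 500 - 1 : ℝ) * Real.sqrt T := by
      rw [e1]
      have h5 : 2 * (s ^ (-(99 / 100) : ℝ) * Real.sqrt T) ≤
          s ^ (-(1 / 125) : ℝ) * (s ^ (-(99 / 100) : ℝ) * Real.sqrt T) :=
        mul_le_mul_of_nonneg_right hs2 (by linarith only [h3])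
      calc s ^ (-(99 / 100) : ℝ) * Real.sqrt T + 1 ≤ 2 * (s ^ (-(99 / 100) : ℝ) * Real.sqrt T) := by
            linarith only [h3]
        _ ≤ _ := h5
        _ = _ := by ring
    have h6 : s ^ (1 / 500 - 1 : ℝ) * Real.sqrt T < ⌊s ^ (1 / 500 - 1 : ℝ) * Real.sqrt T⌋₊ + 1 :=
      Nat.lt_floor_add_one _
    have h7 : (sd 0 x : ℝ) < ⌊s ^ (1 / 500 - 1 : ℝ) * Real.sqrt T⌋₊ := by linarith only [hx, h4, h6]
    exact_mod_cast h7
  · right
    have h2 : s ^ (-(1 / 500) - 1 : ℝ) ≤ s ^ (-(101 / 100) : ℝ) :=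
      Real.rpow_le_rpow_of_exponent_ge hs hs1 (by norm_num)
    have h3 : s ^ (-(1 / 500) - 1 : ℝ) * Real.sqrt T ≤ sd 0 x :=
      (mul_le_mul_of_nonneg_right h2 hq0).trans hx
    have h4 : ((⌊s ^ (-(1 / 500) - 1 : ℝ) * Real.sqrt T⌋₊ : ℕ) : ℝ) ≤ sd 0 x :=
      (Nat.floor_le (mul_nonneg (Real.rpow_nonneg hs.le _) hq0)).trans h3
    exact_mod_cast h4

theorem exists_s125 : ∃ s₁ : ℝ, 0 < s₁ ∧ s₁ ≤ 1 ∧ ∀ s : ℝ, 0 < s → s ≤ s₁ →
    2 ≤ s ^ (-(1 / 125) : ℝ) := by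
  refine ⟨2 ^ (-125 : ℝ), by positivity, Real.rpow_le_one_of_one_le_of_nonpos (by norm_num)
    (by norm_num), fun s hs h => ?_⟩
  have h1 : (2 ^ (-125 : ℝ) : ℝ) ^ (-(1 / 125) : ℝ) ≤ s ^ (-(1 / 125) : ℝ) :=
    Real.rpow_le_rpow_of_nonpos hs h (by norm_num)
  have h2 : (2 ^ (-125 : ℝ) : ℝ) ^ (-(1 / 125) : ℝ) = 2 := by
    rw [← Real.rpow_mul (by norm_num)]
    norm_num
  linarith only [h1]

/-- the outer sites, real radii -/
def out (d : ℕ) (s T : ℝ) : Set (Site d) :=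
  {x | (sd 0 x : ℝ) ≤ s ^ (-(99 / 100) : ℝ) * Real.sqrt T ∨
    s ^ (-(101 / 100) : ℝ) * Real.sqrt T ≤ sd 0 x}

theorem meas_evol (t : ℝ) (x : Site d) : Measurable fun V : Site d → ℝ => evol V t x := by
  have h2 := continuous_evol_pot (d := d) t
  have h3 : Continuous fun V : Site d → ℝ => coord x (evol V t) := (coord x).continuous.comp h2
  simp only [coord_apply] at h3
  exact h3.measurable

/-- the average over the times, any measurable set of sites: measurability in the potential -/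
theorem meas_avg (S : Set (Site d)) (T : ℝ) :
    Measurable fun V : Site d → ℝ => ∫⁻ t in Set.Ioc (0 : ℝ) T, ∑' x : Site d,
      S.indicator (fun x => ENNReal.ofReal (‖evol V t x‖ ^ 2)) x := by
  have h1 : ∀ x : Site d, Measurable fun p : (Site d → ℝ) × ℝ => evol p.1 p.2 x := by
    intro x
    have h := measurable_uncurry_of_continuous_of_measurable
      (u := fun (t : ℝ) (V : Site d → ℝ) => evol V t x)
      (fun V => continuous_coord (isEvolution_evol V).1 x) (fun t => meas_evol t x)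
    have h' : Measurable ((fun p : ℝ × (Site d → ℝ) => evol p.2 p.1 x) ∘
        (Prod.swap : (Site d → ℝ) × ℝ → ℝ × (Site d → ℝ))) := h.comp measurable_swap
    exact h'
  have h2 : Measurable fun p : (Site d → ℝ) × ℝ => ∑' x : Site d,
      S.indicator (fun x => ENNReal.ofReal (‖evol p.1 p.2 x‖ ^ 2)) x := by
    refine Measurable.tsum fun x => ?_
    by_cases h : x ∈ S
    · simp only [Set.indicator_of_mem h]
      exact ENNReal.measurable_ofReal.comp ((h1 x).norm.pow_const 2)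
    · simp only [Set.indicator_of_notMem h]
      exact measurable_const
  exact h2.lintegral_prod_right'

/-- TAV, core: the mean of the mass outside the annulus -/
theorem tav0 (hQ : QamStmt) (hF : FreStmt) (d : ℕ) (ε : ℝ) (hd : 3 ≤ d) (hε : 0 < ε) :
    ∃ s₀ : ℝ, 0 < s₀ ∧ s₀ ≤ 1 ∧ ∀ (σ T : ℝ), σ ≠ 0 → |σ| ≤ s₀ → |σ| ^ (-3 : ℝ) ≤ T →
      ∫⁻ V, (∫⁻ t in Set.Ioc (0 : ℝ) T, ∑' x : Site d, (out d |σ| T).indicator
        (fun x => ENNReal.ofReal (‖evol V t x‖ ^ 2)) x) ∂(PP d (gl σ)) ≤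
        ENNReal.ofReal (ε * T) := by
  have hd0 : (0 : ℝ) ≤ d := Nat.cast_nonneg d
  obtain ⟨a, y₀, ha, ha1, hy₀, hfre⟩ := hF d (ε / 4) hd (by linarith only [hε])
  set ε' : ℝ := ε / (4 * (12 * d + 4)) with hε'
  have hε'0 : 0 < ε' := by rw [hε']; positivity
  have hε'1 : (12 * d + 4) * ε' = ε / 4 := by
    rw [hε']
    field_simp
  obtain ⟨s₂, hs₂, hs₂1, hq⟩ := hQ d a ε' hd ha hε'0
  obtain ⟨s₁, hs₁, hs₁1, h125⟩ := exists_s125
  refine ⟨min (min s₁ s₂) y₀, lt_min (lt_min hs₁ hs₂) hy₀,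
    (min_le_left _ _).trans ((min_le_left _ _).trans hs₁1), fun σ T hσ hσs hT => ?_⟩
  have hs : 0 < |σ| := abs_pos.2 hσ
  have hσ1 : |σ| ≤ s₁ := hσs.trans ((min_le_left _ _).trans (min_le_left _ _))
  have hσ2 : |σ| ≤ s₂ := hσs.trans ((min_le_left _ _).trans (min_le_right _ _))
  have hσ3 : |σ| ≤ y₀ := hσs.trans (min_le_right _ _)
  have hσ11 : |σ| ≤ 1 := hσ1.trans hs₁1
  have hT0 : 0 < T := lt_of_lt_of_le (Real.rpow_pos_of_pos hs _) hT
  have hη : 0 < 1 / T := by positivity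
  have hT2 : 1 / T ≤ y₀ := by
    have h1 : |σ| ^ (-1 : ℝ) ≤ T :=
      (Real.rpow_le_rpow_of_exponent_ge hs hσ11 (by norm_num)).trans hT
    rw [Real.rpow_neg_one] at h1
    have h2 : 1 / T ≤ |σ| := by
      rw [one_div]
      exact inv_le_of_inv_le₀ hs h1
    exact h2.trans hσ3
  set r : ℕ := ⌊|σ| ^ (1 / 500 - 1 : ℝ) * Real.sqrt T⌋₊ with hr
  set R : ℕ := ⌊|σ| ^ (-(1 / 500) - 1 : ℝ) * Real.sqrt T⌋₊ with hR
  have hsub : out d |σ| T ⊆ nf d r R := fun x hx => nf_of hs hσ11 (h125 _ hs hσ1) hT hx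
  have hB : volume (Set.Icc (-(2 * (d : ℝ) - a)) (2 * d - a)) ≤ ENNReal.ofReal (4 * d) := by
    rw [Real.volume_Icc]
    exact ENNReal.ofReal_le_ofReal (by linarith only [ha])
  have hsum := sumE (d := d) (PP d (gl σ)) (η := 1 / T) (ε := ε') (κ := ε / 4)
    (g := fun E => g0 d (zz (1 / T) E)) (r := r) (R := R) measurableSet_Icc hB hη hε'0.le
    (by linarith only [hε]) (fun E hE => hq σ E T hσ hσ2 (abs_le.2 hE) hT) (hfre (1 / T) hη hT2)
  rw [hε'1] at hsum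
  have hsum' : ∫⁻ V, (∫⁻ E : ℝ, mm (nf d r R) (1 / T) V E) ∂(PP d (gl σ)) ≤
      ENNReal.ofReal (ε / 4 + ε / 4) := by
    rw [lintegral_lintegral_swap (f := fun (E : ℝ) (V : Site d → ℝ) => mm (nf d r R) (1 / T) V E)
      (meas_mm (nf d r R) hη).aemeasurable] at hsum
    exact hsum
  calc ∫⁻ V, (∫⁻ t in Set.Ioc (0 : ℝ) T, ∑' x : Site d, (out d |σ| T).indicator
        (fun x => ENNReal.ofReal (‖evol V t x‖ ^ 2)) x) ∂(PP d (gl σ))
      ≤ ∫⁻ V, ENNReal.ofReal (2 * T) * (∫⁻ E : ℝ, mm (nf d r R) (1 / T) V E)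
          ∂(PP d (gl σ)) := by
        refine lintegral_mono fun V => ?_
        refine (avg_le (out d |σ| T) (isEvolution_evol V) hT0).trans ?_
        exact mul_le_mul' le_rfl (lintegral_mono fun E => mm_mono hsub _ _ _)
    _ = ENNReal.ofReal (2 * T) * ∫⁻ V, (∫⁻ E : ℝ, mm (nf d r R) (1 / T) V E)
          ∂(PP d (gl σ)) := lintegral_const_mul' _ _ ENNReal.ofReal_ne_top
    _ ≤ ENNReal.ofReal (2 * T) * ENNReal.ofReal (ε / 4 + ε / 4) := mul_le_mul' le_rfl hsum'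
    _ = ENNReal.ofReal (ε * T) := by
        rw [← ENNReal.ofReal_mul (by positivity)]
        congr 1
        ring

theorem tav (hQ : QamStmt) (hF : FreStmt) : TavStmt := by
  intro d ε hd hε
  obtain ⟨s₀, h1, h2, h⟩ := tav0 hQ hF d ε hd hε
  refine ⟨s₀, h1, h2, fun σ T hσ hσs hT => ?_⟩
  refine le_trans (le_of_eq ?_) (h σ T hσ hσs hT)
  refine lintegral_congr fun V => lintegral_congr fun t => tsum_congr fun x => ?_
  by_cases hx : x ∈ out d |σ| T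
  · rw [Set.indicator_of_mem hx, if_pos]
    exact hx
  · rw [Set.indicator_of_notMem hx, if_neg]
    exact hx

/-- the event form, by Markov's inequality -/
theorem tev (hQ : QamStmt) (hF : FreStmt) (d : ℕ) (ε : ℝ) (hd : 3 ≤ d) (hε : 0 < ε) :
    ∃ s₀ : ℝ, 0 < s₀ ∧ s₀ ≤ 1 ∧ ∀ (σ T : ℝ), σ ≠ 0 → |σ| ≤ s₀ → |σ| ^ (-3 : ℝ) ≤ T →
      PP d (gl σ) {V | ENNReal.ofReal (ε * T) < ∫⁻ t in Set.Ioc (0 : ℝ) T, ∑' x : Site d,
        (out d |σ| T).indicator (fun x => ENNReal.ofReal (‖evol V t x‖ ^ 2)) x} ≤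
        ENNReal.ofReal ε := by
  obtain ⟨s₀, h1, h2, h⟩ := tav0 hQ hF d (ε * ε) hd (by positivity)
  refine ⟨s₀, h1, h2, fun σ T hσ hσs hT => ?_⟩
  have hs : 0 < |σ| := abs_pos.2 hσ
  have hT0 : 0 < T := lt_of_lt_of_le (Real.rpow_pos_of_pos hs _) hT
  have h3 := mul_meas_ge_le_lintegral₀ (μ := PP d (gl σ))
    (meas_avg (out d |σ| T) T).aemeasurable (ENNReal.ofReal (ε * T))
  have h4 := h3.trans (h σ T hσ hσs hT)
  have h5 : ENNReal.ofReal (ε * ε * T) = ENNReal.ofReal (ε * T) * ENNReal.ofReal ε := by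
    rw [← ENNReal.ofReal_mul (by positivity)]
    congr 1
    ring
  rw [h5] at h4
  have h6 := (ENNReal.mul_le_mul_iff_right (a := ENNReal.ofReal (ε * T))
    (ENNReal.ofReal_pos.2 (by positivity)).ne' ENNReal.ofReal_ne_top).1 h4
  refine le_trans (measure_mono ?_) h6
  intro V hV
  rw [Set.mem_ofPred_eq] at hV ⊢
  exact hV.le

end Pool.Agent.QDA.H76
end
end -- Pool.Agent.Helper76_QDA.Tav

section -- Pool.Agent.Helper41_QDA.Fre

/-!
# QDA, row FRE: the free mass in the bulk of the spectrum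
-/

set_option autoImplicit false

open MeasureTheory ProbabilityTheory Function Filter

open scoped BigOperators NNReal ENNReal Matrix InnerProductSpace Topology

noncomputable section

namespace Pool.Agent.QDA.H41

open Pool.Agent.Anderson hiding box mem_box card_box
open Pool.Agent.Loc Pool.Agent.Mob Pool.Agent.Helper54.Bal
  Pool.Agent.Helper96.EXP Pool.Agent.BED

variable {d : ℕ}

/-- the norm of the Laplacian -/
theorem nLap (f : L2 d) : ‖Lap d f‖ ≤ 2 * d * ‖f‖ := by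
  unfold Lap
  rw [ContinuousLinearMap.sum_apply]
  refine (norm_sum_le _ _).trans ?_
  calc ∑ i : Fin d, ‖((shift (Pi.single i 1)).toContinuousLinearMap +
        (shift (-Pi.single i 1)).toContinuousLinearMap) f‖ ≤ ∑ _i : Fin d, 2 * ‖f‖ := by
        apply Finset.sum_le_sum
        intro i _
        rw [ContinuousLinearMap.add_apply]
        refine (norm_add_le _ _).trans ?_
        rw [LinearIsometry.coe_toContinuousLinearMap, LinearIsometry.coe_toContinuousLinearMap,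
          LinearIsometry.norm_map, LinearIsometry.norm_map]
        linarith
    _ = 2 * d * ‖f‖ := by
        rw [Finset.sum_const, Finset.card_univ, Fintype.card_fin, nsmul_eq_mul]
        ring

/-- outside the spectrum the resolvent is small -/
theorem norm_out {y E : ℝ} (hy : 0 < y) :
    (|E| - 2 * d) * ‖G (0 : Site d → ℝ) (zz y E) (del 0)‖ ≤ 1 := by
  have hz : (zz y E).im ≠ 0 := by
    simp [zz]
    exact hy.ne'
  set g := G (0 : Site d → ℝ) (zz y E) (del 0) with hg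
  have h1 : Lap d g - zz y E • g = (del 0 : L2 d) := by
    ext x
    have h2 := G_eq (V := (0 : Site d → ℝ)) hz (del (0 : Site d)) x
    rw [← hg] at h2
    rw [lp.coeFn_sub, Pi.sub_apply, lp.coeFn_smul, Pi.smul_apply, smul_eq_mul, Lap_apply, ← h2]
    simp
    ring
  have h3 : zz y E • g = Lap d g - (del 0 : L2 d) := by
    rw [← h1]
    abel
  have h4 : ‖zz y E‖ * ‖g‖ ≤ 2 * d * ‖g‖ + 1 := by
    rw [← norm_smul, h3]
    refine (norm_sub_le _ _).trans (add_le_add (nLap g) ?_)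
    rw [norm_del]
  have h5 : |E| ≤ ‖zz y E‖ := by
    have := Complex.abs_re_le_norm (zz y E)
    simpa [zz] using this
  have h6 := mul_le_mul_of_nonneg_right h5 (norm_nonneg g)
  linarith

theorem im_out {y E : ℝ} (hy : 0 < y) (hE : 2 * (d : ℝ) < |E|) :
    (g0 d (zz y E)).im ≤ y / (|E| - 2 * d) ^ 2 := by
  have h0 : 0 < |E| - 2 * (d : ℝ) := by linarith
  have h1 := norm_out (d := d) (E := E) hy
  have h2 := H76.ward (0 : Site d → ℝ) hy E
  unfold g0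
  rw [h2]
  rw [div_eq_mul_inv]
  refine mul_le_mul_of_nonneg_left ?_ hy.le
  rw [← one_div, le_div_iff₀ (by positivity), ← mul_pow]
  have h3 : ‖G (0 : Site d → ℝ) (zz y E) (del 0)‖ * (|E| - 2 * d) ≤ 1 := by
    rw [mul_comm]
    exact h1
  calc (‖G (0 : Site d → ℝ) (zz y E) (del 0)‖ * (|E| - 2 * d)) ^ 2 ≤ 1 ^ 2 :=
        pow_le_pow_left₀ (by positivity) h3 2
    _ = 1 := one_pow _

/-- the tail integral -/
theorem tail {y a D : ℝ} (hy : 0 ≤ y) (ha : 0 < a) :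
    ∫⁻ E in Set.Ioi (D + a), ENNReal.ofReal (y / (E - D) ^ 2) = ENNReal.ofReal (y / a) := by
  have hder : ∀ x ∈ Set.Ici (D + a), HasDerivAt (fun E : ℝ => -(y / (E - D))) (y / (x - D) ^ 2) x := by
    intro x hx
    have hx' : x - D ≠ 0 := by
      have : D + a ≤ x := hx
      have h : 0 < x - D := by linarith only [ha, this]
      exact h.ne'
    have h1 : HasDerivAt (fun E : ℝ => E - D) 1 x := (hasDerivAt_id x).sub_const D
    have h2 := (h1.inv hx').const_mul (-y)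
    have h3 : (fun E : ℝ => -(y / (E - D))) = fun E : ℝ => -y * (E - D)⁻¹ := by
      funext E
      rw [div_eq_mul_inv]
      ring
    rw [h3]
    refine h2.congr_deriv ?_
    field_simp
  have hnn : ∀ x ∈ Set.Ioi (D + a), 0 ≤ y / (x - D) ^ 2 := fun x _ => by positivity
  have hlim : Tendsto (fun E : ℝ => -(y / (E - D))) atTop (𝓝 0) := by
    have h1 : Tendsto (fun E : ℝ => E - D) atTop atTop := tendsto_atTop_add_const_right _ _ tendsto_id
    have h2 := (h1.const_div_atTop y).neg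
    simpa using h2
  have hint := integrableOn_Ioi_deriv_of_nonneg' hder hnn hlim
  have hval := integral_Ioi_of_hasDerivAt_of_nonneg' hder hnn hlim
  rw [← ofReal_integral_eq_lintegral_ofReal hint
    ((ae_restrict_iff' measurableSet_Ioi).2 (Eventually.of_forall hnn)), hval]
  congr 1
  rw [add_sub_cancel_left]
  ring

theorem fre (hG : GucStmt) : H76.FreStmt := by
  intro d ε hd hε
  obtain ⟨C, hC, hb⟩ := hG d hd
  have hC0 : 0 < C := by linarith only [hC]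
  set a : ℝ := min 1 (ε / (8 * C)) with ha
  have ha0 : 0 < a := lt_min one_pos (by positivity)
  have ha1 : a ≤ 1 := min_le_left _ _
  have ha2 : a * (8 * C) ≤ ε := by
    have h : a ≤ ε / (8 * C) := min_le_right _ _
    rwa [le_div_iff₀ (by positivity)] at h
  refine ⟨a, a * ε / 4, ha0, ha1, by positivity, fun y hy hy0 => ?_⟩
  have hya : y / a ≤ ε / 4 := by
    rw [div_le_iff₀ ha0]
    linarith only [hy0]
  set F : ℝ → ℝ≥0∞ := fun E => ENNReal.ofReal ((g0 d (zz y E)).im) with hF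
  have hFC : ∀ E, F E ≤ ENNReal.ofReal C := by
    intro E
    refine ENNReal.ofReal_le_ofReal ?_
    have hz : 0 < (zz y E).im := by
      rw [H76.zz_im]
      exact hy
    exact (Complex.im_le_norm _).trans (hb _ _ hz hz).1
  have htot : ∫⁻ E : ℝ, F E = ENNReal.ofReal Real.pi := H76.lint_im (0 : Site d → ℝ) hy
  have hright : ∫⁻ E in Set.Ioi (2 * (d : ℝ) + a), F E ≤ ENNReal.ofReal (y / a) := by
    rw [← tail (D := 2 * (d : ℝ)) hy.le ha0]
    refine setLIntegral_mono' measurableSet_Ioi fun E hE => ?_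
    have hE' : 2 * (d : ℝ) + a < E := hE
    have hE0 : 0 ≤ E := by
      have : (0 : ℝ) ≤ d := Nat.cast_nonneg d
      linarith only [ha0, hE']
    refine ENNReal.ofReal_le_ofReal ?_
    have h := im_out (d := d) (E := E) hy (by rw [abs_of_nonneg hE0]; linarith only [ha0, hE'])
    rw [abs_of_nonneg hE0] at h
    exact h
  have hleft : ∫⁻ E in Set.Iio (-(2 * (d : ℝ) + a)), F E ≤ ENNReal.ofReal (y / a) := by
    have h1 := (Measure.measurePreserving_neg (volume : Measure ℝ)).setLIntegral_comp_preimage_emb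
      (MeasurableEquiv.neg ℝ).measurableEmbedding F (Set.Iio (-(2 * (d : ℝ) + a)))
    rw [← h1]
    have h2 : (Neg.neg : ℝ → ℝ) ⁻¹' Set.Iio (-(2 * (d : ℝ) + a)) = Set.Ioi (2 * (d : ℝ) + a) := by
      ext x
      simp only [Set.mem_preimage, Set.mem_Iio, Set.mem_Ioi, neg_lt_neg_iff]
    rw [h2, ← tail (D := 2 * (d : ℝ)) hy.le ha0]
    refine setLIntegral_mono' measurableSet_Ioi fun E hE => ?_
    have hE' : 2 * (d : ℝ) + a < E := hE
    have hE0 : 0 ≤ E := by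
      have : (0 : ℝ) ≤ d := Nat.cast_nonneg d
      linarith only [ha0, hE']
    refine ENNReal.ofReal_le_ofReal ?_
    have h := im_out (d := d) (E := -E) hy (by rw [abs_neg, abs_of_nonneg hE0]; linarith only [ha0, hE'])
    rw [abs_neg, abs_of_nonneg hE0] at h
    exact h
  have hstrip : ∀ u v : ℝ, v - u = 2 * a → ∫⁻ E in Set.Icc u v, F E ≤ ENNReal.ofReal (2 * a * C) := by
    intro u v huv
    calc ∫⁻ E in Set.Icc u v, F E ≤ ∫⁻ _E in Set.Icc u v, ENNReal.ofReal C :=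
          lintegral_mono fun E => hFC E
      _ = ENNReal.ofReal (2 * a * C) := by
          rw [setLIntegral_const, Real.volume_Icc, huv, ← ENNReal.ofReal_mul hC0.le]
          congr 1
          ring
  set B : Set ℝ := Set.Icc (-(2 * (d : ℝ) - a)) (2 * d - a) with hB
  have hcov : (Set.univ : Set ℝ) ⊆ (((B ∪ Set.Icc (-(2 * (d : ℝ) + a)) (-(2 * (d : ℝ) - a))) ∪
      Set.Icc (2 * (d : ℝ) - a) (2 * (d : ℝ) + a)) ∪ Set.Iio (-(2 * (d : ℝ) + a))) ∪
      Set.Ioi (2 * (d : ℝ) + a) := by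
    intro x _
    simp only [hB, Set.mem_union, Set.mem_Icc, Set.mem_Iio, Set.mem_Ioi]
    by_cases h1 : x < -(2 * (d : ℝ) + a)
    · exact Or.inl (Or.inr h1)
    · by_cases h2 : 2 * (d : ℝ) + a < x
      · exact Or.inr h2
      · push Not at h1 h2
        by_cases h3 : x ≤ -(2 * (d : ℝ) - a)
        · exact Or.inl (Or.inl (Or.inl (Or.inr ⟨h1, h3⟩)))
        · by_cases h4 : 2 * (d : ℝ) - a ≤ x
          · exact Or.inl (Or.inl (Or.inr ⟨h4, h2⟩))
          · push Not at h3 h4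
            exact Or.inl (Or.inl (Or.inl (Or.inl ⟨h3.le, h4.le⟩)))
  have hsum : ENNReal.ofReal Real.pi ≤ (∫⁻ E in B, F E) + ENNReal.ofReal ε := by
    rw [← htot, ← setLIntegral_univ]
    refine (lintegral_mono_set hcov).trans ?_
    refine (lintegral_union_le _ _ _).trans ?_
    refine (add_le_add ((lintegral_union_le _ _ _).trans (add_le_add ((lintegral_union_le _ _ _).trans
      (add_le_add ((lintegral_union_le _ _ _).trans (add_le_add le_rfl
        (hstrip _ _ (by ring)))) (hstrip _ _ (by ring)))) hleft)) hright).trans ?_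
    rw [add_assoc, add_assoc, add_assoc, ← ENNReal.ofReal_add (by positivity) (by positivity),
      ← ENNReal.ofReal_add (by positivity) (by positivity),
      ← ENNReal.ofReal_add (by positivity) (by positivity)]
    refine add_le_add le_rfl (ENNReal.ofReal_le_ofReal ?_)
    linarith only [ha2, hya]
  rw [ENNReal.ofReal_sub _ hε.le]
  exact tsub_le_iff_right.2 hsum

end Pool.Agent.QDA.H41
end
end -- Pool.Agent.Helper41_QDA.Fre

section -- Pool.Agent.Helper76_QDA.Brg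

/-!
# QDA, row HND: the bridge to the literal definitions
-/

set_option autoImplicit false

open MeasureTheory ProbabilityTheory Function Filter

open scoped BigOperators NNReal ENNReal Matrix InnerProductSpace Topology

noncomputable section

namespace Pool.Agent.QDA.H76

open Pool.Agent.Anderson hiding box mem_box card_box
open Pool.Agent.Loc Pool.Agent.Mob Pool.Agent.Helper54.Bal
  Pool.Agent.Helper96.EXP Pool.Agent.BED

variable {d : ℕ}

/-- the law of `σ ξ` on the lattice -/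
theorem map_gauss (d : ℕ) (σ : ℝ) :
    (Measure.infinitePi fun _ : Site d => gaussianReal 0 1).map
      (fun (ξ : Site d → ℝ) y => σ * ξ y) = PP d (gl σ) := by
  have hm : ∀ y : Site d, Measurable fun ξ : Site d → ℝ => ξ y := fun y => measurable_pi_apply y
  have hlaw : ∀ y : Site d, (Measure.infinitePi fun _ : Site d => gaussianReal 0 1).map
      (fun ξ => ξ y) = gaussianReal 0 1 := fun y =>
    (measurePreserving_eval_infinitePi (fun _ : Site d => gaussianReal 0 1) y).map_eq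
  have hind : iIndepFun (fun (y : Site d) (ξ : Site d → ℝ) => ξ y)
      (Measure.infinitePi fun _ : Site d => gaussianReal 0 1) :=
    iIndepFun_infinitePi (P := fun _ : Site d => gaussianReal 0 1) (X := fun _ t => t)
      (fun _ => measurable_id)
  exact Pool.Agent.Mob.H42.map_eq_PP hm hlaw hind σ

theorem meas_mul {ι : Type} (σ : ℝ) : Measurable fun (ξ : ι → ℝ) y => σ * ξ y := by
  refine measurable_pi_lambda _ fun x => ?_
  have h : Measurable fun ξ : ι → ℝ => ξ x := measurable_pi_apply x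
  exact h.const_mul σ

/-- sets of potentials -/
theorem set_le (d : ℕ) (σ : ℝ) (A : Set (Site d → ℝ)) {b : ℝ≥0∞} (h : PP d (gl σ) A ≤ b) :
    (Measure.infinitePi fun _ : Site d => gaussianReal 0 1)
      {ξ : Site d → ℝ | (fun y => σ * ξ y) ∈ A} ≤ b := by
  rw [← map_gauss d σ] at h
  exact (Measure.le_map_apply (meas_mul σ).aemeasurable A).trans h

/-- the distance to the origin is the norm -/
theorem sd_norm (x : Site d) : (sd 0 x : ℝ) = ‖x‖ := by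
  have h1 : ∀ i, ((x i).natAbs : ℝ) = ‖x i‖ := by
    intro i
    rw [Int.norm_eq_abs, ← Int.cast_abs, Int.abs_eq_natAbs, Int.cast_natCast]
  refine le_antisymm ?_ ?_
  · have h2 : ∃ n : ℕ, sd 0 x = n := ⟨_, rfl⟩
    by_cases hd : Nonempty (Fin d)
    · obtain ⟨i, -, hi⟩ := Finset.exists_mem_eq_sup (Finset.univ : Finset (Fin d))
        Finset.univ_nonempty (fun i => ((0 : Site d) i - x i).natAbs)
      have h3 : sd 0 x = (x i).natAbs := by
        unfold sd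
        rw [hi]
        simp
      rw [h3, h1]
      exact norm_le_pi_norm x i
    · have h3 : sd 0 x = 0 := by
        unfold sd
        rw [Finset.univ_eq_empty_iff.2 (not_nonempty_iff.1 hd)]
        simp
      rw [h3]
      simp
  · refine (pi_norm_le_iff_of_nonneg (Nat.cast_nonneg _)).2 fun i => ?_
    rw [← h1]
    have h4 : ((0 : Site d) i - x i).natAbs ≤ sd 0 x :=
      Finset.le_sup (f := fun i => ((0 : Site d) i - x i).natAbs) (Finset.mem_univ i)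
    have h5 : ((0 : Site d) i - x i).natAbs = (x i).natAbs := by simp
    rw [h5] at h4
    exact_mod_cast h4

theorem del_apply (x y : Site d) : (del x : L2 d) y = if y = x then 1 else 0 := by
  unfold del
  rw [lp.single_apply]
  by_cases h : y = x
  · subst h
    simp
  · rw [if_neg h]
    simp [h]

/-- the Green function -/
theorem green (V : Site d → ℝ) (z : ℂ) (hz : 0 < z.im) :
    (Summable (fun y => ‖G V z (del 0) y‖ ^ 2) ∧
      ∀ y, lap (fun y => G V z (del 0) y) y + ((V y : ℂ) - z) * G V z (del 0) y =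
        if y = 0 then 1 else 0) ∧
    ∀ g : Site d → ℂ, Summable (fun y => ‖g y‖ ^ 2) →
      (∀ y, lap g y + ((V y : ℂ) - z) * g y = if y = 0 then 1 else 0) →
        g = fun y => G V z (del 0) y := by
  refine ⟨⟨?_, fun y => ?_⟩, fun g hg hg2 => ?_⟩
  · have h1 := (lp.memℓp (G V z (del 0))).summable (by norm_num)
    refine h1.congr fun y => ?_
    norm_num
  · rw [← del_apply 0 y]
    exact G_eq hz.ne' (del 0) y
  · have hmem : Memℓp g 2 := by
      rw [memℓp_gen_iff (by norm_num)]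
      refine hg.congr fun y => ?_
      norm_num
    have h2 : (⟨g, hmem⟩ : L2 d) = G V z (del 0) := by
      apply G_unique hz.ne'
      intro y
      rw [del_apply 0 y]
      exact hg2 y
    funext y
    rw [← h2]

/-- the time evolution, the initial value written out -/
theorem evolution_iff (V : Site d → ℝ) (ψ : ℝ → L2 d) :
    (Continuous ψ ∧ (∀ x, ψ 0 x = if x = 0 then 1 else 0) ∧
      ∀ t x, HasDerivAt (fun s => ψ s x) (-Complex.I * (lap (ψ t) x + (V x : ℂ) * ψ t x)) t) ↔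
    IsEvolution V ψ := by
  unfold IsEvolution
  refine and_congr_right fun _ => and_congr_left fun _ => ?_
  constructor
  · intro h
    ext x
    rw [h x, del_apply]
  · intro h x
    rw [h, del_apply]

theorem measGz (z : ℂ) (hz : 0 < z.im) (y : Site d) :
    Measurable fun V : Site d → ℝ => G V z (del 0) y := by
  have h := measG (d := d) z.re hz y
  have e : zz z.im z.re = z := by
    apply Complex.ext <;> simp [zz]
  rw [e] at h
  exact h

theorem zz_mk (η E : ℝ) : zz η E = ⟨E, η⟩ := by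
  apply Complex.ext <;> simp [zz]

/-- the mass outside the annulus on the good event -/
theorem good_out {V : Site d → ℝ} {E T ε : ℝ} {r R : ℕ} (hT : 0 < T) (hε : 0 ≤ ε)
    {S : Set (Site d)} (hS : S ⊆ nf d r R)
    (h : ¬ BadZM V E (1 / T) (g0 d (zz (1 / T) E)) (ε / 2) r R) :
    ‖G V ⟨E, 1 / T⟩ (del 0) 0 - G (0 : Site d → ℝ) ⟨E, 1 / T⟩ (del 0) 0‖ ≤ ε / 2 ∧
    ∑' x : S, ENNReal.ofReal (‖G V ⟨E, 1 / T⟩ (del 0) x‖ ^ 2 / T) ≤ ENNReal.ofReal ε := by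
  have hη : 0 < 1 / T := by positivity
  have h1 : mm S (1 / T) V E ≤ ENNReal.ofReal (2 * (ε / 2)) :=
    (mm_mono hS _ V E).trans (mm_good hη (by linarith) h)
  have h2 : ‖G V (zz (1 / T) E) (del 0) 0 - g0 d (zz (1 / T) E)‖ ≤ ε / 2 := by
    by_contra hc
    exact h (Or.inl (not_le.1 hc))
  unfold g0 at h2
  rw [zz_mk] at h2
  refine ⟨h2, ?_⟩
  have e1 := tsum_subtype S (fun x => ENNReal.ofReal (‖G V ⟨E, 1 / T⟩ (del 0) x‖ ^ 2 / T))
  rw [e1]
  have e2 : 2 * (ε / 2) = ε := by ring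
  rw [e2] at h1
  refine le_trans (le_of_eq ?_) h1
  unfold mm
  rw [zz_mk]
  have e3 : (fun x : Site d => ENNReal.ofReal (‖G V ⟨E, 1 / T⟩ (del 0) x‖ ^ 2 / T)) =
      fun x => ENNReal.ofReal (1 / T * ‖G V ⟨E, 1 / T⟩ (del 0) x‖ ^ 2) := by
    funext x
    congr 1
    ring
  rw [e3]

end Pool.Agent.QDA.H76
end
end -- Pool.Agent.Helper76_QDA.Brg

section -- Pool.Agent.Helper76_QDA.Brg2

/-!
# QDA, row HND: the time evolution, elementary form
-/

set_option autoImplicit false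

open MeasureTheory ProbabilityTheory Function Filter

open scoped BigOperators NNReal ENNReal Matrix InnerProductSpace Topology

noncomputable section

namespace Pool.Agent.QDA.H76

open Pool.Agent.Anderson hiding box mem_box card_box
open Pool.Agent.Loc Pool.Agent.Mob Pool.Agent.Helper54.Bal
  Pool.Agent.Helper96.EXP Pool.Agent.BED

variable {d : ℕ}

/-- the evolution with values in the functions -/
def Evo (V : Site d → ℝ) (ψ : ℝ → Site d → ℂ) : Prop :=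
  (∀ t, Summable fun x => ‖ψ t x‖ ^ 2) ∧
  (∀ t, Tendsto (fun s => ∑' x, ‖ψ s x - ψ t x‖ ^ 2) (𝓝 t) (𝓝 0)) ∧
  (∀ x, ψ 0 x = if x = 0 then 1 else 0) ∧
    ∀ t x, HasDerivAt (fun s => ψ s x) (-Complex.I * (lap (ψ t) x + V x * ψ t x)) t

theorem evo_of {V : Site d → ℝ} {φ : ℝ → L2 d} (h : IsEvolution V φ) :
    Evo V fun t x => φ t x := by
  have h' := (evolution_iff V φ).2 h
  refine ⟨fun t => H30.summable_sq (φ t), fun t => ?_, h'.2.1, h'.2.2⟩
  have e : ∀ s, ∑' x, ‖φ s x - φ t x‖ ^ 2 = ‖φ s - φ t‖ ^ 2 := by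
    intro s
    rw [H30.norm_sq]
    refine tsum_congr fun x => ?_
    rw [lp.coeFn_sub, Pi.sub_apply]
  simp only [e]
  have h1 : Tendsto (fun s => ‖φ s - φ t‖) (𝓝 t) (𝓝 0) :=
    tendsto_iff_norm_sub_tendsto_zero.1 (h.1.tendsto t)
  have h2 := h1.pow 2
  simpa using h2

theorem evo_lift {V : Site d → ℝ} {ψ : ℝ → Site d → ℂ} (h : Evo V ψ) :
    ∃ φ : ℝ → L2 d, IsEvolution V φ ∧ ∀ t x, φ t x = ψ t x := by
  obtain ⟨h1, h2, h3, h4⟩ := h
  have hmem : ∀ t, Memℓp (ψ t) 2 := by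
    intro t
    rw [memℓp_gen_iff (by norm_num)]
    refine (h1 t).congr fun y => ?_
    norm_num
  refine ⟨fun t => ⟨ψ t, hmem t⟩, ?_, fun t x => rfl⟩
  rw [← evolution_iff]
  refine ⟨?_, h3, h4⟩
  rw [continuous_iff_continuousAt]
  intro t
  show Tendsto (fun s => (⟨ψ s, hmem s⟩ : L2 d)) (𝓝 t) (𝓝 ⟨ψ t, hmem t⟩)
  rw [tendsto_iff_norm_sub_tendsto_zero]
  have e : ∀ s, ‖(⟨ψ s, hmem s⟩ : L2 d) - ⟨ψ t, hmem t⟩‖ =
      Real.sqrt (∑' x, ‖ψ s x - ψ t x‖ ^ 2) := by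
    intro s
    rw [← Real.sqrt_sq (norm_nonneg ((⟨ψ s, hmem s⟩ : L2 d) - ⟨ψ t, hmem t⟩)), H30.norm_sq]
    rfl
  simp only [e]
  have h5 := (Real.continuous_sqrt.tendsto 0).comp (h2 t)
  rw [Real.sqrt_zero] at h5
  exact h5

/-- existence and uniqueness -/
theorem evo_evol (V : Site d → ℝ) : Evo V fun t x => evol V t x :=
  evo_of (isEvolution_evol V)

theorem evo_unique {V : Site d → ℝ} {ψ : ℝ → Site d → ℂ} (h : Evo V ψ) :
    ψ = fun t x => evol V t x := by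
  obtain ⟨φ, h1, h2⟩ := evo_lift h
  have h3 : φ = evol V := evol_unique (isEvolution_evol V) h1
  funext t x
  rw [← h2, h3]

end Pool.Agent.QDA.H76
end
end -- Pool.Agent.Helper76_QDA.Brg2

section -- Pool.Agent.Helper79_QDA.Fiqm

/-!
# QDA, row FIQM: all large times from PHM, TRM, PTM, GUC
-/

set_option autoImplicit false

open MeasureTheory ProbabilityTheory Function Filter

open scoped BigOperators NNReal ENNReal Matrix InnerProductSpace Topology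

noncomputable section

namespace Pool.Agent.QDA.H79

open Pool.Agent.Anderson hiding box mem_box card_box
open Pool.Agent.Loc Pool.Agent.Mob Pool.Agent.Helper54.Bal
  Pool.Agent.Helper96.EXP Pool.Agent.BED
open Pool.Agent.LE.MN Pool.Agent.LE.CL Pool.Agent.LE.IR Pool.Agent.LE.QD

/-- another reference number -/
theorem badZM_ref {d : ℕ} {V : Site d → ℝ} {E η ε : ℝ} {m m' : ℂ} {r R : ℕ} (hε : 0 < ε)
    (hm : ‖m - m'‖ ≤ ε / 2) (h : BadZM V E η m' ε r R) : BadZM V E η m (ε / 2) r R := by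
  rcases h with h | h | h
  · left
    have h1 : ‖G V (zz η E) (del 0) 0 - m'‖ ≤ ‖G V (zz η E) (del 0) 0 - m‖ + ‖m - m'‖ := by
      have := norm_add_le (G V (zz η E) (del 0) 0 - m) (m - m')
      rwa [sub_add_sub_cancel] at this
    linarith only [hm, h, h1]
  · right; left
    linarith only [hε, h]
  · right; right
    linarith

theorem aux16 {T R : ℝ} (hT : 16 ≤ T) (hR : R ≤ T ^ 2) : 8 * (R + 1) ≤ T ^ 4 / 16 := by
  have h1 : (256 : ℝ) ≤ T ^ 2 := by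
    calc (256 : ℝ) = 16 ^ 2 := by norm_num
      _ ≤ T ^ 2 := by gcongr
  have h2 : T ^ 2 * 256 ≤ T ^ 2 * T ^ 2 := by gcongr
  have h3 : T ^ 2 * T ^ 2 = T ^ 4 := by ring
  rw [h3] at h2
  linarith only [hR, h1, h2]

/-- FIQM: ALL LARGE TIMES, RESOLVED IN ENERGY -/
theorem fiqm (hPhm : PhmStmt) (hTrm : TrmStmt) (hPtm : PtmStmt) (hGuc : GucStmt) : QzmStmt := by
  intro d a ε hd ha hε
  obtain ⟨K, hK, h1⟩ := hPhm d a ε (ε / 12) hd ha hε (by positivity)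
  have hK0 : 0 < K := lt_of_lt_of_le one_pos hK
  obtain ⟨δ, hδ, h2⟩ := hPtm K (ε / 4) hK (by positivity)
  obtain ⟨CG, hCG, hg⟩ := hGuc d hd
  have hCG0 : 0 < CG := lt_of_lt_of_le one_pos hCG
  obtain ⟨w₀, P, hw0, hw1, hP, h3⟩ := h1 (min (min δ (1 / 2)) (ε / 4)) (by positivity)
  obtain ⟨η₀, hη0, hη1, h4⟩ := hTrm d (ε / 12) (by omega) (by positivity)
  obtain ⟨s₀, hs₀⟩ : ∃ s₀ : ℝ, s₀ = min (min (1 / 16) w₀) (min (min (η₀ / 2)
    ((ε / (4 * CG)) ^ (4 : ℕ) / K)) (min (K ^ (-500 : ℝ)) ((4 * K) ^ (-250 : ℝ)))) := ⟨_, rfl⟩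
  have hs0 : 0 < s₀ := by rw [hs₀]; positivity
  have hs16 : s₀ ≤ 1 / 16 := by rw [hs₀]; exact (min_le_left _ _).trans (min_le_left _ _)
  have hs1 : s₀ ≤ 1 := by linarith only [hs0, hs16]
  have hs2 : s₀ ≤ w₀ := by rw [hs₀]; exact (min_le_left _ _).trans (min_le_right _ _)
  have hs3 : s₀ ≤ η₀ / 2 := by
    rw [hs₀]; exact (min_le_right _ _).trans ((min_le_left _ _).trans (min_le_left _ _))
  have hs6 : s₀ ≤ (ε / (4 * CG)) ^ (4 : ℕ) / K := by
    rw [hs₀]; exact (min_le_right _ _).trans ((min_le_left _ _).trans (min_le_right _ _))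
  have hs4 : s₀ ≤ K ^ (-500 : ℝ) := by
    rw [hs₀]; exact (min_le_right _ _).trans ((min_le_right _ _).trans (min_le_left _ _))
  have hs5 : s₀ ≤ (4 * K) ^ (-250 : ℝ) := by
    rw [hs₀]; exact (min_le_right _ _).trans ((min_le_right _ _).trans (min_le_right _ _))
  refine ⟨s₀, 2 * P + 2, hs0, hs1, by linarith only [hP, hs0, hs16], ?_⟩
  intro σ E T hσ hσs hE hT
  obtain ⟨s, hs⟩ : ∃ s : ℝ, s = |σ| := ⟨_, rfl⟩
  rw [← hs] at hσs hT ⊢
  have hsp : 0 < s := by rw [hs]; exact abs_pos.2 hσ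
  have hsle1 : s ≤ 1 := hσs.trans hs1
  have hT16 : 16 ≤ T := by
    refine le_trans ?_ hT
    have e1 : s⁻¹ ≤ s ^ (-(2 * P + 2)) := by
      rw [← Real.rpow_neg_one]
      exact Real.rpow_le_rpow_of_exponent_ge hsp hsle1 (by linarith only [hP, hs0, hs16])
    refine le_trans ?_ e1
    rw [le_inv_comm₀ (by norm_num) hsp]
    have := hσs.trans hs16
    linarith only [hs16, hσs]
  have hTp : 1 ≤ T := by linarith only [hs0, hs16, hT16]
  have hT0 : 0 < T := by linarith only [hs0, hs16, hT16]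
  have hη : 0 < 1 / T := by positivity
  have hηs : 1 / T ≤ s ^ (2 * P + 2) := by
    rw [div_le_iff₀ hT0]
    have e1 : s ^ (2 * P + 2) * s ^ (-(2 * P + 2)) = 1 := by
      rw [← Real.rpow_add hsp, add_neg_cancel, Real.rpow_zero]
    rw [← e1]
    gcongr
  obtain ⟨w, hw⟩ : ∃ w : ℝ≥0, (w : ℝ) = σ ^ 2 := ⟨⟨σ ^ 2, sq_nonneg σ⟩, rfl⟩
  have hws : (w : ℝ) = s ^ 2 := by rw [hw, hs, sq_abs]
  have hws' : (w : ℝ) = s ^ (2 : ℝ) := by
    rw [hws, ← Real.rpow_natCast]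
    norm_num
  have hwp : (0 : ℝ) < w := by rw [hws]; positivity
  have hwsle : (w : ℝ) ≤ s := by
    rw [hws]
    have : s ^ 2 ≤ s * 1 := by rw [pow_two]; gcongr
    linarith only [this]
  have hww : (w : ℝ) ≤ w₀ := by linarith only [hs2, hσs, hwsle]
  have hηw : 1 / T ≤ (w : ℝ) ^ P := by
    rw [hws', ← Real.rpow_mul hsp.le]
    refine hηs.trans ?_
    exact Real.rpow_le_rpow_of_exponent_ge hsp hsle1 (by linarith only [hs0, hs16])
  have hsqT : Real.sqrt T ^ 2 = T := Real.sq_sqrt hT0.le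
  obtain ⟨r, hr⟩ : ∃ r : ℕ, r = ⌊s ^ (1 / 500 - 1 : ℝ) * Real.sqrt T⌋₊ := ⟨_, rfl⟩
  obtain ⟨R, hR⟩ : ∃ R : ℕ, R = ⌊s ^ (-(1 / 500) - 1 : ℝ) * Real.sqrt T⌋₊ := ⟨_, rfl⟩
  rw [← hr, ← hR]
  have hrR : r ≤ R := by
    rw [hr, hR]
    apply Nat.floor_le_floor
    gcongr ?_ * _
    exact Real.rpow_le_rpow_of_exponent_ge hsp hsle1 (by norm_num)
  have hr1 : (r : ℝ) ≤ s ^ (1 / 500 - 1 : ℝ) * Real.sqrt T := by
    rw [hr]; exact Nat.floor_le (by positivity)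
  have hR1 : (R : ℝ) ≤ s ^ (-(1 / 500) - 1 : ℝ) * Real.sqrt T := by
    rw [hR]; exact Nat.floor_le (by positivity)
  have hy1 : 1 ≤ s ^ (-(1 / 500) - 1 : ℝ) * Real.sqrt T := by
    have e1 : 1 ≤ s ^ (-(1 / 500) - 1 : ℝ) :=
      Real.one_le_rpow_of_pos_of_le_one_of_nonpos hsp hsle1 (by norm_num)
    have e2 : 1 ≤ Real.sqrt T := by rw [Real.one_le_sqrt]; exact hTp
    nlinarith only [e1, e2]
  have hR2 : s ^ (-(1 / 500) - 1 : ℝ) * Real.sqrt T / 2 ≤ (R : ℝ) := by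
    have e1 := Nat.lt_floor_add_one (s ^ (-(1 / 500) - 1 : ℝ) * Real.sqrt T)
    rw [← hR] at e1
    have e2 : (1 : ℝ) ≤ R := by
      have : 1 ≤ R := by rw [hR]; exact Nat.le_floor (by simpa using hy1)
      exact_mod_cast this
    linarith only [e1, e2]
  have hK500 : K * s ^ (1 / 500 : ℝ) ≤ 1 := by
    have e1 : s ^ (1 / 500 : ℝ) ≤ (K ^ (-500 : ℝ)) ^ (1 / 500 : ℝ) :=
      Real.rpow_le_rpow hsp.le (hσs.trans hs4) (by norm_num)
    rw [← Real.rpow_mul hK0.le] at e1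
    norm_num at e1
    rw [Real.rpow_neg_one] at e1
    calc K * s ^ (1 / 500 : ℝ) ≤ K * K⁻¹ := by gcongr
      _ = 1 := mul_inv_cancel₀ hK0.ne'
  have hK250 : 4 * K ≤ s ^ (-(1 / 250) : ℝ) := by
    have e1 : s ^ (1 / 250 : ℝ) ≤ ((4 * K) ^ (-250 : ℝ)) ^ (1 / 250 : ℝ) :=
      Real.rpow_le_rpow hsp.le (hσs.trans hs5) (by norm_num)
    rw [← Real.rpow_mul (by positivity)] at e1
    norm_num at e1
    rw [Real.rpow_neg_one] at e1
    rw [Real.rpow_neg hsp.le, le_inv_comm₀ (by positivity) (by positivity)]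
    exact e1
  have hcond1 : K * (1 / T) * (r : ℝ) ^ 2 ≤ (w : ℝ) ^ (1 / 1000 - 1 : ℝ) := by
    have e1 : (r : ℝ) ^ 2 ≤ (s ^ (1 / 500 - 1 : ℝ)) ^ 2 * T := by
      calc (r : ℝ) ^ 2 ≤ (s ^ (1 / 500 - 1 : ℝ) * Real.sqrt T) ^ 2 := by gcongr
        _ = (s ^ (1 / 500 - 1 : ℝ)) ^ 2 * T := by rw [mul_pow, hsqT]
    have e2 : (s ^ (1 / 500 - 1 : ℝ)) ^ 2 = s ^ (1 / 500 : ℝ) * s ^ (1 / 500 - 2 : ℝ) := by
      rw [← Real.rpow_natCast, ← Real.rpow_mul hsp.le, ← Real.rpow_add hsp]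
      norm_num
    have e3 : (w : ℝ) ^ (1 / 1000 - 1 : ℝ) = s ^ (1 / 500 - 2 : ℝ) := by
      rw [hws', ← Real.rpow_mul hsp.le]
      norm_num
    rw [e3]
    calc K * (1 / T) * (r : ℝ) ^ 2 ≤ K * (1 / T) * ((s ^ (1 / 500 - 1 : ℝ)) ^ 2 * T) := by gcongr
      _ = K * s ^ (1 / 500 : ℝ) * s ^ (1 / 500 - 2 : ℝ) := by
          rw [e2]
          field_simp
      _ ≤ 1 * s ^ (1 / 500 - 2 : ℝ) := by gcongr
      _ = s ^ (1 / 500 - 2 : ℝ) := one_mul _
  have hcond2 : K ≤ w * (1 / T) * (R : ℝ) ^ 2 := by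
    have e1 : (s ^ (-(1 / 500) - 1 : ℝ)) ^ 2 * T / 4 ≤ (R : ℝ) ^ 2 := by
      calc (s ^ (-(1 / 500) - 1 : ℝ)) ^ 2 * T / 4
          = (s ^ (-(1 / 500) - 1 : ℝ) * Real.sqrt T / 2) ^ 2 := by
            rw [div_pow, mul_pow, hsqT]
            norm_num
        _ ≤ (R : ℝ) ^ 2 := by gcongr
    have e2 : s ^ (2 : ℝ) * (s ^ (-(1 / 500) - 1 : ℝ)) ^ 2 = s ^ (-(1 / 250) : ℝ) := by
      rw [← Real.rpow_natCast (s ^ (-(1 / 500) - 1 : ℝ)), ← Real.rpow_mul hsp.le,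
        ← Real.rpow_add hsp]
      norm_num
    calc K ≤ s ^ (-(1 / 250) : ℝ) / 4 := by linarith only [hK250]
      _ = w * (1 / T) * ((s ^ (-(1 / 500) - 1 : ℝ)) ^ 2 * T / 4) := by
          rw [hws', ← e2]
          field_simp
      _ ≤ w * (1 / T) * (R : ℝ) ^ 2 := by gcongr
  have hRT : (R : ℝ) ≤ T ^ 2 := by
    have e2 : s ^ (-(1 / 500) - 1 : ℝ) ≤ T := by
      refine le_trans ?_ hT
      exact Real.rpow_le_rpow_of_exponent_ge hsp hsle1 (by linarith only [hP, hs0, hs16])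
    have e3 : Real.sqrt T ≤ T := by
      rw [Real.sqrt_le_left hT0.le]
      nlinarith only [hT16]
    calc (R : ℝ) ≤ s ^ (-(1 / 500) - 1 : ℝ) * Real.sqrt T := hR1
      _ ≤ T * T := by gcongr
      _ = T ^ 2 := by ring
  have hcond3 : (R : ℝ) ≤ 1 / (1 / T) ^ 2 := by
    have e1 : 1 / (1 / T) ^ 2 = T ^ 2 := by field_simp
    rw [e1]
    exact hRT
  obtain ⟨m, μ, η', hm1, hm2, hm3, hη', hηη, hM, hint⟩ := h3 w E (1 / T) r R
    (by exact_mod_cast hwp) hww hE hη hηw hcond1 hcond2 hcond3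
  have hδa : min (min δ (1 / 2)) (ε / 4) ≤ δ := (min_le_left _ _).trans (min_le_left _ _)
  have hδb : min (min δ (1 / 2)) (ε / 4) ≤ 1 / 2 := (min_le_left _ _).trans (min_le_right _ _)
  have hδc : min (min δ (1 / 2)) (ε / 4) ≤ ε / 4 := min_le_right _ _
  have hη'2 : η' ≤ 2 * (1 / T) := by
    have e1 := (abs_le.1 hηη).1
    have e2 : min (min δ (1 / 2)) (ε / 4) * η' ≤ 1 / 2 * η' := by gcongr
    linarith only [e1, e2]
  have hTs : 1 / T ≤ s := by
    refine hηs.trans ?_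
    calc s ^ (2 * P + 2) ≤ s ^ (1 : ℝ) :=
          Real.rpow_le_rpow_of_exponent_ge hsp hsle1 (by linarith only [hP, hs0, hs16])
      _ = s := Real.rpow_one s
  have hη'm : η' ≤ η₀ := by linarith only [hs3, hσs, hη'2, hTs]
  have hη'5 : η' ≤ 1 := hη'm.trans hη1
  have hM4 : 1 / η' ^ 4 ≤ (2 : ℝ) ^ μ := by
    have e1 : η' ^ (-4 : ℝ) = 1 / η' ^ 4 := by
      rw [Real.rpow_neg hη'.le, one_div]
      congr 1
      rw [← Real.rpow_natCast]
      norm_num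
    rwa [e1] at hM
  have hM3 : η' ^ (-3 : ℝ) ≤ ((2 ^ μ : ℕ) : ℝ) := by
    push_cast
    refine le_trans ?_ hM
    exact Real.rpow_le_rpow_of_exponent_ge hη' hη'5 (by norm_num)
  have hMR : 8 * (R + 1) ≤ 2 ^ μ := by
    have e1 : T ^ 4 / 16 ≤ (2 : ℝ) ^ μ := by
      refine le_trans ?_ hM4
      rw [le_div_iff₀ (by positivity)]
      have e2 : η' ^ 4 ≤ (2 * (1 / T)) ^ 4 := by gcongr
      calc T ^ 4 / 16 * η' ^ 4 ≤ T ^ 4 / 16 * (2 * (1 / T)) ^ 4 := by gcongr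
        _ = 1 := by
            field_simp
            norm_num
    have e3 : (8 * ((R : ℝ) + 1)) ≤ (2 : ℝ) ^ μ := (aux16 hT16 hRT).trans e1
    exact_mod_cast e3
  have h6 := h4 (2 ^ μ) σ E η' m w r R hσ hw hη' hη'm hM3 hMR hrR
  have hmm : ‖m - g0 d (zz (1 / T) E)‖ ≤ ε / 2 := by
    have hzi : 0 < (zz (1 / T) E).im := by
      have : (zz (1 / T) E).im = 1 / T := by simp [zz]
      rw [this]
      exact hη
    have hzi' : 0 < (zz (1 / T) E + ((w : ℝ) : ℂ) * m).im := by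
      rw [Complex.add_im, Complex.im_ofReal_mul]
      have : 0 < (w : ℝ) * m.im := mul_pos hwp hm2
      linarith only [hzi, this]
    have e1 := (hg (zz (1 / T) E + ((w : ℝ) : ℂ) * m) (zz (1 / T) E) hzi' hzi).2
    have e2 : ‖zz (1 / T) E + ((w : ℝ) : ℂ) * m - zz (1 / T) E‖ = (w : ℝ) * ‖m‖ := by
      rw [add_sub_cancel_left, norm_mul, Complex.norm_real, Real.norm_of_nonneg hwp.le]
    rw [e2] at e1
    have e3 : (w : ℝ) * ‖m‖ ≤ (ε / (4 * CG)) ^ (4 : ℕ) := by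
      have e4 : (w : ℝ) ≤ (ε / (4 * CG)) ^ (4 : ℕ) / K := hwsle.trans (hσs.trans hs6)
      calc (w : ℝ) * ‖m‖ ≤ (ε / (4 * CG)) ^ (4 : ℕ) / K * K := by gcongr
        _ = (ε / (4 * CG)) ^ (4 : ℕ) := by field_simp
    have e5 : ((w : ℝ) * ‖m‖) ^ (1 / 4 : ℝ) ≤ ε / (4 * CG) := by
      calc ((w : ℝ) * ‖m‖) ^ (1 / 4 : ℝ) ≤ ((ε / (4 * CG)) ^ (4 : ℕ)) ^ (1 / 4 : ℝ) := by gcongr
        _ = ε / (4 * CG) := by
            rw [← Real.rpow_natCast, ← Real.rpow_mul (by positivity)]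
            norm_num
    have e6 : CG * ((w : ℝ) * ‖m‖) ^ (1 / 4 : ℝ) ≤ ε / 4 := by
      calc CG * ((w : ℝ) * ‖m‖) ^ (1 / 4 : ℝ) ≤ CG * (ε / (4 * CG)) := by gcongr
        _ = ε / 4 := by field_simp
    have e7 := norm_add_le (m - g0 d (zz (1 / T) E + ((w : ℝ) : ℂ) * m))
      (g0 d (zz (1 / T) E + ((w : ℝ) : ℂ) * m) - g0 d (zz (1 / T) E))
    rw [sub_add_sub_cancel] at e7
    linarith only [hm3, hδc, e1, e6, e7]
  have hsub : {V : Site d → ℝ | BadZM V E (1 / T) (g0 d (zz (1 / T) E)) ε r R} ⊆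
      {V : Site d → ℝ | BadZM V E η' m (3 * (ε / 12)) r R} := by
    intro V hV
    have b1 := badZM_ref hε hmm hV
    have b2 : 2 * (ε / 4) = ε / 2 := by ring
    have b3 : 3 * (ε / 12) = ε / 4 := by ring
    have b4 := h2 d V E (1 / T) η' m r R hm1 hη hη' (hηη.trans (by gcongr)) (by rw [b2]; exact b1)
    change BadZM V E η' m (3 * (ε / 12)) r R
    rw [b3]
    exact b4
  refine (measure_mono hsub).trans (h6.trans ?_)
  push_cast
  exact hint

end Pool.Agent.QDA.H79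
end
end -- Pool.Agent.Helper79_QDA.Fiqm

section -- Pool.Agent.Helper76_QDA.Qkm

/-!
# QDA: all large times, the outer radius `K √T / |σ|`

The row FIQM of helper79 with the outer radius `2 K √T / |σ|`.
-/

set_option autoImplicit false

open MeasureTheory ProbabilityTheory Function Filter

open scoped BigOperators NNReal ENNReal Matrix InnerProductSpace Topology

noncomputable section

namespace Pool.Agent.QDA.H76

open Pool.Agent.Anderson hiding box mem_box card_box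
open Pool.Agent.Loc Pool.Agent.Mob Pool.Agent.Helper54.Bal
  Pool.Agent.Helper96.EXP Pool.Agent.BED
open Pool.Agent.LE.MN Pool.Agent.LE.CL Pool.Agent.LE.IR Pool.Agent.LE.QD
open Pool.Agent.QDA.H79 (badZM_ref aux16)

theorem aux_one {x y : ℝ} (hx : 1 ≤ x) (hy : 1 ≤ y) : 1 ≤ x * y := by nlinarith only [hx, hy]

theorem aux_sq {x : ℝ} (hx : 1 ≤ x) : x ≤ x ^ 2 := by nlinarith only [hx]

/-- all times `T ≥ |σ|^{-P}`, outer radius `K √T / |σ|` -/
def QkmStmt : Prop :=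
  ∀ (d : ℕ) (a ε : ℝ), 3 ≤ d → 0 < a → 0 < ε → ∃ s₀ P K : ℝ, 0 < s₀ ∧ s₀ ≤ 1 ∧ 1 ≤ P ∧ 1 ≤ K ∧
    ∀ (σ E T : ℝ), σ ≠ 0 → |σ| ≤ s₀ → |E| ≤ 2 * d - a → |σ| ^ (-P) ≤ T →
      PP d (gl σ) {V | BadZM V E (1 / T) (g0 d (zz (1 / T) E)) ε
        ⌊|σ| ^ (1 / 500 - 1 : ℝ) * Real.sqrt T⌋₊ ⌊K * |σ|⁻¹ * Real.sqrt T⌋₊} ≤ ENNReal.ofReal ε

theorem qkm (hPhm : PhmStmt) (hTrm : TrmStmt) (hPtm : PtmStmt) (hGuc : GucStmt) : QkmStmt := by
  intro d a ε hd ha hε
  obtain ⟨K, hK, h1⟩ := hPhm d a ε (ε / 12) hd ha hε (by positivity)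
  have hK0 : 0 < K := lt_of_lt_of_le one_pos hK
  obtain ⟨δ, hδ, h2⟩ := hPtm K (ε / 4) hK (by positivity)
  obtain ⟨CG, hCG, hg⟩ := hGuc d hd
  have hCG0 : 0 < CG := lt_of_lt_of_le one_pos hCG
  obtain ⟨w₀, P, hw0, hw1, hP, h3⟩ := h1 (min (min δ (1 / 2)) (ε / 4)) (by positivity)
  obtain ⟨η₀, hη0, hη1, h4⟩ := hTrm d (ε / 12) (by omega) (by positivity)
  obtain ⟨s₀, hs₀⟩ : ∃ s₀ : ℝ, s₀ = min (min (1 / 16) w₀) (min (min (η₀ / 2)
    ((ε / (4 * CG)) ^ (4 : ℕ) / K)) (min (K ^ (-500 : ℝ)) (1 / (2 * K)))) := ⟨_, rfl⟩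
  have hs0 : 0 < s₀ := by rw [hs₀]; positivity
  have hs16 : s₀ ≤ 1 / 16 := by rw [hs₀]; exact (min_le_left _ _).trans (min_le_left _ _)
  have hs1 : s₀ ≤ 1 := by linarith only [hs0, hs16]
  have hs2 : s₀ ≤ w₀ := by rw [hs₀]; exact (min_le_left _ _).trans (min_le_right _ _)
  have hs3 : s₀ ≤ η₀ / 2 := by
    rw [hs₀]; exact (min_le_right _ _).trans ((min_le_left _ _).trans (min_le_left _ _))
  have hs6 : s₀ ≤ (ε / (4 * CG)) ^ (4 : ℕ) / K := by
    rw [hs₀]; exact (min_le_right _ _).trans ((min_le_left _ _).trans (min_le_right _ _))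
  have hs4 : s₀ ≤ K ^ (-500 : ℝ) := by
    rw [hs₀]; exact (min_le_right _ _).trans ((min_le_right _ _).trans (min_le_left _ _))
  have hs5 : s₀ ≤ 1 / (2 * K) := by
    rw [hs₀]; exact (min_le_right _ _).trans ((min_le_right _ _).trans (min_le_right _ _))
  refine ⟨s₀, 2 * P + 2, 2 * K, hs0, hs1, by linarith only [hP, hs0, hs16], by linarith only [hK, hs0, hs16], ?_⟩
  intro σ E T hσ hσs hE hT
  obtain ⟨s, hs⟩ : ∃ s : ℝ, s = |σ| := ⟨_, rfl⟩
  rw [← hs] at hσs hT ⊢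
  have hsp : 0 < s := by rw [hs]; exact abs_pos.2 hσ
  have hsle1 : s ≤ 1 := hσs.trans hs1
  have hT16 : 16 ≤ T := by
    refine le_trans ?_ hT
    have e1 : s⁻¹ ≤ s ^ (-(2 * P + 2)) := by
      rw [← Real.rpow_neg_one]
      exact Real.rpow_le_rpow_of_exponent_ge hsp hsle1 (by linarith only [hP, hs0, hs16])
    refine le_trans ?_ e1
    rw [le_inv_comm₀ (by norm_num) hsp]
    have := hσs.trans hs16
    linarith only [hs16, hσs]
  have hTp : 1 ≤ T := by linarith only [hs0, hs16, hT16]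
  have hT0 : 0 < T := by linarith only [hs0, hs16, hT16]
  have hη : 0 < 1 / T := by positivity
  have hηs : 1 / T ≤ s ^ (2 * P + 2) := by
    rw [div_le_iff₀ hT0]
    have e1 : s ^ (2 * P + 2) * s ^ (-(2 * P + 2)) = 1 := by
      rw [← Real.rpow_add hsp, add_neg_cancel, Real.rpow_zero]
    rw [← e1]
    gcongr
  obtain ⟨w, hw⟩ : ∃ w : ℝ≥0, (w : ℝ) = σ ^ 2 := ⟨⟨σ ^ 2, sq_nonneg σ⟩, rfl⟩
  have hws : (w : ℝ) = s ^ 2 := by rw [hw, hs, sq_abs]
  have hws' : (w : ℝ) = s ^ (2 : ℝ) := by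
    rw [hws, ← Real.rpow_natCast]
    norm_num
  have hwp : (0 : ℝ) < w := by rw [hws]; positivity
  have hwsle : (w : ℝ) ≤ s := by
    rw [hws]
    have : s ^ 2 ≤ s * 1 := by rw [pow_two]; gcongr
    linarith only [this]
  have hww : (w : ℝ) ≤ w₀ := by linarith only [hs2, hσs, hwsle]
  have hηw : 1 / T ≤ (w : ℝ) ^ P := by
    rw [hws', ← Real.rpow_mul hsp.le]
    refine hηs.trans ?_
    exact Real.rpow_le_rpow_of_exponent_ge hsp hsle1 (by linarith only [hs0, hs16])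
  have hsqT : Real.sqrt T ^ 2 = T := Real.sq_sqrt hT0.le
  obtain ⟨r, hr⟩ : ∃ r : ℕ, r = ⌊s ^ (1 / 500 - 1 : ℝ) * Real.sqrt T⌋₊ := ⟨_, rfl⟩
  obtain ⟨R, hR⟩ : ∃ R : ℕ, R = ⌊2 * K * s⁻¹ * Real.sqrt T⌋₊ := ⟨_, rfl⟩
  rw [← hr, ← hR]
  have hsi : 1 ≤ s⁻¹ := (one_le_inv₀ hsp).2 hsle1
  have hK2s : 2 * K ≤ s⁻¹ := by
    rw [le_inv_comm₀ (by positivity) hsp]
    have := hσs.trans hs5
    rwa [one_div] at this
  have hrR : r ≤ R := by
    rw [hr, hR]
    apply Nat.floor_le_floor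
    gcongr ?_ * _
    have e1 : s ^ (1 / 500 - 1 : ℝ) ≤ s ^ (-1 : ℝ) :=
      Real.rpow_le_rpow_of_exponent_ge hsp hsle1 (by norm_num)
    rw [Real.rpow_neg_one] at e1
    have e2 : 1 * s⁻¹ ≤ 2 * K * s⁻¹ := mul_le_mul_of_nonneg_right (by linarith only [hK, hs0, hs16]) (by positivity)
    rw [one_mul] at e2
    exact e1.trans e2
  have hr1 : (r : ℝ) ≤ s ^ (1 / 500 - 1 : ℝ) * Real.sqrt T := by
    rw [hr]; exact Nat.floor_le (by positivity)
  have hR1 : (R : ℝ) ≤ 2 * K * s⁻¹ * Real.sqrt T := by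
    rw [hR]; exact Nat.floor_le (by positivity)
  have hsq1 : 1 ≤ Real.sqrt T := by rw [Real.one_le_sqrt]; exact hTp
  have hy1 : 1 ≤ 2 * K * s⁻¹ * Real.sqrt T := by
    exact aux_one (aux_one (by linarith only [hK, hs0, hs16]) hsi) hsq1
  have hR2 : K * s⁻¹ * Real.sqrt T ≤ (R : ℝ) := by
    have e1 := Nat.lt_floor_add_one (2 * K * s⁻¹ * Real.sqrt T)
    rw [← hR] at e1
    have e2 : (1 : ℝ) ≤ R := by
      have : 1 ≤ R := by rw [hR]; exact Nat.le_floor (by simpa using hy1)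
      exact_mod_cast this
    have e3 : 2 * K * s⁻¹ * Real.sqrt T = 2 * (K * s⁻¹ * Real.sqrt T) := by ring
    rw [e3] at e1
    linarith only [e1, e2]
  have hK500 : K * s ^ (1 / 500 : ℝ) ≤ 1 := by
    have e1 : s ^ (1 / 500 : ℝ) ≤ (K ^ (-500 : ℝ)) ^ (1 / 500 : ℝ) :=
      Real.rpow_le_rpow hsp.le (hσs.trans hs4) (by norm_num)
    rw [← Real.rpow_mul hK0.le] at e1
    norm_num at e1
    rw [Real.rpow_neg_one] at e1
    calc K * s ^ (1 / 500 : ℝ) ≤ K * K⁻¹ := by gcongr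
      _ = 1 := mul_inv_cancel₀ hK0.ne'
  have hcond1 : K * (1 / T) * (r : ℝ) ^ 2 ≤ (w : ℝ) ^ (1 / 1000 - 1 : ℝ) := by
    have e1 : (r : ℝ) ^ 2 ≤ (s ^ (1 / 500 - 1 : ℝ)) ^ 2 * T := by
      calc (r : ℝ) ^ 2 ≤ (s ^ (1 / 500 - 1 : ℝ) * Real.sqrt T) ^ 2 := by gcongr
        _ = (s ^ (1 / 500 - 1 : ℝ)) ^ 2 * T := by rw [mul_pow, hsqT]
    have e2 : (s ^ (1 / 500 - 1 : ℝ)) ^ 2 = s ^ (1 / 500 : ℝ) * s ^ (1 / 500 - 2 : ℝ) := by
      rw [← Real.rpow_natCast, ← Real.rpow_mul hsp.le, ← Real.rpow_add hsp]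
      norm_num
    have e3 : (w : ℝ) ^ (1 / 1000 - 1 : ℝ) = s ^ (1 / 500 - 2 : ℝ) := by
      rw [hws', ← Real.rpow_mul hsp.le]
      norm_num
    rw [e3]
    calc K * (1 / T) * (r : ℝ) ^ 2 ≤ K * (1 / T) * ((s ^ (1 / 500 - 1 : ℝ)) ^ 2 * T) := by gcongr
      _ = K * s ^ (1 / 500 : ℝ) * s ^ (1 / 500 - 2 : ℝ) := by
          rw [e2]
          field_simp
      _ ≤ 1 * s ^ (1 / 500 - 2 : ℝ) := by gcongr
      _ = s ^ (1 / 500 - 2 : ℝ) := one_mul _
  have hcond2 : K ≤ w * (1 / T) * (R : ℝ) ^ 2 := by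
    have e1 : K ^ 2 * (s⁻¹) ^ 2 * T ≤ (R : ℝ) ^ 2 := by
      calc K ^ 2 * (s⁻¹) ^ 2 * T = (K * s⁻¹ * Real.sqrt T) ^ 2 := by
            rw [mul_pow, mul_pow, hsqT]
        _ ≤ (R : ℝ) ^ 2 := by gcongr
    calc K ≤ K ^ 2 := aux_sq hK
      _ = w * (1 / T) * (K ^ 2 * (s⁻¹) ^ 2 * T) := by
          rw [hws]
          field_simp
      _ ≤ w * (1 / T) * (R : ℝ) ^ 2 := by gcongr
  have hRT : (R : ℝ) ≤ T ^ 2 := by
    have e0 : s ^ (-(2 : ℝ)) ≤ T := by
      refine le_trans ?_ hT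
      exact Real.rpow_le_rpow_of_exponent_ge hsp hsle1 (by linarith only [hP, hs0, hs16])
    have e1 : s ^ (-(2 : ℝ)) = s⁻¹ * s⁻¹ := by
      rw [Real.rpow_neg hsp.le, Real.rpow_two]
      field_simp
    have e2 : 2 * K * s⁻¹ ≤ T := by
      refine le_trans ?_ e0
      rw [e1]
      exact mul_le_mul_of_nonneg_right hK2s (by positivity)
    have e3 : Real.sqrt T ≤ T := by
      rw [Real.sqrt_le_left hT0.le]
      exact aux_sq hTp
    calc (R : ℝ) ≤ 2 * K * s⁻¹ * Real.sqrt T := hR1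
      _ ≤ T * T := by gcongr
      _ = T ^ 2 := by ring
  have hcond3 : (R : ℝ) ≤ 1 / (1 / T) ^ 2 := by
    have e1 : 1 / (1 / T) ^ 2 = T ^ 2 := by field_simp
    rw [e1]
    exact hRT
  obtain ⟨m, μ, η', hm1, hm2, hm3, hη', hηη, hM, hint⟩ := h3 w E (1 / T) r R
    (by exact_mod_cast hwp) hww hE hη hηw hcond1 hcond2 hcond3
  have hδa : min (min δ (1 / 2)) (ε / 4) ≤ δ := (min_le_left _ _).trans (min_le_left _ _)
  have hδb : min (min δ (1 / 2)) (ε / 4) ≤ 1 / 2 := (min_le_left _ _).trans (min_le_right _ _)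
  have hδc : min (min δ (1 / 2)) (ε / 4) ≤ ε / 4 := min_le_right _ _
  have hη'2 : η' ≤ 2 * (1 / T) := by
    have e1 := (abs_le.1 hηη).1
    have e2 : min (min δ (1 / 2)) (ε / 4) * η' ≤ 1 / 2 * η' := by gcongr
    linarith only [e1, e2]
  have hTs : 1 / T ≤ s := by
    refine hηs.trans ?_
    calc s ^ (2 * P + 2) ≤ s ^ (1 : ℝ) :=
          Real.rpow_le_rpow_of_exponent_ge hsp hsle1 (by linarith only [hP, hs0, hs16])
      _ = s := Real.rpow_one s
  have hη'm : η' ≤ η₀ := by linarith only [hs3, hσs, hη'2, hTs]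
  have hη'5 : η' ≤ 1 := hη'm.trans hη1
  have hM4 : 1 / η' ^ 4 ≤ (2 : ℝ) ^ μ := by
    have e1 : η' ^ (-4 : ℝ) = 1 / η' ^ 4 := by
      rw [Real.rpow_neg hη'.le, one_div]
      congr 1
      rw [← Real.rpow_natCast]
      norm_num
    rwa [e1] at hM
  have hM3 : η' ^ (-3 : ℝ) ≤ ((2 ^ μ : ℕ) : ℝ) := by
    push_cast
    refine le_trans ?_ hM
    exact Real.rpow_le_rpow_of_exponent_ge hη' hη'5 (by norm_num)
  have hMR : 8 * (R + 1) ≤ 2 ^ μ := by
    have e1 : T ^ 4 / 16 ≤ (2 : ℝ) ^ μ := by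
      refine le_trans ?_ hM4
      rw [le_div_iff₀ (by positivity)]
      have e2 : η' ^ 4 ≤ (2 * (1 / T)) ^ 4 := by gcongr
      calc T ^ 4 / 16 * η' ^ 4 ≤ T ^ 4 / 16 * (2 * (1 / T)) ^ 4 := by gcongr
        _ = 1 := by
            field_simp
            norm_num
    have e3 : (8 * ((R : ℝ) + 1)) ≤ (2 : ℝ) ^ μ := (aux16 hT16 hRT).trans e1
    exact_mod_cast e3
  have h6 := h4 (2 ^ μ) σ E η' m w r R hσ hw hη' hη'm hM3 hMR hrR
  have hmm : ‖m - g0 d (zz (1 / T) E)‖ ≤ ε / 2 := by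
    have hzi : 0 < (zz (1 / T) E).im := by
      have : (zz (1 / T) E).im = 1 / T := by simp [zz]
      rw [this]
      exact hη
    have hzi' : 0 < (zz (1 / T) E + ((w : ℝ) : ℂ) * m).im := by
      rw [Complex.add_im, Complex.im_ofReal_mul]
      have : 0 < (w : ℝ) * m.im := mul_pos hwp hm2
      linarith only [hzi, this]
    have e1 := (hg (zz (1 / T) E + ((w : ℝ) : ℂ) * m) (zz (1 / T) E) hzi' hzi).2
    have e2 : ‖zz (1 / T) E + ((w : ℝ) : ℂ) * m - zz (1 / T) E‖ = (w : ℝ) * ‖m‖ := by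
      rw [add_sub_cancel_left, norm_mul, Complex.norm_real, Real.norm_of_nonneg hwp.le]
    rw [e2] at e1
    have e3 : (w : ℝ) * ‖m‖ ≤ (ε / (4 * CG)) ^ (4 : ℕ) := by
      have e4 : (w : ℝ) ≤ (ε / (4 * CG)) ^ (4 : ℕ) / K := hwsle.trans (hσs.trans hs6)
      calc (w : ℝ) * ‖m‖ ≤ (ε / (4 * CG)) ^ (4 : ℕ) / K * K := by gcongr
        _ = (ε / (4 * CG)) ^ (4 : ℕ) := by field_simp
    have e5 : ((w : ℝ) * ‖m‖) ^ (1 / 4 : ℝ) ≤ ε / (4 * CG) := by
      calc ((w : ℝ) * ‖m‖) ^ (1 / 4 : ℝ) ≤ ((ε / (4 * CG)) ^ (4 : ℕ)) ^ (1 / 4 : ℝ) := by gcongr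
        _ = ε / (4 * CG) := by
            rw [← Real.rpow_natCast, ← Real.rpow_mul (by positivity)]
            norm_num
    have e6 : CG * ((w : ℝ) * ‖m‖) ^ (1 / 4 : ℝ) ≤ ε / 4 := by
      calc CG * ((w : ℝ) * ‖m‖) ^ (1 / 4 : ℝ) ≤ CG * (ε / (4 * CG)) := by gcongr
        _ = ε / 4 := by field_simp
    have e7 := norm_add_le (m - g0 d (zz (1 / T) E + ((w : ℝ) : ℂ) * m))
      (g0 d (zz (1 / T) E + ((w : ℝ) : ℂ) * m) - g0 d (zz (1 / T) E))
    rw [sub_add_sub_cancel] at e7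
    linarith only [hm3, hδc, e1, e6, e7]
  have hsub : {V : Site d → ℝ | BadZM V E (1 / T) (g0 d (zz (1 / T) E)) ε r R} ⊆
      {V : Site d → ℝ | BadZM V E η' m (3 * (ε / 12)) r R} := by
    intro V hV
    have b1 := badZM_ref hε hmm hV
    have b2 : 2 * (ε / 4) = ε / 2 := by ring
    have b3 : 3 * (ε / 12) = ε / 4 := by ring
    have b4 := h2 d V E (1 / T) η' m r R hm1 hη hη' (hηη.trans (by gcongr)) (by rw [b2]; exact b1)
    change BadZM V E η' m (3 * (ε / 12)) r R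
    rw [b3]
    exact b4
  refine (measure_mono hsub).trans (h6.trans ?_)
  push_cast
  exact hint

end Pool.Agent.QDA.H76
end
end -- Pool.Agent.Helper76_QDA.Qkm

section -- Pool.Agent.Helper79_QDA.Qam

/-!
# QDA, row QAM: all times from the two ranges
-/

set_option autoImplicit false

open MeasureTheory ProbabilityTheory Function Filter

open scoped BigOperators NNReal ENNReal Topology

noncomputable section

namespace Pool.Agent.QDA.H79

/-- the two ranges overlap -/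
theorem overlap (P θ : ℝ) (hθ : 0 < θ) : ∃ s₁ : ℝ, 0 < s₁ ∧ ∀ s : ℝ, 0 < s → s ≤ s₁ →
    s ^ (-P) ≤ Real.exp (s ^ (-θ)) := by
  have h := tendsto_rpow_mul_exp_neg_mul_atTop_nhds_zero (P / θ) 1 one_pos
  have h1 := (tendsto_order.1 h).2 1 one_pos
  obtain ⟨Y, hY⟩ := eventually_atTop.1 h1
  obtain ⟨Z, hZ⟩ : ∃ Z : ℝ, Z = max Y 1 := ⟨_, rfl⟩
  have hZ1 : 0 < Z := by rw [hZ]; exact lt_of_lt_of_le one_pos (le_max_right _ _)
  refine ⟨Z ^ (-(1 / θ)), by positivity, ?_⟩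
  intro s hs hs1
  have h2 : Z ≤ s ^ (-θ) := by
    have e1 : (Z ^ (-(1 / θ))) ^ (-θ) ≤ s ^ (-θ) :=
      Real.rpow_le_rpow_of_nonpos hs hs1 (by linarith)
    rw [← Real.rpow_mul hZ1.le] at e1
    have e2 : -(1 / θ) * -θ = 1 := by field_simp
    rwa [e2, Real.rpow_one] at e1
  have h3 := hY (s ^ (-θ)) ((le_max_left Y 1).trans (by rw [← hZ]; exact h2))
  have h4 : (s ^ (-θ)) ^ (P / θ) = s ^ (-P) := by
    rw [← Real.rpow_mul hs.le]
    congr 1
    field_simp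
  rw [h4] at h3
  have h5 : s ^ (-P) * Real.exp (-1 * s ^ (-θ)) * Real.exp (s ^ (-θ)) = s ^ (-P) := by
    rw [mul_assoc, ← Real.exp_add]
    simp
  calc s ^ (-P) = s ^ (-P) * Real.exp (-1 * s ^ (-θ)) * Real.exp (s ^ (-θ)) := h5.symm
    _ ≤ 1 * Real.exp (s ^ (-θ)) := by
        have := h3.le
        gcongr
    _ = Real.exp (s ^ (-θ)) := one_mul _

/-- QAM: ALL TIMES, RESOLVED IN ENERGY -/
theorem qam (hz : QzmStmt) (hl : QlmStmt) : QamStmt := by
  intro d a ε hd ha hε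
  obtain ⟨s₁, P, hs1, hs1', hP, h1⟩ := hz d a ε hd ha hε
  obtain ⟨s₂, θ, hs2, hs2', hθ, h2⟩ := hl d a ε hd ha hε
  obtain ⟨s₃, hs3, h3⟩ := overlap P θ hθ
  refine ⟨min s₁ (min s₂ s₃), by positivity, (min_le_left _ _).trans hs1', ?_⟩
  intro σ E T hσ hσs hE hT
  have a1 : |σ| ≤ s₁ := hσs.trans (min_le_left _ _)
  have a2 : |σ| ≤ s₂ := hσs.trans ((min_le_right _ _).trans (min_le_left _ _))
  have a3 : |σ| ≤ s₃ := hσs.trans ((min_le_right _ _).trans (min_le_right _ _))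
  by_cases h : T ≤ Real.exp (|σ| ^ (-θ))
  · exact h2 σ E T hσ a2 hE hT h
  · exact h1 σ E T hσ a1 hE ((h3 |σ| (abs_pos.2 hσ) a3).trans (not_le.1 h).le)

end Pool.Agent.QDA.H79
end
end -- Pool.Agent.Helper79_QDA.Qam

section -- Pool.Agent.Helper76_QDA.Fin

/-!
# QDA, row HND: the two forms of the outer radius
-/

set_option autoImplicit false

open MeasureTheory ProbabilityTheory Function Filter

open scoped BigOperators NNReal ENNReal Matrix InnerProductSpace Topology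

noncomputable section

namespace Pool.Agent.QDA.H76

open Pool.Agent.Anderson hiding box mem_box card_box
open Pool.Agent.Loc Pool.Agent.Mob Pool.Agent.Helper54.Bal
  Pool.Agent.Helper96.EXP Pool.Agent.BED

/-- the condition on the outer radius -/
def Rad (P K σ T R : ℝ) : Prop :=
  |σ| ^ (-(101 / 100) : ℝ) * Real.sqrt T ≤ R ∨ |σ| ^ (-P) ≤ T ∧ K * |σ|⁻¹ * Real.sqrt T ≤ R

theorem Rad.mono {P P' K K' σ T R : ℝ} (hσ : σ ≠ 0) (hσ1 : |σ| ≤ 1) (hP : P' ≤ P) (hK : K' ≤ K)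
    (h : Rad P K σ T R) : Rad P' K' σ T R := by
  rcases h with h | ⟨h1, h2⟩
  · exact Or.inl h
  · refine Or.inr ⟨?_, ?_⟩
    · exact (Real.rpow_le_rpow_of_exponent_ge (abs_pos.2 hσ) hσ1 (by linarith only [hP])).trans h1
    · refine le_trans ?_ h2
      have h3 : 0 ≤ |σ|⁻¹ * Real.sqrt T := by positivity
      have h4 := mul_le_mul_of_nonneg_right hK h3
      linarith only [mul_assoc K' |σ|⁻¹ (Real.sqrt T), mul_assoc K |σ|⁻¹ (Real.sqrt T), h4]

/-- the sites which are near or far, real radii -/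
def outR (d : ℕ) (r R : ℝ) : Set (Site d) := {x | ‖x‖ ≤ r ∨ R ≤ ‖x‖}

theorem outR_sub (d : ℕ) {s T R R' : ℝ} (hs : 0 < s) (hs1 : s ≤ 1)
    (hs2 : 2 ≤ s ^ (-(1 / 125) : ℝ)) (hT : s ^ (-3 : ℝ) ≤ T) (hR0 : 0 ≤ R') (hR : R' ≤ R) :
    outR d (s ^ (-(99 / 100) : ℝ) * Real.sqrt T) R ⊆
      nf d ⌊s ^ (1 / 500 - 1 : ℝ) * Real.sqrt T⌋₊ ⌊R'⌋₊ := by
  intro x hx
  rcases hx with hx | hx
  · left
    by_cases h : x ∈ nf d ⌊s ^ (1 / 500 - 1 : ℝ) * Real.sqrt T⌋₊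
        (max ⌊s ^ (-(1 / 500) - 1 : ℝ) * Real.sqrt T⌋₊ (sd 0 x + 1))
    · rcases h with h | h
      · exact h
      · exact absurd ((le_max_right _ _).trans h) (by omega)
    · exfalso
      apply h
      have h1 := nf_of (d := d) hs hs1 hs2 hT (x := x) (Or.inl (by rw [sd_norm]; exact hx))
      rcases h1 with h1 | h1
      · exact Or.inl h1
      · exfalso
        have h2 : s ^ (-(1 / 500) - 1 : ℝ) * Real.sqrt T < (sd 0 x : ℝ) + 1 := by
          have h3 := Nat.lt_floor_add_one (s ^ (-(1 / 500) - 1 : ℝ) * Real.sqrt T)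
          have h4 : ((⌊s ^ (-(1 / 500) - 1 : ℝ) * Real.sqrt T⌋₊ : ℕ) : ℝ) ≤ sd 0 x := by
            exact_mod_cast h1
          linarith only [h3, h4]
        have h5 : s ^ (-(99 / 100) : ℝ) * Real.sqrt T + 1 ≤
            s ^ (-(1 / 500) - 1 : ℝ) * Real.sqrt T := by
          have e1 : s ^ (-(1 / 500) - 1 : ℝ) = s ^ (-(99 / 100) : ℝ) * s ^ (-(3 / 250) : ℝ) := by
            rw [← Real.rpow_add hs]
            norm_num
          have e2 : s ^ (-(1 / 125) : ℝ) ≤ s ^ (-(3 / 250) : ℝ) :=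
            Real.rpow_le_rpow_of_exponent_ge hs hs1 (by norm_num)
          have e3 : 1 ≤ s ^ (-(99 / 100) : ℝ) :=
            Real.one_le_rpow_of_pos_of_le_one_of_nonpos hs hs1 (by norm_num)
          have e4 : 1 ≤ T := (Real.one_le_rpow_of_pos_of_le_one_of_nonpos hs hs1
            (by norm_num : (-3 : ℝ) ≤ 0)).trans hT
          have e5 : 1 ≤ Real.sqrt T := Real.one_le_sqrt.2 e4
          have e6 : 1 ≤ s ^ (-(99 / 100) : ℝ) * Real.sqrt T := aux_one e3 e5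
          have e7 : 2 * (s ^ (-(99 / 100) : ℝ) * Real.sqrt T) ≤
              s ^ (-(3 / 250) : ℝ) * (s ^ (-(99 / 100) : ℝ) * Real.sqrt T) :=
            mul_le_mul_of_nonneg_right (hs2.trans e2) (by linarith only [e6])
          rw [e1]
          have e8 : s ^ (-(99 / 100) : ℝ) * s ^ (-(3 / 250) : ℝ) * Real.sqrt T =
              s ^ (-(3 / 250) : ℝ) * (s ^ (-(99 / 100) : ℝ) * Real.sqrt T) := by ring
          rw [e8]
          linarith only [e6, e7]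
        have h6 : (sd 0 x : ℝ) ≤ s ^ (-(99 / 100) : ℝ) * Real.sqrt T := by
          rw [sd_norm]; exact hx
        linarith only [h2, h5, h6]
  · right
    have h1 : ((⌊R'⌋₊ : ℕ) : ℝ) ≤ sd 0 x := by
      rw [sd_norm]
      exact (Nat.floor_le hR0).trans (hR.trans hx)
    exact_mod_cast h1

/-- both forms of the outer radius -/
theorem fin (hQ : QamStmt) (hK : QkmStmt) (d : ℕ) (a ε : ℝ) (hd : 3 ≤ d) (ha : 0 < a)
    (hε : 0 < ε) :
    ∃ s P K : ℝ, 0 < s ∧ s ≤ 1 ∧ 1 ≤ P ∧ 1 ≤ K ∧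
      ∀ σ T R : ℝ, σ ≠ 0 → |σ| ≤ s → |σ| ^ (-3 : ℝ) ≤ T → Rad P K σ T R →
        ∃ r' R' : ℕ, outR d (|σ| ^ (-(99 / 100) : ℝ) * Real.sqrt T) R ⊆ nf d r' R' ∧
          ∀ E : ℝ, |E| ≤ 2 * d - a →
            PP d (gl σ) {V | BadZM V E (1 / T) (g0 d (zz (1 / T) E)) ε r' R'} ≤
              ENNReal.ofReal ε := by
  obtain ⟨s₁, hs₁, hs₁1, h1⟩ := hQ d a ε hd ha hε
  obtain ⟨s₂, P, K, hs₂, hs₂1, hP, hK1, h2⟩ := hK d a ε hd ha hε
  obtain ⟨s₃, hs₃, hs₃1, h125⟩ := exists_s125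
  refine ⟨min s₁ (min s₂ s₃), P, K, lt_min hs₁ (lt_min hs₂ hs₃), (min_le_left _ _).trans hs₁1,
    hP, hK1, fun σ T R hσ hσs hT hR => ?_⟩
  have hσ0 : 0 < |σ| := abs_pos.2 hσ
  have hσ1 : |σ| ≤ s₁ := hσs.trans (min_le_left _ _)
  have hσ2 : |σ| ≤ s₂ := hσs.trans ((min_le_right _ _).trans (min_le_left _ _))
  have hσ3 : |σ| ≤ s₃ := hσs.trans ((min_le_right _ _).trans (min_le_right _ _))
  have h11 : |σ| ≤ 1 := hσ1.trans hs₁1
  rcases hR with hR | ⟨hT2, hR⟩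
  · refine ⟨_, _, outR_sub d (R' := |σ| ^ (-(1 / 500) - 1 : ℝ) * Real.sqrt T) hσ0 h11
      (h125 _ hσ0 hσ3) hT (by positivity) ?_, fun E hE => h1 σ E T hσ hσ1 hE hT⟩
    refine le_trans ?_ hR
    exact mul_le_mul_of_nonneg_right
      (Real.rpow_le_rpow_of_exponent_ge hσ0 h11 (by norm_num)) (Real.sqrt_nonneg _)
  · exact ⟨_, _, outR_sub d (R' := K * |σ|⁻¹ * Real.sqrt T) hσ0 h11 (h125 _ hσ0 hσ3) hT
      (by positivity) hR, fun E hE => h2 σ E T hσ hσ2 hE hT2⟩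

/-- the mean over the potential and the times, general form -/
theorem tavG {d : ℕ} (P : Measure (Site d → ℝ)) [IsProbabilityMeasure P] {T ε κ : ℝ} {g : ℝ → ℂ}
    {r R : ℕ} {S : Set (Site d)} (hS : S ⊆ nf d r R) {B : Set ℝ} (hB : MeasurableSet B)
    (hBv : volume B ≤ ENNReal.ofReal (4 * d)) (hT : 0 < T) (hε : 0 ≤ ε) (hκ : 0 ≤ κ)
    (h : ∀ E ∈ B, P {V | BadZM V E (1 / T) (g E) ε r R} ≤ ENNReal.ofReal ε)
    (hg : ENNReal.ofReal (Real.pi - κ) ≤ ∫⁻ E in B, ENNReal.ofReal ((g E).im)) :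
    ∫⁻ V, (∫⁻ t in Set.Ioc (0 : ℝ) T, ∑' x : Site d, S.indicator
        (fun x => ENNReal.ofReal (‖evol V t x‖ ^ 2)) x) ∂P ≤
      ENNReal.ofReal (2 * T * (κ + (12 * d + 4) * ε)) := by
  have hη : 0 < 1 / T := by positivity
  have hsum := sumE (d := d) P hB hBv hη hε hκ h hg
  have hsum' : ∫⁻ V, (∫⁻ E : ℝ, mm (nf d r R) (1 / T) V E) ∂P ≤
      ENNReal.ofReal (κ + (12 * d + 4) * ε) := by
    rw [lintegral_lintegral_swap (f := fun (E : ℝ) (V : Site d → ℝ) => mm (nf d r R) (1 / T) V E)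
      (meas_mm (nf d r R) hη).aemeasurable] at hsum
    exact hsum
  calc ∫⁻ V, (∫⁻ t in Set.Ioc (0 : ℝ) T, ∑' x : Site d, S.indicator
        (fun x => ENNReal.ofReal (‖evol V t x‖ ^ 2)) x) ∂P
      ≤ ∫⁻ V, ENNReal.ofReal (2 * T) * (∫⁻ E : ℝ, mm (nf d r R) (1 / T) V E) ∂P := by
        refine lintegral_mono fun V => ?_
        refine (avg_le S (isEvolution_evol V) hT).trans ?_
        exact mul_le_mul' le_rfl (lintegral_mono fun E => mm_mono hS _ _ _)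
    _ = ENNReal.ofReal (2 * T) * ∫⁻ V, (∫⁻ E : ℝ, mm (nf d r R) (1 / T) V E) ∂P :=
        lintegral_const_mul' _ _ ENNReal.ofReal_ne_top
    _ ≤ ENNReal.ofReal (2 * T) * ENNReal.ofReal (κ + (12 * d + 4) * ε) := mul_le_mul' le_rfl hsum'
    _ = ENNReal.ofReal (2 * T * (κ + (12 * d + 4) * ε)) :=
        (ENNReal.ofReal_mul (by positivity)).symm

/-- the event form for the time evolution -/
theorem tevG (hQ : QamStmt) (hK : QkmStmt) (hF : FreStmt) (d : ℕ) (ε : ℝ) (hd : 3 ≤ d)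
    (hε : 0 < ε) :
    ∃ s P K : ℝ, 0 < s ∧ s ≤ 1 ∧ 1 ≤ P ∧ 1 ≤ K ∧
      ∀ σ T R : ℝ, σ ≠ 0 → |σ| ≤ s → |σ| ^ (-3 : ℝ) ≤ T → Rad P K σ T R →
      PP d (gl σ) {V | ENNReal.ofReal (ε * T) < ∫⁻ t in Set.Ioc (0 : ℝ) T, ∑' x : Site d,
        (outR d (|σ| ^ (-(99 / 100) : ℝ) * Real.sqrt T) R).indicator
          (fun x => ENNReal.ofReal (‖evol V t x‖ ^ 2)) x} ≤ ENNReal.ofReal ε := by
  have hd0 : (0 : ℝ) ≤ d := Nat.cast_nonneg d
  obtain ⟨a, y₀, ha, ha1, hy₀, hfre⟩ := hF d (ε * ε / 4) hd (by positivity)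
  obtain ⟨ε', hε'0, hε'1⟩ : ∃ ε' : ℝ, 0 < ε' ∧ (12 * d + 4) * ε' = ε * ε / 4 := by
    refine ⟨ε * ε / (4 * (12 * d + 4)), by positivity, ?_⟩
    field_simp
  obtain ⟨s₂, P, K, hs₂, hs₂1, hP, hK1, hq⟩ := fin hQ hK d a ε' hd ha hε'0
  refine ⟨min s₂ y₀, P, K, lt_min hs₂ hy₀, (min_le_left _ _).trans hs₂1, hP, hK1,
    fun σ T R hσ hσs hT hR => ?_⟩
  have hs : 0 < |σ| := abs_pos.2 hσ
  have hσ2 : |σ| ≤ s₂ := hσs.trans (min_le_left _ _)
  have hσ3 : |σ| ≤ y₀ := hσs.trans (min_le_right _ _)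
  have hσ11 : |σ| ≤ 1 := hσ2.trans hs₂1
  have hT0 : 0 < T := lt_of_lt_of_le (Real.rpow_pos_of_pos hs _) hT
  have hη : 0 < 1 / T := by positivity
  have hT2 : 1 / T ≤ y₀ := by
    have h1 : |σ| ^ (-1 : ℝ) ≤ T :=
      (Real.rpow_le_rpow_of_exponent_ge hs hσ11 (by norm_num)).trans hT
    rw [Real.rpow_neg_one] at h1
    have h2 : 1 / T ≤ |σ| := by
      rw [one_div]
      exact inv_le_of_inv_le₀ hs h1
    exact h2.trans hσ3
  have hB : volume (Set.Icc (-(2 * (d : ℝ) - a)) (2 * d - a)) ≤ ENNReal.ofReal (4 * d) := by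
    rw [Real.volume_Icc]
    exact ENNReal.ofReal_le_ofReal (by linarith only [ha])
  obtain ⟨r', R', hsub, hbad⟩ := hq σ T R hσ hσ2 hT hR
  have h := tavG (d := d) (PP d (gl σ)) (T := T) (ε := ε') (κ := ε * ε / 4)
    (g := fun E => g0 d (zz (1 / T) E)) hsub measurableSet_Icc hB hT0 hε'0.le
    (by positivity) (fun E hE => hbad E (abs_le.2 hE)) (hfre (1 / T) hη hT2)
  rw [hε'1] at h
  have h3 := mul_meas_ge_le_lintegral₀ (μ := PP d (gl σ))
    (meas_avg (outR d (|σ| ^ (-(99 / 100) : ℝ) * Real.sqrt T) R) T).aemeasurable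
    (ENNReal.ofReal (ε * T))
  have h4 := h3.trans h
  have h5 : ENNReal.ofReal (2 * T * (ε * ε / 4 + ε * ε / 4)) =
      ENNReal.ofReal (ε * T) * ENNReal.ofReal ε := by
    rw [← ENNReal.ofReal_mul (by positivity)]
    congr 1
    ring
  rw [h5] at h4
  have h6 := (ENNReal.mul_le_mul_iff_right (a := ENNReal.ofReal (ε * T))
    (ENNReal.ofReal_pos.2 (by positivity)).ne' ENNReal.ofReal_ne_top).1 h4
  refine le_trans (measure_mono ?_) h6
  intro V hV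
  rw [Set.mem_ofPred_eq] at hV ⊢
  exact hV.le

end Pool.Agent.QDA.H76
end
end -- Pool.Agent.Helper76_QDA.Fin
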