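import Pool.Agent.Helper12_MEB.B088
import Pool.Agent.Helper12_MEB.B089
import Pool.Agent.Helper12_MEB.B090
import Pool.Agent.Helper12_MEB.B091
import Pool.Agent.Helper12_MEB.B097
import Pool.Agent.Helper12_MEB.B099
import Pool.Agent.Helper12_MEB.B101
import Pool.Agent.Helper12_MEB.B111
import Pool.Agent.Helper12_MEB.B119
import Pool.Agent.Helper12_MEB.B120
import Pool.Agent.Helper12_MEB.B130
import Pool.Agent.Helper12_MEB.B141
import Pool.Agent.Helper12_MEB.B146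
import Pool.Agent.Helper12_MEB.B152

/-!
# Merged copies (generated) of the modules

* `Pool.Agent.Helper27_LQF.YTJ`
* `Pool.Agent.Helper13_LQX.QXF`
* `Pool.Agent.Helper34_LQF.INW`
* `Pool.Agent.Helper91_LQX.EGA`
* `Pool.Agent.Helper94_LQF.BQB`
* `Pool.Agent.Helper54_LQX.All`
* `Pool.Agent.Helper89_QDA.Stm`
* `Pool.Agent.Helper24_QDA.Guc`
-/

set_option autoImplicit false

section -- Pool.Agent.Helper27_LQF.YTJ

/-! Squad LE, table lqf, row YTJ. -/

set_option autoImplicit false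

open MeasureTheory ProbabilityTheory Function Filter

open scoped ENNReal BigOperators Topology NNReal ComplexOrder Matrix

noncomputable section

namespace Pool.Agent.LE.QF.H27

open Pool.Agent.LE.QF Pool.Agent.LE.QD

section Mat

variable {n : Type} [Fintype n] [DecidableEq n]

/-- the Hermitian dilation -/
def dil (v : Matrix n n ℂ) : Matrix (n ⊕ n) (n ⊕ n) ℂ := Matrix.fromBlocks 0 v vᴴ 0

omit [Fintype n] [DecidableEq n] in
theorem dil_herm (v : Matrix n n ℂ) : (dil v).IsHermitian := by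
  unfold Matrix.IsHermitian dil
  rw [Matrix.fromBlocks_conjTranspose]
  simp

omit [DecidableEq n] in
theorem dil_mul (v l : Matrix n n ℂ) :
    dil v * dil l = Matrix.fromBlocks (v * lᴴ) 0 0 (vᴴ * l) := by
  unfold dil
  rw [Matrix.fromBlocks_multiply]
  simp

theorem dil_pow (v : Matrix n n ℂ) (k : ℕ) : dil v ^ (2 * k) =
    Matrix.fromBlocks ((v * vᴴ) ^ k) 0 0 ((vᴴ * v) ^ k) := by
  induction k with
  | zero => simp [Matrix.fromBlocks_one]
  | succ k ih =>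
    rw [Nat.mul_succ, pow_add, ih, pow_two, dil_mul, Matrix.fromBlocks_multiply, pow_succ, pow_succ]
    simp

omit [DecidableEq n] in
theorem tr_blocks (A D : Matrix n n ℂ) :
    Matrix.trace (Matrix.fromBlocks A 0 0 D) = A.trace + D.trace := by
  simp [Matrix.trace, Fintype.sum_sum_type]

theorem pow_swap (v : Matrix n n ℂ) (k : ℕ) : (vᴴ * v) ^ k * vᴴ = vᴴ * (v * vᴴ) ^ k := by
  induction k with
  | zero => simp
  | succ k ih =>
    calc (vᴴ * v) ^ (k + 1) * vᴴ = ((vᴴ * v) ^ k * vᴴ) * (v * vᴴ) := by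
          rw [pow_succ]
          simp only [Matrix.mul_assoc]
      _ = vᴴ * (v * vᴴ) ^ (k + 1) := by
          rw [ih, pow_succ]
          simp only [Matrix.mul_assoc]

theorem tr_swap (v : Matrix n n ℂ) (k : ℕ) :
    Matrix.trace ((vᴴ * v) ^ k) = Matrix.trace ((v * vᴴ) ^ k) := by
  cases k with
  | zero => simp
  | succ k =>
    rw [pow_succ, ← Matrix.mul_assoc, pow_swap, Matrix.mul_assoc, Matrix.trace_mul_comm,
      Matrix.mul_assoc, ← pow_succ]

theorem tr_dil (v : Matrix n n ℂ) (k : ℕ) :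
    Matrix.trace (dil v ^ (2 * k)) = 2 * Matrix.trace ((v * vᴴ) ^ k) := by
  rw [dil_pow, tr_blocks, tr_swap]
  ring

/-- the linear term -/
theorem tr_lin (v l : Matrix n n ℂ) (k : ℕ) (hk : 1 ≤ k) :
    (Matrix.trace (dil v ^ (2 * k - 1) * dil l)).re =
      2 * (Matrix.trace ((v * vᴴ) ^ (k - 1) * l * vᴴ)).re := by
  obtain ⟨j, rfl⟩ : ∃ j, k = j + 1 := ⟨k - 1, by omega⟩
  have h1 : 2 * (j + 1) - 1 = 2 * j + 1 := by omega
  have h2 : j + 1 - 1 = j := by omega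
  rw [h1, h2, pow_succ, Matrix.mul_assoc, dil_mul, dil_pow, Matrix.fromBlocks_multiply]
  have h3 : Matrix.fromBlocks ((v * vᴴ) ^ j * (v * lᴴ) + 0 * 0)
      ((v * vᴴ) ^ j * 0 + 0 * (vᴴ * l)) (0 * (v * lᴴ) + (vᴴ * v) ^ j * 0)
      (0 * 0 + (vᴴ * v) ^ j * (vᴴ * l)) =
      Matrix.fromBlocks ((v * vᴴ) ^ j * (v * lᴴ)) 0 0 ((vᴴ * v) ^ j * (vᴴ * l)) := by
    simp
  rw [h3, tr_blocks]
  have h4 : Matrix.trace ((vᴴ * v) ^ j * (vᴴ * l)) = Matrix.trace ((v * vᴴ) ^ j * l * vᴴ) := by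
    rw [← Matrix.mul_assoc, pow_swap, Matrix.mul_assoc, Matrix.trace_mul_comm]
  have h5 : Matrix.trace ((v * vᴴ) ^ j * (v * lᴴ)) =
      star (Matrix.trace ((v * vᴴ) ^ j * l * vᴴ)) := by
    rw [← Matrix.trace_conjTranspose, Matrix.conjTranspose_mul, Matrix.conjTranspose_mul,
      Matrix.conjTranspose_conjTranspose, Matrix.conjTranspose_pow, Matrix.conjTranspose_mul,
      Matrix.conjTranspose_conjTranspose, ← Matrix.mul_assoc v, Matrix.trace_mul_comm]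
  rw [h4, h5, Complex.add_re]
  have h6 : (star (Matrix.trace ((v * vᴴ) ^ j * l * vᴴ))).re =
      (Matrix.trace ((v * vᴴ) ^ j * l * vᴴ)).re := Complex.conj_re _
  rw [h6]
  ring

omit [DecidableEq n] in
theorem re_tr (M : Matrix n n ℂ) :
    (Matrix.trace (Mᴴ * M)).re = ∑ i, n2 (fun a => M a i) := by
  unfold Matrix.trace n2
  rw [Complex.re_sum]
  refine Finset.sum_congr rfl fun i _ => ?_
  rw [Matrix.diag_apply, Matrix.mul_apply, Complex.re_sum]
  refine Finset.sum_congr rfl fun a _ => ?_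
  rw [Matrix.conjTranspose_apply]
  have h1 : star (M a i) * M a i = ((‖M a i‖ ^ 2 : ℝ) : ℂ) := by
    have := Complex.conj_mul' (M a i)
    rw [Complex.ofReal_pow]
    exact this
  rw [h1, Complex.ofReal_re]

theorem psd_bound {ι : Type} [Fintype ι] (P : Matrix n n ℂ) (hP : P.PosSemidef)
    (h : ι → Matrix n n ℂ) (ν : ℝ) (hb : ∀ u : n → ℂ, ∑ c, n2 (h c *ᵥ u) ≤ ν * n2 u) :
    ∑ c, (Matrix.trace (P * ((h c)ᴴ * h c))).re ≤ ν * (Matrix.trace P).re := by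
  obtain ⟨S, hS⟩ : ∃ S : Matrix n n ℂ, P = Sᴴ * S := by
    open MatrixOrder in
    exact CStarAlgebra.nonneg_iff_eq_star_mul_self.mp hP.nonneg
  subst hS
  have h1 : ∀ c, (Matrix.trace (Sᴴ * S * ((h c)ᴴ * h c))).re =
      ∑ i, n2 (h c *ᵥ fun b => Sᴴ b i) := by
    intro c
    have h2 : Matrix.trace (Sᴴ * S * ((h c)ᴴ * h c)) =
        Matrix.trace ((h c * Sᴴ)ᴴ * (h c * Sᴴ)) := by
      rw [Matrix.conjTranspose_mul, Matrix.conjTranspose_conjTranspose, Matrix.mul_assoc,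
        Matrix.trace_mul_comm]
      simp only [Matrix.mul_assoc]
    rw [h2, re_tr]
    rfl
  have h3 : (Matrix.trace (Sᴴ * S)).re = ∑ i, n2 (fun b => Sᴴ b i) := by
    have h4 : Matrix.trace (Sᴴ * S) = Matrix.trace ((Sᴴ)ᴴ * Sᴴ) := by
      rw [Matrix.conjTranspose_conjTranspose, Matrix.trace_mul_comm]
    rw [h4, re_tr]
  rw [Finset.sum_congr rfl fun c _ => h1 c, h3, Finset.sum_comm, Finset.mul_sum]
  exact Finset.sum_le_sum fun i _ => hb _

/-- the second order term -/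
theorem quad {ι : Type} [Fintype ι] (v : Matrix n n ℂ) (g : ι → Matrix n n ℂ) (j : ℕ) (ν : ℝ)
    (h1 : ∀ u : n → ℂ, ∑ c, n2 (g c *ᵥ u) ≤ ν * n2 u)
    (h2 : ∀ u : n → ℂ, ∑ c, n2 ((g c)ᴴ *ᵥ u) ≤ ν * n2 u) :
    ∑ c, (Matrix.trace (dil v ^ (2 * j) * (dil (g c) * dil (g c)))).re ≤
      2 * ν * (Matrix.trace ((v * vᴴ) ^ j)).re := by
  have h3 : ∀ c, (Matrix.trace (dil v ^ (2 * j) * (dil (g c) * dil (g c)))).re =
      (Matrix.trace ((v * vᴴ) ^ j * (((g c)ᴴ)ᴴ * (g c)ᴴ))).re +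
      (Matrix.trace ((vᴴ * v) ^ j * ((g c)ᴴ * g c))).re := by
    intro c
    rw [dil_mul, dil_pow, Matrix.fromBlocks_multiply]
    have h4 : Matrix.fromBlocks ((v * vᴴ) ^ j * (g c * (g c)ᴴ) + 0 * 0)
        ((v * vᴴ) ^ j * 0 + 0 * ((g c)ᴴ * g c)) (0 * (g c * (g c)ᴴ) + (vᴴ * v) ^ j * 0)
        (0 * 0 + (vᴴ * v) ^ j * ((g c)ᴴ * g c)) =
        Matrix.fromBlocks ((v * vᴴ) ^ j * (g c * (g c)ᴴ)) 0 0 ((vᴴ * v) ^ j * ((g c)ᴴ * g c)) := by
      simp
    rw [h4, tr_blocks, Complex.add_re, Matrix.conjTranspose_conjTranspose]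
  rw [Finset.sum_congr rfl fun c _ => h3 c, Finset.sum_add_distrib]
  have h5 := psd_bound ((v * vᴴ) ^ j) ((Matrix.posSemidef_self_mul_conjTranspose v).pow j)
    (fun c => (g c)ᴴ) ν h2
  have h6 := psd_bound ((vᴴ * v) ^ j) ((Matrix.posSemidef_conjTranspose_mul_self v).pow j)
    g ν h1
  rw [tr_swap] at h6
  linarith

end Mat

theorem ytj (jal : JalStmt) (jma : JmaStmt) (tri : TriStmt) : YtjStmt := by
  intro ι _ _ q n _ _ F v l g k ν hF hk hν hb1 hb2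
  have hD : HM (fun r => dil (F r)) q (dil v) (fun c => dil (g c)) (dil l) := by
    rintro (a | a) (b | b)
    · exact (jal ι ℂ q).1 0
    · exact hF a b
    · exact ((jal ι ℂ q).2.2.2.1 _ _ _ _ (hF b a)).1
    · exact (jal ι ℂ q).1 0
  have hJ := ((jma ι ℂ q).2 (n ⊕ n) _ _ _ _ hD).2 (2 * k) (by omega)
  have hR := ((jal ι ℂ q).2.2.2.1 _ _ _ _ hJ).2.1
  have hH := ((jal ι ℝ q).2.2.1 _ _ _ _ _ _ _ _ ((jal ι ℝ q).1 (1 / 2 : ℝ)) hR).2.2
  have hfun : (fun r => (1 / 2 : ℝ) * RCLike.re (Matrix.trace (dil (F r) ^ (2 * k)))) =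
      fun r => (Matrix.trace ((F r * (F r)ᴴ) ^ k)).re := by
    funext r
    rw [tr_dil]
    simp
  have hval : (1 / 2 : ℝ) * RCLike.re (Matrix.trace (dil v ^ (2 * k))) =
      (Matrix.trace ((v * vᴴ) ^ k)).re := by
    rw [tr_dil]
    simp
  rw [hfun, hval] at hH
  refine ⟨_, _, hH, ?_⟩
  obtain ⟨j, rfl⟩ : ∃ j, k = j + 1 := ⟨k - 1, by omega⟩
  have hT : ∀ c, (∑ i ∈ Finset.range (2 * (j + 1) - 1),
      Matrix.trace (dil (g c) * dil v ^ i * dil (g c) * dil v ^ (2 * (j + 1) - 2 - i))).re ≤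
      (2 * j + 1) * (Matrix.trace (dil v ^ (2 * j) * (dil (g c) * dil (g c)))).re := by
    intro c
    have h1 := tri ℂ (n ⊕ n) (dil v) (dil (g c)) (2 * j) (dil_herm v) (dil_herm (g c))
      (Or.inr ⟨j, by ring⟩)
    have h2 : 2 * (j + 1) - 1 = 2 * j + 1 := by omega
    have h3 : 2 * (j + 1) - 2 = 2 * j := by omega
    rw [h2, h3]
    have h4 : ((2 * j : ℕ) : ℝ) + 1 = 2 * j + 1 := by push_cast; ring
    rw [h4] at h1
    exact h1
  have hQ := quad v g j ν hb1 hb2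
  have hS : (∑ c, ∑ i ∈ Finset.range (2 * (j + 1) - 1),
      Matrix.trace (dil (g c) * dil v ^ i * dil (g c) * dil v ^ (2 * (j + 1) - 2 - i))).re ≤
      (2 * j + 1) * (2 * ν * (Matrix.trace ((v * vᴴ) ^ j)).re) := by
    rw [Complex.re_sum]
    refine (Finset.sum_le_sum fun c _ => hT c).trans ?_
    rw [← Finset.mul_sum]
    exact mul_le_mul_of_nonneg_left hQ (by positivity)
  have hL := tr_lin v l (j + 1) hk
  have e1 : (RCLike.re (((2 * (j + 1) : ℕ) : ℂ) *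
        Matrix.trace (dil v ^ (2 * (j + 1) - 1) * dil l) +
        ((2 * (j + 1) : ℕ) : ℂ) / 2 * ∑ c, ∑ i ∈ Finset.range (2 * (j + 1) - 1),
          Matrix.trace (dil (g c) * dil v ^ i * dil (g c) * dil v ^ (2 * (j + 1) - 2 - i))) : ℝ) =
      (2 * (j + 1)) * (Matrix.trace (dil v ^ (2 * (j + 1) - 1) * dil l)).re +
      (j + 1) * (∑ c, ∑ i ∈ Finset.range (2 * (j + 1) - 1),
          Matrix.trace (dil (g c) * dil v ^ i * dil (g c) *
            dil v ^ (2 * (j + 1) - 2 - i))).re := by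
    have h7 : ((2 * (j + 1) : ℕ) : ℂ) = (((2 * (j + 1) : ℝ)) : ℂ) := by push_cast; ring
    have h8 : ((2 * (j + 1) : ℕ) : ℂ) / 2 = ((((j + 1) : ℝ)) : ℂ) := by push_cast; ring
    rw [h8, h7]
    rw [RCLike.re_eq_complex_re, Complex.add_re, Complex.re_ofReal_mul, Complex.re_ofReal_mul]
  rw [e1, hL]
  have h9 : j + 1 - 1 = j := by omega
  rw [h9]
  simp only [zero_mul, Finset.sum_const_zero, add_zero]
  push_cast
  have h10 : ((j : ℝ) + 1) * (∑ c, ∑ i ∈ Finset.range (2 * (j + 1) - 1),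
      Matrix.trace (dil (g c) * dil v ^ i * dil (g c) * dil v ^ (2 * (j + 1) - 2 - i))).re ≤
      ((j : ℝ) + 1) * ((2 * j + 1) * (2 * ν * (Matrix.trace ((v * vᴴ) ^ j)).re)) :=
    mul_le_mul_of_nonneg_left hS (by positivity)
  linarith only [h10]

end Pool.Agent.LE.QF.H27
end
end -- Pool.Agent.Helper27_LQF.YTJ

section -- Pool.Agent.Helper13_LQX.QXF

/-!
# LQX, row QXF: the final bound
-/

set_option autoImplicit false

open MeasureTheory ProbabilityTheory Filter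

open scoped ENNReal Topology

noncomputable section

namespace Pool.Agent.LE.QX.H13

open Pool.Agent.Anderson hiding box mem_box card_box
open Pool.Agent.Loc Pool.Agent.Mob Pool.Agent.Helper54.Bal Pool.Agent.LE.MN Pool.Agent.LE.CL
  Pool.Agent.LE.QF Pool.Agent.LE.QX

/-- the exponential wins -/
theorem lim_aux (C θ : ℝ) (d : ℕ) (hC : 1 ≤ C) (hθ : 0 < θ) (hd : 1 ≤ d) :
    ∃ c : ℝ, 0 < c ∧ ∀ u : ℝ, 0 < u → u ≤ c →
      3 * C * u ^ (-2 : ℝ) * Real.exp (-(u ^ (-θ) / d)) ≤ Real.exp (-(u ^ (-(θ / 2)))) := by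
  have hd0 : (1 : ℝ) ≤ d := by exact_mod_cast hd
  have h1 : ∀ᶠ x : ℝ in atTop, x ^ (4 / θ) * Real.exp (-2 * x) < 1 / (3 * C) := by
    have h := tendsto_rpow_mul_exp_neg_mul_atTop_nhds_zero (4 / θ) 2 (by norm_num)
    exact h.eventually (gt_mem_nhds (by positivity))
  have h2 : Tendsto (fun u : ℝ => u ^ (-(θ / 2))) (𝓝[>] 0) atTop := by
    have h3 : Tendsto (fun u : ℝ => (u⁻¹) ^ (θ / 2)) (𝓝[>] 0) atTop :=
      (tendsto_rpow_atTop (by positivity)).comp tendsto_inv_nhdsGT_zero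
    refine h3.congr' ?_
    filter_upwards [self_mem_nhdsWithin] with u hu
    have hu' : (0 : ℝ) < u := hu
    rw [Real.rpow_neg hu'.le, Real.inv_rpow hu'.le]
  have h3 := h2.eventually (h1.and (eventually_ge_atTop (3 * (d : ℝ))))
  obtain ⟨c, hc, hc'⟩ := mem_nhdsGT_iff_exists_Ioo_subset.1 h3
  have hc0 : (0 : ℝ) < c := hc
  refine ⟨c / 2, by positivity, ?_⟩
  intro u hu huc
  have hmem : u ∈ Set.Ioo (0 : ℝ) c := ⟨hu, by linarith only [hu, huc]⟩
  obtain ⟨h4, h5⟩ := hc' hmem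
  obtain ⟨x, hx⟩ : ∃ x : ℝ, x = u ^ (-(θ / 2)) := ⟨_, rfl⟩
  rw [← hx] at h4 h5
  have hx0 : 0 < x := by
    rw [hx]
    exact Real.rpow_pos_of_pos hu _
  have e1 : x ^ (4 / θ) = u ^ (-2 : ℝ) := by
    rw [hx, ← Real.rpow_mul hu.le]
    congr 1
    field_simp
    norm_num
  have e2 : x ^ 2 = u ^ (-θ) := by
    rw [hx, ← Real.rpow_natCast, ← Real.rpow_mul hu.le]
    congr 1
    push_cast
    ring
  rw [← hx, ← e1, ← e2]
  have h6 : 3 * C * x ^ (4 / θ) * Real.exp (-2 * x) ≤ 1 := by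
    have h7 : 3 * C * (x ^ (4 / θ) * Real.exp (-2 * x)) ≤ 3 * C * (1 / (3 * C)) :=
      mul_le_mul_of_nonneg_left h4.le (by positivity)
    have h8 : 3 * C * (1 / (3 * C)) = 1 := by
      field_simp
    linarith only [h7, h8]
  have h7 : Real.exp (-(x ^ 2 / d)) ≤ Real.exp (-2 * x) * Real.exp (-x) := by
    rw [← Real.exp_add]
    apply Real.exp_le_exp.2
    have h8 : 3 * x ≤ x ^ 2 / d := by
      rw [le_div_iff₀ (by linarith only [hd0])]
      nlinarith only [h5]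
    linarith only [h8]
  calc 3 * C * x ^ (4 / θ) * Real.exp (-(x ^ 2 / d))
      ≤ 3 * C * x ^ (4 / θ) * (Real.exp (-2 * x) * Real.exp (-x)) :=
        mul_le_mul_of_nonneg_left h7 (by positivity)
    _ = 3 * C * x ^ (4 / θ) * Real.exp (-2 * x) * Real.exp (-x) := by ring
    _ ≤ 1 * Real.exp (-x) := mul_le_mul_of_nonneg_right h6 (Real.exp_pos _).le
    _ = Real.exp (-x) := one_mul _

theorem qxf (cpz : CpzStmt) (crg : CrgStmt) : QxfStmt := by
  intro d a ε hd ha hε hε1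
  have hd0 : (3 : ℝ) ≤ d := by exact_mod_cast hd
  obtain ⟨θ, c, hθ, hθ1, hc, hc4, h⟩ := cpz d a ε hd ha hε hε1
  obtain ⟨C, hC, hg⟩ := crg d (by omega)
  obtain ⟨c1, hc1, hlim⟩ := lim_aux C θ d hC hθ (by omega)
  refine ⟨θ / 2, min c c1, by positivity, lt_min hc hc1, (min_le_left _ _).trans hc4, ?_⟩
  intro σ E g hσ hσc hE hEa hL
  have hσ0 : 0 < |σ| := abs_pos.2 hσ
  have hσc' : |σ| ≤ c := hσc.trans (min_le_left _ _)
  have hσ4 : |σ| ≤ 1 / 4 := hσc'.trans hc4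
  obtain ⟨n, ρ, J, s, q, hs1, hs, hρ1, hρ, hJ1, hJ, hn1, hn, hq0, hq, hP⟩ :=
    h σ E hσ hσc' hE hEa
  have hn0 : (0 : ℝ) < n := by exact_mod_cast hn1
  have hρ0 : (1 : ℝ) ≤ ρ := by exact_mod_cast hρ1
  have hJ0 : (1 : ℝ) ≤ J := by exact_mod_cast hJ1
  have key := hg σ E s q g J n ρ hσ0 (by linarith only [hθ, hθ1, hc4, hσc']) (by linarith only [ha, hθ, hθ1, hEa]) hs1 hJ1
    hn1 hρ1 hL hq0 hq hP
  obtain ⟨t, ht⟩ : ∃ t : ℝ, t = |σ| ^ (-1 : ℝ) := ⟨_, rfl⟩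
  rw [← ht] at hs hρ hJ
  have ht0 : 0 < t := by
    rw [ht]
    exact Real.rpow_pos_of_pos hσ0 _
  have ht' : t = 1 / |σ| := by
    rw [ht, Real.rpow_neg_one, one_div]
  have hl : Real.log (1 / |σ|) ≤ t := by
    rw [← ht']
    have := Real.log_le_sub_one_of_pos ht0
    linarith only [hθ, hθ1, this]
  have hl0 : 0 ≤ Real.log (1 / |σ|) := Real.log_nonneg (by
    rw [le_div_iff₀ hσ0]
    linarith only [hθ, hθ1, hc4, hσc'])
  have hlρ : 0 ≤ Real.log ρ := Real.log_nonneg hρ0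
  have hnd : (n : ℝ) ^ (-(1 / (d : ℝ))) ≤ Real.exp (-(|σ| ^ (-θ) / d)) := by
    calc (n : ℝ) ^ (-(1 / (d : ℝ)))
        ≤ Real.exp (|σ| ^ (-θ)) ^ (-(1 / (d : ℝ))) :=
          Real.rpow_le_rpow_of_nonpos (Real.exp_pos _) hn (by
            rw [neg_nonpos]
            positivity)
      _ = Real.exp (-(|σ| ^ (-θ) / d)) := by
          rw [← Real.exp_mul]
          congr 1
          ring
  have e2 : t ^ 2 = |σ| ^ (-2 : ℝ) := by
    rw [ht, ← Real.rpow_natCast, ← Real.rpow_mul hσ0.le]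
    norm_num
  refine key.trans ?_
  refine le_trans ?_ (hlim |σ| hσ0 (hσc.trans (min_le_right _ _)))
  have hn' : 0 ≤ (n : ℝ) ^ (-(1 / (d : ℝ))) := Real.rpow_nonneg hn0.le _
  have hsum : s + Real.log (1 / |σ|) + Real.log ρ ≤ 3 * t := by linarith only [hρ, hs, hl]
  have hsum0 : 0 ≤ s + Real.log (1 / |σ|) + Real.log ρ := by linarith
  calc C * J * (s + Real.log (1 / |σ|) + Real.log ρ) * (n : ℝ) ^ (-(1 / (d : ℝ)))
      ≤ C * t * (3 * t) * Real.exp (-(|σ| ^ (-θ) / d)) := by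
        gcongr
    _ = 3 * C * t ^ 2 * Real.exp (-(|σ| ^ (-θ) / d)) := by ring
    _ = 3 * C * |σ| ^ (-2 : ℝ) * Real.exp (-(|σ| ^ (-θ) / d)) := by rw [e2]

end Pool.Agent.LE.QX.H13
end
end -- Pool.Agent.Helper13_LQX.QXF

section -- Pool.Agent.Helper34_LQF.INW

/-!
# Squad LQF, row INW: the initial form bound
-/

set_option autoImplicit false

open MeasureTheory ProbabilityTheory

open scoped ENNReal BigOperators NNReal Matrix

noncomputable section

namespace Pool.Agent.LE.QF.H34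

open Pool.Agent.Anderson hiding box mem_box card_box
open Pool.Agent.Loc Pool.Agent.Mob Pool.Agent.Helper54.Bal
  Pool.Agent.Helper96.EXP Pool.Agent.BED
open Pool.Agent.LE.MN Pool.Agent.LE.CL Pool.Agent.LE.IR Pool.Agent.LE.QD

variable {d M : ℕ} [NeZero M]

omit [NeZero M] in
theorem ds_neg (p : Tor d M) : ds (-p) = ds p := by
  unfold ds
  refine Finset.sum_congr rfl fun i _ => ?_
  have h1 : |(((-p) i).valMinAbs : ℝ)| = |((p i).valMinAbs : ℝ)| := by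
    have h := ZMod.natAbs_valMinAbs_neg (p i)
    have h2 : ((((-p) i).valMinAbs.natAbs : ℕ) : ℤ) = (((p i).valMinAbs.natAbs : ℕ) : ℤ) := by
      exact_mod_cast h
    rw [Int.natCast_natAbs, Int.natCast_natAbs] at h2
    exact_mod_cast h2
  have h2 : ∀ v : ℝ, Real.cos (2 * Real.pi * v / M) = Real.cos (2 * Real.pi * |v| / M) := by
    intro v
    rcases abs_choice v with h | h
    · rw [h]
    · rw [h, ← Real.cos_neg]
      congr 1
      ring
  rw [h2, h2 ((p i).valMinAbs : ℝ), h1]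

theorem low_neg (J : ℕ) (p : Tor d M) : -p ∈ low d M J ↔ p ∈ low d M J := by
  unfold low
  simp only [Finset.mem_filter, Finset.mem_univ, true_and, Pi.neg_apply,
    ZMod.natAbs_valMinAbs_neg]

theorem ds_pos (p : Tor d M) (hp : p ≠ 0) : 0 < ds p := by
  have hM : (0 : ℝ) < M := by exact_mod_cast Nat.pos_of_ne_zero (NeZero.ne M)
  obtain ⟨i, hi⟩ := Function.ne_iff.1 hp
  unfold ds
  refine Finset.sum_pos' (fun i _ => ?_) ⟨i, Finset.mem_univ i, ?_⟩
  · have := Real.cos_le_one (2 * Real.pi * ((p i).valMinAbs : ℝ) / M)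
    linarith only [this]
  · have hv : (p i).valMinAbs ≠ 0 := by
      rw [Ne, ZMod.valMinAbs_eq_zero]
      exact hi
    have hv2 : ((p i).valMinAbs.natAbs : ℝ) ≤ M / 2 := by
      have h := ZMod.natAbs_valMinAbs_le (p i)
      have h3 : 2 * (p i).valMinAbs.natAbs ≤ M := by omega
      have h4 : (2 : ℝ) * ((p i).valMinAbs.natAbs : ℝ) ≤ M := by exact_mod_cast h3
      linarith only [h4]
    have hv3 : |((p i).valMinAbs : ℝ)| ≤ M / 2 := by
      have h : (((p i).valMinAbs.natAbs : ℕ) : ℝ) = |((p i).valMinAbs : ℝ)| := by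
        rw [← Int.cast_abs, Int.abs_eq_natAbs, Int.cast_natCast]
      rw [← h]
      exact hv2
    have hne : ((p i).valMinAbs : ℝ) ≠ 0 := by exact_mod_cast hv
    have hx : 2 * Real.pi * ((p i).valMinAbs : ℝ) / M ≠ 0 :=
      div_ne_zero (mul_ne_zero (by positivity) hne) hM.ne'
    have hb : |2 * Real.pi * ((p i).valMinAbs : ℝ) / M| ≤ Real.pi := by
      rw [abs_div, abs_mul, abs_of_pos (by positivity : (0 : ℝ) < 2 * Real.pi), abs_of_pos hM,
        div_le_iff₀ hM]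
      nlinarith only [Real.pi_pos, hv3]
    obtain ⟨hb1, hb2⟩ := abs_le.1 hb
    have hc : Real.cos (2 * Real.pi * ((p i).valMinAbs : ℝ) / M) ≠ 1 := by
      intro h
      have h5 := (Real.cos_eq_one_iff_of_lt_of_lt (by linarith only [Real.pi_pos, hb1])
        (by linarith [Real.pi_pos])).1 h
      exact hx h5
    have hle := Real.cos_le_one (2 * Real.pi * ((p i).valMinAbs : ℝ) / M)
    have hlt := lt_of_le_of_ne hle hc
    linarith only [hlt]

/-- the row INW -/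
theorem inw (kft : KftStmt) (fmu : FmuStmt) : InwStmt := by
  intro d M _ ζ J cs e₀ e₁ β c τ hζ hτ hkf hc hcs hβ h1 he0 he12 he1 hnl hnl' hl f
  obtain ⟨-, -, -, hK, hev, -⟩ := kft d M ζ hζ
  have hMpos : (0 : ℝ) < (M : ℝ) ^ d := by
    have hM : (0 : ℝ) < M := by exact_mod_cast Nat.pos_of_ne_zero (NeZero.ne M)
    positivity
  have hsy : ∀ p : Tor d M, sy0 cs ζ.im J (-p) = sy0 cs ζ.im J p := by
    intro p
    unfold sy0
    by_cases h : p ∈ low d M J ∧ p ≠ 0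
    · rw [if_pos h, if_pos ⟨(low_neg J p).2 h.1, neg_ne_zero.2 h.2⟩, ds_neg]
    · rw [if_neg h, if_neg]
      rintro ⟨h3, h4⟩
      exact h ⟨(low_neg J p).1 h3, neg_ne_zero.1 h4⟩
  have hsy0 : ∀ p : Tor d M, 0 ≤ sy0 cs ζ.im J p := by
    intro p
    unfold sy0
    split_ifs with h
    · have := ds_pos p h.2
      positivity
    · exact le_rfl
  -- the symbols
  set a : Tor d M → ℝ := fun p => e₀ + τ * sy0 cs ζ.im J p with ha
  set b : Tor d M → ℝ := fun p => (1 + (-τ) * kf ζ p) + (if p = 0 then 1 else 0) with hb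
  have ha0 : ∀ p, 0 < a p := fun p => by
    have := mul_nonneg hτ.le (hsy0 p)
    simp only [ha]
    linarith
  have hae : ∀ p, a (-p) = a p := fun p => by simp only [ha, hsy]
  have he : ∀ p : Tor d M, ((if -p = 0 then 1 else 0 : ℝ)) = if p = 0 then 1 else 0 := by
    intro p
    by_cases h : p = 0
    · subst h; simp
    · rw [if_neg h, if_neg (neg_ne_zero.2 h)]
  have hbe : ∀ p, b (-p) = b p := fun p => by simp only [hb, hev, he]
  have hA : e₀ • (1 : Matrix (Tor d M) (Tor d M) ℝ) + τ • mlt (sy0 cs ζ.im J) = mlt a := by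
    obtain ⟨-, -, -, -, hsm, hone, -⟩ := fmu d M (fun _ => (1 : ℝ)) (fun _ => (1 : ℝ))
      (fun _ => rfl) (fun _ => rfl)
    obtain ⟨-, -, -, -, hsm', -⟩ := fmu d M (sy0 cs ζ.im J) (fun _ => (1 : ℝ)) hsy (fun _ => rfl)
    obtain ⟨-, -, -, hadd, -⟩ := fmu d M (fun _ => e₀ * 1) (fun p => τ * sy0 cs ζ.im J p)
      (fun _ => rfl) (fun p => by rw [hsy])
    rw [← hone, ← hsm, ← hsm', ← hadd]
    congr 1
    funext p
    simp only [ha, mul_one]
  have hAi : (mlt a)⁻¹ = mlt fun p => (a p)⁻¹ := by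
    obtain ⟨-, -, -, -, -, -, -, -, -, hinv, -⟩ := fmu d M a a hae hae
    exact hinv ha0
  have hB : τ • Dl (KK (rs (0 : Tor d M → ℝ) ζ)) + P0 (Tor d M) = mlt b := by
    obtain ⟨-, -, -, -, hsm, -, hrow, -, hP, -⟩ := fmu d M (kf ζ) (kf ζ) hev hev
    obtain ⟨-, -, -, hadd, -, hone, -⟩ := fmu d M (fun _ => (1 : ℝ)) (fun p => (-τ) * kf ζ p)
      (fun _ => rfl) (fun p => by rw [hev])
    obtain ⟨-, -, -, hadd', -⟩ := fmu d M (fun p => 1 + (-τ) * kf ζ p)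
      (fun p => if p = 0 then 1 else 0) (fun p => by rw [hev]) he
    have h3 : mlt b = 1 + (-τ) • mlt (kf ζ) + P0 (Tor d M) := by
      rw [hP, ← hsm, ← hone, ← hadd, ← hadd']
    rw [h3, hK]
    congr 1
    unfold Dl
    have h4 : Matrix.diagonal (fun x : Tor d M => ∑ y, mlt (kf ζ) x y) =
        (kf ζ (0 : Tor d M)) • (1 : Matrix (Tor d M) (Tor d M) ℝ) := by
      ext x y
      simp only [Matrix.diagonal_apply, Matrix.smul_apply, Matrix.one_apply, smul_eq_mul, hrow,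
        mul_ite, mul_one, mul_zero]
    rw [h4, smul_sub, smul_smul, hkf, one_smul, neg_smul, sub_eq_add_neg]
  obtain ⟨hqa, -⟩ := fmu d M (fun p => (a p)⁻¹) (fun p => (a p)⁻¹) (fun p => by rw [hae])
    (fun p => by rw [hae])
  obtain ⟨hqb, -⟩ := fmu d M b b hbe hbe
  rw [hA, hAi, hB, hqa, hqb]
  unfold pm
  rw [← mul_div_assoc]
  refine div_le_div_of_nonneg_right ?_ hMpos.le
  rw [Finset.mul_sum]
  refine Finset.sum_le_sum fun p _ => ?_
  rw [← mul_assoc]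
  refine mul_le_mul_of_nonneg_right ?_ (sq_nonneg _)
  -- the inequality of the symbols
  rw [← div_eq_mul_inv, div_le_iff₀ (ha0 p)]
  have hle : e₁ ≤ e₀ := h1.trans (by nlinarith only [hβ, he0])
  by_cases hp : p = 0
  · subst hp
    have ha' : a 0 = e₀ := by
      simp only [ha, sy0, ne_eq, not_true_eq_false, and_false, if_false, mul_zero, add_zero]
    have hb' : b 0 = 1 := by
      simp only [hb, if_true]
      linarith
    rw [ha', hb', one_mul]
    exact hle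
  have hbp : b p = 1 - τ * kf ζ p := by
    simp only [hb, if_neg hp]
    ring
  by_cases hlow : p ∈ low d M J
  · have hd := ds_pos p hp
    have hap : a p = e₀ + τ * (cs * (1 / ζ.im + ζ.im / ds p)) := by
      simp only [ha, sy0]
      rw [if_pos ⟨hlow, hp⟩]
    set mm : ℝ := min 1 (ds p / ζ.im ^ 2) with hmm
    have hmm0 : 0 < mm := lt_min one_pos (by positivity)
    have hb1 : c * mm ≤ b p := by
      have h5 := mul_le_mul_of_nonneg_left (hl p hlow) hτ.le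
      have h6 : τ * ((1 - c * mm) * kf ζ (0 : Tor d M)) = 1 - c * mm := by
        calc τ * ((1 - c * mm) * kf ζ (0 : Tor d M))
            = (1 - c * mm) * (τ * kf ζ (0 : Tor d M)) := by ring
          _ = 1 - c * mm := by rw [hkf, mul_one]
      rw [h6] at h5
      rw [hbp]
      linarith
    have hkey : 1 / ζ.im ≤ (1 / ζ.im + ζ.im / ds p) * mm := by
      rcases le_total 1 (ds p / ζ.im ^ 2) with h | h
      · rw [hmm, min_eq_left h, mul_one]
        have : 0 ≤ ζ.im / ds p := by positivity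
        linarith only [this]
      · rw [hmm, min_eq_right h]
        have h7 : (1 / ζ.im + ζ.im / ds p) * (ds p / ζ.im ^ 2) =
            ds p / ζ.im ^ 3 + 1 / ζ.im := by
          field_simp
        rw [h7]
        have : 0 ≤ ds p / ζ.im ^ 3 := by positivity
        linarith only [this]
    have h8 : 2 ≤ τ * (cs * (1 / ζ.im)) * c := by
      have h9 : τ * (cs * (1 / ζ.im)) * c = c * cs * τ / ζ.im := by ring
      rw [h9, le_div_iff₀ hζ]
      exact hnl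
    calc e₁ ≤ 2 := he12
      _ ≤ τ * (cs * (1 / ζ.im)) * c := h8
      _ ≤ τ * (cs * ((1 / ζ.im + ζ.im / ds p) * mm)) * c := by gcongr
      _ = (c * mm) * (τ * (cs * (1 / ζ.im + ζ.im / ds p))) := by ring
      _ ≤ b p * (τ * (cs * (1 / ζ.im + ζ.im / ds p))) := by
          refine mul_le_mul_of_nonneg_right hb1 ?_
          positivity
      _ ≤ b p * a p := by
          refine mul_le_mul_of_nonneg_left ?_ ((mul_pos hc hmm0).le.trans hb1)
          rw [hap]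
          linarith only [he0]
  · have hap : a p = e₀ := by
      simp only [ha, sy0]
      rw [if_neg (fun h => hlow h.1), mul_zero, add_zero]
    have h5 : kf ζ p ≤ β * kf ζ (0 : Tor d M) := (le_abs_self _).trans (hnl' p hlow)
    have h6 := mul_le_mul_of_nonneg_left h5 hτ.le
    have h7 : τ * (β * kf ζ (0 : Tor d M)) = β := by
      calc τ * (β * kf ζ (0 : Tor d M)) = β * (τ * kf ζ (0 : Tor d M)) := by ring
        _ = β := by rw [hkf, mul_one]
    rw [h7] at h6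
    rw [hap, hbp]
    nlinarith

end Pool.Agent.LE.QF.H34
end
end -- Pool.Agent.Helper34_LQF.INW

section -- Pool.Agent.Helper91_LQX.EGA

/-!
# Squad LQX, row EGA: quasimodes on the torus
-/

set_option autoImplicit false

open MeasureTheory ProbabilityTheory Function Filter

open scoped ENNReal BigOperators Topology NNReal ComplexOrder Matrix

noncomputable section

namespace Pool.Agent.LE.QX.H91

open Pool.Agent.Anderson hiding box mem_box card_box
open Pool.Agent.Loc Pool.Agent.Mob Pool.Agent.Helper54.Bal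
  Pool.Agent.Helper96.EXP Pool.Agent.BED
open Pool.Agent.LE.MN Pool.Agent.LE.CL Pool.Agent.LE.IR Pool.Agent.LE.QD Pool.Agent.LE.QF

section gen

variable {X : Type} [Fintype X]

/-- a sum over a rectangle -/
theorem rect (C' : Finset X) (u : X → ℂ) (K : X → X → ℝ) :
    ∑ x ∈ C', ∑ y ∈ C', ‖u x‖ * ‖u y‖ * K x y ≤
      (∑ x ∈ C', ‖u x‖ ^ 2) * Real.sqrt (∑ x ∈ C', ∑ y ∈ C', K x y ^ 2) := by
  have h1 := Finset.sum_mul_sq_le_sq_mul_sq (C' ×ˢ C') (fun p : X × X => ‖u p.1‖ * ‖u p.2‖)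
    (fun p : X × X => K p.1 p.2)
  rw [Finset.sum_product, Finset.sum_product, Finset.sum_product] at h1
  simp only at h1
  have h2 : ∑ x ∈ C', ∑ y ∈ C', (‖u x‖ * ‖u y‖) ^ 2 = (∑ x ∈ C', ‖u x‖ ^ 2) ^ 2 := by
    rw [sq (∑ x ∈ C', ‖u x‖ ^ 2), Finset.sum_mul_sum]
    refine Finset.sum_congr rfl fun x _ => Finset.sum_congr rfl fun y _ => ?_
    ring
  rw [h2] at h1
  have h3 : 0 ≤ ∑ x ∈ C', ‖u x‖ ^ 2 := Finset.sum_nonneg fun _ _ => by positivity
  refine (Real.le_sqrt_of_sq_le h1).trans ?_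
  rw [Real.sqrt_mul (by positivity), Real.sqrt_sq h3]

theorem core (G : Matrix X X ℂ) (u w : X → ℂ) (C' : Finset X) {η B W : ℝ} (hη : 0 < η)
    (hG : ∀ a b, (η : ℂ) * ∑ c, G a c * (starRingEnd ℂ) (G b c) = ((G a b).im : ℂ))
    (hu : G *ᵥ w = u) (hB : ∑ x ∈ C', ∑ y ∈ C', ‖G x y‖ ^ 2 ≤ B) (hW : n2 w ≤ W) :
    η * ∑ x ∈ C', ‖u x‖ ^ 2 ≤ Real.sqrt B * W := by
  obtain ⟨A, hA⟩ : ∃ A, A = ∑ x ∈ C', ‖u x‖ ^ 2 := ⟨_, rfl⟩
  have hA0 : 0 ≤ A := by
    rw [hA]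
    exact Finset.sum_nonneg fun _ _ => by positivity
  obtain ⟨h, hh⟩ : ∃ h : X → ℂ, h = fun c => ∑ x ∈ C', (starRingEnd ℂ) (u x) * G x c := ⟨_, rfl⟩
  have h1 : (A : ℂ) = ∑ c, h c * w c := by
    have e1 : (A : ℂ) = ∑ x ∈ C', (starRingEnd ℂ) (u x) * ∑ c, G x c * w c := by
      rw [hA]
      push_cast
      refine Finset.sum_congr rfl fun x _ => ?_
      have e2 : ∑ c, G x c * w c = u x := congrFun hu x
      rw [e2, Complex.conj_mul']
    rw [e1]
    simp only [Finset.mul_sum]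
    rw [Finset.sum_comm]
    refine Finset.sum_congr rfl fun c _ => ?_
    rw [hh, Finset.sum_mul]
    refine Finset.sum_congr rfl fun x _ => ?_
    ring
  have h2 : A ≤ ∑ c, ‖h c‖ * ‖w c‖ := by
    have e1 : A = ‖(A : ℂ)‖ := by
      rw [Complex.norm_real, Real.norm_eq_abs, abs_of_nonneg hA0]
    rw [e1, h1]
    refine (norm_sum_le _ _).trans (le_of_eq ?_)
    refine Finset.sum_congr rfl fun c _ => ?_
    rw [norm_mul]
  have h3 : A ^ 2 ≤ (∑ c, ‖h c‖ ^ 2) * n2 w :=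
    (pow_le_pow_left₀ hA0 h2 2).trans (Finset.sum_mul_sq_le_sq_mul_sq _ _ _)
  have h4 : η * ∑ c, ‖h c‖ ^ 2 ≤ A * Real.sqrt B := by
    have e1 : ((η * ∑ c, ‖h c‖ ^ 2 : ℝ) : ℂ) =
        ∑ x ∈ C', ∑ y ∈ C', (starRingEnd ℂ) (u x) * u y * ((G x y).im : ℂ) := by
      have e2 : ∀ c, ((‖h c‖ : ℂ)) ^ 2 = ∑ x ∈ C', ∑ y ∈ C',
          (starRingEnd ℂ) (u x) * u y * (G x c * (starRingEnd ℂ) (G y c)) := by
        intro c
        rw [← Complex.mul_conj', hh]
        simp only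
        rw [map_sum, Finset.sum_mul_sum]
        refine Finset.sum_congr rfl fun x _ => Finset.sum_congr rfl fun y _ => ?_
        rw [map_mul, Complex.conj_conj]
        ring
      push_cast
      rw [Finset.sum_congr rfl fun c _ => e2 c, Finset.sum_comm, Finset.mul_sum]
      refine Finset.sum_congr rfl fun x _ => ?_
      rw [Finset.sum_comm, Finset.mul_sum]
      refine Finset.sum_congr rfl fun y _ => ?_
      rw [← Finset.mul_sum, ← hG x y]
      ring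
    have e3 : η * ∑ c, ‖h c‖ ^ 2 ≤ ‖((η * ∑ c, ‖h c‖ ^ 2 : ℝ) : ℂ)‖ := by
      rw [Complex.norm_real, Real.norm_eq_abs]
      exact le_abs_self _
    refine e3.trans ?_
    rw [e1]
    refine (norm_sum_le _ _).trans ((Finset.sum_le_sum fun x _ => norm_sum_le _ _).trans ?_)
    have e4 : ∀ x y, ‖(starRingEnd ℂ) (u x) * u y * ((G x y).im : ℂ)‖ ≤
        ‖u x‖ * ‖u y‖ * ‖G x y‖ := by
      intro x y
      rw [norm_mul, norm_mul, RCLike.norm_conj, Complex.norm_real, Real.norm_eq_abs]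
      exact mul_le_mul_of_nonneg_left (Complex.abs_im_le_norm _) (by positivity)
    refine (Finset.sum_le_sum fun x _ => Finset.sum_le_sum fun y _ => e4 x y).trans ?_
    refine (rect C' u fun x y => ‖G x y‖).trans ?_
    rw [← hA]
    exact mul_le_mul_of_nonneg_left (Real.sqrt_le_sqrt hB) hA0
  have hn : 0 ≤ n2 w := Finset.sum_nonneg fun _ _ => by positivity
  have hs := Real.sqrt_nonneg B
  have hs2 : 0 ≤ ∑ c, ‖h c‖ ^ 2 := Finset.sum_nonneg fun _ _ => by positivity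
  rw [← hA]
  rcases hA0.eq_or_lt with h0 | h0
  · rw [← h0, mul_zero]
    exact mul_nonneg hs (hn.trans hW)
  · refine le_of_mul_le_mul_left ?_ h0
    calc A * (η * A) = η * A ^ 2 := by ring
      _ ≤ η * ((∑ c, ‖h c‖ ^ 2) * n2 w) := mul_le_mul_of_nonneg_left h3 hη.le
      _ = (η * ∑ c, ‖h c‖ ^ 2) * n2 w := by ring
      _ ≤ (A * Real.sqrt B) * W := mul_le_mul h4 hW hn (mul_nonneg hA0 hs)
      _ = A * (Real.sqrt B * W) := by ring

end gen

variable {d M : ℕ} [NeZero M]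

theorem ward (V : Tor d M → ℝ) (E : ℝ) {η : ℝ} (hη : 0 < η) (a b : Tor d M) :
    (η : ℂ) * ∑ c, rs V ⟨E, η⟩ a c * (starRingEnd ℂ) (rs V ⟨E, η⟩ b c) =
      ((rs V ⟨E, η⟩ a b).im : ℂ) := by
  have h0 : (⟨E, η⟩ : ℂ).im ≠ 0 := hη.ne'
  have hc : ((starRingEnd ℂ) (⟨E, η⟩ : ℂ)).im ≠ 0 := by
    rw [Complex.conj_im]
    exact neg_ne_zero.2 h0
  have h1 := congrFun (congrFun (QD.H76.res_en V h0 hc) a) b
  rw [QD.H76.rs_conj, Matrix.sub_apply, Matrix.smul_apply, Matrix.mul_apply,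
    Matrix.conjTranspose_apply] at h1
  have h2 : ∑ c, rs V ⟨E, η⟩ a c * (rs V ⟨E, η⟩)ᴴ c b =
      ∑ c, rs V ⟨E, η⟩ a c * (starRingEnd ℂ) (rs V ⟨E, η⟩ b c) := rfl
  have h3 : (⟨E, η⟩ : ℂ) - (starRingEnd ℂ) (⟨E, η⟩ : ℂ) = 2 * Complex.I * (η : ℂ) := by
    rw [Complex.sub_conj]
    push_cast
    ring
  have h4 : rs V ⟨E, η⟩ a b - star (rs V ⟨E, η⟩ a b) =
      2 * Complex.I * ((rs V ⟨E, η⟩ a b).im : ℂ) := by
    have h5 := Complex.sub_conj (rs V ⟨E, η⟩ a b)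
    rw [show star (rs V ⟨E, η⟩ a b) = (starRingEnd ℂ) (rs V ⟨E, η⟩ a b) from rfl, h5]
    push_cast
    ring
  rw [h2, QD.H76.rs_symm V _ b a, h3, h4, smul_eq_mul, mul_assoc, mul_assoc, mul_assoc] at h1
  exact (mul_left_cancel₀ Complex.I_ne_zero (mul_left_cancel₀ (two_ne_zero' ℂ) h1)).symm

theorem shift (V : Tor d M → ℝ) (E η : ℝ) (u : Tor d M → ℂ) (x : Tor d M) :
    (hz V ⟨E, η⟩ *ᵥ u) x = (hz V (E : ℂ) *ᵥ u) x - Complex.I * η * u x := by
  have hz' : (⟨E, η⟩ : ℂ) = (E : ℂ) + Complex.I * (η : ℂ) := by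
    apply Complex.ext <;> simp
  rw [QD.H76.hz_eq, QD.H76.hz_eq, Matrix.sub_mulVec, Matrix.sub_mulVec, Pi.sub_apply, Pi.sub_apply,
    Matrix.mulVec_diagonal, Matrix.mulVec_diagonal, hz']
  ring

theorem n2_shift (V : Tor d M → ℝ) {E η S : ℝ} (u : Tor d M → ℂ) (hu : n2 u ≤ S)
    (hw : n2 (hz V (E : ℂ) *ᵥ u) ≤ η ^ 2 * S) : n2 (hz V ⟨E, η⟩ *ᵥ u) ≤ 4 * η ^ 2 * S := by
  have h1 : n2 (hz V ⟨E, η⟩ *ᵥ u) ≤ 2 * n2 (hz V (E : ℂ) *ᵥ u) + 2 * η ^ 2 * n2 u := by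
    unfold n2
    rw [Finset.mul_sum, Finset.mul_sum, ← Finset.sum_add_distrib]
    refine Finset.sum_le_sum fun x _ => ?_
    rw [shift]
    have h2 := norm_sub_le ((hz V (E : ℂ) *ᵥ u) x) (Complex.I * η * u x)
    have h3 : ‖Complex.I * η * u x‖ = |η| * ‖u x‖ := by
      rw [norm_mul, norm_mul, Complex.norm_I, one_mul, Complex.norm_real, Real.norm_eq_abs]
    rw [h3] at h2
    have h4 := pow_le_pow_left₀ (norm_nonneg _) h2 2
    refine h4.trans ?_
    have h5 : η ^ 2 = |η| ^ 2 := (sq_abs η).symm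
    rw [h5]
    nlinarith only [sq_nonneg (‖(hz V (E : ℂ) *ᵥ u) x‖ - |η| * ‖u x‖)]
  nlinarith only [sq_nonneg η, mul_le_mul_of_nonneg_left hu (sq_nonneg η), hw, h1]

/-- row EGA -/
theorem ega : EgaStmt := by
  intro d M _ V E η B S C' u hη hB hu hw
  have h0 : (⟨E, η⟩ : ℂ).im ≠ 0 := hη.ne'
  have hG : rs V ⟨E, η⟩ *ᵥ (hz V ⟨E, η⟩ *ᵥ u) = u := by
    rw [Matrix.mulVec_mulVec, QD.H76.rs_mul V h0, Matrix.one_mulVec]
  have h := core (rs V ⟨E, η⟩) u (hz V ⟨E, η⟩ *ᵥ u) C' hη (ward V E hη) hG hB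
    (n2_shift V u hu hw)
  refine le_of_mul_le_mul_left (h.trans (le_of_eq ?_)) hη
  ring

end Pool.Agent.LE.QX.H91
end
end -- Pool.Agent.Helper91_LQX.EGA

section -- Pool.Agent.Helper94_LQF.BQB

/-!
# Squad LQF (MP_1906c1_mp), row BQB: the ladder `B` for all momenta
-/

set_option autoImplicit false

open MeasureTheory ProbabilityTheory Function Filter

open scoped ENNReal BigOperators Topology NNReal ComplexOrder Matrix

noncomputable section

namespace Pool.Agent.LE.QF.H94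

open Pool.Agent.Anderson hiding box mem_box card_box
open Pool.Agent.Loc Pool.Agent.Mob Pool.Agent.Helper54.Bal
  Pool.Agent.Helper96.EXP Pool.Agent.BED
open Pool.Agent.LE.MN Pool.Agent.LE.CL Pool.Agent.LE.IR Pool.Agent.LE.QD

theorem cos_two (y c : ℝ) :
    2 * Real.cos (y + c) + 2 * Real.cos (y - c) = 4 * (Real.cos y * Real.cos c) := by
  rw [Real.cos_add, Real.cos_sub]
  ring

theorem cos_sub (M : ℕ) [NeZero M] (a b : ZMod M) :
    Real.cos (2 * Real.pi * (((a - b).valMinAbs : ℤ) : ℝ) / M) =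
      Real.cos (2 * Real.pi * ((a.valMinAbs : ℤ) : ℝ) / M -
        2 * Real.pi * ((b.valMinAbs : ℤ) : ℝ) / M) := by
  have hM : (M : ℝ) ≠ 0 := Nat.cast_ne_zero.2 (NeZero.ne M)
  have h : (((a - b).valMinAbs : ℤ) : ZMod M) = ((a.valMinAbs - b.valMinAbs : ℤ) : ZMod M) := by
    push_cast
    simp only [ZMod.coe_valMinAbs]
  rw [ZMod.intCast_eq_intCast_iff_dvd_sub] at h
  obtain ⟨n, hn⟩ := h
  have e : 2 * Real.pi * ((a.valMinAbs : ℤ) : ℝ) / M - 2 * Real.pi * ((b.valMinAbs : ℤ) : ℝ) / M =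
      2 * Real.pi * (((a - b).valMinAbs : ℤ) : ℝ) / M + (n : ℝ) * (2 * Real.pi) := by
    have hn' : ((a.valMinAbs : ℤ) : ℝ) - ((b.valMinAbs : ℤ) : ℝ) -
        (((a - b).valMinAbs : ℤ) : ℝ) = (M : ℝ) * n := by exact_mod_cast hn
    field_simp
    linarith only [hn']
  rw [e, Real.cos_add_int_mul_two_pi]

variable {d M : ℕ} [NeZero M]

theorem es_eq (k : Tor d M) :
    es k = ∑ i, 2 * Real.cos (2 * Real.pi * (((k i).valMinAbs : ℤ) : ℝ) / M) := by
  rw [es, ds]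
  have h : (2 * (d : ℝ)) = ∑ _i : Fin d, (2 : ℝ) := by
    rw [Finset.sum_const, Finset.card_univ, Fintype.card_fin, nsmul_eq_mul]; ring
  rw [h, ← Finset.sum_sub_distrib]
  refine Finset.sum_congr rfl fun i _ => ?_
  ring

theorem es_add (p k : Tor d M) (r : ℝ)
    (h : ∀ i, |Real.cos (Real.pi * ((p i).valMinAbs : ℝ) / M)| < r) :
    |es k + es (p - k)| ≤ 4 * d * r := by
  rw [es_eq, es_eq, ← Finset.sum_add_distrib]
  refine (Finset.abs_sum_le_sum_abs _ _).trans ?_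
  have h1 : ∀ i ∈ (Finset.univ : Finset (Fin d)),
      |2 * Real.cos (2 * Real.pi * (((k i).valMinAbs : ℤ) : ℝ) / M) +
        2 * Real.cos (2 * Real.pi * ((((p - k) i).valMinAbs : ℤ) : ℝ) / M)| ≤ 4 * r := by
    intro i _
    rw [Pi.sub_apply, cos_sub]
    set x : ℝ := 2 * Real.pi * (((k i).valMinAbs : ℤ) : ℝ) / M with hx
    set y : ℝ := Real.pi * (((p i).valMinAbs : ℤ) : ℝ) / M with hy
    have e2 : 2 * Real.pi * (((p i).valMinAbs : ℤ) : ℝ) / M = 2 * y := by rw [hy]; ring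
    rw [e2]
    have e3 : 2 * Real.cos x + 2 * Real.cos (2 * y - x) = 4 * (Real.cos y * Real.cos (x - y)) := by
      have key := cos_two y (x - y)
      have a1 : y + (x - y) = x := by ring
      have a2 : y - (x - y) = 2 * y - x := by ring
      rw [a1, a2] at key
      exact key
    rw [e3, abs_mul, abs_mul, abs_of_pos (by norm_num : (0 : ℝ) < 4)]
    have h2 : |Real.cos y| ≤ r := (h i).le
    have h3 : |Real.cos (x - y)| ≤ 1 := Real.abs_cos_le_one _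
    have h4 : 0 ≤ |Real.cos y| := abs_nonneg _
    have h5 : 0 ≤ |Real.cos (x - y)| := abs_nonneg _
    nlinarith only [h2, h3, h4]
  refine (Finset.sum_le_sum h1).trans (le_of_eq ?_)
  rw [Finset.sum_const, Finset.card_univ, Fintype.card_fin, nsmul_eq_mul]; ring

theorem norm_sub (x : ℝ) (z : ℂ) : ‖(x : ℂ) - z‖ = Real.sqrt ((x - z.re) ^ 2 + z.im ^ 2) := by
  rw [Complex.norm_def, Complex.normSq_apply]
  congr 1
  simp only [Complex.sub_re, Complex.ofReal_re, Complex.sub_im, Complex.ofReal_im]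
  ring

theorem inv_mul_le (x y : ℝ) (z : ℂ) (hz : 0 < z.im) (hr : 0 < |z.re|) (h : |x + y| ≤ |z.re|) :
    ‖((x : ℂ) - z)⁻¹ * ((y : ℂ) - z)⁻¹‖ ≤
      (‖(x : ℂ) - z‖⁻¹ + ‖(y : ℂ) - z‖⁻¹) / |z.re| := by
  have hne : ∀ t : ℝ, (t : ℂ) - z ≠ 0 := fun t h0 => by
    have := congrArg Complex.im h0
    simp only [Complex.sub_im, Complex.ofReal_im, Complex.zero_im] at this
    linarith
  set X : ℂ := (x : ℂ) - z with hX
  set Y : ℂ := (y : ℂ) - z with hY
  have hX0 : X ≠ 0 := hne x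
  have hY0 : Y ≠ 0 := hne y
  have hs : |z.re| ≤ ‖X + Y‖ := by
    have h1 : |(X + Y).re| ≤ ‖X + Y‖ := Complex.abs_re_le_norm _
    have h2 : (X + Y).re = (x + y) - 2 * z.re := by
      rw [hX, hY]
      simp only [Complex.add_re, Complex.sub_re, Complex.ofReal_re]
      ring
    rw [h2] at h1
    have h3 : |2 * z.re| ≤ |x + y| + |(x + y) - 2 * z.re| := by
      have := abs_sub_abs_le_abs_sub (2 * z.re) (x + y)
      rw [abs_sub_comm (2 * z.re) (x + y)] at this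
      linarith
    rw [abs_mul, abs_of_pos (by norm_num : (0 : ℝ) < 2)] at h3
    linarith
  have hid : X⁻¹ * Y⁻¹ * (X + Y) = X⁻¹ + Y⁻¹ := by
    field_simp
    ring
  rw [le_div_iff₀ hr]
  calc ‖X⁻¹ * Y⁻¹‖ * |z.re| ≤ ‖X⁻¹ * Y⁻¹‖ * ‖X + Y‖ :=
        mul_le_mul_of_nonneg_left hs (norm_nonneg _)
    _ = ‖X⁻¹ + Y⁻¹‖ := by rw [← norm_mul, hid]
    _ ≤ ‖X⁻¹‖ + ‖Y⁻¹‖ := norm_add_le _ _
    _ = ‖X‖⁻¹ + ‖Y‖⁻¹ := by rw [norm_inv, norm_inv]

/-- the case of a momentum near `(π, .., π)` -/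
theorem near (z : ℂ) (p : Tor d M) (r D : ℝ) (hz : 0 < z.im) (hr : 0 < |z.re|)
    (h4 : 4 * d * r ≤ |z.re|) (h : ∀ i, |Real.cos (Real.pi * ((p i).valMinAbs : ℝ) / M)| < r)
    (hD : pm (fun k : Tor d M => (Real.sqrt ((es k - z.re) ^ 2 + z.im ^ 2))⁻¹) ≤ D) :
    ‖bh z p‖ ≤ 2 * D / |z.re| := by
  have hM : (0 : ℝ) < (M : ℝ) ^ d := by
    have : (0 : ℝ) < M := Nat.cast_pos.2 (Nat.pos_of_ne_zero (NeZero.ne M))
    positivity
  have e0 : ∀ k : Tor d M, ‖(es k : ℂ) - z‖⁻¹ =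
      (Real.sqrt ((es k - z.re) ^ 2 + z.im ^ 2))⁻¹ := fun k => by rw [norm_sub]
  have e1 : ∑ k : Tor d M, ‖(es (p - k) : ℂ) - z‖⁻¹ = ∑ k : Tor d M, ‖(es k : ℂ) - z‖⁻¹ :=
    Fintype.sum_equiv (Equiv.subLeft p) _ _ fun k => rfl
  have hD' : ∑ k : Tor d M, ‖(es k : ℂ) - z‖⁻¹ ≤ D * (M : ℝ) ^ d := by
    rw [pm, div_le_iff₀ hM] at hD
    simp only [e0]
    exact hD
  rw [bh, norm_div, norm_pow, Complex.norm_natCast, div_le_iff₀ hM]
  refine (norm_sum_le _ _).trans ?_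
  have h1 : ∀ k ∈ (Finset.univ : Finset (Tor d M)),
      ‖((es k : ℂ) - z)⁻¹ * ((es (p - k) : ℂ) - z)⁻¹‖ ≤
        (‖(es k : ℂ) - z‖⁻¹ + ‖(es (p - k) : ℂ) - z‖⁻¹) / |z.re| := fun k _ =>
    inv_mul_le _ _ z hz hr ((es_add p k r h).trans h4)
  refine (Finset.sum_le_sum h1).trans ?_
  rw [← Finset.sum_div, Finset.sum_add_distrib, e1, div_mul_eq_mul_div]
  refine div_le_div_of_nonneg_right ?_ hr.le
  linarith

theorem bqb (khb : KhbStmt) (dsu : DsuStmt) : BqbStmt := by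
  intro d hd
  obtain ⟨C₁, hC₁, h1⟩ := khb d hd
  obtain ⟨C₂, hC₂, h2⟩ := dsu d hd
  refine ⟨C₁ + 2 * C₂, by linarith only [hC₁, hC₂], ?_⟩
  intro M _ z r p hz hz2 hM hr hr1 h4
  have hl : 0 ≤ Real.log (1 / z.im) := by
    apply Real.log_nonneg
    rw [le_div_iff₀ hz]
    linarith only [hz, hz2]
  have hl1 : 0 < 1 + Real.log (1 / z.im) := by linarith only [hz, hz2, hl]
  have hd0 : (3 : ℝ) ≤ d := by exact_mod_cast hd
  have hre : 0 < |z.re| := by
    have : 0 < 4 * (d : ℝ) * r := by positivity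
    linarith only [h4, this]
  have hA : 0 ≤ Real.sqrt (z.im / r) / z.im := by positivity
  have hB : 0 ≤ 1 / |z.re| := by positivity
  by_cases hc : ∀ i, |Real.cos (Real.pi * ((p i).valMinAbs : ℝ) / M)| < r
  · have hM2 : C₂ / z.im ≤ M := by
      refine le_trans ?_ hM
      rw [div_le_div_iff₀ hz (by positivity)]
      have hzz : z.im ^ 2 ≤ z.im := by nlinarith only [hz, hz2]
      have hc2 : 0 ≤ C₂ := by linarith only [hC₂, hz, hz2]
      have hc1 : 0 ≤ C₁ := by linarith only [hC₁, hz, hz2]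
      nlinarith only [mul_le_mul_of_nonneg_left hzz hc2, mul_nonneg hc1 hz.le, mul_nonneg hc2 hz.le]
    have h3 := (h2 M z.re z.im hz (by linarith only [hz, hz2]) hM2).2
    have h5 := near z p r _ hz hre h4 hc h3
    refine h5.trans ?_
    have e1 : 2 * (C₂ * (1 + Real.log (1 / z.im))) / |z.re| =
        2 * C₂ * (1 + Real.log (1 / z.im)) * (1 / |z.re|) := by ring
    rw [e1]
    have q1 : 2 * C₂ * (1 + Real.log (1 / z.im)) ≤ (C₁ + 2 * C₂) * (1 + Real.log (1 / z.im)) :=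
      mul_le_mul_of_nonneg_right (by linarith only [hC₁, hz, hz2]) hl1.le
    have q2 : 0 ≤ (C₁ + 2 * C₂) * (1 + Real.log (1 / z.im)) :=
      mul_nonneg (by linarith only [hC₁, hC₂, hz, hz2]) hl1.le
    calc 2 * C₂ * (1 + Real.log (1 / z.im)) * (1 / |z.re|)
        ≤ (C₁ + 2 * C₂) * (1 + Real.log (1 / z.im)) * (1 / |z.re|) :=
          mul_le_mul_of_nonneg_right q1 hB
      _ ≤ (C₁ + 2 * C₂) * (1 + Real.log (1 / z.im)) *
          (Real.sqrt (z.im / r) / z.im + 1 / |z.re|) :=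
          mul_le_mul_of_nonneg_left (by linarith only [hA]) q2
  · push Not at hc
    obtain ⟨i, hi⟩ := hc
    have hM1 : C₁ / z.im ^ 2 ≤ M := by
      refine le_trans ?_ hM
      exact div_le_div_of_nonneg_right (by linarith only [hC₂, hz, hz2]) (by positivity)
    have h3 := (h1 M z p i hz hz2 hM1).2
    refine h3.trans ?_
    have q0 : Real.sqrt (z.im / (z.im + |Real.cos (Real.pi * ((p i).valMinAbs : ℝ) / M)|)) ≤
        Real.sqrt (z.im / r) := by
      apply Real.sqrt_le_sqrt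
      apply div_le_div_of_nonneg_left hz.le hr
      linarith only [hz, hi]
    have hq : 0 ≤ C₁ * (1 + Real.log (1 / z.im)) := mul_nonneg (by linarith only [hC₁, hz, hz2]) hl1.le
    have q1 : C₁ * (1 + Real.log (1 / z.im)) ≤ (C₁ + 2 * C₂) * (1 + Real.log (1 / z.im)) :=
      mul_le_mul_of_nonneg_right (by linarith only [hC₂, hz, hz2]) hl1.le
    calc C₁ * (1 + Real.log (1 / z.im)) / z.im *
          Real.sqrt (z.im / (z.im + |Real.cos (Real.pi * ((p i).valMinAbs : ℝ) / M)|))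
        ≤ C₁ * (1 + Real.log (1 / z.im)) / z.im * Real.sqrt (z.im / r) :=
          mul_le_mul_of_nonneg_left q0 (div_nonneg hq hz.le)
      _ = C₁ * (1 + Real.log (1 / z.im)) * (Real.sqrt (z.im / r) / z.im) := by ring
      _ ≤ (C₁ + 2 * C₂) * (1 + Real.log (1 / z.im)) *
          (Real.sqrt (z.im / r) / z.im + 1 / |z.re|) :=
          mul_le_mul q1 (by linarith only [hB]) hA (le_trans hq q1)

end Pool.Agent.LE.QF.H94
end
end -- Pool.Agent.Helper94_LQF.BQB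

section -- Pool.Agent.Helper54_LQX.All

/-!
# Diffusion down to `exp (- |σ|^{-θ})`: assembly
-/

set_option autoImplicit false

open MeasureTheory ProbabilityTheory

noncomputable section

namespace Pool.Agent.LE.QX.H54

open Pool.Agent.BED Pool.Agent.LE.CL Pool.Agent.LE.IR Pool.Agent.LE.QD Pool.Agent.LE.QF

theorem jalT : JalStmt := QF.H77.jal

theorem jmaT : JmaStmt := QF.H32.jma jalT

theorem ytjT : YtjStmt := QF.H27.ytj jalT jmaT QF.H41.tri

theorem uflT : UflStmt := QF.H70.ufl jalT (QF.H2.flw QD.H65.ste)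

theorem jtbT : JtbStmt := QF.H8.jtb jalT

theorem jtpT : JtpStmt := QF.H70.jtp jalT jmaT jtbT

theorem jtxT : JtxStmt := QF.H85.jtx jalT jmaT

theorem jtlT : JtlStmt := QF.H16.jtl jalT jtbT

theorem phbT : PhbStmt := QF.H65.phb QF.H81.nrb

theorem xhbT : XhbStmt := QF.H91.xhb QF.H81.nrb

theorem wfbT : WfbStmt := QF.H62.wfb QF.H81.nrb

theorem pwuT : PwuStmt := QF.H67.pwu jalT

theorem ytuT : YtuStmt := QF.H45.ytu ytjT jalT

theorem lmuT : LmuStmt := QF.H65.lmu jalT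

theorem wtuT : WtuStmt := QF.H40.wtu jalT jmaT QF.H41.tri QF.H20.wab

theorem kftT : KftStmt := QF.H49.kft QD.H93.ralT QF.H69.fmu IR.H54.ftb

theorem khbT : KhbStmt := QF.H8.khb QF.H32.jcb

theorem bqbT : BqbStmt := QF.H94.bqb khbT QD.H38.dsu

theorem galT : GalStmt := QF.H94.gal QD.H93.gapT QD.H69.dsl QD.H38.dsu QD.H93.ralT IR.H54.ftb

theorem frbT : FrbStmt :=
  QF.H88.frb (QD.H46.bkt QD.H45.bes QD.H90.be2 QD.H89.tor) QD.H93.sobT QD.H38.dsu QD.H93.ralT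

theorem mbrT : MbrStmt := QF.H68.mbr QD.H69.dsl QD.H38.dsu khbT QD.H93.ralT

theorem inmT : InmStmt := QF.H49.inm QF.H69.fmu QF.H17.low_

theorem inwT : InwStmt := QF.H34.inw kftT QF.H69.fmu

theorem lmbT : QX.LmbStmt := QX.H22L.lmb QF.H81.nrb

theorem nnuT : QX.NnuStmt := QX.H32.nnu QF.H20.wab

theorem rsjT : QX.RsjStmt := QX.H56.rsj jalT jmaT

theorem godT : QX.GodStmt := QX.H5.god nnuT rsjT QF.H2.gdc QF.H41.thb QF.H20.wab

theorem upaT : QX.UpaStmt := QX.H56.upa jtpT jtxT phbT xhbT pwuT rsjT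

theorem upbT : QX.UpbStmt := QX.H87.upb jtbT QF.H81.nrb ytuT rsjT

theorem upcT : QX.UpcStmt := QX.H69.upc jtlT lmbT lmuT rsjT

theorem updT : QX.UpdStmt := QX.H38.upd jtbT wfbT wtuT rsjT nnuT

theorem usmT : QX.UsmStmt := QX.H76.usm jmaT QF.H20.wab nnuT rsjT

theorem uprT : QX.UprStmt := QX.H67.upr uflT usmT nnuT godT upaT upbT upcT updT QF.H20.wab

theorem outT : QX.OutStmt := QX.H38.out godT QF.H20.wab

theorem mssT : MssStmt := QF.H54.mss QF.H69.fmu QF.H17.low_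

theorem iniT : QX.IniStmt :=
  QX.H68.ini mbrT frbT bqbT galT khbT inmT inwT mssT kftT QD.H93.ralT

theorem tofT : QX.TofStmt := QX.H30.tof iniT uprT outT

theorem cpzT : QX.CpzStmt := QX.H54.cpz tofT QD.H23.gro (QD.H72.cls (QD.H59.hsc CL.H17.laq))

theorem qxfT : QX.QxfStmt := QX.H13.qxf cpzT CL.H54.crgT

theorem egbT : QX.EgbStmt := QX.H90.egb QX.H91.ega

theorem eigT : QX.EigStmt := QX.H94.eig tofT egbT

end Pool.Agent.LE.QX.H54
end
end -- Pool.Agent.Helper54_LQX.All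

section -- Pool.Agent.Helper89_QDA.Stm

/-!
# QDA, row STM: the self energy does not depend on the torus nor on the tiny absorption
-/

set_option autoImplicit false

open MeasureTheory ProbabilityTheory Function Filter

open scoped BigOperators NNReal ENNReal Matrix InnerProductSpace Topology

noncomputable section

namespace Pool.Agent.QDA.H89

open Pool.Agent.Anderson hiding box mem_box card_box
open Pool.Agent.Loc Pool.Agent.Mob Pool.Agent.Helper54.Bal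
  Pool.Agent.Helper96.EXP Pool.Agent.BED
open Pool.Agent.LE.MN Pool.Agent.LE.CL Pool.Agent.LE.IR Pool.Agent.LE.QD
open Pool.Agent.LE.QF Pool.Agent.LE.QF.H68

/-- the strip -/
def Kst (q : ℝ) : Set ℂ := {z | q ≤ z.im ∧ z.im ≤ 1 / 2}

theorem Kst_convex (q : ℝ) : Convex ℝ (Kst q) := by
  have h1 : Convex ℝ {m : ℂ | q ≤ m.im} := convex_halfSpace_im_ge q
  have h2 : Convex ℝ {m : ℂ | m.im ≤ 1 / 2} := convex_halfSpace_im_le (1 / 2)
  exact h1.inter h2

theorem exp_neg_le {x : ℝ} (hx : 0 < x) : Real.exp (-x) ≤ 1 / x := by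
  rw [Real.exp_neg, ← one_div]
  have h := Real.add_one_le_exp x
  exact one_div_le_one_div_of_le hx (by linarith)

/-- the lattice and the torus, in the strip -/
theorem ctz_small {d : ℕ} {C : ℝ} (hC : 1 ≤ C)
    (h : ∀ (M : ℕ) [NeZero M] (V : Site d → ℝ) (E η : ℝ), 0 < η → η ≤ 1 →
      ‖G V (zz η E) (del 0) 0 - rs (fun x : Tor d M => V (rep x)) ⟨E, η⟩ 0 0‖ ≤
        C / η ^ 2 * Real.exp (-(η * M / C)))
    (ral : RalStmt) {q δ : ℝ} (hq : 0 < q) (hδ : 0 < δ) {M : ℕ} [NeZero M]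
    (hM : 8 * C ^ 2 / (q ^ 3 * δ) ≤ M) {ζ : ℂ} (h1 : q ≤ ζ.im) (h2 : ζ.im ≤ 1 / 2) :
    ‖G (0 : Site d → ℝ) (zz ζ.im ζ.re) (del 0) 0 - Fz d M ζ‖ ≤ δ / 8 := by
  have hw : 0 < ζ.im := hq.trans_le h1
  have h3 := h M 0 ζ.re ζ.im hw (by linarith)
  have h4 : rs (fun x : Tor d M => (0 : Site d → ℝ) (rep x)) ⟨ζ.re, ζ.im⟩ 0 0 = Fz d M ζ := by
    have h5 := rs_diag ral ζ hw (0 : Tor d M)
    exact h5
  rw [h4] at h3
  refine h3.trans ?_
  have hM0 : (0 : ℝ) < M := by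
    have : 0 < M := Nat.pos_of_ne_zero (NeZero.ne M)
    exact_mod_cast this
  have h6 : Real.exp (-(ζ.im * M / C)) ≤ 1 / (q * M / C) := by
    refine (exp_neg_le (by positivity)).trans ?_
    apply one_div_le_one_div_of_le (by positivity)
    gcongr
  calc C / ζ.im ^ 2 * Real.exp (-(ζ.im * M / C)) ≤ C / q ^ 2 * (1 / (q * M / C)) := by
        gcongr
    _ = C ^ 2 / (q ^ 3 * M) := by
        field_simp
    _ ≤ δ / 8 := by
        rw [div_le_div_iff₀ (by positivity) (by norm_num)]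
        rw [div_le_iff₀ (by positivity)] at hM
        nlinarith only [hM]

theorem stm' (khb : KhbStmt) (ral : RalStmt) (ctz : ANE.CtzStmt) : StmStmt := by
  intro d a b δ hd _ hb hδ
  obtain ⟨CK, hCK, h3⟩ := khb d hd
  obtain ⟨CZ, hCZ, h4⟩ := ctz d
  have hCK0 : 0 < CK := by linarith only [hCK]
  have hCZ0 : 0 < CZ := by linarith
  set U : ℝ := min 1 (b / (8 * CK)) with hU
  have hU0 : 0 < U := lt_min one_pos (by positivity)
  refine ⟨min (b / 4) (U ^ 4 / b), lt_min (by positivity) (by positivity), ?_⟩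
  intro T hT hTT
  have hT1 : T ≤ b / 4 := hTT.trans (min_le_left _ _)
  have hT2 : T ≤ U ^ 4 / b := hTT.trans (min_le_right _ _)
  set q : ℝ := b * T with hq
  have hq0 : 0 < q := by positivity
  obtain ⟨M₁, hM₁⟩ := exists_nat_ge (max (CK / q ^ 2) (8 * CZ ^ 2 / (q ^ 3 * δ)))
  refine ⟨min (1 / 4) (δ * T / 8), M₁, lt_min (by norm_num) (by positivity), ?_⟩
  intro M M' _ _ E E' η η' m m' hM hM' _ _ hEE hη hη1 hη' hη1' hm1 hm2 hm1' hm2' hm hm'
  have hMr : (M₁ : ℝ) ≤ M := by exact_mod_cast hM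
  have hMr' : (M₁ : ℝ) ≤ M' := by exact_mod_cast hM'
  -- the points
  have pt : ∀ (E η : ℝ) (m : ℂ), 0 < η → η ≤ min (1 / 4) (δ * T / 8) → b ≤ m.im → ‖m‖ ≤ 1 / b →
      (⟨E, η⟩ + (T : ℂ) * m : ℂ) ∈ Kst q := by
    intro E η m h1 h2 h5 h6
    have him : (⟨E, η⟩ + (T : ℂ) * m : ℂ).im = η + T * m.im := by simp
    have h7 : m.im ≤ 1 / b := (le_abs_self _).trans ((Complex.abs_im_le_norm m).trans h6)
    have h0 : 0 ≤ m.im := hb.le.trans h5
    have h8 : T * m.im ≤ b / 4 * (1 / b) := by gcongr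
    have h9 : b / 4 * (1 / b) = 1 / 4 := by field_simp
    have h10 : η ≤ 1 / 4 := h2.trans (min_le_left _ _)
    have h11 : b * T ≤ T * m.im := by
      rw [mul_comm]
      gcongr
    constructor
    · rw [him, hq]
      linarith only [h1, h11]
    · rw [him]
      linarith only [h8, h9, h10]
  have hz := pt E η m hη hη1 hm1 hm2
  have hz' := pt E' η' m' hη' hη1' hm1' hm2'
  set ζ : ℂ := ⟨E, η⟩ + (T : ℂ) * m with hζ
  set ζ' : ℂ := ⟨E', η'⟩ + (T : ℂ) * m' with hζ'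
  have hw : 0 < ζ.im := hq0.trans_le hz.1
  have hw' : 0 < ζ'.im := hq0.trans_le hz'.1
  rw [rs_diag ral ζ hw] at hm
  rw [rs_diag ral ζ' hw'] at hm'
  -- the derivative
  have hder : ∀ z ∈ Kst q, ‖bh z (0 : Tor d M)‖ ≤ 1 / (2 * T) := by
    intro z hz
    have hz0 : 0 < z.im := hq0.trans_le hz.1
    have h5 : CK / z.im ^ 2 ≤ M := by
      refine le_trans ?_ (((le_max_left _ _).trans hM₁).trans hMr)
      have := hz.1
      gcongr
    have h6 := (h3 M z 0 ⟨0, by omega⟩ hz0 hz.2 h5).2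
    have h7 : |Real.cos (Real.pi * ((((0 : Tor d M) ⟨0, by omega⟩).valMinAbs : ℤ) : ℝ) / M)| = 1 := by
      simp
    rw [h7] at h6
    set u : ℝ := Real.sqrt (Real.sqrt q) with hu
    have hu0 : 0 < u := Real.sqrt_pos.2 (Real.sqrt_pos.2 hq0)
    have hu4 : u ^ 4 = b * T := by
      have h8 : u ^ 2 = Real.sqrt q := Real.sq_sqrt (Real.sqrt_nonneg _)
      have h9 : Real.sqrt q ^ 2 = q := Real.sq_sqrt hq0.le
      calc u ^ 4 = (u ^ 2) ^ 2 := by ring
        _ = b * T := by rw [h8, h9]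
    have huU : u ≤ U := by
      have h8 : u ^ 4 ≤ U ^ 4 := by
        rw [hu4]
        rw [le_div_iff₀ hb] at hT2
        linarith only [hT2]
      exact (pow_le_pow_iff_left₀ hu0.le hU0.le (by norm_num)).1 h8
    have hlog : 0 ≤ Real.log (1 / z.im) := by
      apply Real.log_nonneg
      rw [le_div_iff₀ hz0]
      linarith only [hz.2]
    have h9 : 1 + Real.log (1 / z.im) ≤ 4 / u := by
      refine le_trans ?_ (log_le_u hu0)
      have h10 : Real.log (1 / z.im) ≤ Real.log (1 / u ^ 4) := by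
        apply Real.log_le_log (by positivity)
        rw [hu4]
        exact one_div_le_one_div_of_le hq0 hz.1
      linarith only [h10]
    have h10 := bd_le hb hCK0 hT.le hz0 (by linarith only [hlog] : 0 ≤ 1 + Real.log (1 / z.im)) hu0 hu4 h9
      (huU.trans (min_le_right _ _)) hz.1 h6
    rw [le_div_iff₀ (by positivity)]
    linarith
  have hlip := (Kst_convex q).norm_image_sub_le_of_norm_hasDerivWithin_le
    (f := Fz d M) (f' := fun z => bh z (0 : Tor d M)) (C := 1 / (2 * T))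
    (fun z hz => (Fz_deriv (hq0.trans_le hz.1)).hasDerivWithinAt) hder hz' hz
  -- the two tori
  have hMa : 8 * CZ ^ 2 / (q ^ 3 * δ) ≤ M := ((le_max_right _ _).trans hM₁).trans hMr
  have hMb : 8 * CZ ^ 2 / (q ^ 3 * δ) ≤ M' := ((le_max_right _ _).trans hM₁).trans hMr'
  have h5 := ctz_small hCZ h4 ral hq0 hδ hMa hz'.1 hz'.2
  have h6 := ctz_small hCZ h4 ral hq0 hδ hMb hz'.1 hz'.2
  have h7 : ‖Fz d M ζ' - Fz d M' ζ'‖ ≤ δ / 4 := by
    have h8 : Fz d M ζ' - Fz d M' ζ' =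
        (G (0 : Site d → ℝ) (zz ζ'.im ζ'.re) (del 0) 0 - Fz d M' ζ') -
          (G (0 : Site d → ℝ) (zz ζ'.im ζ'.re) (del 0) 0 - Fz d M ζ') := by ring
    rw [h8]
    refine (norm_sub_le _ _).trans ?_
    linarith
  have h8 : ‖ζ - ζ'‖ ≤ 2 * (δ * T / 8) + T * ‖m - m'‖ := by
    have h9 : ζ - ζ' = (((E - E' : ℝ) : ℂ) + ((η - η' : ℝ) : ℂ) * Complex.I) +
        (T : ℂ) * (m - m') := by
      rw [hζ, hζ']
      apply Complex.ext <;> simp <;> ring
    rw [h9]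
    refine (norm_add_le _ _).trans (add_le_add ((norm_add_le _ _).trans ?_) ?_)
    · rw [norm_mul, Complex.norm_I, mul_one, Complex.norm_real, Complex.norm_real,
        Real.norm_eq_abs, Real.norm_eq_abs]
      have h10 : |η - η'| ≤ min (1 / 4) (δ * T / 8) := by
        rw [abs_le]
        constructor <;> linarith
      have h11 : min (1 / 4) (δ * T / 8) ≤ δ * T / 8 := min_le_right _ _
      linarith only [hEE, h10, h11]
    · rw [norm_mul, Complex.norm_real, Real.norm_of_nonneg hT.le]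
  have h9 : ‖m - m'‖ ≤ 1 / (2 * T) * (2 * (δ * T / 8) + T * ‖m - m'‖) + δ / 4 := by
    have h10 : m - m' = (Fz d M ζ - Fz d M ζ') + (Fz d M ζ' - Fz d M' ζ') := by
      rw [hm, hm']
      ring
    calc ‖m - m'‖ = ‖(Fz d M ζ - Fz d M ζ') + (Fz d M ζ' - Fz d M' ζ')‖ := by rw [← h10]
      _ ≤ ‖Fz d M ζ - Fz d M ζ'‖ + ‖Fz d M ζ' - Fz d M' ζ'‖ := norm_add_le _ _
      _ ≤ 1 / (2 * T) * ‖ζ - ζ'‖ + δ / 4 := add_le_add hlip h7
      _ ≤ _ := by gcongr
  have h10 : 1 / (2 * T) * (2 * (δ * T / 8) + T * ‖m - m'‖) = δ / 8 + ‖m - m'‖ / 2 := by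
    field_simp
  rw [h10] at h9
  linarith only [hδ, h9]

theorem stm : StmStmt :=
  stm' (Pool.Agent.LE.QF.H8.khb Pool.Agent.LE.QF.H32.jcb)
    (Pool.Agent.LE.QD.H76.ral Pool.Agent.LE.IR.H54.ftb) Pool.Agent.ANE.H72.ctz

end Pool.Agent.QDA.H89
end
end -- Pool.Agent.Helper89_QDA.Stm

section -- Pool.Agent.Helper24_QDA.Guc

/-!
# QDA, row GUC: the free Green function is bounded and Hoelder continuous
-/

set_option autoImplicit false

open MeasureTheory ProbabilityTheory Function Filter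

open scoped BigOperators NNReal ENNReal Matrix InnerProductSpace Topology

noncomputable section

namespace Pool.Agent.QDA.H24

open Pool.Agent.Anderson hiding box mem_box card_box
open Pool.Agent.Loc Pool.Agent.Mob Pool.Agent.Helper54.Bal
  Pool.Agent.Helper96.EXP Pool.Agent.BED
open Pool.Agent.LE.MN Pool.Agent.LE.CL Pool.Agent.LE.IR Pool.Agent.LE.QD
open Pool.Agent.LE.QF Pool.Agent.LE.QF.H68

/-- the derivative -/
theorem bh_bound (khb : KhbStmt) {d : ℕ} (hd : 3 ≤ d) : ∃ C : ℝ, 1 ≤ C ∧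
    ∀ (M : ℕ) [NeZero M] (z : ℂ) (u : ℝ), 0 < u → z.im = u ^ 4 → z.im ≤ 1 / 2 →
      C / z.im ^ 2 ≤ M → ‖bh z (0 : Tor d M)‖ ≤ C / u ^ 3 := by
  obtain ⟨CK, hCK, h⟩ := khb d hd
  refine ⟨4 * CK, by linarith only [hCK], ?_⟩
  intro M _ z u hu hz hz2 hM
  have hw : 0 < z.im := by rw [hz]; positivity
  have h5 : CK / z.im ^ 2 ≤ M := by
    refine le_trans ?_ hM
    have : CK ≤ 4 * CK := by linarith only [hCK, hz2, hw]
    gcongr
  have h6 := (h M z 0 ⟨0, by omega⟩ hw hz2 h5).2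
  have h7 : |Real.cos (Real.pi * ((((0 : Tor d M) ⟨0, by omega⟩).valMinAbs : ℤ) : ℝ) / M)| = 1 := by
    simp
  rw [h7] at h6
  have h8 : Real.sqrt (z.im / (z.im + 1)) ≤ u ^ 2 := by
    rw [Real.sqrt_le_left (by positivity)]
    have h9 : z.im / (z.im + 1) ≤ z.im := div_le_self hw.le (by linarith only [hw])
    calc z.im / (z.im + 1) ≤ z.im := h9
      _ = (u ^ 2) ^ 2 := by rw [hz]; ring
  have h10 : 1 + Real.log (1 / z.im) ≤ 4 / u := by
    rw [hz]
    exact log_le_u hu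
  have hlog : 0 ≤ 1 + Real.log (1 / z.im) := by
    have : 0 ≤ Real.log (1 / z.im) := by
      apply Real.log_nonneg
      rw [le_div_iff₀ hw]
      linarith only [hz2, hw]
    linarith only [hz2, hw, this]
  calc ‖bh z (0 : Tor d M)‖ ≤ CK * (1 + Real.log (1 / z.im)) / z.im *
        Real.sqrt (z.im / (z.im + 1)) := h6
    _ ≤ CK * (4 / u) / z.im * u ^ 2 := by
        gcongr
    _ = 4 * CK / u ^ 3 := by
        rw [hz]
        field_simp

/-- vertical -/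
theorem vert {d : ℕ} {C : ℝ}
    (h : ∀ (M : ℕ) [NeZero M] (z : ℂ) (u : ℝ), 0 < u → z.im = u ^ 4 → z.im ≤ 1 / 2 →
      C / z.im ^ 2 ≤ M → ‖bh z (0 : Tor d M)‖ ≤ C / u ^ 3) (hC : 1 ≤ C)
    (M : ℕ) [NeZero M] (E a b : ℝ) (ha : 0 < a) (hab : a ≤ b) (hb : b ^ 4 ≤ 1 / 2)
    (hM : C / (a ^ 4) ^ 2 ≤ M) :
    ‖Fz d M ((E : ℂ) + ((b ^ 4 : ℝ) : ℂ) * Complex.I) -
      Fz d M ((E : ℂ) + ((a ^ 4 : ℝ) : ℂ) * Complex.I)‖ ≤ 4 * C * (b - a) := by
  have him : ∀ s : ℝ, ((E : ℂ) + ((s ^ 4 : ℝ) : ℂ) * Complex.I).im = s ^ 4 := by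
    intro s
    simp [← Complex.ofReal_pow]
  have hpath : ∀ s : ℝ, HasDerivAt (fun s : ℝ => (E : ℂ) + ((s ^ 4 : ℝ) : ℂ) * Complex.I)
      (((4 * s ^ 3 : ℝ) : ℂ) * Complex.I) s := by
    intro s
    have h1 : HasDerivAt (fun s : ℝ => s ^ 4) (4 * s ^ 3) s := by
      simpa using hasDerivAt_pow 4 s
    exact (h1.ofReal_comp.mul_const Complex.I).const_add (E : ℂ)
  have hf : ∀ s ∈ Set.Icc a b, HasDerivWithinAt
      (fun s : ℝ => Fz d M ((E : ℂ) + ((s ^ 4 : ℝ) : ℂ) * Complex.I))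
      ((((4 * s ^ 3 : ℝ) : ℂ) * Complex.I) •
        bh ((E : ℂ) + ((s ^ 4 : ℝ) : ℂ) * Complex.I) (0 : Tor d M)) (Set.Icc a b) s := by
    intro s hs
    have hs0 : 0 < s := ha.trans_le hs.1
    have h1 : 0 < ((E : ℂ) + ((s ^ 4 : ℝ) : ℂ) * Complex.I).im := by
      rw [him]
      positivity
    exact (HasDerivAt.scomp s (Fz_deriv h1) (hpath s)).hasDerivWithinAt
  have hbd : ∀ s ∈ Set.Icc a b, ‖(((4 * s ^ 3 : ℝ) : ℂ) * Complex.I) •
      bh ((E : ℂ) + ((s ^ 4 : ℝ) : ℂ) * Complex.I) (0 : Tor d M)‖ ≤ 4 * C := by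
    intro s hs
    have hs0 : 0 < s := ha.trans_le hs.1
    have h1 : s ^ 4 ≤ 1 / 2 := (pow_le_pow_left₀ hs0.le hs.2 4).trans hb
    have h2 := h M ((E : ℂ) + ((s ^ 4 : ℝ) : ℂ) * Complex.I) s hs0 (him s) (by rw [him]; exact h1)
      (by
        rw [him]
        refine le_trans ?_ hM
        have : a ^ 4 ≤ s ^ 4 := pow_le_pow_left₀ ha.le hs.1 4
        gcongr)
    rw [norm_smul, norm_mul, Complex.norm_I, mul_one, Complex.norm_real,
      Real.norm_of_nonneg (by positivity : (0 : ℝ) ≤ 4 * s ^ 3)]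
    calc 4 * s ^ 3 * ‖bh ((E : ℂ) + ((s ^ 4 : ℝ) : ℂ) * Complex.I) (0 : Tor d M)‖
        ≤ 4 * s ^ 3 * (C / s ^ 3) := by gcongr
      _ = 4 * C := by field_simp
  have h3 := (convex_Icc a b).norm_image_sub_le_of_norm_hasDerivWithin_le hf hbd
    (Set.left_mem_Icc.2 hab) (Set.right_mem_Icc.2 hab)
  rwa [Real.norm_of_nonneg (by linarith only [hab] : 0 ≤ b - a)] at h3

/-- horizontal -/
theorem horiz {d : ℕ} {C : ℝ}
    (h : ∀ (M : ℕ) [NeZero M] (z : ℂ) (u : ℝ), 0 < u → z.im = u ^ 4 → z.im ≤ 1 / 2 →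
      C / z.im ^ 2 ≤ M → ‖bh z (0 : Tor d M)‖ ≤ C / u ^ 3)
    (M : ℕ) [NeZero M] (E E' u : ℝ) (hu : 0 < u) (hb : u ^ 4 ≤ 1 / 2)
    (hM : C / (u ^ 4) ^ 2 ≤ M) :
    ‖Fz d M ((E : ℂ) + ((u ^ 4 : ℝ) : ℂ) * Complex.I) -
      Fz d M ((E' : ℂ) + ((u ^ 4 : ℝ) : ℂ) * Complex.I)‖ ≤ C / u ^ 3 * |E - E'| := by
  have him : ∀ E : ℝ, ((E : ℂ) + ((u ^ 4 : ℝ) : ℂ) * Complex.I).im = u ^ 4 := by
    intro E
    simp [← Complex.ofReal_pow]
  have hcv : Convex ℝ {z : ℂ | z.im = u ^ 4} := by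
    have h1 : {z : ℂ | z.im = u ^ 4} = {z : ℂ | u ^ 4 ≤ z.im} ∩ {z : ℂ | z.im ≤ u ^ 4} := by
      ext z
      simp only [Set.mem_setOf_eq, Set.mem_inter_iff]
      constructor
      · intro hz
        exact ⟨hz.ge, hz.le⟩
      · intro hz
        exact le_antisymm hz.2 hz.1
    rw [h1]
    exact (convex_halfSpace_im_ge (u ^ 4)).inter (convex_halfSpace_im_le (u ^ 4))
  have h3 := hcv.norm_image_sub_le_of_norm_hasDerivWithin_le
    (f := Fz d M) (f' := fun z => bh z (0 : Tor d M)) (C := C / u ^ 3)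
    (fun z hz => (Fz_deriv (by
      have hz' : z.im = u ^ 4 := hz
      rw [hz']
      positivity)).hasDerivWithinAt)
    (fun z hz => by
      have hz' : z.im = u ^ 4 := hz
      exact h M z u hu hz' (by rw [hz']; exact hb) (by rw [hz']; exact hM))
    (him E') (him E)
  refine h3.trans ?_
  have h4 : (E : ℂ) + ((u ^ 4 : ℝ) : ℂ) * Complex.I - ((E' : ℂ) + ((u ^ 4 : ℝ) : ℂ) * Complex.I) =
      ((E - E' : ℝ) : ℂ) := by
    push_cast
    ring
  rw [h4, Complex.norm_real, Real.norm_eq_abs]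

/-- the Hoelder bound on the torus -/
theorem Fz_holder {d : ℕ} {C : ℝ}
    (h : ∀ (M : ℕ) [NeZero M] (z : ℂ) (u : ℝ), 0 < u → z.im = u ^ 4 → z.im ≤ 1 / 2 →
      C / z.im ^ 2 ≤ M → ‖bh z (0 : Tor d M)‖ ≤ C / u ^ 3) (hC : 1 ≤ C)
    (z z' : ℂ) (hz : 0 < z.im) (hz' : 0 < z'.im) (hz2 : z.im ≤ 1 / 2) (hz2' : z'.im ≤ 1 / 2)
    (hne : 0 < ‖z - z'‖) (h12 : ‖z - z'‖ ≤ 1 / 2)
    (M : ℕ) [NeZero M] (hM : C / z.im ^ 2 ≤ M) (hM' : C / z'.im ^ 2 ≤ M) :
    ‖Fz d M z - Fz d M z'‖ ≤ 9 * C * ‖z - z'‖ ^ (1 / 4 : ℝ) := by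
  set r : ℝ := ‖z - z'‖ with hr
  -- fourth roots
  have root : ∀ x : ℝ, 0 < x → ∃ u : ℝ, 0 < u ∧ u ^ 4 = x := by
    intro x hx
    refine ⟨x ^ (1 / 4 : ℝ), Real.rpow_pos_of_pos hx _, ?_⟩
    rw [← Real.rpow_natCast, ← Real.rpow_mul hx.le]
    norm_num
  set v : ℝ := r ^ (1 / 4 : ℝ) with hv
  have hv0 : 0 < v := Real.rpow_pos_of_pos hne _
  have hv4 : v ^ 4 = r := by
    rw [hv, ← Real.rpow_natCast, ← Real.rpow_mul hne.le]
    norm_num
  have hh0 : 0 < max (max z.im z'.im) r := lt_max_of_lt_right hne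
  obtain ⟨b, hb0, hb4⟩ := root _ hh0
  obtain ⟨a, ha0, ha4⟩ := root _ hz
  obtain ⟨a', ha0', ha4'⟩ := root _ hz'
  have hb2 : b ^ 4 ≤ 1 / 2 := by
    rw [hb4]
    exact max_le (max_le hz2 hz2') h12
  have hab : a ≤ b := by
    have : a ^ 4 ≤ b ^ 4 := by
      rw [ha4, hb4]
      exact (le_max_left _ _).trans (le_max_left _ _)
    exact (pow_le_pow_iff_left₀ ha0.le hb0.le (by norm_num)).1 this
  have hab' : a' ≤ b := by
    have : a' ^ 4 ≤ b ^ 4 := by
      rw [ha4', hb4]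
      exact (le_max_right _ _).trans (le_max_left _ _)
    exact (pow_le_pow_iff_left₀ ha0'.le hb0.le (by norm_num)).1 this
  have hvb : v ≤ b := by
    have : v ^ 4 ≤ b ^ 4 := by
      rw [hv4, hb4]
      exact le_max_right _ _
    exact (pow_le_pow_iff_left₀ hv0.le hb0.le (by norm_num)).1 this
  have him : |z.im - z'.im| ≤ r := by
    rw [hr, ← Complex.sub_im]
    exact Complex.abs_im_le_norm _
  have hre : |z.re - z'.re| ≤ r := by
    rw [hr, ← Complex.sub_re]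
    exact Complex.abs_re_le_norm _
  have hbr : b ^ 4 ≤ a ^ 4 + v ^ 4 := by
    rw [hb4, ha4, hv4]
    have := abs_le.1 him
    exact max_le (max_le (by linarith only [hne]) (by linarith only [this])) (by linarith only [hz])
  have hbr' : b ^ 4 ≤ a' ^ 4 + v ^ 4 := by
    rw [hb4, ha4', hv4]
    have := abs_le.1 him
    exact max_le (max_le (by linarith only [this]) (by linarith only [hne])) (by linarith only [hz'])
  have sub4 : ∀ x y : ℝ, 0 < x → 0 < y → b ^ 4 ≤ x ^ 4 + y ^ 4 → b ≤ x + y := by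
    intro x y hx hy hxy
    have h1 : b ^ 4 ≤ (x + y) ^ 4 := by
      refine hxy.trans ?_
      have e : (x + y) ^ 4 = x ^ 4 + y ^ 4 + (4 * x ^ 3 * y + 6 * x ^ 2 * y ^ 2 + 4 * x * y ^ 3) := by
        ring
      rw [e]
      have : 0 ≤ 4 * x ^ 3 * y + 6 * x ^ 2 * y ^ 2 + 4 * x * y ^ 3 := by positivity
      linarith only [this]
    exact (pow_le_pow_iff_left₀ hb0.le (by positivity) (by norm_num)).1 h1
  have hd1 := sub4 a v ha0 hv0 hbr
  have hd2 := sub4 a' v ha0' hv0 hbr'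
  have e1 : z = (z.re : ℂ) + ((a ^ 4 : ℝ) : ℂ) * Complex.I := by
    rw [ha4, Complex.re_add_im]
  have e2 : z' = (z'.re : ℂ) + ((a' ^ 4 : ℝ) : ℂ) * Complex.I := by
    rw [ha4', Complex.re_add_im]
  have h1 := vert h hC M z.re a b ha0 hab hb2 (by rw [ha4]; exact hM)
  have h2 := vert h hC M z'.re a' b ha0' hab' hb2 (by rw [ha4']; exact hM')
  have h3 := horiz h M z.re z'.re b hb0 hb2 (by
    refine le_trans ?_ hM
    have h4 : z.im ≤ b ^ 4 := by rw [hb4]; exact (le_max_left _ _).trans (le_max_left _ _)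
    gcongr)
  rw [← e1] at h1
  rw [← e2] at h2
  have h4 : C / b ^ 3 * |z.re - z'.re| ≤ C * v := by
    have h5 : |z.re - z'.re| ≤ b ^ 3 * v := by
      refine hre.trans ?_
      rw [← hv4]
      have h6 : v ^ 3 ≤ b ^ 3 := pow_le_pow_left₀ hv0.le hvb 3
      calc v ^ 4 = v ^ 3 * v := by ring
        _ ≤ b ^ 3 * v := mul_le_mul_of_nonneg_right h6 hv0.le
    calc C / b ^ 3 * |z.re - z'.re| ≤ C / b ^ 3 * (b ^ 3 * v) := by gcongr
      _ = C * v := by field_simp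
  have h5 : Fz d M z - Fz d M z' =
      -(Fz d M ((z.re : ℂ) + ((b ^ 4 : ℝ) : ℂ) * Complex.I) - Fz d M z) +
      (Fz d M ((z.re : ℂ) + ((b ^ 4 : ℝ) : ℂ) * Complex.I) -
        Fz d M ((z'.re : ℂ) + ((b ^ 4 : ℝ) : ℂ) * Complex.I)) +
      (Fz d M ((z'.re : ℂ) + ((b ^ 4 : ℝ) : ℂ) * Complex.I) - Fz d M z') := by
    ring
  rw [h5]
  refine (norm_add₃_le).trans ?_
  rw [norm_neg]
  have h6 : 4 * C * (b - a) ≤ 4 * C * v := by
    apply mul_le_mul_of_nonneg_left (by linarith only [hd1]) (by linarith only [hC, hz, hz2])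
  have h7 : 4 * C * (b - a') ≤ 4 * C * v := by
    apply mul_le_mul_of_nonneg_left (by linarith only [hd2]) (by linarith only [hC, hz, hz2])
  linarith

theorem guc' (khb : KhbStmt) (frb : FrbStmt) (ral : RalStmt) (ctz : ANE.CtzStmt) : GucStmt := by
  intro d hd
  obtain ⟨C1, hC1, h1⟩ := bh_bound khb hd
  obtain ⟨C2, hC2, h2⟩ := frb d hd
  obtain ⟨CZ, hCZ, h3⟩ := ctz d
  have hzz : ∀ z : ℂ, zz z.im z.re = z := by
    intro z
    unfold zz
    exact Complex.re_add_im z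
  have hg0 : ∀ z : ℂ, g0 d z = G (0 : Site d → ℝ) (zz z.im z.re) (del 0) 0 := by
    intro z
    rw [hzz]
    rfl
  -- the limit
  have lim : ∀ (z : ℂ) (e : ℝ), 0 < z.im → z.im ≤ 1 / 2 → 0 < e → ∃ M₀ : ℕ, ∀ (M : ℕ) [NeZero M],
      M₀ ≤ M → ‖g0 d z - Fz d M z‖ ≤ e := by
    intro z e hz hz2 he
    obtain ⟨M₀, hM₀⟩ := exists_nat_ge (8 * CZ ^ 2 / (z.im ^ 3 * (8 * e)))
    refine ⟨M₀, ?_⟩
    intro M _ hM
    have h4 : (M₀ : ℝ) ≤ M := by exact_mod_cast hM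
    have h5 := Pool.Agent.QDA.H89.ctz_small (d := d) hCZ h3 ral hz (by linarith only [he] : 0 < 8 * e)
      (hM₀.trans h4) (le_refl z.im) hz2
    rw [hg0]
    linarith
  have hD : IsRes (G (0 : Site d → ℝ)) := isRes_G 0
  have hdel : ‖(del (0 : Site d) : L2 d)‖ = 1 := by simp [del]
  have hco : ∀ (f : L2 d), ‖f 0‖ ≤ ‖f‖ := fun f => lp.norm_apply_le_norm (by norm_num) f 0
  have big : ∀ z : ℂ, 0 < z.im → ‖g0 d z‖ ≤ 1 / z.im := by
    intro z hz
    refine (hco _).trans ?_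
    have := hD.norm_le' hz.ne' (del (0 : Site d))
    rwa [hdel, mul_one, abs_of_pos hz, ← one_div] at this
  have bd : ∀ z : ℂ, 0 < z.im → ‖g0 d z‖ ≤ C2 + 1 := by
    intro z hz
    rcases le_or_gt z.im (1 / 2) with h4 | h4
    · obtain ⟨M₀, hM₀⟩ := lim z 1 hz h4 one_pos
      obtain ⟨M₁, hM₁⟩ := exists_nat_ge (C2 / z.im ^ 2)
      haveI : NeZero (max M₀ M₁ + 1) := ⟨by omega⟩
      have h5 := hM₀ (max M₀ M₁ + 1) (by omega)
      have h6 : (C2 / z.im ^ 2) ≤ ((max M₀ M₁ + 1 : ℕ) : ℝ) := by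
        refine hM₁.trans ?_
        have : M₁ ≤ max M₀ M₁ + 1 := by omega
        exact_mod_cast this
      have h7 := (h2 (max M₀ M₁ + 1) z hz (by linarith only [hz, h4]) h6 0).1 0
      rw [rs_diag ral z hz] at h7
      calc ‖g0 d z‖ = ‖(g0 d z - Fz d (max M₀ M₁ + 1) z) + Fz d (max M₀ M₁ + 1) z‖ := by
            rw [sub_add_cancel]
        _ ≤ ‖g0 d z - Fz d (max M₀ M₁ + 1) z‖ + ‖Fz d (max M₀ M₁ + 1) z‖ := norm_add_le _ _
        _ ≤ C2 + 1 := by linarith only [this, h5, h7]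
    · refine (big z hz).trans ?_
      have : 1 / z.im ≤ 1 / (1 / 2) := one_div_le_one_div_of_le (by norm_num) h4.le
      have h5 : (1 : ℝ) / (1 / 2) = 2 := by norm_num
      linarith only [hC2, this]
  refine ⟨9 * C1 + 4 * (C2 + 1) + 16, by linarith only [hC1, hC2], ?_⟩
  intro z z' hz hz'
  refine ⟨(bd z hz).trans (by linarith only [hC1, hC2]), ?_⟩
  rcases (norm_nonneg (z - z')).eq_or_lt with h0 | h0
  · have : z = z' := by
      rw [eq_comm, norm_eq_zero, sub_eq_zero] at h0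
      exact h0
    rw [this, sub_self, norm_zero]
    positivity
  have hroot : ∀ x y : ℝ, 0 < y → y ^ 4 ≤ x → y ≤ x ^ (1 / 4 : ℝ) := by
    intro x y hy hxy
    have h4 : (y ^ 4) ^ (1 / 4 : ℝ) ≤ x ^ (1 / 4 : ℝ) :=
      Real.rpow_le_rpow (by positivity) hxy (by norm_num)
    rw [← Real.rpow_natCast, ← Real.rpow_mul hy.le] at h4
    norm_num at h4
    norm_num
    exact h4
  have hrp : 0 ≤ ‖z - z'‖ ^ (1 / 4 : ℝ) := Real.rpow_nonneg (norm_nonneg _) _
  rcases le_or_gt (1 / 4) ‖z - z'‖ with hfar | hnear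
  · -- far
    have h4 : (1 / 2 : ℝ) ≤ ‖z - z'‖ ^ (1 / 4 : ℝ) := by
      apply hroot _ _ (by norm_num)
      refine le_trans ?_ hfar
      norm_num
    calc ‖g0 d z - g0 d z'‖ ≤ ‖g0 d z‖ + ‖g0 d z'‖ := norm_sub_le _ _
      _ ≤ (C2 + 1) + (C2 + 1) := add_le_add (bd z hz) (bd z' hz')
      _ = 4 * (C2 + 1) * (1 / 2) := by ring
      _ ≤ 4 * (C2 + 1) * ‖z - z'‖ ^ (1 / 4 : ℝ) := by gcongr
      _ ≤ _ := by
        apply mul_le_mul_of_nonneg_right _ hrp
        linarith only [hC1]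
  have him : |z.im - z'.im| ≤ ‖z - z'‖ := by
    rw [← Complex.sub_im]
    exact Complex.abs_im_le_norm _
  have him' := abs_le.1 him
  rcases le_or_gt (1 / 4) (min z.im z'.im) with hhi | hlo
  · -- high
    have h4 : 1 / 4 ≤ z.im := hhi.trans (min_le_left _ _)
    have h5 : 1 / 4 ≤ z'.im := hhi.trans (min_le_right _ _)
    have h6 : g0 d z - g0 d z' = (G (0 : Site d → ℝ) z (del 0) - G (0 : Site d → ℝ) z' (del 0)) 0 :=
      rfl
    have h7 : ‖g0 d z - g0 d z'‖ ≤ ‖z - z'‖ * 16 := by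
      rw [h6]
      refine (hco _).trans ?_
      rw [hD.ident_apply hz.ne' hz'.ne', norm_smul]
      apply mul_le_mul_of_nonneg_left _ (norm_nonneg _)
      have h8 := hD.norm_le' hz.ne' (G (0 : Site d → ℝ) z' (del 0))
      have h9 := hD.norm_le' hz'.ne' (del (0 : Site d))
      rw [hdel, mul_one, abs_of_pos hz'] at h9
      rw [abs_of_pos hz] at h8
      have h10 : z.im⁻¹ ≤ 4 := by
        rw [inv_le_comm₀ hz (by norm_num)]
        linarith only [h4]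
      have h11 : z'.im⁻¹ ≤ 4 := by
        rw [inv_le_comm₀ hz' (by norm_num)]
        linarith only [h5]
      calc ‖G (0 : Site d → ℝ) z (G (0 : Site d → ℝ) z' (del 0))‖
          ≤ z.im⁻¹ * ‖G (0 : Site d → ℝ) z' (del 0)‖ := h8
        _ ≤ 4 * 4 := mul_le_mul h10 (h9.trans h11) (norm_nonneg _) (by norm_num)
        _ = 16 := by norm_num
    have h8 : ‖z - z'‖ ≤ ‖z - z'‖ ^ (1 / 4 : ℝ) := by
      apply hroot _ _ h0
      calc ‖z - z'‖ ^ 4 ≤ ‖z - z'‖ ^ 1 :=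
            pow_le_pow_of_le_one (norm_nonneg _) (by linarith only [h0, hnear]) (by norm_num)
        _ = ‖z - z'‖ := pow_one _
    calc ‖g0 d z - g0 d z'‖ ≤ ‖z - z'‖ * 16 := h7
      _ ≤ 16 * ‖z - z'‖ ^ (1 / 4 : ℝ) := by linarith only [h8]
      _ ≤ _ := by
        apply mul_le_mul_of_nonneg_right _ hrp
        linarith only [hC1, hC2, h0, hnear]
  · -- low
    have hz2 : z.im ≤ 1 / 2 := by
      rcases min_lt_iff.1 hlo with h4 | h4 <;> linarith
    have hz2' : z'.im ≤ 1 / 2 := by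
      rcases min_lt_iff.1 hlo with h4 | h4 <;> linarith
    have h5 : ∀ e : ℝ, 0 < e → ‖g0 d z - g0 d z'‖ ≤ 9 * C1 * ‖z - z'‖ ^ (1 / 4 : ℝ) + e := by
      intro e he
      obtain ⟨M₀, hM₀⟩ := lim z (e / 2) hz hz2 (by linarith only [he])
      obtain ⟨M₁, hM₁⟩ := lim z' (e / 2) hz' hz2' (by linarith only [he])
      obtain ⟨M₂, hM₂⟩ := exists_nat_ge (C1 / z.im ^ 2)
      obtain ⟨M₃, hM₃⟩ := exists_nat_ge (C1 / z'.im ^ 2)
      obtain ⟨M, hMM⟩ : ∃ M : ℕ, M = M₀ + M₁ + M₂ + M₃ + 1 := ⟨_, rfl⟩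
      haveI : NeZero M := ⟨by omega⟩
      have h6 := hM₀ M (by omega)
      have h7 := hM₁ M (by omega)
      have h8 : C1 / z.im ^ 2 ≤ M := by
        refine hM₂.trans ?_
        have : M₂ ≤ M := by omega
        exact_mod_cast this
      have h9 : C1 / z'.im ^ 2 ≤ M := by
        refine hM₃.trans ?_
        have : M₃ ≤ M := by omega
        exact_mod_cast this
      have h10 := Fz_holder h1 hC1 z z' hz hz' hz2 hz2' h0 (by linarith only [h0, hnear]) M h8 h9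
      have h11 : g0 d z - g0 d z' = (g0 d z - Fz d M z) + (Fz d M z - Fz d M z') +
          -(g0 d z' - Fz d M z') := by ring
      rw [h11]
      refine (norm_add₃_le).trans ?_
      rw [norm_neg]
      linarith only [this, h6, h7, h10]
    have h6 : ‖g0 d z - g0 d z'‖ ≤ 9 * C1 * ‖z - z'‖ ^ (1 / 4 : ℝ) := le_of_forall_pos_le_add h5
    refine h6.trans ?_
    apply mul_le_mul_of_nonneg_right _ hrp
    linarith only [hC2, h0, hnear]

theorem guc : GucStmt :=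
  guc' Pool.Agent.LE.QX.H54.khbT Pool.Agent.LE.QX.H54.frbT Pool.Agent.LE.QD.H93.ralT
    Pool.Agent.ANE.H72.ctz

end Pool.Agent.QDA.H24
end
end -- Pool.Agent.Helper24_QDA.Guc
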