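import Pool.Agent.Helper12_MEB.B093
import Pool.Agent.Helper12_MEB.B095
import Pool.Agent.Helper12_MEB.B100
import Pool.Agent.Helper12_MEB.B112
import Pool.Agent.Helper12_MEB.B123
import Pool.Agent.Helper12_MEB.B153

/-!
# Merged copies (generated) of the modules

* `Pool.Agent.Helper10_LQY.BAL`
* `Pool.Agent.Helper16_LQY.TMZ`
* `Pool.Agent.Helper1_LQZ.MOM`
* `Pool.Agent.Helper44_LQZ.THC`
* `Pool.Agent.Helper72_LQZ.UPE`
* `Pool.Agent.Helper76_LQZ.QZF`
* `Pool.Agent.Helper92_LQZ.XJT`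
* `Pool.Agent.Helper54_LQZ.All`
* `Pool.Agent.Helper64_LQY.HAR`
* `Pool.Agent.Helper85_LQY.LTT`
* `Pool.Agent.Helper54_LQY.All`
* `Pool.Agent.Helper30_QDA.QlmT`
-/

set_option autoImplicit false

section -- Pool.Agent.Helper10_LQY.BAL

/-!
# BAL (squad LQY): the ballistic bound
-/

set_option autoImplicit false

open MeasureTheory ProbabilityTheory Function Filter

open scoped ENNReal BigOperators Topology NNReal ComplexOrder Matrix

noncomputable section

namespace Pool.Agent.LE.QY.H10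

open Pool.Agent.Anderson hiding box mem_box card_box
open Pool.Agent.Loc Pool.Agent.Helper54.Bal

variable {d : ℕ}

theorem le_of_sq {a b : ℝ} (hb : 0 ≤ b) (h : a ^ 2 ≤ b ^ 2) : a ≤ b :=
  le_of_not_gt fun hlt => by nlinarith only [hb, h, hlt]

theorem norm_le_of_le {f h : L2 d} (H : ∀ y, ‖f y‖ ≤ ‖h y‖) : ‖f‖ ≤ ‖h‖ := by
  apply le_of_sq (norm_nonneg _)
  rw [L2.norm_sq, L2.norm_sq]
  refine Summable.tsum_le_tsum (fun y => ?_) (L2.summable_sq f) (L2.summable_sq h)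
  have h1 := H y
  have h2 := norm_nonneg (f y)
  gcongr

/-- multiplication by a bounded real function -/
def wm (w : Site d → ℝ) (M : ℝ) (hw : ∀ y, |w y| ≤ M) (f : L2 d) : L2 d :=
  mulOp (fun y => ((w y : ℝ) : ℂ)) M (fun y => by rw [Complex.norm_real]; exact hw y) f

theorem wm_apply (w : Site d → ℝ) (M : ℝ) (hw : ∀ y, |w y| ≤ M) (f : L2 d) (y : Site d) :
    wm w M hw f y = ((w y : ℝ) : ℂ) * f y := rfl

theorem norm_wm_apply (w : Site d → ℝ) (M : ℝ) (hw : ∀ y, |w y| ≤ M) (f : L2 d) (y : Site d) :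
    ‖wm w M hw f y‖ = |w y| * ‖f y‖ := by
  rw [wm_apply, norm_mul, Complex.norm_real, Real.norm_eq_abs]

/-- the commutator bound -/
theorem comm_bd {V : Site d → ℝ} {z : ℂ} (hz : z.im ≠ 0) (x : Site d) (w W : Site d → ℝ)
    (Mw MW : ℝ) (hw : ∀ y, |w y| ≤ Mw) (hW : ∀ y, |W y| ≤ MW) (hx : w x = 0)
    (hp : ∀ y (j : Fin d), |w (y + Pi.single j 1) - w y| ≤ |W (y + Pi.single j 1)|)
    (hm : ∀ y (j : Fin d), |w (y - Pi.single j 1) - w y| ≤ |W (y - Pi.single j 1)|) :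
    ‖wm w Mw hw (G V z (del x))‖ ≤
      |z.im|⁻¹ * (2 * d * ‖wm W MW hW (G V z (del x))‖) := by
  set g := G V z (del x) with hg
  have hpb : ∀ (j : Fin d) (y : Site d), |w (y + Pi.single j 1) - w y| ≤ 2 * Mw := by
    intro j y
    have h1 := abs_sub (w (y + Pi.single j 1)) (w y)
    have h2 := hw (y + Pi.single j 1)
    have h3 := hw y
    linarith
  have hmb : ∀ (j : Fin d) (y : Site d), |w (y - Pi.single j 1) - w y| ≤ 2 * Mw := by
    intro j y
    have h1 := abs_sub (w (y - Pi.single j 1)) (w y)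
    have h2 := hw (y - Pi.single j 1)
    have h3 := hw y
    linarith
  let A : Fin d → L2 d := fun j => wm (fun y => w (y + Pi.single j 1) - w y) (2 * Mw) (hpb j)
    (shift (Pi.single j 1) g)
  let B : Fin d → L2 d := fun j => wm (fun y => w (y - Pi.single j 1) - w y) (2 * Mw) (hmb j)
    (shift (-Pi.single j 1) g)
  let r : L2 d := ∑ j, (A j + B j)
  have hA : ∀ j, ‖A j‖ ≤ ‖wm W MW hW g‖ := by
    intro j
    rw [← (shift (Pi.single j 1)).norm_map (wm W MW hW g)]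
    apply norm_le_of_le
    intro y
    rw [shift_apply, norm_wm_apply, norm_wm_apply, shift_apply]
    exact mul_le_mul_of_nonneg_right (hp y j) (norm_nonneg _)
  have hB : ∀ j, ‖B j‖ ≤ ‖wm W MW hW g‖ := by
    intro j
    rw [← (shift (-Pi.single j 1)).norm_map (wm W MW hW g)]
    apply norm_le_of_le
    intro y
    rw [shift_apply, norm_wm_apply, norm_wm_apply, shift_apply]
    have h1 := hm y j
    rw [sub_eq_add_neg y] at h1
    exact mul_le_mul_of_nonneg_right (by simpa only [sub_eq_add_neg] using h1) (norm_nonneg _)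
  have hr : ‖r‖ ≤ 2 * d * ‖wm W MW hW g‖ := by
    calc ‖r‖ ≤ ∑ j, ‖A j + B j‖ := norm_sum_le _ _
      _ ≤ ∑ _j : Fin d, (‖wm W MW hW g‖ + ‖wm W MW hW g‖) :=
          Finset.sum_le_sum fun j _ => (norm_add_le _ _).trans (add_le_add (hA j) (hB j))
      _ = 2 * d * ‖wm W MW hW g‖ := by
          rw [Finset.sum_const, Finset.card_univ, Fintype.card_fin, nsmul_eq_mul]
          ring
  have hG : wm w Mw hw g = G V z r := by
    apply G_unique hz
    intro y
    have e1 := G_eq (V := V) hz (del x) y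
    rw [← hg] at e1
    have e2 : lap (wm w Mw hw g) y = ((w y : ℝ) : ℂ) * lap g y + r y := by
      have e0 : r y = ∑ j, (A j y + B j y) := by
        show (∑ j, (A j + B j) : L2 d) y = _
        rw [coe_sum_apply]
        rfl
      unfold lap
      rw [e0, Finset.mul_sum, ← Finset.sum_add_distrib]
      refine Finset.sum_congr rfl fun j _ => ?_
      show ((w (y + Pi.single j 1) : ℝ) : ℂ) * g (y + Pi.single j 1) +
        ((w (y - Pi.single j 1) : ℝ) : ℂ) * g (y - Pi.single j 1) =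
        ((w y : ℝ) : ℂ) * (g (y + Pi.single j 1) + g (y - Pi.single j 1)) +
        (((w (y + Pi.single j 1) - w y : ℝ) : ℂ) * g (y + Pi.single j 1) +
        ((w (y - Pi.single j 1) - w y : ℝ) : ℂ) * g (y + -Pi.single j 1))
      rw [← sub_eq_add_neg]
      push_cast
      ring
    rw [e2, wm_apply]
    have e5 : ((w y : ℝ) : ℂ) * lap g y + r y + ((V y : ℂ) - z) * (((w y : ℝ) : ℂ) * g y) =
        ((w y : ℝ) : ℂ) * (lap g y + ((V y : ℂ) - z) * g y) + r y := by ring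
    rw [e5, e1, del_apply]
    by_cases hy : y = x
    · subst hy
      simp [hx]
    · simp [hy]
  rw [hG]
  refine ((isRes_G V).norm_le' hz r).trans ?_
  exact mul_le_mul_of_nonneg_left hr (by positivity)

theorem sd_self (x : Site d) : sd x x = 0 := by
  unfold sd
  simp

theorem sd_add_le (x y : Site d) (j : Fin d) (s : ℤ) (hs : s.natAbs = 1) :
    sd x (y + Pi.single j s) ≤ sd x y + 1 := by
  unfold sd
  apply Finset.sup_le
  intro i _
  have h1 : (x i - y i).natAbs ≤ Finset.univ.sup fun i => (x i - y i).natAbs :=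
    Finset.le_sup (f := fun i => (x i - y i).natAbs) (Finset.mem_univ i)
  refine le_trans ?_ (Nat.add_le_add_right h1 1)
  rw [Pi.add_apply]
  by_cases hij : i = j
  · subst hij
    rw [Pi.single_eq_same]
    omega
  · rw [Pi.single_eq_of_ne hij]
    omega

/-- neighbours -/
theorem sd_nb (x y : Site d) (j : Fin d) :
    |(sd x (y + Pi.single j 1) : ℝ) - sd x y| ≤ 1 ∧
      |(sd x (y - Pi.single j 1) : ℝ) - sd x y| ≤ 1 := by
  have h1 := sd_add_le x y j 1 (by norm_num)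
  have h2 := sd_add_le x (y + Pi.single j 1) j (-1) (by norm_num)
  have h3 := sd_add_le x y j (-1) (by norm_num)
  have h4 := sd_add_le x (y - Pi.single j 1) j 1 (by norm_num)
  have e1 : y + Pi.single j 1 + Pi.single j (-1) = y := by
    rw [add_assoc, ← Pi.single_add]
    simp
  have e2 : y + Pi.single j (-1) = y - Pi.single j 1 := by
    rw [Pi.single_neg, sub_eq_add_neg]
  have e3 : y - Pi.single j 1 + Pi.single j 1 = y := by
    rw [sub_add_cancel]
  rw [e1] at h2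
  rw [e2] at h3
  rw [e3] at h4
  have a1 : (sd x (y + Pi.single j 1) : ℝ) ≤ sd x y + 1 := by exact_mod_cast h1
  have a2 : (sd x y : ℝ) ≤ sd x (y + Pi.single j 1) + 1 := by exact_mod_cast h2
  have a3 : (sd x (y - Pi.single j 1) : ℝ) ≤ sd x y + 1 := by exact_mod_cast h3
  have a4 : (sd x y : ℝ) ≤ sd x (y - Pi.single j 1) + 1 := by exact_mod_cast h4
  exact ⟨abs_le.2 ⟨by linarith only [a2], by linarith only [a1]⟩, abs_le.2 ⟨by linarith only [a4], by linarith only [a3]⟩⟩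

/-- the truncated distance -/
def wn (x : Site d) (n : ℕ) (y : Site d) : ℝ := min (sd x y : ℝ) n

theorem wn_nonneg (x : Site d) (n : ℕ) (y : Site d) : 0 ≤ wn x n y := by
  unfold wn
  positivity

theorem wn_le (x : Site d) (n : ℕ) (y : Site d) : wn x n y ≤ n := min_le_right _ _

theorem wn_abs (x : Site d) (n : ℕ) (y : Site d) : |wn x n y| ≤ n := by
  rw [abs_of_nonneg (wn_nonneg x n y)]
  exact wn_le x n y

theorem wn_self (x : Site d) (n : ℕ) : wn x n x = 0 := by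
  unfold wn
  rw [sd_self]
  simp

theorem wn_sub {x y y' : Site d} (n : ℕ) (h : |(sd x y' : ℝ) - sd x y| ≤ 1) :
    |wn x n y' - wn x n y| ≤ 1 := by
  unfold wn
  have h2 := abs_min_sub_min_le_max (sd x y' : ℝ) (n : ℝ) (sd x y : ℝ) (n : ℝ)
  rw [sub_self, abs_zero, max_eq_left (abs_nonneg _)] at h2
  exact h2.trans h

theorem wn_sq_sub {x y y' : Site d} (n : ℕ) (h : |(sd x y' : ℝ) - sd x y| ≤ 1) :
    |wn x n y' ^ 2 - wn x n y ^ 2| ≤ |2 * wn x n y' + 1| := by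
  have h1 := wn_sub n h
  have h2 := wn_nonneg x n y
  have h3 := wn_nonneg x n y'
  rw [abs_le] at h1
  rw [abs_of_nonneg (by linarith only [h3] : (0 : ℝ) ≤ 2 * wn x n y' + 1), abs_le]
  constructor <;> nlinarith

theorem bal : BalStmt := by
  intro d hd
  have hd1 : (1 : ℝ) ≤ d := by exact_mod_cast hd
  refine ⟨(2 * d * (4 * d + 1)) ^ 2, ?_, ?_⟩
  · have h1 : (1 : ℝ) ≤ 2 * d * (4 * d + 1) := by nlinarith only [hd1]
    nlinarith
  intro V E η x hη hη1
  set z : ℂ := ⟨E, η⟩ with hzdef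
  have hz : z.im ≠ 0 := hη.ne'
  have hzi : |z.im|⁻¹ = η⁻¹ := by
    show |η|⁻¹ = η⁻¹
    rw [abs_of_pos hη]
  set g := G V z (del x) with hg
  have hgn : ‖g‖ ≤ η⁻¹ := by
    have := (isRes_G V).norm_le' hz (del x)
    rwa [norm_del, mul_one, hzi] at this
  have hηi : 0 < η⁻¹ := by positivity
  have hηi1 : 1 ≤ η⁻¹ := (one_le_inv₀ hη).2 hη1
  -- the first commutator
  have h1 : ∀ n : ℕ, ‖wm (wn x n) n (wn_abs x n) g‖ ≤ 2 * d * η⁻¹ ^ 2 := by
    intro n
    have h := comm_bd (V := V) hz x (wn x n) (fun _ => 1) n 1 (wn_abs x n)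
      (fun _ => by simp) (wn_self x n)
      (fun y j => (wn_sub n (sd_nb x y j).1).trans (le_abs_self _))
      (fun y j => (wn_sub n (sd_nb x y j).2).trans (le_abs_self _))
    rw [← hg, hzi] at h
    have h2 : ‖wm (fun _ => (1 : ℝ)) 1 (fun _ => by simp) g‖ ≤ ‖g‖ := by
      apply norm_le_of_le
      intro y
      rw [norm_wm_apply, abs_one, one_mul]
    calc ‖wm (wn x n) n (wn_abs x n) g‖ ≤ _ := h
      _ ≤ η⁻¹ * (2 * d * η⁻¹) := by
          have h3 := h2.trans hgn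
          gcongr
      _ = 2 * d * η⁻¹ ^ 2 := by ring
  -- the second commutator
  have h2 : ∀ n : ℕ, ‖wm (fun y => wn x n y ^ 2) ((n : ℝ) ^ 2) (fun y => by
      rw [abs_pow]
      exact pow_le_pow_left₀ (abs_nonneg _) (wn_abs x n y) 2) g‖ ≤
      2 * d * (4 * d + 1) * η⁻¹ ^ 3 := by
    intro n
    have hWb : ∀ y : Site d, |2 * wn x n y + 1| ≤ 2 * n + 1 := by
      intro y
      have h3 := wn_nonneg x n y
      have h4 := wn_le x n y
      rw [abs_of_nonneg (by linarith only [h3])]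
      linarith only [h4]
    have h := comm_bd (V := V) hz x (fun y => wn x n y ^ 2) (fun y => 2 * wn x n y + 1)
      ((n : ℝ) ^ 2) (2 * n + 1) (fun y => by
        rw [abs_pow]
        exact pow_le_pow_left₀ (abs_nonneg _) (wn_abs x n y) 2) hWb
      (by show wn x n x ^ 2 = 0; rw [wn_self]; ring)
      (fun y j => wn_sq_sub n (sd_nb x y j).1)
      (fun y j => wn_sq_sub n (sd_nb x y j).2)
    rw [← hg, hzi] at h
    have h3 : wm (fun y => 2 * wn x n y + 1) (2 * n + 1) hWb g =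
        (2 : ℂ) • wm (wn x n) n (wn_abs x n) g + g := by
      ext y
      rw [lp.coeFn_add, Pi.add_apply, lp.coeFn_smul, Pi.smul_apply, wm_apply, wm_apply,
        smul_eq_mul]
      push_cast
      ring
    have h4 : ‖wm (fun y => 2 * wn x n y + 1) (2 * n + 1) hWb g‖ ≤
        2 * (2 * d * η⁻¹ ^ 2) + η⁻¹ := by
      rw [h3]
      refine (norm_add_le _ _).trans (add_le_add ?_ hgn)
      rw [norm_smul]
      have h5 : ‖(2 : ℂ)‖ = 2 := by simp
      rw [h5]
      exact mul_le_mul_of_nonneg_left (h1 n) (by norm_num)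
    calc _ ≤ _ := h
      _ ≤ η⁻¹ * (2 * d * (2 * (2 * d * η⁻¹ ^ 2) + η⁻¹)) := by gcongr
      _ ≤ η⁻¹ * (2 * d * (2 * (2 * d * η⁻¹ ^ 2) + η⁻¹ ^ 2)) := by
          have h6 : η⁻¹ ≤ η⁻¹ ^ 2 := by nlinarith only [hηi, hηi1]
          gcongr
      _ = 2 * d * (4 * d + 1) * η⁻¹ ^ 3 := by ring
  -- finite sums
  have h3 : ∀ s : Finset (Site d), ∑ y ∈ s, (sd x y : ℝ) ^ 4 * ‖g y‖ ^ 2 ≤
      (2 * d * (4 * d + 1)) ^ 2 / η ^ 6 := by
    intro s
    set n : ℕ := s.sup (sd x) with hn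
    have h4 : ∀ y ∈ s, wn x n y = sd x y := by
      intro y hy
      unfold wn
      apply min_eq_left
      have : sd x y ≤ n := Finset.le_sup (f := sd x) hy
      exact_mod_cast this
    have h5 := h2 n
    set gg := wm (fun y => wn x n y ^ 2) ((n : ℝ) ^ 2) (fun y => by
      rw [abs_pow]
      exact pow_le_pow_left₀ (abs_nonneg _) (wn_abs x n y) 2) g with hgg
    have h6 : ∑ y ∈ s, (sd x y : ℝ) ^ 4 * ‖g y‖ ^ 2 = ∑ y ∈ s, ‖gg y‖ ^ 2 := by
      refine Finset.sum_congr rfl fun y hy => ?_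
      rw [hgg, norm_wm_apply, h4 y hy, abs_of_nonneg (by positivity)]
      ring
    rw [h6]
    calc ∑ y ∈ s, ‖gg y‖ ^ 2 ≤ ∑' y, ‖gg y‖ ^ 2 :=
          (L2.summable_sq gg).sum_le_tsum s (fun y _ => by positivity)
      _ = ‖gg‖ ^ 2 := (L2.norm_sq gg).symm
      _ ≤ (2 * d * (4 * d + 1) * η⁻¹ ^ 3) ^ 2 := by gcongr
      _ = (2 * d * (4 * d + 1)) ^ 2 / η ^ 6 := by
          rw [div_eq_mul_inv, ← inv_pow]
          ring
  have hnn : ∀ y : Site d, 0 ≤ (sd x y : ℝ) ^ 4 * ‖g y‖ ^ 2 := fun y => by positivity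
  have hsum : Summable (fun y : Site d => (sd x y : ℝ) ^ 4 * ‖g y‖ ^ 2) :=
    summable_of_sum_le hnn h3
  exact ⟨hsum, hsum.tsum_le_of_sum_le h3⟩

end Pool.Agent.LE.QY.H10
end
end -- Pool.Agent.Helper10_LQY.BAL

section -- Pool.Agent.Helper16_LQY.TMZ

/-!
Squad LQY, row TMZ: the total mass on the lattice.
-/

set_option autoImplicit false

open MeasureTheory ProbabilityTheory Function Filter

open scoped ENNReal BigOperators Topology NNReal ComplexOrder Matrix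

noncomputable section

namespace Pool.Agent.LE.QY.H16

open Pool.Agent.Anderson hiding box mem_box card_box
open Pool.Agent.Loc Pool.Agent.Mob Pool.Agent.Helper54.Bal
  Pool.Agent.Helper96.EXP Pool.Agent.BED
open Pool.Agent.LE.MN Pool.Agent.LE.CL Pool.Agent.LE.IR Pool.Agent.LE.QD Pool.Agent.LE.QF
open Pool.Agent.LE.QY

variable {d : ℕ}

/-- the total mass is the imaginary part of the Green function -/
theorem sum_rh (V : Site d → ℝ) {T E : ℝ} (hT : 0 < T) :
    ∑' x : Site d, ENNReal.ofReal (rh V T E x) =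
      ENNReal.ofReal (G V ⟨E, 1 / T⟩ (del 0) 0).im := by
  have hz : (⟨E, 1 / T⟩ : ℂ).im ≠ 0 := (one_div_pos.2 hT).ne'
  have h1 : ∀ x, rh V T E x = ‖G V ⟨E, 1 / T⟩ (del 0) x‖ ^ 2 * T⁻¹ := fun x => div_eq_mul_inv _ _
  have h2 := L2.summable_sq (G V ⟨E, 1 / T⟩ (del 0))
  have h3 : ∀ x, 0 ≤ rh V T E x := fun x => by rw [h1]; positivity
  have h4 : Summable fun x => rh V T E x := by
    simp only [h1]
    exact h2.mul_right _
  rw [← ENNReal.ofReal_tsum_of_nonneg h3 h4]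
  congr 1
  simp only [h1]
  rw [tsum_mul_right, ← L2.norm_sq, im_G_del hz]
  show _ = 1 / T * _
  rw [one_div, mul_comm]

/-- the trivial bound -/
theorem im_le (V : Site d → ℝ) {T E : ℝ} (hT : 0 < T) :
    (G V ⟨E, 1 / T⟩ (del 0) 0).im ≤ T := by
  have hz : (⟨E, 1 / T⟩ : ℂ).im ≠ 0 := (one_div_pos.2 hT).ne'
  have h1 := im_G_del (V := V) hz
  have h2 : (G V ⟨E, 1 / T⟩ (del 0) 0).im ≤ ‖G V ⟨E, 1 / T⟩ (del 0)‖ :=
    ((le_abs_self _).trans (Complex.abs_im_le_norm _)).trans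
      (lp.norm_apply_le_norm (by norm_num) _ _)
  have h3 : (⟨E, 1 / T⟩ : ℂ).im = 1 / T := rfl
  rw [h3] at h1
  have h4 := norm_nonneg (G V ⟨E, 1 / T⟩ (del 0))
  have h5 : ‖G V ⟨E, 1 / T⟩ (del 0)‖ ≤ T := by
    by_contra hcon
    rw [not_le] at hcon
    have h6 : T * ‖G V ⟨E, 1 / T⟩ (del 0)‖ < ‖G V ⟨E, 1 / T⟩ (del 0)‖ ^ 2 := by nlinarith
    have h7 : T * (1 / T * ‖G V ⟨E, 1 / T⟩ (del 0)‖ ^ 2) = ‖G V ⟨E, 1 / T⟩ (del 0)‖ ^ 2 := by
      field_simp
    have h8 : T * (G V ⟨E, 1 / T⟩ (del 0) 0).im ≤ T * ‖G V ⟨E, 1 / T⟩ (del 0)‖ := by gcongr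
    rw [h1, h7] at h8
    linarith only [h6, h8]
  exact h2.trans h5

theorem im_nonneg' (V : Site d → ℝ) {T E : ℝ} (hT : 0 < T) :
    0 ≤ (G V ⟨E, 1 / T⟩ (del 0) 0).im := by
  have hz : (⟨E, 1 / T⟩ : ℂ).im ≠ 0 := (one_div_pos.2 hT).ne'
  rw [im_G_del hz]
  show 0 ≤ 1 / T * _
  positivity

/-- bounds of an integral from bounds outside of a set of small outer measure -/
theorem bounds {Ω : Type} [MeasurableSpace Ω] (μ : Measure Ω) [IsProbabilityMeasure μ]
    (f : Ω → ℝ) (B : Set Ω) {K K' T δ : ℝ} (hK' : 0 ≤ K') (hK : 0 ≤ K) (hT : 0 ≤ T)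
    (hB : μ B ≤ ENNReal.ofReal δ) (hδ : δ ≤ 1 / 2) (hδT : T * δ ≤ 1)
    (h0 : ∀ V, f V ≤ T) (h1 : ∀ V, V ∉ B → K' ≤ f V ∧ f V ≤ K) :
    ENNReal.ofReal (K' / 2) ≤ ∫⁻ V, ENNReal.ofReal (f V) ∂μ ∧
      ∫⁻ V, ENNReal.ofReal (f V) ∂μ ≤ ENNReal.ofReal (K + 1) := by
  have hm := measurableSet_toMeasurable μ B
  have hB' : μ (toMeasurable μ B) ≤ ENNReal.ofReal δ := by rw [measure_toMeasurable]; exact hB
  have hsub := subset_toMeasurable μ B
  constructor
  · calc ENNReal.ofReal (K' / 2) = ENNReal.ofReal K' * ENNReal.ofReal (1 / 2) := by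
          rw [← ENNReal.ofReal_mul hK']
          congr 1
          ring
      _ ≤ ENNReal.ofReal K' * μ (toMeasurable μ B)ᶜ := by
          gcongr
          rw [prob_compl_eq_one_sub hm]
          refine le_trans ?_ (tsub_le_tsub_left (hB'.trans (ENNReal.ofReal_le_ofReal hδ)) 1)
          rw [← ENNReal.ofReal_one, ← ENNReal.ofReal_sub _ (by norm_num)]
          apply ENNReal.ofReal_le_ofReal
          norm_num
      _ = ∫⁻ V, (toMeasurable μ B)ᶜ.indicator (fun _ => ENNReal.ofReal K') V ∂μ := by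
          rw [lintegral_indicator_const hm.compl]
      _ ≤ ∫⁻ V, ENNReal.ofReal (f V) ∂μ := by
          refine lintegral_mono fun V => ?_
          by_cases hV : V ∈ (toMeasurable μ B)ᶜ
          · rw [Set.indicator_of_mem hV]
            exact ENNReal.ofReal_le_ofReal (h1 V fun h => hV (hsub h)).1
          · rw [Set.indicator_of_notMem hV]
            exact zero_le
  · calc ∫⁻ V, ENNReal.ofReal (f V) ∂μ
        ≤ ∫⁻ V, (ENNReal.ofReal K +
            (toMeasurable μ B).indicator (fun _ => ENNReal.ofReal T) V) ∂μ := by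
          refine lintegral_mono fun V => ?_
          by_cases hV : V ∈ toMeasurable μ B
          · simp only [Set.indicator_of_mem hV]
            exact (ENNReal.ofReal_le_ofReal (h0 V)).trans le_add_self
          · simp only [Set.indicator_of_notMem hV, add_zero]
            exact ENNReal.ofReal_le_ofReal (h1 V fun h => hV (hsub h)).2
      _ = ENNReal.ofReal K + ENNReal.ofReal T * μ (toMeasurable μ B) := by
          rw [lintegral_add_left measurable_const, lintegral_const, measure_univ, mul_one,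
            lintegral_indicator_const hm]
      _ ≤ ENNReal.ofReal K + ENNReal.ofReal T * ENNReal.ofReal δ := by gcongr
      _ ≤ ENNReal.ofReal K + ENNReal.ofReal 1 := by
          rw [← ENNReal.ofReal_mul hT]
          gcongr
      _ = ENNReal.ofReal (K + 1) := (ENNReal.ofReal_add hK zero_le_one).symm

theorem tmz (loc : LocStmt) : TmzStmt := by
  intro d a hd ha
  obtain ⟨θ, c, hθ, hc, hc4, h⟩ := loc d a hd ha
  obtain ⟨c', hc'⟩ : ∃ c', c' = min (c / 4) ((c / 4) ^ (1 / θ)) := ⟨_, rfl⟩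
  have hc'0 : 0 < c' := by rw [hc']; exact lt_min (by positivity) (by positivity)
  have hc'1 : c' ≤ c / 4 := by rw [hc']; exact min_le_left _ _
  have hc'2 : c' ≤ (c / 4) ^ (1 / θ) := by rw [hc']; exact min_le_right _ _
  refine ⟨θ / 2, c', by positivity, hc'0, by linarith only [hc4, hc'0, hc'1], ?_⟩
  intro σ E T hσ hσc hE hT1 hT2
  have hs0 : 0 < |σ| := abs_pos.2 hσ
  have hs1 : |σ| ≤ 1 := by linarith only [hc4, hc'0, hc'1, hσc]
  have hT0 : 0 < T := lt_of_lt_of_le (by positivity) hT1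
  have hmono : |σ| ^ (-(θ / 2)) ≤ |σ| ^ (-θ) :=
    Real.rpow_le_rpow_of_exponent_ge hs0 hs1 (by linarith only [hθ])
  obtain ⟨m, hm1, hm2, hm3, hm4⟩ := h σ E T hσ (by linarith only [hc'0, hc'1, hσc]) hE hT1
    (hT2.trans (Real.exp_le_exp.2 hmono))
  have hsθ : |σ| ^ θ ≤ c / 4 := by
    have h1 : |σ| ^ θ ≤ ((c / 4) ^ (1 / θ)) ^ θ :=
      Real.rpow_le_rpow hs0.le (hσc.trans hc'2) hθ.le
    rwa [← Real.rpow_mul (by positivity), one_div_mul_cancel hθ.ne', Real.rpow_one] at h1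
  -- the value of the probability
  have hbig : 1 ≤ |σ| ^ (-θ) := Real.one_le_rpow_of_pos_of_le_one_of_nonpos hs0 hs1 (by linarith only [hθ])
  have hδ : Real.exp (-(|σ| ^ (-θ))) ≤ 1 / 2 := by
    have h1 : Real.exp (-(|σ| ^ (-θ))) ≤ Real.exp (-1) := Real.exp_le_exp.2 (by linarith only [hbig])
    have h2 : Real.exp (-1) ≤ 1 / 2 := by
      rw [Real.exp_neg, one_div]
      have := Real.add_one_le_exp (1 : ℝ)
      exact inv_anti₀ (by norm_num) (by linarith only [this])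
    linarith only [h1, h2]
  have hδT : T * Real.exp (-(|σ| ^ (-θ))) ≤ 1 := by
    calc T * Real.exp (-(|σ| ^ (-θ)))
        ≤ Real.exp (|σ| ^ (-(θ / 2))) * Real.exp (-(|σ| ^ (-θ))) := by gcongr
      _ = Real.exp (|σ| ^ (-(θ / 2)) + -(|σ| ^ (-θ))) := (Real.exp_add _ _).symm
      _ ≤ Real.exp 0 := Real.exp_le_exp.2 (by linarith only [hmono])
      _ = 1 := Real.exp_zero
  have hb := bounds (PP d (gl σ)) (fun V => (G V ⟨E, 1 / T⟩ (del 0) 0).im) _
    (K := 1 / c + c / 2) (K' := c / 2) (T := T) (by positivity) (by positivity) hT0.le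
    (hm4 0) hδ hδT (fun V => im_le V hT0) (fun V hV => by
      have hV' := not_not.1 hV
      have h0 : ((sd (0 : Site d) 0 : ℕ) : ℝ) ≤ T := by
        have : sd (0 : Site d) 0 = 0 := by
          unfold sd
          simp
        rw [this, Nat.cast_zero]
        exact hT0.le
      have h1 := hV' 0 0 h0 h0
      have h2 : ‖G V ⟨E, 1 / T⟩ (del 0) 0 - m‖ ≤ c / 2 := by
        calc ‖G V ⟨E, 1 / T⟩ (del 0) 0 - m‖
            = ‖(G V ⟨E, 1 / T⟩ (del 0) 0 -
                G (0 : Site d → ℝ) (⟨E, 1 / T⟩ + (σ : ℂ) ^ 2 * m) (del 0) 0) -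
              (m - G (0 : Site d → ℝ) (⟨E, 1 / T⟩ + (σ : ℂ) ^ 2 * m) (del 0) 0)‖ := by
              congr 1
              ring
          _ ≤ |σ| ^ θ + |σ| ^ θ := (norm_sub_le _ _).trans (add_le_add h1 hm3)
          _ ≤ c / 2 := by linarith only [hsθ]
      have h3 := (Complex.abs_im_le_norm (G V ⟨E, 1 / T⟩ (del 0) 0 - m)).trans h2
      rw [Complex.sub_im, abs_le] at h3
      have h4 : m.im ≤ 1 / c := ((le_abs_self _).trans (Complex.abs_im_le_norm _)).trans hm2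
      exact ⟨by linarith only [h3.1, hm1], by linarith only [h3.2, h4]⟩)
  simp only [sum_rh _ hT0]
  refine ⟨le_trans (ENNReal.ofReal_le_ofReal (by linarith only [hc'1])) hb.1,
    hb.2.trans (ENNReal.ofReal_le_ofReal ?_)⟩
  have h5 : 4 / c ≤ 1 / c' := by
    rw [div_le_div_iff₀ hc hc'0]
    linarith only [hc'1]
  have h6 : 4 ≤ 1 / c := by
    rw [le_div_iff₀ hc]
    linarith only [hc4]
  have h7 : 4 / c = 4 * (1 / c) := by ring
  linarith only [hc4, hc'0, hc'1, h5, h6, h7]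

end Pool.Agent.LE.QY.H16
end
end -- Pool.Agent.Helper16_LQY.TMZ

section -- Pool.Agent.Helper1_LQZ.MOM

/-!
# Squad LQZ, row MOM: the smallest momentum and the second moment
-/

set_option autoImplicit false

open scoped ENNReal BigOperators Topology NNReal ComplexOrder Matrix

noncomputable section

namespace Pool.Agent.LE.QZ.H1

open Pool.Agent.Anderson hiding box mem_box card_box
open Pool.Agent.Loc Pool.Agent.Mob Pool.Agent.Helper54.Bal
  Pool.Agent.Helper96.EXP Pool.Agent.BED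
open Pool.Agent.LE.MN Pool.Agent.LE.CL Pool.Agent.LE.IR Pool.Agent.LE.QD Pool.Agent.LE.QF

/-- the form of the Laplacian -/
theorem mom_qf {X : Type} [Fintype X] [DecidableEq X] (K : Matrix X X ℝ)
    (hK : ∀ a b, K a b = K b a) (f : X → ℝ) :
    QF.qf (Dl K) f = 1 / 2 * ∑ x, ∑ y, K x y * (f x - f y) ^ 2 := by
  have h1 : QF.qf (Dl K) f = ∑ x, ∑ y, K x y * (f x * (f x - f y)) := by
    unfold QF.qf Dl
    refine Finset.sum_congr rfl fun x _ => ?_
    rw [Matrix.sub_mulVec, Pi.sub_apply, Matrix.mulVec_diagonal, Matrix.mulVec, dotProduct,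
      Finset.sum_mul, ← Finset.sum_sub_distrib, Finset.mul_sum]
    refine Finset.sum_congr rfl fun y _ => ?_
    ring
  have h2 : QF.qf (Dl K) f = ∑ x, ∑ y, K x y * (f y * (f y - f x)) := by
    rw [h1, Finset.sum_comm]
    refine Finset.sum_congr rfl fun x _ => Finset.sum_congr rfl fun y _ => ?_
    rw [hK y x]
  have h3 : QF.qf (Dl K) f + QF.qf (Dl K) f = ∑ x, ∑ y, K x y * (f x - f y) ^ 2 := by
    nth_rewrite 1 [h1]
    rw [h2, ← Finset.sum_add_distrib]
    refine Finset.sum_congr rfl fun x _ => ?_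
    rw [← Finset.sum_add_distrib]
    refine Finset.sum_congr rfl fun y _ => ?_
    ring
  linarith only [h3]

/-- the exponential with the smallest momentum -/
theorem mom_ec {d M : ℕ} [NeZero M] (i : Fin d) (x : Tor d M) :
    ec (Pi.single i 1) x = ZMod.stdAddChar (x i) := by
  unfold ec
  rw [Finset.prod_eq_single i]
  · simp
  · intro b _ hb
    simp [hb]
  · intro h
    exact absurd (Finset.mem_univ i) h

/-- the distance of two characters -/
theorem mom_dist {M : ℕ} [NeZero M] (a b : ZMod M) :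
    16 / (M : ℝ) ^ 2 * ((a - b).valMinAbs : ℝ) ^ 2 ≤
      ((ZMod.stdAddChar a : ℂ).re - (ZMod.stdAddChar b : ℂ).re) ^ 2 +
        ((ZMod.stdAddChar a : ℂ).im - (ZMod.stdAddChar b : ℂ).im) ^ 2 := by
  have hM : (0 : ℝ) < M := by exact_mod_cast Nat.pos_of_ne_zero (NeZero.ne M)
  set v : ℤ := (a - b).valMinAbs with hv
  have hab : a = b + ((v : ℤ) : ZMod M) := by
    rw [hv, ZMod.coe_valMinAbs]
    ring
  set t : ℝ := 2 * Real.pi * v / M with ht
  have h1 : (ZMod.stdAddChar a : ℂ) = ZMod.stdAddChar b * Complex.exp ((t : ℂ) * Complex.I) := by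
    rw [hab, AddChar.map_add_eq_mul, ZMod.stdAddChar_coe]
    have e1 : 2 * (Real.pi : ℂ) * Complex.I * (v : ℂ) / (M : ℂ) = (t : ℂ) * Complex.I := by
      rw [ht]
      push_cast
      ring
    rw [e1]
  have h2 : (Complex.exp ((t : ℂ) * Complex.I)).re = Real.cos t := Complex.exp_ofReal_mul_I_re t
  have h3 : (Complex.exp ((t : ℂ) * Complex.I)).im = Real.sin t := Complex.exp_ofReal_mul_I_im t
  have h4 : (ZMod.stdAddChar b : ℂ).re ^ 2 + (ZMod.stdAddChar b : ℂ).im ^ 2 = 1 := by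
    have e1 : ‖(ZMod.stdAddChar b : ℂ)‖ = 1 := AddChar.norm_apply _ _
    have e2 := Complex.sq_norm (ZMod.stdAddChar b : ℂ)
    rw [e1, Complex.normSq_apply] at e2
    linarith only [e2]
  have h5 := Real.sin_sq_add_cos_sq t
  have habs : |t| ≤ Real.pi := by
    have e1 := ZMod.valMinAbs_mem_Ioc (a - b)
    rw [← hv] at e1
    have e2 : |(v : ℝ)| * 2 ≤ M := by
      have f1 : -(M : ℝ) ≤ v * 2 := by exact_mod_cast e1.1.le
      have f2 : (v : ℝ) * 2 ≤ M := by exact_mod_cast e1.2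
      have f3 : |(v : ℝ) * 2| ≤ M := abs_le.2 ⟨f1, f2⟩
      rw [abs_mul, abs_two] at f3
      exact f3
    rw [ht, abs_div, abs_mul, abs_mul, abs_two, abs_of_pos Real.pi_pos, abs_of_pos hM,
      div_le_iff₀ hM]
    nlinarith only [e2, Real.pi_pos]
  have h6 := Real.cos_le_one_sub_mul_cos_sq habs
  have h7 : 2 / Real.pi ^ 2 * t ^ 2 = 8 / (M : ℝ) ^ 2 * (v : ℝ) ^ 2 := by
    rw [ht]
    have := Real.pi_pos
    field_simp
    ring
  rw [h1, Complex.mul_re, Complex.mul_im, h2, h3]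
  set r : ℝ := (ZMod.stdAddChar b : ℂ).re
  set s : ℝ := (ZMod.stdAddChar b : ℂ).im
  have h8 : (r * Real.cos t - s * Real.sin t - r) ^ 2 + (r * Real.sin t + s * Real.cos t - s) ^ 2 =
      (r ^ 2 + s ^ 2) * (Real.sin t ^ 2 + Real.cos t ^ 2 + 1 - 2 * Real.cos t) := by ring
  rw [h8, h4, h5]
  have h9 : 16 / (M : ℝ) ^ 2 * (v : ℝ) ^ 2 = 2 * (8 / (M : ℝ) ^ 2 * (v : ℝ) ^ 2) := by ring
  rw [h9, ← h7]
  linarith only [h6]

/-- MOM -/
theorem mom : MomStmt := by
  intro d M _ K i hK hK0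
  rw [mom_qf K hK, mom_qf K hK, ← mul_add, ← Finset.sum_add_distrib, Finset.mul_sum,
    Finset.mul_sum]
  refine Finset.sum_le_sum fun x _ => ?_
  rw [← Finset.sum_add_distrib, Finset.mul_sum, Finset.mul_sum]
  refine Finset.sum_le_sum fun y _ => ?_
  rw [← mul_add, mom_ec, mom_ec]
  have h := mom_dist (x i) (y i)
  have h2 : ((x - y) i) = x i - y i := rfl
  rw [h2]
  calc 8 / (M : ℝ) ^ 2 * (K x y * ((x i - y i).valMinAbs : ℝ) ^ 2)
      = 1 / 2 * (K x y * (16 / (M : ℝ) ^ 2 * ((x i - y i).valMinAbs : ℝ) ^ 2)) := by ring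
    _ ≤ _ := mul_le_mul_of_nonneg_left (mul_le_mul_of_nonneg_left h (hK0 x y)) (by norm_num)

end Pool.Agent.LE.QZ.H1
end
end -- Pool.Agent.Helper1_LQZ.MOM

section -- Pool.Agent.Helper44_LQZ.THC

/-!
Row THC (squad LQZ): the inverse of `1 - Y` in the sup norm, from `|(1 - Y)⁻¹ - 1| ≤ 1`
(adapted from `Helper41_LQF/THB.lean`).
-/

set_option autoImplicit false

open scoped BigOperators Matrix ComplexOrder

noncomputable section

namespace Pool.Agent.LE.QZ.H44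

open Pool.Agent.LE.QD

section
variable {X : Type} [Fintype X]

theorem n2_nn (u : X → ℂ) : 0 ≤ n2 u := Finset.sum_nonneg fun _ _ => by positivity

theorem n2_zero {u : X → ℂ} (h : n2 u ≤ 0) : u = 0 := by
  funext a
  have h1 : ‖u a‖ ^ 2 ≤ n2 u := Finset.single_le_sum (f := fun x => ‖u x‖ ^ 2)
    (fun _ _ => by positivity) (Finset.mem_univ a)
  have h2 : ‖u a‖ ^ 2 = 0 := le_antisymm (h1.trans h) (by positivity)
  have h3 : ‖u a‖ = 0 := pow_eq_zero_iff (two_ne_zero) |>.1 h2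
  simpa using h3

/-- the norm of `ℓ²` -/
def nr (u : X → ℂ) : ℝ := Real.sqrt (n2 u)

theorem nr_eq (u : X → ℂ) : nr u = ‖(WithLp.toLp 2 u : EuclideanSpace ℂ X)‖ := by
  rw [EuclideanSpace.norm_eq]
  rfl

theorem nr_add (u v : X → ℂ) : nr (u + v) ≤ nr u + nr v := by
  rw [nr_eq, nr_eq, nr_eq, WithLp.toLp_add]
  exact norm_add_le _ _

/-- Schur -/
theorem schur (Y : Matrix X X ℂ) (t : ℝ) (ht : 0 ≤ t) (hsym : ∀ a b, Y a b = Y b a)
    (hrow : ∀ a, ∑ b, ‖Y a b‖ ≤ t) (u : X → ℂ) : n2 (Y *ᵥ u) ≤ t ^ 2 * n2 u := by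
  have h1 : ∀ a, ‖(Y *ᵥ u) a‖ ^ 2 ≤ t * ∑ b, ‖Y a b‖ * ‖u b‖ ^ 2 := by
    intro a
    have h2 : ‖(Y *ᵥ u) a‖ ≤ ∑ b, ‖Y a b‖ * ‖u b‖ := by
      refine (norm_sum_le _ _).trans (le_of_eq ?_)
      exact Finset.sum_congr rfl fun b _ => norm_mul _ _
    have h3 : (∑ b, ‖Y a b‖ * ‖u b‖) ^ 2 ≤ (∑ b, ‖Y a b‖) * ∑ b, ‖Y a b‖ * ‖u b‖ ^ 2 := by
      apply Finset.sum_sq_le_sum_mul_sum_of_sq_le_mul
      · intro b _
        positivity
      · intro b _
        positivity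
      · intro b _
        exact le_of_eq (by ring)
    calc ‖(Y *ᵥ u) a‖ ^ 2 ≤ (∑ b, ‖Y a b‖ * ‖u b‖) ^ 2 :=
          pow_le_pow_left₀ (norm_nonneg _) h2 2
      _ ≤ (∑ b, ‖Y a b‖) * ∑ b, ‖Y a b‖ * ‖u b‖ ^ 2 := h3
      _ ≤ t * ∑ b, ‖Y a b‖ * ‖u b‖ ^ 2 := by
          exact mul_le_mul_of_nonneg_right (hrow a) (Finset.sum_nonneg fun _ _ => by positivity)
  calc n2 (Y *ᵥ u) = ∑ a, ‖(Y *ᵥ u) a‖ ^ 2 := rfl
    _ ≤ ∑ a, t * ∑ b, ‖Y a b‖ * ‖u b‖ ^ 2 := Finset.sum_le_sum fun a _ => h1 a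
    _ = t * ∑ b, (∑ a, ‖Y b a‖) * ‖u b‖ ^ 2 := by
        rw [← Finset.mul_sum, Finset.sum_comm]
        congr 1
        refine Finset.sum_congr rfl fun b _ => ?_
        rw [Finset.sum_mul]
        exact Finset.sum_congr rfl fun a _ => by rw [hsym a b]
    _ ≤ t * ∑ b, t * ‖u b‖ ^ 2 := by
        apply mul_le_mul_of_nonneg_left _ ht
        exact Finset.sum_le_sum fun b _ => mul_le_mul_of_nonneg_right (hrow b) (by positivity)
    _ = t ^ 2 * n2 u := by
        rw [← Finset.mul_sum]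
        unfold n2
        ring

theorem parl (u v : X → ℂ) : n2 (u + v) + n2 (u - v) = 2 * n2 u + 2 * n2 v := by
  unfold n2
  rw [← Finset.sum_add_distrib, Finset.mul_sum, Finset.mul_sum, ← Finset.sum_add_distrib]
  refine Finset.sum_congr rfl fun x _ => ?_
  have h := parallelogram_law_with_norm ℝ (u x) (v x)
  rw [Pi.add_apply, Pi.sub_apply]
  nlinarith only [h]

theorem n2_smul (c : ℂ) (u : X → ℂ) : n2 (c • u) = ‖c‖ ^ 2 * n2 u := by
  unfold n2
  rw [Finset.mul_sum]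
  refine Finset.sum_congr rfl fun x _ => ?_
  rw [Pi.smul_apply, smul_eq_mul, norm_mul, mul_pow]

/-- a row of a matrix of small norm -/
theorem row_le (M : Matrix X X ℂ) (β : ℝ) (hβ : 0 ≤ β) (hMn : ∀ u, nr (M *ᵥ u) ≤ β * nr u)
    (hc : (Fintype.card X : ℝ) * β ^ 2 ≤ 1) (a : X) : ∑ b, ‖M a b‖ ≤ 1 := by
  obtain ⟨R, hR⟩ : ∃ R : ℝ, R = ∑ b, ‖M a b‖ ^ 2 := ⟨_, rfl⟩
  have hR0 : 0 ≤ R := by rw [hR]; positivity
  have h1 : (M *ᵥ fun b => (starRingEnd ℂ) (M a b)) a = (R : ℂ) := by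
    rw [hR]
    show ∑ b, M a b * (starRingEnd ℂ) (M a b) = _
    push_cast
    exact Finset.sum_congr rfl fun b _ => by rw [Complex.mul_conj, Complex.normSq_eq_norm_sq]; push_cast; rfl
  have h2 : nr (fun b => (starRingEnd ℂ) (M a b)) = Real.sqrt R := by
    unfold nr n2
    rw [hR]
    congr 1
    exact Finset.sum_congr rfl fun b _ => by rw [RCLike.norm_conj]
  have h3 : R ≤ nr (M *ᵥ fun b => (starRingEnd ℂ) (M a b)) := by
    unfold nr
    apply Real.le_sqrt_of_sq_le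
    unfold n2
    have := Finset.single_le_sum (f := fun x => ‖(M *ᵥ fun b => (starRingEnd ℂ) (M a b)) x‖ ^ 2)
      (fun _ _ => by positivity) (Finset.mem_univ a)
    simp only [h1] at this
    rw [Complex.norm_real, Real.norm_of_nonneg hR0] at this
    exact this
  have h4 := hMn (fun b => (starRingEnd ℂ) (M a b))
  rw [h2] at h4
  have h5 := h3.trans h4
  have h6 : Real.sqrt R ≤ β := by
    by_contra hlt
    push Not at hlt
    have h7 : 0 < Real.sqrt R := lt_of_le_of_lt hβ hlt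
    have h8 := mul_lt_mul_of_pos_right hlt h7
    rw [Real.mul_self_sqrt hR0] at h8
    linarith
  have h7 : R ≤ β ^ 2 := by
    have h8 := mul_self_le_mul_self (Real.sqrt_nonneg R) h6
    rw [Real.mul_self_sqrt hR0] at h8
    rw [sq]
    exact h8
  have h8 : (∑ b, ‖M a b‖) ^ 2 ≤ (Fintype.card X : ℝ) * R := by
    rw [hR]
    have := sq_sum_le_card_mul_sum_sq (s := (Finset.univ : Finset X)) (f := fun b => ‖M a b‖)
    rw [Finset.card_univ] at this
    exact this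
  have h9 : (∑ b, ‖M a b‖) ^ 2 ≤ 1 := by
    have : (Fintype.card X : ℝ) * R ≤ (Fintype.card X : ℝ) * β ^ 2 :=
      mul_le_mul_of_nonneg_left h7 (Nat.cast_nonneg _)
    linarith
  exact (sq_le_one_iff₀ (Finset.sum_nonneg fun _ _ => norm_nonneg _)).1 h9

/-- powers of a matrix with small rows -/
theorem pow_row [DecidableEq X] (Y : Matrix X X ℂ) (t : ℝ) (ht : 0 ≤ t)
    (hrow : ∀ a, ∑ b, ‖Y a b‖ ≤ t) : ∀ (k : ℕ) (a : X), ∑ b, ‖(Y ^ k) a b‖ ≤ t ^ k := by
  intro k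
  induction k with
  | zero =>
    intro a
    rw [pow_zero, pow_zero]
    rw [Finset.sum_eq_single a]
    · simp
    · intro b _ hb
      rw [Matrix.one_apply_ne hb.symm, norm_zero]
    · intro h; exact absurd (Finset.mem_univ a) h
  | succ k ih =>
    intro a
    calc ∑ b, ‖(Y ^ (k + 1)) a b‖ ≤ ∑ b, ∑ c, ‖(Y ^ k) a c‖ * ‖Y c b‖ := by
          refine Finset.sum_le_sum fun b _ => ?_
          rw [pow_succ, Matrix.mul_apply]
          refine (norm_sum_le _ _).trans (le_of_eq ?_)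
          exact Finset.sum_congr rfl fun c _ => norm_mul _ _
      _ = ∑ c, ‖(Y ^ k) a c‖ * ∑ b, ‖Y c b‖ := by
          rw [Finset.sum_comm]
          exact Finset.sum_congr rfl fun c _ => by rw [Finset.mul_sum]
      _ ≤ ∑ c, ‖(Y ^ k) a c‖ * t := by
          refine Finset.sum_le_sum fun c _ => ?_
          exact mul_le_mul_of_nonneg_left (hrow c) (norm_nonneg _)
      _ = (∑ c, ‖(Y ^ k) a c‖) * t := by rw [Finset.sum_mul]
      _ ≤ t ^ k * t := mul_le_mul_of_nonneg_right (ih a) ht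
      _ = t ^ (k + 1) := by rw [pow_succ]

end

theorem thc : ThcStmt := by
  intro X _ _ Y s k₀ hs hs2 hk hX hsym hunit hXi hrow a
  obtain ⟨Θ, hΘ⟩ : ∃ Θ, Θ = (1 - Y)⁻¹ := ⟨_, rfl⟩
  have hΘ1 : (1 - Y) * Θ = 1 := by rw [hΘ]; exact Matrix.mul_nonsing_inv _ hunit
  have hΘ2 : Θ * (1 - Y) = 1 := by rw [hΘ]; exact Matrix.nonsing_inv_mul _ hunit
  rw [← hΘ] at hXi ⊢
  have h1s : 0 ≤ 1 + s := by linarith only [hs]
  -- `|Y v| ≤ |v - Y v|`
  have hY1 : ∀ v : X → ℂ, n2 (Y *ᵥ v) ≤ n2 (v - Y *ᵥ v) := by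
    intro v
    have h1 := hXi ((1 - Y) *ᵥ v)
    have h2 : (Θ - 1) *ᵥ ((1 - Y) *ᵥ v) = Y *ᵥ v := by
      rw [Matrix.mulVec_mulVec, Matrix.sub_mul, hΘ2, Matrix.one_mul, sub_sub_cancel]
    have h3 : (1 - Y) *ᵥ v = v - Y *ᵥ v := by
      rw [Matrix.sub_mulVec, Matrix.one_mulVec]
    rw [h2, h3] at h1
    exact h1
  have hY2 := schur Y (1 + s) h1s hsym hrow
  obtain ⟨Z, hZ⟩ : ∃ Z : Matrix X X ℂ, Z = (1 / 2 : ℂ) • (1 + Y) := ⟨_, rfl⟩
  have hZn2 : ∀ v : X → ℂ, n2 (Z *ᵥ v) ≤ (9 / 10) ^ 2 * n2 v := by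
    intro v
    have h1 : Z *ᵥ v = (1 / 2 : ℂ) • (v + Y *ᵥ v) := by
      rw [hZ, Matrix.smul_mulVec, Matrix.add_mulVec, Matrix.one_mulVec]
    have h2 : ‖(1 / 2 : ℂ)‖ ^ 2 = 1 / 4 := by norm_num
    rw [h1, n2_smul, h2]
    have h3 := parl v (Y *ᵥ v)
    have h4 := hY1 v
    have h5 := hY2 v
    have h6 : (1 + s) ^ 2 ≤ 121 / 100 := by nlinarith only [hs, hs2]
    have h7 : (1 + s) ^ 2 * n2 v ≤ 121 / 100 * n2 v :=
      mul_le_mul_of_nonneg_right h6 (n2_nn v)
    have h8 := n2_nn v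
    linarith only [h3, h4, h5, h7, h8]
  have hZn : ∀ u, nr (Z *ᵥ u) ≤ 9 / 10 * nr u := by
    intro u
    unfold nr
    rw [← Real.sqrt_sq (show (0 : ℝ) ≤ 9 / 10 by norm_num), ← Real.sqrt_mul (by positivity)]
    exact Real.sqrt_le_sqrt (hZn2 u)
  have hΘn : ∀ u, nr (Θ *ᵥ u) ≤ 2 * nr u := by
    intro u
    have h1 : Θ *ᵥ u = u + (Θ - 1) *ᵥ u := by
      rw [Matrix.sub_mulVec, Matrix.one_mulVec, add_sub_cancel]
    have h3 := nr_add u ((Θ - 1) *ᵥ u)
    rw [← h1] at h3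
    have h4 : nr ((Θ - 1) *ᵥ u) ≤ nr u := Real.sqrt_le_sqrt (hXi u)
    linarith only [h3, h4]
  have hpow : ∀ (k : ℕ) (u : X → ℂ), nr ((Z ^ k) *ᵥ u) ≤ (9 / 10) ^ k * nr u := by
    intro k
    induction k with
    | zero => intro u; simp
    | succ k ih =>
      intro u
      rw [pow_succ, ← Matrix.mulVec_mulVec]
      calc nr ((Z ^ k) *ᵥ (Z *ᵥ u)) ≤ (9 / 10) ^ k * nr (Z *ᵥ u) := ih _
        _ ≤ (9 / 10) ^ k * (9 / 10 * nr u) := by
            exact mul_le_mul_of_nonneg_left (hZn u) (by positivity)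
        _ = (9 / 10) ^ (k + 1) * nr u := by ring
  obtain ⟨M, hM⟩ : ∃ M, M = Z ^ k₀ * Θ := ⟨_, rfl⟩
  have hMn : ∀ u, nr (M *ᵥ u) ≤ 2 * (9 / 10) ^ k₀ * nr u := by
    intro u
    rw [hM, ← Matrix.mulVec_mulVec]
    calc nr ((Z ^ k₀) *ᵥ (Θ *ᵥ u)) ≤ (9 / 10) ^ k₀ * nr (Θ *ᵥ u) := hpow _ _
      _ ≤ (9 / 10) ^ k₀ * (2 * nr u) := mul_le_mul_of_nonneg_left (hΘn u) (by positivity)
      _ = 2 * (9 / 10) ^ k₀ * nr u := by ring
  have hMrow : ∑ b, ‖M a b‖ ≤ 1 := by
    apply row_le M _ (by positivity) hMn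
    calc (Fintype.card X : ℝ) * (2 * (9 / 10) ^ k₀) ^ 2
        = 4 * ((Fintype.card X : ℝ) * (9 / 10) ^ (2 * k₀)) := by rw [pow_mul']; ring
      _ ≤ 1 := by linarith only [hX]
  have hZrow : ∀ a, ∑ b, ‖Z a b‖ ≤ 1 + s := by
    intro a
    have h1 : ∀ b, ‖Z a b‖ ≤ 1 / 2 * (‖(1 : Matrix X X ℂ) a b‖ + ‖Y a b‖) := by
      intro b
      have h2 : Z a b = (1 / 2 : ℂ) * ((1 : Matrix X X ℂ) a b + Y a b) := by
        rw [hZ]
        rfl
      have h3 : ‖(1 / 2 : ℂ)‖ = 1 / 2 := by norm_num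
      rw [h2, norm_mul, h3]
      exact mul_le_mul_of_nonneg_left (norm_add_le _ _) (by norm_num)
    have h4 : ∑ b, ‖(1 : Matrix X X ℂ) a b‖ = 1 := by
      rw [Finset.sum_eq_single a]
      · simp
      · intro b _ hb
        rw [Matrix.one_apply_ne hb.symm, norm_zero]
      · intro h; exact absurd (Finset.mem_univ a) h
    calc ∑ b, ‖Z a b‖ ≤ ∑ b, 1 / 2 * (‖(1 : Matrix X X ℂ) a b‖ + ‖Y a b‖) :=
          Finset.sum_le_sum fun b _ => h1 b
      _ = 1 / 2 * (1 + ∑ b, ‖Y a b‖) := by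
          rw [← Finset.mul_sum, Finset.sum_add_distrib, h4]
      _ ≤ 1 + s := by
          have := hrow a
          linarith only [hs, this]
  have hexp : Θ = (1 / 2 : ℂ) • ∑ k ∈ Finset.range k₀, Z ^ k + M := by
    have h1 : (∑ k ∈ Finset.range k₀, Z ^ k) * (1 - Z) = 1 - Z ^ k₀ := geom_sum_mul_neg Z k₀
    have h3 : 1 - Z = (1 / 2 : ℂ) • (1 - Y) := by
      rw [hZ]
      ext i j
      simp only [Matrix.sub_apply, Matrix.smul_apply, Matrix.add_apply, smul_eq_mul]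
      ring
    have h2 : (1 / 2 : ℂ) • ∑ k ∈ Finset.range k₀, Z ^ k = (1 - Z ^ k₀) * Θ := by
      rw [← h1, h3, Matrix.mul_smul, Matrix.smul_mul, Matrix.mul_assoc, hΘ1, Matrix.mul_one]
    rw [h2, hM, Matrix.sub_mul, Matrix.one_mul, sub_add_cancel]
  calc ∑ b, ‖Θ a b‖ ≤ ∑ b, (1 / 2 * ∑ k ∈ Finset.range k₀, ‖(Z ^ k) a b‖ + ‖M a b‖) := by
        refine Finset.sum_le_sum fun b _ => ?_
        conv_lhs => rw [hexp]
        have h3 : ‖(1 / 2 : ℂ)‖ = 1 / 2 := by norm_num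
        rw [Matrix.add_apply, Matrix.smul_apply, Matrix.sum_apply]
        refine (norm_add_le _ _).trans (add_le_add ?_ le_rfl)
        rw [smul_eq_mul, norm_mul, h3]
        exact mul_le_mul_of_nonneg_left (norm_sum_le _ _) (by norm_num)
    _ = 1 / 2 * ∑ k ∈ Finset.range k₀, ∑ b, ‖(Z ^ k) a b‖ + ∑ b, ‖M a b‖ := by
        rw [Finset.sum_add_distrib, ← Finset.mul_sum, Finset.sum_comm]
    _ ≤ 1 / 2 * ∑ _k ∈ Finset.range k₀, (2 : ℝ) + 1 := by
        refine add_le_add (mul_le_mul_of_nonneg_left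
          (Finset.sum_le_sum fun k hk' => ?_) (by norm_num)) hMrow
        refine (pow_row Z (1 + s) h1s hZrow k a).trans ?_
        refine le_trans ?_ hk
        exact pow_le_pow_right₀ (by linarith only [hs]) (Finset.mem_range.1 hk').le
    _ ≤ 2 * k₀ + 1 := by
        rw [Finset.sum_const, Finset.card_range, nsmul_eq_mul]
        have : (0 : ℝ) ≤ k₀ := Nat.cast_nonneg _
        linarith only

end Pool.Agent.LE.QZ.H44
end
end -- Pool.Agent.Helper44_LQZ.THC

section -- Pool.Agent.Helper72_LQZ.UPE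

/-!
# Squad LQZ, UPE: the part of the second moment
-/

set_option autoImplicit false
set_option linter.unusedSectionVars false

open MeasureTheory ProbabilityTheory Function Filter

open scoped ENNReal BigOperators Topology NNReal ComplexOrder Matrix

noncomputable section

namespace Pool.Agent.LE.QZ.H72

open Pool.Agent.Anderson hiding box mem_box card_box
open Pool.Agent.Loc Pool.Agent.Mob Pool.Agent.Helper54.Bal
  Pool.Agent.Helper96.EXP Pool.Agent.BED
open Pool.Agent.LE.MN Pool.Agent.LE.CL Pool.Agent.LE.IR Pool.Agent.LE.QD Pool.Agent.LE.QF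

section Mat

variable {X : Type} [Fintype X] [DecidableEq X]

/-- the quadratic form as a double sum -/
theorem qf_eq (A : Matrix X X ℝ) (f : X → ℝ) : qf A f = ∑ a, ∑ b, f a * A a b * f b := by
  unfold QF.qf
  refine Finset.sum_congr rfl fun a _ => ?_
  rw [Matrix.mulVec, dotProduct, Finset.mul_sum]
  exact Finset.sum_congr rfl fun b _ => by ring

theorem qf_smul (c : ℝ) (A : Matrix X X ℝ) (f : X → ℝ) : qf (c • A) f = c * qf A f := by
  rw [qf_eq, qf_eq, Finset.mul_sum]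
  refine Finset.sum_congr rfl fun a _ => ?_
  rw [Finset.mul_sum]
  refine Finset.sum_congr rfl fun b _ => ?_
  rw [Matrix.smul_apply, smul_eq_mul]
  ring

theorem qf_Dl {K : Matrix X X ℝ} (hK : ∀ a b, K a b = K b a) (f : X → ℝ) :
    2 * qf (Dl K) f = ∑ a, ∑ b, K a b * (f a - f b) ^ 2 := by
  have h1 : qf (Dl K) f = ∑ a, ∑ b, K a b * f a ^ 2 - ∑ a, ∑ b, K a b * (f a * f b) := by
    rw [qf_eq, ← Finset.sum_sub_distrib]
    refine Finset.sum_congr rfl fun a _ => ?_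
    unfold Dl
    have h2 : ∀ b, f a * (Matrix.diagonal (fun a => ∑ b, K a b) - K) a b * f b =
        f a * Matrix.diagonal (fun a => ∑ b, K a b) a b * f b - K a b * (f a * f b) := by
      intro b
      rw [Matrix.sub_apply]
      ring
    simp only [h2]
    rw [Finset.sum_sub_distrib]
    congr 1
    rw [Finset.sum_eq_single a]
    · rw [Matrix.diagonal_apply_eq, Finset.mul_sum, Finset.sum_mul]
      exact Finset.sum_congr rfl fun b _ => by ring
    · intro b _ hb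
      rw [Matrix.diagonal_apply_ne _ (Ne.symm hb), mul_zero, zero_mul]
    · intro h
      exact absurd (Finset.mem_univ a) h
  have h2 : ∑ a, ∑ b, K a b * (f a - f b) ^ 2 = ∑ a, ∑ b, K a b * f a ^ 2 +
      ∑ a, ∑ b, K a b * f b ^ 2 - 2 * ∑ a, ∑ b, K a b * (f a * f b) := by
    rw [Finset.mul_sum, ← Finset.sum_add_distrib, ← Finset.sum_sub_distrib]
    refine Finset.sum_congr rfl fun a _ => ?_
    rw [Finset.mul_sum, ← Finset.sum_add_distrib, ← Finset.sum_sub_distrib]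
    exact Finset.sum_congr rfl fun b _ => by ring
  have h3 : ∑ a, ∑ b, K a b * f b ^ 2 = ∑ a, ∑ b, K a b * f a ^ 2 := by
    rw [Finset.sum_comm]
    exact Finset.sum_congr rfl fun a _ => Finset.sum_congr rfl fun b _ => by rw [hK b a]
  rw [h2, h3, h1]
  ring

theorem qf_Dl_nonneg {K : Matrix X X ℝ} (hK : ∀ a b, K a b = K b a) (h0 : ∀ a b, 0 ≤ K a b)
    (f : X → ℝ) : 0 ≤ qf (Dl K) f := by
  have h1 := qf_Dl hK f
  have h2 : 0 ≤ ∑ a, ∑ b, K a b * (f a - f b) ^ 2 :=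
    Finset.sum_nonneg fun a _ => Finset.sum_nonneg fun b _ => mul_nonneg (h0 a b) (sq_nonneg _)
  linarith only [h1, h2]

theorem KK_symm {G : Matrix X X ℂ} (h : ∀ a b, G a b = G b a) (a b : X) :
    KK G a b = KK G b a := by
  unfold KK
  rw [h a b]

end Mat

section Jet

variable {ι : Type} [Fintype ι] [DecidableEq ι]

/-- a constant times a jet -/
theorem cmul (jal : JalStmt) {q : ℝ × (ι → ℝ)} {F : ℝ × (ι → ℝ) → ℝ} {v l : ℝ} {g : ι → ℝ}
    (h : HJ F q v g l) (k : ℝ) : HJ (fun r => k * F r) q (k * v) (fun c => k * g c) (k * l) := by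
  have h1 := ((jal ι ℝ q).2.2.1 (fun _ => k) F k v 0 l (fun _ => 0) g ((jal ι ℝ q).1 k) h).2.2
  have e1 : (fun c => k * g c + 0 * v) = fun c => k * g c := by
    funext c
    ring
  have e2 : k * l + 0 * v + ∑ c, 0 * g c = k * l := by
    simp
  rw [e1, e2] at h1
  exact h1

/-- the jet of the quadratic form -/
theorem qfj {X : Type} [Fintype X] [DecidableEq X] (jal : JalStmt) {q : ℝ × (ι → ℝ)}
    {F : ℝ × (ι → ℝ) → Matrix X X ℝ} {v l : Matrix X X ℝ} {g : ι → Matrix X X ℝ}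
    (h : HM F q v g l) (f : X → ℝ) :
    HJ (fun r => qf (F r) f) q (qf v f) (fun c => qf (g c) f) (qf l f) := by
  have hs := (jal ι ℝ q).2.2.2.2.2.1
  have h1 : ∀ a ∈ (Finset.univ : Finset X), HJ (fun r => ∑ b, (f a * f b) * F r a b) q
      (∑ b, (f a * f b) * v a b) (fun c => ∑ b, (f a * f b) * g c a b)
      (∑ b, (f a * f b) * l a b) := by
    intro a _
    exact hs X Finset.univ (fun b r => (f a * f b) * F r a b) (fun b => (f a * f b) * v a b)
      (fun b => (f a * f b) * l a b) (fun b c => (f a * f b) * g c a b)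
      (fun b _ => cmul jal (h a b) (f a * f b))
  have h2 := hs X Finset.univ (fun a r => ∑ b, (f a * f b) * F r a b)
    (fun a => ∑ b, (f a * f b) * v a b) (fun a => ∑ b, (f a * f b) * l a b)
    (fun a c => ∑ b, (f a * f b) * g c a b) h1
  have e : ∀ A : Matrix X X ℝ, qf A f = ∑ a, ∑ b, (f a * f b) * A a b := by
    intro A
    rw [qf_eq]
    exact Finset.sum_congr rfl fun a _ => Finset.sum_congr rfl fun b _ => by ring
  simp only [e]
  exact h2

end Jet

/-- UPE -/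
theorem upe (jtb : JtbStmt) (jal : JalStmt) (wfu : WfuStmt) (rsj : RsjStmt) : UpeStmt := by
  intro c₁ C₁ C₀ hc₁ hC₁ hC₀
  obtain ⟨Cw, hCw, hwfu⟩ := wfu C₀ hC₀
  have hCw0 : 0 < Cw := by linarith
  have hC₀0 : 0 < C₀ := by linarith
  refine ⟨Cw * C₀, by nlinarith only [hC₀, hCw], ?_⟩
  intro d M _ D c₀ κ τ q had hq0 hqT hgoo
  obtain ⟨hκ1, hτ1, hηκ, hκw, hτ0, hτκ, hκτ⟩ := hgoo.hκ
  obtain ⟨hT0, hη0, hw1, hηT⟩ := had.hT
  have hκ0 : 0 < κ := lt_of_lt_of_le hη0 hηκ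
  have hkp : 0 < D.kp q.1 := by rw [← hκ1]; exact hκ0
  obtain ⟨hJ, -⟩ := rsj d M D c₁ C₁ c₀ q hc₁ had hkp
  rw [← hτ1] at hJ
  have hs := hJ.hs
  obtain ⟨ht1, ht2, ht3⟩ := hJ.ht
  -- the jet of the Laplacian
  have hX : HM D.X q (τ • Dl (KK (D.G q))) (fun c => τ • Dl (dK (D.G q) c))
      (τ • Dl (KK (D.G q) * KK (D.G q) + EK (D.G q) (D.mu q)) - Dl (KK (D.G q))) :=
    (jtb (Tor d M) q D.G D.ta (D.G q) D.m τ (D.mu q) hJ rfl).2.2.2.2
  obtain ⟨V, hV⟩ : ∃ V, V = τ • Dl (KK (D.G q)) := ⟨_, rfl⟩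
  obtain ⟨L, hL⟩ : ∃ L, L =
    τ • Dl (KK (D.G q) * KK (D.G q) + EK (D.G q) (D.mu q)) - Dl (KK (D.G q)) := ⟨_, rfl⟩
  obtain ⟨g, hg⟩ : ∃ g, g = fun c => τ • Dl (dK (D.G q) c) := ⟨_, rfl⟩
  rw [← hV, ← hL, ← hg] at hX
  have hqv : ∀ f, 0 ≤ qf V f := by
    intro f
    rw [hV, qf_smul]
    refine mul_nonneg hτ0.le (qf_Dl_nonneg (KK_symm hs) (fun a b => ?_) f)
    unfold KK
    positivity
  have hw : ∀ f, qf L f ≤ (1 + Cw * D.δ) * qf V f / τ := by
    intro f
    rw [hL, hV]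
    exact hwfu (Tor d M) (D.G q) (D.mu q) D.nr κ τ D.δ D.N hgoo.hG f
  -- the jet of `U6`
  obtain ⟨hcst, -, halg, -, -, hsum, htime, -⟩ := jal (Tor d M) ℝ q
  have hta : HJ (fun r : ℝ × (Tor d M → ℝ) => D.ta r.1) q τ (fun _ => 0) (-1) := by
    have h1 := htime D.ta ht1
    rw [ht2, ht3] at h1
    exact h1
  obtain ⟨S, hS⟩ : ∃ S, S = qf V D.f₁ + qf V D.f₂ := ⟨_, rfl⟩
  have hS0 : 0 ≤ S := by
    rw [hS]
    exact add_nonneg (hqv _) (hqv _)
  have hsm := (halg (fun r => qf (D.X r) D.f₁) (fun r => qf (D.X r) D.f₂) (qf V D.f₁)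
    (qf V D.f₂) (qf L D.f₁) (qf L D.f₂) (fun c => qf (g c) D.f₁) (fun c => qf (g c) D.f₂)
    (qfj jal hX D.f₁) (qfj jal hX D.f₂)).1
  rw [← hS] at hsm
  have hpr := (halg (fun r => D.ta r.1) (fun r => qf (D.X r) D.f₁ + qf (D.X r) D.f₂) τ S (-1)
    (qf L D.f₁ + qf L D.f₂) (fun _ => 0) (fun c => qf (g c) D.f₁ + qf (g c) D.f₂) hta hsm).2.2
  have hU := cmul jal hpr D.lam
  have hU6 : (fun r : ℝ × (Tor d M → ℝ) => D.lam * (D.ta r.1 * (qf (D.X r) D.f₁ +
      qf (D.X r) D.f₂))) = D.U6 := rfl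
  rw [hU6] at hU
  refine ⟨hU.sm, ?_⟩
  rw [hU.ge, hU.vl]
  have e1 : ∑ c : Tor d M, (0 : ℝ) * (qf (g c) D.f₁ + qf (g c) D.f₂) = 0 := by simp
  rw [e1, add_zero]
  -- the drift
  have hdr : τ * (qf L D.f₁ + qf L D.f₂) + -1 * S ≤ Cw * D.δ * S := by
    have h1 := hw D.f₁
    have h2 := hw D.f₂
    have h3 : τ * (qf L D.f₁ + qf L D.f₂) ≤ (1 + Cw * D.δ) * S := by
      have h4 : qf L D.f₁ + qf L D.f₂ ≤ (1 + Cw * D.δ) * S / τ := by
        have h5 : (1 + Cw * D.δ) * S / τ =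
            (1 + Cw * D.δ) * qf V D.f₁ / τ + (1 + Cw * D.δ) * qf V D.f₂ / τ := by
          rw [hS]
          ring
        linarith
      rw [le_div_iff₀ hτ0] at h4
      linarith
    linarith
  -- numbers
  have hδ0 : 0 < D.δ := had.hδ.1
  obtain ⟨he1, he2, he3⟩ := had.he
  obtain ⟨hj2, hp2, hL0, hN1, hπ0⟩ := had.hj
  have hw0 : 0 < D.w := lt_of_lt_of_le hκ0 hκw
  have hp1 : (1 : ℝ) ≤ D.p := by
    have : 1 ≤ D.p := by omega
    exact_mod_cast this
  have haN : D.δ ≤ D.aN := by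
    unfold Dat.aN
    have hch : 0 ≤ D.ch := by
      unfold Dat.ch
      positivity
    have h1 : 0 ≤ (D.j : ℝ) * (D.h ^ 2 * (D.δ + Real.sqrt D.ch / D.δ)) := by
      positivity
    have h2 : 0 ≤ (D.j : ℝ) ^ 2 * (D.h ^ 4 * (D.ch / D.δ ^ 2) + D.N * D.w + D.δ +
        1 / Real.sqrt D.L₀ + (D.e₀ - 1)) := by
      have h3 : 0 ≤ D.e₀ - 1 := by linarith only [he1, he2]
      positivity
    have h3 : 0 ≤ (D.p : ℝ) ^ 2 * (D.N * D.w + D.δ ^ 2 + D.π₀) := by positivity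
    have h4 : D.δ ≤ D.p * D.δ := by nlinarith only [hδ0, hp1]
    linarith only [h1, h2, h3, h4]
  have hlam : 0 ≤ D.lam := had.h6.1
  have hLS : 0 ≤ D.lam * S := mul_nonneg hlam hS0
  have f1 : D.lam * (τ * (qf L D.f₁ + qf L D.f₂) + -1 * S) ≤ Cw * D.δ * (D.lam * S) := by
    have := mul_le_mul_of_nonneg_left hdr hlam
    linarith
  refine f1.trans ?_
  have f2 : Cw * C₀ * D.aN / κ * (D.lam * (τ * S)) = (Cw * D.aN) * (C₀ * τ / κ) * (D.lam * S) := by
    ring
  rw [f2]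
  refine mul_le_mul_of_nonneg_right ?_ hLS
  have f3 : 1 ≤ C₀ * τ / κ := by
    rw [le_div_iff₀ hκ0, one_mul]
    exact hκτ
  have f4 : Cw * D.δ ≤ Cw * D.aN := mul_le_mul_of_nonneg_left haN hCw0.le
  have f5 : 0 ≤ Cw * D.aN := by
    have : 0 ≤ D.aN := hδ0.le.trans haN
    positivity
  nlinarith only [f3, f4, f5]

end Pool.Agent.LE.QZ.H72
end
end -- Pool.Agent.Helper72_LQZ.UPE

section -- Pool.Agent.Helper76_LQZ.QZF

/-!
# LQZ, row QZF: the final bound
-/

set_option autoImplicit false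

open MeasureTheory ProbabilityTheory Filter

open scoped ENNReal Topology

noncomputable section

namespace Pool.Agent.LE.QZ.H76

open Pool.Agent.Anderson hiding box mem_box card_box
open Pool.Agent.Loc Pool.Agent.Mob Pool.Agent.Helper54.Bal Pool.Agent.LE.MN Pool.Agent.LE.CL
  Pool.Agent.LE.QF

/-- the exponential wins -/
theorem lim_aux (C θ : ℝ) (d : ℕ) (hC : 1 ≤ C) (hθ : 0 < θ) (hd : 1 ≤ d) :
    ∃ c : ℝ, 0 < c ∧ ∀ u : ℝ, 0 < u → u ≤ c →
      3 * C * u ^ (-2 : ℝ) * Real.exp (-(u ^ (-θ) / d)) ≤ Real.exp (-(u ^ (-(θ / 2)))) := by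
  have hd0 : (1 : ℝ) ≤ d := by exact_mod_cast hd
  have h1 : ∀ᶠ x : ℝ in atTop, x ^ (4 / θ) * Real.exp (-2 * x) < 1 / (3 * C) := by
    have h := tendsto_rpow_mul_exp_neg_mul_atTop_nhds_zero (4 / θ) 2 (by norm_num)
    exact h.eventually (gt_mem_nhds (by positivity))
  have h2 : Tendsto (fun u : ℝ => u ^ (-(θ / 2))) (𝓝[>] 0) atTop := by
    have h3 : Tendsto (fun u : ℝ => (u⁻¹) ^ (θ / 2)) (𝓝[>] 0) atTop :=
      (tendsto_rpow_atTop (by positivity)).comp tendsto_inv_nhdsGT_zero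
    refine h3.congr' ?_
    filter_upwards [self_mem_nhdsWithin] with u hu
    have hu' : (0 : ℝ) < u := hu
    rw [Real.rpow_neg hu'.le, Real.inv_rpow hu'.le]
  have h3 := h2.eventually (h1.and (eventually_ge_atTop (3 * (d : ℝ))))
  obtain ⟨c, hc, hc'⟩ := mem_nhdsGT_iff_exists_Ioo_subset.1 h3
  have hc0 : (0 : ℝ) < c := hc
  refine ⟨c / 2, by positivity, ?_⟩
  intro u hu huc
  have hmem : u ∈ Set.Ioo (0 : ℝ) c := ⟨hu, by linarith only [hu, huc]⟩
  obtain ⟨h4, h5⟩ := hc' hmem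
  obtain ⟨x, hx⟩ : ∃ x : ℝ, x = u ^ (-(θ / 2)) := ⟨_, rfl⟩
  rw [← hx] at h4 h5
  have hx0 : 0 < x := by
    rw [hx]
    exact Real.rpow_pos_of_pos hu _
  have e1 : x ^ (4 / θ) = u ^ (-2 : ℝ) := by
    rw [hx, ← Real.rpow_mul hu.le]
    congr 1
    field_simp
    norm_num
  have e2 : x ^ 2 = u ^ (-θ) := by
    rw [hx, ← Real.rpow_natCast, ← Real.rpow_mul hu.le]
    congr 1
    push_cast
    ring
  rw [← hx, ← e1, ← e2]
  have h6 : 3 * C * x ^ (4 / θ) * Real.exp (-2 * x) ≤ 1 := by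
    have h7 : 3 * C * (x ^ (4 / θ) * Real.exp (-2 * x)) ≤ 3 * C * (1 / (3 * C)) :=
      mul_le_mul_of_nonneg_left h4.le (by positivity)
    have h8 : 3 * C * (1 / (3 * C)) = 1 := by
      field_simp
    linarith only [h7, h8]
  have h7 : Real.exp (-(x ^ 2 / d)) ≤ Real.exp (-2 * x) * Real.exp (-x) := by
    rw [← Real.exp_add]
    apply Real.exp_le_exp.2
    have h8 : 3 * x ≤ x ^ 2 / d := by
      rw [le_div_iff₀ (by linarith only [hd0])]
      nlinarith only [h5]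
    linarith only [h8]
  calc 3 * C * x ^ (4 / θ) * Real.exp (-(x ^ 2 / d))
      ≤ 3 * C * x ^ (4 / θ) * (Real.exp (-2 * x) * Real.exp (-x)) :=
        mul_le_mul_of_nonneg_left h7 (by positivity)
    _ = 3 * C * x ^ (4 / θ) * Real.exp (-2 * x) * Real.exp (-x) := by ring
    _ ≤ 1 * Real.exp (-x) := mul_le_mul_of_nonneg_right h6 (Real.exp_pos _).le
    _ = Real.exp (-x) := one_mul _

theorem qzf (cpz : CpzStmt) (crg : CrgStmt) : QzfStmt := by
  intro d a hd ha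
  have hd0 : (3 : ℝ) ≤ d := by exact_mod_cast hd
  obtain ⟨θ, c, hθ, hθ1, hc, hc4, h⟩ := cpz d a hd ha
  obtain ⟨C, hC, hg⟩ := crg d (by omega)
  obtain ⟨c1, hc1, hlim⟩ := lim_aux C θ d hC hθ (by omega)
  refine ⟨θ / 2, min c c1, by positivity, lt_min hc hc1, (min_le_left _ _).trans hc4, ?_⟩
  intro σ E g hσ hσc hEa hL
  have hσ0 : 0 < |σ| := abs_pos.2 hσ
  have hσc' : |σ| ≤ c := hσc.trans (min_le_left _ _)
  have hσ4 : |σ| ≤ 1 / 4 := hσc'.trans hc4
  obtain ⟨n, ρ, J, s, q, hs1, hs, hρ1, hρ, hJ1, hJ, hn1, hn, hq0, hq, hP⟩ :=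
    h σ E hσ hσc' hEa
  have hn0 : (0 : ℝ) < n := by exact_mod_cast hn1
  have hρ0 : (1 : ℝ) ≤ ρ := by exact_mod_cast hρ1
  have hJ0 : (1 : ℝ) ≤ J := by exact_mod_cast hJ1
  have key := hg σ E s q g J n ρ hσ0 (by linarith only [hθ, hθ1, hc4, hσc']) (by linarith only [ha, hθ, hθ1, hEa]) hs1 hJ1
    hn1 hρ1 hL hq0 hq hP
  obtain ⟨t, ht⟩ : ∃ t : ℝ, t = |σ| ^ (-1 : ℝ) := ⟨_, rfl⟩
  rw [← ht] at hs hρ hJ
  have ht0 : 0 < t := by
    rw [ht]
    exact Real.rpow_pos_of_pos hσ0 _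
  have ht' : t = 1 / |σ| := by
    rw [ht, Real.rpow_neg_one, one_div]
  have hl : Real.log (1 / |σ|) ≤ t := by
    rw [← ht']
    have := Real.log_le_sub_one_of_pos ht0
    linarith only [hθ, hθ1, this]
  have hl0 : 0 ≤ Real.log (1 / |σ|) := Real.log_nonneg (by
    rw [le_div_iff₀ hσ0]
    linarith only [hθ, hθ1, hc4, hσc'])
  have hlρ : 0 ≤ Real.log ρ := Real.log_nonneg hρ0
  have hnd : (n : ℝ) ^ (-(1 / (d : ℝ))) ≤ Real.exp (-(|σ| ^ (-θ) / d)) := by
    calc (n : ℝ) ^ (-(1 / (d : ℝ)))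
        ≤ Real.exp (|σ| ^ (-θ)) ^ (-(1 / (d : ℝ))) :=
          Real.rpow_le_rpow_of_nonpos (Real.exp_pos _) hn (by
            rw [neg_nonpos]
            positivity)
      _ = Real.exp (-(|σ| ^ (-θ) / d)) := by
          rw [← Real.exp_mul]
          congr 1
          ring
  have e2 : t ^ 2 = |σ| ^ (-2 : ℝ) := by
    rw [ht, ← Real.rpow_natCast, ← Real.rpow_mul hσ0.le]
    norm_num
  refine key.trans ?_
  refine le_trans ?_ (hlim |σ| hσ0 (hσc.trans (min_le_right _ _)))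
  have hn' : 0 ≤ (n : ℝ) ^ (-(1 / (d : ℝ))) := Real.rpow_nonneg hn0.le _
  have hsum : s + Real.log (1 / |σ|) + Real.log ρ ≤ 3 * t := by linarith only [hρ, hs, hl]
  have hsum0 : 0 ≤ s + Real.log (1 / |σ|) + Real.log ρ := by linarith only [hθ, hθ1, hs1, hl0, hlρ]
  calc C * J * (s + Real.log (1 / |σ|) + Real.log ρ) * (n : ℝ) ^ (-(1 / (d : ℝ)))
      ≤ C * t * (3 * t) * Real.exp (-(|σ| ^ (-θ) / d)) := by
        gcongr
    _ = 3 * C * t ^ 2 * Real.exp (-(|σ| ^ (-θ) / d)) := by ring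
    _ = 3 * C * |σ| ^ (-2 : ℝ) * Real.exp (-(|σ| ^ (-θ) / d)) := by rw [e2]

end Pool.Agent.LE.QZ.H76
end
end -- Pool.Agent.Helper76_LQZ.QZF

section -- Pool.Agent.Helper92_LQZ.XJT

/-!
# The jet of `Ξ = (1 - τ B)⁻¹ - 1`
-/

set_option autoImplicit false

open MeasureTheory ProbabilityTheory Function Filter

open scoped ENNReal BigOperators Topology NNReal ComplexOrder Matrix

noncomputable section

namespace Pool.Agent.LE.QZ.H92

open Pool.Agent.Anderson hiding box mem_box card_box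
open Pool.Agent.Loc Pool.Agent.Mob Pool.Agent.Helper54.Bal
  Pool.Agent.Helper96.EXP Pool.Agent.BED
open Pool.Agent.LE.MN Pool.Agent.LE.CL Pool.Agent.LE.IR Pool.Agent.LE.QD
open Pool.Agent.LE.QF

theorem HJ_of_eq {ι : Type} [Fintype ι] [DecidableEq ι] {E : Type} [NormedAddCommGroup E]
    [NormedSpace ℝ E] {F F' : ℝ × (ι → ℝ) → E} {q : ℝ × (ι → ℝ)} {v v' : E} {g g' : ι → E}
    {l l' : E} (h : HJ F q v g l) (hF : F = F') (hv : v = v') (hg : g = g') (hl : l = l') :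
    HJ F' q v' g' l' := by
  subst hF hv hg hl
  exact h

theorem xjt (jal : JalStmt) (jma : JmaStmt) (jtb : JtbStmt) : XjtStmt := by
  intro X _ _ q Gm ta G Θ m τ μ hτ hyp hμ hu hΘ
  obtain ⟨-, -, -, hY, -⟩ := jtb X q Gm ta G m τ μ hyp hμ
  obtain ⟨Yc, hYc⟩ : ∃ Yc : X → Matrix X X ℂ, Yc = fun c => (τ : ℂ) • dB G c := ⟨_, rfl⟩
  have hYcc : ∀ c, (τ : ℂ) • dB G c = Yc c := by
    intro c
    rw [hYc]
  obtain ⟨Yl, hYl⟩ : ∃ Yl : Matrix X X ℂ, Yl = -BB G + (τ : ℂ) • (BB G * BB G + EB G μ) :=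
    ⟨_, rfl⟩
  -- the jet of `1 - Y`
  have h1 : HM (fun r => (1 : Matrix X X ℂ) - (ta r.1 : ℂ) • BB (Gm r)) q
      (1 - (τ : ℂ) • BB G) (fun c => -Yc c) (-Yl) := by
    intro x y
    have h2 := ((jal X ℂ q).2.2.1 _ _ _ _ _ _ _ _ ((jal X ℂ q).1 ((1 : Matrix X X ℂ) x y))
      (hY x y)).2.1
    refine HJ_of_eq h2 ?_ ?_ ?_ ?_
    · rfl
    · rfl
    · funext c
      simp only [← hYcc, Matrix.neg_apply, zero_sub]
    · rw [hYl, Matrix.neg_apply, zero_sub]
  -- the jet of the inverse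
  have h3 := ((jma X ℂ q).2 X _ _ _ _ h1).1 hu
  rw [← hΘ] at h3
  have hinv : (1 - (τ : ℂ) • BB G) * Θ = 1 := by
    rw [hΘ, Matrix.mul_nonsing_inv _ hu]
  have hinv' : Θ * (1 - (τ : ℂ) • BB G) = 1 := by
    rw [hΘ, Matrix.nonsing_inv_mul _ hu]
  have hτ0 : (τ : ℂ) ≠ 0 := by exact_mod_cast hτ.ne'
  have h5 : Θ * BB G = ((1 / τ : ℝ) : ℂ) • (Θ - 1) := by
    have h6 : (τ : ℂ) • (Θ * BB G) = Θ - 1 := by
      rw [Matrix.mul_sub, Matrix.mul_one, Matrix.mul_smul] at hinv'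
      rw [← hinv']
      abel
    rw [← h6, smul_smul]
    have h7 : ((1 / τ : ℝ) : ℂ) * (τ : ℂ) = 1 := by
      push_cast
      field_simp
    rw [h7, one_smul]
  have h8 : Yl = -(BB G * (1 - (τ : ℂ) • BB G)) + (τ : ℂ) • EB G μ := by
    rw [hYl, Matrix.mul_sub, Matrix.mul_one, Matrix.mul_smul, smul_add]
    abel
  have h9 : Θ * Yl * Θ = -(((1 / τ : ℝ) : ℂ) • (Θ - 1)) + Θ * ((τ : ℂ) • EB G μ) * Θ := by
    rw [h8, Matrix.mul_add, Matrix.add_mul, Matrix.mul_neg, Matrix.neg_mul, ← Matrix.mul_assoc,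
      Matrix.mul_assoc (Θ * BB G), hinv, Matrix.mul_one, h5]
  intro x y
  have h4 := ((jal X ℂ q).2.2.1 _ _ _ _ _ _ _ _ (h3 x y)
    ((jal X ℂ q).1 ((1 : Matrix X X ℂ) x y))).2.1
  refine HJ_of_eq h4 ?_ ?_ ?_ ?_
  · rfl
  · rfl
  · funext c
    simp only [hYcc, Matrix.mul_neg, Matrix.neg_mul, neg_neg, sub_zero]
  · simp only [hYcc, Matrix.mul_neg, Matrix.neg_mul, neg_neg, sub_zero]
    rw [h9, add_assoc]

end Pool.Agent.LE.QZ.H92
end
end -- Pool.Agent.Helper92_LQZ.XJT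

section -- Pool.Agent.Helper54_LQZ.All

/-!
# The flow for all energies of the bulk: assembly
-/

set_option autoImplicit false

open MeasureTheory ProbabilityTheory

noncomputable section

namespace Pool.Agent.LE.QZ.H54

open Pool.Agent.BED Pool.Agent.LE.CL Pool.Agent.LE.IR Pool.Agent.LE.QD Pool.Agent.LE.QF

theorem lmbT : QZ.LmbStmt := QZ.H77L.lmb QF.H81.nrb

theorem xtuT : QZ.XtuStmt := QZ.H21.xtu QX.H54.ytjT QX.H54.jalT

theorem xjtT : QZ.XjtStmt := QZ.H92.xjt QX.H54.jalT QX.H54.jmaT QX.H54.jtbT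

theorem wfuT : QZ.WfuStmt := QZ.H52.wfu QF.H81.nrb

theorem immT : QZ.ImmStmt := QZ.H69.imm QX.H54.khbT QD.H93.ralT

theorem ixiT : QZ.IxiStmt := QZ.H38.ixi QD.H93.ralT IR.H54.ftb

theorem ixuT : QZ.IxuStmt := QZ.H63.ixu QD.H93.ralT QX.H54.kftT

theorem nnuT : QZ.NnuStmt := QZ.H16.nnu QF.H20.wab

theorem rsjT : QZ.RsjStmt := QZ.H17.rsj QX.H54.jalT QX.H54.jmaT

theorem godT : QZ.GodStmt := QZ.H38.god nnuT rsjT QF.H2.gdc QZ.H44.thc QF.H20.wab

theorem upaT : QZ.UpaStmt :=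
  QZ.H2.upa QX.H54.jtpT QX.H54.jtxT QX.H54.phbT QX.H54.xhbT QX.H54.pwuT rsjT

theorem upbT : QZ.UpbStmt := QZ.H44.upb xjtT QF.H81.nrb QZ.H15.xnb xtuT rsjT

theorem upcT : QZ.UpcStmt := QZ.H1.upc QX.H54.jtlT lmbT QX.H54.lmuT rsjT

theorem updT : QZ.UpdStmt := QZ.H56.upd QX.H54.jtbT QX.H54.wfbT QX.H54.wtuT rsjT nnuT

theorem upeT : QZ.UpeStmt := QZ.H72.upe QX.H54.jtbT QX.H54.jalT wfuT rsjT

theorem usmT : QZ.UsmStmt := QZ.H19.usm QX.H54.jmaT QF.H20.wab nnuT rsjT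

theorem uprT : QZ.UprStmt :=
  QZ.H3.upr QX.H54.uflT usmT nnuT godT upaT upbT upcT updT upeT QF.H20.wab

theorem outT : QZ.OutStmt := QZ.H13.out godT QF.H20.wab nnuT

theorem iniT : QZ.IniStmt :=
  QZ.H84.ini QX.H54.mbrT QX.H54.frbT QX.H54.galT QX.H54.khbT QX.H54.inmT QX.H54.inwT QX.H54.mssT
    QX.H54.kftT QD.H93.ralT ixiT ixuT immT

theorem tofT : QZ.TofStmt := QZ.H13.tof iniT uprT outT QZ.H1.mom QD.H93.ralT

theorem cpzT : QZ.CpzStmt := QZ.H60.cpz tofT QD.H23.gro (QD.H72.cls (QD.H59.hsc CL.H17.laq))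

theorem qzfT : QZ.QzfStmt := QZ.H76.qzf cpzT CL.H54.crgT

end Pool.Agent.LE.QZ.H54
end
end -- Pool.Agent.Helper54_LQZ.All

section -- Pool.Agent.Helper64_LQY.HAR

/-!
# Squad LQY, row HAR: Harnack for the imaginary part of the diagonal of the resolvent
-/

set_option autoImplicit false

open scoped InnerProductSpace ComplexConjugate

noncomputable section

namespace Pool.Agent.LE.QY.H64

open Pool.Agent.Anderson hiding box mem_box card_box
open Pool.Agent.Helper54.Bal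

/-- the imaginary part of the diagonal of the resolvent -/
lemma im_diag {d : ℕ} {V : Site d → ℝ} {z : ℂ} (hz : z.im ≠ 0) (x : Site d) :
    (G V z (del x) x).im = z.im * ‖G V z (del x)‖ ^ 2 := by
  rw [← (isRes_G V).im_inner hz, inner_del_left]

/-- HAR -/
theorem har : HarStmt := by
  intro d V E E' η η' x hη h1 h2 h3
  have hη' : 0 < η' := by linarith only [hη, h1]
  obtain ⟨z, hzd⟩ : ∃ z : ℂ, z = ⟨E, η⟩ := ⟨_, rfl⟩
  obtain ⟨w, hwd⟩ : ∃ w : ℂ, w = ⟨E', η'⟩ := ⟨_, rfl⟩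
  have hzi : z.im = η := by rw [hzd]
  have hwi : w.im = η' := by rw [hwd]
  have hz : z.im ≠ 0 := by rw [hzi]; exact hη.ne'
  have hw : w.im ≠ 0 := by rw [hwi]; exact hη'.ne'
  rw [← hzd, ← hwd, im_diag hz, im_diag hw, hzi, hwi]
  have hzw : ‖w - z‖ ≤ 2 * η := by
    have h4 := Complex.norm_le_abs_re_add_abs_im (w - z)
    have h5 : |(w - z).re| ≤ η := by
      rw [hwd, hzd, Complex.sub_re, abs_sub_comm]
      exact h3
    have h6 : |(w - z).im| ≤ η := by
      rw [Complex.sub_im, hwi, hzi, abs_le]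
      constructor <;> linarith
    linarith only [h4, h5, h6]
  have hid := (isRes_G V).ident_apply hw hz (del x)
  have hn : ‖G V w (del x)‖ ≤ 5 * ‖G V z (del x)‖ := by
    have h4 : G V w (del x) = G V z (del x) + (w - z) • G V w (G V z (del x)) := by
      rw [← hid, add_sub_cancel]
    have h5 := (isRes_G V).norm_le hw (G V z (del x))
    rw [hwi, abs_of_pos hη'] at h5
    have h6 : ‖w - z‖ * ‖G V w (G V z (del x))‖ ≤ 4 * ‖G V z (del x)‖ := by
      calc ‖w - z‖ * ‖G V w (G V z (del x))‖ ≤ 2 * η * ‖G V w (G V z (del x))‖ :=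
            mul_le_mul_of_nonneg_right hzw (norm_nonneg _)
        _ ≤ 4 * (η' * ‖G V w (G V z (del x))‖) := by
            have h7 := norm_nonneg (G V w (G V z (del x)))
            nlinarith only [h1, h7]
        _ ≤ 4 * ‖G V z (del x)‖ := by linarith
    calc ‖G V w (del x)‖ = ‖G V z (del x) + (w - z) • G V w (G V z (del x))‖ := by rw [← h4]
      _ ≤ ‖G V z (del x)‖ + ‖(w - z) • G V w (G V z (del x))‖ := norm_add_le _ _
      _ = ‖G V z (del x)‖ + ‖w - z‖ * ‖G V w (G V z (del x))‖ := by rw [norm_smul]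
      _ ≤ 5 * ‖G V z (del x)‖ := by linarith only [h6]
  have hsq : ‖G V w (del x)‖ ^ 2 ≤ 25 * ‖G V z (del x)‖ ^ 2 := by
    have h4 := pow_le_pow_left₀ (norm_nonneg _) hn 2
    linarith only [mul_pow (5 : ℝ) ‖G V z (del x)‖ 2, h4]
  calc η' * ‖G V w (del x)‖ ^ 2 ≤ 2 * η * (25 * ‖G V z (del x)‖ ^ 2) :=
        mul_le_mul h2 hsq (sq_nonneg _) (by linarith)
    _ = 50 * (η * ‖G V z (del x)‖ ^ 2) := by ring

end Pool.Agent.LE.QY.H64
end
end -- Pool.Agent.Helper64_LQY.HAR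

section -- Pool.Agent.Helper85_LQY.LTT

/-!
# Squad LQY, row LTT: the lattice and the torus
-/

set_option autoImplicit false

open scoped BigOperators Matrix

noncomputable section

namespace Pool.Agent.LE.QY.H85

open Pool.Agent.Anderson hiding box mem_box card_box
open Pool.Agent.Loc hiding nb
open Pool.Agent.BED
open Pool.Agent.Helper54.Bal
open Pool.Agent.LE.QD Pool.Agent.LE.IR Pool.Agent.LE.QX Pool.Agent.LE.QX.H90

variable {d M : ℕ}

theorem sd_translate (b x y : Site d) : sd (b + x) (b + y) = sd x y := by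
  unfold sd
  refine congrArg _ ?_
  funext i
  rw [Pi.add_apply, Pi.add_apply, add_sub_add_left_eq_sub]

theorem ltt (hBAL : BalStmt) : LttStmt := by
  classical
  intro d hd
  obtain ⟨C, hC1, hC⟩ := hBAL d hd
  have hd1 : (1 : ℝ) ≤ d := by exact_mod_cast hd
  have hC0 : 0 ≤ C := by linarith only [hC1]
  refine ⟨64 * (d : ℝ) ^ 2 * C, ?_, ?_⟩
  · nlinarith [mul_le_mul hd1 hd1 zero_le_one (by linarith only [hd1] : (0 : ℝ) ≤ d)]
  intro M _ L V b E η x hη hη1 hL hM hx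
  have hL0 : (0 : ℝ) < L := by exact_mod_cast hL
  obtain ⟨z, hzd⟩ : ∃ z : ℂ, z = ⟨E, η⟩ := ⟨_, rfl⟩
  have hzim : z.im = η := by rw [hzd]
  have hz0 : z.im ≠ 0 := by rw [hzim]; exact hη.ne'
  obtain ⟨g, hg⟩ : ∃ g : L2 d, g = G V z (del (b + x)) := ⟨_, rfl⟩
  obtain ⟨hsum, hbal⟩ := hC V E η (b + x) hη hη1
  rw [← hzd, ← hg] at hsum hbal
  obtain ⟨u, hu⟩ : ∃ u : Site d → ℂ, u = fun y => g (b + y) := ⟨_, rfl⟩
  have hux : ∀ y, u y = g (b + y) := fun y => by rw [hu]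
  -- the equation
  have heq : ∀ y, nc u y + ((V (b + y) : ℂ) - z) * u y = if y = x then 1 else 0 := by
    intro y
    have h1 := G_eq (V := V) hz0 (del (b + x)) (b + y)
    rw [← hg, del_apply] at h1
    have h2 : nc u y = lap g (b + y) := by
      unfold nc lap
      refine Finset.sum_congr rfl fun i _ => ?_
      rw [hux, hux, add_assoc, add_sub_assoc]
    rw [h2, hux, h1]
    by_cases h : y = x
    · rw [if_pos h, if_pos (by rw [h])]
    · rw [if_neg h, if_neg (fun h' => h (add_left_cancel h'))]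
  -- the truncated function
  obtain ⟨v, hv⟩ : ∃ v : Tor d M → ℂ, v = fun p => (ct L (rep p) : ℂ) * u (rep p) := ⟨_, rfl⟩
  obtain ⟨W, hW⟩ : ∃ W : Tor d M → ℝ, W = fun p => V (b + rep p) := ⟨_, rfl⟩
  have hvx : ∀ p, v p = (ct L (rep p) : ℂ) * u (rep p) := fun p => by rw [hv]
  have hWx : ∀ p, W p = V (b + rep p) := fun p => by rw [hW]
  obtain ⟨u', hu'⟩ : ∃ u' : Site d → ℂ, u' = fun y => if L ≤ sd 0 y then u y else 0 := ⟨_, rfl⟩
  have hu'x : ∀ y, u' y = if L ≤ sd 0 y then u y else 0 := fun y => by rw [hu']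
  obtain ⟨cm, hcm⟩ : ∃ cm : Site d → ℂ, cm = fun y => ∑ i : Fin d,
      (((ct L (y + Pi.single i 1) - ct L y : ℝ) : ℂ) * u' (y + Pi.single i 1) +
      ((ct L (y - Pi.single i 1) - ct L y : ℝ) : ℂ) * u' (y - Pi.single i 1)) := ⟨_, rfl⟩
  obtain ⟨r, hr⟩ : ∃ r : Tor d M → ℂ, r = fun p =>
    if rep p ∈ box 0 (2 * L) then cm (rep p) else 0 := ⟨_, rfl⟩
  have hrx : ∀ p, r p = if rep p ∈ box 0 (2 * L) then cm (rep p) else 0 := fun p => by rw [hr]
  -- terms near the centre do not contribute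
  have hterm : ∀ y w : Site d, sd y w ≤ 1 →
      ((ct L w - ct L y : ℝ) : ℂ) * u w = ((ct L w - ct L y : ℝ) : ℂ) * u' w := by
    intro y w hyw
    rw [hu'x]
    split_ifs with h
    · rfl
    · rw [not_le] at h
      have h1 := sd_triangle 0 w y
      rw [sd_comm w y] at h1
      rw [ct_one hL (by omega : sd 0 w ≤ L), ct_one hL (by omega : sd 0 y ≤ L)]
      simp
  have hxL : sd 0 x ≤ L := by omega
  have hrtx : rep (ti M 0 x) = x := rep_ti (R := L) (by omega) hxL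
  have htx : ∀ p : Tor d M, rep p = x ↔ p = ti M 0 x := by
    intro p
    constructor
    · intro h
      rw [← ti_rep' p, h]
    · intro h
      rw [h, hrtx]
  have hmain : hz W z *ᵥ v = Pi.single (ti M 0 x) 1 + r := by
    funext p
    rw [hz_mulVec, Pi.add_apply, hrx]
    have hsx : (Pi.single (ti M 0 x) (1 : ℂ) : Tor d M → ℂ) p = if rep p = x then 1 else 0 := by
      rw [Pi.single_apply]
      by_cases h : p = ti M 0 x
      · rw [if_pos h, if_pos ((htx p).mpr h)]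
      · rw [if_neg h, if_neg (fun h' => h ((htx p).mp h'))]
    rw [hsx]
    by_cases hc : rep p ∈ box 0 (2 * L)
    · rw [if_pos hc]
      rw [mem_box] at hc
      have e1 : ∀ i, rep (p + ev i) = rep p + Pi.single i 1 := rep_add (R := 2 * L) (by omega) hc
      have e2 : ∀ i, rep (p - ev i) = rep p - Pi.single i 1 := rep_sub (R := 2 * L) (by omega) hc
      obtain ⟨y, hy⟩ : ∃ y, y = rep p := ⟨_, rfl⟩
      have e3 : ∑ i : Fin d, (v (p + ev i) + v (p - ev i)) + ((W p : ℂ) - z) * v p =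
          (ct L y : ℂ) * (nc u y + ((V (b + y) : ℂ) - z) * u y) + cm y := by
        rw [hvx p, hWx p, ← hy, hcm]
        unfold nc
        rw [mul_add, Finset.mul_sum]
        have e4 : ∀ i, v (p + ev i) + v (p - ev i) =
            (ct L y : ℂ) * (u (y + Pi.single i 1) + u (y - Pi.single i 1)) +
            (((ct L (y + Pi.single i 1) - ct L y : ℝ) : ℂ) * u' (y + Pi.single i 1) +
            ((ct L (y - Pi.single i 1) - ct L y : ℝ) : ℂ) * u' (y - Pi.single i 1)) := by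
          intro i
          rw [← hterm y _ (sd_add y i), ← hterm y _ (sd_sub y i), hvx, hvx, e1, e2, ← hy]
          push_cast
          ring
        rw [Finset.sum_congr rfl fun i _ => e4 i, Finset.sum_add_distrib]
        ring
      rw [e3, heq, ← hy]
      by_cases h : y = x
      · rw [if_pos h, h, ct_one hL hxL]
        simp
      · rw [if_neg h, mul_zero]
    · rw [if_neg hc]
      rw [mem_box, not_le] at hc
      have z0 : v p = 0 := by
        rw [hvx, ct_zero hL (by omega)]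
        simp
      have z1 : ∀ x' : Tor d M, (∃ i, p = x' + ev i ∨ p = x' - ev i) → v x' = 0 := by
        rintro x' ⟨i, hi⟩
        rw [hvx]
        by_cases h2 : 2 * L ≤ sd 0 (rep x')
        · rw [ct_zero hL h2]
          simp
        · exfalso
          rw [not_le] at h2
          have h3 : sd 0 (rep p) ≤ 2 * L := by
            rcases hi with hi | hi
            · rw [hi, rep_add (R := 2 * L) (by omega) (by omega)]
              have h4 := sd_triangle 0 (rep x') (rep x' + Pi.single i 1)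
              have h5 := sd_add (rep x') i
              omega
            · rw [hi, rep_sub (R := 2 * L) (by omega) (by omega)]
              have h4 := sd_triangle 0 (rep x') (rep x' - Pi.single i 1)
              have h5 := sd_sub (rep x') i
              omega
          omega
      have z2 : ∑ i : Fin d, (v (p + ev i) + v (p - ev i)) = 0 := by
        refine Finset.sum_eq_zero fun i _ => ?_
        rw [z1 (p + ev i) ⟨i, Or.inr (by abel)⟩, z1 (p - ev i) ⟨i, Or.inl (by abel)⟩, add_zero]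
      have z3 : rep p ≠ x := by
        intro h
        rw [h] at hc
        omega
      rw [z0, z2, if_neg z3]
      simp
  -- the difference
  have hvr : v = rs W z *ᵥ Pi.single (ti M 0 x) 1 + rs W z *ᵥ r := by
    rw [← Matrix.mulVec_add, ← hmain, Matrix.mulVec_mulVec, H76.rs_mul W hz0, Matrix.one_mulVec]
  have hdiff : ∀ y ∈ box (0 : Site d) L,
      G V z (del (b + x)) (b + y) - rs W z (ti M 0 x) (ti M 0 y) = (rs W z *ᵥ r) (ti M 0 y) := by
    intro y hy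
    rw [mem_box] at hy
    have h1 := congrFun hvr (ti M 0 y)
    rw [hvx, rep_ti (R := L) (by omega) hy, ct_one hL hy, Pi.add_apply, Matrix.mulVec_single_one,
      Matrix.col_apply, H76.rs_symm W z (ti M 0 y) (ti M 0 x), hux, hg] at h1
    rw [← hg] at h1 ⊢
    rw [Complex.ofReal_one, one_mul] at h1
    rw [h1]
    ring
  have hinj : Set.InjOn (ti M (0 : Site d)) (box (0 : Site d) L : Set (Site d)) := by
    intro y hy y' hy' h
    rw [Finset.mem_coe, mem_box] at hy hy'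
    have h3 := rep_ti (M := M) (R := L) (by omega) hy
    have h4 := rep_ti (M := M) (R := L) (by omega) hy'
    rw [← h3, ← h4, h]
  have hS1 : ∑ y ∈ box 0 L, ‖G V z (del (b + x)) (b + y) - rs W z (ti M 0 x) (ti M 0 y)‖ ^ 2 ≤
      n2 (rs W z *ᵥ r) := by
    rw [Finset.sum_congr rfl fun y hy => by rw [hdiff y hy]]
    rw [← Finset.sum_image (s := box (0 : Site d) L) (g := ti M 0)
      (f := fun p => ‖(rs W z *ᵥ r) p‖ ^ 2) hinj]
    unfold n2
    exact Finset.sum_le_sum_of_subset_of_nonneg (Finset.subset_univ _)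
      (fun p _ _ => by positivity)
  have hS2 : n2 (rs W z *ᵥ r) ≤ n2 r / η ^ 2 := by
    have h1 := H76.rs_bd W hz0 r
    rwa [hzim] at h1
  -- the norm of `r`
  obtain ⟨S, hSd⟩ : ∃ S : ℝ, S = ∑ w ∈ box (0 : Site d) (2 * L + 1), ‖u' w‖ ^ 2 := ⟨_, rfl⟩
  have hS3 : n2 r ≤ 2 * d / (L : ℝ) ^ 2 * (2 * d * S) := by
    have h1 : n2 r ≤ ∑ y ∈ box (0 : Site d) (2 * L), ‖cm y‖ ^ 2 := by
      refine le_trans (le_of_eq ?_) (sum_rep (M := M) (fun y => ‖cm y‖ ^ 2) (fun y => by positivity) _)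
      unfold n2
      refine Finset.sum_congr rfl fun p _ => ?_
      rw [hrx]
      split_ifs
      · rfl
      · simp
    refine h1.trans ?_
    have h2 : ∀ y ∈ box (0 : Site d) (2 * L), ‖cm y‖ ^ 2 ≤ 2 * d / (L : ℝ) ^ 2 *
        ∑ i : Fin d, (‖u' (y + Pi.single i 1)‖ ^ 2 + ‖u' (y - Pi.single i 1)‖ ^ 2) := by
      intro y _
      rw [hcm]
      exact comm_bound hL u' y
    refine (Finset.sum_le_sum h2).trans ?_
    rw [← Finset.mul_sum]
    refine mul_le_mul_of_nonneg_left ?_ (by positivity)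
    rw [Finset.sum_comm]
    have h1 : ∀ i : Fin d, ∑ y ∈ box (0 : Site d) (2 * L), (‖u' (y + Pi.single i 1)‖ ^ 2 +
        ‖u' (y - Pi.single i 1)‖ ^ 2) ≤ 2 * S := by
      intro i
      rw [Finset.sum_add_distrib]
      have h2 := sum_shift (fun y => ‖u' y‖ ^ 2) (fun y => by positivity) (A := box 0 (2 * L))
        (B := box 0 (2 * L + 1)) (Pi.single i 1 : Site d) (by
          intro y hy
          rw [mem_box] at hy ⊢
          have h4 := sd_triangle 0 y (y + Pi.single i 1)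
          have h5 := sd_add y i
          omega)
      have h3 := sum_shift (fun y => ‖u' y‖ ^ 2) (fun y => by positivity) (A := box 0 (2 * L))
        (B := box 0 (2 * L + 1)) (-Pi.single i 1 : Site d) (by
          intro y hy
          rw [mem_box] at hy ⊢
          have h4 := sd_triangle 0 y (y - Pi.single i 1)
          have h5 := sd_sub y i
          rw [← sub_eq_add_neg]
          omega)
      simp only [← sub_eq_add_neg] at h3
      rw [← hSd] at h2 h3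
      linarith only [h2, h3]
    calc _ ≤ ∑ _i : Fin d, 2 * S := Finset.sum_le_sum fun i _ => h1 i
      _ = 2 * d * S := by
          rw [Finset.sum_const, Finset.card_univ, Fintype.card_fin, nsmul_eq_mul]
          ring
  -- the ballistic bound
  have hS4 : S ≤ 16 / (L : ℝ) ^ 4 * (C / η ^ 6) := by
    obtain ⟨f, hf⟩ : ∃ f : Site d → ℝ, f = fun y => (sd (b + x) y : ℝ) ^ 4 * ‖g y‖ ^ 2 := ⟨_, rfl⟩
    have hfx : ∀ y, f y = (sd (b + x) y : ℝ) ^ 4 * ‖g y‖ ^ 2 := fun y => by rw [hf]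
    have h1 : ∀ w ∈ box (0 : Site d) (2 * L + 1), ‖u' w‖ ^ 2 ≤ 16 / (L : ℝ) ^ 4 * f (b + w) := by
      intro w _
      rw [hu'x, hfx, sd_translate]
      split_ifs with h
      · have h2 := sd_triangle 0 x w
        have h3 : (L : ℝ) ≤ 2 * sd x w := by
          have : L ≤ 2 * sd x w := by omega
          exact_mod_cast this
        have h4 : (L : ℝ) ^ 4 ≤ (2 * sd x w) ^ 4 := pow_le_pow_left₀ hL0.le h3 4
        rw [hux]
        have h5 : (1 : ℝ) ≤ 16 / (L : ℝ) ^ 4 * (sd x w : ℝ) ^ 4 := by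
          rw [div_mul_eq_mul_div, le_div_iff₀ (by positivity), one_mul]
          calc (L : ℝ) ^ 4 ≤ (2 * sd x w) ^ 4 := h4
            _ = 16 * (sd x w : ℝ) ^ 4 := by ring
        calc ‖g (b + w)‖ ^ 2 = 1 * ‖g (b + w)‖ ^ 2 := (one_mul _).symm
          _ ≤ (16 / (L : ℝ) ^ 4 * (sd x w : ℝ) ^ 4) * ‖g (b + w)‖ ^ 2 :=
            mul_le_mul_of_nonneg_right h5 (by positivity)
          _ = _ := by ring
      · rw [norm_zero, zero_pow two_ne_zero]
        positivity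
    have h2 : ∑ w ∈ box (0 : Site d) (2 * L + 1), f (b + w) ≤ ∑' y, f y := by
      rw [← Finset.sum_image (s := box (0 : Site d) (2 * L + 1)) (g := fun w => b + w) (f := f)
        (fun w _ w' _ h => add_left_cancel h)]
      refine Summable.sum_le_tsum _ (fun y _ => ?_) ?_
      · rw [hfx]
        positivity
      · rw [hf]
        exact hsum
    have h3 : ∑' y, f y ≤ C / η ^ 6 := by
      rw [hf]
      exact hbal
    calc S ≤ ∑ w ∈ box (0 : Site d) (2 * L + 1), 16 / (L : ℝ) ^ 4 * f (b + w) := by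
          rw [hSd]
          exact Finset.sum_le_sum h1
      _ = 16 / (L : ℝ) ^ 4 * ∑ w ∈ box (0 : Site d) (2 * L + 1), f (b + w) := by
          rw [Finset.mul_sum]
      _ ≤ 16 / (L : ℝ) ^ 4 * (C / η ^ 6) := by
          refine mul_le_mul_of_nonneg_left (h2.trans h3) (by positivity)
  rw [← hzd, ← hW]
  calc ∑ y ∈ box 0 L, ‖G V z (del (b + x)) (b + y) - rs W z (ti M 0 x) (ti M 0 y)‖ ^ 2
      ≤ n2 r / η ^ 2 := hS1.trans hS2
    _ ≤ (2 * d / (L : ℝ) ^ 2 * (2 * d * (16 / (L : ℝ) ^ 4 * (C / η ^ 6)))) / η ^ 2 := by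
        refine div_le_div_of_nonneg_right (hS3.trans ?_) (by positivity)
        gcongr
    _ = 64 * (d : ℝ) ^ 2 * C / ((L : ℝ) ^ 6 * η ^ 8) := by
        field_simp
        ring

end Pool.Agent.LE.QY.H85
end
end -- Pool.Agent.Helper85_LQY.LTT

section -- Pool.Agent.Helper54_LQY.All

/-!
# Quantum diffusion and the extended eigenfunctions: assembly
-/

set_option autoImplicit false

open MeasureTheory ProbabilityTheory

noncomputable section

namespace Pool.Agent.LE.QY.H54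

open Pool.Agent.LE.QY

theorem torT : TorStmt := QZ.H54.tofT

theorem lttT : LttStmt := H85.ltt H10.bal

theorem tsmT : TsmStmt := H47.tsm torT

theorem tmaT : TmaStmt := H76.tma torT

theorem tevT : TevStmt := H81.tev torT

theorem smzT : SmzStmt := H60.smz tsmT lttT H10.bal

theorem mazT : MazStmt := H60.maz tmaT lttT

theorem locT : LocStmt := H47.loc torT lttT

theorem tmzT : TmzStmt := H16.tmz locT

theorem ldsT : LdsStmt := H69.lds locT H64.har

theorem eizT : EizStmt := H51.eiz torT QX.H54.egbT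

end Pool.Agent.LE.QY.H54
end
end -- Pool.Agent.Helper54_LQY.All

section -- Pool.Agent.Helper30_QDA.QlmT

/-!
# QDA, row QLM: the lower range, assembled
-/

set_option autoImplicit false

namespace Pool.Agent.QDA.H30

theorem qlmT (h : GucStmt) : QlmStmt :=
  qlm h Pool.Agent.LE.QY.H54.locT Pool.Agent.LE.QY.H54.mazT Pool.Agent.LE.QY.H54.smzT

end Pool.Agent.QDA.H30
end -- Pool.Agent.Helper30_QDA.QlmT
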