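import Pool.Agent.Helper12_MEB.B145
import Pool.Agent.Helper12_MEB.B151

/-!
# Merged copies (generated) of the modules

* `Pool.Agent.Helper99_AND2B.WLP`
* `Pool.Agent.Helper44_ABY.VST`
* `Pool.Agent.Helper16_AHH.Mon`
* `Pool.Agent.Helper99_AND2B.FLX`
* `Pool.Agent.Helper16_AHH.Fld`
-/

set_option autoImplicit false

section -- Pool.Agent.Helper99_AND2B.WLP

/-!
# AND2B: WLP, MSW (the event `WL`)
-/

set_option autoImplicit false

open MeasureTheory ProbabilityTheory

open scoped BigOperators NNReal ENNReal Matrix Topology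

noncomputable section

namespace Pool.Agent.AND2B.H99

open Pool.Agent.Anderson hiding box mem_box card_box
open Pool.Agent.Loc Pool.Agent.Mob Pool.Agent.Helper54.Bal
  Pool.Agent.Helper96.EXP Pool.Agent.BED
open Pool.Agent.AND2B

variable {d M : ℕ} [NeZero M]

lemma hr_mul (V : Tor d M → ℝ) (E : ℝ) (u : Tor d M → ℂ) (x : Tor d M) :
    ∑ y, (Hr V E x y : ℂ) * u y =
      ∑ y, (adj d M x y : ℂ) * u y + ((V x - E : ℝ) : ℂ) * u x := by
  have h : ∀ y, (Hr V E x y : ℂ) * u y = (adj d M x y : ℂ) * u y +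
      (if x = y then ((V x - E : ℝ) : ℂ) * u y else 0) := by
    intro y
    unfold Hr
    rw [Matrix.add_apply, Matrix.diagonal_apply]
    split_ifs with h
    · push_cast
      ring
    · push_cast
      ring
  rw [Finset.sum_congr rfl fun y _ => h y, Finset.sum_add_distrib, Finset.sum_ite_eq]
  simp

lemma hr_upd (V : Tor d M → ℝ) (E : ℝ) (u : Tor d M → ℂ) (a : Tor d M) (t : ℝ) (x : Tor d M)
    (hx : x ≠ a) : ∑ y, (Hr (Function.update V a t) E x y : ℂ) * u y =
      ∑ y, (Hr V E x y : ℂ) * u y := by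
  rw [hr_mul, hr_mul, Function.update_of_ne hx]

lemma closed_WLD (E L : ℝ) (D : Finset (Tor d M)) : IsClosed {V : Tor d M → ℝ | WLD E L V D} := by
  have h : {V : Tor d M → ℝ | WLD E L V D} = ⋂ (u : Tor d M → ℂ) (_ : ∀ x, x ∉ D → u x = 0),
      {V | ∑ x ∈ D, ‖u x‖ ^ 2 ≤ L ^ 2 * ∑ x ∈ D, ‖∑ y, (Hr V E x y : ℂ) * u y‖ ^ 2} := by
    ext V
    simp only [Set.mem_setOf_eq, Set.mem_iInter]
    rfl
  rw [h]
  refine isClosed_iInter fun u => isClosed_iInter fun _ => ?_
  refine isClosed_le continuous_const ?_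
  simp only [hr_mul]
  fun_prop

lemma closed_WL (E L : ℝ) : IsClosed {V : Tor d M → ℝ | WL E L V} := by
  have h : {V : Tor d M → ℝ | WL E L V} = ⋂ D : Finset (Tor d M), {V | WLD E L V D} := by
    ext V
    simp only [Set.mem_setOf_eq, Set.mem_iInter]
    rfl
  rw [h]
  exact isClosed_iInter fun D => closed_WLD E L D

theorem msw : MswStmt := by
  intro d M _ E L
  exact (closed_WL E L).measurableSet

lemma wld_mono {E L L' : ℝ} {V : Tor d M → ℝ} {D : Finset (Tor d M)} (h0 : 0 ≤ L) (h : L ≤ L')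
    (hw : WLD E L V D) : WLD E L' V D := by
  intro u hu
  refine (hw u hu).trans ?_
  exact mul_le_mul_of_nonneg_right (pow_le_pow_left₀ h0 h 2)
    (Finset.sum_nonneg fun _ _ => sq_nonneg _)

/-- no kernel on `D` -/
def NK (E : ℝ) (V : Tor d M → ℝ) (D : Finset (Tor d M)) : Prop :=
  ∀ u : Tor d M → ℂ, (∀ x, x ∉ D → u x = 0) → (∀ x ∈ D, ∑ y, (Hr V E x y : ℂ) * u y = 0) → u = 0

/-- the linear map -/
def lmp (E : ℝ) (V : Tor d M → ℝ) (D : Finset (Tor d M)) : (Tor d M → ℂ) →ₗ[ℂ] (Tor d M → ℂ) where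
  toFun u x := if x ∈ D then ∑ y ∈ D, (Hr V E x y : ℂ) * u y else u x
  map_add' u v := by
    ext x
    by_cases hx : x ∈ D
    · simp [hx, mul_add, Finset.sum_add_distrib]
    · simp [hx]
  map_smul' c u := by
    ext x
    by_cases hx : x ∈ D
    · simp only [hx, if_true, Pi.smul_apply, smul_eq_mul, RingHom.id_apply, Finset.mul_sum]
      refine Finset.sum_congr rfl fun y _ => by ring
    · simp [hx]

lemma sum_D (E : ℝ) (V : Tor d M → ℝ) (D : Finset (Tor d M)) (u : Tor d M → ℂ)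
    (hu : ∀ x, x ∉ D → u x = 0) (x : Tor d M) :
    ∑ y ∈ D, (Hr V E x y : ℂ) * u y = ∑ y, (Hr V E x y : ℂ) * u y := by
  refine Finset.sum_subset (Finset.subset_univ D) ?_
  intro y _ hy
  rw [hu y hy, mul_zero]

lemma nk_wld (E : ℝ) (V : Tor d M → ℝ) (D : Finset (Tor d M)) (h : NK E V D) :
    ∃ L : ℕ, WLD E L V D := by
  have hker : LinearMap.ker (lmp E V D) = ⊥ := by
    rw [LinearMap.ker_eq_bot']
    intro u hu
    have h1 : ∀ x, x ∉ D → u x = 0 := by
      intro x hx
      have := congrFun hu x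
      simpa [lmp, hx] using this
    refine h u h1 fun x hx => ?_
    rw [← sum_D E V D u h1]
    have := congrFun hu x
    simpa [lmp, hx] using this
  obtain ⟨K, -, hK⟩ := LinearMap.exists_antilipschitzWith (lmp E V D) hker
  obtain ⟨L, hL⟩ := exists_nat_ge (((D.card : ℝ) + 1) * ((K : ℝ) + 1))
  refine ⟨L, fun u hu => ?_⟩
  have h1 : ‖u‖ ≤ K * ‖lmp E V D u‖ := by
    have := hK.le_mul_dist u 0
    simpa [dist_zero_right] using this
  set R := ∑ x ∈ D, ‖∑ y, (Hr V E x y : ℂ) * u y‖ ^ 2 with hR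
  have hR0 : 0 ≤ R := Finset.sum_nonneg fun _ _ => sq_nonneg _
  have h2 : ‖lmp E V D u‖ ≤ Real.sqrt R := by
    refine (pi_norm_le_iff_of_nonneg (Real.sqrt_nonneg _)).2 fun x => ?_
    by_cases hx : x ∈ D
    · have h3 : lmp E V D u x = ∑ y, (Hr V E x y : ℂ) * u y := by
        rw [← sum_D E V D u hu]
        simp [lmp, hx]
      rw [h3]
      refine Real.le_sqrt_of_sq_le ?_
      exact Finset.single_le_sum (f := fun x => ‖∑ y, (Hr V E x y : ℂ) * u y‖ ^ 2)
        (fun _ _ => sq_nonneg _) hx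
    · have h3 : lmp E V D u x = 0 := by
        simp [lmp, hx, hu x hx]
      rw [h3, norm_zero]
      exact Real.sqrt_nonneg _
  have h4 : ∀ x ∈ D, ‖u x‖ ^ 2 ≤ (K : ℝ) ^ 2 * R := by
    intro x _
    have h5 : ‖u x‖ ≤ K * Real.sqrt R :=
      (norm_le_pi_norm u x).trans (h1.trans (mul_le_mul_of_nonneg_left h2 K.coe_nonneg))
    calc ‖u x‖ ^ 2 ≤ (K * Real.sqrt R) ^ 2 := pow_le_pow_left₀ (norm_nonneg _) h5 2
      _ = (K : ℝ) ^ 2 * R := by rw [mul_pow, Real.sq_sqrt hR0]
  calc ∑ x ∈ D, ‖u x‖ ^ 2 ≤ ∑ _x ∈ D, (K : ℝ) ^ 2 * R := Finset.sum_le_sum h4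
    _ = D.card * (K : ℝ) ^ 2 * R := by rw [Finset.sum_const, nsmul_eq_mul]; ring
    _ ≤ (L : ℝ) ^ 2 * R := by
        refine mul_le_mul_of_nonneg_right ?_ hR0
        have hc : (0 : ℝ) ≤ D.card := Nat.cast_nonneg _
        have hk : (0 : ℝ) ≤ K := K.coe_nonneg
        have h6 : (((D.card : ℝ) + 1) * ((K : ℝ) + 1)) ^ 2 ≤ (L : ℝ) ^ 2 :=
          pow_le_pow_left₀ (by positivity) hL 2
        nlinarith only [mul_nonneg hc hk, mul_nonneg hc (sq_nonneg (K : ℝ)),
          mul_nonneg (mul_nonneg hc hc) (sq_nonneg (K : ℝ)), mul_nonneg hc hc,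
          mul_nonneg (mul_nonneg hc hc) hk, h6]

/-- the singular set -/
def Sg (E : ℝ) (D : Finset (Tor d M)) : Set (Tor d M → ℝ) := {V | ∀ L : ℕ, ¬ WLD E L V D}

lemma sg_meas (E : ℝ) (D : Finset (Tor d M)) : MeasurableSet (Sg E D) := by
  have h : Sg E D = ⋂ L : ℕ, {V : Tor d M → ℝ | WLD E L V D}ᶜ := by
    ext V
    simp [Sg]
  rw [h]
  exact MeasurableSet.iInter fun L => (closed_WLD E L D).measurableSet.compl

lemma sg_nk (E : ℝ) (D : Finset (Tor d M)) (V : Tor d M → ℝ) (h : V ∉ Sg E D) : NK E V D := by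
  simp only [Sg, Set.mem_setOf_eq, not_forall, not_not] at h
  obtain ⟨L, hL⟩ := h
  intro u hu hk
  have h1 := hL u hu
  have h2 : ∑ x ∈ D, ‖∑ y, (Hr V E x y : ℂ) * u y‖ ^ 2 = 0 :=
    Finset.sum_eq_zero fun x hx => by rw [hk x hx]; simp
  rw [h2, mul_zero] at h1
  have h3 : ∑ x ∈ D, ‖u x‖ ^ 2 = 0 := le_antisymm h1 (Finset.sum_nonneg fun _ _ => sq_nonneg _)
  have h4 := (Finset.sum_eq_zero_iff_of_nonneg fun _ _ => sq_nonneg _).1 h3
  funext x
  by_cases hx : x ∈ D
  · have := h4 x hx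
    simpa using this
  · exact hu x hx

lemma nk_sg (E : ℝ) (D : Finset (Tor d M)) (V : Tor d M → ℝ) (h : V ∈ Sg E D) : ¬ NK E V D := by
  intro hn
  obtain ⟨L, hL⟩ := nk_wld E V D hn
  exact h L hL

lemma fib (E : ℝ) (D : Finset (Tor d M)) (a : Tor d M) (V : Tor d M → ℝ) :
    {t | Function.update V a t ∈ Sg E (insert a D) \ Sg E D}.Subsingleton := by
  intro t₁ h₁ t₂ h₂
  have hn₁ := sg_nk E D _ h₁.2
  have hn₂ := sg_nk E D _ h₂.2
  have hk₁ := nk_sg E _ _ h₁.1
  have hk₂ := nk_sg E _ _ h₂.1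
  unfold NK at hk₁ hk₂
  push Not at hk₁ hk₂
  obtain ⟨u₁, hs₁, he₁, hne₁⟩ := hk₁
  obtain ⟨u₂, hs₂, he₂, hne₂⟩ := hk₂
  have ha₁ : u₁ a ≠ 0 := by
    intro h0
    refine hne₁ (hn₁ u₁ (fun x hx => ?_) fun x hx => he₁ x (Finset.mem_insert_of_mem hx))
    by_cases hxa : x = a
    · rw [hxa]; exact h0
    · exact hs₁ x (by simp [hxa, hx])
  have ha₂ : u₂ a ≠ 0 := by
    intro h0
    refine hne₂ (hn₂ u₂ (fun x hx => ?_) fun x hx => he₂ x (Finset.mem_insert_of_mem hx))
    by_cases hxa : x = a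
    · rw [hxa]; exact h0
    · exact hs₂ x (by simp [hxa, hx])
  by_cases haD : a ∈ D
  · exact absurd (hn₁ u₁ (fun x hx => hs₁ x (by
      rw [Finset.mem_insert, not_or]
      exact ⟨fun h => hx (h ▸ haD), hx⟩)) fun x hx => he₁ x (Finset.mem_insert_of_mem hx)) hne₁
  have hw : (fun x => u₂ a * u₁ x - u₁ a * u₂ x) = 0 := by
    refine hn₁ _ (fun x hx => ?_) fun x hx => ?_
    · by_cases hxa : x = a
      · rw [hxa]; ring
      · rw [hs₁ x (by simp [hxa, hx]), hs₂ x (by simp [hxa, hx])]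
        simp
    · have hxa : x ≠ a := fun h => haD (h ▸ hx)
      have e₁ := he₁ x (Finset.mem_insert_of_mem hx)
      have e₂ := he₂ x (Finset.mem_insert_of_mem hx)
      rw [hr_upd _ _ _ _ _ _ hxa] at e₁ e₂ ⊢
      have : ∑ y, (Hr V E x y : ℂ) * (u₂ a * u₁ y - u₁ a * u₂ y) =
          u₂ a * ∑ y, (Hr V E x y : ℂ) * u₁ y - u₁ a * ∑ y, (Hr V E x y : ℂ) * u₂ y := by
        rw [Finset.mul_sum, Finset.mul_sum, ← Finset.sum_sub_distrib]
        refine Finset.sum_congr rfl fun y _ => by ring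
      rw [this, e₁, e₂]
      simp
  have e₁ := he₁ a (Finset.mem_insert_self a D)
  have e₂ := he₂ a (Finset.mem_insert_self a D)
  rw [hr_mul, Function.update_self] at e₁ e₂
  have e₃ : ∑ y, (adj d M a y : ℂ) * (u₂ a * u₁ y - u₁ a * u₂ y) = 0 := by
    refine Finset.sum_eq_zero fun y _ => ?_
    have := congrFun hw y
    simp only [Pi.zero_apply] at this
    rw [this, mul_zero]
  have e₄ : ∑ y, (adj d M a y : ℂ) * (u₂ a * u₁ y - u₁ a * u₂ y) =
      u₂ a * ∑ y, (adj d M a y : ℂ) * u₁ y - u₁ a * ∑ y, (adj d M a y : ℂ) * u₂ y := by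
    rw [Finset.mul_sum, Finset.mul_sum, ← Finset.sum_sub_distrib]
    refine Finset.sum_congr rfl fun y _ => by ring
  rw [e₄] at e₃
  have e₅ : ((t₁ - E : ℝ) : ℂ) * (u₁ a * u₂ a) = ((t₂ - E : ℝ) : ℂ) * (u₁ a * u₂ a) := by
    linear_combination u₂ a * e₁ - u₁ a * e₂ - e₃
  have e₆ := mul_right_cancel₀ (mul_ne_zero ha₁ ha₂) e₅
  have e₇ : t₁ - E = t₂ - E := by exact_mod_cast e₆
  linarith only [e₇]

lemma null_fib {ι : Type} [Fintype ι] [DecidableEq ι] (μ : ι → Measure ℝ) [∀ i, SigmaFinite (μ i)]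
    (S : Set (ι → ℝ)) (hS : MeasurableSet S) (i : ι)
    (h : ∀ x : ι → ℝ, μ i {t | Function.update x i t ∈ S} = 0) : Measure.pi μ S = 0 := by
  have hf : Measurable (S.indicator (fun _ => (1 : ℝ≥0∞))) := measurable_const.indicator hS
  have h1 : Measure.pi μ S = ∫⁻ x, S.indicator (fun _ => (1 : ℝ≥0∞)) x ∂Measure.pi μ := by
    rw [lintegral_indicator hS]
    simp
  rw [h1, lintegral_eq_lmarginal_univ (fun _ => 0), lmarginal_erase' _ hf (Finset.mem_univ i)]
  have h2 : (fun x => ∫⁻ xᵢ, S.indicator (fun _ => (1 : ℝ≥0∞)) (Function.update x i xᵢ) ∂μ i) =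
      fun _ => 0 := by
    funext x
    have hm : MeasurableSet {t | Function.update x i t ∈ S} :=
      (measurable_update x) hS
    have h3 : (fun xᵢ => S.indicator (fun _ => (1 : ℝ≥0∞)) (Function.update x i xᵢ)) =
        {t | Function.update x i t ∈ S}.indicator fun _ => 1 := by
      funext t
      by_cases ht : Function.update x i t ∈ S
      · rw [Set.indicator_of_mem ht, Set.indicator_of_mem (by exact ht)]
      · rw [Set.indicator_of_notMem ht, Set.indicator_of_notMem (by exact ht)]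
    rw [h3, lintegral_indicator hm]
    simp [h x]
  rw [h2]
  unfold lmarginal
  simp

lemma sg_null (E : ℝ) (v : ℝ≥0) (hv : v ≠ 0) (D : Finset (Tor d M)) : gau d M v (Sg E D) = 0 := by
  classical
  induction D using Finset.induction_on with
  | empty =>
    have : Sg E (∅ : Finset (Tor d M)) = ∅ := by
      ext V
      simp only [Sg, Set.mem_setOf_eq, Set.mem_empty_iff_false, iff_false, not_forall, not_not]
      exact ⟨0, fun u _ => by simp⟩
    rw [this, measure_empty]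
  | insert a D _ ih =>
    have h1 : Sg E (insert a D) ⊆ (Sg E (insert a D) \ Sg E D) ∪ Sg E D := by
      intro V hV
      by_cases h : V ∈ Sg E D
      · exact Or.inr h
      · exact Or.inl ⟨hV, h⟩
    refine measure_mono_null h1 (measure_union_null ?_ ih)
    unfold gau
    have hna : NullSingletonClass (gaussianReal 0 v) := nullSingletonClass_gaussianReal hv
    refine null_fib _ _ ((sg_meas E _).diff (sg_meas E _)) a fun V => ?_
    exact (fib E D a V).measure_zero _

theorem wlp : WlpStmt := by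
  intro d M _ E δ v hv hδ
  have : IsProbabilityMeasure (gau d M v) := by
    unfold gau
    infer_instance
  set Bd : ℕ → Set (Tor d M → ℝ) := fun n => {U | ¬ WL E ((n : ℝ) + 1) U} with hBd
  have hmeas : ∀ n, MeasurableSet (Bd n) := fun n => (msw d M E ((n : ℝ) + 1)).compl
  have hanti : Antitone Bd := by
    intro m n hmn U hU hW
    refine hU fun D => wld_mono (by positivity) ?_ (hW D)
    have : (m : ℝ) ≤ n := by exact_mod_cast hmn
    linarith only [this]
  have hinter : ⋂ n, Bd n ⊆ ⋃ D : Finset (Tor d M), Sg E D := by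
    intro U hU
    by_contra hcon
    simp only [Set.mem_iUnion, not_exists] at hcon
    have h1 : ∀ D : Finset (Tor d M), ∃ L : ℕ, WLD E L U D := by
      intro D
      have := hcon D
      simpa [Sg] using this
    choose F hF using h1
    have h2 := Set.mem_iInter.1 hU (Finset.univ.sup F)
    refine h2 fun D => wld_mono (Nat.cast_nonneg _) ?_ (hF D)
    have h3 : F D ≤ Finset.univ.sup F := Finset.le_sup (Finset.mem_univ D)
    have h4 : (F D : ℝ) ≤ ((Finset.univ.sup F : ℕ) : ℝ) := by exact_mod_cast h3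
    linarith
  have hz : gau d M v (⋂ n, Bd n) = 0 := by
    refine measure_mono_null hinter ?_
    rw [measure_iUnion_null_iff]
    exact fun D => sg_null E v hv D
  have ht := tendsto_measure_iInter_atTop (μ := gau d M v) (fun n => (hmeas n).nullMeasurableSet)
    hanti ⟨0, measure_ne_top _ _⟩
  rw [hz] at ht
  have hev : ∀ᶠ n in Filter.atTop, gau d M v (Bd n) < ENNReal.ofReal δ :=
    ht.eventually (gt_mem_nhds (ENNReal.ofReal_pos.2 hδ))
  obtain ⟨n, hn⟩ := hev.exists
  exact ⟨(n : ℝ) + 1, by have : (0 : ℝ) ≤ n := Nat.cast_nonneg n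
                         linarith only, hn.le⟩

end Pool.Agent.AND2B.H99
end
end -- Pool.Agent.Helper99_AND2B.WLP

section -- Pool.Agent.Helper44_ABY.VST

/-!
# Squad ABY, row VST: the start of a stage
-/

set_option autoImplicit false

open scoped BigOperators Matrix

noncomputable section

namespace Pool.Agent.ABY.H44

open Pool.Agent.LE.QF Pool.Agent.AFJ Pool.Agent.ABY

variable {X : Type} [Fintype X] [DecidableEq X]

theorem vir_zero {𝕜 : Type} [RCLike 𝕜] (M : Matrix X X 𝕜) (w : X → ℝ) (a : X) :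
    vir M 0 w a = ∑ b, M a b * ((w b : ℝ) : 𝕜) := by
  have h1 : dg 𝕜 (0 : X → ℝ) = 0 := by
    unfold dg
    ext x y
    rw [Matrix.diagonal_apply]
    simp
  unfold vir TT
  rw [h1, Matrix.mul_zero, sub_zero, inv_one, Matrix.one_mulVec]
  rfl

omit [Fintype X] [DecidableEq X] in
theorem nBK (G : Matrix X X ℂ) (a b : X) : ‖BB G a b‖ = KK G a b := by
  unfold BB KK
  rw [norm_pow]

omit [DecidableEq X] in
theorem eqn {𝕜 : Type} [RCLike 𝕜] (M : Matrix X X 𝕜) (P w w' : X → ℝ) (be : X → 𝕜)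
    (hv : ∀ a, be a = ∑ b, M a b * psi P w be b) (hw : ∀ b, w b = w' b / 2) (a : X) :
    be a - ∑ b, M a b * (((P b : ℝ) : 𝕜) * be b) = (∑ b, M a b * ((w' b : ℝ) : 𝕜)) / 2 := by
  conv_lhs => rw [hv a]
  rw [← Finset.sum_sub_distrib, Finset.sum_div]
  refine Finset.sum_congr rfl fun b _ => ?_
  unfold psi
  rw [hw b]
  push_cast
  ring

theorem vst_ : VstStmt := by
  intro hC hV X _ _ G g R s e θ hs he he1 hθ hg hK hY
  have hKK : ∀ a b, 0 ≤ KK G a b := fun a b => by
    unfold KK; positivity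
  have hind : ∀ x, 0 ≤ ind R x := fun x => by
    unfold ind; split_ifs <;> norm_num
  have hsum0 : ∀ a, ∑ b, KK G a b * (ind R b * (s * g b)) = ∑ b ∈ R, KK G a b * (s * g b) := by
    intro a
    have e8 : ∀ b, KK G a b * (ind R b * (s * g b)) =
        if b ∈ R then KK G a b * (s * g b) else 0 := by
      intro b
      unfold ind
      split_ifs
      · ring
      · ring
    rw [Finset.sum_congr rfl (fun b _ => e8 b), Finset.sum_ite_mem, Finset.univ_inter]
  have hsum : ∀ a, ∑ b, KK G a b * (ind R b * (s / 2)) * g b =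
      (∑ b, KK G a b * (ind R b * (s * g b))) / 2 := by
    intro a
    rw [Finset.sum_div]
    refine Finset.sum_congr rfl fun b _ => ?_
    ring
  have hK0 : ∀ a ∈ R, ∑ b, KK G a b * (ind R b * (s * g b)) ≤ (1 + e) * g a := by
    intro a ha
    rw [hsum0]
    exact hK a ha
  have hKg : ∀ a ∈ R, ∑ b, KK G a b * (ind R b * (s / 2)) * g b ≤ (1 + e) / 2 * g a := by
    intro a ha
    rw [hsum]
    have := hK0 a ha
    linarith only [this]
  have hP : (∀ x, 0 ≤ ind R x * (s / 2)) ∧ ∀ x, x ∉ R → ind R x * (s / 2) = 0 := by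
    refine ⟨fun x => mul_nonneg (hind x) (by linarith only [hs]), fun x hx => ?_⟩
    unfold ind
    rw [if_neg hx, zero_mul]
  have c1 : Cmp (BB G) (KK G) (fun x => ind R x * (s / 2)) g R R ((1 + e) / 2) :=
    ⟨fun a b => (nBK G a b).le, hP, le_rfl, hg, ⟨by linarith, by linarith⟩, hKg⟩
  have c2 : Cmp (KK G) (KK G) (fun x => ind R x * (s / 2)) g R R ((1 + e) / 2) :=
    ⟨fun a b => by rw [Real.norm_of_nonneg (hKK a b)], hP, le_rfl, hg,
      ⟨by linarith, by linarith⟩, hKg⟩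
  obtain ⟨_, v1', _⟩ := hV hC ℂ X (BB G) (KK G) _ g R R _ c1
  obtain ⟨_, v2', _⟩ := hV hC ℝ X (KK G) (KK G) _ g R R _ c2
  have v1 := v1' (fun x => ind R x * (s / 2 * g x))
  have v2 := v2' (fun x => ind R x * (s / 2 * g x))
  clear v1' v2'
  have key := (hC ℂ X (BB G) (KK G) _ g R R _ c1).2
    (vir (BB G) (fun x => ind R x * (s / 2)) (fun x => ind R x * (s / 2 * g x)))
    (fun a => (1 + θ) / (1 - e) * g a -
      vir (KK G) (fun x => ind R x * (s / 2)) (fun x => ind R x * (s / 2 * g x)) a)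
  generalize hbe : vir (BB G) (fun x => ind R x * (s / 2))
    (fun x => ind R x * (s / 2 * g x)) = be at *
  generalize hq : vir (KK G) (fun x => ind R x * (s / 2))
    (fun x => ind R x * (s / 2 * g x)) = q at *
  have hw : ∀ b, ind R b * (s / 2 * g b) = (ind R b * (s * g b)) / 2 := fun b => by ring
  have w1 := eqn (BB G) (fun x => ind R x * (s / 2)) (fun x => ind R x * (s / 2 * g x))
    (fun x => ind R x * (s * g x)) be v1 hw
  have w2 := eqn (KK G) (fun x => ind R x * (s / 2)) (fun x => ind R x * (s / 2 * g x))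
    (fun x => ind R x * (s * g x)) q v2 hw
  simp only [RCLike.ofReal_real_eq_id, id_eq] at w2
  have key2 := key (by
    intro a ha
    have b0 := hY a ha
    rw [vir_zero, vir_zero] at b0
    simp only [RCLike.ofReal_real_eq_id, id_eq] at b0
    have e2 := w2 a
    refine (congrArg norm (w1 a)).trans_le ?_
    rw [norm_div]
    have e0 : ‖(2 : ℂ)‖ = 2 := by norm_num
    rw [e0]
    have e5 : ∑ b, KK G a b * ((ind R b * (s / 2)) * ((1 + θ) / (1 - e) * g b - q b)) =
        (1 + θ) / (1 - e) * ((∑ b, KK G a b * (ind R b * (s * g b))) / 2) -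
          ∑ b, KK G a b * ((ind R b * (s / 2)) * q b) := by
      rw [Finset.sum_div, Finset.mul_sum, ← Finset.sum_sub_distrib]
      refine Finset.sum_congr rfl fun b _ => ?_
      ring
    rw [e5]
    have e9 := hK0 a ha
    have e10 : 0 < 1 - e := by linarith only [he1]
    have e11 : (1 + θ) / (1 - e) * (g a * (1 - e) / 2) ≤
        (1 + θ) / (1 - e) * (g a - (∑ b, KK G a b * (ind R b * (s * g b))) / 2) := by
      apply mul_le_mul_of_nonneg_left _ (by positivity)
      linarith only [e9]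
    have e12 : (1 + θ) / (1 - e) * (g a * (1 - e) / 2) = (1 + θ) * g a / 2 := by
      field_simp
    rw [e12] at e11
    rw [mul_sub] at e11
    linarith only [b0, e2, e11])
  intro a ha
  have key3 := key2 a ha
  have e1 : 1 + ((1 + θ) / (1 - e) - 1) = (1 + θ) / (1 - e) := by ring
  have key4 : ‖be a‖ ≤ (1 + θ) / (1 - e) * g a - q a := key3
  rw [e1, hbe, hq]
  linarith only [key3]

end Pool.Agent.ABY.H44
end
end -- Pool.Agent.Helper44_ABY.VST

section -- Pool.Agent.Helper16_AHH.Mon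

/-!
# AHH: block Y at the start of a stage (any stage factor), monotonicity in the set of running sites
-/

set_option autoImplicit false

open scoped BigOperators NNReal Matrix

noncomputable section

namespace Pool.Agent.AHH.H16

open Pool.Agent.LE.QF Pool.Agent.AFJ Pool.Agent.ABY
open Pool.Agent.ABY.H44 (vir_zero nBK)

section gen

variable {X : Type} [Fintype X] [DecidableEq X]

omit [DecidableEq X] in
theorem eqn_th {𝕜 : Type} [RCLike 𝕜] (M : Matrix X X 𝕜) (P w w' : X → ℝ) (r : ℝ) (be : X → 𝕜)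
    (hv : ∀ a, be a = ∑ b, M a b * psi P w be b) (hw : ∀ b, w b = r * w' b) (a : X) :
    be a - ∑ b, M a b * (((P b : ℝ) : 𝕜) * be b) =
      (r : 𝕜) * (∑ b, M a b * ((w' b : ℝ) : 𝕜)) := by
  conv_lhs => rw [hv a]
  rw [← Finset.sum_sub_distrib, Finset.mul_sum]
  refine Finset.sum_congr rfl fun b _ => ?_
  unfold psi
  rw [hw b]
  push_cast
  ring

theorem kk_nonneg (G : Matrix X X ℂ) (a b : X) : 0 ≤ KK G a b := by
  unfold KK; positivity

theorem ind_nonneg (R : Finset X) (x : X) : 0 ≤ ind R x := by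
  unfold ind; split_ifs <;> norm_num

theorem ind_le_one (R : Finset X) (x : X) : ind R x ≤ 1 := by
  unfold ind; split_ifs <;> norm_num

/-- VST with the stage factor `c / s ∈ [1/2, 1]` -/
theorem vst_th (hC : CmpStmt) (hV : VexStmt) (G : Matrix X X ℂ) (g : X → ℝ) (R : Finset X)
    (s c e θ : ℝ) (hs : 0 < s) (hc1 : s ≤ 2 * c) (hc2 : c ≤ s) (he : 0 ≤ e) (he1 : e < 1)
    (hθ : 0 ≤ θ) (hg : ∀ a ∈ R, 0 < g a)
    (hK : ∀ a ∈ R, ∑ b ∈ R, KK G a b * (s * g b) ≤ (1 + e) * g a)
    (hY : Yin G 0 (fun x => ind R x * (s * g x)) g R θ) :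
    Yin G (fun x => ind R x * (s - c)) (fun x => ind R x * (c * g x)) g R
        ((1 + θ) / (1 - e) - 1) := by
  have hKK : ∀ a b, 0 ≤ KK G a b := kk_nonneg G
  have hind : ∀ x, 0 ≤ ind R x := ind_nonneg R
  set r : ℝ := c / s with hr
  have hrs : c = r * s := by rw [hr]; field_simp
  have hr1 : 1 / 2 ≤ r := by rw [hr, le_div_iff₀ hs]; linarith only [hc1]
  have hr2 : r ≤ 1 := by rw [hr, div_le_iff₀ hs]; linarith only [hc2]
  have hr0 : 0 ≤ r := by linarith only [hr1]
  have hsum0 : ∀ a, ∑ b, KK G a b * (ind R b * (s * g b)) = ∑ b ∈ R, KK G a b * (s * g b) := by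
    intro a
    have e8 : ∀ b, KK G a b * (ind R b * (s * g b)) =
        if b ∈ R then KK G a b * (s * g b) else 0 := by
      intro b
      unfold ind
      split_ifs
      · ring
      · ring
    rw [Finset.sum_congr rfl (fun b _ => e8 b), Finset.sum_ite_mem, Finset.univ_inter]
  have hsum : ∀ a, ∑ b, KK G a b * (ind R b * (s - c)) * g b =
      (1 - r) * (∑ b, KK G a b * (ind R b * (s * g b))) := by
    intro a
    rw [Finset.mul_sum]
    refine Finset.sum_congr rfl fun b _ => ?_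
    rw [hrs]
    ring
  have hK0 : ∀ a ∈ R, ∑ b, KK G a b * (ind R b * (s * g b)) ≤ (1 + e) * g a := by
    intro a ha
    rw [hsum0]
    exact hK a ha
  have hK00 : ∀ a, 0 ≤ ∑ b, KK G a b * (ind R b * (s * g b)) := by
    intro a
    rw [hsum0]
    exact Finset.sum_nonneg fun b hb => mul_nonneg (hKK a b) (mul_nonneg hs.le (hg b hb).le)
  have hKg : ∀ a ∈ R, ∑ b, KK G a b * (ind R b * (s - c)) * g b ≤ (1 + e) / 2 * g a := by
    intro a ha
    rw [hsum]
    have h1 := hK0 a ha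
    have h2 := hK00 a
    nlinarith only [hs, hc1, hrs, h1, h2]
  have hP : (∀ x, 0 ≤ ind R x * (s - c)) ∧ ∀ x, x ∉ R → ind R x * (s - c) = 0 := by
    refine ⟨fun x => mul_nonneg (hind x) (by linarith), fun x hx => ?_⟩
    unfold ind
    rw [if_neg hx, zero_mul]
  have c1 : Cmp (BB G) (KK G) (fun x => ind R x * (s - c)) g R R ((1 + e) / 2) :=
    ⟨fun a b => (nBK G a b).le, hP, le_rfl, hg, ⟨by linarith only [he], by linarith only [he1]⟩, hKg⟩
  have c2 : Cmp (KK G) (KK G) (fun x => ind R x * (s - c)) g R R ((1 + e) / 2) :=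
    ⟨fun a b => by rw [Real.norm_of_nonneg (hKK a b)], hP, le_rfl, hg,
      ⟨by linarith only [he], by linarith only [he1]⟩, hKg⟩
  obtain ⟨_, v1', _⟩ := hV hC ℂ X (BB G) (KK G) _ g R R _ c1
  obtain ⟨_, v2', _⟩ := hV hC ℝ X (KK G) (KK G) _ g R R _ c2
  have v1 := v1' (fun x => ind R x * (c * g x))
  have v2 := v2' (fun x => ind R x * (c * g x))
  clear v1' v2'
  have key := (hC ℂ X (BB G) (KK G) _ g R R _ c1).2
    (vir (BB G) (fun x => ind R x * (s - c)) (fun x => ind R x * (c * g x)))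
    (fun a => (1 + θ) / (1 - e) * g a -
      vir (KK G) (fun x => ind R x * (s - c)) (fun x => ind R x * (c * g x)) a)
  generalize hbe : vir (BB G) (fun x => ind R x * (s - c))
    (fun x => ind R x * (c * g x)) = be at *
  generalize hq : vir (KK G) (fun x => ind R x * (s - c))
    (fun x => ind R x * (c * g x)) = q at *
  have hw : ∀ b, ind R b * (c * g b) = r * (ind R b * (s * g b)) := fun b => by
    rw [hrs]; ring
  have w1 := eqn_th (BB G) (fun x => ind R x * (s - c)) (fun x => ind R x * (c * g x))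
    (fun x => ind R x * (s * g x)) r be v1 hw
  have w2 := eqn_th (KK G) (fun x => ind R x * (s - c)) (fun x => ind R x * (c * g x))
    (fun x => ind R x * (s * g x)) r q v2 hw
  simp only [RCLike.ofReal_real_eq_id, id_eq] at w2
  have key2 := key (by
    intro a ha
    have b0 := hY a ha
    rw [vir_zero, vir_zero] at b0
    simp only [RCLike.ofReal_real_eq_id, id_eq] at b0
    have e2 := w2 a
    refine (congrArg norm (w1 a)).trans_le ?_
    rw [norm_mul]
    have e0 : ‖((r : ℝ) : ℂ)‖ = r := by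
      rw [Complex.norm_real, Real.norm_of_nonneg hr0]
    have e0' : ‖(RCLike.ofReal r : ℂ)‖ = r := by
      rw [RCLike.norm_ofReal, abs_of_nonneg hr0]
    rw [e0']
    have e5 : ∑ b, KK G a b * ((ind R b * (s - c)) * ((1 + θ) / (1 - e) * g b - q b)) =
        (1 + θ) / (1 - e) * ((1 - r) * (∑ b, KK G a b * (ind R b * (s * g b)))) -
          ∑ b, KK G a b * ((ind R b * (s - c)) * q b) := by
      rw [← hsum, Finset.mul_sum, ← Finset.sum_sub_distrib]
      refine Finset.sum_congr rfl fun b _ => ?_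
      ring
    rw [e5]
    have e9 := hK0 a ha
    have e10 : 0 < 1 - e := by linarith only [he1]
    have hga := hg a ha
    have e11 : (1 + θ) / (1 - e) * (g a * (r * (1 - e))) ≤
        (1 + θ) / (1 - e) * (g a - (1 - r) * (∑ b, KK G a b * (ind R b * (s * g b)))) := by
      apply mul_le_mul_of_nonneg_left _ (by positivity)
      have h7 : (1 - r) * (∑ b, KK G a b * (ind R b * (s * g b))) ≤
          (1 - r) * ((1 + e) * g a) := mul_le_mul_of_nonneg_left e9 (by linarith only [hr2])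
      have h8 : 0 ≤ g a * (e * (2 * r - 1)) :=
        mul_nonneg hga.le (mul_nonneg he (by linarith only [hr1]))
      nlinarith only [h7, h8]
    have e12 : (1 + θ) / (1 - e) * (g a * (r * (1 - e))) = r * ((1 + θ) * g a) := by
      field_simp
    rw [e12] at e11
    rw [mul_sub] at e11
    have e13 : r * (‖∑ b, BB G a b * (((ind R b * (s * g b) : ℝ)) : ℂ)‖ +
        ∑ b, KK G a b * (ind R b * (s * g b))) ≤ r * ((1 + θ) * g a) :=
      mul_le_mul_of_nonneg_left b0 hr0
    have e14 : r * ‖∑ b, BB G a b * (((ind R b * (s * g b) : ℝ)) : ℂ)‖ +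
        r * ∑ b, KK G a b * (ind R b * (s * g b)) ≤ r * ((1 + θ) * g a) := by
      rw [← mul_add]; exact e13
    refine (le_of_eq ?_).trans (show r * ‖∑ b, BB G a b * (((ind R b * (s * g b) : ℝ)) : ℂ)‖ ≤ _
      from ?_)
    · rfl
    · linarith only [e2, e11, e13])
  intro a ha
  have key3 := key2 a ha
  have e1 : 1 + ((1 + θ) / (1 - e) - 1) = (1 + θ) / (1 - e) := by ring
  have key4 : ‖be a‖ ≤ (1 + θ) / (1 - e) * g a - q a := key3
  rw [e1, hbe, hq]
  linarith only [key3]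

end gen

end Pool.Agent.AHH.H16
end
end -- Pool.Agent.Helper16_AHH.Mon

section -- Pool.Agent.Helper99_AND2B.FLX

/-!
# AND2B: FLX (the dead sites have no effect)
-/

set_option autoImplicit false

open MeasureTheory ProbabilityTheory

open scoped BigOperators NNReal ENNReal Matrix Topology ComplexConjugate

noncomputable section

namespace Pool.Agent.AND2B.H99

open Pool.Agent.Anderson hiding box mem_box card_box
open Pool.Agent.Loc Pool.Agent.Mob Pool.Agent.Helper54.Bal
  Pool.Agent.Helper96.EXP Pool.Agent.BED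
open Pool.Agent.AND2B

variable {d M : ℕ} [NeZero M]

theorem adj_sym (x y : Tor d M) : adj d M x y = adj d M y x := by
  unfold adj
  simp only [Matrix.of_apply]
  refine Finset.sum_congr rfl fun i _ => ?_
  rw [add_comm]
  congr 1
  · have : (y = x - ev i) ↔ (x = y + ev i) := by
      constructor
      · rintro rfl; abel
      · rintro rfl; abel
    simp only [this]
  · have : (y = x + ev i) ↔ (x = y - ev i) := by
      constructor
      · rintro rfl; abel
      · rintro rfl; abel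
    simp only [this]

theorem hr_sym (V : Tor d M → ℝ) (E : ℝ) (x y : Tor d M) : Hr V E x y = Hr V E y x := by
  unfold Hr
  rw [Matrix.add_apply, Matrix.add_apply, adj_sym x y]
  congr 1
  by_cases h : x = y
  · rw [h]
  · rw [Matrix.diagonal_apply_ne _ h, Matrix.diagonal_apply_ne _ (Ne.symm h)]

theorem adj_nonneg (x y : Tor d M) : 0 ≤ adj d M x y := by
  unfold adj
  rw [Matrix.of_apply]
  refine Finset.sum_nonneg fun i _ => ?_
  split_ifs <;> norm_num

theorem adj_row (x : Tor d M) : ∑ y, adj d M x y = 2 * d := by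
  unfold adj
  simp only [Matrix.of_apply]
  rw [Finset.sum_comm]
  simp only [Finset.sum_add_distrib, Finset.sum_ite_eq', Finset.mem_univ, if_true]
  simp
  ring

/-- the squared norm -/
def nm (u : Tor d M → ℂ) : ℝ := ∑ x, ‖u x‖ ^ 2

lemma nm_nonneg (u : Tor d M → ℂ) : 0 ≤ nm u := Finset.sum_nonneg fun _ _ => sq_nonneg _

theorem adj_nm (u : Tor d M → ℂ) :
    ∑ x, ‖∑ y, (adj d M x y : ℂ) * u y‖ ^ 2 ≤ (2 * (d : ℝ)) ^ 2 * nm u := by
  have h1 : ∀ x, ‖∑ y, (adj d M x y : ℂ) * u y‖ ^ 2 ≤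
      (2 * (d : ℝ)) * ∑ y, adj d M x y * ‖u y‖ ^ 2 := by
    intro x
    have h2 : ‖∑ y, (adj d M x y : ℂ) * u y‖ ≤ ∑ y, adj d M x y * ‖u y‖ := by
      refine (norm_sum_le _ _).trans (le_of_eq ?_)
      refine Finset.sum_congr rfl fun y _ => ?_
      rw [norm_mul, Complex.norm_real, Real.norm_of_nonneg (adj_nonneg x y)]
    have h3 : (∑ y, adj d M x y * ‖u y‖) ^ 2 ≤
        (∑ y, adj d M x y) * ∑ y, adj d M x y * ‖u y‖ ^ 2 := by
      have h4 := Finset.sum_mul_sq_le_sq_mul_sq Finset.univ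
        (fun y => Real.sqrt (adj d M x y)) (fun y => Real.sqrt (adj d M x y) * ‖u y‖)
      have h5 : ∀ y, Real.sqrt (adj d M x y) * (Real.sqrt (adj d M x y) * ‖u y‖) =
          adj d M x y * ‖u y‖ := by
        intro y
        rw [← mul_assoc, Real.mul_self_sqrt (adj_nonneg x y)]
      have h6 : ∀ y, Real.sqrt (adj d M x y) ^ 2 = adj d M x y := fun y =>
        Real.sq_sqrt (adj_nonneg x y)
      have h7 : ∀ y, (Real.sqrt (adj d M x y) * ‖u y‖) ^ 2 = adj d M x y * ‖u y‖ ^ 2 := by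
        intro y
        rw [mul_pow, h6]
      simp only [h5, h6, h7] at h4
      exact h4
    rw [adj_row] at h3
    exact (pow_le_pow_left₀ (norm_nonneg _) h2 2).trans h3
  refine (Finset.sum_le_sum fun x _ => h1 x).trans ?_
  rw [← Finset.mul_sum, Finset.sum_comm]
  have h8 : ∑ y, ∑ x, adj d M x y * ‖u y‖ ^ 2 = 2 * (d : ℝ) * nm u := by
    unfold nm
    rw [Finset.mul_sum]
    refine Finset.sum_congr rfl fun y _ => ?_
    rw [← Finset.sum_mul]
    congr 1
    rw [← adj_row y]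
    exact Finset.sum_congr rfl fun x _ => adj_sym x y
  rw [h8]
  exact le_of_eq (by ring)

lemma sum3 (D : Finset (Tor d M)) (a b c : Tor d M → ℂ) :
    ∑ x ∈ D, ‖a x + b x + c x‖ ^ 2 ≤ 3 * (∑ x ∈ D, ‖a x‖ ^ 2 + ∑ x ∈ D, ‖b x‖ ^ 2 +
      ∑ x ∈ D, ‖c x‖ ^ 2) := by
  rw [← Finset.sum_add_distrib, ← Finset.sum_add_distrib, Finset.mul_sum]
  refine Finset.sum_le_sum fun x _ => ?_
  have h := norm_add₃_le (a := a x) (b := b x) (c := c x)
  have h0 := norm_nonneg (a x + b x + c x)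
  have h2 := pow_le_pow_left₀ h0 h 2
  refine h2.trans ?_
  linarith only [sq_nonneg (‖a x‖ - ‖b x‖), sq_nonneg (‖a x‖ - ‖c x‖),
    sq_nonneg (‖b x‖ - ‖c x‖)]

theorem flx : FlxStmt := by
  intro d
  refine ⟨56 + 96 * (d : ℝ) ^ 2, by linarith only [sq_nonneg (d : ℝ)], ?_⟩
  intro M _ V k E L e₀ kv D hL he hLe hkv hkv1 hkD hkA hW
  have hk : ∀ x, 0 < k x := by
    intro x
    by_cases hx : x ∈ D
    · rw [hkD x hx]; exact he
    · exact hkv.trans_le (hkA x hx)
  have hN : ANR.Net (Hr V E) k := ⟨hr_sym V E, hk⟩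
  have hU := HSL14.mat_unit hN
  set K : ℝ := 56 + 96 * (d : ℝ) ^ 2 with hK
  have hd2 : 0 ≤ (d : ℝ) ^ 2 := sq_nonneg _
  have hL0 : 0 < L := by linarith only [hL]
  -- the equation
  have heq : ∀ f : Tor d M → ℂ, ∀ x, ANR.opv (Hr V E) k (fun x => ∑ y, res V E k x y * f y) x =
      f x := by
    intro f x
    have h1 : HSL14.mat (Hr V E) k * res V E k = 1 := by
      unfold res
      rw [HSL14.gr_eq]
      exact Matrix.mul_nonsing_inv _ hU
    have h2 : HSL14.mat (Hr V E) k *ᵥ (res V E k *ᵥ f) = f := by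
      rw [Matrix.mulVec_mulVec, h1, Matrix.one_mulVec]
    have h3 := congrFun h2 x
    have h4 : (HSL14.mat (Hr V E) k *ᵥ (res V E k *ᵥ f)) x =
        ANR.opv (Hr V E) k (fun x => ∑ y, res V E k x y * f y) x := by
      unfold ANR.opv HSL14.mat
      rw [Matrix.sub_mulVec, Pi.sub_apply, Matrix.mulVec_diagonal]
      rfl
    rw [← h4, h3]
  -- the bound
  have hmain : ∀ f : Tor d M → ℂ, nm (fun x => ∑ y, res V E k x y * f y) ≤
      (K * L ^ 2 / kv) ^ 2 * nm f := by
    intro f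
    set u : Tor d M → ℂ := fun x => ∑ y, res V E k x y * f y with hu
    have he1 : ∀ x, ANR.opv (Hr V E) k u x = f x := heq f
    set uD : Tor d M → ℂ := fun x => if x ∈ D then u x else 0 with huD
    set uA : Tor d M → ℂ := fun x => if x ∈ D then 0 else u x with huA
    have hsplit : nm u = nm uD + nm uA := by
      unfold nm
      rw [← Finset.sum_add_distrib]
      refine Finset.sum_congr rfl fun x _ => ?_
      by_cases hx : x ∈ D <;> simp [huD, huA, hx]
    have hDs : nm uD = ∑ x ∈ D, ‖uD x‖ ^ 2 := by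
      unfold nm
      symm
      refine Finset.sum_subset (Finset.subset_univ D) fun x _ hx => ?_
      simp [huD, hx]
    have hWu := hW uD (fun x hx => by simp [huD, hx])
    have hrow : ∀ x ∈ D, ∑ y, (Hr V E x y : ℂ) * uD y =
        f x + Complex.I * (e₀ : ℂ) * uD x + (- ∑ y, (adj d M x y : ℂ) * uA y) := by
      intro x hx
      have h1 := he1 x
      unfold ANR.opv at h1
      rw [hkD x hx] at h1
      have h2 : ∑ y, (Hr V E x y : ℂ) * u y = ∑ y, (Hr V E x y : ℂ) * uD y +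
          ∑ y, (Hr V E x y : ℂ) * uA y := by
        rw [← Finset.sum_add_distrib]
        refine Finset.sum_congr rfl fun y _ => ?_
        by_cases hy : y ∈ D <;> simp [huD, huA, hy]
      have h3 : ∑ y, (Hr V E x y : ℂ) * uA y = ∑ y, (adj d M x y : ℂ) * uA y := by
        rw [hr_mul]
        simp [huA, hx]
      have h4 : uD x = u x := by simp [huD, hx]
      rw [h2, h3] at h1
      rw [h4]
      linear_combination h1
    have hb : ∑ x ∈ D, ‖∑ y, (Hr V E x y : ℂ) * uD y‖ ^ 2 ≤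
        3 * (nm f + e₀ ^ 2 * nm uD + (2 * (d : ℝ)) ^ 2 * nm uA) := by
      rw [Finset.sum_congr rfl fun x hx => by rw [hrow x hx]]
      refine (sum3 D _ _ _).trans ?_
      refine mul_le_mul_of_nonneg_left ?_ (by norm_num)
      refine add_le_add (add_le_add ?_ ?_) ?_
      · exact Finset.sum_le_sum_of_subset_of_nonneg (Finset.subset_univ D)
          fun _ _ _ => sq_nonneg _
      · rw [hDs, Finset.mul_sum]
        refine Finset.sum_le_sum fun x _ => le_of_eq ?_
        rw [norm_mul, norm_mul, Complex.norm_I, one_mul, Complex.norm_real,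
          Real.norm_of_nonneg he.le, mul_pow]
      · refine le_trans ?_ (adj_nm uA)
        refine (Finset.sum_le_sum_of_subset_of_nonneg (Finset.subset_univ D)
          fun _ _ _ => sq_nonneg _).trans (le_of_eq ?_)
        refine Finset.sum_congr rfl fun x _ => ?_
        rw [norm_neg]
    rw [← hDs] at hWu
    have hc1 : nm uD ≤ L ^ 2 * (3 * (nm f + e₀ ^ 2 * nm uD + (2 * (d : ℝ)) ^ 2 * nm uA)) :=
      hWu.trans (mul_le_mul_of_nonneg_left hb (sq_nonneg L))
    have hLe2 : L ^ 2 * e₀ ^ 2 ≤ 1 / 4 := by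
      have h1 : 0 ≤ L * e₀ := by positivity
      have h2 : L * e₀ ≤ 1 / 2 := by linarith only [hLe]
      calc L ^ 2 * e₀ ^ 2 = (L * e₀) ^ 2 := by ring
        _ ≤ (1 / 2) ^ 2 := pow_le_pow_left₀ h1 h2 2
        _ = 1 / 4 := by norm_num
    have hc2 : nm uD ≤ 12 * L ^ 2 * nm f + 48 * (d : ℝ) ^ 2 * L ^ 2 * nm uA := by
      have h1 := mul_le_mul_of_nonneg_right hLe2 (nm_nonneg uD)
      linarith only [h1, hc1]
    -- the imaginary part
    have him := (ANR.H63.grn (Tor d M) (Hr V E) k hN).2 u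
    have him2 : ∑ x, k x * ‖u x‖ ^ 2 ≤ Real.sqrt (nm u) * Real.sqrt (nm f) := by
      have h1 : ∑ x, k x * ‖u x‖ ^ 2 = -(∑ x, conj (u x) * f x).im := by
        rw [← neg_eq_iff_eq_neg.2 him]
        simp only [he1]
      rw [h1]
      have h2 : -(∑ x, conj (u x) * f x).im ≤ ‖∑ x, conj (u x) * f x‖ :=
        (neg_le_abs _).trans (Complex.abs_im_le_norm _)
      refine h2.trans ((norm_sum_le _ _).trans ?_)
      have h3 : ∀ x, ‖conj (u x) * f x‖ = ‖u x‖ * ‖f x‖ := by
        intro x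
        rw [norm_mul, Complex.norm_conj]
      rw [Finset.sum_congr rfl fun x _ => h3 x]
      unfold nm
      exact Real.sum_mul_le_sqrt_mul_sqrt _ _ _
    have him3 : kv * nm uA ≤ Real.sqrt (nm u) * Real.sqrt (nm f) := by
      refine le_trans ?_ him2
      unfold nm
      rw [Finset.mul_sum]
      refine Finset.sum_le_sum fun x _ => ?_
      by_cases hx : x ∈ D
      · simp only [huA, hx, if_true]
        have := mul_nonneg (hk x).le (sq_nonneg ‖u x‖)
        simpa using this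
      · simp only [huA, hx, if_false]
        exact mul_le_mul_of_nonneg_right (hkA x hx) (sq_nonneg _)
    -- conclusion
    set n := Real.sqrt (nm u) with hn
    set F := Real.sqrt (nm f) with hF
    have hn2 : nm u = n ^ 2 := (Real.sq_sqrt (nm_nonneg u)).symm
    have hF2 : nm f = F ^ 2 := (Real.sq_sqrt (nm_nonneg f)).symm
    have hn0 : 0 ≤ n := Real.sqrt_nonneg _
    have hF0 : 0 ≤ F := Real.sqrt_nonneg _
    have hA0 := nm_nonneg uA
    set a := L ^ 2 / kv with ha
    have ha1 : L ^ 2 ≤ a := by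
      rw [ha, le_div_iff₀ hkv]
      exact mul_le_of_le_one_right (sq_nonneg L) hkv1
    have hL2 : 1 ≤ L ^ 2 := one_le_pow₀ hL
    have haA : L ^ 2 * nm uA ≤ a * (n * F) := by
      have : L ^ 2 * nm uA = a * (kv * nm uA) := by
        rw [ha]
        field_simp
      rw [this]
      exact mul_le_mul_of_nonneg_left him3 (by positivity)
    have hq : n ^ 2 ≤ 12 * L ^ 2 * F ^ 2 + (1 + 48 * (d : ℝ) ^ 2) * (a * (n * F)) := by
      have h1 : nm uA ≤ L ^ 2 * nm uA := le_mul_of_one_le_left hA0 hL2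
      have h2 : n ^ 2 ≤ 12 * L ^ 2 * F ^ 2 + 48 * (d : ℝ) ^ 2 * (L ^ 2 * nm uA) + nm uA := by
        rw [← hn2, hsplit, ← hF2]
        linarith only [hc2]
      have h3 : 48 * (d : ℝ) ^ 2 * (L ^ 2 * nm uA) ≤ 48 * (d : ℝ) ^ 2 * (a * (n * F)) :=
        mul_le_mul_of_nonneg_left haA (by positivity)
      linarith only [h1, h2, h3, haA]
    have hb2 : 12 * L ^ 2 * F ^ 2 ≤ 12 * (a * F) ^ 2 := by
      have h1 : L ^ 2 ≤ a ^ 2 := ha1.trans (le_self_pow₀ (hL2.trans ha1) two_ne_zero)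
      have h2 := mul_le_mul_of_nonneg_right h1 (sq_nonneg F)
      linarith only [h2]
    have hfin : n ≤ K * (a * F) := by
      by_contra hcon
      push Not at hcon
      have hb0 : 0 ≤ a * F := by positivity
      have hK1 : 1 ≤ K := by
        rw [hK]
        linarith only [hd2]
      have h1 : a * F ≤ n := (le_mul_of_one_le_left hb0 hK1).trans hcon.le
      have hnpos : 0 < n := lt_of_le_of_lt (by positivity) hcon
      have h2 : K * (a * F) * n < n * n := mul_lt_mul_of_pos_right hcon hnpos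
      have h3 : (a * F) ^ 2 ≤ (a * F) * n := by
        rw [sq]
        exact mul_le_mul_of_nonneg_left h1 hb0
      have h4 : (1 + 48 * (d : ℝ) ^ 2) * (a * (n * F)) + 12 * ((a * F) * n) ≤
          K * (a * F) * n := by
        have : 0 ≤ (a * F) * n := mul_nonneg hb0 hn0
        rw [hK]
        linarith only [this, mul_nonneg hd2 this]
      linarith only [hq, hb2, h3, h4, h2]
    rw [hn2, hF2]
    calc n ^ 2 ≤ (K * (a * F)) ^ 2 := pow_le_pow_left₀ hn0 hfin 2
      _ = (K * L ^ 2 / kv) ^ 2 * F ^ 2 := by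
          rw [ha]
          ring
  refine ⟨fun u => hmain u, fun x => ?_⟩
  have h1 : ∀ b ∈ D, k b * ‖res V E k x b‖ ^ 2 = e₀ * ‖res V E k x b‖ ^ 2 := fun b hb => by
    rw [hkD b hb]
  rw [Finset.sum_congr rfl h1, ← Finset.mul_sum]
  refine mul_le_mul_of_nonneg_left ?_ he.le
  have h2 := hmain (Pi.single x 1)
  have h3 : nm (Pi.single x (1 : ℂ)) = 1 := by
    unfold nm
    rw [Finset.sum_eq_single x]
    · simp
    · intro y _ hy
      simp [Pi.single_eq_of_ne hy]
    · simp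
  have h4 : (fun z => ∑ y, res V E k z y * (Pi.single x (1 : ℂ) : Tor d M → ℂ) y) =
      fun z => res V E k z x := by
    funext z
    rw [Finset.sum_eq_single x]
    · simp
    · intro y _ hy
      simp [Pi.single_eq_of_ne hy]
    · simp
  rw [h3, h4, mul_one] at h2
  refine le_trans ?_ h2
  unfold nm
  refine (Finset.sum_le_sum_of_subset_of_nonneg (Finset.subset_univ D)
    fun _ _ _ => sq_nonneg _).trans (le_of_eq ?_)
  refine Finset.sum_congr rfl fun b _ => ?_
  have h5 : res V E k x b = res V E k b x := HSL14.gr_sym (hr_sym V E) k x b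
  rw [h5]

end Pool.Agent.AND2B.H99
end
end -- Pool.Agent.Helper99_AND2B.FLX

section -- Pool.Agent.Helper16_AHH.Fld

/-!
# AHH: the fields `beg`, `mmon`, `rbeg`, `rmon` of `Ana0`
-/

set_option autoImplicit false

open scoped BigOperators NNReal Matrix

noncomputable section

namespace Pool.Agent.AHH.H16

open Pool.Agent.BED (Tor)
open Pool.Agent.LE.QF (BB KK)
open Pool.Agent.AND2B (net kap Viol Hr Vef res)
open Pool.Agent.ANP (Cfg Geo Fc)
open Pool.Agent.AFJ (ind LaR EE)
open Pool.Agent.ABY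
open Pool.Agent.LTG (Fm Bd sT tT qd)
open Pool.Agent.HSL14 (ward_diag mat_unit)

variable {d M : ℕ} [NeZero M]

/-- the conditions on the fixed data and the budget which are needed for `beg`, `mmon`, `rbeg`, `rmon` -/
structure BudOk (V : Env d M) (b : Bud) : Prop where
  c0 : 0 < V.c₀
  e0 : 0 < V.e₀
  D0 : 0 ≤ V.D₀
  D1 : 0 ≤ V.D₁
  th : 1 / 2 ≤ (V.th : ℝ) ∧ (V.th : ℝ) ≤ 1
  cl : ∀ k, V.cl (k + 1) = V.th * V.cl k ∧ 0 < V.cl k
  inc : ∀ n k, 0 ≤ b.inc n k ∧ 0 ≤ b.inL n k ∧ 0 ≤ b.inY n k ∧ 0 ≤ b.nn n k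
  icR : ∀ n, 0 ≤ b.icR n ∧ 0 ≤ b.lR n ∧ 0 ≤ b.yR n ∧ 0 ≤ b.nR n ∧ 0 ≤ b.tau n
  q : ∀ n k, 0 ≤ (b.q n k).mis ∧ 0 ≤ (b.q n k).lam ∧ 0 ≤ (b.q n k).tht ∧ 0 ≤ (b.q n k).eps ∧
    (b.q n k).eps ≤ (b.q n k).rho
  psi : ∀ n P x, Psi V.Γ n P x ≤ V.Cp
  half : ∀ n k, n ≤ V.Γ.N → (b.q n k).mis + b.inc n k * V.Cp ≤ V.c₀ / 2
  thm : ∀ n k, n ≤ V.Γ.N →
    (1 + (b.q n k).tht) / (1 - (b.q n k).mis / V.c₀) ≤ 1 + b.thm n k

/-! ### potentials -/

theorem om_nonneg {X : Type} [Fintype X] [DecidableEq X] (Γ : Geo X) (n : ℕ) (B x : X) :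
    0 ≤ om Γ n B x := (Real.exp_pos _).le

theorem psi_nonneg {X : Type} [Fintype X] [DecidableEq X] (Γ : Geo X) (n : ℕ) (P : Finset X)
    (x : X) : 0 ≤ Psi Γ n P x := Finset.sum_nonneg fun _ _ => om_nonneg Γ n _ x

theorem psi_empty {X : Type} [Fintype X] [DecidableEq X] (Γ : Geo X) (n : ℕ) (x : X) :
    Psi Γ n ∅ x = 0 := by
  unfold Psi
  rw [Finset.filter_empty, Finset.sum_empty]

theorem psi_mono {X : Type} [Fintype X] [DecidableEq X] (Γ : Geo X) (n : ℕ) {P P' : Finset X}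
    (h : P ⊆ P') (x : X) : Psi Γ n P x ≤ Psi Γ n P' x :=
  Finset.sum_le_sum_of_subset_of_nonneg (Finset.filter_subset_filter _ h)
    fun _ _ _ => om_nonneg Γ n _ x

theorem phi_empty {X : Type} [Fintype X] [DecidableEq X] (Γ : Geo X) (τ : ℝ) (n : ℕ) (x : X) :
    Phi Γ τ n ∅ x = 0 := by
  unfold Phi ind
  rw [if_neg (Finset.notMem_empty x), Finset.sum_empty, mul_zero, zero_add]

theorem phi_mono {X : Type} [Fintype X] [DecidableEq X] (Γ : Geo X) {τ : ℝ} (hτ : 0 ≤ τ) (n : ℕ)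
    {P P' : Finset X} (h : P ⊆ P') (x : X) : Phi Γ τ n P x ≤ Phi Γ τ n P' x := by
  unfold Phi
  have h1 : ind P x ≤ ind P' x := by
    unfold ind
    by_cases hx : x ∈ P
    · rw [if_pos hx, if_pos (h hx)]
    · rw [if_neg hx]
      split_ifs <;> norm_num
  have h2 : ∑ y ∈ P, Real.exp (-((Γ.D x y : ℝ) / Γ.ρ n)) ≤
      ∑ y ∈ P', Real.exp (-((Γ.D x y : ℝ) / Γ.ρ n)) :=
    Finset.sum_le_sum_of_subset_of_nonneg h fun _ _ _ => (Real.exp_pos _).le
  have h3 := mul_le_mul_of_nonneg_left h2 hτ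
  linarith only [h1, h3]

theorem phi_nonneg {X : Type} [Fintype X] [DecidableEq X] (Γ : Geo X) {τ : ℝ} (hτ : 0 ≤ τ) (n : ℕ)
    (P : Finset X) (x : X) : 0 ≤ Phi Γ τ n P x := by
  have := phi_mono Γ hτ n (Finset.empty_subset P) x
  rwa [phi_empty] at this

/-! ### the network of a configuration -/

theorem mem_al {T : Cfg (Tor d M)} {x : Tor d M} : x ∈ Al T ↔ 0 < T.s x := by
  unfold Al
  rw [Finset.mem_filter]
  exact ⟨fun h => h.2, fun h => ⟨Finset.mem_univ x, h⟩⟩

theorem kap_pos {e₀ : ℝ} {T : Cfg (Tor d M)} (he : 0 < e₀) (hg : ∀ x ∈ Al T, 0 < gg T x)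
    (x : Tor d M) : 0 < kap e₀ T x := by
  unfold kap
  by_cases hx : x ∈ Al T
  · have h1 := hg x hx
    have h2 : (0 : ℝ) < T.s x := by exact_mod_cast mem_al.1 hx
    have h3 : 0 < (T.s x : ℝ) * (T.mb x).im := mul_pos h2 h1
    linarith
  · have h2 : T.s x = 0 := by
      by_contra h
      exact hx (mem_al.2 (pos_iff_ne_zero.2 h))
    rw [h2]
    simpa using he

theorem net_net (E : ℝ) {e₀ : ℝ} {T : Cfg (Tor d M)} (he : 0 < e₀)
    (hg : ∀ x ∈ Al T, 0 < gg T x) : ANR.Net (Hr (Vef T) E) (kap e₀ T) :=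
  ⟨AND2B.H99.hr_sym _ _, kap_pos he hg⟩

theorem net_ward (E : ℝ) {e₀ : ℝ} {T : Cfg (Tor d M)} (he : 0 < e₀)
    (hg : ∀ x ∈ Al T, 0 < gg T x) (x : Tor d M) :
    ∑ y, kap e₀ T y * KK (net E e₀ T) x y = (net E e₀ T x x).im := by
  have h := ward_diag (AND2B.H99.hr_sym (Vef T) E) (mat_unit (net_net E he hg)) x
  exact h

/-- the clock part of the flux is at most `Im G` -/
theorem flux_le (E : ℝ) {e₀ : ℝ} {T : Cfg (Tor d M)} (he : 0 < e₀)
    (hg : ∀ x ∈ Al T, 0 < gg T x) (a : Tor d M) (w : Tor d M → ℝ)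
    (hw : ∀ b, w b ≤ kap e₀ T b) :
    ∑ b, KK (net E e₀ T) a b * w b ≤ (net E e₀ T a a).im := by
  rw [← net_ward E he hg a]
  refine Finset.sum_le_sum fun b _ => ?_
  rw [mul_comm]
  exact mul_le_mul_of_nonneg_right (hw b) (kk_nonneg _ a b)

/-! ### the form bounds -/

theorem fb_mono {V : Env d M} {T : Cfg (Tor d M)} {eb eb' r r' : Tor d M → ℝ} (hD0 : 0 ≤ V.D₀)
    (hD1 : 0 ≤ V.D₁) (he : ∀ x ∈ Al T, eb x ≤ eb' x) (hr : ∀ x, r x ≤ r' x)
    (h : FB V T eb r) : FB V T eb' r' := by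
  obtain ⟨εl, εu, bl, bu, h1, h2, h3⟩ := h
  refine ⟨εl, εu, bl, bu, h1, fun x hx => ?_, fun e => ?_⟩
  · obtain ⟨a1, a2, a3, a4⟩ := h2 x hx
    exact ⟨a1, a2.trans (he x hx), a3, a4.trans (by linarith [hr x])⟩
  · obtain ⟨a1, a2, a3⟩ := h3 e
    have h4 := mul_le_mul_of_nonneg_left (hr (sT e)) hD0
    have h5 := mul_le_mul_of_nonneg_left (hr (sT e)) hD1
    refine ⟨?_, a2, ?_⟩
    · nlinarith only [a1, h4]
    · nlinarith only [a3, h5]

theorem ww_pos {e₀ : ℝ} {T : Cfg (Tor d M)} (he : 0 < e₀) (hg : ∀ x ∈ Al T, 0 < gg T x)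
    {x : Tor d M} (hx : x ∈ Al T) : 0 < ww e₀ T x :=
  mul_pos (kap_pos he hg x) (hg x hx)

theorem gau_pos {V : Env d M} {T : Cfg (Tor d M)} {δ : ℝ} (hc : 0 < V.c₀) (h : Gb V T δ) :
    ∀ x ∈ Al T, 0 < gg T x := fun x hx => lt_of_lt_of_le hc (h x hx).1

/-! ### block Y -/

theorem pv_zero {T : Cfg (Tor d M)} {run : Finset (Tor d M)} {c : ℝ}
    (h : ∀ x ∈ run, (T.s x : ℝ) = c) : pv T run c = 0 := by
  funext x
  unfold pv ind
  by_cases hx : x ∈ run
  · rw [h x hx]
    simp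
  · rw [if_neg hx, zero_mul]
    rfl

theorem yy_mono (hC : CmpStmt) (hV : VexStmt) (hF : VfrStmt) {E e₀ : ℝ} {T : Cfg (Tor d M)}
    {run run' : Finset (Tor d M)} {c ρ : ℝ} (hsub : run' ⊆ run) (hc : 0 ≤ c)
    (hg : ∀ a ∈ run, 0 < gg T a) (hP : ∀ x ∈ run, c ≤ T.s x) (hρ : 0 ≤ ρ ∧ ρ < 1)
    (hK : ∀ a ∈ run, ∑ b, KK (net E e₀ T) a b * pv T run c b * gg T b ≤ ρ * gg T a) :
    ∀ a ∈ run, yy E e₀ T run' c a ≤ yy E e₀ T run c a := by
  have h1 : ∀ x, (1 - ind (run \ run') x) * pv T run c x = pv T run' c x := by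
    intro x
    unfold pv ind
    by_cases h2 : x ∈ run'
    · have h3 : x ∉ run \ run' := fun h => (Finset.mem_sdiff.1 h).2 h2
      rw [if_neg h3, if_pos h2, if_pos (hsub h2)]
      ring
    · by_cases h4 : x ∈ run
      · rw [if_pos (Finset.mem_sdiff.2 ⟨h4, h2⟩), if_neg h2]
        ring
      · rw [if_neg h4, if_neg h2]
        ring
  have h1' : ∀ x, (1 - ind (run \ run') x) * pw T run c x = pw T run' c x := by
    intro x
    unfold pw ind
    by_cases h2 : x ∈ run'
    · have h3 : x ∉ run \ run' := fun h => (Finset.mem_sdiff.1 h).2 h2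
      rw [if_neg h3, if_pos h2, if_pos (hsub h2)]
      ring
    · by_cases h4 : x ∈ run
      · rw [if_pos (Finset.mem_sdiff.2 ⟨h4, h2⟩), if_neg h2]
        ring
      · rw [if_neg h4, if_neg h2]
        ring
  have hcmp : Cmp (BB (net E e₀ T)) (KK (net E e₀ T)) (pv T run c) (gg T) run run ρ := by
    refine ⟨fun a b => (ABY.H44.nBK _ a b).le, ⟨fun x => ?_, fun x hx => ?_⟩, le_rfl, hg, hρ, hK⟩
    · unfold pv
      by_cases hx : x ∈ run
      · exact mul_nonneg (ind_nonneg _ _) (by linarith [hP x hx])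
      · unfold ind
        rw [if_neg hx, zero_mul]
    · unfold pv ind
      rw [if_neg hx, zero_mul]
  intro a ha
  have h2 := hF hC hV (Tor d M) (net E e₀ T) (pv T run c) (pw T run c) (gg T) run run
    (run \ run') ρ hcmp Finset.sdiff_subset (fun x => by
      unfold pw
      by_cases hx : x ∈ run
      · exact mul_nonneg (ind_nonneg _ _) (mul_nonneg hc (hg x hx).le)
      · unfold ind
        rw [if_neg hx, zero_mul]) a ha
  have h3 : (fun x => (1 - ind (run \ run') x) * pv T run c x) = pv T run' c := funext h1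
  have h4 : (fun x => (1 - ind (run \ run') x) * pw T run c x) = pw T run' c := funext h1'
  rw [h3, h4] at h2
  exact h2

/-! ### the fields -/

theorem cl_bd {V : Env d M} {b : Bud} (hB : BudOk V b) (k : ℕ) :
    (V.cl k : ℝ) ≤ 2 * V.cl (k + 1) ∧ (V.cl (k + 1) : ℝ) ≤ V.cl k ∧ (0 : ℝ) < V.cl k := by
  have h1 : (V.cl (k + 1) : ℝ) = V.th * V.cl k := by
    rw [(hB.cl k).1]; push_cast; ring
  have h2 : (0 : ℝ) < V.cl k := by exact_mod_cast (hB.cl k).2
  have h3 := hB.th.1
  have h4 := hB.th.2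
  refine ⟨?_, ?_, h2⟩
  · rw [h1]; nlinarith only [h3]
  · rw [h1]; nlinarith only [h4]

/-- field `beg` -/
theorem beg_field (hC : CmpStmt) (hX : VexStmt) {V : Env d M} {b : Bud} (hB : BudOk V b) :
    ∀ n k T run, n ≤ V.Γ.N → V.kk n ≤ k → k < V.kk (n + 1) →
      Fc V.Γ V.kk V.cl V.Dn n k ∅ T run → St V b n k T run → Md V b n k T run ∅ T run := by
  intro n k T run hn h1 h2 hF hS
  have hgp := gau_pos hB.c0 hS.gau
  have hgr : ∀ a ∈ run, 0 < gg T a := fun a ha => hgp a (hS.alv ha)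
  have hrs : ∀ x ∈ run, (T.s x : ℝ) = V.cl k := fun x hx => by
    have := hF.runs x hx
    rw [if_neg (Finset.notMem_empty x)] at this
    rw [this]
  obtain ⟨hcl1, hcl2, hcl3⟩ := cl_bd hB k
  obtain ⟨q1, q2, q3, q4, q5⟩ := hB.q n k
  refine ⟨⟨hn, h1, h2⟩, hF, hS, le_rfl, rfl, fun x => Or.inl rfl, fun x _ => rfl, ?_, ?_, ?_, ?_,
    hS.old, hS.ded⟩
  · intro x _ y _
    rw [sub_self, norm_zero, psi_empty, mul_zero]
  · intro x hx
    rw [psi_empty, mul_zero, add_zero, mul_one]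
    exact hS.lar x hx
  · intro a ha
    rw [psi_empty, mul_zero, add_zero]
    have hmc : (b.q n k).mis / V.c₀ ≤ 1 / 2 := by
      rw [div_le_iff₀ hB.c0]
      have h3 := hB.half n k hn
      have h4 := (hB.inc n k).1
      have h5 : 0 ≤ V.Cp := (psi_nonneg V.Γ n ∅ a).trans (hB.psi n ∅ a)
      have h6 : 0 ≤ b.inc n k * V.Cp := mul_nonneg h4 h5
      linarith only [h3, h6]
    have hY : Yin (net V.E V.e₀ T) 0 (fun x => ind run x * ((V.cl k : ℝ) * gg T x)) (gg T) run
        (b.q n k).tht := by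
      intro a ha
      have h3 := hS.yin a ha
      unfold yy at h3
      rw [pv_zero hrs] at h3
      exact h3
    have hK : ∀ a ∈ run, ∑ c ∈ run, KK (net V.E V.e₀ T) a c * ((V.cl k : ℝ) * gg T c) ≤
        (1 + (b.q n k).mis / V.c₀) * gg T a := by
      intro a ha
      have h3 : ∑ c ∈ run, KK (net V.E V.e₀ T) a c * ((V.cl k : ℝ) * gg T c) ≤
          ∑ c, KK (net V.E V.e₀ T) a c * kap V.e₀ T c := by
        refine (Finset.sum_le_sum fun c hc => ?_).trans
          (Finset.sum_le_sum_of_subset_of_nonneg (Finset.subset_univ run) fun c _ _ => ?_)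
        · refine mul_le_mul_of_nonneg_left ?_ (kk_nonneg _ a c)
          unfold kap gg
          rw [hrs c hc]
          linarith only [hB.e0]
        · exact mul_nonneg (kk_nonneg _ a c) (kap_pos hB.e0 hgp c).le
      have h4 := flux_le V.E hB.e0 hgp a (kap V.e₀ T) (fun _ => le_rfl)
      have h5 : (net V.E V.e₀ T a a).im ≤ gg T a + (b.q n k).mis := by
        have h6 := hS.mis a ha
        have h7 := (Complex.abs_im_le_norm (net V.E V.e₀ T a a - T.mb a)).trans h6
        rw [Complex.sub_im] at h7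
        have h8 := (abs_le.1 h7).2
        unfold gg
        linarith
      have h6 : (b.q n k).mis ≤ (b.q n k).mis / V.c₀ * gg T a := by
        rw [div_mul_eq_mul_div, le_div_iff₀ hB.c0]
        exact mul_le_mul_of_nonneg_left (hS.gau a (hS.alv ha)).1 q1
      linarith
    have h3 := vst_th hC hX (net V.E V.e₀ T) (gg T) run (V.cl k) (V.cl (k + 1))
      ((b.q n k).mis / V.c₀) (b.q n k).tht hcl3 hcl1 hcl2 (div_nonneg q1 hB.c0.le)
      (by linarith only [hmc]) q3 hgr hK hY a ha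
    have h4 : (fun x => ind run x * ((V.cl k : ℝ) - V.cl (k + 1))) = pv T run (V.cl (k + 1)) := by
      funext x
      unfold pv ind
      by_cases hx : x ∈ run
      · rw [hrs x hx]
      · rw [if_neg hx]
        ring
    rw [h4] at h3
    refine le_trans (b := (1 + ((1 + (b.q n k).tht) / (1 - (b.q n k).mis / V.c₀) - 1)) * gg T a)
      h3 ?_
    refine mul_le_mul_of_nonneg_right ?_ (hgr a ha).le
    have := hB.thm n k hn
    linarith only [this]
  · refine fb_mono hB.D0 hB.D1 ?_ ?_ hS.frm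
    · intro x hx
      rw [psi_empty, mul_zero, add_zero, div_self (ww_pos hB.e0 hgp hx).ne', mul_one]
    · intro x
      rw [psi_empty, mul_zero, add_zero]

/-- the clocks of the alive sites of `T` during the stage -/
theorem md_al {V : Env d M} {b : Bud} (hB : BudOk V b) {n k : ℕ} {T₀ T : Cfg (Tor d M)}
    {run₀ run P : Finset (Tor d M)} (h : Md V b n k T₀ run₀ P T run) : Al T = Al T₀ := by
  ext x
  rw [mem_al, mem_al]
  rcases h.clk x with h1 | ⟨-, -, h1⟩
  · rw [h1]
  · rw [h1]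
    have h2 : 0 < V.th := by
      have := hB.th.1
      have h3 : (0 : ℝ) < V.th := by linarith only [this]
      exact_mod_cast h3
    constructor
    · intro h3
      exact pos_of_mul_pos_right h3 (zero_le)
    · intro h3
      exact mul_pos h2 h3

theorem md_gau {V : Env d M} {b : Bud} (hB : BudOk V b) {n k : ℕ} {T₀ T : Cfg (Tor d M)}
    {run₀ run P : Finset (Tor d M)} (h : Md V b n k T₀ run₀ P T run) :
    Gb V T (b.q n k).del := by
  intro x hx
  rw [md_al hB h] at hx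
  have h1 := h.st0.gau x hx
  unfold gg at h1 ⊢
  rw [h.mb]
  exact h1

theorem md_ww {V : Env d M} {b : Bud} (hB : BudOk V b) {n k : ℕ} {T₀ T : Cfg (Tor d M)}
    {run₀ run P : Finset (Tor d M)} (h : Md V b n k T₀ run₀ P T run) {x : Tor d M}
    (hx : x ∈ Al T) : ww V.e₀ T x ≤ ww V.e₀ T₀ x ∧ 0 < ww V.e₀ T x := by
  have hg := md_gau hB h
  have hgx := gau_pos hB.c0 hg x hx
  refine ⟨?_, ww_pos hB.e0 (gau_pos hB.c0 hg) hx⟩
  have h1 : gg T x = gg T₀ x := by unfold gg; rw [h.mb]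
  have h2 : (T.s x : ℝ) ≤ T₀.s x := by
    rcases h.clk x with h2 | ⟨-, -, h2⟩
    · rw [h2]
    · rw [h2]
      push_cast
      have h3 := hB.th.2
      have h4 : (0 : ℝ) ≤ T₀.s x := NNReal.coe_nonneg _
      nlinarith only [h3]
  unfold ww kap
  have h3 : (T.mb x).im = gg T₀ x := h1
  have h3' : (T₀.mb x).im = gg T₀ x := rfl
  rw [h3, h3', h1]
  rw [h1] at hgx
  refine mul_le_mul_of_nonneg_right ?_ hgx.le
  have h4 := mul_le_mul_of_nonneg_right h2 hgx.le
  linarith

/-- field `mmon` -/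
theorem mmon_field (hC : CmpStmt) (hX : VexStmt) (hVF : VfrStmt) {V : Env d M} {b : Bud}
    (hB : BudOk V b) : ∀ n k T₀ run₀ P P' T run run', P ⊆ P' → run' ⊆ run →
      Fc V.Γ V.kk V.cl V.Dn n k P T run → Fc V.Γ V.kk V.cl V.Dn n k P' T run' →
      Md V b n k T₀ run₀ P T run → Md V b n k T₀ run₀ P' T run' := by
  intro n k T₀ run₀ P P' T run run' hP hr hF hF' hM
  have hn := hM.ctx.1
  have hg := md_gau hB hM
  have hgp := gau_pos hB.c0 hg
  obtain ⟨hcl1, hcl2, hcl3⟩ := cl_bd hB k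
  obtain ⟨-, -, hcl4⟩ := cl_bd hB (k + 1)
  obtain ⟨q1, q2, q3, q4, q5⟩ := hB.q n k
  obtain ⟨i1, i2, i3, i4⟩ := hB.inc n k
  have hrun : ∀ x ∈ run, (T.s x : ℝ) ≤ V.cl k ∧ (V.cl (k + 1) : ℝ) ≤ T.s x ∧ x ∈ Al T := by
    intro x hx
    have h1 := hF.runs x hx
    split_ifs at h1
    · rw [h1]
      refine ⟨hcl2, le_rfl, mem_al.2 ?_⟩
      rw [h1]
      exact (hB.cl (k + 1)).2
    · rw [h1]
      refine ⟨le_rfl, hcl2, mem_al.2 ?_⟩
      rw [h1]
      exact (hB.cl k).2
  refine ⟨hM.ctx, hM.fc0, hM.st0, hr.trans hM.sub, hM.mb, fun x => ?_, hM.ddV, ?_, ?_, ?_, ?_,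
    hM.old, hM.ded⟩
  · rcases hM.clk x with h | ⟨h1, h2, h3⟩
    · exact Or.inl h
    · exact Or.inr ⟨h1, hP h2, h3⟩
  · intro x hx y hy
    exact (hM.ent x hx y hy).trans (mul_le_mul_of_nonneg_left (psi_mono V.Γ n hP x) i1)
  · intro x hx
    have h1 : LaR (net V.E V.e₀ T) run' x ≤ LaR (net V.E V.e₀ T) run x := by
      unfold LaR
      exact Finset.sum_le_sum_of_subset_of_nonneg hr fun y _ _ => sq_nonneg _
    refine h1.trans ((hM.lar x hx).trans (mul_le_mul_of_nonneg_left ?_ q2))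
    have := mul_le_mul_of_nonneg_left (psi_mono V.Γ n hP x) i2
    linarith only [this]
  · intro a ha
    have ha' := hr ha
    have hga := hgp a (hrun a ha').2.2
    have h1 : ∀ a ∈ run, ∑ c, KK (net V.E V.e₀ T) a c * pv T run (V.cl (k + 1)) c * gg T c ≤
        3 / 4 * gg T a := by
      intro a ha
      have haA := (hrun a ha).2.2
      have h2 : ∑ c, KK (net V.E V.e₀ T) a c * pv T run (V.cl (k + 1)) c * gg T c ≤
          ∑ c, KK (net V.E V.e₀ T) a c * (kap V.e₀ T c / 2) := by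
        refine Finset.sum_le_sum fun c _ => ?_
        rw [mul_assoc]
        refine mul_le_mul_of_nonneg_left ?_ (kk_nonneg _ a c)
        unfold pv ind
        by_cases hc : c ∈ run
        · rw [if_pos hc, one_mul]
          obtain ⟨r1, r2, r3⟩ := hrun c hc
          have hgc := hgp c r3
          have h3 : (T.s c : ℝ) - V.cl (k + 1) ≤ (T.s c : ℝ) / 2 := by linarith only [hcl1, r1]
          have h4 := mul_le_mul_of_nonneg_right h3 hgc.le
          unfold kap
          have h5 : (T.mb c).im = gg T c := rfl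
          rw [h5]
          have h6 := hB.e0
          linarith only [h4, h6]
        · rw [if_neg hc, zero_mul, zero_mul]
          have := kap_pos hB.e0 hgp c
          linarith only [this]
      have h3 : ∑ c, KK (net V.E V.e₀ T) a c * (kap V.e₀ T c / 2) =
          (∑ c, KK (net V.E V.e₀ T) a c * kap V.e₀ T c) / 2 := by
        rw [Finset.sum_div]
        exact Finset.sum_congr rfl fun c _ => by ring
      have h4 := flux_le V.E hB.e0 hgp a (kap V.e₀ T) (fun _ => le_rfl)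
      have h5 : (net V.E V.e₀ T a a).im ≤ gg T a + V.c₀ / 2 := by
        have haA0 : a ∈ Al T₀ := by rwa [md_al hB hM] at haA
        have h6 := hM.st0.mis a (hM.sub ha)
        have h7 := hM.ent a haA a haA
        have h8 : ‖net V.E V.e₀ T a a - T.mb a‖ ≤ V.c₀ / 2 := by
          have h9 : net V.E V.e₀ T a a - T.mb a =
              (net V.E V.e₀ T a a - net V.E V.e₀ T₀ a a) + (net V.E V.e₀ T₀ a a - T₀.mb a) := by
            rw [hM.mb]; ring
          rw [h9]
          refine (norm_add_le _ _).trans ?_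
          have h10 := mul_le_mul_of_nonneg_left (hB.psi n P a) i1
          have h11 := hB.half n k hn
          linarith
        have h12 := (Complex.abs_im_le_norm (net V.E V.e₀ T a a - T.mb a)).trans h8
        rw [Complex.sub_im] at h12
        have h13 := (abs_le.1 h12).2
        unfold gg
        linarith
      have h6 : V.c₀ ≤ gg T a := (hg a haA).1
      rw [h3] at h2
      linarith
    have h2 := yy_mono hC hX hVF (E := V.E) (e₀ := V.e₀) hr hcl4.le
      (fun a ha => hgp a (hrun a ha).2.2) (fun x hx => (hrun x hx).2.1) ⟨by norm_num, by norm_num⟩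
      h1 a ha'
    refine h2.trans ((hM.yin a ha').trans (mul_le_mul_of_nonneg_right ?_ hga.le))
    have := mul_le_mul_of_nonneg_left (psi_mono V.Γ n hP a) i3
    linarith only [this]
  · refine fb_mono hB.D0 hB.D1 ?_ ?_ hM.frm
    · intro x hx
      have h1 := mul_le_mul_of_nonneg_left (psi_mono V.Γ n hP x) i4
      obtain ⟨h2, h3⟩ := md_ww hB hM hx
      have h4 : (b.q n k).eps * (ww V.e₀ T x / ww V.e₀ T₀ x) ≤ (b.q n k).eps := by
        have h5 : ww V.e₀ T x / ww V.e₀ T₀ x ≤ 1 := by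
          rw [div_le_one (lt_of_lt_of_le h3 h2)]
          exact h2
        exact mul_le_of_le_one_right q4 h5
      by_cases hx' : x ∈ run'
      · rw [if_pos hx', if_pos (hr hx')]
        linarith only [h1]
      · rw [if_neg hx']
        split_ifs
        · linarith only [q5, h1, h4]
        · linarith only [h1]
    · intro x
      have h1 := mul_le_mul_of_nonneg_left (psi_mono V.Γ n hP x) i4
      linarith only [h1]

/-- field `rbeg` -/
theorem rbeg_field {V : Env d M} {b : Bud} (hB : BudOk V b) :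
    ∀ n T run, n ≤ V.Γ.N → Fc V.Γ V.kk V.cl V.Dn n (V.kk (n + 1)) ∅ T run →
      St V b n (V.kk (n + 1)) T run → Rl V b n T run ∅ T run := by
  intro n T run hn hF hS
  refine ⟨hn, hF, hS, ⟨le_rfl, hS.alv⟩, rfl, fun x => Or.inl ⟨rfl, rfl⟩, ?_, ?_, ?_, ?_⟩
  · intro x _ y _
    rw [sub_self, norm_zero, phi_empty, mul_zero]
  · intro x hx
    rw [phi_empty, mul_zero, add_zero, mul_one]
    exact hS.lar x hx
  · intro a ha
    rw [phi_empty, mul_zero, add_zero]
    exact hS.yin a ha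
  · refine fb_mono hB.D0 hB.D1 ?_ ?_ hS.frm
    · intro x hx
      rw [phi_empty, mul_zero, add_zero]
    · intro x
      rw [phi_empty, mul_zero, add_zero]

theorem rl_gau {V : Env d M} {b : Bud} {n : ℕ} {T₀ T : Cfg (Tor d M)}
    {run₀ run P : Finset (Tor d M)} (h : Rl V b n T₀ run₀ P T run) :
    Gb V T (b.q n (V.kk (n + 1))).del := by
  intro x hx
  have h2 : x ∈ Al T₀ := by
    rcases h.chg x with ⟨-, h3⟩ | ⟨-, h3, h4⟩
    · rw [mem_al, ← h3]
      exact mem_al.1 hx
    · exact mem_al.2 h3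
  have h1 := h.st0.gau x h2
  unfold gg at h1 ⊢
  rw [h.mb]
  exact h1

/-- field `rmon` -/
theorem rmon_field (hC : CmpStmt) (hX : VexStmt) (hVF : VfrStmt) {V : Env d M} {b : Bud}
    (hB : BudOk V b) : ∀ n T₀ run₀ P P' T run run', P ⊆ P' → run' ⊆ run →
      Fc V.Γ V.kk V.cl V.Dn n (V.kk (n + 1)) ∅ T run →
      Fc V.Γ V.kk V.cl V.Dn n (V.kk (n + 1)) ∅ T run' →
      Rl V b n T₀ run₀ P T run → Rl V b n T₀ run₀ P' T run' := by
  intro n T₀ run₀ P P' T run run' hP hr hF hF' hM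
  have hg := rl_gau hM
  have hgp := gau_pos hB.c0 hg
  obtain ⟨-, -, hcl3⟩ := cl_bd hB (V.kk (n + 1))
  obtain ⟨q1, q2, q3, q4, q5⟩ := hB.q n (V.kk (n + 1))
  obtain ⟨i1, i2, i3, i4, i5⟩ := hB.icR n
  have hrs : ∀ x ∈ run, (T.s x : ℝ) = V.cl (V.kk (n + 1)) := fun x hx => by
    have := hF.runs x hx
    rw [if_neg (Finset.notMem_empty x)] at this
    rw [this]
  refine ⟨hM.ctx, hM.fc0, hM.st0, ⟨hr.trans hM.sub.1, hr.trans hM.sub.2⟩, hM.mb, fun x => ?_,
    ?_, ?_, ?_, ?_⟩
  · rcases hM.chg x with h | ⟨h1, h2, h3⟩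
    · exact Or.inl h
    · exact Or.inr ⟨hP h1, h2, h3⟩
  · intro x hx y hy
    exact (hM.ent x hx y hy).trans (mul_le_mul_of_nonneg_left (phi_mono V.Γ i5 n hP x) i1)
  · intro x hx
    have h1 : LaR (net V.E V.e₀ T) run' x ≤ LaR (net V.E V.e₀ T) run x := by
      unfold LaR
      exact Finset.sum_le_sum_of_subset_of_nonneg hr fun y _ _ => sq_nonneg _
    refine h1.trans ((hM.lar x hx).trans (mul_le_mul_of_nonneg_left ?_ q2))
    have := mul_le_mul_of_nonneg_left (phi_mono V.Γ i5 n hP x) i2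
    linarith
  · intro a ha
    have ha' := hr ha
    have hga := hgp a (hM.sub.2 ha')
    have h1 : ∀ a ∈ run,
        ∑ c, KK (net V.E V.e₀ T) a c * pv T run (V.cl (V.kk (n + 1))) c * gg T c ≤
          0 * gg T a := by
      intro a ha
      rw [pv_zero hrs]
      simp
    have h2 := yy_mono hC hX hVF (E := V.E) (e₀ := V.e₀) hr hcl3.le
      (fun a ha => hgp a (hM.sub.2 ha)) (fun x hx => (hrs x hx).ge) ⟨le_rfl, by norm_num⟩
      h1 a ha'
    refine h2.trans ((hM.yin a ha').trans (mul_le_mul_of_nonneg_right ?_ hga.le))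
    have := mul_le_mul_of_nonneg_left (phi_mono V.Γ i5 n hP a) i3
    linarith
  · refine fb_mono hB.D0 hB.D1 ?_ ?_ hM.frm
    · intro x hx
      have h1 := mul_le_mul_of_nonneg_left (phi_mono V.Γ i5 n hP x) i4
      by_cases hx' : x ∈ run'
      · rw [if_pos hx', if_pos (hr hx')]
        linarith
      · rw [if_neg hx']
        split_ifs
        · linarith only [q5, h1]
        · linarith
    · intro x
      have h1 := mul_le_mul_of_nonneg_left (phi_mono V.Γ i5 n hP x) i4
      linarith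

end Pool.Agent.AHH.H16
end
end -- Pool.Agent.Helper16_AHH.Fld
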