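import Pool.Agent.Helper12_MEB.B151

/-!
# Merged copies (generated) of the modules

* `Pool.Agent.Helper89_FAR.Far3`
* `Pool.Agent.Helper89_FAR.Plt`
* `Pool.Agent.Helper89_FAR.Hf`
* `Pool.Agent.Helper89_FAR.Loc`
-/

set_option autoImplicit false

section -- Pool.Agent.Helper89_FAR.Far3

/-!
# FAR, part 3: the increments of the form, compared with the ladder
-/

set_option autoImplicit false

open scoped BigOperators Matrix

noncomputable section

namespace Pool.Agent.ANR.H89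

open Pool.Agent.ANR

section ladder

variable {X : Type*} [Fintype X] [DecidableEq X]

/-- the bilinear form of `T - T E1 T` -/
def bf (E1 : Matrix X X ℝ) (τ u v : X → ℝ) : ℝ :=
  ∑ c, τ c * u c * v c - ∑ c, ∑ e, τ c * u c * (E1 c e * (τ e * v e))

theorem bf_quad (E1 : Matrix X X ℝ) (τ u v : X → ℝ) (hs : ∀ x y, E1 x y = E1 y x) (t : ℝ) :
    bf E1 τ (fun x => u x + t * v x) (fun x => u x + t * v x) =
      bf E1 τ v v * (t * t) + 2 * bf E1 τ u v * t + bf E1 τ u u := by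
  have h1 : ∑ c, ∑ e, τ c * v c * (E1 c e * (τ e * u e)) =
      ∑ c, ∑ e, τ c * u c * (E1 c e * (τ e * v e)) := by
    rw [Finset.sum_comm]
    exact Finset.sum_congr rfl fun c _ => Finset.sum_congr rfl fun e _ => by rw [hs e c]; ring
  have h2 : ∑ c, ∑ e, τ c * (u c + t * v c) * (E1 c e * (τ e * (u e + t * v e))) =
      ∑ c, ∑ e, τ c * u c * (E1 c e * (τ e * u e)) +
        t * (∑ c, ∑ e, τ c * u c * (E1 c e * (τ e * v e)) +
          ∑ c, ∑ e, τ c * v c * (E1 c e * (τ e * u e))) +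
        t * t * ∑ c, ∑ e, τ c * v c * (E1 c e * (τ e * v e)) := by
    simp only [Finset.mul_sum, ← Finset.sum_add_distrib]
    exact Finset.sum_congr rfl fun c _ => Finset.sum_congr rfl fun e _ => by ring
  have h3 : ∑ c, τ c * (u c + t * v c) * (u c + t * v c) = ∑ c, τ c * u c * u c +
      2 * t * ∑ c, τ c * u c * v c + t * t * ∑ c, τ c * v c * v c := by
    simp only [Finset.mul_sum, ← Finset.sum_add_distrib]
    exact Finset.sum_congr rfl fun c _ => by ring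
  unfold bf
  rw [h2, h3, h1]; ring

/-- the ladder changes an entry by at most the product of the fluxes into the resistances -/
theorem lad_tail {E E1 : Matrix X X ℝ} {τ : X → ℝ} (h : LTG.Lad E E1 τ) (x y : X) :
    (E x y - E1 x y) ^ 2 ≤ (∑ c, τ c * E x c ^ 2) * ∑ c, τ c * E y c ^ 2 := by
  have hs : ∀ a b, E a b = E b a := fun a b => (congrFun (congrFun h.sym.eq a) b).symm
  have hs1 : ∀ a b, E1 a b = E1 b a := fun a b =>
    (congrFun (congrFun (LTG.lad_symm h).eq a) b).symm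
  have heq : ∀ a b, E1 a b + ∑ c, E a c * τ c * E1 c b = E a b := fun a b => by
    have := congrFun (congrFun h.eq a) b
    rw [Matrix.add_apply, Matrix.mul_apply] at this
    rw [← this]
    congr 1
    refine Finset.sum_congr rfl fun c _ => ?_
    rw [Matrix.mul_diagonal]
  -- nonnegativity
  have hpos : ∀ v : X → ℝ, 0 ≤ bf E1 τ v v := fun v => by
    set w : X → ℝ := fun a => v a - ∑ e, E1 a e * (τ e * v e) with hw
    have h1 : ∀ a, v a = w a + ∑ c, E a c * (τ c * w c) := fun a => by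
      have h2 : ∑ c, E a c * (τ c * w c) = ∑ e, E1 a e * (τ e * v e) := by
        have h3 : ∀ e, E1 a e = E a e - ∑ c, E a c * τ c * E1 c e := fun e => by
          linarith [heq a e]
        have h4 : ∑ e, E1 a e * (τ e * v e) =
            ∑ e, (E a e - ∑ c, E a c * τ c * E1 c e) * (τ e * v e) :=
          Finset.sum_congr rfl fun e _ => by rw [← h3 e]
        have h5 : ∑ e, (∑ c, E a c * τ c * E1 c e) * (τ e * v e) =
            ∑ c, E a c * (τ c * ∑ e, E1 c e * (τ e * v e)) := by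
          simp only [Finset.mul_sum, Finset.sum_mul]
          rw [Finset.sum_comm]
          exact Finset.sum_congr rfl fun e _ => Finset.sum_congr rfl fun c _ => by ring
        rw [h4]
        simp only [sub_mul, Finset.sum_sub_distrib]
        rw [h5, ← Finset.sum_sub_distrib]
        exact Finset.sum_congr rfl fun e _ => by simp only [hw]; ring
      rw [h2]; simp only [hw]; ring
    have h4 : bf E1 τ v v = ∑ a, τ a * w a ^ 2 + LTG.qd E (fun a => τ a * w a) := by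
      have h5 : bf E1 τ v v = ∑ a, τ a * v a * w a := by
        unfold bf
        rw [← Finset.sum_sub_distrib]
        refine Finset.sum_congr rfl fun a _ => ?_
        simp only [hw]
        rw [mul_sub, Finset.mul_sum]
      rw [h5]
      unfold LTG.qd
      rw [← Finset.sum_add_distrib]
      refine Finset.sum_congr rfl fun a _ => ?_
      have h6 : (E *ᵥ fun a => τ a * w a) a = ∑ c, E a c * (τ c * w c) := rfl
      rw [h6]
      have h7 := h1 a
      calc τ a * v a * w a = τ a * w a * v a := by ring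
        _ = τ a * w a * (w a + ∑ c, E a c * (τ c * w c)) := by rw [← h7]
        _ = _ := by ring
    rw [h4]
    exact add_nonneg (Finset.sum_nonneg fun a _ => mul_nonneg (h.tau a) (sq_nonneg _)) (h.psd _)
  have hle : ∀ v : X → ℝ, bf E1 τ v v ≤ ∑ c, τ c * v c ^ 2 := fun v => by
    have h1 := LTG.lad_nonneg h (fun a => τ a * v a)
    have h2 : LTG.qd E1 (fun a => τ a * v a) =
        ∑ c, ∑ e, τ c * v c * (E1 c e * (τ e * v e)) := by
      unfold LTG.qd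
      refine Finset.sum_congr rfl fun a _ => ?_
      have h6 : (E1 *ᵥ fun a => τ a * v a) a = ∑ c, E1 a c * (τ c * v c) := rfl
      rw [h6, Finset.mul_sum]
    unfold bf
    rw [← h2]
    have h3 : ∑ c, τ c * v c * v c = ∑ c, τ c * v c ^ 2 :=
      Finset.sum_congr rfl fun c _ => by ring
    linarith
  -- the entry
  have hent : E x y - E1 x y = bf E1 τ (E x) (E y) := by
    have h1 : E x y - E1 x y = ∑ c, E x c * τ c * E1 c y := by linarith [heq x y]
    have h2 : ∀ c, E1 c y = E c y - ∑ e, E1 c e * (τ e * E y e) := fun c => by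
      have h3 := heq y c
      have h4 : ∑ e, E y e * τ e * E1 e c = ∑ e, E1 c e * (τ e * E y e) :=
        Finset.sum_congr rfl fun e _ => by rw [hs1 e c]; ring
      rw [hs1 c y, hs c y]; linarith only [h3, h4]
    rw [h1, Finset.sum_congr rfl fun c _ => by rw [h2 c]]
    unfold bf
    rw [← Finset.sum_sub_distrib]
    refine Finset.sum_congr rfl fun c _ => ?_
    rw [mul_sub, Finset.mul_sum, hs c y]
    congr 1
    · ring
    · exact Finset.sum_congr rfl fun e _ => by ring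
  -- Cauchy-Schwarz
  have hd := discrim_le_zero (a := bf E1 τ (E y) (E y)) (b := 2 * bf E1 τ (E x) (E y))
    (c := bf E1 τ (E x) (E x)) fun t => by rw [← bf_quad E1 τ (E x) (E y) hs1 t]; exact hpos _
  unfold discrim at hd
  rw [hent]
  have h5 : bf E1 τ (E x) (E y) ^ 2 ≤ bf E1 τ (E x) (E x) * bf E1 τ (E y) (E y) := by nlinarith only [hd]
  exact h5.trans (mul_le_mul (hle _) (hle _) (hpos _)
    (Finset.sum_nonneg fun c _ => mul_nonneg (h.tau c) (sq_nonneg _)))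

end ladder

variable {X : Type} [Fintype X] [DecidableEq X]

open Pool.Agent.AFJ Pool.Agent.LE.QF

theorem ee_off (G : Matrix X X ℂ) (κ : X → ℝ) (A : Finset X) {x y : X} (hxy : x ≠ y) :
    EE G κ A x y = -(cd G κ A x y) := by
  unfold EE Dl
  rw [Matrix.sub_apply, Matrix.diagonal_apply_ne _ hxy, zero_sub]

theorem ee_diag (G : Matrix X X ℂ) (κ : X → ℝ) (A : Finset X) (x : X) :
    EE G κ A x x = ∑ y ∈ Finset.univ.erase x, cd G κ A x y := by
  unfold EE Dl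
  rw [Matrix.sub_apply, Matrix.diagonal_apply_eq, ← Finset.add_sum_erase _ _ (Finset.mem_univ x)]
  ring

namespace Upd

variable {H H' : Matrix X X ℝ} {κ κ' φ : X → ℝ} {F A S : Finset X} {h₀ k₀ β : ℝ}

/-- the fluxes of the form into `F` -/
theorem ee_flux (h : Upd H H' κ κ' φ F A S h₀ k₀ β) {τ : X → ℝ} {τs : ℝ}
    (hτ : ∀ x, 0 ≤ τ x ∧ τ x ≤ τs) (hτF : ∀ x, x ∉ F → τ x = 0) (x : X) :
    ∑ c, τ c * EE (Gr H κ) κ A x c ^ 2 ≤
      if x ∈ A then τs * (2 * Real.exp (-(2 * β * φ x))) ^ 2 else 0 := by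
  have hτs : 0 ≤ τs := (hτ x).1.trans (hτ x).2
  have hcd0 : ∀ a b, 0 ≤ cd (Gr H κ) κ A a b := fun a b => by
    unfold cd; split
    · exact mul_nonneg (mul_pos (h.n.pos a) (h.n.pos b)).le (sq_nonneg _)
    · exact le_rfl
  by_cases hx : x ∈ A
  swap
  · rw [if_neg hx]
    refine le_of_eq (Finset.sum_eq_zero fun c _ => ?_)
    have : EE (Gr H κ) κ A x c = 0 := by
      have h0 : ∀ b, cd (Gr H κ) κ A x b = 0 := fun b => by
        unfold cd; rw [if_neg fun hh => hx hh.1]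
      by_cases hc : x = c
      · subst hc; rw [ee_diag]; exact Finset.sum_eq_zero fun b _ => h0 b
      · rw [ee_off _ _ _ hc, h0, neg_zero]
    rw [this]; ring
  rw [if_pos hx]
  have h1 : ∑ c, τ c * EE (Gr H κ) κ A x c ^ 2 ≤ τs * ∑ c ∈ F, |EE (Gr H κ) κ A x c| ^ 2 := by
    rw [← Finset.sum_add_sum_compl F]
    have h2 : ∑ c ∈ Fᶜ, τ c * EE (Gr H κ) κ A x c ^ 2 = 0 := Finset.sum_eq_zero fun c hc => by
      rw [hτF c (Finset.mem_compl.1 hc), zero_mul]
    rw [h2, add_zero, Finset.mul_sum]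
    refine Finset.sum_le_sum fun c _ => ?_
    rw [sq_abs]
    exact mul_le_mul_of_nonneg_right (hτ c).2 (sq_nonneg _)
  refine h1.trans (mul_le_mul_of_nonneg_left ?_ hτs)
  have h3 : ∑ c ∈ F, |EE (Gr H κ) κ A x c| ^ 2 ≤ (∑ c ∈ F, |EE (Gr H κ) κ A x c|) ^ 2 :=
    Finset.sum_sq_le_sq_sum_of_nonneg fun c _ => abs_nonneg _
  refine h3.trans (pow_le_pow_left₀ (Finset.sum_nonneg fun c _ => abs_nonneg _) ?_ 2)
  have hcdle : ∀ b, cd (Gr H κ) κ A x b ≤ κ x * κ b * ‖Gr H κ x b‖ ^ 2 := fun b => by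
    unfold cd KK; split
    · exact le_rfl
    · exact mul_nonneg (mul_pos (h.n.pos x) (h.n.pos b)).le (sq_nonneg _)
  by_cases hxF : x ∈ F
  · rw [h.hF x hxF, mul_zero, neg_zero, Real.exp_zero, mul_one]
    have h5 : ∑ b, κ x * κ b * ‖Gr H κ x b‖ ^ 2 ≤ 1 := by
      have e1 : ∑ b, κ x * κ b * ‖Gr H κ x b‖ ^ 2 = κ x * (Gr H κ x x).im := by
        rw [← ward h.n, Finset.mul_sum]
        exact Finset.sum_congr rfl fun b _ => by ring
      rw [e1]
      have h3 := (hGeq X H κ h.n).2.2.2.1 x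
      have h4 : (Gr H κ x x).im ≤ ‖Gr H κ x x‖ :=
        (le_abs_self _).trans (Complex.abs_im_le_norm _)
      exact (mul_le_mul_of_nonneg_left h4 (h.n.pos x).le).trans h3
    have h6 : ∑ b ∈ Finset.univ.erase x, cd (Gr H κ) κ A x b ≤ 1 := by
      refine (Finset.sum_le_sum fun b _ => hcdle b).trans ?_
      exact (Finset.sum_le_univ_sum_of_nonneg fun b =>
        mul_nonneg (mul_pos (h.n.pos x) (h.n.pos b)).le (sq_nonneg _)).trans h5
    have h7 : ∑ c ∈ F, |EE (Gr H κ) κ A x c| ≤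
        EE (Gr H κ) κ A x x + ∑ b ∈ Finset.univ.erase x, cd (Gr H κ) κ A x b := by
      rw [← Finset.add_sum_erase F _ hxF]
      have e2 : |EE (Gr H κ) κ A x x| = EE (Gr H κ) κ A x x := abs_of_nonneg (by
        rw [ee_diag]; exact Finset.sum_nonneg fun b _ => hcd0 x b)
      rw [e2]
      refine add_le_add le_rfl ?_
      refine le_trans (le_of_eq ?_) (Finset.sum_le_sum_of_subset_of_nonneg
        (Finset.erase_subset_erase x (Finset.subset_univ F)) fun b _ _ => hcd0 x b)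
      refine Finset.sum_congr rfl fun c hc => ?_
      rw [ee_off _ _ _ (Finset.ne_of_mem_erase hc).symm, abs_neg, abs_of_nonneg (hcd0 x c)]
    rw [ee_diag] at h7
    linarith
  · have h5 := h.cond_F hxF
    refine le_trans (Finset.sum_le_sum fun c hc => ?_) h5
    have hne : x ≠ c := fun hh => hxF (by rw [hh]; exact hc)
    rw [ee_off _ _ _ hne, abs_neg, abs_of_nonneg (hcd0 x c)]
    exact hcdle c

/-- FAR, the form after the block update compared with the ladder -/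
theorem ee_tail (h : Upd H H' κ κ' φ F A S h₀ k₀ β) {τ : X → ℝ} {τs : ℝ}
    (hτ : ∀ x, 0 ≤ τ x ∧ τ x ≤ τs) (hτF : ∀ x, x ∉ F → τ x = 0) {E1 : Matrix X X ℝ}
    (hE : LTG.Lad (EE (Gr H κ) κ A) E1 τ) {x y : X} (hne : x ≠ y) (hxy : ¬ (x ∈ F ∧ y ∈ F)) :
    |EE (Gr H' κ') κ' A x y - E1 x y| ≤
      if x ∈ A ∧ y ∈ A then (8 + 4 * τs) * Real.exp (-(β * (φ x + φ y))) else 0 := by
  have hτs : 0 ≤ τs := (hτ x).1.trans (hτ x).2
  have h1 := lad_tail hE x y
  have h2 := h.ee_flux hτ hτF x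
  have h3 := h.ee_flux hτ hτF y
  have h4 : 0 ≤ ∑ c, τ c * EE (Gr H κ) κ A x c ^ 2 :=
    Finset.sum_nonneg fun c _ => mul_nonneg (hτ c).1 (sq_nonneg _)
  have h5 : 0 ≤ ∑ c, τ c * EE (Gr H κ) κ A y c ^ 2 :=
    Finset.sum_nonneg fun c _ => mul_nonneg (hτ c).1 (sq_nonneg _)
  by_cases hA : x ∈ A ∧ y ∈ A
  · rw [if_pos hA]
    rw [if_pos hA.1] at h2
    rw [if_pos hA.2] at h3
    have h6 : |EE (Gr H κ) κ A x y - E1 x y| ≤ 4 * τs * Real.exp (-(β * (φ x + φ y))) := by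
      have e1 : (EE (Gr H κ) κ A x y - E1 x y) ^ 2 ≤
          (4 * τs * Real.exp (-(2 * β * (φ x + φ y)))) ^ 2 := by
        refine h1.trans ((mul_le_mul h2 h3 h5 (by positivity)).trans (le_of_eq ?_))
        have e2 : Real.exp (-(2 * β * (φ x + φ y))) =
            Real.exp (-(2 * β * φ x)) * Real.exp (-(2 * β * φ y)) := by
          rw [← Real.exp_add]; congr 1; ring
        rw [e2]; ring
      have e3 : |EE (Gr H κ) κ A x y - E1 x y| ≤ 4 * τs * Real.exp (-(2 * β * (φ x + φ y))) :=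
        abs_le_of_sq_le_sq e1 (by positivity)
      refine e3.trans (mul_le_mul_of_nonneg_left (Real.exp_le_exp.2 ?_) (by positivity))
      nlinarith only [mul_nonneg h.hβ (add_nonneg (h.plt.nn x) (h.plt.nn y))]
    have h7 : |EE (Gr H' κ') κ' A x y - EE (Gr H κ) κ A x y| ≤
        8 * Real.exp (-(β * (φ x + φ y))) := by
      rw [ee_off _ _ _ hne, ee_off _ _ _ hne]
      unfold cd KK
      rw [if_pos hA, if_pos hA]
      have e1 := h.cond hxy
      rw [neg_sub_neg, abs_sub_comm]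
      exact e1
    have h8 := abs_sub_le (EE (Gr H' κ') κ' A x y) (EE (Gr H κ) κ A x y) (E1 x y)
    have h9 : (8 + 4 * τs) * Real.exp (-(β * (φ x + φ y))) =
        8 * Real.exp (-(β * (φ x + φ y))) + 4 * τs * Real.exp (-(β * (φ x + φ y))) := by ring
    rw [h9]; linarith only [h6, h7, h8]
  · rw [if_neg hA]
    have e1 : ∀ (G : Matrix X X ℂ) (k : X → ℝ), EE G k A x y = 0 := fun G k => by
      rw [ee_off _ _ _ hne]; unfold cd; rw [if_neg hA, neg_zero]
    have e2 : (EE (Gr H κ) κ A x y - E1 x y) ^ 2 ≤ 0 := by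
      refine h1.trans ?_
      by_cases hx : x ∈ A
      · have hy : y ∉ A := fun hy => hA ⟨hx, hy⟩
        rw [if_neg hy] at h3
        have : ∑ c, τ c * EE (Gr H κ) κ A y c ^ 2 = 0 := le_antisymm h3 h5
        rw [this, mul_zero]
      · rw [if_neg hx] at h2
        have : ∑ c, τ c * EE (Gr H κ) κ A x c ^ 2 = 0 := le_antisymm h2 h4
        rw [this, zero_mul]
    have e3 : EE (Gr H κ) κ A x y - E1 x y = 0 := by nlinarith only [sq_nonneg (EE (Gr H κ) κ A x y - E1 x y), e2]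
    rw [e1] at e3 ⊢
    rw [e3, abs_zero]

end Upd

end Pool.Agent.ANR.H89
end
end -- Pool.Agent.Helper89_FAR.Far3

section -- Pool.Agent.Helper89_FAR.Plt

/-!
# FAR, part 5: the plateau function of a set, the torus
-/

set_option autoImplicit false

open scoped BigOperators Matrix NNReal

noncomputable section

namespace Pool.Agent.ANR.H89

open Pool.Agent.ANR

/-! ### the plateau function of a finite set -/

/-- If every walk costs at least `c D - r`, there is a plateau function which vanishes on `b` and across the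
bonds which touch `b`, and is at least `c D - r - 1` far from `b` (up to the cutoff `N`). -/
theorem plat_set {X : Type} (adj : X → X → Prop) (hsym : ∀ x y, adj x y → adj y x)
    (D : X → X → ℝ) (dead : Set X) (c r : ℝ)
    (hw : ∀ x y l, ACN.IsWalk adj x y l → c * D x y - r ≤ ACN.cost dead l)
    (b : Finset X) (hb : b.Nonempty) (N : ℕ) :
    ∃ φ : X → ℝ, (∀ x, 0 ≤ φ x) ∧ (∀ x, φ x ≤ N) ∧ (∀ x ∈ b, φ x = 0) ∧
      (∀ y z, adj y z → φ y ≠ φ z → y ∉ dead ∧ z ∉ dead ∧ y ∉ b ∧ z ∉ b ∧ |φ y - φ z| ≤ 1) ∧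
      ∀ y, ∃ x ∈ b, min (N : ℝ) (c * D x y - r) - 1 ≤ φ y := by
  choose f h1 h2 h3 h4 h5 using fun x => ACN.plateau adj hsym D dead c r hw x N
  set m : X → ℕ := fun y => b.inf' hb fun x => f x y with hm
  have hmlip : ∀ y z, adj y z → m z ≤ m y + 1 := fun y z hyz => by
    obtain ⟨x, hx, hxy⟩ := Finset.exists_mem_eq_inf' hb fun x => f x y
    have e1 : m z ≤ f x z := Finset.inf'_le _ hx
    have e2 : m y = f x y := hxy
    have e3 := h4 x y z hyz
    omega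
  have hmdead : ∀ y z, adj y z → (y ∈ dead ∨ z ∈ dead) → m z = m y := fun y z hyz hd => by
    simp only [hm]
    exact Finset.inf'_congr hb rfl fun x _ => h5 x y z hyz hd
  have hmb : ∀ x ∈ b, m x = 0 := fun x hx => by
    have e1 : m x ≤ f x x := Finset.inf'_le _ hx
    rw [h1 x] at e1; omega
  refine ⟨fun y => ((m y - 1 : ℕ) : ℝ), fun x => Nat.cast_nonneg _, fun x => ?_, fun x hx => ?_,
    fun y z hyz hne => ?_, fun y => ?_⟩
  · obtain ⟨x', hx'⟩ := hb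
    have e1 : m x ≤ f x' x := Finset.inf'_le _ hx'
    have e2 := h3 x' x
    have e3 : m x - 1 ≤ N := by omega
    show ((m x - 1 : ℕ) : ℝ) ≤ N
    exact_mod_cast e3
  · have := hmb x hx
    show ((m x - 1 : ℕ) : ℝ) = 0
    rw [this]; simp
  · have e1 := hmlip y z hyz
    have e2 := hmlip z y (hsym y z hyz)
    have hne' : m y - 1 ≠ m z - 1 := fun h => hne (by
      show ((m y - 1 : ℕ) : ℝ) = ((m z - 1 : ℕ) : ℝ)
      rw [h])
    refine ⟨fun hd => ?_, fun hd => ?_, fun hy => ?_, fun hz => ?_, ?_⟩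
    · exact hne' (by rw [hmdead y z hyz (Or.inl hd)])
    · exact hne' (by rw [hmdead y z hyz (Or.inr hd)])
    · have := hmb y hy; omega
    · have := hmb z hz; omega
    · rw [abs_le]
      have e3 : ((m y - 1 : ℕ) : ℝ) ≤ ((m z - 1 : ℕ) : ℝ) + 1 := by
        exact_mod_cast (by omega : m y - 1 ≤ m z - 1 + 1)
      have e4 : ((m z - 1 : ℕ) : ℝ) ≤ ((m y - 1 : ℕ) : ℝ) + 1 := by
        exact_mod_cast (by omega : m z - 1 ≤ m y - 1 + 1)
      constructor <;> linarith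
  · obtain ⟨x, hx, hxy⟩ := Finset.exists_mem_eq_inf' hb fun x => f x y
    have e2 : m y = f x y := hxy
    refine ⟨x, hx, ?_⟩
    have e3 := h2 x y
    have e4 : ((f x y : ℕ) : ℝ) - 1 ≤ ((m y - 1 : ℕ) : ℝ) := by
      rw [e2]
      have : (f x y : ℝ) ≤ ((f x y - 1 : ℕ) : ℝ) + 1 := by
        exact_mod_cast (by omega : f x y ≤ f x y - 1 + 1)
      linarith
    linarith

/-! ### the torus -/

open Pool.Agent.BED (Tor adj ev)
open Pool.Agent.ANP (Cfg)
open Pool.Agent.AND2B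

variable {d M : ℕ} [NeZero M]

theorem adj_nonneg (x y : Tor d M) : 0 ≤ adj d M x y := by
  unfold adj
  rw [Matrix.of_apply]
  exact Finset.sum_nonneg fun i _ => add_nonneg (by split <;> norm_num) (by split <;> norm_num)

theorem adj_row (x : Tor d M) : ∑ y, adj d M x y = 2 * d := by
  unfold adj
  simp only [Matrix.of_apply]
  rw [Finset.sum_comm]
  have : ∀ i : Fin d, ∑ y : Tor d M, ((if y = x + ev i then (1 : ℝ) else 0) +
      (if y = x - ev i then (1 : ℝ) else 0)) = 2 := fun i => by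
    rw [Finset.sum_add_distrib, Finset.sum_ite_eq', Finset.sum_ite_eq', if_pos (Finset.mem_univ _),
      if_pos (Finset.mem_univ _)]
    norm_num
  rw [Finset.sum_congr rfl fun i _ => this i]
  simp [mul_comm]

theorem adj_symm (x y : Tor d M) : adj d M x y = adj d M y x := by
  unfold adj
  simp only [Matrix.of_apply]
  refine Finset.sum_congr rfl fun i _ => ?_
  rw [add_comm]
  congr 1
  · have : (y = x - ev i) ↔ (x = y + ev i) := by
      constructor
      · intro h; rw [h]; abel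
      · intro h; rw [h]; abel
    simp only [this]
  · have : (y = x + ev i) ↔ (x = y - ev i) := by
      constructor
      · intro h; rw [h]; abel
      · intro h; rw [h]; abel
    simp only [this]

/-- `x` and `y` are neighbours -/
def Nb (x y : Tor d M) : Prop := ∃ i, y = x + ev i ∨ y = x - ev i

theorem Nb.symm {x y : Tor d M} (h : Nb x y) : Nb y x := by
  obtain ⟨i, h | h⟩ := h
  · exact ⟨i, Or.inr (by rw [h]; abel)⟩
  · exact ⟨i, Or.inl (by rw [h]; abel)⟩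

theorem nb_of_adj {x y : Tor d M} (h : adj d M x y ≠ 0) : Nb x y := by
  by_contra hn
  apply h
  unfold adj
  rw [Matrix.of_apply]
  refine Finset.sum_eq_zero fun i _ => ?_
  rw [if_neg fun h => hn ⟨i, Or.inl h⟩, if_neg fun h => hn ⟨i, Or.inr h⟩, add_zero]

theorem hr_off (V : Tor d M → ℝ) (E : ℝ) {x y : Tor d M} (hxy : x ≠ y) :
    Hr V E x y = adj d M x y := by
  unfold Hr
  rw [Matrix.add_apply, Matrix.diagonal_apply_ne _ hxy, add_zero]

theorem hr_symm (V : Tor d M → ℝ) (E : ℝ) (x y : Tor d M) : Hr V E x y = Hr V E y x := by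
  by_cases h : x = y
  · rw [h]
  · rw [hr_off V E h, hr_off V E (Ne.symm h), adj_symm]

/-- plateau functions on the torus -/
theorem plt_tor (V : Tor d M → ℝ) (E : ℝ) {φ : Tor d M → ℝ} {S : Finset (Tor d M)}
    (h0 : ∀ x, 0 ≤ φ x)
    (h1 : ∀ x y, Nb x y → φ x ≠ φ y → x ∈ S ∧ y ∈ S ∧ |φ x - φ y| ≤ 1) :
    Plt (Hr V E) φ S (2 * d) where
  nn := h0
  lip := fun x y hH hne => by
    have hxy : x ≠ y := fun h => hne (by rw [h])
    rw [hr_off V E hxy] at hH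
    exact h1 x y (nb_of_adj hH) hne
  row := fun x _ => by
    rw [← adj_row x]
    refine Finset.sum_le_sum fun y _ => ?_
    split
    · exact adj_nonneg x y
    · rename_i hne
      rw [hr_off V E (Ne.symm hne), abs_of_nonneg (adj_nonneg x y)]

theorem net_tor (E e₀ : ℝ) (T : Cfg (Tor d M)) (he : 0 < e₀)
    (hm : ∀ x, 0 ≤ (T.s x : ℝ) * (T.mb x).im) : ANR.Net (Hr (Vef T) E) (kap e₀ T) where
  sym := hr_symm _ _
  pos := fun x => by
    unfold kap
    have := hm x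
    linarith

/-- two configurations which agree off `F` -/
theorem off_tor (E e₀ : ℝ) (T T' : Cfg (Tor d M)) (F : Finset (Tor d M))
    (h : ∀ x, x ∉ F → T'.V x = T.V x ∧ T'.s x = T.s x ∧ T'.mb x = T.mb x) :
    ANR.Off (Hr (Vef T) E) (kap e₀ T) (Hr (Vef T') E) (kap e₀ T') F := fun x hx => by
  obtain ⟨h1, h2, h3⟩ := h x hx
  refine ⟨?_, fun y => ?_⟩
  · unfold kap; rw [h2, h3]
  · unfold Hr
    rw [Matrix.add_apply, Matrix.add_apply]
    congr 1
    by_cases hxy : x = y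
    · subst hxy
      rw [Matrix.diagonal_apply_eq, Matrix.diagonal_apply_eq]
      unfold Vef; rw [h1, h2, h3]
    · rw [Matrix.diagonal_apply_ne _ hxy, Matrix.diagonal_apply_ne _ hxy]

/-- FAR on the torus: all the hypotheses in the language of AND2B -/
theorem upd_tor {E e₀ k₀ β : ℝ} {T T' : Cfg (Tor d M)} {F A S : Finset (Tor d M)}
    {φ : Tor d M → ℝ} (he : 0 < e₀) (hm : ∀ x, 0 ≤ (T.s x : ℝ) * (T.mb x).im)
    (hm' : ∀ x, 0 ≤ (T'.s x : ℝ) * (T'.mb x).im)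
    (hoff : ∀ x, x ∉ F → T'.V x = T.V x ∧ T'.s x = T.s x ∧ T'.mb x = T.mb x)
    (h0 : ∀ x, 0 ≤ φ x) (hF : ∀ x ∈ F, φ x = 0)
    (h1 : ∀ x y, Nb x y → φ x ≠ φ y → x ∈ S ∧ y ∈ S ∧ |φ x - φ y| ≤ 1)
    (hSF : Disjoint S F) (hS : ∀ x ∈ S, k₀ ≤ kap e₀ T x)
    (hA : ∀ x ∈ A, k₀ ≤ kap e₀ T x ∧ k₀ ≤ kap e₀ T' x) (hk : 0 < k₀) (hβ : 0 ≤ β)
    (hc : Real.sinh β * (2 * d) ≤ k₀ / 2) :
    Upd (Hr (Vef T) E) (Hr (Vef T') E) (kap e₀ T) (kap e₀ T') φ F A S (2 * d) k₀ β where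
  n := net_tor E e₀ T he hm
  n' := net_tor E e₀ T' he hm'
  off := off_tor E e₀ T T' F hoff
  plt := plt_tor _ _ h0 h1
  hβ := hβ
  hc := hc
  hk₀ := hk
  hF := hF
  hSF := hSF
  hkS := hS
  hA := hA

end Pool.Agent.ANR.H89
end
end -- Pool.Agent.Helper89_FAR.Plt

section -- Pool.Agent.Helper89_FAR.Hf

/-!
# FAR, part 7: block updates in the language of `AHH`, locality, the flux to the old nodes
-/

set_option autoImplicit false

open scoped BigOperators Matrix NNReal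

noncomputable section

namespace Pool.Agent.ANR.H89

open Pool.Agent.ANR
open Pool.Agent.BED (Tor adj ev)
open Pool.Agent.ANP (Cfg Geo Fc)
open Pool.Agent.AND2B (Hr Vef kap net)
open Pool.Agent.AHH (Env Al gg)
open Pool.Agent.LE.QF (KK)

variable {d M : ℕ} [NeZero M]

/-- what FAR needs from the geometry -/
structure GeoF (Γ : Geo (Tor d M)) : Prop where
  ok : ANP.GeoOk Γ d
  one : ∀ i, 1 ≤ Γ.L i
  nb : ∀ x y, Nb x y → Γ.D x y ≤ 1

/-- the constant of the alive distance -/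
def cI (d : ℕ) (Dn : ℕ → ℕ) (I : Finset ℕ) : ℝ := 1 + 2 * ∑ i ∈ I, (3 ^ d * Dn i : ℝ)

theorem cI_pos (d : ℕ) (Dn : ℕ → ℕ) (I : Finset ℕ) : 1 ≤ cI d Dn I := by
  unfold cI
  have : 0 ≤ ∑ i ∈ I, (3 ^ d * Dn i : ℝ) := Finset.sum_nonneg fun i _ => by positivity
  linarith

/-- Upd for two configurations which agree off `F` -/
theorem upd_gen {Γ : Geo (Tor d M)} (hΓ : GeoF Γ) {E e₀ k₀ : ℝ} {T T' : Cfg (Tor d M)}
    {F : Finset (Tor d M)} (hFne : F.Nonempty) {I : Finset ℕ} {Dn : ℕ → ℕ} (he : 0 < e₀)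
    (hm : ∀ x, 0 ≤ (T.s x : ℝ) * (T.mb x).im) (hm' : ∀ x, 0 ≤ (T'.s x : ℝ) * (T'.mb x).im)
    (hoff : ∀ x, x ∉ F → T'.V x = T.V x ∧ T'.s x = T.s x ∧ T'.mb x = T.mb x)
    (dens : ∃ dd : ℕ → Finset (Tor d M), (∀ x, T.s x = 0 → ∃ j ∈ I, x ∈ dd j) ∧
      ∀ j B, (dd j ∩ Γ.blk j B).card ≤ Dn j)
    (hsum : ∑ i ∈ I, (3 ^ d * Dn i : ℝ) / Γ.L i ≤ 1 / 4)
    (hk : 0 < k₀) (hk1 : k₀ ≤ 1) (hal : ∀ x, 0 < T.s x → k₀ ≤ kap e₀ T x)
    (hal' : ∀ x, 0 < T'.s x → k₀ ≤ kap e₀ T' x) :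
    ∃ φ : Tor d M → ℝ,
      Upd (Hr (Vef T) E) (Hr (Vef T') E) (kap e₀ T) (kap e₀ T') φ F (Al T ∩ Al T') (Al T \ F)
        (2 * d) k₀ (k₀ / (8 * d)) ∧
      ∀ y, ∃ x ∈ F, 1 / 2 * (Γ.D x y : ℝ) - (cI d Dn I + 1) ≤ φ y := by
  obtain ⟨dd, hdd, hcard⟩ := dens
  set N₀ : ℕ := ∑ x, ∑ y, Γ.D x y with hN₀
  have hD : ∀ x y, Γ.D x y ≤ N₀ := fun x y => by
    refine le_trans ?_ (Finset.single_le_sum (f := fun x => ∑ y, Γ.D x y)
      (fun i _ => Nat.zero_le _) (Finset.mem_univ x))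
    exact Finset.single_le_sum (f := fun y => Γ.D x y) (fun i _ => Nat.zero_le _)
      (Finset.mem_univ y)
  obtain ⟨φ, h0, hN, hb, hlip, hlow⟩ := plat_set (fun x y : Tor d M => Nb x y)
    (fun x y h => h.symm) (fun x y => (Γ.D x y : ℝ))
    (↑(I.biUnion dd) : Set (Tor d M)) (1 / 2) (1 + 2 * ∑ i ∈ I, (3 ^ d * Dn i : ℝ))
    (fun x y w hw => ANP.H61.pth Γ d hΓ.ok hΓ.one (fun x y => Nb x y) hΓ.nb I dd Dn
      (fun i _ B => hcard i B) hsum x y w hw) F hFne N₀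
  have halive : ∀ x, x ∉ (↑(I.biUnion dd) : Set (Tor d M)) → 0 < T.s x := fun x hx => by
    rw [pos_iff_ne_zero]
    intro h
    obtain ⟨j, hj, hxj⟩ := hdd x h
    exact hx (by rw [Finset.mem_coe, Finset.mem_biUnion]; exact ⟨j, hj, hxj⟩)
  have hmemS : ∀ x, x ∉ (↑(I.biUnion dd) : Set (Tor d M)) → x ∉ F → x ∈ Al T \ F :=
    fun x hx hxF => by
      rw [Finset.mem_sdiff]
      unfold Al
      rw [Finset.mem_filter]
      exact ⟨⟨Finset.mem_univ _, halive x hx⟩, hxF⟩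
  refine ⟨φ, upd_tor he hm hm' hoff h0 hb (fun x y hxy hne => ?_) ?_ (fun x hx => ?_)
    (fun x hx => ?_) hk (by positivity) ?_, fun y => ?_⟩
  · obtain ⟨a1, a2, a3, a4, a5⟩ := hlip x y hxy hne
    exact ⟨hmemS x a1 a3, hmemS y a2 a4, a5⟩
  · exact Finset.sdiff_disjoint
  · rw [Finset.mem_sdiff] at hx
    unfold Al at hx
    rw [Finset.mem_filter] at hx
    exact hal x hx.1.2
  · rw [Finset.mem_inter] at hx
    unfold Al at hx
    rw [Finset.mem_filter, Finset.mem_filter] at hx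
    exact ⟨hal x hx.1.2, hal' x hx.2.2⟩
  · rcases Nat.eq_zero_or_pos d with hd | hd
    · subst hd; simp; linarith only [hk]
    · have hd' : (1 : ℝ) ≤ d := by exact_mod_cast hd
      have e1 : k₀ / (8 * d) ≤ 1 := by
        rw [div_le_one (by positivity)]; linarith only [hk1, hd']
      have e2 : Real.sinh (k₀ / (8 * d)) ≤ 2 * (k₀ / (8 * d)) := by
        have h0 : 0 ≤ k₀ / (8 * d) := by positivity
        rw [Real.sinh_eq]
        have e1 := abs_le.1 (Real.abs_exp_sub_one_sub_id_le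
          (by rw [abs_of_nonneg h0]; exact e1))
        have e2 := Real.add_one_le_exp (-(k₀ / (8 * d)))
        nlinarith [e1.2]
      calc Real.sinh (k₀ / (8 * d)) * (2 * d) ≤ 2 * (k₀ / (8 * d)) * (2 * d) :=
            mul_le_mul_of_nonneg_right e2 (by positivity)
        _ = k₀ / 2 := by field_simp; norm_num
        _ ≤ _ := le_rfl
  · obtain ⟨x, hx, hxy⟩ := hlow y
    refine ⟨x, hx, le_trans ?_ hxy⟩
    have e1 : (Γ.D x y : ℝ) ≤ N₀ := by exact_mod_cast hD x y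
    have e2 : (0 : ℝ) ≤ Γ.D x y := Nat.cast_nonneg _
    have e3 : 1 / 2 * (Γ.D x y : ℝ) - (cI d Dn I) ≤ N₀ := by
      have := cI_pos d Dn I
      linarith only [e1, this]
    have e4 : min (N₀ : ℝ) (1 / 2 * (Γ.D x y : ℝ) - (1 + 2 * ∑ i ∈ I, (3 ^ d * Dn i : ℝ))) =
        1 / 2 * (Γ.D x y : ℝ) - cI d Dn I := min_eq_right e3
    rw [e4]; linarith only

/-- the clocks -/
theorem cl_anti {V : Env d M} (hth : V.th ≤ 1) (hcl : ∀ k, V.cl (k + 1) = V.th * V.cl k) :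
    Antitone V.cl := antitone_nat_of_succ_le fun k => by
  rw [hcl]
  calc V.th * V.cl k ≤ 1 * V.cl k := by gcongr
    _ = V.cl k := one_mul _

/-- alive sites have at least the clock of the next stage -/
theorem clk_le {V : Env d M} (hth : V.th ≤ 1) (hcl : ∀ k, V.cl (k + 1) = V.th * V.cl k)
    {n k : ℕ} {P run : Finset (Tor d M)} {T : Cfg (Tor d M)}
    (hF : Fc V.Γ V.kk V.cl V.Dn n k P T run) {x : Tor d M} (hx : 0 < T.s x) :
    V.cl (k + 1) ≤ T.s x := by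
  have h1 : V.cl (k + 1) ≤ V.cl k := cl_anti hth hcl (Nat.le_succ k)
  have h2 : V.cl (k + 1) ≤ if x ∈ P then V.cl (k + 1) else V.cl k := by
    split
    · exact le_rfl
    · exact h1
  by_cases hr : x ∈ run
  · rw [hF.runs x hr]; exact h2
  · rcases hF.rest x hr with h | h
    · exact absurd h hx.ne'
    · exact h2.trans h.1

/-- FAR for a block update, with the bound of `φ` at all the sites -/
theorem upd_hfx {V : Env d M} (hΓ : GeoF V.Γ) (hth : V.th ≤ 1)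
    (hcl : ∀ k, V.cl (k + 1) = V.th * V.cl k) (hclp : ∀ k, 0 < V.cl k) (hcl1 : V.cl 0 ≤ 1)
    (he : 0 < V.e₀) (hc : 0 < V.c₀) (hc1 : V.c₀ ≤ 1) {n k : ℕ} {P run : Finset (Tor d M)}
    {T T' : Cfg (Tor d M)} {B : Tor d M} (hg : ∀ x ∈ Al T, V.c₀ ≤ gg T x)
    (hF : Fc V.Γ V.kk V.cl V.Dn n k P T run)
    (hsum : ∑ i ∈ Finset.range (n + 1), (3 ^ d * V.Dn i : ℝ) / V.Γ.L i ≤ 1 / 4)
    (hL : 4 * (cI d V.Dn (Finset.range (n + 1)) + 1) ≤ V.Γ.L n) (hB : V.Γ.bl n B = B)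
    (hne : (run ∩ V.Γ.blk n B).Nonempty) (hmb : T'.mb = T.mb)
    (hoff : ∀ x, x ∉ run ∩ V.Γ.blk n B → T'.V x = T.V x ∧ T'.s x = T.s x)
    (hon : ∀ x ∈ run ∩ V.Γ.blk n B, V.cl (k + 1) ≤ T'.s x) :
    (∀ x, 0 < T'.s x ↔ 0 < T.s x) ∧ ∃ φ : Tor d M → ℝ,
      Upd (Hr (Vef T) V.E) (Hr (Vef T') V.E) (kap V.e₀ T) (kap V.e₀ T') φ (run ∩ V.Γ.blk n B)
        (Al T) (Al T \ (run ∩ V.Γ.blk n B)) (2 * d) (V.c₀ * V.cl (k + 1))
        (V.c₀ * V.cl (k + 1) / (8 * d)) ∧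
      (∀ x, 2 * V.Γ.L n < V.Γ.D x B → (V.Γ.D x B : ℝ) / 8 ≤ φ x) ∧
      ∀ y, ∃ x ∈ run ∩ V.Γ.blk n B,
        1 / 2 * (V.Γ.D x y : ℝ) - (cI d V.Dn (Finset.range (n + 1)) + 1) ≤ φ y := by
  set b := run ∩ V.Γ.blk n B with hb
  have hbpos : ∀ x ∈ b, 0 < T.s x := fun x hx => by
    have hxr := (Finset.mem_inter.1 hx).1
    rw [hF.runs x hxr]
    split
    · exact hclp _
    · exact hclp _
  have hiff : ∀ x, 0 < T'.s x ↔ 0 < T.s x := fun x => by
    by_cases hx : x ∈ b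
    · exact ⟨fun _ => hbpos x hx, fun _ => lt_of_lt_of_le (hclp _) (hon x hx)⟩
    · rw [(hoff x hx).2]
  have hkapc : ∀ (S : Cfg (Tor d M)) (x : Tor d M), S.mb = T.mb → 0 < T.s x →
      V.cl (k + 1) ≤ S.s x → V.c₀ * V.cl (k + 1) ≤ kap V.e₀ S x := fun S x hS hx hcx => by
    unfold kap
    have hgx : V.c₀ ≤ (T.mb x).im := hg x (by
      unfold Al; rw [Finset.mem_filter]; exact ⟨Finset.mem_univ _, hx⟩)
    rw [hS]
    have h1 : (V.cl (k + 1) : ℝ) ≤ S.s x := by exact_mod_cast hcx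
    have h2 : V.c₀ * V.cl (k + 1) ≤ (S.s x : ℝ) * (T.mb x).im := by
      rw [mul_comm]
      exact mul_le_mul h1 hgx hc.le (S.s x).2
    linarith only [he, h2]
  have hpos : ∀ (S : Cfg (Tor d M)), S.mb = T.mb → (∀ x, 0 < S.s x → 0 < T.s x) →
      ∀ x, 0 ≤ (S.s x : ℝ) * (S.mb x).im := fun S hS hSs x => by
    by_cases hx : 0 < S.s x
    · have hgx : V.c₀ ≤ (T.mb x).im := hg x (by
        unfold Al; rw [Finset.mem_filter]; exact ⟨Finset.mem_univ _, hSs x hx⟩)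
      rw [hS]
      exact mul_nonneg (S.s x).2 (hc.le.trans hgx)
    · have : S.s x = 0 := by simpa using hx
      rw [this]; simp
  have hk0 : 0 < V.c₀ * (V.cl (k + 1) : ℝ) := mul_pos hc (by exact_mod_cast hclp _)
  have hk1 : V.c₀ * (V.cl (k + 1) : ℝ) ≤ 1 := by
    have h1 : (V.cl (k + 1) : ℝ) ≤ 1 := by
      have := (cl_anti hth hcl (Nat.zero_le (k + 1))).trans hcl1
      exact_mod_cast this
    have h2 : (0 : ℝ) ≤ V.cl (k + 1) := (V.cl (k + 1)).2
    nlinarith only [hc1, h1]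
  obtain ⟨φ, hU, hlow⟩ := upd_gen hΓ (E := V.E) (e₀ := V.e₀) (k₀ := V.c₀ * V.cl (k + 1)) (T := T)
    (T' := T') (F := b) hne (I := Finset.range (n + 1)) (Dn := V.Dn) he
    (hpos T rfl fun x h => h) (hpos T' hmb fun x h => (hiff x).1 h)
    (fun x hx => ⟨(hoff x hx).1, (hoff x hx).2, by rw [hmb]⟩)
    (by
      obtain ⟨dd, h1, h2⟩ := hF.dens
      refine ⟨dd, fun x hx => ?_, h2⟩
      obtain ⟨j, hj, hxj⟩ := h1 x hx
      exact ⟨j, Finset.mem_range.2 (by omega), hxj⟩)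
    hsum hk0 hk1 (fun x hx => hkapc T x rfl hx (clk_le hth hcl hF hx))
    (fun x hx => by
      by_cases hxb : x ∈ b
      · exact hkapc T' x hmb ((hiff x).1 hx) (hon x hxb)
      · refine hkapc T' x hmb ((hiff x).1 hx) ?_
        rw [(hoff x hxb).2]
        exact clk_le hth hcl hF ((hiff x).1 hx))
  have hAl : Al T ∩ Al T' = Al T := by
    ext x
    rw [Finset.mem_inter]
    unfold Al
    rw [Finset.mem_filter, Finset.mem_filter]
    exact ⟨fun h => h.1, fun h => ⟨h, Finset.mem_univ _, (hiff x).2 h.2⟩⟩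
  rw [hAl] at hU
  refine ⟨hiff, φ, hU, fun x hx => ?_, hlow⟩
  obtain ⟨y, hy, hxy⟩ := hlow x
  refine le_trans ?_ hxy
  have h1 : V.Γ.bl n y = B := by
    have := (Finset.mem_inter.1 hy).2
    unfold Geo.blk at this
    exact (Finset.mem_filter.1 this).2
  have h2 : V.Γ.D y B ≤ V.Γ.L n := hΓ.ok.diam n y B (by rw [h1, hB])
  have h3 := hΓ.ok.tri x y B
  rw [hΓ.ok.comm x y] at h3
  have h4 : (V.Γ.D x B : ℝ) ≤ V.Γ.D y x + V.Γ.D y B := by exact_mod_cast h3
  have h5 : (V.Γ.D y B : ℝ) ≤ V.Γ.L n := by exact_mod_cast h2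
  have h6 : 2 * (V.Γ.L n : ℝ) < V.Γ.D x B := by exact_mod_cast hx
  linarith only [hL, h4, h5, h6]

/-- FAR for a block update: `T'` agrees with `T` off `b = run ∩ blk n B`, on `b` its clocks are at least
the next ones. `k₀ = c₀ cl (k + 1)`, `β = k₀ / (8 d)`; `φ` is at least `D(x, B) / 8` far from `B`. -/
theorem upd_hf {V : Env d M} (hΓ : GeoF V.Γ) (hth : V.th ≤ 1)
    (hcl : ∀ k, V.cl (k + 1) = V.th * V.cl k) (hclp : ∀ k, 0 < V.cl k) (hcl1 : V.cl 0 ≤ 1)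
    (he : 0 < V.e₀) (hc : 0 < V.c₀) (hc1 : V.c₀ ≤ 1) {n k : ℕ} {P run : Finset (Tor d M)}
    {T T' : Cfg (Tor d M)} {B : Tor d M} (hg : ∀ x ∈ Al T, V.c₀ ≤ gg T x)
    (hF : Fc V.Γ V.kk V.cl V.Dn n k P T run)
    (hsum : ∑ i ∈ Finset.range (n + 1), (3 ^ d * V.Dn i : ℝ) / V.Γ.L i ≤ 1 / 4)
    (hL : 4 * (cI d V.Dn (Finset.range (n + 1)) + 1) ≤ V.Γ.L n) (hB : V.Γ.bl n B = B)
    (hne : (run ∩ V.Γ.blk n B).Nonempty) (hmb : T'.mb = T.mb)
    (hoff : ∀ x, x ∉ run ∩ V.Γ.blk n B → T'.V x = T.V x ∧ T'.s x = T.s x)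
    (hon : ∀ x ∈ run ∩ V.Γ.blk n B, V.cl (k + 1) ≤ T'.s x) :
    (∀ x, 0 < T'.s x ↔ 0 < T.s x) ∧ ∃ φ : Tor d M → ℝ,
      Upd (Hr (Vef T) V.E) (Hr (Vef T') V.E) (kap V.e₀ T) (kap V.e₀ T') φ (run ∩ V.Γ.blk n B)
        (Al T) (Al T \ (run ∩ V.Γ.blk n B)) (2 * d) (V.c₀ * V.cl (k + 1))
        (V.c₀ * V.cl (k + 1) / (8 * d)) ∧
      ∀ x, 2 * V.Γ.L n < V.Γ.D x B → (V.Γ.D x B : ℝ) / 8 ≤ φ x := by
  obtain ⟨h1, φ, h2, h3, -⟩ :=
    upd_hfx hΓ hth hcl hclp hcl1 he hc hc1 hg hF hsum hL hB hne hmb hoff hon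
  exact ⟨h1, φ, h2, h3⟩

end Pool.Agent.ANR.H89
end
end -- Pool.Agent.Helper89_FAR.Hf

section -- Pool.Agent.Helper89_FAR.Loc

/-!
# FAR, part 8: `loc` and `hold` of the block lemma
-/

set_option autoImplicit false

open scoped BigOperators Matrix NNReal

noncomputable section

namespace Pool.Agent.ANR.H89

open Pool.Agent.ANR
open Pool.Agent.BED (Tor adj ev)
open Pool.Agent.ANP (Cfg Geo Fc)
open Pool.Agent.AND2B (Hr Vef kap net res)
open Pool.Agent.AHH (Env Al gg)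
open Pool.Agent.LE.QF (KK)

section gen

variable {X : Type} [Fintype X] [DecidableEq X]
variable {H H' : Matrix X X ℝ} {κ κ' φ : X → ℝ} {F A S : Finset X} {h₀ k₀ β : ℝ}

/-- `loc` of the block lemma, first part -/
theorem Upd.loc (h : Upd H H' κ κ' φ F A S h₀ k₀ β) {x : X} (hx : x ∈ A) (hxF : x ∉ F)
    (hFA : F ⊆ A) :
    ∑ c ∈ F, KK (Gr H' κ') x c ^ 2 ≤ 4 / k₀ ^ 4 * Real.exp (-(2 * β * φ x)) ∧
    ‖Gr H' κ' x x - Gr H κ x x‖ ≤ 4 / k₀ * Real.exp (-(2 * β * φ x)) := by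
  have hk := h.hk₀
  constructor
  · obtain ⟨_, _, h3⟩ := h.mass hxF
    have e1 : ∑ c ∈ F, KK (Gr H' κ') x c ≤ 2 / k₀ ^ 2 * Real.exp (-(2 * β * φ x)) := by
      have e2 : k₀ * ∑ c ∈ F, KK (Gr H' κ') x c ≤ ∑ b ∈ F, κ' b * ‖Gr H' κ' b x‖ ^ 2 := by
        rw [Finset.mul_sum]
        refine Finset.sum_le_sum fun c hc => ?_
        unfold KK
        rw [(hGeq X H' κ' h.n').2.1 x c]
        exact mul_le_mul_of_nonneg_right (h.hA c (hFA hc)).2 (sq_nonneg _)
      have e3 : 2 / κ x * Real.exp (-(2 * β * φ x)) ≤ 2 / k₀ * Real.exp (-(2 * β * φ x)) := by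
        refine mul_le_mul_of_nonneg_right ?_ (Real.exp_pos _).le
        exact div_le_div_of_nonneg_left (by norm_num) hk (h.hA x hx).1
      have e4 := e2.trans (h3.trans e3)
      have e5 : ∑ c ∈ F, KK (Gr H' κ') x c = 1 / k₀ * (k₀ * ∑ c ∈ F, KK (Gr H' κ') x c) := by
        field_simp
      rw [e5]
      refine (mul_le_mul_of_nonneg_left e4 (by positivity)).trans (le_of_eq ?_)
      field_simp
    have e6 : ∑ c ∈ F, KK (Gr H' κ') x c ^ 2 ≤ (∑ c ∈ F, KK (Gr H' κ') x c) ^ 2 :=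
      Finset.sum_sq_le_sq_sum_of_nonneg fun c _ => by unfold KK; exact sq_nonneg _
    refine e6.trans ((pow_le_pow_left₀ (Finset.sum_nonneg fun c _ => by
      unfold KK; exact sq_nonneg _) e1 2).trans ?_)
    have e7 : (2 / k₀ ^ 2 * Real.exp (-(2 * β * φ x))) ^ 2 =
        4 / k₀ ^ 4 * (Real.exp (-(2 * β * φ x)) * Real.exp (-(2 * β * φ x))) := by
      field_simp; norm_num
    rw [e7]
    refine mul_le_mul_of_nonneg_left ?_ (by positivity)
    have e8 : Real.exp (-(2 * β * φ x)) ≤ 1 := by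
      rw [Real.exp_le_one_iff]
      have := mul_nonneg h.hβ (h.plt.nn x)
      linarith only [this]
    nlinarith only [Real.exp_pos (-(2 * β * φ x)), e8]
  · have e1 := h.ent hx hx (fun hh => hxF hh.1)
    have e2 : -(β * (φ x + φ x)) = -(2 * β * φ x) := by ring
    rwa [e2] at e1

end gen

variable {d M : ℕ} [NeZero M]

/-- the flux to a set `Old` of sites, if the absorption is at least `σ` in its neighbourhood of radius
`R` (dead sites of the levels `I` excepted) and `c` is outside of this neighbourhood -/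
theorem old_flux {Γ : Geo (Tor d M)} (hΓ : GeoF Γ) {E e₀ σ : ℝ} {T : Cfg (Tor d M)} (he : 0 < e₀)
    (hm : ∀ x, 0 ≤ (T.s x : ℝ) * (T.mb x).im) {I : Finset ℕ} {Dn : ℕ → ℕ}
    {dd : ℕ → Finset (Tor d M)} (hcard : ∀ j ∈ I, ∀ B, (dd j ∩ Γ.blk j B).card ≤ Dn j)
    (hsum : ∑ i ∈ I, (3 ^ d * Dn i : ℝ) / Γ.L i ≤ 1 / 4) (hσ : 0 < σ) (hσ1 : σ ≤ 1)
    {Old : Finset (Tor d M)} {R N₀ : ℕ}
    (hold : ∀ x ∈ Old, ∀ y, Γ.D x y ≤ R → (∃ j ∈ I, y ∈ dd j) ∨ σ ≤ kap e₀ T y)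
    (hN₀ : (N₀ : ℝ) ≤ 1 / 2 * (R - 1) - cI d Dn I) {c : Tor d M}
    (hc : ∀ x ∈ Old, R ≤ Γ.D x c) :
    ∑ x ∈ Old, kap e₀ T x * KK (net E e₀ T) x c ≤
      2 / kap e₀ T c * Real.exp (-(σ / (4 * d) * N₀)) := by
  have hN := net_tor E e₀ T he hm
  have hκc := hN.pos c
  rcases Finset.eq_empty_or_nonempty Old with hO | hO
  · rw [hO, Finset.sum_empty]; positivity
  -- the plateau distance from Old
  choose f h1 h2 h3 h4 h5 using fun x => ACN.plateau (fun x y : Tor d M => Nb x y)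
    (fun x y h => h.symm) (fun x y => (Γ.D x y : ℝ)) (↑(I.biUnion dd) : Set (Tor d M)) (1 / 2)
    (1 + 2 * ∑ i ∈ I, (3 ^ d * Dn i : ℝ))
    (fun x y w hw => ANP.H61.pth Γ d hΓ.ok hΓ.one (fun x y => Nb x y) hΓ.nb I dd Dn
      (fun i hi B => hcard i hi B) hsum x y w hw) x N₀
  set m : Tor d M → ℕ := fun y => Old.inf' hO fun x => f x y with hm'
  have hmN : ∀ y, m y ≤ N₀ := fun y => by
    obtain ⟨x, hx⟩ := hO
    exact (Finset.inf'_le _ hx).trans (h3 x y)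
  have hmlip : ∀ y z, Nb y z → m z ≤ m y + 1 := fun y z hyz => by
    obtain ⟨x, hx, hxy⟩ := Finset.exists_mem_eq_inf' hO fun x => f x y
    have e1 : m z ≤ f x z := Finset.inf'_le _ hx
    have e2 : m y = f x y := hxy
    have e3 := h4 x y z hyz
    omega
  have hmdead : ∀ y z, Nb y z → (y ∈ (↑(I.biUnion dd) : Set (Tor d M)) ∨
      z ∈ (↑(I.biUnion dd) : Set (Tor d M))) → m z = m y := fun y z hyz hd => by
    simp only [hm']
    exact Finset.inf'_congr hO rfl fun x _ => h5 x y z hyz hd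
  have hm0 : ∀ x ∈ Old, m x = 0 := fun x hx => by
    have e1 : m x ≤ f x x := Finset.inf'_le _ hx
    rw [h1 x] at e1; omega
  -- far from Old
  have hfar : ∀ y, (∀ x ∈ Old, R ≤ Γ.D x y + 1) → m y = N₀ := fun y hy => by
    refine le_antisymm (hmN y) ?_
    refine Finset.le_inf' hO _ fun x hx => ?_
    have e1 := h2 x y
    have e2 : (R : ℝ) ≤ Γ.D x y + 1 := by exact_mod_cast hy x hx
    have e3 : (N₀ : ℝ) ≤ 1 / 2 * (Γ.D x y : ℝ) - (1 + 2 * ∑ i ∈ I, (3 ^ d * Dn i : ℝ)) := by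
      unfold cI at hN₀; linarith only [hN₀, e2]
    rw [min_eq_left e3] at e1
    exact_mod_cast e1
  set φ : Tor d M → ℝ := fun y => ((N₀ - m y : ℕ) : ℝ) with hφ
  set S : Finset (Tor d M) := Finset.univ.filter fun y => σ ≤ kap e₀ T y with hS
  have hlip : ∀ x y, Nb x y → φ x ≠ φ y → x ∈ S ∧ y ∈ S ∧ |φ x - φ y| ≤ 1 :=
    fun y z hyz hne => by
      have hne' : m y ≠ m z := fun h => hne (by simp only [hφ]; rw [h])
      have hyd : ¬ (y ∈ (↑(I.biUnion dd) : Set (Tor d M)) ∨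
          z ∈ (↑(I.biUnion dd) : Set (Tor d M))) := fun hd => hne' (hmdead y z hyz hd).symm
      push Not at hyd
      have hnd : ∀ y, y ∉ (↑(I.biUnion dd) : Set (Tor d M)) → ¬ ∃ j ∈ I, y ∈ dd j :=
        fun y hy hh => hy (by
          obtain ⟨j, hj, hyj⟩ := hh
          rw [Finset.mem_coe, Finset.mem_biUnion]; exact ⟨j, hj, hyj⟩)
      have hex : ∃ x ∈ Old, Γ.D x y ≤ R ∧ Γ.D x z ≤ R := by
        by_contra hcon
        push Not at hcon
        have hD : Γ.D y z ≤ 1 := hΓ.nb y z hyz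
        have e1 : ∀ x ∈ Old, R ≤ Γ.D x y + 1 ∧ R ≤ Γ.D x z + 1 := fun x hx => by
          have t1 := hΓ.ok.tri x y z
          have t2 := hΓ.ok.tri x z y
          rw [hΓ.ok.comm z y] at t2
          by_cases hxy : Γ.D x y ≤ R
          · have := hcon x hx hxy; omega
          · omega
        exact hne' (by rw [hfar y fun x hx => (e1 x hx).1, hfar z fun x hx => (e1 x hx).2])
      obtain ⟨x, hx, hxy, hxz⟩ := hex
      refine ⟨?_, ?_, ?_⟩
      · rw [hS, Finset.mem_filter]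
        refine ⟨Finset.mem_univ _, ?_⟩
        rcases hold x hx y hxy with hh | hh
        · exact absurd hh (hnd y hyd.1)
        · exact hh
      · rw [hS, Finset.mem_filter]
        refine ⟨Finset.mem_univ _, ?_⟩
        rcases hold x hx z hxz with hh | hh
        · exact absurd hh (hnd z hyd.2)
        · exact hh
      · have e1 := hmlip y z hyz
        have e2 := hmlip z y hyz.symm
        have e3 := hmN y
        have e4 := hmN z
        simp only [hφ]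
        rw [abs_le]
        have e5 : ((N₀ - m y : ℕ) : ℝ) ≤ ((N₀ - m z : ℕ) : ℝ) + 1 := by
          exact_mod_cast (by omega : N₀ - m y ≤ N₀ - m z + 1)
        have e6 : ((N₀ - m z : ℕ) : ℝ) ≤ ((N₀ - m y : ℕ) : ℝ) + 1 := by
          exact_mod_cast (by omega : N₀ - m z ≤ N₀ - m y + 1)
        constructor <;> linarith
  have hP : Plt (Hr (Vef T) E) φ S (2 * d) := plt_tor _ _ (fun x => Nat.cast_nonneg _) hlip
  have hcφ : φ c = 0 := by
    have := hfar c fun x hx => (hc x hx).trans (Nat.le_succ _)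
    simp only [hφ]; rw [this]; simp
  have hβc : Real.sinh (σ / (8 * d)) * (2 * d) ≤ σ / 2 := by
    rcases Nat.eq_zero_or_pos d with hd | hd
    · subst hd; simp; linarith only [hσ]
    · have hd' : (1 : ℝ) ≤ d := by exact_mod_cast hd
      have e1 : σ / (8 * d) ≤ 1 := by
        rw [div_le_one (by positivity)]; linarith only [hσ1, hd']
      have h0 : 0 ≤ σ / (8 * d) := by positivity
      have e2 : Real.sinh (σ / (8 * d)) ≤ 2 * (σ / (8 * d)) := by
        rw [Real.sinh_eq]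
        have e1 := abs_le.1 (Real.abs_exp_sub_one_sub_id_le
          (by rw [abs_of_nonneg h0]; exact e1))
        have e2 := Real.add_one_le_exp (-(σ / (8 * d)))
        nlinarith [e1.2]
      calc Real.sinh (σ / (8 * d)) * (2 * d) ≤ 2 * (σ / (8 * d)) * (2 * d) :=
            mul_le_mul_of_nonneg_right e2 (by positivity)
        _ = σ / 2 := by field_simp; norm_num
  have hw := wwd hN hP (by positivity : 0 ≤ σ / (8 * d)) hβc
    (fun x hx => by rw [hS, Finset.mem_filter] at hx; exact hx.2) hcφ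
  have hG := hGeq (Tor d M) (Hr (Vef T) E) (kap e₀ T) hN
  have hnet : net E e₀ T = Gr (Hr (Vef T) E) (kap e₀ T) := rfl
  have e1 : Real.exp (σ / (4 * d) * N₀) * ∑ x ∈ Old, kap e₀ T x * KK (net E e₀ T) x c ≤
      ∑ b, kap e₀ T b * (Real.exp (2 * (σ / (8 * d)) * φ b) *
        ‖Gr (Hr (Vef T) E) (kap e₀ T) c b‖ ^ 2) := by
    rw [Finset.mul_sum]
    refine le_trans (Finset.sum_le_sum fun x hx => ?_) (Finset.sum_le_univ_sum_of_nonneg
      (s := Old) fun b => mul_nonneg (hN.pos b).le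
        (mul_nonneg (Real.exp_pos _).le (sq_nonneg _)))
    have e2 : φ x = N₀ := by simp only [hφ]; rw [hm0 x hx]; simp
    have e3 : 2 * (σ / (8 * d)) * φ x = σ / (4 * d) * N₀ := by
      rw [e2]
      rcases Nat.eq_zero_or_pos d with hd | hd
      · subst hd; simp
      · have hd' : (0 : ℝ) < d := by exact_mod_cast hd
        field_simp; ring
    rw [e3]
    unfold KK
    rw [hnet, hG.2.1 x c]
    exact le_of_eq (by ring)
  have e4 : (Gr (Hr (Vef T) E) (kap e₀ T) c c).im ≤ 1 / kap e₀ T c := im_le hN hκc le_rfl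
  have e5 := e1.trans (hw.trans (mul_le_mul_of_nonneg_left e4 (by norm_num)))
  have hE := Real.exp_pos (σ / (4 * d) * N₀)
  rw [Real.exp_neg]
  have e6 : ∑ x ∈ Old, kap e₀ T x * KK (net E e₀ T) x c = (Real.exp (σ / (4 * d) * N₀))⁻¹ *
      (Real.exp (σ / (4 * d) * N₀) * ∑ x ∈ Old, kap e₀ T x * KK (net E e₀ T) x c) := by
    field_simp
  rw [e6]
  refine (mul_le_mul_of_nonneg_left e5 (inv_pos.2 hE).le).trans (le_of_eq ?_)
  ring

/-- the invariant on the old sites (helper93, helper14): super-stage `m + 1` -/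
def OldOk (V : Env d M) (m : ℕ) (T : Cfg (Tor d M)) : Prop :=
  ∃ dd : ℕ → Finset (Tor d M), (∀ j B, (dd j ∩ V.Γ.blk j B).card ≤ V.Dn j) ∧
    ∀ x, V.cl (V.kk m) < T.s x → ∀ y, V.Γ.D x y ≤ 3 * V.Γ.ρ m →
      (T.s y = 0 ∧ ∃ j ≤ m, y ∈ dd j) ∨ V.cl (V.kk (m + 1)) ≤ T.s y

/-- `hold` of the block lemma, super-stage `n = m + 1`; `T'` is any configuration on the way from `T` to
`T.hf th b ζ` -/
theorem hold_hf {V : Env d M} (hΓ : GeoF V.Γ) (hth : V.th ≤ 1)
    (hcl : ∀ k, V.cl (k + 1) = V.th * V.cl k) (hclp : ∀ k, 0 < V.cl k) (hcl1 : V.cl 0 ≤ 1)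
    (he : 0 < V.e₀) (hc : 0 < V.c₀) (hc1 : V.c₀ ≤ 1) {m k : ℕ} {P run : Finset (Tor d M)}
    {T T' : Cfg (Tor d M)} {B : Tor d M} (hg : ∀ x ∈ Al T, V.c₀ ≤ gg T x)
    (hF : Fc V.Γ V.kk V.cl V.Dn (m + 1) k P T run) (hk : V.kk m ≤ k)
    (hO : OldOk V m T)
    (hsum : ∑ i ∈ Finset.range (m + 1), (3 ^ d * V.Dn i : ℝ) / V.Γ.L i ≤ 1 / 4)
    (hρ : cI d V.Dn (Finset.range (m + 1)) + 1 / 2 ≤ V.Γ.ρ m / 2) (hmb : T'.mb = T.mb)
    (hoff : ∀ x, x ∉ run ∩ V.Γ.blk (m + 1) B → T'.V x = T.V x ∧ T'.s x = T.s x)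
    (hon : ∀ x ∈ run ∩ V.Γ.blk (m + 1) B, V.cl (k + 1) ≤ T'.s x) {c : Tor d M}
    (hcb : c ∈ run ∩ V.Γ.blk (m + 1) B) :
    ∑ x ∈ (Al T).filter (fun x => V.cl (V.kk m) < T.s x), kap V.e₀ T' x *
        KK (net V.E V.e₀ T') x c ≤
      2 / (V.c₀ * V.cl (k + 1)) *
        Real.exp (-(V.c₀ * V.cl (V.kk (m + 1)) / (4 * d) * V.Γ.ρ m)) := by
  set b := run ∩ V.Γ.blk (m + 1) B with hb
  have hanti := cl_anti hth hcl
  have hold_run : ∀ x, V.cl (V.kk m) < T.s x → x ∉ run := fun x hx hr => by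
    have h1 : T.s x ≤ V.cl k := by
      rw [hF.runs x hr]
      split
      · exact hanti (Nat.le_succ k)
      · exact le_rfl
    exact absurd (hx.trans_le (h1.trans (hanti hk))) (lt_irrefl _)
  have hshell : ∀ x, V.cl (V.kk m) < T.s x → ∀ y ∈ run, 3 * V.Γ.ρ m < V.Γ.D x y :=
    fun x hx y hy => hF.shell m rfl x (hold_run x hx) hx y hy
  have hgg : ∀ x, 0 < T.s x → V.c₀ ≤ (T.mb x).im := fun x hx => hg x (by
    unfold Al; rw [Finset.mem_filter]; exact ⟨Finset.mem_univ _, hx⟩)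
  have hbpos : ∀ x ∈ b, 0 < T.s x := fun x hx => by
    have hxr := (Finset.mem_inter.1 hx).1
    rw [hF.runs x hxr]
    split
    · exact hclp _
    · exact hclp _
  have hpos' : ∀ x, 0 < T'.s x → 0 < T.s x := fun x hx => by
    by_cases hxb : x ∈ b
    · exact hbpos x hxb
    · rwa [(hoff x hxb).2] at hx
  have hm' : ∀ x, 0 ≤ (T'.s x : ℝ) * (T'.mb x).im := fun x => by
    by_cases hx : 0 < T'.s x
    · rw [hmb]; exact mul_nonneg (T'.s x).2 (hc.le.trans (hgg x (hpos' x hx)))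
    · have : T'.s x = 0 := by simpa using hx
      rw [this]; simp
  obtain ⟨dd, hdd, hO⟩ := hO
  have hkap : ∀ (x : Tor d M) (t : ℝ≥0), 0 < T.s x → t ≤ T'.s x →
      V.c₀ * t ≤ kap V.e₀ T' x := fun x t hx ht => by
    unfold kap
    rw [hmb]
    have h1 : (t : ℝ) ≤ T'.s x := by exact_mod_cast ht
    have h2 : V.c₀ * t ≤ (T'.s x : ℝ) * (T.mb x).im := by
      rw [mul_comm]
      exact mul_le_mul h1 (hgg x hx) hc.le (T'.s x).2
    linarith only [he, h2]
  have hσ : 0 < V.c₀ * (V.cl (V.kk (m + 1)) : ℝ) := mul_pos hc (by exact_mod_cast hclp _)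
  have hσ1 : V.c₀ * (V.cl (V.kk (m + 1)) : ℝ) ≤ 1 := by
    have h1 : (V.cl (V.kk (m + 1)) : ℝ) ≤ 1 := by
      have := (hanti (Nat.zero_le (V.kk (m + 1)))).trans hcl1
      exact_mod_cast this
    have h2 : (0 : ℝ) ≤ V.cl (V.kk (m + 1)) := (V.cl (V.kk (m + 1))).2
    nlinarith only [hc1, h1]
  have hmain := old_flux hΓ (E := V.E) (e₀ := V.e₀) (σ := V.c₀ * V.cl (V.kk (m + 1))) (T := T')
    he hm' (I := Finset.range (m + 1)) (Dn := V.Dn) (dd := dd) (fun j _ B => hdd j B) hsum hσ hσ1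
    (Old := (Al T).filter fun x => V.cl (V.kk m) < T.s x) (R := 3 * V.Γ.ρ m) (N₀ := V.Γ.ρ m)
    (fun x hx y hxy => by
      have hx' := (Finset.mem_filter.1 hx).2
      rcases hO x hx' y hxy with ⟨_, j, hj, hyj⟩ | h2
      · exact Or.inl ⟨j, Finset.mem_range.2 (by omega), hyj⟩
      · right
        have hyrun : y ∉ run := fun hy => absurd (hshell x hx' y hy) (by omega)
        have hyb : y ∉ b := fun hy => hyrun (Finset.mem_inter.1 hy).1
        refine hkap y _ (lt_of_lt_of_le (hclp _) h2) ?_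
        rw [(hoff y hyb).2]; exact h2)
    (by push_cast; linarith only [hρ]) (c := c)
    (fun x hx => (hshell x (Finset.mem_filter.1 hx).2 c (Finset.mem_inter.1 hcb).1).le)
  refine hmain.trans (mul_le_mul_of_nonneg_right ?_ (Real.exp_pos _).le)
  exact div_le_div_of_nonneg_left (by norm_num) (mul_pos hc (by exact_mod_cast hclp _))
    (hkap c _ (hbpos c hcb) (hon c hcb))

/-- `loc` of the block lemma, first part -/
theorem loc_hf {V : Env d M} (hΓ : GeoF V.Γ) (hth : V.th ≤ 1)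
    (hcl : ∀ k, V.cl (k + 1) = V.th * V.cl k) (hclp : ∀ k, 0 < V.cl k) (hcl1 : V.cl 0 ≤ 1)
    (he : 0 < V.e₀) (hc : 0 < V.c₀) (hc1 : V.c₀ ≤ 1) {n k : ℕ} {P run : Finset (Tor d M)}
    {T T' : Cfg (Tor d M)} {B : Tor d M} (hg : ∀ x ∈ Al T, V.c₀ ≤ gg T x)
    (hF : Fc V.Γ V.kk V.cl V.Dn n k P T run)
    (hsum : ∑ i ∈ Finset.range (n + 1), (3 ^ d * V.Dn i : ℝ) / V.Γ.L i ≤ 1 / 4)
    (hL : 4 * (cI d V.Dn (Finset.range (n + 1)) + 1) ≤ V.Γ.L n) (hB : V.Γ.bl n B = B)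
    (hne : (run ∩ V.Γ.blk n B).Nonempty) (hmb : T'.mb = T.mb)
    (hoff : ∀ x, x ∉ run ∩ V.Γ.blk n B → T'.V x = T.V x ∧ T'.s x = T.s x)
    (hon : ∀ x ∈ run ∩ V.Γ.blk n B, V.cl (k + 1) ≤ T'.s x) {x : Tor d M} (hx : x ∈ Al T)
    (hxB : 2 * V.Γ.L n < V.Γ.D x B) :
    ∑ c ∈ run ∩ V.Γ.blk n B, KK (net V.E V.e₀ T') x c ^ 2 ≤ 4 / (V.c₀ * V.cl (k + 1)) ^ 4 *
        Real.exp (-(V.c₀ * V.cl (k + 1) / (32 * d) * V.Γ.D x B)) ∧
    ‖net V.E V.e₀ T' x x - net V.E V.e₀ T x x‖ ≤ 4 / (V.c₀ * V.cl (k + 1)) *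
        Real.exp (-(V.c₀ * V.cl (k + 1) / (32 * d) * V.Γ.D x B)) := by
  obtain ⟨hiff, φ, hU, hφ⟩ := upd_hf hΓ hth hcl hclp hcl1 he hc hc1 hg hF hsum hL hB hne hmb
    hoff hon
  have hk0 : 0 < V.c₀ * (V.cl (k + 1) : ℝ) := mul_pos hc (by exact_mod_cast hclp _)
  have hxF : x ∉ run ∩ V.Γ.blk n B := fun h => by
    have h1 : V.Γ.bl n x = B := by
      have := (Finset.mem_inter.1 h).2
      unfold Geo.blk at this
      exact (Finset.mem_filter.1 this).2
    have h2 : V.Γ.D x B ≤ V.Γ.L n := hΓ.ok.diam n x B (by rw [h1, hB])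
    omega
  have hFA : run ∩ V.Γ.blk n B ⊆ Al T := fun y hy => by
    unfold Al
    rw [Finset.mem_filter]
    refine ⟨Finset.mem_univ _, ?_⟩
    rw [hF.runs y (Finset.mem_inter.1 hy).1]
    split
    · exact hclp _
    · exact hclp _
  obtain ⟨e1, e2⟩ := hU.loc hx hxF hFA
  have e3 : Real.exp (-(2 * (V.c₀ * V.cl (k + 1) / (8 * d)) * φ x)) ≤
      Real.exp (-(V.c₀ * V.cl (k + 1) / (32 * d) * V.Γ.D x B)) := by
    apply Real.exp_le_exp.2
    have h1 := mul_le_mul_of_nonneg_left (hφ x hxB)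
      (by positivity : 0 ≤ 2 * (V.c₀ * (V.cl (k + 1) : ℝ) / (8 * d)))
    have h2 : 2 * (V.c₀ * (V.cl (k + 1) : ℝ) / (8 * d)) * (V.Γ.D x B / 8) =
        V.c₀ * V.cl (k + 1) / (32 * d) * V.Γ.D x B := by
      rcases Nat.eq_zero_or_pos d with hd | hd
      · subst hd; simp
      · have hd' : (0 : ℝ) < d := by exact_mod_cast hd
        field_simp; ring
    linarith only [h1, h2]
  exact ⟨e1.trans (mul_le_mul_of_nonneg_left e3 (by positivity)),
    e2.trans (mul_le_mul_of_nonneg_left e3 (by positivity))⟩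

end Pool.Agent.ANR.H89
end
end -- Pool.Agent.Helper89_FAR.Loc
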