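import Pool.Agent.Helper12_MEB.B145
import Pool.Agent.Helper12_MEB.B157

/-!
# Merged copies (generated) of the modules

* `Pool.Agent.AND2B.Top`
* `Pool.Agent.Helper16_AND.Viol`
* `Pool.Agent.Helper61_AHH.Psi`
* `Pool.Agent.Helper89_FAR.Geo`
* `Pool.Agent.Helper89_FAR.GeoT`
-/

set_option autoImplicit false

section -- Pool.Agent.AND2B.Top

/-!
# AND2B (MP_1906c1_mp): the top-level assembly

`Scal`: the scales. `SclStmt`: they exist. `AnaStmt`: the analysis. `top`: these and the protocol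
(`PrtStmt`) give `ANE.Tr3Stmt`.
-/

set_option autoImplicit false

open MeasureTheory ProbabilityTheory

open scoped BigOperators NNReal ENNReal Matrix

noncomputable section

namespace Pool.Agent.AND2B

open Pool.Agent.BED (Tor gau)
open Pool.Agent.ANE (SolT)
open Pool.Agent.ANP

/-- the clocks; `th` is the ratio of the clocks of two consecutive stages -/
def cl (w th : ℝ≥0) (k : ℕ) : ℝ≥0 := w * th ^ k

/-- the clock at the start of super-stage `n` -/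
def sg (w th : ℝ≥0) (kk : ℕ → ℕ) (n : ℕ) : ℝ := (cl w th (kk n) : ℝ)

/-- the failure probability of every test in super-stage `n ≤ N` -/
def pf (w th : ℝ≥0) (kk : ℕ → ℕ) (β : ℝ) (N n : ℕ) : ℝ :=
  if n ≤ N then Real.exp (-(sg w th kk n) ^ (-β)) else 0

/-- the torus with its blocks -/
abbrev Gt (d μ J N : ℕ) (l r : ℕ → ℕ) : Geo (Tor d (2 ^ μ)) :=
  ANP.H61.geoT d μ l (fun n => 2 ^ r n) J N

/-- THE SCALES. `α` the ratio of the scales (`sg (n + 1) ≈ sg n ^ α`), `c₁` the exponent of the size of a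
cluster, `C₁` the exponent of the size of a block; super-stages `0, …, N`, the torus has the side
`2 ^ μ`; `Kn` bounds the number of kills for one cluster, `Dn` the number of sites of a block of level `n`
which die in super-stage `n`; `β` the exponent of the failure probabilities, `t` the target -/
structure Scal (d : ℕ) (th : ℝ≥0) (c₁ C₁ : ℝ) (α J : ℕ) (β : ℝ) (w : ℝ≥0) (t : ℝ) (N μ : ℕ)
    (kk l r Kn Dn : ℕ → ℕ) : Prop where
  k0 : kk 0 = 0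
  km : ∀ n, kk n < kk (n + 1)
  low : ∀ n ≤ N, sg w th kk n ^ (α + 1) ≤ sg w th kk (n + 1)
  up : ∀ n ≤ N, sg w th kk (n + 1) ≤ sg w th kk n ^ (α - 1)
  fin : sg w th kk (N + 1) ≤ t
  lm : Monotone l
  rlow : ∀ n ≤ N, sg w th kk (n + 1) ^ (-(3 : ℝ)) ≤ 2 ^ r n
  rup : ∀ n ≤ N, (2 ^ r n : ℝ) ≤ sg w th kk (n + 1) ^ (-(4 : ℝ))
  llow : ∀ n ≤ N, sg w th kk (n + 1) ^ (-(5 : ℝ)) ≤ 2 ^ l n
  lup : ∀ n ≤ N, (2 ^ l n : ℝ) ≤ sg w th kk (n + 1) ^ (-C₁)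
  /-- the blocks fit into the torus -/
  lN : l N + 6 ≤ μ
  /-- there are no frozen sites at the end -/
  rN : μ ≤ r (N + 1)
  mN : sg w th kk (N + 1) ^ (-(5 : ℝ)) ≤ 2 ^ μ
  mU : (2 ^ μ : ℝ) ≤ sg w th kk (N + 1) ^ (-(C₁ * (α + 1)))
  /-- the size of a cluster -/
  clu : ∀ n, 1 ≤ n → n ≤ N →
    (3 ^ d * J * (6 * 2 ^ l (n - 1) + 1) ^ d : ℝ) ≤ sg w th kk (n + 1) ^ (-c₁)
  scl : Scl (Gt d μ J N l r) d
  kn : ∀ n ≤ N, Kn n = ⌊sg w th kk (n + 1) ^ (-(6 / 5 : ℝ))⌋₊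
  d0 : Dn 0 = 0
  dl : ∀ n ≤ N, (Dn n : ℝ) ≤ sg w th kk (n + 1) ^ (-(5 / 4 : ℝ))
  dn : ∀ n, 1 ≤ n →
    3 ^ d * J * (Kn n + 3 ^ d * J * (6 * 2 ^ l (n - 1) + 1) ^ d) ≤ Dn n
  ds : ∑ i ∈ Finset.range (N + 2), (3 ^ d * Dn i : ℝ) / 2 ^ l i ≤ 1 / 4
  dM : 16 * (1 + 2 * ∑ i ∈ Finset.range (N + 2), (3 ^ d * Dn i : ℝ)) ≤ 2 ^ μ
  pi : ∀ n ≤ N, pf w th kk β N n * ((kk (n + 1) : ℝ) - kk n + ((2 ^ l n : ℕ) : ℝ) ^ d) ≤ 1
  phi : ANP.H72.Phi (Gt d μ J N l r).ch J (N + 2) ((Gt d μ J N l r).near 0)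
    (fun i => pf w th kk β N i.1 *
      ((kk (i.1 + 1) : ℝ) - kk i.1 + ((2 ^ l i.1 : ℕ) : ℝ) ^ d)) ≤ 1 / 4

/-- SCL: THE SCALES EXIST. -/
def SclStmt : Prop :=
  ∀ (d : ℕ) (th : ℝ≥0) (c₁ : ℝ), 3 ≤ d → 1 / 2 ≤ th → th < 1 → 0 < c₁ →
    ∃ (C₁ : ℝ) (α J : ℕ), 2 ≤ α ∧ ∀ β : ℝ, 0 < β →
    ∃ w₁ : ℝ, 0 < w₁ ∧ w₁ ≤ 1 ∧ ∀ (w : ℝ≥0) (t : ℝ) (M₀ : ℕ), 0 < w → (w : ℝ) ≤ w₁ → 0 < t →
      ∃ (N μ : ℕ) (kk l r Kn Dn : ℕ → ℕ), M₀ ≤ 2 ^ μ ∧
        Scal d th c₁ C₁ α J β w t N μ kk l r Kn Dn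

/-- ANA: THE ANALYSIS. The order of the constants: `th`, `c₁` (size of the clusters), then `C₁, α, J`
(scales), then `β` and `w₀`, then the torus. -/
def AnaStmt : Prop :=
  ∀ (d : ℕ) (a : ℝ), 3 ≤ d → 0 < a → ∃ (th : ℝ≥0) (c₁ : ℝ), 1 / 2 ≤ th ∧ th < 1 ∧ 0 < c₁ ∧
    ∀ (C₁ : ℝ) (α J : ℕ), 2 ≤ α → ∃ β w₀ : ℝ, 0 < β ∧ 0 < w₀ ∧
      ∀ (w : ℝ≥0) (E : ℝ), 0 < w → (w : ℝ) ≤ w₀ → |E| < 2 * d - a →
      ∃ ε : ℝ, 0 < ε ∧ ∀ (A : ℝ) (R : ℕ), ∃ t : ℝ, 0 < t ∧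
        ∀ (N μ : ℕ) (kk l r Kn Dn : ℕ → ℕ), Scal d th c₁ C₁ α J β w t N μ kk l r Kn Dn →
          ∀ L : ℝ, 1 ≤ L → Nonempty (Ana (Gt d μ J N l r) d 0 (FF d (2 ^ μ) E A ε R L) th kk
            (cl w th) Kn Dn (pf w th kk β N))

theorem cl_succ (w th : ℝ≥0) (k : ℕ) : cl w th (k + 1) = th * cl w th k := by
  unfold cl
  rw [pow_succ]
  ring

/-- THE ASSEMBLY -/
theorem top (hP : ANP.PrtStmt) (hS : SclStmt) (hA : AnaStmt) (hW : WlpStmt) (hM : MswStmt)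
    (hM' : ANE.Ms3Stmt) : ANE.Tr3Stmt := by
  intro d a hd ha
  obtain ⟨th, c₁, hth, hth', hc₁, hA⟩ := hA d a hd ha
  obtain ⟨C₁, α, J, hα, hS⟩ := hS d th c₁ hd hth hth' hc₁
  obtain ⟨β, w₀, hβ, hw₀, hA⟩ := hA C₁ α J hα
  obtain ⟨w₁, hw₁, hw₁', hS⟩ := hS β hβ
  have hth0 : 0 < th := lt_of_lt_of_le (by norm_num) hth
  refine ⟨Real.sqrt (min w₀ w₁), Real.sqrt_pos.2 (lt_min hw₀ hw₁), fun σ hσ hσ' => ?_⟩
  refine (ae_restrict_iff' measurableSet_Ioo).2 (Filter.Eventually.of_forall fun E hE => ?_)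
  have hE' : |E| < 2 * d - a := abs_lt.2 hE
  have h2 : σ ^ 2 ≤ min w₀ w₁ := by
    rw [← sq_abs]
    calc |σ| ^ 2 ≤ Real.sqrt (min w₀ w₁) ^ 2 := by gcongr
      _ = min w₀ w₁ := Real.sq_sqrt (lt_min hw₀ hw₁).le
  set w : ℝ≥0 := ⟨σ ^ 2, sq_nonneg σ⟩ with hw
  have hwc : (w : ℝ) = σ ^ 2 := rfl
  have hw0 : 0 < w := by
    rw [← NNReal.coe_pos, hwc]; positivity
  obtain ⟨ε, hε, hA⟩ := hA w E hw0 (by rw [hwc]; exact h2.trans (min_le_left _ _)) hE'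
  refine ⟨ε, hε, fun A R => ?_⟩
  obtain ⟨t, ht, hA⟩ := hA A R
  obtain ⟨N, μ, kk, l, r, Kn, Dn, hμ, hS⟩ := hS w t 8 hw0
    (by rw [hwc]; exact h2.trans (min_le_right _ _)) ht
  refine ⟨2 ^ μ, inferInstance, hμ, fun v hv => ?_⟩
  have hvw : v = w := NNReal.coe_injective (by rw [hv, hwc])
  subst hvw
  obtain ⟨L, hL, hWL⟩ := hW d (2 ^ μ) E (1 / 4) w hw0.ne' (by norm_num)
  have hG : GeoOk (Gt d μ J N l r) d := ANP.H61.trg d μ l _ hS.lm J N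
  have hFF : MeasurableSet (FF d (2 ^ μ) E A ε R L) :=
    (hM d (2 ^ μ) E L).inter (hM' d (2 ^ μ) E A ε R)
  have h3 := hP (Tor d (2 ^ μ)) (Gt d μ J N l r) d 0 (FF d (2 ^ μ) E A ε R L) th kk (cl w th) Kn Dn
    (pf w th kk β N)
    (fun n => pf w th kk β N n * ((kk (n + 1) : ℝ) - kk n + ((2 ^ l n : ℕ) : ℝ) ^ d))
    hFF hG hS.scl hth0 hth' hS.dn hS.k0 hS.km (cl_succ w th)
    (by unfold cl; rw [pow_zero, mul_one]; exact hw0)
    (fun n => by unfold pf; split_ifs <;> positivity)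
    (fun n => le_rfl)
    (fun n => by
      rcases Nat.lt_or_ge N n with h | h
      · unfold pf
        rw [if_neg (by omega), zero_mul]
        exact zero_le_one
      · exact hS.pi n h)
    (hA N μ kk l r Kn Dn hS L hL) hS.phi
  have h4 : gau d (2 ^ μ) w (FF d (2 ^ μ) E A ε R L) ≤ ENNReal.ofReal (1 / 2) := by
    have h5 : (gm (fun _ : Tor d (2 ^ μ) => (0 : ℝ)) (fun _ => cl w th 0)).real
        (FF d (2 ^ μ) E A ε R L) ≤ 1 / 2 := h3
    have h6 : gm (fun _ : Tor d (2 ^ μ) => (0 : ℝ)) (fun _ => cl w th 0) = gau d (2 ^ μ) w := by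
      unfold gm gau cl
      rw [pow_zero, mul_one]
    rw [h6] at h5
    have : IsProbabilityMeasure (gau d (2 ^ μ) w) := by unfold gau; infer_instance
    rw [← ENNReal.ofReal_toReal (measure_ne_top (gau d (2 ^ μ) w) _)]
    exact ENNReal.ofReal_le_ofReal h5
  calc gau d (2 ^ μ) w {U | SolT d (2 ^ μ) E A ε R U}
      ≤ gau d (2 ^ μ) w (FF d (2 ^ μ) E A ε R L ∪ {U | ¬ WL E L U}) := by
        refine measure_mono fun U hU => ?_
        by_cases h : WL E L U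
        · exact Or.inl ⟨h, hU⟩
        · exact Or.inr h
    _ ≤ gau d (2 ^ μ) w (FF d (2 ^ μ) E A ε R L) + gau d (2 ^ μ) w {U | ¬ WL E L U} :=
        measure_union_le _ _
    _ ≤ ENNReal.ofReal (1 / 2) + ENNReal.ofReal (1 / 4) := add_le_add h4 hWL
    _ = ENNReal.ofReal (3 / 4) := by
        rw [← ENNReal.ofReal_add (by norm_num) (by norm_num)]; norm_num

end Pool.Agent.AND2B
end
end -- Pool.Agent.AND2B.Top

section -- Pool.Agent.Helper16_AND.Viol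

/-!
# AND2B: `AnaStmt` from the analysis off `Viol`
-/

set_option autoImplicit false

open MeasureTheory ProbabilityTheory

open scoped BigOperators NNReal ENNReal Matrix

noncomputable section

namespace Pool.Agent.AND2B.H16

open Pool.Agent.BED (Tor gau)
open Pool.Agent.ANE (SolT)
open Pool.Agent.ANP
open Pool.Agent.ANP.H16 (Ana0 ana_of_ana0 ViOk viok_of)

theorem wld_congr {d M : ℕ} [NeZero M] (E L : ℝ) (V V' : Tor d M → ℝ) (D : Finset (Tor d M))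
    (h : ∀ x ∈ D, V' x = V x) (hW : WLD E L V' D) : WLD E L V D := by
  intro u hu
  have h1 := hW u hu
  have h2 : ∑ x ∈ D, ‖∑ y, (Hr V' E x y : ℂ) * u y‖ ^ 2 =
      ∑ x ∈ D, ‖∑ y, (Hr V E x y : ℂ) * u y‖ ^ 2 := by
    refine Finset.sum_congr rfl fun x hx => ?_
    have h3 : ∀ y, Hr V' E x y = Hr V E x y := by
      intro y
      unfold Hr
      rw [Matrix.add_apply, Matrix.add_apply, Matrix.diagonal_apply, Matrix.diagonal_apply, h x hx]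
    simp only [h3]
  rw [h2] at h1
  exact h1

/-- the predicate `Viol` is admissible -/
theorem viok {d M : ℕ} [NeZero M] (E A ε : ℝ) (R : ℕ) (L : ℝ) :
    ViOk (FF d M E A ε R L) (Viol (d := d) (M := M) E L) := by
  refine viok_of (FF d M E A ε R L) (fun V D => ¬ WLD E L V D) ?_ ?_
  · intro V V' D h h1 h2
    exact h1 (wld_congr E L V V' D h h2)
  · rintro U ⟨hU, -⟩ D h
    exact h (hU D)

/-- ANA0: THE ANALYSIS OFF `Viol`: `AnaStmt` with `Ana0` instead of `Ana` -/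
def Ana0Stmt : Prop :=
  ∀ (d : ℕ) (a : ℝ), 3 ≤ d → 0 < a → ∃ (th : ℝ≥0) (c₁ : ℝ), 1 / 2 ≤ th ∧ th < 1 ∧ 0 < c₁ ∧
    ∀ (C₁ : ℝ) (α J : ℕ), 2 ≤ α → ∃ β w₀ : ℝ, 0 < β ∧ 0 < w₀ ∧
      ∀ (w : ℝ≥0) (E : ℝ), 0 < w → (w : ℝ) ≤ w₀ → |E| < 2 * d - a →
      ∃ ε : ℝ, 0 < ε ∧ ∀ (A : ℝ) (R : ℕ), ∃ t : ℝ, 0 < t ∧
        ∀ (N μ : ℕ) (kk l r Kn Dn : ℕ → ℕ), Scal d th c₁ C₁ α J β w t N μ kk l r Kn Dn →
          ∀ L : ℝ, 1 ≤ L → Nonempty (Ana0 (Gt d μ J N l r) d 0 (FF d (2 ^ μ) E A ε R L) th kk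
            (cl w th) Kn Dn (pf w th kk β N) (Viol (d := d) (M := 2 ^ μ) E L))

theorem cl_pos {w th : ℝ≥0} (hw : 0 < w) (hth : 0 < th) (k : ℕ) : 0 < cl w th k := by
  unfold cl
  positivity

/-- `AnaStmt` from the analysis off `Viol` -/
theorem ana_stmt (h : Ana0Stmt) : AnaStmt := by
  intro d a hd ha
  obtain ⟨th, c₁, h1, h2, h3, h⟩ := h d a hd ha
  refine ⟨th, c₁, h1, h2, h3, fun C₁ α J hα => ?_⟩
  obtain ⟨β, w₀, hβ, hw₀, h⟩ := h C₁ α J hα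
  refine ⟨β, w₀, hβ, hw₀, fun w E hw hw' hE => ?_⟩
  obtain ⟨ε, hε, h⟩ := h w E hw hw' hE
  refine ⟨ε, hε, fun A R => ?_⟩
  obtain ⟨t, ht, h⟩ := h A R
  refine ⟨t, ht, fun N μ kk l r Kn Dn hS L hL => ?_⟩
  obtain ⟨Z⟩ := h N μ kk l r Kn Dn hS L hL
  have hth : 0 < th := lt_of_lt_of_le (by norm_num) h1
  exact ⟨ana_of_ana0 (viok E A ε R L) (cl_pos hw hth) Z⟩

end Pool.Agent.AND2B.H16
end
end -- Pool.Agent.Helper16_AND.Viol

section -- Pool.Agent.Helper61_AHH.Psi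

/-!
# AND2B (MP_1906c1_mp): the potentials `om`, `Psi`, `Phi`
-/

set_option autoImplicit false

open Finset

open scoped BigOperators

noncomputable section

namespace Pool.Agent.AHH.H61

open Pool.Agent.BED (Tor)
open Pool.Agent.ANP (Geo GeoOk)
open Pool.Agent.AFJ (ind)
open Pool.Agent.AND2B (Gt)

section gen

variable {X : Type} [Fintype X] [DecidableEq X] (Γ : Geo X)

theorem om_pos (n : ℕ) (B x : X) : 0 < om Γ n B x := Real.exp_pos _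

theorem om_le (n : ℕ) (B x : X) : om Γ n B x ≤ Real.exp 2 := by
  unfold om
  rw [Real.exp_le_exp]
  have : (0 : ℝ) ≤ (Γ.D x B : ℝ) / Γ.L n := by positivity
  linarith only [this]

/-- `om` is at least one near the block -/
theorem one_le_om (n : ℕ) (B x : X) (h : Γ.D x B ≤ 2 * Γ.L n) : 1 ≤ om Γ n B x := by
  unfold om
  rw [Real.one_le_exp_iff]
  rcases Nat.eq_zero_or_pos (Γ.L n) with h0 | h0
  · rw [h0]
    simp
  · have h1 : (0 : ℝ) < Γ.L n := by exact_mod_cast h0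
    have h2 : (Γ.D x B : ℝ) ≤ 2 * Γ.L n := by exact_mod_cast h
    rw [sub_nonneg, div_le_iff₀ h1]
    exact h2

/-- `om` far from the block -/
theorem om_far (n : ℕ) (B x : X) (κ : ℝ) (h : κ ≤ om Γ n B x) (hκ : 0 < κ) (hL : 0 < Γ.L n) :
    (Γ.D x B : ℝ) ≤ (2 - Real.log κ) * Γ.L n := by
  unfold om at h
  have h1 := (Real.log_le_iff_le_exp hκ).2 h
  have h2 : (0 : ℝ) < Γ.L n := by exact_mod_cast hL
  rw [← div_le_iff₀ h2]
  linarith only [h1]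

/-- `om` varies slowly -/
theorem om_lip (hD : ∀ x y z, Γ.D x z ≤ Γ.D x y + Γ.D y z) (hc : ∀ x y, Γ.D x y = Γ.D y x)
    (n : ℕ) (B x y : X) :
    om Γ n B x ≤ Real.exp ((Γ.D x y : ℝ) / Γ.L n) * om Γ n B y := by
  unfold om
  rw [← Real.exp_add, Real.exp_le_exp]
  have h1 : (Γ.D y B : ℝ) ≤ Γ.D x y + Γ.D x B := by
    have h2 := hD y x B
    rw [hc y x] at h2
    exact_mod_cast h2
  have h3 : (Γ.D y B : ℝ) / Γ.L n ≤ (Γ.D x y : ℝ) / Γ.L n + (Γ.D x B : ℝ) / Γ.L n := by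
    rw [← add_div]
    exact div_le_div_of_nonneg_right h1 (by positivity)
  linarith only [h3]

theorem Psi_nonneg (n : ℕ) (P : Finset X) (x : X) : 0 ≤ Psi Γ n P x :=
  sum_nonneg fun B _ => (om_pos Γ n B x).le

theorem Psi_mono (n : ℕ) {P P' : Finset X} (h : P ⊆ P') (x : X) : Psi Γ n P x ≤ Psi Γ n P' x := by
  unfold Psi
  exact sum_le_sum_of_subset_of_nonneg (filter_subset_filter _ h)
    fun B _ _ => (om_pos Γ n B x).le

@[simp] theorem Psi_empty (n : ℕ) (x : X) : Psi Γ n ∅ x = 0 := by simp [Psi]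

/-- the only representative in the block `B` is `B` -/
theorem reps_blk (n : ℕ) (B : X) (hB : Γ.bl n B = B) :
    (Γ.blk n B).filter (fun B' => Γ.bl n B' = B') = {B} := by
  ext y
  unfold Geo.blk
  rw [mem_filter, mem_filter, mem_singleton]
  constructor
  · rintro ⟨⟨_, h1⟩, h2⟩
    rw [← h2, h1]
  · rintro rfl
    exact ⟨⟨mem_univ _, hB⟩, hB⟩

/-- one more block -/
theorem Psi_union (n : ℕ) (P : Finset X) (B : X) (hB : Γ.bl n B = B)
    (h : Disjoint P (Γ.blk n B)) (x : X) :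
    Psi Γ n (P ∪ Γ.blk n B) x = Psi Γ n P x + om Γ n B x := by
  unfold Psi
  rw [filter_union, sum_union (disjoint_filter_filter h), reps_blk Γ n B hB, sum_singleton]

/-- one more block, without disjointness -/
theorem Psi_union_le (n : ℕ) (P : Finset X) (B : X) (hB : Γ.bl n B = B) (x : X) :
    Psi Γ n (P ∪ Γ.blk n B) x ≤ Psi Γ n P x + om Γ n B x := by
  unfold Psi
  rw [filter_union, reps_blk Γ n B hB]
  have h1 := sum_union_inter (s₁ := P.filter fun B' => Γ.bl n B' = B') (s₂ := ({B} : Finset X))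
    (f := fun B' => om Γ n B' x)
  have h2 : 0 ≤ ∑ B' ∈ (P.filter fun B' => Γ.bl n B' = B') ∩ ({B} : Finset X), om Γ n B' x :=
    sum_nonneg fun B' _ => (om_pos Γ n B' x).le
  rw [sum_singleton] at h1
  linarith

theorem Phi_nonneg (τ : ℝ) (hτ : 0 ≤ τ) (n : ℕ) (P : Finset X) (x : X) : 0 ≤ Phi Γ τ n P x := by
  unfold Phi
  have h1 : 0 ≤ ind P x := by
    unfold ind
    split_ifs <;> norm_num
  have h2 : 0 ≤ ∑ y ∈ P, Real.exp (-((Γ.D x y : ℝ) / Γ.ρ n)) :=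
    sum_nonneg fun _ _ => (Real.exp_pos _).le
  have := mul_nonneg hτ h2
  linarith only [h1, this]

theorem Phi_mono (τ : ℝ) (hτ : 0 ≤ τ) (n : ℕ) {P P' : Finset X} (h : P ⊆ P') (x : X) :
    Phi Γ τ n P x ≤ Phi Γ τ n P' x := by
  unfold Phi
  have h1 : ind P x ≤ ind P' x := by
    unfold ind
    split_ifs with h1 h2 h3
    · exact le_rfl
    · exact absurd (h h1) h2
    · norm_num
    · exact le_rfl
  have h2 : ∑ y ∈ P, Real.exp (-((Γ.D x y : ℝ) / Γ.ρ n)) ≤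
      ∑ y ∈ P', Real.exp (-((Γ.D x y : ℝ) / Γ.ρ n)) :=
    sum_le_sum_of_subset_of_nonneg h fun _ _ _ => (Real.exp_pos _).le
  have := mul_le_mul_of_nonneg_left h2 hτ
  linarith only [h1, this]

@[simp] theorem Phi_empty (τ : ℝ) (n : ℕ) (x : X) : Phi Γ τ n ∅ x = 0 := by simp [Phi, ind]

/-- one more cluster -/
theorem Phi_union (τ : ℝ) (n : ℕ) (P P' : Finset X) (h : Disjoint P P') (x : X) :
    Phi Γ τ n (P ∪ P') x = Phi Γ τ n P x + Phi Γ τ n P' x := by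
  unfold Phi
  rw [sum_union h]
  have h1 : ind (P ∪ P') x = ind P x + ind P' x := by
    unfold ind
    by_cases h2 : x ∈ P
    · have h3 : x ∉ P' := fun h3 => (disjoint_left.1 h) h2 h3
      simp [h2, h3]
    · by_cases h3 : x ∈ P' <;> simp [h2, h3]
  rw [h1]
  ring

/-- the increment on the cluster -/
theorem one_le_Phi (τ : ℝ) (hτ : 0 ≤ τ) (n : ℕ) (P : Finset X) (x : X) (h : x ∈ P) :
    1 ≤ Phi Γ τ n P x := by
  unfold Phi
  have h1 : ind P x = 1 := by simp [ind, h]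
  have h2 : 0 ≤ ∑ y ∈ P, Real.exp (-((Γ.D x y : ℝ) / Γ.ρ n)) :=
    sum_nonneg fun _ _ => (Real.exp_pos _).le
  have := mul_nonneg hτ h2
  rw [h1]
  linarith only [this]

/-- the increment far from the cluster -/
theorem exp_le_Phi (τ : ℝ) (hτ : 0 ≤ τ) (n : ℕ) (P : Finset X) (x y : X) (h : y ∈ P) :
    τ * Real.exp (-((Γ.D x y : ℝ) / Γ.ρ n)) ≤ Phi Γ τ n P x := by
  unfold Phi
  have h1 : 0 ≤ ind P x := by
    unfold ind
    split_ifs <;> norm_num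
  have h2 : Real.exp (-((Γ.D x y : ℝ) / Γ.ρ n)) ≤
      ∑ y ∈ P, Real.exp (-((Γ.D x y : ℝ) / Γ.ρ n)) :=
    single_le_sum (f := fun y => Real.exp (-((Γ.D x y : ℝ) / Γ.ρ n)))
      (fun _ _ => (Real.exp_pos _).le) h
  have := mul_le_mul_of_nonneg_left h2 hτ
  linarith only [h1, this]

end gen

/-! ### On the torus -/

/-- the bound of the potentials -/
def cpd (d : ℕ) : ℝ :=
  Real.exp 2 * (Real.exp (1 / ((d : ℝ) + 1)) * (2 / (1 - Real.exp (-(1 / ((d : ℝ) + 1)))))) ^ d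

theorem one_le_cpd (d : ℕ) : 1 ≤ cpd d := by
  unfold cpd
  have hd : (0 : ℝ) < (d : ℝ) + 1 := by positivity
  have h1 : (1 : ℝ) ≤ Real.exp 2 := Real.one_le_exp (by norm_num)
  have h2 : (1 : ℝ) ≤ Real.exp (1 / ((d : ℝ) + 1)) := Real.one_le_exp (by positivity)
  have h3 : Real.exp (-(1 / ((d : ℝ) + 1))) < 1 := by
    rw [Real.exp_lt_one_iff]
    have : 0 < 1 / ((d : ℝ) + 1) := by positivity
    linarith only [this]
  have h4 := Real.exp_pos (-(1 / ((d : ℝ) + 1)))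
  have h5 : (1 : ℝ) ≤ 2 / (1 - Real.exp (-(1 / ((d : ℝ) + 1)))) := by
    rw [le_div_iff₀ (by linarith only [h3])]
    linarith only [h3, h4]
  have h6 : (1 : ℝ) ≤ Real.exp (1 / ((d : ℝ) + 1)) *
      (2 / (1 - Real.exp (-(1 / ((d : ℝ) + 1))))) := by nlinarith only [h2, h5]
  have h7 := one_le_pow₀ (n := d) h6
  nlinarith only [h1, h7]

/-- the potential of the blocks is bounded -/
theorem Psi_le (d μ : ℕ) (l ρ : ℕ → ℕ) (J N n : ℕ) (P : Finset (Tor d (2 ^ μ)))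
    (x : Tor d (2 ^ μ)) : Psi (ANP.H61.geoT d μ l ρ J N) n P x ≤ cpd d := by
  classical
  have h1 := ANP.H61.psi_le d μ l ρ J N 1 one_pos n x
  refine (Psi_mono _ n (subset_univ P) x).trans ?_
  unfold Psi cpd
  have h2 : ∀ B ∈ (univ.filter fun B => (ANP.H61.geoT d μ l ρ J N).bl n B = B :
      Finset (Tor d (2 ^ μ))), om (ANP.H61.geoT d μ l ρ J N) n B x = Real.exp 2 *
      Real.exp (-(1 * (((ANP.H61.geoT d μ l ρ J N).D x B : ℝ) /
        ((ANP.H61.geoT d μ l ρ J N).L n : ℝ)))) := by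
    intro B _
    unfold om
    rw [← Real.exp_add]
    congr 1
    ring
  rw [sum_congr rfl h2, ← mul_sum]
  exact mul_le_mul_of_nonneg_left h1 (Real.exp_pos _).le

theorem Psi_le_Gt (d μ J N : ℕ) (l r : ℕ → ℕ) (n : ℕ) (P : Finset (Tor d (2 ^ μ)))
    (x : Tor d (2 ^ μ)) : Psi (Gt d μ J N l r) n P x ≤ cpd d := Psi_le d μ l _ J N n P x

/-- the sum over all the sites of `exp (-D/ρ)` -/
theorem site_sum (d μ : ℕ) (l ρ : ℕ → ℕ) (J N n : ℕ) (hρ : 1 ≤ ρ n) (x : Tor d (2 ^ μ)) :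
    ∑ y, Real.exp (-(((ANP.H61.geoT d μ l ρ J N).D x y : ℝ) / (ANP.H61.geoT d μ l ρ J N).ρ n)) ≤
      (12 * ((d : ℝ) + 1) * ρ n) ^ d := by
  classical
  have hd : (0 : ℝ) < (d : ℝ) + 1 := by positivity
  have hρ' : (1 : ℝ) ≤ ρ n := by exact_mod_cast hρ
  have hρ0 : (0 : ℝ) < ρ n := by linarith only [hρ']
  have h1 := ANP.H61.psi_le d μ (fun _ => 0) ρ J N (1 / (ρ n : ℝ)) (by positivity) n x
  have h2 : (univ.filter fun B => (ANP.H61.geoT d μ (fun _ => 0) ρ J N).bl n B = B :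
      Finset (Tor d (2 ^ μ))) = univ := by
    refine filter_true_of_mem fun B _ => ?_
    funext i
    show ANP.H61.rnd 0 (B i) = B i
    unfold ANP.H61.rnd
    rw [pow_zero, Nat.div_one, mul_one, ZMod.natCast_zmod_val]
  have h3 : ∑ y, Real.exp (-(((ANP.H61.geoT d μ l ρ J N).D x y : ℝ) /
      (ANP.H61.geoT d μ l ρ J N).ρ n)) = ∑ B ∈ (univ.filter fun B =>
        (ANP.H61.geoT d μ (fun _ => 0) ρ J N).bl n B = B : Finset (Tor d (2 ^ μ))),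
      Real.exp (-(1 / (ρ n : ℝ) * (((ANP.H61.geoT d μ (fun _ => 0) ρ J N).D x B : ℝ) /
        ((ANP.H61.geoT d μ (fun _ => 0) ρ J N).L n : ℝ)))) := by
    rw [h2]
    refine sum_congr rfl fun y _ => ?_
    congr 2
    show ((ANP.H61.sd x y : ℕ) : ℝ) / ((ρ n : ℕ) : ℝ) =
      1 / (ρ n : ℝ) * (((ANP.H61.sd x y : ℕ) : ℝ) / ((2 ^ 0 : ℕ) : ℝ))
    rw [pow_zero, Nat.cast_one, div_one]
    ring
  rw [h3]
  refine h1.trans ?_
  set y : ℝ := 1 / (ρ n : ℝ) / ((d : ℝ) + 1) with hy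
  have hy0 : 0 < y := by positivity
  have hy1 : y ≤ 1 := by
    rw [hy, div_div, div_le_one (by positivity)]
    have : (0 : ℝ) ≤ d := Nat.cast_nonneg d
    nlinarith only [hρ']
  have h4 : Real.exp y ≤ 3 := by
    calc Real.exp y ≤ Real.exp 1 := Real.exp_le_exp.2 hy1
      _ ≤ 3 := by
        have := Real.exp_one_lt_d9
        linarith only [this]
  have h5 : y / 2 ≤ 1 - Real.exp (-y) := by
    have h6 : Real.exp (-y) ≤ 1 - y / 2 := by
      have h7 : Real.exp (-y) * Real.exp y = 1 := by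
        rw [← Real.exp_add]
        simp
      have h8 := Real.add_one_le_exp y
      have h9 := Real.exp_pos (-y)
      have h10 : (1 - y / 2) * (1 + y) ≥ 1 := by nlinarith only [hy0, hy1]
      have h11 : Real.exp (-y) * (1 + y) ≤ 1 := by nlinarith only [h7, h8, h9]
      by_contra h12
      push Not at h12
      nlinarith only [hy0, h10, h11, h12]
    linarith only [h6]
  have h6 : 2 / (1 - Real.exp (-y)) ≤ 4 / y := by
    rw [div_le_div_iff₀ (by linarith only [hy0, h5]) hy0]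
    linarith only [h5]
  have h7 : (4 : ℝ) / y = 4 * (((d : ℝ) + 1) * ρ n) := by
    rw [hy]
    field_simp
  have h8 : 0 ≤ 2 / (1 - Real.exp (-y)) := div_nonneg (by norm_num) (by linarith only [hy0, h5])
  calc (Real.exp y * (2 / (1 - Real.exp (-y)))) ^ d ≤ (3 * (4 * (((d : ℝ) + 1) * ρ n))) ^ d := by
        rw [h7] at h6
        have := Real.exp_pos y
        gcongr
    _ = _ := by ring

/-- the potential of the clusters is bounded -/
theorem Phi_le (d μ : ℕ) (l ρ : ℕ → ℕ) (J N n : ℕ) (hρ : 1 ≤ ρ n) (τ : ℝ) (hτ : 0 ≤ τ)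
    (h : τ * (12 * ((d : ℝ) + 1) * ρ n) ^ d ≤ 1) (P : Finset (Tor d (2 ^ μ)))
    (x : Tor d (2 ^ μ)) : Phi (ANP.H61.geoT d μ l ρ J N) τ n P x ≤ 2 := by
  classical
  refine (Phi_mono _ τ hτ n (subset_univ P) x).trans ?_
  unfold Phi
  have h1 : ind (univ : Finset (Tor d (2 ^ μ))) x = 1 := by simp [ind]
  have h2 := mul_le_mul_of_nonneg_left (site_sum d μ l ρ J N n hρ x) hτ
  rw [h1]
  linarith only [h, h2]

theorem Phi_le_Gt (d μ J N : ℕ) (l r : ℕ → ℕ) (n : ℕ) (τ : ℝ) (hτ : 0 ≤ τ)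
    (h : τ * (12 * ((d : ℝ) + 1) * 2 ^ r n) ^ d ≤ 1) (P : Finset (Tor d (2 ^ μ)))
    (x : Tor d (2 ^ μ)) : Phi (Gt d μ J N l r) τ n P x ≤ 2 := by
  refine Phi_le d μ l (fun n => 2 ^ r n) J N n Nat.one_le_two_pow τ hτ ?_ P x
  push_cast
  exact h

end Pool.Agent.AHH.H61
end
end -- Pool.Agent.Helper61_AHH.Psi

section -- Pool.Agent.Helper89_FAR.Geo

/-!
# FAR, part 6: the geometry of the protocol
-/

set_option autoImplicit false

open scoped BigOperators Matrix NNReal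

noncomputable section

namespace Pool.Agent.ANR.H89

open Pool.Agent.ANR
open Pool.Agent.BED (Tor adj ev)
open Pool.Agent.ANP (Cfg)
open Pool.Agent.AND2B

theorem sinh_le_two_mul {x : ℝ} (h0 : 0 ≤ x) (h1 : x ≤ 1) : Real.sinh x ≤ 2 * x := by
  rw [Real.sinh_eq]
  have e1 := abs_le.1 (Real.abs_exp_sub_one_sub_id_le (by rw [abs_of_nonneg h0]; exact h1))
  have e2 := Real.add_one_le_exp (-x)
  nlinarith [e1.2]

variable {d μ J N : ℕ} {l r : ℕ → ℕ}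

theorem nb_D {x y : Tor d (2 ^ μ)} (h : Nb x y) : (Gt d μ J N l r).D x y ≤ 1 := by
  show ANP.H61.sd x y ≤ 1
  rw [ANP.H61.sd_le]
  obtain ⟨i, h⟩ := h
  intro j
  have hx : ∃ k : ℤ, x j - y j = (k : ZMod (2 ^ μ)) ∧ k.natAbs ≤ 1 := by
    rcases h with h | h
    · by_cases hj : j = i
      · refine ⟨-1, ?_, by simp⟩
        rw [h, hj]; unfold ev; simp
      · refine ⟨0, ?_, by simp⟩
        rw [h]; unfold ev; simp [Pi.single_eq_of_ne hj]
    · by_cases hj : j = i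
      · refine ⟨1, ?_, by simp⟩
        rw [h, hj]; unfold ev; simp
      · refine ⟨0, ?_, by simp⟩
        rw [h]; unfold ev; simp [Pi.single_eq_of_ne hj]
  obtain ⟨k, hk, hk1⟩ := hx
  exact (ANP.H61.cd_le _ _ k hk).trans hk1

/-- FAR in the geometry of the protocol: `T` and `T'` agree off `F`; the dead sites of `T` are sparse. The
lower bound of `φ` is half the distance from `F`, minus a constant, up to the cutoff `N₀`. -/
theorem upd_geo (hl : Monotone l) {E e₀ k₀ : ℝ} {T T' : Cfg (Tor d (2 ^ μ))}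
    {F : Finset (Tor d (2 ^ μ))} (hFne : F.Nonempty) {n : ℕ} {Dn : ℕ → ℕ} (he : 0 < e₀)
    (hm : ∀ x, 0 ≤ (T.s x : ℝ) * (T.mb x).im) (hm' : ∀ x, 0 ≤ (T'.s x : ℝ) * (T'.mb x).im)
    (hoff : ∀ x, x ∉ F → T'.V x = T.V x ∧ T'.s x = T.s x ∧ T'.mb x = T.mb x)
    (dens : ∃ dd : ℕ → Finset (Tor d (2 ^ μ)), (∀ x, T.s x = 0 → ∃ j ≤ n, x ∈ dd j) ∧
      ∀ j B, (dd j ∩ (Gt d μ J N l r).blk j B).card ≤ Dn j)
    (hsum : ∑ i ∈ Finset.range (n + 1), (3 ^ d * Dn i : ℝ) / 2 ^ l i ≤ 1 / 4)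
    (hk : 0 < k₀) (hk1 : k₀ ≤ 1) (hal : ∀ x, T.s x ≠ 0 → k₀ ≤ kap e₀ T x)
    (hal' : ∀ x, T'.s x ≠ 0 → k₀ ≤ kap e₀ T' x) (N₀ : ℕ) :
    ∃ φ : Tor d (2 ^ μ) → ℝ,
      Upd (Hr (Vef T) E) (Hr (Vef T') E) (kap e₀ T) (kap e₀ T') φ F
        (Finset.univ.filter fun x => T.s x ≠ 0 ∧ T'.s x ≠ 0)
        ((Finset.univ.filter fun x => T.s x ≠ 0) \ F) (2 * d) k₀ (k₀ / (8 * d)) ∧
      (∀ x, φ x ≤ N₀) ∧
      ∀ y, ∃ x ∈ F, min (N₀ : ℝ) (1 / 2 * (Gt d μ J N l r).D x y -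
        (1 + 2 * ∑ i ∈ Finset.range (n + 1), (3 ^ d * Dn i : ℝ))) - 1 ≤ φ y := by
  obtain ⟨dd, hdd, hcard⟩ := dens
  set Γ := Gt d μ J N l r with hΓ
  have hG : ANP.GeoOk Γ d := ANP.H61.trg d μ l _ hl J N
  obtain ⟨φ, h0, hN, hb, hlip, hlow⟩ := plat_set (fun x y : Tor d (2 ^ μ) => Nb x y)
    (fun x y h => h.symm) (fun x y => (Γ.D x y : ℝ))
    (↑((Finset.range (n + 1)).biUnion dd) : Set (Tor d (2 ^ μ))) (1 / 2)
    (1 + 2 * ∑ i ∈ Finset.range (n + 1), (3 ^ d * Dn i : ℝ))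
    (fun x y w hw => ANP.H61.pth Γ d hG (fun i => Nat.one_le_two_pow) (fun x y => Nb x y)
      (fun x y h => nb_D h) (Finset.range (n + 1)) dd Dn (fun i _ B => hcard i B)
      (by
        refine le_trans (le_of_eq ?_) hsum
        refine Finset.sum_congr rfl fun i _ => ?_
        have : ((Γ.L i : ℕ) : ℝ) = 2 ^ l i := by
          show ((2 ^ l i : ℕ) : ℝ) = 2 ^ l i
          push_cast; rfl
        rw [this]) x y w hw) F hFne N₀
  have halive : ∀ x, x ∉ (↑((Finset.range (n + 1)).biUnion dd) : Set (Tor d (2 ^ μ))) →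
      T.s x ≠ 0 := fun x hx h => hx (by
    obtain ⟨j, hj, hxj⟩ := hdd x h
    rw [Finset.mem_coe, Finset.mem_biUnion]
    exact ⟨j, Finset.mem_range.2 (by omega), hxj⟩)
  have hmemS : ∀ x, x ∉ (↑((Finset.range (n + 1)).biUnion dd) : Set (Tor d (2 ^ μ))) → x ∉ F →
      x ∈ ((Finset.univ.filter fun x => T.s x ≠ 0) \ F) := fun x hx hxF => by
    rw [Finset.mem_sdiff, Finset.mem_filter]
    exact ⟨⟨Finset.mem_univ _, halive x hx⟩, hxF⟩
  refine ⟨φ, upd_tor he hm hm' hoff h0 hb (fun x y hxy hne => ?_) ?_ (fun x hx => ?_)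
    (fun x hx => ?_) hk (by positivity) ?_, hN, hlow⟩
  · obtain ⟨a1, a2, a3, a4, a5⟩ := hlip x y hxy hne
    exact ⟨hmemS x a1 a3, hmemS y a2 a4, a5⟩
  · exact Finset.sdiff_disjoint
  · rw [Finset.mem_sdiff, Finset.mem_filter] at hx
    exact hal x hx.1.2
  · rw [Finset.mem_filter] at hx
    exact ⟨hal x hx.2.1, hal' x hx.2.2⟩
  · rcases Nat.eq_zero_or_pos d with hd | hd
    · subst hd; simp; linarith
    · have hd' : (1 : ℝ) ≤ d := by exact_mod_cast hd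
      have e1 : k₀ / (8 * d) ≤ 1 := by
        rw [div_le_one (by positivity)]; linarith
      have e2 := sinh_le_two_mul (by positivity : 0 ≤ k₀ / (8 * d)) e1
      calc Real.sinh (k₀ / (8 * d)) * (2 * d) ≤ 2 * (k₀ / (8 * d)) * (2 * d) :=
            mul_le_mul_of_nonneg_right e2 (by positivity)
        _ = k₀ / 2 := by field_simp; norm_num
        _ ≤ _ := le_rfl

end Pool.Agent.ANR.H89
end
end -- Pool.Agent.Helper89_FAR.Geo

section -- Pool.Agent.Helper89_FAR.GeoT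

/-!
# FAR: the dyadic torus has the geometry
-/

set_option autoImplicit false

noncomputable section

namespace Pool.Agent.ANR.H89

open Pool.Agent.AND2B

theorem geoF_T (d μ J N : ℕ) (l r : ℕ → ℕ) (hl : Monotone l) : GeoF (Gt d μ J N l r) where
  ok := ANP.H61.trg d μ l _ hl J N
  one := fun _ => Nat.one_le_two_pow
  nb := fun _ _ h => nb_D h

end Pool.Agent.ANR.H89
end
end -- Pool.Agent.Helper89_FAR.GeoT
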