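import Pool.Agent.Helper12_MEB.B016
import Pool.Agent.Helper12_MEB.B105
import Pool.Agent.Helper12_MEB.B156
import Pool.Agent.Helper12_MEB.B158

/-!
# Merged copies (generated) of the modules

* `Pool.Agent.Helper28_AHH.Net`
* `Pool.Agent.Helper28_AHH.Hfar`
* `Pool.Agent.Helper34_KL2.Defs`
* `Pool.Agent.Helper76_AHH.KilA`
* `Pool.Agent.Helper76_ATT.OutN`
* `Pool.Agent.Helper76_AHH.KilB`
* `Pool.Agent.Helper34_KL2.Far`
* `Pool.Agent.Helper34_KL2.LY`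
* `Pool.Agent.Helper34_KL2.Frm`
* `Pool.Agent.Helper34_KL2.Ins`
* `Pool.Agent.Helper41_AHH.KN1`
* `Pool.Agent.Helper41_AHH.KN2`
-/

set_option autoImplicit false

section -- Pool.Agent.Helper28_AHH.Net

/-!
# AND2B: the network of a configuration in the languages of `AND2B` and of `ATT`
-/

set_option autoImplicit false
set_option linter.unusedSectionVars false

open MeasureTheory ProbabilityTheory

open scoped BigOperators NNReal ENNReal Matrix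

noncomputable section

namespace Pool.Agent.AND2B.H28

open Pool.Agent.Anderson hiding box mem_box card_box
open Pool.Agent.Loc Pool.Agent.Mob Pool.Agent.Helper54.Bal
  Pool.Agent.Helper96.EXP Pool.Agent.BED
open Pool.Agent.LE.MN Pool.Agent.LE.CL Pool.Agent.LE.IR Pool.Agent.LE.QD
open Pool.Agent.AND2B
open Pool.Agent.ANP (Cfg gm Win)

variable {d M : ℕ} [NeZero M]

/-- the hopping minus the energy -/
def Hm (d M : ℕ) [NeZero M] (E : ℝ) : Matrix (Tor d M) (Tor d M) ℝ := Hr 0 E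

theorem hN_eq (E : ℝ) (T : Cfg (Tor d M)) : ATT.hN (Hm d M E) T = Hr (Vef T) E := by
  funext x y
  unfold ATT.hN Hm Hr Vef
  simp only [Matrix.add_apply, Matrix.diagonal_apply]
  split_ifs with h
  · simp only [Pi.zero_apply]
    ring
  · ring

theorem ka_eq (e₀ : ℝ) (T : Cfg (Tor d M)) : ATT.ka e₀ e₀ T = kap e₀ T := by
  funext x
  unfold ATT.ka kap
  split_ifs with h
  · rw [h]
    simp
  · rfl

theorem GT_eq (E e₀ : ℝ) (T : Cfg (Tor d M)) : ATT.GT (Hm d M E) e₀ e₀ T = net E e₀ T := by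
  unfold ATT.GT net res
  rw [hN_eq, ka_eq]

end Pool.Agent.AND2B.H28
end
end -- Pool.Agent.Helper28_AHH.Net

section -- Pool.Agent.Helper28_AHH.Hfar

/-!
# AND2B: the sites far from the cluster are light (helper28)

`hfar`, `hfar₀`: the fields `far`, `far₀` of `ATT.Pa.Hyp`. The plateau function of one site `b`, for the
configuration in the middle of the attempt: its dead sites are those of the protocol and at most `z`
others.
-/

set_option autoImplicit false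
set_option linter.unusedSectionVars false

open scoped BigOperators Matrix NNReal

noncomputable section

namespace Pool.Agent.AND2B.H28

open Pool.Agent.ANR Pool.Agent.ANR.H89
open Pool.Agent.BED (Tor adj ev)
open Pool.Agent.ANP (Cfg)
open Pool.Agent.AND2B

variable {d μ J N : ℕ} {l r : ℕ → ℕ}

/-- the additive constant of the alive distance -/
def rr (d : ℕ) (Dn : ℕ → ℕ) (n z : ℕ) : ℝ :=
  1 + 2 * (∑ i ∈ Finset.range (n + 1), (3 ^ d * Dn i : ℝ) + 3 ^ d * z)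

/-- plateau functions for a configuration with at most `z` additional dead sites -/
theorem plt_geo (hl : Monotone l) {E : ℝ} {T : Cfg (Tor d (2 ^ μ))} {F : Finset (Tor d (2 ^ μ))}
    (hFne : F.Nonempty) {n m : ℕ} (hnm : n < m) {Dn : ℕ → ℕ} {z : ℕ}
    (dd : ℕ → Finset (Tor d (2 ^ μ))) (Z : Finset (Tor d (2 ^ μ)))
    (hdd : ∀ x, T.s x = 0 → (∃ j ≤ n, x ∈ dd j) ∨ x ∈ Z)
    (hcard : ∀ j B, (dd j ∩ (Gt d μ J N l r).blk j B).card ≤ Dn j) (hZ : Z.card ≤ z)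
    (hsum : ∑ i ∈ Finset.range (n + 1), (3 ^ d * Dn i : ℝ) / 2 ^ l i + 3 ^ d * z / 2 ^ l m ≤ 1 / 4)
    (N₀ : ℕ) :
    ∃ φ : Tor d (2 ^ μ) → ℝ, Plt (Hr (Vef T) E) φ ((Finset.univ.filter fun x => T.s x ≠ 0) \ F)
        (2 * d) ∧ (∀ x, φ x ≤ N₀) ∧ (∀ x ∈ F, φ x = 0) ∧
      ∀ y, ∃ x ∈ F, min (N₀ : ℝ) (1 / 2 * (Gt d μ J N l r).D x y - rr d Dn n z) - 1 ≤ φ y := by
  classical
  set Γ := Gt d μ J N l r with hΓ
  have hG : ANP.GeoOk Γ d := ANP.H61.trg d μ l _ hl J N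
  set I : Finset ℕ := insert m (Finset.range (n + 1)) with hI
  have hm : m ∉ Finset.range (n + 1) := by
    rw [Finset.mem_range]
    omega
  set dd' : ℕ → Finset (Tor d (2 ^ μ)) := fun i => if i = m then Z else dd i with hdd'
  set Dn' : ℕ → ℕ := fun i => if i = m then z else Dn i with hDn'
  have hne : ∀ i ∈ Finset.range (n + 1), i ≠ m := fun i hi h => hm (h ▸ hi)
  have hs1 : ∑ i ∈ I, (3 ^ d * Dn' i : ℝ) =
      ∑ i ∈ Finset.range (n + 1), (3 ^ d * Dn i : ℝ) + 3 ^ d * z := by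
    rw [hI, Finset.sum_insert hm, add_comm]
    congr 1
    · refine Finset.sum_congr rfl fun i hi => ?_
      rw [hDn']
      simp only
      rw [if_neg (hne i hi)]
    · rw [hDn']
      simp
  have hs2 : ∑ i ∈ I, (3 ^ d * Dn' i : ℝ) / Γ.L i ≤ 1 / 4 := by
    refine le_trans (le_of_eq ?_) hsum
    have hL : ∀ i, ((Γ.L i : ℕ) : ℝ) = 2 ^ l i := fun i => by
      show ((2 ^ l i : ℕ) : ℝ) = 2 ^ l i
      push_cast
      rfl
    rw [hI, Finset.sum_insert hm, add_comm]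
    congr 1
    · refine Finset.sum_congr rfl fun i hi => ?_
      rw [hL, hDn']
      simp only
      rw [if_neg (hne i hi)]
    · rw [hL, hDn']
      simp
  obtain ⟨φ, h0, hN, hb, hlip, hlow⟩ := plat_set (fun x y : Tor d (2 ^ μ) => Nb x y)
    (fun x y h => h.symm) (fun x y => (Γ.D x y : ℝ))
    (↑(I.biUnion dd') : Set (Tor d (2 ^ μ))) (1 / 2) (rr d Dn n z)
    (fun x y w hw => by
      have := ANP.H61.pth Γ d hG (fun i => Nat.one_le_two_pow) (fun x y => Nb x y)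
        (fun x y h => nb_D h) I dd' Dn' (fun i _ B => by
          rw [hdd', hDn']
          simp only
          split_ifs
          · exact (Finset.card_le_card Finset.inter_subset_left).trans hZ
          · exact hcard i B) hs2 x y w hw
      rw [hs1] at this
      exact this) F hFne N₀
  have halive : ∀ x, x ∉ (↑(I.biUnion dd') : Set (Tor d (2 ^ μ))) → T.s x ≠ 0 := fun x hx h =>
    hx (by
      rw [Finset.mem_coe, Finset.mem_biUnion]
      rcases hdd x h with ⟨j, hj, hxj⟩ | hxZ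
      · refine ⟨j, ?_, ?_⟩
        · rw [hI, Finset.mem_insert, Finset.mem_range]
          exact Or.inr (by omega)
        · rw [hdd']
          simp only
          rw [if_neg (by omega)]
          exact hxj
      · refine ⟨m, Finset.mem_insert_self _ _, ?_⟩
        rw [hdd']
        simp only [if_true]
        exact hxZ)
  have hmemS : ∀ x, x ∉ (↑(I.biUnion dd') : Set (Tor d (2 ^ μ))) → x ∉ F →
      x ∈ ((Finset.univ.filter fun x => T.s x ≠ 0) \ F) := fun x hx hxF => by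
    rw [Finset.mem_sdiff, Finset.mem_filter]
    exact ⟨⟨Finset.mem_univ _, halive x hx⟩, hxF⟩
  refine ⟨φ, plt_tor _ _ h0 (fun x y hxy hne => ?_), hN, hb, hlow⟩
  obtain ⟨a1, a2, a3, a4, a5⟩ := hlip x y hxy hne
  exact ⟨hmemS x a1 a3, hmemS y a2 a4, a5⟩

theorem beta_ok {d : ℕ} {k₀ : ℝ} (hk : 0 < k₀) (hk1 : k₀ ≤ 1) :
    Real.sinh (k₀ / (8 * d)) * (2 * d) ≤ k₀ / 2 := by
  rcases Nat.eq_zero_or_pos d with hd | hd
  · subst hd
    simp
    linarith only [hk]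
  · have hd' : (1 : ℝ) ≤ d := by exact_mod_cast hd
    have e1 : k₀ / (8 * d) ≤ 1 := by
      rw [div_le_one (by positivity)]
      linarith only [hk1, hd']
    have e2 := sinh_le_two_mul (by positivity : 0 ≤ k₀ / (8 * d)) e1
    calc Real.sinh (k₀ / (8 * d)) * (2 * d) ≤ 2 * (k₀ / (8 * d)) * (2 * d) :=
          mul_le_mul_of_nonneg_right e2 (by positivity)
      _ = k₀ / 2 := by
          field_simp
          norm_num
      _ ≤ _ := le_rfl

/-- THE LEVERAGE OF ONE SITE at a distance larger than `rk` -/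
theorem lev_one (hl : Monotone l) {E e₀ k₀ : ℝ} {T : Cfg (Tor d (2 ^ μ))} {n m : ℕ} (hnm : n < m)
    {Dn : ℕ → ℕ} {z : ℕ} (dd : ℕ → Finset (Tor d (2 ^ μ))) (Z : Finset (Tor d (2 ^ μ)))
    (he : 0 < e₀) (hm : ∀ x, 0 ≤ (T.s x : ℝ) * (T.mb x).im)
    (hdd : ∀ x, T.s x = 0 → (∃ j ≤ n, x ∈ dd j) ∨ x ∈ Z)
    (hcard : ∀ j B, (dd j ∩ (Gt d μ J N l r).blk j B).card ≤ Dn j) (hZ : Z.card ≤ z)
    (hsum : ∑ i ∈ Finset.range (n + 1), (3 ^ d * Dn i : ℝ) / 2 ^ l i + 3 ^ d * z / 2 ^ l m ≤ 1 / 4)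
    (hk : 0 < k₀) (hk1 : k₀ ≤ 1) (hal : ∀ x, T.s x ≠ 0 → k₀ ≤ kap e₀ T x)
    {b x : Tor d (2 ^ μ)} {rk : ℕ} (hbx : rk < (Gt d μ J N l r).D b x) :
    x ≠ b ∧ Lev (Hr (Vef T) E) (kap e₀ T) {b} x (2 / kap e₀ T x *
      Real.exp (-(k₀ / (4 * d) * (rk / 2 - rr d Dn n z - 1)))) := by
  have hne : x ≠ b := by
    rintro rfl
    have hG : ANP.GeoOk (Gt d μ J N l r) d := ANP.H61.trg d μ l _ hl J N
    rw [hG.self] at hbx
    exact absurd hbx (by omega)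
  refine ⟨hne, ?_⟩
  have hrr : 0 ≤ rr d Dn n z := by
    unfold rr
    have : 0 ≤ ∑ i ∈ Finset.range (n + 1), (3 ^ d * Dn i : ℝ) :=
      Finset.sum_nonneg fun i _ => by positivity
    positivity
  obtain ⟨φ, hP, -, hF, hlow⟩ := plt_geo (r := r) (J := J) (N := N) hl (E := E) (T := T)
    (Finset.singleton_nonempty b) hnm dd Z hdd hcard hZ hsum rk
  obtain ⟨y, hy, hφ⟩ := hlow x
  rw [Finset.mem_singleton] at hy
  subst hy
  have h1 : (rk : ℝ) / 2 - rr d Dn n z - 1 ≤ φ x := by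
    refine le_trans ?_ hφ
    have h2 : (rk : ℝ) ≤ (Gt d μ J N l r).D y x := by exact_mod_cast hbx.le
    have h3 : (rk : ℝ) / 2 - rr d Dn n z ≤
        min (rk : ℝ) (1 / 2 * (Gt d μ J N l r).D y x - rr d Dn n z) := by
      refine le_min ?_ ?_
      · have : (0 : ℝ) ≤ rk := Nat.cast_nonneg _
        linarith only [hrr]
      · linarith only [h2]
    linarith only [h3]
  have hβ : 0 ≤ k₀ / (8 * d) := by positivity
  have h4 := lev_decay (net_tor E e₀ T he hm) hP hβ (beta_ok hk hk1)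
    (fun x hx => by
      rw [Finset.mem_sdiff, Finset.mem_filter] at hx
      exact hal x hx.1.2) hF Finset.sdiff_disjoint (x := x)
    (by rw [Finset.mem_singleton]; exact hne)
  intro ψ hψ
  refine (h4 ψ hψ).trans (mul_le_mul_of_nonneg_right ?_ ?_)
  · have hkx : 0 < kap e₀ T x := (net_tor E e₀ T he hm).pos x
    refine mul_le_mul_of_nonneg_left (Real.exp_le_exp.2 ?_) (by positivity)
    have h5 := mul_le_mul_of_nonneg_left h1 hβ
    have h6 : k₀ / (4 * d) = 2 * (k₀ / (8 * d)) := by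
      rcases Nat.eq_zero_or_pos d with hd | hd
      · subst hd
        simp
      · field_simp
        norm_num
    rw [h6]
    nlinarith only [h5]
  · unfold Q
    exact Finset.sum_nonneg fun z _ =>
      mul_nonneg ((net_tor E e₀ T he hm).pos z).le (sq_nonneg _)

/-! ### the attempts -/

/-- the column of the Green function at `b` solves off `b` -/
theorem col_sol {X : Type} [Fintype X] [DecidableEq X] {H : Matrix X X ℝ} {κ : X → ℝ}
    (hN : ANR.Net H κ) (b : X) : Sol H κ {b} fun z => Gr H κ z b := by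
  intro x hx
  rw [Finset.mem_singleton] at hx
  rw [(hGeq X H κ hN).1 x b, if_neg hx]

/-- the share of the current which is absorbed at `x` is at most `κ_x` times the leverage -/
theorem aa_le {X : Type} [Fintype X] [DecidableEq X] {H : Matrix X X ℝ} {κ : X → ℝ}
    (hN : ANR.Net H κ) {b x : X} {L : ℝ} (hL : Lev H κ {b} x L) (hL0 : 0 ≤ L) :
    KIL.aa κ (Gr H κ) b x ≤ κ x * L := by
  have h1 := hL _ (col_sol hN b)
  have h2 : Q κ {b} (fun z => Gr H κ z b) = KIL.gam κ (Gr H κ) b := by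
    unfold Q KIL.gam KIL.nn
    refine Finset.sum_congr ?_ fun _ _ => rfl
    ext z
    simp
  have hκ := hN.pos x
  have h0 : 0 ≤ KIL.gam κ (Gr H κ) b := by
    rw [← h2]
    unfold Q
    exact Finset.sum_nonneg fun z _ => mul_nonneg (hN.pos z).le (sq_nonneg _)
  rw [h2] at h1
  unfold KIL.aa KIL.nn
  rcases eq_or_lt_of_le h0 with h | h
  · rw [← h, div_zero]
    positivity
  · rw [div_le_iff₀ h]
    have := mul_le_mul_of_nonneg_left h1 hκ.le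
    linarith

section pa

variable {E e₀ k₀ : ℝ} {n m z rk : ℕ} {Dn : ℕ → ℕ} (A : ATT.Pa (Tor d (2 ^ μ)))

/-- the geometry of an attempt -/
structure PGeo (E e₀ k₀ : ℝ) (n m z rk : ℕ) (Dn : ℕ → ℕ) (J N : ℕ) (l r : ℕ → ℕ) : Prop where
  hm : A.Hm = Hm d (2 ^ μ) E
  hη : A.η = e₀
  he0 : A.e0 = e₀
  he : 0 < e₀
  lm : Monotone l
  nm : n < m
  dens : ∃ dd : ℕ → Finset (Tor d (2 ^ μ)), (∀ x, A.T₀.s x = 0 → ∃ j ≤ n, x ∈ dd j) ∧
    ∀ j B, (dd j ∩ (Gt d μ J N l r).blk j B).card ≤ Dn j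
  hz : A.N + A.Q.card ≤ z
  sum : ∑ i ∈ Finset.range (n + 1), (3 ^ d * Dn i : ℝ) / 2 ^ l i + 3 ^ d * z / 2 ^ l m ≤ 1 / 4
  pos : ∀ x, 0 ≤ (A.T₀.s x : ℝ) * (A.T₀.mb x).im
  hk : 0 < k₀ ∧ k₀ ≤ 1
  al : ∀ x, A.T₀.s x ≠ 0 → k₀ ≤ kap e₀ A.T₀ x
  /-- the sites of `R` off `Rk` are far from the cluster -/
  rk : ∀ x ∈ A.R, x ∉ A.Rk → ∀ b ∈ A.Q, rk < (Gt d μ J N l r).D b x
  /-- the sites of `R` run -/
  run : ∀ x ∈ A.R, A.T₀.s x ≠ 0

variable {A}

theorem PGeo.s_le (h : PGeo A E e₀ k₀ n m z rk Dn J N l r) {T : Cfg (Tor d (2 ^ μ))}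
    {Qr : Finset (Tor d (2 ^ μ))} {Go : Matrix (Tor d (2 ^ μ)) (Tor d (2 ^ μ)) ℂ}
    (hS : A.St T Qr Go) (hv : ∀ x ∈ A.R, A.T₀.s x = A.v) (x : Tor d (2 ^ μ)) :
    T.s x = 0 ∨ T.s x = A.T₀.s x := by
  by_cases hR : x ∈ A.R
  · rcases hS.run x hR with h1 | h1
    · exact Or.inl h1
    · right
      rw [h1.2, hv x hR]
  · by_cases hQ : x ∈ A.Q
    · by_cases hr : x ∈ Qr
      · exact Or.inr (hS.rem x hr).2
      · exact Or.inl (hS.app x hQ hr).2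
    · exact Or.inr (hS.off x hR hQ).2

/-- THE FIELD `far` OF `Hyp` -/
theorem hfar (h : PGeo A E e₀ k₀ n m z rk Dn J N l r) (hv : ∀ x ∈ A.R, A.T₀.s x = A.v)
    (hQ0 : ∀ x ∈ A.Q, A.T₀.s x ≠ 0)
    (T : Cfg (Tor d (2 ^ μ))) (Qr : Finset (Tor d (2 ^ μ)))
    (Go : Matrix (Tor d (2 ^ μ)) (Tor d (2 ^ μ)) ℂ) (hS : A.St T Qr Go) (b : Tor d (2 ^ μ))
    (hb : b ∈ Qr) (x : Tor d (2 ^ μ)) (hx : x ∈ A.al T) (hxk : x ∉ A.Rk) :
    A.a T b x ≤ 2 * Real.exp (-(k₀ / (4 * d) * (rk / 2 - rr d Dn n z - 1))) := by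
  classical
  obtain ⟨dd, hdd, hcard⟩ := h.dens
  have hxR : x ∈ A.R := (Finset.mem_filter.1 hx).1
  have hs := h.s_le hS hv
  have hpos : ∀ y, 0 ≤ (T.s y : ℝ) * (T.mb y).im := fun y => by
    rw [hS.mb]
    rcases hs y with h1 | h1
    · rw [h1]
      simp
    · rw [h1]
      exact h.pos y
  have hal : ∀ y, T.s y ≠ 0 → k₀ ≤ kap e₀ T y := fun y hy => by
    rcases hs y with h1 | h1
    · exact absurd h1 hy
    · have := h.al y (by rw [← h1]; exact hy)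
      unfold kap at this ⊢
      rwa [hS.mb, h1]
  have hZ : (A.kd T ∪ A.Q \ Qr).card ≤ z := by
    refine (Finset.card_union_le _ _).trans (le_trans ?_ h.hz)
    exact Nat.add_le_add hS.num (Finset.card_le_card Finset.sdiff_subset)
  have hdead : ∀ y, T.s y = 0 → (∃ j ≤ n, y ∈ dd j) ∨ y ∈ A.kd T ∪ A.Q \ Qr := fun y hy => by
    by_cases hyR : y ∈ A.R
    · exact Or.inr (Finset.mem_union_left _ (Finset.mem_filter.2 ⟨hyR, hy⟩))
    · by_cases hyQ : y ∈ A.Q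
      · by_cases hyr : y ∈ Qr
        · have := (hS.rem y hyr).2
          rw [hy] at this
          exact absurd this.symm (hQ0 y hyQ)
        · exact Or.inr (Finset.mem_union_right _ (Finset.mem_sdiff.2 ⟨hyQ, hyr⟩))
      · left
        apply hdd
        rw [← (hS.off y hyR hyQ).2]
        exact hy
  obtain ⟨-, hLev⟩ := lev_one (r := r) (J := J) (N := N) h.lm (E := E) (e₀ := e₀) (k₀ := k₀)
    (T := T) h.nm dd (A.kd T ∪ A.Q \ Qr) h.he hpos hdead hcard hZ h.sum h.hk.1 h.hk.2 hal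
    (h.rk x hxR hxk b (hS.sub hb))
  have hnet := net_tor E e₀ T h.he hpos
  have hkx : 0 < kap e₀ T x := hnet.pos x
  have h1 := aa_le hnet hLev (by positivity)
  have e1 : A.a T b x = KIL.aa (kap e₀ T) (Gr (Hr (Vef T) E) (kap e₀ T)) b x := by
    show KIL.aa (ATT.ka A.η A.e0 T) (ATT.GT A.Hm A.η A.e0 T) b x = _
    rw [h.hm, h.hη, h.he0, GT_eq, ka_eq]
    rfl
  rw [e1]
  refine h1.trans (le_of_eq ?_)
  field_simp

/-- THE FIELD `far₀` OF `Hyp` -/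
theorem hfar₀ (h : PGeo A E e₀ k₀ n m z rk Dn J N l r) (b : Tor d (2 ^ μ)) (hb : b ∈ A.Q)
    (x : Tor d (2 ^ μ)) (hx : x ∈ A.R) (hxk : x ∉ A.Rk) :
    kap e₀ A.T₀ b * ‖net E e₀ A.T₀ b x‖ ^ 2 ≤
      2 / k₀ * Real.exp (-(k₀ / (4 * d) * (rk / 2 - rr d Dn n z - 1))) := by
  classical
  obtain ⟨dd, hdd, hcard⟩ := h.dens
  obtain ⟨hne, hLev⟩ := lev_one (r := r) (J := J) (N := N) h.lm (E := E) (e₀ := e₀) (k₀ := k₀)
    (T := A.T₀) h.nm dd ∅ h.he h.pos (fun y hy => Or.inl (hdd y hy)) hcard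
    (by simp) h.sum h.hk.1 h.hk.2 h.al (h.rk x hx hxk b hb) (Dn := Dn) (z := z)
  have hnet := net_tor E e₀ A.T₀ h.he h.pos
  have hkx : 0 < kap e₀ A.T₀ x := hnet.pos x
  have hL0 : 0 ≤ 2 / kap e₀ A.T₀ x *
      Real.exp (-(k₀ / (4 * d) * (rk / 2 - rr d Dn n z - 1))) := by positivity
  have hxb : x ∉ ({b} : Finset (Tor d (2 ^ μ))) := by
    rw [Finset.mem_singleton]
    exact hne
  obtain ⟨-, -, h3, -⟩ := hLv2 (Tor d (2 ^ μ)) (Hr (Vef A.T₀) E) (Hr (Vef A.T₀) E)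
    (kap e₀ A.T₀) (kap e₀ A.T₀) {b} x x _ _ hnet hnet (fun y _ => ⟨rfl, fun _ => rfl⟩) hxb hxb
    hL0 hL0 hLev hLev
  rw [Finset.sum_singleton] at h3
  refine h3.trans (mul_le_mul_of_nonneg_right ?_ (Real.exp_pos _).le)
  have hk := h.al x (h.run x hx)
  exact div_le_div_of_nonneg_left (by norm_num) h.hk.1 hk

end pa

end Pool.Agent.AND2B.H28
end
end -- Pool.Agent.Helper28_AHH.Hfar

section -- Pool.Agent.Helper34_KL2.Defs

/-!
# The end of a successful attempt (kill and release of a cluster)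

`Fin1`: what the attempt guarantees. `Cx`: the situation of the field `kil`. The aim is
`Cx ⇒ Rl` for `P ∪ nbh Q ρ`, `T'`, `{x ∈ run | T'.s x ≠ 0}`.
-/

set_option autoImplicit false

open scoped BigOperators NNReal Matrix

noncomputable section

namespace Pool.Agent.KL2

open Pool.Agent.BED (Tor)
open Pool.Agent.AND2B (net kap Gt)
open Pool.Agent.ANP (Cfg Geo Fc)
open Pool.Agent.AHH

section defs

variable {d M : ℕ} [NeZero M]

/-- the running sites near `Q` -/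
def Rn (V : Env d M) (n : ℕ) (run Q : Finset (Tor d M)) : Finset (Tor d M) :=
  run ∩ V.Γ.nbh Q (V.Γ.ρ n)

/-- those which survive -/
def Rs (V : Env d M) (n : ℕ) (run Q : Finset (Tor d M)) (T' : Cfg (Tor d M)) :
    Finset (Tor d M) := (Rn V n run Q).filter fun x => T'.s x ≠ 0

/-- the killed sites -/
def Ks (run : Finset (Tor d M)) (T' : Cfg (Tor d M)) : Finset (Tor d M) :=
  run.filter fun x => T'.s x = 0

/-- THE END OF A SUCCESSFUL ATTEMPT: `T` its start, `T'` its end, `v` the potential on `Q` -/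
structure Fin1 (V : Env d M) (n : ℕ) (T T' : Cfg (Tor d M)) (run Q : Finset (Tor d M))
    (v : Tor d M → ℝ) (rk N : ℕ) (J mm MM hK : ℝ) : Prop where
  mb : T'.mb = T.mb
  off : ∀ x, x ∉ Rn V n run Q → x ∉ Q → T'.V x = T.V x ∧ T'.s x = T.s x
  rn : ∀ x ∈ Rn V n run Q, T'.s x = 0 ∨ T'.V x = T.V x ∧ T'.s x = T.s x
  app : ∀ b ∈ Q, T'.V b = v b ∧ T'.s b = 0
  num : (Ks run T').card ≤ N
  near : Ks run T' ⊆ V.Γ.nbh Q rk
  /-- the first kills -/
  hK : ∀ x ∈ Rs V n run Q T', ∀ b ∈ Q, kap V.e₀ T b * ‖net V.E V.e₀ T b x‖ ^ 2 ≤ hK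
  ent : ∀ x ∈ Rs V n run Q T', ∀ y ∈ Rs V n run Q T',
    ‖net V.E V.e₀ T' x y - net V.E V.e₀ T x y‖ ≤ J
  mx : ∀ x ∈ Rs V n run Q T', ∑ y ∈ Rs V n run Q T',
    kap V.e₀ T y * ‖net V.E V.e₀ T' x y - net V.E V.e₀ T x y‖ ^ 2 ≤ mm
  MM : ∑ x ∈ Rs V n run Q T', kap V.e₀ T x * ∑ y ∈ Rs V n run Q T',
    kap V.e₀ T y * ‖net V.E V.e₀ T' x y - net V.E V.e₀ T x y‖ ^ 2 ≤ MM

end defs

variable {d μ : ℕ}

/-- the situation of the field `kil` at the end of a successful attempt -/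
structure Cx (J₀ N₀ : ℕ) (l r : ℕ → ℕ) (V : Env d (2 ^ μ)) (b : Bud) (n : ℕ)
    (T₀ : Cfg (Tor d (2 ^ μ))) (run₀ P : Finset (Tor d (2 ^ μ))) (T : Cfg (Tor d (2 ^ μ)))
    (run Q : Finset (Tor d (2 ^ μ))) (v : Tor d (2 ^ μ) → ℝ) (T' : Cfg (Tor d (2 ^ μ)))
    (rk : ℕ) (J mm MM hK : ℝ) : Prop where
  hΓ : V.Γ = Gt d μ J₀ N₀ l r
  hl : Monotone l
  c0 : 0 < V.c₀
  e0 : 0 < V.e₀
  clp : 0 < V.cl (V.kk (n + 1))
  fc : Fc V.Γ V.kk V.cl V.Dn n (V.kk (n + 1)) ∅ T run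
  rl : Rl V b n T₀ run₀ P T run
  ne : Q.Nonempty
  fro : ∀ x ∈ Q, x ∉ run ∧ 0 < T.s x
  iso : ∀ x ∈ Q, ∀ y, V.Γ.D x y ≤ V.Γ.ρ n → y ∈ Q ∨ y ∈ run ∨ T.s y = 0
  far : ∀ x ∈ Q, ∀ y ∈ P, 3 * V.Γ.ρ n < V.Γ.D x y
  f1 : Fin1 V n T T' run Q v rk (V.Kn n) J mm MM hK

namespace Cx

variable {J₀ N₀ : ℕ} {l r : ℕ → ℕ} {V : Env d (2 ^ μ)} {b : Bud} {n : ℕ}
  {T₀ : Cfg (Tor d (2 ^ μ))} {run₀ P : Finset (Tor d (2 ^ μ))} {T : Cfg (Tor d (2 ^ μ))}
  {run Q : Finset (Tor d (2 ^ μ))} {v : Tor d (2 ^ μ) → ℝ} {T' : Cfg (Tor d (2 ^ μ))}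
  {rk : ℕ} {J mm MM hK : ℝ}

/-- the sites which die -/
def S (run Q : Finset (Tor d (2 ^ μ))) (T' : Cfg (Tor d (2 ^ μ))) : Finset (Tor d (2 ^ μ)) :=
  Q ∪ Ks run T'

theorem geo (h : Cx J₀ N₀ l r V b n T₀ run₀ P T run Q v T' rk J mm MM hK) :
    ANP.GeoOk V.Γ d := by
  rw [h.hΓ]
  exact ANP.H61.trg d μ l _ h.hl J₀ N₀

theorem D_eq (h : Cx J₀ N₀ l r V b n T₀ run₀ P T run Q v T' rk J mm MM hK)
    (x y : Tor d (2 ^ μ)) : V.Γ.D x y = ANP.H61.sd x y := by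
  rw [h.hΓ]
  rfl

theorem rho_eq (h : Cx J₀ N₀ l r V b n T₀ run₀ P T run Q v T' rk J mm MM hK) :
    V.Γ.ρ n = 2 ^ r n := by
  rw [h.hΓ]
  rfl

theorem mem_nbh {Γ : Geo (Tor d (2 ^ μ))} {S : Finset (Tor d (2 ^ μ))} {t : ℕ}
    {x : Tor d (2 ^ μ)} : x ∈ Γ.nbh S t ↔ ∃ y ∈ S, Γ.D x y ≤ t := by
  unfold Geo.nbh
  rw [Finset.mem_filter]
  exact ⟨fun h => h.2, fun h => ⟨Finset.mem_univ _, h⟩⟩

/-- outside of `S` nothing changes -/
theorem same (h : Cx J₀ N₀ l r V b n T₀ run₀ P T run Q v T' rk J mm MM hK)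
    {x : Tor d (2 ^ μ)} (hx : x ∉ S run Q T') :
    T'.V x = T.V x ∧ T'.s x = T.s x ∧ T'.mb x = T.mb x := by
  have hQ : x ∉ Q := fun hq => hx (Finset.mem_union_left _ hq)
  have hK' : x ∉ Ks run T' := fun hq => hx (Finset.mem_union_right _ hq)
  have hmb : T'.mb x = T.mb x := by rw [h.f1.mb]
  by_cases hR : x ∈ Rn V n run Q
  · rcases h.f1.rn x hR with h1 | ⟨h1, h2⟩
    · exact absurd (Finset.mem_filter.2 ⟨(Finset.mem_inter.1 hR).1, h1⟩) hK'
    · exact ⟨h1, h2, hmb⟩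
  · exact ⟨(h.f1.off x hR hQ).1, (h.f1.off x hR hQ).2, hmb⟩

/-- the sites of `S` are dead -/
theorem dead (h : Cx J₀ N₀ l r V b n T₀ run₀ P T run Q v T' rk J mm MM hK)
    {x : Tor d (2 ^ μ)} (hx : x ∈ S run Q T') : T'.s x = 0 := by
  rcases Finset.mem_union.1 hx with h1 | h1
  · exact (h.f1.app x h1).2
  · exact (Finset.mem_filter.1 h1).2

theorem alive_not (h : Cx J₀ N₀ l r V b n T₀ run₀ P T run Q v T' rk J mm MM hK)
    {x : Tor d (2 ^ μ)} (hx : x ∈ Al T') : x ∉ S run Q T' := fun hS => by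
  have h1 := H16.mem_al.1 hx
  rw [h.dead hS] at h1
  exact lt_irrefl _ h1

/-- the sites of `S` are alive before -/
theorem S_al (h : Cx J₀ N₀ l r V b n T₀ run₀ P T run Q v T' rk J mm MM hK) :
    S run Q T' ⊆ Al T := by
  intro x hx
  rcases Finset.mem_union.1 hx with h1 | h1
  · exact H16.mem_al.2 (h.fro x h1).2
  · exact h.rl.sub.2 (Finset.mem_filter.1 h1).1

/-- the nodes afterwards -/
theorem al_eq (h : Cx J₀ N₀ l r V b n T₀ run₀ P T run Q v T' rk J mm MM hK) :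
    Al T' = Al T \ S run Q T' := by
  ext x
  rw [Finset.mem_sdiff]
  constructor
  · intro hx
    have hS := h.alive_not hx
    refine ⟨?_, hS⟩
    rw [H16.mem_al] at hx ⊢
    rwa [(h.same hS).2.1] at hx
  · rintro ⟨hx, hS⟩
    rw [H16.mem_al] at hx ⊢
    rwa [(h.same hS).2.1]

theorem al_sub (h : Cx J₀ N₀ l r V b n T₀ run₀ P T run Q v T' rk J mm MM hK) :
    Al T' ⊆ Al T := by
  rw [h.al_eq]
  exact Finset.sdiff_subset

theorem kap_eq (h : Cx J₀ N₀ l r V b n T₀ run₀ P T run Q v T' rk J mm MM hK)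
    {x : Tor d (2 ^ μ)} (hx : x ∉ S run Q T') : kap V.e₀ T' x = kap V.e₀ T x := by
  unfold kap
  rw [(h.same hx).2.1, (h.same hx).2.2]

theorem gg_eq (h : Cx J₀ N₀ l r V b n T₀ run₀ P T run Q v T' rk J mm MM hK)
    (x : Tor d (2 ^ μ)) : gg T' x = gg T x := by
  unfold gg
  rw [h.f1.mb]

/-- the gauge -/
theorem gau (h : Cx J₀ N₀ l r V b n T₀ run₀ P T run Q v T' rk J mm MM hK) :
    Gb V T (b.q n (V.kk (n + 1))).del := by
  intro x hx
  have h1 : x ∈ Al T₀ := by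
    rw [H16.mem_al] at hx ⊢
    rcases h.rl.chg x with h1 | h1
    · rwa [h1.2] at hx
    · exact h1.2.1
  have h2 := h.rl.st0.gau x h1
  unfold gg at h2 ⊢
  rw [h.rl.mb]
  exact h2

theorem gpos (h : Cx J₀ N₀ l r V b n T₀ run₀ P T run Q v T' rk J mm MM hK) :
    ∀ x ∈ Al T, 0 < gg T x := fun x hx => lt_of_lt_of_le h.c0 (h.gau x hx).1

theorem gpos' (h : Cx J₀ N₀ l r V b n T₀ run₀ P T run Q v T' rk J mm MM hK) :
    ∀ x ∈ Al T', 0 < gg T' x := fun x hx => by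
  rw [h.gg_eq]
  exact h.gpos x (h.al_sub hx)

/-- the clock of an alive site is at least `s` -/
theorem clk (h : Cx J₀ N₀ l r V b n T₀ run₀ P T run Q v T' rk J mm MM hK)
    {x : Tor d (2 ^ μ)} (hx : x ∈ Al T) : V.cl (V.kk (n + 1)) ≤ T.s x := by
  by_cases hr : x ∈ run
  · have h1 := h.fc.runs x hr
    rw [if_neg (Finset.notMem_empty x)] at h1
    rw [h1]
  · rcases h.fc.rest x hr with h1 | h1
    · rw [H16.mem_al, h1] at hx
      exact absurd hx (lt_irrefl _)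
    · rw [if_neg (Finset.notMem_empty x)] at h1
      exact h1.1

/-- the absorption of an alive site -/
theorem kap_ge (h : Cx J₀ N₀ l r V b n T₀ run₀ P T run Q v T' rk J mm MM hK)
    {x : Tor d (2 ^ μ)} (hx : x ∈ Al T) : (V.cl (V.kk (n + 1)) : ℝ) * V.c₀ ≤ kap V.e₀ T x := by
  unfold kap
  have h1 : (V.cl (V.kk (n + 1)) : ℝ) ≤ T.s x := by exact_mod_cast h.clk hx
  have h2 : V.c₀ ≤ (T.mb x).im := (h.gau x hx).1
  have h3 := mul_le_mul h1 h2 h.c0.le (NNReal.coe_nonneg _)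
  linarith [h.e0]

theorem kap_pos (h : Cx J₀ N₀ l r V b n T₀ run₀ P T run Q v T' rk J mm MM hK)
    (x : Tor d (2 ^ μ)) : 0 < kap V.e₀ T x := H16.kap_pos h.e0 h.gpos x

theorem kap_pos' (h : Cx J₀ N₀ l r V b n T₀ run₀ P T run Q v T' rk J mm MM hK)
    (x : Tor d (2 ^ μ)) : 0 < kap V.e₀ T' x := H16.kap_pos h.e0 h.gpos' x

/-- the alive sites near `Q` are running -/
theorem near_run (h : Cx J₀ N₀ l r V b n T₀ run₀ P T run Q v T' rk J mm MM hK)
    {x : Tor d (2 ^ μ)} (hx : x ∈ Al T') (hn : x ∈ V.Γ.nbh Q (V.Γ.ρ n)) :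
    x ∈ Rs V n run Q T' := by
  obtain ⟨y, hy, hxy⟩ := mem_nbh.1 hn
  have hS := h.alive_not hx
  have hA := H16.mem_al.1 (h.al_sub hx)
  rw [h.geo.comm] at hxy
  rcases h.iso y hy x hxy with h1 | h1 | h1
  · exact absurd (Finset.mem_union_left _ h1) hS
  · exact Finset.mem_filter.2 ⟨Finset.mem_inter.2 ⟨h1, hn⟩, (H16.mem_al.1 hx).ne'⟩
  · rw [h1] at hA
    exact absurd hA (lt_irrefl _)

theorem Rs_al (h : Cx J₀ N₀ l r V b n T₀ run₀ P T run Q v T' rk J mm MM hK) :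
    Rs V n run Q T' ⊆ Al T' := fun _ hx =>
  H16.mem_al.2 (pos_iff_ne_zero.2 (Finset.mem_filter.1 hx).2)

theorem Rs_run (_h : Cx J₀ N₀ l r V b n T₀ run₀ P T run Q v T' rk J mm MM hK) :
    Rs V n run Q T' ⊆ run := fun _ hx =>
  (Finset.mem_inter.1 (Finset.mem_filter.1 hx).1).1

/-- `nbh Q ρ` is disjoint from `P` -/
theorem disj (h : Cx J₀ N₀ l r V b n T₀ run₀ P T run Q v T' rk J mm MM hK) :
    Disjoint P (V.Γ.nbh Q (V.Γ.ρ n)) := by
  rw [Finset.disjoint_left]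
  intro x hx hn
  obtain ⟨y, hy, hxy⟩ := mem_nbh.1 hn
  have h1 := h.far y hy x hx
  rw [h.geo.comm] at h1
  omega

end Cx

end Pool.Agent.KL2
end
end -- Pool.Agent.Helper34_KL2.Defs

section -- Pool.Agent.Helper76_AHH.KilA

/-!
# Helper76, AND2B: the language of the attempts and the language of the protocol
-/

set_option autoImplicit false

open scoped BigOperators NNReal Matrix

noncomputable section

namespace Pool.Agent.AHH.H76

open Pool.Agent.BED (Tor adj)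
open Pool.Agent.ANP (Cfg Geo Fc)
open Pool.Agent.AND2B
open Pool.Agent.ATT (GT hN ka)
open Pool.Agent.AFJ (LaR ind)
open Pool.Agent.LE.QF (BB KK)
open Pool.Agent.ATT.H76 (In0)

variable {d M : ℕ} [NeZero M]

open Pool.Agent.AND2B.H28 (Hm GT_eq ka_eq)

theorem Hm_symm (E : ℝ) (x y : Tor d M) : Hm d M E x y = Hm d M E y x := by
  unfold Hm Hr
  simp only [Matrix.add_apply]
  rw [Pool.Agent.BED.adj_symm x y]
  by_cases hxy : x = y
  · subst hxy; rfl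
  · rw [Matrix.diagonal_apply_ne _ hxy, Matrix.diagonal_apply_ne _ (Ne.symm hxy)]

omit [NeZero M] in
/-- fourth powers -/
theorem lar_eq (G : Matrix (Tor d M) (Tor d M) ℂ) (R : Finset (Tor d M)) (x : Tor d M) :
    LaR G R x = ∑ y ∈ R, ‖G x y‖ ^ 4 := by
  unfold LaR KK
  exact Finset.sum_congr rfl fun y _ => by ring

/-- THE START OF AN ATTEMPT -/
theorem in0_of_rl (V : Env d M) (b : Bud) (n : ℕ) (T₀ T : Cfg (Tor d M))
    (run₀ run P Q : Finset (Tor d M)) (hRl : Rl V b n T₀ run₀ P T run)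
    (hfc : Fc V.Γ V.kk V.cl V.Dn n (V.kk (n + 1)) ∅ T run) (q G₁ cP gb : ℝ) (hq0 : 0 < q)
    (hq : (V.cl (V.kk (n + 1)) : ℝ) = q ^ 2000) (he : 0 < V.e₀ ∧ V.e₀ ≤ q ^ 2000)
    (hc₀ : 0 < V.c₀) (hk1 : V.e₀ + V.cl 0 * V.C₀ ≤ 1)
    (hG : ∀ x y, ‖V.G₀ x y‖ ≤ G₁) (hPhi : ∀ x, Phi V.Γ (b.tau n) n P x ≤ cP)
    (hicR : 0 ≤ b.icR n) (hlR : 0 ≤ b.lR n) (hlam : 0 ≤ (b.q n (V.kk (n + 1))).lam)
    (hmis : (b.q n (V.kk (n + 1))).mis + b.icR n * cP ≤ q ^ 198 / 2)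
    (hent : G₁ + (b.q n (V.kk (n + 1))).del + b.icR n * cP ≤ gb / 2) (hgb : 0 ≤ gb)
    (hlar : (b.q n (V.kk (n + 1))).lam * (1 + b.lR n * cP) ≤ (q⁻¹) ^ 1500)
    (hQ : ∀ x ∈ Q, x ∉ run ∧ 0 < T.s x) (hcQ : (Q.card : ℝ) ≤ (q⁻¹) ^ 2) :
    In0 (Hm d M V.E) V.e₀ T (run ∩ V.Γ.nbh Q (V.Γ.ρ n)) Q (V.cl (V.kk (n + 1))) q V.c₀ V.C₀
      gb := by
  have hv : 0 < V.cl (V.kk (n + 1)) := by
    rw [← NNReal.coe_pos, hq]; positivity
  have hs : ∀ x ∈ run, T.s x = V.cl (V.kk (n + 1)) := by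
    intro x hx
    have := hfc.runs x hx
    simpa using this
  have halT : ∀ x, 0 < T.s x → x ∈ Al T := fun x hx => Finset.mem_filter.2 ⟨Finset.mem_univ x, hx⟩
  have halT₀ : ∀ x, 0 < T.s x → x ∈ Al T₀ := by
    intro x hx
    refine Finset.mem_filter.2 ⟨Finset.mem_univ x, ?_⟩
    rcases hRl.chg x with h | h
    · rw [← h.2]; exact hx
    · exact h.2.1
  have hgau : ∀ x, 0 < T.s x → V.c₀ ≤ (T.mb x).im ∧ ‖T.mb x‖ ≤ V.C₀ ∧
      ‖T.mb x - V.m₀‖ ≤ (b.q n (V.kk (n + 1))).del := by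
    intro x hx
    have := hRl.st0.gau x (halT₀ x hx)
    unfold gg at this
    rw [hRl.mb]
    exact this
  have hE : ∀ x y, 0 < T.s x → 0 < T.s y → ‖net V.E V.e₀ T x y‖ ≤ gb / 2 := by
    intro x y hx hy
    have h1 := hRl.ent x (halT x hx) y (halT y hy)
    have h2 := hRl.st0.ent x (halT₀ x hx) y (halT₀ y hy)
    have h3 := mul_le_mul_of_nonneg_left (hPhi x) hicR
    calc ‖net V.E V.e₀ T x y‖ = ‖(net V.E V.e₀ T x y - net V.E V.e₀ T₀ x y) +
          (net V.E V.e₀ T₀ x y - V.G₀ x y) + V.G₀ x y‖ := by congr 1; ring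
      _ ≤ ‖(net V.E V.e₀ T x y - net V.E V.e₀ T₀ x y)‖ +
          ‖(net V.E V.e₀ T₀ x y - V.G₀ x y)‖ + ‖V.G₀ x y‖ := norm_add₃_le
      _ ≤ gb / 2 := by
          have := hG x y
          linarith
  have hrun : ∀ x ∈ run ∩ V.Γ.nbh Q (V.Γ.ρ n), x ∈ run ∧ 0 < T.s x := by
    intro x hx
    have h1 := (Finset.mem_inter.1 hx).1
    exact ⟨h1, by rw [hs x h1]; exact hv⟩
  refine ⟨hq0, hq, Hm_symm V.E, he, fun x hx => lt_of_lt_of_le hc₀ (hgau x hx).1, ?_, ?_, ?_, hcQ,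
    ?_, ?_, ?_⟩
  · rw [Finset.disjoint_left]
    intro x hx hxQ
    exact (hQ x hxQ).1 (hrun x hx).1
  · intro x hx
    obtain ⟨h1, h2⟩ := hrun x hx
    refine ⟨hs x h1, (hgau x h2).1, ?_⟩
    exact (le_abs_self _).trans ((Complex.abs_im_le_norm _).trans (hgau x h2).2.1)
  · intro x hx
    obtain ⟨h1, h2⟩ := hQ x hx
    refine ⟨h2.ne', ?_, ?_⟩
    · rw [ka_eq]
      unfold kap
      have h3 : (T.s x : ℝ) ≤ V.cl 0 := by
        rcases hfc.rest x h1 with h | h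
        · rw [h]; simp
        · exact_mod_cast h.2
      have h4 : (T.mb x).im ≤ V.C₀ :=
        (le_abs_self _).trans ((Complex.abs_im_le_norm _).trans (hgau x h2).2.1)
      have h5 := (hgau x h2).1
      have h6 : (0 : ℝ) ≤ T.s x := NNReal.coe_nonneg _
      have h7 : (T.s x : ℝ) * (T.mb x).im ≤ V.cl 0 * V.C₀ :=
        mul_le_mul h3 h4 (hc₀.le.trans h5) (NNReal.coe_nonneg _)
      linarith
    · rw [GT_eq]
      have := hE x x h2 h2
      linarith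
  · intro c hc
    obtain ⟨h1, h2⟩ := hrun c hc
    rw [GT_eq]
    have h3 := hRl.ent c (halT c h2) c (halT c h2)
    have h4 := hRl.st0.mis c (hRl.sub.1 h1)
    have h5 := mul_le_mul_of_nonneg_left (hPhi c) hicR
    rw [hRl.mb]
    calc ‖net V.E V.e₀ T c c - T₀.mb c‖ = ‖(net V.E V.e₀ T c c - net V.E V.e₀ T₀ c c) +
          (net V.E V.e₀ T₀ c c - T₀.mb c)‖ := by congr 1; ring
      _ ≤ _ := (norm_add_le _ _).trans (by linarith)
  · intro x hx y hy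
    rw [GT_eq]
    exact hE x y (hrun x hx).2 (hrun y hy).2
  · intro x hx
    obtain ⟨h1, h2⟩ := hrun x hx
    rw [GT_eq, ← lar_eq]
    have h3 := hRl.lar x (halT x h2)
    have h4 : LaR (net V.E V.e₀ T) (run ∩ V.Γ.nbh Q (V.Γ.ρ n)) x ≤
        LaR (net V.E V.e₀ T) run x := by
      unfold LaR
      exact Finset.sum_le_sum_of_subset_of_nonneg Finset.inter_subset_left
        fun y _ _ => by positivity
    have h5 := mul_le_mul_of_nonneg_left (hPhi x) hlR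
    have h6 := mul_le_mul_of_nonneg_left (add_le_add_right h5 1) hlam
    linarith

end Pool.Agent.AHH.H76
end
end -- Pool.Agent.Helper76_AHH.KilA

section -- Pool.Agent.Helper76_ATT.OutN

/-!
# Helper76, tank ATT: the end of an attempt in numbers
-/

set_option autoImplicit false

open scoped BigOperators NNReal

noncomputable section

namespace Pool.Agent.ATT.H76

open Pool.Agent.ANP (Cfg)

variable {X : Type} [Fintype X] [DecidableEq X]
  {Hm : Matrix X X ℝ} {e0 : ℝ} {T₀ : Cfg X} {R Rk Q : Finset X} {v : ℝ≥0} {val : X → ℝ}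
  {q g₀ g₁ gb : ℝ}

omit [Fintype X] [DecidableEq X] in
theorem mx_nonneg' (κ : X → ℝ) (S : Finset X) (G Go : Matrix X X ℂ) (x : X)
    (h : ∀ y ∈ S, 0 ≤ κ y) : 0 ≤ mx κ S G Go x := by
  unfold mx
  exact Finset.sum_nonneg fun y hy => mul_nonneg (h y hy) (by positivity)

/-- THE END OF AN ATTEMPT -/
theorem out_num (hOut : OutStmt) (h : In Hm e0 T₀ R Q v q g₀ g₁ gb) (K : ℝ) (hK : K * q ≤ 1)
    (hK1 : 2000 ≤ K) (hK2 : 100 / g₀ ≤ K) (hg₀ : 0 < g₀)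
    (κs Λ Lc hk kI : ℝ) (hH : (mkA Hm e0 T₀ R Rk Q v val q g₀ gb).Hyp κs g₀ Λ Lc hk kI)
    (T' : Cfg X) (Go : Matrix X X ℂ)
    (hSt : (mkA Hm e0 T₀ R Rk Q v val q g₀ gb).St T' ∅ Go)
    (hU : (mkA Hm e0 T₀ R Rk Q v val q g₀ gb).U T' ∅ Go < 1) :
    (∀ x ∈ R, T'.s x ≠ 0 → ∀ y ∈ R, T'.s y ≠ 0 →
      ‖GT Hm e0 e0 T' x y - GT Hm e0 e0 T₀ x y‖ ≤ q ^ 244) ∧
    (∀ x ∈ R, T'.s x ≠ 0 → mx (ka e0 e0 T') {y ∈ R | T'.s y ≠ 0} (GT Hm e0 e0 T')
      (GT Hm e0 e0 T₀) x ≤ 4 * q ^ 80) ∧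
    MM (ka e0 e0 T') {y ∈ R | T'.s y ≠ 0} (GT Hm e0 e0 T') (GT Hm e0 e0 T₀) ≤
      9 * (q⁻¹) ^ 280 ∧
    (({x ∈ R | T'.s x = 0} : Finset X).card : ℝ) ≤ (q⁻¹) ^ 2260 := by
  have hq := h.q0
  have hq1 : q ≤ 1 := by nlinarith only [hK, hK1, hq]
  have hr : 0 < q⁻¹ := inv_pos.2 hq
  have hr1 : 1 ≤ q⁻¹ := (one_le_inv₀ hq).2 hq1
  obtain ⟨o1, o2, o3⟩ := hOut X _ κs g₀ Λ Lc hk kI hH T' Go hSt hU
  have hmem : ∀ x, x ∈ R → T'.s x ≠ 0 → x ∈ (mkA Hm e0 T₀ R Rk Q v val q g₀ gb).al T' := by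
    intro x hx hs
    exact Finset.mem_filter.2 ⟨hx, hs⟩
  have hJ : ∀ x ∈ R, (mkA Hm e0 T₀ R Rk Q v val q g₀ gb).J x = q ^ 244 := fun x hx => Jn_R h x hx
  have hka : ∀ y, 0 ≤ ka e0 e0 T' y := by
    intro y
    unfold ka
    split_ifs with hs
    · exact h.eq.1.le
    · have h2 : 0 ≤ (T'.mb y).im := by
        rw [hSt.mb]
        show 0 ≤ (T₀.mb y).im
        by_cases hyR : y ∈ R
        · exact hg₀.le.trans (h.hR y hyR).2.1
        · by_cases hyQ : y ∈ Q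
          · exact (h.pimb y (pos_iff_ne_zero.2 (h.hQ y hyQ).1)).le
          · have h3 := (hSt.off y hyR hyQ).2
            refine (h.pimb y ?_).le
            have h4 : T'.s y = T₀.s y := h3
            rw [← h4]
            exact pos_iff_ne_zero.2 hs
      have h3 := h.eq.1
      have h4 : (0 : ℝ) ≤ T'.s y := NNReal.coe_nonneg _
      positivity
  have hsd : Real.sqrt (2 / g₀ * q ^ 250) ≤ q ^ 121 / 4 := by
    have h1 := small hq hq1 hK (c := 100 / g₀) (by positivity) hK2 8 (by norm_num)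
    rw [Real.sqrt_le_left (by positivity)]
    calc 2 / g₀ * q ^ 250 = (100 / g₀ * q ^ 8) * (q ^ 242 / 50) := by ring
      _ ≤ 1 * (q ^ 242 / 50) := by gcongr
      _ ≤ _ := by
          have : 0 ≤ q ^ 242 := by positivity
          have e : (q ^ 121 / 4) ^ 2 = q ^ 242 / 16 := by ring
          rw [e]; linarith only [this]
  have hcQ : (Q.card : ℝ) ≤ (q⁻¹) ^ 2 := h.cQ
  refine ⟨?_, ?_, ?_, ?_⟩
  · intro x hx hsx y hy hsy
    have := o1 x (hmem x hx hsx) y (hmem y hy hsy)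
    rw [hJ x hx] at this
    exact this
  · intro x hx hsx
    have h1 : Real.sqrt (mx (ka e0 e0 T') {y ∈ R | T'.s y ≠ 0} (GT Hm e0 e0 T')
        (GT Hm e0 e0 T₀) x) ≤ Real.sqrt (q ^ 80) +
        (Q.card : ℝ) * (2 * Real.sqrt (2 / g₀ * q ^ 250)) := o2 x (hmem x hx hsx)
    have hs : Real.sqrt (q ^ 80) = q ^ 40 := by
      rw [show q ^ 80 = (q ^ 40) ^ 2 by rw [← pow_mul], Real.sqrt_sq (by positivity)]
    have h2 : (Q.card : ℝ) * (2 * Real.sqrt (2 / g₀ * q ^ 250)) ≤ q ^ 40 := by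
      calc (Q.card : ℝ) * (2 * Real.sqrt (2 / g₀ * q ^ 250))
          ≤ (q⁻¹) ^ 2 * (2 * (q ^ 121 / 4)) := by gcongr
        _ = (q ^ (119 + 2) * (q⁻¹) ^ 2) / 2 := by ring
        _ = q ^ 119 / 2 := by rw [qr hq]
        _ ≤ q ^ 40 := by
            have h5 : q ^ 119 ≤ q ^ 40 := pow_le_pow_of_le_one hq.le hq1 (by norm_num)
            have h6 : 0 ≤ q ^ 119 := by positivity
            linarith only [h5, h6]
    have h3 : Real.sqrt (mx (ka e0 e0 T') {y ∈ R | T'.s y ≠ 0} (GT Hm e0 e0 T')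
        (GT Hm e0 e0 T₀) x) ≤ 2 * q ^ 40 := by
      rw [hs] at h1
      linarith only [h1, h2]
    have h4 := mx_nonneg' (ka e0 e0 T') {y ∈ R | T'.s y ≠ 0} (GT Hm e0 e0 T')
        (GT Hm e0 e0 T₀) x (fun y _ => hka y)
    rw [Real.sqrt_le_left (by positivity)] at h3
    calc _ ≤ (2 * q ^ 40) ^ 2 := h3
      _ = _ := by ring
  · have h1 : Real.sqrt (MM (ka e0 e0 T') {y ∈ R | T'.s y ≠ 0} (GT Hm e0 e0 T')
        (GT Hm e0 e0 T₀)) ≤ Real.sqrt ((q⁻¹) ^ 280) + (Q.card : ℝ) * 2 := o3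
    have hs : Real.sqrt ((q⁻¹) ^ 280) = (q⁻¹) ^ 140 := by
      rw [show (q⁻¹) ^ 280 = ((q⁻¹) ^ 140) ^ 2 by rw [← pow_mul], Real.sqrt_sq (by positivity)]
    have h2 : (q⁻¹) ^ 2 ≤ (q⁻¹) ^ 140 := pow_le_pow_right₀ hr1 (by norm_num)
    have h3 : Real.sqrt (MM (ka e0 e0 T') {y ∈ R | T'.s y ≠ 0} (GT Hm e0 e0 T')
        (GT Hm e0 e0 T₀)) ≤ 3 * (q⁻¹) ^ 140 := by
      rw [hs] at h1
      linarith only [hcQ, h1, h2]
    rw [Real.sqrt_le_left (by positivity)] at h3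
    calc _ ≤ (3 * (q⁻¹) ^ 140) ^ 2 := h3
      _ = _ := by ring
  · have h1 : ({x ∈ R | T'.s x = 0} : Finset X).card ≤ ⌊(q⁻¹) ^ 2260⌋₊ := hSt.num
    have h2 : (({x ∈ R | T'.s x = 0} : Finset X).card : ℝ) ≤ (⌊(q⁻¹) ^ 2260⌋₊ : ℝ) := by
      exact_mod_cast h1
    exact h2.trans (Nat.floor_le (by positivity))

end Pool.Agent.ATT.H76
end
end -- Pool.Agent.Helper76_ATT.OutN

section -- Pool.Agent.Helper76_AHH.KilB

/-!
# Helper76, AND2B: the end of a successful attempt (`KL2.Fin1`)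
-/

set_option autoImplicit false

open scoped BigOperators NNReal Matrix

noncomputable section

namespace Pool.Agent.AHH.H76

open Pool.Agent.BED (Tor adj)
open Pool.Agent.ANP (Cfg Geo Fc)
open Pool.Agent.AND2B
open Pool.Agent.ATT (GT hN ka OutStmt)
open Pool.Agent.ATT.H76 (In mkA out_num)
open Pool.Agent.AND2B.H28 (Hm GT_eq ka_eq)
open Pool.Agent.KL2 (Fin1 Rn Rs Ks)

variable {d M : ℕ} [NeZero M]

/-- THE END OF A SUCCESSFUL ATTEMPT -/
theorem fin1 (hOut : OutStmt) (V : Env d M) (n : ℕ) (T T' : Cfg (Tor d M))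
    (run Q Rk : Finset (Tor d M)) (v : ℝ≥0) (val : Tor d M → ℝ) (q g₀ g₁ gb : ℝ)
    (hIn : In (Hm d M V.E) V.e₀ T (Rn V n run Q) Q v q g₀ g₁ gb) (K : ℝ) (hK : K * q ≤ 1)
    (hK1 : 2000 ≤ K) (hK2 : 100 / g₀ ≤ K) (hg₀ : 0 < g₀) (κs Λ Lc hk kI : ℝ)
    (hH : (mkA (Hm d M V.E) V.e₀ T (Rn V n run Q) Rk Q v val q g₀ gb).Hyp κs g₀ Λ Lc hk kI)
    (Go : Matrix (Tor d M) (Tor d M) ℂ)
    (hSt : (mkA (Hm d M V.E) V.e₀ T (Rn V n run Q) Rk Q v val q g₀ gb).St T' ∅ Go)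
    (hU : (mkA (Hm d M V.E) V.e₀ T (Rn V n run Q) Rk Q v val q g₀ gb).U T' ∅ Go < 1)
    (hF : ∀ b ∈ Q, ∀ x ∈ (mkA (Hm d M V.E) V.e₀ T (Rn V n run Q) Rk Q v val q g₀ gb).al T',
      ka V.e₀ V.e₀ T b * ‖GT (Hm d M V.E) V.e₀ V.e₀ T b x‖ ^ 2 ≤ q ^ 200)
    (hrun : run ⊆ Al T) (hQ : ∀ x ∈ Q, x ∉ run) (rk N : ℕ) (hRk : Rk ⊆ V.Γ.nbh Q rk)
    (hN : (q⁻¹) ^ 2260 ≤ N) (J mm MM hK' : ℝ) (hJ : q ^ 244 ≤ J) (hmm : 4 * q ^ 80 ≤ mm)
    (hMM : 9 * (q⁻¹) ^ 280 ≤ MM) (hKK : q ^ 200 ≤ hK') :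
    Fin1 V n T T' run Q val rk N J mm MM hK' := by
  obtain ⟨o1, o2, o3, o4⟩ := out_num hOut hIn K hK hK1 hK2 hg₀ κs Λ Lc hk kI hH T' Go hSt hU
  have hmb : T'.mb = T.mb := hSt.mb
  have hoff : ∀ x, x ∉ Rn V n run Q → x ∉ Q → T'.V x = T.V x ∧ T'.s x = T.s x := hSt.off
  have hrn : ∀ x ∈ Rn V n run Q, T'.s x = 0 ∨ T'.V x = T.V x ∧ T'.s x = T.s x := by
    intro x hx
    rcases hSt.run x hx with h | h
    · exact Or.inl h
    · refine Or.inr ⟨h.1, ?_⟩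
      rw [(hIn.hR x hx).1]
      exact h.2
  have hKs : Ks run T' ⊆ {x ∈ Rn V n run Q | T'.s x = 0} := by
    intro x hx
    obtain ⟨h1, h2⟩ := Finset.mem_filter.1 hx
    refine Finset.mem_filter.2 ⟨?_, h2⟩
    by_contra hcon
    have h3 := (hoff x hcon fun hq => hQ x hq h1).2
    have h4 := (Finset.mem_filter.1 (hrun h1)).2
    rw [← h3, h2] at h4
    exact lt_irrefl _ h4
  have hRs : ∀ x ∈ Rs V n run Q T', x ∈ Rn V n run Q ∧ T'.s x ≠ 0 := fun x hx =>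
    Finset.mem_filter.1 hx
  have hkap : ∀ x ∈ Rs V n run Q T', kap V.e₀ T x = ka V.e₀ V.e₀ T' x := by
    intro x hx
    obtain ⟨h1, h2⟩ := hRs x hx
    rw [ka_eq]
    unfold kap
    rw [hmb]
    rcases hrn x h1 with h | h
    · exact absurd h h2
    · rw [h.2]
  have hRs' : Rs V n run Q T' = {y ∈ Rn V n run Q | T'.s y ≠ 0} := rfl
  refine ⟨hmb, hoff, hrn, ?_, ?_, ?_, ?_, ?_, ?_, ?_⟩
  · intro b hb
    exact hSt.app b hb (Finset.notMem_empty b)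
  · have h1 : ((Ks run T').card : ℝ) ≤ N := by
      refine le_trans ?_ (o4.trans hN)
      exact_mod_cast Finset.card_le_card hKs
    exact_mod_cast h1
  · intro x hx
    have h1 : x ∈ Rk := hSt.near (hKs hx)
    exact hRk h1
  · intro x hx b hb
    have h1 := hF b hb x (Finset.mem_filter.2 (hRs x hx))
    rw [GT_eq, ka_eq] at h1
    exact h1.trans hKK
  · intro x hx y hy
    have h1 := o1 x (hRs x hx).1 (hRs x hx).2 y (hRs y hy).1 (hRs y hy).2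
    rw [GT_eq, GT_eq] at h1
    exact h1.trans hJ
  · intro x hx
    have h1 := o2 x (hRs x hx).1 (hRs x hx).2
    refine le_trans (le_of_eq ?_) (h1.trans hmm)
    unfold ATT.mx
    rw [← hRs']
    refine Finset.sum_congr rfl fun y hy => ?_
    rw [GT_eq, GT_eq, hkap y hy]
  · refine le_trans (le_of_eq ?_) (o3.trans hMM)
    unfold ATT.MM ATT.mx
    rw [← hRs']
    refine Finset.sum_congr rfl fun x hx => ?_
    rw [hkap x hx]
    congr 1
    refine Finset.sum_congr rfl fun y hy => ?_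
    rw [GT_eq, GT_eq, hkap y hy]

end Pool.Agent.AHH.H76
end
end -- Pool.Agent.Helper76_AHH.KilB

section -- Pool.Agent.Helper34_KL2.Far

/-!
# Decay, and the change of the resolvent at all nodes
-/

set_option autoImplicit false

open scoped BigOperators NNReal Matrix

noncomputable section

namespace Pool.Agent.KL2

open Pool.Agent.BED (Tor)
open Pool.Agent.AND2B (net kap Gt Hr Vef res)
open Pool.Agent.ANP (Cfg Geo Fc)
open Pool.Agent.ANR (Gr)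
open Pool.Agent.ANR.H89 (Upd upd_geo)
open Pool.Agent.AHH

variable {d μ : ℕ}

theorem sd_le_pow (x y : Tor d (2 ^ μ)) : ANP.H61.sd x y ≤ 2 ^ μ := by
  rw [ANP.H61.sd_le]
  intro i
  have h1 := ANP.H61.cd_le (x i) (y i) (((x i - y i).val : ℕ) : ℤ) (by
    push_cast
    rw [ZMod.natCast_val, ZMod.cast_id])
  have h2 := ZMod.val_lt (x i - y i)
  omega

/-- the constant in the comparison of the alive distance with the distance -/
def Zc (d n : ℕ) (Dn : ℕ → ℕ) : ℝ := 2 + 2 * ∑ i ∈ Finset.range (n + 1), (3 ^ d * Dn i : ℝ)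

/-- FAR for two configurations, without the cutoff -/
theorem upd_all {J₀ N₀ : ℕ} {l r : ℕ → ℕ} (hl : Monotone l) {E e₀ k₀ : ℝ}
    {T T' : Cfg (Tor d (2 ^ μ))} {F : Finset (Tor d (2 ^ μ))} (hFne : F.Nonempty) {n : ℕ}
    {Dn : ℕ → ℕ} (he : 0 < e₀)
    (hm : ∀ x, 0 ≤ (T.s x : ℝ) * (T.mb x).im) (hm' : ∀ x, 0 ≤ (T'.s x : ℝ) * (T'.mb x).im)
    (hoff : ∀ x, x ∉ F → T'.V x = T.V x ∧ T'.s x = T.s x ∧ T'.mb x = T.mb x)
    (dens : ∃ dd : ℕ → Finset (Tor d (2 ^ μ)), (∀ x, T.s x = 0 → ∃ j ≤ n, x ∈ dd j) ∧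
      ∀ j B, (dd j ∩ (Gt d μ J₀ N₀ l r).blk j B).card ≤ Dn j)
    (hsum : ∑ i ∈ Finset.range (n + 1), (3 ^ d * Dn i : ℝ) / 2 ^ l i ≤ 1 / 4)
    (hk : 0 < k₀) (hk1 : k₀ ≤ 1) (hal : ∀ x, T.s x ≠ 0 → k₀ ≤ kap e₀ T x)
    (hal' : ∀ x, T'.s x ≠ 0 → k₀ ≤ kap e₀ T' x) :
    ∃ φ : Tor d (2 ^ μ) → ℝ,
      Upd (Hr (Vef T) E) (Hr (Vef T') E) (kap e₀ T) (kap e₀ T') φ F
        (Finset.univ.filter fun x => T.s x ≠ 0 ∧ T'.s x ≠ 0)
        ((Finset.univ.filter fun x => T.s x ≠ 0) \ F) (2 * d) k₀ (k₀ / (8 * d)) ∧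
      ∀ y, ∃ x ∈ F, 1 / 2 * (ANP.H61.sd x y : ℝ) - Zc d n Dn ≤ φ y := by
  obtain ⟨φ, hU, -, hφ⟩ := upd_geo hl (E := E) hFne he hm hm' hoff dens hsum hk hk1 hal hal' (2 ^ μ)
  refine ⟨φ, hU, fun y => ?_⟩
  obtain ⟨x, hx, h1⟩ := hφ y
  refine ⟨x, hx, le_trans ?_ h1⟩
  have h2 : (Gt d μ J₀ N₀ l r).D x y = ANP.H61.sd x y := rfl
  rw [h2]
  have h3 : ((ANP.H61.sd x y : ℕ) : ℝ) ≤ 2 ^ μ := by exact_mod_cast sd_le_pow x y
  have h4 : (0 : ℝ) ≤ ∑ i ∈ Finset.range (n + 1), (3 ^ d * Dn i : ℝ) :=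
    Finset.sum_nonneg fun _ _ => by positivity
  have h5 : (0 : ℝ) < 2 ^ μ := by positivity
  rw [min_eq_right]
  · unfold Zc
    linarith only
  · push_cast
    linarith only [h3, h4, h5]

/-- (DEC) decay of the resolvent of one configuration -/
theorem dec {J₀ N₀ : ℕ} {l r : ℕ → ℕ} (hl : Monotone l) {E e₀ k₀ : ℝ}
    {T : Cfg (Tor d (2 ^ μ))} {n : ℕ} {Dn : ℕ → ℕ} (he : 0 < e₀)
    (hm : ∀ x, 0 ≤ (T.s x : ℝ) * (T.mb x).im)
    (dens : ∃ dd : ℕ → Finset (Tor d (2 ^ μ)), (∀ x, T.s x = 0 → ∃ j ≤ n, x ∈ dd j) ∧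
      ∀ j B, (dd j ∩ (Gt d μ J₀ N₀ l r).blk j B).card ≤ Dn j)
    (hsum : ∑ i ∈ Finset.range (n + 1), (3 ^ d * Dn i : ℝ) / 2 ^ l i ≤ 1 / 4)
    (hk : 0 < k₀) (hk1 : k₀ ≤ 1) (hal : ∀ x, T.s x ≠ 0 → k₀ ≤ kap e₀ T x) (x y : Tor d (2 ^ μ)) :
    kap e₀ T x * kap e₀ T y * ‖net E e₀ T x y‖ ^ 2 ≤
      2 * Real.exp (2 * (k₀ / (8 * d)) * Zc d n Dn) *
        Real.exp (-(k₀ / (8 * d) * ANP.H61.sd x y)) := by
  obtain ⟨φ, hU, hφ⟩ := upd_all hl (E := E) (F := {x}) (Finset.singleton_nonempty x) he hm hm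
    (fun _ _ => ⟨rfl, rfl, rfl⟩) dens hsum hk hk1 hal hal
  have h1 := hU.cond_all x y
  have h2 : φ x = 0 := hU.hF x (Finset.mem_singleton_self x)
  obtain ⟨x', hx', h3⟩ := hφ y
  rw [Finset.mem_singleton] at hx'
  subst hx'
  have h4 : kap e₀ T x' * kap e₀ T y * ‖net E e₀ T x' y‖ ^ 2 ≤
      2 * Real.exp (-(2 * (k₀ / (8 * d)) * |φ y - φ x'|)) := h1
  refine h4.trans ?_
  rw [h2, sub_zero, mul_assoc (2 : ℝ) (Real.exp _), ← Real.exp_add]
  refine mul_le_mul_of_nonneg_left (Real.exp_le_exp.2 ?_) (by norm_num)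
  have h5 : φ y ≤ |φ y| := le_abs_self _
  have hβ : 0 ≤ k₀ / (8 * d) := hU.hβ
  nlinarith only [h3, h5, hβ]

namespace Cx

variable {J₀ N₀ : ℕ} {l r : ℕ → ℕ} {V : Env d (2 ^ μ)} {b : Bud} {n : ℕ}
  {T₀ : Cfg (Tor d (2 ^ μ))} {run₀ P : Finset (Tor d (2 ^ μ))} {T : Cfg (Tor d (2 ^ μ))}
  {run Q : Finset (Tor d (2 ^ μ))} {v : Tor d (2 ^ μ) → ℝ} {T' : Cfg (Tor d (2 ^ μ))}
  {rk : ℕ} {J mm MM hK : ℝ}

theorem im_nonneg (h : Cx J₀ N₀ l r V b n T₀ run₀ P T run Q v T' rk J mm MM hK)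
    (x : Tor d (2 ^ μ)) : 0 ≤ (T.s x : ℝ) * (T.mb x).im := by
  by_cases hx : x ∈ Al T
  · exact mul_nonneg (NNReal.coe_nonneg _) (h.gpos x hx).le
  · have h2 : T.s x = 0 := by
      by_contra hc
      exact hx (H16.mem_al.2 (pos_iff_ne_zero.2 hc))
    rw [h2]
    simp

theorem im_nonneg' (h : Cx J₀ N₀ l r V b n T₀ run₀ P T run Q v T' rk J mm MM hK)
    (x : Tor d (2 ^ μ)) : 0 ≤ (T'.s x : ℝ) * (T'.mb x).im := by
  by_cases hx : x ∈ Al T'
  · exact mul_nonneg (NNReal.coe_nonneg _) (h.gpos' x hx).le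
  · have h2 : T'.s x = 0 := by
      by_contra hc
      exact hx (H16.mem_al.2 (pos_iff_ne_zero.2 hc))
    rw [h2]
    simp

theorem S_ne (h : Cx J₀ N₀ l r V b n T₀ run₀ P T run Q v T' rk J mm MM hK) :
    (S run Q T').Nonempty := by
  obtain ⟨x, hx⟩ := h.ne
  exact ⟨x, Finset.mem_union_left _ hx⟩

theorem dens (h : Cx J₀ N₀ l r V b n T₀ run₀ P T run Q v T' rk J mm MM hK) :
    ∃ dd : ℕ → Finset (Tor d (2 ^ μ)), (∀ x, T.s x = 0 → ∃ j ≤ n, x ∈ dd j) ∧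
      ∀ j B, (dd j ∩ (Gt d μ J₀ N₀ l r).blk j B).card ≤ V.Dn j := by
  rw [← h.hΓ]
  exact h.fc.dens

/-- the dead sites afterwards -/
theorem dens' (h : Cx J₀ N₀ l r V b n T₀ run₀ P T run Q v T' rk J mm MM hK)
    (hS : (S run Q T').card ≤ V.Dn n) :
    ∃ dd : ℕ → Finset (Tor d (2 ^ μ)), (∀ x, T'.s x = 0 → ∃ j ≤ n, x ∈ dd j) ∧
      ∀ j B, (dd j ∩ (Gt d μ J₀ N₀ l r).blk j B).card ≤ 2 * V.Dn j := by
  obtain ⟨dd, h1, h2⟩ := h.dens
  refine ⟨fun j => if j = n then dd j ∪ S run Q T' else dd j, fun x hx => ?_, fun j B => ?_⟩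
  · by_cases hxS : x ∈ S run Q T'
    · exact ⟨n, le_rfl, by simp [hxS]⟩
    · rw [(h.same hxS).2.1] at hx
      obtain ⟨j, hj, hxj⟩ := h1 x hx
      refine ⟨j, hj, ?_⟩
      by_cases hjn : j = n
      · simp [hjn, hjn ▸ hxj]
      · simp [hjn, hxj]
  · by_cases hjn : j = n
    · simp only [if_pos hjn]
      rw [Finset.union_inter_distrib_right]
      refine (Finset.card_union_le _ _).trans ?_
      have h3 := h2 j B
      have h4 := Finset.card_le_card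
        (Finset.inter_subset_left (s₁ := S run Q T') (s₂ := (Gt d μ J₀ N₀ l r).blk j B))
      rw [hjn] at h3 ⊢
      rw [hjn] at h4
      omega
    · simp only [if_neg hjn]
      have h3 := h2 j B
      omega

theorem al_of (h : Cx J₀ N₀ l r V b n T₀ run₀ P T run Q v T' rk J mm MM hK)
    (x : Tor d (2 ^ μ)) (hx : T.s x ≠ 0) :
    (V.cl (V.kk (n + 1)) : ℝ) * V.c₀ ≤ kap V.e₀ T x :=
  h.kap_ge (H16.mem_al.2 (pos_iff_ne_zero.2 hx))

theorem al_of' (h : Cx J₀ N₀ l r V b n T₀ run₀ P T run Q v T' rk J mm MM hK)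
    (x : Tor d (2 ^ μ)) (hx : T'.s x ≠ 0) :
    (V.cl (V.kk (n + 1)) : ℝ) * V.c₀ ≤ kap V.e₀ T' x := by
  have h1 : x ∈ Al T' := H16.mem_al.2 (pos_iff_ne_zero.2 hx)
  rw [h.kap_eq (h.alive_not h1)]
  exact h.kap_ge (h.al_sub h1)

end Cx

/-- the change of the resolvent at all nodes -/
structure Pk (V : Env d (2 ^ μ)) (n : ℕ) (T T' : Cfg (Tor d (2 ^ μ)))
    (Q : Finset (Tor d (2 ^ μ))) (J₁ m₁ E₁ c : ℝ) : Prop where
  near : ∀ x ∈ Al T', x ∈ V.Γ.nbh Q (V.Γ.ρ n) →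
    (∀ y ∈ Al T', ‖net V.E V.e₀ T' x y - net V.E V.e₀ T x y‖ ≤ J₁) ∧
    ∑ y ∈ Al T', kap V.e₀ T y * ‖net V.E V.e₀ T' x y - net V.E V.e₀ T x y‖ ^ 2 ≤ m₁
  far : ∀ x ∈ Al T', x ∉ V.Γ.nbh Q (V.Γ.ρ n) → ∃ q ∈ Q, V.Γ.ρ n < V.Γ.D x q ∧
    (∀ y ∈ Al T', ‖net V.E V.e₀ T' x y - net V.E V.e₀ T x y‖ ≤
      E₁ * Real.exp (-(c * V.Γ.D x q))) ∧
    ∑ y ∈ Al T', kap V.e₀ T y * ‖net V.E V.e₀ T' x y - net V.E V.e₀ T x y‖ ^ 2 ≤
      E₁ * Real.exp (-(c * V.Γ.D x q))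

namespace Cx

variable {J₀ N₀ : ℕ} {l r : ℕ → ℕ} {V : Env d (2 ^ μ)} {b : Bud} {n : ℕ}
  {T₀ : Cfg (Tor d (2 ^ μ))} {run₀ P : Finset (Tor d (2 ^ μ))} {T : Cfg (Tor d (2 ^ μ))}
  {run Q : Finset (Tor d (2 ^ μ))} {v : Tor d (2 ^ μ) → ℝ} {T' : Cfg (Tor d (2 ^ μ))}
  {rk : ℕ} {J mm MM hK : ℝ}

/-- (PK) the change of the resolvent at all nodes -/
theorem pk (h : Cx J₀ N₀ l r V b n T₀ run₀ P T run Q v T' rk J mm MM hK)
    (hsum : ∑ i ∈ Finset.range (n + 1), (3 ^ d * V.Dn i : ℝ) / 2 ^ l i ≤ 1 / 4)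
    {k₀ β : ℝ} (hk₀ : k₀ = (V.cl (V.kk (n + 1)) : ℝ) * V.c₀) (hβ : β = k₀ / (8 * d))
    (hk1 : k₀ ≤ 1) (hρ : (rk : ℝ) / 2 + Zc d n V.Dn ≤ (V.Γ.ρ n : ℝ) / 4) (hJ : 0 ≤ J) (hmm : 0 ≤ mm) :
    Pk V n T T' Q (J + 4 / k₀ * Real.exp (-(β / 4 * V.Γ.ρ n)))
      (mm + 8 / k₀ * Real.exp (-(β / 4 * V.Γ.ρ n))) (8 / k₀) (β / 4) := by
  have hk : 0 < k₀ := by
    rw [hk₀]
    have h1 : (0 : ℝ) < V.cl (V.kk (n + 1)) := by exact_mod_cast h.clp
    exact mul_pos h1 h.c0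
  obtain ⟨φ, hU, hφ⟩ := upd_all h.hl (E := V.E) (k₀ := k₀) h.S_ne h.e0 h.im_nonneg h.im_nonneg'
    (fun x hx => h.same hx) h.dens hsum hk hk1 (fun x hx => hk₀ ▸ h.al_of x hx)
    (fun x hx => hk₀ ▸ h.al_of' x hx)
  rw [← hβ] at hU
  have hβ0 : 0 ≤ β := hU.hβ
  have hD := h.D_eq
  have hcomm := h.geo.comm
  have htri := h.geo.tri
  have hA : ∀ x ∈ Al T', x ∈ (Finset.univ.filter fun x => T.s x ≠ 0 ∧ T'.s x ≠ 0) :=
    fun x hx => Finset.mem_filter.2 ⟨Finset.mem_univ _, (H16.mem_al.1 (h.al_sub hx)).ne',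
      (H16.mem_al.1 hx).ne'⟩
  -- the plateau function at far sites
  have hfar : ∀ y, y ∉ V.Γ.nbh Q (V.Γ.ρ n) → ∃ q ∈ Q, V.Γ.ρ n < V.Γ.D y q ∧
      (V.Γ.D y q : ℝ) / 4 ≤ φ y := by
    intro y hy
    obtain ⟨x, hx, h1⟩ := hφ y
    obtain ⟨q, hq, hxq⟩ : ∃ q ∈ Q, V.Γ.D x q ≤ rk := by
      rcases Finset.mem_union.1 hx with h2 | h2
      · exact ⟨x, h2, by rw [h.geo.self]; exact Nat.zero_le _⟩
      · obtain ⟨q, hq, hxq⟩ := mem_nbh.1 (h.f1.near h2)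
        exact ⟨q, hq, hxq⟩
    have h2 : V.Γ.ρ n < V.Γ.D y q := by
      by_contra hc
      exact hy (mem_nbh.2 ⟨q, hq, not_lt.1 hc⟩)
    refine ⟨q, hq, h2, ?_⟩
    have h3 : (V.Γ.D y q : ℝ) ≤ V.Γ.D x y + rk := by
      have h4 := htri y x q
      have h5 := hcomm y x
      exact_mod_cast (by omega : V.Γ.D y q ≤ V.Γ.D x y + rk)
    have h6 : (V.Γ.ρ n : ℝ) < V.Γ.D y q := by exact_mod_cast h2
    rw [← hD] at h1
    linarith only [hρ, h1, h3, h6]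
  have hent : ∀ x ∈ Al T', ∀ y ∈ Al T', ‖net V.E V.e₀ T' x y - net V.E V.e₀ T x y‖ ≤
      4 / k₀ * Real.exp (-(β * (φ x + φ y))) := fun x hx y hy =>
    hU.ent (hA x hx) (hA y hy) fun hh => h.alive_not hx hh.1
  have hφ0 : ∀ x, 0 ≤ φ x := hU.plt.nn
  have hs := fun x y => (ANR.H89.hGeq _ _ _ hU.n).2.1 x y
  have hs' := fun x y => (ANR.H89.hGeq _ _ _ hU.n').2.1 x y
  have hmass : ∀ x ∈ Al T', ∀ B : Finset (Tor d (2 ^ μ)), B ⊆ Al T' →
      ∑ y ∈ B, kap V.e₀ T y * ‖net V.E V.e₀ T' x y - net V.E V.e₀ T x y‖ ^ 2 ≤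
        8 / k₀ * Real.exp (-(2 * β * φ x)) := by
    intro x hx B hB
    have hxF := h.alive_not hx
    obtain ⟨h1, -, -⟩ := hU.mass hxF
    have h2 : ∑ y ∈ B, kap V.e₀ T y * ‖net V.E V.e₀ T' x y - net V.E V.e₀ T x y‖ ^ 2 ≤
        ∑ z ∈ (S run Q T')ᶜ, kap V.e₀ T z *
          ‖Gr (Hr (Vef T) V.E) (kap V.e₀ T) z x - Gr (Hr (Vef T') V.E) (kap V.e₀ T') z x‖ ^ 2 := by
      refine le_trans (le_of_eq ?_) (Finset.sum_le_sum_of_subset_of_nonneg (s := B) ?_ ?_)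
      · refine Finset.sum_congr rfl fun y _ => ?_
        rw [hs y x, hs' y x, norm_sub_rev]
        rfl
      · intro y hy
        rw [Finset.mem_compl]
        exact h.alive_not (hB hy)
      · intro y _ _
        exact mul_nonneg (hU.n.pos y).le (sq_nonneg _)
    refine h2.trans (h1.trans ?_)
    refine mul_le_mul_of_nonneg_right ?_ (Real.exp_pos _).le
    have h3 : k₀ ≤ kap V.e₀ T x := hk₀ ▸ h.kap_ge (h.al_sub hx)
    exact div_le_div_of_nonneg_left (by norm_num) hk h3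
  have h4k : 0 ≤ 4 / k₀ := by positivity
  have h8k : 0 ≤ 8 / k₀ := by positivity
  refine ⟨fun x hx hn => ⟨fun y hy => ?_, ?_⟩, fun x hx hn => ?_⟩
  · by_cases hyn : y ∈ V.Γ.nbh Q (V.Γ.ρ n)
    · have h1 := h.f1.ent x (h.near_run hx hn) y (h.near_run hy hyn)
      have := Real.exp_pos (-(β / 4 * V.Γ.ρ n))
      have : 0 ≤ 4 / k₀ * Real.exp (-(β / 4 * V.Γ.ρ n)) := by positivity
      linarith only [h1, this]
    · obtain ⟨q, hq, h1, h2⟩ := hfar y hyn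
      have h3 : (V.Γ.ρ n : ℝ) ≤ V.Γ.D y q := by exact_mod_cast h1.le
      have h4 := hent x hx y hy
      have h5 : 4 / k₀ * Real.exp (-(β * (φ x + φ y))) ≤
          4 / k₀ * Real.exp (-(β / 4 * V.Γ.ρ n)) := by
        refine mul_le_mul_of_nonneg_left (Real.exp_le_exp.2 ?_) h4k
        have := hφ0 x
        nlinarith only [hβ0, h2, h3, this]
      linarith only [hJ, h4, h5]
  · -- the mass of a near site
    rw [← Finset.sum_filter_add_sum_filter_not (Al T') (fun y => y ∈ V.Γ.nbh Q (V.Γ.ρ n))]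
    refine add_le_add ?_ ?_
    · refine le_trans (Finset.sum_le_sum_of_subset_of_nonneg ?_ ?_)
        (h.f1.mx x (h.near_run hx hn))
      · intro y hy
        obtain ⟨h1, h2⟩ := Finset.mem_filter.1 hy
        exact h.near_run h1 h2
      · intro y _ _
        exact mul_nonneg (hU.n.pos y).le (sq_nonneg _)
    · set B := (Al T').filter fun y => ¬ y ∈ V.Γ.nbh Q (V.Γ.ρ n) with hB
      have hBA : B ⊆ Al T' := Finset.filter_subset _ _
      have hφB : ∀ y ∈ B, (V.Γ.ρ n : ℝ) / 4 ≤ φ y := by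
        intro y hy
        obtain ⟨q, hq, h1, h2⟩ := hfar y (Finset.mem_filter.1 hy).2
        have h3 : (V.Γ.ρ n : ℝ) ≤ V.Γ.D y q := by exact_mod_cast h1.le
        linarith only [h2, h3]
      by_cases hx8 : (V.Γ.ρ n : ℝ) / 8 ≤ φ x
      · refine (hmass x hx B hBA).trans (mul_le_mul_of_nonneg_left (Real.exp_le_exp.2 ?_) h8k)
        nlinarith only [hβ0, hx8]
      · push Not at hx8
        have h1 := hU.ww x
        have h2 := hU.ww' x
        have him : ∀ (H : Matrix (Tor d (2 ^ μ)) (Tor d (2 ^ μ)) ℝ) (κ : Tor d (2 ^ μ) → ℝ),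
            ANR.Net H κ → k₀ ≤ κ x →
            ∑ b, κ b * (Real.exp (2 * β * |φ b - φ x|) * ‖Gr H κ x b‖ ^ 2) ≤
              2 * (Gr H κ x x).im →
            ∑ y ∈ B, κ y * ‖Gr H κ x y‖ ^ 2 ≤ 2 / k₀ * Real.exp (-(β / 4 * V.Γ.ρ n)) := by
          intro H κ hN hkx hw
          have h3 : ∑ y ∈ B, κ y * ‖Gr H κ x y‖ ^ 2 * Real.exp (β / 4 * V.Γ.ρ n) ≤
              ∑ b, κ b * (Real.exp (2 * β * |φ b - φ x|) * ‖Gr H κ x b‖ ^ 2) := by
            refine le_trans (Finset.sum_le_sum (g := fun b =>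
              κ b * (Real.exp (2 * β * |φ b - φ x|) * ‖Gr H κ x b‖ ^ 2)) fun y hy => ?_)
              (Finset.sum_le_sum_of_subset_of_nonneg (Finset.subset_univ B) fun y _ _ =>
                mul_nonneg (hN.pos y).le (mul_nonneg (Real.exp_pos _).le (sq_nonneg _)))
            rw [mul_assoc]
            refine mul_le_mul_of_nonneg_left ?_ (hN.pos y).le
            rw [mul_comm]
            refine mul_le_mul_of_nonneg_right (Real.exp_le_exp.2 ?_) (sq_nonneg _)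
            have h4 := hφB y hy
            have h5 : (V.Γ.ρ n : ℝ) / 8 ≤ |φ y - φ x| :=
              le_trans (by linarith only [hx8, h4]) (le_abs_self (φ y - φ x))
            nlinarith only [hβ0, h5]
          rw [← Finset.sum_mul] at h3
          have h6 : 2 * (Gr H κ x x).im ≤ 2 / k₀ := by
            have := ANR.H89.im_le hN hk hkx
            have e : 2 / k₀ = 2 * (1 / k₀) := by ring
            rw [e]
            linarith only [this]
          have h7 := (h3.trans hw).trans h6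
          rw [Real.exp_neg, ← div_eq_mul_inv, le_div_iff₀ (Real.exp_pos _)]
          exact h7
        have g1 := him _ _ hU.n (hk₀ ▸ h.kap_ge (h.al_sub hx)) h1
        have g2 := him _ _ hU.n' (by rw [h.kap_eq (h.alive_not hx), hk₀]
                                     exact h.kap_ge (h.al_sub hx)) h2
        have g3 : ∑ y ∈ B, kap V.e₀ T y *
            ‖net V.E V.e₀ T' x y - net V.E V.e₀ T x y‖ ^ 2 ≤
            ∑ y ∈ B, (2 * (kap V.e₀ T' y *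
              ‖Gr (Hr (Vef T') V.E) (kap V.e₀ T') x y‖ ^ 2) +
              2 * (kap V.e₀ T y * ‖Gr (Hr (Vef T) V.E) (kap V.e₀ T) x y‖ ^ 2)) := by
          refine Finset.sum_le_sum fun y hy => ?_
          rw [h.kap_eq (h.alive_not (hBA hy))]
          have e1 : ‖net V.E V.e₀ T' x y - net V.E V.e₀ T x y‖ ^ 2 ≤
              2 * ‖Gr (Hr (Vef T') V.E) (kap V.e₀ T') x y‖ ^ 2 +
              2 * ‖Gr (Hr (Vef T) V.E) (kap V.e₀ T) x y‖ ^ 2 := by
            have e2 : ‖net V.E V.e₀ T' x y - net V.E V.e₀ T x y‖ ≤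
                ‖Gr (Hr (Vef T') V.E) (kap V.e₀ T') x y‖ +
                ‖Gr (Hr (Vef T) V.E) (kap V.e₀ T) x y‖ := norm_sub_le _ _
            have e3 := pow_le_pow_left₀ (norm_nonneg _) e2 2
            refine e3.trans ?_
            nlinarith only [sq_nonneg (‖Gr (Hr (Vef T') V.E) (kap V.e₀ T') x y‖ -
              ‖Gr (Hr (Vef T) V.E) (kap V.e₀ T) x y‖)]
          have e4 := mul_le_mul_of_nonneg_left e1 (hU.n.pos y).le
          linarith only [e4]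
        refine g3.trans ?_
        rw [Finset.sum_add_distrib, ← Finset.mul_sum, ← Finset.mul_sum]
        have e : 8 / k₀ * Real.exp (-(β / 4 * V.Γ.ρ n)) =
          2 * (2 / k₀ * Real.exp (-(β / 4 * V.Γ.ρ n))) +
          2 * (2 / k₀ * Real.exp (-(β / 4 * V.Γ.ρ n))) := by ring
        rw [e]
        linarith only [g1, g2]
  · obtain ⟨q, hq, h1, h2⟩ := hfar x hn
    refine ⟨q, hq, h1, fun y hy => ?_, ?_⟩
    · refine (hent x hx y hy).trans ?_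
      have h3 : 4 / k₀ ≤ 8 / k₀ := div_le_div_of_nonneg_right (by norm_num) hk.le
      refine mul_le_mul h3 (Real.exp_le_exp.2 ?_) (Real.exp_pos _).le h8k
      have := hφ0 y
      nlinarith only [hβ0, h2, this]
    · refine (hmass x hx (Al T') le_rfl).trans
        (mul_le_mul_of_nonneg_left (Real.exp_le_exp.2 ?_) h8k)
      have h3 : (0 : ℝ) ≤ V.Γ.D x q := Nat.cast_nonneg _
      nlinarith only [hβ0, h2]

end Cx

end Pool.Agent.KL2
end
end -- Pool.Agent.Helper34_KL2.Far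

section -- Pool.Agent.Helper34_KL2.LY

/-!
# Entries, `∑ |G|⁴` and block Y after the release of a cluster
-/

set_option autoImplicit false

open scoped BigOperators NNReal Matrix

noncomputable section

namespace Pool.Agent.KL2

open Pool.Agent.BED (Tor)
open Pool.Agent.AND2B (net kap Gt Hr Vef res)
open Pool.Agent.ANP (Cfg Geo Fc)
open Pool.Agent.AFJ (ind LaR)
open Pool.Agent.LE.QF (BB KK)
open Pool.Agent.ABY
open Pool.Agent.AHH

section pure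

variable {X : Type} [Fintype X] [DecidableEq X]

theorem young2 {a b ζ : ℝ} (hζ : 0 < ζ) : (a + b) ^ 2 ≤ (1 + ζ) * a ^ 2 + (1 + 1 / ζ) * b ^ 2 := by
  obtain ⟨t, ht⟩ : ∃ t : ℝ, t = 1 / ζ := ⟨_, rfl⟩
  have hte : t * ζ = 1 := by rw [ht]; field_simp
  have ht0 : 0 < t := by rw [ht]; positivity
  rw [← ht]
  have h1 : 0 ≤ t * (ζ * a - b) ^ 2 := mul_nonneg ht0.le (sq_nonneg _)
  have h2 : t * (ζ * a - b) ^ 2 = ζ * a ^ 2 - 2 * a * b + t * b ^ 2 := by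
    linear_combination (ζ * a ^ 2 - 2 * a * b) * hte
  rw [h2] at h1
  nlinarith only [h1]

theorem young4 {a b ζ : ℝ} (hζ : 0 < ζ) (hζ1 : ζ ≤ 1) :
    (a + b) ^ 4 ≤ (1 + 7 * ζ) * a ^ 4 + 8 / ζ ^ 3 * b ^ 4 := by
  have h1 := young2 (a := a) (b := b) hζ
  have h2 := young2 (a := (1 + ζ) * a ^ 2) (b := (1 + 1 / ζ) * b ^ 2) hζ
  have h3 : (a + b) ^ 4 ≤ ((1 + ζ) * a ^ 2 + (1 + 1 / ζ) * b ^ 2) ^ 2 := by
    have : (a + b) ^ 4 = ((a + b) ^ 2) ^ 2 := by ring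
    rw [this]
    exact pow_le_pow_left₀ (sq_nonneg _) h1 2
  have h4 : (1 + ζ) * ((1 + ζ) * a ^ 2) ^ 2 ≤ (1 + 7 * ζ) * a ^ 4 := by
    have e : (1 + ζ) * ((1 + ζ) * a ^ 2) ^ 2 = (1 + ζ) ^ 3 * a ^ 4 := by ring
    rw [e]
    refine mul_le_mul_of_nonneg_right ?_ (by positivity)
    nlinarith only [sq_nonneg ζ, mul_nonneg hζ.le hζ.le, mul_nonneg (mul_nonneg hζ.le hζ.le) hζ.le, hζ, hζ1]
  have h5 : (1 + 1 / ζ) * ((1 + 1 / ζ) * b ^ 2) ^ 2 ≤ 8 / ζ ^ 3 * b ^ 4 := by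
    have e : (1 + 1 / ζ) * ((1 + 1 / ζ) * b ^ 2) ^ 2 = (1 + 1 / ζ) ^ 3 * b ^ 4 := by ring
    rw [e]
    refine mul_le_mul_of_nonneg_right ?_ (by positivity)
    have e2 : 8 / ζ ^ 3 = (2 / ζ) ^ 3 := by rw [div_pow]; norm_num
    rw [e2]
    refine pow_le_pow_left₀ (by positivity) ?_ 3
    have e3 : (1 : ℝ) ≤ 1 / ζ := by
      rw [le_div_iff₀ hζ]; linarith only [hζ1]
    have e4 : 2 / ζ = 1 / ζ + 1 / ζ := by ring
    linarith only [e3, e4]
  linarith only [h2, h3, h4, h5]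

/-- fourth powers after a change which is small in fourth powers -/
theorem lar_new {G G' : Matrix X X ℂ} {R R' : Finset X} (hR : R' ⊆ R) {x : X} {lam ζ B : ℝ}
    (hζ : 0 < ζ) (hζ1 : ζ ≤ 1) (h1 : LaR G R x ≤ 2 * lam)
    (h2 : ∑ y ∈ R', ‖G' x y - G x y‖ ^ 4 ≤ B) (hB : B ≤ ζ ^ 4 * lam) :
    LaR G' R' x ≤ LaR G R x + 22 * ζ * lam := by
  have h3 : LaR G' R' x ≤ (1 + 7 * ζ) * LaR G R' x +
      8 / ζ ^ 3 * ∑ y ∈ R', ‖G' x y - G x y‖ ^ 4 := by
    unfold LaR KK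
    rw [Finset.mul_sum, Finset.mul_sum, ← Finset.sum_add_distrib]
    refine Finset.sum_le_sum fun y _ => ?_
    have e1 : ‖G' x y‖ ≤ ‖G x y‖ + ‖G' x y - G x y‖ := by
      have := norm_add_le (G x y) (G' x y - G x y)
      rwa [add_sub_cancel] at this
    have e2 : (‖G' x y‖ ^ 2) ^ 2 = ‖G' x y‖ ^ 4 := by ring
    have e3 : (‖G x y‖ ^ 2) ^ 2 = ‖G x y‖ ^ 4 := by ring
    rw [e2, e3]
    exact (pow_le_pow_left₀ (norm_nonneg _) e1 4).trans (young4 hζ hζ1)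
  have h4 : LaR G R' x ≤ LaR G R x := by
    unfold LaR
    exact Finset.sum_le_sum_of_subset_of_nonneg hR fun y _ _ => sq_nonneg _
  have h5 : 8 / ζ ^ 3 * ∑ y ∈ R', ‖G' x y - G x y‖ ^ 4 ≤ 8 * ζ * lam := by
    refine (mul_le_mul_of_nonneg_left (h2.trans hB) (by positivity)).trans (le_of_eq ?_)
    field_simp
  have h6 : (1 + 7 * ζ) * LaR G R' x ≤ LaR G R x + 14 * ζ * lam := by
    have h7 : (1 + 7 * ζ) * LaR G R' x ≤ (1 + 7 * ζ) * LaR G R x :=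
      mul_le_mul_of_nonneg_left h4 (by positivity)
    nlinarith only [hζ, h1, h7]
  linarith only [h3, h5, h6]

/-- the pair of block Y without virtual clocks -/
theorem yin_new {G G' : Matrix X X ℂ} {w : X → ℝ} {a : X} {ζ Cg m : ℝ}
    (hw : ∀ b, 0 ≤ w b) (hζ : 0 < ζ) (hζ1 : ζ ≤ 1)
    (h1 : ∑ b, w b * ‖G a b‖ ^ 2 ≤ Cg) (h2 : ∑ b, w b * ‖G' a b - G a b‖ ^ 2 ≤ m)
    (hm : m ≤ ζ ^ 2) :
    ‖vir (BB G') 0 w a‖ + vir (KK G') 0 w a ≤
      ‖vir (BB G) 0 w a‖ + vir (KK G) 0 w a + 2 * ζ * (Cg + 2) := by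
  have hv : ∀ G : Matrix X X ℂ, vir (BB G) 0 w a = ∑ b, G a b ^ 2 * ((w b : ℝ) : ℂ) :=
    fun G => H44.vir_zero (BB G) w a
  have hv' : ∀ G : Matrix X X ℂ, vir (KK G) 0 w a = ∑ b, ‖G a b‖ ^ 2 * w b :=
    fun G => H44.vir_zero (KK G) w a
  have key : ∑ b, w b * (‖G' a b - G a b‖ * (2 * ‖G a b‖ + ‖G' a b - G a b‖)) ≤ ζ * (Cg + 2) := by
    have h3 : ∀ b, w b * (‖G' a b - G a b‖ * (2 * ‖G a b‖ + ‖G' a b - G a b‖)) ≤
        ζ * (w b * ‖G a b‖ ^ 2) + (1 / ζ + 1) * (w b * ‖G' a b - G a b‖ ^ 2) := by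
      intro b
      have h4 : ‖G' a b - G a b‖ * (2 * ‖G a b‖ + ‖G' a b - G a b‖) ≤
          ζ * ‖G a b‖ ^ 2 + (1 / ζ + 1) * ‖G' a b - G a b‖ ^ 2 := by
        have := young2 (a := ‖G a b‖) (b := ‖G' a b - G a b‖) hζ
        nlinarith only [sq_nonneg ‖G' a b - G a b‖, this]
      have := mul_le_mul_of_nonneg_left h4 (hw b)
      linarith only [this]
    refine (Finset.sum_le_sum fun b _ => h3 b).trans ?_
    rw [Finset.sum_add_distrib, ← Finset.mul_sum, ← Finset.mul_sum]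
    have h5 := mul_le_mul_of_nonneg_left h1 hζ.le
    have h6 : (1 / ζ + 1) * ∑ b, w b * ‖G' a b - G a b‖ ^ 2 ≤ 2 * ζ := by
      refine (mul_le_mul_of_nonneg_left (h2.trans hm) (by positivity)).trans ?_
      have : (1 / ζ + 1) * ζ ^ 2 = ζ + ζ ^ 2 := by field_simp
      rw [this]
      nlinarith only [hζ, hζ1]
    linarith
  have hB : ‖vir (BB G') 0 w a‖ ≤ ‖vir (BB G) 0 w a‖ + ζ * (Cg + 2) := by
    rw [hv, hv]
    have e1 : ∑ b, G' a b ^ 2 * ((w b : ℝ) : ℂ) = ∑ b, G a b ^ 2 * ((w b : ℝ) : ℂ) +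
        ∑ b, (G' a b ^ 2 - G a b ^ 2) * ((w b : ℝ) : ℂ) := by
      rw [← Finset.sum_add_distrib]
      exact Finset.sum_congr rfl fun b _ => by ring
    rw [e1]
    refine (norm_add_le _ _).trans (add_le_add le_rfl ?_)
    refine (norm_sum_le _ _).trans (le_trans (Finset.sum_le_sum fun b _ => ?_) key)
    have e2 : (G' a b ^ 2 - G a b ^ 2) * ((w b : ℝ) : ℂ) =
        ((w b : ℝ) : ℂ) * ((G' a b - G a b) * (2 * G a b + (G' a b - G a b))) := by ring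
    rw [e2, norm_mul, norm_mul, Complex.norm_real, Real.norm_eq_abs, abs_of_nonneg (hw b)]
    refine mul_le_mul_of_nonneg_left (mul_le_mul_of_nonneg_left ?_ (norm_nonneg _)) (hw b)
    refine (norm_add_le _ _).trans (add_le_add (le_of_eq ?_) le_rfl)
    rw [norm_mul]
    norm_num
  have hK : vir (KK G') 0 w a ≤ vir (KK G) 0 w a + ζ * (Cg + 2) := by
    rw [hv', hv']
    have e1 : ∑ b, ‖G' a b‖ ^ 2 * w b ≤ ∑ b, (‖G a b‖ ^ 2 * w b +
        w b * (‖G' a b - G a b‖ * (2 * ‖G a b‖ + ‖G' a b - G a b‖))) := by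
      refine Finset.sum_le_sum fun b _ => ?_
      have e2 : ‖G' a b‖ ≤ ‖G a b‖ + ‖G' a b - G a b‖ := by
        have := norm_add_le (G a b) (G' a b - G a b)
        rwa [add_sub_cancel] at this
      have e3 := pow_le_pow_left₀ (norm_nonneg _) e2 2
      have e4 := mul_le_mul_of_nonneg_right e3 (hw b)
      refine e4.trans (le_of_eq ?_)
      ring
    refine e1.trans ?_
    rw [Finset.sum_add_distrib]
    linarith
  linarith

end pure

/-- the numbers for `ent`, `lar`, `yin` -/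
structure KN1 (k₀ c₀ lam icR lR yR tau Cg J₁ m₁ E₁ c η : ℝ) (ρ : ℕ) : Prop where
  hk : 0 < k₀
  hlam : 0 ≤ lam
  htau : 0 < tau ∧ tau ≤ 1
  hJ1 : 0 ≤ J₁
  hE1 : 0 ≤ E₁
  hCg : 0 ≤ Cg
  hrho : 0 < ρ
  heta : 0 < η ∧ η ≤ 1 ∧ η ≤ icR ∧ 22 * η ≤ lR ∧ 2 * η * (Cg + 2) ≤ yR * c₀ ∧ η ^ 8 ≤ k₀ * lam
  far : E₁ * Real.exp (-(c / 2 * ρ)) ≤ (η * tau) ^ 4 ∧ 8 ≤ c * ρ
  e : J₁ ≤ icR
  l : ∃ ζ : ℝ, 0 < ζ ∧ ζ ≤ 1 ∧ 22 * ζ ≤ lR ∧ J₁ ^ 2 * (m₁ / k₀) ≤ ζ ^ 4 * lam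
  y : ∃ ζ : ℝ, 0 < ζ ∧ ζ ≤ 1 ∧ 2 * ζ * (Cg + 2) ≤ yR * c₀ ∧ m₁ ≤ ζ ^ 2

variable {d μ : ℕ}

/-- the potential of the cluster at near and far sites, and the tail -/
theorem far_le {k₀ c₀ lam icR lR yR tau Cg J₁ m₁ E₁ c η : ℝ} {ρ : ℕ}
    (h : KN1 k₀ c₀ lam icR lR yR tau Cg J₁ m₁ E₁ c η ρ) {D : ℕ} (hD : ρ < D) :
    E₁ * Real.exp (-(c * D)) ≤ (η * (tau * Real.exp (-((D : ℝ) / ρ)))) ^ 4 := by
  have hρ : (0 : ℝ) < ρ := by exact_mod_cast h.hrho
  have hD' : (ρ : ℝ) ≤ D := by exact_mod_cast hD.le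
  obtain ⟨h1, h2⟩ := h.far
  have hc : 0 < c := by
    by_contra hc
    push Not at hc
    nlinarith only [h2, hc]
  have e1 : Real.exp (-(c * D)) ≤ Real.exp (-(c / 2 * ρ)) * Real.exp (-((D : ℝ) / ρ)) ^ 4 := by
    rw [← Real.exp_nat_mul, ← Real.exp_add]
    refine Real.exp_le_exp.2 ?_
    have e2 : ((4 : ℕ) : ℝ) * -((D : ℝ) / ρ) = -(4 * D / ρ) := by push_cast; ring
    rw [e2]
    have e3 : 4 * (D : ℝ) / ρ ≤ c / 2 * D := by
      rw [div_le_iff₀ hρ]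
      nlinarith only [(Nat.cast_nonneg D : (0 : ℝ) ≤ D), h2]
    nlinarith only [hρ, hD', h2, e3]
  calc E₁ * Real.exp (-(c * D)) ≤
      E₁ * (Real.exp (-(c / 2 * ρ)) * Real.exp (-((D : ℝ) / ρ)) ^ 4) :=
        mul_le_mul_of_nonneg_left e1 h.hE1
    _ = E₁ * Real.exp (-(c / 2 * ρ)) * Real.exp (-((D : ℝ) / ρ)) ^ 4 := by ring
    _ ≤ (η * tau) ^ 4 * Real.exp (-((D : ℝ) / ρ)) ^ 4 :=
        mul_le_mul_of_nonneg_right h1 (by positivity)
    _ = _ := by ring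

namespace Cx

variable {J₀ N₀ : ℕ} {l r : ℕ → ℕ} {V : Env d (2 ^ μ)} {b : Bud} {n : ℕ}
  {T₀ : Cfg (Tor d (2 ^ μ))} {run₀ P : Finset (Tor d (2 ^ μ))} {T : Cfg (Tor d (2 ^ μ))}
  {run Q : Finset (Tor d (2 ^ μ))} {v : Tor d (2 ^ μ) → ℝ} {T' : Cfg (Tor d (2 ^ μ))}
  {rk : ℕ} {J mm MM hK : ℝ}

/-- the potential of the new cluster -/
def pot (V : Env d (2 ^ μ)) (b : Bud) (n : ℕ) (Q : Finset (Tor d (2 ^ μ))) (x : Tor d (2 ^ μ)) :
    ℝ := Phi V.Γ (b.tau n) n (V.Γ.nbh Q (V.Γ.ρ n)) x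

theorem phi_eq (h : Cx J₀ N₀ l r V b n T₀ run₀ P T run Q v T' rk J mm MM hK)
    (x : Tor d (2 ^ μ)) : Phi V.Γ (b.tau n) n (P ∪ V.Γ.nbh Q (V.Γ.ρ n)) x =
      Phi V.Γ (b.tau n) n P x + pot V b n Q x :=
  H61.Phi_union V.Γ _ n P _ h.disj x

theorem pot_near (h : Cx J₀ N₀ l r V b n T₀ run₀ P T run Q v T' rk J mm MM hK)
    (hτ : 0 ≤ b.tau n) {x : Tor d (2 ^ μ)} (hx : x ∈ V.Γ.nbh Q (V.Γ.ρ n)) : 1 ≤ pot V b n Q x :=
  H61.one_le_Phi V.Γ _ hτ n _ x hx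

theorem pot_far (h : Cx J₀ N₀ l r V b n T₀ run₀ P T run Q v T' rk J mm MM hK)
    (hτ : 0 ≤ b.tau n) {q : Tor d (2 ^ μ)} (hq : q ∈ Q) (x : Tor d (2 ^ μ)) :
    b.tau n * Real.exp (-((V.Γ.D x q : ℝ) / V.Γ.ρ n)) ≤ pot V b n Q x := by
  refine H61.exp_le_Phi V.Γ _ hτ n _ x q ?_
  exact mem_nbh.2 ⟨q, hq, by rw [h.geo.self]; exact Nat.zero_le _⟩

/-- the clocks of the running sites -/
theorem run_clk (h : Cx J₀ N₀ l r V b n T₀ run₀ P T run Q v T' rk J mm MM hK)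
    {x : Tor d (2 ^ μ)} (hx : x ∈ run) : T.s x = V.cl (V.kk (n + 1)) := by
  have h1 := h.fc.runs x hx
  rwa [if_neg (Finset.notMem_empty x)] at h1

theorem mem_run' {x : Tor d (2 ^ μ)} : x ∈ run.filter (fun x => T'.s x ≠ 0) ↔
    x ∈ run ∧ T'.s x ≠ 0 := Finset.mem_filter

theorem run'_al {x : Tor d (2 ^ μ)} (hx : x ∈ run.filter (fun x => T'.s x ≠ 0)) : x ∈ Al T' :=
  H16.mem_al.2 (pos_iff_ne_zero.2 (Finset.mem_filter.1 hx).2)

variable {Cg J₁ m₁ E₁ c η k₀ : ℝ}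

/-- the tail at a far site, linear in the potential -/
theorem far_pot (h : Cx J₀ N₀ l r V b n T₀ run₀ P T run Q v T' rk J mm MM hK)
    {c₀ lam icR lR yR : ℝ}
    (hN : KN1 k₀ c₀ lam icR lR yR (b.tau n) Cg J₁ m₁ E₁ c η (V.Γ.ρ n)) {x q : Tor d (2 ^ μ)}
    (hq : q ∈ Q) (hD : V.Γ.ρ n < V.Γ.D x q) :
    ∃ ω : ℝ, 0 < ω ∧ ω ≤ 1 ∧ ω ≤ η ∧ ω ≤ η * pot V b n Q x ∧
      E₁ * Real.exp (-(c * V.Γ.D x q)) ≤ ω ^ 4 := by
  obtain ⟨h1, h2, -⟩ := hN.heta
  obtain ⟨h3, h4⟩ := hN.htau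
  have h5 := Real.exp_pos (-((V.Γ.D x q : ℝ) / V.Γ.ρ n))
  have h6 : Real.exp (-((V.Γ.D x q : ℝ) / V.Γ.ρ n)) ≤ 1 := by
    rw [Real.exp_le_one_iff]
    have : 0 ≤ (V.Γ.D x q : ℝ) / V.Γ.ρ n := by positivity
    linarith only [this]
  have h7 : b.tau n * Real.exp (-((V.Γ.D x q : ℝ) / V.Γ.ρ n)) ≤ 1 := by nlinarith only [h3, h4, h6]
  refine ⟨η * (b.tau n * Real.exp (-((V.Γ.D x q : ℝ) / V.Γ.ρ n))), by positivity, ?_, ?_, ?_,
    far_le hN hD⟩
  · nlinarith only [mul_pos h3 h5, h1, h2, h7]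
  · nlinarith only [mul_pos h3 h5, h1, h7]
  · exact mul_le_mul_of_nonneg_left (h.pot_far h3.le hq x) h1.le

/-- field `ent` of `Rl` -/
theorem ent' (h : Cx J₀ N₀ l r V b n T₀ run₀ P T run Q v T' rk J mm MM hK)
    (hP : Pk V n T T' Q J₁ m₁ E₁ c) {c₀ lam lR yR : ℝ}
    (hN : KN1 k₀ c₀ lam (b.icR n) lR yR (b.tau n) Cg J₁ m₁ E₁ c η (V.Γ.ρ n)) :
    ∀ x ∈ Al T', ∀ y ∈ Al T', ‖net V.E V.e₀ T' x y - net V.E V.e₀ T₀ x y‖ ≤
      b.icR n * Phi V.Γ (b.tau n) n (P ∪ V.Γ.nbh Q (V.Γ.ρ n)) x := by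
  intro x hx y hy
  have h1 := h.rl.ent x (h.al_sub hx) y (h.al_sub hy)
  rw [h.phi_eq, mul_add]
  have h2 : ‖net V.E V.e₀ T' x y - net V.E V.e₀ T₀ x y‖ ≤
      ‖net V.E V.e₀ T' x y - net V.E V.e₀ T x y‖ +
      ‖net V.E V.e₀ T x y - net V.E V.e₀ T₀ x y‖ := by
    have := norm_add_le (net V.E V.e₀ T' x y - net V.E V.e₀ T x y)
      (net V.E V.e₀ T x y - net V.E V.e₀ T₀ x y)
    rwa [sub_add_sub_cancel] at this
  have h3 : ‖net V.E V.e₀ T' x y - net V.E V.e₀ T x y‖ ≤ b.icR n * pot V b n Q x := by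
    obtain ⟨e1, e2, e3, -⟩ := hN.heta
    by_cases hn : x ∈ V.Γ.nbh Q (V.Γ.ρ n)
    · have h4 := (hP.near x hx hn).1 y hy
      have h5 := h.pot_near hN.htau.1.le hn
      have h6 := hN.e
      have h7 : 0 ≤ b.icR n := by linarith
      nlinarith only [e1, e3, h4, h5, h6]
    · obtain ⟨q, hq, hD, h4, -⟩ := hP.far x hx hn
      obtain ⟨ω, w1, w2, w3, w4, w5⟩ := h.far_pot hN hq hD
      have h5 := (h4 y hy).trans w5
      have h6 : ω ^ 4 ≤ ω := by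
        have := pow_le_pow_of_le_one w1.le w2 (show 1 ≤ 4 by norm_num)
        simpa using this
      have h7 : 0 ≤ pot V b n Q x := by nlinarith only [e1, w1, w4]
      have h8 : η * pot V b n Q x ≤ b.icR n * pot V b n Q x := mul_le_mul_of_nonneg_right e3 h7
      linarith only [w4, h5, h6, h8]
  linarith

/-- the fourth powers of the change -/
theorem four (h : Cx J₀ N₀ l r V b n T₀ run₀ P T run Q v T' rk J mm MM hK)
    (hk : 0 < k₀) (hk₀ : k₀ ≤ (V.cl (V.kk (n + 1)) : ℝ) * V.c₀) {x : Tor d (2 ^ μ)} {J' m' : ℝ}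
    (hJ' : 0 ≤ J')
    (h1 : ∀ y ∈ Al T', ‖net V.E V.e₀ T' x y - net V.E V.e₀ T x y‖ ≤ J')
    (h2 : ∑ y ∈ Al T', kap V.e₀ T y * ‖net V.E V.e₀ T' x y - net V.E V.e₀ T x y‖ ^ 2 ≤ m') :
    ∑ y ∈ run.filter (fun x => T'.s x ≠ 0),
      ‖net V.E V.e₀ T' x y - net V.E V.e₀ T x y‖ ^ 4 ≤ J' ^ 2 * (m' / k₀) := by
  have h3 : ∑ y ∈ run.filter (fun x => T'.s x ≠ 0),
      ‖net V.E V.e₀ T' x y - net V.E V.e₀ T x y‖ ^ 4 ≤
      ∑ y ∈ Al T', J' ^ 2 / k₀ * (kap V.e₀ T y *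
        ‖net V.E V.e₀ T' x y - net V.E V.e₀ T x y‖ ^ 2) := by
    refine le_trans (Finset.sum_le_sum fun y hy => ?_)
      (Finset.sum_le_sum_of_subset_of_nonneg (s := run.filter (fun x => T'.s x ≠ 0))
        (fun y hy => run'_al hy) fun y _ _ => ?_)
    · have hyA := run'_al hy
      have e1 := pow_le_pow_left₀ (norm_nonneg _) (h1 y hyA) 2
      have e2 : k₀ ≤ kap V.e₀ T y := hk₀.trans (h.kap_ge (h.al_sub hyA))
      have e3 : ‖net V.E V.e₀ T' x y - net V.E V.e₀ T x y‖ ^ 4 =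
          ‖net V.E V.e₀ T' x y - net V.E V.e₀ T x y‖ ^ 2 *
          ‖net V.E V.e₀ T' x y - net V.E V.e₀ T x y‖ ^ 2 := by ring
      rw [e3]
      refine (mul_le_mul_of_nonneg_right e1 (sq_nonneg _)).trans ?_
      have e4 : J' ^ 2 * ‖net V.E V.e₀ T' x y - net V.E V.e₀ T x y‖ ^ 2 =
          J' ^ 2 / k₀ * (k₀ * ‖net V.E V.e₀ T' x y - net V.E V.e₀ T x y‖ ^ 2) := by
        field_simp
      rw [e4]
      exact mul_le_mul_of_nonneg_left (mul_le_mul_of_nonneg_right e2 (sq_nonneg _))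
        (by positivity)
    · have := h.kap_pos y
      positivity
  refine h3.trans ?_
  rw [← Finset.mul_sum]
  refine (mul_le_mul_of_nonneg_left h2 (by positivity)).trans (le_of_eq ?_)
  ring

/-- field `lar` of `Rl` -/
theorem lar' (h : Cx J₀ N₀ l r V b n T₀ run₀ P T run Q v T' rk J mm MM hK)
    (hk₀ : k₀ ≤ (V.cl (V.kk (n + 1)) : ℝ) * V.c₀)
    (hP : Pk V n T T' Q J₁ m₁ E₁ c) {c₀ icR yR : ℝ}
    (hN : KN1 k₀ c₀ (b.q n (V.kk (n + 1))).lam icR (b.lR n) yR (b.tau n) Cg J₁ m₁ E₁ c η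
      (V.Γ.ρ n))
    (hΦ : ∀ x, b.lR n * Phi V.Γ (b.tau n) n P x ≤ 1) :
    ∀ x ∈ Al T', LaR (net V.E V.e₀ T') (run.filter fun x => T'.s x ≠ 0) x ≤
      (b.q n (V.kk (n + 1))).lam *
        (1 + b.lR n * Phi V.Γ (b.tau n) n (P ∪ V.Γ.nbh Q (V.Γ.ρ n)) x) := by
  intro x hx
  set lam := (b.q n (V.kk (n + 1))).lam with hlam
  have hl0 : 0 ≤ lam := hN.hlam
  have h1 := h.rl.lar x (h.al_sub hx)
  have h2 : LaR (net V.E V.e₀ T) run x ≤ 2 * lam := by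
    refine h1.trans ?_
    have := hΦ x
    nlinarith only [hl0, this]
  obtain ⟨e1, e2, e3, e4, e5, e6⟩ := hN.heta
  have key : ∃ ζ : ℝ, 22 * ζ * lam ≤ lam * (b.lR n * pot V b n Q x) ∧
      LaR (net V.E V.e₀ T') (run.filter fun x => T'.s x ≠ 0) x ≤
        LaR (net V.E V.e₀ T) run x + 22 * ζ * lam := by
    by_cases hn : x ∈ V.Γ.nbh Q (V.Γ.ρ n)
    · obtain ⟨ζ, z1, z2, z3, z4⟩ := hN.l
      obtain ⟨p1, p2⟩ := hP.near x hx hn
      refine ⟨ζ, ?_, ?_⟩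
      · have h5 := h.pot_near hN.htau.1.le hn
        have h6 : 22 * ζ ≤ b.lR n * pot V b n Q x := by nlinarith only [e1, e4, z3, h5]
        nlinarith only [hl0, h6]
      · exact lar_new (Finset.filter_subset _ _) z1 z2 h2 (h.four hN.hk hk₀ hN.hJ1 p1 p2) z4
    · obtain ⟨q, hq, hD, p1, p2⟩ := hP.far x hx hn
      obtain ⟨ω, w1, w2, w3, w4, w5⟩ := h.far_pot hN hq hD
      refine ⟨ω, ?_, ?_⟩
      · have h7 : 0 ≤ pot V b n Q x := by nlinarith only [e1, w1, w4]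
        have h6 : 22 * ω ≤ b.lR n * pot V b n Q x := by nlinarith only [e1, e4, w1, w4]
        nlinarith only [hl0, h6]
      · refine lar_new (Finset.filter_subset _ _) w1 w2 h2
          (h.four hN.hk hk₀ (by positivity : 0 ≤ ω ^ 4) (fun y hy => (p1 y hy).trans w5)
            (p2.trans w5)) ?_
        have hk := hN.hk
        have h8 : (ω ^ 4) ^ 2 * (ω ^ 4 / k₀) = ω ^ 4 * (ω ^ 8 / k₀) := by ring
        rw [h8]
        refine mul_le_mul_of_nonneg_left ?_ (by positivity)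
        rw [div_le_iff₀ hk, mul_comm lam]
        exact (pow_le_pow_left₀ w1.le w3 8).trans e6
  obtain ⟨ζ, k1, k2⟩ := key
  rw [h.phi_eq]
  have h9 : lam * (1 + b.lR n * (Phi V.Γ (b.tau n) n P x + pot V b n Q x)) =
      lam * (1 + b.lR n * Phi V.Γ (b.tau n) n P x) + lam * (b.lR n * pot V b n Q x) := by ring
  rw [h9]
  linarith

/-- field `yin` of `Rl` -/
theorem yin' (hC : CmpStmt) (hX : VexStmt) (hVF : VfrStmt)
    (h : Cx J₀ N₀ l r V b n T₀ run₀ P T run Q v T' rk J mm MM hK)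
    (hP : Pk V n T T' Q J₁ m₁ E₁ c) {lam icR lR : ℝ}
    (hN : KN1 k₀ V.c₀ lam icR lR (b.yR n) (b.tau n) Cg J₁ m₁ E₁ c η (V.Γ.ρ n))
    (hyR : 0 ≤ b.yR n)
    (hCg : ∀ a ∈ run, (net V.E V.e₀ T a a).im ≤ Cg) :
    ∀ a ∈ run.filter (fun x => T'.s x ≠ 0),
      yy V.E V.e₀ T' (run.filter fun x => T'.s x ≠ 0) (V.cl (V.kk (n + 1))) a ≤
      (1 + (b.q n (V.kk (n + 1))).tht +
        b.yR n * Phi V.Γ (b.tau n) n (P ∪ V.Γ.nbh Q (V.Γ.ρ n)) a) * gg T' a := by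
  intro a ha
  set R' := run.filter fun x => T'.s x ≠ 0 with hR'
  set s : ℝ := (V.cl (V.kk (n + 1)) : ℝ) with hs
  have hs0 : 0 ≤ s := NNReal.coe_nonneg _
  have haA := run'_al ha
  have har : a ∈ run := (Finset.mem_filter.1 ha).1
  have hR : R' ⊆ run := Finset.filter_subset _ _
  have hrs : ∀ x ∈ run, (T.s x : ℝ) = s := fun x hx => by rw [h.run_clk hx]
  have hrs' : ∀ x ∈ R', (T'.s x : ℝ) = s := fun x hx => by
    rw [(h.same (h.alive_not (run'_al hx))).2.1]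
    exact hrs x (hR hx)
  have hgr : ∀ a ∈ run, 0 < gg T a := fun a ha => h.gpos a (h.rl.sub.2 ha)
  have h1 := h.rl.yin a har
  -- freezing
  have h2 : yy V.E V.e₀ T R' s a ≤ yy V.E V.e₀ T run s a := by
    refine H16.yy_mono hC hX hVF (ρ := 0) hR hs0 hgr (fun x hx => (hrs x hx).ge)
      ⟨le_rfl, one_pos⟩ (fun a _ => ?_) a har
    rw [H16.pv_zero hrs]
    simp
  -- the new matrix
  have hw : pw T' R' s = pw T R' s := by
    funext x
    unfold pw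
    rw [h.gg_eq]
  have hw0 : ∀ x, 0 ≤ pw T R' s x := by
    intro x
    unfold pw ind
    by_cases hx : x ∈ R'
    · rw [if_pos hx, one_mul]
      exact mul_nonneg hs0 (hgr x (hR hx)).le
    · rw [if_neg hx, zero_mul]
  have hwk : ∀ x, pw T R' s x ≤ kap V.e₀ T x := by
    intro x
    unfold pw ind
    by_cases hx : x ∈ R'
    · rw [if_pos hx, one_mul]
      unfold kap
      rw [hrs x (hR hx)]
      have : (T.mb x).im = gg T x := rfl
      rw [this]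
      linarith [h.e0]
    · rw [if_neg hx, zero_mul]
      exact (h.kap_pos x).le
  have hward : ∑ x, pw T R' s x * ‖net V.E V.e₀ T a x‖ ^ 2 ≤ Cg := by
    refine le_trans (le_of_eq ?_) ((H16.flux_le V.E h.e0 h.gpos a (pw T R' s) hwk).trans
      (hCg a har))
    refine Finset.sum_congr rfl fun x _ => ?_
    unfold KK
    ring
  have hmass : ∀ m', ∑ y ∈ Al T', kap V.e₀ T y *
      ‖net V.E V.e₀ T' a y - net V.E V.e₀ T a y‖ ^ 2 ≤ m' →
      ∑ x, pw T R' s x * ‖net V.E V.e₀ T' a x - net V.E V.e₀ T a x‖ ^ 2 ≤ m' := by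
    intro m' hm
    refine le_trans ?_ hm
    rw [← Finset.sum_subset (Finset.subset_univ (Al T')) fun x _ hx => ?_]
    · exact Finset.sum_le_sum fun x _ => mul_le_mul_of_nonneg_right (hwk x) (sq_nonneg _)
    · have : x ∉ R' := fun hxR => hx (run'_al hxR)
      unfold pw ind
      rw [if_neg this, zero_mul, zero_mul]
  have h3 : yy V.E V.e₀ T' R' s a = ‖vir (BB (net V.E V.e₀ T')) 0 (pw T R' s) a‖ +
      vir (KK (net V.E V.e₀ T')) 0 (pw T R' s) a := by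
    unfold yy
    rw [H16.pv_zero hrs', hw]
  have h4 : yy V.E V.e₀ T R' s a = ‖vir (BB (net V.E V.e₀ T)) 0 (pw T R' s) a‖ +
      vir (KK (net V.E V.e₀ T)) 0 (pw T R' s) a := by
    unfold yy
    rw [H16.pv_zero fun x hx => hrs x (hR hx)]
  obtain ⟨e1, e2, e3, e4, e5, e6⟩ := hN.heta
  have hg : V.c₀ ≤ gg T a := (h.gau a (h.rl.sub.2 har)).1
  have key : yy V.E V.e₀ T' R' s a ≤ yy V.E V.e₀ T R' s a +
      b.yR n * pot V b n Q a * gg T a := by
    rw [h3, h4]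
    by_cases hn : a ∈ V.Γ.nbh Q (V.Γ.ρ n)
    · obtain ⟨ζ, z1, z2, z3, z4⟩ := hN.y
      obtain ⟨p1, p2⟩ := hP.near a haA hn
      refine (yin_new hw0 z1 z2 hward (hmass m₁ p2) z4).trans (add_le_add le_rfl ?_)
      have h5 := h.pot_near hN.htau.1.le hn
      have h6 : b.yR n * V.c₀ ≤ b.yR n * gg T a := mul_le_mul_of_nonneg_left hg hyR
      have h7 : 0 ≤ b.yR n * gg T a := mul_nonneg hyR (hgr a har).le
      nlinarith only [z3, h5, h6, h7]
    · obtain ⟨q, hq, hD, p1, p2⟩ := hP.far a haA hn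
      obtain ⟨ω, w1, w2, w3, w4, w5⟩ := h.far_pot hN hq hD
      refine (yin_new hw0 w1 w2 hward (hmass _ (p2.trans w5)) ?_).trans
        (add_le_add le_rfl ?_)
      · exact pow_le_pow_of_le_one w1.le w2 (by norm_num)
      · have h7 : 0 ≤ pot V b n Q a := by nlinarith only [e1, w1, w4]
        have h8 : 2 * ω * (Cg + 2) ≤ 2 * (η * pot V b n Q a) * (Cg + 2) := by
          have := hN.hCg
          have : 0 ≤ Cg + 2 := by linarith only [this]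
          nlinarith
        have h9 : 2 * (η * pot V b n Q a) * (Cg + 2) =
            pot V b n Q a * (2 * η * (Cg + 2)) := by ring
        have h10 := mul_le_mul_of_nonneg_left e5 h7
        have h11 : pot V b n Q a * (b.yR n * V.c₀) ≤ b.yR n * pot V b n Q a * gg T a := by
          have : b.yR n * pot V b n Q a * V.c₀ ≤ b.yR n * pot V b n Q a * gg T a :=
            mul_le_mul_of_nonneg_left hg (mul_nonneg hyR h7)
          linarith only [this]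
        linarith only [h8, h10, h11]
  rw [h.phi_eq, h.gg_eq]
  have h12 : (1 + (b.q n (V.kk (n + 1))).tht +
      b.yR n * (Phi V.Γ (b.tau n) n P a + pot V b n Q a)) * gg T a =
      (1 + (b.q n (V.kk (n + 1))).tht + b.yR n * Phi V.Γ (b.tau n) n P a) * gg T a +
      b.yR n * pot V b n Q a * gg T a := by ring
  rw [h12]
  linarith only [h1, h2, key]

end Cx

end Pool.Agent.KL2
end
end -- Pool.Agent.Helper34_KL2.LY

section -- Pool.Agent.Helper34_KL2.Frm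

/-!
# The form after the kill and release of a cluster
-/

set_option autoImplicit false

open scoped BigOperators NNReal Matrix

noncomputable section

namespace Pool.Agent.KL2

open Pool.Agent.BED (Tor)
open Pool.Agent.AND2B (net kap Gt Hr Vef res)
open Pool.Agent.ANP (Cfg Geo Fc)
open Pool.Agent.AFJ (ind LaR EE)
open Pool.Agent.LE.QF (BB KK Dl)
open Pool.Agent.ANR (Gr cE fl CutStmt)
open Pool.Agent.LTG (Fm Bd sT tT qd)
open Pool.Agent.CTC (CT fac)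
open Pool.Agent.AHH

section form

variable {X : Type} [Fintype X] [DecidableEq X]

/-- the two notations for the form -/
theorem qd_ee (G : Matrix X X ℂ) (κ : X → ℝ) (A : Finset X) (hs : ∀ x y, G x y = G y x)
    (f : X → ℝ) : qd (EE G κ A) f = cE G κ A f := by
  set K := AFJ.cd G κ A with hK
  have hKs : ∀ x y, K x y = K y x := by
    intro x y
    rw [hK]
    unfold AFJ.cd KK
    rw [hs x y]
    by_cases h : x ∈ A ∧ y ∈ A
    · rw [if_pos h, if_pos h.symm]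
      ring
    · rw [if_neg h, if_neg fun h' => h h'.symm]
  have h1 : ∀ a, ((EE G κ A).mulVec f) a = ∑ b, K a b * (f a - f b) := by
    intro a
    unfold EE Dl Matrix.mulVec dotProduct
    simp only [Matrix.sub_apply, Matrix.diagonal_apply]
    have : ∀ b, ((if a = b then ∑ c, K a c else 0) - K a b) * f b =
        (if a = b then (∑ c, K a c) * f b else 0) - K a b * f b := by
      intro b
      split <;> ring
    rw [Finset.sum_congr rfl fun b _ => this b, Finset.sum_sub_distrib, Finset.sum_ite_eq,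
      if_pos (Finset.mem_univ _), Finset.sum_mul, ← Finset.sum_sub_distrib]
    exact Finset.sum_congr rfl fun b _ => by ring
  have h2 : qd (EE G κ A) f = ∑ a, ∑ b, K a b * (f a * (f a - f b)) := by
    unfold qd
    refine Finset.sum_congr rfl fun a _ => ?_
    rw [h1, Finset.mul_sum]
    exact Finset.sum_congr rfl fun b _ => by ring
  have h3 : ∑ a, ∑ b, K a b * (f a * (f a - f b)) =
      ∑ a, ∑ b, K a b * (f b * (f b - f a)) := by
    rw [Finset.sum_comm]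
    exact Finset.sum_congr rfl fun a _ => Finset.sum_congr rfl fun b _ => by rw [hKs]
  have h4 : 2 * qd (EE G κ A) f = ∑ a, ∑ b, K a b * (f a - f b) ^ 2 := by
    have : 2 * qd (EE G κ A) f = ∑ a, ∑ b, K a b * (f a * (f a - f b)) +
        ∑ a, ∑ b, K a b * (f b * (f b - f a)) := by
      rw [← h3, ← h2]; ring
    rw [this, ← Finset.sum_add_distrib]
    refine Finset.sum_congr rfl fun a _ => ?_
    rw [← Finset.sum_add_distrib]
    exact Finset.sum_congr rfl fun b _ => by ring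
  have h5 : ∑ a, ∑ b, K a b * (f a - f b) ^ 2 =
      ∑ x ∈ A, ∑ y ∈ A, κ x * κ y * ‖G x y‖ ^ 2 * (f x - f y) ^ 2 := by
    symm
    rw [← Finset.sum_subset (Finset.subset_univ A) (f := fun a => ∑ b, K a b * (f a - f b) ^ 2)]
    · refine Finset.sum_congr rfl fun x hx => ?_
      rw [← Finset.sum_subset (Finset.subset_univ A) (f := fun b => K x b * (f x - f b) ^ 2)]
      · refine Finset.sum_congr rfl fun y hy => ?_
        have : K x y = κ x * κ y * ‖G x y‖ ^ 2 := by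
          rw [hK]
          unfold AFJ.cd KK
          rw [if_pos ⟨hx, hy⟩]
        rw [this]
      · intro y _ hy
        have : K x y = 0 := if_neg fun h => hy h.2
        rw [this, zero_mul]
    · intro x _ hx
      refine Finset.sum_eq_zero fun y _ => ?_
      have : K x y = 0 := if_neg fun h => hx h.1
      rw [this, zero_mul]
  unfold cE
  rw [← h5, ← h4]
  ring

/-- the form only depends on the absorption at the nodes -/
theorem cE_kap (G : Matrix X X ℂ) {κ κ' : X → ℝ} {A : Finset X} (h : ∀ x ∈ A, κ x = κ' x)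
    (f : X → ℝ) : cE G κ A f = cE G κ' A f := by
  unfold cE
  congr 1
  exact Finset.sum_congr rfl fun x hx => Finset.sum_congr rfl fun y hy => by rw [h x hx, h y hy]

end form

theorem fm_congr {d M : ℕ} [NeZero M] {A : Finset (Tor d M)} {w w' εl εu : Tor d M → ℝ}
    {bl bu : Bd d M → ℝ} {F F' : (Tor d M → ℝ) → ℝ} (hw : ∀ x ∈ A, w x = w' x)
    (hF : ∀ f, F f = F' f) (h : Fm sT tT A w εl εu bl bu F) : Fm sT tT A w' εl εu bl bu F' := by
  have e1 : F = F' := funext hF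
  have e2 : LTG.wl A w εl = LTG.wl A w' εl := by
    funext x
    unfold LTG.wl
    by_cases hx : x ∈ A
    · rw [if_pos hx, if_pos hx, hw x hx]
    · rw [if_neg hx, if_neg hx]
  have e3 : LTG.wu A w εu = LTG.wu A w' εu := by
    funext x
    unfold LTG.wu
    by_cases hx : x ∈ A
    · rw [if_pos hx, if_pos hx, hw x hx]
    · rw [if_neg hx, if_neg hx]
  exact ⟨by rw [← e1, ← e2]; exact h.lb, by rw [← e1, ← e3]; exact h.ub⟩

end Pool.Agent.KL2
end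
end -- Pool.Agent.Helper34_KL2.Frm

section -- Pool.Agent.Helper34_KL2.Ins

/-!
# The instance of `KF`
-/

set_option autoImplicit false

open scoped BigOperators NNReal Matrix

noncomputable section

namespace Pool.Agent.KL2

open Pool.Agent.BED (Tor)
open Pool.Agent.AND2B (net kap Gt Hr Vef res)
open Pool.Agent.ANP (Cfg Geo Fc)
open Pool.Agent.AFJ (ind LaR EE)
open Pool.Agent.LE.QF (BB KK Dl)
open Pool.Agent.ANR (Gr cE fl CutStmt)
open Pool.Agent.LTG (Fm Bd sT tT qd)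
open Pool.Agent.CTC (CT fac)
open Pool.Agent.AHH

variable {d μ : ℕ}

/-- the numbers for the form. `s` the clock, `κR` bounds the absorption of the running sites, `nQ`, `nK`,
`nS` the numbers of sites of `Q`, `K`, `Q ∪ K`, `2 ^ (k + 2)` the radius, `t` the linking distance. -/
structure KN2 (d n : ℕ) (Dn : ℕ → ℕ) (μ k t rk nS : ℕ)
    (s c₀ C₀ e₀ lam Cg k₀ β κR nQ nK W₁ Wt mm MM hK θ δ T θ₁ δ₁ T₁ : ℝ) : Prop where
  hd : 1 ≤ d
  hM : k + 2 ≤ μ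
  hrk : rk ≤ t
  geo : nS * t + t + 1 ≤ 2 ^ k
  hc : 0 < c₀
  hlam : 0 ≤ lam
  hCg : 0 ≤ Cg
  nn : 0 ≤ nQ ∧ 0 ≤ nK ∧ 0 ≤ hK ∧ 0 ≤ mm
  hk₀ : k₀ = s * c₀ ∧ 0 < k₀ ∧ k₀ ≤ 1
  hβ : β = k₀ / (8 * d)
  hκ : e₀ + s * C₀ ≤ κR
  hW₁ : 16 * Real.exp (2 * β * Zc d n fun j => 2 * Dn j) ≤ W₁
  e1 : (nS : ℝ) * (W₁ * Real.exp (-(β / 2 * 2 ^ k))) ≤ Wt
  e2 : 6 * W₁ * Real.exp (-(β / 12 * t)) ≤ Wt
  /-- the flux into `S` of a near site is at most `nQ hK + κR √(nK · 2 lam)` -/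
  f1 : κR * (nQ * hK + κR * Real.sqrt (nK * (2 * lam))) ≤ θ₁ ∧
    nQ * hK + κR * Real.sqrt (nK * (2 * lam)) ≤ δ₁ * c₀
  f2 : (nS : ℝ) * (W₁ * Real.exp (-(β * t))) ≤ θ₁ ∧
    (nS : ℝ) * (W₁ * Real.exp (-(β * t))) ≤ δ₁ * (k₀ * c₀)
  f3 : nQ + κR * Cg * nK ≤ T₁
  m2 : κR * mm ≤ θ ∧ mm ≤ δ * c₀
  m3 : MM ≤ T

theorem zc_mono {d n : ℕ} (Dn : ℕ → ℕ) : Zc d n Dn ≤ Zc d n fun j => 2 * Dn j := by
  unfold Zc
  have : ∑ i ∈ Finset.range (n + 1), (3 ^ d * Dn i : ℝ) ≤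
      ∑ i ∈ Finset.range (n + 1), (3 ^ d * ((2 * Dn i : ℕ) : ℝ)) := by
    refine Finset.sum_le_sum fun i _ => ?_
    push_cast
    have h1 : (0 : ℝ) ≤ 3 ^ d * Dn i := by positivity
    nlinarith
  linarith

namespace Cx

variable {J₀ N₀ : ℕ} {l r : ℕ → ℕ} {V : Env d (2 ^ μ)} {b : Bud} {n : ℕ}
  {T₀ : Cfg (Tor d (2 ^ μ))} {run₀ P : Finset (Tor d (2 ^ μ))} {T : Cfg (Tor d (2 ^ μ))}
  {run Q : Finset (Tor d (2 ^ μ))} {v : Tor d (2 ^ μ) → ℝ} {T' : Cfg (Tor d (2 ^ μ))}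
  {rk : ℕ} {J mm MM hK : ℝ}

/-- the mass of the change near `Q` -/
def ms (V : Env d (2 ^ μ)) (n : ℕ) (T T' : Cfg (Tor d (2 ^ μ))) (run Q : Finset (Tor d (2 ^ μ)))
    (x : Tor d (2 ^ μ)) : ℝ :=
  ∑ y ∈ Rs V n run Q T', kap V.e₀ T y * ‖net V.E V.e₀ T' x y - net V.E V.e₀ T x y‖ ^ 2

theorem net_symm (h : Cx J₀ N₀ l r V b n T₀ run₀ P T run Q v T' rk J mm MM hK)
    (x y : Tor d (2 ^ μ)) : net V.E V.e₀ T x y = net V.E V.e₀ T y x :=
  (ANR.H89.hGeq _ _ _ (H16.net_net V.E h.e0 h.gpos)).2.1 x y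

theorem net_symm' (h : Cx J₀ N₀ l r V b n T₀ run₀ P T run Q v T' rk J mm MM hK)
    (x y : Tor d (2 ^ μ)) : net V.E V.e₀ T' x y = net V.E V.e₀ T' y x :=
  (ANR.H89.hGeq _ _ _ (H16.net_net V.E h.e0 h.gpos')).2.1 x y

/-- the absorption of the running sites -/
theorem kap_run (h : Cx J₀ N₀ l r V b n T₀ run₀ P T run Q v T' rk J mm MM hK)
    {x : Tor d (2 ^ μ)} (hx : x ∈ run) :
    kap V.e₀ T x ≤ V.e₀ + (V.cl (V.kk (n + 1)) : ℝ) * V.C₀ := by
  unfold kap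
  rw [h.run_clk hx]
  have h1 := (h.gau x (h.rl.sub.2 hx)).2.1
  have h2 := (le_abs_self _).trans ((Complex.abs_im_le_norm (T.mb x)).trans h1)
  have h3 := mul_le_mul_of_nonneg_left h2 (NNReal.coe_nonneg (V.cl (V.kk (n + 1))))
  linarith

/-- the diagonal at the running sites -/
theorem im_run (h : Cx J₀ N₀ l r V b n T₀ run₀ P T run Q v T' rk J mm MM hK)
    {x : Tor d (2 ^ μ)} (hx : x ∈ run) : (net V.E V.e₀ T x x).im ≤
      V.C₀ + (b.q n (V.kk (n + 1))).mis + b.icR n * Phi V.Γ (b.tau n) n P x := by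
  have hA := h.rl.sub.2 hx
  have h1 := h.rl.ent x hA x hA
  have h2 := h.rl.st0.mis x (h.rl.sub.1 hx)
  have h3 := (h.gau x hA).2.1
  rw [h.rl.mb] at h3
  have h4 : ‖net V.E V.e₀ T x x‖ ≤ ‖net V.E V.e₀ T x x - net V.E V.e₀ T₀ x x‖ +
      (‖net V.E V.e₀ T₀ x x - T₀.mb x‖ + ‖T₀.mb x‖) := by
    have e1 : net V.E V.e₀ T x x = (net V.E V.e₀ T x x - net V.E V.e₀ T₀ x x) +
      ((net V.E V.e₀ T₀ x x - T₀.mb x) + T₀.mb x) := by ring
    calc ‖net V.E V.e₀ T x x‖ = ‖(net V.E V.e₀ T x x - net V.E V.e₀ T₀ x x) +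
      ((net V.E V.e₀ T₀ x x - T₀.mb x) + T₀.mb x)‖ := by rw [← e1]
      _ ≤ _ := (norm_add_le _ _).trans (add_le_add le_rfl (norm_add_le _ _))
  have h5 := (le_abs_self _).trans (Complex.abs_im_le_norm (net V.E V.e₀ T x x))
  linarith only [h1, h2, h3, h4, h5]

theorem ww_ge (h : Cx J₀ N₀ l r V b n T₀ run₀ P T run Q v T' rk J mm MM hK)
    {x : Tor d (2 ^ μ)} (hx : x ∈ Al T) :
    (V.cl (V.kk (n + 1)) : ℝ) * V.c₀ * V.c₀ ≤ ww V.e₀ T x := by
  unfold ww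
  exact mul_le_mul (h.kap_ge hx) (h.gau x hx).1 h.c0.le (h.kap_pos x).le

theorem near_Q (h : Cx J₀ N₀ l r V b n T₀ run₀ P T run Q v T' rk J mm MM hK)
    {x : Tor d (2 ^ μ)} (hx : x ∈ S run Q T') : ∃ q ∈ Q, ANP.H61.sd x q ≤ rk := by
  rcases Finset.mem_union.1 hx with h2 | h2
  · exact ⟨x, h2, by rw [ANP.H61.sd_self]; exact Nat.zero_le _⟩
  · obtain ⟨q, hq, hxq⟩ := mem_nbh.1 (h.f1.near h2)
    rw [h.D_eq] at hxq
    exact ⟨q, hq, hxq⟩

/-- the numbers of the flux into `S` -/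
theorem flux_S (h : Cx J₀ N₀ l r V b n T₀ run₀ P T run Q v T' rk J mm MM hK)
    {lam κR nQ nK : ℝ} (hlam : 0 ≤ lam) (hκR : 0 ≤ κR) (hhK : 0 ≤ hK)
    (hκ : ∀ x ∈ run, kap V.e₀ T x ≤ κR) (hQ : (Q.card : ℝ) ≤ nQ)
    (hKc : ((Ks run T').card : ℝ) ≤ nK)
    {x : Tor d (2 ^ μ)} (hx : x ∈ Rs V n run Q T') (hL : LaR (net V.E V.e₀ T) run x ≤ 2 * lam) :
    fl (net V.E V.e₀ T) (kap V.e₀ T) (S run Q T') x ≤
      nQ * hK + κR * Real.sqrt (nK * (2 * lam)) := by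
  have h1 : fl (net V.E V.e₀ T) (kap V.e₀ T) (S run Q T') x ≤
      ∑ c ∈ Q, kap V.e₀ T c * ‖net V.E V.e₀ T x c‖ ^ 2 +
      ∑ c ∈ Ks run T', kap V.e₀ T c * ‖net V.E V.e₀ T x c‖ ^ 2 := by
    unfold fl S
    rw [← Finset.sum_union_inter]
    refine le_add_of_nonneg_right (Finset.sum_nonneg fun c _ => ?_)
    exact mul_nonneg (h.kap_pos c).le (sq_nonneg _)
  have h2 : ∑ c ∈ Q, kap V.e₀ T c * ‖net V.E V.e₀ T x c‖ ^ 2 ≤ nQ * hK := by
    refine (Finset.sum_le_card_nsmul Q _ hK fun c hc => ?_).trans ?_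
    · rw [h.net_symm x c]
      exact h.f1.hK x hx c hc
    · rw [nsmul_eq_mul]
      exact mul_le_mul_of_nonneg_right hQ hhK
  have h3 : ∑ c ∈ Ks run T', kap V.e₀ T c * ‖net V.E V.e₀ T x c‖ ^ 2 ≤
      κR * ∑ c ∈ Ks run T', KK (net V.E V.e₀ T) x c := by
    rw [Finset.mul_sum]
    refine Finset.sum_le_sum fun c hc => ?_
    exact mul_le_mul_of_nonneg_right (hκ c (Finset.mem_filter.1 hc).1) (sq_nonneg _)
  have h4 : ∑ c ∈ Ks run T', KK (net V.E V.e₀ T) x c ≤ Real.sqrt (nK * (2 * lam)) := by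
    refine Real.le_sqrt_of_sq_le ?_
    refine (sq_sum_le_card_mul_sum_sq (s := Ks run T')
      (f := fun c => KK (net V.E V.e₀ T) x c)).trans ?_
    refine mul_le_mul hKc ?_ (Finset.sum_nonneg fun _ _ => sq_nonneg _)
      (le_trans (Nat.cast_nonneg _) hKc)
    refine le_trans ?_ hL
    unfold LaR
    exact Finset.sum_le_sum_of_subset_of_nonneg (Finset.filter_subset _ _) fun _ _ _ => sq_nonneg _
  have h5 := mul_le_mul_of_nonneg_left h4 hκR
  linarith only [h1, h2, h3, h5]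

open Classical in
/-- THE INSTANCE -/
theorem kf (h : Cx J₀ N₀ l r V b n T₀ run₀ P T run Q v T' rk J mm MM hK)
    {k t nS : ℕ}
    {Cg k₀ β κR nQ nK W₁ Wt θ δ Th θ₁ δ₁ T₁ : ℝ}
    (hN : KN2 d n V.Dn μ k t rk nS (V.cl (V.kk (n + 1)) : ℝ) V.c₀ V.C₀ V.e₀
      (b.q n (V.kk (n + 1))).lam Cg k₀ β κR nQ nK W₁ Wt mm MM hK θ δ Th θ₁ δ₁ T₁)
    (hr : r n = k + 2)
    (hS : (S run Q T').card ≤ nS) (hSD : (S run Q T').card ≤ V.Dn n)
    (hQ : (Q.card : ℝ) ≤ nQ) (hKc : ((Ks run T').card : ℝ) ≤ nK)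
    (hsum : ∑ i ∈ Finset.range (n + 1), (3 ^ d * (2 * V.Dn i : ℕ) : ℝ) / 2 ^ l i ≤ 1 / 4)
    (hCg : ∀ x ∈ run, (net V.E V.e₀ T x x).im ≤ Cg)
    (hΦ : ∀ x, b.lR n * Phi V.Γ (b.tau n) n P x ≤ 1) :
    KF Q (S run Q T') (Al T) (net V.E V.e₀ T) (net V.E V.e₀ T') (kap V.e₀ T) (ww V.e₀ T)
      (ms V n T T' run Q) k t W₁ β Wt θ δ Th θ₁ δ₁ T₁ := by
  obtain ⟨hk₀, hk0, hk1⟩ := hN.hk₀
  obtain ⟨nn1, nn2, nn3, nn4⟩ := hN.nn
  have hd' : (1 : ℝ) ≤ d := by exact_mod_cast hN.hd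
  have hβ0 : 0 < β := by
    rw [hN.hβ]
    positivity
  have hβ1 : β ≤ 1 := by
    rw [hN.hβ, div_le_one (by positivity)]
    linarith only [hk1, hd']
  have hW₁0 : 0 ≤ W₁ := le_trans (by positivity) hN.hW₁
  have hlam := hN.hlam
  have hκR0 : 0 ≤ κR := by
    refine le_trans ?_ hN.hκ
    obtain ⟨x, hx⟩ := h.ne
    have h1 := (h.gau x (H16.mem_al.2 (h.fro x hx).2)).2.1
    have h2 : 0 ≤ V.C₀ := (norm_nonneg _).trans h1
    have := h.e0
    positivity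
  have hκ : ∀ x ∈ run, kap V.e₀ T x ≤ κR := fun x hx => (h.kap_run hx).trans hN.hκ
  have hL : ∀ x ∈ Al T, LaR (net V.E V.e₀ T) run x ≤ 2 * (b.q n (V.kk (n + 1))).lam := by
    intro x hx
    refine (h.rl.lar x hx).trans ?_
    have := hΦ x
    nlinarith only [hlam, this]
  have hAS : ∀ x ∈ Al T \ S run Q T', x ∈ Al T' := fun x hx => by rwa [h.al_eq]
  have hρ : V.Γ.ρ n = 2 ^ (k + 2) := by rw [h.rho_eq, hr]
  have hnearS : ∀ x ∈ Al T', nr (S run Q T') t x → x ∈ Rs V n run Q T' := by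
    rintro x hx ⟨q, hq, hxq⟩
    obtain ⟨q', hq', h1⟩ := h.near_Q hq
    refine h.near_run hx (mem_nbh.2 ⟨q', hq', ?_⟩)
    rw [h.D_eq, hρ]
    have h2 := ANP.H61.sd_tri x q q'
    have h3 := hN.hrk
    have h4 := hN.geo
    have h5 : (2 : ℕ) ^ (k + 2) = 4 * 2 ^ k := by ring
    rw [h5]
    have h6 : 0 ≤ nS * t := Nat.zero_le _
    omega
  have hms0 : ∀ x, 0 ≤ ms V n T T' run Q x := fun x => Finset.sum_nonneg fun y _ =>
    mul_nonneg (h.kap_pos y).le (sq_nonneg _)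
  have hfl : ∀ x ∈ Rs V n run Q T', fl (net V.E V.e₀ T) (kap V.e₀ T) (S run Q T') x ≤
      nQ * hK + κR * Real.sqrt (nK * (2 * (b.q n (V.kk (n + 1))).lam)) := fun x hx =>
    h.flux_S hlam hκR0 nn3 hκ hQ hKc hx (hL x (h.al_sub (h.Rs_al hx)))
  have hWW : 2 * Real.exp (2 * (k₀ / (8 * d)) * Zc d n V.Dn) ≤ W₁ ∧
      2 * Real.exp (2 * (k₀ / (8 * d)) * Zc d n fun j => 2 * V.Dn j) ≤ W₁ ∧
      16 * Real.exp (2 * β * Zc d n V.Dn) ≤ W₁ := by
    have e1 := zc_mono (d := d) (n := n) V.Dn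
    have e2 := hN.hW₁
    rw [← hN.hβ]
    have e3 : Real.exp (2 * β * Zc d n V.Dn) ≤
        Real.exp (2 * β * Zc d n fun j => 2 * V.Dn j) :=
      Real.exp_le_exp.2 (mul_le_mul_of_nonneg_left e1 (by positivity))
    have e4 := Real.exp_pos (2 * β * Zc d n V.Dn)
    have e5 := Real.exp_pos (2 * β * Zc d n fun j => 2 * V.Dn j)
    refine ⟨?_, ?_, ?_⟩ <;> linarith
  have hSc : ((S run Q T').card : ℝ) ≤ nS := by exact_mod_cast hS
  have hθ₁0 : 0 ≤ θ₁ := le_trans (by positivity) hN.f1.1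
  have hδ₁0 : 0 ≤ δ₁ := by
    have := hN.f1.2
    have h1 : 0 ≤ δ₁ * V.c₀ := le_trans (by positivity) this
    exact nonneg_of_mul_nonneg_left h1 hN.hc
  exact {
    hM := Nat.pow_le_pow_right (by norm_num) hN.hM
    hQS := Finset.subset_union_left
    hSA := h.S_al
    hS := h.S_ne
    hQt := fun x hx => by
      obtain ⟨q, hq, h1⟩ := h.near_Q hx
      exact ⟨q, hq, h1.trans hN.hrk⟩
    hgeo := by
      have h1 := Nat.mul_le_mul_right t hS
      have h2 := hN.geo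
      omega
    hs := h.net_symm
    hs' := h.net_symm'
    hκ := fun x _ => (h.kap_pos x).le
    hw := fun x hx => H16.ww_pos h.e0 h.gpos hx
    hc := ⟨hβ0, hβ1⟩
    hW₁ := hW₁0
    pos := by
      refine ⟨le_trans (by positivity) hN.m2.1, ?_, hθ₁0, hδ₁0⟩
      exact nonneg_of_mul_nonneg_left (nn4.trans hN.m2.2) hN.hc
    d1 := fun x _ y _ => by
      have hsum1 : ∑ i ∈ Finset.range (n + 1), (3 ^ d * V.Dn i : ℝ) / 2 ^ l i ≤ 1 / 4 := by
        refine le_trans (Finset.sum_le_sum fun i _ => ?_) hsum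
        push_cast
        refine div_le_div_of_nonneg_right ?_ (by positivity)
        have : (0 : ℝ) ≤ 3 ^ d * V.Dn i := by positivity
        nlinarith only [this]
      have h1 := dec h.hl (E := V.E) h.e0 h.im_nonneg h.dens hsum1 hk0 hk1
        (fun x hx => hk₀ ▸ h.al_of x hx) x y
      refine h1.trans ?_
      rw [← hN.hβ]
      refine mul_le_mul_of_nonneg_right ?_ (Real.exp_pos _).le
      have := hWW.1
      rwa [← hN.hβ] at this
    d2 := fun x hx y hy => by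
      have h1 := dec h.hl (E := V.E) h.e0 h.im_nonneg' (h.dens' hSD) hsum hk0 hk1
        (fun x hx => hk₀ ▸ h.al_of' x hx) x y
      rw [h.kap_eq (Finset.mem_sdiff.1 hx).2, h.kap_eq (Finset.mem_sdiff.1 hy).2] at h1
      refine h1.trans ?_
      rw [← hN.hβ]
      refine mul_le_mul_of_nonneg_right ?_ (Real.exp_pos _).le
      have := hWW.2.1
      rwa [← hN.hβ] at this
    d3 := fun x hx y hy => by
      have hsum1 : ∑ i ∈ Finset.range (n + 1), (3 ^ d * V.Dn i : ℝ) / 2 ^ l i ≤ 1 / 4 := by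
        refine le_trans (Finset.sum_le_sum fun i _ => ?_) hsum
        push_cast
        refine div_le_div_of_nonneg_right ?_ (by positivity)
        have : (0 : ℝ) ≤ 3 ^ d * V.Dn i := by positivity
        nlinarith only [this]
      obtain ⟨φ, hU, hφ⟩ := upd_all h.hl (E := V.E) (k₀ := k₀) h.S_ne h.e0 h.im_nonneg
        h.im_nonneg' (fun x hx => h.same hx) h.dens hsum1 hk0 hk1
        (fun x hx => hk₀ ▸ h.al_of x hx) (fun x hx => hk₀ ▸ h.al_of' x hx)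
      rw [← hN.hβ] at hU
      obtain ⟨x', hx', h1⟩ := hφ x
      refine ⟨x', hx', ?_⟩
      have h2 := hU.ent_off (Finset.mem_sdiff.1 hx).2 (Finset.mem_sdiff.1 hy).2
      have h3 : kap V.e₀ T x * kap V.e₀ T y *
          ‖net V.E V.e₀ T x y - net V.E V.e₀ T' x y‖ ^ 2 ≤
          (4 * Real.exp (-(β * (φ x + φ y)))) ^ 2 := h2
      refine h3.trans ?_
      rw [mul_pow, ← Real.exp_nat_mul]
      have h4 : Real.exp (((2 : ℕ) : ℝ) * -(β * (φ x + φ y))) ≤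
          Real.exp (2 * β * Zc d n V.Dn) * Real.exp (-(β * ANP.H61.sd x x')) := by
        rw [← Real.exp_add]
        refine Real.exp_le_exp.2 ?_
        have h5 := hU.plt.nn y
        rw [ANP.H61.sd_comm x x']
        push_cast
        nlinarith only [hβ0, h1, h5]
      calc (4 : ℝ) ^ 2 * Real.exp (((2 : ℕ) : ℝ) * -(β * (φ x + φ y))) ≤
          (4 : ℝ) ^ 2 * (Real.exp (2 * β * Zc d n V.Dn) *
            Real.exp (-(β * ANP.H61.sd x x'))) := mul_le_mul_of_nonneg_left h4 (by norm_num)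
        _ = 16 * Real.exp (2 * β * Zc d n V.Dn) * Real.exp (-(β * ANP.H61.sd x x')) := by ring
        _ ≤ _ := mul_le_mul_of_nonneg_right hWW.2.2 (Real.exp_pos _).le
    e1 := by
      refine le_trans ?_ hN.e1
      exact mul_le_mul_of_nonneg_right hSc (by positivity)
    e2 := hN.e2
    f1 := fun x hx hq => by
      obtain ⟨q, hq, hxq⟩ := hq
      have hxA := hAS x hx
      have hR : x ∈ Rs V n run Q T' :=
        h.near_run hxA (mem_nbh.2 ⟨q, hq, by rw [h.D_eq, hρ]; exact hxq⟩)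
      have h1 := hfl x hR
      have h2 := hκ x (h.Rs_run hR)
      have h3 := h.kap_pos x
      have hfl0 : 0 ≤ fl (net V.E V.e₀ T) (kap V.e₀ T) (S run Q T') x :=
        Finset.sum_nonneg fun c _ => mul_nonneg (h.kap_pos c).le (sq_nonneg _)
      refine ⟨(mul_le_mul h2 h1 hfl0 hκR0).trans hN.f1.1, ?_⟩
      have h4 := (h.gau x (h.al_sub hxA)).1
      have h5 : fl (net V.E V.e₀ T) (kap V.e₀ T) (S run Q T') x ≤ δ₁ * gg T x :=
        h1.trans (hN.f1.2.trans (mul_le_mul_of_nonneg_left h4 hδ₁0))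
      calc kap V.e₀ T x * fl (net V.E V.e₀ T) (kap V.e₀ T) (S run Q T') x ≤
          kap V.e₀ T x * (δ₁ * gg T x) := mul_le_mul_of_nonneg_left h5 h3.le
        _ = δ₁ * ww V.e₀ T x := by unfold ww; ring
    f2 := fun x hx => by
      have h1 : ((S run Q T').card : ℝ) * (W₁ * Real.exp (-(β * t))) ≤
          (nS : ℝ) * (W₁ * Real.exp (-(β * t))) := mul_le_mul_of_nonneg_right hSc (by positivity)
      refine ⟨h1.trans hN.f2.1, (h1.trans hN.f2.2).trans ?_⟩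
      refine mul_le_mul_of_nonneg_left ?_ hδ₁0
      rw [hk₀]
      exact h.ww_ge (h.S_al hx)
    f3 := by
      have hge := ANR.H89.hGeq _ _ _ (H16.net_net V.E h.e0 h.gpos)
      have h1 : ∀ c, ∑ x ∈ Al T, kap V.e₀ T x * ‖net V.E V.e₀ T c x‖ ^ 2 ≤
          (net V.E V.e₀ T c c).im := by
        intro c
        rw [← H16.net_ward V.E h.e0 h.gpos c]
        exact Finset.sum_le_sum_of_subset_of_nonneg (Finset.subset_univ _) fun x _ _ =>
          mul_nonneg (h.kap_pos x).le (sq_nonneg _)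
      have h2 : ∀ c, kap V.e₀ T c * ∑ x ∈ Al T, kap V.e₀ T x * ‖net V.E V.e₀ T c x‖ ^ 2 ≤
          kap V.e₀ T c * (net V.E V.e₀ T c c).im := fun c =>
        mul_le_mul_of_nonneg_left (h1 c) (h.kap_pos c).le
      refine (Finset.sum_le_sum fun c _ => h2 c).trans ?_
      unfold S
      have h3 : ∀ c, 0 ≤ kap V.e₀ T c * (net V.E V.e₀ T c c).im := fun c => by
        refine mul_nonneg (h.kap_pos c).le ?_
        refine le_trans ?_ (h1 c)
        exact Finset.sum_nonneg fun x _ => mul_nonneg (h.kap_pos x).le (sq_nonneg _)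
      have h4 : ∑ c ∈ Q ∪ Ks run T', kap V.e₀ T c * (net V.E V.e₀ T c c).im ≤
          ∑ c ∈ Q, kap V.e₀ T c * (net V.E V.e₀ T c c).im +
          ∑ c ∈ Ks run T', kap V.e₀ T c * (net V.E V.e₀ T c c).im := by
        rw [← Finset.sum_union_inter]
        exact le_add_of_nonneg_right (Finset.sum_nonneg fun c _ => h3 c)
      have h5 : ∑ c ∈ Q, kap V.e₀ T c * (net V.E V.e₀ T c c).im ≤ nQ := by
        refine (Finset.sum_le_card_nsmul Q _ 1 fun c _ => ?_).trans ?_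
        · have e1 : kap V.e₀ T c * ‖net V.E V.e₀ T c c‖ ≤ 1 := hge.2.2.2.1 c
          have e2 : (net V.E V.e₀ T c c).im ≤ ‖net V.E V.e₀ T c c‖ :=
            (le_abs_self _).trans (Complex.abs_im_le_norm _)
          exact (mul_le_mul_of_nonneg_left e2 (h.kap_pos c).le).trans e1
        · rw [nsmul_eq_mul, mul_one]
          exact hQ
      have h6 : ∑ c ∈ Ks run T', kap V.e₀ T c * (net V.E V.e₀ T c c).im ≤ κR * Cg * nK := by
        refine (Finset.sum_le_card_nsmul (Ks run T') _ (κR * Cg) fun c hc => ?_).trans ?_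
        · have hcr := (Finset.mem_filter.1 hc).1
          refine mul_le_mul (hκ c hcr) (hCg c hcr) ?_ hκR0
          refine le_trans ?_ (h1 c)
          exact Finset.sum_nonneg fun x _ => mul_nonneg (h.kap_pos x).le (sq_nonneg _)
        · rw [nsmul_eq_mul, mul_comm]
          exact mul_le_mul_of_nonneg_left hKc (mul_nonneg hκR0 hN.hCg)
      have h7 := hN.f3
      linarith only [h4, h5, h6, h7]
    m0 := fun x _ _ => hms0 x
    m1 := fun x hx hn => by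
      unfold ms
      refine le_trans (le_of_eq ?_) (Finset.sum_le_sum_of_subset_of_nonneg
        (s := (Al T \ S run Q T').filter (nr (S run Q T') t)) ?_ ?_)
      · exact Finset.sum_congr rfl fun y _ => by rw [norm_sub_rev]
      · intro y hy
        obtain ⟨h1, h2⟩ := Finset.mem_filter.1 hy
        exact hnearS y (hAS y h1) h2
      · intro y _ _
        exact mul_nonneg (h.kap_pos y).le (sq_nonneg _)
    m2 := fun x hx hn => by
      have hxA := hAS x hx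
      have hR := hnearS x hxA hn
      have h1 : ms V n T T' run Q x ≤ mm := h.f1.mx x hR
      have h2 := hκ x (h.Rs_run hR)
      refine ⟨(mul_le_mul h2 h1 (hms0 x) hκR0).trans hN.m2.1, ?_⟩
      have h4 := (h.gau x (h.al_sub hxA)).1
      have hδ0 : 0 ≤ δ := nonneg_of_mul_nonneg_left (nn4.trans hN.m2.2) hN.hc
      have h5 : ms V n T T' run Q x ≤ δ * gg T x :=
        h1.trans (hN.m2.2.trans (mul_le_mul_of_nonneg_left h4 hδ0))
      calc kap V.e₀ T x * ms V n T T' run Q x ≤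
          kap V.e₀ T x * (δ * gg T x) := mul_le_mul_of_nonneg_left h5 (h.kap_pos x).le
        _ = δ * ww V.e₀ T x := by unfold ww; ring
    m3 := by
      refine le_trans ?_ (h.f1.MM.trans hN.m3)
      refine Finset.sum_le_sum_of_subset_of_nonneg (s := (Al T \ S run Q T').filter
        (nr (S run Q T') t)) (f := fun x => kap V.e₀ T x * ms V n T T' run Q x) ?_ ?_
      · intro y hy
        obtain ⟨h1, h2⟩ := Finset.mem_filter.1 hy
        exact hnearS y (hAS y h1) h2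
      · intro y _ _
        exact mul_nonneg (h.kap_pos y).le (hms0 y) }

end Cx

end Pool.Agent.KL2
end
end -- Pool.Agent.Helper34_KL2.Ins

section -- Pool.Agent.Helper41_AHH.KN1

/-!
# The numeric conditions `KN1` and `KN2` hold for small `s`
-/

set_option autoImplicit false

open scoped BigOperators NNReal Matrix

noncomputable section

namespace Pool.Agent.AHH.H41

open Pool.Agent.AND.Num
open Pool.Agent.KL2

/-- the data: `s` the clock, `ρ = 2 ^ (k + 2)`, `clu`, `kn` bounds for the numbers of sites of `Q` and of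
the killed sites -/
structure Dat (d : ℕ) (c₁ Kz s : ℝ) (n : ℕ) (Dn : ℕ → ℕ) (μ k clu kn : ℕ)
    (e₀ lam J mm MM hK : ℝ) : Prop where
  he : 0 < e₀ ∧ e₀ ≤ s
  lam : 1 / 4 * s ^ (-(3 / 4) : ℝ) ≤ lam ∧ lam ≤ 1 / 2 * s ^ (-(3 / 4) : ℝ)
  hM : k + 2 ≤ μ
  rho : s ^ (-3 : ℝ) ≤ 2 ^ (k + 2)
  clu : (clu : ℝ) ≤ s ^ (-c₁)
  kn : (kn : ℝ) ≤ s ^ (-(6 / 5) : ℝ)
  zc : Zc d n (fun j => 2 * Dn j) ≤ Kz * s ^ (-(5 / 4) : ℝ)
  J : 0 ≤ J ∧ J ≤ s ^ (3 / 25 : ℝ)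
  mm : 0 ≤ mm ∧ mm ≤ s ^ (1 / 30 : ℝ)
  MM : MM ≤ s ^ (-(1 / 5) : ℝ)
  hK : 0 ≤ hK ∧ hK ≤ s ^ (1 / 10 : ℝ)

/-- the exponential tails -/
theorem small_tail (a q R : ℝ) (ha : 0 < a) :
    Small fun s => ∀ ρ : ℝ, s ^ (-3 : ℝ) ≤ ρ → q * Real.exp (-(a * s * ρ)) ≤ s ^ R := by
  have h1 := small_exp_pow q a 2 0 R ha (by norm_num)
  have h0 : Small fun s => (max q 0) * s ^ (-(0:ℝ)) * Real.exp (-(a * s ^ (-(2:ℝ)))) ≤ s ^ R :=
    small_exp_pow (max q 0) a 2 0 R ha (by norm_num)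
  refine (h0.and (small_le 1 one_pos)).mono fun s hs h ρ hρ => ?_
  obtain ⟨h, -⟩ := h
  rw [neg_zero, Real.rpow_zero, mul_one] at h
  have h2 : a * s ^ (-(2 : ℝ)) ≤ a * s * ρ := by
    have h3 : s ^ (-(2 : ℝ)) = s * s ^ (-3 : ℝ) := by
      nth_rewrite 2 [← Real.rpow_one s]
      rw [← Real.rpow_add hs]
      norm_num
    rw [h3, ← mul_assoc]
    exact mul_le_mul_of_nonneg_left hρ (by positivity)
  have h4 : Real.exp (-(a * s * ρ)) ≤ Real.exp (-(a * s ^ (-(2 : ℝ)))) :=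
    Real.exp_le_exp.2 (neg_le_neg h2)
  calc q * Real.exp (-(a * s * ρ)) ≤ max q 0 * Real.exp (-(a * s * ρ)) :=
        mul_le_mul_of_nonneg_right (le_max_left _ _) (Real.exp_pos _).le
    _ ≤ max q 0 * Real.exp (-(a * s ^ (-(2 : ℝ)))) :=
        mul_le_mul_of_nonneg_left h4 (le_max_right _ _)
    _ ≤ _ := h

/-- KN1 -/
theorem kn1 (d : ℕ) (c Cg c₁ Kz : ℝ) (hd : 3 ≤ d) (hc : 0 < c) (hCg : 0 ≤ Cg) :
    Small fun s => ∀ (n : ℕ) (Dn : ℕ → ℕ) (μ k clu kn : ℕ) (e₀ lam J mm MM hK : ℝ),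
      Dat d c₁ Kz s n Dn μ k clu kn e₀ lam J mm MM hK →
      KN1 (s * c) c lam (s ^ (1 / 10 : ℝ)) (s ^ (1 / 200 : ℝ)) (s ^ (1 / 100 : ℝ))
        (s ^ (5 * (d : ℝ))) Cg
        (J + 4 / (s * c) * Real.exp (-(s * c / (8 * d) / 4 * ((2 ^ (k + 2) : ℕ) : ℝ))))
        (mm + 8 / (s * c) * Real.exp (-(s * c / (8 * d) / 4 * ((2 ^ (k + 2) : ℕ) : ℝ))))
        (8 / (s * c)) (s * c / (8 * d) / 4) (s ^ (10 : ℝ)) (2 ^ (k + 2)) := by
  have hd0 : (0 : ℝ) < d := by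
    have : 0 < d := by omega
    exact_mod_cast this
  -- constants
  have A1 := small_tail (c / (8 * d) / 4 / 2) (8 / c) (1 + 4 * (10 + 5 * (d : ℝ))) (by positivity)
  have A2 := small_tail (c / (8 * d) / 4) (8 / c) 2 (by positivity)
  have A3 := small_pow (32 * (d : ℝ) / c * 8) 2 0 (by norm_num)
  -- `22 s^10 ≤ s^(1/200)`
  have A4 := small_pow 22 10 (1 / 200) (by norm_num)
  have A5 := small_pow' (2 * (Cg + 2)) c 10 (1 / 100) hc (by norm_num)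
  have A6 := small_pow' 1 (c / 4) 80 (1 / 4) (by positivity) (by norm_num)
  have A7 := small_pow 2 (3 / 25) (1 / 10) (by norm_num)
  have A8 := small_pow' (8 / c) (1 / (4 * 22 ^ 4)) (6 / 25 + 1 / 30 - 1) (1 / 50 - 3 / 4)
    (by positivity) (by norm_num)
  have A9 := small_pow' 2 ((c / (2 * (Cg + 2))) ^ 2) (1 / 30) (1 / 50) (by positivity) (by norm_num)
  have A10 := small_rpow_le (2 * (Cg + 2) / c) (1 / 100) (by positivity) (by norm_num)
  have H := (((((((((A1.and A2).and A3).and A4).and A5).and A6).and A7).and A8).and A9).and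
    A10).and (small_le 1 one_pos)
  refine H.mono fun s hs h => ?_
  obtain ⟨⟨⟨⟨⟨⟨⟨⟨⟨⟨A1, A2⟩, A3⟩, A4⟩, A5⟩, A6⟩, A7⟩, A8⟩, A9⟩, A10⟩, hs1⟩ := h
  intro n Dn μ k clu kn e₀ lam J mm MM hK D
  have hk : 0 < s * c := mul_pos hs hc
  have hρ : s ^ (-3 : ℝ) ≤ ((2 ^ (k + 2) : ℕ) : ℝ) := by
    push_cast
    exact D.rho
  set ρ : ℝ := ((2 ^ (k + 2) : ℕ) : ℝ) with hρd
  have hρ0 : 0 < ρ := lt_of_lt_of_le (Real.rpow_pos_of_pos hs _) hρ
  have rp : ∀ p : ℝ, 0 < s ^ p := fun p => Real.rpow_pos_of_pos hs p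
  have anti : ∀ {p q : ℝ}, q ≤ p → s ^ p ≤ s ^ q := fun h => rpow_anti hs hs1 h
  have hlam0 : 0 < lam := lt_of_lt_of_le (by have := rp (-(3 / 4)); positivity) D.lam.1
  -- the tails
  have hX : 8 / (s * c) * Real.exp (-(s * c / (8 * d) / 4 * ρ)) ≤ s := by
    have h1 := A2 ρ hρ
    have h2 : -(s * c / (8 * d) / 4 * ρ) = -(c / (8 * d) / 4 * s * ρ) := by ring
    rw [h2]
    have h3 : 8 / (s * c) * Real.exp (-(c / (8 * d) / 4 * s * ρ)) =
        (8 / c * Real.exp (-(c / (8 * d) / 4 * s * ρ))) / s := by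
      field_simp
    rw [h3, div_le_iff₀ hs]
    refine h1.trans (le_of_eq ?_)
    rw [show (2 : ℝ) = ((2 : ℕ) : ℝ) by norm_num, Real.rpow_natCast]
    ring
  have hs25 : s ≤ s ^ (3 / 25 : ℝ) := by
    have := anti (show (3 / 25 : ℝ) ≤ 1 by norm_num)
    rwa [Real.rpow_one] at this
  have hs30 : s ≤ s ^ (1 / 30 : ℝ) := by
    have := anti (show (1 / 30 : ℝ) ≤ 1 by norm_num)
    rwa [Real.rpow_one] at this
  have hX4 : 4 / (s * c) * Real.exp (-(s * c / (8 * d) / 4 * ρ)) ≤ s := by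
    refine le_trans (mul_le_mul_of_nonneg_right ?_ (Real.exp_pos _).le) hX
    gcongr
    norm_num
  have hX4' : 0 ≤ 4 / (s * c) * Real.exp (-(s * c / (8 * d) / 4 * ρ)) := by positivity
  have hX' : 0 ≤ 8 / (s * c) * Real.exp (-(s * c / (8 * d) / 4 * ρ)) := by positivity
  have hJ1 : J + 4 / (s * c) * Real.exp (-(s * c / (8 * d) / 4 * ρ)) ≤ 2 * s ^ (3 / 25 : ℝ) := by
    have := D.J.2
    linarith only [hs25, hX4, this]
  have hm1 : mm + 8 / (s * c) * Real.exp (-(s * c / (8 * d) / 4 * ρ)) ≤ 2 * s ^ (1 / 30 : ℝ) := by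
    have := D.mm.2
    linarith only [hX, hs30, this]
  have hJ10 : 0 ≤ J + 4 / (s * c) * Real.exp (-(s * c / (8 * d) / 4 * ρ)) :=
    add_nonneg D.J.1 hX4'
  have hm10 : 0 ≤ mm + 8 / (s * c) * Real.exp (-(s * c / (8 * d) / 4 * ρ)) :=
    add_nonneg D.mm.1 hX'
  exact {
    hk := hk
    hlam := hlam0.le
    htau := ⟨rp _, by
      have := anti (show (0 : ℝ) ≤ 5 * d by positivity)
      rwa [Real.rpow_zero] at this⟩
    hJ1 := hJ10
    hE1 := by positivity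
    hCg := hCg
    hrho := by positivity
    heta := by
      refine ⟨rp _, ?_, anti (by norm_num), A4, ?_, ?_⟩
      · have := anti (show (0 : ℝ) ≤ 10 by norm_num)
        rwa [Real.rpow_zero] at this
      · calc 2 * s ^ (10 : ℝ) * (Cg + 2) = 2 * (Cg + 2) * s ^ (10 : ℝ) := by ring
          _ ≤ c * s ^ (1 / 100 : ℝ) := A5
          _ = _ := by ring
      · have h1 : (s ^ (10 : ℝ)) ^ 8 = s ^ (80 : ℝ) := by
          rw [← Real.rpow_natCast, ← Real.rpow_mul hs.le]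
          norm_num
        have h2 : s ^ (1 / 4 : ℝ) = s * s ^ (-(3 / 4) : ℝ) := by
          nth_rewrite 2 [← Real.rpow_one s]
          rw [← Real.rpow_add hs]
          norm_num
        rw [one_mul, h2] at A6
        rw [h1]
        refine A6.trans ?_
        have h3 := mul_le_mul_of_nonneg_left D.lam.1 hk.le
        calc c / 4 * (s * s ^ (-(3 / 4) : ℝ)) = s * c * (1 / 4 * s ^ (-(3 / 4) : ℝ)) := by ring
          _ ≤ _ := h3
    far := by
      constructor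
      · have h1 := A1 ρ hρ
        have h2 : -(s * c / (8 * d) / 4 / 2 * ρ) = -(c / (8 * d) / 4 / 2 * s * ρ) := by ring
        rw [h2]
        have h3 : 8 / (s * c) * Real.exp (-(c / (8 * d) / 4 / 2 * s * ρ)) =
            (8 / c * Real.exp (-(c / (8 * d) / 4 / 2 * s * ρ))) / s := by
          field_simp
        rw [h3, div_le_iff₀ hs]
        refine h1.trans (le_of_eq ?_)
        rw [← Real.rpow_add hs, Real.rpow_add hs, Real.rpow_one, mul_comm]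
        congr 1
        rw [← Real.rpow_natCast, ← Real.rpow_mul hs.le]
        congr 1
        push_cast
        ring
      · rw [Real.rpow_zero] at A3
        have h1 : s * c / (8 * d) / 4 * s ^ (-3 : ℝ) ≤ s * c / (8 * d) / 4 * ρ :=
          mul_le_mul_of_nonneg_left hρ (by positivity)
        refine le_trans ?_ h1
        have h2 : s * c / (8 * d) / 4 * s ^ (-3 : ℝ) = (c / (32 * d)) * s ^ (-2 : ℝ) := by
          have : s ^ (-2 : ℝ) = s * s ^ (-3 : ℝ) := by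
            nth_rewrite 2 [← Real.rpow_one s]
            rw [← Real.rpow_add hs]
            norm_num
          rw [this]
          field_simp
          norm_num
        rw [h2, Real.rpow_neg hs.le]
        have h3 : 0 < s ^ (2 : ℝ) := rp 2
        rw [div_mul_eq_mul_div, ← div_eq_mul_inv, div_div, le_div_iff₀ (by positivity)]
        have h4 : 32 * (d : ℝ) / c * 8 * s ^ (2 : ℝ) * c ≤ 1 * c :=
          mul_le_mul_of_nonneg_right A3 hc.le
        have h5 : 32 * (d : ℝ) / c * 8 * s ^ (2 : ℝ) * c = 8 * (s ^ (2 : ℝ) * (32 * d)) := by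
          field_simp
        linarith only [h4, h5]
    e := hJ1.trans A7
    l := by
      refine ⟨s ^ (1 / 200 : ℝ) / 22, by have := rp (1 / 200); positivity, ?_, ?_, ?_⟩
      · have := anti (show (0 : ℝ) ≤ 1 / 200 by norm_num)
        rw [Real.rpow_zero] at this
        linarith only [this]
      · have := rp (1 / 200)
        linarith only
      · have h1 : (J + 4 / (s * c) * Real.exp (-(s * c / (8 * d) / 4 * ρ))) ^ 2 ≤
            4 * s ^ (6 / 25 : ℝ) := by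
          refine (pow_le_pow_left₀ hJ10 hJ1 2).trans (le_of_eq ?_)
          rw [mul_pow, ← Real.rpow_natCast (s ^ (3 / 25 : ℝ)), ← Real.rpow_mul hs.le]
          norm_num
        have h2 : (mm + 8 / (s * c) * Real.exp (-(s * c / (8 * d) / 4 * ρ))) / (s * c) ≤
            2 / c * s ^ (1 / 30 - 1 : ℝ) := by
          rw [div_le_iff₀ hk]
          refine hm1.trans (le_of_eq ?_)
          have : s ^ (1 / 30 : ℝ) = s ^ (1 / 30 - 1 : ℝ) * s := by
            nth_rewrite 3 [← Real.rpow_one s]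
            rw [← Real.rpow_add hs]
            norm_num
          rw [this]
          field_simp
        have h3 : 0 ≤ (mm + 8 / (s * c) * Real.exp (-(s * c / (8 * d) / 4 * ρ))) / (s * c) :=
          div_nonneg hm10 hk.le
        refine (mul_le_mul h1 h2 h3 (by have := rp (6 / 25); positivity)).trans ?_
        have h4 : 4 * s ^ (6 / 25 : ℝ) * (2 / c * s ^ (1 / 30 - 1 : ℝ)) =
            8 / c * s ^ (6 / 25 + 1 / 30 - 1 : ℝ) := by
          have : s ^ (6 / 25 + 1 / 30 - 1 : ℝ) = s ^ (6 / 25 : ℝ) * s ^ (1 / 30 - 1 : ℝ) := by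
            rw [← Real.rpow_add hs]
            congr 1
            ring
          rw [this]
          ring
        rw [h4]
        refine A8.trans ?_
        have h5 : (s ^ (1 / 200 : ℝ) / 22) ^ 4 = s ^ (1 / 50 : ℝ) / 22 ^ 4 := by
          rw [div_pow, ← Real.rpow_natCast (s ^ (1 / 200 : ℝ)), ← Real.rpow_mul hs.le]
          norm_num
        have h6 : s ^ (1 / 50 - 3 / 4 : ℝ) = s ^ (1 / 50 : ℝ) * s ^ (-(3 / 4) : ℝ) := by
          rw [← Real.rpow_add hs]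
          congr 1
        rw [h5, h6]
        have h7 := mul_le_mul_of_nonneg_left D.lam.1
          (show 0 ≤ s ^ (1 / 50 : ℝ) / 22 ^ 4 by have := rp (1 / 50); positivity)
        refine le_trans (le_of_eq ?_) h7
        ring
    y := by
      have hC2 : 0 < Cg + 2 := by linarith only [hCg]
      refine ⟨s ^ (1 / 100 : ℝ) * (c / (2 * (Cg + 2))), by
        have := rp (1 / 100); positivity, ?_, ?_, ?_⟩
      · calc s ^ (1 / 100 : ℝ) * (c / (2 * (Cg + 2))) ≤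
            2 * (Cg + 2) / c * (c / (2 * (Cg + 2))) :=
              mul_le_mul_of_nonneg_right A10 (by positivity)
          _ = 1 := by field_simp
      · apply le_of_eq
        field_simp
      · refine hm1.trans (A9.trans (le_of_eq ?_))
        rw [mul_pow, ← Real.rpow_natCast (s ^ (1 / 100 : ℝ)), ← Real.rpow_mul hs.le]
        norm_num
        ring }

end Pool.Agent.AHH.H41
end
end -- Pool.Agent.Helper41_AHH.KN1

section -- Pool.Agent.Helper41_AHH.KN2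

/-!
# The numeric conditions `KN2` hold for small `s`
-/

set_option autoImplicit false

open scoped BigOperators NNReal Matrix

noncomputable section

namespace Pool.Agent.AHH.H41

open Pool.Agent.AND.Num
open Pool.Agent.KL2

/-- `A s^(-q) exp (K₁ s^(-1/4)) exp (-K₂ s^(-p)) ≤ exp (-s^(-1/2))` -/
theorem small_ex2 (A K₁ K₂ p q : ℝ) (hK₂ : 0 < K₂) (hp : 1 / 2 < p) :
    Small fun s => A * s ^ (-q) * Real.exp (K₁ * s ^ (-(1 / 4) : ℝ)) *
      Real.exp (-(K₂ * s ^ (-p))) ≤ Real.exp (-(s ^ (-(1 / 2) : ℝ))) := by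
  have h1 := small_exp (max A 0) (K₂ / 2) p q (1 / 2) (by positivity) (by linarith only [hp]) hp
  have h2 := small_pow' K₁ (K₂ / 2) (-(1 / 4)) (-p) (by positivity) (by linarith only [hp])
  refine (h1.and h2).mono fun s hs h => ?_
  obtain ⟨h1, h2⟩ := h
  have hq : 0 < s ^ (-q) := Real.rpow_pos_of_pos hs _
  have h3 : Real.exp (K₁ * s ^ (-(1 / 4) : ℝ)) * Real.exp (-(K₂ * s ^ (-p))) ≤
      Real.exp (-(K₂ / 2 * s ^ (-p))) := by
    rw [← Real.exp_add]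
    refine Real.exp_le_exp.2 ?_
    linarith only [h2]
  calc A * s ^ (-q) * Real.exp (K₁ * s ^ (-(1 / 4) : ℝ)) * Real.exp (-(K₂ * s ^ (-p)))
      ≤ max A 0 * s ^ (-q) * (Real.exp (K₁ * s ^ (-(1 / 4) : ℝ)) *
          Real.exp (-(K₂ * s ^ (-p)))) := by
        rw [← mul_assoc]
        gcongr
        exact le_max_left _ _
    _ ≤ max A 0 * s ^ (-q) * Real.exp (-(K₂ / 2 * s ^ (-p))) :=
        mul_le_mul_of_nonneg_left h3 (by positivity)
    _ ≤ _ := h1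

/-- KN2 -/
theorem kn2 (d : ℕ) (c C₀ Cg c₁ Kz : ℝ) (hd : 3 ≤ d) (hc : 0 < c) (hC₀ : 0 ≤ C₀) (hCg : 0 ≤ Cg)
    (hc₁ : c₁ ≤ 1 / 1000) :
    Small fun s => ∀ (n : ℕ) (Dn : ℕ → ℕ) (μ k clu kn : ℕ) (e₀ lam J mm MM hK : ℝ),
      Dat d c₁ Kz s n Dn μ k clu kn e₀ lam J mm MM hK →
      ∀ nQ nK : ℝ, 0 ≤ nQ → nQ ≤ s ^ (-(1 / 1000) : ℝ) → 0 ≤ nK → nK ≤ s ^ (-(6 / 5) : ℝ) →
      KN2 d n Dn μ k ⌊s ^ (-(8 / 5) : ℝ)⌋₊ ⌊s ^ (-(8 / 5) : ℝ)⌋₊ (clu + kn)
        s c C₀ e₀ lam Cg (s * c) (s * c / (8 * d)) (s * (C₀ + 1)) nQ nK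
        (16 * Real.exp (2 * (s * c / (8 * d)) * Zc d n fun j => 2 * Dn j))
        (Real.exp (-(s ^ (-(1 / 2) : ℝ)))) mm MM hK
        (s ^ (1033 / 1000 : ℝ)) (s ^ (33 / 1000 : ℝ)) (s ^ (-(1 / 5) : ℝ))
        (s ^ (1024 / 1000 : ℝ)) (s ^ (24 / 1000 : ℝ)) (s ^ (-(201 / 1000) : ℝ)) := by
  have hd0 : (0 : ℝ) < d := by
    have : 0 < d := by omega
    exact_mod_cast this
  have B1 := small_ex2 32 (c * Kz / (4 * d)) (c / (64 * d)) 2 (6 / 5) (by positivity) (by norm_num)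
  have B2 := small_ex2 96 (c * Kz / (4 * d)) (c / (192 * d)) (3 / 5) 0 (by positivity)
    (by norm_num)
  have B3 := small_ex2 32 (c * Kz / (4 * d)) (c / (192 * d)) (3 / 5) (6 / 5) (by positivity)
    (by norm_num)
  have B4 := small_exp_pow 1 1 (1 / 2) 0 2 one_pos (by norm_num)
  -- geometry
  have B5 := small_pow' 4 (1 / 4) (-(14 / 5)) (-3) (by norm_num) (by norm_num)
  have B6 := small_rpow_le (1 / 2) (8 / 5) (by norm_num) (by norm_num)
  have B7 := small_le (1 / c) (by positivity)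
  have B8 := small_pow ((C₀ + 1) * (C₀ + 2)) (1025 / 1000) (1024 / 1000) (by norm_num)
  have B9 := small_pow' (C₀ + 2) c (25 / 1000) (24 / 1000) hc (by norm_num)
  have B10 := small_pow' 1 (c * c) 2 (1024 / 1000) (by positivity) (by norm_num)
  have B11 := small_pow ((C₀ + 1) * Cg + 1) (-(1 / 5)) (-(201 / 1000)) (by norm_num)
  have B12 := small_pow (C₀ + 1) (1 + 1 / 30) (1033 / 1000) (by norm_num)
  have B13 := small_pow' 1 c (1 / 30) (33 / 1000) hc (by norm_num)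
  have B14 := small_pow 1 2 (1024 / 1000) (by norm_num)
  have H := (((((((((((((B1.and B2).and B3).and B4).and B5).and B6).and B7).and B8).and B9).and
    B10).and B11).and B12).and B13).and B14).and (small_le 1 one_pos)
  refine H.mono fun s hs h => ?_
  obtain ⟨⟨⟨⟨⟨⟨⟨⟨⟨⟨⟨⟨⟨⟨B1, B2⟩, B3⟩, B4⟩, B5⟩, B6⟩, B7⟩, B8⟩, B9⟩, B10⟩, B11⟩, B12⟩, B13⟩,
    B14⟩, hs1⟩ := h
  intro n Dn μ k clu kn e₀ lam J mm MM hK D nQ nK nQ0 nQ1 nK0 nK1
  have rp : ∀ p : ℝ, 0 < s ^ p := fun p => Real.rpow_pos_of_pos hs p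
  have anti : ∀ {p q : ℝ}, q ≤ p → s ^ p ≤ s ^ q := fun h => rpow_anti hs hs1 h
  have ad : ∀ p q r : ℝ, p + q = r → s ^ p * s ^ q = s ^ r := fun p q r h => by
    rw [← Real.rpow_add hs, h]
  have s1 : s = s ^ (1 : ℝ) := (Real.rpow_one s).symm
  have hk : 0 < s * c := mul_pos hs hc
  have hlam0 : 0 < lam := lt_of_lt_of_le (by have := rp (-(3 / 4)); positivity) D.lam.1
  obtain ⟨hJ0, hJ⟩ := D.J
  obtain ⟨hm0, hm⟩ := D.mm
  obtain ⟨hh0, hh⟩ := D.hK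
  -- the radius
  set t : ℕ := ⌊s ^ (-(8 / 5) : ℝ)⌋₊ with ht
  have htu : (t : ℝ) ≤ s ^ (-(8 / 5) : ℝ) := Nat.floor_le (rp _).le
  have htl : s ^ (-(8 / 5) : ℝ) / 2 ≤ (t : ℝ) := by
    have h1 := Nat.lt_floor_add_one (s ^ (-(8 / 5) : ℝ))
    rw [← ht] at h1
    have h2 : 2 ≤ s ^ (-(8 / 5) : ℝ) := by
      rw [Real.rpow_neg hs.le, ← one_div, le_div_iff₀ (rp _)]
      linarith only [B6]
    linarith only [h1, h2]
  -- the numbers of sites
  have hclu : (clu : ℝ) ≤ s ^ (-(1 / 1000) : ℝ) := D.clu.trans (anti (by linarith only [hc₁]))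
  have hnS : ((clu + kn : ℕ) : ℝ) ≤ 2 * s ^ (-(6 / 5) : ℝ) := by
    push_cast
    have h1 := hclu.trans (anti (show (-(6 / 5) : ℝ) ≤ -(1 / 1000) by norm_num))
    have h2 := D.kn
    linarith only [h1, h2]
  have hnS0 : (0 : ℝ) ≤ ((clu + kn : ℕ) : ℝ) := Nat.cast_nonneg _
  -- `W₁`
  have hW : 2 * (s * c / (8 * d)) * Zc d n (fun j => 2 * Dn j) ≤
      c * Kz / (4 * d) * s ^ (-(1 / 4) : ℝ) := by
    have h1 := mul_le_mul_of_nonneg_left D.zc (show 0 ≤ 2 * (s * c / (8 * d)) by positivity)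
    refine h1.trans (le_of_eq ?_)
    rw [← ad 1 (-(5 / 4)) (-(1 / 4)) (by norm_num), ← s1]
    field_simp
    ring
  set W : ℝ := Real.exp (2 * (s * c / (8 * d)) * Zc d n fun j => 2 * Dn j) with hWd
  have hW0 : 0 < W := Real.exp_pos _
  have hWW : W ≤ Real.exp (c * Kz / (4 * d) * s ^ (-(1 / 4) : ℝ)) := Real.exp_le_exp.2 hW
  -- exponentials
  have hpk : (2 : ℝ) ^ (k + 2) = 4 * 2 ^ k := by ring
  have E1 : Real.exp (-(s * c / (8 * d) / 2 * 2 ^ k)) ≤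
      Real.exp (-(c / (64 * d) * s ^ (-2 : ℝ))) := by
    refine Real.exp_le_exp.2 (neg_le_neg ?_)
    have h1 := D.rho
    rw [hpk] at h1
    have h2 := mul_le_mul_of_nonneg_left h1 (show 0 ≤ s * c / (64 * d) by positivity)
    rw [← ad 1 (-3) (-2) (by norm_num), ← s1]
    calc c / (64 * d) * (s * s ^ (-3 : ℝ)) = s * c / (64 * d) * s ^ (-3 : ℝ) := by ring
      _ ≤ s * c / (64 * d) * (4 * 2 ^ k) := h2
      _ = _ := by
        field_simp
        norm_num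
  have E2 : Real.exp (-(s * c / (8 * d) / 12 * t)) ≤
      Real.exp (-(c / (192 * d) * s ^ (-(3 / 5) : ℝ))) := by
    refine Real.exp_le_exp.2 (neg_le_neg ?_)
    have h2 := mul_le_mul_of_nonneg_left htl (show 0 ≤ s * c / (96 * d) by positivity)
    rw [← ad 1 (-(8 / 5)) (-(3 / 5)) (by norm_num), ← s1]
    calc c / (192 * d) * (s * s ^ (-(8 / 5) : ℝ)) = s * c / (96 * d) * (s ^ (-(8 / 5) : ℝ) / 2) := by
          field_simp
          norm_num
      _ ≤ s * c / (96 * d) * t := h2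
      _ = _ := by
        field_simp
        ring
  have E3 : Real.exp (-(s * c / (8 * d) * t)) ≤ Real.exp (-(s * c / (8 * d) / 12 * t)) := by
    refine Real.exp_le_exp.2 (neg_le_neg ?_)
    have : 0 ≤ s * c / (8 * d) * t := by positivity
    linarith only [this]
  have T1 : ((clu + kn : ℕ) : ℝ) * (16 * W * Real.exp (-(s * c / (8 * d) / 2 * 2 ^ k))) ≤
      Real.exp (-(s ^ (-(1 / 2) : ℝ))) := by
    refine le_trans ?_ B1
    calc ((clu + kn : ℕ) : ℝ) * (16 * W * Real.exp (-(s * c / (8 * d) / 2 * 2 ^ k)))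
        ≤ (2 * s ^ (-(6 / 5) : ℝ)) * (16 * Real.exp (c * Kz / (4 * d) * s ^ (-(1 / 4) : ℝ)) *
            Real.exp (-(c / (64 * d) * s ^ (-2 : ℝ)))) := by gcongr
      _ = _ := by ring
  have T2 : 6 * (16 * W) * Real.exp (-(s * c / (8 * d) / 12 * t)) ≤
      Real.exp (-(s ^ (-(1 / 2) : ℝ))) := by
    refine le_trans ?_ B2
    rw [neg_zero, Real.rpow_zero, mul_one]
    calc 6 * (16 * W) * Real.exp (-(s * c / (8 * d) / 12 * t))
        ≤ 6 * (16 * Real.exp (c * Kz / (4 * d) * s ^ (-(1 / 4) : ℝ))) *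
            Real.exp (-(c / (192 * d) * s ^ (-(3 / 5) : ℝ))) := by gcongr
      _ = _ := by ring
  have T3 : ((clu + kn : ℕ) : ℝ) * (16 * W * Real.exp (-(s * c / (8 * d) * t))) ≤
      s ^ (2 : ℝ) := by
    have h1 : ((clu + kn : ℕ) : ℝ) * (16 * W * Real.exp (-(s * c / (8 * d) * t))) ≤
        Real.exp (-(s ^ (-(1 / 2) : ℝ))) := by
      refine le_trans ?_ B3
      have E4 := E3.trans E2
      calc ((clu + kn : ℕ) : ℝ) * (16 * W * Real.exp (-(s * c / (8 * d) * t)))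
          ≤ (2 * s ^ (-(6 / 5) : ℝ)) * (16 * Real.exp (c * Kz / (4 * d) * s ^ (-(1 / 4) : ℝ)) *
              Real.exp (-(c / (192 * d) * s ^ (-(3 / 5) : ℝ)))) := by gcongr
        _ = _ := by ring
    refine h1.trans ?_
    rw [neg_zero, Real.rpow_zero, mul_one, one_mul, one_mul] at B4
    exact B4
  -- the flux
  have F1 : nQ * hK + s * (C₀ + 1) * Real.sqrt (nK * (2 * lam)) ≤
      (C₀ + 2) * s ^ (25 / 1000 : ℝ) := by
    have h1 : nQ * hK ≤ s ^ (25 / 1000 : ℝ) := by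
      refine (mul_le_mul nQ1 hh hh0 (rp _).le).trans ?_
      rw [ad (-(1 / 1000)) (1 / 10) (99 / 1000) (by norm_num)]
      exact anti (by norm_num)
    have h2 : Real.sqrt (nK * (2 * lam)) ≤ s ^ (-(39 / 40) : ℝ) := by
      refine Real.sqrt_le_iff.2 ⟨(rp _).le, ?_⟩
      have h3 : (s ^ (-(39 / 40) : ℝ)) ^ 2 = s ^ (-(6 / 5) : ℝ) * s ^ (-(3 / 4) : ℝ) := by
        rw [sq, ← Real.rpow_add hs, ← Real.rpow_add hs]
        norm_num
      rw [h3]
      have h4 := D.lam.2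
      refine mul_le_mul nK1 ?_ (by positivity) (rp _).le
      linarith only [h4]
    have h4 : s * (C₀ + 1) * Real.sqrt (nK * (2 * lam)) ≤ (C₀ + 1) * s ^ (25 / 1000 : ℝ) := by
      have h5 := mul_le_mul_of_nonneg_left h2 (show 0 ≤ s * (C₀ + 1) by positivity)
      refine h5.trans (le_of_eq ?_)
      rw [← ad 1 (-(39 / 40)) (25 / 1000) (by norm_num), ← s1]
      ring
    linarith only [h1, h4]
  exact {
    hd := by omega
    hM := D.hM
    hrk := le_rfl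
    geo := by
      have h1 : (((clu + kn) * t + t + 1 : ℕ) : ℝ) ≤ ((2 ^ k : ℕ) : ℝ) := by
        push_cast
        have h2 : ((clu : ℝ) + kn) * t ≤ 2 * s ^ (-(14 / 5) : ℝ) := by
          push_cast at hnS
          refine (mul_le_mul hnS htu (Nat.cast_nonneg _) (by have := rp (-(6 / 5)); positivity)).trans
            (le_of_eq ?_)
          rw [mul_assoc, ad (-(6 / 5)) (-(8 / 5)) (-(14 / 5)) (by norm_num)]
        have h3 : (t : ℝ) ≤ s ^ (-(14 / 5) : ℝ) := htu.trans (anti (by norm_num))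
        have h4 : (1 : ℝ) ≤ s ^ (-(14 / 5) : ℝ) := by
          have := anti (show (-(14 / 5) : ℝ) ≤ 0 by norm_num)
          rwa [Real.rpow_zero] at this
        have h5 := D.rho
        rw [hpk] at h5
        have h6 : s ^ (-3 : ℝ) = s ^ (-(3 : ℝ)) := rfl
        linarith only [B5, h2, h3, h4, h5]
      exact_mod_cast h1
    hc := hc
    hlam := hlam0.le
    hCg := hCg
    nn := ⟨nQ0, nK0, hh0, hm0⟩
    hk₀ := by
      refine ⟨rfl, hk, ?_⟩
      rw [le_div_iff₀ hc] at B7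
      exact B7
    hβ := rfl
    hκ := by
      have := D.he.2
      linarith only [this]
    hW₁ := le_rfl
    e1 := T1
    e2 := T2
    f1 := by
      constructor
      · have h1 := mul_le_mul_of_nonneg_left F1 (show 0 ≤ s * (C₀ + 1) by positivity)
        refine h1.trans (le_trans (le_of_eq ?_) B8)
        rw [← ad 1 (25 / 1000) (1025 / 1000) (by norm_num), ← s1]
        ring
      · refine F1.trans (B9.trans (le_of_eq ?_))
        ring
    f2 := by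
      constructor
      · refine T3.trans ?_
        rw [one_mul] at B14
        exact B14
      · refine T3.trans ?_
        rw [one_mul] at B10
        refine B10.trans (le_of_eq ?_)
        rw [← ad (24 / 1000) 1 (1024 / 1000) (by norm_num), ← s1]
        ring
    f3 := by
      refine le_trans ?_ B11
      have h1 : s * (C₀ + 1) * Cg * nK ≤ (C₀ + 1) * Cg * s ^ (-(1 / 5) : ℝ) := by
        have h2 := mul_le_mul_of_nonneg_left nK1 (show 0 ≤ s * (C₀ + 1) * Cg by positivity)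
        refine h2.trans (le_of_eq ?_)
        rw [← ad 1 (-(6 / 5)) (-(1 / 5)) (by norm_num), ← s1]
        ring
      have h3 := nQ1.trans (anti (show (-(1 / 5) : ℝ) ≤ -(1 / 1000) by norm_num))
      linarith only [h1, h3]
    m2 := by
      constructor
      · have h1 := mul_le_mul_of_nonneg_left hm (show 0 ≤ s * (C₀ + 1) by positivity)
        refine h1.trans (le_trans (le_of_eq ?_) B12)
        rw [← ad 1 (1 / 30) (1 + 1 / 30) rfl, ← s1]
        ring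
      · rw [one_mul] at B13
        refine hm.trans (B13.trans (le_of_eq ?_))
        ring
    m3 := D.MM }

end Pool.Agent.AHH.H41
end
end -- Pool.Agent.Helper41_AHH.KN2
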