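import Pool.Agent.Helper12_MEB.B151

/-!
# Merged copies (generated) of the modules

* `Pool.Agent.Helper10_ABY.CMP`
* `Pool.Agent.Helper82_ABY.VEX`
* `Pool.Agent.Helper72_AHH.Reg`
* `Pool.Agent.Helper72_AHH.Gpa`
* `Pool.Agent.Helper89_FAR.Far4`
* `Pool.Agent.Helper1_AFJ.ENB`
* `Pool.Agent.Helper41_ABY.VDR`
* `Pool.Agent.Helper87_AFJ.DRE`
-/

set_option autoImplicit false

section -- Pool.Agent.Helper10_ABY.CMP

set_option autoImplicit false

open scoped BigOperators Matrix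

noncomputable section

namespace Pool.Agent.ABY.H10

theorem cmp : CmpStmt := by
  intro 𝕜 _ X _ _ M K P g U A ρ h
  have hK0 : ∀ a b, 0 ≤ K a b := fun a b => (norm_nonneg _).trans (h.hM a b)
  have hP0 := h.hP.1
  have hPU := h.hP.2
  have part1 : ∀ N u : X → ℝ,
      (∀ a ∈ A, N a - ∑ b, K a b * (P b * N b) ≤ u a - ∑ b, K a b * (P b * u b)) →
      ∀ a ∈ A, N a ≤ u a := by
    intro N u hNu
    have hD : ∀ a ∈ A, N a - u a ≤ ∑ b, K a b * (P b * (N b - u b)) := by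
      intro a ha
      have h1 := hNu a ha
      have h2 : ∑ b, K a b * (P b * (N b - u b)) =
          ∑ b, K a b * (P b * N b) - ∑ b, K a b * (P b * u b) := by
        rw [← Finset.sum_sub_distrib]
        exact Finset.sum_congr rfl fun b _ => by ring
      rw [h2]
      linarith
    have hU : ∀ b ∈ U, N b - u b ≤ 0 := by
      intro b hb
      obtain ⟨a, ha, hmax⟩ := Finset.exists_max_image U (fun a => (N a - u a) / g a) ⟨b, hb⟩
      have hga := h.hg a (h.hU ha)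
      have hr : (N a - u a) / g a ≤ 0 := by
        by_contra hc
        push Not at hc
        have h1 : N a - u a = (N a - u a) / g a * g a := by
          rw [div_mul_cancel₀]
          exact ne_of_gt hga
        have h2 : ∑ c, K a c * (P c * (N c - u c)) ≤
            ∑ c, (N a - u a) / g a * (K a c * P c * g c) := by
          refine Finset.sum_le_sum fun c _ => ?_
          by_cases hc' : c ∈ U
          · have h3 := hmax c hc'
            have hgc := h.hg c (h.hU hc')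
            have h4 : N c - u c ≤ (N a - u a) / g a * g c := by
              rwa [div_le_iff₀ hgc] at h3
            have h5 := mul_le_mul_of_nonneg_left h4 (mul_nonneg (hK0 a c) (hP0 c))
            linarith
          · rw [hPU c hc']
            simp
        rw [← Finset.mul_sum] at h2
        have h6 := mul_le_mul_of_nonneg_left (h.hK a (h.hU ha)) hc.le
        have h7 := hD a (h.hU ha)
        have h8 : 0 < (N a - u a) / g a * g a := mul_pos hc hga
        have h9 : (N a - u a) / g a * g a ≤ ρ * ((N a - u a) / g a * g a) := by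
          calc (N a - u a) / g a * g a = N a - u a := h1.symm
            _ ≤ (N a - u a) / g a * (ρ * g a) := h7.trans (h2.trans h6)
            _ = ρ * ((N a - u a) / g a * g a) := by ring
        nlinarith [h.hρ.2]
      have h10 := (hmax b hb).trans hr
      have hgb := h.hg b (h.hU hb)
      rw [div_le_iff₀ hgb, zero_mul] at h10
      exact h10
    intro a ha
    have h1 := hD a ha
    have h2 : ∑ b, K a b * (P b * (N b - u b)) ≤ 0 := by
      refine Finset.sum_nonpos fun b _ => ?_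
      by_cases hb : b ∈ U
      · exact mul_nonpos_of_nonneg_of_nonpos (hK0 a b)
          (mul_nonpos_of_nonneg_of_nonpos (hP0 b) (hU b hb))
      · rw [hPU b hb]
        simp
    linarith
  refine ⟨part1, fun f u hf => ?_⟩
  refine part1 (fun a => ‖f a‖) u fun a ha => ?_
  have h1 := hf a ha
  have h2 : ‖f a‖ ≤ ‖f a - ∑ b, M a b * (((P b : ℝ) : 𝕜) * f b)‖ +
      ‖∑ b, M a b * (((P b : ℝ) : 𝕜) * f b)‖ := by
    have := norm_add_le (f a - ∑ b, M a b * (((P b : ℝ) : 𝕜) * f b))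
      (∑ b, M a b * (((P b : ℝ) : 𝕜) * f b))
    rwa [sub_add_cancel] at this
  have h3 : ‖∑ b, M a b * (((P b : ℝ) : 𝕜) * f b)‖ ≤ ∑ b, K a b * (P b * ‖f b‖) := by
    refine (norm_sum_le _ _).trans (Finset.sum_le_sum fun b _ => ?_)
    rw [norm_mul, norm_mul, RCLike.norm_ofReal, abs_of_nonneg (hP0 b)]
    exact mul_le_mul_of_nonneg_right (h.hM a b) (mul_nonneg (hP0 b) (norm_nonneg _))
  show ‖f a‖ - ∑ b, K a b * (P b * ‖f b‖) ≤ _
  linarith

end Pool.Agent.ABY.H10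
end
end -- Pool.Agent.Helper10_ABY.CMP

section -- Pool.Agent.Helper82_ABY.VEX

/-! Block ABY, row VEX. -/

set_option autoImplicit false

open scoped BigOperators Matrix

namespace Pool.Agent.ABY.H82

open Pool.Agent.LE.QF Pool.Agent.AFJ

section

variable {𝕜 : Type} [RCLike 𝕜] {X : Type} [Fintype X] [DecidableEq X]

theorem eqn (M : Matrix X X 𝕜) (P : X → ℝ) (f : X → 𝕜) (a : X) :
    ((1 - M * dg 𝕜 P) *ᵥ f) a = f a - ∑ b, M a b * (((P b : ℝ) : 𝕜) * f b) := by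
  rw [Matrix.sub_mulVec, Matrix.one_mulVec, Pi.sub_apply, ← Matrix.mulVec_mulVec]
  congr 1
  unfold dg
  simp only [Matrix.mulVec, dotProduct, Matrix.diagonal_apply, ite_mul, zero_mul,
    Finset.sum_ite_eq, Finset.mem_univ, if_true]

theorem isu (hC : CmpStmt) (M : Matrix X X 𝕜) (K : Matrix X X ℝ) (P g : X → ℝ) (U A : Finset X)
    (ρ : ℝ) (h : Cmp M K P g U A ρ) : IsUnit (1 - M * dg 𝕜 P).det := by
  rw [← Matrix.isUnit_iff_isUnit_det, ← Matrix.mulVec_injective_iff_isUnit]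
  have key : ∀ f : X → 𝕜, (1 - M * dg 𝕜 P) *ᵥ f = 0 → f = 0 := by
    intro f hf
    have h1 : ∀ a, f a = ∑ b, M a b * (((P b : ℝ) : 𝕜) * f b) := by
      intro a
      have h2 := congrFun hf a
      rw [eqn, Pi.zero_apply, sub_eq_zero] at h2
      exact h2
    have h2 := (hC 𝕜 X M K P g U A ρ h).2 f (fun _ => 0) (by
      intro a _
      rw [← h1 a]
      simp)
    funext a
    rw [h1 a, Pi.zero_apply]
    apply Finset.sum_eq_zero
    intro b _
    by_cases hb : b ∈ A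
    · have h3 : f b = 0 := norm_le_zero_iff.1 (h2 b hb)
      rw [h3, mul_zero, mul_zero]
    · have h3 : P b = 0 := h.hP.2 b fun hb' => hb (h.hU hb')
      rw [h3, RCLike.ofReal_zero, zero_mul, mul_zero]
  intro f f' hff
  have h1 := key (f - f') (by
    rw [Matrix.mulVec_sub]
    exact sub_eq_zero.2 hff)
  exact sub_eq_zero.1 h1

theorem virEq (hC : CmpStmt) (M : Matrix X X 𝕜) (K : Matrix X X ℝ) (P g : X → ℝ) (U A : Finset X)
    (ρ : ℝ) (h : Cmp M K P g U A ρ) (w : X → ℝ) :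
    (1 - M * dg 𝕜 P) *ᵥ vir M P w = M *ᵥ fun x => ((w x : ℝ) : 𝕜) := by
  unfold vir TT
  rw [Matrix.mulVec_mulVec, Matrix.mul_nonsing_inv _ (isu hC M K P g U A ρ h),
    Matrix.one_mulVec]

theorem virPsi (hC : CmpStmt) (M : Matrix X X 𝕜) (K : Matrix X X ℝ) (P g : X → ℝ)
    (U A : Finset X) (ρ : ℝ) (h : Cmp M K P g U A ρ) (w : X → ℝ) (a : X) :
    vir M P w a - ∑ b, M a b * (((P b : ℝ) : 𝕜) * vir M P w b) =
      ∑ b, M a b * ((w b : ℝ) : 𝕜) := by
  rw [← eqn, virEq hC M K P g U A ρ h w]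
  rfl

end

/-- row VEX -/
theorem vex : VexStmt := by
  intro hC 𝕜 _ X _ _ M K P g U A ρ h
  have hK0 : ∀ a b, 0 ≤ K a b := fun a b => (norm_nonneg _).trans (h.hM a b)
  have hKK : Cmp K K P g U A ρ :=
    ⟨fun a b => by rw [Real.norm_eq_abs, abs_of_nonneg (hK0 a b)], h.hP, h.hU, h.hg, h.hρ, h.hK⟩
  have hu := isu hC M K P g U A ρ h
  refine ⟨hu, fun w a => ?_, fun w be hbe => ?_, fun f c hc hf a ha => ?_, fun w hw a ha => ?_⟩
  · have h1 := virPsi hC M K P g U A ρ h w a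
    rw [sub_eq_iff_eq_add] at h1
    rw [h1, ← Finset.sum_add_distrib]
    refine Finset.sum_congr rfl fun b _ => ?_
    rw [psi, mul_add]
  · have h1 : (1 - M * dg 𝕜 P) *ᵥ be = M *ᵥ fun x => ((w x : ℝ) : 𝕜) := by
      funext a
      rw [eqn, hbe a]
      simp only [psi, mul_add, Finset.sum_add_distrib]
      rw [add_sub_cancel_right]
      rfl
    unfold vir TT
    rw [← h1, Matrix.mulVec_mulVec, Matrix.nonsing_inv_mul _ hu, Matrix.one_mulVec]
  · have h1 := (hC 𝕜 X M K P g U A ρ h).2 (TT M P *ᵥ f) (fun x => c / (1 - ρ) * g x) (by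
      intro a ha
      have hinv : ((1 - M * dg 𝕜 P) *ᵥ (TT M P *ᵥ f)) a = f a := by
        unfold TT
        rw [Matrix.mulVec_mulVec, Matrix.mul_nonsing_inv _ hu, Matrix.one_mulVec]
      rw [← eqn, hinv]
      have h2 : ∑ b, K a b * (P b * (c / (1 - ρ) * g b)) =
          c / (1 - ρ) * ∑ b, K a b * P b * g b := by
        rw [Finset.mul_sum]
        exact Finset.sum_congr rfl fun b _ => by ring
      rw [h2]
      have hρ : 0 < 1 - ρ := by linarith [h.hρ.2]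
      have h3 : c / (1 - ρ) * ∑ b, K a b * P b * g b ≤ c / (1 - ρ) * (ρ * g a) :=
        mul_le_mul_of_nonneg_left (h.hK a ha) (div_nonneg hc hρ.le)
      have h4 : c / (1 - ρ) * g a - c / (1 - ρ) * (ρ * g a) = c * g a := by
        field_simp
      linarith [hf a ha])
    exact h1 a ha
  · have h1 := (hC 𝕜 X M K P g U A ρ h).2 (vir M P w) (vir K P w) (by
      intro a _
      rw [virPsi hC M K P g U A ρ h w a]
      have h2 := virPsi (𝕜 := ℝ) hC K K P g U A ρ hKK w a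
      simp only [RCLike.ofReal_real_eq_id, id] at h2
      rw [h2]
      refine (norm_sum_le _ _).trans (Finset.sum_le_sum fun b _ => ?_)
      rw [norm_mul, RCLike.norm_ofReal, abs_of_nonneg (hw b)]
      exact mul_le_mul_of_nonneg_right (h.hM a b) (hw b))
    exact h1 a ha

end Pool.Agent.ABY.H82
end -- Pool.Agent.Helper82_ABY.VEX

section -- Pool.Agent.Helper72_AHH.Reg

/-!
# AHH, row REG: a good configuration after the change of the gauge
-/

set_option autoImplicit false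

open scoped BigOperators NNReal Matrix ComplexConjugate

noncomputable section

namespace Pool.Agent.AHH.H72

open Pool.Agent.ANR (Gr Net)
open Pool.Agent.AGU (WK Chg GpbStmt GhoStmt)
open Pool.Agent.BED (Tor)
open Pool.Agent.LE.QF (BB KK)
open Pool.Agent.AND2B (net kap Vef Hr res)
open Pool.Agent.ANP (Cfg)
open Pool.Agent.AFJ (ind LaR EE)
open Pool.Agent.ABY (vir Yin)
open Pool.Agent.LTG (Fm Bd sT tT qd LB UB mor bon wl wu)

/-- YREG (helper90): block Y after a change of the gauge -/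
def YregStmt (K : ℝ → ℝ → ℝ → ℝ) : Prop :=
  ∀ (X : Type) [Fintype X] [DecidableEq X] (G G' : Matrix X X ℂ) (k k' : X → ℝ) (z dl : X → ℂ)
    (d s c₀ C₀ Cg th e : ℝ) (g : X → ℝ) (R : Finset X), Chg G G' k k' z d → 0 < s → 0 < c₀ →
    1 ≤ C₀ → (∀ a, z a = s * dl a) → (∀ a, ‖dl a‖ ≤ e) → e ≤ c₀ / 4 →
    (∀ a ∈ R, c₀ ≤ g a ∧ g a ≤ C₀ ∧ s * g a ≤ k a ∧ (G a a).im ≤ Cg) →
    Yin G 0 (fun x => ind R x * (s * g x)) g R th → 0 ≤ th → th ≤ 1 →
    Yin G' 0 (fun x => ind R x * (s * (g x + (dl x).im))) (fun x => g x + (dl x).im) R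
      (th + K c₀ C₀ Cg * (d + e))

/-- GPA (helper62): the change of the form restricted to the nodes `A`, `z = 0` off `A` -/
def GpaStmt : Prop :=
  ∀ (X : Type) [Fintype X] [DecidableEq X] (G G' : Matrix X X ℂ) (k k' : X → ℝ) (z : X → ℂ)
    (d : ℝ) (A : Finset X), Chg G G' k k' z d → (∀ x, x ∉ A → z x = 0) → ∀ f : X → ℝ,
    |qd (EE G' k' A) f - qd (EE G k A) f| ≤ 20 * d * qd (EE G k A) f

/-! ### scaling of the normal form -/

section scale

variable {X ep : Type*} [Fintype X] [DecidableEq X] [Fintype ep]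

omit [DecidableEq X] in
theorem mor_smul (s t : ep → X) (al : X → ℝ) (be : ep → ℝ) (c : ℝ) (f h : X → ℝ) :
    mor s t (fun x => c * al x) (fun e => c * be e) f h = c * mor s t al be f h := by
  unfold mor bon
  rw [mul_add, Finset.mul_sum, Finset.mul_sum]
  congr 1
  · exact Finset.sum_congr rfl fun x _ => by ring
  · exact Finset.sum_congr rfl fun x _ => by ring

/-- the normal form after a relative change of the form and of the weights -/
theorem fm_change {s t : ep → X} {A : Finset X} {w w' εl εu : X → ℝ} {bl bu : ep → ℝ}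
    {Q Q' : (X → ℝ) → ℝ} {D : ℝ} (h : Fm s t A w εl εu bl bu Q) (hD : 0 ≤ D) (hD1 : D ≤ 1 / 100)
    (hQ : ∀ f, |Q' f - Q f| ≤ 20 * D * Q f)
    (hw : ∀ x ∈ A, 0 < w x) (hw' : ∀ x ∈ A, (1 - D) ^ 2 * w x ≤ w' x ∧ w' x ≤ (1 + D) ^ 2 * w x)
    (hl : ∀ x ∈ A, 0 ≤ εl x ∧ εl x ≤ 1) (hu : ∀ x ∈ A, 0 ≤ εu x ∧ εu x + 22 * D < 1) :
    Fm s t A w' (fun x => εl x + 56 * D) (fun x => εu x + 22 * D)
      (fun e => (1 - 20 * D) * bl e) (fun e => (1 + 20 * D) * bu e) Q' := by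
  have h20 : 0 < 1 - 20 * D := by linarith only [hD1]
  constructor
  · intro f
    obtain ⟨g, hg⟩ := h.lb f
    refine ⟨g, ?_⟩
    have h1 := (abs_le.1 (hQ f)).1
    have h2 : (1 - 20 * D) * mor s t (wl A w εl) bl f g ≤ Q' f := by
      have := mul_le_mul_of_nonneg_left hg h20.le
      linarith only [h1, this]
    refine le_trans ?_ h2
    rw [← mor_smul]
    unfold mor
    refine add_le_add (Finset.sum_le_sum fun x _ => mul_le_mul_of_nonneg_right ?_ (sq_nonneg _))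
      le_rfl
    unfold wl
    beta_reduce
    by_cases hx : x ∈ A
    · rw [if_pos hx, if_pos hx]
      obtain ⟨l1, l2⟩ := hl x hx
      have a1 := hw x hx
      have a2 := (hw' x hx).2
      rw [div_le_iff₀ (by linarith only [hD, l1])]
      refine a2.trans ?_
      have e1 : (1 - 20 * D) * (w x / (1 + εl x)) * (1 + (εl x + 56 * D)) =
          w x * ((1 - 20 * D) * (1 + (εl x + 56 * D)) / (1 + εl x)) := by
        field_simp
      rw [e1, mul_comm]
      refine mul_le_mul_of_nonneg_left ?_ a1.le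
      rw [le_div_iff₀ (by linarith only [l1])]
      nlinarith only [mul_nonneg hD l1, mul_nonneg hD hD, mul_nonneg (mul_nonneg hD hD) l1,
        mul_le_mul_of_nonneg_left l2 hD, mul_le_mul_of_nonneg_left hD1 hD,
        mul_le_mul_of_nonneg_left l2 (mul_nonneg hD hD)]
    · rw [if_neg hx, if_neg hx]
      simp
  · intro f g
    have h1 := (abs_le.1 (hQ f)).2
    have h2 : Q' f ≤ (1 + 20 * D) * mor s t (wu A w εu) bu f g := by
      have := mul_le_mul_of_nonneg_left (h.ub f g) (by linarith only [hD] : 0 ≤ 1 + 20 * D)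
      linarith
    refine h2.trans ?_
    rw [← mor_smul]
    unfold mor
    refine add_le_add (Finset.sum_le_sum fun x _ => mul_le_mul_of_nonneg_right ?_ (sq_nonneg _))
      le_rfl
    unfold wu
    beta_reduce
    by_cases hx : x ∈ A
    · rw [if_pos hx, if_pos hx]
      obtain ⟨l1, l2⟩ := hu x hx
      have a1 := hw x hx
      have a2 := (hw' x hx).1
      rw [le_div_iff₀ (by linarith only [l2])]
      refine le_trans ?_ a2
      have p1 : 0 < 1 - εu x := by linarith only [hD, l2]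
      have e1 : (1 + 20 * D) * (w x / (1 - εu x)) * (1 - (εu x + 22 * D)) =
          w x * ((1 + 20 * D) * (1 - (εu x + 22 * D)) / (1 - εu x)) := by
        field_simp
      rw [e1, mul_comm ((1 - D) ^ 2)]
      refine mul_le_mul_of_nonneg_left ?_ a1.le
      rw [div_le_iff₀ p1]
      nlinarith only [mul_nonneg hD l1, mul_nonneg hD hD, mul_nonneg (mul_nonneg hD hD) l1,
        mul_nonneg (mul_nonneg hD hD) p1.le]
    · rw [if_neg hx, if_neg hx]
      simp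

end scale

/-! ### REG -/

section reg

variable {d M : ℕ} [NeZero M]

theorem al_rg (T : Cfg (Tor d M)) (m : Tor d M → ℂ) : Al (T.rg m) = Al T := rfl

/-- the numbers of REG: `D = L mis / c₀`, `g₀` bounds `im G_aa` at the nodes, `K` the constant of block
Y, `L₄, Q₄` the bounds in `ℓ⁴` -/
structure RegN (V : Env d M) (q q' : AHH.Num) (s g₀ K L D L₄ Q₄ : ℝ) : Prop where
  s0 : 0 < s
  e0 : 0 < V.e₀
  c0 : 0 < V.c₀ ∧ V.c₀ ≤ 1
  C0 : 1 ≤ V.C₀
  D0 : 0 < V.D₀ ∧ V.D₀ ≤ V.D₁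
  u0 : 0 ≤ V.u₀
  g0 : 1 ≤ g₀
  L1 : 1 ≤ L
  mis0 : 0 ≤ q.mis
  Dd : D = L * q.mis / V.c₀
  D1 : D ≤ 1 / 100
  th0 : 0 ≤ q.tht ∧ q.tht ≤ 1
  ep0 : 0 ≤ q.eps ∧ q.eps ≤ 1
  rh0 : 0 ≤ q.rho ∧ q.rho ≤ 1
  gc : V.c₀ + q'.del ≤ V.m₀.im
  gC : ‖V.m₀‖ + q'.del ≤ V.C₀
  del : q.del + 2 * D * g₀ ≤ q'.del
  mis : (L * q.mis) ^ 2 ≤ q'.mis
  l4 : 0 ≤ L₄ ∧ 0 ≤ Q₄
  lam : q.lam ≤ L₄ ^ 4 ∧ 4 * D ^ 4 * g₀ ^ 2 * g₀ / (s * V.c₀) ≤ Q₄ ^ 4 ∧ (L₄ + Q₄) ^ 4 ≤ q'.lam
  tht : q.tht + K * (2 * D) ≤ q'.tht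
  K0 : 0 ≤ K
  eps : q.eps + 56 * D ≤ q'.eps
  rho : q.rho + 56 * D ≤ q'.rho
  u1 : V.u₀ + q'.rho < 1

/-- REG, the transfer -/
theorem reg_of_del (hGPB : GpbStmt) (hGHO : GhoStmt) (hGPA : GpaStmt)
    {K : ℝ → ℝ → ℝ → ℝ} (hY : YregStmt K) {V : Env d M} {q q' : AHH.Num}
    {s g₀ L D L₄ Q₄ : ℝ} {T : Cfg (Tor d M)} {run : Finset (Tor d M)} {δ : Tor d M → ℂ}
    (hN : RegN V q q' s g₀ (K V.c₀ V.C₀ g₀) L D L₄ Q₄) (h : StN V q s T run)
    (hs : ∀ x ∈ run, (T.s x : ℝ) = s)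
    (hg : ∀ x ∈ Al T, (net V.E V.e₀ T x x).im ≤ g₀)
    (hR : Rgd (net V.E V.e₀ T) (kap V.e₀ T) run T.mb s q.mis V.c₀ L δ) :
    StN V q' s (T.rg fun x => T.mb x + δ x) run := by
  obtain ⟨r1, r2, r3, r4⟩ := hR
  have hc0 := hN.c0.1
  have hL0 : 0 < L := by linarith [hN.L1]
  have hLm : 0 ≤ L * q.mis := mul_nonneg hL0.le hN.mis0
  have hD0 : 0 ≤ D := by
    rw [hN.Dd]
    positivity
  have hLD : L * q.mis = D * V.c₀ := by
    rw [hN.Dd]
    field_simp
  have hLD' : L * q.mis ≤ D := by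
    rw [hLD]
    have := mul_le_mul_of_nonneg_left hN.c0.2 hD0
    linarith
  have halive : ∀ x, x ∉ Al T → (T.s x : ℝ) = 0 := by
    intro x hx
    by_contra h0
    apply hx
    rw [Al, Finset.mem_filter]
    refine ⟨Finset.mem_univ _, ?_⟩
    rw [pos_iff_ne_zero]
    intro h1
    apply h0
    rw [h1]
    simp
  have hgg : ∀ x ∈ Al T, V.c₀ ≤ gg T x := fun x hx => (h.gau x hx).1
  have hkal : ∀ x ∈ Al T, (T.s x : ℝ) * gg T x ≤ kap V.e₀ T x := by
    intro x _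
    unfold kap gg
    linarith [hN.e0]
  have hkpos : ∀ x, 0 < kap V.e₀ T x := by
    intro x
    by_cases hx : x ∈ Al T
    · have h1 := hgg x hx
      have h2 : 0 ≤ (T.s x : ℝ) * gg T x := mul_nonneg (NNReal.coe_nonneg _) (by linarith)
      unfold kap
      unfold gg at h2
      linarith [hN.e0]
    · unfold kap
      rw [halive x hx]
      linarith [hN.e0]
  -- the new resolvent
  obtain ⟨T', hT'⟩ : ∃ T', T' = T.rg fun x => T.mb x + δ x := ⟨_, rfl⟩
  rw [← hT']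
  have hzz : ∀ x, (s : ℂ) * δ x = (T.s x : ℝ) * δ x := by
    intro x
    by_cases hx : x ∈ run
    · rw [hs x hx]
    · rw [r1 x hx]
      simp
  have hchg : Chg (net V.E V.e₀ T) (net V.E V.e₀ T') (kap V.e₀ T) (kap V.e₀ T')
      (fun a => (s : ℂ) * δ a) D := by
    rw [hT']
    refine chg_net hkpos ⟨hD0, by linarith only [hN.D1]⟩ hzz fun x => ?_
    have := r3 x
    rwa [← hN.Dd] at this
  have hAl : Al T' = Al T := by
    rw [hT']
    rfl
  have hggx : ∀ x, gg T' x = gg T x + (δ x).im := by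
    intro x
    rw [hT']
    rfl
  have hmb : ∀ x, T'.mb x = T.mb x + δ x := fun x => by rw [hT']; rfl
  have hsx : ∀ x, T'.s x = T.s x := fun x => by rw [hT']; rfl
  have hδ : ∀ x, ‖δ x‖ ≤ D * V.c₀ := fun x => by rw [← hLD]; exact r2 x
  obtain ⟨b1, b2, b3, b4, b5, b6⟩ := hGPB (Tor d M) _ _ _ _ _ D hchg
  have him : ∀ x, 0 ≤ (net V.E V.e₀ T x x).im := by
    intro x
    rw [← ward hchg.h0 x]
    exact Finset.sum_nonneg fun y _ => mul_nonneg (hkpos y).le (sq_nonneg _)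
  have hkrun : ∀ x ∈ run, s * V.c₀ ≤ kap V.e₀ T x := by
    intro x hx
    have e1 := hkal x (h.alv hx)
    rw [hs x hx] at e1
    have e2 := mul_le_mul_of_nonneg_left (hgg x (h.alv hx)) hN.s0.le
    linarith only [e1, e2]
  have hgau : Gb V T' q'.del := by
    intro x hx
    rw [hAl] at hx
    obtain ⟨a1, a2, a3⟩ := h.gau x hx
    have a4 : ‖T'.mb x - V.m₀‖ ≤ q'.del := by
      rw [hmb, show T.mb x + δ x - V.m₀ = (T.mb x - V.m₀) + δ x by ring]
      refine (norm_add_le _ _).trans ?_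
      have e1 := hδ x
      have e2 := hN.del
      have e3 : D * V.c₀ ≤ 2 * D * g₀ := by
        have := mul_le_mul_of_nonneg_left hN.c0.2 hD0
        have := mul_le_mul_of_nonneg_left hN.g0 hD0
        nlinarith only [hD0, hLD, hLD', this]
      linarith
    refine ⟨?_, ?_, a4⟩
    · have e1 := (Complex.abs_im_le_norm (T'.mb x - V.m₀)).trans a4
      rw [Complex.sub_im] at e1
      have e2 := (abs_le.1 e1).1
      have e3 := hN.gc
      unfold gg
      linarith only [e2, e3]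
    · have e1 := norm_add_le (T'.mb x - V.m₀) V.m₀
      rw [sub_add_cancel] at e1
      have e2 := hN.gC
      linarith only [a4, e1, e2]
  refine ⟨hgau, ?_, ?_, ?_, ?_, ?_, ?_⟩
  · rw [hAl]
    exact h.alv
  · intro x hx
    have := r4 _ _ (by rw [← hN.Dd]; exact hchg) x hx
    rw [hmb]
    refine this.trans ?_
    rw [← mul_pow]
    exact hN.mis
  · intro x hx y hy
    rw [hAl] at hx hy
    have e1 := b2 x y
    have e2 : (net V.E V.e₀ T x x).im * (net V.E V.e₀ T y y).im ≤ g₀ * g₀ := by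
      exact mul_le_mul (hg x hx) (hg y hy) (him y) (by linarith [hN.g0])
    have e3 : ‖net V.E V.e₀ T' x y - net V.E V.e₀ T x y‖ ≤ 2 * D * g₀ := by
      refine abs_le_of_sq_le_sq' ?_ (by nlinarith only [hN.g0, hD0]) |>.2
      nlinarith [sq_nonneg D]
    have e4 := norm_add_le (net V.E V.e₀ T' x y - net V.E V.e₀ T x y)
      (net V.E V.e₀ T x y - V.G₀ x y)
    rw [sub_add_sub_cancel] at e4
    have e5 := h.ent x hx y hy
    linarith [hN.del]
  · intro x hx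
    rw [hAl] at hx
    obtain ⟨e1, e2, e3⟩ := hN.lam
    have k4 : ∀ G : Matrix (Tor d M) (Tor d M) ℂ, LaR G run x = ∑ y ∈ run, ‖G x y‖ ^ 4 := by
      intro G
      unfold LaR KK
      exact Finset.sum_congr rfl fun y _ => by ring
    rw [k4]
    refine le_trans ?_ e3
    refine hGHO (Tor d M) run (fun y => net V.E V.e₀ T x y) (fun y => net V.E V.e₀ T' x y) L₄ Q₄
      hN.l4.1 hN.l4.2 ?_ ?_
    · rw [← k4]
      exact (h.lar x hx).trans e1
    · refine (b6 x run (s * V.c₀) g₀ (mul_pos hN.s0 hc0) (by linarith only [hN.g0])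
        fun b hb => ⟨hkrun b hb, hg b (h.alv hb)⟩).trans (le_trans ?_ e2)
      have e4 : (net V.E V.e₀ T x x).im ^ 2 ≤ g₀ ^ 2 := pow_le_pow_left₀ (him x) (hg x hx) 2
      have e5 : 0 < s * V.c₀ := mul_pos hN.s0 hc0
      have e6 : 0 ≤ g₀ := by linarith only [hN.g0]
      gcongr
  · intro a ha
    have hpv : ∀ U : Cfg (Tor d M), (∀ x, U.s x = T.s x) → pv U run s = 0 := by
      intro U hU
      funext x
      unfold pv ind
      by_cases hx : x ∈ run
      · rw [if_pos hx, hU x, hs x hx]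
        simp
      · rw [if_neg hx]
        simp
    have hy1 : Yin (net V.E V.e₀ T) 0 (fun x => ind run x * (s * gg T x)) (gg T) run q.tht := by
      intro b hb
      have := h.yin b hb
      unfold yy at this
      rw [hpv T fun _ => rfl] at this
      exact this
    have hy2 := hY (Tor d M) _ _ _ _ _ δ D s V.c₀ V.C₀ g₀ q.tht (D * V.c₀) (gg T) run hchg hN.s0
      hc0 hN.C0 (fun a => rfl) hδ (by nlinarith only [hN.D1, hc0]) (fun b hb => by
        have hb' := h.alv hb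
        refine ⟨hgg b hb', ?_, ?_, hg b hb'⟩
        · exact (Complex.im_le_norm _).trans (h.gau b hb').2.1
        · have := hkal b hb'
          rwa [hs b hb] at this) hy1 hN.th0.1 hN.th0.2 a ha
    unfold yy
    rw [hpv T' hsx]
    have hpw : pw T' run s = fun x => ind run x * (s * (gg T x + (δ x).im)) := by
      funext x
      unfold pw
      rw [hggx]
    rw [hpw, hggx a]
    refine hy2.trans ?_
    have e1 : 0 ≤ gg T a + (δ a).im := by
      have e2 := neg_abs_le (δ a).im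
      have e3 := Complex.abs_im_le_norm (δ a)
      have e4 := hδ a
      have e5 := hgg a (h.alv ha)
      nlinarith only [hN.D1, hc0, e2, e3, e4, e5]
    refine mul_le_mul_of_nonneg_right ?_ e1
    have e2 : K V.c₀ V.C₀ g₀ * (D + D * V.c₀) ≤ K V.c₀ V.C₀ g₀ * (2 * D) := by
      refine mul_le_mul_of_nonneg_left ?_ hN.K0
      have := mul_le_mul_of_nonneg_left hN.c0.2 hD0
      linarith
    linarith only [hN.tht, e2]
  · obtain ⟨εl, εu, bl, bu, f1, f2, f3⟩ := h.frm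
    have hz0 : ∀ x, x ∉ Al T → (s : ℂ) * δ x = 0 := by
      intro x hx
      rw [r1 x (fun hr => hx (h.alv hr))]
      simp
    have g1 := hGPA (Tor d M) _ _ _ _ _ D (Al T) hchg hz0
    have hww : ∀ x ∈ Al T, 0 < ww V.e₀ T x := fun x hx =>
      mul_pos (hkpos x) (by linarith only [hgg x hx, hc0])
    have hww' : ∀ x ∈ Al T, (1 - D) ^ 2 * ww V.e₀ T x ≤ ww V.e₀ T' x ∧
        ww V.e₀ T' x ≤ (1 + D) ^ 2 * ww V.e₀ T x := by
      intro x hx
      have p1 := hkpos x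
      have p2 := hgg x hx
      have p3 : |((s : ℂ) * δ x).im| ≤ D * kap V.e₀ T x :=
        (Complex.abs_im_le_norm _).trans (hchg.hz x)
      have p4 : |(δ x).im| ≤ D * gg T x := by
        refine (Complex.abs_im_le_norm _).trans ((hδ x).trans ?_)
        exact mul_le_mul_of_nonneg_left p2 hD0
      have p5 := hchg.hk x
      have p6 : ww V.e₀ T' x = (kap V.e₀ T x + ((s : ℂ) * δ x).im) * (gg T x + (δ x).im) := by
        unfold ww
        rw [p5, hggx]
      obtain ⟨u1, u2⟩ := abs_le.1 p3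
      obtain ⟨v1, v2⟩ := abs_le.1 p4
      have p7 : 0 < gg T x := by linarith only [hc0, p2]
      have hD1 := hN.D1
      rw [p6]
      unfold ww
      constructor
      · calc (1 - D) ^ 2 * (kap V.e₀ T x * gg T x)
            = ((1 - D) * kap V.e₀ T x) * ((1 - D) * gg T x) := by ring
          _ ≤ _ := by
            refine mul_le_mul (by linarith only [u1]) (by linarith) ?_ ?_
            · exact mul_nonneg (by linarith) p7.le
            · have : 0 ≤ (1 - D) * kap V.e₀ T x := mul_nonneg (by linarith) p1.le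
              linarith only [u1, this]
      · calc _ ≤ ((1 + D) * kap V.e₀ T x) * ((1 + D) * gg T x) := by
              refine mul_le_mul (by linarith only [u2]) (by linarith) ?_ ?_
              · have : 0 ≤ (1 - D) * gg T x := mul_nonneg (by linarith only [hD1]) p7.le
                linarith
              · exact mul_nonneg (by linarith) p1.le
          _ = _ := by ring
    have hrho := hN.rho
    have heps := hN.eps
    have hu1 := hN.u1
    have hfm := fm_change (w' := ww V.e₀ T') (Q' := qd (Ef V.E V.e₀ T')) f1 hD0 hN.D1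
      (fun f => by
        have := g1 f
        unfold Ef
        rw [hAl]
        exact this) hww hww' (fun x hx => ⟨(f2 x hx).1, (f2 x hx).2.1.trans (by
          show (if x ∈ run then q.eps else q.rho) ≤ 1
          split_ifs
          · exact hN.ep0.2
          · exact hN.rh0.2)⟩) (fun x hx => ⟨(f2 x hx).2.2.1, by
          have := (f2 x hx).2.2.2
          linarith only [hD0, hrho, hu1, this]⟩)
    refine ⟨_, _, _, _, by rw [hAl]; exact hfm, ?_, ?_⟩
    · intro x hx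
      rw [hAl] at hx
      obtain ⟨a1, a2, a3, a4⟩ := f2 x hx
      refine ⟨by positivity, ?_, by positivity, by linarith⟩
      have a2' : εl x ≤ if x ∈ run then q.eps else q.rho := a2
      show εl x + 56 * D ≤ if x ∈ run then q'.eps else q'.rho
      split_ifs at a2' ⊢ <;> linarith
    · intro e
      obtain ⟨a1, a2, a3⟩ := f3 e
      obtain ⟨d1, d2⟩ := hN.D0
      have hD1 := hN.D1
      have hr := hN.rh0
      have d3 : 0 < V.D₁ := by linarith only [d1, d2]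
      refine ⟨?_, ?_, ?_⟩
      · calc V.D₀ * (1 - q'.rho) ≤ V.D₀ * (1 - q.rho - 20 * D) :=
              mul_le_mul_of_nonneg_left (by linarith only [hD0, hrho]) d1.le
          _ ≤ (1 - 20 * D) * (V.D₀ * (1 - q.rho)) := by
              nlinarith only [mul_nonneg (mul_nonneg d1.le hD0) hr.1]
          _ ≤ (1 - 20 * D) * bl e := mul_le_mul_of_nonneg_left a1 (by linarith only [hD1])
      · nlinarith only [mul_nonneg hD0 (d3.le.trans a2), hD0, a2, d3]
      · calc (1 + 20 * D) * bu e ≤ (1 + 20 * D) * (V.D₁ * (1 + q.rho)) :=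
              mul_le_mul_of_nonneg_left a3 (by linarith only [hD0])
          _ ≤ V.D₁ * (1 + (q.rho + 56 * D)) := by
              nlinarith only [mul_nonneg (mul_nonneg d3.le hD0) hr.1,
                mul_le_mul_of_nonneg_left hr.2 (mul_nonneg d3.le hD0)]
          _ ≤ V.D₁ * (1 + q'.rho) := mul_le_mul_of_nonneg_left (by linarith) d3.le

end reg

end Pool.Agent.AHH.H72
end
end -- Pool.Agent.Helper72_AHH.Reg

section -- Pool.Agent.Helper72_AHH.Gpa

/-!
# AHH, row GPA: the change of the form restricted to the nodes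
-/

set_option autoImplicit false

open scoped BigOperators Matrix

noncomputable section

namespace Pool.Agent.AHH.H72

open Pool.Agent.AGU (WK Chg GwbStmt)
open Pool.Agent.AGU.H62 (vv vv_add vv_sq left right ident ef_eq kk)
open Pool.Agent.AFJ (EE cd)
open Pool.Agent.LE.QF (Dl KK)
open Pool.Agent.LTG (qd)

variable {X : Type} [Fintype X] [DecidableEq X]

/-- the restriction of a matrix -/
def msk (A : Finset X) (M : Matrix X X ℂ) : Matrix X X ℂ :=
  fun a b => if a ∈ A ∧ b ∈ A then M a b else 0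

omit [Fintype X] in
theorem msk_apply (A : Finset X) (M : Matrix X X ℂ) (a b : X) :
    msk A M a b = if a ∈ A ∧ b ∈ A then M a b else 0 := rfl

omit [Fintype X] in
theorem msk_add (A : Finset X) (M M' : Matrix X X ℂ) : msk A (M + M') = msk A M + msk A M' := by
  ext a b
  show (if a ∈ A ∧ b ∈ A then M a b + M' a b else 0) =
    (if a ∈ A ∧ b ∈ A then M a b else 0) + (if a ∈ A ∧ b ∈ A then M' a b else 0)
  split_ifs
  · rfl
  · rw [add_zero]

theorem msk_le {k : X → ℝ} (hk : ∀ a, 0 < k a) (A : Finset X) (M : Matrix X X ℂ) :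
    ‖vv k (msk A M)‖ ≤ ‖vv k M‖ := by
  apply (pow_le_pow_iff_left₀ (norm_nonneg _) (norm_nonneg _) two_ne_zero).1
  rw [vv_sq hk, vv_sq hk]
  refine Finset.sum_le_sum fun a _ => Finset.sum_le_sum fun b _ => ?_
  have h0 := (mul_pos (hk a) (hk b)).le
  rw [msk_apply]
  split_ifs
  · exact le_rfl
  · rw [norm_zero]
    have : 0 ≤ k a * k b * ‖M a b‖ ^ 2 := mul_nonneg h0 (sq_nonneg _)
    simpa using this

theorem msk_left (A : Finset X) (G M : Matrix X X ℂ) {z : X → ℂ} (hz : ∀ x, x ∉ A → z x = 0) :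
    msk A (G * Matrix.diagonal z * M) = msk A (G * Matrix.diagonal z * msk A M) := by
  ext a b
  rw [msk_apply, msk_apply]
  split_ifs with h
  · rw [Matrix.mul_apply, Matrix.mul_apply]
    refine Finset.sum_congr rfl fun c _ => ?_
    rw [Matrix.mul_diagonal, msk_apply]
    by_cases hc : c ∈ A
    · rw [if_pos ⟨hc, h.2⟩]
    · rw [hz c hc]
      simp
  · rfl

theorem msk_right (A : Finset X) (G M : Matrix X X ℂ) {z : X → ℂ} (hz : ∀ x, x ∉ A → z x = 0) :
    msk A (M * Matrix.diagonal z * G) = msk A (msk A M * Matrix.diagonal z * G) := by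
  ext a b
  rw [msk_apply, msk_apply]
  split_ifs with h
  · rw [Matrix.mul_apply, Matrix.mul_apply]
    refine Finset.sum_congr rfl fun c _ => ?_
    rw [Matrix.mul_diagonal, Matrix.mul_diagonal, msk_apply]
    by_cases hc : c ∈ A
    · rw [if_pos ⟨h.1, hc⟩]
    · rw [hz c hc]
      simp
  · rfl

/-- the form of the nodes -/
theorem qd_EE {G : Matrix X X ℂ} {k : X → ℝ} (hG : ∀ a b, G a b = G b a) (A : Finset X)
    (f : X → ℝ) : qd (EE G k A) f =
      1 / 2 * ∑ a, ∑ b, if a ∈ A ∧ b ∈ A then k a * k b * ‖G a b‖ ^ 2 * (f a - f b) ^ 2 else 0 := by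
  obtain ⟨K, hK⟩ : ∃ K : Matrix X X ℝ, K = cd G k A := ⟨_, rfl⟩
  have hs : ∀ a b, K a b = K b a := by
    intro a b
    rw [hK]
    unfold cd KK
    rw [hG a b]
    by_cases h : a ∈ A ∧ b ∈ A
    · rw [if_pos h, if_pos ⟨h.2, h.1⟩]
      ring
    · rw [if_neg h, if_neg fun h' => h ⟨h'.2, h'.1⟩]
  have h1 : qd (EE G k A) f = ∑ a, ∑ b, K a b * (f a * (f a - f b)) := by
    unfold qd EE
    rw [← hK]
    refine Finset.sum_congr rfl fun a _ => ?_
    unfold Dl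
    rw [Matrix.sub_mulVec, Pi.sub_apply, Matrix.mulVec_diagonal, Matrix.mulVec, dotProduct,
      Finset.sum_mul, ← Finset.sum_sub_distrib, Finset.mul_sum]
    refine Finset.sum_congr rfl fun b _ => ?_
    ring
  have h2 : ∑ a, ∑ b, K a b * (f a * (f a - f b)) = ∑ a, ∑ b, K a b * (f b * (f b - f a)) := by
    rw [Finset.sum_comm]
    refine Finset.sum_congr rfl fun a _ => Finset.sum_congr rfl fun b _ => ?_
    rw [hs b a]
  have h3 : ∑ a, ∑ b, K a b * (f a - f b) ^ 2 = 2 * ∑ a, ∑ b, K a b * (f a * (f a - f b)) := by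
    rw [two_mul]
    nth_rw 2 [h2]
    rw [← Finset.sum_add_distrib]
    refine Finset.sum_congr rfl fun a _ => ?_
    rw [← Finset.sum_add_distrib]
    refine Finset.sum_congr rfl fun b _ => ?_
    ring
  have h4 : (∑ a, ∑ b, if a ∈ A ∧ b ∈ A then k a * k b * ‖G a b‖ ^ 2 * (f a - f b) ^ 2 else 0) =
      ∑ a, ∑ b, K a b * (f a - f b) ^ 2 := by
    refine Finset.sum_congr rfl fun a _ => Finset.sum_congr rfl fun b _ => ?_
    rw [hK]
    unfold cd KK
    split_ifs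
    · rfl
    · rw [zero_mul]
  rw [h1, h4, h3]
  ring

/-- the form as a norm -/
theorem qd_norm {G : Matrix X X ℂ} {k : X → ℝ} (hG : ∀ a b, G a b = G b a) (hk : ∀ a, 0 < k a)
    (A : Finset X) (f : X → ℝ) : qd (EE G k A) f = 1 / 2 *
      ‖vv k (msk A (Matrix.diagonal (fun a => (f a : ℂ)) * G -
        G * Matrix.diagonal (fun a => (f a : ℂ))))‖ ^ 2 := by
  rw [qd_EE hG, vv_sq hk]
  refine congrArg (fun x => 1 / 2 * x) ?_
  refine Finset.sum_congr rfl fun a _ => Finset.sum_congr rfl fun b _ => ?_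
  rw [msk_apply]
  by_cases h : a ∈ A ∧ b ∈ A
  · rw [if_pos h, if_pos h, ef_eq G f a b]
  · rw [if_neg h, if_neg h]
    simp

theorem gpa (hG : GwbStmt) : GpaStmt := by
  intro X _ _ G G' k k' z d A h hz f
  have hd := h.hd
  have hk := h.h0.hk
  set F : Matrix X X ℂ := Matrix.diagonal (fun a => (f a : ℂ)) * G -
      G * Matrix.diagonal (fun a => (f a : ℂ)) with hF
  set F' : Matrix X X ℂ := Matrix.diagonal (fun a => (f a : ℂ)) * G' -
      G' * Matrix.diagonal (fun a => (f a : ℂ)) with hF'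
  set N : ℝ := ‖vv k (msk A F)‖ with hN
  set N' : ℝ := ‖vv k (msk A F')‖ with hN'
  have hN0 : 0 ≤ N := norm_nonneg _
  have hN0' : 0 ≤ N' := norm_nonneg _
  have hEF : qd (EE G k A) f = 1 / 2 * N ^ 2 := qd_norm h.h0.hs hk A f
  have hid := ident h (fun a => (f a : ℂ))
  rw [← hF, ← hF'] at hid
  -- the norm of the difference
  have hdiff : ‖vv k (msk A (G' * Matrix.diagonal z * F + F * Matrix.diagonal z * G' +
      G' * Matrix.diagonal z * (F * Matrix.diagonal z * G')))‖ ≤ 7 / 2 * d * N := by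
    rw [msk_add, msk_add, vv_add, vv_add]
    have h1 : ‖vv k (msk A (G' * Matrix.diagonal z * F))‖ ≤ 4 / 3 * d * N := by
      rw [msk_left A G' F hz]
      exact (msk_le hk A _).trans (left hG h (msk A F))
    have h2 : ‖vv k (msk A (F * Matrix.diagonal z * G'))‖ ≤ 4 / 3 * d * N := by
      rw [msk_right A G' F hz]
      exact (msk_le hk A _).trans (right hG h (msk A F))
    have h3 : ‖vv k (msk A (G' * Matrix.diagonal z * (F * Matrix.diagonal z * G')))‖ ≤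
        4 / 3 * d * (4 / 3 * d * N) := by
      rw [msk_left A G' _ hz]
      refine (msk_le hk A _).trans ((left hG h _).trans ?_)
      exact mul_le_mul_of_nonneg_left h2 (by linarith [hd.1])
    have h5 : 4 / 3 * d * (4 / 3 * d * N) ≤ 4 / 9 * d * N := by
      have h8 : 0 ≤ d * N := mul_nonneg hd.1 hN0
      have h9 := mul_le_mul_of_nonneg_right hd.2 h8
      linarith
    have h6 : 0 ≤ d * N := mul_nonneg hd.1 hN0
    refine (norm_add_le _ _).trans ?_
    have h7 := norm_add_le (vv k (msk A (G' * Matrix.diagonal z * F)))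
      (vv k (msk A (F * Matrix.diagonal z * G')))
    linarith
  have hup : N' ≤ (1 + 7 / 2 * d) * N := by
    have e : vv k (msk A F') = vv k (msk A F) + vv k (msk A (G' * Matrix.diagonal z * F +
        F * Matrix.diagonal z * G' +
        G' * Matrix.diagonal z * (F * Matrix.diagonal z * G'))) := by
      rw [← vv_add, ← msk_add, ← hid]
    rw [hN', e]
    refine (norm_add_le _ _).trans ?_
    linarith
  have hlo : (1 - 7 / 2 * d) * N ≤ N' := by
    have e : vv k (msk A F) = vv k (msk A F') - vv k (msk A (G' * Matrix.diagonal z * F +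
        F * Matrix.diagonal z * G' +
        G' * Matrix.diagonal z * (F * Matrix.diagonal z * G'))) := by
      rw [eq_sub_iff_add_eq, ← vv_add, ← msk_add, ← hid]
    have h1 : N ≤ N' + 7 / 2 * d * N := by
      calc N = ‖vv k (msk A F') - vv k (msk A (G' * Matrix.diagonal z * F +
        F * Matrix.diagonal z * G' +
        G' * Matrix.diagonal z * (F * Matrix.diagonal z * G')))‖ := by rw [hN, e]
        _ ≤ _ := (norm_sub_le _ _).trans (by linarith)
    linarith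
  -- the weights
  have hN2 : N' ^ 2 = ∑ a, ∑ b, if a ∈ A ∧ b ∈ A then
      k a * k b * ‖G' a b‖ ^ 2 * (f a - f b) ^ 2 else 0 := by
    rw [hN', vv_sq hk]
    refine Finset.sum_congr rfl fun a _ => Finset.sum_congr rfl fun b _ => ?_
    rw [msk_apply]
    by_cases hab : a ∈ A ∧ b ∈ A
    · rw [if_pos hab, if_pos hab, hF', ef_eq (k := k) G' f a b]
    · rw [if_neg hab, if_neg hab]
      simp
  have hEF1 : qd (EE G' k' A) f ≤ (1 + d) ^ 2 * (1 / 2 * N' ^ 2) := by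
    rw [qd_EE h.h1.hs, hN2]
    have : (1 + d) ^ 2 * (1 / 2 * ∑ a, ∑ b, if a ∈ A ∧ b ∈ A then
        k a * k b * ‖G' a b‖ ^ 2 * (f a - f b) ^ 2 else 0) =
        1 / 2 * ∑ a, ∑ b, (1 + d) ^ 2 * (if a ∈ A ∧ b ∈ A then
          k a * k b * ‖G' a b‖ ^ 2 * (f a - f b) ^ 2 else 0) := by
      simp only [Finset.mul_sum]
      refine Finset.sum_congr rfl fun a _ => Finset.sum_congr rfl fun b _ => ?_
      ring
    rw [this]
    refine mul_le_mul_of_nonneg_left ?_ (by norm_num)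
    refine Finset.sum_le_sum fun a _ => Finset.sum_le_sum fun b _ => ?_
    by_cases hab : a ∈ A ∧ b ∈ A
    · rw [if_pos hab, if_pos hab]
      have ha := kk h a
      have hb := kk h b
      have ha0 := hk a
      have hb0 := hk b
      have h1 : k' a * k' b ≤ ((1 + d) * k a) * ((1 + d) * k b) :=
        mul_le_mul ha.2 hb.2 (h.h1.hk b).le (mul_nonneg (by linarith [hd.1]) ha0.le)
      have h2 : 0 ≤ ‖G' a b‖ ^ 2 * (f a - f b) ^ 2 := mul_nonneg (sq_nonneg _) (sq_nonneg _)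
      calc k' a * k' b * ‖G' a b‖ ^ 2 * (f a - f b) ^ 2
          = k' a * k' b * (‖G' a b‖ ^ 2 * (f a - f b) ^ 2) := by ring
        _ ≤ ((1 + d) * k a) * ((1 + d) * k b) * (‖G' a b‖ ^ 2 * (f a - f b) ^ 2) :=
            mul_le_mul_of_nonneg_right h1 h2
        _ = (1 + d) ^ 2 * (k a * k b * ‖G' a b‖ ^ 2 * (f a - f b) ^ 2) := by ring
    · rw [if_neg hab, if_neg hab, mul_zero]
  have hEF2 : (1 - d) ^ 2 * (1 / 2 * N' ^ 2) ≤ qd (EE G' k' A) f := by
    rw [qd_EE h.h1.hs, hN2]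
    have : (1 - d) ^ 2 * (1 / 2 * ∑ a, ∑ b, if a ∈ A ∧ b ∈ A then
        k a * k b * ‖G' a b‖ ^ 2 * (f a - f b) ^ 2 else 0) =
        1 / 2 * ∑ a, ∑ b, (1 - d) ^ 2 * (if a ∈ A ∧ b ∈ A then
          k a * k b * ‖G' a b‖ ^ 2 * (f a - f b) ^ 2 else 0) := by
      simp only [Finset.mul_sum]
      refine Finset.sum_congr rfl fun a _ => Finset.sum_congr rfl fun b _ => ?_
      ring
    rw [this]
    refine mul_le_mul_of_nonneg_left ?_ (by norm_num)
    refine Finset.sum_le_sum fun a _ => Finset.sum_le_sum fun b _ => ?_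
    by_cases hab : a ∈ A ∧ b ∈ A
    · rw [if_pos hab, if_pos hab]
      have ha := kk h a
      have hb := kk h b
      have ha0 := hk a
      have hb0 := hk b
      have h1 : ((1 - d) * k a) * ((1 - d) * k b) ≤ k' a * k' b :=
        mul_le_mul ha.1 hb.1 (mul_nonneg (by linarith [hd.2]) hb0.le) (h.h1.hk a).le
      have h2 : 0 ≤ ‖G' a b‖ ^ 2 * (f a - f b) ^ 2 := mul_nonneg (sq_nonneg _) (sq_nonneg _)
      calc (1 - d) ^ 2 * (k a * k b * ‖G' a b‖ ^ 2 * (f a - f b) ^ 2)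
          = ((1 - d) * k a) * ((1 - d) * k b) * (‖G' a b‖ ^ 2 * (f a - f b) ^ 2) := by ring
        _ ≤ k' a * k' b * (‖G' a b‖ ^ 2 * (f a - f b) ^ 2) := mul_le_mul_of_nonneg_right h1 h2
        _ = k' a * k' b * ‖G' a b‖ ^ 2 * (f a - f b) ^ 2 := by ring
    · rw [if_neg hab, if_neg hab, mul_zero]
  have hNN : 0 ≤ N ^ 2 := sq_nonneg _
  have hup2 : N' ^ 2 ≤ (1 + 7 / 2 * d) ^ 2 * N ^ 2 := by
    rw [← mul_pow]
    exact pow_le_pow_left₀ hN0' hup 2
  have hlo2 : (1 - 7 / 2 * d) ^ 2 * N ^ 2 ≤ N' ^ 2 := by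
    rw [← mul_pow]
    exact pow_le_pow_left₀ (mul_nonneg (by linarith [hd.2]) hN0) hlo 2
  rw [hEF, abs_le]
  constructor
  · have h1 : (1 - d) ^ 2 * (1 / 2 * ((1 - 7 / 2 * d) ^ 2 * N ^ 2)) ≤ qd (EE G' k' A) f := by
      exact le_trans (mul_le_mul_of_nonneg_left (mul_le_mul_of_nonneg_left hlo2 (by norm_num))
        (sq_nonneg _)) hEF2
    have h2 : 1 - 20 * d ≤ (1 - d) ^ 2 * (1 - 7 / 2 * d) ^ 2 := by
      have h3 : 1 - 9 / 2 * d ≤ (1 - d) * (1 - 7 / 2 * d) := by linarith [sq_nonneg d]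
      rcases le_or_gt 0 (1 - 9 / 2 * d) with h4 | h4
      · have h5 : (1 - 9 / 2 * d) ^ 2 ≤ ((1 - d) * (1 - 7 / 2 * d)) ^ 2 :=
          pow_le_pow_left₀ h4 h3 2
        rw [mul_pow] at h5
        linarith [hd.1, sq_nonneg d]
      · have h5 : 0 ≤ (1 - d) ^ 2 * (1 - 7 / 2 * d) ^ 2 := mul_nonneg (sq_nonneg _) (sq_nonneg _)
        linarith
    have h3 : (1 - 20 * d) * (1 / 2 * N ^ 2) ≤
        (1 - d) ^ 2 * (1 - 7 / 2 * d) ^ 2 * (1 / 2 * N ^ 2) :=
      mul_le_mul_of_nonneg_right h2 (mul_nonneg (by norm_num) (sq_nonneg _))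
    have h4 : (1 - d) ^ 2 * (1 / 2 * ((1 - 7 / 2 * d) ^ 2 * N ^ 2)) =
        (1 - d) ^ 2 * (1 - 7 / 2 * d) ^ 2 * (1 / 2 * N ^ 2) := by ring
    rw [h4] at h1
    linarith
  · have h1 : qd (EE G' k' A) f ≤ (1 + d) ^ 2 * (1 / 2 * ((1 + 7 / 2 * d) ^ 2 * N ^ 2)) := by
      exact le_trans hEF1 (mul_le_mul_of_nonneg_left
        (mul_le_mul_of_nonneg_left hup2 (by norm_num)) (sq_nonneg _))
    have h2 : (1 + d) ^ 2 * (1 + 7 / 2 * d) ^ 2 ≤ 1 + 20 * d := by
      have h3 : (1 + d) * (1 + 7 / 2 * d) ≤ 1 + 43 / 8 * d := by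
        linarith [hd.1, hd.2, mul_nonneg hd.1 (sub_nonneg.2 hd.2)]
      have h4 : 0 ≤ (1 + d) * (1 + 7 / 2 * d) := by
        exact mul_nonneg (by linarith [hd.1]) (by linarith [hd.1])
      have h5 : ((1 + d) * (1 + 7 / 2 * d)) ^ 2 ≤ (1 + 43 / 8 * d) ^ 2 :=
        pow_le_pow_left₀ h4 h3 2
      rw [mul_pow] at h5
      linarith [hd.1, hd.2, mul_nonneg hd.1 (sub_nonneg.2 hd.2)]
    have h3 : (1 + d) ^ 2 * (1 + 7 / 2 * d) ^ 2 * (1 / 2 * N ^ 2) ≤
        (1 + 20 * d) * (1 / 2 * N ^ 2) :=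
      mul_le_mul_of_nonneg_right h2 (mul_nonneg (by norm_num) (sq_nonneg _))
    have h4 : (1 + d) ^ 2 * (1 / 2 * ((1 + 7 / 2 * d) ^ 2 * N ^ 2)) =
        (1 + d) ^ 2 * (1 + 7 / 2 * d) ^ 2 * (1 / 2 * N ^ 2) := by ring
    rw [h4] at h1
    linarith


end Pool.Agent.AHH.H72
end
end -- Pool.Agent.Helper72_AHH.Gpa

section -- Pool.Agent.Helper89_FAR.Far4

/-!
# FAR, part 4: the virtual pair of block Y at far sites
-/

set_option autoImplicit false

open scoped BigOperators Matrix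

noncomputable section

namespace Pool.Agent.ANR.H89

open Pool.Agent.ANR Pool.Agent.ABY Pool.Agent.AFJ Pool.Agent.LE.QF

theorem hCmp : CmpStmt := Pool.Agent.ABY.H10.cmp

variable {X : Type} [Fintype X] [DecidableEq X]

/-- the difference of two virtual vectors -/
theorem vir_diff {𝕜 : Type} [RCLike 𝕜] {M M' : Matrix X X 𝕜} {K K' : Matrix X X ℝ}
    {P P' w g : X → ℝ} {U R : Finset X} {ρ ρ' : ℝ} (hC : Cmp M K P g U R ρ)
    (hC' : Cmp M' K' P' g U R ρ') (u : X → ℝ)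
    (hu : ∀ a ∈ R, ∑ b, ‖M' a b - M a b‖ * ‖psi P w (vir M P w) b‖ +
      ∑ b, K' a b * (|P' b - P b| * ‖vir M P w b‖) ≤ u a - ∑ b, K' a b * (P' b * u b)) :
    ∀ a ∈ R, ‖vir M' P' w a - vir M P w a‖ ≤ u a := by
  have hV := Pool.Agent.ABY.H82.vex hCmp 𝕜 X M K P g U R ρ hC
  have hV' := Pool.Agent.ABY.H82.vex hCmp 𝕜 X M' K' P' g U R ρ' hC'
  have hc := (hCmp 𝕜 X M' K' P' g U R ρ' hC').2 (fun a => vir M' P' w a - vir M P w a) u
  refine hc fun a ha => le_trans ?_ (hu a ha)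
  have e1 := hV'.2.1 w a
  have e2 := hV.2.1 w a
  have e3 : vir M' P' w a - vir M P w a -
      ∑ b, M' a b * (((P' b : ℝ) : 𝕜) * (vir M' P' w b - vir M P w b)) =
      ∑ b, (M' a b - M a b) * psi P w (vir M P w) b +
        ∑ b, M' a b * (((P' b - P b : ℝ) : 𝕜) * vir M P w b) := by
    rw [e1, e2, ← Finset.sum_sub_distrib, ← Finset.sum_sub_distrib, ← Finset.sum_add_distrib]
    refine Finset.sum_congr rfl fun b _ => ?_
    unfold psi
    push_cast
    ring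
  rw [e3]
  refine (norm_add_le _ _).trans (add_le_add ?_ ?_)
  · refine (norm_sum_le _ _).trans (Finset.sum_le_sum fun b _ => ?_)
    rw [norm_mul]
  · refine (norm_sum_le _ _).trans (Finset.sum_le_sum fun b _ => ?_)
    rw [norm_mul, norm_mul, RCLike.norm_ofReal]
    exact mul_le_mul_of_nonneg_right (hC'.hM a b) (mul_nonneg (abs_nonneg _) (norm_nonneg _))

/-- the hypotheses of FAR for block Y -/
structure YFar (H H' : Matrix X X ℝ) (κ κ' φ : X → ℝ) (F A S : Finset X) (h₀ k₀ β : ℝ)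
    (P P' w g : X → ℝ) (U R : Finset X) (c₀ : ℝ) : Prop where
  upd : Upd H H' κ κ' φ F A S h₀ k₀ β
  hkk : ∀ x ∈ F, κ x ≤ 2 * κ' x ∧ κ' x ≤ κ x
  hc₀ : 0 < c₀
  hR : R ⊆ A
  hU : U ⊆ R
  hFR : F ⊆ R
  hg : ∀ a ∈ R, c₀ ≤ g a ∧ (Gr H κ a a).im ≤ 3 / 2 * g a ∧ (Gr H' κ' a a).im ≤ 3 / 2 * g a
  hP : (∀ x, 0 ≤ P x) ∧ (∀ x, x ∉ U → P x = 0) ∧ ∀ x ∈ U, 2 * (P x * g x) ≤ κ x
  hP' : (∀ x, 0 ≤ P' x) ∧ (∀ x, x ∉ U → P' x = 0) ∧ ∀ x ∈ U, 2 * (P' x * g x) ≤ κ' x
  hPP : (∀ x, x ∉ F → P' x = P x) ∧ ∀ x ∈ F, |P' x - P x| * g x ≤ κ' x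
  hw : (∀ x, 0 ≤ w x) ∧ ∀ x, w x ≤ κ' x

namespace YFar

variable {H H' : Matrix X X ℝ} {κ κ' φ : X → ℝ} {F A S : Finset X} {h₀ k₀ β : ℝ}
  {P P' w g : X → ℝ} {U R : Finset X} {c₀ : ℝ}

theorem kle (h : YFar H H' κ κ' φ F A S h₀ k₀ β P P' w g U R c₀) (x : X) :
    κ' x ≤ κ x ∧ κ x ≤ 2 * κ' x := by
  by_cases hx : x ∈ F
  · exact ⟨(h.hkk x hx).2, (h.hkk x hx).1⟩
  · have := (h.upd.off x hx).1
    have hp := h.upd.n.pos x
    constructor
    · rw [this]
    · rw [this]; linarith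

theorem cmp (h : YFar H H' κ κ' φ F A S h₀ k₀ β P P' w g U R c₀) {𝕜 : Type} [RCLike 𝕜]
    {M : Matrix X X 𝕜} (hM : ∀ a b, ‖M a b‖ ≤ KK (Gr H κ) a b) :
    Cmp M (KK (Gr H κ)) P g U R (3 / 4) where
  hM := hM
  hP := ⟨h.hP.1, h.hP.2.1⟩
  hU := h.hU
  hg := fun a ha => lt_of_lt_of_le h.hc₀ (h.hg a ha).1
  hρ := by norm_num
  hK := fun a ha => by
    have e1 : ∑ b, KK (Gr H κ) a b * P b * g b ≤ ∑ b, 1 / 2 * (κ b * ‖Gr H κ a b‖ ^ 2) := by
      refine Finset.sum_le_sum fun b _ => ?_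
      unfold KK
      by_cases hb : b ∈ U
      · nlinarith [mul_le_mul_of_nonneg_right (h.hP.2.2 b hb) (sq_nonneg ‖Gr H κ a b‖)]
      · rw [h.hP.2.1 b hb, mul_zero, zero_mul]
        exact mul_nonneg (by norm_num) (mul_nonneg (h.upd.n.pos b).le (sq_nonneg _))
    rw [← Finset.mul_sum, ward h.upd.n] at e1
    linarith [(h.hg a ha).2.1]

theorem cmp' (h : YFar H H' κ κ' φ F A S h₀ k₀ β P P' w g U R c₀) {𝕜 : Type} [RCLike 𝕜]
    {M : Matrix X X 𝕜} (hM : ∀ a b, ‖M a b‖ ≤ KK (Gr H' κ') a b) :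
    Cmp M (KK (Gr H' κ')) P' g U R (3 / 4) where
  hM := hM
  hP := ⟨h.hP'.1, h.hP'.2.1⟩
  hU := h.hU
  hg := fun a ha => lt_of_lt_of_le h.hc₀ (h.hg a ha).1
  hρ := by norm_num
  hK := fun a ha => by
    have e1 : ∑ b, KK (Gr H' κ') a b * P' b * g b ≤
        ∑ b, 1 / 2 * (κ' b * ‖Gr H' κ' a b‖ ^ 2) := by
      refine Finset.sum_le_sum fun b _ => ?_
      unfold KK
      by_cases hb : b ∈ U
      · nlinarith only [mul_le_mul_of_nonneg_right (h.hP'.2.2 b hb) (sq_nonneg ‖Gr H' κ' a b‖)]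
      · rw [h.hP'.2.1 b hb, mul_zero, zero_mul]
        exact mul_nonneg (by norm_num) (mul_nonneg (h.upd.n'.pos b).le (sq_nonneg _))
    rw [← Finset.mul_sum, ward h.upd.n'] at e1
    linarith only [(h.hg a ha).2.2, e1]

/-- bounds for the virtual vector -/
theorem vir_le (h : YFar H H' κ κ' φ F A S h₀ k₀ β P P' w g U R c₀) {𝕜 : Type} [RCLike 𝕜]
    {M : Matrix X X 𝕜} (hM : ∀ a b, ‖M a b‖ ≤ KK (Gr H κ) a b) :
    (∀ a ∈ R, ‖vir M P w a‖ ≤ 6 * g a) ∧ ∀ y, ‖psi P w (vir M P w) y‖ ≤ 4 * κ y := by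
  have hC := h.cmp hM
  have hV := Pool.Agent.ABY.H82.vex hCmp 𝕜 X M (KK (Gr H κ)) P g U R (3 / 4) hC
  have h1 : ∀ a ∈ R, ‖vir M P w a‖ ≤ 6 * g a := fun a ha => by
    have e1 := hV.2.2.2.1 (M *ᵥ fun x => ((w x : ℝ) : 𝕜)) (3 / 2) (by norm_num) (fun b hb => by
      have e2 : (M *ᵥ fun x => ((w x : ℝ) : 𝕜)) b = ∑ c, M b c * ((w c : ℝ) : 𝕜) := rfl
      rw [e2]
      refine (norm_sum_le _ _).trans ?_
      have e3 : ∑ c, ‖M b c * ((w c : ℝ) : 𝕜)‖ ≤ ∑ c, κ c * ‖Gr H κ b c‖ ^ 2 := by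
        refine Finset.sum_le_sum fun c _ => ?_
        rw [norm_mul, RCLike.norm_ofReal, abs_of_nonneg (h.hw.1 c), mul_comm (κ c)]
        refine mul_le_mul (hM b c) ((h.hw.2 c).trans (h.kle c).1) (h.hw.1 c) ?_
        exact sq_nonneg _
      rw [ward h.upd.n] at e3
      exact e3.trans (h.hg b hb).2.1) a ha
    have e4 : (3 / 2 : ℝ) / (1 - 3 / 4) = 6 := by norm_num
    rw [e4] at e1
    exact e1
  refine ⟨h1, fun y => ?_⟩
  unfold psi
  refine (norm_add_le _ _).trans ?_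
  rw [RCLike.norm_ofReal, abs_of_nonneg (h.hw.1 y), norm_mul, RCLike.norm_ofReal,
    abs_of_nonneg (h.hP.1 y)]
  have hwy := (h.hw.2 y).trans (h.kle y).1
  have hκ := h.upd.n.pos y
  by_cases hy : y ∈ U
  · have e5 := mul_le_mul_of_nonneg_left (h1 y (h.hU hy)) (h.hP.1 y)
    have e6 := h.hP.2.2 y hy
    linarith only [hwy, e5, e6]
  · rw [h.hP.2.1 y hy, zero_mul]; linarith only [hwy, hκ]

/-- FAR for the virtual vector -/
theorem far (h : YFar H H' κ κ' φ F A S h₀ k₀ β P P' w g U R c₀) {𝕜 : Type} [RCLike 𝕜]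
    {M M' : Matrix X X 𝕜} (hM : ∀ a b, ‖M a b‖ ≤ KK (Gr H κ) a b)
    (hM' : ∀ a b, ‖M' a b‖ ≤ KK (Gr H' κ') a b)
    (hMM : ∀ a b, ‖M' a b - M a b‖ ≤ ‖Gr H' κ' a b - Gr H κ a b‖ *
      (‖Gr H' κ' a b‖ + ‖Gr H κ a b‖)) {a : X} (ha : a ∈ R) :
    ‖vir M' P' w a - vir M P w a‖ ≤
      400 / (c₀ * k₀) * (Real.exp (-(β / 6 * φ a)) * g a) := by
  have hk := h.upd.hk₀
  have hc := h.hc₀
  obtain ⟨hv6, hψ⟩ := h.vir_le hM
  have hK0 : ∀ x y, 0 ≤ KK (Gr H' κ') x y := fun x y => by unfold KK; exact sq_nonneg _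
  refine vir_diff (h.cmp hM) (h.cmp' hM')
    (fun a => 400 / (c₀ * k₀) * (Real.exp (-(β / 6 * φ a)) * g a)) (fun a ha => ?_) a ha
  have haA := h.upd.hA a (h.hR ha)
  have hga := h.hg a ha
  -- sums over the rows
  have hw1 : ∑ b, κ b * ‖Gr H κ a b‖ ^ 2 ≤ 1 / k₀ := by
    rw [ward h.upd.n]; exact im_le h.upd.n hk haA.1
  have hw2' : ∑ b, κ' b * ‖Gr H' κ' a b‖ ^ 2 ≤ 1 / k₀ := by
    rw [ward h.upd.n']; exact im_le h.upd.n' hk haA.2
  have hw2 : ∑ b, κ b * ‖Gr H' κ' a b‖ ^ 2 ≤ 2 / k₀ := by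
    have : 2 / k₀ = 2 * (1 / k₀) := by ring
    rw [this]
    refine le_trans ?_ (mul_le_mul_of_nonneg_left hw2' (by norm_num))
    rw [Finset.mul_sum]
    refine Finset.sum_le_sum fun b _ => ?_
    nlinarith only [mul_le_mul_of_nonneg_right (h.kle b).2 (sq_nonneg ‖Gr H' κ' a b‖)]
  -- the source
  have hS1 : ∑ b, ‖M' a b - M a b‖ * ‖psi P w (vir M P w) b‖ ≤
      52 / k₀ * Real.exp (-(β * φ a)) := by
    have e1 : ∀ b, ‖M' a b - M a b‖ * ‖psi P w (vir M P w) b‖ ≤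
        4 * (κ b * (‖Gr H' κ' a b - Gr H κ a b‖ * (‖Gr H' κ' a b‖ + ‖Gr H κ a b‖))) := fun b => by
      refine (mul_le_mul (hMM a b) (hψ b) (norm_nonneg _) (by positivity)).trans (le_of_eq ?_)
      ring
    refine (Finset.sum_le_sum fun b _ => e1 b).trans ?_
    rw [← Finset.mul_sum]
    have e2 : ∑ b, κ b * (‖Gr H' κ' a b - Gr H κ a b‖ * (‖Gr H' κ' a b‖ + ‖Gr H κ a b‖)) ≤
        13 / k₀ * Real.exp (-(β * φ a)) := by
      by_cases haF : a ∈ F
      · rw [h.upd.hF a haF, mul_zero, neg_zero, Real.exp_zero, mul_one]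
        have e3 : ∀ b, κ b * (‖Gr H' κ' a b - Gr H κ a b‖ * (‖Gr H' κ' a b‖ + ‖Gr H κ a b‖)) ≤
            2 * (κ b * ‖Gr H' κ' a b‖ ^ 2) + 2 * (κ b * ‖Gr H κ a b‖ ^ 2) := fun b => by
          have e4 := norm_sub_le (Gr H' κ' a b) (Gr H κ a b)
          have e5 := h.upd.n.pos b
          have e6 : ‖Gr H' κ' a b - Gr H κ a b‖ * (‖Gr H' κ' a b‖ + ‖Gr H κ a b‖) ≤
              2 * ‖Gr H' κ' a b‖ ^ 2 + 2 * ‖Gr H κ a b‖ ^ 2 := by
            have e7 : 0 ≤ ‖Gr H' κ' a b‖ + ‖Gr H κ a b‖ := by positivity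
            nlinarith only [mul_le_mul_of_nonneg_right e4 e7,
              sq_nonneg (‖Gr H' κ' a b‖ - ‖Gr H κ a b‖)]
          nlinarith only [mul_le_mul_of_nonneg_left e6 e5.le]
        refine (Finset.sum_le_sum fun b _ => e3 b).trans ?_
        rw [Finset.sum_add_distrib, ← Finset.mul_sum, ← Finset.mul_sum]
        have e8 : 13 / k₀ = 2 * (2 / k₀) + 2 * (1 / k₀) + 7 / k₀ := by ring
        have e9 : 0 ≤ 7 / k₀ := by positivity
        rw [e8]; linarith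
      · have hmass := h.upd.mass_all (fun x hx => (h.hkk x hx).1) haF
        have hm2 : ∑ z, κ z * ‖Gr H' κ' a z - Gr H κ a z‖ ^ 2 ≤
            20 / k₀ * Real.exp (-(2 * β * φ a)) := by
          refine hmass.trans (mul_le_mul_of_nonneg_right ?_ (Real.exp_pos _).le)
          exact div_le_div_of_nonneg_left (by norm_num) hk haA.1
        set l := Real.exp (β * φ a) with hl
        have hl0 : 0 < l := Real.exp_pos _
        have hli : Real.exp (-(β * φ a)) = l⁻¹ := Real.exp_neg _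
        have hl2 : Real.exp (-(2 * β * φ a)) = l⁻¹ * l⁻¹ := by
          rw [← hli, ← Real.exp_add]; congr 1; ring
        rw [hli]
        have e3 : ∀ b, κ b * (‖Gr H' κ' a b - Gr H κ a b‖ * (‖Gr H' κ' a b‖ + ‖Gr H κ a b‖)) ≤
            l / 2 * (κ b * ‖Gr H' κ' a b - Gr H κ a b‖ ^ 2) +
              l⁻¹ * (κ b * ‖Gr H' κ' a b‖ ^ 2 + κ b * ‖Gr H κ a b‖ ^ 2) := fun b => by
          have e5 := h.upd.n.pos b
          have e6 : ‖Gr H' κ' a b - Gr H κ a b‖ * (‖Gr H' κ' a b‖ + ‖Gr H κ a b‖) ≤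
              l / 2 * ‖Gr H' κ' a b - Gr H κ a b‖ ^ 2 +
                l⁻¹ * (‖Gr H' κ' a b‖ ^ 2 + ‖Gr H κ a b‖ ^ 2) := by
            set x := ‖Gr H' κ' a b - Gr H κ a b‖
            set y := ‖Gr H' κ' a b‖
            set z := ‖Gr H κ a b‖
            have e7 : 0 ≤ l / 2 * (x - l⁻¹ * (y + z)) ^ 2 + l⁻¹ / 2 * (y - z) ^ 2 := by
              positivity
            have e8 : l / 2 * (x - l⁻¹ * (y + z)) ^ 2 + l⁻¹ / 2 * (y - z) ^ 2 =
                l / 2 * x ^ 2 + l⁻¹ * (y ^ 2 + z ^ 2) - x * (y + z) := by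
              field_simp; ring
            linarith only [e7, e8]
          nlinarith only [mul_le_mul_of_nonneg_left e6 e5.le]
        refine (Finset.sum_le_sum fun b _ => e3 b).trans ?_
        rw [Finset.sum_add_distrib, ← Finset.mul_sum, ← Finset.mul_sum, Finset.sum_add_distrib]
        rw [hl2] at hm2
        have e9 : l / 2 * ∑ z, κ z * ‖Gr H' κ' a z - Gr H κ a z‖ ^ 2 ≤ 10 / k₀ * l⁻¹ := by
          refine (mul_le_mul_of_nonneg_left hm2 (by positivity)).trans (le_of_eq ?_)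
          field_simp; norm_num
        have e10 : l⁻¹ * (∑ b, κ b * ‖Gr H' κ' a b‖ ^ 2 + ∑ b, κ b * ‖Gr H κ a b‖ ^ 2) ≤
            3 / k₀ * l⁻¹ := by
          rw [mul_comm]
          refine mul_le_mul_of_nonneg_right ?_ (inv_pos.2 hl0).le
          have : 3 / k₀ = 2 / k₀ + 1 / k₀ := by ring
          rw [this]; exact add_le_add hw2 hw1
        have e11 : 13 / k₀ * l⁻¹ = 10 / k₀ * l⁻¹ + 3 / k₀ * l⁻¹ := by ring
        rw [e11]; exact add_le_add e9 e10
    have e3 : 52 / k₀ * Real.exp (-(β * φ a)) = 4 * (13 / k₀ * Real.exp (-(β * φ a))) := by ring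
    rw [e3]; exact mul_le_mul_of_nonneg_left e2 (by norm_num)
  have hS2 : ∑ b, KK (Gr H' κ') a b * (|P' b - P b| * ‖vir M P w b‖) ≤
      12 / k₀ * Real.exp (-(β * φ a)) := by
    have e1 : ∑ b, KK (Gr H' κ') a b * (|P' b - P b| * ‖vir M P w b‖) ≤
        6 * ∑ b ∈ F, κ' b * ‖Gr H' κ' a b‖ ^ 2 := by
      rw [← Finset.sum_add_sum_compl F, Finset.mul_sum]
      have e2 : ∑ b ∈ Fᶜ, KK (Gr H' κ') a b * (|P' b - P b| * ‖vir M P w b‖) = 0 :=
        Finset.sum_eq_zero fun b hb => by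
          rw [h.hPP.1 b (Finset.mem_compl.1 hb), sub_self, abs_zero, zero_mul, mul_zero]
      rw [e2, add_zero]
      refine Finset.sum_le_sum fun b hb => ?_
      have e3 := hv6 b (h.hFR hb)
      have e4 := h.hPP.2 b hb
      have e5 : |P' b - P b| * ‖vir M P w b‖ ≤ 6 * κ' b := by
        refine (mul_le_mul_of_nonneg_left e3 (abs_nonneg _)).trans ?_
        linarith only [e4]
      refine (mul_le_mul_of_nonneg_left e5 (hK0 a b)).trans (le_of_eq ?_)
      unfold KK; ring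
    refine e1.trans ?_
    have e6 : ∑ b ∈ F, κ' b * ‖Gr H' κ' a b‖ ^ 2 ≤ 2 / k₀ * Real.exp (-(β * φ a)) := by
      by_cases haF : a ∈ F
      · rw [h.upd.hF a haF, mul_zero, neg_zero, Real.exp_zero, mul_one]
        refine (Finset.sum_le_univ_sum_of_nonneg fun b =>
          mul_nonneg (h.upd.n'.pos b).le (sq_nonneg _)).trans (hw2'.trans ?_)
        exact div_le_div_of_nonneg_right (by norm_num) hk.le
      · obtain ⟨_, _, m3⟩ := h.upd.mass haF
        have e7 : ∑ b ∈ F, κ' b * ‖Gr H' κ' a b‖ ^ 2 = ∑ b ∈ F, κ' b * ‖Gr H' κ' b a‖ ^ 2 :=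
          Finset.sum_congr rfl fun b _ => by rw [(hGeq X H' κ' h.upd.n').2.1 a b]
        rw [e7]
        refine m3.trans (mul_le_mul ?_ (Real.exp_le_exp.2 ?_) (Real.exp_pos _).le (by positivity))
        · exact div_le_div_of_nonneg_left (by norm_num) hk haA.1
        · nlinarith only [mul_nonneg h.upd.hβ (h.upd.plt.nn a)]
    have e7 : 12 / k₀ * Real.exp (-(β * φ a)) = 6 * (2 / k₀ * Real.exp (-(β * φ a))) := by ring
    rw [e7]; exact mul_le_mul_of_nonneg_left e6 (by norm_num)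
  -- the supersolution
  have hβ := h.upd.hβ
  have hsup : ∑ b, KK (Gr H' κ') a b * (P' b * (400 / (c₀ * k₀) *
      (Real.exp (-(β / 6 * φ b)) * g b))) ≤
      13 / 16 * (400 / (c₀ * k₀) * (Real.exp (-(β / 6 * φ a)) * g a)) := by
    have e1 : ∀ b, KK (Gr H' κ') a b * (P' b * (400 / (c₀ * k₀) *
        (Real.exp (-(β / 6 * φ b)) * g b))) ≤ 400 / (c₀ * k₀) * Real.exp (-(β / 6 * φ a)) *
          (11 / 12 * (KK (Gr H' κ') a b * P' b * g b) +
            1 / 24 * (κ' b * (Real.exp (2 * β * |φ b - φ a|) * ‖Gr H' κ' a b‖ ^ 2))) :=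
      fun b => by
        have hc0 : 0 ≤ 400 / (c₀ * k₀) := by positivity
        have hea : 0 < Real.exp (-(β / 6 * φ a)) := Real.exp_pos _
        by_cases hb : b ∈ U
        · have hbR := h.hU hb
          have hgb : 0 ≤ g b := h.hc₀.le.trans (h.hg b hbR).1
          have hPg : 0 ≤ KK (Gr H' κ') a b * P' b * g b :=
            mul_nonneg (mul_nonneg (hK0 a b) (h.hP'.1 b)) hgb
          set y := 2 * β * |φ b - φ a| with hy
          have hy0 : 0 ≤ y := by positivity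
          have e2 : Real.exp (-(β / 6 * φ b)) ≤ Real.exp (-(β / 6 * φ a)) * Real.exp (y / 12) := by
            rw [← Real.exp_add]
            apply Real.exp_le_exp.2
            have : -(φ b) ≤ -(φ a) + |φ b - φ a| := by
              have := neg_abs_le (φ b - φ a); linarith only [this]
            rw [hy]; nlinarith only [hβ, this]
          have e3 : Real.exp (y / 12) ≤ 11 / 12 + 1 / 12 * Real.exp y := by
            have hconv := convexOn_exp.2 (Set.mem_univ (0 : ℝ)) (Set.mem_univ y)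
              (by norm_num : (0 : ℝ) ≤ 11 / 12) (by norm_num : (0 : ℝ) ≤ 1 / 12) (by norm_num)
            simp only [smul_eq_mul, mul_zero, zero_add, Real.exp_zero, mul_one] at hconv
            have : (1 / 12 : ℝ) * y = y / 12 := by ring
            rwa [this] at hconv
          have e4 : KK (Gr H' κ') a b * P' b * g b ≤ 1 / 2 * (κ' b * ‖Gr H' κ' a b‖ ^ 2) := by
            unfold KK
            nlinarith only [mul_le_mul_of_nonneg_right (h.hP'.2.2 b hb) (sq_nonneg ‖Gr H' κ' a b‖)]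
          calc KK (Gr H' κ') a b * (P' b * (400 / (c₀ * k₀) * (Real.exp (-(β / 6 * φ b)) * g b)))
              = 400 / (c₀ * k₀) * ((KK (Gr H' κ') a b * P' b * g b) *
                  Real.exp (-(β / 6 * φ b))) := by ring
            _ ≤ 400 / (c₀ * k₀) * ((KK (Gr H' κ') a b * P' b * g b) *
                  (Real.exp (-(β / 6 * φ a)) * (11 / 12 + 1 / 12 * Real.exp y))) := by
                refine mul_le_mul_of_nonneg_left (mul_le_mul_of_nonneg_left ?_ hPg) hc0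
                exact e2.trans (mul_le_mul_of_nonneg_left e3 hea.le)
            _ = 400 / (c₀ * k₀) * Real.exp (-(β / 6 * φ a)) *
                  (11 / 12 * (KK (Gr H' κ') a b * P' b * g b) +
                    1 / 12 * Real.exp y * (KK (Gr H' κ') a b * P' b * g b)) := by ring
            _ ≤ _ := by
                refine mul_le_mul_of_nonneg_left ?_ (mul_nonneg hc0 hea.le)
                refine add_le_add le_rfl ?_
                have := mul_le_mul_of_nonneg_left e4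
                  (by positivity : 0 ≤ 1 / 12 * Real.exp y)
                refine this.trans (le_of_eq ?_)
                ring
        · rw [h.hP'.2.1 b hb]
          simp only [zero_mul, mul_zero, zero_add]
          have := h.upd.n'.pos b
          positivity
    refine (Finset.sum_le_sum fun b _ => e1 b).trans ?_
    rw [← Finset.mul_sum, Finset.sum_add_distrib, ← Finset.mul_sum, ← Finset.mul_sum]
    have e5 : ∑ b, KK (Gr H' κ') a b * P' b * g b ≤ 3 / 4 * g a :=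
      (h.cmp' hM').hK a ha
    have e6 := h.upd.ww' a
    have e7 : 11 / 12 * ∑ b, KK (Gr H' κ') a b * P' b * g b + 1 / 24 * ∑ b, κ' b *
        (Real.exp (2 * β * |φ b - φ a|) * ‖Gr H' κ' a b‖ ^ 2) ≤ 13 / 16 * g a := by
      linarith only [hga.2.2, e5, e6]
    refine (mul_le_mul_of_nonneg_left e7 (by positivity)).trans (le_of_eq ?_)
    ring
  have hfin : (52 / k₀ + 12 / k₀) * Real.exp (-(β * φ a)) ≤
      3 / 16 * (400 / (c₀ * k₀) * (Real.exp (-(β / 6 * φ a)) * g a)) := by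
    have e1 : Real.exp (-(β * φ a)) ≤ Real.exp (-(β / 6 * φ a)) := by
      apply Real.exp_le_exp.2
      nlinarith only [mul_nonneg hβ (h.upd.plt.nn a)]
    have e2 : (52 / k₀ + 12 / k₀) ≤ 3 / 16 * (400 / (c₀ * k₀) * g a) := by
      have e3 : 3 / 16 * (400 / (c₀ * k₀) * c₀) ≤ 3 / 16 * (400 / (c₀ * k₀) * g a) := by
        refine mul_le_mul_of_nonneg_left ?_ (by norm_num)
        exact mul_le_mul_of_nonneg_left hga.1 (by positivity)
      have e4 : 3 / 16 * (400 / (c₀ * k₀) * c₀) = 75 / k₀ := by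
        field_simp; norm_num
      have e5 : 52 / k₀ + 12 / k₀ ≤ 75 / k₀ := by
        rw [← add_div]; exact div_le_div_of_nonneg_right (by norm_num) hk.le
      linarith only [e3, e4, e5]
    calc (52 / k₀ + 12 / k₀) * Real.exp (-(β * φ a)) ≤
        (3 / 16 * (400 / (c₀ * k₀) * g a)) * Real.exp (-(β / 6 * φ a)) :=
          mul_le_mul e2 e1 (Real.exp_pos _).le (le_trans (by positivity) e2)
      _ = _ := by ring
  linarith only [hS1, hS2, hsup, hfin]

/-- FAR for the pair -/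
theorem pair (h : YFar H H' κ κ' φ F A S h₀ k₀ β P P' w g U R c₀) {a : X} (ha : a ∈ R) :
    ‖vir (BB (Gr H' κ')) P' w a - vir (BB (Gr H κ)) P w a‖ ≤
      400 / (c₀ * k₀) * (Real.exp (-(β / 6 * φ a)) * g a) ∧
    |vir (KK (Gr H' κ')) P' w a - vir (KK (Gr H κ)) P w a| ≤
      400 / (c₀ * k₀) * (Real.exp (-(β / 6 * φ a)) * g a) := by
  constructor
  · refine h.far (fun a b => ?_) (fun a b => ?_) (fun a b => ?_) ha
    · unfold BB KK; rw [norm_pow]
    · unfold BB KK; rw [norm_pow]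
    · unfold BB
      have : Gr H' κ' a b ^ 2 - Gr H κ a b ^ 2 =
          (Gr H' κ' a b - Gr H κ a b) * (Gr H' κ' a b + Gr H κ a b) := by ring
      rw [this, norm_mul]
      exact mul_le_mul_of_nonneg_left (norm_add_le _ _) (norm_nonneg _)
  · have := h.far (M := KK (Gr H κ)) (M' := KK (Gr H' κ')) (fun a b => ?_) (fun a b => ?_)
      (fun a b => ?_) ha
    · rwa [Real.norm_eq_abs] at this
    · rw [Real.norm_eq_abs, abs_of_nonneg]; unfold KK; exact sq_nonneg _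
    · rw [Real.norm_eq_abs, abs_of_nonneg]; unfold KK; exact sq_nonneg _
    · unfold KK
      have : ‖Gr H' κ' a b‖ ^ 2 - ‖Gr H κ a b‖ ^ 2 =
          (‖Gr H' κ' a b‖ - ‖Gr H κ a b‖) * (‖Gr H' κ' a b‖ + ‖Gr H κ a b‖) := by ring
      rw [this, norm_mul, Real.norm_eq_abs, Real.norm_eq_abs,
        abs_of_nonneg (add_nonneg (norm_nonneg (Gr H' κ' a b)) (norm_nonneg (Gr H κ a b)))]
      exact mul_le_mul_of_nonneg_right (abs_norm_sub_norm_le _ _) (by positivity)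

end YFar

end Pool.Agent.ANR.H89
end
end -- Pool.Agent.Helper89_FAR.Far4

section -- Pool.Agent.Helper1_AFJ.ENB

set_option autoImplicit false

open scoped BigOperators Matrix

noncomputable section

namespace Pool.Agent.AFJ.H1

open Pool.Agent.LE.QF Pool.Agent.AFJ

theorem enb_gd {X : Type} [Fintype X] [DecidableEq X] (G : Matrix X X ℂ) (μ : X → ℂ) (x y : X) :
    GD G μ x y = ∑ c, G x c * μ c * G c y := by
  unfold GD
  rw [Matrix.mul_apply]
  refine Finset.sum_congr rfl fun c _ => ?_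
  rw [Matrix.mul_diagonal]

theorem enb : EnbStmt := by
  intro X _ _ G κ μ b R T κv κR μs r hN hκv hκR hμs hr hRT hκb hκRR hμb hμ0 hT
  have hKn : ∀ x y, 0 ≤ KK G x y := fun x y => by unfold KK; positivity
  have hKs : ∀ x y, KK G x y = KK G y x := fun x y => by unfold KK; rw [hN.hs x y]
  -- (1)
  have p1 : ∀ x, ∑ y, κ y * KK G x y = (G x x).im := by
    intro x
    have h := hN.hw x x
    have h' : ((∑ y, κ y * KK G x y : ℝ) : ℂ) = (((G x x).im : ℝ) : ℂ) := by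
      rw [← h]
      push_cast
      refine Finset.sum_congr rfl fun y _ => ?_
      rw [Complex.mul_conj, Complex.normSq_eq_norm_sq]
      unfold KK
      push_cast
      ring
    exact_mod_cast h'
  -- the mass in b
  have pm : ∀ x ∈ T, ∑ c ∈ b, KK G x c ≤ r / κv := by
    intro x hx
    rw [le_div_iff₀ hκv, Finset.sum_mul]
    refine le_trans (Finset.sum_le_sum fun c hc => ?_) (hT x hx)
    rw [mul_comm]
    exact mul_le_mul_of_nonneg_right (hκb c hc) (hKn x c)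
  have hgb : ∀ x y, ‖GD G μ x y‖ ≤ μs * ∑ c ∈ b, ‖G x c‖ * ‖G c y‖ := by
    intro x y
    rw [enb_gd]
    have e1 : ∑ c, G x c * μ c * G c y = ∑ c ∈ b, G x c * μ c * G c y := by
      symm
      refine Finset.sum_subset (Finset.subset_univ b) fun c _ hc => ?_
      rw [hμ0 c hc]
      ring
    rw [e1, Finset.mul_sum]
    refine (norm_sum_le _ _).trans (Finset.sum_le_sum fun c hc => ?_)
    rw [norm_mul, norm_mul]
    have := hμb c hc
    calc ‖G x c‖ * ‖μ c‖ * ‖G c y‖ = ‖μ c‖ * (‖G x c‖ * ‖G c y‖) := by ring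
      _ ≤ μs * (‖G x c‖ * ‖G c y‖) := mul_le_mul_of_nonneg_right this (by positivity)
  -- (2)
  have p2 : ∀ x ∈ T, ∀ y ∈ T, ‖GD G μ x y‖ ≤ μs * r / κv := by
    intro x hx y hy
    refine (hgb x y).trans ?_
    have c1 : (∑ c ∈ b, ‖G x c‖ * ‖G c y‖) ^ 2 ≤ (∑ c ∈ b, ‖G x c‖ ^ 2) * ∑ c ∈ b, ‖G c y‖ ^ 2 :=
      Finset.sum_mul_sq_le_sq_mul_sq b _ _
    have c2 : ∑ c ∈ b, ‖G x c‖ ^ 2 ≤ r / κv := pm x hx
    have c3 : ∑ c ∈ b, ‖G c y‖ ^ 2 ≤ r / κv := by
      have : ∑ c ∈ b, ‖G c y‖ ^ 2 = ∑ c ∈ b, KK G y c := by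
        refine Finset.sum_congr rfl fun c _ => ?_
        unfold KK
        rw [hN.hs c y]
      rw [this]
      exact pm y hy
    have c4 : (∑ c ∈ b, ‖G x c‖ * ‖G c y‖) ^ 2 ≤ (r / κv) ^ 2 := by
      refine c1.trans ?_
      rw [sq]
      exact mul_le_mul c2 c3 (Finset.sum_nonneg fun c _ => sq_nonneg _) (by positivity)
    have c5 := (abs_le_of_sq_le_sq' c4 (by positivity)).2
    calc μs * ∑ c ∈ b, ‖G x c‖ * ‖G c y‖ ≤ μs * (r / κv) := mul_le_mul_of_nonneg_left c5 hμs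
      _ = μs * r / κv := by ring
  -- (3)
  have p3 : ∀ x ∈ T, ∑ y, κ y * ‖GD G μ x y‖ ^ 2 ≤ μs ^ 2 * r / κv ^ 2 := by
    intro x hx
    have h := hN.hn (fun c => μ c * G x c / (κ c : ℂ))
    have e1 : ∀ y, ∑ c, G y c * ((κ c : ℂ) * (μ c * G x c / (κ c : ℂ))) = GD G μ x y := by
      intro y
      rw [enb_gd]
      refine Finset.sum_congr rfl fun c _ => ?_
      have hk : (κ c : ℂ) ≠ 0 := by
        have := (hN.hκ c).ne'
        exact_mod_cast this
      rw [hN.hs c y]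
      field_simp
    simp only [e1] at h
    refine h.trans ?_
    have e2 : ∑ c, κ c * ‖μ c * G x c / (κ c : ℂ)‖ ^ 2 =
        ∑ c ∈ b, κ c * ‖μ c * G x c / (κ c : ℂ)‖ ^ 2 := by
      symm
      refine Finset.sum_subset (Finset.subset_univ b) fun c _ hc => ?_
      rw [hμ0 c hc]
      simp
    rw [e2]
    have e3 : ∀ c ∈ b, κ c * ‖μ c * G x c / (κ c : ℂ)‖ ^ 2 ≤ μs ^ 2 / κv ^ 2 * (κ c * KK G x c) := by
      intro c hc
      have hk := hN.hκ c
      have hkv := hκb c hc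
      have hm := hμb c hc
      rw [norm_div, norm_mul, Complex.norm_real, Real.norm_of_nonneg hk.le, div_pow, mul_pow]
      have f1 : ‖μ c‖ ^ 2 ≤ μs ^ 2 := pow_le_pow_left₀ (norm_nonneg _) hm 2
      have f2 : κv ^ 2 ≤ κ c ^ 2 := pow_le_pow_left₀ hκv.le hkv 2
      have f3 : ‖μ c‖ ^ 2 / κ c ^ 2 ≤ μs ^ 2 / κv ^ 2 :=
        div_le_div₀ (by positivity) f1 (by positivity) f2
      have f4 : κ c * (‖μ c‖ ^ 2 * ‖G x c‖ ^ 2 / κ c ^ 2) =
          ‖μ c‖ ^ 2 / κ c ^ 2 * (κ c * ‖G x c‖ ^ 2) := by ring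
      rw [f4]
      exact mul_le_mul_of_nonneg_right f3 (by positivity)
    refine (Finset.sum_le_sum e3).trans ?_
    rw [← Finset.mul_sum]
    calc μs ^ 2 / κv ^ 2 * ∑ c ∈ b, κ c * KK G x c ≤ μs ^ 2 / κv ^ 2 * r :=
          mul_le_mul_of_nonneg_left (hT x hx) (by positivity)
      _ = μs ^ 2 * r / κv ^ 2 := by ring
  -- (4)
  have p4 : ∀ x ∈ T, ∑ y ∈ R, ‖GD G μ x y‖ ^ 4 ≤
      (μs * r / κv) ^ 2 * (μs ^ 2 * r / (κv ^ 2 * κR)) := by
    intro x hx
    have e1 : ∀ y ∈ R, ‖GD G μ x y‖ ^ 4 ≤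
        (μs * r / κv) ^ 2 * (κ y * ‖GD G μ x y‖ ^ 2 / κR) := by
      intro y hy
      have f1 : ‖GD G μ x y‖ ^ 2 ≤ (μs * r / κv) ^ 2 :=
        pow_le_pow_left₀ (norm_nonneg _) (p2 x hx y (hRT hy)) 2
      have f2 : ‖GD G μ x y‖ ^ 2 ≤ κ y * ‖GD G μ x y‖ ^ 2 / κR := by
        rw [le_div_iff₀ hκR, mul_comm]
        exact mul_le_mul_of_nonneg_right (hκRR y hy) (sq_nonneg _)
      calc ‖GD G μ x y‖ ^ 4 = ‖GD G μ x y‖ ^ 2 * ‖GD G μ x y‖ ^ 2 := by ring
        _ ≤ _ := mul_le_mul f1 f2 (sq_nonneg _) (sq_nonneg _)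
    refine (Finset.sum_le_sum e1).trans ?_
    rw [← Finset.mul_sum, ← Finset.sum_div]
    refine mul_le_mul_of_nonneg_left ?_ (sq_nonneg _)
    have e2 : ∑ y ∈ R, κ y * ‖GD G μ x y‖ ^ 2 ≤ ∑ y, κ y * ‖GD G μ x y‖ ^ 2 := by
      refine Finset.sum_le_sum_of_subset_of_nonneg (Finset.subset_univ R) fun y _ _ => ?_
      exact mul_nonneg (hN.hκ y).le (sq_nonneg _)
    calc (∑ y ∈ R, κ y * ‖GD G μ x y‖ ^ 2) / κR ≤ (μs ^ 2 * r / κv ^ 2) / κR :=
          div_le_div_of_nonneg_right (e2.trans (p3 x hx)) hκR.le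
      _ = μs ^ 2 * r / (κv ^ 2 * κR) := by
          rw [div_div]
  -- (5)
  have p5 : ∀ x, (∑ y ∈ R, KK G x y * EK G μ x y) ^ 4 ≤
      16 * LaR G R x ^ 3 * ∑ y ∈ R, ‖GD G μ x y‖ ^ 4 := by
    intro x
    set S : ℝ := ∑ y ∈ R, KK G x y * (‖G x y‖ * ‖GD G μ x y‖) with hS
    have hS0 : 0 ≤ S := Finset.sum_nonneg fun y _ => mul_nonneg (hKn x y) (by positivity)
    have e1 : |∑ y ∈ R, KK G x y * EK G μ x y| ≤ 2 * S := by
      refine (Finset.abs_sum_le_sum_abs _ _).trans ?_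
      rw [hS, Finset.mul_sum]
      refine Finset.sum_le_sum fun y _ => ?_
      rw [abs_mul, abs_of_nonneg (hKn x y)]
      have f1 : |EK G μ x y| ≤ 2 * (‖G x y‖ * ‖GD G μ x y‖) := by
        unfold EK
        rw [abs_mul, abs_two]
        refine mul_le_mul_of_nonneg_left ?_ (by norm_num)
        refine (Complex.abs_re_le_norm _).trans ?_
        rw [norm_mul, RCLike.norm_conj]
      calc KK G x y * |EK G μ x y| ≤ KK G x y * (2 * (‖G x y‖ * ‖GD G μ x y‖)) :=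
            mul_le_mul_of_nonneg_left f1 (hKn x y)
        _ = 2 * (KK G x y * (‖G x y‖ * ‖GD G μ x y‖)) := by ring
    have hL0 : 0 ≤ LaR G R x := Finset.sum_nonneg fun y _ => sq_nonneg _
    have e2 : S ^ 2 ≤ LaR G R x * ∑ y ∈ R, KK G x y * ‖GD G μ x y‖ ^ 2 := by
      have c1 : S ^ 2 ≤ (∑ y ∈ R, KK G x y ^ 2) * ∑ y ∈ R, (‖G x y‖ * ‖GD G μ x y‖) ^ 2 :=
        Finset.sum_mul_sq_le_sq_mul_sq R _ _
      refine c1.trans (le_of_eq ?_)
      unfold LaR
      refine congrArg _ (Finset.sum_congr rfl fun y _ => ?_)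
      unfold KK
      ring
    have e3 : (∑ y ∈ R, KK G x y * ‖GD G μ x y‖ ^ 2) ^ 2 ≤
        LaR G R x * ∑ y ∈ R, ‖GD G μ x y‖ ^ 4 := by
      have c1 : (∑ y ∈ R, KK G x y * ‖GD G μ x y‖ ^ 2) ^ 2 ≤
          (∑ y ∈ R, KK G x y ^ 2) * ∑ y ∈ R, (‖GD G μ x y‖ ^ 2) ^ 2 :=
        Finset.sum_mul_sq_le_sq_mul_sq R _ _
      refine c1.trans (le_of_eq ?_)
      unfold LaR
      refine congrArg _ (Finset.sum_congr rfl fun y _ => ?_)
      ring
    have hM0 : 0 ≤ ∑ y ∈ R, KK G x y * ‖GD G μ x y‖ ^ 2 :=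
      Finset.sum_nonneg fun y _ => mul_nonneg (hKn x y) (sq_nonneg _)
    calc (∑ y ∈ R, KK G x y * EK G μ x y) ^ 4
        = |∑ y ∈ R, KK G x y * EK G μ x y| ^ 4 := by
          rw [← abs_pow, abs_of_nonneg (by positivity)]
      _ ≤ (2 * S) ^ 4 := pow_le_pow_left₀ (abs_nonneg _) e1 4
      _ = 16 * (S ^ 2) ^ 2 := by ring
      _ ≤ 16 * (LaR G R x * ∑ y ∈ R, KK G x y * ‖GD G μ x y‖ ^ 2) ^ 2 := by
          refine mul_le_mul_of_nonneg_left ?_ (by norm_num)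
          exact pow_le_pow_left₀ (sq_nonneg _) e2 2
      _ = 16 * LaR G R x ^ 2 * (∑ y ∈ R, KK G x y * ‖GD G μ x y‖ ^ 2) ^ 2 := by ring
      _ ≤ 16 * LaR G R x ^ 2 * (LaR G R x * ∑ y ∈ R, ‖GD G μ x y‖ ^ 4) :=
          mul_le_mul_of_nonneg_left e3 (by positivity)
      _ = 16 * LaR G R x ^ 3 * ∑ y ∈ R, ‖GD G μ x y‖ ^ 4 := by ring
  -- (6)
  have p6 : ∀ x y, ∑ c ∈ b, ‖G x c * G c y‖ ^ 2 ≤
      Real.sqrt (LaR G b x) * Real.sqrt (LaR G b y) := by
    intro x y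
    have e1 : ∑ c ∈ b, ‖G x c * G c y‖ ^ 2 = ∑ c ∈ b, KK G x c * KK G y c := by
      refine Finset.sum_congr rfl fun c _ => ?_
      unfold KK
      rw [norm_mul, mul_pow, hN.hs c y]
    rw [e1]
    unfold LaR
    rw [← Real.sqrt_mul (Finset.sum_nonneg fun c _ => sq_nonneg _)]
    exact Real.le_sqrt_of_sq_le (Finset.sum_mul_sq_le_sq_mul_sq b _ _)
  exact ⟨p1, p2, p3, p4, p5, p6⟩

end Pool.Agent.AFJ.H1
end
end -- Pool.Agent.Helper1_AFJ.ENB

section -- Pool.Agent.Helper41_ABY.VDR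

/-! Tank ABY, row VDR: the drift of the virtual vector in the flow of a block. -/

set_option autoImplicit false

open scoped BigOperators Matrix

noncomputable section

namespace Pool.Agent.ABY.H41

open Pool.Agent.LE.QF Pool.Agent.AFJ

/-- weighted Cauchy-Schwarz -/
lemma wcs {X : Type} (s : Finset X) (κ a b : X → ℝ) (hκ : ∀ x, 0 ≤ κ x) :
    (∑ x ∈ s, κ x * (a x * b x)) ^ 2 ≤
      (∑ x ∈ s, κ x * a x ^ 2) * (∑ x ∈ s, κ x * b x ^ 2) := by
  refine Finset.sum_sq_le_sum_mul_sum_of_sq_eq_mul s (fun x _ => ?_) (fun x _ => ?_)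
    (fun x _ => ?_)
  · exact mul_nonneg (hκ x) (sq_nonneg _)
  · exact mul_nonneg (hκ x) (sq_nonneg _)
  · ring

/-- the first term at a point -/
lemma vdr_1 {𝕜 : Type} [RCLike 𝕜] {X : Type} [Fintype X] (E : X → 𝕜) (G D κ : X → ℝ) (ψ : X → 𝕜)
    (r e : ℝ) (hκ : ∀ x, 0 ≤ κ x) (hr : 0 ≤ r) (he : 0 ≤ e) (hG0 : ∀ y, 0 ≤ G y)
    (hD0 : ∀ y, 0 ≤ D y) (hG : ∑ y, κ y * G y ^ 2 ≤ r) (hD : ∑ y, κ y * D y ^ 2 ≤ e ^ 2 * r)
    (hE : ∀ y, ‖E y‖ ≤ 2 * (G y * D y)) (hψ : ∀ y, ‖ψ y‖ ≤ 4 * κ y) :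
    ‖∑ y, E y * ψ y‖ ≤ 8 * r * e := by
  have h1 : ‖∑ y, E y * ψ y‖ ≤ 8 * ∑ y, κ y * (G y * D y) := by
    refine (norm_sum_le _ _).trans ?_
    rw [Finset.mul_sum]
    refine Finset.sum_le_sum fun y _ => ?_
    rw [norm_mul]
    calc ‖E y‖ * ‖ψ y‖ ≤ 2 * (G y * D y) * (4 * κ y) :=
          mul_le_mul (hE y) (hψ y) (norm_nonneg _)
            (mul_nonneg (by norm_num) (mul_nonneg (hG0 y) (hD0 y)))
      _ = 8 * (κ y * (G y * D y)) := by ring
  have h2 : ∑ y, κ y * (G y * D y) ≤ r * e := by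
    refine le_of_sq_le_sq ?_ (by positivity)
    refine (wcs _ κ G D hκ).trans ?_
    calc (∑ y, κ y * G y ^ 2) * ∑ y, κ y * D y ^ 2 ≤ r * (e ^ 2 * r) :=
          mul_le_mul hG hD (Finset.sum_nonneg fun y _ => mul_nonneg (hκ y) (sq_nonneg _)) hr
      _ = (r * e) ^ 2 := by ring
  linarith

/-- the second term at a point -/
lemma vdr_2 {𝕜 : Type} [RCLike 𝕜] {X : Type} [Fintype X] [DecidableEq X]
    (D : X → X → 𝕜) (Gz : X → ℝ) (Gc : X → X → ℝ) (κ P : X → ℝ) (f : X → X → 𝕜) (b U : Finset X)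
    (r κv c₀ V : ℝ) (hκ : ∀ x, 0 ≤ κ x) (hr : 1 ≤ r) (hκv : 0 < κv) (hc₀ : 0 < c₀) (hV : 0 ≤ V)
    (hGz0 : ∀ y, 0 ≤ Gz y) (hGc0 : ∀ c y, 0 ≤ Gc c y) (hP0 : ∀ y, 0 ≤ P y)
    (hPU : ∀ y, y ∉ U → P y = 0) (hP : ∀ y ∈ U, 2 * (P y * c₀) ≤ κ y)
    (hv : ∀ c ∈ b, κv ≤ κ c)
    (hGz : ∑ y, κ y * Gz y ^ 2 ≤ r) (hGc : ∀ c ∈ b, ∑ y, κ y * Gc c y ^ 2 ≤ r)
    (hf : ∀ y ∈ U, ∑ c ∈ b, ‖f c y‖ ^ 2 ≤ V ^ 2)
    (hD : ∀ c y, ‖D c y‖ ≤ 2 * (Gz y * (Gz c * Gc c y))) :
    ‖∑ c ∈ b, ∑ y, D c y * (((P y : ℝ) : 𝕜) * f c y)‖ ≤ V / c₀ * (r ^ 2 / Real.sqrt κv) := by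
  let t : X → ℝ := fun y => Real.sqrt (∑ c ∈ b, (Gz c * Gc c y) ^ 2)
  have ht0 : ∀ y, 0 ≤ t y := fun y => Real.sqrt_nonneg _
  have ht : ∀ y, t y ^ 2 = ∑ c ∈ b, (Gz c * Gc c y) ^ 2 := fun y =>
    Real.sq_sqrt (Finset.sum_nonneg fun c _ => sq_nonneg _)
  -- the sum over the block
  have h1 : ∀ y, ∑ c ∈ b, ‖D c y * (((P y : ℝ) : 𝕜) * f c y)‖ ≤
      V / c₀ * (κ y * (Gz y * t y)) := by
    intro y
    by_cases hy : y ∈ U
    · have e1 : ∑ c ∈ b, Gz c * Gc c y * ‖f c y‖ ≤ t y * V := by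
        refine le_of_sq_le_sq ?_ (mul_nonneg (ht0 y) hV)
        refine (Finset.sum_mul_sq_le_sq_mul_sq b (fun c => Gz c * Gc c y)
          (fun c => ‖f c y‖)).trans ?_
        rw [mul_pow, ht]
        exact mul_le_mul_of_nonneg_left (hf y hy) (Finset.sum_nonneg fun c _ => sq_nonneg _)
      have e2 : ∑ c ∈ b, ‖D c y * (((P y : ℝ) : 𝕜) * f c y)‖ ≤
          2 * P y * Gz y * ∑ c ∈ b, Gz c * Gc c y * ‖f c y‖ := by
        rw [Finset.mul_sum]
        refine Finset.sum_le_sum fun c _ => ?_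
        rw [norm_mul, norm_mul, RCLike.norm_ofReal, abs_of_nonneg (hP0 y)]
        calc ‖D c y‖ * (P y * ‖f c y‖) ≤ 2 * (Gz y * (Gz c * Gc c y)) * (P y * ‖f c y‖) :=
              mul_le_mul_of_nonneg_right (hD c y) (mul_nonneg (hP0 y) (norm_nonneg _))
          _ = 2 * P y * Gz y * (Gz c * Gc c y * ‖f c y‖) := by ring
      have e3 : 2 * P y ≤ κ y / c₀ := by
        rw [le_div_iff₀ hc₀]
        have := hP y hy
        linarith
      calc ∑ c ∈ b, ‖D c y * (((P y : ℝ) : 𝕜) * f c y)‖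
          ≤ 2 * P y * Gz y * ∑ c ∈ b, Gz c * Gc c y * ‖f c y‖ := e2
        _ ≤ 2 * P y * Gz y * (t y * V) := by
            refine mul_le_mul_of_nonneg_left e1 ?_
            exact mul_nonneg (mul_nonneg (by norm_num) (hP0 y)) (hGz0 y)
        _ ≤ κ y / c₀ * Gz y * (t y * V) := by
            refine mul_le_mul_of_nonneg_right ?_ (mul_nonneg (ht0 y) hV)
            exact mul_le_mul_of_nonneg_right e3 (hGz0 y)
        _ = V / c₀ * (κ y * (Gz y * t y)) := by ring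
    · rw [Finset.sum_eq_zero]
      · exact mul_nonneg (div_nonneg hV hc₀.le) (mul_nonneg (hκ y) (mul_nonneg (hGz0 y) (ht0 y)))
      · intro c _
        rw [hPU y hy]
        simp
  -- the sum over the sites
  have h2 : ∑ y, κ y * t y ^ 2 ≤ r * (r / κv) := by
    have e1 : ∑ y, κ y * t y ^ 2 = ∑ c ∈ b, Gz c ^ 2 * ∑ y, κ y * Gc c y ^ 2 := by
      simp only [ht, Finset.mul_sum]
      rw [Finset.sum_comm]
      refine Finset.sum_congr rfl fun c _ => Finset.sum_congr rfl fun y _ => ?_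
      ring
    have e2 : ∑ c ∈ b, Gz c ^ 2 ≤ r / κv := by
      rw [le_div_iff₀ hκv, Finset.sum_mul]
      calc ∑ c ∈ b, Gz c ^ 2 * κv ≤ ∑ c ∈ b, κ c * Gz c ^ 2 := by
            refine Finset.sum_le_sum fun c hc => ?_
            rw [mul_comm]
            exact mul_le_mul_of_nonneg_right (hv c hc) (sq_nonneg _)
        _ ≤ ∑ c, κ c * Gz c ^ 2 :=
            Finset.sum_le_sum_of_subset_of_nonneg (Finset.subset_univ _)
              fun c _ _ => mul_nonneg (hκ c) (sq_nonneg _)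
        _ ≤ r := hGz
    rw [e1]
    calc ∑ c ∈ b, Gz c ^ 2 * ∑ y, κ y * Gc c y ^ 2 ≤ ∑ c ∈ b, Gz c ^ 2 * r :=
          Finset.sum_le_sum fun c hc => mul_le_mul_of_nonneg_left (hGc c hc) (sq_nonneg _)
      _ = r * ∑ c ∈ b, Gz c ^ 2 := by rw [← Finset.sum_mul, mul_comm]
      _ ≤ r * (r / κv) := mul_le_mul_of_nonneg_left e2 (by linarith only [hr])
  have hsq : 0 < Real.sqrt κv := Real.sqrt_pos.2 hκv
  have h3 : ∑ y, κ y * (Gz y * t y) ≤ r ^ 2 / Real.sqrt κv := by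
    refine le_of_sq_le_sq ?_ (by positivity)
    refine (wcs _ κ Gz t hκ).trans ?_
    calc (∑ y, κ y * Gz y ^ 2) * ∑ y, κ y * t y ^ 2 ≤ r * (r * (r / κv)) :=
          mul_le_mul hGz h2 (Finset.sum_nonneg fun y _ => mul_nonneg (hκ y) (sq_nonneg _))
            (by linarith)
      _ ≤ (r ^ 2 / Real.sqrt κv) ^ 2 := by
          rw [div_pow, Real.sq_sqrt hκv.le, ← mul_div_assoc, ← mul_div_assoc]
          refine div_le_div_of_nonneg_right ?_ hκv.le
          have : (r ^ 2) ^ 2 - r * (r * r) = r ^ 3 * (r - 1) := by ring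
          have h4 : 0 ≤ r ^ 3 * (r - 1) := mul_nonneg (by positivity) (by linarith)
          linarith
  calc ‖∑ c ∈ b, ∑ y, D c y * (((P y : ℝ) : 𝕜) * f c y)‖
      ≤ ∑ c ∈ b, ∑ y, ‖D c y * (((P y : ℝ) : 𝕜) * f c y)‖ :=
        (norm_sum_le _ _).trans (Finset.sum_le_sum fun c _ => norm_sum_le _ _)
    _ = ∑ y, ∑ c ∈ b, ‖D c y * (((P y : ℝ) : 𝕜) * f c y)‖ := Finset.sum_comm
    _ ≤ ∑ y, V / c₀ * (κ y * (Gz y * t y)) := Finset.sum_le_sum fun y _ => h1 y
    _ = V / c₀ * ∑ y, κ y * (Gz y * t y) := by rw [Finset.mul_sum]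
    _ ≤ V / c₀ * (r ^ 2 / Real.sqrt κv) :=
        mul_le_mul_of_nonneg_left h3 (div_nonneg hV hc₀.le)

/-- the drift for one of the two matrices -/
lemma vdr_core (CMP : CmpStmt) (VEX : VexStmt) {𝕜 : Type} [RCLike 𝕜] {X : Type} [Fintype X]
    [DecidableEq X] (M E : Matrix X X 𝕜) (D : X → Matrix X X 𝕜) (G : Matrix X X ℂ)
    (μ : X → ℂ) (κ P w g : X → ℝ) (b U R : Finset X) (ψ : X → 𝕜) (c₀ C₀ κv μs Λ e V : ℝ)
    (hY : YBl G κ P w g μ b U R c₀ C₀ κv μs Λ) (he : 0 ≤ e) (hV : 0 ≤ V)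
    (hc : Cmp M (KK G) P g U R (3 / 4)) (hK : ∀ x ∈ R, ∑ y, κ y * ‖G x y‖ ^ 2 ≤ 3 / 2 * C₀)
    (hGD : ∀ z ∈ R, ∑ y, κ y * ‖GD G μ z y‖ ^ 2 ≤ e ^ 2 * (3 / 2 * C₀))
    (hE : ∀ z y, ‖E z y‖ ≤ 2 * (‖G z y‖ * ‖GD G μ z y‖))
    (hD : ∀ c z y, ‖D c z y‖ ≤ 2 * (‖G z y‖ * (‖G z c‖ * ‖G c y‖)))
    (hψ : ∀ y, ‖ψ y‖ ≤ 4 * κ y)
    (hgr : ∀ a ∈ R, ∑ c ∈ b, ‖(TT M P *ᵥ (D c *ᵥ ψ)) a‖ ^ 2 ≤ V ^ 2) (a : X) (ha : a ∈ R) :
    ‖(TT M P *ᵥ (E *ᵥ ψ)) a +
      ∑ c ∈ b, (TT M P *ᵥ (D c *ᵥ (dg 𝕜 P *ᵥ (TT M P *ᵥ (D c *ᵥ ψ))))) a‖ ≤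
      48 * (C₀ ^ 2 / c₀) * e + 9 * (C₀ ^ 3 / c₀ ^ 2) * (V / Real.sqrt κv) := by
  obtain ⟨hc₀, -, hC₀, hκv, -, -, -⟩ := hY.hc
  obtain ⟨hbU, hUR⟩ := hY.hb
  obtain ⟨hP0, hPU, hPg⟩ := hY.hP
  have hκ : ∀ x, 0 ≤ κ x := fun x => (hY.net.hκ x).le
  have hT := (VEX CMP 𝕜 X M (KK G) P g U R (3 / 4) hc).2.2.2.1
  have hga := (hY.hg a ha).2.1
  have hg0 : ∀ z ∈ R, c₀ ≤ g z := fun z hz => (hY.hg z hz).1
  have hsq : 0 < Real.sqrt κv := Real.sqrt_pos.2 hκv
  have hC0 : 0 < C₀ := by linarith only [hC₀]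
  -- the first term
  have t1 : ‖(TT M P *ᵥ (E *ᵥ ψ)) a‖ ≤ 48 * (C₀ ^ 2 / c₀) * e := by
    have h1 : ∀ z ∈ R, ‖(E *ᵥ ψ) z‖ ≤ 12 * C₀ * e / c₀ * g z := by
      intro z hz
      have h2 := vdr_1 (fun y => E z y) (fun y => ‖G z y‖) (fun y => ‖GD G μ z y‖) κ ψ
        (3 / 2 * C₀) e hκ (by positivity) he (fun y => norm_nonneg _) (fun y => norm_nonneg _)
        (hK z hz) (hGD z hz) (fun y => hE z y) hψ
      calc ‖(E *ᵥ ψ) z‖ ≤ 8 * (3 / 2 * C₀) * e := h2
        _ = 12 * C₀ * e / c₀ * c₀ := by field_simp; ring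
        _ ≤ 12 * C₀ * e / c₀ * g z :=
            mul_le_mul_of_nonneg_left (hg0 z hz) (by positivity)
    have h3 := hT (E *ᵥ ψ) (12 * C₀ * e / c₀) (by positivity) h1 a ha
    calc ‖(TT M P *ᵥ (E *ᵥ ψ)) a‖ ≤ 12 * C₀ * e / c₀ / (1 - 3 / 4) * g a := h3
      _ ≤ 12 * C₀ * e / c₀ / (1 - 3 / 4) * C₀ := by
          refine mul_le_mul_of_nonneg_left hga ?_
          have : (0 : ℝ) < 1 - 3 / 4 := by norm_num
          positivity
      _ = 48 * (C₀ ^ 2 / c₀) * e := by field_simp; ring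
  -- the second term
  let h : X → 𝕜 := ∑ c ∈ b, D c *ᵥ (dg 𝕜 P *ᵥ (TT M P *ᵥ (D c *ᵥ ψ)))
  have hh : ∑ c ∈ b, (TT M P *ᵥ (D c *ᵥ (dg 𝕜 P *ᵥ (TT M P *ᵥ (D c *ᵥ ψ))))) a =
      (TT M P *ᵥ h) a := by
    show _ = (TT M P *ᵥ ∑ c ∈ b, D c *ᵥ (dg 𝕜 P *ᵥ (TT M P *ᵥ (D c *ᵥ ψ)))) a
    rw [Matrix.mulVec_sum, Finset.sum_apply]
  have t2 : ‖(TT M P *ᵥ h) a‖ ≤ 9 * (C₀ ^ 3 / c₀ ^ 2) * (V / Real.sqrt κv) := by
    have h1 : ∀ z ∈ R, ‖h z‖ ≤ V / c₀ * ((3 / 2 * C₀) ^ 2 / Real.sqrt κv) / c₀ * g z := by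
      intro z hz
      have h2 := vdr_2 (fun c y => D c z y) (fun y => ‖G z y‖) (fun c y => ‖G c y‖) κ P
        (fun c y => (TT M P *ᵥ (D c *ᵥ ψ)) y) b U (3 / 2 * C₀) κv c₀ V hκ (by linarith only [hC₀]) hκv hc₀
        hV (fun y => norm_nonneg _) (fun c y => norm_nonneg _) hP0 hPU (fun y hy => by
          have e1 := hPg y hy
          have e2 := hg0 y (hUR hy)
          have e3 := mul_le_mul_of_nonneg_left e2 (hP0 y)
          linarith only [e1, e3]) hY.hv (hK z hz) (fun c hc => hK c (hUR (hbU hc)))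
        (fun y hy => hgr y (hUR hy)) (fun c y => hD c z y)
      have e : h z = ∑ c ∈ b, ∑ y, D c z y * (((P y : ℝ) : 𝕜) * (TT M P *ᵥ (D c *ᵥ ψ)) y) := by
        show (∑ c ∈ b, D c *ᵥ (dg 𝕜 P *ᵥ (TT M P *ᵥ (D c *ᵥ ψ)))) z = _
        rw [Finset.sum_apply]
        refine Finset.sum_congr rfl fun c _ => ?_
        show ∑ y, D c z y * (dg 𝕜 P *ᵥ (TT M P *ᵥ (D c *ᵥ ψ))) y = _
        refine Finset.sum_congr rfl fun y _ => ?_
        rw [dg, Matrix.mulVec_diagonal]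
      rw [e]
      calc _ ≤ V / c₀ * ((3 / 2 * C₀) ^ 2 / Real.sqrt κv) := h2
        _ = V / c₀ * ((3 / 2 * C₀) ^ 2 / Real.sqrt κv) / c₀ * c₀ := by field_simp
        _ ≤ _ := mul_le_mul_of_nonneg_left (hg0 z hz) (by positivity)
    have h3 := hT h _ (by positivity) h1 a ha
    calc ‖(TT M P *ᵥ h) a‖ ≤
          V / c₀ * ((3 / 2 * C₀) ^ 2 / Real.sqrt κv) / c₀ / (1 - 3 / 4) * g a := h3
      _ ≤ V / c₀ * ((3 / 2 * C₀) ^ 2 / Real.sqrt κv) / c₀ / (1 - 3 / 4) * C₀ := by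
          refine mul_le_mul_of_nonneg_left hga ?_
          have : (0 : ℝ) < 1 - 3 / 4 := by norm_num
          positivity
      _ = 9 * (C₀ ^ 3 / c₀ ^ 2) * (V / Real.sqrt κv) := by field_simp; ring
  rw [hh]
  exact (norm_add_le _ _).trans (add_le_add t1 t2)

theorem vdr : VdrStmt := by
  intro CMP VEX TSP VGR ENB c₀ C₀
  obtain ⟨C₁, hC₁, H1⟩ := VGR CMP VEX TSP c₀ C₀
  refine ⟨48 * |C₀ ^ 2 / c₀| + 9 * |C₀ ^ 3 / c₀ ^ 2| * Real.sqrt C₁ + 1, ?_, ?_⟩
  · have : 0 ≤ Real.sqrt C₁ := Real.sqrt_nonneg _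
    have h1 := abs_nonneg (C₀ ^ 2 / c₀)
    have h2 := mul_nonneg (abs_nonneg (C₀ ^ 3 / c₀ ^ 2)) this
    nlinarith only [h1, h2]
  intro X _ _ G κ P w g μ b U R κv μs Λ hY a ha
  obtain ⟨cB, cK, hψ, gB, gK⟩ := H1 X G κ P w g μ b U R κv μs Λ hY
  obtain ⟨hc₀, -, hC₀, hκv, -, hμs, hΛ⟩ := hY.hc
  obtain ⟨hbU, hUR⟩ := hY.hb
  obtain ⟨hμ1, hμ2⟩ := hY.hμ
  have hκ : ∀ x, 0 ≤ κ x := fun x => (hY.net.hκ x).le
  -- the rows of `G`
  have hW := (ENB X G κ (fun _ => 0) ∅ ∅ ∅ 1 1 0 0 hY.net one_pos one_pos le_rfl le_rfl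
    (Finset.Subset.refl _) (by simp) (by simp) (by simp) (by simp) (by simp)).1
  have hK : ∀ x ∈ R, ∑ y, κ y * ‖G x y‖ ^ 2 ≤ 3 / 2 * C₀ := by
    intro x hx
    have h1 : ∑ y, κ y * ‖G x y‖ ^ 2 = (G x x).im := hW x
    obtain ⟨-, h2, h3⟩ := hY.hg x hx
    rw [h1]
    linarith only [h2, h3]
  have hGD : ∀ z ∈ R, ∑ y, κ y * ‖GD G μ z y‖ ^ 2 ≤ (μs / κv) ^ 2 * (3 / 2 * C₀) := by
    intro z hz
    have h1 := (ENB X G κ μ b ∅ R κv 1 μs (3 / 2 * C₀) hY.net hκv one_pos hμs (by positivity)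
      (Finset.empty_subset _) hY.hv (by simp) hμ1 hμ2 (fun x hx => by
        refine le_trans ?_ (hK x hx)
        exact Finset.sum_le_sum_of_subset_of_nonneg (Finset.subset_univ _)
          fun c _ _ => mul_nonneg (hκ c) (sq_nonneg _))).2.2.1 z hz
    refine h1.trans (le_of_eq ?_)
    rw [div_pow]
    ring
  -- the constants
  set s : ℝ := Real.sqrt (Λ / κv) with hs
  have hs0 : 0 ≤ s := Real.sqrt_nonneg _
  have hV : (Real.sqrt C₁ * Real.sqrt s) ^ 2 = C₁ * s := by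
    rw [mul_pow, Real.sq_sqrt (by linarith), Real.sq_sqrt hs0]
  have hfin : 48 * (C₀ ^ 2 / c₀) * (μs / κv) +
      9 * (C₀ ^ 3 / c₀ ^ 2) * (Real.sqrt C₁ * Real.sqrt s / Real.sqrt κv) ≤
      (48 * |C₀ ^ 2 / c₀| + 9 * |C₀ ^ 3 / c₀ ^ 2| * Real.sqrt C₁ + 1) *
        (μs / κv + Real.sqrt s / Real.sqrt κv) := by
    have h1 : 0 ≤ μs / κv := div_nonneg hμs hκv.le
    have h2 : 0 ≤ Real.sqrt s / Real.sqrt κv := by positivity
    have h3 : 0 ≤ Real.sqrt C₁ := Real.sqrt_nonneg _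
    have h4 := abs_nonneg (C₀ ^ 2 / c₀)
    have h5 := abs_nonneg (C₀ ^ 3 / c₀ ^ 2)
    have h6 : 48 * (C₀ ^ 2 / c₀) * (μs / κv) ≤ 48 * |C₀ ^ 2 / c₀| * (μs / κv) :=
      mul_le_mul_of_nonneg_right (by linarith only [le_abs_self (C₀ ^ 2 / c₀)]) h1
    have h7 : 9 * (C₀ ^ 3 / c₀ ^ 2) * (Real.sqrt C₁ * Real.sqrt s / Real.sqrt κv) ≤
        9 * |C₀ ^ 3 / c₀ ^ 2| * Real.sqrt C₁ * (Real.sqrt s / Real.sqrt κv) := by
      have e : 9 * |C₀ ^ 3 / c₀ ^ 2| * Real.sqrt C₁ * (Real.sqrt s / Real.sqrt κv) =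
        9 * |C₀ ^ 3 / c₀ ^ 2| * (Real.sqrt C₁ * Real.sqrt s / Real.sqrt κv) := by ring
      rw [e]
      refine mul_le_mul_of_nonneg_right ?_ (by positivity)
      linarith only [le_abs_self (C₀ ^ 3 / c₀ ^ 2)]
    have h8 : 0 ≤ 48 * |C₀ ^ 2 / c₀| * (Real.sqrt s / Real.sqrt κv) := by positivity
    have h9 : 0 ≤ 9 * |C₀ ^ 3 / c₀ ^ 2| * Real.sqrt C₁ * (μs / κv) := by positivity
    linarith only [h1, h2, h6, h7, h8, h9]
  refine ⟨?_, ?_⟩
  · refine (vdr_core CMP VEX (BB G) (EB G μ) (dB G) G μ κ P w g b U R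
      (psi P w (vir (BB G) P w)) c₀ C₀ κv μs Λ (μs / κv) (Real.sqrt C₁ * Real.sqrt s) hY
      (div_nonneg hμs hκv.le) (by positivity) cB hK hGD ?_ ?_ (fun y => (hψ y).1) ?_ a ha).trans
      hfin
    · intro z y
      rw [EB, norm_mul, norm_mul, Complex.norm_ofNat]
      exact le_of_eq (by ring)
    · intro c z y
      rw [dB, norm_neg, norm_mul, norm_mul, norm_mul, Complex.norm_ofNat]
      exact le_of_eq (by ring)
    · intro x hx
      rw [hV]
      exact gB x hx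
  · refine (vdr_core CMP VEX (KK G) (EK G μ) (dK G) G μ κ P w g b U R
      (psi P w (vir (KK G) P w)) c₀ C₀ κv μs Λ (μs / κv) (Real.sqrt C₁ * Real.sqrt s) hY
      (div_nonneg hμs hκv.le) (by positivity) cK hK hGD ?_ ?_ (fun y => (hψ y).2) ?_ a ha).trans
      hfin
    · intro z y
      rw [EK, Real.norm_eq_abs, abs_mul, abs_two]
      refine mul_le_mul_of_nonneg_left ?_ (by norm_num)
      refine (Complex.abs_re_le_norm _).trans ?_
      rw [norm_mul, RCLike.norm_conj]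
    · intro c z y
      rw [dK, Real.norm_eq_abs, abs_neg, abs_mul, abs_two]
      refine mul_le_mul_of_nonneg_left ?_ (by norm_num)
      refine (Complex.abs_re_le_norm _).trans ?_
      rw [norm_mul, norm_mul, RCLike.norm_conj, mul_assoc]
    · intro x hx
      rw [hV]
      refine le_trans (le_of_eq ?_) (gK x hx)
      refine Finset.sum_congr rfl fun c _ => ?_
      rw [Real.norm_eq_abs, sq_abs]

end Pool.Agent.ABY.H41
end
end -- Pool.Agent.Helper41_ABY.VDR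

section -- Pool.Agent.Helper87_AFJ.DRE

/-! AFJ, row DRE: the error term of the drift (helper87). -/

set_option autoImplicit false

open scoped BigOperators Matrix

noncomputable section

namespace Pool.Agent.AFJ.H87

open Pool.Agent.LE.QF

variable {X : Type} [Fintype X] [DecidableEq X]

set_option linter.unusedSectionVars false

theorem qf_Dl (c : Matrix X X ℝ) (hc : ∀ x y, c x y = c y x) (f : X → ℝ) :
    qf (Dl c) f = (1 / 2) * ∑ x, ∑ y, c x y * (f x - f y) ^ 2 := by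
  have h1 : qf (Dl c) f = ∑ x, ∑ y, c x y * (f x * (f x - f y)) := by
    unfold qf Dl
    refine Finset.sum_congr rfl fun x _ => ?_
    rw [Matrix.sub_mulVec, Pi.sub_apply, Matrix.mulVec_diagonal]
    simp only [Matrix.mulVec, dotProduct]
    rw [Finset.sum_mul, ← Finset.sum_sub_distrib, Finset.mul_sum]
    refine Finset.sum_congr rfl fun y _ => ?_
    ring
  have h2 : ∑ x, ∑ y, c x y * (f x * (f x - f y)) = ∑ x, ∑ y, c x y * (f y * (f y - f x)) := by
    rw [Finset.sum_comm]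
    refine Finset.sum_congr rfl fun x _ => Finset.sum_congr rfl fun y _ => ?_
    rw [hc y x]
  have h4 : (∑ x, ∑ y, c x y * (f x * (f x - f y))) + (∑ x, ∑ y, c x y * (f y * (f y - f x))) =
      ∑ x, ∑ y, c x y * (f x - f y) ^ 2 := by
    rw [← Finset.sum_add_distrib]
    refine Finset.sum_congr rfl fun x _ => ?_
    rw [← Finset.sum_add_distrib]
    refine Finset.sum_congr rfl fun y _ => ?_
    ring
  rw [h1]
  linarith only [h2, h4]

theorem KK_symm (G : Matrix X X ℂ) (hs : ∀ x y, G x y = G y x) (x y : X) :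
    KK G x y = KK G y x := by
  unfold KK
  rw [hs x y]

theorem GD_eq (G : Matrix X X ℂ) (μ : X → ℂ) (x y : X) :
    GD G μ x y = ∑ c, G x c * μ c * G c y := by
  unfold GD
  rw [Matrix.mul_apply]
  refine Finset.sum_congr rfl fun c _ => ?_
  rw [Matrix.mul_diagonal]

theorem GD_symm (G : Matrix X X ℂ) (hs : ∀ x y, G x y = G y x) (μ : X → ℂ) (x y : X) :
    GD G μ x y = GD G μ y x := by
  rw [GD_eq, GD_eq]
  refine Finset.sum_congr rfl fun c _ => ?_
  rw [hs x c, hs c y]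
  ring

theorem EK_symm (G : Matrix X X ℂ) (hs : ∀ x y, G x y = G y x) (μ : X → ℂ) (x y : X) :
    EK G μ x y = EK G μ y x := by
  unfold EK
  rw [hs x y, GD_symm G hs]

/-- the inner double sum -/
theorem inner (G : Matrix X X ℂ) (hs : ∀ x y, G x y = G y x) (κ : X → ℝ) (A : Finset X)
    (f : X → ℝ) (c : X) :
    ∑ x ∈ A, ∑ y ∈ A, (κ x : ℂ) * κ y * (starRingEnd ℂ) (G x y) * (G x c * G c y) *
      (((f x - f y) ^ 2 : ℝ) : ℂ) =
    2 * ∑ x ∈ A, (κ x : ℂ) * G x c * ((f x - f c : ℝ) : ℂ) * bet G κ A f x c := by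
  have h1 : ∑ x ∈ A, (κ x : ℂ) * G x c * ((f x - f c : ℝ) : ℂ) * bet G κ A f x c =
      ∑ x ∈ A, ∑ y ∈ A, (κ x : ℂ) * κ y * (starRingEnd ℂ) (G x y) * (G x c * G c y) *
        (((f x - f y) * (f x - f c) : ℝ) : ℂ) := by
    refine Finset.sum_congr rfl fun x _ => ?_
    unfold bet
    rw [Finset.mul_sum]
    refine Finset.sum_congr rfl fun y _ => ?_
    push_cast
    ring
  have h2 : ∑ x ∈ A, ∑ y ∈ A, (κ x : ℂ) * κ y * (starRingEnd ℂ) (G x y) * (G x c * G c y) *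
        (((f x - f y) * (f x - f c) : ℝ) : ℂ) =
      ∑ x ∈ A, ∑ y ∈ A, (κ x : ℂ) * κ y * (starRingEnd ℂ) (G x y) * (G x c * G c y) *
        (((f y - f x) * (f y - f c) : ℝ) : ℂ) := by
    rw [Finset.sum_comm]
    refine Finset.sum_congr rfl fun x _ => Finset.sum_congr rfl fun y _ => ?_
    rw [hs y x, hs y c, hs c x]
    ring
  rw [two_mul]
  conv_rhs => rw [h1]
  have h3 : (∑ x ∈ A, ∑ y ∈ A, (κ x : ℂ) * κ y * (starRingEnd ℂ) (G x y) * (G x c * G c y) *
        (((f x - f y) * (f x - f c) : ℝ) : ℂ)) +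
      (∑ x ∈ A, ∑ y ∈ A, (κ x : ℂ) * κ y * (starRingEnd ℂ) (G x y) * (G x c * G c y) *
        (((f y - f x) * (f y - f c) : ℝ) : ℂ)) =
      ∑ x ∈ A, ∑ y ∈ A, (κ x : ℂ) * κ y * (starRingEnd ℂ) (G x y) * (G x c * G c y) *
        (((f x - f y) ^ 2 : ℝ) : ℂ) := by
    rw [← Finset.sum_add_distrib]
    refine Finset.sum_congr rfl fun x _ => ?_
    rw [← Finset.sum_add_distrib]
    refine Finset.sum_congr rfl fun y _ => ?_
    push_cast
    ring
  rw [← h3, ← h2]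

def DreStmt2 : Prop :=
  BetStmt → ∀ (X : Type) [Fintype X] [DecidableEq X] (G : Matrix X X ℂ) (κ g : X → ℝ)
    (μ : X → ℂ) (A b : Finset X) (f : X → ℝ) (κv μs δ : ℝ), Net G κ → 0 < κv → b ⊆ A →
    (∀ c ∈ b, κv ≤ κ c) → (∀ x ∈ b, |rho G κ A x - g x| ≤ δ) → 0 ≤ δ → 0 ≤ μs →
    (∀ c ∈ b, ‖μ c‖ ≤ μs) → (∀ c, c ∉ b → μ c = 0) →
      |qf (Dl (ee G κ g μ A b)) f| ≤ (2 * δ + 4 * μs) / κv * qf (EE G κ A) f


theorem dre : DreStmt2 := by
  intro hbet X _ _ G κ g μ A b f κv μs δ N hκv hbA hκb hρ hδ0 hμs hμ hμ0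
  obtain ⟨-, -, -, -, h5, h6⟩ := hbet X G κ A f N
  set E : ℝ := qf (EE G κ A) f with hE
  set S : ℝ := ∑ x ∈ A, κ x * DD G κ A f x with hS
  have hES : S = 2 * E := by rw [h6]; ring
  have hs := N.hs
  have hDD0 : ∀ x, 0 ≤ DD G κ A f x := by
    intro x
    unfold DD KK
    refine Finset.sum_nonneg fun y _ => ?_
    have := N.hκ y
    positivity
  -- the two parts
  have hsym : ∀ x y, ee G κ g μ A b x y = ee G κ g μ A b y x := by
    intro x y
    unfold ee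
    by_cases h : x ∈ A ∧ y ∈ A
    · rw [if_pos h, if_pos h.symm, KK_symm G hs x y, EK_symm G hs μ x y]
      ring
    · rw [if_neg h, if_neg (fun h' => h h'.symm)]
  have hmain : qf (Dl (ee G κ g μ A b)) f =
      (∑ x ∈ b, (rho G κ A x - g x) * DD G κ A f x) +
      (∑ c ∈ b, μ c * (2 * ∑ x ∈ A, (κ x : ℂ) * G x c * ((f x - f c : ℝ) : ℂ) *
        bet G κ A f x c)).re := by
    rw [qf_Dl _ hsym]
    have e1 : ∑ x, ∑ y, ee G κ g μ A b x y * (f x - f y) ^ 2 =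
        ∑ x ∈ A, ∑ y ∈ A, (((ind b x * (rho G κ A x - g x) * κ y +
          κ x * (rho G κ A y - g y) * ind b y) * KK G x y +
          κ x * κ y * EK G μ x y) * (f x - f y) ^ 2) := by
      rw [← Finset.sum_subset (Finset.subset_univ A)]
      · refine Finset.sum_congr rfl fun x hx => ?_
        rw [← Finset.sum_subset (Finset.subset_univ A)]
        · refine Finset.sum_congr rfl fun y hy => ?_
          unfold ee
          rw [if_pos ⟨hx, hy⟩]
        · intro y _ hy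
          unfold ee
          rw [if_neg (fun h => hy h.2), zero_mul]
      · intro x _ hx
        refine Finset.sum_eq_zero fun y _ => ?_
        unfold ee
        rw [if_neg (fun h => hx h.1), zero_mul]
    rw [e1]
    have e2 : ∑ x ∈ A, ∑ y ∈ A, (((ind b x * (rho G κ A x - g x) * κ y +
          κ x * (rho G κ A y - g y) * ind b y) * KK G x y +
          κ x * κ y * EK G μ x y) * (f x - f y) ^ 2) =
        (∑ x ∈ A, ∑ y ∈ A, ind b x * (rho G κ A x - g x) * κ y * KK G x y * (f x - f y) ^ 2) +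
        (∑ x ∈ A, ∑ y ∈ A, κ x * (rho G κ A y - g y) * ind b y * KK G x y * (f x - f y) ^ 2) +
        (∑ x ∈ A, ∑ y ∈ A, κ x * κ y * EK G μ x y * (f x - f y) ^ 2) := by
      rw [← Finset.sum_add_distrib, ← Finset.sum_add_distrib]
      refine Finset.sum_congr rfl fun x _ => ?_
      rw [← Finset.sum_add_distrib, ← Finset.sum_add_distrib]
      refine Finset.sum_congr rfl fun y _ => ?_
      ring
    have e3 : ∑ x ∈ A, ∑ y ∈ A, κ x * (rho G κ A y - g y) * ind b y * KK G x y * (f x - f y) ^ 2 =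
        ∑ x ∈ A, ∑ y ∈ A, ind b x * (rho G κ A x - g x) * κ y * KK G x y * (f x - f y) ^ 2 := by
      rw [Finset.sum_comm]
      refine Finset.sum_congr rfl fun x _ => Finset.sum_congr rfl fun y _ => ?_
      rw [KK_symm G hs y x]
      ring
    have e4 : ∑ x ∈ A, ∑ y ∈ A, ind b x * (rho G κ A x - g x) * κ y * KK G x y * (f x - f y) ^ 2 =
        ∑ x ∈ b, (rho G κ A x - g x) * DD G κ A f x := by
      rw [← Finset.sum_subset hbA]
      · refine Finset.sum_congr rfl fun x hx => ?_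
        unfold DD ind
        rw [Finset.mul_sum]
        refine Finset.sum_congr rfl fun y _ => ?_
        rw [if_pos hx]
        ring
      · intro x _ hx
        refine Finset.sum_eq_zero fun y _ => ?_
        unfold ind
        rw [if_neg hx]
        ring
    have e5 : ∑ x ∈ A, ∑ y ∈ A, κ x * κ y * EK G μ x y * (f x - f y) ^ 2 =
        2 * (∑ c ∈ b, μ c * (2 * ∑ x ∈ A, (κ x : ℂ) * G x c * ((f x - f c : ℝ) : ℂ) *
        bet G κ A f x c)).re := by
      have e6 : ∑ c ∈ b, μ c * (2 * ∑ x ∈ A, (κ x : ℂ) * G x c * ((f x - f c : ℝ) : ℂ) *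
          bet G κ A f x c) =
          ∑ x ∈ A, ∑ y ∈ A, ((κ x * κ y * (f x - f y) ^ 2 : ℝ) : ℂ) *
            ((starRingEnd ℂ) (G x y) * GD G μ x y) := by
        have e7 : ∀ c, μ c * (2 * ∑ x ∈ A, (κ x : ℂ) * G x c * ((f x - f c : ℝ) : ℂ) *
            bet G κ A f x c) = ∑ x ∈ A, ∑ y ∈ A, μ c * ((κ x : ℂ) * κ y *
              (starRingEnd ℂ) (G x y) * (G x c * G c y) * (((f x - f y) ^ 2 : ℝ) : ℂ)) := by
          intro c
          rw [← inner G hs κ A f c, Finset.mul_sum]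
          refine Finset.sum_congr rfl fun x _ => ?_
          rw [Finset.mul_sum]
        rw [Finset.sum_congr rfl fun c _ => e7 c, Finset.sum_comm]
        refine Finset.sum_congr rfl fun x _ => ?_
        rw [Finset.sum_comm]
        refine Finset.sum_congr rfl fun y _ => ?_
        rw [GD_eq, ← Finset.sum_subset (Finset.subset_univ b)]
        · rw [Finset.mul_sum, Finset.mul_sum]
          refine Finset.sum_congr rfl fun c _ => ?_
          push_cast
          ring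
        · intro c _ hc
          rw [hμ0 c hc]
          ring
      rw [e6, Complex.re_sum, Finset.mul_sum]
      refine Finset.sum_congr rfl fun x _ => ?_
      rw [Complex.re_sum, Finset.mul_sum]
      refine Finset.sum_congr rfl fun y _ => ?_
      rw [Complex.re_ofReal_mul]
      unfold EK
      ring
    rw [e2, e3, e4, e5]
    ring
  -- bounds
  have hDb : ∑ x ∈ b, DD G κ A f x ≤ S / κv := by
    rw [le_div_iff₀ hκv, Finset.sum_mul]
    calc ∑ x ∈ b, DD G κ A f x * κv ≤ ∑ x ∈ b, κ x * DD G κ A f x := by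
          refine Finset.sum_le_sum fun x hx => ?_
          rw [mul_comm]
          exact mul_le_mul_of_nonneg_right (hκb x hx) (hDD0 x)
      _ ≤ S := by
          rw [hS]
          refine Finset.sum_le_sum_of_subset_of_nonneg hbA fun x _ _ => ?_
          exact mul_nonneg (N.hκ x).le (hDD0 x)
  have hδ : |∑ x ∈ b, (rho G κ A x - g x) * DD G κ A f x| ≤ δ * (S / κv) := by
    calc |∑ x ∈ b, (rho G κ A x - g x) * DD G κ A f x|
        ≤ ∑ x ∈ b, |(rho G κ A x - g x) * DD G κ A f x| := Finset.abs_sum_le_sum_abs _ _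
      _ ≤ ∑ x ∈ b, δ * DD G κ A f x := by
          refine Finset.sum_le_sum fun x hx => ?_
          rw [abs_mul, abs_of_nonneg (hDD0 x)]
          exact mul_le_mul_of_nonneg_right (hρ x hx) (hDD0 x)
      _ = δ * ∑ x ∈ b, DD G κ A f x := by rw [Finset.mul_sum]
      _ ≤ δ * (S / κv) := mul_le_mul_of_nonneg_left hDb hδ0
  have hterm : ∀ c ∈ b, ‖μ c * (2 * ∑ x ∈ A, (κ x : ℂ) * G x c * ((f x - f c : ℝ) : ℂ) *
        bet G κ A f x c)‖ ≤ μs * (DD G κ A f c + ∑ x ∈ A, κ x * ‖bet G κ A f x c‖ ^ 2) := by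
    intro c hc
    rw [norm_mul]
    refine mul_le_mul (hμ c hc) ?_ (norm_nonneg _) hμs
    rw [norm_mul, Complex.norm_ofNat]
    have h7 : ‖∑ x ∈ A, (κ x : ℂ) * G x c * ((f x - f c : ℝ) : ℂ) * bet G κ A f x c‖ ≤
        ∑ x ∈ A, κ x * (‖G x c‖ * |f x - f c| * ‖bet G κ A f x c‖) := by
      refine (norm_sum_le _ _).trans (le_of_eq (Finset.sum_congr rfl fun x _ => ?_))
      rw [norm_mul, norm_mul, norm_mul, Complex.norm_real, Complex.norm_real, Real.norm_eq_abs,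
        Real.norm_eq_abs, abs_of_pos (N.hκ x)]
      ring
    have h8 : ∑ x ∈ A, κ x * (‖G x c‖ * |f x - f c| * ‖bet G κ A f x c‖) ≤
        ∑ x ∈ A, (κ x * KK G c x * (f c - f x) ^ 2 + κ x * ‖bet G κ A f x c‖ ^ 2) / 2 := by
      refine Finset.sum_le_sum fun x _ => ?_
      have hk := (N.hκ x).le
      have h9 : KK G c x * (f c - f x) ^ 2 = (‖G x c‖ * |f x - f c|) ^ 2 := by
        unfold KK
        rw [hs c x, mul_pow, sq_abs]
        ring
      have h10 : ‖G x c‖ * |f x - f c| * ‖bet G κ A f x c‖ ≤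
          ((‖G x c‖ * |f x - f c|) ^ 2 + ‖bet G κ A f x c‖ ^ 2) / 2 := by
        nlinarith only [sq_nonneg (‖G x c‖ * |f x - f c| - ‖bet G κ A f x c‖)]
      have h11 := mul_le_mul_of_nonneg_left h10 hk
      rw [← h9] at h11
      linarith only [h11]
    have h12 : ∑ x ∈ A, (κ x * KK G c x * (f c - f x) ^ 2 + κ x * ‖bet G κ A f x c‖ ^ 2) / 2 =
        (DD G κ A f c + ∑ x ∈ A, κ x * ‖bet G κ A f x c‖ ^ 2) / 2 := by
      rw [← Finset.sum_div, Finset.sum_add_distrib]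
      rfl
    rw [h12] at h8
    linarith only [h7.trans h8]
  have hsec : |(∑ c ∈ b, μ c * (2 * ∑ x ∈ A, (κ x : ℂ) * G x c * ((f x - f c : ℝ) : ℂ) *
        bet G κ A f x c)).re| ≤ μs * (2 * S / κv) := by
    refine (Complex.abs_re_le_norm _).trans ((norm_sum_le _ _).trans
      ((Finset.sum_le_sum hterm).trans ?_))
    rw [← Finset.mul_sum]
    refine mul_le_mul_of_nonneg_left ?_ hμs
    rw [Finset.sum_add_distrib]
    have h13 : ∑ c ∈ b, ∑ x ∈ A, κ x * ‖bet G κ A f x c‖ ^ 2 ≤ S / κv := by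
      rw [le_div_iff₀ hκv, Finset.sum_mul]
      calc ∑ c ∈ b, (∑ x ∈ A, κ x * ‖bet G κ A f x c‖ ^ 2) * κv
          ≤ ∑ c ∈ b, κ c * ∑ x ∈ A, κ x * ‖bet G κ A f x c‖ ^ 2 := by
            refine Finset.sum_le_sum fun c hc => ?_
            rw [mul_comm]
            refine mul_le_mul_of_nonneg_right (hκb c hc) (Finset.sum_nonneg fun x _ => ?_)
            have := (N.hκ x).le
            positivity
        _ = ∑ x ∈ A, κ x * ∑ c ∈ b, κ c * ‖bet G κ A f x c‖ ^ 2 := by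
            simp only [Finset.mul_sum]
            rw [Finset.sum_comm]
            refine Finset.sum_congr rfl fun x _ => Finset.sum_congr rfl fun c _ => ?_
            ring
        _ ≤ S := by
            rw [hS]
            exact Finset.sum_le_sum fun x _ =>
              mul_le_mul_of_nonneg_left (h5 x b) (N.hκ x).le
    have h14 : 2 * S / κv = S / κv + S / κv := by ring
    rw [h14]
    exact add_le_add hDb h13
  rw [hmain]
  refine (abs_add_le _ _).trans ((add_le_add hδ hsec).trans (le_of_eq ?_))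
  rw [hES]
  ring

end Pool.Agent.AFJ.H87
end
end -- Pool.Agent.Helper87_AFJ.DRE
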