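import Pool.Agent.Helper12_MEB.B152
import Pool.Agent.Helper12_MEB.B160

/-!
# Merged copies (generated) of the modules

* `Pool.Agent.Helper72_QDA.Tra`
* `Pool.Agent.Helper72_QDA.Dia`
* `Pool.Agent.Helper72_QDA.Edq`
* `Pool.Agent.Helper72_QDA.Edm`
* `Pool.Agent.Helper72_QDA.AllM`
-/

set_option autoImplicit false

section -- Pool.Agent.Helper72_QDA.Tra

/-!
# QDA, EDQ: from the network to the true resolvent, any finite set
-/

set_option autoImplicit false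

open scoped BigOperators ComplexConjugate

noncomputable section

namespace Pool.Agent.QDA.H72

open Pool.Agent.ANR (Net Gr)
open Pool.Agent.HSL14 (mat gr_sym mat_unit ward_diag)

variable {X : Type} [Fintype X] [DecidableEq X]

/-- Markov -/
theorem markov (A : Finset X) (F : X → ℝ) (ε S : ℝ) (hε : 0 < ε) (h0 : ∀ x ∈ A, 0 ≤ F x)
    (hS : ∑ x ∈ A, F x ≤ S) : ((A.filter fun x => ε < F x).card : ℝ) ≤ S / ε := by
  rw [le_div_iff₀ hε]
  refine le_trans ?_ hS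
  calc ((A.filter fun x => ε < F x).card : ℝ) * ε = ∑ _x ∈ A.filter fun x => ε < F x, ε := by
        rw [Finset.sum_const, nsmul_eq_mul]
    _ ≤ ∑ x ∈ A.filter fun x => ε < F x, F x :=
        Finset.sum_le_sum fun x hx => (Finset.mem_filter.1 hx).2.le
    _ ≤ ∑ x ∈ A, F x :=
        Finset.sum_le_sum_of_subset_of_nonneg (Finset.filter_subset _ _) fun x hx _ => h0 x hx

/-- from the network to the true resolvent -/
theorem trans (hT : Tri2Stmt) (hNg : Ngn2Stmt) (H H₀ : Matrix X X ℝ) (k : X → ℝ) (D : Finset X)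
    (η e₀ ε' B Λ : ℝ) (hH : ∀ x y, H x y = H y x) (hH₀ : Net H₀ k) (he : 0 < e₀) (hη : 2 * e₀ ≤ η)
    (hoff : ∀ x y, x ≠ y → H x y = H₀ x y)
    (hd : ∀ x, |H x x - H₀ x x| + |(if x ∈ D then e₀ else η) - k x| ≤
      ε' * (Real.sqrt (if x ∈ D then e₀ else η) * Real.sqrt (k x)))
    (hB : ∀ y ∈ Dᶜ, (Gr H₀ k y y).im ≤ B) (hΛ : ∀ x ∈ Dᶜ, ∀ y ∈ Dᶜ, η ≤ Λ * (k x * k y))
    (P : X → X → Prop) [∀ x y, Decidable (P x y)] :
    ∑ x ∈ Dᶜ, η * ∑ y, (if P x y then ‖Gr H (fun _ => η) x y‖ ^ 2 else 0) ≤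
      7 * ∑ b ∈ D, (Gr H (fun _ => η) b b).im + 3 * (ε' ^ 2 * B * (Dᶜ.card : ℝ) +
        Λ * ∑ x, ∑ y, if P x y then
          (if x ∈ Dᶜ ∧ y ∈ Dᶜ then k x * k y * ‖Gr H₀ k x y‖ ^ 2 else 0) else 0) := by
  have hη0 : 0 < η := by linarith only [he, hη]
  have hN : Net H (fun _ => η) := ⟨hH, fun _ => hη0⟩
  obtain ⟨κN, hκN⟩ : ∃ κN : X → ℝ, κN = fun x => if x ∈ D then e₀ else η := ⟨_, rfl⟩
  have hNN : Net H κN := ⟨hH, fun x => by
    rw [hκN]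
    simp only
    split_ifs
    · exact he
    · exact hη0⟩
  obtain ⟨g, hg⟩ : ∃ g : X → X → ℂ, g = fun x y => Gr H (fun _ => η) x y := ⟨_, rfl⟩
  obtain ⟨gN, hgN⟩ : ∃ gN : X → X → ℂ, gN = fun x y => Gr H κN x y := ⟨_, rfl⟩
  obtain ⟨g0, hg0⟩ : ∃ g0 : X → X → ℂ, g0 = fun x y => Gr H₀ k x y := ⟨_, rfl⟩
  obtain ⟨S, hS⟩ : ∃ S : ℝ, S = ∑ b ∈ D, (Gr H (fun _ => η) b b).im := ⟨_, rfl⟩
  have hward : ∀ b, ∑ x, η * ‖g x b‖ ^ 2 = (Gr H (fun _ => η) b b).im := fun b => by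
    have h1 := ward_diag hN.sym (mat_unit hN) b
    rw [← h1]
    refine Finset.sum_congr rfl fun x _ => ?_
    rw [hg]
    simp only
    rw [gr_sym hN.sym _ x b]
  have hS0 : 0 ≤ S := by
    rw [hS]
    refine Finset.sum_nonneg fun b _ => ?_
    rw [← hward b]
    exact Finset.sum_nonneg fun x _ => by positivity
  -- part 1: `y ∈ D`
  have p1 : ∑ x ∈ Dᶜ, ∑ y ∈ D, η * ‖g x y‖ ^ 2 ≤ S := by
    rw [Finset.sum_comm, hS]
    refine Finset.sum_le_sum fun y _ => ?_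
    rw [← hward y]
    exact Finset.sum_le_sum_of_subset_of_nonneg (Finset.subset_univ _) fun x _ _ => by positivity
  -- part 2: the matrix inequality
  have p2 : ∑ x ∈ Dᶜ, ∑ y ∈ Dᶜ, η * ‖g x y - gN x y‖ ^ 2 ≤ 2 * S := by
    have h1 := hT X H D η e₀ hH he (by linarith)
    have h2 : ∑ x ∈ Dᶜ, ∑ y ∈ Dᶜ, η * ‖g x y - gN x y‖ ^ 2 =
        η * ∑ x ∈ Dᶜ, ∑ y ∈ Dᶜ,
          ‖Gr H (fun _ => η) x y - Gr H (fun z => if z ∈ D then e₀ else η) x y‖ ^ 2 := by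
      rw [Finset.mul_sum]
      refine Finset.sum_congr rfl fun x _ => ?_
      rw [Finset.mul_sum, hg, hgN, hκN]
    rw [h2]
    have h3 := mul_le_mul_of_nonneg_left h1 hη0.le
    rw [← hS] at h3
    refine h3.trans ?_
    have h4 : 0 < η - e₀ := by linarith only [he, hη]
    rw [← mul_assoc, mul_one_div]
    refine mul_le_mul_of_nonneg_right ?_ hS0
    rw [div_le_iff₀ h4]
    linarith only [hη]
  -- part 3: the diagonals
  have p3 : ∑ x ∈ Dᶜ, ∑ y ∈ Dᶜ, η * ‖gN x y - g0 x y‖ ^ 2 ≤ ε' ^ 2 * B * (Dᶜ.card : ℝ) := by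
    rw [Finset.sum_comm]
    have h1 : ∀ y ∈ Dᶜ, ∑ x ∈ Dᶜ, η * ‖gN x y - g0 x y‖ ^ 2 ≤ ε' ^ 2 * B := by
      intro y hy
      have h2 := hNg X H₀ H k κN ε' hH₀ hNN hoff (fun x => by
        have h3 := hd x
        rw [hκN]
        exact h3) y
      calc ∑ x ∈ Dᶜ, η * ‖gN x y - g0 x y‖ ^ 2 =
            ∑ x ∈ Dᶜ, κN x * ‖Gr H κN x y - Gr H₀ k x y‖ ^ 2 := by
              refine Finset.sum_congr rfl fun x hx => ?_
              rw [hgN, hg0, hκN]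
              simp only
              rw [if_neg (Finset.mem_compl.1 hx)]
        _ ≤ ∑ x, κN x * ‖Gr H κN x y - Gr H₀ k x y‖ ^ 2 :=
              Finset.sum_le_sum_of_subset_of_nonneg (Finset.subset_univ _) fun x _ _ =>
                mul_nonneg (hNN.pos x).le (by positivity)
        _ ≤ _ := h2.trans (mul_le_mul_of_nonneg_left (hB y hy) (sq_nonneg _))
    refine (Finset.sum_le_sum h1).trans (le_of_eq ?_)
    rw [Finset.sum_const, nsmul_eq_mul]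
    ring
  -- part 4: the network
  have p4 : ∑ x ∈ Dᶜ, ∑ y ∈ Dᶜ, (if P x y then η * ‖g0 x y‖ ^ 2 else 0) ≤
      Λ * ∑ x, ∑ y, if P x y then
          (if x ∈ Dᶜ ∧ y ∈ Dᶜ then k x * k y * ‖Gr H₀ k x y‖ ^ 2 else 0) else 0 := by
    obtain ⟨R, hR⟩ : ∃ R : X → X → ℝ, R = fun x y => Λ * (if P x y then
          (if x ∈ Dᶜ ∧ y ∈ Dᶜ then k x * k y * ‖Gr H₀ k x y‖ ^ 2 else 0) else 0) := ⟨_, rfl⟩
    have e0 : Λ * ∑ x, ∑ y, (if P x y then
          (if x ∈ Dᶜ ∧ y ∈ Dᶜ then k x * k y * ‖Gr H₀ k x y‖ ^ 2 else 0) else 0) =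
          ∑ x, ∑ y, R x y := by
      rw [Finset.mul_sum]
      refine Finset.sum_congr rfl fun x _ => ?_
      rw [Finset.mul_sum, hR]
    have e1 : ∀ x ∈ Dᶜ, ∀ y ∈ Dᶜ, (if P x y then η * ‖g0 x y‖ ^ 2 else 0) ≤ R x y := by
      intro x hx y hy
      rw [hR]
      simp only
      by_cases hP : P x y
      · rw [if_pos hP, if_pos hP, if_pos (And.intro hx hy), ← mul_assoc, hg0]
        exact mul_le_mul_of_nonneg_right (hΛ x hx y hy) (sq_nonneg _)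
      · rw [if_neg hP, if_neg hP, mul_zero]
    have e2 : ∀ x y, 0 ≤ R x y := by
      intro x y
      by_cases h : x ∈ Dᶜ ∧ y ∈ Dᶜ
      · refine le_trans ?_ (e1 x h.1 y h.2)
        split_ifs
        · positivity
        · exact le_rfl
      · rw [hR]
        simp only
        rw [if_neg h, ite_self, mul_zero]
    rw [e0]
    calc ∑ x ∈ Dᶜ, ∑ y ∈ Dᶜ, (if P x y then η * ‖g0 x y‖ ^ 2 else 0) ≤
          ∑ x ∈ Dᶜ, ∑ y ∈ Dᶜ, R x y :=
            Finset.sum_le_sum fun x hx => Finset.sum_le_sum fun y hy => e1 x hx y hy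
      _ ≤ ∑ x ∈ Dᶜ, ∑ y, R x y := Finset.sum_le_sum fun x _ =>
            Finset.sum_le_sum_of_subset_of_nonneg (Finset.subset_univ _) fun y _ _ => e2 x y
      _ ≤ _ := Finset.sum_le_sum_of_subset_of_nonneg (Finset.subset_univ _) fun x _ _ =>
            Finset.sum_nonneg fun y _ => e2 x y
  -- the sum
  have key : ∀ x y, (if P x y then η * ‖g x y‖ ^ 2 else 0) ≤
      3 * (η * ‖g x y - gN x y‖ ^ 2) + 3 * (η * ‖gN x y - g0 x y‖ ^ 2) +
        3 * (if P x y then η * ‖g0 x y‖ ^ 2 else 0) := by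
    intro x y
    split_ifs
    · have h1 : ‖g x y‖ ≤ ‖g x y - gN x y‖ + ‖gN x y - g0 x y‖ + ‖g0 x y‖ := by
        have h2 : g x y = (g x y - gN x y) + (gN x y - g0 x y) + g0 x y := by ring
        calc ‖g x y‖ = ‖(g x y - gN x y) + (gN x y - g0 x y) + g0 x y‖ := by rw [← h2]
          _ ≤ _ := norm_add₃_le
      have a0 := norm_nonneg (g x y)
      have a1 := norm_nonneg (g x y - gN x y)
      have a2 := norm_nonneg (gN x y - g0 x y)
      have a3 := norm_nonneg (g0 x y)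
      have h3 : ‖g x y‖ ^ 2 ≤ 3 * (‖g x y - gN x y‖ ^ 2 + ‖gN x y - g0 x y‖ ^ 2 +
          ‖g0 x y‖ ^ 2) := by
        have h4 := mul_self_le_mul_self a0 h1
        nlinarith only [sq_nonneg (‖g x y - gN x y‖ - ‖gN x y - g0 x y‖),
          sq_nonneg (‖g x y - gN x y‖ - ‖g0 x y‖), sq_nonneg (‖gN x y - g0 x y‖ - ‖g0 x y‖), h4]
      have h5 := mul_le_mul_of_nonneg_left h3 hη0.le
      linarith only [h5]
    · have h6 : 0 ≤ η * ‖g x y - gN x y‖ ^ 2 := by positivity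
      have h7 : 0 ≤ η * ‖gN x y - g0 x y‖ ^ 2 := by positivity
      linarith only [h6, h7]
  have hsplit : ∀ x, η * ∑ y, (if P x y then ‖Gr H (fun _ => η) x y‖ ^ 2 else 0) =
      ∑ y ∈ D, (if P x y then η * ‖g x y‖ ^ 2 else 0) +
        ∑ y ∈ Dᶜ, (if P x y then η * ‖g x y‖ ^ 2 else 0) := by
    intro x
    rw [Finset.sum_add_sum_compl, Finset.mul_sum]
    refine Finset.sum_congr rfl fun y _ => ?_
    rw [mul_ite, mul_zero, hg]
  rw [Finset.sum_congr rfl fun x _ => hsplit x, Finset.sum_add_distrib, ← hS]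
  have q1 : ∑ x ∈ Dᶜ, ∑ y ∈ D, (if P x y then η * ‖g x y‖ ^ 2 else 0) ≤ S := by
    refine le_trans (Finset.sum_le_sum fun x _ => Finset.sum_le_sum fun y _ => ?_) p1
    split_ifs
    · exact le_rfl
    · positivity
  have q2 : ∑ x ∈ Dᶜ, ∑ y ∈ Dᶜ, (if P x y then η * ‖g x y‖ ^ 2 else 0) ≤
      3 * (∑ x ∈ Dᶜ, ∑ y ∈ Dᶜ, η * ‖g x y - gN x y‖ ^ 2) +
      3 * (∑ x ∈ Dᶜ, ∑ y ∈ Dᶜ, η * ‖gN x y - g0 x y‖ ^ 2) +
      3 * (∑ x ∈ Dᶜ, ∑ y ∈ Dᶜ, (if P x y then η * ‖g0 x y‖ ^ 2 else 0)) := by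
    refine (Finset.sum_le_sum fun x _ => Finset.sum_le_sum fun y _ => key x y).trans
      (le_of_eq ?_)
    simp only [Finset.sum_add_distrib, Finset.mul_sum]
  linarith only [p2, p3, p4, q1, q2]

/-- the diagonal of the true resolvent -/
theorem dia (H H₀ : Matrix X X ℝ) (k : X → ℝ) (D : Finset X)
    (η e₀ ε' c B : ℝ) (hH : ∀ x y, H x y = H y x) (hH₀ : Net H₀ k) (he : 0 < e₀) (hη : e₀ ≤ η)
    (hoff : ∀ x y, x ≠ y → H x y = H₀ x y) (hε : ε' ≤ 1 / 2)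
    (hd : ∀ x, |H x x - H₀ x x| + |(if x ∈ D then e₀ else η) - k x| ≤
      ε' * (Real.sqrt (if x ∈ D then e₀ else η) * Real.sqrt (k x))) (hc : 0 < c)
    (hB : ∀ y ∈ Dᶜ, 4 * c ≤ (Gr H₀ k y y).im ∧ (Gr H₀ k y y).im ≤ B) :
    (((Dᶜ).filter fun x => (Gr H (fun _ => η) x x).im < c ∨
      2 * B + c < (Gr H (fun _ => η) x x).im).card : ℝ) ≤
      (∑ b ∈ D, (Gr H (fun _ => η) b b).im) / (c / 2) := by
  have hη0 : 0 < η := by linarith only [he, hη]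
  have hN : Net H (fun _ => η) := ⟨hH, fun _ => hη0⟩
  obtain ⟨κN, hκN⟩ : ∃ κN : X → ℝ, κN = fun x => if x ∈ D then e₀ else η := ⟨_, rfl⟩
  have hNN : Net H κN := ⟨hH, fun x => by
    rw [hκN]
    simp only
    split_ifs
    · exact he
    · exact hη0⟩
  have hd' : ∀ x, |H x x - H₀ x x| + |κN x - k x| ≤ ε' * (Real.sqrt (κN x) * Real.sqrt (k x)) :=
    fun x => by
      rw [hκN]
      exact hd x
  have hd'' : ∀ x, |H₀ x x - H x x| + |k x - κN x| ≤ ε' * (Real.sqrt (k x) * Real.sqrt (κN x)) :=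
    fun x => by
      rw [abs_sub_comm, abs_sub_comm (k x), mul_comm (Real.sqrt (k x))]
      exact hd' x
  have h1 := Pool.Agent.ACS.H72.tri hN hNN D (fun x hx => by
    rw [hκN]
    simp only
    rw [if_neg hx]) (fun b hb => by
    rw [hκN]
    simp only
    rw [if_pos hb]
    exact hη)
  have him : ∀ b, 0 ≤ (Gr H (fun _ => η) b b).im := fun b =>
    Pool.Agent.ACS.H48.im_nonneg hN b
  have h2 : ∑ x ∈ Dᶜ, ‖Gr H κN x x - Gr H (fun _ => η) x x‖ ≤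
      ∑ b ∈ D, (Gr H (fun _ => η) b b).im := by
    have e1 : ∑ x ∈ Dᶜ, η * ‖Gr H κN x x - Gr H (fun _ => η) x x‖ =
        η * ∑ x ∈ Dᶜ, ‖Gr H κN x x - Gr H (fun _ => η) x x‖ := by
      rw [Finset.mul_sum]
    have e2 : ∑ b ∈ D, (η - κN b) * (Gr H (fun _ => η) b b).im ≤
        η * ∑ b ∈ D, (Gr H (fun _ => η) b b).im := by
      rw [Finset.mul_sum]
      refine Finset.sum_le_sum fun b hb => mul_le_mul_of_nonneg_right ?_ (him b)
      have := hNN.pos b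
      linarith only [this]
    rw [e1] at h1
    exact le_of_mul_le_mul_left (h1.trans e2) hη0
  refine le_trans ?_ (markov (Dᶜ) (fun x => ‖Gr H κN x x - Gr H (fun _ => η) x x‖) (c / 2) _
    (by linarith only [hc]) (fun x _ => norm_nonneg _) h2)
  have hsub : ((Dᶜ).filter fun x => (Gr H (fun _ => η) x x).im < c ∨
      2 * B + c < (Gr H (fun _ => η) x x).im) ⊆
      (Dᶜ).filter fun x => c / 2 < ‖Gr H κN x x - Gr H (fun _ => η) x x‖ := by
    intro x hx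
    obtain ⟨hxD, hx'⟩ := Finset.mem_filter.1 hx
    refine Finset.mem_filter.2 ⟨hxD, ?_⟩
    obtain ⟨g1, g2⟩ := hB x hxD
    have u1 := Pool.Agent.ACS.H48.ngn_im hH₀ hNN hε hoff hd' x
    have u2 := Pool.Agent.ACS.H48.ngn_im hNN hH₀ hε (fun a b hab => (hoff a b hab).symm) hd'' x
    have u3 := Complex.abs_im_le_norm (Gr H κN x x - Gr H (fun _ => η) x x)
    rw [Complex.sub_im] at u3
    have u4 := abs_le.1 (le_refl |(Gr H κN x x).im - (Gr H (fun _ => η) x x).im|)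
    rcases hx' with h | h
    · linarith only [u4.2, hc, g1, u2, u3, h]
    · linarith only [u4.1, hc, g2, u1, u3, h]
  exact_mod_cast Finset.card_le_card hsub

end Pool.Agent.QDA.H72
end
end -- Pool.Agent.Helper72_QDA.Tra

section -- Pool.Agent.Helper72_QDA.Dia

/-!
# QDA, EDM: the diagonal of the true resolvent is close to the gauge
-/

set_option autoImplicit false

open scoped BigOperators ComplexConjugate

noncomputable section

namespace Pool.Agent.QDA.H72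

open Pool.Agent.ANR (Net Gr)
open Pool.Agent.HSL14 (mat gr_sym mat_unit ward_diag)

variable {X : Type} [Fintype X] [DecidableEq X]

/-- the diagonal of the true resolvent -/
theorem dia2 (H H₀ : Matrix X X ℝ) (k : X → ℝ) (D : Finset X)
    (η e₀ ε' B ε₁ : ℝ) (m₀ : ℂ) (hH : ∀ x y, H x y = H y x) (hH₀ : Net H₀ k) (he : 0 < e₀)
    (hη : e₀ ≤ η) (hoff : ∀ x y, x ≠ y → H x y = H₀ x y) (hε0 : 0 ≤ ε') (hε : ε' ≤ 1 / 2)
    (hd : ∀ x, |H x x - H₀ x x| + |(if x ∈ D then e₀ else η) - k x| ≤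
      ε' * (Real.sqrt (if x ∈ D then e₀ else η) * Real.sqrt (k x))) (hε₁ : 0 < ε₁)
    (hB : ∀ y ∈ Dᶜ, (Gr H₀ k y y).im ≤ B) (hm : ∀ y ∈ Dᶜ, ‖Gr H₀ k y y - m₀‖ ≤ ε₁ / 8)
    (hBe : ε' * (2 * B) ≤ ε₁ / 8) :
    (((Dᶜ).filter fun x => ε₁ / 2 < ‖Gr H (fun _ => η) x x - m₀‖).card : ℝ) ≤
      (∑ b ∈ D, (Gr H (fun _ => η) b b).im) / (ε₁ / 4) := by
  have hη0 : 0 < η := by linarith only [he, hη]
  have hN : Net H (fun _ => η) := ⟨hH, fun _ => hη0⟩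
  obtain ⟨κN, hκN⟩ : ∃ κN : X → ℝ, κN = fun x => if x ∈ D then e₀ else η := ⟨_, rfl⟩
  have hNN : Net H κN := ⟨hH, fun x => by
    rw [hκN]
    simp only
    split_ifs
    · exact he
    · exact hη0⟩
  have hd' : ∀ x, |H x x - H₀ x x| + |κN x - k x| ≤ ε' * (Real.sqrt (κN x) * Real.sqrt (k x)) :=
    fun x => by
      rw [hκN]
      exact hd x
  have h1 := Pool.Agent.ACS.H72.tri hN hNN D (fun x hx => by
    rw [hκN]
    simp only
    rw [if_neg hx]) (fun b hb => by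
    rw [hκN]
    simp only
    rw [if_pos hb]
    exact hη)
  have him : ∀ b, 0 ≤ (Gr H (fun _ => η) b b).im := fun b =>
    Pool.Agent.ACS.H48.im_nonneg hN b
  have h2 : ∑ x ∈ Dᶜ, ‖Gr H κN x x - Gr H (fun _ => η) x x‖ ≤
      ∑ b ∈ D, (Gr H (fun _ => η) b b).im := by
    have e1 : ∑ x ∈ Dᶜ, η * ‖Gr H κN x x - Gr H (fun _ => η) x x‖ =
        η * ∑ x ∈ Dᶜ, ‖Gr H κN x x - Gr H (fun _ => η) x x‖ := by
      rw [Finset.mul_sum]
    have e2 : ∑ b ∈ D, (η - κN b) * (Gr H (fun _ => η) b b).im ≤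
        η * ∑ b ∈ D, (Gr H (fun _ => η) b b).im := by
      rw [Finset.mul_sum]
      refine Finset.sum_le_sum fun b hb => mul_le_mul_of_nonneg_right ?_ (him b)
      have := hNN.pos b
      linarith only [this]
    rw [e1] at h1
    exact le_of_mul_le_mul_left (h1.trans e2) hη0
  refine le_trans ?_ (markov (Dᶜ) (fun x => ‖Gr H κN x x - Gr H (fun _ => η) x x‖) (ε₁ / 4) _
    (by linarith only [hε₁]) (fun x _ => norm_nonneg _) h2)
  have hsub : ((Dᶜ).filter fun x => ε₁ / 2 < ‖Gr H (fun _ => η) x x - m₀‖) ⊆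
      (Dᶜ).filter fun x => ε₁ / 4 < ‖Gr H κN x x - Gr H (fun _ => η) x x‖ := by
    intro x hx
    obtain ⟨hxD, hx'⟩ := Finset.mem_filter.1 hx
    refine Finset.mem_filter.2 ⟨hxD, ?_⟩
    have g1 := hB x hxD
    have g2 := hm x hxD
    have u1 := Pool.Agent.ACS.H48.ngn_im hH₀ hNN hε hoff hd' x
    have u2 := Pool.Agent.ACS.H48.ngn hH₀ hNN hoff hd' x
    have a0 := Pool.Agent.ACS.H48.im_nonneg hNN x
    have b0 := Pool.Agent.ACS.H48.im_nonneg hH₀ x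
    obtain ⟨a, ha⟩ : ∃ a, a = (Gr H κN x x).im := ⟨_, rfl⟩
    obtain ⟨b, hb⟩ : ∃ b, b = (Gr H₀ k x x).im := ⟨_, rfl⟩
    rw [← ha, ← hb] at u1 u2
    rw [← ha] at a0
    rw [← hb] at b0 g1
    have u3 : Real.sqrt a * Real.sqrt b ≤ 2 * B := by
      have e1 := Real.sq_sqrt a0
      have e2 := Real.sq_sqrt b0
      nlinarith only [sq_nonneg (Real.sqrt a - Real.sqrt b), g1, b0, u1, e1, e2]
    have u4 : ‖Gr H κN x x - Gr H₀ k x x‖ ≤ ε₁ / 8 :=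
      u2.trans ((mul_le_mul_of_nonneg_left u3 hε0).trans hBe)
    have u5 : ‖Gr H (fun _ => η) x x - m₀‖ ≤ ‖Gr H κN x x - Gr H (fun _ => η) x x‖ +
        ‖Gr H κN x x - Gr H₀ k x x‖ + ‖Gr H₀ k x x - m₀‖ := by
      have e1 : Gr H (fun _ => η) x x - m₀ = -(Gr H κN x x - Gr H (fun _ => η) x x) +
          (Gr H κN x x - Gr H₀ k x x) + (Gr H₀ k x x - m₀) := by ring
      rw [e1]
      refine (norm_add₃_le).trans ?_
      rw [norm_neg]
    linarith only [hx', g2, u4, u5]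
  exact_mod_cast Finset.card_le_card hsub

end Pool.Agent.QDA.H72
end
end -- Pool.Agent.Helper72_QDA.Dia

section -- Pool.Agent.Helper72_QDA.Edq

/-!
# QDA, EDQ: the deterministic end on the torus
-/

set_option autoImplicit false

open scoped BigOperators ComplexConjugate NNReal

noncomputable section

namespace Pool.Agent.QDA.H72

open Pool.Agent.ANR (Net Gr)
open Pool.Agent.LTG (Tor Bd sT tT bon Box Fm qd mor LB UB)
open Pool.Agent.AND2B (net kap Hr Vef res)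
open Pool.Agent.ANP (Cfg)
open Pool.Agent.AHH (Al ww Ef gg)
open Pool.Agent.HSL14 (mat gr_sym mat_unit ward_diag)
open Pool.Agent.ACS.H48 (hr_off hr_diag hsym im_nonneg)

theorem card_tor (d μ : ℕ) : (Fintype.card (Tor d (2 ^ μ)) : ℝ) = ((2 : ℝ) ^ μ) ^ d := by
  have h : Fintype.card (Tor d (2 ^ μ)) = (2 ^ μ) ^ d := by
    simp [Tor, ZMod.card]
  rw [h]
  push_cast
  rfl

theorem mem_al {d M : ℕ} [NeZero M] (T : Cfg (Tor d M)) (x : Tor d M) :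
    x ∈ Al T ↔ ¬ (T.s x : ℝ) = 0 := by
  unfold Al
  rw [Finset.mem_filter]
  constructor
  · intro h h0
    have : T.s x = 0 := by exact_mod_cast h0
    rw [this] at h
    exact lt_irrefl _ h.2
  · intro h
    refine ⟨Finset.mem_univ _, pos_iff_ne_zero.2 fun h0 => h ?_⟩
    rw [h0]
    rfl

/-- the conductances -/
def cc {d M : ℕ} [NeZero M] (E e₀ : ℝ) (T : Cfg (Tor d M)) (D : Finset (Tor d M))
    (x y : Tor d M) : ℝ :=
  if x ∈ Dᶜ ∧ y ∈ Dᶜ then kap e₀ T x * kap e₀ T y * ‖net E e₀ T x y‖ ^ 2 else 0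

theorem net_sym {d M : ℕ} [NeZero M] (E e₀ : ℝ) (T : Cfg (Tor d M)) (x y : Tor d M) :
    net E e₀ T x y = net E e₀ T y x := gr_sym (hsym _ E) _ x y

theorem cc_sym {d M : ℕ} [NeZero M] (E e₀ : ℝ) (T : Cfg (Tor d M)) (D : Finset (Tor d M))
    (x y : Tor d M) : cc E e₀ T D x y = cc E e₀ T D y x := by
  unfold cc
  rw [net_sym E e₀ T x y]
  by_cases h : x ∈ Dᶜ ∧ y ∈ Dᶜ
  · rw [if_pos h, if_pos (And.intro h.2 h.1)]
    ring
  · rw [if_neg h, if_neg fun h' => h ⟨h'.2, h'.1⟩]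

theorem qd_cc {d M : ℕ} [NeZero M] (E e₀ : ℝ) (T : Cfg (Tor d M)) (D : Finset (Tor d M))
    (hD : Al T = Dᶜ) (f : Tor d M → ℝ) :
    qd (Ef E e₀ T) f = 1 / 2 * ∑ x, ∑ y, cc E e₀ T D x y * (f x - f y) ^ 2 := by
  unfold Ef
  rw [Pool.Agent.AHH.H72.qd_EE (net_sym E e₀ T), hD]
  congr 1
  refine Finset.sum_congr rfl fun x _ => Finset.sum_congr rfl fun y _ => ?_
  unfold cc
  rw [ite_mul, zero_mul]

open Classical in
/-- the analysis of one configuration, all constants explicit -/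
theorem core (hT : Tri2Stmt) (hNg : Ngn2Stmt) {d μ : ℕ} (j R : ℕ) (T : Cfg (Tor d (2 ^ μ)))
    (E e₀ f D₀ D₁ c₀ C₀ δ C₁ C₂ : ℝ) (m₀ : ℂ) (U : Tor d (2 ^ μ) → ℝ)
    (hU1 : ∀ (c : Matrix (Tor d (2 ^ μ)) (Tor d (2 ^ μ)) ℝ) (B : ℝ),
      (∀ x y, 0 ≤ c x y) → 0 ≤ B →
      (∀ h : Tor d (2 ^ μ) → ℝ,
        1 / 2 * ∑ x, ∑ y, c x y * (h x - h y) ^ 2 ≤ B * bon sT tT (fun _ => 1) h) →
      ∑ x, ∑ y, (if R ≤ ANP.H61.sd x y then c x y else 0) ≤
        C₁ * B * ((2 : ℝ) ^ μ) ^ d / (R : ℝ) ^ 2)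
    (hL1 : ∀ (c : Matrix (Tor d (2 ^ μ)) (Tor d (2 ^ μ)) ℝ)
      (A : Finset (Tor d (2 ^ μ))) (w : Tor d (2 ^ μ) → ℝ) (W W' b ε ν : ℝ),
      (∀ x y, 0 ≤ c x y) → (∀ x y, c x y = c y x) → (∀ x y, x ∉ A → c x y = 0) →
      0 < W' → (∀ x ∈ A, W' ≤ w x ∧ w x ≤ W) → 0 < b → 0 ≤ ε → ε ≤ 1 / 2 → 0 ≤ ν →
      (∀ x ∈ A, ∑ y, c x y ≤ (1 + ν) * w x) →
      (∀ f : Tor d (2 ^ μ) → ℝ, ∃ h : Tor d (2 ^ μ) → ℝ,
        ∑ x ∈ A, w x / (1 + ε) * (f x - h x) ^ 2 + b * bon sT tT (fun _ => 1) h ≤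
          1 / 2 * ∑ x, ∑ y, c x y * (f x - f y) ^ 2) →
      (((2 : ℝ) ^ μ) ^ d ≤ 2 * A.card) →
      ∑ x, ∑ y, (if ANP.H61.sd x y < 2 ^ j then c x y else 0) ≤
        C₂ * ((2 : ℝ) ^ μ) ^ d * W * (ε + ν + W * 4 ^ j / b + W / W' * ((2 : ℝ) ^ j / 2 ^ μ) ^ d))
    (hc₀ : 0 < c₀) (hc1 : c₀ ≤ 1) (hC₀ : 1 ≤ C₀) (hδ0 : 0 < δ) (hδ : 64 * δ ≤ c₀)
    (he : 0 < e₀) (hf : 0 < f) (hef : e₀ ≤ δ * f) (hm1 : c₀ ≤ m₀.im) (hm2 : ‖m₀‖ ≤ C₀)
    (hs : ∀ x, (T.s x : ℝ) = 0 ∨ (T.s x : ℝ) = f)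
    (hmb : ∀ x, (T.s x : ℝ) = f → ‖T.mb x - m₀‖ ≤ δ ∧ ‖net E e₀ T x x - T.mb x‖ ≤ δ)
    (hUV : ∀ x, U x = T.V x - (T.s x : ℝ) * m₀.re)
    (hFm : ∃ (εl εu : Tor d (2 ^ μ) → ℝ) (bl bu : Bd d (2 ^ μ) → ℝ),
      Fm sT tT (Al T) (ww e₀ T) εl εu bl bu (qd (Ef E e₀ T)) ∧
      (∀ x ∈ Al T, 0 ≤ εl x ∧ εl x ≤ δ) ∧ ∀ e, D₀ ≤ bl e ∧ bu e ≤ D₁)
    (hD₀ : 0 < D₀) (hD₁ : 0 ≤ D₁)
    (hDD : 2 * ((Finset.univ.filter fun x => (T.s x : ℝ) = 0).card : ℝ) ≤ ((2 : ℝ) ^ μ) ^ d) :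
    (∑ x ∈ (Finset.univ.filter fun x => (T.s x : ℝ) = 0)ᶜ,
      (f * m₀.im) * ∑ y, (if ANP.H61.sd x y < 2 ^ j then
        ‖Gr (Hr U E) (fun _ => f * m₀.im) x y‖ ^ 2 else 0) ≤
      7 * ∑ b ∈ Finset.univ.filter fun x => (T.s x : ℝ) = 0,
        (Gr (Hr U E) (fun _ => f * m₀.im) b b).im +
      3 * (((6 * δ / c₀) ^ 2 * (2 * C₀) + 4 * C₀ / (f * c₀ ^ 2) * (C₂ * (4 * f * C₀ ^ 2) *
        (δ + 2 * δ / c₀ + 4 * f * C₀ ^ 2 * 4 ^ j / D₀ +
          16 * C₀ ^ 2 / c₀ ^ 2 * ((2 : ℝ) ^ j / 2 ^ μ) ^ d))) * ((2 : ℝ) ^ μ) ^ d)) ∧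
    (∑ x ∈ (Finset.univ.filter fun x => (T.s x : ℝ) = 0)ᶜ,
      (f * m₀.im) * ∑ y, (if R ≤ ANP.H61.sd x y then
        ‖Gr (Hr U E) (fun _ => f * m₀.im) x y‖ ^ 2 else 0) ≤
      7 * ∑ b ∈ Finset.univ.filter fun x => (T.s x : ℝ) = 0,
        (Gr (Hr U E) (fun _ => f * m₀.im) b b).im +
      3 * (((6 * δ / c₀) ^ 2 * (2 * C₀) + 4 * C₀ / (f * c₀ ^ 2) * (C₁ * D₁ / (R : ℝ) ^ 2)) *
        ((2 : ℝ) ^ μ) ^ d)) ∧
    ((((Finset.univ.filter fun x => (T.s x : ℝ) = 0)ᶜ).filter fun x =>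
      (Gr (Hr U E) (fun _ => f * m₀.im) x x).im < c₀ / 16 ∨
      2 * (2 * C₀) + c₀ / 16 < (Gr (Hr U E) (fun _ => f * m₀.im) x x).im).card : ℝ) ≤
      (∑ b ∈ Finset.univ.filter fun x => (T.s x : ℝ) = 0,
        (Gr (Hr U E) (fun _ => f * m₀.im) b b).im) / (c₀ / 16 / 2) ∧
    ∀ ε₁ : ℝ, 0 < ε₁ → δ * (192 * C₀) ≤ c₀ * ε₁ →
      ((((Finset.univ.filter fun x => (T.s x : ℝ) = 0)ᶜ).filter fun x =>
        ε₁ / 2 < ‖Gr (Hr U E) (fun _ => f * m₀.im) x x - m₀‖).card : ℝ) ≤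
      (∑ b ∈ Finset.univ.filter fun x => (T.s x : ℝ) = 0,
        (Gr (Hr U E) (fun _ => f * m₀.im) b b).im) / (ε₁ / 4) := by
  obtain ⟨D, hD⟩ : ∃ D : Finset (Tor d (2 ^ μ)), D = Finset.univ.filter fun x => (T.s x : ℝ) = 0 :=
    ⟨_, rfl⟩
  rw [← hD] at hDD ⊢
  obtain ⟨η, hη⟩ : ∃ η : ℝ, η = f * m₀.im := ⟨_, rfl⟩
  rw [← hη]
  have hC0 : 0 < C₀ := by linarith only [hc1, hC₀, hδ0, hδ]
  have hmD : ∀ x, x ∈ D ↔ (T.s x : ℝ) = 0 := fun x => by rw [hD, Finset.mem_filter]; simp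
  have hAD : Al T = Dᶜ := by
    ext x
    rw [mem_al, Finset.mem_compl, hmD]
  have hmA : ∀ x ∈ Dᶜ, (T.s x : ℝ) = f := fun x hx =>
    (hs x).resolve_left fun h => Finset.mem_compl.1 hx ((hmD x).2 h)
  have him : m₀.im ≤ C₀ := (le_abs_self _).trans ((Complex.abs_im_le_norm _).trans hm2)
  have hδ1 : δ ≤ 1 / 64 := by linarith only [hc1, hδ]
  -- the gauge at the running sites
  have g1 : ∀ x ∈ Dᶜ, c₀ / 2 ≤ (T.mb x).im ∧ (T.mb x).im ≤ 2 * C₀ := fun x hx => by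
    obtain ⟨h1, -⟩ := hmb x (hmA x hx)
    have h2 := (Complex.abs_im_le_norm _).trans h1
    rw [Complex.sub_im] at h2
    obtain ⟨h3, h4⟩ := abs_le.1 h2
    constructor <;> linarith
  have g2 : ∀ x ∈ Dᶜ, |(net E e₀ T x x).im - (T.mb x).im| ≤ δ := fun x hx => by
    obtain ⟨-, h1⟩ := hmb x (hmA x hx)
    have h2 := (Complex.abs_im_le_norm _).trans h1
    rwa [Complex.sub_im] at h2
  have g3 : ∀ x ∈ Dᶜ, 4 * (c₀ / 16) ≤ (net E e₀ T x x).im ∧ (net E e₀ T x x).im ≤ 2 * C₀ :=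
    fun x hx => by
    obtain ⟨h1, h2⟩ := hmb x (hmA x hx)
    have h3 := (Complex.abs_im_le_norm _).trans h1
    rw [Complex.sub_im] at h3
    obtain ⟨h5, h6⟩ := abs_le.1 h3
    obtain ⟨h7, h8⟩ := abs_le.1 (g2 x hx)
    constructor <;> linarith
  have k1 : ∀ x ∈ Dᶜ, f * (c₀ / 2) ≤ kap e₀ T x ∧ kap e₀ T x ≤ 2 * f * C₀ := fun x hx => by
    obtain ⟨h1, h2⟩ := hmb x (hmA x hx)
    have h3 := (Complex.abs_im_le_norm _).trans h1
    rw [Complex.sub_im] at h3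
    obtain ⟨h5, h6⟩ := abs_le.1 h3
    obtain ⟨h7, h8⟩ := g1 x hx
    unfold kap
    rw [hmA x hx]
    constructor
    · have := mul_le_mul_of_nonneg_left h7 hf.le
      linarith only [he, this]
    · have h9 : (T.mb x).im ≤ 2 * C₀ - δ := by linarith only [hc1, hC₀, hδ0, hδ, him, h6]
      have := mul_le_mul_of_nonneg_left h9 hf.le
      nlinarith only [hef, this]
  have kpos : ∀ x, 0 < kap e₀ T x := fun x => by
    by_cases hx : x ∈ D
    · unfold kap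
      rw [(hmD x).1 hx]
      linarith only [he]
    · exact lt_of_lt_of_le (by positivity) (k1 x (Finset.mem_compl.2 hx)).1
  have hN₀ : Net (Hr (Vef T) E) (kap e₀ T) := ⟨hsym _ E, kpos⟩
  have hη1 : f * c₀ ≤ η := by
    rw [hη]
    exact mul_le_mul_of_nonneg_left hm1 hf.le
  have hη2 : η ≤ f * C₀ := by
    rw [hη]
    exact mul_le_mul_of_nonneg_left him hf.le
  have heη : 2 * e₀ ≤ η := by nlinarith only [hc₀, hδ0, hδ, he, hef, hη1]
  have hη0 : 0 < η := by linarith only [he, heη]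
  -- the diagonals
  have hd : ∀ x, |Hr U E x x - Hr (Vef T) E x x| + |(if x ∈ D then e₀ else η) - kap e₀ T x| ≤
      6 * δ / c₀ * (Real.sqrt (if x ∈ D then e₀ else η) * Real.sqrt (kap e₀ T x)) := by
    intro x
    have h0 : 0 ≤ 6 * δ / c₀ := by positivity
    rw [hr_diag, hUV x]
    by_cases hx : x ∈ D
    · rw [if_pos hx]
      have e1 : T.V x - (T.s x : ℝ) * m₀.re - Vef T x = 0 := by
        unfold Vef
        rw [(hmD x).1 hx]
        ring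
      have e2 : e₀ - kap e₀ T x = 0 := by
        unfold kap
        rw [(hmD x).1 hx]
        ring
      rw [e1, e2, abs_zero, add_zero]
      exact mul_nonneg h0 (mul_nonneg (Real.sqrt_nonneg _) (Real.sqrt_nonneg _))
    · rw [if_neg hx]
      have hx' := Finset.mem_compl.2 hx
      obtain ⟨h1, -⟩ := hmb x (hmA x hx')
      have e1 : |T.V x - (T.s x : ℝ) * m₀.re - Vef T x| ≤ f * δ := by
        unfold Vef
        rw [hmA x hx']
        have : T.V x - f * m₀.re - (T.V x - f * (T.mb x).re) = f * (T.mb x - m₀).re := by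
          rw [Complex.sub_re]; ring
        rw [this, abs_mul, abs_of_pos hf]
        exact mul_le_mul_of_nonneg_left ((Complex.abs_re_le_norm _).trans h1) hf.le
      have e2 : |η - kap e₀ T x| ≤ e₀ + f * δ := by
        unfold kap
        rw [hmA x hx', hη]
        have : f * m₀.im - (e₀ + f * (T.mb x).im) = -(e₀ + f * (T.mb x - m₀).im) := by
          rw [Complex.sub_im]; ring
        rw [this, abs_neg]
        refine (abs_add_le _ _).trans ?_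
        rw [abs_of_pos he, abs_mul, abs_of_pos hf]
        have := mul_le_mul_of_nonneg_left ((Complex.abs_im_le_norm _).trans h1) hf.le
        linarith only [this]
      have e3 : f * (c₀ / 2) ≤ Real.sqrt η * Real.sqrt (kap e₀ T x) := by
        have k2 : f * (c₀ / 2) ≤ η := by nlinarith only [he, hη1, heη]
        have k0 : 0 ≤ f * (c₀ / 2) := by positivity
        calc f * (c₀ / 2) = Real.sqrt (f * (c₀ / 2)) * Real.sqrt (f * (c₀ / 2)) :=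
              (Real.mul_self_sqrt k0).symm
          _ ≤ _ := mul_le_mul (Real.sqrt_le_sqrt k2) (Real.sqrt_le_sqrt (k1 x hx').1)
            (Real.sqrt_nonneg _) (Real.sqrt_nonneg _)
      calc |T.V x - (T.s x : ℝ) * m₀.re - Vef T x| + |η - kap e₀ T x| ≤ f * δ + (e₀ + f * δ) :=
            add_le_add e1 e2
        _ ≤ 6 * δ / c₀ * (f * (c₀ / 2)) := by
            have : 6 * δ / c₀ * (f * (c₀ / 2)) = 3 * δ * f := by
              field_simp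
              ring
            rw [this]
            linarith only [hef]
        _ ≤ _ := mul_le_mul_of_nonneg_left e3 h0
  have hoff : ∀ x y : Tor d (2 ^ μ), x ≠ y → Hr U E x y = Hr (Vef T) E x y := fun x y h =>
    hr_off _ _ E x y h
  -- the count of the sites
  have hcard : (Dᶜ.card : ℝ) = ((2 : ℝ) ^ μ) ^ d - D.card := by
    rw [Finset.card_compl, Nat.cast_sub (Finset.card_le_univ D), card_tor]
  have hcardle : (Dᶜ.card : ℝ) ≤ ((2 : ℝ) ^ μ) ^ d := by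
    rw [hcard]
    have : (0 : ℝ) ≤ D.card := Nat.cast_nonneg _
    linarith only
  have hΛ : ∀ x ∈ Dᶜ, ∀ y ∈ Dᶜ, η ≤ 4 * C₀ / (f * c₀ ^ 2) * (kap e₀ T x * kap e₀ T y) := by
    intro x hx y hy
    have h1 : (f * (c₀ / 2)) * (f * (c₀ / 2)) ≤ kap e₀ T x * kap e₀ T y :=
      mul_le_mul (k1 x hx).1 (k1 y hy).1 (by positivity) (kpos x).le
    calc η ≤ f * C₀ := hη2
      _ = 4 * C₀ / (f * c₀ ^ 2) * ((f * (c₀ / 2)) * (f * (c₀ / 2))) := by
          field_simp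
          ring
      _ ≤ _ := mul_le_mul_of_nonneg_left h1 (by positivity)
  have ha0 : 0 ≤ (6 * δ / c₀) ^ 2 * (2 * C₀) := by positivity
  have hΛ0 : 0 ≤ 4 * C₀ / (f * c₀ ^ 2) := by positivity
  obtain ⟨εl, εu, bl, bu, hF, hεl, hb⟩ := hFm
  rw [hAD] at hF hεl
  have hcc0 : ∀ x y, 0 ≤ cc E e₀ T D x y := fun x y => by
    unfold cc
    split_ifs
    · exact mul_nonneg (mul_nonneg (kpos x).le (kpos y).le) (sq_nonneg _)
    · exact le_rfl
  refine ⟨?_, ?_, ?_, ?_⟩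
  · -- near
    have h1 := trans hT hNg (Hr U E) (Hr (Vef T) E) (kap e₀ T) D η e₀ (6 * δ / c₀) (2 * C₀)
      (4 * C₀ / (f * c₀ ^ 2)) (hsym U E) hN₀ he heη hoff hd (fun y hy => (g3 y hy).2) hΛ
      (fun x y => ANP.H61.sd x y < 2 ^ j)
    refine h1.trans ?_
    have h2 := hL1 (cc E e₀ T D) (Dᶜ) (ww e₀ T) (4 * f * C₀ ^ 2) (f * c₀ ^ 2 / 4) D₀ δ
      (2 * δ / c₀) hcc0 (cc_sym E e₀ T D) (fun x y hx => by
        unfold cc
        rw [if_neg fun h => hx h.1]) (by positivity) (fun x hx => by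
        obtain ⟨a1, a2⟩ := g1 x hx
        obtain ⟨b1, b2⟩ := k1 x hx
        unfold ww gg
        constructor
        · calc f * c₀ ^ 2 / 4 = (f * (c₀ / 2)) * (c₀ / 2) := by ring
            _ ≤ _ := mul_le_mul b1 a1 (by positivity) (kpos x).le
        · calc kap e₀ T x * (T.mb x).im ≤ (2 * f * C₀) * (2 * C₀) :=
                mul_le_mul b2 a2 (by linarith only [hδ0, hδ, a1]) (by positivity)
            _ = _ := by ring) hD₀ hδ0.le (by linarith only [hc1, hδ0, hδ]) (by positivity) (fun x hx => by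
        obtain ⟨a1, a2⟩ := g1 x hx
        obtain ⟨a3, a4⟩ := abs_le.1 (g2 x hx)
        have e1 : ∑ y, cc E e₀ T D x y ≤ kap e₀ T x * (net E e₀ T x x).im := by
          have e2 := ward_diag hN₀.sym (mat_unit hN₀) x
          have e3 : (net E e₀ T x x).im = ∑ y, kap e₀ T y * ‖net E e₀ T x y‖ ^ 2 := e2.symm
          rw [e3, Finset.mul_sum]
          refine Finset.sum_le_sum fun y _ => ?_
          unfold cc
          split_ifs
          · rw [mul_assoc]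
          · exact mul_nonneg (kpos x).le (mul_nonneg (kpos y).le (sq_nonneg _))
        refine e1.trans ?_
        unfold ww gg
        have e4 : (net E e₀ T x x).im ≤ (1 + 2 * δ / c₀) * (T.mb x).im := by
          have e5 : δ ≤ 2 * δ / c₀ * (T.mb x).im := by
            calc δ = 2 * δ / c₀ * (c₀ / 2) := by field_simp
              _ ≤ _ := mul_le_mul_of_nonneg_left a1 (by positivity)
          linarith only [a4, e5]
        have e6 := mul_le_mul_of_nonneg_left e4 (kpos x).le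
        linarith only [e6]) (fun g => by
        obtain ⟨h, hh⟩ := hF.lb g
        refine ⟨h, ?_⟩
        rw [← qd_cc E e₀ T D hAD]
        refine le_trans ?_ hh
        unfold mor
        refine add_le_add ?_ ?_
        · rw [← Finset.sum_subset (Finset.subset_univ (Dᶜ)) (fun x _ hx => by
            unfold Pool.Agent.LTG.wl
            rw [if_neg hx, zero_mul])]
          refine Finset.sum_le_sum fun x hx => ?_
          unfold Pool.Agent.LTG.wl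
          rw [if_pos hx]
          refine mul_le_mul_of_nonneg_right ?_ (sq_nonneg _)
          obtain ⟨l1, l2⟩ := hεl x hx
          have hw0 : 0 ≤ ww e₀ T x := by
            unfold ww gg
            have := (g1 x hx).1
            exact mul_nonneg (kpos x).le (by linarith only [hδ0, hδ, this])
          exact div_le_div_of_nonneg_left hw0 (by linarith only [hc1, hδ0, hδ, l1]) (by linarith only [l2])
        · unfold bon
          rw [Finset.mul_sum]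
          refine Finset.sum_le_sum fun e _ => ?_
          rw [one_mul]
          exact mul_le_mul_of_nonneg_right (hb e).1 (sq_nonneg _)) (by
        rw [hcard]
        linarith only [hDD])
    have h3 : 4 * f * C₀ ^ 2 / (f * c₀ ^ 2 / 4) = 16 * C₀ ^ 2 / c₀ ^ 2 := by
      field_simp
      ring
    rw [h3] at h2
    have h4 : ∑ x, ∑ y, (if ANP.H61.sd x y < 2 ^ j then
        (if x ∈ Dᶜ ∧ y ∈ Dᶜ then kap e₀ T x * kap e₀ T y *
          ‖Gr (Hr (Vef T) E) (kap e₀ T) x y‖ ^ 2 else 0) else 0) =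
        ∑ x, ∑ y, (if ANP.H61.sd x y < 2 ^ j then cc E e₀ T D x y else 0) := rfl
    rw [h4]
    have h5 := mul_le_mul_of_nonneg_left h2 hΛ0
    have h6 := mul_le_mul_of_nonneg_left hcardle ha0
    have h7 : 4 * C₀ / (f * c₀ ^ 2) * (C₂ * ((2 : ℝ) ^ μ) ^ d * (4 * f * C₀ ^ 2) *
        (δ + 2 * δ / c₀ + 4 * f * C₀ ^ 2 * 4 ^ j / D₀ +
          16 * C₀ ^ 2 / c₀ ^ 2 * ((2 : ℝ) ^ j / 2 ^ μ) ^ d)) =
        4 * C₀ / (f * c₀ ^ 2) * (C₂ * (4 * f * C₀ ^ 2) *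
        (δ + 2 * δ / c₀ + 4 * f * C₀ ^ 2 * 4 ^ j / D₀ +
          16 * C₀ ^ 2 / c₀ ^ 2 * ((2 : ℝ) ^ j / 2 ^ μ) ^ d)) * ((2 : ℝ) ^ μ) ^ d := by ring
    rw [h7] at h5
    linarith only [h5, h6]
  · -- far
    have h1 := trans hT hNg (Hr U E) (Hr (Vef T) E) (kap e₀ T) D η e₀ (6 * δ / c₀) (2 * C₀)
      (4 * C₀ / (f * c₀ ^ 2)) (hsym U E) hN₀ he heη hoff hd (fun y hy => (g3 y hy).2) hΛ
      (fun x y => R ≤ ANP.H61.sd x y)
    refine h1.trans ?_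
    have h2 := hU1 (cc E e₀ T D) D₁ hcc0 hD₁ (fun h => by
      rw [← qd_cc E e₀ T D hAD]
      refine (hF.ub h h).trans ?_
      unfold mor
      have e1 : ∑ x, Pool.Agent.LTG.wu (Dᶜ) (ww e₀ T) εu x * (h x - h x) ^ 2 = 0 := by
        refine Finset.sum_eq_zero fun x _ => ?_
        ring
      rw [e1, zero_add]
      unfold bon
      rw [Finset.mul_sum]
      refine Finset.sum_le_sum fun e _ => ?_
      rw [one_mul]
      exact mul_le_mul_of_nonneg_right (hb e).2 (sq_nonneg _))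
    have h4 : ∑ x, ∑ y, (if R ≤ ANP.H61.sd x y then
        (if x ∈ Dᶜ ∧ y ∈ Dᶜ then kap e₀ T x * kap e₀ T y *
          ‖Gr (Hr (Vef T) E) (kap e₀ T) x y‖ ^ 2 else 0) else 0) =
        ∑ x, ∑ y, (if R ≤ ANP.H61.sd x y then cc E e₀ T D x y else 0) := rfl
    rw [h4]
    have h5 := mul_le_mul_of_nonneg_left h2 hΛ0
    have h6 := mul_le_mul_of_nonneg_left hcardle ha0
    have h7 : 4 * C₀ / (f * c₀ ^ 2) * (C₁ * D₁ * ((2 : ℝ) ^ μ) ^ d / (R : ℝ) ^ 2) =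
        4 * C₀ / (f * c₀ ^ 2) * (C₁ * D₁ / (R : ℝ) ^ 2) * ((2 : ℝ) ^ μ) ^ d := by ring
    rw [h7] at h5
    linarith only [h5, h6]
  · exact dia (Hr U E) (Hr (Vef T) E) (kap e₀ T) D η e₀ (6 * δ / c₀) (c₀ / 16) (2 * C₀)
      (hsym U E) hN₀ he (by linarith only [he, heη]) hoff (by
        rw [div_le_iff₀ hc₀]
        linarith only [hδ0, hδ]) hd (by positivity) g3
  · intro ε₁ hε₁ h1
    have h2 : 16 * δ ≤ ε₁ := by
      have h3 : δ * (192 * 1) ≤ δ * (192 * C₀) := by gcongr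
      have h4 : c₀ * ε₁ ≤ 1 * ε₁ := by gcongr
      linarith only [hδ0, h1, h3, h4]
    exact dia2 (Hr U E) (Hr (Vef T) E) (kap e₀ T) D η e₀ (6 * δ / c₀) (2 * C₀) ε₁ m₀
      (hsym U E) hN₀ he (by linarith only [he, heη]) hoff (by positivity) (by
        rw [div_le_iff₀ hc₀]
        linarith only [hδ0, hδ]) hd hε₁ (fun y hy => (g3 y hy).2) (fun y hy => by
        obtain ⟨h5, h6⟩ := hmb y (hmA y hy)
        have e1 : Gr (Hr (Vef T) E) (kap e₀ T) y y - m₀ =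
            (net E e₀ T y y - T.mb y) + (T.mb y - m₀) := by
          have : net E e₀ T y y = Gr (Hr (Vef T) E) (kap e₀ T) y y := rfl
          rw [← this]
          ring
        rw [e1]
        refine (norm_add_le _ _).trans ?_
        linarith only [h2, h5, h6]) (by
        have e2 : 6 * δ / c₀ * (2 * (2 * C₀)) = δ * (192 * C₀) / (8 * c₀) := by
          field_simp
          ring
        rw [e2, div_le_iff₀ (by positivity)]
        linarith only [h1])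

open Classical in
/-- the deterministic end, all the alternatives at once -/
theorem edx (hT : Tri2Stmt) (hNg : Ngn2Stmt) (hUP : UpfStmt) (hLO : LofStmt) (d : ℕ) (c₀ C₀ ε : ℝ)
    (hd : 3 ≤ d) (hc₀ : 0 < c₀) (hc1 : c₀ ≤ 1) (hC₀ : 1 ≤ C₀) (hε : 0 < ε) :
    ∃ K δ : ℝ, 1 ≤ K ∧ 0 < δ ∧
    ∀ (μ j R : ℕ) (T : Cfg (Tor d (2 ^ μ))) (E e₀ f D₀ D₁ : ℝ) (m₀ : ℂ) (U : Tor d (2 ^ μ) → ℝ),
    0 < e₀ → 0 < f → e₀ ≤ δ * f → c₀ ≤ m₀.im → ‖m₀‖ ≤ C₀ →
    (∀ x, (T.s x : ℝ) = 0 ∨ (T.s x : ℝ) = f) →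
    (∀ x, (T.s x : ℝ) = f → ‖T.mb x - m₀‖ ≤ δ ∧ ‖net E e₀ T x x - T.mb x‖ ≤ δ) →
    (∀ x, (T.s x : ℝ) = f → U x = T.V x - f * m₀.re) →
    (∀ x, (T.s x : ℝ) = 0 → |U x - T.V x| ≤ C₀ * f) →
    (∃ (εl εu : Tor d (2 ^ μ) → ℝ) (bl bu : Bd d (2 ^ μ) → ℝ),
      Fm sT tT (Al T) (ww e₀ T) εl εu bl bu (qd (Ef E e₀ T)) ∧
      (∀ x ∈ Al T, 0 ≤ εl x ∧ εl x ≤ δ) ∧ ∀ e, D₀ ≤ bl e ∧ bu e ≤ D₁) →
    0 < D₀ → j + 1 ≤ μ → 1 ≤ R → K * f * 4 ^ j ≤ D₀ → K * 2 ^ j ≤ 2 ^ μ → K * D₁ ≤ f * R ^ 2 →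
    2 * ((Finset.univ.filter fun x => (T.s x : ℝ) = 0).card : ℝ) ≤ ((2 : ℝ) ^ μ) ^ d →
    ((((Finset.univ.filter fun x => (T.s x : ℝ) = 0)ᶜ).filter fun x =>
      Bad U E (f * m₀.im) (1 / K) ε (2 ^ j) R x ∨
      ε < ‖Gt U E (f * m₀.im) x x - m₀‖).card : ℝ) ≤
      ε * ((2 : ℝ) ^ μ) ^ d +
        K * ∑ b ∈ Finset.univ.filter fun x => (T.s x : ℝ) = 0, (Gt U E (f * m₀.im) b b).im := by
  obtain ⟨C₁, hC₁, hU⟩ := hUP d (by omega)
  obtain ⟨C₂, hC₂, hL⟩ := hLO d hd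
  have hC0 : 0 < C₀ := by linarith only [hC₀]
  have hC1 : 0 < C₁ := by linarith
  have hC2 : 0 < C₂ := by linarith
  obtain ⟨a, ha⟩ : ∃ a : ℝ, a = ε ^ 2 / 48 := ⟨_, rfl⟩
  have ha0 : 0 < a := by rw [ha]; positivity
  -- the constants
  obtain ⟨δ, hδ⟩ : ∃ δ : ℝ, δ = min (min (c₀ / 64) (c₀ * ε / (192 * C₀)))
    (min (a * c₀ ^ 2 / (72 * C₀)) (a * c₀ ^ 3 / (96 * C₂ * C₀ ^ 3))) := ⟨_, rfl⟩
  have hδ0 : 0 < δ := by
    rw [hδ]
    exact lt_min (lt_min (by positivity) (by positivity)) (lt_min (by positivity) (by positivity))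
  have hδ1 : 64 * δ ≤ c₀ := by
    have : δ ≤ c₀ / 64 := by rw [hδ]; exact (min_le_left _ _).trans (min_le_left _ _)
    linarith only [this]
  have hδ4 : δ * (192 * C₀) ≤ c₀ * ε := by
    have : δ ≤ c₀ * ε / (192 * C₀) := by
      rw [hδ]
      exact (min_le_left _ _).trans (min_le_right _ _)
    rwa [le_div_iff₀ (by positivity)] at this
  have hδ2 : δ * (72 * C₀) ≤ a * c₀ ^ 2 := by
    have : δ ≤ a * c₀ ^ 2 / (72 * C₀) := by
      rw [hδ]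
      exact (min_le_right _ _).trans (min_le_left _ _)
    rwa [le_div_iff₀ (by positivity)] at this
  have hδ3 : δ * (96 * C₂ * C₀ ^ 3) ≤ a * c₀ ^ 3 := by
    have : δ ≤ a * c₀ ^ 3 / (96 * C₂ * C₀ ^ 3) := by
      rw [hδ]
      exact (min_le_right _ _).trans (min_le_right _ _)
    rwa [le_div_iff₀ (by positivity)] at this
  obtain ⟨ρ, hρ⟩ : ∃ ρ : ℝ, ρ = C₀ / c₀ := ⟨_, rfl⟩
  have hρ0 : 0 < ρ := by rw [hρ]; positivity
  obtain ⟨τ, hτ⟩ : ∃ τ : ℝ, τ = min (c₀ / 32) (ε / 2) := ⟨_, rfl⟩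
  have hτ0 : 0 < τ := by rw [hτ]; exact lt_min (by positivity) (by positivity)
  have hτ1 : τ ≤ c₀ / 32 := by rw [hτ]; exact min_le_left _ _
  have hτ2 : τ ≤ ε / 2 := by rw [hτ]; exact min_le_right _ _
  obtain ⟨L₀, hL₀⟩ : ∃ L₀ : ℝ, L₀ = 32 / c₀ * (2 + 2 * ρ ^ 2) +
    ρ / 2 * (3 + 2 * ρ ^ 2) / τ + 2 * ((28 + 30 * ρ ^ 2) / ε) + 4 / ε * (2 + 2 * ρ ^ 2) :=
    ⟨_, rfl⟩
  obtain ⟨K, hK⟩ : ∃ K : ℝ, K = 1 + 32 / c₀ + 5 * C₀ + 640 * C₂ * C₀ ^ 5 / (c₀ ^ 4 * a) +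
    4 * C₀ * C₁ / (c₀ ^ 2 * a) + L₀ := ⟨_, rfl⟩
  have t1 : 0 < 32 / c₀ := by positivity
  have t2 : 0 < 640 * C₂ * C₀ ^ 5 / (c₀ ^ 4 * a) := by positivity
  have t3 : 0 < 4 * C₀ * C₁ / (c₀ ^ 2 * a) := by positivity
  have t4 : 0 < L₀ := by rw [hL₀]; positivity
  have hK1 : 1 ≤ K := by rw [hK]; linarith only [hc1, hC₀, hδ0, hδ1, t1, t2, t3, t4]
  have hK0 : 0 < K := by linarith only [hc1, hC₀, hδ0, hδ1, hK, t1, t2, t3, t4]
  have hK2 : 1 / K ≤ c₀ / 32 := by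
    rw [div_le_iff₀ hK0]
    have h1 : 32 / c₀ ≤ K := by rw [hK]; linarith only [hc1, hC₀, hδ0, hδ1, t2, t3, t4]
    calc 1 = c₀ / 32 * (32 / c₀) := by field_simp
      _ ≤ _ := mul_le_mul_of_nonneg_left h1 (by positivity)
  have hK3 : 5 * C₀ ≤ K := by rw [hK]; linarith only [hc1, hδ0, hδ1, t1, t2, t3, t4]
  have hK4 : 640 * C₂ * C₀ ^ 5 ≤ K * (c₀ ^ 4 * a) := by
    have h1 : 640 * C₂ * C₀ ^ 5 / (c₀ ^ 4 * a) ≤ K := by rw [hK]; linarith only [hc1, hC₀, hδ0, hδ1, t1, t3, t4]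
    rwa [div_le_iff₀ (by positivity)] at h1
  have hK5 : 4 * C₀ * C₁ ≤ K * (c₀ ^ 2 * a) := by
    have h1 : 4 * C₀ * C₁ / (c₀ ^ 2 * a) ≤ K := by rw [hK]; linarith only [hc1, hC₀, hδ0, hδ1, t1, t2, t4]
    rwa [div_le_iff₀ (by positivity)] at h1
  have hK6 : L₀ ≤ K := by rw [hK]; linarith only [hc1, hC₀, hδ0, hδ1, t1, t2, t3]
  refine ⟨K, δ, hK1, hδ0, ?_⟩
  intro μ j R T E e₀ f D₀ D₁ m₀ U he hf hef hm1 hm2 hs hmb hUr hUd hFm hD₀ hj hR q1 q2 q3 hDD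
  have hN0 : 0 < ((2 : ℝ) ^ μ) ^ d := by positivity
  obtain ⟨N, hN⟩ : ∃ N : ℝ, N = ((2 : ℝ) ^ μ) ^ d := ⟨_, rfl⟩
  have hD₁ : 0 ≤ D₁ := by
    obtain ⟨εl, εu, bl, bu, hF, -, hb⟩ := hFm
    by_contra hneg
    push Not at hneg
    -- a function with a nonzero bond energy
    obtain ⟨i⟩ : Nonempty (Fin d) := ⟨⟨0, by omega⟩⟩
    obtain ⟨h, hh⟩ : ∃ h : Tor d (2 ^ μ) → ℝ, h = fun x => if x = 0 then 1 else 0 := ⟨_, rfl⟩
    have hq : 0 ≤ qd (Ef E e₀ T) h := by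
      unfold Ef
      rw [Pool.Agent.AHH.H72.qd_EE (net_sym E e₀ T)]
      refine mul_nonneg (by norm_num) (Finset.sum_nonneg fun x _ => Finset.sum_nonneg fun y _ => ?_)
      split_ifs with hxy
      · have h1 : ∀ z, z ∈ Al T → 0 ≤ kap e₀ T z := fun z hz => by
          have h2 : (T.s z : ℝ) = f := (hs z).resolve_left ((mem_al T z).1 hz)
          obtain ⟨h3, -⟩ := hmb z h2
          have h4 := (Complex.abs_im_le_norm _).trans h3
          rw [Complex.sub_im] at h4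
          have h5 := (abs_le.1 h4).1
          unfold kap
          rw [h2]
          have h6 : 0 ≤ (T.mb z).im := by linarith only [hδ0, hδ1, hm1, h5]
          have := mul_nonneg hf.le h6
          linarith only [he, this]
        exact mul_nonneg (mul_nonneg (mul_nonneg (h1 x hxy.1) (h1 y hxy.2)) (sq_nonneg _))
          (sq_nonneg _)
      · exact le_rfl
    have hu := hF.ub h h
    unfold mor at hu
    have e1 : ∑ x, Pool.Agent.LTG.wu (Al T) (ww e₀ T) εu x * (h x - h x) ^ 2 = 0 := by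
      refine Finset.sum_eq_zero fun x _ => ?_
      ring
    rw [e1, zero_add] at hu
    have hlt : bon sT tT bu h < 0 := by
      unfold bon
      refine Finset.sum_neg' (fun e _ => ?_) ⟨(i, 0), Finset.mem_univ _, ?_⟩
      · have := (hb e).2
        exact mul_nonpos_of_nonpos_of_nonneg (by linarith only [hneg, this]) (sq_nonneg _)
      · have h1 := (hb (i, 0)).2
        refine mul_neg_of_neg_of_pos (by linarith only [hneg, h1]) ?_
        have h2 : tT ((i, 0) : Bd d (2 ^ μ)) ≠ 0 := by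
          unfold tT
          simp only [zero_add]
          intro h0
          have h3 := congrFun h0 i
          rw [Pi.single_eq_same, Pi.zero_apply] at h3
          have h4 : Fact (1 < 2 ^ μ) := ⟨Nat.one_lt_two_pow (by omega)⟩
          exact one_ne_zero h3
        have h5 : sT ((i, 0) : Bd d (2 ^ μ)) = 0 := rfl
        rw [hh]
        simp only
        rw [if_neg h2, h5, if_pos rfl]
        norm_num
    linarith only [hq, hu, hlt]
  obtain ⟨U₂, hU₂⟩ : ∃ U₂ : Tor d (2 ^ μ) → ℝ, U₂ = fun x => T.V x - (T.s x : ℝ) * m₀.re :=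
    ⟨_, rfl⟩
  have hUV : ∀ x, U₂ x = T.V x - (T.s x : ℝ) * m₀.re := fun x => by rw [hU₂]
  obtain ⟨r1, r2, r3, r5⟩ := core hT hNg j R T E e₀ f D₀ D₁ c₀ C₀ δ C₁ C₂ m₀ U₂
    (fun c B h1 h2 h3 => by
      have := hU (2 ^ μ) c B h1 h2 h3 R hR
      push_cast at this
      exact this)
    (fun c A w W W' b ε ν => hL μ j c A w W W' b ε ν hj)
    hc₀ hc1 hC₀ hδ0 hδ1 he hf hef hm1 hm2 hs hmb hUV hFm hD₀ hD₁ hDD
  obtain ⟨D, hD⟩ : ∃ D : Finset (Tor d (2 ^ μ)), D = Finset.univ.filter fun x => (T.s x : ℝ) = 0 :=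
    ⟨_, rfl⟩
  obtain ⟨η, hη⟩ : ∃ η : ℝ, η = f * m₀.im := ⟨_, rfl⟩
  obtain ⟨S, hS⟩ : ∃ S : ℝ, S = ∑ b ∈ D, (Gr (Hr U E) (fun _ => η) b b).im := ⟨_, rfl⟩
  obtain ⟨S₂, hS₂⟩ : ∃ S₂ : ℝ, S₂ = ∑ b ∈ D, (Gr (Hr U₂ E) (fun _ => η) b b).im := ⟨_, rfl⟩
  rw [← hD, ← hη, ← hS₂, ← hN] at r1 r2
  rw [← hD, ← hη, ← hS₂] at r3
  have r5 := r5 ε hε hδ4
  rw [← hD, ← hη, ← hS₂] at r5
  have hη0 : 0 < η := by rw [hη]; exact mul_pos hf (by linarith only [hδ0, hδ1, hm1])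
  -- the numbers
  have n1 : (6 * δ / c₀) ^ 2 * (2 * C₀) ≤ a := by
    have h1 : (6 * δ / c₀) ^ 2 * (2 * C₀) = δ * (δ * (72 * C₀)) / c₀ ^ 2 := by
      field_simp
      ring
    rw [h1, div_le_iff₀ (by positivity)]
    have h2 : δ * (δ * (72 * C₀)) ≤ 1 * (δ * (72 * C₀)) :=
      mul_le_mul_of_nonneg_right (by linarith only [hc1, hδ0, hδ1]) (by positivity)
    linarith only [hδ2, h2]
  have n2 : 4 * C₀ / (f * c₀ ^ 2) * (C₁ * D₁ / (R : ℝ) ^ 2) ≤ a := by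
    have hR0 : (0 : ℝ) < R := by exact_mod_cast hR
    have h1 : D₁ / (R : ℝ) ^ 2 ≤ f / K := by
      rw [div_le_div_iff₀ (by positivity) hK0]
      linarith only [q3]
    calc 4 * C₀ / (f * c₀ ^ 2) * (C₁ * D₁ / (R : ℝ) ^ 2) =
          4 * C₀ * C₁ / (f * c₀ ^ 2) * (D₁ / (R : ℝ) ^ 2) := by ring
      _ ≤ 4 * C₀ * C₁ / (f * c₀ ^ 2) * (f / K) := mul_le_mul_of_nonneg_left h1 (by positivity)
      _ = 4 * C₀ * C₁ / (K * c₀ ^ 2) := by field_simp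
      _ ≤ a := by
          rw [div_le_iff₀ (by positivity)]
          linarith only [hK5]
  have n3 : 4 * C₀ / (f * c₀ ^ 2) * (C₂ * (4 * f * C₀ ^ 2) *
        (δ + 2 * δ / c₀ + 4 * f * C₀ ^ 2 * 4 ^ j / D₀ +
          16 * C₀ ^ 2 / c₀ ^ 2 * ((2 : ℝ) ^ j / 2 ^ μ) ^ d)) ≤ a := by
    have h1 : 4 * f * C₀ ^ 2 * 4 ^ j / D₀ ≤ 4 * C₀ ^ 2 / (K * c₀ ^ 2) := by
      rw [div_le_div_iff₀ hD₀ (by positivity)]
      have h2 : f * 4 ^ j * K ≤ D₀ := by linarith only [q1]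
      have h3 : c₀ ^ 2 ≤ 1 := by nlinarith only [hc₀, hc1]
      calc 4 * f * C₀ ^ 2 * 4 ^ j * (K * c₀ ^ 2) = (4 * C₀ ^ 2) * (f * 4 ^ j * K) * c₀ ^ 2 := by
            ring
        _ ≤ (4 * C₀ ^ 2) * (f * 4 ^ j * K) * 1 :=
            mul_le_mul_of_nonneg_left h3 (by positivity)
        _ ≤ (4 * C₀ ^ 2) * D₀ := by
            rw [mul_one]
            exact mul_le_mul_of_nonneg_left h2 (by positivity)
        _ = _ := by ring
    have h4 : ((2 : ℝ) ^ j / 2 ^ μ) ^ d ≤ 1 / K := by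
      have h5 : (2 : ℝ) ^ j / 2 ^ μ ≤ 1 / K := by
        rw [div_le_div_iff₀ (by positivity) hK0]
        linarith only [q2]
      have h6 : (2 : ℝ) ^ j / 2 ^ μ ≤ 1 := h5.trans (by
        rw [div_le_one hK0]
        exact hK1)
      refine le_trans ?_ h5
      exact pow_le_of_le_one (by positivity) h6 (by omega)
    have h7 : 16 * C₀ ^ 2 / c₀ ^ 2 * ((2 : ℝ) ^ j / 2 ^ μ) ^ d ≤ 16 * C₀ ^ 2 / (K * c₀ ^ 2) := by
      calc _ ≤ 16 * C₀ ^ 2 / c₀ ^ 2 * (1 / K) := mul_le_mul_of_nonneg_left h4 (by positivity)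
        _ = _ := by field_simp
    have h8 : δ ≤ δ / c₀ := by
      rw [le_div_iff₀ hc₀]
      nlinarith only [hc1, hδ0]
    have h9 : δ + 2 * δ / c₀ + 4 * f * C₀ ^ 2 * 4 ^ j / D₀ +
          16 * C₀ ^ 2 / c₀ ^ 2 * ((2 : ℝ) ^ j / 2 ^ μ) ^ d ≤
        3 * (δ / c₀) + 20 * C₀ ^ 2 / (K * c₀ ^ 2) := by
      have e1 : 2 * δ / c₀ = 2 * (δ / c₀) := by ring
      have e2 : 4 * C₀ ^ 2 / (K * c₀ ^ 2) + 16 * C₀ ^ 2 / (K * c₀ ^ 2) =
          20 * C₀ ^ 2 / (K * c₀ ^ 2) := by ring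
      linarith only [h1, h7, h8, e1, e2]
    calc _ ≤ 4 * C₀ / (f * c₀ ^ 2) * (C₂ * (4 * f * C₀ ^ 2) *
          (3 * (δ / c₀) + 20 * C₀ ^ 2 / (K * c₀ ^ 2))) :=
          mul_le_mul_of_nonneg_left (mul_le_mul_of_nonneg_left h9 (by positivity)) (by positivity)
      _ = δ * (96 * C₂ * C₀ ^ 3) / (2 * c₀ ^ 3) + 640 * C₂ * C₀ ^ 5 / (2 * (K * c₀ ^ 4)) := by
          field_simp
          ring
      _ ≤ a / 2 + a / 2 := by
          refine add_le_add ?_ ?_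
          · rw [div_le_iff₀ (by positivity)]
            linarith only [hδ3]
          · rw [div_le_iff₀ (by positivity)]
            linarith only [hK4]
      _ = a := by ring
  -- the shift at the dead sites
  have hmD : ∀ x, x ∈ D ↔ (T.s x : ℝ) = 0 := fun x => by rw [hD, Finset.mem_filter]; simp
  have hη1 : f * c₀ ≤ η := by
    rw [hη]
    exact mul_le_mul_of_nonneg_left hm1 hf.le
  have hρη : C₀ * f ≤ ρ * η := by
    calc C₀ * f = ρ * (f * c₀) := by rw [hρ]; field_simp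
      _ ≤ _ := mul_le_mul_of_nonneg_left hη1 hρ0.le
  obtain ⟨s1, s2, s3⟩ := shift (Hr U E) (Hr U₂ E) D η ρ (fun x => U x - U₂ x) (hsym U E)
    (hsym U₂ E) hη0 hρ0.le (fun x hx => by
      have h1 : (T.s x : ℝ) = f := (hs x).resolve_left fun h => hx ((hmD x).2 h)
      rw [hUr x h1, hUV x, h1]
      ring) (fun x => by
      by_cases hx : x ∈ D
      · have h1 := (hmD x).1 hx
        refine (le_of_eq ?_).trans ((hUd x h1).trans hρη)
        rw [hUV x, h1]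
        congr 1
        ring
      · have h1 : (T.s x : ℝ) = f := (hs x).resolve_left fun h => hx ((hmD x).2 h)
        rw [hUr x h1, hUV x, h1, sub_self, abs_zero]
        positivity) (fun x y => by
      by_cases h : x = y
      · rw [← h, if_pos rfl]
        have := hr_diag U U₂ E x
        linarith only [this]
      · rw [if_neg h, add_zero]
        exact hr_off _ _ E x y h)
  have hS0 : 0 ≤ S := by
    rw [hS]
    refine Finset.sum_nonneg fun b _ => im_nonneg ⟨hsym U E, fun _ => hη0⟩ b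
  have hS₂S : S₂ ≤ (2 + 2 * ρ ^ 2) * S := by
    rw [hS₂, hS, Finset.mul_sum]
    exact Finset.sum_le_sum fun b _ => s1 b
  rw [← hS] at s2 s3
  have hN0' : 0 ≤ N := by rw [hN]; exact hN0.le
  -- the sums for the true resolvent
  have hgen : ∀ P : Tor d (2 ^ μ) → Tor d (2 ^ μ) → Prop,
      ∑ x ∈ Dᶜ, η * ∑ y, (if P x y then ‖Gr (Hr U₂ E) (fun _ => η) x y‖ ^ 2 else 0) ≤
        7 * S₂ + 6 * a * N →
      ∑ x ∈ Dᶜ, η * ∑ y, (if P x y then ‖Gr (Hr U E) (fun _ => η) x y‖ ^ 2 else 0) ≤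
        (28 + 30 * ρ ^ 2) * S + 12 * a * N := by
    intro P hP
    have e1 : ∀ x, η * ∑ y, (if P x y then ‖Gr (Hr U E) (fun _ => η) x y‖ ^ 2 else 0) ≤
        2 * (η * ∑ y, (if P x y then ‖Gr (Hr U₂ E) (fun _ => η) x y‖ ^ 2 else 0)) +
        2 * ∑ y, η * ‖Gr (Hr U E) (fun _ => η) x y - Gr (Hr U₂ E) (fun _ => η) x y‖ ^ 2 := by
      intro x
      rw [Finset.mul_sum, Finset.mul_sum, Finset.mul_sum, Finset.mul_sum,
        ← Finset.sum_add_distrib]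
      refine Finset.sum_le_sum fun y _ => ?_
      obtain ⟨g, hg⟩ : ∃ g, g = Gr (Hr U E) (fun _ => η) x y := ⟨_, rfl⟩
      obtain ⟨g', hg'⟩ : ∃ g, g = Gr (Hr U₂ E) (fun _ => η) x y := ⟨_, rfl⟩
      rw [← hg, ← hg']
      have e2 : ‖g‖ ^ 2 ≤ 2 * ‖g'‖ ^ 2 + 2 * ‖g - g'‖ ^ 2 := by
        have e3 : ‖g‖ ≤ ‖g'‖ + ‖g - g'‖ := by
          have := norm_add_le g' (g - g')
          rwa [add_sub_cancel] at this
        have := mul_self_le_mul_self (norm_nonneg _) e3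
        nlinarith only [sq_nonneg (‖g'‖ - ‖g - g'‖), this]
      have e4 := mul_le_mul_of_nonneg_left e2 hη0.le
      split_ifs
      · linarith only [e4]
      · have : 0 ≤ η * ‖g - g'‖ ^ 2 := by positivity
        linarith only [this]
    have e5 : ∑ x ∈ Dᶜ, ∑ y, η * ‖Gr (Hr U E) (fun _ => η) x y -
        Gr (Hr U₂ E) (fun _ => η) x y‖ ^ 2 ≤ ρ ^ 2 * S := by
      refine le_trans (Finset.sum_le_sum_of_subset_of_nonneg (Finset.subset_univ _)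
        fun x _ _ => Finset.sum_nonneg fun y _ => by positivity) s2
    have e6 : ∑ x ∈ Dᶜ, η * ∑ y, (if P x y then ‖Gr (Hr U E) (fun _ => η) x y‖ ^ 2 else 0) ≤
        2 * (∑ x ∈ Dᶜ, η * ∑ y, (if P x y then ‖Gr (Hr U₂ E) (fun _ => η) x y‖ ^ 2 else 0)) +
        2 * ∑ x ∈ Dᶜ, ∑ y, η * ‖Gr (Hr U E) (fun _ => η) x y -
          Gr (Hr U₂ E) (fun _ => η) x y‖ ^ 2 := by
      rw [Finset.mul_sum, Finset.mul_sum, ← Finset.sum_add_distrib]
      exact Finset.sum_le_sum fun x _ => e1 x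
    linarith only [hS₂S, hP, e5, e6]
  -- the counts
  have hsum1 : ∑ x ∈ Dᶜ, η * ∑ y, (if ANP.H61.sd x y < 2 ^ j then
      ‖Gr (Hr U E) (fun _ => η) x y‖ ^ 2 else 0) ≤ (28 + 30 * ρ ^ 2) * S + 12 * a * N := by
    have h0 : ∑ x ∈ Dᶜ, η * ∑ y, (if ANP.H61.sd x y < 2 ^ j then
        ‖Gr (Hr U₂ E) (fun _ => η) x y‖ ^ 2 else 0) ≤ 7 * S₂ + 6 * a * N := by
      refine r1.trans ?_
      have h1 := mul_le_mul_of_nonneg_right (add_le_add n1 n3) hN0'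
      linarith only [h1]
    have h2 := hgen (fun x y => ANP.H61.sd x y < 2 ^ j) (by
      refine le_trans (le_of_eq ?_) h0
      refine Finset.sum_congr rfl fun x _ => ?_
      congr 1
      refine Finset.sum_congr rfl fun y _ => ?_
      by_cases h : ANP.H61.sd x y < 2 ^ j
      · rw [if_pos h, if_pos h]
      · rw [if_neg h, if_neg h])
    refine le_trans (le_of_eq ?_) h2
    refine Finset.sum_congr rfl fun x _ => ?_
    congr 1
    refine Finset.sum_congr rfl fun y _ => ?_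
    by_cases h : ANP.H61.sd x y < 2 ^ j
    · rw [if_pos h, if_pos h]
    · rw [if_neg h, if_neg h]
  have hsum2 : ∑ x ∈ Dᶜ, η * ∑ y, (if R ≤ ANP.H61.sd x y then
      ‖Gr (Hr U E) (fun _ => η) x y‖ ^ 2 else 0) ≤ (28 + 30 * ρ ^ 2) * S + 12 * a * N := by
    have h0 : ∑ x ∈ Dᶜ, η * ∑ y, (if R ≤ ANP.H61.sd x y then
        ‖Gr (Hr U₂ E) (fun _ => η) x y‖ ^ 2 else 0) ≤ 7 * S₂ + 6 * a * N := by
      refine r2.trans ?_
      have h1 := mul_le_mul_of_nonneg_right (add_le_add n1 n2) hN0'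
      linarith only [h1]
    have h2 := hgen (fun x y => R ≤ ANP.H61.sd x y) (by
      refine le_trans (le_of_eq ?_) h0
      refine Finset.sum_congr rfl fun x _ => ?_
      congr 1
      refine Finset.sum_congr rfl fun y _ => ?_
      by_cases h : R ≤ ANP.H61.sd x y
      · rw [if_pos h, if_pos h]
      · rw [if_neg h, if_neg h])
    refine le_trans (le_of_eq ?_) h2
    refine Finset.sum_congr rfl fun x _ => ?_
    congr 1
    refine Finset.sum_congr rfl fun y _ => ?_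
    by_cases h : R ≤ ANP.H61.sd x y
    · rw [if_pos h, if_pos h]
    · rw [if_neg h, if_neg h]
  have m1 := markov (Dᶜ) (fun x => η * ∑ y, (if ANP.H61.sd x y < 2 ^ j then
      ‖Gr (Hr U E) (fun _ => η) x y‖ ^ 2 else 0)) ε _ hε (fun x _ => mul_nonneg hη0.le
        (Finset.sum_nonneg fun y _ => by split_ifs <;> positivity)) hsum1
  have m2 := markov (Dᶜ) (fun x => η * ∑ y, (if R ≤ ANP.H61.sd x y then
      ‖Gr (Hr U E) (fun _ => η) x y‖ ^ 2 else 0)) ε _ hε (fun x _ => mul_nonneg hη0.le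
        (Finset.sum_nonneg fun y _ => by split_ifs <;> positivity)) hsum2
  have m4 := markov (Dᶜ) (fun x => ‖Gr (Hr U E) (fun _ => η) x x -
      Gr (Hr U₂ E) (fun _ => η) x x‖) τ _ hτ0 (fun x _ => norm_nonneg _)
    ((Finset.sum_le_sum_of_subset_of_nonneg (Finset.subset_univ _)
      fun x _ _ => norm_nonneg _).trans s3)
  rw [← hη, ← hD, ← hN]
  have hS' : ∑ b ∈ D, (Gt U E η b b).im = S := hS.symm
  rw [hS']
  -- the union
  obtain ⟨B1, hB1⟩ : ∃ B1 : Finset (Tor d (2 ^ μ)), B1 = (Dᶜ).filter fun x =>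
      ε < η * ∑ y, (if ANP.H61.sd x y < 2 ^ j then
        ‖Gr (Hr U E) (fun _ => η) x y‖ ^ 2 else 0) := ⟨_, rfl⟩
  obtain ⟨B2, hB2⟩ : ∃ B2 : Finset (Tor d (2 ^ μ)), B2 = (Dᶜ).filter fun x =>
      ε < η * ∑ y, (if R ≤ ANP.H61.sd x y then
        ‖Gr (Hr U E) (fun _ => η) x y‖ ^ 2 else 0) := ⟨_, rfl⟩
  obtain ⟨B3, hB3⟩ : ∃ B3 : Finset (Tor d (2 ^ μ)), B3 = (Dᶜ).filter fun x =>
      (Gr (Hr U₂ E) (fun _ => η) x x).im < c₀ / 16 ∨
      2 * (2 * C₀) + c₀ / 16 < (Gr (Hr U₂ E) (fun _ => η) x x).im := ⟨_, rfl⟩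
  obtain ⟨B4, hB4⟩ : ∃ B4 : Finset (Tor d (2 ^ μ)), B4 = (Dᶜ).filter fun x =>
      τ < ‖Gr (Hr U E) (fun _ => η) x x - Gr (Hr U₂ E) (fun _ => η) x x‖ := ⟨_, rfl⟩
  obtain ⟨B5, hB5⟩ : ∃ B5 : Finset (Tor d (2 ^ μ)), B5 = (Dᶜ).filter fun x =>
      ε / 2 < ‖Gr (Hr U₂ E) (fun _ => η) x x - m₀‖ := ⟨_, rfl⟩
  rw [← hB1] at m1
  rw [← hB2] at m2
  rw [← hB3] at r3
  rw [← hB4] at m4
  rw [← hB5] at r5
  have hsub : ((Dᶜ).filter fun x => Bad U E η (1 / K) ε (2 ^ j) R x ∨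
      ε < ‖Gt U E η x x - m₀‖) ⊆ (B5 ∪ (B3 ∪ B4)) ∪ (B1 ∪ B2) := by
    intro x hx
    obtain ⟨hxc, hx'⟩ := Finset.mem_filter.1 hx
    by_cases hx4 : x ∈ B4
    · exact Finset.mem_union_left _ (Finset.mem_union_right _ (Finset.mem_union_right _ hx4))
    have h4 : ‖Gr (Hr U E) (fun _ => η) x x - Gr (Hr U₂ E) (fun _ => η) x x‖ ≤ τ := by
      by_contra hcon
      push Not at hcon
      apply hx4
      rw [hB4]
      exact Finset.mem_filter.2 ⟨hxc, hcon⟩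
    have h5 := (Complex.abs_im_le_norm _).trans h4
    rw [Complex.sub_im] at h5
    obtain ⟨h6, h7⟩ := abs_le.1 h5
    rcases hx' with (h | h | h | h) | h
    · refine Finset.mem_union_left _ (Finset.mem_union_right _ (Finset.mem_union_left _ ?_))
      rw [hB3]
      refine Finset.mem_filter.2 ⟨hxc, Or.inl ?_⟩
      have h8 : (Gr (Hr U E) (fun _ => η) x x).im < 1 / K := h
      linarith only [hτ1, hK2, h6, h8]
    · refine Finset.mem_union_left _ (Finset.mem_union_right _ (Finset.mem_union_left _ ?_))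
      rw [hB3]
      refine Finset.mem_filter.2 ⟨hxc, Or.inr ?_⟩
      rw [one_div_one_div] at h
      have h8 : K < (Gr (Hr U E) (fun _ => η) x x).im := h
      linarith only [hc1, hC₀, hδ0, hδ1, hτ1, hK, t1, t2, t3, t4, h7, h8]
    · refine Finset.mem_union_right _ (Finset.mem_union_left _ ?_)
      rw [hB1]
      exact Finset.mem_filter.2 ⟨hxc, h⟩
    · refine Finset.mem_union_right _ (Finset.mem_union_right _ ?_)
      rw [hB2]
      exact Finset.mem_filter.2 ⟨hxc, h⟩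
    · refine Finset.mem_union_left _ (Finset.mem_union_left _ ?_)
      rw [hB5]
      refine Finset.mem_filter.2 ⟨hxc, ?_⟩
      have h8 : ε < ‖Gr (Hr U E) (fun _ => η) x x - m₀‖ := h
      have h9 : ‖Gr (Hr U E) (fun _ => η) x x - m₀‖ ≤
          ‖Gr (Hr U E) (fun _ => η) x x - Gr (Hr U₂ E) (fun _ => η) x x‖ +
          ‖Gr (Hr U₂ E) (fun _ => η) x x - m₀‖ := by
        have := norm_add_le (Gr (Hr U E) (fun _ => η) x x - Gr (Hr U₂ E) (fun _ => η) x x)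
          (Gr (Hr U₂ E) (fun _ => η) x x - m₀)
        rwa [sub_add_sub_cancel] at this
      linarith only [hτ2, h4, h8, h9]
  have hc1' : (((Dᶜ).filter fun x => Bad U E η (1 / K) ε (2 ^ j) R x ∨
      ε < ‖Gt U E η x x - m₀‖).card : ℝ) ≤
      (B5.card + (B3.card + B4.card)) + (B1.card + B2.card) := by
    have h1 := Finset.card_le_card hsub
    have h2 := Finset.card_union_le (B5 ∪ (B3 ∪ B4)) (B1 ∪ B2)
    have h3 := Finset.card_union_le B5 (B3 ∪ B4)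
    have h4 := Finset.card_union_le B1 B2
    have h5 := Finset.card_union_le B3 B4
    exact_mod_cast h1.trans (h2.trans (by omega))
  have e1 : S₂ / (c₀ / 16 / 2) = 32 / c₀ * S₂ := by
    field_simp
    ring
  have e2 : ((28 + 30 * ρ ^ 2) * S + 12 * a * N) / ε = (28 + 30 * ρ ^ 2) / ε * S + ε / 4 * N := by
    rw [ha]
    field_simp
    ring
  have e7 : ρ / 2 * (3 + 2 * ρ ^ 2) * S / τ = ρ / 2 * (3 + 2 * ρ ^ 2) / τ * S := by
    field_simp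
  have e8 : S₂ / (ε / 4) = 4 / ε * S₂ := by
    field_simp
  rw [e1] at r3
  rw [e2] at m1 m2
  rw [e7] at m4
  rw [e8] at r5
  have r3' : (B3.card : ℝ) ≤ 32 / c₀ * (2 + 2 * ρ ^ 2) * S := by
    refine r3.trans ?_
    rw [mul_assoc]
    exact mul_le_mul_of_nonneg_left hS₂S t1.le
  have r5' : (B5.card : ℝ) ≤ 4 / ε * (2 + 2 * ρ ^ 2) * S := by
    refine r5.trans ?_
    rw [mul_assoc]
    exact mul_le_mul_of_nonneg_left hS₂S (by positivity)
  have e3 : L₀ * S ≤ K * S := mul_le_mul_of_nonneg_right hK6 hS0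
  have e3' : L₀ * S = 32 / c₀ * (2 + 2 * ρ ^ 2) * S +
    ρ / 2 * (3 + 2 * ρ ^ 2) / τ * S + 2 * ((28 + 30 * ρ ^ 2) / ε * S) +
    4 / ε * (2 + 2 * ρ ^ 2) * S := by
    rw [hL₀]
    ring
  have e4 : 0 ≤ ε * N := mul_nonneg hε.le hN0'
  have e6 : ε / 4 * N = (ε * N) / 4 := by ring
  refine hc1'.trans ?_
  clear hsub hgen hsum1 hsum2 r1 r2 n1 n2 n3 hU hL hK4 hK5 hδ hK hL₀ s1 s2 s3
  linarith only [m1, m2, m4, r3', r5', e3, e3', e4]

open Classical in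
/-- EDQ -/
theorem edq (hT : Tri2Stmt) (hNg : Ngn2Stmt) (hUP : UpfStmt) (hLO : LofStmt) : EdqStmt := by
  intro d c₀ C₀ ε hd hc₀ hc1 hC₀ hε
  obtain ⟨K, δ, hK, hδ, h⟩ := edx hT hNg hUP hLO d c₀ C₀ ε hd hc₀ hc1 hC₀ hε
  refine ⟨K, δ, hK, hδ, ?_⟩
  intro μ j R T E e₀ f D₀ D₁ m₀ U he hf hef hm1 hm2 hs hmb hUr hUd hFm hD₀ hj hR q1 q2 q3 hDD
  have h1 := h μ j R T E e₀ f D₀ D₁ m₀ U he hf hef hm1 hm2 hs hmb hUr hUd hFm hD₀ hj hR q1 q2 q3
    hDD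
  obtain ⟨D, hD⟩ : ∃ D : Finset (Tor d (2 ^ μ)), D = Finset.univ.filter fun x => (T.s x : ℝ) = 0 :=
    ⟨_, rfl⟩
  rw [← hD] at h1 ⊢
  obtain ⟨B, hB⟩ : ∃ B : Finset (Tor d (2 ^ μ)), B = (Dᶜ).filter fun x =>
      Bad U E (f * m₀.im) (1 / K) ε (2 ^ j) R x ∨ ε < ‖Gt U E (f * m₀.im) x x - m₀‖ := ⟨_, rfl⟩
  rw [← hB] at h1
  have hsub : (Finset.univ.filter fun x => Bad U E (f * m₀.im) (1 / K) ε (2 ^ j) R x) ⊆
      D ∪ B := by
    intro x hx
    have hx' := (Finset.mem_filter.1 hx).2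
    by_cases hxD : x ∈ D
    · exact Finset.mem_union_left _ hxD
    · refine Finset.mem_union_right _ ?_
      rw [hB]
      exact Finset.mem_filter.2 ⟨Finset.mem_compl.2 hxD, Or.inl hx'⟩
  have h2 : ((Finset.univ.filter fun x => Bad U E (f * m₀.im) (1 / K) ε (2 ^ j) R x).card : ℝ) ≤
      (D.card : ℝ) + B.card := by
    exact_mod_cast (Finset.card_le_card hsub).trans (Finset.card_union_le _ _)
  linarith only [h1, h2]

end Pool.Agent.QDA.H72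
end
end -- Pool.Agent.Helper72_QDA.Edq

section -- Pool.Agent.Helper72_QDA.Edm

/-!
# QDA, EDM: the deterministic end with the local law
-/

set_option autoImplicit false

open scoped BigOperators ComplexConjugate NNReal

noncomputable section

namespace Pool.Agent.QDA.H72

open Pool.Agent.LTG (Tor Bd sT tT bon Box Fm qd mor LB UB)

open Classical in
/-- EDM -/
theorem edm (hT : Tri2Stmt) (hNg : Ngn2Stmt) (hUP : UpfStmt) (hLO : LofStmt) : EdmStmt := by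
  intro d c₀ C₀ ε hd hc₀ hc1 hC₀ hε
  obtain ⟨K, δ, hK, hδ, h⟩ := edx hT hNg hUP hLO d c₀ C₀ ε hd hc₀ hc1 hC₀ hε
  refine ⟨K, δ, hK, hδ, ?_⟩
  intro μ j R T E e₀ f D₀ D₁ m₀ U he hf hef hm1 hm2 hs hmb hUr hUd hFm hD₀ hj hR q1 q2 q3 hDD
  have h1 := h μ j R T E e₀ f D₀ D₁ m₀ U he hf hef hm1 hm2 hs hmb hUr hUd hFm hD₀ hj hR q1 q2 q3
    hDD
  obtain ⟨D, hD⟩ : ∃ D : Finset (Tor d (2 ^ μ)), D = Finset.univ.filter fun x => (T.s x : ℝ) = 0 :=
    ⟨_, rfl⟩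
  rw [← hD] at h1 ⊢
  obtain ⟨B, hB⟩ : ∃ B : Finset (Tor d (2 ^ μ)), B = (Dᶜ).filter fun x =>
      Bad U E (f * m₀.im) (1 / K) ε (2 ^ j) R x ∨ ε < ‖Gt U E (f * m₀.im) x x - m₀‖ := ⟨_, rfl⟩
  rw [← hB] at h1
  have hsub : (Finset.univ.filter fun x => BadM U E (f * m₀.im) m₀ ε (2 ^ j) R x) ⊆
      D ∪ B := by
    intro x hx
    have hx' : BadM U E (f * m₀.im) m₀ ε (2 ^ j) R x := (Finset.mem_filter.1 hx).2
    by_cases hxD : x ∈ D
    · exact Finset.mem_union_left _ hxD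
    · refine Finset.mem_union_right _ ?_
      rw [hB]
      refine Finset.mem_filter.2 ⟨Finset.mem_compl.2 hxD, ?_⟩
      rcases hx' with h | h | h
      · exact Or.inr h
      · exact Or.inl (Or.inr (Or.inr (Or.inl h)))
      · exact Or.inl (Or.inr (Or.inr (Or.inr h)))
  have h2 : ((Finset.univ.filter fun x => BadM U E (f * m₀.im) m₀ ε (2 ^ j) R x).card : ℝ) ≤
      (D.card : ℝ) + B.card := by
    exact_mod_cast (Finset.card_le_card hsub).trans (Finset.card_union_le _ _)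
  linarith

end Pool.Agent.QDA.H72
end
end -- Pool.Agent.Helper72_QDA.Edm

section -- Pool.Agent.Helper72_QDA.AllM

/-!
# QDA, EDM without hypotheses
-/

set_option autoImplicit false

noncomputable section

namespace Pool.Agent.QDA.H72

/-- EDM -/
theorem edmT : EdmStmt := edm Pool.Agent.QDA.H79.tri2' Pool.Agent.QDA.H79.ngn2
  Pool.Agent.QDA.H30.upf Pool.Agent.QDA.H76.lof

end Pool.Agent.QDA.H72
end
end -- Pool.Agent.Helper72_QDA.AllM
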