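import Pool.Agent.Helper12_MEB.B086
import Pool.Agent.Helper12_MEB.B151

/-!
# Merged copies (generated) of the modules

* `Pool.Agent.AFL.Defs`
* `Pool.Agent.Helper58_AHH.Base`
* `Pool.Agent.Helper58_AHH.Meas`
* `Pool.Agent.Helper67_AHH.FlOf`
* `Pool.Agent.Helper67_AHH.Bas`
* `Pool.Agent.Helper67_AHH.Form`
* `Pool.Agent.AFL.Stmts`
* `Pool.Agent.Helper10_AFL.PTL`
* `Pool.Agent.Helper20_AFL.NET`
* `Pool.Agent.Helper21_AFL.DRB`
* `Pool.Agent.Helper46_AFL.PTG`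
* `Pool.Agent.Helper48_AFL.Nbo`
* `Pool.Agent.Helper56_AFL.EUB`
* `Pool.Agent.Helper56_AFL.PTA`
* `Pool.Agent.Helper67_AFJ.L1`
* `Pool.Agent.Helper67_AFL.NBL`
* `Pool.Agent.Helper81_AFL.PTY`
* `Pool.Agent.Helper82_AFL.KUP`
* `Pool.Agent.Helper86_AFL.NUB`
-/

set_option autoImplicit false

section -- Pool.Agent.AFL.Defs

/-!
# The block lemma FLO of AND2B: data, hypotheses, conclusion

One block `b` of running sites runs for the time `T` (small against the absorption `κ`). Everything is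
local: `Q1` are the targets (the nodes within the range of `b`), `Q` is a larger box of nodes, `Rg` the
running sites, `R = Rg ∩ Q`. The conclusion (`Good`) holds with a probability close to one: the entries
change by at most `δ`, `Λ_x = ∑_{y ∈ R} |G_xy|⁴` grows by at most `ω L`, the virtual pair of block Y
changes by at most `δY`, and the form `E` follows the ladder up to `2 ε₁ E` for all functions
supported in `Q`.
-/

set_option autoImplicit false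

open MeasureTheory ProbabilityTheory

open scoped BigOperators Matrix

noncomputable section

namespace Pool.Agent.AFL

open Pool.Agent.LE.QF Pool.Agent.AFJ Pool.Agent.ABY

/-- the data of the block lemma -/
structure Fl (X : Type) [Fintype X] [DecidableEq X] extends Blk X where
  /-- the time -/
  T : ℝ
  /-- the nodes -/
  A : Finset X
  /-- the box -/
  Q : Finset X
  /-- the targets -/
  Q1 : Finset X
  /-- the running sites -/
  Rg : Finset X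
  /-- the running sites which are not yet processed (block Y) -/
  U : Finset X
  /-- the young nodes (all nodes of the box which are not behind a shell of frozen nodes) -/
  Yg : Finset X
  /-- clock minus final clock (block Y) -/
  P0 : X → ℝ
  /-- the weights of block Y -/
  w : X → ℝ
  /-- lower bound of the absorption at the running sites -/
  κv : ℝ
  /-- upper bound of `Im G_xx` -/
  r : ℝ
  /-- the mismatch is at most `N δ` at the start -/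
  N : ℝ
  /-- allowed change of the entries -/
  δ : ℝ
  /-- upper bound of `Λ_x` -/
  L : ℝ
  /-- allowed relative change of `Λ_x` -/
  ω : ℝ
  /-- white error of the lower bound of the form, running sites -/
  ε : ℝ
  /-- smooth part of the inverse of the form on the young nodes of `Q` -/
  s1 : ℝ
  /-- the same for the old nodes, and the flux from the block to the old nodes (tiny) -/
  s3 : ℝ
  old : ℝ
  /-- smooth part of the inverse of the form on the running sites of `Q` -/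
  s2 : ℝ
  /-- allowed relative error of the form -/
  ε₁ : ℝ
  /-- allowed change of the pair of block Y -/
  δY : ℝ
  /-- auxiliary numbers for `Λ` -/
  z : ℝ
  L0 : ℝ
  /-- exponents of the functional -/
  n : ℕ
  nL : ℕ

namespace Fl

variable {X : Type} [Fintype X] [DecidableEq X] (F : Fl X)

/-- the imaginary part of the gauge -/
def g (x : X) : ℝ := (F.mb x).im

/-- the running sites in the box -/
def R : Finset X := F.Rg ∩ F.Q

/-- the resolvent at the time `r.1`, potential `r.2` -/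
def Gt (r : ℝ × (F.b → ℝ)) : Matrix X X ℂ := F.toBlk.G r

/-- the absorption -/
def k (t : ℝ) (x : X) : ℝ := F.toBlk.kp t x

/-- the resolvent at the start -/
def G0 : Matrix X X ℂ := F.Gt (0, 0)

/-- the form at the time `r.1`, potential `r.2` -/
def Et (r : ℝ × (F.b → ℝ)) : Matrix X X ℝ := EE (F.Gt r) (F.k r.1) F.A

/-- the form at the start -/
def E0 : Matrix X X ℝ := EE F.G0 (F.k 0) F.A

/-- the resistances of the ladder at the time `t` -/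
def lam (t : ℝ) (x : X) : ℝ := if x ∈ F.b then 1 / F.g x * (1 / F.k t x - 1 / F.k 0 x) else 0

/-- the virtual clocks at the time `t` -/
def Pf (t : ℝ) (x : X) : ℝ := F.P0 x - ind F.b x * t

/-- the mismatch during the run -/
def μs : ℝ := (F.N + 1) * F.δ

/-- `qf K u ≤ aK ∑ u² + C₀² s2 (∑ |u|)²` during the run; `κ * aK` is small -/
def aK (C₀ : ℝ) : ℝ := ((F.N + 1) * F.δ + F.ε * C₀ + 4 * F.ε₁ * F.r) / F.κv

/-- additive part of the drift of `Λ / (ω L)` -/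
def sg (C₀ : ℝ) : ℝ := C₀ ^ 2 * F.s2 * (F.r / F.κv) ^ 2 / (F.ω * F.L)

/-- the noise of the form -/
def nu (c₀ : ℝ) : ℝ :=
  2 * (2 / c₀ * (8 * Real.sqrt (F.r * F.L / F.κv)) + 8 * F.r * F.s1 / F.κv +
    8 * F.old * F.s3 / F.κv)

/-- the noise and the drift of the pair of block Y -/
def yn (C : ℝ) : ℝ := C * Real.sqrt (F.L / F.κv)

def yd (C : ℝ) : ℝ := C * (F.μs / F.κv + Real.sqrt (Real.sqrt (F.L / F.κv)) / Real.sqrt F.κv)

/-- the rates of the four parts of the functional -/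
def aG : ℝ := 4 * F.n * (F.μs * F.r / F.κv) / F.δ + 8 * F.n ^ 2 * F.L / F.δ ^ 2

def aL (C₀ : ℝ) : ℝ :=
  6 * F.nL ^ 2 * (1 / F.κv) * (1 / Real.sqrt F.L0 + F.κv * (16 * F.aK C₀ + 2 * F.z))

def aY (C : ℝ) : ℝ := 4 * F.n * F.yd C / F.δY + 8 * F.n ^ 2 * F.yn C / F.δY ^ 2

def aS (c₀ : ℝ) : ℝ :=
  4 * F.n * (2 * ((2 * ((F.N + 2) * F.δ) + 4 * F.μs) / F.κv)) / F.ε₁ +
    8 * F.n ^ 2 * F.nu c₀ / F.ε₁ ^ 2 + 8 * F.n * (4 * F.r / F.κv)

/-- the total rate -/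
def rt (c₀ C₀ C : ℝ) : ℝ := F.aG + F.aL C₀ + 2 * F.aY C + F.aS c₀

/-- the number of the terms of the functional -/
def cd : ℝ := (F.Q1.card : ℝ) ^ 2 + 3 * F.Q1.card + F.Q.card

/-- the bound for the probability -/
def pr (c₀ C₀ C : ℝ) : ℝ :=
  3 * Real.exp (3 * (F.rt c₀ C₀ C * F.T)) *
    (F.Q1.card * (1 / (1 + F.ω)) ^ F.nL + F.rt c₀ C₀ C * F.T * (F.cd * (1 / 4) ^ F.n))

/-- the hypotheses -/
structure Ok (c₀ C₀ : ℝ) : Prop where
  sym : ∀ x y, F.H x y = F.H y x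
  hT : 0 < F.T
  pos : ∀ t x, 0 ≤ t → t ≤ F.T → 0 < F.k t x
  hb : F.b ⊆ F.U ∧ F.U ⊆ F.Rg ∧ F.Rg ⊆ F.A
  hQ : F.b ⊆ F.Q1 ∧ F.Q1 ⊆ F.Q ∧ F.Q ⊆ F.A
  hv : ∀ x ∈ F.Rg, F.κv ≤ F.k F.T x
  hg : ∀ x ∈ F.A, c₀ ≤ F.g x ∧ F.g x ≤ C₀
  /-- the mismatch at the start -/
  hmu : ∀ x ∈ F.Rg, ‖F.G0 x x - F.mb x‖ ≤ F.N * F.δ
  him : ∀ x ∈ F.Q, (F.G0 x x).im + F.δ ≤ F.r
  hL : ∀ x ∈ F.Q1, LaR F.G0 F.R x ≤ F.L / 2
  /-- locality, for all potentials -/
  loc : ∀ r : ℝ × (F.b → ℝ), 0 ≤ r.1 → r.1 ≤ F.T →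
    (∀ x ∈ F.A, x ∉ F.Q1 → ∑ c ∈ F.b, KK (F.Gt r) x c ^ 2 ≤ F.L ∧
      ‖F.Gt r x x - F.G0 x x‖ ≤ F.δ) ∧
    ∀ x ∈ F.b, ∑ y ∈ F.Aᶜ, F.k r.1 y * KK (F.Gt r) x y ≤ F.δ
  /-- the flux to the old nodes, for all potentials -/
  hold : ∀ r : ℝ × (F.b → ℝ), 0 ≤ r.1 → r.1 ≤ F.T → ∀ c ∈ F.b,
    ∑ x ∈ F.A \ F.Yg, F.k r.1 x * KK (F.Gt r) x c ≤ F.old
  /-- the lower bound of the form at the start, dual form: all nodes of the box -/
  hS1 : ∀ f φ : X → ℝ, (∀ x, x ∉ F.Q → f x = 0) → (∀ x, x ∉ F.Q → φ x = 0) →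
    2 * ∑ x, f x * φ x - 2 * ∑ x ∈ F.Q, φ x ^ 2 / (F.k 0 x * F.g x) -
      F.s1 * (∑ x ∈ F.Q ∩ F.Yg, |φ x|) ^ 2 - F.s3 * (∑ x ∈ F.Q \ F.Yg, |φ x|) ^ 2 ≤ qf F.E0 f
  /-- the same, running sites of the box -/
  hS2 : ∀ f φ : X → ℝ, (∀ x, x ∉ F.Q → f x = 0) → (∀ x, x ∉ F.R → φ x = 0) →
    2 * ∑ x, f x * φ x - (1 + F.ε) * ∑ x ∈ F.R, φ x ^ 2 / (F.k 0 x * F.g x) -
      F.s2 * (∑ x, |φ x|) ^ 2 ≤ qf F.E0 f
  /-- block Y -/
  hP : (∀ x, 0 ≤ F.P0 x) ∧ (∀ x, x ∉ F.U → F.P0 x = 0) ∧ (∀ x ∈ F.b, F.T ≤ F.P0 x) ∧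
    ∀ x ∈ F.U, 2 * (F.P0 x * F.g x) ≤ F.k F.T x
  hw : (∀ x, 0 ≤ F.w x ∧ F.w x ≤ F.k F.T x) ∧ ∀ x, x ∉ F.Rg → F.w x = 0
  /-- numbers -/
  num : 0 < F.κv ∧ F.κv ≤ 1 ∧ 1 ≤ F.r ∧ 0 < c₀ ∧ c₀ ≤ 1 ∧ 1 ≤ C₀ ∧ 0 ≤ F.N ∧ 0 < F.δ ∧ 0 < F.L ∧
    0 < F.ω ∧ F.ω ≤ 1 / 2 ∧ 0 ≤ F.ε ∧ F.ε ≤ 1 ∧ 0 ≤ F.s1 ∧ 0 ≤ F.s2 ∧ 0 < F.ε₁ ∧ F.ε₁ ≤ 1 ∧
    0 < F.δY ∧ 1 ≤ F.n ∧ F.n ≤ F.nL
  hs3 : 0 ≤ F.s3 ∧ 0 ≤ F.old
  hTv : F.T * C₀ ≤ F.κv ∧ 2 * F.r * F.T ≤ F.κv
  hδ : (F.N + 2) * F.δ ≤ c₀ / 2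
  hz : 0 ≤ F.z ∧ 16 * F.μs ^ 4 * F.r ^ 3 ≤ F.z ^ 4 * (F.ω * F.L) * F.κv ^ 5
  hL0 : 1 ≤ F.L0 ∧ F.κv * (16 * F.sg C₀ + 2 * F.z) * F.L0 ≤ 1

/-- the conclusion -/
structure Good (V : F.b → ℝ) : Prop where
  ent : ∀ x ∈ F.Q1, ∀ y ∈ F.Q1, ‖F.Gt (F.T, V) x y - F.G0 x y‖ ≤ F.δ
  lam : ∀ x ∈ F.Q1, LaR (F.Gt (F.T, V)) F.R x ≤ LaR F.G0 F.R x + F.ω * F.L
  yb : ∀ x ∈ F.Q1, x ∈ F.Rg → ‖vir (BB (F.Gt (F.T, V))) (F.Pf F.T) F.w x -
    vir (BB F.G0) F.P0 F.w x‖ ≤ F.δY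
  yk : ∀ x ∈ F.Q1, x ∈ F.Rg → |vir (KK (F.Gt (F.T, V))) (F.Pf F.T) F.w x -
    vir (KK F.G0) F.P0 F.w x| ≤ F.δY
  frm : ∀ E1 : Matrix X X ℝ, LTG.Lad F.E0 E1 (F.lam F.T) → ∀ f : X → ℝ,
    (∀ x, x ∉ F.Q → f x = 0) → |qf (F.Et (F.T, V)) f - qf E1 f| ≤ 2 * F.ε₁ * qf E1 f

/-- a point of the run where the thresholds hold (consequences of the functional being less than one) -/
structure Pt (q : ℝ × (F.b → ℝ)) : Prop where
  ht : 0 ≤ q.1 ∧ q.1 ≤ F.T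
  ent : ∀ x ∈ F.Q1, ∀ y ∈ F.Q1, ‖F.Gt q x y - F.G0 x y‖ ≤ F.δ
  lam : ∀ x ∈ F.Q1, LaR (F.Gt q) F.R x ≤ LaR F.G0 F.R x + F.ω * F.L
  fru : ∀ f : X → ℝ, (∀ x, x ∉ F.Q → f x = 0) → |qf (F.Et q) f| ≤ 2 * qf F.E0 f
  /-- the lower bound of the form, with the clocks at the time `q.1` -/
  frl : ∀ f φ : X → ℝ, (∀ x, x ∉ F.Q → f x = 0) → (∀ x, x ∉ F.R → φ x = 0) →
    2 * ∑ x, f x * φ x - (1 + F.ε) * ∑ x ∈ F.R, φ x ^ 2 / (F.k q.1 x * F.g x) -
      F.s2 * (∑ x, |φ x|) ^ 2 - F.ε₁ * qf F.E0 f ≤ qf (F.Et q) f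

end Fl

/-- FLO: the block lemma -/
def FloStmt : Prop :=
  ∀ c₀ C₀ : ℝ, ∃ C : ℝ, 1 ≤ C ∧ ∀ (X : Type) [Fintype X] [DecidableEq X] (F : Fl X),
    F.Ok c₀ C₀ →
      (Measure.pi fun _ : F.b => gaussianReal 0 F.T.toNNReal) {V | ¬ F.Good V} ≤
        ENNReal.ofReal (F.pr c₀ C₀ C)

end Pool.Agent.AFL
end
end -- Pool.Agent.AFL.Defs

section -- Pool.Agent.Helper58_AHH.Base

/-!
# AND2B: from the protocol language to the block lemma (helper58)

`blkOf E e₀ T b` is the block update (`AFJ.Blk`) of the configuration `T` on the running sites `b`.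
Its resolvent and absorption at the end of the update are those of `T.hf th b ζ`.
-/

set_option autoImplicit false

open MeasureTheory ProbabilityTheory

open scoped BigOperators NNReal ENNReal Matrix

noncomputable section

namespace Pool.Agent.AHH.H58

open Pool.Agent.BED (Tor adj)
open Pool.Agent.LE.QF (qf Dl KK)
open Pool.Agent.ANP (Cfg gm Win)
open Pool.Agent.AND2B Pool.Agent.AFJ

/-! ### measures -/

section meas

variable {X : Type} [Fintype X] [DecidableEq X]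

/-- events which depend only on the coordinates in `b` -/
theorem gm_restr (v : X → ℝ≥0) (b : Finset X) (r : ℝ≥0) (hv : ∀ x ∈ b, v x = r)
    (S : Set (b → ℝ)) :
    gm (fun _ => 0) v {ζ | (fun c : b => ζ c) ∈ S} ≤
      (Measure.pi fun _ : b => gaussianReal 0 r) S := by
  classical
  have e1 : (Measure.pi fun _ : b => gaussianReal 0 r) =
      Measure.pi fun c : b => gaussianReal 0 (v c) := by
    congr 1
    funext c
    rw [hv c c.2]
  rw [e1]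
  have hp := measurePreserving_piEquivPiSubtypeProd (fun x : X => gaussianReal 0 (v x))
    (fun x => x ∈ b)
  have hi : (Subtype.fintype fun x : X => x ∈ b) = Finset.Subtype.fintype b :=
    Subsingleton.elim _ _
  rw [hi] at hp
  have hf := (measurePreserving_fst (μ := Measure.pi fun c : b => gaussianReal 0 (v c))
    (ν := Measure.pi fun c : {x // x ∉ b} => gaussianReal 0 (v c))).comp hp
  set S' := toMeasurable (Measure.pi fun c : b => gaussianReal 0 (v c)) S with hS'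
  have hm : MeasurableSet S' := measurableSet_toMeasurable _ _
  rw [← measure_toMeasurable S, ← hS']
  have e2 := hf.measure_preimage hm.nullMeasurableSet
  rw [← e2]
  unfold gm
  apply measure_mono
  intro ζ hζ
  exact subset_toMeasurable _ _ hζ

end meas

variable {d M : ℕ} [NeZero M]

/-! ### the resolvent -/

/-- the data of the update of `b` -/
def blkOf (E e₀ : ℝ) (T : Cfg (Tor d M)) (b : Finset (Tor d M)) : AFJ.Blk (Tor d M) where
  H := adj d M + Matrix.diagonal T.V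
  E := E
  η := e₀
  s := fun x => (T.s x : ℝ)
  mb := T.mb
  b := b

theorem blk_kp (E e₀ : ℝ) (T T' : Cfg (Tor d M)) (b : Finset (Tor d M)) (t : ℝ)
    (hm : T'.mb = T.mb) (h1 : ∀ x ∈ b, (T'.s x : ℝ) = T.s x - t) (h2 : ∀ x, x ∉ b → T'.s x = T.s x)
    (x : Tor d M) : (blkOf E e₀ T b).kp t x = kap e₀ T' x := by
  unfold AFJ.Blk.kp kap blkOf
  simp only
  rw [hm]
  by_cases hx : x ∈ b
  · rw [if_pos hx, h1 x hx]
  · rw [if_neg hx, h2 x hx, sub_zero]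

theorem blk_G (E e₀ : ℝ) (T T' : Cfg (Tor d M)) (b : Finset (Tor d M)) (t : ℝ)
    (ζ : Tor d M → ℝ) (hm : T'.mb = T.mb)
    (h1 : ∀ x ∈ b, (T'.s x : ℝ) = T.s x - t ∧ T'.V x = T.V x + ζ x)
    (h2 : ∀ x, x ∉ b → T'.s x = T.s x ∧ T'.V x = T.V x) :
    (blkOf E e₀ T b).G (t, fun c => ζ c) = net E e₀ T' := by
  unfold AFJ.Blk.G net res ANR.Gr
  congr 1
  ext x y
  by_cases hxy : x = y
  · subst hxy
    simp only [Matrix.add_apply, Matrix.map_apply, Matrix.diagonal_apply_eq, Matrix.sub_apply,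
      AFJ.Blk.pt, blkOf, Hr, Vef, kap]
    rw [hm]
    by_cases hx : x ∈ b
    · rw [dif_pos hx, (h1 x hx).1, (h1 x hx).2]
      apply Complex.ext
      · simp
        ring
      · simp
        ring
    · rw [dif_neg hx, (h2 x hx).1, (h2 x hx).2]
      apply Complex.ext
      · simp
        ring
      · simp
        ring
  · simp only [Matrix.add_apply, Matrix.map_apply, Matrix.sub_apply, blkOf, Hr,
      Matrix.diagonal_apply_ne _ hxy]
    simp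

omit [NeZero M] in
/-- the data at the end of the update -/
theorem hf_facts (T : Cfg (Tor d M)) (th : ℝ≥0) (b : Finset (Tor d M)) (ζ : Tor d M → ℝ) (t : ℝ)
    (ht : ∀ x ∈ b, t = (1 - (th : ℝ)) * T.s x) :
    (∀ x ∈ b, ((T.hf th b ζ).s x : ℝ) = T.s x - t ∧ (T.hf th b ζ).V x = T.V x + ζ x) ∧
      ∀ x, x ∉ b → (T.hf th b ζ).s x = T.s x ∧ (T.hf th b ζ).V x = T.V x := by
  constructor
  · intro x hx
    unfold Cfg.hf
    simp only
    rw [if_pos hx, if_pos hx, ht x hx]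
    refine ⟨?_, rfl⟩
    push_cast
    ring
  · intro x hx
    unfold Cfg.hf
    simp only
    rw [if_neg hx, if_neg hx]
    exact ⟨rfl, rfl⟩

/-! ### the form -/

section form

variable {X : Type} [Fintype X] [DecidableEq X]

theorem qf_dl (K : Matrix X X ℝ) (hK : ∀ x y, K x y = K y x) (f : X → ℝ) :
    qf (Dl K) f = 1 / 2 * ∑ x, ∑ y, K x y * (f x - f y) ^ 2 := by
  unfold qf Dl
  have e1 : ∑ a, f a * ((Matrix.diagonal (fun a => ∑ b, K a b) - K) *ᵥ f) a =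
      ∑ x, ∑ y, (K x y * f x ^ 2 - K x y * (f x * f y)) := by
    apply Finset.sum_congr rfl
    intro x _
    rw [Matrix.sub_mulVec, Pi.sub_apply, Matrix.mulVec_diagonal, Matrix.mulVec, dotProduct,
      Finset.sum_mul, ← Finset.sum_sub_distrib, Finset.mul_sum]
    apply Finset.sum_congr rfl
    intro y _
    ring
  have e2 : ∑ x, ∑ y, K x y * f y ^ 2 = ∑ x, ∑ y, K x y * f x ^ 2 := by
    rw [Finset.sum_comm]
    apply Finset.sum_congr rfl
    intro x _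
    apply Finset.sum_congr rfl
    intro y _
    rw [hK]
  have e3 : ∑ x, ∑ y, K x y * (f x - f y) ^ 2 =
      ∑ x, ∑ y, K x y * f x ^ 2 + ∑ x, ∑ y, K x y * f y ^ 2 -
        2 * ∑ x, ∑ y, K x y * (f x * f y) := by
    rw [Finset.mul_sum, ← Finset.sum_add_distrib, ← Finset.sum_sub_distrib]
    apply Finset.sum_congr rfl
    intro x _
    rw [Finset.mul_sum, ← Finset.sum_add_distrib, ← Finset.sum_sub_distrib]
    apply Finset.sum_congr rfl
    intro y _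
    ring
  rw [e1, e3, e2]
  simp only [Finset.sum_sub_distrib]
  ring

/-- the two Dirichlet forms agree -/
theorem cE_eq (G : Matrix X X ℂ) (hG : ∀ x y, G x y = G y x) (κ : X → ℝ) (A : Finset X)
    (f : X → ℝ) : ANR.cE G κ A f = qf (EE G κ A) f := by
  unfold EE
  rw [qf_dl _ (fun x y => ?_)]
  · unfold ANR.cE cd KK
    congr 1
    rw [← Finset.sum_subset (Finset.subset_univ A)]
    · apply Finset.sum_congr rfl
      intro x hx
      rw [← Finset.sum_subset (Finset.subset_univ A)]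
      · apply Finset.sum_congr rfl
        intro y hy
        rw [if_pos ⟨hx, hy⟩]
      · intro y _ hy
        rw [if_neg (fun h => hy h.2), zero_mul]
    · intro x _ hx
      apply Finset.sum_eq_zero
      intro y _
      rw [if_neg (fun h => hx h.1), zero_mul]
  · unfold cd KK
    by_cases h : x ∈ A ∧ y ∈ A
    · rw [if_pos h, if_pos h.symm, hG x y]
      ring
    · rw [if_neg h, if_neg (fun h' => h h'.symm)]

end form

end Pool.Agent.AHH.H58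
end
end -- Pool.Agent.Helper58_AHH.Base

section -- Pool.Agent.Helper58_AHH.Meas

/-!
# The block lemma in the measure of the protocol (helper58)
-/

set_option autoImplicit false

open MeasureTheory ProbabilityTheory

open scoped BigOperators NNReal ENNReal Matrix

noncomputable section

namespace Pool.Agent.AHH.H58

open Pool.Agent.BED (Tor adj)
open Pool.Agent.ANP (Cfg gm Win)
open Pool.Agent.AND2B Pool.Agent.AFJ Pool.Agent.AFL

variable {d M : ℕ} [NeZero M]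

/-- the block lemma for the noise of the protocol -/
theorem flo_gm {c₀ C₀ C : ℝ} {T : Cfg (Tor d M)} {th s : ℝ≥0} {b : Finset (Tor d M)}
    (F : Fl (Tor d M)) (hFb : F.b = b) (hth : th ≤ 1) (hs : ∀ x ∈ b, T.s x = s)
    (hT : F.T = (1 - (th : ℝ)) * s)
    (hflo : (Measure.pi fun _ : F.b => gaussianReal 0 F.T.toNNReal) {V | ¬ F.Good V} ≤
      ENNReal.ofReal (F.pr c₀ C₀ C)) :
    gm (fun _ => 0) (T.hv th b) {ζ | ¬ F.Good (fun c => ζ c)} ≤ ENNReal.ofReal (F.pr c₀ C₀ C) := by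
  refine le_trans ?_ hflo
  have h := gm_restr (T.hv th b) F.b F.T.toNNReal (fun x hx => ?_) {V | ¬ F.Good V}
  · exact h
  · rw [hFb] at hx
    unfold Cfg.hv
    rw [if_pos hx, hs x hx]
    apply NNReal.coe_injective
    rw [Real.coe_toNNReal _ (by
      rw [hT]
      have : (th : ℝ) ≤ 1 := by exact_mod_cast hth
      exact mul_nonneg (by linarith) s.2), hT]
    push_cast [NNReal.coe_sub hth]
    ring

/-- a bad event for the protocol which is contained in a bad event of the block lemma -/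
theorem flo_cover {c₀ C₀ C : ℝ} {T : Cfg (Tor d M)} {th s : ℝ≥0} {b : Finset (Tor d M)}
    (F : Fl (Tor d M)) (hFb : F.b = b) (hth : th ≤ 1) (hs : ∀ x ∈ b, T.s x = s)
    (hT : F.T = (1 - (th : ℝ)) * s)
    (hflo : (Measure.pi fun _ : F.b => gaussianReal 0 F.T.toNNReal) {V | ¬ F.Good V} ≤
      ENNReal.ofReal (F.pr c₀ C₀ C)) (p : ℝ) (hp : F.pr c₀ C₀ C ≤ p) (Q : (Tor d M → ℝ) → Prop)
    (hQ : ∀ ζ : Tor d M → ℝ, F.Good (fun c => ζ c) → Q ζ) :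
    gm (fun _ => 0) (T.hv th b) {ζ | ¬ Q ζ} ≤ ENNReal.ofReal p := by
  refine (measure_mono (t := {ζ | ¬ F.Good (fun c => ζ c)}) ?_).trans
    ((flo_gm F hFb hth hs hT hflo).trans (ENNReal.ofReal_le_ofReal hp))
  intro ζ hζ hG
  exact hζ (hQ ζ hG)

/-- the resolvent of the data at the start and at the end of the update -/
theorem fl_G0 (F : Fl (Tor d M)) (E e₀ : ℝ) (T : Cfg (Tor d M)) (b : Finset (Tor d M))
    (hF : F.toBlk = blkOf E e₀ T b) : F.G0 = net E e₀ T ∧ ∀ x, F.k 0 x = kap e₀ T x := by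
  constructor
  · unfold Fl.G0 Fl.Gt
    have h := blk_G E e₀ T T b 0 (fun _ => 0) rfl (fun x _ => ⟨by rw [sub_zero], by rw [add_zero]⟩)
      (fun x _ => ⟨rfl, rfl⟩)
    rw [← h]
    have : ∀ D : AFJ.Blk (Tor d M), D = blkOf E e₀ T b →
        D.G (0, 0) = (blkOf E e₀ T b).G (0, fun c => (fun _ => (0 : ℝ)) (c : Tor d M)) := by
      intro D hD
      subst hD
      rfl
    exact this _ hF
  · intro x
    unfold Fl.k
    rw [hF]
    exact blk_kp E e₀ T T b 0 rfl (fun x _ => by rw [sub_zero]) (fun x _ => rfl) x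

theorem fl_Gt (F : Fl (Tor d M)) (E e₀ : ℝ) (T : Cfg (Tor d M)) (th s : ℝ≥0)
    (b : Finset (Tor d M)) (hF : F.toBlk = blkOf E e₀ T b) (hs : ∀ x ∈ b, T.s x = s)
    (hT : F.T = (1 - (th : ℝ)) * s) (ζ : Tor d M → ℝ) :
    F.Gt (F.T, fun c => ζ c) = net E e₀ (T.hf th b ζ) ∧
      ∀ x, F.k F.T x = kap e₀ (T.hf th b ζ) x := by
  obtain ⟨h1, h2⟩ := hf_facts T th b ζ F.T (fun x hx => by rw [hT, hs x hx])
  constructor
  · rw [← blk_G E e₀ T (T.hf th b ζ) b F.T ζ rfl h1 h2]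
    have : ∀ (D : AFJ.Blk (Tor d M)) (t : ℝ), D = blkOf E e₀ T b →
        D.G (t, fun c => ζ c) = (blkOf E e₀ T b).G (t, fun c => ζ c) := by
      intro D t hD
      subst hD
      rfl
    exact this _ _ hF
  · intro x
    unfold Fl.k
    rw [hF]
    exact blk_kp E e₀ T (T.hf th b ζ) b F.T rfl (fun x hx => (h1 x hx).1)
      (fun x hx => (h2 x hx).1) x

end Pool.Agent.AHH.H58
end
end -- Pool.Agent.Helper58_AHH.Meas

section -- Pool.Agent.Helper67_AHH.FlOf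

/-!
# AND2B: the data of the block lemma for one block of a good configuration (helper67)

`flOf V T b Q Q1 run U Yg k p`: the block lemma `AFL.Fl` for the update of the running sites `b` of the
configuration `T`, `p` the numbers. `cfg T b t ζ` is the configuration at the time `t` of the run.
-/

set_option autoImplicit false

open MeasureTheory ProbabilityTheory

open scoped BigOperators NNReal ENNReal Matrix

noncomputable section

namespace Pool.Agent.AHH.H67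

open Pool.Agent.BED (Tor adj)
open Pool.Agent.LE.QF (BB KK)
open Pool.Agent.AND2B
open Pool.Agent.ANP (Cfg Geo Fc)
open Pool.Agent.AFJ (ind LaR EE)
open Pool.Agent.AFL (Fl)

/-- the numbers of the block lemma -/
structure Par where
  /-- lower bound of the absorption -/
  κv : ℝ
  /-- upper bound of `Im G_xx` -/
  r : ℝ
  /-- mismatch, in units of `δ` -/
  N : ℝ
  /-- entries -/
  δ : ℝ
  /-- upper bound of `Λ` -/
  L : ℝ
  /-- relative change of `Λ` -/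
  ω : ℝ
  /-- white error -/
  ε : ℝ
  /-- smooth part, young nodes -/
  s1 : ℝ
  /-- smooth part, old nodes -/
  s3 : ℝ
  /-- flux to the old nodes -/
  old : ℝ
  /-- smooth part, running sites -/
  s2 : ℝ
  /-- error of the form -/
  ε₁ : ℝ
  /-- change of the pair of block Y -/
  δY : ℝ
  /-- auxiliary -/
  z : ℝ
  /-- auxiliary -/
  L0 : ℝ
  /-- exponent -/
  n : ℕ
  /-- exponent -/
  nL : ℕ

variable {d M : ℕ} [NeZero M]

/-- the data of the block lemma -/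
def flOf (V : Env d M) (T : Cfg (Tor d M)) (b Q Q1 run U Yg : Finset (Tor d M)) (k : ℕ)
    (p : Par) : Fl (Tor d M) where
  toBlk := H58.blkOf V.E V.e₀ T b
  T := (1 - (V.th : ℝ)) * V.cl k
  A := Al T
  Q := Q
  Q1 := Q1
  Rg := run
  U := U
  Yg := Yg
  P0 := pv T run (V.cl (k + 1))
  w := pw T run (V.cl (k + 1))
  κv := p.κv
  r := p.r
  N := p.N
  δ := p.δ
  L := p.L
  ω := p.ω
  ε := p.ε
  s1 := p.s1
  s3 := p.s3
  old := p.old
  s2 := p.s2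
  ε₁ := p.ε₁
  δY := p.δY
  z := p.z
  L0 := p.L0
  n := p.n
  nL := p.nL

/-- the configuration at the time `t` of the run of `b` -/
def cfg (T : Cfg (Tor d M)) (b : Finset (Tor d M)) (t : ℝ) (ζ : Tor d M → ℝ) : Cfg (Tor d M) :=
  ⟨fun x => if x ∈ b then T.V x + ζ x else T.V x,
    fun x => if x ∈ b then T.s x - t.toNNReal else T.s x, T.mb⟩

omit [NeZero M] in
theorem cfg_s {T : Cfg (Tor d M)} {b : Finset (Tor d M)} {t : ℝ} {ζ : Tor d M → ℝ} (h0 : 0 ≤ t)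
    (hs : ∀ x ∈ b, t ≤ T.s x) :
    (∀ x ∈ b, ((cfg T b t ζ).s x : ℝ) = T.s x - t ∧ (cfg T b t ζ).V x = T.V x + ζ x) ∧
      ∀ x, x ∉ b → (cfg T b t ζ).s x = T.s x ∧ (cfg T b t ζ).V x = T.V x := by
  constructor
  · intro x hx
    unfold cfg
    simp only
    rw [if_pos hx, if_pos hx]
    refine ⟨?_, rfl⟩
    rw [NNReal.coe_sub (by
      rw [← NNReal.coe_le_coe, Real.coe_toNNReal _ h0]
      exact hs x hx), Real.coe_toNNReal _ h0]
  · intro x hx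
    unfold cfg
    simp only
    rw [if_neg hx, if_neg hx]
    exact ⟨rfl, rfl⟩

/-- the potential of the block, extended by zero -/
def ext (b : Finset (Tor d M)) (v : b → ℝ) (x : Tor d M) : ℝ := if h : x ∈ b then v ⟨x, h⟩ else 0

omit [NeZero M] in
theorem ext_restr (b : Finset (Tor d M)) (v : b → ℝ) :
    (fun c : b => ext b v (c : Tor d M)) = v := by
  funext c
  unfold ext
  rw [dif_pos c.2]

/-- every point of the run is a network of a configuration -/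
theorem at_cfg (V : Env d M) (T : Cfg (Tor d M)) (b : Finset (Tor d M)) (t : ℝ) (v : b → ℝ)
    (h0 : 0 ≤ t) (hs : ∀ x ∈ b, t ≤ T.s x) :
    (H58.blkOf V.E V.e₀ T b).G (t, v) = net V.E V.e₀ (cfg T b t (ext b v)) ∧
      ∀ x, (H58.blkOf V.E V.e₀ T b).kp t x = kap V.e₀ (cfg T b t (ext b v)) x := by
  obtain ⟨h1, h2⟩ := cfg_s (ζ := ext b v) h0 hs
  constructor
  · have h := H58.blk_G V.E V.e₀ T (cfg T b t (ext b v)) b t (ext b v) rfl h1 h2
    have h' : (fun c : (H58.blkOf V.E V.e₀ T b).b => ext b v (c : Tor d M)) = v := ext_restr b v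
    rw [h'] at h
    exact h
  · exact H58.blk_kp V.E V.e₀ T (cfg T b t (ext b v)) b t rfl (fun x hx => (h1 x hx).1)
      (fun x hx => (h2 x hx).1)

/-- the young nodes: the clock is at most the clock of the start of the previous super-stage -/
def Yo (V : Env d M) (n : ℕ) (T : Cfg (Tor d M)) : Finset (Tor d M) :=
  (Al T).filter fun x => T.s x ≤ V.cl (V.kk (n - 1))

/-- the targets: alive, `D(x, B) ≤ 2 L_n` -/
def Q1s (V : Env d M) (n : ℕ) (T : Cfg (Tor d M)) (B : Tor d M) : Finset (Tor d M) :=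
  (Al T).filter fun x => V.Γ.D x B ≤ 2 * V.Γ.L n

/-- the nodes of the box with the corner `a` and the side `L` -/
def Qs (T : Cfg (Tor d M)) (a : Tor d M) (L : ℕ) : Finset (Tor d M) :=
  (Al T).filter fun x => LTG.Box a L x

theorem mem_Al {T : Cfg (Tor d M)} {x : Tor d M} : x ∈ Al T ↔ 0 < T.s x := by
  unfold Al
  rw [Finset.mem_filter]
  exact ⟨fun h => h.2, fun h => ⟨Finset.mem_univ _, h⟩⟩

end Pool.Agent.AHH.H67
end
end -- Pool.Agent.Helper67_AHH.FlOf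

section -- Pool.Agent.Helper67_AHH.Bas

/-!
# AND2B: plain facts about a good configuration inside a stage (helper67)
-/

set_option autoImplicit false

open scoped BigOperators NNReal ENNReal Matrix

noncomputable section

namespace Pool.Agent.AHH.H67

open Pool.Agent.BED (Tor adj)
open Pool.Agent.LE.QF (BB KK)
open Pool.Agent.AND2B
open Pool.Agent.ANP (Cfg Geo Fc)
open Pool.Agent.AFJ (ind LaR EE)
open Pool.Agent.AFL (Fl)

variable {d M : ℕ} [NeZero M]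

omit [NeZero M] in
theorem Psi_nonneg (Γ : Geo (Tor d M)) [Fintype (Tor d M)] (n : ℕ) (P : Finset (Tor d M))
    (x : Tor d M) : 0 ≤ Psi Γ n P x := by
  unfold Psi om
  exact Finset.sum_nonneg fun _ _ => (Real.exp_pos _).le

/-- the numbers which do not depend on the block: the environment -/
structure EOk (V : Env d M) (k : ℕ) : Prop where
  th : 2 / 3 ≤ (V.th : ℝ) ∧ (V.th : ℝ) < 1
  c₀ : 0 < V.c₀ ∧ V.c₀ ≤ 1 ∧ 1 ≤ V.C₀
  cl : 0 < (V.cl k : ℝ) ∧ (V.cl (k + 1) : ℝ) = V.th * V.cl k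
  e₀ : 0 < V.e₀

section

variable {V : Env d M} {bd : Bud} {n k : ℕ} {T₀ T : Cfg (Tor d M)}
  {run₀ run P : Finset (Tor d M)}

omit [NeZero M] in
theorem EOk.cl' (h : EOk V k) : 0 < (V.cl (k + 1) : ℝ) ∧ (V.cl (k + 1) : ℝ) ≤ V.cl k := by
  rw [h.cl.2]
  have h1 := h.cl.1
  have h2 := h.th.1
  have h3 := h.th.2
  constructor
  · nlinarith only [h1, h2]
  · nlinarith only [h3]

theorem md_al (h : Md V bd n k T₀ run₀ P T run) (hE : EOk V k) : Al T = Al T₀ := by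
  ext x
  rw [mem_Al, mem_Al]
  have hth : 0 < V.th := by
    have h1 := hE.th.1
    have h2 : (0 : ℝ) < V.th := by linarith
    exact_mod_cast h2
  rcases h.clk x with h1 | ⟨_, _, h1⟩
  · rw [h1]
  · rw [h1]
    exact ⟨fun h2 => (pos_iff_pos_of_mul_pos h2).1 hth, fun h2 => mul_pos hth h2⟩

theorem md_gau (h : Md V bd n k T₀ run₀ P T run) (hE : EOk V k) :
    ∀ x ∈ Al T, V.c₀ ≤ gg T x ∧ gg T x ≤ V.C₀ ∧ ‖T.mb x‖ ≤ V.C₀ := by
  intro x hx
  rw [md_al h hE] at hx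
  obtain ⟨h1, h2, _⟩ := h.st0.gau x hx
  unfold gg at h1 ⊢
  rw [h.mb]
  exact ⟨h1, ((Complex.im_le_norm _).trans h2), h2⟩

/-- the clocks of the running and of the alive sites -/
theorem fc_run (hF : Fc V.Γ V.kk V.cl V.Dn n k P T run) (hE : EOk V k) :
    (∀ x ∈ run, (V.cl (k + 1) : ℝ) ≤ T.s x ∧ (T.s x : ℝ) ≤ V.cl k) ∧
    (∀ x ∈ run, x ∉ P → T.s x = V.cl k) ∧ (∀ x ∈ run, x ∈ P → T.s x = V.cl (k + 1)) ∧
    ∀ x ∈ Al T, (V.cl (k + 1) : ℝ) ≤ T.s x ∧ (x ∉ run → T.s x ≤ V.cl 0) := by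
  obtain ⟨h1, h2⟩ := hE.cl'
  have hr : ∀ x ∈ run, (V.cl (k + 1) : ℝ) ≤ T.s x ∧ (T.s x : ℝ) ≤ V.cl k := by
    intro x hx
    rw [hF.runs x hx]
    split_ifs
    · exact ⟨le_refl _, h2⟩
    · exact ⟨h2, le_refl _⟩
  refine ⟨hr, fun x hx hP => ?_, fun x hx hP => ?_, fun x hx => ?_⟩
  · rw [hF.runs x hx, if_neg hP]
  · rw [hF.runs x hx, if_pos hP]
  · by_cases hr' : x ∈ run
    · exact ⟨(hr x hr').1, fun h => absurd hr' h⟩
    · rw [mem_Al] at hx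
      rcases hF.rest x hr' with h3 | ⟨h3, h4⟩
      · exact absurd h3 hx.ne'
      · refine ⟨?_, fun _ => h4⟩
        have h5 : ((if x ∈ P then V.cl (k + 1) else V.cl k : ℝ≥0) : ℝ) ≤ T.s x := by
          exact_mod_cast h3
        refine le_trans ?_ h5
        split_ifs
        · exact le_refl _
        · exact h2

theorem fc_alv (hF : Fc V.Γ V.kk V.cl V.Dn n k P T run) (hE : EOk V k) : run ⊆ Al T := by
  intro x hx
  rw [mem_Al]
  have h1 := (fc_run hF hE).1 x hx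
  have h2 := hE.cl'.1
  have h3 : (0 : ℝ) < T.s x := by linarith
  exact_mod_cast h3

/-- absorption -/
theorem kap_pos (he : 0 < V.e₀) (hg : ∀ x ∈ Al T, 0 ≤ gg T x) (x : Tor d M) :
    V.e₀ ≤ kap V.e₀ T x ∧ 0 < kap V.e₀ T x := by
  have h1 : V.e₀ ≤ kap V.e₀ T x := by
    unfold kap
    by_cases hx : x ∈ Al T
    · have := mul_nonneg (T.s x).coe_nonneg (hg x hx)
      unfold gg at this
      linarith [this]
    · rw [mem_Al, not_lt] at hx
      have h2 : T.s x = 0 := le_antisymm hx zero_le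
      rw [h2]
      simp
  exact ⟨h1, lt_of_lt_of_le he h1⟩

/-- the node weights -/
theorem md_ww (h : Md V bd n k T₀ run₀ P T run) (hE : EOk V k)
    (hF : Fc V.Γ V.kk V.cl V.Dn n k P T run) :
    (∀ x ∈ Al T, V.c₀ ^ 2 * V.cl (k + 1) ≤ ww V.e₀ T x ∧
      ∀ c : ℝ, (T.s x : ℝ) ≤ c → ww V.e₀ T x ≤ (V.e₀ + c * V.C₀) * V.C₀) ∧
    (∀ x ∈ Al T, 0 < ww V.e₀ T x ∧ ww V.e₀ T x ≤ ww V.e₀ T₀ x) := by
  have hc := hE.c₀
  have hcl := hE.cl'
  constructor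
  · intro x hx
    obtain ⟨h1, h2, _⟩ := md_gau h hE x hx
    have h3 := ((fc_run hF hE).2.2.2 x hx).1
    have he := hE.e₀
    have hg : 0 ≤ gg T x := by linarith
    constructor
    · unfold ww kap
      have h4 : V.cl (k + 1) * V.c₀ ≤ (T.s x : ℝ) * gg T x :=
        mul_le_mul h3 h1 hc.1.le (T.s x).coe_nonneg
      have h5 : V.cl (k + 1) * V.c₀ ≤ V.e₀ + (T.s x : ℝ) * (T.mb x).im := by
        unfold gg at h4
        linarith
      calc V.c₀ ^ 2 * V.cl (k + 1) = (V.cl (k + 1) * V.c₀) * V.c₀ := by ring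
        _ ≤ (V.e₀ + (T.s x : ℝ) * (T.mb x).im) * gg T x :=
          mul_le_mul h5 h1 hc.1.le (by
            have : 0 ≤ (T.s x : ℝ) * gg T x := mul_nonneg (T.s x).coe_nonneg hg
            unfold gg at this
            linarith)
    · intro c hcs
      unfold ww kap
      have h4 : (T.s x : ℝ) * (T.mb x).im ≤ c * V.C₀ :=
        mul_le_mul hcs h2 hg ((T.s x).coe_nonneg.trans hcs)
      refine mul_le_mul (by linarith) h2 hg ?_
      have : 0 ≤ (T.s x : ℝ) * gg T x := mul_nonneg (T.s x).coe_nonneg hg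
      unfold gg at this
      linarith
  · intro x hx
    obtain ⟨h1, h2, _⟩ := md_gau h hE x hx
    have hg : 0 < gg T x := by linarith
    have hk := (kap_pos (T := T) hE.e₀ (fun y hy => by
      have := (md_gau h hE y hy).1
      linarith) x).2
    refine ⟨mul_pos hk hg, ?_⟩
    have hm : gg T x = gg T₀ x := by unfold gg; rw [h.mb]
    unfold ww
    rw [← hm]
    refine mul_le_mul_of_nonneg_right ?_ hg.le
    unfold kap
    rw [h.mb]
    have hg' : 0 ≤ (T₀.mb x).im := by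
      have := hg.le
      rw [hm] at this
      exact this
    have hs : (T.s x : ℝ) ≤ T₀.s x := by
      rcases h.clk x with h3 | ⟨_, _, h3⟩
      · rw [h3]
      · rw [h3]
        push_cast
        have := hE.th.2
        have h4 := (T₀.s x).coe_nonneg
        have h5 : (0 : ℝ) ≤ T₀.s x := h4
        nlinarith only [this]
    nlinarith only [mul_le_mul_of_nonneg_right hs hg']

end

end Pool.Agent.AHH.H67
end
end -- Pool.Agent.Helper67_AHH.Bas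

section -- Pool.Agent.Helper67_AHH.Form

/-!
# AND2B: the dual lower bounds of the form for the block lemma (helper67)
-/

set_option autoImplicit false

open scoped BigOperators NNReal ENNReal Matrix

noncomputable section

namespace Pool.Agent.AHH.H67

open Pool.Agent.BED (Tor adj)
open Pool.Agent.LE.QF (BB KK qf)
open Pool.Agent.AND2B
open Pool.Agent.ANP (Cfg Geo Fc)
open Pool.Agent.AFJ (ind LaR EE)
open Pool.Agent.AFL (Fl)
open Pool.Agent.LTG (Fm Bd sT tT qd Box)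
open Pool.Agent.NAS (CS)
open Pool.Agent.MAJ (S0 S2)

variable {d M : ℕ} [NeZero M]

/-- the numbers of the form: `b0 = D₀ / 2`, `m = c₀² cl (k + 1) / 2`, `kB` the exponent of the big
cube, `J1`, `J2` the levels of the young and of the running nodes -/
structure FNum (V : Env d M) (bd : Bud) (n k kB J1 J2 : ℕ) (p : Par) : Prop where
  D₀ : 0 < V.D₀
  nn : 0 ≤ bd.nn n k
  eps : 0 ≤ (bd.q n k).eps
  r2 : (bd.q n k).rho + bd.nn n k * V.Cp ≤ 1 / 2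
  e2 : (bd.q n k).eps + bd.nn n k * V.Cp ≤ 1 / 2
  run : (bd.q n k).eps + bd.nn n k * V.Cp +
    2 * CS d * 4 ^ J2 / (V.D₀ / 2) * ((V.e₀ + V.cl k * V.C₀) * V.C₀) ≤ p.ε
  yng : 4 * CS d * 4 ^ J1 / (V.D₀ / 2) *
    ((V.e₀ + max (V.cl k : ℝ) (V.cl (V.kk (n - 1))) * V.C₀) * V.C₀) ≤ 1 / 2
  old : 4 * CS d * 4 ^ 0 / (V.D₀ / 2) *
    ((V.e₀ + max (V.cl k : ℝ) (V.cl 0) * V.C₀) * V.C₀) ≤ 1 / 2
  s1 : S2 d kB J1 (V.D₀ / 2) (V.c₀ ^ 2 * V.cl (k + 1) / 2) ≤ p.s1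
  s3 : S2 d kB 0 (V.D₀ / 2) (V.c₀ ^ 2 * V.cl (k + 1) / 2) ≤ p.s3
  s2 : S0 d kB J2 (V.D₀ / 2) (V.c₀ ^ 2 * V.cl (k + 1) / 2) ≤ p.s2

section

variable {V : Env d M} {bd : Bud} {n k kB J1 J2 : ℕ} {p : Par} {T₀ T : Cfg (Tor d M)}
  {run₀ run P : Finset (Tor d M)}

/-- the form bounds with numbers -/
theorem md_frm (h : Md V bd n k T₀ run₀ P T run) (hE : EOk V k)
    (hF : Fc V.Γ V.kk V.cl V.Dn n k P T run) (hN : FNum V bd n k kB J1 J2 p)
    (hPsi : ∀ x, Psi V.Γ n P x ≤ V.Cp) :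
    ∃ (εl εu : Tor d M → ℝ) (bl bu : Bd d M → ℝ),
      Fm sT tT (Al T) (ww V.e₀ T) εl εu bl bu (qd (Ef V.E V.e₀ T)) ∧
      (∀ x ∈ Al T, 0 ≤ εl x ∧ εl x ≤ 1 / 2) ∧
      (∀ x ∈ run, εl x ≤ (bd.q n k).eps + bd.nn n k * V.Cp) ∧
      ∀ e, V.D₀ / 2 ≤ bl e := by
  obtain ⟨εl, εu, bl, bu, h1, h2, h3⟩ := h.frm
  have hPn : ∀ x, bd.nn n k * Psi V.Γ n P x ≤ bd.nn n k * V.Cp := fun x =>
    mul_le_mul_of_nonneg_left (hPsi x) hN.nn
  have hw := (md_ww h hE hF).2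
  have hrun : ∀ x ∈ run, εl x ≤ (bd.q n k).eps + bd.nn n k * V.Cp := by
    intro x hx
    have hxA : x ∈ Al T := fc_alv hF hE hx
    have h4 := (h2 x hxA).2.1
    dsimp only at h4
    rw [if_pos hx] at h4
    obtain ⟨hw1, hw2⟩ := hw x hxA
    have h5 : ww V.e₀ T x / ww V.e₀ T₀ x ≤ 1 := by
      rw [div_le_one (by linarith only [hw1, hw2])]
      exact hw2
    have h6 : (bd.q n k).eps * (ww V.e₀ T x / ww V.e₀ T₀ x) ≤ (bd.q n k).eps * 1 :=
      mul_le_mul_of_nonneg_left h5 hN.eps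
    linarith only [hPn x, h4, h6]
  refine ⟨εl, εu, bl, bu, h1, fun x hx => ⟨(h2 x hx).1, ?_⟩, hrun, fun e => ?_⟩
  · by_cases hr : x ∈ run
    · exact (hrun x hr).trans hN.e2
    · have h4 := (h2 x hx).2.1
      dsimp only at h4
      rw [if_neg hr] at h4
      linarith only [hPn x, hN.r2, h4]
  · have h4 := (h3 e).1
    have h5 := hPn (sT e)
    have h6 := hN.r2
    have h7 := hN.D₀
    nlinarith

/-- the two dual lower bounds -/
theorem md_hS (hd : 3 ≤ d) (h : Md V bd n k T₀ run₀ P T run) (hE : EOk V k)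
    (hF : Fc V.Γ V.kk V.cl V.Dn n k P T run) (hN : FNum V bd n k kB J1 J2 p)
    (hPsi : ∀ x, Psi V.Γ n P x ≤ V.Cp) (a : Tor d M) (hkB : 2 ^ kB ≤ M)
    (Q : Finset (Tor d M)) (hQ : ∀ x ∈ Q, x ∈ Al T ∧ Box a (2 ^ kB) x)
    (hZ : ((2 : ℝ) ^ kB) ^ d ≤
      4 * ((Finset.univ.filter fun x => Box a (2 ^ kB) x ∧ x ∈ Al T ∧ x ∉ Q).card : ℝ)) :
    (∀ f φ : Tor d M → ℝ, (∀ x, x ∉ Q → f x = 0) → (∀ x, x ∉ Q → φ x = 0) →
      2 * ∑ x, f x * φ x - 2 * ∑ x ∈ Q, φ x ^ 2 / ww V.e₀ T x -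
        p.s1 * (∑ x ∈ Q ∩ Yo V n T, |φ x|) ^ 2 - p.s3 * (∑ x ∈ Q \ Yo V n T, |φ x|) ^ 2 ≤
          qd (Ef V.E V.e₀ T) f) ∧
    ∀ f φ : Tor d M → ℝ, (∀ x, x ∉ Q → f x = 0) → (∀ x, x ∉ run ∩ Q → φ x = 0) →
      2 * ∑ x, f x * φ x - (1 + p.ε) * ∑ x ∈ run ∩ Q, φ x ^ 2 / ww V.e₀ T x -
        p.s2 * (∑ x, |φ x|) ^ 2 ≤ qd (Ef V.E V.e₀ T) f := by
  obtain ⟨εl, εu, bl, bu, hFm, hel, helr, hbl⟩ := md_frm h hE hF hN hPsi
  have hw := md_ww h hE hF
  have hwp : ∀ x ∈ Al T, 0 < ww V.e₀ T x := fun x hx => (hw.2 x hx).1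
  have hD := hN.D₀
  have hCS : 0 < CS d := MAJ.CS_pos hd
  have hcl := hE.cl'.1
  have hc₀ := hE.c₀.1
  have hm : 0 < V.c₀ ^ 2 * V.cl (k + 1) / 2 := by positivity
  have hZ' : ∀ x ∈ (Finset.univ.filter fun x => Box a (2 ^ kB) x ∧ x ∈ Al T ∧ x ∉ Q),
      Box a (2 ^ kB) x ∧ x ∉ Q ∧ x ∈ Al T ∧
        V.c₀ ^ 2 * V.cl (k + 1) / 2 * (1 + εl x) ≤ ww V.e₀ T x := by
    intro x hx
    rw [Finset.mem_filter] at hx
    obtain ⟨-, h1, h2, h3⟩ := hx
    refine ⟨h1, h3, h2, ?_⟩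
    have h4 := (hw.1 x h2).1
    have h5 := (hel x h2).2
    have h6 : 0 < V.c₀ ^ 2 * V.cl (k + 1) := by positivity
    nlinarith only [hm, h4, h5]
  have hfc := fc_run hF hE
  constructor
  · intro f φ hf hφ
    have h1 := MAJ.hsf1 hd a kB J1 0 hkB hFm hwp (fun x hx => (hel x hx).1)
      (fun e => by linarith only [hbl e, hD]) (b0 := V.D₀ / 2) (m := V.c₀ ^ 2 * V.cl (k + 1) / 2)
      (by linarith only [hD]) hm (fun e _ _ => hbl e) (Q := Q) (O := Q \ Yo V n T)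
      (fun x hx => (hQ x hx).1) (fun x hx => (hQ x hx).2) hZ' hZ
      (fun x hx hO => by
        have hxA := (hQ x hx).1
        have hY : x ∈ Yo V n T := by
          by_contra hc
          exact hO (Finset.mem_sdiff.2 ⟨hx, hc⟩)
        unfold Yo at hY
        have h2 : (T.s x : ℝ) ≤ V.cl (V.kk (n - 1)) := by
          exact_mod_cast (Finset.mem_filter.1 hY).2
        have h3 := (hw.1 x hxA).2 (max (V.cl k : ℝ) (V.cl (V.kk (n - 1))))
          (h2.trans (le_max_right _ _))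
        have h4 : 0 ≤ 4 * CS d * 4 ^ J1 / (V.D₀ / 2) := by positivity
        have h5 := mul_le_mul_of_nonneg_left h3 h4
        linarith only [(hel x hxA).2, hN.yng, h5])
      (fun x hx hO => by
        have hxA := (hQ x hx).1
        have h2 : (T.s x : ℝ) ≤ max (V.cl k : ℝ) (V.cl 0) := by
          by_cases hr : x ∈ run
          · exact (hfc.1 x hr).2.trans (le_max_left _ _)
          · refine le_trans ?_ (le_max_right _ _)
            exact_mod_cast (hfc.2.2.2 x hxA).2 hr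
        have h3 := (hw.1 x hxA).2 _ h2
        have h4 : 0 ≤ 4 * CS d * 4 ^ 0 / (V.D₀ / 2) := by positivity
        have h5 := mul_le_mul_of_nonneg_left h3 h4
        linarith only [(hel x hxA).2, hN.old, h5])
      hN.s1 hN.s3 f φ hf hφ
    have e1 : Q \ (Q \ Yo V n T) = Q ∩ Yo V n T := by
      ext x
      simp only [Finset.mem_sdiff, Finset.mem_inter]
      tauto
    have e2 : Q ∩ (Q \ Yo V n T) = Q \ Yo V n T := by
      ext x
      simp only [Finset.mem_sdiff, Finset.mem_inter]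
      tauto
    rw [e1, e2] at h1
    exact h1
  · intro f φ hf hφ
    exact MAJ.hsf2 hd a kB J2 hkB hFm hwp (fun x hx => (hel x hx).1)
      (fun e => by linarith only [hbl e, hD]) (b0 := V.D₀ / 2) (m := V.c₀ ^ 2 * V.cl (k + 1) / 2)
      (by linarith only [hD]) hm (fun e _ _ => hbl e) (Q := Q) (R := run ∩ Q)
      (fun x hx => (hQ x hx).1) (fun x hx => (hQ x hx).2) Finset.inter_subset_right hZ' hZ
      (fun x hx => by
        have hr := (Finset.mem_inter.1 hx).1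
        have hxA := (hQ x (Finset.mem_inter.1 hx).2).1
        have h3 := (hw.1 x hxA).2 _ (hfc.1 x hr).2
        have h4 : 0 ≤ 2 * CS d * 4 ^ J2 / (V.D₀ / 2) := by positivity
        have h5 := mul_le_mul_of_nonneg_left h3 h4
        linarith only [helr x hr, hN.run, h5])
      hN.s2 f φ hf hφ

end

end Pool.Agent.AHH.H67
end
end -- Pool.Agent.Helper67_AHH.Form

section -- Pool.Agent.AFL.Stmts

/-!
# The block lemma FLO of AND2B: rows

All rows are about one block update `F : Fl X` with `F.Ok c₀ C₀`. The final proof (rows SMT, FLO in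
`Helper48_AFL`) uses `UflStmt` with the functional `u_G + u_Λ + u_Y + u_K + u_S`.
-/

set_option autoImplicit false

open MeasureTheory ProbabilityTheory

open scoped BigOperators Matrix

noncomputable section

namespace Pool.Agent.AFL

open Pool.Agent.LE.QF Pool.Agent.AFJ Pool.Agent.ABY

/-- NET: the network at every point of the run. Proof: `BgjStmt` (`F.Gt = F.toBlk.G`, `F.k = F.toBlk.kp`). -/
def NetStmt : Prop :=
  JalStmt → JmaStmt → BgjStmt → ∀ (X : Type) [Fintype X] [DecidableEq X] (F : Fl X) (c₀ C₀ : ℝ)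
    (q : ℝ × (F.b → ℝ)), F.Ok c₀ C₀ → 0 ≤ q.1 → q.1 ≤ F.T →
      BJ q F.Gt F.k (F.Gt q) (F.k q.1) F.mb ∧ Net (F.Gt q) (F.k q.1)

/-- EUB: elementary facts about the form of a network. Proof: `(EE G κ A *ᵥ f) x = κ_x ∑_(y ∈ A) κ_y K_xy
(f_x - f_y)` for `x ∈ A`, zero off `A`; `qf (EE G κ A) f = (1/2) ∑_(x, y ∈ A) κ_x κ_y K_xy (f_x - f_y)²`.
(1) `(f_x - f_y)² ≤ 2 f_x² + 2 f_y²`. (2) Cauchy-Schwarz: `((E f) x)² ≤ κ_x ρ_x · κ_x D_x`,
`∑_(x ∈ A) κ_x D_x = 2 qf E f`. (3) expand the square. (4) `hw` with `z = x`. -/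
def EubStmt : Prop :=
  ∀ (X : Type) [Fintype X] [DecidableEq X] (G : Matrix X X ℂ) (κ : X → ℝ) (A b : Finset X)
    (f : X → ℝ), Net G κ → b ⊆ A →
    (EE G κ A)ᵀ = EE G κ A ∧ 0 ≤ qf (EE G κ A) f ∧
    qf (EE G κ A) f ≤ 2 * ∑ x ∈ A, κ x * rho G κ A x * f x ^ 2 ∧
    (∀ (k' : X → ℝ) (a : ℝ), 0 ≤ a → (∀ x ∈ b, 0 < k' x) →
      (∀ x ∈ b, κ x * rho G κ A x ≤ a * k' x ^ 2) →
        ∑ x ∈ b, ((EE G κ A *ᵥ f) x / k' x) ^ 2 ≤ 2 * a * qf (EE G κ A) f) ∧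
    ((∀ x, x ∉ A → f x = 0) → qf (KK G) (fun x => κ x * f x) =
      ∑ x ∈ A, κ x * rho G κ A x * f x ^ 2 - qf (EE G κ A) f) ∧
    ∀ x, rho G κ A x + ∑ y ∈ Aᶜ, κ y * KK G x y = (G x x).im

/-- PTA: numbers at a point. Proof: `kp` is affine in the time (`k t x = k T x + (T - t) g x` on `b`, constant
off `b`), `T C₀ ≤ κv`. The mismatch: `hmu` and `ent` on `Q1`, `loc` off `Q1` (`Rg ⊆ A`). `Im G_xx ≤ r` on `Q`:
`him`. `∑_(c ∈ b) K_xc² ≤ Λ_x` (`b ⊆ R`), `≤ L/2 + L/2`. `ρ_x = Im G_xx - flux`, `EubStmt` (last part). -/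
def PtaStmt : Prop :=
  EubStmt → ∀ (X : Type) [Fintype X] [DecidableEq X] (F : Fl X) (c₀ C₀ : ℝ) (q : ℝ × (F.b → ℝ)),
    F.Ok c₀ C₀ → F.Pt q → Net (F.Gt q) (F.k q.1) → Net F.G0 (F.k 0) →
    (∀ x ∈ F.Rg, F.κv ≤ F.k q.1 x) ∧ (∀ x ∈ F.A, F.k q.1 x ≤ F.k 0 x) ∧
    (∀ x ∈ F.A, F.k 0 x ≤ 2 * F.k q.1 x) ∧
    (∀ x, F.k F.T x ≤ F.k q.1 x) ∧ (∀ x, x ∉ F.b → F.k q.1 x = F.k 0 x) ∧
    (∀ x ∈ F.Rg, ‖F.Gt q x x - F.mb x‖ ≤ F.μs) ∧
    (∀ x, ‖mub (F.Gt q) F.mb F.b x‖ ≤ F.μs) ∧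
    (∀ x ∈ F.Q, (F.Gt q x x).im ≤ F.r ∧ (F.G0 x x).im ≤ F.r) ∧
    (∀ x ∈ F.Rg, (F.Gt q x x).im ≤ F.g x + F.μs ∧ (F.Gt q x x).im ≤ 3 / 2 * F.g x) ∧
    (∀ x ∈ F.Q1, LaR (F.Gt q) F.R x ≤ F.L) ∧
    (∀ x ∈ F.A, ∑ c ∈ F.b, KK (F.Gt q) x c ^ 2 ≤ F.L) ∧
    (∀ x ∈ F.b, |rho (F.Gt q) (F.k q.1) F.A x - F.g x| ≤ (F.N + 2) * F.δ ∧
      rho (F.Gt q) (F.k q.1) F.A x ≤ F.r) ∧
    ∀ x ∈ F.Q, rho (F.Gt q) (F.k q.1) F.A x ≤ F.r ∧ rho F.G0 (F.k 0) F.A x ≤ F.r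

/-- KUP: the bound of `K` on the running sites of the box. Proof: `f = u / κ`, supported in `R ⊆ Q ⊆ A`,
`κ = F.k q.1`; `EubStmt` (3) (for `G = F.Gt q`): `qf K u = ∑ κ ρ f² - qf (Et q) f`. `frl` with `φ = κ g f =
g u`: `qf (Et q) f ≥ (1 - ε) ∑ κ g f² - s2 (∑ |g u|)² - ε₁ qf E0 f`, and `qf E0 f ≤ 2 ∑ k0 ρ0 f² ≤
4 r ∑ κ f²`. On `R`: `ρ ≤ Im G_xx ≤ g + μs`. `∑ κ f² = ∑ u²/κ ≤ ∑ u² / κv`. -/
def KupStmt : Prop :=
  EubStmt → PtaStmt → ∀ (X : Type) [Fintype X] [DecidableEq X] (F : Fl X) (c₀ C₀ : ℝ)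
    (q : ℝ × (F.b → ℝ)), F.Ok c₀ C₀ → F.Pt q → Net (F.Gt q) (F.k q.1) → Net F.G0 (F.k 0) →
    ∀ u : X → ℝ, (∀ y, y ∉ F.R → u y = 0) →
      qf (KK (F.Gt q)) u ≤ F.aK C₀ * ∑ y, u y ^ 2 + C₀ ^ 2 * F.s2 * (∑ y, |u y|) ^ 2

/-- NBL: the smooth part of the noise, `ℓ¹` form. Proof: as `NbsStmt`: `(∑_x |(Ec f)_x|)² ≤
4 (∑_(x ∈ A) κ_x |G_xc| |β_xc|)² ≤ 4 ρ_c ∑_(x ∈ A) κ_x |β_xc|²` (`BetStmt`), sum over `c ∈ b`:
`∑_(c ∈ b) |β_xc|² ≤ D_x / κv`, `∑_(x ∈ A) κ_x D_x = 2 qf EE f`. -/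
def NblStmt : Prop :=
  BetStmt → ∀ (X : Type) [Fintype X] [DecidableEq X] (G : Matrix X X ℂ) (κ : X → ℝ)
    (A b : Finset X) (f : X → ℝ) (κv r : ℝ), Net G κ → 0 < κv → 0 ≤ r →
    (∀ c ∈ b, κv ≤ κ c) → (∀ c ∈ b, rho G κ A c ≤ r) →
      ∑ c ∈ b, (∑ x ∈ A, |(Ec G κ A c *ᵥ f) x|) ^ 2 ≤ 8 * r / κv * qf (EE G κ A) f

/-- NBO: the same on a part `S` of the nodes with a small flux from `b`. Proof: as NBL, with
`∑_(x ∈ S) κ_x K_xc ≤ o` instead of `ρ_c ≤ r` (`β` is still summed over all of `A`). -/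
def NboStmt : Prop :=
  BetStmt → ∀ (X : Type) [Fintype X] [DecidableEq X] (G : Matrix X X ℂ) (κ : X → ℝ)
    (A b S : Finset X) (f : X → ℝ) (κv o : ℝ), Net G κ → 0 < κv → 0 ≤ o → S ⊆ A →
    (∀ c ∈ b, κv ≤ κ c) → (∀ c ∈ b, ∑ x ∈ S, κ x * KK G x c ≤ o) →
      ∑ c ∈ b, (∑ x ∈ S, |(Ec G κ A c *ᵥ f) x|) ^ 2 ≤ 8 * o / κv * qf (EE G κ A) f

/-- LTL: the triple sum, `ℓ¹` form. Proof: as `LatStmt`: `u = K_x. 1_R`, `∑ |u| ≤ r / κR`. -/
def LtlStmt : Prop :=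
  ∀ (X : Type) [Fintype X] [DecidableEq X] (G : Matrix X X ℂ) (κ : X → ℝ)
    (b R : Finset X) (x : X) (κR a r S0 : ℝ), Net G κ → b ⊆ R → 0 < κR →
    (∀ c ∈ R, κR ≤ κ c) → (∑ c ∈ R, κ c * KK G x c) ≤ r → 0 ≤ S0 →
    (∀ u : X → ℝ, (∀ y, y ∉ R → u y = 0) →
      qf (KK G) u ≤ a * ∑ y, u y ^ 2 + S0 * (∑ y, |u y|) ^ 2) →
      ∑ y ∈ R, ∑ c ∈ b, KK G x y * KK G x c * KK G c y ≤ a * LaR G R x + S0 * (r / κR) ^ 2

/-- PTG: the entries. Proof: `BkjStmt` (3): `(- (G x c * G c y))_c`, `GD G μ x y`; `EnbStmt` with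
`T = F.Q`, `R = F.b` (or `F.R`), `κR = κv`, `μ = mub G mb b`; `LaR G b x ≤ LaR G R x ≤ L`. -/
def PtgStmt : Prop :=
  JalStmt → BkjStmt → EnbStmt → EubStmt → PtaStmt → ∀ (X : Type) [Fintype X] [DecidableEq X]
    (F : Fl X) (c₀ C₀ : ℝ) (q : ℝ × (F.b → ℝ)), F.Ok c₀ C₀ → F.Pt q →
    BJ q F.Gt F.k (F.Gt q) (F.k q.1) F.mb → Net (F.Gt q) (F.k q.1) → Net F.G0 (F.k 0) →
    ∀ x ∈ F.Q1, ∀ y ∈ F.Q1, ∃ (g' : F.b → ℂ) (l' : ℂ),
      HJ (fun r => F.Gt r x y - F.G0 x y) q (F.Gt q x y - F.G0 x y) g' l' ∧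
      ‖l'‖ ≤ F.μs * F.r / F.κv ∧ ∑ c, ‖g' c‖ ^ 2 ≤ F.L

/-- PTL: the sums `Λ_x`, divided by `ℓ = Λ_x(0) + ω L`. Proof: `LajStmt` with `R = F.R`; the triple sum is at
most `aK Λ_x + C₀² s2 (r/κv)²` (`LtlStmt`, `KupStmt`); `(∑ K EK)^4 ≤ 16 Λ_x³ (μs r/κv)² (μs² r/κv³)`
(`EnbStmt` (5), (4) with `T = F.Q`, `κR = κv`), so `|∑ K EK| ≤ z (1 + f) ℓ` with `f = Λ_x/ℓ` by `hz` (fourth
powers: `(z (1 + f) ℓ)^4 ≥ z^4 f³ ℓ^4 ≥ z^4 (ω L) Λ_x³`). Everything divided by `ℓ ≥ ω L`: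
`l ≤ 6 (aK f + sg) + 2 z (1 + f)`, `∑ g² ≤ 16 f (aK f + sg)`. -/
def PtlStmt : Prop :=
  JalStmt → BkjStmt → EnbStmt → LajStmt → LtlStmt → EubStmt → PtaStmt → KupStmt →
    ∀ (X : Type) [Fintype X] [DecidableEq X] (F : Fl X) (c₀ C₀ : ℝ) (q : ℝ × (F.b → ℝ)),
    F.Ok c₀ C₀ → F.Pt q → BJ q F.Gt F.k (F.Gt q) (F.k q.1) F.mb → Net (F.Gt q) (F.k q.1) →
    Net F.G0 (F.k 0) → ∀ x ∈ F.Q1, ∃ (g' : F.b → ℝ) (l' : ℝ),
      HJ (fun r => LaR (F.Gt r) F.R x / (LaR F.G0 F.R x + F.ω * F.L)) q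
        (LaR (F.Gt q) F.R x / (LaR F.G0 F.R x + F.ω * F.L)) g' l' ∧
      l' ≤ 6 * (F.aK C₀ * (LaR (F.Gt q) F.R x / (LaR F.G0 F.R x + F.ω * F.L)) + F.sg C₀) +
        2 * F.z * (1 + LaR (F.Gt q) F.R x / (LaR F.G0 F.R x + F.ω * F.L)) ∧
      ∑ c, g' c ^ 2 ≤ 16 * (LaR (F.Gt q) F.R x / (LaR F.G0 F.R x + F.ω * F.L)) *
        (F.aK C₀ * (LaR (F.Gt q) F.R x / (LaR F.G0 F.R x + F.ω * F.L)) + F.sg C₀)

/-- PTY: the pair of block Y. Proof: `VblStmt` with `R = F.Rg`, `U = F.U`, `P = F.Pf q.1`, `Pf = F.Pf`,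
`Λ = F.L`, `μs = F.μs`; `YBl` from `Ok` and `PtaStmt` (`P ≤ P0`, `k T ≤ k q.1`). The second part (all
points where only the entries are close to the start) is needed for smoothness: the same with a large
`Λ`: `hΛ` of `YBl` holds for `Λ = ∑_a ∑_c K_ac²`. -/
def PtyStmt : Prop :=
  JalStmt → JmaStmt → BkjStmt → EnbStmt → CmpStmt → VexStmt → TspStmt → VjtStmt → VgrStmt →
    VdrStmt → VblStmt → EubStmt → PtaStmt → ∀ c₀ C₀ : ℝ, ∃ C : ℝ, 1 ≤ C ∧
    ∀ (X : Type) [Fintype X] [DecidableEq X] (F : Fl X) (q : ℝ × (F.b → ℝ)), F.Ok c₀ C₀ →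
    BJ q F.Gt F.k (F.Gt q) (F.k q.1) F.mb → Net (F.Gt q) (F.k q.1) → Net F.G0 (F.k 0) →
    (F.Pt q → ∀ a ∈ F.Rg,
      (∃ (g' : F.b → ℂ) (l' : ℂ), HJ (fun r => vir (BB (F.Gt r)) (F.Pf r.1) F.w a) q
          (vir (BB (F.Gt q)) (F.Pf q.1) F.w a) g' l' ∧ ∑ c, ‖g' c‖ ^ 2 ≤ F.yn C ∧ ‖l'‖ ≤ F.yd C) ∧
      ∃ (g' : F.b → ℝ) (l' : ℝ), HJ (fun r => vir (KK (F.Gt r)) (F.Pf r.1) F.w a) q
          (vir (KK (F.Gt q)) (F.Pf q.1) F.w a) g' l' ∧ ∑ c, g' c ^ 2 ≤ F.yn C ∧ |l'| ≤ F.yd C) ∧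
    (0 ≤ q.1 → q.1 ≤ F.T → (∀ x ∈ F.Q1, ‖F.Gt q x x - F.G0 x x‖ ≤ F.δ) → ∀ a ∈ F.Rg,
      ContDiffAt ℝ 2 (fun r => vir (BB (F.Gt r)) (F.Pf r.1) F.w a) q ∧
      ContDiffAt ℝ 2 (fun r => vir (KK (F.Gt r)) (F.Pf r.1) F.w a) q)

/-- NUB: the noise of the form, in units of the form at the start. `W` is the inverse of `E0` on the box:
`qf W φ ≤ 2 ∑ f φ - qf E0 f` for some `f` supported in `Q` (namely `f = W φ`). Proof: `hS1` gives
`qf W φ ≤ 2 ∑_(x ∈ Q) φ²/(k0 g) + s1 (∑_(Q ∩ Yg) |φ|)² + s3 (∑_(Q \ Yg) |φ|)²`; `1/(k0 g) ≤ 1/(c₀ κ)`,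
`κ = F.k q.1`; `NbwStmt`, `NblStmt` and `NboStmt` (`S = A \ Yg`, `hold`), for `φ = 1_Q Ec f`, `Q ⊆ A`;
`qf (Et q) f ≤ 2 qf E0 f`. -/
def NubStmt : Prop :=
  BetStmt → NbwStmt → NblStmt → NboStmt → EubStmt → PtaStmt → ∀ (X : Type) [Fintype X] [DecidableEq X]
    (F : Fl X) (c₀ C₀ : ℝ) (q : ℝ × (F.b → ℝ)), F.Ok c₀ C₀ → F.Pt q →
    Net (F.Gt q) (F.k q.1) → Net F.G0 (F.k 0) → ∀ W : (X → ℝ) → ℝ,
    (∀ φ : X → ℝ, (∀ x, x ∉ F.Q → φ x = 0) → ∃ f : X → ℝ, (∀ x, x ∉ F.Q → f x = 0) ∧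
      W φ ≤ 2 * ∑ x, f x * φ x - qf F.E0 f) →
    ∀ f : X → ℝ, (∀ x, x ∉ F.Q → f x = 0) →
      ∑ c ∈ F.b, W (fun x => if x ∈ F.Q then (Ec (F.Gt q) (F.k q.1) F.A c *ᵥ f) x else 0) ≤
        F.nu c₀ * qf F.E0 f

/-- DRB: the error of the drift and the size of the ladder rate. Proof: `DreStmt` with `δ = (N + 2) δ`,
`μs`, then `qf (Et q) f ≤ 2 qf E0 f`. (2) `EubStmt` (2) at the start with `k' = F.k q.1`,
`a = 2 r / κv`: `k0 ρ0 ≤ 2 κ r ≤ (2 r/κv) κ²`. (3) `lam t x = t / (κ_t κ_0)` on `b`, `qf E0 f ≤ 2 r ∑ k0 f²`,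
Young: `2 ∑ f φ - 2 r ∑_Q k0 f²` is maximal at `f = φ/(2 r k0)`; `2 r T ≤ κv`. -/
def DrbStmt : Prop :=
  BetStmt → DreStmt → EubStmt → PtaStmt → ∀ (X : Type) [Fintype X] [DecidableEq X]
    (F : Fl X) (c₀ C₀ : ℝ) (q : ℝ × (F.b → ℝ)), F.Ok c₀ C₀ →
    Net (F.Gt q) (F.k q.1) → Net F.G0 (F.k 0) →
    (F.Pt q → ∀ f : X → ℝ, (∀ x, x ∉ F.Q → f x = 0) →
      |qf (Dl (ee (F.Gt q) (F.k q.1) F.g (mub (F.Gt q) F.mb F.b) F.A F.b)) f| ≤
        2 * ((2 * ((F.N + 2) * F.δ) + 4 * F.μs) / F.κv) * qf F.E0 f) ∧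
    (0 ≤ q.1 → q.1 ≤ F.T → ∀ f : X → ℝ,
      ∑ x ∈ F.b, ((F.E0 *ᵥ f) x / F.k q.1 x) ^ 2 ≤ 4 * F.r / F.κv * qf F.E0 f) ∧
    (0 ≤ q.1 → q.1 ≤ F.T → (∀ x, 0 ≤ F.lam q.1 x) ∧
      ∀ φ : X → ℝ, (∀ x, x ∉ F.Q → φ x = 0) → ∃ f : X → ℝ, (∀ x, x ∉ F.Q → f x = 0) ∧
        ∑ x, F.lam q.1 x * φ x ^ 2 ≤ 2 * ∑ x, f x * φ x - qf F.E0 f)

end Pool.Agent.AFL
end
end -- Pool.Agent.AFL.Stmts

section -- Pool.Agent.Helper10_AFL.PTL

/-!
# AND2B, block lemma FLO, row PTL (helper10): the sums of fourth powers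
-/

set_option autoImplicit false

open MeasureTheory ProbabilityTheory

open scoped BigOperators Matrix

noncomputable section

namespace Pool.Agent.AFL.H10

open Pool.Agent.LE.QF Pool.Agent.AFJ Pool.Agent.ABY

/-- the arithmetic of the last step -/
private theorem root4 (S L z l w m r k : ℝ) (hL : 0 ≤ L) (hl : 0 < l) (hw : w ≤ l)
    (hk : 0 < k) (hz0 : 0 ≤ z) (h : S ^ 4 ≤ 16 * L ^ 3 * ((m * r / k) ^ 2 * (m ^ 2 * r / (k ^ 2 * k))))
    (hz : 16 * m ^ 4 * r ^ 3 ≤ z ^ 4 * w * k ^ 5) : S ≤ z * (1 + L / l) * l := by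
  have hf : 0 ≤ L / l := div_nonneg hL hl.le
  have hrhs : 0 ≤ z * (1 + L / l) * l := by positivity
  have h1 : 16 * L ^ 3 * ((m * r / k) ^ 2 * (m ^ 2 * r / (k ^ 2 * k))) =
      L ^ 3 * (16 * m ^ 4 * r ^ 3) / k ^ 5 := by
    field_simp
  have h2 : L ^ 3 * (16 * m ^ 4 * r ^ 3) / k ^ 5 ≤ L ^ 3 * (z ^ 4 * w) := by
    rw [div_le_iff₀ (by positivity)]
    calc L ^ 3 * (16 * m ^ 4 * r ^ 3) ≤ L ^ 3 * (z ^ 4 * w * k ^ 5) :=
          mul_le_mul_of_nonneg_left hz (by positivity)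
      _ = L ^ 3 * (z ^ 4 * w) * k ^ 5 := by ring
  have h3 : L ^ 3 * (z ^ 4 * w) ≤ L ^ 3 * (z ^ 4 * l) :=
    mul_le_mul_of_nonneg_left (mul_le_mul_of_nonneg_left hw (by positivity)) (by positivity)
  have h4 : L ^ 3 * (z ^ 4 * l) = z ^ 4 * (L / l) ^ 3 * l ^ 4 := by
    field_simp
  have h5 : (L / l) ^ 3 ≤ (1 + L / l) ^ 4 := by
    have ha : (L / l) ^ 3 ≤ (1 + L / l) ^ 3 := pow_le_pow_left₀ hf (by linarith only) 3
    have hb : (1 + L / l) ^ 3 ≤ (1 + L / l) ^ 4 := pow_le_pow_right₀ (by linarith only [hf]) (by norm_num)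
    exact ha.trans hb
  have h6 : z ^ 4 * (L / l) ^ 3 * l ^ 4 ≤ (z * (1 + L / l) * l) ^ 4 := by
    calc z ^ 4 * (L / l) ^ 3 * l ^ 4 ≤ z ^ 4 * (1 + L / l) ^ 4 * l ^ 4 :=
          mul_le_mul_of_nonneg_right (mul_le_mul_of_nonneg_left h5 (by positivity)) (by positivity)
      _ = (z * (1 + L / l) * l) ^ 4 := by ring
  have h7 : S ^ 4 ≤ (z * (1 + L / l) * l) ^ 4 := by
    rw [h1] at h
    exact h.trans (h2.trans (h3.trans (h4.le.trans h6)))
  by_contra hlt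
  rw [not_le] at hlt
  exact absurd h7 (not_le.mpr (pow_lt_pow_left₀ hlt hrhs (by norm_num)))

theorem ptl : PtlStmt := by
  intro hjal hbkj henb hlaj hltl heub hpta hkup X _ _ F c₀ C₀ q hok hpt hbj hnet hnet0 x hx
  obtain ⟨hκ0, hκ1, hr1, hc0, hc1, hC1, hN, hδ0, hL0, hω0, hω1, hε0, hε1, hs1, hs2, hrest⟩ := hok.num
  obtain ⟨p1, p2, p3, p4, p5, p6, p7, p8, -⟩ := hpta heub X F c₀ C₀ q hok hpt hnet hnet0
  have hSK := hkup heub hpta X F c₀ C₀ q hok hpt hnet hnet0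
  obtain ⟨g', l', hj, hl', hg'⟩ := hlaj hjal hbkj X F.b F.R q F.Gt F.k (F.Gt q) (F.k q.1) F.mb x hbj
  have hbR : F.b ⊆ F.R := fun y hy => Finset.mem_inter.mpr
    ⟨hok.hb.2.1 (hok.hb.1 hy), hok.hQ.2.1 (hok.hQ.1 hy)⟩
  have hRQ : F.R ⊆ F.Q := Finset.inter_subset_right
  have hRRg : F.R ⊆ F.Rg := Finset.inter_subset_left
  have hxQ : x ∈ F.Q := hok.hQ.2.1 hx
  have hbA : F.b ⊆ F.A := fun y hy => hok.hb.2.2 (hok.hb.2.1 (hok.hb.1 hy))
  have hμs : 0 ≤ F.μs := by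
    unfold Fl.μs
    positivity
  have hKn : ∀ a c, 0 ≤ KK (F.Gt q) a c := fun a c => sq_nonneg _
  -- the Ward identity
  have hward : ∀ y, ∑ c, F.k q.1 c * KK (F.Gt q) y c = (F.Gt q y y).im := by
    intro y
    have h1 := (heub X (F.Gt q) (F.k q.1) F.A F.b (fun _ => 0) hnet hbA).2.2.2.2.2 y
    rw [← h1]
    unfold rho
    exact (Finset.sum_add_sum_compl F.A _).symm
  have hsub : ∀ (T : Finset X) y, y ∈ F.Q → ∑ c ∈ T, F.k q.1 c * KK (F.Gt q) y c ≤ F.r := by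
    intro T y hy
    have h1 : ∑ c ∈ T, F.k q.1 c * KK (F.Gt q) y c ≤ ∑ c, F.k q.1 c * KK (F.Gt q) y c :=
      Finset.sum_le_sum_of_subset_of_nonneg (Finset.subset_univ T)
        (fun c _ _ => mul_nonneg (hnet.hκ c).le (hKn y c))
    rw [hward y] at h1
    exact h1.trans (p8 y hy).1
  have hkR : ∀ c ∈ F.R, F.κv ≤ F.k q.1 c := fun c hc => p1 c (hRRg hc)
  have hkb : ∀ c ∈ F.b, F.κv ≤ F.k q.1 c := fun c hc => hkR c (hbR hc)
  have hS0 : 0 ≤ C₀ ^ 2 * F.s2 := mul_nonneg (sq_nonneg _) hs2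
  have hT3 := hltl X (F.Gt q) (F.k q.1) F.b F.R x F.κv (F.aK C₀) F.r (C₀ ^ 2 * F.s2) hnet hbR hκ0
    hkR (hsub F.R x hxQ) hS0 hSK
  obtain ⟨-, -, -, e4, e5, -⟩ := henb X (F.Gt q) (F.k q.1) (mub (F.Gt q) F.mb F.b) F.b F.R F.Q F.κv
    F.κv F.μs F.r hnet hκ0 hκ0 hμs (by linarith only [hr1, hω0, hω1]) hRQ hkb hkR (fun c _ => p7 c)
    (fun c hc => by simp [mub, hc]) (fun y hy => hsub F.b y hy)
  have hΛ : 0 ≤ LaR (F.Gt q) F.R x := Finset.sum_nonneg (fun y _ => sq_nonneg _)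
  have hΛ0 : 0 ≤ LaR F.G0 F.R x := Finset.sum_nonneg (fun y _ => sq_nonneg _)
  have hwL : 0 < F.ω * F.L := mul_pos hω0 hL0
  set l : ℝ := LaR F.G0 F.R x + F.ω * F.L with hl
  have hl0 : 0 < l := by linarith only [hΛ0, hwL]
  have hwl : F.ω * F.L ≤ l := by linarith only [hΛ0]
  set Λ : ℝ := LaR (F.Gt q) F.R x with hΛd
  set T3 : ℝ := ∑ y ∈ F.R, ∑ c ∈ F.b, KK (F.Gt q) x y * KK (F.Gt q) x c * KK (F.Gt q) c y with hT3d
  set S1 : ℝ := ∑ y ∈ F.R, KK (F.Gt q) x y * EK (F.Gt q) (mub (F.Gt q) F.mb F.b) x y with hS1d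
  have hS1 : S1 ≤ F.z * (1 + Λ / l) * l := by
    refine root4 S1 Λ F.z l (F.ω * F.L) F.μs F.r F.κv hΛ hl0 hwl hκ0 hok.hz.1 ?_ hok.hz.2
    exact (e5 x).trans (mul_le_mul_of_nonneg_left (e4 x hxQ) (by positivity))
  have hT3l : T3 / l ≤ F.aK C₀ * (Λ / l) + F.sg C₀ := by
    have h1 : T3 / l ≤ (F.aK C₀ * Λ + C₀ ^ 2 * F.s2 * (F.r / F.κv) ^ 2) / l :=
      div_le_div_of_nonneg_right hT3 hl0.le
    have h2 : (F.aK C₀ * Λ + C₀ ^ 2 * F.s2 * (F.r / F.κv) ^ 2) / l =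
        F.aK C₀ * (Λ / l) + C₀ ^ 2 * F.s2 * (F.r / F.κv) ^ 2 / l := by
      rw [add_div, mul_div_assoc]
    have h3 : C₀ ^ 2 * F.s2 * (F.r / F.κv) ^ 2 / l ≤ F.sg C₀ := by
      unfold Fl.sg
      exact div_le_div_of_nonneg_left (mul_nonneg hS0 (sq_nonneg _)) hwL hwl
    linarith only [h1, h2, h3]
  have hf : 0 ≤ Λ / l := div_nonneg hΛ hl0.le
  -- the jet, divided by `l`
  have hj2 := ((hjal F.b ℝ q).2.2.1 _ _ _ _ _ _ _ _ hj ((hjal F.b ℝ q).1 l⁻¹)).2.2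
  refine ⟨fun c => g' c * l⁻¹, l' * l⁻¹, ?_, ?_, ?_⟩
  · have h1 : (fun r => LaR (F.Gt r) F.R x / l) = fun r => LaR (F.Gt r) F.R x * l⁻¹ := by
      funext r
      rw [div_eq_mul_inv]
    rw [h1, div_eq_mul_inv]
    have h2 : (fun c => Λ * (0 : ℝ) + g' c * l⁻¹) = fun c => g' c * l⁻¹ := by
      funext c
      ring
    have h3 : Λ * (0 : ℝ) + l' * l⁻¹ + ∑ c, g' c * 0 = l' * l⁻¹ := by
      simp
    rw [← h2, ← h3]
    exact hj2
  · have h1 : l' * l⁻¹ ≤ (6 * T3 + 2 * S1) * l⁻¹ :=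
      mul_le_mul_of_nonneg_right hl' (inv_pos.mpr hl0).le
    have h2 : (6 * T3 + 2 * S1) * l⁻¹ = 6 * (T3 / l) + 2 * (S1 / l) := by
      rw [div_eq_mul_inv, div_eq_mul_inv]
      ring
    have h3 : S1 / l ≤ F.z * (1 + Λ / l) := by
      rw [div_le_iff₀ hl0]
      exact hS1
    nlinarith only [hT3l, h1, h2, h3]
  · have h1 : ∑ c, (g' c * l⁻¹) ^ 2 = (∑ c, g' c ^ 2) * (l⁻¹) ^ 2 := by
      rw [Finset.sum_mul]
      exact Finset.sum_congr rfl (fun c _ => by ring)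
    rw [h1]
    calc (∑ c, g' c ^ 2) * (l⁻¹) ^ 2 ≤ (16 * Λ * T3) * (l⁻¹) ^ 2 :=
          mul_le_mul_of_nonneg_right hg' (sq_nonneg _)
      _ = 16 * (Λ / l) * (T3 / l) := by
          rw [div_eq_mul_inv, div_eq_mul_inv]
          ring
      _ ≤ 16 * (Λ / l) * (F.aK C₀ * (Λ / l) + F.sg C₀) :=
          mul_le_mul_of_nonneg_left hT3l (by positivity)

end Pool.Agent.AFL.H10
end
end -- Pool.Agent.Helper10_AFL.PTL

section -- Pool.Agent.Helper20_AFL.NET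

/-! Row NET of tank AFL (helper20). -/

set_option autoImplicit false

noncomputable section

namespace Pool.Agent.AFL.H20

open Pool.Agent.LE.QF Pool.Agent.AFJ Pool.Agent.ABY

theorem net : NetStmt := by
  intro jal jma bgj X iX dX F c₀ C₀ q hF h0 hT
  exact bgj jal jma X F.toBlk q hF.sym fun x => hF.pos q.1 x h0 hT

end Pool.Agent.AFL.H20
end
end -- Pool.Agent.Helper20_AFL.NET

section -- Pool.Agent.Helper21_AFL.DRB

/-!
# AFL, row DRB: the error of the drift and the size of the ladder rate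
-/

set_option autoImplicit false

open MeasureTheory ProbabilityTheory

open scoped BigOperators Matrix

noncomputable section

namespace Pool.Agent.AFL.H21

open Pool.Agent.AFL Pool.Agent.LE.QF Pool.Agent.AFJ Pool.Agent.ABY

section

variable {X : Type} [Fintype X] [DecidableEq X] (F : Fl X) {c₀ C₀ : ℝ}

theorem k_in {x : X} (hx : x ∈ F.b) (t : ℝ) : F.k t x + t * F.g x = F.k 0 x := by
  simp only [Fl.k, Fl.g, Blk.kp, if_pos hx]
  ring

theorem k_out {x : X} (hx : x ∉ F.b) (t : ℝ) : F.k t x = F.k 0 x := by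
  simp only [Fl.k, Blk.kp, if_neg hx]

theorem facts (h : F.Ok c₀ C₀) {t : ℝ} (h0 : 0 ≤ t) (hT : t ≤ F.T) {x : X} (hx : x ∈ F.b) :
    0 < F.g x ∧ F.κv ≤ F.k t x ∧ F.k t x ≤ F.k 0 x ∧ F.k 0 x ≤ 2 * F.k t x := by
  have hRg : x ∈ F.Rg := h.hb.2.1 (h.hb.1 hx)
  have hA : x ∈ F.A := h.hb.2.2 hRg
  obtain ⟨g1, g2⟩ := h.hg x hA
  have hc : 0 < c₀ := h.num.2.2.2.1
  have hg : 0 < F.g x := lt_of_lt_of_le hc g1
  have e1 := k_in F hx t
  have e2 := k_in F hx F.T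
  have e3 := h.hv x hRg
  have e4 : t * F.g x ≤ F.T * F.g x := mul_le_mul_of_nonneg_right hT hg.le
  have e5 : 0 ≤ t * F.g x := mul_nonneg h0 hg.le
  have e6 : t * F.g x ≤ F.κv := by
    calc t * F.g x ≤ F.T * F.g x := e4
      _ ≤ F.T * C₀ := mul_le_mul_of_nonneg_left g2 h.hT.le
      _ ≤ F.κv := h.hTv.1
  exact ⟨hg, by linarith, by linarith, by linarith⟩

end

theorem drb : DrbStmt := by
  intro hBet hDre hEub hPta X _ _ F c₀ C₀ q hOk hN hN0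
  have hκ : 0 < F.κv := hOk.num.1
  have hr : 1 ≤ F.r := hOk.num.2.2.1
  have hr0 : 0 < F.r := by linarith
  have hN' : 0 ≤ F.N := hOk.num.2.2.2.2.2.2.1
  have hδ' : 0 < F.δ := hOk.num.2.2.2.2.2.2.2.1
  have hbA : F.b ⊆ F.A := hOk.hb.1.trans (hOk.hb.2.1.trans hOk.hb.2.2)
  have hbQ : F.b ⊆ F.Q := hOk.hQ.1.trans hOk.hQ.2.1
  have hQA : F.Q ⊆ F.A := hOk.hQ.2.2
  have hμs : 0 ≤ F.μs := by
    rw [Fl.μs]
    positivity
  -- the absorption at the start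
  have hrho : ∀ x ∈ F.Q, rho F.G0 (F.k 0) F.A x ≤ F.r := by
    intro x hx
    have h1 := (hEub X F.G0 (F.k 0) F.A F.b 0 hN0 hbA).2.2.2.2.2 x
    have h2 : 0 ≤ ∑ y ∈ F.Aᶜ, F.k 0 y * KK F.G0 x y :=
      Finset.sum_nonneg fun y _ => mul_nonneg (hN0.hκ y).le (by
        simp only [KK]
        positivity)
    have h3 := hOk.him x hx
    linarith
  refine ⟨?_, ?_, ?_⟩
  · intro hPt f hf
    have hp := hPta hEub X F c₀ C₀ q hOk hPt hN hN0
    obtain ⟨p1, -, -, -, -, -, p7, -, -, -, -, p12, -⟩ := hp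
    have h1 := hDre hBet X (F.Gt q) (F.k q.1) F.g (mub (F.Gt q) F.mb F.b) F.A F.b f F.κv F.μs
      ((F.N + 2) * F.δ) hN hκ hbA (fun c hc => p1 c (hOk.hb.2.1 (hOk.hb.1 hc)))
      (fun x hx => (p12 x hx).1) (by positivity) hμs (fun c _ => p7 c) (fun c hc => by
        simp only [mub, if_neg hc])
    have h2 : qf (EE (F.Gt q) (F.k q.1) F.A) f ≤ 2 * qf F.E0 f :=
      (le_abs_self _).trans (hPt.fru f hf)
    have h3 : 0 ≤ (2 * ((F.N + 2) * F.δ) + 4 * F.μs) / F.κv := by positivity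
    calc |qf (Dl (ee (F.Gt q) (F.k q.1) F.g (mub (F.Gt q) F.mb F.b) F.A F.b)) f|
        ≤ (2 * ((F.N + 2) * F.δ) + 4 * F.μs) / F.κv * qf (EE (F.Gt q) (F.k q.1) F.A) f := h1
      _ ≤ (2 * ((F.N + 2) * F.δ) + 4 * F.μs) / F.κv * (2 * qf F.E0 f) :=
          mul_le_mul_of_nonneg_left h2 h3
      _ = _ := by ring
  · intro h0 hT f
    have ha : 0 ≤ 2 * F.r / F.κv := by positivity
    have h1 := (hEub X F.G0 (F.k 0) F.A F.b f hN0 hbA).2.2.2.1 (F.k q.1) (2 * F.r / F.κv) ha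
      (fun x hx => lt_of_lt_of_le hκ (facts F hOk h0 hT hx).2.1) (fun x hx => by
        obtain ⟨-, f2, f3, f4⟩ := facts F hOk h0 hT hx
        have hk : 0 < F.k q.1 x := lt_of_lt_of_le hκ f2
        have hk0 : 0 ≤ F.k 0 x := (hN0.hκ x).le
        calc F.k 0 x * rho F.G0 (F.k 0) F.A x ≤ F.k 0 x * F.r :=
              mul_le_mul_of_nonneg_left (hrho x (hbQ hx)) hk0
          _ ≤ 2 * F.k q.1 x * F.r := mul_le_mul_of_nonneg_right f4 hr0.le
          _ = 2 * F.r / F.κv * (F.κv * F.k q.1 x) := by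
              field_simp
          _ ≤ 2 * F.r / F.κv * (F.k q.1 x * F.k q.1 x) :=
              mul_le_mul_of_nonneg_left (mul_le_mul_of_nonneg_right f2 hk.le) ha
          _ = 2 * F.r / F.κv * F.k q.1 x ^ 2 := by ring)
    calc ∑ x ∈ F.b, ((F.E0 *ᵥ f) x / F.k q.1 x) ^ 2
        ≤ 2 * (2 * F.r / F.κv) * qf (EE F.G0 (F.k 0) F.A) f := h1
      _ = 4 * F.r / F.κv * qf F.E0 f := by
          rw [Fl.E0]
          ring
  · intro h0 hT
    have hlam : ∀ x, 0 ≤ F.lam q.1 x ∧ F.lam q.1 x ≤ 1 / (2 * F.r * F.k 0 x) := by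
      intro x
      have hk0 : 0 < F.k 0 x := hN0.hκ x
      by_cases hx : x ∈ F.b
      · obtain ⟨hg, f2, f3, -⟩ := facts F hOk h0 hT hx
        have hk : 0 < F.k q.1 x := lt_of_lt_of_le hκ f2
        have e1 := k_in F hx q.1
        have e2 : F.lam q.1 x = q.1 / (F.k q.1 x * F.k 0 x) := by
          rw [Fl.lam, if_pos hx]
          have e3 : 1 / F.k q.1 x - 1 / F.k 0 x = q.1 * F.g x / (F.k q.1 x * F.k 0 x) := by
            rw [div_sub_div _ _ hk.ne' hk0.ne']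
            congr 1
            linarith
          rw [e3]
          field_simp
        rw [e2]
        refine ⟨by positivity, ?_⟩
        rw [div_le_div_iff₀ (by positivity) (by positivity)]
        have e4 : 2 * F.r * q.1 ≤ F.k q.1 x := by
          calc 2 * F.r * q.1 ≤ 2 * F.r * F.T := mul_le_mul_of_nonneg_left hT (by positivity)
            _ ≤ F.κv := hOk.hTv.2
            _ ≤ F.k q.1 x := f2
        calc q.1 * (2 * F.r * F.k 0 x) = 2 * F.r * q.1 * F.k 0 x := by ring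
          _ ≤ F.k q.1 x * F.k 0 x := mul_le_mul_of_nonneg_right e4 hk0.le
          _ = 1 * (F.k q.1 x * F.k 0 x) := by ring
      · rw [Fl.lam, if_neg hx]
        exact ⟨le_rfl, by positivity⟩
    refine ⟨fun x => (hlam x).1, fun φ hφ => ?_⟩
    refine ⟨fun x => φ x / (2 * F.r * F.k 0 x), fun x hx => by
      show φ x / (2 * F.r * F.k 0 x) = 0
      rw [hφ x hx, zero_div], ?_⟩
    have h1 := (hEub X F.G0 (F.k 0) F.A F.b (fun x => φ x / (2 * F.r * F.k 0 x)) hN0 hbA).2.2.1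
    have h2 : ∑ x ∈ F.A, F.k 0 x * rho F.G0 (F.k 0) F.A x * (φ x / (2 * F.r * F.k 0 x)) ^ 2 ≤
        ∑ x, φ x ^ 2 / (4 * F.r * F.k 0 x) := by
      have h3 : ∀ x, F.k 0 x * rho F.G0 (F.k 0) F.A x * (φ x / (2 * F.r * F.k 0 x)) ^ 2 ≤
          φ x ^ 2 / (4 * F.r * F.k 0 x) := by
        intro x
        have hk0 : 0 < F.k 0 x := hN0.hκ x
        by_cases hx : x ∈ F.Q
        · have h4 : F.k 0 x * rho F.G0 (F.k 0) F.A x * (φ x / (2 * F.r * F.k 0 x)) ^ 2 ≤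
              F.k 0 x * F.r * (φ x / (2 * F.r * F.k 0 x)) ^ 2 :=
            mul_le_mul_of_nonneg_right (mul_le_mul_of_nonneg_left (hrho x hx) hk0.le)
              (sq_nonneg _)
          refine h4.trans (le_of_eq ?_)
          field_simp
          ring
        · rw [hφ x hx]
          simp
      refine (Finset.sum_le_sum fun x _ => h3 x).trans ?_
      refine Finset.sum_le_sum_of_subset_of_nonneg (Finset.subset_univ _) fun x _ _ => ?_
      have hk0 : 0 < F.k 0 x := hN0.hκ x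
      positivity
    have h5 : qf F.E0 (fun x => φ x / (2 * F.r * F.k 0 x)) ≤
        2 * ∑ x, φ x ^ 2 / (4 * F.r * F.k 0 x) := by
      refine h1.trans ?_
      linarith
    have h6 : ∑ x, F.lam q.1 x * φ x ^ 2 ≤ ∑ x, φ x ^ 2 / (2 * F.r * F.k 0 x) := by
      refine Finset.sum_le_sum fun x _ => ?_
      have := mul_le_mul_of_nonneg_right (hlam x).2 (sq_nonneg (φ x))
      refine this.trans (le_of_eq ?_)
      ring
    have h7 : 2 * ∑ x, φ x / (2 * F.r * F.k 0 x) * φ x -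
        2 * ∑ x, φ x ^ 2 / (4 * F.r * F.k 0 x) = ∑ x, φ x ^ 2 / (2 * F.r * F.k 0 x) := by
      rw [Finset.mul_sum, Finset.mul_sum, ← Finset.sum_sub_distrib]
      refine Finset.sum_congr rfl fun x _ => ?_
      have hk0 : 0 < F.k 0 x := hN0.hκ x
      field_simp
      ring
    linarith

end Pool.Agent.AFL.H21
end
end -- Pool.Agent.Helper21_AFL.DRB

section -- Pool.Agent.Helper46_AFL.PTG

/-!
# Squad AFL, row PTG (helper46): the entries
-/

set_option autoImplicit false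

open MeasureTheory ProbabilityTheory

open scoped BigOperators Matrix

noncomputable section

namespace Pool.Agent.AFL.H46

open Pool.Agent.LE.QF Pool.Agent.AFJ Pool.Agent.ABY

/-- row PTG -/
theorem ptg : PtgStmt := by
  intro jal bkj enb eub pta X _ _ F c₀ C₀ q ok pt bj net net0 x hx y hy
  have hp := pta eub X F c₀ C₀ q ok pt net net0
  obtain ⟨p1, -, -, -, -, -, p7, p8, -, p10, -⟩ := hp
  have hbR : F.b ⊆ F.Rg := ok.hb.1.trans ok.hb.2.1
  have hbQ : F.b ⊆ F.Q := ok.hQ.1.trans ok.hQ.2.1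
  have hκv := ok.num.1
  have hr : (0 : ℝ) ≤ F.r := le_trans zero_le_one ok.num.2.2.1
  have hN : 0 ≤ F.N := ok.num.2.2.2.2.2.2.1
  have hδ : 0 < F.δ := ok.num.2.2.2.2.2.2.2.1
  have hL : 0 < F.L := ok.num.2.2.2.2.2.2.2.2.1
  have hμ : 0 ≤ F.μs := by
    unfold Fl.μs
    positivity
  have hsum : ∀ a ∈ F.Q, (∑ c ∈ F.b, F.k q.1 c * KK (F.Gt q) a c) ≤ F.r := by
    intro a ha
    have h1 := (eub X (F.Gt q) (F.k q.1) F.b F.b (fun _ => 0) net (Finset.Subset.refl _)).2.2.2.2.2 a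
    have h2 : 0 ≤ ∑ z ∈ F.bᶜ, F.k q.1 z * KK (F.Gt q) a z :=
      Finset.sum_nonneg fun z _ => mul_nonneg (net.hκ z).le (sq_nonneg _)
    have h3 := (p8 a ha).1
    have h4 : rho (F.Gt q) (F.k q.1) F.b a = ∑ c ∈ F.b, F.k q.1 c * KK (F.Gt q) a c := rfl
    linarith
  have he := enb X (F.Gt q) (F.k q.1) (mub (F.Gt q) F.mb F.b) F.b F.b F.Q F.κv F.κv F.μs F.r net
    hκv hκv hμ hr hbQ (fun c hc => p1 c (hbR hc)) (fun c hc => p1 c (hbR hc)) (fun c _ => p7 c)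
    (fun c hc => by unfold mub; rw [if_neg hc]) hsum
  obtain ⟨-, e2, -, -, -, e6⟩ := he
  have hxQ := ok.hQ.2.1 hx
  have hyQ := ok.hQ.2.1 hy
  have hj := (bkj jal X F.b q F.Gt F.k (F.Gt q) (F.k q.1) F.mb bj).2.2 x y
  have hJ := jal F.b ℂ q
  have hc := hJ.1 (F.G0 x y)
  have hd := (hJ.2.2.1 _ _ _ _ _ _ _ _ hj hc).2.1
  refine ⟨_, _, hd, ?_, ?_⟩
  · rw [sub_zero]
    exact e2 x hxQ y hyQ
  · have h1 : ∑ c : F.b, ‖-(F.Gt q x (c : X) * F.Gt q (c : X) y) - 0‖ ^ 2 =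
        ∑ c ∈ F.b, ‖F.Gt q x c * F.Gt q c y‖ ^ 2 := by
      rw [← Finset.sum_coe_sort F.b (fun c => ‖F.Gt q x c * F.Gt q c y‖ ^ 2)]
      refine Finset.sum_congr rfl fun c _ => ?_
      rw [sub_zero, norm_neg]
    rw [h1]
    refine (e6 x y).trans ?_
    have hla : ∀ a ∈ F.Q1, LaR (F.Gt q) F.b a ≤ F.L := by
      intro a ha
      refine le_trans ?_ (p10 a ha)
      refine Finset.sum_le_sum_of_subset_of_nonneg ?_ (fun z _ _ => sq_nonneg _)
      intro c hc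
      exact Finset.mem_inter.2 ⟨hbR hc, hbQ hc⟩
    have h2 := Real.sqrt_le_sqrt (hla x hx)
    have h3 := Real.sqrt_le_sqrt (hla y hy)
    calc Real.sqrt (LaR (F.Gt q) F.b x) * Real.sqrt (LaR (F.Gt q) F.b y)
        ≤ Real.sqrt F.L * Real.sqrt F.L :=
          mul_le_mul h2 h3 (Real.sqrt_nonneg _) (Real.sqrt_nonneg _)
      _ = F.L := Real.mul_self_sqrt hL.le

end Pool.Agent.AFL.H46
end
end -- Pool.Agent.Helper46_AFL.PTG

section -- Pool.Agent.Helper48_AFL.Nbo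

/-!
# Row NBO: the noise on a part of the nodes with a small flux from the block
-/

set_option autoImplicit false

open scoped BigOperators Matrix

noncomputable section

namespace Pool.Agent.AFL.H48

open Pool.Agent.LE.QF Pool.Agent.AFJ Pool.Agent.AFL

theorem nbo : NboStmt := by
  intro hB X _ _ G κ A b S f κv r hN hκv hr hSA hκb hrho
  obtain ⟨h1, h2, -, -, h5, h6⟩ := hB X G κ A f hN
  have key1 : ∀ c ∈ b, (∑ x ∈ S, |(Ec G κ A c *ᵥ f) x|) ^ 2 ≤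
      4 * (r * ∑ x ∈ A, κ x * ‖bet G κ A f x c‖ ^ 2) := by
    intro c hc
    have a1 : ∑ x ∈ S, |(Ec G κ A c *ᵥ f) x| ≤
        2 * ∑ x ∈ S, (Real.sqrt (κ x) * ‖G x c‖) * (Real.sqrt (κ x) * ‖bet G κ A f x c‖) := by
      rw [Finset.mul_sum]
      refine Finset.sum_le_sum fun x hx => ?_
      rw [h1 c x (hSA hx), abs_neg, abs_mul, abs_mul, abs_two, abs_of_pos (hN.hκ x)]
      have b1 : |(G x c * bet G κ A f x c).re| ≤ ‖G x c‖ * ‖bet G κ A f x c‖ := by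
        rw [← norm_mul]; exact Complex.abs_re_le_norm _
      have b2 : Real.sqrt (κ x) * Real.sqrt (κ x) = κ x := Real.mul_self_sqrt (hN.hκ x).le
      calc 2 * κ x * |(G x c * bet G κ A f x c).re|
          ≤ 2 * κ x * (‖G x c‖ * ‖bet G κ A f x c‖) :=
            mul_le_mul_of_nonneg_left b1 (mul_nonneg zero_le_two (hN.hκ x).le)
        _ = 2 * (Real.sqrt (κ x) * Real.sqrt (κ x) * (‖G x c‖ * ‖bet G κ A f x c‖)) := by
            rw [b2]; ring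
        _ = _ := by ring
    have a0 : 0 ≤ ∑ x ∈ S, |(Ec G κ A c *ᵥ f) x| := Finset.sum_nonneg fun x _ => abs_nonneg _
    have a2 := Finset.sum_mul_sq_le_sq_mul_sq S (fun x => Real.sqrt (κ x) * ‖G x c‖)
      (fun x => Real.sqrt (κ x) * ‖bet G κ A f x c‖)
    have a3 : ∑ x ∈ S, (Real.sqrt (κ x) * ‖G x c‖) ^ 2 = ∑ x ∈ S, κ x * KK G x c := by
      refine Finset.sum_congr rfl fun x _ => ?_
      rw [mul_pow, Real.sq_sqrt (hN.hκ x).le, KK]
    have a4 : ∑ x ∈ S, (Real.sqrt (κ x) * ‖bet G κ A f x c‖) ^ 2 ≤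
        ∑ x ∈ A, κ x * ‖bet G κ A f x c‖ ^ 2 := by
      refine le_trans (le_of_eq (Finset.sum_congr rfl fun x _ => by
        rw [mul_pow, Real.sq_sqrt (hN.hκ x).le])) ?_
      exact Finset.sum_le_sum_of_subset_of_nonneg hSA fun x _ _ =>
        mul_nonneg (hN.hκ x).le (sq_nonneg _)
    have a5 : 0 ≤ ∑ x ∈ A, κ x * ‖bet G κ A f x c‖ ^ 2 :=
      Finset.sum_nonneg fun x _ => mul_nonneg (hN.hκ x).le (sq_nonneg _)
    have a6 : 0 ≤ ∑ x ∈ S, κ x * KK G x c :=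
      Finset.sum_nonneg fun x _ => mul_nonneg (hN.hκ x).le (by simp only [KK]; positivity)
    calc (∑ x ∈ S, |(Ec G κ A c *ᵥ f) x|) ^ 2
        ≤ (2 * ∑ x ∈ S, (Real.sqrt (κ x) * ‖G x c‖) *
            (Real.sqrt (κ x) * ‖bet G κ A f x c‖)) ^ 2 := pow_le_pow_left₀ a0 a1 2
      _ = 4 * (∑ x ∈ S, (Real.sqrt (κ x) * ‖G x c‖) *
            (Real.sqrt (κ x) * ‖bet G κ A f x c‖)) ^ 2 := by ring
      _ ≤ 4 * ((∑ x ∈ S, (Real.sqrt (κ x) * ‖G x c‖) ^ 2) *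
            ∑ x ∈ S, (Real.sqrt (κ x) * ‖bet G κ A f x c‖) ^ 2) :=
          mul_le_mul_of_nonneg_left a2 (by norm_num)
      _ ≤ 4 * ((∑ x ∈ S, κ x * KK G x c) * ∑ x ∈ A, κ x * ‖bet G κ A f x c‖ ^ 2) := by
          rw [a3]
          exact mul_le_mul_of_nonneg_left (mul_le_mul_of_nonneg_left a4 a6) (by norm_num)
      _ ≤ _ := mul_le_mul_of_nonneg_left
          (mul_le_mul_of_nonneg_right (hrho c hc) a5) (by norm_num)
  have key2 : ∑ c ∈ b, ∑ x ∈ A, κ x * ‖bet G κ A f x c‖ ^ 2 ≤ 2 / κv * qf (EE G κ A) f := by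
    rw [Finset.sum_comm, h6]
    have c1 : ∀ x ∈ A, ∑ c ∈ b, κ x * ‖bet G κ A f x c‖ ^ 2 ≤ κ x * (DD G κ A f x / κv) := by
      intro x _
      rw [← Finset.mul_sum]
      refine mul_le_mul_of_nonneg_left ?_ (hN.hκ x).le
      rw [le_div_iff₀ hκv, Finset.sum_mul]
      refine (Finset.sum_le_sum fun c hc => ?_).trans (h5 x b)
      rw [mul_comm]
      exact mul_le_mul_of_nonneg_right (hκb c hc) (sq_nonneg _)
    refine (Finset.sum_le_sum c1).trans (le_of_eq ?_)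
    rw [← mul_assoc, Finset.mul_sum]
    refine Finset.sum_congr rfl fun x _ => ?_
    ring
  refine (Finset.sum_le_sum key1).trans ?_
  rw [← Finset.mul_sum, ← Finset.mul_sum]
  calc 4 * (r * ∑ c ∈ b, ∑ x ∈ A, κ x * ‖bet G κ A f x c‖ ^ 2)
      ≤ 4 * (r * (2 / κv * qf (EE G κ A) f)) :=
        mul_le_mul_of_nonneg_left (mul_le_mul_of_nonneg_left key2 hr) (by norm_num)
    _ = _ := by ring

end Pool.Agent.AFL.H48
end
end -- Pool.Agent.Helper48_AFL.Nbo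

section -- Pool.Agent.Helper56_AFL.EUB

/-!
# Squad AFL, row EUB (helper56): elementary facts about the form of a network
-/

set_option autoImplicit false

open MeasureTheory ProbabilityTheory

open scoped BigOperators Matrix

noncomputable section

namespace Pool.Agent.AFL.H56

open Pool.Agent.LE.QF Pool.Agent.AFJ Pool.Agent.ABY Pool.Agent.AFL

variable {X : Type} [Fintype X] [DecidableEq X]

theorem dl_mulVec (c : Matrix X X ℝ) (f : X → ℝ) (x : X) :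
    (Dl c *ᵥ f) x = ∑ y, c x y * (f x - f y) := by
  unfold Dl
  rw [Matrix.sub_mulVec, Pi.sub_apply, Matrix.mulVec_diagonal]
  simp only [Matrix.mulVec, dotProduct]
  rw [Finset.sum_mul, ← Finset.sum_sub_distrib]
  exact Finset.sum_congr rfl fun y _ => by ring

theorem qf_dl (c : Matrix X X ℝ) (hc : ∀ x y, c x y = c y x) (f : X → ℝ) :
    2 * qf (Dl c) f = ∑ x, ∑ y, c x y * (f x - f y) ^ 2 := by
  have h1 : qf (Dl c) f = ∑ x, ∑ y, c x y * (f x * (f x - f y)) := by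
    unfold qf
    refine Finset.sum_congr rfl fun x _ => ?_
    rw [dl_mulVec, Finset.mul_sum]
    exact Finset.sum_congr rfl fun y _ => by ring
  have h2 : qf (Dl c) f = ∑ x, ∑ y, c x y * (f y * (f y - f x)) := by
    rw [h1, Finset.sum_comm]
    refine Finset.sum_congr rfl fun x _ => Finset.sum_congr rfl fun y _ => ?_
    rw [hc y x]
  have h3 : 2 * qf (Dl c) f = qf (Dl c) f + qf (Dl c) f := by ring
  rw [h3]
  nth_rewrite 1 [h1]
  rw [h2, ← Finset.sum_add_distrib]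
  refine Finset.sum_congr rfl fun x _ => ?_
  rw [← Finset.sum_add_distrib]
  exact Finset.sum_congr rfl fun y _ => by ring

theorem KK_nonneg (G : Matrix X X ℂ) (x y : X) : 0 ≤ KK G x y := by
  unfold KK
  positivity

theorem cd_symm {G : Matrix X X ℂ} {κ : X → ℝ} (hN : Net G κ) (A : Finset X) (x y : X) :
    cd G κ A x y = cd G κ A y x := by
  unfold cd KK
  rw [hN.hs x y]
  by_cases h : x ∈ A ∧ y ∈ A
  · rw [if_pos h, if_pos h.symm]
    ring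
  · rw [if_neg h, if_neg (fun h' => h h'.symm)]

theorem cd_nonneg {G : Matrix X X ℂ} {κ : X → ℝ} (hN : Net G κ) (A : Finset X) (x y : X) :
    0 ≤ cd G κ A x y := by
  unfold cd
  split_ifs
  · exact mul_nonneg (mul_nonneg (hN.hκ x).le (hN.hκ y).le) (KK_nonneg G x y)
  · exact le_rfl

theorem cd_sum (G : Matrix X X ℂ) (κ : X → ℝ) (A : Finset X) (x : X) :
    ∑ y, cd G κ A x y = if x ∈ A then κ x * rho G κ A x else 0 := by
  unfold cd
  by_cases hx : x ∈ A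
  · rw [if_pos hx]
    unfold rho
    rw [Finset.mul_sum, ← Finset.sum_filter_add_sum_filter_not Finset.univ (· ∈ A)]
    have h1 : ∑ y ∈ Finset.univ.filter (fun y => ¬ y ∈ A),
        (if x ∈ A ∧ y ∈ A then κ x * κ y * KK G x y else 0) = 0 :=
      Finset.sum_eq_zero fun y hy => if_neg fun h => (Finset.mem_filter.1 hy).2 h.2
    rw [h1, add_zero]
    have h2 : Finset.univ.filter (fun y => y ∈ A) = A := by ext y; simp
    rw [h2]
    refine Finset.sum_congr rfl fun y hy => ?_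
    rw [if_pos ⟨hx, hy⟩]
    ring
  · rw [if_neg hx]
    exact Finset.sum_eq_zero fun y _ => if_neg fun h => hx h.1

theorem sum_if_mem (A : Finset X) (f : X → ℝ) :
    ∑ x, (if x ∈ A then f x else 0) = ∑ x ∈ A, f x := by
  rw [Finset.sum_ite_mem, Finset.univ_inter]

theorem eub : EubStmt := by
  intro X _ _ G κ A b f hN hbA
  have hsym := cd_symm hN A
  have hnn := cd_nonneg hN A
  have hq : ∀ f : X → ℝ, 2 * qf (EE G κ A) f = ∑ x, ∑ y, cd G κ A x y * (f x - f y) ^ 2 :=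
    fun f => qf_dl _ hsym f
  refine ⟨?_, ?_, ?_, ?_, ?_, ?_⟩
  · ext x y
    rw [Matrix.transpose_apply]
    unfold EE Dl
    rw [Matrix.sub_apply, Matrix.sub_apply, hsym y x]
    congr 1
    by_cases hxy : x = y
    · rw [hxy]
    · rw [Matrix.diagonal_apply_ne _ hxy, Matrix.diagonal_apply_ne _ (Ne.symm hxy)]
  · have h1 : 0 ≤ 2 * qf (EE G κ A) f := by
      rw [hq]
      exact Finset.sum_nonneg fun x _ => Finset.sum_nonneg fun y _ =>
        mul_nonneg (hnn x y) (sq_nonneg _)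
    linarith
  · have h1 : 2 * qf (EE G κ A) f ≤ ∑ x, ∑ y, cd G κ A x y * (2 * f x ^ 2 + 2 * f y ^ 2) := by
      rw [hq]
      refine Finset.sum_le_sum fun x _ => Finset.sum_le_sum fun y _ =>
        mul_le_mul_of_nonneg_left ?_ (hnn x y)
      nlinarith [sq_nonneg (f x + f y)]
    have h2 : ∑ x, ∑ y, cd G κ A x y * (2 * f y ^ 2) = ∑ x, ∑ y, cd G κ A x y * (2 * f x ^ 2) := by
      rw [Finset.sum_comm]
      refine Finset.sum_congr rfl fun x _ => Finset.sum_congr rfl fun y _ => ?_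
      rw [hsym y x]
    have h3 : ∑ x, ∑ y, cd G κ A x y * (2 * f x ^ 2) = 2 * ∑ x ∈ A, κ x * rho G κ A x * f x ^ 2 := by
      rw [← sum_if_mem A (fun x => κ x * rho G κ A x * f x ^ 2), Finset.mul_sum]
      refine Finset.sum_congr rfl fun x _ => ?_
      rw [← Finset.sum_mul, cd_sum]
      split_ifs <;> ring
    have h4 : ∑ x, ∑ y, cd G κ A x y * (2 * f x ^ 2 + 2 * f y ^ 2) =
        ∑ x, ∑ y, cd G κ A x y * (2 * f x ^ 2) + ∑ x, ∑ y, cd G κ A x y * (2 * f y ^ 2) := by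
      rw [← Finset.sum_add_distrib]
      refine Finset.sum_congr rfl fun x _ => ?_
      rw [← Finset.sum_add_distrib]
      exact Finset.sum_congr rfl fun y _ => by ring
    rw [h4, h2, h3] at h1
    linarith
  · intro k' a ha hk' hka
    have h1 : ∀ x ∈ b, ((EE G κ A *ᵥ f) x / k' x) ^ 2 ≤
        a * ∑ y, cd G κ A x y * (f x - f y) ^ 2 := by
      intro x hx
      have h2 : (EE G κ A *ᵥ f) x = ∑ y, cd G κ A x y * (f x - f y) := dl_mulVec _ f x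
      have h3 : (∑ y, cd G κ A x y * (f x - f y)) ^ 2 ≤
          (∑ y, cd G κ A x y) * ∑ y, cd G κ A x y * (f x - f y) ^ 2 := by
        refine Finset.sum_sq_le_sum_mul_sum_of_sq_le_mul _ (fun y _ => hnn x y)
          (fun y _ => mul_nonneg (hnn x y) (sq_nonneg _)) fun y _ => le_of_eq ?_
        ring
      have h4 : ∑ y, cd G κ A x y ≤ a * k' x ^ 2 := by
        rw [cd_sum, if_pos (hbA hx)]
        exact hka x hx
      have h5 : 0 ≤ ∑ y, cd G κ A x y * (f x - f y) ^ 2 :=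
        Finset.sum_nonneg fun y _ => mul_nonneg (hnn x y) (sq_nonneg _)
      rw [h2, div_pow, div_le_iff₀ (pow_pos (hk' x hx) 2)]
      calc _ ≤ _ := h3
        _ ≤ a * k' x ^ 2 * ∑ y, cd G κ A x y * (f x - f y) ^ 2 :=
          mul_le_mul_of_nonneg_right h4 h5
        _ = _ := by ring
    have h2 : 2 * a * qf (EE G κ A) f = a * ∑ x, ∑ y, cd G κ A x y * (f x - f y) ^ 2 := by
      rw [← hq]
      ring
    rw [h2]
    refine (Finset.sum_le_sum h1).trans ?_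
    rw [← Finset.mul_sum]
    refine mul_le_mul_of_nonneg_left ?_ ha
    exact Finset.sum_le_sum_of_subset_of_nonneg (Finset.subset_univ _) fun x _ _ =>
      Finset.sum_nonneg fun y _ => mul_nonneg (hnn x y) (sq_nonneg _)
  · intro hf
    have h1 : qf (EE G κ A) f = ∑ x, ∑ y, (cd G κ A x y * f x ^ 2 - f x * (cd G κ A x y * f y)) := by
      unfold qf
      refine Finset.sum_congr rfl fun x _ => ?_
      have h2 : (EE G κ A *ᵥ f) x = ∑ y, cd G κ A x y * (f x - f y) := dl_mulVec _ f x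
      rw [h2, Finset.mul_sum]
      exact Finset.sum_congr rfl fun y _ => by ring
    have h2 : qf (KK G) (fun x => κ x * f x) = ∑ x, ∑ y, f x * (cd G κ A x y * f y) := by
      unfold qf
      refine Finset.sum_congr rfl fun x _ => ?_
      simp only [Matrix.mulVec, dotProduct]
      rw [Finset.mul_sum]
      refine Finset.sum_congr rfl fun y _ => ?_
      unfold cd
      by_cases hx : x ∈ A
      · by_cases hy : y ∈ A
        · rw [if_pos ⟨hx, hy⟩]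
          ring
        · rw [hf y hy]
          ring
      · rw [hf x hx]
        ring
    have h3 : ∑ x, ∑ y, cd G κ A x y * f x ^ 2 = ∑ x ∈ A, κ x * rho G κ A x * f x ^ 2 := by
      rw [← sum_if_mem A (fun x => κ x * rho G κ A x * f x ^ 2)]
      refine Finset.sum_congr rfl fun x _ => ?_
      rw [← Finset.sum_mul, cd_sum]
      split_ifs <;> ring
    rw [← h3, h1, h2]
    rw [← Finset.sum_sub_distrib]
    refine Finset.sum_congr rfl fun x _ => ?_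
    rw [← Finset.sum_sub_distrib]
    exact Finset.sum_congr rfl fun y _ => by ring
  · intro x
    have h1 := congrArg Complex.re (hN.hw x x)
    rw [Complex.re_sum, Complex.ofReal_re] at h1
    rw [← h1]
    unfold rho
    have h2 : ∀ y, ((κ y : ℂ) * (G x y * (starRingEnd ℂ) (G x y))).re = κ y * KK G x y := by
      intro y
      rw [Complex.mul_conj, ← Complex.ofReal_mul, Complex.ofReal_re, Complex.normSq_eq_norm_sq]
      rfl
    rw [Finset.sum_congr rfl fun y _ => h2 y]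
    exact Finset.sum_add_sum_compl A fun y => κ y * KK G x y

end Pool.Agent.AFL.H56
end
end -- Pool.Agent.Helper56_AFL.EUB

section -- Pool.Agent.Helper56_AFL.PTA

/-!
# Squad AFL, row PTA (helper56): numbers at a point
-/

set_option autoImplicit false

open MeasureTheory ProbabilityTheory

open scoped BigOperators Matrix

noncomputable section

namespace Pool.Agent.AFL.H56

open Pool.Agent.LE.QF Pool.Agent.AFJ Pool.Agent.ABY Pool.Agent.AFL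

theorem pta : PtaStmt := by
  intro eub X _ _ F c₀ C₀ q hO hP hN hN0
  obtain ⟨hκv, hκv1, hr1, hc0, hc1, hC1, hNn, hδ, hL, hω, hω1, hε, hε1, hs1, hs2, hε₁, hε₁1, hδY,
    hn, hnL⟩ := hO.num
  obtain ⟨ht0, htT⟩ := hP.ht
  obtain ⟨hbU, hURg, hRgA⟩ := hO.hb
  obtain ⟨hbQ1, hQ1Q, hQA⟩ := hO.hQ
  have hbRg : F.b ⊆ F.Rg := hbU.trans hURg
  have hbA : F.b ⊆ F.A := hbRg.trans hRgA
  have hbR : F.b ⊆ F.R := fun x hx => Finset.mem_inter.2 ⟨hbRg hx, hQ1Q (hbQ1 hx)⟩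
  -- the absorption
  have hkb : ∀ t : ℝ, ∀ x ∈ F.b, F.k t x = F.k 0 x - t * F.g x := by
    intro t x hx
    unfold Fl.k Blk.kp Fl.g
    rw [if_pos hx, if_pos hx]
    ring
  have hkn : ∀ t : ℝ, ∀ x, x ∉ F.b → F.k t x = F.k 0 x := by
    intro t x hx
    unfold Fl.k Blk.kp
    rw [if_neg hx, if_neg hx]
  have hgb : ∀ x ∈ F.b, 0 < F.g x := fun x hx => lt_of_lt_of_le hc0 (hO.hg x (hbA hx)).1
  have h4 : ∀ x, F.k F.T x ≤ F.k q.1 x := by
    intro x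
    by_cases hx : x ∈ F.b
    · rw [hkb F.T x hx, hkb q.1 x hx]
      have h1 := mul_le_mul_of_nonneg_right htT (hgb x hx).le
      linarith only [h1]
    · rw [hkn F.T x hx, hkn q.1 x hx]
  have h2 : ∀ x, F.k q.1 x ≤ F.k 0 x := by
    intro x
    by_cases hx : x ∈ F.b
    · rw [hkb _ x hx]
      have h1 := mul_nonneg ht0 (hgb x hx).le
      linarith only [h1]
    · rw [hkn _ x hx]
  have h1 : ∀ x ∈ F.Rg, F.κv ≤ F.k q.1 x := fun x hx => (hO.hv x hx).trans (h4 x)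
  have h3 : ∀ x ∈ F.A, F.k 0 x ≤ 2 * F.k q.1 x := by
    intro x hxA
    by_cases hx : x ∈ F.b
    · have h5 := h1 x (hbRg hx)
      have h6 : q.1 * F.g x ≤ F.T * C₀ :=
        mul_le_mul htT (hO.hg x hxA).2 (hgb x hx).le (ht0.trans htT)
      have h7 := hkb q.1 x hx
      have h8 := hO.hTv.1
      linarith only [h5, h6, h7, h8]
    · have h5 := hO.pos q.1 x ht0 htT
      have h6 := hkn q.1 x hx
      linarith only [h5, h6]
  -- the diagonal entries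
  obtain ⟨hloc, hflux⟩ := hO.loc q ht0 htT
  have hdia : ∀ x ∈ F.A, ‖F.Gt q x x - F.G0 x x‖ ≤ F.δ := by
    intro x hx
    by_cases hx1 : x ∈ F.Q1
    · exact hP.ent x hx1 x hx1
    · exact (hloc x hx hx1).2
  have him : ∀ x ∈ F.A, (F.Gt q x x).im ≤ (F.G0 x x).im + F.δ := by
    intro x hx
    have h5 := (Complex.abs_im_le_norm _).trans (hdia x hx)
    rw [Complex.sub_im] at h5
    linarith only [(abs_le.1 h5).2]
  have h6 : ∀ x ∈ F.Rg, ‖F.Gt q x x - F.mb x‖ ≤ F.μs := by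
    intro x hx
    have h7 : F.Gt q x x - F.mb x = (F.Gt q x x - F.G0 x x) + (F.G0 x x - F.mb x) := by ring
    rw [h7]
    refine (norm_add_le _ _).trans ?_
    have h8 := hdia x (hRgA hx)
    have h9 := hO.hmu x hx
    unfold Fl.μs
    linarith only [h8, h9]
  have hμs0 : 0 ≤ F.μs := by
    unfold Fl.μs
    positivity
  have h8 : ∀ x ∈ F.Q, (F.Gt q x x).im ≤ F.r ∧ (F.G0 x x).im ≤ F.r := by
    intro x hx
    have h9 := hO.him x hx
    have h10 := him x (hQA hx)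
    exact ⟨by linarith only [h9, h10], by linarith only [hδ, h9]⟩
  have h9 : ∀ x ∈ F.Rg, (F.Gt q x x).im ≤ F.g x + F.μs ∧ (F.Gt q x x).im ≤ 3 / 2 * F.g x := by
    intro x hx
    have h10 := (Complex.abs_im_le_norm _).trans (h6 x hx)
    rw [Complex.sub_im] at h10
    have h11 : (F.Gt q x x).im ≤ F.g x + F.μs := by
      have h12 := (abs_le.1 h10).2
      unfold Fl.g
      linarith only [h12]
    refine ⟨h11, ?_⟩
    have h12 : F.μs ≤ c₀ / 2 := by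
      have h13 := hO.hδ
      unfold Fl.μs
      linarith only [hδ, h13]
    have h13 := (hO.hg x (hRgA hx)).1
    linarith only [h11, h12, h13]
  have h10 : ∀ x ∈ F.Q1, LaR (F.Gt q) F.R x ≤ F.L := by
    intro x hx
    have h11 := hP.lam x hx
    have h12 := hO.hL x hx
    have h13 : F.ω * F.L ≤ 1 / 2 * F.L := mul_le_mul_of_nonneg_right hω1 hL.le
    linarith only [h11, h12, h13]
  have h11 : ∀ x ∈ F.A, ∑ c ∈ F.b, KK (F.Gt q) x c ^ 2 ≤ F.L := by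
    intro x hx
    by_cases hx1 : x ∈ F.Q1
    · refine le_trans ?_ (h10 x hx1)
      unfold LaR
      exact Finset.sum_le_sum_of_subset_of_nonneg hbR fun _ _ _ => sq_nonneg _
    · exact (hloc x hx hx1).1
  -- the total absorption
  have hKn : ∀ (G : Matrix X X ℂ) (x y : X), 0 ≤ KK G x y := by
    intro G x y
    unfold KK
    positivity
  have hfl : ∀ (G : Matrix X X ℂ) (κ : X → ℝ), Net G κ → ∀ x,
      rho G κ F.A x + ∑ y ∈ F.Aᶜ, κ y * KK G x y = (G x x).im :=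
    fun G κ hN => (eub X G κ F.A ∅ 0 hN (Finset.empty_subset _)).2.2.2.2.2
  have hfl0 : ∀ (G : Matrix X X ℂ) (κ : X → ℝ), Net G κ → ∀ x,
      0 ≤ ∑ y ∈ F.Aᶜ, κ y * KK G x y := fun G κ hN x =>
    Finset.sum_nonneg fun y _ => mul_nonneg (hN.hκ y).le (hKn G x y)
  have h13 : ∀ x ∈ F.Q, rho (F.Gt q) (F.k q.1) F.A x ≤ F.r ∧ rho F.G0 (F.k 0) F.A x ≤ F.r := by
    intro x hx
    have a1 := hfl _ _ hN x
    have a2 := hfl0 _ _ hN x
    have a3 := hfl _ _ hN0 x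
    have a4 := hfl0 _ _ hN0 x
    obtain ⟨a5, a6⟩ := h8 x hx
    exact ⟨by linarith only [a1, a2, a5], by linarith only [a3, a4, a6]⟩
  refine ⟨h1, fun x _ => h2 x, h3, h4, hkn q.1, h6, ?_, h8, h9, h10, h11, ?_, h13⟩
  · intro x
    unfold mub
    split_ifs with hx
    · exact h6 x (hbRg hx)
    · rw [norm_zero]
      exact hμs0
  · intro x hx
    refine ⟨?_, (h13 x (hQ1Q (hbQ1 hx))).1⟩
    have a1 := hfl _ _ hN x
    have a2 := hfl0 _ _ hN x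
    have a3 := hflux x hx
    have a4 := (Complex.abs_im_le_norm _).trans (h6 x (hbRg hx))
    rw [Complex.sub_im] at a4
    have a5 : |(F.Gt q x x).im - F.g x| ≤ F.μs := a4
    obtain ⟨a6, a7⟩ := abs_le.1 a5
    have a8 : F.μs = (F.N + 1) * F.δ := rfl
    rw [a8] at a6 a7
    rw [abs_le]
    constructor <;> linarith

end Pool.Agent.AFL.H56
end
end -- Pool.Agent.Helper56_AFL.PTA

section -- Pool.Agent.Helper67_AFJ.L1

/-!
# The smooth part of the noise and the triple sum, with the square of the `ℓ¹` norm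

NBL: `NbsStmt` with `(∑ |φ|)²` instead of `qf S φ`. LTL: `LatStmt` with `S0 (∑ |u|)²`, and with a form
bound only for functions on a part `R'` of the running set (outside of `R'` the entries from `b` are
tiny).
-/

set_option autoImplicit false

open scoped BigOperators Matrix

noncomputable section

namespace Pool.Agent.AFJ.H67

open Pool.Agent.LE.QF Pool.Agent.AFJ

variable {X : Type} [Fintype X] [DecidableEq X]

/-- NBL -/
theorem nbl (hB : BetStmt) (G : Matrix X X ℂ) (κ : X → ℝ) (A b : Finset X) (f : X → ℝ)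
    (κv r : ℝ) (hN : Net G κ) (hκv : 0 < κv) (hr : 0 ≤ r)
    (hκb : ∀ c ∈ b, κv ≤ κ c) (hrho : ∀ c ∈ b, rho G κ A c ≤ r) :
    ∑ c ∈ b, (∑ x ∈ A, |(Ec G κ A c *ᵥ f) x|) ^ 2 ≤ 8 * r / κv * qf (EE G κ A) f := by
  obtain ⟨h1, h2, -, -, h5, h6⟩ := hB X G κ A f hN
  have key1 : ∀ c ∈ b, (∑ x ∈ A, |(Ec G κ A c *ᵥ f) x|) ^ 2 ≤
      4 * (r * ∑ x ∈ A, κ x * ‖bet G κ A f x c‖ ^ 2) := by
    intro c hc
    have a1 : ∑ x ∈ A, |(Ec G κ A c *ᵥ f) x| ≤
        2 * ∑ x ∈ A, (Real.sqrt (κ x) * ‖G x c‖) * (Real.sqrt (κ x) * ‖bet G κ A f x c‖) := by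
      rw [Finset.mul_sum]
      refine Finset.sum_le_sum fun x hx => ?_
      rw [h1 c x hx, abs_neg, abs_mul, abs_mul, abs_two, abs_of_pos (hN.hκ x)]
      have b1 : |(G x c * bet G κ A f x c).re| ≤ ‖G x c‖ * ‖bet G κ A f x c‖ := by
        rw [← norm_mul]; exact Complex.abs_re_le_norm _
      have b2 : Real.sqrt (κ x) * Real.sqrt (κ x) = κ x := Real.mul_self_sqrt (hN.hκ x).le
      calc 2 * κ x * |(G x c * bet G κ A f x c).re|
          ≤ 2 * κ x * (‖G x c‖ * ‖bet G κ A f x c‖) :=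
            mul_le_mul_of_nonneg_left b1 (mul_nonneg zero_le_two (hN.hκ x).le)
        _ = 2 * (Real.sqrt (κ x) * Real.sqrt (κ x) * (‖G x c‖ * ‖bet G κ A f x c‖)) := by
            rw [b2]; ring
        _ = _ := by ring
    have a0 : 0 ≤ ∑ x ∈ A, |(Ec G κ A c *ᵥ f) x| := Finset.sum_nonneg fun x _ => abs_nonneg _
    have a2 := Finset.sum_mul_sq_le_sq_mul_sq A (fun x => Real.sqrt (κ x) * ‖G x c‖)
      (fun x => Real.sqrt (κ x) * ‖bet G κ A f x c‖)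
    have a3 : ∑ x ∈ A, (Real.sqrt (κ x) * ‖G x c‖) ^ 2 = rho G κ A c := by
      rw [rho]
      refine Finset.sum_congr rfl fun x _ => ?_
      rw [mul_pow, Real.sq_sqrt (hN.hκ x).le, KK, hN.hs c x]
    have a4 : ∑ x ∈ A, (Real.sqrt (κ x) * ‖bet G κ A f x c‖) ^ 2 =
        ∑ x ∈ A, κ x * ‖bet G κ A f x c‖ ^ 2 :=
      Finset.sum_congr rfl fun x _ => by rw [mul_pow, Real.sq_sqrt (hN.hκ x).le]
    rw [a3, a4] at a2
    have a5 : 0 ≤ ∑ x ∈ A, κ x * ‖bet G κ A f x c‖ ^ 2 :=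
      Finset.sum_nonneg fun x _ => mul_nonneg (hN.hκ x).le (sq_nonneg _)
    calc (∑ x ∈ A, |(Ec G κ A c *ᵥ f) x|) ^ 2
        ≤ (2 * ∑ x ∈ A, (Real.sqrt (κ x) * ‖G x c‖) *
            (Real.sqrt (κ x) * ‖bet G κ A f x c‖)) ^ 2 := pow_le_pow_left₀ a0 a1 2
      _ = 4 * (∑ x ∈ A, (Real.sqrt (κ x) * ‖G x c‖) *
            (Real.sqrt (κ x) * ‖bet G κ A f x c‖)) ^ 2 := by ring
      _ ≤ 4 * (rho G κ A c * ∑ x ∈ A, κ x * ‖bet G κ A f x c‖ ^ 2) :=
          mul_le_mul_of_nonneg_left a2 (by norm_num)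
      _ ≤ _ := mul_le_mul_of_nonneg_left
          (mul_le_mul_of_nonneg_right (hrho c hc) a5) (by norm_num)
  have key2 : ∑ c ∈ b, ∑ x ∈ A, κ x * ‖bet G κ A f x c‖ ^ 2 ≤ 2 / κv * qf (EE G κ A) f := by
    rw [Finset.sum_comm, h6]
    have c1 : ∀ x ∈ A, ∑ c ∈ b, κ x * ‖bet G κ A f x c‖ ^ 2 ≤ κ x * (DD G κ A f x / κv) := by
      intro x _
      rw [← Finset.mul_sum]
      refine mul_le_mul_of_nonneg_left ?_ (hN.hκ x).le
      rw [le_div_iff₀ hκv, Finset.sum_mul]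
      refine (Finset.sum_le_sum fun c hc => ?_).trans (h5 x b)
      rw [mul_comm]
      exact mul_le_mul_of_nonneg_right (hκb c hc) (sq_nonneg _)
    refine (Finset.sum_le_sum c1).trans (le_of_eq ?_)
    rw [← mul_assoc, Finset.mul_sum]
    refine Finset.sum_congr rfl fun x _ => ?_
    ring
  refine (Finset.sum_le_sum key1).trans ?_
  rw [← Finset.mul_sum, ← Finset.mul_sum]
  calc 4 * (r * ∑ c ∈ b, ∑ x ∈ A, κ x * ‖bet G κ A f x c‖ ^ 2)
      ≤ 4 * (r * (2 / κv * qf (EE G κ A) f)) :=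
        mul_le_mul_of_nonneg_left (mul_le_mul_of_nonneg_left key2 hr) (by norm_num)
    _ = _ := by ring

/-- the smooth part for a form which is bounded by the square of the `ℓ¹` norm and by the weighted
square sum -/
theorem nbx (hB : BetStmt) (hW : NbwStmt) (G : Matrix X X ℂ) (κ : X → ℝ) (A b : Finset X)
    (f : X → ℝ) (N : (X → ℝ) → ℝ) (κv Λ r p S0 : ℝ) (hN : Net G κ) (hκv : 0 < κv) (hΛ : 0 ≤ Λ)
    (hr : 0 ≤ r) (hp : 0 ≤ p) (hS0 : 0 ≤ S0)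
    (hκb : ∀ c ∈ b, κv ≤ κ c) (hrho : ∀ c ∈ b, rho G κ A c ≤ r)
    (hLa : ∀ x ∈ A, ∑ c ∈ b, KK G x c ^ 2 ≤ Λ)
    (hNf : ∀ φ : X → ℝ, (∀ x, x ∉ A → φ x = 0) →
      N φ ≤ p * ∑ x ∈ A, φ x ^ 2 / κ x + S0 * (∑ x ∈ A, |φ x|) ^ 2) :
    ∑ c ∈ b, N (Ec G κ A c *ᵥ f) ≤
      (p * (8 * Real.sqrt (r * Λ / κv)) + S0 * (8 * r / κv)) * qf (EE G κ A) f := by
  have h1 := hW hB X G κ A b f κv Λ r hN hκv hΛ hr hκb hrho hLa
  have h2 := nbl hB G κ A b f κv r hN hκv hr hκb hrho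
  obtain ⟨-, h3, -, -, -, -⟩ := hB X G κ A f hN
  calc ∑ c ∈ b, N (Ec G κ A c *ᵥ f)
      ≤ ∑ c ∈ b, (p * ∑ x ∈ A, (Ec G κ A c *ᵥ f) x ^ 2 / κ x +
          S0 * (∑ x ∈ A, |(Ec G κ A c *ᵥ f) x|) ^ 2) :=
        Finset.sum_le_sum fun c _ => hNf _ (h3 c)
    _ = p * (∑ c ∈ b, ∑ x ∈ A, (Ec G κ A c *ᵥ f) x ^ 2 / κ x) +
          S0 * ∑ c ∈ b, (∑ x ∈ A, |(Ec G κ A c *ᵥ f) x|) ^ 2 := by
        rw [Finset.sum_add_distrib, Finset.mul_sum, Finset.mul_sum]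
    _ ≤ p * (8 * Real.sqrt (r * Λ / κv) * qf (EE G κ A) f) +
          S0 * (8 * r / κv * qf (EE G κ A) f) :=
        add_le_add (mul_le_mul_of_nonneg_left h1 hp) (mul_le_mul_of_nonneg_left h2 hS0)
    _ = _ := by ring

/-- LTL -/
theorem ltl (G : Matrix X X ℂ) (κ : X → ℝ) (b R R' : Finset X) (x : X) (κR a r S0 τ : ℝ)
    (hN : Net G κ) (hbR : b ⊆ R') (hRR : R' ⊆ R) (hκR : 0 < κR) (ha : 0 ≤ a) (hS0 : 0 ≤ S0)
    (hτ : 0 ≤ τ) (hκ : ∀ c ∈ R, κR ≤ κ c) (hr : (∑ c ∈ R, κ c * KK G x c) ≤ r)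
    (hK : ∀ u : X → ℝ, (∀ y, y ∉ R' → u y = 0) →
      qf (KK G) u ≤ a * ∑ y, u y ^ 2 + S0 * (∑ y, |u y|) ^ 2)
    (hf : ∀ y ∈ R, y ∉ R' → ∀ c ∈ b, KK G c y ≤ τ) :
    ∑ y ∈ R, ∑ c ∈ b, KK G x y * KK G x c * KK G c y ≤
      a * LaR G R x + (S0 + τ) * (r / κR) ^ 2 := by
  have hK0 : ∀ x y, 0 ≤ KK G x y := fun x y => sq_nonneg _
  have hsum : ∑ y ∈ R, KK G x y ≤ r / κR := by
    rw [le_div_iff₀ hκR, Finset.sum_mul]
    refine (Finset.sum_le_sum fun y hy => ?_).trans hr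
    rw [mul_comm]
    exact mul_le_mul_of_nonneg_right (hκ y hy) (hK0 _ _)
  have hs0 : 0 ≤ ∑ y ∈ R, KK G x y := Finset.sum_nonneg fun y _ => hK0 _ _
  have hsum' : ∑ y ∈ R', KK G x y ≤ r / κR :=
    (Finset.sum_le_sum_of_subset_of_nonneg hRR fun y _ _ => hK0 _ _).trans hsum
  have hs0' : 0 ≤ ∑ y ∈ R', KK G x y := Finset.sum_nonneg fun y _ => hK0 _ _
  have hsumb : ∑ c ∈ b, KK G x c ≤ r / κR :=
    (Finset.sum_le_sum_of_subset_of_nonneg (hbR.trans hRR) fun y _ _ => hK0 _ _).trans hsum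
  have hsb0 : 0 ≤ ∑ c ∈ b, KK G x c := Finset.sum_nonneg fun y _ => hK0 _ _
  -- the near part
  set u : X → ℝ := fun y => if y ∈ R' then KK G x y else 0 with hu
  have hu0 : ∀ y, 0 ≤ u y := fun y => by
    simp only [hu]
    split_ifs
    · exact hK0 _ _
    · exact le_rfl
  have e1 : ∑ y, u y ^ 2 = ∑ y ∈ R', KK G x y ^ 2 := by
    rw [← Finset.sum_subset (Finset.subset_univ R')]
    · exact Finset.sum_congr rfl fun y hy => by simp only [hu, if_pos hy]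
    · intro y _ hy
      simp only [hu, if_neg hy]
      norm_num
  have e2 : ∑ y, |u y| = ∑ y ∈ R', KK G x y := by
    rw [← Finset.sum_subset (Finset.subset_univ R')]
    · exact Finset.sum_congr rfl fun y hy => by simp only [hu, if_pos hy, abs_of_nonneg (hK0 x y)]
    · intro y _ hy
      simp only [hu, if_neg hy, abs_zero]
  have e3 : ∑ y ∈ R', ∑ c ∈ b, KK G x y * KK G x c * KK G c y ≤ qf (KK G) u := by
    have f1 : qf (KK G) u = ∑ y ∈ R', ∑ c ∈ R', KK G x y * KK G x c * KK G c y := by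
      rw [qf, ← Finset.sum_subset (Finset.subset_univ R')]
      · refine Finset.sum_congr rfl fun y hy => ?_
        simp only [Matrix.mulVec, dotProduct]
        rw [← Finset.sum_subset (Finset.subset_univ R'), Finset.mul_sum]
        · refine Finset.sum_congr rfl fun c hc => ?_
          simp only [hu, if_pos hy, if_pos hc]
          have : KK G c y = KK G y c := by simp only [KK]; rw [hN.hs c y]
          rw [this]
          ring
        · intro c _ hc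
          simp only [hu, if_neg hc, mul_zero]
      · intro y _ hy
        simp only [hu, if_neg hy, zero_mul]
    rw [f1]
    refine Finset.sum_le_sum fun y _ => ?_
    exact Finset.sum_le_sum_of_subset_of_nonneg hbR fun c _ _ =>
      mul_nonneg (mul_nonneg (hK0 _ _) (hK0 _ _)) (hK0 _ _)
  have e4 := hK u fun y hy => by simp only [hu, if_neg hy]
  rw [e1, e2] at e4
  have e5 : ∑ y ∈ R', KK G x y ^ 2 ≤ LaR G R x :=
    Finset.sum_le_sum_of_subset_of_nonneg hRR fun y _ _ => sq_nonneg _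
  have near : ∑ y ∈ R', ∑ c ∈ b, KK G x y * KK G x c * KK G c y ≤
      a * LaR G R x + S0 * (r / κR) ^ 2 := by
    refine e3.trans (e4.trans (add_le_add (mul_le_mul_of_nonneg_left e5 ha) ?_))
    exact mul_le_mul_of_nonneg_left (pow_le_pow_left₀ hs0' hsum' 2) hS0
  -- the far part
  have far : ∑ y ∈ R \ R', ∑ c ∈ b, KK G x y * KK G x c * KK G c y ≤ τ * (r / κR) ^ 2 := by
    have g1 : ∀ y ∈ R \ R', ∑ c ∈ b, KK G x y * KK G x c * KK G c y ≤
        KK G x y * (τ * ∑ c ∈ b, KK G x c) := by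
      intro y hy
      rw [Finset.mem_sdiff] at hy
      rw [Finset.mul_sum, Finset.mul_sum]
      refine Finset.sum_le_sum fun c hc => ?_
      have := hf y hy.1 hy.2 c hc
      calc KK G x y * KK G x c * KK G c y ≤ KK G x y * KK G x c * τ :=
            mul_le_mul_of_nonneg_left this (mul_nonneg (hK0 _ _) (hK0 _ _))
        _ = _ := by ring
    refine (Finset.sum_le_sum g1).trans ?_
    rw [← Finset.sum_mul]
    have g2 : ∑ y ∈ R \ R', KK G x y ≤ r / κR :=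
      (Finset.sum_le_sum_of_subset_of_nonneg Finset.sdiff_subset fun y _ _ => hK0 _ _).trans hsum
    have hq : 0 ≤ r / κR := hs0.trans hsum
    calc (∑ y ∈ R \ R', KK G x y) * (τ * ∑ c ∈ b, KK G x c)
        ≤ (r / κR) * (τ * (r / κR)) :=
          mul_le_mul g2 (mul_le_mul_of_nonneg_left hsumb hτ) (mul_nonneg hτ hsb0) hq
      _ = _ := by ring
  have hsplit : ∑ y ∈ R, ∑ c ∈ b, KK G x y * KK G x c * KK G c y =
      (∑ y ∈ R \ R', ∑ c ∈ b, KK G x y * KK G x c * KK G c y) +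
        ∑ y ∈ R', ∑ c ∈ b, KK G x y * KK G x c * KK G c y := (Finset.sum_sdiff hRR).symm
  rw [hsplit]
  calc _ ≤ τ * (r / κR) ^ 2 + (a * LaR G R x + S0 * (r / κR) ^ 2) := add_le_add far near
    _ = _ := by ring

end Pool.Agent.AFJ.H67
end
end -- Pool.Agent.Helper67_AFJ.L1

section -- Pool.Agent.Helper67_AFL.NBL

/-!
# Rows NBL, LTL of the block lemma
-/

set_option autoImplicit false

open scoped BigOperators Matrix

noncomputable section

namespace Pool.Agent.AFL.H67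

open Pool.Agent.LE.QF Pool.Agent.AFJ Pool.Agent.AFL

theorem nbl : NblStmt := fun hB X _ _ G κ A b f κv r hN hκv hr hκb hrho =>
  AFJ.H67.nbl hB G κ A b f κv r hN hκv hr hκb hrho

theorem ltl : LtlStmt := by
  intro X _ _ G κ b R x κR a r S0 hN hb hκR hκ hr hS0 hK
  have hK0 : ∀ x y, 0 ≤ KK G x y := fun x y => sq_nonneg _
  have hsum : ∑ y ∈ R, KK G x y ≤ r / κR := by
    rw [le_div_iff₀ hκR, Finset.sum_mul]
    refine (Finset.sum_le_sum fun y hy => ?_).trans hr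
    rw [mul_comm]
    exact mul_le_mul_of_nonneg_right (hκ y hy) (hK0 _ _)
  have hs0 : 0 ≤ ∑ y ∈ R, KK G x y := Finset.sum_nonneg fun y _ => hK0 _ _
  set u : X → ℝ := fun y => if y ∈ R then KK G x y else 0 with hu
  have e1 : ∑ y, u y ^ 2 = LaR G R x := by
    rw [LaR, ← Finset.sum_subset (Finset.subset_univ R)]
    · exact Finset.sum_congr rfl fun y hy => by simp only [hu, if_pos hy]
    · intro y _ hy
      simp only [hu, if_neg hy]
      norm_num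
  have e2 : ∑ y, |u y| = ∑ y ∈ R, KK G x y := by
    rw [← Finset.sum_subset (Finset.subset_univ R)]
    · exact Finset.sum_congr rfl fun y hy => by simp only [hu, if_pos hy, abs_of_nonneg (hK0 x y)]
    · intro y _ hy
      simp only [hu, if_neg hy, abs_zero]
  have e3 : ∑ y ∈ R, ∑ c ∈ b, KK G x y * KK G x c * KK G c y ≤ qf (KK G) u := by
    have f1 : qf (KK G) u = ∑ y ∈ R, ∑ c ∈ R, KK G x y * KK G x c * KK G c y := by
      rw [qf, ← Finset.sum_subset (Finset.subset_univ R)]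
      · refine Finset.sum_congr rfl fun y hy => ?_
        simp only [Matrix.mulVec, dotProduct]
        rw [← Finset.sum_subset (Finset.subset_univ R), Finset.mul_sum]
        · refine Finset.sum_congr rfl fun c hc => ?_
          simp only [hu, if_pos hy, if_pos hc]
          have : KK G c y = KK G y c := by simp only [KK]; rw [hN.hs c y]
          rw [this]
          ring
        · intro c _ hc
          simp only [hu, if_neg hc, mul_zero]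
      · intro y _ hy
        simp only [hu, if_neg hy, zero_mul]
    rw [f1]
    refine Finset.sum_le_sum fun y _ => ?_
    exact Finset.sum_le_sum_of_subset_of_nonneg hb fun c _ _ =>
      mul_nonneg (mul_nonneg (hK0 _ _) (hK0 _ _)) (hK0 _ _)
  have e4 := hK u fun y hy => by simp only [hu, if_neg hy]
  rw [e1, e2] at e4
  exact e3.trans (e4.trans (add_le_add le_rfl
    (mul_le_mul_of_nonneg_left (pow_le_pow_left₀ hs0 hsum 2) hS0)))

end Pool.Agent.AFL.H67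
end
end -- Pool.Agent.Helper67_AFL.NBL

section -- Pool.Agent.Helper81_AFL.PTY

/-!
# Squad AFL, row PTY (helper81): the pair of block Y
-/

set_option autoImplicit false

open MeasureTheory ProbabilityTheory

open scoped BigOperators Matrix

noncomputable section

namespace Pool.Agent.AFL.H81

open Pool.Agent.LE.QF Pool.Agent.AFJ Pool.Agent.ABY Pool.Agent.AFL

/-- the situation of block Y at a point where the diagonal entries are close to the start -/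
theorem ybl {X : Type} [Fintype X] [DecidableEq X] (F : Fl X) (c₀ C₀ : ℝ) (q : ℝ × (F.b → ℝ))
    (hO : F.Ok c₀ C₀) (hN : Net (F.Gt q) (F.k q.1)) (ht0 : 0 ≤ q.1) (htT : q.1 ≤ F.T)
    (hdia : ∀ x ∈ F.A, ‖F.Gt q x x - F.G0 x x‖ ≤ F.δ) (Λ : ℝ) (hΛ0 : 0 ≤ Λ)
    (hΛ : ∀ a ∈ F.Rg, ∑ c ∈ F.b, KK (F.Gt q) a c ^ 2 ≤ Λ) :
    YBl (F.Gt q) (F.k q.1) (F.Pf q.1) F.w F.g (mub (F.Gt q) F.mb F.b) F.b F.U F.Rg c₀ C₀ F.κv
      F.μs Λ := by
  obtain ⟨hκv, hκv1, hr1, hc0, hc1, hC1, hNn, hδ, hL, hω, hω1, hε, hε1, hs1, hs2, hε₁, hε₁1, hδY,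
    hn, hnL⟩ := hO.num
  obtain ⟨hbU, hURg, hRgA⟩ := hO.hb
  have hbRg : F.b ⊆ F.Rg := hbU.trans hURg
  have hbA : F.b ⊆ F.A := hbRg.trans hRgA
  have hkb : ∀ t : ℝ, ∀ x ∈ F.b, F.k t x = F.k 0 x - t * F.g x := by
    intro t x hx
    unfold Fl.k Blk.kp Fl.g
    rw [if_pos hx, if_pos hx]
    ring
  have hkn : ∀ t : ℝ, ∀ x, x ∉ F.b → F.k t x = F.k 0 x := by
    intro t x hx
    unfold Fl.k Blk.kp
    rw [if_neg hx, if_neg hx]
  have hg0 : ∀ x ∈ F.A, 0 < F.g x := fun x hx => lt_of_lt_of_le hc0 (hO.hg x hx).1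
  have h4 : ∀ x, F.k F.T x ≤ F.k q.1 x := by
    intro x
    by_cases hx : x ∈ F.b
    · rw [hkb F.T x hx, hkb q.1 x hx]
      have h1 := mul_le_mul_of_nonneg_right htT (hg0 x (hbA hx)).le
      linarith only [h1]
    · rw [hkn F.T x hx, hkn q.1 x hx]
  have hμs0 : 0 ≤ F.μs := by
    unfold Fl.μs
    positivity
  have h6 : ∀ x ∈ F.Rg, ‖F.Gt q x x - F.mb x‖ ≤ F.μs := by
    intro x hx
    have h7 : F.Gt q x x - F.mb x = (F.Gt q x x - F.G0 x x) + (F.G0 x x - F.mb x) := by ring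
    rw [h7]
    refine (norm_add_le _ _).trans ?_
    have h8 := hdia x (hRgA hx)
    have h9 := hO.hmu x hx
    unfold Fl.μs
    linarith only [h8, h9]
  have h9 : ∀ x ∈ F.Rg, (F.Gt q x x).im ≤ 3 / 2 * F.g x := by
    intro x hx
    have h10 := (Complex.abs_im_le_norm _).trans (h6 x hx)
    rw [Complex.sub_im] at h10
    have h11 : (F.Gt q x x).im ≤ F.g x + F.μs := by
      have h12 := (abs_le.1 h10).2
      unfold Fl.g
      linarith only [h12]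
    have h12 : F.μs ≤ c₀ / 2 := by
      have h13 := hO.hδ
      unfold Fl.μs
      linarith only [hδ, h13]
    have h13 := (hO.hg x (hRgA hx)).1
    linarith only [h11, h12, h13]
  obtain ⟨hP0, hPU, hPb, hP2⟩ := hO.hP
  obtain ⟨hw1, hw2⟩ := hO.hw
  have hPf : ∀ x, F.Pf q.1 x ≤ F.P0 x := by
    intro x
    unfold Fl.Pf ind
    split_ifs
    · linarith only [ht0]
    · linarith only
  refine ⟨hN, ⟨hc0, hc1, hC1, hκv, hκv1, hμs0, hΛ0⟩, ⟨hbU, hURg⟩, ?_, ⟨?_, ?_, ?_⟩, ⟨?_, hw2⟩, ?_,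
    ⟨?_, ?_⟩, hΛ⟩
  · intro a ha
    exact ⟨(hO.hg a (hRgA ha)).1, (hO.hg a (hRgA ha)).2, h9 a ha⟩
  · intro x
    unfold Fl.Pf ind
    split_ifs with h
    · have := hPb x h
      linarith only [htT, this]
    · have := hP0 x
      linarith only [this]
  · intro x hx
    have hxb : x ∉ F.b := fun h => hx (hbU h)
    unfold Fl.Pf ind
    rw [if_neg hxb, hPU x hx]
    ring
  · intro x hx
    have h1 := hP2 x hx
    have h2 := mul_le_mul_of_nonneg_right (hPf x) (hg0 x (hRgA (hURg hx))).le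
    have h3 := h4 x
    linarith only [h1, h2, h3]
  · intro x
    exact ⟨(hw1 x).1, (hw1 x).2.trans (h4 x)⟩
  · intro c hc
    exact (hO.hv c (hbRg hc)).trans (h4 c)
  · intro c hc
    unfold mub
    rw [if_pos hc]
    exact h6 c (hbRg hc)
  · intro c hc
    unfold mub
    rw [if_neg hc]

/-- row PTY -/
theorem pty : PtyStmt := by
  intro JAL JMA BKJ ENB CMP VEX TSP VJT VGR VDR VBL _EUB PTA c₀ C₀
  obtain ⟨C, hC1, H⟩ := VBL JAL JMA BKJ ENB CMP VEX TSP VJT VGR VDR c₀ C₀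
  refine ⟨C, hC1, ?_⟩
  intro X _ _ F q hO hBJ hN hN0
  obtain ⟨hκv, hκv1, hr1, hc0, hc1, hC1', hNn, hδ, hL, -⟩ := hO.num
  obtain ⟨hbU, hURg, hRgA⟩ := hO.hb
  have hPf : ∀ x, ContDiffAt ℝ 2 (fun t => F.Pf t x) q.1 ∧ F.Pf q.1 x = F.Pf q.1 x ∧
      deriv (fun t => F.Pf t x) q.1 = -ind F.b x := by
    intro x
    unfold Fl.Pf
    refine ⟨?_, rfl, ?_⟩
    · exact contDiffAt_const.sub (contDiffAt_const.mul contDiffAt_id)
    · have h1 : HasDerivAt (fun t : ℝ => F.P0 x - ind F.b x * t) (0 - ind F.b x * 1) q.1 :=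
        (hasDerivAt_const _ _).sub ((hasDerivAt_id _).const_mul _)
      rw [h1.deriv]
      ring
  refine ⟨?_, ?_⟩
  · intro hPt a ha
    obtain ⟨ht0, htT⟩ := hPt.ht
    have hdia : ∀ x ∈ F.A, ‖F.Gt q x x - F.G0 x x‖ ≤ F.δ := by
      intro x hx
      by_cases hx1 : x ∈ F.Q1
      · exact hPt.ent x hx1 x hx1
      · exact ((hO.loc q ht0 htT).1 x hx hx1).2
    obtain ⟨-, -, -, -, -, -, -, -, -, -, h11, -⟩ := PTA _EUB X F c₀ C₀ q hO hPt hN hN0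
    have hY := ybl F c₀ C₀ q hO hN ht0 htT hdia F.L hL.le fun a ha => h11 a (hRgA ha)
    exact H X F.b q F.Gt F.k (F.Gt q) (F.k q.1) F.mb F.Pf (F.Pf q.1) F.w F.g F.U F.Rg F.κv F.μs
      F.L hBJ hPf hY a ha
  · intro ht0 htT hent a ha
    have hdia : ∀ x ∈ F.A, ‖F.Gt q x x - F.G0 x x‖ ≤ F.δ := by
      intro x hx
      by_cases hx1 : x ∈ F.Q1
      · exact hent x hx1
      · exact ((hO.loc q ht0 htT).1 x hx hx1).2
    have hnn : ∀ a, 0 ≤ ∑ c ∈ F.b, KK (F.Gt q) a c ^ 2 := fun a =>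
      Finset.sum_nonneg fun c _ => sq_nonneg _
    have hY := ybl F c₀ C₀ q hO hN ht0 htT hdia (∑ a ∈ F.Rg, ∑ c ∈ F.b, KK (F.Gt q) a c ^ 2)
      (Finset.sum_nonneg fun a _ => hnn a)
      fun a ha => Finset.single_le_sum (f := fun a => ∑ c ∈ F.b, KK (F.Gt q) a c ^ 2)
        (fun a _ => hnn a) ha
    obtain ⟨⟨g1, l1, j1, -⟩, g2, l2, j2, -⟩ := H X F.b q F.Gt F.k (F.Gt q) (F.k q.1) F.mb F.Pf
      (F.Pf q.1) F.w F.g F.U F.Rg F.κv F.μs _ hBJ hPf hY a ha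
    exact ⟨j1.sm, j2.sm⟩

end Pool.Agent.AFL.H81
end
end -- Pool.Agent.Helper81_AFL.PTY

section -- Pool.Agent.Helper82_AFL.KUP

/-!
# Squad AFL, row KUP (helper82): the bound of `K` on the running sites of the box
-/

set_option autoImplicit false

open scoped BigOperators Matrix

noncomputable section

namespace Pool.Agent.AFL.H82

open Pool.Agent.LE.QF Pool.Agent.AFJ Pool.Agent.ABY Pool.Agent.AFL

theorem kup : KupStmt := by
  intro eub pta X _ _ F c₀ C₀ q hO hP hN hN0 u hu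
  obtain ⟨hκv, hκv1, hr1, hc0, hc1, hC1, hNn, hδ, hL, hω, hω1, hε, hε1, hs1, hs2, hε₁, hε₁1, hδY,
    hn, hnL⟩ := hO.num
  obtain ⟨p1, p2, p3, p4, p5, p6, p7, p8, p9, p10, p11, p12, p13⟩ := pta eub X F c₀ C₀ q hO hP hN hN0
  obtain ⟨hbQ1, hQ1Q, hQA⟩ := hO.hQ
  have hRQ : F.R ⊆ F.Q := Finset.inter_subset_right
  have hRRg : F.R ⊆ F.Rg := Finset.inter_subset_left
  have hRA : F.R ⊆ F.A := hRQ.trans hQA
  have hκ : ∀ x, 0 < F.k q.1 x := hN.hκ
  have hκR : ∀ x ∈ F.R, F.κv ≤ F.k q.1 x := fun x hx => p1 x (hRRg hx)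
  have hgR : ∀ x ∈ F.R, 0 < F.g x ∧ F.g x ≤ C₀ := fun x hx =>
    ⟨lt_of_lt_of_le hc0 (hO.hg x (hRA hx)).1, (hO.hg x (hRA hx)).2⟩
  have hKn : ∀ (G : Matrix X X ℂ) (x y : X), 0 ≤ KK G x y := by
    intro G x y
    unfold KK
    positivity
  set f : X → ℝ := fun x => u x / F.k q.1 x with hf
  set φ : X → ℝ := fun x => if x ∈ F.R then F.g x * u x else 0 with hφ
  have hfR : ∀ x, x ∉ F.R → f x = 0 := fun x hx => by
    simp only [hf, hu x hx, zero_div]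
  have hfQ : ∀ x, x ∉ F.Q → f x = 0 := fun x hx => hfR x fun h => hx (hRQ h)
  have hfA : ∀ x, x ∉ F.A → f x = 0 := fun x hx => hfR x fun h => hx (hRA h)
  have hφR : ∀ x, x ∉ F.R → φ x = 0 := fun x hx => by simp only [hφ, if_neg hx]
  have hκf : (fun x => F.k q.1 x * f x) = u := by
    funext x
    simp only [hf]
    rw [mul_div_cancel₀ _ (hκ x).ne']
  -- sums over `A` are sums over `R`
  have hsub : ∀ h : X → ℝ, (∀ x, x ∉ F.R → h x = 0) → ∑ x ∈ F.A, h x = ∑ x ∈ F.R, h x :=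
    fun h hh => (Finset.sum_subset hRA fun x _ hx => hh x hx).symm
  have hsub' : ∀ h : X → ℝ, (∀ x, x ∉ F.R → h x = 0) → ∑ x, h x = ∑ x ∈ F.R, h x :=
    fun h hh => (Finset.sum_subset (Finset.subset_univ _) fun x _ hx => hh x hx).symm
  -- the identity for `K`
  have e1 := (eub X (F.Gt q) (F.k q.1) F.A ∅ f hN (Finset.empty_subset _)).2.2.2.2.1 hfA
  rw [hκf, hsub _ fun x hx => by rw [hfR x hx]; ring] at e1
  have hEt : F.Et q = EE (F.Gt q) (F.k q.1) F.A := rfl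
  have hE0 : F.E0 = EE F.G0 (F.k 0) F.A := rfl
  -- the form at the start
  have e2 := (eub X F.G0 (F.k 0) F.A ∅ f hN0 (Finset.empty_subset _)).2.2.1
  rw [hsub _ fun x hx => by rw [hfR x hx]; ring] at e2
  have e3 : ∑ x ∈ F.R, F.k 0 x * rho F.G0 (F.k 0) F.A x * f x ^ 2 ≤
      2 * F.r * ∑ x ∈ F.R, F.k q.1 x * f x ^ 2 := by
    rw [Finset.mul_sum]
    refine Finset.sum_le_sum fun x hx => ?_
    have a1 := (p13 x (hRQ hx)).2
    have a2 := p3 x (hRA hx)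
    have a3 := hN0.hκ x
    have a4 : F.k 0 x * rho F.G0 (F.k 0) F.A x ≤ 2 * F.k q.1 x * F.r := by
      refine (mul_le_mul_of_nonneg_left a1 a3.le).trans ?_
      exact mul_le_mul_of_nonneg_right a2 (by linarith only [hr1, hω, hω1])
    have a5 := mul_le_mul_of_nonneg_right a4 (sq_nonneg (f x))
    linarith only [a5]
  have e4 : qf F.E0 f ≤ 4 * F.r * ∑ x ∈ F.R, F.k q.1 x * f x ^ 2 := by
    rw [hE0]
    linarith only [e2, e3]
  -- the lower bound of the form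
  have e5 := hP.frl f φ hfQ hφR
  have e6 : ∑ x, f x * φ x = ∑ x ∈ F.R, F.k q.1 x * F.g x * f x ^ 2 := by
    rw [hsub' _ fun x hx => by rw [hfR x hx, zero_mul]]
    refine Finset.sum_congr rfl fun x hx => ?_
    simp only [hφ, if_pos hx, hf]
    have := (hκ x).ne'
    field_simp
  have e7 : ∑ x ∈ F.R, φ x ^ 2 / (F.k q.1 x * F.g x) =
      ∑ x ∈ F.R, F.k q.1 x * F.g x * f x ^ 2 := by
    refine Finset.sum_congr rfl fun x hx => ?_
    simp only [hφ, if_pos hx, hf]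
    have h1 := (hκ x).ne'
    have h2 := (hgR x hx).1.ne'
    field_simp
  have e8 : (∑ x, |φ x|) ^ 2 ≤ C₀ ^ 2 * (∑ y, |u y|) ^ 2 := by
    rw [← mul_pow]
    refine pow_le_pow_left₀ (Finset.sum_nonneg fun x _ => abs_nonneg _) ?_ 2
    rw [Finset.mul_sum]
    refine Finset.sum_le_sum fun x _ => ?_
    by_cases hx : x ∈ F.R
    · simp only [hφ, if_pos hx]
      rw [abs_mul, abs_of_pos (hgR x hx).1]
      exact mul_le_mul_of_nonneg_right (hgR x hx).2 (abs_nonneg _)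
    · simp only [hφ, if_neg hx, abs_zero]
      exact mul_nonneg (by linarith only [hC1, hω, hω1]) (abs_nonneg _)
  rw [e6, e7, hEt] at e5
  -- the difference on the running sites
  have e9 : ∑ x ∈ F.R, F.k q.1 x * rho (F.Gt q) (F.k q.1) F.A x * f x ^ 2 ≤
      (1 - F.ε) * ∑ x ∈ F.R, F.k q.1 x * F.g x * f x ^ 2 +
        (F.μs + F.ε * C₀) * ∑ x ∈ F.R, F.k q.1 x * f x ^ 2 := by
    rw [Finset.mul_sum, Finset.mul_sum, ← Finset.sum_add_distrib]
    refine Finset.sum_le_sum fun x hx => ?_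
    have a1 := (eub X (F.Gt q) (F.k q.1) F.A ∅ f hN (Finset.empty_subset _)).2.2.2.2.2 x
    have a2 : 0 ≤ ∑ y ∈ F.Aᶜ, F.k q.1 y * KK (F.Gt q) x y :=
      Finset.sum_nonneg fun y _ => mul_nonneg (hκ y).le (hKn _ _ _)
    have a3 := (p9 x (hRRg hx)).1
    have a4 : rho (F.Gt q) (F.k q.1) F.A x ≤ (1 - F.ε) * F.g x + (F.μs + F.ε * C₀) := by
      have a5 := mul_le_mul_of_nonneg_left (hgR x hx).2 hε
      linarith only [a1, a2, a3, a5]
    have a6 := mul_le_mul_of_nonneg_left a4 (mul_nonneg (hκ x).le (sq_nonneg (f x)))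
    linarith only [a6]
  -- `∑ κ f² ≤ ∑ u² / κv`
  have e10 : ∑ x ∈ F.R, F.k q.1 x * f x ^ 2 ≤ (∑ y, u y ^ 2) / F.κv := by
    rw [hsub' (fun y => u y ^ 2) fun x hx => by rw [hu x hx]; ring, Finset.sum_div]
    refine Finset.sum_le_sum fun x hx => ?_
    have h1 : F.k q.1 x * f x ^ 2 = u x ^ 2 / F.k q.1 x := by
      simp only [hf]
      have := (hκ x).ne'
      field_simp
    rw [h1]
    exact div_le_div_of_nonneg_left (sq_nonneg _) hκv (hκR x hx)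
  have hμs0 : 0 ≤ F.μs := by
    unfold Fl.μs
    positivity
  have hcoef : 0 ≤ F.μs + F.ε * C₀ + 4 * F.ε₁ * F.r := by positivity
  have e11 := mul_le_mul_of_nonneg_left e10 hcoef
  have e12 : F.aK C₀ * ∑ y, u y ^ 2 =
      (F.μs + F.ε * C₀ + 4 * F.ε₁ * F.r) * ((∑ y, u y ^ 2) / F.κv) := by
    unfold Fl.aK Fl.μs
    ring
  have e13 := mul_le_mul_of_nonneg_left e4 hε₁.le
  have e14 := mul_le_mul_of_nonneg_left e8 hs2
  rw [e12]
  have e15 : F.ε₁ * (4 * F.r * ∑ x ∈ F.R, F.k q.1 x * f x ^ 2) =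
      4 * F.ε₁ * F.r * ∑ x ∈ F.R, F.k q.1 x * f x ^ 2 := by ring
  rw [e15] at e13
  have e16 : (F.μs + F.ε * C₀ + 4 * F.ε₁ * F.r) * ∑ x ∈ F.R, F.k q.1 x * f x ^ 2 =
      (F.μs + F.ε * C₀) * ∑ x ∈ F.R, F.k q.1 x * f x ^ 2 +
      4 * F.ε₁ * F.r * ∑ x ∈ F.R, F.k q.1 x * f x ^ 2 := by ring
  rw [e16] at e11
  have e17 : C₀ ^ 2 * F.s2 * (∑ y, |u y|) ^ 2 = F.s2 * (C₀ ^ 2 * (∑ y, |u y|) ^ 2) := by ring
  rw [e17]
  linarith only [e1, e5, e9, e11, e13, e14]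

end Pool.Agent.AFL.H82
end
end -- Pool.Agent.Helper82_AFL.KUP

section -- Pool.Agent.Helper86_AFL.NUB

/-! AFL, row NUB: the noise of the form, in units of the form at the start. -/

set_option autoImplicit false

open MeasureTheory ProbabilityTheory

open scoped BigOperators Matrix

noncomputable section

namespace Pool.Agent.AFL.H86

open Pool.Agent.LE.QF Pool.Agent.AFJ Pool.Agent.ABY

/-- NUB -/
theorem nub : NubStmt := by
  intro hbet hnbw hnbl hnbo heub hpta X _ _ F c₀ C₀ q hOk hPt hN hN0 W hW f hf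
  obtain ⟨hκv, hk0, -, -, -, -, -, hr, -, -, hKL, -, hrho⟩ := hpta heub X F c₀ C₀ q hOk hPt hN hN0
  obtain ⟨hbU, hUR, hRA⟩ := hOk.hb
  obtain ⟨hbQ1, hQ1Q, hQA⟩ := hOk.hQ
  obtain ⟨nκv, nκv1, nr, nc₀, nc₀1, nC₀, nN, nδ, nL, nω, nω2, nε, nε1, ns1, -⟩ := hOk.num
  have hS1 := hOk.hS1
  have hbR : ∀ c ∈ F.b, c ∈ F.Rg := fun c hc => hUR (hbU hc)
  have hbQ : ∀ c ∈ F.b, c ∈ F.Q := fun c hc => hQ1Q (hbQ1 hc)
  have hr0 : (0 : ℝ) ≤ F.r := by linarith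
  obtain ⟨j, hj⟩ : ∃ j : X → X → ℝ, j = fun c => Ec (F.Gt q) (F.k q.1) F.A c *ᵥ f := ⟨_, rfl⟩
  have hR0 : (0 : ℝ) ≤ q.1 := hPt.ht.1
  obtain ⟨ns3, nold⟩ := hOk.hs3
  -- one term
  have hone : ∀ c ∈ F.b, W (fun x => if x ∈ F.Q then j c x else 0) ≤
      2 / c₀ * ∑ x ∈ F.A, j c x ^ 2 / F.k q.1 x + F.s1 * (∑ x ∈ F.A, |j c x|) ^ 2 +
        F.s3 * (∑ x ∈ F.A \ F.Yg, |j c x|) ^ 2 := by
    intro c _
    obtain ⟨φ, hφ⟩ : ∃ φ : X → ℝ, φ = fun x => if x ∈ F.Q then j c x else 0 := ⟨_, rfl⟩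
    have hφ0 : ∀ x, x ∉ F.Q → φ x = 0 := by
      intro x hx
      rw [hφ]
      exact if_neg hx
    have hφ1 : ∀ x ∈ F.Q, φ x = j c x := by
      intro x hx
      rw [hφ]
      exact if_pos hx
    obtain ⟨f', hf', hWf⟩ := hW φ hφ0
    have h1 := hS1 f' φ hf' hφ0
    rw [← hφ]
    have h0 : ∑ x ∈ F.Q ∩ F.Yg, |φ x| ≤ ∑ x ∈ F.A, |j c x| := by
      have h6 : ∑ x ∈ F.Q ∩ F.Yg, |φ x| = ∑ x ∈ F.Q ∩ F.Yg, |j c x| :=
        Finset.sum_congr rfl fun x hx => by rw [hφ1 x (Finset.mem_inter.1 hx).1]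
      rw [h6]
      exact Finset.sum_le_sum_of_subset_of_nonneg
        (fun x hx => hQA (Finset.mem_inter.1 hx).1) fun x _ _ => abs_nonneg _
    have h0' : ∑ x ∈ F.Q \ F.Yg, |φ x| ≤ ∑ x ∈ F.A \ F.Yg, |j c x| := by
      have h6 : ∑ x ∈ F.Q \ F.Yg, |φ x| = ∑ x ∈ F.Q \ F.Yg, |j c x| :=
        Finset.sum_congr rfl fun x hx => by rw [hφ1 x (Finset.mem_sdiff.1 hx).1]
      rw [h6]
      exact Finset.sum_le_sum_of_subset_of_nonneg
        (Finset.sdiff_subset_sdiff hQA (Finset.Subset.refl _)) fun x _ _ => abs_nonneg _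
    have h7 : F.s1 * (∑ x ∈ F.Q ∩ F.Yg, |φ x|) ^ 2 ≤ F.s1 * (∑ x ∈ F.A, |j c x|) ^ 2 :=
      mul_le_mul_of_nonneg_left
        (pow_le_pow_left₀ (Finset.sum_nonneg fun x _ => abs_nonneg _) h0 2) ns1
    have h7' : F.s3 * (∑ x ∈ F.Q \ F.Yg, |φ x|) ^ 2 ≤
        F.s3 * (∑ x ∈ F.A \ F.Yg, |j c x|) ^ 2 :=
      mul_le_mul_of_nonneg_left
        (pow_le_pow_left₀ (Finset.sum_nonneg fun x _ => abs_nonneg _) h0' 2) ns3
    have h2 : 2 * ∑ x ∈ F.Q, φ x ^ 2 / (F.k 0 x * F.g x) ≤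
        2 / c₀ * ∑ x ∈ F.A, j c x ^ 2 / F.k q.1 x := by
      have h3 : ∀ x ∈ F.Q, φ x ^ 2 / (F.k 0 x * F.g x) ≤ (1 / c₀) * (j c x ^ 2 / F.k q.1 x) := by
        intro x hx
        rw [hφ1 x hx]
        have hxA := hQA hx
        have e2 := hk0 x hxA
        have e3 := (hOk.hg x hxA).1
        have e4 := hN.hκ x
        have e5 : c₀ * F.k q.1 x ≤ F.k 0 x * F.g x := by
          calc c₀ * F.k q.1 x = F.k q.1 x * c₀ := mul_comm _ _
            _ ≤ F.k 0 x * F.g x := mul_le_mul e2 e3 nc₀.le (by linarith)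
        calc j c x ^ 2 / (F.k 0 x * F.g x) ≤ j c x ^ 2 / (c₀ * F.k q.1 x) :=
              div_le_div_of_nonneg_left (by positivity) (by positivity) e5
          _ = (1 / c₀) * (j c x ^ 2 / F.k q.1 x) := by
              field_simp
      have h4 : ∑ x ∈ F.Q, φ x ^ 2 / (F.k 0 x * F.g x) ≤
          (1 / c₀) * ∑ x ∈ F.A, j c x ^ 2 / F.k q.1 x := by
        refine (Finset.sum_le_sum h3).trans ?_
        rw [← Finset.mul_sum]
        refine mul_le_mul_of_nonneg_left ?_ (by positivity)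
        refine Finset.sum_le_sum_of_subset_of_nonneg hQA fun x _ _ => ?_
        have := hN.hκ x
        positivity
      calc 2 * ∑ x ∈ F.Q, φ x ^ 2 / (F.k 0 x * F.g x)
          ≤ 2 * ((1 / c₀) * ∑ x ∈ F.A, j c x ^ 2 / F.k q.1 x) :=
            mul_le_mul_of_nonneg_left h4 (by norm_num)
        _ = 2 / c₀ * ∑ x ∈ F.A, j c x ^ 2 / F.k q.1 x := by ring
    linarith
  -- the three noises
  have hbk : ∀ c ∈ F.b, F.κv ≤ F.k q.1 c := fun c hc => hκv c (hbR c hc)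
  have hbr : ∀ c ∈ F.b, rho (F.Gt q) (F.k q.1) F.A c ≤ F.r := fun c hc => (hrho c (hbQ c hc)).1
  have hw := hnbw hbet X (F.Gt q) (F.k q.1) F.A F.b f F.κv F.L F.r hN nκv nL.le hr0 hbk hbr hKL
  have hs := hnbl hbet X (F.Gt q) (F.k q.1) F.A F.b f F.κv F.r hN nκv hr0 hbk hbr
  have ho := hnbo hbet X (F.Gt q) (F.k q.1) F.A F.b (F.A \ F.Yg) f F.κv F.old hN nκv nold
    Finset.sdiff_subset hbk (fun c hc => hOk.hold q hPt.ht.1 hPt.ht.2 c hc)
  have hE : qf (EE (F.Gt q) (F.k q.1) F.A) f ≤ 2 * qf F.E0 f := by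
    have := hPt.fru f hf
    exact (le_abs_self _).trans this
  have e1 : ∑ c ∈ F.b, W (fun x => if x ∈ F.Q then j c x else 0) ≤
      2 / c₀ * ∑ c ∈ F.b, ∑ x ∈ F.A, j c x ^ 2 / F.k q.1 x +
        F.s1 * ∑ c ∈ F.b, (∑ x ∈ F.A, |j c x|) ^ 2 +
        F.s3 * ∑ c ∈ F.b, (∑ x ∈ F.A \ F.Yg, |j c x|) ^ 2 := by
    refine (Finset.sum_le_sum hone).trans ?_
    rw [Finset.sum_add_distrib, Finset.sum_add_distrib, ← Finset.mul_sum, ← Finset.mul_sum,
      ← Finset.mul_sum]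
  rw [hj] at e1
  refine e1.trans ?_
  have e2 : 2 / c₀ * ∑ c ∈ F.b, ∑ x ∈ F.A, (Ec (F.Gt q) (F.k q.1) F.A c *ᵥ f) x ^ 2 / F.k q.1 x ≤
      2 / c₀ * (8 * Real.sqrt (F.r * F.L / F.κv)) * (2 * qf F.E0 f) := by
    rw [mul_assoc]
    refine mul_le_mul_of_nonneg_left (hw.trans ?_) (by positivity)
    exact mul_le_mul_of_nonneg_left hE (by positivity)
  have e3 : F.s1 * ∑ c ∈ F.b, (∑ x ∈ F.A, |(Ec (F.Gt q) (F.k q.1) F.A c *ᵥ f) x|) ^ 2 ≤
      8 * F.r * F.s1 / F.κv * (2 * qf F.E0 f) := by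
    refine (mul_le_mul_of_nonneg_left hs ns1).trans ?_
    have e5 : F.s1 * (8 * F.r / F.κv * qf (EE (F.Gt q) (F.k q.1) F.A) f) =
        8 * F.r * F.s1 / F.κv * qf (EE (F.Gt q) (F.k q.1) F.A) f := by ring
    rw [e5]
    exact mul_le_mul_of_nonneg_left hE (by positivity)
  have e3' : F.s3 * ∑ c ∈ F.b,
      (∑ x ∈ F.A \ F.Yg, |(Ec (F.Gt q) (F.k q.1) F.A c *ᵥ f) x|) ^ 2 ≤
      8 * F.old * F.s3 / F.κv * (2 * qf F.E0 f) := by
    refine (mul_le_mul_of_nonneg_left ho ns3).trans ?_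
    have e5 : F.s3 * (8 * F.old / F.κv * qf (EE (F.Gt q) (F.k q.1) F.A) f) =
        8 * F.old * F.s3 / F.κv * qf (EE (F.Gt q) (F.k q.1) F.A) f := by ring
    rw [e5]
    exact mul_le_mul_of_nonneg_left hE (by positivity)
  have e4 : F.nu c₀ * qf F.E0 f = 2 / c₀ * (8 * Real.sqrt (F.r * F.L / F.κv)) * (2 * qf F.E0 f) +
      8 * F.r * F.s1 / F.κv * (2 * qf F.E0 f) + 8 * F.old * F.s3 / F.κv * (2 * qf F.E0 f) := by
    unfold Fl.nu
    ring
  rw [e4]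
  exact add_le_add (add_le_add e2 e3) e3'

end Pool.Agent.AFL.H86
end
end -- Pool.Agent.Helper86_AFL.NUB
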