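import Pool.Agent.Helper12_MEB.B016
import Pool.Agent.Helper12_MEB.B157
import Pool.Agent.Helper12_MEB.B162

/-!
# Merged copies (generated) of the modules

* `Pool.Agent.Helper89_LTG.Tai`
* `Pool.Agent.Helper89_LTG.Tai2`
* `Pool.Agent.Helper89_LTG.Tai3`
* `Pool.Agent.Helper22_LTG.Fst`
* `Pool.Agent.Helper22_LTG.Inc`
* `Pool.Agent.Helper22_AHH.Frm`
* `Pool.Agent.Helper22_AHH.FrmB`
* `Pool.Agent.Helper22_AHH.FrmN`
* `Pool.Agent.Helper22_AHH.FrmM`
-/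

set_option autoImplicit false

section -- Pool.Agent.Helper89_LTG.Tai

/-!
# TAI: the exponentially small tails of the increment of a form

`D f = (1/2) ∑ δ_xy (f_x - f_y)²` with `|δ_xy| ≤ T exp (- a (ρ_x + ρ_y))`, `ρ` a nonnegative function with
increments at most one on the bonds (the distance from the block, or the alive distance). Then `D` is
bounded by a Moreau expression whose weights decay exponentially in `ρ`.
-/

set_option autoImplicit false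

open scoped BigOperators
open Finset

namespace Pool.Agent.LTG.H89

/-! ### walks -/

/-- `x` and `y` are joined by a walk of length `n` -/
inductive Wk {X ep : Type*} (s t : ep → X) : ℕ → X → X → Prop
  | nil (x : X) : Wk s t 0 x x
  | fwd {n : ℕ} (e : ep) {y : X} : Wk s t n (t e) y → Wk s t (n + 1) (s e) y
  | bwd {n : ℕ} (e : ep) {y : X} : Wk s t n (s e) y → Wk s t (n + 1) (t e) y

section graph

variable {X ep : Type*} {s t : ep → X} {ρ : X → ℝ}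

theorem Wk.rho (hρ : ∀ e, |ρ (t e) - ρ (s e)| ≤ 1) {n : ℕ} {x y : X} (h : Wk s t n x y) :
    ρ x ≤ ρ y + n ∧ ρ y ≤ ρ x + n := by
  induction h with
  | nil x => simp
  | fwd e _ ih =>
    have h1 := abs_le.1 (hρ e)
    push_cast
    constructor <;> linarith [ih.1, ih.2, h1.1, h1.2]
  | bwd e _ ih =>
    have h1 := abs_le.1 (hρ e)
    push_cast
    constructor <;> linarith [ih.1, ih.2, h1.1, h1.2]

theorem Wk.path (hρ : ∀ e, |ρ (t e) - ρ (s e)| ≤ 1) {w : ep → ℝ} {S m R : ℝ} {h : X → ℝ}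
    (hS : ∀ e, w e * (h (t e) - h (s e)) ^ 2 ≤ S) (hm : 0 ≤ m)
    (hmw : ∀ e, 2 * ρ (s e) ≤ R → m ≤ w e) {n : ℕ} {x y : X} (hw : Wk s t n x y)
    (hR : ρ x + ρ y + n ≤ R) : Real.sqrt m * |h x - h y| ≤ n * Real.sqrt S := by
  have key : ∀ e, 2 * ρ (s e) ≤ R → Real.sqrt m * |h (t e) - h (s e)| ≤ Real.sqrt S := by
    intro e he
    apply Real.le_sqrt_of_sq_le
    rw [mul_pow, Real.sq_sqrt hm, sq_abs]
    exact (mul_le_mul_of_nonneg_right (hmw e he) (sq_nonneg _)).trans (hS e)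
  induction hw with
  | nil x => simp
  | @fwd n e y hw' ih =>
    have h1 := abs_le.1 (hρ e)
    have h2 := (hw'.rho hρ).1
    push_cast at hR ⊢
    have h3 := ih (by linarith only [h1.1, h1.2, hR])
    have h4 := key e (by linarith [h1.1, h1.2])
    have h5 : |h (s e) - h y| ≤ |h (t e) - h (s e)| + |h (t e) - h y| := by
      have := abs_sub_le (h (s e)) (h (t e)) (h y)
      rwa [abs_sub_comm (h (s e)) (h (t e))] at this
    nlinarith only [mul_le_mul_of_nonneg_left h5 (Real.sqrt_nonneg m), h3, h4]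
  | @bwd n e y hw' ih =>
    have h1 := abs_le.1 (hρ e)
    have h2 := (hw'.rho hρ).1
    push_cast at hR ⊢
    have h3 := ih (by linarith [h1.1, h1.2])
    have h4 := key e (by linarith [h1.1, h1.2])
    have h5 : |h (t e) - h y| ≤ |h (t e) - h (s e)| + |h (s e) - h y| :=
      abs_sub_le (h (t e)) (h (s e)) (h y)
    nlinarith only [mul_le_mul_of_nonneg_left h5 (Real.sqrt_nonneg m), h3, h4]

variable [Fintype X] [Fintype ep]

/-- the square of the difference along a walk -/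
theorem Wk.sq (hρ : ∀ e, |ρ (t e) - ρ (s e)| ≤ 1) {w : ep → ℝ} (hw0 : ∀ e, 0 ≤ w e) {m R : ℝ}
    (h : X → ℝ) (hm : 0 ≤ m) (hmw : ∀ e, 2 * ρ (s e) ≤ R → m ≤ w e) {n : ℕ} {x y : X}
    (hw : Wk s t n x y) (hR : ρ x + ρ y + n ≤ R) :
    m * (h x - h y) ^ 2 ≤ (n : ℝ) ^ 2 * bon s t w h := by
  have hS0 : 0 ≤ bon s t w h := Finset.sum_nonneg fun e _ => mul_nonneg (hw0 e) (sq_nonneg _)
  have hS : ∀ e, w e * (h (t e) - h (s e)) ^ 2 ≤ bon s t w h := fun e =>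
    Finset.single_le_sum (f := fun e => w e * (h (t e) - h (s e)) ^ 2)
      (fun e _ => mul_nonneg (hw0 e) (sq_nonneg _)) (Finset.mem_univ e)
  have h1 := hw.path hρ hS hm hmw hR
  have h2 := pow_le_pow_left₀ (mul_nonneg (Real.sqrt_nonneg m) (abs_nonneg _)) h1 2
  rw [mul_pow, Real.sq_sqrt hm, sq_abs, mul_pow, Real.sq_sqrt hS0] at h2
  exact h2

/-- TAI -/
theorem tai {A : X → Prop} [DecidablePred A] {δ : X → X → ℝ} {n : X → X → ℕ} {T a K N : ℝ}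
    (hρ0 : ∀ x, 0 ≤ ρ x) (hρ : ∀ e, |ρ (t e) - ρ (s e)| ≤ 1)
    (hw : ∀ x y, δ x y ≠ 0 → Wk s t (n x y) x y) (hT : 0 ≤ T) (ha : 0 < a) (hK : 1 ≤ K)
    (hδ : ∀ x y, |δ x y| ≤ T * Real.exp (-(a * (ρ x + ρ y))))
    (hA : ∀ x y, δ x y ≠ 0 → A x ∧ A y)
    (hn : ∀ x y, δ x y ≠ 0 → (n x y : ℝ) ≤ K * (ρ x + ρ y))
    (hN : ∑ x, (if A x then Real.exp (-(a / 4 * ρ x)) else 0) ≤ N) (f h : X → ℝ) :
    |1 / 2 * ∑ x, ∑ y, δ x y * (f x - f y) ^ 2| ≤
      mor s t (cutX A fun x => 3 * T * N * Real.exp (-(a * ρ x)))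
        (fun e => 96 * T * K ^ 2 * N ^ 2 / a ^ 2 * Real.exp (-(a / (2 * K) * ρ (s e)))) f h := by
  set w : ep → ℝ := fun e => Real.exp (-(a / (2 * K) * ρ (s e))) with hwdef
  set S := bon s t w h with hSdef
  have hw0 : ∀ e, 0 ≤ w e := fun e => (Real.exp_pos _).le
  have hS0 : 0 ≤ S := Finset.sum_nonneg fun e _ => mul_nonneg (hw0 e) (sq_nonneg _)
  set g : X → ℝ := fun x => if A x then Real.exp (-(a / 4 * ρ x)) else 0 with hg
  have hg0 : ∀ x, 0 ≤ g x := fun x => by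
    simp only [hg]; split
    · exact (Real.exp_pos _).le
    · exact le_rfl
  have hN0 : 0 ≤ N := (Finset.sum_nonneg fun x _ => hg0 x).trans hN
  have hK0 : 0 < K := lt_of_lt_of_le one_pos hK
  -- the three terms
  have h3 : ∀ x y, |δ x y| * (f x - f y) ^ 2 ≤ 3 * (|δ x y| * (f x - h x) ^ 2) +
      3 * (|δ x y| * (f y - h y) ^ 2) + 3 * (|δ x y| * (h x - h y) ^ 2) := fun x y => by
    have : (f x - f y) ^ 2 ≤ 3 * (f x - h x) ^ 2 + 3 * (f y - h y) ^ 2 + 3 * (h x - h y) ^ 2 := by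
      nlinarith only [sq_nonneg ((f x - h x) + (f y - h y)), sq_nonneg ((f x - h x) - (h x - h y)),
        sq_nonneg ((f y - h y) + (h x - h y))]
    nlinarith only [mul_le_mul_of_nonneg_left this (abs_nonneg (δ x y))]
  -- the row sums
  have hrow : ∀ x, ∑ y, |δ x y| ≤ cutX A (fun x => T * N * Real.exp (-(a * ρ x))) x := fun x => by
    unfold cutX
    by_cases hx : A x
    · rw [if_pos hx]
      have : ∀ y, |δ x y| ≤ T * Real.exp (-(a * ρ x)) * g y := fun y => by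
        by_cases hd : δ x y = 0
        · rw [hd, abs_zero]
          exact mul_nonneg (mul_nonneg hT (Real.exp_pos _).le) (hg0 y)
        · have hAy := (hA x y hd).2
          simp only [hg]; rw [if_pos hAy]
          refine (hδ x y).trans ?_
          rw [mul_assoc]
          refine mul_le_mul_of_nonneg_left ?_ hT
          rw [← Real.exp_add]
          apply Real.exp_le_exp.2
          nlinarith only [mul_nonneg ha.le (hρ0 y)]
      refine (Finset.sum_le_sum fun y _ => this y).trans ?_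
      rw [← Finset.mul_sum]
      have h5 := mul_le_mul_of_nonneg_left hN (mul_nonneg hT (Real.exp_pos (-(a * ρ x))).le)
      refine h5.trans (le_of_eq (by ring))
    · rw [if_neg hx]
      refine le_of_eq (Finset.sum_eq_zero fun y _ => ?_)
      by_contra hc
      exact hx (hA x y (fun h0 => hc (by rw [h0, abs_zero]))).1
  have hcol : ∀ y, ∑ x, |δ x y| ≤ cutX A (fun x => T * N * Real.exp (-(a * ρ x))) y := fun y => by
    unfold cutX
    by_cases hy : A y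
    · rw [if_pos hy]
      have : ∀ x, |δ x y| ≤ T * Real.exp (-(a * ρ y)) * g x := fun x => by
        by_cases hd : δ x y = 0
        · rw [hd, abs_zero]
          exact mul_nonneg (mul_nonneg hT (Real.exp_pos _).le) (hg0 x)
        · have hAx := (hA x y hd).1
          simp only [hg]; rw [if_pos hAx]
          refine (hδ x y).trans ?_
          rw [mul_assoc]
          refine mul_le_mul_of_nonneg_left ?_ hT
          rw [← Real.exp_add]
          apply Real.exp_le_exp.2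
          nlinarith only [mul_nonneg ha.le (hρ0 x)]
      refine (Finset.sum_le_sum fun x _ => this x).trans ?_
      rw [← Finset.mul_sum]
      have h5 := mul_le_mul_of_nonneg_left hN (mul_nonneg hT (Real.exp_pos (-(a * ρ y))).le)
      refine h5.trans (le_of_eq (by ring))
    · rw [if_neg hy]
      refine le_of_eq (Finset.sum_eq_zero fun x _ => ?_)
      by_contra hc
      exact hy (hA x y (fun h0 => hc (by rw [h0, abs_zero]))).2
  -- the bonds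
  have hbd : ∀ x y, |δ x y| * (h x - h y) ^ 2 ≤ T * K ^ 2 * (64 / a ^ 2) * S * (g x * g y) :=
    fun x y => by
      by_cases hd : δ x y = 0
      · rw [hd, abs_zero, zero_mul]
        exact mul_nonneg (by positivity) (mul_nonneg (hg0 x) (hg0 y))
      · obtain ⟨hAx, hAy⟩ := hA x y hd
        set u := ρ x + ρ y with hu
        have hu0 : 0 ≤ u := add_nonneg (hρ0 x) (hρ0 y)
        have hnu := hn x y hd
        have h6 : Real.exp (-(a / 2 * u)) * (h x - h y) ^ 2 ≤ (n x y : ℝ) ^ 2 * S := by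
          refine (hw x y hd).sq hρ hw0 h (Real.exp_pos _).le (R := 2 * K * u) ?_ ?_
          · intro e he
            simp only [hwdef]
            apply Real.exp_le_exp.2
            have h7 : ρ (s e) ≤ K * u := by linarith only [he]
            have h8 : a / (2 * K) * ρ (s e) ≤ a / (2 * K) * (K * u) :=
              mul_le_mul_of_nonneg_left h7 (by positivity)
            have h9 : a / (2 * K) * (K * u) = a / 2 * u := by field_simp
            linarith only [h8, h9]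
          · nlinarith only [hK, hu0, hnu]
        have h7 : (n x y : ℝ) ^ 2 ≤ K ^ 2 * u ^ 2 := by
          rw [← mul_pow]
          exact pow_le_pow_left₀ (Nat.cast_nonneg _) hnu 2
        have h8 : u ^ 2 ≤ 64 / a ^ 2 * Real.exp (a / 4 * u) := by
          have h9 : a / 8 * u ≤ Real.exp (a / 8 * u) := by
            linarith only [Real.add_one_le_exp (a / 8 * u)]
          have h10 := pow_le_pow_left₀ (by positivity) h9 2
          rw [← Real.exp_nat_mul] at h10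
          have h11 : ((2 : ℕ) : ℝ) * (a / 8 * u) = a / 4 * u := by push_cast; ring
          rw [h11] at h10
          have h12 : (a / 8 * u) ^ 2 = a ^ 2 / 64 * u ^ 2 := by ring
          rw [h12] at h10
          calc u ^ 2 = 64 / a ^ 2 * (a ^ 2 / 64 * u ^ 2) := by field_simp
            _ ≤ _ := mul_le_mul_of_nonneg_left h10 (by positivity)
        have h9 : g x * g y = Real.exp (-(a / 4 * u)) := by
          simp only [hg]
          rw [if_pos hAx, if_pos hAy, ← Real.exp_add]; congr 1; rw [hu]; ring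
        rw [h9]
        have h10 : |δ x y| ≤ T * (Real.exp (-(a / 2 * u)) * Real.exp (-(a / 2 * u))) := by
          refine (hδ x y).trans (le_of_eq ?_)
          rw [← Real.exp_add]; congr 2; ring
        calc |δ x y| * (h x - h y) ^ 2 ≤
            T * (Real.exp (-(a / 2 * u)) * Real.exp (-(a / 2 * u))) * (h x - h y) ^ 2 :=
              mul_le_mul_of_nonneg_right h10 (sq_nonneg _)
          _ = T * Real.exp (-(a / 2 * u)) * (Real.exp (-(a / 2 * u)) * (h x - h y) ^ 2) := by ring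
          _ ≤ T * Real.exp (-(a / 2 * u)) * (K ^ 2 * (64 / a ^ 2 * Real.exp (a / 4 * u)) * S) := by
              refine mul_le_mul_of_nonneg_left ?_ (mul_nonneg hT (Real.exp_pos _).le)
              refine h6.trans ?_
              refine mul_le_mul_of_nonneg_right ?_ hS0
              exact h7.trans (mul_le_mul_of_nonneg_left h8 (sq_nonneg K))
          _ = T * K ^ 2 * (64 / a ^ 2) * S * (Real.exp (-(a / 2 * u)) * Real.exp (a / 4 * u)) := by
              ring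
          _ = _ := by
              rw [← Real.exp_add]; congr 2; ring
  have hsum1 : ∑ x, ∑ y, |δ x y| * (f x - h x) ^ 2 ≤
      ∑ x, cutX A (fun x => T * N * Real.exp (-(a * ρ x))) x * (f x - h x) ^ 2 := by
    refine Finset.sum_le_sum fun x _ => ?_
    rw [← Finset.sum_mul]
    exact mul_le_mul_of_nonneg_right (hrow x) (sq_nonneg _)
  have hsum2 : ∑ x, ∑ y, |δ x y| * (f y - h y) ^ 2 ≤
      ∑ x, cutX A (fun x => T * N * Real.exp (-(a * ρ x))) x * (f x - h x) ^ 2 := by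
    rw [Finset.sum_comm]
    refine Finset.sum_le_sum fun y _ => ?_
    rw [← Finset.sum_mul]
    exact mul_le_mul_of_nonneg_right (hcol y) (sq_nonneg _)
  have hsum3 : ∑ x, ∑ y, |δ x y| * (h x - h y) ^ 2 ≤ T * K ^ 2 * (64 / a ^ 2) * S * N ^ 2 := by
    refine (Finset.sum_le_sum fun x _ => Finset.sum_le_sum fun y _ => hbd x y).trans ?_
    simp only [← Finset.mul_sum]
    refine mul_le_mul_of_nonneg_left ?_ (by positivity)
    have : ∑ x, g x * ∑ y, g y = (∑ x, g x) ^ 2 := by rw [← Finset.sum_mul]; ring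
    rw [this]
    exact pow_le_pow_left₀ (Finset.sum_nonneg fun x _ => hg0 x) hN 2
  have hmor : mor s t (cutX A fun x => 3 * T * N * Real.exp (-(a * ρ x)))
        (fun e => 96 * T * K ^ 2 * N ^ 2 / a ^ 2 * Real.exp (-(a / (2 * K) * ρ (s e)))) f h =
      3 * ∑ x, cutX A (fun x => T * N * Real.exp (-(a * ρ x))) x * (f x - h x) ^ 2 +
        3 / 2 * (T * K ^ 2 * (64 / a ^ 2) * S * N ^ 2) := by
    unfold mor
    congr 1
    · rw [Finset.mul_sum]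
      refine Finset.sum_congr rfl fun x _ => ?_
      unfold cutX; split
      · ring
      · ring
    · have : bon s t (fun e => 96 * T * K ^ 2 * N ^ 2 / a ^ 2 *
          Real.exp (-(a / (2 * K) * ρ (s e)))) h = 96 * T * K ^ 2 * N ^ 2 / a ^ 2 * S := by
        rw [hSdef]; unfold bon
        rw [Finset.mul_sum]
        exact Finset.sum_congr rfl fun e _ => by ring
      rw [this]; field_simp; ring
  rw [hmor]
  have habs : |1 / 2 * ∑ x, ∑ y, δ x y * (f x - f y) ^ 2| ≤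
      1 / 2 * ∑ x, ∑ y, |δ x y| * (f x - f y) ^ 2 := by
    rw [abs_mul, abs_of_pos (by norm_num : (0 : ℝ) < 1 / 2)]
    refine mul_le_mul_of_nonneg_left ?_ (by norm_num)
    refine (Finset.abs_sum_le_sum_abs _ _).trans (Finset.sum_le_sum fun x _ => ?_)
    refine (Finset.abs_sum_le_sum_abs _ _).trans (Finset.sum_le_sum fun y _ => ?_)
    rw [abs_mul, abs_of_nonneg (sq_nonneg (f x - f y))]
  refine habs.trans ?_
  have htot : ∑ x, ∑ y, |δ x y| * (f x - f y) ^ 2 ≤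
      3 * ∑ x, ∑ y, |δ x y| * (f x - h x) ^ 2 + 3 * ∑ x, ∑ y, |δ x y| * (f y - h y) ^ 2 +
        3 * ∑ x, ∑ y, |δ x y| * (h x - h y) ^ 2 := by
    simp only [Finset.mul_sum, ← Finset.sum_add_distrib]
    exact Finset.sum_le_sum fun x _ => Finset.sum_le_sum fun y _ => h3 x y
  linarith only [hsum1, hsum2, hsum3, htot]

end graph

end Pool.Agent.LTG.H89
end -- Pool.Agent.Helper89_LTG.Tai

section -- Pool.Agent.Helper89_LTG.Tai2

/-!
# TAI on the torus: walks, sums of exponentials, local part plus tail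
-/

set_option autoImplicit false

open scoped BigOperators
open Finset

namespace Pool.Agent.LTG.H89

/-! ### walks on the torus -/

section walks

variable {d M : ℕ}

/-- the length of a shortest path -/
def dT (x y : Tor d M) : ℕ := ∑ i, (y i - x i).valMinAbs.natAbs

theorem wk_int [NeZero M] (n : ℕ) : ∀ (c : Fin d → ℤ) (x : Tor d M), ∑ i, (c i).natAbs = n →
    Wk (ep := Bd d M) sT tT n x (fun i => x i + (c i : ZMod M)) := by
  induction n with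
  | zero =>
    intro c x hc
    have h0 : ∀ i, c i = 0 := fun i => by
      rw [Finset.sum_eq_zero_iff] at hc
      exact Int.natAbs_eq_zero.1 (hc i (Finset.mem_univ i))
    have : (fun i => x i + (c i : ZMod M)) = x := by
      funext i; rw [h0 i]; simp
    rw [this]
    exact Wk.nil x
  | succ n ih =>
    intro c x hc
    obtain ⟨i, hi⟩ : ∃ i, c i ≠ 0 := by
      by_contra hne
      have hne' : ∀ i, c i = 0 := fun i => by
        by_contra h; exact hne ⟨i, h⟩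
      rw [Finset.sum_congr rfl fun i _ => by rw [hne' i]] at hc
      simp at hc
    rcases lt_or_gt_of_ne hi with hneg | hpos
    · -- step down
      set c' : Fin d → ℤ := Function.update c i (c i + 1) with hc'
      have hs : ∑ j, (c' j).natAbs = n := by
        have h1 : ∑ j, (c j).natAbs = (c i).natAbs + ∑ j ∈ univ.erase i, (c j).natAbs :=
          (add_sum_erase _ _ (mem_univ i)).symm
        have h2 : ∑ j, (c' j).natAbs = (c' i).natAbs + ∑ j ∈ univ.erase i, (c' j).natAbs :=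
          (add_sum_erase _ _ (mem_univ i)).symm
        have h3 : ∑ j ∈ univ.erase i, (c' j).natAbs = ∑ j ∈ univ.erase i, (c j).natAbs :=
          Finset.sum_congr rfl fun j hj => by
            rw [hc', Function.update_of_ne (Finset.ne_of_mem_erase hj)]
        have h4 : c' i = c i + 1 := by rw [hc', Function.update_self]
        rw [h2, h3, h4]
        rw [h1] at hc
        omega
      have h5 := ih c' (x - Pi.single i 1) hs
      have h6 : (fun j => (x - Pi.single i 1 : Tor d M) j + (c' j : ZMod M)) =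
          fun j => x j + (c j : ZMod M) := by
        funext j
        by_cases hj : j = i
        · subst hj
          rw [hc', Function.update_self]; simp
        · rw [hc', Function.update_of_ne hj]; simp [Pi.single_eq_of_ne hj]
      rw [h6] at h5
      have h7 := Wk.bwd (ep := Bd d M) (s := sT) (t := tT) (i, x - Pi.single i 1) h5
      have h8 : tT (i, x - Pi.single i 1) = x := by
        unfold tT; simp
      rwa [h8] at h7
    · set c' : Fin d → ℤ := Function.update c i (c i - 1) with hc'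
      have hs : ∑ j, (c' j).natAbs = n := by
        have h1 : ∑ j, (c j).natAbs = (c i).natAbs + ∑ j ∈ univ.erase i, (c j).natAbs :=
          (add_sum_erase _ _ (mem_univ i)).symm
        have h2 : ∑ j, (c' j).natAbs = (c' i).natAbs + ∑ j ∈ univ.erase i, (c' j).natAbs :=
          (add_sum_erase _ _ (mem_univ i)).symm
        have h3 : ∑ j ∈ univ.erase i, (c' j).natAbs = ∑ j ∈ univ.erase i, (c j).natAbs :=
          Finset.sum_congr rfl fun j hj => by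
            rw [hc', Function.update_of_ne (Finset.ne_of_mem_erase hj)]
        have h4 : c' i = c i - 1 := by rw [hc', Function.update_self]
        rw [h2, h3, h4]
        rw [h1] at hc
        omega
      have h5 := ih c' (x + Pi.single i 1) hs
      have h6 : (fun j => (x + Pi.single i 1 : Tor d M) j + (c' j : ZMod M)) =
          fun j => x j + (c j : ZMod M) := by
        funext j
        by_cases hj : j = i
        · subst hj
          rw [hc', Function.update_self]; simp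
        · rw [hc', Function.update_of_ne hj]; simp [Pi.single_eq_of_ne hj]
      rw [h6] at h5
      exact Wk.fwd (ep := Bd d M) (s := sT) (t := tT) (i, x) h5

theorem wk_tor [NeZero M] (x y : Tor d M) : Wk (ep := Bd d M) sT tT (dT x y) x y := by
  have h1 := wk_int (M := M) (dT x y) (fun i => (y i - x i).valMinAbs) x rfl
  have h2 : (fun i => x i + ((y i - x i).valMinAbs : ZMod M)) = y := by
    funext i
    rw [ZMod.coe_valMinAbs]; ring
  rwa [h2] at h1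

/-! ### sums of exponentials -/

theorem sum_Icc_pow (q : ℝ) (n : ℕ) :
    ∑ j ∈ Icc (-(n : ℤ)) n, q ^ j.natAbs = 1 + 2 * ∑ k ∈ range n, q ^ (k + 1) := by
  induction n with
  | zero => simp
  | succ n ih =>
    have h1 : Icc (-((n + 1 : ℕ) : ℤ)) ((n + 1 : ℕ) : ℤ) =
        insert ((n + 1 : ℕ) : ℤ) (insert (-((n + 1 : ℕ) : ℤ)) (Icc (-(n : ℤ)) n)) := by
      ext j
      simp only [mem_Icc, mem_insert]
      push_cast
      omega
    rw [h1, sum_insert, sum_insert, ih, sum_range_succ]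
    · have h2 : (((n + 1 : ℕ) : ℤ)).natAbs = n + 1 := Int.natAbs_natCast _
      have h3 : (-((n + 1 : ℕ) : ℤ)).natAbs = n + 1 := by rw [Int.natAbs_neg]; exact h2
      rw [h2, h3]; ring
    · simp only [mem_Icc]; push_cast; omega
    · simp only [mem_insert, mem_Icc]; push_cast; omega

theorem sum_zmod [NeZero M] (q : ℝ) (hq0 : 0 ≤ q) (hq1 : q < 1) (c : ZMod M) :
    ∑ z : ZMod M, q ^ (c - z).valMinAbs.natAbs ≤ 1 + 2 * (q / (1 - q)) := by
  have h1 : ∑ z : ZMod M, q ^ (c - z).valMinAbs.natAbs = ∑ z : ZMod M, q ^ z.valMinAbs.natAbs :=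
    Fintype.sum_equiv (Equiv.subLeft c) _ _ fun z => rfl
  rw [h1]
  have h2 : ∑ z : ZMod M, q ^ z.valMinAbs.natAbs =
      ∑ j ∈ univ.image (fun z : ZMod M => z.valMinAbs), q ^ j.natAbs := by
    rw [Finset.sum_image]
    intro a _ b _ hab
    exact ZMod.valMinAbs_inj.1 hab
  rw [h2]
  have h3 : univ.image (fun z : ZMod M => z.valMinAbs) ⊆ Icc (-(M : ℤ)) M := by
    intro j hj
    rw [mem_image] at hj
    obtain ⟨z, _, rfl⟩ := hj
    have h4 := ZMod.natAbs_valMinAbs_le z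
    rw [mem_Icc]
    omega
  refine (Finset.sum_le_sum_of_subset_of_nonneg h3 fun j _ _ => pow_nonneg hq0 _).trans ?_
  rw [sum_Icc_pow]
  have h4 : ∑ k ∈ range M, q ^ (k + 1) ≤ q / (1 - q) := by
    have h5 : ∑ k ∈ range M, q ^ (k + 1) = q * ∑ k ∈ range M, q ^ k := by
      rw [Finset.mul_sum]; exact Finset.sum_congr rfl fun k _ => by ring
    have h6 : (∑ k ∈ range M, q ^ k) * (1 - q) = 1 - q ^ M := geom_sum_mul_neg q M
    have h7 : 0 < 1 - q := by linarith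
    rw [h5, le_div_iff₀ h7, mul_assoc, h6]
    nlinarith only [pow_nonneg hq0 M, hq0]
  linarith only [h4]

theorem sum_exp [NeZero M] (a : ℝ) (ha : 0 < a) (b : Tor d M) :
    ∑ x : Tor d M, Real.exp (-(a * dT x b)) ≤ (1 + 2 / a) ^ d := by
  set q := Real.exp (-a) with hq
  have hq0 : 0 ≤ q := (Real.exp_pos _).le
  have hq1 : q < 1 := by rw [hq, Real.exp_lt_one_iff]; linarith
  have h1 : ∀ x : Tor d M, Real.exp (-(a * dT x b)) = ∏ i, q ^ (b i - x i).valMinAbs.natAbs :=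
    fun x => by
      rw [Finset.prod_pow_eq_pow_sum, hq, ← Real.exp_nat_mul]
      congr 1
      unfold dT; ring
  simp only [h1]
  have h2 : ∑ x : Tor d M, ∏ i, q ^ (b i - x i).valMinAbs.natAbs =
      ∏ i : Fin d, ∑ z : ZMod M, q ^ (b i - z).valMinAbs.natAbs := by
    rw [Finset.prod_univ_sum, Fintype.piFinset_univ]
  rw [h2]
  have h3 : ∀ i : Fin d, ∑ z : ZMod M, q ^ (b i - z).valMinAbs.natAbs ≤ 1 + 2 / a := fun i => by
    refine (sum_zmod q hq0 hq1 (b i)).trans ?_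
    have h4 : q / (1 - q) ≤ 1 / a := by
      rw [div_le_div_iff₀ (by linarith) ha]
      have h5 : a + 1 ≤ Real.exp a := Real.add_one_le_exp a
      have h6 : q * Real.exp a = 1 := by rw [hq, ← Real.exp_add]; simp
      nlinarith only [hq0, h5, h6]
    have : 2 / a = 2 * (1 / a) := by ring
    linarith only [h4, this]
  calc ∏ i : Fin d, ∑ z : ZMod M, q ^ (b i - z).valMinAbs.natAbs ≤ ∏ _i : Fin d, (1 + 2 / a) :=
        Finset.prod_le_prod (fun i _ => Finset.sum_nonneg fun z _ => pow_nonneg hq0 _)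
          fun i _ => h3 i
    _ = _ := by rw [Finset.prod_const, Finset.card_univ, Fintype.card_fin]

/-- the sum of `exp (- a ρ)` if `ρ x` is at least `c` times the distance from a set `b`, minus `r` -/
theorem sum_exp_set [NeZero M] (a c r : ℝ) (ha : 0 < a) (hc : 0 < c) (b : Finset (Tor d M))
    (ρ : Tor d M → ℝ) (A : Tor d M → Prop) [DecidablePred A]
    (hρ : ∀ x, A x → ∃ y ∈ b, c * dT x y - r ≤ ρ x) :
    ∑ x, (if A x then Real.exp (-(a * ρ x)) else 0) ≤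
      b.card * (Real.exp (a * r) * (1 + 2 / (a * c)) ^ d) := by
  have h1 : ∀ x, (if A x then Real.exp (-(a * ρ x)) else 0) ≤
      ∑ y ∈ b, Real.exp (a * r) * Real.exp (-(a * c * dT x y)) := fun x => by
    split
    · rename_i hx
      obtain ⟨y, hy, hxy⟩ := hρ x hx
      refine le_trans ?_ (Finset.single_le_sum
        (f := fun y => Real.exp (a * r) * Real.exp (-(a * c * dT x y)))
        (fun y _ => by positivity) hy)
      show Real.exp (-(a * ρ x)) ≤ Real.exp (a * r) * Real.exp (-(a * c * dT x y))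
      rw [← Real.exp_add]
      apply Real.exp_le_exp.2
      nlinarith only [ha, hxy]
    · exact Finset.sum_nonneg fun y _ => by positivity
  refine (Finset.sum_le_sum fun x _ => h1 x).trans ?_
  rw [Finset.sum_comm, ← nsmul_eq_mul]
  refine Finset.sum_le_card_nsmul _ _ _ fun y _ => ?_
  rw [← Finset.mul_sum]
  exact mul_le_mul_of_nonneg_left (sum_exp (a * c) (mul_pos ha hc) y) (Real.exp_pos _).le

end walks

/-! ### local part plus tail -/

section loc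

variable {X ep : Type*} [Fintype X] [Fintype ep]

/-- the form with the conductances `δ` -/
noncomputable def lap (δ : X → X → ℝ) (f : X → ℝ) : ℝ := 1 / 2 * ∑ x, ∑ y, δ x y * (f x - f y) ^ 2

/-- a symmetric matrix with zero row sums is a `lap` -/
theorem qd_lap (E : Matrix X X ℝ) (hE : ∀ x y, E x y = E y x) (h1 : ∀ x, ∑ y, E x y = 0)
    (f : X → ℝ) : qd E f = lap (fun x y => -E x y) f := by
  unfold qd lap
  have h2 : ∀ x y, -E x y * (f x - f y) ^ 2 =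
      2 * (f x * (E x y * f y)) - E x y * f x ^ 2 - E x y * f y ^ 2 := fun x y => by ring
  simp only [h2, Finset.sum_sub_distrib]
  have h3 : ∑ x, ∑ y, E x y * f x ^ 2 = 0 :=
    Finset.sum_eq_zero fun x _ => by rw [← Finset.sum_mul, h1, zero_mul]
  have h4 : ∑ x, ∑ y, E x y * f y ^ 2 = 0 := by
    rw [Finset.sum_comm]
    refine Finset.sum_eq_zero fun y _ => ?_
    have h5 : ∑ x : X, E x y = ∑ x : X, E y x := Finset.sum_congr rfl fun x _ => hE x y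
    rw [← Finset.sum_mul, h5, h1, zero_mul]
  rw [h3, h4, sub_zero, sub_zero]
  simp only [Matrix.mulVec, dotProduct, Finset.mul_sum]
  refine Finset.sum_congr rfl fun x _ => Finset.sum_congr rfl fun y _ => ?_
  ring

theorem lap_add (δ δ' : X → X → ℝ) (f : X → ℝ) :
    lap (fun x y => δ x y + δ' x y) f = lap δ f + lap δ' f := by
  unfold lap
  simp only [add_mul, Finset.sum_add_distrib]; ring

/-- the pairs in `B'` -/
noncomputable def inn (B' : X → Prop) [DecidablePred B'] (δ : X → X → ℝ) (x y : X) : ℝ :=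
  if B' x ∧ B' y then δ x y else 0

/-- the other pairs -/
noncomputable def out (B' : X → Prop) [DecidablePred B'] (δ : X → X → ℝ) (x y : X) : ℝ :=
  if B' x ∧ B' y then 0 else δ x y

theorem lap_split (B' : X → Prop) [DecidablePred B'] (δ : X → X → ℝ) (f : X → ℝ) :
    lap δ f = lap (inn B' δ) f + lap (out B' δ) f := by
  rw [← lap_add]
  congr 1
  funext x y
  unfold inn out
  split <;> simp

theorem lap_loc (B' : X → Prop) [DecidablePred B'] (δ : X → X → ℝ) (f g : X → ℝ) (c : ℝ)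
    (h : ∀ x, B' x → f x - g x = c) : lap (inn B' δ) f = lap (inn B' δ) g := by
  unfold lap inn
  congr 1
  refine Finset.sum_congr rfl fun x _ => Finset.sum_congr rfl fun y _ => ?_
  by_cases hxy : B' x ∧ B' y
  · rw [if_pos hxy]
    have h1 := h x hxy.1
    have h2 := h y hxy.2
    have : f x - f y = g x - g y := by linarith only [h1, h2]
    rw [this]
  · rw [if_neg hxy, zero_mul, zero_mul]

end loc

section final

variable {d M : ℕ} [NeZero M] {L R : ℕ}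

/-- one block of the torus: local part and tail. `|D| ≤ n Q1` for all functions, `UB Q1 al be`, the
conductances of `D` outside of `Core` are bounded by a Moreau expression (`tai`); then the error is a
Moreau expression in the box plus the tail. -/
theorem loc_tail (a : Tor d M) (hL : 0 < L) (hLM : L ≤ M) (hR : 0 < R) {al al' : Tor d M → ℝ}
    {be be' : Bd d M → ℝ} {b0 b1 n : ℝ} (hb0 : 0 < b0) (hb1 : 0 ≤ b1) (ha : ∀ x, 0 ≤ al x)
    (ha' : ∀ x, 0 ≤ al' x) (hn : 0 ≤ n)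
    (hbe : ∀ e, Box a L (sT e) ∧ Box a L (tT e) → b0 ≤ n * be e + be' e ∧ n * be e + be' e ≤ b1)
    {Q1 : (Tor d M → ℝ) → ℝ} (hU : UB sT tT Q1 al be) {δ : Tor d M → Tor d M → ℝ}
    (hD : ∀ f, |lap δ f| ≤ n * Q1 f)
    (hT : ∀ f h, |lap (out (Core a L R) δ) f| ≤ mor sT tT al' be' f h) (f h : Tor d M → ℝ) :
    |lap δ f| ≤ (2 + 2 * (d : ℝ) ^ 2 * ((L : ℝ) / R) ^ 2 * (b1 / b0)) *
      morB sT tT (Box a L) (fun x => n * al x + al' x) (fun e => n * be e + be' e) f h +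
        mor sT tT al' be' f h := by
  have h1 : UB sT tT (fun f => |lap (inn (Core a L R) δ) f|) (fun x => n * al x + al' x)
      (fun e => n * be e + be' e) := by
    intro f h
    rw [mor_add, mor_smul]
    have h2 : |lap (inn (Core a L R) δ) f| ≤ |lap δ f| + |lap (out (Core a L R) δ) f| := by
      have h3 := lap_split (Core a L R) δ f
      have h4 : lap (inn (Core a L R) δ) f = lap δ f - lap (out (Core a L R) δ) f := by linarith
      rw [h4]; exact abs_sub _ _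
    have h5 := mul_le_mul_of_nonneg_left (hU f h) hn
    linarith [hD f, hT f h]
  have h2 := ltgT a hL hLM hR hb0 hb1 (fun x => add_nonneg (mul_nonneg hn (ha x)) (ha' x)) hbe h1
    zero_le_one (D := fun f => lap (inn (Core a L R) δ) f) (fun f _ => by rw [one_mul])
    (fun f g c hfg => lap_loc (Core a L R) δ f g c hfg) f h
  rw [one_mul] at h2
  have h3 : |lap δ f| ≤ |lap (inn (Core a L R) δ) f| + |lap (out (Core a L R) δ) f| := by
    rw [lap_split (Core a L R) δ f]; exact abs_add_le _ _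
  linarith [hT f h]

end final

end Pool.Agent.LTG.H89
end -- Pool.Agent.Helper89_LTG.Tai2

section -- Pool.Agent.Helper89_LTG.Tai3

/-!
# TAI on the torus: everything explicit
-/

set_option autoImplicit false

open scoped BigOperators
open Finset

namespace Pool.Agent.LTG.H89

section dist

variable {d M : ℕ}

theorem dT_self (x : Tor d M) : dT x x = 0 := by
  unfold dT
  refine Finset.sum_eq_zero fun i _ => ?_
  rw [sub_self, ZMod.valMinAbs_zero, Int.natAbs_zero]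

theorem dT_comm (x y : Tor d M) : dT x y = dT y x := by
  unfold dT
  refine Finset.sum_congr rfl fun i _ => ?_
  rw [← neg_sub, ZMod.natAbs_valMinAbs_neg]

theorem dT_triangle (x y z : Tor d M) : dT x z ≤ dT x y + dT y z := by
  unfold dT
  rw [← Finset.sum_add_distrib]
  refine Finset.sum_le_sum fun i _ => ?_
  have h1 : z i - x i = (y i - x i) + (z i - y i) := by ring
  rw [h1]
  exact ((y i - x i).natAbs_valMinAbs_add_le (z i - y i)).trans (Int.natAbs_add_le _ _)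

theorem dT_bond [NeZero M] (e : Bd d M) : dT (sT e) (tT e) ≤ 1 := by
  have h1 : ∀ i, ((tT e : Tor d M) i - (sT e : Tor d M) i).valMinAbs.natAbs ≤
      if i = e.1 then 1 else 0 := fun i => by
    unfold tT sT
    simp only [Pi.add_apply, add_sub_cancel_left]
    by_cases hi : i = e.1
    · rw [if_pos hi, hi, Pi.single_eq_same, ZMod.valMinAbs_natAbs_eq_min]
      refine (min_le_left _ _).trans ?_
      rw [ZMod.val_one_eq_one_mod]
      exact Nat.mod_le 1 M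
    · rw [if_neg hi, Pi.single_eq_of_ne hi]; simp
  unfold dT
  refine (Finset.sum_le_sum fun i _ => h1 i).trans (le_of_eq ?_)
  rw [Finset.sum_ite_eq' univ e.1 fun _ => 1, if_pos (mem_univ _)]

/-- the distance from a finite set -/
noncomputable def dS (b : Finset (Tor d M)) (x : Tor d M) : ℕ := sInf {n | ∃ y ∈ b, dT x y = n}

theorem dS_mem {b : Finset (Tor d M)} (hb : b.Nonempty) (x : Tor d M) :
    ∃ y ∈ b, dT x y = dS b x := by
  obtain ⟨y, hy⟩ := hb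
  exact Nat.sInf_mem (s := {n | ∃ y ∈ b, dT x y = n}) ⟨dT x y, y, hy, rfl⟩

theorem dS_le {b : Finset (Tor d M)} {y : Tor d M} (hy : y ∈ b) (x : Tor d M) :
    dS b x ≤ dT x y := Nat.sInf_le ⟨y, hy, rfl⟩

theorem dS_lip {b : Finset (Tor d M)} (hb : b.Nonempty) (x z : Tor d M) :
    dS b x ≤ dT x z + dS b z := by
  obtain ⟨y, hy, h⟩ := dS_mem hb z
  exact (dS_le hy x).trans ((dT_triangle x z y).trans (by rw [h]))

theorem dS_bond [NeZero M] {b : Finset (Tor d M)} (hb : b.Nonempty) (e : Bd d M) :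
    |(dS b (tT e) : ℝ) - dS b (sT e)| ≤ 1 := by
  have h1 := dS_lip hb (tT e) (sT e)
  have h2 := dS_lip hb (sT e) (tT e)
  have h3 := dT_bond e
  rw [dT_comm] at h1
  rw [abs_le]
  have h4 : (dS b (tT e) : ℝ) ≤ 1 + dS b (sT e) := by exact_mod_cast h1.trans (by omega)
  have h5 : (dS b (sT e) : ℝ) ≤ 1 + dS b (tT e) := by exact_mod_cast h2.trans (by omega)
  constructor <;> linarith

theorem dT_bond_abs [NeZero M] (o : Tor d M) (e : Bd d M) :
    |(dT (tT e) o : ℝ) - dT (sT e) o| ≤ 1 := by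
  have h1 := dT_triangle (tT e) (sT e) o
  have h2 := dT_triangle (sT e) (tT e) o
  have h3 := dT_bond e
  rw [dT_comm (tT e) (sT e)] at h1
  rw [abs_le]
  have h4 : (dT (tT e) o : ℝ) ≤ 1 + dT (sT e) o := by exact_mod_cast h1.trans (by omega)
  have h5 : (dT (sT e) o : ℝ) ≤ 1 + dT (tT e) o := by exact_mod_cast h2.trans (by omega)
  constructor <;> linarith

end dist

section torus

variable {d M : ℕ} [NeZero M]

/-- TAI on the torus. `ρ ≥ 0` has increments at most `1` on the bonds and is at least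
`c * distance from b - r0` on `A`; the diameter of `b` is at most `D0`; the pairs in the support of `δ`
have `ρ x + ρ y ≥ r`. -/
theorem tai_tor (b : Finset (Tor d M)) {D0 : ℕ} (hD0 : ∀ y ∈ b, ∀ z ∈ b, dT y z ≤ D0)
    {ρ : Tor d M → ℝ} (hρ0 : ∀ x, 0 ≤ ρ x)
    (hρ : ∀ e : Bd d M, |ρ (tT e) - ρ (sT e)| ≤ 1) {A : Tor d M → Prop} [DecidablePred A]
    {δ : Tor d M → Tor d M → ℝ} {T a c r r0 K : ℝ} (hT : 0 ≤ T) (ha : 0 < a) (hc : 0 < c)
    (hρb : ∀ x, A x → ∃ y ∈ b, c * dT x y - r0 ≤ ρ x) (hK : 1 ≤ K)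
    (hKr : 2 * r0 / c + D0 ≤ (K - 1 / c) * r) (hKc : 1 / c ≤ K)
    (hδ : ∀ x y, |δ x y| ≤ T * Real.exp (-(a * (ρ x + ρ y))))
    (hA : ∀ x y, δ x y ≠ 0 → A x ∧ A y ∧ r ≤ ρ x + ρ y) (f h : Tor d M → ℝ) :
    |lap δ f| ≤
      mor sT tT (cutX A fun x => 3 * (T * Real.exp (-(a / 2 * r))) *
          (b.card * (Real.exp (a / 8 * r0) * (1 + 16 / (a * c)) ^ d)) * Real.exp (-(a / 2 * ρ x)))
        (fun e => 384 * (T * Real.exp (-(a / 2 * r))) * K ^ 2 *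
          (b.card * (Real.exp (a / 8 * r0) * (1 + 16 / (a * c)) ^ d)) ^ 2 / a ^ 2 *
            Real.exp (-(a / (4 * K) * ρ (sT e)))) f h := by
  have h1 := tai (s := sT) (t := tT) (A := A) (δ := δ) (n := fun x y => dT x y)
    (T := T * Real.exp (-(a / 2 * r))) (a := a / 2) (K := K)
    (N := b.card * (Real.exp (a / 8 * r0) * (1 + 16 / (a * c)) ^ d)) hρ0 hρ
    (fun x y _ => wk_tor x y) (mul_nonneg hT (Real.exp_pos _).le) (by positivity) hK ?_
    (fun x y h => ⟨(hA x y h).1, (hA x y h).2.1⟩) ?_ ?_ f h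
  · unfold lap
    refine h1.trans (le_of_eq ?_)
    congr 1
    funext e
    have e1 : 96 * (T * Real.exp (-(a / 2 * r))) * K ^ 2 *
          (b.card * (Real.exp (a / 8 * r0) * (1 + 16 / (a * c)) ^ d)) ^ 2 / (a / 2) ^ 2 =
        384 * (T * Real.exp (-(a / 2 * r))) * K ^ 2 *
          (b.card * (Real.exp (a / 8 * r0) * (1 + 16 / (a * c)) ^ d)) ^ 2 / a ^ 2 := by
      field_simp; ring
    have e2 : a / 2 / (2 * K) = a / (4 * K) := by
      have : K ≠ 0 := by linarith only [hK]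
      field_simp; norm_num
    rw [e1, e2]
  · intro x y
    by_cases hd : δ x y = 0
    · rw [hd, abs_zero]; exact mul_nonneg (mul_nonneg hT (Real.exp_pos _).le) (Real.exp_pos _).le
    · refine (hδ x y).trans ?_
      rw [mul_assoc]
      refine mul_le_mul_of_nonneg_left ?_ hT
      rw [← Real.exp_add]
      apply Real.exp_le_exp.2
      nlinarith only [(hA x y hd).2.2, ha]
  · intro x y hd
    obtain ⟨hx, hy, hr⟩ := hA x y hd
    obtain ⟨x', hx', hxx⟩ := hρb x hx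
    obtain ⟨y', hy', hyy⟩ := hρb y hy
    have h2 : dT x y ≤ dT x x' + D0 + dT y y' := by
      have h3 := dT_triangle x x' y
      have h4 := dT_triangle x' y' y
      have h5 := hD0 x' hx' y' hy'
      rw [dT_comm y' y] at h4
      omega
    have h3 : (dT x y : ℝ) ≤ dT x x' + D0 + dT y y' := by exact_mod_cast h2
    have h4 : (dT x x' : ℝ) ≤ (ρ x + r0) / c := by rw [le_div_iff₀ hc]; linarith only [hxx]
    have h5 : (dT y y' : ℝ) ≤ (ρ y + r0) / c := by rw [le_div_iff₀ hc]; linarith only [hyy]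
    have h6 : (ρ x + r0) / c + (ρ y + r0) / c = 1 / c * (ρ x + ρ y) + 2 * r0 / c := by
      field_simp; ring
    have h7 : (K - 1 / c) * r ≤ (K - 1 / c) * (ρ x + ρ y) :=
      mul_le_mul_of_nonneg_left hr (by linarith only [hKc])
    linarith
  · have h2 := sum_exp_set (a / 8) c r0 (by positivity) hc b ρ A hρb
    have e1 : a / 2 / 4 = a / 8 := by ring
    have e2 : 2 / (a / 8 * c) = 16 / (a * c) := by field_simp; norm_num
    rw [e1]
    rw [e2] at h2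
    exact h2

/-- TAI on the torus, weights decaying away from a point: `w x y ≤ T exp (- a (|x - o| + |y - o|))` -/
theorem tai_pt (o : Tor d M) {A : Tor d M → Prop} [DecidablePred A]
    {δ : Tor d M → Tor d M → ℝ} {T a : ℝ} (hT : 0 ≤ T) (ha : 0 < a)
    (hδ : ∀ x y, |δ x y| ≤ T * Real.exp (-(a * ((dT x o : ℝ) + dT y o))))
    (hA : ∀ x y, δ x y ≠ 0 → A x ∧ A y) (f h : Tor d M → ℝ) :
    |lap δ f| ≤
      mor sT tT (cutX A fun x => 3 * T * (1 + 16 / a) ^ d * Real.exp (-(a / 2 * dT x o)))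
        (fun e => 384 * T * ((1 + 16 / a) ^ d) ^ 2 / a ^ 2 *
            Real.exp (-(a / 4 * dT (sT e) o))) f h := by
  have h1 := tai_tor {o} (D0 := 0) (by
      intro y hy z hz
      rw [mem_singleton] at hy hz
      rw [hy, hz, dT_self]) (ρ := fun x => (dT x o : ℝ)) (fun x => Nat.cast_nonneg _)
    (fun e => dT_bond_abs o e) (A := A) (δ := δ) (T := T) (a := a) (c := 1) (r := 0) (r0 := 0)
    (K := 1) hT ha one_pos (fun x _ => ⟨o, mem_singleton_self o, by simp⟩) le_rfl (by simp)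
    (by simp) hδ (fun x y h => ⟨(hA x y h).1, (hA x y h).2, by positivity⟩) f h
  simpa using h1

/-- the one-point version: the variance of `f` in a weight which decays exponentially -/
theorem var_lap {X : Type*} [Fintype X] {w : X → ℝ} {W m : ℝ} (hW : ∑ x, w x = W) (hW0 : 0 < W)
    (f : X → ℝ) (hm : W * m = ∑ x, w x * f x) :
    ∑ x, w x * (f x - m) ^ 2 = lap (fun x y => w x * w y / W) f := by
  unfold lap
  have h1 : ∀ x y, w x * w y / W * (f x - f y) ^ 2 =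
      (w x * f x ^ 2 / W) * w y + (w x / W) * (w y * f y ^ 2) - 2 * (w x * f x / W) * (w y * f y) :=
    fun x y => by ring
  simp only [h1, Finset.sum_sub_distrib, Finset.sum_add_distrib, ← Finset.mul_sum, ← hm, hW]
  have h2 : ∑ x, 2 * (w x * f x / W) = 2 * m := by
    rw [← Finset.mul_sum, ← Finset.sum_div, ← hm]; field_simp
  have h4 : ∑ x, w x / W = 1 := by rw [← Finset.sum_div, hW]; field_simp
  rw [← Finset.sum_mul, ← Finset.sum_mul, ← Finset.sum_mul, h2, h4, ← Finset.sum_div]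
  have h3 : ∀ x, w x * (f x - m) ^ 2 = w x * f x ^ 2 - 2 * m * (w x * f x) + m ^ 2 * w x :=
    fun x => by ring
  simp only [h3, Finset.sum_sub_distrib, Finset.sum_add_distrib, ← Finset.mul_sum, ← hm, hW]
  field_simp
  ring

/-- the weights of the one-point version -/
theorem var_wt {X : Type*} [Fintype X] {w : X → ℝ} {W : ℝ} (hw : ∀ x, 0 ≤ w x)
    (hW : ∑ x, w x = W) (hW0 : 0 < W) {T a : ℝ} {ρ : X → ℝ} (hT : 0 ≤ T)
    (hwT : ∀ x, w x ≤ T * Real.exp (-(a * ρ x))) (x y : X) :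
    |w x * w y / W| ≤ T * Real.exp (-(a / 2 * (ρ x + ρ y))) := by
  have h0 : 0 ≤ w x * w y / W := div_nonneg (mul_nonneg (hw x) (hw y)) hW0.le
  rw [abs_of_nonneg h0]
  have hx : w x ≤ W := by rw [← hW]; exact Finset.single_le_sum (fun i _ => hw i) (mem_univ x)
  have hy : w y ≤ W := by rw [← hW]; exact Finset.single_le_sum (fun i _ => hw i) (mem_univ y)
  have h1 : w x * w y / W ≤ w x := by
    rw [div_le_iff₀ hW0]; exact mul_le_mul_of_nonneg_left hy (hw x)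
  have h2 : w x * w y / W ≤ w y := by
    rw [div_le_iff₀ hW0, mul_comm]; exact mul_le_mul_of_nonneg_left hx (hw y)
  have h3 : (w x * w y / W) ^ 2 ≤ (T * Real.exp (-(a / 2 * (ρ x + ρ y)))) ^ 2 := by
    have h4 : (w x * w y / W) * (w x * w y / W) ≤
        (T * Real.exp (-(a * ρ x))) * (T * Real.exp (-(a * ρ y))) :=
      mul_le_mul (h1.trans (hwT x)) (h2.trans (hwT y)) h0 (mul_nonneg hT (Real.exp_pos _).le)
    rw [sq]
    refine h4.trans (le_of_eq ?_)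
    have h5 : Real.exp (-(a * ρ x)) * Real.exp (-(a * ρ y)) =
        Real.exp (-(a / 2 * (ρ x + ρ y))) * Real.exp (-(a / 2 * (ρ x + ρ y))) := by
      rw [← Real.exp_add, ← Real.exp_add]; congr 1; ring
    calc T * Real.exp (-(a * ρ x)) * (T * Real.exp (-(a * ρ y))) =
        T * T * (Real.exp (-(a * ρ x)) * Real.exp (-(a * ρ y))) := by ring
      _ = _ := by rw [h5]; ring
  exact le_of_sq_le_sq h3 (mul_nonneg hT (Real.exp_pos _).le)

end torus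

end Pool.Agent.LTG.H89
end -- Pool.Agent.Helper89_LTG.Tai3

section -- Pool.Agent.Helper22_LTG.Fst

/-!
# FSTEP: the form part of one block update on the torus

The block `F` changes (`Upd`), `E1` is the ladder of the old form, the new form is within `n E1` of `E1`
for functions supported in the nodes of the box (`Fl.Good.frm`). Then the new form satisfies the two
sided comparison relative to the start of the stage, with the block counted in the potential.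
-/

set_option autoImplicit false

open scoped BigOperators Matrix
open Finset

noncomputable section

namespace Pool.Agent.LTG.Fst

open Pool.Agent.LTG Pool.Agent.LTG.H89 Pool.Agent.ANR Pool.Agent.ANR.H89 Pool.Agent.AFJ
  Pool.Agent.LE.QF

section gen

variable {X : Type} [Fintype X] [DecidableEq X]

theorem cd_symm {G : Matrix X X ℂ} (hG : ∀ x y, G x y = G y x) (κ : X → ℝ) (A : Finset X)
    (x y : X) : cd G κ A x y = cd G κ A y x := by
  unfold cd KK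
  rw [hG x y]
  by_cases h : x ∈ A ∧ y ∈ A
  · rw [if_pos h, if_pos h.symm]; ring
  · rw [if_neg h, if_neg (fun h' => h h'.symm)]

theorem ee_symm {G : Matrix X X ℂ} (hG : ∀ x y, G x y = G y x) (κ : X → ℝ) (A : Finset X)
    (x y : X) : EE G κ A x y = EE G κ A y x := by
  by_cases h : x = y
  · rw [h]
  · rw [ee_off _ _ _ h, ee_off _ _ _ (Ne.symm h), cd_symm hG]

theorem ee_row (G : Matrix X X ℂ) (κ : X → ℝ) (A : Finset X) (x : X) :
    ∑ y, EE G κ A x y = 0 := by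
  rw [← Finset.add_sum_erase _ _ (Finset.mem_univ x), ee_diag, ← Finset.sum_add_distrib]
  refine Finset.sum_eq_zero fun y hy => ?_
  rw [ee_off _ _ _ (Finset.ne_of_mem_erase hy).symm]
  ring

theorem ee_psd {G : Matrix X X ℂ} (hG : ∀ x y, G x y = G y x) {κ : X → ℝ} (hκ : ∀ x, 0 ≤ κ x)
    (A : Finset X) (f : X → ℝ) : 0 ≤ qd (EE G κ A) f := by
  rw [qd_lap _ (ee_symm hG κ A) (ee_row G κ A)]
  unfold lap
  refine mul_nonneg (by norm_num) (Finset.sum_nonneg fun x _ => Finset.sum_nonneg fun y _ => ?_)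
  change 0 ≤ -EE G κ A x y * (f x - f y) ^ 2
  by_cases h : x = y
  · rw [h, sub_self]; simp
  · rw [ee_off _ _ _ h, neg_neg]
    refine mul_nonneg ?_ (sq_nonneg _)
    unfold cd
    split
    · exact mul_nonneg (mul_nonneg (hκ x) (hκ y)) (sq_nonneg _)
    · exact le_rfl

/-- a symmetric matrix -/
theorem issymm {E : Matrix X X ℝ} (h : ∀ x y, E x y = E y x) : E.IsSymm :=
  Matrix.IsSymm.ext fun x y => h y x

/-- rows of the ladder -/
theorem lad_row {E E1 : Matrix X X ℝ} {τ : X → ℝ} (h : Lad E E1 τ) (hE : ∀ x, ∑ y, E x y = 0)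
    (x : X) : ∑ y, E1 x y = 0 := by
  have h1 : E *ᵥ (fun _ => (1 : ℝ)) = 0 := by
    funext y
    simp only [Matrix.mulVec, dotProduct, mul_one, Pi.zero_apply]
    exact hE y
  have h2 := congrFun (lad_const h _ h1) x
  simpa [Matrix.mulVec, dotProduct] using h2

/-- the difference of two forms -/
def dlt (E' E1 : Matrix X X ℝ) (x y : X) : ℝ := if x = y then 0 else E1 x y - E' x y

theorem qd_sub {E' E1 : Matrix X X ℝ} (hs : ∀ x y, E' x y = E' y x) (h0 : ∀ x, ∑ y, E' x y = 0)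
    (hs1 : ∀ x y, E1 x y = E1 y x) (h1 : ∀ x, ∑ y, E1 x y = 0) (f : X → ℝ) :
    qd E' f - qd E1 f = lap (dlt E' E1) f := by
  rw [qd_lap E' hs h0, qd_lap E1 hs1 h1]
  unfold lap
  rw [← mul_sub, ← Finset.sum_sub_distrib]
  congr 1
  refine Finset.sum_congr rfl fun x _ => ?_
  rw [← Finset.sum_sub_distrib]
  refine Finset.sum_congr rfl fun y _ => ?_
  unfold dlt
  by_cases h : x = y
  · rw [if_pos h, h]; simp
  · rw [if_neg h]; ring

/-- conductances which live on the nodes see only the nodes -/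
theorem lap_nodes {δ : X → X → ℝ} {A : Finset X} (hδ : ∀ x y, ¬ (x ∈ A ∧ y ∈ A) → δ x y = 0)
    {f g : X → ℝ} (h : ∀ x ∈ A, f x = g x) : lap δ f = lap δ g := by
  unfold lap
  congr 1
  refine Finset.sum_congr rfl fun x _ => Finset.sum_congr rfl fun y _ => ?_
  by_cases hxy : x ∈ A ∧ y ∈ A
  · rw [h x hxy.1, h y hxy.2]
  · rw [hδ x y hxy, zero_mul, zero_mul]

theorem qd_nodes {E : Matrix X X ℝ} (hs : ∀ x y, E x y = E y x) (h0 : ∀ x, ∑ y, E x y = 0)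
    {A : Finset X} (hA : ∀ x y, x ≠ y → ¬ (x ∈ A ∧ y ∈ A) → E x y = 0) {f g : X → ℝ}
    (h : ∀ x ∈ A, f x = g x) : qd E f = qd E g := by
  have e : ∀ u : X → ℝ, qd E u = lap (fun x y => if x = y then 0 else -E x y) u := by
    intro u
    rw [qd_lap E hs h0]
    unfold lap
    congr 1
    refine Finset.sum_congr rfl fun x _ => Finset.sum_congr rfl fun y _ => ?_
    change -E x y * (u x - u y) ^ 2 = (if x = y then 0 else -E x y) * (u x - u y) ^ 2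
    by_cases hxy : x = y
    · rw [if_pos hxy, hxy]; simp
    · rw [if_neg hxy]
  rw [e f, e g]
  refine lap_nodes (A := A) (fun x y hxy => ?_) h
  by_cases h2 : x = y
  · rw [if_pos h2]
  · rw [if_neg h2, hA x y h2 hxy, neg_zero]

end gen

section torus

variable {d M : ℕ} [NeZero M] {L R : ℕ}

/-- the constant of the tail -/
def TN (d : ℕ) (β c r r0 τs : ℝ) (nb : ℕ) : ℝ :=
  3 * ((8 + 4 * τs) * Real.exp (-(β / 2 * r))) *
    (nb * (Real.exp (β / 8 * r0) * (1 + 16 / (β * c)) ^ d))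

/-- the constant of the tail, bonds -/
def TE (d : ℕ) (β c r r0 τs K : ℝ) (nb : ℕ) : ℝ :=
  384 * ((8 + 4 * τs) * Real.exp (-(β / 2 * r))) * K ^ 2 *
    (nb * (Real.exp (β / 8 * r0) * (1 + 16 / (β * c)) ^ d)) ^ 2 / β ^ 2

/-- (FSTEP, error) -/
theorem fst_err (a : Tor d M) (hL0 : 0 < L) (hLM : L ≤ M) (hR : 0 < R)
    {H H' : Matrix (Tor d M) (Tor d M) ℝ} {κ κ' φ : Tor d M → ℝ} {F A S b : Finset (Tor d M)}
    {h₀ k₀ β τs : ℝ} (hU : Upd H H' κ κ' φ F A S h₀ k₀ β) (hFA : F ⊆ A) (hβ : 0 < β)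
    {w w' εl εu τ om : Tor d M → ℝ} {bl bu ome : Bd d M → ℝ} {b0 bb b1 n m u cu nn D : ℝ}
    {E1 : Matrix (Tor d M) (Tor d M) ℝ}
    (h : Fm sT tT A w εl εu bl bu (qd (EE (Gr H κ) κ A)))
    (hL : Lad (EE (Gr H κ) κ A) E1 τ) (hτs : ∀ x, τ x ≤ τs) (hτF : ∀ x, x ∉ F → τ x = 0)
    (hw : ∀ x ∈ A, 0 < w x) (hw' : ∀ x ∈ A, 0 < w' x ∧ w' x ≤ w x)
    (h0 : ∀ x ∈ A, 0 ≤ εl x) (h1 : ∀ x ∈ A, εl x ≤ 1 / 4)
    (h0u : ∀ x ∈ A, 0 ≤ εu x) (h1u : ∀ x ∈ A, 1 ≤ cu * (1 - εu x)) (hcu : 0 < cu)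
    (hτ : ∀ x ∈ A, τ x = 1 / w' x - 1 / w x)
    (hb0 : 0 < b0) (hbl : ∀ e, b0 ≤ bl e) (hbb : 0 < bb) (hbu : ∀ e, bb ≤ bu e)
    (hbu1 : ∀ e, bu e ≤ b1) (hb1 : 0 ≤ b1) (hn : 0 ≤ n) (hm : 0 ≤ m)
    (hfrm : ∀ f : Tor d M → ℝ, (∀ x, ¬ (x ∈ A ∧ Box a L x) → f x = 0) →
      |qd (EE (Gr H' κ') κ' A) f - qd E1 f| ≤ n * qd E1 f)
    (hFc : ∀ x ∈ F, Core a L R x) (hφ1 : ∀ e : Bd d M, |φ (tT e) - φ (sT e)| ≤ 1)
    {c r0 r K : ℝ} {D0 : ℕ} (hc : 0 < c) (hD0 : ∀ y ∈ b, ∀ z ∈ b, dT y z ≤ D0)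
    (hφc : ∀ x ∈ A, ∃ y ∈ b, c * dT x y - r0 ≤ φ x) (hK : 1 ≤ K)
    (hKr : 2 * r0 / c + D0 ≤ (K - 1 / c) * r) (hKc : 1 / c ≤ K)
    (hr : ∀ x ∈ A, ¬ Core a L R x → r ≤ φ x)
    (hta : ∀ x ∈ A, TN d β c r r0 τs b.card * Real.exp (-(β / 2 * φ x)) ≤ m * w' x)
    (htb : TE d β c r r0 τs K b.card ≤ m * b0)
    (hu : (2 + 2 * (d : ℝ) ^ 2 * ((L : ℝ) / R) ^ 2 * (b1 / bb)) * (n + 2 * m) * cu ≤ u)
    (hu2 : (2 + 2 * (d : ℝ) ^ 2 * ((L : ℝ) / R) ^ 2 * (b1 / bb)) * (n + 2 * m) ≤ u)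
    (hun : u ≤ nn / 2) (hub : u * b1 ≤ nn / 2 * D) (hD : 0 ≤ D)
    (hom0 : ∀ x, 0 ≤ om x) (home0 : ∀ e, 0 ≤ ome e)
    (homB : ∀ x, Box a L x → 1 ≤ om x)
    (homeB : ∀ e : Bd d M, Box a L (sT e) → Box a L (tT e) → 1 ≤ ome e)
    (hom : ∀ x ∈ A, TN d β c r r0 τs b.card * Real.exp (-(β / 2 * φ x)) ≤ nn / 2 * om x * w' x)
    (home : ∀ e : Bd d M, TE d β c r r0 τs K b.card * Real.exp (-(β / (4 * K) * φ (sT e))) ≤
      nn / 2 * D * ome e)
    (f g : Tor d M → ℝ) :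
    |qd (EE (Gr H' κ') κ' A) f - qd E1 f| ≤ mor sT tT
      (fun x => if x ∈ A then nn * om x * w' x else 0) (fun e => nn * D * ome e) f g := by
  have hsG : ∀ x y, Gr H κ x y = Gr H κ y x := (hGeq _ H κ hU.n).2.1
  have hsG' : ∀ x y, Gr H' κ' x y = Gr H' κ' y x := (hGeq _ H' κ' hU.n').2.1
  have hs' := ee_symm hsG' κ' A
  have hr' := ee_row (Gr H' κ') κ' A
  have hs1 : ∀ x y, E1 x y = E1 y x := fun x y => (lad_symm hL).apply y x
  have hr1 := lad_row hL (ee_row (Gr H κ) κ A)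
  have hτb : ∀ x, 0 ≤ τ x ∧ τ x ≤ τs := fun x => ⟨hL.tau x, hτs x⟩
  have hτs0 : 0 ≤ τs := (hτb 0).1.trans (hτb 0).2
  -- the pairs outside of the nodes
  have hoff1 : ∀ x y, x ≠ y → ¬ (x ∈ A ∧ y ∈ A) → E1 x y = 0 := by
    intro x y hne hA
    have h2 : ¬ (x ∈ F ∧ y ∈ F) := fun hF => hA ⟨hFA hF.1, hFA hF.2⟩
    have h3 := hU.ee_tail hτb hτF hL hne h2
    rw [if_neg hA, ee_off _ _ _ hne] at h3
    have h4 : cd (Gr H' κ') κ' A x y = 0 := by unfold cd; rw [if_neg hA]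
    rw [h4, neg_zero, zero_sub, abs_neg] at h3
    exact abs_eq_zero.1 (le_antisymm h3 (abs_nonneg _))
  have hoff' : ∀ x y, x ≠ y → ¬ (x ∈ A ∧ y ∈ A) → EE (Gr H' κ') κ' A x y = 0 := by
    intro x y hne hA
    rw [ee_off _ _ _ hne]
    unfold cd
    rw [if_neg hA, neg_zero]
  -- the support
  have hE : ∀ f : Tor d M → ℝ, (∀ x, ¬ Box a L x → f x = 0) →
      |qd (EE (Gr H' κ') κ' A) f - qd E1 f| ≤ n * qd E1 f := by
    intro f hf
    set f' : Tor d M → ℝ := fun x => if x ∈ A then f x else 0 with hf'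
    have e1 : ∀ x ∈ A, f x = f' x := fun x hx => by rw [hf']; simp [hx]
    rw [qd_nodes hs' hr' hoff' e1, qd_nodes hs1 hr1 hoff1 e1]
    refine hfrm f' fun x hx => ?_
    rw [hf']
    by_cases hxA : x ∈ A
    · simp only [hxA, if_true]
      exact hf x fun hB => hx ⟨hxA, hB⟩
    · simp [hxA]
  -- the tail
  have htl : ∀ f g : Tor d M → ℝ, |lap (out (Core a L R) (dlt (EE (Gr H' κ') κ' A) E1)) f| ≤
      mor sT tT (fun x => if x ∈ A then
        TN d β c r r0 τs b.card * Real.exp (-(β / 2 * φ x)) / w' x * w' x else 0)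
        (fun e => TE d β c r r0 τs K b.card * Real.exp (-(β / (4 * K) * φ (sT e)))) f g := by
    intro f g
    have h2 := tai_tor (A := fun x => x ∈ A) (ρ := φ) (T := 8 + 4 * τs) (a := β) (c := c)
      (r := r) (r0 := r0) (K := K) (δ := out (Core a L R) (dlt (EE (Gr H' κ') κ' A) E1)) b
      (D0 := D0) hD0 hU.plt.nn hφ1 (by linarith only [hτs0]) hβ hc hφc hK hKr hKc
      (fun x y => ?_) (fun x y hd => ?_) f g
    · refine h2.trans (mor_mono sT tT (fun x => ?_) (fun e => ?_) f g)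
      · unfold cutX TN
        by_cases hx : x ∈ A
        · rw [if_pos hx, if_pos hx, div_mul_cancel₀ _ (hw' x hx).1.ne']
        · rw [if_neg hx, if_neg hx]
      · unfold TE
        exact le_rfl
    · unfold out
      by_cases hC : Core a L R x ∧ Core a L R y
      · rw [if_pos hC, abs_zero]
        exact mul_nonneg (by linarith only [hτs0]) (Real.exp_pos _).le
      · rw [if_neg hC]
        unfold dlt
        by_cases hxy : x = y
        · rw [if_pos hxy, abs_zero]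
          exact mul_nonneg (by linarith only [hτs0]) (Real.exp_pos _).le
        · rw [if_neg hxy, abs_sub_comm]
          refine (hU.ee_tail hτb hτF hL hxy fun hF => hC ⟨hFc x hF.1, hFc y hF.2⟩).trans ?_
          split
          · exact le_rfl
          · exact mul_nonneg (by linarith only [hτs0]) (Real.exp_pos _).le
    · unfold out at hd
      by_cases hC : Core a L R x ∧ Core a L R y
      · rw [if_pos hC] at hd; exact absurd rfl hd
      · rw [if_neg hC] at hd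
        unfold dlt at hd
        by_cases hxy : x = y
        · rw [if_pos hxy] at hd; exact absurd rfl hd
        · rw [if_neg hxy] at hd
          have hA : x ∈ A ∧ y ∈ A := by
            by_contra hA
            rw [hoff1 x y hxy hA, hoff' x y hxy hA, sub_zero] at hd
            exact hd rfl
          refine ⟨hA.1, hA.2, ?_⟩
          have hx0 := hU.plt.nn x
          have hy0 := hU.plt.nn y
          by_cases hx : Core a L R x
          · have hy : ¬ Core a L R y := fun hy => hC ⟨hx, hy⟩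
            have := hr y hA.2 hy
            linarith only [hx0, this]
          · have := hr x hA.1 hx
            linarith only [hy0, this]
  have hTE0 : 0 ≤ TE d β c r r0 τs K b.card := by unfold TE; positivity
  have hTN0 : 0 ≤ TN d β c r r0 τs b.card := by unfold TN; positivity
  have hmain := err (ta := fun x => TN d β c r r0 τs b.card * Real.exp (-(β / 2 * φ x)) / w' x)
    (tb := fun e => TE d β c r r0 τs K b.card * Real.exp (-(β / (4 * K) * φ (sT e))))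
    (Q' := qd (EE (Gr H' κ') κ' A))
    (D := lap (inn (Core a L R) (dlt (EE (Gr H' κ') κ' A) E1)))
    (tl := lap (out (Core a L R) (dlt (EE (Gr H' κ') κ' A) E1)))
    a hL0 hLM hR h hL hw hw' h0 h1 h0u h1u hcu hτ hb0 hbl hbb hbu hbu1 hb1 hn hm hE
    (fun f => by rw [qd_sub hs' hr' hs1 hr1, lap_split (Core a L R)])
    (fun f g c hfg => lap_loc (Core a L R) _ f g c hfg)
    (fun x hx => ⟨div_nonneg (mul_nonneg hTN0 (Real.exp_pos _).le) (hw' x hx).1.le,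
      (div_le_iff₀ (hw' x hx).1).2 (hta x hx)⟩)
    (fun e => ⟨mul_nonneg hTE0 (Real.exp_pos _).le, by
      have e1 : Real.exp (-(β / (4 * K) * φ (sT e))) ≤ 1 := by
        rw [Real.exp_le_one_iff]
        have := hU.plt.nn (sT e)
        have : 0 ≤ β / (4 * K) * φ (sT e) := by positivity
        linarith only [this]
      exact (mul_le_of_le_one_right hTE0 e1).trans htb⟩)
    htl hu hu2 f g
  refine hmain.trans (mor_mono sT tT (fun x => ?_) (fun e => ?_) f g)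
  · by_cases hx : x ∈ A
    · rw [if_pos hx, if_pos hx, add_mul, div_mul_cancel₀ _ (hw' x hx).1.ne']
      have hwx := (hw' x hx).1
      have e1 : (if Box a L x then u else 0) * w' x ≤ nn / 2 * om x * w' x := by
        refine mul_le_mul_of_nonneg_right ?_ hwx.le
        have hu0 : 0 ≤ u := le_trans (by positivity) hu2
        have hnn : 0 ≤ nn / 2 := hu0.trans hun
        split
        · rename_i hB
          calc u ≤ nn / 2 * 1 := by linarith only [hun]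
            _ ≤ nn / 2 * om x := mul_le_mul_of_nonneg_left (homB x hB) hnn
        · exact mul_nonneg hnn (hom0 x)
      have e2 := hom x hx
      calc _ ≤ nn / 2 * om x * w' x + nn / 2 * om x * w' x := add_le_add e1 e2
        _ = nn * om x * w' x := by ring
    · rw [if_neg hx, if_neg hx]
  · have e1 : (if Box a L (sT e) ∧ Box a L (tT e) then u * b1 else 0) ≤ nn / 2 * D * ome e := by
      have hu0 : 0 ≤ u := le_trans (by positivity) hu2
      have hnn : 0 ≤ nn / 2 := hu0.trans hun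
      split
      · rename_i hB
        calc u * b1 ≤ nn / 2 * D * 1 := by linarith only [hub]
          _ ≤ nn / 2 * D * ome e :=
            mul_le_mul_of_nonneg_left (homeB e hB.1 hB.2) (mul_nonneg hnn hD)
      · exact mul_nonneg (mul_nonneg hnn hD) (home0 e)
    calc _ ≤ nn / 2 * D * ome e + nn / 2 * D * ome e := add_le_add e1 (home e)
      _ = nn * D * ome e := by ring

/-- (FSTEP) the form part of one block update, relative to the start of the stage -/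
theorem fst_step (a : Tor d M) (hL0 : 0 < L) (hLM : L ≤ M) (hR : 0 < R)
    {H H' : Matrix (Tor d M) (Tor d M) ℝ} {κ κ' φ : Tor d M → ℝ} {F A S b : Finset (Tor d M)}
    {h₀ k₀ β τs : ℝ} (hU : Upd H H' κ κ' φ F A S h₀ k₀ β) (hFA : F ⊆ A) (hβ : 0 < β)
    {w0 w w' el0 eu0 Ψ τ om : Tor d M → ℝ} {bl0 bu0 Ψe ome : Bd d M → ℝ}
    {b0 bb b1 n m u cu nn D : ℝ}
    (h : Fm sT tT A w (fun x => el0 x * (w x / w0 x) + 4 * (nn * Ψ x))
      (fun x => eu0 x * (w x / w0 x) + 4 * (nn * Ψ x))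
      (fun e => bl0 e - nn * D * Ψe e) (fun e => bu0 e + nn * D * Ψe e)
      (qd (EE (Gr H κ) κ A)))
    (hτ0 : ∀ x, 0 ≤ τ x) (hτs : ∀ x, τ x ≤ τs) (hτF : ∀ x, x ∉ F → τ x = 0)
    (hw0 : ∀ x ∈ A, 0 < w0 x) (hw : ∀ x ∈ A, 0 < w x) (hw' : ∀ x ∈ A, 0 < w' x ∧ w' x ≤ w x)
    (h0 : ∀ x ∈ A, 0 ≤ el0 x) (h0u : ∀ x ∈ A, 0 ≤ eu0 x)
    (hΨ : ∀ x ∈ A, 0 ≤ Ψ x)
    (h1 : ∀ x ∈ A, el0 x * (w x / w0 x) + 4 * (nn * Ψ x) ≤ 1 / 4)
    (h1u : ∀ x ∈ A, 1 ≤ cu * (1 - (eu0 x * (w x / w0 x) + 4 * (nn * Ψ x)))) (hcu : 0 < cu)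
    (h2u : ∀ x ∈ A, eu0 x * (w x / w0 x) + 4 * (nn * Ψ x) + 4 * (nn * om x) < 1)
    (hτ : ∀ x ∈ A, τ x = 1 / w' x - 1 / w x) (hv : ∀ x ∈ A, nn * om x ≤ 1 / 16)
    (hb0 : 0 < b0) (hbl : ∀ e, b0 ≤ bl0 e - nn * D * Ψe e) (hbb : 0 < bb)
    (hbu : ∀ e, bb ≤ bu0 e + nn * D * Ψe e)
    (hbu1 : ∀ e, bu0 e + nn * D * Ψe e ≤ b1) (hb1 : 0 ≤ b1) (hn : 0 ≤ n) (hm : 0 ≤ m)
    (hfrm : ∀ E1 : Matrix (Tor d M) (Tor d M) ℝ, Lad (EE (Gr H κ) κ A) E1 τ →
      ∀ f : Tor d M → ℝ, (∀ x, ¬ (x ∈ A ∧ Box a L x) → f x = 0) →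
        |qd (EE (Gr H' κ') κ' A) f - qd E1 f| ≤ n * qd E1 f)
    (hFc : ∀ x ∈ F, Core a L R x) (hφ1 : ∀ e : Bd d M, |φ (tT e) - φ (sT e)| ≤ 1)
    {c r0 r K : ℝ} {D0 : ℕ} (hc : 0 < c) (hD0 : ∀ y ∈ b, ∀ z ∈ b, dT y z ≤ D0)
    (hφc : ∀ x ∈ A, ∃ y ∈ b, c * dT x y - r0 ≤ φ x) (hK : 1 ≤ K)
    (hKr : 2 * r0 / c + D0 ≤ (K - 1 / c) * r) (hKc : 1 / c ≤ K)
    (hr : ∀ x ∈ A, ¬ Core a L R x → r ≤ φ x)
    (hta : ∀ x ∈ A, TN d β c r r0 τs b.card * Real.exp (-(β / 2 * φ x)) ≤ m * w' x)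
    (htb : TE d β c r r0 τs K b.card ≤ m * b0)
    (hu : (2 + 2 * (d : ℝ) ^ 2 * ((L : ℝ) / R) ^ 2 * (b1 / bb)) * (n + 2 * m) * cu ≤ u)
    (hu2 : (2 + 2 * (d : ℝ) ^ 2 * ((L : ℝ) / R) ^ 2 * (b1 / bb)) * (n + 2 * m) ≤ u)
    (hun : u ≤ nn / 2) (hub : u * b1 ≤ nn / 2 * D) (hD : 0 ≤ D)
    (hom0 : ∀ x, 0 ≤ om x) (home0 : ∀ e, 0 ≤ ome e)
    (homB : ∀ x, Box a L x → 1 ≤ om x)
    (homeB : ∀ e : Bd d M, Box a L (sT e) → Box a L (tT e) → 1 ≤ ome e)
    (hom : ∀ x ∈ A, TN d β c r r0 τs b.card * Real.exp (-(β / 2 * φ x)) ≤ nn / 2 * om x * w' x)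
    (home : ∀ e : Bd d M, TE d β c r r0 τs K b.card * Real.exp (-(β / (4 * K) * φ (sT e))) ≤
      nn / 2 * D * ome e) :
    Fm sT tT A w' (fun x => el0 x * (w' x / w0 x) + 4 * (nn * (Ψ x + om x)))
      (fun x => eu0 x * (w' x / w0 x) + 4 * (nn * (Ψ x + om x)))
      (fun e => bl0 e - nn * D * (Ψe e + ome e))
      (fun e => bu0 e + nn * D * (Ψe e + ome e)) (qd (EE (Gr H' κ') κ' A)) := by
  have hsG : ∀ x y, Gr H κ x y = Gr H κ y x := (hGeq _ H κ hU.n).2.1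
  have hκ : ∀ x, 0 ≤ κ x := fun x => (hU.n.pos x).le
  obtain ⟨-, hL⟩ := lad_exists (issymm (ee_symm hsG κ A)) (ee_psd hsG hκ A) hτ0
  have hu0 : 0 ≤ u := le_trans (by positivity) hu2
  have hnn : 0 ≤ nn := by linarith only [hun, hu0]
  have hr0 : ∀ x ∈ A, 0 ≤ w x / w0 x := fun x hx => div_nonneg (hw x hx).le (hw0 x hx).le
  refine fm_step h hL hw0 hw hw' h0 h0u hnn hΨ (fun x _ => hom0 x) h1 h2u hτ hv ?_
  exact fst_err a hL0 hLM hR hU hFA hβ h hL hτs hτF hw hw'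
    (fun x hx => add_nonneg (mul_nonneg (h0 x hx) (hr0 x hx))
      (mul_nonneg (by norm_num) (mul_nonneg hnn (hΨ x hx)))) h1
    (fun x hx => add_nonneg (mul_nonneg (h0u x hx) (hr0 x hx))
      (mul_nonneg (by norm_num) (mul_nonneg hnn (hΨ x hx)))) h1u hcu hτ hb0 hbl hbb hbu hbu1 hb1
    hn hm (hfrm _ hL) hFc hφ1 hc hD0 hφc hK hKr hKc hr hta htb hu hu2 hun hub hD hom0 home0 homB
    homeB hom home

end torus

end Pool.Agent.LTG.Fst
end
end -- Pool.Agent.Helper22_LTG.Fst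

section -- Pool.Agent.Helper22_LTG.Inc

/-!
# The form part of one block update, explicit geometry

Blocks and balls in the sup distance of the torus. If the ball of radius `2 ℓ` does not fit into the
torus, it is the whole torus and no locality is needed.
-/

set_option autoImplicit false

open scoped BigOperators Matrix
open Finset

noncomputable section

namespace Pool.Agent.LTG.Inc

open Pool.Agent.LTG Pool.Agent.LTG.H89 Pool.Agent.LTG.Fst Pool.Agent.ANR Pool.Agent.ANR.H89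
  Pool.Agent.AFJ Pool.Agent.LE.QF
open Pool.Agent.ANP.H61 (sd sd_le sd_self sd_comm sd_tri le_sd exists_int cd_le)

variable {d M : ℕ} [NeZero M]

/-! ### balls -/

/-- the corner of the ball -/
def crn (B : Tor d M) (ρ : ℕ) : Tor d M := fun i => B i - (ρ : ZMod M)

theorem box_sd {B x : Tor d M} {ρ : ℕ} (h : Box (crn B ρ) (2 * ρ + 1) x) : sd x B ≤ ρ := by
  rw [sd_le]
  intro i
  have hv := h i
  unfold off crn at hv
  set v := (x i - (B i - (ρ : ZMod M))).val with hvd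
  have h1 : x i - B i = (((v : ℤ) - ρ : ℤ) : ZMod M) := by
    push_cast
    rw [hvd, ZMod.natCast_zmod_val]
    ring
  refine (cd_le _ _ _ h1).trans ?_
  omega

theorem sd_core {B x : Tor d M} {ρ R : ℕ} (hM : 2 * ρ + 1 ≤ M) (h : sd x B + R ≤ ρ) :
    Core (crn B ρ) (2 * ρ + 1) R x := by
  intro i
  obtain ⟨k, hk, hk1⟩ := exists_int (x i) (B i)
  have h2 := le_sd x B i
  have h3 : k.natAbs + R ≤ ρ := by rw [hk1]; omega
  obtain ⟨n, hn⟩ : ∃ n : ℕ, (n : ℤ) = k + ρ := ⟨(k + ρ).toNat, by omega⟩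
  have h4 : x i - (B i - (ρ : ZMod M)) = (n : ZMod M) := by
    have : ((n : ℤ) : ZMod M) = ((k + ρ : ℤ) : ZMod M) := by rw [hn]
    push_cast at this
    rw [this, ← hk]
    ring
  have h5 : (x i - (B i - (ρ : ZMod M))).val = n := by
    rw [h4, ZMod.val_natCast_of_lt (by omega)]
  unfold off crn
  rw [h5]
  omega

theorem sd_half (x y : Tor d M) : 2 * sd x y ≤ M := by
  have h : sd x y ≤ M / 2 := by
    rw [sd_le]
    intro i
    exact ZMod.natAbs_valMinAbs_le _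
  omega

theorem dT_sd (x y : Tor d M) : dT x y ≤ d * sd x y := by
  have h : dT x y ≤ ∑ _i : Fin d, sd x y := by
    unfold dT
    refine Finset.sum_le_sum fun i _ => ?_
    have h1 := le_sd y x i
    rw [sd_comm] at h1
    exact h1
  simpa using h

/-! ### support in the nodes -/

theorem supp_nodes {H H' : Matrix (Tor d M) (Tor d M) ℝ} {κ κ' φ τ : Tor d M → ℝ}
    {F A S : Finset (Tor d M)} {h₀ k₀ β τs n : ℝ} (hU : Upd H H' κ κ' φ F A S h₀ k₀ β)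
    (hFA : F ⊆ A) {E1 : Matrix (Tor d M) (Tor d M) ℝ} (hL : Lad (EE (Gr H κ) κ A) E1 τ)
    (hτs : ∀ x, τ x ≤ τs) (hτF : ∀ x, x ∉ F → τ x = 0) {Pr : Tor d M → Prop}
    (hfrm : ∀ f : Tor d M → ℝ, (∀ x, ¬ (x ∈ A ∧ Pr x) → f x = 0) →
      |qd (EE (Gr H' κ') κ' A) f - qd E1 f| ≤ n * qd E1 f) (f : Tor d M → ℝ)
    (hf : ∀ x, ¬ Pr x → f x = 0) : |qd (EE (Gr H' κ') κ' A) f - qd E1 f| ≤ n * qd E1 f := by
  have hsG' : ∀ x y, Gr H' κ' x y = Gr H' κ' y x := (hGeq _ H' κ' hU.n').2.1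
  have hs' := ee_symm hsG' κ' A
  have hr' := ee_row (Gr H' κ') κ' A
  have hs1 : ∀ x y, E1 x y = E1 y x := fun x y => (lad_symm hL).apply y x
  have hr1 := lad_row hL (ee_row (Gr H κ) κ A)
  have hτb : ∀ x, 0 ≤ τ x ∧ τ x ≤ τs := fun x => ⟨hL.tau x, hτs x⟩
  have hoff1 : ∀ x y, x ≠ y → ¬ (x ∈ A ∧ y ∈ A) → E1 x y = 0 := by
    intro x y hne hA
    have h2 : ¬ (x ∈ F ∧ y ∈ F) := fun hF => hA ⟨hFA hF.1, hFA hF.2⟩
    have h3 := hU.ee_tail hτb hτF hL hne h2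
    rw [if_neg hA, ee_off _ _ _ hne] at h3
    have h4 : cd (Gr H' κ') κ' A x y = 0 := by unfold cd; rw [if_neg hA]
    rw [h4, neg_zero, zero_sub, abs_neg] at h3
    exact abs_eq_zero.1 (le_antisymm h3 (abs_nonneg _))
  have hoff' : ∀ x y, x ≠ y → ¬ (x ∈ A ∧ y ∈ A) → EE (Gr H' κ') κ' A x y = 0 := by
    intro x y hne hA
    rw [ee_off _ _ _ hne]
    unfold cd
    rw [if_neg hA, neg_zero]
  set f' : Tor d M → ℝ := fun x => if x ∈ A then f x else 0 with hf'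
  have e1 : ∀ x ∈ A, f x = f' x := fun x hx => by rw [hf']; simp [hx]
  rw [qd_nodes hs' hr' hoff' e1, qd_nodes hs1 hr1 hoff1 e1]
  refine hfrm f' fun x hx => ?_
  rw [hf']
  by_cases hxA : x ∈ A
  · simp only [hxA, if_true]
    exact hf x fun hB => hx ⟨hxA, hB⟩
  · simp [hxA]

/-! ### the main theorem -/

/-- the potential of the block at `B` -/
def omB (ℓ : ℕ) (B x : Tor d M) : ℝ := Real.exp (2 - (sd x B : ℝ) / ℓ)

theorem omB_pos (ℓ : ℕ) (B x : Tor d M) : 0 < omB ℓ B x := Real.exp_pos _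

theorem omB_ge {ℓ : ℕ} (hℓ : 0 < ℓ) {B x : Tor d M} (h : sd x B ≤ 2 * ℓ) : 1 ≤ omB ℓ B x := by
  unfold omB
  rw [← Real.exp_zero]
  apply Real.exp_le_exp.2
  have h1 : (0 : ℝ) < ℓ := by exact_mod_cast hℓ
  have h2 : (sd x B : ℝ) ≤ 2 * ℓ := by exact_mod_cast h
  rw [sub_nonneg, div_le_iff₀ h1]
  exact h2

theorem omB_le (ℓ : ℕ) (B x : Tor d M) : omB ℓ B x ≤ 8 := by
  unfold omB
  have h1 : (2 : ℝ) - (sd x B : ℝ) / ℓ ≤ 2 := by
    have : (0 : ℝ) ≤ (sd x B : ℝ) / ℓ := by positivity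
    linarith only [this]
  have h2 : Real.exp 2 ≤ 8 := by
    have h3 := Real.exp_one_lt_d9
    have h4 : Real.exp 2 = Real.exp 1 * Real.exp 1 := by rw [← Real.exp_add]; norm_num
    rw [h4]
    nlinarith only [Real.exp_pos 1, h3]
  exact (Real.exp_le_exp.2 h1).trans h2

/-- a quantity which decays in `φ` is dominated by the potential -/
theorem tail_om {ℓ : ℕ} (hℓ : 0 < ℓ) {B y : Tor d M} {φ : Tor d M → ℝ} (h0 : 0 ≤ φ y)
    (hφ : 2 * ℓ < sd y B → (sd y B : ℝ) / 8 ≤ φ y) {t X Y : ℝ} (ht : 8 ≤ t * ℓ)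
    (hX : 0 ≤ X) (hXY : X ≤ Y) : X * Real.exp (-(t * φ y)) ≤ Y * omB ℓ B y := by
  have hℓ' : (0 : ℝ) < ℓ := by exact_mod_cast hℓ
  have ht0 : 0 ≤ t := by
    by_contra h
    have : t * ℓ < 0 := mul_neg_of_neg_of_pos (not_le.1 h) hℓ'
    linarith only [ht, this]
  refine mul_le_mul hXY ?_ (Real.exp_pos _).le (hX.trans hXY)
  unfold omB
  apply Real.exp_le_exp.2
  rcases Nat.lt_or_ge (2 * ℓ) (sd y B) with h | h
  · have h1 := hφ h
    have h2 : (sd y B : ℝ) / ℓ ≤ t * φ y := by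
      have h3 : (sd y B : ℝ) / ℓ ≤ t * ((sd y B : ℝ) / 8) := by
        rw [div_le_iff₀ hℓ']
        have h4 : (0 : ℝ) ≤ sd y B := Nat.cast_nonneg _
        nlinarith only [ht]
      exact h3.trans (mul_le_mul_of_nonneg_left h1 ht0)
    linarith only [h2]
  · have h1 : (sd y B : ℝ) ≤ 2 * ℓ := by exact_mod_cast h
    have h2 : (sd y B : ℝ) / ℓ ≤ 2 := by rw [div_le_iff₀ hℓ']; exact h1
    have h3 : 0 ≤ t * φ y := mul_nonneg ht0 h0
    linarith only [h2, h3]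

/-- the node tail -/
def TN' (d : ℕ) (β r0 τs : ℝ) (ℓ nb : ℕ) : ℝ := TN d β (1 / (2 * d)) ((ℓ : ℝ) / 8) r0 τs nb

/-- the bond tail -/
def TE' (d : ℕ) (β r0 τs : ℝ) (ℓ nb : ℕ) : ℝ :=
  TE d β (1 / (2 * d)) ((ℓ : ℝ) / 8) r0 τs (22 * d) nb

/-- the plateau function is large away from the block -/
theorem phi_lb {F : Finset (Tor d M)} {B : Tor d M} {ℓ : ℕ} (hFB : ∀ x ∈ F, sd x B ≤ ℓ)
    {φ : Tor d M → ℝ} {r0 : ℝ} (hr8 : 8 * r0 ≤ ℓ)
    (hφ : ∀ y, ∃ x ∈ F, 1 / 2 * (sd x y : ℝ) - r0 ≤ φ y) (y : Tor d M) :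
    (sd y B : ℝ) / 2 - 5 * ℓ / 8 ≤ φ y := by
  obtain ⟨x, hx, h1⟩ := hφ y
  have h2 := sd_tri y x B
  have h3 := hFB x hx
  rw [sd_comm y x] at h2
  have h4 : (sd y B : ℝ) ≤ sd x y + ℓ := by exact_mod_cast h2.trans (by omega)
  linarith only [hr8, h1, h4]

theorem phi_lb2 {F : Finset (Tor d M)} {B : Tor d M} {ℓ : ℕ} (hFB : ∀ x ∈ F, sd x B ≤ ℓ)
    {φ : Tor d M → ℝ} {r0 : ℝ} (hr8 : 8 * r0 ≤ ℓ)
    (hφ : ∀ y, ∃ x ∈ F, 1 / 2 * (sd x y : ℝ) - r0 ≤ φ y) (y : Tor d M) (hy : 2 * ℓ < sd y B) :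
    (sd y B : ℝ) / 8 ≤ φ y := by
  have h1 := phi_lb hFB hr8 hφ y
  have h2 : (2 * ℓ : ℝ) < sd y B := by exact_mod_cast hy
  linarith only [h1, h2]

/-- the constant of local to global -/
theorem kk_le {ℓ R : ℕ} (hR : 0 < R) (hℓR : 2 * R = ℓ) {Du : ℝ} (hDu : 0 < Du) :
    2 + 2 * (d : ℝ) ^ 2 * (((2 * (2 * ℓ) + 1 : ℕ) : ℝ) / R) ^ 2 * (2 * Du / Du) ≤
      2 + 400 * (d : ℝ) ^ 2 := by
  have hRR : (ℓ : ℝ) = 2 * R := by exact_mod_cast hℓR.symm
  have hR0 : (0 : ℝ) < R := by exact_mod_cast hR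
  have hR1 : (1 : ℝ) ≤ R := by exact_mod_cast hR
  have hLR : ((2 * (2 * ℓ) + 1 : ℕ) : ℝ) / R ≤ 9 := by
    rw [div_le_iff₀ hR0]
    push_cast
    rw [hRR]
    linarith only [hR1]
  have h1 : (((2 * (2 * ℓ) + 1 : ℕ) : ℝ) / R) ^ 2 ≤ 81 := by
    have h2 : 0 ≤ ((2 * (2 * ℓ) + 1 : ℕ) : ℝ) / R := by positivity
    nlinarith only [hLR, h2]
  have h3 : 2 * Du / Du = 2 := by field_simp
  rw [h3]
  have h4 : 0 ≤ (d : ℝ) ^ 2 := sq_nonneg _
  nlinarith only [h1]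

/-- the error, the ball is the whole torus -/
theorem inc_err_all (hd : 0 < d) {H H' : Matrix (Tor d M) (Tor d M) ℝ} {κ κ' φ τ : Tor d M → ℝ}
    {F A S : Finset (Tor d M)} {h₀ k₀ β τs : ℝ} (hU : Upd H H' κ κ' φ F A S h₀ k₀ β)
    (hFA : F ⊆ A) (hβ : 0 < β) {B : Tor d M} {ℓ R : ℕ} (hM : M < 4 * ℓ + 1) (hℓ : 0 < ℓ) (hℓR : 2 * R = ℓ)
    (hFB : ∀ x ∈ F, sd x B ≤ ℓ) {r0 : ℝ} (hr0 : 0 ≤ r0) (hr8 : 8 * r0 ≤ ℓ)
    (hβℓ : 704 * d ≤ β * ℓ) (hφ : ∀ y, ∃ x ∈ F, 1 / 2 * (sd x y : ℝ) - r0 ≤ φ y)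
    (hφ1 : ∀ e : Bd d M, |φ (tT e) - φ (sT e)| ≤ 1)
    {w w' εl εu : Tor d M → ℝ} {bl bu : Bd d M → ℝ} {e1 m nn u u0 Dl Du wm : ℝ}
    {E1 : Matrix (Tor d M) (Tor d M) ℝ}
    (h : Fm sT tT A w εl εu bl bu (qd (EE (Gr H κ) κ A)))
    (hL : Lad (EE (Gr H κ) κ A) E1 τ) (hτs : ∀ x, τ x ≤ τs) (hτF : ∀ x, x ∉ F → τ x = 0)
    (hw : ∀ x ∈ A, 0 < w x) (hw' : ∀ x ∈ A, 0 < w' x ∧ w' x ≤ w x)
    (hwm : 0 < wm) (hwm' : ∀ x ∈ A, wm ≤ w' x)
    (h0 : ∀ x ∈ A, 0 ≤ εl x ∧ εl x ≤ 1 / 4)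
    (h0u : ∀ x ∈ A, 0 ≤ εu x ∧ εu x ≤ (1 + u0) / 2) (hu0 : 0 ≤ u0 ∧ u0 < 1)
    (hτ : ∀ x ∈ A, τ x = 1 / w' x - 1 / w x)
    (hDl : 0 < Dl) (hDu : 0 < Du)
    (hb : ∀ e, Dl / 2 ≤ bl e ∧ Du ≤ bu e ∧ bu e ≤ 2 * Du)
    (he1 : 0 ≤ e1) (hm : 0 ≤ m)
    (hfrm : ∀ f : Tor d M → ℝ, (∀ x, ¬ (x ∈ A ∧ sd x B ≤ 2 * ℓ) → f x = 0) →
      |qd (EE (Gr H' κ') κ' A) f - qd E1 f| ≤ e1 * qd E1 f)
    (n1 : TN' d β r0 τs ℓ F.card ≤ m * wm) (n2 : TE' d β r0 τs ℓ F.card ≤ m * (Dl / 2))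
    (n3 : TN' d β r0 τs ℓ F.card ≤ nn / 8 * wm) (n4 : TE' d β r0 τs ℓ F.card ≤ nn / 2 * Dl)
    (n5 : (2 + 400 * (d : ℝ) ^ 2) * (e1 + 2 * m) * (2 / (1 - u0)) ≤ u)
    (n6 : u ≤ nn / 8) (n7 : u * (2 * Du) ≤ nn / 2 * Dl) (f g : Tor d M → ℝ) :
    |qd (EE (Gr H' κ') κ' A) f - qd E1 f| ≤ mor sT tT
      (fun x => if x ∈ A then nn / 4 * omB ℓ B x * w' x else 0)
      (fun e => nn / 4 * (4 * Dl) * omB ℓ B (sT e)) f g := by
  have hd1 : (1 : ℝ) ≤ d := by exact_mod_cast hd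
  have hu1 : 0 < 1 - u0 := by linarith only [hu0.2]
  have hcu : 0 < 2 / (1 - u0) := by positivity
  have hcu1 : 1 ≤ 2 / (1 - u0) := by rw [le_div_iff₀ hu1]; linarith only [hu0.1]
  have hem : 0 ≤ e1 + 2 * m := by linarith only [he1, hm]
  have hKd : (1 : ℝ) ≤ 2 + 400 * (d : ℝ) ^ 2 := by nlinarith only [sq_nonneg (d : ℝ)]
  have hKd0 : (0 : ℝ) ≤ 2 + 400 * (d : ℝ) ^ 2 := by linarith only [hKd]
  have hu : 0 ≤ u := le_trans (by positivity) n5
  have hnn : 0 ≤ nn := by linarith only [n6, hu]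
  have hcu2 : ∀ x ∈ A, 1 ≤ 2 / (1 - u0) * (1 - εu x) := by
    intro x hx
    have h1 := (h0u x hx).2
    have h2 : (1 - u0) / 2 ≤ 1 - εu x := by linarith only [h1]
    calc (1 : ℝ) = 2 / (1 - u0) * ((1 - u0) / 2) := by field_simp
      _ ≤ _ := mul_le_mul_of_nonneg_left h2 hcu.le
  have hs := supp_nodes hU hFA hL hτs hτF (n := e1) (Pr := fun x => sd x B ≤ 2 * ℓ) hfrm
  have hall : ∀ x : Tor d M, sd x B ≤ 2 * ℓ := fun x => by
    have := sd_half x B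
    omega
  have hu' : (e1 + 2 * 0) * (2 / (1 - u0)) ≤ u := by
    refine le_trans ?_ n5
    refine mul_le_mul_of_nonneg_right ?_ hcu.le
    nlinarith only [he1, hm]
  have hu'' : e1 + 2 * 0 ≤ u := by
    refine le_trans ?_ hu'
    nlinarith only [he1, hcu1]
  have hmain := err_all (D := fun f => qd (EE (Gr H' κ') κ' A) f - qd E1 f)
    (tl := fun _ => 0) (ta := fun _ => 0) (tb := fun _ => 0) (m := 0) (n := e1)
    (Q' := qd (EE (Gr H' κ') κ' A)) h hL hw hw' (fun x hx => (h0 x hx).1)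
    (fun x hx => (h0 x hx).2) (fun x hx => (h0u x hx).1) hcu2 hcu hτ
    (b0 := Dl / 2) (b1 := 2 * Du) (by positivity) (fun e => (hb e).1)
    (fun e => hDu.le.trans (hb e).2.1) (fun e => (hb e).2.2) he1 le_rfl
    (fun f => hs f fun x hx => absurd (hall x) hx) (fun f => by simp)
    (fun x _ => ⟨le_rfl, le_rfl⟩) (fun e => ⟨le_rfl, by simp⟩)
    (fun f g => by
      rw [abs_zero]
      unfold mor bon
      simp) hu' hu'' f g
  refine hmain.trans (mor_mono sT tT (fun x => ?_) (fun e => ?_) f g)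
  · split
    · rename_i hx
      refine mul_le_mul_of_nonneg_right ?_ (hw' x hx).1.le
      have h1 := omB_ge hℓ (hall x)
      nlinarith only [n6, hu, h1]
    · exact le_rfl
  · have h1 := omB_ge hℓ (hall (sT e))
    have h2 : nn / 4 * (4 * Dl) * 1 ≤ nn / 4 * (4 * Dl) * omB ℓ B (sT e) :=
      mul_le_mul_of_nonneg_left h1 (by positivity)
    have h3 : 0 ≤ nn * Dl := by positivity
    linarith only [n7, h2, h3]

/-- the error, the ball fits into the torus -/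
theorem inc_err_box (hd : 0 < d) {H H' : Matrix (Tor d M) (Tor d M) ℝ} {κ κ' φ τ : Tor d M → ℝ}
    {F A S : Finset (Tor d M)} {h₀ k₀ β τs : ℝ} (hU : Upd H H' κ κ' φ F A S h₀ k₀ β)
    (hFA : F ⊆ A) (hβ : 0 < β) {B : Tor d M} {ℓ R : ℕ} (hM : 4 * ℓ + 1 ≤ M) (hℓ : 0 < ℓ) (hℓR : 2 * R = ℓ)
    (hFB : ∀ x ∈ F, sd x B ≤ ℓ) {r0 : ℝ} (hr0 : 0 ≤ r0) (hr8 : 8 * r0 ≤ ℓ)
    (hβℓ : 704 * d ≤ β * ℓ) (hφ : ∀ y, ∃ x ∈ F, 1 / 2 * (sd x y : ℝ) - r0 ≤ φ y)
    (hφ1 : ∀ e : Bd d M, |φ (tT e) - φ (sT e)| ≤ 1)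
    {w w' εl εu : Tor d M → ℝ} {bl bu : Bd d M → ℝ} {e1 m nn u u0 Dl Du wm : ℝ}
    {E1 : Matrix (Tor d M) (Tor d M) ℝ}
    (h : Fm sT tT A w εl εu bl bu (qd (EE (Gr H κ) κ A)))
    (hL : Lad (EE (Gr H κ) κ A) E1 τ) (hτs : ∀ x, τ x ≤ τs) (hτF : ∀ x, x ∉ F → τ x = 0)
    (hw : ∀ x ∈ A, 0 < w x) (hw' : ∀ x ∈ A, 0 < w' x ∧ w' x ≤ w x)
    (hwm : 0 < wm) (hwm' : ∀ x ∈ A, wm ≤ w' x)
    (h0 : ∀ x ∈ A, 0 ≤ εl x ∧ εl x ≤ 1 / 4)
    (h0u : ∀ x ∈ A, 0 ≤ εu x ∧ εu x ≤ (1 + u0) / 2) (hu0 : 0 ≤ u0 ∧ u0 < 1)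
    (hτ : ∀ x ∈ A, τ x = 1 / w' x - 1 / w x)
    (hDl : 0 < Dl) (hDu : 0 < Du)
    (hb : ∀ e, Dl / 2 ≤ bl e ∧ Du ≤ bu e ∧ bu e ≤ 2 * Du)
    (he1 : 0 ≤ e1) (hm : 0 ≤ m)
    (hfrm : ∀ f : Tor d M → ℝ, (∀ x, ¬ (x ∈ A ∧ sd x B ≤ 2 * ℓ) → f x = 0) →
      |qd (EE (Gr H' κ') κ' A) f - qd E1 f| ≤ e1 * qd E1 f)
    (n1 : TN' d β r0 τs ℓ F.card ≤ m * wm) (n2 : TE' d β r0 τs ℓ F.card ≤ m * (Dl / 2))
    (n3 : TN' d β r0 τs ℓ F.card ≤ nn / 8 * wm) (n4 : TE' d β r0 τs ℓ F.card ≤ nn / 2 * Dl)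
    (n5 : (2 + 400 * (d : ℝ) ^ 2) * (e1 + 2 * m) * (2 / (1 - u0)) ≤ u)
    (n6 : u ≤ nn / 8) (n7 : u * (2 * Du) ≤ nn / 2 * Dl) (f g : Tor d M → ℝ) :
    |qd (EE (Gr H' κ') κ' A) f - qd E1 f| ≤ mor sT tT
      (fun x => if x ∈ A then nn / 4 * omB ℓ B x * w' x else 0)
      (fun e => nn / 4 * (4 * Dl) * omB ℓ B (sT e)) f g := by
  have hd1 : (1 : ℝ) ≤ d := by exact_mod_cast hd
  have hℓ' : (0 : ℝ) < ℓ := by exact_mod_cast hℓ
  have hu1 : 0 < 1 - u0 := by linarith only [hu0.2]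
  have hcu : 0 < 2 / (1 - u0) := by positivity
  have hcu1 : 1 ≤ 2 / (1 - u0) := by rw [le_div_iff₀ hu1]; linarith only [hu0.1]
  have hem : 0 ≤ e1 + 2 * m := by linarith only [he1, hm]
  have hKd : (1 : ℝ) ≤ 2 + 400 * (d : ℝ) ^ 2 := by nlinarith only [sq_nonneg (d : ℝ)]
  have hKd0 : (0 : ℝ) ≤ 2 + 400 * (d : ℝ) ^ 2 := by linarith only [hKd]
  have hu : 0 ≤ u := le_trans (by positivity) n5
  have hnn : 0 ≤ nn := by linarith only [n6, hu]
  have hcu2 : ∀ x ∈ A, 1 ≤ 2 / (1 - u0) * (1 - εu x) := by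
    intro x hx
    have h1 := (h0u x hx).2
    have h2 : (1 - u0) / 2 ≤ 1 - εu x := by linarith only [h1]
    calc (1 : ℝ) = 2 / (1 - u0) * ((1 - u0) / 2) := by field_simp
      _ ≤ _ := mul_le_mul_of_nonneg_left h2 hcu.le
  have hR : 0 < R := by omega
  have hRR : (ℓ : ℝ) = 2 * R := by exact_mod_cast hℓR.symm
  have hR0 : (0 : ℝ) < R := by exact_mod_cast hR
  have hR1 : (1 : ℝ) ≤ R := by exact_mod_cast hR
  have hKK := kk_le (d := d) hR hℓR hDu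
  -- lower bounds of `φ`
  have hφ2 := phi_lb hFB hr8 hφ
  have hφ3 := phi_lb2 hFB hr8 hφ
  have hβ8 : 8 ≤ β / 2 * ℓ := by
    have h1 : β / 2 * ℓ = β * ℓ / 2 := by ring
    rw [h1]
    linarith only [hβℓ, hd1]
  have hβ9 : 8 ≤ β / (4 * (22 * (d : ℝ))) * ℓ := by
    have h1 : β / (4 * (22 * (d : ℝ))) * ℓ = β * ℓ / (88 * d) := by field_simp; ring
    rw [h1, le_div_iff₀ (by positivity)]
    linarith only [hβℓ]
  have hTN0 : 0 ≤ TN' d β r0 τs ℓ F.card := by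
    have hτs0 : 0 ≤ τs := (hL.tau 0).trans (hτs 0)
    unfold TN' TN
    positivity
  have hTE0 : 0 ≤ TE' d β r0 τs ℓ F.card := by
    have hτs0 : 0 ≤ τs := (hL.tau 0).trans (hτs 0)
    unfold TE' TE
    positivity
  refine fst_err (ome := fun e => omB ℓ B (sT e)) (om := omB ℓ B) (crn B (2 * ℓ))
    (L := 2 * (2 * ℓ) + 1) (R := R) (by omega) (by omega) hR hU hFA hβ
    (b := F) (D := 4 * Dl) (nn := nn / 4) (u := u) (n := e1) (m := m) (b0 := Dl / 2)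
    (bb := Du) (b1 := 2 * Du) (cu := 2 / (1 - u0)) h hL hτs hτF hw hw'
    (fun x hx => (h0 x hx).1) (fun x hx => (h0 x hx).2) (fun x hx => (h0u x hx).1) hcu2 hcu hτ
    (by positivity) (fun e => (hb e).1) hDu (fun e => (hb e).2.1) (fun e => (hb e).2.2)
    (by positivity) he1 hm ?_ ?_ hφ1 (c := 1 / (2 * d)) (r0 := r0) (r := (ℓ : ℝ) / 8)
    (K := 22 * d) (D0 := d * (2 * ℓ)) (by positivity) ?_ ?_ ?_ ?_ ?_ ?_ ?_ ?_ ?_ ?_ ?_ ?_
    (by positivity) (fun x => (omB_pos ℓ B x).le) (fun e => (omB_pos ℓ B _).le) ?_ ?_ ?_ ?_ f g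
  · -- frm
    intro f hf
    refine hfrm f fun x hx => hf x fun hB => hx ⟨hB.1, box_sd hB.2⟩
  · -- the block is in the core
    intro x hx
    have := hFB x hx
    exact sd_core (by omega) (by omega)
  · -- diameter
    intro y hy z hz
    refine (dT_sd y z).trans (Nat.mul_le_mul_left d ?_)
    have h1 := sd_tri y B z
    have h2 := hFB y hy
    have h3 := hFB z hz
    rw [sd_comm] at h3
    omega
  · -- lower bound of `φ` in the distance `dT`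
    intro x _
    obtain ⟨y, hy, h1⟩ := hφ x
    refine ⟨y, hy, le_trans ?_ h1⟩
    have h2 : (dT x y : ℝ) ≤ d * sd x y := by exact_mod_cast dT_sd x y
    rw [sd_comm] at h2
    have h3 : 1 / (2 * (d : ℝ)) * dT x y ≤ 1 / 2 * sd y x := by
      rw [div_mul_eq_mul_div, div_le_iff₀ (by positivity)]
      linarith only [h2]
    linarith only [h3]
  · linarith only [hd1]
  · -- hKr
    push_cast
    have h1 : 2 * r0 / (1 / (2 * (d : ℝ))) = 4 * d * r0 := by field_simp; ring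
    have h2 : 1 / (1 / (2 * (d : ℝ))) = 2 * d := by field_simp
    rw [h1, h2]
    nlinarith only [hr8]
  · have h2 : 1 / (1 / (2 * (d : ℝ))) = 2 * d := by field_simp
    rw [h2]
    linarith only [hd1]
  · -- outside of the core
    intro x _ hx
    have h1 : 2 * ℓ < sd x B + R := by
      by_contra hc
      exact hx (sd_core (by omega) (by omega))
    have h2 : (2 * ℓ : ℝ) < sd x B + R := by exact_mod_cast h1
    have h3 := hφ2 x
    linarith only [hRR, h2, h3]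
  · -- hta
    intro x hx
    have h1 : Real.exp (-(β / 2 * φ x)) ≤ 1 := by
      rw [Real.exp_le_one_iff]
      have := hU.plt.nn x
      have : 0 ≤ β / 2 * φ x := by positivity
      linarith only [this]
    calc _ ≤ TN' d β r0 τs ℓ F.card := mul_le_of_le_one_right hTN0 h1
      _ ≤ m * wm := n1
      _ ≤ m * w' x := mul_le_mul_of_nonneg_left (hwm' x hx) hm
  · exact n2
  · -- hu
    refine le_trans ?_ n5
    exact mul_le_mul_of_nonneg_right (mul_le_mul_of_nonneg_right hKK hem) hcu.le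
  · refine le_trans ?_ n5
    have h1 := mul_le_mul_of_nonneg_right hKK hem
    refine h1.trans ?_
    have h2 : 0 ≤ (2 + 400 * (d : ℝ) ^ 2) * (e1 + 2 * m) := mul_nonneg hKd0 hem
    nlinarith only [hcu1, h2]
  · linarith only [n6]
  · linarith only [n7]
  · intro x hx
    exact omB_ge hℓ (box_sd hx)
  · intro e h1 _
    exact omB_ge hℓ (box_sd h1)
  · intro x hx
    have h1 := tail_om hℓ (hU.plt.nn x) (hφ3 x) (t := β / 2) hβ8 hTN0 n3
    have h2 : TN d β (1 / (2 * d)) ((ℓ : ℝ) / 8) r0 τs F.card * Real.exp (-(β / 2 * φ x)) ≤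
        nn / 8 * wm * omB ℓ B x := h1
    refine h2.trans ?_
    have h3 := mul_le_mul_of_nonneg_left (hwm' x hx)
      (mul_nonneg (by positivity : (0 : ℝ) ≤ nn / 8) (omB_pos ℓ B x).le)
    calc nn / 8 * wm * omB ℓ B x = nn / 8 * omB ℓ B x * wm := by ring
      _ ≤ nn / 8 * omB ℓ B x * w' x := h3
      _ = nn / 4 / 2 * omB ℓ B x * w' x := by ring
  · intro e
    have h1 := tail_om hℓ (hU.plt.nn (sT e)) (hφ3 (sT e)) (t := β / (4 * (22 * (d : ℝ)))) hβ9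
      hTE0 n4
    refine (show _ from h1).trans (le_of_eq ?_)
    ring

/-- (INC, error) the error of one block -/
theorem inc_err (hd : 0 < d) {H H' : Matrix (Tor d M) (Tor d M) ℝ} {κ κ' φ τ : Tor d M → ℝ}
    {F A S : Finset (Tor d M)} {h₀ k₀ β τs : ℝ} (hU : Upd H H' κ κ' φ F A S h₀ k₀ β)
    (hFA : F ⊆ A) (hβ : 0 < β) {B : Tor d M} {ℓ R : ℕ} (hℓ : 0 < ℓ) (hℓR : 2 * R = ℓ)
    (hFB : ∀ x ∈ F, sd x B ≤ ℓ) {r0 : ℝ} (hr0 : 0 ≤ r0) (hr8 : 8 * r0 ≤ ℓ)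
    (hβℓ : 704 * d ≤ β * ℓ) (hφ : ∀ y, ∃ x ∈ F, 1 / 2 * (sd x y : ℝ) - r0 ≤ φ y)
    (hφ1 : ∀ e : Bd d M, |φ (tT e) - φ (sT e)| ≤ 1)
    {w w' εl εu : Tor d M → ℝ} {bl bu : Bd d M → ℝ} {e1 m nn u u0 Dl Du wm : ℝ}
    {E1 : Matrix (Tor d M) (Tor d M) ℝ}
    (h : Fm sT tT A w εl εu bl bu (qd (EE (Gr H κ) κ A)))
    (hL : Lad (EE (Gr H κ) κ A) E1 τ) (hτs : ∀ x, τ x ≤ τs) (hτF : ∀ x, x ∉ F → τ x = 0)
    (hw : ∀ x ∈ A, 0 < w x) (hw' : ∀ x ∈ A, 0 < w' x ∧ w' x ≤ w x)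
    (hwm : 0 < wm) (hwm' : ∀ x ∈ A, wm ≤ w' x)
    (h0 : ∀ x ∈ A, 0 ≤ εl x ∧ εl x ≤ 1 / 4)
    (h0u : ∀ x ∈ A, 0 ≤ εu x ∧ εu x ≤ (1 + u0) / 2) (hu0 : 0 ≤ u0 ∧ u0 < 1)
    (hτ : ∀ x ∈ A, τ x = 1 / w' x - 1 / w x)
    (hDl : 0 < Dl) (hDu : 0 < Du)
    (hb : ∀ e, Dl / 2 ≤ bl e ∧ Du ≤ bu e ∧ bu e ≤ 2 * Du)
    (he1 : 0 ≤ e1) (hm : 0 ≤ m)
    (hfrm : ∀ f : Tor d M → ℝ, (∀ x, ¬ (x ∈ A ∧ sd x B ≤ 2 * ℓ) → f x = 0) →
      |qd (EE (Gr H' κ') κ' A) f - qd E1 f| ≤ e1 * qd E1 f)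
    (n1 : TN' d β r0 τs ℓ F.card ≤ m * wm) (n2 : TE' d β r0 τs ℓ F.card ≤ m * (Dl / 2))
    (n3 : TN' d β r0 τs ℓ F.card ≤ nn / 8 * wm) (n4 : TE' d β r0 τs ℓ F.card ≤ nn / 2 * Dl)
    (n5 : (2 + 400 * (d : ℝ) ^ 2) * (e1 + 2 * m) * (2 / (1 - u0)) ≤ u)
    (n6 : u ≤ nn / 8) (n7 : u * (2 * Du) ≤ nn / 2 * Dl) (f g : Tor d M → ℝ) :
    |qd (EE (Gr H' κ') κ' A) f - qd E1 f| ≤ mor sT tT
      (fun x => if x ∈ A then nn / 4 * omB ℓ B x * w' x else 0)
      (fun e => nn / 4 * (4 * Dl) * omB ℓ B (sT e)) f g := by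
  rcases Nat.lt_or_ge M (4 * ℓ + 1) with hM | hM
  · exact inc_err_all hd hU hFA hβ hM hℓ hℓR hFB hr0 hr8 hβℓ hφ hφ1 h hL hτs hτF hw hw' hwm hwm'
      h0 h0u hu0 hτ hDl hDu hb he1 hm hfrm n1 n2 n3 n4 n5 n6 n7 f g
  · exact inc_err_box hd hU hFA hβ hM hℓ hℓR hFB hr0 hr8 hβℓ hφ hφ1 h hL hτs hτF hw hw' hwm hwm'
      h0 h0u hu0 hτ hDl hDu hb he1 hm hfrm n1 n2 n3 n4 n5 n6 n7 f g

/-- (INC) one block update of the form -/
theorem inc_gen (hd : 0 < d) {H H' : Matrix (Tor d M) (Tor d M) ℝ} {κ κ' φ τ : Tor d M → ℝ}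
    {F A S : Finset (Tor d M)} {h₀ k₀ β τs : ℝ} (hU : Upd H H' κ κ' φ F A S h₀ k₀ β)
    (hFA : F ⊆ A) (hβ : 0 < β) {B : Tor d M} {ℓ R : ℕ} (hℓ : 0 < ℓ) (hℓR : 2 * R = ℓ)
    (hFB : ∀ x ∈ F, sd x B ≤ ℓ) {r0 : ℝ} (hr0 : 0 ≤ r0) (hr8 : 8 * r0 ≤ ℓ)
    (hβℓ : 704 * d ≤ β * ℓ) (hφ : ∀ y, ∃ x ∈ F, 1 / 2 * (sd x y : ℝ) - r0 ≤ φ y)
    (hφ1 : ∀ e : Bd d M, |φ (tT e) - φ (sT e)| ≤ 1)
    {w w' εl εu : Tor d M → ℝ} {bl bu : Bd d M → ℝ} {e1 m nn u u0 Dl Du wm : ℝ}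
    (h : Fm sT tT A w εl εu bl bu (qd (EE (Gr H κ) κ A)))
    (hτ0 : ∀ x, 0 ≤ τ x) (hτs : ∀ x, τ x ≤ τs) (hτF : ∀ x, x ∉ F → τ x = 0)
    (hw : ∀ x ∈ A, 0 < w x) (hw' : ∀ x ∈ A, 0 < w' x ∧ w' x ≤ w x)
    (hwm : 0 < wm) (hwm' : ∀ x ∈ A, wm ≤ w' x)
    (h0 : ∀ x ∈ A, 0 ≤ εl x ∧ εl x ≤ 1 / 4)
    (h0u : ∀ x ∈ A, 0 ≤ εu x ∧ εu x ≤ (1 + u0) / 2) (hu0 : 0 ≤ u0 ∧ u0 < 1)
    (hτ : ∀ x ∈ A, τ x = 1 / w' x - 1 / w x)
    (hDl : 0 < Dl) (hDu : Dl ≤ Du)
    (hb : ∀ e, Dl / 2 ≤ bl e ∧ Du ≤ bu e ∧ bu e ≤ 2 * Du)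
    (he1 : 0 ≤ e1) (hm : 0 ≤ m)
    (hfrm : ∀ E1 : Matrix (Tor d M) (Tor d M) ℝ, Lad (EE (Gr H κ) κ A) E1 τ →
      ∀ f : Tor d M → ℝ, (∀ x, ¬ (x ∈ A ∧ sd x B ≤ 2 * ℓ) → f x = 0) →
        |qd (EE (Gr H' κ') κ' A) f - qd E1 f| ≤ e1 * qd E1 f)
    (n1 : TN' d β r0 τs ℓ F.card ≤ m * wm) (n2 : TE' d β r0 τs ℓ F.card ≤ m * (Dl / 2))
    (n3 : TN' d β r0 τs ℓ F.card ≤ nn / 8 * wm) (n4 : TE' d β r0 τs ℓ F.card ≤ nn / 2 * Dl)
    (n5 : (2 + 400 * (d : ℝ) ^ 2) * (e1 + 2 * m) * (2 / (1 - u0)) ≤ u)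
    (n6 : u ≤ nn / 8) (n7 : u * (2 * Du) ≤ nn / 2 * Dl) (n8 : 32 * nn ≤ 1 - u0) :
    Fm sT tT A w' (fun x => εl x * (w' x / w x) + nn * omB ℓ B x)
      (fun x => εu x * (w' x / w x) + nn * omB ℓ B x)
      (fun e => bl e - Dl * (nn * omB ℓ B (sT e)))
      (fun e => bu e + Du * (nn * omB ℓ B (sT e))) (qd (EE (Gr H' κ') κ' A)) := by
  have hsG : ∀ x y, Gr H κ x y = Gr H κ y x := (hGeq _ H κ hU.n).2.1
  have hκ : ∀ x, 0 ≤ κ x := fun x => (hU.n.pos x).le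
  obtain ⟨-, hL⟩ := lad_exists (issymm (ee_symm hsG κ A)) (ee_psd hsG hκ A) hτ0
  have hu1 : 0 < 1 - u0 := by linarith only [hu0.2]
  have hu : 0 ≤ u := by
    refine le_trans ?_ n5
    have : 0 ≤ e1 + 2 * m := by linarith only [he1, hm]
    positivity
  have hnn : 0 ≤ nn := by linarith only [n6, hu]
  have herr := inc_err hd hU hFA hβ hℓ hℓR hFB hr0 hr8 hβℓ hφ hφ1 h hL hτs hτF hw hw' hwm hwm'
    h0 h0u hu0 hτ hDl (hDl.trans_le hDu) hb he1 hm (hfrm _ hL) n1 n2 n3 n4 n5 n6 n7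
  have hom : ∀ x, nn * omB ℓ B x ≤ (1 - u0) / 4 := fun x => by
    have h1 := omB_le ℓ B x
    have h2 := mul_le_mul_of_nonneg_left h1 hnn
    linarith only [n8, h2]
  have hbk := fm_blk (v := fun x => nn / 4 * omB ℓ B x)
    (dl := fun e => nn / 4 * (4 * Dl) * omB ℓ B (sT e)) (Q' := qd (EE (Gr H' κ') κ' A)) h hL hw hw'
    (fun x hx => (h0 x hx).1) (fun x hx => (h0 x hx).2) (fun x hx => (h0u x hx).1)
    (fun x hx => by
      have h1 := hom x
      have h2 := (h0u x hx).2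
      linarith only [hu0, h1, h2]) hτ
    (fun x _ => by
      have := (omB_pos ℓ B x).le
      positivity)
    (fun x _ => by
      have h1 := hom x
      have h2 := hu0.1
      linarith only [hu0, h1]) herr
  have hr : ∀ x ∈ A, 0 ≤ w' x / w x ∧ w' x / w x ≤ 1 := fun x hx =>
    ⟨div_nonneg (hw' x hx).1.le (hw x hx).le, (div_le_one (hw x hx)).2 (hw' x hx).2⟩
  refine hbk.mono (fun x hx => (hw' x hx).1.le) (fun x hx => ?_) (fun x _ => le_of_eq (by ring))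
    (fun x _ => le_of_eq (by ring)) (fun x hx => ?_) (fun e => le_of_eq (by ring)) (fun e => ?_)
  · have h1 := (omB_pos ℓ B x).le
    have h2 := mul_nonneg (h0 x hx).1 (hr x hx).1
    have h3 : 0 ≤ 4 * (nn / 4 * omB ℓ B x) := by positivity
    linarith only [h2, h3]
  · have h1 := hom x
    have h2 := mul_le_of_le_one_right (h0u x hx).1 (hr x hx).2
    have h3 := (h0u x hx).2
    linarith only [hu0, h1, h2, h3]
  · have h1 := (omB_pos ℓ B (sT e)).le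
    have h2 : Dl * (nn * omB ℓ B (sT e)) ≤ Du * (nn * omB ℓ B (sT e)) :=
      mul_le_mul_of_nonneg_right hDu (by positivity)
    linarith only [h2]

end Pool.Agent.LTG.Inc
end
end -- Pool.Agent.Helper22_LTG.Inc

section -- Pool.Agent.Helper22_AHH.Frm

/-!
# The field `frm` of `AHH.Inc`

From `Upd` (helper89), the plateau function, and `Fl.Good.frm`: the form bounds after one block update,
literally as in `AHH.Inc.frm`. The two tails `TN'`, `TE'` are explicit and exponentially small.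
-/

set_option autoImplicit false

open scoped BigOperators NNReal Matrix

noncomputable section

namespace Pool.Agent.AHH.H22

open Pool.Agent.BED (Tor)
open Pool.Agent.AND2B (net kap Hr Vef)
open Pool.Agent.ANP (Cfg Geo)
open Pool.Agent.ANP.H61 (sd)
open Pool.Agent.AFJ (EE)
open Pool.Agent.ANR (Gr)
open Pool.Agent.ANR.H89 (Upd)
open Pool.Agent.LTG (Fm Bd sT tT qd Lad)
open Pool.Agent.LTG.Inc

variable {d M : ℕ} [NeZero M]

/-- the resistances of the ladder of one block update -/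
def lamT (e₀ : ℝ) (T T' : Cfg (Tor d M)) (F : Finset (Tor d M)) (x : Tor d M) : ℝ :=
  if x ∈ F then 1 / gg T x * (1 / kap e₀ T' x - 1 / kap e₀ T x) else 0

theorem tn_mono {β r0 τs : ℝ} {ℓ : ℕ} (hβ : 0 < β) (hτs : 0 ≤ τs) {nb nb' : ℕ} (h : nb ≤ nb') :
    TN' d β r0 τs ℓ nb ≤ TN' d β r0 τs ℓ nb' := by
  unfold TN' LTG.Fst.TN
  have h1 : (nb : ℝ) ≤ nb' := by exact_mod_cast h
  gcongr

theorem te_mono {β r0 τs : ℝ} {ℓ : ℕ} (hβ : 0 < β) (hτs : 0 ≤ τs) {nb nb' : ℕ} (h : nb ≤ nb') :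
    TE' d β r0 τs ℓ nb ≤ TE' d β r0 τs ℓ nb' := by
  unfold TE' LTG.Fst.TE
  have h1 : (nb : ℝ) ≤ nb' := by exact_mod_cast h
  gcongr

/-- the alive sites do not change -/
theorem al_hf {T : Cfg (Tor d M)} {th : ℝ≥0} (hth : 0 < th) (F : Finset (Tor d M))
    (ζ : Tor d M → ℝ) : Al (T.hf th F ζ) = Al T := by
  unfold Al Cfg.hf
  refine Finset.filter_congr fun x _ => ?_
  simp only
  by_cases hx : x ∈ F
  · rw [if_pos hx]
    constructor
    · intro h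
      rcases eq_zero_or_pos (a := T.s x) with h0 | h0
      · rw [h0, mul_zero] at h; exact absurd h (lt_irrefl 0)
      · exact h0
    · intro h
      exact mul_pos hth h
  · rw [if_neg hx]

/-- the numbers -/
structure NumF (d : ℕ) (D₀ D₁ u₀ nn e1 m u β r0 τs wm : ℝ) (ℓ nb : ℕ) : Prop where
  hu0 : 0 ≤ u₀ ∧ u₀ < 1
  hD0 : 0 < D₀
  hD1 : D₀ ≤ D₁
  he1 : 0 ≤ e1
  hm : 0 ≤ m
  n1 : TN' d β r0 τs ℓ nb ≤ m * wm
  n2 : TE' d β r0 τs ℓ nb ≤ m * (D₀ / 2)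
  n3 : TN' d β r0 τs ℓ nb ≤ nn / 8 * wm
  n4 : TE' d β r0 τs ℓ nb ≤ nn / 2 * D₀
  n5 : (2 + 400 * (d : ℝ) ^ 2) * (e1 + 2 * m) * (2 / (1 - u₀)) ≤ u
  n6 : u ≤ nn / 8
  n7 : u * (2 * D₁) ≤ nn / 2 * D₀
  n8 : 32 * nn ≤ 1 - u₀

/-- (INC.frm) the form bounds after one block update -/
theorem inc_frm (hd : 0 < d) {V : Env d M} {b : Bud} {n k : ℕ} {B : Tor d M}
    {T : Cfg (Tor d M)} {ζ φ : Tor d M → ℝ} {F S : Finset (Tor d M)}
    {h₀ k₀ β : ℝ} (hΓ : ∀ x y, V.Γ.D x y = sd x y) (hth : 0 < V.th) (hth1 : V.th ≤ 1)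
    (he : 0 < V.e₀) (hc₀ : 0 < V.c₀) (hg : ∀ x ∈ Al T, V.c₀ ≤ gg T x)
    (hU : Upd (Hr (Vef T) V.E) (Hr (Vef (T.hf V.th F ζ)) V.E) (kap V.e₀ T)
      (kap V.e₀ (T.hf V.th F ζ)) φ F (Al T) S h₀ k₀ β)
    (hFA : F ⊆ Al T) (hβ : 0 < β) {R : ℕ} (hℓ : 0 < V.Γ.L n) (hℓR : 2 * R = V.Γ.L n)
    (hFB : ∀ x ∈ F, V.Γ.D x B ≤ V.Γ.L n) {r0 : ℝ} (hr0 : 0 ≤ r0) (hr8 : 8 * r0 ≤ V.Γ.L n)
    (hβℓ : 704 * d ≤ β * V.Γ.L n) (hφ : ∀ y, ∃ x ∈ F, 1 / 2 * (V.Γ.D x y : ℝ) - r0 ≤ φ y)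
    (hφ1 : ∀ e : Bd d M, |φ (tT e) - φ (sT e)| ≤ 1) {e1 m u : ℝ} {nb : ℕ} (hnb : F.card ≤ nb)
    (hN : NumF d V.D₀ V.D₁ V.u₀ (b.nn n k) e1 m u β r0 (1 / (V.c₀ * k₀)) (k₀ * V.c₀)
      (V.Γ.L n) nb)
    (hfrm : ∀ E1 : Matrix (Tor d M) (Tor d M) ℝ,
      Lad (Ef V.E V.e₀ T) E1 (lamT V.e₀ T (T.hf V.th F ζ) F) →
      ∀ f : Tor d M → ℝ, (∀ x, ¬ (x ∈ Al T ∧ V.Γ.D x B ≤ 2 * V.Γ.L n) → f x = 0) →
        |qd (Ef V.E V.e₀ (T.hf V.th F ζ)) f - qd E1 f| ≤ e1 * qd E1 f)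
    (εl εu : Tor d M → ℝ) (bl bu : Bd d M → ℝ)
    (h : Fm sT tT (Al T) (ww V.e₀ T) εl εu bl bu (qd (Ef V.E V.e₀ T)))
    (h1 : ∀ x ∈ Al T, 0 ≤ εl x ∧ εl x ≤ 1 / 8 ∧ 0 ≤ εu x ∧ εu x ≤ (1 + V.u₀) / 2)
    (h2 : ∀ e, V.D₀ / 2 ≤ bl e ∧ V.D₁ ≤ bu e ∧ bu e ≤ 2 * V.D₁) :
    Fm sT tT (Al T) (ww V.e₀ (T.hf V.th F ζ))
      (fun x => εl x * (ww V.e₀ (T.hf V.th F ζ) x / ww V.e₀ T x) + b.nn n k * om V.Γ n B x)
      (fun x => εu x * (ww V.e₀ (T.hf V.th F ζ) x / ww V.e₀ T x) + b.nn n k * om V.Γ n B x)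
      (fun e => bl e - V.D₀ * (b.nn n k * om V.Γ n B (sT e)))
      (fun e => bu e + V.D₁ * (b.nn n k * om V.Γ n B (sT e)))
      (qd (Ef V.E V.e₀ (T.hf V.th F ζ))) := by
  have hal := al_hf (T := T) hth F ζ
  set T' := T.hf V.th F ζ with hT'
  have hk₀ := hU.hk₀
  have hgp : ∀ x ∈ Al T, 0 < gg T x := fun x hx => lt_of_lt_of_le hc₀ (hg x hx)
  have hgT : ∀ x, gg T' x = gg T x := fun x => rfl
  have hkT : ∀ x ∈ Al T, k₀ ≤ kap V.e₀ T x ∧ k₀ ≤ kap V.e₀ T' x := fun x hx => hU.hA x hx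
  have hkle : ∀ x ∈ Al T, kap V.e₀ T' x ≤ kap V.e₀ T x := by
    intro x hx
    have h3 := hgp x hx
    have h4 : (T'.s x : ℝ) ≤ T.s x := by
      rw [hT']
      unfold Cfg.hf
      simp only
      split
      · push_cast
        have h5 : (V.th : ℝ) ≤ 1 := by exact_mod_cast hth1
        have h6 : (0 : ℝ) ≤ T.s x := NNReal.coe_nonneg _
        nlinarith only [hth1]
      · exact le_rfl
    show V.e₀ + (T'.s x : ℝ) * gg T x ≤ V.e₀ + (T.s x : ℝ) * gg T x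
    have := mul_le_mul_of_nonneg_right h4 h3.le
    linarith only [this]
  have hwT : ∀ x ∈ Al T, 0 < ww V.e₀ T x := fun x hx =>
    mul_pos (lt_of_lt_of_le hk₀ (hkT x hx).1) (hgp x hx)
  have hwT' : ∀ x ∈ Al T, 0 < ww V.e₀ T' x ∧ ww V.e₀ T' x ≤ ww V.e₀ T x := fun x hx =>
    ⟨mul_pos (lt_of_lt_of_le hk₀ (hkT x hx).2) (hgp x hx),
      mul_le_mul_of_nonneg_right (hkle x hx) (hgp x hx).le⟩
  have hwm : ∀ x ∈ Al T, k₀ * V.c₀ ≤ ww V.e₀ T' x := fun x hx =>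
    mul_le_mul (hkT x hx).2 (hg x hx) hc₀.le (hk₀.le.trans (hkT x hx).2)
  -- the resistances
  have hoff : ∀ x, x ∉ F → kap V.e₀ T' x = kap V.e₀ T x := by
    intro x hx
    rw [hT']
    unfold kap Cfg.hf
    simp only
    rw [if_neg hx]
  have hlam0 : ∀ x, 0 ≤ lamT V.e₀ T T' F x ∧ lamT V.e₀ T T' F x ≤ 1 / (V.c₀ * k₀) := by
    intro x
    unfold lamT
    split
    · rename_i hx
      have hxA := hFA hx
      have h3 := hgp x hxA
      have h4 := hkT x hxA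
      have h5 : 0 < kap V.e₀ T' x := lt_of_lt_of_le hk₀ h4.2
      have h6 : 0 < kap V.e₀ T x := lt_of_lt_of_le hk₀ h4.1
      have h7 : 1 / kap V.e₀ T x ≤ 1 / kap V.e₀ T' x :=
        one_div_le_one_div_of_le h5 (hkle x hxA)
      constructor
      · exact mul_nonneg (one_div_nonneg.2 h3.le) (by linarith only [h7])
      · have h8 : 1 / kap V.e₀ T' x - 1 / kap V.e₀ T x ≤ 1 / k₀ := by
          have h9 : 1 / kap V.e₀ T' x ≤ 1 / k₀ := one_div_le_one_div_of_le hk₀ h4.2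
          have h10 : 0 ≤ 1 / kap V.e₀ T x := one_div_nonneg.2 h6.le
          linarith only [h9, h10]
        have h9 : 1 / gg T x ≤ 1 / V.c₀ := one_div_le_one_div_of_le hc₀ (hg x hxA)
        calc 1 / gg T x * (1 / kap V.e₀ T' x - 1 / kap V.e₀ T x) ≤ 1 / V.c₀ * (1 / k₀) :=
              mul_le_mul h9 h8 (by linarith only [h7]) (one_div_nonneg.2 hc₀.le)
          _ = 1 / (V.c₀ * k₀) := by rw [one_div_mul_one_div]
    · exact ⟨le_rfl, by positivity⟩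
  have hτ : ∀ x ∈ Al T, lamT V.e₀ T T' F x = 1 / ww V.e₀ T' x - 1 / ww V.e₀ T x := by
    intro x hx
    have h3 := (hgp x hx).ne'
    have h5 : kap V.e₀ T' x ≠ 0 := (lt_of_lt_of_le hk₀ (hkT x hx).2).ne'
    have h6 : kap V.e₀ T x ≠ 0 := (lt_of_lt_of_le hk₀ (hkT x hx).1).ne'
    unfold lamT ww
    rw [hgT]
    by_cases hF : x ∈ F
    · rw [if_pos hF]
      field_simp
    · rw [if_neg hF, hoff x hF]
      ring
  have hE' : Ef V.E V.e₀ T' = EE (Gr (Hr (Vef T') V.E) (kap V.e₀ T')) (kap V.e₀ T') (Al T) := by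
    unfold Ef
    rw [hal]
    rfl
  have hom : ∀ x, om V.Γ n B x = omB (V.Γ.L n) B x := fun x => by
    unfold om omB
    rw [hΓ]
  simp only [hom]
  rw [hE']
  have hD1 : 0 < V.D₁ := hN.hD0.trans_le hN.hD1
  have hts : 0 ≤ 1 / (V.c₀ * k₀) := by positivity
  refine inc_gen (τ := lamT V.e₀ T T' F) (w := ww V.e₀ T) (w' := ww V.e₀ T') (e1 := e1) (m := m)
    (nn := b.nn n k) (u := u) (u0 := V.u₀) (Dl := V.D₀) (Du := V.D₁) (wm := k₀ * V.c₀) (r0 := r0)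
    hd hU hFA hβ hℓ hℓR (fun x hx => by rw [← hΓ]; exact hFB x hx) hr0 hr8 hβℓ
    (fun y => ?_) hφ1 h (fun x => (hlam0 x).1) (fun x => (hlam0 x).2) (fun x hx => ?_) hwT hwT'
    (by positivity) hwm (fun x hx => ⟨(h1 x hx).1, by linarith only [(h1 x hx).2.1]⟩)
    (fun x hx => ⟨(h1 x hx).2.2.1, (h1 x hx).2.2.2⟩) hN.hu0 hτ hN.hD0 hN.hD1 h2 hN.he1 hN.hm
    (fun E1 hE1 f hf => ?_) ((tn_mono hβ hts hnb).trans hN.n1) ((te_mono hβ hts hnb).trans hN.n2)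
    ((tn_mono hβ hts hnb).trans hN.n3) ((te_mono hβ hts hnb).trans hN.n4) hN.n5 hN.n6 hN.n7 hN.n8
  · obtain ⟨x, hx, h3⟩ := hφ y
    rw [hΓ] at h3
    exact ⟨x, hx, h3⟩
  · unfold lamT
    rw [if_neg hx]
  · rw [← hE']
    refine hfrm E1 hE1 f fun x hx => hf x fun h3 => hx ⟨h3.1, ?_⟩
    rw [hΓ]
    exact h3.2

end Pool.Agent.AHH.H22
end
end -- Pool.Agent.Helper22_AHH.Frm

section -- Pool.Agent.Helper22_AHH.FrmB

/-!
# The field `frm` of `AHH.Inc` for the block lemma `flOf`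
-/

set_option autoImplicit false

open scoped BigOperators NNReal Matrix

noncomputable section

namespace Pool.Agent.AHH.H22

open Pool.Agent.BED (Tor adj ev)
open Pool.Agent.AND2B (net kap Hr Vef)
open Pool.Agent.ANP (Cfg Geo Fc)
open Pool.Agent.ANP.H61 (sd)
open Pool.Agent.AFJ (EE)
open Pool.Agent.ANR (Gr)
open Pool.Agent.ANR.H89 (Upd Plt GeoF cI cI_pos upd_gen clk_le cl_anti hr_off)
open Pool.Agent.LTG (Fm Bd sT tT qd Lad)
open Pool.Agent.LTG.Inc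
open Pool.Agent.LE.QF (qf)

variable {d M : ℕ} [NeZero M]

/-- plateau functions change by at most one across a bond -/
theorem lip_bd {W : Tor d M → ℝ} {E h₀ : ℝ} {φ : Tor d M → ℝ} {S : Finset (Tor d M)}
    (h : Plt (Hr W E) φ S h₀) (e : Bd d M) : |φ (tT e) - φ (sT e)| ≤ 1 := by
  by_cases hne : φ (tT e) = φ (sT e)
  · rw [hne, sub_self, abs_zero]
    exact zero_le_one
  · have hst : sT e ≠ tT e := fun h1 => hne (by rw [h1])
    have h2 : Hr W E (sT e) (tT e) ≠ 0 := by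
      rw [hr_off W E hst]
      have h3 : 0 < adj d M (sT e) (tT e) := by
        unfold adj
        rw [Matrix.of_apply]
        refine Finset.sum_pos' (fun i _ => ?_) ⟨e.1, Finset.mem_univ _, ?_⟩
        · split <;> split <;> norm_num
        · have h4 : tT e = sT e + ev e.1 := rfl
          rw [if_pos h4]
          split <;> norm_num
      exact h3.ne'
    have h3 := (h.lip (sT e) (tT e) h2 (fun h4 => hne h4.symm)).2.2
    rwa [abs_sub_comm]

/-- FAR for a block update with the strong lower bound of the plateau function -/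
theorem upd_strong {V : Env d M} (hΓ : GeoF V.Γ) (hth : V.th ≤ 1)
    (hcl : ∀ k, V.cl (k + 1) = V.th * V.cl k) (hclp : ∀ k, 0 < V.cl k) (hcl1 : V.cl 0 ≤ 1)
    (he : 0 < V.e₀) (hc : 0 < V.c₀) (hc1 : V.c₀ ≤ 1) {n k : ℕ} {P run : Finset (Tor d M)}
    {T T' : Cfg (Tor d M)} {B : Tor d M} (hg : ∀ x ∈ Al T, V.c₀ ≤ gg T x)
    (hF : Fc V.Γ V.kk V.cl V.Dn n k P T run)
    (hsum : ∑ i ∈ Finset.range (n + 1), (3 ^ d * V.Dn i : ℝ) / V.Γ.L i ≤ 1 / 4)
    (hne : (run ∩ V.Γ.blk n B).Nonempty) (hmb : T'.mb = T.mb)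
    (hoff : ∀ x, x ∉ run ∩ V.Γ.blk n B → T'.V x = T.V x ∧ T'.s x = T.s x)
    (hon : ∀ x ∈ run ∩ V.Γ.blk n B, V.cl (k + 1) ≤ T'.s x) :
    run ∩ V.Γ.blk n B ⊆ Al T ∧ ∃ φ : Tor d M → ℝ,
      Upd (Hr (Vef T) V.E) (Hr (Vef T') V.E) (kap V.e₀ T) (kap V.e₀ T') φ (run ∩ V.Γ.blk n B)
        (Al T) (Al T \ (run ∩ V.Γ.blk n B)) (2 * d) (V.c₀ * V.cl (k + 1))
        (V.c₀ * V.cl (k + 1) / (8 * d)) ∧
      ∀ y, ∃ x ∈ run ∩ V.Γ.blk n B,
        1 / 2 * (V.Γ.D x y : ℝ) - (cI d V.Dn (Finset.range (n + 1)) + 1) ≤ φ y := by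
  set b := run ∩ V.Γ.blk n B with hb
  have hbpos : ∀ x ∈ b, 0 < T.s x := fun x hx => by
    have hxr := (Finset.mem_inter.1 hx).1
    rw [hF.runs x hxr]
    split
    · exact hclp _
    · exact hclp _
  have hiff : ∀ x, 0 < T'.s x ↔ 0 < T.s x := fun x => by
    by_cases hx : x ∈ b
    · exact ⟨fun _ => hbpos x hx, fun _ => lt_of_lt_of_le (hclp _) (hon x hx)⟩
    · rw [(hoff x hx).2]
  have hkapc : ∀ (S : Cfg (Tor d M)) (x : Tor d M), S.mb = T.mb → 0 < T.s x →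
      V.cl (k + 1) ≤ S.s x → V.c₀ * V.cl (k + 1) ≤ kap V.e₀ S x := fun S x hS hx hcx => by
    unfold kap
    have hgx : V.c₀ ≤ (T.mb x).im := hg x (by
      unfold Al; rw [Finset.mem_filter]; exact ⟨Finset.mem_univ _, hx⟩)
    rw [hS]
    have h1 : (V.cl (k + 1) : ℝ) ≤ S.s x := by exact_mod_cast hcx
    have h2 : V.c₀ * V.cl (k + 1) ≤ (S.s x : ℝ) * (T.mb x).im := by
      rw [mul_comm]
      exact mul_le_mul h1 hgx hc.le (S.s x).2
    linarith only [he, h2]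
  have hpos : ∀ (S : Cfg (Tor d M)), S.mb = T.mb → (∀ x, 0 < S.s x → 0 < T.s x) →
      ∀ x, 0 ≤ (S.s x : ℝ) * (S.mb x).im := fun S hS hSs x => by
    by_cases hx : 0 < S.s x
    · have hgx : V.c₀ ≤ (T.mb x).im := hg x (by
        unfold Al; rw [Finset.mem_filter]; exact ⟨Finset.mem_univ _, hSs x hx⟩)
      rw [hS]
      exact mul_nonneg (S.s x).2 (hc.le.trans hgx)
    · have : S.s x = 0 := by simpa using hx
      rw [this]; simp
  have hk0 : 0 < V.c₀ * (V.cl (k + 1) : ℝ) := mul_pos hc (by exact_mod_cast hclp _)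
  have hk1 : V.c₀ * (V.cl (k + 1) : ℝ) ≤ 1 := by
    have h1 : (V.cl (k + 1) : ℝ) ≤ 1 := by
      have := (cl_anti hth hcl (Nat.zero_le (k + 1))).trans hcl1
      exact_mod_cast this
    have h2 : (0 : ℝ) ≤ V.cl (k + 1) := (V.cl (k + 1)).2
    nlinarith only [hc1, h1]
  obtain ⟨φ, hU, hlow⟩ := upd_gen hΓ (E := V.E) (e₀ := V.e₀) (k₀ := V.c₀ * V.cl (k + 1)) (T := T)
    (T' := T') (F := b) hne (I := Finset.range (n + 1)) (Dn := V.Dn) he
    (hpos T rfl fun x h => h) (hpos T' hmb fun x h => (hiff x).1 h)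
    (fun x hx => ⟨(hoff x hx).1, (hoff x hx).2, by rw [hmb]⟩)
    (by
      obtain ⟨dd, h1, h2⟩ := hF.dens
      refine ⟨dd, fun x hx => ?_, h2⟩
      obtain ⟨j, hj, hxj⟩ := h1 x hx
      exact ⟨j, Finset.mem_range.2 (by omega), hxj⟩)
    hsum hk0 hk1 (fun x hx => hkapc T x rfl hx (clk_le hth hcl hF hx))
    (fun x hx => by
      by_cases hxb : x ∈ b
      · exact hkapc T' x hmb ((hiff x).1 hx) (hon x hxb)
      · refine hkapc T' x hmb ((hiff x).1 hx) ?_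
        rw [(hoff x hxb).2]
        exact clk_le hth hcl hF ((hiff x).1 hx))
  have hAl : Al T ∩ Al T' = Al T := by
    ext x
    rw [Finset.mem_inter]
    unfold Al
    rw [Finset.mem_filter, Finset.mem_filter]
    exact ⟨fun h => h.1, fun h => ⟨h, Finset.mem_univ _, (hiff x).2 h.2⟩⟩
  rw [hAl] at hU
  refine ⟨fun x hx => ?_, φ, hU, hlow⟩
  unfold Al
  exact Finset.mem_filter.2 ⟨Finset.mem_univ _, hbpos x hx⟩

/-- the field `frm` of `AHH.Inc` -/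
def FrmC (V : Env d M) (b : Bud) (n k : ℕ) (B : Tor d M) (T T' : Cfg (Tor d M)) : Prop :=
  ∀ (εl εu : Tor d M → ℝ) (bl bu : Bd d M → ℝ),
    Fm sT tT (Al T) (ww V.e₀ T) εl εu bl bu (qd (Ef V.E V.e₀ T)) →
    (∀ x ∈ Al T, 0 ≤ εl x ∧ εl x ≤ 1 / 8 ∧ 0 ≤ εu x ∧ εu x ≤ (1 + V.u₀) / 2) →
    (∀ e, V.D₀ / 2 ≤ bl e ∧ V.D₁ ≤ bu e ∧ bu e ≤ 2 * V.D₁) →
    Fm sT tT (Al T) (ww V.e₀ T')
      (fun x => εl x * (ww V.e₀ T' x / ww V.e₀ T x) + b.nn n k * om V.Γ n B x)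
      (fun x => εu x * (ww V.e₀ T' x / ww V.e₀ T x) + b.nn n k * om V.Γ n B x)
      (fun e => bl e - V.D₀ * (b.nn n k * om V.Γ n B (sT e)))
      (fun e => bu e + V.D₁ * (b.nn n k * om V.Γ n B (sT e))) (qd (Ef V.E V.e₀ T'))

/-- `Inc.frm` from the conclusion of the block lemma -/
theorem frm_of (hd : 0 < d) {V : Env d M} (hΓ : GeoF V.Γ) (hD : ∀ x y, V.Γ.D x y = sd x y)
    (hth0 : 0 < V.th) (hth : V.th ≤ 1) (hcl : ∀ k, V.cl (k + 1) = V.th * V.cl k)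
    (hclp : ∀ k, 0 < V.cl k) (hcl1 : V.cl 0 ≤ 1) (he : 0 < V.e₀) (hc : 0 < V.c₀)
    (hc1 : V.c₀ ≤ 1) {bd : Bud} {n k : ℕ} {P run : Finset (Tor d M)} {T : Cfg (Tor d M)}
    {B : Tor d M} (hg : ∀ x ∈ Al T, V.c₀ ≤ gg T x)
    (hF : Fc V.Γ V.kk V.cl V.Dn n k P T run) (hPB : Disjoint P (V.Γ.blk n B))
    (hsum : ∑ i ∈ Finset.range (n + 1), (3 ^ d * V.Dn i : ℝ) / V.Γ.L i ≤ 1 / 4)
    (hL : 8 * (cI d V.Dn (Finset.range (n + 1)) + 1) ≤ V.Γ.L n) (hB : V.Γ.bl n B = B)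
    (hne : (run ∩ V.Γ.blk n B).Nonempty) {R : ℕ} (hR : 2 * R = V.Γ.L n) (hL0 : 0 < V.Γ.L n)
    (hβ : 704 * d ≤ V.c₀ * V.cl (k + 1) / (8 * d) * V.Γ.L n) {m u : ℝ} {p : H67.Par}
    (hN : NumF d V.D₀ V.D₁ V.u₀ (bd.nn n k) (2 * p.ε₁) m u (V.c₀ * V.cl (k + 1) / (8 * d))
      (cI d V.Dn (Finset.range (n + 1)) + 1) (1 / (V.c₀ * (V.c₀ * V.cl (k + 1))))
      (V.c₀ * V.cl (k + 1) * V.c₀) (V.Γ.L n) ((2 * V.Γ.L n + 1) ^ d))
    {Q Q1 U Yg : Finset (Tor d M)} (hQ : ∀ x, x ∈ Al T → V.Γ.D x B ≤ 2 * V.Γ.L n → x ∈ Q)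
    (ζ : Tor d M → ℝ)
    (hG : (H67.flOf V T (run ∩ V.Γ.blk n B) Q Q1 run U Yg k p).Good (fun c => ζ c)) :
    FrmC V bd n k B T (T.hf V.th (run ∩ V.Γ.blk n B) ζ) := by
  set b := run ∩ V.Γ.blk n B with hb
  set T' := T.hf V.th b ζ with hT'
  have hsb : ∀ x ∈ b, T.s x = V.cl k := by
    intro x hx
    obtain ⟨h1, h2⟩ := Finset.mem_inter.1 hx
    rw [hF.runs x h1, if_neg fun h3 => Finset.disjoint_left.1 hPB h3 h2]
  have hoff : ∀ x, x ∉ b → T'.V x = T.V x ∧ T'.s x = T.s x := by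
    intro x hx
    rw [hT']
    unfold Cfg.hf
    simp only
    rw [if_neg hx, if_neg hx]
    exact ⟨rfl, rfl⟩
  have hon : ∀ x ∈ b, V.cl (k + 1) ≤ T'.s x := by
    intro x hx
    rw [hT']
    unfold Cfg.hf
    simp only
    rw [if_pos hx, hsb x hx, hcl]
  obtain ⟨hbA, φ, hU, hφ⟩ := upd_strong hΓ hth hcl hclp hcl1 he hc hc1 hg hF hsum hne
    (T' := T') rfl hoff hon
  have hbB : ∀ x ∈ b, V.Γ.D x B ≤ V.Γ.L n := by
    intro x hx
    have h1 : V.Γ.bl n x = B := by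
      have := (Finset.mem_inter.1 hx).2
      unfold Geo.blk at this
      exact (Finset.mem_filter.1 this).2
    exact hΓ.ok.diam n x B (by rw [h1, hB])
  have hcard : b.card ≤ (2 * V.Γ.L n + 1) ^ d := by
    refine (Finset.card_le_card fun x hx => ?_).trans (hΓ.ok.vol B (V.Γ.L n))
    rw [Finset.mem_filter]
    refine ⟨Finset.mem_univ _, ?_⟩
    rw [hΓ.ok.comm]
    exact hbB x hx
  have hcp : 0 < V.c₀ * (V.cl (k + 1) : ℝ) := mul_pos hc (by exact_mod_cast hclp _)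
  set F := H67.flOf V T b Q Q1 run U Yg k p with hFdef
  obtain ⟨g1, g2⟩ := H58.fl_G0 F V.E V.e₀ T b rfl
  obtain ⟨g3, g4⟩ := H58.fl_Gt F V.E V.e₀ T V.th (V.cl k) b rfl hsb rfl ζ
  have hal := al_hf (T := T) hth0 b ζ
  have hE0 : F.E0 = Ef V.E V.e₀ T := by
    show EE F.G0 (F.k 0) (Al T) = EE (net V.E V.e₀ T) (kap V.e₀ T) (Al T)
    rw [g1, funext g2]
  have hEt : F.Et (F.T, fun c => ζ c) = Ef V.E V.e₀ T' := by
    show EE (F.Gt (F.T, fun c => ζ c)) (F.k F.T) (Al T) = EE (net V.E V.e₀ T') (kap V.e₀ T') (Al T')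
    rw [hal, g3, funext g4]
  have hlam : F.lam F.T = lamT V.e₀ T T' b := by
    funext x
    unfold AFL.Fl.lam lamT
    rw [g4, g2]
    rfl
  intro εl εu bl bu h h1 h2
  have key := inc_frm (b := bd) (ζ := ζ) (e1 := 2 * p.ε₁) (m := m) (u := u) (R := R)
    (r0 := cI d V.Dn (Finset.range (n + 1)) + 1) (nb := (2 * V.Γ.L n + 1) ^ d) hd hD hth0 hth he hc
    hg hU hbA (by positivity) hL0 hR hbB
    (by linarith only [cI_pos d V.Dn (Finset.range (n + 1))]) hL hβ hφ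
    (fun e => lip_bd hU.plt e) hcard hN
    (fun E1 hE1 f hf => ?_) εl εu bl bu h h1 h2
  · exact key
  · have h3 := hG.frm E1 (by rw [hE0, hlam]; exact hE1) f
      (fun x hx => hf x fun h4 => hx (hQ x h4.1 h4.2))
    rw [hEt] at h3
    exact h3

end Pool.Agent.AHH.H22
end
end -- Pool.Agent.Helper22_AHH.FrmB

section -- Pool.Agent.Helper22_AHH.FrmN

/-!
# The numbers of the field `frm`
-/

set_option autoImplicit false

open scoped BigOperators NNReal Matrix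

noncomputable section

namespace Pool.Agent.AHH.H22

open Pool.Agent.AND.Num
open Pool.Agent.LTG.Inc

theorem alg1 {A a σ N n Ld E1 E2 E2' K κ σd Ex : ℝ} (hE1 : 0 ≤ E1) (hE2 : 0 ≤ E2)
    (hN0 : 0 ≤ N) (hK0 : 0 ≤ K) (ha : 0 ≤ a) (hσ : 0 ≤ σ) (hn : 0 ≤ n)
    (hL : 0 ≤ Ld) (hκ : 0 ≤ κ) (hσd : 0 ≤ σd) (hA : A ≤ a * σ) (hN : N ≤ n * Ld)
    (hE : E2 ≤ E2') (hK : K ≤ κ * σd) (hx : E1 * E2' ≤ Ex) :
    3 * (A * E1) * (N * (E2 * K)) ≤ σ * σd * (3 * a * n * κ * Ld * Ex) := by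
  have h1 : N * (E2 * K) ≤ (n * Ld) * (E2' * (κ * σd)) :=
    mul_le_mul hN (mul_le_mul hE hK hK0 (hE2.trans hE)) (by positivity) (by positivity)
  have h2 : 3 * (A * E1) ≤ 3 * (a * σ * E1) :=
    mul_le_mul_of_nonneg_left (mul_le_mul_of_nonneg_right hA hE1) (by norm_num)
  have h3 : 3 * (A * E1) * (N * (E2 * K)) ≤
      3 * (a * σ * E1) * ((n * Ld) * (E2' * (κ * σd))) :=
    mul_le_mul h2 h1 (by positivity) (by positivity)
  have h4 := mul_le_mul_of_nonneg_left hx (by positivity : 0 ≤ σ * σd * (3 * a * n * κ * Ld))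
  calc 3 * (A * E1) * (N * (E2 * K)) ≤ 3 * (a * σ * E1) * ((n * Ld) * (E2' * (κ * σd))) := h3
    _ = σ * σd * (3 * a * n * κ * Ld) * (E1 * E2') := by ring
    _ ≤ σ * σd * (3 * a * n * κ * Ld) * Ex := h4
    _ = _ := by ring

theorem alg2 {A a σ N n Ld E1 E2 E2' K κ σd Ex k β b s : ℝ} (hE1 : 0 ≤ E1) (hE2 : 0 ≤ E2)
    (hN0 : 0 ≤ N) (hK0 : 0 ≤ K) (ha : 0 ≤ a) (hσ : 0 ≤ σ) (hn : 0 ≤ n)
    (hL : 0 ≤ Ld) (hκ : 0 ≤ κ) (hσd : 0 ≤ σd) (hA : A ≤ a * σ) (hN : N ≤ n * Ld)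
    (hE : E2 ≤ E2') (hK : K ≤ κ * σd) (hx : E1 * E2' ^ 2 ≤ Ex) (hb : 0 < b) (hs : 0 < s)
    (hβ : b * s ≤ β) :
    384 * (A * E1) * k ^ 2 * (N * (E2 * K)) ^ 2 / β ^ 2 ≤
      σ * σd ^ 2 * (1 / s) ^ 2 * (384 * a * k ^ 2 * (n * κ) ^ 2 / b ^ 2 * Ld ^ 2 * Ex) := by
  have h1 : N * (E2 * K) ≤ (n * Ld) * (E2' * (κ * σd)) :=
    mul_le_mul hN (mul_le_mul hE hK hK0 (hE2.trans hE)) (by positivity) (by positivity)
  have h1' : (N * (E2 * K)) ^ 2 ≤ ((n * Ld) * (E2' * (κ * σd))) ^ 2 :=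
    pow_le_pow_left₀ (by positivity) h1 2
  have h2 : 384 * (A * E1) * k ^ 2 ≤ 384 * (a * σ * E1) * k ^ 2 :=
    mul_le_mul_of_nonneg_right
      (mul_le_mul_of_nonneg_left (mul_le_mul_of_nonneg_right hA hE1) (by norm_num)) (by positivity)
  have h3 : 384 * (A * E1) * k ^ 2 * (N * (E2 * K)) ^ 2 / β ^ 2 ≤
      384 * (a * σ * E1) * k ^ 2 * ((n * Ld) * (E2' * (κ * σd))) ^ 2 / (b * s) ^ 2 :=
    div_le_div₀ (by positivity) (mul_le_mul h2 h1' (by positivity) (by positivity))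
      (by positivity) (pow_le_pow_left₀ (by positivity) hβ 2)
  have h4 := mul_le_mul_of_nonneg_left hx
    (by positivity : 0 ≤ σ * σd ^ 2 * (1 / s) ^ 2 * (384 * a * k ^ 2 * (n * κ) ^ 2 / b ^ 2 * Ld ^ 2))
  calc 384 * (A * E1) * k ^ 2 * (N * (E2 * K)) ^ 2 / β ^ 2
      ≤ 384 * (a * σ * E1) * k ^ 2 * ((n * Ld) * (E2' * (κ * σd))) ^ 2 / (b * s) ^ 2 := h3
    _ = σ * σd ^ 2 * (1 / s) ^ 2 * (384 * a * k ^ 2 * (n * κ) ^ 2 / b ^ 2 * Ld ^ 2) *
        (E1 * E2' ^ 2) := by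
      field_simp
    _ ≤ _ := h4
    _ = _ := by ring

/-- the factors of the tails -/
theorem factors {d : ℕ} (hd : 1 ≤ d) {c b s q r0 β : ℝ} {ℓ : ℕ} (hc : 0 < c) (hc1 : c ≤ 1)
    (hs : 0 < s) (hs1 : s ≤ 1) (hb : b = c / (16 * d)) (hβ : β = c * q / (8 * d))
    (hq1 : s / 2 ≤ q) (hL1 : (1 : ℝ) ≤ ℓ) (hr : 8 * r0 ≤ ℓ) :
    b * s ≤ β ∧ 8 + 4 * (1 / (c * (c * q))) ≤ 16 / c ^ 2 * (1 / s) ∧
      (((2 * ℓ + 1) ^ d : ℕ) : ℝ) ≤ 3 ^ d * (ℓ : ℝ) ^ d ∧
      (1 + 16 / (β * (1 / (2 * (d : ℝ))))) ^ d ≤ (33 * d / b) ^ d * (1 / s) ^ d ∧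
      Real.exp (β / 8 * r0) ≤ Real.exp (β * ℓ / 64) ∧
      Real.exp (-(β / 2 * ((ℓ : ℝ) / 8))) * Real.exp (β * ℓ / 64) ≤
        Real.exp (-(b / 32 * s * ℓ)) ∧
      Real.exp (-(β / 2 * ((ℓ : ℝ) / 8))) * Real.exp (β * ℓ / 64) ^ 2 ≤
        Real.exp (-(b / 32 * s * ℓ)) := by
  have hd1 : (1 : ℝ) ≤ d := by exact_mod_cast hd
  have hd0 : (0 : ℝ) < d := by linarith only [hd1]
  have hb0 : 0 < b := by rw [hb]; positivity
  have hb1 : b ≤ 1 := by
    rw [hb, div_le_one (by positivity)]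
    linarith only [hc1, hd1]
  have hq0 : 0 < q := by linarith only [hs, hq1]
  have hL0 : (0 : ℝ) < ℓ := by linarith only [hL1]
  have hβ0 : 0 < β := by rw [hβ]; positivity
  have hβb : b * s ≤ β := by
    rw [hβ, hb, div_mul_eq_mul_div, div_le_div_iff₀ (by positivity) (by positivity)]
    have h3 : c * s ≤ c * (2 * q) := mul_le_mul_of_nonneg_left (by linarith only [hq1]) hc.le
    nlinarith only [h3]
  have hbs : 0 < b * s := by positivity
  refine ⟨hβb, ?_, ?_, ?_, ?_, ?_, ?_⟩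
  · have e1 : 1 / (c * (c * q)) ≤ 2 / (c ^ 2 * s) := by
      rw [div_le_div_iff₀ (by positivity) (by positivity)]
      have h3 : c ^ 2 * s ≤ c ^ 2 * (2 * q) := mul_le_mul_of_nonneg_left (by linarith only [hq1]) (by positivity)
      nlinarith only [h3]
    have e2 : (8 : ℝ) ≤ 8 / (c ^ 2 * s) := by
      rw [le_div_iff₀ (by positivity)]
      have h3 : c ^ 2 * s ≤ 1 := by
        have h4 : c ^ 2 ≤ 1 := pow_le_one₀ hc.le hc1
        nlinarith only [hs1, h4]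
      linarith only [h3]
    have e3 : 16 / c ^ 2 * (1 / s) = 8 / (c ^ 2 * s) + 4 * (2 / (c ^ 2 * s)) := by
      field_simp
      norm_num
    rw [e3]
    linarith only [e1, e2]
  · push_cast
    rw [← mul_pow]
    exact pow_le_pow_left₀ (by positivity) (by linarith only [hL1]) d
  · rw [← mul_pow]
    refine pow_le_pow_left₀ (by positivity) ?_ d
    have e1 : 16 / (β * (1 / (2 * (d : ℝ)))) = 32 * d / β := by
      field_simp
      norm_num
    have e2 : 32 * d / β ≤ 32 * d / (b * s) := div_le_div_of_nonneg_left (by positivity) hbs hβb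
    have e3 : (1 : ℝ) ≤ d / (b * s) := by
      rw [le_div_iff₀ hbs, one_mul]
      nlinarith only [hs, hs1, hd1, hb1]
    have e4 : 33 * d / b * (1 / s) = d / (b * s) + 32 * d / (b * s) := by
      field_simp
      ring
    rw [e1, e4]
    linarith only [e2, e3]
  · apply Real.exp_le_exp.2
    have h3 := mul_le_mul_of_nonneg_left hr (by positivity : 0 ≤ β / 64)
    linarith only [h3]
  · rw [← Real.exp_add]
    apply Real.exp_le_exp.2
    have h3 := mul_le_mul_of_nonneg_right hβb hL0.le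
    have h4 := mul_pos hβ0 hL0
    linarith only [h3, h4]
  · rw [← Real.exp_nat_mul, ← Real.exp_add]
    apply Real.exp_le_exp.2
    push_cast
    have h3 := mul_le_mul_of_nonneg_right hβb hL0.le
    have h4 := mul_pos hβ0 hL0
    linarith only [h3]

/-- the two tails are small -/
theorem tails (d : ℕ) (hd : 1 ≤ d) (c : ℝ) (hc : 0 < c) (hc1 : c ≤ 1) :
    Small fun s => ∀ (q r0 : ℝ) (ℓ : ℕ), s / 2 ≤ q → s ^ (-(5 : ℝ)) ≤ ℓ → 8 * r0 ≤ ℓ →
      TN' d (c * q / (8 * d)) r0 (1 / (c * (c * q))) ℓ ((2 * ℓ + 1) ^ d) ≤ s ^ 3 ∧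
      TE' d (c * q / (8 * d)) r0 (1 / (c * (c * q))) ℓ ((2 * ℓ + 1) ^ d) ≤ s ^ 3 := by
  have hd1 : (1 : ℝ) ≤ d := by exact_mod_cast hd
  have hd0 : (0 : ℝ) < d := by linarith only [hd1]
  obtain ⟨b, hb⟩ : ∃ b : ℝ, b = c / (16 * d) := ⟨_, rfl⟩
  have hb0 : 0 < b := by rw [hb]; positivity
  have h1 := small_exp_dist (3 * (16 / c ^ 2) * 3 ^ d * (33 * d / b) ^ d) (b / 32) 5
    ((d : ℝ) + 4) d (by positivity) (by positivity) (by norm_num)
  have h2 := small_exp_dist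
    (384 * (16 / c ^ 2) * (22 * d) ^ 2 * (3 ^ d * (33 * d / b) ^ d) ^ 2 / b ^ 2) (b / 32) 5
    (2 * (d : ℝ) + 6) (d * 2) (by positivity) (by positivity) (by norm_num)
  refine ((h1.and h2).and (small_le 1 one_pos)).mono ?_
  clear h1 h2
  rintro s hs ⟨⟨h1, h2⟩, hs1⟩ q r0 ℓ hq1 hℓ hr
  have hq0 : 0 < q := by linarith only [hs, hq1]
  have h1 := h1 ℓ hℓ
  have h2 := h2 ℓ hℓ
  have hL1 : (1 : ℝ) ≤ ℓ := by
    refine le_trans ?_ hℓ
    exact Real.one_le_rpow_of_pos_of_le_one_of_nonpos hs hs1 (by norm_num)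
  have hL0 : (0 : ℝ) ≤ ℓ := by linarith only [hL1]
  obtain ⟨β, hβ⟩ : ∃ β : ℝ, β = c * q / (8 * d) := ⟨_, rfl⟩
  have hβ0 : 0 < β := by rw [hβ]; positivity
  obtain ⟨hβb, f1, f2, f3, f4, f5, f6⟩ := factors hd hc hc1 hs hs1 hb hβ hq1 hL1 hr
  rw [← hβ]
  have hK0 : 0 ≤ (1 + 16 / (β * (1 / (2 * (d : ℝ))))) ^ d := by positivity
  have hκ0 : 0 ≤ (33 * d / b) ^ d := by positivity
  rw [pow_mul] at h2
  have hs' : (1 / s) * (1 / s) ^ d * s ^ ((d : ℝ) + 4) = s ^ 3 := by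
    have e1 : s ^ ((d : ℝ) + 4) = s ^ d * s ^ 4 := by
      rw [← pow_add, ← Real.rpow_natCast]
      push_cast
      rfl
    rw [e1, one_div, inv_pow]
    field_simp
  have hs'' : (1 / s) * ((1 / s) ^ d) ^ 2 * (1 / s) ^ 2 * s ^ (2 * (d : ℝ) + 6) = s ^ 3 := by
    have e1 : s ^ (2 * (d : ℝ) + 6) = (s ^ d) ^ 2 * s ^ 6 := by
      rw [← pow_mul, ← pow_add, ← Real.rpow_natCast]
      push_cast
      congr 1
      ring
    rw [e1, one_div, inv_pow]
    field_simp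
  constructor
  · unfold TN' LTG.Fst.TN
    refine (alg1 (a := 16 / c ^ 2) (σ := 1 / s) (n := 3 ^ d) (Ld := (ℓ : ℝ) ^ d)
      (κ := (33 * d / b) ^ d) (σd := (1 / s) ^ d) (Real.exp_pos _).le (Real.exp_pos _).le
      (Nat.cast_nonneg _) hK0 (by positivity) (by positivity) (by positivity) (by positivity)
      hκ0 (by positivity) f1 f2 f4 f3 f5).trans ?_
    rw [← hs']
    exact mul_le_mul_of_nonneg_left h1 (by positivity)
  · unfold TE' LTG.Fst.TE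
    refine (alg2 (a := 16 / c ^ 2) (σ := 1 / s) (n := 3 ^ d) (Ld := (ℓ : ℝ) ^ d)
      (κ := (33 * d / b) ^ d) (σd := (1 / s) ^ d) (Real.exp_pos _).le (Real.exp_pos _).le
      (Nat.cast_nonneg _) hK0 (by positivity) (by positivity) (by positivity) (by positivity)
      hκ0 (by positivity) f1 f2 f4 f3 f6 hb0 hs hβb).trans ?_
    rw [← hs'']
    exact mul_le_mul_of_nonneg_left h2 (by positivity)

end Pool.Agent.AHH.H22
end
end -- Pool.Agent.Helper22_AHH.FrmN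

section -- Pool.Agent.Helper22_AHH.FrmM

/-!
# The numbers of the field `frm`, part 2
-/

set_option autoImplicit false

open scoped BigOperators NNReal Matrix

noncomputable section

namespace Pool.Agent.AHH.H22

open Pool.Agent.AND.Num
open Pool.Agent.LTG.Inc

/-- `u` -/
def uN (d : ℕ) (C x : ℝ) : ℝ := (2 + 400 * (d : ℝ) ^ 2) * (16 * C * x)

section alg

variable {d : ℕ} {c C s q W x D w t : ℝ}

theorem m1 (hc : 0 < c) (hs : 0 < s) (hq : s / 2 ≤ q) (hW : 0 < W) (hx : 0 < x)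
    (h : t ≤ c ^ 2 / 64 * (W * x ^ 2 * s)) : t ≤ W * x ^ 2 * (c / 2 * q * (c / 2)) := by
  have hwm : c ^ 2 / 8 * s ≤ c / 2 * q * (c / 2) := by
    have h5 := mul_le_mul_of_nonneg_left hq (by positivity : 0 ≤ c ^ 2 / 4)
    linarith only [h5]
  refine h.trans ?_
  have h6 : 0 ≤ c ^ 2 * (W * x ^ 2 * s) := by positivity
  calc c ^ 2 / 64 * (W * x ^ 2 * s) ≤ W * x ^ 2 * (c ^ 2 / 8 * s) := by linarith only [h6]
    _ ≤ _ := mul_le_mul_of_nonneg_left hwm (by positivity)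

theorem m2 (hc : 0 < c) (hc' : c ≤ 1 / 2) (hs1 : s ≤ 1) (hW : 0 < W)
    (hx : 0 < x) (hD : 1 ≤ D) (h : t ≤ c ^ 2 / 64 * (W * x ^ 2 * s)) :
    t ≤ W * x ^ 2 * (c * D / 2) := by
  have hWx : 0 < W * x ^ 2 := by positivity
  refine h.trans ?_
  have h6 : W * x ^ 2 * s ≤ W * x ^ 2 := mul_le_of_le_one_right hWx.le hs1
  have h7 : c ^ 2 / 64 ≤ c / 2 := by nlinarith only [hc, hc']
  have h5 : c ^ 2 / 64 * (W * x ^ 2 * s) ≤ c / 2 * (W * x ^ 2) :=
    (mul_le_mul_of_nonneg_left h6 (by positivity)).trans (mul_le_mul_of_nonneg_right h7 hWx.le)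
  refine h5.trans ?_
  have h8 : c / 2 * (W * x ^ 2) ≤ c / 2 * (W * x ^ 2) * D :=
    le_mul_of_one_le_right (by positivity) hD
  linarith only [h8]

theorem wx_le (hW0 : 0 < W) (hW1 : W ≤ 1) (hx0 : 0 < x) (hx1 : x ≤ 1) : W * x ^ 2 ≤ x := by
  calc W * x ^ 2 ≤ 1 * x ^ 2 := mul_le_mul_of_nonneg_right hW1 (by positivity)
    _ ≤ x := by nlinarith only [hx0, hx1]

theorem m3 (hc : 0 < c) (hs : 0 < s) (hq : s / 2 ≤ q) (hW : 0 < W) (hW1 : W ≤ 1) (hx : 0 < x)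
    (hx1 : x ≤ 1) (h : t ≤ c ^ 2 / 64 * (W * x ^ 2 * s)) : t ≤ x / 8 * (c / 2 * q * (c / 2)) := by
  have hwm : c ^ 2 / 8 * s ≤ c / 2 * q * (c / 2) := by
    have h5 := mul_le_mul_of_nonneg_left hq (by positivity : 0 ≤ c ^ 2 / 4)
    linarith only [h5]
  refine h.trans ?_
  calc c ^ 2 / 64 * (W * x ^ 2 * s) ≤ c ^ 2 / 64 * (x * s) :=
        mul_le_mul_of_nonneg_left (mul_le_mul_of_nonneg_right (wx_le hW hW1 hx hx1) hs.le)
          (by positivity)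
    _ = x / 8 * (c ^ 2 / 8 * s) := by ring
    _ ≤ _ := mul_le_mul_of_nonneg_left hwm (by positivity)

theorem m4 (hc : 0 < c) (hc' : c ≤ 1 / 2) (hs : 0 < s) (hs1 : s ≤ 1) (hW : 0 < W)
    (hW1 : W ≤ 1) (hx : 0 < x) (hx1 : x ≤ 1) (hD : 1 ≤ D)
    (h : t ≤ c ^ 2 / 64 * (W * x ^ 2 * s)) : t ≤ x / 2 * (c * D) := by
  refine h.trans ?_
  have h6 : W * x ^ 2 * s ≤ x :=
    (mul_le_of_le_one_right (by positivity) hs1).trans (wx_le hW hW1 hx hx1)
  have h7 : c ^ 2 / 64 ≤ c / 2 := by nlinarith only [hc, hc']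
  calc c ^ 2 / 64 * (W * x ^ 2 * s) ≤ c / 2 * x :=
        (mul_le_mul_of_nonneg_left h6 (by positivity)).trans
          (mul_le_mul_of_nonneg_right h7 hx.le)
    _ ≤ c / 2 * x * D := le_mul_of_one_le_right (by positivity) hD
    _ = x / 2 * (c * D) := by ring

theorem m5 (C y : ℝ) : (2 + 400 * (d : ℝ) ^ 2) * (2 * y + 2 * y) *
    (2 / (1 - (1 - 1 / (2 * C)))) ≤ uN d C y := by
  have h5 : 2 / (1 - (1 - 1 / (2 * C))) = 4 * C := by
    have : 2 / (1 - (1 - 1 / (2 * C))) = 2 * (1 / (1 - (1 - 1 / (2 * C)))) := by ring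
    rw [this, sub_sub_cancel, one_div_one_div]
    ring
  rw [h5]
  unfold uN
  refine le_of_eq ?_
  ring

theorem m6 (hC : 1 ≤ C) (hW : 0 < W) (hW1 : W ≤ 1) (hx : 0 < x)
    (h : (2 + 400 * (d : ℝ) ^ 2) * x * (2048 * C ^ 4) ≤ c) (hc' : c ≤ 1 / 2) :
    uN d C (W * x ^ 2) ≤ x / 8 := by
  have hC0 : 0 < C := by linarith only [hC]
  have hCC4 : C ≤ C ^ 4 := by
    calc C = C ^ 1 := (pow_one C).symm
      _ ≤ C ^ 4 := pow_le_pow_right₀ hC (by norm_num)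
  unfold uN
  have h6 : 16 * C * (W * x ^ 2) ≤ 16 * C ^ 4 * x ^ 2 :=
    mul_le_mul (mul_le_mul_of_nonneg_left hCC4 (by norm_num))
      (mul_le_of_le_one_left (by positivity) hW1) (by positivity) (by positivity)
  have h5 : (2 + 400 * (d : ℝ) ^ 2) * (16 * C * (W * x ^ 2)) ≤
      (2 + 400 * (d : ℝ) ^ 2) * x * (16 * C ^ 4) * x := by
    calc (2 + 400 * (d : ℝ) ^ 2) * (16 * C * (W * x ^ 2))
        ≤ (2 + 400 * (d : ℝ) ^ 2) * (16 * C ^ 4 * x ^ 2) :=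
          mul_le_mul_of_nonneg_left h6 (by positivity)
      _ = _ := by ring
  refine h5.trans ?_
  have h7 : (2 + 400 * (d : ℝ) ^ 2) * x * (16 * C ^ 4) ≤ 1 / 8 := by
    have : (2 + 400 * (d : ℝ) ^ 2) * x * (16 * C ^ 4) * 128 ≤ 1 / 2 := by linarith only [h, hc']
    linarith only [h, hc']
  calc (2 + 400 * (d : ℝ) ^ 2) * x * (16 * C ^ 4) * x ≤ 1 / 8 * x :=
        mul_le_mul_of_nonneg_right h7 hx.le
    _ = x / 8 := by ring

theorem m7 (hC : 1 ≤ C) (hw : 0 < w) (hW : 0 < W) (hx : 0 < x) (hWD : W * (1 / w) ≤ D)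
    (h : (2 + 400 * (d : ℝ) ^ 2) * x * (2048 * C ^ 4) ≤ c) :
    uN d C (W * x ^ 2) * (2 * (4 * C ^ 3 / w)) ≤ x / 2 * (c * D) := by
  have hC0 : 0 < C := by linarith
  unfold uN
  have h5 : (2 + 400 * (d : ℝ) ^ 2) * (16 * C * (W * x ^ 2)) * (2 * (4 * C ^ 3 / w)) =
      (2 + 400 * (d : ℝ) ^ 2) * x * (128 * C ^ 4) * x * (W * (1 / w)) := by
    rw [div_eq_mul_one_div (4 * C ^ 3) w]
    ring
  rw [h5]
  have h8 : 0 ≤ (2 + 400 * (d : ℝ) ^ 2) * x * (128 * C ^ 4) := by positivity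
  have h6 : (2 + 400 * (d : ℝ) ^ 2) * x * (128 * C ^ 4) ≤ c / 2 := by
    have h7 : (2 + 400 * (d : ℝ) ^ 2) * x * (128 * C ^ 4) * 16 ≤ c := by linarith only [h]
    linarith only [h, h8]
  calc (2 + 400 * (d : ℝ) ^ 2) * x * (128 * C ^ 4) * x * (W * (1 / w))
      ≤ c / 2 * x * D :=
        mul_le_mul (mul_le_mul_of_nonneg_right h6 hx.le) hWD (by positivity)
          (mul_nonneg (h8.trans h6) hx.le)
    _ = x / 2 * (c * D) := by ring

theorem m8 (hd : 1 ≤ d) (hC : 1 ≤ C) (hx : 0 < x)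
    (h : (2 + 400 * (d : ℝ) ^ 2) * x * (2048 * C ^ 4) ≤ c) (hc' : c ≤ 1 / 2) :
    32 * x ≤ 1 - (1 - 1 / (2 * C)) := by
  have hC0 : 0 < C := by linarith only [hC]
  have hCC4 : C ≤ C ^ 4 := by
    calc C = C ^ 1 := (pow_one C).symm
      _ ≤ C ^ 4 := pow_le_pow_right₀ hC (by norm_num)
  rw [sub_sub_cancel, le_div_iff₀ (by positivity)]
  have h5 : (64 : ℝ) ≤ (2 + 400 * (d : ℝ) ^ 2) * 2048 := by
    have hd1 : (1 : ℝ) ≤ d := by exact_mod_cast hd
    nlinarith only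
  have h6 : x * C ≤ x * C ^ 4 := mul_le_mul_of_nonneg_left hCC4 hx.le
  have h7 : 64 * (x * C) ≤ (2 + 400 * (d : ℝ) ^ 2) * 2048 * (x * C ^ 4) :=
    mul_le_mul h5 h6 (by positivity) (by positivity)
  linarith

/-- `704 d ≤ β ℓ` -/
theorem m9 (hd : 1 ≤ d) {ℓ : ℕ} (hc : 0 < c) (hs : 0 < s) (hq : s / 2 ≤ q)
    (hℓ : s ^ (-(5 : ℝ)) ≤ ℓ) (h : 32 * (d : ℝ) ^ 2 * 704 * s ^ 4 ≤ c) :
    704 * d ≤ c / 2 * q / (8 * d) * ℓ := by
  have hd1 : (1 : ℝ) ≤ d := by exact_mod_cast hd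
  have hd0 : (0 : ℝ) < d := by linarith only [hd1]
  have h5 : s ^ (-(5 : ℝ)) * s ^ 5 = 1 := by
    have h0 : s ^ (5 : ℕ) = s ^ (5 : ℝ) := by
      rw [← Real.rpow_natCast]
      norm_num
    rw [h0, ← Real.rpow_add hs]
    norm_num
  have h6 : 1 ≤ (ℓ : ℝ) * s ^ 5 := by
    rw [← h5]
    exact mul_le_mul_of_nonneg_right hℓ (by positivity)
  have h7 : c / 2 * (s / 2) / (8 * d) * ℓ ≤ c / 2 * q / (8 * d) * ℓ := by
    gcongr
  refine le_trans ?_ h7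
  have h8 : 704 * (d : ℝ) * s ^ 4 ≤ c / 2 * (s / 2) / (8 * d) * ℓ * s ^ 4 := by
    have h9 : c / 2 * (s / 2) / (8 * d) * ℓ * s ^ 4 = c / (32 * d) * ((ℓ : ℝ) * s ^ 5) := by
      field_simp
      ring
    rw [h9]
    have h10 : c / (32 * d) * 1 ≤ c / (32 * d) * ((ℓ : ℝ) * s ^ 5) :=
      mul_le_mul_of_nonneg_left h6 (by positivity)
    refine le_trans ?_ h10
    rw [mul_one, le_div_iff₀ (by positivity)]
    calc 704 * (d : ℝ) * s ^ 4 * (32 * d) = 32 * (d : ℝ) ^ 2 * 704 * s ^ 4 := by ring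
      _ ≤ c := h
  exact le_of_mul_le_mul_right h8 (by positivity)

end alg

/-- the powers of `w` -/
theorem pow_w {w : ℝ} (hw0 : 0 < w) (hw1 : w ≤ 1) :
    0 < w ^ (1 / 50 : ℝ) ∧ w ^ (1 / 50 : ℝ) ≤ 1 ∧ 1 ≤ w ^ (8 * (1 / 10000) - 1 : ℝ) ∧
      w ^ (8 * (1 / 10000) - 1 : ℝ) ≤ 1 / w ∧
      w ^ (1 / 50 : ℝ) * (1 / w) ≤ w ^ (8 * (1 / 10000) - 1 : ℝ) := by
  have hi : 1 / w = w ^ (-1 : ℝ) := by rw [Real.rpow_neg_one, one_div]
  refine ⟨Real.rpow_pos_of_pos hw0 _, Real.rpow_le_one hw0.le hw1 (by norm_num),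
    Real.one_le_rpow_of_pos_of_le_one_of_nonpos hw0 hw1 (by norm_num), ?_, ?_⟩
  · rw [hi]
    exact Real.rpow_le_rpow_of_exponent_ge hw0 hw1 (by norm_num)
  · rw [hi, ← Real.rpow_add hw0]
    exact Real.rpow_le_rpow_of_exponent_ge hw0 hw1 (by norm_num)

/-- the numbers for all small `s` -/
theorem small_num (d : ℕ) (hd : 1 ≤ d) (c C e : ℝ) (hc : 0 < c) (hc' : c ≤ 1 / 2) (hC : 1 ≤ C)
    (he : 0 < e) (he' : e ≤ 1 / 9000) :
    Small fun s => ∀ (w q r0 : ℝ) (ℓ : ℕ), s ≤ w → w ≤ 1 → s / 2 ≤ q →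
      s ^ (-(5 : ℝ)) ≤ ℓ → 8 * r0 ≤ ℓ →
      NumF d (c * w ^ (8 * (1 / 10000) - 1 : ℝ)) (4 * C ^ 3 / w) (1 - 1 / (2 * C)) (s ^ e)
        (2 * (w ^ (1 / 50 : ℝ) * s ^ (2 * e))) (w ^ (1 / 50 : ℝ) * s ^ (2 * e))
        (uN d C (w ^ (1 / 50 : ℝ) * s ^ (2 * e))) (c / 2 * q / (8 * d)) r0
        (1 / (c / 2 * (c / 2 * q))) (c / 2 * q * (c / 2)) ℓ ((2 * ℓ + 1) ^ d) ∧
      704 * d ≤ c / 2 * q / (8 * d) * ℓ := by
  have hC0 : 0 < C := by linarith only [hC, he, he']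
  have t1 := tails d hd (c / 2) (by positivity) (by linarith only [hc', he, he'])
  have t2 := small_pow' 1 (c ^ 2 / 64) 3 (1 / 50 + 2 * e + 1) (by positivity) (by linarith only [he, he'])
  have t3 := small_pow' (2 + 400 * (d : ℝ) ^ 2) (c / (2048 * C ^ 4)) e 0 (by positivity) he
  have t4 := small_pow' (32 * (d : ℝ) ^ 2 * 704) c 4 0 hc (by norm_num)
  refine ((((t1.and t2).and t3).and t4).and (small_le 1 one_pos)).mono ?_
  clear t1 t2 t3 t4
  rintro s hs ⟨⟨⟨⟨t1, t2⟩, t3⟩, t4⟩, hs1⟩ w q r0 ℓ hsw hw1 hq1 hℓ hr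
  obtain ⟨n1, n2⟩ := t1 q r0 ℓ hq1 hℓ hr
  have hw0 : 0 < w := hs.trans_le hsw
  rw [Real.rpow_zero, mul_one] at t3 t4
  rw [one_mul] at t2
  have h3s : s ^ (3 : ℝ) = s ^ 3 := by
    rw [← Real.rpow_natCast]
    norm_num
  have h4s : s ^ (4 : ℝ) = s ^ 4 := by
    rw [← Real.rpow_natCast]
    norm_num
  rw [h3s] at t2
  rw [h4s] at t4
  obtain ⟨hW0, hW1, hD1, hDw, hWD⟩ := pow_w hw0 hw1
  have hWs : s ^ (1 / 50 : ℝ) ≤ w ^ (1 / 50 : ℝ) := Real.rpow_le_rpow hs.le hsw (by norm_num)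
  generalize w ^ (1 / 50 : ℝ) = W at *
  generalize w ^ (8 * (1 / 10000) - 1 : ℝ) = D at *
  have hx2 : s ^ (2 * e) = (s ^ e) ^ 2 := by
    rw [← Real.rpow_natCast, ← Real.rpow_mul hs.le]
    congr 1
    push_cast
    ring
  have hp : s ^ (1 / 50 + 2 * e + 1 : ℝ) = s ^ (1 / 50 : ℝ) * (s ^ e) ^ 2 * s := by
    rw [Real.rpow_add hs, Real.rpow_add hs, Real.rpow_one, hx2]
  have hx0 : 0 < s ^ e := Real.rpow_pos_of_pos hs _
  have hx1 : s ^ e ≤ 1 := Real.rpow_le_one hs.le hs1 he.le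
  rw [hp] at t2
  rw [hx2]
  generalize s ^ e = x at *
  have t2' : s ^ 3 ≤ c ^ 2 / 64 * (W * x ^ 2 * s) := by
    refine t2.trans (mul_le_mul_of_nonneg_left ?_ (by positivity))
    exact mul_le_mul_of_nonneg_right (mul_le_mul_of_nonneg_right hWs (by positivity)) hs.le
  have t3' : (2 + 400 * (d : ℝ) ^ 2) * x * (2048 * C ^ 4) ≤ c := by
    have h5 := mul_le_mul_of_nonneg_right t3 (by positivity : (0 : ℝ) ≤ 2048 * C ^ 4)
    have h6 : c / (2048 * C ^ 4) * (2048 * C ^ 4) = c := div_mul_cancel₀ _ (by positivity)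
    rw [h6] at h5
    exact h5
  refine ⟨?_, m9 hd hc hs hq1 hℓ t4⟩
  refine
    { hu0 := ?_, hD0 := mul_pos hc (by linarith only [he, he', hD1]), hD1 := ?_, he1 := by positivity,
      hm := by positivity, n1 := m1 hc hs hq1 hW0 hx0 (n1.trans t2'),
      n2 := m2 hc hc' hs1 hW0 hx0 hD1 (n2.trans t2'),
      n3 := m3 hc hs hq1 hW0 hW1 hx0 hx1 (n1.trans t2'),
      n4 := m4 hc hc' hs hs1 hW0 hW1 hx0 hx1 hD1 (n2.trans t2'), n5 := m5 C _,
      n6 := m6 hC hW0 hW1 hx0 t3' hc', n7 := m7 hC hw0 hW0 hx0 hWD t3',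
      n8 := m8 hd hC hx0 t3' hc' }
  · have h5 : 1 / (2 * C) ≤ 1 := by
      rw [div_le_one (by positivity)]
      linarith only [hC, he, he']
    have h6 : 0 < 1 / (2 * C) := by positivity
    constructor <;> linarith
  · calc c * D ≤ 1 * (1 / w) := mul_le_mul (by linarith only [hc', he, he']) hDw (by linarith only [he, he', hD1]) (by norm_num)
      _ ≤ 4 * C ^ 3 * (1 / w) := by
        refine mul_le_mul_of_nonneg_right ?_ (by positivity)
        have : (1 : ℝ) ≤ C ^ 3 := one_le_pow₀ hC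
        linarith only [he, he', this]
      _ = 4 * C ^ 3 / w := by ring

end Pool.Agent.AHH.H22
end
end -- Pool.Agent.Helper22_AHH.FrmM
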