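import Pool.Agent.Helper12_MEB.B158
import Pool.Agent.Helper12_MEB.B162

/-!
# Merged copies (generated) of the modules

* `Pool.Agent.Helper81_AND2B.MSW`
* `Pool.Agent.Helper81_AND2B.FLX`
* `Pool.Agent.Helper67_AHH.Flx`
* `Pool.Agent.Helper67_AHH.Ok`
-/

set_option autoImplicit false

section -- Pool.Agent.Helper81_AND2B.MSW

/-!
# AND2B (helper81): MSW (measurability of `WL`), WLP (the probability of `WL` tends to one)
-/

set_option autoImplicit false

open MeasureTheory ProbabilityTheory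

open scoped BigOperators NNReal ENNReal Matrix

noncomputable section

namespace Pool.Agent.AND2B.H81

open Pool.Agent.AND2B
open Pool.Agent.Anderson hiding box mem_box card_box
open Pool.Agent.Loc Pool.Agent.Mob Pool.Agent.Helper54.Bal
  Pool.Agent.Helper96.EXP Pool.Agent.BED
open Pool.Agent.LE.MN Pool.Agent.LE.CL Pool.Agent.LE.IR Pool.Agent.LE.QD

variable {d M : ℕ} [NeZero M]

theorem Hr_apply (V : Tor d M → ℝ) (E : ℝ) (x y : Tor d M) :
    Hr V E x y = adj d M x y + if x = y then V x - E else 0 := by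
  unfold Hr
  rw [Matrix.add_apply, Matrix.diagonal_apply]

/-- the set of the potentials with `WLD` is closed -/
theorem wld_closed (E L : ℝ) (D : Finset (Tor d M)) :
    IsClosed {U : Tor d M → ℝ | WLD E L U D} := by
  have h : {U : Tor d M → ℝ | WLD E L U D} =
      ⋂ u : Tor d M → ℂ, ⋂ (_ : ∀ x, x ∉ D → u x = 0), {U : Tor d M → ℝ |
        ∑ x ∈ D, ‖u x‖ ^ 2 ≤ L ^ 2 * ∑ x ∈ D, ‖∑ y, (Hr U E x y : ℂ) * u y‖ ^ 2} := by
    ext U
    simp only [Set.mem_iInter, Set.mem_ofPred_eq, WLD]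
  rw [h]
  refine isClosed_iInter fun u => isClosed_iInter fun _ => ?_
  refine isClosed_le continuous_const ?_
  refine continuous_const.mul (continuous_finsetSum _ fun x _ => ?_)
  refine (continuous_norm.comp ?_).pow 2
  refine continuous_finsetSum _ fun y _ => ?_
  refine Continuous.mul ?_ continuous_const
  refine Complex.continuous_ofReal.comp ?_
  have : (fun U : Tor d M → ℝ => Hr U E x y) =
      fun U => adj d M x y + if x = y then U x - E else 0 := by
    funext U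
    exact Hr_apply U E x y
  rw [this]
  split_ifs
  · exact continuous_const.add ((continuous_apply x).sub continuous_const)
  · exact continuous_const

/-- MSW -/
theorem msw : MswStmt := by
  intro d M _ E L
  have h : {U : Tor d M → ℝ | WL E L U} = ⋂ D : Finset (Tor d M), {U | WLD E L U D} := by
    ext U
    simp only [Set.mem_iInter, Set.mem_ofPred_eq, WL]
  rw [h]
  exact (isClosed_iInter fun D => wld_closed E L D).measurableSet

/-! ### null sets -/

/-- a set whose fibres in one direction are null sets is a null set -/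
theorem pi_null {ι : Type} [Fintype ι] [DecidableEq ι] (μ : ι → Measure ℝ)
    [∀ i, SigmaFinite (μ i)] (S : Set (ι → ℝ)) (hS : MeasurableSet S) (i : ι)
    (h : ∀ x : ι → ℝ, μ i {t | Function.update x i t ∈ S} = 0) : Measure.pi μ S = 0 := by
  have hf : Measurable (S.indicator (fun _ => (1 : ℝ≥0∞))) :=
    measurable_const.indicator hS
  have h1 : ∫⁻ x, S.indicator (fun _ => (1 : ℝ≥0∞)) x ∂(Measure.pi μ) = Measure.pi μ S := by
    rw [lintegral_indicator hS]
    simp
  rw [← h1, lintegral_eq_lmarginal_univ (fun _ => 0), lmarginal_erase' _ hf (Finset.mem_univ i)]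
  have h2 : (fun x : ι → ℝ => ∫⁻ t, S.indicator (fun _ => (1 : ℝ≥0∞)) (Function.update x i t)
      ∂(μ i)) = fun _ => 0 := by
    funext x
    have hm : MeasurableSet {t | Function.update x i t ∈ S} :=
      (measurable_update x) hS
    have h3 : (fun t => S.indicator (fun _ => (1 : ℝ≥0∞)) (Function.update x i t)) =
        {t | Function.update x i t ∈ S}.indicator (fun _ => (1 : ℝ≥0∞)) := by
      funext t
      by_cases ht : Function.update x i t ∈ S
      · rw [Set.indicator_of_mem ht, Set.indicator_of_mem (show t ∈ {t | Function.update x i t ∈ S}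
          from ht)]
      · rw [Set.indicator_of_notMem ht, Set.indicator_of_notMem
          (show t ∉ {t | Function.update x i t ∈ S} from ht)]
    rw [h3, lintegral_indicator hm]
    simp [h x]
  rw [h2]
  simp [lmarginal]

/-- the compression of `H - E` to `D` is injective -/
def Inj (E : ℝ) (U : Tor d M → ℝ) (D : Finset (Tor d M)) : Prop :=
  ∀ u : Tor d M → ℂ, (∀ x, x ∉ D → u x = 0) →
    (∀ x ∈ D, ∑ y, (Hr U E x y : ℂ) * u y = 0) → u = 0

theorem wld_mono {E L L' : ℝ} {U : Tor d M → ℝ} {D : Finset (Tor d M)} (hL : 0 ≤ L)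
    (hLL : L ≤ L') (h : WLD E L U D) : WLD E L' U D := by
  intro u hu
  refine (h u hu).trans ?_
  exact mul_le_mul_of_nonneg_right (pow_le_pow_left₀ hL hLL 2)
    (Finset.sum_nonneg fun x _ => sq_nonneg _)

theorem inj_of_wld {E L : ℝ} {U : Tor d M → ℝ} {D : Finset (Tor d M)} (h : WLD E L U D) :
    Inj E U D := by
  intro u hu hz
  have h1 := h u hu
  have h2 : ∑ x ∈ D, ‖∑ y, (Hr U E x y : ℂ) * u y‖ ^ 2 = 0 := by
    refine Finset.sum_eq_zero fun x hx => ?_
    rw [hz x hx, norm_zero]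
    ring
  rw [h2, mul_zero] at h1
  funext x
  by_cases hx : x ∈ D
  · have h3 : ‖u x‖ ^ 2 ≤ 0 :=
      (Finset.single_le_sum (f := fun x => ‖u x‖ ^ 2) (fun x _ => sq_nonneg _) hx).trans h1
    have h4 : ‖u x‖ = 0 := by
      have := le_antisymm h3 (sq_nonneg _)
      exact pow_eq_zero_iff (two_ne_zero) |>.1 this
    exact norm_eq_zero.1 h4
  · exact hu x hx

theorem wld_of_inj {E : ℝ} {U : Tor d M → ℝ} {D : Finset (Tor d M)} (h : Inj E U D) :
    ∃ n : ℕ, WLD E ((n : ℝ) + 1) U D := by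
  classical
  -- extension by zero
  let ext : (D → ℂ) → Tor d M → ℂ := fun u x => if hx : x ∈ D then u ⟨x, hx⟩ else 0
  have hext : ∀ (u : D → ℂ) x, x ∉ D → ext u x = 0 := fun u x hx => dif_neg hx
  let f : (D → ℂ) →ₗ[ℂ] (D → ℂ) :=
    { toFun := fun u x => ∑ y, (Hr U E x y : ℂ) * ext u y
      map_add' := by
        intro u v
        funext x
        show ∑ y, (Hr U E x y : ℂ) * ext (u + v) y = ∑ y, (Hr U E x y : ℂ) * ext u y +
          ∑ y, (Hr U E x y : ℂ) * ext v y
        rw [← Finset.sum_add_distrib]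
        refine Finset.sum_congr rfl fun y _ => ?_
        have : ext (u + v) y = ext u y + ext v y := by
          show (if hx : y ∈ D then (u + v) ⟨y, hx⟩ else 0) = (if hx : y ∈ D then u ⟨y, hx⟩ else 0) +
            (if hx : y ∈ D then v ⟨y, hx⟩ else 0)
          split_ifs
          · rfl
          · rw [add_zero]
        rw [this, mul_add]
      map_smul' := by
        intro c u
        funext x
        show ∑ y, (Hr U E x y : ℂ) * ext (c • u) y = c • ∑ y, (Hr U E x y : ℂ) * ext u y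
        rw [Finset.smul_sum]
        refine Finset.sum_congr rfl fun y _ => ?_
        have : ext (c • u) y = c * ext u y := by
          show (if hx : y ∈ D then (c • u) ⟨y, hx⟩ else 0) =
            c * (if hx : y ∈ D then u ⟨y, hx⟩ else 0)
          split_ifs
          · rfl
          · rw [mul_zero]
        rw [this, smul_eq_mul]
        ring }
  have hker : LinearMap.ker f = ⊥ := by
    rw [LinearMap.ker_eq_bot']
    intro u hu
    have h1 : ext u = 0 := by
      refine h _ (hext u) fun x hx => ?_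
      exact congrFun hu ⟨x, hx⟩
    funext x
    have h2 := congrFun h1 (x : Tor d M)
    have h3 : ext u x = u x := by
      show (if hx : (x : Tor d M) ∈ D then u ⟨x, hx⟩ else 0) = u x
      rw [dif_pos x.2]
    rw [h3] at h2
    exact h2
  obtain ⟨K, hK, hanti⟩ := f.exists_antilipschitzWith hker
  have hbd : ∀ u : D → ℂ, ‖u‖ ≤ K * ‖f u‖ := by
    intro u
    have := hanti.le_mul_dist u 0
    rwa [dist_zero_right, map_zero, dist_zero_right] at this
  obtain ⟨n, hn⟩ := exists_nat_ge (Real.sqrt (D.card * (K : ℝ) ^ 2))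
  refine ⟨n, ?_⟩
  intro v hv
  let u : D → ℂ := fun x => v x
  have hev : ext u = v := by
    funext x
    show (if hx : x ∈ D then v x else 0) = v x
    split_ifs with hx
    · rfl
    · exact (hv x hx).symm
  have hf : ∀ x : D, f u x = ∑ y, (Hr U E x y : ℂ) * v y := by
    intro x
    show ∑ y, (Hr U E x y : ℂ) * ext u y = _
    rw [hev]
  -- the sup norm of `f u`
  have h1 : ‖f u‖ ^ 2 ≤ ∑ x ∈ D, ‖∑ y, (Hr U E x y : ℂ) * v y‖ ^ 2 := by
    have hs : 0 ≤ ∑ x ∈ D, ‖∑ y, (Hr U E x y : ℂ) * v y‖ ^ 2 :=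
      Finset.sum_nonneg fun x _ => sq_nonneg _
    have h2 : ‖f u‖ ≤ Real.sqrt (∑ x ∈ D, ‖∑ y, (Hr U E x y : ℂ) * v y‖ ^ 2) := by
      rw [pi_norm_le_iff_of_nonneg (Real.sqrt_nonneg _)]
      intro x
      rw [hf]
      refine Real.le_sqrt_of_sq_le ?_
      exact Finset.single_le_sum (f := fun x => ‖∑ y, (Hr U E x y : ℂ) * v y‖ ^ 2)
        (fun x _ => sq_nonneg _) x.2
    calc ‖f u‖ ^ 2 ≤ (Real.sqrt (∑ x ∈ D, ‖∑ y, (Hr U E x y : ℂ) * v y‖ ^ 2)) ^ 2 :=
          pow_le_pow_left₀ (norm_nonneg _) h2 2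
      _ = _ := Real.sq_sqrt hs
  have h3 : ∀ x ∈ D, ‖v x‖ ^ 2 ≤ (K : ℝ) ^ 2 * ‖f u‖ ^ 2 := by
    intro x hx
    have h4 : ‖v x‖ ≤ ‖u‖ := norm_le_pi_norm u ⟨x, hx⟩
    have h5 : ‖v x‖ ≤ K * ‖f u‖ := h4.trans (hbd u)
    calc ‖v x‖ ^ 2 ≤ (K * ‖f u‖) ^ 2 := pow_le_pow_left₀ (norm_nonneg _) h5 2
      _ = _ := mul_pow _ _ _
  have h4 : ∑ x ∈ D, ‖v x‖ ^ 2 ≤ D.card * ((K : ℝ) ^ 2 * ‖f u‖ ^ 2) := by
    refine (Finset.sum_le_sum h3).trans ?_
    rw [Finset.sum_const, nsmul_eq_mul]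
  have h5 : (D.card : ℝ) * (K : ℝ) ^ 2 ≤ ((n : ℝ) + 1) ^ 2 := by
    have h6 : (0 : ℝ) ≤ D.card * (K : ℝ) ^ 2 := by positivity
    calc (D.card : ℝ) * (K : ℝ) ^ 2 = (Real.sqrt (D.card * (K : ℝ) ^ 2)) ^ 2 :=
          (Real.sq_sqrt h6).symm
      _ ≤ ((n : ℝ) + 1) ^ 2 :=
          pow_le_pow_left₀ (Real.sqrt_nonneg _) (hn.trans (by linarith)) 2
  calc ∑ x ∈ D, ‖v x‖ ^ 2 ≤ D.card * ((K : ℝ) ^ 2 * ‖f u‖ ^ 2) := h4
    _ = (D.card * (K : ℝ) ^ 2) * ‖f u‖ ^ 2 := by ring
    _ ≤ ((n : ℝ) + 1) ^ 2 * ∑ x ∈ D, ‖∑ y, (Hr U E x y : ℂ) * v y‖ ^ 2 :=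
        mul_le_mul h5 h1 (sq_nonneg _) (sq_nonneg _)

theorem inj_meas (E : ℝ) (D : Finset (Tor d M)) :
    MeasurableSet {U : Tor d M → ℝ | Inj E U D} := by
  have h : {U : Tor d M → ℝ | Inj E U D} = ⋃ n : ℕ, {U | WLD E ((n : ℝ) + 1) U D} := by
    ext U
    simp only [Set.mem_iUnion, Set.mem_ofPred_eq]
    exact ⟨wld_of_inj, fun ⟨n, hn⟩ => inj_of_wld hn⟩
  rw [h]
  exact MeasurableSet.iUnion fun n => (wld_closed E _ D).measurableSet

theorem adj_sym (x y : Tor d M) : adj d M x y = adj d M y x := by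
  unfold adj
  rw [Matrix.of_apply, Matrix.of_apply]
  refine Finset.sum_congr rfl fun i _ => ?_
  have h1 : (y = x + ev i) ↔ (x = y - ev i) := by
    constructor
    · rintro rfl; abel
    · rintro rfl; abel
  have h2 : (y = x - ev i) ↔ (x = y + ev i) := by
    constructor
    · rintro rfl; abel
    · rintro rfl; abel
  simp only [h1, h2]
  ring

theorem Hr_sym (V : Tor d M → ℝ) (E : ℝ) (x y : Tor d M) : Hr V E x y = Hr V E y x := by
  rw [Hr_apply, Hr_apply, adj_sym]
  by_cases h : x = y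
  · subst h; rfl
  · rw [if_neg h, if_neg (Ne.symm h)]

/-- for almost all potentials the compression is injective -/
theorem inj_ae (E : ℝ) (v : ℝ≥0) (hv : v ≠ 0) (D : Finset (Tor d M)) :
    gau d M v {U | ¬ Inj E U D} = 0 := by
  classical
  induction D using Finset.induction_on with
  | empty =>
    have : {U : Tor d M → ℝ | ¬ Inj E U ∅} = ∅ := by
      ext U
      simp only [Set.mem_ofPred_eq, Set.mem_empty_iff_false, iff_false, not_not]
      intro u hu _
      funext x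
      exact hu x (Finset.notMem_empty x)
    rw [this, measure_empty]
  | insert p D hp ih =>
    let S : Set (Tor d M → ℝ) := {U | ¬ Inj E U (insert p D)} ∩ {U | Inj E U D}
    have hsub : {U : Tor d M → ℝ | ¬ Inj E U (insert p D)} ⊆ {U | ¬ Inj E U D} ∪ S := by
      intro U hU
      by_cases h : Inj E U D
      · exact Or.inr ⟨hU, h⟩
      · exact Or.inl h
    have hSm : MeasurableSet S := (inj_meas E (insert p D)).compl.inter (inj_meas E D)
    have hS0 : gau d M v S = 0 := by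
      have := nullSingletonClass_gaussianReal (μ := 0) hv
      unfold gau
      refine pi_null _ S hSm p fun U => ?_
      refine Set.Subsingleton.measure_zero ?_ _
      intro t ht t' ht'
      -- two values give two kernel vectors
      obtain ⟨hn, hi⟩ := ht
      obtain ⟨hn', -⟩ := ht'
      simp only [Set.mem_ofPred_eq, Inj, not_forall] at hn hn'
      obtain ⟨u, hu, hz, hu0⟩ := hn
      obtain ⟨u', hu', hz', hu0'⟩ := hn'
      by_contra htt
      set U1 := Function.update U p t with hU1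
      set U2 := Function.update U p t' with hU2
      have hHr : ∀ x y, x ≠ p → Hr U1 E x y = Hr U2 E x y := by
        intro x y hx
        rw [Hr_apply, Hr_apply, hU1, hU2, Function.update_of_ne hx, Function.update_of_ne hx]
      have hHp : ∀ y, Hr U1 E p y - Hr U2 E p y = if p = y then t - t' else 0 := by
        intro y
        rw [Hr_apply, Hr_apply, hU1, hU2, Function.update_self, Function.update_self]
        split_ifs <;> ring
      -- `u p ≠ 0`
      have hnz : ∀ w : Tor d M → ℂ, (∀ x, x ∉ insert p D → w x = 0) →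
          (∀ x ∈ D, ∑ y, (Hr U1 E x y : ℂ) * w y = 0) → w ≠ 0 → w p ≠ 0 := by
        intro w hw hwz hw0 hwp
        apply hw0
        refine hi w (fun x hx => ?_) hwz
        by_cases hxp : x = p
        · rw [hxp, hwp]
        · exact hw x (by rw [Finset.mem_insert]; tauto)
      have hup : u p ≠ 0 := hnz u hu (fun x hx => hz x (Finset.mem_insert_of_mem hx)) hu0
      have hup' : u' p ≠ 0 := by
        refine hnz u' hu' (fun x hx => ?_) hu0'
        have hxp : x ≠ p := by rintro rfl; exact hp hx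
        have := hz' x (Finset.mem_insert_of_mem hx)
        rw [← this]
        exact Finset.sum_congr rfl fun y _ => by rw [hHr x y hxp]
      -- the two bilinear forms
      have e1 : ∑ x, u' x * ∑ y, (Hr U1 E x y : ℂ) * u y = 0 := by
        refine Finset.sum_eq_zero fun x _ => ?_
        by_cases hx : x ∈ insert p D
        · rw [hz x hx, mul_zero]
        · rw [hu' x hx, zero_mul]
      have e2 : ∑ x, u x * ∑ y, (Hr U2 E x y : ℂ) * u' y = 0 := by
        refine Finset.sum_eq_zero fun x _ => ?_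
        by_cases hx : x ∈ insert p D
        · rw [hz' x hx, mul_zero]
        · rw [hu x hx, zero_mul]
      have e3 : ∑ x, u x * ∑ y, (Hr U2 E x y : ℂ) * u' y =
          ∑ x, u' x * ∑ y, (Hr U2 E x y : ℂ) * u y := by
        simp only [Finset.mul_sum]
        rw [Finset.sum_comm]
        refine Finset.sum_congr rfl fun x _ => Finset.sum_congr rfl fun y _ => ?_
        rw [Hr_sym U2 E y x]
        ring
      have e4 : ∑ x, u' x * ∑ y, (Hr U1 E x y : ℂ) * u y -
          ∑ x, u' x * ∑ y, (Hr U2 E x y : ℂ) * u y = ((t - t' : ℝ) : ℂ) * (u p * u' p) := by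
        rw [← Finset.sum_sub_distrib, Finset.sum_eq_single p]
        · rw [← mul_sub, ← Finset.sum_sub_distrib, Finset.sum_eq_single p]
          · rw [← sub_mul, ← Complex.ofReal_sub, hHp, if_pos rfl]
            ring
          · intro y _ hy
            rw [← sub_mul, ← Complex.ofReal_sub, hHp, if_neg (Ne.symm hy)]
            simp
          · intro h
            exact absurd (Finset.mem_univ p) h
        · intro x _ hx
          rw [← mul_sub, ← Finset.sum_sub_distrib]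
          rw [Finset.sum_eq_zero fun y _ => ?_, mul_zero]
          rw [hHr x y hx, sub_self]
        · intro h
          exact absurd (Finset.mem_univ p) h
      rw [e1, ← e3, e2, sub_zero] at e4
      have h5 : ((t - t' : ℝ) : ℂ) ≠ 0 := by
        rw [Ne, Complex.ofReal_eq_zero, sub_eq_zero]
        exact htt
      exact (mul_ne_zero h5 (mul_ne_zero hup hup')) e4.symm
    exact measure_mono_null hsub (measure_union_null ih hS0)

/-- WLP -/
theorem wlp : WlpStmt := by
  classical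
  intro d M _ E δ v hv hδ
  have hprob : IsProbabilityMeasure (gau d M v) := by unfold gau; infer_instance
  let S : ℕ → Set (Tor d M → ℝ) := fun n => {U | ¬ WL E ((n : ℝ) + 1) U}
  have hSm : ∀ n, MeasurableSet (S n) := fun n => (msw d M E ((n : ℝ) + 1)).compl
  have hanti : Antitone S := by
    intro m n hmn U hU hW
    refine hU fun D => wld_mono (by positivity) ?_ (hW D)
    have : (m : ℝ) ≤ n := by exact_mod_cast hmn
    linarith
  have hnull : gau d M v (⋂ n, S n) = 0 := by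
    have hsub : (⋂ n, S n) ⊆ ⋃ D : Finset (Tor d M), {U | ¬ Inj E U D} := by
      intro U hU
      rw [Set.mem_iInter] at hU
      by_contra hcon
      simp only [Set.mem_iUnion, Set.mem_ofPred_eq, not_exists, not_not] at hcon
      choose n hn using fun D => wld_of_inj (hcon D)
      refine hU (∑ D : Finset (Tor d M), n D) fun D => ?_
      refine wld_mono (by positivity) ?_ (hn D)
      have h1 : n D ≤ ∑ D : Finset (Tor d M), n D :=
        Finset.single_le_sum (fun _ _ => Nat.zero_le _) (Finset.mem_univ D)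
      have h2 : (n D : ℝ) ≤ ((∑ D : Finset (Tor d M), n D : ℕ) : ℝ) := by exact_mod_cast h1
      linarith
    refine measure_mono_null hsub ?_
    rw [measure_iUnion_null_iff]
    exact fun D => inj_ae E v hv D
  have hlim := tendsto_measure_iInter_atTop (μ := gau d M v) (s := S)
    (fun n => (hSm n).nullMeasurableSet) hanti ⟨0, measure_ne_top _ _⟩
  rw [hnull] at hlim
  have hpos : (0 : ℝ≥0∞) < ENNReal.ofReal δ := ENNReal.ofReal_pos.2 hδ
  obtain ⟨n, hn⟩ := (hlim.eventually_lt_const hpos).exists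
  exact ⟨(n : ℝ) + 1, by linarith [Nat.cast_nonneg (α := ℝ) n], hn.le⟩

end Pool.Agent.AND2B.H81
end
end -- Pool.Agent.Helper81_AND2B.MSW

section -- Pool.Agent.Helper81_AND2B.FLX

/-!
# AND2B (helper81): FLX (the dead sites have no effect)
-/

set_option autoImplicit false

open MeasureTheory ProbabilityTheory

open scoped BigOperators NNReal ENNReal Matrix

noncomputable section

namespace Pool.Agent.AND2B.H81

open Pool.Agent.AND2B
open Pool.Agent.Anderson hiding box mem_box card_box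
open Pool.Agent.Loc Pool.Agent.Mob Pool.Agent.Helper54.Bal
  Pool.Agent.Helper96.EXP Pool.Agent.BED
open Pool.Agent.LE.MN Pool.Agent.LE.CL Pool.Agent.LE.IR Pool.Agent.LE.QD

section l2

variable {X : Type} [Fintype X]

/-- the `ℓ²` norm -/
def nn (u : X → ℂ) : ℝ := ‖(WithLp.toLp 2 u : EuclideanSpace ℂ X)‖

theorem nn_sq (u : X → ℂ) : nn u ^ 2 = ∑ x, ‖u x‖ ^ 2 := by
  unfold nn
  rw [EuclideanSpace.norm_eq, Real.sq_sqrt (Finset.sum_nonneg fun x _ => sq_nonneg _)]

theorem nn_nonneg (u : X → ℂ) : 0 ≤ nn u := norm_nonneg _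

theorem nn_add (u v : X → ℂ) : nn (fun x => u x + v x) ≤ nn u + nn v := by
  unfold nn
  exact norm_add_le (WithLp.toLp 2 u : EuclideanSpace ℂ X) (WithLp.toLp 2 v)

theorem nn_smul (c : ℂ) (u : X → ℂ) : nn (fun x => c * u x) = ‖c‖ * nn u := by
  unfold nn
  exact norm_smul c (WithLp.toLp 2 u : EuclideanSpace ℂ X)

theorem nn_mono (u v : X → ℂ) (h : ∀ x, ‖u x‖ ≤ ‖v x‖) : nn u ≤ nn v := by
  have h1 : nn u ^ 2 ≤ nn v ^ 2 := by
    rw [nn_sq, nn_sq]
    exact Finset.sum_le_sum fun x _ => pow_le_pow_left₀ (norm_nonneg _) (h x) 2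
  exact abs_le_of_sq_le_sq' h1 (nn_nonneg v) |>.2

/-- Cauchy-Schwarz -/
theorem nn_cs (u v : X → ℂ) : ‖∑ x, (starRingEnd ℂ) (u x) * v x‖ ≤ nn u * nn v := by
  have h : ∑ x, (starRingEnd ℂ) (u x) * v x =
      inner ℂ (WithLp.toLp 2 u : EuclideanSpace ℂ X) (WithLp.toLp 2 v) := by
    rw [PiLp.inner_apply]
    refine Finset.sum_congr rfl fun x _ => ?_
    simp [mul_comm]
  rw [h]
  exact norm_inner_le_norm _ _

end l2

variable {d M : ℕ} [NeZero M]

theorem adj_mul (u : Tor d M → ℂ) (x : Tor d M) :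
    ∑ y, (adj d M x y : ℂ) * u y = ∑ i : Fin d, (u (x + ev i) + u (x - ev i)) := by
  unfold adj
  simp only [Matrix.of_apply, Complex.ofReal_sum, Complex.ofReal_add, Finset.sum_mul, add_mul]
  rw [Finset.sum_comm]
  refine Finset.sum_congr rfl fun i _ => ?_
  rw [Finset.sum_add_distrib]
  congr 1
  · rw [Finset.sum_eq_single (x + ev i)]
    · simp
    · intro y _ hy
      rw [if_neg hy]; simp
    · intro h; exact absurd (Finset.mem_univ _) h
  · rw [Finset.sum_eq_single (x - ev i)]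
    · simp
    · intro y _ hy
      rw [if_neg hy]; simp
    · intro h; exact absurd (Finset.mem_univ _) h

theorem nn_shift (u : Tor d M → ℂ) (a : Tor d M) : nn (fun x => u (x + a)) = nn u := by
  have h : nn (fun x => u (x + a)) ^ 2 = nn u ^ 2 := by
    rw [nn_sq, nn_sq]
    exact Equiv.sum_comp (Equiv.addRight a) (fun x => ‖u x‖ ^ 2)
  exact (pow_left_inj₀ (nn_nonneg _) (nn_nonneg _) two_ne_zero).1 h

theorem nn_sum {X ι : Type} [Fintype X] (s : Finset ι) (u : ι → X → ℂ) :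
    nn (fun x => ∑ i ∈ s, u i x) ≤ ∑ i ∈ s, nn (u i) := by
  classical
  induction s using Finset.induction_on with
  | empty =>
    have : nn (fun x : X => ∑ i ∈ (∅ : Finset ι), u i x) ^ 2 = 0 := by
      rw [nn_sq]; simp
    rw [Finset.sum_empty]
    exact (pow_eq_zero_iff two_ne_zero).1 this |>.le
  | insert i s hi ih =>
    rw [Finset.sum_insert hi]
    have : (fun x => ∑ j ∈ insert i s, u j x) = fun x => u i x + ∑ j ∈ s, u j x := by
      funext x
      rw [Finset.sum_insert hi]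
    rw [this]
    exact (nn_add _ _).trans (by linarith)

theorem nn_adj (u : Tor d M → ℂ) :
    nn (fun x => ∑ y, (adj d M x y : ℂ) * u y) ≤ 2 * d * nn u := by
  have h : (fun x => ∑ y, (adj d M x y : ℂ) * u y) =
      fun x => ∑ i : Fin d, (u (x + ev i) + u (x - ev i)) := by
    funext x
    exact adj_mul u x
  rw [h]
  refine (nn_sum Finset.univ fun (i : Fin d) x => u (x + ev i) + u (x - ev i)).trans ?_
  have h1 : ∀ i ∈ (Finset.univ : Finset (Fin d)),
      nn (fun x : Tor d M => u (x + ev i) + u (x - ev i)) ≤ 2 * nn u := by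
    intro i _
    refine (nn_add (fun x => u (x + ev i)) (fun x => u (x - ev i))).trans ?_
    have h2 := nn_shift u (ev i)
    have h3 := nn_shift u (-ev i)
    simp only [← sub_eq_add_neg] at h3
    rw [h2, h3]
    linarith
  refine (Finset.sum_le_sum h1).trans ?_
  rw [Finset.sum_const, Finset.card_univ, Fintype.card_fin, nsmul_eq_mul]
  linarith

/-- FLX -/
theorem flx : FlxStmt := by
  classical
  intro d
  refine ⟨4 + (1 + 4 * d) ^ 2, by nlinarith [sq_nonneg (1 + 4 * (d : ℝ))], ?_⟩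
  intro M _ V k E L e₀ kv D hL he hLe hkv hkv1 hkD hkA hW
  set C : ℝ := 4 + (1 + 4 * (d : ℝ)) ^ 2 with hC
  have hd0 : (0 : ℝ) ≤ d := Nat.cast_nonneg d
  have hk : ∀ x, 0 < k x := by
    intro x
    by_cases hx : x ∈ D
    · rw [hkD x hx]; exact he
    · exact lt_of_lt_of_le hkv (hkA x hx)
  have hnet : ANR.Net (Hr V E) k := ⟨Hr_sym V E, hk⟩
  have hunit := Pool.Agent.HSL14.mat_unit hnet
  unfold Pool.Agent.HSL14.mat at hunit
  -- the bound
  have main : ∀ f : Tor d M → ℂ, nn (fun x => ∑ y, res V E k x y * f y) ≤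
      C * L ^ 2 / kv * nn f := by
    intro f
    set w : Tor d M → ℂ := fun x => ∑ y, res V E k x y * f y with hw
    -- the equation
    have heq : ∀ x, ∑ y, (Hr V E x y : ℂ) * w y = f x + Complex.I * (k x : ℂ) * w x := by
      have h1 : ((Hr V E).map (fun t : ℝ => (t : ℂ)) -
          Matrix.diagonal fun x => Complex.I * (k x : ℂ)) *ᵥ w = f := by
        have h2 : w = res V E k *ᵥ f := rfl
        rw [h2, Matrix.mulVec_mulVec]
        unfold res ANR.Gr
        rw [Matrix.mul_nonsing_inv _ hunit, Matrix.one_mulVec]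
      intro x
      have h3 := congrFun h1 x
      rw [Matrix.sub_mulVec, Pi.sub_apply, Matrix.mulVec_diagonal] at h3
      have h4 : ((Hr V E).map (fun t : ℝ => (t : ℂ)) *ᵥ w) x =
          ∑ y, (Hr V E x y : ℂ) * w y := rfl
      rw [h4] at h3
      rw [← h3]
      ring
    -- the flux
    have hflux : ∑ x, k x * ‖w x‖ ^ 2 ≤ nn w * nn f := by
      have hre : (∑ x, (starRingEnd ℂ) (w x) * ∑ y, (Hr V E x y : ℂ) * w y).im = 0 := by
        have hc : (starRingEnd ℂ) (∑ x, (starRingEnd ℂ) (w x) * ∑ y, (Hr V E x y : ℂ) * w y) =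
            ∑ x, (starRingEnd ℂ) (w x) * ∑ y, (Hr V E x y : ℂ) * w y := by
          rw [map_sum]
          simp only [map_mul, map_sum, Complex.conj_conj, Complex.conj_ofReal, Finset.mul_sum]
          rw [Finset.sum_comm]
          refine Finset.sum_congr rfl fun x _ => Finset.sum_congr rfl fun y _ => ?_
          rw [Hr_sym V E y x]
          ring
        exact Complex.conj_eq_iff_im.1 hc
      have h1 : ∑ x, (starRingEnd ℂ) (w x) * ∑ y, (Hr V E x y : ℂ) * w y =
          ∑ x, (starRingEnd ℂ) (w x) * f x + Complex.I * ((∑ x, k x * ‖w x‖ ^ 2 : ℝ) : ℂ) := by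
        push_cast
        rw [Finset.mul_sum, ← Finset.sum_add_distrib]
        refine Finset.sum_congr rfl fun x _ => ?_
        rw [heq x]
        have h2 : (starRingEnd ℂ) (w x) * w x = ((‖w x‖ ^ 2 : ℝ) : ℂ) := by
          rw [mul_comm, Complex.mul_conj, Complex.normSq_eq_norm_sq]
        push_cast at h2
        calc (starRingEnd ℂ) (w x) * (f x + Complex.I * (k x : ℂ) * w x) =
            (starRingEnd ℂ) (w x) * f x + Complex.I * ((k x : ℂ) * ((starRingEnd ℂ) (w x) * w x)) := by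
              ring
          _ = _ := by rw [h2]
      have h3 := congrArg Complex.im h1
      rw [hre, Complex.add_im] at h3
      have h4 : (Complex.I * ((∑ x, k x * ‖w x‖ ^ 2 : ℝ) : ℂ)).im = ∑ x, k x * ‖w x‖ ^ 2 := by
        rw [Complex.mul_im, Complex.I_re, Complex.I_im, Complex.ofReal_re, Complex.ofReal_im]
        ring
      rw [h4] at h3
      have h5 : |(∑ x, (starRingEnd ℂ) (w x) * f x).im| ≤ nn w * nn f :=
        (Complex.abs_im_le_norm _).trans (nn_cs w f)
      have h6 := (abs_le.1 h5).1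
      linarith
    -- the two parts
    set wD : Tor d M → ℂ := fun x => if x ∈ D then w x else 0 with hwD
    set wA : Tor d M → ℂ := fun x => if x ∈ D then 0 else w x with hwA
    have hsplit : ∀ x, w x = wD x + wA x := by
      intro x
      rw [hwD, hwA]
      by_cases hx : x ∈ D
      · simp [hx]
      · simp [hx]
    have hwn : nn w ≤ nn wD + nn wA := by
      have : w = fun x => wD x + wA x := funext hsplit
      calc nn w = nn (fun x => wD x + wA x) := by rw [← this]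
        _ ≤ _ := nn_add _ _
    have hA : kv * nn wA ^ 2 ≤ nn w * nn f := by
      refine le_trans ?_ hflux
      rw [nn_sq, Finset.mul_sum]
      refine Finset.sum_le_sum fun x _ => ?_
      rw [hwA]
      by_cases hx : x ∈ D
      · simp only [hx, if_true, norm_zero]
        have := mul_nonneg (hk x).le (sq_nonneg ‖w x‖)
        nlinarith only [this]
      · simp only [hx, if_false]
        exact mul_le_mul_of_nonneg_right (hkA x hx) (sq_nonneg _)
    have hDD : nn wD ≤ L * (nn f + e₀ * nn wD + 2 * d * nn wA) := by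
      have h1 := hW wD (fun x hx => by rw [hwD]; simp [hx])
      -- the vector `H_DD w_D`
      set g : Tor d M → ℂ := fun x => if x ∈ D then ∑ y, (Hr V E x y : ℂ) * wD y else 0 with hg
      have e1 : ∑ x ∈ D, ‖wD x‖ ^ 2 = nn wD ^ 2 := by
        rw [nn_sq]
        refine Finset.sum_subset (Finset.subset_univ D) fun x _ hx => ?_
        rw [hwD]; simp [hx]
      have e2 : ∑ x ∈ D, ‖∑ y, (Hr V E x y : ℂ) * wD y‖ ^ 2 = nn g ^ 2 := by
        rw [nn_sq, ← Finset.sum_subset (Finset.subset_univ D) fun x _ hx => ?_]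
        · refine Finset.sum_congr rfl fun x hx => ?_
          rw [hg]; simp [hx]
        · rw [hg]; simp [hx]
      rw [e1, e2, ← mul_pow] at h1
      have h2 : nn wD ≤ L * nn g :=
        abs_le_of_sq_le_sq' h1 (mul_nonneg (by linarith) (nn_nonneg g)) |>.2
      refine h2.trans (mul_le_mul_of_nonneg_left ?_ (by linarith))
      have h3 : ∀ x, ‖g x‖ ≤ ‖f x + Complex.I * (e₀ : ℂ) * wD x +
          (-1) * ∑ y, (adj d M x y : ℂ) * wA y‖ := by
        intro x
        by_cases hx : x ∈ D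
        · have h4 : g x = f x + Complex.I * (e₀ : ℂ) * wD x +
              (-1) * ∑ y, (adj d M x y : ℂ) * wA y := by
            have h5 : ∑ y, (Hr V E x y : ℂ) * wA y = ∑ y, (adj d M x y : ℂ) * wA y := by
              refine Finset.sum_congr rfl fun y _ => ?_
              rw [Hr_apply]
              by_cases hxy : x = y
              · subst hxy
                have : wA x = 0 := by rw [hwA]; simp [hx]
                rw [this, mul_zero, mul_zero]
              · rw [if_neg hxy, add_zero]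
            have h6 : ∑ y, (Hr V E x y : ℂ) * wD y =
                ∑ y, (Hr V E x y : ℂ) * w y - ∑ y, (Hr V E x y : ℂ) * wA y := by
              rw [← Finset.sum_sub_distrib]
              refine Finset.sum_congr rfl fun y _ => ?_
              rw [hsplit y]; ring
            have h7 : g x = ∑ y, (Hr V E x y : ℂ) * wD y := by
              rw [hg]; simp [hx]
            have h8 : wD x = w x := by rw [hwD]; simp [hx]
            rw [h7, h6, h5, heq x, hkD x hx, h8]
            ring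
          rw [h4]
        · have h4 : g x = 0 := by rw [hg]; simp [hx]
          rw [h4, norm_zero]
          exact norm_nonneg _
      refine (nn_mono g _ h3).trans ?_
      refine (nn_add (fun x => f x + Complex.I * (e₀ : ℂ) * wD x)
        (fun x => (-1) * ∑ y, (adj d M x y : ℂ) * wA y)).trans ?_
      have h4 := nn_add f (fun x => Complex.I * (e₀ : ℂ) * wD x)
      have h5 : nn (fun x => Complex.I * (e₀ : ℂ) * wD x) = e₀ * nn wD := by
        rw [nn_smul, norm_mul, Complex.norm_I, one_mul, Complex.norm_real, Real.norm_of_nonneg he.le]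
      have h6 : nn (fun x => (-1) * ∑ y, (adj d M x y : ℂ) * wA y) ≤ 2 * d * nn wA := by
        rw [nn_smul, norm_neg, norm_one, one_mul]
        exact nn_adj wA
      linarith
    -- the conclusion
    have hf0 := nn_nonneg f
    have hw0 := nn_nonneg w
    have hwD0 := nn_nonneg wD
    have hwA0 := nn_nonneg wA
    have h1 : nn wD ≤ 2 * L * (nn f + 2 * d * nn wA) := by
      have : L * (e₀ * nn wD) ≤ 1 / 2 * nn wD := by
        have := mul_le_mul_of_nonneg_right hLe hwD0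
        nlinarith
      nlinarith
    have h2 : nn w ≤ 2 * L * nn f + (1 + 4 * d) * L * nn wA := by
      have : nn wA ≤ L * nn wA := le_mul_of_one_le_left hwA0 hL
      nlinarith
    -- Young
    have h3 : (1 + 4 * d) * L * nn wA ≤ 1 / 2 * nn w + (1 + 4 * d) ^ 2 * L ^ 2 / (2 * kv) * nn f := by
      by_cases hw1 : nn w = 0
      · have : nn wA = 0 := by
          have h4 : kv * nn wA ^ 2 ≤ 0 := by rw [hw1, zero_mul] at hA; exact hA
          have h5 : nn wA ^ 2 ≤ 0 := by
            by_contra hcon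
            rw [not_le] at hcon
            have := mul_pos hkv hcon
            linarith
          exact (pow_eq_zero_iff two_ne_zero).1 (le_antisymm h5 (sq_nonneg _))
        rw [this, mul_zero, hw1, mul_zero, zero_add]
        positivity
      · -- `(c a)² ≤ c² w f / kv ≤ (w/2 + c² f / (2 kv))²`
        set c : ℝ := (1 + 4 * d) * L with hc
        have hc0 : 0 ≤ c := by positivity
        have e1 : (1 + 4 * (d : ℝ)) ^ 2 * L ^ 2 / (2 * kv) * nn f = c ^ 2 * nn f / kv / 2 := by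
          rw [hc]; field_simp
        rw [e1]
        have hY0 : 0 ≤ c ^ 2 * nn f / kv := by positivity
        have h4 : (c * nn wA) ^ 2 ≤ (1 / 2 * nn w + c ^ 2 * nn f / kv / 2) ^ 2 := by
          have h5 : nn wA ^ 2 ≤ nn w * nn f / kv := by
            rw [le_div_iff₀ hkv]; linarith
          have h6 : (c * nn wA) ^ 2 ≤ nn w * (c ^ 2 * nn f / kv) := by
            calc (c * nn wA) ^ 2 = c ^ 2 * nn wA ^ 2 := by ring
              _ ≤ c ^ 2 * (nn w * nn f / kv) := mul_le_mul_of_nonneg_left h5 (sq_nonneg c)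
              _ = _ := by ring
          nlinarith only [sq_nonneg (nn w - c ^ 2 * nn f / kv), h6]
        exact abs_le_of_sq_le_sq' h4 (by positivity) |>.2
    have h4 : nn w ≤ (4 * L + (1 + 4 * d) ^ 2 * L ^ 2 / kv) * nn f := by
      have e : (1 + 4 * (d : ℝ)) ^ 2 * L ^ 2 / (2 * kv) * nn f =
          1 / 2 * ((1 + 4 * (d : ℝ)) ^ 2 * L ^ 2 / kv * nn f) := by
        field_simp
      rw [e] at h3
      linarith
    refine h4.trans (mul_le_mul_of_nonneg_right ?_ hf0)
    have h5 : 4 * L ≤ 4 * L ^ 2 / kv := by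
      rw [le_div_iff₀ hkv]
      have : L * kv ≤ L * L := mul_le_mul_of_nonneg_left (hkv1.trans hL) (by linarith only [hL])
      nlinarith only [this]
    calc 4 * L + (1 + 4 * (d : ℝ)) ^ 2 * L ^ 2 / kv ≤
        4 * L ^ 2 / kv + (1 + 4 * (d : ℝ)) ^ 2 * L ^ 2 / kv := by linarith only [h5]
      _ = C * L ^ 2 / kv := by rw [hC]; ring
  have hcon : 0 ≤ C * L ^ 2 / kv := by positivity
  have first : ∀ u : Tor d M → ℂ, ∑ x, ‖∑ y, res V E k x y * u y‖ ^ 2 ≤
      (C * L ^ 2 / kv) ^ 2 * ∑ x, ‖u x‖ ^ 2 := by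
    intro u
    have h1 := pow_le_pow_left₀ (nn_nonneg _) (main u) 2
    rw [mul_pow, nn_sq, nn_sq] at h1
    exact h1
  refine ⟨first, ?_⟩
  intro x
  have h1 := first (Pi.single x 1)
  have e1 : ∑ z, ‖∑ y, res V E k z y * (Pi.single x (1 : ℂ) : Tor d M → ℂ) y‖ ^ 2 =
      ∑ z, ‖res V E k x z‖ ^ 2 := by
    refine Finset.sum_congr rfl fun z _ => ?_
    rw [Finset.sum_eq_single x]
    · rw [Pi.single_eq_same, mul_one]
      unfold res
      rw [Pool.Agent.HSL14.gr_sym (Hr_sym V E) k z x]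
    · intro y _ hy
      rw [Pi.single_eq_of_ne hy, mul_zero]
    · intro h
      exact absurd (Finset.mem_univ x) h
  have e2 : ∑ z, ‖(Pi.single x (1 : ℂ) : Tor d M → ℂ) z‖ ^ 2 = 1 := by
    rw [Finset.sum_eq_single x]
    · rw [Pi.single_eq_same, norm_one, one_pow]
    · intro y _ hy
      rw [Pi.single_eq_of_ne hy, norm_zero]
      ring
    · intro h
      exact absurd (Finset.mem_univ x) h
  rw [e1, e2, mul_one] at h1
  calc ∑ b ∈ D, k b * ‖res V E k x b‖ ^ 2 = e₀ * ∑ b ∈ D, ‖res V E k x b‖ ^ 2 := by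
        rw [Finset.mul_sum]
        exact Finset.sum_congr rfl fun b hb => by rw [hkD b hb]
    _ ≤ e₀ * ∑ b, ‖res V E k x b‖ ^ 2 :=
        mul_le_mul_of_nonneg_left (Finset.sum_le_sum_of_subset_of_nonneg (Finset.subset_univ D)
          fun _ _ _ => sq_nonneg _) he.le
    _ ≤ e₀ * (C * L ^ 2 / kv) ^ 2 := mul_le_mul_of_nonneg_left h1 he.le

end Pool.Agent.AND2B.H81
end
end -- Pool.Agent.Helper81_AND2B.FLX

section -- Pool.Agent.Helper67_AHH.Flx

/-!
# AND2B: the flux to the dead sites (helper67)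
-/

set_option autoImplicit false

open scoped BigOperators NNReal ENNReal Matrix

noncomputable section

namespace Pool.Agent.AHH.H67

open Pool.Agent.BED (Tor adj)
open Pool.Agent.LE.QF (BB KK qf)
open Pool.Agent.AND2B
open Pool.Agent.ANP (Cfg Geo Fc)

/-- the constant of FLX -/
def CF (d : ℕ) : ℝ := (AND2B.H81.flx d).choose

theorem one_le_CF (d : ℕ) : 1 ≤ CF d := (AND2B.H81.flx d).choose_spec.1

variable {d M : ℕ} [NeZero M]

/-- the flux to the dead sites of `T`, for a configuration `T'` with the same potential at the dead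
sites of `T` -/
theorem flx_dead {V : Env d M} {T T' : Cfg (Tor d M)} {κv : ℝ} (hL : 1 ≤ V.L) (he : 0 < V.e₀)
    (hLe : 2 * V.L * V.e₀ ≤ 1) (hk : 0 < κv) (hk1 : κv ≤ 1) (hV : ¬ Viol V.E V.L T)
    (hd : ∀ x, T.s x = 0 → T'.s x = 0 ∧ T'.V x = T.V x)
    (ha : ∀ x ∈ Al T, κv ≤ kap V.e₀ T' x) (x : Tor d M) :
    ∑ y ∈ (Al T)ᶜ, kap V.e₀ T' y * KK (net V.E V.e₀ T') x y ≤
      V.e₀ * (CF d * V.L ^ 2 / κv) ^ 2 := by
  have hdead : ∀ y ∈ (Al T)ᶜ, T.s y = 0 := by
    intro y hy
    rw [Finset.mem_compl, mem_Al, not_lt] at hy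
    exact le_antisymm hy zero_le
  have hW0 : WLD V.E V.L T.V (Al T)ᶜ := by
    by_contra hc
    exact hV ⟨(Al T)ᶜ, hdead, hc⟩
  have hW : WLD V.E V.L (Vef T') (Al T)ᶜ := by
    refine AND2B.H16.wld_congr V.E V.L (Vef T') T.V _ (fun y hy => ?_) hW0
    obtain ⟨h1, h2⟩ := hd y (hdead y hy)
    unfold Vef
    rw [h1, h2]
    simp
  have h := ((AND2B.H81.flx d).choose_spec.2 M (Vef T') (kap V.e₀ T') V.E V.L V.e₀ κv (Al T)ᶜ hL he
    hLe hk hk1 (fun y hy => by
      unfold kap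
      rw [(hd y (hdead y hy)).1]
      simp) (fun y hy => ha y (by
      rw [Finset.mem_compl, not_not] at hy
      exact hy)) hW).2 x
  exact h

end Pool.Agent.AHH.H67
end
end -- Pool.Agent.Helper67_AHH.Flx

section -- Pool.Agent.Helper67_AHH.Ok

/-!
# AND2B: the hypotheses of the block lemma hold for a good configuration (helper67)
-/

set_option autoImplicit false

open scoped BigOperators NNReal ENNReal Matrix

noncomputable section

namespace Pool.Agent.AHH.H67

open Pool.Agent.BED (Tor adj)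
open Pool.Agent.LE.QF (BB KK qf)
open Pool.Agent.AND2B
open Pool.Agent.ANP (Cfg Geo Fc)
open Pool.Agent.AFJ (ind LaR EE)
open Pool.Agent.AFL (Fl)
open Pool.Agent.LTG (Fm Bd sT tT qd Box)

variable {d M : ℕ} [NeZero M]

/-- the numbers of the block lemma, without the form -/
structure BNum (V : Env d M) (bd : Bud) (n k : ℕ) (rG : ℝ) (p : Par) : Prop where
  κv : 0 < p.κv ∧ p.κv ≤ 1 ∧ p.κv ≤ V.c₀ * V.cl (k + 1)
  inc : 0 ≤ bd.inc n k
  mis : (bd.q n k).mis + bd.inc n k * V.Cp ≤ p.N * p.δ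
  r : 1 ≤ p.r ∧ rG + (bd.q n k).del + bd.inc n k * V.Cp + p.δ ≤ p.r
  lam : 0 ≤ (bd.q n k).lam ∧ 0 ≤ bd.inL n k ∧
    (bd.q n k).lam * (1 + bd.inL n k * V.Cp) ≤ p.L / 2
  wl : 1 ≤ V.L ∧ 2 * V.L * V.e₀ ≤ 1 ∧ V.e₀ * (CF d * V.L ^ 2 / p.κv) ^ 2 ≤ p.δ
  num : 0 ≤ p.N ∧ 0 < p.δ ∧ 0 < p.L ∧ 0 < p.ω ∧ p.ω ≤ 1 / 2 ∧ 0 ≤ p.ε ∧ p.ε ≤ 1 ∧ 0 ≤ p.s1 ∧
    0 ≤ p.s2 ∧ 0 < p.ε₁ ∧ p.ε₁ ≤ 1 ∧ 0 < p.δY ∧ 1 ≤ p.n ∧ p.n ≤ p.nL
  hs3 : 0 ≤ p.s3 ∧ 0 ≤ p.old
  hTv : (1 - (V.th : ℝ)) * V.cl k * V.C₀ ≤ p.κv ∧ 2 * p.r * ((1 - (V.th : ℝ)) * V.cl k) ≤ p.κv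
  hδ : (p.N + 2) * p.δ ≤ V.c₀ / 2
  hz : 0 ≤ p.z ∧ 16 * ((p.N + 1) * p.δ) ^ 4 * p.r ^ 3 ≤ p.z ^ 4 * (p.ω * p.L) * p.κv ^ 5
  hL0 : 1 ≤ p.L0 ∧ p.κv * (16 * (V.C₀ ^ 2 * p.s2 * (p.r / p.κv) ^ 2 / (p.ω * p.L)) + 2 * p.z) *
    p.L0 ≤ 1

/-- locality, for every configuration `T'` which agrees with `T` off `b` -/
def Lcl (V : Env d M) (T : Cfg (Tor d M)) (b Q1 Yg : Finset (Tor d M)) (k : ℕ) (p : Par) : Prop :=
  ∀ T' : Cfg (Tor d M), T'.mb = T.mb → (∀ x, x ∉ b → T'.V x = T.V x ∧ T'.s x = T.s x) →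
    (∀ x ∈ b, V.cl (k + 1) ≤ T'.s x) →
    (∀ x ∈ Al T, x ∉ Q1 → ∑ c ∈ b, KK (net V.E V.e₀ T') x c ^ 2 ≤ p.L ∧
      ‖net V.E V.e₀ T' x x - net V.E V.e₀ T x x‖ ≤ p.δ) ∧
    ∀ c ∈ b, ∑ x ∈ Al T \ Yg, kap V.e₀ T' x * KK (net V.E V.e₀ T') x c ≤ p.old

section

variable {V : Env d M} {bd : Bud} {n k kB J1 J2 : ℕ} {p : Par} {T₀ T : Cfg (Tor d M)}
  {run₀ run P : Finset (Tor d M)}

/-- FLO IS APPLICABLE -/
theorem flOf_ok (hd : 3 ≤ d) (hMd : Md V bd n k T₀ run₀ P T run) (hE : EOk V k)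
    (hF : Fc V.Γ V.kk V.cl V.Dn n k P T run) (hN : FNum V bd n k kB J1 J2 p) {rG : ℝ}
    (hB : BNum V bd n k rG p) (hG₀ : ∀ x, ‖V.G₀ x x‖ ≤ rG)
    (hPsi : ∀ x, Psi V.Γ n P x ≤ V.Cp) (hVi : ¬ Viol V.E V.L T)
    (a : Tor d M) (hkB : 2 ^ kB ≤ M) (b Q Q1 : Finset (Tor d M)) (hbr : b ⊆ run)
    (hbP : Disjoint b P) (hbQ : b ⊆ Q1) (hQ1 : Q1 ⊆ Q) (hQ : ∀ x ∈ Q, x ∈ Al T ∧ Box a (2 ^ kB) x)
    (hZ : ((2 : ℝ) ^ kB) ^ d ≤
      4 * ((Finset.univ.filter fun x => Box a (2 ^ kB) x ∧ x ∈ Al T ∧ x ∉ Q).card : ℝ))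
    (hloc : Lcl V T b Q1 (Yo V n T) k p) :
    (flOf V T b Q Q1 run (run \ P) (Yo V n T) k p).Ok V.c₀ V.C₀ := by
  set F := flOf V T b Q Q1 run (run \ P) (Yo V n T) k p with hFdef
  have hth := hE.th
  have hc := hE.c₀
  have hcl := hE.cl
  have hcl' := hE.cl'
  have hfc := fc_run hF hE
  have halv := fc_alv hF hE
  have hgau := md_gau hMd hE
  have hT0 : 0 < (1 - (V.th : ℝ)) * V.cl k := mul_pos (by linarith only [hth]) hcl.1
  have hTeq : (1 - (V.th : ℝ)) * V.cl k = V.cl k - V.cl (k + 1) := by rw [hcl.2]; ring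
  -- the block
  have hbs : ∀ x ∈ b, T.s x = V.cl k := fun x hx =>
    hfc.2.1 x (hbr hx) (Finset.disjoint_left.1 hbP hx)
  have hbsR : ∀ x ∈ b, (T.s x : ℝ) = V.cl k := fun x hx => by rw [hbs x hx]
  have hle : ∀ t : ℝ, t ≤ (1 - (V.th : ℝ)) * V.cl k → ∀ x ∈ b, t ≤ T.s x := fun t ht x hx => by
    rw [hbsR x hx]
    rw [hTeq] at ht
    linarith only [hcl'.1, ht]
  -- the network at the time `t`
  have hcfg : ∀ (t : ℝ) (ζ : Tor d M → ℝ), 0 ≤ t → t ≤ (1 - (V.th : ℝ)) * V.cl k →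
      (∀ x, x ∉ b → (cfg T b t ζ).V x = T.V x ∧ (cfg T b t ζ).s x = T.s x) ∧
      (∀ x ∈ b, V.cl (k + 1) ≤ (cfg T b t ζ).s x) ∧
      (∀ x ∈ b, ((cfg T b t ζ).s x : ℝ) = V.cl k - t) := by
    intro t ζ h0 h1
    obtain ⟨c1, c2⟩ := cfg_s (ζ := ζ) h0 (hle t h1)
    refine ⟨fun x hx => ⟨(c2 x hx).2, (c2 x hx).1⟩, fun x hx => ?_, fun x hx => ?_⟩
    · have h2 := (c1 x hx).1
      rw [hbsR x hx] at h2
      rw [hTeq] at h1
      rw [← NNReal.coe_le_coe, h2]
      linarith only [h1]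
    · have h2 := (c1 x hx).1
      rw [hbsR x hx] at h2
      exact h2
  have hkap : ∀ (t : ℝ) (v : b → ℝ), 0 ≤ t → t ≤ (1 - (V.th : ℝ)) * V.cl k →
      (∀ x ∈ Al T, V.c₀ * V.cl (k + 1) ≤ kap V.e₀ (cfg T b t (ext b v)) x) := by
    intro t v h0 h1 x hx
    obtain ⟨c1, c2, _⟩ := hcfg t (ext b v) h0 h1
    have h2 : (V.cl (k + 1) : ℝ) ≤ (cfg T b t (ext b v)).s x := by
      by_cases hxb : x ∈ b
      · exact_mod_cast c2 x hxb
      · rw [(c1 x hxb).2]
        exact (hfc.2.2.2 x hx).1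
    have h3 := (hgau x hx).1
    unfold kap
    have h4 : V.cl (k + 1) * V.c₀ ≤ ((cfg T b t (ext b v)).s x : ℝ) * (T.mb x).im :=
      mul_le_mul h2 h3 hc.1.le (NNReal.coe_nonneg _)
    have h5 : (cfg T b t (ext b v)).mb x = T.mb x := rfl
    rw [h5]
    linarith only [hE.e₀, h4]
  have hpt : ∀ (t : ℝ) (v : b → ℝ), 0 ≤ t → t ≤ (1 - (V.th : ℝ)) * V.cl k →
      F.Gt (t, v) = net V.E V.e₀ (cfg T b t (ext b v)) ∧
      ∀ x, F.k t x = kap V.e₀ (cfg T b t (ext b v)) x := fun t v h0 h1 =>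
    at_cfg V T b t v h0 (hle t h1)
  obtain ⟨hG0, hk0⟩ := H58.fl_G0 F V.E V.e₀ T b rfl
  have hkT : ∀ x ∈ Al T, V.c₀ * V.cl (k + 1) ≤ F.k ((1 - (V.th : ℝ)) * V.cl k) x := fun x hx => by
    rw [(hpt _ (fun _ => 0) hT0.le le_rfl).2 x]
    exact hkap _ _ hT0.le le_rfl x hx
  have hkpos : ∀ t x, 0 ≤ t → t ≤ (1 - (V.th : ℝ)) * V.cl k → 0 < F.k t x := by
    intro t x h0 h1
    rw [(hpt t (fun _ => 0) h0 h1).2 x]
    by_cases hx : x ∈ Al T
    · exact lt_of_lt_of_le (mul_pos hc.1 hcl'.1) (hkap t _ h0 h1 x hx)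
    · have hxb : x ∉ b := fun h => hx (halv (hbr h))
      unfold kap
      rw [((hcfg t _ h0 h1).1 x hxb).2]
      rw [mem_Al, not_lt] at hx
      have h2 : T.s x = 0 := le_antisymm hx zero_le
      rw [h2]
      simp [hE.e₀]
  have hPn : ∀ x, bd.inc n k * Psi V.Γ n P x ≤ bd.inc n k * V.Cp := fun x =>
    mul_le_mul_of_nonneg_left (hPsi x) hB.inc
  have hAl0 := md_al hMd hE
  have hww : ∀ x, F.k 0 x * F.g x = ww V.e₀ T x := fun x => by
    rw [hk0 x]
    rfl
  have hS := md_hS hd hMd hE hF hN hPsi a hkB Q hQ hZ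
  have hqf : ∀ f : Tor d M → ℝ, qf F.E0 f = qd (Ef V.E V.e₀ T) f := fun f => by
    have h1 : F.E0 = Ef V.E V.e₀ T := by
      unfold Fl.E0 Ef
      rw [hG0]
      have h2 : F.k 0 = kap V.e₀ T := funext hk0
      rw [h2]
      rfl
    rw [h1]
    rfl
  constructor
  · -- sym
    intro x y
    show (adj d M + Matrix.diagonal T.V) x y = (adj d M + Matrix.diagonal T.V) y x
    rw [Matrix.add_apply, Matrix.add_apply, ANR.H89.adj_symm x y]
    by_cases hxy : x = y
    · rw [hxy]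
    · rw [Matrix.diagonal_apply_ne _ hxy, Matrix.diagonal_apply_ne _ (Ne.symm hxy)]
  · exact hT0
  · exact hkpos
  · refine ⟨fun x hx => ?_, Finset.sdiff_subset, halv⟩
    exact Finset.mem_sdiff.2 ⟨hbr hx, Finset.disjoint_left.1 hbP hx⟩
  · exact ⟨hbQ, hQ1, fun x hx => (hQ x hx).1⟩
  · exact fun x hx => hB.κv.2.2.trans (hkT x (halv hx))
  · exact fun x hx => ⟨(hgau x hx).1, (hgau x hx).2.1⟩
  · -- the mismatch
    intro x hx
    rw [hG0]
    have hxr : x ∈ run := hx
    have h1 := hMd.ent x (halv hxr) x (halv hxr)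
    have h2 := hMd.st0.mis x (hMd.sub hxr)
    have h3 : T.mb x = T₀.mb x := by rw [hMd.mb]
    have h4 : net V.E V.e₀ T x x - T.mb x = (net V.E V.e₀ T x x - net V.E V.e₀ T₀ x x) +
        (net V.E V.e₀ T₀ x x - T₀.mb x) := by rw [h3]; ring
    have h5 : ‖net V.E V.e₀ T x x - T.mb x‖ ≤ bd.inc n k * Psi V.Γ n P x + (bd.q n k).mis := by
      rw [h4]
      exact (norm_add_le _ _).trans (add_le_add h1 h2)
    show ‖net V.E V.e₀ T x x - T.mb x‖ ≤ p.N * p.δ
    linarith [hPn x, hB.mis]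
  · -- the size of the resolvent
    intro x hx
    rw [hG0]
    have hxA := (hQ x hx).1
    have hxA0 : x ∈ Al T₀ := by rw [← hAl0]; exact hxA
    have h1 := hMd.ent x hxA x hxA
    have h2 := hMd.st0.ent x hxA0 x hxA0
    have h3 := hG₀ x
    have h4 : ‖net V.E V.e₀ T x x‖ ≤ bd.inc n k * Psi V.Γ n P x + (bd.q n k).del + rG := by
      have h5 : net V.E V.e₀ T x x = (net V.E V.e₀ T x x - net V.E V.e₀ T₀ x x) +
        (net V.E V.e₀ T₀ x x - V.G₀ x x) + V.G₀ x x := by ring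
      rw [h5]
      exact (norm_add_le _ _).trans (add_le_add ((norm_add_le _ _).trans (add_le_add h1 h2)) h3)
    have h5 := Complex.im_le_norm (net V.E V.e₀ T x x)
    show (net V.E V.e₀ T x x).im + p.δ ≤ p.r
    linarith [hPn x, hB.r.2]
  · -- the sums of the fourth powers
    intro x hx
    rw [hG0]
    have hxA := (hQ x (hQ1 hx)).1
    have h1 := hMd.lar x hxA
    have h2 : LaR (net V.E V.e₀ T) F.R x ≤ LaR (net V.E V.e₀ T) run x := by
      unfold LaR
      exact Finset.sum_le_sum_of_subset_of_nonneg Finset.inter_subset_left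
        fun _ _ _ => sq_nonneg _
    have h3 : (bd.q n k).lam * (1 + bd.inL n k * Psi V.Γ n P x) ≤
        (bd.q n k).lam * (1 + bd.inL n k * V.Cp) :=
      mul_le_mul_of_nonneg_left (by
        have := mul_le_mul_of_nonneg_left (hPsi x) hB.lam.2.1
        linarith only [this]) hB.lam.1
    exact h2.trans (h1.trans (h3.trans hB.lam.2.2))
  · -- locality
    rintro ⟨t, v⟩ h0 h1
    simp only at h0 h1
    obtain ⟨e1, e2⟩ := hpt t v h0 h1
    obtain ⟨c1, c2, _⟩ := hcfg t (ext b v) h0 h1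
    obtain ⟨l1, l2⟩ := hloc (cfg T b t (ext b v)) rfl c1 c2
    constructor
    · intro x hx hx1
      rw [e1, hG0]
      exact l1 x hx hx1
    · intro x hx
      rw [e1]
      have h2 : ∀ y, F.k t y = kap V.e₀ (cfg T b t (ext b v)) y := e2
      have h3 : ∑ y ∈ F.Aᶜ, F.k t y * KK (net V.E V.e₀ (cfg T b t (ext b v))) x y =
          ∑ y ∈ (Al T)ᶜ, kap V.e₀ (cfg T b t (ext b v)) y *
            KK (net V.E V.e₀ (cfg T b t (ext b v))) x y :=
        Finset.sum_congr rfl fun y _ => by rw [h2 y]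
      show ∑ y ∈ F.Aᶜ, F.k t y * KK (net V.E V.e₀ (cfg T b t (ext b v))) x y ≤ p.δ
      rw [h3]
      refine (flx_dead hB.wl.1 hE.e₀ hB.wl.2.1 hB.κv.1 hB.κv.2.1 hVi (fun y hy => ?_)
        (fun y hy => hB.κv.2.2.trans (hkap t v h0 h1 y hy)) x).trans hB.wl.2.2
      have hyb : y ∉ b := fun h => by
        have h4 := halv (hbr h)
        rw [mem_Al, hy] at h4
        exact lt_irrefl _ h4
      exact ⟨by rw [(c1 y hyb).2, hy], (c1 y hyb).1⟩
  · -- the old nodes
    rintro ⟨t, v⟩ h0 h1 c hcb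
    simp only at h0 h1
    obtain ⟨e1, e2⟩ := hpt t v h0 h1
    obtain ⟨c1, c2, _⟩ := hcfg t (ext b v) h0 h1
    obtain ⟨l1, l2⟩ := hloc (cfg T b t (ext b v)) rfl c1 c2
    have h3 : ∑ x ∈ F.A \ F.Yg, F.k t x * KK (F.Gt (t, v)) x c =
        ∑ x ∈ Al T \ Yo V n T, kap V.e₀ (cfg T b t (ext b v)) x *
          KK (net V.E V.e₀ (cfg T b t (ext b v))) x c :=
      Finset.sum_congr rfl fun y _ => by rw [e1, e2 y]
    show ∑ x ∈ F.A \ F.Yg, F.k t x * KK (F.Gt (t, v)) x c ≤ p.old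
    rw [h3]
    exact l2 c hcb
  · -- hS1
    intro f φ hf hφ
    have h1 := hS.1 f φ hf hφ
    rw [hqf f]
    have h2 : ∑ x ∈ F.Q, φ x ^ 2 / (F.k 0 x * F.g x) = ∑ x ∈ Q, φ x ^ 2 / ww V.e₀ T x :=
      Finset.sum_congr rfl fun x _ => by rw [hww x]
    rw [h2]
    exact h1
  · -- hS2
    intro f φ hf hφ
    have h1 := hS.2 f φ hf hφ
    rw [hqf f]
    have h2 : ∑ x ∈ F.R, φ x ^ 2 / (F.k 0 x * F.g x) =
        ∑ x ∈ run ∩ Q, φ x ^ 2 / ww V.e₀ T x :=
      Finset.sum_congr rfl fun x _ => by rw [hww x]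
    rw [h2]
    exact h1
  · -- block Y
    have hP0 : ∀ x ∈ run, pv T run (V.cl (k + 1)) x = (T.s x : ℝ) - V.cl (k + 1) := fun x hx => by
      unfold pv ind
      rw [if_pos hx, one_mul]
    have hP1 : ∀ x, x ∉ run → pv T run (V.cl (k + 1)) x = 0 := fun x hx => by
      unfold pv ind
      rw [if_neg hx, zero_mul]
    refine ⟨fun x => ?_, fun x hx => ?_, fun x hx => ?_, fun x hx => ?_⟩
    · show 0 ≤ pv T run (V.cl (k + 1)) x
      by_cases hr : x ∈ run
      · rw [hP0 x hr]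
        linarith only [(hfc.1 x hr).1]
      · rw [hP1 x hr]
    · show pv T run (V.cl (k + 1)) x = 0
      by_cases hr : x ∈ run
      · have hxP : x ∈ P := by
          by_contra hc'
          exact hx (Finset.mem_sdiff.2 ⟨hr, hc'⟩)
        rw [hP0 x hr, hfc.2.2.1 x hr hxP, sub_self]
      · exact hP1 x hr
    · show (1 - (V.th : ℝ)) * V.cl k ≤ pv T run (V.cl (k + 1)) x
      rw [hP0 x (hbr hx), hbsR x hx, hTeq]
    · show 2 * (pv T run (V.cl (k + 1)) x * gg T x) ≤ F.k ((1 - (V.th : ℝ)) * V.cl k) x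
      have hr : x ∈ run := (Finset.mem_sdiff.1 hx).1
      have hxP : x ∉ P := (Finset.mem_sdiff.1 hx).2
      rw [hP0 x hr, hfc.2.1 x hr hxP, (hpt _ (fun _ => 0) hT0.le le_rfl).2 x]
      have hg := (hgau x (halv hr)).1
      have hg0 : 0 < gg T x := by linarith only [hc, hg]
      have h2 : (V.cl (k + 1) : ℝ) ≤
          (cfg T b ((1 - (V.th : ℝ)) * V.cl k) (ext b fun _ => 0)).s x := by
        by_cases hxb : x ∈ b
        · exact_mod_cast (hcfg _ _ hT0.le le_rfl).2.1 x hxb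
        · rw [((hcfg _ _ hT0.le le_rfl).1 x hxb).2]
          exact (hfc.1 x hr).1
      have h3 : V.cl (k + 1) * gg T x ≤
          ((cfg T b ((1 - (V.th : ℝ)) * V.cl k) (ext b fun _ => 0)).s x : ℝ) * gg T x :=
        mul_le_mul_of_nonneg_right h2 hg0.le
      have h4 : 2 * ((V.cl k : ℝ) - V.cl (k + 1)) ≤ V.cl (k + 1) := by
        rw [hcl.2]
        nlinarith only [hcl.1, hth.1]
      have h5 : 2 * ((V.cl k - V.cl (k + 1)) * gg T x) ≤ V.cl (k + 1) * gg T x := by
        nlinarith only [hth, hc, hg, h4]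
      unfold kap
      have h6 : ((cfg T b ((1 - (V.th : ℝ)) * V.cl k) (ext b fun _ => 0)).mb x).im = gg T x := rfl
      rw [h6]
      linarith only [hE.e₀, h3, h5]
  · -- the weights
    have hW0 : ∀ x ∈ run, pw T run (V.cl (k + 1)) x = V.cl (k + 1) * gg T x := fun x hx => by
      unfold pw ind
      rw [if_pos hx, one_mul]
    have hW1 : ∀ x, x ∉ run → pw T run (V.cl (k + 1)) x = 0 := fun x hx => by
      unfold pw ind
      rw [if_neg hx, zero_mul]
    refine ⟨fun x => ?_, fun x hx => hW1 x hx⟩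
    by_cases hr : x ∈ run
    · show 0 ≤ pw T run (V.cl (k + 1)) x ∧
        pw T run (V.cl (k + 1)) x ≤ F.k ((1 - (V.th : ℝ)) * V.cl k) x
      rw [hW0 x hr, (hpt _ (fun _ => 0) hT0.le le_rfl).2 x]
      have hg := (hgau x (halv hr)).1
      have hg0 : 0 < gg T x := by linarith only [hc, hg]
      have h2 : (V.cl (k + 1) : ℝ) ≤
          (cfg T b ((1 - (V.th : ℝ)) * V.cl k) (ext b fun _ => 0)).s x := by
        by_cases hxb : x ∈ b
        · exact_mod_cast (hcfg _ _ hT0.le le_rfl).2.1 x hxb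
        · rw [((hcfg _ _ hT0.le le_rfl).1 x hxb).2]
          exact (hfc.1 x hr).1
      have h3 : V.cl (k + 1) * gg T x ≤
          ((cfg T b ((1 - (V.th : ℝ)) * V.cl k) (ext b fun _ => 0)).s x : ℝ) * gg T x :=
        mul_le_mul_of_nonneg_right h2 hg0.le
      refine ⟨mul_nonneg hcl'.1.le hg0.le, ?_⟩
      unfold kap
      have h6 : ((cfg T b ((1 - (V.th : ℝ)) * V.cl k) (ext b fun _ => 0)).mb x).im = gg T x := rfl
      rw [h6]
      linarith only [hE.e₀, h3]
    · show 0 ≤ pw T run (V.cl (k + 1)) x ∧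
        pw T run (V.cl (k + 1)) x ≤ F.k ((1 - (V.th : ℝ)) * V.cl k) x
      rw [hW1 x hr]
      exact ⟨le_refl _, (hkpos _ x hT0.le le_rfl).le⟩
  · -- numbers
    obtain ⟨n1, n2, n3, n4, n5, n6, n7, n8, n9, n10, n11, n12, n13, n14⟩ := hB.num
    exact ⟨hB.κv.1, hB.κv.2.1, hB.r.1, hc.1, hc.2.1, hc.2.2, n1, n2, n3, n4, n5, n6, n7, n8, n9, n10,
      n11, n12, n13, n14⟩
  · exact hB.hs3
  · exact hB.hTv
  · exact hB.hδ
  · exact hB.hz
  · exact hB.hL0

end

end Pool.Agent.AHH.H67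
end
end -- Pool.Agent.Helper67_AHH.Ok
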