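import Pool.Agent.Helper12_MEB.B091
import Pool.Agent.Helper12_MEB.B162

/-!
# Merged copies (generated) of the modules

* `Pool.Agent.AWD.Defs`
* `Pool.Agent.AWD.War`
* `Pool.Agent.AWD.Nbd`
* `Pool.Agent.AWD.Dri`
* `Pool.Agent.Helper48_AN2.LAD`
* `Pool.Agent.Helper48_AFL.Cmp`
* `Pool.Agent.Helper48_AFL.Fun`
* `Pool.Agent.Helper48_AFL.Pnt`
* `Pool.Agent.Helper48_AFL.Prt`
* `Pool.Agent.Helper48_AFL.FLO`
-/

set_option autoImplicit false

section -- Pool.Agent.AWD.Defs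

/-!
# Block D1 of AND2B: the Dirichlet form of `|G|²` with an absorption which depends on the site

`G` is the resolvent `(H - i k)⁻¹`, `H` real symmetric, `k x ≥ 0` is the total absorption at `x`. The
only properties which are used are the symmetry of `G` and the Ward identity (`WK`). The form is
`E(f, f) = 1/2 ∑ k_x |G_xy|² k_y (f_x - f_y)²`; it is conservative. If `k = kap + η` with `kap = 0` at the
dead sites one can ground: see `EG`.
-/

set_option autoImplicit false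

open scoped BigOperators ComplexConjugate Matrix

noncomputable section

namespace Pool.Agent.AWD

open Pool.Agent.LE.QF

variable {X : Type} [Fintype X] [DecidableEq X]

/-- `G` is symmetric and `∑_c k_c conj (G_ac) G_cb = Im G_ab` -/
structure WK (G : Matrix X X ℂ) (k : X → ℝ) : Prop where
  hk : ∀ a, 0 ≤ k a
  hs : ∀ a b, G a b = G b a
  hw : ∀ a b, ∑ c, (k c : ℂ) * (conj (G a c) * G c b) = ((G a b).im : ℂ)

/-- the sum of squares `D_x(f) = ∑_y k_y |G_xy|² (f_x - f_y)²` -/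
def DD (k : X → ℝ) (G : Matrix X X ℂ) (x : X) (f : X → ℝ) : ℝ :=
  ∑ y, k y * ‖G x y‖ ^ 2 * (f x - f y) ^ 2

/-- the form matrix, the Laplacian with the conductances `k_x |G_xy|² k_y` -/
def EE (k : X → ℝ) (G : Matrix X X ℂ) : Matrix X X ℝ := Dl fun a b => k a * KK G a b * k b

/-- its derivative in the coordinate `c` of the potential -/
def EC (k : X → ℝ) (G : Matrix X X ℂ) (c : X) : Matrix X X ℝ :=
  Dl fun a b => k a * dK G c a b * k b

/-- `β_xc = ∑_y k_y conj (G_xy) G_yc (f_x - f_y)` -/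
def be (k : X → ℝ) (G : Matrix X X ℂ) (f : X → ℝ) (x c : X) : ℂ :=
  ∑ y, (k y : ℂ) * (conj (G x y) * G y c) * ((f x - f y : ℝ) : ℂ)

end Pool.Agent.AWD
end
end -- Pool.Agent.AWD.Defs

section -- Pool.Agent.AWD.War

/-!
# Block D1 of AND2B, part 1: consequences of the Ward identity
-/

set_option autoImplicit false

open scoped BigOperators ComplexConjugate Matrix

noncomputable section

namespace Pool.Agent.AWD

open Pool.Agent.LE.QF

variable {X : Type} [Fintype X] [DecidableEq X]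

theorem KK_apply (G : Matrix X X ℂ) (a b : X) : KK G a b = ‖G a b‖ ^ 2 := rfl

theorem KK_nonneg (G : Matrix X X ℂ) (a b : X) : 0 ≤ KK G a b := by
  rw [KK_apply]; positivity

/-- Cauchy-Schwarz with weights -/
theorem cs_w {ι : Type} (s : Finset ι) (k : ι → ℝ) (hk : ∀ i ∈ s, 0 ≤ k i) (u v : ι → ℂ) :
    ‖∑ i ∈ s, (k i : ℂ) * (u i * v i)‖ ^ 2 ≤
      (∑ i ∈ s, k i * ‖u i‖ ^ 2) * ∑ i ∈ s, k i * ‖v i‖ ^ 2 := by
  have h1 : ‖∑ i ∈ s, (k i : ℂ) * (u i * v i)‖ ≤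
      ∑ i ∈ s, (Real.sqrt (k i) * ‖u i‖) * (Real.sqrt (k i) * ‖v i‖) := by
    refine (norm_sum_le _ _).trans (Finset.sum_le_sum fun i hi => ?_)
    rw [norm_mul, norm_mul, Complex.norm_real, Real.norm_of_nonneg (hk i hi)]
    have := Real.mul_self_sqrt (hk i hi)
    calc k i * (‖u i‖ * ‖v i‖) = (Real.sqrt (k i) * Real.sqrt (k i)) * (‖u i‖ * ‖v i‖) := by
          rw [this]
      _ = Real.sqrt (k i) * ‖u i‖ * (Real.sqrt (k i) * ‖v i‖) := by ring
      _ ≤ _ := le_rfl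
  have h2 := Finset.sum_mul_sq_le_sq_mul_sq s (fun i => Real.sqrt (k i) * ‖u i‖)
    (fun i => Real.sqrt (k i) * ‖v i‖)
  have h3 : ∀ (w : ι → ℂ), ∑ i ∈ s, (Real.sqrt (k i) * ‖w i‖) ^ 2 = ∑ i ∈ s, k i * ‖w i‖ ^ 2 :=
    fun w => Finset.sum_congr rfl fun i hi => by rw [mul_pow, Real.sq_sqrt (hk i hi)]
  rw [h3, h3] at h2
  refine le_trans ?_ h2
  exact pow_le_pow_left₀ (norm_nonneg _) h1 2

/-- the same with real functions -/
theorem cs_r {ι : Type} (s : Finset ι) (k : ι → ℝ) (hk : ∀ i ∈ s, 0 ≤ k i) (u v : ι → ℝ) :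
    (∑ i ∈ s, k i * (u i * v i)) ^ 2 ≤ (∑ i ∈ s, k i * u i ^ 2) * ∑ i ∈ s, k i * v i ^ 2 := by
  have h2 := Finset.sum_mul_sq_le_sq_mul_sq s (fun i => Real.sqrt (k i) * u i)
    (fun i => Real.sqrt (k i) * v i)
  have h3 : ∀ (w : ι → ℝ), ∑ i ∈ s, (Real.sqrt (k i) * w i) ^ 2 = ∑ i ∈ s, k i * w i ^ 2 :=
    fun w => Finset.sum_congr rfl fun i hi => by rw [mul_pow, Real.sq_sqrt (hk i hi)]
  rw [h3, h3] at h2
  have h4 : ∑ i ∈ s, k i * (u i * v i) =
      ∑ i ∈ s, Real.sqrt (k i) * u i * (Real.sqrt (k i) * v i) :=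
    Finset.sum_congr rfl fun i hi => by
      have := Real.mul_self_sqrt (hk i hi)
      calc k i * (u i * v i) = (Real.sqrt (k i) * Real.sqrt (k i)) * (u i * v i) := by rw [this]
        _ = _ := by ring
  rw [h4]; exact h2

theorem conj_dsum (F : X → X → ℂ) :
    conj (∑ a, ∑ b, F a b) = ∑ a, ∑ b, conj (F b a) := by
  simp only [map_sum]; rw [Finset.sum_comm]

namespace WK

variable {G : Matrix X X ℂ} {k : X → ℝ}

/-- the row sum -/
theorem row (h : WK G k) (x : X) : ∑ y, k y * ‖G x y‖ ^ 2 = (G x x).im := by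
  have h1 := h.hw x x
  have h2 : ∀ c, (k c : ℂ) * (conj (G x c) * G c x) = ((k c * ‖G x c‖ ^ 2 : ℝ) : ℂ) := fun c => by
    rw [h.hs c x, ← Complex.normSq_eq_conj_mul_self, Complex.normSq_eq_norm_sq]; push_cast; ring
  simp only [h2] at h1
  exact_mod_cast h1

theorem im_nonneg (h : WK G k) (x : X) : 0 ≤ (G x x).im := by
  rw [← h.row]; exact Finset.sum_nonneg fun y _ => mul_nonneg (h.hk y) (sq_nonneg _)

theorem row' (h : WK G k) (x : X) : ∑ y, k y * ‖G y x‖ ^ 2 = (G x x).im := by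
  rw [← h.row]; exact Finset.sum_congr rfl fun y _ => by rw [h.hs]

/-- one entry -/
theorem ent (h : WK G k) (x y : X) : k y * ‖G x y‖ ^ 2 ≤ (G x x).im := by
  rw [← h.row x]
  exact Finset.single_le_sum (f := fun y => k y * ‖G x y‖ ^ 2)
    (fun y _ => mul_nonneg (h.hk y) (sq_nonneg _)) (Finset.mem_univ y)

/-- the diagonal -/
theorem diag (h : WK G k) (x : X) : k x * (G x x).im ≤ 1 ∧ k x * ‖G x x‖ ≤ 1 := by
  have h1 := h.ent x x
  have h2 : (G x x).im ≤ ‖G x x‖ := (le_abs_self _).trans (Complex.abs_im_le_norm _)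
  have h4 : k x * ‖G x x‖ ≤ 1 := by
    by_contra hc
    have : 0 < ‖G x x‖ := by
      rcases (norm_nonneg (G x x)).lt_or_eq with h5 | h5
      · exact h5
      · rw [← h5, mul_zero] at hc; exact absurd zero_le_one hc
    nlinarith [not_le.mp hc]
  exact ⟨(mul_le_mul_of_nonneg_left h2 (h.hk x)).trans h4, h4⟩

/-- two sites -/
theorem ent2 (h : WK G k) (x y : X) : k x * k y * ‖G x y‖ ^ 2 ≤ 1 := by
  have h1 := mul_le_mul_of_nonneg_left (h.ent x y) (h.hk x)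
  have h2 := (h.diag x).1
  calc k x * k y * ‖G x y‖ ^ 2 = k x * (k y * ‖G x y‖ ^ 2) := by ring
    _ ≤ k x * (G x x).im := h1
    _ ≤ 1 := h2

/-- the imaginary part -/
theorem im_sq (h : WK G k) (x y : X) : (G x y).im ^ 2 ≤ (G x x).im * (G y y).im := by
  have h1 := cs_w Finset.univ k (fun i _ => h.hk i) (fun c => conj (G x c)) (fun c => G c y)
  rw [h.hw x y, Complex.norm_real, Real.norm_eq_abs, sq_abs] at h1
  simp only [RCLike.norm_conj] at h1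
  rwa [h.row, h.row'] at h1

/-- the sesquilinear form of `G^* k G` -/
theorem form (h : WK G k) (u v : X → ℂ) :
    ∑ x, (k x : ℂ) * (conj ((G *ᵥ u) x) * (G *ᵥ v) x) =
      ∑ a, ∑ b, conj (u a) * ((G a b).im : ℂ) * v b := by
  have h1 : ∀ x, (k x : ℂ) * (conj ((G *ᵥ u) x) * (G *ᵥ v) x) =
      ∑ a, ∑ b, conj (u a) * ((k x : ℂ) * (conj (G a x) * G x b)) * v b := fun x => by
    have e1 : conj ((G *ᵥ u) x) = ∑ a, conj (G a x) * conj (u a) := by
      simp only [Matrix.mulVec, dotProduct, map_sum, map_mul]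
      exact Finset.sum_congr rfl fun a _ => by rw [h.hs]
    have e2 : (G *ᵥ v) x = ∑ b, G x b * v b := rfl
    rw [e1, e2, Finset.sum_mul_sum, Finset.mul_sum]
    refine Finset.sum_congr rfl fun a _ => ?_
    rw [Finset.mul_sum]
    exact Finset.sum_congr rfl fun b _ => by ring
  simp only [h1]
  rw [Finset.sum_comm]
  refine Finset.sum_congr rfl fun a _ => ?_
  rw [Finset.sum_comm]
  refine Finset.sum_congr rfl fun b _ => ?_
  rw [← h.hw a b, Finset.mul_sum, Finset.sum_mul]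

/-- `G^* k G ≤ 1 / k` -/
theorem nrm (h : WK G k) (v : X → ℂ) :
    ∑ x, k x * ‖∑ y, G x y * ((k y : ℂ) * v y)‖ ^ 2 ≤ ∑ y, k y * ‖v y‖ ^ 2 := by
  set u : X → ℂ := fun y => (k y : ℂ) * v y with hu
  have e0 : ∀ x, ∑ y, G x y * ((k y : ℂ) * v y) = (G *ᵥ u) x := fun x => rfl
  simp only [e0]
  set S := ∑ x, k x * ‖(G *ᵥ u) x‖ ^ 2 with hS
  have hS0 : 0 ≤ S := Finset.sum_nonneg fun x _ => mul_nonneg (h.hk x) (sq_nonneg _)
  have e1 : (S : ℂ) = ∑ a, ∑ b, conj (u a) * ((G a b).im : ℂ) * u b := by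
    rw [← h.form, hS]; push_cast
    refine Finset.sum_congr rfl fun x _ => ?_
    rw [← Complex.normSq_eq_conj_mul_self, Complex.normSq_eq_norm_sq]; push_cast; ring
  -- `∑ conj u G u` has the imaginary part `S`
  have e2 : (∑ a, (k a : ℂ) * (conj (v a) * (G *ᵥ u) a)).im = S := by
    have e3 : ∑ a, (k a : ℂ) * (conj (v a) * (G *ᵥ u) a) = ∑ a, ∑ b, conj (u a) * G a b * u b := by
      refine Finset.sum_congr rfl fun a _ => ?_
      have : (G *ᵥ u) a = ∑ b, G a b * u b := rfl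
      rw [this, Finset.mul_sum, Finset.mul_sum]
      refine Finset.sum_congr rfl fun b _ => ?_
      simp only [hu, map_mul, Complex.conj_ofReal]; ring
    have e4 : conj (∑ a, ∑ b, conj (u a) * G a b * u b) =
        ∑ a, ∑ b, conj (u a) * conj (G a b) * u b := by
      rw [conj_dsum]
      refine Finset.sum_congr rfl fun a _ => Finset.sum_congr rfl fun b _ => ?_
      rw [map_mul, map_mul, Complex.conj_conj, h.hs a b]; ring
    have e5 : (S : ℂ) * (2 * Complex.I) = ∑ a, ∑ b, conj (u a) * G a b * u b -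
        conj (∑ a, ∑ b, conj (u a) * G a b * u b) := by
      rw [e4, e1, ← Finset.sum_sub_distrib, Finset.sum_mul]
      refine Finset.sum_congr rfl fun a _ => ?_
      rw [← Finset.sum_sub_distrib, Finset.sum_mul]
      refine Finset.sum_congr rfl fun b _ => ?_
      have : G a b - conj (G a b) = ((G a b).im : ℂ) * (2 * Complex.I) := by
        rw [Complex.sub_conj]; push_cast; ring
      linear_combination (-(conj (u a) * u b)) * this
    rw [e3]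
    rw [Complex.sub_conj] at e5
    rw [show (S : ℂ) * (2 * Complex.I) = ((2 * S : ℝ) : ℂ) * Complex.I by push_cast; ring] at e5
    have e6 := congrArg Complex.im e5
    rw [Complex.mul_I_im, Complex.mul_I_im, Complex.ofReal_re, Complex.ofReal_re] at e6
    linarith
  have e7 := cs_w Finset.univ k (fun i _ => h.hk i) (fun a => conj (v a)) (fun a => (G *ᵥ u) a)
  simp only [RCLike.norm_conj] at e7
  rw [← hS] at e7
  have e8 : S ^ 2 ≤ ‖∑ a, (k a : ℂ) * (conj (v a) * (G *ᵥ u) a)‖ ^ 2 := by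
    rw [← e2]
    exact (sq_abs _).symm.le.trans
      (pow_le_pow_left₀ (abs_nonneg _) (Complex.abs_im_le_norm _) 2)
  have e9 : S * S ≤ (∑ i, k i * ‖v i‖ ^ 2) * S := by
    calc S * S = S ^ 2 := by ring
      _ ≤ _ := e8.trans e7
  rcases hS0.lt_or_eq with h1 | h1
  · exact le_of_mul_le_mul_right e9 h1
  · rw [← h1]; exact Finset.sum_nonneg fun x _ => mul_nonneg (h.hk x) (sq_nonneg _)

/-- the same with `conj G` -/
theorem nrm' (h : WK G k) (v : X → ℂ) :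
    ∑ x, k x * ‖∑ y, conj (G x y) * ((k y : ℂ) * v y)‖ ^ 2 ≤ ∑ y, k y * ‖v y‖ ^ 2 := by
  have h1 := h.nrm fun y => conj (v y)
  simp only [RCLike.norm_conj] at h1
  refine le_trans (le_of_eq (Finset.sum_congr rfl fun x _ => ?_)) h1
  have e : ∑ y, conj (G x y) * ((k y : ℂ) * v y) =
      conj (∑ y, G x y * ((k y : ℂ) * conj (v y))) := by
    rw [map_sum]; exact Finset.sum_congr rfl fun y _ => by simp
  rw [e, RCLike.norm_conj]

end WK

/-- existence: the resolvent of a real symmetric matrix with the absorption `k > 0` -/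
theorem wk_inv (H : Matrix X X ℝ) (hH : ∀ a b, H a b = H b a) (k : X → ℝ) (hk : ∀ a, 0 < k a) :
    IsUnit (H.map (fun r : ℝ => (r : ℂ)) -
      Matrix.diagonal fun a => Complex.I * (k a : ℂ)).det ∧
    WK (H.map (fun r : ℝ => (r : ℂ)) - Matrix.diagonal fun a => Complex.I * (k a : ℂ))⁻¹ k := by
  set A : Matrix X X ℂ := H.map (fun r : ℝ => (r : ℂ)) -
      Matrix.diagonal fun a => Complex.I * (k a : ℂ) with hA
  have hAs : ∀ a b, A a b = A b a := fun a b => by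
    simp only [hA, Matrix.sub_apply, Matrix.map_apply, Matrix.diagonal_apply, hH a b]
    by_cases hab : a = b
    · subst hab; rfl
    · rw [if_neg hab, if_neg (Ne.symm hab)]
  have hdet : IsUnit A.det := by
    by_contra hc
    have h0 : A.det = 0 := by
      by_contra h1; exact hc (Ne.isUnit h1)
    obtain ⟨u, hu0, hu⟩ := Matrix.exists_mulVec_eq_zero_iff.mpr h0
    apply hu0
    have e1 : (∑ a, conj (u a) * (A *ᵥ u) a) = 0 := by
      rw [hu]; simp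
    have e2 : ∀ a, (A *ᵥ u) a = ∑ b, (H a b : ℂ) * u b - Complex.I * (k a : ℂ) * u a := fun a => by
      rw [hA, Matrix.sub_mulVec]
      simp [Matrix.mulVec, dotProduct, Matrix.diagonal_apply]
    have e3 : conj (∑ a, ∑ b, conj (u a) * ((H a b : ℂ) * u b)) =
        ∑ a, ∑ b, conj (u a) * ((H a b : ℂ) * u b) := by
      rw [conj_dsum]
      refine Finset.sum_congr rfl fun a _ => Finset.sum_congr rfl fun b _ => ?_
      rw [map_mul, map_mul, Complex.conj_conj, Complex.conj_ofReal, hH a b]; ring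
    have e4 : (∑ a, ∑ b, conj (u a) * ((H a b : ℂ) * u b)).im = 0 := by
      have := congrArg Complex.im e3; rw [Complex.conj_im] at this; linarith
    have e5 : (∑ a, conj (u a) * (A *ᵥ u) a).im = -∑ a, k a * ‖u a‖ ^ 2 := by
      have : (∑ a, conj (u a) * (A *ᵥ u) a) = (∑ a, ∑ b, conj (u a) * ((H a b : ℂ) * u b)) -
          Complex.I * ((∑ a, k a * ‖u a‖ ^ 2 : ℝ) : ℂ) := by
        push_cast
        rw [Finset.mul_sum, ← Finset.sum_sub_distrib]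
        refine Finset.sum_congr rfl fun a _ => ?_
        rw [e2, mul_sub, Finset.mul_sum]
        have : conj (u a) * u a = ((‖u a‖ ^ 2 : ℝ) : ℂ) := by
          rw [← Complex.normSq_eq_conj_mul_self, Complex.normSq_eq_norm_sq]
        push_cast at this
        rw [← this]; ring
      rw [this, Complex.sub_im, e4, zero_sub, Complex.I_mul_im, Complex.ofReal_re]
    rw [e1] at e5
    have e6 : ∑ a, k a * ‖u a‖ ^ 2 = 0 := by simpa using e5.symm
    rw [Finset.sum_eq_zero_iff_of_nonneg fun a _ => mul_nonneg (hk a).le (sq_nonneg _)] at e6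
    ext a
    have := e6 a (Finset.mem_univ a)
    rcases mul_eq_zero.mp this with h1 | h1
    · exact absurd h1 (hk a).ne'
    · simpa using h1
  refine ⟨hdet, fun a => (hk a).le, ?_, ?_⟩
  · intro a b
    have hT : Aᵀ = A := by ext i j; exact hAs j i
    have : (A⁻¹)ᵀ = A⁻¹ := by rw [Matrix.transpose_nonsing_inv, hT]
    exact (congrFun (congrFun this a) b).symm
  · have hT : Aᵀ = A := by ext i j; exact hAs j i
    have hGT : (A⁻¹)ᵀ = A⁻¹ := by rw [Matrix.transpose_nonsing_inv, hT]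
    have hsub : A - Aᴴ = -(2 * Complex.I) • Matrix.diagonal fun a => (k a : ℂ) := by
      ext a b
      rw [Matrix.sub_apply, Matrix.conjTranspose_apply, hAs b a]
      simp only [hA, Matrix.sub_apply, Matrix.map_apply, Matrix.diagonal_apply, Matrix.smul_apply,
        smul_eq_mul]
      by_cases hab : a = b
      · subst hab; simp; ring
      · simp [hab]
    have h1 : (A⁻¹)ᴴ - A⁻¹ = (A⁻¹)ᴴ * (A - Aᴴ) * A⁻¹ := by
      have hu' : IsUnit Aᴴ.det := by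
        rw [Matrix.det_conjTranspose]; exact hdet.star
      rw [Matrix.mul_sub, Matrix.sub_mul, Matrix.mul_assoc, Matrix.mul_nonsing_inv _ hdet,
        Matrix.mul_one, Matrix.conjTranspose_nonsing_inv, Matrix.nonsing_inv_mul _ hu',
        Matrix.one_mul]
    intro a b
    have h2 := congrFun (congrFun h1 a) b
    rw [hsub] at h2
    have h3 : ((A⁻¹)ᴴ * (-(2 * Complex.I) • Matrix.diagonal fun a => (k a : ℂ)) * A⁻¹) a b =
        -(2 * Complex.I) * ∑ c, (k c : ℂ) * (conj (A⁻¹ a c) * A⁻¹ c b) := by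
      rw [Matrix.mul_smul, Matrix.smul_mul, Matrix.smul_apply, smul_eq_mul, Matrix.mul_apply]
      congr 1
      refine Finset.sum_congr rfl fun c _ => ?_
      rw [Matrix.mul_diagonal, Matrix.conjTranspose_apply]
      have : A⁻¹ c a = A⁻¹ a c := congrFun (congrFun hGT a) c
      rw [this]; simp only [RCLike.star_def]; ring
    rw [h3, Matrix.sub_apply, Matrix.conjTranspose_apply] at h2
    have h4 : A⁻¹ b a = A⁻¹ a b := congrFun (congrFun hGT a) b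
    rw [h4] at h2
    have h5 : star (A⁻¹ a b) - A⁻¹ a b = -(2 * Complex.I) * ((A⁻¹ a b).im : ℂ) := by
      have := Complex.sub_conj (A⁻¹ a b)
      push_cast at this
      simp only [RCLike.star_def]
      linear_combination -this
    rw [h5] at h2
    have h6 : (-(2 * Complex.I)) ≠ (0 : ℂ) := by simp
    exact (mul_left_cancel₀ h6 h2).symm

end Pool.Agent.AWD
end
end -- Pool.Agent.AWD.War

section -- Pool.Agent.AWD.Nbd

/-!
# Block D1 of AND2B, part 2: the form, its derivative in one coordinate of the potential (NB)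
-/

set_option autoImplicit false

open scoped BigOperators ComplexConjugate Matrix

noncomputable section

namespace Pool.Agent.AWD

open Pool.Agent.LE.QF

variable {X : Type} [Fintype X] [DecidableEq X]

/-! ### Laplacians -/

theorem Dl_apply (K : Matrix X X ℝ) (f : X → ℝ) (a : X) :
    (Dl K *ᵥ f) a = ∑ b, K a b * (f a - f b) := by
  rw [Dl, Matrix.sub_mulVec]
  simp only [Pi.sub_apply, Matrix.mulVec_diagonal]
  simp only [Matrix.mulVec, dotProduct, Finset.sum_mul, ← Finset.sum_sub_distrib]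
  exact Finset.sum_congr rfl fun b _ => by ring

/-- the bilinear form of a Laplacian -/
theorem Dl_form (K : Matrix X X ℝ) (hK : ∀ a b, K a b = K b a) (f h : X → ℝ) :
    2 * ∑ a, h a * (Dl K *ᵥ f) a = ∑ a, ∑ b, K a b * ((f a - f b) * (h a - h b)) := by
  have h1 : ∑ a, h a * (Dl K *ᵥ f) a = ∑ a, ∑ b, K a b * ((f a - f b) * h a) :=
    Finset.sum_congr rfl fun a _ => by
      rw [Dl_apply, Finset.mul_sum]; exact Finset.sum_congr rfl fun b _ => by ring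
  have h2 : ∑ a, h a * (Dl K *ᵥ f) a = ∑ a, ∑ b, K a b * ((f b - f a) * h b) := by
    rw [h1, Finset.sum_comm]
    exact Finset.sum_congr rfl fun a _ => Finset.sum_congr rfl fun b _ => by rw [hK b a]
  rw [two_mul]
  nth_rewrite 1 [h1]
  rw [h2, ← Finset.sum_add_distrib]
  refine Finset.sum_congr rfl fun a _ => ?_
  rw [← Finset.sum_add_distrib]
  exact Finset.sum_congr rfl fun b _ => by ring

theorem Dl_sum (K : Matrix X X ℝ) (hK : ∀ a b, K a b = K b a) (f : X → ℝ) :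
    ∑ a, (Dl K *ᵥ f) a = 0 := by
  have := Dl_form K hK f fun _ => 1
  simp at this; exact this

theorem Dl_symm (K : Matrix X X ℝ) (hK : ∀ a b, K a b = K b a) (a b : X) : Dl K a b = Dl K b a := by
  simp only [Dl, Matrix.sub_apply, Matrix.diagonal_apply, hK a b]
  by_cases hab : a = b
  · subst hab; rfl
  · rw [if_neg hab, if_neg (Ne.symm hab)]

theorem KK_symm {G : Matrix X X ℂ} (hs : ∀ a b, G a b = G b a) (a b : X) : KK G a b = KK G b a := by
  rw [KK_apply, KK_apply, hs]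

theorem dK_symm {G : Matrix X X ℂ} (hs : ∀ a b, G a b = G b a) (c a b : X) :
    dK G c a b = dK G c b a := by
  simp only [dK]
  rw [hs a b, hs a c, hs c b]
  congr 3; ring

namespace WK

variable {G : Matrix X X ℂ} {k : X → ℝ}

theorem DD_nonneg (h : WK G k) (x : X) (f : X → ℝ) : 0 ≤ DD k G x f :=
  Finset.sum_nonneg fun y _ => mul_nonneg (mul_nonneg (h.hk y) (sq_nonneg _)) (sq_nonneg _)

/-- `D_x(f) = ∑_y k_y |G_yx|² (f_y - f_x)²` -/
theorem DD_eq (h : WK G k) (x : X) (f : X → ℝ) :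
    DD k G x f = ∑ y, k y * ‖G y x‖ ^ 2 * (f y - f x) ^ 2 :=
  Finset.sum_congr rfl fun y _ => by rw [h.hs x y]; ring

/-! ### the form -/

theorem EEsymm (h : WK G k) (a b : X) : EE k G a b = EE k G b a :=
  Dl_symm _ (fun a b => by rw [KK_symm h.hs a b]; ring) a b

theorem EE_apply (k : X → ℝ) (G : Matrix X X ℂ) (f : X → ℝ) (a : X) :
    (EE k G *ᵥ f) a = k a * ∑ b, k b * ‖G a b‖ ^ 2 * (f a - f b) := by
  rw [EE, Dl_apply, Finset.mul_sum]
  exact Finset.sum_congr rfl fun b _ => by rw [KK_apply]; ring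

/-- `2 E(f, f) = ∑ k_x D_x(f)` -/
theorem two_qf (h : WK G k) (f : X → ℝ) : 2 * qf (EE k G) f = ∑ x, k x * DD k G x f := by
  have h1 := Dl_form (fun a b => k a * KK G a b * k b)
    (fun a b => by rw [KK_symm h.hs a b]; ring) f f
  rw [qf, EE, h1]
  refine Finset.sum_congr rfl fun x _ => ?_
  rw [DD, Finset.mul_sum]
  exact Finset.sum_congr rfl fun y _ => by rw [KK_apply]; ring

theorem qf_nonneg (h : WK G k) (f : X → ℝ) : 0 ≤ qf (EE k G) f := by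
  have h1 := h.two_qf f
  have : 0 ≤ ∑ x, k x * DD k G x f :=
    Finset.sum_nonneg fun x _ => mul_nonneg (h.hk x) (h.DD_nonneg x f)
  linarith

theorem EE_one (h : WK G k) (a : X) (t : ℝ) : (EE k G *ᵥ fun _ => t) a = 0 := by
  rw [EE_apply]; simp

/-- `E(f, f) ≤ 2 ∑ k_x g_x f_x²` -/
theorem qf_le (h : WK G k) (f : X → ℝ) :
    qf (EE k G) f ≤ 2 * ∑ x, k x * (G x x).im * f x ^ 2 := by
  have h1 := h.two_qf f
  have h2 : ∑ x, k x * DD k G x f ≤ ∑ x, ∑ y, k x * (k y * ‖G x y‖ ^ 2) * (2 * f x ^ 2 + 2 * f y ^ 2) := by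
    refine Finset.sum_le_sum fun x _ => ?_
    rw [DD, Finset.mul_sum]
    refine Finset.sum_le_sum fun y _ => ?_
    have : (f x - f y) ^ 2 ≤ 2 * f x ^ 2 + 2 * f y ^ 2 := by nlinarith only [sq_nonneg (f x + f y)]
    calc k x * (k y * ‖G x y‖ ^ 2 * (f x - f y) ^ 2) = k x * (k y * ‖G x y‖ ^ 2) * (f x - f y) ^ 2 := by
          ring
      _ ≤ _ := mul_le_mul_of_nonneg_left this
          (mul_nonneg (h.hk x) (mul_nonneg (h.hk y) (sq_nonneg _)))
  have h3 : ∑ x, ∑ y, k x * (k y * ‖G x y‖ ^ 2) * (2 * f x ^ 2) =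
      2 * ∑ x, k x * (G x x).im * f x ^ 2 := by
    rw [Finset.mul_sum]
    refine Finset.sum_congr rfl fun x _ => ?_
    rw [← h.row x, Finset.mul_sum, Finset.sum_mul, Finset.mul_sum]
    exact Finset.sum_congr rfl fun y _ => by ring
  have h4 : ∑ x, ∑ y, k x * (k y * ‖G x y‖ ^ 2) * (2 * f y ^ 2) =
      2 * ∑ x, k x * (G x x).im * f x ^ 2 := by
    rw [Finset.sum_comm, ← h3]
    exact Finset.sum_congr rfl fun x _ => Finset.sum_congr rfl fun y _ => by rw [h.hs y x]; ring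
  have h5 : ∑ x, ∑ y, k x * (k y * ‖G x y‖ ^ 2) * (2 * f x ^ 2 + 2 * f y ^ 2) =
      4 * ∑ x, k x * (G x x).im * f x ^ 2 := by
    simp only [mul_add, Finset.sum_add_distrib]
    rw [h3, h4]; ring
  linarith only [h1, h2, h5]

/-- the running sites -/
theorem sum_DD (h : WK G k) (b : Finset X) (κ : ℝ) (hκ : 0 < κ) (hb : ∀ c ∈ b, κ ≤ k c)
    (f : X → ℝ) : ∑ c ∈ b, DD k G c f ≤ 2 / κ * qf (EE k G) f := by
  have h1 : κ * ∑ c ∈ b, DD k G c f ≤ ∑ c ∈ b, k c * DD k G c f := by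
    rw [Finset.mul_sum]
    exact Finset.sum_le_sum fun c hc => mul_le_mul_of_nonneg_right (hb c hc) (h.DD_nonneg c f)
  have h2 : ∑ c ∈ b, k c * DD k G c f ≤ ∑ c, k c * DD k G c f :=
    Finset.sum_le_sum_of_subset_of_nonneg (Finset.subset_univ b)
      fun c _ _ => mul_nonneg (h.hk c) (h.DD_nonneg c f)
  rw [← h.two_qf] at h2
  have h3 : κ * ∑ c ∈ b, DD k G c f ≤ 2 * qf (EE k G) f := h1.trans h2
  rw [div_mul_eq_mul_div, le_div_iff₀ hκ]; linarith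

/-! ### `β` -/

/-- the sum over the sources -/
theorem be_c (h : WK G k) (f : X → ℝ) (x : X) :
    ∑ c, k c * ‖be k G f x c‖ ^ 2 ≤ DD k G x f := by
  have h1 := h.nrm fun y => conj (G x y) * ((f x - f y : ℝ) : ℂ)
  refine le_trans (le_of_eq (Finset.sum_congr rfl fun c _ => ?_)) (h1.trans (le_of_eq ?_))
  · rw [be]
    congr 3
    exact Finset.sum_congr rfl fun y _ => by rw [h.hs y c]; ring
  · refine Finset.sum_congr rfl fun y _ => ?_
    rw [norm_mul, RCLike.norm_conj, Complex.norm_real, mul_pow, Real.norm_eq_abs, sq_abs]; ring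

/-- the supremum -/
theorem be_sup (h : WK G k) (f : X → ℝ) (x c : X) :
    ‖be k G f x c‖ ^ 2 ≤ (G c c).im * DD k G x f := by
  have h1 := cs_w Finset.univ k (fun i _ => h.hk i)
    (fun y => conj (G x y) * ((f x - f y : ℝ) : ℂ)) (fun y => G y c)
  have e1 : be k G f x c =
      ∑ y, (k y : ℂ) * (conj (G x y) * ((f x - f y : ℝ) : ℂ) * G y c) :=
    Finset.sum_congr rfl fun y _ => by ring
  rw [← e1, h.row'] at h1
  have e2 : ∑ y, k y * ‖conj (G x y) * ((f x - f y : ℝ) : ℂ)‖ ^ 2 = DD k G x f := by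
    refine Finset.sum_congr rfl fun y _ => ?_
    rw [norm_mul, RCLike.norm_conj, Complex.norm_real, mul_pow, Real.norm_eq_abs, sq_abs]; ring
  rw [e2] at h1
  linarith

/-- the sum over the targets -/
theorem be_x (h : WK G k) (f : X → ℝ) (c : X) :
    ∑ x, k x * ‖be k G f x c‖ ^ 2 ≤ 4 * DD k G c f := by
  have e1 : ∀ x, be k G f x c = ((f x - f c : ℝ) : ℂ) * ((G x c).im : ℂ) -
      ∑ y, conj (G x y) * ((k y : ℂ) * (G y c * ((f y - f c : ℝ) : ℂ))) := fun x => by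
    rw [be, ← h.hw x c, Finset.mul_sum, ← Finset.sum_sub_distrib]
    exact Finset.sum_congr rfl fun y _ => by push_cast; ring
  have h1 := h.nrm' fun y => G y c * ((f y - f c : ℝ) : ℂ)
  have e2 : ∑ y, k y * ‖G y c * ((f y - f c : ℝ) : ℂ)‖ ^ 2 = DD k G c f := by
    rw [h.DD_eq]
    refine Finset.sum_congr rfl fun y _ => ?_
    rw [norm_mul, Complex.norm_real, mul_pow, Real.norm_eq_abs, sq_abs]; ring
  rw [e2] at h1
  have h2 : ∑ x, k x * ‖((f x - f c : ℝ) : ℂ) * ((G x c).im : ℂ)‖ ^ 2 ≤ DD k G c f := by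
    rw [h.DD_eq]
    refine Finset.sum_le_sum fun x _ => ?_
    rw [norm_mul, Complex.norm_real, Complex.norm_real, mul_pow, Real.norm_eq_abs, sq_abs,
      Real.norm_eq_abs, sq_abs]
    have h3 : (G x c).im ^ 2 ≤ ‖G x c‖ ^ 2 := by
      rw [← sq_abs (G x c).im]
      exact pow_le_pow_left₀ (abs_nonneg _) (Complex.abs_im_le_norm _) 2
    calc k x * ((f x - f c) ^ 2 * (G x c).im ^ 2) = (k x * (f x - f c) ^ 2) * (G x c).im ^ 2 := by ring
      _ ≤ (k x * (f x - f c) ^ 2) * ‖G x c‖ ^ 2 :=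
          mul_le_mul_of_nonneg_left h3 (mul_nonneg (h.hk x) (sq_nonneg _))
      _ = _ := by ring
  have h3 : ∀ x, k x * ‖be k G f x c‖ ^ 2 ≤
      2 * (k x * ‖((f x - f c : ℝ) : ℂ) * ((G x c).im : ℂ)‖ ^ 2) +
      2 * (k x * ‖∑ y, conj (G x y) * ((k y : ℂ) * (G y c * ((f y - f c : ℝ) : ℂ)))‖ ^ 2) :=
    fun x => by
      rw [e1 x]
      set A := ((f x - f c : ℝ) : ℂ) * ((G x c).im : ℂ)
      set B := ∑ y, conj (G x y) * ((k y : ℂ) * (G y c * ((f y - f c : ℝ) : ℂ)))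
      have : ‖A - B‖ ^ 2 ≤ 2 * ‖A‖ ^ 2 + 2 * ‖B‖ ^ 2 := by
        have h4 := norm_sub_le A B
        have h5 : ‖A - B‖ ^ 2 ≤ (‖A‖ + ‖B‖) ^ 2 := pow_le_pow_left₀ (norm_nonneg _) h4 2
        nlinarith only [sq_nonneg (‖A‖ - ‖B‖), h5]
      nlinarith only [mul_le_mul_of_nonneg_left this (h.hk x)]
  refine (Finset.sum_le_sum fun x _ => h3 x).trans ?_
  rw [Finset.sum_add_distrib, ← Finset.mul_sum, ← Finset.mul_sum]
  linarith

/-! ### the derivative -/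

theorem EC_apply (h : WK G k) (c : X) (f : X → ℝ) (x : X) :
    (EC k G c *ᵥ f) x = -(2 * k x * (G x c * be k G f x c).re) := by
  rw [EC, Dl_apply, be, Finset.mul_sum, Complex.re_sum, Finset.mul_sum, ← Finset.sum_neg_distrib]
  refine Finset.sum_congr rfl fun y _ => ?_
  have e1 : G x c * ((k y : ℂ) * (conj (G x y) * G y c) * ((f x - f y : ℝ) : ℂ)) =
      ((k y * (f x - f y) : ℝ) : ℂ) * (conj (G x y) * G x c * G c y) := by
    rw [h.hs c y]; push_cast; ring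
  rw [e1, Complex.re_ofReal_mul]
  simp only [dK]; ring

theorem EC_sum (h : WK G k) (c : X) (f : X → ℝ) : ∑ x, (EC k G c *ᵥ f) x = 0 :=
  Dl_sum _ (fun a b => by rw [dK_symm h.hs c a b]; ring) f

theorem EC_symm (h : WK G k) (c a b : X) : EC k G c a b = EC k G c b a :=
  Dl_symm _ (fun a b => by rw [dK_symm h.hs c a b]; ring) a b

/-- NB, the white part, at the site `x` -/
theorem white (h : WK G k) (b : Finset X) (κ γ : ℝ) (hκ : 0 < κ) (hb : ∀ c ∈ b, κ ≤ k c)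
    (hγ : ∀ c ∈ b, (G c c).im ≤ γ) (f : X → ℝ) (x : X) :
    ∑ c ∈ b, (EC k G c *ᵥ f) x ^ 2 ≤
      4 * k x ^ 2 * Real.sqrt (∑ c ∈ b, (‖G x c‖ ^ 2) ^ 2) * Real.sqrt (γ / κ) * DD k G x f := by
  rcases b.eq_empty_or_nonempty with hbe | ⟨c₀, hc₀⟩
  · subst hbe; simp
  have hg : 0 ≤ γ := (h.im_nonneg c₀).trans (hγ c₀ hc₀)
  have hD := h.DD_nonneg x f
  have h1 : ∀ c ∈ b, (EC k G c *ᵥ f) x ^ 2 ≤
      4 * k x ^ 2 * (‖G x c‖ ^ 2 * ‖be k G f x c‖ ^ 2) := fun c _ => by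
    rw [h.EC_apply]
    have : |(G x c * be k G f x c).re| ≤ ‖G x c‖ * ‖be k G f x c‖ := by
      rw [← norm_mul]; exact Complex.abs_re_le_norm _
    have h2 : (G x c * be k G f x c).re ^ 2 ≤ (‖G x c‖ * ‖be k G f x c‖) ^ 2 := by
      rw [← sq_abs (G x c * be k G f x c).re]; exact pow_le_pow_left₀ (abs_nonneg _) this 2
    calc (-(2 * k x * (G x c * be k G f x c).re)) ^ 2 =
        4 * k x ^ 2 * (G x c * be k G f x c).re ^ 2 := by ring
      _ ≤ 4 * k x ^ 2 * (‖G x c‖ * ‖be k G f x c‖) ^ 2 :=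
          mul_le_mul_of_nonneg_left h2 (by positivity)
      _ = _ := by ring
  have h2 : ∑ c ∈ b, (‖be k G f x c‖ ^ 2) ^ 2 ≤ γ / κ * DD k G x f ^ 2 := by
    have h3 : ∀ c ∈ b, (‖be k G f x c‖ ^ 2) ^ 2 ≤
        γ * DD k G x f / κ * (k c * ‖be k G f x c‖ ^ 2) := fun c hc => by
      have h4 := (h.be_sup f x c).trans (mul_le_mul_of_nonneg_right (hγ c hc) hD)
      have h5 : ‖be k G f x c‖ ^ 2 ≤ k c / κ * ‖be k G f x c‖ ^ 2 := by
        have : 1 ≤ k c / κ := (one_le_div hκ).mpr (hb c hc)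
        nlinarith only [sq_nonneg ‖be k G f x c‖, this]
      calc (‖be k G f x c‖ ^ 2) ^ 2 = ‖be k G f x c‖ ^ 2 * ‖be k G f x c‖ ^ 2 := by ring
        _ ≤ (γ * DD k G x f) * (k c / κ * ‖be k G f x c‖ ^ 2) :=
            mul_le_mul h4 h5 (sq_nonneg _) ((sq_nonneg _).trans h4)
        _ = _ := by ring
    refine (Finset.sum_le_sum h3).trans ?_
    rw [← Finset.mul_sum]
    have h6 : ∑ c ∈ b, k c * ‖be k G f x c‖ ^ 2 ≤ DD k G x f :=
      (Finset.sum_le_sum_of_subset_of_nonneg (Finset.subset_univ b)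
        fun c _ _ => mul_nonneg (h.hk c) (sq_nonneg _)).trans (h.be_c f x)
    calc γ * DD k G x f / κ * ∑ c ∈ b, k c * ‖be k G f x c‖ ^ 2 ≤
        γ * DD k G x f / κ * DD k G x f := mul_le_mul_of_nonneg_left h6 (by positivity)
      _ = _ := by ring
  have h3 := Finset.sum_mul_sq_le_sq_mul_sq b (fun c => ‖G x c‖ ^ 2) (fun c => ‖be k G f x c‖ ^ 2)
  have h4 : ∑ c ∈ b, ‖G x c‖ ^ 2 * ‖be k G f x c‖ ^ 2 ≤
      Real.sqrt (∑ c ∈ b, (‖G x c‖ ^ 2) ^ 2) * (Real.sqrt (γ / κ) * DD k G x f) := by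
    have h5 : Real.sqrt (γ / κ * DD k G x f ^ 2) = Real.sqrt (γ / κ) * DD k G x f := by
      rw [Real.sqrt_mul' _ (sq_nonneg _), Real.sqrt_sq hD]
    rw [← h5, ← Real.sqrt_mul (Finset.sum_nonneg fun c _ => sq_nonneg _)]
    refine Real.le_sqrt_of_sq_le (h3.trans ?_)
    exact mul_le_mul_of_nonneg_left h2 (Finset.sum_nonneg fun c _ => sq_nonneg _)
  refine (Finset.sum_le_sum h1).trans ?_
  rw [← Finset.mul_sum]
  calc 4 * k x ^ 2 * ∑ c ∈ b, ‖G x c‖ ^ 2 * ‖be k G f x c‖ ^ 2 ≤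
      4 * k x ^ 2 * (Real.sqrt (∑ c ∈ b, (‖G x c‖ ^ 2) ^ 2) * (Real.sqrt (γ / κ) * DD k G x f)) :=
        mul_le_mul_of_nonneg_left h4 (by positivity)
    _ = _ := by ring

/-- NB, the smooth part -/
theorem smooth (h : WK G k) (c : X) (f u : X → ℝ) :
    (∑ x, u x * (EC k G c *ᵥ f) x) ^ 2 ≤ 16 * (DD k G c f * DD k G c u) := by
  have e1 : ∑ x, u x * (EC k G c *ᵥ f) x = ∑ x, (u x - u c) * (EC k G c *ᵥ f) x := by
    simp only [sub_mul, Finset.sum_sub_distrib]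
    rw [← Finset.mul_sum, h.EC_sum, mul_zero, sub_zero]
  rw [e1]
  have h1 : |∑ x, (u x - u c) * (EC k G c *ᵥ f) x| ≤
      2 * ∑ x, k x * (‖G x c‖ * |u x - u c| * ‖be k G f x c‖) := by
    rw [Finset.mul_sum]
    refine (Finset.abs_sum_le_sum_abs _ _).trans (Finset.sum_le_sum fun x _ => ?_)
    rw [h.EC_apply, abs_mul, abs_neg, abs_mul, abs_mul, abs_of_nonneg (h.hk x), abs_two]
    have : |(G x c * be k G f x c).re| ≤ ‖G x c‖ * ‖be k G f x c‖ := by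
      rw [← norm_mul]; exact Complex.abs_re_le_norm _
    calc |u x - u c| * (2 * k x * |(G x c * be k G f x c).re|) ≤
        |u x - u c| * (2 * k x * (‖G x c‖ * ‖be k G f x c‖)) := by
          refine mul_le_mul_of_nonneg_left (mul_le_mul_of_nonneg_left this ?_) (abs_nonneg _)
          exact mul_nonneg zero_le_two (h.hk x)
      _ = _ := by ring
  have h2 := cs_r Finset.univ k (fun i _ => h.hk i) (fun x => ‖G x c‖ * |u x - u c|)
    (fun x => ‖be k G f x c‖)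
  have e2 : ∑ x, k x * (‖G x c‖ * |u x - u c|) ^ 2 = DD k G c u := by
    rw [h.DD_eq]
    exact Finset.sum_congr rfl fun x _ => by rw [mul_pow, sq_abs]; ring
  rw [e2] at h2
  have h3 := h.be_x f c
  have hD := h.DD_nonneg c u
  calc (∑ x, (u x - u c) * (EC k G c *ᵥ f) x) ^ 2 =
      |∑ x, (u x - u c) * (EC k G c *ᵥ f) x| ^ 2 := (sq_abs _).symm
    _ ≤ (2 * ∑ x, k x * (‖G x c‖ * |u x - u c| * ‖be k G f x c‖)) ^ 2 :=
        pow_le_pow_left₀ (abs_nonneg _) h1 2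
    _ = 4 * (∑ x, k x * (‖G x c‖ * |u x - u c| * ‖be k G f x c‖)) ^ 2 := by ring
    _ ≤ 4 * (DD k G c u * ∑ x, k x * ‖be k G f x c‖ ^ 2) := by linarith only [h2]
    _ ≤ 4 * (DD k G c u * (4 * DD k G c f)) := by
        have := mul_le_mul_of_nonneg_left h3 hD; linarith
    _ = _ := by ring

/-- NB, the smooth part, for a positive semidefinite `S` -/
theorem smoothS (h : WK G k) (c : X) (f : X → ℝ) (S : Matrix X X ℝ)
    (hS : ∀ a b, S a b = S b a) (hS0 : ∀ u, 0 ≤ qf S u) :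
    qf S (EC k G c *ᵥ f) ≤
      32 * DD k G c f * (∑ x, k x * ‖G c x‖ ^ 2 * S x x + (G c c).im * S c c) := by
  set u := EC k G c *ᵥ f with hu
  set v := S *ᵥ u with hv
  set q := qf S u with hq
  have hq0 : 0 ≤ q := hS0 u
  -- `v_x² ≤ S_xx q`
  have hv2 : ∀ x, v x ^ 2 ≤ S x x * q := fun x => by
    have key : ∀ t : ℝ, 0 ≤ S x x * (t * t) + (2 * v x) * t + q := fun t => by
      have h1 := hS0 (u + t • Pi.single x 1)
      have e1 : qf S (u + t • Pi.single x 1) = S x x * (t * t) + (2 * v x) * t + q := by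
        have e2 : S *ᵥ (u + t • Pi.single x 1) = v + t • fun a => S a x := by
          rw [Matrix.mulVec_add, Matrix.mulVec_smul]
          congr 2
          ext a; simp
        simp only [qf, e2, Pi.add_apply, Pi.smul_apply, smul_eq_mul]
        have e3 : ∀ a, (u a + t * (Pi.single x 1 : X → ℝ) a) * (v a + t * S a x) =
            u a * v a + t * (u a * S a x) + (Pi.single x 1 : X → ℝ) a * (t * v a) +
            (Pi.single x 1 : X → ℝ) a * (t * t * S a x) := fun a => by ring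
        simp only [e3, Finset.sum_add_distrib]
        have e4 : ∀ w : X → ℝ, ∑ a, (Pi.single x 1 : X → ℝ) a * w a = w x := fun w => by
          simp [Pi.single_apply]
        rw [e4, e4, ← Finset.mul_sum]
        have e5 : ∑ a, u a * S a x = v x := by
          rw [hv]; simp only [Matrix.mulVec, dotProduct]
          exact Finset.sum_congr rfl fun a _ => by rw [hS x a]; ring
        rw [e5, hq, qf]; ring
      rw [e1] at h1; exact h1
    have := discrim_le_zero key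
    rw [discrim] at this; nlinarith only [this]
  have hq2 : q = ∑ x, v x * (EC k G c *ᵥ f) x := by
    rw [hq, qf]; exact Finset.sum_congr rfl fun a _ => by ring
  have h1 := h.smooth c f v
  rw [← hq2] at h1
  set A := ∑ x, k x * ‖G c x‖ ^ 2 * S x x + (G c c).im * S c c with hA
  have h2 : DD k G c v ≤ 2 * q * A := by
    have h3 : DD k G c v ≤ ∑ y, k y * ‖G c y‖ ^ 2 * (2 * (S c c * q) + 2 * (S y y * q)) := by
      refine Finset.sum_le_sum fun y _ => ?_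
      refine mul_le_mul_of_nonneg_left ?_ (mul_nonneg (h.hk y) (sq_nonneg _))
      nlinarith only [sq_nonneg (v c + v y), hv2 c, hv2 y]
    refine h3.trans (le_of_eq ?_)
    rw [hA, ← h.row c, Finset.sum_mul, ← Finset.sum_add_distrib, Finset.mul_sum]
    exact Finset.sum_congr rfl fun y _ => by ring
  have hD := h.DD_nonneg c f
  have h4 : q ^ 2 ≤ 16 * (DD k G c f * (2 * q * A)) :=
    h1.trans (mul_le_mul_of_nonneg_left (mul_le_mul_of_nonneg_left h2 hD) (by norm_num))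
  rcases hq0.lt_or_eq with h5 | h5
  · have : q * q ≤ q * (32 * DD k G c f * A) := by nlinarith only [h4]
    exact le_of_mul_le_mul_left this h5
  · rw [← h5]
    have hA0 : 0 ≤ A := by
      have hSd : ∀ x, 0 ≤ S x x := fun x => by
        have := hS0 (Pi.single x 1)
        simpa [qf, Pi.single_apply] using this
      exact add_nonneg (Finset.sum_nonneg fun x _ => mul_nonneg (mul_nonneg (h.hk x) (sq_nonneg _))
        (hSd x)) (mul_nonneg (h.im_nonneg c) (hSd c))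
    positivity

/-- NB, the smooth part, summed over the running sites -/
theorem smooth_sum (h : WK G k) (b : Finset X) (κ γ s : ℝ) (hκ : 0 < κ) (hb : ∀ c ∈ b, κ ≤ k c)
    (hg : 0 ≤ γ) (hγ : ∀ c ∈ b, (G c c).im ≤ γ) (hs : 0 ≤ s) (f : X → ℝ) (S : Matrix X X ℝ)
    (hS : ∀ a b, S a b = S b a) (hS0 : ∀ u, 0 ≤ qf S u) (hSd : ∀ x, S x x ≤ s) :
    ∑ c ∈ b, qf S (EC k G c *ᵥ f) ≤ 128 * s * γ / κ * qf (EE k G) f := by
  have h1 : ∀ c ∈ b, qf S (EC k G c *ᵥ f) ≤ 64 * s * γ * DD k G c f := fun c hc => by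
    refine (h.smoothS c f S hS hS0).trans ?_
    have hD := h.DD_nonneg c f
    have h2 : ∑ x, k x * ‖G c x‖ ^ 2 * S x x ≤ (G c c).im * s := by
      rw [← h.row c, Finset.sum_mul]
      exact Finset.sum_le_sum fun x _ => mul_le_mul_of_nonneg_left (hSd x)
        (mul_nonneg (h.hk x) (sq_nonneg _))
    have h3 : (G c c).im * S c c ≤ (G c c).im * s :=
      mul_le_mul_of_nonneg_left (hSd c) (h.im_nonneg c)
    have h4 : (G c c).im * s ≤ γ * s := mul_le_mul_of_nonneg_right (hγ c hc) hs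
    calc 32 * DD k G c f * (∑ x, k x * ‖G c x‖ ^ 2 * S x x + (G c c).im * S c c) ≤
        32 * DD k G c f * (2 * (γ * s)) :=
          mul_le_mul_of_nonneg_left (by linarith) (by positivity)
      _ = _ := by ring
  refine (Finset.sum_le_sum h1).trans ?_
  rw [← Finset.mul_sum]
  calc 64 * s * γ * ∑ c ∈ b, DD k G c f ≤ 64 * s * γ * (2 / κ * qf (EE k G) f) :=
        mul_le_mul_of_nonneg_left (h.sum_DD b κ hκ hb f) (by positivity)
    _ = _ := by ring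

/-- NB, the white part, summed with weights -/
theorem white_sum (h : WK G k) (b : Finset X) (κ γ ν : ℝ) (hκ : 0 < κ) (hb : ∀ c ∈ b, κ ≤ k c)
    (hγ : ∀ c ∈ b, (G c c).im ≤ γ) (r : X → ℝ) (hr : ∀ x, 0 ≤ r x)
    (hν : ∀ x, r x * k x * Real.sqrt (∑ c ∈ b, (‖G x c‖ ^ 2) ^ 2) * Real.sqrt (γ / κ) ≤ ν)
    (f : X → ℝ) :
    ∑ c ∈ b, ∑ x, r x * (EC k G c *ᵥ f) x ^ 2 ≤ 8 * ν * qf (EE k G) f := by
  rw [Finset.sum_comm]
  have h1 : ∀ x, ∑ c ∈ b, r x * (EC k G c *ᵥ f) x ^ 2 ≤ 4 * ν * (k x * DD k G x f) := fun x => by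
    rw [← Finset.mul_sum]
    have h2 := mul_le_mul_of_nonneg_left (h.white b κ γ hκ hb hγ f x) (hr x)
    refine h2.trans ?_
    have h3 := mul_le_mul_of_nonneg_right (hν x) (mul_nonneg (h.hk x) (h.DD_nonneg x f))
    calc r x * (4 * k x ^ 2 * Real.sqrt (∑ c ∈ b, (‖G x c‖ ^ 2) ^ 2) * Real.sqrt (γ / κ) *
          DD k G x f) = 4 * (r x * k x * Real.sqrt (∑ c ∈ b, (‖G x c‖ ^ 2) ^ 2) *
            Real.sqrt (γ / κ) * (k x * DD k G x f)) := by ring
      _ ≤ 4 * (ν * (k x * DD k G x f)) := by linarith only [h3]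
      _ = _ := by ring
  refine (Finset.sum_le_sum fun x _ => h1 x).trans ?_
  rw [← Finset.mul_sum, ← h.two_qf]
  exact le_of_eq (by ring)

end WK

end Pool.Agent.AWD
end
end -- Pool.Agent.AWD.Nbd

section -- Pool.Agent.AWD.Dri

/-!
# Block D1 of AND2B, part 3: the drift of the form (DR)

`b` is the set of the running sites, `ρ_c` the speed of `k_c` (zero outside of `b`), `μ` the fluctuation
of the diagonal (zero outside of `b`), so `L G = G μ G`, `k' = - ρ`. The conductances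
`k_x |G_xy|² k_y` then have the drift `CD`.
-/

set_option autoImplicit false

open scoped BigOperators ComplexConjugate Matrix

noncomputable section

namespace Pool.Agent.AWD

open Pool.Agent.LE.QF

variable {X : Type} [Fintype X] [DecidableEq X]

/-- the drift of the conductances -/
def CD (k ρ : X → ℝ) (G : Matrix X X ℂ) (μ : X → ℂ) (b : Finset X) : Matrix X X ℝ :=
  fun x y => k x * (∑ c ∈ b, KK G x c * KK G c y + EK G μ x y) * k y -
    (ρ x * KK G x y * k y + k x * KK G x y * ρ y)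

theorem GD_apply (G : Matrix X X ℂ) (μ : X → ℂ) (x y : X) :
    GD G μ x y = ∑ c, G x c * μ c * G c y := by
  rw [GD, Matrix.mul_apply]
  exact Finset.sum_congr rfl fun c _ => by rw [Matrix.mul_diagonal]

theorem GD_symm {G : Matrix X X ℂ} (hs : ∀ a b, G a b = G b a) (μ : X → ℂ) (x y : X) :
    GD G μ x y = GD G μ y x := by
  rw [GD_apply, GD_apply]
  exact Finset.sum_congr rfl fun c _ => by rw [hs x c, hs c y]; ring

theorem EK_symm {G : Matrix X X ℂ} (hs : ∀ a b, G a b = G b a) (μ : X → ℂ) (x y : X) :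
    EK G μ x y = EK G μ y x := by
  simp only [EK]; rw [hs x y, GD_symm hs μ x y]

theorem CD_symm {G : Matrix X X ℂ} (hs : ∀ a b, G a b = G b a) (k ρ : X → ℝ) (μ : X → ℂ)
    (b : Finset X) (x y : X) : CD k ρ G μ b x y = CD k ρ G μ b y x := by
  simp only [CD]
  rw [EK_symm hs μ x y, KK_symm hs x y]
  have : ∑ c ∈ b, KK G x c * KK G c y = ∑ c ∈ b, KK G y c * KK G c x :=
    Finset.sum_congr rfl fun c _ => by rw [KK_symm hs x c, KK_symm hs c y]; ring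
  rw [this]; ring

/-- the part of the gauge error: `∑_x,y k_x EK_xy k_y (f_x - f_y)² / 2` -/
def eK (k : X → ℝ) (G : Matrix X X ℂ) (μ : X → ℂ) (f : X → ℝ) : ℝ :=
  qf (Dl fun x y => k x * EK G μ x y * k y) f

theorem qf_Dl (K : Matrix X X ℝ) (hK : ∀ a b, K a b = K b a) (f : X → ℝ) :
    2 * qf (Dl K) f = ∑ a, ∑ b, K a b * (f a - f b) ^ 2 := by
  rw [qf, Dl_form K hK]
  exact Finset.sum_congr rfl fun a _ => Finset.sum_congr rfl fun b _ => by ring

namespace WK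

variable {G : Matrix X X ℂ} {k : X → ℝ}

/-- `eK = 2 Re ∑_c μ_c ∑_x k_x (f_x - f_c) G_xc β_xc` -/
theorem eK_eq (h : WK G k) (μ : X → ℂ) (f : X → ℝ) :
    eK k G μ f = 2 * (∑ c, μ c * ∑ x, (k x : ℂ) * (((f x - f c : ℝ) : ℂ) * G x c *
      be k G f x c)).re := by
  have h1 : 2 * eK k G μ f = ∑ x, ∑ y, (k x * k y * (f x - f y) ^ 2) * EK G μ x y := by
    rw [eK, qf_Dl _ (fun a b => by rw [EK_symm h.hs μ a b]; ring)]
    exact Finset.sum_congr rfl fun a _ => Finset.sum_congr rfl fun b _ => by ring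
  -- write everything as the real part of a triple sum
  have h2 : ∑ x, ∑ y, (k x * k y * (f x - f y) ^ 2) * EK G μ x y =
      2 * (∑ x, ∑ y, ∑ c, (k x : ℂ) * (k y : ℂ) * ((f x - f y : ℝ) : ℂ) * ((f x - f y : ℝ) : ℂ) *
        (conj (G x y) * (G x c * μ c * G c y))).re := by
    rw [Complex.re_sum, Finset.mul_sum]
    refine Finset.sum_congr rfl fun x _ => ?_
    rw [Complex.re_sum, Finset.mul_sum]
    refine Finset.sum_congr rfl fun y _ => ?_
    have : ∑ c, (k x : ℂ) * (k y : ℂ) * ((f x - f y : ℝ) : ℂ) * ((f x - f y : ℝ) : ℂ) *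
        (conj (G x y) * (G x c * μ c * G c y)) =
        ((k x * k y * (f x - f y) ^ 2 : ℝ) : ℂ) * (conj (G x y) * GD G μ x y) := by
      rw [GD_apply, Finset.mul_sum, Finset.mul_sum]
      exact Finset.sum_congr rfl fun c _ => by push_cast; ring
    rw [this, Complex.re_ofReal_mul]
    simp only [EK]; ring
  have h3 : ∑ x, ∑ y, ∑ c, (k x : ℂ) * (k y : ℂ) * ((f x - f y : ℝ) : ℂ) * ((f x - f y : ℝ) : ℂ) *
        (conj (G x y) * (G x c * μ c * G c y)) =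
      2 * ∑ c, μ c * ∑ x, (k x : ℂ) * (((f x - f c : ℝ) : ℂ) * G x c * be k G f x c) := by
    have e1 : ∑ c, μ c * ∑ x, (k x : ℂ) * (((f x - f c : ℝ) : ℂ) * G x c * be k G f x c) =
        ∑ x, ∑ y, ∑ c, (k x : ℂ) * (k y : ℂ) * ((f x - f y : ℝ) : ℂ) * ((f x - f c : ℝ) : ℂ) *
        (conj (G x y) * (G x c * μ c * G c y)) := by
      simp only [be, Finset.mul_sum]
      rw [Finset.sum_comm]
      refine Finset.sum_congr rfl fun x _ => ?_
      rw [Finset.sum_comm]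
      refine Finset.sum_congr rfl fun y _ => Finset.sum_congr rfl fun c _ => ?_
      rw [h.hs y c]; ring
    have e2 : ∑ c, μ c * ∑ x, (k x : ℂ) * (((f x - f c : ℝ) : ℂ) * G x c * be k G f x c) =
        ∑ x, ∑ y, ∑ c, (k x : ℂ) * (k y : ℂ) * ((f x - f y : ℝ) : ℂ) * ((f c - f y : ℝ) : ℂ) *
        (conj (G x y) * (G x c * μ c * G c y)) := by
      rw [e1, Finset.sum_comm]
      refine Finset.sum_congr rfl fun x _ => Finset.sum_congr rfl fun y _ =>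
        Finset.sum_congr rfl fun c _ => ?_
      rw [h.hs y x, h.hs y c, h.hs c x]; push_cast; ring
    rw [two_mul]
    nth_rewrite 1 [e1]
    rw [e2, ← Finset.sum_add_distrib]
    refine Finset.sum_congr rfl fun x _ => ?_
    rw [← Finset.sum_add_distrib]
    refine Finset.sum_congr rfl fun y _ => ?_
    rw [← Finset.sum_add_distrib]
    refine Finset.sum_congr rfl fun c _ => ?_
    push_cast; ring
  rw [h3] at h2
  have h4 : (2 * ∑ c, μ c * ∑ x, (k x : ℂ) * (((f x - f c : ℝ) : ℂ) * G x c * be k G f x c)).re =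
      2 * (∑ c, μ c * ∑ x, (k x : ℂ) * (((f x - f c : ℝ) : ℂ) * G x c * be k G f x c)).re := by
    simp
  rw [h4] at h2
  linarith

/-- the gauge error is relatively small -/
theorem eK_le (h : WK G k) (b : Finset X) (μ : X → ℂ) (hμ : ∀ c, c ∉ b → μ c = 0) (f : X → ℝ) :
    |eK k G μ f| ≤ 4 * ∑ c ∈ b, ‖μ c‖ * DD k G c f := by
  rw [h.eK_eq, abs_mul, abs_two]
  have h1 : ∑ c, μ c * ∑ x, (k x : ℂ) * (((f x - f c : ℝ) : ℂ) * G x c * be k G f x c) =
      ∑ c ∈ b, μ c * ∑ x, (k x : ℂ) * (((f x - f c : ℝ) : ℂ) * G x c * be k G f x c) := by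
    symm
    exact Finset.sum_subset (Finset.subset_univ b) fun c _ hc => by rw [hμ c hc, zero_mul]
  rw [h1]
  have h2 : ∀ c, ‖∑ x, (k x : ℂ) * (((f x - f c : ℝ) : ℂ) * G x c * be k G f x c)‖ ≤
      2 * DD k G c f := fun c => by
    have h3 := cs_w Finset.univ k (fun i _ => h.hk i) (fun x => ((f x - f c : ℝ) : ℂ) * G x c)
      (fun x => be k G f x c)
    have e3 : ∑ x, k x * ‖((f x - f c : ℝ) : ℂ) * G x c‖ ^ 2 = DD k G c f := by
      rw [h.DD_eq]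
      refine Finset.sum_congr rfl fun x _ => ?_
      rw [norm_mul, Complex.norm_real, mul_pow, Real.norm_eq_abs, sq_abs]; ring
    rw [e3] at h3
    have hD := h.DD_nonneg c f
    have h4 : ‖∑ x, (k x : ℂ) * (((f x - f c : ℝ) : ℂ) * G x c * be k G f x c)‖ ^ 2 ≤
        (2 * DD k G c f) ^ 2 := by
      refine h3.trans ?_
      have := mul_le_mul_of_nonneg_left (h.be_x f c) hD
      calc _ ≤ DD k G c f * (4 * DD k G c f) := this
        _ = _ := by ring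
    exact le_of_sq_le_sq h4 (by positivity)
  have h3 : |(∑ c ∈ b, μ c * ∑ x, (k x : ℂ) * (((f x - f c : ℝ) : ℂ) * G x c *
      be k G f x c)).re| ≤ ∑ c ∈ b, ‖μ c‖ * (2 * DD k G c f) := by
    refine (Complex.abs_re_le_norm _).trans ((norm_sum_le _ _).trans ?_)
    refine Finset.sum_le_sum fun c _ => ?_
    rw [norm_mul]
    exact mul_le_mul_of_nonneg_left (h2 c) (norm_nonneg _)
  calc 2 * |(∑ c ∈ b, μ c * ∑ x, (k x : ℂ) * (((f x - f c : ℝ) : ℂ) * G x c *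
        be k G f x c)).re| ≤ 2 * ∑ c ∈ b, ‖μ c‖ * (2 * DD k G c f) := by linarith
    _ = 4 * ∑ c ∈ b, ‖μ c‖ * DD k G c f := by
        rw [Finset.mul_sum, Finset.mul_sum]; exact Finset.sum_congr rfl fun c _ => by ring

/-- DR: the exact drift -/
theorem drift (h : WK G k) (b : Finset X) (ρ : X → ℝ) (hρ : ∀ c, c ∉ b → ρ c = 0) (μ : X → ℂ)
    (f : X → ℝ) :
    qf (Dl (CD k ρ G μ b)) f =
      -∑ c ∈ b, (∑ y, k y * ‖G c y‖ ^ 2 * (f c - f y)) ^ 2 +
        ∑ c ∈ b, ((G c c).im - ρ c) * DD k G c f + eK k G μ f := by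
  have h1 := qf_Dl _ (CD_symm h.hs k ρ μ b) f
  have h2 := qf_Dl (fun x y => k x * EK G μ x y * k y)
    (fun a b => by rw [EK_symm h.hs μ a b]; ring) f
  have h3 : ∑ x, ∑ y, k x * (∑ c ∈ b, KK G x c * KK G c y) * k y * (f x - f y) ^ 2 =
      2 * ∑ c ∈ b, (G c c).im * DD k G c f -
        2 * ∑ c ∈ b, (∑ y, k y * ‖G c y‖ ^ 2 * (f c - f y)) ^ 2 := by
    have e1 : ∑ x, ∑ y, k x * (∑ c ∈ b, KK G x c * KK G c y) * k y * (f x - f y) ^ 2 =
        ∑ c ∈ b, ∑ x, ∑ y, k x * (KK G x c * KK G c y) * k y * (f x - f y) ^ 2 := by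
      calc _ = ∑ x, ∑ y, ∑ c ∈ b, k x * (KK G x c * KK G c y) * k y * (f x - f y) ^ 2 :=
            Finset.sum_congr rfl fun x _ => Finset.sum_congr rfl fun y _ => by
              rw [Finset.mul_sum, Finset.sum_mul, Finset.sum_mul]
        _ = ∑ x, ∑ c ∈ b, ∑ y, k x * (KK G x c * KK G c y) * k y * (f x - f y) ^ 2 :=
            Finset.sum_congr rfl fun x _ => Finset.sum_comm
        _ = _ := Finset.sum_comm
    rw [e1, Finset.mul_sum, Finset.mul_sum, ← Finset.sum_sub_distrib]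
    refine Finset.sum_congr rfl fun c _ => ?_
    have e2 : ∀ x y, k x * (KK G x c * KK G c y) * k y * (f x - f y) ^ 2 =
        (k x * ‖G c x‖ ^ 2 * (f c - f x) ^ 2) * (k y * ‖G c y‖ ^ 2) +
        (k x * ‖G c x‖ ^ 2) * (k y * ‖G c y‖ ^ 2 * (f c - f y) ^ 2) -
        2 * ((k x * ‖G c x‖ ^ 2 * (f c - f x)) * (k y * ‖G c y‖ ^ 2 * (f c - f y))) := fun x y => by
      rw [KK_apply, KK_apply, h.hs x c]; ring
    simp only [e2, Finset.sum_add_distrib, Finset.sum_sub_distrib, ← Finset.mul_sum,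
      ← Finset.sum_mul]
    rw [h.row c]
    simp only [DD]; ring
  have h4 : ∑ x, ∑ y, (ρ x * KK G x y * k y + k x * KK G x y * ρ y) * (f x - f y) ^ 2 =
      2 * ∑ c ∈ b, ρ c * DD k G c f := by
    have e0 : ∑ c, ρ c * DD k G c f = ∑ c ∈ b, ρ c * DD k G c f := by
      symm
      exact Finset.sum_subset (Finset.subset_univ b) fun c _ hc => by rw [hρ c hc, zero_mul]
    have e1 : ∑ x, ∑ y, ρ x * KK G x y * k y * (f x - f y) ^ 2 = ∑ c, ρ c * DD k G c f := by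
      refine Finset.sum_congr rfl fun x _ => ?_
      rw [DD, Finset.mul_sum]
      exact Finset.sum_congr rfl fun y _ => by rw [KK_apply]; ring
    have e2 : ∑ x, ∑ y, k x * KK G x y * ρ y * (f x - f y) ^ 2 = ∑ c, ρ c * DD k G c f := by
      rw [Finset.sum_comm, ← e1]
      exact Finset.sum_congr rfl fun x _ => Finset.sum_congr rfl fun y _ => by
        rw [KK_symm h.hs y x]; ring
    simp only [add_mul, Finset.sum_add_distrib]
    rw [e1, e2, e0]; ring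
  have h5 : ∑ x, ∑ y, CD k ρ G μ b x y * (f x - f y) ^ 2 =
      ∑ x, ∑ y, k x * (∑ c ∈ b, KK G x c * KK G c y) * k y * (f x - f y) ^ 2 +
      ∑ x, ∑ y, k x * EK G μ x y * k y * (f x - f y) ^ 2 -
      ∑ x, ∑ y, (ρ x * KK G x y * k y + k x * KK G x y * ρ y) * (f x - f y) ^ 2 := by
    rw [← Finset.sum_add_distrib, ← Finset.sum_sub_distrib]
    refine Finset.sum_congr rfl fun x _ => ?_
    rw [← Finset.sum_add_distrib, ← Finset.sum_sub_distrib]
    refine Finset.sum_congr rfl fun y _ => ?_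
    simp only [CD]; ring
  rw [h5, h3, h4, ← h2] at h1
  have h6 : ∑ c ∈ b, ((G c c).im - ρ c) * DD k G c f =
      ∑ c ∈ b, (G c c).im * DD k G c f - ∑ c ∈ b, ρ c * DD k G c f := by
    rw [← Finset.sum_sub_distrib]; exact Finset.sum_congr rfl fun c _ => by ring
  rw [h6]
  simp only [eK]
  linarith

/-- DR with the error: the drift of the form is `- E k^(-2) E` on the running sites up to
`5 ∑ |μ_c| D_c` -/
theorem drift_err (h : WK G k) (b : Finset X) (ρ : X → ℝ) (hρ : ∀ c, c ∉ b → ρ c = 0)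
    (μ : X → ℂ) (hμ : ∀ c, c ∉ b → μ c = 0) (hμ' : ∀ c ∈ b, (μ c).im = (G c c).im - ρ c)
    (f : X → ℝ) :
    |qf (Dl (CD k ρ G μ b)) f + ∑ c ∈ b, (∑ y, k y * ‖G c y‖ ^ 2 * (f c - f y)) ^ 2| ≤
      5 * ∑ c ∈ b, ‖μ c‖ * DD k G c f := by
  rw [h.drift b ρ hρ μ f]
  have h1 := h.eK_le b μ hμ f
  have h2 : |∑ c ∈ b, ((G c c).im - ρ c) * DD k G c f| ≤ ∑ c ∈ b, ‖μ c‖ * DD k G c f := by
    refine (Finset.abs_sum_le_sum_abs _ _).trans (Finset.sum_le_sum fun c hc => ?_)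
    rw [abs_mul, abs_of_nonneg (h.DD_nonneg c f), ← hμ' c hc]
    exact mul_le_mul_of_nonneg_right (Complex.abs_im_le_norm _) (h.DD_nonneg c f)
  set A := ∑ c ∈ b, (∑ y, k y * ‖G c y‖ ^ 2 * (f c - f y)) ^ 2
  set B := ∑ c ∈ b, ((G c c).im - ρ c) * DD k G c f
  set C := ∑ c ∈ b, ‖μ c‖ * DD k G c f
  have h3 : -A + B + eK k G μ f + A = B + eK k G μ f := by ring
  rw [h3]
  have := abs_add_le B (eK k G μ f)
  linarith

/-- the same with the supremum of the fluctuation -/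
theorem drift_sup (h : WK G k) (b : Finset X) (ρ : X → ℝ) (hρ : ∀ c, c ∉ b → ρ c = 0)
    (μ : X → ℂ) (hμ : ∀ c, c ∉ b → μ c = 0) (hμ' : ∀ c ∈ b, (μ c).im = (G c c).im - ρ c)
    (κ δ : ℝ) (hκ : 0 < κ) (hb : ∀ c ∈ b, κ ≤ k c) (hδ : 0 ≤ δ) (hμδ : ∀ c ∈ b, ‖μ c‖ ≤ δ)
    (f : X → ℝ) :
    |qf (Dl (CD k ρ G μ b)) f + ∑ c ∈ b, ((EE k G *ᵥ f) c / k c) ^ 2| ≤
      10 * δ / κ * qf (EE k G) f := by
  have h1 := h.drift_err b ρ hρ μ hμ hμ' f
  have h2 : ∀ c ∈ b, ((EE k G *ᵥ f) c / k c) ^ 2 = (∑ y, k y * ‖G c y‖ ^ 2 * (f c - f y)) ^ 2 :=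
    fun c hc => by
      rw [EE_apply, mul_div_cancel_left₀ _ (hκ.trans_le (hb c hc)).ne']
  rw [Finset.sum_congr rfl h2]
  refine h1.trans ?_
  have h3 : ∑ c ∈ b, ‖μ c‖ * DD k G c f ≤ δ * ∑ c ∈ b, DD k G c f := by
    rw [Finset.mul_sum]
    exact Finset.sum_le_sum fun c hc => mul_le_mul_of_nonneg_right (hμδ c hc) (h.DD_nonneg c f)
  have h4 := mul_le_mul_of_nonneg_left (h.sum_DD b κ hκ hb f) hδ
  calc 5 * ∑ c ∈ b, ‖μ c‖ * DD k G c f ≤ 5 * (δ * (2 / κ * qf (EE k G) f)) := by linarith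
    _ = _ := by ring

end WK

end Pool.Agent.AWD
end
end -- Pool.Agent.AWD.Dri

section -- Pool.Agent.Helper48_AN2.LAD

/-!
# P1: the ladder, and the consequences of `U < 1`
-/

set_option autoImplicit false
set_option linter.unusedSectionVars false

open MeasureTheory ProbabilityTheory Function Filter

open scoped ENNReal BigOperators Topology NNReal ComplexOrder Matrix

noncomputable section

namespace Pool.Agent.AN2.H48

open Pool.Agent.Anderson hiding box mem_box card_box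
open Pool.Agent.Loc Pool.Agent.Mob Pool.Agent.Helper54.Bal
  Pool.Agent.Helper96.EXP Pool.Agent.BED
open Pool.Agent.LE.MN Pool.Agent.LE.CL Pool.Agent.LE.IR Pool.Agent.LE.QD
open Pool.Agent.LE.QF Pool.Agent.LE.QF.H40

variable {X : Type} [Fintype X] [DecidableEq X]

theorem dot_comm' (f g : X → ℝ) : f ⬝ᵥ g = g ⬝ᵥ f := dotProduct_comm f g

theorem qf_sub' {A : Matrix X X ℝ} (hA : Aᵀ = A) (u w : X → ℝ) :
    qf A (u - w) = qf A u - 2 * (u ⬝ᵥ (A *ᵥ w)) + qf A w := by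
  have h1 : w ⬝ᵥ (A *ᵥ u) = u ⬝ᵥ (A *ᵥ w) := by rw [sym_dot hA, dotProduct_comm]
  rw [qf_dot, qf_dot, qf_dot, Matrix.mulVec_sub, sub_dotProduct, dotProduct_sub, dotProduct_sub,
    h1]
  ring

/-- the inverse is antitone -/
theorem inv_anti {A A' B B' : Matrix X X ℝ} (hA : Aᵀ = A) (h1 : A * A' = 1) (h2 : B * B' = 1)
    (h0 : ∀ f, 0 ≤ qf A f) (hAB : ∀ f, qf A f ≤ qf B f) (f : X → ℝ) : qf B' f ≤ qf A' f := by
  have hu : B *ᵥ (B' *ᵥ f) = f := by rw [Matrix.mulVec_mulVec, h2, Matrix.one_mulVec]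
  have hw : A *ᵥ (A' *ᵥ f) = f := by rw [Matrix.mulVec_mulVec, h1, Matrix.one_mulVec]
  have h3 := h0 (B' *ᵥ f - A' *ᵥ f)
  rw [qf_sub' hA, hw] at h3
  have h4 := hAB (B' *ᵥ f)
  have h5 : qf B (B' *ᵥ f) = (B' *ᵥ f) ⬝ᵥ f := by rw [qf_dot, hu]
  have h6 : qf A (A' *ᵥ f) = (A' *ᵥ f) ⬝ᵥ f := by rw [qf_dot, hw]
  have h7 : qf B' f = (B' *ᵥ f) ⬝ᵥ f := by rw [qf_dot, dotProduct_comm]
  have h8 : qf A' f = (A' *ᵥ f) ⬝ᵥ f := by rw [qf_dot, dotProduct_comm]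
  rw [h7, h8]
  linarith

theorem inv_sym {A A' : Matrix X X ℝ} (hA : Aᵀ = A) (h1 : A * A' = 1) : A'ᵀ = A' := by
  have h2 : A' * A = 1 := mul_eq_one_comm.1 h1
  have h3 : A'ᵀ * A = 1 := by
    have := congrArg Matrix.transpose h1
    rwa [Matrix.transpose_mul, hA, Matrix.transpose_one] at this
  calc A'ᵀ = A'ᵀ * (A * A') := by rw [h1, mul_one]
    _ = A' := by rw [← mul_assoc, h3, one_mul]

theorem isUnit_of_pos {A : Matrix X X ℝ} (h : ∀ f : X → ℝ, f ≠ 0 → 0 < qf A f) :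
    IsUnit A.det := by
  rw [isUnit_iff_ne_zero]
  intro h0
  obtain ⟨f, hf, hf0⟩ := Matrix.exists_mulVec_eq_zero_iff.2 h0
  have := h f hf
  rw [qf_dot, hf0, dotProduct_zero] at this
  exact lt_irrefl _ this

theorem pos_DD {X₀ D : Matrix X X ℝ} (hD : Dᵀ * X₀ * D = 1) (f : X → ℝ) (hf : f ≠ 0) :
    0 < qf (D * Dᵀ) f := by
  have e4 : D * Dᵀ = (Dᵀ)ᵀ * 1 * Dᵀ := by rw [mul_one, Matrix.transpose_transpose]
  rw [e4, qf_conj, qf_one]
  have h1 := dot_nn (Dᵀ *ᵥ f)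
  refine lt_of_le_of_ne h1 fun h2 => hf ?_
  rw [← sq_dot] at h2
  have h3 : Dᵀ *ᵥ f = 0 := by
    funext a
    have := (Finset.sum_eq_zero_iff_of_nonneg fun a _ => sq_nonneg ((Dᵀ *ᵥ f) a)).1 h2.symm a
      (Finset.mem_univ a)
    exact pow_eq_zero_iff (two_ne_zero) |>.1 this
  obtain ⟨hi1, hi2⟩ := inv_of hD
  have h4 : (X₀ * D) *ᵥ (Dᵀ *ᵥ f) = f := by
    rw [Matrix.mulVec_mulVec, hi1, Matrix.one_mulVec]
  rw [← h4, h3, Matrix.mulVec_zero]

/-- LAD: the ladder `(X₀⁻¹ + diag lam)⁻¹`. -/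
theorem lad (jal : JalStmt) (jma : JmaStmt)
    {ι : Type} [Fintype ι] [DecidableEq ι] (q : ℝ × (ι → ℝ))
    (X₀ D : Matrix X X ℝ) (lam : ℝ → X → ℝ) (c : ℝ) (hc : 0 ≤ c)
    (hD : Dᵀ * X₀ * D = 1)
    (hs : ∀ x, ContDiffAt ℝ 2 (fun t => lam t x) q.1) (h0 : ∀ x, 0 ≤ lam q.1 x)
    (hL : ∀ f, qf (Matrix.diagonal (lam q.1)) f ≤ c * qf (D * Dᵀ) f) :
    ∃ β : Matrix X X ℝ, β * (D * Dᵀ + Matrix.diagonal (lam q.1)) = 1 ∧ βᵀ = β ∧
      HM (fun r : ℝ × (ι → ℝ) => (D * Dᵀ + Matrix.diagonal (lam r.1))⁻¹) q β (fun _ => 0)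
        (-(β * Matrix.diagonal (fun x => deriv (fun t => lam t x) q.1) * β)) ∧
      (∀ f, 0 ≤ qf β f) ∧ (∀ f, qf β f ≤ qf X₀ f) ∧ ∀ f, qf X₀ f ≤ (1 + c) * qf β f := by
  obtain ⟨hi1, hi2⟩ := inv_of hD
  set A : Matrix X X ℝ := D * Dᵀ + Matrix.diagonal (lam q.1) with hA
  have hdg : ∀ f : X → ℝ, 0 ≤ qf (Matrix.diagonal (lam q.1)) f := by
    intro f
    rw [qf_dot]
    refine Finset.sum_nonneg fun x _ => ?_
    rw [Matrix.mulVec_diagonal]
    nlinarith [h0 x, sq_nonneg (f x), mul_nonneg (h0 x) (sq_nonneg (f x))]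
  have hApos : ∀ f : X → ℝ, f ≠ 0 → 0 < qf A f := by
    intro f hf
    have h1 := pos_DD hD f hf
    have h2 := hdg f
    rw [hA, qf_add]
    linarith
  have hu := isUnit_of_pos hApos
  have hA1 : A * A⁻¹ = 1 := Matrix.mul_nonsing_inv A hu
  have hA2 : A⁻¹ * A = 1 := Matrix.nonsing_inv_mul A hu
  have hAs : Aᵀ = A := by
    rw [hA, Matrix.transpose_add, Matrix.transpose_mul, Matrix.transpose_transpose,
      Matrix.diagonal_transpose]
  have hDs : (D * Dᵀ)ᵀ = D * Dᵀ := by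
    rw [Matrix.transpose_mul, Matrix.transpose_transpose]
  have hD0 : ∀ f : X → ℝ, 0 ≤ qf (D * Dᵀ) f := by
    intro f
    rcases eq_or_ne f 0 with h | h
    · rw [h, qf_dot, zero_dotProduct]
    · exact (pos_DD hD f h).le
  have hi3 : (D * Dᵀ) * X₀ = 1 := hi2
  refine ⟨A⁻¹, hA2, inv_sym hAs hA1, ?_, ?_, ?_, ?_⟩
  · -- the jet
    have hdiag : HM (fun r : ℝ × (ι → ℝ) => Matrix.diagonal (lam r.1)) q
        (Matrix.diagonal (lam q.1)) (fun _ => 0)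
        (Matrix.diagonal (fun x => deriv (fun t => lam t x) q.1)) := by
      intro x y
      by_cases h : x = y
      · subst h
        simp only [Matrix.diagonal_apply_eq]
        exact (jal ι ℝ q).2.2.2.2.2.2.1 (fun t => lam t x) (hs x)
      · simp only [Matrix.diagonal_apply_ne _ h]
        exact (jal ι ℝ q).1 0
    have h1 := hm_add jal (hm_const jal q (D * Dᵀ)) hdiag
    have h2 := ((jma ι ℝ q).2 X _ _ _ _ h1).1 hu
    simpa using h2
  · intro f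
    rcases eq_or_ne f 0 with h | h
    · rw [h, qf_dot, zero_dotProduct]
    · have h9 : A *ᵥ (A⁻¹ *ᵥ f) = f := by rw [Matrix.mulVec_mulVec, hA1, Matrix.one_mulVec]
      have h2 : qf A⁻¹ f = qf A (A⁻¹ *ᵥ f) := by
        rw [qf_dot, qf_dot, h9, dotProduct_comm]
      rw [h2]
      rcases eq_or_ne (A⁻¹ *ᵥ f) 0 with h3 | h3
      · rw [h3, qf_dot, zero_dotProduct]
      · exact (hApos _ h3).le
  · exact inv_anti hDs hi3 hA1 hD0 fun f => by
      rw [hA, qf_add]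
      linarith [hdg f]
  · intro f
    have h1 : ((1 + c) • (D * Dᵀ)) * ((1 + c)⁻¹ • X₀) = 1 := by
      have : (1 + c) ≠ 0 := by positivity
      rw [Matrix.smul_mul, Matrix.mul_smul, hi3, smul_smul, mul_inv_cancel₀ this, one_smul]
    have h2 : ∀ f, 0 ≤ qf A f := fun f => by
      rcases eq_or_ne f 0 with h | h
      · rw [h, qf_dot, zero_dotProduct]
      · exact (hApos _ h).le
    have h3 := inv_anti hAs hA1 h1 h2 (fun f => by
      rw [hA, qf_add, qf_smul]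
      linarith [hL f]) f
    rw [qf_smul] at h3
    have h4 : (0 : ℝ) < 1 + c := by positivity
    rwa [inv_mul_le_iff₀ h4] at h3

/-- TRN: a small trace of a high power gives a small norm. -/
theorem trn {S : Matrix X X ℝ} (hS : Sᵀ = S) {ε₁ : ℝ} (hε : 0 < ε₁) {n : ℕ} (hn : 1 ≤ n)
    (h : uS S ε₁ n < 1) (f : X → ℝ) : |qf S f| ≤ ε₁ * (f ⬝ᵥ f) := by
  obtain ⟨U, lam, h1, h2, h3⟩ := Pool.Agent.Loc.exists_diag_real hS
  have hpow : (S * Sᵀ) ^ n = U * Matrix.diagonal (fun l => lam l ^ (2 * n)) * Uᵀ := by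
    rw [hS, ← pow_two, ← pow_mul, h3]
  have htr : Matrix.trace ((S * Sᵀ) ^ n) = ∑ i, lam i ^ (2 * n) := by
    rw [hpow, Matrix.trace_mul_comm, ← mul_assoc, h1, one_mul, Matrix.trace_diagonal]
  rw [uS, htr, div_lt_one (by positivity)] at h
  have hlam : ∀ i, |lam i| ≤ ε₁ := by
    intro i
    have h4 : lam i ^ (2 * n) ≤ ε₁ ^ (2 * n) := by
      refine le_trans ?_ h.le
      refine Finset.single_le_sum (f := fun i => lam i ^ (2 * n)) (fun j _ => ?_)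
        (Finset.mem_univ i)
      exact (even_two_mul n).pow_nonneg (lam j)
    have h5 : |lam i| ^ (2 * n) ≤ ε₁ ^ (2 * n) := by
      rw [(even_two_mul n).pow_abs]
      exact h4
    exact le_of_pow_le_pow_left₀ (by omega) hε.le h5
  have h5 := h3 1
  simp only [pow_one] at h5
  have hq : ∀ w : X → ℝ, qf (U * Matrix.diagonal w * Uᵀ) f = ∑ i, w i * (Uᵀ *ᵥ f) i ^ 2 := by
    intro w
    have e1 : U * Matrix.diagonal w * Uᵀ = (Uᵀ)ᵀ * Matrix.diagonal w * Uᵀ := by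
      rw [Matrix.transpose_transpose]
    rw [e1, qf_conj, qf_dot]
    unfold dotProduct
    refine Finset.sum_congr rfl fun i _ => ?_
    rw [Matrix.mulVec_diagonal]
    ring
  have h10 : f ⬝ᵥ f = ∑ i, (Uᵀ *ᵥ f) i ^ 2 := by
    have e2 : f ⬝ᵥ f = qf (U * Matrix.diagonal (fun _ => 1) * Uᵀ) f := by
      rw [Matrix.diagonal_one, mul_one, h2, qf_one]
    rw [e2, hq]
    simp
  have h11 : qf S f = ∑ i, lam i * (Uᵀ *ᵥ f) i ^ 2 := by
    rw [← hq]
    exact congrArg (fun M => qf M f) h5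
  rw [h11, h10, Finset.mul_sum]
  refine (Finset.abs_sum_le_sum_abs _ _).trans (Finset.sum_le_sum fun i _ => ?_)
  rw [abs_mul, abs_of_nonneg (sq_nonneg ((Uᵀ *ᵥ f) i))]
  exact mul_le_mul_of_nonneg_right (hlam i) (sq_nonneg _)

/-- TRN in units of `X₀`. -/
theorem trn_conj {X₀ D M : Matrix X X ℝ} (hD : Dᵀ * X₀ * D = 1) (hM : Mᵀ = M)
    {ε₁ : ℝ} (hε : 0 < ε₁) {n : ℕ} (hn : 1 ≤ n) (h : uS (Dᵀ * M * D) ε₁ n < 1) (f : X → ℝ) :
    |qf M f| ≤ ε₁ * qf X₀ f := by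
  obtain ⟨hi1, hi2⟩ := inv_of hD
  have hS : (Dᵀ * M * D)ᵀ = Dᵀ * M * D := by
    rw [Matrix.transpose_mul, Matrix.transpose_mul, Matrix.transpose_transpose, hM, mul_assoc]
  have h1 := trn hS hε hn h (Dᵀ *ᵥ (X₀ *ᵥ f))
  have h2 : D *ᵥ (Dᵀ *ᵥ (X₀ *ᵥ f)) = f := by
    rw [Matrix.mulVec_mulVec, Matrix.mulVec_mulVec, hi2, Matrix.one_mulVec]
  rwa [qf_conj, ← qf_D hD, h2] at h1

end Pool.Agent.AN2.H48
end
end -- Pool.Agent.Helper48_AN2.LAD

section -- Pool.Agent.Helper48_AFL.Cmp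

/-!
# Block lemma FLO: compression to the box, the ladder of the compression, smoothness
-/

set_option autoImplicit false
set_option linter.unusedSectionVars false

open MeasureTheory ProbabilityTheory Function Filter

open scoped ENNReal BigOperators Topology NNReal Matrix

noncomputable section

namespace Pool.Agent.AFL.H48

open Pool.Agent.LE.QF Pool.Agent.LE.QF.H40 Pool.Agent.AFJ Pool.Agent.ABY Pool.Agent.AN2.H48

variable {X : Type} [Fintype X] [DecidableEq X]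

/-- extension by zero -/
def ex (Q : Finset X) (f : Q → ℝ) (x : X) : ℝ := if h : x ∈ Q then f ⟨x, h⟩ else 0

/-- restriction -/
def rs (Q : Finset X) (φ : X → ℝ) (x : Q) : ℝ := φ x

/-- compression -/
def cp (Q : Finset X) (M : Matrix X X ℝ) : Matrix Q Q ℝ := fun x y => M x y

variable (Q : Finset X)

theorem ex_mem (f : Q → ℝ) (a : Q) : ex Q f a = f a := by
  simp [ex]

theorem ex_out (f : Q → ℝ) (x : X) (h : x ∉ Q) : ex Q f x = 0 := by
  simp [ex, h]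

theorem ex_rs (φ : X → ℝ) (h : ∀ x, x ∉ Q → φ x = 0) : ex Q (rs Q φ) = φ := by
  funext x
  by_cases hx : x ∈ Q
  · simp [ex, rs, hx]
  · rw [ex_out Q _ x hx, h x hx]

theorem rs_ex (f : Q → ℝ) : rs Q (ex Q f) = f := by
  funext a
  rw [rs, ex_mem]

theorem sum_out (ψ : X → ℝ) (h : ∀ x, x ∉ Q → ψ x = 0) : ∑ x, ψ x = ∑ a : Q, ψ a := by
  rw [Finset.sum_coe_sort Q ψ]
  symm
  exact Finset.sum_subset (Finset.subset_univ Q) fun x _ hx => h x hx

theorem sum_ex (f : Q → ℝ) (φ : X → ℝ) : ∑ x, ex Q f x * φ x = ∑ a : Q, f a * φ a := by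
  rw [sum_out Q (fun x => ex Q f x * φ x) fun x hx => by rw [ex_out Q f x hx, zero_mul]]
  exact Finset.sum_congr rfl fun a _ => by rw [ex_mem]

theorem cp_mulVec (M : Matrix X X ℝ) (f : Q → ℝ) : cp Q M *ᵥ f = rs Q (M *ᵥ ex Q f) := by
  funext a
  unfold rs cp Matrix.mulVec dotProduct
  have := sum_ex Q f (fun y => M a y)
  calc ∑ b : Q, M a b * f b = ∑ b : Q, f b * M a b :=
        Finset.sum_congr rfl fun b _ => mul_comm _ _
    _ = ∑ x, ex Q f x * M a x := this.symm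
    _ = _ := Finset.sum_congr rfl fun b _ => mul_comm _ _

theorem qf_cp (M : Matrix X X ℝ) (f : Q → ℝ) : qf (cp Q M) f = qf M (ex Q f) := by
  unfold qf
  rw [sum_ex Q f, cp_mulVec]
  rfl

theorem cp_trans (M : Matrix X X ℝ) (h : Mᵀ = M) : (cp Q M)ᵀ = cp Q M := by
  ext a b
  exact congrFun (congrFun h (a : X)) (b : X)

/-- product with a diagonal matrix which lives on the box -/
theorem cp_diag (M N : Matrix X X ℝ) (d : X → ℝ) (h : ∀ x, x ∉ Q → d x = 0) :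
    cp Q (M * Matrix.diagonal d * N) = cp Q M * Matrix.diagonal (fun a : Q => d a) * cp Q N := by
  ext a b
  rw [Matrix.mul_apply]
  show (M * Matrix.diagonal d * N) a b = _
  rw [Matrix.mul_apply]
  simp only [Matrix.mul_diagonal]
  rw [sum_out Q (fun x => M a x * d x * N x b) fun x hx => by rw [h x hx]; ring]
  rfl

/-! ### the ladder of the compression -/

/-- the compression of the ladder is the ladder of the compression -/
theorem cp_lad {E E1 : Matrix X X ℝ} {τ : X → ℝ} (h : LTG.Lad E E1 τ) (hτ : ∀ x, x ∉ Q → τ x = 0)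
    {D : Matrix Q Q ℝ} (hD : Dᵀ * cp Q E * D = 1) {β : Matrix Q Q ℝ}
    (hβ : β * (D * Dᵀ + Matrix.diagonal fun a : Q => τ a) = 1) : cp Q E1 = β := by
  obtain ⟨hi1, hi2⟩ := inv_of hD
  have e1 : cp Q E1 + cp Q E * Matrix.diagonal (fun a : Q => τ a) * cp Q E1 = cp Q E := by
    rw [← cp_diag Q E E1 τ hτ]
    have := congrArg (cp Q) h.eq
    have e2 : cp Q (E1 + E * Matrix.diagonal τ * E1) = cp Q E1 + cp Q (E * Matrix.diagonal τ * E1) :=
      rfl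
    rw [← e2, this]
  have e3 : (D * Dᵀ + Matrix.diagonal fun a : Q => τ a) * cp Q E1 = 1 := by
    have e4 : (D * Dᵀ) * (cp Q E1 + cp Q E * Matrix.diagonal (fun a : Q => τ a) * cp Q E1) =
        (D * Dᵀ) * cp Q E := by rw [e1]
    rw [mul_add, ← mul_assoc, ← mul_assoc, hi2, one_mul] at e4
    rw [add_mul]
    exact e4
  calc cp Q E1 = (β * (D * Dᵀ + Matrix.diagonal fun a : Q => τ a)) * cp Q E1 := by
        rw [hβ, one_mul]
    _ = β := by rw [mul_assoc, e3, mul_one]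

/-! ### smoothness -/

section smooth

variable {V : Type} [NormedAddCommGroup V] [NormedSpace ℝ V] {q : V}

theorem cd_mul {l m n : Type} [Fintype m] {A : V → Matrix l m ℝ} {B : V → Matrix m n ℝ}
    (hA : ∀ i j, ContDiffAt ℝ 2 (fun r => A r i j) q)
    (hB : ∀ i j, ContDiffAt ℝ 2 (fun r => B r i j) q) :
    ∀ i j, ContDiffAt ℝ 2 (fun r => (A r * B r) i j) q := by
  intro i j
  simp only [Matrix.mul_apply]
  exact ContDiffAt.sum fun k _ => (hA i k).mul (hB k j)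

theorem cd_pow {n : Type} [Fintype n] [DecidableEq n] {A : V → Matrix n n ℝ}
    (hA : ∀ i j, ContDiffAt ℝ 2 (fun r => A r i j) q) (k : ℕ) :
    ∀ i j, ContDiffAt ℝ 2 (fun r => (A r ^ k) i j) q := by
  induction k with
  | zero =>
    intro i j
    simp only [pow_zero]
    exact contDiffAt_const
  | succ k ih =>
    simp only [pow_succ]
    exact cd_mul ih hA

theorem cd_uS {n : Type} [Fintype n] [DecidableEq n] {A : V → Matrix n n ℝ}
    (hA : ∀ i j, ContDiffAt ℝ 2 (fun r => A r i j) q) (ε : ℝ) (k : ℕ) :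
    ContDiffAt ℝ 2 (fun r => uS (A r) ε k) q := by
  unfold uS Matrix.trace
  refine ContDiffAt.div_const (ContDiffAt.sum fun i _ => ?_) _
  exact cd_pow (cd_mul hA fun i j => by simpa only [Matrix.transpose_apply] using hA j i) k i i

theorem cd_nsq {f : V → ℂ} (hf : ContDiffAt ℝ 2 f q) : ContDiffAt ℝ 2 (fun r => ‖f r‖ ^ 2) q :=
  hf.norm_sq ℝ

end smooth

theorem uS_nonneg {n : Type} [Fintype n] [DecidableEq n] {S : Matrix n n ℝ} (hS : Sᵀ = S) (ε : ℝ)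
    (k : ℕ) : 0 ≤ uS S ε k := by
  obtain ⟨U, lam, h1, h2, h3⟩ := Pool.Agent.Loc.exists_diag_real hS
  have hpow : (S * Sᵀ) ^ k = U * Matrix.diagonal (fun l => lam l ^ (2 * k)) * Uᵀ := by
    rw [hS, ← pow_two, ← pow_mul, h3]
  have htr : Matrix.trace ((S * Sᵀ) ^ k) = ∑ i, lam i ^ (2 * k) := by
    rw [hpow, Matrix.trace_mul_comm, ← mul_assoc, h1, one_mul, Matrix.trace_diagonal]
  rw [uS, htr]
  refine div_nonneg (Finset.sum_nonneg fun i _ => ?_) ?_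
  · exact (even_two_mul k).pow_nonneg _
  · exact (even_two_mul k).pow_nonneg _

theorem uS_zero {n : Type} [Fintype n] [DecidableEq n] (ε : ℝ) {k : ℕ} (hk : 1 ≤ k) :
    uS (0 : Matrix n n ℝ) ε k = 0 := by
  rw [uS, zero_mul, zero_pow (by omega), Matrix.trace_zero, zero_div]

/-- from a sum of high powers to each term -/
theorem of_pow_sum {κ : Type} [Fintype κ] {v : κ → ℝ} (hv : ∀ k, 0 ≤ v k) {n : ℕ} (hn : 1 ≤ n)
    (h : ∑ k, v k ^ n ≤ 1) (k : κ) : v k ≤ 1 := by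
  have h1 : v k ^ n ≤ 1 := (Finset.single_le_sum (f := fun k => v k ^ n)
    (fun j _ => pow_nonneg (hv j) n) (Finset.mem_univ k)).trans h
  exact (pow_le_one_iff_of_nonneg (hv k) (by omega)).1 h1

theorem of_nsq {κ : Type} [Fintype κ] {v : κ → ℂ} {δ : ℝ} (hδ : 0 < δ) {n : ℕ} (hn : 1 ≤ n)
    (h : ∑ k, (‖v k‖ ^ 2 / δ ^ 2) ^ n ≤ 1) (k : κ) : ‖v k‖ ≤ δ := by
  have h1 := of_pow_sum (v := fun k => ‖v k‖ ^ 2 / δ ^ 2) (fun j => by positivity) hn h k
  have h2 : ‖v k‖ ^ 2 ≤ δ ^ 2 := by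
    have := (div_le_one (by positivity)).1 h1
    exact this
  exact le_of_sq_le_sq₀ h2 hδ.le
where
  le_of_sq_le_sq₀ {a b : ℝ} (h : a ^ 2 ≤ b ^ 2) (hb : 0 ≤ b) : a ≤ b := by
    exact le_of_pow_le_pow_left₀ two_ne_zero hb h

end Pool.Agent.AFL.H48
end
end -- Pool.Agent.Helper48_AFL.Cmp

section -- Pool.Agent.Helper48_AFL.Fun

/-!
# Block lemma FLO: the functional
-/

set_option autoImplicit false
set_option linter.unusedSectionVars false

open MeasureTheory ProbabilityTheory Function Filter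

open scoped ENNReal BigOperators Topology NNReal Matrix

noncomputable section

namespace Pool.Agent.AFL.H48

open Pool.Agent.LE.QF Pool.Agent.LE.QF.H40 Pool.Agent.AFJ Pool.Agent.ABY Pool.Agent.AN2.H48

variable {X : Type} [Fintype X] [DecidableEq X]

/-! ### the clocks -/

section clocks

variable (F : Fl X)

theorem k_b {x : X} (hx : x ∈ F.b) (t : ℝ) : F.k t x = F.k 0 x - t * F.g x := by
  unfold Fl.k Blk.kp Fl.g
  simp only [hx, if_true]
  ring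

theorem k_o {x : X} (hx : x ∉ F.b) (t : ℝ) : F.k t x = F.k 0 x := by
  unfold Fl.k Blk.kp
  simp only [hx, if_false]

theorem lam_b {x : X} (hx : x ∈ F.b) (t : ℝ) :
    F.lam t x = 1 / F.g x * (1 / F.k t x - 1 / F.k 0 x) := by
  unfold Fl.lam
  rw [if_pos hx]

theorem lam_o {x : X} (hx : x ∉ F.b) (t : ℝ) : F.lam t x = 0 := by
  unfold Fl.lam
  rw [if_neg hx]

variable {F}
variable {c₀ C₀ : ℝ}

theorem g_pos (h : F.Ok c₀ C₀) {x : X} (hx : x ∈ F.A) : 0 < F.g x :=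
  h.num.2.2.2.1.trans_le (h.hg x hx).1

theorem bA (h : F.Ok c₀ C₀) : F.b ⊆ F.A := h.hQ.1.trans (h.hQ.2.1.trans h.hQ.2.2)

theorem lam_jet (h : F.Ok c₀ C₀) {t : ℝ} (h0 : 0 ≤ t) (h1 : t ≤ F.T) (x : X) :
    ContDiffAt ℝ 2 (fun t => F.lam t x) t ∧
      deriv (fun t => F.lam t x) t = ind F.b x / F.k t x ^ 2 := by
  by_cases hx : x ∈ F.b
  · have hk : F.k t x ≠ 0 := (h.pos t x h0 h1).ne'
    have hg : F.g x ≠ 0 := (g_pos h (bA h hx)).ne'
    have e1 : (fun t => F.lam t x) =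
        fun t => 1 / F.g x * (1 / (F.k 0 x - t * F.g x) - 1 / F.k 0 x) := by
      funext t
      rw [lam_b F hx, k_b F hx t]
    have hk' : F.k 0 x - t * F.g x ≠ 0 := by rw [← k_b F hx t]; exact hk
    have hd : HasDerivAt (fun t => F.k 0 x - t * F.g x) (-F.g x) t := by
      have := ((hasDerivAt_id t).mul_const (F.g x)).const_sub (F.k 0 x)
      simpa using this
    constructor
    · rw [e1]
      refine contDiffAt_const.mul (ContDiffAt.sub ?_ contDiffAt_const)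
      simp only [one_div]
      refine ContDiffAt.inv ?_ hk'
      exact contDiffAt_const.sub (contDiffAt_id.mul contDiffAt_const)
    · rw [e1]
      have h2 : HasDerivAt (fun t => 1 / F.g x * (1 / (F.k 0 x - t * F.g x) - 1 / F.k 0 x))
          (1 / F.g x * (-(-F.g x) / (F.k 0 x - t * F.g x) ^ 2)) t := by
        have h3 := (hd.inv hk').sub_const (1 / F.k 0 x)
        have h4 := h3.const_mul (1 / F.g x)
        simpa only [one_div, Pi.inv_apply] using h4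
      rw [h2.deriv, ind, if_pos hx, k_b F hx t]
      field_simp
  · have e1 : (fun t => F.lam t x) = fun _ => (0 : ℝ) := by
      funext t
      rw [lam_o F hx]
    rw [e1]
    refine ⟨contDiffAt_const, ?_⟩
    simp [ind, hx]

/-- the ladder in the lower bound -/
theorem lam_le (h : F.Ok c₀ C₀) {t : ℝ} (h0 : 0 ≤ t) (h1 : t ≤ F.T) {x : X} (hx : x ∈ F.A) :
    (1 + F.ε) * (1 / (F.k 0 x * F.g x)) + F.lam t x ≤ (1 + F.ε) * (1 / (F.k t x * F.g x)) := by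
  have hg := g_pos h hx
  have hε : 0 ≤ F.ε := h.num.2.2.2.2.2.2.2.2.2.2.2.1
  by_cases hb : x ∈ F.b
  · have hk := h.pos t x h0 h1
    have hk0 := h.pos 0 x le_rfl h.hT.le
    have hle : F.k t x ≤ F.k 0 x := by
      rw [k_b F hb t]
      have := mul_nonneg h0 hg.le
      linarith
    have e1 : F.lam t x = 1 / (F.k t x * F.g x) - 1 / (F.k 0 x * F.g x) := by
      rw [lam_b F hb]
      field_simp
    have e2 : 1 / (F.k 0 x * F.g x) ≤ 1 / (F.k t x * F.g x) :=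
      one_div_le_one_div_of_le (mul_pos hk hg) (mul_le_mul_of_nonneg_right hle hg.le)
    rw [e1]
    nlinarith [mul_nonneg hε (sub_nonneg.2 e2)]
  · rw [lam_o F hb, k_o F hb t, add_zero]

end clocks

/-! ### the parts of the functional -/

variable (F : Fl X)

/-- entries -/
def uG (r : ℝ × (F.b → ℝ)) : ℝ :=
  ∑ p : F.Q1 × F.Q1, (‖F.Gt r p.1 p.2 - F.G0 p.1 p.2‖ ^ 2 / F.δ ^ 2) ^ F.n

/-- `Λ` -/
def uL (r : ℝ × (F.b → ℝ)) : ℝ :=
  ∑ a : F.Q1, (LaR (F.Gt r) F.R a / (LaR F.G0 F.R a + F.ω * F.L) / (fun _ : ℝ => (1 : ℝ)) r.1) ^ F.nL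

/-- the complex part of the pair -/
def uY (r : ℝ × (F.b → ℝ)) : ℝ :=
  ∑ a : (F.Q1 ∩ F.Rg : Finset X), (‖vir (BB (F.Gt r)) (F.Pf r.1) F.w a -
    vir (BB F.G0) F.P0 F.w a‖ ^ 2 / F.δY ^ 2) ^ F.n

/-- the real part of the pair -/
def uK (r : ℝ × (F.b → ℝ)) : ℝ :=
  ∑ a : (F.Q1 ∩ F.Rg : Finset X), (‖((vir (KK (F.Gt r)) (F.Pf r.1) F.w a -
    vir (KK F.G0) F.P0 F.w a : ℝ) : ℂ)‖ ^ 2 / F.δY ^ 2) ^ F.n

/-- the ladder -/
def Bm (D : Matrix F.Q F.Q ℝ) (r : ℝ × (F.b → ℝ)) : Matrix F.Q F.Q ℝ :=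
  (D * Dᵀ + Matrix.diagonal fun a : F.Q => F.lam r.1 a)⁻¹

/-- the form -/
def uX (D : Matrix F.Q F.Q ℝ) (r : ℝ × (F.b → ℝ)) : ℝ :=
  uS (Dᵀ * (cp F.Q (F.Et r) - Bm F D r) * D) F.ε₁ F.n

/-- the functional -/
def uu (D : Matrix F.Q F.Q ℝ) (r : ℝ × (F.b → ℝ)) : ℝ :=
  uG F r + uL F r + uY F r + uK F r + uX F D r

theorem uG_nonneg (r : ℝ × (F.b → ℝ)) : 0 ≤ uG F r :=
  Finset.sum_nonneg fun _ _ => by positivity

theorem LaR_nonneg (G : Matrix X X ℂ) (R : Finset X) (x : X) : 0 ≤ LaR G R x :=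
  Finset.sum_nonneg fun _ _ => sq_nonneg _

variable {F} {c₀ C₀ : ℝ}

theorem ell_pos (h : F.Ok c₀ C₀) (x : X) : 0 < LaR F.G0 F.R x + F.ω * F.L :=
  add_pos_of_nonneg_of_pos (LaR_nonneg _ _ _)
    (mul_pos h.num.2.2.2.2.2.2.2.2.2.1 h.num.2.2.2.2.2.2.2.2.1)

theorem uL_nonneg (h : F.Ok c₀ C₀) (r : ℝ × (F.b → ℝ)) : 0 ≤ uL F r := by
  refine Finset.sum_nonneg fun a _ => pow_nonneg ?_ _
  simp only [div_one]
  exact div_nonneg (LaR_nonneg _ _ _) (ell_pos h _).le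

theorem uY_nonneg (r : ℝ × (F.b → ℝ)) : 0 ≤ uY F r :=
  Finset.sum_nonneg fun _ _ => by positivity

theorem uK_nonneg (r : ℝ × (F.b → ℝ)) : 0 ≤ uK F r :=
  Finset.sum_nonneg fun _ _ => by positivity

end Pool.Agent.AFL.H48
end
end -- Pool.Agent.Helper48_AFL.Fun

section -- Pool.Agent.Helper48_AFL.Pnt

/-!
# Block lemma FLO: the form at a point
-/

set_option autoImplicit false
set_option linter.unusedSectionVars false

open MeasureTheory ProbabilityTheory Function Filter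

open scoped ENNReal BigOperators Topology NNReal Matrix

noncomputable section

namespace Pool.Agent.AFL.H48

open Pool.Agent.LE.QF Pool.Agent.LE.QF.H40 Pool.Agent.AFJ Pool.Agent.ABY Pool.Agent.AN2.H48

/-! ### duality -/

section dual

variable {n : Type} [Fintype n] [DecidableEq n] {X₀ D : Matrix n n ℝ}

theorem dual_eq (hD : Dᵀ * X₀ * D = 1) (φ : n → ℝ) :
    qf (D * Dᵀ) φ = 2 * (((D * Dᵀ) *ᵥ φ) ⬝ᵥ φ) - qf X₀ ((D * Dᵀ) *ᵥ φ) := by
  have h1 : qf (D * Dᵀ) φ = ((D * Dᵀ) *ᵥ φ) ⬝ᵥ φ := by rw [qf_dot, dotProduct_comm]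
  have h2 : qf X₀ ((D * Dᵀ) *ᵥ φ) = ((D * Dᵀ) *ᵥ φ) ⬝ᵥ φ := by
    rw [← Matrix.mulVec_mulVec, qf_D hD, dotProduct_comm _ φ, tr_dot D φ]
  rw [h1, h2]
  ring

theorem dual_le (hD : Dᵀ * X₀ * D = 1) (f φ : n → ℝ) :
    2 * (f ⬝ᵥ φ) - qf X₀ f ≤ qf (D * Dᵀ) φ := by
  obtain ⟨hi1, hi2⟩ := inv_of hD
  set v := Dᵀ *ᵥ (X₀ *ᵥ f) with hv
  have h1 : D *ᵥ v = f := by
    rw [hv, Matrix.mulVec_mulVec, Matrix.mulVec_mulVec, hi2, Matrix.one_mulVec]
  have h2 : f ⬝ᵥ φ = v ⬝ᵥ (Dᵀ *ᵥ φ) := by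
    rw [← h1, dotProduct_comm, tr_dot, dotProduct_comm]
  have h3 : qf X₀ f = v ⬝ᵥ v := by rw [← h1, qf_D hD]
  have h4 : qf (D * Dᵀ) φ = (Dᵀ *ᵥ φ) ⬝ᵥ (Dᵀ *ᵥ φ) := by
    rw [qf_dot, ← Matrix.mulVec_mulVec, tr_dot]
  have h5 : 0 ≤ (v - Dᵀ *ᵥ φ) ⬝ᵥ (v - Dᵀ *ᵥ φ) := dot_nn _
  rw [sub_dotProduct, dotProduct_sub, dotProduct_sub, dotProduct_comm (Dᵀ *ᵥ φ) v] at h5
  rw [h2, h3, h4]
  linarith

theorem young {A β : Matrix n n ℝ} (h1 : β * A = 1) (hs : βᵀ = β) (hp : ∀ f, 0 ≤ qf β f)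
    (f φ : n → ℝ) : 2 * (f ⬝ᵥ φ) - qf A φ ≤ qf β f := by
  have h2 := hp (f - A *ᵥ φ)
  have h3 : β *ᵥ (A *ᵥ φ) = φ := by rw [Matrix.mulVec_mulVec, h1, Matrix.one_mulVec]
  rw [qf_sub' hs, h3, qf_dot β (A *ᵥ φ), h3, dotProduct_comm (A *ᵥ φ) φ, ← qf_dot] at h2
  linarith

end dual

variable {X : Type} [Fintype X] [DecidableEq X] {F : Fl X} {c₀ C₀ : ℝ}

theorem dot_rs (f : F.Q → ℝ) (φ : X → ℝ) : f ⬝ᵥ rs F.Q φ = ∑ x, ex F.Q f x * φ x := by
  rw [sum_ex]; rfl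

theorem ex_smul (Q : Finset X) (t : ℝ) (f : Q → ℝ) : ex Q (t • f) = fun x => t * ex Q f x := by
  funext x
  by_cases hx : x ∈ Q
  · simp [ex, hx]
  · rw [ex_out Q _ x hx, ex_out Q _ x hx, mul_zero]

/-- the form at the start is positive definite on the box -/
theorem exD (h : F.Ok c₀ C₀) (hs : (F.E0)ᵀ = F.E0) :
    ∃ D : Matrix F.Q F.Q ℝ, Dᵀ * cp F.Q F.E0 * D = 1 := by
  have hε0 : 0 ≤ F.ε := h.num.2.2.2.2.2.2.2.2.2.2.2.1
  have hε1 : F.ε ≤ 1 := h.num.2.2.2.2.2.2.2.2.2.2.2.2.1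
  have hs1 : 0 ≤ F.s1 := h.num.2.2.2.2.2.2.2.2.2.2.2.2.2.1
  have hkg : ∀ x ∈ F.Q, 0 < F.k 0 x * F.g x := fun x hx =>
    mul_pos (h.pos 0 x le_rfl h.hT.le) (g_pos h (h.hQ.2.2 hx))
  set K1 : ℝ := ∑ x ∈ F.Q, 2 / (F.k 0 x * F.g x) with hK1
  have hK1n : 0 ≤ K1 := Finset.sum_nonneg fun x hx => div_nonneg (by norm_num) (hkg x hx).le
  obtain ⟨hs3, -⟩ := h.hs3
  set K : ℝ := 1 + K1 + (F.s1 + F.s3) * F.Q.card with hK
  have hKp : 0 < K := by positivity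
  refine fac (cp_trans F.Q _ hs) (e₀ := 1 / K) (by positivity) fun f => ?_
  set S : ℝ := f ⬝ᵥ f with hS
  have hSn : 0 ≤ S := dot_nn f
  have hsq : ∑ a : F.Q, f a ^ 2 = S := sq_dot f
  set φ : X → ℝ := fun x => 1 / K * ex F.Q f x with hφ
  have h1 := h.hS1 (ex F.Q f) φ (fun x hx => ex_out _ _ x hx) (fun x hx => by
    rw [hφ]; simp only; rw [ex_out _ _ x hx, mul_zero])
  have e1 : ∑ x, ex F.Q f x * φ x = 1 / K * S := by
    rw [sum_ex F.Q f φ, hS, dotProduct, Finset.mul_sum]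
    exact Finset.sum_congr rfl fun a _ => by rw [hφ]; simp only; rw [ex_mem]; ring
  have e2 : 2 * ∑ x ∈ F.Q, φ x ^ 2 / (F.k 0 x * F.g x) ≤ (1 / K) ^ 2 * (K1 * S) := by
    rw [← Finset.sum_coe_sort F.Q (fun x => φ x ^ 2 / (F.k 0 x * F.g x)), Finset.mul_sum, ← hsq,
      Finset.mul_sum, Finset.mul_sum]
    refine Finset.sum_le_sum fun a _ => ?_
    have h2 : 2 / (F.k 0 a * F.g a) ≤ K1 := by
      rw [hK1]
      exact Finset.single_le_sum (f := fun x => 2 / (F.k 0 x * F.g x))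
        (fun x hx => div_nonneg (by norm_num) (hkg x hx).le) a.2
    have h3 : φ a = 1 / K * f a := by rw [hφ]; simp only; rw [ex_mem]
    have h4 := hkg a a.2
    rw [h3]
    calc 2 * ((1 / K * f a) ^ 2 / (F.k 0 a * F.g a)) =
          2 / (F.k 0 a * F.g a) * ((1 / K) ^ 2 * f a ^ 2) := by ring
      _ ≤ K1 * ((1 / K) ^ 2 * f a ^ 2) := by gcongr
      _ = (1 / K) ^ 2 * (K1 * f a ^ 2) := by ring
  have e3 : (∑ x, |φ x|) ^ 2 ≤ (1 / K) ^ 2 * (F.Q.card * S) := by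
    have h2 : ∑ x, |φ x| = 1 / K * ∑ a : F.Q, |f a| := by
      rw [sum_out F.Q (fun x => |φ x|) fun x hx => by
        rw [hφ]; simp only; rw [ex_out _ _ x hx, mul_zero, abs_zero], Finset.mul_sum]
      refine Finset.sum_congr rfl fun a _ => ?_
      rw [hφ]; simp only; rw [ex_mem, abs_mul, abs_of_pos (by positivity : 0 < 1 / K)]
    have h3 : (∑ a : F.Q, |f a|) ^ 2 ≤ F.Q.card * S := by
      have := sq_sum_le_card_mul_sum_sq (s := (Finset.univ : Finset F.Q)) (f := fun a => |f a|)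
      simp only [sq_abs] at this
      rw [hsq, Finset.card_univ, Fintype.card_coe] at this
      exact this
    rw [h2, mul_pow]
    gcongr
  have e5 : ∀ Z : Finset X, (∑ x ∈ Z, |φ x|) ^ 2 ≤ (∑ x, |φ x|) ^ 2 := fun Z =>
    pow_le_pow_left₀ (Finset.sum_nonneg fun x _ => abs_nonneg _)
      (Finset.sum_le_sum_of_subset_of_nonneg (Finset.subset_univ _) fun x _ _ => abs_nonneg _) 2
  have e6 : F.s1 * (∑ x ∈ F.Q ∩ F.Yg, |φ x|) ^ 2 + F.s3 * (∑ x ∈ F.Q \ F.Yg, |φ x|) ^ 2 ≤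
      (1 / K) ^ 2 * ((F.s1 + F.s3) * F.Q.card * S) := by
    calc F.s1 * (∑ x ∈ F.Q ∩ F.Yg, |φ x|) ^ 2 + F.s3 * (∑ x ∈ F.Q \ F.Yg, |φ x|) ^ 2 ≤
          F.s1 * ((1 / K) ^ 2 * (F.Q.card * S)) + F.s3 * ((1 / K) ^ 2 * (F.Q.card * S)) :=
          add_le_add (mul_le_mul_of_nonneg_left ((e5 _).trans e3) hs1)
            (mul_le_mul_of_nonneg_left ((e5 _).trans e3) hs3)
      _ = _ := by ring
  rw [qf_cp]
  have e4 : (1 / K) ^ 2 * (K1 * S) + (1 / K) ^ 2 * ((F.s1 + F.s3) * F.Q.card * S) ≤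
      1 / K * S := by
    have h5 : K1 + (F.s1 + F.s3) * F.Q.card ≤ K := by rw [hK]; linarith only
    calc (1 / K) ^ 2 * (K1 * S) + (1 / K) ^ 2 * ((F.s1 + F.s3) * F.Q.card * S) =
          (1 / K) ^ 2 * S * (K1 + (F.s1 + F.s3) * F.Q.card) := by ring
      _ ≤ (1 / K) ^ 2 * S * K := by gcongr
      _ = 1 / K * S := by field_simp
  rw [e1] at h1
  linarith only [h1, e2, e6, e4]

section point

variable {D : Matrix F.Q F.Q ℝ}

/-- the property of `W` in NUB -/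
theorem W_prop (hD : Dᵀ * cp F.Q F.E0 * D = 1) (φ : X → ℝ) :
    ∃ f : X → ℝ, (∀ x, x ∉ F.Q → f x = 0) ∧
      qf (D * Dᵀ) (rs F.Q φ) ≤ 2 * ∑ x, f x * φ x - qf F.E0 f := by
  refine ⟨ex F.Q ((D * Dᵀ) *ᵥ rs F.Q φ), fun x hx => ex_out _ _ x hx, ?_⟩
  rw [dual_eq hD (rs F.Q φ), qf_cp, dot_rs]

/-- data of the ladder at a point -/
structure Ldr (D β : Matrix F.Q F.Q ℝ) (q : ℝ × (F.b → ℝ)) : Prop where
  inv : β * (D * Dᵀ + Matrix.diagonal fun a : F.Q => F.lam q.1 a) = 1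
  sym : βᵀ = β
  jet : HM (Bm F D) q β (fun _ => 0)
    (-(β * Matrix.diagonal (fun a : F.Q => deriv (fun t => F.lam t a) q.1) * β))
  nn : ∀ f, 0 ≤ qf β f
  le : ∀ f, qf β f ≤ qf (cp F.Q F.E0) f
  ge : ∀ f, qf (cp F.Q F.E0) f ≤ 2 * qf β f

theorem ldr (jal : JalStmt) (jma : JmaStmt) (h : F.Ok c₀ C₀)
    (hD : Dᵀ * cp F.Q F.E0 * D = 1) {q : ℝ × (F.b → ℝ)} (h0 : 0 ≤ q.1) (h1 : q.1 ≤ F.T)
    (hl : (∀ x, 0 ≤ F.lam q.1 x) ∧
      ∀ φ : X → ℝ, (∀ x, x ∉ F.Q → φ x = 0) → ∃ f : X → ℝ, (∀ x, x ∉ F.Q → f x = 0) ∧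
        ∑ x, F.lam q.1 x * φ x ^ 2 ≤ 2 * ∑ x, f x * φ x - qf F.E0 f) :
    ∃ β, Ldr D β q := by
  obtain ⟨β, b1, b2, b3, b4, b5, b6⟩ := lad jal jma q (cp F.Q F.E0) D
    (fun t (a : F.Q) => F.lam t a) 1 zero_le_one hD (fun a => (lam_jet h h0 h1 a).1)
    (fun a => hl.1 a) (fun f => by
      obtain ⟨f', hf', h2⟩ := hl.2 (ex F.Q f) fun x hx => ex_out _ _ x hx
      have h3 := dual_le hD (rs F.Q f') f
      have e1 : rs F.Q f' ⬝ᵥ f = ∑ x, f' x * ex F.Q f x := by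
        rw [dotProduct_comm, dot_rs]
        exact Finset.sum_congr rfl fun x _ => mul_comm _ _
      have e2 : qf (cp F.Q F.E0) (rs F.Q f') = qf F.E0 f' := by rw [qf_cp, ex_rs _ _ hf']
      have e3 : qf (Matrix.diagonal fun a : F.Q => F.lam q.1 a) f =
          ∑ x, F.lam q.1 x * ex F.Q f x ^ 2 := by
        rw [qf_dot, dotProduct, sum_out F.Q (fun x => F.lam q.1 x * ex F.Q f x ^ 2) fun x hx => by
          rw [ex_out _ _ x hx]; ring]
        refine Finset.sum_congr rfl fun a _ => ?_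
        rw [Matrix.mulVec_diagonal, ex_mem]
        ring
      rw [e1, e2] at h3
      rw [e3, one_mul]
      exact h2.trans h3)
  exact ⟨β, b1, b2, b3, b4, b5, fun f => by have := b6 f; linarith only [this]⟩

/-- the thresholds hold if the functional is less than one -/
theorem pt_of (h : F.Ok c₀ C₀) (hD : Dᵀ * cp F.Q F.E0 * D = 1) {β : Matrix F.Q F.Q ℝ}
    {q : ℝ × (F.b → ℝ)} (h0 : 0 ≤ q.1) (h1 : q.1 ≤ F.T) (hβ : Ldr D β q)
    (hs : (F.Et q)ᵀ = F.Et q) (hG : uG F q ≤ 1) (hL : uL F q ≤ 1)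
    (hX : uS (Dᵀ * (cp F.Q (F.Et q) - β) * D) F.ε₁ F.n < 1) :
    F.Pt q ∧ ∀ f : F.Q → ℝ, |qf (cp F.Q (F.Et q) - β) f| ≤ F.ε₁ * qf (cp F.Q F.E0) f := by
  obtain ⟨-, -, -, -, -, -, -, hδ, hLp, hω, -, hε0, -, -, -, hε1, hε1', hδY, hn, hnL⟩ := h.num
  have hX' : ∀ f : F.Q → ℝ, |qf (cp F.Q (F.Et q) - β) f| ≤ F.ε₁ * qf (cp F.Q F.E0) f := by
    refine trn_conj hD ?_ hε1 hn hX
    rw [Matrix.transpose_sub, cp_trans _ _ hs, hβ.sym]
  have hsub : ∀ f : F.Q → ℝ, qf (cp F.Q (F.Et q) - β) f = qf (cp F.Q (F.Et q)) f - qf β f := by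
    intro f
    rw [sub_eq_add_neg, qf_add, qf_neg]
    ring
  refine ⟨⟨⟨h0, h1⟩, ?_, ?_, ?_, ?_⟩, hX'⟩
  · intro x hx y hy
    exact of_nsq hδ hn hG (⟨x, hx⟩, ⟨y, hy⟩)
  · intro x hx
    have h2 := of_pow_sum (v := fun a : F.Q1 =>
      LaR (F.Gt q) F.R a / (LaR F.G0 F.R a + F.ω * F.L) / (fun _ : ℝ => (1 : ℝ)) q.1)
      (fun a => by simp only [div_one]; exact div_nonneg (LaR_nonneg _ _ _) (ell_pos h _).le)
      (hn.trans hnL) hL ⟨x, hx⟩
    simp only [div_one] at h2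
    exact (div_le_one (ell_pos h x)).1 h2
  · intro f hf
    have h2 := hX' (rs F.Q f)
    have h3 := hβ.le (rs F.Q f)
    have h4 := hβ.nn (rs F.Q f)
    rw [hsub, qf_cp, qf_cp, ex_rs _ _ hf] at h2
    rw [qf_cp, ex_rs _ _ hf] at h3
    rw [abs_le] at h2 ⊢
    have h5 : F.ε₁ * qf F.E0 f ≤ qf F.E0 f := by
      have : 0 ≤ qf F.E0 f := h4.trans h3
      nlinarith only [hε1, hε1', h2]
    constructor <;> linarith [h2.1, h2.2, h4.trans h3]
  · intro f φ hf hφ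
    have hφQ : ∀ x, x ∉ F.Q → φ x = 0 := fun x hx => hφ x fun h' => hx (Finset.mem_inter.1 h').2
    have h2 := hX' (rs F.Q f)
    rw [hsub, qf_cp, qf_cp, ex_rs _ _ hf, abs_le] at h2
    have h3 := young hβ.inv hβ.sym hβ.nn (rs F.Q f) (rs F.Q φ)
    have e1 : rs F.Q f ⬝ᵥ rs F.Q φ = ∑ x, f x * φ x := by
      rw [dot_rs, ex_rs _ _ hf]
    have e2 : qf (Matrix.diagonal fun a : F.Q => F.lam q.1 a) (rs F.Q φ) =
        ∑ x ∈ F.R, F.lam q.1 x * φ x ^ 2 := by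
      have e3 : ∑ x ∈ F.R, F.lam q.1 x * φ x ^ 2 = ∑ x, F.lam q.1 x * φ x ^ 2 := by
        refine Finset.sum_subset (Finset.subset_univ _) fun x _ hx => ?_
        rw [hφ x hx]; ring
      rw [e3, qf_dot, dotProduct, sum_out F.Q (fun x => F.lam q.1 x * φ x ^ 2) fun x hx => by
          rw [hφQ x hx]; ring]
      refine Finset.sum_congr rfl fun a _ => ?_
      rw [Matrix.mulVec_diagonal]
      unfold rs
      ring
    obtain ⟨f', hf', h4⟩ := W_prop hD φ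
    have h5 := h.hS2 f' φ hf' hφ
    rw [e1, qf_add, e2] at h3
    have h6 : (1 + F.ε) * ∑ x ∈ F.R, φ x ^ 2 / (F.k 0 x * F.g x) +
        ∑ x ∈ F.R, F.lam q.1 x * φ x ^ 2 ≤
        (1 + F.ε) * ∑ x ∈ F.R, φ x ^ 2 / (F.k q.1 x * F.g x) := by
      rw [Finset.mul_sum, Finset.mul_sum, ← Finset.sum_add_distrib]
      refine Finset.sum_le_sum fun x hx => ?_
      have hxA : x ∈ F.A := h.hQ.2.2 (Finset.mem_inter.1 hx).2
      have h7 := lam_le h h0 h1 hxA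
      calc (1 + F.ε) * (φ x ^ 2 / (F.k 0 x * F.g x)) + F.lam q.1 x * φ x ^ 2 =
            ((1 + F.ε) * (1 / (F.k 0 x * F.g x)) + F.lam q.1 x) * φ x ^ 2 := by ring
        _ ≤ ((1 + F.ε) * (1 / (F.k q.1 x * F.g x))) * φ x ^ 2 :=
            mul_le_mul_of_nonneg_right h7 (sq_nonneg _)
        _ = _ := by ring
    linarith only [h2.1, h3, h4, h5, h6]

end point

end Pool.Agent.AFL.H48
end
end -- Pool.Agent.Helper48_AFL.Pnt

section -- Pool.Agent.Helper48_AFL.Prt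

/-!
# Block lemma FLO: the parts of the functional, jets and bounds
-/

set_option autoImplicit false
set_option linter.unusedSectionVars false

open MeasureTheory ProbabilityTheory Function Filter

open scoped ENNReal BigOperators Topology NNReal Matrix

noncomputable section

namespace Pool.Agent.AFL.H48

open Pool.Agent.LE.QF Pool.Agent.LE.QF.H40 Pool.Agent.AFJ Pool.Agent.ABY Pool.Agent.AN2.H48

variable {X : Type} [Fintype X] [DecidableEq X]

/-! ### symmetry -/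

theorem dl_symm {K : Matrix X X ℝ} (h : ∀ x y, K x y = K y x) : (Dl K)ᵀ = Dl K := by
  unfold Dl
  rw [Matrix.transpose_sub, Matrix.diagonal_transpose]
  congr 1
  ext x y
  exact h y x

theorem kk_symm {G : Matrix X X ℂ} (hs : ∀ x y, G x y = G y x) (x y : X) :
    KK G x y = KK G y x := by
  unfold KK; rw [hs]

theorem ee_sym {G : Matrix X X ℂ} (hs : ∀ x y, G x y = G y x) (κ : X → ℝ) (A : Finset X) :
    (EE G κ A)ᵀ = EE G κ A := by
  refine dl_symm fun x y => ?_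
  unfold cd
  rw [kk_symm hs x y]
  by_cases h : x ∈ A ∧ y ∈ A
  · rw [if_pos h, if_pos h.symm]; ring
  · rw [if_neg h, if_neg fun h' => h h'.symm]

theorem ec_sym {G : Matrix X X ℂ} (hs : ∀ x y, G x y = G y x) (κ : X → ℝ) (A : Finset X) (c : X) :
    (Ec G κ A c)ᵀ = Ec G κ A c := by
  refine dl_symm fun x y => ?_
  have e1 : dK G c x y = dK G c y x := by
    unfold dK
    rw [hs x y, hs x c, hs c y]
    congr 2
    ring_nf
  unfold cdc
  rw [e1]
  by_cases h : x ∈ A ∧ y ∈ A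
  · rw [if_pos h, if_pos h.symm]; ring
  · rw [if_neg h, if_neg fun h' => h h'.symm]

theorem er_sym {G : Matrix X X ℂ} (hs : ∀ x y, G x y = G y x) (κ g : X → ℝ) (μ : X → ℂ)
    (A b : Finset X) : (Dl (ee G κ g μ A b))ᵀ = Dl (ee G κ g μ A b) := by
  refine dl_symm fun x y => ?_
  unfold ee
  rw [kk_symm hs x y, Pool.Agent.AWD.EK_symm hs μ x y]
  by_cases h : x ∈ A ∧ y ∈ A
  · rw [if_pos h, if_pos h.symm]; ring
  · rw [if_neg h, if_neg fun h' => h h'.symm]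

variable {F : Fl X} {c₀ C₀ : ℝ}

theorem gt_symm (h : F.Ok c₀ C₀) (r : ℝ × (F.b → ℝ)) (x y : X) : F.Gt r x y = F.Gt r y x := by
  have h1 : (F.Gt r)ᵀ = F.Gt r := by
    unfold Fl.Gt Blk.G
    rw [Matrix.transpose_nonsing_inv]
    congr 1
    rw [Matrix.transpose_add, Matrix.diagonal_transpose]
    congr 1
    ext i j
    show ((F.H j i : ℝ) : ℂ) = ((F.H i j : ℝ) : ℂ)
    rw [h.sym]
  exact congrFun (congrFun h1 y) x

theorem et_symm (h : F.Ok c₀ C₀) (r : ℝ × (F.b → ℝ)) : (F.Et r)ᵀ = F.Et r :=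
  ee_sym (gt_symm h r) _ _

theorem bm_symm (D : Matrix F.Q F.Q ℝ) (r : ℝ × (F.b → ℝ)) : (Bm F D r)ᵀ = Bm F D r := by
  unfold Bm
  rw [Matrix.transpose_nonsing_inv]
  congr 1
  rw [Matrix.transpose_add, Matrix.diagonal_transpose, Matrix.transpose_mul,
    Matrix.transpose_transpose]

theorem uX_nonneg (h : F.Ok c₀ C₀) (D : Matrix F.Q F.Q ℝ) (r : ℝ × (F.b → ℝ)) : 0 ≤ uX F D r := by
  refine uS_nonneg ?_ _ _
  rw [Matrix.transpose_mul, Matrix.transpose_mul, Matrix.transpose_transpose,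
    Matrix.transpose_sub, cp_trans _ _ (et_symm h r), bm_symm, mul_assoc]

/-! ### the rates are nonnegative -/

theorem mus_nonneg (h : F.Ok c₀ C₀) : 0 ≤ F.μs := by
  obtain ⟨-, -, -, -, -, -, hN, hδ, -⟩ := h.num
  unfold Fl.μs
  positivity

theorem aG_nonneg (h : F.Ok c₀ C₀) : 0 ≤ F.aG := by
  obtain ⟨hκ, -, hr, -, -, -, hN, hδ, hL, -⟩ := h.num
  have := mus_nonneg h
  unfold Fl.aG
  have : 0 ≤ F.r := by linarith
  positivity

theorem aK_nonneg (h : F.Ok c₀ C₀) : 0 ≤ F.aK C₀ := by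
  obtain ⟨hκ, -, hr, -, -, hC₀, hN, hδ, hL, hω, -, hε, -, hs1, hs2, hε₁, -⟩ := h.num
  unfold Fl.aK
  have : 0 ≤ F.r := by linarith
  have : 0 ≤ C₀ := by linarith
  positivity

theorem sg_nonneg (h : F.Ok c₀ C₀) : 0 ≤ F.sg C₀ := by
  obtain ⟨hκ, -, hr, -, -, hC₀, hN, hδ, hL, hω, -, hε, -, hs1, hs2, hε₁, -⟩ := h.num
  unfold Fl.sg
  positivity

theorem aL_nonneg (h : F.Ok c₀ C₀) : 0 ≤ F.aL C₀ := by
  have h1 := aK_nonneg h
  have h2 := h.hz.1
  have h3 := h.num.1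
  have h4 : 0 < F.L0 := by linarith [h.hL0.1]
  unfold Fl.aL
  positivity

theorem yd_nonneg (h : F.Ok c₀ C₀) {C : ℝ} (hC : 1 ≤ C) : 0 ≤ F.yd C := by
  have h1 := mus_nonneg h
  have h3 := h.num.1
  unfold Fl.yd
  have : 0 ≤ C := by linarith
  positivity

theorem yn_nonneg {C : ℝ} (hC : 1 ≤ C) : 0 ≤ F.yn C := by
  unfold Fl.yn
  have : 0 ≤ C := by linarith
  positivity

theorem aY_nonneg (h : F.Ok c₀ C₀) {C : ℝ} (hC : 1 ≤ C) : 0 ≤ F.aY C := by
  have h1 := yd_nonneg h hC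
  have h2 := yn_nonneg (F := F) hC
  have h3 : 0 < F.δY := h.num.2.2.2.2.2.2.2.2.2.2.2.2.2.2.2.2.2.1
  unfold Fl.aY
  positivity

theorem nu_nonneg (h : F.Ok c₀ C₀) : 0 ≤ F.nu c₀ := by
  obtain ⟨hκ, -, hr, hc, -, hC₀, hN, hδ, hL, hω, -, hε, -, hs1, hs2, hε₁, -⟩ := h.num
  obtain ⟨hs3, ho⟩ := h.hs3
  unfold Fl.nu
  have : 0 ≤ F.r := by linarith
  positivity

theorem aS_nonneg (h : F.Ok c₀ C₀) : 0 ≤ F.aS c₀ := by
  obtain ⟨hκ, -, hr, hc, -, hC₀, hN, hδ, hL, hω, -, hε, -, hs1, hs2, hε₁, -⟩ := h.num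
  have h1 := mus_nonneg h
  have h2 := nu_nonneg h
  unfold Fl.aS
  have : 0 ≤ F.r := by linarith
  positivity

theorem rt_nonneg (h : F.Ok c₀ C₀) {C : ℝ} (hC : 1 ≤ C) : 0 ≤ F.rt c₀ C₀ C := by
  have h1 := aG_nonneg h
  have h2 := aL_nonneg h
  have h3 := aY_nonneg h hC
  have h4 := aS_nonneg h
  unfold Fl.rt
  positivity

theorem cd_nonneg : 0 ≤ F.cd := by
  unfold Fl.cd
  positivity

/-! ### jets -/

variable {q : ℝ × (F.b → ℝ)}

/-- entries -/
theorem jG (pwu : PwuStmt) (h : F.Ok c₀ C₀)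
    (hg : ∀ x ∈ F.Q1, ∀ y ∈ F.Q1, ∃ (g' : F.b → ℂ) (l' : ℂ),
      HJ (fun r => F.Gt r x y - F.G0 x y) q (F.Gt q x y - F.G0 x y) g' l' ∧
      ‖l'‖ ≤ F.μs * F.r / F.κv ∧ ∑ c, ‖g' c‖ ^ 2 ≤ F.L) :
    ∃ (g' : F.b → ℝ) (l' : ℝ), HJ (uG F) q (uG F q) g' l' ∧
      l' ≤ F.aG * (uG F q + (F.Q1.card : ℝ) ^ 2 * (1 / 4) ^ F.n) := by
  obtain ⟨hκ, -, hr, -, -, -, hN, hδ, hL, -⟩ := h.num
  have h1 : ∀ p : F.Q1 × F.Q1, ∃ (g' : F.b → ℂ) (l' : ℂ),
      HJ (fun r => F.Gt r p.1 p.2 - F.G0 p.1 p.2) q (F.Gt q p.1 p.2 - F.G0 p.1 p.2) g' l' ∧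
      ‖l'‖ ≤ F.μs * F.r / F.κv ∧ ∑ c, ‖g' c‖ ^ 2 ≤ F.L := fun p => hg p.1 p.1.2 p.2 p.2.2
  choose g' l' h2 h3 h4 using h1
  have hr' : 0 ≤ F.r := by linarith
  obtain ⟨a, l, h5, h6⟩ := pwu F.b q (F.Q1 × F.Q1) (fun p r => F.Gt r p.1 p.2 - F.G0 p.1 p.2)
    (fun p => F.Gt q p.1 p.2 - F.G0 p.1 p.2) l' g' F.δ (F.μs * F.r / F.κv) F.L F.n hδ
    (div_nonneg (mul_nonneg (mus_nonneg h) hr') hκ.le) hL.le
    h.num.2.2.2.2.2.2.2.2.2.2.2.2.2.2.2.2.2.2.1 h2 h3 h4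
  refine ⟨a, l, h5, h6.trans (le_of_eq ?_)⟩
  rw [Fintype.card_prod, Fintype.card_coe, Fl.aG, uG]
  push_cast
  ring

/-- `Λ` -/
theorem jL (lmu : LmuStmt) (h : F.Ok c₀ C₀)
    (hg : ∀ x ∈ F.Q1, ∃ (g' : F.b → ℝ) (l' : ℝ),
      HJ (fun r => LaR (F.Gt r) F.R x / (LaR F.G0 F.R x + F.ω * F.L)) q
        (LaR (F.Gt q) F.R x / (LaR F.G0 F.R x + F.ω * F.L)) g' l' ∧
      l' ≤ 6 * (F.aK C₀ * (LaR (F.Gt q) F.R x / (LaR F.G0 F.R x + F.ω * F.L)) + F.sg C₀) +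
        2 * F.z * (1 + LaR (F.Gt q) F.R x / (LaR F.G0 F.R x + F.ω * F.L)) ∧
      ∑ c, g' c ^ 2 ≤ 16 * (LaR (F.Gt q) F.R x / (LaR F.G0 F.R x + F.ω * F.L)) *
        (F.aK C₀ * (LaR (F.Gt q) F.R x / (LaR F.G0 F.R x + F.ω * F.L)) + F.sg C₀)) :
    ∃ (g' : F.b → ℝ) (l' : ℝ), HJ (uL F) q (uL F q) g' l' ∧
      l' ≤ F.aL C₀ * (uL F q + (F.Q1.card : ℝ) * (1 / 4) ^ F.nL) := by
  have hκ := h.num.1
  have hn : 1 ≤ F.nL := h.num.2.2.2.2.2.2.2.2.2.2.2.2.2.2.2.2.2.2.1.trans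
    h.num.2.2.2.2.2.2.2.2.2.2.2.2.2.2.2.2.2.2.2
  have haK := aK_nonneg h
  have hsg := sg_nonneg h
  have hz := h.hz.1
  have hL0 := h.hL0
  have h1 : ∀ a : F.Q1, ∃ (g' : F.b → ℝ) (l' : ℝ),
      HJ (fun r => LaR (F.Gt r) F.R a / (LaR F.G0 F.R a + F.ω * F.L)) q
        (LaR (F.Gt q) F.R a / (LaR F.G0 F.R a + F.ω * F.L)) g' l' ∧
      l' ≤ 6 * (F.aK C₀ * (LaR (F.Gt q) F.R a / (LaR F.G0 F.R a + F.ω * F.L)) + F.sg C₀) +
        2 * F.z * (1 + LaR (F.Gt q) F.R a / (LaR F.G0 F.R a + F.ω * F.L)) ∧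
      ∑ c, g' c ^ 2 ≤ 16 * (LaR (F.Gt q) F.R a / (LaR F.G0 F.R a + F.ω * F.L)) *
        (F.aK C₀ * (LaR (F.Gt q) F.R a / (LaR F.G0 F.R a + F.ω * F.L)) + F.sg C₀) :=
    fun a => hg a a.2
  choose g' l' h2 h3 h4 using h1
  have hv : ∀ a : F.Q1, 0 ≤ LaR (F.Gt q) F.R a / (LaR F.G0 F.R a + F.ω * F.L) := fun a =>
    div_nonneg (LaR_nonneg _ _ _) (ell_pos h _).le
  -- the constant part
  have hc : 16 * F.sg C₀ + 2 * F.z ≤ 1 / F.κv * (1 / F.L0) := by
    have h5 : 0 < F.L0 := by linarith only [hL0.1]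
    rw [← mul_one_div_comm_aux, le_div_iff₀ (mul_pos hκ h5)]
    linarith only [hL0.2]
  obtain ⟨a, l, h5, h6⟩ := lmu F.b q F.Q1
    (fun a r => LaR (F.Gt r) F.R a / (LaR F.G0 F.R a + F.ω * F.L))
    (fun a => LaR (F.Gt q) F.R a / (LaR F.G0 F.R a + F.ω * F.L)) l' g' (fun _ => 1) 1 F.κv 1 F.L0
    (F.κv * (16 * F.aK C₀ + 2 * F.z)) F.nL zero_le_one hκ one_pos hL0.1 (by positivity) hn h2
    contDiffAt_const rfl (by simp) hv
    (fun a => by
      refine (h3 a).trans ?_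
      have h7 : 0 ≤ Real.sqrt (1 * (LaR (F.Gt q) F.R a / (LaR F.G0 F.R a + F.ω * F.L)) / F.L0) :=
        Real.sqrt_nonneg _
      have h8 := hv a
      set f := LaR (F.Gt q) F.R a / (LaR F.G0 F.R a + F.ω * F.L)
      have h9 : 1 / F.κv * (F.κv * (16 * F.aK C₀ + 2 * F.z) * f) = (16 * F.aK C₀ + 2 * F.z) * f := by
        field_simp
      have h10 : 0 ≤ 1 / F.κv * Real.sqrt (1 * f / F.L0) := by positivity
      have h12 : 1 / F.κv * (1 / F.L0 + Real.sqrt (1 * f / F.L0) +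
          F.κv * (16 * F.aK C₀ + 2 * F.z) * f) = 1 / F.κv * (1 / F.L0) +
          1 / F.κv * Real.sqrt (1 * f / F.L0) + (16 * F.aK C₀ + 2 * F.z) * f := by
        rw [mul_add, mul_add, h9]
      rw [h12]
      nlinarith only [mul_nonneg haK h8, hsg, hc, h10])
    (fun a => by
      refine (h4 a).trans ?_
      have h7 : 0 ≤ Real.sqrt (1 * (LaR (F.Gt q) F.R a / (LaR F.G0 F.R a + F.ω * F.L)) / F.L0) :=
        Real.sqrt_nonneg _
      have h8 := hv a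
      set f := LaR (F.Gt q) F.R a / (LaR F.G0 F.R a + F.ω * F.L)
      have h9 : 1 / F.κv * (F.κv * (16 * F.aK C₀ + 2 * F.z) * f) = (16 * F.aK C₀ + 2 * F.z) * f := by
        field_simp
      have h10 : 0 ≤ 1 / F.κv * Real.sqrt (1 * f / F.L0) := by positivity
      have h11 : 16 * f * (F.aK C₀ * f + F.sg C₀) = f * (16 * F.aK C₀ * f + 16 * F.sg C₀) := by
        ring
      rw [h11]
      refine mul_le_mul_of_nonneg_left ?_ h8
      have h12 : 1 / F.κv * (1 / F.L0 + Real.sqrt (1 * f / F.L0) +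
          F.κv * (16 * F.aK C₀ + 2 * F.z) * f) = 1 / F.κv * (1 / F.L0) +
          1 / F.κv * Real.sqrt (1 * f / F.L0) + (16 * F.aK C₀ + 2 * F.z) * f := by
        rw [mul_add, mul_add, h9]
      rw [h12]
      nlinarith only [mul_nonneg hz h8, hz, hc, h8, h10])
  refine ⟨a, l, h5, h6.trans (le_of_eq ?_)⟩
  rw [Fintype.card_coe, Fl.aL, uL]
where
  mul_one_div_comm_aux {a b : ℝ} : 1 / (a * b) = 1 / a * (1 / b) := by
    rw [one_div_mul_one_div]

/-- the pair of block Y -/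
theorem jYK (jal : JalStmt) (pwu : PwuStmt) (h : F.Ok c₀ C₀) {C : ℝ} (hC : 1 ≤ C)
    (hg : ∀ a ∈ F.Rg,
      (∃ (g' : F.b → ℂ) (l' : ℂ), HJ (fun r => vir (BB (F.Gt r)) (F.Pf r.1) F.w a) q
          (vir (BB (F.Gt q)) (F.Pf q.1) F.w a) g' l' ∧ ∑ c, ‖g' c‖ ^ 2 ≤ F.yn C ∧ ‖l'‖ ≤ F.yd C) ∧
      ∃ (g' : F.b → ℝ) (l' : ℝ), HJ (fun r => vir (KK (F.Gt r)) (F.Pf r.1) F.w a) q
          (vir (KK (F.Gt q)) (F.Pf q.1) F.w a) g' l' ∧ ∑ c, g' c ^ 2 ≤ F.yn C ∧ |l'| ≤ F.yd C) :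
    (∃ (g' : F.b → ℝ) (l' : ℝ), HJ (uY F) q (uY F q) g' l' ∧
      l' ≤ F.aY C * (uY F q + (F.Q1.card : ℝ) * (1 / 4) ^ F.n)) ∧
    ∃ (g' : F.b → ℝ) (l' : ℝ), HJ (uK F) q (uK F q) g' l' ∧
      l' ≤ F.aY C * (uK F q + (F.Q1.card : ℝ) * (1 / 4) ^ F.n) := by
  have hδY : 0 < F.δY := h.num.2.2.2.2.2.2.2.2.2.2.2.2.2.2.2.2.2.1
  have hn : 1 ≤ F.n := h.num.2.2.2.2.2.2.2.2.2.2.2.2.2.2.2.2.2.2.1
  have hcard : ((F.Q1 ∩ F.Rg).card : ℝ) ≤ F.Q1.card := by
    exact_mod_cast Finset.card_le_card Finset.inter_subset_left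
  have hpow : (0 : ℝ) ≤ (1 / 4) ^ F.n := by positivity
  have hY := aY_nonneg h hC
  constructor
  · have h1 : ∀ a : (F.Q1 ∩ F.Rg : Finset X), ∃ (g' : F.b → ℂ) (l' : ℂ),
        HJ (fun r => vir (BB (F.Gt r)) (F.Pf r.1) F.w a - vir (BB F.G0) F.P0 F.w a) q
          (vir (BB (F.Gt q)) (F.Pf q.1) F.w a - vir (BB F.G0) F.P0 F.w a) g' l' ∧
        ‖l'‖ ≤ F.yd C ∧ ∑ c, ‖g' c‖ ^ 2 ≤ F.yn C := by
      intro a
      obtain ⟨g', l', j1, j2, j3⟩ := (hg a (Finset.mem_inter.1 a.2).2).1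
      have j4 := ((jal F.b ℂ q).2.2.1 _ _ _ _ _ _ _ _ j1
        ((jal F.b ℂ q).1 (vir (BB F.G0) F.P0 F.w a))).2.1
      refine ⟨_, _, j4, ?_, ?_⟩
      · simpa using j3
      · simpa using j2
    choose g' l' h2 h3 h4 using h1
    obtain ⟨a, l, h5, h6⟩ := pwu F.b q (F.Q1 ∩ F.Rg : Finset X) _ _ l' g' F.δY (F.yd C) (F.yn C)
      F.n hδY (yd_nonneg h hC) (yn_nonneg hC) hn h2 h3 h4
    refine ⟨a, l, h5, h6.trans ?_⟩
    rw [Fintype.card_coe]
    refine mul_le_mul_of_nonneg_left ?_ hY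
    refine add_le_add le_rfl (mul_le_mul_of_nonneg_right hcard hpow)
  · have h1 : ∀ a : (F.Q1 ∩ F.Rg : Finset X), ∃ (g' : F.b → ℂ) (l' : ℂ),
        HJ (fun r => ((vir (KK (F.Gt r)) (F.Pf r.1) F.w a - vir (KK F.G0) F.P0 F.w a : ℝ) : ℂ)) q
          ((vir (KK (F.Gt q)) (F.Pf q.1) F.w a - vir (KK F.G0) F.P0 F.w a : ℝ) : ℂ) g' l' ∧
        ‖l'‖ ≤ F.yd C ∧ ∑ c, ‖g' c‖ ^ 2 ≤ F.yn C := by
      intro a
      obtain ⟨g', l', j1, j2, j3⟩ := (hg a (Finset.mem_inter.1 a.2).2).2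
      have j4 := ((jal F.b ℝ q).2.2.1 _ _ _ _ _ _ _ _ j1
        ((jal F.b ℝ q).1 (vir (KK F.G0) F.P0 F.w a))).2.1
      have j5 := ((jal F.b ℂ q).2.2.2.2.1 _ _ _ _ j4).1
      refine ⟨_, _, j5, ?_, ?_⟩
      · refine le_trans (le_of_eq ?_) j3
        simp
      · refine le_trans (le_of_eq ?_) j2
        refine Finset.sum_congr rfl fun c _ => ?_
        simp
    choose g' l' h2 h3 h4 using h1
    obtain ⟨a, l, h5, h6⟩ := pwu F.b q (F.Q1 ∩ F.Rg : Finset X) _ _ l' g' F.δY (F.yd C) (F.yn C)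
      F.n hδY (yd_nonneg h hC) (yn_nonneg hC) hn h2 h3 h4
    refine ⟨a, l, h5, h6.trans ?_⟩
    rw [Fintype.card_coe]
    refine mul_le_mul_of_nonneg_left ?_ hY
    refine add_le_add le_rfl (mul_le_mul_of_nonneg_right hcard hpow)

/-- the jet of the compressed form -/
theorem jE (jal : JalStmt) (bkj : BkjStmt) (bej : BejStmt) (h : F.Ok c₀ C₀)
    (h0 : 0 ≤ q.1) (h1 : q.1 ≤ F.T) (hB : BJ q F.Gt F.k (F.Gt q) (F.k q.1) F.mb) :
    HM (fun r => cp F.Q (F.Et r)) q (cp F.Q (F.Et q))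
      (fun c => cp F.Q (Ec (F.Gt q) (F.k q.1) F.A (c : X)))
      (-(cp F.Q (F.Et q) * Matrix.diagonal (fun a : F.Q => deriv (fun t => F.lam t a) q.1) *
        cp F.Q (F.Et q)) +
        cp F.Q (Dl (ee (F.Gt q) (F.k q.1) F.g (mub (F.Gt q) F.mb F.b) F.A F.b))) := by
  have hJ := bej jal bkj X F.b F.A q F.Gt F.k (F.Gt q) (F.k q.1) F.mb hB (bA h)
    (fun x => (h.pos q.1 x h0 h1).ne')
  have e1 : (fun a : F.Q => deriv (fun t => F.lam t a) q.1) =
      fun a : F.Q => (fun x => ind F.b x / F.k q.1 x ^ 2) (a : X) := by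
    funext a
    exact (lam_jet h h0 h1 a).2
  rw [e1, ← cp_diag F.Q _ _ (fun x => ind F.b x / F.k q.1 x ^ 2) (fun x hx => by
    have : x ∉ F.b := fun h' => hx (h.hQ.2.1 (h.hQ.1 h'))
    simp [ind, this])]
  exact fun a b => hJ a b

/-- the form -/
theorem jX (jal : JalStmt) (jma : JmaStmt) (ytj : YtjStmt) (bkj : BkjStmt) (bej : BejStmt)
    (h : F.Ok c₀ C₀) {D β : Matrix F.Q F.Q ℝ} (hD : Dᵀ * cp F.Q F.E0 * D = 1)
    (h0 : 0 ≤ q.1) (h1 : q.1 ≤ F.T) (hβ : Ldr D β q)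
    (hB : BJ q F.Gt F.k (F.Gt q) (F.k q.1) F.mb) (hP : F.Pt q)
    (hdr1 : ∀ f : X → ℝ, (∀ x, x ∉ F.Q → f x = 0) →
      |qf (Dl (ee (F.Gt q) (F.k q.1) F.g (mub (F.Gt q) F.mb F.b) F.A F.b)) f| ≤
        2 * ((2 * ((F.N + 2) * F.δ) + 4 * F.μs) / F.κv) * qf F.E0 f)
    (hdr2 : ∀ f : X → ℝ,
      ∑ x ∈ F.b, ((F.E0 *ᵥ f) x / F.k q.1 x) ^ 2 ≤ 4 * F.r / F.κv * qf F.E0 f)
    (hnu : ∀ W : (X → ℝ) → ℝ,
      (∀ φ : X → ℝ, (∀ x, x ∉ F.Q → φ x = 0) → ∃ f : X → ℝ, (∀ x, x ∉ F.Q → f x = 0) ∧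
        W φ ≤ 2 * ∑ x, f x * φ x - qf F.E0 f) →
      ∀ f : X → ℝ, (∀ x, x ∉ F.Q → f x = 0) →
        ∑ c ∈ F.b, W (fun x => if x ∈ F.Q then (Ec (F.Gt q) (F.k q.1) F.A c *ᵥ f) x else 0) ≤
          F.nu c₀ * qf F.E0 f) :
    ∃ (g' : F.b → ℝ) (l' : ℝ), HJ (uX F D) q (uX F D q) g' l' ∧
      l' ≤ F.aS c₀ * (uX F D q + (F.Q.card : ℝ) * (1 / 4) ^ F.n) := by
  obtain ⟨hκ, -, hr, hc, -, hC₀, hN, hδ, hL, hω, -, hε, -, hs1, hs2, hε₁, -, -, hn, -⟩ := h.num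
  have hs := gt_symm h q
  have hμ := mus_nonneg h
  have hE0s : (F.E0)ᵀ = F.E0 := et_symm h (0, 0)
  have hqX : ∀ f : F.Q → ℝ, qf (cp F.Q F.E0) f = qf F.E0 (ex F.Q f) := fun f => qf_cp _ _ _
  have hexo : ∀ f : F.Q → ℝ, ∀ x, x ∉ F.Q → ex F.Q f x = 0 := fun f x hx => ex_out _ _ x hx
  have hr' : 0 ≤ F.r := by linarith only [hr]
  obtain ⟨a, l, h5, h6⟩ := fru ytj jal jma q (fun r => cp F.Q (F.Et r)) (Bm F D) (cp F.Q F.E0) D
    (cp F.Q (F.Et q)) β (cp F.Q (Dl (ee (F.Gt q) (F.k q.1) F.g (mub (F.Gt q) F.mb F.b) F.A F.b)))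
    (Matrix.diagonal (fun a : F.Q => deriv (fun t => F.lam t a) q.1))
    (fun c => cp F.Q (Ec (F.Gt q) (F.k q.1) F.A (c : X)))
    (4 * F.r / F.κv) (2 * ((2 * ((F.N + 2) * F.δ) + 4 * F.μs) / F.κv)) F.ε₁ (F.nu c₀) F.n
    (by positivity) (by positivity) hε₁ (nu_nonneg h) hn (cp_trans _ _ hE0s) hD
    (cp_trans _ _ (et_symm h q)) hβ.sym (cp_trans _ _ (er_sym hs _ _ _ _ _))
    (Matrix.diagonal_transpose _) (fun c => cp_trans _ _ (ec_sym hs _ _ _))
    (jE jal bkj bej h h0 h1 hB) hβ.jet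
    (fun f => by rw [hqX, qf_cp]; exact hP.fru _ (hexo f))
    (fun f => by
      have h7 := hβ.nn f
      have h8 := hβ.le f
      rw [abs_of_nonneg h7]
      linarith only [h7, h8])
    (fun f => by rw [hqX, qf_cp]; exact hdr1 _ (hexo f))
    (fun f => by
      rw [hqX, cp_mulVec]
      have e1 : qf (Matrix.diagonal (fun a : F.Q => deriv (fun t => F.lam t a) q.1))
          (rs F.Q (F.E0 *ᵥ ex F.Q f)) =
          ∑ x ∈ F.b, ((F.E0 *ᵥ ex F.Q f) x / F.k q.1 x) ^ 2 := by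
        have e2 : ∑ x ∈ F.b, ((F.E0 *ᵥ ex F.Q f) x / F.k q.1 x) ^ 2 =
            ∑ x, ind F.b x * ((F.E0 *ᵥ ex F.Q f) x / F.k q.1 x) ^ 2 := by
          rw [← Finset.sum_subset (Finset.subset_univ F.b) fun x _ hx => by
            simp [ind, hx]]
          exact Finset.sum_congr rfl fun x hx => by simp [ind, hx]
        rw [e2, sum_out F.Q (fun x => ind F.b x * ((F.E0 *ᵥ ex F.Q f) x / F.k q.1 x) ^ 2)
          fun x hx => by
            have : x ∉ F.b := fun h' => hx (h.hQ.2.1 (h.hQ.1 h'))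
            simp [ind, this]]
        rw [qf_dot, dotProduct]
        refine Finset.sum_congr rfl fun a _ => ?_
        rw [Matrix.mulVec_diagonal, (lam_jet h h0 h1 a).2]
        unfold rs
        ring
      rw [e1, abs_of_nonneg (Finset.sum_nonneg fun x _ => sq_nonneg _)]
      exact hdr2 _)
    (fun f => by
      have h7 := hnu (fun φ => qf (D * Dᵀ) (rs F.Q φ)) (fun φ _ => W_prop hD φ) (ex F.Q f)
        (hexo f)
      rw [hqX]
      refine le_trans (le_of_eq ?_) h7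
      rw [← Finset.sum_coe_sort F.b]
      refine Finset.sum_congr rfl fun c _ => ?_
      rw [cp_mulVec]
      congr 1
      funext a
      unfold rs
      simp)
  have hval : Bm F D q = β := by
    ext i j
    exact (hβ.jet i j).vl
  refine ⟨a, l, ?_, ?_⟩
  · have e1 : uX F D q = uS (Dᵀ * (cp F.Q (F.Et q) - β) * D) F.ε₁ F.n := by
      unfold uX; rw [hval]
    rw [e1]
    exact h5
  · refine h6.trans (le_of_eq ?_)
    have e1 : uX F D q = uS (Dᵀ * (cp F.Q (F.Et q) - β) * D) F.ε₁ F.n := by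
      unfold uX; rw [hval]
    rw [Fintype.card_coe, ← e1, Fl.aS]

end Pool.Agent.AFL.H48
end
end -- Pool.Agent.Helper48_AFL.Prt

section -- Pool.Agent.Helper48_AFL.FLO

/-!
# Block lemma FLO: the proof
-/

set_option autoImplicit false
set_option linter.unusedSectionVars false

open MeasureTheory ProbabilityTheory Function Filter

open scoped ENNReal BigOperators Topology NNReal Matrix

noncomputable section

namespace Pool.Agent.AFL.H48

open Pool.Agent.LE.QF Pool.Agent.LE.QF.H40 Pool.Agent.AFJ Pool.Agent.ABY Pool.Agent.AN2.H48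

variable {X : Type} [Fintype X] [DecidableEq X] {F : Fl X} {c₀ C₀ : ℝ} {q : ℝ × (F.b → ℝ)}

/-! ### smoothness of the parts -/

theorem sG (hB : BJ q F.Gt F.k (F.Gt q) (F.k q.1) F.mb) : ContDiffAt ℝ 2 (uG F) q := by
  unfold uG
  refine ContDiffAt.sum fun p _ => ContDiffAt.pow (ContDiffAt.div_const (cd_nsq ?_) _) _
  exact (hB.hG _ _).sm.sub contDiffAt_const

theorem sL (hB : BJ q F.Gt F.k (F.Gt q) (F.k q.1) F.mb) : ContDiffAt ℝ 2 (uL F) q := by
  unfold uL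
  refine ContDiffAt.sum fun a _ => ContDiffAt.pow ?_ _
  simp only [div_one]
  refine ContDiffAt.div_const ?_ _
  unfold LaR KK
  refine ContDiffAt.sum fun y _ => ContDiffAt.pow (cd_nsq ?_) _
  exact (hB.hG _ _).sm

theorem sY (h : ∀ a ∈ F.Rg,
      ContDiffAt ℝ 2 (fun r => vir (BB (F.Gt r)) (F.Pf r.1) F.w a) q ∧
      ContDiffAt ℝ 2 (fun r => vir (KK (F.Gt r)) (F.Pf r.1) F.w a) q) :
    ContDiffAt ℝ 2 (uY F) q ∧ ContDiffAt ℝ 2 (uK F) q := by
  constructor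
  · unfold uY
    refine ContDiffAt.sum fun a _ => ContDiffAt.pow (ContDiffAt.div_const (cd_nsq ?_) _) _
    exact (h a (Finset.mem_inter.1 a.2).2).1.sub contDiffAt_const
  · unfold uK
    refine ContDiffAt.sum fun a _ => ContDiffAt.pow (ContDiffAt.div_const ?_ _) _
    have e1 : (fun r : ℝ × (F.b → ℝ) => ‖((vir (KK (F.Gt r)) (F.Pf r.1) F.w a -
        vir (KK F.G0) F.P0 F.w a : ℝ) : ℂ)‖ ^ 2) =
        fun r => (vir (KK (F.Gt r)) (F.Pf r.1) F.w a - vir (KK F.G0) F.P0 F.w a) ^ 2 := by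
      funext r
      rw [Complex.norm_real, Real.norm_eq_abs, sq_abs]
    rw [e1]
    exact ((h a (Finset.mem_inter.1 a.2).2).2.sub contDiffAt_const).pow _

theorem sX (jal : JalStmt) (bkj : BkjStmt) (bej : BejStmt) (h : F.Ok c₀ C₀)
    {D β : Matrix F.Q F.Q ℝ} (h0 : 0 ≤ q.1) (h1 : q.1 ≤ F.T) (hβ : Ldr D β q)
    (hB : BJ q F.Gt F.k (F.Gt q) (F.k q.1) F.mb) : ContDiffAt ℝ 2 (uX F D) q := by
  unfold uX
  refine cd_uS ?_ _ _
  refine cd_mul (cd_mul (fun i j => contDiffAt_const) fun i j => ?_) fun i j => contDiffAt_const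
  exact (jE jal bkj bej h h0 h1 hB i j).sm.sub (hβ.jet i j).sm

/-! ### the start -/

theorem start (h : F.Ok c₀ C₀) {D β : Matrix F.Q F.Q ℝ} (hD : Dᵀ * cp F.Q F.E0 * D = 1)
    (hβ : Ldr (F := F) D β (0, 0)) :
    uu F D (0, 0) ≤ F.Q1.card * (1 / (1 + F.ω)) ^ F.nL := by
  obtain ⟨-, -, -, -, -, -, -, hδ, hLp, hω, -, hε0, -, -, -, hε1, hε1', hδY, hn, hnL⟩ := h.num
  have hn0 : F.n ≠ 0 := by omega
  have e1 : uG F (0, 0) = 0 := by
    unfold uG
    refine Finset.sum_eq_zero fun p _ => ?_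
    show (‖F.Gt (0, 0) p.1 p.2 - F.Gt (0, 0) p.1 p.2‖ ^ 2 / F.δ ^ 2) ^ F.n = 0
    rw [sub_self, norm_zero]
    simp [hn0]
  have hPf : F.Pf 0 = F.P0 := by
    funext x
    simp [Fl.Pf]
  have e2 : uY F (0, 0) = 0 := by
    unfold uY
    refine Finset.sum_eq_zero fun a _ => ?_
    show (‖vir (BB (F.Gt (0, 0))) (F.Pf 0) F.w a - vir (BB (F.Gt (0, 0))) F.P0 F.w a‖ ^ 2 /
      F.δY ^ 2) ^ F.n = 0
    rw [hPf, sub_self, norm_zero]
    simp [hn0]
  have e3 : uK F (0, 0) = 0 := by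
    unfold uK
    refine Finset.sum_eq_zero fun a _ => ?_
    show (‖((vir (KK (F.Gt (0, 0))) (F.Pf 0) F.w a - vir (KK (F.Gt (0, 0))) F.P0 F.w a : ℝ) :
      ℂ)‖ ^ 2 / F.δY ^ 2) ^ F.n = 0
    rw [hPf, sub_self]
    simp [hn0]
  have e4 : uX F D (0, 0) = 0 := by
    unfold uX
    have hl : (Matrix.diagonal fun a : F.Q => F.lam 0 a) = 0 := by
      rw [← Matrix.diagonal_zero]
      congr 1
      funext a
      unfold Fl.lam
      simp
    have e5 : Bm F D (0, 0) = cp F.Q F.E0 := by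
      unfold Bm
      show (D * Dᵀ + Matrix.diagonal fun a : F.Q => F.lam 0 a)⁻¹ = _
      rw [hl, add_zero]
      exact Matrix.inv_eq_right_inv (inv_of hD).2
    have e6 : cp F.Q (F.Et (0, 0)) = cp F.Q F.E0 := rfl
    rw [e5, e6, sub_self, mul_zero, zero_mul]
    exact uS_zero _ hn
  have e5 : uL F (0, 0) ≤ F.Q1.card * (1 / (1 + F.ω)) ^ F.nL := by
    unfold uL
    have h1 : ∀ a : F.Q1, (LaR (F.Gt (0, 0)) F.R a / (LaR F.G0 F.R a + F.ω * F.L) /
        (fun _ : ℝ => (1 : ℝ)) ((0 : ℝ × (F.b → ℝ)).1)) ^ F.nL ≤ (1 / (1 + F.ω)) ^ F.nL := by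
      intro a
      simp only [div_one]
      have hp := ell_pos h (a : X)
      have hn := LaR_nonneg F.G0 F.R (a : X)
      refine pow_le_pow_left₀ (div_nonneg hn hp.le) ?_ _
      rw [div_le_div_iff₀ hp (by linarith only [hω])]
      have h2 := h.hL a a.2
      have h4 : LaR F.G0 F.R (a : X) * F.ω ≤ F.L / 2 * F.ω :=
        mul_le_mul_of_nonneg_right h2 hω.le
      have h5 : 0 ≤ F.L / 2 * F.ω := by positivity
      have h3 : LaR F.G0 F.R (a : X) * (1 + F.ω) ≤ 1 * (LaR F.G0 F.R (a : X) + F.ω * F.L) := by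
        nlinarith only [h4, h5]
      exact h3
    refine (Finset.sum_le_sum fun a _ => h1 a).trans (le_of_eq ?_)
    rw [Finset.sum_const, Finset.card_univ, Fintype.card_coe, nsmul_eq_mul]
  unfold uu
  rw [e1, e2, e3, e4]
  linarith only [e5]

/-! ### the conclusion -/

theorem good_of (h : F.Ok c₀ C₀) {D β : Matrix F.Q F.Q ℝ} (hD : Dᵀ * cp F.Q F.E0 * D = 1)
    {V : F.b → ℝ} (hβ : Ldr (F := F) D β (F.T, V)) (hu : uu F D (F.T, V) < 1) : F.Good V := by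
  obtain ⟨-, -, -, -, -, -, -, hδ, hLp, hω, -, hε0, -, -, -, hε1, hε1', hδY, hn, hnL⟩ := h.num
  have hT := h.hT.le
  have g1 := uG_nonneg F (F.T, V)
  have g2 := uL_nonneg h (F.T, V)
  have g3 := uY_nonneg (F := F) (F.T, V)
  have g4 := uK_nonneg (F := F) (F.T, V)
  have g5 := uX_nonneg h D (F.T, V)
  have hval : Bm F D (F.T, V) = β := by
    ext i j
    exact (hβ.jet i j).vl
  unfold uu at hu
  have hX : uX F D (F.T, V) = uS (Dᵀ * (cp F.Q (F.Et (F.T, V)) - β) * D) F.ε₁ F.n := by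
    unfold uX; rw [hval]
  obtain ⟨hP, hX'⟩ := pt_of h hD (q := (F.T, V)) hT le_rfl hβ (et_symm h _) (by linarith only [hu, g2, g3, g4, g5])
    (by linarith only [hu, g1, g3, g4, g5]) (by rw [← hX]; linarith only [hu, g1, g2, g3, g4])
  refine ⟨hP.ent, hP.lam, ?_, ?_, ?_⟩
  · intro x hx hx'
    exact of_nsq hδY hn (show uY F (F.T, V) ≤ 1 by linarith only [hu, g1, g2, g4, g5]) ⟨x, Finset.mem_inter.2 ⟨hx, hx'⟩⟩
  · intro x hx hx'
    have h1 := of_nsq hδY hn (show uK F (F.T, V) ≤ 1 by linarith only [hu, g1, g2, g3, g5])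
      ⟨x, Finset.mem_inter.2 ⟨hx, hx'⟩⟩
    rwa [Complex.norm_real, Real.norm_eq_abs] at h1
  · intro E1 hE1 f hf
    have h1 : cp F.Q E1 = β := by
      refine cp_lad F.Q hE1 (fun x hx => ?_) hD hβ.inv
      exact lam_o F (fun h' => hx (h.hQ.2.1 (h.hQ.1 h'))) _
    have h2 := hX' (rs F.Q f)
    have h3 := hβ.ge (rs F.Q f)
    have e1 : qf (cp F.Q (F.Et (F.T, V)) - β) (rs F.Q f) =
        qf (F.Et (F.T, V)) f - qf E1 f := by
      rw [sub_eq_add_neg, qf_add, qf_neg, ← h1, qf_cp, qf_cp, ex_rs _ _ hf]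
      ring
    have e2 : qf β (rs F.Q f) = qf E1 f := by rw [← h1, qf_cp, ex_rs _ _ hf]
    rw [e1] at h2
    rw [e2] at h3
    have h4 : F.ε₁ * qf (cp F.Q F.E0) (rs F.Q f) ≤ F.ε₁ * (2 * qf E1 f) :=
      mul_le_mul_of_nonneg_left h3 hε1.le
    linarith only [h2, h4]

/-- FLO. -/
theorem flo (jal : JalStmt) (jma : JmaStmt) (ytj : YtjStmt) (ufl : UflStmt) (pwu : PwuStmt)
    (lmu : LmuStmt) (bgj : BgjStmt) (bkj : BkjStmt) (bej : BejStmt) (laj : LajStmt)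
    (bet : BetStmt) (nbw : NbwStmt) (dre : DreStmt) (enb : EnbStmt) (cmp : CmpStmt)
    (vex : VexStmt) (tsp : TspStmt) (vjt : VjtStmt) (vgr : VgrStmt) (vdr : VdrStmt)
    (vbl : VblStmt) (net : NetStmt) (eub : EubStmt) (pta : PtaStmt) (kup : KupStmt)
    (nbl : NblStmt) (nbo : NboStmt) (ltl : LtlStmt) (ptg : PtgStmt) (ptl : PtlStmt) (pty : PtyStmt)
    (nub : NubStmt) (drb : DrbStmt) : FloStmt := by
  intro c₀ C₀
  obtain ⟨C, hC, hY⟩ := pty jal jma bkj enb cmp vex tsp vjt vgr vdr vbl eub pta c₀ C₀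
  refine ⟨C, hC, ?_⟩
  intro X _ _ F h
  obtain ⟨hκ, -, hr, hc, -, hC₀, hN, hδ, hL, hω, -, hε, -, hs1, hs2, hε₁, -, -, hn, hnL⟩ := h.num
  have hT := h.hT
  have hnet : ∀ q : ℝ × (F.b → ℝ), 0 ≤ q.1 → q.1 ≤ F.T →
      BJ q F.Gt F.k (F.Gt q) (F.k q.1) F.mb ∧ Net (F.Gt q) (F.k q.1) := fun q h0 h1 =>
    net jal jma bgj X F c₀ C₀ q h h0 h1
  have n0 : Net F.G0 (F.k 0) := (hnet (0, 0) le_rfl hT.le).2
  obtain ⟨D, hD⟩ := exD h (et_symm h (0, 0))
  have hdrb : ∀ q : ℝ × (F.b → ℝ), 0 ≤ q.1 → q.1 ≤ F.T → _ := fun q h0 h1 =>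
    drb bet dre eub pta X F c₀ C₀ q h (hnet q h0 h1).2 n0
  have hldr : ∀ q : ℝ × (F.b → ℝ), 0 ≤ q.1 → q.1 ≤ F.T → ∃ β, Ldr (F := F) D β q :=
    fun q h0 h1 => ldr jal jma h hD h0 h1 ((hdrb q h0 h1).2.2 h0 h1)
  have hrt := rt_nonneg h hC
  have hG := aG_nonneg h
  have hLa := aL_nonneg h
  have hYa := aY_nonneg h hC
  have hS := aS_nonneg h
  have hcd := cd_nonneg (F := F)
  have hp4 : (0 : ℝ) ≤ (1 / 4) ^ F.n := by positivity
  have hp4' : (1 / 4 : ℝ) ^ F.nL ≤ (1 / 4) ^ F.n :=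
    pow_le_pow_of_le_one (by norm_num) (by norm_num) hnL
  -- the functional
  have main : ∀ q : ℝ × (F.b → ℝ), 0 ≤ q.1 → q.1 ≤ F.T → 0 ≤ uu F D q ∧
      ((∀ᶠ r in 𝓝 q, 1 ≤ uu F D r) ∨ (ContDiffAt ℝ 2 (uu F D) q ∧
        (uu F D q < 1 → LL (uu F D) q ≤ (fun _ => F.rt c₀ C₀ C) q.1 * uu F D q +
          (fun _ => F.rt c₀ C₀ C * (F.cd * (1 / 4) ^ F.n)) q.1))) := by
    intro q h0 h1
    have g1 := uG_nonneg F
    have g2 := uL_nonneg h
    have g3 := uY_nonneg (F := F)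
    have g4 := uK_nonneg (F := F)
    have g5 := uX_nonneg h D
    obtain ⟨hB, hN'⟩ := hnet q h0 h1
    refine ⟨by unfold uu; linarith only [g1 q, g2 q, g3 q, g4 q, g5 q], ?_⟩
    by_cases hG1 : uG F q ≤ 1
    swap
    · left
      have hcont : ContinuousAt (uG F) q := (sG hB).continuousAt
      have : ∀ᶠ r in 𝓝 q, 1 < uG F r := hcont.eventually (lt_mem_nhds (not_le.1 hG1))
      filter_upwards [this] with r hr1
      unfold uu
      linarith only [g2 r, g3 r, g4 r, g5 r, hr1]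
    right
    obtain ⟨β, hβ⟩ := hldr q h0 h1
    have hval : Bm F D q = β := by
      ext i j
      exact (hβ.jet i j).vl
    obtain ⟨hY1, hY2⟩ := hY X F q h hB hN' n0
    have hYs := sY (hY2 h0 h1 fun x hx => of_nsq hδ hn hG1 (⟨x, hx⟩, ⟨x, hx⟩))
    have hsm : ContDiffAt ℝ 2 (uu F D) q := by
      unfold uu
      exact ((((sG hB).add (sL hB)).add hYs.1).add hYs.2).add (sX jal bkj bej h h0 h1 hβ hB)
    refine ⟨hsm, fun hu => ?_⟩
    have hu' := hu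
    unfold uu at hu'
    have hX : uX F D q = uS (Dᵀ * (cp F.Q (F.Et q) - β) * D) F.ε₁ F.n := by
      unfold uX; rw [hval]
    obtain ⟨hP, -⟩ := pt_of h hD h0 h1 hβ (et_symm h q) hG1
      (by linarith only [g1 q, g2 q, g3 q, g4 q, g5 q, hu'])
      (by rw [← hX]; linarith only [g1 q, g2 q, g3 q, g4 q, g5 q, hu'])
    obtain ⟨a1, l1, j1, b1⟩ := jG pwu h
      (ptg jal bkj enb eub pta X F c₀ C₀ q h hP hB hN' n0)
    obtain ⟨a2, l2, j2, b2⟩ := jL lmu h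
      (ptl jal bkj enb laj ltl eub pta kup X F c₀ C₀ q h hP hB hN' n0)
    obtain ⟨⟨a3, l3, j3, b3⟩, a4, l4, j4, b4⟩ := jYK jal pwu h hC (hY1 hP)
    obtain ⟨a5, l5, j5, b5⟩ := jX jal jma ytj bkj bej h hD h0 h1 hβ hB hP
      ((hdrb q h0 h1).1 hP) ((hdrb q h0 h1).2.1 h0 h1)
      (nub bet nbw nbl nbo eub pta X F c₀ C₀ q h hP hN' n0)
    have s1 := ((jal F.b ℝ q).2.2.1 _ _ _ _ _ _ _ _ j1 j2).1
    have s2 := ((jal F.b ℝ q).2.2.1 _ _ _ _ _ _ _ _ s1 j3).1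
    have s3 := ((jal F.b ℝ q).2.2.1 _ _ _ _ _ _ _ _ s2 j4).1
    have s4 := ((jal F.b ℝ q).2.2.1 _ _ _ _ _ _ _ _ s3 j5).1
    have e1 : LL (uu F D) q = l1 + l2 + l3 + l4 + l5 := s4.ge
    rw [e1]
    show l1 + l2 + l3 + l4 + l5 ≤ F.rt c₀ C₀ C * uu F D q +
      F.rt c₀ C₀ C * (F.cd * (1 / 4) ^ F.n)
    have hq1 : (0 : ℝ) ≤ F.Q1.card := Nat.cast_nonneg _
    have hq : (0 : ℝ) ≤ F.Q.card := Nat.cast_nonneg _
    have t1 : l1 ≤ F.aG * (uu F D q + F.cd * (1 / 4) ^ F.n) := by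
      refine b1.trans (mul_le_mul_of_nonneg_left (add_le_add ?_ ?_) hG)
      · unfold uu; linarith only [g1 q, g2 q, g3 q, g4 q, g5 q]
      · refine mul_le_mul_of_nonneg_right ?_ hp4
        unfold Fl.cd; linarith only
    have t2 : l2 ≤ F.aL C₀ * (uu F D q + F.cd * (1 / 4) ^ F.n) := by
      refine b2.trans (mul_le_mul_of_nonneg_left (add_le_add ?_ ?_) hLa)
      · unfold uu; linarith only [g1 q, g2 q, g3 q, g4 q, g5 q]
      · refine (mul_le_mul_of_nonneg_left hp4' hq1).trans (mul_le_mul_of_nonneg_right ?_ hp4)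
        unfold Fl.cd
        nlinarith only [sq_nonneg (F.Q1.card : ℝ)]
    have t3 : l3 ≤ F.aY C * (uu F D q + F.cd * (1 / 4) ^ F.n) := by
      refine b3.trans (mul_le_mul_of_nonneg_left (add_le_add ?_ ?_) hYa)
      · unfold uu; linarith only [g1 q, g2 q, g3 q, g4 q, g5 q]
      · refine mul_le_mul_of_nonneg_right ?_ hp4
        unfold Fl.cd
        nlinarith only [sq_nonneg (F.Q1.card : ℝ)]
    have t4 : l4 ≤ F.aY C * (uu F D q + F.cd * (1 / 4) ^ F.n) := by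
      refine b4.trans (mul_le_mul_of_nonneg_left (add_le_add ?_ ?_) hYa)
      · unfold uu; linarith only [g1 q, g2 q, g3 q, g4 q, g5 q]
      · refine mul_le_mul_of_nonneg_right ?_ hp4
        unfold Fl.cd
        nlinarith only [sq_nonneg (F.Q1.card : ℝ)]
    have t5 : l5 ≤ F.aS c₀ * (uu F D q + F.cd * (1 / 4) ^ F.n) := by
      refine b5.trans (mul_le_mul_of_nonneg_left (add_le_add ?_ ?_) hS)
      · unfold uu; linarith only [g1 q, g2 q, g3 q, g4 q, g5 q]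
      · refine mul_le_mul_of_nonneg_right ?_ hp4
        unfold Fl.cd
        nlinarith only [sq_nonneg (F.Q1.card : ℝ)]
    have e2 : F.rt c₀ C₀ C * uu F D q + F.rt c₀ C₀ C * (F.cd * (1 / 4) ^ F.n) =
        F.aG * (uu F D q + F.cd * (1 / 4) ^ F.n) + F.aL C₀ * (uu F D q + F.cd * (1 / 4) ^ F.n) +
        F.aY C * (uu F D q + F.cd * (1 / 4) ^ F.n) + F.aY C * (uu F D q + F.cd * (1 / 4) ^ F.n) +
        F.aS c₀ * (uu F D q + F.cd * (1 / 4) ^ F.n) := by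
      unfold Fl.rt; ring
    rw [e2]
    linarith only [t1, t2, t3, t4, t5]
  have key := ufl F.b F.T (fun _ => F.rt c₀ C₀ C) (fun _ => F.rt c₀ C₀ C * (F.cd * (1 / 4) ^ F.n))
    (uu F D) hT continuous_const continuous_const
    (fun _ => ⟨hrt, mul_nonneg hrt (mul_nonneg hcd hp4)⟩) main
  have hsub : {V : F.b → ℝ | ¬ F.Good V} ⊆ {V | 1 ≤ uu F D (F.T, V)} := by
    intro V hV
    by_contra hlt
    obtain ⟨β, hβ⟩ := hldr (F.T, V) hT.le le_rfl
    exact hV (good_of h hD hβ (not_le.1 hlt))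
  refine (measure_mono hsub).trans (key.trans (ENNReal.ofReal_le_ofReal ?_))
  obtain ⟨β, hβ⟩ := hldr (0, 0) le_rfl hT.le
  have h2 := start h hD hβ
  rw [intervalIntegral.integral_const, intervalIntegral.integral_const, sub_zero, smul_eq_mul,
    smul_eq_mul, mul_comm F.T (F.rt c₀ C₀ C)]
  unfold Fl.pr
  have h3 : 0 < Real.exp (3 * (F.rt c₀ C₀ C * F.T)) := Real.exp_pos _
  calc Real.exp (3 * (F.rt c₀ C₀ C * F.T)) * (3 * uu F D (0, 0) +
        3 * (F.T * (F.rt c₀ C₀ C * (F.cd * (1 / 4) ^ F.n)))) ≤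
      Real.exp (3 * (F.rt c₀ C₀ C * F.T)) * (3 * (F.Q1.card * (1 / (1 + F.ω)) ^ F.nL) +
        3 * (F.T * (F.rt c₀ C₀ C * (F.cd * (1 / 4) ^ F.n)))) := by
        refine mul_le_mul_of_nonneg_left ?_ h3.le
        linarith only [h2]
    _ = _ := by ring

end Pool.Agent.AFL.H48
end
end -- Pool.Agent.Helper48_AFL.FLO
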