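import Pool.Agent.Helper12_MEB.B087
import Pool.Agent.Helper12_MEB.B158
import Pool.Agent.Helper12_MEB.B162

/-!
# Merged copies (generated) of the modules

* `Pool.Agent.AND2B.Env`
* `Pool.Agent.AHH.Z`
* `Pool.Agent.Helper17_AHH.Par`
* `Pool.Agent.Helper22_QDU.Env2`
* `Pool.Agent.Helper22_QDU.Zf`
-/

set_option autoImplicit false

section -- Pool.Agent.AND2B.Env

/-!
# AND2B: the environment, and `Ana0Stmt` from its fields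

`Env d`: everything which is given before a configuration. `Ev`: the quantifiers of `Ana0Stmt`, with
`for all sufficiently small` everywhere, so it is closed under conjunctions. The fields of `Ana0` are
handed in one by one as `Ev d a es c C (fun V => field V)`; `ana0` puts them together.
-/

set_option autoImplicit false

open MeasureTheory ProbabilityTheory

open scoped BigOperators NNReal ENNReal Matrix

noncomputable section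

namespace Pool.Agent.AND2B

open Pool.Agent.BED (Tor gau)
open Pool.Agent.ANE (SolT)
open Pool.Agent.ANP
open Pool.Agent.ANP.H16 (Ana0)

/-- everything which is given before a configuration. `m`, `ζ` the gauge and the spectral parameter of
the start. -/
structure Env (d : ℕ) where
  /-- the ratio of the clocks of two consecutive stages -/
  th : ℝ≥0
  /-- `|Q| ≤ sg (n + 1) ^ (-c₁)` -/
  c₁ : ℝ
  /-- exponent of the size of the blocks -/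
  C₁ : ℝ
  /-- ratio of the scales -/
  α : ℕ
  /-- number of bad sub-blocks which are allowed -/
  J : ℕ
  /-- exponent of the failure probabilities -/
  β : ℝ
  /-- the variance -/
  w : ℝ≥0
  /-- the energy -/
  E : ℝ
  /-- the number `ε` of `SolT` -/
  ε : ℝ
  /-- the number `A` of `SolT` -/
  A : ℝ
  /-- the number `R` of `SolT` -/
  R : ℕ
  /-- the target of the clocks -/
  t : ℝ
  /-- the last super-stage -/
  N : ℕ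
  /-- the side of the torus is `2 ^ μ` -/
  μ : ℕ
  /-- the first stage of a super-stage -/
  kk : ℕ → ℕ
  /-- the side of a block of level `n` is `2 ^ l n` -/
  l : ℕ → ℕ
  /-- the radius of the releases of super-stage `n` is `2 ^ r n` -/
  r : ℕ → ℕ
  /-- bounds the number of kills for one cluster -/
  Kn : ℕ → ℕ
  /-- bounds the number of the dead sites of super-stage `n` in a block of level `n` -/
  Dn : ℕ → ℕ
  /-- the number `L` of the event `WL` -/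
  L : ℝ
  /-- the absorption of the dead sites -/
  e₀ : ℝ
  /-- the gauge of the start -/
  m : ℂ
  /-- the spectral parameter of the start -/
  ζ : ℂ

namespace Env

variable {d : ℕ} (V : Env d)

/-- the sites -/
abbrev X : Type := Tor d (2 ^ V.μ)

/-- the geometry -/
abbrev G : Geo V.X := Gt d V.μ V.J V.N V.l V.r

/-- the clocks -/
abbrev cl : ℕ → ℝ≥0 := AND2B.cl V.w V.th

/-- the clock at the start of a super-stage -/
abbrev sg : ℕ → ℝ := AND2B.sg V.w V.th V.kk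

/-- the failure set -/
abbrev F : Set (V.X → ℝ) := FF d (2 ^ V.μ) V.E V.A V.ε V.R V.L

/-- the dead sites violate `WL` -/
abbrev Vi : Cfg V.X → Prop := Viol (d := d) (M := 2 ^ V.μ) V.E V.L

/-- the failure probabilities -/
abbrev p : ℕ → ℝ := pf V.w V.th V.kk V.β V.N

/-- the facts about clocks and dead sites -/
abbrev Fc (n k : ℕ) (P : Finset V.X) (T : Cfg V.X) (run : Finset V.X) : Prop :=
  ANP.Fc V.G V.kk V.cl V.Dn n k P T run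

/-- the scales are as they should be -/
abbrev Sc : Prop := Scal d V.th V.c₁ V.C₁ V.α V.J V.β V.w V.t V.N V.μ V.kk V.l V.r V.Kn V.Dn

end Env

/-- EVENTUALLY: for `th` close to one, `c₁` small, all `C₁`, `α`, `J`, small `β`, `w`, all `E`, small `ε`, all
`A`, `R`, small `t`, all scales, all `L`, small `e₀`. `es` is the `ε` of `Start2`, and `c`, `C` its constants. -/
def Ev (d : ℕ) (a es c C : ℝ) (P : Env d → Prop) : Prop :=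
  ∃ τ₀ k₁ : ℝ, 0 < τ₀ ∧ 0 < k₁ ∧ ∀ (th : ℝ≥0) (c₁ : ℝ), 1 / 2 ≤ th → 1 - τ₀ ≤ (th : ℝ) → th < 1 →
    0 < c₁ → c₁ ≤ k₁ →
    ∀ (C₁ : ℝ) (α J : ℕ), 2 ≤ α → ∃ β₀ w₀ : ℝ, 0 < β₀ ∧ 0 < w₀ ∧ ∀ (β : ℝ) (w : ℝ≥0) (E : ℝ), 0 < β →
      β ≤ β₀ → 0 < w → (w : ℝ) ≤ w₀ → |E| < 2 * d - a →
    ∃ ε₀ : ℝ, 0 < ε₀ ∧ ∀ ε : ℝ, 0 < ε → ε ≤ ε₀ → ∀ (A : ℝ) (R : ℕ),
    ∃ t₀ : ℝ, 0 < t₀ ∧ ∀ t : ℝ, 0 < t → t ≤ t₀ →
    ∀ (N μ : ℕ) (kk l r Kn Dn : ℕ → ℕ), Scal d th c₁ C₁ α J β w t N μ kk l r Kn Dn →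
    ∀ L : ℝ, 1 ≤ L → ∃ e₁ : ℝ, 0 < e₁ ∧ ∀ e₀ : ℝ, 0 < e₀ → e₀ ≤ e₁ →
    ∀ m ζ : ℂ, ANI.Start2 d (2 ^ μ) E e₀ w es m ζ c C →
      P ⟨th, c₁, C₁, α, J, β, w, E, ε, A, R, t, N, μ, kk, l, r, Kn, Dn, L, e₀, m, ζ⟩

section ev

variable {d : ℕ} {a es c C : ℝ} {P Q : Env d → Prop}

theorem Ev.and (hP : Ev d a es c C P) (hQ : Ev d a es c C Q) :
    Ev d a es c C fun V => P V ∧ Q V := by
  obtain ⟨τ, k, hτ, hk, hP⟩ := hP
  obtain ⟨τ', k', hτ', hk', hQ⟩ := hQ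
  refine ⟨min τ τ', min k k', lt_min hτ hτ', lt_min hk hk', ?_⟩
  intro th c₁ h1 h2 h3 h4 h5 C₁ α J hα
  have m1 := min_le_left τ τ'
  have m2 := min_le_right τ τ'
  obtain ⟨β, w, hβ, hw, hP⟩ := hP th c₁ h1 (by linarith only [h2, m1]) h3 h4 (h5.trans (min_le_left _ _))
    C₁ α J hα
  obtain ⟨β', w', hβ', hw', hQ⟩ := hQ th c₁ h1 (by linarith only [h2, m2]) h3 h4 (h5.trans (min_le_right _ _))
    C₁ α J hα
  refine ⟨min β β', min w w', lt_min hβ hβ', lt_min hw hw', ?_⟩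
  intro b u E g1 g2 g3 g4 g5
  obtain ⟨ε, hε, hP⟩ := hP b u E g1 (g2.trans (min_le_left _ _)) g3 (g4.trans (min_le_left _ _)) g5
  obtain ⟨ε', hε', hQ⟩ := hQ b u E g1 (g2.trans (min_le_right _ _)) g3
    (g4.trans (min_le_right _ _)) g5
  refine ⟨min ε ε', lt_min hε hε', ?_⟩
  intro e f1 f2 A R
  obtain ⟨t, ht, hP⟩ := hP e f1 (f2.trans (min_le_left _ _)) A R
  obtain ⟨t', ht', hQ⟩ := hQ e f1 (f2.trans (min_le_right _ _)) A R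
  refine ⟨min t t', lt_min ht ht', ?_⟩
  intro s s1 s2 N μ kk l r Kn Dn hS L hL
  obtain ⟨e₁, he, hP⟩ := hP s s1 (s2.trans (min_le_left _ _)) N μ kk l r Kn Dn hS L hL
  obtain ⟨e₁', he', hQ⟩ := hQ s s1 (s2.trans (min_le_right _ _)) N μ kk l r Kn Dn hS L hL
  refine ⟨min e₁ e₁', lt_min he he', ?_⟩
  intro e₀ q1 q2 m ζ hm
  exact ⟨hP e₀ q1 (q2.trans (min_le_left _ _)) m ζ hm,
    hQ e₀ q1 (q2.trans (min_le_right _ _)) m ζ hm⟩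

theorem Ev.imp (h : ∀ V, P V → Q V) (hP : Ev d a es c C P) : Ev d a es c C Q := by
  obtain ⟨τ, k, hτ, hk, hP⟩ := hP
  refine ⟨τ, k, hτ, hk, ?_⟩
  intro th c₁ h1 h2 h3 h4 h5 C₁ α J hα
  obtain ⟨β, w, hβ, hw, hP⟩ := hP th c₁ h1 h2 h3 h4 h5 C₁ α J hα
  refine ⟨β, w, hβ, hw, ?_⟩
  intro b u E g1 g2 g3 g4 g5
  obtain ⟨ε, hε, hP⟩ := hP b u E g1 g2 g3 g4 g5
  refine ⟨ε, hε, ?_⟩
  intro e f1 f2 A R
  obtain ⟨t, ht, hP⟩ := hP e f1 f2 A R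
  refine ⟨t, ht, ?_⟩
  intro s s1 s2 N μ kk l r Kn Dn hS L hL
  obtain ⟨e₁, he, hP⟩ := hP s s1 s2 N μ kk l r Kn Dn hS L hL
  refine ⟨e₁, he, ?_⟩
  intro e₀ q1 q2 m ζ hm
  exact h _ (hP e₀ q1 q2 m ζ hm)

/-- what is known about an environment before `e₀`, `m`, `ζ` are chosen -/
structure Env.Pre {d : ℕ} (V : Env d) (a : ℝ) : Prop where
  th : 1 / 2 ≤ V.th ∧ V.th < 1
  c1 : 0 < V.c₁
  al : 2 ≤ V.α
  be : 0 < V.β
  w : 0 < V.w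
  hE : |V.E| < 2 * d - a
  ep : 0 < V.ε
  ht : 0 < V.t
  sc : V.Sc
  hL : 1 ≤ V.L

/-- what is known about an environment -/
structure Env.Good {d : ℕ} (V : Env d) (a es c C : ℝ) : Prop extends Env.Pre V a where
  e0 : 0 < V.e₀
  st : ANI.Start2 d (2 ^ V.μ) V.E V.e₀ V.w es V.m V.ζ c C

/-- HOW TO PROVE `Ev` (if `ε` and `t` do not matter): `τ₀`, `k₁` from `a`, `c`, `C`; `β₀`, `w₀` from `th`, `c₁`, `C₁`,
`α`, `J`; `e₁` from the environment (without `e₀`, `m`, `ζ`) -/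
theorem Ev.intro (τ₀ k₁ : ℝ) (hτ : 0 < τ₀) (hk : 0 < k₁)
    (h : ∀ (th : ℝ≥0) (c₁ C₁ : ℝ) (α J : ℕ), 1 / 2 ≤ th → 1 - τ₀ ≤ (th : ℝ) → th < 1 → 0 < c₁ →
      c₁ ≤ k₁ → 2 ≤ α → ∃ β₀ w₀ : ℝ, 0 < β₀ ∧ 0 < w₀ ∧ ∀ V : Env d, V.Pre a → V.th = th →
        V.c₁ = c₁ → V.C₁ = C₁ → V.α = α → V.J = J → V.β ≤ β₀ → (V.w : ℝ) ≤ w₀ →
        ∃ e₁ : ℝ, 0 < e₁ ∧ ∀ (e₀ : ℝ) (m ζ : ℂ), 0 < e₀ → e₀ ≤ e₁ →
          ({ V with e₀ := e₀, m := m, ζ := ζ } : Env d).Good a es c C →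
          P { V with e₀ := e₀, m := m, ζ := ζ }) : Ev d a es c C P := by
  refine ⟨τ₀, k₁, hτ, hk, ?_⟩
  intro th c₁ h1 h2 h3 h4 h5 C₁ α J hα
  obtain ⟨β₀, w₀, b1, b2, h⟩ := h th c₁ C₁ α J h1 h2 h3 h4 h5 hα
  refine ⟨β₀, w₀, b1, b2, ?_⟩
  intro b u E g1 g2 g3 g4 g5
  refine ⟨1, one_pos, ?_⟩
  intro e f1 f2 A R
  refine ⟨1, one_pos, ?_⟩
  intro s s1 s2 N μ kk l r Kn Dn hS L hL
  have hpre : (⟨th, c₁, C₁, α, J, b, u, E, e, A, R, s, N, μ, kk, l, r, Kn, Dn, L, 0, 0, 0⟩ :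
      Env d).Pre a := ⟨⟨h1, h3⟩, h4, hα, g1, g3, g5, f1, s1, hS, hL⟩
  obtain ⟨e₁, he, h⟩ := h _ hpre rfl rfl rfl rfl rfl g2 g4
  refine ⟨e₁, he, ?_⟩
  intro e₀ q1 q2 m ζ hm
  exact h e₀ m ζ q1 q2 ⟨⟨⟨h1, h3⟩, h4, hα, g1, g3, g5, f1, s1, hS, hL⟩, q1, hm⟩

/-- the same, if `e₁` does not matter either -/
theorem Ev.intro' (τ₀ k₁ : ℝ) (hτ : 0 < τ₀) (hk : 0 < k₁)
    (h : ∀ (th : ℝ≥0) (c₁ C₁ : ℝ) (α J : ℕ), 1 / 2 ≤ th → 1 - τ₀ ≤ (th : ℝ) → th < 1 → 0 < c₁ →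
      c₁ ≤ k₁ → 2 ≤ α → ∃ β₀ w₀ : ℝ, 0 < β₀ ∧ 0 < w₀ ∧ ∀ V : Env d, V.Good a es c C → V.th = th →
        V.c₁ = c₁ → V.C₁ = C₁ → V.α = α → V.J = J → V.β ≤ β₀ → (V.w : ℝ) ≤ w₀ → P V) :
    Ev d a es c C P := by
  refine Ev.intro τ₀ k₁ hτ hk ?_
  intro th c₁ C₁ α J h1 h2 h3 h4 h5 hα
  obtain ⟨β₀, w₀, b1, b2, h⟩ := h th c₁ C₁ α J h1 h2 h3 h4 h5 hα
  refine ⟨β₀, w₀, b1, b2, ?_⟩
  intro V _ e1 e2 e3 e4 e5 g1 g2
  exact ⟨1, one_pos, fun e₀ m ζ _ _ hG => h _ hG e1 e2 e3 e4 e5 g1 g2⟩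

end ev

/-! ### The fields -/

/-- the predicates of the analysis -/
structure Prd (d : ℕ) where
  /-- start of a stage -/
  HS : (V : Env d) → ℕ → ℕ → Cfg V.X → Finset V.X → Prop
  /-- during a stage -/
  HM : (V : Env d) → ℕ → ℕ → Cfg V.X → Finset V.X → Finset V.X → Cfg V.X → Finset V.X → Prop
  /-- during the release phase -/
  HR : (V : Env d) → ℕ → Cfg V.X → Finset V.X → Finset V.X → Cfg V.X → Finset V.X → Prop

namespace Prd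

variable {d : ℕ} (Z : Prd d) (V : Env d)

def Ini : Prop := Z.HS V 0 0 ⟨fun _ => 0, fun _ => V.cl 0, fun _ => V.m⟩ Finset.univ

def Beg : Prop := ∀ n k T run, n ≤ V.N → V.kk n ≤ k → k < V.kk (n + 1) → V.Fc n k ∅ T run →
    ¬ V.Vi T → Z.HS V n k T run → Z.HM V n k T run ∅ T run

def Mmon : Prop := ∀ n k T₀ run₀ P P' T run run', P ⊆ P' → run' ⊆ run → V.Fc n k P T run →
    V.Fc n k P' T run' → ¬ V.Vi T₀ → ¬ V.Vi T → Z.HS V n k T₀ run₀ →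
    Z.HM V n k T₀ run₀ P T run → Z.HM V n k T₀ run₀ P' T run'

def Flo : Prop := ∀ n k T₀ run₀ P T run B, n ≤ V.N → V.kk n ≤ k → k < V.kk (n + 1) →
    V.G.bl n B = B → Disjoint P (V.G.blk n B) → ¬ V.Vi T₀ → ¬ V.Vi T → Z.HS V n k T₀ run₀ →
    V.Fc n k ∅ T₀ run₀ → V.Fc n k P T run → Z.HM V n k T₀ run₀ P T run →
    gm (fun _ => 0) (T.hv V.th (run ∩ V.G.blk n B))
      {ζ | ¬ (V.Vi (T.hf V.th (run ∩ V.G.blk n B) ζ) ∨
        Z.HM V n k T₀ run₀ (P ∪ V.G.blk n B) (T.hf V.th (run ∩ V.G.blk n B) ζ) run)} ≤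
      ENNReal.ofReal (V.p n)

def Fin : Prop := ∀ n k T₀ run₀ T run, n ≤ V.N → V.kk n ≤ k → k < V.kk (n + 1) →
    ¬ V.Vi T₀ → ¬ V.Vi T → Z.HS V n k T₀ run₀ → V.Fc n k ∅ T₀ run₀ →
    V.Fc n k Finset.univ T run → Z.HM V n k T₀ run₀ Finset.univ T run →
    ∃ m, Z.HS V n (k + 1) (T.rg m) run

def Rbeg : Prop := ∀ n T run, n ≤ V.N → V.Fc n (V.kk (n + 1)) ∅ T run → ¬ V.Vi T →
    Z.HS V n (V.kk (n + 1)) T run → Z.HR V n T run ∅ T run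

def Rmon : Prop := ∀ n T₀ run₀ P P' T run run', P ⊆ P' → run' ⊆ run →
    V.Fc n (V.kk (n + 1)) ∅ T run → V.Fc n (V.kk (n + 1)) ∅ T run' →
    ¬ V.Vi T₀ → ¬ V.Vi T → Z.HS V n (V.kk (n + 1)) T₀ run₀ →
    Z.HR V n T₀ run₀ P T run → Z.HR V n T₀ run₀ P' T run'

def Kil : Prop := ∀ n T₀ run₀ P T run (Q : Finset V.X) (v : V.X → ℝ), n ≤ V.N → 1 ≤ n →
    ¬ V.Vi T₀ → ¬ V.Vi T →
    Z.HS V n (V.kk (n + 1)) T₀ run₀ → V.Fc n (V.kk (n + 1)) ∅ T₀ run₀ →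
    V.Fc n (V.kk (n + 1)) ∅ T run → Z.HR V n T₀ run₀ P T run →
    Q.Nonempty → (∀ x ∈ Q, x ∉ run ∧ 0 < T.s x) → (∀ x ∈ Q, ∀ y ∈ Q, V.G.D x y ≤ 2 * V.G.L n) →
    Q.card ≤ 3 ^ d * V.G.J * (6 * V.G.L (n - 1) + 1) ^ d →
    (∀ x ∈ Q, ∀ y, V.G.D x y ≤ V.G.ρ n → y ∈ Q ∨ y ∈ run ∨ T.s y = 0) →
    (∀ x ∈ Q, ∀ y ∈ P, 3 * V.G.ρ n < V.G.D x y) →
    Att (run ∩ V.G.nbh Q (V.G.ρ n)) Q v (fun T' =>
      (∀ x ∈ Q, T'.V x = v x ∧ T'.s x = 0) ∧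
      ({x ∈ run | T'.s x = 0} : Finset V.X).card ≤ V.Kn n ∧
      (V.Vi T' ∨ Z.HR V n T₀ run₀ (P ∪ V.G.nbh Q (V.G.ρ n)) T' {x ∈ run | T'.s x ≠ 0})) T
        (ENNReal.ofReal (V.p n))

def Rfin : Prop := ∀ n T₀ run₀ P T run run', n ≤ V.N → ¬ V.Vi T₀ → ¬ V.Vi T →
    Z.HS V n (V.kk (n + 1)) T₀ run₀ →
    V.Fc n (V.kk (n + 1)) ∅ T₀ run₀ → V.Fc n (V.kk (n + 1)) ∅ T run →
    Z.HR V n T₀ run₀ P T run → run' ⊆ run → V.Fc (n + 1) (V.kk (n + 1)) ∅ T run' →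
    ∃ m, Z.HS V (n + 1) (V.kk (n + 1)) (T.rg m) run'

def Out : Prop := ∀ T run (a : V.X → ℝ) (r : V.X → ℝ≥0), ¬ V.Vi T →
    Z.HS V (V.N + 1) (V.kk (V.N + 1)) T run →
    V.Fc (V.N + 1) (V.kk (V.N + 1)) ∅ T run → 0 ∈ run →
    (∀ x, x ∉ run → T.s x ≠ 0 → 3 * V.G.ρ (V.N + 1) < V.G.D 0 x) →
    (∀ x, x ∈ run ∨ T.s x = 0 → a x = T.V x ∧ r x = T.s x) → Win V.F a r (1 / 4)

/-- all fields -/
structure All : Prop where
  ini : Z.Ini V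
  beg : Z.Beg V
  mmon : Z.Mmon V
  flo : Z.Flo V
  fin : Z.Fin V
  rbeg : Z.Rbeg V
  rmon : Z.Rmon V
  kil : Z.Kil V
  rfin : Z.Rfin V
  out : Z.Out V

end Prd

/-- the analysis, from its fields -/
theorem Prd.All.ana {d : ℕ} {Z : Prd d} {V : Env d} (h : Z.All V) :
    Nonempty (Ana0 V.G d 0 V.F V.th V.kk V.cl V.Kn V.Dn V.p V.Vi) :=
  ⟨{ HS := Z.HS V, HM := Z.HM V, HR := Z.HR V, m0 := fun _ => V.m, ini := h.ini, beg := h.beg,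
     mmon := h.mmon, flo := h.flo, fin := h.fin, rbeg := h.rbeg, rmon := h.rmon, kil := h.kil,
     rfin := h.rfin, out := h.out }⟩

/-- the field statement in the form in which it is handed in: `Z a es c C` are the predicates, they may
depend on the constants of the start -/
def Fld (Z : (d : ℕ) → ℝ → ℝ → ℝ → ℝ → Prd d) (es : ℝ)
    (fld : {d : ℕ} → Prd d → Env d → Prop) : Prop :=
  ∀ (d : ℕ) (a c C : ℝ), 3 ≤ d → 0 < a → 0 < c → c ≤ 1 / 2 → 1 ≤ C →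
    Ev d a es c C fun V => fld (Z d a es c C) V

/-- ASSEMBLY OF THE FIELDS -/
theorem ana0 (Z : (d : ℕ) → ℝ → ℝ → ℝ → ℝ → Prd d) (es : ℝ) (hes : 0 < es) (hes' : es ≤ 1 / 50)
    (hStb : ANI.StbStmt)
    (ini : Fld Z es Prd.Ini) (beg : Fld Z es Prd.Beg) (mmon : Fld Z es Prd.Mmon)
    (flo : Fld Z es Prd.Flo) (fin : Fld Z es Prd.Fin) (rbeg : Fld Z es Prd.Rbeg)
    (rmon : Fld Z es Prd.Rmon) (kil : Fld Z es Prd.Kil) (rfin : Fld Z es Prd.Rfin)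
    (out : Fld Z es Prd.Out) : H16.Ana0Stmt := by
  intro d a hd ha
  obtain ⟨c, C, hc, hc', hC, hst⟩ := hStb d a es hd ha hes hes'
  have hall : Ev d a es c C fun V => (Z d a es c C).All V := by
    have h := (((((((((ini d a c C hd ha hc hc' hC).and (beg d a c C hd ha hc hc' hC)).and
      (mmon d a c C hd ha hc hc' hC)).and (flo d a c C hd ha hc hc' hC)).and
      (fin d a c C hd ha hc hc' hC)).and (rbeg d a c C hd ha hc hc' hC)).and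
      (rmon d a c C hd ha hc hc' hC)).and (kil d a c C hd ha hc hc' hC)).and
      (rfin d a c C hd ha hc hc' hC)).and (out d a c C hd ha hc hc' hC)
    refine h.imp fun V hV => ?_
    obtain ⟨⟨⟨⟨⟨⟨⟨⟨⟨h1, h2⟩, h3⟩, h4⟩, h5⟩, h6⟩, h7⟩, h8⟩, h9⟩, h10⟩ := hV
    exact ⟨h1, h2, h3, h4, h5, h6, h7, h8, h9, h10⟩
  obtain ⟨τ₀, k₁, hτ, hk, hall⟩ := hall
  -- the ratio of the clocks
  have hth1 : max (1 / 2 : ℝ) (1 - τ₀) < 1 := max_lt (by norm_num) (by linarith only [hτ])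
  have hth0 : (0 : ℝ) ≤ max (1 / 2 : ℝ) (1 - τ₀) := le_max_of_le_left (by norm_num)
  set th : ℝ≥0 := ⟨max (1 / 2 : ℝ) (1 - τ₀), hth0⟩ with hth
  have hthc : (th : ℝ) = max (1 / 2 : ℝ) (1 - τ₀) := rfl
  have h1 : (1 / 2 : ℝ≥0) ≤ th := by
    rw [← NNReal.coe_le_coe, hthc]
    push_cast
    exact le_max_left _ _
  have h2 : 1 - τ₀ ≤ (th : ℝ) := by
    rw [hthc]
    exact le_max_right _ _
  have h3 : th < 1 := by
    rw [← NNReal.coe_lt_coe, hthc]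
    push_cast
    exact hth1
  refine ⟨th, k₁, h1, h3, hk, fun C₁ α J hα => ?_⟩
  obtain ⟨β₀, w₀, hβ₀, hw₀, hall⟩ := hall th k₁ h1 h2 h3 hk le_rfl C₁ α J hα
  have hC0 : 0 < C := by linarith only [hes, hes', hC]
  refine ⟨β₀, min w₀ (min c (1 / C)), hβ₀, lt_min hw₀ (lt_min hc (by positivity)), ?_⟩
  intro w E hw hw' hE
  have hwc : (w : ℝ) ≤ c := hw'.trans ((min_le_right _ _).trans (min_le_left _ _))
  have hwC : (w : ℝ) ≤ 1 / C := hw'.trans ((min_le_right _ _).trans (min_le_right _ _))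
  have hw0 : (0 : ℝ) < w := by exact_mod_cast hw
  obtain ⟨ε₀, hε₀, hall⟩ := hall β₀ w E hβ₀ le_rfl hw (hw'.trans (min_le_left _ _)) hE
  refine ⟨ε₀, hε₀, fun A R => ?_⟩
  obtain ⟨t₀, ht₀, hall⟩ := hall ε₀ hε₀ le_rfl A R
  refine ⟨t₀, ht₀, fun N μ kk l r Kn Dn hS L hL => ?_⟩
  obtain ⟨e₁, he₁, hall⟩ := hall t₀ ht₀ le_rfl N μ kk l r Kn Dn hS L hL
  have he : 0 < min e₁ w := lt_min he₁ hw0
  -- the torus is large
  have hM : C / (w : ℝ) ^ 2 ≤ ((2 ^ μ : ℕ) : ℝ) := by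
    have hs1 : sg w th kk (N + 1) ≤ w := by
      unfold sg cl
      push_cast
      have : (th : ℝ) ^ kk (N + 1) ≤ 1 := pow_le_one₀ (NNReal.coe_nonneg _) (by exact_mod_cast h3.le)
      have := mul_le_mul_of_nonneg_left this hw0.le
      linarith only [this]
    have hs0 : 0 < sg w th kk (N + 1) := by
      unfold sg cl
      have hthp : (0 : ℝ) < th := by
        rw [hthc]
        exact lt_of_lt_of_le (by norm_num) (le_max_left _ _)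
      push_cast
      positivity
    have h5 : (w : ℝ) ^ (-(5 : ℝ)) ≤ sg w th kk (N + 1) ^ (-(5 : ℝ)) :=
      Real.rpow_le_rpow_of_nonpos hs0 hs1 (by norm_num)
    have h6 := hS.mN
    have h7 : C / (w : ℝ) ^ 2 ≤ (w : ℝ) ^ (-(5 : ℝ)) := by
      rw [Real.rpow_neg hw0.le]
      have e5 : (w : ℝ) ^ (5 : ℝ) = (w : ℝ) ^ 5 := by
        rw [← Real.rpow_natCast]
        norm_num
      rw [e5, div_le_iff₀ (by positivity), inv_mul_eq_div, le_div_iff₀ (by positivity)]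
      have hw1 : (w : ℝ) ≤ 1 := by linarith only [hes, hes', hc', hwc]
      have h8 : C * w ≤ 1 := by
        rw [le_div_iff₀ hC0] at hwC
        linarith only [hwC]
      calc C * (w : ℝ) ^ 5 = (C * w) * ((w : ℝ) ^ 2 * w ^ 2) := by ring
        _ ≤ 1 * ((w : ℝ) ^ 2 * 1) := by
            have : (w : ℝ) ^ 2 ≤ 1 := pow_le_one₀ hw0.le hw1
            gcongr
        _ = (w : ℝ) ^ 2 := by ring
    have h9 : ((2 ^ μ : ℕ) : ℝ) = (2 : ℝ) ^ μ := by push_cast; rfl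
    rw [h9]
    exact h7.trans (h5.trans h6)
  obtain ⟨m, ζ, hm⟩ := hst (2 ^ μ) E (min e₁ w) w hE.le he (min_le_right _ _) hwc hM
  exact (hall (min e₁ w) he (min_le_left _ _) m ζ hm).ana

end Pool.Agent.AND2B
end
end -- Pool.Agent.AND2B.Env

section -- Pool.Agent.AHH.Z

/-!
# AND2B: the concrete environment and the concrete budget

Everything is a power of the clock `s = cl k` of the stage, of the clock `sg n` of the start of the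
super-stage, or of the variance `w`. The thresholds which have to grow have the form
`3 w^p - s^p - (sg n)^p`: they lie between `w^p` and `3 w^p`, they grow by `s^p (1 - th^p)` in a stage and
by `(sg n)^p - (sg (n + 1))^p` in a release phase.
-/

set_option autoImplicit false

open scoped BigOperators NNReal Matrix

noncomputable section

namespace Pool.Agent.AHH

open Pool.Agent.BED (Tor)
open Pool.Agent.AND2B (net kap Viol Prd)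
open Pool.Agent.ANP (Cfg Geo Fc)

/-- the `ε` of `Start2` -/
def es : ℝ := 1 / 10000

variable {d : ℕ}

/-- the configuration of the start -/
def cfg0 (V : AND2B.Env d) : Cfg V.X := ⟨fun _ => 0, fun _ => V.cl 0, fun _ => V.m⟩

/-- the small exponent of the form: `ka = 1 / (1000 (α + 1)²)` -/
def ka (V : AND2B.Env d) : ℝ := 1 / (1000 * ((V.α : ℝ) + 1) ^ 2)

/-- a growing threshold: between `w^p` and `3 w^p` -/
def gr (V : AND2B.Env d) (p : ℝ) (n k : ℕ) : ℝ :=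
  3 * (V.w : ℝ) ^ p - (V.cl k : ℝ) ^ p - V.sg n ^ p

/-- the environment of `AHH` -/
def toE (V : AND2B.Env d) (c C : ℝ) : Env d (2 ^ V.μ) where
  Γ := V.G
  kk := V.kk
  cl := V.cl
  th := V.th
  Dn := V.Dn
  Kn := V.Kn
  E := V.E
  e₀ := V.e₀
  L := V.L
  m₀ := V.m
  G₀ := LE.QD.rs (0 : Tor d (2 ^ V.μ) → ℝ) V.ζ
  c₀ := c / 2
  C₀ := 2 * C
  D₀ := c * (V.w : ℝ) ^ (8 * es - 1)
  D₁ := 4 * C ^ 3 / V.w
  u₀ := 1 - 1 / (2 * C)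
  Cp := H61.cpd d

/-- the thresholds at the start of the stage `k` (super-stage `n`) -/
def qq (V : AND2B.Env d) (n k : ℕ) : Num where
  del := gr V (1 / 20) n k
  mis := (V.cl k : ℝ) ^ (1 / 8 : ℝ)
  lam := 1 / 4 * (V.cl k : ℝ) ^ (-(3 / 4) : ℝ) * (2 - V.sg n ^ (1 / 400 : ℝ))
  tht := gr V (1 / 400) n k
  eps := (V.cl k : ℝ) ^ (ka V / 2) * (2 - V.sg n ^ ka V)
  rho := gr V (ka V / 4) n k

/-- the budget -/
def bud (V : AND2B.Env d) : Bud where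
  q := qq V
  thm n k := gr V (1 / 400) n k + (V.cl k : ℝ) ^ (1 / 16 : ℝ)
  inc _ k := (V.cl k : ℝ) ^ (1 / 8 - 1 / 200 : ℝ)
  inL _ _ := (1 - (V.th : ℝ)) / (8 * H61.cpd d)
  inY _ k := (V.cl k : ℝ) ^ (1 / 16 - 1 / 100 : ℝ)
  nn _ k := (V.cl k : ℝ) ^ ka V
  icR n := V.sg (n + 1) ^ (1 / 10 : ℝ)
  lR n := V.sg (n + 1) ^ (1 / 200 : ℝ)
  yR n := V.sg (n + 1) ^ (1 / 100 : ℝ)
  nR n := V.sg (n + 1) ^ (1 / 100 : ℝ)
  tau n := V.sg (n + 1) ^ (5 * (d : ℝ))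

/-- THE PREDICATES OF THE ANALYSIS -/
def Z (d : ℕ) (_a _es c C : ℝ) : Prd d where
  HS V n k T run := St (toE V c C) (bud V) n k T run
  HM V n k T₀ run₀ P T run := Md (toE V c C) (bud V) n k T₀ run₀ P T run
  HR V n T₀ run₀ P T run := Rl (toE V c C) (bud V) n T₀ run₀ P T run

/-! ### The fields -/

def IniF : Prop := AND2B.Fld Z es Prd.Ini
def BegF : Prop := AND2B.Fld Z es Prd.Beg
def MmonF : Prop := AND2B.Fld Z es Prd.Mmon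
def FloF : Prop := AND2B.Fld Z es Prd.Flo
def FinF : Prop := AND2B.Fld Z es Prd.Fin
def RbegF : Prop := AND2B.Fld Z es Prd.Rbeg
def RmonF : Prop := AND2B.Fld Z es Prd.Rmon
def KilF : Prop := AND2B.Fld Z es Prd.Kil
def RfinF : Prop := AND2B.Fld Z es Prd.Rfin
def OutF : Prop := AND2B.Fld Z es Prd.Out

/-- the assembly -/
theorem ana0 (hStb : ANI.StbStmt) (ini : IniF) (beg : BegF) (mmon : MmonF) (flo : FloF)
    (fin : FinF) (rbeg : RbegF) (rmon : RmonF) (kil : KilF) (rfin : RfinF) (out : OutF) :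
    AND2B.H16.Ana0Stmt :=
  AND2B.ana0 Z es (by norm_num [es]) (by norm_num [es]) hStb ini beg mmon flo fin rbeg rmon kil
    rfin out

/-! ### Bounds for the numbers -/

section bounds

variable (V : AND2B.Env d)

theorem cl_zero : V.cl 0 = V.w := by
  show AND2B.cl V.w V.th 0 = V.w
  unfold AND2B.cl
  rw [pow_zero, mul_one]

theorem cl_succ (k : ℕ) : V.cl (k + 1) = V.th * V.cl k := AND2B.cl_succ V.w V.th k

theorem cl_pos (hw : 0 < V.w) (hth : 0 < V.th) (k : ℕ) : 0 < V.cl k := by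
  show 0 < AND2B.cl V.w V.th k
  unfold AND2B.cl
  positivity

theorem cl_le (hth : V.th ≤ 1) (k : ℕ) : V.cl k ≤ V.w := by
  show AND2B.cl V.w V.th k ≤ V.w
  unfold AND2B.cl
  exact mul_le_of_le_one_right (zero_le) (pow_le_one₀ (zero_le) hth)

theorem cl_anti (hth : V.th ≤ 1) {j k : ℕ} (h : j ≤ k) : V.cl k ≤ V.cl j := by
  show AND2B.cl V.w V.th k ≤ AND2B.cl V.w V.th j
  unfold AND2B.cl
  exact mul_le_mul_right (pow_le_pow_of_le_one (zero_le) hth h) _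

theorem sg_eq (n : ℕ) : V.sg n = (V.cl (V.kk n) : ℝ) := rfl

/-- the growing thresholds -/
theorem gr_bd (hth : V.th ≤ 1) {p : ℝ} (hp : 0 < p) (n k : ℕ) :
    (V.w : ℝ) ^ p ≤ gr V p n k ∧ gr V p n k ≤ 3 * (V.w : ℝ) ^ p := by
  have h1 : ∀ j, (V.cl j : ℝ) ^ p ≤ (V.w : ℝ) ^ p := fun j =>
    Real.rpow_le_rpow (NNReal.coe_nonneg _) (by exact_mod_cast cl_le V hth j) hp.le
  have h2 : ∀ j, 0 ≤ (V.cl j : ℝ) ^ p := fun j => Real.rpow_nonneg (NNReal.coe_nonneg _) _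
  have h3 := h1 k
  have h4 := h1 (V.kk n)
  have h5 := h2 k
  have h6 := h2 (V.kk n)
  unfold gr
  rw [sg_eq]
  constructor <;> linarith

/-- the growth in one stage -/
theorem gr_stage (p : ℝ) (n k : ℕ) :
    gr V p n (k + 1) = gr V p n k + (V.cl k : ℝ) ^ p * (1 - (V.th : ℝ) ^ p) := by
  unfold gr
  rw [cl_succ]
  push_cast
  rw [Real.mul_rpow (NNReal.coe_nonneg _) (NNReal.coe_nonneg _)]
  ring

/-- the growth in a release phase -/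
theorem gr_rel (p : ℝ) (n k : ℕ) : gr V p (n + 1) k = gr V p n k + (V.sg n ^ p - V.sg (n + 1) ^ p) := by
  unfold gr
  ring

end bounds

end Pool.Agent.AHH
end
end -- Pool.Agent.AHH.Z

section -- Pool.Agent.Helper17_AHH.Par

/-!
# AND2B: the concrete numbers of the block lemma

`parZ V c C n k`: the numbers of `flOf` for the stage `k` of the super-stage `n`, `s = cl k`.
-/

set_option autoImplicit false

noncomputable section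

namespace Pool.Agent.AHH.H17

open Pool.Agent.AHH.H67 (Par)

variable {d : ℕ}

/-- the small exponent of the numbers -/
def kg (V : AND2B.Env d) : ℝ := ka V / 4

/-- the allowed relative change of `Λ` by one block -/
def omg (V : AND2B.Env d) : ℝ := (1 - (V.th : ℝ)) / (64 * H61.cpd d)

/-- THE NUMBERS OF THE BLOCK LEMMA -/
def parZ (V : AND2B.Env d) (c C : ℝ) (n k : ℕ) : Par where
  κv := c / 2 * V.cl (k + 1)
  r := 4 * C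
  N := 2 + H61.cpd d
  δ := (V.cl k : ℝ) ^ (1 / 8 - 1 / 200 : ℝ)
  L := 4 * (qq V n k).lam
  ω := omg V
  ε := (V.cl k : ℝ) ^ kg V
  s1 := (V.cl k : ℝ) ^ kg V * ((V.w : ℝ) ^ (1 / 50 : ℝ) * (V.cl k : ℝ) ^ (2 * ka V)) ^ 2
  s3 := (V.cl k : ℝ) ^ (-1 : ℝ)
  old := (V.cl k : ℝ) ^ (10 : ℝ)
  s2 := (V.cl k : ℝ) ^ (1 / 4 + kg V)
  ε₁ := (V.w : ℝ) ^ (1 / 50 : ℝ) * (V.cl k : ℝ) ^ (2 * ka V)
  δY := (V.cl k : ℝ) ^ (1 / 16 - 1 / 200 : ℝ)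
  z := (V.cl k : ℝ) ^ (-(63 / 64 : ℝ))
  L0 := (V.cl k : ℝ) ^ (-(kg V / 2))
  n := ⌈(V.cl k : ℝ) ^ (-(ka V / 64))⌉₊
  nL := ⌈3 / omg V⌉₊ * ⌈(V.cl k : ℝ) ^ (-(ka V / 64))⌉₊

end Pool.Agent.AHH.H17
end
end -- Pool.Agent.Helper17_AHH.Par

section -- Pool.Agent.Helper22_QDU.Env2

/-!
# QDU: the fields of AND2B, uniformly in the ratio of the clocks and without a bound for the last clock

`Ev2` is `Ev` without `t₀`, `ε₀`, and uniform in `th ∈ [1 - τ₀, b]`, `b < 1`.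
-/

set_option autoImplicit false

open scoped BigOperators NNReal ENNReal Matrix

noncomputable section

namespace Pool.Agent.QDU

open Pool.Agent.AND2B (Env Prd)

/-- EVENTUALLY, UNIFORMLY: for `th ∈ [1 - τ₀, b]`, `b < 1`, small `c₁`, all `C₁`, `α`, `J`, small `β`, `w` (they
depend on `b`, `c₁`, `C₁`, `α`, `J` only), everything else, small `e₀`. -/
def Ev2 (d : ℕ) (a es c C : ℝ) (P : Env d → Prop) : Prop :=
  ∃ τ₀ k₁ : ℝ, 0 < τ₀ ∧ 0 < k₁ ∧ ∀ (b : ℝ≥0) (c₁ C₁ : ℝ) (α J : ℕ), b < 1 → 0 < c₁ → c₁ ≤ k₁ →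
    2 ≤ α → ∃ β₀ w₀ : ℝ, 0 < β₀ ∧ 0 < w₀ ∧ ∀ V : Env d, V.Pre a → 1 - τ₀ ≤ (V.th : ℝ) → V.th ≤ b →
      V.c₁ = c₁ → V.C₁ = C₁ → V.α = α → V.J = J → V.β ≤ β₀ → (V.w : ℝ) ≤ w₀ →
      ∃ e₁ : ℝ, 0 < e₁ ∧ ∀ (e₀ : ℝ) (m ζ : ℂ), 0 < e₀ → e₀ ≤ e₁ →
        ({ V with e₀ := e₀, m := m, ζ := ζ } : Env d).Good a es c C →
        P { V with e₀ := e₀, m := m, ζ := ζ }

section ev

variable {d : ℕ} {a es c C : ℝ} {P Q : Env d → Prop}

theorem Ev2.and (hP : Ev2 d a es c C P) (hQ : Ev2 d a es c C Q) :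
    Ev2 d a es c C fun V => P V ∧ Q V := by
  obtain ⟨τ, k, hτ, hk, hP⟩ := hP
  obtain ⟨τ', k', hτ', hk', hQ⟩ := hQ
  refine ⟨min τ τ', min k k', lt_min hτ hτ', lt_min hk hk', ?_⟩
  intro b c₁ C₁ α J h1 h2 h3 h4
  have m1 := min_le_left τ τ'
  have m2 := min_le_right τ τ'
  obtain ⟨β, w, hβ, hw, hP⟩ := hP b c₁ C₁ α J h1 h2 (h3.trans (min_le_left _ _)) h4
  obtain ⟨β', w', hβ', hw', hQ⟩ := hQ b c₁ C₁ α J h1 h2 (h3.trans (min_le_right _ _)) h4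
  refine ⟨min β β', min w w', lt_min hβ hβ', lt_min hw hw', ?_⟩
  intro V hV g1 g2 g3 g4 g5 g6 g7 g8
  obtain ⟨e₁, he, hP⟩ := hP V hV (by linarith) g2 g3 g4 g5 g6 (g7.trans (min_le_left _ _))
    (g8.trans (min_le_left _ _))
  obtain ⟨e₁', he', hQ⟩ := hQ V hV (by linarith) g2 g3 g4 g5 g6 (g7.trans (min_le_right _ _))
    (g8.trans (min_le_right _ _))
  refine ⟨min e₁ e₁', lt_min he he', ?_⟩
  intro e₀ m ζ q1 q2 hG
  exact ⟨hP e₀ m ζ q1 (q2.trans (min_le_left _ _)) hG, hQ e₀ m ζ q1 (q2.trans (min_le_right _ _)) hG⟩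

theorem Ev2.imp (h : ∀ V, P V → Q V) (hP : Ev2 d a es c C P) : Ev2 d a es c C Q := by
  obtain ⟨τ, k, hτ, hk, hP⟩ := hP
  refine ⟨τ, k, hτ, hk, ?_⟩
  intro b c₁ C₁ α J h1 h2 h3 h4
  obtain ⟨β, w, hβ, hw, hP⟩ := hP b c₁ C₁ α J h1 h2 h3 h4
  refine ⟨β, w, hβ, hw, ?_⟩
  intro V hV g1 g2 g3 g4 g5 g6 g7 g8
  obtain ⟨e₁, he, hP⟩ := hP V hV g1 g2 g3 g4 g5 g6 g7 g8
  exact ⟨e₁, he, fun e₀ m ζ q1 q2 hG => h _ (hP e₀ m ζ q1 q2 hG)⟩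

/-- HOW TO PROVE `Ev2`: `τ₀`, `k₁` from `a`, `c`, `C`; `β₀`, `w₀` from `b`, `c₁`, `C₁`, `α`, `J`; `e₁` from the
environment (without `e₀`, `m`, `ζ`) -/
theorem Ev2.intro (τ₀ k₁ : ℝ) (hτ : 0 < τ₀) (hk : 0 < k₁)
    (h : ∀ (b : ℝ≥0) (c₁ C₁ : ℝ) (α J : ℕ), b < 1 → 0 < c₁ → c₁ ≤ k₁ → 2 ≤ α →
      ∃ β₀ w₀ : ℝ, 0 < β₀ ∧ 0 < w₀ ∧ ∀ V : Env d, V.Pre a → 1 - τ₀ ≤ (V.th : ℝ) → V.th ≤ b →
        V.c₁ = c₁ → V.C₁ = C₁ → V.α = α → V.J = J → V.β ≤ β₀ → (V.w : ℝ) ≤ w₀ →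
        ∃ e₁ : ℝ, 0 < e₁ ∧ ∀ (e₀ : ℝ) (m ζ : ℂ), 0 < e₀ → e₀ ≤ e₁ →
          ({ V with e₀ := e₀, m := m, ζ := ζ } : Env d).Good a es c C →
          P { V with e₀ := e₀, m := m, ζ := ζ }) : Ev2 d a es c C P :=
  ⟨τ₀, k₁, hτ, hk, h⟩

/-- the same, if `e₁` does not matter -/
theorem Ev2.intro' (τ₀ k₁ : ℝ) (hτ : 0 < τ₀) (hk : 0 < k₁)
    (h : ∀ (b : ℝ≥0) (c₁ C₁ : ℝ) (α J : ℕ), b < 1 → 0 < c₁ → c₁ ≤ k₁ → 2 ≤ α →
      ∃ β₀ w₀ : ℝ, 0 < β₀ ∧ 0 < w₀ ∧ ∀ V : Env d, V.Good a es c C → 1 - τ₀ ≤ (V.th : ℝ) →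
        V.th ≤ b → V.c₁ = c₁ → V.C₁ = C₁ → V.α = α → V.J = J → V.β ≤ β₀ → (V.w : ℝ) ≤ w₀ → P V) :
    Ev2 d a es c C P := by
  refine Ev2.intro τ₀ k₁ hτ hk ?_
  intro b c₁ C₁ α J h1 h2 h3 h4
  obtain ⟨β₀, w₀, b1, b2, h⟩ := h b c₁ C₁ α J h1 h2 h3 h4
  refine ⟨β₀, w₀, b1, b2, ?_⟩
  intro V _ e1 e2 e3 e4 e5 e6 g1 g2
  exact ⟨1, one_pos, fun e₀ m ζ _ _ hG => h _ hG e1 e2 e3 e4 e5 e6 g1 g2⟩

end ev

/-- the field statement, uniformly -/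
def Fld2 (Z : (d : ℕ) → ℝ → ℝ → ℝ → ℝ → Prd d) (es : ℝ)
    (fld : {d : ℕ} → Prd d → Env d → Prop) : Prop :=
  ∀ (d : ℕ) (a c C : ℝ), 3 ≤ d → 0 < a → 0 < c → c ≤ 1 / 2 → 1 ≤ C →
    Ev2 d a es c C fun V => fld (Z d a es c C) V

end Pool.Agent.QDU
end
end -- Pool.Agent.Helper22_QDU.Env2

section -- Pool.Agent.Helper22_QDU.Zf
/-!
# QDU: the fields, uniformly
-/

set_option autoImplicit false

open scoped BigOperators NNReal Matrix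

noncomputable section

namespace Pool.Agent.QDU

open Pool.Agent.AHH hiding BegF FinF FloF IniF KilF MmonF OutF RbegF RfinF RmonF ana0

open Pool.Agent.BED (Tor)
open Pool.Agent.AND2B (net kap Viol Prd)
open Pool.Agent.ANP (Cfg Geo Fc)

variable {d : ℕ}

/-! ### The fields -/

def IniF : Prop := Fld2 Z es Prd.Ini
def BegF : Prop := Fld2 Z es Prd.Beg
def MmonF : Prop := Fld2 Z es Prd.Mmon
def FloF : Prop := Fld2 Z es Prd.Flo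
def FinF : Prop := Fld2 Z es Prd.Fin
def RbegF : Prop := Fld2 Z es Prd.Rbeg
def RmonF : Prop := Fld2 Z es Prd.Rmon
def KilF : Prop := Fld2 Z es Prd.Kil
def RfinF : Prop := Fld2 Z es Prd.Rfin
def OutF : Prop := Fld2 Z es Prd.Out

end Pool.Agent.QDU
end
end -- Pool.Agent.Helper22_QDU.Zf
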