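import Pool.Agent.Helper12_MEB.B166

/-!
# Merged copies (generated) of the modules

* `Pool.Agent.Helper61_ANP.SclM`
* `Pool.Agent.Helper22_ACX.Scl2`
* `Pool.Agent.Helper34_ACX.Num`
* `Pool.Agent.Helper34_ACX.P8`
* `Pool.Agent.Helper16_CORE.Env0`
* `Pool.Agent.Helper22_QDA.Scb`
* `Pool.Agent.Helper34_QDA.NumD`
-/

set_option autoImplicit false

section -- Pool.Agent.Helper61_ANP.SclM

/-!
# AND2B: THE SCALES EXIST
-/

set_option autoImplicit false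

open Finset Filter

open scoped NNReal

noncomputable section

namespace Pool.Agent.ANP.H61

open Pool.Agent.AND2B

theorem scl : SclStmt := by
  intro d th c₁ hd hth hth1 hc₁
  obtain ⟨c1, hc1def⟩ : ∃ c1, c1 = min c₁ 1 := ⟨_, rfl⟩
  have hc1 : 0 < c1 := by rw [hc1def]; exact lt_min hc₁ one_pos
  have hc1le : c1 ≤ c₁ := by rw [hc1def]; exact min_le_left _ _
  have hc1le1 : c1 ≤ 1 := by rw [hc1def]; exact min_le_right _ _
  have hθ : (0 : ℝ) < th := by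
    have h1 : (0 : ℝ≥0) < th := lt_of_lt_of_le (by norm_num) hth
    exact_mod_cast h1
  have hθ1 : (th : ℝ) < 1 := by exact_mod_cast hth1
  -- the ratio
  obtain ⟨a0, ha0⟩ := exists_nat_ge (((d * 5 + 1 : ℕ) : ℝ) / c1)
  obtain ⟨a, hadef⟩ : ∃ a, a = max (d + 2) a0 := ⟨_, rfl⟩
  have had : d + 2 ≤ a := by rw [hadef]; exact le_max_left _ _
  have ha2 : 2 ≤ a := by omega
  have haa : ((d * 5 + 1 : ℕ) : ℝ) ≤ c1 * a := by
    have h1 : (a0 : ℝ) ≤ a := by rw [hadef]; exact_mod_cast le_max_right _ _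
    rw [div_le_iff₀ hc1] at ha0
    nlinarith only [hth, hth1, hc1, ha0, h1]
  obtain ⟨J, hJ⟩ : ∃ J, J = 2 * a + 4 := ⟨_, rfl⟩
  refine ⟨6, a, J, ha2, fun β hβ => ?_⟩
  -- the number of stages
  obtain ⟨h, hh⟩ := exists_pow_lt_of_lt_one (show (0 : ℝ) < 1 / 2 by norm_num) hθ1
  -- growth
  obtain ⟨E1, hE1⟩ := growth (5 / 4 - 6 / 5) (by norm_num) (((3 ^ d * J : ℕ) : ℝ) + 1)
  obtain ⟨E2, hE2⟩ := growth (13 / 10 - 5 / 4) (by norm_num) (2 * 3 ^ d : ℝ)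
  obtain ⟨E3, hE3⟩ := growth β hβ (Real.log (max 1 1) +
      (2 + h + (d + 1 + AA d a) * (5 * (a + 2)) : ℕ))
  obtain ⟨m0, hm0⟩ : ∃ m0, m0 = 104 * (3 ^ d * J) := ⟨_, rfl⟩
  obtain ⟨v, hv⟩ : ∃ v, v = 5 + (2 * d + 2) + m0 + (3 ^ d * J) ^ 2 * 2 ^ (3 * d + d * 5) +
    E1 + E2 + E3 := ⟨_, rfl⟩
  refine ⟨min th (1 / 2 ^ v), lt_min hθ (by positivity), (min_le_left _ _).trans hθ1.le,
    fun w t M₀ hw hw1 ht => ?_⟩
  have hwr : (0 : ℝ) < w := by exact_mod_cast hw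
  have hwθ : (w : ℝ) ≤ th := hw1.trans (min_le_left _ _)
  have hwv : (w : ℝ) * 2 ^ v ≤ 1 := by
    have h1 := hw1.trans (min_le_right _ _)
    rwa [le_div_iff₀ (by positivity)] at h1
  obtain ⟨kk, e, HK⟩ := exists_kq (w : ℝ) th v a ha2 (by omega) hθ hθ1 hwr hwθ hwv
  obtain ⟨N1, hN1⟩ := exists_pow_lt_of_lt_one ht (show (1 / 2 : ℝ) < 1 by norm_num)
  obtain ⟨N, hN⟩ : ∃ N, N = N1 + M₀ := ⟨_, rfl⟩
  have H := HK.sq
  obtain ⟨s, hs⟩ : ∃ s : ℕ → ℝ, s = fun n => (w : ℝ) * (th : ℝ) ^ kk n := ⟨_, rfl⟩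
  rw [← hs] at H
  have hsg : ∀ n, sg w th kk n = s n := by
    intro n
    rw [hs]
    unfold sg cl
    push_cast
    rfl
  have hC : 5 ≤ 5 := le_rfl
  have h3a : 5 + 1 ≤ 3 * a := by omega
  have hv5 : 5 ≤ v := by omega
  have hvm : m0 ≤ v := by omega
  have hvc : (3 ^ d * J) ^ 2 * 2 ^ (3 * d + d * 5) ≤ v := by omega
  have hvd : 2 * d + 2 ≤ v := by omega
  have hlin := H.lin
  have hmono : Monotone (lt 5 a m0 e N) := lmono H N hC h3a hv5 hvm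
  have hDl : ∀ n ≤ N, ((DN d J 5 a m0 (6 / 5) s e N n : ℕ) : ℝ) ≤ s (n + 1) ^ (-(5 / 4 : ℝ)) :=
    fun n hn => dn_le H d J N c1 (6 / 5) (5 / 4) hc1.le (by linarith only [hth, hth1, hc1le1]) (by norm_num) haa hvc E1 hE1
      (by omega) n hn
  have hDs := dsum H (m0 := m0) d J N (6 / 5) (5 / 4) (by norm_num) hC (by norm_num) (by omega) hvd
    hvc hDl
  have hDc := dcon H (m0 := m0) (C0 := 5) d J N (6 / 5) (5 / 4) (13 / 10) (by norm_num) (by norm_num)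
    E2 hE2 (by omega) hDl N le_rfl
  have hDm := dcon_last H (m0 := m0) (C0 := 5) d J N (6 / 5) (13 / 10) hC had (by norm_num)
    (by norm_num) hvd hvc hDc
  have hkk : ∀ n, kk (n + 1) ≤ kk n + h * (e (n + 1) + 2) := fun n =>
    kq_count (w : ℝ) th v a h kk e hθ hθ1 hh.le hwr (hwθ.trans hθ1.le) HK n
  have hpf0 : ∀ n, 0 ≤ pf w th kk β N n := fun n => by
    unfold pf
    split_ifs <;> positivity
  have hnum0 : ∀ n, 0 ≤ ((kk (n + 1) : ℝ) - kk n + ((2 ^ lt 5 a m0 e N n : ℕ) : ℝ) ^ d) := by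
    intro n
    have h1 : (kk n : ℝ) ≤ kk (n + 1) := by exact_mod_cast (HK.kks n).le
    have h2 : (0 : ℝ) ≤ ((2 ^ lt 5 a m0 e N n : ℕ) : ℝ) ^ d := by positivity
    linarith only [h1, h2]
  have hq0 : ∀ n, 0 ≤ qn d 5 a m0 e N n := fun n => by
    unfold qn
    positivity
  have hq1 : ∀ n, qn d 5 a m0 e N n ≤ 1 := fun n => by
    unfold qn
    exact pow_le_one₀ (by norm_num) (by norm_num)
  have hpi : ∀ n, pf w th kk β N n *
      ((kk (n + 1) : ℝ) - kk n + ((2 ^ lt 5 a m0 e N n : ℕ) : ℝ) ^ d) ≤ qn d 5 a m0 e N n / 2 := by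
    intro n
    rcases Nat.lt_or_ge N n with hn | hn
    · unfold pf
      rw [if_neg (by omega), zero_mul]
      have := hq0 n
      linarith only [this]
    · refine pi_le H (m0 := m0) d N hC β 1 h hβ.le kk hkk E3 hE3 (by omega) _ n hn (hpf0 n) ?_
      unfold pf
      rw [if_pos hn, hsg, one_mul]
  have hphi := phi_le H (m0 := m0) d N hC h3a hv5 hvm J hJ 0
  refine ⟨N, mt 5 a e N, kk, lt 5 a m0 e N, rt 5 a m0 e N, KN (6 / 5) s N,
    DN d J 5 a m0 (6 / 5) s e N, ?_, ?_⟩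
  · -- M₀
    have h1 : M₀ ≤ mt 5 a e N := by
      unfold mt
      have h2 : 1 * (5 * (e (N + 1) + 1)) ≤ a * (5 * (e (N + 1) + 1)) :=
        Nat.mul_le_mul_right _ (by omega)
      have h3 := hlin (N + 1)
      omega
    exact h1.trans (Nat.lt_two_pow_self).le
  have hs1 : ∀ n, s n ≤ 1 := H.le_one
  have hmtN : (2 : ℝ) ^ mt 5 a e N = (2 : ℝ) ^ ((a : ℝ) * (5 * ((e (N + 1) : ℝ) + 1))) := by
    rw [← Real.rpow_natCast]
    unfold mt
    push_cast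
    rfl
  refine
    { k0 := HK.kk0
      km := HK.kks
      low := fun n _ => ?_
      up := fun n _ => ?_
      fin := ?_
      lm := hmono
      rlow := fun n hn => ?_
      rup := fun n hn => ?_
      llow := fun n hn => ?_
      lup := fun n hn => ?_
      lN := ?_
      rN := ?_
      mN := ?_
      mU := ?_
      clu := fun n hn1 hn => ?_
      scl := ?_
      kn := fun n hn => ?_
      d0 := ?_
      dl := fun n hn => ?_
      dn := fun n hn => ?_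
      ds := ?_
      dM := ?_
      pi := fun n _ => ?_
      phi := ?_ }
  · rw [hsg, hsg, hs]
    exact HK.dn n
  · rw [hsg, hsg]
    have h1 : s (n + 1) ≤ s n ^ a := by
      rw [hs]
      exact HK.up n
    exact h1.trans (pow_le_pow_of_le_one (H.pos n).le (hs1 n) (by omega))
  · rw [hsg]
    have h1 := H.hi (N + 1)
    have h2 := hlin (N + 1)
    have h3 : (1 / 2 : ℝ) ^ N1 * 2 ^ e (N + 1) ≥ 1 := by
      have h4 : (2 : ℝ) ^ N1 ≤ 2 ^ e (N + 1) := pow_le_pow_right₀ (by norm_num) (by omega)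
      have h5 : (1 / 2 : ℝ) ^ N1 * 2 ^ N1 = 1 := by
        rw [← mul_pow]
        norm_num
      have h6 : (0 : ℝ) ≤ (1 / 2) ^ N1 := by positivity
      nlinarith only [hth, hth1, h4, h5, h6]
    have h4 : (0 : ℝ) < 2 ^ e (N + 1) := by positivity
    have h5 : s (N + 1) * 2 ^ e (N + 1) ≤ (1 / 2 : ℝ) ^ N1 * 2 ^ e (N + 1) := by linarith only [h1, h3]
    exact (le_of_mul_le_mul_right h5 h4).trans hN1.le
  · rw [hsg, rt_of_le hn]
    refine (rp_hi (s (n + 1)) 3 (e (n + 1)) (H.pos _) (H.lo _) (by norm_num)).trans (le_of_eq ?_)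
    rw [← Real.rpow_natCast]
    push_cast
    rfl
  · rw [hsg, rt_of_le hn]
    refine le_trans ?_ (rp_lo (s (n + 1)) 4 (e (n + 1)) (H.pos _) (H.hi _) (by norm_num))
    rw [← Real.rpow_natCast]
    refine Real.rpow_le_rpow_of_exponent_le (by norm_num) ?_
    have h1 : (3 * (e (n + 1) + 1) : ℕ) ≤ 4 * e (n + 1) := by
      have := hlin (n + 1)
      omega
    exact_mod_cast h1
  · rw [hsg, lt_of_le hn]
    refine (rp_hi (s (n + 1)) 5 (e (n + 1)) (H.pos _) (H.lo _) (by norm_num)).trans (le_of_eq ?_)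
    rw [← Real.rpow_natCast]
    push_cast
    rfl
  · rw [hsg, lt_of_le hn]
    refine le_trans ?_ (rp_lo (s (n + 1)) 6 (e (n + 1)) (H.pos _) (H.hi _) (by norm_num))
    rw [← Real.rpow_natCast]
    refine Real.rpow_le_rpow_of_exponent_le (by norm_num) ?_
    have h1 : (5 * (e (n + 1) + 1) : ℕ) ≤ 6 * e (n + 1) := by
      have := hlin (n + 1)
      omega
    exact_mod_cast h1
  · have h1 : lt 5 a m0 e N N + 6 ≤ mt 5 a e N := by
      rw [lt_of_le le_rfl]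
      unfold mt
      have h2 : 2 * (5 * (e (N + 1) + 1)) ≤ a * (5 * (e (N + 1) + 1)) :=
        Nat.mul_le_mul_right _ ha2
      have h3 := hlin (N + 1)
      omega
    omega
  · rw [rt_of_gt (Nat.lt_succ_self N)]
    omega
  · rw [hsg]
    refine (rp_hi (s (N + 1)) 5 (e (N + 1)) (H.pos _) (H.lo _) (by norm_num)).trans ?_
    rw [hmtN]
    refine Real.rpow_le_rpow_of_exponent_le (by norm_num) ?_
    have h1 : (1 : ℝ) ≤ a := by exact_mod_cast (by omega : 1 ≤ a)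
    have h2 : (0 : ℝ) ≤ 5 * ((e (N + 1) : ℝ) + 1) := by positivity
    nlinarith only [h1]
  · rw [hsg]
    refine le_trans ?_ (rp_lo (s (N + 1)) (6 * ((a : ℝ) + 1)) (e (N + 1)) (H.pos _) (H.hi _)
      (by positivity))
    rw [hmtN]
    refine Real.rpow_le_rpow_of_exponent_le (by norm_num) ?_
    have h1 : (5 : ℝ) ≤ e (N + 1) := by
      have h2 := hlin (N + 1)
      exact_mod_cast (by omega : 5 ≤ e (N + 1))
    have h2 : (0 : ℝ) ≤ a := by positivity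
    nlinarith only [hth, hth1, h1]
  · rw [hsg]
    obtain ⟨m, rfl⟩ : ∃ m, n = m + 1 := ⟨n - 1, by omega⟩
    have h1 := clu H (m0 := m0) (C0 := 5) d J N c1 hc1.le haa hvc m hn
    rw [Nat.add_sub_cancel]
    have h2 : s (m + 2) ^ (-c1) ≤ s (m + 2) ^ (-c₁) := rp_mono _ (H.pos _) (hs1 _) _ _ hc1le
    refine le_trans ?_ (h1.trans h2)
    have h3 : (3 ^ d * J) * (6 * 2 ^ lt 5 a m0 e N m + 1) ^ d ≤
        (3 ^ d * J) ^ 2 * (6 * 2 ^ lt 5 a m0 e N m + 1) ^ d := by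
      refine Nat.mul_le_mul_right _ ?_
      have h4 : 1 ≤ 3 ^ d * J := Nat.mul_pos (by positivity) (by omega)
      nlinarith only [hm0, h4]
    exact_mod_cast h3
  · refine scl_scl H d J N _ hC h3a hv5 hvm (by omega) ?_
    rw [← hm0]
    exact (Nat.lt_two_pow_self).le
  · unfold KN
    rw [if_pos hn, hsg]
  · unfold DN
    rw [if_pos rfl]
  · rw [hsg]
    exact hDl n hn
  · have h1 : n ≠ 0 := by omega
    unfold DN
    rw [if_neg h1]
  · exact_mod_cast hDs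
  · have h1 : (0 : ℝ) ≤ ∑ i ∈ range (N + 2), (3 ^ d * (DN d J 5 a m0 (6 / 5) s e N i : ℝ)) :=
      Finset.sum_nonneg fun i _ => by positivity
    linarith only [hth, hth1, hDm, h1]
  · have h1 := hpi n
    have h2 := hq1 n
    linarith only [hth, hth1, h1, h2]
  · refine le_trans (H72.phi_mono ?_ ?_ _ _) hphi
    · intro c
      exact mul_nonneg (hpf0 _) (hnum0 _)
    · intro c
      exact hpi c.1

end Pool.Agent.ANP.H61
end
end -- Pool.Agent.Helper61_ANP.SclM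

section -- Pool.Agent.Helper22_ACX.Scl2

/-!
# ACX: the scales with arbitrarily small probabilities of the bad blocks
-/

set_option autoImplicit false

open Finset Filter

open scoped NNReal

noncomputable section

namespace Pool.Agent.ACX.H22

open Pool.Agent.ANP Pool.Agent.ANP.H61 Pool.Agent.AND2B

/-- THE SCALES EXIST, and the bounds `QQ` of the probabilities of the bad blocks are at most
`sg (n + 1) ^ A`, `A` arbitrary -/
def SclStmt2 : Prop :=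
  ∀ (d : ℕ) (th : ℝ≥0) (c₁ : ℝ), 3 ≤ d → 1 / 2 ≤ th → th < 1 → 0 < c₁ →
    ∃ (C₁ : ℝ) (α J : ℕ), 4 * d + 4 ≤ α ∧ ∀ β : ℝ, 0 < β → ∀ A : ℝ,
    ∃ w₁ : ℝ, 0 < w₁ ∧ w₁ ≤ 1 ∧ ∀ (w : ℝ≥0) (t : ℝ) (M₀ : ℕ), 0 < w → (w : ℝ) ≤ w₁ → 0 < t →
      ∃ (N μ : ℕ) (kk l r Kn Dn : ℕ → ℕ), 2 ≤ N ∧ M₀ ≤ 2 ^ μ ∧
        Scal d th c₁ C₁ α J β w t N μ kk l r Kn Dn ∧
        ∀ n ≤ N, ∀ B, ANP.H72.QQ (Gt d μ J N l r).ch J
          (fun i => 2 * pf w th kk β N i.1 *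
            ((kk (i.1 + 1) : ℝ) - kk i.1 + ((2 ^ l i.1 : ℕ) : ℝ) ^ d)) n B ≤
          sg w th kk (n + 1) ^ A

/-- the bound of the probability that a block of level `n` is bad, exponent `A` -/
def qA (A C0 a m0 : ℕ) (e : ℕ → ℕ) (N n : ℕ) : ℝ := (1 / 2) ^ (A * lt C0 a m0 e N n)

theorem rec_expA (d a A l l' : ℕ) (hA : AA d a ≤ A) (hl : 1 ≤ l) (hl2 : l' ≤ (a + 2) * l) :
    d * (l' - l) * (2 * a + 4 + 1) + (1 + A * l') ≤ A * l * (2 * a + 4 + 1) := by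
  obtain ⟨r, rfl⟩ := Nat.exists_eq_add_of_le hA
  have h1 := rec_exp d a l l' hl hl2
  have h2 : r * l' ≤ r * l * (2 * a + 4 + 1) := by
    rw [mul_assoc]
    refine Nat.mul_le_mul_left _ (hl2.trans ?_)
    rw [mul_comm]
    exact Nat.mul_le_mul_left _ (by omega)
  have h3 : (AA d a + r) * l' = AA d a * l' + r * l' := by ring
  have h4 : (AA d a + r) * l * (2 * a + 4 + 1) =
      AA d a * l * (2 * a + 4 + 1) + r * l * (2 * a + 4 + 1) := by ring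
  rw [h3, h4]
  omega

section prob

variable {v a C0 m0 : ℕ} {s : ℕ → ℝ} {e : ℕ → ℕ} (H : Sq v a s e) (d N : ℕ)
  (hC : 5 ≤ C0) (hvm : m0 ≤ v)

include H hC hvm in
/-- the recursion -/
theorem q_recA (A : ℕ) (hA : AA d a ≤ A) (n : ℕ) :
    (((2 ^ (lt C0 a m0 e N (n + 1) - lt C0 a m0 e N n)) ^ d : ℕ) * qA A C0 a m0 e N n : ℝ) ^
      (2 * a + 4 + 1) ≤ qA A C0 a m0 e N (n + 1) / 2 := by
  have hl := l_ge H (m0 := m0) N hC n
  have hv1 := H.v1
  have h1 := rec_expA d a A (lt C0 a m0 e N n) (lt C0 a m0 e N (n + 1)) hA (by omega)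
    (l_succ H N hC hvm n)
  unfold qA
  push_cast
  rw [mul_pow, ← pow_mul, ← pow_mul, ← pow_mul]
  have h2 := half_pow ((lt C0 a m0 e N (n + 1) - lt C0 a m0 e N n) * (d * (2 * a + 4 + 1)))
    (A * lt C0 a m0 e N n * (2 * a + 4 + 1)) (1 + A * lt C0 a m0 e N (n + 1))
    (by
      have e1 : (lt C0 a m0 e N (n + 1) - lt C0 a m0 e N n) * (d * (2 * a + 4 + 1)) =
        d * (lt C0 a m0 e N (n + 1) - lt C0 a m0 e N n) * (2 * a + 4 + 1) := by ring
      rw [e1]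
      exact h1)
  refine h2.trans (le_of_eq ?_)
  rw [pow_add, pow_one]
  ring

include H hC in
/-- the probability of a failed trial -/
theorem pi_leA (A : ℕ) (c0 Cp : ℝ) (h : ℕ) (hc0 : 0 ≤ c0) (kk : ℕ → ℕ)
    (hkk : ∀ n, kk (n + 1) ≤ kk n + h * (e (n + 1) + 2)) (E : ℕ)
    (hE : ∀ e : ℕ, E ≤ e → (Real.log (max Cp 1) +
      (2 + h + (d + 1 + A) * (C0 * (a + 2)) : ℕ)) * ((e : ℝ) + 1) ≤ (2 : ℝ) ^ (c0 * e))
    (hvE : E ≤ v) (p : ℝ) (n : ℕ) (hn : n ≤ N) (hp0 : 0 ≤ p)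
    (hp : p ≤ Cp * Real.exp (-(s n ^ (-c0)))) :
    p * ((kk (n + 1) : ℝ) - kk n + ((2 ^ lt C0 a m0 e N n : ℕ) : ℝ) ^ d) ≤
      qA A C0 a m0 e N n / 2 := by
  have h1 := rp_lo (s n) c0 (e n) (H.pos n) (H.hi n) hc0
  have h2 := hE (e n) (hvE.trans (H.ge n))
  have hl : lt C0 a m0 e N n = C0 * (e (n + 1) + 1) := lt_of_le hn
  set l := lt C0 a m0 e N n with hldef
  have hl2 : l ≤ C0 * (a + 2) * (e n + 1) := by
    rw [hl, mul_assoc]
    refine Nat.mul_le_mul_left _ ?_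
    have h3 := H.e2 n
    have : (a + 2) * (e n + 1) = (a + 1) * (e n + 1) + (e n + 1) := by ring
    omega
  have hel : e (n + 1) + 2 ≤ 2 ^ l := by
    have h3 : e (n + 1) + 1 < 2 ^ (e (n + 1) + 1) := Nat.lt_two_pow_self
    have h4 : (2 : ℕ) ^ (e (n + 1) + 1) ≤ 2 ^ l := by
      refine Nat.pow_le_pow_right (by norm_num) ?_
      rw [hl]
      exact Nat.le_mul_of_pos_left _ (by omega)
    omega
  -- the number of trials
  have hnum : ((kk (n + 1) : ℝ) - kk n + ((2 ^ l : ℕ) : ℝ) ^ d) ≤ 2 ^ (1 + h + (d + 1) * l) := by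
    have h5 : ((kk (n + 1) : ℝ) - kk n) ≤ h * ((e (n + 1) : ℝ) + 2) := by
      have : ((kk (n + 1) : ℕ) : ℝ) ≤ ((kk n + h * (e (n + 1) + 2) : ℕ) : ℝ) := by
        exact_mod_cast hkk n
      push_cast at this
      linarith only [this]
    have h6 : (h : ℝ) ≤ 2 ^ h := by exact_mod_cast (Nat.lt_two_pow_self (n := h)).le
    have h7 : ((e (n + 1) : ℝ) + 2) ≤ 2 ^ l := by exact_mod_cast hel
    have h8 : (h : ℝ) * ((e (n + 1) : ℝ) + 2) ≤ 2 ^ h * 2 ^ l :=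
      mul_le_mul h6 h7 (by positivity) (by positivity)
    have h9 : (2 : ℝ) ^ h * 2 ^ l ≤ 2 ^ (h + (d + 1) * l) := by
      rw [← pow_add]
      refine pow_le_pow_right₀ (by norm_num) ?_
      have : 1 * l ≤ (d + 1) * l := Nat.mul_le_mul_right _ (by omega)
      omega
    have h10 : ((2 ^ l : ℕ) : ℝ) ^ d ≤ 2 ^ (h + (d + 1) * l) := by
      push_cast
      rw [← pow_mul]
      refine pow_le_pow_right₀ (by norm_num) ?_
      have : (d + 1) * l = l * d + l := by ring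
      omega
    have h11 : (2 : ℝ) ^ (1 + h + (d + 1) * l) = 2 * 2 ^ (h + (d + 1) * l) := by
      rw [add_assoc, pow_add, pow_one]
    rw [h11]
    linarith only [h5, h8, h9, h10]
  -- the exponential
  have hexp : max Cp 1 * 2 ^ (2 + h + (d + 1 + A) * l) ≤ Real.exp (s n ^ (-c0)) := by
    have hm : 0 < max Cp 1 := lt_max_of_lt_right one_pos
    have hlog0 : 0 ≤ Real.log (max Cp 1) := Real.log_nonneg (le_max_right _ _)
    have h3 : max Cp 1 * 2 ^ (2 + h + (d + 1 + A) * l) =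
        Real.exp (Real.log (max Cp 1) + ((2 + h + (d + 1 + A) * l : ℕ) : ℝ) * Real.log 2) := by
      rw [Real.exp_add, Real.exp_log hm, mul_comm (((2 + h + (d + 1 + A) * l : ℕ) : ℝ)),
        Real.exp_mul, Real.exp_log (by norm_num), Real.rpow_natCast]
    rw [h3, Real.exp_le_exp]
    refine le_trans ?_ h1
    refine le_trans ?_ h2
    have h4 : ((2 + h + (d + 1 + A) * l : ℕ) : ℝ) ≤
        ((2 + h + (d + 1 + A) * (C0 * (a + 2)) : ℕ) : ℝ) * ((e n : ℝ) + 1) := by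
      have h5 : 2 + h + (d + 1 + A) * l ≤
          (2 + h + (d + 1 + A) * (C0 * (a + 2))) * (e n + 1) := by
        have h6 : (d + 1 + A) * l ≤ (d + 1 + A) * (C0 * (a + 2) * (e n + 1)) :=
          Nat.mul_le_mul_left _ hl2
        have h7 : (2 + h + (d + 1 + A) * (C0 * (a + 2))) * (e n + 1) =
            (2 + h) * (e n + 1) + (d + 1 + A) * (C0 * (a + 2) * (e n + 1)) := by ring
        have h8 : (2 + h) * 1 ≤ (2 + h) * (e n + 1) := Nat.mul_le_mul_left _ (by omega)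
        omega
      exact_mod_cast h5
    have hlog2 : Real.log 2 ≤ 1 := by
      have := Real.log_two_lt_d9
      linarith only [this]
    have hlog2' : 0 ≤ Real.log 2 := Real.log_nonneg (by norm_num)
    have h9 : (0 : ℝ) ≤ ((2 + h + (d + 1 + A) * l : ℕ) : ℝ) := by positivity
    have h10 : (0 : ℝ) ≤ e n := by positivity
    nlinarith only [hlog0, h4, hlog2]
  have hCp : Cp ≤ max Cp 1 := le_max_left _ _
  have hnum0 : (0 : ℝ) ≤ (kk (n + 1) : ℝ) - kk n + ((2 ^ l : ℕ) : ℝ) ^ d ∨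
      (kk (n + 1) : ℝ) - kk n + ((2 ^ l : ℕ) : ℝ) ^ d < 0 := le_or_gt _ _
  have hpe : p ≤ max Cp 1 * Real.exp (-(s n ^ (-c0))) :=
    hp.trans (mul_le_mul_of_nonneg_right hCp (Real.exp_pos _).le)
  calc p * ((kk (n + 1) : ℝ) - kk n + ((2 ^ l : ℕ) : ℝ) ^ d)
      ≤ p * 2 ^ (1 + h + (d + 1) * l) := mul_le_mul_of_nonneg_left hnum hp0
    _ ≤ max Cp 1 * Real.exp (-(s n ^ (-c0))) * 2 ^ (1 + h + (d + 1) * l) :=
        mul_le_mul_of_nonneg_right hpe (by positivity)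
    _ ≤ qA A C0 a m0 e N n / 2 := by
        rw [Real.exp_neg]
        have hX : 0 < Real.exp (s n ^ (-c0)) := Real.exp_pos _
        rw [mul_right_comm, ← div_eq_mul_inv, div_le_iff₀ hX]
        unfold qA
        rw [← hldef]
        have h12 : (1 / 2 : ℝ) ^ (A * l) / 2 * (max Cp 1 * 2 ^ (2 + h + (d + 1 + A) * l)) =
            max Cp 1 * 2 ^ (1 + h + (d + 1) * l) := by
          have h13 : (2 : ℝ) ^ (2 + h + (d + 1 + A) * l) =
              2 * 2 ^ (1 + h + (d + 1) * l) * 2 ^ (A * l) := by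
            rw [mul_assoc, ← pow_add, mul_comm (2 : ℝ), ← pow_succ]
            congr 1
            ring
          rw [h13, one_div, inv_pow]
          field_simp
        rw [← h12]
        exact mul_le_mul_of_nonneg_left hexp (by positivity)


include H hC hvm in
/-- the bounds of the probabilities of the bad blocks -/
theorem qq_fin (hmono : Monotone (lt C0 a m0 e N)) (J : ℕ) (hJ : J = 2 * a + 4) (A' : ℕ)
    (hA : AA d a ≤ A') (x : ℕ → ℝ) (h0 : ∀ n, 0 ≤ x n)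
    (hx : ∀ n, x n ≤ qA A' C0 a m0 e N n / 2) (A : ℝ) (hA5 : A ≤ ((A' * C0 : ℕ) : ℝ)) (n : ℕ)
    (hn : n ≤ N) (B : Fin d → ZMod (2 ^ H61.mt C0 a e N)) :
    ANP.H72.QQ (Gt d (H61.mt C0 a e N) J N (lt C0 a m0 e N) (rt C0 a m0 e N)).ch J
      (fun i => x i.1) n B ≤ s (n + 1) ^ A := by
  have hq0 : ∀ n, 0 ≤ qA A' C0 a m0 e N n := fun n => by
    unfold qA
    positivity
  have h1 := ANP.H72.qq_start (J := J) (x := fun i => x i.1)
    (fun c => h0 c.1) (t := fun n => qA A' C0 a m0 e N n / 2)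
    (q := qA A' C0 a m0 e N)
    (K := fun n => (2 ^ (lt C0 a m0 e N (n + 1) - lt C0 a m0 e N n)) ^ d)
    (ch := (Gt d (H61.mt C0 a e N) J N (lt C0 a m0 e N) (rt C0 a m0 e N)).ch)
    (fun n B => hx n)
    (fun n B => trm d (H61.mt C0 a e N) (lt C0 a m0 e N) _ hmono J N n B)
    (by have := hq0 0; linarith only [this]) (fun n => by
      have h1 := q_recA H (m0 := m0) d N hC hvm A' hA n
      rw [hJ]
      linarith only [h1]) n B
  refine h1.trans ?_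
  have hs0 := H.pos (n + 1)
  have h2 : ((1 : ℝ) / 2) ^ (e (n + 1) + 1) ≤ s (n + 1) := by
    have h3 := H.lo (n + 1)
    have h4 : ((1 : ℝ) / 2) ^ (e (n + 1) + 1) * 2 ^ (e (n + 1) + 1) = 1 := by
      rw [← mul_pow]
      norm_num
    have h5 : (0 : ℝ) < 2 ^ (e (n + 1) + 1) := by positivity
    refine le_of_mul_le_mul_right ?_ h5
    rw [h4]
    exact h3
  have h3 : qA A' C0 a m0 e N n ≤ s (n + 1) ^ (A' * C0) := by
    unfold qA
    rw [lt_of_le hn]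
    have h4 : A' * (C0 * (e (n + 1) + 1)) = (e (n + 1) + 1) * (A' * C0) := by ring
    rw [h4, pow_mul]
    exact pow_le_pow_left₀ (by positivity) h2 _
  refine h3.trans ?_
  rw [← Real.rpow_natCast]
  exact Real.rpow_le_rpow_of_exponent_ge hs0 (H.le_one _) hA5

end prob

theorem scl2 : SclStmt2 := by
  intro d th c₁ hd hth hth1 hc₁
  obtain ⟨c1, hc1def⟩ : ∃ c1, c1 = min c₁ 1 := ⟨_, rfl⟩
  have hc1 : 0 < c1 := by rw [hc1def]; exact lt_min hc₁ one_pos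
  have hc1le : c1 ≤ c₁ := by rw [hc1def]; exact min_le_left _ _
  have hc1le1 : c1 ≤ 1 := by rw [hc1def]; exact min_le_right _ _
  have hθ : (0 : ℝ) < th := by
    have h1 : (0 : ℝ≥0) < th := lt_of_lt_of_le (by norm_num) hth
    exact_mod_cast h1
  have hθ1 : (th : ℝ) < 1 := by exact_mod_cast hth1
  -- the ratio
  obtain ⟨a0, ha0⟩ := exists_nat_ge (((d * 5 + 1 : ℕ) : ℝ) / c1)
  obtain ⟨a, hadef⟩ : ∃ a, a = max (4 * d + 4) a0 := ⟨_, rfl⟩
  have had4 : 4 * d + 4 ≤ a := by rw [hadef]; exact le_max_left _ _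
  have had : d + 2 ≤ a := by omega
  have ha2 : 2 ≤ a := by omega
  have haa : ((d * 5 + 1 : ℕ) : ℝ) ≤ c1 * a := by
    have h1 : (a0 : ℝ) ≤ a := by rw [hadef]; exact_mod_cast le_max_right _ _
    rw [div_le_iff₀ hc1] at ha0
    nlinarith only [hth, hth1, hc1, ha0, h1]
  obtain ⟨J, hJ⟩ : ∃ J, J = 2 * a + 4 := ⟨_, rfl⟩
  refine ⟨6, a, J, by omega, fun β hβ A => ?_⟩
  obtain ⟨A0, hA0⟩ := exists_nat_ge A
  obtain ⟨A', hA'⟩ : ∃ A', A' = max (AA d a) A0 := ⟨_, rfl⟩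
  have hAA : AA d a ≤ A' := by rw [hA']; exact le_max_left _ _
  have hA5 : A ≤ ((A' * 5 : ℕ) : ℝ) := by
    have h1 : (A0 : ℝ) ≤ (A' : ℝ) := by rw [hA']; exact_mod_cast le_max_right _ _
    have h2 : (0 : ℝ) ≤ (A' : ℝ) := Nat.cast_nonneg _
    push_cast
    linarith only [hA0, h1]
  -- the number of stages
  obtain ⟨h, hh⟩ := exists_pow_lt_of_lt_one (show (0 : ℝ) < 1 / 2 by norm_num) hθ1
  -- growth
  obtain ⟨E1, hE1⟩ := growth (5 / 4 - 6 / 5) (by norm_num) (((3 ^ d * J : ℕ) : ℝ) + 1)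
  obtain ⟨E2, hE2⟩ := growth (13 / 10 - 5 / 4) (by norm_num) (2 * 3 ^ d : ℝ)
  obtain ⟨E3, hE3⟩ := growth β hβ (Real.log (max 2 1) +
      (2 + h + (d + 1 + A') * (5 * (a + 2)) : ℕ))
  obtain ⟨m0, hm0⟩ : ∃ m0, m0 = 104 * (3 ^ d * J) := ⟨_, rfl⟩
  obtain ⟨v, hv⟩ : ∃ v, v = 5 + (2 * d + 2) + m0 + (3 ^ d * J) ^ 2 * 2 ^ (3 * d + d * 5) +
    E1 + E2 + E3 := ⟨_, rfl⟩
  refine ⟨min th (1 / 2 ^ v), lt_min hθ (by positivity), (min_le_left _ _).trans hθ1.le,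
    fun w t M₀ hw hw1 ht => ?_⟩
  have hwr : (0 : ℝ) < w := by exact_mod_cast hw
  have hwθ : (w : ℝ) ≤ th := hw1.trans (min_le_left _ _)
  have hwv : (w : ℝ) * 2 ^ v ≤ 1 := by
    have h1 := hw1.trans (min_le_right _ _)
    rwa [le_div_iff₀ (by positivity)] at h1
  obtain ⟨kk, e, HK⟩ := exists_kq (w : ℝ) th v a ha2 (by omega) hθ hθ1 hwr hwθ hwv
  obtain ⟨N1, hN1⟩ := exists_pow_lt_of_lt_one ht (show (1 / 2 : ℝ) < 1 by norm_num)
  obtain ⟨N, hN⟩ : ∃ N, N = N1 + M₀ + 2 := ⟨_, rfl⟩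
  have H := HK.sq
  obtain ⟨s, hs⟩ : ∃ s : ℕ → ℝ, s = fun n => (w : ℝ) * (th : ℝ) ^ kk n := ⟨_, rfl⟩
  rw [← hs] at H
  have hsg : ∀ n, sg w th kk n = s n := by
    intro n
    rw [hs]
    unfold sg cl
    push_cast
    rfl
  have hs1 : ∀ n, s n ≤ 1 := H.le_one
  have hC : 5 ≤ 5 := le_rfl
  have h3a : 5 + 1 ≤ 3 * a := by omega
  have hv5 : 5 ≤ v := by omega
  have hvm : m0 ≤ v := by omega
  have hvc : (3 ^ d * J) ^ 2 * 2 ^ (3 * d + d * 5) ≤ v := by omega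
  have hvd : 2 * d + 2 ≤ v := by omega
  have hlin := H.lin
  have hmono : Monotone (lt 5 a m0 e N) := lmono H N hC h3a hv5 hvm
  have hDl : ∀ n ≤ N, ((DN d J 5 a m0 (6 / 5) s e N n : ℕ) : ℝ) ≤ s (n + 1) ^ (-(5 / 4 : ℝ)) :=
    fun n hn => dn_le H d J N c1 (6 / 5) (5 / 4) hc1.le (by linarith only [hth, hth1, hc1le1]) (by norm_num) haa hvc E1 hE1
      (by omega) n hn
  have hDs := dsum H (m0 := m0) d J N (6 / 5) (5 / 4) (by norm_num) hC (by norm_num) (by omega) hvd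
    hvc hDl
  have hDc := dcon H (m0 := m0) (C0 := 5) d J N (6 / 5) (5 / 4) (13 / 10) (by norm_num) (by norm_num)
    E2 hE2 (by omega) hDl N le_rfl
  have hDm := dcon_last H (m0 := m0) (C0 := 5) d J N (6 / 5) (13 / 10) hC had (by norm_num)
    (by norm_num) hvd hvc hDc
  have hkk : ∀ n, kk (n + 1) ≤ kk n + h * (e (n + 1) + 2) := fun n =>
    kq_count (w : ℝ) th v a h kk e hθ hθ1 hh.le hwr (hwθ.trans hθ1.le) HK n
  have hpf0 : ∀ n, 0 ≤ pf w th kk β N n := fun n => by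
    unfold pf
    split_ifs <;> positivity
  have hnum0 : ∀ n, 0 ≤ ((kk (n + 1) : ℝ) - kk n + ((2 ^ lt 5 a m0 e N n : ℕ) : ℝ) ^ d) := by
    intro n
    have h1 : (kk n : ℝ) ≤ kk (n + 1) := by exact_mod_cast (HK.kks n).le
    have h2 : (0 : ℝ) ≤ ((2 ^ lt 5 a m0 e N n : ℕ) : ℝ) ^ d := by positivity
    linarith only [h1, h2]
  have hq0 : ∀ n, 0 ≤ qA A' 5 a m0 e N n := fun n => by
    unfold qA
    positivity
  have hq1 : ∀ n, qA A' 5 a m0 e N n ≤ 1 := fun n => by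
    unfold qA
    exact pow_le_one₀ (by norm_num) (by norm_num)
  have hqq : ∀ n, qA A' 5 a m0 e N n ≤ qn d 5 a m0 e N n := fun n => by
    unfold qA qn
    exact pow_le_pow_of_le_one (by norm_num) (by norm_num) (Nat.mul_le_mul_right _ hAA)
  have hpi2 : ∀ n, 2 * pf w th kk β N n *
      ((kk (n + 1) : ℝ) - kk n + ((2 ^ lt 5 a m0 e N n : ℕ) : ℝ) ^ d) ≤ qA A' 5 a m0 e N n / 2 := by
    intro n
    rcases Nat.lt_or_ge N n with hn | hn
    · unfold pf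
      rw [if_neg (by omega), mul_zero, zero_mul]
      have := hq0 n
      linarith only [this]
    · refine pi_leA H (m0 := m0) d N hC A' β 2 h hβ.le kk hkk E3 hE3 (by omega) _ n hn
        (mul_nonneg (by norm_num) (hpf0 n)) ?_
      unfold pf
      rw [if_pos hn, hsg]
  have hpi : ∀ n, pf w th kk β N n *
      ((kk (n + 1) : ℝ) - kk n + ((2 ^ lt 5 a m0 e N n : ℕ) : ℝ) ^ d) ≤ qn d 5 a m0 e N n / 2 := by
    intro n
    have h1 := hpi2 n
    have h2 := hqq n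
    have h3 := mul_nonneg (hpf0 n) (hnum0 n)
    have h4 := hq0 n
    linarith only [h1, h2, h3]
  have hphi := phi_le H (m0 := m0) d N hC h3a hv5 hvm J hJ 0
  refine ⟨N, mt 5 a e N, kk, lt 5 a m0 e N, rt 5 a m0 e N, KN (6 / 5) s N,
    DN d J 5 a m0 (6 / 5) s e N, by omega, ?_, ?_, fun n hn B => ?_⟩
  · -- M₀
    have h1 : M₀ ≤ mt 5 a e N := by
      unfold ANP.H61.mt
      have h2 : 1 * (5 * (e (N + 1) + 1)) ≤ a * (5 * (e (N + 1) + 1)) :=
        Nat.mul_le_mul_right _ (by omega)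
      have h3 := hlin (N + 1)
      omega
    exact h1.trans (Nat.lt_two_pow_self).le
  have hmtN : (2 : ℝ) ^ mt 5 a e N = (2 : ℝ) ^ ((a : ℝ) * (5 * ((e (N + 1) : ℝ) + 1))) := by
    rw [← Real.rpow_natCast]
    unfold ANP.H61.mt
    push_cast
    rfl
  refine
    { k0 := HK.kk0
      km := HK.kks
      low := fun n _ => ?_
      up := fun n _ => ?_
      fin := ?_
      lm := hmono
      rlow := fun n hn => ?_
      rup := fun n hn => ?_
      llow := fun n hn => ?_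
      lup := fun n hn => ?_
      lN := ?_
      rN := ?_
      mN := ?_
      mU := ?_
      clu := fun n hn1 hn => ?_
      scl := ?_
      kn := fun n hn => ?_
      d0 := ?_
      dl := fun n hn => ?_
      dn := fun n hn => ?_
      ds := ?_
      dM := ?_
      pi := fun n _ => ?_
      phi := ?_ }
  · rw [hsg, hsg, hs]
    exact HK.dn n
  · rw [hsg, hsg]
    have h1 : s (n + 1) ≤ s n ^ a := by
      rw [hs]
      exact HK.up n
    exact h1.trans (pow_le_pow_of_le_one (H.pos n).le (hs1 n) (by omega))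
  · rw [hsg]
    have h1 := H.hi (N + 1)
    have h2 := hlin (N + 1)
    have h3 : (1 / 2 : ℝ) ^ N1 * 2 ^ e (N + 1) ≥ 1 := by
      have h4 : (2 : ℝ) ^ N1 ≤ 2 ^ e (N + 1) := pow_le_pow_right₀ (by norm_num) (by omega)
      have h5 : (1 / 2 : ℝ) ^ N1 * 2 ^ N1 = 1 := by
        rw [← mul_pow]
        norm_num
      have h6 : (0 : ℝ) ≤ (1 / 2) ^ N1 := by positivity
      nlinarith only [hth, hth1, h4, h5, h6]
    have h4 : (0 : ℝ) < 2 ^ e (N + 1) := by positivity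
    have h5 : s (N + 1) * 2 ^ e (N + 1) ≤ (1 / 2 : ℝ) ^ N1 * 2 ^ e (N + 1) := by linarith only [h1, h3]
    exact (le_of_mul_le_mul_right h5 h4).trans hN1.le
  · rw [hsg, rt_of_le hn]
    refine (rp_hi (s (n + 1)) 3 (e (n + 1)) (H.pos _) (H.lo _) (by norm_num)).trans (le_of_eq ?_)
    rw [← Real.rpow_natCast]
    push_cast
    rfl
  · rw [hsg, rt_of_le hn]
    refine le_trans ?_ (rp_lo (s (n + 1)) 4 (e (n + 1)) (H.pos _) (H.hi _) (by norm_num))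
    rw [← Real.rpow_natCast]
    refine Real.rpow_le_rpow_of_exponent_le (by norm_num) ?_
    have h1 : (3 * (e (n + 1) + 1) : ℕ) ≤ 4 * e (n + 1) := by
      have := hlin (n + 1)
      omega
    exact_mod_cast h1
  · rw [hsg, lt_of_le hn]
    refine (rp_hi (s (n + 1)) 5 (e (n + 1)) (H.pos _) (H.lo _) (by norm_num)).trans (le_of_eq ?_)
    rw [← Real.rpow_natCast]
    push_cast
    rfl
  · rw [hsg, lt_of_le hn]
    refine le_trans ?_ (rp_lo (s (n + 1)) 6 (e (n + 1)) (H.pos _) (H.hi _) (by norm_num))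
    rw [← Real.rpow_natCast]
    refine Real.rpow_le_rpow_of_exponent_le (by norm_num) ?_
    have h1 : (5 * (e (n + 1) + 1) : ℕ) ≤ 6 * e (n + 1) := by
      have := hlin (n + 1)
      omega
    exact_mod_cast h1
  · have h1 : lt 5 a m0 e N N + 6 ≤ mt 5 a e N := by
      rw [lt_of_le le_rfl]
      unfold ANP.H61.mt
      have h2 : 2 * (5 * (e (N + 1) + 1)) ≤ a * (5 * (e (N + 1) + 1)) :=
        Nat.mul_le_mul_right _ ha2
      have h3 := hlin (N + 1)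
      omega
    omega
  · rw [rt_of_gt (Nat.lt_succ_self N)]
    omega
  · rw [hsg]
    refine (rp_hi (s (N + 1)) 5 (e (N + 1)) (H.pos _) (H.lo _) (by norm_num)).trans ?_
    rw [hmtN]
    refine Real.rpow_le_rpow_of_exponent_le (by norm_num) ?_
    have h1 : (1 : ℝ) ≤ a := by exact_mod_cast (by omega : 1 ≤ a)
    have h2 : (0 : ℝ) ≤ 5 * ((e (N + 1) : ℝ) + 1) := by positivity
    nlinarith only [h1]
  · rw [hsg]
    refine le_trans ?_ (rp_lo (s (N + 1)) (6 * ((a : ℝ) + 1)) (e (N + 1)) (H.pos _) (H.hi _)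
      (by positivity))
    rw [hmtN]
    refine Real.rpow_le_rpow_of_exponent_le (by norm_num) ?_
    have h1 : (5 : ℝ) ≤ e (N + 1) := by
      have h2 := hlin (N + 1)
      exact_mod_cast (by omega : 5 ≤ e (N + 1))
    have h2 : (0 : ℝ) ≤ a := by positivity
    nlinarith only [hth, hth1, h1]
  · rw [hsg]
    obtain ⟨m, rfl⟩ : ∃ m, n = m + 1 := ⟨n - 1, by omega⟩
    have h1 := clu H (m0 := m0) (C0 := 5) d J N c1 hc1.le haa hvc m hn
    rw [Nat.add_sub_cancel]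
    have h2 : s (m + 2) ^ (-c1) ≤ s (m + 2) ^ (-c₁) := rp_mono _ (H.pos _) (hs1 _) _ _ hc1le
    refine le_trans ?_ (h1.trans h2)
    have h3 : (3 ^ d * J) * (6 * 2 ^ lt 5 a m0 e N m + 1) ^ d ≤
        (3 ^ d * J) ^ 2 * (6 * 2 ^ lt 5 a m0 e N m + 1) ^ d := by
      refine Nat.mul_le_mul_right _ ?_
      have h4 : 1 ≤ 3 ^ d * J := Nat.mul_pos (by positivity) (by omega)
      nlinarith only [hm0, h4]
    exact_mod_cast h3
  · refine scl_scl H d J N _ hC h3a hv5 hvm (by omega) ?_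
    rw [← hm0]
    exact (Nat.lt_two_pow_self).le
  · unfold KN
    rw [if_pos hn, hsg]
  · unfold DN
    rw [if_pos rfl]
  · rw [hsg]
    exact hDl n hn
  · have h1 : n ≠ 0 := by omega
    unfold DN
    rw [if_neg h1]
  · exact_mod_cast hDs
  · have h1 : (0 : ℝ) ≤ ∑ i ∈ range (N + 2), (3 ^ d * (DN d J 5 a m0 (6 / 5) s e N i : ℝ)) :=
      Finset.sum_nonneg fun i _ => by positivity
    linarith only [hth, hth1, hDm, h1]
  · have h1 := hpi2 n
    have h2 := hq1 n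
    linarith only [hth, hth1, h1, h2]
  · refine le_trans (H72.phi_mono ?_ ?_ _ _) hphi
    · intro c
      exact mul_nonneg (hpf0 _) (hnum0 _)
    · intro c
      exact hpi c.1
  · rw [hsg]
    exact qq_fin H (m0 := m0) d N hC hvm hmono J hJ A' hAA
      (fun n => 2 * pf w th kk β N n *
        ((kk (n + 1) : ℝ) - kk n + ((2 ^ lt 5 a m0 e N n : ℕ) : ℝ) ^ d))
      (fun n => mul_nonneg (mul_nonneg (by norm_num) (hpf0 _)) (hnum0 _)) hpi2 A hA5 n hn B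

/-- the same with natural exponents -/
theorem scl2n (d : ℕ) (th : ℝ≥0) (c₁ : ℝ) (hd : 3 ≤ d) (hth : 1 / 2 ≤ th) (hth1 : th < 1)
    (hc₁ : 0 < c₁) :
    ∃ (C₁ : ℝ) (α J : ℕ), 4 * d + 4 ≤ α ∧ ∀ β : ℝ, 0 < β → ∀ A : ℕ,
    ∃ w₁ : ℝ, 0 < w₁ ∧ w₁ ≤ 1 ∧ ∀ (w : ℝ≥0) (t : ℝ) (M₀ : ℕ), 0 < w → (w : ℝ) ≤ w₁ → 0 < t →
      ∃ (N μ : ℕ) (kk l r Kn Dn : ℕ → ℕ), 2 ≤ N ∧ M₀ ≤ 2 ^ μ ∧
        Scal d th c₁ C₁ α J β w t N μ kk l r Kn Dn ∧
        ∀ n ≤ N, ∀ B, ANP.H72.QQ (Gt d μ J N l r).ch J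
          (fun i => 2 * pf w th kk β N i.1 *
            ((kk (i.1 + 1) : ℝ) - kk i.1 + ((2 ^ l i.1 : ℕ) : ℝ) ^ d)) n B ≤
          sg w th kk (n + 1) ^ A := by
  obtain ⟨C₁, α, J, h1, h⟩ := scl2 d th c₁ hd hth hth1 hc₁
  refine ⟨C₁, α, J, h1, fun β hβ A => ?_⟩
  obtain ⟨w₁, h2, h3, h⟩ := h β hβ (A : ℝ)
  refine ⟨w₁, h2, h3, fun w t M₀ hw hw1 ht => ?_⟩
  obtain ⟨N, μ, kk, l, r, Kn, Dn, h4, h5, h6, h7⟩ := h w t M₀ hw hw1 ht
  refine ⟨N, μ, kk, l, r, Kn, Dn, h4, h5, h6, fun n hn B => ?_⟩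
  have h8 := h7 n hn B
  rwa [Real.rpow_natCast] at h8

end Pool.Agent.ACX.H22
end
end -- Pool.Agent.Helper22_ACX.Scl2

section -- Pool.Agent.Helper34_ACX.Num

/-!
# ACX, row P8: the numbers of the scales for the protocol with a functional
-/

set_option autoImplicit false

open Finset

open scoped NNReal BigOperators

noncomputable section

namespace Pool.Agent.ACX.H34

open Pool.Agent.AND2B Pool.Agent.ANP
open Pool.Agent.BED (Tor)

/-! ### geometry -/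

/-- the number of the sites near one bad block -/
theorem card_nbh {X : Type} [Fintype X] [DecidableEq X] {Γ : Geo X} {d : ℕ} (hG : GeoOk Γ d)
    (hS : Scl Γ d) (n : ℕ) (hn : 1 ≤ n) (B : X) :
    (Γ.nbh (Γ.enl (n - 1) {B} 2) (Γ.ρ n)).card ≤ (3 * Γ.ρ n) ^ d := by
  obtain ⟨m, rfl⟩ : ∃ m, n = m + 1 := ⟨n - 1, by omega⟩
  rw [Nat.add_sub_cancel]
  have h1 := hS.rho m
  have h2 := hS.one m
  have h3 : Γ.nbh (Γ.enl m {B} 2) (Γ.ρ (m + 1)) ⊆
      ({y | Γ.D B y ≤ Γ.ρ (m + 1) + 3 * Γ.L m} : Finset X) := by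
    intro x hx
    rw [Geo.nbh, mem_filter] at hx
    obtain ⟨-, y, hy, hxy⟩ := hx
    rw [Geo.enl, mem_filter] at hy
    obtain ⟨-, z, hz, hyz⟩ := hy
    rw [mem_singleton] at hz
    rw [mem_filter]
    refine ⟨mem_univ _, ?_⟩
    have h4 : Γ.bl m z = Γ.bl m B := by
      rw [← hz, hG.idem]
    have h5 := hG.diam m z B h4
    have h6 := hG.tri B z x
    have h7 := hG.tri z y x
    rw [hG.comm B z] at h6
    rw [hG.comm z y, hG.comm y x] at h7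
    omega
  refine (card_le_card h3).trans ((hG.vol _ _).trans ?_)
  exact Nat.pow_le_pow_left (by omega) d

/-- the level above the last one -/
theorem qq_top {X : Type} [Fintype X] [DecidableEq X] (ch : ℕ → X → Finset X) (J : ℕ)
    (x : ℕ × X → ℝ) (h0 : ∀ c, 0 ≤ x c) (n : ℕ) (B : X) (q : ℝ)
    (hx : x (n + 1, B) = 0) (hq : ∀ b, H72.QQ ch J x n b ≤ q) (hq1 : (Fintype.card X : ℝ) * q ≤ 1) :
    H72.QQ ch J x (n + 1) B ≤ (Fintype.card X : ℝ) * q := by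
  rw [H72.qq_succ, hx, zero_add]
  have hqn : 0 ≤ q := (H72.qq_nonneg h0 n B).trans (hq B)
  have h1 : ((ch n B).card : ℝ) ≤ Fintype.card X := by exact_mod_cast card_le_univ _
  calc ∑ S ∈ (ch n B).powersetCard (J + 1), ∏ b ∈ S, H72.QQ ch J x n b ≤
      ∑ S ∈ (ch n B).powersetCard (J + 1), q ^ (J + 1) := by
        refine Finset.sum_le_sum fun S hS => ?_
        rw [← (Finset.mem_powersetCard.1 hS).2, ← Finset.prod_const]
        exact Finset.prod_le_prod (fun b _ => H72.qq_nonneg h0 n b) fun b _ => hq b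
    _ = ((ch n B).card.choose (J + 1) : ℝ) * q ^ (J + 1) := by
        rw [Finset.sum_const, Finset.card_powersetCard, nsmul_eq_mul]
    _ ≤ ((Fintype.card X : ℝ)) ^ (J + 1) * q ^ (J + 1) := by
        gcongr
        have h2 : (ch n B).card.choose (J + 1) ≤ (Fintype.card X) ^ (J + 1) :=
          (Nat.choose_le_pow _ _).trans (Nat.pow_le_pow_left (card_le_univ _) _)
        exact_mod_cast h2
    _ = ((Fintype.card X : ℝ) * q) ^ (J + 1) := by rw [mul_pow]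
    _ ≤ (Fintype.card X : ℝ) * q := by
        rw [pow_succ]
        have h3 : ((Fintype.card X : ℝ) * q) ^ J ≤ 1 := pow_le_one₀ (by positivity) hq1
        have h4 : 0 ≤ (Fintype.card X : ℝ) * q := by positivity
        nlinarith only [h3, h4]

/-! ### the numbers -/

/-- the exponent of the probabilities which is needed -/
def A0 (d : ℕ) (C₁ : ℝ) (α : ℕ) : ℕ :=
  4 * d * (α + 1) + 3 + 2 * (⌈|C₁|⌉₊ * (α + 1) * (α + 1) * d)

/-- the coins -/
def pic (w th : ℝ≥0) (kk : ℕ → ℕ) (β : ℝ) (N : ℕ) (l : ℕ → ℕ) (d n : ℕ) : ℝ :=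
  2 * pf w th kk β N n * ((kk (n + 1) : ℝ) - kk n + ((2 ^ l n : ℕ) : ℝ) ^ d)

/-- the cost of one site -/
def cst (w th : ℝ≥0) (kk : ℕ → ℕ) (d μ : ℕ) (Cc : ℝ) (n : ℕ) : ℝ :=
  Cc / (((2 : ℝ) ^ μ) ^ d * Real.sqrt (sg w th kk n))

/-- the weight of one bad block -/
def wgt (w th : ℝ≥0) (kk : ℕ → ℕ) (d μ : ℕ) (Cc : ℝ) (N : ℕ) (r : ℕ → ℕ) (j : ℕ) : ℝ :=
  if j + 1 < N then ((3 * 2 ^ r (j + 1) : ℕ) : ℝ) ^ d * cst w th kk d μ Cc (j + 1) else 1

section num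

variable {d J : ℕ} {th : ℝ≥0} {c₁ C₁ β : ℝ} {α : ℕ} {w : ℝ≥0} {t : ℝ} {N μ : ℕ}
  {kk l r Kn Dn : ℕ → ℕ} (hS : Scal d th c₁ C₁ α J β w t N μ kk l r Kn Dn)
  (hw : 0 < w) (hth : 0 < th) (hth1 : th < 1)

include hw hth in
theorem cl_pos (k : ℕ) : 0 < cl w th k := by
  unfold cl
  positivity

include hw hth in
theorem s_pos (n : ℕ) : 0 < sg w th kk n := by
  unfold sg
  exact_mod_cast cl_pos hw hth (kk n)

include hth1 in
theorem cl_anti {i j : ℕ} (h : i ≤ j) : cl w th j ≤ cl w th i := by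
  unfold cl
  gcongr w * ?_
  exact pow_le_pow_of_le_one (zero_le) hth1.le h

include hS hth1 in
theorem s_anti {i j : ℕ} (h : i ≤ j) : sg w th kk j ≤ sg w th kk i := by
  unfold sg
  exact_mod_cast cl_anti hth1 ((strictMono_nat_of_lt_succ hS.km).monotone h)

include hS hth1 in
theorem s_le (n : ℕ) : sg w th kk n ≤ w := by
  have h1 := s_anti hS hth1 (Nat.zero_le n)
  have h2 : sg w th kk 0 = w := by
    unfold sg cl
    rw [hS.k0, pow_zero, mul_one]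
  rwa [h2] at h1

variable (hw1 : 2 * 3 ^ d * (w : ℝ) ≤ 1) (hw64 : (w : ℝ) ≤ 1 / 64) (hα : 4 * d + 4 ≤ α)

include hw64 in
theorem w_lt : (w : ℝ) ≤ 1 := hw64.trans (by norm_num)

include hS hth1 hw64 in
theorem s_le1 (n : ℕ) : sg w th kk n ≤ 1 := (s_le hS hth1 n).trans (w_lt hw64)

include hS hw hth hth1 hw64 hα in
theorem s_sq (n : ℕ) (hn : n ≤ N) : sg w th kk (n + 1) ≤ sg w th kk n ^ 2 :=
  (hS.up n hn).trans (pow_le_pow_of_le_one (s_pos hw hth n).le (s_le1 hS hth1 hw64 n) (by omega))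

include hS hw hth hth1 hw64 hα in
theorem s_w (n : ℕ) (hn : n ≤ N + 1) : sg w th kk n ≤ (w : ℝ) ^ (n + 1) := by
  induction n with
  | zero => simpa using s_le hS hth1 0
  | succ n ih =>
    have h1 := ih (by omega)
    have h2 := s_sq hS hw hth hth1 hw64 hα n (by omega)
    have h3 := s_pos (kk := kk) hw hth n
    have h4 := s_le hS hth1 n
    calc sg w th kk (n + 1) ≤ sg w th kk n ^ 2 := h2
      _ = sg w th kk n * sg w th kk n := sq _
      _ ≤ (w : ℝ) ^ (n + 1) * w := mul_le_mul h1 h4 h3.le (by positivity)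
      _ = (w : ℝ) ^ (n + 1 + 1) := (pow_succ _ _).symm

include hS hw hth hth1 hw64 hα in
/-- the last clock is small -/
theorem f_le (n : ℕ) (hn : n ≤ N) : sg w th kk (N + 1) ≤ sg w th kk n / 4 := by
  have h1 := s_anti hS hth1 (show n + 1 ≤ N + 1 by omega)
  have h2 := s_sq hS hw hth hth1 hw64 hα n hn
  have h3 := s_pos (kk := kk) hw hth n
  have h4 := (s_le hS hth1 n).trans hw64
  nlinarith only [hw, hw64, h1, h2, h3, h4]

include hS hw hth hth1 hw1 hw64 hα in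
/-- dens -/
theorem dens (hc₁ : c₁ ≤ 1) (n : ℕ) (hn1 : 1 ≤ n) (hn : n < N) :
    2 * sg w th kk (N + 1) * ((3 ^ d * J * (6 * 2 ^ l (n - 1) + 1) ^ d : ℝ) *
      (2 * 2 ^ r n + 1) ^ d) ≤ sg w th kk (n + 1) := by
  set x := sg w th kk (n + 1) with hx
  have hx0 : 0 < x := s_pos hw hth (n + 1)
  have hx1 : x ≤ 1 := s_le1 hS hth1 hw64 (n + 1)
  have hxw : x ≤ w := s_le hS hth1 (n + 1)
  have hf : sg w th kk (N + 1) ≤ x ^ (α - 1) :=
    (s_anti hS hth1 (show n + 1 + 1 ≤ N + 1 by omega)).trans (hS.up (n + 1) (by omega))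
  have h1 : (3 ^ d * J * (6 * 2 ^ l (n - 1) + 1) ^ d : ℝ) ≤ x⁻¹ := by
    refine (hS.clu n hn1 (by omega)).trans ?_
    rw [← Real.rpow_neg_one]
    exact Real.rpow_le_rpow_of_exponent_ge hx0 hx1 (by linarith only [hc₁])
  have h2 : (2 ^ r n : ℝ) ≤ (x ^ 4)⁻¹ := by
    refine (hS.rup n (by omega)).trans (le_of_eq ?_)
    rw [Real.rpow_neg hx0.le]
    norm_cast
  have h3 : (1 : ℝ) ≤ 2 ^ r n := one_le_pow₀ (by norm_num)
  have h4 : (2 * 2 ^ r n + 1 : ℝ) ^ d ≤ (3 * (x ^ 4)⁻¹) ^ d :=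
    pow_le_pow_left₀ (by positivity) (by linarith only [h2, h3]) d
  have h5 : x ^ (α - 1) ≤ x ^ (4 * d + 3) :=
    pow_le_pow_of_le_one hx0.le hx1 (by omega)
  have h6 : 0 ≤ sg w th kk (N + 1) := (s_pos hw hth _).le
  calc 2 * sg w th kk (N + 1) * ((3 ^ d * J * (6 * 2 ^ l (n - 1) + 1) ^ d : ℝ) *
      (2 * 2 ^ r n + 1) ^ d) ≤ 2 * x ^ (4 * d + 3) * (x⁻¹ * (3 * (x ^ 4)⁻¹) ^ d) := by
        have h7 := hf.trans h5
        gcongr
    _ = 2 * 3 ^ d * x * x := by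
        rw [mul_pow, inv_pow, ← pow_mul]
        have : x ^ (4 * d + 3) = x ^ (4 * d) * x ^ 3 := pow_add _ _ _
        rw [this]
        field_simp
    _ ≤ 1 * x := by
        have h8 : 2 * 3 ^ d * x ≤ 2 * 3 ^ d * (w : ℝ) := by gcongr
        have h9 := h8.trans hw1
        exact mul_le_mul_of_nonneg_right h9 hx0.le
    _ = x := one_mul x

include hS hw hth hth1 hw64 in
/-- the number of the sites of the torus -/
theorem card_s : ((2 : ℝ) ^ μ) ^ d * sg w th kk (N + 1) ^ (⌈|C₁|⌉₊ * (α + 1) * d) ≤ 1 := by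
  set x := sg w th kk (N + 1) with hx
  have hx0 : 0 < x := s_pos hw hth (N + 1)
  have hx1 : x ≤ 1 := s_le1 hS hth1 hw64 (N + 1)
  have h1 : (2 : ℝ) ^ μ ≤ (x ^ (⌈|C₁|⌉₊ * (α + 1)))⁻¹ := by
    refine hS.mU.trans ?_
    rw [← Real.rpow_natCast, ← Real.rpow_neg hx0.le]
    refine Real.rpow_le_rpow_of_exponent_ge hx0 hx1 ?_
    push_cast
    have h2 : C₁ ≤ ⌈|C₁|⌉₊ := (le_abs_self _).trans (Nat.le_ceil _)
    have h3 : (0 : ℝ) ≤ (α : ℝ) + 1 := by positivity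
    nlinarith only [h2]
  rw [pow_mul, ← mul_pow]
  refine pow_le_one₀ (by positivity) ?_
  calc (2 : ℝ) ^ μ * x ^ (⌈|C₁|⌉₊ * (α + 1)) ≤
      (x ^ (⌈|C₁|⌉₊ * (α + 1)))⁻¹ * x ^ (⌈|C₁|⌉₊ * (α + 1)) := by gcongr
    _ = 1 := inv_mul_cancel₀ (by positivity)

theorem pic_nonneg (hkm : ∀ n, kk n < kk (n + 1)) (n : ℕ) : 0 ≤ pic w th kk β N l d n := by
  unfold pic
  have h1 : (kk n : ℝ) ≤ kk (n + 1) := by exact_mod_cast (hkm n).le
  have h2 : 0 ≤ pf w th kk β N n := by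
    unfold pf
    split_ifs <;> positivity
  have h3 : (0 : ℝ) ≤ ((2 ^ l n : ℕ) : ℝ) ^ d := by positivity
  have h4 : (0 : ℝ) ≤ (kk (n + 1) : ℝ) - kk n + ((2 ^ l n : ℕ) : ℝ) ^ d := by linarith
  positivity

theorem pic_zero (n : ℕ) (h : N < n) : pic w th kk β N l d n = 0 := by
  unfold pic pf
  rw [if_neg (by omega)]
  ring

/-- the coins are at most one -/
theorem pic_le (hS : Scal d th c₁ C₁ α J β w t N μ kk l r Kn Dn)
    (hw : 0 < w) (hth : 0 < th) (hth1 : th < 1) (hw64 : (w : ℝ) ≤ 1 / 64) (A : ℕ)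
    (hq : ∀ n ≤ N, ∀ B, H72.QQ (Gt d μ J N l r).ch J
      (fun i => pic w th kk β N l d i.1) n B ≤ sg w th kk (n + 1) ^ A) (n : ℕ) :
    pic w th kk β N l d n ≤ 1 := by
  rcases Nat.lt_or_ge N n with h | h
  · rw [pic_zero n h]
    exact zero_le_one
  · have h1 := hq n h 0
    have h2 : pic w th kk β N l d n ≤ H72.QQ (Gt d μ J N l r).ch J
        (fun i => pic w th kk β N l d i.1) n 0 := by
      cases n with
      | zero => exact le_rfl
      | succ n =>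
        rw [H72.qq_succ]
        have h3 : 0 ≤ ∑ S ∈ ((Gt d μ J N l r).ch n 0).powersetCard (J + 1), ∏ b ∈ S,
            H72.QQ (Gt d μ J N l r).ch J (fun i => pic w th kk β N l d i.1) n b :=
          Finset.sum_nonneg fun S _ => Finset.prod_nonneg fun b _ =>
            H72.qq_nonneg (fun c => pic_nonneg hS.km c.1) n b
        linarith only [h3]
    exact h2.trans (h1.trans (pow_le_one₀ (s_pos hw hth _).le (s_le1 hS hth1 hw64 _)))

theorem cst_nonneg (Cc : ℝ) (hCc : 0 ≤ Cc) (n : ℕ) : 0 ≤ cst w th kk d μ Cc n := by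
  unfold cst
  positivity

theorem wgt_nonneg (Cc : ℝ) (hCc : 0 ≤ Cc) (n : ℕ) : 0 ≤ wgt w th kk d μ Cc N r n := by
  unfold wgt
  split_ifs
  · have := cst_nonneg (w := w) (th := th) (kk := kk) (d := d) (μ := μ) Cc hCc (n + 1)
    positivity
  · exact zero_le_one

include hS in
/-- wgt -/
theorem wgt_ok (Cc : ℝ) (hCc : 0 ≤ Cc) (n : ℕ) (hn1 : 1 ≤ n) (hn : n < N)
    (B : Fin d → ZMod (2 ^ μ)) :
    ((((Gt d μ J N l r).nbh ((Gt d μ J N l r).enl (n - 1) {B} 2) ((Gt d μ J N l r).ρ n)).card : ℕ) : ℝ)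
      * cst w th kk d μ Cc n ≤ wgt w th kk d μ Cc N r (n - 1) := by
  have h1 := card_nbh (ANP.H61.trg d μ l _ hS.lm J N) hS.scl n hn1 B
  unfold wgt
  rw [if_pos (by omega), show n - 1 + 1 = n by omega]
  refine mul_le_mul_of_nonneg_right ?_ (cst_nonneg Cc hCc n)
  exact_mod_cast h1

/-- one level of the sum -/
def trm (w th : ℝ≥0) (kk : ℕ → ℕ) (β : ℝ) (d μ J N : ℕ) (l r : ℕ → ℕ) (Cc : ℝ) (j : ℕ) : ℝ :=
  wgt w th kk d μ Cc N r j *
    ∑ B ∈ ({B | (Gt d μ J N l r).bl j B = B} : Finset (Fin d → ZMod (2 ^ μ))),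
      H72.QQ (Gt d μ J N l r).ch J (fun i => pic w th kk β N l d i.1) j B

theorem card_tor : (Fintype.card (Fin d → ZMod (2 ^ μ)) : ℝ) = ((2 : ℝ) ^ μ) ^ d := by
  rw [Fintype.card_fun, ZMod.card, Fintype.card_fin]
  push_cast
  rfl

theorem trm_le (Cc : ℝ) (hCc : 0 ≤ Cc) (j : ℕ) (q : ℝ) (hq0 : 0 ≤ q)
    (hq : ∀ B, H72.QQ (Gt d μ J N l r).ch J (fun i => pic w th kk β N l d i.1) j B ≤ q) :
    trm w th kk β d μ J N l r Cc j ≤ wgt w th kk d μ Cc N r j * (((2 : ℝ) ^ μ) ^ d * q) := by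
  unfold trm
  refine mul_le_mul_of_nonneg_left ?_ (wgt_nonneg Cc hCc j)
  refine (Finset.sum_le_card_nsmul _ _ q fun B _ => hq B).trans ?_
  rw [nsmul_eq_mul]
  refine mul_le_mul_of_nonneg_right ?_ hq0
  rw [← card_tor]
  exact_mod_cast card_le_univ _

include hS hw hth hth1 hw64 hα in
theorem trm_lo (Cc : ℝ) (hCc : 0 ≤ Cc) (A : ℕ) (hA : A0 d C₁ α ≤ A) (j : ℕ) (hj : j + 1 < N)
    (hq : ∀ B, H72.QQ (Gt d μ J N l r).ch J
      (fun i => pic w th kk β N l d i.1) j B ≤ sg w th kk (j + 1) ^ A) :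
    trm w th kk β d μ J N l r Cc j ≤ 3 ^ d * Cc * w * (1 / 2) ^ (j + 2) := by
  have hx0 : 0 < sg w th kk (j + 1) := s_pos hw hth (j + 1)
  have hx1 : sg w th kk (j + 1) ≤ 1 := s_le1 hS hth1 hw64 (j + 1)
  have hxw : sg w th kk (j + 1) ≤ w := s_le hS hth1 (j + 1)
  have hxw2 := s_w hS hw hth hth1 hw64 hα (j + 1) (by omega)
  refine (trm_le Cc hCc j _ (by positivity) hq).trans ?_
  unfold wgt cst
  rw [if_pos hj]
  set x := sg w th kk (j + 1) with hx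
  -- the radius
  have h1 : (2 ^ r (j + 1) : ℝ) * x ^ (4 * (α + 1)) ≤ 1 := by
    have h2 := hS.rup (j + 1) (by omega)
    have h3 := hS.low (j + 1) (by omega)
    have hy0 : 0 < sg w th kk (j + 1 + 1) := s_pos hw hth _
    have h4 : sg w th kk (j + 1 + 1) ^ (-(4 : ℝ)) = (sg w th kk (j + 1 + 1) ^ 4)⁻¹ := by
      rw [Real.rpow_neg hy0.le]
      norm_cast
    rw [h4] at h2
    calc (2 ^ r (j + 1) : ℝ) * x ^ (4 * (α + 1)) ≤
        (sg w th kk (j + 1 + 1) ^ 4)⁻¹ * x ^ (4 * (α + 1)) := by gcongr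
      _ = (sg w th kk (j + 1 + 1) ^ 4)⁻¹ * (x ^ (α + 1)) ^ 4 := by
          rw [← pow_mul, mul_comm 4]
      _ ≤ (sg w th kk (j + 1 + 1) ^ 4)⁻¹ * (sg w th kk (j + 1 + 1)) ^ 4 := by gcongr
      _ = 1 := inv_mul_cancel₀ (by positivity)
  have h1d : ((2 ^ r (j + 1) : ℝ)) ^ d * x ^ (4 * d * (α + 1)) ≤ 1 := by
    have h5 : x ^ (4 * d * (α + 1)) = (x ^ (4 * (α + 1))) ^ d := by
      rw [← pow_mul]
      congr 1
      ring
    rw [h5, ← mul_pow]
    exact pow_le_one₀ (by positivity) h1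
  have hsq : x ≤ Real.sqrt x := by
    refine Real.le_sqrt_of_sq_le ?_
    nlinarith only [hx0, hx1]
  have hM : (0 : ℝ) < ((2 : ℝ) ^ μ) ^ d := by positivity
  have hsx : 0 < Real.sqrt x := Real.sqrt_pos.2 hx0
  have hA1 : x ^ A ≤ x ^ (4 * d * (α + 1)) * x ^ 3 := by
    rw [← pow_add]
    refine pow_le_pow_of_le_one hx0.le hx1 ?_
    unfold A0 at hA
    omega
  calc ((3 * 2 ^ r (j + 1) : ℕ) : ℝ) ^ d * (Cc / (((2 : ℝ) ^ μ) ^ d * Real.sqrt x)) *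
        (((2 : ℝ) ^ μ) ^ d * x ^ A)
      = 3 ^ d * Cc * (2 ^ r (j + 1) : ℝ) ^ d * x ^ A / Real.sqrt x := by
        push_cast
        rw [mul_pow]
        field_simp
    _ ≤ 3 ^ d * Cc * (2 ^ r (j + 1) : ℝ) ^ d * (x ^ (4 * d * (α + 1)) * x ^ 3) / x := by
        gcongr
    _ = 3 ^ d * Cc * ((2 ^ r (j + 1) : ℝ) ^ d * x ^ (4 * d * (α + 1))) * (x * x) := by
        field_simp
    _ ≤ 3 ^ d * Cc * 1 * (w * (1 / 2) ^ (j + 2)) := by
        have h6 : x * x ≤ w * (1 / 2) ^ (j + 2) := by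
          refine mul_le_mul hxw (hxw2.trans ?_) hx0.le (by positivity)
          exact pow_le_pow_left₀ (by positivity) (hw64.trans (by norm_num)) _
        gcongr
    _ = 3 ^ d * Cc * w * (1 / 2) ^ (j + 2) := by ring

include hS hw hth hth1 hw64 in
theorem trm_hi (Cc : ℝ) (hCc : 0 ≤ Cc) (A : ℕ) (hA : A0 d C₁ α ≤ A) (j : ℕ) (hj : N ≤ j + 1)
    (hj2 : j < N + 2)
    (hq : ∀ n ≤ N, ∀ B, H72.QQ (Gt d μ J N l r).ch J
      (fun i => pic w th kk β N l d i.1) n B ≤ sg w th kk (n + 1) ^ A) :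
    trm w th kk β d μ J N l r Cc j ≤ 1 / 64 := by
  have hcard := card_s hS hw hth hth1 hw64
  obtain ⟨m, hm⟩ : ∃ m, m = ⌈|C₁|⌉₊ * (α + 1) * d := ⟨_, rfl⟩
  rw [← hm] at hcard
  have hmA : (α + 1) * m + 1 ≤ A ∧ 2 * m + 1 ≤ A := by
    have h1 : ⌈|C₁|⌉₊ * (α + 1) * (α + 1) * d = (α + 1) * m := by
      rw [hm]
      ring
    have h2 : m ≤ (α + 1) * m := Nat.le_mul_of_pos_left _ (by omega)
    unfold A0 at hA
    rw [h1] at hA
    have h3 : 0 ≤ 4 * d * (α + 1) := Nat.zero_le _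
    constructor
    · omega
    · omega
  have hz0 : 0 < sg w th kk (N + 1) := s_pos hw hth (N + 1)
  have hz1 : sg w th kk (N + 1) ≤ 1 := s_le1 hS hth1 hw64 (N + 1)
  have hzw : sg w th kk (N + 1) ≤ w := s_le hS hth1 (N + 1)
  have hM : (0 : ℝ) < ((2 : ℝ) ^ μ) ^ d := by positivity
  have hwt : wgt w th kk d μ Cc N r j = 1 := by
    unfold wgt
    rw [if_neg (by omega)]
  rcases (show j + 1 = N ∨ j = N ∨ j = N + 1 by omega) with h | h | h
  · -- level `N - 1`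
    have hy0 : 0 < sg w th kk N := s_pos hw hth N
    have hy1 : sg w th kk N ≤ 1 := s_le1 hS hth1 hw64 N
    have hyw : sg w th kk N ≤ w := s_le hS hth1 N
    have h1 := hq j (by omega)
    rw [h] at h1
    refine (trm_le Cc hCc j _ (by positivity) h1).trans ?_
    rw [hwt, one_mul]
    have h2 := hS.low N le_rfl
    calc ((2 : ℝ) ^ μ) ^ d * sg w th kk N ^ A ≤
        ((2 : ℝ) ^ μ) ^ d * sg w th kk N ^ ((α + 1) * m + 1) := by
          refine mul_le_mul_of_nonneg_left ?_ hM.le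
          exact pow_le_pow_of_le_one hy0.le hy1 hmA.1
      _ = ((2 : ℝ) ^ μ) ^ d * (sg w th kk N ^ (α + 1)) ^ m * sg w th kk N := by
          rw [pow_succ, pow_mul]
          ring
      _ ≤ ((2 : ℝ) ^ μ) ^ d * (sg w th kk (N + 1)) ^ m * sg w th kk N := by gcongr
      _ ≤ 1 * sg w th kk N := by gcongr
      _ ≤ 1 / 64 := by linarith only [hw64, hyw]
  · subst h
    refine (trm_le Cc hCc j _ (by positivity) (hq j le_rfl)).trans ?_
    rw [hwt, one_mul]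
    calc ((2 : ℝ) ^ μ) ^ d * sg w th kk (j + 1) ^ A ≤
        ((2 : ℝ) ^ μ) ^ d * sg w th kk (j + 1) ^ (m + 1) := by
          refine mul_le_mul_of_nonneg_left ?_ hM.le
          exact pow_le_pow_of_le_one hz0.le hz1 (by omega)
      _ = ((2 : ℝ) ^ μ) ^ d * sg w th kk (j + 1) ^ m * sg w th kk (j + 1) := by
          rw [pow_succ]
          ring
      _ ≤ 1 * sg w th kk (j + 1) := by gcongr
      _ ≤ 1 / 64 := by linarith only [hw64, hzw]
  · subst h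
    have hMs : ((2 : ℝ) ^ μ) ^ d * sg w th kk (N + 1) ^ A ≤ sg w th kk (N + 1) ^ (m + 1) := by
      calc ((2 : ℝ) ^ μ) ^ d * sg w th kk (N + 1) ^ A ≤
          ((2 : ℝ) ^ μ) ^ d * sg w th kk (N + 1) ^ (m + (m + 1)) := by
            refine mul_le_mul_of_nonneg_left ?_ hM.le
            exact pow_le_pow_of_le_one hz0.le hz1 (by omega)
        _ = ((2 : ℝ) ^ μ) ^ d * sg w th kk (N + 1) ^ m * sg w th kk (N + 1) ^ (m + 1) := by
            rw [pow_add]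
            ring
        _ ≤ 1 * sg w th kk (N + 1) ^ (m + 1) := by gcongr
        _ = sg w th kk (N + 1) ^ (m + 1) := one_mul _
    have hqt : ∀ B, H72.QQ (Gt d μ J N l r).ch J (fun i => pic w th kk β N l d i.1) (N + 1) B ≤
        sg w th kk (N + 1) ^ (m + 1) := by
      intro B
      have h3 := qq_top (Gt d μ J N l r).ch J (fun i => pic w th kk β N l d i.1)
        (fun c => pic_nonneg hS.km c.1) N B (sg w th kk (N + 1) ^ A)
        (pic_zero (N + 1) (Nat.lt_succ_self N)) (hq N le_rfl)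
        (by
          rw [card_tor]
          exact hMs.trans (pow_le_one₀ hz0.le hz1))
      rw [card_tor] at h3
      exact h3.trans hMs
    refine (trm_le Cc hCc (N + 1) _ (by positivity) hqt).trans ?_
    rw [hwt, one_mul]
    calc ((2 : ℝ) ^ μ) ^ d * sg w th kk (N + 1) ^ (m + 1) =
        ((2 : ℝ) ^ μ) ^ d * sg w th kk (N + 1) ^ m * sg w th kk (N + 1) := by
          rw [pow_succ]
          ring
      _ ≤ 1 * sg w th kk (N + 1) := by gcongr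
      _ ≤ 1 / 64 := by linarith only [hw64, hzw]

include hS hw hth hth1 hw64 hα in
/-- THE SUM -/
theorem sum_le (Cc : ℝ) (hCc : 0 ≤ Cc) (hCw : 3 ^ d * Cc * (w : ℝ) ≤ 1 / 32) (A : ℕ)
    (hA : A0 d C₁ α ≤ A)
    (hq : ∀ n ≤ N, ∀ B, H72.QQ (Gt d μ J N l r).ch J
      (fun i => pic w th kk β N l d i.1) n B ≤ sg w th kk (n + 1) ^ A) :
    ∑ j ∈ range (N + 2), wgt w th kk d μ Cc N r j *
      ∑ B ∈ ({B | (Gt d μ J N l r).bl j B = B} : Finset (Fin d → ZMod (2 ^ μ))),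
        H72.QQ (Gt d μ J N l r).ch J (fun i => pic w th kk β N l d i.1) j B ≤ 1 / 16 := by
  have h1 : ∀ j ∈ range (N + 2), trm w th kk β d μ J N l r Cc j ≤
      3 ^ d * Cc * w * (1 / 2) ^ (j + 2) + (if N ≤ j + 1 then 1 / 64 else 0) := by
    intro j hj
    rw [mem_range] at hj
    by_cases h : N ≤ j + 1
    · rw [if_pos h]
      have h2 := trm_hi hS hw hth hth1 hw64 Cc hCc A hA j h hj hq
      have h3 : 0 ≤ 3 ^ d * Cc * (w : ℝ) * (1 / 2) ^ (j + 2) := by positivity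
      linarith only [h2, h3]
    · rw [if_neg h, add_zero]
      exact trm_lo hS hw hth hth1 hw64 hα Cc hCc A hA j (by omega) (hq j (by omega))
  refine (Finset.sum_le_sum h1).trans ?_
  rw [Finset.sum_add_distrib, ← Finset.mul_sum]
  have h2 : ∑ j ∈ range (N + 2), ((1 : ℝ) / 2) ^ (j + 2) ≤ 1 / 2 := by
    have h3 : ∀ n : ℕ, ∑ j ∈ range n, ((1 : ℝ) / 2) ^ (j + 2) = 1 / 2 - (1 / 2) ^ (n + 1) := by
      intro n
      induction n with
      | zero => norm_num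
      | succ n ih =>
        rw [Finset.sum_range_succ, ih]
        ring
    rw [h3]
    have : (0 : ℝ) < (1 / 2) ^ (N + 2 + 1) := by positivity
    linarith only [this]
  have h4 : ∑ j ∈ range (N + 2), (if N ≤ j + 1 then (1 : ℝ) / 64 else 0) ≤ 3 / 64 := by
    rw [← Finset.sum_filter, Finset.sum_const, nsmul_eq_mul]
    have h5 : ((range (N + 2)).filter (fun j => N ≤ j + 1)).card ≤ 3 := by
      have h6 : (range (N + 2)).filter (fun j => N ≤ j + 1) ⊆ {N - 1, N, N + 1} := by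
        intro j hj
        rw [mem_filter, mem_range] at hj
        simp only [mem_insert, mem_singleton]
        omega
      exact (card_le_card h6).trans (Finset.card_le_three)
    have h7 : (((range (N + 2)).filter (fun j => N ≤ j + 1)).card : ℝ) ≤ 3 := by exact_mod_cast h5
    linarith only [h7]
  have h8 : 3 ^ d * Cc * (w : ℝ) * ∑ j ∈ range (N + 2), ((1 : ℝ) / 2) ^ (j + 2) ≤
      1 / 32 * (1 / 2) := by
    refine mul_le_mul hCw h2 (by positivity) (by norm_num)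
  linarith only [h4, h8]

end num

end Pool.Agent.ACX.H34
end
end -- Pool.Agent.Helper34_ACX.Num

section -- Pool.Agent.Helper34_ACX.P8

/-!
# ACX, row P8: all numeric hypotheses of the protocol
-/

set_option autoImplicit false

open Finset

open scoped NNReal BigOperators

noncomputable section

namespace Pool.Agent.ACX.H34

open Pool.Agent.AND2B Pool.Agent.ANP

/-- the numeric hypotheses of `ACX.Prt2Stmt` for `Gt d μ J N l r` -/
structure Num8 (d : ℕ) (th : ℝ≥0) (J : ℕ) (β : ℝ) (w : ℝ≥0) (N μ : ℕ) (kk l r : ℕ → ℕ)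
    (ca cb : ℝ) (π c W : ℕ → ℝ) : Prop where
  coin : ∀ n, 2 * pf w th kk β N n *
    ((kk (n + 1) : ℝ) - kk n + ((Gt d μ J N l r).L n : ℝ) ^ d) ≤ π n
  coin1 : ∀ n, π n ≤ 1
  dens : ∀ n, 1 ≤ n → n < (Gt d μ J N l r).N →
    2 * (cl w th (kk ((Gt d μ J N l r).N + 1)) : ℝ) *
      (3 ^ d * (Gt d μ J N l r).J * (6 * (Gt d μ J N l r).L (n - 1) + 1) ^ d *
        (2 * (Gt d μ J N l r).ρ n + 1) ^ d) ≤ cl w th (kk (n + 1))
  c0 : ∀ n, 0 ≤ c n
  cost : ∀ n, 1 ≤ n → n < N → ∀ rx : ℝ≥0,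
    th * cl w th (kk n) ≤ rx + cl w th (kk (N + 1)) →
      0 < rx ∧ (ca + cb / Real.sqrt rx) / ((2 : ℝ) ^ μ) ^ d ≤ c n
  W0 : ∀ n, 0 ≤ W n
  wgt : ∀ n, 1 ≤ n → n < (Gt d μ J N l r).N → ∀ B,
    (((Gt d μ J N l r).nbh ((Gt d μ J N l r).enl (n - 1) {B} 2) ((Gt d μ J N l r).ρ n)).card : ℝ) *
      c n ≤ W (n - 1)
  W1 : 1 ≤ W ((Gt d μ J N l r).N - 1)
  W2 : 1 ≤ W (Gt d μ J N l r).N
  W3 : 1 ≤ W ((Gt d μ J N l r).N + 1)
  sum : ∑ j ∈ Finset.range ((Gt d μ J N l r).N + 2), W j *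
    ∑ B ∈ ({B | (Gt d μ J N l r).bl j B = B} : Finset (Fin d → ZMod (2 ^ μ))),
      H72.QQ (Gt d μ J N l r).ch (Gt d μ J N l r).J (fun i => π i.1) j B ≤ 1 / 16
  f4 : ∀ n ≤ N, (cl w th (kk (N + 1)) : ℝ) ≤ cl w th (kk n) / 4

/-- P8 from the scales -/
theorem num8 {d J : ℕ} {th : ℝ≥0} {c₁ C₁ β : ℝ} {α : ℕ} {w : ℝ≥0} {t : ℝ} {N μ : ℕ}
    {kk l r Kn Dn : ℕ → ℕ} (hS : Scal d th c₁ C₁ α J β w t N μ kk l r Kn Dn)
    (hw : 0 < w) (hth : 1 / 2 ≤ th) (hth1 : th < 1) (hN : 1 ≤ N) (hc₁ : c₁ ≤ 1)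
    (hα : 4 * d + 4 ≤ α) (ca cb : ℝ) (hca : 0 ≤ ca) (hcb : 0 ≤ cb)
    (hw1 : 2 * 3 ^ d * (w : ℝ) ≤ 1) (hw64 : (w : ℝ) ≤ 1 / 64)
    (hCw : 3 ^ d * (ca + 2 * cb) * (w : ℝ) ≤ 1 / 32)
    (hq : ∀ n ≤ N, ∀ B, H72.QQ (Gt d μ J N l r).ch J
      (fun i => 2 * pf w th kk β N i.1 *
        ((kk (i.1 + 1) : ℝ) - kk i.1 + ((2 ^ l i.1 : ℕ) : ℝ) ^ d)) n B ≤
          sg w th kk (n + 1) ^ ((A0 d C₁ α : ℕ) : ℝ)) :
    Num8 d th J β w N μ kk l r ca cb (pic w th kk β N l d) (cst w th kk d μ (ca + 2 * cb))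
      (H34.wgt w th kk d μ (ca + 2 * cb) N r) := by
  have hth0 : 0 < th := lt_of_lt_of_le (by norm_num) hth
  have hC : 0 ≤ ca + 2 * cb := by linarith only [hca, hcb]
  have hq' : ∀ n ≤ N, ∀ B, H72.QQ (Gt d μ J N l r).ch J
      (fun i => pic w th kk β N l d i.1) n B ≤ sg w th kk (n + 1) ^ (A0 d C₁ α) := by
    intro n hn B
    have h := hq n hn B
    rw [Real.rpow_natCast] at h
    exact h
  have hdens := dens (β := β) hS hw hth0 hth1 hw1 hw64 hα hc₁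
  have hf4 : ∀ n ≤ N, (cl w th (kk (N + 1)) : ℝ) ≤ cl w th (kk n) / 4 := fun n hn =>
    f_le hS hw hth0 hth1 hw64 hα n hn
  refine
    { coin := fun n => le_rfl
      coin1 := pic_le hS hw hth0 hth1 hw64 _ hq'
      dens := fun n hn1 hn => ?_
      c0 := cst_nonneg _ hC
      cost := fun n hn1 hn rx hrx => ?_
      W0 := wgt_nonneg _ hC
      wgt := fun n hn1 hn B => wgt_ok hS _ hC n hn1 hn B
      W1 := ?_
      W2 := ?_
      W3 := ?_
      sum := sum_le hS hw hth0 hth1 hw64 hα _ hC hCw _ le_rfl hq'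
      f4 := hf4 }
  · refine le_trans (le_of_eq ?_) (hdens n hn1 hn)
    unfold sg
    show 2 * (cl w th (kk (N + 1)) : ℝ) * (3 ^ d * (J : ℝ) * (6 * ((2 ^ l (n - 1) : ℕ) : ℝ) + 1) ^ d *
      (2 * ((2 ^ r n : ℕ) : ℝ) + 1) ^ d) = _
    push_cast
    ring
  · have h1 : (th : ℝ) * cl w th (kk n) ≤ rx + cl w th (kk (N + 1)) := by exact_mod_cast hrx
    have h2 := hf4 n (by omega)
    have h3 : (1 / 2 : ℝ) ≤ th := by exact_mod_cast hth
    have hs0 : (0 : ℝ) < cl w th (kk n) := s_pos hw hth0 n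
    have hs1 : (cl w th (kk n) : ℝ) ≤ 1 := s_le1 hS hth1 hw64 n
    have h4 : (cl w th (kk n) : ℝ) / 4 ≤ rx := by nlinarith only [hth, hrx, h2]
    have h5 : (0 : ℝ) < rx := by linarith only [hs0, h4]
    refine ⟨by exact_mod_cast h5, ?_⟩
    have h6 : Real.sqrt (cl w th (kk n)) / 2 ≤ Real.sqrt rx := by
      have h7 : Real.sqrt (cl w th (kk n)) / 2 = Real.sqrt ((cl w th (kk n) : ℝ) / 4) := by
        rw [Real.sqrt_div hs0.le, show (4 : ℝ) = 2 ^ 2 by norm_num, Real.sqrt_sq (by norm_num)]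
      rw [h7]
      exact Real.sqrt_le_sqrt h4
    have h8 : 0 < Real.sqrt (cl w th (kk n)) := Real.sqrt_pos.2 hs0
    have h9 : Real.sqrt (cl w th (kk n)) ≤ 1 := Real.sqrt_le_one.2 hs1
    have h10 : cb / Real.sqrt rx ≤ 2 * cb / Real.sqrt (cl w th (kk n)) := by
      rw [div_le_div_iff₀ (Real.sqrt_pos.2 h5) h8]
      nlinarith only [hth, hth1, hcb, h6]
    have h11 : ca ≤ ca / Real.sqrt (cl w th (kk n)) := by
      rw [le_div_iff₀ h8]
      nlinarith only [hth, hth1, hca, h9]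
    have hM : (0 : ℝ) < ((2 : ℝ) ^ μ) ^ d := by positivity
    unfold cst sg
    calc (ca + cb / Real.sqrt rx) / ((2 : ℝ) ^ μ) ^ d ≤
        (ca / Real.sqrt (cl w th (kk n)) + 2 * cb / Real.sqrt (cl w th (kk n))) /
          ((2 : ℝ) ^ μ) ^ d := by gcongr
      _ = (ca + 2 * cb) / (((2 : ℝ) ^ μ) ^ d * Real.sqrt (cl w th (kk n))) := by
          field_simp
  · show 1 ≤ H34.wgt w th kk d μ (ca + 2 * cb) N r (N - 1)
    unfold H34.wgt
    rw [if_neg (by omega)]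
  · show 1 ≤ H34.wgt w th kk d μ (ca + 2 * cb) N r N
    unfold H34.wgt
    rw [if_neg (by omega)]
  · show 1 ≤ H34.wgt w th kk d μ (ca + 2 * cb) N r (N + 1)
    unfold H34.wgt
    rw [if_neg (by omega)]

/-- P8: THE SCALES WITH THE NUMBERS OF THE PROTOCOL -/
theorem p8 (d : ℕ) (th : ℝ≥0) (c₁ : ℝ) (hd : 3 ≤ d) (hth : 1 / 2 ≤ th) (hth1 : th < 1)
    (hc₁ : 0 < c₁) (hc₁1 : c₁ ≤ 1) :
    ∃ (C₁ : ℝ) (α J : ℕ), 5 ≤ α ∧ ∀ β : ℝ, 0 < β → ∀ ca cb : ℝ, 0 ≤ ca → 0 ≤ cb →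
    ∃ w₁ : ℝ, 0 < w₁ ∧ w₁ ≤ 1 ∧ ∀ (w : ℝ≥0) (t : ℝ) (M₀ : ℕ), 0 < w → (w : ℝ) ≤ w₁ → 0 < t →
      ∃ (N μ : ℕ) (kk l r Kn Dn : ℕ → ℕ), 2 ≤ N ∧ M₀ ≤ 2 ^ μ ∧
        Scal d th c₁ C₁ α J β w t N μ kk l r Kn Dn ∧
        ∃ π c W : ℕ → ℝ, Num8 d th J β w N μ kk l r ca cb π c W := by
  obtain ⟨C₁, α, J, hα, h⟩ := H22.scl2 d th c₁ hd hth hth1 hc₁
  refine ⟨C₁, α, J, by omega, fun β hβ ca cb hca hcb => ?_⟩
  obtain ⟨w₁, hw₁, hw₁1, h⟩ := h β hβ ((A0 d C₁ α : ℕ) : ℝ)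
  obtain ⟨w₂, hw₂⟩ : ∃ w₂ : ℝ, w₂ = 1 / (64 * 3 ^ d * (1 + (ca + 2 * cb))) := ⟨_, rfl⟩
  have hC : 0 ≤ ca + 2 * cb := by linarith only [hca, hcb]
  have hw₂0 : 0 < w₂ := by
    rw [hw₂]
    positivity
  have h3 : (1 : ℝ) ≤ 3 ^ d := one_le_pow₀ (by norm_num)
  refine ⟨min w₁ w₂, lt_min hw₁ hw₂0, (min_le_left _ _).trans hw₁1, fun w t M₀ hw hw1 ht => ?_⟩
  obtain ⟨N, μ, kk, l, r, Kn, Dn, hN, hM, hS, hq⟩ := h w t M₀ hw (hw1.trans (min_le_left _ _)) ht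
  have hw0 : (0 : ℝ) < w := by exact_mod_cast hw
  have h5 : (w : ℝ) * (64 * 3 ^ d * (1 + (ca + 2 * cb))) ≤ 1 := by
    have h6 := hw1.trans (min_le_right _ _)
    rwa [hw₂, le_div_iff₀ (by positivity)] at h6
  have h7 : 0 ≤ (w : ℝ) * 3 ^ d * (ca + 2 * cb) := by positivity
  have h8 : (w : ℝ) * 1 ≤ w * 3 ^ d := by gcongr
  refine ⟨N, μ, kk, l, r, Kn, Dn, hN, hM, hS, _, _, _,
    num8 hS hw hth hth1 (by omega) hc₁1 hα ca cb hca hcb ?_ ?_ ?_ hq⟩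
  · nlinarith only [hw, h5, h7, h8]
  · nlinarith only [h5, h7, h8]
  · nlinarith only [hw, h5, h7, h8]

end Pool.Agent.ACX.H34
end
end -- Pool.Agent.Helper34_ACX.P8

section -- Pool.Agent.Helper16_CORE.Env0

/-!
# The protocol for a functional, one environment

The fields of the analysis (without `out`), the numbers and the end give the bound of the mean of the
functional.
-/

set_option autoImplicit false

open MeasureTheory ProbabilityTheory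

open scoped BigOperators NNReal ENNReal Matrix

noncomputable section

namespace Pool.Agent.ACX.CORE

open Pool.Agent.AND2B
open Pool.Agent.ANP
open Pool.Agent.ANP.H16 (Ana0 ViOk ana_of_ana0)

/-- the fields of the analysis, without `out` -/
structure Fields {d : ℕ} (Z : Prd d) (V : Env d) : Prop where
  ini : Z.Ini V
  beg : Z.Beg V
  mmon : Z.Mmon V
  flo : Z.Flo V
  fin : Z.Fin V
  rbeg : Z.Rbeg V
  rmon : Z.Rmon V
  kil : Z.Kil V
  rfin : Z.Rfin V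

theorem win_empty {X : Type} [Fintype X] (a : X → ℝ) (r : X → ℝ≥0) : Win ∅ a r (1 / 4) := by
  unfold Win
  rw [measureReal_empty]
  norm_num

/-- the analysis with the empty failure set -/
def Fields.ana0 {d : ℕ} {Z : Prd d} {V : Env d} (h : Fields Z V) :
    Ana0 V.G d 0 ∅ V.th V.kk V.cl V.Kn V.Dn V.p V.Vi :=
  { HS := Z.HS V, HM := Z.HM V, HR := Z.HR V, m0 := fun _ => V.m, ini := h.ini, beg := h.beg,
    mmon := h.mmon, flo := h.flo, fin := h.fin, rbeg := h.rbeg, rmon := h.rmon, kil := h.kil,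
    rfin := h.rfin, out := fun _ _ a r _ _ _ _ _ _ => win_empty a r }

theorem viok0 {d : ℕ} (V : Env d) : ViOk (∅ : Set (V.X → ℝ)) V.Vi :=
  { mono := (AND2B.H16.viok (d := d) (M := 2 ^ V.μ) V.E V.A V.ε V.R V.L).mono
    win := fun _ a r _ _ => win_empty a r }

/-- CORE, one environment, one start -/
theorem core0 {d : ℕ} (Z : Prd d) (V : Env d) (hth : 1 / 2 ≤ V.th) (hth1 : V.th < 1)
    (hw : 0 < V.w) (hS : V.Sc) (hN : 1 ≤ V.N) (hF : Fields Z V) {ca cb δ : ℝ} {π c W : ℕ → ℝ}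
    (hn : H34.Num8 d V.th V.J V.β V.w V.N V.μ V.kk V.l V.r ca cb π c W)
    (hsum : ∑ j ∈ Finset.range (V.G.N + 2), W j *
      ∑ B ∈ ({B | V.G.bl j B = B} : Finset V.X), H72.QQ V.G.ch V.G.J (fun i => π i.1) j B ≤ δ)
    {K e : ℝ} (φ : (V.X → ℝ) → ℝ) (ψ : V.X → (V.X → ℝ) → ℝ)
    (hφ : Measurable φ) (hφ1 : ∀ U, 0 ≤ φ U ∧ φ U ≤ 1) (hψ : ∀ x, Measurable (ψ x))
    (hψ1 : ∀ x U, 0 ≤ ψ x U ∧ ψ x U ≤ K) (he : 0 ≤ e)
    (hcost : ∀ (x : V.X) (a : V.X → ℝ) (r : V.X → ℝ≥0), 0 < r x →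
      ∫ U, ψ x U ∂(gm a r) ≤ (ca + cb / Real.sqrt (r x)) / ((2 : ℝ) ^ V.μ) ^ d)
    (hwl : ∀ U : V.X → ℝ, ¬ WL V.E V.L U → φ U = 0)
    (V₀ : V.X → ℝ) (m₁ : V.X → ℂ) (hini : Z.HS V 0 0 ⟨V₀, fun _ => V.cl 0, m₁⟩ Finset.univ)
    (hend : ∀ (T : Cfg V.X) (run : Finset V.X), Z.HS V (V.N + 1) (V.kk (V.N + 1)) T run →
      V.Fc (V.N + 1) (V.kk (V.N + 1)) ∅ T run → (∀ x, x ∉ run → T.s x = 0) →
      φ T.V ≤ e + ∑ x ∈ Finset.univ \ run, ψ x T.V) :
    ∫ U, φ U ∂(gm V₀ fun _ => V.cl 0 - V.cl (V.kk (V.N + 1))) ≤ e + δ := by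
  have hth0 : 0 < V.th := lt_of_lt_of_le (by norm_num) hth
  have hcl : ∀ k, 0 < V.cl k := fun k => by
    unfold Env.cl AND2B.cl
    positivity
  have hG : GeoOk V.G d := ANP.H61.trg d V.μ V.l _ hS.lm V.J V.N
  have h := ANP.AC.prt2T V.X V.G d 0 V.th V.kk V.cl V.Kn V.Dn V.p π c W K e φ ψ
    (ana_of_ana0 (viok0 V) hcl hF.ana0) V₀ m₁ hφ hφ1 hψ hψ1 he hG hS.scl hth0 hth1 hS.dn hS.k0
    hS.km (cl_succ V.w V.th) (hcl 0) hN
    (fun n => by unfold Env.p pf; split_ifs <;> positivity) hn.coin hn.coin1 hn.dens hn.c0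
    (fun n h1 h2 x a r hr => ?_) hn.W0 hn.wgt hn.W1 hn.W2 hn.W3 (Or.inr hini) ?_
  · refine h.trans ?_
    linarith
  · obtain ⟨h3, h4⟩ := hn.cost n h1 h2 (r x) hr
    exact (hcost x a r h3).trans h4
  · intro T run hHS hFc hdead
    rcases hHS with hVi | hHS
    · obtain ⟨D, _, hD⟩ := hVi
      rw [hwl T.V fun hWL => hD (hWL D)]
      exact add_nonneg he (Finset.sum_nonneg fun x _ => (hψ1 x _).1)
    · exact hend T run hHS hFc hdead

/-- CORE, one environment: the start is averaged. `IniV` : the start `V₀`, `|V₀| ≤ ρ₀`, with the gauge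
`m₁ V₀`. -/
theorem core1 {d : ℕ} (Z : Prd d) (V : Env d) (hth : 1 / 2 ≤ V.th) (hth1 : V.th < 1)
    (hw : 0 < V.w) (hS : V.Sc) (hN : 1 ≤ V.N) (hF : Fields Z V) {ca cb δ : ℝ} {π c W : ℕ → ℝ}
    (hn : H34.Num8 d V.th V.J V.β V.w V.N V.μ V.kk V.l V.r ca cb π c W)
    (hsum : ∑ j ∈ Finset.range (V.G.N + 2), W j *
      ∑ B ∈ ({B | V.G.bl j B = B} : Finset V.X), H72.QQ V.G.ch V.G.J (fun i => π i.1) j B ≤ δ)
    {K e : ℝ} (φ : (V.X → ℝ) → ℝ) (ψ : V.X → (V.X → ℝ) → ℝ)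
    (hφ : Measurable φ) (hφ1 : ∀ U, 0 ≤ φ U ∧ φ U ≤ 1) (hψ : ∀ x, Measurable (ψ x))
    (hψ1 : ∀ x U, 0 ≤ ψ x U ∧ ψ x U ≤ K) (he : 0 ≤ e) (hδ : 0 ≤ δ)
    (hcost : ∀ (x : V.X) (a : V.X → ℝ) (r : V.X → ℝ≥0), 0 < r x →
      ∫ U, ψ x U ∂(gm a r) ≤ (ca + cb / Real.sqrt (r x)) / ((2 : ℝ) ^ V.μ) ^ d)
    (hwl : ∀ U : V.X → ℝ, ¬ WL V.E V.L U → φ U = 0)
    (ρ₀ : ℝ) (hini : ∀ V₀ : V.X → ℝ, (∀ x, |V₀ x| ≤ ρ₀) →
      ∃ m₁ : V.X → ℂ, Z.HS V 0 0 ⟨V₀, fun _ => V.cl 0, m₁⟩ Finset.univ)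
    (hend : ∀ (T : Cfg V.X) (run : Finset V.X), Z.HS V (V.N + 1) (V.kk (V.N + 1)) T run →
      V.Fc (V.N + 1) (V.kk (V.N + 1)) ∅ T run → (∀ x, x ∉ run → T.s x = 0) →
      φ T.V ≤ e + ∑ x ∈ Finset.univ \ run, ψ x T.V) :
    ∫ U, φ U ∂(gm (fun _ : V.X => 0) fun _ => V.w) ≤ e + δ +
      (gm (fun _ : V.X => 0) (fun _ => V.cl (V.kk (V.N + 1)))).real {V₀ | ∃ x, ρ₀ < |V₀ x|} := by
  have hc0 : V.cl 0 = V.w := by
    unfold Env.cl AND2B.cl
    rw [pow_zero, mul_one]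
  have hfw : V.cl (V.kk (V.N + 1)) ≤ V.w := by
    unfold Env.cl AND2B.cl
    exact mul_le_of_le_one_right zero_le (pow_le_one₀ zero_le hth1.le)
  refine H79.v0_step V.w _ hfw φ hφ (fun U => (hφ1 U).1) (fun U => (hφ1 U).2) _ ρ₀
    (add_nonneg he hδ) fun V₀ hV₀ => ?_
  obtain ⟨m₁, hm₁⟩ := hini V₀ hV₀
  have h := core0 Z V hth hth1 hw hS hN hF hn hsum φ ψ hφ hφ1 hψ hψ1 he hcost hwl V₀ m₁ hm₁ hend
  rw [hc0] at h
  exact h

end Pool.Agent.ACX.CORE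
end
end -- Pool.Agent.Helper16_CORE.Env0

section -- Pool.Agent.Helper22_QDA.Scb

/-!
# QDA, row SCB: THE SCALES WITH A PRESCRIBED LAST STAGE
-/

set_option autoImplicit false

open Finset Filter

open scoped NNReal

noncomputable section

namespace Pool.Agent.QDA.H22

open Pool.Agent.ANP Pool.Agent.ANP.H61 Pool.Agent.AND2B Pool.Agent.ACX.H22

/-- THE SCALES for given clocks: everything is uniform in `th ∈ [1/2, b]` -/
theorem core (d : ℕ) (b : ℝ≥0) (c₁ : ℝ) (hb1 : b < 1) (hc₁ : 0 < c₁) :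
    ∃ (C₁ : ℝ) (α J : ℕ), 4 * d + 4 ≤ α ∧ ∀ β : ℝ, 0 < β → ∀ A : ℝ, ∃ v : ℕ, 1 ≤ v ∧
      ∀ (th w : ℝ≥0) (N : ℕ) (kk e : ℕ → ℕ) (t : ℝ), 1 / 2 ≤ th → th ≤ b → 0 < w →
        (w : ℝ) ≤ 1 → Kq (w : ℝ) th v α kk e → (w : ℝ) * (th : ℝ) ^ kk (N + 1) ≤ t →
      ∃ (μ : ℕ) (l r Kn Dn : ℕ → ℕ), Scal d th c₁ C₁ α J β w t N μ kk l r Kn Dn ∧
        ∀ n ≤ N, ∀ B, ANP.H72.QQ (Gt d μ J N l r).ch J
          (fun i => 2 * pf w th kk β N i.1 *
            ((kk (i.1 + 1) : ℝ) - kk i.1 + ((2 ^ l i.1 : ℕ) : ℝ) ^ d)) n B ≤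
          sg w th kk (n + 1) ^ A := by
  obtain ⟨c1, hc1def⟩ : ∃ c1, c1 = min c₁ 1 := ⟨_, rfl⟩
  have hc1 : 0 < c1 := by rw [hc1def]; exact lt_min hc₁ one_pos
  have hc1le : c1 ≤ c₁ := by rw [hc1def]; exact min_le_left _ _
  have hc1le1 : c1 ≤ 1 := by rw [hc1def]; exact min_le_right _ _
  -- the ratio
  obtain ⟨a0, ha0⟩ := exists_nat_ge (((d * 5 + 1 : ℕ) : ℝ) / c1)
  obtain ⟨a, hadef⟩ : ∃ a, a = max (4 * d + 4) a0 := ⟨_, rfl⟩
  have had4 : 4 * d + 4 ≤ a := by rw [hadef]; exact le_max_left _ _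
  have had : d + 2 ≤ a := by omega
  have ha2 : 2 ≤ a := by omega
  have haa : ((d * 5 + 1 : ℕ) : ℝ) ≤ c1 * a := by
    have h1 : (a0 : ℝ) ≤ a := by rw [hadef]; exact_mod_cast le_max_right _ _
    rw [div_le_iff₀ hc1] at ha0
    nlinarith only [hc1, ha0, h1]
  obtain ⟨J, hJ⟩ : ∃ J, J = 2 * a + 4 := ⟨_, rfl⟩
  refine ⟨6, a, J, by omega, fun β hβ A => ?_⟩
  obtain ⟨A0, hA0⟩ := exists_nat_ge A
  obtain ⟨A', hA'⟩ : ∃ A', A' = max (AA d a) A0 := ⟨_, rfl⟩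
  have hAA : AA d a ≤ A' := by rw [hA']; exact le_max_left _ _
  have hA5 : A ≤ ((A' * 5 : ℕ) : ℝ) := by
    have h1 : (A0 : ℝ) ≤ (A' : ℝ) := by rw [hA']; exact_mod_cast le_max_right _ _
    have h2 : (0 : ℝ) ≤ (A' : ℝ) := Nat.cast_nonneg _
    push_cast
    linarith only [hA0, h1]
  -- the number of stages
  obtain ⟨h, hhb⟩ := exists_pow_lt_of_lt_one (show (0 : ℝ) < 1 / 2 by norm_num)
    (show (b : ℝ) < 1 by exact_mod_cast hb1)
  -- growth
  obtain ⟨E1, hE1⟩ := growth (5 / 4 - 6 / 5) (by norm_num) (((3 ^ d * J : ℕ) : ℝ) + 1)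
  obtain ⟨E2, hE2⟩ := growth (13 / 10 - 5 / 4) (by norm_num) (2 * 3 ^ d : ℝ)
  obtain ⟨E3, hE3⟩ := growth β hβ (Real.log (max 2 1) +
      (2 + h + (d + 1 + A') * (5 * (a + 2)) : ℕ))
  obtain ⟨m0, hm0⟩ : ∃ m0, m0 = 104 * (3 ^ d * J) := ⟨_, rfl⟩
  obtain ⟨v, hv⟩ : ∃ v, v = 5 + (2 * d + 2) + m0 + (3 ^ d * J) ^ 2 * 2 ^ (3 * d + d * 5) +
    E1 + E2 + E3 := ⟨_, rfl⟩
  refine ⟨v, by omega, fun th w N kk e t hth hthb hw hw1' HK ht => ?_⟩
  have hθ : (0 : ℝ) < th := by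
    have h1 : (0 : ℝ≥0) < th := lt_of_lt_of_le (by norm_num) hth
    exact_mod_cast h1
  have hθ1 : (th : ℝ) < 1 := by exact_mod_cast lt_of_le_of_lt hthb hb1
  have hh : (th : ℝ) ^ h < 1 / 2 := by
    refine lt_of_le_of_lt ?_ hhb
    exact pow_le_pow_left₀ hθ.le (by exact_mod_cast hthb) _
  have hwr : (0 : ℝ) < w := by exact_mod_cast hw
  have H := HK.sq
  obtain ⟨s, hs⟩ : ∃ s : ℕ → ℝ, s = fun n => (w : ℝ) * (th : ℝ) ^ kk n := ⟨_, rfl⟩
  rw [← hs] at H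
  have hsg : ∀ n, sg w th kk n = s n := by
    intro n
    rw [hs]
    unfold sg cl
    push_cast
    rfl
  have hs1 : ∀ n, s n ≤ 1 := H.le_one
  have hC : 5 ≤ 5 := le_rfl
  have h3a : 5 + 1 ≤ 3 * a := by omega
  have hv5 : 5 ≤ v := by omega
  have hvm : m0 ≤ v := by omega
  have hvc : (3 ^ d * J) ^ 2 * 2 ^ (3 * d + d * 5) ≤ v := by omega
  have hvd : 2 * d + 2 ≤ v := by omega
  have hlin := H.lin
  have hmono : Monotone (lt 5 a m0 e N) := lmono H N hC h3a hv5 hvm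
  have hDl : ∀ n ≤ N, ((DN d J 5 a m0 (6 / 5) s e N n : ℕ) : ℝ) ≤ s (n + 1) ^ (-(5 / 4 : ℝ)) :=
    fun n hn => dn_le H d J N c1 (6 / 5) (5 / 4) hc1.le (by linarith only [hb1, hc1le1, hth, hthb]) (by norm_num) haa hvc E1 hE1
      (by omega) n hn
  have hDs := dsum H (m0 := m0) d J N (6 / 5) (5 / 4) (by norm_num) hC (by norm_num) (by omega) hvd
    hvc hDl
  have hDc := dcon H (m0 := m0) (C0 := 5) d J N (6 / 5) (5 / 4) (13 / 10) (by norm_num) (by norm_num)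
    E2 hE2 (by omega) hDl N le_rfl
  have hDm := dcon_last H (m0 := m0) (C0 := 5) d J N (6 / 5) (13 / 10) hC had (by norm_num)
    (by norm_num) hvd hvc hDc
  have hkk : ∀ n, kk (n + 1) ≤ kk n + h * (e (n + 1) + 2) := fun n =>
    kq_count (w : ℝ) th v a h kk e hθ hθ1 hh.le hwr hw1' HK n
  have hpf0 : ∀ n, 0 ≤ pf w th kk β N n := fun n => by
    unfold pf
    split_ifs <;> positivity
  have hnum0 : ∀ n, 0 ≤ ((kk (n + 1) : ℝ) - kk n + ((2 ^ lt 5 a m0 e N n : ℕ) : ℝ) ^ d) := by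
    intro n
    have h1 : (kk n : ℝ) ≤ kk (n + 1) := by exact_mod_cast (HK.kks n).le
    have h2 : (0 : ℝ) ≤ ((2 ^ lt 5 a m0 e N n : ℕ) : ℝ) ^ d := by positivity
    linarith only [h1, h2]
  have hq0 : ∀ n, 0 ≤ qA A' 5 a m0 e N n := fun n => by
    unfold qA
    positivity
  have hq1 : ∀ n, qA A' 5 a m0 e N n ≤ 1 := fun n => by
    unfold qA
    exact pow_le_one₀ (by norm_num) (by norm_num)
  have hqq : ∀ n, qA A' 5 a m0 e N n ≤ qn d 5 a m0 e N n := fun n => by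
    unfold qA qn
    exact pow_le_pow_of_le_one (by norm_num) (by norm_num) (Nat.mul_le_mul_right _ hAA)
  have hpi2 : ∀ n, 2 * pf w th kk β N n *
      ((kk (n + 1) : ℝ) - kk n + ((2 ^ lt 5 a m0 e N n : ℕ) : ℝ) ^ d) ≤ qA A' 5 a m0 e N n / 2 := by
    intro n
    rcases Nat.lt_or_ge N n with hn | hn
    · unfold pf
      rw [if_neg (by omega), mul_zero, zero_mul]
      have := hq0 n
      linarith only [this]
    · refine pi_leA H (m0 := m0) d N hC A' β 2 h hβ.le kk hkk E3 hE3 (by omega) _ n hn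
        (mul_nonneg (by norm_num) (hpf0 n)) ?_
      unfold pf
      rw [if_pos hn, hsg]
  have hpi : ∀ n, pf w th kk β N n *
      ((kk (n + 1) : ℝ) - kk n + ((2 ^ lt 5 a m0 e N n : ℕ) : ℝ) ^ d) ≤ qn d 5 a m0 e N n / 2 := by
    intro n
    have h1 := hpi2 n
    have h2 := hqq n
    have h3 := mul_nonneg (hpf0 n) (hnum0 n)
    have h4 := hq0 n
    linarith only [h1, h2, h3]
  have hphi := phi_le H (m0 := m0) d N hC h3a hv5 hvm J hJ 0
  refine ⟨mt 5 a e N, lt 5 a m0 e N, rt 5 a m0 e N, KN (6 / 5) s N,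
    DN d J 5 a m0 (6 / 5) s e N, ?_, fun n hn B => ?_⟩
  · have hmtN : (2 : ℝ) ^ mt 5 a e N = (2 : ℝ) ^ ((a : ℝ) * (5 * ((e (N + 1) : ℝ) + 1))) := by
      rw [← Real.rpow_natCast]
      unfold ANP.H61.mt
      push_cast
      rfl
    refine
      { k0 := HK.kk0
        km := HK.kks
        low := fun n _ => ?_
        up := fun n _ => ?_
        fin := ?_
        lm := hmono
        rlow := fun n hn => ?_
        rup := fun n hn => ?_
        llow := fun n hn => ?_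
        lup := fun n hn => ?_
        lN := ?_
        rN := ?_
        mN := ?_
        mU := ?_
        clu := fun n hn1 hn => ?_
        scl := ?_
        kn := fun n hn => ?_
        d0 := ?_
        dl := fun n hn => ?_
        dn := fun n hn => ?_
        ds := ?_
        dM := ?_
        pi := fun n _ => ?_
        phi := ?_ }
    · rw [hsg, hsg, hs]
      exact HK.dn n
    · rw [hsg, hsg]
      have h1 : s (n + 1) ≤ s n ^ a := by
        rw [hs]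
        exact HK.up n
      exact h1.trans (pow_le_pow_of_le_one (H.pos n).le (hs1 n) (by omega))
    · rw [hsg, hs]
      exact ht
    · rw [hsg, rt_of_le hn]
      refine (rp_hi (s (n + 1)) 3 (e (n + 1)) (H.pos _) (H.lo _) (by norm_num)).trans (le_of_eq ?_)
      rw [← Real.rpow_natCast]
      push_cast
      rfl
    · rw [hsg, rt_of_le hn]
      refine le_trans ?_ (rp_lo (s (n + 1)) 4 (e (n + 1)) (H.pos _) (H.hi _) (by norm_num))
      rw [← Real.rpow_natCast]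
      refine Real.rpow_le_rpow_of_exponent_le (by norm_num) ?_
      have h1 : (3 * (e (n + 1) + 1) : ℕ) ≤ 4 * e (n + 1) := by
        have := hlin (n + 1)
        omega
      exact_mod_cast h1
    · rw [hsg, lt_of_le hn]
      refine (rp_hi (s (n + 1)) 5 (e (n + 1)) (H.pos _) (H.lo _) (by norm_num)).trans (le_of_eq ?_)
      rw [← Real.rpow_natCast]
      push_cast
      rfl
    · rw [hsg, lt_of_le hn]
      refine le_trans ?_ (rp_lo (s (n + 1)) 6 (e (n + 1)) (H.pos _) (H.hi _) (by norm_num))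
      rw [← Real.rpow_natCast]
      refine Real.rpow_le_rpow_of_exponent_le (by norm_num) ?_
      have h1 : (5 * (e (n + 1) + 1) : ℕ) ≤ 6 * e (n + 1) := by
        have := hlin (n + 1)
        omega
      exact_mod_cast h1
    · have h1 : lt 5 a m0 e N N + 6 ≤ mt 5 a e N := by
        rw [lt_of_le le_rfl]
        unfold ANP.H61.mt
        have h2 : 2 * (5 * (e (N + 1) + 1)) ≤ a * (5 * (e (N + 1) + 1)) :=
          Nat.mul_le_mul_right _ ha2
        have h3 := hlin (N + 1)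
        omega
      omega
    · rw [rt_of_gt (Nat.lt_succ_self N)]
      omega
    · rw [hsg]
      refine (rp_hi (s (N + 1)) 5 (e (N + 1)) (H.pos _) (H.lo _) (by norm_num)).trans ?_
      rw [hmtN]
      refine Real.rpow_le_rpow_of_exponent_le (by norm_num) ?_
      have h1 : (1 : ℝ) ≤ a := by exact_mod_cast (by omega : 1 ≤ a)
      have h2 : (0 : ℝ) ≤ 5 * ((e (N + 1) : ℝ) + 1) := by positivity
      nlinarith only [h1]
    · rw [hsg]
      refine le_trans ?_ (rp_lo (s (N + 1)) (6 * ((a : ℝ) + 1)) (e (N + 1)) (H.pos _) (H.hi _)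
        (by positivity))
      rw [hmtN]
      refine Real.rpow_le_rpow_of_exponent_le (by norm_num) ?_
      have h1 : (5 : ℝ) ≤ e (N + 1) := by
        have h2 := hlin (N + 1)
        exact_mod_cast (by omega : 5 ≤ e (N + 1))
      have h2 : (0 : ℝ) ≤ a := by positivity
      nlinarith only [hb1, hth, hthb, h1]
    · rw [hsg]
      obtain ⟨m, rfl⟩ : ∃ m, n = m + 1 := ⟨n - 1, by omega⟩
      have h1 := clu H (m0 := m0) (C0 := 5) d J N c1 hc1.le haa hvc m hn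
      rw [Nat.add_sub_cancel]
      have h2 : s (m + 2) ^ (-c1) ≤ s (m + 2) ^ (-c₁) := rp_mono _ (H.pos _) (hs1 _) _ _ hc1le
      refine le_trans ?_ (h1.trans h2)
      have h3 : (3 ^ d * J) * (6 * 2 ^ lt 5 a m0 e N m + 1) ^ d ≤
          (3 ^ d * J) ^ 2 * (6 * 2 ^ lt 5 a m0 e N m + 1) ^ d := by
        refine Nat.mul_le_mul_right _ ?_
        have h4 : 1 ≤ 3 ^ d * J := Nat.mul_pos (by positivity) (by omega)
        nlinarith only [hm0, h4]
      exact_mod_cast h3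
    · refine scl_scl H d J N _ hC h3a hv5 hvm (by omega) ?_
      rw [← hm0]
      exact (Nat.lt_two_pow_self).le
    · unfold KN
      rw [if_pos hn, hsg]
    · unfold DN
      rw [if_pos rfl]
    · rw [hsg]
      exact hDl n hn
    · have h1 : n ≠ 0 := by omega
      unfold DN
      rw [if_neg h1]
    · exact_mod_cast hDs
    · have h1 : (0 : ℝ) ≤ ∑ i ∈ range (N + 2), (3 ^ d * (DN d J 5 a m0 (6 / 5) s e N i : ℝ)) :=
        Finset.sum_nonneg fun i _ => by positivity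
      linarith only [hb1, hth, hthb, hDm, h1]
    · have h1 := hpi2 n
      have h2 := hq1 n
      linarith only [hb1, hth, hthb, h1, h2]
    · refine le_trans (H72.phi_mono ?_ ?_ _ _) hphi
      · intro c
        exact mul_nonneg (hpf0 _) (hnum0 _)
      · intro c
        exact hpi c.1
  · rw [hsg]
    exact qq_fin H (m0 := m0) d N hC hvm hmono J hJ A' hAA
      (fun n => 2 * pf w th kk β N n *
        ((kk (n + 1) : ℝ) - kk n + ((2 ^ lt 5 a m0 e N n : ℕ) : ℝ) ^ d))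
      (fun n => mul_nonneg (mul_nonneg (by norm_num) (hpf0 _)) (hnum0 _)) hpi2 A hA5 n hn B

/-- SCB: THE SCALES WITH A PRESCRIBED LAST STAGE `K`, for every `K` with `w th ^ K ≤ w ^ P`; uniform in
`th ∈ [1/2, b]` -/
theorem scb (d : ℕ) (b : ℝ≥0) (c₁ : ℝ) (hb1 : b < 1) (hc₁ : 0 < c₁) :
    ∃ (C₁ : ℝ) (α J P : ℕ), 4 * d + 4 ≤ α ∧ 1 ≤ P ∧ ∀ β : ℝ, 0 < β → ∀ A : ℝ,
    ∃ w₁ : ℝ, 0 < w₁ ∧ w₁ ≤ 1 ∧ ∀ (th w : ℝ≥0) (K : ℕ) (t : ℝ), 1 / 2 ≤ th → th ≤ b → 0 < w →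
      (w : ℝ) ≤ w₁ → (w : ℝ) * (th : ℝ) ^ K ≤ (w : ℝ) ^ P → (w : ℝ) * (th : ℝ) ^ K ≤ t →
      ∃ (N μ : ℕ) (kk l r Kn Dn : ℕ → ℕ), 2 ≤ N ∧ kk (N + 1) = K ∧
        Scal d th c₁ C₁ α J β w t N μ kk l r Kn Dn ∧
        ∀ n ≤ N, ∀ B, ANP.H72.QQ (Gt d μ J N l r).ch J
          (fun i => 2 * pf w th kk β N i.1 *
            ((kk (i.1 + 1) : ℝ) - kk i.1 + ((2 ^ l i.1 : ℕ) : ℝ) ^ d)) n B ≤
          sg w th kk (n + 1) ^ A := by
  obtain ⟨C₁, α, J, hα, h⟩ := core d b c₁ hb1 hc₁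
  obtain ⟨P, hP1, hP⟩ := exists_kqK α (by omega)
  refine ⟨C₁, α, J, P, hα, hP1, fun β hβ A => ?_⟩
  obtain ⟨v, hv, h⟩ := h β hβ A
  refine ⟨min ((1 / 2) ^ (4 * (α + 1))) (1 / 2 ^ v), lt_min (by positivity) (by positivity),
    (min_le_left _ _).trans (pow_le_one₀ (by norm_num) (by norm_num)), ?_⟩
  intro th w K t hth hthb hw hw1 hK ht
  have hwr : (0 : ℝ) < w := by exact_mod_cast hw
  have hwv : (w : ℝ) * 2 ^ v ≤ 1 := by
    have h1 := hw1.trans (min_le_right _ _)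
    rwa [le_div_iff₀ (by positivity)] at h1
  have hwa := hw1.trans (min_le_left _ _)
  have hθ2 : (1 / 2 : ℝ) ≤ th := by exact_mod_cast hth
  have hθ1 : (th : ℝ) < 1 := by exact_mod_cast lt_of_le_of_lt hthb hb1
  obtain ⟨N, kk, e, hN, hkK, HK⟩ := hP w th v K hv hθ2 hθ1 hwr hwa hwv hK
  have hw1' : (w : ℝ) ≤ 1 := hwa.trans (pow_le_one₀ (by norm_num) (by norm_num))
  obtain ⟨μ, l, r, Kn, Dn, hS, hQ⟩ := h th w N kk e t hth hthb hw hw1' HK (by rw [hkK]; exact ht)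
  exact ⟨N, μ, kk, l, r, Kn, Dn, hN, hkK, hS, hQ⟩

end Pool.Agent.QDA.H22
end
end -- Pool.Agent.Helper22_QDA.Scb

section -- Pool.Agent.Helper34_QDA.NumD

/-!
# QDA, row PHS: the sum of the protocol, with an error proportional to `w`
-/

set_option autoImplicit false

open Finset

open scoped NNReal BigOperators

noncomputable section

namespace Pool.Agent.QDA.H34N

open Pool.Agent.AND2B Pool.Agent.ANP Pool.Agent.ACX.H34
open Pool.Agent.BED (Tor)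

section num

variable {d J : ℕ} {th : ℝ≥0} {c₁ C₁ β : ℝ} {α : ℕ} {w : ℝ≥0} {t : ℝ} {N μ : ℕ}
  {kk l r Kn Dn : ℕ → ℕ} (hS : Scal d th c₁ C₁ α J β w t N μ kk l r Kn Dn)
  (hw : 0 < w) (hth : 0 < th) (hth1 : th < 1)

variable (hw1 : 2 * 3 ^ d * (w : ℝ) ≤ 1) (hw64 : (w : ℝ) ≤ 1 / 64) (hα : 4 * d + 4 ≤ α)

include hS hw hth hth1 hw64 in
theorem trm_hiW (Cc : ℝ) (hCc : 0 ≤ Cc) (A : ℕ) (hA : A0 d C₁ α ≤ A) (j : ℕ) (hj : N ≤ j + 1)
    (hj2 : j < N + 2)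
    (hq : ∀ n ≤ N, ∀ B, H72.QQ (Gt d μ J N l r).ch J
      (fun i => pic w th kk β N l d i.1) n B ≤ sg w th kk (n + 1) ^ A) :
    trm w th kk β d μ J N l r Cc j ≤ w := by
  have hcard := card_s hS hw hth hth1 hw64
  obtain ⟨m, hm⟩ : ∃ m, m = ⌈|C₁|⌉₊ * (α + 1) * d := ⟨_, rfl⟩
  rw [← hm] at hcard
  have hmA : (α + 1) * m + 1 ≤ A ∧ 2 * m + 1 ≤ A := by
    have h1 : ⌈|C₁|⌉₊ * (α + 1) * (α + 1) * d = (α + 1) * m := by
      rw [hm]
      ring
    have h2 : m ≤ (α + 1) * m := Nat.le_mul_of_pos_left _ (by omega)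
    unfold A0 at hA
    rw [h1] at hA
    have h3 : 0 ≤ 4 * d * (α + 1) := Nat.zero_le _
    constructor
    · omega
    · omega
  have hz0 : 0 < sg w th kk (N + 1) := s_pos hw hth (N + 1)
  have hz1 : sg w th kk (N + 1) ≤ 1 := s_le1 hS hth1 hw64 (N + 1)
  have hzw : sg w th kk (N + 1) ≤ w := s_le hS hth1 (N + 1)
  have hM : (0 : ℝ) < ((2 : ℝ) ^ μ) ^ d := by positivity
  have hwt : wgt w th kk d μ Cc N r j = 1 := by
    unfold wgt
    rw [if_neg (by omega)]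
  rcases (show j + 1 = N ∨ j = N ∨ j = N + 1 by omega) with h | h | h
  · -- level `N - 1`
    have hy0 : 0 < sg w th kk N := s_pos hw hth N
    have hy1 : sg w th kk N ≤ 1 := s_le1 hS hth1 hw64 N
    have hyw : sg w th kk N ≤ w := s_le hS hth1 N
    have h1 := hq j (by omega)
    rw [h] at h1
    refine (trm_le Cc hCc j _ (by positivity) h1).trans ?_
    rw [hwt, one_mul]
    have h2 := hS.low N le_rfl
    calc ((2 : ℝ) ^ μ) ^ d * sg w th kk N ^ A ≤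
        ((2 : ℝ) ^ μ) ^ d * sg w th kk N ^ ((α + 1) * m + 1) := by
          refine mul_le_mul_of_nonneg_left ?_ hM.le
          exact pow_le_pow_of_le_one hy0.le hy1 hmA.1
      _ = ((2 : ℝ) ^ μ) ^ d * (sg w th kk N ^ (α + 1)) ^ m * sg w th kk N := by
          rw [pow_succ, pow_mul]
          ring
      _ ≤ ((2 : ℝ) ^ μ) ^ d * (sg w th kk (N + 1)) ^ m * sg w th kk N := by gcongr
      _ ≤ 1 * sg w th kk N := by gcongr
      _ ≤ w := by linarith only [hyw]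
  · subst h
    refine (trm_le Cc hCc j _ (by positivity) (hq j le_rfl)).trans ?_
    rw [hwt, one_mul]
    calc ((2 : ℝ) ^ μ) ^ d * sg w th kk (j + 1) ^ A ≤
        ((2 : ℝ) ^ μ) ^ d * sg w th kk (j + 1) ^ (m + 1) := by
          refine mul_le_mul_of_nonneg_left ?_ hM.le
          exact pow_le_pow_of_le_one hz0.le hz1 (by omega)
      _ = ((2 : ℝ) ^ μ) ^ d * sg w th kk (j + 1) ^ m * sg w th kk (j + 1) := by
          rw [pow_succ]
          ring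
      _ ≤ 1 * sg w th kk (j + 1) := by gcongr
      _ ≤ w := by linarith only [hzw]
  · subst h
    have hMs : ((2 : ℝ) ^ μ) ^ d * sg w th kk (N + 1) ^ A ≤ sg w th kk (N + 1) ^ (m + 1) := by
      calc ((2 : ℝ) ^ μ) ^ d * sg w th kk (N + 1) ^ A ≤
          ((2 : ℝ) ^ μ) ^ d * sg w th kk (N + 1) ^ (m + (m + 1)) := by
            refine mul_le_mul_of_nonneg_left ?_ hM.le
            exact pow_le_pow_of_le_one hz0.le hz1 (by omega)
        _ = ((2 : ℝ) ^ μ) ^ d * sg w th kk (N + 1) ^ m * sg w th kk (N + 1) ^ (m + 1) := by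
            rw [pow_add]
            ring
        _ ≤ 1 * sg w th kk (N + 1) ^ (m + 1) := by gcongr
        _ = sg w th kk (N + 1) ^ (m + 1) := one_mul _
    have hqt : ∀ B, H72.QQ (Gt d μ J N l r).ch J (fun i => pic w th kk β N l d i.1) (N + 1) B ≤
        sg w th kk (N + 1) ^ (m + 1) := by
      intro B
      have h3 := qq_top (Gt d μ J N l r).ch J (fun i => pic w th kk β N l d i.1)
        (fun c => pic_nonneg hS.km c.1) N B (sg w th kk (N + 1) ^ A)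
        (pic_zero (N + 1) (Nat.lt_succ_self N)) (hq N le_rfl)
        (by
          rw [card_tor]
          exact hMs.trans (pow_le_one₀ hz0.le hz1))
      rw [card_tor] at h3
      exact h3.trans hMs
    refine (trm_le Cc hCc (N + 1) _ (by positivity) hqt).trans ?_
    rw [hwt, one_mul]
    calc ((2 : ℝ) ^ μ) ^ d * sg w th kk (N + 1) ^ (m + 1) =
        ((2 : ℝ) ^ μ) ^ d * sg w th kk (N + 1) ^ m * sg w th kk (N + 1) := by
          rw [pow_succ]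
          ring
      _ ≤ 1 * sg w th kk (N + 1) := by gcongr
      _ ≤ w := by linarith only [hzw]

include hS hw hth hth1 hw64 hα in
/-- THE SUM, with an error proportional to `w` -/
theorem sum_leW (Cc : ℝ) (hCc : 0 ≤ Cc) (A : ℕ) (hA : A0 d C₁ α ≤ A)
    (hq : ∀ n ≤ N, ∀ B, H72.QQ (Gt d μ J N l r).ch J
      (fun i => pic w th kk β N l d i.1) n B ≤ sg w th kk (n + 1) ^ A) :
    ∑ j ∈ range (N + 2), wgt w th kk d μ Cc N r j *
      ∑ B ∈ ({B | (Gt d μ J N l r).bl j B = B} : Finset (Fin d → ZMod (2 ^ μ))),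
        H72.QQ (Gt d μ J N l r).ch J (fun i => pic w th kk β N l d i.1) j B ≤
      (3 ^ d * Cc + 3) * w := by
  have h1 : ∀ j ∈ range (N + 2), trm w th kk β d μ J N l r Cc j ≤
      3 ^ d * Cc * w * (1 / 2) ^ (j + 2) + (if N ≤ j + 1 then (w : ℝ) else 0) := by
    intro j hj
    rw [mem_range] at hj
    by_cases h : N ≤ j + 1
    · rw [if_pos h]
      have h2 := trm_hiW hS hw hth hth1 hw64 Cc hCc A hA j h hj hq
      have h3 : 0 ≤ 3 ^ d * Cc * (w : ℝ) * (1 / 2) ^ (j + 2) := by positivity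
      linarith only [h2, h3]
    · rw [if_neg h, add_zero]
      exact trm_lo hS hw hth hth1 hw64 hα Cc hCc A hA j (by omega) (hq j (by omega))
  refine (Finset.sum_le_sum h1).trans ?_
  rw [Finset.sum_add_distrib, ← Finset.mul_sum]
  have h2 : ∑ j ∈ range (N + 2), ((1 : ℝ) / 2) ^ (j + 2) ≤ 1 / 2 := by
    have h3 : ∀ n : ℕ, ∑ j ∈ range n, ((1 : ℝ) / 2) ^ (j + 2) = 1 / 2 - (1 / 2) ^ (n + 1) := by
      intro n
      induction n with
      | zero => norm_num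
      | succ n ih =>
        rw [Finset.sum_range_succ, ih]
        ring
    rw [h3]
    have : (0 : ℝ) < (1 / 2) ^ (N + 2 + 1) := by positivity
    linarith only [this]
  have h4 : ∑ j ∈ range (N + 2), (if N ≤ j + 1 then (w : ℝ) else 0) ≤ 3 * w := by
    rw [← Finset.sum_filter, Finset.sum_const, nsmul_eq_mul]
    have h5 : ((range (N + 2)).filter (fun j => N ≤ j + 1)).card ≤ 3 := by
      have h6 : (range (N + 2)).filter (fun j => N ≤ j + 1) ⊆ {N - 1, N, N + 1} := by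
        intro j hj
        rw [mem_filter, mem_range] at hj
        simp only [mem_insert, mem_singleton]
        omega
      exact (card_le_card h6).trans (Finset.card_le_three)
    have h7 : (((range (N + 2)).filter (fun j => N ≤ j + 1)).card : ℝ) ≤ 3 := by exact_mod_cast h5
    gcongr
  have h8 : 3 ^ d * Cc * (w : ℝ) * ∑ j ∈ range (N + 2), ((1 : ℝ) / 2) ^ (j + 2) ≤
      3 ^ d * Cc * (w : ℝ) * (1 / 2) := by
    refine mul_le_mul_of_nonneg_left h2 (by positivity)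
  have h9 : 0 ≤ 3 ^ d * Cc * (w : ℝ) := by positivity
  linarith only [h4, h8, h9]

end num

/-- P8 from the scales, with the sum at most `δ₁` -/
theorem num8d (d : ℕ) (C₁ : ℝ) (α : ℕ) (ca cb δ₁ : ℝ) (hca : 0 ≤ ca) (hcb : 0 ≤ cb) (hδ : 0 < δ₁) :
    ∃ w₁ : ℝ, 0 < w₁ ∧ w₁ ≤ 1 ∧ ∀ (J : ℕ) (th : ℝ≥0) (c₁ β : ℝ) (w : ℝ≥0) (t : ℝ) (N μ : ℕ)
      (kk l r Kn Dn : ℕ → ℕ), Scal d th c₁ C₁ α J β w t N μ kk l r Kn Dn →
      0 < w → (w : ℝ) ≤ w₁ → 1 / 2 ≤ th → th < 1 → 1 ≤ N → c₁ ≤ 1 → 4 * d + 4 ≤ α →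
      (∀ n ≤ N, ∀ B, H72.QQ (Gt d μ J N l r).ch J
        (fun i => 2 * pf w th kk β N i.1 *
          ((kk (i.1 + 1) : ℝ) - kk i.1 + ((2 ^ l i.1 : ℕ) : ℝ) ^ d)) n B ≤
            sg w th kk (n + 1) ^ ((A0 d C₁ α : ℕ) : ℝ)) →
      ∃ π c W : ℕ → ℝ, Num8 d th J β w N μ kk l r ca cb π c W ∧
        ∑ j ∈ range ((Gt d μ J N l r).N + 2), W j *
          ∑ B ∈ ({B | (Gt d μ J N l r).bl j B = B} : Finset (Fin d → ZMod (2 ^ μ))),
            H72.QQ (Gt d μ J N l r).ch (Gt d μ J N l r).J (fun i => π i.1) j B ≤ δ₁ := by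
  have hC : 0 ≤ ca + 2 * cb := by linarith
  have h3 : (1 : ℝ) ≤ 3 ^ d := one_le_pow₀ (by norm_num)
  obtain ⟨w₂, hw₂⟩ : ∃ w₂ : ℝ, w₂ = 1 / (64 * 3 ^ d * (1 + (ca + 2 * cb))) := ⟨_, rfl⟩
  have hw₂0 : 0 < w₂ := by
    rw [hw₂]
    positivity
  have hw₂1 : w₂ ≤ 1 := by
    rw [hw₂, div_le_one (by positivity)]
    nlinarith only [hca, hcb, h3]
  have hD : 0 < 3 ^ d * (ca + 2 * cb) + 3 := by positivity
  refine ⟨min w₂ (δ₁ / (3 ^ d * (ca + 2 * cb) + 3)), lt_min hw₂0 (by positivity),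
    (min_le_left _ _).trans hw₂1, ?_⟩
  intro J th c₁ β w t N μ kk l r Kn Dn hS hw hw1 hth hth1 hN hc₁ hα hq
  have hw0 : (0 : ℝ) < w := by exact_mod_cast hw
  have h5 : (w : ℝ) * (64 * 3 ^ d * (1 + (ca + 2 * cb))) ≤ 1 := by
    have h6 := hw1.trans (min_le_left _ _)
    rwa [hw₂, le_div_iff₀ (by positivity)] at h6
  have h6 : (3 ^ d * (ca + 2 * cb) + 3) * w ≤ δ₁ := by
    have h6 := hw1.trans (min_le_right _ _)
    rw [le_div_iff₀ hD] at h6
    linarith only [h6]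
  have h7 : 0 ≤ (w : ℝ) * 3 ^ d * (ca + 2 * cb) := by positivity
  have h8 : (w : ℝ) * 1 ≤ w * 3 ^ d := by gcongr
  have hw64 : (w : ℝ) ≤ 1 / 64 := by nlinarith only [h5, h7, h8]
  have hth0 : 0 < th := lt_of_lt_of_le (by norm_num) hth
  refine ⟨_, _, _, num8 hS hw hth hth1 hN hc₁ hα ca cb hca hcb (by nlinarith only [hw, h5, h7, h8]) hw64
    (by nlinarith only [hw, h5, h7, h8]) hq, ?_⟩
  refine (sum_leW hS hw hth0 hth1 hw64 hα (ca + 2 * cb) hC (A0 d C₁ α) le_rfl ?_).trans h6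
  intro n hn B
  have h := hq n hn B
  rw [Real.rpow_natCast] at h
  exact h

end Pool.Agent.QDA.H34N
end
end -- Pool.Agent.Helper34_QDA.NumD
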