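import Pool.Agent.Helper12_MEB.B016
import Pool.Agent.Helper12_MEB.B123
import Pool.Agent.Helper12_MEB.B146
import Pool.Agent.Helper12_MEB.B152
import Pool.Agent.Helper12_MEB.B156
import Pool.Agent.Helper12_MEB.B167

/-!
# Merged copies (generated) of the modules

* `Pool.Agent.Helper28_ACX.Elim`
* `Pool.Agent.Helper38_ACX.Weg`
* `Pool.Agent.Helper48_ACX.P6`
* `Pool.Agent.Helper54_AHH.INI`
* `Pool.Agent.Helper54_AHH.IniF`
* `Pool.Agent.Helper54_AHH.IniV`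
* `Pool.Agent.Helper67_ACX.End`
* `Pool.Agent.Helper67_ACX.EndZ`
* `Pool.Agent.Helper90_ANE.LAW`
* `Pool.Agent.Helper72_ACS.Law`
* `Pool.Agent.ACX.Top`
* `Pool.Agent.Helper16_QDA.Mean`
* `Pool.Agent.Helper16_QDA.Phq`
* `Pool.Agent.Helper16_QDA.PhqE`
* `Pool.Agent.Helper16_QDA.Phm`
* `Pool.Agent.Helper16_QDA.Tail`
* `Pool.Agent.Helper22_QDU.H54IniF`
* `Pool.Agent.Helper22_QDU.H54IniV`
* `Pool.Agent.Helper34_QDA.Trq`
* `Pool.Agent.Helper36_QDA.Trm`
-/

set_option autoImplicit false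

section -- Pool.Agent.Helper28_ACX.Elim

/-!
# ACX (MP_1906c1_mp): nine fields give `Ana` with the empty set; elimination of `Ev` (helper28)
-/

set_option autoImplicit false

open MeasureTheory ProbabilityTheory

open scoped BigOperators NNReal ENNReal Matrix

noncomputable section

namespace Pool.Agent.ACX.H28

open Pool.Agent.AND2B
open Pool.Agent.ANP
open Pool.Agent.ANP.H16 (Ana0 ana_of_ana0 ViOk)

variable {d : ℕ}

/-- all the fields except `Out` -/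
structure Nine (Z : Prd d) (V : Env d) : Prop where
  ini : Z.Ini V
  beg : Z.Beg V
  mmon : Z.Mmon V
  flo : Z.Flo V
  fin : Z.Fin V
  rbeg : Z.Rbeg V
  rmon : Z.Rmon V
  kil : Z.Kil V
  rfin : Z.Rfin V

/-- there is nothing to prove at the end for the empty set -/
theorem win_empty {X : Type} [Fintype X] (a : X → ℝ) (r : X → ℝ≥0) (e : ℝ) (he : 0 ≤ e) :
    Win (∅ : Set (X → ℝ)) a r e := by
  unfold Win
  simpa using he

/-- the analysis off `Vi` -/
def ana0 {Z : Prd d} {V : Env d} (h : Nine Z V) :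
    Ana0 V.G d 0 (∅ : Set (V.X → ℝ)) V.th V.kk V.cl V.Kn V.Dn V.p V.Vi where
  HS := Z.HS V
  HM := Z.HM V
  HR := Z.HR V
  m0 := fun _ => V.m
  ini := h.ini
  beg := h.beg
  mmon := h.mmon
  flo := h.flo
  fin := h.fin
  rbeg := h.rbeg
  rmon := h.rmon
  kil := h.kil
  rfin := h.rfin
  out := fun _ _ a r _ _ _ _ _ _ => win_empty a r _ (by norm_num)

theorem viok (V : Env d) : ViOk (∅ : Set (V.X → ℝ)) V.Vi :=
  ⟨(AND2B.H16.viok V.E V.A V.ε V.R V.L).mono, fun _ a r _ _ => win_empty a r _ (by norm_num)⟩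

/-- THE ANALYSIS -/
def ana {Z : Prd d} {V : Env d} (hcl : ∀ k, 0 < V.cl k) (h : Nine Z V) :
    Ana V.G d 0 (∅ : Set (V.X → ℝ)) V.th V.kk V.cl V.Kn V.Dn V.p :=
  ana_of_ana0 (viok V) hcl (ana0 h)

theorem ana_HS {Z : Prd d} {V : Env d} (hcl : ∀ k, 0 < V.cl k) (h : Nine Z V) (n k : ℕ)
    (T : Cfg V.X) (run : Finset V.X) :
    (ana hcl h).HS n k T run ↔ V.Vi T ∨ Z.HS V n k T run := Iff.rfl

theorem cl_pos' {V : Env d} {a : ℝ} (h : V.Pre a) (k : ℕ) : 0 < V.cl k :=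
  AND2B.H16.cl_pos h.w (lt_of_lt_of_le (by norm_num) h.th.1) k

/-! ### Elimination of `Ev` -/

/-- the torus is large enough for the start -/
theorem torus_large {C : ℝ} {th : ℝ≥0} {c₁ C₁ : ℝ} {α J : ℕ} {β : ℝ} {w : ℝ≥0} {t : ℝ} {N μ : ℕ}
    {kk l r Kn Dn : ℕ → ℕ} (hth : 0 < th) (hth1 : th < 1) (hw : 0 < w) (hw1 : (w : ℝ) ≤ 1)
    (hC : 0 < C) (hwC : (w : ℝ) ≤ 1 / C) (hS : Scal d th c₁ C₁ α J β w t N μ kk l r Kn Dn) :
    C / (w : ℝ) ^ 2 ≤ ((2 ^ μ : ℕ) : ℝ) := by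
  have hw0 : (0 : ℝ) < w := by exact_mod_cast hw
  have hthp : (0 : ℝ) < th := by exact_mod_cast hth
  have hs1 : sg w th kk (N + 1) ≤ w := by
    unfold sg cl
    push_cast
    have : (th : ℝ) ^ kk (N + 1) ≤ 1 := pow_le_one₀ (NNReal.coe_nonneg _) (by exact_mod_cast hth1.le)
    have := mul_le_mul_of_nonneg_left this hw0.le
    linarith only [this]
  have hs0 : 0 < sg w th kk (N + 1) := by
    unfold sg cl
    push_cast
    positivity
  have h5 : (w : ℝ) ^ (-(5 : ℝ)) ≤ sg w th kk (N + 1) ^ (-(5 : ℝ)) :=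
    Real.rpow_le_rpow_of_nonpos hs0 hs1 (by norm_num)
  have h6 := hS.mN
  have h7 : C / (w : ℝ) ^ 2 ≤ (w : ℝ) ^ (-(5 : ℝ)) := by
    rw [Real.rpow_neg hw0.le]
    have e5 : (w : ℝ) ^ (5 : ℝ) = (w : ℝ) ^ 5 := by
      rw [← Real.rpow_natCast]
      norm_num
    rw [e5, div_le_iff₀ (by positivity), inv_mul_eq_div, le_div_iff₀ (by positivity)]
    have h8 : C * w ≤ 1 := by
      rw [le_div_iff₀ hC] at hwC
      linarith
    calc C * (w : ℝ) ^ 5 = (C * w) * ((w : ℝ) ^ 2 * w ^ 2) := by ring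
      _ ≤ 1 * ((w : ℝ) ^ 2 * 1) := by
          have : (w : ℝ) ^ 2 ≤ 1 := pow_le_one₀ hw0.le hw1
          gcongr
      _ = (w : ℝ) ^ 2 := by ring
  have h9 : ((2 ^ μ : ℕ) : ℝ) = (2 : ℝ) ^ μ := by push_cast; rfl
  rw [h9]
  exact h7.trans (h5.trans h6)

/-- ELIMINATION OF `Ev`. `e₀` may be taken smaller than any given number `e'`. -/
theorem ev_elim {a es c C : ℝ} (hc : 0 < c) (hc' : c ≤ 1 / 2) (hC : 1 ≤ C)
    (hst : ∀ (M : ℕ) [NeZero M] (E η T : ℝ), |E| ≤ 2 * d - a → 0 < η → η ≤ T → T ≤ c →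
      C / T ^ 2 ≤ M → ∃ m ζ : ℂ, ANI.Start2 d M E η T es m ζ c C)
    {P : Env d → Prop} (hall : Ev d a es c C P) :
    ∃ (th : ℝ≥0) (c₁ : ℝ), 1 / 2 ≤ th ∧ th < 1 ∧ 0 < c₁ ∧ ∀ (C₁ : ℝ) (α J : ℕ), 2 ≤ α →
      ∃ β w₀ : ℝ, 0 < β ∧ 0 < w₀ ∧ ∀ (w : ℝ≥0) (E : ℝ), 0 < w → (w : ℝ) ≤ w₀ →
      |E| < 2 * d - a → ∃ ε : ℝ, 0 < ε ∧ ∀ (A : ℝ) (R : ℕ), ∃ t₀ : ℝ, 0 < t₀ ∧
      ∀ t : ℝ, 0 < t → t ≤ t₀ → ∀ (N μ : ℕ) (kk l r Kn Dn : ℕ → ℕ),
        Scal d th c₁ C₁ α J β w t N μ kk l r Kn Dn → ∀ L : ℝ, 1 ≤ L → ∀ e' : ℝ, 0 < e' →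
        ∃ (e₀ : ℝ) (m ζ : ℂ), e₀ ≤ e' ∧
          (⟨th, c₁, C₁, α, J, β, w, E, ε, A, R, t, N, μ, kk, l, r, Kn, Dn, L, e₀, m, ζ⟩ :
            Env d).Good a es c C ∧
          P ⟨th, c₁, C₁, α, J, β, w, E, ε, A, R, t, N, μ, kk, l, r, Kn, Dn, L, e₀, m, ζ⟩ := by
  obtain ⟨τ₀, k₁, hτ, hk, hall⟩ := hall
  have hth1 : max (1 / 2 : ℝ) (1 - τ₀) < 1 := max_lt (by norm_num) (by linarith only [hτ])
  have hth0 : (0 : ℝ) ≤ max (1 / 2 : ℝ) (1 - τ₀) := le_max_of_le_left (by norm_num)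
  set th : ℝ≥0 := ⟨max (1 / 2 : ℝ) (1 - τ₀), hth0⟩ with hth
  have hthc : (th : ℝ) = max (1 / 2 : ℝ) (1 - τ₀) := rfl
  have h1 : (1 / 2 : ℝ≥0) ≤ th := by
    rw [← NNReal.coe_le_coe, hthc]
    push_cast
    exact le_max_left _ _
  have h2 : 1 - τ₀ ≤ (th : ℝ) := by
    rw [hthc]
    exact le_max_right _ _
  have h3 : th < 1 := by
    rw [← NNReal.coe_lt_coe, hthc]
    push_cast
    exact hth1
  refine ⟨th, k₁, h1, h3, hk, fun C₁ α J hα => ?_⟩
  obtain ⟨β₀, w₀, hβ₀, hw₀, hall⟩ := hall th k₁ h1 h2 h3 hk le_rfl C₁ α J hα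
  have hC0 : 0 < C := by linarith only [hc, hc', hC]
  refine ⟨β₀, min w₀ (min c (1 / C)), hβ₀, lt_min hw₀ (lt_min hc (by positivity)), ?_⟩
  intro w E hw hw' hE
  have hwc : (w : ℝ) ≤ c := hw'.trans ((min_le_right _ _).trans (min_le_left _ _))
  have hwC : (w : ℝ) ≤ 1 / C := hw'.trans ((min_le_right _ _).trans (min_le_right _ _))
  have hw0 : (0 : ℝ) < w := by exact_mod_cast hw
  obtain ⟨ε₀, hε₀, hall⟩ := hall β₀ w E hβ₀ le_rfl hw (hw'.trans (min_le_left _ _)) hE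
  refine ⟨ε₀, hε₀, fun A R => ?_⟩
  obtain ⟨t₀, ht₀, hall⟩ := hall ε₀ hε₀ le_rfl A R
  refine ⟨t₀, ht₀, fun t ht htt N μ kk l r Kn Dn hS L hL e' he' => ?_⟩
  obtain ⟨e₁, he₁, hall⟩ := hall t ht htt N μ kk l r Kn Dn hS L hL
  have he : 0 < min (min e₁ w) e' := lt_min (lt_min he₁ hw0) he'
  have hM := torus_large (C := C) (lt_of_lt_of_le (by norm_num) h1) h3 hw (by linarith only [hc, hc', hwc]) hC0 hwC hS
  obtain ⟨m, ζ, hm⟩ := hst (2 ^ μ) E (min (min e₁ w) e') w hE.le he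
    ((min_le_left _ _).trans (min_le_right _ _)) hwc hM
  refine ⟨min (min e₁ w) e', m, ζ, min_le_right _ _, ?_,
    hall (min (min e₁ w) e') he ((min_le_left _ _).trans (min_le_left _ _)) m ζ hm⟩
  exact ⟨⟨⟨h1, h3⟩, hk, hα, hβ₀, hw, hE, hε₀, ht, hS, hL⟩, he, hm⟩

end Pool.Agent.ACX.H28
end
end -- Pool.Agent.Helper28_ACX.Elim

section -- Pool.Agent.Helper38_ACX.Weg

/-!
# ACX: `ψ_x(U) = Im G_xx(U, E + i f)` on the torus, spectral averaging (helper38)
-/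

set_option autoImplicit false

open MeasureTheory ProbabilityTheory

open scoped BigOperators NNReal ENNReal Matrix

noncomputable section

namespace Pool.Agent.ACX.H38

open Pool.Agent.BED (Tor adj)
open Pool.Agent.ANR (Gr Net)
open Pool.Agent.ANP (gm)
open Pool.Agent.AND2B (Hr res)
open Pool.Agent.HSL67 Pool.Agent.HSL14
open Pool.Agent.LE.QD (rs hz)

variable {d M : ℕ} [NeZero M]

/-- `Im G_xx(U, E + i f)` -/
def psi (E f : ℝ) (U : Tor d M → ℝ) (x : Tor d M) : ℝ := (Gr (Hr U E) (fun _ => f) x x).im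

theorem adj_sym (x y : Tor d M) : adj d M x y = adj d M y x := by
  unfold adj
  simp only [Matrix.of_apply]
  refine Finset.sum_congr rfl fun i _ => ?_
  have e1 : (y = x + BED.ev i) ↔ (x = y - BED.ev i) := by
    constructor
    · rintro rfl
      abel
    · rintro rfl
      abel
  have e2 : (y = x - BED.ev i) ↔ (x = y + BED.ev i) := by
    constructor
    · rintro rfl
      abel
    · rintro rfl
      abel
  simp only [e1, e2]
  ring

theorem hr_sym (U : Tor d M → ℝ) (E : ℝ) (x y : Tor d M) : Hr U E x y = Hr U E y x := by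
  unfold Hr
  rw [Matrix.add_apply, Matrix.add_apply, adj_sym x y]
  congr 1
  by_cases hxy : x = y
  · subst hxy; rfl
  · rw [Matrix.diagonal_apply_ne _ hxy, Matrix.diagonal_apply_ne _ (Ne.symm hxy)]

theorem net_c (U : Tor d M → ℝ) (E : ℝ) {f : ℝ} (hf : 0 < f) : Net (Hr U E) (fun _ => f) :=
  ⟨hr_sym U E, fun _ => hf⟩

theorem hr_add (U : Tor d M → ℝ) (E : ℝ) : Hr U E = addV (Hr 0 E) U := by
  unfold addV Hr
  rw [add_assoc, Matrix.diagonal_add]
  congr 2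
  funext x
  simp only [Pi.zero_apply]
  ring

/-- the resolvent of the network with constant absorption is the resolvent at `E + i f` -/
theorem gr_rs (U : Tor d M → ℝ) (E f : ℝ) : Gr (Hr U E) (fun _ => f) = rs U ⟨E, f⟩ := by
  unfold Gr rs hz
  congr 1
  ext x y
  simp only [Hr, Matrix.sub_apply, Matrix.map_apply, Matrix.add_apply]
  by_cases hxy : x = y
  · subst hxy
    simp only [Matrix.diagonal_apply_eq, Complex.ofReal_add, Complex.ofReal_sub]
    have : (⟨E, f⟩ : ℂ) = E + Complex.I * f := by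
      apply Complex.ext <;> simp
    rw [this]
    ring
  · simp only [Matrix.diagonal_apply_ne _ hxy]
    push_cast
    ring

theorem psi_rs (E f : ℝ) (U : Tor d M → ℝ) (x : Tor d M) :
    psi E f U x = (rs U ⟨E, f⟩ x x).im := by
  unfold psi
  rw [gr_rs]

theorem gr_cont' (E : ℝ) {f : ℝ} (hf : 0 < f) (x y : Tor d M) :
    Continuous fun U : Tor d M → ℝ => Gr (Hr U E) (fun _ => f) x y := by
  have h := gr_cont (net_c (0 : Tor d M → ℝ) E hf) x y
  simp only [← hr_add] at h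
  exact h

theorem psi_cont (E : ℝ) {f : ℝ} (hf : 0 < f) (x : Tor d M) :
    Continuous fun U : Tor d M → ℝ => psi E f U x :=
  Complex.continuous_im.comp (gr_cont' E hf x x)

theorem psi_meas (E : ℝ) {f : ℝ} (hf : 0 < f) (x : Tor d M) :
    Measurable fun U : Tor d M → ℝ => psi E f U x := (psi_cont E hf x).measurable

/-- the row masses -/
theorem psi_row (E : ℝ) {f : ℝ} (hf : 0 < f) (U : Tor d M → ℝ) (x : Tor d M) :
    psi E f U x = f * ∑ y, ‖Gr (Hr U E) (fun _ => f) x y‖ ^ 2 := by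
  have h := ward_diag (hr_sym U E) (mat_unit (net_c U E hf)) x
  rw [Finset.mul_sum]
  exact h.symm

theorem psi_nonneg (E : ℝ) {f : ℝ} (hf : 0 < f) (U : Tor d M → ℝ) (x : Tor d M) :
    0 ≤ psi E f U x := by
  rw [psi_row E hf]
  exact mul_nonneg hf.le (Finset.sum_nonneg fun _ _ => sq_nonneg _)

theorem psi_diag (E : ℝ) {f : ℝ} (hf : 0 < f) (U : Tor d M → ℝ) (x : Tor d M) :
    ‖Gr (Hr U E) (fun _ => f) x x‖ ≤ 1 / f := by
  have h1 := psi_row E hf U x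
  have h2 : ‖Gr (Hr U E) (fun _ => f) x x‖ ^ 2 ≤ ∑ y, ‖Gr (Hr U E) (fun _ => f) x y‖ ^ 2 :=
    Finset.single_le_sum (f := fun y => ‖Gr (Hr U E) (fun _ => f) x y‖ ^ 2)
      (fun _ _ => sq_nonneg _) (Finset.mem_univ x)
  have h3 : psi E f U x ≤ ‖Gr (Hr U E) (fun _ => f) x x‖ :=
    (le_abs_self _).trans (Complex.abs_im_le_norm _)
  have h4 := mul_le_mul_of_nonneg_left h2 hf.le
  rw [← h1] at h4
  have h5 : f * ‖Gr (Hr U E) (fun _ => f) x x‖ ^ 2 ≤ ‖Gr (Hr U E) (fun _ => f) x x‖ := h4.trans h3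
  rw [le_div_iff₀ hf]
  rcases (norm_nonneg (Gr (Hr U E) (fun _ => f) x x)).lt_or_eq with h | h
  · nlinarith
  · rw [← h]
    norm_num

theorem psi_le (E : ℝ) {f : ℝ} (hf : 0 < f) (U : Tor d M → ℝ) (x : Tor d M) :
    psi E f U x ≤ 1 / f :=
  ((le_abs_self _).trans (Complex.abs_im_le_norm _)).trans (psi_diag E hf U x)

theorem psi_pos (E : ℝ) {f : ℝ} (hf : 0 < f) (U : Tor d M → ℝ) (x : Tor d M) :
    0 < psi E f U x := by
  rcases (psi_nonneg E hf U x).lt_or_eq with h | h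
  · exact h
  · exfalso
    rw [psi_row E hf] at h
    have h1 : ∑ y, ‖Gr (Hr U E) (fun _ => f) x y‖ ^ 2 = 0 := by
      rcases mul_eq_zero.1 h.symm with h' | h'
      · exact absurd h' hf.ne'
      · exact h'
    have h2 : ∀ y, Gr (Hr U E) (fun _ => f) x y = 0 := by
      intro y
      have h3 := (Finset.sum_eq_zero_iff_of_nonneg (fun y _ => sq_nonneg
        ‖Gr (Hr U E) (fun _ => f) x y‖)).1 h1 y (Finset.mem_univ y)
      simpa using h3
    have h3 : (Gr (Hr U E) (fun _ => f) * mat (Hr U E) fun _ => f) x x = 1 := by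
      rw [gr_eq, Matrix.nonsing_inv_mul _ (mat_unit (net_c U E hf)), Matrix.one_apply_eq]
    rw [Matrix.mul_apply] at h3
    simp [h2] at h3

theorem psi_integrable (E : ℝ) {f : ℝ} (hf : 0 < f) (x : Tor d M)
    (μ : Measure (Tor d M → ℝ)) [IsFiniteMeasure μ] : Integrable (fun U => psi E f U x) μ := by
  refine Integrable.of_bound (psi_meas E hf x).aestronglyMeasurable (1 / f)
    (Filter.Eventually.of_forall fun U => ?_)
  rw [Real.norm_eq_abs, abs_of_nonneg (psi_nonneg E hf U x)]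
  exact psi_le E hf U x

instance (a : Tor d M → ℝ) (r : Tor d M → ℝ≥0) : IsProbabilityMeasure (gm a r) := by
  unfold gm
  infer_instance

/-- SPECTRAL AVERAGING, lintegral form -/
theorem psi_lint (E : ℝ) {f : ℝ} (hf : 0 < f) (a : Tor d M → ℝ) (r : Tor d M → ℝ≥0)
    (x : Tor d M) (hr : 0 < r x) :
    ∫⁻ U, ENNReal.ofReal (psi E f U x) ∂(gm a r) ≤
      ENNReal.ofReal (Real.sqrt (Real.pi / (2 * r x))) := by
  have h := wgn (net_c (0 : Tor d M → ℝ) E hf) a r x (r₀ := (r x : ℝ)) (by exact_mod_cast hr) le_rfl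
  simp only [← hr_add] at h
  exact h

/-- SPECTRAL AVERAGING -/
theorem psi_int (E : ℝ) {f : ℝ} (hf : 0 < f) (a : Tor d M → ℝ) (r : Tor d M → ℝ≥0)
    (x : Tor d M) (hr : 0 < r x) :
    ∫ U, psi E f U x ∂(gm a r) ≤ Real.sqrt (Real.pi / (2 * r x)) := by
  rw [integral_eq_lintegral_of_nonneg_ae
    (Filter.Eventually.of_forall fun U => psi_nonneg E hf U x)
    (psi_meas E hf x).aestronglyMeasurable]
  exact ENNReal.toReal_le_of_le_ofReal (Real.sqrt_nonneg _) (psi_lint E hf a r x hr)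

theorem psi_int2 (E : ℝ) {f : ℝ} (hf : 0 < f) (a : Tor d M → ℝ) (r : Tor d M → ℝ≥0)
    (x : Tor d M) (hr : 0 < r x) :
    ∫ U, psi E f U x ∂(gm a r) ≤ 2 / Real.sqrt (r x) := by
  refine (psi_int E hf a r x hr).trans ?_
  have hr' : (0 : ℝ) < r x := by exact_mod_cast hr
  have h1 : (0 : ℝ) < Real.sqrt (r x) := Real.sqrt_pos.2 hr'
  rw [le_div_iff₀ h1, ← Real.sqrt_mul (by positivity)]
  have h2 : Real.pi / (2 * (r x : ℝ)) * r x = Real.pi / 2 := by
    field_simp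
  rw [h2]
  have h3 : Real.sqrt (Real.pi / 2) ≤ Real.sqrt (2 ^ 2) :=
    Real.sqrt_le_sqrt (by have := Real.pi_lt_four; linarith)
  rwa [Real.sqrt_sq (by norm_num)] at h3

/-- SPECTRAL AVERAGING with a lower bound for the variance -/
theorem psi_int3 (E : ℝ) {f : ℝ} (hf : 0 < f) (a : Tor d M → ℝ) (r : Tor d M → ℝ≥0)
    (x : Tor d M) {r₀ : ℝ} (h0 : 0 < r₀) (hr : r₀ ≤ r x) :
    ∫ U, psi E f U x ∂(gm a r) ≤ 2 / Real.sqrt r₀ := by
  have hr' : 0 < r x := by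
    have : (0 : ℝ) < r x := h0.trans_le hr
    exact_mod_cast this
  exact (psi_int2 E hf a r x hr').trans
    (div_le_div_of_nonneg_left (by norm_num) (Real.sqrt_pos.2 h0) (Real.sqrt_le_sqrt hr))

/-- the sum over a finite set -/
theorem psi_sum (E : ℝ) {f : ℝ} (hf : 0 < f) (a : Tor d M → ℝ) (r : Tor d M → ℝ≥0)
    (S : Finset (Tor d M)) {r₀ : ℝ} (h0 : 0 < r₀) (hr : ∀ x ∈ S, r₀ ≤ r x) :
    ∫ U, (∑ x ∈ S, psi E f U x) ∂(gm a r) ≤ S.card * (2 / Real.sqrt r₀) := by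
  rw [integral_finsetSum _ fun x _ => psi_integrable E hf x _]
  refine (Finset.sum_le_card_nsmul _ _ _ fun x hx => psi_int3 E hf a r x h0 (hr x hx)).trans ?_
  rw [nsmul_eq_mul]

end Pool.Agent.ACX.H38
end
end -- Pool.Agent.Helper38_ACX.Weg

section -- Pool.Agent.Helper48_ACX.P6

/-!
# ACX, row P6: the number of the dead sites of the whole torus; the first potential is small

`dead_count`: from the density of the dead sites in the blocks and `Scal.ds`, `Scal.dM`: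
`16 * #dead ≤ #X`. `start_tail`: under `gm 0 f` the potential is at most `w²` at all sites with the
probability `≥ 15/16`, if `f ≤ t₁(w, C, d)` and the torus has the side `2^μ ≤ f^(-C)`.
-/

set_option autoImplicit false

open MeasureTheory ProbabilityTheory

open scoped BigOperators NNReal ENNReal

noncomputable section

namespace Pool.Agent.ACX.H48

open Pool.Agent.BED (Tor gau)
open Pool.Agent.AND2B (Scal Gt sg cl)
open Pool.Agent.ANP (Geo gm)
open Pool.Agent.ANP.H61 (rnd geoT neZ pi_card rnd_idem rnd_nest val_rnd sub1)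

/-! ### the number of the blocks of the torus -/

variable {μ : ℕ}

/-- the number of the blocks of side `2 ^ j` in one coordinate -/
theorem rnd_all (j : ℕ) : ((Finset.univ : Finset (ZMod (2 ^ μ))).image (rnd j)).card ≤
    2 ^ (μ - j) := by
  have h0 : ∀ (k : ℕ), μ ≤ k → ∀ b : ZMod (2 ^ μ), rnd k b = 0 := by
    intro k hk b
    unfold rnd
    have h1 : b.val < 2 ^ k := lt_of_lt_of_le (ZMod.val_lt b) (Nat.pow_le_pow_right (by norm_num) hk)
    rw [Nat.div_eq_of_lt h1]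
    simp
  rcases le_total j μ with hj | hj
  · refine (Finset.card_le_card ?_).trans (sub1 (μ := μ) j μ hj 0)
    intro c hc
    obtain ⟨b, -, rfl⟩ := Finset.mem_image.1 hc
    refine Finset.mem_filter.2 ⟨Finset.mem_univ _, rnd_idem j b, h0 μ le_rfl _⟩
  · have h1 : (Finset.univ : Finset (ZMod (2 ^ μ))).image (rnd j) ⊆ {0} := by
      intro c hc
      obtain ⟨b, -, rfl⟩ := Finset.mem_image.1 hc
      rw [h0 j hj b]
      exact Finset.mem_singleton_self _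
    refine (Finset.card_le_card h1).trans ?_
    rw [Finset.card_singleton]
    exact Nat.one_le_two_pow

variable {d : ℕ}

/-- one level -/
theorem all_level (l ρ : ℕ → ℕ) (J N j : ℕ) (S : Finset (Tor d (2 ^ μ))) (D : ℕ)
    (hS : ∀ B, (S ∩ (geoT d μ l ρ J N).blk j B).card ≤ D) :
    S.card ≤ (2 ^ (μ - l j)) ^ d * D := by
  set Γ := geoT d μ l ρ J N with hΓ
  set I := (Finset.univ : Finset (Tor d (2 ^ μ))).image (Γ.bl j) with hI
  have h1 : I.card ≤ (2 ^ (μ - l j)) ^ d := by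
    refine pi_card I (fun _ => (Finset.univ : Finset (ZMod (2 ^ μ))).image (rnd (l j))) _ ?_
      (fun _ => rnd_all (l j))
    intro y hy i
    obtain ⟨x, -, rfl⟩ := Finset.mem_image.1 hy
    exact Finset.mem_image.2 ⟨x i, Finset.mem_univ _, rfl⟩
  have h2 : S ⊆ I.biUnion fun B => S ∩ Γ.blk j B := by
    intro x hx
    rw [Finset.mem_biUnion]
    refine ⟨Γ.bl j x, Finset.mem_image.2 ⟨x, Finset.mem_univ _, rfl⟩, ?_⟩
    rw [Finset.mem_inter]
    refine ⟨hx, ?_⟩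
    unfold Geo.blk
    exact Finset.mem_filter.2 ⟨Finset.mem_univ _, rfl⟩
  calc S.card ≤ (I.biUnion fun B => S ∩ Γ.blk j B).card := Finset.card_le_card h2
    _ ≤ ∑ B ∈ I, (S ∩ Γ.blk j B).card := Finset.card_biUnion_le
    _ ≤ ∑ _B ∈ I, D := Finset.sum_le_sum fun B _ => hS B
    _ = I.card * D := by rw [Finset.sum_const, smul_eq_mul]
    _ ≤ _ := Nat.mul_le_mul_right _ h1

theorem card_tor : (Fintype.card (Tor d (2 ^ μ)) : ℝ) = ((2 : ℝ) ^ μ) ^ d := by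
  have := IR.H85A.card_tor (d := d) (M := 2 ^ μ)
  rw [this]
  push_cast
  rfl

/-- DEAD COUNT, numbers -/
theorem dead_count' (hd : 3 ≤ d) (l ρ Dn : ℕ → ℕ) (J N n : ℕ)
    (hs : ∑ i ∈ Finset.range (n + 1), (3 ^ d * Dn i : ℝ) / 2 ^ l i ≤ 1 / 4)
    (hM : 16 * (1 + 2 * ∑ i ∈ Finset.range (n + 1), (3 ^ d * Dn i : ℝ)) ≤ 2 ^ μ)
    (dd : ℕ → Finset (Tor d (2 ^ μ)))
    (hdd : ∀ j B, (dd j ∩ (geoT d μ l ρ J N).blk j B).card ≤ Dn j)
    (S : Finset (Tor d (2 ^ μ))) (hS : ∀ x ∈ S, ∃ j ≤ n, x ∈ dd j) :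
    16 * S.card ≤ Fintype.card (Tor d (2 ^ μ)) := by
  have h1 : S ⊆ (Finset.range (n + 1)).biUnion dd := by
    intro x hx
    obtain ⟨j, hj, hxj⟩ := hS x hx
    rw [Finset.mem_biUnion]
    exact ⟨j, Finset.mem_range.2 (by omega), hxj⟩
  have h2 : S.card ≤ ∑ j ∈ Finset.range (n + 1), (2 ^ (μ - l j)) ^ d * Dn j :=
    (Finset.card_le_card h1).trans (Finset.card_biUnion_le.trans
      (Finset.sum_le_sum fun j _ => all_level l ρ J N j (dd j) (Dn j) (hdd j)))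
  have hX0 : (0 : ℝ) < 2 ^ μ := by positivity
  have h3d : (27 : ℝ) ≤ 3 ^ d := by
    calc (27 : ℝ) = 3 ^ 3 := by norm_num
      _ ≤ 3 ^ d := pow_le_pow_right₀ (by norm_num) hd
  have h3 : ∀ j ∈ Finset.range (n + 1), (((2 ^ (μ - l j)) ^ d * Dn j : ℕ) : ℝ) ≤
      ((2 : ℝ) ^ μ) ^ d / 27 * ((3 ^ d * Dn j : ℝ) / 2 ^ l j + (3 ^ d * Dn j : ℝ) / 2 ^ μ) := by
    intro j _
    push_cast
    have hD0 : (0 : ℝ) ≤ Dn j := by positivity
    have hp : (0 : ℝ) < 2 ^ l j := by positivity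
    rcases le_total (l j) μ with hj | hj
    · have e1 : (2 : ℝ) ^ μ = 2 ^ (μ - l j) * 2 ^ l j := by
        rw [← pow_add, Nat.sub_add_cancel hj]
      have e2 : (2 : ℝ) ^ l j ≤ ((2 : ℝ) ^ l j) ^ d :=
        le_self_pow₀ (one_le_pow₀ (by norm_num)) (by omega)
      have e3 : ((2 : ℝ) ^ (μ - l j)) ^ d * Dn j ≤
          ((2 : ℝ) ^ μ) ^ d / 27 * ((3 ^ d * Dn j : ℝ) / 2 ^ l j) := by
        rw [e1, mul_pow]
        have e4 : ((2 : ℝ) ^ (μ - l j)) ^ d * ((2 : ℝ) ^ l j) ^ d / 27 *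
            (3 ^ d * Dn j / 2 ^ l j) = (((2 : ℝ) ^ (μ - l j)) ^ d * Dn j) *
            ((3 ^ d / 27) * (((2 : ℝ) ^ l j) ^ d / 2 ^ l j)) := by ring
        rw [e4]
        have e5 : 1 ≤ (3 ^ d / 27) * (((2 : ℝ) ^ l j) ^ d / 2 ^ l j) := by
          have f1 : (1 : ℝ) ≤ 3 ^ d / 27 := by rw [one_le_div (by norm_num)]; exact h3d
          have f2 : 1 ≤ ((2 : ℝ) ^ l j) ^ d / 2 ^ l j := by rw [one_le_div hp]; exact e2
          nlinarith only [h3d, f2]
        exact le_mul_of_one_le_right (by positivity) e5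
      have e6 : (0 : ℝ) ≤ ((2 : ℝ) ^ μ) ^ d / 27 * ((3 ^ d * Dn j : ℝ) / 2 ^ μ) := by positivity
      rw [mul_add]
      linarith only [e3, e6]
    · have e1 : μ - l j = 0 := by omega
      rw [e1, pow_zero, one_pow, one_mul]
      have e2 : (2 : ℝ) ^ μ ≤ ((2 : ℝ) ^ μ) ^ d :=
        le_self_pow₀ (one_le_pow₀ (by norm_num)) (by omega)
      have e3 : (Dn j : ℝ) ≤ ((2 : ℝ) ^ μ) ^ d / 27 * ((3 ^ d * Dn j : ℝ) / 2 ^ μ) := by
        have e4 : ((2 : ℝ) ^ μ) ^ d / 27 * ((3 ^ d * Dn j : ℝ) / 2 ^ μ) =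
            Dn j * ((3 ^ d / 27) * (((2 : ℝ) ^ μ) ^ d / 2 ^ μ)) := by ring
        rw [e4]
        refine le_mul_of_one_le_right hD0 ?_
        have f1 : (1 : ℝ) ≤ 3 ^ d / 27 := by rw [one_le_div (by norm_num)]; exact h3d
        have f2 : 1 ≤ ((2 : ℝ) ^ μ) ^ d / 2 ^ μ := by rw [one_le_div hX0]; exact e2
        nlinarith only [h3d, f2]
      have e6 : (0 : ℝ) ≤ ((2 : ℝ) ^ μ) ^ d / 27 * ((3 ^ d * Dn j : ℝ) / 2 ^ l j) := by positivity
      rw [mul_add]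
      linarith only [e3, e6]
  have h4 : (S.card : ℝ) ≤ ((2 : ℝ) ^ μ) ^ d / 27 * (1 / 4 + 1 / 32) := by
    calc (S.card : ℝ) ≤ ((∑ j ∈ Finset.range (n + 1), (2 ^ (μ - l j)) ^ d * Dn j : ℕ) : ℝ) := by
          exact_mod_cast h2
      _ = ∑ j ∈ Finset.range (n + 1), (((2 ^ (μ - l j)) ^ d * Dn j : ℕ) : ℝ) := by
          push_cast
          rfl
      _ ≤ ∑ j ∈ Finset.range (n + 1), ((2 : ℝ) ^ μ) ^ d / 27 *
            ((3 ^ d * Dn j : ℝ) / 2 ^ l j + (3 ^ d * Dn j : ℝ) / 2 ^ μ) := Finset.sum_le_sum h3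
      _ = ((2 : ℝ) ^ μ) ^ d / 27 * (∑ j ∈ Finset.range (n + 1), (3 ^ d * Dn j : ℝ) / 2 ^ l j +
            (∑ j ∈ Finset.range (n + 1), (3 ^ d * Dn j : ℝ)) / 2 ^ μ) := by
          rw [← Finset.mul_sum, Finset.sum_add_distrib, Finset.sum_div]
      _ ≤ _ := by
          refine mul_le_mul_of_nonneg_left (add_le_add hs ?_) (by positivity)
          rw [div_le_iff₀ hX0]
          linarith only [hM]
  have h5 : (0 : ℝ) < ((2 : ℝ) ^ μ) ^ d := by positivity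
  have h6 : (16 * S.card : ℝ) ≤ Fintype.card (Tor d (2 ^ μ)) := by
    rw [card_tor]
    linarith only [h4, h5]
  exact_mod_cast h6

/-- DEAD COUNT: on the torus of `Scal`, at the end (levels `≤ N + 1`) -/
theorem dead_count (hd : 3 ≤ d) {th : ℝ≥0} {c₁ C₁ : ℝ} {α J : ℕ} {β : ℝ} {w : ℝ≥0} {t : ℝ}
    {N : ℕ} {kk l r Kn Dn : ℕ → ℕ} (hS : Scal d th c₁ C₁ α J β w t N μ kk l r Kn Dn) {n : ℕ}
    (hn : n ≤ N + 1) {D : Finset (Tor d (2 ^ μ))}
    (hD : ∃ dd : ℕ → Finset (Tor d (2 ^ μ)), (∀ x ∈ D, ∃ j ≤ n, x ∈ dd j) ∧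
      ∀ j B, (dd j ∩ (Gt d μ J N l r).blk j B).card ≤ Dn j) :
    16 * D.card ≤ Fintype.card (Tor d (2 ^ μ)) := by
  obtain ⟨dd, h1, h2⟩ := hD
  refine dead_count' hd l (fun n => 2 ^ r n) Dn J N (N + 1) hS.ds hS.dM dd h2 D fun x hx => ?_
  obtain ⟨j, hj, hx⟩ := h1 x hx
  exact ⟨j, by omega, hx⟩

/-- the same from the facts of a configuration -/
theorem dead_fc (hd : 3 ≤ d) {th : ℝ≥0} {c₁ C₁ : ℝ} {α J : ℕ} {β : ℝ} {w : ℝ≥0} {t : ℝ}
    {N : ℕ} {kk l r Kn Dn : ℕ → ℕ} (hS : Scal d th c₁ C₁ α J β w t N μ kk l r Kn Dn) {n k : ℕ}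
    (hn : n ≤ N + 1) {cl' : ℕ → ℝ≥0} {P run : Finset (Tor d (2 ^ μ))}
    {T : ANP.Cfg (Tor d (2 ^ μ))} (hF : ANP.Fc (Gt d μ J N l r) kk cl' Dn n k P T run) :
    16 * (Finset.univ.filter fun x => T.s x = 0).card ≤ Fintype.card (Tor d (2 ^ μ)) := by
  obtain ⟨dd, h1, h2⟩ := hF.dens
  exact dead_count hd hS hn ⟨dd, fun x hx => h1 x (Finset.mem_filter.1 hx).2, h2⟩

/-! ### the first potential -/

/-- the first potential is small -/
theorem start_tail (d : ℕ) (w C : ℝ) (hw : 0 < w) : ∃ t₁ : ℝ, 0 < t₁ ∧ t₁ ≤ 1 ∧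
    ∀ (f : ℝ≥0) (μ : ℕ), 0 < f → (f : ℝ) ≤ t₁ → (2 ^ μ : ℝ) ≤ (f : ℝ) ^ (-C) →
      gm (fun _ : Tor d (2 ^ μ) => 0) (fun _ => f) {V | ¬ ∀ x, |V x| ≤ w ^ 2} ≤
        ENNReal.ofReal (1 / 16) := by
  have h1 := AND.Num.small_exp 2 (w ^ 4 / 2) 1 (C * d) (1 / 2) (by positivity) one_pos
    (by norm_num)
  have h2 := AND.Num.small_const 16 (1 / 2) (by norm_num)
  obtain ⟨t₁, ht, ht1, h⟩ := (h1.and h2).ex
  refine ⟨t₁, ht, ht1, fun f μ hf hft hμ => ?_⟩
  have hf0 : (0 : ℝ) < f := by exact_mod_cast hf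
  obtain ⟨h3, h4⟩ := h f hf0 hft
  have h5 := IR.H85A.gau_tail (d := d) (M := 2 ^ μ) hf (s := w ^ 2) (by positivity)
  refine h5.trans (ENNReal.ofReal_le_ofReal ?_)
  have e1 : (((2 ^ μ : ℕ) : ℝ)) ^ d ≤ (f : ℝ) ^ (-(C * d)) := by
    push_cast
    calc ((2 : ℝ) ^ μ) ^ d ≤ ((f : ℝ) ^ (-C)) ^ d := pow_le_pow_left₀ (by positivity) hμ d
      _ = (f : ℝ) ^ (-(C * d)) := by
          rw [← Real.rpow_natCast, ← Real.rpow_mul hf0.le]
          congr 1
          ring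
  have e2 : -((w ^ 2) ^ 2 / (2 * (f : ℝ))) = -(w ^ 4 / 2 * (f : ℝ) ^ (-(1 : ℝ))) := by
    rw [Real.rpow_neg_one]
    field_simp
  have e3 : Real.exp (-((f : ℝ) ^ (-(1 / 2 : ℝ)))) ≤ 1 / 16 := by
    have f1 := Real.add_one_le_exp ((f : ℝ) ^ (-(1 / 2 : ℝ)))
    rw [Real.exp_neg]
    rw [inv_le_comm₀ (Real.exp_pos _) (by norm_num)]
    norm_num at f1 h4 ⊢
    linarith only [f1, h4]
  calc (((2 ^ μ : ℕ) : ℝ)) ^ d * (2 * Real.exp (-((w ^ 2) ^ 2 / (2 * (f : ℝ))))) ≤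
        (f : ℝ) ^ (-(C * d)) * (2 * Real.exp (-((w ^ 2) ^ 2 / (2 * (f : ℝ))))) :=
        mul_le_mul_of_nonneg_right e1 (by positivity)
    _ = 2 * (f : ℝ) ^ (-(C * d)) * Real.exp (-(w ^ 4 / 2 * (f : ℝ) ^ (-(1 : ℝ)))) := by
        rw [e2]
        ring
    _ ≤ Real.exp (-((f : ℝ) ^ (-(1 / 2 : ℝ)))) := h3
    _ ≤ 1 / 16 := e3

end Pool.Agent.ACX.H48
end
end -- Pool.Agent.Helper48_ACX.P6

section -- Pool.Agent.Helper54_AHH.INI

/-!
# AHH, row INI: the first configuration is good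

`ini_st`: `Start2` gives `StN` for the configuration `⟨0, w, m⟩`, all sites running.
-/

set_option autoImplicit false
set_option linter.unusedSectionVars false

open scoped BigOperators NNReal Matrix

noncomputable section

namespace Pool.Agent.AHH.H54

open Pool.Agent.BED (Tor)
open Pool.Agent.LE.QF (BB KK Dl qf)
open Pool.Agent.LE.QD (rs hz)
open Pool.Agent.AND2B (net kap Viol res Hr Vef)
open Pool.Agent.ANP (Cfg Geo Fc)
open Pool.Agent.AFJ (ind LaR EE cd)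
open Pool.Agent.ABY (vir TT dg)
open Pool.Agent.LTG (Fm Bd sT tT qd LB UB mor bon wl wu)
open Pool.Agent.ANI (Start Start2)

variable {d M : ℕ} [NeZero M]

/-- the first configuration -/
def T0 (w : ℝ≥0) (m : ℂ) : Cfg (Tor d M) := ⟨fun _ => 0, fun _ => w, fun _ => m⟩

theorem kap0 (e₀ : ℝ) (w : ℝ≥0) (m : ℂ) (x : Tor d M) : kap e₀ (T0 w m) x = e₀ + w * m.im := rfl

theorem al0 {w : ℝ≥0} (hw : 0 < w) (m : ℂ) : Al (T0 w m : Cfg (Tor d M)) = Finset.univ := by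
  unfold Al T0
  exact Finset.filter_true_of_mem fun _ _ => hw

/-- the first resolvent -/
theorem net0 (E e₀ : ℝ) (w : ℝ≥0) (m ζ : ℂ) (hζ : ζ = ⟨E, e₀⟩ + ((w : ℝ) : ℂ) * m) :
    net E e₀ (T0 w m : Cfg (Tor d M)) = rs (0 : Tor d M → ℝ) ζ := by
  unfold net res Pool.Agent.ANR.Gr rs hz
  congr 1
  have hm : (0 : ℝ) - w * m.re = -(w * m.re) := by ring
  ext x y
  simp only [Hr, Matrix.sub_apply, Matrix.map_apply, Matrix.add_apply, Matrix.diagonal_apply,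
    Vef, T0, kap, Pi.zero_apply]
  split_ifs with h
  · rw [hζ]
    apply Complex.ext
    · simp
      ring
    · simp
  · simp

theorem pv0 (w : ℝ≥0) (m : ℂ) : pv (T0 w m : Cfg (Tor d M)) Finset.univ w = 0 := by
  funext x
  unfold pv T0
  simp

theorem vir0 {𝕜 : Type} [RCLike 𝕜] {X : Type} [Fintype X] [DecidableEq X] (K : Matrix X X 𝕜)
    (v : X → ℝ) (a : X) : vir K 0 v a = ∑ b, K a b * ((v b : ℝ) : 𝕜) := by
  unfold vir TT
  have h1 : dg 𝕜 (0 : X → ℝ) = 0 := by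
    unfold dg
    ext i j
    simp [Matrix.diagonal_apply]
  rw [h1, mul_zero, sub_zero, inv_one, Matrix.one_mulVec]
  rfl

theorem pw0 (w : ℝ≥0) (m : ℂ) (x : Tor d M) :
    pw (T0 w m : Cfg (Tor d M)) Finset.univ w x = w * m.im := by
  unfold pw gg T0 ind
  simp

theorem yy0 (E e₀ : ℝ) (w : ℝ≥0) (m ζ : ℂ) (hζ : ζ = ⟨E, e₀⟩ + ((w : ℝ) : ℂ) * m)
    (hm : 0 ≤ m.im) (a : Tor d M) :
    yy E e₀ (T0 w m : Cfg (Tor d M)) Finset.univ w a =
      (w * m.im) * (‖∑ b, rs (0 : Tor d M → ℝ) ζ a b ^ 2‖ +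
        ∑ b, ‖rs (0 : Tor d M → ℝ) ζ a b‖ ^ 2) := by
  unfold yy
  rw [pv0, vir0, vir0, net0 E e₀ w m ζ hζ]
  have hw : (0 : ℝ) ≤ w * m.im := mul_nonneg w.2 hm
  have h1 : ∑ b, BB (rs (0 : Tor d M → ℝ) ζ) a b *
      ((pw (T0 w m : Cfg (Tor d M)) Finset.univ w b : ℝ) : ℂ) =
      ((w * m.im : ℝ) : ℂ) * ∑ b, rs (0 : Tor d M → ℝ) ζ a b ^ 2 := by
    rw [Finset.mul_sum]
    refine Finset.sum_congr rfl fun b _ => ?_
    rw [pw0]
    unfold BB
    ring
  have h2 : ∑ b, KK (rs (0 : Tor d M → ℝ) ζ) a b *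
      ((pw (T0 w m : Cfg (Tor d M)) Finset.univ w b : ℝ) : ℝ) =
      (w * m.im) * ∑ b, ‖rs (0 : Tor d M → ℝ) ζ a b‖ ^ 2 := by
    rw [Finset.mul_sum]
    refine Finset.sum_congr rfl fun b _ => ?_
    rw [pw0]
    unfold KK
    ring
  have h3 : (∑ b, KK (rs (0 : Tor d M → ℝ) ζ) a b *
      (RCLike.ofReal (pw (T0 w m : Cfg (Tor d M)) Finset.univ w b) : ℝ)) =
      (w * m.im) * ∑ b, ‖rs (0 : Tor d M → ℝ) ζ a b‖ ^ 2 := h2
  have h4 : (∑ b, BB (rs (0 : Tor d M → ℝ) ζ) a b *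
      (RCLike.ofReal (pw (T0 w m : Cfg (Tor d M)) Finset.univ w b) : ℂ)) =
      ((w * m.im : ℝ) : ℂ) * ∑ b, rs (0 : Tor d M → ℝ) ζ a b ^ 2 := h1
  rw [h3, h4, norm_mul, Complex.norm_real, Real.norm_eq_abs, abs_of_nonneg hw]
  ring

/-- the form is the square of the absorption times the first form -/
theorem qd0 (E e₀ : ℝ) {w : ℝ≥0} (hw : 0 < w) (m ζ : ℂ) (hζ : ζ = ⟨E, e₀⟩ + ((w : ℝ) : ℂ) * m)
    (f : Tor d M → ℝ) :
    qd (Ef E e₀ (T0 w m : Cfg (Tor d M))) f =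
      (e₀ + w * m.im) ^ 2 * qf (Dl (KK (rs (0 : Tor d M → ℝ) ζ))) f := by
  unfold Ef
  rw [al0 hw, net0 E e₀ w m ζ hζ]
  have h1 : EE (rs (0 : Tor d M → ℝ) ζ) (kap e₀ (T0 w m : Cfg (Tor d M))) Finset.univ =
      (e₀ + w * m.im) ^ 2 • Dl (KK (rs (0 : Tor d M → ℝ) ζ)) := by
    unfold EE
    have h2 : cd (rs (0 : Tor d M → ℝ) ζ) (kap e₀ (T0 w m : Cfg (Tor d M))) Finset.univ =
        (e₀ + w * m.im) ^ 2 • KK (rs (0 : Tor d M → ℝ) ζ) := by
      ext x y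
      unfold cd
      rw [if_pos ⟨Finset.mem_univ _, Finset.mem_univ _⟩, kap0, kap0, Matrix.smul_apply,
        smul_eq_mul]
      ring
    rw [h2]
    unfold Dl
    ext x y
    simp only [Matrix.sub_apply, Matrix.smul_apply, Matrix.diagonal_apply, smul_eq_mul]
    split_ifs
    · rw [← Finset.mul_sum]
      ring
    · ring
  rw [h1]
  unfold qd qf
  rw [Finset.mul_sum]
  refine Finset.sum_congr rfl fun a _ => ?_
  rw [Matrix.smul_mulVec, Pi.smul_apply, smul_eq_mul]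
  ring

theorem bon0 (b : ℝ) (h : Tor d M → ℝ) :
    bon sT tT (fun _ : Bd d M => b) h = b * ∑ x, ∑ i, (h (x + Pi.single i 1) - h x) ^ 2 := by
  unfold bon
  rw [← Finset.mul_sum, Fintype.sum_prod_type_right]
  rfl

/-- the first form -/
theorem fm0 {E e₀ es c C D₁ : ℝ} {w : ℝ≥0} {m ζ : ℂ} (h : Start2 d M E e₀ w es m ζ c C)
    (hw : 0 < w) (he₀ : 0 < e₀) (he₀w : e₀ ≤ c * w) (hc : 0 < c) (_hc' : c ≤ 1 / 2) (hC : 1 ≤ C)
    (hws : (w : ℝ) ^ es ≤ 1 / 2) (hD : 4 * C ^ 3 / w ≤ D₁) :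
    Fm sT tT (Al (T0 w m : Cfg (Tor d M))) (ww e₀ (T0 w m)) (fun _ => 2 * (w : ℝ) ^ es)
      (fun _ => 1 - 1 / (2 * C)) (fun _ => c * (w : ℝ) ^ (8 * es - 1)) (fun _ => D₁)
      (qd (Ef E e₀ (T0 w m : Cfg (Tor d M)))) := by
  have hw0 : (0 : ℝ) < w := by exact_mod_cast hw
  have hg := h.hc.1
  have hg0 : 0 < m.im := lt_of_lt_of_le hc hg
  have hgC : m.im ≤ C := ((le_abs_self _).trans (Complex.abs_im_le_norm m)).trans h.hc.2
  obtain ⟨κ, hκ⟩ : ∃ κ : ℝ, κ = e₀ + w * m.im := ⟨_, rfl⟩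
  have hκ0 : 0 < κ := by rw [hκ]; positivity
  have hww : ∀ x : Tor d M, ww e₀ (T0 w m) x = κ * m.im := by
    intro x
    unfold ww gg
    rw [kap0, hκ]
    rfl
  have hpow : 0 < (w : ℝ) ^ es := Real.rpow_pos_of_pos hw0 es
  constructor
  · intro f
    obtain ⟨k, hk⟩ := h.hS f
    refine ⟨k, ?_⟩
    rw [qd0 E e₀ hw m ζ h.hz f]
    refine le_trans ?_ hk
    unfold mor
    rw [bon0]
    apply add_le_add _ le_rfl
    rw [Finset.mul_sum]
    apply Finset.sum_le_sum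
    intro x _
    apply mul_le_mul_of_nonneg_right _ (sq_nonneg _)
    unfold wl
    rw [al0 hw, if_pos (Finset.mem_univ _), hww, ← hκ, div_le_iff₀ (by positivity)]
    have h1 : 0 < κ * m.im := mul_pos hκ0 hg0
    have h2 : 1 ≤ (1 - (w : ℝ) ^ es) * (1 + 2 * (w : ℝ) ^ es) := by
      nlinarith only [hpow, hws]
    calc κ * m.im = κ * m.im * 1 := by ring
      _ ≤ κ * m.im * ((1 - (w : ℝ) ^ es) * (1 + 2 * (w : ℝ) ^ es)) :=
          mul_le_mul_of_nonneg_left h2 h1.le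
      _ = _ := by ring
  · intro f k
    have h1 := (h.hF f).2 k
    have h2 : qf ((w : ℝ) • Dl (KK (rs (0 : Tor d M → ℝ) ζ))) f =
        w * qf (Dl (KK (rs (0 : Tor d M → ℝ) ζ))) f := by
      unfold qf
      rw [Finset.mul_sum]
      refine Finset.sum_congr rfl fun a _ => ?_
      rw [Matrix.smul_mulVec, Pi.smul_apply, smul_eq_mul]
      ring
    rw [h2] at h1
    rw [qd0 E e₀ hw m ζ h.hz f, ← hκ]
    obtain ⟨S₁, hS₁⟩ : ∃ S₁ : ℝ, S₁ = ∑ x, (f x - k x) ^ 2 := ⟨_, rfl⟩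
    obtain ⟨S₂, hS₂⟩ : ∃ S₂ : ℝ, S₂ = ∑ x : Tor d M, ∑ i, (k (x + Pi.single i 1) - k x) ^ 2 :=
      ⟨_, rfl⟩
    have hS₁0 : 0 ≤ S₁ := by rw [hS₁]; exact Finset.sum_nonneg fun _ _ => sq_nonneg _
    have hS₂0 : 0 ≤ S₂ := by
      rw [hS₂]
      exact Finset.sum_nonneg fun _ _ => Finset.sum_nonneg fun _ _ => sq_nonneg _
    rw [← hS₁, ← hS₂] at h1
    have hmor : mor sT tT (wu (Al (T0 w m : Cfg (Tor d M))) (ww e₀ (T0 w m))
        (fun _ => 1 - 1 / (2 * C))) (fun _ => D₁) f k =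
        κ * m.im / (1 / (2 * C)) * S₁ + D₁ * S₂ := by
      unfold mor
      rw [bon0, ← hS₂, hS₁, Finset.mul_sum]
      congr 1
      apply Finset.sum_congr rfl
      intro x _
      unfold wu
      rw [al0 hw, if_pos (Finset.mem_univ _), hww, sub_sub_cancel]
    rw [hmor]
    have hκw : κ ≤ w * (2 * m.im) := by
      have h7 := mul_le_mul_of_nonneg_right hg hw0.le
      rw [hκ]
      linarith only [he₀w, h7]
    -- `κ² q ≤ κ² / w * C (S₁ + S₂ / w²)`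
    have h3 : κ ^ 2 * qf (Dl (KK (rs (0 : Tor d M → ℝ) ζ))) f ≤
        κ ^ 2 / w * (C * (S₁ + S₂ / (w : ℝ) ^ 2)) := by
      calc κ ^ 2 * qf (Dl (KK (rs (0 : Tor d M → ℝ) ζ))) f
          = κ ^ 2 / w * (w * qf (Dl (KK (rs (0 : Tor d M → ℝ) ζ))) f) := by
            field_simp
        _ ≤ _ := mul_le_mul_of_nonneg_left h1 (by positivity)
    refine h3.trans ?_
    have h4 : κ ^ 2 / w * C ≤ κ * m.im / (1 / (2 * C)) := by
      rw [div_div_eq_mul_div, div_one]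
      have h5 : κ / w ≤ 2 * m.im := by
        rw [div_le_iff₀ hw0]
        linarith only [hκw]
      calc κ ^ 2 / w * C = κ * C * (κ / w) := by ring
        _ ≤ κ * C * (2 * m.im) := mul_le_mul_of_nonneg_left h5 (by positivity)
        _ = κ * m.im * (2 * C) := by ring
    have h5 : κ ^ 2 / w * C / (w : ℝ) ^ 2 ≤ D₁ := by
      refine le_trans ?_ hD
      have h6 : κ ^ 2 ≤ (w * (2 * C)) ^ 2 := by
        apply pow_le_pow_left₀ hκ0.le
        refine hκw.trans (mul_le_mul_of_nonneg_left ?_ hw0.le)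
        linarith only [hgC]
      rw [div_le_div_iff₀ (by positivity) hw0]
      calc κ ^ 2 / w * C * w = κ ^ 2 * C := by field_simp
        _ ≤ (w * (2 * C)) ^ 2 * C := mul_le_mul_of_nonneg_right h6 (by positivity)
        _ = 4 * C ^ 3 * (w : ℝ) ^ 2 := by ring
    calc κ ^ 2 / w * (C * (S₁ + S₂ / (w : ℝ) ^ 2))
        = κ ^ 2 / w * C * S₁ + κ ^ 2 / w * C / (w : ℝ) ^ 2 * S₂ := by ring
      _ ≤ _ := add_le_add (mul_le_mul_of_nonneg_right h4 hS₁0)
          (mul_le_mul_of_nonneg_right h5 hS₂0)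

/-- INI: the first configuration is good -/
theorem ini_st (V : Env d M) (q : Num) {w : ℝ≥0} {es c C : ℝ} {ζ : ℂ}
    (h : Start2 d M V.E V.e₀ w es V.m₀ ζ c C) (hw : 0 < w) (he₀ : 0 < V.e₀) (he₀w : V.e₀ ≤ c * w)
    (hc : 0 < c) (hc' : c ≤ 1 / 2) (hC : 1 ≤ C) (hws : (w : ℝ) ^ es ≤ 1 / 2)
    (hG₀ : V.G₀ = rs (0 : Tor d M → ℝ) ζ) (hVc : V.c₀ ≤ c) (hVC : C ≤ V.C₀)
    (hD₀ : 0 ≤ V.D₀) (hD₀' : V.D₀ ≤ c * (w : ℝ) ^ (8 * es - 1)) (hD₁ : 4 * C ^ 3 / w ≤ V.D₁)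
    (hu₀ : 1 - 1 / (2 * C) ≤ V.u₀) (hdel : 0 ≤ q.del) (hmis : 0 ≤ q.mis)
    (hlam : (w : ℝ) ^ (-(2 / 3 + es)) ≤ q.lam) (htht : (w : ℝ) ^ (1 / 2 - es) ≤ q.tht)
    (heps : 2 * (w : ℝ) ^ es ≤ q.eps) (hrho : 0 ≤ q.rho) :
    StN V q w ⟨fun _ => 0, fun _ => w, fun _ => V.m₀⟩ Finset.univ := by
  have hw0 : (0 : ℝ) < w := by exact_mod_cast hw
  have hg0 : 0 < V.m₀.im := lt_of_lt_of_le hc h.hc.1
  have hnet := net0 (d := d) (M := M) V.E V.e₀ w V.m₀ ζ h.hz
  have hpow : 0 < (w : ℝ) ^ es := Real.rpow_pos_of_pos hw0 es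
  show StN V q w (T0 w V.m₀) Finset.univ
  refine ⟨?_, ?_, ?_, ?_, ?_, ?_, ?_⟩
  · intro x _
    refine ⟨hVc.trans h.hc.1, h.hc.2.trans hVC, ?_⟩
    have : (T0 w V.m₀ : Cfg (Tor d M)).mb x - V.m₀ = 0 := sub_self _
    rw [this, norm_zero]
    exact hdel
  · rw [al0 hw]
  · intro x _
    rw [hnet, h.hm x]
    have : V.m₀ - (T0 w V.m₀ : Cfg (Tor d M)).mb x = 0 := sub_self _
    rw [this, norm_zero]
    exact hmis
  · intro x _ y _
    rw [hnet, hG₀, sub_self, norm_zero]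
    exact hdel
  · intro x _
    rw [hnet]
    refine le_trans (le_of_eq ?_) ((h.hL x).trans hlam)
    unfold LaR KK
    refine Finset.sum_congr rfl fun y _ => ?_
    ring
  · intro a _
    rw [yy0 V.E V.e₀ w V.m₀ ζ h.hz hg0.le]
    have h1 : w * V.m₀.im * ‖∑ b, rs (0 : Tor d M → ℝ) ζ a b ^ 2‖ ≤
        V.m₀.im * (w : ℝ) ^ (1 / 2 - es) := by
      have h2 := mul_le_mul_of_nonneg_left (h.hB a) hg0.le
      linarith only [h2]
    have h2 : w * V.m₀.im * ∑ b, ‖rs (0 : Tor d M → ℝ) ζ a b‖ ^ 2 ≤ V.m₀.im := by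
      rw [h.hk a]
      have h3 : 0 < V.e₀ + w * V.m₀.im := by positivity
      rw [mul_div_assoc', div_le_iff₀ h3]
      nlinarith only [hg0, he₀]
    have h3 : (w : ℝ) ^ (1 / 2 - es) * V.m₀.im ≤ q.tht * V.m₀.im :=
      mul_le_mul_of_nonneg_right htht hg0.le
    have h4 : gg (T0 w V.m₀ : Cfg (Tor d M)) a = V.m₀.im := rfl
    rw [h4, mul_add]
    linarith only [h1, h2, h3]
  · refine ⟨fun _ => 2 * (w : ℝ) ^ es, fun _ => 1 - 1 / (2 * C),
      fun _ => c * (w : ℝ) ^ (8 * es - 1), fun _ => V.D₁,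
      fm0 h hw he₀ he₀w hc hc' hC hws hD₁, ?_, ?_⟩
    · intro x _
      refine ⟨by positivity, ?_, ?_, ?_⟩
      · show 2 * (w : ℝ) ^ es ≤ if x ∈ Finset.univ then q.eps else q.rho
        rw [if_pos (Finset.mem_univ x)]
        exact heps
      · have h1 : 1 / (2 * C) ≤ 1 := by
          rw [div_le_one (by positivity)]
          linarith only [hC]
        linarith only [h1]
      · linarith only [hu₀, hrho]
    · intro e
      refine ⟨?_, le_rfl, ?_⟩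
      · have h1 : V.D₀ * (1 - q.rho) ≤ V.D₀ := by
          have := mul_nonneg hD₀ hrho
          linarith only [this]
        exact h1.trans hD₀'
      · have h1 : 0 ≤ V.D₁ := le_trans (by positivity) hD₁
        have := mul_nonneg h1 hrho
        linarith only [this]

end Pool.Agent.AHH.H54
end
end -- Pool.Agent.Helper54_AHH.INI

section -- Pool.Agent.Helper54_AHH.IniF

/-!
# AHH, field INI in final form
-/

set_option autoImplicit false

open scoped BigOperators NNReal Matrix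

noncomputable section

namespace Pool.Agent.AHH.H54

open Pool.Agent.BED (Tor)
open Pool.Agent.AND2B (Prd Ev)

theorem exists_small (K p : ℝ) (hp : 0 < p) :
    ∃ w₀ : ℝ, 0 < w₀ ∧ ∀ w : ℝ, 0 < w → w ≤ w₀ → K * w ^ p ≤ 1 := by
  have hK : 0 < |K| + 1 := by positivity
  refine ⟨(1 / (|K| + 1)) ^ (1 / p), by positivity, fun w hw hw' => ?_⟩
  have h1 : w ^ p ≤ 1 / (|K| + 1) := by
    calc w ^ p ≤ ((1 / (|K| + 1)) ^ (1 / p)) ^ p := Real.rpow_le_rpow hw.le hw' hp.le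
      _ = 1 / (|K| + 1) := by
        rw [← Real.rpow_mul (by positivity), one_div_mul_cancel hp.ne', Real.rpow_one]
  calc K * w ^ p ≤ |K| * w ^ p :=
        mul_le_mul_of_nonneg_right (le_abs_self K) (Real.rpow_nonneg hw.le _)
    _ ≤ |K| * (1 / (|K| + 1)) := mul_le_mul_of_nonneg_left h1 (abs_nonneg K)
    _ ≤ 1 := by
        rw [mul_one_div, div_le_one hK]
        linarith only

/-- field INI -/
theorem ini : IniF := by
  intro d a c C hd ha hc hc' hC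
  have e1 : (0 : ℝ) < es := by unfold es; norm_num
  have e2 : es < 1 / 12 := by unfold es; norm_num
  have e3 : (1 : ℝ) / 18000 < es := by unfold es; norm_num
  refine Ev.intro 1 1 one_pos one_pos ?_
  intro th c₁ C₁ α J hth hth1 hth2 hc₁ hc₁' hα
  obtain ⟨w₁, hw₁, hw₁'⟩ := exists_small 2 es e1
  obtain ⟨w₂, hw₂, hw₂'⟩ := exists_small 4 (1 / 12 - es) (by linarith only [e2])
  obtain ⟨w₃, hw₃, hw₃'⟩ := exists_small 2 (es - 1 / 18000) (by linarith only [e3])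
  refine ⟨1, min 1 (min w₁ (min w₂ w₃)), one_pos, by positivity, ?_⟩
  intro V hV hVth hVc₁ hVC₁ hVα hVJ hVβ hVw
  have hw0 : 0 < V.w := hV.w
  have hw0' : (0 : ℝ) < V.w := by exact_mod_cast hw0
  have g1 : (V.w : ℝ) ≤ 1 := hVw.trans (min_le_left _ _)
  have g2 : (V.w : ℝ) ≤ w₁ := hVw.trans ((min_le_right _ _).trans (min_le_left _ _))
  have g3 : (V.w : ℝ) ≤ w₂ :=
    hVw.trans ((min_le_right _ _).trans ((min_le_right _ _).trans (min_le_left _ _)))
  have g4 : (V.w : ℝ) ≤ w₃ :=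
    hVw.trans ((min_le_right _ _).trans ((min_le_right _ _).trans (min_le_right _ _)))
  refine ⟨c * V.w, by positivity, ?_⟩
  intro e₀ m ζ he₀ he₀' hG
  have hst := hG.st
  have hth1' : V.th ≤ 1 := hV.th.2.le
  obtain ⟨U, hU⟩ : ∃ U : AND2B.Env d, U = { V with e₀ := e₀, m := m, ζ := ζ } := ⟨_, rfl⟩
  rw [← hU] at hst ⊢
  have hUw : U.w = V.w := by rw [hU]
  have hUth : U.th ≤ 1 := by rw [hU]; exact hth1'
  have hUα : U.α = α := by rw [hU]; exact hVα
  have hUe : U.e₀ = e₀ := by rw [hU]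
  have hUe0 : 0 < U.e₀ := by rw [hUe]; exact he₀
  have hUkk : U.kk 0 = 0 := by rw [hU]; exact hV.sc.k0
  have hsg : U.sg 0 = (U.w : ℝ) := by
    rw [sg_eq, hUkk, cl_zero]
  have hw : 0 < U.w := by rw [hUw]; exact hw0
  rw [← hUw] at hw0' g1 g2 g3 g4 he₀'
  rw [← hUe] at he₀'
  have hrp : ∀ p : ℝ, 0 ≤ p → (U.w : ℝ) ^ p ≤ 1 := fun p hp =>
    Real.rpow_le_one hw0'.le g1 hp
  have hgr : ∀ p : ℝ, 0 < p → (U.w : ℝ) ^ p ≤ gr U p 0 0 := fun p hp => (gr_bd U hUth hp 0 0).1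
  have hgr0 : ∀ p : ℝ, 0 < p → 0 ≤ gr U p 0 0 := fun p hp =>
    (Real.rpow_nonneg hw0'.le p).trans (hgr p hp)
  have hka0 : 0 < ka U := by unfold ka; positivity
  have hka : ka U ≤ 1 / 9000 := by
    unfold ka
    rw [hUα]
    have h2 : (2 : ℝ) ≤ α := by exact_mod_cast hα
    apply one_div_le_one_div_of_le (by norm_num)
    nlinarith only [h2]
  have hlam : (U.w : ℝ) ^ (-(2 / 3 + es)) ≤ (qq U 0 0).lam := by
    show (U.w : ℝ) ^ (-(2 / 3 + es)) ≤
      1 / 4 * (U.cl 0 : ℝ) ^ (-(3 / 4) : ℝ) * (2 - U.sg 0 ^ (1 / 400 : ℝ))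
    rw [cl_zero, hsg]
    have h1 := hw₂' _ hw0' g3
    have h2 : (U.w : ℝ) ^ (-(2 / 3 + es)) = (U.w : ℝ) ^ (1 / 12 - es) * (U.w : ℝ) ^ (-(3 / 4) : ℝ) := by
      rw [← Real.rpow_add hw0']
      congr 1
      ring
    have h3 := hrp (1 / 400) (by norm_num)
    have h4 : 0 < (U.w : ℝ) ^ (-(3 / 4) : ℝ) := Real.rpow_pos_of_pos hw0' _
    rw [h2]
    calc (U.w : ℝ) ^ (1 / 12 - es) * (U.w : ℝ) ^ (-(3 / 4) : ℝ)
        ≤ 1 / 4 * (U.w : ℝ) ^ (-(3 / 4) : ℝ) :=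
          mul_le_mul_of_nonneg_right (by linarith only [h1]) h4.le
      _ = 1 / 4 * (U.w : ℝ) ^ (-(3 / 4) : ℝ) * 1 := by ring
      _ ≤ _ := mul_le_mul_of_nonneg_left (by linarith only [h3]) (by positivity)
  have htht : (U.w : ℝ) ^ (1 / 2 - es) ≤ (qq U 0 0).tht := by
    show (U.w : ℝ) ^ (1 / 2 - es) ≤ gr U (1 / 400) 0 0
    refine le_trans ?_ (hgr (1 / 400) (by norm_num))
    exact Real.rpow_le_rpow_of_exponent_ge hw0' g1 (by linarith only [e2])
  have heps : 2 * (U.w : ℝ) ^ es ≤ (qq U 0 0).eps := by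
    show 2 * (U.w : ℝ) ^ es ≤ (U.cl 0 : ℝ) ^ (ka U / 2) * (2 - U.sg 0 ^ ka U)
    rw [cl_zero, hsg]
    have h1 := hw₃' _ hw0' g4
    have h2 : (U.w : ℝ) ^ es = (U.w : ℝ) ^ (es - 1 / 18000) * (U.w : ℝ) ^ ((1 : ℝ) / 18000) := by
      rw [← Real.rpow_add hw0']
      congr 1
      ring
    have h3 : (U.w : ℝ) ^ ((1 : ℝ) / 18000) ≤ (U.w : ℝ) ^ (ka U / 2) :=
      Real.rpow_le_rpow_of_exponent_ge hw0' g1 (by linarith only [hka])
    have h4 := hrp (ka U) hka0.le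
    have h5 : 0 < (U.w : ℝ) ^ (ka U / 2) := Real.rpow_pos_of_pos hw0' _
    have h6 : 0 < (U.w : ℝ) ^ ((1 : ℝ) / 18000) := Real.rpow_pos_of_pos hw0' _
    calc 2 * (U.w : ℝ) ^ es
        = 2 * (U.w : ℝ) ^ (es - 1 / 18000) * (U.w : ℝ) ^ ((1 : ℝ) / 18000) := by rw [h2]; ring
      _ ≤ 1 * (U.w : ℝ) ^ ((1 : ℝ) / 18000) := mul_le_mul_of_nonneg_right h1 h6.le
      _ ≤ (U.w : ℝ) ^ (ka U / 2) * 1 := by linarith only [h3]
      _ ≤ _ := mul_le_mul_of_nonneg_left (by linarith only [h4]) h5.le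
  have hws : (U.w : ℝ) ^ es ≤ 1 / 2 := by
    have h1 := hw₁' _ hw0' g2
    linarith only [h1]
  have key := ini_st (V := toE U c C) (qq U 0 0) (w := U.w) (es := es) (c := c) (C := C) (ζ := U.ζ)
    (by rw [hU] at hst ⊢; exact hst) hw hUe0 he₀' hc hc' hC hws rfl
    (by show c / 2 ≤ c; linarith only [hc]) (by show C ≤ 2 * C; linarith only [hC])
    (by show 0 ≤ c * (U.w : ℝ) ^ (8 * es - 1); positivity) le_rfl le_rfl le_rfl
    (hgr0 _ (by norm_num)) (Real.rpow_nonneg (NNReal.coe_nonneg _) _) hlam htht heps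
    (hgr0 _ (by positivity))
  show St (toE U c C) (bud U) 0 0 ⟨fun _ => 0, fun _ => U.cl 0, fun _ => U.m⟩ Finset.univ
  refine ⟨?_, ?_, ?_⟩
  · show StN (toE U c C) (qq U 0 0) (U.cl 0) ⟨fun _ => 0, fun _ => U.cl 0, fun _ => U.m⟩
      Finset.univ
    rw [cl_zero]
    exact key
  · intro m hm
    omega
  · refine ⟨fun _ => ∅, fun x hx => ?_, fun j B => ?_⟩
    · have hx' : U.cl 0 = 0 := hx
      rw [cl_zero] at hx'
      exact absurd hx' hw.ne'
    · rw [Finset.empty_inter, Finset.card_empty]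
      exact Nat.zero_le _

end Pool.Agent.AHH.H54
end
end -- Pool.Agent.Helper54_AHH.IniF

section -- Pool.Agent.Helper54_AHH.IniV

/-!
# AHH, field INI with a revealed potential

The first configuration `⟨V₀, w, m + V₀ / w⟩`, `|V₀| ≤ w²`: the potential `V₀` is absorbed in the gauge.
The net, the absorption and the clocks are those of `⟨0, w, m⟩`.
-/

set_option autoImplicit false
set_option linter.unusedSectionVars false

open scoped BigOperators NNReal Matrix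

noncomputable section

namespace Pool.Agent.AHH.H54

open Pool.Agent.BED (Tor)
open Pool.Agent.AND2B (Prd Ev net kap Vef)
open Pool.Agent.ANP (Cfg)
open Pool.Agent.LE.QD (rs)
open Pool.Agent.LTG (Fm sT tT qd)
open Pool.Agent.AFJ (EE)
open Pool.Agent.ABY (vir)

variable {d M : ℕ} [NeZero M]

/-- the first configuration with a revealed potential -/
def TV (w : ℝ≥0) (m : ℂ) (V₀ : Tor d M → ℝ) : Cfg (Tor d M) :=
  ⟨V₀, fun _ => w, fun x => m + ((V₀ x / w : ℝ) : ℂ)⟩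

theorem kapV (e₀ : ℝ) (w : ℝ≥0) (m : ℂ) (V₀ : Tor d M → ℝ) :
    kap e₀ (TV w m V₀) = kap e₀ (T0 w m) := by
  funext x
  simp [kap, TV, T0]

theorem vefV {w : ℝ≥0} (hw : 0 < w) (m : ℂ) (V₀ : Tor d M → ℝ) :
    Vef (TV w m V₀) = Vef (T0 w m) := by
  have hw0 : (w : ℝ) ≠ 0 := by exact_mod_cast hw.ne'
  funext x
  simp only [Vef, TV, T0, Complex.add_re, Complex.ofReal_re]
  field_simp
  ring

theorem netV (E e₀ : ℝ) {w : ℝ≥0} (hw : 0 < w) (m : ℂ) (V₀ : Tor d M → ℝ) :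
    net E e₀ (TV w m V₀) = net E e₀ (T0 w m) := by
  unfold net
  rw [kapV, vefV hw]

theorem alV (w : ℝ≥0) (m : ℂ) (V₀ : Tor d M → ℝ) : Al (TV w m V₀) = Al (T0 w m) := rfl

theorem ggV (w : ℝ≥0) (m : ℂ) (V₀ : Tor d M → ℝ) : gg (TV w m V₀) = gg (T0 w m) := by
  funext x
  simp [gg, TV, T0]

theorem wwV (e₀ : ℝ) (w : ℝ≥0) (m : ℂ) (V₀ : Tor d M → ℝ) :
    ww e₀ (TV w m V₀) = ww e₀ (T0 w m) := by
  funext x
  unfold ww
  rw [kapV, ggV]

theorem efV (E e₀ : ℝ) {w : ℝ≥0} (hw : 0 < w) (m : ℂ) (V₀ : Tor d M → ℝ) :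
    Ef E e₀ (TV w m V₀) = Ef E e₀ (T0 w m) := by
  unfold Ef
  rw [kapV, netV E e₀ hw, alV]

theorem pvV (w : ℝ≥0) (m : ℂ) (V₀ : Tor d M → ℝ) (run : Finset (Tor d M)) (c : ℝ) :
    pv (TV w m V₀) run c = pv (T0 w m) run c := rfl

theorem pwV (w : ℝ≥0) (m : ℂ) (V₀ : Tor d M → ℝ) (run : Finset (Tor d M)) (c : ℝ) :
    pw (TV w m V₀) run c = pw (T0 w m) run c := by
  funext x
  unfold pw
  rw [ggV]

theorem yyV (E e₀ : ℝ) {w : ℝ≥0} (hw : 0 < w) (m : ℂ) (V₀ : Tor d M → ℝ)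
    (run : Finset (Tor d M)) (c : ℝ) (a : Tor d M) :
    yy E e₀ (TV w m V₀) run c a = yy E e₀ (T0 w m) run c a := by
  unfold yy
  rw [netV E e₀ hw, pvV, pwV]

/-- the shift of the gauge -/
theorem stN_shift (V : Env d M) (q : Num) {w : ℝ≥0} (hw : 0 < w) {V₀ : Tor d M → ℝ}
    (hV₀ : ∀ x, |V₀ x| ≤ (w : ℝ) ^ 2)
    (hm : ∀ x : Tor d M, net V.E V.e₀ (T0 w V.m₀ : Cfg (Tor d M)) x x = V.m₀)
    (hdel : (w : ℝ) ≤ q.del) (hmis : (w : ℝ) ≤ q.mis) (hC : ‖V.m₀‖ + w ≤ V.C₀)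
    (h : StN V q w (T0 w V.m₀) Finset.univ) : StN V q w (TV w V.m₀ V₀) Finset.univ := by
  have hw0 : (0 : ℝ) < w := by exact_mod_cast hw
  have hsh : ∀ x, ‖((V₀ x / w : ℝ) : ℂ)‖ ≤ w := by
    intro x
    rw [Complex.norm_real, Real.norm_eq_abs, abs_div, abs_of_pos hw0, div_le_iff₀ hw0]
    refine (hV₀ x).trans (le_of_eq ?_)
    ring
  obtain ⟨h1, h2, h3, h4, h5, h6, h7⟩ := h
  refine ⟨?_, ?_, ?_, ?_, ?_, ?_, ?_⟩
  · intro x hx
    obtain ⟨g1, -, -⟩ := h1 x hx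
    refine ⟨?_, ?_, ?_⟩
    · rw [ggV]
      exact g1
    · show ‖V.m₀ + ((V₀ x / w : ℝ) : ℂ)‖ ≤ V.C₀
      exact (norm_add_le _ _).trans ((add_le_add le_rfl (hsh x)).trans hC)
    · show ‖V.m₀ + ((V₀ x / w : ℝ) : ℂ) - V.m₀‖ ≤ q.del
      rw [add_sub_cancel_left]
      exact (hsh x).trans hdel
  · rw [alV]
    exact h2
  · intro x _
    rw [netV V.E V.e₀ hw, hm x]
    show ‖V.m₀ - (V.m₀ + ((V₀ x / w : ℝ) : ℂ))‖ ≤ q.mis
    rw [sub_add_cancel_left, norm_neg]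
    exact (hsh x).trans hmis
  · intro x hx y hy
    rw [netV V.E V.e₀ hw]
    exact h4 x hx y hy
  · intro x hx
    rw [netV V.E V.e₀ hw]
    exact h5 x hx
  · intro a ha
    rw [yyV V.E V.e₀ hw, ggV]
    exact h6 a ha
  · obtain ⟨εl, εu, bl, bu, k1, k2, k3⟩ := h7
    refine ⟨εl, εu, bl, bu, ?_, k2, k3⟩
    rw [alV, wwV, efV V.E V.e₀ hw]
    exact k1

/-- INI WITH A REVEALED POTENTIAL -/
def IniVP {d : ℕ} (Z : Prd d) (V : AND2B.Env d) : Prop :=
  ∀ V₀ : V.X → ℝ, (∀ x, |V₀ x| ≤ (V.w : ℝ) ^ 2) →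
    Z.HS V 0 0 ⟨V₀, fun _ => V.cl 0, fun x => V.m + ((V₀ x / V.w : ℝ) : ℂ)⟩ Finset.univ

theorem iniV : AND2B.Fld Z es IniVP := by
  intro d a c C hd ha hc hc' hC
  have hg : Ev d a es c C fun V => V.Good a es c C ∧ (V.w : ℝ) ≤ 1 := by
    refine Ev.intro' 1 1 one_pos one_pos ?_
    intro th c₁ C₁ α J _ _ _ _ _ _
    exact ⟨1, 1, one_pos, one_pos, fun V hV _ _ _ _ _ _ hw => ⟨hV, hw⟩⟩
  refine ((ini d a c C hd ha hc hc' hC).and hg).imp ?_
  rintro V ⟨hini, hV, hw1⟩ V₀ hV₀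
  have hini' : St (toE V c C) (bud V) 0 0 ⟨fun _ => 0, fun _ => V.cl 0, fun _ => V.m⟩
      Finset.univ := hini
  obtain ⟨k1, k2, k3⟩ := hini'
  have hw : 0 < V.w := hV.w
  have hw0 : (0 : ℝ) < V.w := by exact_mod_cast hw
  have hth1 : V.th ≤ 1 := hV.th.2.le
  have hst := hV.st
  rw [show (toE V c C).cl 0 = V.w from cl_zero V] at k1
  have k1' : StN (toE V c C) (qq V 0 0) V.w (T0 V.w V.m) Finset.univ := by
    have h1 : (fun _ : V.X => V.cl 0) = fun _ => V.w := by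
      funext _
      exact cl_zero V
    have h2 : (T0 V.w V.m : Cfg V.X) = ⟨fun _ => 0, fun _ => V.cl 0, fun _ => V.m⟩ := by
      rw [h1]
      rfl
    rw [h2]
    exact k1
  have key := stN_shift (toE V c C) (qq V 0 0) hw hV₀
    (fun x => by
      show net V.E V.e₀ (T0 V.w V.m) x x = V.m
      rw [net0 V.E V.e₀ V.w V.m V.ζ hst.hz, hst.hm x])
    (by
      show (V.w : ℝ) ≤ gr V (1 / 20) 0 0
      refine le_trans ?_ (gr_bd V hth1 (by norm_num) 0 0).1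
      conv_lhs => rw [← Real.rpow_one (V.w : ℝ)]
      exact Real.rpow_le_rpow_of_exponent_ge hw0 hw1 (by norm_num))
    (by
      show (V.w : ℝ) ≤ (V.cl 0 : ℝ) ^ (1 / 8 : ℝ)
      rw [cl_zero]
      conv_lhs => rw [← Real.rpow_one (V.w : ℝ)]
      exact Real.rpow_le_rpow_of_exponent_ge hw0 hw1 (by norm_num))
    (by
      show ‖V.m‖ + V.w ≤ 2 * C
      have h1 := hst.hc.2
      linarith only [h1, hw1, hC]) k1'
  have h3 : (⟨V₀, fun _ => V.cl 0, fun x => V.m + ((V₀ x / V.w : ℝ) : ℂ)⟩ : Cfg V.X) =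
      TV V.w V.m V₀ := by
    unfold TV
    rw [cl_zero]
  show St (toE V c C) (bud V) 0 0
    ⟨V₀, fun _ => V.cl 0, fun x => V.m + ((V₀ x / V.w : ℝ) : ℂ)⟩ Finset.univ
  rw [h3]
  refine ⟨?_, ?_, ?_⟩
  · rw [show (toE V c C).cl 0 = V.w from cl_zero V]
    exact key
  · intro m hm
    omega
  · refine ⟨fun _ => ∅, fun x hx => ?_, fun j B => ?_⟩
    · have hx' : V.w = 0 := hx
      exact absurd hx' hw.ne'
    · rw [Finset.empty_inter, Finset.card_empty]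
      exact Nat.zero_le _

end Pool.Agent.AHH.H54
end
end -- Pool.Agent.Helper54_AHH.IniV

section -- Pool.Agent.Helper67_ACX.End

/-!
# The end of the flow: most sites are good for the true Green function

`T` the last configuration, all sites are running (clock `f`) or dead. The network is compared with
the true resolvent of the potential `T.V` at the spectral parameter `E + i f`.
-/

set_option autoImplicit false

open scoped BigOperators NNReal Matrix ComplexConjugate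

noncomputable section

namespace Pool.Agent.ACX.H67

open Pool.Agent.ANR
open Pool.Agent.BED (Tor)
open Pool.Agent.AND2B (net kap Vef Hr res)
open Pool.Agent.ANP (Cfg)
open Pool.Agent.LE.QD (rs hz)

variable {d M : ℕ} [NeZero M]

/-- the two resolvents -/
theorem res_rs (V : Tor d M → ℝ) (E η : ℝ) : res V E (fun _ => η) = rs V ⟨E, η⟩ := by
  unfold res rs Gr
  congr 1
  ext x y
  unfold Hr hz
  rw [Matrix.sub_apply, Matrix.map_apply, Matrix.add_apply, Matrix.add_apply, Matrix.map_apply]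
  by_cases h : x = y
  · subst h
    rw [Matrix.diagonal_apply_eq, Matrix.diagonal_apply_eq, Matrix.diagonal_apply_eq,
      Complex.mk_eq_add_mul_I]
    push_cast
    ring
  · rw [Matrix.diagonal_apply_ne _ h, Matrix.diagonal_apply_ne _ h,
      Matrix.diagonal_apply_ne _ h]
    push_cast
    ring

open AHH.H72 in
theorem hr_diff (V V' : Tor d M → ℝ) (E : ℝ) (x y : Tor d M) :
    Hr V' E x y = Hr V E x y + if x = y then V' x - V x else 0 := by
  unfold Hr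
  rw [Matrix.add_apply, Matrix.add_apply]
  by_cases h : x = y
  · subst h
    rw [Matrix.diagonal_apply_eq, Matrix.diagonal_apply_eq, if_pos rfl]
    ring
  · rw [Matrix.diagonal_apply_ne _ h, Matrix.diagonal_apply_ne _ h, if_neg h]
    ring

/-- the constant of the Harnack inequality -/
def KH (c₀ C₀ : ℝ) : ℝ := 10 * ((C₀ + 1) / c₀) ^ 3

/-- THE END -/
theorem endA {E e₀ f c₀ C₀ c₁ : ℝ} (hc₀ : 0 < c₀) (hc₀' : c₀ ≤ 1) (hC₀ : 1 ≤ C₀) (hf : 0 < f)
    (he : 0 < e₀) (hef : e₀ ≤ c₀ * f) (hc₁ : 0 < c₁) (T : Cfg (Tor d M)) (run : Finset (Tor d M))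
    (hr : ∀ x ∈ run, (T.s x : ℝ) = f ∧ c₀ ≤ (T.mb x).im ∧ ‖T.mb x‖ ≤ C₀)
    (hd : ∀ x, x ∉ run → T.s x = 0) (hb : ∀ x ∈ run, 2 * c₁ ≤ (net E e₀ T x x).im) :
    (((Finset.univ.filter fun x => (rs T.V ⟨E, f⟩ x x).im < c₁ / (2 * KH c₀ C₀)).card : ℕ) : ℝ) ≤
      ∑ b ∈ Finset.univ \ run, (1 + 2 * KH c₀ C₀ / c₁ * (rs T.V ⟨E, f⟩ b b).im) := by
  set C : ℝ := (C₀ + 1) / c₀ with hC
  set k : ℝ := c₀ * f with hk
  have hk0 : 0 < k := mul_pos hc₀ hf
  have hCk : C * k = (C₀ + 1) * f := by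
    rw [hC, hk]
    field_simp
  have hC1 : 1 ≤ C := by
    rw [hC, le_div_iff₀ hc₀]
    linarith only [hc₀', hC₀]
  have hK : KH c₀ C₀ = 10 * C ^ 3 := rfl
  have hK0 : 0 < KH c₀ C₀ := by rw [hK]; positivity
  -- the middle absorption
  set κ : Tor d M → ℝ := fun x => if x ∈ run then kap e₀ T x else k with hκ
  have hkap : ∀ x, x ∈ run → k ≤ kap e₀ T x ∧ kap e₀ T x ≤ C * k := by
    intro x hx
    obtain ⟨h1, h2, h3⟩ := hr x hx
    have h4 : (T.mb x).im ≤ C₀ := (le_abs_self _).trans ((Complex.abs_im_le_norm _).trans h3)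
    have h5 : kap e₀ T x = e₀ + f * (T.mb x).im := by
      unfold kap
      rw [h1]
    rw [h5, hCk]
    constructor
    · rw [hk]
      nlinarith only [hf, he, h2]
    · nlinarith only [hc₀, hc₀', hf, hef, h1, h4]
  have hkd : ∀ x, x ∉ run → kap e₀ T x = e₀ := by
    intro x hx
    unfold kap
    rw [hd x hx]
    simp
  have hκ1 : ∀ x, k ≤ κ x := by
    intro x
    rw [hκ]
    dsimp only
    split_ifs with h
    · exact (hkap x h).1
    · exact le_refl _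
  have hκ2 : ∀ x, κ x ≤ C * k := by
    intro x
    rw [hκ]
    dsimp only
    split_ifs with h
    · exact (hkap x h).2
    · exact le_mul_of_one_le_left hk0.le hC1
  have hκ3 : ∀ x, kap e₀ T x ≤ κ x := by
    intro x
    rw [hκ]
    dsimp only
    split_ifs with h
    · exact le_refl _
    · rw [hkd x h]
      exact hef
  have hpos : ∀ x, 0 < kap e₀ T x := by
    intro x
    by_cases h : x ∈ run
    · exact hk0.trans_le (hkap x h).1
    · rw [hkd x h]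
      exact he
  have hN' : Net (Hr (Vef T) E) (kap e₀ T) := ⟨AHH.H72.hr_sym _ _, hpos⟩
  have hN : Net (Hr (Vef T) E) κ := ⟨AHH.H72.hr_sym _ _, fun x => hk0.trans_le (hκ1 x)⟩
  have hNt : Net (Hr T.V E) (fun _ : Tor d M => f) := ⟨AHH.H72.hr_sym _ _, fun _ => hf⟩
  have hfk : k ≤ f ∧ f ≤ C * k := by
    rw [hCk, hk]
    constructor
    · nlinarith only [hc₀', hf]
    · nlinarith only [hC₀, hf]
  have hvb : ∀ x, |Vef T x - T.V x| ≤ C * k := by
    intro x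
    have h1 : Vef T x - T.V x = -((T.s x : ℝ) * (T.mb x).re) := by
      unfold Vef
      ring
    rw [h1, abs_neg, abs_mul, hCk]
    by_cases h : x ∈ run
    · obtain ⟨h2, -, h3⟩ := hr x h
      rw [h2, abs_of_pos hf]
      have h4 : |(T.mb x).re| ≤ C₀ := (Complex.abs_re_le_norm _).trans h3
      nlinarith only [hf, h4]
    · rw [hd x h]
      simp only [NNReal.coe_zero, abs_zero, zero_mul]
      nlinarith only [hf, hCk, hfk]
  -- Harnack, both directions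
  have har1 : ∀ b, (Gr (Hr (Vef T) E) κ b b).im ≤ 10 * C ^ 3 * (rs T.V ⟨E, f⟩ b b).im := by
    intro b
    have h := har hNt hN (fun x => Vef T x - T.V x) (fun x y => hr_diff T.V (Vef T) E x y) hk0 hC1
      (fun _ => hfk.1) (fun _ => hfk.2) hκ1 hκ2 hvb b
    rw [← res_rs]
    exact h
  -- the counting bound
  set B : Finset (Tor d M) := Finset.univ.filter fun x =>
    x ∈ run ∧ (rs T.V ⟨E, f⟩ x x).im < c₁ / (2 * KH c₀ C₀) with hB
  have hcount : (B.card : ℝ) ≤ ∑ b ∈ Finset.univ \ run, 2 * KH c₀ C₀ / c₁ *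
      (rs T.V ⟨E, f⟩ b b).im := by
    have h1 := HSL14.hsc_net hN' hκ3 hc₁ B (by
      intro x hx
      rw [hB, Finset.mem_filter] at hx
      refine ⟨hb x hx.2.1, ?_⟩
      refine (har1 x).trans_lt ?_
      have h2 := hx.2.2
      rw [← hK]
      calc KH c₀ C₀ * (rs T.V ⟨E, f⟩ x x).im < KH c₀ C₀ * (c₁ / (2 * KH c₀ C₀)) :=
            mul_lt_mul_of_pos_left h2 hK0
        _ = c₁ / 2 := by field_simp)
    have h2 : (B.card : ℝ) * k ≤ ∑ x ∈ B, kap e₀ T x := by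
      rw [← nsmul_eq_mul, ← Finset.sum_const]
      refine Finset.sum_le_sum fun x hx => ?_
      rw [hB, Finset.mem_filter] at hx
      exact (hkap x hx.2.1).1
    have h3 : ∑ b, (κ b - kap e₀ T b) * (Gr (Hr (Vef T) E) κ b b).im ≤
        ∑ b ∈ Finset.univ \ run, k * (10 * C ^ 3 * (rs T.V ⟨E, f⟩ b b).im) := by
      rw [← Finset.sum_subset (Finset.sdiff_subset (s := Finset.univ) (t := run))]
      · refine Finset.sum_le_sum fun b hbm => ?_
        have hb' : b ∉ run := (Finset.mem_sdiff.1 hbm).2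
        have h4 : κ b - kap e₀ T b ≤ k := by
          rw [hκ]
          dsimp only
          rw [if_neg hb', hkd b hb']
          linarith only [he]
        have h5 : 0 ≤ κ b - kap e₀ T b := by linarith only [hκ3 b]
        have h6 : 0 ≤ (Gr (Hr (Vef T) E) κ b b).im := by
          rw [← HSL14.ward_diag hN.sym (HSL14.mat_unit hN) b]
          exact Finset.sum_nonneg fun y _ => mul_nonneg (hN.pos y).le (sq_nonneg _)
        calc (κ b - kap e₀ T b) * (Gr (Hr (Vef T) E) κ b b).im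
            ≤ k * (Gr (Hr (Vef T) E) κ b b).im := mul_le_mul_of_nonneg_right h4 h6
          _ ≤ k * (10 * C ^ 3 * (rs T.V ⟨E, f⟩ b b).im) :=
              mul_le_mul_of_nonneg_left (har1 b) hk0.le
      · intro b _ hbm
        have hb' : b ∈ run := by
          by_contra h
          exact hbm (Finset.mem_sdiff.2 ⟨Finset.mem_univ _, h⟩)
        rw [hκ]
        dsimp only
        rw [if_pos hb', sub_self, zero_mul]
    have h7 : (B.card : ℝ) * k ≤ (∑ b ∈ Finset.univ \ run, 2 * KH c₀ C₀ / c₁ *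
        (rs T.V ⟨E, f⟩ b b).im) * k := by
      refine h2.trans (h1.trans ((mul_le_mul_of_nonneg_left h3 (by positivity)).trans (le_of_eq ?_)))
      rw [Finset.mul_sum, Finset.sum_mul]
      refine Finset.sum_congr rfl fun b _ => ?_
      rw [hK]
      ring
    exact le_of_mul_le_mul_right h7 hk0
  have hsub : (Finset.univ.filter fun x => (rs T.V ⟨E, f⟩ x x).im < c₁ / (2 * KH c₀ C₀)) ⊆
      B ∪ (Finset.univ \ run) := by
    intro x hx
    rw [Finset.mem_filter] at hx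
    rw [Finset.mem_union, hB, Finset.mem_filter, Finset.mem_sdiff]
    by_cases h : x ∈ run
    · exact Or.inl ⟨Finset.mem_univ _, h, hx.2⟩
    · exact Or.inr ⟨Finset.mem_univ _, h⟩
  have hcard := (Finset.card_le_card hsub).trans (Finset.card_union_le _ _)
  have hcard' : (((Finset.univ.filter fun x =>
      (rs T.V ⟨E, f⟩ x x).im < c₁ / (2 * KH c₀ C₀)).card : ℕ) : ℝ) ≤
      (B.card : ℝ) + ((Finset.univ \ run).card : ℝ) := by exact_mod_cast hcard
  rw [Finset.sum_add_distrib, Finset.sum_const, nsmul_eq_mul, mul_one]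
  linarith

end Pool.Agent.ACX.H67
end
end -- Pool.Agent.Helper67_ACX.End

section -- Pool.Agent.Helper67_ACX.EndZ

/-!
# The deterministic end for the concrete environment (row P2)
-/

set_option autoImplicit false

open scoped BigOperators NNReal Matrix

noncomputable section

namespace Pool.Agent.ACX.H67

open Pool.Agent.AND2B (Ev net)
open Pool.Agent.AHH (toE bud St)
open Pool.Agent.ANP (Cfg)
open Pool.Agent.LE.QD (rs)

/-- sites with `Im G_xx < cl c C` are bad -/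
def cL (c C : ℝ) : ℝ := c / 8 / (2 * KH (c / 2) (2 * C))

/-- the constant in front of the dead sites -/
def cU (c C : ℝ) : ℝ := 2 * KH (c / 2) (2 * C) / (c / 8)

theorem KH_pos {c C : ℝ} (hc : 0 < c) (hC : 1 ≤ C) : 0 < KH (c / 2) (2 * C) := by
  unfold KH
  positivity

theorem cL_pos {c C : ℝ} (hc : 0 < c) (hC : 1 ≤ C) : 0 < cL c C := by
  have := KH_pos hc hC
  unfold cL
  positivity

theorem cU_pos {c C : ℝ} (hc : 0 < c) (hC : 1 ≤ C) : 0 < cU c C := by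
  have := KH_pos hc hC
  unfold cU
  positivity

/-- THE END: at the last clock `f = cl (kk (N + 1))`, if all sites are running or dead, the number of
the sites with small `Im G_xx (T.V, E + i f)` is at most
`∑_(b dead) (1 + cU Im G_bb (T.V, E + i f))`. -/
theorem endZ (d : ℕ) (a es c C : ℝ) (hc : 0 < c) (hc1 : c ≤ 1 / 2) (hC : 1 ≤ C) :
    Ev d a es c C fun V => ∀ (n : ℕ) (T : Cfg V.X) (run : Finset V.X),
      St (toE V c C) (bud V) n (V.kk (V.N + 1)) T run →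
      (∀ x ∈ run, T.s x = V.cl (V.kk (V.N + 1))) → (∀ x, x ∉ run → T.s x = 0) →
      (((Finset.univ.filter fun x => (rs T.V ⟨V.E, (V.cl (V.kk (V.N + 1)) : ℝ)⟩ x x).im <
        cL c C).card : ℕ) : ℝ) ≤ ∑ b ∈ Finset.univ \ run,
          (1 + cU c C * (rs T.V ⟨V.E, (V.cl (V.kk (V.N + 1)) : ℝ)⟩ b b).im) := by
  refine AND2B.Ev.intro 1 1 one_pos one_pos ?_
  intro th c₁ C₁ α J _ _ _ _ _ _
  refine ⟨1, (c / 8) ^ (8 : ℝ), one_pos, by positivity, ?_⟩
  intro V hV hth _ _ _ _ _ hw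
  have hclp : 0 < V.cl (V.kk (V.N + 1)) :=
    AHH.cl_pos V hV.w (lt_of_lt_of_le (by norm_num) hV.th.1) _
  have hclp' : (0 : ℝ) < V.cl (V.kk (V.N + 1)) := by exact_mod_cast hclp
  refine ⟨c / 2 * V.cl (V.kk (V.N + 1)), by positivity, ?_⟩
  intro e₀ m ζ he he' _ n T run hSt hrun hdead
  have hclw : (V.cl (V.kk (V.N + 1)) : ℝ) ≤ V.w := by
    exact_mod_cast AHH.cl_le V hV.th.2.le (V.kk (V.N + 1))
  have hmis : ((V.cl (V.kk (V.N + 1)) : ℝ)) ^ (1 / 8 : ℝ) ≤ c / 8 := by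
    have h1 : ((V.cl (V.kk (V.N + 1)) : ℝ)) ^ (1 / 8 : ℝ) ≤ ((c / 8) ^ (8 : ℝ)) ^ (1 / 8 : ℝ) :=
      Real.rpow_le_rpow hclp'.le (hclw.trans hw) (by norm_num)
    rw [← Real.rpow_mul (by positivity)] at h1
    norm_num at h1
    exact h1
  have hal : ∀ x, x ∈ run → x ∈ AHH.Al T := fun x hx => hSt.alv hx
  refine endA (c₀ := c / 2) (C₀ := 2 * C) (c₁ := c / 8) (by positivity) (by linarith only [hc, hc1]) (by linarith only [hc, hc1, hC])
    hclp' he he' (by positivity) T run ?_ hdead ?_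
  · intro x hx
    have h := hSt.gau x (hal x hx)
    exact ⟨by rw [hrun x hx], h.1, h.2.1⟩
  · intro x hx
    have h := hSt.gau x (hal x hx)
    have h1 : c / 2 ≤ (T.mb x).im := h.1
    have h2 : ‖net V.E e₀ T x x - T.mb x‖ ≤ (V.cl (V.kk (V.N + 1)) : ℝ) ^ (1 / 8 : ℝ) :=
      hSt.mis x hx
    have h3 : |(net V.E e₀ T x x - T.mb x).im| ≤ ‖net V.E e₀ T x x - T.mb x‖ :=
      Complex.abs_im_le_norm _
    rw [Complex.sub_im] at h3
    have h4 := (abs_le.1 (h3.trans (h2.trans hmis))).1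
    linarith only [hc, h1, h4]

end Pool.Agent.ACX.H67
end
end -- Pool.Agent.Helper67_ACX.EndZ

section -- Pool.Agent.Helper90_ANE.LAW

/-!
# MRS and LAW: measurability, the transfer of the probabilities to the lattice
-/

set_option autoImplicit false

open MeasureTheory ProbabilityTheory Function Filter

open scoped ENNReal BigOperators InnerProductSpace Topology NNReal

noncomputable section

namespace Pool.Agent.ANE.H90

open Pool.Agent.Anderson hiding box mem_box card_box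
open Pool.Agent.Loc Pool.Agent.Mob Pool.Agent.Helper54.Bal
  Pool.Agent.Helper96.EXP Pool.Agent.BED
open Pool.Agent.LE.MN Pool.Agent.LE.CL Pool.Agent.LE.IR Pool.Agent.LE.QD

theorem mrs : MrsStmt := by
  intro d M _ z x y hz
  exact (Pool.Agent.LE.QD.H76.cont z hz.ne' x y).measurable

/-- the error of the torus is at most `η` -/
theorem err_le {C η M : ℝ} (hC : 1 ≤ C) (hη : 0 < η) (hε : η ≤ 1 / (24 * C ^ 5))
    (hM : 1 ≤ η ^ 2 * M) : C / η ^ 2 * Real.exp (-(η * M / C)) ≤ η := by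
  have hC0 : 0 < C := by linarith only [hC]
  have hC5 : 0 < 24 * C ^ 5 := by positivity
  have h1 : 1 / (η * C) ≤ η * M / C := by
    rw [div_le_div_iff₀ (by positivity) hC0]
    calc 1 * C ≤ (η ^ 2 * M) * C := by gcongr
      _ = η * M * (η * C) := by ring
  set t : ℝ := 1 / (η * C) with ht
  have ht0 : 0 < t := by positivity
  have h2 : Real.exp (-(η * M / C)) ≤ 24 / t ^ 4 := by
    have h3 : t ^ 4 / 24 ≤ Real.exp t := by
      have := Real.pow_div_factorial_le_exp t ht0.le 4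
      norm_num [Nat.factorial] at this
      exact this
    calc Real.exp (-(η * M / C)) ≤ Real.exp (-t) := by
          apply Real.exp_le_exp.2
          linarith only [h1]
      _ = 1 / Real.exp t := by rw [Real.exp_neg, one_div]
      _ ≤ 1 / (t ^ 4 / 24) := by
          apply one_div_le_one_div_of_le (by positivity) h3
      _ = 24 / t ^ 4 := by rw [one_div_div]
  have h4 : 24 / t ^ 4 = 24 * (η * C) ^ 4 := by
    rw [ht]
    field_simp
  rw [h4] at h2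
  have h5 : η * (24 * C ^ 5) ≤ 1 := by
    rw [le_div_iff₀ hC5] at hε
    exact hε
  calc C / η ^ 2 * Real.exp (-(η * M / C)) ≤ C / η ^ 2 * (24 * (η * C) ^ 4) := by
        apply mul_le_mul_of_nonneg_left h2 (by positivity)
    _ = η * (η * (24 * C ^ 5)) := by
        field_simp
    _ ≤ η * 1 := by gcongr
    _ = η := mul_one _

theorem law (hC : CtzStmt) (hM : MrsStmt) : LawStmt := by
  intro d σ E p hσ h A
  obtain ⟨C, hC1, hC⟩ := hC d
  have hC0 : 0 < C := by linarith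
  have hε : 0 < 1 / (24 * C ^ 5) := by positivity
  obtain ⟨η, M, hN, hη, hηε, hηM, hp⟩ := h (A + 1) _ hε
  have := hN
  refine ⟨η, hη, ?_⟩
  obtain ⟨v, hv⟩ : ∃ v : ℝ≥0, (v : ℝ) = σ ^ 2 := ⟨⟨σ ^ 2, sq_nonneg σ⟩, rfl⟩
  have h1 := hp v hv
  have hη1 : η ≤ 1 := by
    refine hηε.trans ?_
    rw [div_le_one (by positivity)]
    have : (1 : ℝ) ≤ C ^ 5 := one_le_pow₀ hC1
    linarith only [this]
  set S : Set (Tor d M → ℝ) := {V | (A + 1) * η ≤ (rs V ⟨E, η⟩ 0 0).im} with hS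
  have hSm : MeasurableSet S :=
    measurableSet_le measurable_const (Complex.measurable_im.comp (hM d M ⟨E, η⟩ 0 0 hη))
  have h2 : PP d (gl σ) {V : Site d → ℝ | (fun x : Tor d M => V ((0 : Site d) + rep x)) ∈ S} =
      gau d M v S := by
    have hf : Measurable fun (V : Site d → ℝ) (x : Tor d M) => V ((0 : Site d) + rep x) :=
      measurable_pi_lambda _ fun x => measurable_pi_apply _
    have h3 := Pool.Agent.LE.QY.H60.lin_eq (d := d) (M := M) hσ hv (0 : Site d)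
      (S.indicator 1) (measurable_one.indicator hSm)
    rw [lintegral_indicator_one hSm] at h3
    rw [← h3]
    exact (lintegral_indicator_one (μ := PP d (gl σ)) (hf hSm)).symm
  refine h1.trans ?_
  rw [← h2]
  apply measure_mono
  intro V hV
  have h4 : (A + 1) * η ≤ (rs (fun x : Tor d M => V (rep x)) ⟨E, η⟩ 0 0).im := by
    have h5 : (fun x : Tor d M => V ((0 : Site d) + rep x)) = fun x : Tor d M => V (rep x) := by
      funext x
      rw [zero_add]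
    have h6 : (A + 1) * η ≤ (rs (fun x : Tor d M => V ((0 : Site d) + rep x)) ⟨E, η⟩ 0 0).im := hV
    rwa [h5] at h6
  have h7 := (hC M V E η hη hη1).trans (err_le hC1 hη hηε hηM)
  have h8 := (Complex.abs_im_le_norm _).trans h7
  rw [Complex.sub_im] at h8
  have h9 := abs_le.1 h8
  change A * η ≤ (G V (zz η E) (del 0) 0).im
  nlinarith only [h9.1, h4]

end Pool.Agent.ANE.H90
end
end -- Pool.Agent.Helper90_ANE.LAW

section -- Pool.Agent.Helper72_ACS.Law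

/-!
# ACS: from the mean over the sites of a torus to the origin of the lattice
-/

set_option autoImplicit false

open MeasureTheory ProbabilityTheory Function Filter

open scoped ENNReal BigOperators InnerProductSpace Topology NNReal

noncomputable section

namespace Pool.Agent.ACS.H72

open Pool.Agent.Anderson hiding box mem_box card_box
open Pool.Agent.Loc Pool.Agent.Mob Pool.Agent.Helper54.Bal
  Pool.Agent.Helper96.EXP Pool.Agent.BED
open Pool.Agent.LE.MN Pool.Agent.LE.CL Pool.Agent.LE.IR Pool.Agent.LE.QD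

section tor

variable {d M : ℕ} [NeZero M]

/-- the resolvent of the translated potential -/
theorem rs_tr (V : Tor d M → ℝ) (z : ℂ) (x y w : Tor d M) :
    rs (tr x V) z y w = rs V z (x + y) (x + w) := by
  have h : hz (tr x V) z = (hz V z).submatrix (Equiv.addLeft x) (Equiv.addLeft x) := by
    ext y w
    simp only [hz, tr, adj, Matrix.add_apply, Matrix.map_apply, Matrix.submatrix_apply,
      Equiv.coe_addLeft, Matrix.of_apply, Matrix.diagonal_apply, add_right_inj]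
    congr 2
    refine Finset.sum_congr rfl fun i _ => ?_
    have h1 : (x + w = x + y + ev i) ↔ w = y + ev i := by rw [add_assoc, add_right_inj]
    have h2 : (x + w = x + y - ev i) ↔ w = y - ev i := by
      rw [add_sub_assoc, add_right_inj]
    simp only [h1, h2]
  unfold rs
  rw [h, Matrix.inv_submatrix_equiv]
  rfl

theorem mp_tr (v : ℝ≥0) (x : Tor d M) : MeasurePreserving (tr x) (gau d M v) (gau d M v) :=
  (Pool.Agent.BED.H61.cov d M 0 0 x).2.2.2.2.2 v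

/-- the set of the potentials with a small imaginary part at `x` -/
def Sm (d M : ℕ) [NeZero M] (z : ℂ) (c : ℝ) (x : Tor d M) : Set (Tor d M → ℝ) :=
  {V | (rs V z x x).im < c}

theorem meas_Sm {z : ℂ} (hz : 0 < z.im) (c : ℝ) (x : Tor d M) : MeasurableSet (Sm d M z c x) :=
  measurableSet_lt (Complex.measurable_im.comp (Pool.Agent.ANE.H90.mrs d M z x x hz))
    measurable_const

/-- all the sites are equal -/
theorem gau_Sm (v : ℝ≥0) {z : ℂ} (hz : 0 < z.im) (c : ℝ) (x : Tor d M) :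
    gau d M v (Sm d M z c x) = gau d M v (Sm d M z c 0) := by
  have h1 := (mp_tr (d := d) (M := M) v x).measure_preimage
    (meas_Sm (d := d) (M := M) hz c 0).nullMeasurableSet
  rw [← h1]
  congr 1
  ext V
  show (rs V z x x).im < c ↔ (rs (tr x V) z 0 0).im < c
  rw [rs_tr, add_zero]

/-- THE MEAN OVER THE SITES: `W` an event (for example `WL`) -/
theorem mean_le (v : ℝ≥0) {z : ℂ} (hz : 0 < z.im) (c : ℝ) {W : Set (Tor d M → ℝ)}
    (hW : MeasurableSet W) :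
    gau d M v {V | (rs V z 0 0).im < c} ≤
      ∫⁻ V, W.indicator (fun V => ((Finset.univ.filter fun x : Tor d M =>
        (rs V z x x).im < c).card : ℝ≥0∞) / (Fintype.card (Tor d M) : ℝ≥0∞)) V ∂(gau d M v) +
        gau d M v Wᶜ := by
  classical
  set g := gau d M v with hg
  have hc0 : (Fintype.card (Tor d M) : ℝ≥0∞) ≠ 0 := by
    exact_mod_cast Fintype.card_ne_zero
  have hct : (Fintype.card (Tor d M) : ℝ≥0∞) ≠ ∞ := ENNReal.natCast_ne_top _
  have h0 : g (Sm d M z c 0) = (∑ x, g (Sm d M z c x)) / (Fintype.card (Tor d M) : ℝ≥0∞) := by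
    rw [ENNReal.eq_div_iff hc0 hct, Finset.sum_congr rfl fun x _ =>
      gau_Sm (d := d) (M := M) v hz c x, Finset.sum_const, Finset.card_univ, nsmul_eq_mul]
  have h1 : ∀ V, ((Finset.univ.filter fun x : Tor d M => (rs V z x x).im < c).card : ℝ≥0∞) =
      ∑ x : Tor d M, (Sm d M z c x).indicator (1 : (Tor d M → ℝ) → ℝ≥0∞) V := by
    intro V
    rw [Finset.card_filter]
    push_cast
    refine Finset.sum_congr rfl fun x _ => ?_
    by_cases h : (rs V z x x).im < c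
    · rw [if_pos h, Set.indicator_of_mem (show V ∈ Sm d M z c x from h)]
      rfl
    · rw [if_neg h, Set.indicator_of_notMem (show V ∉ Sm d M z c x from h)]
  have h2 : ∫⁻ V, ((Finset.univ.filter fun x : Tor d M => (rs V z x x).im < c).card : ℝ≥0∞) /
      (Fintype.card (Tor d M) : ℝ≥0∞) ∂g = g (Sm d M z c 0) := by
    rw [h0]
    simp_rw [h1, ENNReal.div_eq_inv_mul]
    rw [lintegral_const_mul _ (Finset.measurable_fun_sum _ fun x _ =>
      measurable_one.indicator (meas_Sm hz c x)), lintegral_finsetSum _ fun x _ =>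
      measurable_one.indicator (meas_Sm hz c x)]
    congr 1
    refine Finset.sum_congr rfl fun x _ => ?_
    rw [lintegral_indicator_one (meas_Sm hz c x)]
  have h3 : g (Sm d M z c 0) ≤ ∫⁻ V, (W.indicator (fun V => ((Finset.univ.filter
      fun x : Tor d M => (rs V z x x).im < c).card : ℝ≥0∞) / (Fintype.card (Tor d M) : ℝ≥0∞)) V +
        (Wᶜ).indicator 1 V) ∂g := by
    rw [← h2]
    refine lintegral_mono fun V => ?_
    by_cases hV : V ∈ W
    · rw [Set.indicator_of_mem hV]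
      exact le_self_add
    · rw [Set.indicator_of_notMem hV, Set.indicator_of_mem (show V ∈ Wᶜ from hV), zero_add]
      rw [Pi.one_apply]
      refine ENNReal.div_le_of_le_mul ?_
      rw [one_mul]
      exact_mod_cast Finset.card_le_univ _
  refine h3.trans ?_
  rw [lintegral_add_right _ (measurable_one.indicator hW.compl), lintegral_indicator_one hW.compl]

/-- the complement -/
theorem ge_of_lt {v : ℝ≥0} {z : ℂ} (hz : 0 < z.im) {c q : ℝ} (hq : 0 ≤ q)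
    (h : gau d M v {V | (rs V z 0 0).im < c} ≤ ENNReal.ofReal q) :
    ENNReal.ofReal (1 - q) ≤ gau d M v {V | c ≤ (rs V z 0 0).im} := by
  have hprob : IsProbabilityMeasure (gau d M v) := by
    unfold gau
    infer_instance
  have h1 : {V : Tor d M → ℝ | c ≤ (rs V z 0 0).im} = (Sm d M z c 0)ᶜ := by
    ext V
    show c ≤ (rs V z 0 0).im ↔ ¬ (rs V z 0 0).im < c
    exact not_lt.symm
  rw [h1, prob_compl_eq_one_sub (meas_Sm hz c 0), ENNReal.ofReal_sub _ hq, ENNReal.ofReal_one]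
  exact tsub_le_tsub_left h 1

end tor

/-- the threshold for `η` -/
theorem law_core (d : ℕ) : ∃ C : ℝ, 1 ≤ C ∧ ∀ (σ c p E η : ℝ) (M : ℕ) [NeZero M], σ ≠ 0 → 0 < c →
    0 < η → η ≤ c / 2 → η ≤ 1 / (24 * C ^ 5) → 1 ≤ η ^ 2 * M →
    (∀ v : ℝ≥0, (v : ℝ) = σ ^ 2 →
      ENNReal.ofReal p ≤ gau d M v {V | c ≤ (rs V ⟨E, η⟩ 0 0).im}) →
    ENNReal.ofReal p ≤ PP d (gl σ) {V | c / 2 ≤ (G V (zz η E) (del 0) 0).im} := by
  obtain ⟨C, hC1, hC⟩ := Pool.Agent.ANE.H72.ctz d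
  refine ⟨C, hC1, ?_⟩
  intro σ c p E η M _ hσ hc hη hη3 hη4 hηM hp
  have hC0 : 0 < C := by linarith only [hC1]
  have hη1 : η ≤ 1 := by
    refine hη4.trans ?_
    rw [div_le_one (by positivity)]
    have : (1 : ℝ) ≤ C ^ 5 := one_le_pow₀ hC1
    linarith only [this]
  obtain ⟨v, hv⟩ : ∃ v : ℝ≥0, (v : ℝ) = σ ^ 2 := ⟨⟨σ ^ 2, sq_nonneg σ⟩, rfl⟩
  have h1 := hp v hv
  set S : Set (Tor d M → ℝ) := {V | c ≤ (rs V ⟨E, η⟩ 0 0).im} with hS
  have hSm : MeasurableSet S :=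
    measurableSet_le measurable_const
      (Complex.measurable_im.comp (Pool.Agent.ANE.H90.mrs d M ⟨E, η⟩ 0 0 hη))
  have h2 : PP d (gl σ) {V : Site d → ℝ | (fun x : Tor d M => V ((0 : Site d) + rep x)) ∈ S} =
      gau d M v S := by
    have hf : Measurable fun (V : Site d → ℝ) (x : Tor d M) => V ((0 : Site d) + rep x) :=
      measurable_pi_lambda _ fun x => measurable_pi_apply _
    have h3 := Pool.Agent.LE.QY.H60.lin_eq (d := d) (M := M) hσ hv (0 : Site d)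
      (S.indicator 1) (measurable_one.indicator hSm)
    rw [lintegral_indicator_one hSm] at h3
    rw [← h3]
    exact (lintegral_indicator_one (μ := PP d (gl σ)) (hf hSm)).symm
  refine h1.trans ?_
  rw [← h2]
  apply measure_mono
  intro V hV
  have h4 : c ≤ (rs (fun x : Tor d M => V (rep x)) ⟨E, η⟩ 0 0).im := by
    have h5 : (fun x : Tor d M => V ((0 : Site d) + rep x)) = fun x : Tor d M => V (rep x) := by
      funext x
      rw [zero_add]
    have h6 : c ≤ (rs (fun x : Tor d M => V ((0 : Site d) + rep x)) ⟨E, η⟩ 0 0).im := hV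
    rwa [h5] at h6
  have h7 := (hC M V E η hη hη1).trans (Pool.Agent.ANE.H90.err_le hC1 hη hη4 hηM)
  have h8 := (Complex.abs_im_le_norm _).trans h7
  rw [Complex.sub_im] at h8
  have h9 := abs_le.1 h8
  change c / 2 ≤ (G V (zz η E) (del 0) 0).im
  linarith only [h9.1, hη3, h4]

/-- P7: FROM THE TORI TO THE LATTICE, for a sequence `η n → 0` which does not depend on the energy -/
theorem lawS {d : ℕ} {σ a b c p : ℝ} (hσ : σ ≠ 0) (hc : 0 < c) {η : ℕ → ℝ} {M : ℕ → ℕ}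
    (hN : ∀ n, NeZero (M n)) (hη : ∀ n, 0 < η n) (hlim : Tendsto η atTop (𝓝 0))
    (hM : ∀ n, 1 ≤ η n ^ 2 * M n)
    (h : ∀ E ∈ Set.Ioo a b, ∀ᶠ n in atTop, ∀ v : ℝ≥0, (v : ℝ) = σ ^ 2 →
      ENNReal.ofReal p ≤ (haveI := hN n; gau d (M n) v {V | c ≤ (rs V ⟨E, η n⟩ 0 0).im})) :
    ∀ E ∈ Set.Ioo a b, ∀ᶠ n in atTop,
      ENNReal.ofReal p ≤ PP d (gl σ) {V | c / 2 ≤ (G V (zz (η n) E) (del 0) 0).im} := by
  intro E hE
  obtain ⟨C, hC1, hC⟩ := law_core d
  have hε1 : 0 < min (c / 2) (1 / (24 * C ^ 5)) := lt_min (by positivity) (by positivity)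
  filter_upwards [h E hE, hlim.eventually (ge_mem_nhds hε1)] with n h1 h2
  have := hN n
  exact hC σ c p E (η n) (M n) hσ hc (hη n) (h2.trans (min_le_left _ _))
    (h2.trans (min_le_right _ _)) (hM n) h1

/-- the same, if `η` only has to exist below every `ε` (one `η` for all the energies) -/
theorem lawA {d : ℕ} {σ a b c p : ℝ} (hσ : σ ≠ 0) (hc : 0 < c)
    (h : ∀ ε : ℝ, 0 < ε → ∃ (η : ℝ) (M : ℕ) (_ : NeZero M), 0 < η ∧ η ≤ ε ∧ 1 ≤ η ^ 2 * M ∧
      ∀ E ∈ Set.Ioo a b, ∀ v : ℝ≥0, (v : ℝ) = σ ^ 2 →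
        ENNReal.ofReal p ≤ gau d M v {V | c ≤ (rs V ⟨E, η⟩ 0 0).im}) :
    ∀ ε : ℝ, 0 < ε → ∃ η : ℝ, 0 < η ∧ η < ε ∧ ∀ E ∈ Set.Ioo a b,
      ENNReal.ofReal p ≤ PP d (gl σ) {V | c / 2 ≤ (G V (zz η E) (del 0) 0).im} := by
  intro ε hε
  obtain ⟨C, hC1, hC⟩ := law_core d
  have hε1 : 0 < min (ε / 2) (min (c / 2) (1 / (24 * C ^ 5))) :=
    lt_min (by positivity) (lt_min (by positivity) (by positivity))
  obtain ⟨η, M, hN, hη, hηε, hηM, hp⟩ := h _ hε1
  have := hN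
  have hη2 : η ≤ ε / 2 := hηε.trans (min_le_left _ _)
  exact ⟨η, hη, by linarith only [hη, hη2], fun E hE => hC σ c p E η M hσ hc hη
    (hηε.trans ((min_le_right _ _).trans (min_le_left _ _)))
    (hηε.trans ((min_le_right _ _).trans (min_le_right _ _))) hηM (hp E hE)⟩

end Pool.Agent.ACS.H72
end
end -- Pool.Agent.Helper72_ACS.Law

section -- Pool.Agent.ACX.Top

/-!
# ACX (MP_1906c1_mp): the assembly: from the fields of the analysis to absolutely continuous spectrum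

`one`: one environment: `P(c ≤ Im G_00 (E + i f)) ≥ 1/2` on the torus, `f` the last clock.
`tor`: one sequence `f_n → 0` for all energies. `lat`: the same on the lattice. `acx`: the spectrum.
-/

set_option autoImplicit false

open MeasureTheory ProbabilityTheory Function Filter

open scoped BigOperators NNReal ENNReal Matrix Topology

noncomputable section

namespace Pool.Agent.ACX.TOP

open Pool.Agent.Anderson (Site L2 del)
open Pool.Agent.Helper54.Bal (G PP zz)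
open Pool.Agent.Loc (gl)
open Pool.Agent.BED (Tor gau)
open Pool.Agent.AND2B
open Pool.Agent.ANP
open Pool.Agent.LE.QD (rs)
open Pool.Agent.ACX.CORE (Fields core1)
open Pool.Agent.ACX.H38 (psi psi_rs psi_meas psi_nonneg psi_le psi_int2 psi_integrable)
open Pool.Agent.ACX.H67 (cL cU cL_pos cU_pos endZ)
open Pool.Agent.AHH (es)
open Pool.Agent.AHH.H54 (IniVP)

/-! ### The functional -/

section fun_

variable {d M : ℕ} [NeZero M]

/-- the number of the sites with `Im G_xx < c` -/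
def sm (z : ℂ) (c : ℝ) (U : Tor d M → ℝ) : ℕ :=
  (Finset.univ.filter fun x : Tor d M => (rs U z x x).im < c).card

/-- the fraction of the sites with `Im G_xx < c`, on the event `WL` -/
def ph (E L : ℝ) (z : ℂ) (c : ℝ) : (Tor d M → ℝ) → ℝ :=
  Set.indicator {U | WL E L U} fun U => (sm z c U : ℝ) / (Fintype.card (Tor d M) : ℝ)

theorem sm_le (z : ℂ) (c : ℝ) (U : Tor d M → ℝ) : sm z c U ≤ Fintype.card (Tor d M) :=
  Finset.card_le_univ _

theorem card_pos : (0 : ℝ) < (Fintype.card (Tor d M) : ℝ) := by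
  exact_mod_cast Fintype.card_pos

theorem ph_le (E L : ℝ) (z : ℂ) (c : ℝ) (U : Tor d M → ℝ) :
    ph E L z c U ≤ (sm z c U : ℝ) / (Fintype.card (Tor d M) : ℝ) :=
  Set.indicator_le_self' (fun _ _ => by positivity) U

theorem ph_bd (E L : ℝ) (z : ℂ) (c : ℝ) (U : Tor d M → ℝ) :
    0 ≤ ph E L z c U ∧ ph E L z c U ≤ 1 := by
  refine ⟨Set.indicator_nonneg (fun _ _ => by positivity) U, (ph_le E L z c U).trans ?_⟩
  rw [div_le_one card_pos]
  exact_mod_cast sm_le z c U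

theorem ph_out (E L : ℝ) (z : ℂ) (c : ℝ) (U : Tor d M → ℝ) (h : ¬ WL E L U) :
    ph E L z c U = 0 := Set.indicator_of_notMem h _

theorem sm_meas {z : ℂ} (hz : 0 < z.im) (c : ℝ) :
    Measurable fun U : Tor d M → ℝ => (sm z c U : ℝ) := by
  have h : (fun U : Tor d M → ℝ => (sm z c U : ℝ)) =
      fun U => ∑ x : Tor d M, (ACS.H72.Sm d M z c x).indicator (1 : (Tor d M → ℝ) → ℝ) U := by
    funext U
    unfold sm
    rw [Finset.card_filter]
    push_cast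
    refine Finset.sum_congr rfl fun x _ => ?_
    by_cases h : (rs U z x x).im < c
    · rw [if_pos h, Set.indicator_of_mem (show U ∈ ACS.H72.Sm d M z c x from h)]
      rfl
    · rw [if_neg h, Set.indicator_of_notMem (show U ∉ ACS.H72.Sm d M z c x from h)]
  rw [h]
  exact Finset.measurable_fun_sum _ fun x _ =>
    measurable_one.indicator (ACS.H72.meas_Sm hz c x)

theorem ph_meas (E L : ℝ) {z : ℂ} (hz : 0 < z.im) (c : ℝ) :
    Measurable (ph (d := d) (M := M) E L z c) :=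
  ((sm_meas hz c).div_const _).indicator (H99.msw d M E L)

/-- the mean of the functional bounds the probability at the origin -/
theorem mean (v : ℝ≥0) (E L : ℝ) {z : ℂ} (hz : 0 < z.im) (c : ℝ) :
    gau d M v {V | (rs V z 0 0).im < c} ≤
      ENNReal.ofReal (∫ U, ph E L z c U ∂(gau d M v)) + gau d M v {U | ¬ WL E L U} := by
  have hprob : IsProbabilityMeasure (gau d M v) := by
    unfold gau
    infer_instance
  have h1 := ACS.H72.mean_le (d := d) (M := M) v hz c (H99.msw d M E L)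
  have h2 : Integrable (ph (d := d) (M := M) E L z c) (gau d M v) := by
    refine Integrable.of_bound (ph_meas E L hz c).aestronglyMeasurable 1
      (Eventually.of_forall fun U => ?_)
    rw [Real.norm_eq_abs, abs_of_nonneg (ph_bd E L z c U).1]
    exact (ph_bd E L z c U).2
  rw [ofReal_integral_eq_lintegral_ofReal h2 (Eventually.of_forall fun U => (ph_bd E L z c U).1)]
  refine h1.trans (add_le_add (le_of_eq ?_) le_rfl)
  refine lintegral_congr fun U => ?_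
  by_cases hU : WL E L U
  · rw [Set.indicator_of_mem (show U ∈ {U | WL E L U} from hU)]
    unfold ph
    rw [Set.indicator_of_mem (show U ∈ {U | WL E L U} from hU), ENNReal.ofReal_div_of_pos card_pos,
      ENNReal.ofReal_natCast, ENNReal.ofReal_natCast]
    rfl
  · rw [Set.indicator_of_notMem (show U ∉ {U | WL E L U} from hU), ph_out E L z c U hU,
      ENNReal.ofReal_zero]

end fun_

/-! ### One environment -/

/-- the deterministic end -/
def EndP {d : ℕ} (Z : Prd d) (c C : ℝ) (V : Env d) : Prop :=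
  ∀ (n : ℕ) (T : Cfg V.X) (run : Finset V.X),
    Z.HS V n (V.kk (V.N + 1)) T run →
      (∀ x ∈ run, T.s x = V.cl (V.kk (V.N + 1))) → (∀ x, x ∉ run → T.s x = 0) →
      (((Finset.univ.filter fun x => (rs T.V ⟨V.E, (V.cl (V.kk (V.N + 1)) : ℝ)⟩ x x).im <
        cL c C).card : ℕ) : ℝ) ≤ ∑ b ∈ Finset.univ \ run,
          (1 + cU c C * (rs T.V ⟨V.E, (V.cl (V.kk (V.N + 1)) : ℝ)⟩ b b).im)

/-- ONE ENVIRONMENT -/
theorem one {d : ℕ} {c C : ℝ} (hc : 0 < c) (hC : 1 ≤ C) (Z : Prd d) (V : Env d)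
    (hth : 1 / 2 ≤ V.th) (hth1 : V.th < 1) (hw : 0 < V.w) (hS : V.Sc) (hN : 1 ≤ V.N)
    (hF : Fields Z V) (hI : IniVP Z V) (hE : EndP Z c C V) {π c' W : ℕ → ℝ}
    (hn : H34.Num8 d V.th V.J V.β V.w V.N V.μ V.kk V.l V.r 1 (2 * cU c C) π c' W)
    (hL : gau d (2 ^ V.μ) V.w {U | ¬ WL V.E V.L U} ≤ ENNReal.ofReal (1 / 16))
    (ht : gm (fun _ : V.X => (0 : ℝ)) (fun _ => V.cl (V.kk (V.N + 1)))
      {V₀ | ¬ ∀ x, |V₀ x| ≤ (V.w : ℝ) ^ 2} ≤ ENNReal.ofReal (1 / 16)) :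
    ENNReal.ofReal (1 / 2) ≤ gau d (2 ^ V.μ) V.w
      {U | cL c C ≤ (rs U ⟨V.E, (V.cl (V.kk (V.N + 1)) : ℝ)⟩ 0 0).im} := by
  have hth0 : 0 < V.th := lt_of_lt_of_le (by norm_num) hth
  obtain ⟨f, hf⟩ : ∃ f : ℝ≥0, f = V.cl (V.kk (V.N + 1)) := ⟨_, rfl⟩
  have hf0 : 0 < f := by
    rw [hf]
    unfold Env.cl AND2B.cl
    positivity
  have hfr : (0 : ℝ) < f := by exact_mod_cast hf0
  have hz : 0 < (⟨V.E, (f : ℝ)⟩ : ℂ).im := hfr
  have hcU : 0 < cU c C := cU_pos hc hC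
  have hX : (Fintype.card V.X : ℝ) = ((2 : ℝ) ^ V.μ) ^ d := H48.card_tor
  have hX0 : (0 : ℝ) < ((2 : ℝ) ^ V.μ) ^ d := by positivity
  have h1 : ∫ U, ph V.E V.L ⟨V.E, (f : ℝ)⟩ (cL c C) U ∂(gm (fun _ : V.X => 0) fun _ => V.w) ≤
      0 + 1 / 16 + (gm (fun _ : V.X => (0 : ℝ)) (fun _ => V.cl (V.kk (V.N + 1)))).real
        {V₀ | ∃ x, (V.w : ℝ) ^ 2 < |V₀ x|} := by
    refine core1 Z V hth hth1 hw hS hN hF hn hn.sum
      (ph V.E V.L ⟨V.E, (f : ℝ)⟩ (cL c C))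
      (fun x U => (1 + cU c C * psi V.E (f : ℝ) U x) / ((2 : ℝ) ^ V.μ) ^ d)
      (K := (1 + cU c C * (1 / f)) / ((2 : ℝ) ^ V.μ) ^ d)
      (ph_meas V.E V.L hz _) (ph_bd V.E V.L _ _) ?_ ?_ le_rfl (by norm_num) ?_
      (fun U hU => ph_out V.E V.L _ _ U hU) ((V.w : ℝ) ^ 2)
      (fun V₀ hV₀ => ⟨_, hI V₀ hV₀⟩) ?_
    · intro x
      exact (((psi_meas V.E hfr x).const_mul _).const_add _).div_const _
    · intro x U
      have h2 := psi_nonneg V.E hfr U x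
      have h3 := psi_le V.E hfr U x
      refine ⟨by positivity, ?_⟩
      gcongr
    · intro x a r hr
      have h2 := psi_int2 V.E hfr a r x hr
      have h3 : Integrable (fun U => psi V.E (f : ℝ) U x) (gm a r) := psi_integrable V.E hfr x _
      rw [integral_div, integral_add (integrable_const _) (h3.const_mul _), integral_const_mul]
      have h4 : ∫ _ : V.X → ℝ, (1 : ℝ) ∂(gm a r) = 1 := by simp
      rw [h4]
      refine div_le_div_of_nonneg_right ?_ hX0.le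
      have h5 : 2 * cU c C / Real.sqrt (r x) = cU c C * (2 / Real.sqrt (r x)) := by ring
      rw [h5]
      gcongr
    · intro T run hHS hFc hdead
      have h2 : ∀ x ∈ run, T.s x = V.cl (V.kk (V.N + 1)) := by
        intro x hx
        have h3 := hFc.runs x hx
        rw [if_neg (Finset.notMem_empty x)] at h3
        exact h3
      have h3 := hE (V.N + 1) T run hHS h2 hdead
      rw [← hf] at h3
      refine (ph_le V.E V.L _ _ T.V).trans ?_
      rw [hX, zero_add, ← Finset.sum_div]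
      refine div_le_div_of_nonneg_right ?_ hX0.le
      refine h3.trans (le_of_eq ?_)
      refine Finset.sum_congr rfl fun b _ => ?_
      rw [psi_rs]
  have h2 : (gm (fun _ : V.X => (0 : ℝ)) (fun _ => V.cl (V.kk (V.N + 1)))).real
      {V₀ | ∃ x, (V.w : ℝ) ^ 2 < |V₀ x|} ≤ 1 / 16 := by
    have h3 : {V₀ : V.X → ℝ | ∃ x, (V.w : ℝ) ^ 2 < |V₀ x|} =
        {V₀ | ¬ ∀ x, |V₀ x| ≤ (V.w : ℝ) ^ 2} := by
      ext V₀
      simp only [Set.mem_ofPred_eq, not_forall, not_le]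
    rw [h3]
    exact ENNReal.toReal_le_of_le_ofReal (by norm_num) ht
  have h3 : gm (fun _ : V.X => (0 : ℝ)) (fun _ => V.w) = gau d (2 ^ V.μ) V.w := rfl
  rw [h3] at h1
  have h4 := mean (d := d) (M := 2 ^ V.μ) V.w V.E V.L hz (cL c C)
  have h5 : gau d (2 ^ V.μ) V.w {U | (rs U ⟨V.E, (f : ℝ)⟩ 0 0).im < cL c C} ≤
      ENNReal.ofReal (3 / 16) := by
    refine h4.trans ((add_le_add (ENNReal.ofReal_le_ofReal (q := 1 / 8) (by linarith only [h1, h2])) hL).trans ?_)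
    rw [← ENNReal.ofReal_add (by norm_num) (by norm_num)]
    norm_num
  have h6 := ACS.H72.ge_of_lt (v := V.w) hz (by norm_num : (0 : ℝ) ≤ 3 / 16) h5
  rw [← hf]
  exact (ENNReal.ofReal_le_ofReal (by norm_num)).trans h6

/-! ### The statements -/

/-- the nine fields -/
def NineStmt : Prop :=
  ∀ (d : ℕ) (a c C : ℝ), 3 ≤ d → 0 < a → 0 < c → c ≤ 1 / 2 → 1 ≤ C →
    Ev d a es c C fun V => Fields (AHH.Z d a es c C) V

/-- IniV -/
def IniVStmt : Prop :=
  ∀ (d : ℕ) (a c C : ℝ), 3 ≤ d → 0 < a → 0 < c → c ≤ 1 / 2 → 1 ≤ C →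
    Ev d a es c C fun V => IniVP (AHH.Z d a es c C) V

/-- TOR: THE RESULT ON THE TORUS -/
def TorStmt : Prop :=
  ∀ (d : ℕ) (a : ℝ), 3 ≤ d → 0 < a → ∃ s₀ c : ℝ, 0 < s₀ ∧ 0 < c ∧
    ∀ v : ℝ≥0, 0 < v → (v : ℝ) ≤ s₀ → ∃ (η : ℕ → ℝ) (μ : ℕ → ℕ), (∀ n, 0 < η n) ∧
      Tendsto η atTop (𝓝 0) ∧ (∀ n, 1 ≤ η n ^ 2 * ((2 ^ μ n : ℕ) : ℝ)) ∧
      ∀ E : ℝ, |E| < 2 * d - a → ∀ᶠ n in atTop, ENNReal.ofReal (1 / 2) ≤
        gau d (2 ^ μ n) v {U | c ≤ (rs U ⟨E, η n⟩ 0 0).im}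

/-- LAT: THE RESULT ON THE LATTICE -/
def LatStmt : Prop :=
  ∀ (d : ℕ) (a : ℝ), 3 ≤ d → 0 < a → ∃ s₀ : ℝ, 0 < s₀ ∧ ∀ σ : ℝ, σ ≠ 0 → |σ| ≤ s₀ →
    ∃ (c p : ℝ) (η : ℕ → ℝ), 0 < c ∧ 0 < p ∧ (∀ n, 0 < η n) ∧ Tendsto η atTop (𝓝 0) ∧
      ∀ E ∈ Set.Ioo (-(2 * (d : ℝ) - a)) (2 * d - a), ∀ᶠ n in atTop,
        ENNReal.ofReal p ≤ PP d (gl σ) {V | c ≤ (G V (zz (η n) E) (del 0) 0).im}

/-- ACX: ABSOLUTELY CONTINUOUS SPECTRUM -/
def AcxStmt : Prop :=
  ∀ (d : ℕ) (a : ℝ), 3 ≤ d → 0 < a → ∃ s₀ : ℝ, 0 < s₀ ∧ ∀ σ : ℝ, σ ≠ 0 → |σ| ≤ s₀ →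
    ∀ᵐ V ∂(PP d (gl σ)), ACE.ACIn V (-(2 * (d : ℝ) - a)) (2 * d - a)

/-! ### Elimination of `Ev`, with `c₁ ≤ 1` -/

theorem ev_elim1 {d : ℕ} {a es c C : ℝ} (hc : 0 < c) (hc' : c ≤ 1 / 2) (hC : 1 ≤ C)
    (hst : ∀ (M : ℕ) [NeZero M] (E η T : ℝ), |E| ≤ 2 * d - a → 0 < η → η ≤ T → T ≤ c →
      C / T ^ 2 ≤ M → ∃ m ζ : ℂ, ANI.Start2 d M E η T es m ζ c C)
    {P : Env d → Prop} (hall : Ev d a es c C P) :
    ∃ (th : ℝ≥0) (c₁ : ℝ), 1 / 2 ≤ th ∧ th < 1 ∧ 0 < c₁ ∧ c₁ ≤ 1 ∧ ∀ (C₁ : ℝ) (α J : ℕ), 2 ≤ α →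
      ∃ β w₀ : ℝ, 0 < β ∧ 0 < w₀ ∧ ∀ (w : ℝ≥0) (E : ℝ), 0 < w → (w : ℝ) ≤ w₀ →
      |E| < 2 * d - a → ∃ ε : ℝ, 0 < ε ∧ ∀ (A : ℝ) (R : ℕ), ∃ t₀ : ℝ, 0 < t₀ ∧
      ∀ t : ℝ, 0 < t → t ≤ t₀ → ∀ (N μ : ℕ) (kk l r Kn Dn : ℕ → ℕ),
        Scal d th c₁ C₁ α J β w t N μ kk l r Kn Dn → ∀ L : ℝ, 1 ≤ L →
        ∃ (e₀ : ℝ) (m ζ : ℂ),
          (⟨th, c₁, C₁, α, J, β, w, E, ε, A, R, t, N, μ, kk, l, r, Kn, Dn, L, e₀, m, ζ⟩ :
            Env d).Good a es c C ∧
          P ⟨th, c₁, C₁, α, J, β, w, E, ε, A, R, t, N, μ, kk, l, r, Kn, Dn, L, e₀, m, ζ⟩ := by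
  obtain ⟨τ₀, k₁, hτ, hk, hall⟩ := hall
  have hth1 : max (1 / 2 : ℝ) (1 - τ₀) < 1 := max_lt (by norm_num) (by linarith)
  have hth0 : (0 : ℝ) ≤ max (1 / 2 : ℝ) (1 - τ₀) := le_max_of_le_left (by norm_num)
  set th : ℝ≥0 := ⟨max (1 / 2 : ℝ) (1 - τ₀), hth0⟩ with hth
  have hthc : (th : ℝ) = max (1 / 2 : ℝ) (1 - τ₀) := rfl
  have h1 : (1 / 2 : ℝ≥0) ≤ th := by
    rw [← NNReal.coe_le_coe, hthc]
    push_cast
    exact le_max_left _ _
  have h2 : 1 - τ₀ ≤ (th : ℝ) := by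
    rw [hthc]
    exact le_max_right _ _
  have h3 : th < 1 := by
    rw [← NNReal.coe_lt_coe, hthc]
    push_cast
    exact hth1
  refine ⟨th, min k₁ 1, h1, h3, lt_min hk one_pos, min_le_right _ _, fun C₁ α J hα => ?_⟩
  obtain ⟨β₀, w₀, hβ₀, hw₀, hall⟩ := hall th (min k₁ 1) h1 h2 h3 (lt_min hk one_pos)
    (min_le_left _ _) C₁ α J hα
  have hC0 : 0 < C := by linarith only [hc, hc', hC]
  refine ⟨β₀, min w₀ (min c (1 / C)), hβ₀, lt_min hw₀ (lt_min hc (by positivity)), ?_⟩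
  intro w E hw hw' hE
  have hwc : (w : ℝ) ≤ c := hw'.trans ((min_le_right _ _).trans (min_le_left _ _))
  have hwC : (w : ℝ) ≤ 1 / C := hw'.trans ((min_le_right _ _).trans (min_le_right _ _))
  have hw0 : (0 : ℝ) < w := by exact_mod_cast hw
  obtain ⟨ε₀, hε₀, hall⟩ := hall β₀ w E hβ₀ le_rfl hw (hw'.trans (min_le_left _ _)) hE
  refine ⟨ε₀, hε₀, fun A R => ?_⟩
  obtain ⟨t₀, ht₀, hall⟩ := hall ε₀ hε₀ le_rfl A R
  refine ⟨t₀, ht₀, fun t ht htt N μ kk l r Kn Dn hS L hL => ?_⟩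
  obtain ⟨e₁, he₁, hall⟩ := hall t ht htt N μ kk l r Kn Dn hS L hL
  have he : 0 < min e₁ w := lt_min he₁ hw0
  have hM := H28.torus_large (C := C) (lt_of_lt_of_le (by norm_num) h1) h3 hw (by linarith only [hc, hc', hwc]) hC0
    hwC hS
  obtain ⟨m, ζ, hm⟩ := hst (2 ^ μ) E (min e₁ w) w hE.le he (min_le_right _ _) hwc hM
  refine ⟨min e₁ w, m, ζ, ?_, hall (min e₁ w) he (min_le_left _ _) m ζ hm⟩
  exact ⟨⟨⟨h1, h3⟩, lt_min hk one_pos, hα, hβ₀, hw, hE, hε₀, ht, hS, hL⟩, he, hm⟩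

/-! ### The torus -/

theorem tor (hStb : ANI.StbStmt) (nine : NineStmt) (iniV : IniVStmt) : TorStmt := by
  intro d a hd ha
  obtain ⟨c, C, hc, hc', hC, hst⟩ := hStb d a es hd ha (by norm_num [es]) (by norm_num [es])
  have hall : Ev d a es c C fun V => (Fields (AHH.Z d a es c C) V ∧ IniVP (AHH.Z d a es c C) V) ∧
      EndP (AHH.Z d a es c C) c C V :=
    ((nine d a c C hd ha hc hc' hC).and (iniV d a c C hd ha hc hc' hC)).and
      (endZ d a es c C hc hc' hC)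
  obtain ⟨th, c₁, h1, h2, h3, h4, hall⟩ := ev_elim1 hc hc' hC hst hall
  obtain ⟨C₁, α, J, hα, hp8⟩ := H34.p8 d th c₁ hd h1 h2 h3 h4
  obtain ⟨β, w₀, hβ, hw₀, hall⟩ := hall C₁ α J (by omega)
  have hcU : 0 < cU c C := cU_pos hc hC
  obtain ⟨w₁, hw₁, hw₁1, hp8⟩ := hp8 β hβ 1 (2 * cU c C) zero_le_one (by positivity)
  refine ⟨min w₀ w₁, cL c C, lt_min hw₀ hw₁, cL_pos hc hC, fun v hv hvs => ?_⟩
  have hv0 : (0 : ℝ) < v := by exact_mod_cast hv
  have hth0 : 0 < th := lt_of_lt_of_le (by norm_num) h1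
  obtain ⟨t₁, ht₁, ht₁1, htail⟩ := H48.start_tail d (v : ℝ) (C₁ * (α + 1)) hv0
  have hsc : ∀ n : ℕ, ∃ (N μ : ℕ) (kk l r Kn Dn : ℕ → ℕ), 2 ≤ N ∧
      Scal d th c₁ C₁ α J β v (min t₁ (1 / ((n : ℝ) + 1))) N μ kk l r Kn Dn ∧
      ∃ π c' W : ℕ → ℝ, H34.Num8 d th J β v N μ kk l r 1 (2 * cU c C) π c' W := by
    intro n
    obtain ⟨N, μ, kk, l, r, Kn, Dn, g1, -, g2, g3⟩ := hp8 v (min t₁ (1 / ((n : ℝ) + 1))) 1 hv
      (hvs.trans (min_le_right _ _)) (lt_min ht₁ (by positivity))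
    exact ⟨N, μ, kk, l, r, Kn, Dn, g1, g2, g3⟩
  choose N μ kk l r Kn Dn hN hS π c' W hnum using hsc
  have hfpos : ∀ n, 0 < cl v th (kk n (N n + 1)) := fun n => by
    unfold AND2B.cl
    positivity
  have hfr : ∀ n, (0 : ℝ) < cl v th (kk n (N n + 1)) := fun n => by exact_mod_cast hfpos n
  have hfle : ∀ n, (cl v th (kk n (N n + 1)) : ℝ) ≤ min t₁ (1 / ((n : ℝ) + 1)) := fun n =>
    (hS n).fin
  refine ⟨fun n => (cl v th (kk n (N n + 1)) : ℝ), μ, hfr, ?_, ?_, ?_⟩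
  · refine squeeze_zero (fun n => (hfr n).le) (fun n => (hfle n).trans (min_le_right _ _))
      tendsto_one_div_add_atTop_nhds_zero_nat
  · intro n
    have g1 := (hS n).mN
    have g2 : (cl v th (kk n (N n + 1)) : ℝ) ≤ 1 := (hfle n).trans ((min_le_left _ _).trans ht₁1)
    have g3 : (1 : ℝ) ≤ (cl v th (kk n (N n + 1)) : ℝ) ^ 2 *
        (cl v th (kk n (N n + 1)) : ℝ) ^ (-(5 : ℝ)) := by
      rw [← Real.rpow_natCast, ← Real.rpow_add (hfr n)]
      refine Real.one_le_rpow_of_pos_of_le_one_of_nonpos (hfr n) g2 ?_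
      norm_num
    have g4 : ((2 ^ μ n : ℕ) : ℝ) = (2 : ℝ) ^ μ n := by push_cast; rfl
    rw [g4]
    refine g3.trans (mul_le_mul_of_nonneg_left g1 (by positivity))
  · intro E hE
    obtain ⟨ε, hε, hall⟩ := hall v E hv (hvs.trans (min_le_left _ _)) hE
    obtain ⟨t₀, ht₀, hall⟩ := hall 0 0
    have hev : ∀ᶠ n : ℕ in atTop, 1 / ((n : ℝ) + 1) ≤ t₀ :=
      tendsto_one_div_add_atTop_nhds_zero_nat.eventually (ge_mem_nhds ht₀)
    filter_upwards [hev] with n hn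
    obtain ⟨L, hL, hWL⟩ := H99.wlp d (2 ^ μ n) E (1 / 16) v hv.ne' (by norm_num)
    obtain ⟨e₀, m, ζ, hG, ⟨hF, hI⟩, hEn⟩ := hall (min t₁ (1 / ((n : ℝ) + 1)))
      (lt_min ht₁ (by positivity)) ((min_le_right _ _).trans hn) (N n) (μ n) (kk n) (l n) (r n)
      (Kn n) (Dn n) (hS n) L hL
    refine one hc hC (AHH.Z d a es c C) _ h1 h2 hv (hS n) (by have := hN n; exact le_trans (by norm_num) this) hF hI hEn (hnum n) hWL ?_
    exact htail _ (μ n) (hfpos n) ((hfle n).trans (min_le_left _ _)) (hS n).mU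

/-! ### The lattice -/

theorem lat (h : TorStmt) : LatStmt := by
  intro d a hd ha
  obtain ⟨s₀, c, hs₀, hc, h⟩ := h d a hd ha
  refine ⟨Real.sqrt s₀, Real.sqrt_pos.2 hs₀, fun σ hσ hσ' => ?_⟩
  have h2 : σ ^ 2 ≤ s₀ := by
    rw [← sq_abs]
    calc |σ| ^ 2 ≤ Real.sqrt s₀ ^ 2 := by gcongr
      _ = s₀ := Real.sq_sqrt hs₀.le
  obtain ⟨v, hv⟩ : ∃ v : ℝ≥0, (v : ℝ) = σ ^ 2 := ⟨⟨σ ^ 2, sq_nonneg σ⟩, rfl⟩
  have hv0 : 0 < v := by
    rw [← NNReal.coe_pos, hv]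
    positivity
  obtain ⟨η, μ, hη, hlim, hM, h⟩ := h v hv0 (by rw [hv]; exact h2)
  refine ⟨c / 2, 1 / 2, η, by positivity, by norm_num, hη, hlim, ?_⟩
  refine ACS.H72.lawS (d := d) (σ := σ) (c := c) (p := 1 / 2) hσ hc (η := η)
    (M := fun n => 2 ^ μ n) (fun n => inferInstance) hη hlim hM ?_
  intro E hE
  have hE' : |E| < 2 * d - a := abs_lt.2 hE
  filter_upwards [h E hE'] with n hn
  intro v' hv'
  have : v' = v := NNReal.coe_injective (by rw [hv', hv])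
  subst this
  exact hn

/-- the spectrum -/
theorem acx (h : LatStmt) (hA : ACE.AceStmt) : AcxStmt := by
  intro d a hd ha
  obtain ⟨s₀, hs₀, h⟩ := h d a hd ha
  refine ⟨s₀, hs₀, fun σ hσ hσ' => ?_⟩
  obtain ⟨c, p, η, hc, hp, hη, hlim, h⟩ := h σ hσ hσ'
  refine hA d σ _ _ (by omega) hσ ⟨η, hη, hlim, ?_⟩
  refine (ae_restrict_iff' measurableSet_Ioo).2 (Eventually.of_forall fun E hE => ?_)
  exact ⟨c, ENNReal.ofReal p, hc, (ENNReal.ofReal_pos.2 hp).ne', h E hE⟩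

end Pool.Agent.ACX.TOP
end
end -- Pool.Agent.ACX.Top

section -- Pool.Agent.Helper16_QDA.Mean

/-!
# QDA: the mean over the sites of a torus, for an event at a site

`Bad U E η c ε r R x` is measurable in `U` and covariant under translations.
-/

set_option autoImplicit false

open MeasureTheory ProbabilityTheory Filter

open scoped ENNReal BigOperators NNReal

noncomputable section

namespace Pool.Agent.QDA.H16

open Pool.Agent.BED (Tor gau tr)
open Pool.Agent.ACX.H38 (gr_rs gr_cont')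
open Pool.Agent.AND2B (Hr)

variable {d M : ℕ} [NeZero M]

/-- THE MEAN OVER THE SITES, any covariant event -/
theorem mean_gen (v : ℝ≥0) (P : (Tor d M → ℝ) → Tor d M → Prop)
    (hP : ∀ U x, P U x ↔ P (tr x U) 0) (hm : ∀ x, MeasurableSet {U | P U x})
    {W : Set (Tor d M → ℝ)} (hW : MeasurableSet W) [∀ U, DecidablePred (P U)] :
    gau d M v {U | P U 0} ≤
      ∫⁻ U, W.indicator (fun U => ((Finset.univ.filter fun x : Tor d M => P U x).card : ℝ≥0∞) /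
        (Fintype.card (Tor d M) : ℝ≥0∞)) U ∂(gau d M v) + gau d M v Wᶜ := by
  set g := gau d M v with hg
  have hc0 : (Fintype.card (Tor d M) : ℝ≥0∞) ≠ 0 := by
    exact_mod_cast Fintype.card_ne_zero
  have hct : (Fintype.card (Tor d M) : ℝ≥0∞) ≠ ∞ := ENNReal.natCast_ne_top _
  have hx : ∀ x, g {U | P U x} = g {U | P U 0} := by
    intro x
    have h1 := (ACS.H72.mp_tr (d := d) (M := M) v x).measure_preimage (hm 0).nullMeasurableSet
    rw [← h1]
    congr 1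
    ext U
    exact hP U x
  have h0 : g {U | P U 0} = (∑ x, g {U | P U x}) / (Fintype.card (Tor d M) : ℝ≥0∞) := by
    rw [ENNReal.eq_div_iff hc0 hct, Finset.sum_congr rfl fun x _ => hx x, Finset.sum_const,
      Finset.card_univ, nsmul_eq_mul]
  have h1 : ∀ U, ((Finset.univ.filter fun x : Tor d M => P U x).card : ℝ≥0∞) =
      ∑ x : Tor d M, ({U | P U x} : Set (Tor d M → ℝ)).indicator
        (1 : (Tor d M → ℝ) → ℝ≥0∞) U := by
    intro U
    rw [Finset.card_filter]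
    push_cast
    refine Finset.sum_congr rfl fun x _ => ?_
    by_cases h : P U x
    · rw [if_pos h, Set.indicator_of_mem (show U ∈ {U | P U x} from h)]
      rfl
    · rw [if_neg h, Set.indicator_of_notMem (show U ∉ {U | P U x} from h)]
  have h2 : ∫⁻ U, ((Finset.univ.filter fun x : Tor d M => P U x).card : ℝ≥0∞) /
      (Fintype.card (Tor d M) : ℝ≥0∞) ∂g = g {U | P U 0} := by
    rw [h0]
    simp_rw [h1, ENNReal.div_eq_inv_mul]
    rw [lintegral_const_mul _ (Finset.measurable_fun_sum _ fun x _ =>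
      measurable_one.indicator (hm x)), lintegral_finsetSum _ fun x _ =>
      measurable_one.indicator (hm x)]
    congr 1
    refine Finset.sum_congr rfl fun x _ => ?_
    rw [lintegral_indicator_one (hm x)]
  have h3 : g {U | P U 0} ≤ ∫⁻ U, (W.indicator (fun U => ((Finset.univ.filter
      fun x : Tor d M => P U x).card : ℝ≥0∞) / (Fintype.card (Tor d M) : ℝ≥0∞)) U +
        (Wᶜ).indicator 1 U) ∂g := by
    rw [← h2]
    refine lintegral_mono fun U => ?_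
    by_cases hV : U ∈ W
    · rw [Set.indicator_of_mem hV]
      exact le_self_add
    · rw [Set.indicator_of_notMem hV, Set.indicator_of_mem (show U ∈ Wᶜ from hV), zero_add]
      rw [Pi.one_apply]
      refine ENNReal.div_le_of_le_mul ?_
      rw [one_mul]
      exact_mod_cast Finset.card_le_univ _
  refine h3.trans ?_
  rw [lintegral_add_right _ (measurable_one.indicator hW.compl), lintegral_indicator_one hW.compl]

/-- the resolvent of the translated potential -/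
theorem gt_tr (U : Tor d M → ℝ) (E η : ℝ) (x y w : Tor d M) :
    Gt (tr x U) E η y w = Gt U E η (x + y) (x + w) := by
  unfold Gt
  rw [gr_rs, gr_rs, ACS.H72.rs_tr]

theorem sd_add (x y w : Fin d → ZMod M) : ANP.H61.sd (x + y) (x + w) = ANP.H61.sd y w := by
  unfold ANP.H61.sd ANP.H61.cd
  congr 1
  funext i
  rw [Pi.add_apply, Pi.add_apply, add_sub_add_left_eq_sub]

/-- `Bad` is covariant -/
theorem bad_tr (U : Tor d M → ℝ) (E η c ε : ℝ) (r R : ℕ) (x : Tor d M) :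
    Bad U E η c ε r R x ↔ Bad (tr x U) E η c ε r R 0 := by
  have h1 : Gt (tr x U) E η 0 0 = Gt U E η x x := by rw [gt_tr, add_zero]
  have h2 : ∀ (p : ℕ → Prop) [DecidablePred p],
      ∑ y, (if p (ANP.H61.sd (0 : Tor d M) y) then ‖Gt (tr x U) E η 0 y‖ ^ 2 else 0) =
        ∑ y, (if p (ANP.H61.sd x y) then ‖Gt U E η x y‖ ^ 2 else 0) := by
    intro p _
    rw [← Equiv.sum_comp (Equiv.addLeft x)
      (fun y => if p (ANP.H61.sd x y) then ‖Gt U E η x y‖ ^ 2 else 0)]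
    refine Finset.sum_congr rfl fun y _ => ?_
    have h3 : ANP.H61.sd x (x + y) = ANP.H61.sd (0 : Tor d M) y := by
      have := sd_add x 0 y
      rwa [add_zero] at this
    rw [Equiv.coe_addLeft, h3, gt_tr, add_zero]
  unfold Bad
  rw [h1, h2 (fun n => n < r), h2 (fun n => R ≤ n)]

/-- `Bad` is measurable -/
theorem bad_meas (E : ℝ) {η : ℝ} (hη : 0 < η) (c ε : ℝ) (r R : ℕ) (x : Tor d M) :
    MeasurableSet {U : Tor d M → ℝ | Bad U E η c ε r R x} := by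
  have hG : ∀ y, Measurable fun U : Tor d M → ℝ => Gt U E η x y :=
    fun y => (gr_cont' E hη x y).measurable
  have hi : Measurable fun U : Tor d M → ℝ => (Gt U E η x x).im :=
    Complex.measurable_im.comp (hG x)
  have hs : ∀ (p : ℕ → Prop) [DecidablePred p], Measurable fun U : Tor d M → ℝ =>
      η * ∑ y, (if p (ANP.H61.sd x y) then ‖Gt U E η x y‖ ^ 2 else 0) := by
    intro p _
    refine measurable_const.mul (Finset.measurable_fun_sum _ fun y _ => ?_)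
    split_ifs
    · exact (hG y).norm.pow_const 2
    · exact measurable_const
  have h : {U : Tor d M → ℝ | Bad U E η c ε r R x} =
      ({U | (Gt U E η x x).im < c} ∪ {U | 1 / c < (Gt U E η x x).im}) ∪
      ({U | ε < η * ∑ y, (if ANP.H61.sd x y < r then ‖Gt U E η x y‖ ^ 2 else 0)} ∪
        {U | ε < η * ∑ y, (if R ≤ ANP.H61.sd x y then ‖Gt U E η x y‖ ^ 2 else 0)}) := by
    ext U
    unfold Bad
    simp only [Set.mem_union, Set.mem_ofPred_eq]
    tauto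
  rw [h]
  refine ((measurableSet_lt hi measurable_const).union
    (measurableSet_lt measurable_const hi)).union
    ((measurableSet_lt measurable_const (hs fun n => n < r)).union
      (measurableSet_lt measurable_const (hs fun n => R ≤ n)))

/-- a constant shift of the potential is a shift of the energy -/
theorem gt_shift (U : Tor d M → ℝ) (t E η : ℝ) : Gt (fun x => U x - t) E η = Gt U (E + t) η := by
  have h : Hr (fun x => U x - t) E = Hr U (E + t) := by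
    unfold Hr
    congr 1
    congr 1
    funext x
    ring
  unfold Gt
  rw [h]

theorem bad_shift (U : Tor d M → ℝ) (t E η c ε : ℝ) (r R : ℕ) (x : Tor d M) :
    Bad (fun x => U x - t) E η c ε r R x ↔ Bad U (E + t) η c ε r R x := by
  unfold Bad
  rw [gt_shift]

end Pool.Agent.QDA.H16
end
end -- Pool.Agent.Helper16_QDA.Mean

section -- Pool.Agent.Helper16_QDA.Phq

/-!
# QDA, row PHQ: the protocol applied to the bad sites, one environment
-/

set_option autoImplicit false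

open MeasureTheory ProbabilityTheory Filter

open scoped ENNReal BigOperators NNReal

noncomputable section

namespace Pool.Agent.QDA.H16

open Pool.Agent.BED (Tor gau tr)
open Pool.Agent.ACX.H38 (gr_rs gr_cont' psi psi_nonneg psi_le psi_meas psi_int2 psi_integrable)
open Pool.Agent.AND2B (Hr WL)
open Pool.Agent.ANP (Cfg gm)
open Pool.Agent.AHH (toE bud Al St ww Ef FB)
open Pool.Agent.ACX.CORE (Fields core1)
open Pool.Agent.ACX (H34.Num8)

/-- from the last configuration to the hypotheses of `EdqStmt` -/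
theorem end_edq {d : ℕ} (V : AND2B.Env d) {c C K δ ε : ℝ} (hd : 3 ≤ d) (hc : 0 < c) (hC : 1 ≤ C)
    (hth : 1 / 2 ≤ V.th) (hth1 : V.th < 1) (hw : 0 < V.w) (hS : V.Sc)
    (hE : ∀ (μ j R : ℕ) (T : Cfg (Tor d (2 ^ μ))) (E e₀ f D₀ D₁ : ℝ) (m₀ : ℂ)
      (U : Tor d (2 ^ μ) → ℝ),
    0 < e₀ → 0 < f → e₀ ≤ δ * f → c / 2 ≤ m₀.im → ‖m₀‖ ≤ 2 * C →
    (∀ x, (T.s x : ℝ) = 0 ∨ (T.s x : ℝ) = f) →
    (∀ x, (T.s x : ℝ) = f → ‖T.mb x - m₀‖ ≤ δ ∧ ‖AND2B.net E e₀ T x x - T.mb x‖ ≤ δ) →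
    (∀ x, (T.s x : ℝ) = f → U x = T.V x - f * m₀.re) →
    (∀ x, (T.s x : ℝ) = 0 → |U x - T.V x| ≤ 2 * C * f) →
    (∃ (εl εu : Tor d (2 ^ μ) → ℝ) (bl bu : LTG.Bd d (2 ^ μ) → ℝ),
      LTG.Fm LTG.sT LTG.tT (Al T) (ww e₀ T) εl εu bl bu (LTG.qd (Ef E e₀ T)) ∧
      (∀ x ∈ Al T, 0 ≤ εl x ∧ εl x ≤ δ) ∧ ∀ e, D₀ ≤ bl e ∧ bu e ≤ D₁) →
    0 < D₀ → j + 1 ≤ μ → 1 ≤ R → K * f * 4 ^ j ≤ D₀ → K * 2 ^ j ≤ 2 ^ μ → K * D₁ ≤ f * R ^ 2 →
    2 * ((Finset.univ.filter fun x => (T.s x : ℝ) = 0).card : ℝ) ≤ ((2 : ℝ) ^ μ) ^ d →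
    (∀ [DecidablePred (Bad U E (f * m₀.im) (1 / K) ε (2 ^ j) R)],
    ((Finset.univ.filter fun x => Bad U E (f * m₀.im) (1 / K) ε (2 ^ j) R x).card : ℝ) ≤
      ((Finset.univ.filter fun x => (T.s x : ℝ) = 0).card : ℝ) + ε * ((2 : ℝ) ^ μ) ^ d +
        K * ∑ b ∈ Finset.univ.filter fun x => (T.s x : ℝ) = 0, (Gt U E (f * m₀.im) b b).im))
    (h1 : 3 * (V.w : ℝ) ^ (1 / 20 : ℝ) ≤ δ / 2)
    (h2 : ((V.cl (V.kk (V.N + 1)) : ℝ)) ^ (1 / 8 : ℝ) ≤ δ)
    (h3 : 2 * ((V.cl (V.kk (V.N + 1)) : ℝ)) ^ (AHH.ka V / 2) ≤ δ)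
    (h4 : 3 * (V.w : ℝ) ^ (AHH.ka V / 4) ≤ 1 / 2)
    (he0 : 0 < V.e₀) (he1 : V.e₀ ≤ δ * V.cl (V.kk (V.N + 1)))
    (m₀ : ℂ) (hm1 : c / 2 ≤ m₀.im) (hm2 : ‖m₀‖ ≤ 2 * C) (hm3 : ‖V.m - m₀‖ ≤ δ / 2)
    (j R : ℕ) (hj : j + 1 ≤ V.μ) (hR : 1 ≤ R)
    (hj1 : K * V.cl (V.kk (V.N + 1)) * 4 ^ j ≤ c * (V.w : ℝ) ^ (8 * AHH.es - 1) / 2)
    (hj2 : K * 2 ^ j ≤ (2 : ℝ) ^ V.μ)
    (hR1 : K * (8 * C ^ 3 / V.w) ≤ V.cl (V.kk (V.N + 1)) * (R : ℝ) ^ 2)
    (T : Cfg V.X) (run : Finset V.X) (n : ℕ)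
    (hT : St (toE V c C) (bud V) n (V.kk (V.N + 1)) T run)
    (hFc : V.Fc (V.N + 1) (V.kk (V.N + 1)) ∅ T run) (hdead : ∀ x, x ∉ run → T.s x = 0)
    : ∀ [DecidablePred (Bad T.V (V.E + V.cl (V.kk (V.N + 1)) * m₀.re)
      (V.cl (V.kk (V.N + 1)) * m₀.im) (1 / K) ε (2 ^ j) R)],
    ((Finset.univ.filter fun x => Bad T.V (V.E + V.cl (V.kk (V.N + 1)) * m₀.re)
      (V.cl (V.kk (V.N + 1)) * m₀.im) (1 / K) ε (2 ^ j) R x).card : ℝ) ≤
      ε * ((2 : ℝ) ^ V.μ) ^ d + ∑ b ∈ Finset.univ \ run,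
        (1 + K * psi (V.E + V.cl (V.kk (V.N + 1)) * m₀.re) (V.cl (V.kk (V.N + 1)) * m₀.im)
          T.V b) := by
  classical
  have hth0 : 0 < V.th := lt_of_lt_of_le (by norm_num) hth
  set f : ℝ≥0 := V.cl (V.kk (V.N + 1)) with hf
  have hfp : 0 < f := AHH.cl_pos V hw hth0 _
  have hfp' : (0 : ℝ) < f := by exact_mod_cast hfp
  have hrun : ∀ x ∈ run, T.s x = f := by
    intro x hx
    have := hFc.runs x hx
    rwa [if_neg (Finset.notMem_empty x)] at this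
  have hs : ∀ x, (T.s x : ℝ) = f ↔ x ∈ run := by
    intro x
    constructor
    · intro h
      by_contra hx
      rw [hdead x hx] at h
      push_cast at h
      exact absurd h.symm hfp'.ne'
    · intro hx
      rw [hrun x hx]
  have hs0 : ∀ x, (T.s x : ℝ) = 0 ↔ x ∉ run := by
    intro x
    constructor
    · intro h hx
      rw [hrun x hx] at h
      exact hfp'.ne' h
    · intro hx
      rw [hdead x hx]
      rfl
  have hal : ∀ x, x ∈ Al T ↔ x ∈ run := by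
    intro x
    constructor
    · intro h
      have h5 : 0 < T.s x := by simpa [Al] using h
      by_contra hx
      rw [hdead x hx] at h5
      exact lt_irrefl _ h5
    · exact fun hx => hT.alv hx
  have hfilt : (Finset.univ.filter fun x => (T.s x : ℝ) = 0) = Finset.univ \ run := by
    ext x
    rw [Finset.mem_filter, Finset.mem_sdiff, hs0]
  have hdel : (AHH.qq V n (V.kk (V.N + 1))).del ≤ δ / 2 :=
    ((AHH.gr_bd V hth1.le (by norm_num : (0 : ℝ) < 1 / 20) n _).2).trans h1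
  have hrho0 : 0 ≤ (AHH.qq V n (V.kk (V.N + 1))).rho := by
    have hka : 0 < AHH.ka V / 4 := by
      unfold AHH.ka
      positivity
    exact (Real.rpow_nonneg (NNReal.coe_nonneg _) _).trans (AHH.gr_bd V hth1.le hka n _).1
  have hrho : (AHH.qq V n (V.kk (V.N + 1))).rho ≤ 1 / 2 := by
    have hka : 0 < AHH.ka V / 4 := by
      unfold AHH.ka
      positivity
    exact ((AHH.gr_bd V hth1.le hka n _).2).trans h4
  have heps : (AHH.qq V n (V.kk (V.N + 1))).eps ≤ δ := by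
    refine le_trans ?_ h3
    show (V.cl (V.kk (V.N + 1)) : ℝ) ^ (AHH.ka V / 2) * (2 - V.sg n ^ AHH.ka V) ≤ _
    have h5 : 0 ≤ V.sg n ^ AHH.ka V := Real.rpow_nonneg (NNReal.coe_nonneg _) _
    have h6 : 0 ≤ (V.cl (V.kk (V.N + 1)) : ℝ) ^ (AHH.ka V / 2) :=
      Real.rpow_nonneg (NNReal.coe_nonneg _) _
    nlinarith only [hth, hth1, h5, h6]
  obtain ⟨εl, εu, bl, bu, hFm, hεl, hb⟩ := hT.frm
  have hD₀ : 0 < c * (V.w : ℝ) ^ (8 * AHH.es - 1) / 2 := by
    have : (0 : ℝ) < V.w := by exact_mod_cast hw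
    positivity
  have hw' : (0 : ℝ) < V.w := by exact_mod_cast hw
  have h := hE V.μ j R T V.E V.e₀ f (c * (V.w : ℝ) ^ (8 * AHH.es - 1) / 2) (8 * C ^ 3 / V.w) m₀
    (fun x => T.V x - f * m₀.re) he0 hfp' he1 hm1 hm2
    (fun x => by
      by_cases hx : x ∈ run
      · exact Or.inr ((hs x).2 hx)
      · exact Or.inl ((hs0 x).2 hx))
    (fun x hx => ?_) (fun x _ => rfl) (fun x _ => ?_) ⟨εl, εu, bl, bu, hFm, ?_, ?_⟩ hD₀ hj hR hj1
    hj2 hR1 ?_
  · intro inst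
    have h7 := h
    rw [hfilt] at h7
    refine le_trans (Nat.cast_le.2 (Finset.card_le_card fun x hx => ?_)) (h7.trans (le_of_eq ?_))
    · have hx2 := (@Finset.mem_filter _ _ inst _ _).1 hx
      refine Finset.mem_filter.2 ⟨Finset.mem_univ _, ?_⟩
      rw [bad_shift]
      exact hx2.2
    have e2 : ∀ b, (Gt (fun x => T.V x - f * m₀.re) V.E (f * m₀.im) b b).im =
        psi (V.E + f * m₀.re) (f * m₀.im) T.V b := by
      intro b
      rw [gt_shift]
      rfl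
    simp only [e2]
    rw [Finset.sum_add_distrib, Finset.sum_const, nsmul_eq_mul, mul_one, ← Finset.mul_sum]
    ring
  · have hx' := (hs x).1 hx
    have hg := hT.gau x ((hal x).2 hx')
    refine ⟨?_, ?_⟩
    · have h5 : ‖T.mb x - V.m‖ ≤ δ / 2 := hg.2.2.trans hdel
      calc ‖T.mb x - m₀‖ = ‖(T.mb x - V.m) + (V.m - m₀)‖ := by congr 1; ring
        _ ≤ ‖T.mb x - V.m‖ + ‖V.m - m₀‖ := norm_add_le _ _
        _ ≤ δ := by linarith only [hm3, h5]
    · exact (hT.mis x hx').trans h2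
  · have h5 : |m₀.re| ≤ 2 * C := (Complex.abs_re_le_norm m₀).trans hm2
    have e : T.V x - (f : ℝ) * m₀.re - T.V x = -((f : ℝ) * m₀.re) := by ring
    rw [e, abs_neg, abs_mul, abs_of_pos hfp', mul_comm]
    gcongr
  · intro x hx
    have h5 := hεl x hx
    refine ⟨h5.1, h5.2.1.trans ?_⟩
    simp only [if_pos ((hal x).1 hx)]
    exact heps
  · intro e
    have h5 := hb e
    have hD : (toE V c C).D₀ = c * (V.w : ℝ) ^ (8 * AHH.es - 1) := rfl
    have hD1 : (toE V c C).D₁ = 4 * C ^ 3 / V.w := rfl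
    rw [hD, hD1] at h5
    have h6 : 0 < c * (V.w : ℝ) ^ (8 * AHH.es - 1) := by positivity
    have h7 : 0 < 4 * C ^ 3 / (V.w : ℝ) := by positivity
    have h8 : ((bud V).q n (V.kk (V.N + 1))).rho ≤ 1 / 2 := hrho
    constructor
    · refine le_trans ?_ h5.1
      nlinarith only [hth, hth1, hD₀, h8]
    · refine h5.2.2.trans ?_
      have e : (8 : ℝ) * C ^ 3 / V.w = 4 * C ^ 3 / V.w * 2 := by ring
      rw [e]
      nlinarith only [hth, hth1, h5, h7, h8]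
  · have h5 := ACX.H48.dead_fc hd hS (le_refl (V.N + 1)) hFc
    have h6 : (Finset.univ.filter fun x => (T.s x : ℝ) = 0) =
        Finset.univ.filter fun x => T.s x = 0 := by
      ext x
      rw [Finset.mem_filter, Finset.mem_filter]
      norm_cast
    rw [h6]
    have h7 : (Fintype.card (Tor d (2 ^ V.μ)) : ℝ) = ((2 : ℝ) ^ V.μ) ^ d := by
      rw [Fintype.card_fun, ZMod.card, Fintype.card_fin]
      push_cast
      rfl
    have h8 : (16 : ℝ) * ((Finset.univ.filter fun x => T.s x = 0).card : ℝ) ≤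
        (Fintype.card (Tor d (2 ^ V.μ)) : ℝ) := by exact_mod_cast h5
    rw [h7] at h8
    have h9 : (0 : ℝ) ≤ ((Finset.univ.filter fun x => T.s x = 0).card : ℝ) := Nat.cast_nonneg _
    linarith only [h8]

end Pool.Agent.QDA.H16
end
end -- Pool.Agent.Helper16_QDA.Phq

section -- Pool.Agent.Helper16_QDA.PhqE

/-!
# QDA, row PHQ: the protocol applied to the bad sites, one environment: the theorem `phqE`
-/

set_option autoImplicit false

open MeasureTheory ProbabilityTheory Filter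

open scoped ENNReal BigOperators NNReal

noncomputable section

namespace Pool.Agent.QDA.H16

open Pool.Agent.BED (Tor gau tr)
open Pool.Agent.ACX.H38 (gr_rs gr_cont' psi psi_nonneg psi_le psi_meas psi_int2 psi_integrable)
open Pool.Agent.AND2B (Hr WL)
open Pool.Agent.ANP (Cfg gm)
open Pool.Agent.AHH (toE bud Al St ww Ef FB)
open Pool.Agent.ACX.CORE (Fields core1)
open Pool.Agent.ACX (H34.Num8)

open Classical in
/-- the number of bad sites is measurable -/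
theorem card_meas {d M : ℕ} [NeZero M] (E : ℝ) {η : ℝ} (hη : 0 < η) (c ε : ℝ) (r R : ℕ) :
    Measurable fun U : Tor d M → ℝ =>
      ((Finset.univ.filter fun x : Tor d M => Bad U E η c ε r R x).card : ℝ) := by
  have h : (fun U : Tor d M → ℝ =>
      ((Finset.univ.filter fun x : Tor d M => Bad U E η c ε r R x).card : ℝ)) = fun U =>
      ∑ x : Tor d M, ({U | Bad U E η c ε r R x} : Set (Tor d M → ℝ)).indicator
        (fun _ => (1 : ℝ)) U := by
    funext U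
    rw [Finset.card_filter]
    push_cast
    refine Finset.sum_congr rfl fun x _ => ?_
    by_cases h : Bad U E η c ε r R x
    · rw [if_pos h, Set.indicator_of_mem (show U ∈ {U | Bad U E η c ε r R x} from h)]
    · rw [if_neg h, Set.indicator_of_notMem (show U ∉ {U | Bad U E η c ε r R x} from h)]
  rw [h]
  exact Finset.measurable_fun_sum _ fun x _ => measurable_const.indicator (bad_meas E hη c ε r R x)

open Classical in
/-- PHQ, ONE ENVIRONMENT -/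
theorem phqE (hE : EdqStmt) (d : ℕ) (c C ε : ℝ) (hd : 3 ≤ d) (hc : 0 < c) (hc1 : c ≤ 1)
    (hC : 1 ≤ C) (hε : 0 < ε) :
    ∃ K δ : ℝ, 1 ≤ K ∧ 0 < δ ∧ ∀ (a : ℝ) (V : AND2B.Env d) (δ₁ : ℝ) (π c' W : ℕ → ℝ),
      1 / 2 ≤ V.th → V.th < 1 → 0 < V.w → V.Sc → 1 ≤ V.N →
      Fields (AHH.Z d a AHH.es c C) V →
      H34.Num8 d V.th V.J V.β V.w V.N V.μ V.kk V.l V.r 1 (2 * K) π c' W →
      ∑ j ∈ Finset.range (V.G.N + 2), W j *
        ∑ B ∈ ({B | V.G.bl j B = B} : Finset V.X), ANP.H72.QQ V.G.ch V.G.J (fun i => π i.1) j B ≤ δ₁ →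
      0 ≤ δ₁ →
      3 * (V.w : ℝ) ^ (1 / 20 : ℝ) ≤ δ / 2 →
      ((V.cl (V.kk (V.N + 1)) : ℝ)) ^ (1 / 8 : ℝ) ≤ δ →
      2 * ((V.cl (V.kk (V.N + 1)) : ℝ)) ^ (AHH.ka V / 2) ≤ δ →
      3 * (V.w : ℝ) ^ (AHH.ka V / 4) ≤ 1 / 2 →
      0 < V.e₀ → V.e₀ ≤ δ * V.cl (V.kk (V.N + 1)) →
      ∀ m₀ : ℂ, c / 2 ≤ m₀.im → ‖m₀‖ ≤ 2 * C → ‖V.m - m₀‖ ≤ δ / 2 →
      ∀ j R : ℕ, j + 1 ≤ V.μ → 1 ≤ R →
      K * V.cl (V.kk (V.N + 1)) * 4 ^ j ≤ c * (V.w : ℝ) ^ (8 * AHH.es - 1) / 2 →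
      K * 2 ^ j ≤ (2 : ℝ) ^ V.μ →
      K * (8 * C ^ 3 / V.w) ≤ V.cl (V.kk (V.N + 1)) * (R : ℝ) ^ 2 →
      ∀ ρ₀ : ℝ, (∀ V₀ : V.X → ℝ, (∀ x, |V₀ x| ≤ ρ₀) → ∃ m₁ : V.X → ℂ,
        (AHH.Z d a AHH.es c C).HS V 0 0 ⟨V₀, fun _ => V.cl 0, m₁⟩ Finset.univ) →
      ∫⁻ U, ENNReal.ofReal (((Finset.univ.filter fun x : Tor d (2 ^ V.μ) =>
          Bad U (V.E + V.cl (V.kk (V.N + 1)) * m₀.re) (V.cl (V.kk (V.N + 1)) * m₀.im) (1 / K) ε
            (2 ^ j) R x).card : ℝ) / ((2 : ℝ) ^ V.μ) ^ d) ∂(gau d (2 ^ V.μ) V.w) ≤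
        ENNReal.ofReal (ε + δ₁ + (gm (fun _ : V.X => 0)
          (fun _ => V.cl (V.kk (V.N + 1)))).real {V₀ | ∃ x, ρ₀ < |V₀ x|}) +
        gau d (2 ^ V.μ) V.w {U | ¬ WL V.E V.L U} := by
  obtain ⟨K, δ, hK, hδ, h⟩ := hE d (c / 2) (2 * C) ε hd (by positivity) (by linarith only [hc1])
    (by linarith only [hC]) hε
  refine ⟨K, δ, hK, hδ, ?_⟩
  intro a V δ₁ π c' W hth hth1 hw hS hN hF hn hsum hδ₁ h1 h2 h3 h4 he0 he1 m₀ hm1 hm2 hm3 j R hj
    hR hj1 hj2 hR1 ρ₀ hini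
  have hth0 : 0 < V.th := lt_of_lt_of_le (by norm_num) hth
  have hfp : 0 < V.cl (V.kk (V.N + 1)) := AHH.cl_pos V hw hth0 _
  have hfp' : (0 : ℝ) < V.cl (V.kk (V.N + 1)) := by exact_mod_cast hfp
  have hm0 : 0 < m₀.im := lt_of_lt_of_le (by positivity) hm1
  have hη : 0 < (V.cl (V.kk (V.N + 1)) : ℝ) * m₀.im := mul_pos hfp' hm0
  have hK0 : 0 < K := lt_of_lt_of_le one_pos hK
  have hX : (0 : ℝ) < ((2 : ℝ) ^ V.μ) ^ d := by positivity
  have hXc : (Fintype.card (Tor d (2 ^ V.μ)) : ℝ) = ((2 : ℝ) ^ V.μ) ^ d := by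
    rw [Fintype.card_fun, ZMod.card, Fintype.card_fin]
    push_cast
    rfl
  have hcard : ∀ U : Tor d (2 ^ V.μ) → ℝ, ((Finset.univ.filter fun x : Tor d (2 ^ V.μ) =>
          Bad U (V.E + V.cl (V.kk (V.N + 1)) * m₀.re) (V.cl (V.kk (V.N + 1)) * m₀.im) (1 / K) ε
            (2 ^ j) R x).card : ℝ) / ((2 : ℝ) ^ V.μ) ^ d ≤ 1 := by
    intro U
    rw [div_le_one hX, ← hXc]
    exact_mod_cast Finset.card_le_univ _
  have hcm := card_meas (d := d) (M := 2 ^ V.μ) (V.E + V.cl (V.kk (V.N + 1)) * m₀.re) hη (1 / K) ε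
    (2 ^ j) R
  have hWm : MeasurableSet {U : Tor d (2 ^ V.μ) → ℝ | WL V.E V.L U} :=
    AND2B.H99.msw d (2 ^ V.μ) V.E V.L
  have key := core1 (AHH.Z d a AHH.es c C) V hth hth1 hw hS hN hF (ca := 1) (cb := 2 * K) hn hsum
    (K := (1 + K * (1 / (V.cl (V.kk (V.N + 1)) * m₀.im))) / ((2 : ℝ) ^ V.μ) ^ d) (e := ε)
    (fun U => ({U : Tor d (2 ^ V.μ) → ℝ | WL V.E V.L U}).indicator
      (fun U => ((Finset.univ.filter fun x : Tor d (2 ^ V.μ) =>
          Bad U (V.E + V.cl (V.kk (V.N + 1)) * m₀.re) (V.cl (V.kk (V.N + 1)) * m₀.im) (1 / K) ε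
            (2 ^ j) R x).card : ℝ) / ((2 : ℝ) ^ V.μ) ^ d) U)
    (fun x U => (1 + K * psi (V.E + V.cl (V.kk (V.N + 1)) * m₀.re)
      (V.cl (V.kk (V.N + 1)) * m₀.im) U x) / ((2 : ℝ) ^ V.μ) ^ d)
    ((hcm.div_const _).indicator hWm)
    (fun U => by
      refine ⟨Set.indicator_nonneg (fun _ _ => by positivity) U, ?_⟩
      by_cases hU : U ∈ {U : Tor d (2 ^ V.μ) → ℝ | WL V.E V.L U}
      · rw [Set.indicator_of_mem hU]
        exact hcard U
      · rw [Set.indicator_of_notMem hU]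
        exact zero_le_one)
    (fun x => ((measurable_const.add (measurable_const.mul (psi_meas _ hη x))).div_const _))
    (fun x U => by
      have h5 := psi_nonneg (V.E + V.cl (V.kk (V.N + 1)) * m₀.re) hη U x
      have h6 := psi_le (V.E + V.cl (V.kk (V.N + 1)) * m₀.re) hη U x
      refine ⟨by positivity, ?_⟩
      gcongr)
    hε.le hδ₁
    (fun x a' r hr => by
      have h5 := psi_int2 (V.E + V.cl (V.kk (V.N + 1)) * m₀.re) hη a' r x hr
      have h6 : ∫ U, (1 + K * psi (V.E + V.cl (V.kk (V.N + 1)) * m₀.re)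
          (V.cl (V.kk (V.N + 1)) * m₀.im) U x) / ((2 : ℝ) ^ V.μ) ^ d ∂(gm a' r) =
          (1 + K * ∫ U, psi (V.E + V.cl (V.kk (V.N + 1)) * m₀.re)
          (V.cl (V.kk (V.N + 1)) * m₀.im) U x ∂(gm a' r)) / ((2 : ℝ) ^ V.μ) ^ d := by
        rw [integral_div, integral_add (integrable_const _)
          ((psi_integrable _ hη x _).const_mul K), integral_const_mul, integral_const,
          probReal_univ, one_smul]
      rw [h6]
      refine div_le_div_of_nonneg_right ?_ hX.le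
      have h7 := mul_le_mul_of_nonneg_left h5 hK0.le
      have h8 : 2 * K / Real.sqrt (r x) = K * (2 / Real.sqrt (r x)) := by ring
      rw [h8]
      linarith only [h7])
    (fun U hU => Set.indicator_of_notMem hU _)
    ρ₀ hini
    (fun T run hT hFc hdead => by
      have h5 := end_edq V (K := K) (δ := δ) (ε := ε) hd hc hC hth hth1 hw hS
        (fun μ j R T E e₀ f D₀ D₁ m₀ U a1 a2 a3 a4 a5 a6 a7 a8 a9 a10 a11 a12 a13 a14 a15 a16
          a17 inst => by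
            have h6 := h μ j R T E e₀ f D₀ D₁ m₀ U a1 a2 a3 a4 a5 a6 a7 a8 a9 a10 a11 a12 a13
              a14 a15 a16 a17
            refine le_trans (Nat.cast_le.2 (Finset.card_le_card fun x hx => ?_)) h6
            have hx2 := (@Finset.mem_filter _ _ inst _ _).1 hx
            exact (@Finset.mem_filter _ _ (fun _ => Classical.propDecidable _) _ _).2
              ⟨Finset.mem_univ _, hx2.2⟩)
        h1 h2 h3 h4 he0 he1 m₀ hm1 hm2 hm3 j R hj hR hj1 hj2 hR1 T run (V.N + 1) hT hFc hdead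
      have h7 : ∑ x ∈ Finset.univ \ run, (1 + K * psi (V.E + V.cl (V.kk (V.N + 1)) * m₀.re)
          (V.cl (V.kk (V.N + 1)) * m₀.im) T.V x) / ((2 : ℝ) ^ V.μ) ^ d =
          (∑ x ∈ Finset.univ \ run, (1 + K * psi (V.E + V.cl (V.kk (V.N + 1)) * m₀.re)
          (V.cl (V.kk (V.N + 1)) * m₀.im) T.V x)) / ((2 : ℝ) ^ V.μ) ^ d := by
        rw [Finset.sum_div]
      rw [h7]
      refine le_trans (Set.indicator_le_self' (fun _ _ => by positivity) T.V) ?_
      rw [div_le_iff₀ hX, add_mul, div_mul_cancel₀ _ hX.ne']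
      exact h5)
  have hprob : IsProbabilityMeasure (gau d (2 ^ V.μ) V.w) := by
    unfold gau
    infer_instance
  have hgg : gm (fun _ : V.X => 0) (fun _ => V.w) = gau d (2 ^ V.μ) V.w := rfl
  rw [hgg] at key
  have hφm : Measurable fun U : Tor d (2 ^ V.μ) → ℝ =>
      ({U : Tor d (2 ^ V.μ) → ℝ | WL V.E V.L U}).indicator
      (fun U => ((Finset.univ.filter fun x : Tor d (2 ^ V.μ) =>
          Bad U (V.E + V.cl (V.kk (V.N + 1)) * m₀.re) (V.cl (V.kk (V.N + 1)) * m₀.im) (1 / K) ε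
            (2 ^ j) R x).card : ℝ) / ((2 : ℝ) ^ V.μ) ^ d) U := (hcm.div_const _).indicator hWm
  have hφ0 : ∀ U : Tor d (2 ^ V.μ) → ℝ, 0 ≤ ({U : Tor d (2 ^ V.μ) → ℝ | WL V.E V.L U}).indicator
      (fun U => ((Finset.univ.filter fun x : Tor d (2 ^ V.μ) =>
          Bad U (V.E + V.cl (V.kk (V.N + 1)) * m₀.re) (V.cl (V.kk (V.N + 1)) * m₀.im) (1 / K) ε
            (2 ^ j) R x).card : ℝ) / ((2 : ℝ) ^ V.μ) ^ d) U :=
    fun U => Set.indicator_nonneg (fun _ _ => by positivity) U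
  have hφ1 : ∀ U : Tor d (2 ^ V.μ) → ℝ, ({U : Tor d (2 ^ V.μ) → ℝ | WL V.E V.L U}).indicator
      (fun U => ((Finset.univ.filter fun x : Tor d (2 ^ V.μ) =>
          Bad U (V.E + V.cl (V.kk (V.N + 1)) * m₀.re) (V.cl (V.kk (V.N + 1)) * m₀.im) (1 / K) ε
            (2 ^ j) R x).card : ℝ) / ((2 : ℝ) ^ V.μ) ^ d) U ≤ 1 := by
    intro U
    by_cases hU : U ∈ {U : Tor d (2 ^ V.μ) → ℝ | WL V.E V.L U}
    · rw [Set.indicator_of_mem hU]
      exact hcard U
    · rw [Set.indicator_of_notMem hU]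
      exact zero_le_one
  have hint : Integrable (fun U : Tor d (2 ^ V.μ) → ℝ =>
      ({U : Tor d (2 ^ V.μ) → ℝ | WL V.E V.L U}).indicator
      (fun U => ((Finset.univ.filter fun x : Tor d (2 ^ V.μ) =>
          Bad U (V.E + V.cl (V.kk (V.N + 1)) * m₀.re) (V.cl (V.kk (V.N + 1)) * m₀.im) (1 / K) ε
            (2 ^ j) R x).card : ℝ) / ((2 : ℝ) ^ V.μ) ^ d) U) (gau d (2 ^ V.μ) V.w) := by
    refine Integrable.of_bound hφm.aestronglyMeasurable 1 (Filter.Eventually.of_forall fun U => ?_)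
    rw [Real.norm_eq_abs, abs_of_nonneg (hφ0 U)]
    exact hφ1 U
  refine (lintegral_mono (g := fun U : Tor d (2 ^ V.μ) → ℝ => ENNReal.ofReal
    (({U : Tor d (2 ^ V.μ) → ℝ | WL V.E V.L U}).indicator
      (fun U => ((Finset.univ.filter fun x : Tor d (2 ^ V.μ) =>
          Bad U (V.E + V.cl (V.kk (V.N + 1)) * m₀.re) (V.cl (V.kk (V.N + 1)) * m₀.im) (1 / K) ε
            (2 ^ j) R x).card : ℝ) / ((2 : ℝ) ^ V.μ) ^ d) U) +
      ({U : Tor d (2 ^ V.μ) → ℝ | ¬ WL V.E V.L U}).indicator 1 U) fun U => ?_).trans ?_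
  · beta_reduce
    by_cases hU : U ∈ {U : Tor d (2 ^ V.μ) → ℝ | WL V.E V.L U}
    · rw [Set.indicator_of_mem hU]
      exact le_self_add
    · rw [Set.indicator_of_mem (show U ∈ {U : Tor d (2 ^ V.μ) → ℝ | ¬ WL V.E V.L U} from hU)]
      refine le_trans ?_ le_add_self
      rw [Pi.one_apply, ← ENNReal.ofReal_one]
      exact ENNReal.ofReal_le_ofReal (hcard U)
  · have hWc : MeasurableSet {U : Tor d (2 ^ V.μ) → ℝ | ¬ WL V.E V.L U} := hWm.compl
    rw [lintegral_add_right _ (measurable_one.indicator hWc), lintegral_indicator_one hWc]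
    refine add_le_add ?_ le_rfl
    rw [← ofReal_integral_eq_lintegral_ofReal hint (Filter.Eventually.of_forall hφ0)]
    exact ENNReal.ofReal_le_ofReal key

end Pool.Agent.QDA.H16
end
end -- Pool.Agent.Helper16_QDA.PhqE

section -- Pool.Agent.Helper16_QDA.Phm

/-!
# QDA, row PHM: the protocol applied to the bad sites (`BadM`), one environment
-/

set_option autoImplicit false

open MeasureTheory ProbabilityTheory Filter

open scoped ENNReal BigOperators NNReal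

noncomputable section

namespace Pool.Agent.QDA.H16

open Pool.Agent.BED (Tor gau tr)
open Pool.Agent.ACX.H38 (gr_rs gr_cont' psi psi_nonneg psi_le psi_meas psi_int2 psi_integrable)
open Pool.Agent.AND2B (Hr WL)
open Pool.Agent.ANP (Cfg gm)
open Pool.Agent.AHH (toE bud Al St ww Ef FB)
open Pool.Agent.ACX.CORE (Fields core1)
open Pool.Agent.ACX (H34.Num8)

/-- `BadM` is covariant -/
theorem badM_tr {d M : ℕ} [NeZero M] (U : Tor d M → ℝ) (E η : ℝ) (m : ℂ) (ε : ℝ) (r R : ℕ)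
    (x : Tor d M) : BadM U E η m ε r R x ↔ BadM (tr x U) E η m ε r R 0 := by
  have h1 : Gt (tr x U) E η 0 0 = Gt U E η x x := by rw [gt_tr, add_zero]
  have h2 : ∀ (p : ℕ → Prop) [DecidablePred p],
      ∑ y, (if p (ANP.H61.sd (0 : Tor d M) y) then ‖Gt (tr x U) E η 0 y‖ ^ 2 else 0) =
        ∑ y, (if p (ANP.H61.sd x y) then ‖Gt U E η x y‖ ^ 2 else 0) := by
    intro p _
    rw [← Equiv.sum_comp (Equiv.addLeft x)
      (fun y => if p (ANP.H61.sd x y) then ‖Gt U E η x y‖ ^ 2 else 0)]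
    refine Finset.sum_congr rfl fun y _ => ?_
    have h3 : ANP.H61.sd x (x + y) = ANP.H61.sd (0 : Tor d M) y := by
      have := sd_add x 0 y
      rwa [add_zero] at this
    rw [Equiv.coe_addLeft, h3, gt_tr, add_zero]
  unfold BadM
  rw [h1, h2 (fun n => n < r), h2 (fun n => R ≤ n)]

/-- `BadM` is measurable -/
theorem badM_meas {d M : ℕ} [NeZero M] (E : ℝ) {η : ℝ} (hη : 0 < η) (m : ℂ) (ε : ℝ) (r R : ℕ)
    (x : Tor d M) : MeasurableSet {U : Tor d M → ℝ | BadM U E η m ε r R x} := by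
  have hG : ∀ y, Measurable fun U : Tor d M → ℝ => Gt U E η x y :=
    fun y => (gr_cont' E hη x y).measurable
  have hi : Measurable fun U : Tor d M → ℝ => ‖Gt U E η x x - m‖ :=
    ((hG x).sub measurable_const).norm
  have hs : ∀ (p : ℕ → Prop) [DecidablePred p], Measurable fun U : Tor d M → ℝ =>
      η * ∑ y, (if p (ANP.H61.sd x y) then ‖Gt U E η x y‖ ^ 2 else 0) := by
    intro p _
    refine measurable_const.mul (Finset.measurable_fun_sum _ fun y _ => ?_)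
    split_ifs
    · exact (hG y).norm.pow_const 2
    · exact measurable_const
  have h : {U : Tor d M → ℝ | BadM U E η m ε r R x} =
      {U | ε < ‖Gt U E η x x - m‖} ∪
      ({U | ε < η * ∑ y, (if ANP.H61.sd x y < r then ‖Gt U E η x y‖ ^ 2 else 0)} ∪
        {U | ε < η * ∑ y, (if R ≤ ANP.H61.sd x y then ‖Gt U E η x y‖ ^ 2 else 0)}) := by
    ext U
    unfold BadM
    simp only [Set.mem_union, Set.mem_ofPred_eq]
  rw [h]
  exact (measurableSet_lt measurable_const hi).union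
    ((measurableSet_lt measurable_const (hs fun n => n < r)).union
      (measurableSet_lt measurable_const (hs fun n => R ≤ n)))

theorem badM_shift {d M : ℕ} [NeZero M] (U : Tor d M → ℝ) (t E η : ℝ) (m : ℂ) (ε : ℝ)
    (r R : ℕ) (x : Tor d M) :
    BadM (fun x => U x - t) E η m ε r R x ↔ BadM U (E + t) η m ε r R x := by
  unfold BadM
  rw [gt_shift]

/-- from the last configuration to the hypotheses of `EdmStmt` -/
theorem end_edm {d : ℕ} (V : AND2B.Env d) {c C K δ ε : ℝ} (hd : 3 ≤ d) (hc : 0 < c) (hC : 1 ≤ C)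
    (hth : 1 / 2 ≤ V.th) (hth1 : V.th < 1) (hw : 0 < V.w) (hS : V.Sc)
    (hE : ∀ (μ j R : ℕ) (T : Cfg (Tor d (2 ^ μ))) (E e₀ f D₀ D₁ : ℝ) (m₀ : ℂ)
      (U : Tor d (2 ^ μ) → ℝ),
    0 < e₀ → 0 < f → e₀ ≤ δ * f → c / 2 ≤ m₀.im → ‖m₀‖ ≤ 2 * C →
    (∀ x, (T.s x : ℝ) = 0 ∨ (T.s x : ℝ) = f) →
    (∀ x, (T.s x : ℝ) = f → ‖T.mb x - m₀‖ ≤ δ ∧ ‖AND2B.net E e₀ T x x - T.mb x‖ ≤ δ) →
    (∀ x, (T.s x : ℝ) = f → U x = T.V x - f * m₀.re) →
    (∀ x, (T.s x : ℝ) = 0 → |U x - T.V x| ≤ 2 * C * f) →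
    (∃ (εl εu : Tor d (2 ^ μ) → ℝ) (bl bu : LTG.Bd d (2 ^ μ) → ℝ),
      LTG.Fm LTG.sT LTG.tT (Al T) (ww e₀ T) εl εu bl bu (LTG.qd (Ef E e₀ T)) ∧
      (∀ x ∈ Al T, 0 ≤ εl x ∧ εl x ≤ δ) ∧ ∀ e, D₀ ≤ bl e ∧ bu e ≤ D₁) →
    0 < D₀ → j + 1 ≤ μ → 1 ≤ R → K * f * 4 ^ j ≤ D₀ → K * 2 ^ j ≤ 2 ^ μ → K * D₁ ≤ f * R ^ 2 →
    2 * ((Finset.univ.filter fun x => (T.s x : ℝ) = 0).card : ℝ) ≤ ((2 : ℝ) ^ μ) ^ d →
    (∀ [DecidablePred (BadM U E (f * m₀.im) m₀ ε (2 ^ j) R)],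
    ((Finset.univ.filter fun x => BadM U E (f * m₀.im) m₀ ε (2 ^ j) R x).card : ℝ) ≤
      ((Finset.univ.filter fun x => (T.s x : ℝ) = 0).card : ℝ) + ε * ((2 : ℝ) ^ μ) ^ d +
        K * ∑ b ∈ Finset.univ.filter fun x => (T.s x : ℝ) = 0, (Gt U E (f * m₀.im) b b).im))
    (h1 : 3 * (V.w : ℝ) ^ (1 / 20 : ℝ) ≤ δ / 2)
    (h2 : ((V.cl (V.kk (V.N + 1)) : ℝ)) ^ (1 / 8 : ℝ) ≤ δ)
    (h3 : 2 * ((V.cl (V.kk (V.N + 1)) : ℝ)) ^ (AHH.ka V / 2) ≤ δ)
    (h4 : 3 * (V.w : ℝ) ^ (AHH.ka V / 4) ≤ 1 / 2)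
    (he0 : 0 < V.e₀) (he1 : V.e₀ ≤ δ * V.cl (V.kk (V.N + 1)))
    (m₀ : ℂ) (hm1 : c / 2 ≤ m₀.im) (hm2 : ‖m₀‖ ≤ 2 * C) (hm3 : ‖V.m - m₀‖ ≤ δ / 2)
    (j R : ℕ) (hj : j + 1 ≤ V.μ) (hR : 1 ≤ R)
    (hj1 : K * V.cl (V.kk (V.N + 1)) * 4 ^ j ≤ c * (V.w : ℝ) ^ (8 * AHH.es - 1) / 2)
    (hj2 : K * 2 ^ j ≤ (2 : ℝ) ^ V.μ)
    (hR1 : K * (8 * C ^ 3 / V.w) ≤ V.cl (V.kk (V.N + 1)) * (R : ℝ) ^ 2)
    (T : Cfg V.X) (run : Finset V.X) (n : ℕ)
    (hT : St (toE V c C) (bud V) n (V.kk (V.N + 1)) T run)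
    (hFc : V.Fc (V.N + 1) (V.kk (V.N + 1)) ∅ T run) (hdead : ∀ x, x ∉ run → T.s x = 0)
    : ∀ [DecidablePred (BadM T.V (V.E + V.cl (V.kk (V.N + 1)) * m₀.re)
      (V.cl (V.kk (V.N + 1)) * m₀.im) m₀ ε (2 ^ j) R)],
    ((Finset.univ.filter fun x => BadM T.V (V.E + V.cl (V.kk (V.N + 1)) * m₀.re)
      (V.cl (V.kk (V.N + 1)) * m₀.im) m₀ ε (2 ^ j) R x).card : ℝ) ≤
      ε * ((2 : ℝ) ^ V.μ) ^ d + ∑ b ∈ Finset.univ \ run,
        (1 + K * psi (V.E + V.cl (V.kk (V.N + 1)) * m₀.re) (V.cl (V.kk (V.N + 1)) * m₀.im)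
          T.V b) := by
  classical
  have hth0 : 0 < V.th := lt_of_lt_of_le (by norm_num) hth
  set f : ℝ≥0 := V.cl (V.kk (V.N + 1)) with hf
  have hfp : 0 < f := AHH.cl_pos V hw hth0 _
  have hfp' : (0 : ℝ) < f := by exact_mod_cast hfp
  have hrun : ∀ x ∈ run, T.s x = f := by
    intro x hx
    have := hFc.runs x hx
    rwa [if_neg (Finset.notMem_empty x)] at this
  have hs : ∀ x, (T.s x : ℝ) = f ↔ x ∈ run := by
    intro x
    constructor
    · intro h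
      by_contra hx
      rw [hdead x hx] at h
      push_cast at h
      exact absurd h.symm hfp'.ne'
    · intro hx
      rw [hrun x hx]
  have hs0 : ∀ x, (T.s x : ℝ) = 0 ↔ x ∉ run := by
    intro x
    constructor
    · intro h hx
      rw [hrun x hx] at h
      exact hfp'.ne' h
    · intro hx
      rw [hdead x hx]
      rfl
  have hal : ∀ x, x ∈ Al T ↔ x ∈ run := by
    intro x
    constructor
    · intro h
      have h5 : 0 < T.s x := by simpa [Al] using h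
      by_contra hx
      rw [hdead x hx] at h5
      exact lt_irrefl _ h5
    · exact fun hx => hT.alv hx
  have hfilt : (Finset.univ.filter fun x => (T.s x : ℝ) = 0) = Finset.univ \ run := by
    ext x
    rw [Finset.mem_filter, Finset.mem_sdiff, hs0]
  have hdel : (AHH.qq V n (V.kk (V.N + 1))).del ≤ δ / 2 :=
    ((AHH.gr_bd V hth1.le (by norm_num : (0 : ℝ) < 1 / 20) n _).2).trans h1
  have hrho0 : 0 ≤ (AHH.qq V n (V.kk (V.N + 1))).rho := by
    have hka : 0 < AHH.ka V / 4 := by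
      unfold AHH.ka
      positivity
    exact (Real.rpow_nonneg (NNReal.coe_nonneg _) _).trans (AHH.gr_bd V hth1.le hka n _).1
  have hrho : (AHH.qq V n (V.kk (V.N + 1))).rho ≤ 1 / 2 := by
    have hka : 0 < AHH.ka V / 4 := by
      unfold AHH.ka
      positivity
    exact ((AHH.gr_bd V hth1.le hka n _).2).trans h4
  have heps : (AHH.qq V n (V.kk (V.N + 1))).eps ≤ δ := by
    refine le_trans ?_ h3
    show (V.cl (V.kk (V.N + 1)) : ℝ) ^ (AHH.ka V / 2) * (2 - V.sg n ^ AHH.ka V) ≤ _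
    have h5 : 0 ≤ V.sg n ^ AHH.ka V := Real.rpow_nonneg (NNReal.coe_nonneg _) _
    have h6 : 0 ≤ (V.cl (V.kk (V.N + 1)) : ℝ) ^ (AHH.ka V / 2) :=
      Real.rpow_nonneg (NNReal.coe_nonneg _) _
    nlinarith only [hth, hth1, h5, h6]
  obtain ⟨εl, εu, bl, bu, hFm, hεl, hb⟩ := hT.frm
  have hD₀ : 0 < c * (V.w : ℝ) ^ (8 * AHH.es - 1) / 2 := by
    have : (0 : ℝ) < V.w := by exact_mod_cast hw
    positivity
  have hw' : (0 : ℝ) < V.w := by exact_mod_cast hw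
  have h := hE V.μ j R T V.E V.e₀ f (c * (V.w : ℝ) ^ (8 * AHH.es - 1) / 2) (8 * C ^ 3 / V.w) m₀
    (fun x => T.V x - f * m₀.re) he0 hfp' he1 hm1 hm2
    (fun x => by
      by_cases hx : x ∈ run
      · exact Or.inr ((hs x).2 hx)
      · exact Or.inl ((hs0 x).2 hx))
    (fun x hx => ?_) (fun x _ => rfl) (fun x _ => ?_) ⟨εl, εu, bl, bu, hFm, ?_, ?_⟩ hD₀ hj hR hj1
    hj2 hR1 ?_
  · intro inst
    have h7 := h
    rw [hfilt] at h7
    refine le_trans (Nat.cast_le.2 (Finset.card_le_card fun x hx => ?_)) (h7.trans (le_of_eq ?_))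
    · have hx2 := (@Finset.mem_filter _ _ inst _ _).1 hx
      refine Finset.mem_filter.2 ⟨Finset.mem_univ _, ?_⟩
      rw [badM_shift]
      exact hx2.2
    have e2 : ∀ b, (Gt (fun x => T.V x - f * m₀.re) V.E (f * m₀.im) b b).im =
        psi (V.E + f * m₀.re) (f * m₀.im) T.V b := by
      intro b
      rw [gt_shift]
      rfl
    simp only [e2]
    rw [Finset.sum_add_distrib, Finset.sum_const, nsmul_eq_mul, mul_one, ← Finset.mul_sum]
    ring
  · have hx' := (hs x).1 hx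
    have hg := hT.gau x ((hal x).2 hx')
    refine ⟨?_, ?_⟩
    · have h5 : ‖T.mb x - V.m‖ ≤ δ / 2 := hg.2.2.trans hdel
      calc ‖T.mb x - m₀‖ = ‖(T.mb x - V.m) + (V.m - m₀)‖ := by congr 1; ring
        _ ≤ ‖T.mb x - V.m‖ + ‖V.m - m₀‖ := norm_add_le _ _
        _ ≤ δ := by linarith only [hm3, h5]
    · exact (hT.mis x hx').trans h2
  · have h5 : |m₀.re| ≤ 2 * C := (Complex.abs_re_le_norm m₀).trans hm2
    have e : T.V x - (f : ℝ) * m₀.re - T.V x = -((f : ℝ) * m₀.re) := by ring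
    rw [e, abs_neg, abs_mul, abs_of_pos hfp', mul_comm]
    gcongr
  · intro x hx
    have h5 := hεl x hx
    refine ⟨h5.1, h5.2.1.trans ?_⟩
    simp only [if_pos ((hal x).1 hx)]
    exact heps
  · intro e
    have h5 := hb e
    have hD : (toE V c C).D₀ = c * (V.w : ℝ) ^ (8 * AHH.es - 1) := rfl
    have hD1 : (toE V c C).D₁ = 4 * C ^ 3 / V.w := rfl
    rw [hD, hD1] at h5
    have h6 : 0 < c * (V.w : ℝ) ^ (8 * AHH.es - 1) := by positivity
    have h7 : 0 < 4 * C ^ 3 / (V.w : ℝ) := by positivity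
    have h8 : ((bud V).q n (V.kk (V.N + 1))).rho ≤ 1 / 2 := hrho
    constructor
    · refine le_trans ?_ h5.1
      nlinarith only [hth, hth1, hD₀, h8]
    · refine h5.2.2.trans ?_
      have e : (8 : ℝ) * C ^ 3 / V.w = 4 * C ^ 3 / V.w * 2 := by ring
      rw [e]
      nlinarith only [hth, hth1, h5, h7, h8]
  · have h5 := ACX.H48.dead_fc hd hS (le_refl (V.N + 1)) hFc
    have h6 : (Finset.univ.filter fun x => (T.s x : ℝ) = 0) =
        Finset.univ.filter fun x => T.s x = 0 := by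
      ext x
      rw [Finset.mem_filter, Finset.mem_filter]
      norm_cast
    rw [h6]
    have h7 : (Fintype.card (Tor d (2 ^ V.μ)) : ℝ) = ((2 : ℝ) ^ V.μ) ^ d := by
      rw [Fintype.card_fun, ZMod.card, Fintype.card_fin]
      push_cast
      rfl
    have h8 : (16 : ℝ) * ((Finset.univ.filter fun x => T.s x = 0).card : ℝ) ≤
        (Fintype.card (Tor d (2 ^ V.μ)) : ℝ) := by exact_mod_cast h5
    rw [h7] at h8
    have h9 : (0 : ℝ) ≤ ((Finset.univ.filter fun x => T.s x = 0).card : ℝ) := Nat.cast_nonneg _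
    linarith only [h8]

open Classical in
/-- the number of bad sites is measurable -/
theorem cardM_meas {d M : ℕ} [NeZero M] (E : ℝ) {η : ℝ} (hη : 0 < η) (m : ℂ) (ε : ℝ) (r R : ℕ) :
    Measurable fun U : Tor d M → ℝ =>
      ((Finset.univ.filter fun x : Tor d M => BadM U E η m ε r R x).card : ℝ) := by
  have h : (fun U : Tor d M → ℝ =>
      ((Finset.univ.filter fun x : Tor d M => BadM U E η m ε r R x).card : ℝ)) = fun U =>
      ∑ x : Tor d M, ({U | BadM U E η m ε r R x} : Set (Tor d M → ℝ)).indicator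
        (fun _ => (1 : ℝ)) U := by
    funext U
    rw [Finset.card_filter]
    push_cast
    refine Finset.sum_congr rfl fun x _ => ?_
    by_cases h : BadM U E η m ε r R x
    · rw [if_pos h, Set.indicator_of_mem (show U ∈ {U | BadM U E η m ε r R x} from h)]
    · rw [if_neg h, Set.indicator_of_notMem (show U ∉ {U | BadM U E η m ε r R x} from h)]
  rw [h]
  exact Finset.measurable_fun_sum _ fun x _ => measurable_const.indicator (badM_meas E hη m ε r R x)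

open Classical in
/-- PHM, ONE ENVIRONMENT -/
theorem phmE (hE : EdmStmt) (d : ℕ) (c C ε : ℝ) (hd : 3 ≤ d) (hc : 0 < c) (hc1 : c ≤ 1)
    (hC : 1 ≤ C) (hε : 0 < ε) :
    ∃ K δ : ℝ, 1 ≤ K ∧ 0 < δ ∧ ∀ (a : ℝ) (V : AND2B.Env d) (δ₁ : ℝ) (π c' W : ℕ → ℝ),
      1 / 2 ≤ V.th → V.th < 1 → 0 < V.w → V.Sc → 1 ≤ V.N →
      Fields (AHH.Z d a AHH.es c C) V →
      H34.Num8 d V.th V.J V.β V.w V.N V.μ V.kk V.l V.r 1 (2 * K) π c' W →
      ∑ j ∈ Finset.range (V.G.N + 2), W j *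
        ∑ B ∈ ({B | V.G.bl j B = B} : Finset V.X), ANP.H72.QQ V.G.ch V.G.J (fun i => π i.1) j B ≤ δ₁ →
      0 ≤ δ₁ →
      3 * (V.w : ℝ) ^ (1 / 20 : ℝ) ≤ δ / 2 →
      ((V.cl (V.kk (V.N + 1)) : ℝ)) ^ (1 / 8 : ℝ) ≤ δ →
      2 * ((V.cl (V.kk (V.N + 1)) : ℝ)) ^ (AHH.ka V / 2) ≤ δ →
      3 * (V.w : ℝ) ^ (AHH.ka V / 4) ≤ 1 / 2 →
      0 < V.e₀ → V.e₀ ≤ δ * V.cl (V.kk (V.N + 1)) →
      ∀ m₀ : ℂ, c / 2 ≤ m₀.im → ‖m₀‖ ≤ 2 * C → ‖V.m - m₀‖ ≤ δ / 2 →
      ∀ j R : ℕ, j + 1 ≤ V.μ → 1 ≤ R →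
      K * V.cl (V.kk (V.N + 1)) * 4 ^ j ≤ c * (V.w : ℝ) ^ (8 * AHH.es - 1) / 2 →
      K * 2 ^ j ≤ (2 : ℝ) ^ V.μ →
      K * (8 * C ^ 3 / V.w) ≤ V.cl (V.kk (V.N + 1)) * (R : ℝ) ^ 2 →
      ∀ ρ₀ : ℝ, (∀ V₀ : V.X → ℝ, (∀ x, |V₀ x| ≤ ρ₀) → ∃ m₁ : V.X → ℂ,
        (AHH.Z d a AHH.es c C).HS V 0 0 ⟨V₀, fun _ => V.cl 0, m₁⟩ Finset.univ) →
      ∫⁻ U, ENNReal.ofReal (((Finset.univ.filter fun x : Tor d (2 ^ V.μ) =>
          BadM U (V.E + V.cl (V.kk (V.N + 1)) * m₀.re) (V.cl (V.kk (V.N + 1)) * m₀.im) m₀ ε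
            (2 ^ j) R x).card : ℝ) / ((2 : ℝ) ^ V.μ) ^ d) ∂(gau d (2 ^ V.μ) V.w) ≤
        ENNReal.ofReal (ε + δ₁ + (gm (fun _ : V.X => 0)
          (fun _ => V.cl (V.kk (V.N + 1)))).real {V₀ | ∃ x, ρ₀ < |V₀ x|}) +
        gau d (2 ^ V.μ) V.w {U | ¬ WL V.E V.L U} := by
  obtain ⟨K, δ, hK, hδ, h⟩ := hE d (c / 2) (2 * C) ε hd (by positivity) (by linarith only [hc1])
    (by linarith) hε
  refine ⟨K, δ, hK, hδ, ?_⟩
  intro a V δ₁ π c' W hth hth1 hw hS hN hF hn hsum hδ₁ h1 h2 h3 h4 he0 he1 m₀ hm1 hm2 hm3 j R hj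
    hR hj1 hj2 hR1 ρ₀ hini
  have hth0 : 0 < V.th := lt_of_lt_of_le (by norm_num) hth
  have hfp : 0 < V.cl (V.kk (V.N + 1)) := AHH.cl_pos V hw hth0 _
  have hfp' : (0 : ℝ) < V.cl (V.kk (V.N + 1)) := by exact_mod_cast hfp
  have hm0 : 0 < m₀.im := lt_of_lt_of_le (by positivity) hm1
  have hη : 0 < (V.cl (V.kk (V.N + 1)) : ℝ) * m₀.im := mul_pos hfp' hm0
  have hK0 : 0 < K := lt_of_lt_of_le one_pos hK
  have hX : (0 : ℝ) < ((2 : ℝ) ^ V.μ) ^ d := by positivity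
  have hXc : (Fintype.card (Tor d (2 ^ V.μ)) : ℝ) = ((2 : ℝ) ^ V.μ) ^ d := by
    rw [Fintype.card_fun, ZMod.card, Fintype.card_fin]
    push_cast
    rfl
  have hcard : ∀ U : Tor d (2 ^ V.μ) → ℝ, ((Finset.univ.filter fun x : Tor d (2 ^ V.μ) =>
          BadM U (V.E + V.cl (V.kk (V.N + 1)) * m₀.re) (V.cl (V.kk (V.N + 1)) * m₀.im) m₀ ε
            (2 ^ j) R x).card : ℝ) / ((2 : ℝ) ^ V.μ) ^ d ≤ 1 := by
    intro U
    rw [div_le_one hX, ← hXc]
    exact_mod_cast Finset.card_le_univ _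
  have hcm := cardM_meas (d := d) (M := 2 ^ V.μ) (V.E + V.cl (V.kk (V.N + 1)) * m₀.re) hη m₀ ε
    (2 ^ j) R
  have hWm : MeasurableSet {U : Tor d (2 ^ V.μ) → ℝ | WL V.E V.L U} :=
    AND2B.H99.msw d (2 ^ V.μ) V.E V.L
  have key := core1 (AHH.Z d a AHH.es c C) V hth hth1 hw hS hN hF (ca := 1) (cb := 2 * K) hn hsum
    (K := (1 + K * (1 / (V.cl (V.kk (V.N + 1)) * m₀.im))) / ((2 : ℝ) ^ V.μ) ^ d) (e := ε)
    (fun U => ({U : Tor d (2 ^ V.μ) → ℝ | WL V.E V.L U}).indicator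
      (fun U => ((Finset.univ.filter fun x : Tor d (2 ^ V.μ) =>
          BadM U (V.E + V.cl (V.kk (V.N + 1)) * m₀.re) (V.cl (V.kk (V.N + 1)) * m₀.im) m₀ ε
            (2 ^ j) R x).card : ℝ) / ((2 : ℝ) ^ V.μ) ^ d) U)
    (fun x U => (1 + K * psi (V.E + V.cl (V.kk (V.N + 1)) * m₀.re)
      (V.cl (V.kk (V.N + 1)) * m₀.im) U x) / ((2 : ℝ) ^ V.μ) ^ d)
    ((hcm.div_const _).indicator hWm)
    (fun U => by
      refine ⟨Set.indicator_nonneg (fun _ _ => by positivity) U, ?_⟩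
      by_cases hU : U ∈ {U : Tor d (2 ^ V.μ) → ℝ | WL V.E V.L U}
      · rw [Set.indicator_of_mem hU]
        exact hcard U
      · rw [Set.indicator_of_notMem hU]
        exact zero_le_one)
    (fun x => ((measurable_const.add (measurable_const.mul (psi_meas _ hη x))).div_const _))
    (fun x U => by
      have h5 := psi_nonneg (V.E + V.cl (V.kk (V.N + 1)) * m₀.re) hη U x
      have h6 := psi_le (V.E + V.cl (V.kk (V.N + 1)) * m₀.re) hη U x
      refine ⟨by positivity, ?_⟩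
      gcongr)
    hε.le hδ₁
    (fun x a' r hr => by
      have h5 := psi_int2 (V.E + V.cl (V.kk (V.N + 1)) * m₀.re) hη a' r x hr
      have h6 : ∫ U, (1 + K * psi (V.E + V.cl (V.kk (V.N + 1)) * m₀.re)
          (V.cl (V.kk (V.N + 1)) * m₀.im) U x) / ((2 : ℝ) ^ V.μ) ^ d ∂(gm a' r) =
          (1 + K * ∫ U, psi (V.E + V.cl (V.kk (V.N + 1)) * m₀.re)
          (V.cl (V.kk (V.N + 1)) * m₀.im) U x ∂(gm a' r)) / ((2 : ℝ) ^ V.μ) ^ d := by
        rw [integral_div, integral_add (integrable_const _)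
          ((psi_integrable _ hη x _).const_mul K), integral_const_mul, integral_const,
          probReal_univ, one_smul]
      rw [h6]
      refine div_le_div_of_nonneg_right ?_ hX.le
      have h7 := mul_le_mul_of_nonneg_left h5 hK0.le
      have h8 : 2 * K / Real.sqrt (r x) = K * (2 / Real.sqrt (r x)) := by ring
      rw [h8]
      linarith only [h7])
    (fun U hU => Set.indicator_of_notMem hU _)
    ρ₀ hini
    (fun T run hT hFc hdead => by
      have h5 := end_edm V (K := K) (δ := δ) (ε := ε) hd hc hC hth hth1 hw hS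
        (fun μ j R T E e₀ f D₀ D₁ m₀ U a1 a2 a3 a4 a5 a6 a7 a8 a9 a10 a11 a12 a13 a14 a15 a16
          a17 inst => by
            have h6 := h μ j R T E e₀ f D₀ D₁ m₀ U a1 a2 a3 a4 a5 a6 a7 a8 a9 a10 a11 a12 a13
              a14 a15 a16 a17
            refine le_trans (Nat.cast_le.2 (Finset.card_le_card fun x hx => ?_)) h6
            have hx2 := (@Finset.mem_filter _ _ inst _ _).1 hx
            exact (@Finset.mem_filter _ _ (fun _ => Classical.propDecidable _) _ _).2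
              ⟨Finset.mem_univ _, hx2.2⟩)
        h1 h2 h3 h4 he0 he1 m₀ hm1 hm2 hm3 j R hj hR hj1 hj2 hR1 T run (V.N + 1) hT hFc hdead
      have h7 : ∑ x ∈ Finset.univ \ run, (1 + K * psi (V.E + V.cl (V.kk (V.N + 1)) * m₀.re)
          (V.cl (V.kk (V.N + 1)) * m₀.im) T.V x) / ((2 : ℝ) ^ V.μ) ^ d =
          (∑ x ∈ Finset.univ \ run, (1 + K * psi (V.E + V.cl (V.kk (V.N + 1)) * m₀.re)
          (V.cl (V.kk (V.N + 1)) * m₀.im) T.V x)) / ((2 : ℝ) ^ V.μ) ^ d := by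
        rw [Finset.sum_div]
      rw [h7]
      refine le_trans (Set.indicator_le_self' (fun _ _ => by positivity) T.V) ?_
      rw [div_le_iff₀ hX, add_mul, div_mul_cancel₀ _ hX.ne']
      exact h5)
  have hprob : IsProbabilityMeasure (gau d (2 ^ V.μ) V.w) := by
    unfold gau
    infer_instance
  have hgg : gm (fun _ : V.X => 0) (fun _ => V.w) = gau d (2 ^ V.μ) V.w := rfl
  rw [hgg] at key
  have hφm : Measurable fun U : Tor d (2 ^ V.μ) → ℝ =>
      ({U : Tor d (2 ^ V.μ) → ℝ | WL V.E V.L U}).indicator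
      (fun U => ((Finset.univ.filter fun x : Tor d (2 ^ V.μ) =>
          BadM U (V.E + V.cl (V.kk (V.N + 1)) * m₀.re) (V.cl (V.kk (V.N + 1)) * m₀.im) m₀ ε
            (2 ^ j) R x).card : ℝ) / ((2 : ℝ) ^ V.μ) ^ d) U := (hcm.div_const _).indicator hWm
  have hφ0 : ∀ U : Tor d (2 ^ V.μ) → ℝ, 0 ≤ ({U : Tor d (2 ^ V.μ) → ℝ | WL V.E V.L U}).indicator
      (fun U => ((Finset.univ.filter fun x : Tor d (2 ^ V.μ) =>
          BadM U (V.E + V.cl (V.kk (V.N + 1)) * m₀.re) (V.cl (V.kk (V.N + 1)) * m₀.im) m₀ ε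
            (2 ^ j) R x).card : ℝ) / ((2 : ℝ) ^ V.μ) ^ d) U :=
    fun U => Set.indicator_nonneg (fun _ _ => by positivity) U
  have hφ1 : ∀ U : Tor d (2 ^ V.μ) → ℝ, ({U : Tor d (2 ^ V.μ) → ℝ | WL V.E V.L U}).indicator
      (fun U => ((Finset.univ.filter fun x : Tor d (2 ^ V.μ) =>
          BadM U (V.E + V.cl (V.kk (V.N + 1)) * m₀.re) (V.cl (V.kk (V.N + 1)) * m₀.im) m₀ ε
            (2 ^ j) R x).card : ℝ) / ((2 : ℝ) ^ V.μ) ^ d) U ≤ 1 := by
    intro U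
    by_cases hU : U ∈ {U : Tor d (2 ^ V.μ) → ℝ | WL V.E V.L U}
    · rw [Set.indicator_of_mem hU]
      exact hcard U
    · rw [Set.indicator_of_notMem hU]
      exact zero_le_one
  have hint : Integrable (fun U : Tor d (2 ^ V.μ) → ℝ =>
      ({U : Tor d (2 ^ V.μ) → ℝ | WL V.E V.L U}).indicator
      (fun U => ((Finset.univ.filter fun x : Tor d (2 ^ V.μ) =>
          BadM U (V.E + V.cl (V.kk (V.N + 1)) * m₀.re) (V.cl (V.kk (V.N + 1)) * m₀.im) m₀ ε
            (2 ^ j) R x).card : ℝ) / ((2 : ℝ) ^ V.μ) ^ d) U) (gau d (2 ^ V.μ) V.w) := by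
    refine Integrable.of_bound hφm.aestronglyMeasurable 1 (Filter.Eventually.of_forall fun U => ?_)
    rw [Real.norm_eq_abs, abs_of_nonneg (hφ0 U)]
    exact hφ1 U
  refine (lintegral_mono (g := fun U : Tor d (2 ^ V.μ) → ℝ => ENNReal.ofReal
    (({U : Tor d (2 ^ V.μ) → ℝ | WL V.E V.L U}).indicator
      (fun U => ((Finset.univ.filter fun x : Tor d (2 ^ V.μ) =>
          BadM U (V.E + V.cl (V.kk (V.N + 1)) * m₀.re) (V.cl (V.kk (V.N + 1)) * m₀.im) m₀ ε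
            (2 ^ j) R x).card : ℝ) / ((2 : ℝ) ^ V.μ) ^ d) U) +
      ({U : Tor d (2 ^ V.μ) → ℝ | ¬ WL V.E V.L U}).indicator 1 U) fun U => ?_).trans ?_
  · beta_reduce
    by_cases hU : U ∈ {U : Tor d (2 ^ V.μ) → ℝ | WL V.E V.L U}
    · rw [Set.indicator_of_mem hU]
      exact le_self_add
    · rw [Set.indicator_of_mem (show U ∈ {U : Tor d (2 ^ V.μ) → ℝ | ¬ WL V.E V.L U} from hU)]
      refine le_trans ?_ le_add_self
      rw [Pi.one_apply, ← ENNReal.ofReal_one]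
      exact ENNReal.ofReal_le_ofReal (hcard U)
  · have hWc : MeasurableSet {U : Tor d (2 ^ V.μ) → ℝ | ¬ WL V.E V.L U} := hWm.compl
    rw [lintegral_add_right _ (measurable_one.indicator hWc), lintegral_indicator_one hWc]
    refine add_le_add ?_ le_rfl
    rw [← ofReal_integral_eq_lintegral_ofReal hint (Filter.Eventually.of_forall hφ0)]
    exact ENNReal.ofReal_le_ofReal key

end Pool.Agent.QDA.H16
end
end -- Pool.Agent.Helper16_QDA.Phm

section -- Pool.Agent.Helper16_QDA.Tail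

/-!
# QDA: the tail of the start, uniform in `w`
-/

set_option autoImplicit false

open MeasureTheory ProbabilityTheory Filter

open scoped ENNReal BigOperators NNReal

noncomputable section

namespace Pool.Agent.QDA.H16

open Pool.Agent.BED (Tor gau)
open Pool.Agent.ANP (gm)

/-- THE TAIL OF THE START: `f ≤ w^5`, `2^μ ≤ f^(-C)`, `w ≤ w₀ (d, C, p)` -/
theorem tail_w (d : ℕ) (C p : ℝ) (hp : 0 < p) : ∃ w₀ : ℝ, 0 < w₀ ∧ w₀ ≤ 1 ∧
    ∀ (w f : ℝ≥0) (μ : ℕ), 0 < w → (w : ℝ) ≤ w₀ → 0 < f → (f : ℝ) ≤ (w : ℝ) ^ 5 →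
      (2 ^ μ : ℝ) ≤ (f : ℝ) ^ (-C) →
      (gm (fun _ : Tor d (2 ^ μ) => 0) (fun _ => f)).real {V₀ | ∃ x, (w : ℝ) ^ 2 < |V₀ x|} ≤ p := by
  have h1 := AND.Num.small_exp_pow 2 (1 / 2) (1 / 5) (C * d) 1 (by norm_num) (by norm_num)
  have h2 := AND.Num.small_rpow_le p 1 hp one_pos
  obtain ⟨t₁, ht, ht1, h⟩ := (h1.and h2).ex
  refine ⟨t₁, ht, ht1, fun w f μ hw hwt hf hfw hμ => ?_⟩
  have hf0 : (0 : ℝ) < f := by exact_mod_cast hf
  have hw0 : (0 : ℝ) < w := by exact_mod_cast hw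
  have hw1 : (w : ℝ) ≤ 1 := hwt.trans ht1
  have hft : (f : ℝ) ≤ t₁ := hfw.trans ((pow_le_of_le_one hw0.le hw1 (by norm_num)).trans hwt)
  obtain ⟨h3, h4⟩ := h f hf0 hft
  have h5 := IR.H85A.gau_tail (d := d) (M := 2 ^ μ) hf (s := (w : ℝ) ^ 2) (by positivity)
  have hset : {V₀ : Tor d (2 ^ μ) → ℝ | ∃ x, (w : ℝ) ^ 2 < |V₀ x|} =
      {V | ¬ ∀ x, |V x| ≤ (w : ℝ) ^ 2} := by
    ext V
    simp only [Set.mem_ofPred_eq, not_forall, not_le]
  have e1 : (((2 ^ μ : ℕ) : ℝ)) ^ d ≤ (f : ℝ) ^ (-(C * d)) := by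
    push_cast
    calc ((2 : ℝ) ^ μ) ^ d ≤ ((f : ℝ) ^ (-C)) ^ d := pow_le_pow_left₀ (by positivity) hμ d
      _ = (f : ℝ) ^ (-(C * d)) := by
          rw [← Real.rpow_natCast, ← Real.rpow_mul hf0.le]
          congr 1
          ring
  have e2 : (f : ℝ) ^ (4 / 5 : ℝ) ≤ (w : ℝ) ^ 4 := by
    calc (f : ℝ) ^ (4 / 5 : ℝ) ≤ ((w : ℝ) ^ 5) ^ (4 / 5 : ℝ) :=
          Real.rpow_le_rpow hf0.le hfw (by norm_num)
      _ = (w : ℝ) ^ 4 := by
          rw [← Real.rpow_natCast, ← Real.rpow_mul hw0.le, ← Real.rpow_natCast]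
          congr 1
          norm_num
  have e3 : 1 / 2 * (f : ℝ) ^ (-(1 / 5) : ℝ) ≤ ((w : ℝ) ^ 2) ^ 2 / (2 * (f : ℝ)) := by
    rw [le_div_iff₀ (by positivity)]
    have e4 : (f : ℝ) ^ (4 / 5 : ℝ) = (f : ℝ) ^ (-(1 / 5) : ℝ) * f := by
      rw [← Real.rpow_add_one hf0.ne']
      congr 1
      norm_num
    have e5 : ((w : ℝ) ^ 2) ^ 2 = (w : ℝ) ^ 4 := by ring
    rw [e5]
    rw [e4] at e2
    linarith
  have e6 : (((2 ^ μ : ℕ) : ℝ)) ^ d * (2 * Real.exp (-(((w : ℝ) ^ 2) ^ 2 / (2 * (f : ℝ))))) ≤ p := by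
    calc (((2 ^ μ : ℕ) : ℝ)) ^ d * (2 * Real.exp (-(((w : ℝ) ^ 2) ^ 2 / (2 * (f : ℝ))))) ≤
          (f : ℝ) ^ (-(C * d)) * (2 * Real.exp (-(1 / 2 * (f : ℝ) ^ (-(1 / 5) : ℝ)))) := by
          gcongr
      _ = 2 * (f : ℝ) ^ (-(C * d)) * Real.exp (-(1 / 2 * (f : ℝ) ^ (-(1 / 5) : ℝ))) := by ring
      _ ≤ (f : ℝ) ^ (1 : ℝ) := h3
      _ ≤ p := h4
  rw [hset]
  have h6 : gm (fun _ : Tor d (2 ^ μ) => 0) (fun _ => f) {V | ¬ ∀ x, |V x| ≤ (w : ℝ) ^ 2} ≤
      ENNReal.ofReal p := h5.trans (ENNReal.ofReal_le_ofReal e6)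
  rw [measureReal_def]
  exact ENNReal.toReal_le_of_le_ofReal hp.le h6

/-- the ellipticity `WL`, one torus -/
theorem wl_ex (d M : ℕ) [NeZero M] (E : ℝ) (v : ℝ≥0) (hv : 0 < v) {p : ℝ} (hp : 0 < p) :
    ∃ L : ℝ, 1 ≤ L ∧ gau d M v {U | ¬ AND2B.WL E L U} ≤ ENNReal.ofReal p :=
  AND2B.H99.wlp d M E p v hv.ne' hp

end Pool.Agent.QDA.H16
end
end -- Pool.Agent.Helper16_QDA.Tail

section -- Pool.Agent.Helper22_QDU.H54IniF

/-!
# QDU: the field `ini`, uniformly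
-/

set_option autoImplicit false

open scoped BigOperators NNReal Matrix

noncomputable section

namespace Pool.Agent.QDU.H54

open Pool.Agent.AHH hiding BegF FinF FloF IniF KilF MmonF OutF RbegF RfinF RmonF ana0
open Pool.Agent.AHH.H54 hiding ini
open Pool.Agent.BED (Tor)
open Pool.Agent.AND2B (Prd)

/-- field INI -/
theorem ini : IniF := by
  intro d a c C hd ha hc hc' hC
  have e1 : (0 : ℝ) < es := by unfold es; norm_num
  have e2 : es < 1 / 12 := by unfold es; norm_num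
  have e3 : (1 : ℝ) / 18000 < es := by unfold es; norm_num
  refine Ev2.intro 1 1 one_pos one_pos ?_
  intro b c₁ C₁ α J hb hc₁ hc₁' hα
  obtain ⟨w₁, hw₁, hw₁'⟩ := exists_small 2 es e1
  obtain ⟨w₂, hw₂, hw₂'⟩ := exists_small 4 (1 / 12 - es) (by linarith only [e2])
  obtain ⟨w₃, hw₃, hw₃'⟩ := exists_small 2 (es - 1 / 18000) (by linarith only [e3])
  refine ⟨1, min 1 (min w₁ (min w₂ w₃)), one_pos, by positivity, ?_⟩
  intro V hV _ _ hVc₁ hVC₁ hVα hVJ hVβ hVw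
  have hw0 : 0 < V.w := hV.w
  have hw0' : (0 : ℝ) < V.w := by exact_mod_cast hw0
  have g1 : (V.w : ℝ) ≤ 1 := hVw.trans (min_le_left _ _)
  have g2 : (V.w : ℝ) ≤ w₁ := hVw.trans ((min_le_right _ _).trans (min_le_left _ _))
  have g3 : (V.w : ℝ) ≤ w₂ :=
    hVw.trans ((min_le_right _ _).trans ((min_le_right _ _).trans (min_le_left _ _)))
  have g4 : (V.w : ℝ) ≤ w₃ :=
    hVw.trans ((min_le_right _ _).trans ((min_le_right _ _).trans (min_le_right _ _)))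
  refine ⟨c * V.w, by positivity, ?_⟩
  intro e₀ m ζ he₀ he₀' hG
  have hst := hG.st
  have hth1' : V.th ≤ 1 := hV.th.2.le
  obtain ⟨U, hU⟩ : ∃ U : AND2B.Env d, U = { V with e₀ := e₀, m := m, ζ := ζ } := ⟨_, rfl⟩
  rw [← hU] at hst ⊢
  have hUw : U.w = V.w := by rw [hU]
  have hUth : U.th ≤ 1 := by rw [hU]; exact hth1'
  have hUα : U.α = α := by rw [hU]; exact hVα
  have hUe : U.e₀ = e₀ := by rw [hU]
  have hUe0 : 0 < U.e₀ := by rw [hUe]; exact he₀
  have hUkk : U.kk 0 = 0 := by rw [hU]; exact hV.sc.k0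
  have hsg : U.sg 0 = (U.w : ℝ) := by
    rw [sg_eq, hUkk, cl_zero]
  have hw : 0 < U.w := by rw [hUw]; exact hw0
  rw [← hUw] at hw0' g1 g2 g3 g4 he₀'
  rw [← hUe] at he₀'
  have hrp : ∀ p : ℝ, 0 ≤ p → (U.w : ℝ) ^ p ≤ 1 := fun p hp =>
    Real.rpow_le_one hw0'.le g1 hp
  have hgr : ∀ p : ℝ, 0 < p → (U.w : ℝ) ^ p ≤ gr U p 0 0 := fun p hp => (gr_bd U hUth hp 0 0).1
  have hgr0 : ∀ p : ℝ, 0 < p → 0 ≤ gr U p 0 0 := fun p hp =>
    (Real.rpow_nonneg hw0'.le p).trans (hgr p hp)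
  have hka0 : 0 < ka U := by unfold ka; positivity
  have hka : ka U ≤ 1 / 9000 := by
    unfold ka
    rw [hUα]
    have h2 : (2 : ℝ) ≤ α := by exact_mod_cast hα
    apply one_div_le_one_div_of_le (by norm_num)
    nlinarith only [h2]
  have hlam : (U.w : ℝ) ^ (-(2 / 3 + es)) ≤ (qq U 0 0).lam := by
    show (U.w : ℝ) ^ (-(2 / 3 + es)) ≤
      1 / 4 * (U.cl 0 : ℝ) ^ (-(3 / 4) : ℝ) * (2 - U.sg 0 ^ (1 / 400 : ℝ))
    rw [cl_zero, hsg]
    have h1 := hw₂' _ hw0' g3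
    have h2 : (U.w : ℝ) ^ (-(2 / 3 + es)) = (U.w : ℝ) ^ (1 / 12 - es) * (U.w : ℝ) ^ (-(3 / 4) : ℝ) := by
      rw [← Real.rpow_add hw0']
      congr 1
      ring
    have h3 := hrp (1 / 400) (by norm_num)
    have h4 : 0 < (U.w : ℝ) ^ (-(3 / 4) : ℝ) := Real.rpow_pos_of_pos hw0' _
    rw [h2]
    calc (U.w : ℝ) ^ (1 / 12 - es) * (U.w : ℝ) ^ (-(3 / 4) : ℝ)
        ≤ 1 / 4 * (U.w : ℝ) ^ (-(3 / 4) : ℝ) :=
          mul_le_mul_of_nonneg_right (by linarith only [h1]) h4.le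
      _ = 1 / 4 * (U.w : ℝ) ^ (-(3 / 4) : ℝ) * 1 := by ring
      _ ≤ _ := mul_le_mul_of_nonneg_left (by linarith only [h3]) (by positivity)
  have htht : (U.w : ℝ) ^ (1 / 2 - es) ≤ (qq U 0 0).tht := by
    show (U.w : ℝ) ^ (1 / 2 - es) ≤ gr U (1 / 400) 0 0
    refine le_trans ?_ (hgr (1 / 400) (by norm_num))
    exact Real.rpow_le_rpow_of_exponent_ge hw0' g1 (by linarith only [e2])
  have heps : 2 * (U.w : ℝ) ^ es ≤ (qq U 0 0).eps := by
    show 2 * (U.w : ℝ) ^ es ≤ (U.cl 0 : ℝ) ^ (ka U / 2) * (2 - U.sg 0 ^ ka U)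
    rw [cl_zero, hsg]
    have h1 := hw₃' _ hw0' g4
    have h2 : (U.w : ℝ) ^ es = (U.w : ℝ) ^ (es - 1 / 18000) * (U.w : ℝ) ^ ((1 : ℝ) / 18000) := by
      rw [← Real.rpow_add hw0']
      congr 1
      ring
    have h3 : (U.w : ℝ) ^ ((1 : ℝ) / 18000) ≤ (U.w : ℝ) ^ (ka U / 2) :=
      Real.rpow_le_rpow_of_exponent_ge hw0' g1 (by linarith only [hka])
    have h4 := hrp (ka U) hka0.le
    have h5 : 0 < (U.w : ℝ) ^ (ka U / 2) := Real.rpow_pos_of_pos hw0' _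
    have h6 : 0 < (U.w : ℝ) ^ ((1 : ℝ) / 18000) := Real.rpow_pos_of_pos hw0' _
    calc 2 * (U.w : ℝ) ^ es
        = 2 * (U.w : ℝ) ^ (es - 1 / 18000) * (U.w : ℝ) ^ ((1 : ℝ) / 18000) := by rw [h2]; ring
      _ ≤ 1 * (U.w : ℝ) ^ ((1 : ℝ) / 18000) := mul_le_mul_of_nonneg_right h1 h6.le
      _ ≤ (U.w : ℝ) ^ (ka U / 2) * 1 := by linarith only [h3]
      _ ≤ _ := mul_le_mul_of_nonneg_left (by linarith only [h4]) h5.le
  have hws : (U.w : ℝ) ^ es ≤ 1 / 2 := by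
    have h1 := hw₁' _ hw0' g2
    linarith only [h1]
  have key := ini_st (V := toE U c C) (qq U 0 0) (w := U.w) (es := es) (c := c) (C := C) (ζ := U.ζ)
    (by rw [hU] at hst ⊢; exact hst) hw hUe0 he₀' hc hc' hC hws rfl
    (by show c / 2 ≤ c; linarith only [hc]) (by show C ≤ 2 * C; linarith only [hC])
    (by show 0 ≤ c * (U.w : ℝ) ^ (8 * es - 1); positivity) le_rfl le_rfl le_rfl
    (hgr0 _ (by norm_num)) (Real.rpow_nonneg (NNReal.coe_nonneg _) _) hlam htht heps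
    (hgr0 _ (by positivity))
  show St (toE U c C) (bud U) 0 0 ⟨fun _ => 0, fun _ => U.cl 0, fun _ => U.m⟩ Finset.univ
  refine ⟨?_, ?_, ?_⟩
  · show StN (toE U c C) (qq U 0 0) (U.cl 0) ⟨fun _ => 0, fun _ => U.cl 0, fun _ => U.m⟩
      Finset.univ
    rw [cl_zero]
    exact key
  · intro m hm
    omega
  · refine ⟨fun _ => ∅, fun x hx => ?_, fun j B => ?_⟩
    · have hx' : U.cl 0 = 0 := hx
      rw [cl_zero] at hx'
      exact absurd hx' hw.ne'
    · rw [Finset.empty_inter, Finset.card_empty]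
      exact Nat.zero_le _

end Pool.Agent.QDU.H54
end
end -- Pool.Agent.Helper22_QDU.H54IniF

section -- Pool.Agent.Helper22_QDU.H54IniV

/-!
# QDU: the start with a revealed potential, uniformly
-/

set_option autoImplicit false
set_option linter.unusedSectionVars false

open scoped BigOperators NNReal Matrix

noncomputable section

namespace Pool.Agent.QDU.H54

open Pool.Agent.AHH hiding BegF FinF FloF IniF KilF MmonF OutF RbegF RfinF RmonF ana0
open Pool.Agent.AHH.H54 hiding ini iniV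
open Pool.Agent.BED (Tor)
open Pool.Agent.AND2B (Prd net kap Vef)
open Pool.Agent.ANP (Cfg)
open Pool.Agent.LE.QD (rs)
open Pool.Agent.LTG (Fm sT tT qd)
open Pool.Agent.AFJ (EE)
open Pool.Agent.ABY (vir)

theorem iniV : Fld2 Z es IniVP := by
  intro d a c C hd ha hc hc' hC
  have hg : Ev2 d a es c C fun V => V.Good a es c C ∧ (V.w : ℝ) ≤ 1 := by
    refine Ev2.intro' 1 1 one_pos one_pos ?_
    intro b c₁ C₁ α J _ _ _ _
    exact ⟨1, 1, one_pos, one_pos, fun V hV _ _ _ _ _ _ _ hw => ⟨hV, hw⟩⟩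
  refine ((ini d a c C hd ha hc hc' hC).and hg).imp ?_
  rintro V ⟨hini, hV, hw1⟩ V₀ hV₀
  have hini' : St (toE V c C) (bud V) 0 0 ⟨fun _ => 0, fun _ => V.cl 0, fun _ => V.m⟩
      Finset.univ := hini
  obtain ⟨k1, k2, k3⟩ := hini'
  have hw : 0 < V.w := hV.w
  have hw0 : (0 : ℝ) < V.w := by exact_mod_cast hw
  have hth1 : V.th ≤ 1 := hV.th.2.le
  have hst := hV.st
  rw [show (toE V c C).cl 0 = V.w from cl_zero V] at k1
  have k1' : StN (toE V c C) (qq V 0 0) V.w (T0 V.w V.m) Finset.univ := by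
    have h1 : (fun _ : V.X => V.cl 0) = fun _ => V.w := by
      funext _
      exact cl_zero V
    have h2 : (T0 V.w V.m : Cfg V.X) = ⟨fun _ => 0, fun _ => V.cl 0, fun _ => V.m⟩ := by
      rw [h1]
      rfl
    rw [h2]
    exact k1
  have key := stN_shift (toE V c C) (qq V 0 0) hw hV₀
    (fun x => by
      show net V.E V.e₀ (T0 V.w V.m) x x = V.m
      rw [net0 V.E V.e₀ V.w V.m V.ζ hst.hz, hst.hm x])
    (by
      show (V.w : ℝ) ≤ gr V (1 / 20) 0 0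
      refine le_trans ?_ (gr_bd V hth1 (by norm_num) 0 0).1
      conv_lhs => rw [← Real.rpow_one (V.w : ℝ)]
      exact Real.rpow_le_rpow_of_exponent_ge hw0 hw1 (by norm_num))
    (by
      show (V.w : ℝ) ≤ (V.cl 0 : ℝ) ^ (1 / 8 : ℝ)
      rw [cl_zero]
      conv_lhs => rw [← Real.rpow_one (V.w : ℝ)]
      exact Real.rpow_le_rpow_of_exponent_ge hw0 hw1 (by norm_num))
    (by
      show ‖V.m‖ + V.w ≤ 2 * C
      have h1 := hst.hc.2
      linarith only [h1, hw1, hC]) k1'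
  have h3 : (⟨V₀, fun _ => V.cl 0, fun x => V.m + ((V₀ x / V.w : ℝ) : ℂ)⟩ : Cfg V.X) =
      TV V.w V.m V₀ := by
    unfold TV
    rw [cl_zero]
  show St (toE V c C) (bud V) 0 0
    ⟨V₀, fun _ => V.cl 0, fun x => V.m + ((V₀ x / V.w : ℝ) : ℂ)⟩ Finset.univ
  rw [h3]
  refine ⟨?_, ?_, ?_⟩
  · rw [show (toE V c C).cl 0 = V.w from cl_zero V]
    exact key
  · intro m hm
    omega
  · refine ⟨fun _ => ∅, fun x hx => ?_, fun j B => ?_⟩
    · have hx' : V.w = 0 := hx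
      exact absurd hx' hw.ne'
    · rw [Finset.empty_inter, Finset.card_empty]
      exact Nat.zero_le _

end Pool.Agent.QDU.H54
end
end -- Pool.Agent.Helper22_QDU.H54IniV

section -- Pool.Agent.Helper34_QDA.Trq

/-!
# QDA, row TRQ: from the torus to the lattice, in `ℓ²`
-/

set_option autoImplicit false

open MeasureTheory ProbabilityTheory Function Filter

open scoped ENNReal BigOperators InnerProductSpace Topology NNReal Matrix

noncomputable section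

namespace Pool.Agent.QDA.H34

open Pool.Agent.Anderson hiding box mem_box card_box
open Pool.Agent.Loc Pool.Agent.Mob Pool.Agent.Helper54.Bal
  Pool.Agent.Helper96.EXP Pool.Agent.BED
open Pool.Agent.LE.MN Pool.Agent.LE.CL Pool.Agent.LE.IR Pool.Agent.LE.QD
open Pool.Agent.LE.QX.H90 Pool.Agent.ANE Pool.Agent.ANE.H72

theorem main2 {d : ℕ} (hCTH : CthStmt) (M : ℕ) [NeZero M] (V : Site d → ℝ) (E η α : ℝ)
    (hη : 0 < η) (hα : 0 ≤ α) (h2 : 2 * d * (Real.exp α - 1) ≤ η / 2) (L : ℕ) (hL : 1 ≤ L)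
    (hM : 4 * L + 3 ≤ M) :
    ∑ x : Tor d M, ‖(ct L (rep x) : ℂ) * G V (zz η E) (del 0) (rep x) -
      rs (fun x : Tor d M => V (rep x)) ⟨E, η⟩ x 0‖ ^ 2 ≤
      (4 * d / η ^ 2 * Real.exp (-(α * (L - 1 : ℕ)))) ^ 2 := by
  classical
  have hL0 : (1 : ℝ) ≤ L := by exact_mod_cast hL
  set z : ℂ := zz η E with hzd
  have hzi : z.im = η := zz_im η E
  have hz0 : z.im ≠ 0 := by rw [hzi]; exact hη.ne'
  rw [← zz_eq, ← hzd]
  obtain ⟨u, hu⟩ : ∃ u : Site d → ℂ, u = fun y => G V z (del 0) y := ⟨_, rfl⟩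
  obtain ⟨W, hW⟩ : ∃ W : Tor d M → ℝ, W = fun x => V (rep x) := ⟨_, rfl⟩
  obtain ⟨v, hv⟩ : ∃ v : Tor d M → ℂ, v = fun x => (ct L (rep x) : ℂ) * u (rep x) := ⟨_, rfl⟩
  have hvx : ∀ x, v x = (ct L (rep x) : ℂ) * u (rep x) := fun x => by rw [hv]
  have hWx : ∀ x, W x = V (rep x) := fun x => by rw [hW]
  have heq : ∀ y, ∑ i : Fin d, (u (y + Pi.single i 1) + u (y - Pi.single i 1)) +
      ((V y : ℂ) - z) * u y = if y = 0 then 1 else 0 := by
    intro y
    have h := G_eq (V := V) hz0 (del (0 : Site d)) y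
    rw [del_apply] at h
    rw [hu]
    exact h
  obtain ⟨r, hr⟩ : ∃ r : Tor d M → ℂ, r = hz W z *ᵥ v - Pi.single 0 1 := ⟨_, rfl⟩
  obtain ⟨A, hA⟩ : ∃ A : Finset (Site d), A = (box 0 (2 * L)).filter fun y => L ≤ sd 0 y :=
    ⟨_, rfl⟩
  obtain ⟨F, hF⟩ : ∃ F : Site d → ℝ, F = fun y => 2 * d / (L : ℝ) ^ 2 *
        ∑ i : Fin d, (‖u (y + Pi.single i 1)‖ ^ 2 + ‖u (y - Pi.single i 1)‖ ^ 2) := ⟨_, rfl⟩
  have hF0 : ∀ y, 0 ≤ F y := by
    intro y
    rw [hF]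
    positivity
  have hpt : ∀ x, ‖r x‖ ^ 2 ≤ if rep x ∈ A then F (rep x) else 0 := by
    intro x
    have hrx : r x = (hz W z *ᵥ v) x - if rep x = 0 then 1 else 0 := by
      rw [hr, Pi.sub_apply, Pi.single_apply]
      congr 1
      have : (x = 0) ↔ (rep x = 0) := by
        constructor
        · rintro rfl
          exact rep_zero'
        · intro h
          exact rep_inj (by rw [h, rep_zero'])
      simp only [this]
    by_cases h : sd 0 (rep x) ≤ 2 * L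
    · have e1 : ∀ i, rep (x + ev i) = rep x + Pi.single i 1 := rep_add (R := 2 * L) (by omega) h
      have e2 : ∀ i, rep (x - ev i) = rep x - Pi.single i 1 := rep_sub (R := 2 * L) (by omega) h
      obtain ⟨y, hy⟩ : ∃ y, y = rep x := ⟨_, rfl⟩
      have e3 : r x = Pool.Agent.ANE.H72.cm L u y := by
        rw [hrx, hz_mulVec, hvx x, hWx x, ← hy]
        have e4 : ∀ i, v (x + ev i) + v (x - ev i) =
            (ct L y : ℂ) * (u (y + Pi.single i 1) + u (y - Pi.single i 1)) +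
            (((ct L (y + Pi.single i 1) - ct L y : ℝ) : ℂ) * u (y + Pi.single i 1) +
            ((ct L (y - Pi.single i 1) - ct L y : ℝ) : ℂ) * u (y - Pi.single i 1)) := by
          intro i
          rw [hvx, hvx, e1, e2, ← hy]
          push_cast
          ring
        rw [Finset.sum_congr rfl fun i _ => e4 i, Finset.sum_add_distrib, ← Finset.mul_sum]
        have e5 := heq y
        have e6 : (ct L y : ℂ) * (if y = 0 then (1 : ℂ) else 0) = if y = 0 then 1 else 0 := by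
          split_ifs with h0
          · rw [h0, ct_one hL (by rw [show sd (0 : Site d) 0 = 0 by
              rw [← Nat.le_zero, sd_le_iff]; simp]; omega)]
            simp
          · simp
        unfold Pool.Agent.ANE.H72.cm
        rw [← e6, ← e5]
        ring
      rw [e3]
      by_cases h3 : L ≤ sd 0 y
      · rw [if_pos (by rw [hA, Finset.mem_filter, mem_box, ← hy]; exact ⟨by rw [hy]; exact h, h3⟩),
          hF, ← hy]
        exact comm_bound hL u y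
      · rw [cm_zero hL u (not_le.1 h3)]
        split_ifs
        · simpa using hF0 _
        · simp
    · have z0 : v x = 0 := by
        rw [hvx, ct_zero hL (by omega)]
        simp
      have z1 : ∀ x' : Tor d M, (∃ i, x = x' + ev i ∨ x = x' - ev i) → v x' = 0 := by
        rintro x' ⟨i, hi⟩
        rw [hvx]
        by_cases h2 : 2 * L ≤ sd 0 (rep x')
        · rw [ct_zero hL h2]
          simp
        · exfalso
          rw [not_le] at h2
          have h3 : sd 0 (rep x) ≤ 2 * L := by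
            rcases hi with hi | hi
            · rw [hi, rep_add (R := 2 * L) (by omega) (by omega)]
              have h4 := sd_triangle 0 (rep x') (rep x' + Pi.single i 1)
              have h5 := sd_add (rep x') i
              omega
            · rw [hi, rep_sub (R := 2 * L) (by omega) (by omega)]
              have h4 := sd_triangle 0 (rep x') (rep x' - Pi.single i 1)
              have h5 := sd_sub (rep x') i
              omega
          omega
      have z2 : ∑ i : Fin d, (v (x + ev i) + v (x - ev i)) = 0 := by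
        refine Finset.sum_eq_zero fun i _ => ?_
        rw [z1 (x + ev i) ⟨i, Or.inr (by abel)⟩, z1 (x - ev i) ⟨i, Or.inl (by abel)⟩, add_zero]
      have z3 : rep x ≠ 0 := by
        intro h0
        apply h
        rw [h0, show sd (0 : Site d) 0 = 0 by rw [← Nat.le_zero, sd_le_iff]; simp]
        omega
      rw [hrx, hz_mulVec, z0, z2, if_neg z3]
      split_ifs
      · simpa using hF0 _
      · simp
  obtain ⟨B, hB⟩ : ∃ B : Finset (Site d), B = (box 0 (2 * L + 1)).filter fun y => L - 1 ≤ sd 0 y :=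
    ⟨_, rfl⟩
  have hfar : ∑ y ∈ B, ‖u y‖ ^ 2 ≤ Real.exp (-(2 * α * (L - 1 : ℕ))) * (4 / η ^ 2) := by
    have h := far hCTH V E η α hη hα h2 (L - 1) B (by
      intro y hy
      rw [hB, Finset.mem_filter] at hy
      exact hy.2)
    rw [hu]
    exact h
  obtain ⟨S, hS⟩ : ∃ S : ℝ, S = Real.exp (-(2 * α * (L - 1 : ℕ))) * (4 / η ^ 2) := ⟨_, rfl⟩
  have hS0 : 0 ≤ S := by rw [hS]; positivity
  have hn2 : n2 r ≤ 4 * (d : ℝ) ^ 2 * S := by
    unfold n2
    refine (Finset.sum_le_sum fun x _ => hpt x).trans ?_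
    refine (sum_rep F hF0 _).trans ?_
    rw [hF, ← Finset.mul_sum, Finset.sum_comm]
    have h1 : ∀ i : Fin d, ∑ y ∈ A, (‖u (y + Pi.single i 1)‖ ^ 2 +
        ‖u (y - Pi.single i 1)‖ ^ 2) ≤ 2 * S := by
      intro i
      rw [Finset.sum_add_distrib]
      have h2 := sum_shift (fun y => ‖u y‖ ^ 2) (fun y => by positivity) (A := A)
        (B := B) (Pi.single i 1 : Site d) (by
          intro y hy
          rw [hA, Finset.mem_filter, mem_box] at hy
          rw [hB, Finset.mem_filter, mem_box]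
          have h4 := sd_triangle 0 y (y + Pi.single i 1)
          have h5 := sd_add y i
          have h6 := sd_triangle 0 (y + Pi.single i 1) y
          rw [sd_comm (y + Pi.single i 1) y] at h6
          omega)
      have h3 := sum_shift (fun y => ‖u y‖ ^ 2) (fun y => by positivity) (A := A)
        (B := B) (-Pi.single i 1 : Site d) (by
          intro y hy
          rw [hA, Finset.mem_filter, mem_box] at hy
          rw [hB, Finset.mem_filter, mem_box]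
          have h4 := sd_triangle 0 y (y - Pi.single i 1)
          have h5 := sd_sub y i
          have h6 := sd_triangle 0 (y - Pi.single i 1) y
          rw [sd_comm (y - Pi.single i 1) y] at h6
          rw [← sub_eq_add_neg]
          omega)
      simp only [← sub_eq_add_neg] at h3
      rw [← hS] at hfar
      linarith only [hfar, h2, h3]
    have h5 : ∑ i : Fin d, ∑ y ∈ A, (‖u (y + Pi.single i 1)‖ ^ 2 +
        ‖u (y - Pi.single i 1)‖ ^ 2) ≤ 2 * d * S := by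
      calc _ ≤ ∑ _i : Fin d, 2 * S := Finset.sum_le_sum fun i _ => h1 i
        _ = 2 * d * S := by
            rw [Finset.sum_const, Finset.card_univ, Fintype.card_fin, nsmul_eq_mul]
            ring
    have h6 : 2 * (d : ℝ) / (L : ℝ) ^ 2 ≤ 2 * d := by
      rw [div_le_iff₀ (by positivity)]
      have : (1 : ℝ) ≤ (L : ℝ) ^ 2 := by nlinarith only [hL0]
      have h7 : (0 : ℝ) ≤ 2 * d := by positivity
      nlinarith only [this]
    calc _ ≤ 2 * (d : ℝ) * (2 * d * S) :=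
          mul_le_mul h6 h5 (Finset.sum_nonneg fun i _ => Finset.sum_nonneg fun y _ => by positivity)
            (by positivity)
      _ = _ := by ring
  -- the solution
  have hsol : v = rs W z *ᵥ (Pi.single 0 1) + rs W z *ᵥ r := by
    have h1 : rs W z *ᵥ (hz W z *ᵥ v) = v := by
      rw [Matrix.mulVec_mulVec, Pool.Agent.LE.QD.H76.rs_mul W hz0, Matrix.one_mulVec]
    rw [← Matrix.mulVec_add, hr, add_sub_cancel, h1]
  have hdiff : ∀ x, (ct L (rep x) : ℂ) * G V z (del 0) (rep x) - rs W z x 0 =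
      (rs W z *ᵥ r) x := by
    intro x
    have h1 := congrFun hsol x
    have h3 : (rs W z *ᵥ (Pi.single 0 1)) x = rs W z x 0 := by
      rw [Matrix.mulVec_single_one]
      rfl
    rw [Pi.add_apply, h3, hvx, hu] at h1
    rw [h1]
    ring
  have hb1 : ∑ x, ‖(rs W z *ᵥ r) x‖ ^ 2 ≤ n2 r / η ^ 2 := by
    have h1 := Pool.Agent.LE.QD.H76.rs_bd W hz0 r
    rw [hzi] at h1
    exact h1
  rw [← hW]
  rw [Finset.sum_congr rfl fun x _ => by rw [hdiff x]]
  refine hb1.trans ?_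
  have h3 : Real.exp (-(2 * α * (L - 1 : ℕ))) = Real.exp (-(α * (L - 1 : ℕ))) ^ 2 := by
    rw [← Real.exp_nat_mul]
    congr 1
    push_cast
    ring
  rw [div_le_iff₀ (by positivity)]
  refine hn2.trans (le_of_eq ?_)
  rw [hS, h3]
  field_simp

/-- the two resolvents are close in `ℓ²` -/
theorem l2 (d : ℕ) : ∃ C : ℝ, 1 ≤ C ∧ ∀ (M : ℕ) [NeZero M] (V : Site d → ℝ) (E η : ℝ), 0 < η →
    η ≤ 1 / (24 * C ^ 5) → 1 ≤ η ^ 2 * M → ∃ L : ℕ, 1 ≤ L ∧ 4 * L + 3 ≤ M ∧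
      ∑ x : Tor d M, ‖(ct L (rep x) : ℂ) * G V (zz η E) (del 0) (rep x) -
        rs (fun x : Tor d M => V (rep x)) ⟨E, η⟩ x 0‖ ^ 2 ≤ η ^ 2 ∧
      ∀ B : Finset (Site d), (∀ y ∈ B, L ≤ sd 0 y) →
        ∑ y ∈ B, ‖G V (zz η E) (del 0) y‖ ^ 2 ≤ η ^ 2 := by
  have hd0 : (0 : ℝ) ≤ d := Nat.cast_nonneg d
  obtain ⟨C, hC⟩ : ∃ C : ℝ, C = 32 * (d + 1) := ⟨_, rfl⟩
  have hC0 : 32 ≤ C := by rw [hC]; linarith
  refine ⟨C, by linarith, ?_⟩
  intro M _ V E η hη hη4 hηM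
  have hC5 : (1 : ℝ) ≤ C ^ 5 := one_le_pow₀ (by linarith only [hC])
  have hη24 : η ≤ 1 / 24 := by
    refine hη4.trans ?_
    exact one_div_le_one_div_of_le (by norm_num) (by linarith)
  have hM : 12 ≤ M := by
    have h1 : (12 : ℝ) ≤ M := by
      by_contra h
      rw [not_le] at h
      have h2 : η ^ 2 ≤ (1 / 24) ^ 2 := by gcongr
      have h3 : (0 : ℝ) ≤ M := Nat.cast_nonneg M
      nlinarith only [hη, hηM, hη24, h, h2]
    exact_mod_cast h1
  have herr := Pool.Agent.ANE.H90.err_le (by linarith only [hC, hη, hη24] : (1 : ℝ) ≤ C) hη hη4 hηM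
  obtain ⟨α, hα⟩ : ∃ α : ℝ, α = η / (8 * (d + 1)) := ⟨_, rfl⟩
  have hα0 : 0 ≤ α := by rw [hα]; positivity
  have hα1 : α ≤ 1 / 8 := by
    rw [hα, div_le_iff₀ (by positivity)]
    linarith
  have hαη : α * (8 * (d + 1)) = η := by
    rw [hα]
    field_simp
  have h2 : 2 * d * (Real.exp α - 1) ≤ η / 2 := by
    have h3 := expo hα0 (by linarith only [hη, hη24, hα1])
    have h4 : 2 * d * (Real.exp α - 1) ≤ 2 * d * (2 * α) := by gcongr
    nlinarith only [hα0, hαη, h4]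
  obtain ⟨L, hL⟩ : ∃ L : ℕ, L = (M - 3) / 4 := ⟨_, rfl⟩
  have h6 : (M : ℝ) ≤ 4 * ((L - 1 : ℕ) : ℝ) + 10 := by
    have : M ≤ 4 * (L - 1) + 10 := by omega
    exact_mod_cast this
  have h7 : -(α * ((L - 1 : ℕ) : ℝ)) ≤ 1 / 2 + -(η * M / C) := by
    have h8 : η * M / C = α * M / 4 := by
      rw [div_eq_iff (by linarith only [hC, hη, hη24]), hC, ← hαη]
      ring
    rw [h8]
    nlinarith only [hη, hη24, hαη, h6]
  have h9 : Real.exp (-(α * ((L - 1 : ℕ) : ℝ))) ≤ 2 * Real.exp (-(η * M / C)) := by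
    refine (Real.exp_le_exp.2 h7).trans ?_
    rw [Real.exp_add]
    gcongr
    have := expo (α := 1 / 2) (by norm_num) (by norm_num)
    linarith only [this]
  refine ⟨L, by omega, by omega, ?_, ?_⟩
  · refine (main2 Pool.Agent.Mob.H69.cth M V E η α hη hα0 h2 L (by omega) (by omega)).trans ?_
    refine pow_le_pow_left₀ (by positivity) (le_trans ?_ herr) 2
    calc 4 * d / η ^ 2 * Real.exp (-(α * ((L - 1 : ℕ) : ℝ))) ≤
        4 * d / η ^ 2 * (2 * Real.exp (-(η * M / C))) := by gcongr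
      _ = 8 * d / η ^ 2 * Real.exp (-(η * M / C)) := by ring
      _ ≤ _ := by
          gcongr
          rw [hC]
          linarith only [hη, hη24]
  · intro B hB
    refine (far Pool.Agent.Mob.H69.cth V E η α hη hα0 h2 L B hB).trans ?_
    have h10 : Real.exp (-(2 * α * L)) * (4 / η ^ 2) = (2 / η * Real.exp (-(α * L))) ^ 2 := by
      have h11 : Real.exp (-(2 * α * L)) = Real.exp (-(α * L)) ^ 2 := by
        rw [← Real.exp_nat_mul]
        congr 1
        push_cast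
        ring
      rw [h11]
      field_simp
      norm_num
    rw [h10]
    refine pow_le_pow_left₀ (by positivity) (le_trans ?_ herr) 2
    have h12 : Real.exp (-(α * L)) ≤ Real.exp (-(α * ((L - 1 : ℕ) : ℝ))) := by
      refine Real.exp_le_exp.2 (neg_le_neg (mul_le_mul_of_nonneg_left ?_ hα0))
      exact_mod_cast Nat.sub_le _ _
    have h13 : 2 / η ≤ 2 / η ^ 2 := by
      apply div_le_div_of_nonneg_left (by norm_num) (by positivity)
      nlinarith only [hη, hη24]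
    calc 2 / η * Real.exp (-(α * L)) ≤ 2 / η ^ 2 * (2 * Real.exp (-(η * M / C))) := by
          gcongr
          exact h12.trans h9
      _ = 4 / η ^ 2 * Real.exp (-(η * M / C)) := by ring
      _ ≤ _ := by
          gcongr
          linarith only [hC, hη, hη24]

open Classical in
/-- masses -/
theorem mass {d M : ℕ} [NeZero M] (V : Site d → ℝ) (E η : ℝ) (hη : 0 < η) (L : ℕ) (hL : 1 ≤ L)
    (hM : 4 * L + 3 ≤ M)
    (h1 : ∑ x : Tor d M, ‖(ct L (rep x) : ℂ) * G V (zz η E) (del 0) (rep x) -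
        rs (fun x : Tor d M => V (rep x)) ⟨E, η⟩ x 0‖ ^ 2 ≤ η ^ 2)
    (h2 : ∀ B : Finset (Site d), (∀ y ∈ B, L ≤ sd 0 y) →
        ∑ y ∈ B, ‖G V (zz η E) (del 0) y‖ ^ 2 ≤ η ^ 2) (P : Site d → Prop) :
    ∑' y : Site d, (if P y then ENNReal.ofReal (η * ‖G V (zz η E) (del 0) y‖ ^ 2) else 0) ≤
      ENNReal.ofReal (2 * (η * ∑ x : Tor d M, (if P (rep x) then
        ‖rs (fun x : Tor d M => V (rep x)) ⟨E, η⟩ x 0‖ ^ 2 else 0)) + 3 * η ^ 3) := by
  rw [ENNReal.tsum_eq_iSup_sum]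
  refine iSup_le fun B => ?_
  have e1 : ∀ y, (if P y then ENNReal.ofReal (η * ‖G V (zz η E) (del 0) y‖ ^ 2) else 0) =
      ENNReal.ofReal (if P y then η * ‖G V (zz η E) (del 0) y‖ ^ 2 else 0) := by
    intro y
    split_ifs
    · rfl
    · rw [ENNReal.ofReal_zero]
  rw [Finset.sum_congr rfl fun y _ => e1 y, ← ENNReal.ofReal_sum_of_nonneg (fun y _ => by
    split_ifs <;> positivity)]
  refine ENNReal.ofReal_le_ofReal ?_
  rw [← Finset.sum_filter_add_sum_filter_not B (fun y => L ≤ sd 0 y)]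
  have hfar : ∑ y ∈ B with L ≤ sd 0 y, (if P y then η * ‖G V (zz η E) (del 0) y‖ ^ 2 else 0) ≤
      η * η ^ 2 := by
    refine le_trans ?_ (mul_le_mul_of_nonneg_left (h2 (B.filter fun y => L ≤ sd 0 y)
      (fun y hy => (Finset.mem_filter.1 hy).2)) hη.le)
    rw [Finset.mul_sum]
    refine Finset.sum_le_sum fun y _ => ?_
    split_ifs
    · exact le_rfl
    · positivity
  have hnear : ∑ y ∈ B with ¬ L ≤ sd 0 y, (if P y then η * ‖G V (zz η E) (del 0) y‖ ^ 2 else 0) ≤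
      2 * (η * ∑ x : Tor d M, (if P (rep x) then
        ‖rs (fun x : Tor d M => V (rep x)) ⟨E, η⟩ x 0‖ ^ 2 else 0)) + 2 * (η * η ^ 2) := by
    have h3 : ∑ y ∈ B with ¬ L ≤ sd 0 y, (if P y then η * ‖G V (zz η E) (del 0) y‖ ^ 2 else 0) ≤
        ∑ x : Tor d M, (if sd 0 (rep x) < L then
          (if P (rep x) then η * ‖G V (zz η E) (del 0) (rep x)‖ ^ 2 else 0) else 0) := by
      have h8 : ∑ x : Tor d M, (if sd 0 (rep x) < L then
          (if P (rep x) then η * ‖G V (zz η E) (del 0) (rep x)‖ ^ 2 else 0) else 0) =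
          ∑ x ∈ Finset.univ.filter fun x : Tor d M => sd 0 (rep x) < L,
            (fun y => (if P y then η * ‖G V (zz η E) (del 0) y‖ ^ 2 else 0)) (rep x) :=
        (Finset.sum_filter _ _).symm
      rw [h8]
      rw [← Finset.sum_image (s := Finset.univ.filter fun x : Tor d M => sd 0 (rep x) < L)
        (f := fun y => (if P y then η * ‖G V (zz η E) (del 0) y‖ ^ 2 else 0))
        (g := rep) (fun x _ y _ h => rep_inj h)]
      refine Finset.sum_le_sum_of_subset_of_nonneg ?_ (fun y _ _ => by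
        split_ifs <;> positivity)
      intro y hy
      rw [Finset.mem_filter] at hy
      have h4 : rep (ti M 0 y) = y := rep_ti (R := L) (by omega) (by omega)
      rw [Finset.mem_image]
      refine ⟨ti M 0 y, ?_, h4⟩
      rw [Finset.mem_filter, h4]
      exact ⟨Finset.mem_univ _, by omega⟩
    refine h3.trans ?_
    have h5 : 2 * (η * ∑ x : Tor d M, (if P (rep x) then
        ‖rs (fun x : Tor d M => V (rep x)) ⟨E, η⟩ x 0‖ ^ 2 else 0)) + 2 * (η * η ^ 2) ≥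
        ∑ x : Tor d M, (2 * (η * (if P (rep x) then
        ‖rs (fun x : Tor d M => V (rep x)) ⟨E, η⟩ x 0‖ ^ 2 else 0)) +
        2 * (η * ‖(ct L (rep x) : ℂ) * G V (zz η E) (del 0) (rep x) -
        rs (fun x : Tor d M => V (rep x)) ⟨E, η⟩ x 0‖ ^ 2)) := by
      rw [Finset.sum_add_distrib, ← Finset.mul_sum, ← Finset.mul_sum, ← Finset.mul_sum,
        ← Finset.mul_sum]
      gcongr
    refine le_trans (Finset.sum_le_sum fun x _ => ?_) h5
    by_cases hx : sd 0 (rep x) < L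
    · rw [if_pos hx, ct_one hL hx.le]
      by_cases hP : P (rep x)
      · rw [if_pos hP, if_pos hP]
        obtain ⟨g, hg⟩ : ∃ g : ℂ, g = G V (zz η E) (del 0) (rep x) := ⟨_, rfl⟩
        obtain ⟨q, hq⟩ : ∃ q : ℂ, q = rs (fun x : Tor d M => V (rep x)) ⟨E, η⟩ x 0 := ⟨_, rfl⟩
        rw [← hg, ← hq, Complex.ofReal_one, one_mul]
        have h6 : ‖g‖ ≤ ‖q‖ + ‖g - q‖ := by
          have := norm_add_le q (g - q)
          rwa [add_sub_cancel] at this
        have h7 : ‖g‖ ^ 2 ≤ 2 * ‖q‖ ^ 2 + 2 * ‖g - q‖ ^ 2 := by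
          have h8 : ‖g‖ ^ 2 ≤ (‖q‖ + ‖g - q‖) ^ 2 := by gcongr
          nlinarith only [sq_nonneg (‖q‖ - ‖g - q‖), h8]
        nlinarith only [hη, h7]
      · rw [if_neg hP, if_neg hP]
        positivity
    · rw [if_neg hx]
      have : (0 : ℝ) ≤ (if P (rep x) then
        ‖rs (fun x : Tor d M => V (rep x)) ⟨E, η⟩ x 0‖ ^ 2 else 0) := by
        split_ifs <;> positivity
      positivity
  calc _ ≤ η * η ^ 2 + (2 * (η * ∑ x : Tor d M, (if P (rep x) then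
        ‖rs (fun x : Tor d M => V (rep x)) ⟨E, η⟩ x 0‖ ^ 2 else 0)) + 2 * (η * η ^ 2)) :=
        add_le_add hfar hnear
    _ = _ := by ring

open Classical in
/-- the event on the torus -/
def ET (d M : ℕ) [NeZero M] (E η c ε : ℝ) (P Q : Site d → Prop) : Set (Tor d M → ℝ) :=
  {V | c ≤ (rs V ⟨E, η⟩ 0 0).im ∧ (rs V ⟨E, η⟩ 0 0).im ≤ 1 / c ∧
    η * ∑ x : Tor d M, (if P (rep x) then ‖rs V ⟨E, η⟩ x 0‖ ^ 2 else 0) ≤ ε ∧
    η * ∑ x : Tor d M, (if Q (rep x) then ‖rs V ⟨E, η⟩ x 0‖ ^ 2 else 0) ≤ ε}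

open Classical in
/-- the event on the lattice -/
def EZ (d : ℕ) (E η c ε : ℝ) (P Q : Site d → Prop) : Set (Site d → ℝ) :=
  {V | c / 2 ≤ (G V (zz η E) (del 0) 0).im ∧ (G V (zz η E) (del 0) 0).im ≤ 2 / c ∧
    ∑' y : Site d, (if P y then ENNReal.ofReal (η * ‖G V (zz η E) (del 0) y‖ ^ 2) else 0) ≤
      ENNReal.ofReal (3 * ε) ∧
    ∑' y : Site d, (if Q y then ENNReal.ofReal (η * ‖G V (zz η E) (del 0) y‖ ^ 2) else 0) ≤
      ENNReal.ofReal (3 * ε)}

theorem meas_ET {d M : ℕ} [NeZero M] (E η c ε : ℝ) (hη : 0 < η) (P Q : Site d → Prop) :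
    MeasurableSet (ET d M E η c ε P Q) := by
  have h1 : ∀ x y : Tor d M, Measurable fun V : Tor d M → ℝ => rs V ⟨E, η⟩ x y := fun x y =>
    Pool.Agent.ANE.H90.mrs d M ⟨E, η⟩ x y hη
  have h2 : ∀ P : Site d → Prop, Measurable fun V : Tor d M → ℝ =>
      η * ∑ x : Tor d M, (open Classical in if P (rep x) then ‖rs V ⟨E, η⟩ x 0‖ ^ 2 else 0) := by
    intro P
    refine Measurable.const_mul ?_ η
    refine Finset.measurable_fun_sum _ fun x _ => ?_
    by_cases h : P (rep x)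
    · simp only [if_pos h]
      exact (h1 x 0).norm.pow_const 2
    · simp only [if_neg h]
      exact measurable_const
  unfold ET
  refine (measurableSet_le measurable_const (Complex.measurable_im.comp (h1 0 0))).inter
    ((measurableSet_le (Complex.measurable_im.comp (h1 0 0)) measurable_const).inter
      ((measurableSet_le (h2 P) measurable_const).inter (measurableSet_le (h2 Q) measurable_const)))

/-- TRQ: FROM THE TORUS TO THE LATTICE -/
theorem trq (d : ℕ) : ∃ C : ℝ, 1 ≤ C ∧ ∀ (σ c ε E η : ℝ) (p : ℝ≥0∞) (M : ℕ) [NeZero M]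
    (P Q : Site d → Prop), σ ≠ 0 → 0 < c → c ≤ 1 → 0 < η → η ≤ c / 2 → η ≤ ε →
    η ≤ 1 / (24 * C ^ 5) → 1 ≤ η ^ 2 * M →
    (∀ v : ℝ≥0, (v : ℝ) = σ ^ 2 → p ≤ gau d M v (ET d M E η c ε P Q)) →
    p ≤ PP d (gl σ) (EZ d E η c ε P Q) := by
  obtain ⟨C, hC1, hC⟩ := l2 d
  refine ⟨C, hC1, ?_⟩
  intro σ c ε E η p M _ P Q hσ hc hc1 hη hηc hηε hη4 hηM hp
  have hη1 : η ≤ 1 / 24 := by
    refine hη4.trans (one_div_le_one_div_of_le (by norm_num) ?_)
    have : (1 : ℝ) ≤ C ^ 5 := one_le_pow₀ hC1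
    linarith only [this]
  obtain ⟨v, hv⟩ : ∃ v : ℝ≥0, (v : ℝ) = σ ^ 2 := ⟨⟨σ ^ 2, sq_nonneg σ⟩, rfl⟩
  have hSm := meas_ET (M := M) E η c ε hη P Q
  have h2 : PP d (gl σ) {V : Site d → ℝ | (fun x : Tor d M => V ((0 : Site d) + rep x)) ∈
      ET d M E η c ε P Q} = gau d M v (ET d M E η c ε P Q) := by
    have hf : Measurable fun (V : Site d → ℝ) (x : Tor d M) => V ((0 : Site d) + rep x) :=
      measurable_pi_lambda _ fun x => measurable_pi_apply _
    have h3 := Pool.Agent.LE.QY.H60.lin_eq (d := d) (M := M) hσ hv (0 : Site d)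
      ((ET d M E η c ε P Q).indicator 1) (measurable_one.indicator hSm)
    rw [lintegral_indicator_one hSm] at h3
    rw [← h3]
    exact (lintegral_indicator_one (μ := PP d (gl σ)) (hf hSm)).symm
  refine (hp v hv).trans ?_
  rw [← h2]
  apply measure_mono
  intro V hV
  have h5 : (fun x : Tor d M => V ((0 : Site d) + rep x)) = fun x : Tor d M => V (rep x) := by
    funext x
    rw [zero_add]
  have h6 : (fun x : Tor d M => V ((0 : Site d) + rep x)) ∈ ET d M E η c ε P Q := hV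
  rw [h5] at h6
  obtain ⟨e1, e2, e3, e4⟩ := h6
  obtain ⟨L, hL1, hLM, h7, h8⟩ := hC M V E η hη hη4 hηM
  have h9 : ‖G V (zz η E) (del 0) 0 - rs (fun x : Tor d M => V (rep x)) ⟨E, η⟩ 0 0‖ ≤ η := by
    have h10 := (Finset.single_le_sum (f := fun x : Tor d M =>
      ‖(ct L (rep x) : ℂ) * G V (zz η E) (del 0) (rep x) -
        rs (fun x : Tor d M => V (rep x)) ⟨E, η⟩ x 0‖ ^ 2) (fun x _ => by positivity)
      (Finset.mem_univ 0)).trans h7
    have h16 : sd (0 : Site d) 0 ≤ L := by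
      have h17 : sd (0 : Site d) 0 = 0 := by
        rw [← Nat.le_zero, sd_le_iff]
        simp
      omega
    simp only [rep_zero'] at h10
    rw [ct_one hL1 h16, Complex.ofReal_one, one_mul] at h10
    exact (pow_le_pow_iff_left₀ (norm_nonneg _) hη.le (by norm_num)).1 h10
  have h11 := (Complex.abs_im_le_norm _).trans h9
  rw [Complex.sub_im, abs_le] at h11
  have h12 : 1 / c + η ≤ 2 / c := by
    have h13 : η ≤ 1 / c := by
      have : 1 ≤ 1 / c := by rw [le_div_iff₀ hc]; linarith only [hc1]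
      linarith only [hη, hη1, this]
    have : 2 / c = 1 / c + 1 / c := by ring
    linarith
  have h14 : 3 * η ^ 3 ≤ ε := by
    have h15 : η ^ 2 ≤ 1 / 24 ^ 2 := by
      have : η ^ 2 ≤ (1 / 24) ^ 2 := by gcongr
      linarith only [this]
    have : η ^ 3 = η * η ^ 2 := by ring
    rw [this]
    nlinarith only [hc1, hη, hηc, hηε, hη1]
  refine ⟨?_, ?_, ?_, ?_⟩
  · change c / 2 ≤ (G V (zz η E) (del 0) 0).im
    linarith only [h11.1, hηc, e1]
  · change (G V (zz η E) (del 0) 0).im ≤ 2 / c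
    linarith only [h11.2, e2, h12]
  · refine (mass V E η hη L hL1 hLM h7 h8 P).trans (ENNReal.ofReal_le_ofReal ?_)
    linarith
  · refine (mass V E η hη L hL1 hLM h7 h8 Q).trans (ENNReal.ofReal_le_ofReal ?_)
    linarith

end Pool.Agent.QDA.H34
end
end -- Pool.Agent.Helper34_QDA.Trq

section -- Pool.Agent.Helper36_QDA.Trm

/-!
# QDA, row TRM: from the torus to the lattice, event `BadM` / `BadZM`
-/

set_option autoImplicit false

open MeasureTheory ProbabilityTheory Function Filter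

open scoped BigOperators NNReal ENNReal Matrix InnerProductSpace Topology

noncomputable section

namespace Pool.Agent.QDA.H36

open Pool.Agent.Anderson hiding box mem_box card_box
open Pool.Agent.Loc Pool.Agent.Mob Pool.Agent.Helper54.Bal
  Pool.Agent.Helper96.EXP Pool.Agent.BED
open Pool.Agent.LE.MN Pool.Agent.LE.CL Pool.Agent.LE.IR Pool.Agent.LE.QD

/-- the two distances to the origin agree -/
theorem dist_zero {d M : ℕ} (x : Tor d M) : ANP.H61.sd 0 x = sd 0 (rep x) := by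
  unfold ANP.H61.sd sd
  refine Finset.sup_congr rfl fun i _ => ?_
  have h : ∀ a : ZMod M, ANP.H61.cd 0 a = (0 - a.valMinAbs).natAbs := by
    intro a
    unfold ANP.H61.cd
    rw [zero_sub, zero_sub, Int.natAbs_neg, ZMod.natAbs_valMinAbs_neg]
  exact h (x i)

/-- `BadM` is covariant -/
theorem badM_tr {d M : ℕ} [NeZero M] (U : Tor d M → ℝ) (E η : ℝ) (m : ℂ) (ε : ℝ) (r R : ℕ)
    (x : Tor d M) : BadM U E η m ε r R x ↔ BadM (tr x U) E η m ε r R 0 := by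
  have h1 : Gt (tr x U) E η 0 0 = Gt U E η x x := by rw [H16.gt_tr, add_zero]
  have h2 : ∀ (p : ℕ → Prop) [DecidablePred p],
      ∑ y, (if p (ANP.H61.sd (0 : Tor d M) y) then ‖Gt (tr x U) E η 0 y‖ ^ 2 else 0) =
        ∑ y, (if p (ANP.H61.sd x y) then ‖Gt U E η x y‖ ^ 2 else 0) := by
    intro p _
    rw [← Equiv.sum_comp (Equiv.addLeft x)
      (fun y => if p (ANP.H61.sd x y) then ‖Gt U E η x y‖ ^ 2 else 0)]
    refine Finset.sum_congr rfl fun y _ => ?_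
    have h3 : ANP.H61.sd x (x + y) = ANP.H61.sd (0 : Tor d M) y := by
      have := H16.sd_add x 0 y
      rwa [add_zero] at this
    rw [Equiv.coe_addLeft, h3, H16.gt_tr, add_zero]
  unfold BadM
  rw [h1, h2 (fun n => n < r), h2 (fun n => R ≤ n)]

/-- `BadM` is measurable -/
theorem badM_meas {d M : ℕ} [NeZero M] (E : ℝ) {η : ℝ} (hη : 0 < η) (m : ℂ) (ε : ℝ) (r R : ℕ)
    (x : Tor d M) : MeasurableSet {U : Tor d M → ℝ | BadM U E η m ε r R x} := by
  have hG : ∀ y, Measurable fun U : Tor d M → ℝ => Gt U E η x y :=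
    fun y => (ACX.H38.gr_cont' E hη x y).measurable
  have hi : Measurable fun U : Tor d M → ℝ => ‖Gt U E η x x - m‖ :=
    ((hG x).sub measurable_const).norm
  have hs : ∀ (p : ℕ → Prop) [DecidablePred p], Measurable fun U : Tor d M → ℝ =>
      η * ∑ y, (if p (ANP.H61.sd x y) then ‖Gt U E η x y‖ ^ 2 else 0) := by
    intro p _
    refine measurable_const.mul (Finset.measurable_fun_sum _ fun y _ => ?_)
    split_ifs
    · exact (hG y).norm.pow_const 2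
    · exact measurable_const
  have h : {U : Tor d M → ℝ | BadM U E η m ε r R x} =
      {U | ε < ‖Gt U E η x x - m‖} ∪
      ({U | ε < η * ∑ y, (if ANP.H61.sd x y < r then ‖Gt U E η x y‖ ^ 2 else 0)} ∪
        {U | ε < η * ∑ y, (if R ≤ ANP.H61.sd x y then ‖Gt U E η x y‖ ^ 2 else 0)}) := by
    ext U
    unfold BadM
    simp only [Set.mem_union, Set.mem_ofPred_eq]
  rw [h]
  exact (measurableSet_lt measurable_const hi).union
    ((measurableSet_lt measurable_const (hs fun n => n < r)).union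
      (measurableSet_lt measurable_const (hs fun n => R ≤ n)))

/-- real series -/
theorem real_of_enn {ι : Type*} (P : ι → Prop) [DecidablePred P] (f : ι → ℝ) (hf : ∀ x, 0 ≤ f x)
    {η a : ℝ} (ha : 0 ≤ a) (hη : 0 ≤ η)
    (h : ∑' y, (if P y then ENNReal.ofReal (η * f y) else 0) ≤ ENNReal.ofReal a) :
    η * ∑' y, (if P y then f y else 0) ≤ a := by
  by_cases hs : Summable fun y => (if P y then f y else 0)
  · rw [← tsum_mul_left, ← ENNReal.ofReal_le_ofReal_iff ha,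
      ENNReal.ofReal_tsum_of_nonneg (fun y => by
        have := hf y
        split_ifs <;> positivity) (hs.mul_left η)]
    refine le_trans (le_of_eq ?_) h
    refine tsum_congr fun y => ?_
    split_ifs
    · rfl
    · rw [mul_zero, ENNReal.ofReal_zero]
  · rw [tsum_eq_zero_of_not_summable hs, mul_zero]
    exact ha

open Classical in
/-- the mean of the number of the bad sites is the probability that `0` is bad -/
theorem mean_badM {d M : ℕ} [NeZero M] (v : ℝ≥0) (E : ℝ) {η : ℝ} (hη : 0 < η) (m : ℂ) (ε : ℝ)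
    (r R : ℕ) :
    gau d M v {U | BadM U E η m ε r R 0} ≤
      ∫⁻ U, ENNReal.ofReal (((Finset.univ.filter fun x : Tor d M =>
          BadM U E η m ε r R x).card : ℝ) / (M : ℝ) ^ d) ∂(gau d M v) := by
  have h1 := H16.mean_gen (d := d) (M := M) v (fun U x => BadM U E η m ε r R x)
    (fun U x => badM_tr U E η m ε r R x) (fun x => badM_meas E hη m ε r R x)
    (W := Set.univ) MeasurableSet.univ
  refine h1.trans ?_
  rw [Set.compl_univ, measure_empty, add_zero]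
  refine le_of_eq (lintegral_congr fun U => ?_)
  have hM0 : (0 : ℝ) < (M : ℝ) ^ d := by
    have : (0 : ℝ) < M := by exact_mod_cast Nat.pos_of_ne_zero (NeZero.ne M)
    positivity
  rw [Set.indicator_univ, ENNReal.ofReal_div_of_pos hM0, ENNReal.ofReal_natCast]
  congr 1
  rw [Fintype.card_fun, ZMod.card, Fintype.card_fin]
  rw [← ENNReal.ofReal_natCast]
  congr 1
  push_cast
  rfl

/-- TRM: FROM THE TORUS TO THE LATTICE -/
theorem trm : TrmStmt := by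
  classical
  intro d ε hd hε
  obtain ⟨C, hC1, hC⟩ := H34.l2 d
  have hC5 : (1 : ℝ) ≤ C ^ 5 := one_le_pow₀ hC1
  have hC24 : 1 / (24 * C ^ 5) ≤ 1 / 24 := one_div_le_one_div_of_le (by norm_num) (by linarith only [hC5])
  refine ⟨min (1 / (24 * C ^ 5)) ε, by positivity,
    (min_le_left _ _).trans (hC24.trans (by norm_num)), ?_⟩
  intro M _ σ E η m v r R hσ hv hη hη0 hM _ _
  have hη1 : η ≤ 1 / (24 * C ^ 5) := hη0.trans (min_le_left _ _)
  have hηε : η ≤ ε := hη0.trans (min_le_right _ _)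
  have hη24 : η ≤ 1 / 24 := hη1.trans hC24
  have hηM : 1 ≤ η ^ 2 * M := by
    have h1 : η ^ (-3 : ℝ) = (η ^ 3)⁻¹ := by
      rw [Real.rpow_neg hη.le]
      norm_num
    rw [h1] at hM
    have h2 : η ^ 2 * (η ^ 3)⁻¹ ≤ η ^ 2 * M := by gcongr
    have h3 : η ^ 2 * (η ^ 3)⁻¹ = 1 / η := by
      field_simp
    have h4 : 1 ≤ 1 / η := by
      rw [le_div_iff₀ hη]
      linarith only [hC24, hη, hη1]
    linarith only [h2, h3, h4]
  have hSm : MeasurableSet {U : Tor d M → ℝ | BadM U E η m ε r R 0} := badM_meas E hη m ε r R 0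
  have h2 : PP d (gl σ) {V : Site d → ℝ | (fun x : Tor d M => V ((0 : Site d) + rep x)) ∈
      {U : Tor d M → ℝ | BadM U E η m ε r R 0}} =
        gau d M v {U : Tor d M → ℝ | BadM U E η m ε r R 0} := by
    have hf : Measurable fun (V : Site d → ℝ) (x : Tor d M) => V ((0 : Site d) + rep x) :=
      measurable_pi_lambda _ fun x => measurable_pi_apply _
    have h3 := Pool.Agent.LE.QY.H60.lin_eq (d := d) (M := M) hσ hv (0 : Site d)
      ({U : Tor d M → ℝ | BadM U E η m ε r R 0}.indicator 1) (measurable_one.indicator hSm)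
    rw [lintegral_indicator_one hSm] at h3
    rw [← h3]
    exact (lintegral_indicator_one (μ := PP d (gl σ)) (hf hSm)).symm
  refine le_trans ?_ (mean_badM v E hη m ε r R)
  rw [← h2]
  apply measure_mono
  intro V hV
  by_contra hb
  have h5 : (fun x : Tor d M => V ((0 : Site d) + rep x)) = fun x : Tor d M => V (rep x) := by
    funext x
    rw [zero_add]
  have h6 : ¬ BadM (fun x : Tor d M => V ((0 : Site d) + rep x)) E η m ε r R 0 := hb
  rw [h5] at h6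
  unfold BadM at h6
  push Not at h6
  obtain ⟨e1, e2, e3⟩ := h6
  have e0 : Gt (fun x : Tor d M => V (rep x)) E η = rs (fun x : Tor d M => V (rep x)) ⟨E, η⟩ := by
    unfold Gt
    exact ACX.H38.gr_rs _ E η
  have hsym : ∀ x y, rs (fun x : Tor d M => V (rep x)) ⟨E, η⟩ x y =
      rs (fun x : Tor d M => V (rep x)) ⟨E, η⟩ y x := fun x y =>
    Pool.Agent.LE.QD.H76.rs_symm _ ⟨E, η⟩ x y
  rw [e0] at e1 e2 e3
  obtain ⟨L, hL1, hLM, h7, h8⟩ := hC M V E η hη hη1 hηM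
  have h9 : ‖G V (zz η E) (del 0) 0 - rs (fun x : Tor d M => V (rep x)) ⟨E, η⟩ 0 0‖ ≤ η := by
    have h10 := (Finset.single_le_sum (f := fun x : Tor d M =>
      ‖(Pool.Agent.LE.QX.H90.ct L (rep x) : ℂ) * G V (zz η E) (del 0) (rep x) -
        rs (fun x : Tor d M => V (rep x)) ⟨E, η⟩ x 0‖ ^ 2) (fun x _ => by positivity)
      (Finset.mem_univ 0)).trans h7
    have h16 : sd (0 : Site d) 0 ≤ L := by
      have h17 : sd (0 : Site d) 0 = 0 := by
        rw [← Nat.le_zero, sd_le_iff]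
        simp
      omega
    simp only [Pool.Agent.ANE.H72.rep_zero'] at h10
    rw [Pool.Agent.LE.QX.H90.ct_one hL1 h16, Complex.ofReal_one, one_mul] at h10
    exact (pow_le_pow_iff_left₀ (norm_nonneg _) hη.le (by norm_num)).1 h10
  have h14 : 3 * η ^ 3 ≤ ε := by
    have h15 : η ^ 2 ≤ (1 / 24) ^ 2 := by gcongr
    have : η ^ 3 = η * η ^ 2 := by ring
    rw [this]
    nlinarith only [hε, hC24, hη, hη1, hηε, h15]
  have key : ∀ (p : ℕ → Prop) [DecidablePred p],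
      η * ∑ y : Tor d M, (if p (ANP.H61.sd 0 y) then
        ‖rs (fun x : Tor d M => V (rep x)) ⟨E, η⟩ 0 y‖ ^ 2 else 0) ≤ ε →
      η * ∑' x : Site d, (if p (sd 0 x) then ‖G V (zz η E) (del 0) x‖ ^ 2 else 0) ≤ 3 * ε := by
    intro p _ hp
    refine real_of_enn (fun x => p (sd 0 x)) (fun x => ‖G V (zz η E) (del 0) x‖ ^ 2)
      (fun x => by positivity) (by linarith only [hε]) hη.le ?_
    have h10 := H34.mass V E η hη L hL1 hLM h7 h8 (fun x => p (sd 0 x))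
    refine le_trans (le_of_eq ?_) (h10.trans (ENNReal.ofReal_le_ofReal ?_))
    · refine tsum_congr fun y => ?_
      split_ifs <;> rfl
    · have h11 : η * ∑ x : Tor d M, (if p (sd 0 (rep x)) then
          ‖rs (fun x : Tor d M => V (rep x)) ⟨E, η⟩ x 0‖ ^ 2 else 0) ≤ ε := by
        refine le_trans (le_of_eq ?_) hp
        congr 1
        refine Finset.sum_congr rfl fun x _ => ?_
        rw [dist_zero, hsym x 0]
      have h12 : ∀ S : ℝ, S = ∑ x : Tor d M, (if p (sd 0 (rep x)) then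
          ‖rs (fun x : Tor d M => V (rep x)) ⟨E, η⟩ x 0‖ ^ 2 else 0) →
          2 * (η * S) + 3 * η ^ 3 ≤ 3 * ε := by
        intro S hS
        rw [← hS] at h11
        linarith only [h14, h11]
      refine h12 _ (Finset.sum_congr rfl fun x _ => ?_)
      split_ifs <;> rfl
  have hV' : BadZM V E η m (3 * ε) r R := hV
  unfold BadZM at hV'
  rcases hV' with h | h | h
  · have h10 : ‖G V (zz η E) (del 0) 0 - m‖ ≤
        ‖G V (zz η E) (del 0) 0 - rs (fun x : Tor d M => V (rep x)) ⟨E, η⟩ 0 0‖ +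
          ‖rs (fun x : Tor d M => V (rep x)) ⟨E, η⟩ 0 0 - m‖ := by
      have := norm_add_le (G V (zz η E) (del 0) 0 - rs (fun x : Tor d M => V (rep x)) ⟨E, η⟩ 0 0)
        (rs (fun x : Tor d M => V (rep x)) ⟨E, η⟩ 0 0 - m)
      rwa [sub_add_sub_cancel] at this
    linarith
  · exact absurd (key (fun n => n < r) e2) (not_le.2 h)
  · exact absurd (key (fun n => R ≤ n) e3) (not_le.2 h)

end Pool.Agent.QDA.H36
end
end -- Pool.Agent.Helper36_QDA.Trm
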