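import Pool.Agent.Helper12_MEB.B016
import Pool.Agent.Helper12_MEB.B156
import Pool.Agent.Helper12_MEB.B166

/-!
# Merged copies (generated) of the modules

* `Pool.Agent.Helper61_AHH.Num`
* `Pool.Agent.Helper28_AHH.Mid`
* `Pool.Agent.Helper61_AHH.Zn`
* `Pool.Agent.Helper22_QDU.H61Num`
* `Pool.Agent.Helper22_QDU.H61Zn`
-/

set_option autoImplicit false

section -- Pool.Agent.Helper61_AHH.Num

/-!
# AND2B (MP_1906c1_mp): the numbers of the budget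
-/

set_option autoImplicit false

open scoped BigOperators NNReal

noncomputable section

namespace Pool.Agent.AHH.H61

open Pool.Agent.BED (Tor)
open Pool.Agent.AND2B (Ev Fld)
open Pool.Agent.AND.Num
open Pool.Agent.AHH.H16 (BudOk)

/-! ### How to prove `Ev` for facts about small powers -/

section ev

variable {d : ℕ} {a es c C : ℝ}

/-- a fact about all small `s` holds for all `s ≤ w` -/
theorem ev_small (P : ℝ≥0 → ℝ → ℝ → ℕ → ℕ → ℝ → Prop)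
    (h : ∀ (th : ℝ≥0) (c₁ C₁ : ℝ) (α J : ℕ), 1 / 2 ≤ th → th < 1 → 0 < c₁ → 2 ≤ α →
      Small (P th c₁ C₁ α J)) :
    Ev d a es c C fun V => ∀ s : ℝ, 0 < s → s ≤ V.w → P V.th V.c₁ V.C₁ V.α V.J s := by
  refine Ev.intro' 1 1 one_pos one_pos fun th c₁ C₁ α J h1 _ h3 h4 _ hα => ?_
  obtain ⟨s₀, hs, -, hP⟩ := (h th c₁ C₁ α J h1 h3 h4 hα).ex
  refine ⟨1, s₀, one_pos, hs, fun V _ e1 e2 e3 e4 e5 _ hw s h5 h6 => ?_⟩
  rw [e1, e2, e3, e4, e5]
  exact hP s h5 (h6.trans hw)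

/-- the same with the exponent `β` of the failure probabilities -/
theorem ev_small_be (P : ℝ≥0 → ℝ → ℝ → ℕ → ℕ → ℝ → ℝ → Prop)
    (h : ∀ (th : ℝ≥0) (c₁ C₁ : ℝ) (α J : ℕ), 1 / 2 ≤ th → th < 1 → 0 < c₁ → 2 ≤ α →
      ∃ β₀ : ℝ, 0 < β₀ ∧ Small fun s => ∀ β : ℝ, 0 < β → β ≤ β₀ → P th c₁ C₁ α J β s) :
    Ev d a es c C fun V => ∀ s : ℝ, 0 < s → s ≤ V.w → P V.th V.c₁ V.C₁ V.α V.J V.β s := by
  refine Ev.intro' 1 1 one_pos one_pos fun th c₁ C₁ α J h1 _ h3 h4 _ hα => ?_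
  obtain ⟨β₀, hβ, h⟩ := h th c₁ C₁ α J h1 h3 h4 hα
  obtain ⟨s₀, hs, -, hP⟩ := h.ex
  refine ⟨β₀, s₀, hβ, hs, fun V hV e1 e2 e3 e4 e5 hb hw s h5 h6 => ?_⟩
  rw [e1, e2, e3, e4, e5]
  exact hP s h5 (h6.trans hw) V.β hV.be hb

/-- `β` is small -/
theorem ev_be (f : ℝ≥0 → ℝ → ℝ → ℕ → ℕ → ℝ) (hf : ∀ th c₁ C₁ α J, 1 / 2 ≤ th → th < 1 →
    0 < c₁ → 2 ≤ α → 0 < f th c₁ C₁ α J) :
    Ev d a es c C fun V => V.β ≤ f V.th V.c₁ V.C₁ V.α V.J := by
  refine Ev.intro' 1 1 one_pos one_pos fun th c₁ C₁ α J h1 _ h3 h4 _ hα => ?_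
  refine ⟨f th c₁ C₁ α J, 1, hf th c₁ C₁ α J h1 h3 h4 hα, one_pos, ?_⟩
  intro V _ e1 e2 e3 e4 e5 hb _
  rw [e1, e2, e3, e4, e5]
  exact hb

/-- `th` is close to one -/
theorem ev_th (τ : ℝ) (hτ : 0 < τ) : Ev d a es c C fun V => 1 - τ ≤ (V.th : ℝ) := by
  refine Ev.intro' τ 1 hτ one_pos fun th c₁ C₁ α J _ h2 _ _ _ _ => ?_
  refine ⟨1, 1, one_pos, one_pos, ?_⟩
  intro V _ e1 _ _ _ _ _ _
  rw [e1]
  exact h2

/-- `c₁` is small -/
theorem ev_c1 (κ : ℝ) (hκ : 0 < κ) : Ev d a es c C fun V => V.c₁ ≤ κ := by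
  refine Ev.intro' 1 κ one_pos hκ fun th c₁ C₁ α J _ _ _ _ h5 _ => ?_
  refine ⟨1, 1, one_pos, one_pos, ?_⟩
  intro V _ _ e2 _ _ _ _ _
  rw [e2]
  exact h5

/-- `e₀` is smaller than any positive function of the data which come before -/
theorem ev_e0 (f : AND2B.Env d → ℝ) (hf : ∀ V : AND2B.Env d, V.Pre a → 0 < f V)
    (hi : ∀ (V : AND2B.Env d) (e₀ : ℝ) (m ζ : ℂ), f { V with e₀ := e₀, m := m, ζ := ζ } = f V) :
    Ev d a es c C fun V => V.e₀ ≤ f V := by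
  refine Ev.intro 1 1 one_pos one_pos fun th c₁ C₁ α J _ _ _ _ _ _ => ?_
  refine ⟨1, 1, one_pos, one_pos, ?_⟩
  intro V hV _ _ _ _ _ _ _
  refine ⟨f V, hf V hV, fun e₀ m ζ _ h _ => ?_⟩
  rw [hi]
  exact h

/-- every environment is good -/
theorem ev_good : Ev d a es c C fun V => V.Good a es c C :=
  Ev.intro' 1 1 one_pos one_pos fun th c₁ C₁ α J _ _ _ _ _ _ =>
    ⟨1, 1, one_pos, one_pos, fun V hV _ _ _ _ _ _ _ => hV⟩

end ev

/-! ### Clocks -/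

section clocks

variable {d : ℕ} {V : AND2B.Env d} {a : ℝ}

theorem kk_mono (h : V.Pre a) {m n : ℕ} (hmn : m ≤ n) : V.kk m ≤ V.kk n := by
  induction hmn with
  | refl => exact le_rfl
  | step _ ih => exact ih.trans (h.sc.km _).le

theorem w_pos (h : V.Pre a) : (0 : ℝ) < V.w := by exact_mod_cast h.w

theorem th_pos (h : V.Pre a) : 0 < V.th := lt_of_lt_of_le (by norm_num) h.th.1

theorem cl_pos' (h : V.Pre a) (k : ℕ) : (0 : ℝ) < V.cl k := by
  exact_mod_cast cl_pos V h.w (th_pos h) k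

theorem cl_le' (h : V.Pre a) (k : ℕ) : (V.cl k : ℝ) ≤ V.w := by
  exact_mod_cast cl_le V h.th.2.le k

theorem cl_anti' (h : V.Pre a) {j k : ℕ} (hjk : j ≤ k) : (V.cl k : ℝ) ≤ V.cl j := by
  exact_mod_cast cl_anti V h.th.2.le hjk

theorem sg_pos (h : V.Pre a) (n : ℕ) : 0 < V.sg n := cl_pos' h _

theorem sg_le (h : V.Pre a) (n : ℕ) : V.sg n ≤ V.w := cl_le' h _

theorem sg_anti (h : V.Pre a) {m n : ℕ} (hmn : m ≤ n) : V.sg n ≤ V.sg m :=
  cl_anti' h (kk_mono h hmn)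

/-- the super-stages are not empty -/
theorem sg_succ (h : V.Pre a) (n : ℕ) : V.sg (n + 1) ≤ V.th * V.sg n := by
  have h1 := cl_anti' h (Nat.succ_le_of_lt (h.sc.km n))
  have h2 := cl_succ V (V.kk n)
  have h3 : (V.cl (V.kk n + 1) : ℝ) = V.th * V.cl (V.kk n) := by
    rw [h2]
    push_cast
    rfl
  rw [Nat.succ_eq_add_one, h3] at h1
  exact h1

/-- all the clocks are at least the last one -/
theorem sg_last (h : V.Pre a) {k : ℕ} (hk : k ≤ V.kk (V.N + 1)) : V.sg (V.N + 1) ≤ V.cl k :=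
  cl_anti' h hk

/-- the growth in a release phase -/
theorem gr_rel' (h : V.Pre a) {p : ℝ} (hp : 0 < p) (n : ℕ) :
    V.sg n ^ p * (1 - (V.th : ℝ) ^ p) ≤ V.sg n ^ p - V.sg (n + 1) ^ p := by
  have h1 : V.sg (n + 1) ^ p ≤ (V.th * V.sg n) ^ p :=
    Real.rpow_le_rpow (sg_pos h _).le (sg_succ h n) hp.le
  rw [Real.mul_rpow (NNReal.coe_nonneg _) (sg_pos h _).le] at h1
  linarith only [h1]

theorem th_rpow_lt (h : V.Pre a) {p : ℝ} (hp : 0 < p) : (V.th : ℝ) ^ p < 1 := by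
  refine Real.rpow_lt_one (NNReal.coe_nonneg _) ?_ hp
  exact_mod_cast h.th.2

theorem ka_pos : 0 < ka V := by
  unfold ka
  positivity

theorem ka_le (h : V.Pre a) : ka V ≤ 1 / 9000 := by
  unfold ka
  have h1 : (2 : ℝ) ≤ V.α := by exact_mod_cast h.al
  rw [one_div_le_one_div (by positivity) (by norm_num)]
  nlinarith only [h1]

end clocks

/-! ### The conditions of the fields `beg`, `mmon`, `rbeg`, `rmon` -/

/-- `ka` as a function of the ratio of the scales -/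
def kaf (α : ℕ) : ℝ := 1 / (1000 * ((α : ℝ) + 1) ^ 2)

theorem ka_eq {d : ℕ} (V : AND2B.Env d) : ka V = kaf V.α := rfl

theorem kaf_pos (α : ℕ) : 0 < kaf α := by
  unfold kaf
  positivity

theorem kaf_le {α : ℕ} (h : 2 ≤ α) : kaf α ≤ 1 / 9000 := by
  unfold kaf
  have h1 : (2 : ℝ) ≤ α := by exact_mod_cast h
  rw [one_div_le_one_div (by positivity) (by norm_num)]
  nlinarith only [h1]

/-- the conditions of helper16 -/
theorem budOk (d : ℕ) (a c C : ℝ) (hc : 0 < c) (hC : 1 ≤ C) :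
    Ev d a es c C fun V => BudOk (toE V c C) (bud V) := by
  have hcp := one_le_cpd d
  -- the small powers
  have h1 : Ev d a es c C fun V => ∀ s : ℝ, 0 < s → s ≤ V.w →
      (s ≤ 1 ∧ 2 * s ^ (kaf V.α / 2) ≤ s ^ (kaf V.α / 4)) ∧
      (1 * s ^ (1 / 8 : ℝ) ≤ c / 8 * s ^ (0 : ℝ) ∧
        cpd d * s ^ (1 / 8 - 1 / 200 : ℝ) ≤ c / 8 * s ^ (0 : ℝ)) ∧
      (8 / c * s ^ (1 / 8 : ℝ) ≤ s ^ (1 / 16 : ℝ) ∧ 1 * s ^ (1 / 400 : ℝ) ≤ 1 / 3 * s ^ (0 : ℝ)) := by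
    refine ev_small (fun _ _ _ α _ s =>
      (s ≤ 1 ∧ 2 * s ^ (kaf α / 2) ≤ s ^ (kaf α / 4)) ∧
      (1 * s ^ (1 / 8 : ℝ) ≤ c / 8 * s ^ (0 : ℝ) ∧
        cpd d * s ^ (1 / 8 - 1 / 200 : ℝ) ≤ c / 8 * s ^ (0 : ℝ)) ∧
      (8 / c * s ^ (1 / 8 : ℝ) ≤ s ^ (1 / 16 : ℝ) ∧
        1 * s ^ (1 / 400 : ℝ) ≤ 1 / 3 * s ^ (0 : ℝ))) ?_
    intro th c₁ C₁ α J _ _ _ _
    have hk := kaf_pos α
    exact (((small_le 1 one_pos).and (small_pow 2 (kaf α / 2) (kaf α / 4) (by linarith only [hk]))).and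
      (((small_pow' 1 (c / 8) (1 / 8) 0 (by positivity) (by norm_num)).and
        (small_pow' (cpd d) (c / 8) (1 / 8 - 1 / 200) 0 (by positivity) (by norm_num))).and
      ((small_pow (8 / c) (1 / 8) (1 / 16) (by norm_num)).and
        (small_pow' 1 (1 / 3) (1 / 400) 0 (by norm_num) (by norm_num)))))
  refine (ev_good.and h1).imp fun V hV => ?_
  obtain ⟨hG, hV⟩ := hV
  have hP : V.Pre a := hG.toPre
  have hth : V.th ≤ 1 := hP.th.2.le
  have hw := w_pos hP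
  obtain ⟨⟨w1, w2⟩, _, _, w5⟩ := hV V.w hw le_rfl
  rw [Real.rpow_zero, one_mul, mul_one] at w5
  have hcl : ∀ k, (0 : ℝ) ≤ V.cl k := fun k => (cl_pos' hP k).le
  have hsg : ∀ n, (0 : ℝ) ≤ V.sg n := fun n => (sg_pos hP n).le
  have hgr : ∀ {p : ℝ}, 0 < p → ∀ n k, 0 ≤ gr V p n k := fun hp n k =>
    (Real.rpow_nonneg hw.le _).trans (gr_bd V hth hp n k).1
  have hsp : ∀ {p : ℝ}, 0 < p → ∀ n, V.sg n ^ p ≤ 1 := fun hp n =>
    Real.rpow_le_one (hsg n) ((sg_le hP n).trans w1) hp.le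
  have hka : 0 < ka V := ka_pos
  refine
    { c0 := by
        show 0 < c / 2
        linarith only [hc]
      e0 := hG.e0
      D0 := mul_nonneg hc.le (Real.rpow_nonneg hw.le _)
      D1 := by
        show 0 ≤ 4 * C ^ 3 / (V.w : ℝ)
        positivity
      th := ⟨by exact_mod_cast hP.th.1, by exact_mod_cast hth⟩
      cl := fun k => ⟨cl_succ V k, cl_pos V hP.w (th_pos hP) k⟩
      inc := fun n k => ⟨Real.rpow_nonneg (hcl k) _, ?_, Real.rpow_nonneg (hcl k) _,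
        Real.rpow_nonneg (hcl k) _⟩
      icR := fun n => ⟨Real.rpow_nonneg (hsg _) _, Real.rpow_nonneg (hsg _) _,
        Real.rpow_nonneg (hsg _) _, Real.rpow_nonneg (hsg _) _, Real.rpow_nonneg (hsg _) _⟩
      q := fun n k => ⟨Real.rpow_nonneg (hcl k) _, ?_, hgr (by norm_num) n k, ?_, ?_⟩
      psi := fun n P x => Psi_le_Gt d V.μ V.J V.N V.l V.r n P x
      half := fun n k _ => ?_
      thm := fun n k _ => ?_ }
  · show 0 ≤ (1 - (V.th : ℝ)) / (8 * cpd d)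
    have h2 : (V.th : ℝ) ≤ 1 := by exact_mod_cast hth
    exact div_nonneg (by linarith only [hth]) (by linarith only [hcp])
  · show 0 ≤ 1 / 4 * (V.cl k : ℝ) ^ (-(3 / 4) : ℝ) * (2 - V.sg n ^ (1 / 400 : ℝ))
    have h2 := hsp (p := 1 / 400) (by norm_num) n
    have h3 : 0 ≤ (V.cl k : ℝ) ^ (-(3 / 4) : ℝ) := Real.rpow_nonneg (hcl k) _
    exact mul_nonneg (mul_nonneg (by norm_num) h3) (by linarith only [h2])
  · show 0 ≤ (V.cl k : ℝ) ^ (ka V / 2) * (2 - V.sg n ^ ka V)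
    have h2 := hsp hka n
    exact mul_nonneg (Real.rpow_nonneg (hcl k) _) (by linarith only [h2])
  · show (V.cl k : ℝ) ^ (ka V / 2) * (2 - V.sg n ^ ka V) ≤ gr V (ka V / 4) n k
    have h2 := (gr_bd V hth (p := ka V / 4) (by linarith only [hka]) n k).1
    have h3 : (V.cl k : ℝ) ^ (ka V / 2) ≤ (V.w : ℝ) ^ (ka V / 2) :=
      Real.rpow_le_rpow (hcl k) (cl_le' hP k) (by linarith only [hka])
    have h4 : 0 ≤ (V.cl k : ℝ) ^ (ka V / 2) := Real.rpow_nonneg (hcl k) _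
    have h5 : 0 ≤ V.sg n ^ ka V := Real.rpow_nonneg (hsg n) _
    have h6 : (V.cl k : ℝ) ^ (ka V / 2) * (2 - V.sg n ^ ka V) ≤ (V.cl k : ℝ) ^ (ka V / 2) * 2 :=
      mul_le_mul_of_nonneg_left (by linarith only [h5]) h4
    rw [← ka_eq] at w2
    linarith only [w2, h2, h3, h6]
  · show (V.cl k : ℝ) ^ (1 / 8 : ℝ) + (V.cl k : ℝ) ^ (1 / 8 - 1 / 200 : ℝ) * cpd d ≤ c / 2 / 2
    obtain ⟨_, ⟨g1, g2⟩, _⟩ := hV (V.cl k) (cl_pos' hP k) (cl_le' hP k)
    rw [Real.rpow_zero] at g1 g2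
    linarith only [g1, g2]
  · show (1 + gr V (1 / 400) n k) / (1 - (V.cl k : ℝ) ^ (1 / 8 : ℝ) / (c / 2)) ≤
      1 + (gr V (1 / 400) n k + (V.cl k : ℝ) ^ (1 / 16 : ℝ))
    obtain ⟨_, ⟨g1, _⟩, g3, _⟩ := hV (V.cl k) (cl_pos' hP k) (cl_le' hP k)
    rw [Real.rpow_zero] at g1
    have g4 := (gr_bd V hth (p := 1 / 400) (by norm_num) n k).2
    have g5 : gr V (1 / 400) n k ≤ 1 := by linarith only [w5, g4]
    have g6 := hgr (p := 1 / 400) (by norm_num) n k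
    set x : ℝ := (V.cl k : ℝ) ^ (1 / 8 : ℝ) with hx
    set y : ℝ := (V.cl k : ℝ) ^ (1 / 16 : ℝ) with hy
    have hx0 : 0 ≤ x := Real.rpow_nonneg (hcl k) _
    have hy0 : 0 ≤ y := Real.rpow_nonneg (hcl k) _
    have hy1 : y ≤ 1 := Real.rpow_le_one (hcl k) ((cl_le' hP k).trans w1) (by norm_num)
    have h3 : x / (c / 2) = 2 / c * x := by
      field_simp
    have h4 : 2 / c * x ≤ 1 / 4 := by
      rw [div_mul_eq_mul_div, div_le_iff₀ hc]
      linarith only [g1]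
    have h5 : 8 / c * x = 4 * (2 / c * x) := by ring
    rw [h3, div_le_iff₀ (by linarith only [h4])]
    set z : ℝ := 2 / c * x with hz
    have hz0 : 0 ≤ z := by positivity
    nlinarith only [w5, g4, g3, hy0, h4, h5, hz0]

end Pool.Agent.AHH.H61
end
end -- Pool.Agent.Helper61_AHH.Num

section -- Pool.Agent.Helper28_AHH.Mid

/-!
# AND2B: the bookkeeping inside a stage, its end, the end of the release phase (helper28)

`mid`: `Md` and `Inc` give `Md` for the next block. `fia`: at the end of a stage the configuration is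
good with slightly larger thresholds. `rfa`: the same at the end of the release phase.
-/

set_option autoImplicit false
set_option linter.unusedSectionVars false

open scoped BigOperators NNReal Matrix

noncomputable section

namespace Pool.Agent.AHH.H28

open Pool.Agent.BED (Tor)
open Pool.Agent.LE.QF (BB KK)
open Pool.Agent.AND2B (net kap Viol)
open Pool.Agent.ANP (Cfg Geo Fc)
open Pool.Agent.AFJ (ind LaR EE)
open Pool.Agent.ABY (vir)
open Pool.Agent.LTG (Fm Bd sT tT qd)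
open Pool.Agent.AHH

section pot

variable {X : Type} [Fintype X] [DecidableEq X]

theorem om_pos (Γ : Geo X) (n : ℕ) (B x : X) : 0 < om Γ n B x := Real.exp_pos _

theorem psi_nonneg (Γ : Geo X) (n : ℕ) (P : Finset X) (x : X) : 0 ≤ Psi Γ n P x :=
  Finset.sum_nonneg fun B _ => (om_pos Γ n B x).le

theorem psi_empty (Γ : Geo X) (n : ℕ) (x : X) : Psi Γ n ∅ x = 0 := by
  unfold Psi
  simp

theorem psi_mono (Γ : Geo X) (n : ℕ) {P P' : Finset X} (h : P ⊆ P') (x : X) :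
    Psi Γ n P x ≤ Psi Γ n P' x := by
  unfold Psi
  refine Finset.sum_le_sum_of_subset_of_nonneg (Finset.filter_subset_filter _ h) fun B _ _ =>
    (om_pos Γ n B x).le

theorem psi_union (Γ : Geo X) (n : ℕ) (P : Finset X) (B : X) (hB : Γ.bl n B = B)
    (hd : Disjoint P (Γ.blk n B)) (x : X) :
    Psi Γ n (P ∪ Γ.blk n B) x = Psi Γ n P x + om Γ n B x := by
  unfold Psi
  rw [Finset.filter_union, Finset.sum_union (Finset.disjoint_filter_filter hd)]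
  congr 1
  have h1 : (Γ.blk n B).filter (fun b => Γ.bl n b = b) = {B} := by
    ext b
    simp only [Finset.mem_filter, Geo.blk, Finset.mem_univ, true_and, Finset.mem_singleton]
    constructor
    · rintro ⟨h1, h2⟩
      rw [← h2, h1]
    · rintro rfl
      exact ⟨hB, hB⟩
  rw [h1, Finset.sum_singleton]

theorem phi_nonneg (Γ : Geo X) {τ : ℝ} (hτ : 0 ≤ τ) (n : ℕ) (P : Finset X) (x : X) :
    0 ≤ Phi Γ τ n P x := by
  unfold Phi ind
  refine add_nonneg (by split_ifs <;> norm_num) (mul_nonneg hτ ?_)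
  exact Finset.sum_nonneg fun y _ => (Real.exp_pos _).le

end pot

section conf

variable {d M : ℕ} [NeZero M]

theorem mem_Al {T : Cfg (Tor d M)} {x : Tor d M} : x ∈ Al T ↔ 0 < T.s x := by
  unfold Al
  simp

theorem hf_s (T : Cfg (Tor d M)) (th : ℝ≥0) (U : Finset (Tor d M)) (ζ : Tor d M → ℝ)
    (x : Tor d M) : (T.hf th U ζ).s x = if x ∈ U then th * T.s x else T.s x := rfl

theorem hf_V (T : Cfg (Tor d M)) (th : ℝ≥0) (U : Finset (Tor d M)) (ζ : Tor d M → ℝ)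
    (x : Tor d M) : (T.hf th U ζ).V x = if x ∈ U then T.V x + ζ x else T.V x := rfl

theorem hf_mb (T : Cfg (Tor d M)) (th : ℝ≥0) (U : Finset (Tor d M)) (ζ : Tor d M → ℝ) :
    (T.hf th U ζ).mb = T.mb := rfl

theorem Al_hf (T : Cfg (Tor d M)) {th : ℝ≥0} (hth : 0 < th) (U : Finset (Tor d M))
    (ζ : Tor d M → ℝ) : Al (T.hf th U ζ) = Al T := by
  ext x
  rw [mem_Al, mem_Al, hf_s]
  split_ifs with h
  · constructor
    · intro h1
      by_contra h2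
      have h3 : T.s x = 0 := by
        rw [not_lt] at h2
        exact le_antisymm h2 (zero_le (α := ℝ≥0))
      rw [h3, mul_zero] at h1
      exact lt_irrefl _ h1
    · intro h1
      exact mul_pos hth h1
  · exact Iff.rfl

/-- the numbers used in the bookkeeping -/
structure Nm (V : Env d M) (b : Bud) (n k : ℕ) : Prop where
  th : 0 < V.th ∧ V.th ≤ 1
  c0 : 0 < V.c₀
  e0 : 0 < V.e₀
  D : 0 ≤ V.D₀ ∧ 0 ≤ V.D₁
  inc : 0 ≤ b.inc n k ∧ 0 ≤ b.inL n k ∧ 0 ≤ b.inY n k ∧ 0 ≤ b.nn n k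
  q : 0 ≤ (b.q n k).eps ∧ 0 ≤ (b.q n k).rho ∧ 0 ≤ (b.q n k).lam
  sm : (b.q n k).eps + b.nn n k * V.Cp ≤ 1 / 8 ∧ (b.q n k).rho + b.nn n k * V.Cp ≤ 1 / 8 ∧
    (b.q n k).rho + b.nn n k * V.Cp ≤ (1 - V.u₀) / 2

theorem ww_pos {V : Env d M} {T : Cfg (Tor d M)} {δ : ℝ} (hc : 0 < V.c₀) (he : 0 < V.e₀)
    (hg : Gb V T δ) {x : Tor d M} (hx : x ∈ Al T) : 0 < ww V.e₀ T x := by
  have h1 : 0 < gg T x := lt_of_lt_of_le hc (hg x hx).1
  have h2 : 0 < (T.s x : ℝ) := by exact_mod_cast mem_Al.1 hx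
  unfold ww kap gg at *
  positivity

theorem mid {V : Env d M} {b : Bud} {n k : ℕ} (hN : Nm V b n k) {T₀ T : Cfg (Tor d M)}
    {run₀ run P : Finset (Tor d M)} {B : Tor d M} (hB : V.Γ.bl n B = B)
    (hd : Disjoint P (V.Γ.blk n B)) (hCp : ∀ x, Psi V.Γ n (P ∪ V.Γ.blk n B) x ≤ V.Cp)
    (hcl : Antitone V.cl) (hkk : Monotone V.kk) (hF : Fc V.Γ V.kk V.cl V.Dn n k P T run)
    {ζ : Tor d M → ℝ} (hM : Md V b n k T₀ run₀ P T run)
    (hI : Inc V b n k run B T (T.hf V.th (run ∩ V.Γ.blk n B) ζ)) :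
    Md V b n k T₀ run₀ (P ∪ V.Γ.blk n B) (T.hf V.th (run ∩ V.Γ.blk n B) ζ) run := by
  obtain ⟨hth, hth1⟩ := hN.th
  obtain ⟨i1, i2, i3, i4⟩ := hN.inc
  obtain ⟨q1, q2, q3⟩ := hN.q
  obtain ⟨s1, s2, s3⟩ := hN.sm
  set U := run ∩ V.Γ.blk n B with hU
  set T' := T.hf V.th U ζ with hT'
  have hAl : Al T' = Al T := Al_hf T hth U ζ
  have hPsi : ∀ x, Psi V.Γ n (P ∪ V.Γ.blk n B) x = Psi V.Γ n P x + om V.Γ n B x :=
    psi_union V.Γ n P B hB hd
  have hgg : gg T' = gg T := rfl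
  have hgg0 : gg T = gg T₀ := by
    unfold gg
    rw [hM.mb]
  have hUP : ∀ x ∈ U, x ∉ P := fun x hx hP =>
    (Finset.disjoint_left.1 hd hP) (Finset.mem_inter.1 hx).2
  have hUs : ∀ x ∈ U, T.s x = T₀.s x := fun x hx => by
    rcases hM.clk x with h | h
    · exact h
    · exact absurd h.2.1 (hUP x hx)
  have hU0 : ∀ x ∈ U, 0 < T₀.s x := fun x hx =>
    mem_Al.1 (hM.st0.alv (hM.sub (Finset.mem_inter.1 hx).1))
  -- alive sites at the start
  have hAl0 : ∀ x, x ∈ Al T → x ∈ Al T₀ := by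
    intro x hx
    rw [mem_Al] at hx ⊢
    rcases hM.clk x with h | h
    · rwa [h] at hx
    · exact mem_Al.1 (hM.st0.alv h.1)
  have hGbT₀ := hM.st0.gau
  have hGbT : Gb V T (b.q n k).del := by
    intro x hx
    have := hGbT₀ x (hAl0 x hx)
    unfold gg at this ⊢
    rwa [hM.mb]
  have hGbT' : Gb V T' (b.q n k).del := by
    intro x hx
    rw [hAl] at hx
    exact hGbT x hx
  -- the weights
  have hw : ∀ x ∈ Al T, 0 < ww V.e₀ T x := fun x hx => ww_pos hN.c0 hN.e0 hGbT hx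
  have hw' : ∀ x ∈ Al T, 0 < ww V.e₀ T' x := fun x hx =>
    ww_pos hN.c0 hN.e0 hGbT' (by rw [hAl]; exact hx)
  have hw0 : ∀ x ∈ Al T, 0 < ww V.e₀ T₀ x := fun x hx => ww_pos hN.c0 hN.e0 hGbT₀ (hAl0 x hx)
  have hgpos : ∀ x ∈ Al T, 0 < gg T x := fun x hx => lt_of_lt_of_le hN.c0 (hGbT x hx).1
  have hww' : ∀ x ∈ Al T, ww V.e₀ T' x ≤ ww V.e₀ T x := by
    intro x hx
    have h1 := hgpos x hx
    unfold ww
    rw [hgg]
    refine mul_le_mul_of_nonneg_right ?_ h1.le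
    unfold kap
    have h2 : ((T'.s x : ℝ≥0) : ℝ) ≤ T.s x := by
      rw [hT', hf_s]
      split_ifs
      · push_cast
        have h3 : (V.th : ℝ) ≤ 1 := by exact_mod_cast hth1
        have h4 := NNReal.coe_nonneg (T.s x)
        nlinarith only [hth1]
      · exact le_rfl
    have h3 := mul_le_mul_of_nonneg_right h2 h1.le
    unfold gg at h3
    have h4 : T'.mb = T.mb := rfl
    rw [h4]
    linarith only [h3]
  have hww0 : ∀ x ∈ Al T, ww V.e₀ T x ≤ ww V.e₀ T₀ x := by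
    intro x hx
    have h1 := hgpos x hx
    unfold ww
    rw [← hgg0]
    refine mul_le_mul_of_nonneg_right ?_ h1.le
    unfold kap
    have h2 : ((T.s x : ℝ≥0) : ℝ) ≤ T₀.s x := by
      rcases hM.clk x with h | ⟨_, _, h⟩
      · rw [h]
      · rw [h]
        push_cast
        have h3 : (V.th : ℝ) ≤ 1 := by exact_mod_cast hth1
        have h4 := NNReal.coe_nonneg (T₀.s x)
        nlinarith only [hth1]
    have h3 := mul_le_mul_of_nonneg_right h2 h1.le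
    unfold gg at h3
    rw [← hM.mb]
    linarith only [h3]
  have hwwe : ∀ x, x ∉ run → ww V.e₀ T' x = ww V.e₀ T x := by
    intro x hx
    have h1 : x ∉ U := fun h => hx (Finset.mem_inter.1 h).1
    unfold ww
    rw [hgg]
    congr 1
    unfold kap
    rw [hT', hf_s, if_neg h1, hf_mb]
  refine ⟨hM.ctx, hM.fc0, hM.st0, hM.sub, hM.mb, ?_, ?_, ?_, ?_, ?_, ?_, ?_, ?_⟩
  rotate_left 6
  · -- old sites
    intro m hm x hx y hxy
    have hkm : V.cl k ≤ V.cl (V.kk m) :=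
      hcl ((hkk (by omega : m ≤ n)).trans hM.ctx.2.1)
    have hrun : ∀ z ∈ run, T.s z ≤ V.cl (V.kk m) := fun z hz => by
      rw [hF.runs z hz]
      split_ifs
      · exact (hcl (Nat.le_succ k)).trans hkm
      · exact hkm
    have hle : T'.s x ≤ T.s x := by
      rw [hT', hf_s]
      split_ifs
      · exact mul_le_of_le_one_left (zero_le (α := ℝ≥0)) hth1
      · exact le_rfl
    have hxT : V.cl (V.kk m) < T.s x := lt_of_lt_of_le hx hle
    have hxr : x ∉ run := fun h => absurd (hrun x h) (not_le.2 hxT)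
    have hyU : y ∉ U := fun h => by
      have := hF.shell m hm x hxr hxT y (Finset.mem_inter.1 h).1
      omega
    rw [hT', hf_s, if_neg hyU]
    exact hM.old m hm x hxT y hxy
  · obtain ⟨dd, h1, h2⟩ := hM.ded
    refine ⟨dd, fun x hx => h1 x ?_, h2⟩
    rw [hT', hf_s] at hx
    split_ifs at hx
    · rcases mul_eq_zero.1 hx with h | h
      · exact absurd h hth.ne'
      · exact h
    · exact hx
  · intro x
    rw [hT', hf_s]
    by_cases hx : x ∈ U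
    · rw [if_pos hx]
      refine Or.inr ⟨hM.sub (Finset.mem_inter.1 hx).1,
        Finset.mem_union_right _ (Finset.mem_inter.1 hx).2, ?_⟩
      rw [hUs x hx]
    · rw [if_neg hx]
      rcases hM.clk x with h | h
      · exact Or.inl h
      · exact Or.inr ⟨h.1, Finset.mem_union_left _ h.2.1, h.2.2⟩
  · intro x hx
    rw [hT', hf_V]
    have h1 : x ∉ U := fun h => by
      have := hU0 x h
      rw [hx] at this
      exact lt_irrefl _ this
    rw [if_neg h1]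
    exact hM.ddV x hx
  · intro x hx y hy
    rw [hAl] at hx hy
    have h1 := hI.ent x hx y hy
    have h2 := hM.ent x hx y hy
    rw [hPsi, mul_add]
    have h3 := norm_add_le (net V.E V.e₀ T' x y - net V.E V.e₀ T x y)
      (net V.E V.e₀ T x y - net V.E V.e₀ T₀ x y)
    rw [sub_add_sub_cancel] at h3
    linarith
  · intro x hx
    rw [hAl] at hx
    have h1 := hI.lar x hx
    have h2 := hM.lar x hx
    rw [hPsi]
    linarith
  · intro a ha
    have h1 := hI.yin a ha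
    have h2 := hM.yin a ha
    rw [hPsi, hgg]
    linarith
  · -- the form
    obtain ⟨εl, εu, bl, bu, hFm, hx, he⟩ := hM.frm
    dsimp only at hx he
    have hps : ∀ x, b.nn n k * Psi V.Γ n P x + b.nn n k * om V.Γ n B x ≤ b.nn n k * V.Cp := by
      intro x
      have := mul_le_mul_of_nonneg_left (hCp x) i4
      rw [hPsi, mul_add] at this
      exact this
    have hps' : ∀ x, b.nn n k * Psi V.Γ n P x ≤ b.nn n k * V.Cp := by
      intro x
      have h1 := hps x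
      have h2 := mul_nonneg i4 (om_pos V.Γ n B x).le
      linarith only [h1, h2]
    have hratio : ∀ x ∈ Al T, ww V.e₀ T' x / ww V.e₀ T x ≤ 1 := fun x hx =>
      (div_le_one (hw x hx)).2 (hww' x hx)
    have hratio0 : ∀ x ∈ Al T, 0 ≤ ww V.e₀ T' x / ww V.e₀ T x := fun x hx =>
      (div_pos (hw' x hx) (hw x hx)).le
    have hεl : ∀ x ∈ Al T, εl x ≤ 1 / 8 := by
      intro x hxA
      have h1 := (hx x hxA).2.1
      have h2 := hps' x
      split_ifs at h1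
      · have h3 : ww V.e₀ T x / ww V.e₀ T₀ x ≤ 1 := (div_le_one (hw0 x hxA)).2 (hww0 x hxA)
        have h4 := mul_le_mul_of_nonneg_left h3 q1
        linarith only [s1, h2, h1, h4]
      · linarith
    have hεu : ∀ x ∈ Al T, εu x ≤ (1 + V.u₀) / 2 := by
      intro x hxA
      have h1 := (hx x hxA).2.2.2
      have h2 := hps' x
      linarith only [s3, h1, h2]
    have hnew := hI.frm εl εu bl bu hFm
      (fun x hxA => ⟨(hx x hxA).1, hεl x hxA, (hx x hxA).2.2.1, hεu x hxA⟩)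
      (fun e => by
        obtain ⟨e1, e2, e3⟩ := he e
        have h2 := hps' (sT e)
        refine ⟨?_, e2, ?_⟩
        · refine le_trans ?_ e1
          have := mul_le_mul_of_nonneg_left (show (1 / 2 : ℝ) ≤
            1 - ((b.q n k).rho + b.nn n k * Psi V.Γ n P (sT e)) by linarith only [s2, h2]) hN.D.1
          linarith only [this]
        · refine e3.trans ?_
          have := mul_le_mul_of_nonneg_left (show
            1 + ((b.q n k).rho + b.nn n k * Psi V.Γ n P (sT e)) ≤ 2 by linarith only [s2, h2]) hN.D.2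
          linarith only [this])
    refine ⟨_, _, _, _, by rw [hAl]; exact hnew, ?_, ?_⟩
    · intro x hxA
      rw [hAl] at hxA
      obtain ⟨x1, x2, x3, x4⟩ := hx x hxA
      have hom := mul_nonneg i4 (om_pos V.Γ n B x).le
      have hr0 := hratio0 x hxA
      have hr1 := hratio x hxA
      refine ⟨?_, ?_, ?_, ?_⟩
      · have := mul_nonneg x1 hr0
        linarith only [hom, this]
      · show εl x * (ww V.e₀ T' x / ww V.e₀ T x) + b.nn n k * om V.Γ n B x ≤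
          (if x ∈ run then (b.q n k).eps * (ww V.e₀ T' x / ww V.e₀ T₀ x) else (b.q n k).rho) +
            b.nn n k * Psi V.Γ n (P ∪ V.Γ.blk n B) x
        rw [hPsi, mul_add]
        by_cases hr : x ∈ run
        · rw [if_pos hr] at x2 ⊢
          have h1 := mul_le_mul_of_nonneg_right x2 hr0
          have h2 : (b.q n k).eps * (ww V.e₀ T x / ww V.e₀ T₀ x) *
              (ww V.e₀ T' x / ww V.e₀ T x) = (b.q n k).eps * (ww V.e₀ T' x / ww V.e₀ T₀ x) := by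
            have := (hw x hxA).ne'
            have := (hw0 x hxA).ne'
            field_simp
          have h3 : b.nn n k * Psi V.Γ n P x * (ww V.e₀ T' x / ww V.e₀ T x) ≤
              b.nn n k * Psi V.Γ n P x :=
            mul_le_of_le_one_right (mul_nonneg i4 (psi_nonneg _ _ _ _)) hr1
          rw [add_mul, h2] at h1
          linarith only [h1, h3]
        · rw [if_neg hr] at x2 ⊢
          have h1 : ww V.e₀ T' x / ww V.e₀ T x = 1 := by
            rw [hwwe x hr]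
            exact div_self (hw x hxA).ne'
          rw [h1, mul_one]
          linarith only [x2]
      · have := mul_nonneg x3 hr0
        linarith only [hom, this]
      · show εu x * (ww V.e₀ T' x / ww V.e₀ T x) + b.nn n k * om V.Γ n B x ≤
          V.u₀ + ((b.q n k).rho + b.nn n k * Psi V.Γ n (P ∪ V.Γ.blk n B) x)
        rw [hPsi, mul_add]
        have h1 : εu x * (ww V.e₀ T' x / ww V.e₀ T x) ≤ εu x := mul_le_of_le_one_right x3 hr1
        linarith only [x4, h1]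
    · intro e
      obtain ⟨e1, e2, e3⟩ := he e
      have hom := mul_nonneg i4 (om_pos V.Γ n B (sT e)).le
      dsimp only
      rw [hPsi]
      refine ⟨?_, ?_, ?_⟩
      · show _ ≤ bl e - V.D₀ * (b.nn n k * om V.Γ n B (sT e))
        linarith only [e1]
      · show _ ≤ bu e + V.D₁ * (b.nn n k * om V.Γ n B (sT e))
        have := mul_nonneg hN.D.2 hom
        linarith only [e2, this]
      · show bu e + V.D₁ * (b.nn n k * om V.Γ n B (sT e)) ≤ _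
        linarith only [e3]

/-- the alive sites inside a stage -/
theorem Md.al {V : Env d M} {b : Bud} {n k : ℕ} {T₀ T : Cfg (Tor d M)}
    {run₀ run P : Finset (Tor d M)} (hM : Md V b n k T₀ run₀ P T run) (x : Tor d M)
    (hx : x ∈ Al T) : x ∈ Al T₀ := by
  rw [mem_Al] at hx ⊢
  rcases hM.clk x with h | h
  · rwa [h] at hx
  · exact mem_Al.1 (hM.st0.alv h.1)

/-- THE END OF A STAGE, before the regauge -/
theorem fia {V : Env d M} {b : Bud} {n k : ℕ} (hN : Nm V b n k) {T₀ T : Cfg (Tor d M)}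
    {run₀ run : Finset (Tor d M)} (hCp : ∀ x, Psi V.Γ n Finset.univ x ≤ V.Cp)
    (hF : Fc V.Γ V.kk V.cl V.Dn n k Finset.univ T run) (hcl0 : 0 < V.cl (k + 1))
    (hM : Md V b n k T₀ run₀ Finset.univ T run) {q' : Num} {r : ℝ}
    (hr : ∀ g, V.c₀ ≤ g → (V.e₀ + V.cl (k + 1) * g) ≤ r * (V.e₀ + V.cl k * g))
    (h1 : (b.q n k).del + b.inc n k * V.Cp ≤ q'.del)
    (h2 : (b.q n k).mis + b.inc n k * V.Cp ≤ q'.mis)
    (h3 : (b.q n k).lam * (1 + b.inL n k * V.Cp) ≤ q'.lam)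
    (h4 : b.thm n k + b.inY n k * V.Cp ≤ q'.tht)
    (h5 : (b.q n k).eps * r + b.nn n k * V.Cp ≤ q'.eps)
    (h6 : (b.q n k).rho + b.nn n k * V.Cp ≤ q'.rho) :
    StN V q' (V.cl (k + 1)) T run := by
  obtain ⟨hth, hth1⟩ := hN.th
  obtain ⟨i1, i2, i3, i4⟩ := hN.inc
  obtain ⟨q1, q2, q3⟩ := hN.q
  have hgg0 : gg T = gg T₀ := by
    unfold gg
    rw [hM.mb]
  have hAl0 := Md.al hM
  have hruns : ∀ x ∈ run, T.s x = V.cl (k + 1) := fun x hx => by
    have := hF.runs x hx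
    rwa [if_pos (Finset.mem_univ x)] at this
  have hG0 := hM.st0.gau
  have hi1 := fun x => mul_le_mul_of_nonneg_left (hCp x) i1
  have hi2 := fun x => mul_le_mul_of_nonneg_left (hCp x) i2
  have hi3 := fun x => mul_le_mul_of_nonneg_left (hCp x) i3
  have hi4 := fun x => mul_le_mul_of_nonneg_left (hCp x) i4
  have hCp0 : 0 ≤ V.Cp := (psi_nonneg V.Γ n Finset.univ 0).trans (hCp 0)
  have hgpos : ∀ x ∈ Al T, 0 < gg T x := fun x hx => by
    rw [hgg0]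
    exact lt_of_lt_of_le hN.c0 (hG0 x (hAl0 x hx)).1
  have hralv : run ⊆ Al T := fun x hx => by
    rw [mem_Al, hruns x hx]
    exact hcl0
  refine ⟨?_, hralv, ?_, ?_, ?_, ?_, ?_⟩
  · intro x hx
    obtain ⟨g1, g2, g3⟩ := hG0 x (hAl0 x hx)
    unfold gg at g1 ⊢
    rw [hM.mb]
    have := mul_nonneg i1 hCp0
    exact ⟨g1, g2, by linarith only [h1, g3, this]⟩
  · intro x hx
    have hxA := hralv hx
    have g1 := hM.st0.mis x (hM.sub hx)
    have g2 := hM.ent x hxA x hxA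
    have g3 := norm_add_le (net V.E V.e₀ T x x - net V.E V.e₀ T₀ x x)
      (net V.E V.e₀ T₀ x x - T₀.mb x)
    rw [sub_add_sub_cancel] at g3
    rw [hM.mb]
    linarith [hi1 x]
  · intro x hx y hy
    have g1 := hM.st0.ent x (hAl0 x hx) y (hAl0 y hy)
    have g2 := hM.ent x hx y hy
    have g3 := norm_add_le (net V.E V.e₀ T x y - net V.E V.e₀ T₀ x y)
      (net V.E V.e₀ T₀ x y - V.G₀ x y)
    rw [sub_add_sub_cancel] at g3
    linarith [hi1 x]
  · intro x hx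
    refine (hM.lar x hx).trans (le_trans ?_ h3)
    exact mul_le_mul_of_nonneg_left (by linarith [hi2 x]) q3
  · intro a ha
    refine (hM.yin a ha).trans (mul_le_mul_of_nonneg_right ?_ (hgpos a (hralv ha)).le)
    linarith [hi3 a]
  · obtain ⟨εl, εu, bl, bu, hFm, hx, he⟩ := hM.frm
    dsimp only at hx he
    refine ⟨εl, εu, bl, bu, hFm, ?_, ?_⟩
    · intro x hxA
      obtain ⟨x1, x2, x3, x4⟩ := hx x hxA
      refine ⟨x1, ?_, x3, ?_⟩
      · show εl x ≤ if x ∈ run then q'.eps else q'.rho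
        by_cases hxr : x ∈ run
        · rw [if_pos hxr] at x2 ⊢
          refine x2.trans (le_trans ?_ h5)
          have g1 : ww V.e₀ T x / ww V.e₀ T₀ x ≤ r := by
            have hc : V.c₀ ≤ gg T x := by
              rw [hgg0]
              exact (hG0 x (hAl0 x hxA)).1
            have hgp := hgpos x hxA
            have hs0 : T₀.s x = V.cl k := by
              have := hM.fc0.runs x (hM.sub hxr)
              rwa [if_neg (Finset.notMem_empty x)] at this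
            have e1 : ww V.e₀ T x = (V.e₀ + V.cl (k + 1) * gg T x) * gg T x := by
              unfold ww kap
              rw [hruns x hxr]
              rfl
            have e2 : ww V.e₀ T₀ x = (V.e₀ + V.cl k * gg T x) * gg T x := by
              unfold ww kap
              rw [hs0, hgg0]
              rfl
            have hp : 0 < V.e₀ + V.cl k * gg T x := by
              have := hN.e0
              have := NNReal.coe_nonneg (V.cl k)
              positivity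
            rw [e1, e2, mul_div_mul_right _ _ hgp.ne', div_le_iff₀ hp]
            exact hr _ hc
          have g2 := mul_le_mul_of_nonneg_left g1 q1
          linarith [hi4 x]
        · rw [if_neg hxr] at x2 ⊢
          linarith [hi4 x]
      · linarith [hi4 x]
    · intro e
      obtain ⟨e1, e2, e3⟩ := he e
      have g1 : (b.q n k).rho + b.nn n k * Psi V.Γ n Finset.univ (sT e) ≤ q'.rho := by
        linarith [hi4 (sT e)]
      refine ⟨?_, e2, ?_⟩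
      · exact (mul_le_mul_of_nonneg_left (by linarith) hN.D.1).trans e1
      · exact e3.trans (mul_le_mul_of_nonneg_left (by linarith) hN.D.2)

/-- the alive sites in the release phase -/
theorem Rl.al {V : Env d M} {b : Bud} {n : ℕ} {T₀ T : Cfg (Tor d M)}
    {run₀ run P : Finset (Tor d M)} (hM : Rl V b n T₀ run₀ P T run) (x : Tor d M)
    (hx : x ∈ Al T) : x ∈ Al T₀ := by
  rw [mem_Al] at hx ⊢
  rcases hM.chg x with h | h
  · rwa [h.2] at hx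
  · exact h.2.1

/-- THE END OF THE RELEASE PHASE, before the regauge -/
theorem rfa {V : Env d M} {b : Bud} {n : ℕ} (hc0 : 0 < V.c₀) (hD : 0 ≤ V.D₀ ∧ 0 ≤ V.D₁)
    (hb : 0 ≤ b.icR n ∧ 0 ≤ b.lR n ∧ 0 ≤ b.yR n ∧ 0 ≤ b.nR n) (hlam : 0 ≤ (b.q n (V.kk (n + 1))).lam)
    {T₀ T : Cfg (Tor d M)} {run₀ run P : Finset (Tor d M)}
    (hΦ : ∀ x, Phi V.Γ (b.tau n) n P x ≤ 2) (hM : Rl V b n T₀ run₀ P T run) {q' : Num}
    (h1 : (b.q n (V.kk (n + 1))).del + 2 * b.icR n ≤ q'.del)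
    (h2 : (b.q n (V.kk (n + 1))).mis + 2 * b.icR n ≤ q'.mis)
    (h3 : (b.q n (V.kk (n + 1))).lam * (1 + 2 * b.lR n) ≤ q'.lam)
    (h4 : (b.q n (V.kk (n + 1))).tht + 2 * b.yR n ≤ q'.tht)
    (h5 : (b.q n (V.kk (n + 1))).eps + 2 * b.nR n ≤ q'.eps)
    (h6 : (b.q n (V.kk (n + 1))).rho + 2 * b.nR n ≤ q'.rho) :
    StN V q' (V.cl (V.kk (n + 1))) T run := by
  obtain ⟨i1, i2, i3, i4⟩ := hb
  have hgg0 : gg T = gg T₀ := by
    unfold gg
    rw [hM.mb]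
  have hAl0 := Rl.al hM
  have hG0 := hM.st0.gau
  have hi1 : ∀ x, b.icR n * Phi V.Γ (b.tau n) n P x ≤ 2 * b.icR n := fun x => by
    have := mul_le_mul_of_nonneg_left (hΦ x) i1
    linarith only [this]
  have hi2 : ∀ x, b.lR n * Phi V.Γ (b.tau n) n P x ≤ 2 * b.lR n := fun x => by
    have := mul_le_mul_of_nonneg_left (hΦ x) i2
    linarith
  have hi3 : ∀ x, b.yR n * Phi V.Γ (b.tau n) n P x ≤ 2 * b.yR n := fun x => by
    have := mul_le_mul_of_nonneg_left (hΦ x) i3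
    linarith
  have hi4 : ∀ x, b.nR n * Phi V.Γ (b.tau n) n P x ≤ 2 * b.nR n := fun x => by
    have := mul_le_mul_of_nonneg_left (hΦ x) i4
    linarith
  have hgpos : ∀ x ∈ Al T, 0 < gg T x := fun x hx => by
    rw [hgg0]
    exact lt_of_lt_of_le hc0 (hG0 x (hAl0 x hx)).1
  have hralv := hM.sub.2
  refine ⟨?_, hralv, ?_, ?_, ?_, ?_, ?_⟩
  · intro x hx
    obtain ⟨g1, g2, g3⟩ := hG0 x (hAl0 x hx)
    unfold gg at g1 ⊢
    rw [hM.mb]
    exact ⟨g1, g2, by linarith only [h1, i1, g3]⟩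
  · intro x hx
    have hxA := hralv hx
    have g1 := hM.st0.mis x (hM.sub.1 hx)
    have g2 := hM.ent x hxA x hxA
    have g3 := norm_add_le (net V.E V.e₀ T x x - net V.E V.e₀ T₀ x x)
      (net V.E V.e₀ T₀ x x - T₀.mb x)
    rw [sub_add_sub_cancel] at g3
    rw [hM.mb]
    linarith [hi1 x]
  · intro x hx y hy
    have g1 := hM.st0.ent x (hAl0 x hx) y (hAl0 y hy)
    have g2 := hM.ent x hx y hy
    have g3 := norm_add_le (net V.E V.e₀ T x y - net V.E V.e₀ T₀ x y)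
      (net V.E V.e₀ T₀ x y - V.G₀ x y)
    rw [sub_add_sub_cancel] at g3
    linarith [hi1 x]
  · intro x hx
    refine (hM.lar x hx).trans (le_trans ?_ h3)
    exact mul_le_mul_of_nonneg_left (by linarith [hi2 x]) hlam
  · intro a ha
    refine (hM.yin a ha).trans (mul_le_mul_of_nonneg_right ?_ (hgpos a (hralv ha)).le)
    linarith [hi3 a]
  · obtain ⟨εl, εu, bl, bu, hFm, hx, he⟩ := hM.frm
    dsimp only at hx he
    refine ⟨εl, εu, bl, bu, hFm, ?_, ?_⟩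
    · intro x hxA
      obtain ⟨x1, x2, x3, x4⟩ := hx x hxA
      refine ⟨x1, ?_, x3, ?_⟩
      · show εl x ≤ if x ∈ run then q'.eps else q'.rho
        by_cases hxr : x ∈ run
        · rw [if_pos hxr] at x2 ⊢
          linarith only [hi4 x, h5, x2]
        · rw [if_neg hxr] at x2 ⊢
          linarith [hi4 x]
      · linarith only [hi4 x, h6, x4]
    · intro e
      obtain ⟨e1, e2, e3⟩ := he e
      have g1 : (b.q n (V.kk (n + 1))).rho + b.nR n * Phi V.Γ (b.tau n) n P (sT e) ≤ q'.rho := by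
        linarith only [hi4 (sT e), h6]
      refine ⟨?_, e2, ?_⟩
      · exact (mul_le_mul_of_nonneg_left (by linarith) hD.1).trans e1
      · exact e3.trans (mul_le_mul_of_nonneg_left (by linarith) hD.2)

end conf

end Pool.Agent.AHH.H28
end
end -- Pool.Agent.Helper28_AHH.Mid

section -- Pool.Agent.Helper61_AHH.Zn

/-!
# AND2B (MP_1906c1_mp): the numbers of `MID`
-/

set_option autoImplicit false

open scoped BigOperators NNReal

noncomputable section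

namespace Pool.Agent.AHH.H61

open Pool.Agent.BED (Tor)
open Pool.Agent.AND2B (Ev Fld)
open Pool.Agent.AND.Num
open Pool.Agent.AHH.H16 (BudOk)
open Pool.Agent.AHH.H28 (Nm)

/-- all the small thresholds are at most `δ`, with every constant `K` -/
theorem ev_thr (d : ℕ) (a c C : ℝ) (K δ : ℝ) (hδ : 0 < δ) :
    Ev d a es c C fun V => ∀ n k, (qq V n k).eps + K * (bud V).nn n k ≤ δ ∧
      (qq V n k).rho + K * (bud V).nn n k ≤ δ ∧ (qq V n k).del ≤ δ ∧ (qq V n k).mis ≤ δ ∧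
      (qq V n k).tht ≤ δ ∧ (bud V).thm n k ≤ δ ∧ K * (bud V).inc n k ≤ δ ∧
      K * (bud V).inY n k ≤ δ := by
  have h1 : Ev d a es c C fun V => ∀ s : ℝ, 0 < s → s ≤ V.w →
      s ≤ 1 ∧ (2 * s ^ (kaf V.α / 2) ≤ δ / 2 * s ^ (0 : ℝ) ∧
      |K| * s ^ kaf V.α ≤ δ / 2 * s ^ (0 : ℝ) ∧ 3 * s ^ (kaf V.α / 4) ≤ δ / 2 * s ^ (0 : ℝ)) ∧
      (3 * s ^ (1 / 20 : ℝ) ≤ δ * s ^ (0 : ℝ) ∧ 1 * s ^ (1 / 8 : ℝ) ≤ δ * s ^ (0 : ℝ) ∧
      3 * s ^ (1 / 400 : ℝ) ≤ δ / 2 * s ^ (0 : ℝ)) ∧ (1 * s ^ (1 / 16 : ℝ) ≤ δ / 2 * s ^ (0 : ℝ) ∧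
      |K| * s ^ (1 / 8 - 1 / 200 : ℝ) ≤ δ * s ^ (0 : ℝ) ∧
      |K| * s ^ (1 / 16 - 1 / 100 : ℝ) ≤ δ * s ^ (0 : ℝ)) := by
    refine ev_small (fun _ _ _ α _ s =>
      s ≤ 1 ∧ (2 * s ^ (kaf α / 2) ≤ δ / 2 * s ^ (0 : ℝ) ∧
      |K| * s ^ kaf α ≤ δ / 2 * s ^ (0 : ℝ) ∧ 3 * s ^ (kaf α / 4) ≤ δ / 2 * s ^ (0 : ℝ)) ∧
      (3 * s ^ (1 / 20 : ℝ) ≤ δ * s ^ (0 : ℝ) ∧ 1 * s ^ (1 / 8 : ℝ) ≤ δ * s ^ (0 : ℝ) ∧
      3 * s ^ (1 / 400 : ℝ) ≤ δ / 2 * s ^ (0 : ℝ)) ∧ (1 * s ^ (1 / 16 : ℝ) ≤ δ / 2 * s ^ (0 : ℝ) ∧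
      |K| * s ^ (1 / 8 - 1 / 200 : ℝ) ≤ δ * s ^ (0 : ℝ) ∧
      |K| * s ^ (1 / 16 - 1 / 100 : ℝ) ≤ δ * s ^ (0 : ℝ))) ?_
    intro th c₁ C₁ α J _ _ _ _
    have hk := kaf_pos α
    have hδ2 : 0 < δ / 2 := by positivity
    exact (small_le 1 one_pos).and (((small_pow' 2 (δ / 2) _ _ hδ2 (by linarith only [hk])).and
      ((small_pow' |K| (δ / 2) _ _ hδ2 hk).and
        (small_pow' 3 (δ / 2) _ _ hδ2 (by linarith only [hk])))).and
      (((small_pow' 3 δ _ _ hδ (by norm_num)).and ((small_pow' 1 δ _ _ hδ (by norm_num)).and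
        (small_pow' 3 (δ / 2) _ _ hδ2 (by norm_num)))).and
      ((small_pow' 1 (δ / 2) _ _ hδ2 (by norm_num)).and
        ((small_pow' |K| δ _ _ hδ (by norm_num)).and
          (small_pow' |K| δ _ _ hδ (by norm_num))))))
  refine (ev_good.and h1).imp fun V hV => ?_
  obtain ⟨hG, hV⟩ := hV
  have hP : V.Pre a := hG.toPre
  have hth : V.th ≤ 1 := hP.th.2.le
  have hw := w_pos hP
  obtain ⟨w0, ⟨w1, w2, w3⟩, ⟨w4, w5, w6⟩, w7, w8, w9⟩ := hV V.w hw le_rfl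
  rw [Real.rpow_zero] at *
  intro n k
  have hcl : (0 : ℝ) ≤ V.cl k := (cl_pos' hP k).le
  have hsg : (0 : ℝ) ≤ V.sg n := (sg_pos hP n).le
  have hka : 0 < ka V := ka_pos
  have hmono : ∀ {p : ℝ}, 0 < p → (V.cl k : ℝ) ^ p ≤ (V.w : ℝ) ^ p := fun hp =>
    Real.rpow_le_rpow hcl (cl_le' hP k) hp.le
  have hKs : ∀ p : ℝ, 0 < p → K * (V.cl k : ℝ) ^ p ≤ |K| * (V.w : ℝ) ^ p := by
    intro p hp
    calc K * (V.cl k : ℝ) ^ p ≤ |K| * (V.cl k : ℝ) ^ p :=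
          mul_le_mul_of_nonneg_right (le_abs_self K) (Real.rpow_nonneg hcl _)
      _ ≤ _ := mul_le_mul_of_nonneg_left (hmono hp) (abs_nonneg K)
  have hnn : K * (bud V).nn n k ≤ δ / 2 := by
    show K * (V.cl k : ℝ) ^ ka V ≤ δ / 2
    have h2 := hKs (ka V) hka
    rw [ka_eq] at h2 ⊢
    linarith only [w2, h2]
  have heps : (qq V n k).eps ≤ δ / 2 := by
    show (V.cl k : ℝ) ^ (ka V / 2) * (2 - V.sg n ^ ka V) ≤ δ / 2
    have h2 := hmono (p := ka V / 2) (by linarith only [hka])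
    have h3 : 0 ≤ V.sg n ^ ka V := Real.rpow_nonneg hsg _
    have h4 : (V.cl k : ℝ) ^ (ka V / 2) * (2 - V.sg n ^ ka V) ≤ (V.cl k : ℝ) ^ (ka V / 2) * 2 :=
      mul_le_mul_of_nonneg_left (by linarith only [h3]) (Real.rpow_nonneg hcl _)
    rw [← ka_eq] at w1
    linarith only [w1, h2, h4]
  have hrho : (qq V n k).rho ≤ δ / 2 := by
    show gr V (ka V / 4) n k ≤ δ / 2
    have h2 := (gr_bd V hth (p := ka V / 4) (by linarith only [hka]) n k).2
    rw [← ka_eq] at w3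
    linarith only [w3, h2]
  have htht : (qq V n k).tht ≤ δ / 2 := by
    show gr V (1 / 400) n k ≤ δ / 2
    have h2 := (gr_bd V hth (p := 1 / 400) (by norm_num) n k).2
    linarith only [w6, h2]
  refine ⟨by linarith only [hnn, heps], by linarith only [hnn, hrho], ?_, ?_, by linarith only [hδ, htht], ?_, ?_, ?_⟩
  · show gr V (1 / 20) n k ≤ δ
    have h2 := (gr_bd V hth (p := 1 / 20) (by norm_num) n k).2
    linarith only [w4, h2]
  · show (V.cl k : ℝ) ^ (1 / 8 : ℝ) ≤ δ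
    have h2 := hmono (p := 1 / 8) (by norm_num)
    linarith only [w5, h2]
  · show gr V (1 / 400) n k + (V.cl k : ℝ) ^ (1 / 16 : ℝ) ≤ δ
    have h2 := hmono (p := 1 / 16) (by norm_num)
    have h3 : gr V (1 / 400) n k ≤ δ / 2 := htht
    linarith only [w7, h2, h3]
  · have h2 := hKs (1 / 8 - 1 / 200) (by norm_num)
    show K * (V.cl k : ℝ) ^ (1 / 8 - 1 / 200 : ℝ) ≤ δ
    linarith only [w8, h2]
  · have h2 := hKs (1 / 16 - 1 / 100) (by norm_num)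
    show K * (V.cl k : ℝ) ^ (1 / 16 - 1 / 100 : ℝ) ≤ δ
    linarith only [w9, h2]

/-- the numbers of helper28 -/
theorem nm (d : ℕ) (a c C : ℝ) (hc : 0 < c) (hC : 1 ≤ C) :
    Ev d a es c C fun V => ∀ n k, Nm (toE V c C) (bud V) n k := by
  have h1 := ev_thr d a c C (cpd d) (min (1 / 8) (1 / (4 * C))) (lt_min (by norm_num)
    (by positivity))
  refine (((budOk d a c C hc hC).and h1).and ev_good).imp fun V hV n k => ?_
  obtain ⟨⟨hB, h1⟩, hG⟩ := hV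
  obtain ⟨h2, h3, _⟩ := h1 n k
  have m1 := min_le_left (1 / 8 : ℝ) (1 / (4 * C))
  have m2 := min_le_right (1 / 8 : ℝ) (1 / (4 * C))
  obtain ⟨q1, q2, q3, q4, q5⟩ := hB.q n k
  refine
    { th := ⟨th_pos hG.toPre, by exact_mod_cast hB.th.2⟩
      c0 := hB.c0
      e0 := hB.e0
      D := ⟨hB.D0, hB.D1⟩
      inc := hB.inc n k
      q := ⟨q4, q4.trans q5, q2⟩
      sm := ⟨?_, ?_, ?_⟩ }
  · show (qq V n k).eps + (bud V).nn n k * cpd d ≤ 1 / 8
    rw [mul_comm]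
    linarith only [h2, m1]
  · show (qq V n k).rho + (bud V).nn n k * cpd d ≤ 1 / 8
    rw [mul_comm]
    linarith only [h3, m1]
  · show (qq V n k).rho + (bud V).nn n k * cpd d ≤ (1 - (1 - 1 / (2 * C))) / 2
    have h4 : (1 - (1 - 1 / (2 * C))) / 2 = 1 / (4 * C) := by
      field_simp
      ring
    rw [mul_comm, h4]
    linarith only [h3, m2]

end Pool.Agent.AHH.H61
end
end -- Pool.Agent.Helper61_AHH.Zn

section -- Pool.Agent.Helper22_QDU.H61Num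
/-!
# AND2B (MP_1906c1_mp): the numbers of the budget
-/

set_option autoImplicit false

open scoped BigOperators NNReal

noncomputable section

namespace Pool.Agent.QDU.H61

open Pool.Agent.AHH hiding BegF FinF FloF IniF KilF MmonF OutF RbegF RfinF RmonF ana0
open Pool.Agent.AHH.H61 hiding budOk ev_be ev_c1 ev_e0 ev_good ev_small ev_small_be ev_th

open Pool.Agent.BED (Tor)
open Pool.Agent.AND.Num
open Pool.Agent.AHH.H16 (BudOk)

/-! ### How to prove `Ev2` for facts about small powers -/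

section ev

variable {d : ℕ} {a es c C : ℝ}

/-- a fact about all small `s` holds for all `s ≤ w` -/
theorem ev_smallu (P : ℝ≥0 → ℝ → ℝ → ℕ → ℕ → ℝ → Prop)
    (h : ∀ (b : ℝ≥0) (c₁ C₁ : ℝ) (α J : ℕ), 1 / 2 ≤ b → b < 1 → 0 < c₁ → 2 ≤ α →
      Small fun s => ∀ th : ℝ≥0, 1 / 2 ≤ th → th ≤ b → P th c₁ C₁ α J s) :
    Ev2 d a es c C fun V => ∀ s : ℝ, 0 < s → s ≤ V.w → P V.th V.c₁ V.C₁ V.α V.J s := by
  refine Ev2.intro' 1 1 one_pos one_pos fun b c₁ C₁ α J hb h3 _ hα => ?_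
  by_cases h1 : 1 / 2 ≤ b
  · obtain ⟨s₀, hs, -, hP⟩ := (h b c₁ C₁ α J h1 hb h3 hα).ex
    refine ⟨1, s₀, one_pos, hs, fun V hV _ e1 e2 e3 e4 e5 _ hw s h5 h6 => ?_⟩
    rw [e2, e3, e4, e5]
    exact hP s h5 (h6.trans hw) V.th hV.th.1 e1
  · refine ⟨1, 1, one_pos, one_pos, fun V hV _ e1 _ _ _ _ _ _ _ _ _ => ?_⟩
    exact absurd (hV.th.1.trans e1) h1

/-- the same for a fact which is the stronger the larger the ratio of the clocks is -/
theorem ev_smallm (P : ℝ≥0 → ℝ → ℝ → ℕ → ℕ → ℝ → Prop)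
    (hm : ∀ (th b : ℝ≥0) (c₁ C₁ : ℝ) (α J : ℕ) (s : ℝ), 1 / 2 ≤ th → th ≤ b → b < 1 → 0 < s →
      P b c₁ C₁ α J s → P th c₁ C₁ α J s)
    (h : ∀ (th : ℝ≥0) (c₁ C₁ : ℝ) (α J : ℕ), 1 / 2 ≤ th → th < 1 → 0 < c₁ → 2 ≤ α →
      Small (P th c₁ C₁ α J)) :
    Ev2 d a es c C fun V => ∀ s : ℝ, 0 < s → s ≤ V.w → P V.th V.c₁ V.C₁ V.α V.J s :=
  ev_smallu P fun b c₁ C₁ α J h1 h2 h3 h4 =>
    (h b c₁ C₁ α J h1 h2 h3 h4).mono fun s hs hP th h5 h6 => hm th b c₁ C₁ α J s h5 h6 h2 hs hP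

/-- the same for a fact which does not contain the ratio of the clocks -/
theorem ev_small (P : ℝ → ℝ → ℕ → ℕ → ℝ → Prop)
    (h : ∀ (th : ℝ≥0) (c₁ C₁ : ℝ) (α J : ℕ), 1 / 2 ≤ th → th < 1 → 0 < c₁ → 2 ≤ α →
      Small (P c₁ C₁ α J)) :
    Ev2 d a es c C fun V => ∀ s : ℝ, 0 < s → s ≤ V.w → P V.c₁ V.C₁ V.α V.J s :=
  ev_smallm (fun _ => P) (fun _ _ _ _ _ _ _ _ _ _ _ h => h) h

/-- `β` is small -/
theorem ev_be (f : ℝ → ℝ → ℕ → ℕ → ℝ) (hf : ∀ c₁ C₁ α J, 0 < c₁ → 2 ≤ α → 0 < f c₁ C₁ α J) :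
    Ev2 d a es c C fun V => V.β ≤ f V.c₁ V.C₁ V.α V.J := by
  refine Ev2.intro' 1 1 one_pos one_pos fun b c₁ C₁ α J _ h3 _ hα => ?_
  refine ⟨f c₁ C₁ α J, 1, hf c₁ C₁ α J h3 hα, one_pos, ?_⟩
  intro V _ _ _ e2 e3 e4 e5 hb _
  rw [e2, e3, e4, e5]
  exact hb

/-- `th` is close to one -/
theorem ev_th (τ : ℝ) (hτ : 0 < τ) : Ev2 d a es c C fun V => 1 - τ ≤ (V.th : ℝ) := by
  refine Ev2.intro' τ 1 hτ one_pos fun b c₁ C₁ α J _ _ _ _ => ?_
  exact ⟨1, 1, one_pos, one_pos, fun V _ h _ _ _ _ _ _ _ => h⟩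

/-- `c₁` is small -/
theorem ev_c1 (κ : ℝ) (hκ : 0 < κ) : Ev2 d a es c C fun V => V.c₁ ≤ κ := by
  refine Ev2.intro' 1 κ one_pos hκ fun b c₁ C₁ α J _ _ h5 _ => ?_
  refine ⟨1, 1, one_pos, one_pos, ?_⟩
  intro V _ _ _ e2 _ _ _ _ _
  rw [e2]
  exact h5

/-- `e₀` is smaller than any positive function of the data which come before -/
theorem ev_e0 (f : AND2B.Env d → ℝ) (hf : ∀ V : AND2B.Env d, V.Pre a → 0 < f V)
    (hi : ∀ (V : AND2B.Env d) (e₀ : ℝ) (m ζ : ℂ), f { V with e₀ := e₀, m := m, ζ := ζ } = f V) :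
    Ev2 d a es c C fun V => V.e₀ ≤ f V := by
  refine Ev2.intro 1 1 one_pos one_pos fun b c₁ C₁ α J _ _ _ _ => ?_
  refine ⟨1, 1, one_pos, one_pos, ?_⟩
  intro V hV _ _ _ _ _ _ _ _
  refine ⟨f V, hf V hV, fun e₀ m ζ _ h _ => ?_⟩
  rw [hi]
  exact h

/-- every environment is good -/
theorem ev_good : Ev2 d a es c C fun V => V.Good a es c C :=
  Ev2.intro' 1 1 one_pos one_pos fun b c₁ C₁ α J _ _ _ _ =>
    ⟨1, 1, one_pos, one_pos, fun V hV _ _ _ _ _ _ _ _ => hV⟩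

end ev

/-! ### Monotonicity in the ratio of the clocks -/

theorem gapm {th b : ℝ≥0} (h : th ≤ b) {p : ℝ} (hp : 0 ≤ p) :
    1 - (b : ℝ) ^ p ≤ 1 - (th : ℝ) ^ p := by
  have h1 : (th : ℝ) ^ p ≤ (b : ℝ) ^ p :=
    Real.rpow_le_rpow (NNReal.coe_nonneg _) (by exact_mod_cast h) hp
  linarith

/-- `C * x ≤ (1 - b^p) * y` is preserved when `b` decreases -/
theorem gap_le {th b : ℝ≥0} (h : th ≤ b) {p x y : ℝ} (hp : 0 ≤ p) (hy : 0 ≤ y)
    (hx : x ≤ (1 - (b : ℝ) ^ p) * y) : x ≤ (1 - (th : ℝ) ^ p) * y :=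
  hx.trans (mul_le_mul_of_nonneg_right (gapm h hp) hy)

theorem gapi {th b : ℝ≥0} (h : th ≤ b) (hb : b < 1) {K : ℝ} (hK : 0 ≤ K) :
    K / (1 - (th : ℝ)) ≤ K / (1 - (b : ℝ)) := by
  have h1 : (th : ℝ) ≤ b := by exact_mod_cast h
  have h2 : (b : ℝ) < 1 := by exact_mod_cast hb
  exact div_le_div_of_nonneg_left hK (by linarith) (by linarith)

theorem gapip {th b : ℝ≥0} (h : th ≤ b) (hb : b < 1) {K p : ℝ} (hK : 0 ≤ K) (hp : 0 < p) :
    K / (1 - (th : ℝ) ^ p) ≤ K / (1 - (b : ℝ) ^ p) := by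
  have h2 : (b : ℝ) ^ p < 1 := Real.rpow_lt_one (NNReal.coe_nonneg _) (by exact_mod_cast hb) hp
  exact div_le_div_of_nonneg_left hK (by linarith) (gapm h hp.le)

/-! ### The conditions of the fields `beg`, `mmon`, `rbeg`, `rmon` -/

/-- the conditions of helper16 -/
theorem budOk (d : ℕ) (a c C : ℝ) (hc : 0 < c) (hC : 1 ≤ C) :
    Ev2 d a es c C fun V => BudOk (toE V c C) (bud V) := by
  have hcp := one_le_cpd d
  -- the small powers
  have h1 : Ev2 d a es c C fun V => ∀ s : ℝ, 0 < s → s ≤ V.w →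
      (s ≤ 1 ∧ 2 * s ^ (kaf V.α / 2) ≤ s ^ (kaf V.α / 4)) ∧
      (1 * s ^ (1 / 8 : ℝ) ≤ c / 8 * s ^ (0 : ℝ) ∧
        cpd d * s ^ (1 / 8 - 1 / 200 : ℝ) ≤ c / 8 * s ^ (0 : ℝ)) ∧
      (8 / c * s ^ (1 / 8 : ℝ) ≤ s ^ (1 / 16 : ℝ) ∧ 1 * s ^ (1 / 400 : ℝ) ≤ 1 / 3 * s ^ (0 : ℝ)) := by
    refine ev_small (fun _ _ α _ s =>
      (s ≤ 1 ∧ 2 * s ^ (kaf α / 2) ≤ s ^ (kaf α / 4)) ∧
      (1 * s ^ (1 / 8 : ℝ) ≤ c / 8 * s ^ (0 : ℝ) ∧
        cpd d * s ^ (1 / 8 - 1 / 200 : ℝ) ≤ c / 8 * s ^ (0 : ℝ)) ∧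
      (8 / c * s ^ (1 / 8 : ℝ) ≤ s ^ (1 / 16 : ℝ) ∧
        1 * s ^ (1 / 400 : ℝ) ≤ 1 / 3 * s ^ (0 : ℝ))) ?_
    intro th c₁ C₁ α J _ _ _ _
    have hk := kaf_pos α
    exact (((small_le 1 one_pos).and (small_pow 2 (kaf α / 2) (kaf α / 4) (by linarith only [hk]))).and
      (((small_pow' 1 (c / 8) (1 / 8) 0 (by positivity) (by norm_num)).and
        (small_pow' (cpd d) (c / 8) (1 / 8 - 1 / 200) 0 (by positivity) (by norm_num))).and
      ((small_pow (8 / c) (1 / 8) (1 / 16) (by norm_num)).and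
        (small_pow' 1 (1 / 3) (1 / 400) 0 (by norm_num) (by norm_num)))))
  refine (ev_good.and h1).imp fun V hV => ?_
  obtain ⟨hG, hV⟩ := hV
  have hP : V.Pre a := hG.toPre
  have hth : V.th ≤ 1 := hP.th.2.le
  have hw := w_pos hP
  obtain ⟨⟨w1, w2⟩, _, _, w5⟩ := hV V.w hw le_rfl
  rw [Real.rpow_zero, one_mul, mul_one] at w5
  have hcl : ∀ k, (0 : ℝ) ≤ V.cl k := fun k => (cl_pos' hP k).le
  have hsg : ∀ n, (0 : ℝ) ≤ V.sg n := fun n => (sg_pos hP n).le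
  have hgr : ∀ {p : ℝ}, 0 < p → ∀ n k, 0 ≤ gr V p n k := fun hp n k =>
    (Real.rpow_nonneg hw.le _).trans (gr_bd V hth hp n k).1
  have hsp : ∀ {p : ℝ}, 0 < p → ∀ n, V.sg n ^ p ≤ 1 := fun hp n =>
    Real.rpow_le_one (hsg n) ((sg_le hP n).trans w1) hp.le
  have hka : 0 < ka V := ka_pos
  refine
    { c0 := by
        show 0 < c / 2
        linarith only [hc]
      e0 := hG.e0
      D0 := mul_nonneg hc.le (Real.rpow_nonneg hw.le _)
      D1 := by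
        show 0 ≤ 4 * C ^ 3 / (V.w : ℝ)
        positivity
      th := ⟨by exact_mod_cast hP.th.1, by exact_mod_cast hth⟩
      cl := fun k => ⟨cl_succ V k, cl_pos V hP.w (th_pos hP) k⟩
      inc := fun n k => ⟨Real.rpow_nonneg (hcl k) _, ?_, Real.rpow_nonneg (hcl k) _,
        Real.rpow_nonneg (hcl k) _⟩
      icR := fun n => ⟨Real.rpow_nonneg (hsg _) _, Real.rpow_nonneg (hsg _) _,
        Real.rpow_nonneg (hsg _) _, Real.rpow_nonneg (hsg _) _, Real.rpow_nonneg (hsg _) _⟩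
      q := fun n k => ⟨Real.rpow_nonneg (hcl k) _, ?_, hgr (by norm_num) n k, ?_, ?_⟩
      psi := fun n P x => Psi_le_Gt d V.μ V.J V.N V.l V.r n P x
      half := fun n k _ => ?_
      thm := fun n k _ => ?_ }
  · show 0 ≤ (1 - (V.th : ℝ)) / (8 * cpd d)
    have h2 : (V.th : ℝ) ≤ 1 := by exact_mod_cast hth
    exact div_nonneg (by linarith only [hth]) (by linarith only [hcp])
  · show 0 ≤ 1 / 4 * (V.cl k : ℝ) ^ (-(3 / 4) : ℝ) * (2 - V.sg n ^ (1 / 400 : ℝ))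
    have h2 := hsp (p := 1 / 400) (by norm_num) n
    have h3 : 0 ≤ (V.cl k : ℝ) ^ (-(3 / 4) : ℝ) := Real.rpow_nonneg (hcl k) _
    exact mul_nonneg (mul_nonneg (by norm_num) h3) (by linarith only [h2])
  · show 0 ≤ (V.cl k : ℝ) ^ (ka V / 2) * (2 - V.sg n ^ ka V)
    have h2 := hsp hka n
    exact mul_nonneg (Real.rpow_nonneg (hcl k) _) (by linarith only [h2])
  · show (V.cl k : ℝ) ^ (ka V / 2) * (2 - V.sg n ^ ka V) ≤ gr V (ka V / 4) n k
    have h2 := (gr_bd V hth (p := ka V / 4) (by linarith only [hka]) n k).1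
    have h3 : (V.cl k : ℝ) ^ (ka V / 2) ≤ (V.w : ℝ) ^ (ka V / 2) :=
      Real.rpow_le_rpow (hcl k) (cl_le' hP k) (by linarith only [hka])
    have h4 : 0 ≤ (V.cl k : ℝ) ^ (ka V / 2) := Real.rpow_nonneg (hcl k) _
    have h5 : 0 ≤ V.sg n ^ ka V := Real.rpow_nonneg (hsg n) _
    have h6 : (V.cl k : ℝ) ^ (ka V / 2) * (2 - V.sg n ^ ka V) ≤ (V.cl k : ℝ) ^ (ka V / 2) * 2 :=
      mul_le_mul_of_nonneg_left (by linarith only [h5]) h4
    rw [← ka_eq] at w2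
    linarith only [w2, h2, h3, h6]
  · show (V.cl k : ℝ) ^ (1 / 8 : ℝ) + (V.cl k : ℝ) ^ (1 / 8 - 1 / 200 : ℝ) * cpd d ≤ c / 2 / 2
    obtain ⟨_, ⟨g1, g2⟩, _⟩ := hV (V.cl k) (cl_pos' hP k) (cl_le' hP k)
    rw [Real.rpow_zero] at g1 g2
    linarith only [g1, g2]
  · show (1 + gr V (1 / 400) n k) / (1 - (V.cl k : ℝ) ^ (1 / 8 : ℝ) / (c / 2)) ≤
      1 + (gr V (1 / 400) n k + (V.cl k : ℝ) ^ (1 / 16 : ℝ))
    obtain ⟨_, ⟨g1, _⟩, g3, _⟩ := hV (V.cl k) (cl_pos' hP k) (cl_le' hP k)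
    rw [Real.rpow_zero] at g1
    have g4 := (gr_bd V hth (p := 1 / 400) (by norm_num) n k).2
    have g5 : gr V (1 / 400) n k ≤ 1 := by linarith only [w5, g4]
    have g6 := hgr (p := 1 / 400) (by norm_num) n k
    set x : ℝ := (V.cl k : ℝ) ^ (1 / 8 : ℝ) with hx
    set y : ℝ := (V.cl k : ℝ) ^ (1 / 16 : ℝ) with hy
    have hx0 : 0 ≤ x := Real.rpow_nonneg (hcl k) _
    have hy0 : 0 ≤ y := Real.rpow_nonneg (hcl k) _
    have hy1 : y ≤ 1 := Real.rpow_le_one (hcl k) ((cl_le' hP k).trans w1) (by norm_num)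
    have h3 : x / (c / 2) = 2 / c * x := by
      field_simp
    have h4 : 2 / c * x ≤ 1 / 4 := by
      rw [div_mul_eq_mul_div, div_le_iff₀ hc]
      linarith only [g1]
    have h5 : 8 / c * x = 4 * (2 / c * x) := by ring
    rw [h3, div_le_iff₀ (by linarith only [h4])]
    set z : ℝ := 2 / c * x with hz
    have hz0 : 0 ≤ z := by positivity
    nlinarith only [w5, g4, g3, hy0, h4, h5, hz0]

end Pool.Agent.QDU.H61
end
end -- Pool.Agent.Helper22_QDU.H61Num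

section -- Pool.Agent.Helper22_QDU.H61Zn
/-!
# AND2B (MP_1906c1_mp): the numbers of `MID`
-/

set_option autoImplicit false

open scoped BigOperators NNReal

noncomputable section

namespace Pool.Agent.QDU.H61

open Pool.Agent.AHH hiding BegF FinF FloF IniF KilF MmonF OutF RbegF RfinF RmonF ana0
open Pool.Agent.AHH.H61 hiding budOk ev_be ev_c1 ev_e0 ev_good ev_small ev_small_be ev_th ev_thr nm

open Pool.Agent.BED (Tor)

open Pool.Agent.AND.Num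
open Pool.Agent.AHH.H16 (BudOk)
open Pool.Agent.AHH.H28 (Nm)

/-- all the small thresholds are at most `δ`, with every constant `K` -/
theorem ev_thr (d : ℕ) (a c C : ℝ) (K δ : ℝ) (hδ : 0 < δ) :
    Ev2 d a es c C fun V => ∀ n k, (qq V n k).eps + K * (bud V).nn n k ≤ δ ∧
      (qq V n k).rho + K * (bud V).nn n k ≤ δ ∧ (qq V n k).del ≤ δ ∧ (qq V n k).mis ≤ δ ∧
      (qq V n k).tht ≤ δ ∧ (bud V).thm n k ≤ δ ∧ K * (bud V).inc n k ≤ δ ∧
      K * (bud V).inY n k ≤ δ := by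
  have h1 : Ev2 d a es c C fun V => ∀ s : ℝ, 0 < s → s ≤ V.w →
      s ≤ 1 ∧ (2 * s ^ (kaf V.α / 2) ≤ δ / 2 * s ^ (0 : ℝ) ∧
      |K| * s ^ kaf V.α ≤ δ / 2 * s ^ (0 : ℝ) ∧ 3 * s ^ (kaf V.α / 4) ≤ δ / 2 * s ^ (0 : ℝ)) ∧
      (3 * s ^ (1 / 20 : ℝ) ≤ δ * s ^ (0 : ℝ) ∧ 1 * s ^ (1 / 8 : ℝ) ≤ δ * s ^ (0 : ℝ) ∧
      3 * s ^ (1 / 400 : ℝ) ≤ δ / 2 * s ^ (0 : ℝ)) ∧ (1 * s ^ (1 / 16 : ℝ) ≤ δ / 2 * s ^ (0 : ℝ) ∧
      |K| * s ^ (1 / 8 - 1 / 200 : ℝ) ≤ δ * s ^ (0 : ℝ) ∧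
      |K| * s ^ (1 / 16 - 1 / 100 : ℝ) ≤ δ * s ^ (0 : ℝ)) := by
    refine ev_small (fun _ _ α _ s =>
      s ≤ 1 ∧ (2 * s ^ (kaf α / 2) ≤ δ / 2 * s ^ (0 : ℝ) ∧
      |K| * s ^ kaf α ≤ δ / 2 * s ^ (0 : ℝ) ∧ 3 * s ^ (kaf α / 4) ≤ δ / 2 * s ^ (0 : ℝ)) ∧
      (3 * s ^ (1 / 20 : ℝ) ≤ δ * s ^ (0 : ℝ) ∧ 1 * s ^ (1 / 8 : ℝ) ≤ δ * s ^ (0 : ℝ) ∧
      3 * s ^ (1 / 400 : ℝ) ≤ δ / 2 * s ^ (0 : ℝ)) ∧ (1 * s ^ (1 / 16 : ℝ) ≤ δ / 2 * s ^ (0 : ℝ) ∧
      |K| * s ^ (1 / 8 - 1 / 200 : ℝ) ≤ δ * s ^ (0 : ℝ) ∧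
      |K| * s ^ (1 / 16 - 1 / 100 : ℝ) ≤ δ * s ^ (0 : ℝ))) ?_
    intro th c₁ C₁ α J _ _ _ _
    have hk := kaf_pos α
    have hδ2 : 0 < δ / 2 := by positivity
    exact (small_le 1 one_pos).and (((small_pow' 2 (δ / 2) _ _ hδ2 (by linarith only [hk])).and
      ((small_pow' |K| (δ / 2) _ _ hδ2 hk).and
        (small_pow' 3 (δ / 2) _ _ hδ2 (by linarith only [hk])))).and
      (((small_pow' 3 δ _ _ hδ (by norm_num)).and ((small_pow' 1 δ _ _ hδ (by norm_num)).and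
        (small_pow' 3 (δ / 2) _ _ hδ2 (by norm_num)))).and
      ((small_pow' 1 (δ / 2) _ _ hδ2 (by norm_num)).and
        ((small_pow' |K| δ _ _ hδ (by norm_num)).and
          (small_pow' |K| δ _ _ hδ (by norm_num))))))
  refine (ev_good.and h1).imp fun V hV => ?_
  obtain ⟨hG, hV⟩ := hV
  have hP : V.Pre a := hG.toPre
  have hth : V.th ≤ 1 := hP.th.2.le
  have hw := w_pos hP
  obtain ⟨w0, ⟨w1, w2, w3⟩, ⟨w4, w5, w6⟩, w7, w8, w9⟩ := hV V.w hw le_rfl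
  rw [Real.rpow_zero] at *
  intro n k
  have hcl : (0 : ℝ) ≤ V.cl k := (cl_pos' hP k).le
  have hsg : (0 : ℝ) ≤ V.sg n := (sg_pos hP n).le
  have hka : 0 < ka V := ka_pos
  have hmono : ∀ {p : ℝ}, 0 < p → (V.cl k : ℝ) ^ p ≤ (V.w : ℝ) ^ p := fun hp =>
    Real.rpow_le_rpow hcl (cl_le' hP k) hp.le
  have hKs : ∀ p : ℝ, 0 < p → K * (V.cl k : ℝ) ^ p ≤ |K| * (V.w : ℝ) ^ p := by
    intro p hp
    calc K * (V.cl k : ℝ) ^ p ≤ |K| * (V.cl k : ℝ) ^ p :=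
          mul_le_mul_of_nonneg_right (le_abs_self K) (Real.rpow_nonneg hcl _)
      _ ≤ _ := mul_le_mul_of_nonneg_left (hmono hp) (abs_nonneg K)
  have hnn : K * (bud V).nn n k ≤ δ / 2 := by
    show K * (V.cl k : ℝ) ^ ka V ≤ δ / 2
    have h2 := hKs (ka V) hka
    rw [ka_eq] at h2 ⊢
    linarith only [w2, h2]
  have heps : (qq V n k).eps ≤ δ / 2 := by
    show (V.cl k : ℝ) ^ (ka V / 2) * (2 - V.sg n ^ ka V) ≤ δ / 2
    have h2 := hmono (p := ka V / 2) (by linarith only [hka])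
    have h3 : 0 ≤ V.sg n ^ ka V := Real.rpow_nonneg hsg _
    have h4 : (V.cl k : ℝ) ^ (ka V / 2) * (2 - V.sg n ^ ka V) ≤ (V.cl k : ℝ) ^ (ka V / 2) * 2 :=
      mul_le_mul_of_nonneg_left (by linarith only [h3]) (Real.rpow_nonneg hcl _)
    rw [← ka_eq] at w1
    linarith only [w1, h2, h4]
  have hrho : (qq V n k).rho ≤ δ / 2 := by
    show gr V (ka V / 4) n k ≤ δ / 2
    have h2 := (gr_bd V hth (p := ka V / 4) (by linarith only [hka]) n k).2
    rw [← ka_eq] at w3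
    linarith only [w3, h2]
  have htht : (qq V n k).tht ≤ δ / 2 := by
    show gr V (1 / 400) n k ≤ δ / 2
    have h2 := (gr_bd V hth (p := 1 / 400) (by norm_num) n k).2
    linarith only [w6, h2]
  refine ⟨by linarith only [hnn, heps], by linarith only [hnn, hrho], ?_, ?_, by linarith only [hδ, htht], ?_, ?_, ?_⟩
  · show gr V (1 / 20) n k ≤ δ
    have h2 := (gr_bd V hth (p := 1 / 20) (by norm_num) n k).2
    linarith only [w4, h2]
  · show (V.cl k : ℝ) ^ (1 / 8 : ℝ) ≤ δ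
    have h2 := hmono (p := 1 / 8) (by norm_num)
    linarith only [w5, h2]
  · show gr V (1 / 400) n k + (V.cl k : ℝ) ^ (1 / 16 : ℝ) ≤ δ
    have h2 := hmono (p := 1 / 16) (by norm_num)
    have h3 : gr V (1 / 400) n k ≤ δ / 2 := htht
    linarith only [w7, h2, h3]
  · have h2 := hKs (1 / 8 - 1 / 200) (by norm_num)
    show K * (V.cl k : ℝ) ^ (1 / 8 - 1 / 200 : ℝ) ≤ δ
    linarith only [w8, h2]
  · have h2 := hKs (1 / 16 - 1 / 100) (by norm_num)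
    show K * (V.cl k : ℝ) ^ (1 / 16 - 1 / 100 : ℝ) ≤ δ
    linarith only [w9, h2]

/-- the numbers of helper28 -/
theorem nm (d : ℕ) (a c C : ℝ) (hc : 0 < c) (hC : 1 ≤ C) :
    Ev2 d a es c C fun V => ∀ n k, Nm (toE V c C) (bud V) n k := by
  have h1 := ev_thr d a c C (cpd d) (min (1 / 8) (1 / (4 * C))) (lt_min (by norm_num)
    (by positivity))
  refine (((budOk d a c C hc hC).and h1).and ev_good).imp fun V hV n k => ?_
  obtain ⟨⟨hB, h1⟩, hG⟩ := hV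
  obtain ⟨h2, h3, _⟩ := h1 n k
  have m1 := min_le_left (1 / 8 : ℝ) (1 / (4 * C))
  have m2 := min_le_right (1 / 8 : ℝ) (1 / (4 * C))
  obtain ⟨q1, q2, q3, q4, q5⟩ := hB.q n k
  refine
    { th := ⟨th_pos hG.toPre, by exact_mod_cast hB.th.2⟩
      c0 := hB.c0
      e0 := hB.e0
      D := ⟨hB.D0, hB.D1⟩
      inc := hB.inc n k
      q := ⟨q4, q4.trans q5, q2⟩
      sm := ⟨?_, ?_, ?_⟩ }
  · show (qq V n k).eps + (bud V).nn n k * cpd d ≤ 1 / 8
    rw [mul_comm]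
    linarith only [h2, m1]
  · show (qq V n k).rho + (bud V).nn n k * cpd d ≤ 1 / 8
    rw [mul_comm]
    linarith only [h3, m1]
  · show (qq V n k).rho + (bud V).nn n k * cpd d ≤ (1 - (1 - 1 / (2 * C))) / 2
    have h4 : (1 - (1 - 1 / (2 * C))) / 2 = 1 / (4 * C) := by
      field_simp
      ring
    rw [mul_comm, h4]
    linarith only [h3, m2]

end Pool.Agent.QDU.H61
end
end -- Pool.Agent.Helper22_QDU.H61Zn
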