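import Pool.Agent.Helper12_MEB.B160
import Pool.Agent.Helper12_MEB.B169

/-!
# Merged copies (generated) of the modules

* `Pool.Agent.Helper72_AHH.RegDefs`
* `Pool.Agent.AHH.StmtsR`
* `Pool.Agent.Helper61_AHH.RegN`
* `Pool.Agent.Helper69_ABY.VTH`
* `Pool.Agent.Helper49_AGU.FormY`
* `Pool.Agent.Helper81_ABY.VRG`
* `Pool.Agent.Helper90_AHH.YReg`
* `Pool.Agent.Helper72_AHH.RegT`
* `Pool.Agent.Helper72_AHH.RegAll`
* `Pool.Agent.Helper89_FAR.Wgt`
* `Pool.Agent.Helper89_FAR.WgtS`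
* `Pool.Agent.Helper72_AHH.WtsT`
* `Pool.Agent.Helper42_AHH.Fin`
* `Pool.Agent.Helper96_AHH.Stp`
* `Pool.Agent.Helper96_AHH.FinT`
* `Pool.Agent.Helper22_QDU.H61RegN`
* `Pool.Agent.Helper22_QDU.H42Fin`
-/

set_option autoImplicit false

section -- Pool.Agent.Helper72_AHH.RegDefs

/-!
# AHH, row REG: statement
-/

set_option autoImplicit false

open scoped BigOperators NNReal Matrix

noncomputable section

namespace Pool.Agent.AHH

open Pool.Agent.BED (Tor)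
open Pool.Agent.AND2B (net kap)
open Pool.Agent.ANP (Cfg)

variable {d M : ℕ} [NeZero M]

/-- the weights for the regauging: literally the hypotheses of `AGU.GfiStmt` -/
def Wts (V : Env d M) (T : Cfg (Tor d M)) (run : Finset (Tor d M)) (s c N : ℝ) : Prop :=
  ∃ (e : Tor d M → Tor d M → ℝ) (B : Tor d M → Finset (Tor d M)), (∀ a b, 0 < e a b) ∧
    (∀ a, e a a = 1) ∧
    (∀ o ∈ run, ∀ a ∈ run, ∑ b ∈ run, s * ‖net V.E V.e₀ T a b‖ ^ 2 *
      (|1 - e o a / e o b| ⊔ |1 - e o b / e o a|) * gg T b ≤ c * gg T a) ∧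
    (∀ o, ((B o).card : ℝ) ≤ N) ∧ ∀ o, ∑ b ∈ run \ B o, e o b ^ 2 ≤ 1

/-- the numbers of REG: `q` before, `q'` after, `x = Cr (1 + log N) q.mis` -/
structure RegH (V : Env d M) (q q' : Num) (s x : ℝ) : Prop where
  s0 : 0 < s
  e0 : 0 < V.e₀
  D0 : 0 < V.D₀ ∧ V.D₀ ≤ V.D₁
  u0 : 0 ≤ V.u₀
  mis0 : 0 ≤ q.mis ∧ q.mis ≤ V.c₀ / 4
  del0 : q.del ≤ 1
  lam0 : 0 ≤ q.lam
  th0 : 0 ≤ q.tht ∧ q.tht ≤ 1 / 2
  ep0 : 0 ≤ q.eps ∧ q.eps ≤ 1
  rh0 : 0 ≤ q.rho ∧ q.rho ≤ 1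
  x1 : x ≤ 1
  gc : V.c₀ + q'.del ≤ V.m₀.im
  gC : ‖V.m₀‖ + q'.del ≤ V.C₀
  del : q.del + x ≤ q'.del
  mis : x ^ 2 ≤ q'.mis
  lam : (q.lam ^ (1 / 4 : ℝ) + x * s ^ (-(1 / 4) : ℝ)) ^ 4 ≤ q'.lam
  tht : q.tht + x ≤ q'.tht
  eps : q.eps + x ≤ q'.eps
  rho : q.rho + x ≤ q'.rho
  u1 : V.u₀ + q'.rho < 1

/-- REG: a good configuration is good after the change of the gauge, with a quadratic mismatch -/
def RegStmt : Prop :=
  ∀ c₀ C₀ : ℝ, 0 < c₀ → c₀ ≤ 1 → 1 ≤ C₀ → ∃ Cr : ℝ, 1 ≤ Cr ∧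
    ∀ (d M : ℕ) [NeZero M] (V : Env d M) (q q' : Num) (s N : ℝ) (T : Cfg (Tor d M))
      (run : Finset (Tor d M)), V.c₀ = c₀ → V.C₀ = C₀ → 1 ≤ N →
      RegH V q q' s (Cr * (1 + Real.log N) * q.mis) → StN V q s T run →
      (∀ x ∈ run, (T.s x : ℝ) = s) → (∀ x ∈ Al T, (V.G₀ x x).im ≤ C₀) →
      Wts V T run s (1 / 16) N → ∃ m, StN V q' s (T.rg m) run

end Pool.Agent.AHH
end
end -- Pool.Agent.Helper72_AHH.RegDefs

section -- Pool.Agent.AHH.StmtsR

/-!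
# AHH: the weights for the regauging (fields `fin` and `rfin`)

`Wts`, `RegH`, `RegStmt` are in `Helper72_AHH/RegDefs.lean`.
-/

set_option autoImplicit false

open scoped BigOperators NNReal Matrix

noncomputable section

namespace Pool.Agent.AHH

open Pool.Agent.BED (Tor)
open Pool.Agent.AND2B (net kap)
open Pool.Agent.ANP (Cfg Geo Fc)

/-- WTS: the weights for the regauging exist. `dd` the dead sites, by levels `j < n`; `s` the clock of the
running sites, all the clocks are at least `s`. Proof: the weighted Ward identity with a plateau function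
(constant across the bonds that touch a dead site), `e o b = exp (- β φ_o b)`, `β = c' s`, `c'` small; `B o` the ball
of radius `C s^(-2)`. -/
def WtsStmt : Prop :=
  ∀ (d : ℕ) (c₀ C₀ : ℝ), 3 ≤ d → 0 < c₀ → c₀ ≤ 1 → 1 ≤ C₀ → ∃ Cw : ℝ, 1 ≤ Cw ∧
    ∀ (V : AND2B.Env d) (U : Env d (2 ^ V.μ)), Monotone V.l → U.Γ = V.G → 0 < U.e₀ → U.c₀ = c₀ →
      U.C₀ = C₀ → ∀ (T : Cfg V.X) (run : Finset V.X) (s δ : ℝ) (n : ℕ)
      (dd : ℕ → Finset V.X), 0 < s → s ≤ 1 → (∀ x ∈ run, (T.s x : ℝ) = s) →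
      (∀ x, T.s x = 0 ∨ s ≤ T.s x) → Gb U T δ →
      (∀ x ∈ run, ‖net U.E U.e₀ T x x - T.mb x‖ ≤ c₀ / 4) →
      (∀ x, T.s x = 0 → ∃ j < n, x ∈ dd j) → (∀ j B, (dd j ∩ V.G.blk j B).card ≤ V.Dn j) →
      ∑ j ∈ Finset.range n, (3 ^ d * V.Dn j : ℝ) / 2 ^ V.l j ≤ 1 / 4 →
      2 + 4 * ∑ j ∈ Finset.range n, (3 ^ d * V.Dn j : ℝ) ≤ s ^ (-2 : ℝ) →
        Wts U T run s (1 / 16) (Cw * s ^ (-Cw))

end Pool.Agent.AHH
end
end -- Pool.Agent.AHH.StmtsR

section -- Pool.Agent.Helper61_AHH.RegN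

/-!
# AND2B (MP_1906c1_mp): the numbers of REG
-/

set_option autoImplicit false

open scoped BigOperators NNReal

noncomputable section

namespace Pool.Agent.AHH.H61

open Pool.Agent.BED (Tor)
open Pool.Agent.AND2B (Ev Fld)
open Pool.Agent.AND.Num
open Pool.Agent.AHH.H16 (BudOk)

/-- the six inequalities of one step -/
structure Stp (q q' : Num) (s x : ℝ) : Prop where
  x1 : x ≤ 1
  del : q.del + x ≤ q'.del
  mis : x ^ 2 ≤ q'.mis
  lam : (q.lam ^ (1 / 4 : ℝ) + x * s ^ (-(1 / 4) : ℝ)) ^ 4 ≤ q'.lam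
  tht : q.tht + x ≤ q'.tht
  eps : q.eps + x ≤ q'.eps
  rho : q.rho + x ≤ q'.rho

/-- the numbers at the end of a stage, before the change of the gauge; `r` the ratio of the weights -/
def q1f {d : ℕ} (V : AND2B.Env d) (r : ℝ) (n k : ℕ) : Num where
  del := (qq V n k).del + (bud V).inc n k * cpd d
  mis := (qq V n k).mis + (bud V).inc n k * cpd d
  lam := (qq V n k).lam * (1 + (bud V).inL n k * cpd d)
  tht := (bud V).thm n k + (bud V).inY n k * cpd d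
  eps := (qq V n k).eps * r + (bud V).nn n k * cpd d
  rho := (qq V n k).rho + (bud V).nn n k * cpd d

/-- the numbers at the end of a release phase, before the change of the gauge -/
def q1r {d : ℕ} (V : AND2B.Env d) (n : ℕ) : Num where
  del := (qq V n (V.kk (n + 1))).del + 2 * (bud V).icR n
  mis := (qq V n (V.kk (n + 1))).mis + 2 * (bud V).icR n
  lam := (qq V n (V.kk (n + 1))).lam * (1 + 2 * (bud V).lR n)
  tht := (qq V n (V.kk (n + 1))).tht + 2 * (bud V).yR n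
  eps := (qq V n (V.kk (n + 1))).eps + 2 * (bud V).nR n
  rho := (qq V n (V.kk (n + 1))).rho + 2 * (bud V).nR n

/-- what is needed of the numbers before the change of the gauge -/
structure Bse (c : ℝ) (q : Num) : Prop where
  mis0 : 0 ≤ q.mis ∧ q.mis ≤ c / 2 / 4
  del0 : q.del ≤ 1
  lam0 : 0 ≤ q.lam
  th0 : 0 ≤ q.tht ∧ q.tht ≤ 1 / 2
  ep0 : 0 ≤ q.eps ∧ q.eps ≤ 1
  rh0 : 0 ≤ q.rho ∧ q.rho ≤ 1

/-- the other conditions of `RegH` -/
theorem regH (d : ℕ) (a c C : ℝ) (hc : 0 < c) (hc2 : c ≤ 1 / 2) (hC : 1 ≤ C) :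
    Ev d a es c C fun V => ∀ (n k : ℕ) (q : Num) (s x : ℝ), 0 < s → Bse c q →
      Stp q (qq V n k) s x → RegH (toE V c C) q (qq V n k) s x := by
  have h1 := ev_thr d a c C 0 (min (c / 2) (1 / (4 * C))) (lt_min (by positivity)
    (by positivity))
  have h2 : Ev d a es c C fun V => ∀ s : ℝ, 0 < s → s ≤ V.w → s ≤ 1 :=
    ev_small (fun _ _ _ _ _ s => s ≤ 1) fun _ _ _ _ _ _ _ _ _ => small_le 1 one_pos
  refine ((h1.and h2).and ev_good).imp fun V hV n k q s x hs hb hS => ?_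
  obtain ⟨⟨h1, h2⟩, hG⟩ := hV
  have hP : V.Pre a := hG.toPre
  have hw := w_pos hP
  have hw1 := h2 V.w hw le_rfl
  obtain ⟨_, h3, h4, _⟩ := h1 n k
  have m1 := min_le_left (c / 2) (1 / (4 * C))
  have m2 := min_le_right (c / 2) (1 / (4 * C))
  have hC0 : 0 < C := by linarith only [hc, hc2, hC]
  obtain ⟨g1, g2⟩ := hG.st.toStart.hc
  have h5 : 1 / (2 * C) ≤ 1 := by
    rw [div_le_one (by positivity)]
    linarith only [hc, hc2, hC]
  refine
    { s0 := hs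
      e0 := hG.e0
      D0 := ⟨mul_pos hc (Real.rpow_pos_of_pos hw _), ?_⟩
      u0 := by
        show 0 ≤ 1 - 1 / (2 * C)
        linarith only [h5]
      mis0 := hb.mis0
      del0 := hb.del0
      lam0 := hb.lam0
      th0 := hb.th0
      ep0 := hb.ep0
      rh0 := hb.rh0
      x1 := hS.x1
      gc := ?_
      gC := ?_
      del := hS.del
      mis := hS.mis
      lam := hS.lam
      tht := hS.tht
      eps := hS.eps
      rho := hS.rho
      u1 := ?_ }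
  · show c * (V.w : ℝ) ^ (8 * es - 1) ≤ 4 * C ^ 3 / V.w
    rw [le_div_iff₀ hw, mul_assoc]
    have h6 : (V.w : ℝ) ^ (8 * es - 1) * V.w = (V.w : ℝ) ^ (8 * es) := by
      nth_rewrite 2 [← Real.rpow_one (V.w : ℝ)]
      rw [← Real.rpow_add hw]
      congr 1
      ring
    have h7 : (V.w : ℝ) ^ (8 * es) ≤ 1 := Real.rpow_le_one hw.le hw1 (by norm_num [es])
    rw [h6]
    have h8 : (1 : ℝ) ≤ C ^ 3 := one_le_pow₀ hC
    have h9 : 0 ≤ (V.w : ℝ) ^ (8 * es) := Real.rpow_nonneg hw.le _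
    nlinarith only [hc, hc2, h7, h8]
  · show c / 2 + (qq V n k).del ≤ V.m.im
    linarith only [h4, m1, g1]
  · show ‖V.m‖ + (qq V n k).del ≤ 2 * C
    linarith only [hc, hc2, hC, h4, m1, g2]
  · show 1 - 1 / (2 * C) + (qq V n k).rho < 1
    have h6 : 1 / (4 * C) < 1 / (2 * C) := by
      rw [div_lt_div_iff₀ (by positivity) (by positivity)]
      linarith only [hc, hc2, hC]
    have h7 : (qq V n k).rho ≤ 1 / (4 * C) := by linarith only [h3, m2]
    linarith only [h3, m2, h6]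

/-- the numbers before the change of the gauge are small: stages -/
theorem bse_f (d : ℕ) (a c C : ℝ) (hc : 0 < c) (hc2 : c ≤ 1 / 2) (hC : 1 ≤ C) :
    Ev d a es c C fun V => ∀ (r : ℝ) (n k : ℕ), 0 ≤ r → r ≤ 1 → n ≤ V.N → Bse c (q1f V r n k) := by
  have h1 := ev_thr d a c C (cpd d) (c / 16) (by positivity)
  refine ((budOk d a c C hc hC).and h1).imp fun V hV r n k hr hr1 hn => ?_
  obtain ⟨hB, h1⟩ := hV
  obtain ⟨t1, t2, t3, t4, t5, t6, t7, t8⟩ := h1 n k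
  obtain ⟨q1, q2, q3, q4, q5⟩ := hB.q n k
  obtain ⟨i1, i2, i3, i4⟩ := hB.inc n k
  have hcp : 0 ≤ cpd d := by
    have := one_le_cpd d
    linarith only [hc, hc2, this]
  have b1 : 0 ≤ (bud V).inc n k * cpd d := mul_nonneg i1 hcp
  have b2 : 0 ≤ (bud V).inL n k * cpd d := mul_nonneg i2 hcp
  have b3 : 0 ≤ (bud V).inY n k * cpd d := mul_nonneg i3 hcp
  have b4 : 0 ≤ (bud V).nn n k * cpd d := mul_nonneg i4 hcp
  have e1 : (bud V).inc n k * cpd d = cpd d * (bud V).inc n k := mul_comm _ _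
  have e3 : (bud V).inY n k * cpd d = cpd d * (bud V).inY n k := mul_comm _ _
  have e4 : (bud V).nn n k * cpd d = cpd d * (bud V).nn n k := mul_comm _ _
  have q1' : 0 ≤ (qq V n k).mis := q1
  have q2' : 0 ≤ (qq V n k).lam := q2
  have q3' : 0 ≤ (qq V n k).tht := q3
  have q4' : 0 ≤ (qq V n k).eps := q4
  have q5' : (qq V n k).eps ≤ (qq V n k).rho := q5
  have hthm : 0 ≤ (bud V).thm n k := by
    show 0 ≤ (qq V n k).tht + (V.cl k : ℝ) ^ (1 / 16 : ℝ)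
    have := Real.rpow_nonneg (NNReal.coe_nonneg (V.cl k)) (1 / 16 : ℝ)
    linarith only [q3', this]
  have h2 : (qq V n k).eps * r ≤ (qq V n k).eps := by nlinarith only [hc, hc2, hr1, q4']
  have h3 : 0 ≤ (qq V n k).eps * r := mul_nonneg q4' hr
  exact
    { mis0 := ⟨by
        show 0 ≤ (qq V n k).mis + (bud V).inc n k * cpd d
        linarith only [b1, q1'], by
        show (qq V n k).mis + (bud V).inc n k * cpd d ≤ c / 2 / 4
        linarith only [t4, t7]⟩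
      del0 := by
        show (qq V n k).del + (bud V).inc n k * cpd d ≤ 1
        linarith only [hc, hc2, t3, t7]
      lam0 := by
        show 0 ≤ (qq V n k).lam * (1 + (bud V).inL n k * cpd d)
        exact mul_nonneg q2' (by linarith only [hc, hc2, b2])
      th0 := ⟨by
        show 0 ≤ (bud V).thm n k + (bud V).inY n k * cpd d
        linarith only [b3, hthm], by
        show (bud V).thm n k + (bud V).inY n k * cpd d ≤ 1 / 2
        linarith only [hc, hc2, t6, t8]⟩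
      ep0 := ⟨by
        show 0 ≤ (qq V n k).eps * r + (bud V).nn n k * cpd d
        linarith only [b4, h3], by
        show (qq V n k).eps * r + (bud V).nn n k * cpd d ≤ 1
        linarith only [hc, hc2, t1, h2]⟩
      rh0 := ⟨by
        show 0 ≤ (qq V n k).rho + (bud V).nn n k * cpd d
        linarith only [b4, q4', q5'], by
        show (qq V n k).rho + (bud V).nn n k * cpd d ≤ 1
        linarith only [hc, hc2, t2]⟩ }

/-- the numbers before the change of the gauge are small: release phases -/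
theorem bse_r (d : ℕ) (a c C : ℝ) (hc : 0 < c) (hc2 : c ≤ 1 / 2) (hC : 1 ≤ C) :
    Ev d a es c C fun V => ∀ n : ℕ, Bse c (q1r V n) := by
  have h1 := ev_thr d a c C 0 (c / 16) (by positivity)
  have h2 : Ev d a es c C fun V => ∀ s : ℝ, 0 < s → s ≤ V.w →
      2 * s ^ (1 / 10 : ℝ) ≤ c / 16 * s ^ (0 : ℝ) ∧ 2 * s ^ (1 / 100 : ℝ) ≤ c / 16 * s ^ (0 : ℝ) :=
    ev_small (fun _ _ _ _ _ s => 2 * s ^ (1 / 10 : ℝ) ≤ c / 16 * s ^ (0 : ℝ) ∧
      2 * s ^ (1 / 100 : ℝ) ≤ c / 16 * s ^ (0 : ℝ)) fun _ _ _ _ _ _ _ _ _ =>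
        (small_pow' 2 (c / 16) _ _ (by positivity) (by norm_num)).and
          (small_pow' 2 (c / 16) _ _ (by positivity) (by norm_num))
  refine (((budOk d a c C hc hC).and h1).and (h2.and ev_good)).imp fun V hV n => ?_
  obtain ⟨⟨hB, h1⟩, h2, hG⟩ := hV
  have hP : V.Pre a := hG.toPre
  obtain ⟨t1, t2, t3, t4, t5, t6, t7, t8⟩ := h1 n (V.kk (n + 1))
  obtain ⟨q1, q2, q3, q4, q5⟩ := hB.q n (V.kk (n + 1))
  obtain ⟨i1, i2, i3, i4, _⟩ := hB.icR n
  obtain ⟨g1, g2⟩ := h2 (V.sg (n + 1)) (sg_pos hP _) (sg_le hP _)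
  rw [Real.rpow_zero] at g1 g2
  have i1' : 0 ≤ (bud V).icR n := i1
  have i2' : 0 ≤ (bud V).lR n := i2
  have i3' : 0 ≤ (bud V).yR n := i3
  have i4' : 0 ≤ (bud V).nR n := i4
  have j1 : 2 * (bud V).icR n ≤ c / 16 := by
    show 2 * V.sg (n + 1) ^ (1 / 10 : ℝ) ≤ c / 16
    linarith only [g1]
  have j3 : 2 * (bud V).yR n ≤ c / 16 := by
    show 2 * V.sg (n + 1) ^ (1 / 100 : ℝ) ≤ c / 16
    linarith only [g2]
  have j4 : 2 * (bud V).nR n ≤ c / 16 := by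
    show 2 * V.sg (n + 1) ^ (1 / 100 : ℝ) ≤ c / 16
    linarith only [g2]
  have q1' : 0 ≤ (qq V n (V.kk (n + 1))).mis := q1
  have q2' : 0 ≤ (qq V n (V.kk (n + 1))).lam := q2
  have q3' : 0 ≤ (qq V n (V.kk (n + 1))).tht := q3
  have q4' : 0 ≤ (qq V n (V.kk (n + 1))).eps := q4
  have q5' : (qq V n (V.kk (n + 1))).eps ≤ (qq V n (V.kk (n + 1))).rho := q5
  exact
    { mis0 := ⟨by
        show 0 ≤ (qq V n (V.kk (n + 1))).mis + 2 * (bud V).icR n
        linarith only [i1, q1'], by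
        show (qq V n (V.kk (n + 1))).mis + 2 * (bud V).icR n ≤ c / 2 / 4
        linarith only [t4, j1]⟩
      del0 := by
        show (qq V n (V.kk (n + 1))).del + 2 * (bud V).icR n ≤ 1
        linarith only [hc, hc2, t3, j1]
      lam0 := by
        show 0 ≤ (qq V n (V.kk (n + 1))).lam * (1 + 2 * (bud V).lR n)
        exact mul_nonneg q2' (by linarith only [hc, hc2, i2])
      th0 := ⟨by
        show 0 ≤ (qq V n (V.kk (n + 1))).tht + 2 * (bud V).yR n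
        linarith only [i3, q3'], by
        show (qq V n (V.kk (n + 1))).tht + 2 * (bud V).yR n ≤ 1 / 2
        linarith only [hc, hc2, t5, j3]⟩
      ep0 := ⟨by
        show 0 ≤ (qq V n (V.kk (n + 1))).eps + 2 * (bud V).nR n
        linarith only [i4, q4'], by
        show (qq V n (V.kk (n + 1))).eps + 2 * (bud V).nR n ≤ 1
        linarith only [hc, hc2, t1, j4]⟩
      rh0 := ⟨by
        show 0 ≤ (qq V n (V.kk (n + 1))).rho + 2 * (bud V).nR n
        linarith only [i4, q4', q5'], by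
        show (qq V n (V.kk (n + 1))).rho + 2 * (bud V).nR n ≤ 1
        linarith only [hc, hc2, t2, j4]⟩ }

/-- the ratio of the weights in a stage: `r = (1 + th) / 2` (condition `hr` of `fia`) -/
theorem ratio (d : ℕ) (a c C : ℝ) (hc : 0 < c) :
    Ev d a es c C fun V => ∀ k, k ≤ V.kk (V.N + 1) → ∀ g : ℝ, c / 2 ≤ g →
      V.e₀ + (V.cl (k + 1) : ℝ) * g ≤ (1 + (V.th : ℝ)) / 2 * (V.e₀ + (V.cl k : ℝ) * g) := by
  have h1 : Ev d a es c C fun V => V.e₀ ≤ c / 2 * V.sg (V.N + 1) := by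
    refine ev_e0 (fun V => c / 2 * V.sg (V.N + 1)) (fun V hV => ?_) (fun V e₀ m ζ => rfl)
    exact mul_pos (by positivity) (sg_pos hV _)
  refine (h1.and ev_good).imp fun V hV k hk g hg => ?_
  obtain ⟨h1, hG⟩ := hV
  have hP : V.Pre a := hG.toPre
  have h2 : (V.cl (k + 1) : ℝ) = V.th * V.cl k := by
    rw [cl_succ V k]
    push_cast
    rfl
  have h3 := sg_last hP hk
  have h4 : (V.th : ℝ) < 1 := by exact_mod_cast hP.th.2
  have h5 := cl_pos' hP k
  have h6 : c / 2 * V.sg (V.N + 1) ≤ g * V.cl k :=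
    mul_le_mul hg h3 (sg_pos hP _).le (by linarith only [hc, hg])
  rw [h2]
  have h7 : V.e₀ * (1 - (V.th : ℝ)) ≤ g * V.cl k * (1 - (V.th : ℝ)) :=
    mul_le_mul_of_nonneg_right (h1.trans h6) (by linarith only [h4])
  linarith only [h7]

/-- `Im G₀ x x ≤ 2 C` -/
theorem im_G0 (d : ℕ) (a c C : ℝ) (hC : 1 ≤ C) :
    Ev d a es c C fun V => ∀ x, ((toE V c C).G₀ x x).im ≤ (toE V c C).C₀ := by
  refine ev_good.imp fun V hG x => ?_
  show (LE.QD.rs (0 : Tor d (2 ^ V.μ) → ℝ) V.ζ x x).im ≤ 2 * C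
  have h1 := hG.st.toStart.hG x x
  have h2 := Complex.im_le_norm (LE.QD.rs (0 : Tor d (2 ^ V.μ) → ℝ) V.ζ x x)
  linarith

end Pool.Agent.AHH.H61
end
end -- Pool.Agent.Helper61_AHH.RegN

section -- Pool.Agent.Helper69_ABY.VTH

/-! Squad ABY, row VTH. -/

set_option autoImplicit false

open scoped BigOperators Matrix

noncomputable section

namespace Pool.Agent.ABY.H69

open Pool.Agent.LE.QF Pool.Agent.AFJ

theorem vir_zero {X : Type} [Fintype X] [DecidableEq X] {𝕜 : Type} [RCLike 𝕜]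
    (M : Matrix X X 𝕜) (w : X → ℝ) (a : X) :
    vir M 0 w a = ∑ b, M a b * ((w b : ℝ) : 𝕜) := by
  have h : dg 𝕜 (0 : X → ℝ) = 0 := by
    unfold dg
    ext i j
    simp [Matrix.diagonal]
  unfold vir TT
  rw [h, mul_zero, sub_zero, inv_one, Matrix.one_mulVec]
  rfl

theorem vth : VthStmt := by
  intro X _ _ G w g R θ h a ha
  have e0 : vir (KK G) 0 w a = ∑ b, KK G a b * w b := vir_zero (KK G) w a
  have e1 : vir (BB G) 0 w a = ∑ b, BB G a b * ((w b : ℝ) : ℂ) := vir_zero (BB G) w a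
  have h1 : ‖∑ b, BB G a b * ((w b : ℝ) : ℂ)‖ + ∑ b, KK G a b * w b ≤ (1 + θ) * g a := by
    have h0 := h a ha
    rw [e0, e1] at h0
    exact h0
  have h2 : (∑ b, BB G a b * ((w b : ℝ) : ℂ)).re ≤ ‖∑ b, BB G a b * ((w b : ℝ) : ℂ)‖ :=
    Complex.re_le_norm _
  have h3 : (∑ b, BB G a b * ((w b : ℝ) : ℂ)).re + ∑ b, KK G a b * w b =
      2 * ∑ b, w b * (G a b).re ^ 2 := by
    rw [Complex.re_sum, ← Finset.sum_add_distrib, Finset.mul_sum]
    refine Finset.sum_congr rfl fun b _ => ?_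
    have e1 : BB G a b = G a b ^ 2 := by
      simp [BB, pow_two]
    have e2 : KK G a b = (G a b).re ^ 2 + (G a b).im ^ 2 := by
      have : KK G a b = ‖G a b‖ ^ 2 := by simp [KK]
      rw [this, Complex.sq_norm, Complex.normSq_apply]
      ring
    rw [e1, e2, Complex.mul_re, Complex.ofReal_re, Complex.ofReal_im, pow_two (G a b),
      Complex.mul_re]
    ring
  linarith

end Pool.Agent.ABY.H69
end
end -- Pool.Agent.Helper69_ABY.VTH

section -- Pool.Agent.Helper49_AGU.FormY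

/-!
# AND2B: the form bound of `AGU.Run` from block Y (helper49)

`∑ conj(u a) s G_ab² u b` has the real part `s ∑ Re (conj(u a) u b) ((Re G_ab)² - (Im G_ab)²)`. The first
part is at most `(1 + θ) / 2 * |u|²` (VTH and the Schur test with the weights `g`), the second part is
`s ∑_(c, c') k_c k_c' |∑_b u_b G_cb G_c'b|² ≥ 0` by the Ward identity.
-/

set_option autoImplicit false
set_option linter.unusedSectionVars false

open scoped BigOperators Matrix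

noncomputable section

namespace Pool.Agent.AGU.H49

open Pool.Agent.AFJ (ind)

variable {X : Type} [Fintype X] [DecidableEq X]

/-- `Im G ∘ Im G` is positive semidefinite -/
theorem im_form {G : Matrix X X ℂ} {k : X → ℝ} (hWK : WK G k) (v : X → ℂ) :
    0 ≤ (∑ a, (starRingEnd ℂ) (v a) * ∑ b, (((G a b).im ^ 2 : ℝ) : ℂ) * v b).re := by
  have h1 : ∀ a b, (((G a b).im ^ 2 : ℝ) : ℂ) = ∑ c, ∑ c', (k c : ℂ) * (k c' : ℂ) *
      ((starRingEnd ℂ) (G c a) * (starRingEnd ℂ) (G c' a) * (G c b * G c' b)) := by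
    intro a b
    have h2 : (((G a b).im ^ 2 : ℝ) : ℂ) = (((G a b).im : ℝ) : ℂ) * (((G a b).im : ℝ) : ℂ) := by
      push_cast
      ring
    rw [h2, ← hWK.hw a b, Finset.sum_mul_sum]
    refine Finset.sum_congr rfl fun c _ => Finset.sum_congr rfl fun c' _ => ?_
    rw [hWK.hs a c, hWK.hs a c']
    ring
  have h3 : ∑ a, (starRingEnd ℂ) (v a) * ∑ b, (((G a b).im ^ 2 : ℝ) : ℂ) * v b =
      ∑ c, ∑ c', ((k c * k c' * ‖∑ b, G c b * G c' b * v b‖ ^ 2 : ℝ) : ℂ) := by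
    have h4 : ∀ c c', ((k c * k c' * ‖∑ b, G c b * G c' b * v b‖ ^ 2 : ℝ) : ℂ) =
        ∑ a, ∑ b, (starRingEnd ℂ) (v a) * ((k c : ℂ) * (k c' : ℂ) *
          ((starRingEnd ℂ) (G c a) * (starRingEnd ℂ) (G c' a) * (G c b * G c' b))) * v b := by
      intro c c'
      have h5 : ((‖∑ b, G c b * G c' b * v b‖ ^ 2 : ℝ) : ℂ) =
          (starRingEnd ℂ) (∑ b, G c b * G c' b * v b) * ∑ b, G c b * G c' b * v b := by
        rw [← Complex.normSq_eq_conj_mul_self, Complex.normSq_eq_norm_sq]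
      rw [Complex.ofReal_mul, h5, Complex.ofReal_mul, map_sum, Finset.sum_mul_sum,
        Finset.mul_sum]
      refine Finset.sum_congr rfl fun a _ => ?_
      rw [Finset.mul_sum]
      refine Finset.sum_congr rfl fun b _ => ?_
      rw [map_mul, map_mul]
      ring
    rw [Finset.sum_congr rfl fun c _ => Finset.sum_congr rfl fun c' _ => h4 c c']
    rw [Finset.sum_congr rfl fun c _ => Finset.sum_comm, Finset.sum_comm]
    refine Finset.sum_congr rfl fun a _ => ?_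
    rw [Finset.mul_sum]
    rw [Finset.sum_congr rfl fun c _ => Finset.sum_comm, Finset.sum_comm]
    refine Finset.sum_congr rfl fun b _ => ?_
    rw [h1 a b, Finset.sum_mul, Finset.mul_sum]
    refine Finset.sum_congr rfl fun c _ => ?_
    rw [Finset.sum_mul, Finset.mul_sum]
    refine Finset.sum_congr rfl fun c' _ => ?_
    ring
  rw [h3, Complex.re_sum]
  refine Finset.sum_nonneg fun c _ => ?_
  rw [Complex.re_sum]
  refine Finset.sum_nonneg fun c' _ => ?_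
  rw [Complex.ofReal_re]
  exact mul_nonneg (mul_nonneg (hWK.hk c).le (hWK.hk c').le) (sq_nonneg _)

/-- the Schur test for a symmetric kernel -/
theorem schur_test (R : Finset X) (A : X → X → ℝ) (hA : ∀ a b, 0 ≤ A a b)
    (hs : ∀ a b, A a b = A b a) (g : X → ℝ) (hg : ∀ a ∈ R, 0 < g a) (c : ℝ)
    (h : ∀ a ∈ R, ∑ b ∈ R, A a b * g b ≤ c * g a) (u : X → ℂ) :
    ∑ a ∈ R, ∑ b ∈ R, A a b * ((starRingEnd ℂ) (u a) * u b).re ≤ c * ∑ a ∈ R, ‖u a‖ ^ 2 := by
  have h1 : ∀ a ∈ R, ∀ b ∈ R, A a b * ((starRingEnd ℂ) (u a) * u b).re ≤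
      (1 / 2) * (A a b * g b * (‖u a‖ ^ 2 / g a)) + (1 / 2) * (A b a * g a * (‖u b‖ ^ 2 / g b)) := by
    intro a ha b hb
    have h2 : ((starRingEnd ℂ) (u a) * u b).re ≤ ‖u a‖ * ‖u b‖ := by
      refine (Complex.re_le_norm _).trans ?_
      rw [norm_mul, Complex.norm_conj]
    have hga := hg a ha
    have hgb := hg b hb
    have h3 : ‖u a‖ * ‖u b‖ ≤ (1 / 2) * (g b * (‖u a‖ ^ 2 / g a)) +
        (1 / 2) * (g a * (‖u b‖ ^ 2 / g b)) := by
      rw [show (1 / 2 : ℝ) * (g b * (‖u a‖ ^ 2 / g a)) + (1 / 2) * (g a * (‖u b‖ ^ 2 / g b)) =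
        ((g b * ‖u a‖) ^ 2 + (g a * ‖u b‖) ^ 2) / (2 * (g a * g b)) by field_simp,
        le_div_iff₀ (by positivity)]
      nlinarith only [sq_nonneg (g b * ‖u a‖ - g a * ‖u b‖)]
    have h4 := mul_le_mul_of_nonneg_left (h2.trans h3) (hA a b)
    rw [hs b a]
    linarith only [h4]
  refine (Finset.sum_le_sum fun a ha => Finset.sum_le_sum fun b hb => h1 a ha b hb).trans ?_
  have h5 : ∀ a ∈ R, ∑ b ∈ R, A a b * g b * (‖u a‖ ^ 2 / g a) ≤ c * ‖u a‖ ^ 2 := by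
    intro a ha
    rw [← Finset.sum_mul]
    have hga := hg a ha
    refine (mul_le_mul_of_nonneg_right (h a ha) (by positivity)).trans ?_
    rw [mul_assoc, mul_div_cancel₀ _ hga.ne']
  rw [Finset.sum_congr rfl fun a _ => Finset.sum_add_distrib, Finset.sum_add_distrib]
  have h6 : ∑ a ∈ R, ∑ b ∈ R, (1 / 2) * (A b a * g a * (‖u b‖ ^ 2 / g b)) =
      ∑ a ∈ R, ∑ b ∈ R, (1 / 2) * (A a b * g b * (‖u a‖ ^ 2 / g a)) := Finset.sum_comm
  rw [h6, ← two_mul]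
  have h7 : ∑ a ∈ R, ∑ b ∈ R, (1 / 2) * (A a b * g b * (‖u a‖ ^ 2 / g a)) ≤
      ∑ a ∈ R, (1 / 2) * (c * ‖u a‖ ^ 2) := by
    refine Finset.sum_le_sum fun a ha => ?_
    rw [← Finset.mul_sum]
    exact mul_le_mul_of_nonneg_left (h5 a ha) (by norm_num)
  rw [← Finset.mul_sum, ← Finset.mul_sum] at h7
  linarith only [h7]

/-- THE FORM BOUND -/
theorem formY {G : Matrix X X ℂ} {k g : X → ℝ} {R : Finset X} {s th : ℝ} (hWK : WK G k)
    (hs : 0 < s) (hg : ∀ a ∈ R, 0 < g a)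
    (hY : ABY.Yin G 0 (fun x => ind R x * (s * g x)) g R th) (u : X → ℂ) :
    (∑ a ∈ R, (starRingEnd ℂ) (u a) * ∑ b ∈ R, s * G a b ^ 2 * u b).re ≤
      (1 + th) / 2 * ∑ a ∈ R, ‖u a‖ ^ 2 := by
  have hv := ABY.H69.vth X G _ g R th hY
  have h1 : ∀ a ∈ R, ∑ b ∈ R, s * (G a b).re ^ 2 * g b ≤ (1 + th) / 2 * g a := by
    intro a ha
    refine le_trans (le_of_eq ?_) (hv a ha)
    rw [← Finset.sum_filter_add_sum_filter_not Finset.univ (fun b => b ∈ R)]
    have h2 : ∑ b ∈ Finset.univ.filter (fun b => b ∉ R), ind R b * (s * g b) * (G a b).re ^ 2 =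
        0 := by
      refine Finset.sum_eq_zero fun b hb => ?_
      rw [ind, if_neg (Finset.mem_filter.1 hb).2]
      ring
    rw [h2, add_zero, Finset.filter_mem_eq_inter, Finset.univ_inter]
    refine Finset.sum_congr rfl fun b hb => ?_
    rw [ind, if_pos hb]
    ring
  have h2 := schur_test R (fun a b => s * (G a b).re ^ 2) (fun a b => by positivity)
    (fun a b => by rw [hWK.hs a b]) g hg ((1 + th) / 2) h1 u
  -- the imaginary part
  obtain ⟨v, hv⟩ : ∃ v : X → ℂ, v = fun a => if a ∈ R then u a else 0 := ⟨_, rfl⟩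
  have h3 := im_form hWK v
  have h4 : (∑ a, (starRingEnd ℂ) (v a) * ∑ b, (((G a b).im ^ 2 : ℝ) : ℂ) * v b).re =
      ∑ a ∈ R, ∑ b ∈ R, (G a b).im ^ 2 * ((starRingEnd ℂ) (u a) * u b).re := by
    have h5 : ∀ a, ∑ b, (((G a b).im ^ 2 : ℝ) : ℂ) * v b =
        ∑ b ∈ R, (((G a b).im ^ 2 : ℝ) : ℂ) * u b := by
      intro a
      rw [← Finset.sum_subset (Finset.subset_univ R)]
      · refine Finset.sum_congr rfl fun b hb => ?_
        rw [hv]
        show _ * (if b ∈ R then u b else 0) = _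
        rw [if_pos hb]
      · intro b _ hb
        rw [hv]
        show _ * (if b ∈ R then u b else 0) = _
        rw [if_neg hb, mul_zero]
    rw [Finset.sum_congr rfl fun a _ => by rw [h5 a],
      ← Finset.sum_subset (Finset.subset_univ R)]
    · rw [Complex.re_sum]
      refine Finset.sum_congr rfl fun a ha => ?_
      rw [Finset.mul_sum, Complex.re_sum]
      refine Finset.sum_congr rfl fun b _ => ?_
      have h6 : v a = u a := by
        rw [hv]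
        exact if_pos ha
      rw [h6, mul_left_comm, Complex.re_ofReal_mul]
    · intro a _ ha
      have h6 : v a = 0 := by
        rw [hv]
        exact if_neg ha
      rw [h6, map_zero, zero_mul]
  rw [h4] at h3
  -- the decomposition
  have h7 : (∑ a ∈ R, (starRingEnd ℂ) (u a) * ∑ b ∈ R, s * G a b ^ 2 * u b).re =
      ∑ a ∈ R, ∑ b ∈ R, s * (G a b).re ^ 2 * ((starRingEnd ℂ) (u a) * u b).re -
        s * ∑ a ∈ R, ∑ b ∈ R, (G a b).im ^ 2 * ((starRingEnd ℂ) (u a) * u b).re := by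
    have h8 : ∀ a b, ((starRingEnd ℂ) (u a) * (s * G a b ^ 2 * u b)).re =
        s * (G a b).re ^ 2 * ((starRingEnd ℂ) (u a) * u b).re -
          s * ((G a b).im ^ 2 * ((starRingEnd ℂ) (u a) * u b).re) -
          2 * s * ((G a b).re * (G a b).im) * ((starRingEnd ℂ) (u a) * u b).im := by
      intro a b
      have e : (starRingEnd ℂ) (u a) * (s * G a b ^ 2 * u b) =
          ((s : ℝ) : ℂ) * (G a b ^ 2 * ((starRingEnd ℂ) (u a) * u b)) := by ring
      rw [e, Complex.re_ofReal_mul, Complex.mul_re, pow_two, Complex.mul_re, Complex.mul_im]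
      ring
    have h9 : ∑ a ∈ R, ∑ b ∈ R, 2 * s * ((G a b).re * (G a b).im) *
        ((starRingEnd ℂ) (u a) * u b).im = 0 := by
      have h10 : ∑ a ∈ R, ∑ b ∈ R, 2 * s * ((G a b).re * (G a b).im) *
          ((starRingEnd ℂ) (u a) * u b).im = -∑ a ∈ R, ∑ b ∈ R,
            2 * s * ((G a b).re * (G a b).im) * ((starRingEnd ℂ) (u a) * u b).im := by
        conv_rhs => rw [Finset.sum_comm]
        rw [← Finset.sum_neg_distrib]
        refine Finset.sum_congr rfl fun a _ => ?_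
        rw [← Finset.sum_neg_distrib]
        refine Finset.sum_congr rfl fun b _ => ?_
        have e1 : ((starRingEnd ℂ) (u b) * u a).im = -((starRingEnd ℂ) (u a) * u b).im := by
          rw [Complex.mul_im, Complex.mul_im, Complex.conj_re, Complex.conj_im, Complex.conj_re,
            Complex.conj_im]
          ring
        rw [e1, hWK.hs b a]
        ring
      linarith only [h10]
    rw [Complex.re_sum, Finset.mul_sum]
    have h11 : ∀ a ∈ R, ((starRingEnd ℂ) (u a) * ∑ b ∈ R, s * G a b ^ 2 * u b).re =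
        ∑ b ∈ R, s * (G a b).re ^ 2 * ((starRingEnd ℂ) (u a) * u b).re -
          s * ∑ b ∈ R, (G a b).im ^ 2 * ((starRingEnd ℂ) (u a) * u b).re -
          ∑ b ∈ R, 2 * s * ((G a b).re * (G a b).im) * ((starRingEnd ℂ) (u a) * u b).im := by
      intro a _
      rw [Finset.mul_sum, Complex.re_sum, Finset.sum_congr rfl fun b _ => h8 a b,
        Finset.sum_sub_distrib, Finset.sum_sub_distrib, Finset.mul_sum]
    rw [Finset.sum_congr rfl h11, Finset.sum_sub_distrib, Finset.sum_sub_distrib, h9, sub_zero]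
  rw [h7]
  have h12 := mul_nonneg hs.le h3
  have h13 : ∑ a ∈ R, ∑ b ∈ R, s * (G a b).re ^ 2 * ((starRingEnd ℂ) (u a) * u b).re ≤
      (1 + th) / 2 * ∑ a ∈ R, ‖u a‖ ^ 2 := h2
  linarith only [h2, h12]

end Pool.Agent.AGU.H49
end
end -- Pool.Agent.Helper49_AGU.FormY

section -- Pool.Agent.Helper81_ABY.VRG

/-!
# ABY / VRG (helper81): the change by a regauging or a release
-/

set_option autoImplicit false

open scoped BigOperators Matrix

noncomputable section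

namespace Pool.Agent.ABY.H81

open Pool.Agent.ABY

theorem vrg : VrgStmt := by
  intro X _ _ p p' k w w' δ γ d hδ hγ hd hw hw' h1 h2
  have hk : ∀ b, 0 ≤ k b := fun b => (hw b).1.trans (hw b).2
  -- Cauchy-Schwarz
  have hcs : ∑ b, k b * (‖p' b - p b‖ * ‖p b‖) ≤ δ * γ := by
    have h := Finset.sum_mul_sq_le_sq_mul_sq Finset.univ
      (fun b => Real.sqrt (k b) * ‖p' b - p b‖) (fun b => Real.sqrt (k b) * ‖p b‖)
    have e1 : ∑ b, (Real.sqrt (k b) * ‖p' b - p b‖) * (Real.sqrt (k b) * ‖p b‖) =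
        ∑ b, k b * (‖p' b - p b‖ * ‖p b‖) := by
      refine Finset.sum_congr rfl fun b _ => ?_
      calc (Real.sqrt (k b) * ‖p' b - p b‖) * (Real.sqrt (k b) * ‖p b‖) =
          (Real.sqrt (k b) * Real.sqrt (k b)) * (‖p' b - p b‖ * ‖p b‖) := by ring
        _ = _ := by rw [Real.mul_self_sqrt (hk b)]
    have e2 : ∑ b, (Real.sqrt (k b) * ‖p' b - p b‖) ^ 2 = ∑ b, k b * ‖p' b - p b‖ ^ 2 := by
      refine Finset.sum_congr rfl fun b _ => ?_
      rw [mul_pow, Real.sq_sqrt (hk b)]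
    have e3 : ∑ b, (Real.sqrt (k b) * ‖p b‖) ^ 2 = ∑ b, k b * ‖p b‖ ^ 2 := by
      refine Finset.sum_congr rfl fun b _ => ?_
      rw [mul_pow, Real.sq_sqrt (hk b)]
    rw [e1, e2, e3] at h
    have h3 : (∑ b, k b * (‖p' b - p b‖ * ‖p b‖)) ^ 2 ≤ (δ * γ) ^ 2 := by
      refine h.trans ?_
      rw [mul_pow]
      exact mul_le_mul h1 h2 (Finset.sum_nonneg fun b _ => mul_nonneg (hk b) (sq_nonneg _))
        (sq_nonneg _)
    exact abs_le_of_sq_le_sq' h3 (mul_nonneg hδ hγ) |>.2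
  -- Minkowski
  have hmk : ∑ b, k b * ‖p' b‖ ^ 2 ≤ (γ + δ) ^ 2 := by
    have : ∀ b, k b * ‖p' b‖ ^ 2 ≤ k b * ‖p b‖ ^ 2 + 2 * (k b * (‖p' b - p b‖ * ‖p b‖)) +
        k b * ‖p' b - p b‖ ^ 2 := by
      intro b
      have h3 : ‖p' b‖ ≤ ‖p b‖ + ‖p' b - p b‖ := by
        have := norm_add_le (p b) (p' b - p b)
        rwa [add_sub_cancel] at this
      have h4 : ‖p' b‖ ^ 2 ≤ (‖p b‖ + ‖p' b - p b‖) ^ 2 :=
        pow_le_pow_left₀ (norm_nonneg _) h3 2
      have := mul_le_mul_of_nonneg_left h4 (hk b)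
      nlinarith only [this]
    calc ∑ b, k b * ‖p' b‖ ^ 2 ≤ ∑ b, (k b * ‖p b‖ ^ 2 +
          2 * (k b * (‖p' b - p b‖ * ‖p b‖)) + k b * ‖p' b - p b‖ ^ 2) :=
          Finset.sum_le_sum fun b _ => this b
      _ = ∑ b, k b * ‖p b‖ ^ 2 + 2 * ∑ b, k b * (‖p' b - p b‖ * ‖p b‖) +
          ∑ b, k b * ‖p' b - p b‖ ^ 2 := by
          rw [Finset.sum_add_distrib, Finset.sum_add_distrib, ← Finset.mul_sum]
      _ ≤ (γ + δ) ^ 2 := by nlinarith only [h1, h2, hcs]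
  -- the common bound
  have hcommon : ∑ b, (d * (k b * ‖p' b‖ ^ 2) + (2 * (k b * (‖p' b - p b‖ * ‖p b‖)) +
      k b * ‖p' b - p b‖ ^ 2)) ≤ (2 * δ * γ + δ ^ 2) + d * (γ + δ) ^ 2 := by
    rw [Finset.sum_add_distrib, Finset.sum_add_distrib, ← Finset.mul_sum, ← Finset.mul_sum]
    have := mul_le_mul_of_nonneg_left hmk hd
    nlinarith only [h1, hcs, this]
  have hA : |‖∑ b, (w' b : ℂ) * p' b ^ 2‖ - ‖∑ b, (w b : ℂ) * p b ^ 2‖| ≤
      (2 * δ * γ + δ ^ 2) + d * (γ + δ) ^ 2 := by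
    refine (abs_norm_sub_norm_le _ _).trans ?_
    rw [← Finset.sum_sub_distrib]
    refine (norm_sum_le _ _).trans ((Finset.sum_le_sum fun b _ => ?_).trans hcommon)
    have e : (w' b : ℂ) * p' b ^ 2 - (w b : ℂ) * p b ^ 2 =
        ((w' b - w b : ℝ) : ℂ) * p' b ^ 2 + (w b : ℂ) * ((p' b - p b) * (2 * p b + (p' b - p b))) := by
      push_cast; ring
    rw [e]
    refine (norm_add_le _ _).trans (add_le_add ?_ ?_)
    · rw [norm_mul, norm_pow, Complex.norm_real, Real.norm_eq_abs]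
      calc |w' b - w b| * ‖p' b‖ ^ 2 ≤ d * k b * ‖p' b‖ ^ 2 :=
            mul_le_mul_of_nonneg_right (hw' b) (sq_nonneg _)
        _ = d * (k b * ‖p' b‖ ^ 2) := by ring
    · rw [norm_mul, norm_mul, Complex.norm_real, Real.norm_of_nonneg (hw b).1]
      have h3 : ‖2 * p b + (p' b - p b)‖ ≤ 2 * ‖p b‖ + ‖p' b - p b‖ := by
        refine (norm_add_le _ _).trans ?_
        rw [norm_mul]
        simp
      calc w b * (‖p' b - p b‖ * ‖2 * p b + (p' b - p b)‖) ≤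
            k b * (‖p' b - p b‖ * (2 * ‖p b‖ + ‖p' b - p b‖)) :=
            mul_le_mul (hw b).2 (mul_le_mul_of_nonneg_left h3 (norm_nonneg _))
              (mul_nonneg (norm_nonneg _) (norm_nonneg _)) (hk b)
        _ = _ := by ring
  have hB : |∑ b, w' b * ‖p' b‖ ^ 2 - ∑ b, w b * ‖p b‖ ^ 2| ≤
      (2 * δ * γ + δ ^ 2) + d * (γ + δ) ^ 2 := by
    rw [← Finset.sum_sub_distrib]
    refine (Finset.abs_sum_le_sum_abs _ _).trans ((Finset.sum_le_sum fun b _ => ?_).trans hcommon)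
    have e : w' b * ‖p' b‖ ^ 2 - w b * ‖p b‖ ^ 2 =
        (w' b - w b) * ‖p' b‖ ^ 2 + w b * ((‖p' b‖ - ‖p b‖) * (‖p' b‖ + ‖p b‖)) := by ring
    rw [e]
    refine (abs_add_le _ _).trans (add_le_add ?_ ?_)
    · rw [abs_mul, abs_of_nonneg (sq_nonneg ‖p' b‖)]
      calc |w' b - w b| * ‖p' b‖ ^ 2 ≤ d * k b * ‖p' b‖ ^ 2 :=
            mul_le_mul_of_nonneg_right (hw' b) (sq_nonneg _)
        _ = d * (k b * ‖p' b‖ ^ 2) := by ring
    · rw [abs_mul, abs_mul, abs_of_nonneg (hw b).1]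
      have h3 : |‖p' b‖ - ‖p b‖| ≤ ‖p' b - p b‖ := abs_norm_sub_norm_le _ _
      have h4 : |‖p' b‖ + ‖p b‖| ≤ 2 * ‖p b‖ + ‖p' b - p b‖ := by
        rw [abs_of_nonneg (by positivity)]
        have := norm_add_le (p b) (p' b - p b)
        rw [add_sub_cancel] at this
        linarith only [this]
      calc w b * (|‖p' b‖ - ‖p b‖| * |‖p' b‖ + ‖p b‖|) ≤
            k b * (‖p' b - p b‖ * (2 * ‖p b‖ + ‖p' b - p b‖)) :=
            mul_le_mul (hw b).2 (mul_le_mul h3 h4 (abs_nonneg _) (norm_nonneg _))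
              (mul_nonneg (abs_nonneg _) (abs_nonneg _)) (hk b)
        _ = _ := by ring
  linarith

end Pool.Agent.ABY.H81
end
end -- Pool.Agent.Helper81_ABY.VRG

section -- Pool.Agent.Helper90_AHH.YReg

/-!
# Block Y under a change of the gauge
-/

set_option autoImplicit false

open scoped BigOperators Matrix

noncomputable section

namespace Pool.Agent.AHH.H90

open Pool.Agent.AFJ (ind)
open Pool.Agent.LE.QF (BB KK)

/-- the threshold of block Y after a change of the gauge -/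
theorem yreg {X : Type} [Fintype X] [DecidableEq X] {G G' : Matrix X X ℂ} {k k' : X → ℝ}
    {z dl : X → ℂ} {d s c0 C0 Cg th e : ℝ} {g : X → ℝ} {R : Finset X}
    (hC : AGU.Chg G G' k k' z d) (hs : 0 < s) (hc : 0 < c0 ∧ 1 ≤ C0)
    (_hz : ∀ a, z a = s * dl a) (he : ∀ a, ‖dl a‖ ≤ e) (hde : e ≤ c0 / 4)
    (hg : ∀ a ∈ R, c0 ≤ g a ∧ g a ≤ C0 ∧ s * g a ≤ k a ∧ (G a a).im ≤ Cg)
    (hY : ABY.Yin G 0 (fun x => ind R x * (s * g x)) g R th) (hth : 0 ≤ th ∧ th ≤ 1) :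
    ABY.Yin G' 0 (fun x => ind R x * (s * (g x + (dl x).im))) (fun x => g x + (dl x).im) R
      (th + (14 * Cg / c0 + 6 * Cg / c0 ^ 2 + 3 / c0) * (d + e)) := by
  intro a ha
  have hc0 := hc.1
  obtain ⟨hd0, hd1⟩ := hC.hd
  have he0 : 0 ≤ e := (norm_nonneg _).trans (he a)
  obtain ⟨hga, -, -, hCa⟩ := hg a ha
  obtain ⟨g1, -⟩ := AGU.H99.gwb X G k hC.h0
  obtain ⟨-, -, g3, -⟩ := AGU.H10.gpb AGU.H99.gwb X G G' k k' z d hC
  have hIm0 : 0 ≤ (G a a).im := by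
    rw [← g1 a]
    exact Finset.sum_nonneg fun b _ => mul_nonneg (hC.h0.hk b).le (by positivity)
  have hCg : 0 ≤ Cg := hIm0.trans hCa
  have hγ := Real.sqrt_nonneg Cg
  have hγ2 := Real.sq_sqrt hCg
  set γ : ℝ := Real.sqrt Cg with hγdef
  have hw : ∀ b, 0 ≤ ind R b * (s * g b) ∧ ind R b * (s * g b) ≤ k b := by
    intro b
    unfold ind
    split_ifs with h
    · obtain ⟨h1, -, h3, -⟩ := hg b h
      constructor
      · have : 0 < g b := lt_of_lt_of_le hc0 h1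
        positivity
      · rw [one_mul]
        exact h3
    · rw [zero_mul]
      exact ⟨le_rfl, (hC.h0.hk b).le⟩
  have hw' : ∀ b, |ind R b * (s * (g b + (dl b).im)) - ind R b * (s * g b)| ≤ e / c0 * k b := by
    intro b
    unfold ind
    split_ifs with h
    · obtain ⟨h1, -, h3, -⟩ := hg b h
      have e1 : 1 * (s * (g b + (dl b).im)) - 1 * (s * g b) = s * (dl b).im := by ring
      rw [e1, abs_mul, abs_of_pos hs]
      have h4 : |(dl b).im| ≤ e := (Complex.abs_im_le_norm _).trans (he b)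
      rw [div_mul_eq_mul_div, le_div_iff₀ hc0]
      have h5 : s * c0 ≤ k b := (mul_le_mul_of_nonneg_left h1 hs.le).trans h3
      calc s * |(dl b).im| * c0 = |(dl b).im| * (s * c0) := by ring
        _ ≤ e * k b := mul_le_mul h4 h5 (by positivity) he0
    · rw [zero_mul, zero_mul, sub_zero, abs_zero]
      have := (hC.h0.hk b).le
      positivity
  have h1 : ∑ b, k b * ‖G' a b - G a b‖ ^ 2 ≤ (2 * d * γ) ^ 2 := by
    have h2 := g3 a
    have h3 : ∑ b, k b * ‖G' a b - G a b‖ ^ 2 = ∑ b, k b * ‖G' b a - G b a‖ ^ 2 := by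
      refine Finset.sum_congr rfl fun b _ => ?_
      rw [hC.h1.hs a b, hC.h0.hs a b]
    rw [h3]
    refine h2.trans ?_
    have h4 : d ^ 2 * (G a a).im ≤ d ^ 2 * Cg := mul_le_mul_of_nonneg_left hCa (sq_nonneg d)
    have h5 : 0 ≤ d ^ 2 * Cg := by positivity
    calc 2 * d ^ 2 * (G a a).im = 2 * (d ^ 2 * (G a a).im) := by ring
      _ ≤ 4 * (d ^ 2 * Cg) := by linarith only [h4, h5]
      _ = (2 * d * γ) ^ 2 := by rw [← hγ2]; ring
  have h2 : ∑ b, k b * ‖G a b‖ ^ 2 ≤ γ ^ 2 := by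
    rw [g1 a, hγ2]
    exact hCa
  have hvrg := ABY.H81.vrg X (fun b => G a b) (fun b => G' a b) k
    (fun x => ind R x * (s * g x)) (fun x => ind R x * (s * (g x + (dl x).im)))
    (2 * d * γ) γ (e / c0) (by positivity) hγ (by positivity) hw hw' h1 h2
  have hv : ∀ (G : Matrix X X ℂ) (w : X → ℝ),
      ABY.vir (BB G) 0 w a = ∑ b, ((w b : ℝ) : ℂ) * G a b ^ 2 := by
    intro G w
    rw [ABY.H44.vir_zero]
    refine Finset.sum_congr rfl fun b _ => ?_
    unfold BB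
    rw [mul_comm]
    rfl
  have hv2 : ∀ (G : Matrix X X ℂ) (w : X → ℝ),
      ABY.vir (KK G) 0 w a = ∑ b, w b * ‖G a b‖ ^ 2 := by
    intro G w
    rw [ABY.H44.vir_zero]
    refine Finset.sum_congr rfl fun b _ => ?_
    unfold KK
    rw [mul_comm]
    rfl
  have hYa := hY a ha
  simp only [hv, hv2] at hYa ⊢
  have hvrg' : |‖∑ b, ((ind R b * (s * (g b + (dl b).im)) : ℝ) : ℂ) * G' a b ^ 2‖ -
      ‖∑ b, ((ind R b * (s * g b) : ℝ) : ℂ) * G a b ^ 2‖| +
      |∑ b, ind R b * (s * (g b + (dl b).im)) * ‖G' a b‖ ^ 2 -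
        ∑ b, ind R b * (s * g b) * ‖G a b‖ ^ 2| ≤
      2 * (2 * (2 * d * γ) * γ + (2 * d * γ) ^ 2) + 2 * (e / c0) * (γ + 2 * d * γ) ^ 2 := hvrg
  have v2 := le_abs_self (‖∑ b, ((ind R b * (s * (g b + (dl b).im)) : ℝ) : ℂ) * G' a b ^ 2‖ -
    ‖∑ b, ((ind R b * (s * g b) : ℝ) : ℂ) * G a b ^ 2‖)
  have v3 := le_abs_self (∑ b, ind R b * (s * (g b + (dl b).im)) * ‖G' a b‖ ^ 2 -
    ∑ b, ind R b * (s * g b) * ‖G a b‖ ^ 2)
  -- the numbers
  have hda : |(dl a).im| ≤ e := (Complex.abs_im_le_norm _).trans (he a)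
  obtain ⟨hda1, hda2⟩ := abs_le.1 hda
  have hgd : 3 / 4 * c0 ≤ g a + (dl a).im := by linarith only [hde, hga, hda1]
  have hq : 2 * (2 * (2 * d * γ) * γ + (2 * d * γ) ^ 2) + 2 * (e / c0) * (γ + 2 * d * γ) ^ 2 ≤
      10 * d * Cg + 9 / 2 * (e / c0) * Cg := by
    have e1 : 2 * (2 * (2 * d * γ) * γ + (2 * d * γ) ^ 2) + 2 * (e / c0) * (γ + 2 * d * γ) ^ 2 =
        (8 * d + 8 * d ^ 2) * γ ^ 2 + 2 * (e / c0) * ((1 + 2 * d) ^ 2 * γ ^ 2) := by ring
    rw [e1, hγ2]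
    have e2 : 8 * d + 8 * d ^ 2 ≤ 10 * d := by nlinarith only [hd0, hd1]
    have e3 : (1 + 2 * d) ^ 2 ≤ 9 / 4 := by nlinarith only [hd1, e2]
    have e4 : 0 ≤ e / c0 := by positivity
    have e5 := mul_le_mul_of_nonneg_right e2 hCg
    have e6 := mul_le_mul_of_nonneg_left (mul_le_mul_of_nonneg_right e3 hCg) e4
    nlinarith only [e5, e6]
  have hfin : (1 + th) * g a + (10 * d * Cg + 9 / 2 * (e / c0) * Cg) ≤
      (1 + (th + (14 * Cg / c0 + 6 * Cg / c0 ^ 2 + 3 / c0) * (d + e))) * (g a + (dl a).im) := by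
    have e1 : (1 + th) * g a ≤ (1 + th) * (g a + (dl a).im) + 2 * e := by
      nlinarith only [hth.1, hth.2, he0, hda1]
    obtain ⟨K, hK⟩ : ∃ K : ℝ, K = 14 * Cg / c0 + 6 * Cg / c0 ^ 2 + 3 / c0 := ⟨_, rfl⟩
    have hK0 : 0 ≤ K := by rw [hK]; positivity
    have e2 : 10 * d * Cg + 9 / 2 * (e / c0) * Cg + 2 * e ≤ K * (d + e) * (3 / 4 * c0) := by
      have f1 : K * (d + e) * (3 / 4 * c0) = (d + e) * (21 / 2 * Cg + 9 / 2 * (Cg / c0) + 9 / 4) := by
        rw [hK]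
        field_simp
        ring
      rw [f1]
      have f2 : 9 / 2 * (e / c0) * Cg = 9 / 2 * (e * (Cg / c0)) := by ring
      rw [f2]
      have f3 : 0 ≤ Cg / c0 := by positivity
      nlinarith only [mul_nonneg hd0 hCg, mul_nonneg he0 hCg, mul_nonneg hd0 f3, mul_nonneg he0 f3, hd0, he0, hCg, f3]
    have e3 : K * (d + e) * (3 / 4 * c0) ≤ K * (d + e) * (g a + (dl a).im) :=
      mul_le_mul_of_nonneg_left hgd (by positivity)
    rw [← hK]
    nlinarith only [e1, e2, e3]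
  linarith only [hvrg, hYa, v2, v3, hq, hfin]

end Pool.Agent.AHH.H90
end
end -- Pool.Agent.Helper90_AHH.YReg

section -- Pool.Agent.Helper72_AHH.RegT

/-!
# AHH, row REG: proof
-/

set_option autoImplicit false

open scoped BigOperators NNReal Matrix ComplexConjugate

noncomputable section

namespace Pool.Agent.AHH.H72

open Pool.Agent.ANR (Gr Net)
open Pool.Agent.AGU (WK Chg GpbStmt GhoStmt Run)
open Pool.Agent.BED (Tor)
open Pool.Agent.LE.QF (BB KK)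
open Pool.Agent.AND2B (net kap Vef Hr res)
open Pool.Agent.ANP (Cfg)
open Pool.Agent.AFJ (ind LaR EE)
open Pool.Agent.ABY (vir Yin)

/-- the constant of block Y -/
def KY (c₀ _C₀ Cg : ℝ) : ℝ := 14 * Cg / c₀ + 6 * Cg / c₀ ^ 2 + 3 / c₀

theorem yregStmt : YregStmt KY := by
  intro X _ _ G G' k k' z dl d s c₀ C₀ Cg th e g R hC hs hc₀ hC₀ hz he hde hg hY hth hth1
  have h := Pool.Agent.AHH.H90.yreg hC hs ⟨hc₀, hC₀⟩ hz he hde hg hY ⟨hth, hth1⟩
  exact h

/-- the numbers -/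
theorem regN {d M : ℕ} [NeZero M] {V : Env d M} {q q' : AHH.Num} {s C₁ ℓ Cr : ℝ}
    (hc : 0 < V.c₀) (hc1 : V.c₀ ≤ 1) (hC : 1 ≤ V.C₀) (hC₁ : 1 ≤ C₁) (hℓ : 1 ≤ ℓ)
    (hCr : Cr = C₁ / V.c₀ * (100 + 2 * (V.C₀ + 1) + 2 * KY V.c₀ V.C₀ (V.C₀ + 1) +
      4 * (V.C₀ + 1) ^ 3 / V.c₀))
    (h : RegH V q q' s (Cr * ℓ * q.mis)) :
    RegN V q q' s (V.C₀ + 1) (KY V.c₀ V.C₀ (V.C₀ + 1)) (C₁ * ℓ) (C₁ * ℓ * q.mis / V.c₀)
      (q.lam ^ (1 / 4 : ℝ)) (Cr * ℓ * q.mis * s ^ (-(1 / 4) : ℝ)) := by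
  have hK : 0 ≤ KY V.c₀ V.C₀ (V.C₀ + 1) := by
    unfold KY
    positivity
  obtain ⟨D, hD⟩ : ∃ D, D = C₁ * ℓ * q.mis / V.c₀ := ⟨_, rfl⟩
  have hm := h.mis0.1
  have hD0 : 0 ≤ D := by rw [hD]; positivity
  have hx : Cr * ℓ * q.mis = D * (100 + 2 * (V.C₀ + 1) + 2 * KY V.c₀ V.C₀ (V.C₀ + 1) +
      4 * (V.C₀ + 1) ^ 3 / V.c₀) := by
    rw [hCr, hD]
    ring
  have hq : 0 ≤ 4 * (V.C₀ + 1) ^ 3 / V.c₀ := by positivity
  have e1 : 100 * D ≤ Cr * ℓ * q.mis := by rw [hx]; nlinarith only [mul_nonneg hD0 hK, mul_nonneg hD0 hq, hC, hK, hD0, hq]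
  have e2 : 2 * D * (V.C₀ + 1) ≤ Cr * ℓ * q.mis := by
    rw [hx]; nlinarith only [mul_nonneg hD0 hK, mul_nonneg hD0 hq, hK, hD0, hq]
  have e3 : KY V.c₀ V.C₀ (V.C₀ + 1) * (2 * D) ≤ Cr * ℓ * q.mis := by
    rw [hx]
    have : 0 ≤ D * (100 + 2 * (V.C₀ + 1)) := by positivity
    nlinarith only [mul_nonneg hD0 hK, mul_nonneg hD0 hq, this]
  have e4 : C₁ * ℓ * q.mis ≤ Cr * ℓ * q.mis := by
    have : C₁ * ℓ * q.mis = D * V.c₀ := by rw [hD]; field_simp
    rw [this]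
    have := mul_le_mul_of_nonneg_left hc1 hD0
    linarith only [hD0, e1, this]
  rw [← hD]
  refine ⟨h.s0, h.e0, ⟨hc, hc1⟩, hC, h.D0, h.u0, by linarith only [hC], by nlinarith only [hC₁, hℓ], hm, hD,
    by linarith only [h.x1, e1], ⟨h.th0.1, by linarith only [h.th0.2]⟩, h.ep0, h.rh0, h.gc, h.gC,
    by linarith only [h.del, e2], ?_, ⟨Real.rpow_nonneg h.lam0 _, ?_⟩, ⟨?_, ?_, h.lam⟩,
    by linarith only [h.tht, e3], hK, by linarith only [h.eps, hD0, e1], by linarith only [h.rho, hD0, e1], h.u1⟩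
  · refine (pow_le_pow_left₀ (by positivity) e4 2).trans h.mis
  · have := Real.rpow_nonneg h.s0.le (-(1 / 4) : ℝ)
    have : 0 ≤ Cr * ℓ * q.mis := by linarith only [hD0, e1]
    positivity
  · rw [← Real.rpow_natCast, ← Real.rpow_mul h.lam0]
    norm_num
  · have e5 : (s ^ (-(1 / 4) : ℝ)) ^ 4 = 1 / s := by
      rw [← Real.rpow_natCast, ← Real.rpow_mul h.s0.le]
      norm_num
      rw [Real.rpow_neg_one]
    rw [mul_pow, e5, mul_one_div]
    have hs0 := h.s0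
    have e6 : 4 * D ^ 4 * (V.C₀ + 1) ^ 2 * (V.C₀ + 1) / (s * V.c₀) =
        (4 * (V.C₀ + 1) ^ 3 / V.c₀) * D ^ 4 / s := by
      field_simp
    rw [e6]
    refine div_le_div_of_nonneg_right ?_ hs0.le
    obtain ⟨y, hy⟩ : ∃ y, y = 4 * (V.C₀ + 1) ^ 3 / V.c₀ := ⟨_, rfl⟩
    rw [← hy] at hq hx ⊢
    have e7 : D * (1 + y) ≤ Cr * ℓ * q.mis := by
      rw [hx]
      refine mul_le_mul_of_nonneg_left ?_ hD0
      linarith only [hC, hK]
    have e8 : y ≤ (1 + y) ^ 4 := by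
      have := one_add_mul_le_pow (show (-2 : ℝ) ≤ y by linarith only [hq]) 4
      push_cast at this
      linarith only [hq, this]
    calc y * D ^ 4 ≤ (1 + y) ^ 4 * D ^ 4 := mul_le_mul_of_nonneg_right e8 (by positivity)
      _ = (D * (1 + y)) ^ 4 := by ring
      _ ≤ _ := pow_le_pow_left₀ (by positivity) e7 4

/-- REG -/
theorem reg (hGPA : GpaStmt) : RegStmt := by
  intro c₀ C₀ hc hc1 hC
  obtain ⟨C₁, hC₁, hG⟩ := gfi' Pool.Agent.AGU.H19.gnw
    (Pool.Agent.AGU.H10.gpb Pool.Agent.AGU.H99.gwb) (1 / 4) c₀ C₀ (by norm_num) hc hC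
  have hK : 0 ≤ KY c₀ C₀ (C₀ + 1) := by
    unfold KY
    positivity
  refine ⟨C₁ / c₀ * (100 + 2 * (C₀ + 1) + 2 * KY c₀ C₀ (C₀ + 1) + 4 * (C₀ + 1) ^ 3 / c₀), ?_, ?_⟩
  · have h1 : 1 ≤ C₁ / c₀ := by
      rw [le_div_iff₀ hc]
      linarith
    have h2 : 0 ≤ 4 * (C₀ + 1) ^ 3 / c₀ := by positivity
    nlinarith only [hC, hK, h1, h2]
  intro d M _ V q q' s N T run hVc hVC hN1 hR hSt hs hG₀ hW
  subst hVc hVC
  obtain ⟨e, B, w1, w2, w3, w4, w5⟩ := hW
  have hlog : 0 ≤ Real.log N := Real.log_nonneg hN1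
  have hgg : ∀ x ∈ Al T, V.c₀ ≤ gg T x := fun x hx => (hSt.gau x hx).1
  have hkpos : ∀ x, 0 < kap V.e₀ T x := by
    intro x
    unfold kap
    by_cases hx : x ∈ Al T
    · have h1 := hgg x hx
      unfold gg at h1
      have h2 : 0 ≤ (T.s x : ℝ) * (T.mb x).im := mul_nonneg (NNReal.coe_nonneg _) (by linarith)
      linarith [hR.e0]
    · have h3 : T.s x = 0 := by
        by_contra h0
        apply hx
        rw [Al, Finset.mem_filter]
        exact ⟨Finset.mem_univ _, pos_iff_ne_zero.2 h0⟩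
      rw [h3]
      simpa using hR.e0
  have hkrun : ∀ x ∈ run, s * (T.mb x).im ≤ kap V.e₀ T x := by
    intro x hx
    unfold kap
    rw [hs x hx]
    linarith [hR.e0]
  have hWK := wk_net (E := V.E) hkpos
  have hrun : Run (net V.E V.e₀ T) (kap V.e₀ T) run T.mb s q.mis (1 / 4) V.c₀ V.C₀ := by
    refine ⟨hWK, hR.s0, ⟨by norm_num, by norm_num, hc, hc1, hC⟩, hR.mis0, fun a ha => ?_, hkrun,
      hSt.mis, fun u => ?_⟩
    · obtain ⟨a1, a2, -⟩ := hSt.gau a (hSt.alv ha)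
      exact ⟨a1, (Complex.im_le_norm _).trans a2⟩
    · have hpv : pv T run s = 0 := by
        funext x
        unfold pv ind
        by_cases hx : x ∈ run
        · rw [if_pos hx, hs x hx]
          simp
        · rw [if_neg hx]
          simp
      have hy1 : Yin (net V.E V.e₀ T) 0 (fun x => ind run x * (s * gg T x)) (gg T) run q.tht := by
        intro b hb
        have := hSt.yin b hb
        unfold yy at this
        rw [hpv] at this
        exact this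
      have h1 := Pool.Agent.AGU.H49.formY hWK hR.s0 (fun a ha => by
        linarith [hgg a (hSt.alv ha)]) hy1 u
      refine h1.trans ?_
      refine mul_le_mul_of_nonneg_right ?_ (Finset.sum_nonneg fun a _ => sq_nonneg _)
      linarith only [hR.th0.2]
  obtain ⟨δ, hδ⟩ := hG (Tor d M) (net V.E V.e₀ T) (kap V.e₀ T) run T.mb s q.mis e B N hrun hN1 w1 w2
    (fun o ho a ha => by
      have := w3 o ho a ha
      norm_num at this ⊢
      exact this) w4 w5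
  refine ⟨fun x => T.mb x + δ x, ?_⟩
  refine reg_of_del (Pool.Agent.AGU.H10.gpb Pool.Agent.AGU.H99.gwb) Pool.Agent.AGU.H49.gho hGPA
    yregStmt (regN hc hc1 hC hC₁ (by linarith) rfl hR) hSt hs (fun x hx => ?_) hδ
  have h1 := hSt.ent x hx x hx
  have h2 := (Complex.abs_im_le_norm _).trans h1
  rw [Complex.sub_im] at h2
  have h3 := (abs_le.1 h2).2
  have h4 := hG₀ x hx
  linarith [hR.del0]

end Pool.Agent.AHH.H72
end
end -- Pool.Agent.Helper72_AHH.RegT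

section -- Pool.Agent.Helper72_AHH.RegAll

/-!
# AHH, row REG without hypotheses
-/

set_option autoImplicit false

namespace Pool.Agent.AHH.H72

open Pool.Agent.AHH

/-- GPA without hypotheses -/
theorem gpaT : GpaStmt := gpa Pool.Agent.AGU.H99.gwb

/-- REG without hypotheses -/
theorem regT : RegStmt := reg gpaT

end Pool.Agent.AHH.H72
end -- Pool.Agent.Helper72_AHH.RegAll

section -- Pool.Agent.Helper89_FAR.Wgt

/-!
# WWD: the weights for the regauging (`AGU.GfiStmt`)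
-/

set_option autoImplicit false

open scoped BigOperators Matrix NNReal

noncomputable section

namespace Pool.Agent.ANR.H89

open Pool.Agent.ANR
open Pool.Agent.BED (Tor adj ev)
open Pool.Agent.ANP (Cfg Geo Fc)
open Pool.Agent.AND2B (Hr Vef kap net res)
open Pool.Agent.AHH (Env Al gg)

/-- the weights which `AGU.GfiStmt` wants -/
def Wts {X : Type} [Fintype X] [DecidableEq X] (G : Matrix X X ℂ) (R : Finset X) (m : X → ℂ)
    (s c N : ℝ) : Prop :=
  ∃ (e : X → X → ℝ) (B : X → Finset X), (∀ a b, 0 < e a b) ∧ (∀ a, e a a = 1) ∧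
    (∀ o ∈ R, ∀ a ∈ R, ∑ b ∈ R, s * ‖G a b‖ ^ 2 *
      (|1 - e o a / e o b| ⊔ |1 - e o b / e o a|) * (m b).im ≤ c / 4 * (m a).im) ∧
    (∀ o, ((B o).card : ℝ) ≤ N) ∧ ∀ o, ∑ b ∈ R \ B o, e o b ^ 2 ≤ 1

variable {d M : ℕ} [NeZero M]

theorem sinh_beta {k₀ : ℝ} (d : ℕ) (hk : 0 < k₀) (hk1 : k₀ ≤ 1) :
    Real.sinh (k₀ / (8 * d)) * (2 * d) ≤ k₀ / 2 := by
  rcases Nat.eq_zero_or_pos d with hd | hd
  · subst hd; simp; linarith only [hk]
  · have hd' : (1 : ℝ) ≤ d := by exact_mod_cast hd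
    have e1 : k₀ / (8 * d) ≤ 1 := by
      rw [div_le_one (by positivity)]; linarith only [hk1, hd']
    have h0 : 0 ≤ k₀ / (8 * d) := by positivity
    have e2 : Real.sinh (k₀ / (8 * d)) ≤ 2 * (k₀ / (8 * d)) := by
      rw [Real.sinh_eq]
      have e1 := abs_le.1 (Real.abs_exp_sub_one_sub_id_le (by rw [abs_of_nonneg h0]; exact e1))
      have e2 := Real.add_one_le_exp (-(k₀ / (8 * d)))
      nlinarith [e1.2]
    calc Real.sinh (k₀ / (8 * d)) * (2 * d) ≤ 2 * (k₀ / (8 * d)) * (2 * d) :=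
          mul_le_mul_of_nonneg_right e2 (by positivity)
      _ = k₀ / 2 := by field_simp; norm_num

/-- the alive distance of a configuration -/
theorem alive_dist {Γ : Geo (Tor d M)} (hΓ : GeoF Γ) {T : Cfg (Tor d M)} {I : Finset ℕ}
    {Dn : ℕ → ℕ}
    (dens : ∃ dd : ℕ → Finset (Tor d M), (∀ x, T.s x = 0 → ∃ j ∈ I, x ∈ dd j) ∧
      ∀ j B, (dd j ∩ Γ.blk j B).card ≤ Dn j)
    (hsum : ∑ i ∈ I, (3 ^ d * Dn i : ℝ) / Γ.L i ≤ 1 / 4) :
    ∃ D : Tor d M → Tor d M → ℕ, (∀ x, D x x = 0) ∧ (∀ x y, D x y = D y x) ∧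
      (∀ x y z, D x z ≤ D x y + D y z) ∧ (∀ x y, Nb x y → D x y ≤ 1) ∧
      (∀ x y, Nb x y → (T.s x = 0 ∨ T.s y = 0) → D x y = 0) ∧
      ∀ x y, 1 / 2 * (Γ.D x y : ℝ) - cI d Dn I ≤ D x y := by
  obtain ⟨dd, hdd, hcard⟩ := dens
  set N₀ : ℕ := ∑ x, ∑ y, Γ.D x y with hN₀
  have hD : ∀ x y, Γ.D x y ≤ N₀ := fun x y => by
    refine le_trans ?_ (Finset.single_le_sum (f := fun x => ∑ y, Γ.D x y)
      (fun i _ => Nat.zero_le _) (Finset.mem_univ x))
    exact Finset.single_le_sum (f := fun y => Γ.D x y) (fun i _ => Nat.zero_le _)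
      (Finset.mem_univ y)
  have hsym : ∀ x y : Tor d M, Nb x y → Nb y x := fun x y h => h.symm
  have hmem : ∀ x, T.s x = 0 → x ∈ (↑(I.biUnion dd) : Set (Tor d M)) := fun x h => by
    obtain ⟨j, hj, hxj⟩ := hdd x h
    rw [Finset.mem_coe, Finset.mem_biUnion]; exact ⟨j, hj, hxj⟩
  refine ⟨ad (fun x y : Tor d M => Nb x y) (↑(I.biUnion dd) : Set (Tor d M)) N₀, ad_self N₀,
    ad_comm hsym N₀, ad_tri N₀, fun x y h => ad_adj N₀ h,
    fun x y h hd => ad_dead N₀ h (hd.imp (hmem x) (hmem y)), fun x y => ?_⟩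
  have h1 := le_ad (D := fun x y => (Γ.D x y : ℝ)) (c := 1 / 2)
    (r := 1 + 2 * ∑ i ∈ I, (3 ^ d * Dn i : ℝ))
    (fun x y w hw => ANP.H61.pth Γ d hΓ.ok hΓ.one (fun x y => Nb x y) hΓ.nb I dd Dn
      (fun i _ B => hcard i B) hsum x y w hw) N₀ x y
  have h2 : (Γ.D x y : ℝ) ≤ N₀ := by exact_mod_cast hD x y
  have h3 : (0 : ℝ) ≤ Γ.D x y := Nat.cast_nonneg _
  have h4 := cI_pos d Dn I
  have h5 : 1 / 2 * (Γ.D x y : ℝ) - (1 + 2 * ∑ i ∈ I, (3 ^ d * Dn i : ℝ)) ≤ N₀ := by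
    unfold cI at h4; linarith only [h2, h4]
  rw [min_eq_right h5] at h1
  exact h1

/-- WWD with the alive distance, for every site -/
theorem wwd_ad {E e₀ k₀ : ℝ} {T : Cfg (Tor d M)} (he : 0 < e₀)
    (hm : ∀ x, 0 ≤ (T.s x : ℝ) * (T.mb x).im) {D : Tor d M → Tor d M → ℕ}
    (hD0 : ∀ x, D x x = 0) (hDc : ∀ x y, D x y = D y x) (hDt : ∀ x y z, D x z ≤ D x y + D y z)
    (hD1 : ∀ x y, Nb x y → D x y ≤ 1) (hDd : ∀ x y, Nb x y → (T.s x = 0 ∨ T.s y = 0) → D x y = 0)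
    (hk : 0 < k₀) (hk1 : k₀ ≤ 1) (hal : ∀ x, 0 < T.s x → k₀ ≤ kap e₀ T x) (a : Tor d M) :
    ∑ b, kap e₀ T b * (Real.exp (k₀ / (4 * d) * D a b) * ‖net E e₀ T a b‖ ^ 2) ≤
      2 * (net E e₀ T a a).im := by
  have hP : Plt (Hr (Vef T) E) (fun x => (D a x : ℝ)) (Al T) (2 * d) :=
    plt_tor _ _ (fun x => Nat.cast_nonneg _) fun x y hxy hne => by
      have hne' : D a x ≠ D a y := fun h => hne (by rw [h])
      have h1 := hDt a x y
      have h2 := hDt a y x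
      rw [hDc y x] at h2
      have halive : ¬ (T.s x = 0 ∨ T.s y = 0) := fun h => by
        have := hDd x y hxy h; omega
      push Not at halive
      have h3 := hD1 x y hxy
      refine ⟨?_, ?_, ?_⟩
      · unfold Al; rw [Finset.mem_filter]
        exact ⟨Finset.mem_univ _, pos_iff_ne_zero.2 halive.1⟩
      · unfold Al; rw [Finset.mem_filter]
        exact ⟨Finset.mem_univ _, pos_iff_ne_zero.2 halive.2⟩
      · rw [abs_le]
        have h4 : (D a x : ℝ) ≤ D a y + 1 := by exact_mod_cast (by omega : D a x ≤ D a y + 1)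
        have h5 : (D a y : ℝ) ≤ D a x + 1 := by exact_mod_cast (by omega : D a y ≤ D a x + 1)
        constructor <;> linarith
  have h1 := wwd (net_tor E e₀ T he hm) hP (by positivity : 0 ≤ k₀ / (8 * d)) (sinh_beta d hk hk1)
    (fun x hx => hal x (by unfold Al at hx; exact (Finset.mem_filter.1 hx).2)) (a := a)
    (by simp [hD0 a])
  refine le_trans (le_of_eq ?_) h1
  refine Finset.sum_congr rfl fun b _ => ?_
  have e1 : k₀ / (4 * (d : ℝ)) * D a b = 2 * (k₀ / (8 * d)) * D a b := by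
    rcases Nat.eq_zero_or_pos d with hd | hd
    · subst hd; simp
    · have hd' : (0 : ℝ) < d := by exact_mod_cast hd
      field_simp; ring
  rw [e1]; rfl

/-- THE WEIGHTS for the regauging. `β = c k₀ / (48 d)`; `S₀` bounds `∑ exp (- β D / 2)`. -/
theorem wts {Γ : Geo (Tor d M)} (hΓ : GeoF Γ) {E e₀ k₀ : ℝ} {T : Cfg (Tor d M)} (he : 0 < e₀)
    (hm : ∀ x, 0 ≤ (T.s x : ℝ) * (T.mb x).im) {I : Finset ℕ} {Dn : ℕ → ℕ}
    (dens : ∃ dd : ℕ → Finset (Tor d M), (∀ x, T.s x = 0 → ∃ j ∈ I, x ∈ dd j) ∧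
      ∀ j B, (dd j ∩ Γ.blk j B).card ≤ Dn j)
    (hsum : ∑ i ∈ I, (3 ^ d * Dn i : ℝ) / Γ.L i ≤ 1 / 4) (hd : 1 ≤ d)
    (hk : 0 < k₀) (hk1 : k₀ ≤ 1) (hal : ∀ x, 0 < T.s x → k₀ ≤ kap e₀ T x)
    {R : Finset (Tor d M)} {s ε c c₀ C₀ : ℝ}
    (hR : AGU.Run (net E e₀ T) (kap e₀ T) R T.mb s ε c c₀ C₀) {S₀ r₁ : ℝ}
    (hS₀ : ∀ o, ∑ y, Real.exp (-(c * k₀ / (48 * d) / 2 * Γ.D o y)) ≤ S₀)
    (hr : Real.exp (-(c * k₀ / (48 * d) * (r₁ - cI d Dn I))) * S₀ ≤ 1) :
    Wts (net E e₀ T) R T.mb s c ((2 * (2 * (r₁ + cI d Dn I)) + 1) ^ d) := by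
  obtain ⟨D, hD0, hDc, hDt, hD1, hDd, hDlow⟩ := alive_dist hΓ dens hsum
  have hd' : (1 : ℝ) ≤ d := by exact_mod_cast hd
  have hc0 := hR.hc.1
  have hβ : 0 < c * k₀ / (48 * d) := by positivity
  set β := c * k₀ / (48 * d) with hβdef
  refine ⟨fun o a => Real.exp (-(β * D o a)), fun o => Finset.univ.filter fun b =>
    (D o b : ℝ) ≤ r₁, fun a b => Real.exp_pos _, fun a => by simp [hD0 a], ?_, fun o => ?_,
    fun o => ?_⟩
  · -- the weight condition
    have hW : ∀ a ∈ R, ∑ b, kap e₀ T b * ‖net E e₀ T a b‖ ^ 2 *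
        Real.exp (k₀ / (4 * d) * (D a b : ℝ)) ≤ 3 * (T.mb a).im := fun a ha => by
      have h1 := wwd_ad (E := E) he hm hD0 hDc hDt hD1 hDd hk hk1 hal a
      have h2 : (net E e₀ T a a).im ≤ 5 / 4 * (T.mb a).im := by
        have h3 := hR.hμ a ha
        have h4 : |(net E e₀ T a a - T.mb a).im| ≤ ε := (Complex.abs_im_le_norm _).trans h3
        rw [Complex.sub_im] at h4
        have h5 := (abs_le.1 h4).2
        have h6 := hR.hε.2
        have h7 := (hR.hm a ha).1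
        linarith
      have h3 : 0 < (T.mb a).im := lt_of_lt_of_le hR.hc.2.2.1 (hR.hm a ha).1
      refine le_trans (le_of_eq ?_) (h1.trans (by linarith))
      exact Finset.sum_congr rfl fun b _ => by ring
    have h1 := Pool.Agent.AGU.H51.gcw (Tor d M) (net E e₀ T) (kap e₀ T) R T.mb s ε c c₀ C₀ β
      (k₀ / (4 * d)) 3 (fun a b => (D a b : ℝ)) hR
      (fun a b => ⟨Nat.cast_nonneg _, by exact_mod_cast hDc a b⟩)
      (fun a => by exact_mod_cast hD0 a)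
      (fun a b e => by
        have := hDt a e b
        exact_mod_cast this)
      hβ.le (by
        rw [hβdef]
        have h2 : c ≤ 1 := hR.hc.2.1
        rw [div_le_div_iff₀ (by positivity) (by positivity)]
        nlinarith only [mul_pos hk (by positivity : (0 : ℝ) < d), h2])
      (by positivity) (by norm_num) hW
    intro o ho a ha
    have h2 := h1 o ho a ha
    have h3 : β / (k₀ / (4 * d)) * 3 = c / 4 := by
      rw [hβdef]; field_simp; norm_num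
    rw [h3] at h2
    exact h2
  · -- the number of sites
    have h1 : (Finset.univ.filter fun b => (D o b : ℝ) ≤ r₁) ⊆
        (Finset.univ.filter fun b => Γ.D o b ≤ ⌊2 * (r₁ + cI d Dn I)⌋₊) := fun b hb => by
      rw [Finset.mem_filter] at hb ⊢
      refine ⟨Finset.mem_univ _, Nat.le_floor ?_⟩
      have := hDlow o b
      linarith only [hb.2, this]
    by_cases hneg : 0 ≤ r₁ + cI d Dn I
    · have h2 := (Finset.card_le_card h1).trans (hΓ.ok.vol o ⌊2 * (r₁ + cI d Dn I)⌋₊)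
      have h3 : (((Finset.univ.filter fun b => (D o b : ℝ) ≤ r₁) : Finset (Tor d M)).card : ℝ) ≤
          (2 * (⌊2 * (r₁ + cI d Dn I)⌋₊ : ℝ) + 1) ^ d := by exact_mod_cast h2
      refine h3.trans (pow_le_pow_left₀ (by positivity) ?_ d)
      have h4 : (⌊2 * (r₁ + cI d Dn I)⌋₊ : ℝ) ≤ 2 * (r₁ + cI d Dn I) :=
        Nat.floor_le (by linarith only [hneg])
      linarith only [h4]
    · exfalso
      push Not at hneg
      have h2 : 1 ≤ Real.exp (-(β * (r₁ - cI d Dn I))) := by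
        rw [← Real.exp_zero]
        apply Real.exp_le_exp.2
        have := cI_pos d Dn I
        nlinarith only [hβ, hneg, this]
      have h3 : 1 < Real.exp (-(β * (r₁ - cI d Dn I))) := by
        rw [← Real.exp_zero]
        apply Real.exp_lt_exp.2
        have := cI_pos d Dn I
        nlinarith only [hβ, hneg, this]
      have h4 : 1 ≤ S₀ := by
        refine le_trans ?_ (hS₀ o)
        have h5 : Real.exp (-(β / 2 * (Γ.D o o : ℝ))) ≤
            ∑ y, Real.exp (-(β / 2 * (Γ.D o y : ℝ))) :=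
          Finset.single_le_sum (f := fun y => Real.exp (-(β / 2 * (Γ.D o y : ℝ))))
            (fun y _ => (Real.exp_pos _).le) (Finset.mem_univ o)
        rw [hΓ.ok.self o] at h5
        simpa using h5
      nlinarith only [hr, h2, h3, h4]
  · -- the far part
    have h1 : ∀ b ∈ R \ (Finset.univ.filter fun b => (D o b : ℝ) ≤ r₁),
        Real.exp (-(β * (D o b : ℝ))) ^ 2 ≤ Real.exp (-(β * (r₁ - cI d Dn I))) *
          Real.exp (-(β / 2 * (Γ.D o b : ℝ))) := fun b hb => by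
      rw [Finset.mem_sdiff, Finset.mem_filter] at hb
      have h2 : r₁ < (D o b : ℝ) := by
        by_contra hcon
        exact hb.2 ⟨Finset.mem_univ _, not_lt.1 hcon⟩
      have h3 := hDlow o b
      rw [← Real.exp_nat_mul, ← Real.exp_add]
      apply Real.exp_le_exp.2
      push_cast
      nlinarith only [hβ, h2, h3]
    refine (Finset.sum_le_sum h1).trans ?_
    rw [← Finset.mul_sum]
    have h2 : ∑ b ∈ R \ (Finset.univ.filter fun b => (D o b : ℝ) ≤ r₁),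
        Real.exp (-(β / 2 * (Γ.D o b : ℝ))) ≤ S₀ :=
      (Finset.sum_le_univ_sum_of_nonneg fun b => (Real.exp_pos _).le).trans (hS₀ o)
    exact (mul_le_mul_of_nonneg_left h2 (Real.exp_pos _).le).trans hr

end Pool.Agent.ANR.H89
end
end -- Pool.Agent.Helper89_FAR.Wgt

section -- Pool.Agent.Helper89_FAR.WgtS

/-!
# WWD: the weights for the regauging, with a power of the clock as the number of sites
-/

set_option autoImplicit false

open scoped BigOperators Matrix NNReal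

noncomputable section

namespace Pool.Agent.ANR.H89

open Pool.Agent.ANR
open Pool.Agent.BED (Tor adj ev)
open Pool.Agent.ANP (Cfg Geo Fc)
open Pool.Agent.AND2B (Hr Vef kap net res Gt)
open Pool.Agent.AHH (Env Al gg)

/-- sums of exponentials of the distance -/
def SumE {d M : ℕ} [NeZero M] (Γ : Geo (Tor d M)) : Prop :=
  ∀ β : ℝ, 0 < β → β ≤ 1 → ∀ o, ∑ y, Real.exp (-(β * Γ.D o y)) ≤ (24 * ((d : ℝ) + 1) / β) ^ d

theorem sumE_T (d μ J N : ℕ) (l r : ℕ → ℕ) : SumE (Gt d μ J N l r) := by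
  intro β hβ hβ1 o
  have h1 := AHH.H61.site_sum d μ l (fun _ => ⌈1 / β⌉₊) J N 0
    (Nat.one_le_ceil_iff.2 (by positivity)) o
  have h2 : (1 : ℝ) ≤ 1 / β := by rw [le_div_iff₀ hβ]; linarith only [hβ1]
  have h3 : ((⌈1 / β⌉₊ : ℕ) : ℝ) ≤ 2 / β := by
    have := (Nat.ceil_lt_add_one (by positivity : (0 : ℝ) ≤ 1 / β)).le
    have h4 : 2 / β = 1 / β + 1 / β := by ring
    linarith only [h2, this, h4]
  refine le_trans (Finset.sum_le_sum fun y _ => ?_) (h1.trans ?_)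
  · apply Real.exp_le_exp.2
    have h4 : 1 / β ≤ ((⌈1 / β⌉₊ : ℕ) : ℝ) := Nat.le_ceil _
    have h5 : (0 : ℝ) < ((⌈1 / β⌉₊ : ℕ) : ℝ) := lt_of_lt_of_le (by positivity) h4
    have h6 : (0 : ℝ) ≤ ((Gt d μ J N l r).D o y : ℝ) := Nat.cast_nonneg _
    have h7 : 1 / ((⌈1 / β⌉₊ : ℕ) : ℝ) ≤ β := by
      rw [div_le_iff₀ h5]
      rw [div_le_iff₀ hβ] at h4
      linarith only [h4]
    have h8 : ((Gt d μ J N l r).D o y : ℝ) / ((⌈1 / β⌉₊ : ℕ) : ℝ) ≤
        β * ((Gt d μ J N l r).D o y : ℝ) := by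
      calc ((Gt d μ J N l r).D o y : ℝ) / ((⌈1 / β⌉₊ : ℕ) : ℝ) =
          1 / ((⌈1 / β⌉₊ : ℕ) : ℝ) * ((Gt d μ J N l r).D o y : ℝ) := by ring
        _ ≤ _ := mul_le_mul_of_nonneg_right h7 h6
    exact neg_le_neg h8
  · refine pow_le_pow_left₀ (by positivity) ?_ d
    calc 12 * ((d : ℝ) + 1) * ((⌈1 / β⌉₊ : ℕ) : ℝ) ≤ 12 * ((d : ℝ) + 1) * (2 / β) :=
          mul_le_mul_of_nonneg_left h3 (by positivity)
      _ = _ := by ring

theorem Wts.mono {X : Type} [Fintype X] [DecidableEq X] {G : Matrix X X ℂ} {R : Finset X}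
    {m : X → ℂ} {s c N N' : ℝ} (h : Wts G R m s c N) (hN : N ≤ N') : Wts G R m s c N' := by
  obtain ⟨e, B, h1, h2, h3, h4, h5⟩ := h
  exact ⟨e, B, h1, h2, h3, fun o => (h4 o).trans hN, h5⟩

/-- THE WEIGHTS, with the number of sites `C s⁻ᶜ`: `s` a lower bound of the clocks of the alive sites,
`c₀` a lower bound of the gauge, `cI ≤ s⁻ᵖ` -/
theorem wts_s (d : ℕ) (hd : 1 ≤ d) (c c₀ p : ℝ) (hc : 0 < c) (hc1 : c ≤ 1) (hc₀ : 0 < c₀)
    (hc₀1 : c₀ ≤ 1) (hp : 2 ≤ p) :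
    ∃ Cw : ℝ, 1 ≤ Cw ∧ ∀ (M : ℕ) [NeZero M] (Γ : Geo (Tor d M)), GeoF Γ → SumE Γ →
      ∀ (E e₀ : ℝ) (T : Cfg (Tor d M)) (I : Finset ℕ) (Dn : ℕ → ℕ) (R : Finset (Tor d M))
        (s ε C₀ : ℝ), 0 < e₀ → 0 < s → s ≤ 1 →
        (∀ x, 0 < T.s x → s ≤ T.s x ∧ c₀ ≤ (T.mb x).im) →
        (∃ dd : ℕ → Finset (Tor d M), (∀ x, T.s x = 0 → ∃ j ∈ I, x ∈ dd j) ∧
          ∀ j B, (dd j ∩ Γ.blk j B).card ≤ Dn j) →
        ∑ i ∈ I, (3 ^ d * Dn i : ℝ) / Γ.L i ≤ 1 / 4 → cI d Dn I ≤ s ^ (-p) →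
        AGU.Run (net E e₀ T) (kap e₀ T) R T.mb s ε c c₀ C₀ →
        1 ≤ Cw * s ^ (-Cw) ∧ Wts (net E e₀ T) R T.mb s c (Cw * s ^ (-Cw)) := by
  have hd' : (1 : ℝ) ≤ d := by exact_mod_cast hd
  set K : ℝ := 24 * ((d : ℝ) + 1) with hK
  set b₁ : ℝ := c * c₀ / (48 * d) with hb₁
  have hK0 : 0 < K := by positivity
  have hb0 : 0 < b₁ := by positivity
  set A : ℝ := 8 + 8 * (d * K / b₁ ^ 2) + 1 with hA
  have hA1 : 1 ≤ A := by
    have : 0 ≤ d * K / b₁ ^ 2 := by positivity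
    linarith only [this]
  set Cw : ℝ := max (A ^ d) (d * p) with hCw
  have hCw1 : 1 ≤ Cw := le_trans (one_le_pow₀ hA1) (le_max_left _ _)
  refine ⟨Cw, hCw1, ?_⟩
  intro M _ Γ hΓ hSE E e₀ T I Dn R s ε C₀ he hs hs1 hT dens hsum hcI hR
  have hm : ∀ x, 0 ≤ (T.s x : ℝ) * (T.mb x).im := fun x => by
    rcases eq_or_lt_of_le (zero_le (a := T.s x)) with h | h
    · rw [← h]; simp
    · exact mul_nonneg (NNReal.coe_nonneg _) (hc₀.le.trans (hT x h).2)
  have hk0 : 0 < c₀ * s := by positivity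
  have hk1 : c₀ * s ≤ 1 := by nlinarith only [hc₀, hc₀1, hs1]
  have hal : ∀ x, 0 < T.s x → c₀ * s ≤ kap e₀ T x := fun x hx => by
    obtain ⟨h1, h2⟩ := hT x hx
    have h3 : c₀ * s ≤ (T.s x : ℝ) * (T.mb x).im := by nlinarith only [hc₀, h1, h2]
    unfold kap
    linarith only [he, h3]
  have hβ : c * (c₀ * s) / (48 * d) = b₁ * s := by rw [hb₁]; ring
  have hβ0 : 0 < b₁ * s := by positivity
  have hb₁1 : b₁ ≤ 1 := by
    rw [hb₁, div_le_one (by positivity)]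
    nlinarith only [hc, hc1, hc₀1, hd']
  have hβ1 : b₁ * s ≤ 1 := by nlinarith only [hb0, hs1, hb₁1]
  have hcI1 := cI_pos d Dn I
  set S₀ : ℝ := (K / (b₁ * s / 2)) ^ d with hS₀
  have hy : 1 ≤ K / (b₁ * s / 2) := by
    rw [le_div_iff₀ (by positivity)]
    have : (24 : ℝ) ≤ K := by rw [hK]; linarith only [hd']
    linarith only [hd', hβ1]
  have hS1 : 1 ≤ S₀ := one_le_pow₀ hy
  set r₁ : ℝ := cI d Dn I + 1 / (b₁ * s) * Real.log S₀ with hr₁
  have hr : Real.exp (-(c * (c₀ * s) / (48 * d) * (r₁ - cI d Dn I))) * S₀ ≤ 1 := by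
    rw [hβ, hr₁]
    have h1 : b₁ * s * (cI d Dn I + 1 / (b₁ * s) * Real.log S₀ - cI d Dn I) = Real.log S₀ := by
      field_simp
      ring
    rw [h1, Real.exp_neg, Real.exp_log (by linarith only [hS1])]
    rw [inv_mul_cancel₀ (by linarith only [hS1])]
  have hw := wts (E := E) hΓ he hm dens hsum hd hk0 hk1 hal hR (S₀ := S₀) (r₁ := r₁)
    (fun o => by
      rw [hβ]
      have := hSE (b₁ * s / 2) (by positivity) (by linarith only [hβ1]) o
      rw [hS₀, hK]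
      exact this) hr
  have hsp : ∀ q : ℝ, 0 ≤ q → 1 ≤ s ^ (-q) := fun q hq => by
    rw [Real.rpow_neg hs.le]
    exact (one_le_inv₀ (Real.rpow_pos_of_pos hs _)).2 (Real.rpow_le_one hs.le hs1 hq)
  have h2 : (1 : ℝ) / s ^ 2 ≤ s ^ (-p) := by
    rw [Real.rpow_neg hs.le, one_div]
    apply inv_anti₀ (Real.rpow_pos_of_pos hs _)
    rw [← Real.rpow_natCast]
    exact Real.rpow_le_rpow_of_exponent_ge hs hs1 (by push_cast; exact hp)
  have hlog : Real.log S₀ ≤ d * (2 * K / (b₁ * s)) := by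
    rw [hS₀, Real.log_pow]
    have h3 : Real.log (K / (b₁ * s / 2)) ≤ K / (b₁ * s / 2) - 1 :=
      Real.log_le_sub_one_of_pos (by linarith only [hy])
    have h4 : K / (b₁ * s / 2) = 2 * K / (b₁ * s) := by field_simp
    rw [h4] at h3
    have h5 : Real.log (K / (b₁ * s / 2)) ≤ 2 * K / (b₁ * s) := by rw [h4]; linarith only [h3]
    exact mul_le_mul_of_nonneg_left h5 (by positivity)
  have hlog0 : 0 ≤ Real.log S₀ := Real.log_nonneg hS1
  have hr2 : 1 / (b₁ * s) * Real.log S₀ ≤ 2 * (d * K / b₁ ^ 2) * s ^ (-p) := by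
    calc 1 / (b₁ * s) * Real.log S₀ ≤ 1 / (b₁ * s) * (d * (2 * K / (b₁ * s))) :=
          mul_le_mul_of_nonneg_left hlog (by positivity)
      _ = 2 * (d * K / b₁ ^ 2) * (1 / s ^ 2) := by field_simp
      _ ≤ 2 * (d * K / b₁ ^ 2) * s ^ (-p) := mul_le_mul_of_nonneg_left h2 (by positivity)
  have hs_p := hsp p (by linarith only [hp])
  have hbase : 2 * (2 * (r₁ + cI d Dn I)) + 1 ≤ A * s ^ (-p) := by
    rw [hr₁, hA]
    have h5 : 0 ≤ d * K / b₁ ^ 2 := by positivity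
    nlinarith [mul_nonneg h5 (by linarith only [hcI, hcI1] : (0 : ℝ) ≤ s ^ (-p))]
  have hr0 : 0 ≤ r₁ := by rw [hr₁]; positivity
  have hN : (2 * (2 * (r₁ + cI d Dn I)) + 1) ^ d ≤ Cw * s ^ (-Cw) := by
    calc (2 * (2 * (r₁ + cI d Dn I)) + 1) ^ d ≤ (A * s ^ (-p)) ^ d :=
          pow_le_pow_left₀ (by linarith only [hcI1, hr0]) hbase d
      _ = A ^ d * s ^ (-(d * p)) := by
          rw [mul_pow, ← Real.rpow_natCast (s ^ (-p)) d, ← Real.rpow_mul hs.le]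
          congr 2; ring
      _ ≤ Cw * s ^ (-Cw) := by
          refine mul_le_mul (le_max_left _ _) ?_ (Real.rpow_nonneg hs.le _) (by linarith only [hCw1])
          exact Real.rpow_le_rpow_of_exponent_ge hs hs1 (neg_le_neg (le_max_right _ _))
  refine ⟨?_, hw.mono hN⟩
  have := hsp Cw (by linarith only [hCw1])
  nlinarith only [hCw1, this]

end Pool.Agent.ANR.H89
end
end -- Pool.Agent.Helper89_FAR.WgtS

section -- Pool.Agent.Helper72_AHH.WtsT

/-!
# AHH: the weights for the regauging, `WtsStmt`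

helper89's `wts_s` without the form bound of `AGU.Run` (which is not used there).
-/

set_option autoImplicit false

open scoped BigOperators Matrix NNReal

noncomputable section

namespace Pool.Agent.AHH.H72

open Pool.Agent.ANR
open Pool.Agent.ANR.H89 (GeoF SumE geoF_T sumE_T cI cI_pos Nb alive_dist wwd_ad)
open Pool.Agent.BED (Tor adj ev)
open Pool.Agent.ANP (Cfg Geo Fc)
open Pool.Agent.AND2B (Hr Vef kap net res Gt)
open Pool.Agent.AGU (WK)

/-- `AGU.Run` without the form bound -/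
structure RunW {X : Type} [Fintype X] [DecidableEq X] (G : Matrix X X ℂ) (k : X → ℝ)
    (R : Finset X) (m : X → ℂ) (s ε c₀ : ℝ) : Prop where
  hw : WK G k
  hs : 0 < s
  hc : 0 < c₀ ∧ c₀ ≤ 1
  hε : 0 ≤ ε ∧ ε ≤ c₀ / 4
  hm : ∀ a ∈ R, c₀ ≤ (m a).im
  hk : ∀ a ∈ R, s * (m a).im ≤ k a
  hμ : ∀ a ∈ R, ‖G a a - m a‖ ≤ ε

/-- GCW without the form bound -/
theorem gcwW {X : Type} [Fintype X] [DecidableEq X] {G : Matrix X X ℂ} {k : X → ℝ} {R : Finset X}
    {m : X → ℂ} {s ε c₀ β β₁ C₁ : ℝ} {D : X → X → ℝ} (hrun : RunW G k R m s ε c₀)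
    (hD : ∀ a b, 0 ≤ D a b ∧ D a b = D b a) (htri : ∀ a b e, D a b ≤ D a e + D e b)
    (hβ : 0 ≤ β) (hβ1 : β ≤ β₁) (hβ2 : 0 < β₁)
    (hsum : ∀ a ∈ R, ∑ b, k b * ‖G a b‖ ^ 2 * Real.exp (β₁ * D a b) ≤ C₁ * (m a).im) {o : X}
    {a : X} (ha : a ∈ R) :
    ∑ b ∈ R, s * ‖G a b‖ ^ 2 *
        (|1 - Real.exp (-(β * D o a)) / Real.exp (-(β * D o b))| ⊔
          |1 - Real.exp (-(β * D o b)) / Real.exp (-(β * D o a))|) * (m b).im ≤
        β / β₁ * C₁ * (m a).im := by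
  have key : ∀ b ∈ R, s * ‖G a b‖ ^ 2 *
        (|1 - Real.exp (-(β * D o a)) / Real.exp (-(β * D o b))| ⊔
          |1 - Real.exp (-(β * D o b)) / Real.exp (-(β * D o a))|) * (m b).im ≤
      β / β₁ * (k b * ‖G a b‖ ^ 2 * Real.exp (β₁ * D a b)) := by
    intro b hb
    have hab : |D o b - D o a| ≤ D a b := by
      rw [abs_le]
      constructor
      · have h := htri o a b
        rw [(hD b a).2] at h
        linarith
      · have h := htri o b a
        linarith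
    have h1 : |1 - Real.exp (-(β * D o a)) / Real.exp (-(β * D o b))| ≤
        Real.exp (β * D a b) - 1 := by
      rw [← Real.exp_sub]
      apply AGU.H51.abs_one_sub_exp_le
      have h2 : -(β * D o a) - -(β * D o b) = β * (D o b - D o a) := by ring
      rw [h2, abs_mul, abs_of_nonneg hβ]
      exact mul_le_mul_of_nonneg_left hab hβ
    have h2 : |1 - Real.exp (-(β * D o b)) / Real.exp (-(β * D o a))| ≤
        Real.exp (β * D a b) - 1 := by
      rw [← Real.exp_sub]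
      apply AGU.H51.abs_one_sub_exp_le
      have h2 : -(β * D o b) - -(β * D o a) = -(β * (D o b - D o a)) := by ring
      rw [h2, abs_neg, abs_mul, abs_of_nonneg hβ]
      exact mul_le_mul_of_nonneg_left hab hβ
    have h3 := (sup_le h1 h2).trans (AGU.H51.exp_conv β β₁ (D a b) hβ hβ1 hβ2)
    have hk := hrun.hk b hb
    have hm : 0 ≤ (m b).im := le_trans hrun.hc.1.le (hrun.hm b hb)
    have hG : 0 ≤ ‖G a b‖ ^ 2 := by positivity
    have hE : 0 ≤ β / β₁ * Real.exp (β₁ * D a b) :=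
      mul_nonneg (div_nonneg hβ hβ2.le) (Real.exp_pos _).le
    calc s * ‖G a b‖ ^ 2 *
        (|1 - Real.exp (-(β * D o a)) / Real.exp (-(β * D o b))| ⊔
          |1 - Real.exp (-(β * D o b)) / Real.exp (-(β * D o a))|) * (m b).im
        ≤ s * ‖G a b‖ ^ 2 * (β / β₁ * Real.exp (β₁ * D a b)) * (m b).im := by
          apply mul_le_mul_of_nonneg_right _ hm
          exact mul_le_mul_of_nonneg_left h3 (mul_nonneg hrun.hs.le hG)
      _ = (s * (m b).im) * (‖G a b‖ ^ 2 * (β / β₁ * Real.exp (β₁ * D a b))) := by ring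
      _ ≤ k b * (‖G a b‖ ^ 2 * (β / β₁ * Real.exp (β₁ * D a b))) :=
          mul_le_mul_of_nonneg_right hk (mul_nonneg hG hE)
      _ = β / β₁ * (k b * ‖G a b‖ ^ 2 * Real.exp (β₁ * D a b)) := by ring
  have hnn : ∀ b, 0 ≤ k b * ‖G a b‖ ^ 2 * Real.exp (β₁ * D a b) := fun b =>
    mul_nonneg (mul_nonneg (hrun.hw.hk b).le (by positivity)) (Real.exp_pos _).le
  calc _ ≤ ∑ b ∈ R, β / β₁ * (k b * ‖G a b‖ ^ 2 * Real.exp (β₁ * D a b)) :=
        Finset.sum_le_sum key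
    _ = β / β₁ * ∑ b ∈ R, k b * ‖G a b‖ ^ 2 * Real.exp (β₁ * D a b) := by
        rw [Finset.mul_sum]
    _ ≤ β / β₁ * ∑ b, k b * ‖G a b‖ ^ 2 * Real.exp (β₁ * D a b) :=
        mul_le_mul_of_nonneg_left
          (Finset.sum_le_sum_of_subset_of_nonneg (Finset.subset_univ _) fun b _ _ => hnn b)
          (div_nonneg hβ hβ2.le)
    _ ≤ β / β₁ * (C₁ * (m a).im) :=
        mul_le_mul_of_nonneg_left (hsum a ha) (div_nonneg hβ hβ2.le)
    _ = β / β₁ * C₁ * (m a).im := by ring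


variable {d M : ℕ} [NeZero M]

/-- THE WEIGHTS for the regauging. `β = c k₀ / (48 d)`; `S₀` bounds `∑ exp (- β D / 2)`. -/
theorem wtsW {Γ : Geo (Tor d M)} (hΓ : GeoF Γ) {E e₀ k₀ : ℝ} {T : Cfg (Tor d M)} (he : 0 < e₀)
    (hm : ∀ x, 0 ≤ (T.s x : ℝ) * (T.mb x).im) {I : Finset ℕ} {Dn : ℕ → ℕ}
    (dens : ∃ dd : ℕ → Finset (Tor d M), (∀ x, T.s x = 0 → ∃ j ∈ I, x ∈ dd j) ∧
      ∀ j B, (dd j ∩ Γ.blk j B).card ≤ Dn j)
    (hsum : ∑ i ∈ I, (3 ^ d * Dn i : ℝ) / Γ.L i ≤ 1 / 4) (hd : 1 ≤ d)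
    (hk : 0 < k₀) (hk1 : k₀ ≤ 1) (hal : ∀ x, 0 < T.s x → k₀ ≤ kap e₀ T x)
    {R : Finset (Tor d M)} {s ε c c₀ : ℝ} (hc0 : 0 < c) (hc1 : c ≤ 1)
    (hR : RunW (net E e₀ T) (kap e₀ T) R T.mb s ε c₀) {S₀ r₁ : ℝ}
    (hS₀ : ∀ o, ∑ y, Real.exp (-(c * k₀ / (48 * d) / 2 * Γ.D o y)) ≤ S₀)
    (hr : Real.exp (-(c * k₀ / (48 * d) * (r₁ - cI d Dn I))) * S₀ ≤ 1) :
    H89.Wts (net E e₀ T) R T.mb s c ((2 * (2 * (r₁ + cI d Dn I)) + 1) ^ d) := by
  obtain ⟨D, hD0, hDc, hDt, hD1, hDd, hDlow⟩ := alive_dist hΓ dens hsum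
  have hd' : (1 : ℝ) ≤ d := by exact_mod_cast hd
  have hβ : 0 < c * k₀ / (48 * d) := by positivity
  set β := c * k₀ / (48 * d) with hβdef
  refine ⟨fun o a => Real.exp (-(β * D o a)), fun o => Finset.univ.filter fun b =>
    (D o b : ℝ) ≤ r₁, fun a b => Real.exp_pos _, fun a => by simp [hD0 a], ?_, fun o => ?_,
    fun o => ?_⟩
  · -- the weight condition
    have hW : ∀ a ∈ R, ∑ b, kap e₀ T b * ‖net E e₀ T a b‖ ^ 2 *
        Real.exp (k₀ / (4 * d) * (D a b : ℝ)) ≤ 3 * (T.mb a).im := fun a ha => by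
      have h1 := wwd_ad (E := E) he hm hD0 hDc hDt hD1 hDd hk hk1 hal a
      have h2 : (net E e₀ T a a).im ≤ 5 / 4 * (T.mb a).im := by
        have h3 := hR.hμ a ha
        have h4 : |(net E e₀ T a a - T.mb a).im| ≤ ε := (Complex.abs_im_le_norm _).trans h3
        rw [Complex.sub_im] at h4
        have h5 := (abs_le.1 h4).2
        have h6 := hR.hε.2
        have h7 := (hR.hm a ha)
        linarith
      have h3 : 0 < (T.mb a).im := lt_of_lt_of_le hR.hc.1 (hR.hm a ha)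
      refine le_trans (le_of_eq ?_) (h1.trans (by linarith))
      exact Finset.sum_congr rfl fun b _ => by ring
    intro o ho a ha
    have h2 := gcwW (G := net E e₀ T) (k := kap e₀ T) (β := β) (β₁ := k₀ / (4 * d)) (C₁ := 3)
      (D := fun a b => (D a b : ℝ)) hR
      (fun a b => ⟨Nat.cast_nonneg _, by exact_mod_cast hDc a b⟩)
      (fun a b e => by
        have := hDt a e b
        exact_mod_cast this)
      hβ.le (by
        rw [hβdef]
        have h2 : c ≤ 1 := hc1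
        rw [div_le_div_iff₀ (by positivity) (by positivity)]
        nlinarith only [mul_pos hk (by positivity : (0 : ℝ) < d), hc1])
      (by positivity) hW (o := o) ha
    have h3 : β / (k₀ / (4 * d)) * 3 = c / 4 := by
      rw [hβdef]; field_simp; norm_num
    rw [h3] at h2
    exact h2
  · -- the number of sites
    have h1 : (Finset.univ.filter fun b => (D o b : ℝ) ≤ r₁) ⊆
        (Finset.univ.filter fun b => Γ.D o b ≤ ⌊2 * (r₁ + cI d Dn I)⌋₊) := fun b hb => by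
      rw [Finset.mem_filter] at hb ⊢
      refine ⟨Finset.mem_univ _, Nat.le_floor ?_⟩
      have := hDlow o b
      linarith only [hb.2, this]
    by_cases hneg : 0 ≤ r₁ + cI d Dn I
    · have h2 := (Finset.card_le_card h1).trans (hΓ.ok.vol o ⌊2 * (r₁ + cI d Dn I)⌋₊)
      have h3 : (((Finset.univ.filter fun b => (D o b : ℝ) ≤ r₁) : Finset (Tor d M)).card : ℝ) ≤
          (2 * (⌊2 * (r₁ + cI d Dn I)⌋₊ : ℝ) + 1) ^ d := by exact_mod_cast h2
      refine h3.trans (pow_le_pow_left₀ (by positivity) ?_ d)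
      have h4 : (⌊2 * (r₁ + cI d Dn I)⌋₊ : ℝ) ≤ 2 * (r₁ + cI d Dn I) :=
        Nat.floor_le (by linarith only [hneg])
      linarith only [h4]
    · exfalso
      push Not at hneg
      have h2 : 1 ≤ Real.exp (-(β * (r₁ - cI d Dn I))) := by
        rw [← Real.exp_zero]
        apply Real.exp_le_exp.2
        have := cI_pos d Dn I
        nlinarith only [hβ, hneg, this]
      have h3 : 1 < Real.exp (-(β * (r₁ - cI d Dn I))) := by
        rw [← Real.exp_zero]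
        apply Real.exp_lt_exp.2
        have := cI_pos d Dn I
        nlinarith only [hβ, hneg, this]
      have h4 : 1 ≤ S₀ := by
        refine le_trans ?_ (hS₀ o)
        have h5 : Real.exp (-(β / 2 * (Γ.D o o : ℝ))) ≤
            ∑ y, Real.exp (-(β / 2 * (Γ.D o y : ℝ))) :=
          Finset.single_le_sum (f := fun y => Real.exp (-(β / 2 * (Γ.D o y : ℝ))))
            (fun y _ => (Real.exp_pos _).le) (Finset.mem_univ o)
        rw [hΓ.ok.self o] at h5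
        simpa using h5
      nlinarith only [hr, h2, h3, h4]
  · -- the far part
    have h1 : ∀ b ∈ R \ (Finset.univ.filter fun b => (D o b : ℝ) ≤ r₁),
        Real.exp (-(β * (D o b : ℝ))) ^ 2 ≤ Real.exp (-(β * (r₁ - cI d Dn I))) *
          Real.exp (-(β / 2 * (Γ.D o b : ℝ))) := fun b hb => by
      rw [Finset.mem_sdiff, Finset.mem_filter] at hb
      have h2 : r₁ < (D o b : ℝ) := by
        by_contra hcon
        exact hb.2 ⟨Finset.mem_univ _, not_lt.1 hcon⟩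
      have h3 := hDlow o b
      rw [← Real.exp_nat_mul, ← Real.exp_add]
      apply Real.exp_le_exp.2
      push_cast
      nlinarith only [hβ, h2, h3]
    refine (Finset.sum_le_sum h1).trans ?_
    rw [← Finset.mul_sum]
    have h2 : ∑ b ∈ R \ (Finset.univ.filter fun b => (D o b : ℝ) ≤ r₁),
        Real.exp (-(β / 2 * (Γ.D o b : ℝ))) ≤ S₀ :=
      (Finset.sum_le_univ_sum_of_nonneg fun b => (Real.exp_pos _).le).trans (hS₀ o)
    exact (mul_le_mul_of_nonneg_left h2 (Real.exp_pos _).le).trans hr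

/-- THE WEIGHTS, with the number of sites `C s⁻ᶜ`: `s` a lower bound of the clocks of the alive sites,
`c₀` a lower bound of the gauge, `cI ≤ s⁻ᵖ` -/
theorem wts_sW (d : ℕ) (hd : 1 ≤ d) (c c₀ p : ℝ) (hc : 0 < c) (hc1 : c ≤ 1) (hc₀ : 0 < c₀)
    (hc₀1 : c₀ ≤ 1) (hp : 2 ≤ p) :
    ∃ Cw : ℝ, 1 ≤ Cw ∧ ∀ (M : ℕ) [NeZero M] (Γ : Geo (Tor d M)), GeoF Γ → SumE Γ →
      ∀ (E e₀ : ℝ) (T : Cfg (Tor d M)) (I : Finset ℕ) (Dn : ℕ → ℕ) (R : Finset (Tor d M))
        (s ε : ℝ), 0 < e₀ → 0 < s → s ≤ 1 →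
        (∀ x, 0 < T.s x → s ≤ T.s x ∧ c₀ ≤ (T.mb x).im) →
        (∃ dd : ℕ → Finset (Tor d M), (∀ x, T.s x = 0 → ∃ j ∈ I, x ∈ dd j) ∧
          ∀ j B, (dd j ∩ Γ.blk j B).card ≤ Dn j) →
        ∑ i ∈ I, (3 ^ d * Dn i : ℝ) / Γ.L i ≤ 1 / 4 → cI d Dn I ≤ s ^ (-p) →
        RunW (net E e₀ T) (kap e₀ T) R T.mb s ε c₀ →
        1 ≤ Cw * s ^ (-Cw) ∧ H89.Wts (net E e₀ T) R T.mb s c (Cw * s ^ (-Cw)) := by
  have hd' : (1 : ℝ) ≤ d := by exact_mod_cast hd
  set K : ℝ := 24 * ((d : ℝ) + 1) with hK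
  set b₁ : ℝ := c * c₀ / (48 * d) with hb₁
  have hK0 : 0 < K := by positivity
  have hb0 : 0 < b₁ := by positivity
  set A : ℝ := 8 + 8 * (d * K / b₁ ^ 2) + 1 with hA
  have hA1 : 1 ≤ A := by
    have : 0 ≤ d * K / b₁ ^ 2 := by positivity
    linarith only [this]
  set Cw : ℝ := max (A ^ d) (d * p) with hCw
  have hCw1 : 1 ≤ Cw := le_trans (one_le_pow₀ hA1) (le_max_left _ _)
  refine ⟨Cw, hCw1, ?_⟩
  intro M _ Γ hΓ hSE E e₀ T I Dn R s ε he hs hs1 hT dens hsum hcI hR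
  have hm : ∀ x, 0 ≤ (T.s x : ℝ) * (T.mb x).im := fun x => by
    rcases eq_or_lt_of_le (zero_le (a := T.s x)) with h | h
    · rw [← h]; simp
    · exact mul_nonneg (NNReal.coe_nonneg _) (hc₀.le.trans (hT x h).2)
  have hk0 : 0 < c₀ * s := by positivity
  have hk1 : c₀ * s ≤ 1 := by nlinarith only [hc₀, hc₀1, hs1]
  have hal : ∀ x, 0 < T.s x → c₀ * s ≤ kap e₀ T x := fun x hx => by
    obtain ⟨h1, h2⟩ := hT x hx
    have h3 : c₀ * s ≤ (T.s x : ℝ) * (T.mb x).im := by nlinarith only [hc₀, h1, h2]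
    unfold kap
    linarith only [he, h3]
  have hβ : c * (c₀ * s) / (48 * d) = b₁ * s := by rw [hb₁]; ring
  have hβ0 : 0 < b₁ * s := by positivity
  have hb₁1 : b₁ ≤ 1 := by
    rw [hb₁, div_le_one (by positivity)]
    nlinarith only [hc, hc1, hc₀1, hd']
  have hβ1 : b₁ * s ≤ 1 := by nlinarith only [hb0, hs1, hb₁1]
  have hcI1 := cI_pos d Dn I
  set S₀ : ℝ := (K / (b₁ * s / 2)) ^ d with hS₀
  have hy : 1 ≤ K / (b₁ * s / 2) := by
    rw [le_div_iff₀ (by positivity)]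
    have : (24 : ℝ) ≤ K := by rw [hK]; linarith only [hd']
    linarith only [hd', hβ1]
  have hS1 : 1 ≤ S₀ := one_le_pow₀ hy
  set r₁ : ℝ := cI d Dn I + 1 / (b₁ * s) * Real.log S₀ with hr₁
  have hr : Real.exp (-(c * (c₀ * s) / (48 * d) * (r₁ - cI d Dn I))) * S₀ ≤ 1 := by
    rw [hβ, hr₁]
    have h1 : b₁ * s * (cI d Dn I + 1 / (b₁ * s) * Real.log S₀ - cI d Dn I) = Real.log S₀ := by
      field_simp
      ring
    rw [h1, Real.exp_neg, Real.exp_log (by linarith only [hS1])]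
    rw [inv_mul_cancel₀ (by linarith only [hS1])]
  have hw := wtsW (E := E) hΓ he hm dens hsum hd hk0 hk1 hal hc hc1 hR (S₀ := S₀) (r₁ := r₁)
    (fun o => by
      rw [hβ]
      have := hSE (b₁ * s / 2) (by positivity) (by linarith only [hβ1]) o
      rw [hS₀, hK]
      exact this) hr
  have hsp : ∀ q : ℝ, 0 ≤ q → 1 ≤ s ^ (-q) := fun q hq => by
    rw [Real.rpow_neg hs.le]
    exact (one_le_inv₀ (Real.rpow_pos_of_pos hs _)).2 (Real.rpow_le_one hs.le hs1 hq)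
  have h2 : (1 : ℝ) / s ^ 2 ≤ s ^ (-p) := by
    rw [Real.rpow_neg hs.le, one_div]
    apply inv_anti₀ (Real.rpow_pos_of_pos hs _)
    rw [← Real.rpow_natCast]
    exact Real.rpow_le_rpow_of_exponent_ge hs hs1 (by push_cast; exact hp)
  have hlog : Real.log S₀ ≤ d * (2 * K / (b₁ * s)) := by
    rw [hS₀, Real.log_pow]
    have h3 : Real.log (K / (b₁ * s / 2)) ≤ K / (b₁ * s / 2) - 1 :=
      Real.log_le_sub_one_of_pos (by linarith only [hy])
    have h4 : K / (b₁ * s / 2) = 2 * K / (b₁ * s) := by field_simp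
    rw [h4] at h3
    have h5 : Real.log (K / (b₁ * s / 2)) ≤ 2 * K / (b₁ * s) := by rw [h4]; linarith only [h3]
    exact mul_le_mul_of_nonneg_left h5 (by positivity)
  have hlog0 : 0 ≤ Real.log S₀ := Real.log_nonneg hS1
  have hr2 : 1 / (b₁ * s) * Real.log S₀ ≤ 2 * (d * K / b₁ ^ 2) * s ^ (-p) := by
    calc 1 / (b₁ * s) * Real.log S₀ ≤ 1 / (b₁ * s) * (d * (2 * K / (b₁ * s))) :=
          mul_le_mul_of_nonneg_left hlog (by positivity)
      _ = 2 * (d * K / b₁ ^ 2) * (1 / s ^ 2) := by field_simp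
      _ ≤ 2 * (d * K / b₁ ^ 2) * s ^ (-p) := mul_le_mul_of_nonneg_left h2 (by positivity)
  have hs_p := hsp p (by linarith only [hp])
  have hbase : 2 * (2 * (r₁ + cI d Dn I)) + 1 ≤ A * s ^ (-p) := by
    rw [hr₁, hA]
    have h5 : 0 ≤ d * K / b₁ ^ 2 := by positivity
    nlinarith [mul_nonneg h5 (by linarith only [hcI, hcI1] : (0 : ℝ) ≤ s ^ (-p))]
  have hr0 : 0 ≤ r₁ := by rw [hr₁]; positivity
  have hN : (2 * (2 * (r₁ + cI d Dn I)) + 1) ^ d ≤ Cw * s ^ (-Cw) := by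
    calc (2 * (2 * (r₁ + cI d Dn I)) + 1) ^ d ≤ (A * s ^ (-p)) ^ d :=
          pow_le_pow_left₀ (by linarith only [hcI1, hr0]) hbase d
      _ = A ^ d * s ^ (-(d * p)) := by
          rw [mul_pow, ← Real.rpow_natCast (s ^ (-p)) d, ← Real.rpow_mul hs.le]
          congr 2; ring
      _ ≤ Cw * s ^ (-Cw) := by
          refine mul_le_mul (le_max_left _ _) ?_ (Real.rpow_nonneg hs.le _) (by linarith only [hCw1])
          exact Real.rpow_le_rpow_of_exponent_ge hs hs1 (neg_le_neg (le_max_right _ _))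
  refine ⟨?_, hw.mono hN⟩
  have := hsp Cw (by linarith only [hCw1])
  nlinarith only [hCw1, this]


/-- WTS -/
theorem wtsT : WtsStmt := by
  intro d c₀ C₀ hd hc hc1 hC
  obtain ⟨Cw, hCw, h⟩ := wts_sW d (by omega) (1 / 4) c₀ 2 (by norm_num) (by norm_num) hc hc1 le_rfl
  refine ⟨Cw, hCw, ?_⟩
  intro V U hl hΓ he hUc hUC T run s δ n dd hs hs1 hrun hcl hgb hmis hdd hcard hsum hcI
  have hal : ∀ x, 0 < T.s x → x ∈ Al T := fun x hx => by
    rw [Al, Finset.mem_filter]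
    exact ⟨Finset.mem_univ _, hx⟩
  have hrp : ∀ x ∈ run, 0 < T.s x := fun x hx => by
    have h1 := hrun x hx
    have h2 : (0 : ℝ) < T.s x := by rw [h1]; exact hs
    exact_mod_cast h2
  have hg : ∀ x, 0 < T.s x → c₀ ≤ (T.mb x).im := fun x hx => by
    rw [← hUc]
    exact (hgb x (hal x hx)).1
  have hkpos : ∀ x, 0 < kap U.e₀ T x := by
    intro x
    unfold kap
    have h2 : 0 ≤ (T.s x : ℝ) * (T.mb x).im := by
      rcases eq_or_lt_of_le (zero_le (a := T.s x)) with h0 | h0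
      · rw [← h0]
        simp
      · exact mul_nonneg (NNReal.coe_nonneg _) (hc.le.trans (hg x h0))
    linarith only [he, h2]
  have hR : RunW (net U.E U.e₀ T) (kap U.e₀ T) run T.mb s (c₀ / 4) c₀ :=
    { hw := wk_net hkpos
      hs := hs
      hc := ⟨hc, hc1⟩
      hε := ⟨by positivity, le_rfl⟩
      hm := fun a ha => hg a (hrp a ha)
      hk := fun a ha => by
        unfold kap
        rw [hrun a ha]
        linarith only [he]
      hμ := hmis }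
  have h0 := (h (2 ^ V.μ) V.G (geoF_T d V.μ V.J V.N V.l V.r hl) (sumE_T d V.μ V.J V.N V.l V.r)
    U.E U.e₀ T (Finset.range n) V.Dn run s (c₀ / 4) he hs hs1
    (fun x hx => ⟨by
      rcases hcl x with h1 | h1
      · exact absurd h1 (pos_iff_ne_zero.1 hx)
      · exact h1, hg x hx⟩)
    ⟨dd, fun x hx => by
      obtain ⟨j, hj, hxj⟩ := hdd x hx
      exact ⟨j, Finset.mem_range.2 hj, hxj⟩, hcard⟩
    (by
      have : ∀ j, ((V.G.L j : ℕ) : ℝ) = 2 ^ V.l j := fun j => by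
        show ((2 ^ V.l j : ℕ) : ℝ) = _
        push_cast
        rfl
      simp_rw [this]
      exact hsum)
    (by
      unfold cI
      have : 0 ≤ ∑ j ∈ Finset.range n, (3 ^ d * V.Dn j : ℝ) :=
        Finset.sum_nonneg fun j _ => by positivity
      linarith only [hcI, this]) hR).2
  obtain ⟨e, B, w1, w2, w3, w4, w5⟩ := h0
  refine ⟨e, B, w1, w2, fun o ho a ha => ?_, w4, w5⟩
  have := w3 o ho a ha
  norm_num at this ⊢
  exact this

end Pool.Agent.AHH.H72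
end
end -- Pool.Agent.Helper72_AHH.WtsT

section -- Pool.Agent.Helper42_AHH.Fin

/-!
# AHH, field FIN: the end of a stage
-/

set_option autoImplicit false

open scoped BigOperators NNReal Matrix

noncomputable section

namespace Pool.Agent.AHH.H42

open Pool.Agent.BED (Tor)
open Pool.Agent.AND2B (net kap Prd Ev Viol)
open Pool.Agent.ANP (Cfg Geo Fc)
open Pool.Agent.AND.Num
open Pool.Agent.AHH.H61
open Pool.Agent.AHH.H28 (Nm fia mem_Al)

variable {d : ℕ}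

/-- the effect of the regauging on the thresholds, `Cr` from REG, `Cw` from WTS -/
def gx (Cr Cw s mis : ℝ) : ℝ := Cr * (1 + Real.log (Cw * s ^ (-Cw))) * mis

/-- the numbers before the regauging -/
abbrev fq (V : AND2B.Env d) (n k : ℕ) : Num := q1f V ((1 + (V.th : ℝ)) / 2) n k

/-- the dead sites of the levels `j < n` -/
theorem sumD (d : ℕ) (a es c C : ℝ) :
    Ev d a es c C fun V => ∀ n ≤ V.N + 1, ∀ s : ℝ, 0 < s → s ≤ V.sg n → s ≤ 1 ∧
      ∑ j ∈ Finset.range n, (3 ^ d * V.Dn j : ℝ) / 2 ^ V.l j ≤ 1 / 4 ∧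
      2 + 4 * ∑ j ∈ Finset.range n, (3 ^ d * V.Dn j : ℝ) ≤ s ^ (-2 : ℝ) := by
  have h1 : Ev d a es c C fun V => ∀ s : ℝ, 0 < s → s ≤ V.w →
      (s ≤ 1 ∧ 2 * s ^ (0 : ℝ) ≤ 1 / 2 * s ^ (-2 : ℝ)) ∧
      (4 * 3 ^ d * (1 / (1 - (V.th : ℝ) ^ (5 / 4 : ℝ)))) * s ^ (-(5 / 4) : ℝ) ≤
        1 / 2 * s ^ (-2 : ℝ) := by
    refine ev_small (fun th _ _ _ _ s =>
      (s ≤ 1 ∧ 2 * s ^ (0 : ℝ) ≤ 1 / 2 * s ^ (-2 : ℝ)) ∧
      (4 * 3 ^ d * (1 / (1 - (th : ℝ) ^ (5 / 4 : ℝ)))) * s ^ (-(5 / 4) : ℝ) ≤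
        1 / 2 * s ^ (-2 : ℝ)) ?_
    intro th c₁ C₁ α J _ _ _ _
    exact ((small_le 1 one_pos).and (small_pow' _ _ _ _ (by norm_num) (by norm_num))).and
      (small_pow' _ _ _ _ (by norm_num) (by norm_num))
  refine (h1.and ev_good).imp fun V hV n hn s hs hs' => ?_
  obtain ⟨h1, hG⟩ := hV
  have hP := hG.toPre
  have hsw := hs'.trans (sg_le hP n)
  obtain ⟨⟨g1, g2⟩, g3⟩ := h1 s hs hsw
  have hth0 : (0 : ℝ) < V.th := by exact_mod_cast th_pos hP
  have hth1 : (V.th : ℝ) ^ (5 / 4 : ℝ) < 1 := th_rpow_lt hP (by norm_num)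
  have hK : 0 < 1 - (V.th : ℝ) ^ (5 / 4 : ℝ) := by linarith only [hth1]
  refine ⟨g1, ?_, ?_⟩
  · refine le_trans ?_ hP.sc.ds
    refine Finset.sum_le_sum_of_subset_of_nonneg ?_ fun i _ _ => by positivity
    intro i hi
    rw [Finset.mem_range] at hi ⊢
    omega
  · have hS : ∀ n ≤ V.N + 1, ∑ j ∈ Finset.range n, (V.Dn j : ℝ) ≤
        1 / (1 - (V.th : ℝ) ^ (5 / 4 : ℝ)) * V.sg n ^ (-(5 / 4) : ℝ) := by
      intro n
      induction n with
      | zero =>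
        intro _
        rw [Finset.range_zero, Finset.sum_empty]
        have := sg_pos hP 0
        positivity
      | succ n ih =>
        intro hn
        rw [Finset.sum_range_succ]
        have e1 := ih (by omega)
        have e2 := hP.sc.dl n (by omega)
        have e3 := sg_succ hP n
        have p0 := sg_pos hP n
        have p1 := sg_pos hP (n + 1)
        have e4 : V.sg n ^ (-(5 / 4) : ℝ) ≤
            (V.th : ℝ) ^ (5 / 4 : ℝ) * V.sg (n + 1) ^ (-(5 / 4) : ℝ) := by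
          have e5 : (V.th * V.sg n : ℝ) ^ (-(5 / 4) : ℝ) ≤ V.sg (n + 1) ^ (-(5 / 4) : ℝ) :=
            Real.rpow_le_rpow_of_nonpos p1 e3 (by norm_num)
          rw [Real.mul_rpow hth0.le p0.le] at e5
          have e6 : (V.th : ℝ) ^ (5 / 4 : ℝ) * (V.th : ℝ) ^ (-(5 / 4) : ℝ) = 1 := by
            rw [← Real.rpow_add hth0]
            norm_num
          calc V.sg n ^ (-(5 / 4) : ℝ) =
              (V.th : ℝ) ^ (5 / 4 : ℝ) * ((V.th : ℝ) ^ (-(5 / 4) : ℝ) *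
                V.sg n ^ (-(5 / 4) : ℝ)) := by rw [← mul_assoc, e6, one_mul]
            _ ≤ _ := mul_le_mul_of_nonneg_left e5 (by positivity)
        have e7 : (V.Dn n : ℝ) ≤ V.sg (n + 1) ^ (-(5 / 4) : ℝ) := e2
        have e8 := mul_le_mul_of_nonneg_left e4 (one_div_pos.2 hK).le
        have e9 : 1 / (1 - (V.th : ℝ) ^ (5 / 4 : ℝ)) *
            ((V.th : ℝ) ^ (5 / 4 : ℝ) * V.sg (n + 1) ^ (-(5 / 4) : ℝ)) +
            V.sg (n + 1) ^ (-(5 / 4) : ℝ) =
            1 / (1 - (V.th : ℝ) ^ (5 / 4 : ℝ)) * V.sg (n + 1) ^ (-(5 / 4) : ℝ) := by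
          field_simp
          ring
        linarith only [e1, e2, e8, e9]
    have e1 := hS n hn
    have e2 : V.sg n ^ (-(5 / 4) : ℝ) ≤ s ^ (-(5 / 4) : ℝ) :=
      Real.rpow_le_rpow_of_nonpos hs hs' (by norm_num)
    have e3 := e1.trans (mul_le_mul_of_nonneg_left e2 (one_div_pos.2 hK).le)
    have e4 : ∑ j ∈ Finset.range n, (3 ^ d * V.Dn j : ℝ) =
        3 ^ d * ∑ j ∈ Finset.range n, (V.Dn j : ℝ) := by
      rw [Finset.mul_sum]
    rw [e4]
    have e5 := mul_le_mul_of_nonneg_left e3 (by positivity : (0 : ℝ) ≤ 4 * 3 ^ d)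
    rw [Real.rpow_zero] at g2
    nlinarith only [e5, g2, g3]

/-- FIELD FIN, for one environment -/
theorem fin_core {a c C Cr Cw : ℝ} (hC : 1 ≤ C) (hCw : 1 ≤ Cw)
    (hR : ∀ (d M : ℕ) [NeZero M] (V : Env d M) (q q' : Num) (s N : ℝ) (T : Cfg (Tor d M))
      (run : Finset (Tor d M)), V.c₀ = c / 2 → V.C₀ = 2 * C → 1 ≤ N →
      RegH V q q' s (Cr * (1 + Real.log N) * q.mis) → StN V q s T run →
      (∀ x ∈ run, (T.s x : ℝ) = s) → (∀ x ∈ Al T, (V.G₀ x x).im ≤ 2 * C) →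
      Wts V T run s (1 / 16) N → ∃ m, StN V q' s (T.rg m) run)
    (hW : ∀ (V : AND2B.Env d) (U : Env d (2 ^ V.μ)), Monotone V.l → U.Γ = V.G → 0 < U.e₀ →
      U.c₀ = c / 2 → U.C₀ = 2 * C → ∀ (T : Cfg V.X) (run : Finset V.X) (s δ : ℝ) (n : ℕ)
      (dd : ℕ → Finset V.X), 0 < s → s ≤ 1 → (∀ x ∈ run, (T.s x : ℝ) = s) →
      (∀ x, T.s x = 0 ∨ s ≤ T.s x) → Gb U T δ →
      (∀ x ∈ run, ‖net U.E U.e₀ T x x - T.mb x‖ ≤ c / 2 / 4) →
      (∀ x, T.s x = 0 → ∃ j < n, x ∈ dd j) → (∀ j B, (dd j ∩ V.G.blk j B).card ≤ V.Dn j) →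
      ∑ j ∈ Finset.range n, (3 ^ d * V.Dn j : ℝ) / 2 ^ V.l j ≤ 1 / 4 →
      2 + 4 * ∑ j ∈ Finset.range n, (3 ^ d * V.Dn j : ℝ) ≤ s ^ (-2 : ℝ) →
        Wts U T run s (1 / 16) (Cw * s ^ (-Cw)))
    {V : AND2B.Env d} (hG : V.Good a es c C) (hNm : ∀ n k, Nm (toE V c C) (bud V) n k)
    (hD : ∀ n ≤ V.N + 1, ∀ s : ℝ, 0 < s → s ≤ V.sg n → s ≤ 1 ∧
      ∑ j ∈ Finset.range n, (3 ^ d * V.Dn j : ℝ) / 2 ^ V.l j ≤ 1 / 4 ∧
      2 + 4 * ∑ j ∈ Finset.range n, (3 ^ d * V.Dn j : ℝ) ≤ s ^ (-2 : ℝ))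
    (hr : ∀ k, k ≤ V.kk (V.N + 1) → ∀ g : ℝ, c / 2 ≤ g →
      V.e₀ + (V.cl (k + 1) : ℝ) * g ≤ (1 + (V.th : ℝ)) / 2 * (V.e₀ + (V.cl k : ℝ) * g))
    (hF : ∀ n k, n ≤ V.N → V.kk n ≤ k → k < V.kk (n + 1) →
      RegH (toE V c C) (fq V n k) (qq V n (k + 1)) (V.cl (k + 1))
        (gx Cr Cw (V.cl (k + 1)) (fq V n k).mis)) : (Z d a es c C).Fin V := by
  intro n k T₀ run₀ T run hn hk hk' hv0 hv hS0 hF0 hFc hM
  change Md (toE V c C) (bud V) n k T₀ run₀ Finset.univ T run at hM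
  have hP := hG.toPre
  have hk1 := cl_pos' hP (k + 1)
  have hRH := hF n k hn hk hk'
  have hs1 : (V.cl (k + 1) : ℝ) ≤ V.sg n := cl_anti' hP (by omega)
  obtain ⟨d1, d2, d3⟩ := hD n (by omega) _ hk1 hs1
  -- before the regauging
  have hN1 : StN (toE V c C) (fq V n k) (V.cl (k + 1)) T run :=
    fia (hNm n k) (fun x => Psi_le_Gt d V.μ V.J V.N V.l V.r n _ x) hFc (by exact_mod_cast hk1) hM
      (fun g hg => hr k (hk'.le.trans (kk_mono hP (by omega))) g hg) le_rfl le_rfl le_rfl le_rfl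
      le_rfl le_rfl
  have hrs : ∀ x ∈ run, (T.s x : ℝ) = V.cl (k + 1) := fun x hx => by
    have := hFc.runs x hx
    rw [if_pos (Finset.mem_univ x)] at this
    rw [this]
  have hsx : ∀ x, T.s x = 0 ∨ (V.cl (k + 1) : ℝ) ≤ T.s x := by
    intro x
    by_cases hx : x ∈ run
    · exact Or.inr (hrs x hx).ge
    · rcases hFc.rest x hx with h | h
      · exact Or.inl h
      · rw [if_pos (Finset.mem_univ x)] at h
        exact Or.inr (by exact_mod_cast h.1)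
  obtain ⟨dd, hdd, hcard⟩ := hM.ded
  have hwt := hW V (toE V c C) hP.sc.lm rfl hG.e0 rfl rfl T run _ _ n dd hk1 d1 hrs hsx hN1.gau
    (fun x hx => (hN1.mis x hx).trans hRH.mis0.2) hdd hcard d2 d3
  have h1N : 1 ≤ Cw * (V.cl (k + 1) : ℝ) ^ (-Cw) := by
    have : 1 ≤ (V.cl (k + 1) : ℝ) ^ (-Cw) := by
      rw [Real.rpow_neg hk1.le]
      exact (one_le_inv₀ (Real.rpow_pos_of_pos hk1 _)).2
        (Real.rpow_le_one hk1.le d1 (by linarith only [hCw]))
    nlinarith only [hCw, this]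
  obtain ⟨m, hm⟩ := hR d (2 ^ V.μ) (toE V c C) (fq V n k) (qq V n (k + 1)) (V.cl (k + 1))
    (Cw * (V.cl (k + 1) : ℝ) ^ (-Cw)) T run rfl rfl h1N hRH hN1 hrs (fun x _ => by
      show (LE.QD.rs (0 : Tor d (2 ^ V.μ) → ℝ) V.ζ x x).im ≤ 2 * C
      rw [hG.st.hm x]
      have h1 := hG.st.hc.2
      have h2 := Complex.abs_im_le_norm V.m
      have h3 := le_abs_self V.m.im
      linarith only [hC, h1, h2, h3]) hwt
  exact ⟨m, hm, hM.old, hM.ded⟩

/-- the numbers of the field `fin` -/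
def StpFStmt : Prop :=
  ∀ (d : ℕ) (a c C Cr Cw : ℝ), 3 ≤ d → 0 < a → 0 < c → c ≤ 1 / 2 → 1 ≤ C → 1 ≤ Cr → 1 ≤ Cw →
    Ev d a es c C fun V => ∀ n k, n ≤ V.N → V.kk n ≤ k → k < V.kk (n + 1) →
      Stp (q1f V ((1 + (V.th : ℝ)) / 2) n k) (qq V n (k + 1)) (V.cl (k + 1))
        (Cr * (1 + Real.log (Cw * (V.cl (k + 1) : ℝ) ^ (-Cw))) *
          (q1f V ((1 + (V.th : ℝ)) / 2) n k).mis)

/-- FIELD FIN -/
theorem finF (hReg : RegStmt) (hWts : WtsStmt) (hNum : StpFStmt) : FinF := by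
  intro d a c C hd ha hc hc' hC
  obtain ⟨Cr, hCr, hR⟩ := hReg (c / 2) (2 * C) (by linarith only [hc]) (by linarith) (by linarith only [hc, hc', hC])
  obtain ⟨Cw, hCw, hW⟩ := hWts d (c / 2) (2 * C) hd (by linarith only [hc]) (by linarith only [hc, hc']) (by linarith)
  refine ((((hNum d a c C Cr Cw hd ha hc hc' hC hCr hCw).and (sumD d a es c C)).and
    (nm d a c C hc hC)).and ((((regH d a c C hc hc' hC).and (bse_f d a c C hc hc' hC)).and
      (ratio d a c C hc)).and ev_good)).imp fun V hV => ?_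
  obtain ⟨⟨⟨h1, h2⟩, h3⟩, ⟨⟨h4, h5⟩, h6⟩, h7⟩ := hV
  refine fin_core hC hCw hR hW h7 h3 h2 h6 fun n k hn hk hk' => ?_
  have hth : (0 : ℝ) ≤ V.th := NNReal.coe_nonneg _
  have hth1 : (V.th : ℝ) < 1 := by exact_mod_cast h7.th.2
  exact h4 n (k + 1) _ _ _ (cl_pos' h7.toPre _) (h5 _ n k (by linarith only [hc, hc']) (by linarith only [hth1]) hn)
    (h1 n k hn hk hk')

end Pool.Agent.AHH.H42
end
end -- Pool.Agent.Helper42_AHH.Fin

section -- Pool.Agent.Helper96_AHH.Stp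

/-!
# AND2B (MP_1906c1_mp): the step of the budget `k → k + 1`
-/

set_option autoImplicit false

open scoped BigOperators NNReal

noncomputable section

namespace Pool.Agent.AHH.H96

open Pool.Agent.BED (Tor)
open Pool.Agent.AND2B (Ev)
open Pool.Agent.AND.Num
open Pool.Agent.AHH.H61

/-- the change by the regauging -/
def xx (Cr Cw : ℝ) (s : ℝ) (q : Num) : ℝ := Cr * (1 + Real.log (Cw * s ^ (-Cw))) * q.mis

/-- `x ≥ 0` -/
theorem xx_nonneg (Cr Cw s : ℝ) (q : Num) (hCr : 0 ≤ Cr) (hCw : 1 ≤ Cw) (hs : 0 < s) (hs1 : s ≤ 1)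
    (hq : 0 ≤ q.mis) : 0 ≤ xx Cr Cw s q := by
  have h1 : 1 ≤ s ^ (-Cw) := Real.one_le_rpow_of_pos_of_le_one_of_nonpos hs hs1 (by linarith only [hCw])
  have h2 : 1 ≤ Cw * s ^ (-Cw) := by nlinarith only [hCw, h1]
  have h3 := Real.log_nonneg h2
  unfold xx
  positivity

/-- THE NUMBERS OF `fin`, the steps -/
theorem sixF (d : ℕ) (a c C Cr Cw : ℝ) (hCr : 0 ≤ Cr) (hCw : 1 ≤ Cw) :
    Ev d a es c C fun V => ∀ n k, ∀ r : ℝ, r ≤ (1 + V.th) / 2 →
      Stp (q1f V r n k) (qq V n (k + 1)) (V.cl (k + 1))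
        (Cr * (1 + Real.log (Cw * (V.cl (k + 1) : ℝ) ^ (-Cw))) * (q1f V r n k).mis) := by
  have hcp : 0 < cpd d := by have := one_le_cpd d; linarith
  have h1 : Ev d a es c C fun V => ∀ s : ℝ, 0 < s → s ≤ V.w →
      s ≤ 1 ∧ StgP Cr Cw (cpd d) V.th (kaf V.α) s := by
    refine ev_small (fun th _ _ α _ s => s ≤ 1 ∧ StgP Cr Cw (cpd d) th (kaf α) s) ?_
    intro th c₁ C₁ α J h1 h2 _ hα
    have h3 : (1 / 2 : ℝ) ≤ th := by exact_mod_cast h1
    have h4 : (th : ℝ) < 1 := by exact_mod_cast h2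
    exact (small_le 1 one_pos).and (stage Cr Cw (cpd d) th (kaf α) h3 h4 hCr hCw hcp (kaf_pos α)
      (by have := kaf_le hα; linarith only [h1, h2, this]))
  refine (ev_good.and h1).imp fun V hV n k r hr => ?_
  obtain ⟨hG, hV⟩ := hV
  have hP : V.Pre a := hG.toPre
  have hs := cl_pos' hP k
  obtain ⟨hs1, hX, hS⟩ := hV (V.cl k) hs (cl_le' hP k)
  have hcs : (V.cl (k + 1) : ℝ) = V.th * V.cl k := by
    rw [cl_succ V k]
    push_cast
    rfl
  have hth1 : (V.th : ℝ) ≤ 1 := by exact_mod_cast hP.th.2.le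
  have hs' := cl_pos' hP (k + 1)
  have hs'1 : (V.cl (k + 1) : ℝ) ≤ 1 := (cl_anti' hP (Nat.le_succ k)).trans hs1
  have hsg0 := sg_pos hP n
  have hsg1 : V.sg n ≤ 1 := (sg_le hP n).trans (by
    have := (hV V.w (w_pos hP) le_rfl).1
    exact this)
  have hmis : (q1f V r n k).mis =
      (V.cl k : ℝ) ^ (1 / 8 : ℝ) + (V.cl k : ℝ) ^ (1 / 8 - 1 / 200 : ℝ) * cpd d := rfl
  have hmis0 : 0 ≤ (q1f V r n k).mis := by
    rw [hmis]
    positivity
  have hx0 : 0 ≤ xx Cr Cw (V.cl (k + 1)) (q1f V r n k) :=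
    xx_nonneg _ _ _ _ hCr hCw hs' hs'1 hmis0
  have hx1 : xx Cr Cw (V.cl (k + 1)) (q1f V r n k) ≤ (V.cl k : ℝ) ^ (1 / 9 : ℝ) := by
    unfold xx
    rw [hmis, hcs]
    exact hX
  obtain ⟨t1, t2, t3, t4, t5, t6⟩ := hS _ hx0 hx1
  change Stp (q1f V r n k) (qq V n (k + 1)) (V.cl (k + 1)) (xx Cr Cw (V.cl (k + 1)) (q1f V r n k))
  obtain ⟨X, hXd⟩ : ∃ X, X = xx Cr Cw (V.cl (k + 1)) (q1f V r n k) := ⟨_, rfl⟩
  rw [← hXd] at t1 t2 t3 t4 t5 t6 hx0 hx1 ⊢
  refine ⟨hx1.trans (Real.rpow_le_one hs.le hs1 (by norm_num)), ?_, ?_, ?_, ?_, ?_, ?_⟩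
  · show gr V (1 / 20) n k + (V.cl k : ℝ) ^ (1 / 8 - 1 / 200 : ℝ) * cpd d + X ≤
      gr V (1 / 20) n (k + 1)
    rw [gr_stage]
    linarith only [t1]
  · show X ^ 2 ≤ (V.cl (k + 1) : ℝ) ^ (1 / 8 : ℝ)
    rw [hcs]
    exact t2
  · show ((1 / 4 * (V.cl k : ℝ) ^ (-(3 / 4) : ℝ) * (2 - V.sg n ^ (1 / 400 : ℝ)) *
      (1 + (1 - (V.th : ℝ)) / (8 * cpd d) * cpd d)) ^ (1 / 4 : ℝ) +
        X * (V.cl (k + 1) : ℝ) ^ (-(1 / 4) : ℝ)) ^ 4 ≤
      1 / 4 * (V.cl (k + 1) : ℝ) ^ (-(3 / 4) : ℝ) * (2 - V.sg n ^ (1 / 400 : ℝ))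
    rw [hcs]
    have h5 : V.sg n ^ (1 / 400 : ℝ) ≤ 1 := Real.rpow_le_one hsg0.le hsg1 (by norm_num)
    have h6 : 0 < (V.cl k : ℝ) ^ (-(3 / 4) : ℝ) := Real.rpow_pos_of_pos hs _
    have h7 := t3 (1 / 4 * (V.cl k : ℝ) ^ (-(3 / 4) : ℝ) * (2 - V.sg n ^ (1 / 400 : ℝ)))
      (by
        have : 1 / 4 * (V.cl k : ℝ) ^ (-(3 / 4) : ℝ) * 1 ≤
            1 / 4 * (V.cl k : ℝ) ^ (-(3 / 4) : ℝ) * (2 - V.sg n ^ (1 / 400 : ℝ)) :=
          mul_le_mul_of_nonneg_left (by linarith only [h5]) (by positivity)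
        linarith only [this])
    refine h7.trans (le_of_eq ?_)
    rw [Real.mul_rpow (NNReal.coe_nonneg _) hs.le]
    ring
  · show gr V (1 / 400) n k + (V.cl k : ℝ) ^ (1 / 16 : ℝ) + (bud V).inY n k * cpd d + X ≤
      gr V (1 / 400) n (k + 1)
    have h5 : (bud V).inY n k ≤ (V.cl k : ℝ) ^ (1 / 20 : ℝ) := rpow_anti hs hs1 (by norm_num)
    have h6 := t4 _ h5
    rw [gr_stage]
    linarith only [h6]
  · show (V.cl k : ℝ) ^ (ka V / 2) * (2 - V.sg n ^ ka V) * r + (V.cl k : ℝ) ^ ka V * cpd d + X ≤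
      (V.cl (k + 1) : ℝ) ^ (ka V / 2) * (2 - V.sg n ^ ka V)
    have h5 : V.sg n ^ ka V ≤ 1 := Real.rpow_le_one hsg0.le hsg1 ka_pos.le
    have h6 := t5 (2 - V.sg n ^ ka V) (by linarith only [h5])
    have h7 : 0 < (V.cl k : ℝ) ^ (ka V / 2) := Real.rpow_pos_of_pos hs _
    have h8 : (V.cl k : ℝ) ^ (ka V / 2) * (2 - V.sg n ^ ka V) * r ≤
        (V.cl k : ℝ) ^ (ka V / 2) * (2 - V.sg n ^ ka V) * ((1 + V.th) / 2) :=
      mul_le_mul_of_nonneg_left hr (mul_nonneg h7.le (by linarith only [h5]))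
    rw [← ka_eq] at h6
    rw [hcs, Real.mul_rpow (NNReal.coe_nonneg _) hs.le, mul_assoc ((V.th : ℝ) ^ (ka V / 2))]
    linarith only [h6, h8]
  · show gr V (ka V / 4) n k + (V.cl k : ℝ) ^ ka V * cpd d + X ≤ gr V (ka V / 4) n (k + 1)
    rw [← ka_eq] at t6
    rw [gr_stage]
    linarith only [t6]

end Pool.Agent.AHH.H96
end
end -- Pool.Agent.Helper96_AHH.Stp

section -- Pool.Agent.Helper96_AHH.FinT

/-!
# AND2B (MP_1906c1_mp): the field `fin`
-/

set_option autoImplicit false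

noncomputable section

namespace Pool.Agent.AHH.H96

/-- THE FIELD `fin` -/
theorem finT : FinF :=
  H42.finF H72.regT H72.wtsT fun d a c C Cr Cw _ _ _ _ _ hCr hCw =>
    (sixF d a c C Cr Cw (by linarith) hCw).imp fun _ h n k _ _ _ => h n k _ le_rfl

end Pool.Agent.AHH.H96
end
end -- Pool.Agent.Helper96_AHH.FinT

section -- Pool.Agent.Helper22_QDU.H61RegN
/-!
# AND2B (MP_1906c1_mp): the numbers of REG
-/

set_option autoImplicit false

open scoped BigOperators NNReal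

noncomputable section

namespace Pool.Agent.QDU.H61

open Pool.Agent.AHH hiding BegF FinF FloF IniF KilF MmonF OutF RbegF RfinF RmonF ana0
open Pool.Agent.AHH.H61 hiding bse_f bse_r budOk ev_be ev_c1 ev_e0 ev_good ev_small ev_small_be ev_th ev_thr im_G0 nm ratio regH

open Pool.Agent.BED (Tor)

open Pool.Agent.AND.Num
open Pool.Agent.AHH.H16 (BudOk)

/-- the other conditions of `RegH` -/
theorem regH (d : ℕ) (a c C : ℝ) (hc : 0 < c) (hc2 : c ≤ 1 / 2) (hC : 1 ≤ C) :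
    Ev2 d a es c C fun V => ∀ (n k : ℕ) (q : AHH.Num) (s x : ℝ), 0 < s → Bse c q →
      Stp q (qq V n k) s x → RegH (toE V c C) q (qq V n k) s x := by
  have h1 := ev_thr d a c C 0 (min (c / 2) (1 / (4 * C))) (lt_min (by positivity)
    (by positivity))
  have h2 : Ev2 d a es c C fun V => ∀ s : ℝ, 0 < s → s ≤ V.w → s ≤ 1 :=
    ev_small (fun _ _ _ _ s => s ≤ 1) fun _ _ _ _ _ _ _ _ _ => small_le 1 one_pos
  refine ((h1.and h2).and ev_good).imp fun V hV n k q s x hs hb hS => ?_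
  obtain ⟨⟨h1, h2⟩, hG⟩ := hV
  have hP : V.Pre a := hG.toPre
  have hw := w_pos hP
  have hw1 := h2 V.w hw le_rfl
  obtain ⟨_, h3, h4, _⟩ := h1 n k
  have m1 := min_le_left (c / 2) (1 / (4 * C))
  have m2 := min_le_right (c / 2) (1 / (4 * C))
  have hC0 : 0 < C := by linarith only [hc, hc2, hC]
  obtain ⟨g1, g2⟩ := hG.st.toStart.hc
  have h5 : 1 / (2 * C) ≤ 1 := by
    rw [div_le_one (by positivity)]
    linarith only [hc, hc2, hC]
  refine
    { s0 := hs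
      e0 := hG.e0
      D0 := ⟨mul_pos hc (Real.rpow_pos_of_pos hw _), ?_⟩
      u0 := by
        show 0 ≤ 1 - 1 / (2 * C)
        linarith only [h5]
      mis0 := hb.mis0
      del0 := hb.del0
      lam0 := hb.lam0
      th0 := hb.th0
      ep0 := hb.ep0
      rh0 := hb.rh0
      x1 := hS.x1
      gc := ?_
      gC := ?_
      del := hS.del
      mis := hS.mis
      lam := hS.lam
      tht := hS.tht
      eps := hS.eps
      rho := hS.rho
      u1 := ?_ }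
  · show c * (V.w : ℝ) ^ (8 * es - 1) ≤ 4 * C ^ 3 / V.w
    rw [le_div_iff₀ hw, mul_assoc]
    have h6 : (V.w : ℝ) ^ (8 * es - 1) * V.w = (V.w : ℝ) ^ (8 * es) := by
      nth_rewrite 2 [← Real.rpow_one (V.w : ℝ)]
      rw [← Real.rpow_add hw]
      congr 1
      ring
    have h7 : (V.w : ℝ) ^ (8 * es) ≤ 1 := Real.rpow_le_one hw.le hw1 (by norm_num [es])
    rw [h6]
    have h8 : (1 : ℝ) ≤ C ^ 3 := one_le_pow₀ hC
    have h9 : 0 ≤ (V.w : ℝ) ^ (8 * es) := Real.rpow_nonneg hw.le _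
    nlinarith only [hc, hc2, h7, h8]
  · show c / 2 + (qq V n k).del ≤ V.m.im
    linarith only [h4, m1, g1]
  · show ‖V.m‖ + (qq V n k).del ≤ 2 * C
    linarith only [hc, hc2, hC, h4, m1, g2]
  · show 1 - 1 / (2 * C) + (qq V n k).rho < 1
    have h6 : 1 / (4 * C) < 1 / (2 * C) := by
      rw [div_lt_div_iff₀ (by positivity) (by positivity)]
      linarith only [hc, hc2, hC]
    have h7 : (qq V n k).rho ≤ 1 / (4 * C) := by linarith only [h3, m2]
    linarith only [h3, m2, h6]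

/-- the numbers before the change of the gauge are small: stages -/
theorem bse_f (d : ℕ) (a c C : ℝ) (hc : 0 < c) (hc2 : c ≤ 1 / 2) (hC : 1 ≤ C) :
    Ev2 d a es c C fun V => ∀ (r : ℝ) (n k : ℕ), 0 ≤ r → r ≤ 1 → n ≤ V.N → Bse c (q1f V r n k) := by
  have h1 := ev_thr d a c C (cpd d) (c / 16) (by positivity)
  refine ((budOk d a c C hc hC).and h1).imp fun V hV r n k hr hr1 hn => ?_
  obtain ⟨hB, h1⟩ := hV
  obtain ⟨t1, t2, t3, t4, t5, t6, t7, t8⟩ := h1 n k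
  obtain ⟨q1, q2, q3, q4, q5⟩ := hB.q n k
  obtain ⟨i1, i2, i3, i4⟩ := hB.inc n k
  have hcp : 0 ≤ cpd d := by
    have := one_le_cpd d
    linarith only [hc, hc2, this]
  have b1 : 0 ≤ (bud V).inc n k * cpd d := mul_nonneg i1 hcp
  have b2 : 0 ≤ (bud V).inL n k * cpd d := mul_nonneg i2 hcp
  have b3 : 0 ≤ (bud V).inY n k * cpd d := mul_nonneg i3 hcp
  have b4 : 0 ≤ (bud V).nn n k * cpd d := mul_nonneg i4 hcp
  have e1 : (bud V).inc n k * cpd d = cpd d * (bud V).inc n k := mul_comm _ _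
  have e3 : (bud V).inY n k * cpd d = cpd d * (bud V).inY n k := mul_comm _ _
  have e4 : (bud V).nn n k * cpd d = cpd d * (bud V).nn n k := mul_comm _ _
  have q1' : 0 ≤ (qq V n k).mis := q1
  have q2' : 0 ≤ (qq V n k).lam := q2
  have q3' : 0 ≤ (qq V n k).tht := q3
  have q4' : 0 ≤ (qq V n k).eps := q4
  have q5' : (qq V n k).eps ≤ (qq V n k).rho := q5
  have hthm : 0 ≤ (bud V).thm n k := by
    show 0 ≤ (qq V n k).tht + (V.cl k : ℝ) ^ (1 / 16 : ℝ)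
    have := Real.rpow_nonneg (NNReal.coe_nonneg (V.cl k)) (1 / 16 : ℝ)
    linarith only [q3', this]
  have h2 : (qq V n k).eps * r ≤ (qq V n k).eps := by nlinarith only [hc, hc2, hr1, q4']
  have h3 : 0 ≤ (qq V n k).eps * r := mul_nonneg q4' hr
  exact
    { mis0 := ⟨by
        show 0 ≤ (qq V n k).mis + (bud V).inc n k * cpd d
        linarith only [b1, q1'], by
        show (qq V n k).mis + (bud V).inc n k * cpd d ≤ c / 2 / 4
        linarith only [t4, t7]⟩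
      del0 := by
        show (qq V n k).del + (bud V).inc n k * cpd d ≤ 1
        linarith only [hc, hc2, t3, t7]
      lam0 := by
        show 0 ≤ (qq V n k).lam * (1 + (bud V).inL n k * cpd d)
        exact mul_nonneg q2' (by linarith only [hc, hc2, b2])
      th0 := ⟨by
        show 0 ≤ (bud V).thm n k + (bud V).inY n k * cpd d
        linarith only [b3, hthm], by
        show (bud V).thm n k + (bud V).inY n k * cpd d ≤ 1 / 2
        linarith only [hc, hc2, t6, t8]⟩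
      ep0 := ⟨by
        show 0 ≤ (qq V n k).eps * r + (bud V).nn n k * cpd d
        linarith only [b4, h3], by
        show (qq V n k).eps * r + (bud V).nn n k * cpd d ≤ 1
        linarith only [hc, hc2, t1, h2]⟩
      rh0 := ⟨by
        show 0 ≤ (qq V n k).rho + (bud V).nn n k * cpd d
        linarith only [b4, q4', q5'], by
        show (qq V n k).rho + (bud V).nn n k * cpd d ≤ 1
        linarith only [hc, hc2, t2]⟩ }

/-- the numbers before the change of the gauge are small: release phases -/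
theorem bse_r (d : ℕ) (a c C : ℝ) (hc : 0 < c) (hc2 : c ≤ 1 / 2) (hC : 1 ≤ C) :
    Ev2 d a es c C fun V => ∀ n : ℕ, Bse c (q1r V n) := by
  have h1 := ev_thr d a c C 0 (c / 16) (by positivity)
  have h2 : Ev2 d a es c C fun V => ∀ s : ℝ, 0 < s → s ≤ V.w →
      2 * s ^ (1 / 10 : ℝ) ≤ c / 16 * s ^ (0 : ℝ) ∧ 2 * s ^ (1 / 100 : ℝ) ≤ c / 16 * s ^ (0 : ℝ) :=
    ev_small (fun _ _ _ _ s => 2 * s ^ (1 / 10 : ℝ) ≤ c / 16 * s ^ (0 : ℝ) ∧
      2 * s ^ (1 / 100 : ℝ) ≤ c / 16 * s ^ (0 : ℝ)) fun _ _ _ _ _ _ _ _ _ =>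
        (small_pow' 2 (c / 16) _ _ (by positivity) (by norm_num)).and
          (small_pow' 2 (c / 16) _ _ (by positivity) (by norm_num))
  refine (((budOk d a c C hc hC).and h1).and (h2.and ev_good)).imp fun V hV n => ?_
  obtain ⟨⟨hB, h1⟩, h2, hG⟩ := hV
  have hP : V.Pre a := hG.toPre
  obtain ⟨t1, t2, t3, t4, t5, t6, t7, t8⟩ := h1 n (V.kk (n + 1))
  obtain ⟨q1, q2, q3, q4, q5⟩ := hB.q n (V.kk (n + 1))
  obtain ⟨i1, i2, i3, i4, _⟩ := hB.icR n
  obtain ⟨g1, g2⟩ := h2 (V.sg (n + 1)) (sg_pos hP _) (sg_le hP _)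
  rw [Real.rpow_zero] at g1 g2
  have i1' : 0 ≤ (bud V).icR n := i1
  have i2' : 0 ≤ (bud V).lR n := i2
  have i3' : 0 ≤ (bud V).yR n := i3
  have i4' : 0 ≤ (bud V).nR n := i4
  have j1 : 2 * (bud V).icR n ≤ c / 16 := by
    show 2 * V.sg (n + 1) ^ (1 / 10 : ℝ) ≤ c / 16
    linarith only [g1]
  have j3 : 2 * (bud V).yR n ≤ c / 16 := by
    show 2 * V.sg (n + 1) ^ (1 / 100 : ℝ) ≤ c / 16
    linarith only [g2]
  have j4 : 2 * (bud V).nR n ≤ c / 16 := by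
    show 2 * V.sg (n + 1) ^ (1 / 100 : ℝ) ≤ c / 16
    linarith only [g2]
  have q1' : 0 ≤ (qq V n (V.kk (n + 1))).mis := q1
  have q2' : 0 ≤ (qq V n (V.kk (n + 1))).lam := q2
  have q3' : 0 ≤ (qq V n (V.kk (n + 1))).tht := q3
  have q4' : 0 ≤ (qq V n (V.kk (n + 1))).eps := q4
  have q5' : (qq V n (V.kk (n + 1))).eps ≤ (qq V n (V.kk (n + 1))).rho := q5
  exact
    { mis0 := ⟨by
        show 0 ≤ (qq V n (V.kk (n + 1))).mis + 2 * (bud V).icR n
        linarith only [i1, q1'], by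
        show (qq V n (V.kk (n + 1))).mis + 2 * (bud V).icR n ≤ c / 2 / 4
        linarith only [t4, j1]⟩
      del0 := by
        show (qq V n (V.kk (n + 1))).del + 2 * (bud V).icR n ≤ 1
        linarith only [hc, hc2, t3, j1]
      lam0 := by
        show 0 ≤ (qq V n (V.kk (n + 1))).lam * (1 + 2 * (bud V).lR n)
        exact mul_nonneg q2' (by linarith only [hc, hc2, i2])
      th0 := ⟨by
        show 0 ≤ (qq V n (V.kk (n + 1))).tht + 2 * (bud V).yR n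
        linarith only [i3, q3'], by
        show (qq V n (V.kk (n + 1))).tht + 2 * (bud V).yR n ≤ 1 / 2
        linarith only [hc, hc2, t5, j3]⟩
      ep0 := ⟨by
        show 0 ≤ (qq V n (V.kk (n + 1))).eps + 2 * (bud V).nR n
        linarith only [i4, q4'], by
        show (qq V n (V.kk (n + 1))).eps + 2 * (bud V).nR n ≤ 1
        linarith only [hc, hc2, t1, j4]⟩
      rh0 := ⟨by
        show 0 ≤ (qq V n (V.kk (n + 1))).rho + 2 * (bud V).nR n
        linarith only [i4, q4', q5'], by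
        show (qq V n (V.kk (n + 1))).rho + 2 * (bud V).nR n ≤ 1
        linarith only [hc, hc2, t2, j4]⟩ }

/-- the ratio of the weights in a stage: `r = (1 + th) / 2` (condition `hr` of `fia`) -/
theorem ratio (d : ℕ) (a c C : ℝ) (hc : 0 < c) :
    Ev2 d a es c C fun V => ∀ k, k ≤ V.kk (V.N + 1) → ∀ g : ℝ, c / 2 ≤ g →
      V.e₀ + (V.cl (k + 1) : ℝ) * g ≤ (1 + (V.th : ℝ)) / 2 * (V.e₀ + (V.cl k : ℝ) * g) := by
  have h1 : Ev2 d a es c C fun V => V.e₀ ≤ c / 2 * V.sg (V.N + 1) := by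
    refine ev_e0 (fun V => c / 2 * V.sg (V.N + 1)) (fun V hV => ?_) (fun V e₀ m ζ => rfl)
    exact mul_pos (by positivity) (sg_pos hV _)
  refine (h1.and ev_good).imp fun V hV k hk g hg => ?_
  obtain ⟨h1, hG⟩ := hV
  have hP : V.Pre a := hG.toPre
  have h2 : (V.cl (k + 1) : ℝ) = V.th * V.cl k := by
    rw [cl_succ V k]
    push_cast
    rfl
  have h3 := sg_last hP hk
  have h4 : (V.th : ℝ) < 1 := by exact_mod_cast hP.th.2
  have h5 := cl_pos' hP k
  have h6 : c / 2 * V.sg (V.N + 1) ≤ g * V.cl k :=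
    mul_le_mul hg h3 (sg_pos hP _).le (by linarith only [hc, hg])
  rw [h2]
  have h7 : V.e₀ * (1 - (V.th : ℝ)) ≤ g * V.cl k * (1 - (V.th : ℝ)) :=
    mul_le_mul_of_nonneg_right (h1.trans h6) (by linarith only [h4])
  linarith only [h7]

/-- `Im G₀ x x ≤ 2 C` -/
theorem im_G0 (d : ℕ) (a c C : ℝ) (hC : 1 ≤ C) :
    Ev2 d a es c C fun V => ∀ x, ((toE V c C).G₀ x x).im ≤ (toE V c C).C₀ := by
  refine ev_good.imp fun V hG x => ?_
  show (LE.QD.rs (0 : Tor d (2 ^ V.μ) → ℝ) V.ζ x x).im ≤ 2 * C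
  have h1 := hG.st.toStart.hG x x
  have h2 := Complex.im_le_norm (LE.QD.rs (0 : Tor d (2 ^ V.μ) → ℝ) V.ζ x x)
  linarith

end Pool.Agent.QDU.H61
end
end -- Pool.Agent.Helper22_QDU.H61RegN

section -- Pool.Agent.Helper22_QDU.H42Fin
/-!
# AHH, field FIN: the end of a stage
-/

set_option autoImplicit false

open scoped BigOperators NNReal Matrix

noncomputable section

namespace Pool.Agent.QDU.H42

open Pool.Agent.AHH hiding BegF FinF FloF IniF KilF MmonF OutF RbegF RfinF RmonF ana0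
open Pool.Agent.AHH.H42 hiding StpFStmt finF sumD

open Pool.Agent.BED (Tor)
open Pool.Agent.AND2B (net kap Prd Viol)
open Pool.Agent.ANP (Cfg Geo Fc)
open Pool.Agent.AND.Num
open Pool.Agent.AHH.H61 hiding bse_f bse_r budOk ev_be ev_c1 ev_e0 ev_good ev_small ev_small_be ev_th ev_thr im_G0 nm ratio regH
open Pool.Agent.QDU.H61

open Pool.Agent.AHH.H28 (Nm fia mem_Al)

variable {d : ℕ}

/-- the dead sites of the levels `j < n` -/
theorem sumD (d : ℕ) (a es c C : ℝ) :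
    Ev2 d a es c C fun V => ∀ n ≤ V.N + 1, ∀ s : ℝ, 0 < s → s ≤ V.sg n → s ≤ 1 ∧
      ∑ j ∈ Finset.range n, (3 ^ d * V.Dn j : ℝ) / 2 ^ V.l j ≤ 1 / 4 ∧
      2 + 4 * ∑ j ∈ Finset.range n, (3 ^ d * V.Dn j : ℝ) ≤ s ^ (-2 : ℝ) := by
  have h1 : Ev2 d a es c C fun V => ∀ s : ℝ, 0 < s → s ≤ V.w →
      (s ≤ 1 ∧ 2 * s ^ (0 : ℝ) ≤ 1 / 2 * s ^ (-2 : ℝ)) ∧
      (4 * 3 ^ d * (1 / (1 - (V.th : ℝ) ^ (5 / 4 : ℝ)))) * s ^ (-(5 / 4) : ℝ) ≤
        1 / 2 * s ^ (-2 : ℝ) := by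
    refine ev_smallm (fun th _ _ _ _ s =>
      (s ≤ 1 ∧ 2 * s ^ (0 : ℝ) ≤ 1 / 2 * s ^ (-2 : ℝ)) ∧
      (4 * 3 ^ d * (1 / (1 - (th : ℝ) ^ (5 / 4 : ℝ)))) * s ^ (-(5 / 4) : ℝ) ≤
        1 / 2 * s ^ (-2 : ℝ)) ?_ ?_
    · rintro th b _ _ _ _ s _ g2 g3 g4 ⟨x1, x2⟩
      refine ⟨x1, le_trans ?_ x2⟩
      exact mul_le_mul_of_nonneg_right (mul_le_mul_of_nonneg_left
        (gapip g2 g3 zero_le_one (by norm_num)) (by positivity)) (Real.rpow_nonneg g4.le _)
    intro th c₁ C₁ α J _ _ _ _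
    exact ((small_le 1 one_pos).and (small_pow' _ _ _ _ (by norm_num) (by norm_num))).and
      (small_pow' _ _ _ _ (by norm_num) (by norm_num))
  refine (h1.and ev_good).imp fun V hV n hn s hs hs' => ?_
  obtain ⟨h1, hG⟩ := hV
  have hP := hG.toPre
  have hsw := hs'.trans (sg_le hP n)
  obtain ⟨⟨g1, g2⟩, g3⟩ := h1 s hs hsw
  have hth0 : (0 : ℝ) < V.th := by exact_mod_cast th_pos hP
  have hth1 : (V.th : ℝ) ^ (5 / 4 : ℝ) < 1 := th_rpow_lt hP (by norm_num)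
  have hK : 0 < 1 - (V.th : ℝ) ^ (5 / 4 : ℝ) := by linarith only [hth1]
  refine ⟨g1, ?_, ?_⟩
  · refine le_trans ?_ hP.sc.ds
    refine Finset.sum_le_sum_of_subset_of_nonneg ?_ fun i _ _ => by positivity
    intro i hi
    rw [Finset.mem_range] at hi ⊢
    omega
  · have hS : ∀ n ≤ V.N + 1, ∑ j ∈ Finset.range n, (V.Dn j : ℝ) ≤
        1 / (1 - (V.th : ℝ) ^ (5 / 4 : ℝ)) * V.sg n ^ (-(5 / 4) : ℝ) := by
      intro n
      induction n with
      | zero =>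
        intro _
        rw [Finset.range_zero, Finset.sum_empty]
        have := sg_pos hP 0
        positivity
      | succ n ih =>
        intro hn
        rw [Finset.sum_range_succ]
        have e1 := ih (by omega)
        have e2 := hP.sc.dl n (by omega)
        have e3 := sg_succ hP n
        have p0 := sg_pos hP n
        have p1 := sg_pos hP (n + 1)
        have e4 : V.sg n ^ (-(5 / 4) : ℝ) ≤
            (V.th : ℝ) ^ (5 / 4 : ℝ) * V.sg (n + 1) ^ (-(5 / 4) : ℝ) := by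
          have e5 : (V.th * V.sg n : ℝ) ^ (-(5 / 4) : ℝ) ≤ V.sg (n + 1) ^ (-(5 / 4) : ℝ) :=
            Real.rpow_le_rpow_of_nonpos p1 e3 (by norm_num)
          rw [Real.mul_rpow hth0.le p0.le] at e5
          have e6 : (V.th : ℝ) ^ (5 / 4 : ℝ) * (V.th : ℝ) ^ (-(5 / 4) : ℝ) = 1 := by
            rw [← Real.rpow_add hth0]
            norm_num
          calc V.sg n ^ (-(5 / 4) : ℝ) =
              (V.th : ℝ) ^ (5 / 4 : ℝ) * ((V.th : ℝ) ^ (-(5 / 4) : ℝ) *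
                V.sg n ^ (-(5 / 4) : ℝ)) := by rw [← mul_assoc, e6, one_mul]
            _ ≤ _ := mul_le_mul_of_nonneg_left e5 (by positivity)
        have e7 : (V.Dn n : ℝ) ≤ V.sg (n + 1) ^ (-(5 / 4) : ℝ) := e2
        have e8 := mul_le_mul_of_nonneg_left e4 (one_div_pos.2 hK).le
        have e9 : 1 / (1 - (V.th : ℝ) ^ (5 / 4 : ℝ)) *
            ((V.th : ℝ) ^ (5 / 4 : ℝ) * V.sg (n + 1) ^ (-(5 / 4) : ℝ)) +
            V.sg (n + 1) ^ (-(5 / 4) : ℝ) =
            1 / (1 - (V.th : ℝ) ^ (5 / 4 : ℝ)) * V.sg (n + 1) ^ (-(5 / 4) : ℝ) := by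
          field_simp
          ring
        linarith only [e1, e2, e8, e9]
    have e1 := hS n hn
    have e2 : V.sg n ^ (-(5 / 4) : ℝ) ≤ s ^ (-(5 / 4) : ℝ) :=
      Real.rpow_le_rpow_of_nonpos hs hs' (by norm_num)
    have e3 := e1.trans (mul_le_mul_of_nonneg_left e2 (one_div_pos.2 hK).le)
    have e4 : ∑ j ∈ Finset.range n, (3 ^ d * V.Dn j : ℝ) =
        3 ^ d * ∑ j ∈ Finset.range n, (V.Dn j : ℝ) := by
      rw [Finset.mul_sum]
    rw [e4]
    have e5 := mul_le_mul_of_nonneg_left e3 (by positivity : (0 : ℝ) ≤ 4 * 3 ^ d)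
    rw [Real.rpow_zero] at g2
    nlinarith only [e5, g2, g3]

/-- the numbers of the field `fin` -/
def StpFStmt : Prop :=
  ∀ (d : ℕ) (a c C Cr Cw : ℝ), 3 ≤ d → 0 < a → 0 < c → c ≤ 1 / 2 → 1 ≤ C → 1 ≤ Cr → 1 ≤ Cw →
    Ev2 d a es c C fun V => ∀ n k, n ≤ V.N → V.kk n ≤ k → k < V.kk (n + 1) →
      Stp (q1f V ((1 + (V.th : ℝ)) / 2) n k) (qq V n (k + 1)) (V.cl (k + 1))
        (Cr * (1 + Real.log (Cw * (V.cl (k + 1) : ℝ) ^ (-Cw))) *
          (q1f V ((1 + (V.th : ℝ)) / 2) n k).mis)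

/-- FIELD FIN -/
theorem finF (hReg : RegStmt) (hWts : WtsStmt) (hNum : StpFStmt) : FinF := by
  intro d a c C hd ha hc hc' hC
  obtain ⟨Cr, hCr, hR⟩ := hReg (c / 2) (2 * C) (by linarith only [hc]) (by linarith) (by linarith)
  obtain ⟨Cw, hCw, hW⟩ := hWts d (c / 2) (2 * C) hd (by linarith) (by linarith only [hc, hc']) (by linarith)
  refine ((((hNum d a c C Cr Cw hd ha hc hc' hC hCr hCw).and (sumD d a es c C)).and
    (nm d a c C hc hC)).and ((((regH d a c C hc hc' hC).and (bse_f d a c C hc hc' hC)).and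
      (ratio d a c C hc)).and ev_good)).imp fun V hV => ?_
  obtain ⟨⟨⟨h1, h2⟩, h3⟩, ⟨⟨h4, h5⟩, h6⟩, h7⟩ := hV
  refine fin_core hC hCw hR hW h7 h3 h2 h6 fun n k hn hk hk' => ?_
  have hth : (0 : ℝ) ≤ V.th := NNReal.coe_nonneg _
  have hth1 : (V.th : ℝ) < 1 := by exact_mod_cast h7.th.2
  exact h4 n (k + 1) _ _ _ (cl_pos' h7.toPre _) (h5 _ n k (by linarith only [hc, hc']) (by linarith only [hth1]) hn)
    (h1 n k hn hk hk')

end Pool.Agent.QDU.H42
end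
end -- Pool.Agent.Helper22_QDU.H42Fin
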