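import Pool.Agent.Helper12_MEB.B170

/-!
# Merged copies (generated) of the modules

* `Pool.Agent.Helper22_QDU.H96Stp`
-/

set_option autoImplicit false

section -- Pool.Agent.Helper22_QDU.H96Stp
/-!
# AND2B (MP_1906c1_mp): the step of the budget `k → k + 1`
-/

set_option autoImplicit false

open scoped BigOperators NNReal

noncomputable section

namespace Pool.Agent.QDU.H96

open Pool.Agent.AHH hiding BegF FinF FloF IniF KilF MmonF OutF RbegF RfinF RmonF ana0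
open Pool.Agent.AHH.H96 hiding sixF

open Pool.Agent.BED (Tor)

open Pool.Agent.AND.Num
open Pool.Agent.AHH.H61 hiding bse_f bse_r budOk ev_be ev_c1 ev_e0 ev_good ev_small ev_small_be ev_th ev_thr im_G0 nm ratio regH
open Pool.Agent.QDU.H61

/-- one stage, uniformly in the ratio of the clocks -/
theorem stage_u (Cr Cw Cp b ka : ℝ) (hb : 1 / 2 ≤ b) (hb1 : b < 1) (hCr : 0 ≤ Cr)
    (hCw : 1 ≤ Cw) (hCp : 0 < Cp) (hka : 0 < ka) (hka1 : ka ≤ 1 / 10) :
    Small fun s => ∀ th : ℝ, 1 / 2 ≤ th → th ≤ b → StgP Cr Cw Cp th ka s := by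
  have hδ : 0 < 1 - b := by linarith only [hb1]
  have gap : ∀ p : ℝ, 0 < p → p ≤ 1 → 0 < 1 - b ^ p := fun p hp hp1 => by
    have := pow_up b p (by linarith only [hb, hka, hka1]) hp.le hp1
    have : 0 < p * (1 - b) := by positivity
    linarith
  have a1 := small_X Cr Cw Cp 1 (1 / 8 - 1 / 200) (1 / 9) hCr hCw hCp.le zero_le_one (by norm_num)
    (by norm_num)
  have a2 := small_pow' Cp ((1 - b ^ (1 / 20 : ℝ)) / 2) (1 / 8 - 1 / 200) (1 / 20)
    (by have := gap (1 / 20) (by norm_num) (by norm_num); linarith) (by norm_num)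
  have a3 := small_pow' 1 ((1 - b ^ (1 / 20 : ℝ)) / 2) (1 / 9) (1 / 20)
    (by have := gap (1 / 20) (by norm_num) (by norm_num); linarith only [this]) (by norm_num)
  have a4 := small_pow' 2 1 (2 / 9) (1 / 8) one_pos (by norm_num)
  have a5 := small_rpow_le ((1 - b) / 240) (7 / 144) (by positivity) (by norm_num)
  have b1 := small_pow' 1 ((1 - b ^ (1 / 400 : ℝ)) / 3) (1 / 16) (1 / 400)
    (by have := gap (1 / 400) (by norm_num) (by norm_num); linarith only [this]) (by norm_num)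
  have b2 := small_pow' Cp ((1 - b ^ (1 / 400 : ℝ)) / 3) (1 / 20) (1 / 400)
    (by have := gap (1 / 400) (by norm_num) (by norm_num); linarith only [this]) (by norm_num)
  have b3 := small_pow' 1 ((1 - b ^ (1 / 400 : ℝ)) / 3) (1 / 9) (1 / 400)
    (by have := gap (1 / 400) (by norm_num) (by norm_num); linarith only [this]) (by norm_num)
  have c1 := small_pow' Cp ((1 - b) / 8) ka (ka / 2) (by positivity) (by linarith only [hka])
  have c2 := small_pow' 1 ((1 - b) / 8) (1 / 9) (ka / 2) (by positivity) (by linarith)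
  have d1 := small_pow' Cp ((1 - b ^ (ka / 4)) / 2) ka (ka / 4)
    (by have := gap (ka / 4) (by positivity) (by linarith only [hka, hka1]); linarith only [this]) (by linarith only [hka])
  have d2 := small_pow' 1 ((1 - b ^ (ka / 4)) / 2) (1 / 9) (ka / 4)
    (by have := gap (ka / 4) (by positivity) (by linarith); linarith only [this]) (by linarith only [hka, hka1])
  refine ((((a1.and a2).and (a3.and a4)).and ((a5.and b1).and (b2.and b3))).and
    (((c1.and c2).and (d1.and d2)).and (small_le 1 one_pos))).mono fun s hs H th hth hthb => ?_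
  obtain ⟨⟨⟨⟨a1, a2⟩, a3, a4⟩, ⟨a5, b1⟩, b2, b3⟩, ⟨⟨c1, c2⟩, d1, d2⟩, hs1⟩ := H
  have hth1 : th < 1 := by linarith only [hb1, hthb]
  replace hδ : 0 < 1 - th := by linarith only [hb1, hthb]
  have hp : ∀ p : ℝ, 0 ≤ s ^ p := fun p => Real.rpow_nonneg hs.le p
  have gm : ∀ p : ℝ, 0 ≤ p → 1 - b ^ p ≤ 1 - th ^ p := fun p hp => by
    have := Real.rpow_le_rpow (by linarith only [hka, hka1, hth]) hthb hp
    linarith only [this]
  have gx : ∀ p K x y : ℝ, 0 ≤ p → 0 < K → 0 ≤ y → x ≤ (1 - b ^ p) / K * y →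
      x ≤ (1 - th ^ p) / K * y := fun p K x y h1 h2 h3 h4 =>
    h4.trans (mul_le_mul_of_nonneg_right (div_le_div_of_nonneg_right (gm p h1) h2.le) h3)
  have gy : ∀ K x y : ℝ, 0 < K → 0 ≤ y → x ≤ (1 - b) / K * y → x ≤ (1 - th) / K * y :=
    fun K x y h2 h3 h4 =>
    h4.trans (mul_le_mul_of_nonneg_right (div_le_div_of_nonneg_right (by linarith only [hthb]) h2.le) h3)
  replace a2 := gx _ _ _ _ (by norm_num) (by norm_num) (hp _) a2
  replace a3 := gx _ _ _ _ (by norm_num) (by norm_num) (hp _) a3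
  replace a5 : s ^ (7 / 144 : ℝ) ≤ (1 - th) / 240 := a5.trans (by linarith only [hthb])
  replace b1 := gx _ _ _ _ (by norm_num) (by norm_num) (hp _) b1
  replace b2 := gx _ _ _ _ (by norm_num) (by norm_num) (hp _) b2
  replace b3 := gx _ _ _ _ (by norm_num) (by norm_num) (hp _) b3
  replace c1 := gy _ _ _ (by norm_num) (hp _) c1
  replace c2 := gy _ _ _ (by norm_num) (hp _) c2
  replace d1 := gx _ _ _ _ (by linarith only [hka]) (by norm_num) (hp _) d1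
  replace d2 := gx _ _ _ _ (by linarith only [hka]) (by norm_num) (hp _) d2
  have hth0 : 0 < th := by linarith only [hka, hka1, hth]
  refine ⟨?_, fun X hX0 hX => ⟨?_, ?_, ?_, ?_, ?_, ?_⟩⟩
  · have := a1 th hth hth1.le
    rw [one_mul] at this
    rw [mul_comm (s ^ (1 / 8 - 1 / 200 : ℝ)) Cp]
    exact this
  · linarith only [a2, a3, hX]
  · have h1 : X ^ 2 ≤ s ^ (2 / 9 : ℝ) := by
      calc X ^ 2 ≤ (s ^ (1 / 9 : ℝ)) ^ 2 := by gcongr
        _ = s ^ (2 / 9 : ℝ) := by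
            rw [← Real.rpow_natCast, ← Real.rpow_mul hs.le]
            norm_num
    have h2 : (1 / 2 : ℝ) ≤ th ^ (1 / 8 : ℝ) := by
      have := pow_low th (1 / 8) hth hth1.le (by norm_num) (by norm_num)
      linarith only [hka, hka1, hth, this]
    have h3 : 0 < s ^ (1 / 8 : ℝ) := Real.rpow_pos_of_pos hs _
    rw [Real.mul_rpow hth0.le hs.le]
    nlinarith only [hka, hka1, a4, h1, h2]
  · intro lam hlam
    have h1 : 0 < s ^ (-(3 / 4) : ℝ) := Real.rpow_pos_of_pos hs _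
    have hl0 : 0 < lam := by linarith only [hlam, h1]
    have h2 : (1 - th) / (8 * Cp) * Cp = (1 - th) / 8 := by
      field_simp
    rw [h2]
    -- `lam ^ (1/4) ≥ s ^ (-3/16) / 2`
    have h3 : 1 / 2 * s ^ (-(3 / 16) : ℝ) ≤ lam ^ (1 / 4 : ℝ) := by
      have h4 : (1 / 2 * s ^ (-(3 / 16) : ℝ)) ^ 4 ≤ lam := by
        have h5 : (s ^ (-(3 / 16) : ℝ)) ^ 4 = s ^ (-(3 / 4) : ℝ) := by
          rw [← Real.rpow_natCast, ← Real.rpow_mul hs.le]
          norm_num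
        rw [mul_pow, h5]
        linarith only [hlam, hl0]
      have h6 : 0 ≤ 1 / 2 * s ^ (-(3 / 16) : ℝ) := by positivity
      calc 1 / 2 * s ^ (-(3 / 16) : ℝ) = ((1 / 2 * s ^ (-(3 / 16) : ℝ)) ^ 4) ^ (1 / 4 : ℝ) := by
            rw [← Real.rpow_natCast, ← Real.rpow_mul h6]
            norm_num
        _ ≤ lam ^ (1 / 4 : ℝ) := Real.rpow_le_rpow (by positivity) h4 (by norm_num)
    -- `x = X (th s) ^ (-1/4) ≤ 2 s ^ (1/9 - 1/4)`
    have h7 : (th * s) ^ (-(1 / 4) : ℝ) ≤ 2 * s ^ (-(1 / 4) : ℝ) := by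
      rw [Real.mul_rpow hth0.le hs.le]
      have h8 : th ^ (-(1 / 4) : ℝ) ≤ 2 := by
        rw [Real.rpow_neg hth0.le]
        have h9 := pow_low th (1 / 4) hth hth1.le (by norm_num) (by norm_num)
        have h10 : (1 / 2 : ℝ) ≤ th ^ (1 / 4 : ℝ) := by linarith only [hka, hka1, hth, h9]
        rw [inv_le_comm₀ (by linarith only [hka, hka1, hth, h9]) (by norm_num)]
        linarith only [hka, hka1, hth, h9]
      have := Real.rpow_nonneg hs.le (-(1 / 4) : ℝ)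
      gcongr
    have h11 : X * (th * s) ^ (-(1 / 4) : ℝ) ≤ 2 * s ^ (-(5 / 36) : ℝ) := by
      have h12 : s ^ (1 / 9 : ℝ) * s ^ (-(1 / 4) : ℝ) = s ^ (-(5 / 36) : ℝ) := by
        rw [← Real.rpow_add hs]
        norm_num
      calc X * (th * s) ^ (-(1 / 4) : ℝ) ≤ s ^ (1 / 9 : ℝ) * (2 * s ^ (-(1 / 4) : ℝ)) := by
            have := Real.rpow_nonneg (mul_nonneg hth0.le hs.le) (-(1 / 4) : ℝ)
            gcongr
        _ = 2 * s ^ (-(5 / 36) : ℝ) := by rw [← h12]; ring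
    have h13 : s ^ (-(5 / 36) : ℝ) = s ^ (7 / 144 : ℝ) * s ^ (-(3 / 16) : ℝ) := by
      rw [← Real.rpow_add hs]
      norm_num
    have h14 : 0 < s ^ (-(3 / 16) : ℝ) := Real.rpow_pos_of_pos hs _
    have hx0 : 0 ≤ X * (th * s) ^ (-(1 / 4) : ℝ) :=
      mul_nonneg hX0 (Real.rpow_nonneg (mul_nonneg hth0.le hs.le) _)
    have hla : 0 < lam ^ (1 / 4 : ℝ) := Real.rpow_pos_of_pos hl0 _
    have h15 : X * (th * s) ^ (-(1 / 4) : ℝ) ≤ (1 - th) / 60 * lam ^ (1 / 4 : ℝ) := by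
      calc X * (th * s) ^ (-(1 / 4) : ℝ) ≤ 2 * (s ^ (7 / 144 : ℝ) * s ^ (-(3 / 16) : ℝ)) := by
            rw [← h13]; exact h11
        _ ≤ 2 * ((1 - th) / 240 * s ^ (-(3 / 16) : ℝ)) := by gcongr
        _ = (1 - th) / 60 * (1 / 2 * s ^ (-(3 / 16) : ℝ)) := by ring
        _ ≤ _ := by gcongr
    have h16 : X * (th * s) ^ (-(1 / 4) : ℝ) ≤ lam ^ (1 / 4 : ℝ) := by
      refine h15.trans ?_
      nlinarith only [hka, hka1, hth, h3, h14, hla]
    have h17 := four lam ((1 - th) / 8) (X * (th * s) ^ (-(1 / 4) : ℝ)) hl0 (by positivity) hx0 h16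
    refine h17.trans ?_
    have h18 : X * (th * s) ^ (-(1 / 4) : ℝ) / lam ^ (1 / 4 : ℝ) ≤ (1 - th) / 60 := by
      rw [div_le_iff₀ hla]
      exact h15
    have h19 : 1 + 3 / 4 * (1 - th) ≤ th ^ (-(3 / 4) : ℝ) := by
      rw [Real.rpow_neg hth0.le]
      have h20 := pow_up th (3 / 4) hth0 (by norm_num) (by norm_num)
      have h21 : 0 < th ^ (3 / 4 : ℝ) := Real.rpow_pos_of_pos hth0 _
      rw [le_inv_comm₀ (by positivity) h21]
      rw [← one_div, le_div_iff₀ (by positivity)]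
      nlinarith only [hb1, hka, hka1, hthb, h20]
    have h22 : (1 + (1 - th) / 8) * (1 + 15 * (X * (th * s) ^ (-(1 / 4) : ℝ) /
        lam ^ (1 / 4 : ℝ))) ≤ th ^ (-(3 / 4) : ℝ) := by
      refine le_trans ?_ h19
      have h23 : (1 + (1 - th) / 8) * (1 + 15 * (X * (th * s) ^ (-(1 / 4) : ℝ) /
          lam ^ (1 / 4 : ℝ))) ≤ (1 + (1 - th) / 8) * (1 + 15 * ((1 - th) / 60)) := by gcongr
      refine h23.trans ?_
      nlinarith only [hb, hb1, hka, hka1, hth, hthb]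
    rw [mul_comm (th ^ (-(3 / 4) : ℝ)) lam]
    gcongr
  · intro y hy
    have hy2 : y * Cp ≤ s ^ (1 / 20 : ℝ) * Cp := mul_le_mul_of_nonneg_right hy hCp.le
    linarith only [b1, b2, b3, hX, hy2]
  · intro g hg
    have h1 := pow_low th (ka / 2) hth hth1.le (by positivity) (by linarith only [hka, hka1])
    have h2 : (1 - th) / 4 ≤ th ^ (ka / 2) - (1 + th) / 2 := by
      have : 2 * (ka / 2) * (1 - th) ≤ 1 / 4 * (1 - th) := by gcongr; linarith only [hka, hka1]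
      linarith only [h1, this]
    have h3 : 0 < s ^ (ka / 2) := Real.rpow_pos_of_pos hs _
    have h4 : s ^ ka * Cp + X ≤ (1 - th) / 4 * s ^ (ka / 2) := by linarith only [c1, c2, hX]
    have h5 : (1 - th) / 4 * s ^ (ka / 2) ≤ (th ^ (ka / 2) - (1 + th) / 2) * (s ^ (ka / 2) * g) := by
      have h6 : s ^ (ka / 2) * 1 ≤ s ^ (ka / 2) * g := by gcongr
      have h7 : 0 ≤ (1 - th) / 4 := by positivity
      calc (1 - th) / 4 * s ^ (ka / 2) ≤ (1 - th) / 4 * (s ^ (ka / 2) * g) := by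
            gcongr
            linarith only [h6]
        _ ≤ _ := by
            have : 0 ≤ s ^ (ka / 2) * g := by positivity
            gcongr
    linarith only [c1, c2, hX, h5]
  · linarith only [d1, d2, hX]

/-- THE NUMBERS OF `fin`, the steps -/
theorem sixF (d : ℕ) (a c C Cr Cw : ℝ) (hCr : 0 ≤ Cr) (hCw : 1 ≤ Cw) :
    Ev2 d a es c C fun V => ∀ n k, ∀ r : ℝ, r ≤ (1 + V.th) / 2 →
      Stp (q1f V r n k) (qq V n (k + 1)) (V.cl (k + 1))
        (Cr * (1 + Real.log (Cw * (V.cl (k + 1) : ℝ) ^ (-Cw))) * (q1f V r n k).mis) := by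
  have hcp : 0 < cpd d := by have := one_le_cpd d; linarith only [this]
  have h1 : Ev2 d a es c C fun V => ∀ s : ℝ, 0 < s → s ≤ V.w →
      s ≤ 1 ∧ StgP Cr Cw (cpd d) V.th (kaf V.α) s := by
    refine ev_smallu (fun th _ _ α _ s => s ≤ 1 ∧ StgP Cr Cw (cpd d) th (kaf α) s) ?_
    intro b c₁ C₁ α J h1 h2 _ hα
    have h3 : (1 / 2 : ℝ) ≤ b := by exact_mod_cast h1
    have h4 : (b : ℝ) < 1 := by exact_mod_cast h2
    refine ((small_le 1 one_pos).and (stage_u Cr Cw (cpd d) b (kaf α) h3 h4 hCr hCw hcp (kaf_pos α)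
      (by have := kaf_le hα; linarith))).mono fun s _ H th g1 g2 => ⟨H.1, H.2 th ?_ ?_⟩
    · exact_mod_cast g1
    · exact_mod_cast g2
  refine (ev_good.and h1).imp fun V hV n k r hr => ?_
  obtain ⟨hG, hV⟩ := hV
  have hP : V.Pre a := hG.toPre
  have hs := cl_pos' hP k
  obtain ⟨hs1, hX, hS⟩ := hV (V.cl k) hs (cl_le' hP k)
  have hcs : (V.cl (k + 1) : ℝ) = V.th * V.cl k := by
    rw [cl_succ V k]
    push_cast
    rfl
  have hth1 : (V.th : ℝ) ≤ 1 := by exact_mod_cast hP.th.2.le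
  have hs' := cl_pos' hP (k + 1)
  have hs'1 : (V.cl (k + 1) : ℝ) ≤ 1 := (cl_anti' hP (Nat.le_succ k)).trans hs1
  have hsg0 := sg_pos hP n
  have hsg1 : V.sg n ≤ 1 := (sg_le hP n).trans (by
    have := (hV V.w (w_pos hP) le_rfl).1
    exact this)
  have hmis : (q1f V r n k).mis =
      (V.cl k : ℝ) ^ (1 / 8 : ℝ) + (V.cl k : ℝ) ^ (1 / 8 - 1 / 200 : ℝ) * cpd d := rfl
  have hmis0 : 0 ≤ (q1f V r n k).mis := by
    rw [hmis]
    positivity
  have hx0 : 0 ≤ xx Cr Cw (V.cl (k + 1)) (q1f V r n k) :=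
    xx_nonneg _ _ _ _ hCr hCw hs' hs'1 hmis0
  have hx1 : xx Cr Cw (V.cl (k + 1)) (q1f V r n k) ≤ (V.cl k : ℝ) ^ (1 / 9 : ℝ) := by
    unfold xx
    rw [hmis, hcs]
    exact hX
  obtain ⟨t1, t2, t3, t4, t5, t6⟩ := hS _ hx0 hx1
  change Stp (q1f V r n k) (qq V n (k + 1)) (V.cl (k + 1)) (xx Cr Cw (V.cl (k + 1)) (q1f V r n k))
  obtain ⟨X, hXd⟩ : ∃ X, X = xx Cr Cw (V.cl (k + 1)) (q1f V r n k) := ⟨_, rfl⟩
  rw [← hXd] at t1 t2 t3 t4 t5 t6 hx0 hx1 ⊢
  refine ⟨hx1.trans (Real.rpow_le_one hs.le hs1 (by norm_num)), ?_, ?_, ?_, ?_, ?_, ?_⟩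
  · show gr V (1 / 20) n k + (V.cl k : ℝ) ^ (1 / 8 - 1 / 200 : ℝ) * cpd d + X ≤
      gr V (1 / 20) n (k + 1)
    rw [gr_stage]
    linarith only [t1]
  · show X ^ 2 ≤ (V.cl (k + 1) : ℝ) ^ (1 / 8 : ℝ)
    rw [hcs]
    exact t2
  · show ((1 / 4 * (V.cl k : ℝ) ^ (-(3 / 4) : ℝ) * (2 - V.sg n ^ (1 / 400 : ℝ)) *
      (1 + (1 - (V.th : ℝ)) / (8 * cpd d) * cpd d)) ^ (1 / 4 : ℝ) +
        X * (V.cl (k + 1) : ℝ) ^ (-(1 / 4) : ℝ)) ^ 4 ≤
      1 / 4 * (V.cl (k + 1) : ℝ) ^ (-(3 / 4) : ℝ) * (2 - V.sg n ^ (1 / 400 : ℝ))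
    rw [hcs]
    have h5 : V.sg n ^ (1 / 400 : ℝ) ≤ 1 := Real.rpow_le_one hsg0.le hsg1 (by norm_num)
    have h6 : 0 < (V.cl k : ℝ) ^ (-(3 / 4) : ℝ) := Real.rpow_pos_of_pos hs _
    have h7 := t3 (1 / 4 * (V.cl k : ℝ) ^ (-(3 / 4) : ℝ) * (2 - V.sg n ^ (1 / 400 : ℝ)))
      (by
        have : 1 / 4 * (V.cl k : ℝ) ^ (-(3 / 4) : ℝ) * 1 ≤
            1 / 4 * (V.cl k : ℝ) ^ (-(3 / 4) : ℝ) * (2 - V.sg n ^ (1 / 400 : ℝ)) :=
          mul_le_mul_of_nonneg_left (by linarith only [h5]) (by positivity)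
        linarith only [this])
    refine h7.trans (le_of_eq ?_)
    rw [Real.mul_rpow (NNReal.coe_nonneg _) hs.le]
    ring
  · show gr V (1 / 400) n k + (V.cl k : ℝ) ^ (1 / 16 : ℝ) + (bud V).inY n k * cpd d + X ≤
      gr V (1 / 400) n (k + 1)
    have h5 : (bud V).inY n k ≤ (V.cl k : ℝ) ^ (1 / 20 : ℝ) := rpow_anti hs hs1 (by norm_num)
    have h6 := t4 _ h5
    rw [gr_stage]
    linarith only [h6]
  · show (V.cl k : ℝ) ^ (ka V / 2) * (2 - V.sg n ^ ka V) * r + (V.cl k : ℝ) ^ ka V * cpd d + X ≤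
      (V.cl (k + 1) : ℝ) ^ (ka V / 2) * (2 - V.sg n ^ ka V)
    have h5 : V.sg n ^ ka V ≤ 1 := Real.rpow_le_one hsg0.le hsg1 ka_pos.le
    have h6 := t5 (2 - V.sg n ^ ka V) (by linarith only [h5])
    have h7 : 0 < (V.cl k : ℝ) ^ (ka V / 2) := Real.rpow_pos_of_pos hs _
    have h8 : (V.cl k : ℝ) ^ (ka V / 2) * (2 - V.sg n ^ ka V) * r ≤
        (V.cl k : ℝ) ^ (ka V / 2) * (2 - V.sg n ^ ka V) * ((1 + V.th) / 2) :=
      mul_le_mul_of_nonneg_left hr (mul_nonneg h7.le (by linarith only [h5]))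
    rw [← ka_eq] at h6
    rw [hcs, Real.mul_rpow (NNReal.coe_nonneg _) hs.le, mul_assoc ((V.th : ℝ) ^ (ka V / 2))]
    linarith only [h6, h8]
  · show gr V (ka V / 4) n k + (V.cl k : ℝ) ^ ka V * cpd d + X ≤ gr V (ka V / 4) n (k + 1)
    rw [← ka_eq] at t6
    rw [gr_stage]
    linarith only [t6]

end Pool.Agent.QDU.H96
end
end -- Pool.Agent.Helper22_QDU.H96Stp
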