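import Pool.Agent.Helper12_MEB.B160
import Pool.Agent.Helper12_MEB.B164
import Pool.Agent.Helper12_MEB.B169

/-!
# Merged copies (generated) of the modules

* `Pool.Agent.Helper58_AHH.Emp`
* `Pool.Agent.Helper58_AHH.EntLar`
* `Pool.Agent.Helper90_AHH.YInc`
* `Pool.Agent.Helper90_AHH.YHf`
* `Pool.Agent.Helper58_AHH.Flow`
* `Pool.Agent.Helper67_AHH.FNm`
* `Pool.Agent.Helper67_AHH.FNz`
* `Pool.Agent.Helper90_AHH.IncNum`
* `Pool.Agent.Helper22_QDU.H67FNz`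
* `Pool.Agent.Helper22_QDU.H90IncNum`
-/

set_option autoImplicit false

section -- Pool.Agent.Helper58_AHH.Emp

/-!
# FLO: the block without running sites (helper58)
-/

set_option autoImplicit false

open MeasureTheory ProbabilityTheory

open scoped BigOperators NNReal ENNReal Matrix

noncomputable section

namespace Pool.Agent.AHH.H58

open Pool.Agent.BED (Tor)
open Pool.Agent.AND2B (net kap Viol)
open Pool.Agent.ANP (Cfg gm)
open Pool.Agent.LTG (Fm Bd sT tT qd)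

variable {d M : ℕ} [NeZero M]

omit [NeZero M] in
theorem hf_empty (T : Cfg (Tor d M)) (th : ℝ≥0) (ζ : Tor d M → ℝ) : T.hf th ∅ ζ = T := by
  unfold Cfg.hf
  cases T
  simp

/-- no running site in the block: nothing changes -/
theorem inc_empty {V : Env d M} {b : Bud} {n k : ℕ} {run : Finset (Tor d M)} {B : Tor d M}
    {T : Cfg (Tor d M)} (hw : ∀ x ∈ Al T, 0 < ww V.e₀ T x) (hg : ∀ x ∈ run, 0 ≤ gg T x)
    (hD : 0 ≤ V.D₀ ∧ 0 ≤ V.D₁) (hi : 0 ≤ b.inc n k) (hL : 0 ≤ (b.q n k).lam * b.inL n k)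
    (hY : 0 ≤ b.inY n k) (hn : 0 ≤ b.nn n k)
    (hu : V.u₀ < 1) (hn1 : b.nn n k * Real.exp 2 < (1 - V.u₀) / 2) :
    Inc V b n k run B T T := by
  have hom : ∀ x, 0 < om V.Γ n B x := fun x => Real.exp_pos _
  have hom2 : ∀ x, om V.Γ n B x ≤ Real.exp 2 := by
    intro x
    unfold om
    rw [Real.exp_le_exp]
    have : (0 : ℝ) ≤ (V.Γ.D x B : ℝ) / V.Γ.L n := by positivity
    linarith only [this]
  refine ⟨fun x _ y _ => ?_, fun x _ => ?_, fun a ha => ?_, fun εl εu bl bu hF h1 h2 => ?_⟩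
  · rw [sub_self, norm_zero]
    exact mul_nonneg hi (hom x).le
  · have : 0 ≤ (b.q n k).lam * b.inL n k * om V.Γ n B x := mul_nonneg hL (hom x).le
    have e : (b.q n k).lam * (b.inL n k * om V.Γ n B x) =
        (b.q n k).lam * b.inL n k * om V.Γ n B x := by ring
    rw [e]
    linarith
  · have h1 : 0 ≤ b.inY n k * om V.Γ n B a * gg T a :=
      mul_nonneg (mul_nonneg hY (hom a).le) (hg a ha)
    linarith
  · have hr : ∀ x ∈ Al T, ww V.e₀ T x / ww V.e₀ T x = 1 := fun x hx => div_self (hw x hx).ne'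
    have hno : ∀ x, 0 ≤ b.nn n k * om V.Γ n B x := fun x => mul_nonneg hn (hom x).le
    refine hF.mono (fun x hx => (hw x hx).le) (fun x hx => (h1 x hx).1) (fun x hx => ?_)
      (fun x hx => ?_) (fun x hx => ?_) (fun e => ?_) (fun e => ?_)
    · rw [hr x hx, mul_one]
      linarith [hno x]
    · rw [hr x hx, mul_one]
      linarith only [hno x]
    · rw [hr x hx, mul_one]
      have h3 := (h1 x hx).2.2.2
      have h4 : b.nn n k * om V.Γ n B x ≤ b.nn n k * Real.exp 2 :=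
        mul_le_mul_of_nonneg_left (hom2 x) hn
      linarith
    · linarith [mul_nonneg hD.1 (hno (sT e))]
    · linarith [mul_nonneg hD.2 (hno (sT e))]

end Pool.Agent.AHH.H58
end
end -- Pool.Agent.Helper58_AHH.Emp

section -- Pool.Agent.Helper58_AHH.EntLar

/-!
# `Inc.ent` and `Inc.lar` from the block lemma and the far estimates (helper58)
-/

set_option autoImplicit false

open scoped BigOperators NNReal ENNReal Matrix

noncomputable section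

namespace Pool.Agent.AHH.H58

open Pool.Agent.BED (Tor)
open Pool.Agent.LE.QF (KK)
open Pool.Agent.AND2B (net kap Hr Vef)
open Pool.Agent.ANP (Cfg Geo)
open Pool.Agent.AFJ (LaR)
open Pool.Agent.AFL (Fl)
open Pool.Agent.ANR.H89 (Upd)
open Pool.Agent.ANR (Gr)

section gen

variable {X : Type} [Fintype X] [DecidableEq X] {H H' : Matrix X X ℝ} {κ κ' φ : X → ℝ}
  {F A S : Finset X} {h₀ k₀ β : ℝ}

/-- fourth powers against far sites -/
theorem lar_far (h : Upd H H' κ κ' φ F A S h₀ k₀ β) {R : Finset X} (hR : R ⊆ A)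
    (hRF : ∀ y ∈ R, y ∉ F) {x : X} (hx : x ∈ A) {φ0 : ℝ} (hφ : ∀ y ∈ R, φ0 ≤ φ y) :
    |LaR (Gr H' κ') R x - LaR (Gr H κ) R x| ≤ 16 / k₀ ^ 4 * Real.exp (-(β * φ0)) := by
  have hk := h.hk₀
  unfold LaR KK
  rw [← Finset.sum_sub_distrib]
  have h1 : ∀ y ∈ R, |(‖Gr H' κ' x y‖ ^ 2) ^ 2 - (‖Gr H κ x y‖ ^ 2) ^ 2| ≤
      8 / k₀ ^ 3 * Real.exp (-(β * φ0)) * (κ' y * ‖Gr H' κ' x y‖ ^ 2 + κ y * ‖Gr H κ x y‖ ^ 2) :=
    fun y hy => by
      have hyA := hR hy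
      have e1 := h.ent hx hyA (fun hh => hRF y hy hh.2)
      have e2 := ANR.H89.ent_le h.n' hk (h.hA x hx).2 (h.hA y hyA).2
      have e3 := ANR.H89.ent_le h.n hk (h.hA x hx).1 (h.hA y hyA).1
      set a := ‖Gr H' κ' x y‖ with ha
      set b := ‖Gr H κ x y‖ with hb
      have ha0 : 0 ≤ a := norm_nonneg _
      have hb0 : 0 ≤ b := norm_nonneg _
      have e4 : |a - b| ≤ 4 / k₀ * Real.exp (-(β * φ0)) := by
        refine (abs_norm_sub_norm_le _ _).trans (e1.trans ?_)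
        refine mul_le_mul_of_nonneg_left (Real.exp_le_exp.2 ?_) (by positivity)
        nlinarith only [h.plt.nn x, h.hβ, mul_nonneg h.hβ (h.plt.nn x),
          mul_le_mul_of_nonneg_left (hφ y hy) h.hβ]
      have e5 : (a ^ 2) ^ 2 - (b ^ 2) ^ 2 = (a - b) * ((a + b) * (a ^ 2 + b ^ 2)) := by ring
      rw [e5, abs_mul, abs_of_nonneg (by positivity : 0 ≤ (a + b) * (a ^ 2 + b ^ 2))]
      have e6 : (a + b) * (a ^ 2 + b ^ 2) ≤ 2 / k₀ * (1 / k₀ * (κ' y * a ^ 2 + κ y * b ^ 2)) := by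
        have e7 : a + b ≤ 2 / k₀ := by
          have : 2 / k₀ = 1 / k₀ + 1 / k₀ := by ring
          rw [this]; exact add_le_add e2 e3
        have e8 : a ^ 2 + b ^ 2 ≤ 1 / k₀ * (κ' y * a ^ 2 + κ y * b ^ 2) := by
          rw [one_div, ← div_eq_inv_mul, le_div_iff₀ hk]
          nlinarith only [mul_le_mul_of_nonneg_right (h.hA y hyA).2 (sq_nonneg a),
            mul_le_mul_of_nonneg_right (h.hA y hyA).1 (sq_nonneg b)]
        exact mul_le_mul e7 e8 (by positivity) (by positivity)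
      calc |a - b| * ((a + b) * (a ^ 2 + b ^ 2)) ≤
          4 / k₀ * Real.exp (-(β * φ0)) * (2 / k₀ * (1 / k₀ * (κ' y * a ^ 2 + κ y * b ^ 2))) :=
            mul_le_mul e4 e6 (by positivity) (by positivity)
        _ = _ := by field_simp; ring
  have h2 : ∑ y ∈ R, (κ' y * ‖Gr H' κ' x y‖ ^ 2 + κ y * ‖Gr H κ x y‖ ^ 2) ≤ 2 / k₀ := by
    rw [Finset.sum_add_distrib]
    have e1 : ∑ y ∈ R, κ' y * ‖Gr H' κ' x y‖ ^ 2 ≤ 1 / k₀ := by
      refine (Finset.sum_le_univ_sum_of_nonneg fun y =>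
        mul_nonneg (h.n'.pos y).le (sq_nonneg _)).trans ?_
      rw [ANR.H89.ward h.n']; exact ANR.H89.im_le h.n' hk (h.hA x hx).2
    have e2 : ∑ y ∈ R, κ y * ‖Gr H κ x y‖ ^ 2 ≤ 1 / k₀ := by
      refine (Finset.sum_le_univ_sum_of_nonneg fun y =>
        mul_nonneg (h.n.pos y).le (sq_nonneg _)).trans ?_
      rw [ANR.H89.ward h.n]; exact ANR.H89.im_le h.n hk (h.hA x hx).1
    have : 2 / k₀ = 1 / k₀ + 1 / k₀ := by ring
    rw [this]; exact add_le_add e1 e2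
  refine (Finset.abs_sum_le_sum_abs _ _).trans ((Finset.sum_le_sum h1).trans ?_)
  rw [← Finset.mul_sum]
  refine (mul_le_mul_of_nonneg_left h2 (by positivity)).trans (le_of_eq ?_)
  field_simp; norm_num

/-- the same for a far site against all sites -/
theorem lar_far' (h : Upd H H' κ κ' φ F A S h₀ k₀ β) {R : Finset X} (hR : R ⊆ A)
    {x : X} (hx : x ∈ A) (hxF : x ∉ F) :
    |LaR (Gr H' κ') R x - LaR (Gr H κ) R x| ≤ 16 / k₀ ^ 4 * Real.exp (-(β * φ x)) := by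
  have h1 := h.lar hR hx hxF
  have e : ∀ (G : Matrix X X ℂ), LaR G R x = ∑ y ∈ R, ‖G x y‖ ^ 4 := fun G => by
    unfold LaR KK
    exact Finset.sum_congr rfl fun y _ => by ring
  rw [e, e]
  exact h1

end gen

section om

variable {X : Type}

theorem om_pos (Γ : Geo X) (n : ℕ) (B x : X) : 0 < om Γ n B x := Real.exp_pos _

theorem one_le_om (Γ : Geo X) (n : ℕ) (B x : X) (h : Γ.D x B ≤ 2 * Γ.L n) : 1 ≤ om Γ n B x := by
  unfold om
  rw [Real.one_le_exp_iff]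
  have h1 : (Γ.D x B : ℝ) ≤ 2 * Γ.L n := by exact_mod_cast h
  rcases Nat.eq_zero_or_pos (Γ.L n) with h2 | h2
  · rw [h2]
    simp
  · have h3 : (0 : ℝ) < Γ.L n := by exact_mod_cast h2
    have h4 : (Γ.D x B : ℝ) / Γ.L n ≤ 2 := by rwa [div_le_iff₀ h3]
    linarith only [h4]

/-- exponential tails against the potential -/
theorem far_om (Γ : Geo X) (n : ℕ) (B x : X) {W c β f : ℝ} (hL : 0 < Γ.L n)
    (hx : 2 * Γ.L n < Γ.D x B) (hf : (Γ.D x B : ℝ) / 8 ≤ f) (hβ : 16 ≤ β * Γ.L n) (hW : 0 ≤ W)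
    (hc : W * Real.exp (-(β * Γ.L n / 8)) ≤ c) (hc0 : 0 ≤ c) :
    W * Real.exp (-(β * f)) ≤ c * om Γ n B x := by
  have h3 : (0 : ℝ) < Γ.L n := by exact_mod_cast hL
  have hx' : 2 * (Γ.L n : ℝ) < Γ.D x B := by exact_mod_cast hx
  have hβ0 : 0 < β := by
    by_contra hcon
    push Not at hcon
    nlinarith only [hβ, hcon]
  have h4 : β * Γ.L n / 8 + (Γ.D x B : ℝ) / Γ.L n - 2 ≤ β * f := by
    have h5 : (Γ.D x B : ℝ) / Γ.L n ≤ β * Γ.D x B / 16 := by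
      rw [div_le_iff₀ h3]
      have h6 : 0 ≤ (Γ.D x B : ℝ) := Nat.cast_nonneg _
      nlinarith only [hβ]
    have h6 : β * (Γ.D x B / 8) ≤ β * f := mul_le_mul_of_nonneg_left hf hβ0.le
    nlinarith only [hβ, h3, hx', h5, h6]
  calc W * Real.exp (-(β * f)) ≤
      W * (Real.exp (-(β * Γ.L n / 8)) * Real.exp (2 - (Γ.D x B : ℝ) / Γ.L n)) := by
        apply mul_le_mul_of_nonneg_left _ hW
        rw [← Real.exp_add, Real.exp_le_exp]
        linarith only [h4]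
    _ = W * Real.exp (-(β * Γ.L n / 8)) * om Γ n B x := by unfold om; ring
    _ ≤ c * om Γ n B x := mul_le_mul_of_nonneg_right hc (om_pos Γ n B x).le

end om

variable {d M : ℕ} [NeZero M]

/-- the common hypotheses of the far part of one block update -/
structure FarH (V : Env d M) (n : ℕ) (B : Tor d M) (b : Finset (Tor d M)) (T T' : Cfg (Tor d M))
    (φ : Tor d M → ℝ) (S : Finset (Tor d M)) (h₀ k₀ β : ℝ) : Prop where
  upd : Upd (Hr (Vef T) V.E) (Hr (Vef T') V.E) (kap V.e₀ T) (kap V.e₀ T') φ b (Al T) S h₀ k₀ β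
  far : ∀ x, 2 * V.Γ.L n < V.Γ.D x B → (V.Γ.D x B : ℝ) / 8 ≤ φ x
  bB : ∀ x ∈ b, V.Γ.D x B ≤ V.Γ.L n
  L0 : 0 < V.Γ.L n
  bL : 16 ≤ β * V.Γ.L n

/-- `Inc.ent` -/
theorem inc_ent {V : Env d M} {n : ℕ} {B : Tor d M} {b Q1 : Finset (Tor d M)}
    {T T' : Cfg (Tor d M)} {φ : Tor d M → ℝ} {S : Finset (Tor d M)} {h₀ k₀ β δ : ℝ}
    (h : FarH V n B b T T' φ S h₀ k₀ β)
    (hQ : ∀ x ∈ Al T, V.Γ.D x B ≤ 2 * V.Γ.L n → x ∈ Q1)
    (hG : ∀ x ∈ Q1, ∀ y ∈ Q1, ‖net V.E V.e₀ T' x y - net V.E V.e₀ T x y‖ ≤ δ)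
    (hδ : 4 / k₀ * Real.exp (-(β * V.Γ.L n / 8)) ≤ δ) :
    ∀ x ∈ Al T, ∀ y ∈ Al T,
      ‖net V.E V.e₀ T' x y - net V.E V.e₀ T x y‖ ≤ δ * om V.Γ n B x := by
  intro x hx y hy
  have hk := h.upd.hk₀
  have hδ0 : 0 ≤ δ := le_trans (by positivity) hδ
  have hβ := h.upd.hβ
  have hfar : ∀ z ∈ Al T, ¬ V.Γ.D z B ≤ 2 * V.Γ.L n → z ∉ b := by
    intro z _ hz hb
    have := h.bB z hb
    omega
  by_cases hxD : V.Γ.D x B ≤ 2 * V.Γ.L n
  · have hom := one_le_om V.Γ n B x hxD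
    have hle : δ ≤ δ * om V.Γ n B x := by nlinarith only [hδ0, hom]
    by_cases hyD : V.Γ.D y B ≤ 2 * V.Γ.L n
    · exact (hG x (hQ x hx hxD) y (hQ y hy hyD)).trans hle
    · have h1 := h.upd.ent hx hy (fun hh => hfar y hy hyD hh.2)
      refine h1.trans (le_trans ?_ hle)
      refine le_trans ?_ hδ
      apply mul_le_mul_of_nonneg_left _ (by positivity)
      rw [Real.exp_le_exp]
      have h2 := h.far y (by omega)
      have h3 := h.upd.plt.nn x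
      have h4 : (V.Γ.L n : ℝ) / 8 ≤ φ y := by
        have : 2 * (V.Γ.L n : ℝ) < V.Γ.D y B := by
          have : 2 * V.Γ.L n < V.Γ.D y B := by omega
          exact_mod_cast this
        have h5 : (0 : ℝ) ≤ V.Γ.L n := Nat.cast_nonneg _
        linarith only [h2, this]
      nlinarith only [mul_le_mul_of_nonneg_left h4 hβ, mul_nonneg hβ h3]
  · have h1 := h.upd.ent hx hy (fun hh => hfar x hx hxD hh.1)
    refine h1.trans ?_
    have h3 := h.upd.plt.nn y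
    refine le_trans ?_ (far_om V.Γ n B x h.L0 (by omega) (h.far x (by omega)) h.bL
      (by positivity) hδ hδ0)
    apply mul_le_mul_of_nonneg_left _ (by positivity)
    rw [Real.exp_le_exp]
    nlinarith only [mul_nonneg hβ h3]

/-- `Inc.lar` -/
theorem inc_lar {V : Env d M} {n : ℕ} {B : Tor d M} {b Q Q1 run : Finset (Tor d M)}
    {T T' : Cfg (Tor d M)} {φ : Tor d M → ℝ} {S : Finset (Tor d M)} {h₀ k₀ β c ω : ℝ}
    (h : FarH V n B b T T' φ S h₀ k₀ β) (hrun : run ⊆ Al T)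
    (hQ : ∀ x ∈ Al T, V.Γ.D x B ≤ 2 * V.Γ.L n → x ∈ Q1) (hQQ : Q1 ⊆ Q)
    (hG : ∀ x ∈ Q1, LaR (net V.E V.e₀ T') (run ∩ Q) x ≤ LaR (net V.E V.e₀ T) (run ∩ Q) x + ω)
    (hc : ω + 16 / k₀ ^ 4 * Real.exp (-(β * V.Γ.L n / 8)) ≤ c) (hω : 0 ≤ ω) :
    ∀ x ∈ Al T, LaR (net V.E V.e₀ T') run x ≤ LaR (net V.E V.e₀ T) run x + c * om V.Γ n B x := by
  intro x hx
  have hk := h.upd.hk₀
  have hW : 0 ≤ 16 / k₀ ^ 4 := by positivity
  have hc0 : 0 ≤ c := le_trans (by positivity) hc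
  have hβ := h.upd.hβ
  have hfar : ∀ z, ¬ V.Γ.D z B ≤ 2 * V.Γ.L n → z ∉ b := by
    intro z hz hb
    have := h.bB z hb
    omega
  by_cases hxD : V.Γ.D x B ≤ 2 * V.Γ.L n
  · have hom := one_le_om V.Γ n B x hxD
    have hle : c ≤ c * om V.Γ n B x := by nlinarith only [hc0, hom]
    have h1 := hG x (hQ x hx hxD)
    have h2 : ∀ y ∈ run \ Q, ¬ V.Γ.D y B ≤ 2 * V.Γ.L n := by
      intro y hy hD
      have hy' := Finset.mem_sdiff.1 hy
      exact hy'.2 (hQQ (hQ y (hrun hy'.1) hD))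
    have h3 := lar_far h.upd (R := run \ Q) (Finset.sdiff_subset.trans hrun)
      (fun y hy => hfar y (h2 y hy)) hx (φ0 := (V.Γ.L n : ℝ) / 8) (fun y hy => by
        have h4 := h2 y hy
        have h5 := h.far y (by omega)
        have h6 : 2 * (V.Γ.L n : ℝ) < V.Γ.D y B := by
          have : 2 * V.Γ.L n < V.Γ.D y B := by omega
          exact_mod_cast this
        have h7 : (0 : ℝ) ≤ V.Γ.L n := Nat.cast_nonneg _
        linarith only [h5, h6])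
    have h4 : ∀ G : Matrix (Tor d M) (Tor d M) ℂ, LaR G run x = LaR G (run ∩ Q) x +
        LaR G (run \ Q) x := by
      intro G
      unfold LaR
      rw [add_comm, ← Finset.sum_sdiff (Finset.inter_subset_left (s₁ := run) (s₂ := Q)),
        Finset.sdiff_inter_self_left]
    have h5 := (abs_le.1 h3).2
    have e1 : β * ((V.Γ.L n : ℝ) / 8) = β * V.Γ.L n / 8 := by ring
    rw [e1] at h5
    rw [h4, h4]
    change LaR (net V.E V.e₀ T') (run \ Q) x - LaR (net V.E V.e₀ T) (run \ Q) x ≤ _ at h5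
    linarith
  · have h3 := lar_far' h.upd (R := run) hrun hx (hfar x hxD)
    have h5 := (abs_le.1 h3).2
    change LaR (net V.E V.e₀ T') run x - LaR (net V.E V.e₀ T) run x ≤ _ at h5
    have h6 := far_om V.Γ n B x (W := 16 / k₀ ^ 4) (c := c) h.L0 (by omega) (h.far x (by omega))
      h.bL hW (by linarith only [hc, hω]) hc0
    linarith

end Pool.Agent.AHH.H58
end
end -- Pool.Agent.Helper58_AHH.EntLar

section -- Pool.Agent.Helper90_AHH.YInc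

/-!
# AHH: block Y in one block update
-/

set_option autoImplicit false

open scoped BigOperators NNReal ENNReal Matrix

noncomputable section

namespace Pool.Agent.AHH.H90

open Pool.Agent.BED (Tor)
open Pool.Agent.LE.QF (BB KK)
open Pool.Agent.AND2B (net kap Hr Vef)
open Pool.Agent.ANP (Cfg Geo)
open Pool.Agent.AFJ (ind)
open Pool.Agent.ABY (vir)
open Pool.Agent.AHH.H58 (FarH om_pos one_le_om far_om)

variable {d M : ℕ}

/-! ### the virtual clocks -/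

theorem pv_hf (T : Cfg (Tor d M)) (th : ℝ≥0) {run b : Finset (Tor d M)} (hb : b ⊆ run)
    (ζ : Tor d M → ℝ) (c t : ℝ) (ht : ∀ x ∈ b, t = (1 - (th : ℝ)) * T.s x) :
    (fun x => pv T run c x - ind b x * t) = pv (T.hf th b ζ) run c := by
  funext x
  unfold pv Cfg.hf ind
  simp only
  by_cases h : x ∈ b
  · have h1 := ht x h
    rw [if_pos h, if_pos h, if_pos (hb h)]
    push_cast
    rw [h1]
    ring
  · rw [if_neg h, if_neg h]
    ring

theorem pw_hf (T : Cfg (Tor d M)) (th : ℝ≥0) (run b : Finset (Tor d M)) (ζ : Tor d M → ℝ)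
    (c : ℝ) : pw (T.hf th b ζ) run c = pw T run c := rfl

theorem gg_hf (T : Cfg (Tor d M)) (th : ℝ≥0) (b : Finset (Tor d M)) (ζ : Tor d M → ℝ) :
    gg (T.hf th b ζ) = gg T := rfl

/-- the field `hP` of `AFL.Fl.Ok` with `P0 = pv T run c`, `U = Rg = run`; `s` the clock of the
unprocessed running sites, `c` the final clock -/
theorem ok_hP {T : Cfg (Tor d M)} {run b : Finset (Tor d M)} {e₀ s c : ℝ} (he : 0 ≤ e₀)
    (hb : b ⊆ run) (hbs : ∀ x ∈ b, (T.s x : ℝ) = s)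
    (hrun : ∀ x ∈ run, (T.s x : ℝ) = s ∨ (T.s x : ℝ) = c) (hc : 0 < c) (hcs : c ≤ s)
    (h2 : 2 * (s - c) ≤ c) (hg : ∀ x ∈ run, 0 ≤ gg T x) :
    (∀ x, 0 ≤ pv T run c x) ∧ (∀ x, x ∉ run → pv T run c x = 0) ∧
      (∀ x ∈ b, s - c ≤ pv T run c x) ∧
      ∀ x ∈ run, 2 * (pv T run c x * gg T x) ≤
        e₀ + ((T.s x : ℝ) - if x ∈ b then s - c else 0) * gg T x := by
  refine ⟨fun x => ?_, fun x hx => ?_, fun x hx => ?_, fun x hx => ?_⟩
  · unfold pv ind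
    split_ifs with h
    · rw [one_mul]
      rcases hrun x h with h1 | h1 <;> linarith
    · rw [zero_mul]
  · unfold pv ind
    rw [if_neg hx, zero_mul]
  · unfold pv ind
    rw [if_pos (hb hx), hbs x hx, one_mul]
  · have h1 : pv T run c x = (T.s x : ℝ) - c := by
      unfold pv ind
      rw [if_pos hx, one_mul]
    rw [h1]
    have h3 := hg x hx
    have h4 : 2 * ((T.s x : ℝ) - c) ≤ (T.s x : ℝ) - if x ∈ b then s - c else 0 := by
      split_ifs with h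
      · rw [hbs x h]
        linarith only [h2]
      · rcases hrun x hx with h5 | h5 <;> linarith
    nlinarith only [mul_le_mul_of_nonneg_right h4 h3, he]

/-- the field `hw` -/
theorem ok_hw {T : Cfg (Tor d M)} {run b : Finset (Tor d M)} {e₀ s c : ℝ}
    (hk : ∀ x, 0 ≤ e₀ + ((T.s x : ℝ) - if x ∈ b then s - c else 0) * gg T x) (he : 0 ≤ e₀)
    (hbs : ∀ x ∈ b, (T.s x : ℝ) = s)
    (hrun : ∀ x ∈ run, (T.s x : ℝ) = s ∨ (T.s x : ℝ) = c) (hc : 0 < c) (hcs : c ≤ s)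
    (hg : ∀ x ∈ run, 0 ≤ gg T x) :
    (∀ x, 0 ≤ pw T run c x ∧ pw T run c x ≤
      e₀ + ((T.s x : ℝ) - if x ∈ b then s - c else 0) * gg T x) ∧
      ∀ x, x ∉ run → pw T run c x = 0 := by
  refine ⟨fun x => ⟨?_, ?_⟩, fun x hx => ?_⟩
  · unfold pw ind
    split_ifs with h
    · have := hg x h
      positivity
    · rw [zero_mul]
  · by_cases h : x ∈ run
    · have h1 : pw T run c x = c * gg T x := by
        unfold pw ind
        rw [if_pos h, one_mul]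
      rw [h1]
      have h3 := hg x h
      have h4 : c ≤ (T.s x : ℝ) - if x ∈ b then s - c else 0 := by
        split_ifs with h5
        · rw [hbs x h5]
          linarith
        · rcases hrun x h with h5 | h5 <;> linarith
      nlinarith only [mul_le_mul_of_nonneg_right h4 h3, he]
    · have h1 : pw T run c x = 0 := by
        unfold pw ind
        rw [if_neg h, zero_mul]
      rw [h1]
      exact hk x
  · unfold pw ind
    rw [if_neg hx, zero_mul]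

/-! ### the increments -/

variable [NeZero M]

/-- the change of the pair is at most twice the changes of its components -/
theorem yy_le (E e₀ : ℝ) (T T' : Cfg (Tor d M)) (run : Finset (Tor d M)) (c δ : ℝ) (a : Tor d M)
    (h1 : ‖vir (BB (net E e₀ T')) (pv T' run c) (pw T' run c) a -
      vir (BB (net E e₀ T)) (pv T run c) (pw T run c) a‖ ≤ δ)
    (h2 : |vir (KK (net E e₀ T')) (pv T' run c) (pw T' run c) a -
      vir (KK (net E e₀ T)) (pv T run c) (pw T run c) a| ≤ δ) :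
    yy E e₀ T' run c a ≤ yy E e₀ T run c a + 2 * δ := by
  unfold yy
  have h3 := norm_sub_norm_le (vir (BB (net E e₀ T')) (pv T' run c) (pw T' run c) a)
    (vir (BB (net E e₀ T)) (pv T run c) (pw T run c) a)
  have h4 := le_abs_self (vir (KK (net E e₀ T')) (pv T' run c) (pw T' run c) a -
    vir (KK (net E e₀ T)) (pv T run c) (pw T run c) a)
  linarith

/-- `Inc.yin` -/
theorem inc_yin {V : Env d M} {n : ℕ} {B : Tor d M} {b Q1 run : Finset (Tor d M)}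
    {T T' : Cfg (Tor d M)} {φ : Tor d M → ℝ} {S : Finset (Tor d M)} {h₀ k₀ β δ c cf W β' : ℝ}
    (h : FarH V n B b T T' φ S h₀ k₀ β) (hrun : run ⊆ Al T)
    (hQ : ∀ x ∈ Al T, V.Γ.D x B ≤ 2 * V.Γ.L n → x ∈ Q1)
    (hyb : ∀ x ∈ Q1, x ∈ run →
      ‖vir (BB (net V.E V.e₀ T')) (pv T' run cf) (pw T' run cf) x -
        vir (BB (net V.E V.e₀ T)) (pv T run cf) (pw T run cf) x‖ ≤ δ)
    (hyk : ∀ x ∈ Q1, x ∈ run →
      |vir (KK (net V.E V.e₀ T')) (pv T' run cf) (pw T' run cf) x -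
        vir (KK (net V.E V.e₀ T)) (pv T run cf) (pw T run cf) x| ≤ δ)
    (hfar : ∀ a ∈ run, 2 * V.Γ.L n < V.Γ.D a B →
      yy V.E V.e₀ T' run cf a ≤ yy V.E V.e₀ T run cf a + W * Real.exp (-(β' * φ a)) * gg T a)
    (hg : ∀ a ∈ run, V.c₀ ≤ gg T a) (hc₀ : 0 < V.c₀) (hc : 0 ≤ c) (hδ : 2 * δ ≤ c * V.c₀)
    (hW : 0 ≤ W) (hβ' : 16 ≤ β' * V.Γ.L n)
    (hcW : W * Real.exp (-(β' * V.Γ.L n / 8)) ≤ c) :
    ∀ a ∈ run, yy V.E V.e₀ T' run cf a ≤
      yy V.E V.e₀ T run cf a + c * om V.Γ n B a * gg T a := by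
  intro a ha
  have hga := hg a ha
  have hga0 : 0 < gg T a := lt_of_lt_of_le hc₀ hga
  by_cases hD : V.Γ.D a B ≤ 2 * V.Γ.L n
  · have hom := one_le_om V.Γ n B a hD
    have h1 := yy_le V.E V.e₀ T T' run cf δ a (hyb a (hQ a (hrun ha) hD) ha)
      (hyk a (hQ a (hrun ha) hD) ha)
    have h2 : c * V.c₀ ≤ c * om V.Γ n B a * gg T a := by
      have h3 : c * V.c₀ ≤ c * gg T a := mul_le_mul_of_nonneg_left hga hc
      have h4 : c * gg T a ≤ c * om V.Γ n B a * gg T a := by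
        have h5 : c * 1 ≤ c * om V.Γ n B a := mul_le_mul_of_nonneg_left hom hc
        rw [mul_one] at h5
        exact mul_le_mul_of_nonneg_right h5 hga0.le
      exact h3.trans h4
    linarith
  · have hD' : 2 * V.Γ.L n < V.Γ.D a B := by omega
    have h1 := hfar a ha hD'
    have h2 := far_om V.Γ n B a (W := W) (c := c) (β := β') (f := φ a) h.L0 hD'
      (h.far a hD') hβ' hW hcW hc
    have h3 := mul_le_mul_of_nonneg_right h2 hga0.le
    linarith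

end Pool.Agent.AHH.H90
end
end -- Pool.Agent.Helper90_AHH.YInc

section -- Pool.Agent.Helper90_AHH.YHf

/-!
# AHH: block Y in one block update, near and far
-/

set_option autoImplicit false

open scoped BigOperators NNReal ENNReal Matrix

noncomputable section

namespace Pool.Agent.AHH.H90

open Pool.Agent.BED (Tor)
open Pool.Agent.LE.QF (BB KK)
open Pool.Agent.AND2B (net kap Hr Vef)
open Pool.Agent.ANP (Cfg Geo)
open Pool.Agent.AFJ (ind)
open Pool.Agent.ABY (vir)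
open Pool.Agent.AHH.H58 (om_pos one_le_om)
open Pool.Agent.ANR.H89 (Upd YFar)

/-- exponential tails against the potential, `φ ≥ D / 8` -/
theorem far_om8 {X : Type} (Γ : Geo X) (n : ℕ) (B x : X) {W c β f : ℝ} (hL : 0 < Γ.L n)
    (hx : 2 * Γ.L n < Γ.D x B) (hf : (Γ.D x B : ℝ) / 8 ≤ f) (hβ : 16 ≤ β * Γ.L n) (hW : 0 ≤ W)
    (hc : W * Real.exp (-(β * Γ.L n / 8)) ≤ c) :
    W * Real.exp (-(β * f)) ≤ c * om Γ n B x := by
  have h3 : (0 : ℝ) < Γ.L n := by exact_mod_cast hL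
  have hx' : 2 * (Γ.L n : ℝ) < Γ.D x B := by exact_mod_cast hx
  have hβ0 : 0 < β := by
    by_contra hcon
    push Not at hcon
    nlinarith only [hβ, hcon]
  have h4 : β * Γ.L n / 8 + (Γ.D x B : ℝ) / Γ.L n - 2 ≤ β * f := by
    have h5 : (Γ.D x B : ℝ) / Γ.L n ≤ β * Γ.D x B / 16 := by
      rw [div_le_iff₀ h3]
      have h6 : 0 ≤ (Γ.D x B : ℝ) := Nat.cast_nonneg _
      nlinarith only [hβ]
    have h6 : β * (Γ.D x B / 8) ≤ β * f := mul_le_mul_of_nonneg_left hf hβ0.le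
    nlinarith only [hβ, h3, hx', h5, h6]
  calc W * Real.exp (-(β * f)) ≤
      W * (Real.exp (-(β * Γ.L n / 8)) * Real.exp (2 - (Γ.D x B : ℝ) / Γ.L n)) := by
        apply mul_le_mul_of_nonneg_left _ hW
        rw [← Real.exp_add, Real.exp_le_exp]
        linarith only [h4]
    _ = W * Real.exp (-(β * Γ.L n / 8)) * om Γ n B x := by unfold om; ring
    _ ≤ c * om Γ n B x := mul_le_mul_of_nonneg_right hc (om_pos Γ n B x).le

variable {d M : ℕ} [NeZero M]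

/-- the pair of block Y far from the block; `s` the clock of the unprocessed running sites, `c` the
final clock -/
theorem yfar {E e₀ c₀ : ℝ} {b run : Finset (Tor d M)} {T T' : Cfg (Tor d M)} {φ : Tor d M → ℝ}
    {S : Finset (Tor d M)} {h₀ k₀ β s c : ℝ}
    (hU : Upd (Hr (Vef T) E) (Hr (Vef T') E) (kap e₀ T) (kap e₀ T') φ b (Al T) S h₀ k₀ β)
    (he : 0 ≤ e₀) (hc₀ : 0 < c₀) (hrun : run ⊆ Al T) (hb : b ⊆ run) (hmb : T'.mb = T.mb)
    (hoff : ∀ x, x ∉ b → T'.s x = T.s x) (hon : ∀ x ∈ b, (T'.s x : ℝ) = c)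
    (hbs : ∀ x ∈ b, (T.s x : ℝ) = s) (hrs : ∀ x ∈ run, (T.s x : ℝ) = s ∨ (T.s x : ℝ) = c)
    (hc : 0 < c) (hcs : c ≤ s) (h2 : 2 * (s - c) ≤ c)
    (hg : ∀ a ∈ run, c₀ ≤ gg T a ∧ (net E e₀ T a a).im ≤ 3 / 2 * gg T a ∧
      (net E e₀ T' a a).im ≤ 3 / 2 * gg T a) :
    ∀ a ∈ run,
      ‖vir (BB (net E e₀ T')) (pv T' run c) (pw T' run c) a -
        vir (BB (net E e₀ T)) (pv T run c) (pw T run c) a‖ ≤
        400 / (c₀ * k₀) * (Real.exp (-(β / 6 * φ a)) * gg T a) ∧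
      |vir (KK (net E e₀ T')) (pv T' run c) (pw T' run c) a -
        vir (KK (net E e₀ T)) (pv T run c) (pw T run c) a| ≤
        400 / (c₀ * k₀) * (Real.exp (-(β / 6 * φ a)) * gg T a) := by
  have hg0 : ∀ x ∈ run, 0 ≤ gg T x := fun x hx => hc₀.le.trans (hg x hx).1
  have hk : ∀ x, 0 < kap e₀ T x := hU.n.pos
  have hk' : ∀ x, 0 < kap e₀ T' x := hU.n'.pos
  have hpw : pw T' run c = pw T run c := by
    unfold pw gg
    rw [hmb]
  have hgg : gg T' = gg T := by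
    unfold gg
    rw [hmb]
  have hs0 : 0 < s := lt_of_lt_of_le hc hcs
  have e1 : ∀ x ∈ run, kap e₀ T x = e₀ + (T.s x : ℝ) * gg T x := fun x _ => rfl
  have e2 : ∀ x, kap e₀ T' x = e₀ + (T'.s x : ℝ) * gg T x := fun x => by
    unfold kap gg
    rw [hmb]
  have hP : (∀ x, 0 ≤ pv T run c x) ∧ (∀ x, x ∉ run → pv T run c x = 0) ∧
      ∀ x ∈ run, 2 * (pv T run c x * gg T x) ≤ kap e₀ T x := by
    refine ⟨fun x => ?_, fun x hx => ?_, fun x hx => ?_⟩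
    · unfold pv ind
      split_ifs with h
      · rw [one_mul]
        rcases hrs x h with h1 | h1 <;> linarith
      · rw [zero_mul]
    · unfold pv ind
      rw [if_neg hx, zero_mul]
    · have h1 : pv T run c x = (T.s x : ℝ) - c := by
        unfold pv ind
        rw [if_pos hx, one_mul]
      rw [h1, e1 x hx]
      have h3 := hg0 x hx
      have h4 : 2 * ((T.s x : ℝ) - c) ≤ (T.s x : ℝ) := by
        rcases hrs x hx with h5 | h5 <;> linarith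
      nlinarith only [mul_le_mul_of_nonneg_right h4 h3, he]
  have hrs' : ∀ x ∈ run, (T'.s x : ℝ) = s ∨ (T'.s x : ℝ) = c := by
    intro x hx
    by_cases h : x ∈ b
    · exact Or.inr (hon x h)
    · rw [hoff x h]
      exact hrs x hx
  have hP' : (∀ x, 0 ≤ pv T' run c x) ∧ (∀ x, x ∉ run → pv T' run c x = 0) ∧
      ∀ x ∈ run, 2 * (pv T' run c x * gg T x) ≤ kap e₀ T' x := by
    refine ⟨fun x => ?_, fun x hx => ?_, fun x hx => ?_⟩
    · unfold pv ind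
      split_ifs with h
      · rw [one_mul]
        rcases hrs' x h with h1 | h1 <;> linarith
      · rw [zero_mul]
    · unfold pv ind
      rw [if_neg hx, zero_mul]
    · have h1 : pv T' run c x = (T'.s x : ℝ) - c := by
        unfold pv ind
        rw [if_pos hx, one_mul]
      rw [h1, e2 x]
      have h3 := hg0 x hx
      have h4 : 2 * ((T'.s x : ℝ) - c) ≤ (T'.s x : ℝ) := by
        rcases hrs' x hx with h5 | h5 <;> linarith
      nlinarith only [mul_le_mul_of_nonneg_right h4 h3, he]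
  have hY : YFar (Hr (Vef T) E) (Hr (Vef T') E) (kap e₀ T) (kap e₀ T') φ b (Al T) S h₀ k₀ β
      (pv T run c) (pv T' run c) (pw T run c) (gg T) run run c₀ := by
    refine ⟨hU, fun x hx => ?_, hc₀, hrun, Finset.Subset.refl _, hb, fun a ha => ?_, hP, hP',
      ⟨fun x hx => ?_, fun x hx => ?_⟩, fun x => ?_, fun x => ?_⟩
    · have h3 := hg0 x (hb hx)
      rw [e1 x (hb hx), e2 x, hbs x hx, hon x hx]
      have h4 := mul_le_mul_of_nonneg_right hcs h3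
      have h5 : s ≤ 2 * c := by linarith
      have h6 := mul_le_mul_of_nonneg_right h5 h3
      constructor
      · linarith
      · linarith
    · exact hg a ha
    · unfold pv
      rw [hoff x hx]
    · have h1 : pv T' run c x - pv T run c x = c - s := by
        unfold pv ind
        rw [if_pos (hb hx), hbs x hx, hon x hx]
        ring
      have h3 := hg0 x (hb hx)
      rw [h1, e2 x, hon x hx, abs_of_nonpos (by linarith)]
      have h4 : -(c - s) ≤ c := by linarith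
      have h5 := mul_le_mul_of_nonneg_right h4 h3
      linarith
    · unfold pw ind
      split_ifs with h
      · have := hg0 x h
        positivity
      · rw [zero_mul]
    · unfold pw ind
      split_ifs with h
      · rw [e2 x, one_mul]
        have h3 := hg0 x h
        have h4 : c ≤ (T'.s x : ℝ) := by
          rcases hrs' x h with h5 | h5 <;> linarith
        have h5 := mul_le_mul_of_nonneg_right h4 h3
        linarith
      · rw [zero_mul]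
        exact (hk' x).le
  intro a ha
  rw [hpw]
  exact hY.pair ha

/-- `Inc.yin`, complete: near part from the block lemma, far part from `yfar` -/
theorem inc_yin_hf {V : Env d M} {n : ℕ} {B : Tor d M} {b Q1 run : Finset (Tor d M)}
    {T T' : Cfg (Tor d M)} {φ : Tor d M → ℝ} {S : Finset (Tor d M)} {h₀ k₀ β δ c s cf : ℝ}
    (hU : Upd (Hr (Vef T) V.E) (Hr (Vef T') V.E) (kap V.e₀ T) (kap V.e₀ T') φ b (Al T) S h₀ k₀ β)
    (hφ : ∀ x, 2 * V.Γ.L n < V.Γ.D x B → (V.Γ.D x B : ℝ) / 8 ≤ φ x)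
    (he : 0 ≤ V.e₀) (hc₀ : 0 < V.c₀) (hrun : run ⊆ Al T) (hb : b ⊆ run) (hmb : T'.mb = T.mb)
    (hoff : ∀ x, x ∉ b → T'.s x = T.s x) (hon : ∀ x ∈ b, (T'.s x : ℝ) = cf)
    (hbs : ∀ x ∈ b, (T.s x : ℝ) = s) (hrs : ∀ x ∈ run, (T.s x : ℝ) = s ∨ (T.s x : ℝ) = cf)
    (hcf : 0 < cf) (hcs : cf ≤ s) (h2 : 2 * (s - cf) ≤ cf)
    (hg : ∀ a ∈ run, V.c₀ ≤ gg T a ∧ (net V.E V.e₀ T a a).im ≤ 3 / 2 * gg T a ∧
      (net V.E V.e₀ T' a a).im ≤ 3 / 2 * gg T a)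
    (hQ : ∀ x ∈ Al T, V.Γ.D x B ≤ 2 * V.Γ.L n → x ∈ Q1)
    (hyb : ∀ x ∈ Q1, x ∈ run →
      ‖vir (BB (net V.E V.e₀ T')) (pv T' run cf) (pw T' run cf) x -
        vir (BB (net V.E V.e₀ T)) (pv T run cf) (pw T run cf) x‖ ≤ δ)
    (hyk : ∀ x ∈ Q1, x ∈ run →
      |vir (KK (net V.E V.e₀ T')) (pv T' run cf) (pw T' run cf) x -
        vir (KK (net V.E V.e₀ T)) (pv T run cf) (pw T run cf) x| ≤ δ)
    (hL : 0 < V.Γ.L n) (hδ : 2 * δ ≤ c * V.c₀) (hβ : 16 ≤ β / 6 * V.Γ.L n)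
    (hW : 800 / (V.c₀ * k₀) * Real.exp (-(β / 6 * V.Γ.L n / 8)) ≤ c) :
    ∀ a ∈ run, yy V.E V.e₀ T' run cf a ≤
      yy V.E V.e₀ T run cf a + c * om V.Γ n B a * gg T a := by
  have hk₀ := hU.hk₀
  have hW0 : 0 ≤ 800 / (V.c₀ * k₀) := by positivity
  have hc : 0 ≤ c := le_trans (by positivity) hW
  intro a ha
  have hga := (hg a ha).1
  have hga0 : 0 < gg T a := lt_of_lt_of_le hc₀ hga
  by_cases hD : V.Γ.D a B ≤ 2 * V.Γ.L n
  · have hom := one_le_om V.Γ n B a hD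
    have h1 := yy_le V.E V.e₀ T T' run cf δ a (hyb a (hQ a (hrun ha) hD) ha)
      (hyk a (hQ a (hrun ha) hD) ha)
    have h3 : c * V.c₀ ≤ c * gg T a := mul_le_mul_of_nonneg_left hga hc
    have h4 : c * gg T a ≤ c * om V.Γ n B a * gg T a := by
      have h5 : c * 1 ≤ c * om V.Γ n B a := mul_le_mul_of_nonneg_left hom hc
      rw [mul_one] at h5
      exact mul_le_mul_of_nonneg_right h5 hga0.le
    linarith
  · have hD' : 2 * V.Γ.L n < V.Γ.D a B := by omega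
    obtain ⟨h1, h3⟩ := yfar hU he hc₀ hrun hb hmb hoff hon hbs hrs hcf hcs h2 hg a ha
    have h4 := yy_le V.E V.e₀ T T' run cf _ a h1 h3
    have h5 := far_om8 V.Γ n B a (W := 800 / (V.c₀ * k₀)) (c := c) (β := β / 6) (f := φ a) hL hD'
      (hφ a hD') hβ hW0 hW
    have h6 := mul_le_mul_of_nonneg_right h5 hga0.le
    have h7 : 2 * (400 / (V.c₀ * k₀) * (Real.exp (-(β / 6 * φ a)) * gg T a)) =
        800 / (V.c₀ * k₀) * Real.exp (-(β / 6 * φ a)) * gg T a := by ring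
    rw [h7] at h4
    linarith

end Pool.Agent.AHH.H90
end
end -- Pool.Agent.Helper90_AHH.YHf

section -- Pool.Agent.Helper58_AHH.Flow

/-!
# FLO: one block (helper58)

`flow`: from the block lemma for `flOf` and the increments to the field `flo` for one block.
-/

set_option autoImplicit false

open MeasureTheory ProbabilityTheory

open scoped BigOperators NNReal ENNReal Matrix

noncomputable section

namespace Pool.Agent.AHH.H58

open Pool.Agent.BED (Tor)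
open Pool.Agent.LE.QF (BB KK)
open Pool.Agent.AND2B (net kap Viol Hr Vef)
open Pool.Agent.ANP (Cfg Geo Fc gm)
open Pool.Agent.AFJ (ind LaR EE)
open Pool.Agent.ABY (vir)
open Pool.Agent.AFL (Fl)
open Pool.Agent.LTG (Fm Bd sT tT qd)
open Pool.Agent.ANR.H89 (Upd GeoF cI upd_hf)
open Pool.Agent.AHH.H67 (Par flOf Yo Q1s EOk FNum BNum Lcl flOf_ok)

variable {d M : ℕ} [NeZero M]

/-- the field `flo` for one block, in general form -/
def FloB (V : Env d M) (bd : Bud) (pn : ℝ) (n k : ℕ) (T₀ : Cfg (Tor d M))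
    (run₀ P : Finset (Tor d M)) (T : Cfg (Tor d M)) (run : Finset (Tor d M)) (B : Tor d M) : Prop :=
  gm (fun _ => 0) (T.hv V.th (run ∩ V.Γ.blk n B))
    {ζ | ¬ (Viol V.E V.L (T.hf V.th (run ∩ V.Γ.blk n B) ζ) ∨
      Md V bd n k T₀ run₀ (P ∪ V.Γ.blk n B) (T.hf V.th (run ∩ V.Γ.blk n B) ζ) run)} ≤
    ENNReal.ofReal pn

/-- no running site in the block -/
theorem flow_empty {V : Env d M} {bd : Bud} {n k : ℕ} {T₀ T : Cfg (Tor d M)}
    {run₀ run P : Finset (Tor d M)} {B : Tor d M} {pn : ℝ} (hN : H28.Nm V bd n k)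
    (hB : V.Γ.bl n B = B) (hd : Disjoint P (V.Γ.blk n B))
    (hCp : ∀ x, Psi V.Γ n (P ∪ V.Γ.blk n B) x ≤ V.Cp) (hC2 : Real.exp 2 ≤ V.Cp)
    (hcl : Antitone V.cl) (hkk : Monotone V.kk) (hF : Fc V.Γ V.kk V.cl V.Dn n k P T run)
    (hM : Md V bd n k T₀ run₀ P T run)
    (hAl : Al T = Al T₀) (hrA : run ⊆ Al T)
    (hu : V.u₀ < 1) (hrho : 0 < (bd.q n k).rho)
    (hb : run ∩ V.Γ.blk n B = ∅) : FloB V bd pn n k T₀ run₀ P T run B := by
  unfold FloB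
  rw [hb]
  have hg : Gb V T (bd.q n k).del := by
    intro x hx
    rw [hAl] at hx
    have h1 := hM.st0.gau x hx
    unfold gg at h1 ⊢
    rw [hM.mb]
    exact h1
  have hw : ∀ x ∈ Al T, 0 < ww V.e₀ T x := fun x hx => H28.ww_pos hN.c0 hN.e0 hg hx
  have hI : Inc V bd n k run B T T := by
    refine inc_empty hw (fun x hx => ?_) hN.D hN.inc.1 ?_ hN.inc.2.2.1 hN.inc.2.2.2 hu ?_
    · exact hN.c0.le.trans (hg x (hrA hx)).1
    · exact mul_nonneg hN.q.2.2 hN.inc.2.1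
    · have h1 := hN.sm.2.2
      have h2 := mul_le_mul_of_nonneg_left hC2 hN.inc.2.2.2
      linarith only [hrho, h1, h2]
  have hMd : ∀ ζ, Md V bd n k T₀ run₀ (P ∪ V.Γ.blk n B)
      (T.hf V.th (run ∩ V.Γ.blk n B) ζ) run := by
    intro ζ
    refine H28.mid hN hB hd hCp hcl hkk hF hM ?_
    rw [hb, hf_empty]
    exact hI
  have he : {ζ : Tor d M → ℝ | ¬ (Viol V.E V.L (T.hf V.th ∅ ζ) ∨
      Md V bd n k T₀ run₀ (P ∪ V.Γ.blk n B) (T.hf V.th ∅ ζ) run)} = ∅ := by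
    rw [Set.eq_empty_iff_forall_notMem]
    intro ζ hζ
    have h1 := hMd ζ
    rw [hb] at h1
    exact hζ (Or.inr h1)
  rw [he, measure_empty]
  exact zero_le

/-- the numbers of one block -/
structure FlowN (V : Env d M) (bd : Bud) (n k : ℕ) (p : Par) : Prop where
  δ : p.δ ≤ bd.inc n k
  bL : 96 ≤ V.c₀ * V.cl (k + 1) / (8 * d) * V.Γ.L n
  ent : 4 / (V.c₀ * V.cl (k + 1)) *
    Real.exp (-(V.c₀ * V.cl (k + 1) / (8 * d) * V.Γ.L n / 8)) ≤ bd.inc n k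
  lar : p.ω * p.L + 16 / (V.c₀ * V.cl (k + 1)) ^ 4 *
    Real.exp (-(V.c₀ * V.cl (k + 1) / (8 * d) * V.Γ.L n / 8)) ≤ (bd.q n k).lam * bd.inL n k
  yin : 2 * p.δY ≤ bd.inY n k * V.c₀
  yfar : 800 / (V.c₀ * (V.c₀ * V.cl (k + 1))) *
    Real.exp (-(V.c₀ * V.cl (k + 1) / (8 * d) / 6 * V.Γ.L n / 8)) ≤ bd.inY n k
  /-- mismatch -/
  mis : (bd.q n k).mis + bd.inc n k * V.Cp ≤ V.c₀ / 2
  /-- geometry -/
  hL : 4 * (cI d V.Dn (Finset.range (n + 1)) + 1) ≤ V.Γ.L n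
  hsum : ∑ i ∈ Finset.range (n + 1), (3 ^ d * V.Dn i : ℝ) / V.Γ.L i ≤ 1 / 4

/-- GOOD GIVES THE INCREMENTS -/
theorem inc_good {V : Env d M} {bd : Bud} {n k : ℕ} {p : Par} {T₀ T : Cfg (Tor d M)}
    {run₀ run P Q : Finset (Tor d M)} {B : Tor d M} {ζ : Tor d M → ℝ} (hΓ : GeoF V.Γ)
    (hE : EOk V k) (hcl : ∀ k, V.cl (k + 1) = V.th * V.cl k) (hclp : ∀ k, 0 < V.cl k)
    (hcl1 : V.cl 0 ≤ 1) (hM : Md V bd n k T₀ run₀ P T run)
    (hF : Fc V.Γ V.kk V.cl V.Dn n k P T run) (hN : FlowN V bd n k p) (hω : 0 ≤ p.ω * p.L)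
    (hB : V.Γ.bl n B = B) (hne : (run ∩ V.Γ.blk n B).Nonempty)
    (hdj : Disjoint P (V.Γ.blk n B)) (hPsi : ∀ x, Psi V.Γ n (P ∪ V.Γ.blk n B) x ≤ V.Cp)
    (hi : 0 ≤ bd.inc n k) (hQ : Q1s V n T B ⊆ Q)
    (hG : (flOf V T (run ∩ V.Γ.blk n B) Q (Q1s V n T B) run (run \ P) (Yo V n T) k p).Good
      (fun c => ζ c))
    (hfrm : ∀ (εl εu : Tor d M → ℝ) (bl bu : Bd d M → ℝ),
      Fm sT tT (Al T) (ww V.e₀ T) εl εu bl bu (qd (Ef V.E V.e₀ T)) →
      (∀ x ∈ Al T, 0 ≤ εl x ∧ εl x ≤ 1 / 8 ∧ 0 ≤ εu x ∧ εu x ≤ (1 + V.u₀) / 2) →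
      (∀ e, V.D₀ / 2 ≤ bl e ∧ V.D₁ ≤ bu e ∧ bu e ≤ 2 * V.D₁) →
      Fm sT tT (Al T) (ww V.e₀ (T.hf V.th (run ∩ V.Γ.blk n B) ζ))
        (fun x => εl x * (ww V.e₀ (T.hf V.th (run ∩ V.Γ.blk n B) ζ) x / ww V.e₀ T x) +
          bd.nn n k * om V.Γ n B x)
        (fun x => εu x * (ww V.e₀ (T.hf V.th (run ∩ V.Γ.blk n B) ζ) x / ww V.e₀ T x) +
          bd.nn n k * om V.Γ n B x)
        (fun e => bl e - V.D₀ * (bd.nn n k * om V.Γ n B (sT e)))
        (fun e => bu e + V.D₁ * (bd.nn n k * om V.Γ n B (sT e)))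
        (qd (Ef V.E V.e₀ (T.hf V.th (run ∩ V.Γ.blk n B) ζ)))) :
    Inc V bd n k run B T (T.hf V.th (run ∩ V.Γ.blk n B) ζ) := by
  set b := run ∩ V.Γ.blk n B with hb
  set T' := T.hf V.th b ζ with hT'
  set F := flOf V T b Q (Q1s V n T B) run (run \ P) (Yo V n T) k p with hFd
  have hth := hE.th
  have hgau := H67.md_gau hM hE
  have hfc := H67.fc_run hF hE
  have halv : run ⊆ Al T := H67.fc_alv hF hE
  have hclR := hE.cl
  have hbr : b ⊆ run := Finset.inter_subset_left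
  have hbP : ∀ x ∈ b, x ∉ P := fun x hx hP =>
    Finset.disjoint_left.1 hdj hP (Finset.mem_inter.1 hx).2
  have hbs : ∀ x ∈ b, T.s x = V.cl k := fun x hx => hfc.2.1 x (hbr hx) (hbP x hx)
  have hT's : ∀ x ∈ b, T'.s x = V.cl (k + 1) := by
    intro x hx
    rw [hT', H28.hf_s, if_pos hx, hbs x hx, hcl k]
  have hoff : ∀ x, x ∉ b → T'.V x = T.V x ∧ T'.s x = T.s x := by
    intro x hx
    rw [hT', H28.hf_s, H28.hf_V, if_neg hx, if_neg hx]
    exact ⟨rfl, rfl⟩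
  have hmb : T'.mb = T.mb := rfl
  have hth1 : V.th ≤ 1 := by exact_mod_cast hth.2.le
  -- the far estimates
  obtain ⟨-, φ, hU, hφ⟩ := upd_hf hΓ hth1 hcl hclp hcl1 hE.e₀ hE.c₀.1 hE.c₀.2.1
    (fun x hx => (hgau x hx).1) hF hN.hsum hN.hL hB hne hmb hoff (fun x hx => (hT's x hx).ge)
  have hk0 : 0 < V.c₀ * (V.cl (k + 1) : ℝ) := mul_pos hE.c₀.1 (by exact_mod_cast hclp _)
  have hL0 : 0 < V.Γ.L n := hΓ.one n
  have hFar : FarH V n B b T T' φ (Al T \ b) (2 * d) (V.c₀ * V.cl (k + 1))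
      (V.c₀ * V.cl (k + 1) / (8 * d)) :=
    ⟨hU, hφ, fun x hx => by
      have h1 : V.Γ.bl n x = B := by
        have h2 := (Finset.mem_inter.1 hx).2
        unfold Geo.blk at h2
        exact (Finset.mem_filter.1 h2).2
      exact hΓ.ok.diam n x B (by rw [h1, hB]), hL0, by linarith only [hN.bL, hth]⟩
  -- the resolvents
  obtain ⟨hG0, -⟩ := fl_G0 F V.E V.e₀ T b rfl
  obtain ⟨hG1, -⟩ := fl_Gt F V.E V.e₀ T V.th (V.cl k) b rfl hbs rfl ζ
  have hQ1 : ∀ x ∈ Al T, V.Γ.D x B ≤ 2 * V.Γ.L n → x ∈ Q1s V n T B := fun x hx hD =>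
    Finset.mem_filter.2 ⟨hx, hD⟩
  have hent : ∀ x ∈ Al T, ∀ y ∈ Al T,
      ‖net V.E V.e₀ T' x y - net V.E V.e₀ T x y‖ ≤ bd.inc n k * om V.Γ n B x := by
    refine inc_ent hFar hQ1 (fun x hx y hy => ?_) hN.ent
    have h1 := hG.ent x hx y hy
    rw [hG0, hG1] at h1
    exact h1.trans hN.δ
  have hmis : ∀ a ∈ run, ‖net V.E V.e₀ T a a - T.mb a‖ ≤
      (bd.q n k).mis + bd.inc n k * Psi V.Γ n P a := by
    intro a ha
    have h1 := hM.ent a (halv ha) a (halv ha)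
    have h2 := hM.st0.mis a (hM.sub ha)
    have h3 : net V.E V.e₀ T a a - T.mb a = (net V.E V.e₀ T a a - net V.E V.e₀ T₀ a a) +
        (net V.E V.e₀ T₀ a a - T₀.mb a) := by rw [hM.mb]; ring
    rw [h3]
    refine (norm_add_le _ _).trans ?_
    linarith
  have hPu := H28.psi_union V.Γ n P B hB hdj
  refine ⟨hent, ?_, ?_, hfrm⟩
  · -- the fourth powers
    have h1 := inc_lar (Q := Q) hFar halv hQ1 hQ (fun x hx => by
      have h2 := hG.lam x hx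
      rw [hG0, hG1] at h2
      exact h2) hN.lar hω
    intro x hx
    have h2 := h1 x hx
    calc LaR (net V.E V.e₀ T') run x ≤ LaR (net V.E V.e₀ T) run x +
        (bd.q n k).lam * bd.inL n k * om V.Γ n B x := h2
      _ = _ := by ring
  · -- block Y
    have hpf : F.Pf F.T = pv T' run (V.cl (k + 1)) := by
      have h1 := H90.pv_hf T V.th hbr ζ (V.cl (k + 1)) ((1 - (V.th : ℝ)) * V.cl k)
        (fun x hx => by rw [hbs x hx])
      exact h1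
    refine H90.inc_yin_hf (s := V.cl k) hU hφ hE.e₀.le hE.c₀.1 halv hbr hmb
      (fun x hx => (hoff x hx).2) (fun x hx => by rw [hT's x hx])
      (fun x hx => by rw [hbs x hx]) (fun x hx => ?_) (by exact_mod_cast hclp _) ?_ ?_
      (fun a ha => ?_) hQ1 (fun x hx hr => ?_) (fun x hx hr => ?_) hL0 hN.yin ?_ hN.yfar
    · by_cases hP : x ∈ P
      · right
        rw [hfc.2.2.1 x hx hP]
      · left
        rw [hfc.2.1 x hx hP]
    · exact hE.cl'.2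
    · rw [hclR.2]
      nlinarith only [hclR.1, hth]
    · have hga := (hgau a (halv ha)).1
      have h1 := hmis a ha
      have h2 := hent a (halv ha) a (halv ha)
      have h3 : bd.inc n k * Psi V.Γ n P a + bd.inc n k * om V.Γ n B a ≤
          bd.inc n k * V.Cp := by
        rw [← mul_add, ← hPu a]
        exact mul_le_mul_of_nonneg_left (hPsi a) hi
      have h4 : 0 ≤ bd.inc n k * om V.Γ n B a := mul_nonneg hi (om_pos V.Γ n B a).le
      have h5 := hN.mis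
      have h6 : (net V.E V.e₀ T a a).im - gg T a ≤ ‖net V.E V.e₀ T a a - T.mb a‖ := by
        have h7 := Complex.abs_im_le_norm (net V.E V.e₀ T a a - T.mb a)
        rw [Complex.sub_im] at h7
        exact (le_abs_self _).trans h7
      have h7 : (net V.E V.e₀ T' a a).im - (net V.E V.e₀ T a a).im ≤
          ‖net V.E V.e₀ T' a a - net V.E V.e₀ T a a‖ := by
        have h8 := Complex.abs_im_le_norm (net V.E V.e₀ T' a a - net V.E V.e₀ T a a)
        rw [Complex.sub_im] at h8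
        exact (le_abs_self _).trans h8
      exact ⟨hga, by linarith, by linarith⟩
    · have h1 := hG.yb x hx hr
      rw [hG0, hG1, hpf] at h1
      exact h1
    · have h1 := hG.yk x hx hr
      rw [hG0, hG1, hpf] at h1
      exact h1
    · have h1 := hN.bL
      have h2 : V.c₀ * V.cl (k + 1) / (8 * d) / 6 * V.Γ.L n =
          V.c₀ * V.cl (k + 1) / (8 * d) * V.Γ.L n / 6 := by ring
      rw [h2]
      linarith only [h1]

/-- the form part of the increments (`Helper22_LTG.Inc`) -/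
def FrmI (V : Env d M) (bd : Bud) (n k : ℕ) (B : Tor d M) (T T' : Cfg (Tor d M)) : Prop :=
  ∀ (εl εu : Tor d M → ℝ) (bl bu : Bd d M → ℝ),
    Fm sT tT (Al T) (ww V.e₀ T) εl εu bl bu (qd (Ef V.E V.e₀ T)) →
    (∀ x ∈ Al T, 0 ≤ εl x ∧ εl x ≤ 1 / 8 ∧ 0 ≤ εu x ∧ εu x ≤ (1 + V.u₀) / 2) →
    (∀ e, V.D₀ / 2 ≤ bl e ∧ V.D₁ ≤ bu e ∧ bu e ≤ 2 * V.D₁) →
    Fm sT tT (Al T) (ww V.e₀ T')
      (fun x => εl x * (ww V.e₀ T' x / ww V.e₀ T x) + bd.nn n k * om V.Γ n B x)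
      (fun x => εu x * (ww V.e₀ T' x / ww V.e₀ T x) + bd.nn n k * om V.Γ n B x)
      (fun e => bl e - V.D₀ * (bd.nn n k * om V.Γ n B (sT e)))
      (fun e => bu e + V.D₁ * (bd.nn n k * om V.Γ n B (sT e))) (qd (Ef V.E V.e₀ T'))

/-- FLO FOR ONE BLOCK -/
theorem flow {V : Env d M} {bd : Bud} {n k : ℕ} {p : Par} {T₀ T : Cfg (Tor d M)}
    {run₀ run P Q : Finset (Tor d M)} {B : Tor d M} {Cf pn : ℝ} (hNm : H28.Nm V bd n k)
    (hΓ : GeoF V.Γ) (hE : EOk V k) (hcl : ∀ k, V.cl (k + 1) = V.th * V.cl k)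
    (hclp : ∀ k, 0 < V.cl k) (hcl1 : V.cl 0 ≤ 1) (hcla : Antitone V.cl) (hkk : Monotone V.kk)
    (hM : Md V bd n k T₀ run₀ P T run) (hF : Fc V.Γ V.kk V.cl V.Dn n k P T run)
    (hN : FlowN V bd n k p) (hω : 0 ≤ p.ω * p.L)
    (hB : V.Γ.bl n B = B) (hne : (run ∩ V.Γ.blk n B).Nonempty)
    (hdj : Disjoint P (V.Γ.blk n B)) (hPsi : ∀ x, Psi V.Γ n (P ∪ V.Γ.blk n B) x ≤ V.Cp)
    (hQ : Q1s V n T B ⊆ Q)
    (hflo : (Measure.pi fun _ : (flOf V T (run ∩ V.Γ.blk n B) Q (Q1s V n T B) run (run \ P)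
        (Yo V n T) k p).b => gaussianReal 0 (flOf V T (run ∩ V.Γ.blk n B) Q (Q1s V n T B) run
        (run \ P) (Yo V n T) k p).T.toNNReal)
          {v | ¬ (flOf V T (run ∩ V.Γ.blk n B) Q (Q1s V n T B) run (run \ P)
            (Yo V n T) k p).Good v} ≤
      ENNReal.ofReal ((flOf V T (run ∩ V.Γ.blk n B) Q (Q1s V n T B) run (run \ P)
        (Yo V n T) k p).pr V.c₀ V.C₀ Cf))
    (hpr : (flOf V T (run ∩ V.Γ.blk n B) Q (Q1s V n T B) run (run \ P)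
      (Yo V n T) k p).pr V.c₀ V.C₀ Cf ≤ pn)
    (hfrm : ∀ ζ : Tor d M → ℝ, (flOf V T (run ∩ V.Γ.blk n B) Q (Q1s V n T B) run (run \ P)
      (Yo V n T) k p).Good (fun c => ζ c) →
        FrmI V bd n k B T (T.hf V.th (run ∩ V.Γ.blk n B) ζ)) :
    FloB V bd pn n k T₀ run₀ P T run B := by
  have hfc := H67.fc_run hF hE
  have hth1 : V.th ≤ 1 := by exact_mod_cast hE.th.2.le
  have hbs : ∀ x ∈ run ∩ V.Γ.blk n B, T.s x = V.cl k := fun x hx =>
    hfc.2.1 x (Finset.mem_inter.1 hx).1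
      fun hP => Finset.disjoint_left.1 hdj hP (Finset.mem_inter.1 hx).2
  unfold FloB
  refine flo_cover (flOf V T (run ∩ V.Γ.blk n B) Q (Q1s V n T B) run (run \ P)
    (Yo V n T) k p) rfl hth1 hbs rfl hflo pn hpr
    (fun ζ => Viol V.E V.L (T.hf V.th (run ∩ V.Γ.blk n B) ζ) ∨
      Md V bd n k T₀ run₀ (P ∪ V.Γ.blk n B) (T.hf V.th (run ∩ V.Γ.blk n B) ζ) run) ?_
  intro ζ hG
  right
  exact H28.mid hNm hB hdj hPsi hcla hkk hF hM
    (inc_good hΓ hE hcl hclp hcl1 hM hF hN hω hB hne hdj hPsi hNm.inc.1 hQ hG (hfrm ζ hG))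

end Pool.Agent.AHH.H58
end
end -- Pool.Agent.Helper58_AHH.Flow

section -- Pool.Agent.Helper67_AHH.FNm

/-!
# AND2B: the numbers of the form for the block lemma (helper67)
-/

set_option autoImplicit false

open scoped BigOperators NNReal

noncomputable section

namespace Pool.Agent.AHH.H67

open Pool.Agent.BED (Tor)
open Pool.Agent.AND2B (Ev Fld)
open Pool.Agent.AND.Num
open Pool.Agent.AHH.H61
open Pool.Agent.AHH.H17 (parZ kg)
open Pool.Agent.NAS (CS)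
open Pool.Agent.MAJ (S0 S2)

/-- a level `J` with `4 ^ J ≤ x ^ (-9/10)` and `2 ^ (-J) ≤ 2 x ^ (9/20)` -/
theorem exJ {x : ℝ} (hx : 0 < x) (hx1 : x ≤ 1) :
    ∃ J : ℕ, (4 : ℝ) ^ J ≤ x ^ (-(9 / 10) : ℝ) ∧ (1 / 2 : ℝ) ^ J ≤ 2 * x ^ (9 / 20 : ℝ) := by
  have hy : 1 ≤ x ^ (-(9 / 10) : ℝ) :=
    Real.one_le_rpow_of_pos_of_le_one_of_nonpos hx hx1 (by norm_num)
  obtain ⟨J, h1, h2⟩ := exists_nat_pow_near hy (by norm_num : (1 : ℝ) < 4)
  refine ⟨J, h1, ?_⟩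
  have h3 : x ^ (-(9 / 10) : ℝ) = (x ^ (-(9 / 20) : ℝ)) ^ 2 := by
    rw [← Real.rpow_natCast, ← Real.rpow_mul hx.le]
    norm_num
  have h4 : (4 : ℝ) ^ (J + 1) = (2 ^ (J + 1)) ^ 2 := by
    rw [← pow_mul, mul_comm (J + 1) 2, pow_mul]
    norm_num
  rw [h3, h4] at h2
  have h5 : x ^ (-(9 / 20) : ℝ) < 2 ^ (J + 1) :=
    lt_of_pow_lt_pow_left₀ 2 (by positivity) h2
  have h6 : x ^ (-(9 / 20) : ℝ) * x ^ (9 / 20 : ℝ) = 1 := by
    rw [← Real.rpow_add hx]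
    norm_num
  have hp : 0 < x ^ (9 / 20 : ℝ) := Real.rpow_pos_of_pos hx _
  have h7 : 1 ≤ 2 ^ (J + 1) * x ^ (9 / 20 : ℝ) := by
    rw [← h6]
    exact mul_le_mul_of_nonneg_right h5.le hp.le
  have h8 : (1 / 2 : ℝ) ^ J = (1 / 2 : ℝ) ^ J * 1 := by ring
  rw [h8]
  have h9 : (1 / 2 : ℝ) ^ J * 1 ≤ (1 / 2 : ℝ) ^ J * (2 ^ (J + 1) * x ^ (9 / 20 : ℝ)) :=
    mul_le_mul_of_nonneg_left h7 (by positivity)
  refine h9.trans (le_of_eq ?_)
  have h10 : (1 / 2 : ℝ) ^ J * 2 ^ J = 1 := by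
    rw [← mul_pow]
    norm_num
  calc (1 / 2 : ℝ) ^ J * (2 ^ (J + 1) * x ^ (9 / 20 : ℝ)) =
      ((1 / 2 : ℝ) ^ J * 2 ^ J) * (2 * x ^ (9 / 20 : ℝ)) := by ring
    _ = 2 * x ^ (9 / 20 : ℝ) := by rw [h10, one_mul]

/-- the boundary terms of the big cube -/
theorem cube_tail {s : ℝ} (hs : 0 < s) {d kB : ℕ} (hd : 3 ≤ d)
    (hX : s ^ (-(5 : ℝ)) ≤ (2 : ℝ) ^ kB) :
    1 / ((2 : ℝ) ^ kB) ^ d ≤ s ^ 15 ∧ (4 : ℝ) ^ kB / ((2 : ℝ) ^ kB) ^ d ≤ s ^ 5 := by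
  have hX1 : (1 : ℝ) ≤ 2 ^ kB := one_le_pow₀ (by norm_num)
  have h5 : s ^ (-(5 : ℝ)) = (s ^ 5)⁻¹ := by
    rw [Real.rpow_neg hs.le]
    congr 1
    exact_mod_cast Real.rpow_natCast s 5
  rw [h5] at hX
  have hs5 : 0 < s ^ 5 := by positivity
  have hXi : ((2 : ℝ) ^ kB)⁻¹ ≤ s ^ 5 := by
    rw [inv_le_comm₀ (by positivity) hs5]
    exact hX
  have h3 : ((2 : ℝ) ^ kB) ^ 3 ≤ ((2 : ℝ) ^ kB) ^ d := pow_le_pow_right₀ hX1 hd
  have hXp : (0 : ℝ) < ((2 : ℝ) ^ kB) ^ 3 := by positivity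
  constructor
  · calc 1 / ((2 : ℝ) ^ kB) ^ d ≤ 1 / ((2 : ℝ) ^ kB) ^ 3 := one_div_le_one_div_of_le hXp h3
      _ = (((2 : ℝ) ^ kB)⁻¹) ^ 3 := by rw [one_div, inv_pow]
      _ ≤ (s ^ 5) ^ 3 := pow_le_pow_left₀ (by positivity) hXi 3
      _ = s ^ 15 := by ring
  · have h4 : (4 : ℝ) ^ kB = ((2 : ℝ) ^ kB) ^ 2 := by
      rw [← pow_mul, mul_comm kB 2, pow_mul]
      norm_num
    calc (4 : ℝ) ^ kB / ((2 : ℝ) ^ kB) ^ d ≤ (4 : ℝ) ^ kB / ((2 : ℝ) ^ kB) ^ 3 :=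
          div_le_div_of_nonneg_left (by positivity) hXp h3
      _ = ((2 : ℝ) ^ kB)⁻¹ := by
          rw [h4]
          field_simp
      _ ≤ s ^ 5 := hXi

/-- the bound of `S2` (and of `S0`) -/
theorem S2_le {d kB J : ℕ} (hd : 3 ≤ d) {c s b0 m : ℝ} (hc : 0 < c) (hs : 0 < s)
    (hb0 : 0 < b0) (hb : c / 2 ≤ b0) (hm : c ^ 2 / 16 * s ≤ m)
    (hX : s ^ (-(5 : ℝ)) ≤ (2 : ℝ) ^ kB) :
    S2 d kB J b0 m ≤ 4 * CS d / b0 * (1 / 2 : ℝ) ^ J + 256 / c ^ 2 * s ^ 14 +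
      128 * CS d / c * s ^ 5 ∧
    S0 d kB J b0 m ≤ 2 * CS d / b0 * (1 / 2 : ℝ) ^ J + 256 / c ^ 2 * s ^ 14 +
      128 * CS d / c * s ^ 5 := by
  have hCS : 0 < CS d := MAJ.CS_pos hd
  obtain ⟨t1, t2⟩ := cube_tail hs hd hX
  have hXd : (0 : ℝ) < ((2 : ℝ) ^ kB) ^ d := by positivity
  have hmp : 0 < m := lt_of_lt_of_le (by positivity) hm
  have h1 : ((1 / 2 : ℝ) ^ (d - 2)) ^ J ≤ (1 / 2 : ℝ) ^ J := by
    refine pow_le_pow_left₀ (by positivity) ?_ J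
    calc (1 / 2 : ℝ) ^ (d - 2) ≤ (1 / 2 : ℝ) ^ 1 :=
          pow_le_pow_of_le_one (by norm_num) (by norm_num) (by omega)
      _ = 1 / 2 := pow_one _
  have h2 : 16 / (m * ((2 : ℝ) ^ kB) ^ d) ≤ 256 / c ^ 2 * s ^ 14 := by
    have e1 : 16 / (m * ((2 : ℝ) ^ kB) ^ d) = 16 / m * (1 / ((2 : ℝ) ^ kB) ^ d) := by
      field_simp
    have e2 : 16 / m ≤ 16 / (c ^ 2 / 16 * s) :=
      div_le_div_of_nonneg_left (by norm_num) (by positivity) hm
    rw [e1]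
    calc 16 / m * (1 / ((2 : ℝ) ^ kB) ^ d) ≤ 16 / (c ^ 2 / 16 * s) * s ^ 15 :=
          mul_le_mul e2 t1 (by positivity) (by positivity)
      _ = 256 / c ^ 2 * s ^ 14 := by
          field_simp
          norm_num
  have h3 : 64 * CS d * 4 ^ kB / (b0 * ((2 : ℝ) ^ kB) ^ d) ≤ 128 * CS d / c * s ^ 5 := by
    have e1 : 64 * CS d * 4 ^ kB / (b0 * ((2 : ℝ) ^ kB) ^ d) =
        64 * CS d / b0 * (4 ^ kB / ((2 : ℝ) ^ kB) ^ d) := by
      field_simp
    have e2 : 64 * CS d / b0 ≤ 64 * CS d / (c / 2) :=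
      div_le_div_of_nonneg_left (by positivity) (by positivity) hb
    rw [e1]
    calc 64 * CS d / b0 * (4 ^ kB / ((2 : ℝ) ^ kB) ^ d) ≤ 64 * CS d / (c / 2) * s ^ 5 :=
          mul_le_mul e2 t2 (by positivity) (by positivity)
      _ = 128 * CS d / c * s ^ 5 := by
          field_simp
          norm_num
  have h4 : 4 * CS d / b0 * ((1 / 2 : ℝ) ^ (d - 2)) ^ J ≤ 4 * CS d / b0 * (1 / 2 : ℝ) ^ J :=
    mul_le_mul_of_nonneg_left h1 (by positivity)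
  have h5 : 2 * CS d / b0 * ((1 / 2 : ℝ) ^ (d - 2)) ^ J ≤ 2 * CS d / b0 * (1 / 2 : ℝ) ^ J :=
    mul_le_mul_of_nonneg_left h1 (by positivity)
  have h6 : 8 / (m * ((2 : ℝ) ^ kB) ^ d) ≤ 16 / (m * ((2 : ℝ) ^ kB) ^ d) :=
    div_le_div_of_nonneg_right (by norm_num) (by positivity)
  have h7 : 32 * CS d * 4 ^ kB / (b0 * ((2 : ℝ) ^ kB) ^ d) ≤
      64 * CS d * 4 ^ kB / (b0 * ((2 : ℝ) ^ kB) ^ d) :=
    div_le_div_of_nonneg_right (by
      have : (0 : ℝ) < 4 ^ kB := by positivity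
      nlinarith only [mul_pos hCS this]) (by positivity)
  unfold S2 S0
  exact ⟨by linarith only [h2, h3, h4], by linarith only [h2, h3, h5, h6, h7]⟩

/-- the smallness of the powers of the clock -/
def FP (CSd cp c C : ℝ) (α : ℕ) (s : ℝ) : Prop :=
  s ≤ 1 ∧ 2 * s ^ (kaf α / 2) ≤ 1 / 4 * s ^ (kaf α / 4) ∧ cp * s ^ kaf α ≤ 1 / 4 * s ^ (kaf α / 4) ∧
  24 * CSd * C ^ 2 / c * s ^ (1 / 10 : ℝ) ≤ 1 / 2 * s ^ (kaf α / 4) ∧
  48 * CSd * C ^ 2 / c * s ^ (1 / 10 : ℝ) ≤ 1 / 2 * s ^ (0 : ℝ) ∧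
  48 * CSd / c * s ^ (1 - 8 * es) ≤ 1 * s ^ (1 / 25 : ℝ) ∧
  256 / c ^ 2 * s ^ (14 : ℝ) ≤ 1 / 3 * s ^ (1 : ℝ) ∧
  128 * CSd / c * s ^ (5 : ℝ) ≤ 1 / 3 * s ^ (1 : ℝ) ∧
  8 * CSd / c * s ^ (0 : ℝ) ≤ 1 / 3 * s ^ (-1 : ℝ) ∧
  8 * CSd / c * s ^ (9 / 20 : ℝ) ≤ 1 / 3 * s ^ (1 / 4 + kaf α / 4)

theorem fp_small (CSd cp c C : ℝ) (α : ℕ) (hα : 2 ≤ α) : Small (FP CSd cp c C α) := by
  have hk := kaf_pos α
  have hk' := kaf_le hα
  have he : es = 1 / 10000 := rfl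
  exact (small_le 1 one_pos).and ((small_pow' 2 (1 / 4) _ _ (by norm_num) (by linarith only [hk])).and
    ((small_pow' cp (1 / 4) _ _ (by norm_num) (by linarith only [hk])).and
    ((small_pow' _ (1 / 2) _ _ (by norm_num) (by linarith only [hk, hk'])).and
    ((small_pow' _ (1 / 2) _ _ (by norm_num) (by norm_num)).and
    ((small_pow' _ 1 _ _ (by norm_num) (by rw [he]; norm_num)).and
    ((small_pow' _ (1 / 3) _ _ (by norm_num) (by norm_num)).and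
    ((small_pow' _ (1 / 3) _ _ (by norm_num) (by norm_num)).and
    ((small_pow' _ (1 / 3) _ _ (by norm_num) (by norm_num)).and
    (small_pow' _ (1 / 3) _ _ (by norm_num) (by linarith only [hk, hk']))))))))))

end Pool.Agent.AHH.H67
end
end -- Pool.Agent.Helper67_AHH.FNm

section -- Pool.Agent.Helper67_AHH.FNz

/-!
# AND2B: the numbers of the form for the concrete budget (helper67)
-/

set_option autoImplicit false

open scoped BigOperators NNReal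

noncomputable section

namespace Pool.Agent.AHH.H67

open Pool.Agent.BED (Tor)
open Pool.Agent.AND2B (Ev Fld)
open Pool.Agent.AND.Num
open Pool.Agent.AHH.H61
open Pool.Agent.AHH.H17 (parZ kg)
open Pool.Agent.NAS (CS)
open Pool.Agent.MAJ (S0 S2)

section

variable {d : ℕ} {V : AND2B.Env d} {a : ℝ}

/-- the young clock against the clock of the stage -/
theorem young_pow (hP : V.Pre a) (hw1 : (V.w : ℝ) ≤ 1) {n k : ℕ} (hn : n ≤ V.N)
    (hk : k < V.kk (n + 1)) : (V.cl (V.kk (n - 1)) : ℝ) ^ ((V.α + 1) * (V.α + 1)) ≤ V.cl k := by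
  have h1 : V.sg (n + 1) ≤ V.cl k := cl_anti' hP hk.le
  have h2 : V.sg n ^ (V.α + 1) ≤ V.sg (n + 1) := hP.sc.low n hn
  have hpos : ∀ j, 0 < V.sg j := sg_pos hP
  have hle : ∀ j, V.sg j ≤ 1 := fun j => (sg_le hP j).trans hw1
  have h3 : V.sg (n - 1) ^ (V.α + 1) ≤ V.sg n := by
    rcases n with _ | m
    · have h4 : V.sg (0 - 1) = V.sg 0 := rfl
      rw [h4]
      exact pow_le_of_le_one (hpos 0).le (hle 0) (by omega)
    · exact hP.sc.low m (by omega)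
  have h4 : (V.cl (V.kk (n - 1)) : ℝ) = V.sg (n - 1) := rfl
  rw [h4, pow_mul]
  exact (pow_le_pow_left₀ (pow_nonneg (hpos _).le _) h3 _).trans (h2.trans h1)

/-- the same for powers: `s_F ^ (9/20) ≤ s ^ (450 ka)` -/
theorem young_rpow (hP : V.Pre a) (hw1 : (V.w : ℝ) ≤ 1) {n k : ℕ} (hn : n ≤ V.N)
    (hk : k < V.kk (n + 1)) :
    (V.cl (V.kk (n - 1)) : ℝ) ^ (9 / 20 : ℝ) ≤ (V.cl k : ℝ) ^ (450 * ka V) := by
  have h1 := young_pow hP hw1 hn hk
  have hF : (0 : ℝ) < V.cl (V.kk (n - 1)) := cl_pos' hP _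
  have hka : 0 < ka V := ka_pos
  have h2 := Real.rpow_le_rpow (by positivity) h1 (by linarith only [hka] : 0 ≤ 450 * ka V)
  refine le_trans (le_of_eq ?_) h2
  rw [← Real.rpow_natCast, ← Real.rpow_mul hF.le]
  congr 1
  unfold ka
  push_cast
  field_simp
  norm_num

end

theorem div2 {X D c : ℝ} (hX : 0 ≤ X) (hc : 0 < c) (hD : c ≤ D) : X / (D / 2) ≤ 2 * X / c := by
  rw [div_le_div_iff₀ (by linarith only [hc, hD]) hc]
  have := mul_le_mul_of_nonneg_left hD hX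
  linarith only [this]

/-- THE NUMBERS OF THE FORM -/
theorem fnum (d : ℕ) (a c C : ℝ) (hd : 3 ≤ d) (hc : 0 < c) (hC : 1 ≤ C) :
    Ev d a es c C fun V => ∀ n k, n ≤ V.N → V.kk n ≤ k → k < V.kk (n + 1) →
      ∃ J1 J2 : ℕ, FNum (toE V c C) (bud V) n k (V.l n + 4) J1 J2 (parZ V c C n k) := by
  have hCS : 0 < CS d := MAJ.CS_pos hd
  have h1 : Ev d a es c C fun V => ∀ s : ℝ, 0 < s → s ≤ V.w → FP (CS d) (cpd d) c C V.α s :=
    ev_small (fun _ _ _ α _ s => FP (CS d) (cpd d) c C α s)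
      fun _ _ _ α _ _ _ _ hα => fp_small _ _ _ _ α hα
  have h2 := ev_thr d a c C (cpd d) (1 / 2) (by norm_num)
  have h3 : Ev d a es c C fun V => V.e₀ ≤ V.sg (V.N + 1) :=
    ev_e0 (fun V => V.sg (V.N + 1)) (fun V hV => sg_pos hV _) (fun V _ _ _ => rfl)
  refine (((h1.and h2).and h3).and ev_good).imp fun V hV n k hn hk1 hk2 => ?_
  obtain ⟨⟨⟨hF, hthr⟩, he⟩, hG⟩ := hV
  have hP : V.Pre a := hG.toPre
  have hw := w_pos hP
  have hka : 0 < ka V := ka_pos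
  have hkal := ka_le hP
  obtain ⟨w1, _, _, _, _, w6, _, _, _, _⟩ := hF V.w hw le_rfl
  -- the clock of the stage
  obtain ⟨s, hs⟩ : ∃ s : ℝ, s = V.cl k := ⟨_, rfl⟩
  have hs0 : 0 < s := by rw [hs]; exact cl_pos' hP k
  have hsw : s ≤ V.w := by rw [hs]; exact cl_le' hP k
  have hs1 : s ≤ 1 := hsw.trans w1
  obtain ⟨-, s2, s3, s4, -, -, s7, s8, s9, s10⟩ := hF s hs0 hsw
  have r14 : s ^ (14 : ℝ) = s ^ 14 := by exact_mod_cast Real.rpow_natCast s 14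
  have r5 : s ^ (5 : ℝ) = s ^ 5 := by exact_mod_cast Real.rpow_natCast s 5
  rw [r14, Real.rpow_one] at s7
  rw [r5, Real.rpow_one] at s8
  rw [Real.rpow_zero, mul_one] at s9
  -- the young clock
  obtain ⟨y, hy⟩ : ∃ y : ℝ, y = V.cl (V.kk (n - 1)) := ⟨_, rfl⟩
  have hy0 : 0 < y := by rw [hy]; exact cl_pos' hP _
  have hyw : y ≤ V.w := by rw [hy]; exact cl_le' hP _
  have hy1 : y ≤ 1 := hyw.trans w1
  have hsy : s ≤ y := by
    rw [hs, hy]
    exact cl_anti' hP ((kk_mono hP (Nat.sub_le n 1)).trans hk1)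
  obtain ⟨-, -, -, -, y5, -, -, -, -, -⟩ := hF y hy0 hyw
  rw [Real.rpow_zero, mul_one] at y5
  have hyka : y ^ (9 / 20 : ℝ) ≤ s ^ (450 * ka V) := by
    rw [hs, hy]
    exact young_rpow hP w1 hn hk2
  -- floor
  have hes : V.e₀ ≤ s := by
    rw [hs]
    exact he.trans (sg_last hP (hk2.le.trans (kk_mono hP (by omega))))
  -- levels
  obtain ⟨J1, j1, j1'⟩ := exJ hy0 hy1
  obtain ⟨J2, j2, j2'⟩ := exJ hs0 hs1
  -- weights
  have hwt : ∀ x : ℝ, s ≤ x → 0 < x → (V.e₀ + x * (2 * C)) * (2 * C) ≤ 6 * C ^ 2 * x := by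
    intro x hx hx0
    have h3 : 1 * x ≤ C * x := mul_le_mul_of_nonneg_right hC hx0.le
    have h4 : V.e₀ + x * (2 * C) ≤ 3 * C * x := by linarith only [hes, hx, h3]
    calc (V.e₀ + x * (2 * C)) * (2 * C) ≤ 3 * C * x * (2 * C) :=
          mul_le_mul_of_nonneg_right h4 (by linarith only [hC, hka, hkal])
      _ = 6 * C ^ 2 * x := by ring
  -- the bond weight
  obtain ⟨D, hD⟩ : ∃ D : ℝ, D = c * (V.w : ℝ) ^ (8 * es - 1) := ⟨_, rfl⟩
  have hwe : 1 ≤ (V.w : ℝ) ^ (8 * es - 1) :=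
    Real.one_le_rpow_of_pos_of_le_one_of_nonpos hw w1 (by unfold es; norm_num)
  have hDc : c ≤ D := by rw [hD]; exact le_mul_of_one_le_right hc.le hwe
  have hD0 : 0 < D := by linarith only [hc, hDc]
  have hDinv : 1 / D = 1 / c * (V.w : ℝ) ^ (1 - 8 * es) := by
    rw [hD]
    have h4 : (V.w : ℝ) ^ (8 * es - 1) * (V.w : ℝ) ^ (1 - 8 * es) = 1 := by
      rw [← Real.rpow_add hw]
      have : 8 * es - 1 + (1 - 8 * es) = 0 := by ring
      rw [this, Real.rpow_zero]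
    have hne : (V.w : ℝ) ^ (8 * es - 1) ≠ 0 := (Real.rpow_pos_of_pos hw _).ne'
    field_simp
    linarith only [h4]
  have hlev : ∀ (x : ℝ) (J : ℕ), 0 < x → (4 : ℝ) ^ J ≤ x ^ (-(9 / 10) : ℝ) →
      (4 : ℝ) ^ J * x ≤ x ^ (1 / 10 : ℝ) := by
    intro x J hx hJ
    have h4 : x ^ (1 / 10 : ℝ) = x ^ (-(9 / 10) : ℝ) * x := by
      have : (1 / 10 : ℝ) = -(9 / 10) + 1 := by norm_num
      rw [this, Real.rpow_add hx, Real.rpow_one]
    rw [h4]
    exact mul_le_mul_of_nonneg_right hJ hx.le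
  -- the cube
  have hX : s ^ (-(5 : ℝ)) ≤ (2 : ℝ) ^ (V.l n + 4) := by
    have h4 : V.sg (n + 1) ^ (-(5 : ℝ)) ≤ 2 ^ V.l n := hP.sc.llow n hn
    have h5 : s ^ (-(5 : ℝ)) ≤ V.sg (n + 1) ^ (-(5 : ℝ)) :=
      Real.rpow_le_rpow_of_nonpos (sg_pos hP _) (by rw [hs]; exact cl_anti' hP hk2.le)
        (by norm_num)
    refine h5.trans (h4.trans ?_)
    exact pow_le_pow_right₀ (by norm_num) (by omega)
  have hm : c ^ 2 / 16 * s ≤ (c / 2) ^ 2 * V.cl (k + 1) / 2 := by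
    have h4 : (V.cl (k + 1) : ℝ) = V.th * V.cl k := by
      rw [cl_succ]
      push_cast
      rfl
    have h5 : (1 / 2 : ℝ) ≤ V.th := by exact_mod_cast hP.th.1
    rw [h4, ← hs]
    have h6 : 1 / 2 * s ≤ V.th * s := mul_le_mul_of_nonneg_right h5 hs0.le
    have h7 : 0 ≤ c ^ 2 / 8 := by positivity
    have h8 := mul_le_mul_of_nonneg_left h6 h7
    calc c ^ 2 / 16 * s = c ^ 2 / 8 * (1 / 2 * s) := by ring
      _ ≤ c ^ 2 / 8 * (V.th * s) := h8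
      _ = _ := by ring
  obtain ⟨g1, -⟩ := S2_le (J := J1) hd hc hs0 (by linarith only [hc, hDc] : 0 < D / 2) (by linarith only [hDc]) hm hX
  obtain ⟨g3, -⟩ := S2_le (J := 0) hd hc hs0 (by linarith only [hc, hDc] : 0 < D / 2) (by linarith only [hDc]) hm hX
  obtain ⟨-, g2⟩ := S2_le (J := J2) hd hc hs0 (by linarith only [hc, hDc] : 0 < D / 2) (by linarith only [hDc]) hm hX
  obtain ⟨e1, e2, -⟩ := hthr n k
  -- the thresholds of the form
  have heps : (qq V n k).eps + (bud V).nn n k * cpd d ≤ 1 / 2 * s ^ kg V := by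
    have h4 : (qq V n k).eps ≤ 2 * s ^ (ka V / 2) := by
      show (V.cl k : ℝ) ^ (ka V / 2) * (2 - V.sg n ^ ka V) ≤ 2 * s ^ (ka V / 2)
      rw [hs]
      have h5 : 0 ≤ V.sg n ^ ka V := Real.rpow_nonneg (sg_pos hP n).le _
      have h6 : 0 ≤ (V.cl k : ℝ) ^ (ka V / 2) := Real.rpow_nonneg (cl_pos' hP k).le _
      calc (V.cl k : ℝ) ^ (ka V / 2) * (2 - V.sg n ^ ka V) ≤ (V.cl k : ℝ) ^ (ka V / 2) * 2 :=
            mul_le_mul_of_nonneg_left (by linarith only [h5]) h6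
        _ = _ := by ring
    have h5 : (bud V).nn n k * cpd d = cpd d * s ^ ka V := by
      show (V.cl k : ℝ) ^ ka V * cpd d = cpd d * s ^ ka V
      rw [hs]
      ring
    have h6 : 2 * s ^ (ka V / 2) ≤ 1 / 4 * s ^ (ka V / 4) := s2
    have h7 : cpd d * s ^ ka V ≤ 1 / 4 * s ^ (ka V / 4) := s3
    rw [h5]
    unfold kg
    linarith only [h4, h6, h7]
  refine ⟨J1, J2, ?_⟩
  refine
    { D₀ := ?_
      nn := Real.rpow_nonneg (cl_pos' hP k).le _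
      eps := ?_
      r2 := ?_
      e2 := ?_
      run := ?_
      yng := ?_
      old := ?_
      s1 := ?_
      s3 := ?_
      s2 := ?_ }
  · show 0 < c * (V.w : ℝ) ^ (8 * es - 1)
    rw [← hD]
    exact hD0
  · show 0 ≤ (V.cl k : ℝ) ^ (ka V / 2) * (2 - V.sg n ^ ka V)
    have h5 : V.sg n ^ ka V ≤ 1 :=
      Real.rpow_le_one (sg_pos hP n).le ((sg_le hP n).trans w1) hka.le
    exact mul_nonneg (Real.rpow_nonneg (cl_pos' hP k).le _) (by linarith only [hka, hkal, h5])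
  · show (qq V n k).rho + (bud V).nn n k * cpd d ≤ 1 / 2
    rw [mul_comm]
    exact e2
  · show (qq V n k).eps + (bud V).nn n k * cpd d ≤ 1 / 2
    rw [mul_comm]
    exact e1
  · -- running
    show (qq V n k).eps + (bud V).nn n k * cpd d + 2 * CS d * 4 ^ J2 /
      (c * (V.w : ℝ) ^ (8 * es - 1) / 2) * ((V.e₀ + V.cl k * (2 * C)) * (2 * C)) ≤
        (V.cl k : ℝ) ^ kg V
    rw [← hD, ← hs]
    have h4 := hwt s le_rfl hs0
    have h5 : 2 * CS d * 4 ^ J2 / (D / 2) * ((V.e₀ + s * (2 * C)) * (2 * C)) ≤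
        24 * CS d * C ^ 2 / c * s ^ (1 / 10 : ℝ) := by
      have h6 : 2 * CS d * 4 ^ J2 / (D / 2) ≤ 2 * (2 * CS d * 4 ^ J2) / c :=
        div2 (by positivity) hc hDc
      calc 2 * CS d * 4 ^ J2 / (D / 2) * ((V.e₀ + s * (2 * C)) * (2 * C)) ≤
          2 * (2 * CS d * 4 ^ J2) / c * (6 * C ^ 2 * s) := by
            refine mul_le_mul h6 h4 ?_ (by positivity)
            have := hG.e0
            positivity
        _ = 24 * CS d * C ^ 2 / c * (4 ^ J2 * s) := by ring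
        _ ≤ _ := mul_le_mul_of_nonneg_left (hlev s J2 hs0 j2) (by positivity)
    have h6 : 24 * CS d * C ^ 2 / c * s ^ (1 / 10 : ℝ) ≤ 1 / 2 * s ^ kg V := s4
    linarith only [heps, h5, h6]
  · -- young
    show 4 * CS d * 4 ^ J1 / (c * (V.w : ℝ) ^ (8 * es - 1) / 2) *
      ((V.e₀ + max (V.cl k : ℝ) (V.cl (V.kk (n - 1))) * (2 * C)) * (2 * C)) ≤ 1 / 2
    rw [← hD, ← hs, ← hy, max_eq_right hsy]
    have h4 := hwt y hsy hy0
    have h6 : 4 * CS d * 4 ^ J1 / (D / 2) ≤ 2 * (4 * CS d * 4 ^ J1) / c :=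
      div2 (by positivity) hc hDc
    calc 4 * CS d * 4 ^ J1 / (D / 2) * ((V.e₀ + y * (2 * C)) * (2 * C)) ≤
        2 * (4 * CS d * 4 ^ J1) / c * (6 * C ^ 2 * y) := by
          refine mul_le_mul h6 h4 ?_ (by positivity)
          have := hG.e0
          positivity
      _ = 48 * CS d * C ^ 2 / c * (4 ^ J1 * y) := by ring
      _ ≤ 48 * CS d * C ^ 2 / c * y ^ (1 / 10 : ℝ) :=
        mul_le_mul_of_nonneg_left (hlev y J1 hy0 j1) (by positivity)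
      _ ≤ 1 / 2 := y5
  · -- old
    show 4 * CS d * 4 ^ 0 / (c * (V.w : ℝ) ^ (8 * es - 1) / 2) *
      ((V.e₀ + max (V.cl k : ℝ) (V.cl 0) * (2 * C)) * (2 * C)) ≤ 1 / 2
    have hw0 : (V.cl 0 : ℝ) = V.w := by rw [cl_zero]
    rw [← hD, ← hs, hw0, max_eq_right hsw]
    obtain ⟨-, -, -, -, w5, -, -, -, -, -⟩ := hF V.w hw le_rfl
    rw [Real.rpow_zero, mul_one] at w5
    have h4 := hwt V.w hsw hw
    have h6 : 4 * CS d * 4 ^ 0 / (D / 2) ≤ 2 * (4 * CS d * 4 ^ 0) / c :=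
      div2 (by positivity) hc hDc
    have h7 : (V.w : ℝ) ≤ (V.w : ℝ) ^ (1 / 10 : ℝ) := by
      have := rpow_anti hw w1 (by norm_num : (1 / 10 : ℝ) ≤ 1)
      rwa [Real.rpow_one] at this
    calc 4 * CS d * 4 ^ 0 / (D / 2) * ((V.e₀ + V.w * (2 * C)) * (2 * C)) ≤
        2 * (4 * CS d * 4 ^ 0) / c * (6 * C ^ 2 * V.w) := by
          refine mul_le_mul h6 h4 ?_ (by positivity)
          have := hG.e0
          positivity
      _ = 48 * CS d * C ^ 2 / c * V.w := by ring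
      _ ≤ 48 * CS d * C ^ 2 / c * (V.w : ℝ) ^ (1 / 10 : ℝ) :=
        mul_le_mul_of_nonneg_left h7 (by positivity)
      _ ≤ 1 / 2 := w5
  · -- s1
    show S2 d (V.l n + 4) J1 (c * (V.w : ℝ) ^ (8 * es - 1) / 2) ((c / 2) ^ 2 * V.cl (k + 1) / 2) ≤
      (V.cl k : ℝ) ^ kg V * ((V.w : ℝ) ^ (1 / 50 : ℝ) * (V.cl k : ℝ) ^ (2 * ka V)) ^ 2
    rw [← hD, ← hs]
    refine g1.trans ?_
    have q0 : 0 < s ^ kg V := Real.rpow_pos_of_pos hs0 _
    have hR : s ^ kg V * ((V.w : ℝ) ^ (1 / 50 : ℝ) * s ^ (2 * ka V)) ^ 2 =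
        (V.w : ℝ) ^ (1 / 25 : ℝ) * s ^ (kg V + 4 * ka V) := by
      rw [mul_pow, ← Real.rpow_natCast, ← Real.rpow_natCast, ← Real.rpow_mul hw.le,
        ← Real.rpow_mul hs0.le, Real.rpow_add hs0]
      push_cast
      rw [show (1 / 50 : ℝ) * 2 = 1 / 25 by norm_num, show 2 * ka V * 2 = 4 * ka V by ring]
      ring
    rw [hR]
    have h5 : s ≤ (V.w : ℝ) ^ (1 / 25 : ℝ) * s ^ (kg V + 4 * ka V) := by
      have h6 : s ^ (1 / 25 : ℝ) ≤ (V.w : ℝ) ^ (1 / 25 : ℝ) :=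
        Real.rpow_le_rpow hs0.le hsw (by norm_num)
      have h7 : s ^ (1 : ℝ) ≤ s ^ (1 / 25 + (kg V + 4 * ka V)) :=
        rpow_anti hs0 hs1 (by unfold kg; linarith only [hka, hkal])
      rw [Real.rpow_one, Real.rpow_add hs0] at h7
      exact h7.trans (mul_le_mul_of_nonneg_right h6 (Real.rpow_nonneg hs0.le _))
    have h6 : 4 * CS d / (D / 2) * (1 / 2 : ℝ) ^ J1 ≤
        1 / 3 * ((V.w : ℝ) ^ (1 / 25 : ℝ) * s ^ (kg V + 4 * ka V)) := by
      have h7 : 4 * CS d / (D / 2) = 8 * CS d * (1 / D) := by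
        field_simp
        norm_num
      rw [h7, hDinv]
      have h8 : (1 / 2 : ℝ) ^ J1 ≤ 2 * s ^ (kg V + 4 * ka V) := by
        refine j1'.trans (mul_le_mul_of_nonneg_left (hyka.trans ?_) (by norm_num))
        exact rpow_anti hs0 hs1 (by unfold kg; linarith only [hka])
      have h9 : 48 * CS d / c * (V.w : ℝ) ^ (1 - 8 * es) ≤ (V.w : ℝ) ^ (1 / 25 : ℝ) := by
        rw [one_mul] at w6
        exact w6
      have h10 : 0 ≤ 8 * CS d * (1 / c * (V.w : ℝ) ^ (1 - 8 * es)) := by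
        have := Real.rpow_nonneg hw.le (1 - 8 * es)
        positivity
      calc 8 * CS d * (1 / c * (V.w : ℝ) ^ (1 - 8 * es)) * (1 / 2 : ℝ) ^ J1 ≤
          8 * CS d * (1 / c * (V.w : ℝ) ^ (1 - 8 * es)) * (2 * s ^ (kg V + 4 * ka V)) :=
            mul_le_mul_of_nonneg_left h8 h10
        _ = 1 / 3 * ((48 * CS d / c * (V.w : ℝ) ^ (1 - 8 * es)) * s ^ (kg V + 4 * ka V)) := by ring
        _ ≤ _ := mul_le_mul_of_nonneg_left
            (mul_le_mul_of_nonneg_right h9 (Real.rpow_nonneg hs0.le _)) (by norm_num)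
    linarith only [s7, s8, h5, h6]
  · -- s3
    show S2 d (V.l n + 4) 0 (c * (V.w : ℝ) ^ (8 * es - 1) / 2) ((c / 2) ^ 2 * V.cl (k + 1) / 2) ≤
      (V.cl k : ℝ) ^ (-1 : ℝ)
    rw [← hD, ← hs]
    refine g3.trans ?_
    have h5 : 4 * CS d / (D / 2) * (1 / 2 : ℝ) ^ 0 ≤ 8 * CS d / c := by
      rw [pow_zero, mul_one]
      refine (div2 (by positivity) hc hDc).trans (le_of_eq ?_)
      ring
    have h6 : s ≤ s ^ (-1 : ℝ) := by
      have := rpow_anti hs0 hs1 (by norm_num : (-1 : ℝ) ≤ 1)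
      rwa [Real.rpow_one] at this
    linarith only [s7, s8, s9, h5, h6]
  · -- s2
    show S0 d (V.l n + 4) J2 (c * (V.w : ℝ) ^ (8 * es - 1) / 2) ((c / 2) ^ 2 * V.cl (k + 1) / 2) ≤
      (V.cl k : ℝ) ^ (1 / 4 + kg V)
    rw [← hD, ← hs]
    refine g2.trans ?_
    have h5 : 2 * CS d / (D / 2) * (1 / 2 : ℝ) ^ J2 ≤ 8 * CS d / c * s ^ (9 / 20 : ℝ) := by
      have h6 : 2 * CS d / (D / 2) ≤ 2 * (2 * CS d) / c := div2 (by positivity) hc hDc
      calc 2 * CS d / (D / 2) * (1 / 2 : ℝ) ^ J2 ≤ 2 * (2 * CS d) / c * (2 * s ^ (9 / 20 : ℝ)) :=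
            mul_le_mul h6 j2' (by positivity) (by positivity)
        _ = _ := by ring
    have h6 : s ≤ s ^ (1 / 4 + kg V) := by
      have := rpow_anti hs0 hs1 (by unfold kg; linarith only [hka, hkal] : 1 / 4 + kg V ≤ 1)
      rwa [Real.rpow_one] at this
    have h7 : 8 * CS d / c * s ^ (9 / 20 : ℝ) ≤ 1 / 3 * s ^ (1 / 4 + kg V) := s10
    linarith only [s7, s8, h5, h6, h7]

end Pool.Agent.AHH.H67
end
end -- Pool.Agent.Helper67_AHH.FNz

section -- Pool.Agent.Helper90_AHH.IncNum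

/-!
# AHH: the numbers of the increments `Inc.ent`, `Inc.lar`, `Inc.yin`
-/

set_option autoImplicit false

open scoped BigOperators NNReal

noncomputable section

namespace Pool.Agent.AHH.H90

open Pool.Agent.BED (Tor)
open Pool.Agent.AND2B (Ev Fld)
open Pool.Agent.AND.Num
open Pool.Agent.AHH.H61
open Pool.Agent.ANR.H89 (cI)

/-- the constant of the alive distance is at most `sg n ^ (-3/2)` -/
theorem cI_num (d : ℕ) (a c C : ℝ) :
    Ev d a es c C fun V => ∀ n, n ≤ V.N + 1 →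
      cI d V.Dn (Finset.range n) ≤ V.sg n ^ (-(3 / 2) : ℝ) := by
  have h1 : Ev d a es c C fun V => ∀ s : ℝ, 0 < s → s ≤ V.w →
      s ≤ 1 ∧ 2 * 3 ^ d * s ^ (-(5 / 4) : ℝ) ≤ (1 - (V.th : ℝ) ^ (3 / 2 : ℝ)) * s ^ (-(3 / 2) : ℝ) := by
    refine ev_small (fun th _ _ _ _ s =>
      s ≤ 1 ∧ 2 * 3 ^ d * s ^ (-(5 / 4) : ℝ) ≤
        (1 - (th : ℝ) ^ (3 / 2 : ℝ)) * s ^ (-(3 / 2) : ℝ)) ?_
    intro th c₁ C₁ α J _ hth _ _
    have hth' : (th : ℝ) ^ (3 / 2 : ℝ) < 1 :=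
      Real.rpow_lt_one (NNReal.coe_nonneg _) (by exact_mod_cast hth) (by norm_num)
    exact (small_le 1 one_pos).and (small_pow' (2 * 3 ^ d) (1 - (th : ℝ) ^ (3 / 2 : ℝ)) _ _
      (by linarith only [hth']) (by norm_num))
  refine (ev_good.and h1).imp fun V hV => ?_
  obtain ⟨hG, hV⟩ := hV
  have hP : V.Pre a := hG.toPre
  have hw := w_pos hP
  intro n
  induction n with
  | zero =>
    intro _
    unfold cI
    rw [Finset.range_zero, Finset.sum_empty, mul_zero, add_zero]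
    exact Real.one_le_rpow_of_pos_of_le_one_of_nonpos (sg_pos hP 0)
      ((sg_le hP 0).trans (hV V.w hw le_rfl).1) (by norm_num)
  | succ n ih =>
    intro hn
    have ih' := ih (by omega)
    obtain ⟨g1, g2⟩ := hV (V.sg (n + 1)) (sg_pos hP _) (sg_le hP _)
    have e1 : cI d V.Dn (Finset.range (n + 1)) =
        cI d V.Dn (Finset.range n) + 2 * 3 ^ d * V.Dn n := by
      unfold cI
      rw [Finset.sum_range_succ]
      ring
    have h2 : (V.Dn n : ℝ) ≤ V.sg (n + 1) ^ (-(5 / 4) : ℝ) := hP.sc.dl n (by omega)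
    have hs := sg_pos hP (n + 1)
    have hth : (0 : ℝ) < V.th := by exact_mod_cast th_pos hP
    have h3 : V.sg n ^ (-(3 / 2) : ℝ) ≤
        (V.th : ℝ) ^ (3 / 2 : ℝ) * V.sg (n + 1) ^ (-(3 / 2) : ℝ) := by
      have h4 := sg_succ hP n
      have h5 : V.sg (n + 1) / V.th ≤ V.sg n := by
        rw [div_le_iff₀ hth]
        linarith only [h4]
      have h6 : V.sg n ^ (-(3 / 2) : ℝ) ≤ (V.sg (n + 1) / V.th) ^ (-(3 / 2) : ℝ) :=
        Real.rpow_le_rpow_of_nonpos (by positivity) h5 (by norm_num)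
      refine h6.trans (le_of_eq ?_)
      rw [Real.div_rpow hs.le hth.le, Real.rpow_neg hth.le, div_inv_eq_mul]
      ring
    rw [e1]
    have h7 : 2 * 3 ^ d * (V.Dn n : ℝ) ≤ 2 * 3 ^ d * V.sg (n + 1) ^ (-(5 / 4) : ℝ) :=
      mul_le_mul_of_nonneg_left h2 (by positivity)
    linarith only [ih', g2, h3, h7]

/-- the sum of the densities of the dead sites -/
theorem sum_num {d : ℕ} {a : ℝ} {V : AND2B.Env d} (hP : V.Pre a) {n : ℕ} (hn : n ≤ V.N + 2) :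
    ∑ i ∈ Finset.range n, (3 ^ d * V.Dn i : ℝ) / V.G.L i ≤ 1 / 4 := by
  refine le_trans (le_of_eq ?_) ((Finset.sum_le_sum_of_subset_of_nonneg
    (Finset.range_subset_range.2 hn) fun i _ _ => by positivity).trans hP.sc.ds)
  refine Finset.sum_congr rfl fun i _ => ?_
  have : ((V.G.L i : ℕ) : ℝ) = 2 ^ V.l i := by
    show (((2 ^ V.l i : ℕ)) : ℝ) = 2 ^ V.l i
    push_cast
    rfl
  rw [this]

/-- the sides of the blocks are large -/
theorem L_low {d : ℕ} {a : ℝ} {V : AND2B.Env d} (hP : V.Pre a) {n j : ℕ} (hn : n ≤ V.N)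
    (hj : j ≤ V.kk (n + 1)) : (V.cl j : ℝ) ^ (-5 : ℝ) ≤ (V.G.L n : ℝ) := by
  have h1 : (((V.G.L n : ℕ)) : ℝ) = 2 ^ V.l n := by
    show (((2 ^ V.l n : ℕ)) : ℝ) = 2 ^ V.l n
    push_cast
    rfl
  rw [h1]
  have h2 := hP.sc.llow n hn
  refine le_trans ?_ h2
  exact Real.rpow_le_rpow_of_nonpos (sg_pos hP _) (cl_anti' hP hj) (by norm_num)

/-- the hypotheses of helper67 -/
theorem eokZ (d : ℕ) (a c C : ℝ) (hc : 0 < c) (hc2 : c ≤ 1 / 2) (hC : 1 ≤ C) :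
    Ev d a es c C fun V => ∀ k, H67.EOk (toE V c C) k := by
  refine (ev_good.and (ev_th (1 / 3) (by norm_num))).imp fun V hV k => ?_
  obtain ⟨hG, hth3⟩ := hV
  have hP : V.Pre a := hG.toPre
  have hth1 : (V.th : ℝ) < 1 := by exact_mod_cast hP.th.2
  exact
    { th := ⟨by
        show 2 / 3 ≤ (V.th : ℝ)
        linarith only [hth3], hth1⟩
      c₀ := ⟨by
        show 0 < c / 2
        positivity, by
        show c / 2 ≤ 1
        linarith, by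
        show 1 ≤ 2 * C
        linarith only [hC, hth3, hth1]⟩
      cl := ⟨cl_pos' hP k, by
        show (V.cl (k + 1) : ℝ) = V.th * V.cl k
        rw [cl_succ V k]
        push_cast
        rfl⟩
      e₀ := hG.e0 }

/-- the geometry: the hypotheses of `upd_hf` -/
theorem geoN (d : ℕ) (a c C : ℝ) :
    Ev d a es c C fun V => ∀ n, n ≤ V.N →
      4 * (cI d V.Dn (Finset.range (n + 1)) + 1) ≤ V.G.L n ∧
      ∑ i ∈ Finset.range (n + 1), (3 ^ d * V.Dn i : ℝ) / V.G.L i ≤ 1 / 4 := by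
  have h1 : Ev d a es c C fun V => ∀ s : ℝ, 0 < s → s ≤ V.w →
      s ≤ 1 ∧ 8 * s ^ (-(3 / 2) : ℝ) ≤ s ^ (-5 : ℝ) :=
    ev_small (fun _ _ _ _ _ s => s ≤ 1 ∧ 8 * s ^ (-(3 / 2) : ℝ) ≤ s ^ (-5 : ℝ))
      fun _ _ _ _ _ _ _ _ _ => (small_le 1 one_pos).and (small_pow 8 _ _ (by norm_num))
  refine ((ev_good.and h1).and (cI_num d a c C)).imp fun V hV n hn => ?_
  obtain ⟨⟨hG, hV⟩, hcI⟩ := hV
  have hP : V.Pre a := hG.toPre
  obtain ⟨g1, g3⟩ := hV (V.sg (n + 1)) (sg_pos hP _) (sg_le hP _)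
  refine ⟨?_, sum_num hP (by omega)⟩
  have h2 := hcI (n + 1) (by omega)
  have h3 : 1 ≤ V.sg (n + 1) ^ (-(3 / 2) : ℝ) :=
    Real.one_le_rpow_of_pos_of_le_one_of_nonpos (sg_pos hP _) g1 (by norm_num)
  have h4 : V.sg (n + 1) ^ (-5 : ℝ) ≤ (V.G.L n : ℝ) := L_low hP hn (j := V.kk (n + 1)) le_rfl
  linarith only [g3, h2, h3, h4]

/-- THE NUMBERS OF THE INCREMENTS -/
theorem flowN (d : ℕ) (a c C : ℝ) (hd : 1 ≤ d) (hc : 0 < c) :
    Ev d a es c C fun V => ∀ n k, n ≤ V.N → V.kk n ≤ k → k < V.kk (n + 1) →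
      H58.FlowN (toE V c C) (bud V) n k (H17.parZ V c C n k) := by
  have hcp := one_le_cpd d
  have hd0 : (0 : ℝ) < d := by exact_mod_cast hd
  have h1 : Ev d a es c C fun V => ∀ s : ℝ, 0 < s → s ≤ V.w →
      (s ≤ 1 ∧ 1536 * d / c ≤ s ^ (-4 : ℝ)) ∧
      (8 / c * s ^ (-1 : ℝ) * Real.exp (-(c / (128 * d) * s ^ (-4 : ℝ))) ≤
        s ^ (1 / 8 - 1 / 200 : ℝ) ∧
      256 / c ^ 4 * (64 * cpd d / (1 - (V.th : ℝ))) * s ^ (-4 : ℝ) *
        Real.exp (-(c / (128 * d) * s ^ (-4 : ℝ))) ≤ s ^ (0 : ℝ) ∧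
      3200 / c ^ 2 * s ^ (-1 : ℝ) * Real.exp (-(c / (768 * d) * s ^ (-4 : ℝ))) ≤
        s ^ (1 / 16 - 1 / 100 : ℝ)) ∧
      (2 * s ^ (1 / 16 - 1 / 200 : ℝ) ≤ c / 2 * s ^ (1 / 16 - 1 / 100 : ℝ) ∧
      1 * s ^ (1 / 8 : ℝ) ≤ c / 8 * s ^ (0 : ℝ) ∧
      (cpd d + 8) * s ^ (1 / 8 - 1 / 200 : ℝ) ≤ c / 8 * s ^ (0 : ℝ)) := by
    refine ev_small (fun th _ _ _ _ s =>
      (s ≤ 1 ∧ 1536 * d / c ≤ s ^ (-4 : ℝ)) ∧
      (8 / c * s ^ (-1 : ℝ) * Real.exp (-(c / (128 * d) * s ^ (-4 : ℝ))) ≤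
        s ^ (1 / 8 - 1 / 200 : ℝ) ∧
      256 / c ^ 4 * (64 * cpd d / (1 - (th : ℝ))) * s ^ (-4 : ℝ) *
        Real.exp (-(c / (128 * d) * s ^ (-4 : ℝ))) ≤ s ^ (0 : ℝ) ∧
      3200 / c ^ 2 * s ^ (-1 : ℝ) * Real.exp (-(c / (768 * d) * s ^ (-4 : ℝ))) ≤
        s ^ (1 / 16 - 1 / 100 : ℝ)) ∧
      (2 * s ^ (1 / 16 - 1 / 200 : ℝ) ≤ c / 2 * s ^ (1 / 16 - 1 / 100 : ℝ) ∧
      1 * s ^ (1 / 8 : ℝ) ≤ c / 8 * s ^ (0 : ℝ) ∧
      (cpd d + 8) * s ^ (1 / 8 - 1 / 200 : ℝ) ≤ c / 8 * s ^ (0 : ℝ))) ?_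
    intro th c₁ C₁ α J _ _ _ _
    exact ((small_le 1 one_pos).and (small_const (1536 * d / c) 4 (by norm_num))).and
      (((small_exp_pow (8 / c) (c / (128 * d)) 4 1 _ (by positivity) (by norm_num)).and
      ((small_exp_pow _ (c / (128 * d)) 4 4 _ (by positivity) (by norm_num)).and
      (small_exp_pow _ (c / (768 * d)) 4 1 _ (by positivity) (by norm_num)))).and
      ((small_pow' 2 (c / 2) _ _ (by positivity) (by norm_num)).and
      ((small_pow' 1 (c / 8) _ _ (by positivity) (by norm_num)).and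
      (small_pow' (cpd d + 8) (c / 8) _ _ (by positivity) (by norm_num)))))
  refine ((ev_good.and h1).and (geoN d a c C)).imp fun V hV => ?_
  obtain ⟨⟨hG, hV⟩, hcI⟩ := hV
  have hP : V.Pre a := hG.toPre
  have hw := w_pos hP
  have hth1 : (V.th : ℝ) < 1 := by exact_mod_cast hP.th.2
  have hth0 : (0 : ℝ) < V.th := by exact_mod_cast th_pos hP
  intro n k hn hk hk'
  obtain ⟨⟨a1, a2⟩, ⟨a4, a5, a6⟩, _⟩ := hV (V.cl (k + 1)) (cl_pos' hP _) (cl_le' hP _)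
  obtain ⟨⟨b1, _⟩, _, ⟨b4, b5, b6⟩⟩ := hV (V.cl k) (cl_pos' hP _) (cl_le' hP _)
  rw [Real.rpow_zero] at a5 b5 b6
  have hL := L_low hP hn (j := k + 1) (by omega)
  have hs : (0 : ℝ) < V.cl (k + 1) := cl_pos' hP _
  have hs' : (0 : ℝ) < V.cl k := cl_pos' hP _
  have hcls : (V.cl (k + 1) : ℝ) = V.th * V.cl k := by
    rw [cl_succ V k]
    push_cast
    rfl
  have hcle : (V.cl (k + 1) : ℝ) ≤ V.cl k := cl_anti' hP (Nat.le_succ k)
  set s : ℝ := (V.cl (k + 1) : ℝ) with hsd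
  set L : ℝ := ((V.G.L n : ℕ) : ℝ) with hLd
  have hL0 : 0 < L := lt_of_lt_of_le (Real.rpow_pos_of_pos hs _) hL
  -- `β L ≥ c / (16 d) s⁻⁴`
  have hs4 : s * s ^ (-5 : ℝ) = s ^ (-4 : ℝ) := by
    nth_rewrite 1 [← Real.rpow_one s]
    rw [← Real.rpow_add hs]
    norm_num
  have hb : c / (16 * d) * s ^ (-4 : ℝ) ≤ c / 2 * s / (8 * d) * L := by
    have h2 : c / 2 * s / (8 * d) * s ^ (-5 : ℝ) = c / (16 * d) * s ^ (-4 : ℝ) := by
      rw [← hs4]
      field_simp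
      ring
    rw [← h2]
    exact mul_le_mul_of_nonneg_left hL (by positivity)
  have hexp : ∀ q : ℝ, 0 < q → Real.exp (-(c / 2 * s / (8 * d) * L / q)) ≤
      Real.exp (-(c / (16 * d * q) * s ^ (-4 : ℝ))) := by
    intro q hq
    rw [Real.exp_le_exp, neg_le_neg_iff]
    have h2 : c / (16 * d * q) * s ^ (-4 : ℝ) = c / (16 * d) * s ^ (-4 : ℝ) / q := by
      field_simp
    rw [h2]
    exact div_le_div_of_nonneg_right hb hq.le
  have hinv : s ^ (-1 : ℝ) = 1 / s := by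
    rw [Real.rpow_neg hs.le, Real.rpow_one, one_div]
  have hinv4 : s ^ (-4 : ℝ) = 1 / s ^ 4 := by
    have h4 : (-4 : ℝ) = -((4 : ℕ) : ℝ) := by norm_num
    rw [h4, Real.rpow_neg hs.le, Real.rpow_natCast, one_div]
  have hb6 : 96 ≤ c / 2 * s / (8 * d) * L := by
    refine le_trans ?_ hb
    have h2 : c / (16 * d) * (1536 * d / c) ≤ c / (16 * d) * s ^ (-4 : ℝ) :=
      mul_le_mul_of_nonneg_left a2 (by positivity)
    have h3 : c / (16 * d) * (1536 * d / c) = 96 := by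
      field_simp
      norm_num
    linarith only [h2, h3]
  have hlam : 1 / 4 ≤ (qq V n k).lam := by
    show 1 / 4 ≤ 1 / 4 * (V.cl k : ℝ) ^ (-(3 / 4) : ℝ) * (2 - V.sg n ^ (1 / 400 : ℝ))
    have h2 : 1 ≤ (V.cl k : ℝ) ^ (-(3 / 4) : ℝ) :=
      Real.one_le_rpow_of_pos_of_le_one_of_nonpos hs' b1 (by norm_num)
    have h3 : V.sg n ^ (1 / 400 : ℝ) ≤ 1 := Real.rpow_le_one (sg_pos hP n).le
      ((sg_le hP n).trans (hV V.w hw le_rfl).1.1) (by norm_num)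
    nlinarith only [hth1, hth0, h2, h3]
  refine
    { δ := le_rfl
      bL := hb6
      ent := ?_
      lar := ?_
      yin := ?_
      yfar := ?_
      mis := ?_
      hL := (hcI n hn).1
      hsum := (hcI n hn).2 }
  · show 4 / (c / 2 * s) * Real.exp (-(c / 2 * s / (8 * d) * L / 8)) ≤
      (V.cl k : ℝ) ^ (1 / 8 - 1 / 200 : ℝ)
    have h2 := hexp 8 (by norm_num)
    have h3 : (16 : ℝ) * d * 8 = 128 * d := by ring
    rw [h3] at h2
    have h4 : 4 / (c / 2 * s) = 8 / c * s ^ (-1 : ℝ) := by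
      rw [hinv]
      field_simp
      norm_num
    rw [h4]
    calc 8 / c * s ^ (-1 : ℝ) * Real.exp (-(c / 2 * s / (8 * d) * L / 8))
        ≤ 8 / c * s ^ (-1 : ℝ) * Real.exp (-(c / (128 * d) * s ^ (-4 : ℝ))) := by
          refine mul_le_mul_of_nonneg_left h2 ?_
          have : 0 < s ^ (-1 : ℝ) := Real.rpow_pos_of_pos hs _
          positivity
      _ ≤ s ^ (1 / 8 - 1 / 200 : ℝ) := a4
      _ ≤ _ := Real.rpow_le_rpow hs.le hcle (by norm_num)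
  · show (1 - (V.th : ℝ)) / (64 * cpd d) * (4 * (qq V n k).lam) +
      16 / (c / 2 * s) ^ 4 * Real.exp (-(c / 2 * s / (8 * d) * L / 8)) ≤
      (qq V n k).lam * ((1 - (V.th : ℝ)) / (8 * cpd d))
    have h2 := hexp 8 (by norm_num)
    have h3 : (16 : ℝ) * d * 8 = 128 * d := by ring
    rw [h3] at h2
    have h1th : 0 < 1 - (V.th : ℝ) := by linarith only [hth1]
    have hcp0 : 0 < cpd d := by linarith only [hcp, hth1, hth0]
    have h4 : 16 / (c / 2 * s) ^ 4 = 256 / c ^ 4 * s ^ (-4 : ℝ) := by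
      rw [hinv4]
      field_simp
      norm_num
    have h5 : 256 / c ^ 4 * s ^ (-4 : ℝ) * Real.exp (-(c / 2 * s / (8 * d) * L / 8)) ≤
        (1 - (V.th : ℝ)) / (64 * cpd d) := by
      have h6 : 0 < s ^ (-4 : ℝ) := Real.rpow_pos_of_pos hs _
      have h7 : 256 / c ^ 4 * s ^ (-4 : ℝ) * Real.exp (-(c / 2 * s / (8 * d) * L / 8)) ≤
          256 / c ^ 4 * s ^ (-4 : ℝ) * Real.exp (-(c / (128 * d) * s ^ (-4 : ℝ))) :=
        mul_le_mul_of_nonneg_left h2 (by positivity)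
      refine h7.trans ?_
      have h8 : 256 / c ^ 4 * (64 * cpd d / (1 - (V.th : ℝ))) * s ^ (-4 : ℝ) *
          Real.exp (-(c / (128 * d) * s ^ (-4 : ℝ))) =
          (64 * cpd d / (1 - (V.th : ℝ))) * (256 / c ^ 4 * s ^ (-4 : ℝ) *
            Real.exp (-(c / (128 * d) * s ^ (-4 : ℝ)))) := by ring
      rw [h8, div_mul_eq_mul_div, div_le_iff₀ h1th, one_mul] at a5
      rw [le_div_iff₀ (by positivity)]
      linarith only [a5]
    have h9 : (1 - (V.th : ℝ)) / (64 * cpd d) ≤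
        (qq V n k).lam * ((1 - (V.th : ℝ)) / (16 * cpd d)) := by
      have h10 : (1 - (V.th : ℝ)) / (64 * cpd d) = 1 / 4 * ((1 - (V.th : ℝ)) / (16 * cpd d)) := by
        field_simp
        norm_num
      rw [h10]
      exact mul_le_mul_of_nonneg_right hlam (by positivity)
    have h11 : (1 - (V.th : ℝ)) / (64 * cpd d) * (4 * (qq V n k).lam) =
        (qq V n k).lam * ((1 - (V.th : ℝ)) / (16 * cpd d)) := by
      field_simp
      norm_num
    have h12 : (qq V n k).lam * ((1 - (V.th : ℝ)) / (8 * cpd d)) =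
        2 * ((qq V n k).lam * ((1 - (V.th : ℝ)) / (16 * cpd d))) := by
      field_simp
      norm_num
    rw [h4, h11, h12]
    linarith only [h5, h9]
  · show 2 * (V.cl k : ℝ) ^ (1 / 16 - 1 / 200 : ℝ) ≤
      (V.cl k : ℝ) ^ (1 / 16 - 1 / 100 : ℝ) * (c / 2)
    linarith only [b4]
  · show 800 / (c / 2 * (c / 2 * s)) * Real.exp (-(c / 2 * s / (8 * d) / 6 * L / 8)) ≤
      (V.cl k : ℝ) ^ (1 / 16 - 1 / 100 : ℝ)
    have h2 := hexp 48 (by norm_num)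
    have h3 : (16 : ℝ) * d * 48 = 768 * d := by ring
    have h5 : c / 2 * s / (8 * d) / 6 * L / 8 = c / 2 * s / (8 * d) * L / 48 := by ring
    rw [h3] at h2
    have h4 : 800 / (c / 2 * (c / 2 * s)) = 3200 / c ^ 2 * s ^ (-1 : ℝ) := by
      rw [hinv]
      field_simp
      norm_num
    rw [h4, h5]
    calc 3200 / c ^ 2 * s ^ (-1 : ℝ) * Real.exp (-(c / 2 * s / (8 * d) * L / 48))
        ≤ 3200 / c ^ 2 * s ^ (-1 : ℝ) * Real.exp (-(c / (768 * d) * s ^ (-4 : ℝ))) := by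
          refine mul_le_mul_of_nonneg_left h2 ?_
          have : 0 < s ^ (-1 : ℝ) := Real.rpow_pos_of_pos hs _
          positivity
      _ ≤ s ^ (1 / 16 - 1 / 100 : ℝ) := a6
      _ ≤ _ := Real.rpow_le_rpow hs.le hcle (by norm_num)
  · show (V.cl k : ℝ) ^ (1 / 8 : ℝ) + (V.cl k : ℝ) ^ (1 / 8 - 1 / 200 : ℝ) * cpd d ≤ c / 2 / 2
    have h2 : 0 ≤ (V.cl k : ℝ) ^ (1 / 8 - 1 / 200 : ℝ) := Real.rpow_nonneg hs'.le _
    linarith only [b5, b6, h2]

/-- the change of `Λ` is nonnegative -/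
theorem omL (d : ℕ) (a c C : ℝ) :
    Ev d a es c C fun V => ∀ n k, 0 ≤ (H17.parZ V c C n k).ω * (H17.parZ V c C n k).L := by
  have hcp := one_le_cpd d
  have h1 : Ev d a es c C fun V => ∀ s : ℝ, 0 < s → s ≤ V.w → s ≤ 1 :=
    ev_small (fun _ _ _ _ _ s => s ≤ 1) fun _ _ _ _ _ _ _ _ _ => small_le 1 one_pos
  refine (ev_good.and h1).imp fun V hV n k => ?_
  obtain ⟨hG, hV⟩ := hV
  have hP : V.Pre a := hG.toPre
  have hth1 : (V.th : ℝ) < 1 := by exact_mod_cast hP.th.2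
  show 0 ≤ (1 - (V.th : ℝ)) / (64 * cpd d) *
    (4 * (1 / 4 * (V.cl k : ℝ) ^ (-(3 / 4) : ℝ) * (2 - V.sg n ^ (1 / 400 : ℝ))))
  have h2 : 0 ≤ (1 - (V.th : ℝ)) / (64 * cpd d) := div_nonneg (by linarith) (by linarith)
  have h3 : V.sg n ^ (1 / 400 : ℝ) ≤ 1 := Real.rpow_le_one (sg_pos hP n).le
    ((sg_le hP n).trans (hV V.w (w_pos hP) le_rfl)) (by norm_num)
  have h4 : 0 ≤ (V.cl k : ℝ) ^ (-(3 / 4) : ℝ) := Real.rpow_nonneg (cl_pos' hP k).le _
  have h5 : 0 ≤ 1 / 4 * (V.cl k : ℝ) ^ (-(3 / 4) : ℝ) * (2 - V.sg n ^ (1 / 400 : ℝ)) :=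
    mul_nonneg (by positivity) (by linarith only [h3])
  exact mul_nonneg h2 (by linarith only [h5])

end Pool.Agent.AHH.H90
end
end -- Pool.Agent.Helper90_AHH.IncNum

section -- Pool.Agent.Helper22_QDU.H67FNz
/-!
# AND2B: the numbers of the form for the concrete budget (helper67)
-/

set_option autoImplicit false

open scoped BigOperators NNReal

noncomputable section

namespace Pool.Agent.QDU.H67

open Pool.Agent.AHH hiding BegF FinF FloF IniF KilF MmonF OutF RbegF RfinF RmonF ana0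
open Pool.Agent.AHH.H67 hiding fnum

open Pool.Agent.BED (Tor)

open Pool.Agent.AND.Num
open Pool.Agent.AHH.H61 hiding budOk ev_be ev_c1 ev_e0 ev_good ev_small ev_small_be ev_th ev_thr nm
open Pool.Agent.QDU.H61

open Pool.Agent.AHH.H17 (parZ kg)
open Pool.Agent.NAS (CS)
open Pool.Agent.MAJ (S0 S2)

section

variable {d : ℕ} {V : AND2B.Env d} {a : ℝ}

end

/-- THE NUMBERS OF THE FORM -/
theorem fnum (d : ℕ) (a c C : ℝ) (hd : 3 ≤ d) (hc : 0 < c) (hC : 1 ≤ C) :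
    Ev2 d a es c C fun V => ∀ n k, n ≤ V.N → V.kk n ≤ k → k < V.kk (n + 1) →
      ∃ J1 J2 : ℕ, FNum (toE V c C) (bud V) n k (V.l n + 4) J1 J2 (parZ V c C n k) := by
  have hCS : 0 < CS d := MAJ.CS_pos hd
  have h1 : Ev2 d a es c C fun V => ∀ s : ℝ, 0 < s → s ≤ V.w → FP (CS d) (cpd d) c C V.α s :=
    ev_small (fun _ _ α _ s => FP (CS d) (cpd d) c C α s)
      fun _ _ _ α _ _ _ _ hα => fp_small _ _ _ _ α hα
  have h2 := ev_thr d a c C (cpd d) (1 / 2) (by norm_num)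
  have h3 : Ev2 d a es c C fun V => V.e₀ ≤ V.sg (V.N + 1) :=
    ev_e0 (fun V => V.sg (V.N + 1)) (fun V hV => sg_pos hV _) (fun V _ _ _ => rfl)
  refine (((h1.and h2).and h3).and ev_good).imp fun V hV n k hn hk1 hk2 => ?_
  obtain ⟨⟨⟨hF, hthr⟩, he⟩, hG⟩ := hV
  have hP : V.Pre a := hG.toPre
  have hw := w_pos hP
  have hka : 0 < ka V := ka_pos
  have hkal := ka_le hP
  obtain ⟨w1, _, _, _, _, w6, _, _, _, _⟩ := hF V.w hw le_rfl
  -- the clock of the stage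
  obtain ⟨s, hs⟩ : ∃ s : ℝ, s = V.cl k := ⟨_, rfl⟩
  have hs0 : 0 < s := by rw [hs]; exact cl_pos' hP k
  have hsw : s ≤ V.w := by rw [hs]; exact cl_le' hP k
  have hs1 : s ≤ 1 := hsw.trans w1
  obtain ⟨-, s2, s3, s4, -, -, s7, s8, s9, s10⟩ := hF s hs0 hsw
  have r14 : s ^ (14 : ℝ) = s ^ 14 := by exact_mod_cast Real.rpow_natCast s 14
  have r5 : s ^ (5 : ℝ) = s ^ 5 := by exact_mod_cast Real.rpow_natCast s 5
  rw [r14, Real.rpow_one] at s7
  rw [r5, Real.rpow_one] at s8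
  rw [Real.rpow_zero, mul_one] at s9
  -- the young clock
  obtain ⟨y, hy⟩ : ∃ y : ℝ, y = V.cl (V.kk (n - 1)) := ⟨_, rfl⟩
  have hy0 : 0 < y := by rw [hy]; exact cl_pos' hP _
  have hyw : y ≤ V.w := by rw [hy]; exact cl_le' hP _
  have hy1 : y ≤ 1 := hyw.trans w1
  have hsy : s ≤ y := by
    rw [hs, hy]
    exact cl_anti' hP ((kk_mono hP (Nat.sub_le n 1)).trans hk1)
  obtain ⟨-, -, -, -, y5, -, -, -, -, -⟩ := hF y hy0 hyw
  rw [Real.rpow_zero, mul_one] at y5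
  have hyka : y ^ (9 / 20 : ℝ) ≤ s ^ (450 * ka V) := by
    rw [hs, hy]
    exact young_rpow hP w1 hn hk2
  -- floor
  have hes : V.e₀ ≤ s := by
    rw [hs]
    exact he.trans (sg_last hP (hk2.le.trans (kk_mono hP (by omega))))
  -- levels
  obtain ⟨J1, j1, j1'⟩ := exJ hy0 hy1
  obtain ⟨J2, j2, j2'⟩ := exJ hs0 hs1
  -- weights
  have hwt : ∀ x : ℝ, s ≤ x → 0 < x → (V.e₀ + x * (2 * C)) * (2 * C) ≤ 6 * C ^ 2 * x := by
    intro x hx hx0
    have h3 : 1 * x ≤ C * x := mul_le_mul_of_nonneg_right hC hx0.le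
    have h4 : V.e₀ + x * (2 * C) ≤ 3 * C * x := by linarith only [hes, hx, h3]
    calc (V.e₀ + x * (2 * C)) * (2 * C) ≤ 3 * C * x * (2 * C) :=
          mul_le_mul_of_nonneg_right h4 (by linarith only [hC, hka, hkal])
      _ = 6 * C ^ 2 * x := by ring
  -- the bond weight
  obtain ⟨D, hD⟩ : ∃ D : ℝ, D = c * (V.w : ℝ) ^ (8 * es - 1) := ⟨_, rfl⟩
  have hwe : 1 ≤ (V.w : ℝ) ^ (8 * es - 1) :=
    Real.one_le_rpow_of_pos_of_le_one_of_nonpos hw w1 (by unfold es; norm_num)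
  have hDc : c ≤ D := by rw [hD]; exact le_mul_of_one_le_right hc.le hwe
  have hD0 : 0 < D := by linarith only [hc, hDc]
  have hDinv : 1 / D = 1 / c * (V.w : ℝ) ^ (1 - 8 * es) := by
    rw [hD]
    have h4 : (V.w : ℝ) ^ (8 * es - 1) * (V.w : ℝ) ^ (1 - 8 * es) = 1 := by
      rw [← Real.rpow_add hw]
      have : 8 * es - 1 + (1 - 8 * es) = 0 := by ring
      rw [this, Real.rpow_zero]
    have hne : (V.w : ℝ) ^ (8 * es - 1) ≠ 0 := (Real.rpow_pos_of_pos hw _).ne'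
    field_simp
    linarith only [h4]
  have hlev : ∀ (x : ℝ) (J : ℕ), 0 < x → (4 : ℝ) ^ J ≤ x ^ (-(9 / 10) : ℝ) →
      (4 : ℝ) ^ J * x ≤ x ^ (1 / 10 : ℝ) := by
    intro x J hx hJ
    have h4 : x ^ (1 / 10 : ℝ) = x ^ (-(9 / 10) : ℝ) * x := by
      have : (1 / 10 : ℝ) = -(9 / 10) + 1 := by norm_num
      rw [this, Real.rpow_add hx, Real.rpow_one]
    rw [h4]
    exact mul_le_mul_of_nonneg_right hJ hx.le
  -- the cube
  have hX : s ^ (-(5 : ℝ)) ≤ (2 : ℝ) ^ (V.l n + 4) := by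
    have h4 : V.sg (n + 1) ^ (-(5 : ℝ)) ≤ 2 ^ V.l n := hP.sc.llow n hn
    have h5 : s ^ (-(5 : ℝ)) ≤ V.sg (n + 1) ^ (-(5 : ℝ)) :=
      Real.rpow_le_rpow_of_nonpos (sg_pos hP _) (by rw [hs]; exact cl_anti' hP hk2.le)
        (by norm_num)
    refine h5.trans (h4.trans ?_)
    exact pow_le_pow_right₀ (by norm_num) (by omega)
  have hm : c ^ 2 / 16 * s ≤ (c / 2) ^ 2 * V.cl (k + 1) / 2 := by
    have h4 : (V.cl (k + 1) : ℝ) = V.th * V.cl k := by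
      rw [cl_succ]
      push_cast
      rfl
    have h5 : (1 / 2 : ℝ) ≤ V.th := by exact_mod_cast hP.th.1
    rw [h4, ← hs]
    have h6 : 1 / 2 * s ≤ V.th * s := mul_le_mul_of_nonneg_right h5 hs0.le
    have h7 : 0 ≤ c ^ 2 / 8 := by positivity
    have h8 := mul_le_mul_of_nonneg_left h6 h7
    calc c ^ 2 / 16 * s = c ^ 2 / 8 * (1 / 2 * s) := by ring
      _ ≤ c ^ 2 / 8 * (V.th * s) := h8
      _ = _ := by ring
  obtain ⟨g1, -⟩ := S2_le (J := J1) hd hc hs0 (by linarith only [hc, hDc] : 0 < D / 2) (by linarith only [hDc]) hm hX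
  obtain ⟨g3, -⟩ := S2_le (J := 0) hd hc hs0 (by linarith only [hc, hDc] : 0 < D / 2) (by linarith only [hDc]) hm hX
  obtain ⟨-, g2⟩ := S2_le (J := J2) hd hc hs0 (by linarith only [hc, hDc] : 0 < D / 2) (by linarith only [hDc]) hm hX
  obtain ⟨e1, e2, -⟩ := hthr n k
  -- the thresholds of the form
  have heps : (qq V n k).eps + (bud V).nn n k * cpd d ≤ 1 / 2 * s ^ kg V := by
    have h4 : (qq V n k).eps ≤ 2 * s ^ (ka V / 2) := by
      show (V.cl k : ℝ) ^ (ka V / 2) * (2 - V.sg n ^ ka V) ≤ 2 * s ^ (ka V / 2)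
      rw [hs]
      have h5 : 0 ≤ V.sg n ^ ka V := Real.rpow_nonneg (sg_pos hP n).le _
      have h6 : 0 ≤ (V.cl k : ℝ) ^ (ka V / 2) := Real.rpow_nonneg (cl_pos' hP k).le _
      calc (V.cl k : ℝ) ^ (ka V / 2) * (2 - V.sg n ^ ka V) ≤ (V.cl k : ℝ) ^ (ka V / 2) * 2 :=
            mul_le_mul_of_nonneg_left (by linarith only [h5]) h6
        _ = _ := by ring
    have h5 : (bud V).nn n k * cpd d = cpd d * s ^ ka V := by
      show (V.cl k : ℝ) ^ ka V * cpd d = cpd d * s ^ ka V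
      rw [hs]
      ring
    have h6 : 2 * s ^ (ka V / 2) ≤ 1 / 4 * s ^ (ka V / 4) := s2
    have h7 : cpd d * s ^ ka V ≤ 1 / 4 * s ^ (ka V / 4) := s3
    rw [h5]
    unfold kg
    linarith only [h4, h6, h7]
  refine ⟨J1, J2, ?_⟩
  refine
    { D₀ := ?_
      nn := Real.rpow_nonneg (cl_pos' hP k).le _
      eps := ?_
      r2 := ?_
      e2 := ?_
      run := ?_
      yng := ?_
      old := ?_
      s1 := ?_
      s3 := ?_
      s2 := ?_ }
  · show 0 < c * (V.w : ℝ) ^ (8 * es - 1)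
    rw [← hD]
    exact hD0
  · show 0 ≤ (V.cl k : ℝ) ^ (ka V / 2) * (2 - V.sg n ^ ka V)
    have h5 : V.sg n ^ ka V ≤ 1 :=
      Real.rpow_le_one (sg_pos hP n).le ((sg_le hP n).trans w1) hka.le
    exact mul_nonneg (Real.rpow_nonneg (cl_pos' hP k).le _) (by linarith only [hka, hkal, h5])
  · show (qq V n k).rho + (bud V).nn n k * cpd d ≤ 1 / 2
    rw [mul_comm]
    exact e2
  · show (qq V n k).eps + (bud V).nn n k * cpd d ≤ 1 / 2
    rw [mul_comm]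
    exact e1
  · -- running
    show (qq V n k).eps + (bud V).nn n k * cpd d + 2 * CS d * 4 ^ J2 /
      (c * (V.w : ℝ) ^ (8 * es - 1) / 2) * ((V.e₀ + V.cl k * (2 * C)) * (2 * C)) ≤
        (V.cl k : ℝ) ^ kg V
    rw [← hD, ← hs]
    have h4 := hwt s le_rfl hs0
    have h5 : 2 * CS d * 4 ^ J2 / (D / 2) * ((V.e₀ + s * (2 * C)) * (2 * C)) ≤
        24 * CS d * C ^ 2 / c * s ^ (1 / 10 : ℝ) := by
      have h6 : 2 * CS d * 4 ^ J2 / (D / 2) ≤ 2 * (2 * CS d * 4 ^ J2) / c :=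
        div2 (by positivity) hc hDc
      calc 2 * CS d * 4 ^ J2 / (D / 2) * ((V.e₀ + s * (2 * C)) * (2 * C)) ≤
          2 * (2 * CS d * 4 ^ J2) / c * (6 * C ^ 2 * s) := by
            refine mul_le_mul h6 h4 ?_ (by positivity)
            have := hG.e0
            positivity
        _ = 24 * CS d * C ^ 2 / c * (4 ^ J2 * s) := by ring
        _ ≤ _ := mul_le_mul_of_nonneg_left (hlev s J2 hs0 j2) (by positivity)
    have h6 : 24 * CS d * C ^ 2 / c * s ^ (1 / 10 : ℝ) ≤ 1 / 2 * s ^ kg V := s4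
    linarith only [heps, h5, h6]
  · -- young
    show 4 * CS d * 4 ^ J1 / (c * (V.w : ℝ) ^ (8 * es - 1) / 2) *
      ((V.e₀ + max (V.cl k : ℝ) (V.cl (V.kk (n - 1))) * (2 * C)) * (2 * C)) ≤ 1 / 2
    rw [← hD, ← hs, ← hy, max_eq_right hsy]
    have h4 := hwt y hsy hy0
    have h6 : 4 * CS d * 4 ^ J1 / (D / 2) ≤ 2 * (4 * CS d * 4 ^ J1) / c :=
      div2 (by positivity) hc hDc
    calc 4 * CS d * 4 ^ J1 / (D / 2) * ((V.e₀ + y * (2 * C)) * (2 * C)) ≤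
        2 * (4 * CS d * 4 ^ J1) / c * (6 * C ^ 2 * y) := by
          refine mul_le_mul h6 h4 ?_ (by positivity)
          have := hG.e0
          positivity
      _ = 48 * CS d * C ^ 2 / c * (4 ^ J1 * y) := by ring
      _ ≤ 48 * CS d * C ^ 2 / c * y ^ (1 / 10 : ℝ) :=
        mul_le_mul_of_nonneg_left (hlev y J1 hy0 j1) (by positivity)
      _ ≤ 1 / 2 := y5
  · -- old
    show 4 * CS d * 4 ^ 0 / (c * (V.w : ℝ) ^ (8 * es - 1) / 2) *
      ((V.e₀ + max (V.cl k : ℝ) (V.cl 0) * (2 * C)) * (2 * C)) ≤ 1 / 2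
    have hw0 : (V.cl 0 : ℝ) = V.w := by rw [cl_zero]
    rw [← hD, ← hs, hw0, max_eq_right hsw]
    obtain ⟨-, -, -, -, w5, -, -, -, -, -⟩ := hF V.w hw le_rfl
    rw [Real.rpow_zero, mul_one] at w5
    have h4 := hwt V.w hsw hw
    have h6 : 4 * CS d * 4 ^ 0 / (D / 2) ≤ 2 * (4 * CS d * 4 ^ 0) / c :=
      div2 (by positivity) hc hDc
    have h7 : (V.w : ℝ) ≤ (V.w : ℝ) ^ (1 / 10 : ℝ) := by
      have := rpow_anti hw w1 (by norm_num : (1 / 10 : ℝ) ≤ 1)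
      rwa [Real.rpow_one] at this
    calc 4 * CS d * 4 ^ 0 / (D / 2) * ((V.e₀ + V.w * (2 * C)) * (2 * C)) ≤
        2 * (4 * CS d * 4 ^ 0) / c * (6 * C ^ 2 * V.w) := by
          refine mul_le_mul h6 h4 ?_ (by positivity)
          have := hG.e0
          positivity
      _ = 48 * CS d * C ^ 2 / c * V.w := by ring
      _ ≤ 48 * CS d * C ^ 2 / c * (V.w : ℝ) ^ (1 / 10 : ℝ) :=
        mul_le_mul_of_nonneg_left h7 (by positivity)
      _ ≤ 1 / 2 := w5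
  · -- s1
    show S2 d (V.l n + 4) J1 (c * (V.w : ℝ) ^ (8 * es - 1) / 2) ((c / 2) ^ 2 * V.cl (k + 1) / 2) ≤
      (V.cl k : ℝ) ^ kg V * ((V.w : ℝ) ^ (1 / 50 : ℝ) * (V.cl k : ℝ) ^ (2 * ka V)) ^ 2
    rw [← hD, ← hs]
    refine g1.trans ?_
    have q0 : 0 < s ^ kg V := Real.rpow_pos_of_pos hs0 _
    have hR : s ^ kg V * ((V.w : ℝ) ^ (1 / 50 : ℝ) * s ^ (2 * ka V)) ^ 2 =
        (V.w : ℝ) ^ (1 / 25 : ℝ) * s ^ (kg V + 4 * ka V) := by
      rw [mul_pow, ← Real.rpow_natCast, ← Real.rpow_natCast, ← Real.rpow_mul hw.le,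
        ← Real.rpow_mul hs0.le, Real.rpow_add hs0]
      push_cast
      rw [show (1 / 50 : ℝ) * 2 = 1 / 25 by norm_num, show 2 * ka V * 2 = 4 * ka V by ring]
      ring
    rw [hR]
    have h5 : s ≤ (V.w : ℝ) ^ (1 / 25 : ℝ) * s ^ (kg V + 4 * ka V) := by
      have h6 : s ^ (1 / 25 : ℝ) ≤ (V.w : ℝ) ^ (1 / 25 : ℝ) :=
        Real.rpow_le_rpow hs0.le hsw (by norm_num)
      have h7 : s ^ (1 : ℝ) ≤ s ^ (1 / 25 + (kg V + 4 * ka V)) :=
        rpow_anti hs0 hs1 (by unfold kg; linarith only [hka, hkal])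
      rw [Real.rpow_one, Real.rpow_add hs0] at h7
      exact h7.trans (mul_le_mul_of_nonneg_right h6 (Real.rpow_nonneg hs0.le _))
    have h6 : 4 * CS d / (D / 2) * (1 / 2 : ℝ) ^ J1 ≤
        1 / 3 * ((V.w : ℝ) ^ (1 / 25 : ℝ) * s ^ (kg V + 4 * ka V)) := by
      have h7 : 4 * CS d / (D / 2) = 8 * CS d * (1 / D) := by
        field_simp
        norm_num
      rw [h7, hDinv]
      have h8 : (1 / 2 : ℝ) ^ J1 ≤ 2 * s ^ (kg V + 4 * ka V) := by
        refine j1'.trans (mul_le_mul_of_nonneg_left (hyka.trans ?_) (by norm_num))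
        exact rpow_anti hs0 hs1 (by unfold kg; linarith only [hka])
      have h9 : 48 * CS d / c * (V.w : ℝ) ^ (1 - 8 * es) ≤ (V.w : ℝ) ^ (1 / 25 : ℝ) := by
        rw [one_mul] at w6
        exact w6
      have h10 : 0 ≤ 8 * CS d * (1 / c * (V.w : ℝ) ^ (1 - 8 * es)) := by
        have := Real.rpow_nonneg hw.le (1 - 8 * es)
        positivity
      calc 8 * CS d * (1 / c * (V.w : ℝ) ^ (1 - 8 * es)) * (1 / 2 : ℝ) ^ J1 ≤
          8 * CS d * (1 / c * (V.w : ℝ) ^ (1 - 8 * es)) * (2 * s ^ (kg V + 4 * ka V)) :=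
            mul_le_mul_of_nonneg_left h8 h10
        _ = 1 / 3 * ((48 * CS d / c * (V.w : ℝ) ^ (1 - 8 * es)) * s ^ (kg V + 4 * ka V)) := by ring
        _ ≤ _ := mul_le_mul_of_nonneg_left
            (mul_le_mul_of_nonneg_right h9 (Real.rpow_nonneg hs0.le _)) (by norm_num)
    linarith only [s7, s8, h5, h6]
  · -- s3
    show S2 d (V.l n + 4) 0 (c * (V.w : ℝ) ^ (8 * es - 1) / 2) ((c / 2) ^ 2 * V.cl (k + 1) / 2) ≤
      (V.cl k : ℝ) ^ (-1 : ℝ)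
    rw [← hD, ← hs]
    refine g3.trans ?_
    have h5 : 4 * CS d / (D / 2) * (1 / 2 : ℝ) ^ 0 ≤ 8 * CS d / c := by
      rw [pow_zero, mul_one]
      refine (div2 (by positivity) hc hDc).trans (le_of_eq ?_)
      ring
    have h6 : s ≤ s ^ (-1 : ℝ) := by
      have := rpow_anti hs0 hs1 (by norm_num : (-1 : ℝ) ≤ 1)
      rwa [Real.rpow_one] at this
    linarith only [s7, s8, s9, h5, h6]
  · -- s2
    show S0 d (V.l n + 4) J2 (c * (V.w : ℝ) ^ (8 * es - 1) / 2) ((c / 2) ^ 2 * V.cl (k + 1) / 2) ≤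
      (V.cl k : ℝ) ^ (1 / 4 + kg V)
    rw [← hD, ← hs]
    refine g2.trans ?_
    have h5 : 2 * CS d / (D / 2) * (1 / 2 : ℝ) ^ J2 ≤ 8 * CS d / c * s ^ (9 / 20 : ℝ) := by
      have h6 : 2 * CS d / (D / 2) ≤ 2 * (2 * CS d) / c := div2 (by positivity) hc hDc
      calc 2 * CS d / (D / 2) * (1 / 2 : ℝ) ^ J2 ≤ 2 * (2 * CS d) / c * (2 * s ^ (9 / 20 : ℝ)) :=
            mul_le_mul h6 j2' (by positivity) (by positivity)
        _ = _ := by ring
    have h6 : s ≤ s ^ (1 / 4 + kg V) := by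
      have := rpow_anti hs0 hs1 (by unfold kg; linarith only [hka, hkal] : 1 / 4 + kg V ≤ 1)
      rwa [Real.rpow_one] at this
    have h7 : 8 * CS d / c * s ^ (9 / 20 : ℝ) ≤ 1 / 3 * s ^ (1 / 4 + kg V) := s10
    linarith only [s7, s8, h5, h6, h7]

end Pool.Agent.QDU.H67
end
end -- Pool.Agent.Helper22_QDU.H67FNz

section -- Pool.Agent.Helper22_QDU.H90IncNum
/-!
# AHH: the numbers of the increments `Inc.ent`, `Inc.lar`, `Inc.yin`
-/

set_option autoImplicit false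

open scoped BigOperators NNReal

noncomputable section

namespace Pool.Agent.QDU.H90

open Pool.Agent.AHH hiding BegF FinF FloF IniF KilF MmonF OutF RbegF RfinF RmonF ana0
open Pool.Agent.AHH.H90 hiding cI_num eokZ flowN geoN omL

open Pool.Agent.BED (Tor)

open Pool.Agent.AND.Num
open Pool.Agent.AHH.H61 hiding budOk ev_be ev_c1 ev_e0 ev_good ev_small ev_small_be ev_th
open Pool.Agent.QDU.H61

open Pool.Agent.ANR.H89 (cI)

/-- the constant of the alive distance is at most `sg n ^ (-3/2)` -/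
theorem cI_num (d : ℕ) (a c C : ℝ) :
    Ev2 d a es c C fun V => ∀ n, n ≤ V.N + 1 →
      cI d V.Dn (Finset.range n) ≤ V.sg n ^ (-(3 / 2) : ℝ) := by
  have h1 : Ev2 d a es c C fun V => ∀ s : ℝ, 0 < s → s ≤ V.w →
      s ≤ 1 ∧ 2 * 3 ^ d * s ^ (-(5 / 4) : ℝ) ≤ (1 - (V.th : ℝ) ^ (3 / 2 : ℝ)) * s ^ (-(3 / 2) : ℝ) := by
    refine ev_smallm (fun th _ _ _ _ s =>
      s ≤ 1 ∧ 2 * 3 ^ d * s ^ (-(5 / 4) : ℝ) ≤
        (1 - (th : ℝ) ^ (3 / 2 : ℝ)) * s ^ (-(3 / 2) : ℝ)) ?_ ?_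
    · rintro th b _ _ _ _ s _ g2 _ g4 ⟨x1, x2⟩
      exact ⟨x1, gap_le g2 (by norm_num) (Real.rpow_nonneg g4.le _) x2⟩
    intro th c₁ C₁ α J _ hth _ _
    have hth' : (th : ℝ) ^ (3 / 2 : ℝ) < 1 :=
      Real.rpow_lt_one (NNReal.coe_nonneg _) (by exact_mod_cast hth) (by norm_num)
    exact (small_le 1 one_pos).and (small_pow' (2 * 3 ^ d) (1 - (th : ℝ) ^ (3 / 2 : ℝ)) _ _
      (by linarith only [hth']) (by norm_num))
  refine (ev_good.and h1).imp fun V hV => ?_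
  obtain ⟨hG, hV⟩ := hV
  have hP : V.Pre a := hG.toPre
  have hw := w_pos hP
  intro n
  induction n with
  | zero =>
    intro _
    unfold cI
    rw [Finset.range_zero, Finset.sum_empty, mul_zero, add_zero]
    exact Real.one_le_rpow_of_pos_of_le_one_of_nonpos (sg_pos hP 0)
      ((sg_le hP 0).trans (hV V.w hw le_rfl).1) (by norm_num)
  | succ n ih =>
    intro hn
    have ih' := ih (by omega)
    obtain ⟨g1, g2⟩ := hV (V.sg (n + 1)) (sg_pos hP _) (sg_le hP _)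
    have e1 : cI d V.Dn (Finset.range (n + 1)) =
        cI d V.Dn (Finset.range n) + 2 * 3 ^ d * V.Dn n := by
      unfold cI
      rw [Finset.sum_range_succ]
      ring
    have h2 : (V.Dn n : ℝ) ≤ V.sg (n + 1) ^ (-(5 / 4) : ℝ) := hP.sc.dl n (by omega)
    have hs := sg_pos hP (n + 1)
    have hth : (0 : ℝ) < V.th := by exact_mod_cast th_pos hP
    have h3 : V.sg n ^ (-(3 / 2) : ℝ) ≤
        (V.th : ℝ) ^ (3 / 2 : ℝ) * V.sg (n + 1) ^ (-(3 / 2) : ℝ) := by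
      have h4 := sg_succ hP n
      have h5 : V.sg (n + 1) / V.th ≤ V.sg n := by
        rw [div_le_iff₀ hth]
        linarith only [h4]
      have h6 : V.sg n ^ (-(3 / 2) : ℝ) ≤ (V.sg (n + 1) / V.th) ^ (-(3 / 2) : ℝ) :=
        Real.rpow_le_rpow_of_nonpos (by positivity) h5 (by norm_num)
      refine h6.trans (le_of_eq ?_)
      rw [Real.div_rpow hs.le hth.le, Real.rpow_neg hth.le, div_inv_eq_mul]
      ring
    rw [e1]
    have h7 : 2 * 3 ^ d * (V.Dn n : ℝ) ≤ 2 * 3 ^ d * V.sg (n + 1) ^ (-(5 / 4) : ℝ) :=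
      mul_le_mul_of_nonneg_left h2 (by positivity)
    linarith only [ih', g2, h3, h7]

/-- the hypotheses of helper67 -/
theorem eokZ (d : ℕ) (a c C : ℝ) (hc : 0 < c) (hc2 : c ≤ 1 / 2) (hC : 1 ≤ C) :
    Ev2 d a es c C fun V => ∀ k, H67.EOk (toE V c C) k := by
  refine (ev_good.and (ev_th (1 / 3) (by norm_num))).imp fun V hV k => ?_
  obtain ⟨hG, hth3⟩ := hV
  have hP : V.Pre a := hG.toPre
  have hth1 : (V.th : ℝ) < 1 := by exact_mod_cast hP.th.2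
  exact
    { th := ⟨by
        show 2 / 3 ≤ (V.th : ℝ)
        linarith only [hth3], hth1⟩
      c₀ := ⟨by
        show 0 < c / 2
        positivity, by
        show c / 2 ≤ 1
        linarith, by
        show 1 ≤ 2 * C
        linarith⟩
      cl := ⟨cl_pos' hP k, by
        show (V.cl (k + 1) : ℝ) = V.th * V.cl k
        rw [cl_succ V k]
        push_cast
        rfl⟩
      e₀ := hG.e0 }

/-- the geometry: the hypotheses of `upd_hf` -/
theorem geoN (d : ℕ) (a c C : ℝ) :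
    Ev2 d a es c C fun V => ∀ n, n ≤ V.N →
      4 * (cI d V.Dn (Finset.range (n + 1)) + 1) ≤ V.G.L n ∧
      ∑ i ∈ Finset.range (n + 1), (3 ^ d * V.Dn i : ℝ) / V.G.L i ≤ 1 / 4 := by
  have h1 : Ev2 d a es c C fun V => ∀ s : ℝ, 0 < s → s ≤ V.w →
      s ≤ 1 ∧ 8 * s ^ (-(3 / 2) : ℝ) ≤ s ^ (-5 : ℝ) :=
    ev_small (fun _ _ _ _ s => s ≤ 1 ∧ 8 * s ^ (-(3 / 2) : ℝ) ≤ s ^ (-5 : ℝ))
      fun _ _ _ _ _ _ _ _ _ => (small_le 1 one_pos).and (small_pow 8 _ _ (by norm_num))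
  refine ((ev_good.and h1).and (cI_num d a c C)).imp fun V hV n hn => ?_
  obtain ⟨⟨hG, hV⟩, hcI⟩ := hV
  have hP : V.Pre a := hG.toPre
  obtain ⟨g1, g3⟩ := hV (V.sg (n + 1)) (sg_pos hP _) (sg_le hP _)
  refine ⟨?_, sum_num hP (by omega)⟩
  have h2 := hcI (n + 1) (by omega)
  have h3 : 1 ≤ V.sg (n + 1) ^ (-(3 / 2) : ℝ) :=
    Real.one_le_rpow_of_pos_of_le_one_of_nonpos (sg_pos hP _) g1 (by norm_num)
  have h4 : V.sg (n + 1) ^ (-5 : ℝ) ≤ (V.G.L n : ℝ) := L_low hP hn (j := V.kk (n + 1)) le_rfl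
  linarith only [g3, h2, h3, h4]

/-- THE NUMBERS OF THE INCREMENTS -/
theorem flowN (d : ℕ) (a c C : ℝ) (hd : 1 ≤ d) (hc : 0 < c) :
    Ev2 d a es c C fun V => ∀ n k, n ≤ V.N → V.kk n ≤ k → k < V.kk (n + 1) →
      H58.FlowN (toE V c C) (bud V) n k (H17.parZ V c C n k) := by
  have hcp := one_le_cpd d
  have hd0 : (0 : ℝ) < d := by exact_mod_cast hd
  have h1 : Ev2 d a es c C fun V => ∀ s : ℝ, 0 < s → s ≤ V.w →
      (s ≤ 1 ∧ 1536 * d / c ≤ s ^ (-4 : ℝ)) ∧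
      (8 / c * s ^ (-1 : ℝ) * Real.exp (-(c / (128 * d) * s ^ (-4 : ℝ))) ≤
        s ^ (1 / 8 - 1 / 200 : ℝ) ∧
      256 / c ^ 4 * (64 * cpd d / (1 - (V.th : ℝ))) * s ^ (-4 : ℝ) *
        Real.exp (-(c / (128 * d) * s ^ (-4 : ℝ))) ≤ s ^ (0 : ℝ) ∧
      3200 / c ^ 2 * s ^ (-1 : ℝ) * Real.exp (-(c / (768 * d) * s ^ (-4 : ℝ))) ≤
        s ^ (1 / 16 - 1 / 100 : ℝ)) ∧
      (2 * s ^ (1 / 16 - 1 / 200 : ℝ) ≤ c / 2 * s ^ (1 / 16 - 1 / 100 : ℝ) ∧
      1 * s ^ (1 / 8 : ℝ) ≤ c / 8 * s ^ (0 : ℝ) ∧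
      (cpd d + 8) * s ^ (1 / 8 - 1 / 200 : ℝ) ≤ c / 8 * s ^ (0 : ℝ)) := by
    refine ev_smallm (fun th _ _ _ _ s =>
      (s ≤ 1 ∧ 1536 * d / c ≤ s ^ (-4 : ℝ)) ∧
      (8 / c * s ^ (-1 : ℝ) * Real.exp (-(c / (128 * d) * s ^ (-4 : ℝ))) ≤
        s ^ (1 / 8 - 1 / 200 : ℝ) ∧
      256 / c ^ 4 * (64 * cpd d / (1 - (th : ℝ))) * s ^ (-4 : ℝ) *
        Real.exp (-(c / (128 * d) * s ^ (-4 : ℝ))) ≤ s ^ (0 : ℝ) ∧
      3200 / c ^ 2 * s ^ (-1 : ℝ) * Real.exp (-(c / (768 * d) * s ^ (-4 : ℝ))) ≤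
        s ^ (1 / 16 - 1 / 100 : ℝ)) ∧
      (2 * s ^ (1 / 16 - 1 / 200 : ℝ) ≤ c / 2 * s ^ (1 / 16 - 1 / 100 : ℝ) ∧
      1 * s ^ (1 / 8 : ℝ) ≤ c / 8 * s ^ (0 : ℝ) ∧
      (cpd d + 8) * s ^ (1 / 8 - 1 / 200 : ℝ) ≤ c / 8 * s ^ (0 : ℝ))) ?_ ?_
    · rintro th b _ _ _ _ s _ g2 g3 g4 ⟨x1, ⟨x2, x3, x4⟩, x5⟩
      refine ⟨x1, ⟨x2, le_trans ?_ x3, x4⟩, x5⟩
      have hr := Real.rpow_nonneg g4.le (-4 : ℝ)
      exact mul_le_mul_of_nonneg_right (mul_le_mul_of_nonneg_right (mul_le_mul_of_nonneg_left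
        (gapi g2 g3 (by positivity)) (by positivity)) hr) (Real.exp_pos _).le
    intro th c₁ C₁ α J _ _ _ _
    exact ((small_le 1 one_pos).and (small_const (1536 * d / c) 4 (by norm_num))).and
      (((small_exp_pow (8 / c) (c / (128 * d)) 4 1 _ (by positivity) (by norm_num)).and
      ((small_exp_pow _ (c / (128 * d)) 4 4 _ (by positivity) (by norm_num)).and
      (small_exp_pow _ (c / (768 * d)) 4 1 _ (by positivity) (by norm_num)))).and
      ((small_pow' 2 (c / 2) _ _ (by positivity) (by norm_num)).and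
      ((small_pow' 1 (c / 8) _ _ (by positivity) (by norm_num)).and
      (small_pow' (cpd d + 8) (c / 8) _ _ (by positivity) (by norm_num)))))
  refine ((ev_good.and h1).and (geoN d a c C)).imp fun V hV => ?_
  obtain ⟨⟨hG, hV⟩, hcI⟩ := hV
  have hP : V.Pre a := hG.toPre
  have hw := w_pos hP
  have hth1 : (V.th : ℝ) < 1 := by exact_mod_cast hP.th.2
  have hth0 : (0 : ℝ) < V.th := by exact_mod_cast th_pos hP
  intro n k hn hk hk'
  obtain ⟨⟨a1, a2⟩, ⟨a4, a5, a6⟩, _⟩ := hV (V.cl (k + 1)) (cl_pos' hP _) (cl_le' hP _)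
  obtain ⟨⟨b1, _⟩, _, ⟨b4, b5, b6⟩⟩ := hV (V.cl k) (cl_pos' hP _) (cl_le' hP _)
  rw [Real.rpow_zero] at a5 b5 b6
  have hL := L_low hP hn (j := k + 1) (by omega)
  have hs : (0 : ℝ) < V.cl (k + 1) := cl_pos' hP _
  have hs' : (0 : ℝ) < V.cl k := cl_pos' hP _
  have hcls : (V.cl (k + 1) : ℝ) = V.th * V.cl k := by
    rw [cl_succ V k]
    push_cast
    rfl
  have hcle : (V.cl (k + 1) : ℝ) ≤ V.cl k := cl_anti' hP (Nat.le_succ k)
  set s : ℝ := (V.cl (k + 1) : ℝ) with hsd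
  set L : ℝ := ((V.G.L n : ℕ) : ℝ) with hLd
  have hL0 : 0 < L := lt_of_lt_of_le (Real.rpow_pos_of_pos hs _) hL
  -- `β L ≥ c / (16 d) s⁻⁴`
  have hs4 : s * s ^ (-5 : ℝ) = s ^ (-4 : ℝ) := by
    nth_rewrite 1 [← Real.rpow_one s]
    rw [← Real.rpow_add hs]
    norm_num
  have hb : c / (16 * d) * s ^ (-4 : ℝ) ≤ c / 2 * s / (8 * d) * L := by
    have h2 : c / 2 * s / (8 * d) * s ^ (-5 : ℝ) = c / (16 * d) * s ^ (-4 : ℝ) := by
      rw [← hs4]
      field_simp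
      ring
    rw [← h2]
    exact mul_le_mul_of_nonneg_left hL (by positivity)
  have hexp : ∀ q : ℝ, 0 < q → Real.exp (-(c / 2 * s / (8 * d) * L / q)) ≤
      Real.exp (-(c / (16 * d * q) * s ^ (-4 : ℝ))) := by
    intro q hq
    rw [Real.exp_le_exp, neg_le_neg_iff]
    have h2 : c / (16 * d * q) * s ^ (-4 : ℝ) = c / (16 * d) * s ^ (-4 : ℝ) / q := by
      field_simp
    rw [h2]
    exact div_le_div_of_nonneg_right hb hq.le
  have hinv : s ^ (-1 : ℝ) = 1 / s := by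
    rw [Real.rpow_neg hs.le, Real.rpow_one, one_div]
  have hinv4 : s ^ (-4 : ℝ) = 1 / s ^ 4 := by
    have h4 : (-4 : ℝ) = -((4 : ℕ) : ℝ) := by norm_num
    rw [h4, Real.rpow_neg hs.le, Real.rpow_natCast, one_div]
  have hb6 : 96 ≤ c / 2 * s / (8 * d) * L := by
    refine le_trans ?_ hb
    have h2 : c / (16 * d) * (1536 * d / c) ≤ c / (16 * d) * s ^ (-4 : ℝ) :=
      mul_le_mul_of_nonneg_left a2 (by positivity)
    have h3 : c / (16 * d) * (1536 * d / c) = 96 := by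
      field_simp
      norm_num
    linarith only [h2, h3]
  have hlam : 1 / 4 ≤ (qq V n k).lam := by
    show 1 / 4 ≤ 1 / 4 * (V.cl k : ℝ) ^ (-(3 / 4) : ℝ) * (2 - V.sg n ^ (1 / 400 : ℝ))
    have h2 : 1 ≤ (V.cl k : ℝ) ^ (-(3 / 4) : ℝ) :=
      Real.one_le_rpow_of_pos_of_le_one_of_nonpos hs' b1 (by norm_num)
    have h3 : V.sg n ^ (1 / 400 : ℝ) ≤ 1 := Real.rpow_le_one (sg_pos hP n).le
      ((sg_le hP n).trans (hV V.w hw le_rfl).1.1) (by norm_num)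
    nlinarith only [hth1, hth0, h2, h3]
  refine
    { δ := le_rfl
      bL := hb6
      ent := ?_
      lar := ?_
      yin := ?_
      yfar := ?_
      mis := ?_
      hL := (hcI n hn).1
      hsum := (hcI n hn).2 }
  · show 4 / (c / 2 * s) * Real.exp (-(c / 2 * s / (8 * d) * L / 8)) ≤
      (V.cl k : ℝ) ^ (1 / 8 - 1 / 200 : ℝ)
    have h2 := hexp 8 (by norm_num)
    have h3 : (16 : ℝ) * d * 8 = 128 * d := by ring
    rw [h3] at h2
    have h4 : 4 / (c / 2 * s) = 8 / c * s ^ (-1 : ℝ) := by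
      rw [hinv]
      field_simp
      norm_num
    rw [h4]
    calc 8 / c * s ^ (-1 : ℝ) * Real.exp (-(c / 2 * s / (8 * d) * L / 8))
        ≤ 8 / c * s ^ (-1 : ℝ) * Real.exp (-(c / (128 * d) * s ^ (-4 : ℝ))) := by
          refine mul_le_mul_of_nonneg_left h2 ?_
          have : 0 < s ^ (-1 : ℝ) := Real.rpow_pos_of_pos hs _
          positivity
      _ ≤ s ^ (1 / 8 - 1 / 200 : ℝ) := a4
      _ ≤ _ := Real.rpow_le_rpow hs.le hcle (by norm_num)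
  · show (1 - (V.th : ℝ)) / (64 * cpd d) * (4 * (qq V n k).lam) +
      16 / (c / 2 * s) ^ 4 * Real.exp (-(c / 2 * s / (8 * d) * L / 8)) ≤
      (qq V n k).lam * ((1 - (V.th : ℝ)) / (8 * cpd d))
    have h2 := hexp 8 (by norm_num)
    have h3 : (16 : ℝ) * d * 8 = 128 * d := by ring
    rw [h3] at h2
    have h1th : 0 < 1 - (V.th : ℝ) := by linarith only [hth1]
    have hcp0 : 0 < cpd d := by linarith only [hcp, hth1, hth0]
    have h4 : 16 / (c / 2 * s) ^ 4 = 256 / c ^ 4 * s ^ (-4 : ℝ) := by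
      rw [hinv4]
      field_simp
      norm_num
    have h5 : 256 / c ^ 4 * s ^ (-4 : ℝ) * Real.exp (-(c / 2 * s / (8 * d) * L / 8)) ≤
        (1 - (V.th : ℝ)) / (64 * cpd d) := by
      have h6 : 0 < s ^ (-4 : ℝ) := Real.rpow_pos_of_pos hs _
      have h7 : 256 / c ^ 4 * s ^ (-4 : ℝ) * Real.exp (-(c / 2 * s / (8 * d) * L / 8)) ≤
          256 / c ^ 4 * s ^ (-4 : ℝ) * Real.exp (-(c / (128 * d) * s ^ (-4 : ℝ))) :=
        mul_le_mul_of_nonneg_left h2 (by positivity)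
      refine h7.trans ?_
      have h8 : 256 / c ^ 4 * (64 * cpd d / (1 - (V.th : ℝ))) * s ^ (-4 : ℝ) *
          Real.exp (-(c / (128 * d) * s ^ (-4 : ℝ))) =
          (64 * cpd d / (1 - (V.th : ℝ))) * (256 / c ^ 4 * s ^ (-4 : ℝ) *
            Real.exp (-(c / (128 * d) * s ^ (-4 : ℝ)))) := by ring
      rw [h8, div_mul_eq_mul_div, div_le_iff₀ h1th, one_mul] at a5
      rw [le_div_iff₀ (by positivity)]
      linarith only [a5]
    have h9 : (1 - (V.th : ℝ)) / (64 * cpd d) ≤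
        (qq V n k).lam * ((1 - (V.th : ℝ)) / (16 * cpd d)) := by
      have h10 : (1 - (V.th : ℝ)) / (64 * cpd d) = 1 / 4 * ((1 - (V.th : ℝ)) / (16 * cpd d)) := by
        field_simp
        norm_num
      rw [h10]
      exact mul_le_mul_of_nonneg_right hlam (by positivity)
    have h11 : (1 - (V.th : ℝ)) / (64 * cpd d) * (4 * (qq V n k).lam) =
        (qq V n k).lam * ((1 - (V.th : ℝ)) / (16 * cpd d)) := by
      field_simp
      norm_num
    have h12 : (qq V n k).lam * ((1 - (V.th : ℝ)) / (8 * cpd d)) =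
        2 * ((qq V n k).lam * ((1 - (V.th : ℝ)) / (16 * cpd d))) := by
      field_simp
      norm_num
    rw [h4, h11, h12]
    linarith only [h5, h9]
  · show 2 * (V.cl k : ℝ) ^ (1 / 16 - 1 / 200 : ℝ) ≤
      (V.cl k : ℝ) ^ (1 / 16 - 1 / 100 : ℝ) * (c / 2)
    linarith only [b4]
  · show 800 / (c / 2 * (c / 2 * s)) * Real.exp (-(c / 2 * s / (8 * d) / 6 * L / 8)) ≤
      (V.cl k : ℝ) ^ (1 / 16 - 1 / 100 : ℝ)
    have h2 := hexp 48 (by norm_num)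
    have h3 : (16 : ℝ) * d * 48 = 768 * d := by ring
    have h5 : c / 2 * s / (8 * d) / 6 * L / 8 = c / 2 * s / (8 * d) * L / 48 := by ring
    rw [h3] at h2
    have h4 : 800 / (c / 2 * (c / 2 * s)) = 3200 / c ^ 2 * s ^ (-1 : ℝ) := by
      rw [hinv]
      field_simp
      norm_num
    rw [h4, h5]
    calc 3200 / c ^ 2 * s ^ (-1 : ℝ) * Real.exp (-(c / 2 * s / (8 * d) * L / 48))
        ≤ 3200 / c ^ 2 * s ^ (-1 : ℝ) * Real.exp (-(c / (768 * d) * s ^ (-4 : ℝ))) := by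
          refine mul_le_mul_of_nonneg_left h2 ?_
          have : 0 < s ^ (-1 : ℝ) := Real.rpow_pos_of_pos hs _
          positivity
      _ ≤ s ^ (1 / 16 - 1 / 100 : ℝ) := a6
      _ ≤ _ := Real.rpow_le_rpow hs.le hcle (by norm_num)
  · show (V.cl k : ℝ) ^ (1 / 8 : ℝ) + (V.cl k : ℝ) ^ (1 / 8 - 1 / 200 : ℝ) * cpd d ≤ c / 2 / 2
    have h2 : 0 ≤ (V.cl k : ℝ) ^ (1 / 8 - 1 / 200 : ℝ) := Real.rpow_nonneg hs'.le _
    linarith only [b5, b6, h2]

/-- the change of `Λ` is nonnegative -/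
theorem omL (d : ℕ) (a c C : ℝ) :
    Ev2 d a es c C fun V => ∀ n k, 0 ≤ (H17.parZ V c C n k).ω * (H17.parZ V c C n k).L := by
  have hcp := one_le_cpd d
  have h1 : Ev2 d a es c C fun V => ∀ s : ℝ, 0 < s → s ≤ V.w → s ≤ 1 :=
    ev_small (fun _ _ _ _ s => s ≤ 1) fun _ _ _ _ _ _ _ _ _ => small_le 1 one_pos
  refine (ev_good.and h1).imp fun V hV n k => ?_
  obtain ⟨hG, hV⟩ := hV
  have hP : V.Pre a := hG.toPre
  have hth1 : (V.th : ℝ) < 1 := by exact_mod_cast hP.th.2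
  show 0 ≤ (1 - (V.th : ℝ)) / (64 * cpd d) *
    (4 * (1 / 4 * (V.cl k : ℝ) ^ (-(3 / 4) : ℝ) * (2 - V.sg n ^ (1 / 400 : ℝ))))
  have h2 : 0 ≤ (1 - (V.th : ℝ)) / (64 * cpd d) := div_nonneg (by linarith) (by linarith)
  have h3 : V.sg n ^ (1 / 400 : ℝ) ≤ 1 := Real.rpow_le_one (sg_pos hP n).le
    ((sg_le hP n).trans (hV V.w (w_pos hP) le_rfl)) (by norm_num)
  have h4 : 0 ≤ (V.cl k : ℝ) ^ (-(3 / 4) : ℝ) := Real.rpow_nonneg (cl_pos' hP k).le _
  have h5 : 0 ≤ 1 / 4 * (V.cl k : ℝ) ^ (-(3 / 4) : ℝ) * (2 - V.sg n ^ (1 / 400 : ℝ)) :=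
    mul_nonneg (by positivity) (by linarith only [h3])
  exact mul_nonneg h2 (by linarith only [h5])

end Pool.Agent.QDU.H90
end
end -- Pool.Agent.Helper22_QDU.H90IncNum
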