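import Pool.Agent.Helper12_MEB.B164
import Pool.Agent.Helper12_MEB.B169

/-!
# Merged copies (generated) of the modules

* `Pool.Agent.Helper17_AFL.Rate`
* `Pool.Agent.Helper17_AFL.Prb`
* `Pool.Agent.Helper17_AFL.Fin`
* `Pool.Agent.Helper17_AHH.PqZ`
* `Pool.Agent.Helper17_AHH.NumZ`
-/

set_option autoImplicit false

section -- Pool.Agent.Helper17_AFL.Rate

/-!
# AND2B, block lemma FLO: the bound of `Fl.pr`

`Dim`: the dimensionless smallness conditions, with one small number `u` and `n u ≤ 1`, `nL = K n`.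
`rt_le`: the total rate times the time is at most `a₀ n + B`; `pr_le`: the bound of the probability.
-/

set_option autoImplicit false

open scoped BigOperators

noncomputable section

namespace Pool.Agent.AFL.H17

open Pool.Agent.AFL

variable {X : Type} [Fintype X] [DecidableEq X]

/-- dimensionless bounds; `u` small, `n u ≤ 1`, `T ≤ t₁ κv` -/
structure Dim (F : Fl X) (c₀ C u t₁ r₀ N₀ : ℝ) (K : ℕ) : Prop where
  u0 : 0 ≤ u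
  T0 : 0 < F.T
  kv : 0 < F.κv
  Tk : F.T ≤ t₁ * F.κv
  r0 : 0 ≤ F.r
  r1 : F.r ≤ r₀
  N0 : 0 ≤ F.N
  N1 : F.N ≤ N₀
  dl : 0 < F.δ
  dl1 : F.δ ≤ u ^ 2
  ep : 0 ≤ F.ε
  ep1 : F.ε ≤ u ^ 2
  e1 : 0 < F.ε₁
  e11 : F.ε₁ ≤ u ^ 2
  dy : 0 < F.δY
  q1 : F.T * F.L ≤ u ^ 2 * F.δ ^ 2
  q2 : 1 / Real.sqrt F.L0 ≤ u ^ 2
  q3 : F.κv * F.z ≤ u ^ 2
  q4 : F.T * F.yd C ≤ u * F.δY
  q5 : F.T * F.yn C ≤ u ^ 2 * F.δY ^ 2
  q6 : F.T * F.δ ≤ u * (F.κv * F.ε₁)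
  q7 : F.T * F.nu c₀ ≤ u ^ 2 * F.ε₁ ^ 2
  nn : F.n * u ≤ 1
  nL : F.nL = K * F.n

/-- the rate per `n` -/
def a0 (t₁ r₀ N₀ : ℝ) : ℝ := 4 * (N₀ + 1) * r₀ * t₁ + 32 * r₀ * t₁

/-- the rest -/
def Bc (C₀ t₁ r₀ N₀ : ℝ) (K : ℕ) : ℝ :=
  8 + 6 * K ^ 2 * t₁ * (3 + 16 * (N₀ + 1 + C₀ + 4 * r₀)) + 24 + 8 * (6 * N₀ + 8) + 8

variable {F : Fl X} {c₀ C₀ C u t₁ r₀ N₀ : ℝ} {K : ℕ}

theorem Dim.t1 (h : Dim F c₀ C u t₁ r₀ N₀ K) : 0 ≤ t₁ := by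
  by_contra hn
  push Not at hn
  have h1 := h.Tk
  have h2 := h.T0
  have h3 := mul_neg_of_neg_of_pos hn h.kv
  linarith

theorem Dim.n2 (h : Dim F c₀ C u t₁ r₀ N₀ K) : (F.n : ℝ) ^ 2 * u ^ 2 ≤ 1 := by
  have h1 : 0 ≤ (F.n : ℝ) * u := mul_nonneg (Nat.cast_nonneg _) h.u0
  have h2 := mul_le_mul h.nn h.nn h1 zero_le_one
  calc (F.n : ℝ) ^ 2 * u ^ 2 = (F.n * u) * (F.n * u) := by ring
    _ ≤ 1 * 1 := h2
    _ = 1 := one_mul _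

theorem aG_le (h : Dim F c₀ C u t₁ r₀ N₀ K) :
    F.aG * F.T ≤ 4 * (N₀ + 1) * r₀ * t₁ * F.n + 8 := by
  have hk := h.kv
  have hd := h.dl
  have e : F.aG * F.T = 4 * F.n * ((F.N + 1) * F.r * (F.T / F.κv)) +
      8 * F.n ^ 2 * (F.T * F.L / F.δ ^ 2) := by
    unfold Fl.aG Fl.μs
    field_simp
  have h1 : F.T / F.κv ≤ t₁ := (div_le_iff₀ hk).2 h.Tk
  have h2 : F.T * F.L / F.δ ^ 2 ≤ u ^ 2 := (div_le_iff₀ (by positivity)).2 h.q1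
  have h3 : (F.N + 1) * F.r * (F.T / F.κv) ≤ (N₀ + 1) * r₀ * t₁ := by
    have := h.N0; have := h.N1; have := h.r0; have := h.r1; have := h.T0
    have hr : 0 ≤ r₀ := h.r0.trans h.r1
    exact mul_le_mul (mul_le_mul (by linarith) h.r1 h.r0 (by linarith)) h1 (by positivity)
      (mul_nonneg (by linarith) hr)
  have hn : (0 : ℝ) ≤ F.n := Nat.cast_nonneg _
  have h4 : (F.n : ℝ) ^ 2 * (F.T * F.L / F.δ ^ 2) ≤ 1 :=
    (mul_le_mul_of_nonneg_left h2 (by positivity)).trans h.n2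
  rw [e]
  have h5 := mul_le_mul_of_nonneg_left h3 (show (0 : ℝ) ≤ 4 * F.n by positivity)
  linarith only [h4, h5]

theorem aL_le (h : Dim F c₀ C u t₁ r₀ N₀ K) (hC₀ : 0 ≤ C₀) :
    F.aL C₀ * F.T ≤ 6 * K ^ 2 * t₁ * (3 + 16 * (N₀ + 1 + C₀ + 4 * r₀)) := by
  have hk := h.kv
  have hu := h.u0
  have e : F.aL C₀ * F.T = 6 * (F.nL : ℝ) ^ 2 * (F.T / F.κv) * (1 / Real.sqrt F.L0 +
      (16 * ((F.N + 1) * F.δ + F.ε * C₀ + 4 * F.ε₁ * F.r) + 2 * (F.κv * F.z))) := by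
    unfold Fl.aL Fl.aK
    generalize 1 / Real.sqrt F.L0 = y
    field_simp
  have h1 : F.T / F.κv ≤ t₁ := (div_le_iff₀ hk).2 h.Tk
  have h10 : 0 ≤ F.T / F.κv := div_nonneg h.T0.le hk.le
  have h2 : (F.N + 1) * F.δ ≤ (N₀ + 1) * u ^ 2 := by
    have := h.N0; have := h.N1
    exact mul_le_mul (by linarith only [this]) h.dl1 h.dl.le (by linarith)
  have h3 : F.ε * C₀ ≤ C₀ * u ^ 2 := by
    rw [mul_comm C₀]
    exact mul_le_mul_of_nonneg_right h.ep1 hC₀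
  have h4 : 4 * F.ε₁ * F.r ≤ 4 * r₀ * u ^ 2 := by
    have h41 := mul_le_mul h.e11 h.r1 h.r0 (by positivity : (0 : ℝ) ≤ u ^ 2)
    linarith only [h41]
  have h5 : 1 / Real.sqrt F.L0 +
      (16 * ((F.N + 1) * F.δ + F.ε * C₀ + 4 * F.ε₁ * F.r) + 2 * (F.κv * F.z)) ≤
      (3 + 16 * (N₀ + 1 + C₀ + 4 * r₀)) * u ^ 2 := by
    have := h.q2; have := h.q3
    linarith
  have hr : 0 ≤ r₀ := h.r0.trans h.r1
  have hN : 0 ≤ N₀ := h.N0.trans h.N1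
  have ht := h.t1
  have hnL : (F.nL : ℝ) = K * F.n := by rw [h.nL]; push_cast; ring
  rw [e, hnL]
  calc 6 * (K * (F.n : ℝ)) ^ 2 * (F.T / F.κv) * (1 / Real.sqrt F.L0 +
      (16 * ((F.N + 1) * F.δ + F.ε * C₀ + 4 * F.ε₁ * F.r) + 2 * (F.κv * F.z)))
      ≤ 6 * (K * (F.n : ℝ)) ^ 2 * (F.T / F.κv) * ((3 + 16 * (N₀ + 1 + C₀ + 4 * r₀)) * u ^ 2) :=
        mul_le_mul_of_nonneg_left h5 (by positivity)
    _ ≤ 6 * (K * (F.n : ℝ)) ^ 2 * t₁ * ((3 + 16 * (N₀ + 1 + C₀ + 4 * r₀)) * u ^ 2) := by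
        refine mul_le_mul_of_nonneg_right (mul_le_mul_of_nonneg_left h1 (by positivity)) ?_
        positivity
    _ = 6 * K ^ 2 * t₁ * (3 + 16 * (N₀ + 1 + C₀ + 4 * r₀)) * ((F.n : ℝ) ^ 2 * u ^ 2) := by ring
    _ ≤ 6 * K ^ 2 * t₁ * (3 + 16 * (N₀ + 1 + C₀ + 4 * r₀)) * 1 :=
        mul_le_mul_of_nonneg_left h.n2 (by positivity)
    _ = _ := mul_one _

theorem aY_le (h : Dim F c₀ C u t₁ r₀ N₀ K) : F.aY C * F.T ≤ 12 := by
  have hy := h.dy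
  have e : F.aY C * F.T = 4 * F.n * (F.T * F.yd C / F.δY) +
      8 * F.n ^ 2 * (F.T * F.yn C / F.δY ^ 2) := by
    unfold Fl.aY
    ring
  have h1 : F.T * F.yd C / F.δY ≤ u := (div_le_iff₀ hy).2 h.q4
  have h2 : F.T * F.yn C / F.δY ^ 2 ≤ u ^ 2 := (div_le_iff₀ (by positivity)).2 h.q5
  have hn : (0 : ℝ) ≤ F.n := Nat.cast_nonneg _
  have h3 : (F.n : ℝ) * (F.T * F.yd C / F.δY) ≤ 1 := (mul_le_mul_of_nonneg_left h1 hn).trans h.nn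
  have h4 : (F.n : ℝ) ^ 2 * (F.T * F.yn C / F.δY ^ 2) ≤ 1 :=
    (mul_le_mul_of_nonneg_left h2 (by positivity)).trans h.n2
  rw [e]
  linarith only [h3, h4]

theorem aS_le (h : Dim F c₀ C u t₁ r₀ N₀ K) :
    F.aS c₀ * F.T ≤ 32 * r₀ * t₁ * F.n + (8 * (6 * N₀ + 8) + 8) := by
  have hk := h.kv
  have he := h.e1
  have e : F.aS c₀ * F.T = 8 * (6 * F.N + 8) * (F.n * (F.T * F.δ / (F.κv * F.ε₁))) +
      8 * (F.n ^ 2 * (F.T * F.nu c₀ / F.ε₁ ^ 2)) + 32 * (F.r * (F.T / F.κv)) * F.n := by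
    unfold Fl.aS Fl.μs
    generalize F.nu c₀ = y
    field_simp
    ring
  have h1 : F.T / F.κv ≤ t₁ := (div_le_iff₀ hk).2 h.Tk
  have h10 : 0 ≤ F.T / F.κv := div_nonneg h.T0.le hk.le
  have h2 : F.T * F.δ / (F.κv * F.ε₁) ≤ u := (div_le_iff₀ (by positivity)).2 h.q6
  have h3 : F.T * F.nu c₀ / F.ε₁ ^ 2 ≤ u ^ 2 := (div_le_iff₀ (by positivity)).2 h.q7
  have hn : (0 : ℝ) ≤ F.n := Nat.cast_nonneg _
  have h4 : (F.n : ℝ) * (F.T * F.δ / (F.κv * F.ε₁)) ≤ 1 :=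
    (mul_le_mul_of_nonneg_left h2 hn).trans h.nn
  have h5 : (F.n : ℝ) ^ 2 * (F.T * F.nu c₀ / F.ε₁ ^ 2) ≤ 1 :=
    (mul_le_mul_of_nonneg_left h3 (by positivity)).trans h.n2
  have h6 : F.r * (F.T / F.κv) ≤ r₀ * t₁ := mul_le_mul h.r1 h1 h10 (h.r0.trans h.r1)
  have hN := h.N0
  have hN1 := h.N1
  have h7 : 8 * (6 * F.N + 8) * (F.n * (F.T * F.δ / (F.κv * F.ε₁))) ≤ 8 * (6 * N₀ + 8) * 1 := by
    have h71 : 0 ≤ (F.n : ℝ) * (F.T * F.δ / (F.κv * F.ε₁)) := by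
      have := h.T0; have := h.dl
      positivity
    exact mul_le_mul (by linarith only [hN1]) h4 h71 (by linarith only [hN, hN1])
  have h8 : 32 * (F.r * (F.T / F.κv)) * F.n ≤ 32 * (r₀ * t₁) * F.n :=
    mul_le_mul_of_nonneg_right (by linarith only [h6]) hn
  rw [e]
  linarith only [h5, h7, h8]

theorem rt_le (h : Dim F c₀ C u t₁ r₀ N₀ K) (hC₀ : 0 ≤ C₀) :
    F.rt c₀ C₀ C * F.T ≤ a0 t₁ r₀ N₀ * F.n + Bc C₀ t₁ r₀ N₀ K := by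
  have h1 := aG_le h
  have h2 := aL_le h hC₀
  have h3 := aY_le h
  have h4 := aS_le h
  unfold Fl.rt a0 Bc
  linarith only [h1, h2, h3, h4]

/-- the bound of the probability -/
theorem pr_le {ω₀ P : ℝ} (h : Dim F c₀ C u t₁ r₀ N₀ K) (hC₀ : 0 ≤ C₀) (hω0 : 0 < ω₀)
    (hω : ω₀ ≤ F.ω) (hK : (1 / (1 + ω₀)) ^ K ≤ 1 / 4) (ha : Real.exp (3 * a0 t₁ r₀ N₀) ≤ 2)
    (hP : 1 ≤ P) (hQ1 : (F.Q1.card : ℝ) ≤ P) (hQ : (F.Q.card : ℝ) ≤ P) :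
    F.pr c₀ C₀ C ≤ 3 * Real.exp (3 * Bc C₀ t₁ r₀ N₀ K) *
      (P + (a0 t₁ r₀ N₀ * F.n + Bc C₀ t₁ r₀ N₀ K) * (5 * P ^ 2)) * (1 / 2) ^ F.n := by
  have h1 := rt_le h hC₀
  have hr : 0 ≤ r₀ := h.r0.trans h.r1
  have hN : 0 ≤ N₀ := h.N0.trans h.N1
  have ht := h.t1
  have ha0 : 0 ≤ a0 t₁ r₀ N₀ := by unfold a0; positivity
  have hB : 0 ≤ Bc C₀ t₁ r₀ N₀ K := by unfold Bc; positivity
  set a : ℝ := a0 t₁ r₀ N₀ with haa
  set B : ℝ := Bc C₀ t₁ r₀ N₀ K with hBB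
  have hn : (0 : ℝ) ≤ F.n := Nat.cast_nonneg _
  have h2 : (1 / (1 + F.ω)) ^ F.nL ≤ (1 / 4) ^ F.n := by
    have hω1 : 0 < 1 + F.ω := by linarith only [hω0, hω]
    rw [h.nL, pow_mul]
    refine pow_le_pow_left₀ (by positivity) (le_trans ?_ hK) _
    refine pow_le_pow_left₀ (by positivity) ?_ _
    exact one_div_le_one_div_of_le (by linarith only [hω0]) (by linarith)
  have h3 : F.cd ≤ 5 * P ^ 2 := by
    unfold Fl.cd
    have h31 : (F.Q1.card : ℝ) ^ 2 ≤ P ^ 2 := pow_le_pow_left₀ (Nat.cast_nonneg _) hQ1 2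
    have h32 : P ≤ P ^ 2 := by nlinarith only [hP]
    linarith only [hQ1, hQ, h31, h32]
  have h30 : 0 ≤ F.cd := by unfold Fl.cd; positivity
  have h4 : Real.exp (3 * (F.rt c₀ C₀ C * F.T)) ≤ Real.exp (3 * B) * 2 ^ F.n := by
    calc Real.exp (3 * (F.rt c₀ C₀ C * F.T)) ≤ Real.exp (3 * B + F.n * (3 * a)) := by
          rw [Real.exp_le_exp]; linarith only [h1]
      _ = Real.exp (3 * B) * Real.exp (3 * a) ^ F.n := by
          rw [Real.exp_add, Real.exp_nat_mul]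
      _ ≤ Real.exp (3 * B) * 2 ^ F.n := by
          refine mul_le_mul_of_nonneg_left ?_ (Real.exp_pos _).le
          exact pow_le_pow_left₀ (Real.exp_pos _).le ha _
  have hq : (0 : ℝ) ≤ (1 / 4) ^ F.n := by positivity
  have h5 : F.Q1.card * (1 / (1 + F.ω)) ^ F.nL + F.rt c₀ C₀ C * F.T * (F.cd * (1 / 4) ^ F.n) ≤
      (P + (a * F.n + B) * (5 * P ^ 2)) * (1 / 4) ^ F.n := by
    have h51 : (F.Q1.card : ℝ) * (1 / (1 + F.ω)) ^ F.nL ≤ P * (1 / 4) ^ F.n := by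
      refine mul_le_mul hQ1 h2 ?_ (by linarith only [hP])
      have : 0 < F.ω := hω0.trans_le hω
      positivity
    have h52 : F.rt c₀ C₀ C * F.T * (F.cd * (1 / 4) ^ F.n) ≤
        (a * F.n + B) * (5 * P ^ 2 * (1 / 4) ^ F.n) := by
      refine mul_le_mul h1 (mul_le_mul_of_nonneg_right h3 hq) (mul_nonneg h30 hq) ?_
      positivity
    calc _ ≤ P * (1 / 4) ^ F.n + (a * F.n + B) * (5 * P ^ 2 * (1 / 4) ^ F.n) :=
          add_le_add h51 h52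
      _ = _ := by ring
  have h6 : (2 : ℝ) ^ F.n * (1 / 4) ^ F.n = (1 / 2) ^ F.n := by
    rw [← mul_pow]; norm_num
  unfold Fl.pr
  calc 3 * Real.exp (3 * (F.rt c₀ C₀ C * F.T)) *
      (F.Q1.card * (1 / (1 + F.ω)) ^ F.nL + F.rt c₀ C₀ C * F.T * (F.cd * (1 / 4) ^ F.n))
      ≤ 3 * Real.exp (3 * (F.rt c₀ C₀ C * F.T)) *
        ((P + (a * F.n + B) * (5 * P ^ 2)) * (1 / 4) ^ F.n) :=
        mul_le_mul_of_nonneg_left h5 (by positivity)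
    _ ≤ 3 * (Real.exp (3 * B) * 2 ^ F.n) *
        ((P + (a * F.n + B) * (5 * P ^ 2)) * (1 / 4) ^ F.n) := by
        refine mul_le_mul_of_nonneg_right (by linarith only [h4]) ?_
        positivity
    _ = 3 * Real.exp (3 * B) * (P + (a * F.n + B) * (5 * P ^ 2)) *
        ((2 : ℝ) ^ F.n * (1 / 4) ^ F.n) := by ring
    _ = _ := by rw [h6]

end Pool.Agent.AFL.H17
end
end -- Pool.Agent.Helper17_AFL.Rate

section -- Pool.Agent.Helper17_AFL.Prb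

/-!
# AND2B, block lemma FLO: the choice of the numbers `n`, `nL`, `z`, `L0`

`Pq`: the relations between the data of the block lemma and the clock `s`. `prn`: for all small `s`
the numeric fields of `Fl.Ok` hold and the probability is at most `exp (-s ^ (-γ / 2))`.
-/

set_option autoImplicit false

open scoped BigOperators
open Filter Topology

noncomputable section

namespace Pool.Agent.AFL.H17

open Pool.Agent.AFL Pool.Agent.AND.Num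

/-- the relations between the data and the clock `s` -/
structure Pq {X : Type} [Fintype X] [DecidableEq X] (F : Fl X)
    (κ₀ t₁ cL CL ω₀ r₀ N₀ e c₆ Kc γ : ℝ) (KL : ℕ) (s : ℝ) : Prop where
  T0 : 0 < F.T
  Tk : F.T ≤ t₁ * F.κv
  k0 : κ₀ * s ≤ F.κv
  k1 : F.κv ≤ s
  r0 : 0 ≤ F.r
  r1 : F.r ≤ r₀
  N0 : 0 ≤ F.N
  N1 : F.N ≤ N₀
  dl : F.δ = s ^ (1 / 8 - e)
  dy : F.δY = s ^ (1 / 16 - e)
  L0 : cL * s ^ (-(3 / 4 : ℝ)) ≤ F.L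
  L1 : F.L ≤ CL * s ^ (-(3 / 4 : ℝ))
  om : ω₀ ≤ F.ω
  ep : 0 ≤ F.ε
  ep1 : F.ε ≤ s ^ c₆
  e1 : 0 < F.ε₁
  e11 : F.ε₁ ≤ s ^ c₆
  s1 : F.s1 ≤ s ^ c₆ * F.ε₁ ^ 2
  s8 : s ^ (1 / 8 : ℝ) ≤ s ^ c₆ * F.ε₁ ^ 2
  s3 : F.old * F.s3 ≤ s ^ c₆ * F.ε₁ ^ 2
  s2n : 0 ≤ F.s2
  s2 : F.s2 ≤ s ^ (1 / 4 + c₆)
  q1 : (F.Q1.card : ℝ) ≤ s ^ (-Kc)
  q : (F.Q.card : ℝ) ≤ s ^ (-Kc)
  n : F.n = ⌈s ^ (-γ)⌉₊
  nL : F.nL = KL * F.n
  z : F.z = s ^ (-(63 / 64 : ℝ))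
  l0 : F.L0 = s ^ (-(c₆ / 2))

/-- powers -/
theorem rp_mul {s : ℝ} (hs : 0 < s) (a b c : ℝ) (h : a + b = c) : s ^ a * s ^ b = s ^ c := by
  rw [← Real.rpow_add hs, h]

theorem rp_sq {s : ℝ} (hs : 0 < s) (a b : ℝ) (h : 2 * a = b) : (s ^ a) ^ 2 = s ^ b := by
  rw [sq, ← Real.rpow_add hs]; congr 1; linarith only [h]

theorem rp_four {s : ℝ} (hs : 0 < s) (a b : ℝ) (h : 4 * a = b) : (s ^ a) ^ 4 = s ^ b := by
  rw [← Real.rpow_natCast, ← Real.rpow_mul hs.le]; congr 1; push_cast; linarith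

theorem rp_sqrt {s : ℝ} (hs : 0 < s) (a b : ℝ) (h : a / 2 = b) : Real.sqrt (s ^ a) = s ^ b := by
  rw [Real.sqrt_eq_rpow, ← Real.rpow_mul hs.le]; congr 1; linarith only [h]

theorem rp_one {s : ℝ} (hs : 0 < s) (a b : ℝ) (h : 1 + a = b) : s * s ^ a = s ^ b := by
  nth_rewrite 1 [← Real.rpow_one s]
  exact rp_mul hs 1 a b h

theorem rp_inv {s : ℝ} (hs : 0 < s) : s⁻¹ = s ^ (-1 : ℝ) := by
  rw [Real.rpow_neg_one]

section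

variable {X : Type} [Fintype X] [DecidableEq X] {F : Fl X}
  {κ₀ t₁ cL CL ω₀ r₀ N₀ e c₆ Kc γ : ℝ} {KL : ℕ} {s : ℝ}

/-- the ratio `L / κv` -/
theorem Lk_le (h : Pq F κ₀ t₁ cL CL ω₀ r₀ N₀ e c₆ Kc γ KL s) (hs : 0 < s) (hκ : 0 < κ₀)
    (hC : 0 ≤ CL) : F.L / F.κv ≤ CL / κ₀ * s ^ (-(7 / 4 : ℝ)) := by
  have hk : 0 < F.κv := lt_of_lt_of_le (by positivity) h.k0
  rw [div_le_iff₀ hk]
  have h1 : CL * s ^ (-(3 / 4 : ℝ)) = CL / κ₀ * s ^ (-(7 / 4 : ℝ)) * (κ₀ * s) := by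
    have h2 : s ^ (-(3 / 4 : ℝ)) = s * s ^ (-(7 / 4 : ℝ)) := (rp_one hs _ _ (by norm_num)).symm
    rw [h2]
    field_simp
  refine h.L1.trans ?_
  rw [h1]
  exact mul_le_mul_of_nonneg_left h.k0 (by positivity)

/-- `T √(L / κv) ≤ C s ^ (1 / 8)` -/
theorem Tsq_le (h : Pq F κ₀ t₁ cL CL ω₀ r₀ N₀ e c₆ Kc γ KL s) (hs : 0 < s) (hκ : 0 < κ₀)
    (hC : 0 ≤ CL) (ht : 0 ≤ t₁) :
    F.T * Real.sqrt (F.L / F.κv) ≤ t₁ * Real.sqrt (CL / κ₀) * s ^ (1 / 8 : ℝ) := by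
  have h1 : Real.sqrt (F.L / F.κv) ≤ Real.sqrt (CL / κ₀) * s ^ (-(7 / 8 : ℝ)) := by
    rw [← rp_sqrt hs (-(7 / 4 : ℝ)) _ (by norm_num), ← Real.sqrt_mul (by positivity)]
    exact Real.sqrt_le_sqrt (Lk_le h hs hκ hC)
  have h2 : F.T ≤ t₁ * s := h.Tk.trans (mul_le_mul_of_nonneg_left h.k1 ht)
  calc F.T * Real.sqrt (F.L / F.κv) ≤ t₁ * s * (Real.sqrt (CL / κ₀) * s ^ (-(7 / 8 : ℝ))) :=
        mul_le_mul h2 h1 (Real.sqrt_nonneg _) (by positivity)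
    _ = t₁ * Real.sqrt (CL / κ₀) * (s * s ^ (-(7 / 8 : ℝ))) := by ring
    _ = _ := by rw [rp_one hs _ (1 / 8) (by norm_num)]

/-- `T (L / κv)^(1/4) / √κv ≤ C s ^ (1 / 16)` -/
theorem Tqq_le (h : Pq F κ₀ t₁ cL CL ω₀ r₀ N₀ e c₆ Kc γ KL s) (hs : 0 < s) (hκ : 0 < κ₀)
    (hC : 0 ≤ CL) (ht : 0 ≤ t₁) :
    F.T * (Real.sqrt (Real.sqrt (F.L / F.κv)) / Real.sqrt F.κv) ≤
      t₁ * Real.sqrt (Real.sqrt (CL / κ₀)) / Real.sqrt κ₀ * s ^ (1 / 16 : ℝ) := by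
  have hk : 0 < F.κv := lt_of_lt_of_le (by positivity) h.k0
  have h1 : Real.sqrt (Real.sqrt (F.L / F.κv)) ≤
      Real.sqrt (Real.sqrt (CL / κ₀)) * s ^ (-(7 / 16 : ℝ)) := by
    rw [← rp_sqrt hs (-(7 / 8 : ℝ)) _ (by norm_num), ← Real.sqrt_mul (by positivity),
      ← rp_sqrt hs (-(7 / 4 : ℝ)) (-(7 / 8 : ℝ)) (by norm_num), ← Real.sqrt_mul (by positivity)]
    exact Real.sqrt_le_sqrt (Real.sqrt_le_sqrt (Lk_le h hs hκ hC))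
  have h2 : F.T ≤ t₁ * s := h.Tk.trans (mul_le_mul_of_nonneg_left h.k1 ht)
  have h3 : Real.sqrt κ₀ * s ^ (1 / 2 : ℝ) ≤ Real.sqrt F.κv := by
    rw [← Real.sqrt_eq_rpow, ← Real.sqrt_mul hκ.le]
    exact Real.sqrt_le_sqrt h.k0
  have h4 : 0 < Real.sqrt κ₀ * s ^ (1 / 2 : ℝ) := by positivity
  have h5 : Real.sqrt (Real.sqrt (F.L / F.κv)) / Real.sqrt F.κv ≤
      Real.sqrt (Real.sqrt (CL / κ₀)) * s ^ (-(7 / 16 : ℝ)) / (Real.sqrt κ₀ * s ^ (1 / 2 : ℝ)) :=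
    div_le_div₀ (by positivity) h1 h4 h3
  calc F.T * (Real.sqrt (Real.sqrt (F.L / F.κv)) / Real.sqrt F.κv)
      ≤ t₁ * s * (Real.sqrt (Real.sqrt (CL / κ₀)) * s ^ (-(7 / 16 : ℝ)) /
          (Real.sqrt κ₀ * s ^ (1 / 2 : ℝ))) :=
        mul_le_mul h2 h5 (by positivity) (by positivity)
    _ = t₁ * Real.sqrt (Real.sqrt (CL / κ₀)) / Real.sqrt κ₀ *
          (s * s ^ (-(7 / 16 : ℝ)) / s ^ (1 / 2 : ℝ)) := by
        field_simp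
    _ = _ := by
        congr 1
        rw [rp_one hs _ (9 / 16) (by norm_num), ← Real.rpow_sub hs]
        norm_num

theorem sqrt_rL (h : Pq F κ₀ t₁ cL CL ω₀ r₀ N₀ e c₆ Kc γ KL s) (hs : 0 < s) (hκ : 0 < κ₀)
    (hC : 0 ≤ CL) (ht : 0 ≤ t₁) :
    F.T * Real.sqrt (F.r * F.L / F.κv) ≤
      Real.sqrt r₀ * (t₁ * Real.sqrt (CL / κ₀) * s ^ (1 / 8 : ℝ)) := by
  have h1 : F.r * F.L / F.κv = F.r * (F.L / F.κv) := by ring
  rw [h1, Real.sqrt_mul h.r0]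
  calc F.T * (Real.sqrt F.r * Real.sqrt (F.L / F.κv))
      = Real.sqrt F.r * (F.T * Real.sqrt (F.L / F.κv)) := by ring
    _ ≤ Real.sqrt r₀ * (t₁ * Real.sqrt (CL / κ₀) * s ^ (1 / 8 : ℝ)) := by
        refine mul_le_mul (Real.sqrt_le_sqrt h.r1) (Tsq_le h hs hκ hC ht) ?_ (Real.sqrt_nonneg _)
        exact mul_nonneg h.T0.le (Real.sqrt_nonneg _)

/-- the noise of the form -/
theorem nu_le {c₀ : ℝ} (h : Pq F κ₀ t₁ cL CL ω₀ r₀ N₀ e c₆ Kc γ KL s) (hs : 0 < s) (hκ : 0 < κ₀)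
    (hC : 0 ≤ CL) (ht : 0 ≤ t₁) (hc₀ : 0 < c₀) :
    F.T * F.nu c₀ ≤ (32 / c₀ * (Real.sqrt r₀ * (t₁ * Real.sqrt (CL / κ₀))) + 16 * r₀ * t₁ +
      16 * t₁) * s ^ c₆ * F.ε₁ ^ 2 := by
  have hk : 0 < F.κv := lt_of_lt_of_le (by positivity) h.k0
  have h1 := sqrt_rL h hs hκ hC ht
  have hTk : F.T / F.κv ≤ t₁ := (div_le_iff₀ hk).2 h.Tk
  have hTk0 : 0 ≤ F.T / F.κv := div_nonneg h.T0.le hk.le
  have hr0 : 0 ≤ r₀ := h.r0.trans h.r1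
  have hp : 0 ≤ s ^ c₆ * F.ε₁ ^ 2 := by positivity
  have e : F.T * F.nu c₀ = 32 / c₀ * (F.T * Real.sqrt (F.r * F.L / F.κv)) +
      16 * (F.r * (F.T / F.κv)) * F.s1 + 16 * (F.T / F.κv) * (F.old * F.s3) := by
    unfold Fl.nu
    generalize Real.sqrt (F.r * F.L / F.κv) = y
    field_simp
    ring
  have h2 : 32 / c₀ * (F.T * Real.sqrt (F.r * F.L / F.κv)) ≤
      32 / c₀ * (Real.sqrt r₀ * (t₁ * Real.sqrt (CL / κ₀))) * (s ^ c₆ * F.ε₁ ^ 2) := by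
    have h21 : F.T * Real.sqrt (F.r * F.L / F.κv) ≤
        Real.sqrt r₀ * (t₁ * Real.sqrt (CL / κ₀)) * (s ^ c₆ * F.ε₁ ^ 2) := by
      refine h1.trans ?_
      calc Real.sqrt r₀ * (t₁ * Real.sqrt (CL / κ₀) * s ^ (1 / 8 : ℝ))
          = Real.sqrt r₀ * (t₁ * Real.sqrt (CL / κ₀)) * s ^ (1 / 8 : ℝ) := by ring
        _ ≤ _ := mul_le_mul_of_nonneg_left h.s8 (by positivity)
    calc _ ≤ 32 / c₀ * (Real.sqrt r₀ * (t₁ * Real.sqrt (CL / κ₀)) * (s ^ c₆ * F.ε₁ ^ 2)) :=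
          mul_le_mul_of_nonneg_left h21 (by positivity)
      _ = _ := by ring
  have h3 : 16 * (F.r * (F.T / F.κv)) * F.s1 ≤ 16 * (r₀ * t₁) * (s ^ c₆ * F.ε₁ ^ 2) := by
    have h31 : F.r * (F.T / F.κv) ≤ r₀ * t₁ := mul_le_mul h.r1 hTk hTk0 hr0
    have h32 : 0 ≤ F.r * (F.T / F.κv) := mul_nonneg h.r0 hTk0
    calc 16 * (F.r * (F.T / F.κv)) * F.s1 ≤ 16 * (F.r * (F.T / F.κv)) * (s ^ c₆ * F.ε₁ ^ 2) :=
          mul_le_mul_of_nonneg_left h.s1 (by linarith only [h32])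
      _ ≤ _ := mul_le_mul_of_nonneg_right (by linarith only [h31]) hp
  have h4 : 16 * (F.T / F.κv) * (F.old * F.s3) ≤ 16 * t₁ * (s ^ c₆ * F.ε₁ ^ 2) := by
    calc 16 * (F.T / F.κv) * (F.old * F.s3) ≤ 16 * (F.T / F.κv) * (s ^ c₆ * F.ε₁ ^ 2) :=
          mul_le_mul_of_nonneg_left h.s3 (by linarith only [hTk0])
      _ ≤ _ := mul_le_mul_of_nonneg_right (by linarith only [hTk]) hp
  rw [e]
  calc _ ≤ 32 / c₀ * (Real.sqrt r₀ * (t₁ * Real.sqrt (CL / κ₀))) * (s ^ c₆ * F.ε₁ ^ 2) +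
        16 * (r₀ * t₁) * (s ^ c₆ * F.ε₁ ^ 2) + 16 * t₁ * (s ^ c₆ * F.ε₁ ^ 2) :=
        add_le_add (add_le_add h2 h3) h4
    _ = _ := by ring

/-- lower bound of `ε₁` -/
theorem e1_low (h : Pq F κ₀ t₁ cL CL ω₀ r₀ N₀ e c₆ Kc γ KL s) (hs : 0 < s) (hs1 : s ≤ 1)
    (hc₆ : 0 ≤ c₆) : s ^ (1 / 16 : ℝ) ≤ F.ε₁ := by
  have h1 : s ^ c₆ ≤ 1 := Real.rpow_le_one hs.le hs1 hc₆
  have h2 : (s ^ (1 / 16 : ℝ)) ^ 2 ≤ F.ε₁ ^ 2 := by
    rw [rp_sq hs (1 / 16) (1 / 8) (by norm_num)]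
    calc s ^ (1 / 8 : ℝ) ≤ s ^ c₆ * F.ε₁ ^ 2 := h.s8
      _ ≤ 1 * F.ε₁ ^ 2 := mul_le_mul_of_nonneg_right h1 (by positivity)
      _ = _ := one_mul _
  exact (pow_le_pow_iff_left₀ (by positivity) h.e1.le (by norm_num)).1 h2

end

end Pool.Agent.AFL.H17
end
end -- Pool.Agent.Helper17_AFL.Prb

section -- Pool.Agent.Helper17_AFL.Fin

/-!
# AND2B, block lemma FLO: all numeric conditions and the bound of the probability
-/

set_option autoImplicit false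

open scoped BigOperators
open Filter Topology

noncomputable section

namespace Pool.Agent.AFL.H17

open Pool.Agent.AFL Pool.Agent.AND.Num

/-- the constants -/
structure Cs (c₀ C₀ C κ₀ t₁ cL CL ω₀ r₀ N₀ e c₆ Kc γ : ℝ) : Prop where
  c0 : 0 < c₀
  C0 : 0 ≤ C₀
  C : 0 ≤ C
  k : 0 < κ₀
  t : 0 ≤ t₁
  cL : 0 < cL
  CL : 0 ≤ CL
  om : 0 < ω₀
  r : 0 ≤ r₀
  N : 0 ≤ N₀
  tC : t₁ * C₀ ≤ 1
  tr : 2 * r₀ * t₁ ≤ 1
  ex : Real.exp (3 * a0 t₁ r₀ N₀) ≤ 2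
  e0 : 0 < e
  e1 : e ≤ 1 / 64
  c6 : 0 < c₆
  c61 : c₆ ≤ 1 / 64
  Kc : 0 ≤ Kc
  g : 0 < γ
  ge : 16 * γ ≤ e
  gc : 16 * γ ≤ c₆

variable {c₀ C₀ C κ₀ t₁ cL CL ω₀ r₀ N₀ e c₆ Kc γ : ℝ}

/-- the constant of `T nu` -/
def D7 (c₀ κ₀ t₁ CL r₀ : ℝ) : ℝ :=
  32 / c₀ * (Real.sqrt r₀ * (t₁ * Real.sqrt (CL / κ₀))) + 16 * r₀ * t₁ + 16 * t₁

/-- the smallness conditions on `s` -/
structure Sm (c₀ C κ₀ t₁ CL r₀ N₀ e c₆ γ : ℝ) (s : ℝ) : Prop where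
  one : s ≤ 1
  n : s ^ γ ≤ 1 / 2
  q1 : t₁ * CL * s ^ (1 / 4 : ℝ) ≤ s ^ (4 * γ + (1 / 4 - 2 * e))
  q4a : C * (t₁ * (N₀ + 1)) * s ^ (1 / 8 - e) ≤ 1 / 2 * s ^ (2 * γ + (1 / 16 - e))
  q4b : C * (t₁ * Real.sqrt (Real.sqrt (CL / κ₀)) / Real.sqrt κ₀) * s ^ (1 / 16 : ℝ) ≤
    1 / 2 * s ^ (2 * γ + (1 / 16 - e))
  q5 : C * (t₁ * Real.sqrt (CL / κ₀)) * s ^ (1 / 8 : ℝ) ≤ s ^ (4 * γ + (1 / 8 - 2 * e))
  q6 : t₁ * s ^ (1 / 8 - e) ≤ s ^ (2 * γ + 1 / 16)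
  q7 : D7 c₀ κ₀ t₁ CL r₀ * s ^ c₆ ≤ s ^ (4 * γ)

theorem sm (h : Cs c₀ C₀ C κ₀ t₁ cL CL ω₀ r₀ N₀ e c₆ Kc γ) :
    Small fun s => Sm c₀ C κ₀ t₁ CL r₀ N₀ e c₆ γ s := by
  have he := h.e0; have he1 := h.e1; have hg := h.g; have hge := h.ge; have hgc := h.gc
  have h1 := small_le 1 one_pos
  have h2 := small_rpow_le (1 / 2) γ (by norm_num) hg
  have h3 := small_pow (t₁ * CL) (1 / 4) (4 * γ + (1 / 4 - 2 * e)) (by linarith only [hg, hge])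
  have h4 := small_pow' (C * (t₁ * (N₀ + 1))) (1 / 2) (1 / 8 - e) (2 * γ + (1 / 16 - e))
    (by norm_num) (by linarith)
  have h5 := small_pow' (C * (t₁ * Real.sqrt (Real.sqrt (CL / κ₀)) / Real.sqrt κ₀)) (1 / 2)
    (1 / 16) (2 * γ + (1 / 16 - e)) (by norm_num) (by linarith)
  have h6 := small_pow (C * (t₁ * Real.sqrt (CL / κ₀))) (1 / 8) (4 * γ + (1 / 8 - 2 * e))
    (by linarith only [hg, hge])
  have h7 := small_pow t₁ (1 / 8 - e) (2 * γ + 1 / 16) (by linarith only [he1, hg, hge])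
  have h8 := small_pow (D7 c₀ κ₀ t₁ CL r₀) c₆ (4 * γ) (by linarith only [hg, hgc])
  refine ((((((((h1.and h2).and h3).and h4).and h5).and h6).and h7).and h8)).mono ?_
  rintro s - ⟨⟨⟨⟨⟨⟨⟨a1, a2⟩, a3⟩, a4⟩, a5⟩, a6⟩, a7⟩, a8⟩
  exact ⟨a1, a2, a3, a4, a5, a6, a7, a8⟩

section

variable {X : Type} [Fintype X] [DecidableEq X] {F : Fl X} {KL : ℕ} {s : ℝ}

theorem n_le (h : Cs c₀ C₀ C κ₀ t₁ cL CL ω₀ r₀ N₀ e c₆ Kc γ)
    (hF : Pq F κ₀ t₁ cL CL ω₀ r₀ N₀ e c₆ Kc γ KL s) (hs : 0 < s) (hs1 : s ≤ 1) :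
    s ^ (-γ) ≤ F.n ∧ (F.n : ℝ) ≤ 2 * s ^ (-γ) := by
  rw [hF.n]
  have h1 : 1 ≤ s ^ (-γ) := Real.one_le_rpow_of_pos_of_le_one_of_nonpos hs hs1 (by
    have := h.g; linarith only [this])
  refine ⟨Nat.le_ceil _, ?_⟩
  have h2 := Nat.ceil_lt_add_one (show 0 ≤ s ^ (-γ) by linarith)
  linarith

/-- the dimensionless conditions hold with `u = s ^ (2 γ)` -/
theorem dim (h : Cs c₀ C₀ C κ₀ t₁ cL CL ω₀ r₀ N₀ e c₆ Kc γ)
    (hF : Pq F κ₀ t₁ cL CL ω₀ r₀ N₀ e c₆ Kc γ KL s) (hs : 0 < s)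
    (hS : Sm c₀ C κ₀ t₁ CL r₀ N₀ e c₆ γ s) : Dim F c₀ C (s ^ (2 * γ)) t₁ r₀ N₀ KL := by
  have he := h.e0; have he1 := h.e1; have hg := h.g; have hge := h.ge; have hgc := h.gc
  have hs1 := hS.one
  have hk : 0 < F.κv := lt_of_lt_of_le (mul_pos h.k hs) hF.k0
  have hu2 : (s ^ (2 * γ)) ^ 2 = s ^ (4 * γ) := rp_sq hs _ _ (by ring)
  have hT : F.T ≤ t₁ * s := hF.Tk.trans (mul_le_mul_of_nonneg_left hF.k1 h.t)
  have hTk : F.T / F.κv ≤ t₁ := (div_le_iff₀ hk).2 hF.Tk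
  have hTk0 : 0 ≤ F.T / F.κv := div_nonneg hF.T0.le hk.le
  have hdl : 0 < F.δ := by rw [hF.dl]; positivity
  have hdy : 0 < F.δY := by rw [hF.dy]; positivity
  refine ⟨by positivity, hF.T0, hk, hF.Tk, hF.r0, hF.r1, hF.N0, hF.N1, hdl, ?_, hF.ep, ?_,
    hF.e1, ?_, hdy, ?_, ?_, ?_, ?_, ?_, ?_, ?_, ?_, hF.nL⟩
  · -- dl1
    rw [hu2, hF.dl]
    exact rpow_anti hs hs1 (by linarith only [he1, hg, hge])
  · rw [hu2]
    exact hF.ep1.trans (rpow_anti hs hs1 (by linarith))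
  · rw [hu2]
    exact hF.e11.trans (rpow_anti hs hs1 (by linarith only [hg, hgc]))
  · -- q1
    rw [hu2, hF.dl, rp_sq hs _ (1 / 4 - 2 * e) (by ring),
      rp_mul hs _ _ (4 * γ + (1 / 4 - 2 * e)) rfl]
    refine le_trans ?_ hS.q1
    by_cases hL : 0 ≤ F.L
    · calc F.T * F.L ≤ t₁ * s * (CL * s ^ (-(3 / 4 : ℝ))) :=
            mul_le_mul hT hF.L1 hL (mul_nonneg h.t hs.le)
        _ = t₁ * CL * (s * s ^ (-(3 / 4 : ℝ))) := by ring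
        _ = _ := by rw [rp_one hs _ (1 / 4) (by norm_num)]
    · push Not at hL
      have h1 := mul_neg_of_pos_of_neg hF.T0 hL
      have h2 : 0 ≤ t₁ * CL * s ^ (1 / 4 : ℝ) := by
        have := h.t; have := h.CL; positivity
      linarith only [h1, h2]
  · -- q2
    rw [hu2, hF.l0, rp_sqrt hs _ (-(c₆ / 4)) (by ring), Real.rpow_neg hs.le, one_div, inv_inv]
    exact rpow_anti hs hs1 (by linarith only [hgc])
  · -- q3
    rw [hu2, hF.z]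
    calc F.κv * s ^ (-(63 / 64 : ℝ)) ≤ s * s ^ (-(63 / 64 : ℝ)) :=
          mul_le_mul_of_nonneg_right hF.k1 (by positivity)
      _ = s ^ (1 / 64 : ℝ) := rp_one hs _ _ (by norm_num)
      _ ≤ s ^ (4 * γ) := rpow_anti hs hs1 (by linarith only [he1, hg, hge])
  · -- q4
    rw [hF.dy, rp_mul hs _ _ (2 * γ + (1 / 16 - e)) rfl]
    have h1 := Tqq_le hF hs h.k h.CL h.t
    have h2 : F.T * (F.μs / F.κv) ≤ t₁ * (N₀ + 1) * s ^ (1 / 8 - e) := by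
      have h21 : F.T * (F.μs / F.κv) = (F.T / F.κv) * ((F.N + 1) * F.δ) := by
        unfold Fl.μs; ring
      rw [h21, hF.dl]
      calc (F.T / F.κv) * ((F.N + 1) * s ^ (1 / 8 - e)) ≤
          t₁ * ((N₀ + 1) * s ^ (1 / 8 - e)) := by
            refine mul_le_mul hTk ?_ ?_ h.t
            · exact mul_le_mul_of_nonneg_right (by have := hF.N1; linarith only [this]) (by positivity)
            · exact mul_nonneg (by have := hF.N0; linarith only [he1, hg, hge, this]) (by positivity)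
        _ = _ := by ring
    have h3 : F.T * F.yd C = C * (F.T * (F.μs / F.κv)) +
        C * (F.T * (Real.sqrt (Real.sqrt (F.L / F.κv)) / Real.sqrt F.κv)) := by
      unfold Fl.yd; ring
    rw [h3]
    have h4 := mul_le_mul_of_nonneg_left h2 h.C
    have h5 := mul_le_mul_of_nonneg_left h1 h.C
    have h6 := hS.q4a
    have h7 := hS.q4b
    have e1 : C * (t₁ * (N₀ + 1) * s ^ (1 / 8 - e)) = C * (t₁ * (N₀ + 1)) * s ^ (1 / 8 - e) := by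
      ring
    have e2 : C * (t₁ * Real.sqrt (Real.sqrt (CL / κ₀)) / Real.sqrt κ₀ * s ^ (1 / 16 : ℝ)) =
      C * (t₁ * Real.sqrt (Real.sqrt (CL / κ₀)) / Real.sqrt κ₀) * s ^ (1 / 16 : ℝ) := by ring
    rw [e1] at h4
    rw [e2] at h5
    linarith only [h4, h5, h6, h7]
  · -- q5
    rw [hu2, hF.dy, rp_sq hs _ (1 / 8 - 2 * e) (by ring),
      rp_mul hs _ _ (4 * γ + (1 / 8 - 2 * e)) rfl]
    refine le_trans ?_ hS.q5
    have h1 := mul_le_mul_of_nonneg_left (Tsq_le hF hs h.k h.CL h.t) h.C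
    have h2 : F.T * F.yn C = C * (F.T * Real.sqrt (F.L / F.κv)) := by unfold Fl.yn; ring
    rw [h2]
    refine h1.trans (le_of_eq ?_)
    ring
  · -- q6
    have h1 := e1_low hF hs hs1 h.c6.le
    have h2 : t₁ * F.δ ≤ s ^ (2 * γ) * F.ε₁ := by
      rw [hF.dl]
      refine hS.q6.trans ?_
      rw [← rp_mul hs (2 * γ) (1 / 16) _ rfl]
      exact mul_le_mul_of_nonneg_left h1 (by positivity)
    calc F.T * F.δ ≤ t₁ * F.κv * F.δ := mul_le_mul_of_nonneg_right hF.Tk hdl.le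
      _ = F.κv * (t₁ * F.δ) := by ring
      _ ≤ F.κv * (s ^ (2 * γ) * F.ε₁) := mul_le_mul_of_nonneg_left h2 hk.le
      _ = _ := by ring
  · -- q7
    rw [hu2]
    have h1 := nu_le (c₀ := c₀) hF hs h.k h.CL h.t h.c0
    refine h1.trans (mul_le_mul_of_nonneg_right hS.q7 (by positivity))
  · -- nn
    have h1 := (n_le h hF hs hs1).2
    calc (F.n : ℝ) * s ^ (2 * γ) ≤ 2 * s ^ (-γ) * s ^ (2 * γ) :=
          mul_le_mul_of_nonneg_right h1 (by positivity)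
      _ = 2 * (s ^ (-γ) * s ^ (2 * γ)) := by ring
      _ = 2 * s ^ γ := by rw [rp_mul hs _ _ γ (by ring)]
      _ ≤ 1 := by have := hS.n; linarith only [this]

end

/-- the numeric fields of `Fl.Ok` and the probability -/
structure Out {X : Type} [Fintype X] [DecidableEq X] (F : Fl X) (c₀ C₀ C γ s : ℝ) : Prop where
  hTv : F.T * C₀ ≤ F.κv ∧ 2 * F.r * F.T ≤ F.κv
  hδ : (F.N + 2) * F.δ ≤ c₀ / 2
  hz : 0 ≤ F.z ∧ 16 * F.μs ^ 4 * F.r ^ 3 ≤ F.z ^ 4 * (F.ω * F.L) * F.κv ^ 5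
  hL0 : 1 ≤ F.L0 ∧ F.κv * (16 * F.sg C₀ + 2 * F.z) * F.L0 ≤ 1
  hn : 1 ≤ F.n ∧ F.n ≤ F.nL
  pr : F.pr c₀ C₀ C ≤ Real.exp (-(s ^ (-(γ / 2))))

/-- the remaining smallness conditions -/
structure Sm2 (c₀ C₀ κ₀ t₁ cL ω₀ r₀ N₀ e c₆ Kc γ : ℝ) (KL : ℕ) (s : ℝ) : Prop where
  d : (N₀ + 2) * s ^ (1 / 8 - e) ≤ c₀ / 2
  z : 16 * (N₀ + 1) ^ 4 * r₀ ^ 3 * s ^ (1 / 2 - 4 * e) ≤ ω₀ * cL * κ₀ ^ 5 * s ^ (5 / 16 : ℝ)
  l1 : 16 * (C₀ ^ 2 * r₀ ^ 2 / (κ₀ * (ω₀ * cL))) * s ^ (c₆ / 2) ≤ 1 / 2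
  l2 : 2 * s ^ (1 / 64 - c₆ / 2) ≤ 1 / 2
  p : 3 * Real.exp (3 * Bc C₀ t₁ r₀ N₀ KL) *
    (1 + 10 * a0 t₁ r₀ N₀ + 5 * Bc C₀ t₁ r₀ N₀ KL) * s ^ (-(γ + 2 * Kc)) *
      Real.exp (-(Real.log 2 * s ^ (-γ))) ≤ Real.exp (-(s ^ (-(γ / 2))))

theorem sm2 (h : Cs c₀ C₀ C κ₀ t₁ cL CL ω₀ r₀ N₀ e c₆ Kc γ) (KL : ℕ) :
    Small fun s => Sm2 c₀ C₀ κ₀ t₁ cL ω₀ r₀ N₀ e c₆ Kc γ KL s := by
  have he := h.e0; have he1 := h.e1; have hg := h.g; have hge := h.ge; have hgc := h.gc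
  have h0 := h.c0; have hk := h.k; have hcL := h.cL; have hom := h.om
  have h1 : Small fun s => (N₀ + 2) * s ^ (1 / 8 - e) ≤ c₀ / 2 := by
    refine (small_pow' (N₀ + 2) (c₀ / 2) (1 / 8 - e) 0 (by positivity) (by linarith only [he1, hg, hge])).mono ?_
    intro s _ hh
    simpa using hh
  have h2 := small_pow' (16 * (N₀ + 1) ^ 4 * r₀ ^ 3) (ω₀ * cL * κ₀ ^ 5) (1 / 2 - 4 * e) (5 / 16)
    (by positivity) (by linarith only [he1, hg, hge])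
  have h3 : Small fun s => 16 * (C₀ ^ 2 * r₀ ^ 2 / (κ₀ * (ω₀ * cL))) * s ^ (c₆ / 2) ≤ 1 / 2 := by
    refine (small_pow' (16 * (C₀ ^ 2 * r₀ ^ 2 / (κ₀ * (ω₀ * cL)))) (1 / 2) (c₆ / 2) 0
      (by norm_num) (by have := h.c6; linarith only [hg, hgc])).mono ?_
    intro s _ hh
    simpa using hh
  have h4 : Small fun s => 2 * s ^ (1 / 64 - c₆ / 2) ≤ 1 / 2 := by
    refine (small_pow' 2 (1 / 2) (1 / 64 - c₆ / 2) 0 (by norm_num)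
      (by have := h.c61; linarith)).mono ?_
    intro s _ hh
    simpa using hh
  have h5 := small_exp (3 * Real.exp (3 * Bc C₀ t₁ r₀ N₀ KL) *
    (1 + 10 * a0 t₁ r₀ N₀ + 5 * Bc C₀ t₁ r₀ N₀ KL)) (Real.log 2) γ (γ + 2 * Kc) (γ / 2)
    (Real.log_pos (by norm_num)) hg (by linarith only [hg])
  refine ((((h1.and h2).and h3).and h4).and h5).mono ?_
  rintro s - ⟨⟨⟨⟨a1, a2⟩, a3⟩, a4⟩, a5⟩
  exact ⟨a1, a2, a3, a4, a5⟩

section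

variable {X : Type} [Fintype X] [DecidableEq X] {F : Fl X} {KL : ℕ} {s : ℝ}

theorem hz_le (h : Cs c₀ C₀ C κ₀ t₁ cL CL ω₀ r₀ N₀ e c₆ Kc γ)
    (hF : Pq F κ₀ t₁ cL CL ω₀ r₀ N₀ e c₆ Kc γ KL s) (hs : 0 < s)
    (hS : Sm2 c₀ C₀ κ₀ t₁ cL ω₀ r₀ N₀ e c₆ Kc γ KL s) :
    16 * F.μs ^ 4 * F.r ^ 3 ≤ F.z ^ 4 * (F.ω * F.L) * F.κv ^ 5 := by
  have hk := h.k; have hcL := h.cL; have hom := h.om; have hN := h.N; have hr := h.r
  have hN0 := hF.N0; have hN1 := hF.N1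
  have h1 : F.μs ^ 4 ≤ (N₀ + 1) ^ 4 * s ^ (1 / 2 - 4 * e) := by
    unfold Fl.μs
    rw [hF.dl, mul_pow, rp_four hs _ (1 / 2 - 4 * e) (by ring)]
    refine mul_le_mul_of_nonneg_right ?_ (by positivity)
    exact pow_le_pow_left₀ (by linarith only [hN0]) (by linarith) 4
  have h2 : F.r ^ 3 ≤ r₀ ^ 3 := pow_le_pow_left₀ hF.r0 hF.r1 3
  have h3 : 16 * F.μs ^ 4 * F.r ^ 3 ≤ 16 * (N₀ + 1) ^ 4 * r₀ ^ 3 * s ^ (1 / 2 - 4 * e) := by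
    have h31 : F.μs ^ 4 * F.r ^ 3 ≤ (N₀ + 1) ^ 4 * s ^ (1 / 2 - 4 * e) * r₀ ^ 3 :=
      mul_le_mul h1 h2 (pow_nonneg hF.r0 3) (by positivity)
    linarith only [h31]
  have h4 : ω₀ * (cL * s ^ (-(3 / 4 : ℝ))) ≤ F.ω * F.L :=
    mul_le_mul hF.om hF.L0 (by positivity) (hom.le.trans hF.om)
  have h5 : (κ₀ * s) ^ 5 ≤ F.κv ^ 5 := pow_le_pow_left₀ (by positivity) hF.k0 5
  have h6 : s ^ (-(63 / 16 : ℝ)) * (ω₀ * (cL * s ^ (-(3 / 4 : ℝ)))) * (κ₀ * s) ^ 5 =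
      ω₀ * cL * κ₀ ^ 5 * s ^ (5 / 16 : ℝ) := by
    have h61 : s ^ 5 = s ^ (5 : ℝ) := by
      rw [← Real.rpow_natCast]; norm_num
    have h62 : s ^ (-(63 / 16 : ℝ)) * s ^ (-(3 / 4 : ℝ)) * s ^ (5 : ℝ) = s ^ (5 / 16 : ℝ) := by
      rw [rp_mul hs _ _ (-(75 / 16 : ℝ)) (by norm_num), rp_mul hs _ _ (5 / 16) (by norm_num)]
    calc _ = ω₀ * cL * κ₀ ^ 5 * (s ^ (-(63 / 16 : ℝ)) * s ^ (-(3 / 4 : ℝ)) * s ^ 5) := by ring
      _ = _ := by rw [h61, h62]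
  refine (h3.trans hS.z).trans ?_
  rw [hF.z, rp_four hs _ (-(63 / 16 : ℝ)) (by norm_num), ← h6]
  have hωL : 0 ≤ F.ω * F.L := (by positivity : (0 : ℝ) ≤ ω₀ * (cL * s ^ (-(3 / 4 : ℝ)))).trans h4
  exact mul_le_mul (mul_le_mul_of_nonneg_left h4 (by positivity)) h5 (by positivity)
    (mul_nonneg (by positivity) hωL)

theorem hL_le (h : Cs c₀ C₀ C κ₀ t₁ cL CL ω₀ r₀ N₀ e c₆ Kc γ)
    (hF : Pq F κ₀ t₁ cL CL ω₀ r₀ N₀ e c₆ Kc γ KL s) (hs : 0 < s)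
    (hS : Sm2 c₀ C₀ κ₀ t₁ cL ω₀ r₀ N₀ e c₆ Kc γ KL s) :
    F.κv * (16 * F.sg C₀ + 2 * F.z) * F.L0 ≤ 1 := by
  have hk := h.k; have hcL := h.cL; have hom := h.om; have hr := h.r
  have hκ : 0 < F.κv := lt_of_lt_of_le (mul_pos h.k hs) hF.k0
  have h4 : ω₀ * (cL * s ^ (-(3 / 4 : ℝ))) ≤ F.ω * F.L :=
    mul_le_mul hF.om hF.L0 (by positivity) (hom.le.trans hF.om)
  have h40 : 0 < ω₀ * (cL * s ^ (-(3 / 4 : ℝ))) := by positivity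
  have hωL : 0 < F.ω * F.L := h40.trans_le h4
  have e1 : F.κv * F.sg C₀ = C₀ ^ 2 * (F.r ^ 2 * F.s2) / (F.κv * (F.ω * F.L)) := by
    unfold Fl.sg
    field_simp
  have h5 : κ₀ * s * (ω₀ * (cL * s ^ (-(3 / 4 : ℝ)))) ≤ F.κv * (F.ω * F.L) :=
    mul_le_mul hF.k0 h4 h40.le hκ.le
  have h6 : F.r ^ 2 * F.s2 ≤ r₀ ^ 2 * s ^ (1 / 4 + c₆) :=
    mul_le_mul (pow_le_pow_left₀ hF.r0 hF.r1 2) hF.s2 hF.s2n (by positivity)
  have h7 : F.κv * F.sg C₀ ≤ C₀ ^ 2 * r₀ ^ 2 / (κ₀ * (ω₀ * cL)) * s ^ c₆ := by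
    rw [e1]
    calc C₀ ^ 2 * (F.r ^ 2 * F.s2) / (F.κv * (F.ω * F.L)) ≤
        C₀ ^ 2 * (r₀ ^ 2 * s ^ (1 / 4 + c₆)) / (κ₀ * s * (ω₀ * (cL * s ^ (-(3 / 4 : ℝ))))) :=
          div_le_div₀ (by positivity) (mul_le_mul_of_nonneg_left h6 (by positivity))
            (by positivity) h5
      _ = C₀ ^ 2 * r₀ ^ 2 / (κ₀ * (ω₀ * cL)) * (s ^ (1 / 4 + c₆) / (s * s ^ (-(3 / 4 : ℝ)))) := by
          field_simp
      _ = _ := by
          congr 1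
          rw [rp_one hs _ (1 / 4) (by norm_num), ← Real.rpow_sub hs]
          congr 1
          ring
  have h8 : F.κv * F.z ≤ s ^ (1 / 64 : ℝ) := by
    rw [hF.z]
    calc F.κv * s ^ (-(63 / 64 : ℝ)) ≤ s * s ^ (-(63 / 64 : ℝ)) :=
          mul_le_mul_of_nonneg_right hF.k1 (by positivity)
      _ = s ^ (1 / 64 : ℝ) := rp_one hs _ _ (by norm_num)
  have hl : 0 ≤ s ^ (-(c₆ / 2)) := by positivity
  rw [hF.l0]
  calc F.κv * (16 * F.sg C₀ + 2 * F.z) * s ^ (-(c₆ / 2))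
      = (16 * (F.κv * F.sg C₀) + 2 * (F.κv * F.z)) * s ^ (-(c₆ / 2)) := by ring
    _ ≤ (16 * (C₀ ^ 2 * r₀ ^ 2 / (κ₀ * (ω₀ * cL)) * s ^ c₆) + 2 * s ^ (1 / 64 : ℝ)) *
        s ^ (-(c₆ / 2)) := mul_le_mul_of_nonneg_right (by linarith only [h7, h8]) hl
    _ = 16 * (C₀ ^ 2 * r₀ ^ 2 / (κ₀ * (ω₀ * cL))) * (s ^ c₆ * s ^ (-(c₆ / 2))) +
        2 * (s ^ (1 / 64 : ℝ) * s ^ (-(c₆ / 2))) := by ring
    _ = 16 * (C₀ ^ 2 * r₀ ^ 2 / (κ₀ * (ω₀ * cL))) * s ^ (c₆ / 2) +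
        2 * s ^ (1 / 64 - c₆ / 2) := by
        rw [rp_mul hs _ _ (c₆ / 2) (by ring), rp_mul hs _ _ (1 / 64 - c₆ / 2) (by ring)]
    _ ≤ 1 := by have := hS.l1; have := hS.l2; linarith

theorem pr_exp (h : Cs c₀ C₀ C κ₀ t₁ cL CL ω₀ r₀ N₀ e c₆ Kc γ)
    (hF : Pq F κ₀ t₁ cL CL ω₀ r₀ N₀ e c₆ Kc γ KL s) (hs : 0 < s)
    (hK : (1 / (1 + ω₀)) ^ KL ≤ 1 / 4)
    (hS : Sm c₀ C κ₀ t₁ CL r₀ N₀ e c₆ γ s)
    (hS2 : Sm2 c₀ C₀ κ₀ t₁ cL ω₀ r₀ N₀ e c₆ Kc γ KL s) :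
    F.pr c₀ C₀ C ≤ Real.exp (-(s ^ (-(γ / 2)))) := by
  have hs1 := hS.one
  have hg := h.g
  have hP : 1 ≤ s ^ (-Kc) := Real.one_le_rpow_of_pos_of_le_one_of_nonpos hs hs1 (by
    have := h.Kc; linarith only [this])
  have hγ : 1 ≤ s ^ (-γ) := Real.one_le_rpow_of_pos_of_le_one_of_nonpos hs hs1 (by linarith)
  have h1 := pr_le (dim h hF hs hS) h.C0 h.om hF.om hK h.ex hP hF.q1 hF.q
  have hn := n_le h hF hs hs1
  have ha : 0 ≤ a0 t₁ r₀ N₀ := by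
    unfold a0; have := h.t; have := h.r; have := h.N; positivity
  have hB : 0 ≤ Bc C₀ t₁ r₀ N₀ KL := by
    unfold Bc; have := h.t; have := h.r; have := h.N; have := h.C0; positivity
  have hp := hS2.p
  generalize a0 t₁ r₀ N₀ = a at *
  generalize Bc C₀ t₁ r₀ N₀ KL = B at *
  refine h1.trans (le_trans ?_ hp)
  have h2 : (1 / 2 : ℝ) ^ F.n ≤ Real.exp (-(Real.log 2 * s ^ (-γ))) := by
    have h21 : (1 / 2 : ℝ) ^ F.n = Real.exp (-(Real.log 2 * F.n)) := by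
      rw [← Real.rpow_natCast, Real.rpow_def_of_pos (by norm_num), one_div, Real.log_inv]
      congr 1
      ring
    rw [h21, Real.exp_le_exp]
    have := mul_le_mul_of_nonneg_left hn.1 (Real.log_nonneg (by norm_num : (1 : ℝ) ≤ 2))
    linarith only [this]
  have hPP : s ^ (-Kc) ≤ (s ^ (-Kc)) ^ 2 := by nlinarith only [hP]
  have h3 : s ^ (-Kc) + (a * F.n + B) * (5 * (s ^ (-Kc)) ^ 2) ≤
      (1 + 10 * a + 5 * B) * s ^ (-(γ + 2 * Kc)) := by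
    have e1 : s ^ (-(γ + 2 * Kc)) = s ^ (-γ) * (s ^ (-Kc)) ^ 2 := by
      rw [rp_sq hs (-Kc) (-(2 * Kc)) (by ring), rp_mul hs _ _ (-(γ + 2 * Kc)) (by ring)]
    rw [e1]
    set p : ℝ := (s ^ (-Kc)) ^ 2 with hpd
    have hp0 : 0 ≤ p := by positivity
    have h31 : s ^ (-Kc) ≤ s ^ (-γ) * p := by
      calc s ^ (-Kc) ≤ 1 * p := by rw [one_mul]; exact hPP
        _ ≤ s ^ (-γ) * p := mul_le_mul_of_nonneg_right hγ hp0
    have h32 : (a * F.n + B) * (5 * p) ≤ (10 * a + 5 * B) * (s ^ (-γ) * p) := by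
      have h321 : a * F.n + B ≤ (2 * a + B) * s ^ (-γ) := by
        have := mul_le_mul_of_nonneg_left hn.2 ha
        have := mul_le_mul_of_nonneg_left hγ hB
        linarith
      calc (a * F.n + B) * (5 * p) ≤ (2 * a + B) * s ^ (-γ) * (5 * p) :=
            mul_le_mul_of_nonneg_right h321 (by positivity)
        _ = _ := by ring
    linarith only [h31, h32]
  calc 3 * Real.exp (3 * B) * (s ^ (-Kc) + (a * F.n + B) * (5 * (s ^ (-Kc)) ^ 2)) *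
      (1 / 2) ^ F.n
      ≤ 3 * Real.exp (3 * B) * ((1 + 10 * a + 5 * B) * s ^ (-(γ + 2 * Kc))) *
        Real.exp (-(Real.log 2 * s ^ (-γ))) := by
        refine mul_le_mul (mul_le_mul_of_nonneg_left h3 (by positivity)) h2 (by positivity) ?_
        positivity
    _ = _ := by ring

end

/-- THE NUMBERS OF THE BLOCK LEMMA, for a given `KL` -/
theorem prn_of (h : Cs c₀ C₀ C κ₀ t₁ cL CL ω₀ r₀ N₀ e c₆ Kc γ) (KL : ℕ) (h1 : 1 ≤ KL)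
    (hK : (1 / (1 + ω₀)) ^ KL ≤ 1 / 4) :
    Small fun s => ∀ (X : Type) [Fintype X] [DecidableEq X] (F : Fl X),
      Pq F κ₀ t₁ cL CL ω₀ r₀ N₀ e c₆ Kc γ KL s → Out F c₀ C₀ C γ s := by
  refine ((sm h).and (sm2 h KL)).mono ?_
  rintro s hs ⟨hS, hS2⟩ X _ _ F hF
  have hs1 := hS.one
  have hk : 0 < F.κv := lt_of_lt_of_le (mul_pos h.k hs) hF.k0
  refine ⟨⟨?_, ?_⟩, ?_, ⟨?_, hz_le h hF hs hS2⟩, ⟨?_, hL_le h hF hs hS2⟩, ⟨?_, ?_⟩,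
    pr_exp h hF hs hK hS hS2⟩
  · calc F.T * C₀ ≤ t₁ * F.κv * C₀ := mul_le_mul_of_nonneg_right hF.Tk h.C0
      _ = (t₁ * C₀) * F.κv := by ring
      _ ≤ 1 * F.κv := mul_le_mul_of_nonneg_right h.tC hk.le
      _ = _ := one_mul _
  · calc 2 * F.r * F.T ≤ 2 * r₀ * (t₁ * F.κv) :=
          mul_le_mul (by have := hF.r1; linarith only [this]) hF.Tk hF.T0.le (by have := h.r; positivity)
      _ = (2 * r₀ * t₁) * F.κv := by ring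
      _ ≤ 1 * F.κv := mul_le_mul_of_nonneg_right h.tr hk.le
      _ = _ := one_mul _
  · rw [hF.dl]
    refine le_trans (mul_le_mul_of_nonneg_right ?_ (by positivity)) hS2.d
    have := hF.N1
    linarith only [this]
  · rw [hF.z]; positivity
  · rw [hF.l0]
    exact Real.one_le_rpow_of_pos_of_le_one_of_nonpos hs hs1 (by have := h.c6; linarith only [this])
  · rw [hF.n]
    exact Nat.one_le_iff_ne_zero.2 (by
      have : 0 < s ^ (-γ) := by positivity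
      exact (Nat.ceil_pos.2 this).ne')
  · rw [hF.nL]
    exact Nat.le_mul_of_pos_left _ (by omega)

/-- THE NUMBERS OF THE BLOCK LEMMA -/
theorem prn (h : Cs c₀ C₀ C κ₀ t₁ cL CL ω₀ r₀ N₀ e c₆ Kc γ) :
    ∃ KL : ℕ, 1 ≤ KL ∧ Small fun s => ∀ (X : Type) [Fintype X] [DecidableEq X] (F : Fl X),
      Pq F κ₀ t₁ cL CL ω₀ r₀ N₀ e c₆ Kc γ KL s → Out F c₀ C₀ C γ s := by
  have hom := h.om
  have hlt : 1 / (1 + ω₀) < 1 := by rw [div_lt_one (by positivity)]; linarith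
  obtain ⟨K, hK⟩ := exists_pow_lt_of_lt_one (show (0 : ℝ) < 1 / 4 by norm_num) hlt
  have hK1 : (1 / (1 + ω₀)) ^ (K + 1) ≤ 1 / 4 := by
    refine le_trans (pow_le_pow_of_le_one (by positivity) hlt.le (Nat.le_succ K)) hK.le
  exact ⟨K + 1, Nat.le_add_left _ _, prn_of h (K + 1) (Nat.le_add_left _ _) hK1⟩

/-- an explicit choice of `KL` -/
theorem KL_le {ω₀ : ℝ} (h : 0 < ω₀) :
    1 ≤ ⌈3 / ω₀⌉₊ ∧ (1 / (1 + ω₀)) ^ ⌈3 / ω₀⌉₊ ≤ 1 / 4 := by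
  have h0 : 0 < 3 / ω₀ := by positivity
  refine ⟨Nat.one_le_iff_ne_zero.2 (Nat.ceil_pos.2 h0).ne', ?_⟩
  set K : ℕ := ⌈3 / ω₀⌉₊ with hK
  have h1 : 3 / ω₀ ≤ K := Nat.le_ceil _
  have h2 : 3 ≤ K * ω₀ := by rwa [div_le_iff₀ h] at h1
  have h3 : 1 + (K : ℝ) * ω₀ ≤ (1 + ω₀) ^ K := one_add_mul_le_pow (by linarith only [h]) K
  rw [one_div, inv_pow, one_div]
  exact inv_anti₀ (by norm_num) (by linarith only [h2, h3])

/-- the bound of the probability in terms of the clock at the start of the super-stage -/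
theorem exp_sg {s sg β γ : ℝ} (hs : 0 < s) (h1 : s ≤ sg) (h2 : sg ≤ 1) (hβ0 : 0 ≤ γ)
    (hβ : β ≤ γ / 2) : Real.exp (-(s ^ (-(γ / 2)))) ≤ Real.exp (-(sg ^ (-β))) := by
  rw [Real.exp_le_exp, neg_le_neg_iff]
  have hsg : 0 < sg := hs.trans_le h1
  calc sg ^ (-β) ≤ sg ^ (-(γ / 2)) :=
        Real.rpow_le_rpow_of_exponent_ge hsg h2 (by linarith)
    _ ≤ s ^ (-(γ / 2)) := Real.rpow_le_rpow_of_nonpos hs h1 (by linarith)

end Pool.Agent.AFL.H17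
end
end -- Pool.Agent.Helper17_AFL.Fin

section -- Pool.Agent.Helper17_AHH.PqZ

/-!
# AND2B: the concrete numbers satisfy the relations `Pq` of the block lemma
-/

set_option autoImplicit false

open scoped BigOperators NNReal

noncomputable section

namespace Pool.Agent.AHH.H17

open Pool.Agent.BED (Tor)
open Pool.Agent.AND2B (Ev)
open Pool.Agent.ANP (Cfg)
open Pool.Agent.AND.Num
open Pool.Agent.AHH.H61
open Pool.Agent.AHH.H67 (Par flOf)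
open Pool.Agent.AFL (Fl)
open Pool.Agent.AFL.H17 (Pq Cs Out rp_mul rp_sq)

variable {d : ℕ}

/-- the constants of the stage -/
def t1f (c : ℝ) (th : ℝ≥0) : ℝ := (1 - (th : ℝ)) / (c / 2 * th)

def k0f (c : ℝ) (th : ℝ≥0) : ℝ := c / 2 * th

def w0f (d : ℕ) (th : ℝ≥0) : ℝ := (1 - (th : ℝ)) / (64 * cpd d)

def Kcf (d : ℕ) (α : ℕ) (C₁ : ℝ) : ℝ := ((α : ℝ) + 1) * |C₁| * d + 1

/-- the bound for `t₁` -/
def T1 (d : ℕ) (C : ℝ) : ℝ :=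
  min (1 / (8 * C)) (Real.log 2 / (3 * (4 * ((2 + cpd d) + 1) * (4 * C) + 32 * (4 * C))))

theorem T1_pos (d : ℕ) {C : ℝ} (hC : 1 ≤ C) : 0 < T1 d C := by
  have h1 := one_le_cpd d
  have h2 : 0 < Real.log 2 := Real.log_pos (by norm_num)
  unfold T1
  refine lt_min (by positivity) (by positivity)

theorem t1f_le {c : ℝ} {th : ℝ≥0} {T : ℝ} (hc : 0 < c) (h0 : 0 ≤ T) (hth : 1 / 2 ≤ th)
    (hT : 1 - c * T / 4 ≤ (th : ℝ)) : t1f c th ≤ T := by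
  have h1 : (1 / 2 : ℝ) ≤ th := by exact_mod_cast hth
  unfold t1f
  rw [div_le_iff₀ (by positivity)]
  have h2 : c * T / 4 ≤ T * (c / 2 * th) := by
    have := mul_le_mul_of_nonneg_left h1 (by positivity : (0 : ℝ) ≤ T * (c / 2))
    linarith only [this]
  linarith only [hT, h2]

/-- the constants are as they should be -/
theorem cs (d : ℕ) {c C Cf : ℝ} (hc : 0 < c) (hC : 1 ≤ C) (hCf : 0 ≤ Cf) {th : ℝ≥0}
    {C₁ : ℝ} {α : ℕ} (hth : 1 / 2 ≤ th) (hth1 : th < 1) (hα : 2 ≤ α)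
    (hT : 1 - c * T1 d C / 4 ≤ (th : ℝ)) :
    Cs (c / 2) (2 * C) Cf (k0f c th) (t1f c th) 1 2 (w0f d th) (4 * C) (2 + cpd d) (1 / 200)
      (kaf α / 4) (Kcf d α C₁) (kaf α / 64) := by
  have h1 : (1 / 2 : ℝ) ≤ th := by exact_mod_cast hth
  have h2 : (th : ℝ) < 1 := by exact_mod_cast hth1
  have hcp := one_le_cpd d
  have hT0 := T1_pos d hC
  have ht := t1f_le hc hT0.le hth hT
  have ht0 : 0 ≤ t1f c th := by unfold t1f; exact div_nonneg (by linarith only [hth1]) (by positivity)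
  have hka := kaf_pos α
  have hka1 := kaf_le hα
  have a1 : t1f c th ≤ 1 / (8 * C) := ht.trans (min_le_left _ _)
  have a2 : t1f c th ≤ Real.log 2 / (3 * (4 * ((2 + cpd d) + 1) * (4 * C) + 32 * (4 * C))) :=
    ht.trans (min_le_right _ _)
  rw [le_div_iff₀ (by positivity)] at a1 a2
  exact
    { c0 := by positivity
      C0 := by positivity
      C := hCf
      k := by unfold k0f; positivity
      t := ht0
      cL := one_pos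
      CL := by norm_num
      om := by unfold w0f; exact div_pos (by linarith only [hth1]) (by positivity)
      r := by positivity
      N := by positivity
      tC := by nlinarith only [hka, hka1, a1]
      tr := by nlinarith only [a1]
      ex := by
        have h3 : 3 * AFL.H17.a0 (t1f c th) (4 * C) (2 + cpd d) ≤ Real.log 2 := by
          unfold AFL.H17.a0
          calc _ = t1f c th * (3 * (4 * ((2 + cpd d) + 1) * (4 * C) + 32 * (4 * C))) := by ring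
            _ ≤ _ := a2
        calc Real.exp (3 * AFL.H17.a0 (t1f c th) (4 * C) (2 + cpd d)) ≤ Real.exp (Real.log 2) :=
              Real.exp_le_exp.2 h3
          _ = 2 := Real.exp_log (by norm_num)
      e0 := by norm_num
      e1 := by norm_num
      c6 := by positivity
      c61 := by linarith only [hka, hka1]
      Kc := by unfold Kcf; positivity
      g := by positivity
      ge := by linarith only [hka, hka1]
      gc := by linarith only }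

/-- the smallness of the clocks which is needed for `Pq` -/
structure SmP (d : ℕ) (α : ℕ) (s : ℝ) : Prop where
  one : s ≤ 1
  vol : (16 : ℝ) ^ d ≤ s ^ (-1 : ℝ)

theorem smP (d α : ℕ) : Small fun s => SmP d α s :=
  ((small_le 1 one_pos).and (small_const ((16 : ℝ) ^ d) 1 one_pos)).mono
    fun _ _ h => ⟨h.1, h.2⟩

section

variable {V : AND2B.Env d} {a c C : ℝ} {n k : ℕ}

/-- the clocks of a super-stage -/
theorem sg_low (hP : V.Pre a) (hn : n ≤ V.N) (hk : V.kk n ≤ k) (hw : (V.w : ℝ) ≤ 1) :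
    (V.cl k : ℝ) ^ ((V.α : ℝ) + 1) ≤ V.sg (n + 1) := by
  have h1 := hP.sc.low n hn
  have h2 : (V.cl k : ℝ) ≤ V.sg n := cl_anti' hP hk
  refine le_trans ?_ h1
  have h3 : V.sg n ^ (V.α + 1) = V.sg n ^ ((V.α : ℝ) + 1) := by
    rw [← Real.rpow_natCast]; push_cast; rfl
  calc (V.cl k : ℝ) ^ ((V.α : ℝ) + 1) ≤ V.sg n ^ ((V.α : ℝ) + 1) :=
        Real.rpow_le_rpow (cl_pos' hP k).le h2 (by positivity)
    _ = V.sg n ^ (V.α + 1) := h3.symm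

/-- the number of sites of a box -/
theorem box_le (hP : V.Pre a) (hn : n ≤ V.N) (hk : V.kk n ≤ k) (hw : (V.w : ℝ) ≤ 1)
    (hS : SmP d V.α (V.cl k)) :
    ((2 : ℝ) ^ (V.l n + 4)) ^ d ≤ (V.cl k : ℝ) ^ (-(Kcf d V.α V.C₁)) := by
  have hs := cl_pos' hP k
  have hsg := sg_pos hP (n + 1)
  have hsg1 : V.sg (n + 1) ≤ 1 := (sg_le hP _).trans hw
  have h1 := hP.sc.lup n hn
  have h2 : V.sg (n + 1) ^ (-V.C₁) ≤ V.sg (n + 1) ^ (-|V.C₁|) :=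
    Real.rpow_le_rpow_of_exponent_ge hsg hsg1 (neg_le_neg (le_abs_self _))
  have h3 : V.sg (n + 1) ^ (-|V.C₁|) ≤ (V.cl k : ℝ) ^ (-(((V.α : ℝ) + 1) * |V.C₁|)) := by
    calc V.sg (n + 1) ^ (-|V.C₁|) ≤ ((V.cl k : ℝ) ^ ((V.α : ℝ) + 1)) ^ (-|V.C₁|) :=
          Real.rpow_le_rpow_of_nonpos (by positivity) (sg_low hP hn hk hw)
            (by have := abs_nonneg V.C₁; linarith only [this])
      _ = _ := by rw [← Real.rpow_mul hs.le]; congr 1; ring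
  have h4 : (2 : ℝ) ^ V.l n ≤ (V.cl k : ℝ) ^ (-(((V.α : ℝ) + 1) * |V.C₁|)) :=
    h1.trans (h2.trans h3)
  have h5 : ((2 : ℝ) ^ (V.l n + 4)) ^ d = (2 ^ V.l n) ^ d * 16 ^ d := by
    rw [pow_add, mul_pow]; norm_num
  rw [h5]
  calc ((2 : ℝ) ^ V.l n) ^ d * 16 ^ d
      ≤ ((V.cl k : ℝ) ^ (-(((V.α : ℝ) + 1) * |V.C₁|))) ^ d * (V.cl k : ℝ) ^ (-1 : ℝ) :=
        mul_le_mul (pow_le_pow_left₀ (by positivity) h4 d) hS.vol (by positivity) (by positivity)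
    _ = _ := by
        rw [← Real.rpow_natCast, ← Real.rpow_mul hs.le]
        refine rp_mul hs _ _ _ ?_
        unfold Kcf
        ring

/-- the relations hold -/
theorem pqF (hP : V.Pre a) (hn : n ≤ V.N) (hk : V.kk n ≤ k) (hw : (V.w : ℝ) ≤ 1)
    (hS : SmP d V.α (V.cl k)) (hc : 0 < c) (hc1 : c ≤ 1 / 2) (hC : 1 ≤ C)
    (T : Cfg (Tor d (2 ^ V.μ))) (b Q Q1 run U Yg : Finset (Tor d (2 ^ V.μ)))
    (hQ1 : (Q1.card : ℝ) ≤ ((2 : ℝ) ^ (V.l n + 4)) ^ d)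
    (hQ : (Q.card : ℝ) ≤ ((2 : ℝ) ^ (V.l n + 4)) ^ d) :
    Pq (flOf (toE V c C) T b Q Q1 run U Yg k (parZ V c C n k)) (k0f c V.th) (t1f c V.th) 1 2
      (w0f d V.th) (4 * C) (2 + cpd d) (1 / 200) (kaf V.α / 4) (Kcf d V.α V.C₁) (kaf V.α / 64)
      ⌈3 / w0f d V.th⌉₊ (V.cl k) := by
  have hs := cl_pos' hP k
  have hs1 := hS.one
  have hsw := cl_le' hP k
  have hw0 := w_pos hP
  have hth := th_pos hP
  have hth0 : (0 : ℝ) < V.th := by exact_mod_cast hth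
  have hth1 : (V.th : ℝ) < 1 := by exact_mod_cast hP.th.2
  have hcp := one_le_cpd d
  have hka := kaf_pos V.α
  have hka1 := kaf_le hP.al
  have hbox := box_le hP hn hk hw hS
  have hsg1 : V.sg n ^ (1 / 400 : ℝ) ≤ 1 :=
    Real.rpow_le_one (sg_pos hP n).le ((sg_le hP n).trans hw) (by norm_num)
  have hsg0 : 0 ≤ V.sg n ^ (1 / 400 : ℝ) := Real.rpow_nonneg (sg_pos hP n).le _
  have hcl : (V.cl (k + 1) : ℝ) = V.th * V.cl k := by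
    rw [cl_succ V k]; push_cast; rfl
  have hw50 : (V.w : ℝ) ^ (1 / 50 : ℝ) ≤ 1 := Real.rpow_le_one hw0.le hw (by norm_num)
  have hw50' : (V.cl k : ℝ) ^ (1 / 50 : ℝ) ≤ (V.w : ℝ) ^ (1 / 50 : ℝ) :=
    Real.rpow_le_rpow hs.le hsw (by norm_num)
  have he1 : (V.cl k : ℝ) ^ (1 / 25 + 4 * kaf V.α) ≤
      ((V.w : ℝ) ^ (1 / 50 : ℝ) * (V.cl k : ℝ) ^ (2 * kaf V.α)) ^ 2 := by
    rw [mul_pow, rp_sq hs (2 * kaf V.α) (4 * kaf V.α) (by ring),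
      ← rp_mul hs (1 / 25) (4 * kaf V.α) _ rfl]
    refine mul_le_mul_of_nonneg_right ?_ (by positivity)
    rw [← rp_sq hs (1 / 50) (1 / 25) (by norm_num)]
    exact pow_le_pow_left₀ (by positivity) hw50' 2
  have hce : (V.cl k : ℝ) ^ (kaf V.α / 4 + (1 / 25 + 4 * kaf V.α)) ≤
      (V.cl k : ℝ) ^ (kaf V.α / 4) *
        ((V.w : ℝ) ^ (1 / 50 : ℝ) * (V.cl k : ℝ) ^ (2 * kaf V.α)) ^ 2 := by
    rw [← rp_mul hs (kaf V.α / 4) (1 / 25 + 4 * kaf V.α) _ rfl]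
    exact mul_le_mul_of_nonneg_left he1 (by positivity)
  refine
    { T0 := ?_, Tk := ?_, k0 := ?_, k1 := ?_, r0 := ?_, r1 := ?_, N0 := ?_, N1 := ?_
      dl := ?_, dy := ?_, L0 := ?_, L1 := ?_, om := ?_, ep := ?_, ep1 := ?_, e1 := ?_, e11 := ?_
      s1 := ?_, s8 := ?_, s3 := ?_, s2n := ?_, s2 := ?_, q1 := ?_, q := ?_, n := ?_, nL := ?_
      z := ?_, l0 := ?_ }
  · show 0 < (1 - (V.th : ℝ)) * V.cl k
    exact mul_pos (by linarith only [hth1]) hs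
  · show (1 - (V.th : ℝ)) * V.cl k ≤ t1f c V.th * (c / 2 * V.cl (k + 1))
    rw [hcl]
    unfold t1f
    refine le_of_eq ?_
    field_simp
  · show k0f c V.th * V.cl k ≤ c / 2 * V.cl (k + 1)
    rw [hcl]
    unfold k0f
    refine le_of_eq ?_
    ring
  · show c / 2 * V.cl (k + 1) ≤ V.cl k
    rw [hcl]
    nlinarith only [mul_pos hth0 hs, hc, hc1, hth1, hcl]
  · show 0 ≤ 4 * C
    linarith only [hC, hka, hka1]
  · exact le_refl (4 * C)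
  · show 0 ≤ 2 + cpd d
    linarith only [hcp, hka, hka1]
  · exact le_refl (2 + cpd d)
  · rfl
  · rfl
  · show 1 * (V.cl k : ℝ) ^ (-(3 / 4 : ℝ)) ≤
      4 * (1 / 4 * (V.cl k : ℝ) ^ (-(3 / 4) : ℝ) * (2 - V.sg n ^ (1 / 400 : ℝ)))
    have h3 : 0 ≤ (V.cl k : ℝ) ^ (-(3 / 4) : ℝ) := by positivity
    nlinarith only [hka, hka1, hsg1, h3]
  · show 4 * (1 / 4 * (V.cl k : ℝ) ^ (-(3 / 4) : ℝ) * (2 - V.sg n ^ (1 / 400 : ℝ))) ≤
      2 * (V.cl k : ℝ) ^ (-(3 / 4 : ℝ))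
    have h3 : 0 ≤ (V.cl k : ℝ) ^ (-(3 / 4) : ℝ) := by positivity
    nlinarith only [hka, hka1, hsg0, h3]
  · exact le_refl _
  · show 0 ≤ (V.cl k : ℝ) ^ kg V
    positivity
  · show (V.cl k : ℝ) ^ kg V ≤ (V.cl k : ℝ) ^ (kaf V.α / 4)
    exact le_refl _
  · show 0 < (V.w : ℝ) ^ (1 / 50 : ℝ) * (V.cl k : ℝ) ^ (2 * ka V)
    positivity
  · show (V.w : ℝ) ^ (1 / 50 : ℝ) * (V.cl k : ℝ) ^ (2 * kaf V.α) ≤ (V.cl k : ℝ) ^ (kaf V.α / 4)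
    calc _ ≤ 1 * (V.cl k : ℝ) ^ (2 * kaf V.α) :=
          mul_le_mul_of_nonneg_right hw50 (by positivity)
      _ = (V.cl k : ℝ) ^ (2 * kaf V.α) := one_mul _
      _ ≤ _ := rpow_anti hs hs1 (by linarith only [hka])
  · exact le_refl _
  · show (V.cl k : ℝ) ^ (1 / 8 : ℝ) ≤ (V.cl k : ℝ) ^ (kaf V.α / 4) *
      ((V.w : ℝ) ^ (1 / 50 : ℝ) * (V.cl k : ℝ) ^ (2 * kaf V.α)) ^ 2
    exact (rpow_anti hs hs1 (by linarith only [hka, hka1])).trans hce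
  · show (V.cl k : ℝ) ^ (10 : ℝ) * (V.cl k : ℝ) ^ (-1 : ℝ) ≤ (V.cl k : ℝ) ^ (kaf V.α / 4) *
      ((V.w : ℝ) ^ (1 / 50 : ℝ) * (V.cl k : ℝ) ^ (2 * kaf V.α)) ^ 2
    rw [rp_mul hs 10 (-1) 9 (by norm_num)]
    exact (rpow_anti hs hs1 (by linarith only [hka, hka1])).trans hce
  · show 0 ≤ (V.cl k : ℝ) ^ (1 / 4 + kg V)
    positivity
  · show (V.cl k : ℝ) ^ (1 / 4 + kg V) ≤ (V.cl k : ℝ) ^ (1 / 4 + kaf V.α / 4)
    exact le_refl _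
  · exact hQ1.trans hbox
  · exact hQ.trans hbox
  · rfl
  · rfl
  · rfl
  · rfl

end

end Pool.Agent.AHH.H17
end
end -- Pool.Agent.Helper17_AHH.PqZ

section -- Pool.Agent.Helper17_AHH.NumZ

/-!
# AND2B: the numbers of the block lemma for the concrete budget, in the form `Ev`

`numZ`: eventually, for all stages, `EOk`, `BNum` and the bound `V.p n` of the probability.
-/

set_option autoImplicit false

open scoped BigOperators NNReal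

noncomputable section

namespace Pool.Agent.AHH.H17

open Pool.Agent.BED (Tor)
open Pool.Agent.AND2B (Ev)
open Pool.Agent.ANP (Cfg)
open Pool.Agent.AND.Num
open Pool.Agent.AHH.H61
open Pool.Agent.AHH.H67 (Par flOf BNum EOk CF one_le_CF)
open Pool.Agent.AFL (Fl)
open Pool.Agent.AFL.H17 (Pq Cs Out rp_mul rp_sq prn_of KL_le exp_sg)

variable {d : ℕ}

/-- all the conditions on small clocks -/
structure SmZ (d : ℕ) (c C Cf : ℝ) (th : ℝ≥0) (C₁ : ℝ) (α : ℕ) (s : ℝ) : Prop where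
  p : SmP d α s
  del : 3 * s ^ (1 / 20 : ℝ) ≤ 1 / 4
  inc : (2 + cpd d) * s ^ (1 / 8 - 1 / 200 : ℝ) ≤ 1 / 4
  out : 1 - c * T1 d C / 4 ≤ (th : ℝ) → ∀ (X : Type) [Fintype X] [DecidableEq X] (F : Fl X),
    Pq F (k0f c th) (t1f c th) 1 2 (w0f d th) (4 * C) (2 + cpd d) (1 / 200) (kaf α / 4)
      (Kcf d α C₁) (kaf α / 64) ⌈3 / w0f d th⌉₊ s → Out F (c / 2) (2 * C) Cf (kaf α / 64) s

theorem smZ (d : ℕ) {c C Cf : ℝ} (hc : 0 < c) (hC : 1 ≤ C) (hCf : 0 ≤ Cf) {th : ℝ≥0}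
    {C₁ : ℝ} {α : ℕ} (hth : 1 / 2 ≤ th) (hth1 : th < 1) (hα : 2 ≤ α) :
    Small fun s => SmZ d c C Cf th C₁ α s := by
  have h1 := smP d α
  have h2 : Small fun s => 3 * s ^ (1 / 20 : ℝ) ≤ 1 / 4 := by
    refine (small_pow' 3 (1 / 4) (1 / 20) 0 (by norm_num) (by norm_num)).mono ?_
    intro s _ hh
    simpa using hh
  have h3 : Small fun s => (2 + cpd d) * s ^ (1 / 8 - 1 / 200 : ℝ) ≤ 1 / 4 := by
    refine (small_pow' (2 + cpd d) (1 / 4) (1 / 8 - 1 / 200) 0 (by norm_num)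
      (by norm_num)).mono ?_
    intro s _ hh
    simpa using hh
  by_cases hT : 1 - c * T1 d C / 4 ≤ (th : ℝ)
  · have hcs := cs d (C₁ := C₁) hc hC hCf hth hth1 hα hT
    obtain ⟨k1, k2⟩ := KL_le hcs.om
    have h4 := prn_of hcs _ k1 k2
    refine (((h1.and h2).and h3).and h4).mono ?_
    rintro s - ⟨⟨⟨a1, a2⟩, a3⟩, a4⟩
    exact ⟨a1, a2, a3, fun _ => a4⟩
  · refine ((h1.and h2).and h3).mono ?_
    rintro s - ⟨⟨a1, a2⟩, a3⟩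
    exact ⟨a1, a2, a3, fun h => absurd h hT⟩

/-- the bound for `e₀` -/
def e0f (c : ℝ) (V : AND2B.Env d) : ℝ :=
  min (1 / (2 * V.L)) (V.sg (V.N + 1) ^ (1 / 8 - 1 / 200 : ℝ) /
    (CF d * V.L ^ 2 / (c / 2 * V.sg (V.N + 1))) ^ 2)

section

variable {V : AND2B.Env d} {a c C Cf : ℝ} {n k : ℕ}

theorem eOk (hG : V.Good a es c C) (hth : 2 / 3 ≤ (V.th : ℝ)) (hc : 0 < c) (hc1 : c ≤ 1 / 2)
    (hC : 1 ≤ C) (k : ℕ) : EOk (toE V c C) k := by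
  have hP := hG.toPre
  refine ⟨⟨hth, by exact_mod_cast hP.th.2⟩, ⟨?_, ?_, ?_⟩, ⟨cl_pos' hP k, ?_⟩, hG.e0⟩
  · show 0 < c / 2
    linarith only [hc]
  · show c / 2 ≤ 1
    linarith only [hc, hc1]
  · show 1 ≤ 2 * C
    linarith only [hc, hc1, hC]
  · show (V.cl (k + 1) : ℝ) = V.th * V.cl k
    rw [cl_succ V k]
    push_cast
    rfl

/-- `BNum` -/
theorem bnum (hG : V.Good a es c C) (hth : 2 / 3 ≤ (V.th : ℝ)) (hc : 0 < c) (hc1 : c ≤ 1 / 2)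
    (hC : 1 ≤ C) (hn : n ≤ V.N) (hk : V.kk n ≤ k) (hk' : k < V.kk (n + 1))
    (hT : 1 - c * T1 d C / 4 ≤ (V.th : ℝ)) (he : V.e₀ ≤ e0f c V)
    (hW : SmZ d c C Cf V.th V.C₁ V.α V.w) (hS : SmZ d c C Cf V.th V.C₁ V.α (V.cl k))
    {rG : ℝ} (hr : rG ≤ 3 * C) : BNum (toE V c C) (bud V) n k rG (parZ V c C n k) := by
  have hP := hG.toPre
  have hs := cl_pos' hP k
  have hs1 := hS.p.one
  have hw := hW.p.one
  have hsw := cl_le' hP k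
  have hw0 := w_pos hP
  have hth' := th_pos hP
  have hth0 : (0 : ℝ) < V.th := by exact_mod_cast hth'
  have hth1 : (V.th : ℝ) < 1 := by exact_mod_cast hP.th.2
  have hcp := one_le_cpd d
  have hka := kaf_pos V.α
  have hka1 := kaf_le hP.al
  have hcl : (V.cl (k + 1) : ℝ) = V.th * V.cl k := by
    rw [cl_succ V k]; push_cast; rfl
  have hk1 : k + 1 ≤ V.kk (V.N + 1) := by
    have h1 : V.kk (n + 1) ≤ V.kk (V.N + 1) := kk_mono hP (by omega)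
    omega
  have hlast : V.sg (V.N + 1) ≤ V.cl (k + 1) := sg_last hP hk1
  have hlast0 : 0 < V.sg (V.N + 1) := sg_pos hP _
  have hcl1 : (V.cl (k + 1) : ℝ) ≤ V.cl k := cl_anti' hP (Nat.le_succ k)
  have hlast2 : V.sg (V.N + 1) ≤ V.cl k := hlast.trans hcl1
  have hsg1 : V.sg n ^ (1 / 400 : ℝ) ≤ 1 :=
    Real.rpow_le_one (sg_pos hP n).le ((sg_le hP n).trans hw) (by norm_num)
  have hsg0 : 0 ≤ V.sg n ^ (1 / 400 : ℝ) := Real.rpow_nonneg (sg_pos hP n).le _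
  have hl0 : 0 < (qq V n k).lam := by
    show 0 < 1 / 4 * (V.cl k : ℝ) ^ (-(3 / 4) : ℝ) * (2 - V.sg n ^ (1 / 400 : ℝ))
    have h3 : 0 < (V.cl k : ℝ) ^ (-(3 / 4) : ℝ) := Real.rpow_pos_of_pos hs _
    exact mul_pos (by positivity) (by linarith only [hka, hka1, hsg1])
  have hL := hP.hL
  have hF := pqF hP hn hk hw hS.p hc hc1 hC (cfg0 V) ∅ ∅ ∅ ∅ ∅ ∅ (by
    rw [Finset.card_empty]; push_cast; positivity) (by
    rw [Finset.card_empty]; push_cast; positivity)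
  have hO := hS.out hT _ _ hF
  have hom : 0 < omg V := div_pos (by linarith only [hth1]) (by positivity)
  have hom1 : omg V ≤ 1 / 2 := by
    unfold omg
    rw [div_le_iff₀ (by positivity)]
    linarith only [hcp, hka, hka1]
  have hw50 : (V.w : ℝ) ^ (1 / 50 : ℝ) ≤ 1 := Real.rpow_le_one hw0.le hw (by norm_num)
  refine
    { κv := ⟨?_, ?_, ?_⟩, inc := ?_, mis := ?_, r := ⟨?_, ?_⟩, lam := ⟨hl0.le, ?_, ?_⟩
      wl := ⟨hL, ?_, ?_⟩, num := ?_, hs3 := ⟨?_, ?_⟩, hTv := hO.hTv, hδ := hO.hδ, hz := hO.hz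
      hL0 := hO.hL0 }
  · show 0 < c / 2 * V.cl (k + 1)
    have := cl_pos' hP (k + 1)
    positivity
  · show c / 2 * V.cl (k + 1) ≤ 1
    nlinarith only [hc1, hs1, hka, hka1, hcl1]
  · exact le_refl _
  · show 0 ≤ (V.cl k : ℝ) ^ (1 / 8 - 1 / 200 : ℝ)
    positivity
  · show (V.cl k : ℝ) ^ (1 / 8 : ℝ) + (V.cl k : ℝ) ^ (1 / 8 - 1 / 200 : ℝ) * cpd d ≤
      (2 + cpd d) * (V.cl k : ℝ) ^ (1 / 8 - 1 / 200 : ℝ)
    have h1 : (V.cl k : ℝ) ^ (1 / 8 : ℝ) ≤ (V.cl k : ℝ) ^ (1 / 8 - 1 / 200 : ℝ) :=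
      rpow_anti hs hs1 (by norm_num)
    have h2 : 0 ≤ (V.cl k : ℝ) ^ (1 / 8 - 1 / 200 : ℝ) := by positivity
    linarith only [h1, h2]
  · show 1 ≤ 4 * C
    linarith only [hC, hka, hka1]
  · show rG + gr V (1 / 20) n k + (V.cl k : ℝ) ^ (1 / 8 - 1 / 200 : ℝ) * cpd d +
      (V.cl k : ℝ) ^ (1 / 8 - 1 / 200 : ℝ) ≤ 4 * C
    have h1 := (gr_bd V hP.th.2.le (p := 1 / 20) (by norm_num) n k).2
    have h2 := hW.del
    have h3 := hS.inc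
    have h4 : 0 ≤ (V.cl k : ℝ) ^ (1 / 8 - 1 / 200 : ℝ) := by positivity
    nlinarith only [hC, hr, hka, hka1, h1, h2, h3, h4]
  · show 0 ≤ (1 - (V.th : ℝ)) / (8 * cpd d)
    exact div_nonneg (by linarith only [hth1]) (by positivity)
  · show (qq V n k).lam * (1 + (1 - (V.th : ℝ)) / (8 * cpd d) * cpd d) ≤ 4 * (qq V n k).lam / 2
    have h1 : (1 - (V.th : ℝ)) / (8 * cpd d) * cpd d = (1 - V.th) / 8 := by
      field_simp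
    rw [h1]
    nlinarith only [hl0]
  · show 2 * V.L * V.e₀ ≤ 1
    have h1 := he.trans (min_le_left _ _)
    rw [le_div_iff₀ (by positivity)] at h1
    linarith only [h1]
  · show V.e₀ * (CF d * V.L ^ 2 / (c / 2 * V.cl (k + 1))) ^ 2 ≤
      (V.cl k : ℝ) ^ (1 / 8 - 1 / 200 : ℝ)
    have hCF := one_le_CF d
    have h1 := he.trans (min_le_right _ _)
    have hpos : 0 < (CF d * V.L ^ 2 / (c / 2 * V.sg (V.N + 1))) ^ 2 := by positivity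
    rw [le_div_iff₀ hpos] at h1
    have h2 : (CF d * V.L ^ 2 / (c / 2 * V.cl (k + 1))) ^ 2 ≤
        (CF d * V.L ^ 2 / (c / 2 * V.sg (V.N + 1))) ^ 2 := by
      have := cl_pos' hP (k + 1)
      refine pow_le_pow_left₀ (by positivity) ?_ 2
      exact div_le_div_of_nonneg_left (by positivity) (by positivity)
        (mul_le_mul_of_nonneg_left hlast (by positivity))
    calc _ ≤ V.e₀ * (CF d * V.L ^ 2 / (c / 2 * V.sg (V.N + 1))) ^ 2 :=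
          mul_le_mul_of_nonneg_left h2 hG.e0.le
      _ ≤ V.sg (V.N + 1) ^ (1 / 8 - 1 / 200 : ℝ) := h1
      _ ≤ _ := Real.rpow_le_rpow hlast0.le hlast2 (by norm_num)
  · refine ⟨?_, ?_, ?_, hom, hom1, ?_, ?_, ?_, ?_, ?_, ?_, ?_, hO.hn.1, hO.hn.2⟩
    · show 0 ≤ 2 + cpd d
      linarith only [hcp, hka, hka1]
    · show 0 < (V.cl k : ℝ) ^ (1 / 8 - 1 / 200 : ℝ)
      positivity
    · show 0 < 4 * (qq V n k).lam
      linarith only [hl0]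
    · show 0 ≤ (V.cl k : ℝ) ^ kg V
      positivity
    · show (V.cl k : ℝ) ^ (kaf V.α / 4) ≤ 1
      exact Real.rpow_le_one hs.le hs1 (by positivity)
    · show 0 ≤ (V.cl k : ℝ) ^ kg V * ((V.w : ℝ) ^ (1 / 50 : ℝ) * (V.cl k : ℝ) ^ (2 * ka V)) ^ 2
      positivity
    · show 0 ≤ (V.cl k : ℝ) ^ (1 / 4 + kg V)
      positivity
    · show 0 < (V.w : ℝ) ^ (1 / 50 : ℝ) * (V.cl k : ℝ) ^ (2 * ka V)
      positivity
    · show (V.w : ℝ) ^ (1 / 50 : ℝ) * (V.cl k : ℝ) ^ (2 * kaf V.α) ≤ 1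
      have h1 : (V.cl k : ℝ) ^ (2 * kaf V.α) ≤ 1 := Real.rpow_le_one hs.le hs1 (by positivity)
      exact mul_le_one₀ hw50 (by positivity) h1
    · show 0 < (V.cl k : ℝ) ^ (1 / 16 - 1 / 200 : ℝ)
      positivity
  · show 0 ≤ (V.cl k : ℝ) ^ (-1 : ℝ)
    positivity
  · show 0 ≤ (V.cl k : ℝ) ^ (10 : ℝ)
    positivity

/-- the bound of the probability -/
theorem prZ (hG : V.Good a es c C) (hc : 0 < c) (hc1 : c ≤ 1 / 2)
    (hC : 1 ≤ C) (hn : n ≤ V.N) (hk : V.kk n ≤ k)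
    (hT : 1 - c * T1 d C / 4 ≤ (V.th : ℝ)) (hβ : V.β ≤ kaf V.α / 128)
    (hW : SmZ d c C Cf V.th V.C₁ V.α V.w) (hS : SmZ d c C Cf V.th V.C₁ V.α (V.cl k))
    (T : Cfg (Tor d (2 ^ V.μ))) (b Q Q1 run U Yg : Finset (Tor d (2 ^ V.μ)))
    (hQ1 : (Q1.card : ℝ) ≤ ((2 : ℝ) ^ (V.l n + 4)) ^ d)
    (hQ : (Q.card : ℝ) ≤ ((2 : ℝ) ^ (V.l n + 4)) ^ d) :
    (flOf (toE V c C) T b Q Q1 run U Yg k (parZ V c C n k)).pr (c / 2) (2 * C) Cf ≤ V.p n := by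
  have hP := hG.toPre
  have hw := hW.p.one
  have hF := pqF hP hn hk hw hS.p hc hc1 hC T b Q Q1 run U Yg hQ1 hQ
  have hO := hS.out hT _ _ hF
  have hka := kaf_pos V.α
  refine hO.pr.trans ?_
  have h1 : V.p n = Real.exp (-(V.sg n ^ (-V.β))) := by
    show AND2B.pf V.w V.th V.kk V.β V.N n = _
    unfold AND2B.pf
    rw [if_pos hn]
  rw [h1]
  exact exp_sg (cl_pos' hP k) (cl_anti' hP hk) ((sg_le hP n).trans hw) (by positivity)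
    (by linarith only [hβ])

end

/-- THE NUMBERS: eventually, for all stages -/
theorem numZ (d : ℕ) {a c C Cf : ℝ} (hc : 0 < c) (hc1 : c ≤ 1 / 2) (hC : 1 ≤ C)
    (hCf : 0 ≤ Cf) : Ev d a es c C fun V => ∀ n k, n ≤ V.N → V.kk n ≤ k → k < V.kk (n + 1) →
      EOk (toE V c C) k ∧
      (∀ rG : ℝ, rG ≤ 3 * C → BNum (toE V c C) (bud V) n k rG (parZ V c C n k)) ∧
      ∀ (T : Cfg (Tor d (2 ^ V.μ))) (b Q Q1 run U Yg : Finset (Tor d (2 ^ V.μ))),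
        (Q1.card : ℝ) ≤ ((2 : ℝ) ^ (V.l n + 4)) ^ d →
        (Q.card : ℝ) ≤ ((2 : ℝ) ^ (V.l n + 4)) ^ d →
        (flOf (toE V c C) T b Q Q1 run U Yg k (parZ V c C n k)).pr (c / 2) (2 * C) Cf ≤
          V.p n := by
  have hT1 := T1_pos d hC
  have h1 : Ev d a es c C fun V => ∀ s : ℝ, 0 < s → s ≤ V.w →
      SmZ d c C Cf V.th V.C₁ V.α s :=
    ev_small (fun th _ C₁ α _ s => SmZ d c C Cf th C₁ α s)
      fun th _ C₁ α _ h1 h2 _ h3 => smZ d hc hC hCf h1 h2 h3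
  have h2 : Ev d a es c C fun V => V.β ≤ kaf V.α / 128 :=
    ev_be (fun _ _ _ α _ => kaf α / 128) fun _ _ _ α _ _ _ _ _ => by
      have := kaf_pos α
      positivity
  have h3 : Ev d a es c C fun V => 1 - c * T1 d C / 4 ≤ (V.th : ℝ) :=
    ev_th (c * T1 d C / 4) (by positivity)
  have h4 : Ev d a es c C fun V => 1 - 1 / 3 ≤ (V.th : ℝ) := ev_th (1 / 3) (by norm_num)
  have h5 : Ev d a es c C fun V => V.e₀ ≤ e0f c V := by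
    refine ev_e0 (fun V => e0f c V) (fun V hV => ?_) fun _ _ _ _ => rfl
    have hCF := one_le_CF d
    have hL := hV.hL
    have hs := sg_pos hV (V.N + 1)
    unfold e0f
    exact lt_min (by positivity) (by positivity)
  refine (((((ev_good.and h1).and h2).and h3).and h4).and h5).imp fun V hV => ?_
  obtain ⟨⟨⟨⟨⟨hG, g1⟩, g2⟩, g3⟩, g4⟩, g5⟩ := hV
  intro n k hn hk hk'
  have hP := hG.toPre
  have hth : 2 / 3 ≤ (V.th : ℝ) := by linarith only [g4]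
  have hW := g1 V.w (w_pos hP) le_rfl
  have hS := g1 (V.cl k) (cl_pos' hP k) (cl_le' hP k)
  exact ⟨eOk hG hth hc hc1 hC k,
    fun rG hr => bnum hG hth hc hc1 hC hn hk hk' g3 g5 hW hS hr,
    fun T b Q Q1 run U Yg hQ1 hQ => prZ hG hc hc1 hC hn hk g3 g2 hW hS T b Q Q1 run U Yg hQ1 hQ⟩

end Pool.Agent.AHH.H17
end
end -- Pool.Agent.Helper17_AHH.NumZ
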