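import Pool.Agent.Helper12_MEB.B153
import Pool.Agent.Helper12_MEB.B163
import Pool.Agent.Helper12_MEB.B165
import Pool.Agent.Helper12_MEB.B172
import Pool.Agent.Helper12_MEB.B173

/-!
# Merged copies (generated) of the modules

* `Pool.Agent.Helper67_AHH.OkT`
* `Pool.Agent.Helper89_FAR.YHf`
* `Pool.Agent.Helper89_FAR.LclF`
* `Pool.Agent.Helper89_FAR.LclZ`
* `Pool.Agent.Helper58_AHH.FloZ`
* `Pool.Agent.Helper22_AHH.FrmZ`
* `Pool.Agent.Helper10_ABY.TSP`
* `Pool.Agent.Helper13_AFJ.LAJ`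
* `Pool.Agent.Helper19_ABY.VGR`
* `Pool.Agent.Helper1_AFJ.NBW`
* `Pool.Agent.Helper6_AFJ.BGJ`
* `Pool.Agent.Helper92_AFJ.BKJ`
* `Pool.Agent.Helper48_AFL.All`
* `Pool.Agent.Helper90_AHH.FlowNZ`
* `Pool.Agent.Helper58_AHH.FloFin`
* `Pool.Agent.Helper22_QDU.H17NumZ`
* `Pool.Agent.Helper22_QDU.H89LclZ`
* `Pool.Agent.Helper22_QDU.H58FloZ`
* `Pool.Agent.Helper22_QDU.H22FrmZ`
* `Pool.Agent.Helper22_QDU.H90FlowNZ`
* `Pool.Agent.Helper22_QDU.H58FloFin`
-/

set_option autoImplicit false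

section -- Pool.Agent.Helper67_AHH.OkT

/-!
# AND2B: the block lemma is applicable, on the dyadic torus (helper67)
-/

set_option autoImplicit false

open scoped BigOperators NNReal ENNReal Matrix

noncomputable section

namespace Pool.Agent.AHH.H67

open Pool.Agent.BED (Tor adj)
open Pool.Agent.LE.QF (BB KK qf)
open Pool.Agent.AND2B
open Pool.Agent.ANP (Cfg Geo Fc)
open Pool.Agent.AFJ (ind LaR EE)
open Pool.Agent.AFL (Fl)
open Pool.Agent.LTG (Fm Bd sT tT qd Box)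
open Pool.Agent.ANR.H89 (GeoF cI OldOk)

/-- the data of the protocol -/
structure GOk {d M : ℕ} (V : Env d M) : Prop where
  th : V.th ≤ 1
  cl : ∀ k, V.cl (k + 1) = V.th * V.cl k
  clp : ∀ k, 0 < V.cl k
  cl1 : V.cl 0 ≤ 1
  kk0 : V.kk 0 = 0
  km : ∀ n, V.kk n < V.kk (n + 1)

theorem GOk.mono {d M : ℕ} {V : Env d M} (h : GOk V) {m n : ℕ} (hmn : m ≤ n) :
    V.kk m ≤ V.kk n := by
  induction n with
  | zero =>
    have : m = 0 := by omega
    rw [this]
  | succ n ih =>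
    rcases Nat.lt_or_ge n m with h1 | h1
    · have : m = n + 1 := by omega
      rw [this]
    · exact (ih h1).trans (h.km n).le

/-- the numbers of the locality -/
structure LNum {d M : ℕ} (V : Env d M) (n k : ℕ) (p : Par) : Prop where
  sum : ∑ i ∈ Finset.range (n + 1), (3 ^ d * V.Dn i : ℝ) / V.Γ.L i ≤ 1 / 4
  cL : 4 * (cI d V.Dn (Finset.range (n + 1)) + 1) ≤ V.Γ.L n
  cρ : ∀ m, n = m + 1 → cI d V.Dn (Finset.range (m + 1)) + 1 / 2 ≤ (V.Γ.ρ m : ℝ) / 2
  L : 4 / (V.c₀ * V.cl (k + 1)) ^ 4 *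
    Real.exp (-(V.c₀ * V.cl (k + 1) / (32 * d) * (2 * V.Γ.L n))) ≤ p.L
  δ : 4 / (V.c₀ * V.cl (k + 1)) *
    Real.exp (-(V.c₀ * V.cl (k + 1) / (32 * d) * (2 * V.Γ.L n))) ≤ p.δ
  old : 0 ≤ p.old ∧ ∀ m, n = m + 1 → 2 / (V.c₀ * V.cl (k + 1)) *
    Real.exp (-(V.c₀ * V.cl (V.kk (m + 1)) / (4 * d) * V.Γ.ρ m)) ≤ p.old

variable {d M : ℕ} [NeZero M]

/-- the invariant for the old nodes in the form of helper89 -/
theorem old_ok {V : Env d M} {m : ℕ} {T : Cfg (Tor d M)} (h1 : Old V (m + 1) T)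
    (h2 : Ded V (m + 1) T) : OldOk V m T := by
  obtain ⟨dd, h3, h4⟩ := h2
  refine ⟨dd, h4, fun x hx y hy => ?_⟩
  rcases h1 m rfl x hx y hy with h5 | h5
  · obtain ⟨j, hj, hy'⟩ := h3 y h5
    exact Or.inl ⟨h5, j, by omega, hy'⟩
  · exact Or.inr h5

/-- LOCALITY -/
theorem lcl {V : Env d M} {bd : Bud} {n k : ℕ} {p : Par} {T₀ T : Cfg (Tor d M)}
    {run₀ run P : Finset (Tor d M)} {B : Tor d M} (hΓ : GeoF V.Γ) (hG : GOk V)
    (hMd : Md V bd n k T₀ run₀ P T run) (hE : EOk V k)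
    (hF : Fc V.Γ V.kk V.cl V.Dn n k P T run) (hL : LNum V n k p) (hB : V.Γ.bl n B = B)
    (hne : (run ∩ V.Γ.blk n B).Nonempty) :
    Lcl V T (run ∩ V.Γ.blk n B) (Q1s V n T B) (Yo V n T) k p := by
  intro T' hmb hoff hon
  have hg : ∀ x ∈ Al T, V.c₀ ≤ gg T x := fun x hx => (md_gau hMd hE x hx).1
  have hc := hE.c₀
  have hk0 : 0 < V.c₀ * (V.cl (k + 1) : ℝ) := mul_pos hc.1 hE.cl'.1
  constructor
  · intro x hx hxQ
    have hxB : 2 * V.Γ.L n < V.Γ.D x B := by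
      by_contra hc'
      exact hxQ (Finset.mem_filter.2 ⟨hx, by omega⟩)
    obtain ⟨h1, h2⟩ := ANR.H89.loc_hf hΓ hG.th hG.cl hG.clp hG.cl1 hE.e₀ hc.1 hc.2.1 hg hF hL.sum
      hL.cL hB hne hmb hoff hon hx hxB
    have h3 : Real.exp (-(V.c₀ * V.cl (k + 1) / (32 * d) * V.Γ.D x B)) ≤
        Real.exp (-(V.c₀ * V.cl (k + 1) / (32 * d) * (2 * V.Γ.L n))) := by
      apply Real.exp_le_exp.2
      have h4 : (2 * V.Γ.L n : ℝ) ≤ V.Γ.D x B := by exact_mod_cast hxB.le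
      have h5 := mul_le_mul_of_nonneg_left h4
        (by positivity : 0 ≤ V.c₀ * (V.cl (k + 1) : ℝ) / (32 * d))
      linarith
    exact ⟨(h1.trans (mul_le_mul_of_nonneg_left h3 (by positivity))).trans hL.L,
      (h2.trans (mul_le_mul_of_nonneg_left h3 (by positivity))).trans hL.δ⟩
  · intro c hc'
    rcases n with _ | m
    · -- no old nodes
      have h1 : Al T \ Yo V 0 T = ∅ := by
        rw [Finset.sdiff_eq_empty_iff_subset]
        intro x hx
        refine Finset.mem_filter.2 ⟨hx, ?_⟩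
        have h2 : V.kk (0 - 1) = 0 := hG.kk0
        rw [h2]
        by_cases hr : x ∈ run
        · have h3 : T.s x ≤ V.cl k := by exact_mod_cast ((fc_run hF hE).1 x hr).2
          exact h3.trans (ANR.H89.cl_anti hG.th hG.cl (Nat.zero_le k))
        · exact ((fc_run hF hE).2.2.2 x hx).2 hr
      rw [h1, Finset.sum_empty]
      exact hL.old.1
    · have h1 : Al T \ Yo V (m + 1) T = (Al T).filter (fun x => V.cl (V.kk m) < T.s x) := by
        ext x
        unfold Yo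
        have h2 : m + 1 - 1 = m := by omega
        rw [h2]
        simp only [Finset.mem_sdiff, Finset.mem_filter, not_and, not_le]
        exact ⟨fun h => ⟨h.1, h.2 h.1⟩, fun h => ⟨h.1, fun _ => h.2⟩⟩
      rw [h1]
      have hkm : V.kk m ≤ k := (hG.mono (Nat.le_succ m)).trans hMd.ctx.2.1
      exact (ANR.H89.hold_hf hΓ hG.th hG.cl hG.clp hG.cl1 hE.e₀ hc.1 hc.2.1 hg hF hkm
        (old_ok hMd.old hMd.ded)
        (by
          refine le_trans ?_ hL.sum
          refine Finset.sum_le_sum_of_subset_of_nonneg (Finset.range_mono (by omega)) ?_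
          intro i _ _
          positivity) (hL.cρ m rfl) hmb hoff hon hc').trans (hL.old.2 m rfl)

end Pool.Agent.AHH.H67

namespace Pool.Agent.AHH.H67

open Pool.Agent.LE.QF (BB KK qf)
open Pool.Agent.AND2B
open Pool.Agent.ANP (Cfg Geo Fc)
open Pool.Agent.LTG (Box Tor)
open Pool.Agent.ANR.H89 (GeoF cI OldOk)

/-- FLO IS APPLICABLE, on the dyadic torus -/
theorem flOf_okT {d μ J N : ℕ} {l r : ℕ → ℕ} (hd : 3 ≤ d) {V : Env d (2 ^ μ)}
    (hΓ : V.Γ = Gt d μ J N l r) (hl : Monotone l) (hG : GOk V) {bd : Bud} {n k J1 J2 : ℕ}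
    (hlμ : l n + 4 ≤ μ) {p : Par} {T₀ T : Cfg (Tor d (2 ^ μ))} {run₀ run P : Finset (Tor d (2 ^ μ))}
    {B : Tor d (2 ^ μ)} (hMd : Md V bd n k T₀ run₀ P T run) (hE : EOk V k)
    (hF : Fc V.Γ V.kk V.cl V.Dn n k P T run) (hN : FNum V bd n k (l n + 4) J1 J2 p) {rG : ℝ}
    (hBn : BNum V bd n k rG p) (hL : LNum V n k p) (hG₀ : ∀ x, ‖V.G₀ x x‖ ≤ rG)
    (hPsi : ∀ x, Psi V.Γ n P x ≤ V.Cp) (hVi : ¬ Viol V.E V.L T) (hB : V.Γ.bl n B = B)
    (hPB : Disjoint P (V.Γ.blk n B)) (hne : (run ∩ V.Γ.blk n B).Nonempty) :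
    (flOf V T (run ∩ V.Γ.blk n B) (Qs T (aB (l n) B) (2 ^ (l n + 3))) (Q1s V n T B) run (run \ P)
      (Yo V n T) k p).Ok V.c₀ V.C₀ := by
  have hΓF : GeoF V.Γ := by rw [hΓ]; exact ANR.H89.geoF_T d μ J N l r hl
  have hD : ∀ x y, V.Γ.D x y = ANP.H61.sd x y := fun x y => by rw [hΓ]; rfl
  have hLn : V.Γ.L n = 2 ^ l n := by rw [hΓ]; rfl
  have hpow : 2 ^ (l n + 4) ≤ 2 ^ μ := Nat.pow_le_pow_right (by norm_num) hlμ
  refine flOf_ok hd hMd hE hF hN hBn hG₀ hPsi hVi (aB (l n) B) hpow _ _ _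
    Finset.inter_subset_left ?_ ?_ ?_ ?_ ?_ (lcl hΓF hG hMd hE hF hL hB hne)
  · rw [Finset.disjoint_left]
    intro x hx hxP
    exact Finset.disjoint_left.1 hPB hxP (Finset.mem_inter.1 hx).2
  · intro x hx
    obtain ⟨hr, hb⟩ := Finset.mem_inter.1 hx
    refine Finset.mem_filter.2 ⟨fc_alv hF hE hr, ?_⟩
    unfold Geo.blk at hb
    have h1 := (Finset.mem_filter.1 hb).2
    have h2 := hΓF.ok.diam n x B (by rw [h1, hB])
    omega
  · intro x hx
    obtain ⟨hA, hDx⟩ := Finset.mem_filter.1 hx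
    refine Finset.mem_filter.2 ⟨hA, ?_⟩
    rw [hD, hLn] at hDx
    exact box_of_D (l n) B x hlμ hDx
  · intro x hx
    obtain ⟨hA, hBx⟩ := Finset.mem_filter.1 hx
    exact ⟨hA, box_mono _ (Nat.pow_le_pow_right (by norm_num) (by omega)) hBx⟩
  · obtain ⟨dd, h1, h2⟩ := hF.dens
    refine den_Z hd l (fun n => 2 ^ r n) J N n (l n + 4) (fun j hj => (hl hj).trans (by omega)) hlμ
      (aB (l n) B) V.Dn dd (fun j B' => ?_) ?_ (Al T) _ (fun x hx => ?_) (l n + 3) (by omega)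
      (fun x hx => (Finset.mem_filter.1 hx).2)
    · have h3 := h2 j B'
      rw [hΓ] at h3
      exact h3
    · have h3 := hL.sum
      refine le_trans (le_of_eq ?_) h3
      refine Finset.sum_congr rfl fun i _ => ?_
      have h4 : V.Γ.L i = 2 ^ l i := by rw [hΓ]; rfl
      rw [h4]
      push_cast
      rfl
    · rw [mem_Al, not_lt] at hx
      exact h1 x (le_antisymm hx zero_le)

end Pool.Agent.AHH.H67
end
end -- Pool.Agent.Helper67_AHH.OkT

section -- Pool.Agent.Helper89_FAR.YHf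

/-!
# FAR: block Y in one block update
-/

set_option autoImplicit false

open scoped BigOperators Matrix NNReal

noncomputable section

namespace Pool.Agent.ANR.H89

open Pool.Agent.ANR
open Pool.Agent.BED (Tor adj ev)
open Pool.Agent.LE.QF (BB KK)
open Pool.Agent.ANP (Cfg Geo Fc)
open Pool.Agent.AND2B (Hr Vef kap net res)
open Pool.Agent.AFJ (ind)
open Pool.Agent.ABY (vir)
open Pool.Agent.AHH (Env Al gg pv pw yy)

variable {d M : ℕ} [NeZero M]

/-- the hypotheses of FAR for block Y: `T'` agrees with `T` off `b`, on `b` the clocks are `c`; the other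
running sites have clocks between `c` and `2 c` -/
theorem yfar_cfg {E e₀ : ℝ} {T T' : Cfg (Tor d M)} {φ : Tor d M → ℝ}
    {b run S : Finset (Tor d M)} {h₀ k₀ β c₀ c : ℝ}
    (hU : Upd (Hr (Vef T) E) (Hr (Vef T') E) (kap e₀ T) (kap e₀ T') φ b (Al T) S h₀ k₀ β)
    (he : 0 ≤ e₀) (hrun : run ⊆ Al T) (hb : b ⊆ run) (hmb : T'.mb = T.mb)
    (hoff : ∀ x, x ∉ b → T'.s x = T.s x) (hon : ∀ x ∈ b, (T'.s x : ℝ) = c)
    (hcl : ∀ x ∈ run, c ≤ T.s x ∧ (T.s x : ℝ) ≤ 2 * c) (hc : 0 ≤ c) (hc₀ : 0 < c₀)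
    (hg : ∀ x ∈ run, c₀ ≤ gg T x)
    (hmis : ∀ x ∈ run, (net E e₀ T x x).im ≤ 3 / 2 * gg T x)
    (hmis' : ∀ x ∈ run, (net E e₀ T' x x).im ≤ 3 / 2 * gg T x) :
    YFar (Hr (Vef T) E) (Hr (Vef T') E) (kap e₀ T) (kap e₀ T') φ b (Al T) S h₀ k₀ β
      (pv T run c) (pv T' run c) (pw T run c) (gg T) run run c₀ where
  upd := hU
  hkk := fun x hx => by
    have h1 := hcl x (hb hx)
    have h2 := hon x hx
    have h3 := (hc₀.trans_le (hg x (hb hx))).le
    have hgx : gg T x = (T.mb x).im := rfl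
    unfold kap
    rw [hmb, h2]
    rw [hgx] at h3
    constructor
    · nlinarith only [mul_le_mul_of_nonneg_right h1.2 h3, he]
    · nlinarith only [mul_le_mul_of_nonneg_right h1.1 h3]
  hc₀ := hc₀
  hR := hrun
  hU := fun x hx => hx
  hFR := hb
  hg := fun a ha => ⟨hg a ha, hmis a ha, hmis' a ha⟩
  hP := by
    refine ⟨fun x => ?_, fun x hx => ?_, fun x hx => ?_⟩
    · unfold pv ind
      split_ifs with h
      · linarith only [(hcl x h).1]
      · simp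
    · unfold pv ind
      rw [if_neg hx, zero_mul]
    · unfold pv ind kap
      rw [if_pos hx, one_mul]
      have h1 := hcl x hx
      have h3 := (hc₀.trans_le (hg x hx)).le
      have hgx : gg T x = (T.mb x).im := rfl
      rw [hgx] at h3 ⊢
      nlinarith only [mul_le_mul_of_nonneg_right h1.2 h3, he]
  hP' := by
    have hcl' : ∀ x ∈ run, c ≤ T'.s x ∧ (T'.s x : ℝ) ≤ 2 * c := fun x hx => by
      by_cases hxb : x ∈ b
      · rw [hon x hxb]; constructor <;> linarith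
      · rw [hoff x hxb]; exact hcl x hx
    refine ⟨fun x => ?_, fun x hx => ?_, fun x hx => ?_⟩
    · unfold pv ind
      split_ifs with h
      · linarith [(hcl' x h).1]
      · simp
    · unfold pv ind
      rw [if_neg hx, zero_mul]
    · unfold pv ind kap
      rw [if_pos hx, one_mul, hmb]
      have h1 := hcl' x hx
      have h3 := (hc₀.trans_le (hg x hx)).le
      have hgx : gg T x = (T.mb x).im := rfl
      rw [hgx] at h3 ⊢
      nlinarith only [mul_le_mul_of_nonneg_right h1.2 h3, he]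
  hPP := by
    refine ⟨fun x hx => ?_, fun x hx => ?_⟩
    · unfold pv; rw [hoff x hx]
    · unfold pv ind kap
      rw [if_pos (hb hx), hon x hx, hmb]
      have h1 := hcl x (hb hx)
      have h3 := (hc₀.trans_le (hg x (hb hx))).le
      have hgx : gg T x = (T.mb x).im := rfl
      rw [hgx] at h3 ⊢
      have h4 : |1 * (c - c) - 1 * ((T.s x : ℝ) - c)| = (T.s x : ℝ) - c := by
        have : 1 * (c - c) - 1 * ((T.s x : ℝ) - c) = -((T.s x : ℝ) - c) := by ring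
        rw [this, abs_neg, abs_of_nonneg (by linarith)]
      rw [h4]
      nlinarith only [mul_le_mul_of_nonneg_right h1.2 h3, he]
  hw := by
    have hk : ∀ x, 0 ≤ kap e₀ T' x := fun x => (hU.n'.pos x).le
    refine ⟨fun x => ?_, fun x => ?_⟩
    · unfold pw ind
      split_ifs with h
      · rw [one_mul]; exact mul_nonneg hc (hc₀.le.trans (hg x h))
      · simp
    · unfold pw ind
      split_ifs with h
      · rw [one_mul]
        have h3 := hc₀.le.trans (hg x h)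
        have hgx : gg T x = (T.mb x).im := rfl
        unfold kap
        rw [hmb]
        rw [hgx] at h3 ⊢
        have h4 : c ≤ T'.s x := by
          by_cases hxb : x ∈ b
          · rw [hon x hxb]
          · rw [hoff x hxb]; exact (hcl x h).1
        nlinarith only [mul_le_mul_of_nonneg_right h4 h3, he]
      · rw [zero_mul]; exact hk x

/-- THE FAR PART OF BLOCK Y (the hypothesis `hfar` of `AHH.H90.inc_yin`, for all running sites):
`W = 800 / (c₀ k₀)`, `β' = β / 6` -/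
theorem yy_far {E e₀ : ℝ} {T T' : Cfg (Tor d M)} {φ : Tor d M → ℝ}
    {b run S : Finset (Tor d M)} {h₀ k₀ β c₀ c : ℝ}
    (hU : Upd (Hr (Vef T) E) (Hr (Vef T') E) (kap e₀ T) (kap e₀ T') φ b (Al T) S h₀ k₀ β)
    (he : 0 ≤ e₀) (hrun : run ⊆ Al T) (hb : b ⊆ run) (hmb : T'.mb = T.mb)
    (hoff : ∀ x, x ∉ b → T'.s x = T.s x) (hon : ∀ x ∈ b, (T'.s x : ℝ) = c)
    (hcl : ∀ x ∈ run, c ≤ T.s x ∧ (T.s x : ℝ) ≤ 2 * c) (hc : 0 ≤ c) (hc₀ : 0 < c₀)
    (hg : ∀ x ∈ run, c₀ ≤ gg T x)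
    (hmis : ∀ x ∈ run, (net E e₀ T x x).im ≤ 3 / 2 * gg T x)
    (hmis' : ∀ x ∈ run, (net E e₀ T' x x).im ≤ 3 / 2 * gg T x) (a : Tor d M) (ha : a ∈ run) :
    |yy E e₀ T' run c a - yy E e₀ T run c a| ≤
      800 / (c₀ * k₀) * Real.exp (-(β / 6 * φ a)) * gg T a := by
  have h := yfar_cfg hU he hrun hb hmb hoff hon hcl hc hc₀ hg hmis hmis'
  obtain ⟨h1, h2⟩ := h.pair ha
  have hpw : pw T' run c = pw T run c := by
    funext x; unfold pw gg; rw [hmb]
  have e1 : net E e₀ T = Gr (Hr (Vef T) E) (kap e₀ T) := rfl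
  have e2 : net E e₀ T' = Gr (Hr (Vef T') E) (kap e₀ T') := rfl
  unfold yy
  rw [hpw, e1, e2]
  have h3 := abs_norm_sub_norm_le
    (vir (BB (Gr (Hr (Vef T') E) (kap e₀ T'))) (pv T' run c) (pw T run c) a)
    (vir (BB (Gr (Hr (Vef T) E) (kap e₀ T))) (pv T run c) (pw T run c) a)
  have h4 := abs_le.1 (h3.trans h1)
  have h5 := abs_le.1 h2
  have e3 : 800 / (c₀ * k₀) * Real.exp (-(β / 6 * φ a)) * gg T a =
      400 / (c₀ * k₀) * (Real.exp (-(β / 6 * φ a)) * gg T a) +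
        400 / (c₀ * k₀) * (Real.exp (-(β / 6 * φ a)) * gg T a) := by ring
  rw [e3, abs_le]
  constructor
  · linarith only [h4.1, h5.1]
  · linarith only [h4.2, h5.2]

end Pool.Agent.ANR.H89
end
end -- Pool.Agent.Helper89_FAR.YHf

section -- Pool.Agent.Helper89_FAR.LclF

/-!
# FAR: locality and block Y in the form of `AHH.H67.Lcl` and `AHH.H90.inc_yin`
-/

set_option autoImplicit false

open scoped BigOperators Matrix NNReal

noncomputable section

namespace Pool.Agent.ANR.H89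

open Pool.Agent.ANR
open Pool.Agent.BED (Tor adj ev)
open Pool.Agent.LE.QF (BB KK)
open Pool.Agent.ANP (Cfg Geo Fc)
open Pool.Agent.AND2B (Hr Vef kap net res)
open Pool.Agent.AHH (Env Al gg pv pw yy Old Ded)

variable {d M : ℕ} [NeZero M]

theorem oldOk {V : Env d M} {m : ℕ} {T : Cfg (Tor d M)} (hO : Old V (m + 1) T)
    (hD : Ded V (m + 1) T) : OldOk V m T := by
  obtain ⟨dd, h1, h2⟩ := hD
  refine ⟨dd, h2, fun x hx y hy => ?_⟩
  rcases hO m rfl x hx y hy with h | h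
  · obtain ⟨j, hj, hyj⟩ := h1 y h
    exact Or.inl ⟨h, j, by omega, hyj⟩
  · exact Or.inr h

/-- LOCALITY (`AHH.H67.Lcl`). The numbers: `e = (c₀ cl (k + 1) / (16 d)) L_n` -/
theorem lcl {V : Env d M} (hΓ : GeoF V.Γ) (hth : V.th ≤ 1)
    (hcl : ∀ k, V.cl (k + 1) = V.th * V.cl k) (hclp : ∀ k, 0 < V.cl k) (hcl1 : V.cl 0 ≤ 1)
    (he : 0 < V.e₀) (hc : 0 < V.c₀) (hc1 : V.c₀ ≤ 1) {n k : ℕ} {P run : Finset (Tor d M)}
    {T : Cfg (Tor d M)} {B : Tor d M} (hg : ∀ x ∈ Al T, V.c₀ ≤ gg T x)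
    (hF : Fc V.Γ V.kk V.cl V.Dn n k P T run) (hkk : V.kk (n - 1) ≤ k) (hk0 : V.kk 0 = 0)
    (hO : Old V n T) (hD : Ded V n T)
    (hsum : ∑ i ∈ Finset.range (n + 1), (3 ^ d * V.Dn i : ℝ) / V.Γ.L i ≤ 1 / 4)
    (hL : 4 * (cI d V.Dn (Finset.range (n + 1)) + 1) ≤ V.Γ.L n)
    (hρ : ∀ m, n = m + 1 → cI d V.Dn (Finset.range (m + 1)) + 1 / 2 ≤ V.Γ.ρ m / 2)
    (hB : V.Γ.bl n B = B) (hne : (run ∩ V.Γ.blk n B).Nonempty) {p : AHH.H67.Par}
    (hpL : 4 / (V.c₀ * V.cl (k + 1)) ^ 4 *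
      Real.exp (-(V.c₀ * V.cl (k + 1) / (16 * d) * V.Γ.L n)) ≤ p.L)
    (hpδ : 4 / (V.c₀ * V.cl (k + 1)) *
      Real.exp (-(V.c₀ * V.cl (k + 1) / (16 * d) * V.Γ.L n)) ≤ p.δ)
    (hp0 : 0 ≤ p.old) (hpo : ∀ m, n = m + 1 → 2 / (V.c₀ * V.cl (k + 1)) *
        Real.exp (-(V.c₀ * V.cl (V.kk (m + 1)) / (4 * d) * V.Γ.ρ m)) ≤ p.old) :
    AHH.H67.Lcl V T (run ∩ V.Γ.blk n B) (AHH.H67.Q1s V n T B) (AHH.H67.Yo V n T) k p := by
  intro T' hmb hoff hon
  have hk1 : 0 < V.c₀ * (V.cl (k + 1) : ℝ) := mul_pos hc (by exact_mod_cast hclp _)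
  refine ⟨fun x hx hxQ => ?_, fun c hcb => ?_⟩
  · have hxB : 2 * V.Γ.L n < V.Γ.D x B := by
      by_contra hcon
      exact hxQ (by
        unfold AHH.H67.Q1s
        rw [Finset.mem_filter]
        exact ⟨hx, not_lt.1 hcon⟩)
    obtain ⟨h1, h2⟩ := loc_hf hΓ hth hcl hclp hcl1 he hc hc1 hg hF hsum hL hB hne hmb hoff hon hx
      hxB
    have h3 : Real.exp (-(V.c₀ * V.cl (k + 1) / (32 * d) * V.Γ.D x B)) ≤
        Real.exp (-(V.c₀ * V.cl (k + 1) / (16 * d) * V.Γ.L n)) := by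
      apply Real.exp_le_exp.2
      have h4 : 2 * (V.Γ.L n : ℝ) ≤ V.Γ.D x B := by exact_mod_cast hxB.le
      have h5 := mul_le_mul_of_nonneg_left h4
        (by positivity : 0 ≤ V.c₀ * (V.cl (k + 1) : ℝ) / (32 * d))
      have h6 : V.c₀ * (V.cl (k + 1) : ℝ) / (32 * d) * (2 * (V.Γ.L n : ℝ)) =
          V.c₀ * V.cl (k + 1) / (16 * d) * V.Γ.L n := by
        rcases Nat.eq_zero_or_pos d with hd | hd
        · subst hd; simp
        · have hd' : (0 : ℝ) < d := by exact_mod_cast hd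
          field_simp; ring
      linarith only [h5, h6]
    exact ⟨(h1.trans (mul_le_mul_of_nonneg_left h3 (by positivity))).trans hpL,
      (h2.trans (mul_le_mul_of_nonneg_left h3 (by positivity))).trans hpδ⟩
  · have hset : Al T \ AHH.H67.Yo V n T = (Al T).filter (fun x => V.cl (V.kk (n - 1)) < T.s x) := by
      ext x
      unfold AHH.H67.Yo
      rw [Finset.mem_sdiff, Finset.mem_filter, Finset.mem_filter]
      constructor
      · rintro ⟨h1, h2⟩
        exact ⟨h1, not_le.1 fun h => h2 ⟨h1, h⟩⟩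
      · rintro ⟨h1, h2⟩
        exact ⟨h1, fun h => absurd h.2 (not_le.2 h2)⟩
    rw [hset]
    rcases Nat.eq_zero_or_pos n with hn | hn
    · subst hn
      have h1 : (Al T).filter (fun x => V.cl (V.kk (0 - 1)) < T.s x) = ∅ := by
        rw [Finset.filter_eq_empty_iff]
        intro x hx
        rw [not_lt]
        show T.s x ≤ V.cl (V.kk 0)
        rw [hk0]
        by_cases hr : x ∈ run
        · rw [hF.runs x hr]
          split
          · exact cl_anti hth hcl (Nat.zero_le _)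
          · exact cl_anti hth hcl (Nat.zero_le _)
        · rcases hF.rest x hr with h | h
          · rw [h]; exact zero_le
          · exact h.2
      rw [h1, Finset.sum_empty]
      exact hp0
    · obtain ⟨m, rfl⟩ : ∃ m, n = m + 1 := ⟨n - 1, by omega⟩
      simp only [Nat.add_sub_cancel] at hkk ⊢
      refine (hold_hf hΓ hth hcl hclp hcl1 he hc hc1 hg hF hkk (oldOk hO hD)
        (le_trans (Finset.sum_le_sum_of_subset_of_nonneg
          (Finset.range_subset_range.2 (Nat.le_succ _)) fun i _ _ => by positivity) hsum)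
        (hρ m rfl) hmb hoff hon hcb).trans (hpo m rfl)

/-- BLOCK Y, far part (the hypothesis `hfar` of `AHH.H90.inc_yin`), `T' = T.hf th b ζ` -/
theorem hfar_hf {V : Env d M} (hth2 : 1 / 2 ≤ V.th)
    (hcl : ∀ k, V.cl (k + 1) = V.th * V.cl k) (hth : V.th ≤ 1)
    (he : 0 < V.e₀) (hc : 0 < V.c₀) {n k : ℕ} {P run : Finset (Tor d M)}
    {T : Cfg (Tor d M)} {B : Tor d M} {ζ φ : Tor d M → ℝ} {S : Finset (Tor d M)} {h₀ k₀ β : ℝ}
    (hU : Upd (Hr (Vef T) V.E) (Hr (Vef (T.hf V.th (run ∩ V.Γ.blk n B) ζ)) V.E) (kap V.e₀ T)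
      (kap V.e₀ (T.hf V.th (run ∩ V.Γ.blk n B) ζ)) φ (run ∩ V.Γ.blk n B) (Al T) S h₀ k₀ β)
    (hrun : run ⊆ Al T) (hg : ∀ x ∈ run, V.c₀ ≤ gg T x)
    (hF : Fc V.Γ V.kk V.cl V.Dn n k P T run) (hbP : Disjoint (run ∩ V.Γ.blk n B) P)
    (hmis : ∀ x ∈ run, ‖net V.E V.e₀ T x x - T.mb x‖ ≤ V.c₀ / 4)
    (hent : ∀ x ∈ run, ‖net V.E V.e₀ (T.hf V.th (run ∩ V.Γ.blk n B) ζ) x x -
      net V.E V.e₀ T x x‖ ≤ V.c₀ / 4) :
    ∀ a ∈ run, |yy V.E V.e₀ (T.hf V.th (run ∩ V.Γ.blk n B) ζ) run (V.cl (k + 1)) a -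
      yy V.E V.e₀ T run (V.cl (k + 1)) a| ≤
        800 / (V.c₀ * k₀) * Real.exp (-(β / 6 * φ a)) * gg T a := by
  intro a ha
  have h2 : V.cl k ≤ 2 * V.cl (k + 1) := by
    rw [hcl, ← mul_assoc]
    calc V.cl k = 1 * V.cl k := (one_mul _).symm
      _ ≤ 2 * V.th * V.cl k := by
        gcongr
        have : (1 : ℝ) ≤ 2 * V.th := by
          have : (1 / 2 : ℝ) ≤ V.th := by exact_mod_cast hth2
          linarith only [hth2]
        exact_mod_cast this
  have h1 : V.cl (k + 1) ≤ V.cl k := cl_anti hth hcl (Nat.le_succ k)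
  have hm : ∀ x ∈ run, (net V.E V.e₀ T x x).im ≤ 3 / 2 * gg T x ∧
      (net V.E V.e₀ (T.hf V.th (run ∩ V.Γ.blk n B) ζ) x x).im ≤ 3 / 2 * gg T x := fun x hx => by
    have e1 := hmis x hx
    have e2 := hent x hx
    have e3 := hg x hx
    have e4 := abs_le.1 ((Complex.abs_im_le_norm _).trans e1)
    have e5 := abs_le.1 ((Complex.abs_im_le_norm _).trans e2)
    rw [Complex.sub_im] at e4 e5
    have e6 : gg T x = (T.mb x).im := rfl
    rw [e6] at e3 ⊢
    constructor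
    · linarith only [e4.2, hc, e3]
    · linarith only [e4.2, e5.2, e3]
  refine yy_far hU he.le hrun Finset.inter_subset_left rfl (fun x hx => ?_) (fun x hx => ?_)
    (fun x hx => ?_) (NNReal.coe_nonneg _) hc hg (fun x hx => (hm x hx).1)
    (fun x hx => (hm x hx).2) a ha
  · show (if x ∈ run ∩ V.Γ.blk n B then V.th * T.s x else T.s x) = T.s x
    rw [if_neg hx]
  · have e1 : (T.hf V.th (run ∩ V.Γ.blk n B) ζ).s x = V.cl (k + 1) := by
      show (if x ∈ run ∩ V.Γ.blk n B then V.th * T.s x else T.s x) = V.cl (k + 1)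
      rw [if_pos hx, hF.runs x (Finset.mem_inter.1 hx).1, if_neg (Finset.disjoint_left.1 hbP hx),
        hcl]
    rw [e1]
  · rw [hF.runs x hx]
    split
    · constructor
      · exact le_rfl
      · have := (V.cl (k + 1)).2
        have e1 : (0 : ℝ) ≤ V.cl (k + 1) := this
        linarith only
    · constructor
      · exact_mod_cast h1
      · exact_mod_cast h2

end Pool.Agent.ANR.H89
end
end -- Pool.Agent.Helper89_FAR.LclF

section -- Pool.Agent.Helper89_FAR.LclZ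

/-!
# FAR: the numbers of the concrete environment
-/

set_option autoImplicit false

open scoped BigOperators Matrix NNReal

noncomputable section

namespace Pool.Agent.ANR.H89

open Pool.Agent.ANR
open Pool.Agent.BED (Tor adj ev)
open Pool.Agent.ANP (Cfg Geo Fc)
open Pool.Agent.AND2B (Ev Gt)
open Pool.Agent.AND.Num
open Pool.Agent.AHH (toE Al gg Old Ded)
open Pool.Agent.AHH.H61

variable {d : ℕ}

/-! ### The numbers of the dead sites -/

theorem sg_th {V : AND2B.Env d} {a : ℝ} (h : V.Pre a) (hw : (V.w : ℝ) ≤ 1) (n : ℕ) :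
    V.sg n ≤ (V.th : ℝ) ^ n := by
  induction n with
  | zero => rw [pow_zero]; exact (sg_le h 0).trans hw
  | succ n ih =>
    rw [pow_succ']
    exact (sg_succ h n).trans (mul_le_mul_of_nonneg_left ih (NNReal.coe_nonneg _))

theorem lvl_le {V : AND2B.Env d} {a : ℝ} (h : V.Pre a) (hw : (V.w : ℝ) ≤ 1) (n : ℕ) :
    (n : ℝ) ≤ 1 / (1 - (V.th : ℝ)) * V.sg n ^ (-(1 : ℝ)) := by
  have hth : (V.th : ℝ) < 1 := by exact_mod_cast h.th.2
  have hth0 : (0 : ℝ) < V.th := by exact_mod_cast th_pos h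
  have hs := sg_pos h n
  have h1 := sg_th h hw n
  -- `n (1 - th) th ^ n ≤ 1`
  have h2 : (n : ℝ) * (1 - V.th) * (V.th : ℝ) ^ n ≤ 1 := by
    have h3 := one_add_mul_le_pow (a := (V.th : ℝ)⁻¹ - 1) (by
      have : (0 : ℝ) < (V.th : ℝ)⁻¹ := inv_pos.2 hth0
      linarith only [hth, hth0, this]) n
    have h4 : 1 + ((V.th : ℝ)⁻¹ - 1) = (V.th : ℝ)⁻¹ := by ring
    rw [h4, inv_pow] at h3
    have h5 : 1 - (V.th : ℝ) ≤ (V.th : ℝ)⁻¹ - 1 := by
      have h6 : 0 ≤ ((V.th : ℝ)⁻¹ - 1) - (1 - V.th) := by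
        have h7 : ((V.th : ℝ)⁻¹ - 1) - (1 - V.th) = (1 - V.th) ^ 2 * (V.th : ℝ)⁻¹ := by
          field_simp
        rw [h7]; positivity
      linarith only [h6]
    have h6 : (n : ℝ) * (1 - V.th) ≤ ((V.th : ℝ) ^ n)⁻¹ := by
      have h7 : (n : ℝ) * (1 - V.th) ≤ n * ((V.th : ℝ)⁻¹ - 1) :=
        mul_le_mul_of_nonneg_left h5 (Nat.cast_nonneg _)
      linarith
    have h7 : 0 < (V.th : ℝ) ^ n := by positivity
    calc (n : ℝ) * (1 - V.th) * (V.th : ℝ) ^ n ≤ ((V.th : ℝ) ^ n)⁻¹ * (V.th : ℝ) ^ n :=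
          mul_le_mul_of_nonneg_right h6 h7.le
      _ = 1 := inv_mul_cancel₀ h7.ne'
  have h8 : 0 < 1 - (V.th : ℝ) := by linarith
  rw [Real.rpow_neg_one, one_div, ← mul_inv, ← one_div, le_div_iff₀ (by positivity)]
  calc (n : ℝ) * ((1 - V.th) * V.sg n) ≤ (n : ℝ) * ((1 - V.th) * (V.th : ℝ) ^ n) := by gcongr
    _ = (n : ℝ) * (1 - V.th) * (V.th : ℝ) ^ n := by ring
    _ ≤ 1 := h2

/-- the number of the dead sites of all levels up to `n` -/
theorem dn_sum {V : AND2B.Env d} {a : ℝ} (h : V.Pre a) (hw : (V.w : ℝ) ≤ 1) {n : ℕ}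
    (hn : n ≤ V.N) :
    1 + ∑ i ∈ Finset.range (n + 1), (3 ^ d * V.Dn i : ℝ) ≤
      (1 + 3 ^ d / (1 - (V.th : ℝ))) * V.sg (n + 1) ^ (-(9 / 4) : ℝ) := by
  have hs := sg_pos h (n + 1)
  have hs1 : V.sg (n + 1) ≤ 1 := (sg_le h _).trans hw
  have hth : (V.th : ℝ) < 1 := by exact_mod_cast h.th.2
  have h1 : ∀ i ∈ Finset.range (n + 1), (3 ^ d * V.Dn i : ℝ) ≤
      3 ^ d * V.sg (n + 1) ^ (-(5 / 4) : ℝ) := fun i hi => by
    have hi' : i ≤ n := by rw [Finset.mem_range] at hi; omega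
    have h2 := h.sc.dl i (hi'.trans hn)
    have h3 : V.sg (n + 1) ≤ V.sg (i + 1) := sg_anti h (by omega)
    have h4 : V.sg (i + 1) ^ (-(5 / 4) : ℝ) ≤ V.sg (n + 1) ^ (-(5 / 4) : ℝ) :=
      Real.rpow_le_rpow_of_nonpos hs h3 (by norm_num)
    exact mul_le_mul_of_nonneg_left (h2.trans h4) (by positivity)
  have h2 := Finset.sum_le_sum h1
  rw [Finset.sum_const, Finset.card_range, nsmul_eq_mul] at h2
  have h3 := lvl_le h hw (n + 1)
  have h4 : (0 : ℝ) < V.sg (n + 1) ^ (-(5 / 4) : ℝ) := Real.rpow_pos_of_pos hs _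
  have h5 : V.sg (n + 1) ^ (-(1 : ℝ)) * V.sg (n + 1) ^ (-(5 / 4) : ℝ) =
      V.sg (n + 1) ^ (-(9 / 4) : ℝ) := by
    rw [← Real.rpow_add hs]; norm_num
  have h6 : (1 : ℝ) ≤ V.sg (n + 1) ^ (-(9 / 4) : ℝ) :=
    Real.one_le_rpow_of_pos_of_le_one_of_nonpos hs hs1 (by norm_num)
  calc 1 + ∑ i ∈ Finset.range (n + 1), (3 ^ d * V.Dn i : ℝ) ≤
      1 + ((n + 1 : ℕ) : ℝ) * (3 ^ d * V.sg (n + 1) ^ (-(5 / 4) : ℝ)) := by linarith only [h2]
    _ ≤ V.sg (n + 1) ^ (-(9 / 4) : ℝ) + 1 / (1 - (V.th : ℝ)) * V.sg (n + 1) ^ (-(1 : ℝ)) *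
        (3 ^ d * V.sg (n + 1) ^ (-(5 / 4) : ℝ)) := by
          refine add_le_add h6 (mul_le_mul_of_nonneg_right h3 (by positivity))
    _ = V.sg (n + 1) ^ (-(9 / 4) : ℝ) + 3 ^ d / (1 - (V.th : ℝ)) *
        (V.sg (n + 1) ^ (-(1 : ℝ)) * V.sg (n + 1) ^ (-(5 / 4) : ℝ)) := by ring
    _ = _ := by rw [h5]; ring

variable {a es c C : ℝ}

/-- `w ≤ 1` -/
theorem ev_w1 : Ev d a es c C fun V => (V.w : ℝ) ≤ 1 := by
  refine Ev.imp (fun V h => ?_) (ev_good.and (ev_small (fun _ _ _ _ _ s => s ≤ 1)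
    fun _ _ _ _ _ _ _ _ _ => small_le 1 one_pos))
  exact h.2 V.w (by exact_mod_cast h.1.w) le_rfl

/-- the number of the dead sites is small against the scales -/
theorem ev_dn (K p : ℝ) (hp : 9 / 4 < p) :
    Ev d a es c C fun V => ∀ n ≤ V.N,
      K * (1 + ∑ i ∈ Finset.range (n + 1), (3 ^ d * V.Dn i : ℝ)) ≤ V.sg (n + 1) ^ (-p) := by
  refine Ev.imp (fun V h => ?_) ((ev_good.and ev_w1).and (ev_small (fun th _ _ _ _ s =>
    max K 0 * (1 + 3 ^ d / (1 - (th : ℝ))) * s ^ (-(9 / 4) : ℝ) ≤ s ^ (-p))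
    fun th c₁ C₁ α J _ _ _ _ => small_pow _ _ _ (by linarith only [hp])))
  obtain ⟨⟨h1, h2⟩, h3⟩ := h
  intro n hn
  have h4 := dn_sum h1.toPre h2 hn
  have h5 := h3 (V.sg (n + 1)) (sg_pos h1.toPre _) (sg_le h1.toPre _)
  refine le_trans ?_ h5
  have h6 : (0 : ℝ) ≤ 1 + ∑ i ∈ Finset.range (n + 1), (3 ^ d * V.Dn i : ℝ) := by positivity
  calc K * (1 + ∑ i ∈ Finset.range (n + 1), (3 ^ d * V.Dn i : ℝ)) ≤
      max K 0 * (1 + ∑ i ∈ Finset.range (n + 1), (3 ^ d * V.Dn i : ℝ)) :=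
        mul_le_mul_of_nonneg_right (le_max_left _ _) h6
    _ ≤ max K 0 * ((1 + 3 ^ d / (1 - (V.th : ℝ))) * V.sg (n + 1) ^ (-(9 / 4) : ℝ)) :=
        mul_le_mul_of_nonneg_left h4 (le_max_right _ _)
    _ = _ := by ring

/-- the constant of the alive distance against the side of the blocks and the radius of the releases -/
theorem ev_cI (K : ℝ) :
    Ev d a es c C fun V => ∀ n ≤ V.N,
      K * (cI d V.Dn (Finset.range (n + 1)) + 1) ≤ V.G.L n ∧
      K * (cI d V.Dn (Finset.range (n + 1)) + 1) ≤ V.G.ρ n := by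
  refine Ev.imp (fun V h => ?_) ((ev_good.and ev_w1).and (ev_dn (2 * K) 3 (by norm_num)))
  obtain ⟨⟨h1, h2⟩, h3⟩ := h
  intro n hn
  have h4 := h3 n hn
  have h5 : K * (cI d V.Dn (Finset.range (n + 1)) + 1) =
      2 * K * (1 + ∑ i ∈ Finset.range (n + 1), (3 ^ d * V.Dn i : ℝ)) := by
    unfold cI; ring
  rw [h5]
  have hs := sg_pos h1.toPre (n + 1)
  have hs1 : V.sg (n + 1) ≤ 1 := (sg_le h1.toPre _).trans h2
  constructor
  · refine h4.trans ?_
    have h6 := h1.sc.llow n hn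
    have h7 : V.sg (n + 1) ^ (-(3 : ℝ)) ≤ V.sg (n + 1) ^ (-(5 : ℝ)) :=
      Real.rpow_le_rpow_of_exponent_ge hs hs1 (by norm_num)
    have h8 : ((V.G.L n : ℕ) : ℝ) = 2 ^ V.l n := by
      show (((2 ^ V.l n : ℕ)) : ℝ) = 2 ^ V.l n
      push_cast; rfl
    rw [h8]
    exact h7.trans h6
  · refine h4.trans ?_
    have h6 := h1.sc.rlow n hn
    have h8 : ((V.G.ρ n : ℕ) : ℝ) = 2 ^ V.r n := by
      show (((2 ^ V.r n : ℕ)) : ℝ) = 2 ^ V.r n
      push_cast; rfl
    rw [h8]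
    exact h6

theorem hsum_G {V : AND2B.Env d} {a : ℝ} (h : V.Pre a) {n : ℕ} (hn : n ≤ V.N + 1) :
    ∑ i ∈ Finset.range (n + 1), (3 ^ d * V.Dn i : ℝ) / V.G.L i ≤ 1 / 4 := by
  have h8 : ∀ i, ((V.G.L i : ℕ) : ℝ) = 2 ^ V.l i := fun i => by
    show (((2 ^ V.l i : ℕ)) : ℝ) = 2 ^ V.l i
    push_cast; rfl
  simp only [h8]
  refine le_trans (Finset.sum_le_sum_of_subset_of_nonneg
    (Finset.range_subset_range.2 (by omega)) fun i _ _ => by positivity) h.sc.ds

/-! ### Locality -/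

/-- LOCALITY FOR THE CONCRETE NUMBERS -/
theorem lclZ (d : ℕ) (hd : 1 ≤ d) (a es c C : ℝ) (hc : 0 < c) (hc1 : c ≤ 2) :
    Ev d a es c C fun V => ∀ n ≤ V.N, ∀ k, V.kk n ≤ k → k < V.kk (n + 1) →
      ∀ (P run : Finset V.X) (T : Cfg V.X) (B : V.X), (∀ x ∈ Al T, c / 2 ≤ gg T x) →
        V.Fc n k P T run → Old (toE V c C) n T → Ded (toE V c C) n T → V.G.bl n B = B →
        (run ∩ V.G.blk n B).Nonempty →
        AHH.H67.Lcl (toE V c C) T (run ∩ V.G.blk n B) (AHH.H67.Q1s (toE V c C) n T B)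
          (AHH.H67.Yo (toE V c C) n T) k (AHH.H17.parZ V c C n k) := by
  have hd' : (1 : ℝ) ≤ d := by exact_mod_cast hd
  have hd0 : (0 : ℝ) < d := by linarith only [hd']
  refine Ev.imp (fun V h => ?_) (((ev_good.and ev_w1).and (ev_cI 4)).and
    (ev_small (fun _ _ _ α _ s =>
      (4 / (c / 2) ^ 4 * s ^ (-(4 : ℝ)) * Real.exp (-((c / 2) / (16 * d) * s ^ (-(4 : ℝ)))) ≤
        s ^ (1 : ℝ) ∧
      4 / (c / 2) * s ^ (-(1 : ℝ)) * Real.exp (-((c / 2) / (16 * d) * s ^ (-(4 : ℝ)))) ≤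
        s ^ (1 : ℝ)) ∧
      2 / (c / 2) * s ^ (-((α : ℝ) + 1)) *
        Real.exp (-((c / 2) / (4 * d) * s ^ (-(2 : ℝ)))) ≤ s ^ (10 * ((α : ℝ) + 1)))
    fun th c₁ C₁ α J _ _ _ _ => ((small_exp_pow _ _ _ _ _ (by positivity) (by norm_num)).and
      (small_exp_pow _ _ _ _ _ (by positivity) (by norm_num))).and
      (small_exp_pow _ _ _ _ _ (by positivity) (by norm_num))))
  obtain ⟨⟨⟨h1, hw1⟩, hcI⟩, hsm⟩ := h
  intro n hn k hk1 hk2 P run T B hg hF hO hD hB hne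
  have hp := h1.toPre
  have hth : V.th ≤ 1 := h1.th.2.le
  have hth0 := th_pos hp
  have hσ := sg_pos hp (n + 1)
  have hσ1 : V.sg (n + 1) ≤ 1 := (sg_le hp _).trans hw1
  have hsm1 := (hsm (V.sg (n + 1)) hσ (sg_le hp _)).1
  have hclk1 : V.sg (n + 1) ≤ V.cl (k + 1) := cl_anti' hp (by omega)
  have hclk : V.sg (n + 1) ≤ V.cl k := cl_anti' hp (by omega)
  have hclk0 : (0 : ℝ) < V.cl (k + 1) := cl_pos' hp _
  have hLn : ((V.G.L n : ℕ) : ℝ) = 2 ^ V.l n := by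
    show (((2 ^ V.l n : ℕ)) : ℝ) = 2 ^ V.l n
    push_cast; rfl
  have hll := h1.sc.llow n hn
  rw [← hLn] at hll
  -- the exponent
  have hexp : Real.exp (-(c / 2 * V.cl (k + 1) / (16 * d) * V.G.L n)) ≤
      Real.exp (-((c / 2) / (16 * d) * V.sg (n + 1) ^ (-(4 : ℝ)))) := by
    apply Real.exp_le_exp.2
    rw [neg_le_neg_iff]
    have e1 : V.sg (n + 1) ^ (-(4 : ℝ)) = V.sg (n + 1) * V.sg (n + 1) ^ (-(5 : ℝ)) := by
      have := Real.rpow_add hσ 1 (-5)
      rw [Real.rpow_one] at this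
      rw [← this]; norm_num
    rw [e1]
    calc c / 2 / (16 * d) * (V.sg (n + 1) * V.sg (n + 1) ^ (-(5 : ℝ))) ≤
        c / 2 / (16 * d) * (V.cl (k + 1) * V.G.L n) := by
          refine mul_le_mul_of_nonneg_left ?_ (by positivity)
          exact mul_le_mul hclk1 hll (Real.rpow_nonneg hσ.le _) hclk0.le
      _ = _ := by ring
  have hinv : ∀ q : ℕ, 1 / (V.cl (k + 1) : ℝ) ^ q ≤ V.sg (n + 1) ^ (-(q : ℝ)) := fun q => by
    rw [Real.rpow_neg hσ.le, Real.rpow_natCast, one_div]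
    exact inv_anti₀ (by positivity) (pow_le_pow_left₀ hσ.le hclk1 q)
  refine lcl (V := toE V c C) (geoF_T d V.μ V.J V.N V.l V.r h1.sc.lm) hth
    (fun k => AHH.cl_succ V k) (fun k => AHH.cl_pos V h1.w hth0 k) ?_ h1.e0 (by
      show 0 < c / 2
      positivity) (by show c / 2 ≤ 1; linarith only [hc1]) hg hF ?_ h1.sc.k0 hO hD
    (hsum_G hp (by omega)) (hcI n hn).1 ?_ hB hne ?_ ?_ ?_ ?_
  · show V.cl 0 ≤ 1
    rw [AHH.cl_zero]
    exact_mod_cast hw1
  · show V.kk (n - 1) ≤ k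
    exact (kk_mono hp (by omega)).trans hk1
  · intro m hm
    have e1 := (hcI m (by omega)).2
    have e2 := cI_pos d V.Dn (Finset.range (m + 1))
    show cI d V.Dn (Finset.range (m + 1)) + 1 / 2 ≤ (V.G.ρ m : ℝ) / 2
    linarith only [e1, e2]
  · -- `L`
    show 4 / (c / 2 * V.cl (k + 1)) ^ 4 * Real.exp (-(c / 2 * V.cl (k + 1) / (16 * d) * V.G.L n)) ≤
      4 * (AHH.qq V n k).lam
    have e1 : (1 : ℝ) ≤ 4 * (AHH.qq V n k).lam := by
      show (1 : ℝ) ≤ 4 * (1 / 4 * (V.cl k : ℝ) ^ (-(3 / 4) : ℝ) * (2 - V.sg n ^ (1 / 400 : ℝ)))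
      have e2 : (1 : ℝ) ≤ (V.cl k : ℝ) ^ (-(3 / 4) : ℝ) :=
        Real.one_le_rpow_of_pos_of_le_one_of_nonpos (cl_pos' hp k)
          ((cl_le' hp k).trans hw1) (by norm_num)
      have e3 : V.sg n ^ (1 / 400 : ℝ) ≤ 1 :=
        Real.rpow_le_one (sg_pos hp n).le ((sg_le hp n).trans hw1) (by norm_num)
      nlinarith only [e2, e3]
    refine le_trans ?_ e1
    have e4 : V.sg (n + 1) ^ (1 : ℝ) ≤ 1 := by rw [Real.rpow_one]; exact hσ1
    refine le_trans ?_ (hsm1.1.trans e4)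
    have e5 := hinv 4
    push_cast at e5
    calc 4 / (c / 2 * V.cl (k + 1)) ^ 4 *
          Real.exp (-(c / 2 * V.cl (k + 1) / (16 * d) * V.G.L n)) =
        4 / (c / 2) ^ 4 * (1 / (V.cl (k + 1) : ℝ) ^ 4) *
          Real.exp (-(c / 2 * V.cl (k + 1) / (16 * d) * V.G.L n)) := by
          rw [mul_pow]; field_simp
      _ ≤ _ := by
          refine mul_le_mul ?_ hexp (Real.exp_pos _).le (by positivity)
          exact mul_le_mul_of_nonneg_left e5 (by positivity)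
  · -- `δ`
    show 4 / (c / 2 * V.cl (k + 1)) * Real.exp (-(c / 2 * V.cl (k + 1) / (16 * d) * V.G.L n)) ≤
      (V.cl k : ℝ) ^ (1 / 8 - 1 / 200 : ℝ)
    have e1 : V.sg (n + 1) ^ (1 : ℝ) ≤ (V.cl k : ℝ) ^ (1 / 8 - 1 / 200 : ℝ) :=
      (Real.rpow_le_rpow_of_exponent_ge hσ hσ1 (by norm_num)).trans
        (Real.rpow_le_rpow hσ.le hclk (by norm_num))
    refine le_trans ?_ (hsm1.2.trans e1)
    have e5 := hinv 1
    push_cast at e5
    rw [pow_one] at e5
    calc 4 / (c / 2 * V.cl (k + 1)) *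
          Real.exp (-(c / 2 * V.cl (k + 1) / (16 * d) * V.G.L n)) =
        4 / (c / 2) * (1 / (V.cl (k + 1) : ℝ)) *
          Real.exp (-(c / 2 * V.cl (k + 1) / (16 * d) * V.G.L n)) := by
          field_simp
      _ ≤ _ := by
          refine mul_le_mul ?_ hexp (Real.exp_pos _).le (by positivity)
          exact mul_le_mul_of_nonneg_left e5 (by positivity)
  · show 0 ≤ (V.cl k : ℝ) ^ (10 : ℝ)
    exact Real.rpow_nonneg (NNReal.coe_nonneg _) _
  · -- the old sites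
    intro m hm
    show 2 / (c / 2 * V.cl (k + 1)) *
      Real.exp (-(c / 2 * V.cl (V.kk (m + 1)) / (4 * d) * V.G.ρ m)) ≤ (V.cl k : ℝ) ^ (10 : ℝ)
    subst hm
    have hy := sg_pos hp (m + 1)
    have hsm2 := (hsm (V.sg (m + 1)) hy (sg_le hp _)).2
    have hlow := h1.sc.low (m + 1) hn
    have hlow' : V.sg (m + 1) ^ ((V.α : ℝ) + 1) ≤ V.sg (m + 1 + 1) := by
      have e1 : V.sg (m + 1) ^ ((V.α : ℝ) + 1) = V.sg (m + 1) ^ (V.α + 1) := by
        rw [← Real.rpow_natCast]; push_cast; rfl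
      rw [e1]; exact hlow
    have hρ : V.sg (m + 1) ^ (-(3 : ℝ)) ≤ V.G.ρ m := by
      have e1 := h1.sc.rlow m (by omega)
      have h8 : ((V.G.ρ m : ℕ) : ℝ) = 2 ^ V.r m := by
        show (((2 ^ V.r m : ℕ)) : ℝ) = 2 ^ V.r m
        push_cast; rfl
      rw [h8]; exact e1
    have e0 : V.sg (m + 1) ^ (10 * ((V.α : ℝ) + 1)) ≤ (V.cl k : ℝ) ^ (10 : ℝ) := by
      have e1 : V.sg (m + 1) ^ (10 * ((V.α : ℝ) + 1)) =
          (V.sg (m + 1) ^ ((V.α : ℝ) + 1)) ^ (10 : ℝ) := by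
        rw [← Real.rpow_mul hy.le]; ring_nf
      rw [e1]
      exact Real.rpow_le_rpow (Real.rpow_nonneg hy.le _) (hlow'.trans hclk) (by norm_num)
    refine le_trans ?_ (hsm2.trans e0)
    have e5 : 1 / (V.cl (k + 1) : ℝ) ≤ V.sg (m + 1) ^ (-((V.α : ℝ) + 1)) := by
      rw [Real.rpow_neg hy.le, one_div]
      exact inv_anti₀ (Real.rpow_pos_of_pos hy _) (hlow'.trans hclk1)
    have e6 : Real.exp (-(c / 2 * V.cl (V.kk (m + 1)) / (4 * d) * V.G.ρ m)) ≤
        Real.exp (-((c / 2) / (4 * d) * V.sg (m + 1) ^ (-(2 : ℝ)))) := by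
      apply Real.exp_le_exp.2
      rw [neg_le_neg_iff]
      have e1 : V.sg (m + 1) ^ (-(2 : ℝ)) = V.sg (m + 1) * V.sg (m + 1) ^ (-(3 : ℝ)) := by
        have := Real.rpow_add hy 1 (-3)
        rw [Real.rpow_one] at this
        rw [← this]; norm_num
      rw [e1]
      have e2 : (V.cl (V.kk (m + 1)) : ℝ) = V.sg (m + 1) := rfl
      rw [e2]
      calc c / 2 / (4 * d) * (V.sg (m + 1) * V.sg (m + 1) ^ (-(3 : ℝ))) ≤
          c / 2 / (4 * d) * (V.sg (m + 1) * V.G.ρ m) := by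
            refine mul_le_mul_of_nonneg_left ?_ (by positivity)
            exact mul_le_mul_of_nonneg_left hρ hy.le
        _ = _ := by ring
    calc 2 / (c / 2 * V.cl (k + 1)) *
          Real.exp (-(c / 2 * V.cl (V.kk (m + 1)) / (4 * d) * V.G.ρ m)) =
        2 / (c / 2) * (1 / (V.cl (k + 1) : ℝ)) *
          Real.exp (-(c / 2 * V.cl (V.kk (m + 1)) / (4 * d) * V.G.ρ m)) := by
          field_simp
      _ ≤ _ := by
          refine mul_le_mul ?_ e6 (Real.exp_pos _).le (by positivity)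
          exact mul_le_mul_of_nonneg_left e5 (by positivity)

end Pool.Agent.ANR.H89
end
end -- Pool.Agent.Helper89_FAR.LclZ

section -- Pool.Agent.Helper58_AHH.FloZ

/-!
# The field `flo` (helper58)

`floF`: the field `flo` for the concrete budget, from the block lemma (`AFL.FloStmt`), the form part of the
increments (`FrmZStmt`) and the numbers of the increments (`FlowNStmt`).
-/

set_option autoImplicit false

open MeasureTheory ProbabilityTheory

open scoped BigOperators NNReal ENNReal Matrix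

noncomputable section

namespace Pool.Agent.AHH.H58

open Pool.Agent.LE.QF (BB KK)
open Pool.Agent.AND2B (net kap Viol Hr Vef Ev Prd)
open Pool.Agent.ANP (Cfg Geo Fc gm)
open Pool.Agent.AFL (Fl)
open Pool.Agent.LTG (Box)
open Pool.Agent.ANR.H89 (GeoF)
open Pool.Agent.AHH.H67 (Par flOf Yo Q1s Qs aB EOk GOk FNum BNum Lcl flOf_ok den_Z box_of_D
  box_mono fc_alv)
open Pool.Agent.AHH.H17 (parZ)

/-- a numeric fact for all stages -/
def StZ (Q : (d : ℕ) → ℝ → ℝ → AND2B.Env d → ℕ → ℕ → Prop) : Prop :=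
  ∀ (d : ℕ) (a c C : ℝ), 3 ≤ d → 0 < a → 0 < c → c ≤ 1 / 2 → 1 ≤ C →
    Ev d a es c C fun V => ∀ n k, n ≤ V.N → V.kk n ≤ k → k < V.kk (n + 1) → Q d c C V n k

/-- the numbers of the increments -/
def FlowNStmt : Prop := StZ fun _ c C V n k => FlowN (toE V c C) (bud V) n k (parZ V c C n k)

/-- the data of the block lemma for the block `B` -/
abbrev flB {d : ℕ} (V : AND2B.Env d) (c C : ℝ) (n k : ℕ) (P : Finset V.X) (T : Cfg V.X)
    (run : Finset V.X) (B : V.X) : Fl V.X :=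
  flOf (toE V c C) T (run ∩ V.G.blk n B) (Qs T (aB (V.l n) B) (2 ^ (V.l n + 3)))
    (Q1s (toE V c C) n T B) run (run \ P) (Yo (toE V c C) n T) k (parZ V c C n k)

/-- the form part -/
def FrmZStmt : Prop := StZ fun _ c C V n k => ∀ (T₀ T : Cfg V.X) (run₀ run P : Finset V.X)
  (B : V.X) (ζ : V.X → ℝ), Md (toE V c C) (bud V) n k T₀ run₀ P T run →
    Fc V.G V.kk V.cl V.Dn n k P T run → V.G.bl n B = B → (run ∩ V.G.blk n B).Nonempty →
    Disjoint P (V.G.blk n B) → (flB V c C n k P T run B).Good (fun x => ζ x) →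
      FrmI (toE V c C) (bud V) n k B T (T.hf V.th (run ∩ V.G.blk n B) ζ)

theorem exp_le_cpd (d : ℕ) : Real.exp 2 ≤ H61.cpd d := by
  unfold H61.cpd
  have hd : (0 : ℝ) < (d : ℝ) + 1 := by positivity
  have h2 : (1 : ℝ) ≤ Real.exp (1 / ((d : ℝ) + 1)) := Real.one_le_exp (by positivity)
  have h3 : Real.exp (-(1 / ((d : ℝ) + 1))) < 1 := by
    rw [Real.exp_lt_one_iff]
    have : 0 < 1 / ((d : ℝ) + 1) := by positivity
    linarith only [this]
  have h4 := Real.exp_pos (-(1 / ((d : ℝ) + 1)))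
  have h5 : (1 : ℝ) ≤ 2 / (1 - Real.exp (-(1 / ((d : ℝ) + 1)))) := by
    rw [le_div_iff₀ (by linarith only [h3])]
    linarith only [h3, h4]
  have h6 : (1 : ℝ) ≤ Real.exp (1 / ((d : ℝ) + 1)) *
      (2 / (1 - Real.exp (-(1 / ((d : ℝ) + 1))))) := by nlinarith only [h2, h5]
  exact le_mul_of_one_le_right (Real.exp_pos 2).le (one_le_pow₀ h6)

/-- plain facts about a good environment -/
theorem eok {d : ℕ} {V : AND2B.Env d} {a c C : ℝ} (hG : V.Good a es c C) (hc : 0 < c)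
    (hc' : c ≤ 1 / 2) (hC : 1 ≤ C) (hth : 2 / 3 ≤ (V.th : ℝ)) (k : ℕ) : EOk (toE V c C) k where
  th := ⟨hth, by exact_mod_cast hG.th.2⟩
  c₀ := ⟨by show 0 < c / 2; linarith only [hc], by show c / 2 ≤ 1; linarith only [hc, hc'], by show 1 ≤ 2 * C; linarith only [hc, hc', hC]⟩
  cl := ⟨H61.cl_pos' hG.toPre k, by
    have h := cl_succ V k
    have h1 : (V.cl (k + 1) : ℝ) = ((V.th * V.cl k : ℝ≥0) : ℝ) := by rw [h]
    rw [NNReal.coe_mul] at h1
    exact h1⟩
  e₀ := hG.e0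

theorem gok {d : ℕ} {V : AND2B.Env d} {a c C : ℝ} (hG : V.Good a es c C)
    (hw : (V.w : ℝ) ≤ 1) : GOk (toE V c C) where
  th := hG.th.2.le
  cl := fun k => cl_succ V k
  clp := fun k => cl_pos V hG.w (H61.th_pos hG.toPre) k
  cl1 := by
    show V.cl 0 ≤ 1
    rw [cl_zero]
    exact_mod_cast hw
  kk0 := hG.sc.k0
  km := hG.sc.km

/-- FLO is applicable, on the dyadic torus (as `H67.flOf_okT`, with the locality as a hypothesis) -/
theorem okL {d μ J N : ℕ} {l r : ℕ → ℕ} (hd : 3 ≤ d) {V : Env d (2 ^ μ)}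
    (hΓ : V.Γ = AND2B.Gt d μ J N l r) (hl : Monotone l) {bd : Bud} {n k J1 J2 : ℕ}
    (hlμ : l n + 4 ≤ μ) {p : Par} {T₀ T : Cfg (LTG.Tor d (2 ^ μ))}
    {run₀ run P : Finset (LTG.Tor d (2 ^ μ))}
    {B : LTG.Tor d (2 ^ μ)} (hMd : Md V bd n k T₀ run₀ P T run) (hE : EOk V k)
    (hF : Fc V.Γ V.kk V.cl V.Dn n k P T run) (hN : FNum V bd n k (l n + 4) J1 J2 p) {rG : ℝ}
    (hBn : BNum V bd n k rG p)
    (hsum : ∑ i ∈ Finset.range (n + 1), (3 ^ d * V.Dn i : ℝ) / V.Γ.L i ≤ 1 / 4)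
    (hloc : Lcl V T (run ∩ V.Γ.blk n B) (Q1s V n T B) (Yo V n T) k p)
    (hG₀ : ∀ x, ‖V.G₀ x x‖ ≤ rG)
    (hPsi : ∀ x, Psi V.Γ n P x ≤ V.Cp) (hVi : ¬ Viol V.E V.L T) (hB : V.Γ.bl n B = B)
    (hPB : Disjoint P (V.Γ.blk n B)) :
    (flOf V T (run ∩ V.Γ.blk n B) (Qs T (aB (l n) B) (2 ^ (l n + 3))) (Q1s V n T B) run (run \ P)
      (Yo V n T) k p).Ok V.c₀ V.C₀ := by
  have hΓF : GeoF V.Γ := by rw [hΓ]; exact ANR.H89.geoF_T d μ J N l r hl
  have hD : ∀ x y, V.Γ.D x y = ANP.H61.sd x y := fun x y => by rw [hΓ]; rfl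
  have hLn : V.Γ.L n = 2 ^ l n := by rw [hΓ]; rfl
  have hpow : 2 ^ (l n + 4) ≤ 2 ^ μ := Nat.pow_le_pow_right (by norm_num) hlμ
  refine flOf_ok hd hMd hE hF hN hBn hG₀ hPsi hVi (aB (l n) B) hpow _ _ _
    Finset.inter_subset_left ?_ ?_ ?_ ?_ ?_ hloc
  · rw [Finset.disjoint_left]
    intro x hx hxP
    exact Finset.disjoint_left.1 hPB hxP (Finset.mem_inter.1 hx).2
  · intro x hx
    obtain ⟨hr, hb⟩ := Finset.mem_inter.1 hx
    refine Finset.mem_filter.2 ⟨fc_alv hF hE hr, ?_⟩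
    unfold Geo.blk at hb
    have h1 := (Finset.mem_filter.1 hb).2
    have h2 := hΓF.ok.diam n x B (by rw [h1, hB])
    omega
  · intro x hx
    obtain ⟨hA, hDx⟩ := Finset.mem_filter.1 hx
    refine Finset.mem_filter.2 ⟨hA, ?_⟩
    rw [hD, hLn] at hDx
    exact box_of_D (l n) B x hlμ hDx
  · intro x hx
    obtain ⟨hA, hBx⟩ := Finset.mem_filter.1 hx
    exact ⟨hA, box_mono _ (Nat.pow_le_pow_right (by norm_num) (by omega)) hBx⟩
  · obtain ⟨dd, h1, h2⟩ := hF.dens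
    refine den_Z hd l (fun n => 2 ^ r n) J N n (l n + 4) (fun j hj => (hl hj).trans (by omega)) hlμ
      (aB (l n) B) V.Dn dd (fun j B' => ?_) ?_ (Al T) _ (fun x hx => ?_) (l n + 3) (by omega)
      (fun x hx => (Finset.mem_filter.1 hx).2)
    · have h3 := h2 j B'
      rw [hΓ] at h3
      exact h3
    · refine le_trans (le_of_eq ?_) hsum
      refine Finset.sum_congr rfl fun i _ => ?_
      have h4 : V.Γ.L i = 2 ^ l i := by rw [hΓ]; rfl
      rw [h4]
      push_cast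
      rfl
    · rw [H67.mem_Al, not_lt] at hx
      exact h1 x (le_antisymm hx zero_le)

/-- THE FIELD FLO -/
theorem floF (hfl : AFL.FloStmt) (h1 : FlowNStmt) (h6 : FrmZStmt) : FloF := by
  intro d a c C hd ha hc hc' hC
  obtain ⟨Cf, hCf, hfl⟩ := hfl (c / 2) (2 * C)
  have e1 := h1 d a c C hd ha hc hc' hC
  have e2 := ANR.H89.lclZ d (by omega) a es c C hc (by linarith only [hc, hc'])
  have e3 := H17.numZ d (a := a) (c := c) (C := C) (Cf := Cf) hc hc' hC (by linarith only [hc, hc', hCf])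
  have e4 := H67.fnum d a c C hd hc hC
  have e6 := h6 d a c C hd ha hc hc' hC
  have e7 := H61.nm d a c C hc hC
  have e9 : Ev d a es c C fun V => ∀ s : ℝ, 0 < s → s ≤ V.w → s ≤ 1 :=
    H61.ev_small (fun _ _ _ _ _ s => s ≤ 1) fun _ _ _ _ _ _ _ _ _ =>
      AND.Num.small_le 1 one_pos
  refine (((((((H61.ev_good.and e1).and e2).and e3).and e4).and e6).and e7).and
    e9).imp fun V hV => ?_
  obtain ⟨⟨⟨⟨⟨⟨⟨hG, e1⟩, e2⟩, e3⟩, e4⟩, e6⟩, e7⟩, e9⟩ := hV
  have hP : V.Pre a := hG.toPre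
  have hw1 : (V.w : ℝ) ≤ 1 := e9 V.w (H61.w_pos hP) le_rfl
  intro n k T₀ run₀ P T run B hn hk hk' hB hdj hV0 hVT hS0 hF0 hF hM
  have hN := e7 n k
  obtain ⟨hE, hBN, hpr⟩ := e3 n k hn hk hk'
  have hGo := gok (c := c) (C := C) hG hw1
  have hcla : Antitone (toE V c C).cl := fun i j hij => cl_anti V hP.th.2.le hij
  have hkk : Monotone (toE V c C).kk := fun i j hij => H61.kk_mono hP hij
  have hPsi : ∀ x, Psi (toE V c C).Γ n (P ∪ V.G.blk n B) x ≤ (toE V c C).Cp := fun x =>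
    H61.Psi_le_Gt d V.μ V.J V.N V.l V.r n _ x
  have hPsi' : ∀ x, Psi (toE V c C).Γ n P x ≤ (toE V c C).Cp := fun x =>
    H61.Psi_le_Gt d V.μ V.J V.N V.l V.r n _ x
  have hM' : Md (toE V c C) (bud V) n k T₀ run₀ P T run := hM
  have hF' : Fc (toE V c C).Γ (toE V c C).kk (toE V c C).cl (toE V c C).Dn n k P T run := hF
  have hu0 : (toE V c C).u₀ < 1 := by
    show 1 - 1 / (2 * C) < 1
    have : 0 < 1 / (2 * C) := by positivity
    linarith only [this]
  show FloB (toE V c C) (bud V) (V.p n) n k T₀ run₀ P T run B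
  rcases Finset.eq_empty_or_nonempty (run ∩ V.G.blk n B) with hb | hb
  · -- no running site
    refine flow_empty hN hB hdj hPsi ?_ hcla hkk hF' hM' (H67.md_al hM' hE) (H67.fc_alv hF' hE)
      hu0 ?_ hb
    · exact exp_le_cpd d
    · show 0 < gr V (ka V / 4) n k
      exact lt_of_lt_of_le (Real.rpow_pos_of_pos (H61.w_pos hP) _)
        (gr_bd V hP.th.2.le (by have := H61.ka_pos (V := V); linarith only [this]) n k).1
  · obtain ⟨J1, J2, hFN⟩ := e4 n k hn hk hk'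
    have hBN' := hBN C (by linarith only [hc, hc', hC])
    have hloc := e2 n hn k hk hk' P run T B (fun x hx => (H67.md_gau hM' hE x hx).1) hF' hM'.old
      hM'.ded hB hb
    have hlμ : V.l n + 4 ≤ V.μ := by
      have h1 := hP.sc.lN
      have h2 := hP.sc.lm hn
      omega
    have hok := okL (l := V.l) (r := V.r) (J := V.J) (N := V.N) hd (V := toE V c C) rfl
      hP.sc.lm hlμ hM' hE hF' hFN hBN' (ANR.H89.hsum_G hP (by omega)) hloc
      (fun x => hG.st.hG x x) hPsi' hVT hB hdj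
    have hcard : ((Qs T (aB (V.l n) B) (2 ^ (V.l n + 3))).card : ℝ) ≤
        ((2 : ℝ) ^ (V.l n + 4)) ^ d := by
      have h1 : (Qs T (aB (V.l n) B) (2 ^ (V.l n + 3))).card ≤
          (Finset.univ.filter fun x => Box (aB (V.l n) B) (2 ^ (V.l n + 4)) x).card := by
        refine Finset.card_le_card fun x hx => ?_
        have h2 := (Finset.mem_filter.1 hx).2
        exact Finset.mem_filter.2 ⟨Finset.mem_univ _,
          H67.box_mono _ (Nat.pow_le_pow_right (by norm_num) (by omega)) h2⟩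
      have h2 := H67.card_Box (2 ^ V.μ) (aB (V.l n) B) (L := 2 ^ (V.l n + 4))
        (Nat.pow_le_pow_right (by norm_num) hlμ)
      have h3 : ((Qs T (aB (V.l n) B) (2 ^ (V.l n + 3))).card : ℝ) ≤
          ((Finset.univ.filter fun x => Box (aB (V.l n) B) (2 ^ (V.l n + 4)) x).card : ℝ) := by
        exact_mod_cast h1
      refine h3.trans (le_of_eq ?_)
      rw [h2]
      push_cast
      rfl
    have hQQ : (Q1s (toE V c C) n T B) ⊆ Qs T (aB (V.l n) B) (2 ^ (V.l n + 3)) := hok.hQ.2.1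
    have hcard1 : ((Q1s (toE V c C) n T B).card : ℝ) ≤ ((2 : ℝ) ^ (V.l n + 4)) ^ d :=
      le_trans (by exact_mod_cast Finset.card_le_card hQQ) hcard
    exact flow hN (ANR.H89.geoF_T d V.μ V.J V.N V.l V.r hP.sc.lm) hE hGo.cl hGo.clp hGo.cl1
      hcla hkk hM' hF' (e1 n k hn hk hk') (mul_nonneg hBN'.num.2.2.2.1.le hBN'.num.2.2.1.le)
      hB hb hdj hPsi hQQ (hfl _ _ hok) (hpr T _ _ _ run _ _ hcard1 hcard)
      (fun ζ hGd => e6 n k hn hk hk' T₀ T run₀ run P B ζ hM' hF' hB hb hdj hGd)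

end Pool.Agent.AHH.H58
end
end -- Pool.Agent.Helper58_AHH.FloZ

section -- Pool.Agent.Helper22_AHH.FrmZ

/-!
# The form part of the field flo, for the concrete numbers
-/

set_option autoImplicit false

open scoped BigOperators NNReal Matrix

noncomputable section

namespace Pool.Agent.AHH.H22

open Pool.Agent.AND2B (Ev)
open Pool.Agent.ANP (Cfg Geo Fc)
open Pool.Agent.ANR.H89 (cI geoF_T ev_w1 ev_cI hsum_G)
open Pool.Agent.AHH.H61

/-- (FLO.frm) -/
theorem frmZ : H58.FrmZStmt := by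
  intro d a c C hd ha hc hc' hC
  have h1 : Ev d a es c C fun V => ∀ s : ℝ, 0 < s → s ≤ V.w → s ≤ 1 ∧
      (∀ (w q r0 : ℝ) (ℓ : ℕ), s ≤ w → w ≤ 1 → s / 2 ≤ q →
      s ^ (-(5 : ℝ)) ≤ ℓ → 8 * r0 ≤ ℓ →
      NumF d (c * w ^ (8 * (1 / 10000) - 1 : ℝ)) (4 * C ^ 3 / w) (1 - 1 / (2 * C))
        (s ^ kaf V.α)
        (2 * (w ^ (1 / 50 : ℝ) * s ^ (2 * kaf V.α))) (w ^ (1 / 50 : ℝ) * s ^ (2 * kaf V.α))
        (uN d C (w ^ (1 / 50 : ℝ) * s ^ (2 * kaf V.α))) (c / 2 * q / (8 * d)) r0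
        (1 / (c / 2 * (c / 2 * q))) (c / 2 * q * (c / 2)) ℓ ((2 * ℓ + 1) ^ d) ∧
      704 * d ≤ c / 2 * q / (8 * d) * ℓ) ∧ 2 * s ^ (5 : ℝ) ≤ 1 * s ^ (0 : ℝ) :=
    ev_small (fun _ _ _ α _ s => s ≤ 1 ∧
      (∀ (w q r0 : ℝ) (ℓ : ℕ), s ≤ w → w ≤ 1 → s / 2 ≤ q →
      s ^ (-(5 : ℝ)) ≤ ℓ → 8 * r0 ≤ ℓ →
      NumF d (c * w ^ (8 * (1 / 10000) - 1 : ℝ)) (4 * C ^ 3 / w) (1 - 1 / (2 * C))
        (s ^ kaf α)
        (2 * (w ^ (1 / 50 : ℝ) * s ^ (2 * kaf α))) (w ^ (1 / 50 : ℝ) * s ^ (2 * kaf α))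
        (uN d C (w ^ (1 / 50 : ℝ) * s ^ (2 * kaf α))) (c / 2 * q / (8 * d)) r0
        (1 / (c / 2 * (c / 2 * q))) (c / 2 * q * (c / 2)) ℓ ((2 * ℓ + 1) ^ d) ∧
      704 * d ≤ c / 2 * q / (8 * d) * ℓ) ∧ 2 * s ^ (5 : ℝ) ≤ 1 * s ^ (0 : ℝ))
      fun th c₁ C₁ α J _ _ _ hα => (AND.Num.small_le 1 one_pos).and
        ((small_num d (by omega) c C (kaf α) hc hc' hC (kaf_pos α) (kaf_le hα)).and
          (AND.Num.small_pow' 2 1 5 0 one_pos (by norm_num)))
  refine (((ev_good.and ev_w1).and (ev_cI 8)).and h1).imp fun V hV => ?_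
  obtain ⟨⟨⟨hG, hw1⟩, hcI⟩, hs⟩ := hV
  have hP : V.Pre a := hG.toPre
  intro n k hn hk1 hk2 T₀ T run₀ run P B ζ hMd hF hB hne hPB hGd
  have hth := hP.th
  have hs0 := cl_pos' hP k
  have hsw := cl_le' hP k
  obtain ⟨hs1, hnum, h5⟩ := hs (V.cl k) hs0 hsw
  -- the side of the blocks
  have hLn : ((V.G.L n : ℕ) : ℝ) = 2 ^ V.l n := by
    show (((2 ^ V.l n : ℕ)) : ℝ) = 2 ^ V.l n
    push_cast
    rfl
  have hL5 : (V.cl k : ℝ) ^ (-(5 : ℝ)) ≤ V.G.L n := by
    rw [hLn]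
    refine le_trans ?_ (hP.sc.llow n hn)
    exact Real.rpow_le_rpow_of_nonpos (sg_pos hP _) (cl_anti' hP hk2.le) (by norm_num)
  have hl1 : 1 ≤ V.l n := by
    by_contra hc0
    have hl0 : V.l n = 0 := by omega
    rw [hLn, hl0, pow_zero] at hL5
    rw [Real.rpow_zero, mul_one] at h5
    have h6 : (V.cl k : ℝ) ^ (-(5 : ℝ)) * (V.cl k : ℝ) ^ (5 : ℝ) = 1 := by
      rw [← Real.rpow_add hs0]
      norm_num
    have h7 := mul_le_mul_of_nonneg_right hL5 (Real.rpow_nonneg hs0.le (5 : ℝ))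
    rw [h6] at h7
    linarith only [hc, hc', h5, h7]
  have hR : 2 * 2 ^ (V.l n - 1) = V.G.L n := by
    show 2 * 2 ^ (V.l n - 1) = 2 ^ V.l n
    rw [← pow_succ']
    congr 1
    omega
  have hq : (V.cl k : ℝ) / 2 ≤ V.cl (k + 1) := by
    have h6 : (V.cl (k + 1) : ℝ) = V.th * V.cl k := by
      rw [cl_succ]
      push_cast
      rfl
    have h7 : (1 / 2 : ℝ) ≤ V.th := by exact_mod_cast hth.1
    rw [h6]
    have h8 := mul_le_mul_of_nonneg_right h7 hs0.le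
    linarith only [h8]
  obtain ⟨hN, h704⟩ := hnum V.w (V.cl (k + 1)) (cI d V.Dn (Finset.range (n + 1)) + 1) (V.G.L n)
    hsw hw1 hq hL5 (hcI n hn).1
  have hth23 : V.th ≤ 1 := hth.2.le
  -- the gauge
  have hg : ∀ x ∈ Al T, c / 2 ≤ gg T x := by
    intro x hx
    have h6 : T.mb = T₀.mb := hMd.mb
    have h7 : x ∈ Al T₀ := by
      rw [H67.mem_Al] at hx ⊢
      rcases hMd.clk x with h8 | ⟨-, -, h8⟩
      · rwa [h8] at hx
      · rcases eq_zero_or_pos (a := T₀.s x) with h0 | h0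
        · rw [h8, h0, mul_zero] at hx
          exact absurd hx (lt_irrefl 0)
        · exact h0
    have h8 := (hMd.st0.gau x h7).1
    show c / 2 ≤ (T.mb x).im
    rw [h6]
    exact h8
  have hlμ : V.l n + 4 ≤ V.μ := by
    have h1 := hP.sc.lN
    have h2 := hP.sc.lm hn
    omega
  refine frm_of (V := toE V c C) (bd := bud V) (p := H17.parZ V c C n k) (P := P) (run := run)
    (m := (V.w : ℝ) ^ (1 / 50 : ℝ) * (V.cl k : ℝ) ^ (2 * ka V))
    (u := uN d C ((V.w : ℝ) ^ (1 / 50 : ℝ) * (V.cl k : ℝ) ^ (2 * ka V)))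
    (R := 2 ^ (V.l n - 1)) (by omega) (geoF_T d V.μ V.J V.N V.l V.r hP.sc.lm)
    (fun x y => rfl) (th_pos hP) hth23 (fun k => cl_succ V k)
    (fun k => cl_pos V hP.w (th_pos hP) k) ?_ hG.e0 ?_ ?_ hg hF hPB
    (hsum_G hP (by omega)) (hcI n hn).1 hB hne hR ?_ h704 hN (fun x hx hxB => ?_) ζ hGd
  · show V.cl 0 ≤ 1
    rw [cl_zero]
    exact_mod_cast hw1
  · show 0 < c / 2
    positivity
  · show c / 2 ≤ 1
    linarith only [hc, hc']
  · show 0 < 2 ^ V.l n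
    positivity
  · exact Finset.mem_filter.2 ⟨hx, H67.box_of_D (V.l n) B x hlμ hxB⟩

end Pool.Agent.AHH.H22
end
end -- Pool.Agent.Helper22_AHH.FrmZ

section -- Pool.Agent.Helper10_ABY.TSP

set_option autoImplicit false

open scoped BigOperators Matrix

noncomputable section

namespace Pool.Agent.ABY.H10

/-- the vector of the values at the indices in `b` -/
def eb {𝕜 : Type} {ι : Type} (b : Finset ι) (x : ι → 𝕜) : EuclideanSpace 𝕜 b :=
  WithLp.toLp 2 fun c : b => x c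

theorem eb_norm {𝕜 : Type} [RCLike 𝕜] {ι : Type} (b : Finset ι) (x : ι → 𝕜) :
    ‖eb b x‖ ^ 2 = ∑ c ∈ b, ‖x c‖ ^ 2 := by
  rw [EuclideanSpace.norm_sq_eq, ← Finset.sum_coe_sort b fun c => ‖x c‖ ^ 2]
  rfl

theorem tt_eq {𝕜 : Type} [RCLike 𝕜] {X : Type} [Fintype X] [DecidableEq X] (M : Matrix X X 𝕜)
    (P : X → ℝ) (hu : IsUnit (1 - M * dg 𝕜 P).det) (h : X → 𝕜) (a : X) :
    (TT M P *ᵥ h) a = h a + ∑ b, M a b * (((P b : ℝ) : 𝕜) * (TT M P *ᵥ h) b) := by
  have h1 : (1 - M * dg 𝕜 P) * TT M P = 1 := Matrix.mul_nonsing_inv _ hu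
  have h2 : (1 - M * dg 𝕜 P) *ᵥ (TT M P *ᵥ h) = h := by
    rw [Matrix.mulVec_mulVec, h1, Matrix.one_mulVec]
  have h3 := congrFun h2 a
  rw [Matrix.sub_mulVec, Matrix.one_mulVec, Pi.sub_apply] at h3
  have h4 : ((M * dg 𝕜 P) *ᵥ (TT M P *ᵥ h)) a =
      ∑ b, M a b * (((P b : ℝ) : 𝕜) * (TT M P *ᵥ h) b) := by
    show ∑ b, (M * dg 𝕜 P) a b * (TT M P *ᵥ h) b = _
    refine Finset.sum_congr rfl fun b _ => ?_
    have h5 : (M * dg 𝕜 P) a b = M a b * ((P b : ℝ) : 𝕜) := by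
      unfold dg
      rw [Matrix.mul_diagonal]
    rw [h5, mul_assoc]
  rw [h4] at h3
  rw [← h3]
  ring

theorem tsp : TspStmt := by
  intro hC hV 𝕜 _ X _ _ M K P g U A ρ h ι b hh V hV0 hb a ha
  obtain ⟨hu, -, -, -, -⟩ := hV hC 𝕜 X M K P g U A ρ h
  obtain ⟨hc, -⟩ := hC 𝕜 X M K P g U A ρ h
  have hρ1 : 0 < 1 - ρ := sub_pos.2 h.hρ.2
  have hF : ∀ x, eb b (fun c => (TT M P *ᵥ hh c) x) = eb b (fun c => hh c x) +
      ∑ y, (M x y * ((P y : ℝ) : 𝕜)) • eb b (fun c => (TT M P *ᵥ hh c) y) := by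
    intro x
    ext c
    rw [PiLp.add_apply, WithLp.ofLp_sum, Finset.sum_apply]
    show (TT M P *ᵥ hh c) x = hh c x + ∑ y, (M x y * ((P y : ℝ) : 𝕜)) * (TT M P *ᵥ hh c) y
    rw [tt_eq M P hu (hh c) x]
    congr 1
    exact Finset.sum_congr rfl fun y _ => by ring
  have hN : ∀ x ∈ A, ‖eb b (fun c => (TT M P *ᵥ hh c) x)‖ -
      ∑ y, K x y * (P y * ‖eb b (fun c => (TT M P *ᵥ hh c) y)‖) ≤ V * g x := by
    intro x hx
    have h1 : ‖eb b (fun c => hh c x)‖ ≤ V * g x := by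
      have h2 : ‖eb b (fun c => hh c x)‖ ^ 2 ≤ (V * g x) ^ 2 := by
        rw [eb_norm]
        exact hb x hx
      exact (sq_le_sq₀ (norm_nonneg _) (mul_nonneg hV0 (h.hg x hx).le)).1 h2
    have h3 : ‖∑ y, (M x y * ((P y : ℝ) : 𝕜)) • eb b (fun c => (TT M P *ᵥ hh c) y)‖ ≤
        ∑ y, K x y * (P y * ‖eb b (fun c => (TT M P *ᵥ hh c) y)‖) := by
      refine (norm_sum_le _ _).trans (Finset.sum_le_sum fun y _ => ?_)
      rw [norm_smul, norm_mul, RCLike.norm_ofReal, abs_of_nonneg (h.hP.1 y), mul_assoc]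
      exact mul_le_mul_of_nonneg_right (h.hM x y) (mul_nonneg (h.hP.1 y) (norm_nonneg _))
    have h4 := norm_add_le (eb b (fun c => hh c x))
      (∑ y, (M x y * ((P y : ℝ) : 𝕜)) • eb b (fun c => (TT M P *ᵥ hh c) y))
    rw [← hF x] at h4
    linarith
  have hle := hc (fun x => ‖eb b (fun c => (TT M P *ᵥ hh c) x)‖) (fun x => V / (1 - ρ) * g x)
    (fun x hx => by
      refine (hN x hx).trans ?_
      have h1 : ∑ y, K x y * (P y * (V / (1 - ρ) * g y)) = V / (1 - ρ) * ∑ y, K x y * P y * g y := by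
        rw [Finset.mul_sum]
        exact Finset.sum_congr rfl fun y _ => by ring
      have h2 := mul_le_mul_of_nonneg_left (h.hK x hx) (div_nonneg hV0 hρ1.le)
      have h3 : V / (1 - ρ) * g x - V / (1 - ρ) * (ρ * g x) = V * g x := by
        field_simp
      rw [h1]
      linarith) a ha
  rw [← eb_norm]
  exact pow_le_pow_left₀ (norm_nonneg _) hle 2

end Pool.Agent.ABY.H10
end
end -- Pool.Agent.Helper10_ABY.TSP

section -- Pool.Agent.Helper13_AFJ.LAJ

/-!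
# Row LAJ of tank AFJ: the jet of the fourth moment
-/

set_option autoImplicit false

open scoped BigOperators Matrix

noncomputable section

namespace Pool.Agent.AFJ.H13

open Pool.Agent.LE.QF Pool.Agent.AFJ

theorem dK_sq {X : Type} [Fintype X] [DecidableEq X] (G : Matrix X X ℂ) (c x y : X) :
    dK G c x y ^ 2 ≤ 4 * (KK G x y * KK G x c * KK G c y) := by
  unfold dK KK
  have h := Complex.abs_re_le_norm ((starRingEnd ℂ) (G x y) * G x c * G c y)
  rw [norm_mul, norm_mul, Complex.norm_conj] at h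
  have h2 : ((starRingEnd ℂ) (G x y) * G x c * G c y).re ^ 2 ≤
      (‖G x y‖ * ‖G x c‖ * ‖G c y‖) ^ 2 := by
    rw [← sq_abs]
    exact pow_le_pow_left₀ (abs_nonneg _) h 2
  calc (-(2 * ((starRingEnd ℂ) (G x y) * G x c * G c y).re)) ^ 2 =
      4 * ((starRingEnd ℂ) (G x y) * G x c * G c y).re ^ 2 := by ring
    _ ≤ 4 * (‖G x y‖ * ‖G x c‖ * ‖G c y‖) ^ 2 := mul_le_mul_of_nonneg_left h2 (by norm_num)
    _ = _ := by ring

theorem laj : LajStmt := by
  intro hJ hB X _ _ b R q Gm kf G κ mb x hBJ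
  obtain ⟨_, hK, _⟩ := hB hJ X b q Gm kf G κ mb hBJ
  obtain ⟨_, _, hadd, _, _, hsum, _, _⟩ := hJ b ℝ q
  have h1 : ∀ y ∈ R, HJ (fun r => KK (Gm r) x y * KK (Gm r) x y) q (KK G x y * KK G x y)
      (fun c : b => KK G x y * dK G (c : X) x y + dK G (c : X) x y * KK G x y)
      (KK G x y * (KK G * Matrix.diagonal (ind b) * KK G + EK G (mub G mb b)) x y +
        (KK G * Matrix.diagonal (ind b) * KK G + EK G (mub G mb b)) x y * KK G x y +
        ∑ c : b, dK G (c : X) x y * dK G (c : X) x y) := by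
    intro y _
    exact (hadd _ _ _ _ _ _ _ _ (hK x y) (hK x y)).2.2
  have h2 := hsum X R (fun y r => KK (Gm r) x y * KK (Gm r) x y) (fun y => KK G x y * KK G x y)
    (fun y => KK G x y * (KK G * Matrix.diagonal (ind b) * KK G + EK G (mub G mb b)) x y +
        (KK G * Matrix.diagonal (ind b) * KK G + EK G (mub G mb b)) x y * KK G x y +
        ∑ c : b, dK G (c : X) x y * dK G (c : X) x y)
    (fun y (c : b) => KK G x y * dK G (c : X) x y + dK G (c : X) x y * KK G x y) h1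
  have hLa : ∀ G' : Matrix X X ℂ, LaR G' R x = ∑ y ∈ R, KK G' x y * KK G' x y := by
    intro G'
    unfold LaR
    exact Finset.sum_congr rfl fun y _ => sq _
  have hF : (fun r => LaR (Gm r) R x) = fun r => ∑ y ∈ R, KK (Gm r) x y * KK (Gm r) x y := by
    funext r
    exact hLa (Gm r)
  have hKn : ∀ u v : X, 0 ≤ KK G u v := fun u v => by unfold KK; positivity
  have hdiag : ∀ y, (KK G * Matrix.diagonal (ind b) * KK G) x y =
      ∑ c ∈ b, KK G x c * KK G c y := by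
    intro y
    rw [Matrix.mul_apply, ← Finset.sum_filter_add_sum_filter_not Finset.univ (fun c => c ∈ b)]
    have e1 : ∑ c ∈ Finset.univ.filter (fun c => ¬ c ∈ b),
        (KK G * Matrix.diagonal (ind b)) x c * KK G c y = 0 := by
      apply Finset.sum_eq_zero
      intro c hc
      rw [Matrix.mul_diagonal]
      unfold ind
      rw [if_neg (Finset.mem_filter.1 hc).2]
      ring
    rw [e1, add_zero]
    have e2 : Finset.univ.filter (fun c => c ∈ b) = b := by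
      ext c
      simp
    rw [e2]
    apply Finset.sum_congr rfl
    intro c hc
    rw [Matrix.mul_diagonal]
    unfold ind
    rw [if_pos hc]
    ring
  refine ⟨fun c : b => ∑ k ∈ R, (KK G x k * dK G (c : X) x k + dK G (c : X) x k * KK G x k),
    ∑ k ∈ R, (KK G x k * (KK G * Matrix.diagonal (ind b) * KK G + EK G (mub G mb b)) x k +
        (KK G * Matrix.diagonal (ind b) * KK G + EK G (mub G mb b)) x k * KK G x k +
        ∑ c : b, dK G (c : X) x k * dK G (c : X) x k), ?_, ?_, ?_⟩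
  · rw [hF, hLa G]
    exact h2
  · have e3 : 6 * (∑ y ∈ R, ∑ c ∈ b, KK G x y * KK G x c * KK G c y) +
        2 * ∑ y ∈ R, KK G x y * EK G (mub G mb b) x y =
        ∑ y ∈ R, (6 * (∑ c ∈ b, KK G x y * KK G x c * KK G c y) +
          2 * (KK G x y * EK G (mub G mb b) x y)) := by
      rw [Finset.sum_add_distrib, Finset.mul_sum, Finset.mul_sum]
    rw [e3]
    apply Finset.sum_le_sum
    intro y _
    have e4 : (KK G * Matrix.diagonal (ind b) * KK G + EK G (mub G mb b)) x y =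
        (∑ c ∈ b, KK G x c * KK G c y) + EK G (mub G mb b) x y := by
      rw [Matrix.add_apply, hdiag y]
    have e5 : ∑ c : b, dK G (c : X) x y * dK G (c : X) x y ≤
        4 * ∑ c ∈ b, KK G x y * KK G x c * KK G c y := by
      rw [Finset.sum_coe_sort b (fun c => dK G c x y * dK G c x y), Finset.mul_sum]
      apply Finset.sum_le_sum
      intro c _
      have := dK_sq G c x y
      rw [sq] at this
      exact this
    have e6 : KK G x y * ∑ c ∈ b, KK G x c * KK G c y =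
        ∑ c ∈ b, KK G x y * KK G x c * KK G c y := by
      rw [Finset.mul_sum]
      exact Finset.sum_congr rfl fun c _ => by ring
    rw [e4]
    have e7 : KK G x y * ((∑ c ∈ b, KK G x c * KK G c y) + EK G (mub G mb b) x y) =
        (∑ c ∈ b, KK G x y * KK G x c * KK G c y) + KK G x y * EK G (mub G mb b) x y := by
      rw [mul_add, e6]
    have e8 : ((∑ c ∈ b, KK G x c * KK G c y) + EK G (mub G mb b) x y) * KK G x y =
        (∑ c ∈ b, KK G x y * KK G x c * KK G c y) + KK G x y * EK G (mub G mb b) x y := by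
      rw [mul_comm, e7]
    rw [e7, e8]
    linarith
  · have k1 : ∀ c ∈ b, (∑ k ∈ R, (KK G x k * dK G c x k + dK G c x k * KK G x k)) ^ 2 ≤
        16 * LaR G R x * ∑ y ∈ R, KK G x y * KK G x c * KK G c y := by
      intro c _
      have k2 : ∑ k ∈ R, (KK G x k * dK G c x k + dK G c x k * KK G x k) =
          2 * ∑ k ∈ R, KK G x k * dK G c x k := by
        rw [Finset.mul_sum]
        exact Finset.sum_congr rfl fun k _ => by ring
      have k3 := Finset.sum_mul_sq_le_sq_mul_sq R (fun k => KK G x k) (fun k => dK G c x k)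
      have k4 : ∑ k ∈ R, dK G c x k ^ 2 ≤ 4 * ∑ y ∈ R, KK G x y * KK G x c * KK G c y := by
        rw [Finset.mul_sum]
        exact Finset.sum_le_sum fun k _ => dK_sq G c x k
      have k5 : 0 ≤ ∑ k ∈ R, KK G x k ^ 2 := Finset.sum_nonneg fun k _ => sq_nonneg _
      have k6 := mul_le_mul_of_nonneg_left k4 k5
      have k7 : LaR G R x = ∑ k ∈ R, KK G x k ^ 2 := rfl
      rw [k2, k7, mul_pow]
      linarith
    have k8 : ∑ c : b, (∑ k ∈ R, (KK G x k * dK G (c : X) x k + dK G (c : X) x k * KK G x k)) ^ 2 =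
        ∑ c ∈ b, (∑ k ∈ R, (KK G x k * dK G c x k + dK G c x k * KK G x k)) ^ 2 :=
      Finset.sum_coe_sort b
        (fun c => (∑ k ∈ R, (KK G x k * dK G c x k + dK G c x k * KK G x k)) ^ 2)
    rw [k8]
    refine le_trans (Finset.sum_le_sum k1) (le_of_eq ?_)
    rw [← Finset.mul_sum, Finset.sum_comm]

end Pool.Agent.AFJ.H13
end
end -- Pool.Agent.Helper13_AFJ.LAJ

section -- Pool.Agent.Helper19_ABY.VGR

/-!
# Block Y of AND2B, row VGR: the gradient of the virtual vector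
-/

set_option autoImplicit false

open scoped BigOperators Matrix

noncomputable section

namespace Pool.Agent.ABY.H19

open Pool.Agent.LE.QF Pool.Agent.AFJ Pool.Agent.ABY

variable {X : Type} [Fintype X] [DecidableEq X] {G : Matrix X X ℂ} {κ P w g : X → ℝ}
  {μ : X → ℂ} {b U R : Finset X} {c₀ C₀ κv μs Λ : ℝ}

omit [DecidableEq X] in
/-- the Ward identity on the diagonal -/
theorem ward (H : Net G κ) (a : X) : ∑ y, κ y * KK G a y = (G a a).im := by
  have h := H.hw a a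
  have h1 : ∀ y, (κ y : ℂ) * (G a y * (starRingEnd ℂ) (G a y)) = ((κ y * KK G a y : ℝ) : ℂ) := by
    intro y
    rw [Complex.mul_conj, Complex.normSq_eq_norm_sq]
    unfold KK
    push_cast
    ring
  rw [Finset.sum_congr rfl fun y _ => h1 y, ← Complex.ofReal_sum] at h
  exact Complex.ofReal_injective h

omit [Fintype X] [DecidableEq X] in
theorem kk_nonneg (a y : X) : 0 ≤ KK G a y := sq_nonneg _

theorem cmp_of (H : YBl G κ P w g μ b U R c₀ C₀ κv μs Λ) {𝕜 : Type} [RCLike 𝕜]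
    (M : Matrix X X 𝕜) (hM : ∀ a y, ‖M a y‖ ≤ KK G a y) : Cmp M (KK G) P g U R (3 / 4) := by
  refine ⟨hM, ⟨H.hP.1, H.hP.2.1⟩, H.hb.2, fun a ha => H.hc.1.trans_le (H.hg a ha).1,
    ⟨by norm_num, by norm_num⟩, ?_⟩
  intro a ha
  have h1 : ∑ y, KK G a y * P y * g y ≤ ∑ y, (1 / 2) * (κ y * KK G a y) := by
    refine Finset.sum_le_sum fun y _ => ?_
    by_cases hy : y ∈ U
    · have h2 := H.hP.2.2 y hy
      have h3 : 0 ≤ KK G a y := kk_nonneg a y
      nlinarith only [h2, h3]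
    · rw [H.hP.2.1 y hy, mul_zero, zero_mul]
      have h3 : 0 ≤ KK G a y := kk_nonneg a y
      have h4 := H.net.hκ y
      positivity
  rw [← Finset.mul_sum, ward H.net a] at h1
  have h5 := (H.hg a ha).2.2
  linarith only [h1, h5]

theorem vir_bound (hV : VexStmt) (hC : CmpStmt) (H : YBl G κ P w g μ b U R c₀ C₀ κv μs Λ)
    {𝕜 : Type} [RCLike 𝕜] (M : Matrix X X 𝕜) (hM : ∀ a y, ‖M a y‖ ≤ KK G a y) (a : X)
    (ha : a ∈ R) : ‖vir M P w a‖ ≤ 6 * g a := by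
  have hc := cmp_of H M hM
  obtain ⟨-, -, -, h4, -⟩ := hV hC 𝕜 X M (KK G) P g U R (3 / 4) hc
  have h5 := h4 (M *ᵥ fun x => ((w x : ℝ) : 𝕜)) (3 / 2) (by norm_num) (fun a ha => by
    rw [Matrix.mulVec, dotProduct]
    calc ‖∑ y, M a y * ((w y : ℝ) : 𝕜)‖ ≤ ∑ y, ‖M a y * ((w y : ℝ) : 𝕜)‖ := norm_sum_le _ _
      _ ≤ ∑ y, κ y * KK G a y := by
          refine Finset.sum_le_sum fun y _ => ?_
          rw [norm_mul, RCLike.norm_ofReal, abs_of_nonneg (H.hw.1 y).1]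
          calc ‖M a y‖ * w y ≤ KK G a y * κ y :=
                mul_le_mul (hM a y) (H.hw.1 y).2 (H.hw.1 y).1 (kk_nonneg a y)
            _ = κ y * KK G a y := mul_comm _ _
      _ = (G a a).im := ward H.net a
      _ ≤ 3 / 2 * g a := (H.hg a ha).2.2) a ha
  have h6 : vir M P w a = (TT M P *ᵥ (M *ᵥ fun x => ((w x : ℝ) : 𝕜))) a := rfl
  rw [h6]
  refine h5.trans (le_of_eq ?_)
  ring

theorem psi_bound (hV : VexStmt) (hC : CmpStmt) (H : YBl G κ P w g μ b U R c₀ C₀ κv μs Λ)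
    {𝕜 : Type} [RCLike 𝕜] (M : Matrix X X 𝕜) (hM : ∀ a y, ‖M a y‖ ≤ KK G a y) (y : X) :
    ‖psi P w (vir M P w) y‖ ≤ 4 * κ y := by
  unfold psi
  have hw := H.hw.1 y
  have hP := H.hP.1 y
  have h1 : ‖((w y : ℝ) : 𝕜) + ((P y : ℝ) : 𝕜) * vir M P w y‖ ≤ w y + P y * ‖vir M P w y‖ := by
    refine (norm_add_le _ _).trans ?_
    rw [norm_mul, RCLike.norm_ofReal, RCLike.norm_ofReal, abs_of_nonneg hw.1, abs_of_nonneg hP]
  refine h1.trans ?_
  by_cases hy : y ∈ U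
  · have h2 := vir_bound hV hC H M hM y (H.hb.2 hy)
    have h3 := mul_le_mul_of_nonneg_left h2 hP
    have h4 := H.hP.2.2 y hy
    linarith only [hw.2, h3, h4]
  · rw [H.hP.2.1 y hy, zero_mul, add_zero]
    have := H.net.hκ y
    linarith only [hw.2, this]

/-- the main estimate -/
theorem main (H : YBl G κ P w g μ b U R c₀ C₀ κv μs Λ) (z : X) (hz : z ∈ R) (ψ p : X → ℂ)
    (hψ : ∀ y, ‖ψ y‖ ≤ 4 * κ y) (hp : ∀ y, ‖p y‖ ^ 2 = KK G z y) :
    ∑ c ∈ b, ‖G z c‖ ^ 2 * ‖∑ y, G c y * (ψ y * p y)‖ ^ 2 ≤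
      30 * C₀ ^ 2 * Real.sqrt (Λ / κv) := by
  obtain ⟨hc0, hc01, hC0, hκv, hκv1, hμs, hΛ0⟩ := H.hc
  set m : X → ℂ := fun c => ∑ y, G c y * (ψ y * p y) with hm
  -- pointwise bound
  have hpt : ∀ c ∈ b, ‖m c‖ ^ 2 ≤ (6 * C₀) ^ 2 := by
    intro c hc
    have hcR : c ∈ R := H.hb.2 (H.hb.1 hc)
    have h1 : ‖m c‖ ≤ ∑ y, (4 * (κ y * (‖G c y‖ * ‖p y‖))) := by
      refine (norm_sum_le _ _).trans (Finset.sum_le_sum fun y _ => ?_)
      rw [norm_mul, norm_mul]
      have h2 := mul_le_mul_of_nonneg_right (hψ y)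
        (mul_nonneg (norm_nonneg (G c y)) (norm_nonneg (p y)))
      linarith only [h2]
    have h3 : (∑ y, κ y * (‖G c y‖ * ‖p y‖)) ^ 2 ≤
        (∑ y, κ y * ‖G c y‖ ^ 2) * ∑ y, κ y * ‖p y‖ ^ 2 := by
      refine Finset.sum_sq_le_sum_mul_sum_of_sq_le_mul _
        (fun y _ => mul_nonneg (H.net.hκ y).le (sq_nonneg _))
        (fun y _ => mul_nonneg (H.net.hκ y).le (sq_nonneg _)) fun y _ => le_of_eq (by ring)
    have h4 : ∑ y, κ y * ‖G c y‖ ^ 2 = (G c c).im := ward H.net c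
    have h5 : ∑ y, κ y * ‖p y‖ ^ 2 = (G z z).im := by
      rw [← ward H.net z]
      exact Finset.sum_congr rfl fun y _ => by rw [hp y]
    rw [h4, h5] at h3
    have h6 : (G c c).im ≤ 3 / 2 * C₀ := by
      have := H.hg c hcR
      linarith only [this]
    have h7 : (G z z).im ≤ 3 / 2 * C₀ := by
      have := H.hg z hz
      linarith only [this]
    have h8 : 0 ≤ (G z z).im := by
      rw [← h5]
      exact Finset.sum_nonneg fun y _ => mul_nonneg (H.net.hκ y).le (sq_nonneg _)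
    have h9 : (∑ y, κ y * (‖G c y‖ * ‖p y‖)) ^ 2 ≤ (3 / 2 * C₀) ^ 2 := by
      refine h3.trans ?_
      calc (G c c).im * (G z z).im ≤ (3 / 2 * C₀) * (3 / 2 * C₀) :=
            mul_le_mul h6 h7 h8 (by positivity)
        _ = (3 / 2 * C₀) ^ 2 := by ring
    have h10 : ∑ y, κ y * (‖G c y‖ * ‖p y‖) ≤ 3 / 2 * C₀ := by
      exact (abs_le_of_sq_le_sq' h9 (by positivity)).2
    rw [← Finset.mul_sum] at h1
    exact pow_le_pow_left₀ (norm_nonneg _) (by linarith only [h1, h10]) 2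
  -- the weighted sum
  have hsum : ∑ c ∈ b, ‖m c‖ ^ 2 ≤ 24 * C₀ / κv := by
    have h1 := H.net.hn fun y => ψ y * p y / (κ y : ℂ)
    have h2 : ∀ x, ∑ y, G x y * ((κ y : ℂ) * (ψ y * p y / (κ y : ℂ))) = m x := by
      intro x
      refine Finset.sum_congr rfl fun y _ => ?_
      have h3 : (κ y : ℂ) ≠ 0 := by exact_mod_cast (H.net.hκ y).ne'
      rw [mul_div_cancel₀ _ h3]
    simp only [h2] at h1
    have h4 : ∑ x, κ x * ‖ψ x * p x / (κ x : ℂ)‖ ^ 2 ≤ 24 * C₀ := by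
      calc ∑ x, κ x * ‖ψ x * p x / (κ x : ℂ)‖ ^ 2 ≤ ∑ x, 16 * (κ x * KK G z x) := by
            refine Finset.sum_le_sum fun x _ => ?_
            have hκx := H.net.hκ x
            rw [norm_div, norm_mul, Complex.norm_real, Real.norm_of_nonneg hκx.le, div_pow,
              mul_pow, hp x]
            have h5 : ‖ψ x‖ ^ 2 ≤ (4 * κ x) ^ 2 := pow_le_pow_left₀ (norm_nonneg _) (hψ x) 2
            have h6 := kk_nonneg (G := G) z x
            rw [mul_div_assoc', div_le_iff₀ (by positivity)]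
            have h7 : κ x * (‖ψ x‖ ^ 2 * KK G z x) ≤ κ x * ((4 * κ x) ^ 2 * KK G z x) :=
              mul_le_mul_of_nonneg_left (mul_le_mul_of_nonneg_right h5 h6) hκx.le
            refine h7.trans (le_of_eq (by ring))
        _ = 16 * (G z z).im := by rw [← Finset.mul_sum, ward H.net z]
        _ ≤ 24 * C₀ := by
            have := H.hg z hz
            linarith only [this]
    have h8 : κv * ∑ c ∈ b, ‖m c‖ ^ 2 ≤ ∑ x, κ x * ‖m x‖ ^ 2 := by
      rw [Finset.mul_sum]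
      calc ∑ c ∈ b, κv * ‖m c‖ ^ 2 ≤ ∑ c ∈ b, κ c * ‖m c‖ ^ 2 :=
            Finset.sum_le_sum fun c hc => mul_le_mul_of_nonneg_right (H.hv c hc) (sq_nonneg _)
        _ ≤ ∑ x, κ x * ‖m x‖ ^ 2 :=
            Finset.sum_le_sum_of_subset_of_nonneg (Finset.subset_univ _) fun x _ _ =>
              mul_nonneg (H.net.hκ x).le (sq_nonneg _)
    rw [le_div_iff₀ hκv]
    linarith
  have h4th : ∑ c ∈ b, (‖m c‖ ^ 2) ^ 2 ≤ (6 * C₀) ^ 2 * (24 * C₀ / κv) := by
    calc ∑ c ∈ b, (‖m c‖ ^ 2) ^ 2 ≤ ∑ c ∈ b, (6 * C₀) ^ 2 * ‖m c‖ ^ 2 := by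
          refine Finset.sum_le_sum fun c hc => ?_
          rw [pow_two (‖m c‖ ^ 2)]
          exact mul_le_mul_of_nonneg_right (hpt c hc) (sq_nonneg _)
      _ = (6 * C₀) ^ 2 * ∑ c ∈ b, ‖m c‖ ^ 2 := by rw [Finset.mul_sum]
      _ ≤ _ := mul_le_mul_of_nonneg_left hsum (sq_nonneg _)
  have hcs : (∑ c ∈ b, ‖G z c‖ ^ 2 * ‖m c‖ ^ 2) ^ 2 ≤
      (30 * C₀ ^ 2 * Real.sqrt (Λ / κv)) ^ 2 := by
    have h1 := Finset.sum_mul_sq_le_sq_mul_sq b (fun c => ‖G z c‖ ^ 2) (fun c => ‖m c‖ ^ 2)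
    have h2 : ∑ c ∈ b, (‖G z c‖ ^ 2) ^ 2 ≤ Λ := H.hΛ z hz
    have h3 : (∑ c ∈ b, (‖G z c‖ ^ 2) ^ 2) * ∑ c ∈ b, (‖m c‖ ^ 2) ^ 2 ≤
        Λ * ((6 * C₀) ^ 2 * (24 * C₀ / κv)) :=
      mul_le_mul h2 h4th (Finset.sum_nonneg fun c _ => sq_nonneg _) hΛ0
    refine h1.trans (h3.trans ?_)
    have h5 : Λ * ((6 * C₀) ^ 2 * (24 * C₀ / κv)) = (864 * C₀ ^ 3) * (Λ / κv) := by
      ring
    have h5' : (30 * C₀ ^ 2 * Real.sqrt (Λ / κv)) ^ 2 = 30 ^ 2 * (C₀ ^ 2) ^ 2 * (Λ / κv) := by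
      rw [mul_pow, mul_pow, Real.sq_sqrt (div_nonneg hΛ0 hκv.le)]
    have h6 : 864 * C₀ ^ 3 ≤ 30 ^ 2 * (C₀ ^ 2) ^ 2 := by
      have h7 : C₀ ^ 3 ≤ C₀ ^ 4 := pow_le_pow_right₀ hC0 (by norm_num)
      have h8 : 0 ≤ C₀ ^ 4 := by positivity
      have h9 : (C₀ ^ 2) ^ 2 = C₀ ^ 4 := by ring
      rw [h9]
      linarith only [h7, h8]
    rw [h5, h5']
    exact mul_le_mul_of_nonneg_right h6 (div_nonneg hΛ0 hκv.le)
  refine abs_le_of_sq_le_sq' hcs ?_ |>.2
  positivity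

theorem vgr : VgrStmt := by
  intro hC hV hT c₀ C₀
  refine ⟨1 + 1920 * C₀ ^ 4 / c₀ ^ 2, ?_, ?_⟩
  · have : 0 ≤ 1920 * C₀ ^ 4 / c₀ ^ 2 := by positivity
    linarith only [this]
  intro X _ _ G κ P w g μ b U R κv μs Λ H
  obtain ⟨hc0, hc01, hC0, hκv, hκv1, hμs, hΛ0⟩ := H.hc
  have hMB : ∀ a y, ‖BB G a y‖ ≤ KK G a y := by
    intro a y
    unfold BB KK
    rw [norm_pow]
  have hMK : ∀ a y, ‖KK G a y‖ ≤ KK G a y := by
    intro a y
    rw [Real.norm_of_nonneg (kk_nonneg a y)]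
  have hcB := cmp_of H (BB G) hMB
  have hcK := cmp_of H (KK G) hMK
  have hψB := psi_bound hV hC H (BB G) hMB
  have hψK := psi_bound hV hC H (KK G) hMK
  have hS0 : 0 ≤ Real.sqrt (Λ / κv) := Real.sqrt_nonneg _
  set V : ℝ := Real.sqrt (120 * C₀ ^ 2 * Real.sqrt (Λ / κv)) / c₀ with hVdef
  have hV0 : 0 ≤ V := by positivity
  have hVsq : V ^ 2 = 120 * C₀ ^ 2 * Real.sqrt (Λ / κv) / c₀ ^ 2 := by
    rw [hVdef, div_pow, Real.sq_sqrt (by positivity)]
  have hVg : ∀ a ∈ R, 120 * C₀ ^ 2 * Real.sqrt (Λ / κv) ≤ (V * g a) ^ 2 := by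
    intro a ha
    rw [mul_pow, hVsq]
    have h1 : c₀ ^ 2 ≤ g a ^ 2 := pow_le_pow_left₀ hc0.le (H.hg a ha).1 2
    rw [div_mul_eq_mul_div, le_div_iff₀ (by positivity)]
    exact mul_le_mul_of_nonneg_left h1 (by positivity)
  have hfin : ∀ a ∈ R, (V / (1 - 3 / 4) * g a) ^ 2 ≤
      (1 + 1920 * C₀ ^ 4 / c₀ ^ 2) * Real.sqrt (Λ / κv) := by
    intro a ha
    have h1 : g a ^ 2 ≤ C₀ ^ 2 :=
      pow_le_pow_left₀ (hc0.le.trans (H.hg a ha).1) (H.hg a ha).2.1 2
    have h2 : (V / (1 - 3 / 4) * g a) ^ 2 = 16 * V ^ 2 * g a ^ 2 := by ring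
    rw [h2]
    calc 16 * V ^ 2 * g a ^ 2 ≤ 16 * V ^ 2 * C₀ ^ 2 :=
          mul_le_mul_of_nonneg_left h1 (by positivity)
      _ = 1920 * C₀ ^ 4 / c₀ ^ 2 * Real.sqrt (Λ / κv) := by
          rw [hVsq]
          ring
      _ ≤ (1 + 1920 * C₀ ^ 4 / c₀ ^ 2) * Real.sqrt (Λ / κv) :=
          mul_le_mul_of_nonneg_right (by linarith only) hS0
  refine ⟨hcB, hcK, fun y => ⟨hψB y, hψK y⟩, ?_, ?_⟩
  · intro a ha
    refine (hT hC hV ℂ X (BB G) (KK G) P g U R (3 / 4) hcB X b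
      (fun c => dB G c *ᵥ psi P w (vir (BB G) P w)) V hV0 ?_ a ha).trans (hfin a ha)
    intro z hz
    refine le_trans ?_ (hVg z hz)
    have h1 := main H z hz (psi P w (vir (BB G) P w)) (fun y => G z y) hψB (fun y => rfl)
    have h2 : ∀ c, ‖(dB G c *ᵥ psi P w (vir (BB G) P w)) z‖ ^ 2 =
        4 * (‖G z c‖ ^ 2 * ‖∑ y, G c y * (psi P w (vir (BB G) P w) y * G z y)‖ ^ 2) := by
      intro c
      have h3 : (dB G c *ᵥ psi P w (vir (BB G) P w)) z =
          -(2 * G z c) * ∑ y, G c y * (psi P w (vir (BB G) P w) y * G z y) := by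
        rw [Matrix.mulVec, dotProduct, Finset.mul_sum]
        refine Finset.sum_congr rfl fun y _ => ?_
        unfold dB
        ring
      rw [h3, norm_mul, norm_neg, norm_mul, mul_pow, mul_pow]
      norm_num
      ring
    rw [Finset.sum_congr rfl fun c _ => h2 c, ← Finset.mul_sum]
    linarith only [h1]
  · intro a ha
    have h0 := (hT hC hV ℝ X (KK G) (KK G) P g U R (3 / 4) hcK X b
      (fun c => dK G c *ᵥ psi P w (vir (KK G) P w)) V hV0 ?_ a ha).trans (hfin a ha)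
    · refine le_trans (le_of_eq ?_) h0
      refine Finset.sum_congr rfl fun c _ => ?_
      rw [Real.norm_eq_abs, sq_abs]
    intro z hz
    refine le_trans ?_ (hVg z hz)
    have h1 := main H z hz (fun y => ((psi P w (vir (KK G) P w) y : ℝ) : ℂ))
      (fun y => (starRingEnd ℂ) (G z y)) (fun y => by
        rw [Complex.norm_real]
        exact hψK y) (fun y => by rw [RCLike.norm_conj]; rfl)
    have h2 : ∀ c, ‖(dK G c *ᵥ psi P w (vir (KK G) P w)) z‖ ^ 2 ≤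
        4 * (‖G z c‖ ^ 2 * ‖∑ y, G c y * (((psi P w (vir (KK G) P w) y : ℝ) : ℂ) *
          (starRingEnd ℂ) (G z y))‖ ^ 2) := by
      intro c
      have h3 : (dK G c *ᵥ psi P w (vir (KK G) P w)) z =
          -(2 * (G z c * ∑ y, G c y * (((psi P w (vir (KK G) P w) y : ℝ) : ℂ) *
            (starRingEnd ℂ) (G z y))).re) := by
        rw [Matrix.mulVec, dotProduct, Finset.mul_sum, Complex.re_sum, Finset.mul_sum,
          ← Finset.sum_neg_distrib]
        refine Finset.sum_congr rfl fun y _ => ?_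
        unfold dK
        have h4 : G z c * (G c y * (((psi P w (vir (KK G) P w) y : ℝ) : ℂ) *
            (starRingEnd ℂ) (G z y))) =
            ((psi P w (vir (KK G) P w) y : ℝ) : ℂ) *
              ((starRingEnd ℂ) (G z y) * G z c * G c y) := by ring
        rw [h4, Complex.re_ofReal_mul]
        ring
      rw [h3, norm_neg, Real.norm_eq_abs, sq_abs, mul_pow]
      have h5 := Complex.abs_re_le_norm (G z c * ∑ y, G c y *
        (((psi P w (vir (KK G) P w) y : ℝ) : ℂ) * (starRingEnd ℂ) (G z y)))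
      rw [norm_mul] at h5
      have h6 := pow_le_pow_left₀ (abs_nonneg _) h5 2
      rw [sq_abs, mul_pow] at h6
      linarith only [h6]
    refine (Finset.sum_le_sum fun c _ => h2 c).trans ?_
    rw [← Finset.mul_sum]
    linarith only [h1]

end Pool.Agent.ABY.H19
end
end -- Pool.Agent.Helper19_ABY.VGR

section -- Pool.Agent.Helper1_AFJ.NBW

set_option autoImplicit false

open scoped BigOperators Matrix

noncomputable section

namespace Pool.Agent.AFJ.H1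

open Pool.Agent.LE.QF Pool.Agent.AFJ

theorem nbw : NbwStmt := by
  intro hB X _ _ G κ A b f κv Λ r hN hκv hΛ hr hκb hrho hK
  obtain ⟨h1, -, -, h4, h5, h6⟩ := hB X G κ A f hN
  have hD0 : ∀ x, 0 ≤ DD G κ A f x := by
    intro x
    unfold DD
    refine Finset.sum_nonneg fun y _ => ?_
    refine mul_nonneg (mul_nonneg (hN.hκ y).le ?_) (sq_nonneg _)
    unfold KK
    positivity
  set s : ℝ := Real.sqrt (r * Λ / κv) with hs
  have hs0 : 0 ≤ s := Real.sqrt_nonneg _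
  have hs2 : s ^ 2 = r * Λ / κv := Real.sq_sqrt (by positivity)
  -- the bound for one entry
  have key1 : ∀ x ∈ A, ∀ c, (Ec G κ A c *ᵥ f) x ^ 2 / κ x ≤
      4 * κ x * (KK G x c * ‖bet G κ A f x c‖ ^ 2) := by
    intro x hx c
    rw [h1 c x hx]
    have hk := hN.hκ x
    have e1 : (G x c * bet G κ A f x c).re ^ 2 ≤ KK G x c * ‖bet G κ A f x c‖ ^ 2 := by
      have a1 := Complex.abs_re_le_norm (G x c * bet G κ A f x c)
      have a2 : (G x c * bet G κ A f x c).re ^ 2 ≤ ‖G x c * bet G κ A f x c‖ ^ 2 := by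
        rw [← sq_abs (G x c * bet G κ A f x c).re]
        exact pow_le_pow_left₀ (abs_nonneg _) a1 2
      rw [norm_mul, mul_pow] at a2
      exact a2
    rw [div_le_iff₀ hk]
    have e2 : (-(2 * κ x * (G x c * bet G κ A f x c).re)) ^ 2 =
        4 * κ x * κ x * (G x c * bet G κ A f x c).re ^ 2 := by ring
    rw [e2]
    have e3 : 4 * κ x * (KK G x c * ‖bet G κ A f x c‖ ^ 2) * κ x =
        4 * κ x * κ x * (KK G x c * ‖bet G κ A f x c‖ ^ 2) := by ring
    rw [e3]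
    exact mul_le_mul_of_nonneg_left e1 (by positivity)
  -- the sum over c
  have key2 : ∀ x ∈ A, ∑ c ∈ b, KK G x c * ‖bet G κ A f x c‖ ^ 2 ≤ s * DD G κ A f x := by
    intro x hx
    have hD := hD0 x
    have c1 : (∑ c ∈ b, KK G x c * ‖bet G κ A f x c‖ ^ 2) ^ 2 ≤
        (∑ c ∈ b, KK G x c ^ 2) * ∑ c ∈ b, (‖bet G κ A f x c‖ ^ 2) ^ 2 :=
      Finset.sum_mul_sq_le_sq_mul_sq b _ _
    have c2 : ∑ c ∈ b, (‖bet G κ A f x c‖ ^ 2) ^ 2 ≤ r * DD G κ A f x * (DD G κ A f x / κv) := by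
      have d1 : ∀ c ∈ b, (‖bet G κ A f x c‖ ^ 2) ^ 2 ≤
          r * DD G κ A f x * (κ c * ‖bet G κ A f x c‖ ^ 2 / κv) := by
        intro c hc
        have g1 : ‖bet G κ A f x c‖ ^ 2 ≤ r * DD G κ A f x :=
          (h4 x c).trans (mul_le_mul_of_nonneg_right (hrho c hc) hD)
        have g2 : ‖bet G κ A f x c‖ ^ 2 ≤ κ c * ‖bet G κ A f x c‖ ^ 2 / κv := by
          rw [le_div_iff₀ hκv, mul_comm]
          exact mul_le_mul_of_nonneg_right (hκb c hc) (sq_nonneg _)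
        calc (‖bet G κ A f x c‖ ^ 2) ^ 2
            = ‖bet G κ A f x c‖ ^ 2 * ‖bet G κ A f x c‖ ^ 2 := by ring
          _ ≤ r * DD G κ A f x * (κ c * ‖bet G κ A f x c‖ ^ 2 / κv) :=
            mul_le_mul g1 g2 (sq_nonneg _) (mul_nonneg hr hD)
      refine (Finset.sum_le_sum d1).trans ?_
      rw [← Finset.mul_sum, ← Finset.sum_div]
      refine mul_le_mul_of_nonneg_left ?_ (mul_nonneg hr hD)
      exact div_le_div_of_nonneg_right (h5 x b) hκv.le
    have c3 : (∑ c ∈ b, KK G x c * ‖bet G κ A f x c‖ ^ 2) ^ 2 ≤ (s * DD G κ A f x) ^ 2 := by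
      refine c1.trans ?_
      have c4 : (∑ c ∈ b, KK G x c ^ 2) * ∑ c ∈ b, (‖bet G κ A f x c‖ ^ 2) ^ 2 ≤
          Λ * (r * DD G κ A f x * (DD G κ A f x / κv)) :=
        mul_le_mul (hK x hx) c2 (Finset.sum_nonneg fun c _ => sq_nonneg _) hΛ
      refine c4.trans (le_of_eq ?_)
      rw [mul_pow, hs2]
      ring
    exact (abs_le_of_sq_le_sq' c3 (mul_nonneg hs0 hD)).2
  rw [Finset.sum_comm]
  have key3 : ∀ x ∈ A, ∑ c ∈ b, (Ec G κ A c *ᵥ f) x ^ 2 / κ x ≤
      4 * s * (κ x * DD G κ A f x) := by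
    intro x hx
    refine (Finset.sum_le_sum fun c _ => key1 x hx c).trans ?_
    rw [← Finset.mul_sum]
    have hk := hN.hκ x
    calc 4 * κ x * ∑ c ∈ b, KK G x c * ‖bet G κ A f x c‖ ^ 2
        ≤ 4 * κ x * (s * DD G κ A f x) :=
          mul_le_mul_of_nonneg_left (key2 x hx) (by positivity)
      _ = 4 * s * (κ x * DD G κ A f x) := by ring
  refine (Finset.sum_le_sum key3).trans (le_of_eq ?_)
  rw [← Finset.mul_sum, h6]
  ring

end Pool.Agent.AFJ.H1
end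
end -- Pool.Agent.Helper1_AFJ.NBW

section -- Pool.Agent.Helper6_AFJ.BGJ

/-!
# Squad AFJ, row BGJ (helper6): the resolvent of a block update
-/

set_option autoImplicit false

open scoped BigOperators Matrix

noncomputable section

namespace Pool.Agent.AFJ.H6

open Pool.Agent.LE.QF

section mat

variable {X : Type} [Fintype X] [DecidableEq X]

/-- the matrix `H + diag p` -/
def Mt (H : Matrix X X ℝ) (p : X → ℂ) : Matrix X X ℂ :=
  H.map (fun a => (a : ℂ)) + Matrix.diagonal p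

omit [Fintype X] in
theorem mt_apply (H : Matrix X X ℝ) (p : X → ℂ) (x y : X) :
    Mt H p x y = (H x y : ℂ) + if x = y then p x else 0 := by
  unfold Mt
  rw [Matrix.add_apply, Matrix.map_apply, Matrix.diagonal_apply]

theorem mt_im {H : Matrix X X ℝ} (hH : ∀ x y, H x y = H y x) {p : X → ℂ} {k : X → ℝ}
    (hp : ∀ x, (p x).im = -k x) (u : X → ℂ) :
    (∑ x, (starRingEnd ℂ) (u x) * (Mt H p *ᵥ u) x).im = -∑ x, k x * ‖u x‖ ^ 2 := by
  have h1 : ∀ x, (Mt H p *ᵥ u) x = (∑ y, (H x y : ℂ) * u y) + p x * u x := by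
    intro x
    rw [Matrix.mulVec, dotProduct]
    simp only [mt_apply, add_mul, ite_mul, zero_mul]
    rw [Finset.sum_add_distrib, Finset.sum_ite_eq Finset.univ x]
    rw [if_pos (Finset.mem_univ x)]
  have h2 : ∑ x, (starRingEnd ℂ) (u x) * (Mt H p *ᵥ u) x =
      (∑ x, ∑ y, (starRingEnd ℂ) (u x) * ((H x y : ℂ) * u y)) +
        ∑ x, p x * ((‖u x‖ ^ 2 : ℝ) : ℂ) := by
    rw [← Finset.sum_add_distrib]
    refine Finset.sum_congr rfl fun x _ => ?_
    rw [h1, mul_add, Finset.mul_sum]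
    congr 1
    have h3 : (starRingEnd ℂ) (u x) * u x = ((‖u x‖ ^ 2 : ℝ) : ℂ) := by
      rw [mul_comm, Complex.mul_conj, Complex.normSq_eq_norm_sq]
    rw [← h3]
    ring
  have h4 : (∑ x, ∑ y, (starRingEnd ℂ) (u x) * ((H x y : ℂ) * u y)).im = 0 := by
    rw [← Complex.conj_eq_iff_im, map_sum]
    simp only [map_sum, map_mul, Complex.conj_conj, Complex.conj_ofReal]
    rw [Finset.sum_comm]
    refine Finset.sum_congr rfl fun x _ => Finset.sum_congr rfl fun y _ => ?_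
    rw [hH y x]
    ring
  rw [h2, Complex.add_im, h4, zero_add, Complex.im_sum, ← Finset.sum_neg_distrib]
  refine Finset.sum_congr rfl fun x _ => ?_
  rw [Complex.mul_im, Complex.ofReal_re, Complex.ofReal_im, mul_zero, zero_add, hp]
  ring

theorem mt_unit {H : Matrix X X ℝ} (hH : ∀ x y, H x y = H y x) {p : X → ℂ} {k : X → ℝ}
    (hp : ∀ x, (p x).im = -k x) (hk : ∀ x, 0 < k x) : IsUnit (Mt H p).det := by
  rw [isUnit_iff_ne_zero]
  intro h0
  obtain ⟨u, hu0, hu⟩ := Matrix.exists_mulVec_eq_zero_iff.2 h0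
  have h1 := mt_im hH hp u
  rw [hu] at h1
  simp only [Pi.zero_apply, mul_zero, Finset.sum_const_zero, Complex.zero_im] at h1
  have h2 : ∑ x, k x * ‖u x‖ ^ 2 = 0 := by linarith only [h1]
  apply hu0
  funext x
  have h3 := (Finset.sum_eq_zero_iff_of_nonneg
    (fun x _ => mul_nonneg (hk x).le (sq_nonneg ‖u x‖))).1 h2 x (Finset.mem_univ x)
  rcases mul_eq_zero.1 h3 with h4 | h4
  · exact absurd h4 (hk x).ne'
  · exact norm_eq_zero.1 (pow_eq_zero_iff two_ne_zero |>.1 h4)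

theorem mt_symm {H : Matrix X X ℝ} (hH : ∀ x y, H x y = H y x) (p : X → ℂ) (x y : X) :
    (Mt H p)⁻¹ x y = (Mt H p)⁻¹ y x := by
  have h1 : (Mt H p)ᵀ = Mt H p := by
    ext x y
    rw [Matrix.transpose_apply, mt_apply, mt_apply, hH y x]
    by_cases h : x = y
    · subst h
      rfl
    · rw [if_neg h, if_neg (Ne.symm h)]
  have h2 : ((Mt H p)⁻¹)ᵀ = (Mt H p)⁻¹ := by
    rw [Matrix.transpose_nonsing_inv, h1]
  have h3 := congrFun (congrFun h2 y) x
  rw [Matrix.transpose_apply] at h3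
  exact h3

theorem mt_net {H : Matrix X X ℝ} (hH : ∀ x y, H x y = H y x) {p : X → ℂ} {k : X → ℝ}
    (hp : ∀ x, (p x).im = -k x) (hk : ∀ x, 0 < k x) : Net (Mt H p)⁻¹ k := by
  have hu := mt_unit hH hp hk
  have hGM : (Mt H p)⁻¹ * Mt H p = 1 := Matrix.nonsing_inv_mul _ hu
  have hMG : Mt H p * (Mt H p)⁻¹ = 1 := Matrix.mul_nonsing_inv _ hu
  refine ⟨mt_symm hH p, hk, ?_, ?_⟩
  · intro x z
    have h1 : (Mt H p)ᴴ - Mt H p = Matrix.diagonal (fun y => 2 * Complex.I * (k y : ℂ)) := by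
      ext x y
      rw [Matrix.sub_apply, Matrix.conjTranspose_apply, mt_apply, mt_apply,
        Matrix.diagonal_apply]
      by_cases h : x = y
      · subst h
        rw [if_pos rfl, if_pos rfl]
        have h2 := Complex.sub_conj (p x)
        rw [hp x] at h2
        rw [show star ((H x x : ℂ) + p x) = (starRingEnd ℂ) ((H x x : ℂ) + p x) from rfl,
          map_add, Complex.conj_ofReal]
        push_cast at h2
        linear_combination -h2
      · rw [if_neg h, if_neg (Ne.symm h), if_neg h, add_zero, add_zero, hH y x]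
        rw [show star (H x y : ℂ) = (starRingEnd ℂ) (H x y : ℂ) from rfl, Complex.conj_ofReal,
          sub_self]
    have h3 : (Mt H p)⁻¹ - ((Mt H p)⁻¹)ᴴ =
        (Mt H p)⁻¹ * Matrix.diagonal (fun y => 2 * Complex.I * (k y : ℂ)) * ((Mt H p)⁻¹)ᴴ := by
      have h4 : (Mt H p)ᴴ * ((Mt H p)⁻¹)ᴴ = 1 := by
        rw [← Matrix.conjTranspose_mul, hGM, Matrix.conjTranspose_one]
      rw [← h1, mul_sub, sub_mul, hGM, one_mul, mul_assoc, h4, mul_one]
    have h5 := congrFun (congrFun h3 x) z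
    rw [Matrix.sub_apply, Matrix.conjTranspose_apply, Matrix.mul_apply] at h5
    simp only [Matrix.mul_diagonal, Matrix.conjTranspose_apply] at h5
    rw [mt_symm hH p z x] at h5
    have h6 := Complex.sub_conj ((Mt H p)⁻¹ x z)
    rw [show star ((Mt H p)⁻¹ x z) = (starRingEnd ℂ) ((Mt H p)⁻¹ x z) from rfl, h6] at h5
    have h7 : ∑ y, (Mt H p)⁻¹ x y * (2 * Complex.I * (k y : ℂ)) * star ((Mt H p)⁻¹ z y) =
        2 * Complex.I * ∑ y, (k y : ℂ) * ((Mt H p)⁻¹ x y * (starRingEnd ℂ) ((Mt H p)⁻¹ z y)) := by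
      rw [Finset.mul_sum]
      refine Finset.sum_congr rfl fun y _ => ?_
      rw [show star ((Mt H p)⁻¹ z y) = (starRingEnd ℂ) ((Mt H p)⁻¹ z y) from rfl]
      ring
    rw [h7] at h5
    have h8 : (2 * Complex.I : ℂ) ≠ 0 := mul_ne_zero two_ne_zero Complex.I_ne_zero
    apply mul_left_cancel₀ h8
    rw [← h5]
    push_cast
    ring
  · intro v
    set u : X → ℂ := fun x => ∑ y, (Mt H p)⁻¹ x y * ((k y : ℂ) * v y) with hudef
    have h1 : Mt H p *ᵥ u = fun y => (k y : ℂ) * v y := by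
      have h2 : u = (Mt H p)⁻¹ *ᵥ fun y => (k y : ℂ) * v y := rfl
      rw [h2, Matrix.mulVec_mulVec, hMG, Matrix.one_mulVec]
    have h3 := mt_im hH hp u
    rw [h1] at h3
    have h4 : ∑ x, k x * ‖u x‖ ^ 2 ≤ ∑ x, k x * (‖u x‖ * ‖v x‖) := by
      have h5 : ∑ x, k x * ‖u x‖ ^ 2 =
          -(∑ x, (starRingEnd ℂ) (u x) * ((k x : ℂ) * v x)).im := by
        rw [h3, neg_neg]
      rw [h5]
      calc -(∑ x, (starRingEnd ℂ) (u x) * ((k x : ℂ) * v x)).im
          ≤ |(∑ x, (starRingEnd ℂ) (u x) * ((k x : ℂ) * v x)).im| := neg_le_abs _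
        _ ≤ ‖∑ x, (starRingEnd ℂ) (u x) * ((k x : ℂ) * v x)‖ := Complex.abs_im_le_norm _
        _ ≤ ∑ x, ‖(starRingEnd ℂ) (u x) * ((k x : ℂ) * v x)‖ := norm_sum_le _ _
        _ = ∑ x, k x * (‖u x‖ * ‖v x‖) := by
            refine Finset.sum_congr rfl fun x _ => ?_
            rw [norm_mul, norm_mul, RCLike.norm_conj, Complex.norm_real, Real.norm_eq_abs,
              abs_of_pos (hk x)]
            ring
    have h6 : ∑ x, k x * (‖u x‖ * ‖v x‖) ≤
        (1 / 2) * (∑ x, k x * ‖u x‖ ^ 2 + ∑ x, k x * ‖v x‖ ^ 2) := by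
      rw [← Finset.sum_add_distrib, Finset.mul_sum]
      refine Finset.sum_le_sum fun x _ => ?_
      have h7 := mul_le_mul_of_nonneg_left (two_mul_le_add_sq ‖u x‖ ‖v x‖) (hk x).le
      nlinarith only [h7]
    linarith only [h4, h6]

theorem gec (G : Matrix X X ℂ) (c : X) :
    -(G * (Matrix.diagonal fun a => if c = a then 1 else 0) * G) = gG G c := by
  ext a b
  unfold gG
  rw [Matrix.neg_apply, Matrix.mul_apply]
  simp only [Matrix.mul_diagonal]
  rw [Finset.sum_eq_single c]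
  · rw [if_pos rfl, mul_one]
  · intro y _ hy
    rw [if_neg (Ne.symm hy), mul_zero, zero_mul]
  · intro h
    exact absurd (Finset.mem_univ c) h

theorem gec2 (G : Matrix X X ℂ) (b : Finset X) (mb : X → ℂ) :
    -(G * (Matrix.diagonal fun a => if a ∈ b then mb a else 0) * G) +
      ∑ c : b, G * (Matrix.diagonal fun a => if (c : X) = a then 1 else 0) * G *
        (Matrix.diagonal fun a => if (c : X) = a then 1 else 0) * G = GD G (mub G mb b) := by
  have h1 : ∀ c x y, (G * (Matrix.diagonal fun a => if c = a then (1 : ℂ) else 0) * G *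
      (Matrix.diagonal fun a => if c = a then 1 else 0) * G : Matrix X X ℂ) x y =
      G x c * G c c * G c y := by
    intro c a b
    have h2 := gec G c
    have h3 : G * (Matrix.diagonal fun a => if c = a then (1 : ℂ) else 0) * G = -gG G c := by
      rw [← h2, neg_neg]
    rw [h3, Matrix.mul_apply]
    simp only [Matrix.mul_diagonal]
    rw [Finset.sum_eq_single c]
    · rw [if_pos rfl, mul_one, Matrix.neg_apply]
      unfold gG
      rw [neg_neg]
    · intro y _ hy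
      rw [if_neg (Ne.symm hy), mul_zero, zero_mul]
    · intro h
      exact absurd (Finset.mem_univ c) h
  ext x y
  rw [Matrix.add_apply, Matrix.neg_apply, Matrix.sum_apply]
  simp only [h1]
  have h4 : ∑ c ∈ b, G x c * G c c * G c y =
      ∑ c, if c ∈ b then G x c * G c c * G c y else 0 := by
    rw [Finset.sum_ite_mem, Finset.univ_inter]
  rw [Finset.sum_coe_sort b (fun c => G x c * G c c * G c y), h4]
  unfold GD
  rw [Matrix.mul_apply, Matrix.mul_apply]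
  simp only [Matrix.mul_diagonal]
  rw [← Finset.sum_neg_distrib, ← Finset.sum_add_distrib]
  refine Finset.sum_congr rfl fun c _ => ?_
  unfold mub
  by_cases hc : c ∈ b
  · rw [if_pos hc, if_pos hc, if_pos hc]
    ring
  · rw [if_neg hc, if_neg hc, if_neg hc]
    ring

end mat

variable {X : Type} [Fintype X] [DecidableEq X]

theorem kp_cd (D : Blk X) (t : ℝ) (x : X) : ContDiffAt ℝ 2 (fun t => D.kp t x) t := by
  unfold Blk.kp
  by_cases h : x ∈ D.b
  · simp only [if_pos h]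
    exact contDiffAt_const.add ((contDiffAt_const.sub contDiffAt_id).mul contDiffAt_const)
  · simp only [if_neg h]
    exact contDiffAt_const

theorem kp_dv (D : Blk X) (t : ℝ) (x : X) :
    deriv (fun t => D.kp t x) t = -(ind D.b x * (D.mb x).im) := by
  unfold Blk.kp ind
  by_cases h : x ∈ D.b
  · simp only [if_pos h]
    have h1 := (((hasDerivAt_id t).const_sub (D.s x)).mul_const (D.mb x).im).const_add D.η
    have h2 : deriv (fun t => D.η + (D.s x - t) * (D.mb x).im) t = _ := h1.deriv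
    rw [h2]
    ring
  · simp only [if_neg h]
    rw [deriv_const, zero_mul, neg_zero]

theorem pt_im (D : Blk X) (q : ℝ × (D.b → ℝ)) (x : X) : (D.pt q x).im = -D.kp q.1 x := by
  unfold Blk.pt Blk.kp
  by_cases h : x ∈ D.b
  · rw [dif_pos h, if_pos h]
    simp only [Complex.sub_im, Complex.add_im, Complex.ofReal_im, Complex.mul_im,
      Complex.ofReal_re, zero_mul, add_zero, zero_add]
    ring
  · rw [dif_neg h, if_neg h]
    simp only [Complex.sub_im, Complex.zero_im, Complex.mul_im,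
      Complex.ofReal_re, Complex.ofReal_im, zero_mul, add_zero]
    ring

/-- the jet of `H + diag (pt)` -/
theorem mtj (jal : JalStmt) (D : Blk X) (q : ℝ × (D.b → ℝ)) :
    HM (fun r => Mt D.H (D.pt r)) q (Mt D.H (D.pt q))
      (fun c : D.b => Matrix.diagonal fun a => if (c : X) = a then (1 : ℂ) else 0)
      (Matrix.diagonal fun a => if a ∈ D.b then D.mb a else 0) := by
  obtain ⟨J1, J2, J3, -, -, -, J7, -⟩ := jal D.b ℂ q
  intro x y
  by_cases hxy : x = y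
  · subst hxy
    by_cases hx : x ∈ D.b
    · have e1 : (fun r : ℝ × (D.b → ℝ) => Mt D.H (D.pt r) x x) = fun r =>
          (((D.H x x : ℂ) - (D.s x : ℂ) * D.mb x - ⟨D.E, D.η⟩) + (((r.2 ⟨x, hx⟩ : ℝ) : ℂ) +
            (r.1 : ℂ) * D.mb x)) := by
        funext r
        rw [mt_apply, if_pos rfl]
        unfold Blk.pt
        rw [dif_pos hx]
        ring
      have e2 : Mt D.H (D.pt q) x x =
          (((D.H x x : ℂ) - (D.s x : ℂ) * D.mb x - ⟨D.E, D.η⟩) + (((q.2 ⟨x, hx⟩ : ℝ) : ℂ) +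
            (q.1 : ℂ) * D.mb x)) := congrFun e1 q
      have hcd : ContDiffAt ℝ 2 (fun t : ℝ => (t : ℂ) * D.mb x) q.1 :=
        (Complex.ofRealCLM.contDiff.contDiffAt (x := q.1)).mul contDiffAt_const
      have hdv : deriv (fun t : ℝ => (t : ℂ) * D.mb x) q.1 = D.mb x := by
        have h1 : HasDerivAt (fun t : ℝ => (t : ℂ)) ((1 : ℝ) : ℂ) q.1 :=
          HasDerivAt.ofReal_comp (hasDerivAt_id q.1)
        have h2 := h1.mul_const (D.mb x)
        have h3 : deriv (fun t : ℝ => (t : ℂ) * D.mb x) q.1 = _ := h2.deriv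
        rw [h3]
        push_cast
        ring
      have h2 := J2 ⟨x, hx⟩
      have h3 := J7 (fun t : ℝ => (t : ℂ) * D.mb x) hcd
      rw [hdv] at h3
      have h4 := (J3 _ _ _ _ _ _ _ _ (J1 ((D.H x x : ℂ) - (D.s x : ℂ) * D.mb x - ⟨D.E, D.η⟩))
        (J3 _ _ _ _ _ _ _ _ h2 h3).1).1
      rw [e1, e2]
      simp only [Matrix.diagonal_apply_eq]
      have e3 : (fun c : D.b => (0 : ℂ) + ((if c = ⟨x, hx⟩ then 1 else 0) + 0)) =
          fun c : D.b => if (c : X) = x then 1 else 0 := by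
        funext c
        rw [zero_add, add_zero]
        by_cases hc : (c : X) = x
        · rw [if_pos hc, if_pos (Subtype.ext hc)]
        · rw [if_neg hc, if_neg (fun h => hc (by rw [h]))]
      have e4 : (0 : ℂ) + (0 + D.mb x) = if x ∈ D.b then D.mb x else 0 := by
        rw [zero_add, zero_add, if_pos hx]
      rw [e4] at h4
      rw [← e3]
      exact h4
    · have e1 : (fun r : ℝ × (D.b → ℝ) => Mt D.H (D.pt r) x x) = fun _ =>
          ((D.H x x : ℂ) + (0 - (D.s x : ℂ) * D.mb x - ⟨D.E, D.η⟩)) := by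
        funext r
        rw [mt_apply, if_pos rfl]
        unfold Blk.pt
        rw [dif_neg hx]
      have e2 : Mt D.H (D.pt q) x x =
          ((D.H x x : ℂ) + (0 - (D.s x : ℂ) * D.mb x - ⟨D.E, D.η⟩)) := congrFun e1 q
      rw [e1, e2]
      simp only [Matrix.diagonal_apply_eq, if_neg hx]
      have e3 : (fun c : D.b => if (c : X) = x then (1 : ℂ) else 0) = fun _ => 0 := by
        funext c
        rw [if_neg]
        intro h
        exact hx (h ▸ c.2)
      rw [e3]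
      exact J1 _
  · have e1 : (fun r : ℝ × (D.b → ℝ) => Mt D.H (D.pt r) x y) = fun _ => (D.H x y : ℂ) := by
      funext r
      rw [mt_apply, if_neg hxy, add_zero]
    have e2 : Mt D.H (D.pt q) x y = (D.H x y : ℂ) := congrFun e1 q
    rw [e1, e2]
    simp only [Matrix.diagonal_apply_ne _ hxy]
    exact J1 _

theorem bgj : BgjStmt := by
  intro jal jma X _ _ D q hH hk
  have hu := mt_unit hH (pt_im D q) hk
  refine ⟨⟨?_, ?_, ?_⟩, ?_⟩
  · have h1 := ((jma D.b ℂ q).2 X _ _ _ _ (mtj jal D q)).1 hu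
    have e1 : (fun c : D.b => -((Mt D.H (D.pt q))⁻¹ *
        (Matrix.diagonal fun a => if (c : X) = a then 1 else 0) * (Mt D.H (D.pt q))⁻¹)) =
        fun c : D.b => gG (D.G q) (c : X) := by
      funext c
      exact gec _ _
    rw [e1, gec2] at h1
    exact h1
  · intro x y
    exact mt_symm hH _ x y
  · intro x
    exact ⟨kp_cd D q.1 x, rfl, kp_dv D q.1 x⟩
  · exact mt_net hH (pt_im D q) hk

end Pool.Agent.AFJ.H6
end
end -- Pool.Agent.Helper6_AFJ.BGJ

section -- Pool.Agent.Helper92_AFJ.BKJ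

set_option autoImplicit false

open MeasureTheory ProbabilityTheory Function Filter

open scoped ENNReal BigOperators Topology NNReal ComplexOrder Matrix

noncomputable section

namespace Pool.Agent.AFJ.H92

open Pool.Agent.LE.QF Pool.Agent.AFJ

section

variable {ι : Type} [Fintype ι] [DecidableEq ι] {E : Type} [NormedAddCommGroup E]
  [NormedSpace ℝ E]

theorem hj_cast {F F' : ℝ × (ι → ℝ) → E} {q : ℝ × (ι → ℝ)} {v v' : E} {g g' : ι → E} {l l' : E}
    (h : HJ F q v g l) (hF : F = F') (hv : v = v') (hg : g = g') (hl : l = l') :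
    HJ F' q v' g' l' := by
  subst hF hv hg hl
  exact h

end

theorem hj_re {ι : Type} [Fintype ι] [DecidableEq ι] (hJ : JalStmt) {q : ℝ × (ι → ℝ)}
    {F : ℝ × (ι → ℝ) → ℂ} {v l : ℂ} {g : ι → ℂ}
    (h : HJ F q v g l) : HJ (fun r => (F r).re) q v.re (fun c => (g c).re) l.re := by
  have h1 := ((hJ ι ℂ q).2.2.2.1 F v l g h).2.1
  exact h1

variable {X : Type} [Fintype X] [DecidableEq X]

theorem mul_diag_mul {K : Type} [CommRing K] (A : Matrix X X K) (φ : X → K) (a b : X) :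
    (A * Matrix.diagonal φ * A) a b = ∑ c, A a c * φ c * A c b := by
  rw [Matrix.mul_apply]
  refine Finset.sum_congr rfl fun c _ => ?_
  rw [Matrix.mul_diagonal]

theorem sum_ind_real (b : Finset X) (f : X → ℝ) :
    ∑ c, f c * ind b c = ∑ c : b, f c := by
  rw [Finset.sum_coe_sort b f]
  simp only [ind, mul_ite, mul_one, mul_zero]
  rw [Finset.sum_ite_mem, Finset.univ_inter]

theorem sum_ind_complex (b : Finset X) (f : X → ℂ) :
    ∑ c, f c * ((ind b c : ℝ) : ℂ) = ∑ c : b, f c := by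
  rw [Finset.sum_coe_sort b f]
  have : ∀ c, f c * ((ind b c : ℝ) : ℂ) = if c ∈ b then f c else 0 := by
    intro c
    simp only [ind]
    split_ifs <;> simp
  simp only [this]
  rw [Finset.sum_ite_mem, Finset.univ_inter]

theorem bkj : BkjStmt := by
  intro hJ X _ _ b q Gm kf G κ mb hH
  obtain ⟨hc, _, hadd, hconj, _, _, _, _⟩ := hJ b ℂ q
  have hG := hH.hG
  refine ⟨?_, ?_, ?_⟩
  · intro x y
    refine hj_cast (hadd _ _ _ _ _ _ _ _ (hG x y) (hG x y)).2.2 ?_ ?_ ?_ ?_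
    · funext r
      simp only [BB]
      ring
    · simp only [BB]
      ring
    · funext c
      simp only [dB, gG]
      ring
    · rw [Matrix.add_apply, mul_diag_mul]
      have e1 : ∑ c, BB G x c * ((ind b c : ℝ) : ℂ) * BB G c y =
          ∑ c : b, -(G x c * G c y) * -(G x c * G c y) := by
        rw [← sum_ind_complex b (fun c => -(G x c * G c y) * -(G x c * G c y))]
        refine Finset.sum_congr rfl fun c _ => ?_
        simp only [BB]
        ring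
      rw [e1]
      simp only [EB, gG]
      ring
  · intro x y
    have h1 := (hconj _ _ _ _ (hG x y)).1
    have h2 := (hadd _ _ _ _ _ _ _ _ h1 (hG x y)).2.2
    have hn : ∀ z : ℂ, RCLike.re ((starRingEnd ℂ) z * z) = ‖z‖ ^ 2 := by
      intro z
      rw [← Complex.normSq_eq_norm_sq, mul_comm, Complex.mul_conj]
      exact Complex.ofReal_re _
    have h4 := hj_re hJ h2
    refine hj_cast h4 ?_ ?_ ?_ ?_
    · funext r
      exact hn _
    · exact hn _
    · funext c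
      simp only [dK, gG, map_neg, map_mul]
      simp only [Complex.neg_re, Complex.mul_re, Complex.add_re, Complex.conj_re, Complex.conj_im,
        Complex.mul_im, Complex.neg_im]
      ring
    · rw [Matrix.add_apply, mul_diag_mul]
      have e1 : ∑ c, KK G x c * ind b c * KK G c y =
          (∑ c : b, (starRingEnd ℂ) (-(G x c * G c y)) * -(G x c * G c y)).re := by
        rw [Complex.re_sum]
        have e2 : ∀ c : b, ((starRingEnd ℂ) (-(G x c * G c y)) * -(G x c * G c y)).re =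
            ‖G x c‖ ^ 2 * ‖G c y‖ ^ 2 := by
          intro c
          have := hn (-(G x c * G c y))
          rw [norm_neg, norm_mul, mul_pow] at this
          exact this
        rw [Finset.sum_congr rfl fun c _ => e2 c]
        rw [← sum_ind_real b (fun c => ‖G x c‖ ^ 2 * ‖G c y‖ ^ 2)]
        refine Finset.sum_congr rfl fun c _ => ?_
        simp only [KK]
        ring
      rw [e1]
      simp only [EK, gG, Complex.add_re]
      simp only [Complex.mul_re, Complex.conj_re, Complex.conj_im]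
      ring
  · intro x y
    exact hG x y

end Pool.Agent.AFJ.H92
end
end -- Pool.Agent.Helper92_AFJ.BKJ

section -- Pool.Agent.Helper48_AFL.All

/-!
# FLO: the block lemma, without hypotheses
-/

set_option autoImplicit false

open MeasureTheory ProbabilityTheory

open scoped BigOperators Matrix

noncomputable section

namespace Pool.Agent.AFL.H48

open Pool.Agent.LE.QF Pool.Agent.AFJ Pool.Agent.ABY

theorem jalT : JalStmt := Pool.Agent.LE.QF.H77.jal

theorem jmaT : JmaStmt := Pool.Agent.LE.QF.H32.jma jalT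

theorem ytjT : YtjStmt := Pool.Agent.LE.QF.H27.ytj jalT jmaT Pool.Agent.LE.QF.H41.tri

theorem uflT : UflStmt :=
  Pool.Agent.LE.QF.H70.ufl jalT (Pool.Agent.LE.QF.H2.flw Pool.Agent.LE.QD.H65.ste)

/-- FLO, no hypotheses. -/
theorem floT : FloStmt :=
  flo jalT jmaT ytjT uflT (Pool.Agent.LE.QF.H67.pwu jalT) (Pool.Agent.LE.QF.H65.lmu jalT)
    Pool.Agent.AFJ.H6.bgj Pool.Agent.AFJ.H92.bkj Pool.Agent.AFJ.H32.bej Pool.Agent.AFJ.H13.laj
    Pool.Agent.AFJ.H44.bet_ Pool.Agent.AFJ.H1.nbw Pool.Agent.AFJ.H87.dre Pool.Agent.AFJ.H1.enb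
    Pool.Agent.ABY.H10.cmp Pool.Agent.ABY.H82.vex Pool.Agent.ABY.H10.tsp Pool.Agent.ABY.H59.vjt
    Pool.Agent.ABY.H19.vgr Pool.Agent.ABY.H41.vdr Pool.Agent.ABY.H41.vbl Pool.Agent.AFL.H20.net
    Pool.Agent.AFL.H56.eub Pool.Agent.AFL.H56.pta Pool.Agent.AFL.H82.kup Pool.Agent.AFL.H67.nbl nbo
    Pool.Agent.AFL.H67.ltl Pool.Agent.AFL.H46.ptg Pool.Agent.AFL.H10.ptl Pool.Agent.AFL.H81.pty
    Pool.Agent.AFL.H86.nub Pool.Agent.AFL.H21.drb

end Pool.Agent.AFL.H48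
end
end -- Pool.Agent.Helper48_AFL.All

section -- Pool.Agent.Helper90_AHH.FlowNZ

/-!
# AHH: `FlowNStmt`
-/

set_option autoImplicit false

namespace Pool.Agent.AHH.H90

/-- THE NUMBERS OF THE INCREMENTS -/
theorem flowNStmt : H58.FlowNStmt := fun d a c C hd _ hc _ _ => flowN d a c C (by omega) hc

end Pool.Agent.AHH.H90
end -- Pool.Agent.Helper90_AHH.FlowNZ

section -- Pool.Agent.Helper58_AHH.FloFin

/-!
# The field `flo` without hypotheses (helper58)
-/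

set_option autoImplicit false

namespace Pool.Agent.AHH.H58

/-- THE FIELD FLO -/
theorem floFin : Pool.Agent.AHH.FloF :=
  floF Pool.Agent.AFL.H48.floT Pool.Agent.AHH.H90.flowNStmt Pool.Agent.AHH.H22.frmZ

end Pool.Agent.AHH.H58
end -- Pool.Agent.Helper58_AHH.FloFin

section -- Pool.Agent.Helper22_QDU.H17NumZ
/-!
# AND2B: the numbers of the block lemma for the concrete budget, in the form `Ev2`

`numZ`: eventually, for all stages, `EOk`, `BNum` and the bound `V.p n` of the probability.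
-/

set_option autoImplicit false

open scoped BigOperators NNReal

noncomputable section

namespace Pool.Agent.QDU.H17

open Pool.Agent.AHH hiding BegF FinF FloF IniF KilF MmonF OutF RbegF RfinF RmonF ana0
open Pool.Agent.AHH.H17 hiding numZ

open Pool.Agent.BED (Tor)

open Pool.Agent.ANP (Cfg)
open Pool.Agent.AND.Num
open Pool.Agent.AHH.H61 hiding budOk ev_be ev_c1 ev_e0 ev_good ev_small ev_small_be ev_th
open Pool.Agent.QDU.H61

open Pool.Agent.AHH.H67 (Par flOf BNum EOk CF one_le_CF)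
open Pool.Agent.AFL (Fl)
open Pool.Agent.AFL.H17 (Pq Cs Out rp_mul rp_sq prn_of KL_le exp_sg)

variable {d : ℕ}

section

variable {V : AND2B.Env d} {a c C Cf : ℝ} {n k : ℕ}

end

/-- the constants, uniformly in `th`; `KL` is fixed -/
theorem cs_u (d : ℕ) {c C Cf : ℝ} (hc : 0 < c) (hC : 1 ≤ C) (hCf : 0 ≤ Cf) {C₁ : ℝ} {α : ℕ}
    (hα : 2 ≤ α) {ω : ℝ} (hω : 0 < ω) :
    Cs (c / 2) (2 * C) Cf (c / 4) (T1 d C) 1 2 ω (4 * C) (2 + cpd d) (1 / 200)
      (kaf α / 4) (Kcf d α C₁) (kaf α / 64) := by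
  have hcp := one_le_cpd d
  have hT0 := T1_pos d hC
  have hka := kaf_pos α
  have hka1 := kaf_le hα
  have a1 : T1 d C ≤ 1 / (8 * C) := min_le_left _ _
  have a2 : T1 d C ≤ Real.log 2 / (3 * (4 * ((2 + cpd d) + 1) * (4 * C) + 32 * (4 * C))) :=
    min_le_right _ _
  rw [le_div_iff₀ (by positivity)] at a1 a2
  exact
    { c0 := by positivity
      C0 := by positivity
      C := hCf
      k := by positivity
      t := hT0.le
      cL := one_pos
      CL := by norm_num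
      om := hω
      r := by positivity
      N := by positivity
      tC := by nlinarith only [hka, hka1, a1]
      tr := by nlinarith only [a1]
      ex := by
        have h3 : 3 * AFL.H17.a0 (T1 d C) (4 * C) (2 + cpd d) ≤ Real.log 2 := by
          unfold AFL.H17.a0
          calc _ = T1 d C * (3 * (4 * ((2 + cpd d) + 1) * (4 * C) + 32 * (4 * C))) := by ring
            _ ≤ _ := a2
        calc Real.exp (3 * AFL.H17.a0 (T1 d C) (4 * C) (2 + cpd d)) ≤ Real.exp (Real.log 2) :=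
              Real.exp_le_exp.2 h3
          _ = 2 := Real.exp_log (by norm_num)
      e0 := by norm_num
      e1 := by norm_num
      c6 := by positivity
      c61 := by linarith only [hka, hka1]
      Kc := by unfold Kcf; positivity
      g := by positivity
      ge := by linarith only [hka, hka1]
      gc := by linarith only }

theorem KL_u {K : ℕ} (h : 1 ≤ K) : (1 / (1 + 3 / (K : ℝ))) ^ K ≤ 1 / 4 := by
  have hK : (0 : ℝ) < K := by exact_mod_cast h
  have h3 : 1 + (K : ℝ) * (3 / K) ≤ (1 + 3 / (K : ℝ)) ^ K :=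
    one_add_mul_le_pow (by have : (0 : ℝ) < 3 / K := by positivity
                           linarith only [this]) K
  have h4 : (K : ℝ) * (3 / K) = 3 := by field_simp
  rw [h4] at h3
  rw [one_div, inv_pow, one_div]
  exact inv_anti₀ (by norm_num) (by linarith only [h3])

/-- all the conditions on small clocks, uniformly in `th` -/
theorem smZ_u (d : ℕ) {c C Cf : ℝ} (hc : 0 < c) (hC : 1 ≤ C) (hCf : 0 ≤ Cf) {b : ℝ≥0}
    {C₁ : ℝ} {α : ℕ} (hb1 : b < 1) (hα : 2 ≤ α) :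
    Small fun s => ∀ th : ℝ≥0, 1 / 2 ≤ th → th ≤ b → SmZ d c C Cf th C₁ α s := by
  have hT0 := T1_pos d hC
  have hcp := one_le_cpd d
  have h1 := smP d α
  have h2 : Small fun s => 3 * s ^ (1 / 20 : ℝ) ≤ 1 / 4 := by
    refine (small_pow' 3 (1 / 4) (1 / 20) 0 (by norm_num) (by norm_num)).mono ?_
    intro s _ hh
    simpa using hh
  have h3 : Small fun s => (2 + cpd d) * s ^ (1 / 8 - 1 / 200 : ℝ) ≤ 1 / 4 := by
    refine (small_pow' (2 + cpd d) (1 / 4) (1 / 8 - 1 / 200) 0 (by norm_num)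
      (by norm_num)).mono ?_
    intro s _ hh
    simpa using hh
  have h4 : ∀ K : Fin (⌈3 / w0f d b⌉₊ + 1), Small fun s => 1 ≤ (K : ℕ) →
      ∀ (X : Type) [Fintype X] [DecidableEq X] (F : Fl X),
        Pq F (c / 4) (T1 d C) 1 2 (3 / ((K : ℕ) : ℝ)) (4 * C) (2 + cpd d) (1 / 200) (kaf α / 4)
          (Kcf d α C₁) (kaf α / 64) K s → Out F (c / 2) (2 * C) Cf (kaf α / 64) s := by
    intro K
    by_cases hK : 1 ≤ (K : ℕ)
    · have hK0 : (0 : ℝ) < ((K : ℕ) : ℝ) := by exact_mod_cast hK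
      exact (prn_of (cs_u d (C₁ := C₁) hc hC hCf hα (div_pos (by norm_num) hK0)) K hK
        (KL_u hK)).mono fun s _ h _ => h
    · exact small_le 1 one_pos |>.mono fun s _ _ h => absurd h hK
  refine ((((h1.and h2).and h3).and (Small.all h4))).mono ?_
  rintro s hs ⟨⟨⟨a1, a2⟩, a3⟩, a4⟩ th hth hthb
  refine ⟨a1, a2, a3, fun hT X _ _ F hF => ?_⟩
  have g1 : (1 / 2 : ℝ) ≤ th := by exact_mod_cast hth
  have g2 : (th : ℝ) ≤ b := by exact_mod_cast hthb
  have g3 : (b : ℝ) < 1 := by exact_mod_cast hb1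
  have hw : w0f d b ≤ w0f d th := by
    unfold w0f
    exact div_le_div_of_nonneg_right (by linarith only [hthb]) (by positivity)
  have hw0 : 0 < w0f d b := by unfold w0f; exact div_pos (by linarith only [hb1]) (by positivity)
  have hK1 : ⌈3 / w0f d th⌉₊ ≤ ⌈3 / w0f d b⌉₊ :=
    Nat.ceil_mono (div_le_div_of_nonneg_left (by norm_num) hw0 hw)
  have hK2 : 1 ≤ ⌈3 / w0f d th⌉₊ := by
    have : 0 < 3 / w0f d th := div_pos (by norm_num) (lt_of_lt_of_le hw0 hw)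
    exact Nat.one_le_iff_ne_zero.2 (Nat.ceil_pos.2 this).ne'
  refine a4 ⟨⌈3 / w0f d th⌉₊, by omega⟩ hK2 X F ?_
  have ht : t1f c th ≤ T1 d C := t1f_le hc hT0.le hth hT
  have hκ : 0 ≤ F.κv := by
    have h5 := hF.k0
    have h6 : 0 ≤ k0f c th * s := by unfold k0f; positivity
    linarith only [h5, h6]
  exact
    { T0 := hF.T0
      Tk := hF.Tk.trans (mul_le_mul_of_nonneg_right ht hκ)
      k0 := by
        refine le_trans (mul_le_mul_of_nonneg_right ?_ hs.le) hF.k0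
        unfold k0f
        nlinarith only [hc, hth]
      k1 := hF.k1
      r0 := hF.r0
      r1 := hF.r1
      N0 := hF.N0
      N1 := hF.N1
      dl := hF.dl
      dy := hF.dy
      L0 := hF.L0
      L1 := hF.L1
      om := by
        refine le_trans ?_ hF.om
        have h6 : 3 / w0f d th ≤ ((⌈3 / w0f d th⌉₊ : ℕ) : ℝ) := Nat.le_ceil _
        have h7 : 0 < w0f d th := lt_of_lt_of_le hw0 hw
        have h8 : (0 : ℝ) < ((⌈3 / w0f d th⌉₊ : ℕ) : ℝ) := by exact_mod_cast hK2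
        show 3 / ((⌈3 / w0f d th⌉₊ : ℕ) : ℝ) ≤ w0f d th
        rw [div_le_iff₀ h7] at h6
        rw [div_le_iff₀ h8]
        linarith only [h6]
      ep := hF.ep
      ep1 := hF.ep1
      e1 := hF.e1
      e11 := hF.e11
      s1 := hF.s1
      s8 := hF.s8
      s3 := hF.s3
      s2n := hF.s2n
      s2 := hF.s2
      q1 := hF.q1
      q := hF.q
      n := hF.n
      nL := hF.nL
      z := hF.z
      l0 := hF.l0 }

/-- THE NUMBERS: eventually, for all stages -/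
theorem numZ (d : ℕ) {a c C Cf : ℝ} (hc : 0 < c) (hc1 : c ≤ 1 / 2) (hC : 1 ≤ C)
    (hCf : 0 ≤ Cf) : Ev2 d a es c C fun V => ∀ n k, n ≤ V.N → V.kk n ≤ k → k < V.kk (n + 1) →
      EOk (toE V c C) k ∧
      (∀ rG : ℝ, rG ≤ 3 * C → BNum (toE V c C) (bud V) n k rG (parZ V c C n k)) ∧
      ∀ (T : Cfg (Tor d (2 ^ V.μ))) (b Q Q1 run U Yg : Finset (Tor d (2 ^ V.μ))),
        (Q1.card : ℝ) ≤ ((2 : ℝ) ^ (V.l n + 4)) ^ d →
        (Q.card : ℝ) ≤ ((2 : ℝ) ^ (V.l n + 4)) ^ d →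
        (flOf (toE V c C) T b Q Q1 run U Yg k (parZ V c C n k)).pr (c / 2) (2 * C) Cf ≤
          V.p n := by
  have hT1 := T1_pos d hC
  have h1 : Ev2 d a es c C fun V => ∀ s : ℝ, 0 < s → s ≤ V.w →
      SmZ d c C Cf V.th V.C₁ V.α s :=
    ev_smallu (fun th _ C₁ α _ s => SmZ d c C Cf th C₁ α s)
      fun b _ C₁ α _ _ h2 _ h3 => smZ_u d hc hC hCf h2 h3
  have h2 : Ev2 d a es c C fun V => V.β ≤ kaf V.α / 128 :=
    ev_be (fun _ _ α _ => kaf α / 128) fun _ _ α _ _ _ => by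
      have := kaf_pos α
      positivity
  have h3 : Ev2 d a es c C fun V => 1 - c * T1 d C / 4 ≤ (V.th : ℝ) :=
    ev_th (c * T1 d C / 4) (by positivity)
  have h4 : Ev2 d a es c C fun V => 1 - 1 / 3 ≤ (V.th : ℝ) := ev_th (1 / 3) (by norm_num)
  have h5 : Ev2 d a es c C fun V => V.e₀ ≤ e0f c V := by
    refine ev_e0 (fun V => e0f c V) (fun V hV => ?_) fun _ _ _ _ => rfl
    have hCF := one_le_CF d
    have hL := hV.hL
    have hs := sg_pos hV (V.N + 1)
    unfold e0f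
    exact lt_min (by positivity) (by positivity)
  refine (((((ev_good.and h1).and h2).and h3).and h4).and h5).imp fun V hV => ?_
  obtain ⟨⟨⟨⟨⟨hG, g1⟩, g2⟩, g3⟩, g4⟩, g5⟩ := hV
  intro n k hn hk hk'
  have hP := hG.toPre
  have hth : 2 / 3 ≤ (V.th : ℝ) := by linarith only [g4]
  have hW := g1 V.w (w_pos hP) le_rfl
  have hS := g1 (V.cl k) (cl_pos' hP k) (cl_le' hP k)
  exact ⟨eOk hG hth hc hc1 hC k,
    fun rG hr => bnum hG hth hc hc1 hC hn hk hk' g3 g5 hW hS hr,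
    fun T b Q Q1 run U Yg hQ1 hQ => prZ hG hc hc1 hC hn hk g3 g2 hW hS T b Q Q1 run U Yg hQ1 hQ⟩

end Pool.Agent.QDU.H17
end
end -- Pool.Agent.Helper22_QDU.H17NumZ

section -- Pool.Agent.Helper22_QDU.H89LclZ
/-!
# FAR: the numbers of the concrete environment
-/

set_option autoImplicit false

open scoped BigOperators Matrix NNReal

noncomputable section

namespace Pool.Agent.QDU.H89

open Pool.Agent.ANR
open Pool.Agent.ANR.H89 hiding ev_cI ev_dn ev_w1 lclZ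

open Pool.Agent.ANR
open Pool.Agent.BED (Tor adj ev)
open Pool.Agent.ANP (Cfg Geo Fc)
open Pool.Agent.AND2B (Gt)
open Pool.Agent.AND.Num
open Pool.Agent.AHH (toE Al gg Old Ded)
open Pool.Agent.AHH.H61 hiding budOk ev_be ev_c1 ev_e0 ev_good ev_small ev_small_be ev_th
open Pool.Agent.QDU.H61

variable {d : ℕ}

/-! ### The numbers of the dead sites -/

variable {a es c C : ℝ}

/-- `w ≤ 1` -/
theorem ev_w1 : Ev2 d a es c C fun V => (V.w : ℝ) ≤ 1 := by
  refine Ev2.imp (fun V h => ?_) (ev_good.and (ev_small (fun _ _ _ _ s => s ≤ 1)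
    fun _ _ _ _ _ _ _ _ _ => small_le 1 one_pos))
  exact h.2 V.w (by exact_mod_cast h.1.w) le_rfl

/-- the number of the dead sites is small against the scales -/
theorem ev_dn (K p : ℝ) (hp : 9 / 4 < p) :
    Ev2 d a es c C fun V => ∀ n ≤ V.N,
      K * (1 + ∑ i ∈ Finset.range (n + 1), (3 ^ d * V.Dn i : ℝ)) ≤ V.sg (n + 1) ^ (-p) := by
  refine Ev2.imp (fun V h => ?_) ((ev_good.and ev_w1).and (ev_smallm (fun th _ _ _ _ s =>
    max K 0 * (1 + 3 ^ d / (1 - (th : ℝ))) * s ^ (-(9 / 4) : ℝ) ≤ s ^ (-p))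
    (fun th b _ _ _ _ s _ g2 g3 g4 h => (mul_le_mul_of_nonneg_right (mul_le_mul_of_nonneg_left
      (by have := gapi g2 g3 (K := 3 ^ d) (by positivity); linarith only [this]) (le_max_right _ _))
      (Real.rpow_nonneg g4.le _)).trans h)
    fun th c₁ C₁ α J _ _ _ _ => small_pow _ _ _ (by linarith only [hp])))
  obtain ⟨⟨h1, h2⟩, h3⟩ := h
  intro n hn
  have h4 := dn_sum h1.toPre h2 hn
  have h5 := h3 (V.sg (n + 1)) (sg_pos h1.toPre _) (sg_le h1.toPre _)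
  refine le_trans ?_ h5
  have h6 : (0 : ℝ) ≤ 1 + ∑ i ∈ Finset.range (n + 1), (3 ^ d * V.Dn i : ℝ) := by positivity
  calc K * (1 + ∑ i ∈ Finset.range (n + 1), (3 ^ d * V.Dn i : ℝ)) ≤
      max K 0 * (1 + ∑ i ∈ Finset.range (n + 1), (3 ^ d * V.Dn i : ℝ)) :=
        mul_le_mul_of_nonneg_right (le_max_left _ _) h6
    _ ≤ max K 0 * ((1 + 3 ^ d / (1 - (V.th : ℝ))) * V.sg (n + 1) ^ (-(9 / 4) : ℝ)) :=
        mul_le_mul_of_nonneg_left h4 (le_max_right _ _)
    _ = _ := by ring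

/-- the constant of the alive distance against the side of the blocks and the radius of the releases -/
theorem ev_cI (K : ℝ) :
    Ev2 d a es c C fun V => ∀ n ≤ V.N,
      K * (cI d V.Dn (Finset.range (n + 1)) + 1) ≤ V.G.L n ∧
      K * (cI d V.Dn (Finset.range (n + 1)) + 1) ≤ V.G.ρ n := by
  refine Ev2.imp (fun V h => ?_) ((ev_good.and ev_w1).and (ev_dn (2 * K) 3 (by norm_num)))
  obtain ⟨⟨h1, h2⟩, h3⟩ := h
  intro n hn
  have h4 := h3 n hn
  have h5 : K * (cI d V.Dn (Finset.range (n + 1)) + 1) =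
      2 * K * (1 + ∑ i ∈ Finset.range (n + 1), (3 ^ d * V.Dn i : ℝ)) := by
    unfold cI; ring
  rw [h5]
  have hs := sg_pos h1.toPre (n + 1)
  have hs1 : V.sg (n + 1) ≤ 1 := (sg_le h1.toPre _).trans h2
  constructor
  · refine h4.trans ?_
    have h6 := h1.sc.llow n hn
    have h7 : V.sg (n + 1) ^ (-(3 : ℝ)) ≤ V.sg (n + 1) ^ (-(5 : ℝ)) :=
      Real.rpow_le_rpow_of_exponent_ge hs hs1 (by norm_num)
    have h8 : ((V.G.L n : ℕ) : ℝ) = 2 ^ V.l n := by
      show (((2 ^ V.l n : ℕ)) : ℝ) = 2 ^ V.l n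
      push_cast; rfl
    rw [h8]
    exact h7.trans h6
  · refine h4.trans ?_
    have h6 := h1.sc.rlow n hn
    have h8 : ((V.G.ρ n : ℕ) : ℝ) = 2 ^ V.r n := by
      show (((2 ^ V.r n : ℕ)) : ℝ) = 2 ^ V.r n
      push_cast; rfl
    rw [h8]
    exact h6

/-! ### Locality -/

/-- LOCALITY FOR THE CONCRETE NUMBERS -/
theorem lclZ (d : ℕ) (hd : 1 ≤ d) (a es c C : ℝ) (hc : 0 < c) (hc1 : c ≤ 2) :
    Ev2 d a es c C fun V => ∀ n ≤ V.N, ∀ k, V.kk n ≤ k → k < V.kk (n + 1) →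
      ∀ (P run : Finset V.X) (T : Cfg V.X) (B : V.X), (∀ x ∈ Al T, c / 2 ≤ gg T x) →
        V.Fc n k P T run → Old (toE V c C) n T → Ded (toE V c C) n T → V.G.bl n B = B →
        (run ∩ V.G.blk n B).Nonempty →
        AHH.H67.Lcl (toE V c C) T (run ∩ V.G.blk n B) (AHH.H67.Q1s (toE V c C) n T B)
          (AHH.H67.Yo (toE V c C) n T) k (AHH.H17.parZ V c C n k) := by
  have hd' : (1 : ℝ) ≤ d := by exact_mod_cast hd
  have hd0 : (0 : ℝ) < d := by linarith
  refine Ev2.imp (fun V h => ?_) (((ev_good.and ev_w1).and (ev_cI 4)).and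
    (ev_small (fun _ _ α _ s =>
      (4 / (c / 2) ^ 4 * s ^ (-(4 : ℝ)) * Real.exp (-((c / 2) / (16 * d) * s ^ (-(4 : ℝ)))) ≤
        s ^ (1 : ℝ) ∧
      4 / (c / 2) * s ^ (-(1 : ℝ)) * Real.exp (-((c / 2) / (16 * d) * s ^ (-(4 : ℝ)))) ≤
        s ^ (1 : ℝ)) ∧
      2 / (c / 2) * s ^ (-((α : ℝ) + 1)) *
        Real.exp (-((c / 2) / (4 * d) * s ^ (-(2 : ℝ)))) ≤ s ^ (10 * ((α : ℝ) + 1)))
    fun th c₁ C₁ α J _ _ _ _ => ((small_exp_pow _ _ _ _ _ (by positivity) (by norm_num)).and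
      (small_exp_pow _ _ _ _ _ (by positivity) (by norm_num))).and
      (small_exp_pow _ _ _ _ _ (by positivity) (by norm_num))))
  obtain ⟨⟨⟨h1, hw1⟩, hcI⟩, hsm⟩ := h
  intro n hn k hk1 hk2 P run T B hg hF hO hD hB hne
  have hp := h1.toPre
  have hth : V.th ≤ 1 := h1.th.2.le
  have hth0 := th_pos hp
  have hσ := sg_pos hp (n + 1)
  have hσ1 : V.sg (n + 1) ≤ 1 := (sg_le hp _).trans hw1
  have hsm1 := (hsm (V.sg (n + 1)) hσ (sg_le hp _)).1
  have hclk1 : V.sg (n + 1) ≤ V.cl (k + 1) := cl_anti' hp (by omega)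
  have hclk : V.sg (n + 1) ≤ V.cl k := cl_anti' hp (by omega)
  have hclk0 : (0 : ℝ) < V.cl (k + 1) := cl_pos' hp _
  have hLn : ((V.G.L n : ℕ) : ℝ) = 2 ^ V.l n := by
    show (((2 ^ V.l n : ℕ)) : ℝ) = 2 ^ V.l n
    push_cast; rfl
  have hll := h1.sc.llow n hn
  rw [← hLn] at hll
  -- the exponent
  have hexp : Real.exp (-(c / 2 * V.cl (k + 1) / (16 * d) * V.G.L n)) ≤
      Real.exp (-((c / 2) / (16 * d) * V.sg (n + 1) ^ (-(4 : ℝ)))) := by
    apply Real.exp_le_exp.2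
    rw [neg_le_neg_iff]
    have e1 : V.sg (n + 1) ^ (-(4 : ℝ)) = V.sg (n + 1) * V.sg (n + 1) ^ (-(5 : ℝ)) := by
      have := Real.rpow_add hσ 1 (-5)
      rw [Real.rpow_one] at this
      rw [← this]; norm_num
    rw [e1]
    calc c / 2 / (16 * d) * (V.sg (n + 1) * V.sg (n + 1) ^ (-(5 : ℝ))) ≤
        c / 2 / (16 * d) * (V.cl (k + 1) * V.G.L n) := by
          refine mul_le_mul_of_nonneg_left ?_ (by positivity)
          exact mul_le_mul hclk1 hll (Real.rpow_nonneg hσ.le _) hclk0.le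
      _ = _ := by ring
  have hinv : ∀ q : ℕ, 1 / (V.cl (k + 1) : ℝ) ^ q ≤ V.sg (n + 1) ^ (-(q : ℝ)) := fun q => by
    rw [Real.rpow_neg hσ.le, Real.rpow_natCast, one_div]
    exact inv_anti₀ (by positivity) (pow_le_pow_left₀ hσ.le hclk1 q)
  refine lcl (V := toE V c C) (geoF_T d V.μ V.J V.N V.l V.r h1.sc.lm) hth
    (fun k => AHH.cl_succ V k) (fun k => AHH.cl_pos V h1.w hth0 k) ?_ h1.e0 (by
      show 0 < c / 2
      positivity) (by show c / 2 ≤ 1; linarith only [hc1]) hg hF ?_ h1.sc.k0 hO hD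
    (hsum_G hp (by omega)) (hcI n hn).1 ?_ hB hne ?_ ?_ ?_ ?_
  · show V.cl 0 ≤ 1
    rw [AHH.cl_zero]
    exact_mod_cast hw1
  · show V.kk (n - 1) ≤ k
    exact (kk_mono hp (by omega)).trans hk1
  · intro m hm
    have e1 := (hcI m (by omega)).2
    have e2 := cI_pos d V.Dn (Finset.range (m + 1))
    show cI d V.Dn (Finset.range (m + 1)) + 1 / 2 ≤ (V.G.ρ m : ℝ) / 2
    linarith only [e1, e2]
  · -- `L`
    show 4 / (c / 2 * V.cl (k + 1)) ^ 4 * Real.exp (-(c / 2 * V.cl (k + 1) / (16 * d) * V.G.L n)) ≤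
      4 * (AHH.qq V n k).lam
    have e1 : (1 : ℝ) ≤ 4 * (AHH.qq V n k).lam := by
      show (1 : ℝ) ≤ 4 * (1 / 4 * (V.cl k : ℝ) ^ (-(3 / 4) : ℝ) * (2 - V.sg n ^ (1 / 400 : ℝ)))
      have e2 : (1 : ℝ) ≤ (V.cl k : ℝ) ^ (-(3 / 4) : ℝ) :=
        Real.one_le_rpow_of_pos_of_le_one_of_nonpos (cl_pos' hp k)
          ((cl_le' hp k).trans hw1) (by norm_num)
      have e3 : V.sg n ^ (1 / 400 : ℝ) ≤ 1 :=
        Real.rpow_le_one (sg_pos hp n).le ((sg_le hp n).trans hw1) (by norm_num)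
      nlinarith only [e2, e3]
    refine le_trans ?_ e1
    have e4 : V.sg (n + 1) ^ (1 : ℝ) ≤ 1 := by rw [Real.rpow_one]; exact hσ1
    refine le_trans ?_ (hsm1.1.trans e4)
    have e5 := hinv 4
    push_cast at e5
    calc 4 / (c / 2 * V.cl (k + 1)) ^ 4 *
          Real.exp (-(c / 2 * V.cl (k + 1) / (16 * d) * V.G.L n)) =
        4 / (c / 2) ^ 4 * (1 / (V.cl (k + 1) : ℝ) ^ 4) *
          Real.exp (-(c / 2 * V.cl (k + 1) / (16 * d) * V.G.L n)) := by
          rw [mul_pow]; field_simp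
      _ ≤ _ := by
          refine mul_le_mul ?_ hexp (Real.exp_pos _).le (by positivity)
          exact mul_le_mul_of_nonneg_left e5 (by positivity)
  · -- `δ`
    show 4 / (c / 2 * V.cl (k + 1)) * Real.exp (-(c / 2 * V.cl (k + 1) / (16 * d) * V.G.L n)) ≤
      (V.cl k : ℝ) ^ (1 / 8 - 1 / 200 : ℝ)
    have e1 : V.sg (n + 1) ^ (1 : ℝ) ≤ (V.cl k : ℝ) ^ (1 / 8 - 1 / 200 : ℝ) :=
      (Real.rpow_le_rpow_of_exponent_ge hσ hσ1 (by norm_num)).trans
        (Real.rpow_le_rpow hσ.le hclk (by norm_num))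
    refine le_trans ?_ (hsm1.2.trans e1)
    have e5 := hinv 1
    push_cast at e5
    rw [pow_one] at e5
    calc 4 / (c / 2 * V.cl (k + 1)) *
          Real.exp (-(c / 2 * V.cl (k + 1) / (16 * d) * V.G.L n)) =
        4 / (c / 2) * (1 / (V.cl (k + 1) : ℝ)) *
          Real.exp (-(c / 2 * V.cl (k + 1) / (16 * d) * V.G.L n)) := by
          field_simp
      _ ≤ _ := by
          refine mul_le_mul ?_ hexp (Real.exp_pos _).le (by positivity)
          exact mul_le_mul_of_nonneg_left e5 (by positivity)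
  · show 0 ≤ (V.cl k : ℝ) ^ (10 : ℝ)
    exact Real.rpow_nonneg (NNReal.coe_nonneg _) _
  · -- the old sites
    intro m hm
    show 2 / (c / 2 * V.cl (k + 1)) *
      Real.exp (-(c / 2 * V.cl (V.kk (m + 1)) / (4 * d) * V.G.ρ m)) ≤ (V.cl k : ℝ) ^ (10 : ℝ)
    subst hm
    have hy := sg_pos hp (m + 1)
    have hsm2 := (hsm (V.sg (m + 1)) hy (sg_le hp _)).2
    have hlow := h1.sc.low (m + 1) hn
    have hlow' : V.sg (m + 1) ^ ((V.α : ℝ) + 1) ≤ V.sg (m + 1 + 1) := by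
      have e1 : V.sg (m + 1) ^ ((V.α : ℝ) + 1) = V.sg (m + 1) ^ (V.α + 1) := by
        rw [← Real.rpow_natCast]; push_cast; rfl
      rw [e1]; exact hlow
    have hρ : V.sg (m + 1) ^ (-(3 : ℝ)) ≤ V.G.ρ m := by
      have e1 := h1.sc.rlow m (by omega)
      have h8 : ((V.G.ρ m : ℕ) : ℝ) = 2 ^ V.r m := by
        show (((2 ^ V.r m : ℕ)) : ℝ) = 2 ^ V.r m
        push_cast; rfl
      rw [h8]; exact e1
    have e0 : V.sg (m + 1) ^ (10 * ((V.α : ℝ) + 1)) ≤ (V.cl k : ℝ) ^ (10 : ℝ) := by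
      have e1 : V.sg (m + 1) ^ (10 * ((V.α : ℝ) + 1)) =
          (V.sg (m + 1) ^ ((V.α : ℝ) + 1)) ^ (10 : ℝ) := by
        rw [← Real.rpow_mul hy.le]; ring_nf
      rw [e1]
      exact Real.rpow_le_rpow (Real.rpow_nonneg hy.le _) (hlow'.trans hclk) (by norm_num)
    refine le_trans ?_ (hsm2.trans e0)
    have e5 : 1 / (V.cl (k + 1) : ℝ) ≤ V.sg (m + 1) ^ (-((V.α : ℝ) + 1)) := by
      rw [Real.rpow_neg hy.le, one_div]
      exact inv_anti₀ (Real.rpow_pos_of_pos hy _) (hlow'.trans hclk1)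
    have e6 : Real.exp (-(c / 2 * V.cl (V.kk (m + 1)) / (4 * d) * V.G.ρ m)) ≤
        Real.exp (-((c / 2) / (4 * d) * V.sg (m + 1) ^ (-(2 : ℝ)))) := by
      apply Real.exp_le_exp.2
      rw [neg_le_neg_iff]
      have e1 : V.sg (m + 1) ^ (-(2 : ℝ)) = V.sg (m + 1) * V.sg (m + 1) ^ (-(3 : ℝ)) := by
        have := Real.rpow_add hy 1 (-3)
        rw [Real.rpow_one] at this
        rw [← this]; norm_num
      rw [e1]
      have e2 : (V.cl (V.kk (m + 1)) : ℝ) = V.sg (m + 1) := rfl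
      rw [e2]
      calc c / 2 / (4 * d) * (V.sg (m + 1) * V.sg (m + 1) ^ (-(3 : ℝ))) ≤
          c / 2 / (4 * d) * (V.sg (m + 1) * V.G.ρ m) := by
            refine mul_le_mul_of_nonneg_left ?_ (by positivity)
            exact mul_le_mul_of_nonneg_left hρ hy.le
        _ = _ := by ring
    calc 2 / (c / 2 * V.cl (k + 1)) *
          Real.exp (-(c / 2 * V.cl (V.kk (m + 1)) / (4 * d) * V.G.ρ m)) =
        2 / (c / 2) * (1 / (V.cl (k + 1) : ℝ)) *
          Real.exp (-(c / 2 * V.cl (V.kk (m + 1)) / (4 * d) * V.G.ρ m)) := by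
          field_simp
      _ ≤ _ := by
          refine mul_le_mul ?_ e6 (Real.exp_pos _).le (by positivity)
          exact mul_le_mul_of_nonneg_left e5 (by positivity)

end Pool.Agent.QDU.H89
end
end -- Pool.Agent.Helper22_QDU.H89LclZ

section -- Pool.Agent.Helper22_QDU.H58FloZ
/-!
# The field `flo` (helper58)

`floF`: the field `flo` for the concrete budget, from the block lemma (`AFL.FloStmt`), the form part of the
increments (`FrmZStmt`) and the numbers of the increments (`FlowNStmt`).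
-/

set_option autoImplicit false

open MeasureTheory ProbabilityTheory

open scoped BigOperators NNReal ENNReal Matrix

noncomputable section

namespace Pool.Agent.QDU.H58

open Pool.Agent.AHH hiding BegF FinF FloF IniF KilF MmonF OutF RbegF RfinF RmonF ana0
open Pool.Agent.AHH.H58 hiding FlowNStmt FrmZStmt StZ floF

open Pool.Agent.LE.QF (BB KK)
open Pool.Agent.AND2B (net kap Viol Hr Vef Prd)
open Pool.Agent.ANP (Cfg Geo Fc gm)
open Pool.Agent.AFL (Fl)
open Pool.Agent.LTG (Box)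
open Pool.Agent.ANR.H89 (GeoF)
open Pool.Agent.AHH.H67 (Par flOf Yo Q1s Qs aB EOk GOk FNum BNum Lcl flOf_ok den_Z box_of_D
  box_mono fc_alv)
open Pool.Agent.AHH.H17 (parZ)

/-- a numeric fact for all stages -/
def StZ (Q : (d : ℕ) → ℝ → ℝ → AND2B.Env d → ℕ → ℕ → Prop) : Prop :=
  ∀ (d : ℕ) (a c C : ℝ), 3 ≤ d → 0 < a → 0 < c → c ≤ 1 / 2 → 1 ≤ C →
    Ev2 d a es c C fun V => ∀ n k, n ≤ V.N → V.kk n ≤ k → k < V.kk (n + 1) → Q d c C V n k

/-- the numbers of the increments -/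
def FlowNStmt : Prop := StZ fun _ c C V n k => FlowN (toE V c C) (bud V) n k (parZ V c C n k)

/-- the form part -/
def FrmZStmt : Prop := StZ fun _ c C V n k => ∀ (T₀ T : Cfg V.X) (run₀ run P : Finset V.X)
  (B : V.X) (ζ : V.X → ℝ), Md (toE V c C) (bud V) n k T₀ run₀ P T run →
    Fc V.G V.kk V.cl V.Dn n k P T run → V.G.bl n B = B → (run ∩ V.G.blk n B).Nonempty →
    Disjoint P (V.G.blk n B) → (flB V c C n k P T run B).Good (fun x => ζ x) →
      FrmI (toE V c C) (bud V) n k B T (T.hf V.th (run ∩ V.G.blk n B) ζ)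

/-- THE FIELD FLO -/
theorem floF (hfl : AFL.FloStmt) (h1 : FlowNStmt) (h6 : FrmZStmt) : FloF := by
  intro d a c C hd ha hc hc' hC
  obtain ⟨Cf, hCf, hfl⟩ := hfl (c / 2) (2 * C)
  have e1 := h1 d a c C hd ha hc hc' hC
  have e2 := H89.lclZ d (by omega) a es c C hc (by linarith only [hc, hc'])
  have e3 := H17.numZ d (a := a) (c := c) (C := C) (Cf := Cf) hc hc' hC (by linarith only [hc, hc', hCf])
  have e4 := H67.fnum d a c C hd hc hC
  have e6 := h6 d a c C hd ha hc hc' hC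
  have e7 := H61.nm d a c C hc hC
  have e9 : Ev2 d a es c C fun V => ∀ s : ℝ, 0 < s → s ≤ V.w → s ≤ 1 :=
    H61.ev_small (fun _ _ _ _ s => s ≤ 1) fun _ _ _ _ _ _ _ _ _ =>
      AND.Num.small_le 1 one_pos
  refine (((((((H61.ev_good.and e1).and e2).and e3).and e4).and e6).and e7).and
    e9).imp fun V hV => ?_
  obtain ⟨⟨⟨⟨⟨⟨⟨hG, e1⟩, e2⟩, e3⟩, e4⟩, e6⟩, e7⟩, e9⟩ := hV
  have hP : V.Pre a := hG.toPre
  have hw1 : (V.w : ℝ) ≤ 1 := e9 V.w (H61.w_pos hP) le_rfl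
  intro n k T₀ run₀ P T run B hn hk hk' hB hdj hV0 hVT hS0 hF0 hF hM
  have hN := e7 n k
  obtain ⟨hE, hBN, hpr⟩ := e3 n k hn hk hk'
  have hGo := gok (c := c) (C := C) hG hw1
  have hcla : Antitone (toE V c C).cl := fun i j hij => cl_anti V hP.th.2.le hij
  have hkk : Monotone (toE V c C).kk := fun i j hij => H61.kk_mono hP hij
  have hPsi : ∀ x, Psi (toE V c C).Γ n (P ∪ V.G.blk n B) x ≤ (toE V c C).Cp := fun x =>
    H61.Psi_le_Gt d V.μ V.J V.N V.l V.r n _ x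
  have hPsi' : ∀ x, Psi (toE V c C).Γ n P x ≤ (toE V c C).Cp := fun x =>
    H61.Psi_le_Gt d V.μ V.J V.N V.l V.r n _ x
  have hM' : Md (toE V c C) (bud V) n k T₀ run₀ P T run := hM
  have hF' : Fc (toE V c C).Γ (toE V c C).kk (toE V c C).cl (toE V c C).Dn n k P T run := hF
  have hu0 : (toE V c C).u₀ < 1 := by
    show 1 - 1 / (2 * C) < 1
    have : 0 < 1 / (2 * C) := by positivity
    linarith only [this]
  show FloB (toE V c C) (bud V) (V.p n) n k T₀ run₀ P T run B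
  rcases Finset.eq_empty_or_nonempty (run ∩ V.G.blk n B) with hb | hb
  · -- no running site
    refine flow_empty hN hB hdj hPsi ?_ hcla hkk hF' hM' (H67.md_al hM' hE) (H67.fc_alv hF' hE)
      hu0 ?_ hb
    · exact exp_le_cpd d
    · show 0 < gr V (ka V / 4) n k
      exact lt_of_lt_of_le (Real.rpow_pos_of_pos (H61.w_pos hP) _)
        (gr_bd V hP.th.2.le (by have := H61.ka_pos (V := V); linarith only [this]) n k).1
  · obtain ⟨J1, J2, hFN⟩ := e4 n k hn hk hk'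
    have hBN' := hBN C (by linarith only [hc, hc', hC])
    have hloc := e2 n hn k hk hk' P run T B (fun x hx => (H67.md_gau hM' hE x hx).1) hF' hM'.old
      hM'.ded hB hb
    have hlμ : V.l n + 4 ≤ V.μ := by
      have h1 := hP.sc.lN
      have h2 := hP.sc.lm hn
      omega
    have hok := okL (l := V.l) (r := V.r) (J := V.J) (N := V.N) hd (V := toE V c C) rfl
      hP.sc.lm hlμ hM' hE hF' hFN hBN' (ANR.H89.hsum_G hP (by omega)) hloc
      (fun x => hG.st.hG x x) hPsi' hVT hB hdj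
    have hcard : ((Qs T (aB (V.l n) B) (2 ^ (V.l n + 3))).card : ℝ) ≤
        ((2 : ℝ) ^ (V.l n + 4)) ^ d := by
      have h1 : (Qs T (aB (V.l n) B) (2 ^ (V.l n + 3))).card ≤
          (Finset.univ.filter fun x => Box (aB (V.l n) B) (2 ^ (V.l n + 4)) x).card := by
        refine Finset.card_le_card fun x hx => ?_
        have h2 := (Finset.mem_filter.1 hx).2
        exact Finset.mem_filter.2 ⟨Finset.mem_univ _,
          H67.box_mono _ (Nat.pow_le_pow_right (by norm_num) (by omega)) h2⟩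
      have h2 := H67.card_Box (2 ^ V.μ) (aB (V.l n) B) (L := 2 ^ (V.l n + 4))
        (Nat.pow_le_pow_right (by norm_num) hlμ)
      have h3 : ((Qs T (aB (V.l n) B) (2 ^ (V.l n + 3))).card : ℝ) ≤
          ((Finset.univ.filter fun x => Box (aB (V.l n) B) (2 ^ (V.l n + 4)) x).card : ℝ) := by
        exact_mod_cast h1
      refine h3.trans (le_of_eq ?_)
      rw [h2]
      push_cast
      rfl
    have hQQ : (Q1s (toE V c C) n T B) ⊆ Qs T (aB (V.l n) B) (2 ^ (V.l n + 3)) := hok.hQ.2.1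
    have hcard1 : ((Q1s (toE V c C) n T B).card : ℝ) ≤ ((2 : ℝ) ^ (V.l n + 4)) ^ d :=
      le_trans (by exact_mod_cast Finset.card_le_card hQQ) hcard
    exact flow hN (ANR.H89.geoF_T d V.μ V.J V.N V.l V.r hP.sc.lm) hE hGo.cl hGo.clp hGo.cl1
      hcla hkk hM' hF' (e1 n k hn hk hk') (mul_nonneg hBN'.num.2.2.2.1.le hBN'.num.2.2.1.le)
      hB hb hdj hPsi hQQ (hfl _ _ hok) (hpr T _ _ _ run _ _ hcard1 hcard)
      (fun ζ hGd => e6 n k hn hk hk' T₀ T run₀ run P B ζ hM' hF' hB hb hdj hGd)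

end Pool.Agent.QDU.H58
end
end -- Pool.Agent.Helper22_QDU.H58FloZ

section -- Pool.Agent.Helper22_QDU.H22FrmZ
/-!
# The form part of the field flo, for the concrete numbers
-/

set_option autoImplicit false

open scoped BigOperators NNReal Matrix

noncomputable section

namespace Pool.Agent.QDU.H22

open Pool.Agent.AHH hiding BegF FinF FloF IniF KilF MmonF OutF RbegF RfinF RmonF ana0
open Pool.Agent.AHH.H22 hiding frmZ

open Pool.Agent.ANP (Cfg Geo Fc)
open Pool.Agent.ANR.H89 (cI geoF_T hsum_G)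
open Pool.Agent.QDU.H89 (ev_w1 ev_cI)
open Pool.Agent.AHH.H61 hiding budOk ev_be ev_c1 ev_e0 ev_good ev_small ev_small_be ev_th ev_thr nm
open Pool.Agent.QDU.H61

/-- (FLO.frm) -/
theorem frmZ : H58.FrmZStmt := by
  intro d a c C hd ha hc hc' hC
  have h1 : Ev2 d a es c C fun V => ∀ s : ℝ, 0 < s → s ≤ V.w → s ≤ 1 ∧
      (∀ (w q r0 : ℝ) (ℓ : ℕ), s ≤ w → w ≤ 1 → s / 2 ≤ q →
      s ^ (-(5 : ℝ)) ≤ ℓ → 8 * r0 ≤ ℓ →
      NumF d (c * w ^ (8 * (1 / 10000) - 1 : ℝ)) (4 * C ^ 3 / w) (1 - 1 / (2 * C))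
        (s ^ kaf V.α)
        (2 * (w ^ (1 / 50 : ℝ) * s ^ (2 * kaf V.α))) (w ^ (1 / 50 : ℝ) * s ^ (2 * kaf V.α))
        (uN d C (w ^ (1 / 50 : ℝ) * s ^ (2 * kaf V.α))) (c / 2 * q / (8 * d)) r0
        (1 / (c / 2 * (c / 2 * q))) (c / 2 * q * (c / 2)) ℓ ((2 * ℓ + 1) ^ d) ∧
      704 * d ≤ c / 2 * q / (8 * d) * ℓ) ∧ 2 * s ^ (5 : ℝ) ≤ 1 * s ^ (0 : ℝ) :=
    ev_small (fun _ _ α _ s => s ≤ 1 ∧
      (∀ (w q r0 : ℝ) (ℓ : ℕ), s ≤ w → w ≤ 1 → s / 2 ≤ q →
      s ^ (-(5 : ℝ)) ≤ ℓ → 8 * r0 ≤ ℓ →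
      NumF d (c * w ^ (8 * (1 / 10000) - 1 : ℝ)) (4 * C ^ 3 / w) (1 - 1 / (2 * C))
        (s ^ kaf α)
        (2 * (w ^ (1 / 50 : ℝ) * s ^ (2 * kaf α))) (w ^ (1 / 50 : ℝ) * s ^ (2 * kaf α))
        (uN d C (w ^ (1 / 50 : ℝ) * s ^ (2 * kaf α))) (c / 2 * q / (8 * d)) r0
        (1 / (c / 2 * (c / 2 * q))) (c / 2 * q * (c / 2)) ℓ ((2 * ℓ + 1) ^ d) ∧
      704 * d ≤ c / 2 * q / (8 * d) * ℓ) ∧ 2 * s ^ (5 : ℝ) ≤ 1 * s ^ (0 : ℝ))
      fun th c₁ C₁ α J _ _ _ hα => (AND.Num.small_le 1 one_pos).and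
        ((small_num d (by omega) c C (kaf α) hc hc' hC (kaf_pos α) (kaf_le hα)).and
          (AND.Num.small_pow' 2 1 5 0 one_pos (by norm_num)))
  refine (((ev_good.and ev_w1).and (ev_cI 8)).and h1).imp fun V hV => ?_
  obtain ⟨⟨⟨hG, hw1⟩, hcI⟩, hs⟩ := hV
  have hP : V.Pre a := hG.toPre
  intro n k hn hk1 hk2 T₀ T run₀ run P B ζ hMd hF hB hne hPB hGd
  have hth := hP.th
  have hs0 := cl_pos' hP k
  have hsw := cl_le' hP k
  obtain ⟨hs1, hnum, h5⟩ := hs (V.cl k) hs0 hsw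
  -- the side of the blocks
  have hLn : ((V.G.L n : ℕ) : ℝ) = 2 ^ V.l n := by
    show (((2 ^ V.l n : ℕ)) : ℝ) = 2 ^ V.l n
    push_cast
    rfl
  have hL5 : (V.cl k : ℝ) ^ (-(5 : ℝ)) ≤ V.G.L n := by
    rw [hLn]
    refine le_trans ?_ (hP.sc.llow n hn)
    exact Real.rpow_le_rpow_of_nonpos (sg_pos hP _) (cl_anti' hP hk2.le) (by norm_num)
  have hl1 : 1 ≤ V.l n := by
    by_contra hc0
    have hl0 : V.l n = 0 := by omega
    rw [hLn, hl0, pow_zero] at hL5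
    rw [Real.rpow_zero, mul_one] at h5
    have h6 : (V.cl k : ℝ) ^ (-(5 : ℝ)) * (V.cl k : ℝ) ^ (5 : ℝ) = 1 := by
      rw [← Real.rpow_add hs0]
      norm_num
    have h7 := mul_le_mul_of_nonneg_right hL5 (Real.rpow_nonneg hs0.le (5 : ℝ))
    rw [h6] at h7
    linarith only [hc, hc', h5, h7]
  have hR : 2 * 2 ^ (V.l n - 1) = V.G.L n := by
    show 2 * 2 ^ (V.l n - 1) = 2 ^ V.l n
    rw [← pow_succ']
    congr 1
    omega
  have hq : (V.cl k : ℝ) / 2 ≤ V.cl (k + 1) := by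
    have h6 : (V.cl (k + 1) : ℝ) = V.th * V.cl k := by
      rw [cl_succ]
      push_cast
      rfl
    have h7 : (1 / 2 : ℝ) ≤ V.th := by exact_mod_cast hth.1
    rw [h6]
    have h8 := mul_le_mul_of_nonneg_right h7 hs0.le
    linarith only [h8]
  obtain ⟨hN, h704⟩ := hnum V.w (V.cl (k + 1)) (cI d V.Dn (Finset.range (n + 1)) + 1) (V.G.L n)
    hsw hw1 hq hL5 (hcI n hn).1
  have hth23 : V.th ≤ 1 := hth.2.le
  -- the gauge
  have hg : ∀ x ∈ Al T, c / 2 ≤ gg T x := by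
    intro x hx
    have h6 : T.mb = T₀.mb := hMd.mb
    have h7 : x ∈ Al T₀ := by
      rw [H67.mem_Al] at hx ⊢
      rcases hMd.clk x with h8 | ⟨-, -, h8⟩
      · rwa [h8] at hx
      · rcases eq_zero_or_pos (a := T₀.s x) with h0 | h0
        · rw [h8, h0, mul_zero] at hx
          exact absurd hx (lt_irrefl 0)
        · exact h0
    have h8 := (hMd.st0.gau x h7).1
    show c / 2 ≤ (T.mb x).im
    rw [h6]
    exact h8
  have hlμ : V.l n + 4 ≤ V.μ := by
    have h1 := hP.sc.lN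
    have h2 := hP.sc.lm hn
    omega
  refine frm_of (V := toE V c C) (bd := bud V) (p := H17.parZ V c C n k) (P := P) (run := run)
    (m := (V.w : ℝ) ^ (1 / 50 : ℝ) * (V.cl k : ℝ) ^ (2 * ka V))
    (u := uN d C ((V.w : ℝ) ^ (1 / 50 : ℝ) * (V.cl k : ℝ) ^ (2 * ka V)))
    (R := 2 ^ (V.l n - 1)) (by omega) (geoF_T d V.μ V.J V.N V.l V.r hP.sc.lm)
    (fun x y => rfl) (th_pos hP) hth23 (fun k => cl_succ V k)
    (fun k => cl_pos V hP.w (th_pos hP) k) ?_ hG.e0 ?_ ?_ hg hF hPB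
    (hsum_G hP (by omega)) (hcI n hn).1 hB hne hR ?_ h704 hN (fun x hx hxB => ?_) ζ hGd
  · show V.cl 0 ≤ 1
    rw [cl_zero]
    exact_mod_cast hw1
  · show 0 < c / 2
    positivity
  · show c / 2 ≤ 1
    linarith only [hc, hc']
  · show 0 < 2 ^ V.l n
    positivity
  · exact Finset.mem_filter.2 ⟨hx, H67.box_of_D (V.l n) B x hlμ hxB⟩

end Pool.Agent.QDU.H22
end
end -- Pool.Agent.Helper22_QDU.H22FrmZ

section -- Pool.Agent.Helper22_QDU.H90FlowNZ
/-!
# AHH: `FlowNStmt`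
-/

set_option autoImplicit false

namespace Pool.Agent.QDU.H90

open Pool.Agent.AHH hiding BegF FinF FloF IniF KilF MmonF OutF RbegF RfinF RmonF ana0
open Pool.Agent.AHH.H90 hiding cI_num eokZ flowN flowNStmt geoN omL

/-- THE NUMBERS OF THE INCREMENTS -/
theorem flowNStmt : H58.FlowNStmt := fun d a c C hd _ hc _ _ => flowN d a c C (by omega) hc

end Pool.Agent.QDU.H90
end -- Pool.Agent.Helper22_QDU.H90FlowNZ

section -- Pool.Agent.Helper22_QDU.H58FloFin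
/-!
# The field `flo` without hypotheses (helper58)
-/

set_option autoImplicit false

namespace Pool.Agent.QDU.H58

open Pool.Agent.AHH hiding BegF FinF FloF IniF KilF MmonF OutF RbegF RfinF RmonF ana0
open Pool.Agent.AHH.H58 hiding FlowNStmt FrmZStmt StZ floF floFin

/-- THE FIELD FLO -/
theorem floFin : FloF :=
  floF Pool.Agent.AFL.H48.floT Pool.Agent.QDU.H90.flowNStmt Pool.Agent.QDU.H22.frmZ

end Pool.Agent.QDU.H58
end -- Pool.Agent.Helper22_QDU.H58FloFin
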