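import Pool.Agent.Helper12_MEB.B159
import Pool.Agent.Helper12_MEB.B160
import Pool.Agent.Helper12_MEB.B169

/-!
# Merged copies (generated) of the modules

* `Pool.Agent.Helper13_ABY.VFR`
* `Pool.Agent.Helper16_AHH.BegF`
* `Pool.Agent.Helper34_KL2.Kil2`
* `Pool.Agent.Helper61_AHH.KN3`
* `Pool.Agent.Helper16_AHH.All4`
* `Pool.Agent.Helper22_QDU.H16BegF`
-/

set_option autoImplicit false

section -- Pool.Agent.Helper13_ABY.VFR

/-!
# Row VFR of tank ABY: freezing sites does not increase the invariant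
-/

set_option autoImplicit false

open scoped BigOperators Matrix

noncomputable section

namespace Pool.Agent.ABY.H13

open Pool.Agent.LE.QF Pool.Agent.AFJ Pool.Agent.ABY

variable {X : Type} [Fintype X] [DecidableEq X]

theorem dif {𝕜 : Type} [RCLike 𝕜] (M : Matrix X X 𝕜) (P w : X → ℝ) (N : Finset X)
    (be be' : X → 𝕜) (h : ∀ a, be a = ∑ b, M a b * psi P w be b)
    (h' : ∀ a, be' a = ∑ b, M a b * psi (fun x => (1 - ind N x) * P x)
      (fun x => (1 - ind N x) * w x) be' b) (a : X) :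
    (be a - be' a) - ∑ b, M a b * ((((1 - ind N b) * P b : ℝ) : 𝕜) * (be b - be' b)) =
      ∑ b, M a b * (((ind N b : ℝ) : 𝕜) * psi P w be b) := by
  have e : be a - be' a = ∑ b, M a b * psi P w be b - ∑ b, M a b * psi (fun x => (1 - ind N x) * P x)
      (fun x => (1 - ind N x) * w x) be' b := by
    rw [← h a, ← h' a]
  rw [e, ← Finset.sum_sub_distrib, ← Finset.sum_sub_distrib]
  refine Finset.sum_congr rfl fun b _ => ?_
  unfold psi
  push_cast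
  ring

theorem vfr : VfrStmt := by
  intro hC hV X _ _ G P w g U R N ρ hc hN hw a ha
  have hK0 : ∀ a b, 0 ≤ KK G a b := fun a b => (norm_nonneg _).trans (hc.hM a b)
  have hi : ∀ x, 0 ≤ ind N x ∧ ind N x ≤ 1 := by
    intro x
    unfold ind
    split_ifs <;> norm_num
  have hc' : Cmp (BB G) (KK G) (fun x => (1 - ind N x) * P x) g U R ρ := by
    refine ⟨hc.hM, ⟨fun x => mul_nonneg (by linarith [(hi x).2]) (hc.hP.1 x), fun x hx => ?_⟩,
      hc.hU, hc.hg, hc.hρ, fun a ha => le_trans (Finset.sum_le_sum fun b _ => ?_) (hc.hK a ha)⟩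
    · show (1 - ind N x) * P x = 0
      rw [hc.hP.2 x hx, mul_zero]
    · by_cases hb : b ∈ U
      · have hgb := hc.hg b (hc.hU hb)
        refine mul_le_mul_of_nonneg_right (mul_le_mul_of_nonneg_left ?_ (hK0 a b)) hgb.le
        nlinarith [hc.hP.1 b, hi b]
      · show KK G a b * ((1 - ind N b) * P b) * g b ≤ KK G a b * P b * g b
        rw [hc.hP.2 b hb]
        simp
  have hcK : Cmp (KK G) (KK G) P g U R ρ :=
    ⟨fun a b => by rw [Real.norm_of_nonneg (hK0 a b)], hc.hP, hc.hU, hc.hg, hc.hρ, hc.hK⟩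
  have hcK' : Cmp (KK G) (KK G) (fun x => (1 - ind N x) * P x) g U R ρ :=
    ⟨fun a b => by rw [Real.norm_of_nonneg (hK0 a b)], hc'.hP, hc.hU, hc.hg, hc.hρ, hc'.hK⟩
  obtain ⟨_, v2, _, _, v5⟩ := hV hC ℂ X (BB G) (KK G) P g U R ρ hc
  obtain ⟨_, v2', _, _, _⟩ := hV hC ℂ X (BB G) (KK G) _ g U R ρ hc'
  obtain ⟨_, k2, _, _, _⟩ := hV hC ℝ X (KK G) (KK G) P g U R ρ hcK
  obtain ⟨_, k2', _, _, _⟩ := hV hC ℝ X (KK G) (KK G) _ g U R ρ hcK'
  have d1 := dif (BB G) P w N (vir (BB G) P w)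
    (vir (BB G) (fun x => (1 - ind N x) * P x) (fun x => (1 - ind N x) * w x)) (v2 w)
    (v2' (fun x => (1 - ind N x) * w x))
  have d2 := dif (KK G) P w N (vir (KK G) P w)
    (vir (KK G) (fun x => (1 - ind N x) * P x) (fun x => (1 - ind N x) * w x)) (k2 w)
    (k2' (fun x => (1 - ind N x) * w x))
  have hR := (hC ℂ X (BB G) (KK G) _ g U R ρ hc').2
    (fun a => vir (BB G) P w a -
      vir (BB G) (fun x => (1 - ind N x) * P x) (fun x => (1 - ind N x) * w x) a)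
    (fun a => vir (KK G) P w a -
      vir (KK G) (fun x => (1 - ind N x) * P x) (fun x => (1 - ind N x) * w x) a) (by
    intro a ha
    rw [d1 a]
    have d3 := d2 a
    simp only [RCLike.ofReal_real_eq_id, id] at d3
    rw [d3]
    refine (norm_sum_le _ _).trans (Finset.sum_le_sum fun b _ => ?_)
    rw [norm_mul, norm_mul]
    have e1 : ‖(RCLike.ofReal (ind N b) : ℂ)‖ = ind N b := by
      rw [RCLike.norm_ofReal, abs_of_nonneg (hi b).1]
    have e2 : ‖psi P w (vir (BB G) P w) b‖ ≤ psi P w (vir (KK G) P w) b := by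
      unfold psi
      refine (norm_add_le _ _).trans ?_
      rw [norm_mul, RCLike.norm_ofReal, RCLike.norm_ofReal, abs_of_nonneg (hw b),
        abs_of_nonneg (hc.hP.1 b)]
      simp only [RCLike.ofReal_real_eq_id, id]
      by_cases hb : b ∈ R
      · have := mul_le_mul_of_nonneg_left (v5 w hw b hb) (hc.hP.1 b)
        linarith
      · rw [hc.hP.2 b (fun h => hb (hc.hU h))]
        simp
    refine mul_le_mul (hc.hM a b) ?_ (by positivity) (hK0 a b)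
    rw [e1]
    exact mul_le_mul_of_nonneg_left e2 (hi b).1) a ha
  have hT : ‖vir (BB G) (fun x => (1 - ind N x) * P x) (fun x => (1 - ind N x) * w x) a‖ ≤
      ‖vir (BB G) P w a‖ + ‖vir (BB G) P w a -
        vir (BB G) (fun x => (1 - ind N x) * P x) (fun x => (1 - ind N x) * w x) a‖ := by
    have e3 : vir (BB G) (fun x => (1 - ind N x) * P x) (fun x => (1 - ind N x) * w x) a =
        vir (BB G) P w a - (vir (BB G) P w a -
        vir (BB G) (fun x => (1 - ind N x) * P x) (fun x => (1 - ind N x) * w x) a) := by ring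
    conv_lhs => rw [e3]
    exact norm_sub_le _ _
  linarith

end Pool.Agent.ABY.H13
end
end -- Pool.Agent.Helper13_ABY.VFR

section -- Pool.Agent.Helper16_AHH.BegF

/-!
# AND2B: the fields `beg`, `mmon`, `rbeg`, `rmon` in the final form
-/

set_option autoImplicit false

open scoped BigOperators NNReal Matrix

noncomputable section

namespace Pool.Agent.AHH.H16

open Pool.Agent.ABY
open Pool.Agent.AND2B (Prd Ev)

/-- BOK: the budget satisfies `BudOk` -/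
def BudStmt : Prop :=
  ∀ (d : ℕ) (a c C : ℝ), 3 ≤ d → 0 < a → 0 < c → c ≤ 1 / 2 → 1 ≤ C →
    Ev d a es c C fun V => BudOk (toE V c C) (bud V)

theorem begF (hBud : BudStmt) (hC : CmpStmt) (hX : VexStmt) : BegF := by
  intro d a c C hd ha hc hc' hC'
  refine (hBud d a c C hd ha hc hc' hC').imp fun V hB => ?_
  intro n k T run h1 h2 h3 h4 _ h6
  exact beg_field hC hX hB n k T run h1 h2 h3 h4 h6

theorem mmonF (hBud : BudStmt) (hC : CmpStmt) (hX : VexStmt) (hVF : VfrStmt) : MmonF := by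
  intro d a c C hd ha hc hc' hC'
  refine (hBud d a c C hd ha hc hc' hC').imp fun V hB => ?_
  intro n k T₀ run₀ P P' T run run' h1 h2 h3 h4 _ _ _ h5
  exact mmon_field hC hX hVF hB n k T₀ run₀ P P' T run run' h1 h2 h3 h4 h5

theorem rbegF (hBud : BudStmt) : RbegF := by
  intro d a c C hd ha hc hc' hC'
  refine (hBud d a c C hd ha hc hc' hC').imp fun V hB => ?_
  intro n T run h1 h2 _ h3
  exact rbeg_field hB n T run h1 h2 h3

theorem rmonF (hBud : BudStmt) (hC : CmpStmt) (hX : VexStmt) (hVF : VfrStmt) : RmonF := by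
  intro d a c C hd ha hc hc' hC'
  refine (hBud d a c C hd ha hc hc' hC').imp fun V hB => ?_
  intro n T₀ run₀ P P' T run run' h1 h2 h3 h4 _ _ _ h5
  exact rmon_field hC hX hVF hB n T₀ run₀ P P' T run run' h1 h2 h3 h4 h5

end Pool.Agent.AHH.H16
end
end -- Pool.Agent.Helper16_AHH.BegF

section -- Pool.Agent.Helper34_KL2.Kil2

/-!
# THE SECOND HALF OF THE FIELD `kil`: `Fin1 ⇒ Rl`
-/

set_option autoImplicit false

open scoped BigOperators NNReal Matrix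

noncomputable section

namespace Pool.Agent.KL2

open Pool.Agent.BED (Tor)
open Pool.Agent.AND2B (net kap Gt Hr Vef res)
open Pool.Agent.ANP (Cfg Geo Fc)
open Pool.Agent.AFJ (ind LaR EE)
open Pool.Agent.LE.QF (BB KK Dl)
open Pool.Agent.ANR (Gr cE fl CutStmt)
open Pool.Agent.LTG (Fm Bd sT tT qd)
open Pool.Agent.CTC (CT fac)
open Pool.Agent.AHH

variable {d μ : ℕ}

/-- the numbers for the weights of the form; `ρ` the radius, `rk` the radius of the kills -/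
structure KN3 (d nS Jc Jr ρ rk : ℕ)
    (c₀ u₀ D₀ D₁ rho nR tau k₀ β Wt nQ θ δ Th θ₁ δ₁ T₁ ε u : ℝ) : Prop where
  heps : 0 < ε ∧ ε ≤ 1
  hu₀ : 0 ≤ u₀ ∧ u₀ < 1
  hD : 0 < D₀ ∧ D₀ ≤ D₁
  hrho : 0 ≤ rho
  htau : 0 < tau ∧ tau ≤ 1
  hnR : 0 ≤ nR
  b1 : rho + 2 * nR ≤ 1 / 4 ∧ rho + 2 * nR ≤ (1 - u₀) / 2
  hu : 0 ≤ u
  u1 : ε * ((2 + 32 * (d : ℝ) ^ 2 * 2) * (2 / (1 - u₀))) + 8 / ε * δ ≤ u
  u2 : ε * ((2 + 32 * (d : ℝ) ^ 2 * 2) * (2 * D₁)) + 8 / ε * fac d Jr θ Th ≤ u * (2 * D₁)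
  n1 : 4 * ((2 * δ₁ + u) * nQ) ≤ nR / 2
  n2 : 8 * (CT d (β / 16) * Wt * nS) / (k₀ * c₀ * tau) ≤ nR / 2
  n3 : (2 * fac d Jc θ₁ T₁ + u * (2 * D₁)) * nQ ≤ D₀ * nR / 2
  n4 : 2 * (CT d (β / 16) * Wt * nS) / tau ≤ D₀ * nR / 2
  r1 : 4 * rk ≤ ρ
  r2 : 2 ≤ β / 16 / (4 * d) * ρ

namespace Cx

variable {J₀ N₀ : ℕ} {l r : ℕ → ℕ} {V : Env d (2 ^ μ)} {b : Bud} {n : ℕ}
  {T₀ : Cfg (Tor d (2 ^ μ))} {run₀ P : Finset (Tor d (2 ^ μ))} {T : Cfg (Tor d (2 ^ μ))}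
  {run Q : Finset (Tor d (2 ^ μ))} {v : Tor d (2 ^ μ) → ℝ} {T' : Cfg (Tor d (2 ^ μ))}
  {rk : ℕ} {J mm MM hK : ℝ}

/-- the tails are at most the potential -/
theorem tail_pot (h : Cx J₀ N₀ l r V b n T₀ run₀ P T run Q v T' rk J mm MM hK)
    {γ : ℝ} (hτ : 0 < b.tau n ∧ b.tau n ≤ 1) (hγ : 0 ≤ γ) (h1 : 4 * rk ≤ V.Γ.ρ n)
    (h2 : 2 ≤ γ * V.Γ.ρ n) (x : Tor d (2 ^ μ)) :
    ∑ q ∈ S run Q T', Real.exp (-(γ * ANP.H61.sd x q)) ≤
      (S run Q T').card * (pot V b n Q x / b.tau n) := by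
  have hρ : (0 : ℝ) < V.Γ.ρ n := by
    by_contra hc
    push Not at hc
    nlinarith only [hγ, h2, hc]
  refine (Finset.sum_le_card_nsmul _ _ (pot V b n Q x / b.tau n) fun c hc => ?_).trans
    (le_of_eq (by rw [nsmul_eq_mul]))
  rw [le_div_iff₀ hτ.1]
  obtain ⟨q, hq, h3⟩ := h.near_Q hc
  by_cases hn : x ∈ V.Γ.nbh Q (V.Γ.ρ n)
  · have h4 := h.pot_near hτ.1.le hn
    have h5 : Real.exp (-(γ * ANP.H61.sd x c)) ≤ 1 := by
      rw [Real.exp_le_one_iff]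
      have : 0 ≤ γ * (ANP.H61.sd x c : ℝ) := by positivity
      linarith only [this]
    have h6 := Real.exp_pos (-(γ * ANP.H61.sd x c))
    nlinarith only [hτ.1, hτ.2, h4, h5]
  · have h4 := h.pot_far hτ.1.le hq x
    have h5 : V.Γ.ρ n < V.Γ.D x q := by
      by_contra hc'
      exact hn (mem_nbh.2 ⟨q, hq, not_lt.1 hc'⟩)
    rw [mul_comm]
    refine le_trans (mul_le_mul_of_nonneg_left (Real.exp_le_exp.2 ?_) hτ.1.le) h4
    rw [h.D_eq] at h5 ⊢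
    have h6 := ANP.H61.sd_tri x c q
    have h7 : (ANP.H61.sd x q : ℝ) ≤ ANP.H61.sd x c + ANP.H61.sd c q := by exact_mod_cast h6
    have h8 : (ANP.H61.sd c q : ℝ) ≤ rk := by exact_mod_cast h3
    have h9 : 4 * (rk : ℝ) ≤ V.Γ.ρ n := by exact_mod_cast h1
    have h10 : (V.Γ.ρ n : ℝ) ≤ ANP.H61.sd x q := by exact_mod_cast h5.le
    have h11 : (3 / 4 : ℝ) * ANP.H61.sd x q ≤ ANP.H61.sd x c := by linarith only [h7, h8, h9, h10]
    have h12 : (ANP.H61.sd x q : ℝ) / V.Γ.ρ n ≤ γ * (1 / 2 * ANP.H61.sd x q) := by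
      rw [div_le_iff₀ hρ]
      nlinarith only [(Nat.cast_nonneg (ANP.H61.sd x q) : (0 : ℝ) ≤ _), h2]
    have h13 : γ * (1 / 2 * (ANP.H61.sd x q : ℝ)) ≤ γ * ANP.H61.sd x c := by
      refine mul_le_mul_of_nonneg_left ?_ hγ
      linarith only [(Nat.cast_nonneg (ANP.H61.sd x q) : (0 : ℝ) ≤ _), hρ, h7, h8, h9, h10]
    linarith only [h12, h13]

/-- field `frm` of `Rl` -/
theorem frm' (hcut : CutStmt) (hd : 3 ≤ d)
    (h : Cx J₀ N₀ l r V b n T₀ run₀ P T run Q v T' rk J mm MM hK)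
    {k t nS Jc Jr : ℕ}
    {Cg k₀ β κR nQ nK W₁ Wt θ δ Th θ₁ δ₁ T₁ ε u : ℝ}
    (hN : KN2 d n V.Dn μ k t rk nS (V.cl (V.kk (n + 1)) : ℝ) V.c₀ V.C₀ V.e₀
      (b.q n (V.kk (n + 1))).lam Cg k₀ β κR nQ nK W₁ Wt mm MM hK θ δ Th θ₁ δ₁ T₁)
    (hN3 : KN3 d nS Jc Jr (V.Γ.ρ n) rk V.c₀ V.u₀ V.D₀ V.D₁ (b.q n (V.kk (n + 1))).rho (b.nR n)
      (b.tau n) k₀ β Wt nQ θ δ Th θ₁ δ₁ T₁ ε u)
    (hr : r n = k + 2)
    (heps : (b.q n (V.kk (n + 1))).eps ≤ (b.q n (V.kk (n + 1))).rho)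
    (hS : (S run Q T').card ≤ nS) (hSD : (S run Q T').card ≤ V.Dn n)
    (hQ : (Q.card : ℝ) ≤ nQ) (hKc : ((Ks run T').card : ℝ) ≤ nK)
    (hsum : ∑ i ∈ Finset.range (n + 1), (3 ^ d * (2 * V.Dn i : ℕ) : ℝ) / 2 ^ l i ≤ 1 / 4)
    (hCg : ∀ x ∈ run, (net V.E V.e₀ T x x).im ≤ Cg)
    (hΦ : ∀ x, b.lR n * Phi V.Γ (b.tau n) n P x ≤ 1)
    (hΦ2 : ∀ x, Phi V.Γ (b.tau n) n (P ∪ V.Γ.nbh Q (V.Γ.ρ n)) x ≤ 2) :
    FB V T' (fun x => (if x ∈ run.filter (fun x => T'.s x ≠ 0) then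
        (b.q n (V.kk (n + 1))).eps else (b.q n (V.kk (n + 1))).rho) +
        b.nR n * Phi V.Γ (b.tau n) n (P ∪ V.Γ.nbh Q (V.Γ.ρ n)) x)
      (fun x => (b.q n (V.kk (n + 1))).rho +
        b.nR n * Phi V.Γ (b.tau n) n (P ∪ V.Γ.nbh Q (V.Γ.ρ n)) x) := by
  classical
  set rho := (b.q n (V.kk (n + 1))).rho with hrho
  set epsn := (b.q n (V.kk (n + 1))).eps with hepsn
  obtain ⟨εl, εu, bl, bu, hF, hn, hb⟩ := h.rl.frm
  have hkf := h.kf hN hr hS hSD hQ hKc hsum hCg hΦ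
  obtain ⟨hε0, hε1⟩ := hN3.heps
  obtain ⟨hu00, hu01⟩ := hN3.hu₀
  obtain ⟨hD0, hD01⟩ := hN3.hD
  obtain ⟨hτ0, hτ1⟩ := hN3.htau
  obtain ⟨hb1, hb2⟩ := hN3.b1
  have hnR := hN3.hnR
  have hrho0 := hN3.hrho
  have hD1 : 0 < V.D₁ := lt_of_lt_of_le hD0 hD01
  obtain ⟨hk₀, hk0, hk1⟩ := hN.hk₀
  have hkc : 0 < k₀ * V.c₀ := mul_pos hk0 hN.hc
  have hpot0 : ∀ x, 0 ≤ pot V b n Q x := fun x => H61.Phi_nonneg V.Γ _ hτ0.le n _ x
  have hPhi0 : ∀ x, 0 ≤ Phi V.Γ (b.tau n) n P x := fun x => H61.Phi_nonneg V.Γ _ hτ0.le n _ x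
  have hPhi : ∀ x, Phi V.Γ (b.tau n) n P x + pot V b n Q x ≤ 2 := fun x => by
    rw [← h.phi_eq]; exact hΦ2 x
  have hnP : ∀ x, b.nR n * Phi V.Γ (b.tau n) n P x + b.nR n * pot V b n Q x ≤ 2 * b.nR n := by
    intro x
    rw [← mul_add]
    nlinarith only [hPhi x, hnR]
  have hεl : ∀ x ∈ Al T, εl x ≤ rho + b.nR n * Phi V.Γ (b.tau n) n P x := by
    intro x hx
    refine (hn x hx).2.1.trans (add_le_add ?_ le_rfl)
    split
    · exact heps
    · exact le_rfl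
  have hβ0 : 0 < β := by
    rw [hN.hβ]
    have hd' : (0 : ℝ) < d := by exact_mod_cast (show 0 < d by omega)
    positivity
  have hWt0 : 0 ≤ Wt := by
    have h1 : 0 ≤ W₁ := le_trans (by positivity) hN.hW₁
    exact le_trans (by positivity) hN.e2
  have hCT : 0 ≤ CT d (β / 16) := by
    unfold CT
    positivity
  have hCW : 0 ≤ CT d (β / 16) * Wt := mul_nonneg hCT hWt0
  have hγ0 : 0 ≤ β / 16 / (4 * (d : ℝ)) := by positivity
  have htail : ∀ x, CT d (β / 16) * Wt *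
      (∑ q ∈ S run Q T', Real.exp (-(β / 16 / (4 * d) * ANP.H61.sd x q))) ≤
      (CT d (β / 16) * Wt * nS) / b.tau n * pot V b n Q x := by
    intro x
    have h1 := h.tail_pot ⟨hτ0, hτ1⟩ hγ0 hN3.r1 hN3.r2 x
    have h2 : ((S run Q T').card : ℝ) * (pot V b n Q x / b.tau n) ≤
        nS * (pot V b n Q x / b.tau n) :=
      mul_le_mul_of_nonneg_right (by exact_mod_cast hS) (div_nonneg (hpot0 x) hτ0.le)
    refine (mul_le_mul_of_nonneg_left (h1.trans h2) hCW).trans (le_of_eq ?_)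
    ring
  have hnear : ∀ x, (∃ q ∈ Q, ANP.H61.sd x q ≤ 2 ^ (k + 2)) → 1 ≤ pot V b n Q x := by
    rintro x ⟨q, hq, hxq⟩
    refine h.pot_near hτ0.le (mem_nbh.2 ⟨q, hq, ?_⟩)
    rw [h.D_eq, h.rho_eq, hr]
    exact hxq
  have hind : ∀ x, ((Q.card : ℝ) * if ∃ q ∈ Q, ANP.H61.sd x q ≤ 2 ^ (k + 2) then 1 else 0) ≤
      nQ * pot V b n Q x := by
    intro x
    have hnQ : 0 ≤ nQ := hN.nn.1
    by_cases hx : ∃ q ∈ Q, ANP.H61.sd x q ≤ 2 ^ (k + 2)
    · rw [if_pos hx, mul_one]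
      have := hnear x hx
      nlinarith only [hQ, this]
    · rw [if_neg hx, mul_zero]
      exact mul_nonneg hnQ (hpot0 x)
  have hδ₁0 : 0 ≤ δ₁ := hkf.pos.2.2.2
  have hT₁0 : 0 ≤ T₁ := by
    refine le_trans (Finset.sum_nonneg fun c hc' => ?_) hkf.f3
    refine mul_nonneg (h.kap_pos c).le (Finset.sum_nonneg fun x hx => ?_)
    exact mul_nonneg (h.kap_pos x).le (sq_nonneg _)
  have hfac0 := CTC.fac_nonneg d Jc hkf.pos.2.2.1 hT₁0
  have hu0 := hN3.hu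
  have hF' : Fm sT tT (Al T) (ww V.e₀ T) εl εu bl bu
      (cE (net V.E V.e₀ T) (kap V.e₀ T) (Al T)) :=
    fm_congr (fun _ _ => rfl) (fun f => qd_ee _ _ _ h.net_symm f) hF
  have hK := kfm hcut hd Jc Jr hkf (ε := ε) (b₀ := V.D₁) (b₁ := 2 * V.D₁)
    (cu := 2 / (1 - V.u₀)) (u := u) (ν := fun x => b.nR n * pot V b n Q x)
    (νb := fun e => V.D₀ * (b.nR n * pot V b n Q (sT e))) hF' hε0 hε1
    (fun x hx => (hn x hx).1) (fun x hx => (hn x hx).2.2.1)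
    (fun x hx => by
      have h1 := (hn x hx).2.2.2
      have h2 := hnP x
      have h3 := hpot0 x
      have h4 : 0 ≤ b.nR n * pot V b n Q x := mul_nonneg hnR h3
      have h5 : (1 - V.u₀) / 2 ≤ 1 - εu x := by linarith only [hb2, h1, h2, h4]
      have h6 : 0 < 1 - V.u₀ := by linarith only [hu01]
      calc (1 : ℝ) = 2 / (1 - V.u₀) * ((1 - V.u₀) / 2) := by field_simp
        _ ≤ _ := mul_le_mul_of_nonneg_left h5 (by positivity))
    (by
      have h6 : 0 < 1 - V.u₀ := by linarith only [hu01]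
      positivity)
    hD1
    (fun e _ => by
      obtain ⟨h1, h2, h3⟩ := hb e
      refine ⟨h2, h3.trans ?_⟩
      have h4 := hnP (sT e)
      have h5 : 0 ≤ b.nR n * pot V b n Q (sT e) := mul_nonneg hnR (hpot0 _)
      have h6 : (b.q n (V.kk (n + 1))).rho + b.nR n * Phi V.Γ (b.tau n) n P (sT e) ≤ 1 := by
        linarith only [hb1, h4, h5]
      nlinarith only [hD0, hD01, hb1, h4, h5])
    (by positivity) hu0
    (by
      have e1 : 2 * V.D₁ / V.D₁ = 2 := by field_simp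
      rw [e1]
      exact hN3.u1)
    (by
      have e1 : 2 * V.D₁ / V.D₁ = 2 := by field_simp
      rw [e1]
      exact hN3.u2)
    (fun x hx => by
      have h1 := mul_le_mul_of_nonneg_left (hind x) (by positivity : 0 ≤ 2 * δ₁ + u)
      have h2 := mul_le_mul_of_nonneg_right hN3.n1 (hpot0 x)
      have h3 := htail x
      have h4 : k₀ * V.c₀ ≤ ww V.e₀ T x := by rw [hk₀]; exact h.ww_ge hx
      have h5 : 8 * (CT d (β / 16) * Wt *
          (∑ q ∈ S run Q T', Real.exp (-(β / 16 / (4 * d) * ANP.H61.sd x q))) / ww V.e₀ T x) ≤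
          b.nR n / 2 * pot V b n Q x := by
        have hw : 0 < ww V.e₀ T x := lt_of_lt_of_le hkc h4
        have e1 : CT d (β / 16) * Wt *
            (∑ q ∈ S run Q T', Real.exp (-(β / 16 / (4 * d) * ANP.H61.sd x q))) / ww V.e₀ T x ≤
            (CT d (β / 16) * Wt * nS) / b.tau n * pot V b n Q x / (k₀ * V.c₀) := by
          refine (div_le_div_of_nonneg_right h3 hw.le).trans ?_
          refine div_le_div_of_nonneg_left ?_ hkc h4
          exact mul_nonneg (div_nonneg (by positivity) hτ0.le) (hpot0 x)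
        have e2 : 8 * ((CT d (β / 16) * Wt * nS) / b.tau n * pot V b n Q x / (k₀ * V.c₀)) =
            8 * (CT d (β / 16) * Wt * nS) / (k₀ * V.c₀ * b.tau n) * pot V b n Q x := by
          field_simp
        refine (mul_le_mul_of_nonneg_left e1 (by norm_num)).trans ?_
        rw [e2]
        exact mul_le_mul_of_nonneg_right hN3.n2 (hpot0 x)
      calc 4 * ((2 * δ₁ + u) * (Q.card * if ∃ q ∈ Q, ANP.H61.sd x q ≤ 2 ^ (k + 2) then 1 else 0)) +
          8 * (CT d (β / 16) * Wt *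
          (∑ q ∈ S run Q T', Real.exp (-(β / 16 / (4 * d) * ANP.H61.sd x q))) / ww V.e₀ T x)
          ≤ 4 * ((2 * δ₁ + u) * (nQ * pot V b n Q x)) + b.nR n / 2 * pot V b n Q x :=
            add_le_add (mul_le_mul_of_nonneg_left h1 (by norm_num)) h5
        _ = 4 * ((2 * δ₁ + u) * nQ) * pot V b n Q x + b.nR n / 2 * pot V b n Q x := by ring
        _ ≤ b.nR n / 2 * pot V b n Q x + b.nR n / 2 * pot V b n Q x := add_le_add h2 le_rfl
        _ = b.nR n * pot V b n Q x := by ring)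
    (fun e => by
      have h1 := mul_le_mul_of_nonneg_left (hind (sT e))
        (by positivity : 0 ≤ 2 * fac d Jc θ₁ T₁ + u * (2 * V.D₁))
      have h2 := mul_le_mul_of_nonneg_right hN3.n3 (hpot0 (sT e))
      have h3 := htail (sT e)
      have h5 : 2 * (CT d (β / 16) * Wt *
          (∑ q ∈ S run Q T', Real.exp (-(β / 16 / (4 * d) * ANP.H61.sd (sT e) q)))) ≤
          V.D₀ * b.nR n / 2 * pot V b n Q (sT e) := by
        refine (mul_le_mul_of_nonneg_left h3 (by norm_num : (0 : ℝ) ≤ 2)).trans ?_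
        have e2 : 2 * ((CT d (β / 16) * Wt * nS) / b.tau n * pot V b n Q (sT e)) =
            2 * (CT d (β / 16) * Wt * nS) / b.tau n * pot V b n Q (sT e) := by
          ring
        rw [e2]
        exact mul_le_mul_of_nonneg_right hN3.n4 (hpot0 _)
      calc (2 * fac d Jc θ₁ T₁ + u * (2 * V.D₁)) *
            (Q.card * if ∃ q ∈ Q, ANP.H61.sd (sT e) q ≤ 2 ^ (k + 2) then 1 else 0) +
          2 * (CT d (β / 16) * Wt *
          (∑ q ∈ S run Q T', Real.exp (-(β / 16 / (4 * d) * ANP.H61.sd (sT e) q))))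
          ≤ (2 * fac d Jc θ₁ T₁ + u * (2 * V.D₁)) * (nQ * pot V b n Q (sT e)) +
            V.D₀ * b.nR n / 2 * pot V b n Q (sT e) := add_le_add h1 h5
        _ = (2 * fac d Jc θ₁ T₁ + u * (2 * V.D₁)) * nQ * pot V b n Q (sT e) +
            V.D₀ * b.nR n / 2 * pot V b n Q (sT e) := by ring
        _ ≤ V.D₀ * b.nR n / 2 * pot V b n Q (sT e) +
            V.D₀ * b.nR n / 2 * pot V b n Q (sT e) := add_le_add h2 le_rfl
        _ = V.D₀ * (b.nR n * pot V b n Q (sT e)) := by ring)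
    (fun x hx => by
      have h1 := hεl x hx
      have h2 := hnP x
      linarith only [hb1, h1, h2])
    (fun x hx => by
      have h1 := (hn x hx).2.2.2
      have h2 := hnP x
      linarith only [hu01, hb2, h1, h2])
  refine ⟨fun x => εl x + b.nR n * pot V b n Q x, fun x => εu x + b.nR n * pot V b n Q x,
    fun e => bl e - V.D₀ * (b.nR n * pot V b n Q (sT e)),
    fun e => bu e + V.D₀ * (b.nR n * pot V b n Q (sT e)), ?_, fun x hx => ?_, fun e => ?_⟩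
  · rw [h.al_eq]
    refine fm_congr (fun x hx => ?_) (fun f => ?_) hK
    · unfold ww
      rw [h.kap_eq (Finset.mem_sdiff.1 hx).2, h.gg_eq]
    · unfold Ef
      rw [h.al_eq, qd_ee _ _ _ h.net_symm']
      exact cE_kap _ (fun x hx => (h.kap_eq (Finset.mem_sdiff.1 hx).2).symm) f
  · have hxA := h.al_sub hx
    obtain ⟨h1, h2, h3, h4⟩ := hn x hxA
    have h5 : 0 ≤ b.nR n * pot V b n Q x := mul_nonneg hnR (hpot0 x)
    dsimp only
    rw [h.phi_eq, mul_add]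
    dsimp only at h2 h4
    refine ⟨by linarith only [h1, h5], ?_, by linarith only [h3, h5], by linarith only [h4]⟩
    have hxs : T'.s x ≠ 0 := (H16.mem_al.1 hx).ne'
    by_cases hxr : x ∈ run
    · rw [if_pos (Finset.mem_filter.2 ⟨hxr, hxs⟩)]
      rw [if_pos hxr] at h2
      linarith only [h2]
    · rw [if_neg fun hh => hxr (Finset.mem_filter.1 hh).1]
      rw [if_neg hxr] at h2
      linarith only [h2]
  · obtain ⟨h1, h2, h3⟩ := hb e
    have h5 : 0 ≤ b.nR n * pot V b n Q (sT e) := mul_nonneg hnR (hpot0 _)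
    dsimp only
    rw [h.phi_eq, mul_add]
    refine ⟨by nlinarith only [h1], by nlinarith only [hD0, h2, h5], ?_⟩
    have h6 : V.D₀ * (b.nR n * pot V b n Q (sT e)) ≤ V.D₁ * (b.nR n * pot V b n Q (sT e)) :=
      mul_le_mul_of_nonneg_right hD01 h5
    nlinarith only [h3, h6]

/-- (KIL2) THE SECOND HALF OF THE FIELD `kil` -/
theorem kil2 (hd : 3 ≤ d)
    (h : Cx J₀ N₀ l r V b n T₀ run₀ P T run Q v T' rk J mm MM hK)
    {k t nS Jc Jr : ℕ}
    {Cg k₀ β κR nQ nK W₁ Wt θ δ Th θ₁ δ₁ T₁ ε u η : ℝ}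
    (hN1 : KN1 k₀ V.c₀ (b.q n (V.kk (n + 1))).lam (b.icR n) (b.lR n) (b.yR n) (b.tau n) Cg
      (J + 4 / k₀ * Real.exp (-(β / 4 * V.Γ.ρ n))) (mm + 8 / k₀ * Real.exp (-(β / 4 * V.Γ.ρ n)))
      (8 / k₀) (β / 4) η (V.Γ.ρ n))
    (hN : KN2 d n V.Dn μ k t rk nS (V.cl (V.kk (n + 1)) : ℝ) V.c₀ V.C₀ V.e₀
      (b.q n (V.kk (n + 1))).lam Cg k₀ β κR nQ nK W₁ Wt mm MM hK θ δ Th θ₁ δ₁ T₁)
    (hN3 : KN3 d nS Jc Jr (V.Γ.ρ n) rk V.c₀ V.u₀ V.D₀ V.D₁ (b.q n (V.kk (n + 1))).rho (b.nR n)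
      (b.tau n) k₀ β Wt nQ θ δ Th θ₁ δ₁ T₁ ε u)
    (hJ : 0 ≤ J) (hr : r n = k + 2)
    (heps : (b.q n (V.kk (n + 1))).eps ≤ (b.q n (V.kk (n + 1))).rho)
    (hS : (S run Q T').card ≤ nS) (hSD : (S run Q T').card ≤ V.Dn n)
    (hQ : (Q.card : ℝ) ≤ nQ) (hKc : ((Ks run T').card : ℝ) ≤ nK)
    (hsum : ∑ i ∈ Finset.range (n + 1), (3 ^ d * (2 * V.Dn i : ℕ) : ℝ) / 2 ^ l i ≤ 1 / 4)
    (hZ : (rk : ℝ) / 2 + Zc d n V.Dn ≤ (V.Γ.ρ n : ℝ) / 4)
    (hCg : V.C₀ + (b.q n (V.kk (n + 1))).mis + 2 * b.icR n ≤ Cg) (hicR : 0 ≤ b.icR n)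
    (hlR : 0 ≤ b.lR n ∧ 2 * b.lR n ≤ 1) (hyR : 0 ≤ b.yR n)
    (hΦ2 : ∀ P x, Phi V.Γ (b.tau n) n P x ≤ 2) :
    Rl V b n T₀ run₀ (P ∪ V.Γ.nbh Q (V.Γ.ρ n)) T' (run.filter fun x => T'.s x ≠ 0) := by
  have hΦ : ∀ x, b.lR n * Phi V.Γ (b.tau n) n P x ≤ 1 := fun x => by
    nlinarith only [hΦ2 P x, hlR.1, hlR.2]
  have hCg' : ∀ x ∈ run, (net V.E V.e₀ T x x).im ≤ Cg := fun x hx => by
    have h1 := h.im_run hx
    nlinarith only [hΦ2 P x, hCg, hicR, h1]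
  obtain ⟨hk₀, hk0, hk1⟩ := hN.hk₀
  have hsum1 : ∑ i ∈ Finset.range (n + 1), (3 ^ d * V.Dn i : ℝ) / 2 ^ l i ≤ 1 / 4 := by
    refine le_trans (Finset.sum_le_sum fun i _ => ?_) hsum
    push_cast
    refine div_le_div_of_nonneg_right ?_ (by positivity)
    have : (0 : ℝ) ≤ 3 ^ d * V.Dn i := by positivity
    nlinarith only [this]
  have hPk := h.pk hsum1 hk₀ hN.hβ hk1 hZ hJ hN.nn.2.2.2
  have hC := Pool.Agent.ABY.H10.cmp
  refine ⟨h.rl.ctx, h.rl.fc0, h.rl.st0, ⟨(Finset.filter_subset _ _).trans h.rl.sub.1,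
    fun x hx => run'_al hx⟩, h.f1.mb.trans h.rl.mb, fun x => ?_, h.ent' hPk hN1,
    h.lar' hk₀.le hPk hN1 hΦ,
    yin' hC Pool.Agent.ABY.H82.vex Pool.Agent.ABY.H13.vfr h hPk hN1 hyR hCg',
    frm' ANR.H76.cut hd h hN hN3 hr heps hS hSD hQ hKc hsum hCg' hΦ fun x => hΦ2 _ x⟩
  by_cases hxS : x ∈ S run Q T'
  · right
    have hxA := H16.mem_al.1 (h.S_al hxS)
    refine ⟨Finset.mem_union_right _ ?_, ?_, h.dead hxS⟩
    · obtain ⟨q, hq, h1⟩ := h.near_Q hxS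
      refine mem_nbh.2 ⟨q, hq, ?_⟩
      rw [h.D_eq]
      have := hN3.r1
      omega
    · rcases h.rl.chg x with h2 | h2
      · rwa [h2.2] at hxA
      · exact h2.2.1
  · obtain ⟨h1, h2, -⟩ := h.same hxS
    rcases h.rl.chg x with h3 | ⟨h3, h4, h5⟩
    · left
      exact ⟨h1.trans h3.1, h2.trans h3.2⟩
    · right
      exact ⟨Finset.mem_union_left _ h3, h4, h2.trans h5⟩

end Cx

end Pool.Agent.KL2
end
end -- Pool.Agent.Helper34_KL2.Kil2

section -- Pool.Agent.Helper61_AHH.KN3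

/-!
# The numeric conditions `KN3` hold for small `s`
-/

set_option autoImplicit false

open scoped BigOperators NNReal Matrix

noncomputable section

namespace Pool.Agent.AHH.H61

open Pool.Agent.AND.Num
open Pool.Agent.KL2
open Pool.Agent.CTC (CT fac)

/-- a dyadic number near `s ^ (-41/100)` -/
theorem exists_J {s : ℝ} (hs : 0 < s) (hs1 : s ≤ 1) :
    ∃ J : ℕ, (4 : ℝ) ^ J ≤ s ^ (-(82 / 100) : ℝ) ∧ (1 / 2 : ℝ) ^ J ≤ 2 * s ^ (41 / 100 : ℝ) := by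
  have h1 : 1 ≤ s ^ (-(41 / 100) : ℝ) :=
    Real.one_le_rpow_of_pos_of_le_one_of_nonpos hs hs1 (by norm_num)
  obtain ⟨J, h2, h3⟩ := exists_nat_pow_near h1 (by norm_num : (1 : ℝ) < 2)
  refine ⟨J, ?_, ?_⟩
  · calc (4 : ℝ) ^ J = ((2 : ℝ) ^ J) ^ 2 := by
          rw [← pow_mul, mul_comm, pow_mul]
          norm_num
      _ ≤ (s ^ (-(41 / 100) : ℝ)) ^ 2 := by gcongr
      _ = s ^ (-(82 / 100) : ℝ) := by
          rw [← Real.rpow_natCast, ← Real.rpow_mul hs.le]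
          norm_num
  · have h4 : (0 : ℝ) < 2 ^ J := by positivity
    have h5 : s ^ (-(41 / 100) : ℝ) < 2 ^ J * 2 := by
      rw [pow_succ] at h3
      exact h3
    have h6 : s ^ (41 / 100 : ℝ) * s ^ (-(41 / 100) : ℝ) = 1 := by
      rw [← Real.rpow_add hs]
      norm_num
    have h7 : 0 < s ^ (41 / 100 : ℝ) := Real.rpow_pos_of_pos hs _
    rw [one_div, inv_pow, inv_le_iff_one_le_mul₀ h4, ← h6]
    nlinarith

/-- the factor of the absorber lemma -/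
theorem fac_le {d : ℕ} (hd : 3 ≤ d) {J : ℕ} {s a b : ℝ} (hs : 0 < s) (hs1 : s ≤ 1)
    (hJ : (4 : ℝ) ^ J ≤ s ^ (-(82 / 100) : ℝ)) (hJ2 : (1 / 2 : ℝ) ^ J ≤ 2 * s ^ (41 / 100 : ℝ))
    (ha : 102 / 100 ≤ a) (hb : -(21 / 100) ≤ b) :
    fac d J (s ^ a) (s ^ b) ≤ 3 * NAS.CS d * s ^ (1 / 5 : ℝ) := by
  have hC := NAS.CS_nonneg d
  have h0a : 0 < s ^ a := Real.rpow_pos_of_pos hs _
  have h0b : 0 < s ^ b := Real.rpow_pos_of_pos hs _
  have h1 : (4 : ℝ) ^ J * s ^ a ≤ s ^ (1 / 5 : ℝ) := by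
    calc (4 : ℝ) ^ J * s ^ a ≤ s ^ (-(82 / 100) : ℝ) * s ^ a :=
          mul_le_mul_of_nonneg_right hJ h0a.le
      _ = s ^ (-(82 / 100) + a : ℝ) := (Real.rpow_add hs _ _).symm
      _ ≤ s ^ (1 / 5 : ℝ) := rpow_anti hs hs1 (by linarith)
  have h2 : ((1 / 2 : ℝ) ^ (d - 2)) ^ J ≤ (1 / 2 : ℝ) ^ J := by
    have h3 : (1 / 2 : ℝ) ^ (d - 2) ≤ 1 / 2 := by
      calc (1 / 2 : ℝ) ^ (d - 2) ≤ (1 / 2 : ℝ) ^ 1 :=
            pow_le_pow_of_le_one (by norm_num) (by norm_num) (by omega)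
        _ = 1 / 2 := pow_one _
    exact pow_le_pow_left₀ (by positivity) h3 J
  have h3 : ((1 / 2 : ℝ) ^ (d - 2)) ^ J * s ^ b ≤ 2 * s ^ (1 / 5 : ℝ) := by
    calc ((1 / 2 : ℝ) ^ (d - 2)) ^ J * s ^ b ≤ (2 * s ^ (41 / 100 : ℝ)) * s ^ b :=
          mul_le_mul_of_nonneg_right (h2.trans hJ2) h0b.le
      _ = 2 * s ^ (41 / 100 + b : ℝ) := by
          rw [Real.rpow_add hs]
          ring
      _ ≤ 2 * s ^ (1 / 5 : ℝ) :=
          mul_le_mul_of_nonneg_left (rpow_anti hs hs1 (by linarith)) (by norm_num)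
  unfold fac
  nlinarith

theorem ct_aux (s x : ℝ) (hs : s ≠ 0) (hx : x ≠ 0) (m : ℕ) :
    96 / (s * x) ^ 2 * (16 / (s * x)) ^ m =
      96 / x ^ 2 * (16 / x) ^ m * ((s ^ 2)⁻¹ * (s ^ m)⁻¹) := by
  have h1 : 16 / (s * x) = 16 / x * s⁻¹ := by field_simp
  rw [h1, mul_pow (16 / x) s⁻¹ m, inv_pow, mul_pow s x 2]
  field_simp

/-- the tail -/
theorem small_CT (d : ℕ) (c : ℝ) (hd : 3 ≤ d) (hc : 0 < c) :
    Small fun s => ∀ nS : ℕ, (nS : ℝ) ≤ 2 * s ^ (-(6 / 5) : ℝ) →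
      CT d (s * c / (8 * d) / 16) * Real.exp (-(s ^ (-(1 / 2) : ℝ))) * nS ≤
        s ^ (5 * (d : ℝ) + 3) := by
  have hd0 : (0 : ℝ) < d := by
    have : 0 < d := by omega
    exact_mod_cast this
  set c₂ : ℝ := c / (8 * d) / 16 / d with hc₂
  have hc₂0 : 0 < c₂ := by positivity
  set K : ℝ := 96 / c₂ ^ 2 * (16 / c₂) ^ (2 * d) with hK
  have hK0 : 0 < K := by positivity
  have h1 := small_exp_pow (2 * K) 1 (1 / 2) (2 + 2 * (d : ℝ) + 6 / 5) (5 * (d : ℝ) + 3) one_pos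
    (by norm_num)
  refine h1.mono fun s hs h2 nS hn => ?_
  have e1 : s * c / (8 * d) / 16 / d = s * c₂ := by
    rw [hc₂]
    field_simp
  have e2 : CT d (s * c / (8 * d) / 16) = K * s ^ (-(2 + 2 * (d : ℝ))) := by
    unfold CT
    rw [e1, hK]
    have e3 : s ^ (-(2 + 2 * (d : ℝ))) = (s ^ 2)⁻¹ * (s ^ (2 * d))⁻¹ := by
      rw [Real.rpow_neg hs.le, Real.rpow_add hs, mul_inv]
      congr 2
      · norm_num
      · rw [← Real.rpow_natCast]
        congr 1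
        push_cast
        ring
    rw [e3]
    exact ct_aux s c₂ hs.ne' hc₂0.ne' (2 * d)
  rw [e2]
  have h3 : 0 < s ^ (-(2 + 2 * (d : ℝ))) := Real.rpow_pos_of_pos hs _
  have h4 : 0 < Real.exp (-(s ^ (-(1 / 2) : ℝ))) := Real.exp_pos _
  calc K * s ^ (-(2 + 2 * (d : ℝ))) * Real.exp (-(s ^ (-(1 / 2) : ℝ))) * nS
      ≤ K * s ^ (-(2 + 2 * (d : ℝ))) * Real.exp (-(s ^ (-(1 / 2) : ℝ))) *
        (2 * s ^ (-(6 / 5) : ℝ)) := mul_le_mul_of_nonneg_left hn (by positivity)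
    _ = 2 * K * s ^ (-(2 + 2 * (d : ℝ) + 6 / 5)) * Real.exp (-(1 * s ^ (-(1 / 2) : ℝ))) := by
        have e4 : s ^ (-(2 + 2 * (d : ℝ) + 6 / 5)) =
            s ^ (-(2 + 2 * (d : ℝ))) * s ^ (-(6 / 5) : ℝ) := by
          rw [← Real.rpow_add hs]
          congr 1
          ring
        rw [e4, one_mul]
        ring
    _ ≤ _ := h2

/-- KN3 -/
theorem kn3 (d : ℕ) (c C : ℝ) (hd : 3 ≤ d) (hc : 0 < c) (hc2 : c ≤ 1 / 2) (hC : 1 ≤ C) :
    Small fun s => ∀ (w rho nQ : ℝ) (ρ clu kn rk : ℕ), s ≤ w → w ≤ 1 → 0 ≤ rho →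
      rho ≤ 1 / 8 → rho ≤ 1 / (8 * C) → 0 ≤ nQ → nQ ≤ s ^ (-(1 / 1000) : ℝ) →
      (clu : ℝ) ≤ s ^ (-(1 / 1000) : ℝ) →
      (kn : ℝ) ≤ s ^ (-(6 / 5) : ℝ) → (rk : ℝ) ≤ s ^ (-(8 / 5) : ℝ) →
      s ^ (-3 : ℝ) ≤ (ρ : ℝ) → ∃ Jc Jr : ℕ,
        KN3 d (clu + kn) Jc Jr ρ rk (c / 2) (1 - 1 / (2 * C))
          (c * w ^ (8 * es - 1)) (4 * C ^ 3 / w) rho (s ^ (1 / 100 : ℝ)) (s ^ (5 * (d : ℝ)))
          (s * (c / 2)) (s * (c / 2) / (8 * d)) (Real.exp (-(s ^ (-(1 / 2) : ℝ)))) nQ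
          (s ^ (1033 / 1000 : ℝ)) (s ^ (33 / 1000 : ℝ)) (s ^ (-(1 / 5) : ℝ))
          (s ^ (1024 / 1000 : ℝ)) (s ^ (24 / 1000 : ℝ)) (s ^ (-(201 / 1000) : ℝ))
          (s ^ (33 / 2000 : ℝ)) (s ^ (31 / 2000 : ℝ)) := by
  have hd0 : (0 : ℝ) < d := by
    have : 0 < d := by omega
    exact_mod_cast this
  have hCS := NAS.CS_nonneg d
  have hC0 : 0 < C := by linarith only [hC]
  set A : ℝ := (2 + 32 * (d : ℝ) ^ 2 * 2) * (4 * C) with hA
  have B0 := small_le 1 one_pos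
  have B1 := small_pow (A + 8) (33 / 2000) (31 / 2000) (by norm_num)
  have B2 := (small_pow' (2 + 32 * (d : ℝ) ^ 2 * 2) (1 / 2) (33 / 2000) (31 / 2000)
    (by norm_num) (by norm_num)).and
    (small_pow' (24 * NAS.CS d) (1 / 2) (1 / 5 - 33 / 2000) (31 / 2000) (by norm_num)
      (by norm_num))
  have B3 := (small_pow' 8 (1 / 4) (23 / 1000) (1 / 100) (by norm_num) (by norm_num)).and
    (small_pow' 4 (1 / 4) (29 / 2000) (1 / 100) (by norm_num) (by norm_num))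
  have B4 := small_CT d (c / 2) hd (by positivity)
  have B5 := (small_pow' (6 * NAS.CS d) (c / 4) (1 / 5 - 1 / 1000) (8 * es + 1 / 100)
    (by positivity) (by norm_num [es])).and
    (small_pow' (8 * C ^ 3) (c / 4) (29 / 2000) (8 * es + 1 / 100)
      (by positivity) (by norm_num [es]))
  have B6 := (small_pow' (32 / c ^ 2) (1 / 2) 2 (1 / 100) (by norm_num) (by norm_num)).and
    (small_pow' 2 (c / 2) 3 (8 * es + 1 / 100) (by positivity) (by norm_num [es]))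
  have B7 := (small_pow 4 (-(8 / 5)) (-3) (by norm_num)).and
    (small_const (2 / (c / 2 / (8 * d) / 16 / (4 * d))) 2 (by norm_num))
  have B8 := (small_rpow_le (1 / 16) (1 / 100) (by norm_num) (by norm_num)).and
    (small_rpow_le (1 / (16 * C)) (1 / 100) (by positivity) (by norm_num))
  refine (((((((((B0.and B1).and B2).and B3).and B4).and B5).and B6).and B7).and B8)).mono
    fun s hs h => ?_
  obtain ⟨⟨⟨⟨⟨⟨⟨⟨B0, B1⟩, B2, B2'⟩, B3, B3'⟩, B4⟩, B5, B5'⟩, B6, B6'⟩, B7, B7'⟩, B8, B8'⟩ := h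
  intro w rho nQ ρ clu kn rk hsw hw1 hr0 hr1 hr2 hQ0 hQ hclu hkn hrk hρ
  have hw : 0 < w := lt_of_lt_of_le hs hsw
  have rp : ∀ p : ℝ, 0 < s ^ p := fun p => Real.rpow_pos_of_pos hs p
  have anti : ∀ {p q : ℝ}, q ≤ p → s ^ p ≤ s ^ q := fun h => rpow_anti hs B0 h
  have le1 : ∀ {p : ℝ}, 0 ≤ p → s ^ p ≤ 1 := fun h => Real.rpow_le_one hs.le B0 h
  have ad : ∀ p q : ℝ, s ^ p * s ^ q = s ^ (p + q) := fun p q => (Real.rpow_add hs p q).symm
  obtain ⟨J, hJ, hJ2⟩ := exists_J hs B0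
  have hf : fac d J (s ^ (1033 / 1000 : ℝ)) (s ^ (-(1 / 5) : ℝ)) ≤
      3 * NAS.CS d * s ^ (1 / 5 : ℝ) := fac_le hd hs B0 hJ hJ2 (by norm_num) (by norm_num)
  have hf1 : fac d J (s ^ (1024 / 1000 : ℝ)) (s ^ (-(201 / 1000) : ℝ)) ≤
      3 * NAS.CS d * s ^ (1 / 5 : ℝ) := fac_le hd hs B0 hJ hJ2 (by norm_num) (by norm_num)
  have hf0 : 0 ≤ fac d J (s ^ (1024 / 1000 : ℝ)) (s ^ (-(201 / 1000) : ℝ)) :=
    CTC.fac_nonneg d J (rp _).le (rp _).le
  -- the bond weights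
  have hwes : s ^ (8 * es) ≤ w ^ (8 * es) :=
    Real.rpow_le_rpow hs.le hsw (by norm_num [es])
  have hD0 : c * s ^ (8 * es) * (1 / w) ≤ c * w ^ (8 * es - 1) := by
    have e1 : w ^ (8 * es - 1) = w ^ (8 * es) * (1 / w) := by
      rw [Real.rpow_sub hw, Real.rpow_one]
      ring
    rw [e1, mul_assoc]
    have : 0 ≤ 1 / w := by positivity
    exact mul_le_mul_of_nonneg_left (mul_le_mul_of_nonneg_right hwes this) hc.le
  have hw1' : 1 ≤ 1 / w := by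
    rw [le_div_iff₀ hw]
    linarith only [hw1]
  have hD0' : c * s ^ (8 * es) ≤ c * w ^ (8 * es - 1) := by
    refine le_trans ?_ hD0
    exact le_mul_of_one_le_right (mul_pos hc (rp (8 * es))).le hw1'
  have hD1 : (4 : ℝ) ≤ 4 * C ^ 3 / w := by
    rw [le_div_iff₀ hw]
    have h1 : (1 : ℝ) ≤ C ^ 3 := one_le_pow₀ hC
    linarith only [h1, hw1]
  have hu2 : 2 / (1 - (1 - 1 / (2 * C))) = 4 * C := by
    field_simp
    ring
  have hnS : (((clu + kn : ℕ)) : ℝ) ≤ 2 * s ^ (-(6 / 5) : ℝ) := by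
    push_cast
    have := anti (p := -(1 / 1000)) (q := -(6 / 5)) (by norm_num)
    linarith only [this, hclu, hkn]
  have hX := B4 (clu + kn) hnS
  set X : ℝ := CT d (s * (c / 2) / (8 * d) / 16) * Real.exp (-(s ^ (-(1 / 2) : ℝ))) *
    ((clu + kn : ℕ) : ℝ) with hXd
  have hXs : s ^ (5 * (d : ℝ) + 3) = s ^ (5 * (d : ℝ)) * s ^ (3 : ℝ) := Real.rpow_add hs _ _
  rw [hXs] at hX
  refine ⟨J, J, ?_⟩
  refine
    { heps := ⟨rp _, le1 (by norm_num)⟩
      hu₀ := ⟨?_, ?_⟩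
      hD := ⟨mul_pos hc (Real.rpow_pos_of_pos hw _), ?_⟩
      hrho := hr0
      htau := ⟨rp _, le1 (by positivity)⟩
      hnR := (rp _).le
      b1 := ⟨by linarith only [hr1, B8], ?_⟩
      hu := (rp _).le
      u1 := ?_
      u2 := ?_
      n1 := ?_
      n2 := ?_
      n3 := ?_
      n4 := ?_
      r1 := ?_
      r2 := ?_ }
  · have h1 : 1 / (2 * C) ≤ 1 := by
      rw [div_le_one (by positivity)]
      linarith only [hC]
    linarith only [h1]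
  · have : 0 < 1 / (2 * C) := by positivity
    linarith only [this]
  · -- `D₀ ≤ D₁`
    rw [le_div_iff₀ hw, mul_assoc]
    have h6 : w ^ (8 * es - 1) * w = w ^ (8 * es) := by
      nth_rewrite 2 [← Real.rpow_one w]
      rw [← Real.rpow_add hw]
      congr 1
      ring
    have h7 : w ^ (8 * es) ≤ 1 := Real.rpow_le_one hw.le hw1 (by norm_num [es])
    rw [h6]
    have h8 : (1 : ℝ) ≤ C ^ 3 := one_le_pow₀ hC
    have h9 : 0 ≤ w ^ (8 * es) := Real.rpow_nonneg hw.le _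
    have h10 : c * w ^ (8 * es) ≤ 1 / 2 * 1 := mul_le_mul hc2 h7 h9 (by norm_num)
    linarith only [h8, h10]
  · have h1 : (1 - (1 - 1 / (2 * C))) / 2 = 1 / (4 * C) := by
      field_simp
      ring
    rw [h1]
    have h2 : 1 / (4 * C) = 1 / (8 * C) + 2 * (1 / (16 * C)) := by
      field_simp
      norm_num
    rw [h2]
    linarith only [B8', hr2]
  · rw [hu2]
    have e1 : 8 / s ^ (33 / 2000 : ℝ) * s ^ (33 / 1000 : ℝ) = 8 * s ^ (33 / 2000 : ℝ) := by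
      have e2 : s ^ (33 / 1000 : ℝ) = s ^ (33 / 2000 : ℝ) * s ^ (33 / 2000 : ℝ) := by
        rw [ad]
        norm_num
      rw [e2]
      have := rp (33 / 2000)
      field_simp
    rw [e1]
    have e3 : s ^ (33 / 2000 : ℝ) * ((2 + 32 * (d : ℝ) ^ 2 * 2) * (4 * C)) +
        8 * s ^ (33 / 2000 : ℝ) = (A + 8) * s ^ (33 / 2000 : ℝ) := by
      rw [hA]
      ring
    rw [e3]
    exact B1
  · set D₁ : ℝ := 4 * C ^ 3 / w with hD₁
    have h1 : 8 / s ^ (33 / 2000 : ℝ) * fac d J (s ^ (1033 / 1000 : ℝ)) (s ^ (-(1 / 5) : ℝ)) ≤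
        24 * NAS.CS d * s ^ (1 / 5 - 33 / 2000 : ℝ) := by
      have e1 : s ^ (1 / 5 - 33 / 2000 : ℝ) = s ^ (1 / 5 : ℝ) / s ^ (33 / 2000 : ℝ) :=
        Real.rpow_sub hs _ _
      rw [e1, div_mul_eq_mul_div, ← mul_div_assoc]
      refine div_le_div_of_nonneg_right ?_ (rp _).le
      linarith only [hf]
    have h2 := rp (31 / 2000)
    have k1 : s ^ (33 / 2000 : ℝ) * ((2 + 32 * (d : ℝ) ^ 2 * 2) * (2 * D₁)) ≤
        s ^ (31 / 2000 : ℝ) * D₁ := by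
      have k2 := mul_le_mul_of_nonneg_right B2 (show 0 ≤ 2 * D₁ by linarith only [hD1])
      calc _ = (2 + 32 * (d : ℝ) ^ 2 * 2) * s ^ (33 / 2000 : ℝ) * (2 * D₁) := by ring
        _ ≤ _ := k2
        _ = _ := by ring
    have k3 : s ^ (31 / 2000 : ℝ) * (1 / 2) ≤ s ^ (31 / 2000 : ℝ) * D₁ :=
      mul_le_mul_of_nonneg_left (by linarith only [hD1]) h2.le
    linarith only [k1, k3, h1, B2']
  · have h1 : s ^ (24 / 1000 : ℝ) * nQ ≤ s ^ (23 / 1000 : ℝ) := by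
      calc s ^ (24 / 1000 : ℝ) * nQ ≤ s ^ (24 / 1000 : ℝ) * s ^ (-(1 / 1000) : ℝ) :=
            mul_le_mul_of_nonneg_left hQ (rp _).le
        _ = s ^ (23 / 1000 : ℝ) := by
            rw [ad]
            norm_num
    have h2 : s ^ (31 / 2000 : ℝ) * nQ ≤ s ^ (29 / 2000 : ℝ) := by
      calc s ^ (31 / 2000 : ℝ) * nQ ≤ s ^ (31 / 2000 : ℝ) * s ^ (-(1 / 1000) : ℝ) :=
            mul_le_mul_of_nonneg_left hQ (rp _).le
        _ = s ^ (29 / 2000 : ℝ) := by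
            rw [ad]
            norm_num
    linarith only [h1, h2, B3, B3']
  · have h1 : 8 * X / (s * (c / 2) * (c / 2) * s ^ (5 * (d : ℝ))) ≤ 32 / c ^ 2 * s ^ (2 : ℝ) := by
      rw [div_le_iff₀ (by have := rp (5 * (d : ℝ)); positivity)]
      have e1 : 32 / c ^ 2 * s ^ (2 : ℝ) * (s * (c / 2) * (c / 2) * s ^ (5 * (d : ℝ))) =
          8 * (s ^ (5 * (d : ℝ)) * (s ^ (2 : ℝ) * s)) := by
        field_simp
        ring
      have e2 : s ^ (2 : ℝ) * s = s ^ (3 : ℝ) := by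
        nth_rewrite 2 [← Real.rpow_one s]
        rw [ad]
        norm_num
      rw [e1, e2]
      linarith only [hX]
    linarith only [h1, B6]
  · set f := fac d J (s ^ (1024 / 1000 : ℝ)) (s ^ (-(201 / 1000) : ℝ)) with hfd
    have h2 : s ^ (31 / 2000 : ℝ) * nQ ≤ s ^ (29 / 2000 : ℝ) := by
      calc s ^ (31 / 2000 : ℝ) * nQ ≤ s ^ (31 / 2000 : ℝ) * s ^ (-(1 / 1000) : ℝ) :=
            mul_le_mul_of_nonneg_left hQ (rp _).le
        _ = s ^ (29 / 2000 : ℝ) := by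
            rw [ad]
            norm_num
    have h3 : f * nQ ≤ 3 * NAS.CS d * s ^ (1 / 5 - 1 / 1000 : ℝ) := by
      calc f * nQ ≤ (3 * NAS.CS d * s ^ (1 / 5 : ℝ)) * s ^ (-(1 / 1000) : ℝ) :=
            mul_le_mul hf1 hQ hQ0 (mul_nonneg (by positivity) (rp _).le)
        _ = _ := by
            rw [mul_assoc, ad]
            norm_num
    have h4 : (2 * f + s ^ (31 / 2000 : ℝ) * (2 * (4 * C ^ 3 / w))) * nQ ≤
        (6 * NAS.CS d * s ^ (1 / 5 - 1 / 1000 : ℝ) + 8 * C ^ 3 * s ^ (29 / 2000 : ℝ)) *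
          (1 / w) := by
      have e1 : (2 * f + s ^ (31 / 2000 : ℝ) * (2 * (4 * C ^ 3 / w))) * nQ =
          2 * (f * nQ) + 8 * C ^ 3 * (s ^ (31 / 2000 : ℝ) * nQ) * (1 / w) := by
        field_simp
        ring
      rw [e1]
      have h5 : 8 * C ^ 3 * (s ^ (31 / 2000 : ℝ) * nQ) * (1 / w) ≤
          8 * C ^ 3 * s ^ (29 / 2000 : ℝ) * (1 / w) := by gcongr
      have h6 : 0 ≤ 6 * NAS.CS d * s ^ (1 / 5 - 1 / 1000 : ℝ) :=
        mul_nonneg (by positivity) (rp _).le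
      have h7 : 2 * (f * nQ) ≤ 6 * NAS.CS d * s ^ (1 / 5 - 1 / 1000 : ℝ) * (1 / w) := by
        have h8 : 2 * (f * nQ) ≤ 6 * NAS.CS d * s ^ (1 / 5 - 1 / 1000 : ℝ) := by linarith only [h3]
        exact h8.trans (le_mul_of_one_le_right h6 hw1')
      linarith only [h5, h7]
    have h5 : c * w ^ (8 * es - 1) * s ^ (1 / 100 : ℝ) / 2 ≥
        (c * s ^ (8 * es) * (1 / w)) * s ^ (1 / 100 : ℝ) / 2 := by
      have := mul_le_mul_of_nonneg_right hD0 (rp (1 / 100)).le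
      linarith only [this]
    have h6 : (c * s ^ (8 * es) * (1 / w)) * s ^ (1 / 100 : ℝ) / 2 =
        (c / 2 * s ^ (8 * es + 1 / 100)) * (1 / w) := by
      rw [Real.rpow_add hs]
      ring
    have h7 : (6 * NAS.CS d * s ^ (1 / 5 - 1 / 1000 : ℝ) + 8 * C ^ 3 * s ^ (29 / 2000 : ℝ)) *
          (1 / w) ≤ (c / 2 * s ^ (8 * es + 1 / 100)) * (1 / w) := by
      refine mul_le_mul_of_nonneg_right ?_ (by positivity)
      linarith only [B5, B5']
    linarith only [h4, h5, h6, h7]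
  · have h1 : 2 * X / s ^ (5 * (d : ℝ)) ≤ 2 * s ^ (3 : ℝ) := by
      rw [div_le_iff₀ (rp _)]
      linarith only [hX]
    have h2 : c / 2 * s ^ (8 * es + 1 / 100) ≤ c * w ^ (8 * es - 1) * s ^ (1 / 100 : ℝ) / 2 := by
      rw [Real.rpow_add hs]
      have := mul_le_mul_of_nonneg_right hD0' (rp (1 / 100)).le
      linarith only [this]
    linarith only [h1, h2, B6']
  · have h1 : 4 * (rk : ℝ) ≤ (ρ : ℝ) := by linarith only [hrk, hρ, B7]
    exact_mod_cast h1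
  · have h1 : s * (c / 2) / (8 * d) / 16 / (4 * d) * (ρ : ℝ) =
        (c / 2 / (8 * d) / 16 / (4 * d)) * (s * (ρ : ℝ)) := by
      field_simp
    rw [h1]
    have h2 : s ^ (-2 : ℝ) ≤ s * (ρ : ℝ) := by
      have h3 : s ^ (-2 : ℝ) = s * s ^ (-3 : ℝ) := by
        nth_rewrite 2 [← Real.rpow_one s]
        rw [ad]
        norm_num
      rw [h3]
      exact mul_le_mul_of_nonneg_left hρ hs.le
    have h4 : 0 < c / 2 / (8 * d) / 16 / (4 * d) := by positivity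
    rw [div_le_iff₀ h4] at B7'
    exact (B7'.trans (mul_le_mul_of_nonneg_right h2 h4.le)).trans_eq (mul_comm _ _)

end Pool.Agent.AHH.H61
end
end -- Pool.Agent.Helper61_AHH.KN3

section -- Pool.Agent.Helper16_AHH.All4

/-!
# AND2B: the fields `beg`, `mmon`, `rbeg`, `rmon` without hypotheses
-/

set_option autoImplicit false

noncomputable section

namespace Pool.Agent.AHH.H16

theorem budT : BudStmt := by
  intro d a c C _ _ hc _ hC
  exact H61.budOk _ _ c C hc hC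

/-- field `beg` -/
theorem begT : BegF := begF budT ABY.H10.cmp ABY.H82.vex

/-- field `mmon` -/
theorem mmonT : MmonF := mmonF budT ABY.H10.cmp ABY.H82.vex ABY.H13.vfr

/-- field `rbeg` -/
theorem rbegT : RbegF := rbegF budT

/-- field `rmon` -/
theorem rmonT : RmonF := rmonF budT ABY.H10.cmp ABY.H82.vex ABY.H13.vfr

end Pool.Agent.AHH.H16
end
end -- Pool.Agent.Helper16_AHH.All4

section -- Pool.Agent.Helper22_QDU.H16BegF
/-!
# AND2B: the fields `beg`, `mmon`, `rbeg`, `rmon` in the final form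
-/

set_option autoImplicit false

open scoped BigOperators NNReal Matrix

noncomputable section

namespace Pool.Agent.QDU.H16

open Pool.Agent.AHH hiding BegF FinF FloF IniF KilF MmonF OutF RbegF RfinF RmonF ana0
open Pool.Agent.AHH.H16 hiding BudStmt begF mmonF rbegF rmonF

open Pool.Agent.ABY
open Pool.Agent.AND2B (Prd)

/-- BOK: the budget satisfies `BudOk` -/
def BudStmt : Prop :=
  ∀ (d : ℕ) (a c C : ℝ), 3 ≤ d → 0 < a → 0 < c → c ≤ 1 / 2 → 1 ≤ C →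
    Ev2 d a es c C fun V => BudOk (toE V c C) (bud V)

theorem begF (hBud : BudStmt) (hC : CmpStmt) (hX : VexStmt) : BegF := by
  intro d a c C hd ha hc hc' hC'
  refine (hBud d a c C hd ha hc hc' hC').imp fun V hB => ?_
  intro n k T run h1 h2 h3 h4 _ h6
  exact beg_field hC hX hB n k T run h1 h2 h3 h4 h6

theorem mmonF (hBud : BudStmt) (hC : CmpStmt) (hX : VexStmt) (hVF : VfrStmt) : MmonF := by
  intro d a c C hd ha hc hc' hC'
  refine (hBud d a c C hd ha hc hc' hC').imp fun V hB => ?_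
  intro n k T₀ run₀ P P' T run run' h1 h2 h3 h4 _ _ _ h5
  exact mmon_field hC hX hVF hB n k T₀ run₀ P P' T run run' h1 h2 h3 h4 h5

theorem rbegF (hBud : BudStmt) : RbegF := by
  intro d a c C hd ha hc hc' hC'
  refine (hBud d a c C hd ha hc hc' hC').imp fun V hB => ?_
  intro n T run h1 h2 _ h3
  exact rbeg_field hB n T run h1 h2 h3

theorem rmonF (hBud : BudStmt) (hC : CmpStmt) (hX : VexStmt) (hVF : VfrStmt) : RmonF := by
  intro d a c C hd ha hc hc' hC'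
  refine (hBud d a c C hd ha hc hc' hC').imp fun V hB => ?_
  intro n T₀ run₀ P P' T run run' h1 h2 h3 h4 _ _ _ h5
  exact rmon_field hC hX hVF hB n T₀ run₀ P P' T run run' h1 h2 h3 h4 h5

end Pool.Agent.QDU.H16
end
end -- Pool.Agent.Helper22_QDU.H16BegF
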