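import Pool.Agent.Helper12_MEB.B170
import Pool.Agent.Helper12_MEB.B175

/-!
# Merged copies (generated) of the modules

* `Pool.Agent.Helper54_AHH.Sums`
* `Pool.Agent.Helper54_AHH.Rfin`
* `Pool.Agent.Helper61_AHH.StpR`
* `Pool.Agent.Helper54_AHH.RfinT`
* `Pool.Agent.Helper22_QDU.H54Sums`
* `Pool.Agent.Helper22_QDU.H54Rfin`
* `Pool.Agent.Helper22_QDU.H61StpR`
* `Pool.Agent.Helper22_QDU.H54RfinT`
* `Pool.Agent.Helper34_QDA.PhsN`
-/

set_option autoImplicit false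

section -- Pool.Agent.Helper54_AHH.Sums

/-!
# AND2B (MP_1906c1_mp): the sums of the numbers of dead sites (fields `fin` and `rfin`)
-/

set_option autoImplicit false

open scoped BigOperators NNReal

noncomputable section

namespace Pool.Agent.AHH.H54

open Finset
open Pool.Agent.AND2B (Ev)
open Pool.Agent.AND.Num
open Pool.Agent.AHH.H61

/-- the numbers of dead sites of the levels `< m` -/
theorem dsum {d : ℕ} {a : ℝ} {V : AND2B.Env d} (hP : V.Pre a) :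
    ∀ m ≤ V.N + 1, ∑ j ∈ range m, (3 ^ d * V.Dn j : ℝ) ≤
      3 ^ d / (1 - (V.th : ℝ)) * V.sg m ^ (-(5 / 4) : ℝ) := by
  have hth1 : (V.th : ℝ) < 1 := by exact_mod_cast hP.th.2
  have hth0 : (0 : ℝ) < V.th := by exact_mod_cast th_pos hP
  have h1th : 0 < 1 - (V.th : ℝ) := by linarith only [hth1]
  intro m
  induction m with
  | zero =>
    intro _
    rw [range_zero, sum_empty]
    have h0 := Real.rpow_nonneg (sg_pos hP 0).le (-(5 / 4) : ℝ)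
    positivity
  | succ m ih =>
    intro hm
    rw [sum_range_succ]
    have h1 := ih (by omega)
    have h2 : (V.Dn m : ℝ) ≤ V.sg (m + 1) ^ (-(5 / 4 : ℝ)) := hP.sc.dl m (by omega)
    have hs := sg_pos hP m
    have hs' := sg_pos hP (m + 1)
    have h3 : V.sg m ^ (-(5 / 4) : ℝ) ≤ V.th * V.sg (m + 1) ^ (-(5 / 4) : ℝ) := by
      have e1 : V.sg (m + 1) / V.th ≤ V.sg m := by
        rw [div_le_iff₀ hth0, mul_comm]
        exact sg_succ hP m
      have e2 : V.sg m ^ (-(5 / 4) : ℝ) ≤ (V.sg (m + 1) / V.th) ^ (-(5 / 4) : ℝ) :=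
        Real.rpow_le_rpow_of_nonpos (div_pos hs' hth0) e1 (by norm_num)
      have e3 : (V.sg (m + 1) / (V.th : ℝ)) ^ (-(5 / 4) : ℝ) =
          V.sg (m + 1) ^ (-(5 / 4) : ℝ) * (V.th : ℝ) ^ (5 / 4 : ℝ) := by
        rw [Real.div_rpow hs'.le hth0.le, Real.rpow_neg hth0.le, div_inv_eq_mul]
      have e4 : (V.th : ℝ) ^ (5 / 4 : ℝ) ≤ V.th := by
        have := Real.rpow_le_rpow_of_exponent_ge hth0 hth1.le (show (1 : ℝ) ≤ 5 / 4 by norm_num)
        rwa [Real.rpow_one] at this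
      rw [e3] at e2
      have e5 := mul_le_mul_of_nonneg_left e4 (Real.rpow_nonneg hs'.le (-(5 / 4) : ℝ))
      linarith only [e2, e5]
    have h4 : (3 : ℝ) ^ d / (1 - (V.th : ℝ)) * V.sg m ^ (-(5 / 4) : ℝ) ≤
        3 ^ d / (1 - (V.th : ℝ)) * (V.th * V.sg (m + 1) ^ (-(5 / 4) : ℝ)) :=
      mul_le_mul_of_nonneg_left h3 (by positivity)
    have h5 : (3 : ℝ) ^ d * V.Dn m ≤ 3 ^ d * V.sg (m + 1) ^ (-(5 / 4) : ℝ) :=
      mul_le_mul_of_nonneg_left h2 (by positivity)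
    have h6 : (3 : ℝ) ^ d / (1 - (V.th : ℝ)) * (V.th * V.sg (m + 1) ^ (-(5 / 4) : ℝ)) +
        3 ^ d * V.sg (m + 1) ^ (-(5 / 4) : ℝ) =
        3 ^ d / (1 - (V.th : ℝ)) * V.sg (m + 1) ^ (-(5 / 4) : ℝ) := by
      field_simp
      ring
    linarith only [h1, h4, h5, h6]

/-- THE TWO SUMS OF `WtsStmt` -/
theorem sums (d : ℕ) (a c C : ℝ) :
    Ev d a es c C fun V => ∀ m ≤ V.N + 1,
      ∑ j ∈ range m, (3 ^ d * V.Dn j : ℝ) / 2 ^ V.l j ≤ 1 / 4 ∧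
      ∀ s : ℝ, 0 < s → s ≤ V.sg m →
        2 + 4 * ∑ j ∈ range m, (3 ^ d * V.Dn j : ℝ) ≤ s ^ (-2 : ℝ) := by
  have h1 : Ev d a es c C fun V => ∀ s : ℝ, 0 < s → s ≤ V.w →
      (2 * s ^ (0 : ℝ) ≤ 1 / 2 * s ^ (-2 : ℝ) ∧
      4 * (3 ^ d / (1 - (V.th : ℝ))) * s ^ (-(5 / 4) : ℝ) ≤ 1 / 2 * s ^ (-2 : ℝ)) :=
    ev_small (fun th _ _ _ _ s => 2 * s ^ (0 : ℝ) ≤ 1 / 2 * s ^ (-2 : ℝ) ∧
      4 * (3 ^ d / (1 - (th : ℝ))) * s ^ (-(5 / 4) : ℝ) ≤ 1 / 2 * s ^ (-2 : ℝ))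
      fun th _ _ _ _ _ _ _ _ =>
        (small_pow' 2 (1 / 2) _ _ (by norm_num) (by norm_num)).and
          (small_pow' (4 * (3 ^ d / (1 - (th : ℝ)))) (1 / 2) _ _ (by norm_num) (by norm_num))
  refine (h1.and ev_good).imp fun V hV m hm => ?_
  obtain ⟨h1, hG⟩ := hV
  have hP : V.Pre a := hG.toPre
  refine ⟨?_, fun s hs hsm => ?_⟩
  · refine (sum_le_sum_of_subset_of_nonneg (range_mono (show m ≤ V.N + 2 by omega))
      fun i _ _ => by positivity).trans hP.sc.ds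
  · obtain ⟨g1, g2⟩ := h1 s hs (hsm.trans (sg_le hP m))
    rw [Real.rpow_zero] at g1
    have h2 := dsum hP m hm
    have hth1 : (V.th : ℝ) < 1 := by exact_mod_cast hP.th.2
    have h1th : 0 < 1 - (V.th : ℝ) := by linarith only [hth1]
    have h3 : V.sg m ^ (-(5 / 4) : ℝ) ≤ s ^ (-(5 / 4) : ℝ) :=
      Real.rpow_le_rpow_of_nonpos hs hsm (by norm_num)
    have h4 := mul_le_mul_of_nonneg_left h3
      (show (0 : ℝ) ≤ 3 ^ d / (1 - (V.th : ℝ)) by positivity)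
    linarith only [g1, g2, h2, h4]

end Pool.Agent.AHH.H54
end
end -- Pool.Agent.Helper54_AHH.Sums

section -- Pool.Agent.Helper54_AHH.Rfin

/-!
# AND2B (MP_1906c1_mp): the field `rfin`
-/

set_option autoImplicit false

open scoped BigOperators NNReal Matrix

noncomputable section

namespace Pool.Agent.AHH.H54

open Pool.Agent.BED (Tor)
open Pool.Agent.AND2B (net kap Viol Prd Ev Fld)
open Pool.Agent.ANP (Cfg Geo Fc)
open Pool.Agent.AND.Num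
open Pool.Agent.AHH.H61
open Pool.Agent.ABY (CmpStmt VexStmt VfrStmt)

/-- at the end of the release phase, fewer running sites: the clock facts of the super-stage `n` -/
theorem fc_sub {X : Type} [Fintype X] [DecidableEq X] {Γ : Geo X} {kk : ℕ → ℕ} {cl : ℕ → ℝ≥0}
    {Dn : ℕ → ℕ} {n k : ℕ} {T : Cfg X} {run run' : Finset X} (hcl : Antitone cl)
    (hk : ∀ m, n = m + 1 → kk m ≤ k) (h : Fc Γ kk cl Dn n k ∅ T run) (hr : run' ⊆ run) :
    Fc Γ kk cl Dn n k ∅ T run' := by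
  have hrun : ∀ x ∈ run, T.s x = cl k := fun x hx => by
    have := h.runs x hx
    rwa [if_neg (Finset.notMem_empty x)] at this
  refine ⟨fun x hx => h.runs x (hr hx), fun x _ => ?_, h.dens, fun m hm x _ hx y hy => ?_⟩
  · by_cases hx : x ∈ run
    · rw [if_neg (Finset.notMem_empty x)]
      refine Or.inr ⟨(hrun x hx).ge, ?_⟩
      rw [hrun x hx]
      exact hcl (Nat.zero_le k)
    · exact h.rest x hx
  · have hxr : x ∉ run := fun h' => by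
      rw [hrun x h'] at hx
      exact absurd (hcl (hk m hm)) (not_le.2 hx)
    exact h.shell m hm x hxr hx y (hr hy)

/-- the step inequalities of the release phases -/
def StpR : Prop :=
  ∀ (d : ℕ) (a c C : ℝ), 3 ≤ d → 0 < a → 0 < c → c ≤ 1 / 2 → 1 ≤ C → ∀ Cr Cw : ℝ, 1 ≤ Cr →
    1 ≤ Cw → Ev d a es c C fun V => ∀ n ≤ V.N,
      Stp (q1r V n) (qq V (n + 1) (V.kk (n + 1))) (V.cl (V.kk (n + 1)))
        (Cr * (1 + Real.log (Cw * (V.cl (V.kk (n + 1)) : ℝ) ^ (-Cw))) * (q1r V n).mis)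

/-- the potentials of the clusters are at most `2` -/
theorem ev_phi (d : ℕ) (a c C : ℝ) :
    Ev d a es c C fun V => ∀ n ≤ V.N, ∀ P x, Phi V.G ((bud V).tau n) n P x ≤ 2 := by
  have h1 : Ev d a es c C fun V => ∀ s : ℝ, 0 < s → s ≤ V.w →
      12 * ((d : ℝ) + 1) * s ^ (-(4 : ℝ)) ≤ s ^ (-(5 : ℝ)) :=
    ev_small (fun _ _ _ _ _ s => 12 * ((d : ℝ) + 1) * s ^ (-(4 : ℝ)) ≤ s ^ (-(5 : ℝ)))
      fun th _ _ _ _ _ _ _ _ => small_pow (12 * ((d : ℝ) + 1)) _ _ (by norm_num)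
  refine (h1.and ev_good).imp fun V hV n hn P x => ?_
  obtain ⟨h1, hG⟩ := hV
  have hP : V.Pre a := hG.toPre
  have hs := sg_pos hP (n + 1)
  have h2 := h1 _ hs (sg_le hP (n + 1))
  refine Phi_le_Gt d V.μ V.J V.N V.l V.r n ((bud V).tau n) (Real.rpow_nonneg hs.le _) ?_ P x
  have h3 : (2 ^ V.r n : ℝ) ≤ V.sg (n + 1) ^ (-(4 : ℝ)) := hP.sc.rup n hn
  have h4 : 12 * ((d : ℝ) + 1) * 2 ^ V.r n ≤ V.sg (n + 1) ^ (-(5 : ℝ)) :=
    (mul_le_mul_of_nonneg_left h3 (by positivity)).trans h2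
  have h5 : (12 * ((d : ℝ) + 1) * 2 ^ V.r n) ^ d ≤ (V.sg (n + 1) ^ (-(5 : ℝ))) ^ d :=
    pow_le_pow_left₀ (by positivity) h4 d
  have h6 : (V.sg (n + 1) ^ (-(5 : ℝ))) ^ d = V.sg (n + 1) ^ (-(5 * (d : ℝ))) := by
    rw [← Real.rpow_natCast, ← Real.rpow_mul hs.le]
    congr 1
    ring
  have h7 : (bud V).tau n = V.sg (n + 1) ^ (5 * (d : ℝ)) := rfl
  rw [h7]
  rw [h6] at h5
  calc V.sg (n + 1) ^ (5 * (d : ℝ)) * (12 * ((d : ℝ) + 1) * 2 ^ V.r n) ^ d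
      ≤ V.sg (n + 1) ^ (5 * (d : ℝ)) * V.sg (n + 1) ^ (-(5 * (d : ℝ))) :=
        mul_le_mul_of_nonneg_left h5 (Real.rpow_nonneg hs.le _)
    _ = 1 := by
        rw [← Real.rpow_add hs]
        simp

/-- THE FIELD `rfin` -/
theorem rfin (hW : WtsStmt) (hSt : StpR) : RfinF := by
  intro d a c C hd ha hc hc2 hC
  have hC0 : 0 < C := by linarith only [hC]
  obtain ⟨Cr, hCr, hreg⟩ := H72.regT (c / 2) (2 * C) (by positivity) (by linarith only [hc2])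
    (by linarith only [hC])
  obtain ⟨Cw, hCw, hwts⟩ := hW d (c / 2) (2 * C) hd (by positivity) (by linarith only [hc2])
    (by linarith only [hC])
  have h2 : Ev d a es c C fun V => ∀ s : ℝ, 0 < s → s ≤ V.w → s ≤ 1 :=
    ev_small (fun _ _ _ _ _ s => s ≤ 1) fun _ _ _ _ _ _ _ _ _ => small_le 1 one_pos
  refine (((((ev_good.and h2).and ((budOk d a c C hc hC).and (ev_phi d a c C))).and
    ((bse_r d a c C hc hc2 hC).and (regH d a c C hc hc2 hC))).and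
    ((hSt d a c C hd ha hc hc2 hC Cr Cw hCr hCw).and (sums d a c C))).and
    (im_G0 d a c C hC)).imp fun V hV => ?_
  obtain ⟨⟨⟨⟨⟨hG, hw1⟩, hB, hphi⟩, hbse, hregh⟩, hstp, hsum⟩, him⟩ := hV
  have hP : V.Pre a := hG.toPre
  have hclA : Antitone V.cl := fun j k hjk => cl_anti V hP.th.2.le hjk
  intro n T₀ run₀ P T run run' hn _ _ hS₀ hF₀ hF hR hsub hF'
  have hS₀' : St (toE V c C) (bud V) n (V.kk (n + 1)) T₀ run₀ := hS₀
  have hR' : Rl (toE V c C) (bud V) n T₀ run₀ P T run := hR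
  -- fewer running sites
  have hFn : Fc V.G V.kk V.cl V.Dn n (V.kk (n + 1)) ∅ T run' :=
    fc_sub hclA (fun m hm => (kk_mono hP (by omega))) hF hsub
  have hR1 : Rl (toE V c C) (bud V) n T₀ run₀ P T run' :=
    H16.rmon_field ABY.H10.cmp ABY.H82.vex ABY.H13.vfr hB n T₀ run₀ P P T run run' le_rfl hsub
      hF hFn hR'
  obtain ⟨i1, i2, i3, i4, _⟩ := hB.icR n
  have hS1 : StN (toE V c C) (q1r V n) ((toE V c C).cl ((toE V c C).kk (n + 1))) T run' :=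
    H28.rfa hB.c0 ⟨hB.D0, hB.D1⟩ ⟨i1, i2, i3, i4⟩ (hB.q n _).2.1 (fun x => hphi n hn P x) hR1
      le_rfl le_rfl le_rfl le_rfl le_rfl le_rfl
  -- the clock
  obtain ⟨s, hs⟩ : ∃ s : ℝ, s = (V.cl (V.kk (n + 1)) : ℝ) := ⟨_, rfl⟩
  have hs0 : 0 < s := by
    rw [hs]
    exact sg_pos hP (n + 1)
  have hs1 : s ≤ 1 := by
    refine hw1 s hs0 ?_
    rw [hs]
    exact sg_le hP (n + 1)
  have hS2 : StN (toE V c C) (q1r V n) s T run' := by
    rw [hs]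
    exact hS1
  have hrs : ∀ x ∈ run', (T.s x : ℝ) = s := fun x hx => by
    have := hF'.runs x hx
    rw [if_neg (Finset.notMem_empty x)] at this
    rw [this, hs]
  have hall : ∀ x, T.s x = 0 ∨ s ≤ T.s x := fun x => by
    by_cases hx : x ∈ run'
    · exact Or.inr (hrs x hx).ge
    · rcases hF'.rest x hx with h | ⟨h, _⟩
      · exact Or.inl h
      · rw [if_neg (Finset.notMem_empty x)] at h
        refine Or.inr ?_
        rw [hs]
        exact_mod_cast h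
  obtain ⟨dd, hdd, hcard⟩ := hF.dens
  have hdd' : ∀ x, T.s x = 0 → ∃ j < n + 1, x ∈ dd j := fun x hx => by
    obtain ⟨j, hj, hxj⟩ := hdd x hx
    exact ⟨j, Nat.lt_succ_of_le hj, hxj⟩
  obtain ⟨s1, s2⟩ := hsum (n + 1) (by omega)
  have hb := hbse n
  have hstp' := hstp n hn
  rw [← hs] at hstp'
  have hrh := hregh (n + 1) (V.kk (n + 1)) (q1r V n) s _ hs0 hb hstp'
  have hwt : Wts (toE V c C) T run' s (1 / 16) (Cw * s ^ (-Cw)) :=
    hwts V (toE V c C) hP.sc.lm rfl hG.e0 rfl rfl T run' s (q1r V n).del (n + 1) dd hs0 hs1 hrs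
      hall hS2.gau (fun x hx => (hS2.mis x hx).trans hrh.mis0.2) hdd' hcard s1
      (s2 s hs0 hs.le)
  have hN1 : 1 ≤ Cw * s ^ (-Cw) := by
    have h3 : 1 ≤ s ^ (-Cw) := Real.one_le_rpow_of_pos_of_le_one_of_nonpos hs0 hs1
      (by linarith only [hCw])
    calc (1 : ℝ) = 1 * 1 := by ring
      _ ≤ Cw * s ^ (-Cw) := mul_le_mul hCw h3 zero_le_one (by linarith only [hCw])
  obtain ⟨m, hm⟩ := hreg d (2 ^ V.μ) (toE V c C) (q1r V n) (qq V (n + 1) (V.kk (n + 1))) s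
    (Cw * s ^ (-Cw)) T run' rfl rfl hN1 hrh hS2 hrs (fun x _ => him x) hwt
  refine ⟨m, ?_⟩
  show St (toE V c C) (bud V) (n + 1) (V.kk (n + 1)) (T.rg m) run'
  refine ⟨?_, ?_, ?_⟩
  · rw [hs] at hm
    exact hm
  · intro m' _ x _ y _
    rcases hall y with h | h
    · exact Or.inl h
    · refine Or.inr ?_
      rw [hs] at h
      exact_mod_cast h
  · exact ⟨dd, hdd', hcard⟩

end Pool.Agent.AHH.H54
end
end -- Pool.Agent.Helper54_AHH.Rfin

section -- Pool.Agent.Helper61_AHH.StpR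

/-!
# AND2B (MP_1906c1_mp): the release step of the budget
-/

set_option autoImplicit false

open scoped BigOperators NNReal

noncomputable section

namespace Pool.Agent.AHH.H61

open Pool.Agent.BED (Tor)
open Pool.Agent.AND2B (Ev Fld)
open Pool.Agent.AND.Num

/-- the logarithmic factor of the change of the gauge -/
theorem small_reg (Cr Cw K p q : ℝ) (hCr : 0 ≤ Cr) (hCw : 1 ≤ Cw) (hK : 0 ≤ K) (h : q < p) :
    Small fun s => Cr * (1 + Real.log (Cw * s ^ (-Cw))) * (K * s ^ p) ≤ s ^ q := by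
  have h1 := small_pow' (Cr * (1 + Real.log Cw) * K) (1 / 2) p q (by norm_num) h
  have h2 := small_pow_log (2 * (Cr * Cw * K)) p q 1 h
  refine (h1.and h2).mono fun s hs h3 => ?_
  obtain ⟨h1, h2⟩ := h3
  have h4 : Real.log (Cw * s ^ (-Cw)) ≤ Real.log Cw + Cw * |Real.log s| := by
    rw [Real.log_mul (by linarith only [hCw]) (Real.rpow_pos_of_pos hs _).ne', Real.log_rpow hs]
    have := neg_le_abs (Real.log s)
    have h5 : -Cw * Real.log s = Cw * (-Real.log s) := by ring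
    rw [h5]
    have := mul_le_mul_of_nonneg_left this (by linarith only [hCw] : (0 : ℝ) ≤ Cw)
    linarith only [this]
  have h6 : 0 < s ^ p := Real.rpow_pos_of_pos hs _
  rw [pow_one] at h2
  calc Cr * (1 + Real.log (Cw * s ^ (-Cw))) * (K * s ^ p)
      ≤ Cr * (1 + (Real.log Cw + Cw * |Real.log s|)) * (K * s ^ p) := by
        have h7 : 0 ≤ K * s ^ p := by positivity
        refine mul_le_mul_of_nonneg_right ?_ h7
        exact mul_le_mul_of_nonneg_left (by linarith only [h4]) hCr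
    _ = Cr * (1 + Real.log Cw) * K * s ^ p + 1 / 2 * (2 * (Cr * Cw * K) * |Real.log s| * s ^ p) := by
        ring
    _ ≤ s ^ q := by linarith only [h1, h2]

/-- the fourth power: `((A)^(1/4) + x s^(-1/4))^4 ≤ A (1 + 45 x s^(-1/16))` for `A ≥ s^(-3/4)/4` -/
theorem four_le {A s x : ℝ} (hs : 0 < s) (hA : 1 / 4 * s ^ (-(3 / 4) : ℝ) ≤ A) (hx : 0 ≤ x)
    (hx1 : 3 * (x * s ^ (-(1 / 16) : ℝ)) ≤ 1) :
    (A ^ (1 / 4 : ℝ) + x * s ^ (-(1 / 4) : ℝ)) ^ 4 ≤ A * (1 + 45 * (x * s ^ (-(1 / 16) : ℝ))) := by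
  have h0 : 0 < s ^ (-(3 / 4) : ℝ) := Real.rpow_pos_of_pos hs _
  have hA0 : 0 < A := by linarith
  have h1 : 0 < A ^ (1 / 4 : ℝ) := Real.rpow_pos_of_pos hA0 _
  -- `s^(-3/16) ≤ 3 A^(1/4)`
  have h2 : s ^ (-(3 / 16) : ℝ) ≤ 3 * A ^ (1 / 4 : ℝ) := by
    have h3 : s ^ (-(3 / 4) : ℝ) ≤ 4 * A := by linarith only [hA]
    have h4 := Real.rpow_le_rpow h0.le h3 (show (0 : ℝ) ≤ 1 / 4 by norm_num)
    rw [← Real.rpow_mul hs.le, Real.mul_rpow (by norm_num) hA0.le] at h4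
    have h5 : (-(3 / 4) : ℝ) * (1 / 4) = -(3 / 16) := by norm_num
    rw [h5] at h4
    have h6 : (4 : ℝ) ^ (1 / 4 : ℝ) ≤ 3 := by
      calc (4 : ℝ) ^ (1 / 4 : ℝ) ≤ (4 : ℝ) ^ (1 / 2 : ℝ) :=
            Real.rpow_le_rpow_of_exponent_le (by norm_num) (by norm_num)
        _ = 2 := by
            rw [← Real.sqrt_eq_rpow, show (4 : ℝ) = 2 ^ 2 by norm_num, Real.sqrt_sq (by norm_num)]
        _ ≤ 3 := by norm_num
    exact h4.trans (mul_le_mul_of_nonneg_right h6 h1.le)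
  have h3 : s ^ (-(1 / 4) : ℝ) = s ^ (-(1 / 16) : ℝ) * s ^ (-(3 / 16) : ℝ) := by
    rw [← Real.rpow_add hs]
    congr 1
    norm_num
  have h4 : 0 < s ^ (-(1 / 16) : ℝ) := Real.rpow_pos_of_pos hs _
  set t : ℝ := 3 * (x * s ^ (-(1 / 16) : ℝ)) with ht
  have ht0 : 0 ≤ t := by positivity
  have h5 : x * s ^ (-(1 / 4) : ℝ) ≤ t * A ^ (1 / 4 : ℝ) := by
    rw [h3, ht]
    have := mul_le_mul_of_nonneg_left h2 (show 0 ≤ x * s ^ (-(1 / 16) : ℝ) by positivity)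
    linarith only [this]
  have h6 : 0 ≤ x * s ^ (-(1 / 4) : ℝ) := mul_nonneg hx (Real.rpow_nonneg hs.le _)
  calc (A ^ (1 / 4 : ℝ) + x * s ^ (-(1 / 4) : ℝ)) ^ 4
      ≤ (A ^ (1 / 4 : ℝ) + t * A ^ (1 / 4 : ℝ)) ^ 4 := by gcongr
    _ = (A ^ (1 / 4 : ℝ)) ^ 4 * (1 + t) ^ 4 := by ring
    _ = A * (1 + t) ^ 4 := by
        rw [← Real.rpow_natCast (A ^ (1 / 4 : ℝ)), ← Real.rpow_mul hA0.le]
        norm_num
    _ ≤ A * (1 + 15 * t) := by
        refine mul_le_mul_of_nonneg_left ?_ hA0.le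
        have h7 : t ^ 2 ≤ t := by nlinarith only [hx1, ht0]
        have h8 : t ^ 3 ≤ t := by
          have : t ^ 3 = t ^ 2 * t := by ring
          nlinarith only [hx1, h7]
        have h9 : t ^ 4 ≤ t := by
          have : t ^ 4 = t ^ 3 * t := by ring
          nlinarith only [pow_nonneg ht0 3, h7, h8]
        nlinarith only [h7, h8, h9]
    _ = _ := by
        rw [ht]
        ring

/-- THE RELEASE STEP -/
theorem stp_r (d : ℕ) (a c C : ℝ) (Cr Cw : ℝ) (hCr : 0 ≤ Cr) (hCw : 1 ≤ Cw) :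
    Ev d a es c C fun V => ∀ n : ℕ, Stp (q1r V n) (qq V (n + 1) (V.kk (n + 1)))
      (V.cl (V.kk (n + 1)) : ℝ)
      (Cr * (1 + Real.log (Cw * (V.cl (V.kk (n + 1)) : ℝ) ^ (-Cw))) * (q1r V n).mis) := by
  -- the small facts about `s = sg (n + 1)`
  have h1 : Ev d a es c C fun V => ∀ s : ℝ, 0 < s → s ≤ V.w →
      (s ≤ 1 ∧ Cr * (1 + Real.log (Cw * s ^ (-Cw))) * (3 * s ^ (1 / 10 : ℝ)) ≤ s ^ (1 / 11 : ℝ)) ∧
      (3 * s ^ (1 / 11 : ℝ) ≤ (1 - (V.th : ℝ) ^ (1 / 20 : ℝ)) * s ^ (1 / 20 : ℝ) ∧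
      3 * s ^ (1 / 100 : ℝ) ≤ (1 - (V.th : ℝ) ^ (1 / 400 : ℝ)) * s ^ (1 / 400 : ℝ)) ∧
      (3 * s ^ (1 / 100 : ℝ) ≤ (1 - (V.th : ℝ) ^ kaf V.α) * s ^ (3 / 2 * kaf V.α) ∧
      3 * s ^ (1 / 100 : ℝ) ≤ (1 - (V.th : ℝ) ^ (kaf V.α / 4)) * s ^ (kaf V.α / 4)) ∧
      (45 * s ^ (1 / 11 - 1 / 16 : ℝ) ≤ s ^ (1 / 200 : ℝ) ∧
      5 * s ^ (1 / 200 : ℝ) ≤ (1 - (V.th : ℝ) ^ (1 / 400 : ℝ)) / 2 * s ^ (1 / 400 : ℝ) ∧
      3 * s ^ (1 / 200 : ℝ) ≤ 1 / 2 * s ^ (0 : ℝ)) := by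
    refine ev_small (fun th _ _ α _ s =>
      (s ≤ 1 ∧ Cr * (1 + Real.log (Cw * s ^ (-Cw))) * (3 * s ^ (1 / 10 : ℝ)) ≤ s ^ (1 / 11 : ℝ)) ∧
      (3 * s ^ (1 / 11 : ℝ) ≤ (1 - (th : ℝ) ^ (1 / 20 : ℝ)) * s ^ (1 / 20 : ℝ) ∧
      3 * s ^ (1 / 100 : ℝ) ≤ (1 - (th : ℝ) ^ (1 / 400 : ℝ)) * s ^ (1 / 400 : ℝ)) ∧
      (3 * s ^ (1 / 100 : ℝ) ≤ (1 - (th : ℝ) ^ kaf α) * s ^ (3 / 2 * kaf α) ∧
      3 * s ^ (1 / 100 : ℝ) ≤ (1 - (th : ℝ) ^ (kaf α / 4)) * s ^ (kaf α / 4)) ∧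
      (45 * s ^ (1 / 11 - 1 / 16 : ℝ) ≤ s ^ (1 / 200 : ℝ) ∧
      5 * s ^ (1 / 200 : ℝ) ≤ (1 - (th : ℝ) ^ (1 / 400 : ℝ)) / 2 * s ^ (1 / 400 : ℝ) ∧
      3 * s ^ (1 / 200 : ℝ) ≤ 1 / 2 * s ^ (0 : ℝ))) ?_
    intro th c₁ C₁ α J _ h3 _ hα
    have hk := kaf_pos α
    have hk2 := kaf_le hα
    have hth : ∀ {p : ℝ}, 0 < p → 0 < 1 - (th : ℝ) ^ p := fun hp => by
      have := Real.rpow_lt_one (NNReal.coe_nonneg th) (by exact_mod_cast h3) hp
      linarith only [this]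
    exact ((small_le 1 one_pos).and (small_reg Cr Cw 3 _ _ hCr hCw (by norm_num)
      (by norm_num))).and (((small_pow' 3 _ _ _ (hth (by norm_num)) (by norm_num)).and
      (small_pow' 3 _ _ _ (hth (by norm_num)) (by norm_num))).and
      (((small_pow' 3 _ _ _ (hth hk) (by linarith only [hk, hk2])).and
      (small_pow' 3 _ _ _ (hth (by linarith only [hk])) (by linarith only [hk, hk2]))).and
      ((small_pow 45 _ _ (by norm_num)).and
      ((small_pow' 5 _ _ _ (half_pos (hth (by norm_num))) (by norm_num)).and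
      (small_pow' 3 _ _ _ (by norm_num) (by norm_num))))))
  refine (h1.and ev_good).imp fun V hV n => ?_
  obtain ⟨h1, hG⟩ := hV
  have hP : V.Pre a := hG.toPre
  set s : ℝ := (V.cl (V.kk (n + 1)) : ℝ) with hs
  have hs0 : 0 < s := cl_pos' hP _
  have hsg : V.sg (n + 1) = s := rfl
  obtain ⟨⟨s1, x1⟩, ⟨g1, g2⟩, ⟨g3, g4⟩, g5, g6, g7⟩ := h1 s hs0 (cl_le' hP _)
  rw [Real.rpow_zero] at g7
  have hσ0 : 0 < V.sg n := sg_pos hP n
  have hth1 : (V.th : ℝ) ≤ 1 := by exact_mod_cast hP.th.2.le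
  have hsσ : s ≤ V.sg n := by
    have h2 := sg_succ hP n
    rw [hsg] at h2
    nlinarith only [hσ0, hth1, h2]
  -- the gains
  have gain : ∀ {p : ℝ}, 0 < p → (1 - (V.th : ℝ) ^ p) * s ^ p ≤ V.sg n ^ p - s ^ p := by
    intro p hp
    have h2 := gr_rel' hP hp n
    rw [hsg] at h2
    have h3 := Real.rpow_le_rpow hs0.le hsσ hp.le
    have h4 := th_rpow_lt hP hp
    nlinarith only [h2, h3, h4]
  have pw : ∀ {p q : ℝ}, q ≤ p → s ^ p ≤ s ^ q := fun h => rpow_anti hs0 s1 h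
  set x : ℝ := Cr * (1 + Real.log (Cw * s ^ (-Cw))) * (q1r V n).mis with hx
  have hmis : (q1r V n).mis ≤ 3 * s ^ (1 / 10 : ℝ) := by
    show s ^ (1 / 8 : ℝ) + 2 * s ^ (1 / 10 : ℝ) ≤ 3 * s ^ (1 / 10 : ℝ)
    have := pw (p := 1 / 8) (q := 1 / 10) (by norm_num)
    linarith only [this]
  have hmis0 : 0 ≤ (q1r V n).mis := by
    show 0 ≤ s ^ (1 / 8 : ℝ) + 2 * s ^ (1 / 10 : ℝ)
    positivity
  have hlog : 0 ≤ 1 + Real.log (Cw * s ^ (-Cw)) := by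
    have h2 : 1 ≤ Cw * s ^ (-Cw) := by
      have h3 : 1 ≤ s ^ (-Cw) := Real.one_le_rpow_of_pos_of_le_one_of_nonpos hs0 s1 (by linarith only [hCw])
      nlinarith only [hCw, h3]
    have := Real.log_nonneg h2
    linarith only [this]
  have hx0 : 0 ≤ x := by positivity
  have hx1 : x ≤ s ^ (1 / 11 : ℝ) := by
    refine le_trans ?_ x1
    exact mul_le_mul_of_nonneg_left hmis (mul_nonneg hCr hlog)
  have hx100 : x ≤ s ^ (1 / 100 : ℝ) := hx1.trans (pw (by norm_num))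
  refine
    { x1 := hx1.trans (Real.rpow_le_one hs0.le s1 (by norm_num))
      del := ?_
      mis := ?_
      lam := ?_
      tht := ?_
      eps := ?_
      rho := ?_ }
  · show gr V (1 / 20) n (V.kk (n + 1)) + 2 * s ^ (1 / 10 : ℝ) + x ≤
      gr V (1 / 20) (n + 1) (V.kk (n + 1))
    rw [gr_rel, hsg]
    have h2 := gain (p := 1 / 20) (by norm_num)
    have h3 := pw (p := 1 / 10) (q := 1 / 11) (by norm_num)
    linarith only [g1, hx1, h2, h3]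
  · show x ^ 2 ≤ s ^ (1 / 8 : ℝ)
    calc x ^ 2 ≤ (s ^ (1 / 11 : ℝ)) ^ 2 := by gcongr
      _ = s ^ (2 / 11 : ℝ) := by
          rw [← Real.rpow_natCast, ← Real.rpow_mul hs0.le]
          norm_num
      _ ≤ s ^ (1 / 8 : ℝ) := pw (by norm_num)
  · set A0 : ℝ := 1 / 4 * s ^ (-(3 / 4) : ℝ) with hA0
    have hA0p : 0 < A0 := by positivity
    have hq : (q1r V n).lam = A0 * (2 - V.sg n ^ (1 / 400 : ℝ)) * (1 + 2 * s ^ (1 / 200 : ℝ)) := rfl
    have hq' : (qq V (n + 1) (V.kk (n + 1))).lam = A0 * (2 - s ^ (1 / 400 : ℝ)) := rfl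
    rw [hq, hq']
    set u : ℝ := V.sg n ^ (1 / 400 : ℝ) with hu
    set v : ℝ := s ^ (1 / 200 : ℝ) with hv
    set y : ℝ := s ^ (1 / 400 : ℝ) with hy
    have hu1 : u ≤ 1 := by
      refine Real.rpow_le_one hσ0.le ?_ (by norm_num)
      have hw1 : (V.w : ℝ) ≤ 1 := (h1 V.w (w_pos hP) le_rfl).1.1
      exact (sg_le hP n).trans hw1
    have hu0 : 0 ≤ u := Real.rpow_nonneg hσ0.le _
    have hv0 : 0 ≤ v := Real.rpow_nonneg hs0.le _
    have hA : A0 ≤ A0 * (2 - u) * (1 + 2 * v) := by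
      have : 1 ≤ (2 - u) * (1 + 2 * v) := by nlinarith only [hu1, hv0]
      nlinarith only [hA0p, this]
    have hxs : x * s ^ (-(1 / 16) : ℝ) ≤ s ^ (1 / 11 - 1 / 16 : ℝ) := by
      have h2 : s ^ (1 / 11 - 1 / 16 : ℝ) = s ^ (1 / 11 : ℝ) * s ^ (-(1 / 16) : ℝ) := by
        rw [← Real.rpow_add hs0]
        congr 1
      rw [h2]
      exact mul_le_mul_of_nonneg_right hx1 (Real.rpow_nonneg hs0.le _)
    have hx45 : 45 * (x * s ^ (-(1 / 16) : ℝ)) ≤ v := by linarith only [g5, hxs]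
    have hv1 : v ≤ 1 / 6 := by linarith only [g7]
    have h3 := four_le hs0 hA hx0 (by
      have : 0 ≤ x * s ^ (-(1 / 16) : ℝ) := mul_nonneg hx0 (Real.rpow_nonneg hs0.le _)
      linarith only [g5, g7, hxs])
    refine h3.trans ?_
    have h4 : A0 * (2 - u) * (1 + 2 * v) * (1 + 45 * (x * s ^ (-(1 / 16) : ℝ))) ≤
        A0 * (2 - u) * (1 + 2 * v) * (1 + v) := by
      have h5 : 0 ≤ A0 * (2 - u) * (1 + 2 * v) := hA0p.le.trans hA
      exact mul_le_mul_of_nonneg_left (by linarith only [g5, hxs]) h5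
    refine h4.trans ?_
    have h5 := gain (p := 1 / 400) (by norm_num)
    have h6 : (2 - u) * (1 + 2 * v) * (1 + v) ≤ 2 - y := by
      have h7 : (1 + 2 * v) * (1 + v) ≤ 1 + 5 * v := by nlinarith only [g7, hv0]
      have h8 : (2 - u) * ((1 + 2 * v) * (1 + v)) ≤ (2 - u) * (1 + 5 * v) :=
        mul_le_mul_of_nonneg_left h7 (by linarith only [hu1])
      have h9 : (2 - u) * (1 + 5 * v) ≤ 2 - u + 10 * v := by nlinarith only [hu0, hv0]
      have h10 : 10 * v ≤ u - y := by linarith only [g6, h5]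
      nlinarith only [g6, h5, h8, h9]
    have h7 : A0 * (2 - u) * (1 + 2 * v) * (1 + v) = A0 * ((2 - u) * (1 + 2 * v) * (1 + v)) := by
      ring
    rw [h7]
    exact mul_le_mul_of_nonneg_left h6 hA0p.le
  · show gr V (1 / 400) n (V.kk (n + 1)) + 2 * s ^ (1 / 100 : ℝ) + x ≤
      gr V (1 / 400) (n + 1) (V.kk (n + 1))
    rw [gr_rel, hsg]
    have h2 := gain (p := 1 / 400) (by norm_num)
    linarith only [g2, hx100, h2]
  · show s ^ (ka V / 2) * (2 - V.sg n ^ ka V) + 2 * s ^ (1 / 100 : ℝ) + x ≤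
      s ^ (ka V / 2) * (2 - V.sg (n + 1) ^ ka V)
    rw [hsg]
    have hka : 0 < ka V := ka_pos
    have h2 := gain hka
    have h3 : 0 < s ^ (ka V / 2) := Real.rpow_pos_of_pos hs0 _
    have h4 := mul_le_mul_of_nonneg_left h2 h3.le
    have h5 : s ^ (3 / 2 * kaf V.α) = s ^ (ka V / 2) * s ^ ka V := by
      rw [← Real.rpow_add hs0, ← ka_eq]
      congr 1
      ring
    rw [h5, ← ka_eq] at g3
    nlinarith only [g3, hx100, h4]
  · show gr V (ka V / 4) n (V.kk (n + 1)) + 2 * s ^ (1 / 100 : ℝ) + x ≤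
      gr V (ka V / 4) (n + 1) (V.kk (n + 1))
    rw [gr_rel, hsg]
    have hka : 0 < ka V := ka_pos
    have h2 := gain (p := ka V / 4) (by linarith only [hka])
    rw [← ka_eq] at g4
    linarith only [g4, hx100, h2]

end Pool.Agent.AHH.H61
end
end -- Pool.Agent.Helper61_AHH.StpR

section -- Pool.Agent.Helper54_AHH.RfinT

/-!
# AND2B (MP_1906c1_mp): the field `rfin` without hypotheses
-/

set_option autoImplicit false

noncomputable section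

namespace Pool.Agent.AHH.H54

/-- THE FIELD `rfin`, no hypotheses -/
theorem rfinT : RfinF :=
  rfin H72.wtsT fun d a c C _ _ hc _ hC Cr Cw hCr hCw =>
    (H61.stp_r d a c C Cr Cw (by linarith only [hCr]) hCw).imp fun V hV n _ => hV n

end Pool.Agent.AHH.H54
end
end -- Pool.Agent.Helper54_AHH.RfinT

section -- Pool.Agent.Helper22_QDU.H54Sums
/-!
# AND2B (MP_1906c1_mp): the sums of the numbers of dead sites (fields `fin` and `rfin`)
-/

set_option autoImplicit false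

open scoped BigOperators NNReal

noncomputable section

namespace Pool.Agent.QDU.H54

open Pool.Agent.AHH hiding BegF FinF FloF IniF KilF MmonF OutF RbegF RfinF RmonF ana0
open Pool.Agent.AHH.H54 hiding sums

open Finset

open Pool.Agent.AND.Num
open Pool.Agent.AHH.H61 hiding budOk ev_be ev_c1 ev_e0 ev_good ev_small ev_small_be ev_th ev_thr nm
open Pool.Agent.QDU.H61

/-- THE TWO SUMS OF `WtsStmt` -/
theorem sums (d : ℕ) (a c C : ℝ) :
    Ev2 d a es c C fun V => ∀ m ≤ V.N + 1,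
      ∑ j ∈ range m, (3 ^ d * V.Dn j : ℝ) / 2 ^ V.l j ≤ 1 / 4 ∧
      ∀ s : ℝ, 0 < s → s ≤ V.sg m →
        2 + 4 * ∑ j ∈ range m, (3 ^ d * V.Dn j : ℝ) ≤ s ^ (-2 : ℝ) := by
  have h1 : Ev2 d a es c C fun V => ∀ s : ℝ, 0 < s → s ≤ V.w →
      (2 * s ^ (0 : ℝ) ≤ 1 / 2 * s ^ (-2 : ℝ) ∧
      4 * (3 ^ d / (1 - (V.th : ℝ))) * s ^ (-(5 / 4) : ℝ) ≤ 1 / 2 * s ^ (-2 : ℝ)) :=
    ev_smallm (fun th _ _ _ _ s => 2 * s ^ (0 : ℝ) ≤ 1 / 2 * s ^ (-2 : ℝ) ∧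
      4 * (3 ^ d / (1 - (th : ℝ))) * s ^ (-(5 / 4) : ℝ) ≤ 1 / 2 * s ^ (-2 : ℝ))
      (fun th b _ _ _ _ s _ h2 h3 h4 h => ⟨h.1, (mul_le_mul_of_nonneg_right
        (mul_le_mul_of_nonneg_left (gapi h2 h3 (by positivity)) (by norm_num))
        (Real.rpow_nonneg h4.le _)).trans h.2⟩)
      fun th _ _ _ _ _ _ _ _ =>
        (small_pow' 2 (1 / 2) _ _ (by norm_num) (by norm_num)).and
          (small_pow' (4 * (3 ^ d / (1 - (th : ℝ)))) (1 / 2) _ _ (by norm_num) (by norm_num))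
  refine (h1.and ev_good).imp fun V hV m hm => ?_
  obtain ⟨h1, hG⟩ := hV
  have hP : V.Pre a := hG.toPre
  refine ⟨?_, fun s hs hsm => ?_⟩
  · refine (sum_le_sum_of_subset_of_nonneg (range_mono (show m ≤ V.N + 2 by omega))
      fun i _ _ => by positivity).trans hP.sc.ds
  · obtain ⟨g1, g2⟩ := h1 s hs (hsm.trans (sg_le hP m))
    rw [Real.rpow_zero] at g1
    have h2 := dsum hP m hm
    have hth1 : (V.th : ℝ) < 1 := by exact_mod_cast hP.th.2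
    have h1th : 0 < 1 - (V.th : ℝ) := by linarith only [hth1]
    have h3 : V.sg m ^ (-(5 / 4) : ℝ) ≤ s ^ (-(5 / 4) : ℝ) :=
      Real.rpow_le_rpow_of_nonpos hs hsm (by norm_num)
    have h4 := mul_le_mul_of_nonneg_left h3
      (show (0 : ℝ) ≤ 3 ^ d / (1 - (V.th : ℝ)) by positivity)
    linarith only [g1, g2, h2, h4]

end Pool.Agent.QDU.H54
end
end -- Pool.Agent.Helper22_QDU.H54Sums

section -- Pool.Agent.Helper22_QDU.H54Rfin
/-!
# AND2B (MP_1906c1_mp): the field `rfin`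
-/

set_option autoImplicit false

open scoped BigOperators NNReal Matrix

noncomputable section

namespace Pool.Agent.QDU.H54

open Pool.Agent.AHH hiding BegF FinF FloF IniF KilF MmonF OutF RbegF RfinF RmonF ana0
open Pool.Agent.AHH.H54 hiding StpR ev_phi rfin sums

open Pool.Agent.BED (Tor)
open Pool.Agent.AND2B (net kap Viol Prd)
open Pool.Agent.ANP (Cfg Geo Fc)
open Pool.Agent.AND.Num
open Pool.Agent.AHH.H61 hiding bse_f bse_r budOk ev_be ev_c1 ev_e0 ev_good ev_small ev_small_be ev_th ev_thr im_G0 nm ratio regH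
open Pool.Agent.QDU.H61

open Pool.Agent.ABY (CmpStmt VexStmt VfrStmt)

/-- the step inequalities of the release phases -/
def StpR : Prop :=
  ∀ (d : ℕ) (a c C : ℝ), 3 ≤ d → 0 < a → 0 < c → c ≤ 1 / 2 → 1 ≤ C → ∀ Cr Cw : ℝ, 1 ≤ Cr →
    1 ≤ Cw → Ev2 d a es c C fun V => ∀ n ≤ V.N,
      Stp (q1r V n) (qq V (n + 1) (V.kk (n + 1))) (V.cl (V.kk (n + 1)))
        (Cr * (1 + Real.log (Cw * (V.cl (V.kk (n + 1)) : ℝ) ^ (-Cw))) * (q1r V n).mis)

/-- the potentials of the clusters are at most `2` -/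
theorem ev_phi (d : ℕ) (a c C : ℝ) :
    Ev2 d a es c C fun V => ∀ n ≤ V.N, ∀ P x, Phi V.G ((bud V).tau n) n P x ≤ 2 := by
  have h1 : Ev2 d a es c C fun V => ∀ s : ℝ, 0 < s → s ≤ V.w →
      12 * ((d : ℝ) + 1) * s ^ (-(4 : ℝ)) ≤ s ^ (-(5 : ℝ)) :=
    ev_small (fun _ _ _ _ s => 12 * ((d : ℝ) + 1) * s ^ (-(4 : ℝ)) ≤ s ^ (-(5 : ℝ)))
      fun th _ _ _ _ _ _ _ _ => small_pow (12 * ((d : ℝ) + 1)) _ _ (by norm_num)
  refine (h1.and ev_good).imp fun V hV n hn P x => ?_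
  obtain ⟨h1, hG⟩ := hV
  have hP : V.Pre a := hG.toPre
  have hs := sg_pos hP (n + 1)
  have h2 := h1 _ hs (sg_le hP (n + 1))
  refine Phi_le_Gt d V.μ V.J V.N V.l V.r n ((bud V).tau n) (Real.rpow_nonneg hs.le _) ?_ P x
  have h3 : (2 ^ V.r n : ℝ) ≤ V.sg (n + 1) ^ (-(4 : ℝ)) := hP.sc.rup n hn
  have h4 : 12 * ((d : ℝ) + 1) * 2 ^ V.r n ≤ V.sg (n + 1) ^ (-(5 : ℝ)) :=
    (mul_le_mul_of_nonneg_left h3 (by positivity)).trans h2
  have h5 : (12 * ((d : ℝ) + 1) * 2 ^ V.r n) ^ d ≤ (V.sg (n + 1) ^ (-(5 : ℝ))) ^ d :=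
    pow_le_pow_left₀ (by positivity) h4 d
  have h6 : (V.sg (n + 1) ^ (-(5 : ℝ))) ^ d = V.sg (n + 1) ^ (-(5 * (d : ℝ))) := by
    rw [← Real.rpow_natCast, ← Real.rpow_mul hs.le]
    congr 1
    ring
  have h7 : (bud V).tau n = V.sg (n + 1) ^ (5 * (d : ℝ)) := rfl
  rw [h7]
  rw [h6] at h5
  calc V.sg (n + 1) ^ (5 * (d : ℝ)) * (12 * ((d : ℝ) + 1) * 2 ^ V.r n) ^ d
      ≤ V.sg (n + 1) ^ (5 * (d : ℝ)) * V.sg (n + 1) ^ (-(5 * (d : ℝ))) :=
        mul_le_mul_of_nonneg_left h5 (Real.rpow_nonneg hs.le _)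
    _ = 1 := by
        rw [← Real.rpow_add hs]
        simp

/-- THE FIELD `rfin` -/
theorem rfin (hW : WtsStmt) (hSt : StpR) : RfinF := by
  intro d a c C hd ha hc hc2 hC
  have hC0 : 0 < C := by linarith only [hC]
  obtain ⟨Cr, hCr, hreg⟩ := H72.regT (c / 2) (2 * C) (by positivity) (by linarith only [hc2])
    (by linarith only [hC])
  obtain ⟨Cw, hCw, hwts⟩ := hW d (c / 2) (2 * C) hd (by positivity) (by linarith only [hc2])
    (by linarith only [hC])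
  have h2 : Ev2 d a es c C fun V => ∀ s : ℝ, 0 < s → s ≤ V.w → s ≤ 1 :=
    ev_small (fun _ _ _ _ s => s ≤ 1) fun _ _ _ _ _ _ _ _ _ => small_le 1 one_pos
  refine (((((ev_good.and h2).and ((budOk d a c C hc hC).and (ev_phi d a c C))).and
    ((bse_r d a c C hc hc2 hC).and (regH d a c C hc hc2 hC))).and
    ((hSt d a c C hd ha hc hc2 hC Cr Cw hCr hCw).and (sums d a c C))).and
    (im_G0 d a c C hC)).imp fun V hV => ?_
  obtain ⟨⟨⟨⟨⟨hG, hw1⟩, hB, hphi⟩, hbse, hregh⟩, hstp, hsum⟩, him⟩ := hV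
  have hP : V.Pre a := hG.toPre
  have hclA : Antitone V.cl := fun j k hjk => cl_anti V hP.th.2.le hjk
  intro n T₀ run₀ P T run run' hn _ _ hS₀ hF₀ hF hR hsub hF'
  have hS₀' : St (toE V c C) (bud V) n (V.kk (n + 1)) T₀ run₀ := hS₀
  have hR' : Rl (toE V c C) (bud V) n T₀ run₀ P T run := hR
  -- fewer running sites
  have hFn : Fc V.G V.kk V.cl V.Dn n (V.kk (n + 1)) ∅ T run' :=
    fc_sub hclA (fun m hm => (kk_mono hP (by omega))) hF hsub
  have hR1 : Rl (toE V c C) (bud V) n T₀ run₀ P T run' :=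
    H16.rmon_field ABY.H10.cmp ABY.H82.vex ABY.H13.vfr hB n T₀ run₀ P P T run run' le_rfl hsub
      hF hFn hR'
  obtain ⟨i1, i2, i3, i4, _⟩ := hB.icR n
  have hS1 : StN (toE V c C) (q1r V n) ((toE V c C).cl ((toE V c C).kk (n + 1))) T run' :=
    H28.rfa hB.c0 ⟨hB.D0, hB.D1⟩ ⟨i1, i2, i3, i4⟩ (hB.q n _).2.1 (fun x => hphi n hn P x) hR1
      le_rfl le_rfl le_rfl le_rfl le_rfl le_rfl
  -- the clock
  obtain ⟨s, hs⟩ : ∃ s : ℝ, s = (V.cl (V.kk (n + 1)) : ℝ) := ⟨_, rfl⟩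
  have hs0 : 0 < s := by
    rw [hs]
    exact sg_pos hP (n + 1)
  have hs1 : s ≤ 1 := by
    refine hw1 s hs0 ?_
    rw [hs]
    exact sg_le hP (n + 1)
  have hS2 : StN (toE V c C) (q1r V n) s T run' := by
    rw [hs]
    exact hS1
  have hrs : ∀ x ∈ run', (T.s x : ℝ) = s := fun x hx => by
    have := hF'.runs x hx
    rw [if_neg (Finset.notMem_empty x)] at this
    rw [this, hs]
  have hall : ∀ x, T.s x = 0 ∨ s ≤ T.s x := fun x => by
    by_cases hx : x ∈ run'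
    · exact Or.inr (hrs x hx).ge
    · rcases hF'.rest x hx with h | ⟨h, _⟩
      · exact Or.inl h
      · rw [if_neg (Finset.notMem_empty x)] at h
        refine Or.inr ?_
        rw [hs]
        exact_mod_cast h
  obtain ⟨dd, hdd, hcard⟩ := hF.dens
  have hdd' : ∀ x, T.s x = 0 → ∃ j < n + 1, x ∈ dd j := fun x hx => by
    obtain ⟨j, hj, hxj⟩ := hdd x hx
    exact ⟨j, Nat.lt_succ_of_le hj, hxj⟩
  obtain ⟨s1, s2⟩ := hsum (n + 1) (by omega)
  have hb := hbse n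
  have hstp' := hstp n hn
  rw [← hs] at hstp'
  have hrh := hregh (n + 1) (V.kk (n + 1)) (q1r V n) s _ hs0 hb hstp'
  have hwt : Wts (toE V c C) T run' s (1 / 16) (Cw * s ^ (-Cw)) :=
    hwts V (toE V c C) hP.sc.lm rfl hG.e0 rfl rfl T run' s (q1r V n).del (n + 1) dd hs0 hs1 hrs
      hall hS2.gau (fun x hx => (hS2.mis x hx).trans hrh.mis0.2) hdd' hcard s1
      (s2 s hs0 hs.le)
  have hN1 : 1 ≤ Cw * s ^ (-Cw) := by
    have h3 : 1 ≤ s ^ (-Cw) := Real.one_le_rpow_of_pos_of_le_one_of_nonpos hs0 hs1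
      (by linarith only [hCw])
    calc (1 : ℝ) = 1 * 1 := by ring
      _ ≤ Cw * s ^ (-Cw) := mul_le_mul hCw h3 zero_le_one (by linarith only [hCw])
  obtain ⟨m, hm⟩ := hreg d (2 ^ V.μ) (toE V c C) (q1r V n) (qq V (n + 1) (V.kk (n + 1))) s
    (Cw * s ^ (-Cw)) T run' rfl rfl hN1 hrh hS2 hrs (fun x _ => him x) hwt
  refine ⟨m, ?_⟩
  show St (toE V c C) (bud V) (n + 1) (V.kk (n + 1)) (T.rg m) run'
  refine ⟨?_, ?_, ?_⟩
  · rw [hs] at hm
    exact hm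
  · intro m' _ x _ y _
    rcases hall y with h | h
    · exact Or.inl h
    · refine Or.inr ?_
      rw [hs] at h
      exact_mod_cast h
  · exact ⟨dd, hdd', hcard⟩

end Pool.Agent.QDU.H54
end
end -- Pool.Agent.Helper22_QDU.H54Rfin

section -- Pool.Agent.Helper22_QDU.H61StpR
/-!
# AND2B (MP_1906c1_mp): the release step of the budget
-/

set_option autoImplicit false

open scoped BigOperators NNReal

noncomputable section

namespace Pool.Agent.QDU.H61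

open Pool.Agent.AHH hiding BegF FinF FloF IniF KilF MmonF OutF RbegF RfinF RmonF ana0
open Pool.Agent.AHH.H61 hiding bse_f bse_r budOk ev_be ev_c1 ev_e0 ev_good ev_small ev_small_be ev_th ev_thr im_G0 nm ratio regH stp_r

open Pool.Agent.BED (Tor)

open Pool.Agent.AND.Num

/-- THE RELEASE STEP -/
theorem stp_r (d : ℕ) (a c C : ℝ) (Cr Cw : ℝ) (hCr : 0 ≤ Cr) (hCw : 1 ≤ Cw) :
    Ev2 d a es c C fun V => ∀ n : ℕ, Stp (q1r V n) (qq V (n + 1) (V.kk (n + 1)))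
      (V.cl (V.kk (n + 1)) : ℝ)
      (Cr * (1 + Real.log (Cw * (V.cl (V.kk (n + 1)) : ℝ) ^ (-Cw))) * (q1r V n).mis) := by
  -- the small facts about `s = sg (n + 1)`
  have h1 : Ev2 d a es c C fun V => ∀ s : ℝ, 0 < s → s ≤ V.w →
      (s ≤ 1 ∧ Cr * (1 + Real.log (Cw * s ^ (-Cw))) * (3 * s ^ (1 / 10 : ℝ)) ≤ s ^ (1 / 11 : ℝ)) ∧
      (3 * s ^ (1 / 11 : ℝ) ≤ (1 - (V.th : ℝ) ^ (1 / 20 : ℝ)) * s ^ (1 / 20 : ℝ) ∧
      3 * s ^ (1 / 100 : ℝ) ≤ (1 - (V.th : ℝ) ^ (1 / 400 : ℝ)) * s ^ (1 / 400 : ℝ)) ∧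
      (3 * s ^ (1 / 100 : ℝ) ≤ (1 - (V.th : ℝ) ^ kaf V.α) * s ^ (3 / 2 * kaf V.α) ∧
      3 * s ^ (1 / 100 : ℝ) ≤ (1 - (V.th : ℝ) ^ (kaf V.α / 4)) * s ^ (kaf V.α / 4)) ∧
      (45 * s ^ (1 / 11 - 1 / 16 : ℝ) ≤ s ^ (1 / 200 : ℝ) ∧
      5 * s ^ (1 / 200 : ℝ) ≤ (1 - (V.th : ℝ) ^ (1 / 400 : ℝ)) / 2 * s ^ (1 / 400 : ℝ) ∧
      3 * s ^ (1 / 200 : ℝ) ≤ 1 / 2 * s ^ (0 : ℝ)) := by
    refine ev_smallm (fun th _ _ α _ s =>
      (s ≤ 1 ∧ Cr * (1 + Real.log (Cw * s ^ (-Cw))) * (3 * s ^ (1 / 10 : ℝ)) ≤ s ^ (1 / 11 : ℝ)) ∧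
      (3 * s ^ (1 / 11 : ℝ) ≤ (1 - (th : ℝ) ^ (1 / 20 : ℝ)) * s ^ (1 / 20 : ℝ) ∧
      3 * s ^ (1 / 100 : ℝ) ≤ (1 - (th : ℝ) ^ (1 / 400 : ℝ)) * s ^ (1 / 400 : ℝ)) ∧
      (3 * s ^ (1 / 100 : ℝ) ≤ (1 - (th : ℝ) ^ kaf α) * s ^ (3 / 2 * kaf α) ∧
      3 * s ^ (1 / 100 : ℝ) ≤ (1 - (th : ℝ) ^ (kaf α / 4)) * s ^ (kaf α / 4)) ∧
      (45 * s ^ (1 / 11 - 1 / 16 : ℝ) ≤ s ^ (1 / 200 : ℝ) ∧
      5 * s ^ (1 / 200 : ℝ) ≤ (1 - (th : ℝ) ^ (1 / 400 : ℝ)) / 2 * s ^ (1 / 400 : ℝ) ∧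
      3 * s ^ (1 / 200 : ℝ) ≤ 1 / 2 * s ^ (0 : ℝ))) ?_ ?_
    · rintro th b _ _ α _ s _ h2 _ h4 ⟨⟨x1, x2⟩, ⟨x3, x4⟩, ⟨x5, x6⟩, x7, x8, x9⟩
      have hk := kaf_pos α
      have hp : ∀ {p : ℝ}, 0 ≤ s ^ p := Real.rpow_nonneg h4.le _
      refine ⟨⟨x1, x2⟩, ⟨gap_le h2 (by norm_num) hp x3, gap_le h2 (by norm_num) hp x4⟩,
        ⟨gap_le h2 hk.le hp x5, gap_le h2 (by linarith only [hk]) hp x6⟩, x7, ?_, x9⟩
      refine x8.trans (mul_le_mul_of_nonneg_right ?_ hp)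
      have := gapm h2 (p := 1 / 400) (by norm_num)
      linarith only [this]
    intro th c₁ C₁ α J _ h3 _ hα
    have hk := kaf_pos α
    have hk2 := kaf_le hα
    have hth : ∀ {p : ℝ}, 0 < p → 0 < 1 - (th : ℝ) ^ p := fun hp => by
      have := Real.rpow_lt_one (NNReal.coe_nonneg th) (by exact_mod_cast h3) hp
      linarith only [this]
    exact ((small_le 1 one_pos).and (small_reg Cr Cw 3 _ _ hCr hCw (by norm_num)
      (by norm_num))).and (((small_pow' 3 _ _ _ (hth (by norm_num)) (by norm_num)).and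
      (small_pow' 3 _ _ _ (hth (by norm_num)) (by norm_num))).and
      (((small_pow' 3 _ _ _ (hth hk) (by linarith only [hk, hk2])).and
      (small_pow' 3 _ _ _ (hth (by linarith only [hk])) (by linarith only [hk, hk2]))).and
      ((small_pow 45 _ _ (by norm_num)).and
      ((small_pow' 5 _ _ _ (half_pos (hth (by norm_num))) (by norm_num)).and
      (small_pow' 3 _ _ _ (by norm_num) (by norm_num))))))
  refine (h1.and ev_good).imp fun V hV n => ?_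
  obtain ⟨h1, hG⟩ := hV
  have hP : V.Pre a := hG.toPre
  set s : ℝ := (V.cl (V.kk (n + 1)) : ℝ) with hs
  have hs0 : 0 < s := cl_pos' hP _
  have hsg : V.sg (n + 1) = s := rfl
  obtain ⟨⟨s1, x1⟩, ⟨g1, g2⟩, ⟨g3, g4⟩, g5, g6, g7⟩ := h1 s hs0 (cl_le' hP _)
  rw [Real.rpow_zero] at g7
  have hσ0 : 0 < V.sg n := sg_pos hP n
  have hth1 : (V.th : ℝ) ≤ 1 := by exact_mod_cast hP.th.2.le
  have hsσ : s ≤ V.sg n := by
    have h2 := sg_succ hP n
    rw [hsg] at h2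
    nlinarith only [hσ0, hth1, h2]
  -- the gains
  have gain : ∀ {p : ℝ}, 0 < p → (1 - (V.th : ℝ) ^ p) * s ^ p ≤ V.sg n ^ p - s ^ p := by
    intro p hp
    have h2 := gr_rel' hP hp n
    rw [hsg] at h2
    have h3 := Real.rpow_le_rpow hs0.le hsσ hp.le
    have h4 := th_rpow_lt hP hp
    nlinarith only [h2, h3, h4]
  have pw : ∀ {p q : ℝ}, q ≤ p → s ^ p ≤ s ^ q := fun h => rpow_anti hs0 s1 h
  set x : ℝ := Cr * (1 + Real.log (Cw * s ^ (-Cw))) * (q1r V n).mis with hx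
  have hmis : (q1r V n).mis ≤ 3 * s ^ (1 / 10 : ℝ) := by
    show s ^ (1 / 8 : ℝ) + 2 * s ^ (1 / 10 : ℝ) ≤ 3 * s ^ (1 / 10 : ℝ)
    have := pw (p := 1 / 8) (q := 1 / 10) (by norm_num)
    linarith only [this]
  have hmis0 : 0 ≤ (q1r V n).mis := by
    show 0 ≤ s ^ (1 / 8 : ℝ) + 2 * s ^ (1 / 10 : ℝ)
    positivity
  have hlog : 0 ≤ 1 + Real.log (Cw * s ^ (-Cw)) := by
    have h2 : 1 ≤ Cw * s ^ (-Cw) := by
      have h3 : 1 ≤ s ^ (-Cw) := Real.one_le_rpow_of_pos_of_le_one_of_nonpos hs0 s1 (by linarith only [hCw])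
      nlinarith only [hCw, h3]
    have := Real.log_nonneg h2
    linarith only [this]
  have hx0 : 0 ≤ x := by positivity
  have hx1 : x ≤ s ^ (1 / 11 : ℝ) := by
    refine le_trans ?_ x1
    exact mul_le_mul_of_nonneg_left hmis (mul_nonneg hCr hlog)
  have hx100 : x ≤ s ^ (1 / 100 : ℝ) := hx1.trans (pw (by norm_num))
  refine
    { x1 := hx1.trans (Real.rpow_le_one hs0.le s1 (by norm_num))
      del := ?_
      mis := ?_
      lam := ?_
      tht := ?_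
      eps := ?_
      rho := ?_ }
  · show gr V (1 / 20) n (V.kk (n + 1)) + 2 * s ^ (1 / 10 : ℝ) + x ≤
      gr V (1 / 20) (n + 1) (V.kk (n + 1))
    rw [gr_rel, hsg]
    have h2 := gain (p := 1 / 20) (by norm_num)
    have h3 := pw (p := 1 / 10) (q := 1 / 11) (by norm_num)
    linarith only [g1, hx1, h2, h3]
  · show x ^ 2 ≤ s ^ (1 / 8 : ℝ)
    calc x ^ 2 ≤ (s ^ (1 / 11 : ℝ)) ^ 2 := by gcongr
      _ = s ^ (2 / 11 : ℝ) := by
          rw [← Real.rpow_natCast, ← Real.rpow_mul hs0.le]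
          norm_num
      _ ≤ s ^ (1 / 8 : ℝ) := pw (by norm_num)
  · set A0 : ℝ := 1 / 4 * s ^ (-(3 / 4) : ℝ) with hA0
    have hA0p : 0 < A0 := by positivity
    have hq : (q1r V n).lam = A0 * (2 - V.sg n ^ (1 / 400 : ℝ)) * (1 + 2 * s ^ (1 / 200 : ℝ)) := rfl
    have hq' : (qq V (n + 1) (V.kk (n + 1))).lam = A0 * (2 - s ^ (1 / 400 : ℝ)) := rfl
    rw [hq, hq']
    set u : ℝ := V.sg n ^ (1 / 400 : ℝ) with hu
    set v : ℝ := s ^ (1 / 200 : ℝ) with hv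
    set y : ℝ := s ^ (1 / 400 : ℝ) with hy
    have hu1 : u ≤ 1 := by
      refine Real.rpow_le_one hσ0.le ?_ (by norm_num)
      have hw1 : (V.w : ℝ) ≤ 1 := (h1 V.w (w_pos hP) le_rfl).1.1
      exact (sg_le hP n).trans hw1
    have hu0 : 0 ≤ u := Real.rpow_nonneg hσ0.le _
    have hv0 : 0 ≤ v := Real.rpow_nonneg hs0.le _
    have hA : A0 ≤ A0 * (2 - u) * (1 + 2 * v) := by
      have : 1 ≤ (2 - u) * (1 + 2 * v) := by nlinarith only [hu1, hv0]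
      nlinarith only [hA0p, this]
    have hxs : x * s ^ (-(1 / 16) : ℝ) ≤ s ^ (1 / 11 - 1 / 16 : ℝ) := by
      have h2 : s ^ (1 / 11 - 1 / 16 : ℝ) = s ^ (1 / 11 : ℝ) * s ^ (-(1 / 16) : ℝ) := by
        rw [← Real.rpow_add hs0]
        congr 1
      rw [h2]
      exact mul_le_mul_of_nonneg_right hx1 (Real.rpow_nonneg hs0.le _)
    have hx45 : 45 * (x * s ^ (-(1 / 16) : ℝ)) ≤ v := by linarith only [g5, hxs]
    have hv1 : v ≤ 1 / 6 := by linarith only [g7]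
    have h3 := four_le hs0 hA hx0 (by
      have : 0 ≤ x * s ^ (-(1 / 16) : ℝ) := mul_nonneg hx0 (Real.rpow_nonneg hs0.le _)
      linarith only [g5, g7, hxs])
    refine h3.trans ?_
    have h4 : A0 * (2 - u) * (1 + 2 * v) * (1 + 45 * (x * s ^ (-(1 / 16) : ℝ))) ≤
        A0 * (2 - u) * (1 + 2 * v) * (1 + v) := by
      have h5 : 0 ≤ A0 * (2 - u) * (1 + 2 * v) := hA0p.le.trans hA
      exact mul_le_mul_of_nonneg_left (by linarith only [g5, hxs]) h5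
    refine h4.trans ?_
    have h5 := gain (p := 1 / 400) (by norm_num)
    have h6 : (2 - u) * (1 + 2 * v) * (1 + v) ≤ 2 - y := by
      have h7 : (1 + 2 * v) * (1 + v) ≤ 1 + 5 * v := by nlinarith only [g7, hv0]
      have h8 : (2 - u) * ((1 + 2 * v) * (1 + v)) ≤ (2 - u) * (1 + 5 * v) :=
        mul_le_mul_of_nonneg_left h7 (by linarith only [hu1])
      have h9 : (2 - u) * (1 + 5 * v) ≤ 2 - u + 10 * v := by nlinarith only [hu0, hv0]
      have h10 : 10 * v ≤ u - y := by linarith only [g6, h5]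
      nlinarith only [g6, h5, h8, h9]
    have h7 : A0 * (2 - u) * (1 + 2 * v) * (1 + v) = A0 * ((2 - u) * (1 + 2 * v) * (1 + v)) := by
      ring
    rw [h7]
    exact mul_le_mul_of_nonneg_left h6 hA0p.le
  · show gr V (1 / 400) n (V.kk (n + 1)) + 2 * s ^ (1 / 100 : ℝ) + x ≤
      gr V (1 / 400) (n + 1) (V.kk (n + 1))
    rw [gr_rel, hsg]
    have h2 := gain (p := 1 / 400) (by norm_num)
    linarith only [g2, hx100, h2]
  · show s ^ (ka V / 2) * (2 - V.sg n ^ ka V) + 2 * s ^ (1 / 100 : ℝ) + x ≤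
      s ^ (ka V / 2) * (2 - V.sg (n + 1) ^ ka V)
    rw [hsg]
    have hka : 0 < ka V := ka_pos
    have h2 := gain hka
    have h3 : 0 < s ^ (ka V / 2) := Real.rpow_pos_of_pos hs0 _
    have h4 := mul_le_mul_of_nonneg_left h2 h3.le
    have h5 : s ^ (3 / 2 * kaf V.α) = s ^ (ka V / 2) * s ^ ka V := by
      rw [← Real.rpow_add hs0, ← ka_eq]
      congr 1
      ring
    rw [h5, ← ka_eq] at g3
    nlinarith only [g3, hx100, h4]
  · show gr V (ka V / 4) n (V.kk (n + 1)) + 2 * s ^ (1 / 100 : ℝ) + x ≤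
      gr V (ka V / 4) (n + 1) (V.kk (n + 1))
    rw [gr_rel, hsg]
    have hka : 0 < ka V := ka_pos
    have h2 := gain (p := ka V / 4) (by linarith only [hka])
    rw [← ka_eq] at g4
    linarith only [g4, hx100, h2]

end Pool.Agent.QDU.H61
end
end -- Pool.Agent.Helper22_QDU.H61StpR

section -- Pool.Agent.Helper22_QDU.H54RfinT
/-!
# AND2B (MP_1906c1_mp): the field `rfin` without hypotheses
-/

set_option autoImplicit false

noncomputable section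

namespace Pool.Agent.QDU.H54

open Pool.Agent.AHH hiding BegF FinF FloF IniF KilF MmonF OutF RbegF RfinF RmonF ana0
open Pool.Agent.AHH.H54 hiding StpR ev_phi rfin rfinT sums

/-- THE FIELD `rfin`, no hypotheses -/
theorem rfinT : RfinF :=
  rfin H72.wtsT fun d a c C _ _ hc _ hC Cr Cw hCr hCw =>
    (H61.stp_r d a c C Cr Cw (by linarith only [hCr]) hCw).imp fun V hV n _ => hV n

end Pool.Agent.QDU.H54
end
end -- Pool.Agent.Helper22_QDU.H54RfinT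

section -- Pool.Agent.Helper34_QDA.PhsN

/-!
# QDA, row PHS: the numbers
-/

set_option autoImplicit false

open Filter

open scoped NNReal

noncomputable section

namespace Pool.Agent.QDA.H34P

open Pool.Agent.AND.Num

/-- the numbers which depend on `w` only -/
structure Sm (a c C K δ κ w : ℝ) : Prop where
  n1 : 3 * w ^ (1 / 20 : ℝ) ≤ δ / 2
  n2 : w ^ (1 / 8 : ℝ) ≤ δ
  n3 : 2 * w ^ (κ / 2) ≤ δ
  n4 : 3 * w ^ (κ / 4) ≤ 1 / 2
  n5 : w ≤ c ^ 4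
  n6 : w ≤ 1 / C
  n7 : w ≤ a / 4
  n8 : w ≤ c / (12 * K)
  n9 : w ^ (1 / 5000 : ℝ) ≤ c ^ 2 / 64
  n10 : w ≤ c ^ 2 / (64 * K)
  n11 : w ≤ 1 / 64

theorem sm {a c C K δ κ : ℝ} (ha : 0 < a) (hc : 0 < c) (hC : 0 < C) (hK : 0 < K) (hδ : 0 < δ)
    (hκ : 0 < κ) : Small (Sm a c C K δ κ) := by
  have h1 := small_rpow_le (δ / 6) (1 / 20) (by positivity) (by norm_num)
  have h2 := small_rpow_le δ (1 / 8) hδ (by norm_num)
  have h3 := small_rpow_le (δ / 2) (κ / 2) (by positivity) (by positivity)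
  have h4 := small_rpow_le (1 / 6) (κ / 4) (by positivity) (by positivity)
  have h5 := small_le (c ^ 4) (by positivity)
  have h6 := small_le (1 / C) (by positivity)
  have h7 := small_le (a / 4) (by positivity)
  have h8 := small_le (c / (12 * K)) (by positivity)
  have h9 := small_rpow_le (c ^ 2 / 64) (1 / 5000) (by positivity) (by norm_num)
  have h10 := small_le (c ^ 2 / (64 * K)) (by positivity)
  have h11 := small_le (1 / 64) (by norm_num)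
  refine (((((((((((h1.and h2).and h3).and h4).and h5).and h6).and h7).and h8).and h9).and
    h10).and h11)).mono fun w _ h => ?_
  obtain ⟨⟨⟨⟨⟨⟨⟨⟨⟨⟨h1, h2⟩, h3⟩, h4⟩, h5⟩, h6⟩, h7⟩, h8⟩, h9⟩, h10⟩, h11⟩ := h
  exact ⟨by linarith only [h1], h2, by linarith only [h3], by linarith only [h4], h5, h6, h7, h8, h9, h10, h11⟩

/-- the choice of the dyadic radius -/
theorem dya (r : ℕ) : ∃ j : ℕ, r ≤ 2 ^ j ∧ (2 : ℝ) ^ j ≤ 2 * (r + 1) := by
  obtain ⟨n, h1, h2⟩ := exists_nat_pow_near (x := r + 1) (y := 2) (by omega) (by norm_num)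
  refine ⟨n + 1, by omega, ?_⟩
  have h3 : (2 : ℝ) ^ n ≤ (r : ℝ) + 1 := by exact_mod_cast h1
  rw [pow_succ]
  linarith only [h3]

/-- the choice of the stage -/
theorem stg {th x : ℝ} (h0 : 0 < th) (h1 : th < 1) (hx : 0 < x) (hx1 : x ≤ 1) :
    ∃ n : ℕ, th * th ^ n < x ∧ x ≤ th ^ n := by
  obtain ⟨n, h2, h3⟩ := exists_nat_pow_near_of_lt_one hx hx1 h0 h1
  exact ⟨n, by rw [pow_succ] at h2; linarith, h3⟩

/-- the facts about the last clock `f` -/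
structure Fk (a c C K P w f η m r R : ℝ) : Prop where
  f1 : f ≤ w ^ (P + 5)
  f2 : f ≤ w ^ 5
  f3 : f ≤ w
  f4 : f * C ≤ w ^ 2
  f5 : (f * m) ^ (-4 : ℝ) ≤ f ^ (-5 : ℝ)
  f6 : (w ^ 4)⁻¹ ≤ f ^ (-5 : ℝ)
  f7 : 2 * K * (2 * (r + 1)) ≤ f ^ (-5 : ℝ)
  f8 : K * f * (2 * (r + 1)) ^ 2 ≤ c * w ^ (8 * AHH.es - 1) / 2
  f9 : K * (8 * C ^ 3 / w) ≤ f * R ^ 2
  f10 : f ≤ 1

theorem fk {a c C K δ κ P w f η m r R : ℝ} (hs : Sm a c C K δ κ w) (hc : 0 < c) (hc' : c ≤ 1 / 2)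
    (hC : 1 ≤ C) (hK : 1 ≤ K) (hw : 0 < w) (hw1 : w ≤ 1) (hP : 0 ≤ P) (hf : 0 < f) (hη : 0 < η)
    (hηP : η ≤ w ^ (P + 6)) (hfη : f * m ≤ 2 * η) (hηf : η ≤ f * m) (hm : c ≤ m) (hmC : m ≤ C)
    (hr : 0 ≤ r) (hr1 : 8 * K * C ^ 4 * η * r ^ 2 ≤ w ^ (1 / 1000 - 1 : ℝ))
    (hR : 8 * K * C ^ 4 ≤ w * η * R ^ 2) : Fk a c C K P w f η m r R := by
  have hC0 : 0 < C := by linarith only [hc, hc', hC]
  have hK0 : 0 < K := by linarith only [hc, hc', hK]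
  have hm0 : 0 < m := by linarith only [hc, hm]
  have g1 : f * c ≤ 2 * η := (mul_le_mul_of_nonneg_left hm hf.le).trans hfη
  have g2 : w ≤ c / 8 := by
    have h1 := hs.n5
    have h2 : c ^ 4 ≤ c * (1 / 2) ^ 3 := by
      calc c ^ 4 = c * c ^ 3 := by ring
        _ ≤ c * (1 / 2) ^ 3 := by gcongr
    linarith only [h1, h2]
  have f1 : f ≤ w ^ (P + 5) := by
    have h1 : w ^ (P + 6) = w ^ (P + 5) * w := by
      rw [← Real.rpow_add_one hw.ne']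
      congr 1
      ring
    have h2 : 0 < w ^ (P + 5) := Real.rpow_pos_of_pos hw _
    have h3 : f * c ≤ w ^ (P + 5) * c := by
      calc f * c ≤ 2 * (w ^ (P + 5) * w) := by rw [← h1]; linarith only [hηP, g1]
        _ ≤ 2 * (w ^ (P + 5) * (c / 8)) := by gcongr
        _ ≤ w ^ (P + 5) * c := by nlinarith only [hc, h2]
    exact le_of_mul_le_mul_right h3 hc
  have f2 : f ≤ w ^ 5 := by
    refine f1.trans ?_
    rw [← Real.rpow_natCast]
    exact Real.rpow_le_rpow_of_exponent_ge hw hw1 (by push_cast; linarith only [hP])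
  have f3 : f ≤ w := f2.trans (pow_le_of_le_one hw.le hw1 (by norm_num))
  have f10 : f ≤ 1 := f3.trans hw1
  have hwC : w * C ≤ 1 := by
    have := hs.n6
    rwa [le_div_iff₀ hC0] at this
  have f4 : f * C ≤ w ^ 2 := by
    calc f * C ≤ w ^ 5 * C := by gcongr
      _ = w ^ 4 * (w * C) := by ring
      _ ≤ w ^ 4 * 1 := by gcongr
      _ ≤ w ^ 2 := by
          rw [mul_one]
          exact pow_le_pow_of_le_one hw.le hw1 (by norm_num)
  have e5 : f ^ (-5 : ℝ) = (f ^ 5)⁻¹ := by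
    rw [Real.rpow_neg hf.le]
    norm_cast
  have f5 : (f * m) ^ (-4 : ℝ) ≤ f ^ (-5 : ℝ) := by
    have h1 : (f * m) ^ (-4 : ℝ) = ((f * m) ^ 4)⁻¹ := by
      rw [Real.rpow_neg (by positivity)]
      norm_cast
    rw [h1, e5]
    refine inv_anti₀ (by positivity) ?_
    calc f ^ 5 = f ^ 4 * f := by ring
      _ ≤ f ^ 4 * c ^ 4 := by
          have := f3.trans hs.n5
          gcongr
      _ ≤ f ^ 4 * m ^ 4 := by gcongr
      _ = (f * m) ^ 4 := by ring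
  have f6 : (w ^ 4)⁻¹ ≤ f ^ (-5 : ℝ) := by
    rw [e5]
    refine inv_anti₀ (by positivity) ?_
    calc f ^ 5 ≤ w ^ 5 := by gcongr
      _ ≤ w ^ 4 := pow_le_pow_of_le_one hw.le hw1 (by norm_num)
  have hw12 : w * (12 * K) ≤ c := by
    have := hs.n8
    rwa [le_div_iff₀ (by positivity)] at this
  have h8K : 1 ≤ 8 * K * C ^ 4 := by
    have h1 : 1 ≤ C ^ 4 := one_le_pow₀ hC
    nlinarith only [hc, hc', hK, h1]
  -- the radius
  have g3 : η * r ^ 2 ≤ w ^ (1 / 1000 - 1 : ℝ) := by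
    refine le_trans ?_ hr1
    have h1 : 0 ≤ η * r ^ 2 := by positivity
    nlinarith only [hc', hw, g2, h8K, h1]
  have g4 : w ^ (1 / 1000 - 1 : ℝ) ≤ w⁻¹ := by
    rw [← Real.rpow_neg_one]
    exact Real.rpow_le_rpow_of_exponent_ge hw hw1 (by norm_num)
  have g5 : (f * r) ^ 2 ≤ (2 / c) ^ 2 := by
    have h1 : f * c * r ^ 2 ≤ 2 * w⁻¹ := by
      calc f * c * r ^ 2 ≤ 2 * η * r ^ 2 := by gcongr
        _ = 2 * (η * r ^ 2) := by ring
        _ ≤ 2 * w⁻¹ := by linarith only [g3, g4]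
    have h2 : f * r ^ 2 ≤ 2 / c * w⁻¹ := by
      rw [div_mul_eq_mul_div, le_div_iff₀ hc]
      linarith only [h1]
    have h3 : f * w⁻¹ ≤ 1 := by
      rw [← div_eq_mul_inv, div_le_one hw]
      exact f3
    have h4 : (1 : ℝ) ≤ 2 / c := by
      rw [le_div_iff₀ hc]
      linarith only [hc', hw, g2]
    calc (f * r) ^ 2 = f * (f * r ^ 2) := by ring
      _ ≤ f * (2 / c * w⁻¹) := by gcongr
      _ = 2 / c * (f * w⁻¹) := by ring
      _ ≤ 2 / c * 1 := by gcongr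
      _ ≤ (2 / c) ^ 2 := by nlinarith only [h4]
  have g6 : f * r ≤ 2 / c := by
    have h1 : 0 ≤ 2 / c := by positivity
    exact le_of_sq_le_sq g5 h1
  have f7 : 2 * K * (2 * (r + 1)) ≤ f ^ (-5 : ℝ) := by
    rw [e5, ← one_div, le_div_iff₀ (by positivity)]
    have h1 : f * (r + 1) ≤ 3 / c := by
      have h2 : (1 : ℝ) ≤ 1 / c := by
        rw [le_div_iff₀ hc]
        linarith only [hc', hw, g2]
      have h3 : 3 / c = 2 / c + 1 / c := by ring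
      rw [h3]
      nlinarith only [hc', hw, g2, f3, g6, h2]
    have h2 : f ^ 4 ≤ w := (pow_le_of_le_one hf.le f10 (by norm_num)).trans f3
    have h3 : f * (r + 1) * c ≤ 3 := by
      rwa [le_div_iff₀ hc] at h1
    calc 2 * K * (2 * (r + 1)) * f ^ 5 = 4 * K * (f * (r + 1)) * f ^ 4 := by ring
      _ ≤ 4 * K * (3 / c) * w := by gcongr
      _ = w * (12 * K) / c := by ring
      _ ≤ 1 := by rwa [div_le_one hc]
  have f8 : K * f * (2 * (r + 1)) ^ 2 ≤ c * w ^ (8 * AHH.es - 1) / 2 := by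
    have h0 : 0 < w ^ (8 * AHH.es - 1) := Real.rpow_pos_of_pos hw _
    have h01 : 1 ≤ w ^ (8 * AHH.es - 1) := by
      refine Real.one_le_rpow_of_pos_of_le_one_of_nonpos hw hw1 ?_
      unfold AHH.es
      norm_num
    have h1 : w ^ (1 / 1000 - 1 : ℝ) = w ^ (8 * AHH.es - 1) * w ^ (1 / 5000 : ℝ) := by
      rw [← Real.rpow_add hw]
      congr 1
      unfold AHH.es
      norm_num
    have h2 : (2 * (r + 1)) ^ 2 ≤ 8 * (r ^ 2 + 1) := by nlinarith only [sq_nonneg (r - 1)]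
    have h3 : f ≤ 2 * η / c := by
      rwa [le_div_iff₀ hc]
    have h4 : η ≤ w := by
      refine hηP.trans ?_
      conv_rhs => rw [← Real.rpow_one w]
      exact Real.rpow_le_rpow_of_exponent_ge hw hw1 (by linarith only [hc', hw, hP, g2])
    have h5 : w * (64 * K) ≤ c ^ 2 := by
      have := hs.n10
      rwa [le_div_iff₀ (by positivity)] at this
    have hC4 : 1 ≤ C ^ 4 := one_le_pow₀ hC
    have h6 : 8 * K * (η * r ^ 2) ≤ w ^ (8 * AHH.es - 1) * (c ^ 2 / 64) := by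
      have h7 : 0 ≤ 8 * K * (η * r ^ 2) := by positivity
      calc 8 * K * (η * r ^ 2) ≤ 8 * K * (η * r ^ 2) * C ^ 4 := by nlinarith only [hc', hw, g2, hC4, h7]
        _ = 8 * K * C ^ 4 * η * r ^ 2 := by ring
        _ ≤ w ^ (1 / 1000 - 1 : ℝ) := hr1
        _ = w ^ (8 * AHH.es - 1) * w ^ (1 / 5000 : ℝ) := h1
        _ ≤ w ^ (8 * AHH.es - 1) * (c ^ 2 / 64) := by
            have := hs.n9
            gcongr
    have h8 : K * η ≤ w ^ (8 * AHH.es - 1) * (c ^ 2 / 64) := by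
      calc K * η ≤ K * w := by gcongr
        _ ≤ c ^ 2 / 64 := by linarith only [h5]
        _ = 1 * (c ^ 2 / 64) := by ring
        _ ≤ w ^ (8 * AHH.es - 1) * (c ^ 2 / 64) := by gcongr
    calc K * f * (2 * (r + 1)) ^ 2 ≤ K * (2 * η / c) * (8 * (r ^ 2 + 1)) := by gcongr
      _ = (2 * (8 * K * (η * r ^ 2)) + 16 * (K * η)) / c := by ring
      _ ≤ (2 * (w ^ (8 * AHH.es - 1) * (c ^ 2 / 64)) +
          16 * (w ^ (8 * AHH.es - 1) * (c ^ 2 / 64))) / c := by gcongr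
      _ = 9 / 32 * c * w ^ (8 * AHH.es - 1) := by
          field_simp
          ring
      _ ≤ c * w ^ (8 * AHH.es - 1) / 2 := by
          have h9 : 0 < c * w ^ (8 * AHH.es - 1) := by positivity
          linarith only [h9]
  have f9 : K * (8 * C ^ 3 / w) ≤ f * R ^ 2 := by
    have h1 : 8 * K * C ^ 4 ≤ w * (f * C) * R ^ 2 := by
      refine hR.trans ?_
      have h2 : η ≤ f * C := hηf.trans (by gcongr)
      gcongr
    have h2 : C * (8 * K * C ^ 3) ≤ C * (w * (f * R ^ 2)) := by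
      calc C * (8 * K * C ^ 3) = 8 * K * C ^ 4 := by ring
        _ ≤ w * (f * C) * R ^ 2 := h1
        _ = C * (w * (f * R ^ 2)) := by ring
    have h3 := le_of_mul_le_mul_left h2 hC0
    have h4 : K * (8 * C ^ 3 / w) = 8 * K * C ^ 3 / w := by ring
    rw [h4, div_le_iff₀ hw]
    linarith only [h3]
  exact ⟨f1, f2, f3, f4, f5, f6, f7, f8, f9, f10⟩

end Pool.Agent.QDA.H34P
end
end -- Pool.Agent.Helper34_QDA.PhsN
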