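import Pool.Agent.Helper12_MEB.B089
import Pool.Agent.Helper12_MEB.B104
import Pool.Agent.Helper12_MEB.B106
import Pool.Agent.Helper12_MEB.B107
import Pool.Agent.Helper12_MEB.B118
import Pool.Agent.Helper12_MEB.B175

/-!
# Merged copies (generated) of the modules

* `Pool.Agent.Helper28_AHH.KNum`
* `Pool.Agent.Helper28_AHH.KGeo`
* `Pool.Agent.Helper19_ATT.RUN`
* `Pool.Agent.Helper26_ATT.OUT`
* `Pool.Agent.Helper27_ATT.PEJ`
* `Pool.Agent.Helper28_ATT.STK`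
* `Pool.Agent.Helper41_ATT.PEB`
* `Pool.Agent.Helper75_ATT.MXJ`
* `Pool.Agent.Helper76_ATT.ATA`
* `Pool.Agent.Helper84_ATT.NET`
* `Pool.Agent.Helper92_ATT.RVS`
* `Pool.Agent.Helper38_ATT.All`
* `Pool.Agent.Helper28_AHH.KilP`
* `Pool.Agent.Helper38_AHH.KPhi`
* `Pool.Agent.Helper28_AHH.KilH`
* `Pool.Agent.Helper28_AHH.Kil`
* `Pool.Agent.Helper41_AHH.Sca`
* `Pool.Agent.Helper30_AHH.Dat`
* `Pool.Agent.Helper28_AHH.KilT`
* `Pool.Agent.Helper22_QDU.H38KPhi`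
* `Pool.Agent.Helper22_QDU.H28KilH`
* `Pool.Agent.Helper22_QDU.H28Kil`
* `Pool.Agent.Helper22_QDU.H30Dat`
* `Pool.Agent.Helper22_QDU.H28KilT`
-/

set_option autoImplicit false

section -- Pool.Agent.Helper28_AHH.KNum

/-!
# AND2B: numbers for the field kil (helper28): the number of dead sites, the radius of the kills
-/

set_option autoImplicit false
set_option linter.unusedSectionVars false

open scoped BigOperators NNReal

noncomputable section

namespace Pool.Agent.AND2B.H28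

open Pool.Agent.AND.Num
open Pool.Agent.AND2B

variable {d : ℕ}

theorem sg_pos {a : ℝ} {V : Env d} (hV : V.Pre a) (n : ℕ) : 0 < V.sg n := by
  have h1 : 0 < V.cl (V.kk n) := AHH.cl_pos V hV.w (lt_of_lt_of_le (by norm_num) hV.th.1) _
  exact_mod_cast h1

/-- the clocks of consecutive super-stages -/
theorem sg_geo {a : ℝ} {V : Env d} (hV : V.Pre a) (i j : ℕ) :
    V.sg (i + j) ≤ (V.th : ℝ) ^ j * V.sg i := by
  induction j with
  | zero => simp
  | succ j ih =>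
    have h1 : V.kk (i + j) + 1 ≤ V.kk (i + (j + 1)) := hV.sc.km (i + j)
    have h2 : V.cl (V.kk (i + (j + 1))) ≤ V.cl (V.kk (i + j) + 1) :=
      AHH.cl_anti V hV.th.2.le h1
    have h3 : V.sg (i + (j + 1)) ≤ (V.th : ℝ) * V.sg (i + j) := by
      rw [AHH.cl_succ] at h2
      exact_mod_cast h2
    calc V.sg (i + (j + 1)) ≤ (V.th : ℝ) * V.sg (i + j) := h3
      _ ≤ (V.th : ℝ) * ((V.th : ℝ) ^ j * V.sg i) :=
        mul_le_mul_of_nonneg_left ih (NNReal.coe_nonneg _)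
      _ = _ := by ring

/-- the constant in the number of dead sites -/
def Kd (d : ℕ) (th : ℝ≥0) : ℝ := 3 ^ d / (1 - (th : ℝ) ^ (5 / 4 : ℝ))

theorem th_rp {th : ℝ≥0} (h0 : 0 < th) (h1 : th < 1) :
    0 < (th : ℝ) ^ (5 / 4 : ℝ) ∧ (th : ℝ) ^ (5 / 4 : ℝ) < 1 := by
  have h0' : (0 : ℝ) < th := by exact_mod_cast h0
  exact ⟨Real.rpow_pos_of_pos h0' _, Real.rpow_lt_one h0'.le (by exact_mod_cast h1) (by norm_num)⟩

theorem Kd_nonneg {d : ℕ} {th : ℝ≥0} (h0 : 0 < th) (h1 : th < 1) : 0 ≤ Kd d th := by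
  obtain ⟨h2, h3⟩ := th_rp h0 h1
  unfold Kd
  exact div_nonneg (by positivity) (by linarith only [h3])

/-- THE NUMBER OF DEAD SITES of the levels up to `n` -/
theorem sum_Dn {a : ℝ} {V : Env d} (hV : V.Pre a) {n : ℕ} (hn : n ≤ V.N) :
    ∑ i ∈ Finset.range (n + 1), (3 ^ d * V.Dn i : ℝ) ≤
      Kd d V.th * V.sg (n + 1) ^ (-(5 / 4 : ℝ)) := by
  have hth0 : (0 : ℝ≥0) < V.th := lt_of_lt_of_le (by norm_num) hV.th.1
  obtain ⟨r0, r1⟩ := th_rp hth0 hV.th.2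
  set ρ : ℝ := (V.th : ℝ) ^ (5 / 4 : ℝ) with hρ
  have hs := sg_pos hV (n + 1)
  have hthr : (0 : ℝ) < V.th := by exact_mod_cast hth0
  have h1 : ∀ i ∈ Finset.range (n + 1), (3 ^ d * V.Dn i : ℝ) ≤
      3 ^ d * (ρ ^ (n - i) * V.sg (n + 1) ^ (-(5 / 4 : ℝ))) := by
    intro i hi
    rw [Finset.mem_range] at hi
    have h2 := hV.sc.dl i (by omega)
    refine mul_le_mul_of_nonneg_left (h2.trans ?_) (by positivity)
    have h3 : V.sg (i + 1 + (n - i)) ≤ (V.th : ℝ) ^ (n - i) * V.sg (i + 1) :=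
      sg_geo hV (i + 1) (n - i)
    have e1 : i + 1 + (n - i) = n + 1 := by omega
    rw [e1] at h3
    have hpi := sg_pos hV (i + 1)
    have h4 : ((V.th : ℝ) ^ (n - i) * V.sg (i + 1)) ^ (-(5 / 4 : ℝ)) ≤
        V.sg (n + 1) ^ (-(5 / 4 : ℝ)) :=
      Real.rpow_le_rpow_of_nonpos hs h3 (by norm_num)
    rw [Real.mul_rpow (by positivity) hpi.le] at h4
    have h5 : ρ ^ (n - i) * ((V.th : ℝ) ^ (n - i)) ^ (-(5 / 4 : ℝ)) = 1 := by
      rw [hρ, ← Real.rpow_natCast ((V.th : ℝ) ^ (5 / 4 : ℝ)), ← Real.rpow_mul hthr.le,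
        ← Real.rpow_natCast (V.th : ℝ), ← Real.rpow_mul hthr.le, ← Real.rpow_add hthr]
      ring_nf
      exact Real.rpow_zero _
    have h6 := mul_le_mul_of_nonneg_left h4 (pow_nonneg r0.le (n - i))
    have h7 : ρ ^ (n - i) * (((V.th : ℝ) ^ (n - i)) ^ (-(5 / 4 : ℝ)) *
        V.sg (i + 1) ^ (-(5 / 4 : ℝ))) = V.sg (i + 1) ^ (-(5 / 4 : ℝ)) := by
      rw [← mul_assoc, h5, one_mul]
    rw [h7] at h6
    exact h6
  refine (Finset.sum_le_sum h1).trans ?_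
  rw [← Finset.mul_sum, ← Finset.sum_mul]
  have h8 : ∑ i ∈ Finset.range (n + 1), ρ ^ (n - i) ≤ 1 / (1 - ρ) := by
    have h9 : ∑ i ∈ Finset.range (n + 1), ρ ^ (n - i) = ∑ i ∈ Finset.range (n + 1), ρ ^ i := by
      rw [← Finset.sum_range_reflect]
      refine Finset.sum_congr rfl fun i hi => ?_
      rw [Finset.mem_range] at hi
      congr 1
      omega
    rw [h9, geom_sum_eq r1.ne, div_le_iff_of_neg (by linarith only [r1])]
    have h11 : 0 ≤ ρ ^ (n + 1) := pow_nonneg r0.le _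
    have h12 : 1 / (1 - ρ) * (ρ - 1) = -1 := by
      have : 1 - ρ ≠ 0 := by linarith only [r1]
      field_simp
      ring
    rw [h12]
    linarith only [h11]
  have h10 : 0 ≤ V.sg (n + 1) ^ (-(5 / 4 : ℝ)) := by positivity
  calc (3 : ℝ) ^ d * ((∑ i ∈ Finset.range (n + 1), ρ ^ (n - i)) *
        V.sg (n + 1) ^ (-(5 / 4 : ℝ)))
      ≤ 3 ^ d * (1 / (1 - ρ) * V.sg (n + 1) ^ (-(5 / 4 : ℝ))) := by gcongr
    _ = _ := by
      unfold Kd
      rw [← hρ]
      ring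

/-! ### the scale of the attempt -/

/-- `q = s ^ (1 / 2000)` -/
def qn (s : ℝ) : ℝ := s ^ (1 / 2000 : ℝ)

theorem qn_pos {s : ℝ} (hs : 0 < s) : 0 < qn s := Real.rpow_pos_of_pos hs _

theorem qn_pow {s : ℝ} (hs : 0 < s) (m : ℕ) : qn s ^ m = s ^ ((m : ℝ) / 2000) := by
  unfold qn
  rw [← Real.rpow_natCast, ← Real.rpow_mul hs.le]
  congr 1
  ring

theorem qn_inv_pow {s : ℝ} (hs : 0 < s) (m : ℕ) : (qn s)⁻¹ ^ m = s ^ (-((m : ℝ) / 2000)) := by
  rw [inv_pow, qn_pow hs, Real.rpow_neg hs.le]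

/-- the radius of the kills -/
def rkn (s : ℝ) : ℕ := ⌊s ^ (-(8 / 5 : ℝ))⌋₊

/-- the number of additional dead sites: kills and cluster -/
theorem small_far (d : ℕ) (hd : 0 < d) (c K : ℝ) (hc : 0 < c) :
    Small fun s => ∀ (D z : ℝ), D ≤ K * s ^ (-(5 / 4 : ℝ)) →
      z ≤ s ^ (-(113 / 100 : ℝ)) + s ^ (-(1 : ℝ)) →
      s ^ (-(1 / 2 : ℝ)) ≤
        c * s / 2 / (4 * d) * ((rkn s : ℝ) / 2 - (1 + 2 * (D + 3 ^ d * z)) - 1) := by
  have hd' : (0 : ℝ) < d := by exact_mod_cast hd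
  have h1 := small_pow' (3 + 1) (1 / 8) 0 (-(8 / 5 : ℝ)) (by norm_num) (by norm_num)
  have h2 := small_pow' (2 * K) (1 / 16) (-(5 / 4 : ℝ)) (-(8 / 5 : ℝ)) (by norm_num) (by norm_num)
  have h3 := small_pow' (2 * 3 ^ d) (1 / 16) (-(113 / 100 : ℝ)) (-(8 / 5 : ℝ)) (by norm_num)
    (by norm_num)
  have h4 := small_pow' (2 * 3 ^ d) (1 / 16) (-(1 : ℝ)) (-(8 / 5 : ℝ)) (by norm_num) (by norm_num)
  have h5 := small_pow' 1 (c / 2 / (4 * d) / 16) (-(1 / 2 : ℝ)) (-(3 / 5 : ℝ)) (by positivity)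
    (by norm_num)
  refine (((((h1.and h2).and h3).and h4).and h5).and Small.pos).mono ?_
  rintro s hs ⟨⟨⟨⟨⟨h1, h2⟩, h3⟩, h4⟩, h5⟩, -⟩ D z hD hz
  set u : ℝ := s ^ (-(8 / 5 : ℝ)) with hu
  have hfl : u - 1 ≤ (rkn s : ℝ) := by
    unfold rkn
    have := Nat.lt_floor_add_one (s ^ (-(8 / 5 : ℝ)))
    linarith only [this]
  rw [Real.rpow_zero, mul_one] at h1
  have hz3 : (3 : ℝ) ^ d * z ≤ 3 ^ d * (s ^ (-(113 / 100 : ℝ)) + s ^ (-(1 : ℝ))) :=
    mul_le_mul_of_nonneg_left hz (by positivity)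
  have h6 : u / 8 ≤ (rkn s : ℝ) / 2 - (1 + 2 * (D + 3 ^ d * z)) - 1 := by
    nlinarith only [hD, h4, h3, h1, h2, hfl, hz3]
  have hcc : 0 ≤ c * s / 2 / (4 * d) := by positivity
  have h7 := mul_le_mul_of_nonneg_left h6 hcc
  refine le_trans ?_ h7
  have h8 : s * u = s ^ (-(3 / 5 : ℝ)) := by
    rw [hu]
    nth_rewrite 1 [← Real.rpow_one s]
    rw [← Real.rpow_add hs]
    norm_num
  have h9 : c * s / 2 / (4 * d) * (u / 8) = c / 2 / (4 * d) / 8 * s ^ (-(3 / 5 : ℝ)) := by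
    rw [← h8]
    ring
  rw [h9]
  have h10 : (0 : ℝ) ≤ s ^ (-(3 / 5 : ℝ)) := by positivity
  have h11 : c / 2 / (4 * d) / 16 * s ^ (-(3 / 5 : ℝ)) ≤
      c / 2 / (4 * d) / 8 * s ^ (-(3 / 5 : ℝ)) := by
    refine mul_le_mul_of_nonneg_right ?_ h10
    have : 0 ≤ c / 2 / (4 * d) := by positivity
    linarith only [this]
  linarith only [h5, h11]

/-- the far sites are light -/
theorem far_small (d : ℕ) (hd : 0 < d) (c K : ℝ) (hc : 0 < c) :
    Small fun s => ∀ (D z : ℝ), D ≤ K * s ^ (-(5 / 4 : ℝ)) →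
      z ≤ s ^ (-(113 / 100 : ℝ)) + s ^ (-(1 : ℝ)) →
      2 * Real.exp (-(c * s / 2 / (4 * d) * ((rkn s : ℝ) / 2 - (1 + 2 * (D + 3 ^ d * z)) - 1))) <
        qn s ^ 2250 ∧
      2 / (c * s / 2) *
        Real.exp (-(c * s / 2 / (4 * d) * ((rkn s : ℝ) / 2 - (1 + 2 * (D + 3 ^ d * z)) - 1))) ≤
        qn s ^ 200 := by
  have h1 := small_far d hd c K hc
  have h2 := small_exp_pow 2 1 (1 / 2) 0 2 one_pos (by norm_num)
  have h3 := small_exp_pow (4 / c) 1 (1 / 2) 1 (1 / 10) one_pos (by norm_num)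
  refine ((((h1.and h2).and h3).and (small_le (1 / 2) (by norm_num))).and Small.pos).mono ?_
  rintro s hs ⟨⟨⟨⟨h1, h2⟩, h3⟩, h4⟩, -⟩ D z hD hz
  have h5 := h1 D z hD hz
  set t := c * s / 2 / (4 * d) * ((rkn s : ℝ) / 2 - (1 + 2 * (D + 3 ^ d * z)) - 1) with ht
  have h6 : Real.exp (-t) ≤ Real.exp (-(1 * s ^ (-(1 / 2 : ℝ)))) := by
    refine Real.exp_le_exp.2 ?_
    linarith only [h5]
  rw [neg_zero, Real.rpow_zero, mul_one] at h2
  constructor
  · rw [qn_pow hs]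
    refine lt_of_le_of_lt (le_trans (mul_le_mul_of_nonneg_left h6 (by norm_num)) h2) ?_
    refine Real.rpow_lt_rpow_of_exponent_gt hs (by linarith only [hs, h4]) ?_
    norm_num
  · rw [qn_pow hs]
    have h7 : 2 / (c * s / 2) = 4 / c * s ^ (-(1 : ℝ)) := by
      rw [Real.rpow_neg_one]
      field_simp
      norm_num
    rw [h7]
    refine (mul_le_mul_of_nonneg_left h6 (by positivity)).trans (h3.trans (le_of_eq ?_))
    norm_num

end Pool.Agent.AND2B.H28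
end
end -- Pool.Agent.Helper28_AHH.KNum

section -- Pool.Agent.Helper28_AHH.KGeo

/-!
# AND2B: the geometry of an attempt in the language of the protocol (helper28)

`KH`: the hypotheses of the field kil. `hfarK`, `hfar₀K`: the hypotheses `hfar`, `hfar₀` of helper76.
-/

set_option autoImplicit false
set_option linter.unusedSectionVars false

open scoped BigOperators NNReal

noncomputable section

namespace Pool.Agent.AND2B.H28

open Pool.Agent.AND.Num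
open Pool.Agent.ANP (Cfg)
open Pool.Agent.AHH (toE bud Rl Al gg)
open Pool.Agent.ATT.H76 (mkA)

variable {d : ℕ} {V : Env d} {c C : ℝ} {n : ℕ} {T₀ T : Cfg V.X} {run₀ run P Q : Finset V.X}

/-- the hypotheses of the field kil -/
structure KH (V : Env d) (c C : ℝ) (n : ℕ) (T₀ : Cfg V.X) (run₀ P : Finset V.X) (T : Cfg V.X)
    (run Q : Finset V.X) : Prop where
  nN : n ≤ V.N
  n1 : 1 ≤ n
  nv₀ : ¬ V.Vi T₀
  nv : ¬ V.Vi T
  st₀ : AHH.St (toE V c C) (bud V) n (V.kk (n + 1)) T₀ run₀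
  fc₀ : V.Fc n (V.kk (n + 1)) ∅ T₀ run₀
  fc : V.Fc n (V.kk (n + 1)) ∅ T run
  rl : Rl (toE V c C) (bud V) n T₀ run₀ P T run
  ne : Q.Nonempty
  pen : ∀ x ∈ Q, x ∉ run ∧ 0 < T.s x
  dia : ∀ x ∈ Q, ∀ y ∈ Q, V.G.D x y ≤ 2 * V.G.L n
  card : Q.card ≤ 3 ^ d * V.G.J * (6 * V.G.L (n - 1) + 1) ^ d
  iso : ∀ x ∈ Q, ∀ y, V.G.D x y ≤ V.G.ρ n → y ∈ Q ∨ y ∈ run ∨ T.s y = 0
  far : ∀ x ∈ Q, ∀ y ∈ P, 3 * V.G.ρ n < V.G.D x y

/-- the clock of the release phase -/
def sn (V : Env d) (n : ℕ) : ℝ := V.sg (n + 1)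

/-- the instance -/
def AA (V : Env d) (c C : ℝ) (n : ℕ) (T : Cfg V.X) (run Q : Finset V.X) (v : V.X → ℝ) :
    ATT.Pa V.X :=
  mkA (Hm d (2 ^ V.μ) V.E) V.e₀ T (run ∩ V.G.nbh Q (V.G.ρ n)) (run ∩ V.G.nbh Q (rkn (sn V n))) Q
    (V.cl (V.kk (n + 1))) v (qn (sn V n)) (c / 2) (4 * C)

namespace KH

variable (h : KH V c C n T₀ run₀ P T run Q)

include h

theorem al (x : V.X) (hx : T.s x ≠ 0) : c / 2 ≤ (T.mb x).im ∧ ‖T.mb x‖ ≤ 2 * C := by
  have h1 : x ∈ Al T := by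
    unfold Al
    rw [Finset.mem_filter]
    exact ⟨Finset.mem_univ _, pos_iff_ne_zero.2 hx⟩
  have h2 : x ∈ Al T₀ := by
    unfold Al at h1 ⊢
    rw [Finset.mem_filter] at h1 ⊢
    refine ⟨Finset.mem_univ _, ?_⟩
    rcases h.rl.chg x with h3 | h3
    · rw [← h3.2]
      exact h1.2
    · exact h3.2.1
  obtain ⟨h3, h4, -⟩ := h.st₀.gau x h2
  unfold gg at h3
  rw [h.rl.mb]
  exact ⟨h3, h4⟩

theorem clk (x : V.X) (hx : T.s x ≠ 0) : V.cl (V.kk (n + 1)) ≤ T.s x := by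
  by_cases hr : x ∈ run
  · have := h.fc.runs x hr
    rw [if_neg (Finset.notMem_empty x)] at this
    rw [this]
  · rcases h.fc.rest x hr with h1 | h1
    · exact absurd h1 hx
    · rw [if_neg (Finset.notMem_empty x)] at h1
      exact h1.1

theorem posn (hc : 0 < c) (x : V.X) : 0 ≤ (T.s x : ℝ) * (T.mb x).im := by
  by_cases hx : T.s x = 0
  · rw [hx]
    simp
  · have := (h.al x hx).1
    have := NNReal.coe_nonneg (T.s x)
    have : 0 ≤ (T.mb x).im := by linarith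
    positivity

theorem kap_le (hc : 0 < c) (he : 0 < V.e₀) (x : V.X) (hx : T.s x ≠ 0) :
    c * sn V n / 2 ≤ kap V.e₀ T x := by
  have h1 := (h.al x hx).1
  have h2 : sn V n ≤ T.s x := by
    have := h.clk x hx
    unfold sn
    exact_mod_cast this
  have h3 : 0 ≤ sn V n := NNReal.coe_nonneg _
  unfold kap
  have h4 : sn V n * (c / 2) ≤ (T.s x : ℝ) * (T.mb x).im :=
    mul_le_mul h2 h1 (by positivity) (NNReal.coe_nonneg _)
  linarith only [he, h4]

theorem J1 {a : ℝ} (hV : V.Pre a) : 1 ≤ V.J := hV.sc.scl.J1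

theorem cardQ {a : ℝ} (hV : V.Pre a) : (Q.card : ℝ) ≤ sn V n ^ (-V.c₁) := by
  have h1 := h.card
  have h2 := hV.sc.clu n h.n1 h.nN
  refine le_trans ?_ h2
  exact_mod_cast h1

end KH

/-- numbers of additional dead sites -/
def zz (V : Env d) (n : ℕ) (Q : Finset V.X) : ℕ := ⌊(qn (sn V n))⁻¹ ^ 2260⌋₊ + Q.card

theorem zz_le {a : ℝ} (hV : V.Pre a) (hc₁ : V.c₁ ≤ 1) (hs1 : sn V n ≤ 1)
    (h : KH V c C n T₀ run₀ P T run Q) :
    (zz V n Q : ℝ) ≤ sn V n ^ (-(113 / 100 : ℝ)) + sn V n ^ (-(1 : ℝ)) := by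
  have hs : 0 < sn V n := sg_pos hV (n + 1)
  unfold zz
  push_cast
  refine add_le_add ?_ ?_
  · refine (Nat.floor_le (by have := qn_pos hs; positivity)).trans (le_of_eq ?_)
    rw [qn_inv_pow hs]
    norm_num
  · exact (h.cardQ hV).trans (Real.rpow_le_rpow_of_exponent_ge hs hs1 (by linarith))

/-- for small clocks the number of additional dead sites is at most `Dn (n + 1)` -/
theorem zz_Dn {a : ℝ} (hd : 0 < d) (hV : V.Pre a) (hc₁ : V.c₁ ≤ 1) (hs1 : sn V n ≤ 1 / 2)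
    (h : KH V c C n T₀ run₀ P T run Q) : zz V n Q ≤ V.Dn (n + 1) := by
  have hs : 0 < sn V n := sg_pos hV (n + 1)
  have h1 := zz_le hV hc₁ (by linarith only [hs1, hs]) h
  have hJ := KH.J1 (h := h) hV
  have h2 := hV.sc.dn (n + 1) (by omega)
  have h3 : 2 ^ V.l n ≤ V.Dn (n + 1) := by
    refine le_trans ?_ h2
    have e1 : n + 1 - 1 = n := by omega
    rw [e1]
    have e2 : 2 ^ V.l n ≤ (6 * 2 ^ V.l n + 1) ^ d := by
      calc 2 ^ V.l n ≤ 6 * 2 ^ V.l n + 1 := by omega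
        _ = (6 * 2 ^ V.l n + 1) ^ 1 := (pow_one _).symm
        _ ≤ _ := Nat.pow_le_pow_right (by omega) hd
    have e3 : 1 ≤ 3 ^ d * V.J := Nat.mul_pos (by positivity) hJ
    calc 2 ^ V.l n ≤ 1 * (0 + 1 * (6 * 2 ^ V.l n + 1) ^ d) := by omega
      _ ≤ 3 ^ d * V.J * (V.Kn (n + 1) + 3 ^ d * V.J * (6 * 2 ^ V.l n + 1) ^ d) := by
          gcongr
          omega
  have h4 := hV.sc.llow n h.nN
  have h5 : (zz V n Q : ℝ) ≤ 2 ^ V.l n := by
    refine h1.trans (le_trans ?_ h4)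
    show sn V n ^ (-(113 / 100 : ℝ)) + sn V n ^ (-(1 : ℝ)) ≤ sn V n ^ (-(5 : ℝ))
    have e1 : sn V n ^ (-(113 / 100 : ℝ)) ≤ sn V n ^ (-(4 : ℝ)) :=
      Real.rpow_le_rpow_of_exponent_ge hs (by linarith only [hs1, hs]) (by norm_num)
    have e2 : sn V n ^ (-(1 : ℝ)) ≤ sn V n ^ (-(4 : ℝ)) :=
      Real.rpow_le_rpow_of_exponent_ge hs (by linarith only [hs1, hs]) (by norm_num)
    have e3 : sn V n ^ (-(4 : ℝ)) = sn V n * sn V n ^ (-(5 : ℝ)) := by
      nth_rewrite 2 [← Real.rpow_one (sn V n)]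
      rw [← Real.rpow_add hs]
      norm_num
    have e4 : 0 < sn V n ^ (-(5 : ℝ)) := Real.rpow_pos_of_pos hs _
    nlinarith only [hs1, e1, e2, e3, e4]
  have h6 : zz V n Q ≤ 2 ^ V.l n := by exact_mod_cast h5
  exact h6.trans h3

theorem rk_le {a : ℝ} (hV : V.Pre a) (hs1 : sn V n ≤ 1) (h : KH V c C n T₀ run₀ P T run Q) :
    rkn (sn V n) ≤ V.G.ρ n := by
  have hs : 0 < sn V n := sg_pos hV (n + 1)
  have h1 := hV.sc.rlow n h.nN
  have h2 : (rkn (sn V n) : ℝ) ≤ 2 ^ V.r n := by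
    refine (Nat.floor_le (by positivity)).trans (le_trans ?_ h1)
    exact Real.rpow_le_rpow_of_exponent_ge hs hs1 (by norm_num)
  have h3 : V.G.ρ n = 2 ^ V.r n := rfl
  rw [h3]
  exact_mod_cast h2

theorem Rk_sub {a : ℝ} (hV : V.Pre a) (hs1 : sn V n ≤ 1) (h : KH V c C n T₀ run₀ P T run Q) :
    run ∩ V.G.nbh Q (rkn (sn V n)) ⊆ run ∩ V.G.nbh Q (V.G.ρ n) := by
  refine Finset.inter_subset_inter_left fun x hx => ?_
  unfold ANP.Geo.nbh at hx ⊢
  rw [Finset.mem_filter] at hx ⊢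
  obtain ⟨y, hy, hxy⟩ := hx.2
  exact ⟨Finset.mem_univ _, y, hy, hxy.trans (rk_le hV hs1 h)⟩

/-- THE GEOMETRY OF THE ATTEMPT -/
theorem pgeo {a : ℝ} (hd : 0 < d) (hV : V.Pre a) (he : 0 < V.e₀) (hc : 0 < c) (hc1 : c ≤ 1)
    (hc₁ : V.c₁ ≤ 1) (hs1 : sn V n ≤ 1 / 2) (h : KH V c C n T₀ run₀ P T run Q) (v : V.X → ℝ) :
    PGeo (AA V c C n T run Q v) V.E V.e₀ (c * sn V n / 2) n (n + 1) (zz V n Q) (rkn (sn V n))
      V.Dn V.J V.N V.l V.r := by
  have hs : 0 < sn V n := sg_pos hV (n + 1)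
  have hG : ANP.GeoOk V.G d := ANP.H61.trg d V.μ V.l _ hV.sc.lm V.J V.N
  refine ⟨rfl, rfl, rfl, he, hV.sc.lm, by omega, h.fc.dens, le_rfl, ?_, h.posn hc,
    ⟨by positivity, ?_⟩, fun x hx => h.kap_le hc he x hx, ?_, ?_⟩
  · -- the sum
    have h1 := hV.sc.ds
    have h2 : (zz V n Q : ℝ) ≤ V.Dn (n + 1) := by exact_mod_cast zz_Dn hd hV hc₁ hs1 h
    have h3 : (3 : ℝ) ^ d * (zz V n Q : ℝ) / 2 ^ V.l (n + 1) ≤
        3 ^ d * V.Dn (n + 1) / 2 ^ V.l (n + 1) := by gcongr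
    have h4 : ∑ i ∈ Finset.range (n + 1), (3 ^ d * V.Dn i : ℝ) / 2 ^ V.l i +
        3 ^ d * V.Dn (n + 1) / 2 ^ V.l (n + 1) =
        ∑ i ∈ Finset.range (n + 2), (3 ^ d * V.Dn i : ℝ) / 2 ^ V.l i :=
      (Finset.sum_range_succ _ _).symm
    have h5 : ∑ i ∈ Finset.range (n + 2), (3 ^ d * V.Dn i : ℝ) / 2 ^ V.l i ≤
        ∑ i ∈ Finset.range (V.N + 2), (3 ^ d * V.Dn i : ℝ) / 2 ^ V.l i :=
      Finset.sum_le_sum_of_subset_of_nonneg
        (Finset.range_subset_range.2 (by have := h.nN; omega)) fun i _ _ => by positivity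
    linarith
  · nlinarith only [hc, hc1, hs1, hs]
  · intro x hx hxk b hb
    have hx' : x ∈ run := (Finset.mem_inter.1 hx).1
    by_contra hcon
    refine hxk (Finset.mem_inter.2 ⟨hx', ?_⟩)
    unfold ANP.Geo.nbh
    rw [Finset.mem_filter]
    refine ⟨Finset.mem_univ _, b, hb, ?_⟩
    rw [hG.comm]
    exact not_lt.1 hcon
  · intro x hx
    have hx' : x ∈ run := (Finset.mem_inter.1 hx).1
    have := h.fc.runs x hx'
    rw [if_neg (Finset.notMem_empty x)] at this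
    show T.s x ≠ 0
    rw [this]
    exact (AHH.cl_pos V hV.w (lt_of_lt_of_le (by norm_num) hV.th.1) _).ne'

end Pool.Agent.AND2B.H28
end
end -- Pool.Agent.Helper28_AHH.KGeo

section -- Pool.Agent.Helper19_ATT.RUN

/-!
# Tank ATT, row RUN: a kill run

`Gk r` is the inverse of a matrix which is affine in `r`.
-/

set_option autoImplicit false

open MeasureTheory ProbabilityTheory Function Filter

open scoped ENNReal BigOperators Topology NNReal Matrix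

noncomputable section

namespace Pool.Agent.ATT.H19

open Pool.Agent.LE.QF (HJ HM gG LL dC JalStmt JmaStmt)
open Pool.Agent.KIL (KJ)
open Pool.Agent.ANP (Cfg)

theorem hj_congr {ι : Type} [Fintype ι] [DecidableEq ι] {E : Type} [NormedAddCommGroup E]
    [NormedSpace ℝ E] {F F' : ℝ × (ι → ℝ) → E} {q : ℝ × (ι → ℝ)} {v v' : E} {g g' : ι → E}
    {l l' : E} (h : HJ F q v g l) (hF : F = F') (hv : v = v') (hg : g = g') (hl : l = l') :
    HJ F' q v' g' l' := by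
  subst hF hv hg hl
  exact h

section

variable {X : Type} [Fintype X] [DecidableEq X]

/-- the real part of the network in the run -/
def Hk (Hm : Matrix X X ℝ) (T : Cfg X) (D : Finset X) (r : ℝ × (D → ℝ)) : Matrix X X ℝ :=
  fun x y => hN Hm T x y +
    if h : x ∈ D then (if x = y then r.2 ⟨x, h⟩ + r.1 * (T.mb x).re else 0) else 0

/-- the matrix -/
def Am (Hm : Matrix X X ℝ) (η e0 : ℝ) (v : ℝ≥0) (T : Cfg X) (D : Finset X)
    (r : ℝ × (D → ℝ)) : Matrix X X ℂ :=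
  (Hk Hm T D r).map (fun t : ℝ => (t : ℂ)) -
    Matrix.diagonal fun x => Complex.I * (kr η e0 v T D r.1 x : ℂ)

variable {Hm : Matrix X X ℝ} {η e0 : ℝ} {v : ℝ≥0} {T : Cfg X} {D : Finset X}

omit [Fintype X] in
theorem hk_sym (hs : ∀ x y, Hm x y = Hm y x) (r : ℝ × (D → ℝ)) (x y : X) :
    Hk Hm T D r x y = Hk Hm T D r y x := by
  by_cases hxy : x = y
  · rw [hxy]
  · unfold Hk hN
    have h1 : ∀ (a b : X), a ≠ b → (if h : a ∈ D then (if a = b then r.2 ⟨a, h⟩ +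
        r.1 * (T.mb a).re else 0) else 0) = 0 := by
      intro a b hab
      by_cases h2 : a ∈ D
      · rw [dif_pos h2, if_neg hab]
      · rw [dif_neg h2]
    rw [h1 x y hxy, h1 y x (Ne.symm hxy), if_neg hxy, if_neg (Ne.symm hxy), hs x y]

omit [Fintype X] in
theorem mg_im (hv : 0 < v) (x : X) : (v : ℝ) * (mg η e0 v T x).im = v * (T.mb x).im + (η - e0) := by
  have hv' : (v : ℝ) ≠ 0 := by exact_mod_cast hv.ne'
  unfold mg
  rw [Complex.add_im, Complex.I_mul_im, Complex.ofReal_re, mul_add, mul_div_cancel₀ _ hv']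

omit [Fintype X] in
theorem mg_re (x : X) : (mg η e0 v T x).re = (T.mb x).re := by
  unfold mg
  rw [Complex.add_re, Complex.I_mul_re, Complex.ofReal_im, neg_zero, add_zero]

omit [Fintype X] [DecidableEq X] in
theorem ka_pos (h0 : 0 < e0) (h1 : e0 ≤ η) (hmb : ∀ x, 0 < T.s x → 0 < (T.mb x).im) (x : X) :
    0 < ka η e0 T x := by
  unfold ka
  split_ifs with h
  · exact h0
  · have h2 : 0 < T.s x := pos_iff_ne_zero.2 h
    have h3 : 0 < (T.s x : ℝ) := by exact_mod_cast h2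
    have h4 := mul_pos h3 (hmb x h2)
    linarith

omit [Fintype X] in
theorem kr_pos (h0 : 0 < e0) (h1 : e0 ≤ η) (hv : 0 < v)
    (hmb : ∀ x, 0 < T.s x → 0 < (T.mb x).im) (hD : ∀ c ∈ D, T.s c = v) (t : ℝ) (ht : 0 ≤ t)
    (htv : t ≤ v) (x : X) : 0 < kr η e0 v T D t x := by
  unfold kr
  split_ifs with h
  · have hs := hD x h
    have hs0 : T.s x ≠ 0 := by rw [hs]; exact hv.ne'
    have hm : 0 < (T.mb x).im := hmb x (by rw [hs]; exact hv)
    have hvr : 0 < (v : ℝ) := by exact_mod_cast hv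
    have h2 := mg_im (η := η) (e0 := e0) (T := T) hv x
    have h3 : 0 ≤ (mg η e0 v T x).im := by
      by_contra hcon
      push Not at hcon
      have h4 := mul_neg_of_pos_of_neg hvr hcon
      have h5 := mul_pos hvr hm
      linarith
    have h6 : t * (mg η e0 v T x).im ≤ v * (mg η e0 v T x).im :=
      mul_le_mul_of_nonneg_right htv h3
    unfold ka
    rw [if_neg hs0, hs]
    linarith
  · exact ka_pos h0 h1 hmb x

theorem net_of (hs : ∀ x y, Hm x y = Hm y x) (h0 : 0 < e0) (h1 : e0 ≤ η) (hv : 0 < v)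
    (hmb : ∀ x, 0 < T.s x → 0 < (T.mb x).im) (hD : ∀ c ∈ D, T.s c = v) (r : ℝ × (D → ℝ))
    (ht : 0 ≤ r.1) (htv : r.1 ≤ v) : ANR.Net (Hk Hm T D r) (kr η e0 v T D r.1) :=
  ⟨hk_sym hs r, kr_pos h0 h1 hv hmb hD r.1 ht htv⟩

theorem am_mul (hG : ANR.GeqStmt) (r : ℝ × (D → ℝ))
    (hN : ANR.Net (Hk Hm T D r) (kr η e0 v T D r.1)) :
    Am Hm η e0 v T D r * Gk Hm η e0 v T D r = 1 := by
  obtain ⟨h1, -⟩ := hG X (Hk Hm T D r) (kr η e0 v T D r.1) hN
  ext x y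
  rw [Matrix.one_apply, ← h1 x y]
  have h2 : Gk Hm η e0 v T D r = ANR.Gr (Hk Hm T D r) (kr η e0 v T D r.1) := rfl
  rw [h2]
  unfold Am ANR.opv
  rw [Matrix.sub_mul, Matrix.sub_apply, Matrix.diagonal_mul, Matrix.mul_apply]
  rfl

theorem gk_eq (r : ℝ × (D → ℝ)) : Gk Hm η e0 v T D r = (Am Hm η e0 v T D r)⁻¹ := rfl

theorem jet_A (hJ : JalStmt) (q : ℝ × (D → ℝ)) :
    HM (Am Hm η e0 v T D) q (Am Hm η e0 v T D q)
      (fun c : D => Matrix.diagonal fun x => if x = (c : X) then (1 : ℂ) else 0)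
      (Matrix.diagonal fun x => if x ∈ D then mg η e0 v T x else 0) := by
  obtain ⟨jc, jx, jalg, -, -, -, jt, -⟩ := hJ D ℂ q
  intro x y
  by_cases hxy : x = y
  · subst hxy
    by_cases hx : x ∈ D
    · set K : ℂ := ((Hm x x + (T.V x - (T.s x : ℝ) * (T.mb x).re) : ℝ) : ℂ) -
        Complex.I * (ka η e0 T x : ℂ) with hK
      have hform : ∀ r : ℝ × (D → ℝ), Am Hm η e0 v T D r x x =
          K + ((r.2 ⟨x, hx⟩ : ℝ) : ℂ) + (r.1 : ℂ) * mg η e0 v T x := by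
        intro r
        unfold Am
        rw [Matrix.sub_apply, Matrix.map_apply, Matrix.diagonal_apply_eq]
        unfold Hk hN kr
        rw [dif_pos hx, if_pos rfl, if_pos rfl, if_pos hx, hK]
        have h1 : mg η e0 v T x = ((T.mb x).re : ℂ) + Complex.I * ((mg η e0 v T x).im : ℂ) := by
          apply Complex.ext
          · rw [Complex.add_re, Complex.ofReal_re, Complex.I_mul_re, Complex.ofReal_im, neg_zero,
              add_zero, mg_re]
          · rw [Complex.add_im, Complex.ofReal_im, Complex.I_mul_im, Complex.ofReal_re, zero_add]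
        conv_rhs => rw [h1]
        push_cast
        ring
      have hct : ContDiffAt ℝ 2 (fun t : ℝ => (t : ℂ) * mg η e0 v T x) q.1 :=
        (Complex.ofRealCLM.contDiff.mul contDiff_const).contDiffAt
      have hder : deriv (fun t : ℝ => (t : ℂ) * mg η e0 v T x) q.1 = mg η e0 v T x := by
        have h1 : HasDerivAt (fun t : ℝ => (t : ℂ)) 1 q.1 := Complex.ofRealCLM.hasDerivAt
        have h2 := (h1.mul_const (mg η e0 v T x)).deriv
        rw [one_mul] at h2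
        exact h2
      have e1 := jc K
      have e2 := jx ⟨x, hx⟩
      have e3 := (jalg _ _ _ _ _ _ _ _ e1 e2).1
      have e4 := jt (fun t : ℝ => (t : ℂ) * mg η e0 v T x) hct
      have e5 := (jalg _ _ _ _ _ _ _ _ e3 e4).1
      refine hj_congr e5 ?_ ?_ ?_ ?_
      · funext r
        exact (hform r).symm
      · exact (hform q).symm
      · funext c
        beta_reduce
        rw [Matrix.diagonal_apply_eq, zero_add, add_zero]
        by_cases hc : c = ⟨x, hx⟩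
        · rw [if_pos hc, hc, if_pos rfl]
        · rw [if_neg hc, if_neg]
          intro h
          exact hc (Subtype.ext h.symm)
      · rw [Matrix.diagonal_apply_eq, if_pos hx, hder, zero_add, zero_add]
    · have hform : ∀ r : ℝ × (D → ℝ), Am Hm η e0 v T D r x x = Am Hm η e0 v T D q x x := by
        intro r
        unfold Am
        rw [Matrix.sub_apply, Matrix.map_apply, Matrix.diagonal_apply_eq, Matrix.sub_apply,
          Matrix.map_apply, Matrix.diagonal_apply_eq]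
        unfold Hk kr
        rw [dif_neg hx, if_neg hx, dif_neg hx, if_neg hx]
      refine hj_congr (jc (Am Hm η e0 v T D q x x)) ?_ rfl ?_ ?_
      · funext r
        exact (hform r).symm
      · funext c
        beta_reduce
        rw [Matrix.diagonal_apply_eq, if_neg]
        intro h
        exact hx (h ▸ c.2)
      · rw [Matrix.diagonal_apply_eq, if_neg hx]
  · have hform : ∀ r : ℝ × (D → ℝ), Am Hm η e0 v T D r x y = Am Hm η e0 v T D q x y := by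
      intro r
      unfold Am
      rw [Matrix.sub_apply, Matrix.map_apply, Matrix.diagonal_apply_ne _ hxy, Matrix.sub_apply,
        Matrix.map_apply, Matrix.diagonal_apply_ne _ hxy]
      unfold Hk
      simp only [if_neg hxy]
    refine hj_congr (jc (Am Hm η e0 v T D q x y)) ?_ rfl ?_ ?_
    · funext r
      exact (hform r).symm
    · funext c
      beta_reduce
      rw [Matrix.diagonal_apply_ne _ hxy]
    · rw [Matrix.diagonal_apply_ne _ hxy]

theorem mul_dg (M G : Matrix X X ℂ) (φ : X → ℂ) (a b : X) :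
    (M * Matrix.diagonal φ * G) a b = ∑ x, M a x * φ x * G x b := by
  rw [Matrix.mul_apply]
  exact Finset.sum_congr rfl fun x _ => by rw [Matrix.mul_diagonal]

theorem mul_sg (M G : Matrix X X ℂ) (c a b : X) :
    (M * Matrix.diagonal (fun x => if x = c then (1 : ℂ) else 0) * G) a b = M a c * G c b := by
  rw [mul_dg, Finset.sum_eq_single c]
  · rw [if_pos rfl, mul_one]
  · intro x _ hx
    rw [if_neg hx, mul_zero, zero_mul]
  · intro h
    exact absurd (Finset.mem_univ c) h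

theorem jet_G (hJ : JalStmt) (hM : JmaStmt) (q : ℝ × (D → ℝ))
    (hdet : IsUnit (Am Hm η e0 v T D q).det) :
    HM (Gk Hm η e0 v T D) q (Gk Hm η e0 v T D q) (fun c : D => gG (Gk Hm η e0 v T D q) (c : X))
      (fun a b => ∑ c : D, Gk Hm η e0 v T D q a c *
        (Gk Hm η e0 v T D q c c - mg η e0 v T c) * Gk Hm η e0 v T D q c b) := by
  have h1 := (((hM D ℂ q).2 X _ _ _ _ (jet_A (Hm := Hm) (η := η) (e0 := e0) (v := v) (T := T)
    hJ q)).1) hdet
  intro a b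
  refine hj_congr (h1 a b) rfl rfl ?_ ?_
  · funext c
    beta_reduce
    rw [Matrix.neg_apply, mul_sg]
    rfl
  · rw [Matrix.add_apply, Matrix.neg_apply, mul_dg, Matrix.sum_apply, ← gk_eq]
    have h2 : ∑ x, Gk Hm η e0 v T D q a x * (if x ∈ D then mg η e0 v T x else 0) *
        Gk Hm η e0 v T D q x b =
        ∑ c : D, Gk Hm η e0 v T D q a c * mg η e0 v T c * Gk Hm η e0 v T D q c b := by
      rw [Finset.sum_coe_sort D fun x => Gk Hm η e0 v T D q a x * mg η e0 v T x *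
        Gk Hm η e0 v T D q x b]
      rw [← Finset.sum_subset (Finset.subset_univ D)]
      · exact Finset.sum_congr rfl fun x hx => by rw [if_pos hx]
      · intro x _ hx
        rw [if_neg hx, mul_zero, zero_mul]
    rw [h2, ← Finset.sum_neg_distrib, ← Finset.sum_add_distrib]
    refine Finset.sum_congr rfl fun c _ => ?_
    rw [mul_sg, mul_sg]
    ring

theorem ward (hG : ANR.GeqStmt) (hs : ∀ x y, Hm x y = Hm y x) (r : ℝ × (D → ℝ))
    (hN : ANR.Net (Hk Hm T D r) (kr η e0 v T D r.1)) (a b : X) :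
    ∑ y, (kr η e0 v T D r.1 y : ℂ) * (Gk Hm η e0 v T D r a y *
      (starRingEnd ℂ) (Gk Hm η e0 v T D r b y)) = ((Gk Hm η e0 v T D r a b).im : ℂ) := by
  have hAG := am_mul hG r hN
  obtain ⟨-, hsy, -⟩ := hG X (Hk Hm T D r) (kr η e0 v T D r.1) hN
  set G := Gk Hm η e0 v T D r with hGdef
  set A := Am Hm η e0 v T D r with hAdef
  have hGA : G * A = 1 := mul_eq_one_comm.1 hAG
  have hGA' : Aᴴ * Gᴴ = 1 := by
    rw [← Matrix.conjTranspose_mul, hGA, Matrix.conjTranspose_one]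
  have hA' : Aᴴ - A = Matrix.diagonal fun x => 2 * Complex.I * (kr η e0 v T D r.1 x : ℂ) := by
    ext x y
    rw [Matrix.sub_apply, Matrix.conjTranspose_apply, hAdef]
    unfold Am
    rw [Matrix.sub_apply, Matrix.sub_apply, Matrix.map_apply, Matrix.map_apply,
      hk_sym hs r y x]
    by_cases hxy : x = y
    · subst hxy
      rw [Matrix.diagonal_apply_eq, Matrix.diagonal_apply_eq, star_sub, star_mul',
        Complex.star_def, Complex.conj_ofReal, Complex.conj_ofReal, Complex.conj_I]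
      ring
    · rw [Matrix.diagonal_apply_ne _ hxy, Matrix.diagonal_apply_ne _ hxy,
        Matrix.diagonal_apply_ne _ (Ne.symm hxy), star_sub, Complex.star_def,
        Complex.conj_ofReal, map_zero]
      ring
  have h1 : G * (Aᴴ - A) * Gᴴ = G - Gᴴ := by
    rw [Matrix.mul_sub, Matrix.sub_mul, Matrix.mul_assoc, hGA', Matrix.mul_one, hGA,
      Matrix.one_mul]
  have h2 := congrFun (congrFun h1 a) b
  rw [hA', mul_dg, Matrix.sub_apply, Matrix.conjTranspose_apply] at h2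
  have hsym : G b a = G a b := hsy b a
  rw [hsym] at h2
  have h3 : G a b - star (G a b) = 2 * Complex.I * ((G a b).im : ℂ) := by
    apply Complex.ext <;> simp
    ring
  have h4 : ∑ x, G a x * (2 * Complex.I * (kr η e0 v T D r.1 x : ℂ)) * Gᴴ x b =
      2 * Complex.I * ∑ y, (kr η e0 v T D r.1 y : ℂ) * (G a y * (starRingEnd ℂ) (G b y)) := by
    rw [Finset.mul_sum]
    refine Finset.sum_congr rfl fun x _ => ?_
    rw [Matrix.conjTranspose_apply, Complex.star_def]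
    ring
  rw [h4, h3] at h2
  have h5 : (2 * Complex.I : ℂ) ≠ 0 := mul_ne_zero two_ne_zero Complex.I_ne_zero
  exact mul_left_cancel₀ h5 h2

end

theorem run (hG : ANR.GeqStmt) (hJ : JalStmt) (hM : JmaStmt) : RunStmt := by
  intro X _ _ Hm η e0 v T D hs h0 h1 hv hmb hD
  have hnet := fun (r : ℝ × (D → ℝ)) (ht : 0 ≤ r.1) (htv : r.1 ≤ v) =>
    net_of (Hm := Hm) hs h0 h1 hv hmb hD r ht htv
  have hdet : ∀ (r : ℝ × (D → ℝ)), 0 ≤ r.1 → r.1 ≤ v → IsUnit (Am Hm η e0 v T D r).det :=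
    fun r ht htv => Matrix.isUnit_det_of_right_inverse (am_mul hG r (hnet r ht htv))
  have hend : ∀ ζ : X → ℝ, Gk Hm η e0 v T D (v, fun c => ζ c) = GT Hm η e0 (T.kl D ζ) ∧
      kr η e0 v T D v = ka η e0 (T.kl D ζ) := by
    intro ζ
    have hk : kr η e0 v T D v = ka η e0 (T.kl D ζ) := by
      funext x
      unfold kr ka Cfg.kl
      by_cases hx : x ∈ D
      · have hs0 : T.s x ≠ 0 := by rw [hD x hx]; exact hv.ne'
        simp only [if_pos hx, if_neg hs0, if_true]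
        rw [mg_im hv, hD x hx]
        ring
      · simp only [if_neg hx]
    refine ⟨?_, hk⟩
    have hH : Hk Hm T D ((v : ℝ), fun c => ζ c) = hN Hm (T.kl D ζ) := by
      funext x y
      unfold Hk hN Cfg.kl
      by_cases hx : x ∈ D
      · by_cases hxy : x = y
        · simp only [dif_pos hx, if_pos hxy, if_pos hx]
          rw [hD x hx]
          simp only [NNReal.coe_zero]
          ring
        · simp only [dif_pos hx, if_neg hxy, add_zero]
      · simp only [dif_neg hx, if_neg hx, add_zero]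
    have h2 : Gk Hm η e0 v T D ((v : ℝ), fun c => ζ c) =
        ANR.Gr (Hk Hm T D ((v : ℝ), fun c => ζ c)) (kr η e0 v T D v) := rfl
    rw [h2, hH, hk]
    rfl
  refine ⟨?_, ?_, ?_, hend, ?_⟩
  · intro r ht htv
    refine ⟨⟨Subtype.val_injective, jet_G hJ hM r (hdet r ht htv), ?_, ?_, ?_, ?_⟩,
      kr_pos h0 h1 hv hmb hD r.1 ht htv, ward hG hs r (hnet r ht htv)⟩
    · exact (hG X (Hk Hm T D r) (kr η e0 v T D r.1) (hnet r ht htv)).2.1
    · intro x
      refine ⟨?_, rfl⟩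
      unfold kr
      by_cases hx : x ∈ D
      · simp only [if_pos hx]
        exact (contDiff_const.sub (contDiff_id.mul contDiff_const)).contDiffAt
      · simp only [if_neg hx]
        exact contDiffAt_const
    · intro c
      unfold kr
      simp only [if_pos c.2]
      have h2 : HasDerivAt (fun t : ℝ => ka η e0 T c - t * (mg η e0 v T c).im)
          (-(1 * (mg η e0 v T c).im)) r.1 :=
        ((hasDerivAt_id r.1).mul_const _).const_sub _
      rw [h2.deriv, one_mul]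
    · intro x hx
      have hx' : x ∉ D := fun h => hx ⟨⟨x, h⟩, rfl⟩
      unfold kr
      simp only [if_neg hx', deriv_const]
  · have hH : Hk Hm T D 0 = hN Hm T := by
      funext x y
      unfold Hk
      split_ifs <;> simp
    have hk : kr η e0 v T D (0 : ℝ × (D → ℝ)).1 = ka η e0 T := by
      funext x
      unfold kr
      split_ifs <;> simp
    have h2 : Gk Hm η e0 v T D 0 = ANR.Gr (Hk Hm T D 0) (kr η e0 v T D (0 : ℝ × (D → ℝ)).1) :=
      rfl
    rw [h2, hH, hk]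
    rfl
  · funext x
    unfold kr
    split_ifs <;> simp
  · intro a b
    have h2 : (fun ζ : X → ℝ => GT Hm η e0 (T.kl D ζ) a b) =
        fun ζ : X → ℝ => Gk Hm η e0 v T D ((v : ℝ), fun c : D => ζ c) a b := by
      funext ζ
      rw [(hend ζ).1]
    rw [h2]
    refine Continuous.measurable (continuous_iff_continuousAt.2 fun ζ => ?_)
    have h3 := (jet_G (Hm := Hm) (η := η) (e0 := e0) (v := v) (T := T) hJ hM
      ((v : ℝ), fun c : D => ζ c) (hdet _ v.2 le_rfl) a b).sm.continuousAt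
    have h4 : ContinuousAt (fun ζ : X → ℝ => ((v : ℝ), fun c : D => ζ c)) ζ := by
      apply Continuous.continuousAt
      fun_prop
    exact ContinuousAt.comp (f := fun ζ : X → ℝ => ((v : ℝ), fun c : D => ζ c)) h3 h4

end Pool.Agent.ATT.H19
end
end -- Pool.Agent.Helper19_ATT.RUN

section -- Pool.Agent.Helper26_ATT.OUT

/-!
# ATT, row OUT: what the end of the attempt gives
-/

set_option autoImplicit false

open scoped ENNReal BigOperators Topology NNReal Matrix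

noncomputable section

namespace Pool.Agent.ATT.H26

open Pool.Agent.ANP (Cfg gm Att)

/-- Minkowski in `ℓ²(S, κ)` -/
theorem mink {X : Type} (S : Finset X) (κ : X → ℝ) (hκ : ∀ y ∈ S, 0 ≤ κ y) (a b : X → ℂ) :
    Real.sqrt (∑ y ∈ S, κ y * ‖a y + b y‖ ^ 2) ≤
      Real.sqrt (∑ y ∈ S, κ y * ‖a y‖ ^ 2) + Real.sqrt (∑ y ∈ S, κ y * ‖b y‖ ^ 2) := by
  have hA : 0 ≤ ∑ y ∈ S, κ y * ‖a y‖ ^ 2 :=
    Finset.sum_nonneg fun y hy => mul_nonneg (hκ y hy) (by positivity)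
  have hB : 0 ≤ ∑ y ∈ S, κ y * ‖b y‖ ^ 2 :=
    Finset.sum_nonneg fun y hy => mul_nonneg (hκ y hy) (by positivity)
  have hcs : ∑ y ∈ S, κ y * (‖a y‖ * ‖b y‖) ≤
      Real.sqrt (∑ y ∈ S, κ y * ‖a y‖ ^ 2) * Real.sqrt (∑ y ∈ S, κ y * ‖b y‖ ^ 2) := by
    have h := Real.sum_mul_le_sqrt_mul_sqrt S (fun y => Real.sqrt (κ y) * ‖a y‖)
      (fun y => Real.sqrt (κ y) * ‖b y‖)
    have e1 : ∑ y ∈ S, Real.sqrt (κ y) * ‖a y‖ * (Real.sqrt (κ y) * ‖b y‖) =
        ∑ y ∈ S, κ y * (‖a y‖ * ‖b y‖) := by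
      refine Finset.sum_congr rfl fun y hy => ?_
      calc Real.sqrt (κ y) * ‖a y‖ * (Real.sqrt (κ y) * ‖b y‖) =
            (Real.sqrt (κ y) * Real.sqrt (κ y)) * (‖a y‖ * ‖b y‖) := by ring
        _ = _ := by rw [Real.mul_self_sqrt (hκ y hy)]
    have e2 : ∑ y ∈ S, (Real.sqrt (κ y) * ‖a y‖) ^ 2 = ∑ y ∈ S, κ y * ‖a y‖ ^ 2 := by
      refine Finset.sum_congr rfl fun y hy => ?_
      rw [mul_pow, Real.sq_sqrt (hκ y hy)]
    have e3 : ∑ y ∈ S, (Real.sqrt (κ y) * ‖b y‖) ^ 2 = ∑ y ∈ S, κ y * ‖b y‖ ^ 2 := by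
      refine Finset.sum_congr rfl fun y hy => ?_
      rw [mul_pow, Real.sq_sqrt (hκ y hy)]
    rw [e1, e2, e3] at h
    exact h
  apply Real.sqrt_le_iff.2
  refine ⟨by positivity, ?_⟩
  calc ∑ y ∈ S, κ y * ‖a y + b y‖ ^ 2
      ≤ ∑ y ∈ S, (κ y * ‖a y‖ ^ 2 + 2 * (κ y * (‖a y‖ * ‖b y‖)) + κ y * ‖b y‖ ^ 2) := by
        refine Finset.sum_le_sum fun y hy => ?_
        have h1 : ‖a y + b y‖ ^ 2 ≤ (‖a y‖ + ‖b y‖) ^ 2 := by
          have := norm_add_le (a y) (b y)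
          gcongr
        calc κ y * ‖a y + b y‖ ^ 2 ≤ κ y * (‖a y‖ + ‖b y‖) ^ 2 :=
              mul_le_mul_of_nonneg_left h1 (hκ y hy)
          _ = _ := by ring
    _ = ∑ y ∈ S, κ y * ‖a y‖ ^ 2 + 2 * ∑ y ∈ S, κ y * (‖a y‖ * ‖b y‖) +
        ∑ y ∈ S, κ y * ‖b y‖ ^ 2 := by
        rw [Finset.sum_add_distrib, Finset.sum_add_distrib, Finset.mul_sum]
    _ ≤ Real.sqrt (∑ y ∈ S, κ y * ‖a y‖ ^ 2) ^ 2 +
        2 * (Real.sqrt (∑ y ∈ S, κ y * ‖a y‖ ^ 2) * Real.sqrt (∑ y ∈ S, κ y * ‖b y‖ ^ 2)) +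
        Real.sqrt (∑ y ∈ S, κ y * ‖b y‖ ^ 2) ^ 2 := by
        rw [Real.sq_sqrt hA, Real.sq_sqrt hB]
        linarith only [hcs]
    _ = _ := by ring

theorem out (peb : PebStmt) : OutStmt := by
  intro X _ _ A κs g₀ Λ Lc hK kI H T Go hS hU
  obtain ⟨he0, heη, hv, hg0, ht1, hdT, hδ, hgb, hlm, hεm, hhK, hlM, hεM⟩ := H.pos
  have hal : ∀ x ∈ A.al T, x ∈ A.R ∧ T.s x ≠ 0 := fun x hx => by
    simpa [Pa.al] using hx
  have hkd : A.kd T ⊆ A.R := by
    intro x hx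
    have h : x ∈ A.R ∧ T.s x = 0 := by simpa [Pa.kd] using hx
    exact h.1
  -- the terms
  have hn1 : ∀ x ∈ A.al T ∪ ∅, ∀ y ∈ A.al T,
      0 ≤ pe (A.l x) (A.bud T x y - A.l x * A.ε x) (A.G T x y - Go x y) := by
    intro x hx y _
    have hx' : x ∈ A.al T := by simpa using hx
    exact (peb (A.l x) (A.bud T x y - A.l x * A.ε x) 0 _
      (H.le x (Finset.mem_union_left _ (hal x hx').1)).1).1
  have hs1 : 0 ≤ ∑ x ∈ A.al T ∪ ∅, ∑ y ∈ A.al T,
      pe (A.l x) (A.bud T x y - A.l x * A.ε x) (A.G T x y - Go x y) :=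
    Finset.sum_nonneg fun x hx => Finset.sum_nonneg fun y hy => hn1 x hx y hy
  have hs2 : 0 ≤ ∑ x ∈ A.al T,
      Real.exp (A.bum T x + A.lm * (mx (A.k T) (A.al T) (A.G T) Go x - A.εm)) :=
    Finset.sum_nonneg fun x _ => (Real.exp_pos _).le
  have hs3 : 0 < Real.exp (A.buM T + A.lM * (MM (A.k T) (A.al T) (A.G T) Go - A.εM)) :=
    Real.exp_pos _
  have hU' : (∑ x ∈ A.al T ∪ ∅, ∑ y ∈ A.al T,
      pe (A.l x) (A.bud T x y - A.l x * A.ε x) (A.G T x y - Go x y)) + ∑ x ∈ A.al T,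
      Real.exp (A.bum T x + A.lm * (mx (A.k T) (A.al T) (A.G T) Go x - A.εm)) +
      Real.exp (A.buM T + A.lM * (MM (A.k T) (A.al T) (A.G T) Go - A.εM)) < 1 := hU
  have hterm1 : ∀ x ∈ A.al T, ∀ y ∈ A.al T,
      pe (A.l x) (A.bud T x y - A.l x * A.ε x) (A.G T x y - Go x y) < 1 ∧
      Real.exp (A.bum T x + A.lm * (mx (A.k T) (A.al T) (A.G T) Go x - A.εm)) < 1 := by
    intro x hx y hy
    constructor
    · have h1 : pe (A.l x) (A.bud T x y - A.l x * A.ε x) (A.G T x y - Go x y) ≤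
          ∑ y ∈ A.al T, pe (A.l x) (A.bud T x y - A.l x * A.ε x) (A.G T x y - Go x y) :=
        Finset.single_le_sum (f := fun y => pe (A.l x) (A.bud T x y - A.l x * A.ε x)
          (A.G T x y - Go x y)) (fun z hz => hn1 x (by simpa using hx) z hz) hy
      have h2 : ∑ y ∈ A.al T, pe (A.l x) (A.bud T x y - A.l x * A.ε x) (A.G T x y - Go x y) ≤
          ∑ x ∈ A.al T ∪ ∅, ∑ y ∈ A.al T,
            pe (A.l x) (A.bud T x y - A.l x * A.ε x) (A.G T x y - Go x y) :=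
        Finset.single_le_sum (f := fun x => ∑ y ∈ A.al T,
          pe (A.l x) (A.bud T x y - A.l x * A.ε x) (A.G T x y - Go x y))
          (fun z hz => Finset.sum_nonneg fun y hy => hn1 z hz y hy) (by simpa using hx)
      linarith only [hs2, hs3, hU', h1, h2]
    · have h1 : Real.exp (A.bum T x + A.lm * (mx (A.k T) (A.al T) (A.G T) Go x - A.εm)) ≤
          ∑ x ∈ A.al T,
            Real.exp (A.bum T x + A.lm * (mx (A.k T) (A.al T) (A.G T) Go x - A.εm)) :=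
        Finset.single_le_sum (f := fun x => Real.exp (A.bum T x +
          A.lm * (mx (A.k T) (A.al T) (A.G T) Go x - A.εm)))
          (fun z _ => (Real.exp_pos _).le) hx
      linarith
  have hk : ∀ y ∈ A.al T, 0 ≤ A.k T y := by
    intro y hy
    have h4 : A.k T y = if T.s y = 0 then A.e0 else A.η + (T.s y : ℝ) * (T.mb y).im := rfl
    rw [h4, if_neg (hal y hy).2]
    have h5 := H.hR y (hal y hy).1
    have h6 : g₀ ≤ (T.mb y).im := by
      rw [hS.mb]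
      exact h5.2.1
    have h7 : 0 ≤ (T.s y : ℝ) * (T.mb y).im := mul_nonneg (NNReal.coe_nonneg _) (by linarith only [hg0, h6])
    linarith only [he0, heη, h7]
  have hbu := H.bu (A.kd T) hkd hS.num
  have hQ0 : A.Q \ ∅ = A.Q := Finset.sdiff_empty
  refine ⟨?_, ?_, ?_⟩
  · intro x hx y hy
    have hxR := (hal x hx).1
    have hyR := (hal y hy).1
    have hb : 0 ≤ A.bud T x y := by
      have h := hbu.1 x (Finset.mem_union_left _ hxR) y hyR
      have h2 : A.bud T x y = 1 - A.v * ∑ c ∈ A.kd T, cs (A.l x) A.δ (A.p x c) (A.p y c) := rfl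
      rw [h2]
      linarith only [h]
    have h1 := (peb (A.l x) (A.bud T x y) (A.ε x) (A.G T x y - Go x y)
      (H.le x (Finset.mem_union_left _ hxR)).1).2 hb (hterm1 x hx y hy).1
    have h2 := hS.go x (by simpa using hx) y hy
    rw [hQ0, if_neg (Finset.notMem_empty x)] at h2
    have h3 := H.jj x (Finset.mem_union_left _ hxR)
    rw [if_neg (Finset.disjoint_left.1 H.dis hxR)] at h3
    calc ‖A.G T x y - A.G A.T₀ x y‖
        = ‖(A.G T x y - Go x y) + (Go x y - A.G A.T₀ x y)‖ := by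
          congr 1
          ring
      _ ≤ ‖A.G T x y - Go x y‖ + ‖Go x y - A.G A.T₀ x y‖ := norm_add_le _ _
      _ ≤ 2 * A.ε x + (A.Q.card : ℝ) * (2 * Real.sqrt (A.dT * A.dT)) := add_le_add h1 h2
      _ ≤ A.J x := by linarith only [h3]
  · intro x hx
    have hxR := (hal x hx).1
    have hb : 0 ≤ A.bum T x := by
      have h := hbu.2 x hxR
      have h2 : A.bum T x = 1 - A.v * ∑ c ∈ A.kd T, cm A.lm A.εm A.δ A.gb (A.p x c) := rfl
      rw [h2]
      linarith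
    have h1 := (hterm1 x hx x hx).2
    have h2 : A.bum T x + A.lm * (mx (A.k T) (A.al T) (A.G T) Go x - A.εm) < 0 := by
      by_contra hcon
      have h3 := Real.one_le_exp (not_lt.1 hcon)
      linarith only [h1, h3]
    have h3 : mx (A.k T) (A.al T) (A.G T) Go x ≤ A.εm := by
      by_contra hcon
      have h4 : 0 < A.lm * (mx (A.k T) (A.al T) (A.G T) Go x - A.εm) :=
        mul_pos hlm (by linarith [not_le.1 hcon])
      linarith
    have h5 := mink (A.al T) (A.k T) hk (fun y => A.G T x y - Go x y)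
      (fun y => Go x y - A.G A.T₀ x y)
    have h6 := hS.gm x hx
    rw [hQ0] at h6
    have h7 : ∑ y ∈ A.al T, A.k T y * ‖A.G T x y - Go x y + (Go x y - A.G A.T₀ x y)‖ ^ 2 =
        mx (A.k T) (A.al T) (A.G T) (A.G A.T₀) x := by
      rw [mx]
      refine Finset.sum_congr rfl fun y _ => ?_
      congr 3
      ring
    rw [h7] at h5
    have h8 : ∑ y ∈ A.al T, A.k T y * ‖Go x y - A.G A.T₀ x y‖ ^ 2 =
        mx (A.k T) (A.al T) Go (A.G A.T₀) x := rfl
    have h9 : ∑ y ∈ A.al T, A.k T y * ‖A.G T x y - Go x y‖ ^ 2 =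
        mx (A.k T) (A.al T) (A.G T) Go x := rfl
    rw [h8, h9] at h5
    have h10 : Real.sqrt (mx (A.k T) (A.al T) (A.G T) Go x) ≤ Real.sqrt A.εm :=
      Real.sqrt_le_sqrt h3
    linarith only [h5, h6, h10]
  · have hcM : 0 ≤ cM A.lM A.εM A.δ A.gb := by
      rw [cM]
      have := Real.sqrt_nonneg A.εM
      positivity
    have hb : 0 ≤ A.buM T := by
      have h2 : A.buM T = 1 - A.v * ((A.kd T).card * cM A.lM A.εM A.δ A.gb) := rfl
      have h3 : ((A.kd T).card : ℝ) ≤ A.N := by exact_mod_cast hS.num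
      have h4 : (A.v : ℝ) * ((A.kd T).card * cM A.lM A.εM A.δ A.gb) ≤
          A.v * (A.N * cM A.lM A.εM A.δ A.gb) := by
        apply mul_le_mul_of_nonneg_left _ (NNReal.coe_nonneg _)
        exact mul_le_mul_of_nonneg_right h3 hcM
      have h5 := H.buM
      rw [h2]
      linarith only [h4, h5]
    have h1 : Real.exp (A.buM T + A.lM * (MM (A.k T) (A.al T) (A.G T) Go - A.εM)) < 1 := by
      linarith
    have h2 : A.buM T + A.lM * (MM (A.k T) (A.al T) (A.G T) Go - A.εM) < 0 := by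
      by_contra hcon
      have h3 := Real.one_le_exp (not_lt.1 hcon)
      linarith only [hs1, hs2, hU', h3]
    have h3 : MM (A.k T) (A.al T) (A.G T) Go ≤ A.εM := by
      by_contra hcon
      have h4 : 0 < A.lM * (MM (A.k T) (A.al T) (A.G T) Go - A.εM) :=
        mul_pos hlM (by linarith [not_le.1 hcon])
      linarith only [hb, h2, h4]
    have hMM : ∀ G₁ G₂ : Matrix X X ℂ, MM (A.k T) (A.al T) G₁ G₂ =
        ∑ z ∈ A.al T ×ˢ A.al T, (A.k T z.1 * A.k T z.2) * ‖G₁ z.1 z.2 - G₂ z.1 z.2‖ ^ 2 := by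
      intro G₁ G₂
      rw [MM, Finset.sum_product]
      refine Finset.sum_congr rfl fun x _ => ?_
      rw [mx, Finset.mul_sum]
      refine Finset.sum_congr rfl fun y _ => ?_
      ring
    have h5 := mink (A.al T ×ˢ A.al T) (fun z => A.k T z.1 * A.k T z.2)
      (fun z hz => mul_nonneg (hk _ (Finset.mem_product.1 hz).1) (hk _ (Finset.mem_product.1 hz).2))
      (fun z => A.G T z.1 z.2 - Go z.1 z.2) (fun z => Go z.1 z.2 - A.G A.T₀ z.1 z.2)
    have h6 := hS.gM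
    rw [hQ0] at h6
    have h7 : ∑ z ∈ A.al T ×ˢ A.al T, (A.k T z.1 * A.k T z.2) *
        ‖A.G T z.1 z.2 - Go z.1 z.2 + (Go z.1 z.2 - A.G A.T₀ z.1 z.2)‖ ^ 2 =
        MM (A.k T) (A.al T) (A.G T) (A.G A.T₀) := by
      rw [hMM]
      refine Finset.sum_congr rfl fun z _ => ?_
      congr 3
      ring
    rw [h7, ← hMM, ← hMM] at h5
    have h10 : Real.sqrt (MM (A.k T) (A.al T) (A.G T) Go) ≤ Real.sqrt A.εM :=
      Real.sqrt_le_sqrt h3
    linarith only [h5, h6, h10]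

end Pool.Agent.ATT.H26
end
end -- Pool.Agent.Helper26_ATT.OUT

section -- Pool.Agent.Helper27_ATT.PEJ

/-!
# ATT, row PEJ: the jet of `pe`
-/

set_option autoImplicit false

open MeasureTheory ProbabilityTheory Function Filter

open scoped ENNReal BigOperators Topology NNReal Matrix

noncomputable section

namespace Pool.Agent.ATT.H27

open Pool.Agent.LE.QF (HJ HM gG LL dC)

theorem deriv_coshl (l : ℝ) : deriv (fun u : ℝ => Real.cosh (l * u)) =
    fun u => l * Real.sinh (l * u) := by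
  funext u
  have h1 : HasDerivAt (fun u : ℝ => l * u) (l * 1) u := (hasDerivAt_id u).const_mul l
  have h2 := h1.cosh
  rw [h2.deriv]
  ring

theorem deriv_sinhl (l : ℝ) (u : ℝ) : deriv (fun u : ℝ => l * Real.sinh (l * u)) u =
    l ^ 2 * Real.cosh (l * u) := by
  have h1 : HasDerivAt (fun u : ℝ => l * u) (l * 1) u := (hasDerivAt_id u).const_mul l
  have h2 := h1.sinh.const_mul l
  rw [h2.deriv]
  ring

theorem coshl_smooth (l u : ℝ) : ContDiffAt ℝ 2 (fun u : ℝ => Real.cosh (l * u)) u :=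
  (Real.contDiff_cosh.comp (contDiff_const.mul contDiff_id)).contDiffAt

theorem abs_sinh_le (x : ℝ) : |Real.sinh x| ≤ Real.cosh x := by
  rw [Real.sinh_eq, Real.cosh_eq, abs_le]
  have h1 := Real.exp_pos x
  have h2 := Real.exp_pos (-x)
  constructor <;> linarith

theorem term_le (l a r L : ℝ) (hl : 0 ≤ l) (hr : |r| ≤ L) :
    l * Real.sinh (l * a) * r ≤ l * Real.cosh (l * a) * L := by
  have h1 : Real.sinh (l * a) * r ≤ Real.cosh (l * a) * L := by
    calc Real.sinh (l * a) * r ≤ |Real.sinh (l * a) * r| := le_abs_self _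
      _ = |Real.sinh (l * a)| * |r| := abs_mul _ _
      _ ≤ Real.cosh (l * a) * L :=
        mul_le_mul (abs_sinh_le _) hr (abs_nonneg _) (Real.cosh_pos _).le
  calc l * Real.sinh (l * a) * r = l * (Real.sinh (l * a) * r) := by ring
    _ ≤ l * (Real.cosh (l * a) * L) := mul_le_mul_of_nonneg_left h1 hl
    _ = l * Real.cosh (l * a) * L := by ring

theorem pej (jal : Pool.Agent.LE.QF.JalStmt) : PejStmt := by
  intro ι _ _ q F z z₀ lz g l B ρ hl hF
  obtain ⟨cC, -, aC, rC, -, -, -, -⟩ := jal ι ℂ q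
  obtain ⟨cR, -, aR, -, oR, -, tR, -⟩ := jal ι ℝ q
  -- the difference
  have h1 : HJ (fun r => F r - z₀) q (z - z₀) g lz := by
    have h := (aC F (fun _ => z₀) z z₀ lz 0 g (fun _ => 0) hF (cC z₀)).2.1
    simpa only [sub_zero] using h
  have hre : HJ (fun r => (F r - z₀).re) q (z - z₀).re (fun c => (g c).re) lz.re :=
    (rC _ _ _ _ h1).2.1
  have him : HJ (fun r => (F r - z₀).im) q (z - z₀).im (fun c => (g c).im) lz.im := by
    have h2 := (aC (fun _ => -Complex.I) (fun r => F r - z₀) (-Complex.I) (z - z₀) 0 lz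
      (fun _ => 0) g (cC _) h1).2.2
    have h3 := (rC _ _ _ _ h2).2.1
    have e1 : (fun r => RCLike.re (-Complex.I * (F r - z₀))) = fun r => (F r - z₀).im := by
      funext r
      simp
    have e2 : RCLike.re (-Complex.I * (z - z₀)) = (z - z₀).im := by simp
    have e3 : (fun c => RCLike.re (-Complex.I * g c + 0 * (z - z₀))) = fun c => (g c).im := by
      funext c
      simp
    have e4 : RCLike.re (-Complex.I * lz + 0 * (z - z₀) + ∑ c, (0 : ℂ) * g c) = lz.im := by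
      simp
    rw [e1, e2, e3, e4] at h3
    exact h3
  -- the hyperbolic cosines
  have hch : ∀ (w : ℝ × (ι → ℝ) → ℝ) (v lw : ℝ) (gw : ι → ℝ), HJ w q v gw lw →
      HJ (fun r => Real.cosh (l * w r)) q (Real.cosh (l * v))
        (fun c => l * Real.sinh (l * v) * gw c)
        (l * Real.sinh (l * v) * lw + l ^ 2 * Real.cosh (l * v) / 2 * ∑ c, gw c ^ 2) := by
    intro w v lw gw hw
    have h := (oR w v lw gw hw).2 (fun u => Real.cosh (l * u)) (coshl_smooth l v)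
    rw [deriv_coshl, deriv_sinhl] at h
    exact h
  have hc1 := hch _ _ _ _ hre
  have hc2 := hch _ _ _ _ him
  have hC := (aR _ _ _ _ _ _ _ _ hc1 hc2).1
  -- the exponential
  have hd : deriv (fun t : ℝ => 2 * Real.exp (B - ρ * t)) q.1 =
      -ρ * (2 * Real.exp (B - ρ * q.1)) := by
    have d1 : HasDerivAt (fun t : ℝ => B - ρ * t) (-(ρ * 1)) q.1 :=
      ((hasDerivAt_id q.1).const_mul ρ).const_sub B
    have d2 := d1.exp.const_mul 2
    rw [d2.deriv]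
    ring
  have hE : HJ (fun r : ℝ × (ι → ℝ) => 2 * Real.exp (B - ρ * r.1)) q
      (2 * Real.exp (B - ρ * q.1)) (fun _ => 0) (-ρ * (2 * Real.exp (B - ρ * q.1))) := by
    have h := tR (fun t : ℝ => 2 * Real.exp (B - ρ * t))
      (contDiff_const.mul (Real.contDiff_exp.comp
        (contDiff_const.sub (contDiff_const.mul contDiff_id)))).contDiffAt
    rw [hd] at h
    exact h
  have hP := (aR _ _ _ _ _ _ _ _ hE hC).2.2
  refine ⟨_, _, hP, ?_⟩
  set a := (z - z₀).re with ha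
  set b := (z - z₀).im with hb
  set S := ∑ c, ‖g c‖ ^ 2 with hS
  have hE0 : 0 < 2 * Real.exp (B - ρ * q.1) := by positivity
  have hpe : pe l (B - ρ * q.1) (z - z₀) =
      2 * Real.exp (B - ρ * q.1) * (Real.cosh (l * a) + Real.cosh (l * b)) := rfl
  rw [hpe]
  have s1 : ∑ c, (g c).re ^ 2 ≤ S := by
    refine Finset.sum_le_sum fun c _ => ?_
    rw [← sq_abs (g c).re]
    exact pow_le_pow_left₀ (abs_nonneg _) (Complex.abs_re_le_norm _) 2
  have s2 : ∑ c, (g c).im ^ 2 ≤ S := by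
    refine Finset.sum_le_sum fun c _ => ?_
    rw [← sq_abs (g c).im]
    exact pow_le_pow_left₀ (abs_nonneg _) (Complex.abs_im_le_norm _) 2
  have t1 := term_le l a lz.re ‖lz‖ hl (Complex.abs_re_le_norm _)
  have t2 := term_le l b lz.im ‖lz‖ hl (Complex.abs_im_le_norm _)
  have u1 : l ^ 2 * Real.cosh (l * a) / 2 * ∑ c, (g c).re ^ 2 ≤
      l ^ 2 * Real.cosh (l * a) / 2 * S :=
    mul_le_mul_of_nonneg_left s1 (by have := Real.cosh_pos (l * a); positivity)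
  have u2 : l ^ 2 * Real.cosh (l * b) / 2 * ∑ c, (g c).im ^ 2 ≤
      l ^ 2 * Real.cosh (l * b) / 2 * S :=
    mul_le_mul_of_nonneg_left s2 (by have := Real.cosh_pos (l * b); positivity)
  have hsum0 : ∑ c : ι, (0 : ℝ) * (l * Real.sinh (l * a) * (g c).re +
      l * Real.sinh (l * b) * (g c).im) = 0 := by simp
  have hfin := mul_le_mul_of_nonneg_left (add_le_add (add_le_add t1 u1) (add_le_add t2 u2)) hE0.le
  rw [hsum0]
  nlinarith only [hfin]

end Pool.Agent.ATT.H27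
end
end -- Pool.Agent.Helper27_ATT.PEJ

section -- Pool.Agent.Helper28_ATT.STK

/-!
# Block ATT, row STK (helper28): one kill
-/

set_option autoImplicit false
set_option linter.unusedSectionVars false

open MeasureTheory ProbabilityTheory Function Filter

open scoped ENNReal BigOperators Topology NNReal Matrix

noncomputable section

namespace Pool.Agent.ATT.H28

open Pool.Agent.LE.QF (HJ HM gG LL dC)
open Pool.Agent.KIL (KJ KGd Cut gam aa yn ym cu)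
open Pool.Agent.ANP (Cfg gm Att)

section

variable {X : Type} [Fintype X] [DecidableEq X]

theorem kl_s (T : Cfg X) (D : Finset X) (ζ : X → ℝ) (x : X) :
    (T.kl D ζ).s x = if x ∈ D then 0 else T.s x := rfl

theorem kl_V (T : Cfg X) (D : Finset X) (ζ : X → ℝ) (x : X) :
    (T.kl D ζ).V x = if x ∈ D then T.V x + ζ x else T.V x := rfl

theorem kl_mb (T : Cfg X) (D : Finset X) (ζ : X → ℝ) : (T.kl D ζ).mb = T.mb := rfl

theorem cosh_low (t : ℝ) : Real.exp |t| ≤ 2 * Real.cosh t := by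
  rw [Real.cosh_eq]
  rcases abs_cases t with ⟨h, _⟩ | ⟨h, _⟩ <;> rw [h] <;>
    have h1 := Real.exp_pos t <;> have h2 := Real.exp_pos (-t) <;> linarith

theorem pe_nonneg (l B : ℝ) (z : ℂ) : 0 ≤ pe l B z := by
  unfold pe
  have h1 := Real.cosh_pos (l * z.re)
  have h2 := Real.cosh_pos (l * z.im)
  positivity

theorem pe_bound (l B ε : ℝ) (z : ℂ) (hl : 0 < l) (hB : 0 ≤ B) (h : pe l (B - l * ε) z < 1) :
    ‖z‖ ≤ 2 * ε := by
  have key : ∀ t : ℝ, 2 * Real.exp (B - l * ε) * Real.cosh (l * t) < 1 → |t| ≤ ε := by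
    intro t ht
    have h1 : Real.exp (B - l * ε + |l * t|) < 1 := by
      rw [Real.exp_add]
      have := mul_le_mul_of_nonneg_left (cosh_low (l * t)) (Real.exp_pos (B - l * ε)).le
      linarith
    have h2 : B - l * ε + |l * t| < 0 := by
      rwa [Real.exp_lt_one_iff] at h1
    rw [abs_mul, abs_of_pos hl] at h2
    have h3 : l * |t| ≤ l * ε := by linarith
    exact le_of_mul_le_mul_left h3 hl
  have h1 := Real.cosh_pos (l * z.re)
  have h2 := Real.cosh_pos (l * z.im)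
  have he := Real.exp_pos (B - l * ε)
  unfold pe at h
  have hr := key z.re (by nlinarith only [mul_pos he h2, h])
  have hi := key z.im (by nlinarith only [mul_pos he h1, h])
  have := Complex.norm_le_abs_re_add_abs_im z
  linarith

variable (A : Pa X)

theorem al_kl (T : Cfg X) (D : Finset X) (ζ : X → ℝ) : A.al (T.kl D ζ) = A.al T \ D := by
  ext x
  simp only [Pa.al, Finset.mem_filter, Finset.mem_sdiff, kl_s]
  by_cases hx : x ∈ D
  · simp [hx]
  · simp [hx]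

theorem kd_kl (T : Cfg X) (D : Finset X) (ζ : X → ℝ) (hD : D ⊆ A.al T) :
    A.kd (T.kl D ζ) = A.kd T ∪ D := by
  ext x
  simp only [Pa.kd, Finset.mem_filter, Finset.mem_union, kl_s]
  by_cases hx : x ∈ D
  · have := (Finset.mem_filter.1 (hD hx)).1
    simp [hx, this]
  · simp [hx]

theorem kd_disj (T : Cfg X) (D : Finset X) (hD : D ⊆ A.al T) : Disjoint (A.kd T) D := by
  rw [Finset.disjoint_left]
  intro x hx hx'
  exact (Finset.mem_filter.1 (hD hx')).2 (Finset.mem_filter.1 hx).2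

theorem bud_kl (T : Cfg X) (D : Finset X) (ζ : X → ℝ) (hD : D ⊆ A.al T) (x y : X) :
    A.bud (T.kl D ζ) x y =
      A.bud T x y - (∑ c ∈ D, cs (A.l x) A.δ (A.p x c) (A.p y c)) * A.v := by
  unfold Pa.bud
  rw [kd_kl A T D ζ hD, Finset.sum_union (kd_disj A T D hD)]
  ring

theorem bum_kl (T : Cfg X) (D : Finset X) (ζ : X → ℝ) (hD : D ⊆ A.al T) (x : X) :
    A.bum (T.kl D ζ) x =
      A.bum T x - (∑ c ∈ D, cm A.lm A.εm A.δ A.gb (A.p x c)) * A.v := by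
  unfold Pa.bum
  rw [kd_kl A T D ζ hD, Finset.sum_union (kd_disj A T D hD)]
  ring

theorem mx_mono {κ κ' : X → ℝ} {S S' : Finset X} (G Go : Matrix X X ℂ) (x : X) (hS : S' ⊆ S)
    (hκ : ∀ y ∈ S', κ' y = κ y) (h0 : ∀ y ∈ S, 0 ≤ κ y) :
    mx κ' S' G Go x ≤ mx κ S G Go x := by
  unfold mx
  refine le_trans (le_of_eq (Finset.sum_congr rfl fun y hy => by rw [hκ y hy])) ?_
  exact Finset.sum_le_sum_of_subset_of_nonneg hS fun y hy _ =>
    mul_nonneg (h0 y hy) (sq_nonneg _)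

theorem mx_nonneg {κ : X → ℝ} {S : Finset X} (G Go : Matrix X X ℂ) (x : X)
    (h0 : ∀ y ∈ S, 0 ≤ κ y) : 0 ≤ mx κ S G Go x :=
  Finset.sum_nonneg fun y hy => mul_nonneg (h0 y hy) (sq_nonneg _)

theorem MM_mono {κ κ' : X → ℝ} {S S' : Finset X} (G Go : Matrix X X ℂ) (hS : S' ⊆ S)
    (hκ : ∀ y ∈ S', κ' y = κ y) (h0 : ∀ y ∈ S, 0 ≤ κ y) :
    MM κ' S' G Go ≤ MM κ S G Go := by
  unfold MM
  refine le_trans (Finset.sum_le_sum (g := fun x => κ x * mx κ S G Go x) fun x hx => ?_) ?_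
  · rw [hκ x hx]
    exact mul_le_mul_of_nonneg_left (mx_mono G Go x hS hκ h0) (h0 x (hS hx))
  · exact Finset.sum_le_sum_of_subset_of_nonneg hS fun y hy _ =>
      mul_nonneg (h0 y hy) (mx_nonneg G Go y h0)

theorem buM_kl (T : Cfg X) (D : Finset X) (ζ : X → ℝ) (hD : D ⊆ A.al T) :
    A.buM (T.kl D ζ) = A.buM T - ((D.card : ℝ) * cM A.lM A.εM A.δ A.gb) * A.v := by
  unfold Pa.buM
  rw [kd_kl A T D ζ hD, Finset.card_union_of_disjoint (kd_disj A T D hD)]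
  push_cast
  ring

theorem k_kl (T : Cfg X) (D : Finset X) (ζ : X → ℝ) (y : X) (hy : y ∉ D) :
    A.k (T.kl D ζ) y = A.k T y := by
  unfold Pa.k ka
  rw [kl_s, kl_mb, if_neg hy]

section st

variable {A} {κs g₀ Λ Lc hK kI : ℝ} {T : Cfg X} {Qr D : Finset X} {Go : Matrix X X ℂ}

theorem im_pos (H : A.Hyp κs g₀ Λ Lc hK kI) (hS : A.St T Qr Go) (x : X) (hx : 0 < T.s x) :
    0 < (T.mb x).im := by
  rw [hS.mb]
  apply H.pimb
  by_cases hR : x ∈ A.R
  · rw [(H.hR x hR).1]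
    exact H.pos.2.2.1
  · by_cases hQ : x ∈ A.Q
    · by_cases hr : x ∈ Qr
      · rw [← (hS.rem x hr).2]
        exact hx
      · rw [(hS.app x hQ hr).2] at hx
        exact absurd hx (lt_irrefl _)
    · rw [← (hS.off x hR hQ).2]
      exact hx

theorem k_pos (H : A.Hyp κs g₀ Λ Lc hK kI) (hS : A.St T Qr Go) (x : X) : 0 < A.k T x := by
  unfold Pa.k ka
  split_ifs with h
  · exact H.pos.1
  · have h1 := im_pos H hS x (pos_iff_ne_zero.2 h)
    have h2 : 0 < A.η := lt_of_lt_of_le H.pos.1 H.pos.2.1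
    have h3 : 0 ≤ (T.s x : ℝ) * (T.mb x).im := mul_nonneg (NNReal.coe_nonneg _) h1.le
    linarith

theorem mem_R (hD : D ⊆ A.al T) {x : X} (hx : x ∈ D) : x ∈ A.R := (Finset.mem_filter.1 (hD hx)).1

theorem st_kl (H : A.Hyp κs g₀ Λ Lc hK kI) (hS : A.St T Qr Go) (hD : D ⊆ A.al T)
    (hDk : D ⊆ A.Rk) (hN : (A.kd T).card + D.card ≤ A.N) (ζ : X → ℝ) :
    A.St (T.kl D ζ) Qr Go := by
  have hQD : ∀ x ∈ A.Q, x ∉ D := fun x hx hx' =>
    (Finset.disjoint_left.1 H.dis (mem_R hD hx')) hx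
  refine ⟨hS.mb, ?_, ?_, hS.sub, ?_, ?_, ?_, ?_, ?_, ?_, ?_⟩
  · intro x hR hQ
    have hx : x ∉ D := fun h => hR (mem_R hD h)
    rw [kl_V, kl_s, if_neg hx, if_neg hx]
    exact hS.off x hR hQ
  · intro x hR
    rw [kl_V, kl_s]
    by_cases hx : x ∈ D
    · rw [if_pos hx]
      exact Or.inl rfl
    · rw [if_neg hx, if_neg hx]
      exact hS.run x hR
  · intro b hb
    have hx := hQD b (hS.sub hb)
    rw [kl_V, kl_s, if_neg hx, if_neg hx]
    exact hS.rem b hb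
  · intro b hb hr
    have hx := hQD b hb
    rw [kl_V, kl_s, if_neg hx, if_neg hx]
    exact hS.app b hb hr
  · rw [kd_kl A T D ζ hD]
    exact le_trans (Finset.card_union_le _ _) hN
  · rw [kd_kl A T D ζ hD]
    exact Finset.union_subset hS.near hDk
  · intro x hx y hy
    rw [al_kl] at hx hy
    apply hS.go x _ y (Finset.sdiff_subset hy)
    rcases Finset.mem_union.1 hx with h | h
    · exact Finset.mem_union_left _ (Finset.sdiff_subset h)
    · exact Finset.mem_union_right _ h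
  · intro x hx
    rw [al_kl] at hx ⊢
    refine le_trans (Real.sqrt_le_sqrt ?_) (hS.gm x (Finset.sdiff_subset hx))
    exact mx_mono _ _ _ Finset.sdiff_subset
      (fun y hy => k_kl A T D ζ y (Finset.mem_sdiff.1 hy).2) fun y _ => (k_pos H hS y).le
  · rw [al_kl]
    refine le_trans (Real.sqrt_le_sqrt ?_) hS.gM
    exact MM_mono _ _ Finset.sdiff_subset
      (fun y hy => k_kl A T D ζ y (Finset.mem_sdiff.1 hy).2) fun y _ => (k_pos H hS y).le

/-! ### the functional -/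

theorem WU_nonneg (W : Rn X) (κ : X → ℝ) (t : ℝ) (G : Matrix X X ℂ) : 0 ≤ W.U κ Go t G := by
  unfold Rn.U
  refine add_nonneg (add_nonneg ?_ ?_) (Real.exp_pos _).le
  · exact Finset.sum_nonneg fun x _ => Finset.sum_nonneg fun y _ => pe_nonneg _ _ _
  · exact Finset.sum_nonneg fun x _ => (Real.exp_pos _).le

theorem U_nonneg (T : Cfg X) : 0 ≤ A.U T Qr Go := by
  unfold Pa.U
  refine add_nonneg (add_nonneg ?_ ?_) (Real.exp_pos _).le
  · exact Finset.sum_nonneg fun x _ => Finset.sum_nonneg fun y _ => pe_nonneg _ _ _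
  · exact Finset.sum_nonneg fun x _ => (Real.exp_pos _).le

theorem U_le_Ue (hD : D ⊆ A.al T) (ζ : X → ℝ) :
    A.U (T.kl D ζ) Qr Go ≤ A.Ue T D Qr Go ζ := by
  unfold Pa.Ue Pa.U Rn.U
  simp only [Pa.W]
  rw [al_kl, buM_kl A T D ζ hD]
  refine add_le_add (add_le_add ?_ ?_) le_rfl
  · refine le_trans (Finset.sum_le_sum_of_subset_of_nonneg
      (Finset.union_subset_union Finset.sdiff_subset (Finset.Subset.refl Qr)) fun x _ _ =>
        Finset.sum_nonneg fun y _ => pe_nonneg _ _ _) ?_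
    refine Finset.sum_le_sum fun x _ => ?_
    refine le_trans (Finset.sum_le_sum_of_subset_of_nonneg Finset.sdiff_subset fun y _ _ =>
      pe_nonneg _ _ _) ?_
    refine Finset.sum_le_sum fun y _ => ?_
    rw [bud_kl A T D ζ hD]
  · refine le_trans (Finset.sum_le_sum_of_subset_of_nonneg Finset.sdiff_subset fun y _ _ =>
      (Real.exp_pos _).le) ?_
    refine Finset.sum_le_sum fun y _ => ?_
    rw [bum_kl A T D ζ hD]

theorem U0_le (H : A.Hyp κs g₀ Λ Lc hK kI) (hS : A.St T Qr Go) :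
    (A.W T D Qr).U (A.k T) Go 0 (A.G T) ≤ A.U T Qr Go := by
  unfold Pa.U Rn.U
  simp only [Pa.W, mul_zero, sub_zero]
  have hk : ∀ y ∈ A.al T, 0 ≤ A.k T y := fun y _ => (k_pos H hS y).le
  refine add_le_add (add_le_add le_rfl ?_) ?_
  · refine Finset.sum_le_sum fun x _ => Real.exp_le_exp.2 ?_
    have := mul_le_mul_of_nonneg_left (sub_le_sub_right (mx_mono (A.G T) Go x
      (Finset.sdiff_subset (t := D)) (fun _ _ => rfl) hk) A.εm) H.pos.2.2.2.2.2.2.2.2.1.le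
    linarith
  · refine Real.exp_le_exp.2 ?_
    have := mul_le_mul_of_nonneg_left (sub_le_sub_right (MM_mono (A.G T) Go
      (Finset.sdiff_subset (t := D)) (fun _ _ => rfl) hk) A.εM)
      H.pos.2.2.2.2.2.2.2.2.2.2.2.1.le
    linarith

/-! ### measurability -/

theorem meas_pe (l B : ℝ) (f : (X → ℝ) → ℂ) (hf : Measurable f) :
    Measurable fun ζ => pe l B (f ζ) := by
  unfold pe
  have h1 : Measurable fun ζ => l * (f ζ).re := (Complex.measurable_re.comp hf).const_mul l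
  have h2 : Measurable fun ζ => l * (f ζ).im := (Complex.measurable_im.comp hf).const_mul l
  have h3 : Measurable fun ζ => Real.cosh (l * (f ζ).re) := Real.measurable_cosh.comp h1
  have h4 : Measurable fun ζ => Real.cosh (l * (f ζ).im) := Real.measurable_cosh.comp h2
  exact (h3.add h4).const_mul _

theorem meas_mx (κ : X → ℝ) (S : Finset X) (G : (X → ℝ) → Matrix X X ℂ)
    (hG : ∀ a b, Measurable fun ζ => G ζ a b) (x : X) :
    Measurable fun ζ => mx κ S (G ζ) Go x := by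
  unfold mx
  refine Finset.measurable_fun_sum _ fun y _ => ?_
  have h1 : Measurable fun ζ => G ζ x y - Go x y := (hG x y).sub_const _
  have h2 : Measurable fun ζ => ‖G ζ x y - Go x y‖ := h1.norm
  exact (h2.pow_const 2).const_mul _

theorem meas_MM (κ : X → ℝ) (S : Finset X) (G : (X → ℝ) → Matrix X X ℂ)
    (hG : ∀ a b, Measurable fun ζ => G ζ a b) :
    Measurable fun ζ => MM κ S (G ζ) Go := by
  unfold MM
  exact Finset.measurable_fun_sum _ fun x _ => (meas_mx κ S G hG x).const_mul _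

theorem meas_WU (W : Rn X) (κ : X → ℝ) (t : ℝ) (G : (X → ℝ) → Matrix X X ℂ)
    (hG : ∀ a b, Measurable fun ζ => G ζ a b) :
    Measurable fun ζ => W.U κ Go t (G ζ) := by
  unfold Rn.U
  refine Measurable.add (Measurable.add ?_ ?_) ?_
  · refine Finset.measurable_fun_sum _ fun x _ => Finset.measurable_fun_sum _ fun y _ => ?_
    exact meas_pe _ _ _ ((hG x y).sub_const _)
  · refine Finset.measurable_fun_sum _ fun x _ => Real.measurable_exp.comp ?_
    exact (((meas_mx κ W.A₃ G hG x).sub_const _).const_mul _).const_add _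
  · refine Real.measurable_exp.comp ?_
    exact (((meas_MM κ W.A₃ G hG).sub_const _).const_mul _).const_add _

theorem meas_Ue (hG : ∀ a b, Measurable fun ζ : X → ℝ => A.G (T.kl D ζ) a b) :
    Measurable fun ζ => A.Ue T D Qr Go ζ :=
  meas_WU (A.W T D Qr) (A.k (T.kl D 0)) A.v (fun ζ => A.G (T.kl D ζ)) hG

theorem meas_U (hD : D ⊆ A.al T) (hG : ∀ a b, Measurable fun ζ : X → ℝ => A.G (T.kl D ζ) a b) :
    Measurable fun ζ => A.U (T.kl D ζ) Qr Go := by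
  have e1 : ∀ ζ, A.al (T.kl D ζ) = A.al T \ D := fun ζ => al_kl A T D ζ
  have e2 : ∀ ζ, A.bud (T.kl D ζ) = A.bud (T.kl D 0) := fun ζ => by
    funext x y
    rw [bud_kl A T D ζ hD, bud_kl A T D 0 hD]
  have e3 : ∀ ζ, A.bum (T.kl D ζ) = A.bum (T.kl D 0) := fun ζ => by
    funext x
    rw [bum_kl A T D ζ hD, bum_kl A T D 0 hD]
  have e4 : ∀ ζ, A.buM (T.kl D ζ) = A.buM (T.kl D 0) := fun ζ => by
    rw [buM_kl A T D ζ hD, buM_kl A T D 0 hD]
  have e5 : ∀ ζ, A.k (T.kl D ζ) = A.k (T.kl D 0) := fun ζ => rfl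
  unfold Pa.U
  simp only [e1, e2, e3, e4, e5]
  refine Measurable.add (Measurable.add ?_ ?_) ?_
  · refine Finset.measurable_fun_sum _ fun x _ => Finset.measurable_fun_sum _ fun y _ => ?_
    exact meas_pe _ _ _ ((hG x y).sub_const _)
  · refine Finset.measurable_fun_sum _ fun x _ => Real.measurable_exp.comp ?_
    exact (((meas_mx _ _ (fun ζ => A.G (T.kl D ζ)) hG x).sub_const _).const_mul _).const_add _
  · refine Real.measurable_exp.comp ?_
    exact (((meas_MM _ _ (fun ζ => A.G (T.kl D ζ)) hG).sub_const _).const_mul _).const_add _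

/-! ### one run -/

theorem cs_nonneg {l δ p p' : ℝ} (hl : 0 ≤ l) (hδ : 0 ≤ δ) (hp : 0 ≤ p) (hp' : 0 ≤ p') :
    0 ≤ cs l δ p p' := by
  unfold cs
  positivity

theorem cm_nonneg {lm εm δ gb p : ℝ} (hl : 0 ≤ lm) (hε : 0 ≤ εm) (hδ : 0 ≤ δ) (hg : 0 ≤ gb)
    (hp : 0 ≤ p) : 0 ≤ cm lm εm δ gb p := by
  unfold cm
  positivity

theorem cM_nonneg {lM εM δ gb : ℝ} (hl : 0 ≤ lM) (hε : 0 ≤ εM) (hδ : 0 ≤ δ) (hg : 0 ≤ gb) :
    0 ≤ cM lM εM δ gb := by
  unfold cM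
  positivity

theorem p_nonneg (H : A.Hyp κs g₀ Λ Lc hK kI) {x : X} (hx : x ∈ A.R ∪ A.Q) (c : X) :
    0 ≤ A.p x c := add_nonneg (norm_nonneg _) (H.le x hx).2.2

theorem al_R {x : X} (hx : x ∈ A.al T) : x ∈ A.R := (Finset.mem_filter.1 hx).1

theorem A1_RQ (hS : A.St T Qr Go) {x : X} (hx : x ∈ A.al T ∪ Qr) : x ∈ A.R ∪ A.Q := by
  rcases Finset.mem_union.1 hx with h | h
  · exact Finset.mem_union_left _ (al_R h)
  · exact Finset.mem_union_right _ (hS.sub h)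

/-- the change of the reference matrix, in terms of `Q` -/
theorem go_J (H : A.Hyp κs g₀ Λ Lc hK kI) (hS : A.St T Qr Go) {x c : X} (hx : x ∈ A.al T ∪ Qr)
    (hc : c ∈ A.al T) : ‖Go x c - A.G A.T₀ x c‖ + 2 * A.ε x ≤ A.J x := by
  have h1 := hS.go x hx c hc
  have h2 := H.jj x (A1_RQ hS hx)
  have h3 : (if x ∈ Qr then (A.k A.T₀ x)⁻¹ else A.dT) =
      if x ∈ A.Q then (A.k A.T₀ x)⁻¹ else A.dT := by
    rcases Finset.mem_union.1 hx with h | h
    · have hq : x ∉ A.Q := Finset.disjoint_left.1 H.dis (al_R h)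
      rw [if_neg hq, if_neg fun h' => hq (hS.sub h')]
    · rw [if_pos h, if_pos (hS.sub h)]
  rw [h3] at h1
  have h4 : ((A.Q \ Qr).card : ℝ) ≤ A.Q.card := by
    exact_mod_cast Finset.card_le_card Finset.sdiff_subset
  have h5 := mul_le_mul_of_nonneg_right h4 (mul_nonneg zero_le_two (Real.sqrt_nonneg (A.dT *
    if x ∈ A.Q then (A.k A.T₀ x)⁻¹ else A.dT)))
  linarith only [h1, h2, h5]

/-- the budgets are nonnegative during the run -/
theorem bud_run (H : A.Hyp κs g₀ Λ Lc hK kI) (hS : A.St T Qr Go) (hD : D ⊆ A.al T)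
    (hN : (A.kd T).card + D.card ≤ A.N) {t : ℝ} (ht : t ≤ A.v) :
    (∀ x ∈ A.al T ∪ Qr, ∀ y ∈ A.al T,
      0 ≤ A.bud T x y - (∑ c ∈ D, cs (A.l x) A.δ (A.p x c) (A.p y c)) * t) ∧
    (∀ x ∈ A.al T, 0 ≤ A.bum T x - (∑ c ∈ D, cm A.lm A.εm A.δ A.gb (A.p x c)) * t) ∧
    0 ≤ A.buM T - ((D.card : ℝ) * cM A.lM A.εM A.δ A.gb) * t := by
  obtain ⟨-, -, hv, -, -, -, hδ, hgb, hlm, hεm, -, hlM, hεM⟩ := H.pos
  have hv' : (0 : ℝ) ≤ A.v := NNReal.coe_nonneg _
  have hsub : A.kd T ∪ D ⊆ A.R := by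
    refine Finset.union_subset (Finset.filter_subset _ _) fun c hc => mem_R hD hc
  have hcard : (A.kd T ∪ D).card ≤ A.N := le_trans (Finset.card_union_le _ _) hN
  obtain ⟨b1, b2⟩ := H.bu (A.kd T ∪ D) hsub hcard
  refine ⟨fun x hx y hy => ?_, fun x hx => ?_, ?_⟩
  · have hxR := A1_RQ hS hx
    have hyR := al_R hy
    have h1 := b1 x hxR y hyR
    rw [Finset.sum_union (kd_disj A T D hD)] at h1
    have h2 : 0 ≤ ∑ c ∈ D, cs (A.l x) A.δ (A.p x c) (A.p y c) :=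
      Finset.sum_nonneg fun c _ => cs_nonneg (H.le x hxR).1.le hδ (p_nonneg H hxR c)
        (p_nonneg H (Finset.mem_union_left _ hyR) c)
    have h3 := mul_le_mul_of_nonneg_left ht h2
    unfold Pa.bud
    nlinarith only [h1, h3]
  · have hxR := al_R hx
    have h1 := b2 x hxR
    rw [Finset.sum_union (kd_disj A T D hD)] at h1
    have h2 : 0 ≤ ∑ c ∈ D, cm A.lm A.εm A.δ A.gb (A.p x c) :=
      Finset.sum_nonneg fun c _ => cm_nonneg hlm.le hεm.le hδ hgb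
        (p_nonneg H (Finset.mem_union_left _ hxR) c)
    have h3 := mul_le_mul_of_nonneg_left ht h2
    unfold Pa.bum
    nlinarith only [h1, h3]
  · have h1 := H.buM
    have h2 : 0 ≤ cM A.lM A.εM A.δ A.gb := cM_nonneg hlM.le hεM.le hδ hgb
    have h3 : ((A.kd T).card : ℝ) + D.card ≤ A.N := by exact_mod_cast hN
    have h4 : (D.card : ℝ) * cM A.lM A.εM A.δ A.gb * t ≤
        (D.card : ℝ) * cM A.lM A.εM A.δ A.gb * A.v :=
      mul_le_mul_of_nonneg_left ht (mul_nonneg (Nat.cast_nonneg _) h2)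
    have h5 := mul_le_mul_of_nonneg_left (mul_le_mul_of_nonneg_right h3 h2) hv'
    unfold Pa.buM
    nlinarith only [h1, h4, h5]

theorem s_v (_H : A.Hyp κs g₀ Λ Lc hK kI) (hS : A.St T Qr Go) {c : X} (hc : c ∈ A.al T) :
    T.s c = A.v := by
  rcases hS.run c (al_R hc) with h | h
  · exact absurd h (Finset.mem_filter.1 hc).2
  · exact h.2

/-- the functional along the run -/
def uu (A : Pa X) (T : Cfg X) (D Qr : Finset X) (Go : Matrix X X ℂ) (r : ℝ × (D → ℝ)) : ℝ :=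
  (A.W T D Qr).U (kr A.η A.e0 A.v T D r.1) Go r.1 (Gk A.Hm A.η A.e0 A.v T D r)

theorem pe_lt {r : ℝ × (D → ℝ)} (h : uu A T D Qr Go r < 1) {x y : X} (hx : x ∈ A.al T ∪ Qr)
    (hy : y ∈ A.al T) :
    pe (A.l x) (A.bud T x y - (∑ c ∈ D, cs (A.l x) A.δ (A.p x c) (A.p y c)) * r.1 -
      A.l x * A.ε x) (Gk A.Hm A.η A.e0 A.v T D r x y - Go x y) < 1 := by
  refine lt_of_le_of_lt ?_ h
  unfold uu Rn.U
  simp only [Pa.W]
  set f : X → X → ℝ := fun x y => pe (A.l x) (A.bud T x y -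
    (∑ c ∈ D, cs (A.l x) A.δ (A.p x c) (A.p y c)) * r.1 - A.l x * A.ε x)
    (Gk A.Hm A.η A.e0 A.v T D r x y - Go x y) with hf
  have h1 : f x y ≤ ∑ y ∈ A.al T, f x y :=
    Finset.single_le_sum (f := fun y => f x y) (fun y _ => pe_nonneg _ _ _) hy
  have h2 : ∑ y ∈ A.al T, f x y ≤ ∑ x ∈ A.al T ∪ Qr, ∑ y ∈ A.al T, f x y :=
    Finset.single_le_sum (f := fun x => ∑ y ∈ A.al T, f x y)
      (fun x _ => Finset.sum_nonneg fun y _ => pe_nonneg _ _ _) hx
  refine le_trans (h1.trans h2) ?_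
  rw [add_assoc]
  refine le_add_of_nonneg_right (add_nonneg ?_ (Real.exp_pos _).le)
  exact Finset.sum_nonneg fun y _ => (Real.exp_pos _).le

theorem run_pt (hUJT : UjtStmt) (hRUN : RunStmt) (H : A.Hyp κs g₀ Λ Lc hK kI)
    (hS : A.St T Qr Go) (hD : D ⊆ A.al T) (hN : (A.kd T).card + D.card ≤ A.N)
    (r : ℝ × (D → ℝ)) (h0 : 0 ≤ r.1) (h1 : r.1 ≤ A.v) :
    0 ≤ uu A T D Qr Go r ∧ ContDiffAt ℝ 2 (uu A T D Qr Go) r ∧
      (uu A T D Qr Go r < 1 → LL (uu A T D Qr Go) r ≤ 0) := by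
  obtain ⟨he0, heη, hv, -, -, -, hδ, hgb, hlm, hεm, -, hlM, hεM⟩ := H.pos
  obtain ⟨hrun, -⟩ := hRUN X A.Hm A.η A.e0 A.v T D H.sym he0 heη hv
    (fun x hx => im_pos H hS x hx) (fun c hc => s_v H hS (hD hc))
  obtain ⟨hKJ, hkr, hW⟩ := hrun r h0 h1
  obtain ⟨b1, b2, b3⟩ := bud_run H hS hD hN h1
  have key := hUJT D X (fun c : D => (c : X)) r (Gk A.Hm A.η A.e0 A.v T D)
    (kr A.η A.e0 A.v T D) (Gk A.Hm A.η A.e0 A.v T D r) Go (kr A.η A.e0 A.v T D r.1)
    (fun x => (mg A.η A.e0 A.v T x).im)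
    (fun c => Gk A.Hm A.η A.e0 A.v T D r c c - mg A.η A.e0 A.v T c) (A.W T D Qr) A.δ A.gb
    hKJ hδ hgb Finset.sdiff_subset Finset.subset_union_left
    (fun c => ⟨hD c.2, fun h => (Finset.mem_sdiff.1 h).2 c.2⟩) (fun y _ => (hkr y).le)
    (fun x hx => ⟨(H.le x (A1_RQ hS hx)).1, (H.le x (A1_RQ hS hx)).2.1, fun c hc => by
      have h2 := go_J H hS hx hc
      have h3 : ‖Go x c‖ ≤ ‖A.G A.T₀ x c‖ + ‖Go x c - A.G A.T₀ x c‖ := by
        have := norm_add_le (A.G A.T₀ x c) (Go x c - A.G A.T₀ x c)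
        rwa [add_sub_cancel] at this
      show ‖Go x c‖ + 2 * A.ε x ≤ ‖A.G A.T₀ x c‖ + A.J x
      linarith only [h2, h3]⟩)
    hlm hεm hlM hεM b1 b2 b3
    (fun x _ y _ => le_of_eq (Finset.sum_coe_sort D fun c => cs (A.l x) A.δ (A.p x c) (A.p y c)))
    (fun x _ => le_of_eq (Finset.sum_coe_sort D fun c => cm A.lm A.εm A.δ A.gb (A.p x c)))
    (le_of_eq (by rw [Fintype.card_coe]; rfl)) ?_
  · exact ⟨key.1, key.2.1, key.2.2.1⟩
  · intro hU c
    have hcA : (c : X) ∈ A.al T := hD c.2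
    have hc1 : (c : X) ∈ A.al T ∪ Qr := Finset.mem_union_left _ hcA
    have hcR := al_R hcA
    have hl := H.le c (Finset.mem_union_left _ hcR)
    have h2 := pe_bound (A.l c) _ (A.ε c) _ hl.1 (b1 c hc1 c hcA) (pe_lt hU hc1 hcA)
    have h3 := go_J H hS hc1 hcA
    obtain ⟨d1, d2⟩ := H.dia c hcR
    have hm : mg A.η A.e0 A.v T c = mg A.η A.e0 A.v A.T₀ c := by
      unfold mg
      rw [hS.mb]
    constructor
    · have e1 : Gk A.Hm A.η A.e0 A.v T D r c c - mg A.η A.e0 A.v T c =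
          (Gk A.Hm A.η A.e0 A.v T D r c c - Go c c) + (Go c c - A.G A.T₀ c c) +
            (A.G A.T₀ c c - mg A.η A.e0 A.v A.T₀ c) := by
        rw [hm]
        ring
      have e2 := norm_add₃_le (a := Gk A.Hm A.η A.e0 A.v T D r c c - Go c c)
        (b := Go c c - A.G A.T₀ c c) (c := A.G A.T₀ c c - mg A.η A.e0 A.v A.T₀ c)
      show ‖Gk A.Hm A.η A.e0 A.v T D r c c - mg A.η A.e0 A.v T c‖ ≤ A.δ
      rw [e1]
      linarith only [h2, h3, d1, e2]
    · have e1 : Gk A.Hm A.η A.e0 A.v T D r c c =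
          (Gk A.Hm A.η A.e0 A.v T D r c c - Go c c) + (Go c c - A.G A.T₀ c c) +
            A.G A.T₀ c c := by
        ring
      have e2 := norm_add₃_le (a := Gk A.Hm A.η A.e0 A.v T D r c c - Go c c)
        (b := Go c c - A.G A.T₀ c c) (c := A.G A.T₀ c c)
      rw [← e1] at e2
      have e3 : ∑ y, kr A.η A.e0 A.v T D r.1 y * ‖Gk A.Hm A.η A.e0 A.v T D r c y‖ ^ 2 =
          (Gk A.Hm A.η A.e0 A.v T D r c c).im := by
        have := hW c c
        have h4 : ∀ y, (kr A.η A.e0 A.v T D r.1 y : ℂ) * (Gk A.Hm A.η A.e0 A.v T D r c y *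
            (starRingEnd ℂ) (Gk A.Hm A.η A.e0 A.v T D r c y)) =
            ((kr A.η A.e0 A.v T D r.1 y * ‖Gk A.Hm A.η A.e0 A.v T D r c y‖ ^ 2 : ℝ) : ℂ) := by
          intro y
          rw [Complex.mul_conj, Complex.normSq_eq_norm_sq]
          push_cast
          ring
        rw [Finset.sum_congr rfl fun y _ => h4 y, ← Complex.ofReal_sum] at this
        exact Complex.ofReal_injective this
      have e4 : ∑ y ∈ A.al T \ D, kr A.η A.e0 A.v T D r.1 y *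
          ‖Gk A.Hm A.η A.e0 A.v T D r c y‖ ^ 2 ≤
          ∑ y, kr A.η A.e0 A.v T D r.1 y * ‖Gk A.Hm A.η A.e0 A.v T D r c y‖ ^ 2 :=
        Finset.sum_le_sum_of_subset_of_nonneg (Finset.subset_univ _) fun y _ _ =>
          mul_nonneg (hkr y).le (sq_nonneg _)
      have e5 : (Gk A.Hm A.η A.e0 A.v T D r c c).im ≤ ‖Gk A.Hm A.η A.e0 A.v T D r c c‖ :=
        (le_abs_self _).trans (Complex.abs_im_le_norm _)
      show ∑ y ∈ A.al T \ D, kr A.η A.e0 A.v T D r.1 y *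
          ‖Gk A.Hm A.η A.e0 A.v T D r c y‖ ^ 2 ≤ A.gb
      linarith only [h2, h3, d2, e2, e3, e4, e5]

end st

end

/-- STK -/
theorem stk (hUJT : UjtStmt) (hRUN : RunStmt) (hMSR : MsrStmt) (hGUF : GufStmt)
    (hCUP : CupStmt) : StkStmt := by
  intro X _ _ A κs g₀ Λ Lc hK kI H T Qr D Go hS hD hDk hN
  obtain ⟨he0, heη, hv, -⟩ := H.pos
  obtain ⟨-, hG0, hk0, hend, hmeas⟩ := hRUN X A.Hm A.η A.e0 A.v T D H.sym he0 heη hv
    (fun x hx => im_pos H hS x hx) (fun c hc => s_v H hS (hD hc))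
  obtain ⟨hcC, hcM, hc1, -, -⟩ := hCUP
  have hcu : Continuous cu := hcC.continuous
  have hv0 : (0 : ℝ) ≤ A.v := NNReal.coe_nonneg _
  have hpt := fun (r : ℝ × (D → ℝ)) (h0 : 0 ≤ r.1) (h1 : r.1 ≤ A.v) =>
    run_pt hUJT hRUN H hS hD hN r h0 h1
  refine ⟨fun ζ => ⟨st_kl H hS hD hDk hN ζ, U_nonneg _, U_le_Ue hD ζ, kd_kl A T D ζ hD,
    al_kl A T D ζ⟩, meas_U hD hmeas, meas_Ue hmeas, ?_⟩
  have hUe : ∀ ζ : X → ℝ, A.Ue T D Qr Go ζ = uu A T D Qr Go ((A.v : ℝ), fun c => ζ c) := by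
    intro ζ
    unfold Pa.Ue uu
    rw [(hend ζ).1]
    show _ = (A.W T D Qr).U (kr A.η A.e0 A.v T D (A.v : ℝ)) Go (A.v : ℝ) _
    rw [(hend ζ).2]
    rfl
  have hcont : Continuous fun V : D → ℝ => uu A T D Qr Go ((A.v : ℝ), V) := by
    rw [continuous_iff_continuousAt]
    intro V
    have h1 : ContinuousAt (uu A T D Qr Go) ((A.v : ℝ), V) :=
      (hpt ((A.v : ℝ), V) hv0 le_rfl).2.1.continuousAt
    have h2 : ContinuousAt (fun V : D → ℝ => ((A.v : ℝ), V)) V :=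
      (continuous_const.prodMk continuous_id).continuousAt
    exact ContinuousAt.comp (f := fun V : D → ℝ => ((A.v : ℝ), V)) h1 h2
  have hFm : Measurable fun V : D → ℝ => ENNReal.ofReal (cu (uu A T D Qr Go ((A.v : ℝ), V))) :=
    (hcu.comp hcont).measurable.ennreal_ofReal
  have h1 := hMSR X T D A.v (fun V => ENNReal.ofReal (cu (uu A T D Qr Go ((A.v : ℝ), V)))) hFm
    (fun c hc => s_v H hS (hD hc))
  have h2 : ∫⁻ ζ, ENNReal.ofReal (cu (A.Ue T D Qr Go ζ)) ∂(gm (fun _ => 0) (T.kv D)) =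
      ∫⁻ V, ENNReal.ofReal (cu (uu A T D Qr Go ((A.v : ℝ), V)))
        ∂(Measure.pi fun _ : D => gaussianReal 0 A.v) := by
    rw [← h1]
    exact lintegral_congr fun ζ => by rw [hUe ζ]
  rw [h2]
  have h3 := hGUF D (A.v : ℝ) (uu A T D Qr Go) (by exact_mod_cast hv) (fun q h0 h1 => hpt q h0 h1)
  rw [Real.toNNReal_coe] at h3
  have hnn : ∀ V : D → ℝ, 0 ≤ cu (uu A T D Qr Go ((A.v : ℝ), V)) ∧
      cu (uu A T D Qr Go ((A.v : ℝ), V)) ≤ 1 := fun V =>
    ⟨(hc1 _ (hpt ((A.v : ℝ), V) hv0 le_rfl).1).1, (hc1 _ (hpt ((A.v : ℝ), V) hv0 le_rfl).1).2.1⟩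
  have hint : Integrable (fun V : D → ℝ => cu (uu A T D Qr Go ((A.v : ℝ), V)))
      (Measure.pi fun _ : D => gaussianReal 0 A.v) := by
    refine Integrable.mono' (integrable_const (1 : ℝ)) (hcu.comp hcont).aestronglyMeasurable ?_
    refine Filter.Eventually.of_forall fun V => ?_
    rw [Real.norm_eq_abs, abs_of_nonneg (hnn V).1]
    exact (hnn V).2
  rw [← ofReal_integral_eq_lintegral_ofReal hint
    (Filter.Eventually.of_forall fun V => (hnn V).1)]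
  refine ENNReal.ofReal_le_ofReal (h3.trans (hcM ?_))
  have h4 : uu A T D Qr Go (0, 0) = (A.W T D Qr).U (A.k T) Go 0 (A.G T) := by
    unfold uu
    have e1 : Gk A.Hm A.η A.e0 A.v T D (0, 0) = A.G T := hG0
    have e2 : kr A.η A.e0 A.v T D ((0 : ℝ), (0 : D → ℝ)).1 = A.k T := hk0
    rw [e1, e2]
  rw [h4]
  exact U0_le H hS

end Pool.Agent.ATT.H28
end
end -- Pool.Agent.Helper28_ATT.STK

section -- Pool.Agent.Helper41_ATT.PEB

/-! Tank ATT, rows PEB, MSR: bounds from `pe`; the noise of a kill run. -/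

set_option autoImplicit false

open MeasureTheory ProbabilityTheory Function Filter

open scoped ENNReal BigOperators Topology NNReal Matrix

noncomputable section

namespace Pool.Agent.ATT.H41

open Pool.Agent.ANP (Cfg gm Att)

lemma peb_1 (x : ℝ) : Real.exp |x| ≤ 2 * Real.cosh x := by
  rw [← Real.cosh_abs, Real.cosh_eq]
  have := Real.exp_pos (-|x|)
  linarith

theorem peb : PebStmt := by
  intro l B ε z hl
  have h0 : 0 ≤ pe l B z := by
    rw [pe]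
    have h1 := Real.cosh_pos (l * z.re)
    have h2 := Real.cosh_pos (l * z.im)
    positivity
  refine ⟨h0, fun hB h => ?_⟩
  have key : ∀ x y : ℝ, 2 * Real.exp (B - l * ε) * (Real.cosh (l * x) + Real.cosh (l * y)) < 1 →
      |x| < ε := by
    intro x y hxy
    have h1 := Real.cosh_pos (l * y)
    have h2 := peb_1 (l * x)
    have h3 := Real.exp_pos (B - l * ε)
    have h4 : Real.exp (B - l * ε) * Real.exp |l * x| < 1 := by
      have h5 : Real.exp (B - l * ε) * Real.exp |l * x| ≤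
          Real.exp (B - l * ε) * (2 * Real.cosh (l * x)) := mul_le_mul_of_nonneg_left h2 h3.le
      have h6 := mul_pos h3 h1
      nlinarith
    rw [← Real.exp_add, Real.exp_lt_one_iff, abs_mul, abs_of_pos hl] at h4
    have h5 : l * |x| < l * ε := by linarith
    exact lt_of_mul_lt_mul_left h5 hl.le
  have hre := key z.re z.im h
  have him := key z.im z.re (by rw [add_comm (Real.cosh (l * z.im))]; exact h)
  exact (Complex.norm_le_abs_re_add_abs_im z).trans (by linarith)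

theorem msr : MsrStmt := by
  intro X _ _ T D v F hF hT
  have h1 : (Measure.pi fun x => gaussianReal 0 (T.kv D x)).map D.restrict =
      Measure.pi fun i : D => gaussianReal 0 (T.kv D i) := by
    rw [← Measure.infinitePi_eq_pi, Measure.infinitePi_map_restrict]
  have h2 : (fun i : D => gaussianReal 0 (T.kv D i)) = fun _ : D => gaussianReal 0 v := by
    funext i
    rw [Cfg.kv, if_pos i.2, hT i i.2]
  have h3 : Measurable (D.restrict : (X → ℝ) → (D → ℝ)) := D.measurable_restrict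
  rw [← h2, ← h1, lintegral_map hF h3]
  rfl

end Pool.Agent.ATT.H41
end
end -- Pool.Agent.Helper41_ATT.PEB

section -- Pool.Agent.Helper75_ATT.MXJ

/-!
# MXJ: the jet of `mx` (helper75)
-/

set_option autoImplicit false

open MeasureTheory ProbabilityTheory Function Filter

open scoped ENNReal BigOperators Topology NNReal Matrix

noncomputable section

namespace Pool.Agent.ATT.H75

open Pool.Agent.LE.QF (HJ HM gG LL dC)
open Pool.Agent.KIL (KJ)

theorem hj_congr {ι E : Type} [Fintype ι] [DecidableEq ι] [NormedAddCommGroup E]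
    [NormedSpace ℝ E] {F F' : ℝ × (ι → ℝ) → E} {q : ℝ × (ι → ℝ)} {v v' : E} {g g' : ι → E}
    {l l' : E} (h : HJ F q v g l) (hF : ∀ r, F r = F' r) (hv : v = v') (hg : ∀ c, g c = g' c)
    (hl : l = l') : HJ F' q v' g' l' := by
  have e : F = F' := funext hF
  subst e
  exact ⟨h.sm, h.vl.trans hv, fun c => (h.gr c).trans (hg c), h.ge.trans hl⟩

theorem mxj_y (jal : Pool.Agent.LE.QF.JalStmt) {ι X : Type} [Fintype ι] [DecidableEq ι]
    [Fintype X] [DecidableEq X] (e : ι → X)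
    (q : ℝ × (ι → ℝ)) (Gm : ℝ × (ι → ℝ) → Matrix X X ℂ) (kp : ℝ → X → ℝ) (G Go : Matrix X X ℂ)
    (κ g : X → ℝ) (μ : ι → ℂ) (x : X) (h : KJ e q Gm kp G κ g μ) (y : X)
    (hy : y ∉ Set.range e) :
    HJ (fun r => kp r.1 y * ‖Gm r x y - Go x y‖ ^ 2) q (κ y * ‖G x y - Go x y‖ ^ 2)
      (fun c => κ y * (-(2 * ((starRingEnd ℂ) (G x y - Go x y) *
        (G x (e c) * G (e c) y)).re)))
      (κ y * (2 * ((starRingEnd ℂ) (G x y - Go x y) * ∑ c, G x (e c) * μ c * G (e c) y).re +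
        ∑ c, ‖G x (e c)‖ ^ 2 * ‖G (e c) y‖ ^ 2)) := by
  have hC := jal ι ℂ q
  have hR := jal ι ℝ q
  have h1 : HJ (fun r => Gm r x y - Go x y) q (G x y - Go x y)
      (fun c => gG G (e c) x y - 0) (∑ c, G x (e c) * μ c * G (e c) y - 0) :=
    (hC.2.2.1 _ _ _ _ _ _ _ _ (h.hG x y) (hC.1 (Go x y))).2.1
  have h2 := (hC.2.2.2.1 _ _ _ _ h1).1
  have h3 := (hC.2.2.1 _ _ _ _ _ _ _ _ h1 h2).2.2
  have h4 := (hC.2.2.2.1 _ _ _ _ h3).2.1
  have h5 := hR.2.2.2.2.2.2.1 (fun t => kp t y) (h.hk y).1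
  have h6 := (hR.2.2.1 _ _ _ _ _ _ _ _ h5 h4).2.2
  have hd : deriv (fun t => kp t y) q.1 = 0 := h.hd0 y hy
  have hns : ∀ z : ℂ, (z * (starRingEnd ℂ) z).re = ‖z‖ ^ 2 := by
    intro z
    rw [Complex.mul_conj, Complex.ofReal_re, Complex.normSq_eq_norm_sq]
  refine hj_congr h6 (fun r => ?_) ?_ (fun c => ?_) ?_
  · show kp r.1 y * ((Gm r x y - Go x y) * (starRingEnd ℂ) (Gm r x y - Go x y)).re = _
    rw [hns]
  · show kp q.1 y * ((G x y - Go x y) * (starRingEnd ℂ) (G x y - Go x y)).re = _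
    rw [hns, (h.hk y).2]
  · show kp q.1 y * ((G x y - Go x y) * (starRingEnd ℂ) (-(G x (e c) * G (e c) y) - 0) +
        (-(G x (e c) * G (e c) y) - 0) * (starRingEnd ℂ) (G x y - Go x y)).re + 0 * _ = _
    rw [(h.hk y).2, zero_mul, add_zero, sub_zero]
    congr 1
    simp only [Complex.add_re, Complex.mul_re, Complex.neg_re, Complex.neg_im, Complex.conj_re,
      Complex.conj_im, Complex.mul_im, map_neg]
    ring
  · show kp q.1 y * ((G x y - Go x y) * (starRingEnd ℂ) (∑ c, G x (e c) * μ c * G (e c) y - 0) +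
        (∑ c, G x (e c) * μ c * G (e c) y - 0) * (starRingEnd ℂ) (G x y - Go x y) +
        ∑ c, (gG G (e c) x y - 0) * (starRingEnd ℂ) (gG G (e c) x y - 0)).re +
        deriv (fun t => kp t y) q.1 * _ + ∑ c : ι, (0 : ℝ) * _ = _
    rw [hd, zero_mul, add_zero, (h.hk y).2]
    have e0 : ∀ w : ι → ℝ, ∑ c : ι, (0 : ℝ) * w c = 0 := fun w =>
      Finset.sum_eq_zero fun c _ => zero_mul _
    rw [e0, add_zero]
    congr 1
    rw [Complex.add_re, Complex.re_sum]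
    congr 1
    · rw [sub_zero, Complex.add_re]
      have e1 : ∀ a b : ℂ, (a * (starRingEnd ℂ) b).re + (b * (starRingEnd ℂ) a).re =
          2 * ((starRingEnd ℂ) a * b).re := by
        intro a b
        simp only [Complex.mul_re, Complex.conj_re, Complex.conj_im]
        ring
      exact e1 _ _
    · refine Finset.sum_congr rfl fun c _ => ?_
      rw [sub_zero, hns]
      show ‖-(G x (e c) * G (e c) y)‖ ^ 2 = _
      rw [norm_neg, norm_mul, mul_pow]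

theorem mxj (jal : Pool.Agent.LE.QF.JalStmt) : MxjStmt := by
  intro ι X _ _ _ _ e q Gm kp G Go κ g μ A₃ x h he
  have h1 : ∀ y ∈ A₃, _ := fun y hy => mxj_y jal e q Gm kp G Go κ g μ x h y (by
    rintro ⟨c, hc⟩
    exact he c (hc ▸ hy))
  have h2 := (jal ι ℝ q).2.2.2.2.2.1 X A₃ _ _ _ _ h1
  refine ⟨_, _, h2, ?_⟩
  intro M gb hκ hM hgb hG
  -- the basic sums
  have hS : ∀ c, (∑ y ∈ A₃, κ y * (‖G x y - Go x y‖ * ‖G (e c) y‖)) ^ 2 ≤ M * gb := by
    intro c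
    have h3 := Finset.sum_sq_le_sum_mul_sum_of_sq_eq_mul A₃
      (r := fun y => κ y * (‖G x y - Go x y‖ * ‖G (e c) y‖))
      (f := fun y => κ y * ‖G x y - Go x y‖ ^ 2) (g := fun y => κ y * ‖G (e c) y‖ ^ 2)
      (fun y hy => mul_nonneg (hκ y hy) (sq_nonneg _))
      (fun y hy => mul_nonneg (hκ y hy) (sq_nonneg _)) (fun y hy => by ring)
    refine h3.trans ?_
    exact mul_le_mul hM (hG c) (Finset.sum_nonneg fun y hy => mul_nonneg (hκ y hy) (sq_nonneg _))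
      ((Finset.sum_nonneg fun y hy => mul_nonneg (hκ y hy) (sq_nonneg _)).trans hM)
  have hS0 : ∀ c, 0 ≤ ∑ y ∈ A₃, κ y * (‖G x y - Go x y‖ * ‖G (e c) y‖) := fun c =>
    Finset.sum_nonneg fun y hy => mul_nonneg (hκ y hy) (by positivity)
  have hS1 : ∀ c, ∑ y ∈ A₃, κ y * (‖G x y - Go x y‖ * ‖G (e c) y‖) ≤ Real.sqrt (M * gb) :=
    fun c => Real.le_sqrt_of_sq_le (hS c)
  constructor
  · -- the generator
    have h4 : ∀ y ∈ A₃, κ y * (2 * ((starRingEnd ℂ) (G x y - Go x y) *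
        ∑ c, G x (e c) * μ c * G (e c) y).re + ∑ c, ‖G x (e c)‖ ^ 2 * ‖G (e c) y‖ ^ 2) ≤
        ∑ c, (2 * ‖μ c‖ * ‖G x (e c)‖ * (κ y * (‖G x y - Go x y‖ * ‖G (e c) y‖)) +
          ‖G x (e c)‖ ^ 2 * (κ y * ‖G (e c) y‖ ^ 2)) := by
      intro y hy
      have h5 : ((starRingEnd ℂ) (G x y - Go x y) * ∑ c, G x (e c) * μ c * G (e c) y).re ≤
          ∑ c, ‖μ c‖ * ‖G x (e c)‖ * (‖G x y - Go x y‖ * ‖G (e c) y‖) := by
        rw [Finset.mul_sum, Complex.re_sum]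
        refine Finset.sum_le_sum fun c _ => ?_
        refine (Complex.re_le_norm _).trans (le_of_eq ?_)
        rw [norm_mul, norm_mul, norm_mul, RCLike.norm_conj]
        ring
      have h6 : κ y * (2 * ((starRingEnd ℂ) (G x y - Go x y) *
          ∑ c, G x (e c) * μ c * G (e c) y).re + ∑ c, ‖G x (e c)‖ ^ 2 * ‖G (e c) y‖ ^ 2) ≤
          κ y * (2 * (∑ c, ‖μ c‖ * ‖G x (e c)‖ * (‖G x y - Go x y‖ * ‖G (e c) y‖)) +
            ∑ c, ‖G x (e c)‖ ^ 2 * ‖G (e c) y‖ ^ 2) :=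
        mul_le_mul_of_nonneg_left (by linarith) (hκ y hy)
      refine h6.trans (le_of_eq ?_)
      rw [Finset.mul_sum, ← Finset.sum_add_distrib, Finset.mul_sum]
      refine Finset.sum_congr rfl fun c _ => ?_
      ring
    refine (Finset.sum_le_sum h4).trans ?_
    rw [Finset.sum_comm]
    refine Finset.sum_le_sum fun c _ => ?_
    rw [Finset.sum_add_distrib, ← Finset.mul_sum, ← Finset.mul_sum]
    refine add_le_add ?_ ?_
    · exact mul_le_mul_of_nonneg_left (hS1 c) (by positivity)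
    · exact mul_le_mul_of_nonneg_left (hG c) (by positivity)
  · intro c
    have h7 : |∑ y ∈ A₃, κ y * (-(2 * ((starRingEnd ℂ) (G x y - Go x y) *
        (G x (e c) * G (e c) y)).re))| ≤
        2 * ‖G x (e c)‖ * ∑ y ∈ A₃, κ y * (‖G x y - Go x y‖ * ‖G (e c) y‖) := by
      refine (Finset.abs_sum_le_sum_abs _ _).trans ?_
      rw [Finset.mul_sum]
      refine Finset.sum_le_sum fun y hy => ?_
      rw [abs_mul, abs_of_nonneg (hκ y hy), abs_neg, abs_mul, abs_two]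
      have h8 : |((starRingEnd ℂ) (G x y - Go x y) * (G x (e c) * G (e c) y)).re| ≤
          ‖G x y - Go x y‖ * (‖G x (e c)‖ * ‖G (e c) y‖) := by
        refine (Complex.abs_re_le_norm _).trans (le_of_eq ?_)
        rw [norm_mul, norm_mul, RCLike.norm_conj]
      calc κ y * (2 * |((starRingEnd ℂ) (G x y - Go x y) * (G x (e c) * G (e c) y)).re|)
          ≤ κ y * (2 * (‖G x y - Go x y‖ * (‖G x (e c)‖ * ‖G (e c) y‖))) :=
            mul_le_mul_of_nonneg_left (by linarith) (hκ y hy)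
        _ = _ := by ring
    have h9 := sq_le_sq' (by linarith [neg_abs_le (∑ y ∈ A₃, κ y *
      (-(2 * ((starRingEnd ℂ) (G x y - Go x y) * (G x (e c) * G (e c) y)).re)))])
      ((le_abs_self _).trans h7)
    refine h9.trans ?_
    have h10 : (2 * ‖G x (e c)‖ * ∑ y ∈ A₃, κ y * (‖G x y - Go x y‖ * ‖G (e c) y‖)) ^ 2 =
        4 * (‖G x (e c)‖ ^ 2 * (∑ y ∈ A₃, κ y * (‖G x y - Go x y‖ * ‖G (e c) y‖)) ^ 2) := by
      ring
    rw [h10]
    exact mul_le_mul_of_nonneg_left (mul_le_mul_of_nonneg_left (hS c) (sq_nonneg _))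
      (by norm_num)

end Pool.Agent.ATT.H75
end
end -- Pool.Agent.Helper75_ATT.MXJ

section -- Pool.Agent.Helper76_ATT.ATA

/-!
# Helper76, row ATA of the tank ATT: the attempt from the phases
-/

set_option autoImplicit false

open MeasureTheory ProbabilityTheory Function Filter

open scoped ENNReal BigOperators Topology NNReal Matrix

noncomputable section

namespace Pool.Agent.ATT.H76

open Pool.Agent.LE.QF (HJ HM gG LL dC)
open Pool.Agent.KIL (KJ KGd Cut gam aa yn ym cu)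
open Pool.Agent.ANP (Cfg gm Att)

variable {X : Type} [Fintype X] [DecidableEq X]

lemma pe_nonneg (l B : ℝ) (z : ℂ) : 0 ≤ pe l B z := by
  unfold pe
  have h1 := Real.cosh_pos (l * z.re)
  have h2 := Real.cosh_pos (l * z.im)
  have h3 := Real.exp_pos B
  positivity

lemma U_nonneg (A : Pa X) (T : Cfg X) (Qr : Finset X) (Go : Matrix X X ℂ) : 0 ≤ A.U T Qr Go := by
  unfold Pa.U
  refine add_nonneg (add_nonneg ?_ ?_) (Real.exp_pos _).le
  · exact Finset.sum_nonneg fun x _ => Finset.sum_nonneg fun y _ => pe_nonneg _ _ _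
  · exact Finset.sum_nonneg fun x _ => (Real.exp_pos _).le

omit [Fintype X] [DecidableEq X] in
lemma mx_self (κ : X → ℝ) (S : Finset X) (G : Matrix X X ℂ) (x : X) : mx κ S G G x = 0 := by
  simp [mx]

omit [Fintype X] [DecidableEq X] in
lemma MM_self (κ : X → ℝ) (S : Finset X) (G : Matrix X X ℂ) : MM κ S G G = 0 := by
  simp [MM, mx_self]

/-- the phases one after the other -/
lemma phases (hRvs : RvsStmt) (hCup : CupStmt) (A : Pa X) (κs g₀ Λ Lc hK kI p B : ℝ) (nP : ℕ)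
    (hA : A.Hyp κs g₀ Λ Lc hK kI) (hp : 0 ≤ p) (hB : 0 ≤ B) (hph : PhsAt A hK nP p B)
    (Okf : Cfg X → Prop)
    (hok : ∀ (T' : Cfg X) (Go : Matrix X X ℂ), A.St T' ∅ Go → A.U T' ∅ Go < 1 →
      (∀ b ∈ A.Q, ∀ x ∈ A.al T', A.k A.T₀ b * ‖A.G A.T₀ b x‖ ^ 2 ≤ hK) → Okf T') :
    ∀ (n : ℕ) (T : Cfg X) (Qr : Finset X) (Go : Matrix X X ℂ), Qr.card = n → A.St T Qr Go →
      (A.kd T).card + n * nP ≤ A.N →
      (∀ b ∈ A.Q, ∀ c ∈ A.al T, A.k A.T₀ b * ‖A.G A.T₀ b c‖ ^ 2 ≤ hK) →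
      Att A.Rk A.Q A.val Okf T (ENNReal.ofReal (n * p + (1 + n * B) * cu (A.U T Qr Go))) := by
  obtain ⟨-, hmono, hc0, hc1, -⟩ := hCup
  intro n
  induction n with
  | zero =>
    intro T Qr Go hcard hSt hN hl
    have hQr : Qr = ∅ := Finset.card_eq_zero.1 hcard
    subst hQr
    by_cases hU : A.U T ∅ Go < 1
    · exact Att.mono T 0 _ (zero_le) (Att.ok T (hok T Go hSt hU hl))
    · push Not at hU
      refine Att.mono T 1 _ ?_ (Att.one T)
      rw [hc1 _ hU]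
      simp
  | succ n ih =>
    intro T Qr Go hcard hSt hN hl
    obtain ⟨b, hb⟩ : Qr.Nonempty := by
      rw [← Finset.card_pos, hcard]; omega
    have h := hph T Qr Go b hSt hb (hl b (hSt.sub hb)) (by nlinarith only [hN]) Okf (n * p) (1 + n * B)
      (by positivity) (by positivity) ?_
    · have e : (n : ℝ) * p + p + (1 + n * B + B) * cu (A.U T Qr Go) =
          ((n + 1 : ℕ) : ℝ) * p + (1 + ((n + 1 : ℕ) : ℝ) * B) * cu (A.U T Qr Go) := by
        push_cast; ring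
      rw [e] at h
      exact h
    · intro T' hSt' hal hkd hU' hlt
      obtain ⟨r1, r2, r3, r4⟩ := hRvs X A κs g₀ Λ Lc hK kI hA T' Qr Go b hSt' hb hlt
      refine Att.ap T' b _ (hSt'.sub hb) ?_
      have hcard' : (Qr.erase b).card = n := by
        rw [Finset.card_erase_of_mem hb, hcard]; rfl
      have h2 := ih (T'.rv {b} A.val) (Qr.erase b) _ hcard' r1 (by
        rw [r4]; nlinarith only [hN, hkd]) (by
        intro b' hb' c hc
        rw [r3] at hc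
        exact hl b' hb' c (hal hc))
      refine Att.mono _ _ _ ?_ h2
      apply ENNReal.ofReal_le_ofReal
      have h3 := hmono r2
      have h4 : (0 : ℝ) ≤ 1 + n * B := by positivity
      nlinarith only [mul_le_mul_of_nonneg_left h3 h4]

theorem ata (hStk : StkStmt) (hRvs : RvsStmt) (hCup : CupStmt) : AtaStmt := by
  intro X _ _ A κs g₀ Λ Lc hK kI p B nP hA hp hB hph hN Okf hok
  classical
  set D : Finset X := ({x ∈ A.R | ∃ b ∈ A.Q, hK < A.k A.T₀ b * ‖A.G A.T₀ b x‖ ^ 2} : Finset X)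
    with hD
  have hpos := hA.pos
  have hv : A.v ≠ 0 := hpos.2.2.1.ne'
  have hal : A.al A.T₀ = A.R := by
    unfold Pa.al
    rw [Finset.filter_eq_self]
    intro x hx
    rw [(hA.hR x hx).1]
    exact hv
  have hkd : A.kd A.T₀ = ∅ := by
    unfold Pa.kd
    rw [Finset.filter_eq_empty_iff]
    intro x hx
    rw [(hA.hR x hx).1]
    exact hv
  have hSt : A.St A.T₀ A.Q (A.G A.T₀) := by
    refine ⟨rfl, fun x _ _ => ⟨rfl, rfl⟩, fun x hx => Or.inr ⟨rfl, (hA.hR x hx).1⟩,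
      Finset.Subset.refl _, fun b _ => ⟨rfl, rfl⟩, fun b hb hb' => absurd hb hb', ?_, ?_, ?_, ?_,
      ?_⟩
    · rw [hkd]; simp
    · rw [hkd]; simp
    · intro x _ y _
      simp
    · intro x _
      rw [mx_self]; simp
    · rw [MM_self]; simp
  have hDR : D ⊆ A.R := Finset.filter_subset _ _
  have hDk : D ⊆ A.Rk := by
    intro x hx
    obtain ⟨h1, b, hb, h2⟩ := Finset.mem_filter.1 hx
    by_contra hcon
    exact absurd (hA.far₀ b hb x h1 hcon) (not_le.2 h2)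
  obtain ⟨s1, s2, s3, s4⟩ := hStk X A κs g₀ Λ Lc hK kI hA A.T₀ A.Q D (A.G A.T₀) hSt
    (by rw [hal]; exact hDR) hDk (by
      rw [hkd]
      have : D.card + A.Q.card * nP ≤ A.N := hN
      simp only [Finset.card_empty, zero_add]
      exact le_trans (Nat.le_add_right _ _) this)
  obtain ⟨hcd, hmono, hc0, hc1, hc2⟩ := id hCup
  set a : ℝ := A.Q.card * p with ha
  set M : ℝ := 1 + A.Q.card * B with hM
  have ha0 : 0 ≤ a := by positivity
  have hM0 : 0 ≤ M := by positivity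
  have hcont : Continuous cu := hcd.continuous
  have hkill := Att.kill (R := A.Rk) (Q := A.Q) (v := A.val) (Ok := Okf) A.T₀ D
    (fun ζ => ENNReal.ofReal (a + M * cu (A.U (A.T₀.kl D ζ) A.Q (A.G A.T₀)))) hDk
    (fun x hx => by rw [(hA.hR x (hDR hx)).1]; exact hpos.2.2.1)
    (by
      apply ENNReal.measurable_ofReal.comp
      exact (measurable_const.add (measurable_const.mul (hcont.measurable.comp s2))))
    (by
      intro ζ
      obtain ⟨t1, t2, t3, t4, t5⟩ := s1 ζ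
      refine phases hRvs hCup A κs g₀ Λ Lc hK kI p B nP hA hp hB hph Okf hok A.Q.card
        (A.T₀.kl D ζ) A.Q (A.G A.T₀) rfl t1 ?_ ?_
      · rw [t4, hkd, Finset.empty_union]; exact hN
      · intro b hb c hc
        rw [t5, hal] at hc
        by_contra hcon
        push Not at hcon
        have := (Finset.mem_sdiff.1 hc).2
        exact this (Finset.mem_filter.2 ⟨(Finset.mem_sdiff.1 hc).1, b, hb, hcon⟩))
  refine Att.mono _ _ _ ?_ hkill
  have hprob : IsProbabilityMeasure (gm (fun _ => 0) (A.T₀.kv D)) := by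
    unfold gm; infer_instance
  have hUk : ∀ ζ, cu (A.U (A.T₀.kl D ζ) A.Q (A.G A.T₀)) ≤ cu (A.Ue A.T₀ D A.Q (A.G A.T₀) ζ) :=
    fun ζ => hmono (s1 ζ).2.2.1
  have hU0 : A.U A.T₀ A.Q (A.G A.T₀) =
      (∑ x ∈ A.R ∪ A.Q, A.R.card * (4 * Real.exp (1 - A.l x * A.ε x))) +
          A.R.card * Real.exp (1 - A.lm * A.εm) + Real.exp (1 - A.lM * A.εM) := by
    unfold Pa.U
    rw [hal]
    congr 1
    · congr 1
      · refine Finset.sum_congr rfl fun x _ => ?_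
        rw [Finset.sum_congr rfl (g := fun _ => 4 * Real.exp (1 - A.l x * A.ε x))]
        · rw [Finset.sum_const, nsmul_eq_mul]
        · intro y _
          unfold pe Pa.bud
          rw [hkd]
          simp
          ring
      · rw [Finset.sum_congr rfl (g := fun _ => Real.exp (1 - A.lm * A.εm))]
        · rw [Finset.sum_const, nsmul_eq_mul]
        · intro x _
          unfold Pa.bum
          rw [hkd, mx_self]
          simp
          ring
    · unfold Pa.buM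
      rw [hkd, MM_self]
      simp
      ring
  calc ∫⁻ ζ, ENNReal.ofReal (a + M * cu (A.U (A.T₀.kl D ζ) A.Q (A.G A.T₀)))
        ∂(gm (fun _ => 0) (A.T₀.kv D))
      ≤ ∫⁻ ζ, (ENNReal.ofReal a + ENNReal.ofReal M * ENNReal.ofReal
          (cu (A.Ue A.T₀ D A.Q (A.G A.T₀) ζ))) ∂(gm (fun _ => 0) (A.T₀.kv D)) := by
        refine lintegral_mono fun ζ => ?_
        rw [← ENNReal.ofReal_mul hM0]
        refine le_trans (ENNReal.ofReal_le_ofReal ?_) ENNReal.ofReal_add_le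
        have := mul_le_mul_of_nonneg_left (hUk ζ) hM0
        linarith only [this]
    _ = ENNReal.ofReal a + ENNReal.ofReal M * ∫⁻ ζ, ENNReal.ofReal
          (cu (A.Ue A.T₀ D A.Q (A.G A.T₀) ζ)) ∂(gm (fun _ => 0) (A.T₀.kv D)) := by
        have hm : Measurable fun ζ => ENNReal.ofReal (cu (A.Ue A.T₀ D A.Q (A.G A.T₀) ζ)) :=
          ENNReal.measurable_ofReal.comp (hcont.measurable.comp s3)
        rw [lintegral_add_left measurable_const, lintegral_const, measure_univ, mul_one,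
          lintegral_const_mul _ hm]
    _ ≤ ENNReal.ofReal a + ENNReal.ofReal M *
          ENNReal.ofReal (cu (A.U A.T₀ A.Q (A.G A.T₀))) := by
        gcongr
    _ = ENNReal.ofReal (a + M * cu (A.U A.T₀ A.Q (A.G A.T₀))) := by
        rw [← ENNReal.ofReal_mul hM0, ← ENNReal.ofReal_add ha0]
        exact mul_nonneg hM0 (hc0 _ (U_nonneg _ _ _ _)).1
    _ ≤ _ := by
        apply ENNReal.ofReal_le_ofReal
        rw [← hU0]
        have h1 := (hc0 _ (U_nonneg A A.T₀ A.Q (A.G A.T₀))).2.2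
        have h2 := U_nonneg A A.T₀ A.Q (A.G A.T₀)
        have h3 : (0:ℝ) ≤ A.Q.card * B := by positivity
        nlinarith only [mul_le_mul_of_nonneg_left h1 hM0, h2]

end Pool.Agent.ATT.H76
end
end -- Pool.Agent.Helper76_ATT.ATA

section -- Pool.Agent.Helper84_ATT.NET

/-!
# Tank ATT, row NET: the network of a configuration
-/

set_option autoImplicit false

open scoped ENNReal BigOperators Topology NNReal Matrix

noncomputable section

namespace Pool.Agent.ATT.H84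

open Pool.Agent.KIL (gam nn)
open Pool.Agent.ANP (Cfg)

/-- row NET -/
theorem net (geq : ANR.GeqStmt) : NetStmt := by
  intro X _ _ Hm η e0 T hsym he0 hη hmb
  have hN : ANR.Net (hN Hm T) (ka η e0 T) := by
    refine ⟨?_, ?_⟩
    · intro x y
      unfold hN
      by_cases h : x = y
      · rw [h]
      · rw [if_neg h, if_neg (Ne.symm h), hsym x y]
    · intro x
      unfold ka
      split_ifs with h
      · exact he0
      · have h1 : 0 < T.s x := pos_iff_ne_zero.2 h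
        have h2 : (0 : ℝ) < (T.s x : ℝ) := by exact_mod_cast h1
        have h3 := mul_pos h2 (hmb x h1)
        linarith
  obtain ⟨g1, g2, g3, -, -⟩ := geq X (ATT.hN Hm T) (ka η e0 T) hN
  refine ⟨hN, g2, g3, ?_⟩
  intro b
  by_contra hcon
  rw [not_or] at hcon
  obtain ⟨h1, h2⟩ := hcon
  have hnn : ∀ v ∈ Finset.univ.erase b, 0 ≤ nn (ka η e0 T) (GT Hm η e0 T) b v := fun v _ =>
    mul_nonneg (hN.pos v).le (by positivity)
  have h0 : gam (ka η e0 T) (GT Hm η e0 T) b = 0 :=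
    le_antisymm (not_lt.1 h2) (Finset.sum_nonneg hnn)
  have hz : ∀ v, v ≠ b → ANR.Gr (ATT.hN Hm T) (ka η e0 T) v b = 0 := by
    intro v hv
    have h3 := (Finset.sum_eq_zero_iff_of_nonneg hnn).1 h0 v
      (Finset.mem_erase.2 ⟨hv, Finset.mem_univ v⟩)
    have h4 : ka η e0 T v * ‖GT Hm η e0 T v b‖ ^ 2 = 0 := h3
    rcases mul_eq_zero.1 h4 with h5 | h5
    · exact absurd h5 (hN.pos v).ne'
    · exact norm_eq_zero.1 ((pow_eq_zero_iff two_ne_zero).1 h5)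
  have hop : ∀ x, ANR.opv (ATT.hN Hm T) (ka η e0 T)
      (fun z => ANR.Gr (ATT.hN Hm T) (ka η e0 T) z b) x =
      (ATT.hN Hm T x b : ℂ) * ANR.Gr (ATT.hN Hm T) (ka η e0 T) b b -
        Complex.I * (ka η e0 T x : ℂ) * ANR.Gr (ATT.hN Hm T) (ka η e0 T) x b := by
    intro x
    unfold ANR.opv
    rw [Finset.sum_eq_single b]
    · intro v _ hv
      show _ * ANR.Gr (ATT.hN Hm T) (ka η e0 T) v b = 0
      rw [hz v hv, mul_zero]
    · intro h
      exact absurd (Finset.mem_univ b) h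
  push Not at h1
  obtain ⟨v, hv, hvb⟩ := h1
  have h3 := g1 v b
  rw [hop, hz v hv, mul_zero, sub_zero, if_neg hv] at h3
  have h4 : ANR.Gr (ATT.hN Hm T) (ka η e0 T) b b = 0 := by
    rcases mul_eq_zero.1 h3 with h5 | h5
    · exact absurd (Complex.ofReal_eq_zero.1 h5) hvb
    · exact h5
  have h6 := g1 b b
  rw [hop, h4, mul_zero, mul_zero, sub_zero, if_pos rfl] at h6
  exact zero_ne_one h6

end Pool.Agent.ATT.H84
end
end -- Pool.Agent.Helper84_ATT.NET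

section -- Pool.Agent.Helper92_ATT.RVS

/-!
# Row RVS of the tank ATT: one reveal (helper92)

The rows LV2, LV0 (ANR) and NET are hypotheses.
-/

set_option autoImplicit false

open scoped BigOperators NNReal

noncomputable section

namespace Pool.Agent.ATT.H92

open Pool.Agent.ATT
open Pool.Agent.ANP (Cfg)
open Pool.Agent.KIL (gam aa nn)

theorem rvs (h2 : ANR.Lv2Stmt) (h0 : ANR.Lv0Stmt) (hnet : NetStmt) : RvsStmt := by
  intro X _ _ A κs g₀ Λ Lc hK kI hH T Qr Go b hSt hb ha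
  obtain ⟨he0, heη, hv, hg₀, ht₁, hdT, -, -, -, -, -⟩ := hH.pos
  have hbQ : b ∈ A.Q := hSt.sub hb
  have hbR : b ∉ A.R := fun h => Finset.disjoint_left.1 hH.dis h hbQ
  obtain ⟨T', hT'⟩ : ∃ T' : Cfg X, T' = T.rv {b} A.val := ⟨_, rfl⟩
  rw [← hT']
  have hV : ∀ x, x ≠ b → T'.V x = T.V x := by
    intro x hx
    rw [hT']
    exact if_neg fun h => hx (Finset.mem_singleton.1 h)
  have hs : ∀ x, x ≠ b → T'.s x = T.s x := by
    intro x hx
    rw [hT']
    exact if_neg fun h => hx (Finset.mem_singleton.1 h)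
  have hVb : T'.V b = A.val b := by
    rw [hT']
    exact if_pos (Finset.mem_singleton_self b)
  have hsb : T'.s b = 0 := by
    rw [hT']
    exact if_pos (Finset.mem_singleton_self b)
  have hmb : T'.mb = T.mb := by rw [hT']; rfl
  have hneR : ∀ x ∈ A.R, x ≠ b := fun x hx h => hbR (h ▸ hx)
  have hal : A.al T' = A.al T := by
    ext x
    simp only [Pa.al, Finset.mem_filter]
    constructor
    · rintro ⟨h1, h3⟩
      exact ⟨h1, by rw [← hs x (hneR x h1)]; exact h3⟩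
    · rintro ⟨h1, h3⟩
      exact ⟨h1, by rw [hs x (hneR x h1)]; exact h3⟩
  have hkd : A.kd T' = A.kd T := by
    ext x
    simp only [Pa.kd, Finset.mem_filter]
    constructor
    · rintro ⟨h1, h3⟩
      exact ⟨h1, by rw [← hs x (hneR x h1)]; exact h3⟩
    · rintro ⟨h1, h3⟩
      exact ⟨h1, by rw [hs x (hneR x h1)]; exact h3⟩
  have halR : ∀ x ∈ A.al T, x ∈ A.R := fun x hx => (Finset.mem_filter.1 hx).1
  have halne : ∀ x ∈ A.al T, x ≠ b := fun x hx => hneR x (halR x hx)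
  -- the networks
  have hpT : ∀ x, 0 < T.s x → 0 < (T.mb x).im := by
    intro x hx
    rw [hSt.mb]
    apply hH.pimb
    by_cases hR : x ∈ A.R
    · rw [(hH.hR x hR).1]
      exact_mod_cast hv
    · by_cases hQ : x ∈ A.Q
      · by_cases hQr : x ∈ Qr
        · rw [← (hSt.rem x hQr).2]
          exact hx
        · rw [(hSt.app x hQ hQr).2] at hx
          exact absurd hx (lt_irrefl _)
      · rw [← (hSt.off x hR hQ).2]
        exact hx
  have hpT' : ∀ x, 0 < T'.s x → 0 < (T'.mb x).im := by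
    intro x hx
    rw [hmb]
    apply hpT
    by_cases h : x = b
    · rw [h, hsb] at hx
      exact absurd hx (lt_irrefl _)
    · rw [← hs x h]
      exact hx
  obtain ⟨hNe, hsym, hward, -⟩ := hnet X A.Hm A.η A.e0 T hH.sym he0 heη hpT
  obtain ⟨hNe', hsym', -, -⟩ := hnet X A.Hm A.η A.e0 T' hH.sym he0 heη hpT'
  have hoff : ANR.Off (hN A.Hm T) (ka A.η A.e0 T) (hN A.Hm T') (ka A.η A.e0 T') {b} := by
    intro x hx
    have hxb : x ≠ b := fun h => hx (Finset.mem_singleton.2 h)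
    refine ⟨?_, fun y => ?_⟩
    · unfold ka
      rw [hs x hxb, hmb]
    · unfold hN
      rw [hV x hxb, hs x hxb, hmb]
  -- the absorption
  obtain ⟨κ, hκ⟩ : ∃ κ : X → ℝ, κ = ka A.η A.e0 T := ⟨_, rfl⟩
  obtain ⟨κ', hκ'⟩ : ∃ κ' : X → ℝ, κ' = ka A.η A.e0 T' := ⟨_, rfl⟩
  obtain ⟨G, hG⟩ : ∃ G : Matrix X X ℂ, G = GT A.Hm A.η A.e0 T := ⟨_, rfl⟩
  obtain ⟨G', hG'⟩ : ∃ G' : Matrix X X ℂ, G' = GT A.Hm A.η A.e0 T' := ⟨_, rfl⟩
  have eG : A.G T = G := hG.symm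
  have eG' : A.G T' = G' := hG'.symm
  have ek : A.k T = κ := hκ.symm
  have ek' : A.k T' = κ' := hκ'.symm
  have hκpos : ∀ x, 0 < κ x := by
    intro x
    rw [hκ]
    exact hNe.pos x
  have hκoff : ∀ x, x ≠ b → κ' x = κ x := by
    intro x hx
    rw [hκ, hκ']
    exact (hoff x fun h => hx (Finset.mem_singleton.1 h)).1
  rw [← hG] at hsym hward
  rw [← hG'] at hsym'
  rw [← hκ] at hward
  obtain ⟨S0, hS0⟩ : ∃ S0 : ℝ, S0 = ∑ z ∈ ({b} : Finset X)ᶜ, κ z * ‖G z b‖ ^ 2 := ⟨_, rfl⟩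
  have hS0n : 0 ≤ S0 := by
    rw [hS0]
    exact Finset.sum_nonneg fun z _ => mul_nonneg (hκpos z).le (sq_nonneg _)
  obtain ⟨L, hL⟩ : ∃ L : X → ℝ, ∀ x, L x = ‖G x b‖ ^ 2 / S0 := ⟨_, fun _ => rfl⟩
  have hL0 : ∀ x, 0 ≤ L x := by
    intro x
    rw [hL]
    exact div_nonneg (sq_nonneg _) hS0n
  have hLev : ∀ x, x ≠ b → ANR.Lev (hN A.Hm T) (ka A.η A.e0 T) {b} x (L x) := by
    intro x hx
    have h := h0 X (hN A.Hm T) (ka A.η A.e0 T) b x hNe hx
    rw [hL x, hS0, hG, hκ]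
    exact h
  have hgam : gam κ G b = S0 := by
    rw [hS0]
    unfold gam nn
    rw [← Finset.sdiff_singleton_eq_erase, ← Finset.compl_eq_univ_sdiff]
  have haL : ∀ x, A.a T b x = κ x * L x := by
    intro x
    unfold Pa.a aa
    rw [eG, ek, hgam, hL x]
    unfold nn
    rw [mul_div_assoc]
  have hL1 : ∀ x, x ≠ b → κ x * L x ≤ 1 := by
    intro x hx
    rw [hL, ← mul_div_assoc]
    apply div_le_one_of_le₀ _ hS0n
    rw [hS0]
    exact Finset.single_le_sum (f := fun z => κ z * ‖G z b‖ ^ 2)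
      (fun z _ => mul_nonneg (hκpos z).le (sq_nonneg _))
      (Finset.mem_compl.2 fun h => hx (Finset.mem_singleton.1 h))
  have hL1' : ∀ x, x ≠ b → L x ≤ (κ x)⁻¹ := by
    intro x hx
    rw [← one_div, le_div_iff₀ (hκpos x), mul_comm]
    exact hL1 x hx
  have hLd : ∀ x ∈ A.al T, L x ≤ A.dT := by
    intro x hx
    have hxR := halR x hx
    have h1 : A.v * g₀ ≤ κ x := by
      rw [hκ]
      have h3 : T.s x ≠ 0 := (Finset.mem_filter.1 hx).2
      unfold ka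
      rw [if_neg h3]
      have h4 : T.s x = A.v := by
        rcases hSt.run x hxR with h | h
        · exact absurd h h3
        · exact h.2
      rw [h4, hSt.mb]
      have h5 := mul_le_mul_of_nonneg_left (hH.hR x hxR).2.1 (NNReal.coe_nonneg A.v)
      linarith only [he0, heη, h5]
    have h3 : κ x * L x ≤ 2 * A.t₁ := by
      rw [← haL]
      exact ha x hx
    have h4 : A.dT * (A.v * g₀) ≤ A.dT * κ x := mul_le_mul_of_nonneg_left h1 hdT
    have h5 : κ x * L x ≤ κ x * A.dT := by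
      have := hH.dt
      linarith only [mul_comm A.dT (κ x), h3, h4, this]
    exact le_of_mul_le_mul_left h5 (hκpos x)
  -- the change of the entries
  have hLv2 : ∀ x y, x ≠ b → y ≠ b → ‖G x y - G' x y‖ ^ 2 ≤ 4 * L x * L y ∧
      ∑ z ∈ ({b} : Finset X)ᶜ, κ z * ‖G z y - G' z y‖ ^ 2 ≤ 4 * L y := by
    intro x y hx hy
    have h := h2 X (hN A.Hm T) (hN A.Hm T') (ka A.η A.e0 T) (ka A.η A.e0 T') {b} x y (L x) (L y)
      hNe hNe' hoff (fun h => hx (Finset.mem_singleton.1 h))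
      (fun h => hy (Finset.mem_singleton.1 h)) (hL0 x) (hL0 y) (hLev x hx) (hLev y hy)
    refine ⟨?_, ?_⟩
    · rw [hG, hG']
      exact h.1
    · rw [hG, hG', hκ]
      exact h.2.1
  have hent : ∀ x y, x ≠ b → y ≠ b → ‖G' x y - G x y‖ ≤ 2 * Real.sqrt (L x * L y) := by
    intro x y hx hy
    rw [norm_sub_rev]
    have h6 : (2 * Real.sqrt (L x * L y)) ^ 2 = 4 * L x * L y := by
      rw [mul_pow, Real.sq_sqrt (mul_nonneg (hL0 x) (hL0 y))]
      ring
    exact (abs_le_of_sq_le_sq' (by rw [h6]; exact (hLv2 x y hx hy).1) (by positivity)).2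
  -- the quotients
  have hQr : ∀ x, x ≠ b → (x ∈ Qr.erase b ↔ x ∈ Qr) := by
    intro x hx
    rw [Finset.mem_erase]
    exact ⟨fun h => h.2, fun h => ⟨hx, h⟩⟩
  have hcard : ((A.Q \ Qr.erase b).card : ℝ) = (A.Q \ Qr).card + 1 := by
    have h : A.Q \ Qr.erase b = insert b (A.Q \ Qr) := by
      ext x
      simp only [Finset.mem_sdiff, Finset.mem_erase, Finset.mem_insert, not_and]
      constructor
      · rintro ⟨h1, h3⟩
        by_cases hx : x = b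
        · exact Or.inl hx
        · exact Or.inr ⟨h1, h3 hx⟩
      · rintro (h | h)
        · subst h
          exact ⟨hbQ, fun h => absurd rfl h⟩
        · exact ⟨h.1, fun _ => h.2⟩
    rw [h, Finset.card_insert_of_notMem]
    · push_cast
      ring
    · intro h
      exact (Finset.mem_sdiff.1 h).2 hb
  have hκ0 : ∀ x ∈ Qr, A.k A.T₀ x = κ x := by
    intro x hx
    rw [← ek]
    unfold Pa.k ka
    rw [(hSt.rem x hx).2, hSt.mb]
  have hLx : ∀ x ∈ A.al T ∪ Qr.erase b, x ≠ b ∧ L x ≤ if x ∈ Qr then (A.k A.T₀ x)⁻¹ else A.dT := by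
    intro x hx
    rcases Finset.mem_union.1 hx with h | h
    · refine ⟨halne x h, ?_⟩
      rw [if_neg]
      · exact hLd x h
      · intro h3
        exact Finset.disjoint_left.1 hH.dis (halR x h) (hSt.sub h3)
    · obtain ⟨h3, h4⟩ := Finset.mem_erase.1 h
      refine ⟨h3, ?_⟩
      rw [if_pos h4, hκ0 x h4]
      exact hL1' x h3
  have hstate : A.St T' (Qr.erase b) (Go + (A.G T' - A.G T)) := by
    refine ⟨hmb.trans hSt.mb, ?_, ?_, fun x hx => hSt.sub (Finset.mem_of_mem_erase hx), ?_, ?_,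
      ?_, ?_, ?_, ?_, ?_⟩
    · intro x hR hQ
      have hx : x ≠ b := fun h => hQ (h ▸ hbQ)
      rw [hV x hx, hs x hx]
      exact hSt.off x hR hQ
    · intro x hR
      have hx : x ≠ b := hneR x hR
      rw [hV x hx, hs x hx]
      exact hSt.run x hR
    · intro x hx
      obtain ⟨h3, h4⟩ := Finset.mem_erase.1 hx
      rw [hV x h3, hs x h3]
      exact hSt.rem x h4
    · intro x hQ hx
      by_cases h : x = b
      · rw [h]
        exact ⟨hVb, hsb⟩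
      · rw [hV x h, hs x h]
        exact hSt.app x hQ fun h3 => hx ((hQr x h).2 h3)
    · rw [hkd]
      exact hSt.num
    · rw [hkd]
      exact hSt.near
    · rw [hal]
      intro x hx y hy
      have hyR := halR y hy
      obtain ⟨hxb, hLx'⟩ := hLx x hx
      have hyb := halne y hy
      have hx' : x ∈ A.al T ∪ Qr := by
        rcases Finset.mem_union.1 hx with h | h
        · exact Finset.mem_union_left _ h
        · exact Finset.mem_union_right _ (Finset.mem_of_mem_erase h)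
      have h3 := hSt.go x hx' y hy
      rw [hcard]
      have hif : (if x ∈ Qr.erase b then (A.k A.T₀ x)⁻¹ else A.dT) =
          if x ∈ Qr then (A.k A.T₀ x)⁻¹ else A.dT := by
        by_cases h : x ∈ Qr
        · rw [if_pos h, if_pos ((hQr x hxb).2 h)]
        · rw [if_neg h, if_neg fun h4 => h ((hQr x hxb).1 h4)]
      rw [hif]
      have h4 : ‖(Go + (A.G T' - A.G T)) x y - A.G A.T₀ x y‖ ≤
          ‖Go x y - A.G A.T₀ x y‖ + ‖G' x y - G x y‖ := by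
        have h5 : (Go + (A.G T' - A.G T)) x y - A.G A.T₀ x y =
            (Go x y - A.G A.T₀ x y) + (G' x y - G x y) := by
          rw [eG, eG']
          simp only [Matrix.add_apply, Matrix.sub_apply]
          ring
        rw [h5]
        exact norm_add_le _ _
      have h5 : Real.sqrt (L x * L y) ≤
          Real.sqrt (A.dT * if x ∈ Qr then (A.k A.T₀ x)⁻¹ else A.dT) := by
        apply Real.sqrt_le_sqrt
        rw [mul_comm (L x)]
        exact mul_le_mul (hLd y hy) hLx' (hL0 x) hdT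
      have h6 := hent x y hxb hyb
      nlinarith only [h3, h4, h5, h6]
    · rw [hal, hcard]
      intro x hx
      have hxb := halne x hx
      have h3 := hSt.gm x hx
      have h4 := ANR.H92.mink (A.al T) κ (fun y _ => (hκpos y).le)
        (fun y => Go x y - A.G A.T₀ x y) (fun y => G' x y - G x y)
      have h5 : mx (A.k T') (A.al T) (Go + (A.G T' - A.G T)) (A.G A.T₀) x =
          ∑ y ∈ A.al T, κ y * ‖(Go x y - A.G A.T₀ x y) + (G' x y - G x y)‖ ^ 2 := by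
        unfold mx
        refine Finset.sum_congr rfl fun y hy => ?_
        rw [ek', hκoff y (halne y hy)]
        congr 3
        rw [eG, eG']
        simp only [Matrix.add_apply, Matrix.sub_apply]
        ring
      have h6 : mx (A.k T) (A.al T) Go (A.G A.T₀) x =
          ∑ y ∈ A.al T, κ y * ‖Go x y - A.G A.T₀ x y‖ ^ 2 := by
        unfold mx
        rw [ek]
      rw [h6] at h3
      rw [h5]
      have h7 : Real.sqrt (∑ y ∈ A.al T, κ y * ‖G' x y - G x y‖ ^ 2) ≤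
          2 * Real.sqrt A.dT := by
        have h8 : ∑ y ∈ A.al T, κ y * ‖G' x y - G x y‖ ^ 2 ≤ 4 * L x := by
          refine le_trans ?_ (hLv2 x x hxb hxb).2
          refine le_trans (le_of_eq (Finset.sum_congr rfl fun y _ => ?_))
            (Finset.sum_le_sum_of_subset_of_nonneg
              (f := fun z => κ z * ‖G z x - G' z x‖ ^ 2)
              (s := A.al T) (t := ({b} : Finset X)ᶜ)
              (fun y hy => Finset.mem_compl.2 fun h => halne y hy (Finset.mem_singleton.1 h))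
              fun z _ _ => mul_nonneg (hκpos z).le (sq_nonneg _))
          rw [hsym y x, hsym' y x, norm_sub_rev]
        have h9 : Real.sqrt (4 * L x) = 2 * Real.sqrt (L x) := by
          rw [Real.sqrt_mul (by norm_num : (0 : ℝ) ≤ 4),
            show Real.sqrt 4 = 2 by
              rw [show (4 : ℝ) = 2 ^ 2 by norm_num]
              exact Real.sqrt_sq (by norm_num)]
        calc Real.sqrt (∑ y ∈ A.al T, κ y * ‖G' x y - G x y‖ ^ 2) ≤ Real.sqrt (4 * L x) :=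
              Real.sqrt_le_sqrt h8
          _ = 2 * Real.sqrt (L x) := h9
          _ ≤ 2 * Real.sqrt A.dT := by
              have := Real.sqrt_le_sqrt (hLd x hx)
              linarith only [this]
      nlinarith only [h3, h4, h7]
    · rw [hal, hcard]
      have h3 := hSt.gM
      have h4 := ANR.H92.mink (A.al T ×ˢ A.al T) (fun q : X × X => κ q.1 * κ q.2)
        (fun q _ => mul_nonneg (hκpos q.1).le (hκpos q.2).le)
        (fun q => Go q.1 q.2 - A.G A.T₀ q.1 q.2) (fun q => G' q.1 q.2 - G q.1 q.2)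
      have hMM : ∀ (F : X → X → ℝ),
          ∑ x ∈ A.al T, κ x * ∑ y ∈ A.al T, κ y * F x y =
            ∑ q ∈ A.al T ×ˢ A.al T, κ q.1 * κ q.2 * F q.1 q.2 := by
        intro F
        rw [Finset.sum_product]
        refine Finset.sum_congr rfl fun x _ => ?_
        rw [Finset.mul_sum]
        exact Finset.sum_congr rfl fun y _ => by ring
      have h5 : MM (A.k T') (A.al T) (Go + (A.G T' - A.G T)) (A.G A.T₀) =
          ∑ q ∈ A.al T ×ˢ A.al T, κ q.1 * κ q.2 *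
            ‖(Go q.1 q.2 - A.G A.T₀ q.1 q.2) + (G' q.1 q.2 - G q.1 q.2)‖ ^ 2 := by
        rw [← hMM fun x y => ‖(Go x y - A.G A.T₀ x y) + (G' x y - G x y)‖ ^ 2]
        unfold MM mx
        refine Finset.sum_congr rfl fun x hx => ?_
        rw [ek', hκoff x (halne x hx)]
        congr 1
        refine Finset.sum_congr rfl fun y hy => ?_
        rw [hκoff y (halne y hy)]
        congr 3
        rw [eG, eG']
        simp only [Matrix.add_apply, Matrix.sub_apply]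
        ring
      have h6 : MM (A.k T) (A.al T) Go (A.G A.T₀) =
          ∑ q ∈ A.al T ×ˢ A.al T, κ q.1 * κ q.2 * ‖Go q.1 q.2 - A.G A.T₀ q.1 q.2‖ ^ 2 := by
        rw [← hMM fun x y => ‖Go x y - A.G A.T₀ x y‖ ^ 2]
        unfold MM mx
        rw [ek]
      have h7 : Real.sqrt (∑ q ∈ A.al T ×ˢ A.al T, κ q.1 * κ q.2 *
          ‖G' q.1 q.2 - G q.1 q.2‖ ^ 2) ≤ 2 := by
        have hL1s : ∑ x ∈ A.al T, κ x * L x ≤ 1 := by
          have h8 : ∑ x ∈ A.al T, κ x * L x ≤ ∑ x ∈ ({b} : Finset X)ᶜ, κ x * L x :=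
            Finset.sum_le_sum_of_subset_of_nonneg
              (fun y hy => Finset.mem_compl.2 fun h => halne y hy (Finset.mem_singleton.1 h))
              fun z _ _ => mul_nonneg (hκpos z).le (hL0 z)
          have h9 : ∑ x ∈ ({b} : Finset X)ᶜ, κ x * L x = S0 / S0 := by
            nth_rw 1 [hS0]
            rw [Finset.sum_div]
            exact Finset.sum_congr rfl fun x _ => by rw [hL, mul_div_assoc]
          rw [h9] at h8
          exact h8.trans (div_self_le_one S0)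
        have h8 : ∑ q ∈ A.al T ×ˢ A.al T, κ q.1 * κ q.2 * ‖G' q.1 q.2 - G q.1 q.2‖ ^ 2 ≤
            4 := by
          rw [← hMM fun x y => ‖G' x y - G x y‖ ^ 2]
          calc ∑ x ∈ A.al T, κ x * ∑ y ∈ A.al T, κ y * ‖G' x y - G x y‖ ^ 2 ≤
                ∑ x ∈ A.al T, κ x * (4 * L x) := by
                refine Finset.sum_le_sum fun x hx => ?_
                refine mul_le_mul_of_nonneg_left ?_ (hκpos x).le
                refine le_trans ?_ (hLv2 x x (halne x hx) (halne x hx)).2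
                refine le_trans (le_of_eq (Finset.sum_congr rfl fun y _ => ?_))
                  (Finset.sum_le_sum_of_subset_of_nonneg
                    (f := fun z => κ z * ‖G z x - G' z x‖ ^ 2)
                    (s := A.al T) (t := ({b} : Finset X)ᶜ)
                    (fun y hy => Finset.mem_compl.2
                      fun h => halne y hy (Finset.mem_singleton.1 h))
                    fun z _ _ => mul_nonneg (hκpos z).le (sq_nonneg _))
                rw [hsym y x, hsym' y x, norm_sub_rev]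
            _ = 4 * ∑ x ∈ A.al T, κ x * L x := by
                rw [Finset.mul_sum]
                exact Finset.sum_congr rfl fun x _ => by ring
            _ ≤ 4 := by linarith only [hL1s]
        calc Real.sqrt (∑ q ∈ A.al T ×ˢ A.al T, κ q.1 * κ q.2 *
              ‖G' q.1 q.2 - G q.1 q.2‖ ^ 2) ≤ Real.sqrt 4 := Real.sqrt_le_sqrt h8
          _ = 2 := by
              rw [show (4 : ℝ) = 2 ^ 2 by norm_num]
              exact Real.sqrt_sq (by norm_num)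
      rw [h6] at h3
      rw [h5]
      linarith only [h3, h4, h7]
  refine ⟨hstate, ?_, hal, hkd⟩
  have hdiff : ∀ x y, A.G T' x y - (Go + (A.G T' - A.G T)) x y = A.G T x y - Go x y := by
    intro x y
    simp only [Matrix.add_apply, Matrix.sub_apply]
    ring
  have hbud : ∀ x y, A.bud T' x y = A.bud T x y := by
    intro x y
    unfold Pa.bud
    rw [hkd]
  have hbum : ∀ x, A.bum T' x = A.bum T x := by
    intro x
    unfold Pa.bum
    rw [hkd]
  have hpe : ∀ (l B : ℝ) (z : ℂ), 0 ≤ pe l B z := by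
    intro l B z
    unfold pe
    have h3 := Real.cosh_pos (l * z.re)
    have h4 := Real.cosh_pos (l * z.im)
    have h5 := Real.exp_pos B
    positivity
  have hbuM : A.buM T' = A.buM T := by
    unfold Pa.buM
    rw [hkd]
  unfold Pa.U
  rw [hal]
  refine add_le_add (add_le_add ?_ ?_) (le_of_eq ?_)
  · simp only [hdiff, hbud]
    apply Finset.sum_le_sum_of_subset_of_nonneg
    · apply Finset.union_subset_union (Finset.Subset.refl _) (Finset.erase_subset _ _)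
    · intro x _ _
      exact Finset.sum_nonneg fun y _ => hpe _ _ _
  · apply le_of_eq
    refine Finset.sum_congr rfl fun x hx => ?_
    rw [hbum]
    congr 4
    unfold mx
    refine Finset.sum_congr rfl fun y hy => ?_
    rw [hdiff, ek', ek, hκoff y (halne y hy)]
  · rw [hbuM]
    congr 4
    unfold MM mx
    refine Finset.sum_congr rfl fun x hx => ?_
    rw [ek', ek, hκoff x (halne x hx)]
    congr 1
    refine Finset.sum_congr rfl fun y hy => ?_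
    rw [hdiff, hκoff y (halne y hy)]

end Pool.Agent.ATT.H92
end
end -- Pool.Agent.Helper92_ATT.RVS

section -- Pool.Agent.Helper38_ATT.All

/-!
# Attempts: everything without hypotheses
-/

set_option autoImplicit false

namespace Pool.Agent.ATT.H38

theorem jal_ : LE.QF.JalStmt := LE.QF.H77.jal
theorem jma_ : LE.QF.JmaStmt := LE.QF.H32.jma jal_
theorem flw_ : LE.QF.FlwStmt := LE.QF.H2.flw LE.QD.H65.ste

/-! ### ANR -/

theorem grn_ : ANR.GrnStmt := ANR.H63.grn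
theorem dir_ : ANR.DirStmt := ANR.H77.dir grn_
theorem geq_ : ANR.GeqStmt := ANR.H72.geq dir_ grn_
theorem qsy_ : ANR.QsyStmt := ANR.H31.qsy grn_
theorem lv1_ : ANR.Lv1Stmt := ANR.H92.lv1 grn_ dir_ qsy_
theorem lv2_ : ANR.Lv2Stmt := ANR.H17.lv2 lv1_ dir_ geq_
theorem lv0_ : ANR.Lv0Stmt := ANR.H20.lv0 geq_ dir_

/-! ### KIL -/

theorem kth_ : KIL.KthStmt := KIL.H13.kth
theorem kal_ : KIL.KalStmt := KIL.H38.kal
theorem kjn_ : KIL.KjnStmt := KIL.H84.kjn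
theorem kja_ : KIL.KjaStmt := KIL.H58.kja kjn_
theorem knb_ : KIL.KnbStmt := KIL.H38K.knb
theorem uf3_ : KIL.Uf3Stmt := KIL.H77.uf3 jal_ flw_
theorem kr1_ : KIL.Kr1Stmt := KIL.H38.kr1 jal_ kja_ knb_ kal_ uf3_
theorem klj_ : KIL.KljStmt := KIL.H58.klj kjn_ knb_
theorem klr_ : KIL.KlrStmt := KIL.H44.klr klj_ uf3_

/-! ### ATT -/

theorem peb_ : PebStmt := H41.peb
theorem msr_ : MsrStmt := H41.msr
theorem cup_ : CupStmt := H49.cup
theorem pej_ : PejStmt := H27.pej jal_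
theorem mxj_ : MxjStmt := H75.mxj jal_
theorem maj_ : MajStmt := H97.maj
theorem ujt_ : UjtStmt := H18.ujt peb_ pej_ mxj_ maj_
theorem guf_ : GufStmt := H75.guf jal_ flw_
theorem run_ : RunStmt := H19.run geq_ jal_ jma_
theorem net_ : NetStmt := H84.net geq_
theorem gok_ : GokStmt := H54.gok ujt_ run_ peb_
theorem stk_ : StkStmt := H28.stk ujt_ run_ msr_ guf_ cup_
theorem rvs_ : RvsStmt := H92.rvs lv2_ lv0_ net_
theorem ata_ : AtaStmt := H76.ata stk_ rvs_ cup_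
theorem out_ : OutStmt := H26.out peb_

/-- the phase, without hypotheses -/
theorem phn_ : PhnStmt := phn ⟨run_, gok_, msr_, stk_, cup_, geq_, dir_⟩ klr_ kr1_ kth_

end Pool.Agent.ATT.H38
end -- Pool.Agent.Helper38_ATT.All

section -- Pool.Agent.Helper28_AHH.KilP

/-!
# AND2B, field kil (helper28): hypotheses of the attempt which do not depend on the state
-/

set_option autoImplicit false
set_option linter.unusedSectionVars false

open scoped BigOperators NNReal ENNReal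

noncomputable section

namespace Pool.Agent.AND2B.H28

open Pool.Agent.AND.Num
open Pool.Agent.ANP (Cfg Att)
open Pool.Agent.AHH (toE bud Rl Al gg)
open Pool.Agent.ATT.H76 (mkA In0)

/-! ### `Att` is monotone -/

theorem att_sub {X : Type} [Fintype X] [DecidableEq X] {R R' Q : Finset X} {v : X → ℝ}
    {Ok Ok' : Cfg X → Prop} (hR : R ⊆ R') (hOk : ∀ T, Ok T → Ok' T) {T : Cfg X} {q : ℝ≥0∞}
    (h : Att R Q v Ok T q) : Att R' Q v Ok' T q := by
  induction h with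
  | ok T h => exact Att.ok T (hOk T h)
  | one T => exact Att.one T
  | mono T q q' hq _ ih => exact Att.mono T q q' hq ih
  | ap T b q hb _ ih => exact Att.ap T b q hb ih
  | kill T D q hD hs hq _ ih => exact Att.kill T D q (hD.trans hR) hs hq ih

variable {d : ℕ} {V : Env d} {c C : ℝ} {n : ℕ} {T₀ T : Cfg V.X} {run₀ run P Q : Finset V.X}

/-- the number of sites near the cluster -/
theorem card_nbh {X : Type} [Fintype X] [DecidableEq X] (Γ : ANP.Geo X) (hG : ANP.GeoOk Γ d)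
    (Q : Finset X) (t : ℕ) : (Γ.nbh Q t).card ≤ Q.card * (2 * t + 1) ^ d := by
  have h1 : Γ.nbh Q t ⊆ Q.biUnion fun x => ({y | Γ.D x y ≤ t} : Finset X) := by
    intro x hx
    unfold ANP.Geo.nbh at hx
    obtain ⟨-, y, hy, hxy⟩ := Finset.mem_filter.1 hx
    rw [Finset.mem_biUnion]
    refine ⟨y, hy, Finset.mem_filter.2 ⟨Finset.mem_univ _, ?_⟩⟩
    rw [hG.comm]
    exact hxy
  refine (Finset.card_le_card h1).trans ?_
  refine Finset.card_biUnion_le_card_mul _ _ _ fun x _ => hG.vol x t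

/-- the exponent of the number of sites of `R` -/
def DD (d : ℕ) : ℕ := 2000 * (5 * d + 2)

theorem cardR {a : ℝ} (hV : V.Pre a) (hc₁ : V.c₁ ≤ 1) (hs1 : sn V n ≤ 1 / 3)
    (h : KH V c C n T₀ run₀ P T run Q) :
    ((run ∩ V.G.nbh Q (V.G.ρ n)).card : ℝ) ≤ (qn (sn V n))⁻¹ ^ DD d := by
  have hs : 0 < sn V n := sg_pos hV (n + 1)
  set s := sn V n with hsn
  have hG : ANP.GeoOk V.G d := ANP.H61.trg d V.μ V.l _ hV.sc.lm V.J V.N
  have h1 : ((run ∩ V.G.nbh Q (V.G.ρ n)).card : ℝ) ≤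
      (Q.card : ℝ) * (2 * (2 : ℝ) ^ V.r n + 1) ^ d := by
    have := (Finset.card_le_card (Finset.inter_subset_right (s₁ := run)
      (s₂ := V.G.nbh Q (V.G.ρ n)))).trans (card_nbh V.G hG Q (V.G.ρ n))
    have h3 : V.G.ρ n = 2 ^ V.r n := rfl
    rw [h3] at this ⊢
    exact_mod_cast this
  have h2 : (Q.card : ℝ) ≤ s ^ (-(1 : ℝ)) :=
    (h.cardQ hV).trans (Real.rpow_le_rpow_of_exponent_ge hs (by linarith only [hs1, hs]) (by linarith only [hc₁]))
  have h3 : (2 : ℝ) ^ V.r n ≤ s ^ (-(4 : ℝ)) := hV.sc.rup n h.nN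
  have h4 : (1 : ℝ) ≤ s ^ (-(4 : ℝ)) := Real.one_le_rpow_of_pos_of_le_one_of_nonpos hs
    (by linarith) (by norm_num)
  have h5 : 2 * (2 : ℝ) ^ V.r n + 1 ≤ s ^ (-(5 : ℝ)) := by
    have e1 : s ^ (-(4 : ℝ)) = s * s ^ (-(5 : ℝ)) := by
      nth_rewrite 2 [← Real.rpow_one s]
      rw [← Real.rpow_add hs]
      norm_num
    have e2 : 0 < s ^ (-(5 : ℝ)) := Real.rpow_pos_of_pos hs _
    nlinarith only [hs1, h3, h4, e1, e2]
  have h6 : (qn s)⁻¹ ^ DD d = s ^ (-(5 * (d : ℝ) + 2)) := by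
    rw [qn_inv_pow hs]
    congr 1
    unfold DD
    push_cast
    ring
  rw [h6]
  calc ((run ∩ V.G.nbh Q (V.G.ρ n)).card : ℝ) ≤ (Q.card : ℝ) * (2 * (2 : ℝ) ^ V.r n + 1) ^ d := h1
    _ ≤ s ^ (-(1 : ℝ)) * (s ^ (-(5 : ℝ))) ^ d := by
        gcongr
    _ = s ^ (-(5 * (d : ℝ) + 1)) := by
        rw [← Real.rpow_natCast (s ^ (-(5 : ℝ))), ← Real.rpow_mul hs.le, ← Real.rpow_add hs]
        congr 1
        ring
    _ ≤ _ := Real.rpow_le_rpow_of_exponent_ge hs (by linarith only [hs1, hs]) (by linarith only [hs1, hs])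

/-- the numbers of `far` -/
def FarN (d : ℕ) (c K s : ℝ) : Prop := ∀ (D z : ℝ), D ≤ K * s ^ (-(5 / 4 : ℝ)) →
      z ≤ s ^ (-(113 / 100 : ℝ)) + s ^ (-(1 : ℝ)) →
      2 * Real.exp (-(c * s / 2 / (4 * d) * ((rkn s : ℝ) / 2 - (1 + 2 * (D + 3 ^ d * z)) - 1))) <
        qn s ^ 2250 ∧
      2 / (c * s / 2) *
        Real.exp (-(c * s / 2 / (4 * d) * ((rkn s : ℝ) / 2 - (1 + 2 * (D + 3 ^ d * z)) - 1))) ≤
        qn s ^ 200

theorem hfarK {a : ℝ} (hd : 0 < d) (hV : V.Pre a) (he : 0 < V.e₀) (hc : 0 < c) (hc1 : c ≤ 1)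
    (hc₁ : V.c₁ ≤ 1) (hs1 : sn V n ≤ 1 / 2) (hN : FarN d c (Kd d V.th) (sn V n))
    (h : KH V c C n T₀ run₀ P T run Q) (v : V.X → ℝ) :
    ∀ (T' : Cfg V.X) (Qr : Finset V.X) (Go : Matrix V.X V.X ℂ),
      (AA V c C n T run Q v).St T' Qr Go → ∀ b ∈ Qr, ∀ x ∈ (AA V c C n T run Q v).al T',
        x ∉ run ∩ V.G.nbh Q (rkn (sn V n)) →
        (AA V c C n T run Q v).a T' b x < qn (sn V n) ^ 2250 := by
  intro T' Qr Go hSt b hb x hx hxk
  have hg := pgeo hd hV he hc hc1 hc₁ hs1 h v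
  have h1 := hfar hg (fun y hy => by
    have hy' : y ∈ run := (Finset.mem_inter.1 hy).1
    have := h.fc.runs y hy'
    rw [if_neg (Finset.notMem_empty y)] at this
    exact this) (fun y hy => (h.pen y hy).2.ne') T' Qr Go hSt b hb x hx hxk
  refine lt_of_le_of_lt h1 ?_
  exact (hN _ _ (sum_Dn hV h.nN) (zz_le hV hc₁ (by linarith only [hs1]) h)).1

theorem hfar₀K {a : ℝ} (hd : 0 < d) (hV : V.Pre a) (he : 0 < V.e₀) (hc : 0 < c) (hc1 : c ≤ 1)
    (hc₁ : V.c₁ ≤ 1) (hs1 : sn V n ≤ 1 / 2) (hN : FarN d c (Kd d V.th) (sn V n))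
    (h : KH V c C n T₀ run₀ P T run Q) :
    ∀ b ∈ Q, ∀ x ∈ run ∩ V.G.nbh Q (V.G.ρ n), x ∉ run ∩ V.G.nbh Q (rkn (sn V n)) →
      ATT.ka V.e₀ V.e₀ T b * ‖ATT.GT (Hm d (2 ^ V.μ) V.E) V.e₀ V.e₀ T b x‖ ^ 2 ≤
        qn (sn V n) ^ 200 := by
  intro b hb x hx hxk
  rw [ka_eq, GT_eq]
  have hg := pgeo hd hV he hc hc1 hc₁ hs1 h (fun _ => 0)
  have h1 := hfar₀ hg b hb x hx hxk
  refine h1.trans ?_
  exact (hN _ _ (sum_Dn hV h.nN) (zz_le hV hc₁ (by linarith only [hs1]) h)).2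

/-- the failure probability -/
theorem p_ok {a : ℝ} (hV : V.Pre a) (hw1 : (V.w : ℝ) ≤ 1) (hβ : V.β ≤ 1 / 2000) (hn : n ≤ V.N) :
    Real.exp (-(qn (sn V n))⁻¹) ≤ V.p n := by
  have hs : 0 < sn V n := sg_pos hV (n + 1)
  show _ ≤ pf V.w V.th V.kk V.β V.N n
  unfold pf
  rw [if_pos hn]
  refine Real.exp_le_exp.2 (neg_le_neg ?_)
  have h1 : sn V n ≤ V.sg n := AHH.H61.sg_anti hV (Nat.le_succ n)
  have h2 : V.sg n ≤ 1 := (AHH.H61.sg_le hV n).trans hw1
  have h3 := AHH.H61.sg_pos hV n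
  have h4 : (qn (sn V n))⁻¹ = sn V n ^ (-(1 / 2000 : ℝ)) := by
    unfold qn
    rw [Real.rpow_neg hs.le]
  rw [h4]
  calc V.sg n ^ (-V.β) ≤ V.sg n ^ (-(1 / 2000 : ℝ)) :=
        Real.rpow_le_rpow_of_exponent_ge h3 h2 (by linarith only [hβ])
    _ ≤ _ := Real.rpow_le_rpow_of_nonpos hs h1 (by norm_num)

end Pool.Agent.AND2B.H28
end
end -- Pool.Agent.Helper28_AHH.KilP

section -- Pool.Agent.Helper38_AHH.KPhi

/-!
# AND2B, field kil: the potential of the processed clusters, the first resolvent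
-/

set_option autoImplicit false

open scoped BigOperators NNReal

noncomputable section

namespace Pool.Agent.AHH.H38

open Pool.Agent.BED (Tor)
open Pool.Agent.AND2B (Ev)
open Pool.Agent.AND.Num
open Pool.Agent.AND2B.H28 (KH)

variable {d : ℕ} {a e c C : ℝ}

/-- the potential is at most two, if the clock is small -/
theorem phi_le {V : AND2B.Env d} (hV : V.Pre a) {n : ℕ} (hn : n ≤ V.N)
    (hs : 12 * ((d : ℝ) + 1) * V.sg (n + 1) ≤ 1) (P : Finset V.X) (x : V.X) :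
    Phi V.G ((bud V).tau n) n P x ≤ 2 := by
  have h0 : 0 < V.sg (n + 1) := H61.sg_pos hV (n + 1)
  refine H61.Phi_le_Gt d V.μ V.J V.N V.l V.r n _ (Real.rpow_nonneg h0.le _) ?_ P x
  have h1 : (2 ^ V.r n : ℝ) ≤ V.sg (n + 1) ^ (-(4 : ℝ)) := hV.sc.rup n hn
  have h2 : (12 * ((d : ℝ) + 1) * 2 ^ V.r n) ^ d ≤
      (12 * ((d : ℝ) + 1) * V.sg (n + 1) ^ (-(4 : ℝ))) ^ d := by gcongr
  have h3 : V.sg (n + 1) ^ (5 * (d : ℝ)) = (V.sg (n + 1) ^ (5 : ℝ)) ^ d := by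
    rw [Real.rpow_mul h0.le, Real.rpow_natCast]
  have h4 : V.sg (n + 1) ^ (5 : ℝ) * (12 * ((d : ℝ) + 1) * V.sg (n + 1) ^ (-(4 : ℝ))) =
      12 * ((d : ℝ) + 1) * V.sg (n + 1) := by
    have : V.sg (n + 1) ^ (5 : ℝ) * V.sg (n + 1) ^ (-(4 : ℝ)) = V.sg (n + 1) := by
      rw [← Real.rpow_add h0]
      norm_num
    calc _ = 12 * ((d : ℝ) + 1) * (V.sg (n + 1) ^ (5 : ℝ) * V.sg (n + 1) ^ (-(4 : ℝ))) := by ring
      _ = _ := by rw [this]
  show V.sg (n + 1) ^ (5 * (d : ℝ)) * (12 * ((d : ℝ) + 1) * 2 ^ V.r n) ^ d ≤ 1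
  calc V.sg (n + 1) ^ (5 * (d : ℝ)) * (12 * ((d : ℝ) + 1) * 2 ^ V.r n) ^ d
      ≤ V.sg (n + 1) ^ (5 * (d : ℝ)) *
        (12 * ((d : ℝ) + 1) * V.sg (n + 1) ^ (-(4 : ℝ))) ^ d :=
        mul_le_mul_of_nonneg_left h2 (Real.rpow_nonneg h0.le _)
    _ = (12 * ((d : ℝ) + 1) * V.sg (n + 1)) ^ d := by rw [h3, ← mul_pow, h4]
    _ ≤ 1 := pow_le_one₀ (by positivity) hs

/-- (b1) -/
theorem ev_phi : Ev d a e c C fun V => ∀ n ≤ V.N, ∀ (P : Finset V.X) (x : V.X),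
    Phi V.G ((bud V).tau n) n P x ≤ 2 := by
  refine ((H61.ev_good (d := d) (a := a) (es := e) (c := c) (C := C)).and
    (H61.ev_small (fun _ _ _ _ _ s => 12 * ((d : ℝ) + 1) * s ≤ 1) fun _ _ _ _ _ _ _ _ _ => ?_)).imp
    fun V hV n hn P x => ?_
  · refine (small_le (1 / (12 * ((d : ℝ) + 1))) (by positivity)).mono fun s _ h => ?_
    rwa [le_div_iff₀ (by positivity), mul_comm] at h
  · have hP : V.Pre a := hV.1.toPre
    exact phi_le hP hn (hV.2 _ (H61.sg_pos hP _) (H61.sg_le hP _)) P x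

/-- (b2) -/
theorem g0_le {V : AND2B.Env d} (hV : V.Good a e c C) (x y : V.X) :
    ‖(toE V c C).G₀ x y‖ ≤ C := hV.st.hG x y

theorem ev_g0 : Ev d a e c C fun V => ∀ x y : V.X, ‖(toE V c C).G₀ x y‖ ≤ C :=
  H61.ev_good.imp fun _ hV x y => g0_le hV x y

end Pool.Agent.AHH.H38
end
end -- Pool.Agent.Helper38_AHH.KPhi

section -- Pool.Agent.Helper28_AHH.KilH

/-!
# AND2B, field kil (helper28): THE FIRST HALF

From the hypotheses of the field kil: an attempt reaches, with failure probability at most `p n`, a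
configuration with `KL2.Fin1`.
-/

set_option autoImplicit false
set_option linter.unusedSectionVars false

open scoped BigOperators NNReal ENNReal

noncomputable section

namespace Pool.Agent.AND2B.H28

open Pool.Agent.AND.Num
open Pool.Agent.ANP (Cfg Att)
open Pool.Agent.AHH (toE bud Rl Al gg)
open Pool.Agent.ATT.H76 (mkA In0)
open Pool.Agent.KL2 (Fin1)

variable {d : ℕ}

/-- the numbers -/
structure NumK (d : ℕ) (c C K : ℝ) (th : ℝ≥0) (s : ℝ) : Prop where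
  le : s ≤ 1 / 3
  wC : s * (2 * C) ≤ 1 / 2
  far : FarN d c (Kd d th) s
  Kq : K * qn s ≤ 1
  mis : s ^ (1 / 8 : ℝ) + s ^ (1 / 10 : ℝ) * 2 ≤ qn s ^ 198 / 2
  del : 3 * s ^ (1 / 20 : ℝ) ≤ 1 / 2
  icR : s ^ (1 / 10 : ℝ) * 2 ≤ 1 / 2
  lR : 1 + s ^ (1 / 200 : ℝ) * 2 ≤ 2
  kn : (qn s)⁻¹ ^ 2260 ≤ s ^ (-(6 / 5 : ℝ)) - 1
  mm : 4 * qn s ^ 80 ≤ s ^ (1 / 30 : ℝ)
  MM : 9 * (qn s)⁻¹ ^ 280 ≤ s ^ (-(1 / 5) : ℝ)

theorem numK (hd : 0 < d) (c C K : ℝ) (hc : 0 < c) (hC : 1 ≤ C) (hK : 1 ≤ K) (th : ℝ≥0) :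
    Small (NumK d c C K th) := by
  have h1 := far_small d hd c (Kd d th) hc
  have h2 := small_le (1 / 3) (by norm_num)
  have h3 := small_le (1 / (4 * C)) (by positivity)
  have h4 := small_pow' K 1 (1 / 2000) 0 one_pos (by norm_num)
  have h5 := small_pow' 1 (1 / 4) (1 / 8) (198 / 2000) (by norm_num) (by norm_num)
  have h6 := small_pow' 2 (1 / 4) (1 / 10) (198 / 2000) (by norm_num) (by norm_num)
  have h7 := small_pow' 3 (1 / 2) (1 / 20) 0 (by norm_num) (by norm_num)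
  have h8 := small_pow' 2 (1 / 2) (1 / 10) 0 (by norm_num) (by norm_num)
  have h9 := small_pow' 2 1 (1 / 200) 0 (by norm_num) (by norm_num)
  have h10 := small_pow' 1 (1 / 2) (-(113 / 100)) (-(6 / 5)) (by norm_num) (by norm_num)
  have h11 := small_pow' 1 (1 / 2) 0 (-(6 / 5)) (by norm_num) (by norm_num)
  have h12 := small_pow' 4 1 (80 / 2000) (1 / 30) (by norm_num) (by norm_num)
  have h13 := small_pow' 9 1 (-(280 / 2000)) (-(1 / 5)) (by norm_num) (by norm_num)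
  refine ((((((((((((h1.and h2).and h3).and h4).and h5).and h6).and h7).and h8).and h9).and
    h10).and h11).and h12).and h13).mono ?_
  rintro s hs ⟨⟨⟨⟨⟨⟨⟨⟨⟨⟨⟨⟨h1, h2⟩, h3⟩, h4⟩, h5⟩, h6⟩, h7⟩, h8⟩, h9⟩, h10⟩, h11⟩, h12⟩, h13⟩
  simp only [Real.rpow_zero, mul_one, one_mul] at h4 h5 h6 h7 h8 h9 h10 h11 h12 h13
  refine ⟨h2, ?_, h1, h4, ?_, h7, by linarith only [h8], by linarith only [h9], ?_, ?_, ?_⟩
  · rw [le_div_iff₀ (by positivity)] at h3
    linarith only [h3]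
  · rw [qn_pow hs]
    norm_num at h5 h6 ⊢
    linarith only [h5, h6]
  · rw [qn_inv_pow hs]
    norm_num at h10 h11 ⊢
    linarith only [h10, h11]
  · rw [qn_pow hs]
    norm_num at h12 ⊢
    linarith only [h12]
  · rw [qn_inv_pow hs]
    norm_num at h13 ⊢
    linarith only [h13]

/-- THE FIRST HALF -/
theorem fhalf (hd : 0 < d) (a es c C : ℝ) (hc : 0 < c) (hc1 : c ≤ 1) (hC : 1 ≤ C) :
    Ev d a es c C fun V => ∀ (n : ℕ) (T₀ T : Cfg V.X) (run₀ run P Q : Finset V.X)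
      (v : V.X → ℝ), KH V c C n T₀ run₀ P T run Q → ∀ Okf : Cfg V.X → Prop,
        (∀ T' : Cfg V.X, Fin1 (toE V c C) n T T' run Q v (rkn (V.sg (n + 1))) (V.Kn n)
          (V.sg (n + 1) ^ (3 / 25 : ℝ)) (V.sg (n + 1) ^ (1 / 30 : ℝ))
          (V.sg (n + 1) ^ (-(1 / 5) : ℝ)) (V.sg (n + 1) ^ (1 / 10 : ℝ)) → Okf T') →
        Att (run ∩ V.G.nbh Q (V.G.ρ n)) Q v Okf T (ENNReal.ofReal (V.p n)) := by
  obtain ⟨K₀, hK₀, hatt⟩ := ATT.H76.attempt ATT.H38.phn_ ATT.H38.ata_ ATT.H38.net_ (c / 2) (2 * C)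
    (4 * C) (DD d) (by positivity) (by positivity) (by linarith only [hC]) (by unfold DD; omega)
  set K : ℝ := K₀ + 2000 + 100 / (c / 2) with hK
  have hK1 : 0 ≤ 100 / (c / 2) := by positivity
  have hN := AHH.H61.ev_small (d := d) (a := a) (es := es) (c := c) (C := C)
    (fun th _ _ _ _ s => NumK d c C K th s) fun th _ _ _ _ _ _ _ _ =>
      numK hd c C K hc hC (by linarith) th
  have h1 := AHH.H61.ev_good (d := d) (a := a) (es := es) (c := c) (C := C)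
  have h2 := AHH.H61.ev_be (d := d) (a := a) (es := es) (c := c) (C := C)
    (fun _ _ _ _ _ => 1 / 2000) fun _ _ _ _ _ _ _ _ _ => by norm_num
  have h3 := AHH.H61.ev_c1 (d := d) (a := a) (es := es) (c := c) (C := C) (1 / 1000)
    (by norm_num)
  have h4 := AHH.H61.ev_e0 (d := d) (a := a) (es := es) (c := c) (C := C)
    (fun V => V.sg (V.N + 1)) (fun V hV => AHH.H61.sg_pos hV _) (fun V e₀ m ζ => rfl)
  have h5 := AHH.H38.ev_phi (d := d) (a := a) (e := es) (c := c) (C := C)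
  refine (((((hN.and h1).and h2).and h3).and h4).and h5).imp ?_
  rintro V ⟨⟨⟨⟨⟨hN, hG⟩, hβ⟩, hc₁⟩, he⟩, hφ⟩ n T₀ T run₀ run P Q v h Okf hOk
  have hV : V.Pre a := hG.toPre
  have hs : 0 < sn V n := sg_pos hV (n + 1)
  have hNs : NumK d c C K V.th (sn V n) := hN _ hs (AHH.H61.sg_le hV _)
  have hNw : NumK d c C K V.th V.w := hN _ (AHH.H61.w_pos hV) le_rfl
  have hq := qn_pos hs
  have hes : V.e₀ ≤ sn V n := he.trans (AHH.H61.sg_anti hV (by have := h.nN; omega))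
  have hs3 := hNs.le
  have hw3 := hNw.le
  have hIn0 : In0 (Hm d (2 ^ V.μ) V.E) V.e₀ T (run ∩ V.G.nbh Q (V.G.ρ n)) Q
      (V.cl (V.kk (n + 1))) (qn (sn V n)) (c / 2) (2 * C) (4 * C) := by
    refine AHH.H76.in0_of_rl (toE V c C) (bud V) n T₀ T run₀ run P Q h.rl h.fc (qn (sn V n)) C 2
      (4 * C) hq ?_ ⟨hG.e0, ?_⟩ ?_ ?_ (AHH.H38.g0_le hG) (hφ n h.nN P) ?_ ?_ ?_ ?_ ?_ ?_ ?_
      h.pen ?_
    · rw [qn_pow hs]
      norm_num
      rfl
    · rw [qn_pow hs]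
      norm_num
      exact hes
    · show 0 < c / 2
      positivity
    · show V.e₀ + V.cl 0 * (2 * C) ≤ 1
      rw [AHH.cl_zero]
      have := hNw.wC
      linarith only [hs, hes, hs3, this]
    · show 0 ≤ V.sg (n + 1) ^ (1 / 10 : ℝ)
      positivity
    · show 0 ≤ V.sg (n + 1) ^ (1 / 200 : ℝ)
      positivity
    · show 0 ≤ 1 / 4 * (V.cl (V.kk (n + 1)) : ℝ) ^ (-(3 / 4) : ℝ) * (2 - V.sg n ^ (1 / 400 : ℝ))
      have h6 : V.sg n ^ (1 / 400 : ℝ) ≤ 1 := Real.rpow_le_one (AHH.H61.sg_pos hV n).le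
        ((AHH.H61.sg_le hV n).trans (by linarith only [hs, hs3, hw3])) (by norm_num)
      have h7 : 0 ≤ (V.cl (V.kk (n + 1)) : ℝ) ^ (-(3 / 4) : ℝ) := by positivity
      have h8 : 0 ≤ 2 - V.sg n ^ (1 / 400 : ℝ) := by linarith only [hs, hs3, h6]
      positivity
    · exact hNs.mis
    · show C + AHH.gr V (1 / 20) n (V.kk (n + 1)) + V.sg (n + 1) ^ (1 / 10 : ℝ) * 2 ≤ 4 * C / 2
      have h6 := (AHH.gr_bd V hV.th.2.le (p := 1 / 20) (by norm_num) n (V.kk (n + 1))).2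
      have h7 := hNw.del
      have h8 : V.sg (n + 1) ^ (1 / 10 : ℝ) * 2 ≤ 1 / 2 := hNs.icR
      linarith only [hC, h6, h7, h8]
    · linarith only [hC, hs, hs3]
    · show 1 / 4 * (V.cl (V.kk (n + 1)) : ℝ) ^ (-(3 / 4) : ℝ) * (2 - V.sg n ^ (1 / 400 : ℝ)) *
        (1 + V.sg (n + 1) ^ (1 / 200 : ℝ) * 2) ≤ (qn (sn V n))⁻¹ ^ 1500
      rw [qn_inv_pow hs]
      have h6 : 0 ≤ V.sg n ^ (1 / 400 : ℝ) := Real.rpow_nonneg (AHH.H61.sg_pos hV n).le _
      have h7 : V.sg n ^ (1 / 400 : ℝ) ≤ 1 := Real.rpow_le_one (AHH.H61.sg_pos hV n).le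
        ((AHH.H61.sg_le hV n).trans (by linarith only [hs, hs3, hw3])) (by norm_num)
      have h8 : 1 + V.sg (n + 1) ^ (1 / 200 : ℝ) * 2 ≤ 2 := hNs.lR
      have h9 : 0 ≤ (sn V n) ^ (-(3 / 4) : ℝ) := by positivity
      have h10 : 0 ≤ V.sg (n + 1) ^ (1 / 200 : ℝ) := by positivity
      have e1 : -(((1500 : ℕ) : ℝ) / 2000) = -(3 / 4 : ℝ) := by norm_num
      rw [e1]
      show 1 / 4 * (sn V n) ^ (-(3 / 4) : ℝ) * (2 - V.sg n ^ (1 / 400 : ℝ)) *
        (1 + V.sg (n + 1) ^ (1 / 200 : ℝ) * 2) ≤ _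
      calc 1 / 4 * (sn V n) ^ (-(3 / 4) : ℝ) * (2 - V.sg n ^ (1 / 400 : ℝ)) *
            (1 + V.sg (n + 1) ^ (1 / 200 : ℝ) * 2)
          ≤ 1 / 4 * (sn V n) ^ (-(3 / 4) : ℝ) * 2 * 2 := by
            refine mul_le_mul (mul_le_mul_of_nonneg_left (by linarith only [h6]) (by positivity)) h8
              (by positivity) (by positivity)
        _ = _ := by ring
    · rw [qn_inv_pow hs]
      refine (h.cardQ hV).trans ?_
      refine Real.rpow_le_rpow_of_exponent_ge hs (by linarith only [hs, hs3]) ?_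
      norm_num
      linarith only [hc₁]
  have hKq := hNs.Kq
  have hK₀q : K₀ * qn (sn V n) ≤ 1 := by
    refine le_trans (mul_le_mul_of_nonneg_right ?_ hq.le) hKq
    linarith only [hK, hK1, hs, hs3]
  obtain ⟨hHyp, hAtt⟩ := hatt V.X (Hm d (2 ^ V.μ) V.E) V.e₀ T (run ∩ V.G.nbh Q (V.G.ρ n))
    (run ∩ V.G.nbh Q (rkn (sn V n))) Q (V.cl (V.kk (n + 1))) v (qn (sn V n)) hIn0 hK₀q
    (Rk_sub hV (by linarith only [hs, hs3]) h) (cardR hV (by linarith only [hc₁, hs, hs3]) hs3 h)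
    (hfarK hd hV hG.e0 hc hc1 (by linarith only [hc₁, hs, hs3]) (by linarith only [hs, hs3]) hNs.far h v)
    (hfar₀K hd hV hG.e0 hc hc1 (by linarith only [hc₁, hs, hs3]) (by linarith only [hs, hs3]) hNs.far h)
  have hfin := hAtt Okf fun T' Go hSt hU hF => hOk T' ?_
  · refine att_sub (Rk_sub hV (by linarith only [hs, hs3]) h) (fun _ h => h) ?_
    exact Att.mono _ _ _ (ENNReal.ofReal_le_ofReal (p_ok hV (by linarith only [hs, hs3, hw3]) hβ h.nN)) hfin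
  · have hIn := ATT.H76.toIn ATT.H38.net_ hIn0 (by positivity) (by positivity)
    refine AHH.H76.fin1 ATT.H38.out_ (toE V c C) n T T' run Q
      (run ∩ V.G.nbh Q (rkn (sn V n))) (V.cl (V.kk (n + 1))) v (qn (sn V n)) (c / 2) (2 * C)
      (4 * C) hIn K hKq (by linarith only [hK₀, hK, hK1, hs, hs3]) (by linarith only [hK₀, hK, hs, hs3]) (by positivity) _ _ _ _ _ hHyp Go hSt hU hF
      h.rl.sub.2 (fun x hx => (h.pen x hx).1) (rkn (sn V n)) (V.Kn n)
      Finset.inter_subset_right ?_ _ _ _ _ ?_ hNs.mm hNs.MM ?_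
    · refine hNs.kn.trans ?_
      rw [hV.sc.kn n h.nN]
      have := Nat.lt_floor_add_one (sn V n ^ (-(6 / 5 : ℝ)))
      show sn V n ^ (-(6 / 5 : ℝ)) - 1 ≤ (⌊sn V n ^ (-(6 / 5 : ℝ))⌋₊ : ℝ)
      linarith only [this]
    · rw [qn_pow hs]
      exact Real.rpow_le_rpow_of_exponent_ge hs (by linarith only [hs, hs3]) (by norm_num)
    · rw [qn_pow hs]
      refine le_of_eq ?_
      show _ = sn V n ^ (1 / 10 : ℝ)
      norm_num

end Pool.Agent.AND2B.H28
end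
end -- Pool.Agent.Helper28_AHH.KilH

section -- Pool.Agent.Helper28_AHH.Kil

/-!
# AND2B (helper28): THE FIELD `kil`, from its second half
-/

set_option autoImplicit false
set_option linter.unusedSectionVars false

open scoped BigOperators NNReal ENNReal

noncomputable section

namespace Pool.Agent.AND2B.H28

open Pool.Agent.ANP (Cfg Att)
open Pool.Agent.AHH (toE bud Rl)
open Pool.Agent.KL2 (Fin1)

/-- THE SECOND HALF: after a successful attempt the invariant of the release phase holds -/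
def KilSStmt : Prop := ∀ (d : ℕ) (a c C : ℝ), 3 ≤ d → 0 < a → 0 < c → c ≤ 1 / 2 → 1 ≤ C →
  Ev d a AHH.es c C fun V => ∀ (n : ℕ) (T₀ T : Cfg V.X) (run₀ run P Q : Finset V.X)
    (v : V.X → ℝ) (T' : Cfg V.X), KH V c C n T₀ run₀ P T run Q →
      Fin1 (toE V c C) n T T' run Q v (rkn (V.sg (n + 1))) (V.Kn n)
        (V.sg (n + 1) ^ (3 / 25 : ℝ)) (V.sg (n + 1) ^ (1 / 30 : ℝ))
        (V.sg (n + 1) ^ (-(1 / 5) : ℝ)) (V.sg (n + 1) ^ (1 / 10 : ℝ)) →
      ¬ V.Vi T' →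
      Rl (toE V c C) (bud V) n T₀ run₀ (P ∪ V.G.nbh Q (V.G.ρ n)) T' {x ∈ run | T'.s x ≠ 0}

/-- THE FIELD -/
theorem kilF (h2 : KilSStmt) : AHH.KilF := by
  intro d a c C hd ha hc hc' hC
  refine ((fhalf (by omega : 0 < d) a AHH.es c C hc (by linarith) hC).and
    (h2 d a c C hd ha hc hc' hC)).imp ?_
  rintro V ⟨hf, hs⟩ n T₀ run₀ P T run Q v hn hn1 hv₀ hv hst hfc₀ hfc hrl hne hpen hdia hcard
    hiso hfar
  have hK : KH V c C n T₀ run₀ P T run Q :=
    ⟨hn, hn1, hv₀, hv, hst, hfc₀, hfc, hrl, hne, hpen, hdia, hcard, hiso, hfar⟩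
  refine hf n T₀ T run₀ run P Q v hK _ fun T' hF => ⟨hF.app, hF.num, ?_⟩
  by_cases hVi : V.Vi T'
  · exact Or.inl hVi
  · exact Or.inr (hs n T₀ T run₀ run P Q v T' hK hF hVi)

end Pool.Agent.AND2B.H28
end
end -- Pool.Agent.Helper28_AHH.Kil

section -- Pool.Agent.Helper41_AHH.Sca

/-!
# The scales in powers of `s = sg (n + 1)`
-/

set_option autoImplicit false

open scoped BigOperators NNReal Matrix

noncomputable section

namespace Pool.Agent.AHH.H41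

open Pool.Agent.AND.Num

/-- what is used: the super-stage `n ≤ N`, `s = sg (n + 1)` -/
structure Sz {d : ℕ} (V : AND2B.Env d) (n : ℕ) (s : ℝ) : Prop where
  hw : 0 < V.w
  hth : 0 < V.th ∧ V.th < 1
  hw1 : (V.w : ℝ) ≤ 1
  sc : V.Sc
  hn : n ≤ V.N
  hs : s = V.sg (n + 1)

section sz

variable {d n : ℕ} {V : AND2B.Env d} {s a es' c C : ℝ}

theorem Sz.of_pre (h : V.Pre a) (hw1 : (V.w : ℝ) ≤ 1) (hn : n ≤ V.N) : Sz V n (V.sg (n + 1)) :=
  ⟨h.w, ⟨lt_of_lt_of_le (by norm_num) h.th.1, h.th.2⟩, hw1, h.sc, hn, rfl⟩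

theorem Sz.of_good (h : V.Good a es' c C) (hw1 : (V.w : ℝ) ≤ 1) (hn : n ≤ V.N) :
    Sz V n (V.sg (n + 1)) := Sz.of_pre h.toPre hw1 hn

theorem Sz.pos (h : Sz V n s) : 0 < s := by
  rw [h.hs]
  exact_mod_cast cl_pos V h.hw h.hth.1 _

theorem Sz.cpos (h : Sz V n s) (k : ℕ) : (0 : ℝ) < V.cl k := by
  exact_mod_cast cl_pos V h.hw h.hth.1 k

theorem Sz.spos (h : Sz V n s) (m : ℕ) : 0 < V.sg m := h.cpos _

theorem Sz.le_w (h : Sz V n s) : s ≤ V.w := by
  rw [h.hs]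
  exact_mod_cast cl_le V h.hth.2.le _

theorem Sz.le1 (h : Sz V n s) : s ≤ 1 := h.le_w.trans h.hw1

theorem Sz.lt1 (h : Sz V n s) : s < 1 := by
  have hk : 0 < V.kk (n + 1) := lt_of_le_of_lt (Nat.zero_le _) (h.sc.km n)
  have h1 : s < V.w := by
    rw [h.hs]
    show ((AND2B.cl V.w V.th (V.kk (n + 1)) : ℝ≥0) : ℝ) < V.w
    unfold AND2B.cl
    push_cast
    have h2 : (V.th : ℝ) ^ V.kk (n + 1) < 1 :=
      pow_lt_one₀ (NNReal.coe_nonneg _) (by exact_mod_cast h.hth.2) hk.ne'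
    have h3 : (0 : ℝ) < V.w := by exact_mod_cast h.hw
    nlinarith
  exact h1.trans_le h.hw1

theorem Sz.kmono (h : Sz V n s) {i j : ℕ} (hij : i ≤ j) : V.kk i ≤ V.kk j :=
  (strictMono_nat_of_lt_succ h.sc.km).monotone hij

theorem Sz.santi (h : Sz V n s) {i j : ℕ} (hij : i ≤ j) : V.sg j ≤ V.sg i := by
  exact_mod_cast cl_anti V h.hth.2.le (h.kmono hij)

/-- the clocks of the stages of the super-stage `n` -/
theorem Sz.cl_lo (h : Sz V n s) {k : ℕ} (hk : k ≤ V.kk (n + 1)) : Lo s 1 (V.cl k) := by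
  unfold Lo
  rw [Real.rpow_one, h.hs]
  exact_mod_cast cl_anti V h.hth.2.le hk

theorem Sz.w_lo (h : Sz V n s) : Lo s 1 (V.w : ℝ) := by
  unfold Lo
  rw [Real.rpow_one]
  exact h.le_w

theorem Sz.sg_lo (h : Sz V n s) {m : ℕ} (hm : m ≤ n + 1) : Lo s 1 (V.sg m) :=
  h.cl_lo (h.kmono hm)

/-- `sg n ≤ s ^ (1 / (α + 1))` -/
theorem Sz.sg_up (h : Sz V n s) : Up s (1 / ((V.α : ℝ) + 1)) (V.sg n) := by
  refine ⟨(h.spos n).le, ?_⟩
  have h1 := h.sc.low n h.hn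
  have h2 : (0 : ℝ) < (V.α : ℝ) + 1 := by positivity
  have h3 : V.sg n = ((V.sg n) ^ (V.α + 1)) ^ (1 / ((V.α : ℝ) + 1)) := by
    rw [← Real.rpow_natCast, ← Real.rpow_mul (h.spos n).le]
    push_cast
    rw [mul_one_div_cancel h2.ne', Real.rpow_one]
  rw [h3, h.hs]
  exact Real.rpow_le_rpow (pow_nonneg (h.spos n).le _) h1 (by positivity)

/-- clocks of the super-stage `n` -/
theorem Sz.cl_up (h : Sz V n s) {k : ℕ} (hk : V.kk n ≤ k) :
    Up s (1 / ((V.α : ℝ) + 1)) (V.cl k) :=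
  h.sg_up.of_le (h.cpos k).le (by exact_mod_cast cl_anti V h.hth.2.le hk)

theorem Sz.L_lo (h : Sz V n s) : Lo s (-5) ((2 : ℝ) ^ V.l n) := by
  unfold Lo
  rw [h.hs]
  exact h.sc.llow n h.hn

theorem Sz.L_up (h : Sz V n s) : Up s (-V.C₁) ((2 : ℝ) ^ V.l n) :=
  ⟨by positivity, by rw [h.hs]; exact h.sc.lup n h.hn⟩

theorem Sz.r_lo (h : Sz V n s) : Lo s (-3) ((2 : ℝ) ^ V.r n) := by
  unfold Lo
  rw [h.hs]
  exact h.sc.rlow n h.hn

theorem Sz.r_up (h : Sz V n s) : Up s (-4) ((2 : ℝ) ^ V.r n) :=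
  ⟨by positivity, by rw [h.hs]; exact h.sc.rup n h.hn⟩

/-- `5 ≤ C₁` -/
theorem Sz.C1 (h : Sz V n s) : 5 ≤ V.C₁ := by
  by_contra hc
  push Not at hc
  have h1 := (h.L_lo).trans h.L_up.le
  have h2 : s ^ (-V.C₁) < s ^ (-5 : ℝ) :=
    Real.rpow_lt_rpow_of_exponent_gt h.pos h.lt1 (by linarith)
  linarith

theorem Sz.kn (h : Sz V n s) : Up s (-(6 / 5)) (V.Kn n : ℝ) := by
  refine ⟨Nat.cast_nonneg _, ?_⟩
  rw [h.sc.kn n h.hn, h.hs]
  exact Nat.floor_le (Real.rpow_nonneg (h.spos _).le _)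

/-- the same from below -/
theorem Sz.kn_lo (h : Sz V n s) : s ^ (-(6 / 5) : ℝ) - 1 ≤ (V.Kn n : ℝ) := by
  rw [h.sc.kn n h.hn, h.hs]
  have := Nat.lt_floor_add_one (V.sg (n + 1) ^ (-(6 / 5) : ℝ))
  linarith

theorem Sz.dn (h : Sz V n s) : Up s (-(5 / 4)) (V.Dn n : ℝ) :=
  ⟨Nat.cast_nonneg _, by rw [h.hs]; exact h.sc.dl n h.hn⟩

/-- the size of a cluster -/
theorem Sz.clu (h : Sz V n s) (h1 : 1 ≤ n) :
    Up s (-V.c₁) (3 ^ d * V.J * (6 * 2 ^ V.l (n - 1) + 1) ^ d : ℝ) :=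
  ⟨by positivity, by rw [h.hs]; exact h.sc.clu n h1 h.hn⟩

/-- `L n`, `ρ n` of the geometry -/
theorem gt_L (V : AND2B.Env d) (n : ℕ) : V.G.L n = 2 ^ V.l n := rfl

theorem gt_r (V : AND2B.Env d) (n : ℕ) : V.G.ρ n = 2 ^ V.r n := rfl

theorem Sz.card (h : Sz V n s) (h1 : 1 ≤ n) {Q : Finset V.X}
    (hQ : Q.card ≤ 3 ^ d * V.G.J * (6 * V.G.L (n - 1) + 1) ^ d) : Up s (-V.c₁) (Q.card : ℝ) := by
  refine (h.clu h1).of_le (Nat.cast_nonneg _) ?_
  have h2 : (Q.card : ℝ) ≤ ((3 ^ d * V.G.J * (6 * V.G.L (n - 1) + 1) ^ d : ℕ) : ℝ) := by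
    exact_mod_cast hQ
  refine h2.trans (le_of_eq ?_)
  rw [gt_L]
  push_cast
  rfl

theorem Sz.side (h : Sz V n s) : 2 ^ V.l n ≤ 2 ^ V.μ :=
  Nat.pow_le_pow_right (by norm_num) ((h.sc.lm h.hn).trans (by have := h.sc.lN; omega))

end sz

/-- from `Small` to the environments: `w ≤ w₀` gives the property for all `s ≤ w` -/
theorem ex_small {P : ℝ → Prop} (h : Small P) :
    ∃ w₀ : ℝ, 0 < w₀ ∧ w₀ ≤ 1 ∧ ∀ w s : ℝ, w ≤ w₀ → 0 < s → s ≤ w → P s := by
  obtain ⟨w₀, h0, h1, h2⟩ := h.ex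
  exact ⟨w₀, h0, h1, fun w s hw hs hsw => h2 s hs (hsw.trans hw)⟩

end Pool.Agent.AHH.H41
end
end -- Pool.Agent.Helper41_AHH.Sca

section -- Pool.Agent.Helper30_AHH.Dat

/-!
# AND2B, field kil, second half: the data of the numeric lemmas from the environment (helper30)
-/

set_option autoImplicit false
set_option linter.unusedSectionVars false

open scoped BigOperators NNReal

noncomputable section

namespace Pool.Agent.AHH.H30

open Pool.Agent.AND.Num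
open Pool.Agent.AHH.H41
open Pool.Agent.ANP (Cfg)
open Pool.Agent.AND2B (Ev)
open Pool.Agent.AND2B.H28 (Kd sum_Dn sg_geo rkn KH)
open Pool.Agent.KL2

variable {d : ℕ}

/-- the constant of the number of dead sites -/
def Kz (d : ℕ) (th : ℝ≥0) : ℝ := 2 + 4 * Kd d th

/-- the size of a cluster -/
def clu (V : AND2B.Env d) (n : ℕ) : ℕ := 3 ^ d * V.J * (6 * 2 ^ V.l (n - 1) + 1) ^ d

/-- the lower bound of `lam` -/
theorem lam_lo {V : AND2B.Env d} {n : ℕ} {s : ℝ} (h : Sz V n s) :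
    1 / 4 * s ^ (-(3 / 4) : ℝ) ≤ (qq V n (V.kk (n + 1))).lam := by
  show _ ≤ 1 / 4 * (V.cl (V.kk (n + 1)) : ℝ) ^ (-(3 / 4) : ℝ) * (2 - V.sg n ^ (1 / 400 : ℝ))
  have h1 : V.sg n ^ (1 / 400 : ℝ) ≤ 1 := by
    refine Real.rpow_le_one (h.spos n).le ?_ (by norm_num)
    have h2 : V.sg n ≤ V.w := by exact_mod_cast cl_le V h.hth.2.le _
    exact h2.trans h.hw1
  have h3 : s = (V.cl (V.kk (n + 1)) : ℝ) := h.hs
  rw [← h3]
  have h4 : 0 ≤ 1 / 4 * s ^ (-(3 / 4) : ℝ) :=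
    mul_nonneg (by norm_num) (Real.rpow_nonneg h.pos.le _)
  nlinarith

/-- the upper bound of `lam` -/
theorem lam_up {V : AND2B.Env d} {n : ℕ} {s : ℝ} (h : Sz V n s) :
    (qq V n (V.kk (n + 1))).lam ≤ 1 / 2 * s ^ (-(3 / 4) : ℝ) := by
  show 1 / 4 * (V.cl (V.kk (n + 1)) : ℝ) ^ (-(3 / 4) : ℝ) * (2 - V.sg n ^ (1 / 400 : ℝ)) ≤ _
  have h1 : 0 ≤ V.sg n ^ (1 / 400 : ℝ) := Real.rpow_nonneg (h.spos n).le _
  have h3 : s = (V.cl (V.kk (n + 1)) : ℝ) := h.hs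
  rw [← h3]
  have h4 : 0 ≤ 1 / 4 * s ^ (-(3 / 4) : ℝ) :=
    mul_nonneg (by norm_num) (Real.rpow_nonneg h.pos.le _)
  nlinarith

/-- the dead sites, doubled -/
theorem zc_le {a : ℝ} {V : AND2B.Env d} (hV : V.Pre a) {n : ℕ} (hn : n ≤ V.N)
    (hs1 : V.sg (n + 1) ≤ 1) :
    Zc d n (fun j => 2 * V.Dn j) ≤ Kz d V.th * V.sg (n + 1) ^ (-(5 / 4) : ℝ) := by
  have h1 := sum_Dn hV hn
  have hs : 0 < V.sg (n + 1) := H61.sg_pos hV _
  have h2 : 1 ≤ V.sg (n + 1) ^ (-(5 / 4) : ℝ) :=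
    Real.one_le_rpow_of_pos_of_le_one_of_nonpos hs hs1 (by norm_num)
  have h3 : ∑ i ∈ Finset.range (n + 1), (3 ^ d * ((2 * V.Dn i : ℕ) : ℝ)) =
      2 * ∑ i ∈ Finset.range (n + 1), (3 ^ d * V.Dn i : ℝ) := by
    rw [Finset.mul_sum]
    refine Finset.sum_congr rfl fun i _ => ?_
    push_cast
    ring
  unfold Zc Kz
  rw [h3]
  have h4 : (-(5 / 4) : ℝ) = -(5 / 4 : ℝ) := rfl
  nlinarith only [h1, h2]

theorem zc_le' {a : ℝ} {V : AND2B.Env d} (hV : V.Pre a) {n : ℕ} (hn : n ≤ V.N)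
    (hs1 : V.sg (n + 1) ≤ 1) :
    Zc d n V.Dn ≤ Kz d V.th * V.sg (n + 1) ^ (-(5 / 4) : ℝ) :=
  (zc_mono V.Dn).trans (zc_le hV hn hs1)

/-- the clocks at the starts of the super-stages -/
theorem sg_pow {a : ℝ} {V : AND2B.Env d} (hV : V.Pre a) (i : ℕ) :
    V.sg i ≤ (V.th : ℝ) ^ i * V.w := by
  have h1 := sg_geo hV 0 i
  rw [zero_add] at h1
  exact h1.trans (mul_le_mul_of_nonneg_left (H61.sg_le hV 0)
    (pow_nonneg (NNReal.coe_nonneg _) _))

/-- the sum with the doubled numbers of dead sites, `w` small after `th` -/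
theorem sum2 {a : ℝ} {V : AND2B.Env d} (hV : V.Pre a) {n : ℕ} (hn : n ≤ V.N)
    (hw : 8 * 3 ^ d * (V.w : ℝ) ^ (15 / 4 : ℝ) ≤ 1 - (V.th : ℝ) ^ (15 / 4 : ℝ)) :
    ∑ i ∈ Finset.range (n + 1), (3 ^ d * (2 * V.Dn i : ℕ) : ℝ) / 2 ^ V.l i ≤ 1 / 4 := by
  have hthr : (0 : ℝ) < V.th := by exact_mod_cast H61.th_pos hV
  have hwp := H61.w_pos hV
  set ρ : ℝ := (V.th : ℝ) ^ (15 / 4 : ℝ) with hρ
  have r0 : 0 < ρ := Real.rpow_pos_of_pos hthr _
  have r1 : ρ < 1 := H61.th_rpow_lt hV (by norm_num)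
  have h1 : ∀ i ∈ Finset.range (n + 1), (3 ^ d * (2 * V.Dn i : ℕ) : ℝ) / 2 ^ V.l i ≤
      2 * 3 ^ d * (V.w : ℝ) ^ (15 / 4 : ℝ) * ρ ^ i := by
    intro i hi
    rw [Finset.mem_range] at hi
    have hs : 0 < V.sg (i + 1) := H61.sg_pos hV _
    have h2 := hV.sc.dl i (by omega)
    have h3 := hV.sc.llow i (by omega)
    have h4 : 0 < V.sg (i + 1) ^ (-(5 : ℝ)) := Real.rpow_pos_of_pos hs _
    have h5 : (V.Dn i : ℝ) / 2 ^ V.l i ≤ V.sg (i + 1) ^ (15 / 4 : ℝ) := by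
      rw [div_le_iff₀ (lt_of_lt_of_le h4 h3)]
      refine h2.trans ?_
      have h6 : V.sg (i + 1) ^ (-(5 / 4 : ℝ)) =
          V.sg (i + 1) ^ (15 / 4 : ℝ) * V.sg (i + 1) ^ (-(5 : ℝ)) := by
        rw [← Real.rpow_add hs]
        norm_num
      rw [h6]
      exact mul_le_mul_of_nonneg_left h3 (Real.rpow_nonneg hs.le _)
    have h7 : V.sg (i + 1) ^ (15 / 4 : ℝ) ≤ ρ ^ i * (V.w : ℝ) ^ (15 / 4 : ℝ) := by
      have h8 : V.sg (i + 1) ≤ (V.th : ℝ) ^ i * V.w :=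
        (H61.sg_anti hV (Nat.le_succ i)).trans (sg_pow hV i)
      refine (Real.rpow_le_rpow hs.le h8 (by norm_num)).trans (le_of_eq ?_)
      rw [Real.mul_rpow (by positivity) hwp.le, hρ, ← Real.rpow_natCast (V.th : ℝ),
        ← Real.rpow_mul hthr.le, ← Real.rpow_natCast ((V.th : ℝ) ^ (15 / 4 : ℝ)),
        ← Real.rpow_mul hthr.le, mul_comm (15 / 4 : ℝ)]
    push_cast
    calc (3 : ℝ) ^ d * (2 * (V.Dn i : ℝ)) / 2 ^ V.l i
        = 2 * 3 ^ d * ((V.Dn i : ℝ) / 2 ^ V.l i) := by ring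
      _ ≤ 2 * 3 ^ d * (ρ ^ i * (V.w : ℝ) ^ (15 / 4 : ℝ)) :=
          mul_le_mul_of_nonneg_left (h5.trans h7) (by positivity)
      _ = _ := by ring
  refine (Finset.sum_le_sum h1).trans ?_
  rw [← Finset.mul_sum]
  have h8 : ∑ i ∈ Finset.range (n + 1), ρ ^ i ≤ 1 / (1 - ρ) := by
    rw [geom_sum_eq r1.ne, div_le_iff_of_neg (by linarith only [r1])]
    have h11 : 0 ≤ ρ ^ (n + 1) := pow_nonneg r0.le _
    have h12 : 1 / (1 - ρ) * (ρ - 1) = -1 := by
      have : 1 - ρ ≠ 0 := by linarith only [r1]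
      field_simp
      ring
    rw [h12]
    linarith only [h11]
  have h9 : 0 ≤ 2 * 3 ^ d * (V.w : ℝ) ^ (15 / 4 : ℝ) := by positivity
  refine (mul_le_mul_of_nonneg_left h8 h9).trans ?_
  rw [mul_one_div, div_le_iff₀ (by linarith only [r1])]
  linarith only [hw]

/-- THE SIDE CONDITIONS of `kil2`, and the data -/
structure Side (V : AND2B.Env d) (c C : ℝ) (n k : ℕ) : Prop where
  hr : V.r n = k + 2
  dat : ∀ J mm MM hK : ℝ, 0 ≤ J → J ≤ V.sg (n + 1) ^ (3 / 25 : ℝ) → 0 ≤ mm →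
    mm ≤ V.sg (n + 1) ^ (1 / 30 : ℝ) → MM ≤ V.sg (n + 1) ^ (-(1 / 5) : ℝ) → 0 ≤ hK →
    hK ≤ V.sg (n + 1) ^ (1 / 10 : ℝ) →
    Dat d V.c₁ (Kz d V.th) (V.sg (n + 1)) n V.Dn V.μ k (clu V n) (V.Kn n) V.e₀
      ((bud V).q n (V.kk (n + 1))).lam J mm MM hK
  sum : ∑ i ∈ Finset.range (n + 1), (3 ^ d * (2 * V.Dn i : ℕ) : ℝ) / 2 ^ V.l i ≤ 1 / 4
  hZ : (rkn (V.sg (n + 1)) : ℝ) / 2 + Zc d n V.Dn ≤ ((V.G.ρ n : ℕ) : ℝ) / 4
  hCg : (toE V c C).C₀ + ((bud V).q n (V.kk (n + 1))).mis + 2 * (bud V).icR n ≤ 2 * C + 3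
  icR : 0 ≤ (bud V).icR n
  lR : 0 ≤ (bud V).lR n ∧ 2 * (bud V).lR n ≤ 1
  yR : 0 ≤ (bud V).yR n
  nR : 0 ≤ (bud V).nR n
  eps : ((bud V).q n (V.kk (n + 1))).eps ≤ ((bud V).q n (V.kk (n + 1))).rho
  phi : ∀ (P : Finset V.X) (x : V.X), Phi V.G ((bud V).tau n) n P x ≤ 2
  hclu : (clu V n : ℝ) ≤ V.sg (n + 1) ^ (-V.c₁)
  hkn : (V.Kn n : ℝ) ≤ V.sg (n + 1) ^ (-(6 / 5) : ℝ)
  hdn : clu V n + V.Kn n ≤ V.Dn n
  s0 : 0 < V.sg (n + 1)
  s1 : V.sg (n + 1) ≤ 1 / 2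
  w1 : (V.w : ℝ) ≤ 1
  e0 : 0 < V.e₀ ∧ V.e₀ ≤ V.sg (n + 1)

theorem ev_side (d : ℕ) (a c C : ℝ) (hc : 0 < c) (hC : 1 ≤ C) :
    Ev d a es c C fun V => ∀ n, 1 ≤ n → n ≤ V.N → ∃ k, Side V c C n k := by
  -- the small powers
  have h1 : Ev d a es c C fun V => ∀ s : ℝ, 0 < s → s ≤ V.w →
      (s ≤ 1 / 2 ∧ 8 * 3 ^ d * s ^ (15 / 4 : ℝ) ≤ (1 - (V.th : ℝ) ^ (15 / 4 : ℝ)) * s ^ (0 : ℝ)) ∧
      (1 * s ^ (-(8 / 5) : ℝ) ≤ 1 / 8 * s ^ (-(3 : ℝ)) ∧
        Kz d V.th * s ^ (-(5 / 4) : ℝ) ≤ 1 / 8 * s ^ (-(3 : ℝ))) ∧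
      (2 * s ^ (1 / 200 : ℝ) ≤ s ^ (0 : ℝ) ∧ 2 * s ^ (-(4 : ℝ)) ≤ s ^ (-(5 : ℝ))) := by
    refine H61.ev_small (fun th _ _ _ _ s =>
      (s ≤ 1 / 2 ∧ 8 * 3 ^ d * s ^ (15 / 4 : ℝ) ≤ (1 - (th : ℝ) ^ (15 / 4 : ℝ)) * s ^ (0 : ℝ)) ∧
      (1 * s ^ (-(8 / 5) : ℝ) ≤ 1 / 8 * s ^ (-(3 : ℝ)) ∧
        Kz d th * s ^ (-(5 / 4) : ℝ) ≤ 1 / 8 * s ^ (-(3 : ℝ))) ∧
      (2 * s ^ (1 / 200 : ℝ) ≤ s ^ (0 : ℝ) ∧ 2 * s ^ (-(4 : ℝ)) ≤ s ^ (-(5 : ℝ)))) ?_
    intro th c₁ C₁ α J hth hth1 _ _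
    have ht : 0 < 1 - (th : ℝ) ^ (15 / 4 : ℝ) := by
      have := Real.rpow_lt_one (NNReal.coe_nonneg th) (show (th : ℝ) < 1 by exact_mod_cast hth1)
        (show (0 : ℝ) < 15 / 4 by norm_num)
      linarith only [this]
    exact (((small_le (1 / 2) (by norm_num)).and
      (small_pow' (8 * 3 ^ d) _ (15 / 4) 0 ht (by norm_num))).and
      (((small_pow' 1 (1 / 8) _ _ (by norm_num) (by norm_num)).and
        (small_pow' (Kz d th) (1 / 8) _ _ (by norm_num) (by norm_num))).and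
      ((small_pow 2 (1 / 200) 0 (by norm_num)).and
        (small_pow 2 _ _ (by norm_num)))))
  have h2 : Ev d a es c C fun V => V.e₀ ≤ V.sg (V.N + 1) :=
    H61.ev_e0 (fun V => V.sg (V.N + 1)) (fun V hV => H61.sg_pos hV _) (fun _ _ _ _ => rfl)
  refine ((((H61.ev_good.and h1).and h2).and (H61.budOk d a c C hc hC)).and
    (H38.ev_phi (d := d) (a := a) (e := es) (c := c) (C := C))).imp ?_
  rintro V ⟨⟨⟨⟨hG, hV⟩, he⟩, hB⟩, hphi⟩ n hn1 hn
  have hP : V.Pre a := hG.toPre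
  have hw := H61.w_pos hP
  obtain ⟨⟨w1, w2⟩, -, -⟩ := hV V.w hw le_rfl
  rw [Real.rpow_zero, mul_one] at w2
  have hz := Sz.of_pre hP (show (V.w : ℝ) ≤ 1 by linarith only [hw, w1]) hn
  set s := V.sg (n + 1) with hs
  obtain ⟨⟨s1, -⟩, ⟨s2, s3⟩, s4, s5⟩ := hV s hz.pos hz.le_w
  rw [Real.rpow_zero] at s4
  have hsp := hz.pos
  -- the radius
  have hr3 : s ^ (-(3 : ℝ)) ≤ (2 : ℝ) ^ V.r n := hz.r_lo
  have hr1 : (8 : ℝ) ≤ s ^ (-(3 : ℝ)) := by
    have e1 : ((2 : ℝ)⁻¹) ^ (-(3 : ℝ)) = 8 := by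
      rw [show (-(3 : ℝ)) = ((-3 : ℤ) : ℝ) by norm_num, Real.rpow_intCast]
      norm_num
    rw [← e1]
    exact Real.rpow_le_rpow_of_nonpos hsp (by linarith only [s1]) (by norm_num)
  have hr2 : 2 ≤ V.r n := by
    by_contra hcon
    have e1 : V.r n ≤ 1 := by omega
    have e2 : (2 : ℝ) ^ V.r n ≤ 2 ^ 1 := pow_le_pow_right₀ (by norm_num) e1
    linarith only [hw, w1, hr3, hr1, e2]
  obtain ⟨k, hk⟩ : ∃ k, V.r n = k + 2 := ⟨V.r n - 2, by omega⟩
  have hrμ : V.r n ≤ V.μ := by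
    have e1 : (2 : ℝ) ^ V.r n ≤ s ^ (-(4 : ℝ)) := hz.r_up.le
    have e2 : s ^ (-(5 : ℝ)) ≤ (2 : ℝ) ^ V.l n := hz.L_lo
    have e3 : 0 < s ^ (-(4 : ℝ)) := Real.rpow_pos_of_pos hsp _
    have e4 : (2 : ℝ) ^ V.r n < 2 ^ V.l n := by linarith only [hw, w1, s5, hr3, hr1, e1, e2]
    have e5 : V.r n < V.l n := (pow_lt_pow_iff_right₀ (by norm_num)).1 e4
    have e6 := hP.sc.lm hn
    have e7 := hP.sc.lN
    omega
  have hclu : (clu V n : ℝ) ≤ s ^ (-V.c₁) := by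
    refine le_trans (le_of_eq ?_) (hz.clu hn1).le
    unfold clu
    push_cast
    rfl
  have hkn : (V.Kn n : ℝ) ≤ s ^ (-(6 / 5) : ℝ) := hz.kn.le
  have he0 : V.e₀ ≤ s := he.trans (H61.sg_anti hP (by omega))
  refine ⟨k, hk, fun J mm MM hK j1 j2 m1 m2 M1 k1 k2 =>
    { he := ⟨hG.e0, he0⟩
      lam := ⟨lam_lo hz, lam_up hz⟩
      hM := by omega
      rho := by
        rw [← hk]
        exact hr3
      clu := hclu
      kn := hkn
      zc := zc_le hP hn (by linarith only [hw, w1, s1])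
      J := ⟨j1, j2⟩
      mm := ⟨m1, m2⟩
      MM := M1
      hK := ⟨k1, k2⟩ }, sum2 hP hn w2, ?_, ?_, (hB.icR n).1, ⟨(hB.icR n).2.1, s4⟩,
    (hB.icR n).2.2.1, (hB.icR n).2.2.2.1, (hB.q n _).2.2.2.2, hphi n hn, hclu, hkn, ?_, hsp, s1,
    by linarith only [hw, w1], hG.e0, he0⟩
  · have e1 : (rkn s : ℝ) ≤ s ^ (-(8 / 5 : ℝ)) := Nat.floor_le (Real.rpow_nonneg hsp.le _)
    have e2 := zc_le' hP hn (by linarith only [hw, w1, s1] : V.sg (n + 1) ≤ 1)
    have e3 : ((V.G.ρ n : ℕ) : ℝ) = 2 ^ V.r n := by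
      rw [gt_r]
      push_cast
      rfl
    have e4 : 0 ≤ s ^ (-(8 / 5 : ℝ)) := Real.rpow_nonneg hsp.le _
    have e5 : 0 ≤ s ^ (-(3 : ℝ)) := Real.rpow_nonneg hsp.le _
    rw [e3]
    rw [one_mul] at s2
    linarith only [hw, w1, s2, s3, hr3, hr1, e1, e2]
  · show 2 * C + (V.cl (V.kk (n + 1)) : ℝ) ^ (1 / 8 : ℝ) + 2 * s ^ (1 / 10 : ℝ) ≤ 2 * C + 3
    have e1 : (V.cl (V.kk (n + 1)) : ℝ) ^ (1 / 8 : ℝ) ≤ 1 :=
      Real.rpow_le_one (NNReal.coe_nonneg _) (by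
        have : (V.cl (V.kk (n + 1)) : ℝ) = s := rfl
        linarith only [hw, w1, s1, this]) (by norm_num)
    have e2 : s ^ (1 / 10 : ℝ) ≤ 1 := Real.rpow_le_one hsp.le (by linarith only [hw, w1, s1]) (by norm_num)
    linarith only [e1, e2]
  · have e1 := hP.sc.dn n hn1
    have e2 : 1 ≤ 3 ^ d * V.J := Nat.mul_pos (by positivity) hP.sc.scl.J1
    refine le_trans ?_ e1
    unfold clu
    have e3 : V.Kn n + 3 ^ d * V.J * (6 * 2 ^ V.l (n - 1) + 1) ^ d ≤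
        3 ^ d * V.J * (V.Kn n + 3 ^ d * V.J * (6 * 2 ^ V.l (n - 1) + 1) ^ d) :=
      Nat.le_mul_of_pos_left _ e2
    omega

/-! ### the cluster -/

section clus

variable {V : AND2B.Env d} {c C a : ℝ} {n k : ℕ} {T₀ T T' : Cfg V.X} {run₀ run P Q : Finset V.X}
  {v : V.X → ℝ} {rk : ℕ} {J mm MM hK : ℝ}

theorem card_Q (h : KH V c C n T₀ run₀ P T run Q) : Q.card ≤ clu V n := h.card

/-- THE NUMBERS OF SITES -/
theorem cards (hS : Side V c C n k) (h : KH V c C n T₀ run₀ P T run Q)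
    (hF : Fin1 (toE V c C) n T T' run Q v rk (V.Kn n) J mm MM hK) :
    (Cx.S run Q T').card ≤ clu V n + V.Kn n ∧ (Cx.S run Q T').card ≤ V.Dn n ∧
      (Q.card : ℝ) ≤ V.sg (n + 1) ^ (-V.c₁) ∧
      ((Ks run T').card : ℝ) ≤ V.sg (n + 1) ^ (-(6 / 5) : ℝ) := by
  have h1 : (Cx.S run Q T').card ≤ clu V n + V.Kn n := by
    unfold Cx.S
    exact (Finset.card_union_le _ _).trans (add_le_add (card_Q h) hF.num)
  refine ⟨h1, h1.trans hS.hdn, ?_, ?_⟩
  · refine le_trans ?_ hS.hclu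
    exact_mod_cast card_Q h
  · refine le_trans ?_ hS.hkn
    exact_mod_cast hF.num

/-- THE SITUATION -/
theorem cx (hV : V.Pre a) (he : 0 < V.e₀) (hc : 0 < c) (h : KH V c C n T₀ run₀ P T run Q)
    (hF : Fin1 (toE V c C) n T T' run Q v rk (V.Kn n) J mm MM hK) :
    Cx V.J V.N V.l V.r (toE V c C) (bud V) n T₀ run₀ P T run Q v T' rk J mm MM hK where
  hΓ := rfl
  hl := hV.sc.lm
  c0 := by
    show 0 < c / 2
    linarith only [hc]
  e0 := he
  clp := cl_pos V hV.w (H61.th_pos hV) _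
  fc := h.fc
  rl := h.rl
  ne := h.ne
  fro := h.pen
  iso := h.iso
  far := h.far
  f1 := hF

end clus

end Pool.Agent.AHH.H30
end
end -- Pool.Agent.Helper30_AHH.Dat

section -- Pool.Agent.Helper28_AHH.KilT

/-!
# AND2B (helper28): THE FIELD `kil`
-/

set_option autoImplicit false
set_option linter.unusedSectionVars false

open scoped BigOperators NNReal ENNReal

noncomputable section

namespace Pool.Agent.AND2B.H28

open Pool.Agent.AND.Num
open Pool.Agent.ANP (Cfg Att)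
open Pool.Agent.AHH (toE bud Rl)
open Pool.Agent.AHH.H30 (clu Side ev_side cards cx Kz card_Q)
open Pool.Agent.KL2

/-- THE SECOND HALF -/
theorem kilST : KilSStmt := by
  intro d a c C hd ha hc hc' hC
  have hd0 : 0 < d := by omega
  have e1 := AHH.H61.ev_good (d := d) (a := a) (es := AHH.es) (c := c) (C := C)
  have e2 := AHH.H61.ev_c1 (d := d) (a := a) (es := AHH.es) (c := c) (C := C) (1 / 1000)
    (by norm_num)
  have e3 := AHH.H61.ev_thr d a c C 0 (1 / (8 * C)) (by positivity)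
  have e4 := ev_side d a c C hc hC
  have e5 := AHH.H61.ev_small (d := d) (a := a) (es := AHH.es) (c := c) (C := C)
    (fun th c₁ _ _ _ s => ∀ (n : ℕ) (Dn : ℕ → ℕ) (μ k clu kn : ℕ) (e₀ lam J mm MM hK : ℝ),
      AHH.H41.Dat d c₁ (Kz d th) s n Dn μ k clu kn e₀ lam J mm MM hK →
      KN1 (s * (c / 2)) (c / 2) lam (s ^ (1 / 10 : ℝ)) (s ^ (1 / 200 : ℝ)) (s ^ (1 / 100 : ℝ))
        (s ^ (5 * (d : ℝ))) (2 * C + 3)
        (J + 4 / (s * (c / 2)) *
          Real.exp (-(s * (c / 2) / (8 * d) / 4 * ((2 ^ (k + 2) : ℕ) : ℝ))))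
        (mm + 8 / (s * (c / 2)) *
          Real.exp (-(s * (c / 2) / (8 * d) / 4 * ((2 ^ (k + 2) : ℕ) : ℝ))))
        (8 / (s * (c / 2))) (s * (c / 2) / (8 * d) / 4) (s ^ (10 : ℝ)) (2 ^ (k + 2)))
    fun th c₁ _ _ _ _ _ _ _ => AHH.H41.kn1 d (c / 2) (2 * C + 3) c₁ (Kz d th) hd
      (by positivity) (by positivity)
  have e6 := AHH.H61.ev_small (d := d) (a := a) (es := AHH.es) (c := c) (C := C)
    (fun th c₁ _ _ _ s => c₁ ≤ 1 / 1000 → ∀ (n : ℕ) (Dn : ℕ → ℕ) (μ k clu kn : ℕ)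
      (e₀ lam J mm MM hK : ℝ),
      AHH.H41.Dat d c₁ (Kz d th) s n Dn μ k clu kn e₀ lam J mm MM hK →
      ∀ nQ nK : ℝ, 0 ≤ nQ → nQ ≤ s ^ (-(1 / 1000) : ℝ) → 0 ≤ nK → nK ≤ s ^ (-(6 / 5) : ℝ) →
      KN2 d n Dn μ k ⌊s ^ (-(8 / 5) : ℝ)⌋₊ ⌊s ^ (-(8 / 5) : ℝ)⌋₊ (clu + kn)
        s (c / 2) (2 * C) e₀ lam (2 * C + 3) (s * (c / 2)) (s * (c / 2) / (8 * d))
        (s * (2 * C + 1)) nQ nK
        (16 * Real.exp (2 * (s * (c / 2) / (8 * d)) * Zc d n fun j => 2 * Dn j))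
        (Real.exp (-(s ^ (-(1 / 2) : ℝ)))) mm MM hK
        (s ^ (1033 / 1000 : ℝ)) (s ^ (33 / 1000 : ℝ)) (s ^ (-(1 / 5) : ℝ))
        (s ^ (1024 / 1000 : ℝ)) (s ^ (24 / 1000 : ℝ)) (s ^ (-(201 / 1000) : ℝ)))
    fun th c₁ _ _ _ _ _ _ _ => by
      by_cases h : c₁ ≤ 1 / 1000
      · exact (AHH.H41.kn2 d (c / 2) (2 * C) (2 * C + 3) c₁ (Kz d th) hd (by positivity)
          (by positivity) (by positivity) h).mono fun s _ h _ => h
      · exact (small_le 1 one_pos).mono fun s _ _ h' => absurd h' h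
  have e7 := AHH.H61.ev_small (d := d) (a := a) (es := AHH.es) (c := c) (C := C)
    (fun _ _ _ _ _ s => ∀ (w rho : ℝ) (k clu kn rk : ℕ), s ≤ w → w ≤ 1 → 0 ≤ rho →
      rho ≤ 1 / 8 → rho ≤ 1 / (8 * C) → (clu : ℝ) ≤ s ^ (-(1 / 1000) : ℝ) →
      (kn : ℝ) ≤ s ^ (-(6 / 5) : ℝ) → (rk : ℝ) ≤ s ^ (-(8 / 5) : ℝ) →
      s ^ (-3 : ℝ) ≤ ((2 ^ (k + 2) : ℕ) : ℝ) → ∃ Jc Jr : ℕ,
        KN3 d (clu + kn) Jc Jr (2 ^ (k + 2)) rk (c / 2) (1 - 1 / (2 * C))
          (c * w ^ (8 * AHH.es - 1)) (4 * C ^ 3 / w) rho (s ^ (1 / 100 : ℝ))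
          (s ^ (5 * (d : ℝ)))
          (s * (c / 2)) (s * (c / 2) / (8 * d)) (Real.exp (-(s ^ (-(1 / 2) : ℝ)))) clu
          (s ^ (1033 / 1000 : ℝ)) (s ^ (33 / 1000 : ℝ)) (s ^ (-(1 / 5) : ℝ))
          (s ^ (1024 / 1000 : ℝ)) (s ^ (24 / 1000 : ℝ)) (s ^ (-(201 / 1000) : ℝ))
          (s ^ (33 / 2000 : ℝ)) (s ^ (31 / 2000 : ℝ)))
    fun _ _ _ _ _ _ _ _ _ => (AHH.H61.kn3 d c C hd hc hc' hC).mono
      fun s _ h w rho k clu kn rk h1 h2 h3 h4 h5 h6 h7 h8 h9 =>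
        h w rho clu (2 ^ (k + 2)) clu kn rk h1 h2 h3 h4 h5 (Nat.cast_nonneg _) h6 h6 h7 h8 h9
  refine ((((((e1.and e2).and e3).and e4).and e5).and e6).and e7).imp ?_
  rintro V ⟨⟨⟨⟨⟨⟨hG, hc₁⟩, e3⟩, e4⟩, e5⟩, e6⟩, e7⟩ n T₀ T run₀ run P Q v T' hK hF -
  have hV : V.Pre a := hG.toPre
  obtain ⟨k, hS⟩ := e4 n hK.n1 hK.nN
  obtain ⟨c1, c2, c3, c4⟩ := cards hS hK hF
  have hs := hS.s0
  have hs1 := hS.s1
  have hD := hS.dat (V.sg (n + 1) ^ (3 / 25 : ℝ)) (V.sg (n + 1) ^ (1 / 30 : ℝ))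
    (V.sg (n + 1) ^ (-(1 / 5) : ℝ)) (V.sg (n + 1) ^ (1 / 10 : ℝ)) (by positivity) le_rfl
    (by positivity) le_rfl le_rfl (by positivity) le_rfl
  have hρ : V.G.ρ n = 2 ^ (k + 2) := by
    show 2 ^ V.r n = _
    rw [hS.hr]
  have hN1 := e5 (V.sg (n + 1)) hs (AHH.H61.sg_le hV _) n V.Dn V.μ k (clu V n) (V.Kn n) V.e₀
    ((bud V).q n (V.kk (n + 1))).lam _ _ _ _ hD
  have hcl : (clu V n : ℝ) ≤ V.sg (n + 1) ^ (-(1 / 1000) : ℝ) :=
    hS.hclu.trans (Real.rpow_le_rpow_of_exponent_ge hs (by linarith only [hc, hc', hs1]) (by linarith only [hc₁]))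
  have hN2 := e6 (V.sg (n + 1)) hs (AHH.H61.sg_le hV _) hc₁ n V.Dn V.μ k (clu V n) (V.Kn n)
    V.e₀ ((bud V).q n (V.kk (n + 1))).lam _ _ _ _ hD (clu V n)
    (V.sg (n + 1) ^ (-(6 / 5) : ℝ)) (Nat.cast_nonneg _) hcl (by positivity) le_rfl
  have hrho := (e3 n (V.kk (n + 1))).2.1
  rw [zero_mul, add_zero] at hrho
  have hrho0 : 0 ≤ (AHH.qq V n (V.kk (n + 1))).rho := by
    refine le_trans ?_ (AHH.gr_bd V hV.th.2.le (p := AHH.ka V / 4)
      (by have := AHH.H61.ka_pos (V := V); positivity) n (V.kk (n + 1))).1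
    positivity
  have hrho8 : (AHH.qq V n (V.kk (n + 1))).rho ≤ 1 / 8 := by
    refine hrho.trans ?_
    rw [one_div_le_one_div (by positivity) (by norm_num)]
    linarith only [hC]
  have hdr : V.sg (n + 1) ^ (-3 : ℝ) ≤ ((2 ^ (k + 2) : ℕ) : ℝ) := by
    push_cast
    exact hD.rho
  obtain ⟨Jc, Jr, hN3⟩ := e7 (V.sg (n + 1)) hs (AHH.H61.sg_le hV _) V.w
    ((bud V).q n (V.kk (n + 1))).rho k (clu V n) (V.Kn n) (rkn (V.sg (n + 1)))
    (AHH.H61.sg_le hV _) hS.w1 hrho0 hrho8 hrho hcl hS.hkn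
    (Nat.floor_le (by positivity)) hdr
  rw [← hρ] at hN1 hN3
  exact Cx.kil2 (V := toE V c C) (b := bud V) hd (cx hV hG.e0 hc hK hF) (k := k)
    (t := rkn (V.sg (n + 1))) (nS := clu V n + V.Kn n) (Jc := Jc) (Jr := Jr) hN1 hN2 hN3
    (by positivity) hS.hr hS.eps c1 c2 (by exact_mod_cast card_Q hK) c4 hS.sum hS.hZ hS.hCg hS.icR hS.lR hS.yR hS.phi

/-- THE FIELD `kil` -/
theorem kilT : AHH.KilF := kilF kilST

end Pool.Agent.AND2B.H28
end
end -- Pool.Agent.Helper28_AHH.KilT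

section -- Pool.Agent.Helper22_QDU.H38KPhi
/-!
# AND2B, field kil: the potential of the processed clusters, the first resolvent
-/

set_option autoImplicit false

open scoped BigOperators NNReal

noncomputable section

namespace Pool.Agent.QDU.H38

open Pool.Agent.AHH hiding BegF FinF FloF IniF KilF MmonF OutF RbegF RfinF RmonF ana0
open Pool.Agent.AHH.H38 hiding ev_g0 ev_phi

open Pool.Agent.BED (Tor)

open Pool.Agent.AND.Num
open Pool.Agent.AND2B.H28 (KH)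

variable {d : ℕ} {a e c C : ℝ}

/-- (b1) -/
theorem ev_phi : Ev2 d a e c C fun V => ∀ n ≤ V.N, ∀ (P : Finset V.X) (x : V.X),
    Phi V.G ((bud V).tau n) n P x ≤ 2 := by
  refine ((H61.ev_good (d := d) (a := a) (es := e) (c := c) (C := C)).and
    (H61.ev_small (fun _ _ _ _ s => 12 * ((d : ℝ) + 1) * s ≤ 1) fun _ _ _ _ _ _ _ _ _ => ?_)).imp
    fun V hV n hn P x => ?_
  · refine (small_le (1 / (12 * ((d : ℝ) + 1))) (by positivity)).mono fun s _ h => ?_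
    rwa [le_div_iff₀ (by positivity), mul_comm] at h
  · have hP : V.Pre a := hV.1.toPre
    exact phi_le hP hn (hV.2 _ (H61.sg_pos hP _) (H61.sg_le hP _)) P x

theorem ev_g0 : Ev2 d a e c C fun V => ∀ x y : V.X, ‖(toE V c C).G₀ x y‖ ≤ C :=
  H61.ev_good.imp fun _ hV x y => g0_le hV x y

end Pool.Agent.QDU.H38
end
end -- Pool.Agent.Helper22_QDU.H38KPhi

section -- Pool.Agent.Helper22_QDU.H28KilH
/-!
# AND2B, field kil (helper28): THE FIRST HALF

From the hypotheses of the field kil: an attempt reaches, with failure probability at most `p n`, a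
configuration with `KL2.Fin1`.
-/

set_option autoImplicit false
set_option linter.unusedSectionVars false

open scoped BigOperators NNReal ENNReal

noncomputable section

namespace Pool.Agent.QDU.H28

open Pool.Agent.AND2B
open Pool.Agent.AND2B.H28 hiding fhalf

open Pool.Agent.AND.Num
open Pool.Agent.ANP (Cfg Att)
open Pool.Agent.AHH (toE bud Rl Al gg)
open Pool.Agent.ATT.H76 (mkA In0)
open Pool.Agent.KL2 (Fin1)

variable {d : ℕ}

/-- THE FIRST HALF -/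
theorem fhalf (hd : 0 < d) (a es c C : ℝ) (hc : 0 < c) (hc1 : c ≤ 1) (hC : 1 ≤ C) :
    Ev2 d a es c C fun V => ∀ (n : ℕ) (T₀ T : Cfg V.X) (run₀ run P Q : Finset V.X)
      (v : V.X → ℝ), KH V c C n T₀ run₀ P T run Q → ∀ Okf : Cfg V.X → Prop,
        (∀ T' : Cfg V.X, Fin1 (toE V c C) n T T' run Q v (rkn (V.sg (n + 1))) (V.Kn n)
          (V.sg (n + 1) ^ (3 / 25 : ℝ)) (V.sg (n + 1) ^ (1 / 30 : ℝ))
          (V.sg (n + 1) ^ (-(1 / 5) : ℝ)) (V.sg (n + 1) ^ (1 / 10 : ℝ)) → Okf T') →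
        Att (run ∩ V.G.nbh Q (V.G.ρ n)) Q v Okf T (ENNReal.ofReal (V.p n)) := by
  obtain ⟨K₀, hK₀, hatt⟩ := ATT.H76.attempt ATT.H38.phn_ ATT.H38.ata_ ATT.H38.net_ (c / 2) (2 * C)
    (4 * C) (DD d) (by positivity) (by positivity) (by linarith only [hC]) (by unfold DD; omega)
  set K : ℝ := K₀ + 2000 + 100 / (c / 2) with hK
  have hK1 : 0 ≤ 100 / (c / 2) := by positivity
  have hN := H61.ev_smallm (d := d) (a := a) (es := es) (c := c) (C := C)
    (fun th _ _ _ _ s => NumK d c C K th s)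
    (fun th b _ _ _ _ s _ g2 g3 g4 h =>
      { le := h.le
        wC := h.wC
        far := fun D z hD hz => h.far D z (hD.trans (mul_le_mul_of_nonneg_right (by
          unfold Kd
          exact H61.gapip g2 g3 (by positivity) (by norm_num)) (Real.rpow_nonneg g4.le _))) hz
        Kq := h.Kq
        mis := h.mis
        del := h.del
        icR := h.icR
        lR := h.lR
        kn := h.kn
        mm := h.mm
        MM := h.MM }) fun th _ _ _ _ _ _ _ _ =>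
      numK hd c C K hc hC (by linarith) th
  have h1 := H61.ev_good (d := d) (a := a) (es := es) (c := c) (C := C)
  have h2 := H61.ev_be (d := d) (a := a) (es := es) (c := c) (C := C)
    (fun _ _ _ _ => 1 / 2000) fun _ _ _ _ _ _ => by norm_num
  have h3 := H61.ev_c1 (d := d) (a := a) (es := es) (c := c) (C := C) (1 / 1000)
    (by norm_num)
  have h4 := H61.ev_e0 (d := d) (a := a) (es := es) (c := c) (C := C)
    (fun V => V.sg (V.N + 1)) (fun V hV => AHH.H61.sg_pos hV _) (fun V e₀ m ζ => rfl)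
  have h5 := H38.ev_phi (d := d) (a := a) (e := es) (c := c) (C := C)
  refine (((((hN.and h1).and h2).and h3).and h4).and h5).imp ?_
  rintro V ⟨⟨⟨⟨⟨hN, hG⟩, hβ⟩, hc₁⟩, he⟩, hφ⟩ n T₀ T run₀ run P Q v h Okf hOk
  have hV : V.Pre a := hG.toPre
  have hs : 0 < sn V n := sg_pos hV (n + 1)
  have hNs : NumK d c C K V.th (sn V n) := hN _ hs (AHH.H61.sg_le hV _)
  have hNw : NumK d c C K V.th V.w := hN _ (AHH.H61.w_pos hV) le_rfl
  have hq := qn_pos hs
  have hes : V.e₀ ≤ sn V n := he.trans (AHH.H61.sg_anti hV (by have := h.nN; omega))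
  have hs3 := hNs.le
  have hw3 := hNw.le
  have hIn0 : In0 (Hm d (2 ^ V.μ) V.E) V.e₀ T (run ∩ V.G.nbh Q (V.G.ρ n)) Q
      (V.cl (V.kk (n + 1))) (qn (sn V n)) (c / 2) (2 * C) (4 * C) := by
    refine AHH.H76.in0_of_rl (toE V c C) (bud V) n T₀ T run₀ run P Q h.rl h.fc (qn (sn V n)) C 2
      (4 * C) hq ?_ ⟨hG.e0, ?_⟩ ?_ ?_ (AHH.H38.g0_le hG) (hφ n h.nN P) ?_ ?_ ?_ ?_ ?_ ?_ ?_
      h.pen ?_
    · rw [qn_pow hs]
      norm_num
      rfl
    · rw [qn_pow hs]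
      norm_num
      exact hes
    · show 0 < c / 2
      positivity
    · show V.e₀ + V.cl 0 * (2 * C) ≤ 1
      rw [AHH.cl_zero]
      have := hNw.wC
      linarith only [hs, hes, hs3, this]
    · show 0 ≤ V.sg (n + 1) ^ (1 / 10 : ℝ)
      positivity
    · show 0 ≤ V.sg (n + 1) ^ (1 / 200 : ℝ)
      positivity
    · show 0 ≤ 1 / 4 * (V.cl (V.kk (n + 1)) : ℝ) ^ (-(3 / 4) : ℝ) * (2 - V.sg n ^ (1 / 400 : ℝ))
      have h6 : V.sg n ^ (1 / 400 : ℝ) ≤ 1 := Real.rpow_le_one (AHH.H61.sg_pos hV n).le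
        ((AHH.H61.sg_le hV n).trans (by linarith only [hs, hs3, hw3])) (by norm_num)
      have h7 : 0 ≤ (V.cl (V.kk (n + 1)) : ℝ) ^ (-(3 / 4) : ℝ) := by positivity
      have h8 : 0 ≤ 2 - V.sg n ^ (1 / 400 : ℝ) := by linarith only [hs, hs3, h6]
      positivity
    · exact hNs.mis
    · show C + AHH.gr V (1 / 20) n (V.kk (n + 1)) + V.sg (n + 1) ^ (1 / 10 : ℝ) * 2 ≤ 4 * C / 2
      have h6 := (AHH.gr_bd V hV.th.2.le (p := 1 / 20) (by norm_num) n (V.kk (n + 1))).2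
      have h7 := hNw.del
      have h8 : V.sg (n + 1) ^ (1 / 10 : ℝ) * 2 ≤ 1 / 2 := hNs.icR
      linarith only [hC, h6, h7, h8]
    · linarith only [hC, hs, hs3]
    · show 1 / 4 * (V.cl (V.kk (n + 1)) : ℝ) ^ (-(3 / 4) : ℝ) * (2 - V.sg n ^ (1 / 400 : ℝ)) *
        (1 + V.sg (n + 1) ^ (1 / 200 : ℝ) * 2) ≤ (qn (sn V n))⁻¹ ^ 1500
      rw [qn_inv_pow hs]
      have h6 : 0 ≤ V.sg n ^ (1 / 400 : ℝ) := Real.rpow_nonneg (AHH.H61.sg_pos hV n).le _
      have h7 : V.sg n ^ (1 / 400 : ℝ) ≤ 1 := Real.rpow_le_one (AHH.H61.sg_pos hV n).le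
        ((AHH.H61.sg_le hV n).trans (by linarith only [hs, hs3, hw3])) (by norm_num)
      have h8 : 1 + V.sg (n + 1) ^ (1 / 200 : ℝ) * 2 ≤ 2 := hNs.lR
      have h9 : 0 ≤ (sn V n) ^ (-(3 / 4) : ℝ) := by positivity
      have h10 : 0 ≤ V.sg (n + 1) ^ (1 / 200 : ℝ) := by positivity
      have e1 : -(((1500 : ℕ) : ℝ) / 2000) = -(3 / 4 : ℝ) := by norm_num
      rw [e1]
      show 1 / 4 * (sn V n) ^ (-(3 / 4) : ℝ) * (2 - V.sg n ^ (1 / 400 : ℝ)) *
        (1 + V.sg (n + 1) ^ (1 / 200 : ℝ) * 2) ≤ _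
      calc 1 / 4 * (sn V n) ^ (-(3 / 4) : ℝ) * (2 - V.sg n ^ (1 / 400 : ℝ)) *
            (1 + V.sg (n + 1) ^ (1 / 200 : ℝ) * 2)
          ≤ 1 / 4 * (sn V n) ^ (-(3 / 4) : ℝ) * 2 * 2 := by
            refine mul_le_mul (mul_le_mul_of_nonneg_left (by linarith only [h6]) (by positivity)) h8
              (by positivity) (by positivity)
        _ = _ := by ring
    · rw [qn_inv_pow hs]
      refine (h.cardQ hV).trans ?_
      refine Real.rpow_le_rpow_of_exponent_ge hs (by linarith only [hs, hs3]) ?_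
      norm_num
      linarith only [hc₁]
  have hKq := hNs.Kq
  have hK₀q : K₀ * qn (sn V n) ≤ 1 := by
    refine le_trans (mul_le_mul_of_nonneg_right ?_ hq.le) hKq
    linarith only [hK, hK1, hs, hs3]
  obtain ⟨hHyp, hAtt⟩ := hatt V.X (Hm d (2 ^ V.μ) V.E) V.e₀ T (run ∩ V.G.nbh Q (V.G.ρ n))
    (run ∩ V.G.nbh Q (rkn (sn V n))) Q (V.cl (V.kk (n + 1))) v (qn (sn V n)) hIn0 hK₀q
    (Rk_sub hV (by linarith only [hs, hs3]) h) (cardR hV (by linarith only [hc₁, hs, hs3]) hs3 h)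
    (hfarK hd hV hG.e0 hc hc1 (by linarith only [hc₁, hs, hs3]) (by linarith only [hs, hs3]) hNs.far h v)
    (hfar₀K hd hV hG.e0 hc hc1 (by linarith only [hc₁, hs, hs3]) (by linarith only [hs, hs3]) hNs.far h)
  have hfin := hAtt Okf fun T' Go hSt hU hF => hOk T' ?_
  · refine att_sub (Rk_sub hV (by linarith only [hs, hs3]) h) (fun _ h => h) ?_
    exact Att.mono _ _ _ (ENNReal.ofReal_le_ofReal (p_ok hV (by linarith only [hs, hs3, hw3]) hβ h.nN)) hfin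
  · have hIn := ATT.H76.toIn ATT.H38.net_ hIn0 (by positivity) (by positivity)
    refine AHH.H76.fin1 ATT.H38.out_ (toE V c C) n T T' run Q
      (run ∩ V.G.nbh Q (rkn (sn V n))) (V.cl (V.kk (n + 1))) v (qn (sn V n)) (c / 2) (2 * C)
      (4 * C) hIn K hKq (by linarith only [hK₀, hK, hK1, hs, hs3]) (by linarith only [hK₀, hK, hs, hs3]) (by positivity) _ _ _ _ _ hHyp Go hSt hU hF
      h.rl.sub.2 (fun x hx => (h.pen x hx).1) (rkn (sn V n)) (V.Kn n)
      Finset.inter_subset_right ?_ _ _ _ _ ?_ hNs.mm hNs.MM ?_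
    · refine hNs.kn.trans ?_
      rw [hV.sc.kn n h.nN]
      have := Nat.lt_floor_add_one (sn V n ^ (-(6 / 5 : ℝ)))
      show sn V n ^ (-(6 / 5 : ℝ)) - 1 ≤ (⌊sn V n ^ (-(6 / 5 : ℝ))⌋₊ : ℝ)
      linarith only [this]
    · rw [qn_pow hs]
      exact Real.rpow_le_rpow_of_exponent_ge hs (by linarith only [hs, hs3]) (by norm_num)
    · rw [qn_pow hs]
      refine le_of_eq ?_
      show _ = sn V n ^ (1 / 10 : ℝ)
      norm_num

end Pool.Agent.QDU.H28
end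
end -- Pool.Agent.Helper22_QDU.H28KilH

section -- Pool.Agent.Helper22_QDU.H28Kil
/-!
# AND2B (helper28): THE FIELD `kil`, from its second half
-/

set_option autoImplicit false
set_option linter.unusedSectionVars false

open scoped BigOperators NNReal ENNReal

noncomputable section

namespace Pool.Agent.QDU.H28

open Pool.Agent.AND2B
open Pool.Agent.AND2B.H28 hiding KilSStmt fhalf kilF

open Pool.Agent.ANP (Cfg Att)
open Pool.Agent.AHH (toE bud Rl)
open Pool.Agent.KL2 (Fin1)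

/-- THE SECOND HALF: after a successful attempt the invariant of the release phase holds -/
def KilSStmt : Prop := ∀ (d : ℕ) (a c C : ℝ), 3 ≤ d → 0 < a → 0 < c → c ≤ 1 / 2 → 1 ≤ C →
  Ev2 d a AHH.es c C fun V => ∀ (n : ℕ) (T₀ T : Cfg V.X) (run₀ run P Q : Finset V.X)
    (v : V.X → ℝ) (T' : Cfg V.X), KH V c C n T₀ run₀ P T run Q →
      Fin1 (toE V c C) n T T' run Q v (rkn (V.sg (n + 1))) (V.Kn n)
        (V.sg (n + 1) ^ (3 / 25 : ℝ)) (V.sg (n + 1) ^ (1 / 30 : ℝ))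
        (V.sg (n + 1) ^ (-(1 / 5) : ℝ)) (V.sg (n + 1) ^ (1 / 10 : ℝ)) →
      ¬ V.Vi T' →
      Rl (toE V c C) (bud V) n T₀ run₀ (P ∪ V.G.nbh Q (V.G.ρ n)) T' {x ∈ run | T'.s x ≠ 0}

/-- THE FIELD -/
theorem kilF (h2 : KilSStmt) : KilF := by
  intro d a c C hd ha hc hc' hC
  refine ((fhalf (by omega : 0 < d) a AHH.es c C hc (by linarith) hC).and
    (h2 d a c C hd ha hc hc' hC)).imp ?_
  rintro V ⟨hf, hs⟩ n T₀ run₀ P T run Q v hn hn1 hv₀ hv hst hfc₀ hfc hrl hne hpen hdia hcard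
    hiso hfar
  have hK : KH V c C n T₀ run₀ P T run Q :=
    ⟨hn, hn1, hv₀, hv, hst, hfc₀, hfc, hrl, hne, hpen, hdia, hcard, hiso, hfar⟩
  refine hf n T₀ T run₀ run P Q v hK _ fun T' hF => ⟨hF.app, hF.num, ?_⟩
  by_cases hVi : V.Vi T'
  · exact Or.inl hVi
  · exact Or.inr (hs n T₀ T run₀ run P Q v T' hK hF hVi)

end Pool.Agent.QDU.H28
end
end -- Pool.Agent.Helper22_QDU.H28Kil

section -- Pool.Agent.Helper22_QDU.H30Dat
/-!
# AND2B, field kil, second half: the data of the numeric lemmas from the environment (helper30)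
-/

set_option autoImplicit false
set_option linter.unusedSectionVars false

open scoped BigOperators NNReal

noncomputable section

namespace Pool.Agent.QDU.H30

open Pool.Agent.AHH hiding BegF FinF FloF IniF KilF MmonF OutF RbegF RfinF RmonF ana0
open Pool.Agent.AHH.H30 hiding ev_side

open Pool.Agent.AND.Num
open Pool.Agent.AHH.H41
open Pool.Agent.ANP (Cfg)

open Pool.Agent.AND2B.H28 (Kd sum_Dn sg_geo rkn KH)
open Pool.Agent.KL2

variable {d : ℕ}

theorem ev_side (d : ℕ) (a c C : ℝ) (hc : 0 < c) (hC : 1 ≤ C) :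
    Ev2 d a es c C fun V => ∀ n, 1 ≤ n → n ≤ V.N → ∃ k, Side V c C n k := by
  -- the small powers
  have h1 : Ev2 d a es c C fun V => ∀ s : ℝ, 0 < s → s ≤ V.w →
      (s ≤ 1 / 2 ∧ 8 * 3 ^ d * s ^ (15 / 4 : ℝ) ≤ (1 - (V.th : ℝ) ^ (15 / 4 : ℝ)) * s ^ (0 : ℝ)) ∧
      (1 * s ^ (-(8 / 5) : ℝ) ≤ 1 / 8 * s ^ (-(3 : ℝ)) ∧
        Kz d V.th * s ^ (-(5 / 4) : ℝ) ≤ 1 / 8 * s ^ (-(3 : ℝ))) ∧
      (2 * s ^ (1 / 200 : ℝ) ≤ s ^ (0 : ℝ) ∧ 2 * s ^ (-(4 : ℝ)) ≤ s ^ (-(5 : ℝ))) := by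
    refine H61.ev_smallm (fun th _ _ _ _ s =>
      (s ≤ 1 / 2 ∧ 8 * 3 ^ d * s ^ (15 / 4 : ℝ) ≤ (1 - (th : ℝ) ^ (15 / 4 : ℝ)) * s ^ (0 : ℝ)) ∧
      (1 * s ^ (-(8 / 5) : ℝ) ≤ 1 / 8 * s ^ (-(3 : ℝ)) ∧
        Kz d th * s ^ (-(5 / 4) : ℝ) ≤ 1 / 8 * s ^ (-(3 : ℝ))) ∧
      (2 * s ^ (1 / 200 : ℝ) ≤ s ^ (0 : ℝ) ∧ 2 * s ^ (-(4 : ℝ)) ≤ s ^ (-(5 : ℝ)))) ?_ ?_
    · rintro th b _ _ _ _ s _ g2 g3 g4 ⟨⟨x1, x2⟩, ⟨x3, x4⟩, x5⟩
      refine ⟨⟨x1, H61.gap_le g2 (by norm_num) (Real.rpow_nonneg g4.le _) x2⟩, ⟨x3, ?_⟩, x5⟩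
      refine (mul_le_mul_of_nonneg_right ?_ (Real.rpow_nonneg g4.le _)).trans x4
      unfold Kz Kd
      have := H61.gapip g2 g3 (K := 3 ^ d) (p := 5 / 4) (by positivity) (by norm_num)
      linarith only [this]
    intro th c₁ C₁ α J hth hth1 _ _
    have ht : 0 < 1 - (th : ℝ) ^ (15 / 4 : ℝ) := by
      have := Real.rpow_lt_one (NNReal.coe_nonneg th) (show (th : ℝ) < 1 by exact_mod_cast hth1)
        (show (0 : ℝ) < 15 / 4 by norm_num)
      linarith only [this]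
    exact (((small_le (1 / 2) (by norm_num)).and
      (small_pow' (8 * 3 ^ d) _ (15 / 4) 0 ht (by norm_num))).and
      (((small_pow' 1 (1 / 8) _ _ (by norm_num) (by norm_num)).and
        (small_pow' (Kz d th) (1 / 8) _ _ (by norm_num) (by norm_num))).and
      ((small_pow 2 (1 / 200) 0 (by norm_num)).and
        (small_pow 2 _ _ (by norm_num)))))
  have h2 : Ev2 d a es c C fun V => V.e₀ ≤ V.sg (V.N + 1) :=
    H61.ev_e0 (fun V => V.sg (V.N + 1)) (fun V hV => H61.sg_pos hV _) (fun _ _ _ _ => rfl)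
  refine ((((H61.ev_good.and h1).and h2).and (H61.budOk d a c C hc hC)).and
    (H38.ev_phi (d := d) (a := a) (e := es) (c := c) (C := C))).imp ?_
  rintro V ⟨⟨⟨⟨hG, hV⟩, he⟩, hB⟩, hphi⟩ n hn1 hn
  have hP : V.Pre a := hG.toPre
  have hw := H61.w_pos hP
  obtain ⟨⟨w1, w2⟩, -, -⟩ := hV V.w hw le_rfl
  rw [Real.rpow_zero, mul_one] at w2
  have hz := Sz.of_pre hP (show (V.w : ℝ) ≤ 1 by linarith only [hw, w1]) hn
  set s := V.sg (n + 1) with hs
  obtain ⟨⟨s1, -⟩, ⟨s2, s3⟩, s4, s5⟩ := hV s hz.pos hz.le_w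
  rw [Real.rpow_zero] at s4
  have hsp := hz.pos
  -- the radius
  have hr3 : s ^ (-(3 : ℝ)) ≤ (2 : ℝ) ^ V.r n := hz.r_lo
  have hr1 : (8 : ℝ) ≤ s ^ (-(3 : ℝ)) := by
    have e1 : ((2 : ℝ)⁻¹) ^ (-(3 : ℝ)) = 8 := by
      rw [show (-(3 : ℝ)) = ((-3 : ℤ) : ℝ) by norm_num, Real.rpow_intCast]
      norm_num
    rw [← e1]
    exact Real.rpow_le_rpow_of_nonpos hsp (by linarith only [s1]) (by norm_num)
  have hr2 : 2 ≤ V.r n := by
    by_contra hcon
    have e1 : V.r n ≤ 1 := by omega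
    have e2 : (2 : ℝ) ^ V.r n ≤ 2 ^ 1 := pow_le_pow_right₀ (by norm_num) e1
    linarith only [hw, w1, hr3, hr1, e2]
  obtain ⟨k, hk⟩ : ∃ k, V.r n = k + 2 := ⟨V.r n - 2, by omega⟩
  have hrμ : V.r n ≤ V.μ := by
    have e1 : (2 : ℝ) ^ V.r n ≤ s ^ (-(4 : ℝ)) := hz.r_up.le
    have e2 : s ^ (-(5 : ℝ)) ≤ (2 : ℝ) ^ V.l n := hz.L_lo
    have e3 : 0 < s ^ (-(4 : ℝ)) := Real.rpow_pos_of_pos hsp _
    have e4 : (2 : ℝ) ^ V.r n < 2 ^ V.l n := by linarith only [hw, w1, s5, hr3, hr1, e1, e2]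
    have e5 : V.r n < V.l n := (pow_lt_pow_iff_right₀ (by norm_num)).1 e4
    have e6 := hP.sc.lm hn
    have e7 := hP.sc.lN
    omega
  have hclu : (clu V n : ℝ) ≤ s ^ (-V.c₁) := by
    refine le_trans (le_of_eq ?_) (hz.clu hn1).le
    unfold clu
    push_cast
    rfl
  have hkn : (V.Kn n : ℝ) ≤ s ^ (-(6 / 5) : ℝ) := hz.kn.le
  have he0 : V.e₀ ≤ s := he.trans (H61.sg_anti hP (by omega))
  refine ⟨k, hk, fun J mm MM hK j1 j2 m1 m2 M1 k1 k2 =>
    { he := ⟨hG.e0, he0⟩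
      lam := ⟨lam_lo hz, lam_up hz⟩
      hM := by omega
      rho := by
        rw [← hk]
        exact hr3
      clu := hclu
      kn := hkn
      zc := zc_le hP hn (by linarith only [hw, w1, s1])
      J := ⟨j1, j2⟩
      mm := ⟨m1, m2⟩
      MM := M1
      hK := ⟨k1, k2⟩ }, sum2 hP hn w2, ?_, ?_, (hB.icR n).1, ⟨(hB.icR n).2.1, s4⟩,
    (hB.icR n).2.2.1, (hB.icR n).2.2.2.1, (hB.q n _).2.2.2.2, hphi n hn, hclu, hkn, ?_, hsp, s1,
    by linarith only [hw, w1], hG.e0, he0⟩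
  · have e1 : (rkn s : ℝ) ≤ s ^ (-(8 / 5 : ℝ)) := Nat.floor_le (Real.rpow_nonneg hsp.le _)
    have e2 := zc_le' hP hn (by linarith only [hw, w1, s1] : V.sg (n + 1) ≤ 1)
    have e3 : ((V.G.ρ n : ℕ) : ℝ) = 2 ^ V.r n := by
      rw [gt_r]
      push_cast
      rfl
    have e4 : 0 ≤ s ^ (-(8 / 5 : ℝ)) := Real.rpow_nonneg hsp.le _
    have e5 : 0 ≤ s ^ (-(3 : ℝ)) := Real.rpow_nonneg hsp.le _
    rw [e3]
    rw [one_mul] at s2
    linarith only [hw, w1, s2, s3, hr3, hr1, e1, e2]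
  · show 2 * C + (V.cl (V.kk (n + 1)) : ℝ) ^ (1 / 8 : ℝ) + 2 * s ^ (1 / 10 : ℝ) ≤ 2 * C + 3
    have e1 : (V.cl (V.kk (n + 1)) : ℝ) ^ (1 / 8 : ℝ) ≤ 1 :=
      Real.rpow_le_one (NNReal.coe_nonneg _) (by
        have : (V.cl (V.kk (n + 1)) : ℝ) = s := rfl
        linarith only [hw, w1, s1, this]) (by norm_num)
    have e2 : s ^ (1 / 10 : ℝ) ≤ 1 := Real.rpow_le_one hsp.le (by linarith only [hw, w1, s1]) (by norm_num)
    linarith only [e1, e2]
  · have e1 := hP.sc.dn n hn1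
    have e2 : 1 ≤ 3 ^ d * V.J := Nat.mul_pos (by positivity) hP.sc.scl.J1
    refine le_trans ?_ e1
    unfold clu
    have e3 : V.Kn n + 3 ^ d * V.J * (6 * 2 ^ V.l (n - 1) + 1) ^ d ≤
        3 ^ d * V.J * (V.Kn n + 3 ^ d * V.J * (6 * 2 ^ V.l (n - 1) + 1) ^ d) :=
      Nat.le_mul_of_pos_left _ e2
    omega

/-! ### the cluster -/

section clus

variable {V : AND2B.Env d} {c C a : ℝ} {n k : ℕ} {T₀ T T' : Cfg V.X} {run₀ run P Q : Finset V.X}
  {v : V.X → ℝ} {rk : ℕ} {J mm MM hK : ℝ}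

end clus

end Pool.Agent.QDU.H30
end
end -- Pool.Agent.Helper22_QDU.H30Dat

section -- Pool.Agent.Helper22_QDU.H28KilT
/-!
# AND2B (helper28): THE FIELD `kil`
-/

set_option autoImplicit false
set_option linter.unusedSectionVars false

open scoped BigOperators NNReal ENNReal

noncomputable section

namespace Pool.Agent.QDU.H28

open Pool.Agent.AND2B
open Pool.Agent.AND2B.H28 hiding KilSStmt fhalf kilF kilST kilT

open Pool.Agent.AND.Num
open Pool.Agent.ANP (Cfg Att)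
open Pool.Agent.AHH (toE bud Rl)
open Pool.Agent.AHH.H30 (clu Side cards cx Kz card_Q)
open Pool.Agent.QDU.H30 (ev_side)
open Pool.Agent.KL2

theorem dat_mono {d n μ k clu kn : ℕ} {c₁ K K' s e₀ lam J mm MM hK : ℝ} {Dn : ℕ → ℕ} (h : K ≤ K')
    (hs : 0 < s) (H : AHH.H41.Dat d c₁ K s n Dn μ k clu kn e₀ lam J mm MM hK) :
    AHH.H41.Dat d c₁ K' s n Dn μ k clu kn e₀ lam J mm MM hK :=
  { he := H.he
    lam := H.lam
    hM := H.hM
    rho := H.rho
    clu := H.clu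
    kn := H.kn
    zc := H.zc.trans (mul_le_mul_of_nonneg_right h (Real.rpow_nonneg hs.le _))
    J := H.J
    mm := H.mm
    MM := H.MM
    hK := H.hK }

theorem Kz_mono {d : ℕ} {th b : ℝ≥0} (h : th ≤ b) (hb : b < 1) : Kz d th ≤ Kz d b := by
  unfold Kz Kd
  have := H61.gapip h hb (K := 3 ^ d) (p := 5 / 4) (by positivity) (by norm_num)
  linarith only [this]

/-- THE SECOND HALF -/
theorem kilST : KilSStmt := by
  intro d a c C hd ha hc hc' hC
  have hd0 : 0 < d := by omega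
  have e1 := H61.ev_good (d := d) (a := a) (es := AHH.es) (c := c) (C := C)
  have e2 := H61.ev_c1 (d := d) (a := a) (es := AHH.es) (c := c) (C := C) (1 / 1000)
    (by norm_num)
  have e3 := H61.ev_thr d a c C 0 (1 / (8 * C)) (by positivity)
  have e4 := ev_side d a c C hc hC
  have e5 := H61.ev_smallm (d := d) (a := a) (es := AHH.es) (c := c) (C := C)
    (fun th c₁ _ _ _ s => ∀ (n : ℕ) (Dn : ℕ → ℕ) (μ k clu kn : ℕ) (e₀ lam J mm MM hK : ℝ),
      AHH.H41.Dat d c₁ (Kz d th) s n Dn μ k clu kn e₀ lam J mm MM hK →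
      KN1 (s * (c / 2)) (c / 2) lam (s ^ (1 / 10 : ℝ)) (s ^ (1 / 200 : ℝ)) (s ^ (1 / 100 : ℝ))
        (s ^ (5 * (d : ℝ))) (2 * C + 3)
        (J + 4 / (s * (c / 2)) *
          Real.exp (-(s * (c / 2) / (8 * d) / 4 * ((2 ^ (k + 2) : ℕ) : ℝ))))
        (mm + 8 / (s * (c / 2)) *
          Real.exp (-(s * (c / 2) / (8 * d) / 4 * ((2 ^ (k + 2) : ℕ) : ℝ))))
        (8 / (s * (c / 2))) (s * (c / 2) / (8 * d) / 4) (s ^ (10 : ℝ)) (2 ^ (k + 2)))
    (fun th b _ _ _ _ s _ g2 g3 g4 h n Dn μ k clu kn e₀ lam J mm MM hK hD =>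
      h n Dn μ k clu kn e₀ lam J mm MM hK (dat_mono (Kz_mono g2 g3) g4 hD))
    fun th c₁ _ _ _ _ _ _ _ => AHH.H41.kn1 d (c / 2) (2 * C + 3) c₁ (Kz d th) hd
      (by positivity) (by positivity)
  have e6 := H61.ev_smallm (d := d) (a := a) (es := AHH.es) (c := c) (C := C)
    (fun th c₁ _ _ _ s => c₁ ≤ 1 / 1000 → ∀ (n : ℕ) (Dn : ℕ → ℕ) (μ k clu kn : ℕ)
      (e₀ lam J mm MM hK : ℝ),
      AHH.H41.Dat d c₁ (Kz d th) s n Dn μ k clu kn e₀ lam J mm MM hK →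
      ∀ nQ nK : ℝ, 0 ≤ nQ → nQ ≤ s ^ (-(1 / 1000) : ℝ) → 0 ≤ nK → nK ≤ s ^ (-(6 / 5) : ℝ) →
      KN2 d n Dn μ k ⌊s ^ (-(8 / 5) : ℝ)⌋₊ ⌊s ^ (-(8 / 5) : ℝ)⌋₊ (clu + kn)
        s (c / 2) (2 * C) e₀ lam (2 * C + 3) (s * (c / 2)) (s * (c / 2) / (8 * d))
        (s * (2 * C + 1)) nQ nK
        (16 * Real.exp (2 * (s * (c / 2) / (8 * d)) * Zc d n fun j => 2 * Dn j))
        (Real.exp (-(s ^ (-(1 / 2) : ℝ)))) mm MM hK
        (s ^ (1033 / 1000 : ℝ)) (s ^ (33 / 1000 : ℝ)) (s ^ (-(1 / 5) : ℝ))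
        (s ^ (1024 / 1000 : ℝ)) (s ^ (24 / 1000 : ℝ)) (s ^ (-(201 / 1000) : ℝ)))
    (fun th b _ _ _ _ s _ g2 g3 g4 h h' n Dn μ k clu kn e₀ lam J mm MM hK hD =>
      h h' n Dn μ k clu kn e₀ lam J mm MM hK (dat_mono (Kz_mono g2 g3) g4 hD))
    fun th c₁ _ _ _ _ _ _ _ => by
      by_cases h : c₁ ≤ 1 / 1000
      · exact (AHH.H41.kn2 d (c / 2) (2 * C) (2 * C + 3) c₁ (Kz d th) hd (by positivity)
          (by positivity) (by positivity) h).mono fun s _ h _ => h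
      · exact (small_le 1 one_pos).mono fun s _ _ h' => absurd h' h
  have e7 := H61.ev_small (d := d) (a := a) (es := AHH.es) (c := c) (C := C)
    (fun _ _ _ _ s => ∀ (w rho : ℝ) (k clu kn rk : ℕ), s ≤ w → w ≤ 1 → 0 ≤ rho →
      rho ≤ 1 / 8 → rho ≤ 1 / (8 * C) → (clu : ℝ) ≤ s ^ (-(1 / 1000) : ℝ) →
      (kn : ℝ) ≤ s ^ (-(6 / 5) : ℝ) → (rk : ℝ) ≤ s ^ (-(8 / 5) : ℝ) →
      s ^ (-3 : ℝ) ≤ ((2 ^ (k + 2) : ℕ) : ℝ) → ∃ Jc Jr : ℕ,
        KN3 d (clu + kn) Jc Jr (2 ^ (k + 2)) rk (c / 2) (1 - 1 / (2 * C))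
          (c * w ^ (8 * AHH.es - 1)) (4 * C ^ 3 / w) rho (s ^ (1 / 100 : ℝ))
          (s ^ (5 * (d : ℝ)))
          (s * (c / 2)) (s * (c / 2) / (8 * d)) (Real.exp (-(s ^ (-(1 / 2) : ℝ)))) clu
          (s ^ (1033 / 1000 : ℝ)) (s ^ (33 / 1000 : ℝ)) (s ^ (-(1 / 5) : ℝ))
          (s ^ (1024 / 1000 : ℝ)) (s ^ (24 / 1000 : ℝ)) (s ^ (-(201 / 1000) : ℝ))
          (s ^ (33 / 2000 : ℝ)) (s ^ (31 / 2000 : ℝ)))
    fun _ _ _ _ _ _ _ _ _ => (AHH.H61.kn3 d c C hd hc hc' hC).mono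
      fun s _ h w rho k clu kn rk h1 h2 h3 h4 h5 h6 h7 h8 h9 =>
        h w rho clu (2 ^ (k + 2)) clu kn rk h1 h2 h3 h4 h5 (Nat.cast_nonneg _) h6 h6 h7 h8 h9
  refine ((((((e1.and e2).and e3).and e4).and e5).and e6).and e7).imp ?_
  rintro V ⟨⟨⟨⟨⟨⟨hG, hc₁⟩, e3⟩, e4⟩, e5⟩, e6⟩, e7⟩ n T₀ T run₀ run P Q v T' hK hF -
  have hV : V.Pre a := hG.toPre
  obtain ⟨k, hS⟩ := e4 n hK.n1 hK.nN
  obtain ⟨c1, c2, c3, c4⟩ := cards hS hK hF
  have hs := hS.s0
  have hs1 := hS.s1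
  have hD := hS.dat (V.sg (n + 1) ^ (3 / 25 : ℝ)) (V.sg (n + 1) ^ (1 / 30 : ℝ))
    (V.sg (n + 1) ^ (-(1 / 5) : ℝ)) (V.sg (n + 1) ^ (1 / 10 : ℝ)) (by positivity) le_rfl
    (by positivity) le_rfl le_rfl (by positivity) le_rfl
  have hρ : V.G.ρ n = 2 ^ (k + 2) := by
    show 2 ^ V.r n = _
    rw [hS.hr]
  have hN1 := e5 (V.sg (n + 1)) hs (AHH.H61.sg_le hV _) n V.Dn V.μ k (clu V n) (V.Kn n) V.e₀
    ((bud V).q n (V.kk (n + 1))).lam _ _ _ _ hD
  have hcl : (clu V n : ℝ) ≤ V.sg (n + 1) ^ (-(1 / 1000) : ℝ) :=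
    hS.hclu.trans (Real.rpow_le_rpow_of_exponent_ge hs (by linarith only [hc, hc', hs1]) (by linarith only [hc₁]))
  have hN2 := e6 (V.sg (n + 1)) hs (AHH.H61.sg_le hV _) hc₁ n V.Dn V.μ k (clu V n) (V.Kn n)
    V.e₀ ((bud V).q n (V.kk (n + 1))).lam _ _ _ _ hD (clu V n)
    (V.sg (n + 1) ^ (-(6 / 5) : ℝ)) (Nat.cast_nonneg _) hcl (by positivity) le_rfl
  have hrho := (e3 n (V.kk (n + 1))).2.1
  rw [zero_mul, add_zero] at hrho
  have hrho0 : 0 ≤ (AHH.qq V n (V.kk (n + 1))).rho := by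
    refine le_trans ?_ (AHH.gr_bd V hV.th.2.le (p := AHH.ka V / 4)
      (by have := AHH.H61.ka_pos (V := V); positivity) n (V.kk (n + 1))).1
    positivity
  have hrho8 : (AHH.qq V n (V.kk (n + 1))).rho ≤ 1 / 8 := by
    refine hrho.trans ?_
    rw [one_div_le_one_div (by positivity) (by norm_num)]
    linarith only [hC]
  have hdr : V.sg (n + 1) ^ (-3 : ℝ) ≤ ((2 ^ (k + 2) : ℕ) : ℝ) := by
    push_cast
    exact hD.rho
  obtain ⟨Jc, Jr, hN3⟩ := e7 (V.sg (n + 1)) hs (AHH.H61.sg_le hV _) V.w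
    ((bud V).q n (V.kk (n + 1))).rho k (clu V n) (V.Kn n) (rkn (V.sg (n + 1)))
    (AHH.H61.sg_le hV _) hS.w1 hrho0 hrho8 hrho hcl hS.hkn
    (Nat.floor_le (by positivity)) hdr
  rw [← hρ] at hN1 hN3
  exact Cx.kil2 (V := toE V c C) (b := bud V) hd (cx hV hG.e0 hc hK hF) (k := k)
    (t := rkn (V.sg (n + 1))) (nS := clu V n + V.Kn n) (Jc := Jc) (Jr := Jr) hN1 hN2 hN3
    (by positivity) hS.hr hS.eps c1 c2 (by exact_mod_cast card_Q hK) c4 hS.sum hS.hZ hS.hCg hS.icR hS.lR hS.yR hS.phi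

/-- THE FIELD `kil` -/
theorem kilT : KilF := kilF kilST

end Pool.Agent.QDU.H28
end
end -- Pool.Agent.Helper22_QDU.H28KilT
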