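import Pool.Agent.Helper12_MEB.B142
import Pool.Agent.Helper12_MEB.B168
import Pool.Agent.Helper12_MEB.B174
import Pool.Agent.Helper12_MEB.B176
import Pool.Agent.Helper12_MEB.B177

/-!
# Merged copies (generated) of the modules

* `Pool.Agent.Helper90_ANE.MSO`
* `Pool.Agent.Helper90_ANE.LAT`
* `Pool.Agent.Helper90_ANE.MS3`
* `Pool.Agent.AND2B.Fin`
* `Pool.Agent.Helper72_AND2B.OutW`
* `Pool.Agent.Helper72_AND2B.Plt`
* `Pool.Agent.Helper72_AND2B.OutF`
* `Pool.Agent.Helper99_AND2B.OutF`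
* `Pool.Agent.AND2B.Done`
* `Pool.Agent.AND2B.DoneK`
* `Pool.Agent.AND2B.DoneT`
* `Pool.Agent.Helper28_ACX.Nine`
* `Pool.Agent.ACX.Done`
-/

set_option autoImplicit false

section -- Pool.Agent.Helper90_ANE.MSO

/-!
# MSO: the set of potentials with a bounded solution is closed
-/

set_option autoImplicit false

open MeasureTheory ProbabilityTheory Function Filter

open scoped ENNReal BigOperators InnerProductSpace Topology NNReal

noncomputable section

namespace Pool.Agent.ANE.H90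

open Pool.Agent.Anderson hiding box mem_box card_box
open Pool.Agent.Loc Pool.Agent.Mob Pool.Agent.Helper54.Bal
  Pool.Agent.Helper96.EXP Pool.Agent.BED
open Pool.Agent.LE.MN Pool.Agent.LE.CL Pool.Agent.LE.IR Pool.Agent.LE.QD

theorem sol_closed (d M : ℕ) [NeZero M] (E A : ℝ) :
    IsClosed {U : Tor d M → ℝ | Sol d M E A U} := by
  have hK : IsCompact {v : Tor d M → ℝ | ∑ x, v x ^ 2 ≤ A} := by
    refine Metric.isCompact_of_isClosed_isBounded ?_ ?_
    · exact isClosed_le (by fun_prop) continuous_const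
    · rw [isBounded_iff_forall_norm_le]
      refine ⟨|A| + 1, fun v hv => ?_⟩
      rw [pi_norm_le_iff_of_nonneg (by positivity)]
      intro x
      have h1 : v x ^ 2 ≤ A := (Finset.single_le_sum (f := fun x => v x ^ 2)
        (fun i _ => sq_nonneg _) (Finset.mem_univ x)).trans hv
      have h2 : A ≤ |A| := le_abs_self A
      have h3 : 0 ≤ |A| := abs_nonneg A
      rw [Real.norm_eq_abs]
      refine abs_le_of_sq_le_sq ?_ (by positivity)
      nlinarith
  have : CompactSpace {v : Tor d M → ℝ | ∑ x, v x ^ 2 ≤ A} := isCompact_iff_compactSpace.1 hK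
  have hS : IsClosed {q : (Tor d M → ℝ) × {v : Tor d M → ℝ | ∑ x, v x ^ 2 ≤ A} |
      ∀ x : Tor d M, 4 * sd 0 (rep x) ≤ M →
        ∑ i : Fin d, (q.2.1 (x + ev i) + q.2.1 (x - ev i)) + (q.1 x - E) * q.2.1 x =
          if x = 0 then 1 else 0} := by
    simp only [Set.ofPred_forall]
    refine isClosed_iInter fun x => isClosed_iInter fun _ => ?_
    have hc : ∀ y : Tor d M, Continuous fun q : (Tor d M → ℝ) ×
        {v : Tor d M → ℝ | ∑ x, v x ^ 2 ≤ A} => q.2.1 y := fun y =>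
      (continuous_apply y).comp (continuous_subtype_val.comp continuous_snd)
    have hU : Continuous fun q : (Tor d M → ℝ) ×
        {v : Tor d M → ℝ | ∑ x, v x ^ 2 ≤ A} => q.1 x := (continuous_apply x).comp continuous_fst
    refine isClosed_eq ?_ continuous_const
    exact (continuous_finsetSum _ fun i _ => (hc _).add (hc _)).add
      ((hU.sub continuous_const).mul (hc x))
  have h := isClosedMap_fst_of_compactSpace _ hS
  have e : {U : Tor d M → ℝ | Sol d M E A U} = Prod.fst '' {q : (Tor d M → ℝ) ×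
      {v : Tor d M → ℝ | ∑ x, v x ^ 2 ≤ A} |
      ∀ x : Tor d M, 4 * sd 0 (rep x) ≤ M →
        ∑ i : Fin d, (q.2.1 (x + ev i) + q.2.1 (x - ev i)) + (q.1 x - E) * q.2.1 x =
          if x = 0 then 1 else 0} := by
    ext U
    constructor
    · rintro ⟨v, h1, h2⟩
      exact ⟨(U, ⟨v, h1⟩), h2, rfl⟩
    · rintro ⟨⟨U', v⟩, h2, rfl⟩
      exact ⟨v.1, v.2, h2⟩
  rw [e]
  exact h

theorem mso : MsoStmt := by
  intro d M _ E A
  exact (sol_closed d M E A).measurableSet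

end Pool.Agent.ANE.H90
end
end -- Pool.Agent.Helper90_ANE.MSO

section -- Pool.Agent.Helper90_ANE.LAT

/-!
# LAT: from the lattice to the torus
-/

set_option autoImplicit false

open MeasureTheory ProbabilityTheory Function Filter

open scoped ENNReal BigOperators InnerProductSpace Topology NNReal

noncomputable section

namespace Pool.Agent.ANE.H90

open Pool.Agent.Anderson hiding box mem_box card_box
open Pool.Agent.Loc Pool.Agent.Mob Pool.Agent.Helper54.Bal
  Pool.Agent.Helper96.EXP Pool.Agent.BED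
open Pool.Agent.LE.MN Pool.Agent.LE.CL Pool.Agent.LE.IR Pool.Agent.LE.QD
open Pool.Agent.LE.QX.H90

theorem ball_compact (X : Type) [Fintype X] (A : ℝ) :
    IsCompact {v : X → ℝ | ∑ x, v x ^ 2 ≤ A} := by
  refine Metric.isCompact_of_isClosed_isBounded ?_ ?_
  · exact isClosed_le (by fun_prop) continuous_const
  · rw [isBounded_iff_forall_norm_le]
    refine ⟨|A| + 1, fun v hv => ?_⟩
    rw [pi_norm_le_iff_of_nonneg (by positivity)]
    intro x
    have h1 : v x ^ 2 ≤ A := (Finset.single_le_sum (f := fun x => v x ^ 2)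
      (fun i _ => sq_nonneg _) (Finset.mem_univ x)).trans hv
    have h2 : A ≤ |A| := le_abs_self A
    have h3 : 0 ≤ |A| := abs_nonneg A
    rw [Real.norm_eq_abs]
    refine abs_le_of_sq_le_sq ?_ (by positivity)
    nlinarith

theorem rep_zero' {d M : ℕ} [NeZero M] : rep (0 : Tor d M) = 0 := by
  funext i
  show ((0 : Tor d M) i).valMinAbs = 0
  rw [Pi.zero_apply, ZMod.valMinAbs_zero]

theorem lat : LatStmt := by
  intro d M _ V E C hM hC
  have hsum : ∀ g : L2 d, ∑ x : Tor d M, ‖g (rep x)‖ ^ 2 ≤ ‖g‖ ^ 2 := by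
    intro g
    classical
    rw [L2.norm_sq]
    have h := (L2.summable_sq g).sum_le_tsum (Finset.univ.image (rep : Tor d M → Site d))
      (fun y _ => by positivity)
    rw [Finset.sum_image (fun x _ y _ h => rep_inj h)] at h
    exact h
  let w : ℕ → Tor d M → ℝ := fun n x => (Pool.Agent.AEN.Gn V E n 0 (rep x)).re
  have hw : ∀ n, w n ∈ {v : Tor d M → ℝ | ∑ x, v x ^ 2 ≤ C ^ 2} := by
    intro n
    have h1 : ∑ x, w n x ^ 2 ≤ ∑ x : Tor d M, ‖Pool.Agent.AEN.Gn V E n 0 (rep x)‖ ^ 2 := by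
      refine Finset.sum_le_sum fun x _ => ?_
      have h2 := Complex.abs_re_le_norm (Pool.Agent.AEN.Gn V E n 0 (rep x))
      rw [← sq_abs]
      exact pow_le_pow_left₀ (abs_nonneg _) h2 2
    exact h1.trans ((hsum _).trans (pow_le_pow_left₀ (norm_nonneg _) (hC n) 2))
  obtain ⟨v, hv, φ, hφ, hlim⟩ := (ball_compact (Tor d M) (C ^ 2)).tendsto_subseq hw
  refine ⟨v, hv, fun x hx => ?_⟩
  have hx1 : ∀ i, rep (x + ev i) = rep x + Pi.single i 1 := fun i =>
    rep_add (R := sd 0 (rep x)) (by omega) le_rfl i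
  have hx2 : ∀ i, rep (x - ev i) = rep x - Pi.single i 1 := fun i =>
    rep_sub (R := sd 0 (rep x)) (by omega) le_rfl i
  have heq : ∀ n, ∑ i : Fin d, (w n (x + ev i) + w n (x - ev i)) + (V (rep x) - E) * w n x =
      (if x = 0 then 1 else 0) -
        Pool.Agent.AEN.et n * (Pool.Agent.AEN.Gn V E n 0 (rep x)).im := by
    intro n
    have h1 := congrArg Complex.re (G_eq (V := V) (Pool.Agent.AEN.zn_im_ne E n)
      (del (0 : Site d)) (rep x))
    have h2 : (Pool.Agent.AEN.zn E n).re = E := by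
      simp [Pool.Agent.AEN.zn, zz]
    have h3 : (Pool.Agent.AEN.zn E n).im = Pool.Agent.AEN.et n := Pool.Agent.AEN.zn_im E n
    have h4 : ((del (0 : Site d) : L2 d) (rep x)).re = if x = 0 then 1 else 0 := by
      rw [del_apply]
      by_cases h : x = 0
      · rw [h, rep_zero', if_pos rfl, if_pos rfl, Complex.one_re]
      · rw [if_neg h, if_neg, Complex.zero_re]
        intro h5
        exact h (rep_inj (h5.trans rep_zero'.symm))
    rw [h4, Complex.add_re, Complex.mul_re, Complex.sub_re, Complex.sub_im, h2, h3,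
      Complex.ofReal_re, Complex.ofReal_im] at h1
    unfold lap at h1
    rw [Complex.re_sum] at h1
    have h5 : ∑ i : Fin d, (w n (x + ev i) + w n (x - ev i)) =
        ∑ i : Fin d, (G V (Pool.Agent.AEN.zn E n) (del 0) (rep x + Pi.single i 1) +
          G V (Pool.Agent.AEN.zn E n) (del 0) (rep x - Pi.single i 1)).re := by
      refine Finset.sum_congr rfl fun i _ => ?_
      rw [Complex.add_re, ← hx1, ← hx2]
      rfl
    rw [h5]
    have h6 : w n x = (G V (Pool.Agent.AEN.zn E n) (del 0) (rep x)).re := rfl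
    have h7 : (Pool.Agent.AEN.Gn V E n 0 (rep x)).im =
        (G V (Pool.Agent.AEN.zn E n) (del 0) (rep x)).im := rfl
    rw [h6, h7]
    linarith
  have hl : ∀ y, Tendsto (fun n => w (φ n) y) atTop (𝓝 (v y)) := fun y =>
    ((continuous_apply y).tendsto v).comp hlim
  have hL : Tendsto (fun n => ∑ i : Fin d, (w (φ n) (x + ev i) + w (φ n) (x - ev i)) +
      (V (rep x) - E) * w (φ n) x) atTop
      (𝓝 (∑ i : Fin d, (v (x + ev i) + v (x - ev i)) + (V (rep x) - E) * v x)) :=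
    (tendsto_finsetSum _ fun i _ => (hl _).add (hl _)).add ((hl x).const_mul _)
  have hR : Tendsto (fun n => (if x = 0 then (1 : ℝ) else 0) -
      Pool.Agent.AEN.et (φ n) * (Pool.Agent.AEN.Gn V E (φ n) 0 (rep x)).im) atTop
      (𝓝 ((if x = 0 then (1 : ℝ) else 0) - 0)) := by
    refine tendsto_const_nhds.sub ?_
    have h1 : Tendsto (fun n => Pool.Agent.AEN.et (φ n) * C) atTop (𝓝 0) := by
      have := (Pool.Agent.AEN.tendsto_et.comp hφ.tendsto_atTop).mul_const C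
      rwa [zero_mul] at this
    refine squeeze_zero_norm (fun n => ?_) h1
    rw [norm_mul, Real.norm_eq_abs, Real.norm_eq_abs, abs_of_pos (Pool.Agent.AEN.et_pos _)]
    have h2 := (Complex.abs_im_le_norm (Pool.Agent.AEN.Gn V E (φ n) 0 (rep x))).trans
      ((lp.norm_apply_le_norm (by norm_num) _ _).trans (hC (φ n)))
    exact mul_le_mul_of_nonneg_left h2 (Pool.Agent.AEN.et_pos _).le
  have h := tendsto_nhds_unique hL ((tendsto_congr fun n => heq (φ n)).2 hR)
  rw [sub_zero] at h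
  exact h

end Pool.Agent.ANE.H90
end
end -- Pool.Agent.Helper90_ANE.LAT

section -- Pool.Agent.Helper90_ANE.MS3

/-!
# MS3: the set of potentials with a bounded, tight solution is closed
-/

set_option autoImplicit false

open MeasureTheory ProbabilityTheory Function Filter

open scoped ENNReal BigOperators InnerProductSpace Topology NNReal

noncomputable section

namespace Pool.Agent.ANE.H90

open Pool.Agent.Anderson hiding box mem_box card_box
open Pool.Agent.Loc Pool.Agent.Mob Pool.Agent.Helper54.Bal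
  Pool.Agent.Helper96.EXP Pool.Agent.BED
open Pool.Agent.LE.MN Pool.Agent.LE.CL Pool.Agent.LE.IR Pool.Agent.LE.QD

theorem solT_closed (d M : ℕ) [NeZero M] (E A e : ℝ) (R : ℕ) :
    IsClosed {U : Tor d M → ℝ | SolT d M E A e R U} := by
  have : CompactSpace {v : Tor d M → ℝ | ∑ x, v x ^ 2 ≤ A} :=
    isCompact_iff_compactSpace.1 (ball_compact _ A)
  have hc : ∀ y : Tor d M, Continuous fun q : (Tor d M → ℝ) ×
      {v : Tor d M → ℝ | ∑ x, v x ^ 2 ≤ A} => q.2.1 y := fun y =>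
    (continuous_apply y).comp (continuous_subtype_val.comp continuous_snd)
  have hU : ∀ y : Tor d M, Continuous fun q : (Tor d M → ℝ) ×
      {v : Tor d M → ℝ | ∑ x, v x ^ 2 ≤ A} => q.1 y := fun y =>
    (continuous_apply y).comp continuous_fst
  have hS1 : IsClosed {q : (Tor d M → ℝ) × {v : Tor d M → ℝ | ∑ x, v x ^ 2 ≤ A} |
      ∑ x : Tor d M, (if R < sd 0 (rep x) then q.2.1 x ^ 2 else 0) ≤ e ^ 2} := by
    refine isClosed_le (continuous_finsetSum _ fun x _ => ?_) continuous_const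
    by_cases h : R < sd 0 (rep x)
    · simp only [if_pos h]
      exact (hc x).pow 2
    · simp only [if_neg h]
      exact continuous_const
  have hS2 : IsClosed {q : (Tor d M → ℝ) × {v : Tor d M → ℝ | ∑ x, v x ^ 2 ≤ A} |
      ∀ x : Tor d M, 4 * sd 0 (rep x) ≤ M →
        ∑ i : Fin d, (q.2.1 (x + ev i) + q.2.1 (x - ev i)) + (q.1 x - E) * q.2.1 x =
          if x = 0 then 1 else 0} := by
    simp only [Set.ofPred_forall]
    refine isClosed_iInter fun x => isClosed_iInter fun _ => ?_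
    refine isClosed_eq ?_ continuous_const
    exact (continuous_finsetSum _ fun i _ => (hc _).add (hc _)).add
      (((hU x).sub continuous_const).mul (hc x))
  have hS : IsClosed {q : (Tor d M → ℝ) × {v : Tor d M → ℝ | ∑ x, v x ^ 2 ≤ A} |
      ∑ x : Tor d M, (if R < sd 0 (rep x) then q.2.1 x ^ 2 else 0) ≤ e ^ 2 ∧
      ∀ x : Tor d M, 4 * sd 0 (rep x) ≤ M →
        ∑ i : Fin d, (q.2.1 (x + ev i) + q.2.1 (x - ev i)) + (q.1 x - E) * q.2.1 x =
          if x = 0 then 1 else 0} := hS1.inter hS2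
  have h := isClosedMap_fst_of_compactSpace _ hS
  have e1 : {U : Tor d M → ℝ | SolT d M E A e R U} = Prod.fst '' {q : (Tor d M → ℝ) ×
      {v : Tor d M → ℝ | ∑ x, v x ^ 2 ≤ A} |
      ∑ x : Tor d M, (if R < sd 0 (rep x) then q.2.1 x ^ 2 else 0) ≤ e ^ 2 ∧
      ∀ x : Tor d M, 4 * sd 0 (rep x) ≤ M →
        ∑ i : Fin d, (q.2.1 (x + ev i) + q.2.1 (x - ev i)) + (q.1 x - E) * q.2.1 x =
          if x = 0 then 1 else 0} := by
    ext U
    constructor
    · rintro ⟨v, h1, h2⟩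
      exact ⟨(U, ⟨v, h1⟩), h2, rfl⟩
    · rintro ⟨⟨U', v⟩, h2, rfl⟩
      exact ⟨v.1, v.2, h2⟩
  rw [e1]
  exact h

theorem ms3 : Ms3Stmt := by
  intro d M _ E A e R
  exact (solT_closed d M E A e R).measurableSet

end Pool.Agent.ANE.H90
end
end -- Pool.Agent.Helper90_ANE.MS3

section -- Pool.Agent.AND2B.Fin

/-!
# AND2B: everything except the analysis

`Ana0Stmt` is the only hypothesis: continuous spectrum in the bulk at weak disorder.
-/

set_option autoImplicit false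

noncomputable section

namespace Pool.Agent.AND2B

/-- the reduction of the whole theorem to `Ana0Stmt` -/
theorem fin0 (h : H16.Ana0Stmt) : ANE.FinStmt :=
  ANE.H72.finT (top (ANP.H16.prt (ANP.H49.lab ANP.H72.sep ANP.H72.se2)) ANP.H61.scl
    (H16.ana_stmt h) H99.wlp H99.msw ANE.H90.ms3)

end Pool.Agent.AND2B
end
end -- Pool.Agent.AND2B.Fin

section -- Pool.Agent.Helper72_AND2B.OutW

/-!
# AND2B, row OUTW: the end of the protocol
-/

set_option autoImplicit false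

open MeasureTheory ProbabilityTheory

open scoped BigOperators NNReal ENNReal Matrix

noncomputable section

namespace Pool.Agent.AND2B.H72

open Pool.Agent.Anderson hiding box mem_box card_box
open Pool.Agent.Loc Pool.Agent.Mob Pool.Agent.Helper54.Bal
  Pool.Agent.Helper96.EXP Pool.Agent.BED
open Pool.Agent.LE.MN Pool.Agent.LE.CL Pool.Agent.LE.IR Pool.Agent.LE.QD
open Pool.Agent.ANP (Cfg gm Win)
open Pool.Agent.ANE (SolT HV)
open Pool.Agent.AND2B

/-! ### Markov -/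

section gau

theorem lint_sq (a : ℝ) (r : ℝ≥0) :
    ∫⁻ y, ENNReal.ofReal ((y - a) ^ 2) ∂(gaussianReal a r) = r := by
  have hint : Integrable (fun y : ℝ => (y - a) ^ 2) (gaussianReal a r) := by
    have h := (memLp_id_gaussianReal (μ := a) (v := r) 2).sub (memLp_const a)
    exact h.integrable_sq
  have h1 : ∫ y, y ∂(gaussianReal a r) = a := integral_id_gaussianReal
  have h2 : Var[fun y : ℝ => y; gaussianReal a r] = r := variance_fun_id_gaussianReal
  rw [variance_eq_integral (by fun_prop), h1] at h2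
  rw [← ofReal_integral_eq_lintegral_ofReal hint (Filter.Eventually.of_forall fun y => sq_nonneg _),
    h2, ENNReal.ofReal_coe_nnreal]

variable {X : Type} [Fintype X]

theorem lint_coord (a : X → ℝ) (r : X → ℝ≥0) (x : X) :
    ∫⁻ U, ENNReal.ofReal ((U x - a x) ^ 2) ∂(gm a r) = r x := by
  classical
  have h := (measurePreserving_eval (fun x : X => gaussianReal (a x) (r x)) x).lintegral_comp
    (f := fun y : ℝ => ENNReal.ofReal ((y - a x) ^ 2)) (by fun_prop)
  rw [lint_sq] at h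
  exact h

/-- Markov for a weighted sum of squares of the noises -/
theorem gm_mar (a : X → ℝ) (r : X → ℝ≥0) (B : Finset X) (w : X → ℝ) (hw : ∀ x, 0 ≤ w x) {t S : ℝ}
    (ht : 0 < t) (hS : ∑ x ∈ B, (r x : ℝ) * w x ≤ S) (h : 16 * S ≤ t) :
    gm a r {U | t < ∑ x ∈ B, (U x - a x) ^ 2 * w x} ≤ ENNReal.ofReal (1 / 16) := by
  have h1 : ∫⁻ U, ENNReal.ofReal (∑ x ∈ B, (U x - a x) ^ 2 * w x) ∂(gm a r) ≤
      ENNReal.ofReal S := by
    have e1 : ∀ U : X → ℝ, ENNReal.ofReal (∑ x ∈ B, (U x - a x) ^ 2 * w x) =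
        ∑ x ∈ B, ENNReal.ofReal ((U x - a x) ^ 2) * ENNReal.ofReal (w x) := by
      intro U
      rw [ENNReal.ofReal_sum_of_nonneg fun x _ => mul_nonneg (sq_nonneg _) (hw x)]
      refine Finset.sum_congr rfl fun x _ => ?_
      rw [ENNReal.ofReal_mul (sq_nonneg _)]
    simp only [e1]
    rw [lintegral_finsetSum _ fun x _ => by fun_prop]
    have e2 : ∀ x ∈ B, ∫⁻ U, ENNReal.ofReal ((U x - a x) ^ 2) * ENNReal.ofReal (w x) ∂(gm a r) =
        ENNReal.ofReal ((r x : ℝ) * w x) := by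
      intro x _
      rw [lintegral_mul_const _ (by fun_prop), lint_coord, ENNReal.ofReal_mul (NNReal.coe_nonneg _),
        ENNReal.ofReal_coe_nnreal]
    rw [Finset.sum_congr rfl e2, ← ENNReal.ofReal_sum_of_nonneg fun x _ => mul_nonneg (NNReal.coe_nonneg _) (hw x)]
    exact ENNReal.ofReal_le_ofReal hS
  have hme : Measurable fun U : X → ℝ => ENNReal.ofReal (∑ x ∈ B, (U x - a x) ^ 2 * w x) := by
    fun_prop
  have h2 := meas_ge_le_lintegral_div (μ := gm a r) hme.aemeasurable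
    (ε := ENNReal.ofReal t) (by simpa using ht) ENNReal.ofReal_ne_top
  refine le_trans (measure_mono ?_) (h2.trans ?_)
  · intro U hU
    exact ENNReal.ofReal_le_ofReal (le_of_lt hU)
  · refine (ENNReal.div_le_div_right h1 _).trans ?_
    rw [← ENNReal.ofReal_div_of_pos ht]
    refine ENNReal.ofReal_le_ofReal ?_
    rw [div_le_div_iff₀ ht (by norm_num)]
    linarith

/-- no noise where the variance is zero -/
theorem gm_dead (a : X → ℝ) (r : X → ℝ≥0) (S : Finset X) (hS : ∀ x ∈ S, r x = 0) :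
    gm a r {U | ∃ x ∈ S, U x ≠ a x} = 0 := by
  classical
  have h1 : {U : X → ℝ | ∃ x ∈ S, U x ≠ a x} = ⋃ x ∈ S, {U | U x ≠ a x} := by
    ext U
    simp
  rw [h1]
  refine (measure_biUnion_null_iff S.countable_toSet).2 fun x hx => ?_
  have h := (measurePreserving_eval (fun x : X => gaussianReal (a x) (r x)) x).measure_preimage
    (s := {a x}ᶜ) (measurableSet_singleton _).compl.nullMeasurableSet
  have h2 : gaussianReal (a x) (r x) {a x}ᶜ = 0 := by
    rw [hS x hx, gaussianReal_zero_var]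
    simp
  rw [h2] at h
  exact h

end gau

/-! ### the number of sites of a ball -/

theorem card_ball {d M : ℕ} [NeZero M] (S : Finset (Tor d M)) (R : ℕ)
    (hS : ∀ x ∈ S, sd 0 (rep x) ≤ R) : S.card ≤ (2 * R + 1) ^ d := by
  classical
  rw [← Pool.Agent.Anderson.card_box (0 : Site d) R]
  refine Finset.card_le_card_of_injOn rep (fun x hx => ?_)
    (Pool.Agent.LE.QX.H90.rep_inj.injOn)
  rw [Finset.mem_coe, Pool.Agent.Anderson.mem_box]
  intro i
  have h := hS x (Finset.mem_coe.1 hx)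
  unfold sd at h
  have h2 := (Finset.sup_le_iff.1 h) i (Finset.mem_univ i)
  have h3 : (((0 : Site d) i - rep x i).natAbs : ℤ) ≤ R := by exact_mod_cast h2
  rw [Int.natCast_natAbs] at h3
  rw [abs_sub_comm]
  exact h3

/-- the numbers -/
theorem numbers (d : ℕ) {c₀ C₀ b A' K s e₀ M : ℝ} (hc₀ : 0 < c₀) (hC₀ : 1 ≤ C₀) (hb : 0 < b)
    (hA0 : 0 < A') (hK0 : 0 < K) (hsr : 0 < s) (hM0 : 0 < M) (hsM : 1 ≤ s ^ 2 * M)
    (hes : e₀ ≤ s ^ 2) (s1 : s ≤ 1) (s2 : s ≤ b / (16 * C₀ * A')) (s3 : s ≤ (b / 16) ^ 2 / (A' * K))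
    (s4 : s ≤ (b / (512 * (d + 1))) ^ 2 * c₀ / (A' * C₀)) :
    (e₀ + s * C₀) * A' ≤ b / 8 ∧ Real.sqrt A' * Real.sqrt (s * K) ≤ b / 16 ∧
      2 * (d : ℝ) * (16 / M) * Real.sqrt A' * Real.sqrt (C₀ / (c₀ * s)) ≤ b / 16 := by
  have hC0 : 0 < C₀ := by linarith only [hC₀]
  refine ⟨?_, ?_, ?_⟩
  · have h1 : e₀ + s * C₀ ≤ 2 * s * C₀ := by
      have h2 : s ^ 2 ≤ s * C₀ := by
        rw [pow_two]
        exact mul_le_mul_of_nonneg_left (s1.trans hC₀) hsr.le
      linarith only [hes, h2]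
    have h3 : s * (16 * C₀ * A') ≤ b := (le_div_iff₀ (by positivity)).1 s2
    have h4 := mul_le_mul_of_nonneg_right h1 hA0.le
    linarith only [h3, h4]
  · rw [← Real.sqrt_mul hA0.le]
    refine Real.sqrt_le_iff.2 ⟨by positivity, ?_⟩
    have h1 := (le_div_iff₀ (by positivity)).1 s3
    linarith only [h1]
  · have h0 : 16 / M ≤ 16 * s ^ 2 := by
      rw [div_le_iff₀ hM0]
      linarith only [hsM]
    have h1 : Real.sqrt A' * Real.sqrt (C₀ / (c₀ * s)) * s ≤ b / (512 * (d + 1)) := by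
      rw [← Real.sqrt_mul hA0.le]
      have h2 : Real.sqrt (A' * (C₀ / (c₀ * s))) * s =
          Real.sqrt (A' * (C₀ / (c₀ * s)) * s ^ 2) := by
        rw [Real.sqrt_mul (x := A' * (C₀ / (c₀ * s))) (by positivity) (s ^ 2), Real.sqrt_sq hsr.le]
      rw [h2]
      refine Real.sqrt_le_iff.2 ⟨by positivity, ?_⟩
      have h3 := (le_div_iff₀ (by positivity)).1 s4
      have h4 : A' * (C₀ / (c₀ * s)) * s ^ 2 = s * (A' * C₀) / c₀ := by
        field_simp
      rw [h4, div_le_iff₀ hc₀]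
      exact h3
    have h5 : 0 ≤ Real.sqrt A' * Real.sqrt (C₀ / (c₀ * s)) := by positivity
    calc 2 * (d : ℝ) * (16 / M) * Real.sqrt A' * Real.sqrt (C₀ / (c₀ * s))
        = 2 * d * (Real.sqrt A' * Real.sqrt (C₀ / (c₀ * s))) * (16 / M) := by ring
      _ ≤ 2 * d * (Real.sqrt A' * Real.sqrt (C₀ / (c₀ * s))) * (16 * s ^ 2) := by gcongr
      _ = 32 * d * s * (Real.sqrt A' * Real.sqrt (C₀ / (c₀ * s)) * s) := by ring
      _ ≤ 32 * d * 1 * (b / (512 * (d + 1))) := by gcongr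
      _ = b / 16 * (d / (d + 1)) := by field_simp; ring
      _ ≤ b / 16 * 1 := by
          refine mul_le_mul_of_nonneg_left ?_ (by positivity)
          rw [div_le_one (by positivity)]
          linarith only
      _ = b / 16 := by ring

/-! ### OUTW -/

theorem outw : OutWStmt := by
  classical
  intro d c₀ C₀ b hc₀ hC₀ hb
  have hC0 : 0 < C₀ := by linarith
  obtain ⟨Q, hQdef⟩ : ∃ Q : ℝ, Q = Real.sqrt ((32 + 2 * C₀ ^ 2) * (C₀ / c₀)) := ⟨_, rfl⟩
  have hQ0 : 0 < Q := by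
    rw [hQdef]
    refine Real.sqrt_pos.2 ?_
    positivity
  have hQ2 : Q ^ 2 = (32 + 2 * C₀ ^ 2) * (C₀ / c₀) := by
    rw [hQdef, Real.sq_sqrt (by positivity)]
  have n3 : b / (16 * Q) * Q = b / 16 := by
    field_simp
  refine ⟨b / (16 * Q), by positivity, ?_⟩
  intro A R
  obtain ⟨A', hA'⟩ : ∃ A' : ℝ, A' = max A 0 + 1 := ⟨_, rfl⟩
  have hA1 : A ≤ A' := by rw [hA']; linarith only [le_max_left A 0]
  have hA0 : 0 < A' := by rw [hA']; linarith only [le_max_right A 0]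
  obtain ⟨n, hn⟩ : ∃ n : ℝ, n = (2 * R + 1) ^ d := ⟨_, rfl⟩
  have hn0 : 0 < n := by rw [hn]; positivity
  obtain ⟨K, hK⟩ : ∃ K : ℝ, K = (32 * C₀ ^ 2 + 2 * C₀ ^ 4) * n := ⟨_, rfl⟩
  have hK0 : 0 < K := by rw [hK]; positivity
  obtain ⟨s₁, hs₁⟩ : ∃ s₁ : ℝ, s₁ = min (min 1 (b / (16 * C₀ * A')))
      (min ((b / 16) ^ 2 / (A' * K)) ((b / (512 * (d + 1))) ^ 2 * c₀ / (A' * C₀))) := ⟨_, rfl⟩
  refine ⟨s₁, ?_, ?_⟩
  · rw [hs₁]
    refine lt_min (lt_min one_pos (by positivity)) (lt_min (by positivity) (by positivity))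
  intro M _ E e₀ L s T run hs0 hss hsM he0 hes hrun hdead hent h0run hb0 hPlat
  have hsr : (0 : ℝ) < s := by exact_mod_cast hs0
  have s1 : (s : ℝ) ≤ 1 := hss.trans (by rw [hs₁]; exact (min_le_left _ _).trans (min_le_left _ _))
  have s2 : (s : ℝ) ≤ b / (16 * C₀ * A') :=
    hss.trans (by rw [hs₁]; exact (min_le_left _ _).trans (min_le_right _ _))
  have s3 : (s : ℝ) ≤ (b / 16) ^ 2 / (A' * K) :=
    hss.trans (by rw [hs₁]; exact (min_le_right _ _).trans (min_le_left _ _))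
  have s4 : (s : ℝ) ≤ (b / (512 * (d + 1))) ^ 2 * c₀ / (A' * C₀) :=
    hss.trans (by rw [hs₁]; exact (min_le_right _ _).trans (min_le_right _ _))
  have hM0 : (0 : ℝ) < M := by
    have : 0 < M := Nat.pos_of_ne_zero (NeZero.ne M)
    exact_mod_cast this
  -- the network
  obtain ⟨V, hV⟩ : ∃ V : Tor d M → ℝ, V = Vef T := ⟨_, rfl⟩
  obtain ⟨κ, hκ⟩ : ∃ κ : Tor d M → ℝ, κ = kap e₀ T := ⟨_, rfl⟩
  have hnet : net E e₀ T = Pool.Agent.ANR.Gr (HV d M E V) κ := by
    rw [hV, hκ]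
    rfl
  rw [hnet] at hent hb0
  have hκrun : ∀ x ∈ run, (s : ℝ) * c₀ ≤ κ x ∧ κ x ≤ e₀ + s * C₀ := by
    intro x hx
    obtain ⟨r1, r2, r3⟩ := hrun x hx
    rw [hκ]
    unfold kap
    rw [r1]
    have r4 : (T.mb x).im ≤ C₀ := (Complex.im_le_norm _).trans r3
    constructor
    · have := mul_le_mul_of_nonneg_left r2 hsr.le
      linarith only [he0, this]
    · have := mul_le_mul_of_nonneg_left r4 hsr.le
      linarith only [this]
  have hκdead : ∀ x, x ∉ run → κ x = e₀ := by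
    intro x hx
    rw [hκ]
    unfold kap
    rw [hdead x hx]
    simp
  have hκpos : ∀ x, 0 < κ x := by
    intro x
    by_cases hx : x ∈ run
    · exact lt_of_lt_of_le (by positivity) (hκrun x hx).1
    · rw [hκdead x hx]
      exact he0
  have hκle : ∀ x, κ x ≤ e₀ + s * C₀ := by
    intro x
    by_cases hx : x ∈ run
    · exact (hκrun x hx).2
    · rw [hκdead x hx]
      nlinarith only [hC₀, hs0]
  have hGEQ := Pool.Agent.ANR.H72.geq (Pool.Agent.ANR.H77.dir Pool.Agent.ANR.H63.grn)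
    Pool.Agent.ANR.H63.grn
  have hN := Pool.Agent.ANE.H72.net_hv E V hκpos
  obtain ⟨-, -, g3, -, -⟩ := hGEQ (Tor d M) (HV d M E V) κ hN
  obtain ⟨w, hw⟩ : ∃ w : Tor d M → ℝ, ∀ x, w x = ‖Pool.Agent.ANR.Gr (HV d M E V) κ x 0‖ ^ 2 :=
    ⟨_, fun _ => rfl⟩
  have hw0 : ∀ x, 0 ≤ w x := fun x => by rw [hw]; positivity
  have hwC : ∀ x ∈ run, w x ≤ C₀ ^ 2 := by
    intro x hx
    rw [hw]
    exact pow_le_pow_left₀ (norm_nonneg _) (hent x hx) 2
  have hI : (Pool.Agent.ANR.Gr (HV d M E V) κ 0 0).im ≤ C₀ :=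
    (Complex.im_le_norm _).trans (hent 0 h0run)
  have hward : ∑ x, κ x * w x ≤ C₀ := by
    refine le_trans (le_of_eq ?_) hI
    rw [← g3 0]
    exact Finset.sum_congr rfl fun x _ => by rw [hw]
  have hsw : ∑ x ∈ run, (s : ℝ) * w x ≤ C₀ / c₀ := by
    rw [le_div_iff₀ hc₀, Finset.sum_mul]
    refine le_trans (Finset.sum_le_sum fun x hx => ?_) ((Finset.sum_le_univ_sum_of_nonneg
      fun x => mul_nonneg (hκpos x).le (hw0 x)).trans hward)
    have := mul_le_mul_of_nonneg_right (hκrun x hx).1 (hw0 x)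
    linarith only [this]
  obtain ⟨B, hB⟩ : ∃ B : Finset (Tor d M), B = run.filter fun x => sd 0 (rep x) ≤ R := ⟨_, rfl⟩
  have hBrun : ∀ x ∈ B, x ∈ run := fun x hx => by
    rw [hB, Finset.mem_filter] at hx
    exact hx.1
  have hBc : (B.card : ℝ) ≤ n := by
    rw [hn]
    have := card_ball B R (fun x hx => by
      rw [hB, Finset.mem_filter] at hx
      exact hx.2)
    exact_mod_cast this
  have hwB : ∑ x ∈ B, w x ≤ C₀ ^ 2 * n := by
    calc ∑ x ∈ B, w x ≤ ∑ _x ∈ B, C₀ ^ 2 := Finset.sum_le_sum fun x hx => hwC x (hBrun x hx)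
      _ = (B.card : ℝ) * C₀ ^ 2 := by rw [Finset.sum_const, nsmul_eq_mul]
      _ ≤ n * C₀ ^ 2 := mul_le_mul_of_nonneg_right hBc (by positivity)
      _ = C₀ ^ 2 * n := by ring
  -- the three events
  have p1 := gm_mar T.V T.s B w hw0 (t := 16 * (s * (C₀ ^ 2 * n))) (S := s * (C₀ ^ 2 * n))
    (by positivity) (by
      calc ∑ x ∈ B, (T.s x : ℝ) * w x = ∑ x ∈ B, (s : ℝ) * w x :=
            Finset.sum_congr rfl fun x hx => by rw [(hrun x (hBrun x hx)).1]
        _ = s * ∑ x ∈ B, w x := by rw [Finset.mul_sum]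
        _ ≤ s * (C₀ ^ 2 * n) := mul_le_mul_of_nonneg_left hwB hsr.le) le_rfl
  have p2 := gm_mar T.V T.s run w hw0 (t := 16 * (C₀ / c₀)) (S := C₀ / c₀)
    (by positivity) (by
      calc ∑ x ∈ run, (T.s x : ℝ) * w x = ∑ x ∈ run, (s : ℝ) * w x :=
            Finset.sum_congr rfl fun x hx => by rw [(hrun x hx).1]
        _ ≤ C₀ / c₀ := hsw) le_rfl
  have p3 := gm_dead T.V T.s (Finset.univ \ run) (fun x hx => hdead x (by
    rw [Finset.mem_sdiff] at hx
    exact hx.2))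
  have hsub : FF d M E A (b / (16 * Q)) R L ⊆
      {U | 16 * (s * (C₀ ^ 2 * n)) < ∑ x ∈ B, (U x - T.V x) ^ 2 * w x} ∪
      ({U | 16 * (C₀ / c₀) < ∑ x ∈ run, (U x - T.V x) ^ 2 * w x} ∪
      {U | ∃ x ∈ Finset.univ \ run, U x ≠ T.V x}) := by
    rintro U ⟨-, hSol⟩
    by_contra hc
    rw [Set.mem_union, Set.mem_union, not_or, not_or] at hc
    obtain ⟨c1, c2, c3⟩ := hc
    have c1' : ∑ x ∈ B, (U x - T.V x) ^ 2 * w x ≤ 16 * (s * (C₀ ^ 2 * n)) := not_lt.1 c1
    have c2' : ∑ x ∈ run, (U x - T.V x) ^ 2 * w x ≤ 16 * (C₀ / c₀) := not_lt.1 c2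
    have c3' : ∀ x, x ∉ run → U x = T.V x := by
      intro x hx
      by_contra h
      exact c3 ⟨x, by simp [hx], h⟩
    have hquad : ∀ x ∈ run, (U x - V x) ^ 2 * w x ≤
        2 * ((U x - T.V x) ^ 2 * w x) + 2 * (s * C₀ ^ 2) * (s * w x) := by
      intro x hx
      obtain ⟨r1, r2, r3⟩ := hrun x hx
      have r4 : V x = T.V x - s * (T.mb x).re := by
        rw [hV]
        unfold Vef
        rw [r1]
      have r5 : (T.mb x).re ^ 2 ≤ C₀ ^ 2 := by
        rw [← sq_abs]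
        exact pow_le_pow_left₀ (abs_nonneg _) ((Complex.abs_re_le_norm _).trans r3) 2
      have r6 : (U x - V x) ^ 2 ≤ 2 * (U x - T.V x) ^ 2 + 2 * (s * C₀ ^ 2) * s := by
        rw [r4]
        have r7 : (s : ℝ) ^ 2 * (T.mb x).re ^ 2 ≤ (s : ℝ) ^ 2 * C₀ ^ 2 :=
          mul_le_mul_of_nonneg_left r5 (by positivity)
        nlinarith only [sq_nonneg ((U x - T.V x) - s * (T.mb x).re), r7]
      calc (U x - V x) ^ 2 * w x ≤ (2 * (U x - T.V x) ^ 2 + 2 * (s * C₀ ^ 2) * s) * w x :=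
            mul_le_mul_of_nonneg_right r6 (hw0 x)
        _ = _ := by ring
    have hBnn : 0 ≤ ∑ x ∈ B, w x := Finset.sum_nonneg fun x _ => hw0 x
    have hrnn : 0 ≤ ∑ x ∈ run, (s : ℝ) * w x :=
      Finset.sum_nonneg fun x _ => mul_nonneg hsr.le (hw0 x)
    have hPs : ∑ x ∈ run.filter (fun x => sd 0 (rep x) ≤ R), (U x - V x) ^ 2 *
        ‖Pool.Agent.ANR.Gr (HV d M E V) κ x 0‖ ^ 2 ≤ Real.sqrt (s * K) ^ 2 := by
      rw [← hB, Real.sq_sqrt (by positivity)]
      simp only [← hw]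
      calc ∑ x ∈ B, (U x - V x) ^ 2 * w x
          ≤ ∑ x ∈ B, (2 * ((U x - T.V x) ^ 2 * w x) + 2 * (s * C₀ ^ 2) * (s * w x)) :=
            Finset.sum_le_sum fun x hx => hquad x (hBrun x hx)
        _ = 2 * ∑ x ∈ B, (U x - T.V x) ^ 2 * w x + 2 * (s * C₀ ^ 2) * (s * ∑ x ∈ B, w x) := by
            rw [Finset.sum_add_distrib, ← Finset.mul_sum, ← Finset.mul_sum, ← Finset.mul_sum]
        _ ≤ 2 * (16 * (s * (C₀ ^ 2 * n))) + 2 * (s * C₀ ^ 2) * (1 * (C₀ ^ 2 * n)) := by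
            gcongr
        _ = s * K := by rw [hK]; ring
    have hQs : ∑ x ∈ run, (U x - V x) ^ 2 *
        ‖Pool.Agent.ANR.Gr (HV d M E V) κ x 0‖ ^ 2 ≤ Q ^ 2 := by
      rw [hQ2]
      simp only [← hw]
      calc ∑ x ∈ run, (U x - V x) ^ 2 * w x
          ≤ ∑ x ∈ run, (2 * ((U x - T.V x) ^ 2 * w x) + 2 * (s * C₀ ^ 2) * (s * w x)) :=
            Finset.sum_le_sum fun x hx => hquad x hx
        _ = 2 * ∑ x ∈ run, (U x - T.V x) ^ 2 * w x + 2 * (s * C₀ ^ 2) * ∑ x ∈ run, s * w x := by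
            rw [Finset.sum_add_distrib, ← Finset.mul_sum, ← Finset.mul_sum]
        _ ≤ 2 * (16 * (C₀ / c₀)) + 2 * (1 * C₀ ^ 2) * (C₀ / c₀) := by
            gcongr
        _ = (32 + 2 * C₀ ^ 2) * (C₀ / c₀) := by ring
    have hWs : ∑ x ∈ run, ‖Pool.Agent.ANR.Gr (HV d M E V) κ x 0‖ ^ 2 ≤
        Real.sqrt (C₀ / (c₀ * s)) ^ 2 := by
      rw [Real.sq_sqrt (by positivity)]
      simp only [← hw]
      rw [← div_div, le_div_iff₀ hsr, mul_comm, Finset.mul_sum]
      exact hsw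
    have hSol' : SolT d M E A' (b / (16 * Q)) R U := by
      obtain ⟨v, v1, v2, v3⟩ := hSol
      exact ⟨v, v1.trans hA1, v2, v3⟩
    -- the cutoff
    obtain ⟨φ, f0, f1, f2, f3⟩ := hPlat
    obtain ⟨χ, hχ⟩ : ∃ χ : Tor d M → ℝ, ∀ x, χ x = max (1 - 16 * (φ x : ℝ) / M) 0 :=
      ⟨_, fun _ => rfl⟩
    have k := Pool.Agent.ANE.H72.out hGEQ d M E A' (b / (16 * Q)) (e₀ + s * C₀) (16 / M)
      (Real.sqrt (s * K)) Q (Real.sqrt (C₀ / (c₀ * s))) R U V κ χ run (by positivity)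
      (by positivity) (Real.sqrt_nonneg _) hQ0.le (Real.sqrt_nonneg _)
      (fun x => ⟨hκpos x, hκle x⟩) (by rw [hχ, f0]; simp)
      (fun x => by
        rw [hχ]
        refine ⟨le_max_right _ _, max_le ?_ zero_le_one⟩
        have : (0 : ℝ) ≤ 16 * (φ x : ℝ) / M := by positivity
        linarith only [this])
      (fun x hx => by
        by_contra h
        rw [not_le] at h
        have h1 := f3 x h
        have h2 : (M : ℝ) ≤ 16 * φ x := by exact_mod_cast h1
        refine hx ?_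
        rw [hχ]
        refine max_eq_right ?_
        rw [sub_nonpos, le_div_iff₀ hM0]
        linarith only [h2])
      (fun x i => by
        rw [hχ, hχ]
        obtain ⟨h1, h2⟩ := f1 x i
        have h3 : (φ (x + ev i) : ℝ) ≤ φ x + 1 := by exact_mod_cast h1
        have h4 : (φ x : ℝ) ≤ φ (x + ev i) + 1 := by exact_mod_cast h2
        refine (abs_max_sub_max_le_abs _ _ _).trans ?_
        rw [show (1 - 16 * (φ (x + ev i) : ℝ) / M) - (1 - 16 * (φ x : ℝ) / M) =
          16 * ((φ x : ℝ) - φ (x + ev i)) / M by ring, abs_div, abs_of_pos hM0]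
        refine div_le_div_of_nonneg_right ?_ hM0.le
        rw [abs_le]
        constructor <;> linarith)
      (fun x i h => by
        rw [hχ, hχ, f2 x i (by
          rcases h with h | h
          · left; simp [h]
          · right; simp [h])])
      (fun x hx _ => by
        rw [c3' x hx, hV]
        unfold Vef
        rw [hdead x hx]
        simp)
      hPs hQs hWs hSol'
    obtain ⟨n1, n2, n4⟩ := numbers (M := M) d hc₀ hC₀ hb hA0 hK0 hsr hM0 hsM hes s1 s2 s3 s4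
    linarith
  unfold Win Measure.real
  refine ENNReal.toReal_le_of_le_ofReal (by norm_num) ?_
  calc gm T.V T.s (FF d M E A (b / (16 * Q)) R L)
      ≤ ENNReal.ofReal (1 / 16) + (ENNReal.ofReal (1 / 16) + 0) := by
        refine (measure_mono hsub).trans ((measure_union_le _ _).trans (add_le_add p1 ?_))
        refine (measure_union_le _ _).trans (add_le_add p2 (le_of_eq p3))
    _ ≤ ENNReal.ofReal (1 / 4) := by
        rw [add_zero, ← ENNReal.ofReal_add (by norm_num) (by norm_num)]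
        exact ENNReal.ofReal_le_ofReal (by norm_num)

end Pool.Agent.AND2B.H72
end
end -- Pool.Agent.Helper72_AND2B.OutW

section -- Pool.Agent.Helper72_AND2B.Plt

/-!
# AND2B, row PLT: the plateau cutoff, and the field `out` of `Ana`
-/

set_option autoImplicit false

open MeasureTheory ProbabilityTheory

open scoped BigOperators NNReal ENNReal Matrix

noncomputable section

namespace Pool.Agent.AND2B.H72

open Pool.Agent.BED (Tor gau ev rep)
open Pool.Agent.Loc (sd)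
open Pool.Agent.ANE (SolT)
open Pool.Agent.ANP
open Pool.Agent.AND2B

theorem cd_zero {M : ℕ} (a : ZMod M) : H61.cd 0 a = (0 - a.valMinAbs).natAbs := by
  unfold H61.cd
  rw [zero_sub, zero_sub, Int.natAbs_neg, ZMod.natAbs_valMinAbs_neg]

/-- the two distances to the origin agree -/
theorem dist_zero {d M : ℕ} (x : Tor d M) : H61.sd 0 x = sd 0 (rep x) := by
  unfold H61.sd sd
  refine Finset.sup_congr rfl fun i _ => ?_
  exact cd_zero (x i)

theorem dist_ev {d M : ℕ} [NeZero M] (x : Tor d M) (i : Fin d) : H61.sd x (x + ev i) ≤ 1 := by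
  rw [H61.sd_le]
  intro j
  by_cases h : j = i
  · subst h
    refine (H61.cd_le _ _ (-1) ?_).trans (by norm_num)
    simp [ev]
  · refine (H61.cd_le _ _ 0 ?_).trans (by norm_num)
    simp [ev, h]

/-- PLT: the dead sites of the final configuration have a plateau cutoff -/
theorem plt {d : ℕ} {th : ℝ≥0} {c₁ C₁ : ℝ} {α J : ℕ} {β : ℝ} {w : ℝ≥0} {t : ℝ} {N μ : ℕ}
    {kk l r Kn Dn : ℕ → ℕ} (hS : Scal d th c₁ C₁ α J β w t N μ kk l r Kn Dn)
    {n k : ℕ} (hn : n ≤ N + 1) {P : Finset (Tor d (2 ^ μ))} {T : Cfg (Tor d (2 ^ μ))}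
    {run : Finset (Tor d (2 ^ μ))}
    (hF : Fc (Gt d μ J N l r) kk (cl w th) Dn n k P T run) (D : Finset (Tor d (2 ^ μ)))
    (hD : ∀ x ∈ D, T.s x = 0) : Plat D := by
  have hG : GeoOk (Gt d μ J N l r) d := H61.trg d μ l _ hS.lm J N
  obtain ⟨dd, h1, h2⟩ := hF.dens
  obtain ⟨φ, f0, f1, -, f3, f4⟩ := H61.ptw (Gt d μ J N l r) d hG (fun i => Nat.one_le_two_pow)
    (fun x y => (Gt d μ J N l r).D x y ≤ 1) (fun x y h => by rw [hG.comm]; exact h)
    (fun x y h => h) (Finset.range (N + 2)) dd Dn (fun i _ B => h2 i B)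
    (by
      have := hS.ds
      simpa [Gt, H61.geoT] using this) 0 (2 ^ μ)
  refine ⟨φ, f0, fun x i => ?_, fun x i h => ?_, fun x hx => ?_⟩
  · have h3 := dist_ev x i
    exact ⟨f3 x (x + ev i) h3, f3 (x + ev i) x (by rw [hG.comm]; exact h3)⟩
  · refine f4 x (x + ev i) (dist_ev x i) ?_
    rcases h with h | h
    · left
      obtain ⟨j, hj, hj2⟩ := h1 x (hD x h)
      exact Finset.mem_biUnion.2 ⟨j, Finset.mem_range.2 (by omega), hj2⟩
    · right
      obtain ⟨j, hj, hj2⟩ := h1 _ (hD _ h)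
      exact Finset.mem_biUnion.2 ⟨j, Finset.mem_range.2 (by omega), hj2⟩
  · have h3 := f1 x
    have h4 : (Gt d μ J N l r).D 0 x = sd 0 (rep x) := dist_zero x
    rw [h4] at h3
    have h5 := hS.dM
    have h6 : ((2 ^ μ : ℕ) : ℝ) < 4 * (sd 0 (rep x) : ℝ) := by exact_mod_cast hx
    push_cast at h6 h3
    have h7 : (2 ^ μ : ℝ) ≤ 16 * (φ x : ℝ) := by
      rcases min_le_iff.1 h3 with h | h
      · have : (0 : ℝ) < 2 ^ μ := by positivity
        linarith only [h, this]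
      · linarith only [h5, h6, h]
    have h8 : ((2 ^ μ : ℕ) : ℝ) ≤ ((16 * φ x : ℕ) : ℝ) := by
      push_cast
      exact h7
    exact_mod_cast h8

end Pool.Agent.AND2B.H72
end
end -- Pool.Agent.Helper72_AND2B.Plt

section -- Pool.Agent.Helper72_AND2B.OutF

/-!
# AND2B: the field `out` of `Ana`, with the alternative `Viol`
-/

set_option autoImplicit false

open MeasureTheory ProbabilityTheory

open scoped BigOperators NNReal ENNReal Matrix

noncomputable section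

namespace Pool.Agent.AND2B.H72

open Pool.Agent.BED (Tor gau ev rep)
open Pool.Agent.Loc (sd)
open Pool.Agent.ANE (SolT)
open Pool.Agent.ANP
open Pool.Agent.AND2B

/-- `WLD E L V D` depends only on the potential in `D` -/
theorem wld_congr {d M : ℕ} [NeZero M] {E L : ℝ} {V V' : Tor d M → ℝ} {D : Finset (Tor d M)}
    (h : ∀ x ∈ D, V x = V' x) (hW : WLD E L V D) : WLD E L V' D := by
  intro u hu
  have h1 : ∀ x ∈ D, ∀ y, Hr V' E x y = Hr V E x y := by
    intro x hx y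
    unfold Hr
    rw [Matrix.add_apply, Matrix.add_apply]
    by_cases hxy : x = y
    · subst hxy
      rw [Matrix.diagonal_apply_eq, Matrix.diagonal_apply_eq, h x hx]
    · rw [Matrix.diagonal_apply_ne _ hxy, Matrix.diagonal_apply_ne _ hxy]
  refine (hW u hu).trans (le_of_eq ?_)
  refine congrArg (fun z => L ^ 2 * z) (Finset.sum_congr rfl fun x hx => ?_)
  refine congrArg (fun z : ℂ => ‖z‖ ^ 2) (Finset.sum_congr rfl fun y _ => ?_)
  rw [h1 x hx y]

/-- a violation at dead sites makes the failure set a null set -/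
theorem viol_null {d M : ℕ} [NeZero M] {E A ε L : ℝ} {R : ℕ} {T : Cfg (Tor d M)}
    {a : Tor d M → ℝ} {r : Tor d M → ℝ≥0}
    (har : ∀ x, T.s x = 0 → a x = T.V x ∧ r x = T.s x) (hV : Viol E L T) :
    gm a r (FF d M E A ε R L) = 0 := by
  obtain ⟨D, hD, hW⟩ := hV
  refine measure_mono_null ?_ (gm_dead a r D fun x hx => by rw [(har x (hD x hx)).2, hD x hx])
  rintro U ⟨hU, -⟩
  by_contra hc
  refine hW (wld_congr (fun x hx => ?_) (hU D))
  by_contra h
  refine hc ⟨x, hx, ?_⟩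
  rw [(har x (hD x hx)).1]
  exact h

theorem viol_win {d M : ℕ} [NeZero M] {E A ε L : ℝ} {R : ℕ} {T : Cfg (Tor d M)}
    {a : Tor d M → ℝ} {r : Tor d M → ℝ≥0}
    (har : ∀ x, T.s x = 0 → a x = T.V x ∧ r x = T.s x) (hV : Viol E L T) {e : ℝ} (he : 0 ≤ e) :
    Win (FF d M E A ε R L) a r e := by
  unfold Win Measure.real
  rw [viol_null har hV]
  simpa using he

/-- the good final states -/
def GoodF {d M : ℕ} [NeZero M] (c₀ C₀ b E e₀ : ℝ) (T : Cfg (Tor d M)) (run : Finset (Tor d M)) :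
    Prop :=
  (∀ x ∈ run, c₀ ≤ (T.mb x).im ∧ ‖T.mb x‖ ≤ C₀) ∧ (∀ x ∈ run, ‖net E e₀ T x 0‖ ≤ C₀) ∧
    b ≤ (net E e₀ T 0 0).im

/-- THE FIELD `out` of `Ana`, if `HS (N + 1) (kk (N + 1))` implies `Viol ∨ GoodF` -/
theorem out_field (d : ℕ) {c₀ C₀ b : ℝ} (hc₀ : 0 < c₀) (hC₀ : 1 ≤ C₀) (hb : 0 < b) :
    ∃ ε : ℝ, 0 < ε ∧ ∀ (A : ℝ) (R : ℕ), ∃ t : ℝ, 0 < t ∧ t ≤ 1 ∧
      ∀ (th : ℝ≥0) (c₁ C₁ : ℝ) (α J : ℕ) (β : ℝ) (w : ℝ≥0) (N μ : ℕ) (kk l r Kn Dn : ℕ → ℕ),
        0 < th → 0 < w → Scal d th c₁ C₁ α J β w t N μ kk l r Kn Dn →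
        ∀ (E L e₀ : ℝ), 0 < e₀ → e₀ ≤ sg w th kk (N + 1) ^ 2 →
        ∀ (T : Cfg (Tor d (2 ^ μ))) (run : Finset (Tor d (2 ^ μ))) (a' : Tor d (2 ^ μ) → ℝ)
          (r' : Tor d (2 ^ μ) → ℝ≥0),
          Fc (Gt d μ J N l r) kk (cl w th) Dn (N + 1) (kk (N + 1)) ∅ T run → 0 ∈ run →
          (∀ x, x ∉ run → T.s x ≠ 0 →
            3 * (Gt d μ J N l r).ρ (N + 1) < (Gt d μ J N l r).D 0 x) →
          (∀ x, x ∈ run ∨ T.s x = 0 → a' x = T.V x ∧ r' x = T.s x) →
          (Viol E L T ∨ GoodF c₀ C₀ b E e₀ T run) →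
          Win (FF d (2 ^ μ) E A ε R L) a' r' (1 / 4) := by
  obtain ⟨ε, hε, H⟩ := outw d c₀ C₀ b hc₀ hC₀ hb
  refine ⟨ε, hε, fun A R => ?_⟩
  obtain ⟨s₁, hs₁, H⟩ := H A R
  refine ⟨min s₁ 1, lt_min hs₁ one_pos, min_le_right _ _, ?_⟩
  intro th c₁ C₁ α J β w N μ kk l r Kn Dn hth hw hS E L e₀ he₀ hes T run a' r' hF h0 hfar har hgood
  -- no frozen sites
  have hdead : ∀ x, x ∉ run → T.s x = 0 := by
    intro x hx
    by_contra h
    have h1 := hfar x hx h
    have h2 : (Gt d μ J N l r).D 0 x ≤ 2 ^ μ := by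
      show H61.sd 0 x ≤ 2 ^ μ
      rw [H61.sd_le]
      intro i
      have h3 : (0 - x i).valMinAbs.natAbs ≤ 2 ^ μ / 2 := ZMod.natAbs_valMinAbs_le _
      have h4 : H61.cd (0 : ZMod (2 ^ μ)) (x i) = (0 - x i).valMinAbs.natAbs := rfl
      have h5 : (2 ^ μ) / 2 ≤ 2 ^ μ := Nat.div_le_self _ _
      show H61.cd (0 : ZMod (2 ^ μ)) (x i) ≤ 2 ^ μ
      omega
    have h3 : (2 : ℕ) ^ μ ≤ 2 ^ r (N + 1) := Nat.pow_le_pow_right (by norm_num) hS.rN
    have h4 : (Gt d μ J N l r).ρ (N + 1) = 2 ^ r (N + 1) := rfl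
    rw [h4] at h1
    omega
  have ha : a' = T.V := by
    funext x
    by_cases hx : x ∈ run
    · exact (har x (Or.inl hx)).1
    · exact (har x (Or.inr (hdead x hx))).1
  have hr : r' = T.s := by
    funext x
    by_cases hx : x ∈ run
    · exact (har x (Or.inl hx)).2
    · exact (har x (Or.inr (hdead x hx))).2
  rcases hgood with hV | ⟨g1, g2, g3⟩
  · exact viol_win (fun x hx => har x (Or.inr hx)) hV (by norm_num)
  obtain ⟨s, hs⟩ : ∃ s : ℝ≥0, s = cl w th (kk (N + 1)) := ⟨_, rfl⟩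
  have hsg : sg w th kk (N + 1) = s := by
    rw [hs]
    rfl
  have hs0 : 0 < s := by
    rw [hs]
    unfold cl
    positivity
  have hsr : (0 : ℝ) < s := by exact_mod_cast hs0
  have hfin := hS.fin
  rw [hsg] at hfin hes
  have hs1 : (s : ℝ) ≤ 1 := hfin.trans (min_le_right _ _)
  have hM : (1 : ℝ) ≤ (s : ℝ) ^ 2 * ((2 ^ μ : ℕ) : ℝ) := by
    have h1 := hS.mN
    rw [hsg, Real.rpow_neg hsr.le] at h1
    have h2 : (s : ℝ) ^ (5 : ℝ) = (s : ℝ) ^ (5 : ℕ) := by
      rw [← Real.rpow_natCast]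
      norm_num
    rw [h2] at h1
    push_cast
    have h3 : (1 : ℝ) ≤ (s : ℝ) ^ 5 * 2 ^ μ := by
      have := mul_le_mul_of_nonneg_left h1 (by positivity : (0 : ℝ) ≤ (s : ℝ) ^ 5)
      rwa [mul_inv_cancel₀ (by positivity)] at this
    have h4 : (s : ℝ) ^ 5 ≤ (s : ℝ) ^ 2 := pow_le_pow_of_le_one hsr.le hs1 (by norm_num)
    have h5 := mul_le_mul_of_nonneg_right h4 (by positivity : (0 : ℝ) ≤ 2 ^ μ)
    linarith
  rw [ha, hr]
  refine H (2 ^ μ) E e₀ L s T run hs0 (hfin.trans (min_le_left _ _)) hM he₀ hes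
    (fun x hx => ⟨?_, g1 x hx⟩) hdead g2 h0 g3
    (plt hS le_rfl hF _ fun x hx => hdead x ?_)
  · have h1 := hF.runs x hx
    rw [if_neg (Finset.notMem_empty x)] at h1
    rw [h1, hs]
  · rw [Finset.mem_sdiff] at hx
    exact hx.2

end Pool.Agent.AND2B.H72
end
end -- Pool.Agent.Helper72_AND2B.OutF

section -- Pool.Agent.Helper99_AND2B.OutF

/-!
# AND2B: the field `out`
-/

set_option autoImplicit false

open MeasureTheory ProbabilityTheory

open scoped BigOperators NNReal ENNReal Matrix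

noncomputable section

namespace Pool.Agent.AHH.H99

open Pool.Agent.BED (Tor gau)
open Pool.Agent.ANE (SolT)
open Pool.Agent.ANP
open Pool.Agent.AND2B (FF WL Scal sg cl Viol net Prd Ev)
open Pool.Agent.AHH

theorem solT_mono {d M : ℕ} [NeZero M] {E A e e' : ℝ} {R : ℕ} {U : Tor d M → ℝ} (he : 0 ≤ e)
    (h : e ≤ e') (hU : SolT d M E A e R U) : SolT d M E A e' R U := by
  obtain ⟨v, h1, h2, h3⟩ := hU
  exact ⟨v, h1, h2.trans (pow_le_pow_left₀ he h 2), h3⟩

theorem win_mono {X : Type} [Fintype X] {F F' : Set (X → ℝ)} {a : X → ℝ} {r : X → ℝ≥0} {e : ℝ}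
    (h : F ⊆ F') (hW : Win F' a r e) : Win F a r e := by
  unfold Win gm at *
  refine le_trans ?_ hW
  refine measureReal_mono h ?_
  exact measure_ne_top _ _

theorem goodF {d : ℕ} (V : AND2B.Env d) {es' c C : ℝ} (hC : 1 ≤ C)
    (hm : ANI.Start2 d (2 ^ V.μ) V.E V.e₀ V.w es' V.m V.ζ c C) {n k : ℕ}
    (T : Cfg V.X) (run : Finset V.X) (h0 : 0 ∈ run)
    (h : St (toE V c C) (bud V) n k T run) (hdel : gr V (1 / 20) n k ≤ c / 2) (hc' : c ≤ 1 / 2) :
    AND2B.H72.GoodF (c / 2) (2 * C) (c / 2) V.E V.e₀ T run := by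
  have hS := h.toStN
  have h0A : (0 : V.X) ∈ Al T := hS.alv h0
  have hG : ∀ x ∈ run, ‖net V.E V.e₀ T x 0 - LE.QD.rs (0 : Tor d (2 ^ V.μ) → ℝ) V.ζ x 0‖ ≤ c / 2 :=
    fun x hx => (hS.ent x (hS.alv hx) 0 h0A).trans hdel
  refine ⟨fun x hx => ?_, fun x hx => ?_, ?_⟩
  · have h1 := hS.gau x (hS.alv hx)
    exact ⟨h1.1, h1.2.1⟩
  · have h1 := hG x hx
    have h2 := hm.hG x 0
    have h3 : ‖net V.E V.e₀ T x 0‖ ≤ ‖net V.E V.e₀ T x 0 -
        LE.QD.rs (0 : Tor d (2 ^ V.μ) → ℝ) V.ζ x 0‖ +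
        ‖LE.QD.rs (0 : Tor d (2 ^ V.μ) → ℝ) V.ζ x 0‖ := by
      have := norm_add_le (net V.E V.e₀ T x 0 - LE.QD.rs (0 : Tor d (2 ^ V.μ) → ℝ) V.ζ x 0)
        (LE.QD.rs (0 : Tor d (2 ^ V.μ) → ℝ) V.ζ x 0)
      rwa [sub_add_cancel] at this
    linarith only [hC, hc', h1, h2, h3]
  · have h1 := hG 0 h0
    have h2 := hm.hm 0
    have h3 := hm.hc.1
    rw [h2] at h1
    have h4 : |(net V.E V.e₀ T 0 0 - V.m).im| ≤ c / 2 := (Complex.abs_im_le_norm _).trans h1
    rw [Complex.sub_im] at h4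
    have := (abs_le.1 h4).1
    linarith only [h3, this]

/-- THE FIELD `out` -/
theorem outF : OutF := by
  intro d a c C hd ha hc hc' hC
  obtain ⟨w₀, hw₀, hw₀'⟩ : ∃ w₀ : ℝ, 0 < w₀ ∧ ∀ w : ℝ, 0 < w → w ≤ w₀ →
      3 * w ^ (1 / 20 : ℝ) ≤ c / 2 := by
    refine ⟨(c / 6) ^ (20 : ℝ), by positivity, fun w hw hw' => ?_⟩
    have h1 : w ^ (1 / 20 : ℝ) ≤ ((c / 6) ^ (20 : ℝ)) ^ (1 / 20 : ℝ) :=
      Real.rpow_le_rpow hw.le hw' (by norm_num)
    rw [← Real.rpow_mul (by positivity)] at h1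
    norm_num at h1
    linarith only [h1]
  refine ⟨1, 1, one_pos, one_pos, ?_⟩
  intro th c₁ hth1 _ hth2 _ _ C₁ α J _
  refine ⟨1, w₀, one_pos, hw₀, ?_⟩
  intro β w E _ _ hw hw' _
  obtain ⟨ε₀, hε₀, H⟩ := AND2B.H72.out_field d (c₀ := c / 2) (C₀ := 2 * C) (b := c / 2)
    (by positivity) (by linarith only [hc, hc', hC]) (by positivity)
  refine ⟨ε₀, hε₀, fun ε hε hε' A R => ?_⟩
  obtain ⟨t₀, ht₀, _, H⟩ := H A R
  refine ⟨t₀, ht₀, fun t _ ht' N μ kk l r Kn Dn hS L _ => ?_⟩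
  have hth0 : 0 < th := lt_of_lt_of_le (by norm_num) hth1
  have hsg : 0 < sg w th kk (N + 1) := by
    unfold sg cl
    push_cast
    have : (0 : ℝ) < w := by exact_mod_cast hw
    have : (0 : ℝ) < th := by exact_mod_cast hth0
    positivity
  refine ⟨sg w th kk (N + 1) ^ 2, by positivity, fun e₀ he₀ he₀' m ζ hm => ?_⟩
  intro T run a' r' _ hHS hFc h0 hfar hag
  have hS' : Scal d th c₁ C₁ α J β w t₀ N μ kk l r Kn Dn := { hS with fin := hS.fin.trans ht' }
  have hgood := goodF (⟨th, c₁, C₁, α, J, β, w, E, ε, A, R, t, N, μ, kk, l, r, Kn, Dn, L, e₀, m, ζ⟩ :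
    AND2B.Env d) hC hm T run h0 hHS
    ((gr_bd _ (by exact_mod_cast hth2.le) (by norm_num) _ _).2.trans
      (hw₀' w (by exact_mod_cast hw) hw')) hc'
  have h1 := H th c₁ C₁ α J β w N μ kk l r Kn Dn hth0 hw hS' E L e₀ he₀ he₀' T run a' r' hFc h0
    hfar hag (Or.inr hgood)
  refine win_mono ?_ h1
  rintro U ⟨g1, g2⟩
  exact ⟨g1, solT_mono hε.le hε' g2⟩

end Pool.Agent.AHH.H99
end
end -- Pool.Agent.Helper99_AND2B.OutF

section -- Pool.Agent.AND2B.Done

/-!
# AND2B: the final assembly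
-/

set_option autoImplicit false

noncomputable section

namespace Pool.Agent.AND2B

open Pool.Agent.AHH

theorem budT : AHH.H16.BudStmt := fun d a c C _ _ hc _ hC => AHH.H61.budOk d a c C hc hC

/-- six of the ten fields -/
theorem done (flo : FloF) (fin : FinF) (kil : KilF) (rfin : RfinF) : ANE.FinStmt :=
  fin0 (AHH.ana0 ANI.H54.stbT AHH.H54.ini
    (AHH.H16.begF budT ABY.H10.cmp ABY.H82.vex)
    (AHH.H16.mmonF budT ABY.H10.cmp ABY.H82.vex ABY.H13.vfr)
    flo fin (AHH.H16.rbegF budT)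
    (AHH.H16.rmonF budT ABY.H10.cmp ABY.H82.vex ABY.H13.vfr) kil rfin AHH.H99.outF)

end Pool.Agent.AND2B
end
end -- Pool.Agent.AND2B.Done

section -- Pool.Agent.AND2B.DoneK

/-!
# AND2B: all the fields except `kil`
-/

set_option autoImplicit false

namespace Pool.Agent.AND2B

universe u

/-- only `kil` is left -/
theorem doneK (kil : AHH.KilF) : ANE.FinStmt.{u} :=
  done AHH.H58.floFin AHH.H96.finT kil AHH.H54.rfinT

end Pool.Agent.AND2B
end -- Pool.Agent.AND2B.DoneK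

section -- Pool.Agent.AND2B.DoneT

/-!
# AND2B: continuous spectrum in the bulk at weak disorder, without hypotheses

`finT0 : ANE.FinStmt`: for `d ≥ 3` and `a > 0` there is `s₀ > 0` such that for `0 < |σ| ≤ s₀`, almost
surely, the spectrum of `Δ + σ ξ` is the whole line and there is no eigenvalue in `|E| < 2 d - a`.
-/

set_option autoImplicit false

namespace Pool.Agent.AND2B

universe u

/-- CONTINUOUS SPECTRUM AT WEAK DISORDER -/
theorem finT0 : ANE.FinStmt.{u} :=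
  doneK H28.kilT

end Pool.Agent.AND2B
end -- Pool.Agent.AND2B.DoneT

section -- Pool.Agent.Helper28_ACX.Nine

/-!
# ACX (MP_1906c1_mp): the nine fields hold for `AHH.Z` (helper28)
-/

set_option autoImplicit false

open scoped BigOperators NNReal ENNReal Matrix

noncomputable section

namespace Pool.Agent.ACX.H28

open Pool.Agent.AND2B
open Pool.Agent.ANP

/-- THE NINE FIELDS -/
theorem nineT (d : ℕ) (a c C : ℝ) (hd : 3 ≤ d) (ha : 0 < a) (hc : 0 < c) (hc' : c ≤ 1 / 2)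
    (hC : 1 ≤ C) : Ev d a AHH.es c C fun V => Nine (AHH.Z d a AHH.es c C) V := by
  have h := ((((((((AHH.H54.ini d a c C hd ha hc hc' hC).and
    (AHH.H16.begT d a c C hd ha hc hc' hC)).and
    (AHH.H16.mmonT d a c C hd ha hc hc' hC)).and (AHH.H58.floFin d a c C hd ha hc hc' hC)).and
    (AHH.H96.finT d a c C hd ha hc hc' hC)).and (AHH.H16.rbegT d a c C hd ha hc hc' hC)).and
    (AHH.H16.rmonT d a c C hd ha hc hc' hC)).and (H28.kilT d a c C hd ha hc hc' hC)).and
    (AHH.H54.rfinT d a c C hd ha hc hc' hC)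
  refine h.imp fun V hV => ?_
  obtain ⟨⟨⟨⟨⟨⟨⟨⟨h1, h2⟩, h3⟩, h4⟩, h5⟩, h6⟩, h7⟩, h8⟩, h9⟩ := hV
  exact ⟨h1, h2, h3, h4, h5, h6, h7, h8, h9⟩

end Pool.Agent.ACX.H28
end
end -- Pool.Agent.Helper28_ACX.Nine

section -- Pool.Agent.ACX.Done

/-!
# ACX (MP_1906c1_mp): THE THEOREM, no hypotheses

`d ≥ 3`, `a > 0`, weak disorder: almost surely the spectrum of the Anderson Hamiltonian with Gaussian
potential in `(-(2 d - a), 2 d - a)` is purely absolutely continuous and fills this interval.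
-/

set_option autoImplicit false

noncomputable section

namespace Pool.Agent.ACX.TOP

theorem nineS : NineStmt := fun d a c C hd ha hc hc' hC =>
  (H28.nineT d a c C hd ha hc hc' hC).imp fun _ h =>
    ⟨h.ini, h.beg, h.mmon, h.flo, h.fin, h.rbeg, h.rmon, h.kil, h.rfin⟩

theorem iniVS : IniVStmt := fun d a c C hd ha hc hc' hC => AHH.H54.iniV d a c C hd ha hc hc' hC

/-- THE RESULT ON THE TORUS -/
theorem torT : TorStmt := tor ANI.H54.stbT nineS iniVS

/-- THE RESULT ON THE LATTICE -/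
theorem latT : LatStmt := lat torT

/-- ABSOLUTELY CONTINUOUS SPECTRUM -/
theorem acxT : AcxStmt := acx latT ACE.ace

end Pool.Agent.ACX.TOP
end
end -- Pool.Agent.ACX.Done
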