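import Pool.Agent.Helper12_MEB.B142
import Pool.Agent.Helper12_MEB.B154
import Pool.Agent.Helper12_MEB.B155
import Pool.Agent.Helper12_MEB.B161
import Pool.Agent.Helper12_MEB.B168
import Pool.Agent.Helper12_MEB.B171
import Pool.Agent.Helper12_MEB.B174
import Pool.Agent.Helper12_MEB.B176
import Pool.Agent.Helper12_MEB.B177

/-!
# Merged copies (generated) of the modules

* `Pool.Agent.Helper22_QDU.H96FinT`
* `Pool.Agent.Helper22_QDU.All`
* `Pool.Agent.Helper34_QDA.Phs`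
* `Pool.Agent.Helper34_QDA.Phm`
* `Pool.Agent.Helper76_QDA.Done1`
* `Pool.Agent.Helper76_QDA.Done`
-/

set_option autoImplicit false

section -- Pool.Agent.Helper22_QDU.H96FinT
/-!
# AND2B (MP_1906c1_mp): the field `fin`
-/

set_option autoImplicit false

noncomputable section

namespace Pool.Agent.QDU.H96

open Pool.Agent.AHH hiding BegF FinF FloF IniF KilF MmonF OutF RbegF RfinF RmonF ana0
open Pool.Agent.AHH.H96 hiding finT sixF

/-- THE FIELD `fin` -/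
theorem finT : FinF :=
  H42.finF H72.regT H72.wtsT fun d a c C Cr Cw _ _ _ _ _ hCr hCw =>
    (sixF d a c C Cr Cw (by linarith) hCw).imp fun _ h n k _ _ _ => h n k _ le_rfl

end Pool.Agent.QDU.H96
end
end -- Pool.Agent.Helper22_QDU.H96FinT

section -- Pool.Agent.Helper22_QDU.All

/-!
# QDU: ALL THE NINE FIELDS, uniformly in the ratio of the clocks, the energy, the last clock

`fields`: eventually (`Ev2`), all the fields hold (and also the start with a revealed potential).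
`fields_ex`: the same, written out.
-/

set_option autoImplicit false

open scoped BigOperators NNReal

noncomputable section

namespace Pool.Agent.QDU

open Pool.Agent.AND2B (Env)
open Pool.Agent.ACX.CORE (Fields)
open Pool.Agent.AHH (Z es)
open Pool.Agent.AHH.H54 (IniVP)

theorem bud : H16.BudStmt := fun d a c C _ _ hc _ hC => H61.budOk d a c C hc hC

/-- THE NINE FIELDS, UNIFORMLY -/
theorem fields (d : ℕ) (a c C : ℝ) (hd : 3 ≤ d) (ha : 0 < a) (hc : 0 < c) (hc' : c ≤ 1 / 2)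
    (hC : 1 ≤ C) :
    Ev2 d a es c C fun V => V.Good a es c C ∧ Fields (Z d a es c C) V ∧ IniVP (Z d a es c C) V := by
  have h := (((((((((((H61.ev_good (d := d) (a := a) (es := es) (c := c) (C := C)).and
    (H54.ini d a c C hd ha hc hc' hC)).and
    (H16.begF bud ABY.H10.cmp ABY.H82.vex d a c C hd ha hc hc' hC)).and
    (H16.mmonF bud ABY.H10.cmp ABY.H82.vex ABY.H13.vfr d a c C hd ha hc hc' hC)).and
    (H58.floFin d a c C hd ha hc hc' hC)).and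
    (H96.finT d a c C hd ha hc hc' hC)).and
    (H16.rbegF bud d a c C hd ha hc hc' hC)).and
    (H16.rmonF bud ABY.H10.cmp ABY.H82.vex ABY.H13.vfr d a c C hd ha hc hc' hC)).and
    (H28.kilT d a c C hd ha hc hc' hC)).and
    (H54.rfinT d a c C hd ha hc hc' hC)).and
    (H54.iniV d a c C hd ha hc hc' hC))
  refine h.imp fun V hV => ?_
  obtain ⟨⟨⟨⟨⟨⟨⟨⟨⟨⟨h0, h1⟩, h2⟩, h3⟩, h4⟩, h5⟩, h6⟩, h7⟩, h8⟩, h9⟩, h10⟩ := hV
  exact ⟨h0, ⟨h1, h2, h3, h4, h5, h6, h7, h8, h9⟩, h10⟩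

/-- the same, written out -/
theorem fields_ex (d : ℕ) (a c C : ℝ) (hd : 3 ≤ d) (ha : 0 < a) (hc : 0 < c) (hc' : c ≤ 1 / 2)
    (hC : 1 ≤ C) :
    ∃ τ₀ k₁ : ℝ, 0 < τ₀ ∧ 0 < k₁ ∧ ∀ (b : ℝ≥0) (c₁ C₁ : ℝ) (α J : ℕ), b < 1 → 0 < c₁ → c₁ ≤ k₁ →
    2 ≤ α → ∃ β₀ w₀ : ℝ, 0 < β₀ ∧ 0 < w₀ ∧ ∀ V : Env d, V.Pre a → 1 - τ₀ ≤ (V.th : ℝ) → V.th ≤ b →
      V.c₁ = c₁ → V.C₁ = C₁ → V.α = α → V.J = J → V.β ≤ β₀ → (V.w : ℝ) ≤ w₀ →
      ∃ e₁ : ℝ, 0 < e₁ ∧ ∀ (e₀ : ℝ) (m ζ : ℂ), 0 < e₀ → e₀ ≤ e₁ →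
        ({ V with e₀ := e₀, m := m, ζ := ζ } : Env d).Good a es c C →
        Fields (Z d a es c C) { V with e₀ := e₀, m := m, ζ := ζ } ∧
        IniVP (Z d a es c C) { V with e₀ := e₀, m := m, ζ := ζ } := by
  obtain ⟨τ, k, hτ, hk, h⟩ := fields d a c C hd ha hc hc' hC
  refine ⟨τ, k, hτ, hk, fun b c₁ C₁ α J h1 h2 h3 h4 => ?_⟩
  obtain ⟨β₀, w₀, b1, b2, h⟩ := h b c₁ C₁ α J h1 h2 h3 h4
  refine ⟨β₀, w₀, b1, b2, fun V hV g1 g2 g3 g4 g5 g6 g7 g8 => ?_⟩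
  obtain ⟨e₁, he, h⟩ := h V hV g1 g2 g3 g4 g5 g6 g7 g8
  exact ⟨e₁, he, fun e₀ m ζ q1 q2 hG => (h e₀ m ζ q1 q2 hG).2⟩

end Pool.Agent.QDU
end
end -- Pool.Agent.Helper22_QDU.All

section -- Pool.Agent.Helper34_QDA.Phs

/-!
# QDA, row PHS: from one environment to all small `η`

`OneEnv`: the protocol in one environment, for any family `Bd` of bad events. `phs_gen`: the choice of the
ratio of the clocks, the reference number `m₀`, the stage, the energy of the environment, the torus and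
the tiny absorption.
-/

set_option autoImplicit false

open MeasureTheory ProbabilityTheory Function Filter

open scoped BigOperators NNReal ENNReal Matrix InnerProductSpace Topology

noncomputable section

namespace Pool.Agent.QDA.H34P

open Pool.Agent.BED (Tor gau)
open Pool.Agent.AND2B (Env WL)
open Pool.Agent.ANP (gm)
open Pool.Agent.LE.QD (rs)
open Pool.Agent.ACX.CORE (Fields)
open Pool.Agent.ACX (H34.Num8)

open Classical in
/-- the protocol in one environment, for the bad events `Bd` -/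
def OneEnv (d : ℕ) (c C K δ ε : ℝ)
    (Bd : (μ : ℕ) → (Tor d (2 ^ μ) → ℝ) → ℝ → ℝ → ℂ → ℕ → ℕ → Tor d (2 ^ μ) → Prop) : Prop :=
  ∀ (a : ℝ) (V : AND2B.Env d) (δ₁ : ℝ) (π c' W : ℕ → ℝ),
      1 / 2 ≤ V.th → V.th < 1 → 0 < V.w → V.Sc → 1 ≤ V.N →
      Fields (AHH.Z d a AHH.es c C) V →
      H34.Num8 d V.th V.J V.β V.w V.N V.μ V.kk V.l V.r 1 (2 * K) π c' W →
      ∑ j ∈ Finset.range (V.G.N + 2), W j *
        ∑ B ∈ ({B | V.G.bl j B = B} : Finset V.X), ANP.H72.QQ V.G.ch V.G.J (fun i => π i.1) j B ≤ δ₁ →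
      0 ≤ δ₁ →
      3 * (V.w : ℝ) ^ (1 / 20 : ℝ) ≤ δ / 2 →
      ((V.cl (V.kk (V.N + 1)) : ℝ)) ^ (1 / 8 : ℝ) ≤ δ →
      2 * ((V.cl (V.kk (V.N + 1)) : ℝ)) ^ (AHH.ka V / 2) ≤ δ →
      3 * (V.w : ℝ) ^ (AHH.ka V / 4) ≤ 1 / 2 →
      0 < V.e₀ → V.e₀ ≤ δ * V.cl (V.kk (V.N + 1)) →
      ∀ m₀ : ℂ, c / 2 ≤ m₀.im → ‖m₀‖ ≤ 2 * C → ‖V.m - m₀‖ ≤ δ / 2 →
      ∀ j R : ℕ, j + 1 ≤ V.μ → 1 ≤ R →
      K * V.cl (V.kk (V.N + 1)) * 4 ^ j ≤ c * (V.w : ℝ) ^ (8 * AHH.es - 1) / 2 →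
      K * 2 ^ j ≤ (2 : ℝ) ^ V.μ →
      K * (8 * C ^ 3 / V.w) ≤ V.cl (V.kk (V.N + 1)) * (R : ℝ) ^ 2 →
      ∀ ρ₀ : ℝ, (∀ V₀ : V.X → ℝ, (∀ x, |V₀ x| ≤ ρ₀) → ∃ m₁ : V.X → ℂ,
        (AHH.Z d a AHH.es c C).HS V 0 0 ⟨V₀, fun _ => V.cl 0, m₁⟩ Finset.univ) →
      ∫⁻ U, ENNReal.ofReal (((Finset.univ.filter fun x : Tor d (2 ^ V.μ) =>
          Bd V.μ U (V.E + V.cl (V.kk (V.N + 1)) * m₀.re) (V.cl (V.kk (V.N + 1)) * m₀.im) m₀
            (2 ^ j) R x).card : ℝ) / ((2 : ℝ) ^ V.μ) ^ d) ∂(gau d (2 ^ V.μ) V.w) ≤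
        ENNReal.ofReal (ε + δ₁ + (gm (fun _ : V.X => 0)
          (fun _ => V.cl (V.kk (V.N + 1)))).real {V₀ | ∃ x, ρ₀ < |V₀ x|}) +
        gau d (2 ^ V.μ) V.w {U | ¬ WL V.E V.L U}

/-- a ratio close to one -/
theorem ratio (τ δ : ℝ) (hτ : 0 < τ) (hδ : 0 < δ) :
    ∃ th : ℝ≥0, 1 / 2 ≤ th ∧ th < 1 ∧ 1 - τ ≤ (th : ℝ) ∧ 1 - δ ≤ (th : ℝ) := by
  have h1 : (0 : ℝ) ≤ max (1 / 2 : ℝ) (max (1 - τ) (1 - δ)) := le_max_of_le_left (by norm_num)
  refine ⟨⟨_, h1⟩, ?_, ?_, ?_, ?_⟩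
  · rw [← NNReal.coe_le_coe]
    push_cast
    exact le_max_left _ _
  · rw [← NNReal.coe_lt_coe]
    push_cast
    exact max_lt (by norm_num) (max_lt (by linarith only [hτ]) (by linarith))
  · exact (le_max_left _ _).trans (le_max_right _ _)
  · exact (le_max_right _ _).trans (le_max_right _ _)

open Classical in
theorem phs_gen (d : ℕ) (a p c C K δ₀ : ℝ) (hd : 3 ≤ d) (ha : 0 < a) (hp : 0 < p)
    (hc : 0 < c) (hc' : c ≤ 1 / 2) (hC : 1 ≤ C)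
    (hst : ∀ (M : ℕ) [NeZero M] (E η T : ℝ), |E| ≤ 2 * d - a / 2 → 0 < η → η ≤ T → T ≤ c →
      C / T ^ 2 ≤ M → ∃ m ζ : ℂ, ANI.Start2 d M E η T AHH.es m ζ c C)
    (hK : 1 ≤ K) (hδ₀ : 0 < δ₀)
    (Bd : (μ : ℕ) → (Tor d (2 ^ μ) → ℝ) → ℝ → ℝ → ℂ → ℕ → ℕ → Tor d (2 ^ μ) → Prop)
    (hone : OneEnv d c C K δ₀ (p / 4) Bd) (δ : ℝ) (hδ : 0 < δ) :
    ∃ w₀ P : ℝ, 0 < w₀ ∧ w₀ ≤ 1 ∧ 1 ≤ P ∧
    ∀ (w : ℝ≥0) (E η : ℝ) (r R : ℕ), 0 < w → (w : ℝ) ≤ w₀ → |E| ≤ 2 * d - a → 0 < η →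
      η ≤ (w : ℝ) ^ P →
      8 * K * C ^ 4 * η * (r : ℝ) ^ 2 ≤ (w : ℝ) ^ (1 / 1000 - 1 : ℝ) →
      8 * K * C ^ 4 ≤ w * η * (R : ℝ) ^ 2 →
      ∃ (μ j M₀ : ℕ) (_ : NeZero M₀) (η' : ℝ) (m₀ : ℂ), 0 < η' ∧ |η - η'| ≤ δ * η' ∧
        η' ^ (-4 : ℝ) ≤ (2 : ℝ) ^ μ ∧ r ≤ 2 ^ j ∧ c ≤ m₀.im ∧ ‖m₀‖ ≤ C ∧
        ((w : ℝ) ^ 4)⁻¹ ≤ M₀ ∧
        rs (0 : Tor d M₀ → ℝ) (⟨E, (w : ℝ) ^ 2⟩ + ((w : ℝ) : ℂ) * m₀) 0 0 = m₀ ∧
        ∫⁻ U, ENNReal.ofReal (((Finset.univ.filter fun x : Tor d (2 ^ μ) =>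
          Bd μ U E η' m₀ (2 ^ j) R x).card : ℝ) / ((2 : ℝ) ^ μ) ^ d) ∂(gau d (2 ^ μ) w) ≤
        ENNReal.ofReal p := by
  have hC0 : 0 < C := by linarith only [hc, hc', hC]
  have hK0 : 0 < K := by linarith
  obtain ⟨τ₀, k₁, hτ, hk, hF⟩ := QDU.fields_ex d (a / 2) c C hd (by positivity) hc hc' hC
  obtain ⟨th, hth1, hth2, hth3, hth4⟩ := ratio τ₀ δ hτ hδ
  have hthr : (0 : ℝ) < th := by
    have : (1 / 2 : ℝ) ≤ th := by exact_mod_cast hth1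
    linarith only [hc, hc', hth1]
  have hthh : (1 / 2 : ℝ) ≤ th := by exact_mod_cast hth1
  have hthr1 : (th : ℝ) < 1 := by exact_mod_cast hth2
  have hth0 : 0 < th := by exact_mod_cast hthr
  obtain ⟨C₁, α, J, P, hα, hP1, hscb⟩ := H22.scb d th (min k₁ 1) hth2 (lt_min hk one_pos)
  obtain ⟨β, w₁, hβ, hw₁, hF⟩ := hF th (min k₁ 1) C₁ α J hth2 (lt_min hk one_pos)
    (min_le_left _ _) (by omega)
  obtain ⟨w₂, hw₂, hw₂1, hscb⟩ := hscb β hβ ((ACX.H34.A0 d C₁ α : ℕ) : ℝ)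
  obtain ⟨w₃, hw₃, hw₃1, hnum⟩ := H34N.num8d d C₁ α 1 (2 * K) (p / 4) zero_le_one (by positivity)
    (by positivity)
  obtain ⟨w₄, hw₄, hw₄1, htail⟩ := H16.tail_w d (C₁ * (α + 1)) (p / 4) (by positivity)
  obtain ⟨w₅, hw₅, hstm⟩ := H34S.stmq d (min c (1 / C)) (δ₀ / 2) hd (by positivity) (by positivity)
  obtain ⟨w₆, hw₆, hw₆1, hsm⟩ := (sm (κ := 1 / (1000 * ((α : ℝ) + 1) ^ 2)) ha hc hC0 hK0 hδ₀
    (by positivity)).ex
  refine ⟨min (min w₁ w₂) (min (min w₃ w₄) (min w₅ w₆)), P + 6, by positivity,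
    (min_le_left _ _).trans ((min_le_right _ _).trans hw₂1), by
      have : (1 : ℝ) ≤ P := by exact_mod_cast hP1
      linarith only [hc, hc', this], ?_⟩
  intro w E η r R hw hwle hE hη hηP hr hR
  have l1 : (w : ℝ) ≤ w₁ := hwle.trans ((min_le_left _ _).trans (min_le_left _ _))
  have l2 : (w : ℝ) ≤ w₂ := hwle.trans ((min_le_left _ _).trans (min_le_right _ _))
  have l3 : (w : ℝ) ≤ w₃ :=
    hwle.trans ((min_le_right _ _).trans ((min_le_left _ _).trans (min_le_left _ _)))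
  have l4 : (w : ℝ) ≤ w₄ :=
    hwle.trans ((min_le_right _ _).trans ((min_le_left _ _).trans (min_le_right _ _)))
  have l5 : (w : ℝ) ≤ w₅ :=
    hwle.trans ((min_le_right _ _).trans ((min_le_right _ _).trans (min_le_left _ _)))
  have l6 : (w : ℝ) ≤ w₆ :=
    hwle.trans ((min_le_right _ _).trans ((min_le_right _ _).trans (min_le_right _ _)))
  clear hwle
  have hw0 : (0 : ℝ) < w := by exact_mod_cast hw
  have hS := hsm w hw0 l6
  have hw1 : (w : ℝ) ≤ 1 := l6.trans hw₆1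
  have hwc : (w : ℝ) ≤ c := hS.n5.trans (pow_le_of_le_one hc.le (by linarith only [hc, hc']) (by norm_num))
  have hw2 : (w : ℝ) ^ 2 ≤ w := pow_le_of_le_one hw0.le hw1 (by norm_num)
  -- the reference number
  obtain ⟨M₀, hM₀⟩ := exists_nat_ge (max (C / (w : ℝ) ^ 2) (((w : ℝ) ^ 4)⁻¹))
  have hM₀1 : C / (w : ℝ) ^ 2 ≤ M₀ := (le_max_left _ _).trans hM₀
  have hM₀2 : ((w : ℝ) ^ 4)⁻¹ ≤ M₀ := (le_max_right _ _).trans hM₀
  have hM₀0 : NeZero M₀ := by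
    refine ⟨fun h => ?_⟩
    rw [h, Nat.cast_zero] at hM₀2
    have : 0 < ((w : ℝ) ^ 4)⁻¹ := by positivity
    linarith only [hM₀2, this]
  obtain ⟨m₀, ζ₀, hm₀⟩ := hst M₀ E ((w : ℝ) ^ 2) w (by linarith only [ha, hE]) (by positivity) hw2 hwc hM₀1
  have hfix₀ : rs (0 : Tor d M₀ → ℝ) (⟨E, (w : ℝ) ^ 2⟩ + ((w : ℝ) : ℂ) * m₀) 0 0 = m₀ := by
    rw [← hm₀.hz]
    exact hm₀.hm 0
  obtain ⟨hmc, hmC⟩ := hm₀.hc
  have hmi : 0 < m₀.im := by linarith only [hc, hmc]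
  have hmiC : m₀.im ≤ C := (le_abs_self _).trans ((Complex.abs_im_le_norm _).trans hmC)
  have hmr : |m₀.re| ≤ C := (Complex.abs_re_le_norm _).trans hmC
  -- the stage
  have hPr : (1 : ℝ) ≤ P := by exact_mod_cast hP1
  have hx1 : η / (m₀.im * w) ≤ 1 := by
    rw [div_le_one (by positivity)]
    have h1 : (w : ℝ) ^ ((P : ℝ) + 6) ≤ (w : ℝ) ^ (2 : ℝ) :=
      Real.rpow_le_rpow_of_exponent_ge hw0 hw1 (by linarith only [hc, hc', hPr])
    have h2 : (w : ℝ) ^ (2 : ℝ) = w * w := by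
      rw [← sq]
      norm_cast
    rw [h2] at h1
    have h3 : (w : ℝ) * w ≤ m₀.im * w := by
      have := hwc.trans hmc
      gcongr
    linarith only [hηP, h1, h3]
  obtain ⟨n, hn1, hn2⟩ := stg hthr hthr1 (x := η / (m₀.im * w)) (by positivity) hx1
  rw [lt_div_iff₀ (by positivity)] at hn1
  rw [div_le_iff₀ (by positivity)] at hn2
  obtain ⟨f, hf⟩ : ∃ f : ℝ≥0, f = AND2B.cl w th n := ⟨_, rfl⟩
  have hfr : (f : ℝ) = w * (th : ℝ) ^ n := by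
    rw [hf]
    unfold AND2B.cl
    push_cast
    rfl
  have hf0 : (0 : ℝ) < f := by
    rw [hfr]
    positivity
  have hf0' : 0 < f := by exact_mod_cast hf0
  have e1 : (th : ℝ) * (f * m₀.im) < η := by
    calc (th : ℝ) * (f * m₀.im) = th * (th : ℝ) ^ n * (m₀.im * w) := by
          rw [hfr]
          ring
      _ < η := hn1
  have e2 : η ≤ f * m₀.im := by
    calc η ≤ (th : ℝ) ^ n * (m₀.im * w) := hn2
      _ = f * m₀.im := by
          rw [hfr]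
          ring
  have e3 : (f : ℝ) * m₀.im ≤ 2 * η := by
    have h1 : 0 < (f : ℝ) * m₀.im := by positivity
    nlinarith only [hc, hc', hth1, hη, e1]
  have F := fk hS hc hc' hC hK hw0 hw1 (by linarith only [hc, hc', hPr]) hf0 hη hηP e3 e2 hmc hmiC
    (Nat.cast_nonneg r) hr hR
  -- the scales
  have hfP : (w : ℝ) * (th : ℝ) ^ n ≤ (w : ℝ) ^ P := by
    rw [← hfr]
    refine F.f1.trans ?_
    rw [← Real.rpow_natCast (w : ℝ) P]
    exact Real.rpow_le_rpow_of_exponent_ge hw0 hw1 (by linarith only [hc, hc'])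
  obtain ⟨N, μ, kk, l, rr, Kn, Dn, hN, hkn, hSc, hq⟩ := hscb th w n 1 hth1 le_rfl hw l2 hfP
    (by
      rw [← hfr]
      exact F.f10)
  obtain ⟨π, c', W, hN8, hsum⟩ := hnum J th (min k₁ 1) β w 1 N μ kk l rr Kn Dn hSc hw l3 hth1 hth2
    (by omega) (min_le_right _ _) hα hq
  have hsg : AND2B.sg w th kk (N + 1) = f := by
    unfold AND2B.sg
    rw [hkn, hf]
  have hmN : (f : ℝ) ^ (-5 : ℝ) ≤ 2 ^ μ := by
    have := hSc.mN
    rw [hsg] at this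
    exact this
  have hmU : (2 ^ μ : ℝ) ≤ (f : ℝ) ^ (-(C₁ * (α + 1))) := by
    have := hSc.mU
    rw [hsg] at this
    exact this
  -- the energy of the environment
  obtain ⟨EV, hEV⟩ : ∃ EV : ℝ, EV = E - f * m₀.re := ⟨_, rfl⟩
  have hEE : |EV - E| ≤ (w : ℝ) ^ 2 := by
    rw [hEV, show E - (f : ℝ) * m₀.re - E = -(f * m₀.re) by ring, abs_neg, abs_mul,
      abs_of_pos hf0]
    refine le_trans ?_ F.f4
    gcongr
  have hEV1 : |EV| < 2 * d - a / 2 := by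
    have h1 : |EV| ≤ |EV - E| + |E| := by
      have := abs_add_le (EV - E) E
      rwa [sub_add_cancel] at this
    have h2 := hS.n7
    linarith only [hw, hE, hw2, hEE, h1, h2]
  -- the ellipticity
  obtain ⟨L, hL, hWL⟩ := H16.wl_ex d (2 ^ μ) EV w hw (p := p / 4) (by positivity)
  -- the absorption
  obtain ⟨e₁, he₁, hFld⟩ := hF ⟨th, min k₁ 1, C₁, α, J, β, w, EV, 1, 0, 0, 1, N, μ, kk, l, rr, Kn,
    Dn, L, 0, 0, 0⟩ ⟨⟨hth1, hth2⟩, lt_min hk one_pos, by show 2 ≤ α; omega, hβ, hw, hEV1, one_pos, one_pos, hSc,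
      hL⟩ hth3 le_rfl rfl rfl rfl rfl le_rfl l1
  obtain ⟨e₀, he₀⟩ : ∃ e₀ : ℝ, e₀ = min e₁ (min ((w : ℝ) ^ 2) (δ₀ * f)) := ⟨_, rfl⟩
  have he0 : 0 < e₀ := by
    rw [he₀]
    positivity
  have he1 : e₀ ≤ e₁ := by rw [he₀]; exact min_le_left _ _
  have he2 : e₀ ≤ (w : ℝ) ^ 2 := by
    rw [he₀]
    exact (min_le_right _ _).trans (min_le_left _ _)
  have he3 : e₀ ≤ δ₀ * f := by
    rw [he₀]
    exact (min_le_right _ _).trans (min_le_right _ _)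
  have hlarge := ACX.H28.torus_large (C := C) hth0 hth2 hw hw1 hC0 hS.n6 hSc
  obtain ⟨m, ζ, hm⟩ := hst (2 ^ μ) EV e₀ w hEV1.le he0 (he2.trans hw2) hwc hlarge
  have hfix : rs (0 : Tor d (2 ^ μ) → ℝ) (⟨EV, e₀⟩ + ((w : ℝ) : ℂ) * m) 0 0 = m := by
    rw [← hm.hz]
    exact hm.hm 0
  have hb1 : 1 / min c (1 / C) ≥ C := by
    rw [ge_iff_le, le_div_iff₀ (by positivity)]
    calc C * min c (1 / C) ≤ C * (1 / C) := by
          have := min_le_right c (1 / C)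
          gcongr
      _ = 1 := by field_simp
  have hmm : ‖m - m₀‖ ≤ δ₀ / 2 := by
    refine hstm w hw0 l5 (2 ^ μ) M₀ EV E e₀ ((w : ℝ) ^ 2) m m₀ ?_ hM₀2 hEE he0 he2 (by positivity)
      le_rfl ((min_le_left _ _).trans hm.hc.1) (hm.hc.2.trans hb1) ((min_le_left _ _).trans hmc)
      (hmC.trans hb1) hfix hfix₀
    push_cast
    exact F.f6.trans hmN
  obtain ⟨hFields, hIni⟩ := hFld e₀ m ζ he0 he1
    ⟨⟨⟨hth1, hth2⟩, lt_min hk one_pos, by show 2 ≤ α; omega, hβ, hw, hEV1, one_pos, one_pos, hSc, hL⟩, he0, hm⟩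
  -- the radius
  obtain ⟨j, hj1, hj2⟩ := dya r
  have hj3 : K * (2 : ℝ) ^ j * 2 ≤ 2 ^ μ := by
    refine le_trans ?_ (F.f7.trans hmN)
    calc K * (2 : ℝ) ^ j * 2 ≤ K * (2 * (r + 1)) * 2 := by gcongr
      _ = 2 * K * (2 * (r + 1)) := by ring
  have hj4 : j + 1 ≤ μ := by
    have h1 : (2 : ℝ) ^ (j + 1) ≤ 2 ^ μ := by
      rw [pow_succ]
      refine le_trans ?_ hj3
      have h2 : (0 : ℝ) < 2 ^ j := by positivity
      nlinarith only [hc, hc', hK, h2]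
    exact (pow_le_pow_iff_right₀ (by norm_num : (1 : ℝ) < 2)).1 h1
  have hR1 : 1 ≤ R := by
    rcases Nat.eq_zero_or_pos R with h | h
    · exfalso
      rw [h] at hR
      have h1 : 0 < 8 * K * C ^ 4 := by positivity
      simp at hR
      linarith only [h1, hR]
    · exact h
  have key := hone (a / 2) ⟨th, min k₁ 1, C₁, α, J, β, w, EV, 1, 0, 0, 1, N, μ, kk, l, rr, Kn,
    Dn, L, e₀, m, ζ⟩ (p / 4) π c' W hth1 hth2 hw hSc (by show 1 ≤ N; omega) hFields hN8 hsum (by positivity)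
    hS.n1
    (by
      show ((AND2B.cl w th (kk (N + 1)) : ℝ≥0) : ℝ) ^ (1 / 8 : ℝ) ≤ δ₀
      rw [hkn, ← hf]
      exact (Real.rpow_le_rpow hf0.le F.f3 (by norm_num)).trans hS.n2)
    (by
      show 2 * ((AND2B.cl w th (kk (N + 1)) : ℝ≥0) : ℝ) ^
        (1 / (1000 * ((α : ℝ) + 1) ^ 2) / 2) ≤ δ₀
      rw [hkn, ← hf]
      refine le_trans ?_ hS.n3
      have := Real.rpow_le_rpow hf0.le F.f3
        (show (0 : ℝ) ≤ 1 / (1000 * ((α : ℝ) + 1) ^ 2) / 2 by positivity)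
      linarith only [this])
    hS.n4 he0
    (by
      show e₀ ≤ δ₀ * ((AND2B.cl w th (kk (N + 1)) : ℝ≥0) : ℝ)
      rw [hkn, ← hf]
      exact he3)
    m₀ (by linarith only [hc, hmc]) (by linarith only [hc, hc', hC, hmC]) hmm j R hj4 hR1
    (by
      show K * ((AND2B.cl w th (kk (N + 1)) : ℝ≥0) : ℝ) * 4 ^ j ≤
        c * (w : ℝ) ^ (8 * AHH.es - 1) / 2
      rw [hkn, ← hf]
      refine le_trans ?_ F.f8
      have h1 : (4 : ℝ) ^ j = (2 ^ j) ^ 2 := by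
        rw [← pow_mul, mul_comm j 2, pow_mul]
        norm_num
      rw [h1]
      gcongr)
    (by
      show K * 2 ^ j ≤ (2 : ℝ) ^ μ
      have h1 : 0 < K * (2 : ℝ) ^ j := by positivity
      linarith only [hj3, h1])
    (by
      show K * (8 * C ^ 3 / w) ≤ ((AND2B.cl w th (kk (N + 1)) : ℝ≥0) : ℝ) * (R : ℝ) ^ 2
      rw [hkn, ← hf]
      exact F.f9)
    ((w : ℝ) ^ 2) (fun V₀ hV₀ => ⟨_, hIni V₀ hV₀⟩)
  refine ⟨μ, j, M₀, hM₀0, f * m₀.im, m₀, by positivity, ?_, F.f5.trans hmN, hj1, hmc, hmC, hM₀2,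
    hfix₀, ?_⟩
  · rw [abs_le]
    have h1 : 0 < (f : ℝ) * m₀.im := by positivity
    constructor
    · nlinarith only [hc, hc', hth4, hη, e1, e2]
    · nlinarith only [hc, hc', hδ, hη, e2]
  · have hE2 : EV + (f : ℝ) * m₀.re = E := by
      rw [hEV]
      ring
    have key' : ∫⁻ U, ENNReal.ofReal (((Finset.univ.filter fun x : Tor d (2 ^ μ) =>
          Bd μ U (EV + ((AND2B.cl w th (kk (N + 1)) : ℝ≥0) : ℝ) * m₀.re)
            (((AND2B.cl w th (kk (N + 1)) : ℝ≥0) : ℝ) * m₀.im) m₀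
            (2 ^ j) R x).card : ℝ) / ((2 : ℝ) ^ μ) ^ d) ∂(gau d (2 ^ μ) w) ≤
        ENNReal.ofReal (p / 4 + p / 4 + (gm (fun _ : Tor d (2 ^ μ) => 0)
          (fun _ => AND2B.cl w th (kk (N + 1)))).real {V₀ | ∃ x, (w : ℝ) ^ 2 < |V₀ x|}) +
        gau d (2 ^ μ) w {U | ¬ WL EV L U} := key
    rw [hkn, ← hf, hE2] at key'
    refine key'.trans ?_
    have ht := htail w f μ hw l4 hf0' F.f2 hmU
    refine (add_le_add (ENNReal.ofReal_le_ofReal (q := 3 * p / 4) (by linarith only [ht])) hWL).trans ?_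
    rw [← ENNReal.ofReal_add (by positivity) (by positivity)]
    exact ENNReal.ofReal_le_ofReal (by linarith only)

end Pool.Agent.QDA.H34P
end
end -- Pool.Agent.Helper34_QDA.Phs

section -- Pool.Agent.Helper34_QDA.Phm

/-!
# QDA, row PHS in the M form: `PhmStmt` from `EdmStmt`
-/

set_option autoImplicit false

open MeasureTheory ProbabilityTheory Function Filter

open scoped BigOperators NNReal ENNReal Matrix InnerProductSpace Topology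

noncomputable section

namespace Pool.Agent.QDA.H34P

open Pool.Agent.BED (Tor gau)

theorem badM_mono {d M : ℕ} [NeZero M] {U : Tor d M → ℝ} {E η : ℝ} (hη : 0 ≤ η) {m : ℂ}
    {ε ε' : ℝ} {r r' R : ℕ} {x : Tor d M} (hε : ε' ≤ ε) (hr : r ≤ r')
    (h : BadM U E η m ε r R x) : BadM U E η m ε' r' R x := by
  rcases h with h | h | h
  · exact Or.inl (lt_of_le_of_lt hε h)
  · refine Or.inr (Or.inl (lt_of_le_of_lt hε (lt_of_lt_of_le h ?_)))
    refine mul_le_mul_of_nonneg_left (Finset.sum_le_sum fun y _ => ?_) hη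
    split_ifs with h1 h2
    · exact le_rfl
    · omega
    · positivity
    · exact le_rfl
  · exact Or.inr (Or.inr (lt_of_le_of_lt hε h))

open Classical in
/-- PHM -/
theorem phm (hE : EdmStmt) : PhmStmt := by
  intro d a p ε hd ha hp hε
  obtain ⟨c, C, hc, hc', hC, hst⟩ := ANI.H54.stbT d (a / 2) AHH.es hd (by positivity)
    (by norm_num [AHH.es]) (by norm_num [AHH.es])
  obtain ⟨K, δ₀, hK, hδ₀, hone⟩ := H16.phmE hE d c C (min ε (p / 4)) hd hc (by linarith) hC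
    (by positivity)
  have hC0 : 0 < C := by linarith only [hc, hc', hC]
  have hC4 : 1 ≤ C ^ 4 := one_le_pow₀ hC
  have hCC : C ≤ C ^ 4 := le_self_pow₀ hC (by norm_num)
  have hK' : 1 ≤ 8 * K * C ^ 4 := by nlinarith only [hc, hc', hK, hC4]
  have hKC : C ≤ 8 * K * C ^ 4 := by nlinarith only [hc, hc', hC, hK, hC4, hCC, hK']
  refine ⟨8 * K * C ^ 4, hK', fun δ hδ => ?_⟩
  have hone' : OneEnv d c C K δ₀ (p / 4)
      (fun μ U E η m r R x => BadM U E η m (min ε (p / 4)) r R x) := by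
    intro a V δ₁ π c' W b1 b2 b3 b4 b5 b6 b7 b8 b9 b10 b11 b12 b13 b14 b15 m₀ b16 b17 b18 j R b19
      b20 b21 b22 b23 ρ₀ b24
    refine (hone a V δ₁ π c' W b1 b2 b3 b4 b5 b6 b7 b8 b9 b10 b11 b12 b13 b14 b15 m₀ b16 b17 b18 j
      R b19 b20 b21 b22 b23 ρ₀ b24).trans ?_
    refine add_le_add (ENNReal.ofReal_le_ofReal ?_) le_rfl
    have := min_le_right ε (p / 4)
    linarith only [this]
  obtain ⟨w₀, P, hw₀, hw₀1, hP, h⟩ := phs_gen d a p c C K δ₀ hd ha hp hc hc' hC hst hK hδ₀ _ hone'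
    δ hδ
  obtain ⟨T₀, hT₀, hst0⟩ := H34S.stg0 d (min c (1 / C)) δ hd (by positivity) hδ
  refine ⟨min w₀ T₀, max P 2, lt_min hw₀ hT₀, (min_le_left _ _).trans hw₀1,
    hP.trans (le_max_left _ _), ?_⟩
  intro w E η r R hw hwle hE' hη hηP hr hR _
  have hw0 : (0 : ℝ) < w := by exact_mod_cast hw
  have hw1 : (w : ℝ) ≤ 1 := hwle.trans ((min_le_left _ _).trans hw₀1)
  have hηP' : η ≤ (w : ℝ) ^ P :=
    hηP.trans (Real.rpow_le_rpow_of_exponent_ge hw0 hw1 (le_max_left _ _))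
  have hη2 : η ≤ (w : ℝ) ^ 2 := by
    refine (hηP.trans (Real.rpow_le_rpow_of_exponent_ge hw0 hw1 (le_max_right _ _))).trans_eq ?_
    norm_cast
  obtain ⟨μ, j, M₀, hM₀, η', m₀, g1, g2, g3, g4, g5, g6, g7, g8, g9⟩ :=
    h w E η r R hw (hwle.trans (min_le_left _ _)) hE' hη hηP' hr hR
  have hb1 : C ≤ 1 / min c (1 / C) := by
    rw [le_div_iff₀ (by positivity)]
    calc C * min c (1 / C) ≤ C * (1 / C) := by
          have := min_le_right c (1 / C)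
          gcongr
      _ = 1 := by field_simp
  refine ⟨m₀, μ, η', g6.trans hKC, by linarith only [hc, g5], ?_, g1, g2, g3, ?_⟩
  · exact hst0 w hw0 (hwle.trans (min_le_right _ _)) M₀ E ((w : ℝ) ^ 2) η m₀ g7 (by positivity)
      le_rfl hη hη2 ((min_le_left _ _).trans g5) (g6.trans hb1) g8
  · refine le_trans (lintegral_mono fun U => ENNReal.ofReal_le_ofReal ?_) g9
    refine div_le_div_of_nonneg_right ?_ (by positivity)
    refine Nat.cast_le.2 (Finset.card_le_card fun x hx => ?_)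
    rw [Finset.mem_filter] at hx ⊢
    exact ⟨hx.1, badM_mono g1.le (min_le_left _ _) g4 hx.2⟩

end Pool.Agent.QDA.H34P
end
end -- Pool.Agent.Helper34_QDA.Phm

section -- Pool.Agent.Helper76_QDA.Done1

/-!
# QDA: all large times, without hypotheses
-/

set_option autoImplicit false

noncomputable section

namespace Pool.Agent.QDA.H76

theorem phmT : PhmStmt := H34P.phm H72.edmT

theorem qzmT : QzmStmt := H79.fiqm phmT H36.trm H30.ptm H24.guc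

theorem qkmT : QkmStmt := qkm phmT H36.trm H30.ptm H24.guc

end Pool.Agent.QDA.H76
end
end -- Pool.Agent.Helper76_QDA.Done1

section -- Pool.Agent.Helper76_QDA.Done

/-!
# QDA: all times `T ≥ |σ|^{-3}`, without hypotheses
-/

set_option autoImplicit false

noncomputable section

namespace Pool.Agent.QDA.H76

theorem qamT : QamStmt := H79.qam qzmT (H30.qlmT H24.guc)

theorem freT : FreStmt := H41.fre H24.guc

end Pool.Agent.QDA.H76
end
end -- Pool.Agent.Helper76_QDA.Done
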